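import Pool.Agent.AKXS_24_34_V1.Lib
import Pool.Agent.AKX.Split

set_option autoImplicit false

namespace Pool.Agent.AKXS_24_34_V1

open Pool.Agent.AKX Pool.Agent.AKU

theorem s1 :
    (D.gA x1 = true) ∧
    (D.gN x1 = true) ∧
    (D.gZ x1 = true) ∧
    (mapC D.nt (fun p => Pool.Agent.AKX.lk x1.tpP p) D.l x1.lG = true) ∧
    (x1.lG.isPerm D.l = true) ∧
    (invS64 D.T x1.sy = true) ∧
    (D.gP x1 (nat_lit 0) = true) ∧
    (D.gP x1 (nat_lit 1) = true) ∧
    (D.gP x1 (nat_lit 2) = true) ∧
    (D.gP x1 (nat_lit 3) = true) ∧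
    (D.gP x1 (nat_lit 4) = true) ∧
    (D.gP x1 (nat_lit 5) = true) ∧
    ((allM (rg (nat_lit 0) (nat_lit 15)) fun p => invF D.T x1.sy p) = true) ∧
    ((allM (rg (nat_lit 15) (nat_lit 15)) fun p => invF D.T x1.sy p) = true) ∧
    ((allM (rg (nat_lit 30) (nat_lit 15)) fun p => invF D.T x1.sy p) = true) ∧
    ((allM (rg (nat_lit 45) (nat_lit 13)) fun p => invF D.T x1.sy p) = true) ∧
    ((allN D.nt fun p => invM D.T x1.sy p) = true) :=
  ⟨by decide +kernel,
   by decide +kernel,
   by decide +kernel,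
   by decide +kernel,
   by decide +kernel,
   by decide +kernel,
   by decide +kernel,
   by decide +kernel,
   by decide +kernel,
   by decide +kernel,
   by decide +kernel,
   by decide +kernel,
   by decide +kernel,
   by decide +kernel,
   by decide +kernel,
   by decide +kernel,
   by decide +kernel⟩

end Pool.Agent.AKXS_24_34_V1
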