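import Pool.Agent.AKXS_24_34_V1.Dat
import Pool.Agent.AKX.Split

set_option autoImplicit false

namespace Pool.Agent.AKXS_24_34_V1

open Pool.Agent.AKX Pool.Agent.AKU

theorem rc7 :
    (chkRec D.T D.tc offa offb (nat_lit 39) = true) ∧
    (chkRec D.T D.tc offa offb (nat_lit 40) = true) ∧
    (chkRec D.T D.tc offa offb (nat_lit 41) = true) ∧
    (chkRec D.T D.tc offa offb (nat_lit 42) = true) ∧
    (chkRec D.T D.tc offa offb (nat_lit 43) = true) ∧
    (chkRec D.T D.tc offa offb (nat_lit 44) = true) ∧
    (chkRec D.T D.tc offa offb (nat_lit 45) = true) ∧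
    (chkRec D.T D.tc offa offb (nat_lit 46) = true) ∧
    (chkRec D.T D.tc offa offb (nat_lit 47) = true) :=
  ⟨by decide +kernel,
   by decide +kernel,
   by decide +kernel,
   by decide +kernel,
   by decide +kernel,
   by decide +kernel,
   by decide +kernel,
   by decide +kernel,
   by decide +kernel⟩

end Pool.Agent.AKXS_24_34_V1
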