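import Pool.Agent.AKXS_24_34_V1.Q0
import Pool.Agent.AKXS_24_34_V1.Q1
import Pool.Agent.AKXS_24_34_V1.Q2
import Pool.Agent.AKXS_24_34_V1.Q3
import Pool.Agent.AKXS_24_34_V1.Q4
import Pool.Agent.AKXS_24_34_V1.Q5
import Pool.Agent.AKXS_24_34_V1.Q6
import Pool.Agent.AKXS_24_34_V1.Q7
import Pool.Agent.AKXS_24_34_V1.Q8
import Pool.Agent.AKXS_24_34_V1.Q9
import Pool.Agent.AKXS_24_34_V1.Q10
import Pool.Agent.AKXS_24_34_V1.Q11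
import Pool.Agent.AKXS_24_34_V1.Q12
import Pool.Agent.AKXS_24_34_V1.Rc0
import Pool.Agent.AKXS_24_34_V1.Rc1
import Pool.Agent.AKXS_24_34_V1.Rc2
import Pool.Agent.AKXS_24_34_V1.Rc3
import Pool.Agent.AKXS_24_34_V1.Rc4
import Pool.Agent.AKXS_24_34_V1.Rc5
import Pool.Agent.AKXS_24_34_V1.Rc6
import Pool.Agent.AKXS_24_34_V1.Rc7
import Pool.Agent.AKXS_24_34_V1.Rc8
import Pool.Agent.AKXS_24_34_V1.L0
import Pool.Agent.AKX.Split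

set_option autoImplicit false

namespace Pool.Agent.AKXS_24_34_V1

open Pool.Agent.AKX Pool.Agent.AKU

theorem rcok (p : Nat) (hp : p < 58) : chkRec D.T D.tc offa offb p = true := by
  obtain ⟨r0, r1, r2, r3⟩ := rc0
  obtain ⟨r4, r5, r6, r7⟩ := rc1
  obtain ⟨r8, r9, r10, r11, r12⟩ := rc2
  obtain ⟨r13, r14, r15, r16, r17⟩ := rc3
  obtain ⟨r18, r19, r20, r21, r22, r23⟩ := rc4
  obtain ⟨r24, r25, r26, r27, r28, r29, r30⟩ := rc5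
  obtain ⟨r31, r32, r33, r34, r35, r36, r37, r38⟩ := rc6
  obtain ⟨r39, r40, r41, r42, r43, r44, r45, r46, r47⟩ := rc7
  obtain ⟨r48, r49, r50, r51, r52, r53, r54, r55, r56, r57⟩ := rc8
  interval_cases p
  · exact r0
  · exact r1
  · exact r2
  · exact r3
  · exact r4
  · exact r5
  · exact r6
  · exact r7
  · exact r8
  · exact r9
  · exact r10
  · exact r11
  · exact r12
  · exact r13
  · exact r14
  · exact r15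
  · exact r16
  · exact r17
  · exact r18
  · exact r19
  · exact r20
  · exact r21
  · exact r22
  · exact r23
  · exact r24
  · exact r25
  · exact r26
  · exact r27
  · exact r28
  · exact r29
  · exact r30
  · exact r31
  · exact r32
  · exact r33
  · exact r34
  · exact r35
  · exact r36
  · exact r37
  · exact r38
  · exact r39
  · exact r40
  · exact r41
  · exact r42
  · exact r43
  · exact r44
  · exact r45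
  · exact r46
  · exact r47
  · exact r48
  · exact r49
  · exact r50
  · exact r51
  · exact r52
  · exact r53
  · exact r54
  · exact r55
  · exact r56
  · exact r57

theorem m0 (q : Nat) (hq : q < 58) (_hpq : 0 ≤ q) : ∃ l, chkQ D.T G offw offa offb wn 0 l = true ∧ q ∈ l := by
  by_cases h0 : q < 1
  · exact ⟨_, q0.1, mem_rg.2 (show 0 ≤ q ∧ q < 0 + 1 from by omega)⟩
  by_cases h1 : q < 2
  · exact ⟨_, q0.2.1, mem_rg.2 (show 1 ≤ q ∧ q < 1 + 1 from by omega)⟩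
  by_cases h2 : q < 3
  · exact ⟨_, q0.2.2.1, mem_rg.2 (show 2 ≤ q ∧ q < 2 + 1 from by omega)⟩
  by_cases h3 : q < 4
  · exact ⟨_, q0.2.2.2.1, mem_rg.2 (show 3 ≤ q ∧ q < 3 + 1 from by omega)⟩
  by_cases h4 : q < 5
  · exact ⟨_, q0.2.2.2.2, mem_rg.2 (show 4 ≤ q ∧ q < 4 + 1 from by omega)⟩
  by_cases h5 : q < 12
  · exact ⟨_, q1.1, mem_rg.2 (show 5 ≤ q ∧ q < 5 + 7 from by omega)⟩
  by_cases h6 : q < 14
  · exact ⟨_, q1.2.1, mem_rg.2 (show 12 ≤ q ∧ q < 12 + 2 from by omega)⟩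
  by_cases h7 : q < 15
  · exact ⟨_, q1.2.2.1, mem_rg.2 (show 14 ≤ q ∧ q < 14 + 1 from by omega)⟩
  by_cases h8 : q < 18
  · exact ⟨_, q1.2.2.2.1, mem_rg.2 (show 15 ≤ q ∧ q < 15 + 3 from by omega)⟩
  by_cases h9 : q < 21
  · exact ⟨_, q1.2.2.2.2.1, mem_rg.2 (show 18 ≤ q ∧ q < 18 + 3 from by omega)⟩
  by_cases h10 : q < 25
  · exact ⟨_, q1.2.2.2.2.2, mem_rg.2 (show 21 ≤ q ∧ q < 21 + 4 from by omega)⟩
  by_cases h11 : q < 31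
  · exact ⟨_, q2.1, mem_rg.2 (show 25 ≤ q ∧ q < 25 + 6 from by omega)⟩
  by_cases h12 : q < 36
  · exact ⟨_, q2.2.1, mem_rg.2 (show 31 ≤ q ∧ q < 31 + 5 from by omega)⟩
  by_cases h13 : q < 49
  · exact ⟨_, q2.2.2.1, mem_rg.2 (show 36 ≤ q ∧ q < 36 + 13 from by omega)⟩
  exact ⟨_, q2.2.2.2, mem_rg.2 (show 49 ≤ q ∧ q < 49 + 9 from by omega)⟩

theorem m1 (q : Nat) (hq : q < 58) (_hpq : 1 ≤ q) : ∃ l, chkQ D.T G offw offa offb wn 1 l = true ∧ q ∈ l := by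
  by_cases h0 : q < 2
  · exact ⟨_, q3.1, mem_rg.2 (show 1 ≤ q ∧ q < 1 + 1 from by omega)⟩
  by_cases h1 : q < 4
  · exact ⟨_, q3.2.1, mem_rg.2 (show 2 ≤ q ∧ q < 2 + 2 from by omega)⟩
  by_cases h2 : q < 9
  · exact ⟨_, q3.2.2.1, mem_rg.2 (show 4 ≤ q ∧ q < 4 + 5 from by omega)⟩
  by_cases h3 : q < 15
  · exact ⟨_, q3.2.2.2.1, mem_rg.2 (show 9 ≤ q ∧ q < 9 + 6 from by omega)⟩
  by_cases h4 : q < 19
  · exact ⟨_, q3.2.2.2.2, mem_rg.2 (show 15 ≤ q ∧ q < 15 + 4 from by omega)⟩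
  by_cases h5 : q < 27
  · exact ⟨_, q4.1, mem_rg.2 (show 19 ≤ q ∧ q < 19 + 8 from by omega)⟩
  by_cases h6 : q < 39
  · exact ⟨_, q4.2.1, mem_rg.2 (show 27 ≤ q ∧ q < 27 + 12 from by omega)⟩
  exact ⟨_, q4.2.2.1, mem_rg.2 (show 39 ≤ q ∧ q < 39 + 19 from by omega)⟩

theorem m2 (q : Nat) (hq : q < 58) (_hpq : 2 ≤ q) : ∃ l, chkQ D.T G offw offa offb wn 2 l = true ∧ q ∈ l := by
  by_cases h0 : q < 3
  · exact ⟨_, q4.2.2.2.1, mem_rg.2 (show 2 ≤ q ∧ q < 2 + 1 from by omega)⟩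
  by_cases h1 : q < 13
  · exact ⟨_, q4.2.2.2.2, mem_rg.2 (show 3 ≤ q ∧ q < 3 + 10 from by omega)⟩
  by_cases h2 : q < 15
  · exact ⟨_, q5.1, mem_rg.2 (show 13 ≤ q ∧ q < 13 + 2 from by omega)⟩
  by_cases h3 : q < 16
  · exact ⟨_, q5.2.1, mem_rg.2 (show 15 ≤ q ∧ q < 15 + 1 from by omega)⟩
  by_cases h4 : q < 31
  · exact ⟨_, q5.2.2.1, mem_rg.2 (show 16 ≤ q ∧ q < 16 + 15 from by omega)⟩
  exact ⟨_, q5.2.2.2.1, mem_rg.2 (show 31 ≤ q ∧ q < 31 + 27 from by omega)⟩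

theorem m3 (q : Nat) (hq : q < 58) (_hpq : 3 ≤ q) : ∃ l, chkQ D.T G offw offa offb wn 3 l = true ∧ q ∈ l := by
  by_cases h0 : q < 4
  · exact ⟨_, q5.2.2.2.2, mem_rg.2 (show 3 ≤ q ∧ q < 3 + 1 from by omega)⟩
  by_cases h1 : q < 5
  · exact ⟨_, q6.1, mem_rg.2 (show 4 ≤ q ∧ q < 4 + 1 from by omega)⟩
  by_cases h2 : q < 10
  · exact ⟨_, q6.2.1, mem_rg.2 (show 5 ≤ q ∧ q < 5 + 5 from by omega)⟩
  by_cases h3 : q < 21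
  · exact ⟨_, q6.2.2.1, mem_rg.2 (show 10 ≤ q ∧ q < 10 + 11 from by omega)⟩
  by_cases h4 : q < 29
  · exact ⟨_, q6.2.2.2.1, mem_rg.2 (show 21 ≤ q ∧ q < 21 + 8 from by omega)⟩
  exact ⟨_, q6.2.2.2.2.1, mem_rg.2 (show 29 ≤ q ∧ q < 29 + 29 from by omega)⟩

theorem m4 (q : Nat) (hq : q < 58) (_hpq : 4 ≤ q) : ∃ l, chkQ D.T G offw offa offb wn 4 l = true ∧ q ∈ l := by
  by_cases h0 : q < 5
  · exact ⟨_, q6.2.2.2.2.2, mem_rg.2 (show 4 ≤ q ∧ q < 4 + 1 from by omega)⟩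
  by_cases h1 : q < 11
  · exact ⟨_, q7.1, mem_rg.2 (show 5 ≤ q ∧ q < 5 + 6 from by omega)⟩
  by_cases h2 : q < 15
  · exact ⟨_, q7.2.1, mem_rg.2 (show 11 ≤ q ∧ q < 11 + 4 from by omega)⟩
  by_cases h3 : q < 19
  · exact ⟨_, q7.2.2.1, mem_rg.2 (show 15 ≤ q ∧ q < 15 + 4 from by omega)⟩
  by_cases h4 : q < 25
  · exact ⟨_, q7.2.2.2.1, mem_rg.2 (show 19 ≤ q ∧ q < 19 + 6 from by omega)⟩
  by_cases h5 : q < 30
  · exact ⟨_, q7.2.2.2.2, mem_rg.2 (show 25 ≤ q ∧ q < 25 + 5 from by omega)⟩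
  by_cases h6 : q < 31
  · exact ⟨_, q8.1, mem_rg.2 (show 30 ≤ q ∧ q < 30 + 1 from by omega)⟩
  by_cases h7 : q < 35
  · exact ⟨_, q8.2.1, mem_rg.2 (show 31 ≤ q ∧ q < 31 + 4 from by omega)⟩
  by_cases h8 : q < 44
  · exact ⟨_, q8.2.2.1, mem_rg.2 (show 35 ≤ q ∧ q < 35 + 9 from by omega)⟩
  exact ⟨_, q8.2.2.2.1, mem_rg.2 (show 44 ≤ q ∧ q < 44 + 14 from by omega)⟩

theorem m5 (q : Nat) (hq : q < 58) (_hpq : 5 ≤ q) : ∃ l, chkQ D.T G offw offa offb wn 5 l = true ∧ q ∈ l := by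
  by_cases h0 : q < 10
  · exact ⟨_, q8.2.2.2.2, mem_rg.2 (show 5 ≤ q ∧ q < 5 + 5 from by omega)⟩
  by_cases h1 : q < 20
  · exact ⟨_, q9.1, mem_rg.2 (show 10 ≤ q ∧ q < 10 + 10 from by omega)⟩
  by_cases h2 : q < 29
  · exact ⟨_, q9.2.1, mem_rg.2 (show 20 ≤ q ∧ q < 20 + 9 from by omega)⟩
  exact ⟨_, q9.2.2.1, mem_rg.2 (show 29 ≤ q ∧ q < 29 + 29 from by omega)⟩

theorem m6 (q : Nat) (hq : q < 58) (_hpq : 6 ≤ q) : ∃ l, chkQ D.T G offw offa offb wn 6 l = true ∧ q ∈ l := by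
  exact ⟨_, q9.2.2.2.1, mem_rg.2 (show 6 ≤ q ∧ q < 6 + 52 from by omega)⟩

theorem m7 (q : Nat) (hq : q < 58) (_hpq : 7 ≤ q) : ∃ l, chkQ D.T G offw offa offb wn 7 l = true ∧ q ∈ l := by
  exact ⟨_, q9.2.2.2.2.1, mem_rg.2 (show 7 ≤ q ∧ q < 7 + 51 from by omega)⟩

theorem m8 (q : Nat) (hq : q < 58) (_hpq : 8 ≤ q) : ∃ l, chkQ D.T G offw offa offb wn 8 l = true ∧ q ∈ l := by
  exact ⟨_, q9.2.2.2.2.2.1, mem_rg.2 (show 8 ≤ q ∧ q < 8 + 50 from by omega)⟩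

theorem m9 (q : Nat) (hq : q < 58) (_hpq : 9 ≤ q) : ∃ l, chkQ D.T G offw offa offb wn 9 l = true ∧ q ∈ l := by
  exact ⟨_, q9.2.2.2.2.2.2.1, mem_rg.2 (show 9 ≤ q ∧ q < 9 + 49 from by omega)⟩

theorem m10 (q : Nat) (hq : q < 58) (_hpq : 10 ≤ q) : ∃ l, chkQ D.T G offw offa offb wn 10 l = true ∧ q ∈ l := by
  by_cases h0 : q < 13
  · exact ⟨_, q9.2.2.2.2.2.2.2.1, mem_rg.2 (show 10 ≤ q ∧ q < 10 + 3 from by omega)⟩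
  by_cases h1 : q < 19
  · exact ⟨_, q9.2.2.2.2.2.2.2.2, mem_rg.2 (show 13 ≤ q ∧ q < 13 + 6 from by omega)⟩
  by_cases h2 : q < 36
  · exact ⟨_, q10.1, mem_rg.2 (show 19 ≤ q ∧ q < 19 + 17 from by omega)⟩
  exact ⟨_, q10.2.1, mem_rg.2 (show 36 ≤ q ∧ q < 36 + 22 from by omega)⟩

theorem m11 (q : Nat) (hq : q < 58) (_hpq : 11 ≤ q) : ∃ l, chkQ D.T G offw offa offb wn 11 l = true ∧ q ∈ l := by
  exact ⟨_, q10.2.2.1, mem_rg.2 (show 11 ≤ q ∧ q < 11 + 47 from by omega)⟩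

theorem m12 (q : Nat) (hq : q < 58) (_hpq : 12 ≤ q) : ∃ l, chkQ D.T G offw offa offb wn 12 l = true ∧ q ∈ l := by
  exact ⟨_, q10.2.2.2.1, mem_rg.2 (show 12 ≤ q ∧ q < 12 + 46 from by omega)⟩

theorem m13 (q : Nat) (hq : q < 58) (_hpq : 13 ≤ q) : ∃ l, chkQ D.T G offw offa offb wn 13 l = true ∧ q ∈ l := by
  by_cases h0 : q < 15
  · exact ⟨_, q10.2.2.2.2.1, mem_rg.2 (show 13 ≤ q ∧ q < 13 + 2 from by omega)⟩
  by_cases h1 : q < 17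
  · exact ⟨_, q10.2.2.2.2.2.1, mem_rg.2 (show 15 ≤ q ∧ q < 15 + 2 from by omega)⟩
  by_cases h2 : q < 20
  · exact ⟨_, q10.2.2.2.2.2.2, mem_rg.2 (show 17 ≤ q ∧ q < 17 + 3 from by omega)⟩
  by_cases h3 : q < 34
  · exact ⟨_, q11.1, mem_rg.2 (show 20 ≤ q ∧ q < 20 + 14 from by omega)⟩
  exact ⟨_, q11.2.1, mem_rg.2 (show 34 ≤ q ∧ q < 34 + 24 from by omega)⟩

theorem m14 (q : Nat) (hq : q < 58) (_hpq : 14 ≤ q) : ∃ l, chkQ D.T G offw offa offb wn 14 l = true ∧ q ∈ l := by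
  exact ⟨_, q11.2.2.1, mem_rg.2 (show 14 ≤ q ∧ q < 14 + 44 from by omega)⟩

theorem m15 (q : Nat) (hq : q < 58) (_hpq : 15 ≤ q) : ∃ l, chkQ D.T G offw offa offb wn 15 l = true ∧ q ∈ l := by
  by_cases h0 : q < 16
  · exact ⟨_, q11.2.2.2.1, mem_rg.2 (show 15 ≤ q ∧ q < 15 + 1 from by omega)⟩
  by_cases h1 : q < 26
  · exact ⟨_, q11.2.2.2.2.1, mem_rg.2 (show 16 ≤ q ∧ q < 16 + 10 from by omega)⟩
  exact ⟨_, q11.2.2.2.2.2.1, mem_rg.2 (show 26 ≤ q ∧ q < 26 + 32 from by omega)⟩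

theorem m16 (q : Nat) (hq : q < 58) (_hpq : 16 ≤ q) : ∃ l, chkQ D.T G offw offa offb wn 16 l = true ∧ q ∈ l := by
  exact ⟨_, q11.2.2.2.2.2.2.1, mem_rg.2 (show 16 ≤ q ∧ q < 16 + 42 from by omega)⟩

theorem m17 (q : Nat) (hq : q < 58) (_hpq : 17 ≤ q) : ∃ l, chkQ D.T G offw offa offb wn 17 l = true ∧ q ∈ l := by
  by_cases h0 : q < 25
  · exact ⟨_, q11.2.2.2.2.2.2.2, mem_rg.2 (show 17 ≤ q ∧ q < 17 + 8 from by omega)⟩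
  exact ⟨_, q12.1, mem_rg.2 (show 25 ≤ q ∧ q < 25 + 33 from by omega)⟩

theorem m18 (q : Nat) (hq : q < 58) (_hpq : 18 ≤ q) : ∃ l, chkQ D.T G offw offa offb wn 18 l = true ∧ q ∈ l := by
  exact ⟨_, q12.2.1, mem_rg.2 (show 18 ≤ q ∧ q < 18 + 40 from by omega)⟩

theorem m19 (q : Nat) (hq : q < 58) (_hpq : 19 ≤ q) : ∃ l, chkQ D.T G offw offa offb wn 19 l = true ∧ q ∈ l := by
  exact ⟨_, q12.2.2.1, mem_rg.2 (show 19 ≤ q ∧ q < 19 + 39 from by omega)⟩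

theorem m20 (q : Nat) (hq : q < 58) (_hpq : 20 ≤ q) : ∃ l, chkQ D.T G offw offa offb wn 20 l = true ∧ q ∈ l := by
  exact ⟨_, q12.2.2.2.1, mem_rg.2 (show 20 ≤ q ∧ q < 20 + 38 from by omega)⟩

theorem m21 (q : Nat) (hq : q < 58) (_hpq : 21 ≤ q) : ∃ l, chkQ D.T G offw offa offb wn 21 l = true ∧ q ∈ l := by
  exact ⟨_, q12.2.2.2.2.1, mem_rg.2 (show 21 ≤ q ∧ q < 21 + 37 from by omega)⟩

theorem m22 (q : Nat) (hq : q < 58) (_hpq : 22 ≤ q) : ∃ l, chkQ D.T G offw offa offb wn 22 l = true ∧ q ∈ l := by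
  exact ⟨_, q12.2.2.2.2.2.1, mem_rg.2 (show 22 ≤ q ∧ q < 22 + 36 from by omega)⟩

theorem m23 (q : Nat) (hq : q < 58) (_hpq : 23 ≤ q) : ∃ l, chkQ D.T G offw offa offb wn 23 l = true ∧ q ∈ l := by
  exact ⟨_, q12.2.2.2.2.2.2.1, mem_rg.2 (show 23 ≤ q ∧ q < 23 + 35 from by omega)⟩

theorem m24 (q : Nat) (hq : q < 58) (_hpq : 24 ≤ q) : ∃ l, chkQ D.T G offw offa offb wn 24 l = true ∧ q ∈ l := by
  exact ⟨_, q12.2.2.2.2.2.2.2.1, mem_rg.2 (show 24 ≤ q ∧ q < 24 + 34 from by omega)⟩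

theorem m25 (q : Nat) (hq : q < 58) (_hpq : 25 ≤ q) : ∃ l, chkQ D.T G offw offa offb wn 25 l = true ∧ q ∈ l := by
  exact ⟨_, q12.2.2.2.2.2.2.2.2.1, mem_rg.2 (show 25 ≤ q ∧ q < 25 + 33 from by omega)⟩

theorem m26 (q : Nat) (hq : q < 58) (_hpq : 26 ≤ q) : ∃ l, chkQ D.T G offw offa offb wn 26 l = true ∧ q ∈ l := by
  exact ⟨_, q12.2.2.2.2.2.2.2.2.2.1, mem_rg.2 (show 26 ≤ q ∧ q < 26 + 32 from by omega)⟩

theorem m27 (q : Nat) (hq : q < 58) (_hpq : 27 ≤ q) : ∃ l, chkQ D.T G offw offa offb wn 27 l = true ∧ q ∈ l := by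
  exact ⟨_, q12.2.2.2.2.2.2.2.2.2.2.1, mem_rg.2 (show 27 ≤ q ∧ q < 27 + 31 from by omega)⟩

theorem m28 (q : Nat) (hq : q < 58) (_hpq : 28 ≤ q) : ∃ l, chkQ D.T G offw offa offb wn 28 l = true ∧ q ∈ l := by
  exact ⟨_, q12.2.2.2.2.2.2.2.2.2.2.2.1, mem_rg.2 (show 28 ≤ q ∧ q < 28 + 30 from by omega)⟩

theorem m29 (q : Nat) (hq : q < 58) (_hpq : 29 ≤ q) : ∃ l, chkQ D.T G offw offa offb wn 29 l = true ∧ q ∈ l := by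
  exact ⟨_, q12.2.2.2.2.2.2.2.2.2.2.2.2.1, mem_rg.2 (show 29 ≤ q ∧ q < 29 + 29 from by omega)⟩

theorem m30 (q : Nat) (hq : q < 58) (_hpq : 30 ≤ q) : ∃ l, chkQ D.T G offw offa offb wn 30 l = true ∧ q ∈ l := by
  exact ⟨_, q12.2.2.2.2.2.2.2.2.2.2.2.2.2.1, mem_rg.2 (show 30 ≤ q ∧ q < 30 + 28 from by omega)⟩

theorem m31 (q : Nat) (hq : q < 58) (_hpq : 31 ≤ q) : ∃ l, chkQ D.T G offw offa offb wn 31 l = true ∧ q ∈ l := by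
  exact ⟨_, q12.2.2.2.2.2.2.2.2.2.2.2.2.2.2.1, mem_rg.2 (show 31 ≤ q ∧ q < 31 + 27 from by omega)⟩

theorem m32 (q : Nat) (hq : q < 58) (_hpq : 32 ≤ q) : ∃ l, chkQ D.T G offw offa offb wn 32 l = true ∧ q ∈ l := by
  exact ⟨_, q12.2.2.2.2.2.2.2.2.2.2.2.2.2.2.2.1, mem_rg.2 (show 32 ≤ q ∧ q < 32 + 26 from by omega)⟩

theorem m33 (q : Nat) (hq : q < 58) (_hpq : 33 ≤ q) : ∃ l, chkQ D.T G offw offa offb wn 33 l = true ∧ q ∈ l := by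
  exact ⟨_, q12.2.2.2.2.2.2.2.2.2.2.2.2.2.2.2.2.1, mem_rg.2 (show 33 ≤ q ∧ q < 33 + 25 from by omega)⟩

theorem m34 (q : Nat) (hq : q < 58) (_hpq : 34 ≤ q) : ∃ l, chkQ D.T G offw offa offb wn 34 l = true ∧ q ∈ l := by
  exact ⟨_, q12.2.2.2.2.2.2.2.2.2.2.2.2.2.2.2.2.2.1, mem_rg.2 (show 34 ≤ q ∧ q < 34 + 24 from by omega)⟩

theorem m35 (q : Nat) (hq : q < 58) (_hpq : 35 ≤ q) : ∃ l, chkQ D.T G offw offa offb wn 35 l = true ∧ q ∈ l := by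
  exact ⟨_, q12.2.2.2.2.2.2.2.2.2.2.2.2.2.2.2.2.2.2.1, mem_rg.2 (show 35 ≤ q ∧ q < 35 + 23 from by omega)⟩

theorem m36 (q : Nat) (hq : q < 58) (_hpq : 36 ≤ q) : ∃ l, chkQ D.T G offw offa offb wn 36 l = true ∧ q ∈ l := by
  exact ⟨_, q12.2.2.2.2.2.2.2.2.2.2.2.2.2.2.2.2.2.2.2.1, mem_rg.2 (show 36 ≤ q ∧ q < 36 + 22 from by omega)⟩

theorem m37 (q : Nat) (hq : q < 58) (_hpq : 37 ≤ q) : ∃ l, chkQ D.T G offw offa offb wn 37 l = true ∧ q ∈ l := by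
  exact ⟨_, q12.2.2.2.2.2.2.2.2.2.2.2.2.2.2.2.2.2.2.2.2.1, mem_rg.2 (show 37 ≤ q ∧ q < 37 + 21 from by omega)⟩

theorem m38 (q : Nat) (hq : q < 58) (_hpq : 38 ≤ q) : ∃ l, chkQ D.T G offw offa offb wn 38 l = true ∧ q ∈ l := by
  exact ⟨_, q12.2.2.2.2.2.2.2.2.2.2.2.2.2.2.2.2.2.2.2.2.2.1, mem_rg.2 (show 38 ≤ q ∧ q < 38 + 20 from by omega)⟩

theorem m39 (q : Nat) (hq : q < 58) (_hpq : 39 ≤ q) : ∃ l, chkQ D.T G offw offa offb wn 39 l = true ∧ q ∈ l := by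
  exact ⟨_, q12.2.2.2.2.2.2.2.2.2.2.2.2.2.2.2.2.2.2.2.2.2.2.1, mem_rg.2 (show 39 ≤ q ∧ q < 39 + 19 from by omega)⟩

theorem m40 (q : Nat) (hq : q < 58) (_hpq : 40 ≤ q) : ∃ l, chkQ D.T G offw offa offb wn 40 l = true ∧ q ∈ l := by
  exact ⟨_, q12.2.2.2.2.2.2.2.2.2.2.2.2.2.2.2.2.2.2.2.2.2.2.2.1, mem_rg.2 (show 40 ≤ q ∧ q < 40 + 18 from by omega)⟩

theorem m41 (q : Nat) (hq : q < 58) (_hpq : 41 ≤ q) : ∃ l, chkQ D.T G offw offa offb wn 41 l = true ∧ q ∈ l := by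
  exact ⟨_, q12.2.2.2.2.2.2.2.2.2.2.2.2.2.2.2.2.2.2.2.2.2.2.2.2.1, mem_rg.2 (show 41 ≤ q ∧ q < 41 + 17 from by omega)⟩

theorem m42 (q : Nat) (hq : q < 58) (_hpq : 42 ≤ q) : ∃ l, chkQ D.T G offw offa offb wn 42 l = true ∧ q ∈ l := by
  exact ⟨_, q12.2.2.2.2.2.2.2.2.2.2.2.2.2.2.2.2.2.2.2.2.2.2.2.2.2.1, mem_rg.2 (show 42 ≤ q ∧ q < 42 + 16 from by omega)⟩

theorem m43 (q : Nat) (hq : q < 58) (_hpq : 43 ≤ q) : ∃ l, chkQ D.T G offw offa offb wn 43 l = true ∧ q ∈ l := by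
  exact ⟨_, q12.2.2.2.2.2.2.2.2.2.2.2.2.2.2.2.2.2.2.2.2.2.2.2.2.2.2.1, mem_rg.2 (show 43 ≤ q ∧ q < 43 + 15 from by omega)⟩

theorem m44 (q : Nat) (hq : q < 58) (_hpq : 44 ≤ q) : ∃ l, chkQ D.T G offw offa offb wn 44 l = true ∧ q ∈ l := by
  exact ⟨_, q12.2.2.2.2.2.2.2.2.2.2.2.2.2.2.2.2.2.2.2.2.2.2.2.2.2.2.2.1, mem_rg.2 (show 44 ≤ q ∧ q < 44 + 14 from by omega)⟩

theorem m45 (q : Nat) (hq : q < 58) (_hpq : 45 ≤ q) : ∃ l, chkQ D.T G offw offa offb wn 45 l = true ∧ q ∈ l := by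
  exact ⟨_, q12.2.2.2.2.2.2.2.2.2.2.2.2.2.2.2.2.2.2.2.2.2.2.2.2.2.2.2.2.1, mem_rg.2 (show 45 ≤ q ∧ q < 45 + 13 from by omega)⟩

theorem m46 (q : Nat) (hq : q < 58) (_hpq : 46 ≤ q) : ∃ l, chkQ D.T G offw offa offb wn 46 l = true ∧ q ∈ l := by
  exact ⟨_, q12.2.2.2.2.2.2.2.2.2.2.2.2.2.2.2.2.2.2.2.2.2.2.2.2.2.2.2.2.2.1, mem_rg.2 (show 46 ≤ q ∧ q < 46 + 12 from by omega)⟩

theorem m47 (q : Nat) (hq : q < 58) (_hpq : 47 ≤ q) : ∃ l, chkQ D.T G offw offa offb wn 47 l = true ∧ q ∈ l := by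
  exact ⟨_, q12.2.2.2.2.2.2.2.2.2.2.2.2.2.2.2.2.2.2.2.2.2.2.2.2.2.2.2.2.2.2.1, mem_rg.2 (show 47 ≤ q ∧ q < 47 + 11 from by omega)⟩

theorem m48 (q : Nat) (hq : q < 58) (_hpq : 48 ≤ q) : ∃ l, chkQ D.T G offw offa offb wn 48 l = true ∧ q ∈ l := by
  exact ⟨_, q12.2.2.2.2.2.2.2.2.2.2.2.2.2.2.2.2.2.2.2.2.2.2.2.2.2.2.2.2.2.2.2.1, mem_rg.2 (show 48 ≤ q ∧ q < 48 + 10 from by omega)⟩

theorem m49 (q : Nat) (hq : q < 58) (_hpq : 49 ≤ q) : ∃ l, chkQ D.T G offw offa offb wn 49 l = true ∧ q ∈ l := by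
  exact ⟨_, q12.2.2.2.2.2.2.2.2.2.2.2.2.2.2.2.2.2.2.2.2.2.2.2.2.2.2.2.2.2.2.2.2.1, mem_rg.2 (show 49 ≤ q ∧ q < 49 + 9 from by omega)⟩

theorem m50 (q : Nat) (hq : q < 58) (_hpq : 50 ≤ q) : ∃ l, chkQ D.T G offw offa offb wn 50 l = true ∧ q ∈ l := by
  exact ⟨_, q12.2.2.2.2.2.2.2.2.2.2.2.2.2.2.2.2.2.2.2.2.2.2.2.2.2.2.2.2.2.2.2.2.2.1, mem_rg.2 (show 50 ≤ q ∧ q < 50 + 8 from by omega)⟩

theorem m51 (q : Nat) (hq : q < 58) (_hpq : 51 ≤ q) : ∃ l, chkQ D.T G offw offa offb wn 51 l = true ∧ q ∈ l := by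
  exact ⟨_, q12.2.2.2.2.2.2.2.2.2.2.2.2.2.2.2.2.2.2.2.2.2.2.2.2.2.2.2.2.2.2.2.2.2.2.1, mem_rg.2 (show 51 ≤ q ∧ q < 51 + 7 from by omega)⟩

theorem m52 (q : Nat) (hq : q < 58) (_hpq : 52 ≤ q) : ∃ l, chkQ D.T G offw offa offb wn 52 l = true ∧ q ∈ l := by
  exact ⟨_, q12.2.2.2.2.2.2.2.2.2.2.2.2.2.2.2.2.2.2.2.2.2.2.2.2.2.2.2.2.2.2.2.2.2.2.2.1, mem_rg.2 (show 52 ≤ q ∧ q < 52 + 6 from by omega)⟩

theorem m53 (q : Nat) (hq : q < 58) (_hpq : 53 ≤ q) : ∃ l, chkQ D.T G offw offa offb wn 53 l = true ∧ q ∈ l := by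
  exact ⟨_, q12.2.2.2.2.2.2.2.2.2.2.2.2.2.2.2.2.2.2.2.2.2.2.2.2.2.2.2.2.2.2.2.2.2.2.2.2.1, mem_rg.2 (show 53 ≤ q ∧ q < 53 + 5 from by omega)⟩

theorem m54 (q : Nat) (hq : q < 58) (_hpq : 54 ≤ q) : ∃ l, chkQ D.T G offw offa offb wn 54 l = true ∧ q ∈ l := by
  exact ⟨_, q12.2.2.2.2.2.2.2.2.2.2.2.2.2.2.2.2.2.2.2.2.2.2.2.2.2.2.2.2.2.2.2.2.2.2.2.2.2.1, mem_rg.2 (show 54 ≤ q ∧ q < 54 + 4 from by omega)⟩

theorem m55 (q : Nat) (hq : q < 58) (_hpq : 55 ≤ q) : ∃ l, chkQ D.T G offw offa offb wn 55 l = true ∧ q ∈ l := by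
  exact ⟨_, q12.2.2.2.2.2.2.2.2.2.2.2.2.2.2.2.2.2.2.2.2.2.2.2.2.2.2.2.2.2.2.2.2.2.2.2.2.2.2.1, mem_rg.2 (show 55 ≤ q ∧ q < 55 + 3 from by omega)⟩

theorem m56 (q : Nat) (hq : q < 58) (_hpq : 56 ≤ q) : ∃ l, chkQ D.T G offw offa offb wn 56 l = true ∧ q ∈ l := by
  exact ⟨_, q12.2.2.2.2.2.2.2.2.2.2.2.2.2.2.2.2.2.2.2.2.2.2.2.2.2.2.2.2.2.2.2.2.2.2.2.2.2.2.2.1, mem_rg.2 (show 56 ≤ q ∧ q < 56 + 2 from by omega)⟩

theorem m57 (q : Nat) (hq : q < 58) (_hpq : 57 ≤ q) : ∃ l, chkQ D.T G offw offa offb wn 57 l = true ∧ q ∈ l := by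
  exact ⟨_, q12.2.2.2.2.2.2.2.2.2.2.2.2.2.2.2.2.2.2.2.2.2.2.2.2.2.2.2.2.2.2.2.2.2.2.2.2.2.2.2.2, mem_rg.2 (show 57 ≤ q ∧ q < 57 + 1 from by omega)⟩

theorem mq (p : Nat) (hp : p < 58) (q : Nat) (hq : q < 58) (hpq : p ≤ q) : ∃ l, chkQ D.T G offw offa offb wn p l = true ∧ q ∈ l := by
  interval_cases p
  · exact m0 q hq hpq
  · exact m1 q hq hpq
  · exact m2 q hq hpq
  · exact m3 q hq hpq
  · exact m4 q hq hpq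
  · exact m5 q hq hpq
  · exact m6 q hq hpq
  · exact m7 q hq hpq
  · exact m8 q hq hpq
  · exact m9 q hq hpq
  · exact m10 q hq hpq
  · exact m11 q hq hpq
  · exact m12 q hq hpq
  · exact m13 q hq hpq
  · exact m14 q hq hpq
  · exact m15 q hq hpq
  · exact m16 q hq hpq
  · exact m17 q hq hpq
  · exact m18 q hq hpq
  · exact m19 q hq hpq
  · exact m20 q hq hpq
  · exact m21 q hq hpq
  · exact m22 q hq hpq
  · exact m23 q hq hpq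
  · exact m24 q hq hpq
  · exact m25 q hq hpq
  · exact m26 q hq hpq
  · exact m27 q hq hpq
  · exact m28 q hq hpq
  · exact m29 q hq hpq
  · exact m30 q hq hpq
  · exact m31 q hq hpq
  · exact m32 q hq hpq
  · exact m33 q hq hpq
  · exact m34 q hq hpq
  · exact m35 q hq hpq
  · exact m36 q hq hpq
  · exact m37 q hq hpq
  · exact m38 q hq hpq
  · exact m39 q hq hpq
  · exact m40 q hq hpq
  · exact m41 q hq hpq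
  · exact m42 q hq hpq
  · exact m43 q hq hpq
  · exact m44 q hq hpq
  · exact m45 q hq hpq
  · exact m46 q hq hpq
  · exact m47 q hq hpq
  · exact m48 q hq hpq
  · exact m49 q hq hpq
  · exact m50 q hq hpq
  · exact m51 q hq hpq
  · exact m52 q hq hpq
  · exact m53 q hq hpq
  · exact m54 q hq hpq
  · exact m55 q hq hpq
  · exact m56 q hq hpq
  · exact m57 q hq hpq

theorem mok : Dt.MOk D (xs.map Gd.sy) offw offa offb wn where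
  rc := rcok
  w := l0.1
  wt := chkWt_of l0.2.1
  q := mq

end Pool.Agent.AKXS_24_34_V1
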