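import Pool.Agent.AKXS_24_34_V1.R0
import Pool.Agent.AKXS_24_34_V1.R1
import Pool.Agent.AKXS_24_34_V1.R2
import Pool.Agent.AKXS_24_34_V1.R3
import Pool.Agent.AKXS_24_34_V1.R4
import Pool.Agent.AKXS_24_34_V1.R5
import Pool.Agent.AKXS_24_34_V1.R6
import Pool.Agent.AKXS_24_34_V1.R7
import Pool.Agent.AKXS_24_34_V1.R8
import Pool.Agent.AKXS_24_34_V1.R9
import Pool.Agent.AKXS_24_34_V1.R10
import Pool.Agent.AKXS_24_34_V1.R11
import Pool.Agent.AKXS_24_34_V1.R12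

set_option autoImplicit false

namespace Pool.Agent.AKXS_24_34_V1

open Pool.Agent.AKX Pool.Agent.AKU

noncomputable def e6_0 : List Rx := [
  Rx.mk (nat_lit 116) (nat_lit 4) (nat_lit 6) (nat_lit 1) (nat_lit 6) (nat_lit 67) (nat_lit 71) r3_67 r0_71 (nat_lit 2928) (nat_lit 0) (nat_lit 0) (nat_lit 0x806d30ec2) (nat_lit 530370140)]
noncomputable def e6_1 : List Rx := [
  Rx.mk (nat_lit 116) (nat_lit 4) (nat_lit 6) (nat_lit 1) (nat_lit 6) (nat_lit 68) (nat_lit 66) r3_68 r1_66 (nat_lit 15428) (nat_lit 0) (nat_lit 0) (nat_lit 0x81eea1d52) (nat_lit 507420490),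
  Rx.mk (nat_lit 372) (nat_lit 4) (nat_lit 6) (nat_lit 5) (nat_lit 6) (nat_lit 69) (nat_lit 67) r3_69 r1_67 (nat_lit 187256) (nat_lit 0) (nat_lit 0) (nat_lit 0x7e7e37ede) (nat_lit 561441168),
  Rx.mk (nat_lit 374) (nat_lit 6) (nat_lit 6) (nat_lit 5) (nat_lit 7) (nat_lit 70) (nat_lit 68) r3_70 r1_68 (nat_lit 0) (nat_lit 0) (nat_lit 0) (nat_lit 0x802f26848) (nat_lit 535238762)]
noncomputable def e6_2 : List Rx := [
  Rx.mk (nat_lit 342) (nat_lit 6) (nat_lit 2) (nat_lit 5) (nat_lit 7) (nat_lit 20) (nat_lit 60) r3_20 r2_60 (nat_lit 0) (nat_lit 0) (nat_lit 0) (nat_lit 0x8616d9e60) (nat_lit 444661462),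
  Rx.mk (nat_lit 372) (nat_lit 4) (nat_lit 6) (nat_lit 5) (nat_lit 6) (nat_lit 21) (nat_lit 59) r3_21 r2_59 (nat_lit 1368375) (nat_lit 0) (nat_lit 0) (nat_lit 0x80b22cd14) (nat_lit 527945287),
  Rx.mk (nat_lit 374) (nat_lit 6) (nat_lit 6) (nat_lit 5) (nat_lit 7) (nat_lit 22) (nat_lit 61) r3_22 r2_61 (nat_lit 0) (nat_lit 0) (nat_lit 0) (nat_lit 0x842b28ae4) (nat_lit 474011712)]
noncomputable def e6_3 : List Rx := [
  Rx.mk (nat_lit 39) (nat_lit 7) (nat_lit 4) (nat_lit 0) (nat_lit 1) (nat_lit 61) (nat_lit 63) r3_61 r3_63 (nat_lit 0) (nat_lit 326) (nat_lit 173) (nat_lit 0x8083adba0) (nat_lit 529026761),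
  Rx.mk (nat_lit 52) (nat_lit 4) (nat_lit 6) (nat_lit 0) (nat_lit 2) (nat_lit 63) (nat_lit 61) r3_63 r3_61 (nat_lit 326) (nat_lit 0) (nat_lit 173) (nat_lit 0x8083adba0) (nat_lit 529026761),
  Rx.mk (nat_lit 55) (nat_lit 7) (nat_lit 6) (nat_lit 0) (nat_lit 3) (nat_lit 65) (nat_lit 65) r3_65 r3_65 (nat_lit 0) (nat_lit 0) (nat_lit 180052) (nat_lit 0x896e29a6e) (nat_lit 393288514),
  Rx.mk (nat_lit 103) (nat_lit 7) (nat_lit 4) (nat_lit 1) (nat_lit 5) (nat_lit 62) (nat_lit 64) r3_62 r3_64 (nat_lit 0) (nat_lit 10672) (nat_lit 0) (nat_lit 0x7ff6bfff4) (nat_lit 537468484),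
  Rx.mk (nat_lit 116) (nat_lit 4) (nat_lit 6) (nat_lit 1) (nat_lit 6) (nat_lit 64) (nat_lit 62) r3_64 r3_62 (nat_lit 10672) (nat_lit 0) (nat_lit 0) (nat_lit 0x7ff6bfff4) (nat_lit 537468484),
  Rx.mk (nat_lit 119) (nat_lit 7) (nat_lit 6) (nat_lit 1) (nat_lit 7) (nat_lit 66) (nat_lit 66) r3_66 r3_66 (nat_lit 0) (nat_lit 0) (nat_lit 0) (nat_lit 0x8ace81da2) (nat_lit 372721762)]
noncomputable def e6_4 : List Rx := [
  Rx.mk (nat_lit 103) (nat_lit 7) (nat_lit 4) (nat_lit 1) (nat_lit 5) (nat_lit 71) (nat_lit 66) r3_71 r4_66 (nat_lit 0) (nat_lit 162706) (nat_lit 0) (nat_lit 0x7fec4a02e) (nat_lit 538305068),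
  Rx.mk (nat_lit 116) (nat_lit 4) (nat_lit 6) (nat_lit 1) (nat_lit 6) (nat_lit 72) (nat_lit 65) r3_72 r4_65 (nat_lit 20881) (nat_lit 0) (nat_lit 0) (nat_lit 0x7ff798390) (nat_lit 537424343),
  Rx.mk (nat_lit 119) (nat_lit 7) (nat_lit 6) (nat_lit 1) (nat_lit 7) (nat_lit 73) (nat_lit 67) r3_73 r4_67 (nat_lit 0) (nat_lit 0) (nat_lit 0) (nat_lit 0x7ffafb73a) (nat_lit 537214012)]
noncomputable def e6_5 : List Rx := [
  Rx.mk (nat_lit 39) (nat_lit 7) (nat_lit 4) (nat_lit 0) (nat_lit 1) (nat_lit 82) (nat_lit 55) r3_82 r5_55 (nat_lit 0) (nat_lit 4830) (nat_lit 3690) (nat_lit 0x7ffd07a60) (nat_lit 537068682),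
  Rx.mk (nat_lit 52) (nat_lit 4) (nat_lit 6) (nat_lit 0) (nat_lit 2) (nat_lit 84) (nat_lit 52) r3_84 r5_52 (nat_lit 2749) (nat_lit 0) (nat_lit 1558) (nat_lit 0x800757f88) (nat_lit 536440369),
  Rx.mk (nat_lit 55) (nat_lit 7) (nat_lit 6) (nat_lit 0) (nat_lit 3) (nat_lit 87) (nat_lit 59) r3_87 r5_59 (nat_lit 0) (nat_lit 0) (nat_lit 255679) (nat_lit 0x890dc1b68) (nat_lit 399147191),
  Rx.mk (nat_lit 63) (nat_lit 7) (nat_lit 7) (nat_lit 0) (nat_lit 3) (nat_lit 89) (nat_lit 57) r3_89 r5_57 (nat_lit 0) (nat_lit 0) (nat_lit 2939284) (nat_lit 0x760f97a22) (nat_lit 700976746),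
  Rx.mk (nat_lit 103) (nat_lit 7) (nat_lit 4) (nat_lit 1) (nat_lit 5) (nat_lit 83) (nat_lit 56) r3_83 r5_56 (nat_lit 0) (nat_lit 1607337) (nat_lit 0) (nat_lit 0x7673024ae) (nat_lit 693215299),
  Rx.mk (nat_lit 116) (nat_lit 4) (nat_lit 6) (nat_lit 1) (nat_lit 6) (nat_lit 85) (nat_lit 53) r3_85 r5_53 (nat_lit 4617775) (nat_lit 0) (nat_lit 0) (nat_lit 0x7f39a7408) (nat_lit 554334537),
  Rx.mk (nat_lit 119) (nat_lit 7) (nat_lit 6) (nat_lit 1) (nat_lit 7) (nat_lit 88) (nat_lit 60) r3_88 r5_60 (nat_lit 0) (nat_lit 0) (nat_lit 0) (nat_lit 0x95e0ba39c) (nat_lit 203775112),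
  Rx.mk (nat_lit 127) (nat_lit 7) (nat_lit 7) (nat_lit 1) (nat_lit 7) (nat_lit 90) (nat_lit 58) r3_90 r5_58 (nat_lit 0) (nat_lit 0) (nat_lit 0) (nat_lit 0x7e9266ec8) (nat_lit 560921062),
  Rx.mk (nat_lit 244) (nat_lit 4) (nat_lit 6) (nat_lit 3) (nat_lit 6) (nat_lit 86) (nat_lit 54) r3_86 r5_54 (nat_lit 6095527) (nat_lit 0) (nat_lit 0) (nat_lit 0x814491984) (nat_lit 524090139)]
noncomputable def e6_6 : List Rx := [
  Rx.mk (nat_lit 59) (nat_lit 3) (nat_lit 7) (nat_lit 0) (nat_lit 3) (nat_lit 37) (nat_lit 25) r3_37 r3_25 (nat_lit 0) (nat_lit 0) (nat_lit 1533) (nat_lit 0x7ffa7afd6) (nat_lit 537221595),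
  Rx.mk (nat_lit 152) (nat_lit 0) (nat_lit 3) (nat_lit 2) (nat_lit 6) (nat_lit 28) (nat_lit 33) r3_28 r3_33 (nat_lit 365) (nat_lit 0) (nat_lit 0) (nat_lit 0x7fffd3514) (nat_lit 536882727),
  Rx.mk (nat_lit 154) (nat_lit 2) (nat_lit 3) (nat_lit 2) (nat_lit 7) (nat_lit 29) (nat_lit 36) r3_29 r3_36 (nat_lit 0) (nat_lit 0) (nat_lit 0) (nat_lit 0x661ba3c4a) (nat_lit 955980262),
  Rx.mk (nat_lit 155) (nat_lit 3) (nat_lit 3) (nat_lit 2) (nat_lit 7) (nat_lit 31) (nat_lit 34) r3_31 r3_34 (nat_lit 0) (nat_lit 0) (nat_lit 0) (nat_lit 0x661ba3c4a) (nat_lit 955980262),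
  Rx.mk (nat_lit 187) (nat_lit 3) (nat_lit 7) (nat_lit 2) (nat_lit 7) (nat_lit 38) (nat_lit 27) r3_38 r3_27 (nat_lit 0) (nat_lit 0) (nat_lit 0) (nat_lit 0x89e830358) (nat_lit 385847912),
  Rx.mk (nat_lit 231) (nat_lit 7) (nat_lit 4) (nat_lit 3) (nat_lit 5) (nat_lit 32) (nat_lit 23) r3_32 r3_23 (nat_lit 0) (nat_lit 1533) (nat_lit 0) (nat_lit 0x7ffa7afd6) (nat_lit 537221595),
  Rx.mk (nat_lit 247) (nat_lit 7) (nat_lit 6) (nat_lit 3) (nat_lit 7) (nat_lit 35) (nat_lit 30) r3_35 r3_30 (nat_lit 0) (nat_lit 0) (nat_lit 0) (nat_lit 0x89e830358) (nat_lit 385847912),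
  Rx.mk (nat_lit 251) (nat_lit 3) (nat_lit 7) (nat_lit 3) (nat_lit 7) (nat_lit 39) (nat_lit 26) r3_39 r3_26 (nat_lit 0) (nat_lit 0) (nat_lit 0) (nat_lit 0x7eb8fa490) (nat_lit 558833762),
  Rx.mk (nat_lit 255) (nat_lit 7) (nat_lit 7) (nat_lit 3) (nat_lit 7) (nat_lit 40) (nat_lit 24) r3_40 r3_24 (nat_lit 0) (nat_lit 0) (nat_lit 0) (nat_lit 0x7eb8fa490) (nat_lit 558833762),
  Rx.mk (nat_lit 278) (nat_lit 6) (nat_lit 2) (nat_lit 4) (nat_lit 3) (nat_lit 25) (nat_lit 37) r3_25 r3_37 (nat_lit 0) (nat_lit 0) (nat_lit 1533) (nat_lit 0x7ffa7afd6) (nat_lit 537221595),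
  Rx.mk (nat_lit 386) (nat_lit 2) (nat_lit 0) (nat_lit 6) (nat_lit 5) (nat_lit 23) (nat_lit 32) r3_23 r3_32 (nat_lit 0) (nat_lit 1533) (nat_lit 0) (nat_lit 0x7ffa7afd6) (nat_lit 537221595),
  Rx.mk (nat_lit 402) (nat_lit 2) (nat_lit 2) (nat_lit 6) (nat_lit 7) (nat_lit 24) (nat_lit 40) r3_24 r3_40 (nat_lit 0) (nat_lit 0) (nat_lit 0) (nat_lit 0x7eb8fa490) (nat_lit 558833762),
  Rx.mk (nat_lit 406) (nat_lit 6) (nat_lit 2) (nat_lit 6) (nat_lit 7) (nat_lit 26) (nat_lit 39) r3_26 r3_39 (nat_lit 0) (nat_lit 0) (nat_lit 0) (nat_lit 0x7eb8fa490) (nat_lit 558833762),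
  Rx.mk (nat_lit 410) (nat_lit 2) (nat_lit 3) (nat_lit 6) (nat_lit 7) (nat_lit 30) (nat_lit 35) r3_30 r3_35 (nat_lit 0) (nat_lit 0) (nat_lit 0) (nat_lit 0x89e830358) (nat_lit 385847912),
  Rx.mk (nat_lit 470) (nat_lit 6) (nat_lit 2) (nat_lit 7) (nat_lit 7) (nat_lit 27) (nat_lit 38) r3_27 r3_38 (nat_lit 0) (nat_lit 0) (nat_lit 0) (nat_lit 0x89e830358) (nat_lit 385847912),
  Rx.mk (nat_lit 500) (nat_lit 4) (nat_lit 6) (nat_lit 7) (nat_lit 6) (nat_lit 33) (nat_lit 28) r3_33 r3_28 (nat_lit 365) (nat_lit 0) (nat_lit 0) (nat_lit 0x7fffd3514) (nat_lit 536882727),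
  Rx.mk (nat_lit 502) (nat_lit 6) (nat_lit 6) (nat_lit 7) (nat_lit 7) (nat_lit 34) (nat_lit 31) r3_34 r3_31 (nat_lit 0) (nat_lit 0) (nat_lit 0) (nat_lit 0x661ba3c4a) (nat_lit 955980262),
  Rx.mk (nat_lit 503) (nat_lit 7) (nat_lit 6) (nat_lit 7) (nat_lit 7) (nat_lit 36) (nat_lit 29) r3_36 r3_29 (nat_lit 0) (nat_lit 0) (nat_lit 0) (nat_lit 0x661ba3c4a) (nat_lit 955980262)]
noncomputable def e6_7 : List Rx := [
  Rx.mk (nat_lit 278) (nat_lit 6) (nat_lit 2) (nat_lit 4) (nat_lit 3) (nat_lit 2) (nat_lit 49) r3_2 r0_49 (nat_lit 0) (nat_lit 0) (nat_lit 12614) (nat_lit 0x7ff74418c) (nat_lit 537440126),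
  Rx.mk (nat_lit 308) (nat_lit 4) (nat_lit 6) (nat_lit 4) (nat_lit 2) (nat_lit 4) (nat_lit 43) r3_4 r0_43 (nat_lit 2481) (nat_lit 0) (nat_lit 966) (nat_lit 0x82288f6ae) (nat_lit 503955459),
  Rx.mk (nat_lit 310) (nat_lit 6) (nat_lit 6) (nat_lit 4) (nat_lit 3) (nat_lit 6) (nat_lit 46) r3_6 r0_46 (nat_lit 0) (nat_lit 0) (nat_lit 1916670) (nat_lit 0x7bfb383c8) (nat_lit 604200682),
  Rx.mk (nat_lit 386) (nat_lit 2) (nat_lit 0) (nat_lit 6) (nat_lit 5) (nat_lit 0) (nat_lit 48) r3_0 r0_48 (nat_lit 0) (nat_lit 48839) (nat_lit 0) (nat_lit 0x6e7903e32) (nat_lit 820364901),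
  Rx.mk (nat_lit 402) (nat_lit 2) (nat_lit 2) (nat_lit 6) (nat_lit 7) (nat_lit 1) (nat_lit 51) r3_1 r0_51 (nat_lit 0) (nat_lit 0) (nat_lit 0) (nat_lit 0x7f14b983a) (nat_lit 552804862),
  Rx.mk (nat_lit 406) (nat_lit 6) (nat_lit 2) (nat_lit 6) (nat_lit 7) (nat_lit 3) (nat_lit 50) r3_3 r0_50 (nat_lit 0) (nat_lit 0) (nat_lit 0) (nat_lit 0x803739724) (nat_lit 534831362),
  Rx.mk (nat_lit 500) (nat_lit 4) (nat_lit 6) (nat_lit 7) (nat_lit 6) (nat_lit 5) (nat_lit 44) r3_5 r0_44 (nat_lit 7927509) (nat_lit 0) (nat_lit 0) (nat_lit 0x72604c6ec) (nat_lit 765358121),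
  Rx.mk (nat_lit 502) (nat_lit 6) (nat_lit 6) (nat_lit 7) (nat_lit 7) (nat_lit 7) (nat_lit 47) r3_7 r0_47 (nat_lit 0) (nat_lit 0) (nat_lit 0) (nat_lit 0x7c1fb6a38) (nat_lit 600372212),
  Rx.mk (nat_lit 503) (nat_lit 7) (nat_lit 6) (nat_lit 7) (nat_lit 7) (nat_lit 8) (nat_lit 45) r3_8 r0_45 (nat_lit 0) (nat_lit 0) (nat_lit 0) (nat_lit 0x789a9bc84) (nat_lit 657134512)]
noncomputable def e6_8 : List Rx := [
  Rx.mk (nat_lit 278) (nat_lit 6) (nat_lit 2) (nat_lit 4) (nat_lit 3) (nat_lit 10) (nat_lit 46) r3_10 r1_46 (nat_lit 0) (nat_lit 0) (nat_lit 47983) (nat_lit 0x75459b28c) (nat_lit 710414795),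
  Rx.mk (nat_lit 308) (nat_lit 4) (nat_lit 6) (nat_lit 4) (nat_lit 2) (nat_lit 13) (nat_lit 39) r3_13 r1_39 (nat_lit 10635) (nat_lit 0) (nat_lit 4286) (nat_lit 0x80094492c) (nat_lit 536338983),
  Rx.mk (nat_lit 310) (nat_lit 6) (nat_lit 6) (nat_lit 4) (nat_lit 3) (nat_lit 16) (nat_lit 43) r3_16 r1_43 (nat_lit 0) (nat_lit 0) (nat_lit 2704556) (nat_lit 0x7c015df14) (nat_lit 604691568),
  Rx.mk (nat_lit 342) (nat_lit 6) (nat_lit 2) (nat_lit 5) (nat_lit 7) (nat_lit 11) (nat_lit 47) r3_11 r1_47 (nat_lit 0) (nat_lit 0) (nat_lit 0) (nat_lit 0x8b1948f84) (nat_lit 368104412),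
  Rx.mk (nat_lit 372) (nat_lit 4) (nat_lit 6) (nat_lit 5) (nat_lit 6) (nat_lit 14) (nat_lit 40) r3_14 r1_40 (nat_lit 15940000) (nat_lit 0) (nat_lit 0) (nat_lit 0x805843974) (nat_lit 548544762),
  Rx.mk (nat_lit 374) (nat_lit 6) (nat_lit 6) (nat_lit 5) (nat_lit 7) (nat_lit 17) (nat_lit 44) r3_17 r1_44 (nat_lit 0) (nat_lit 0) (nat_lit 0) (nat_lit 0x80652468e) (nat_lit 532033562),
  Rx.mk (nat_lit 402) (nat_lit 2) (nat_lit 2) (nat_lit 6) (nat_lit 7) (nat_lit 9) (nat_lit 49) r3_9 r1_49 (nat_lit 0) (nat_lit 0) (nat_lit 0) (nat_lit 0x805620b38) (nat_lit 533027112),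
  Rx.mk (nat_lit 406) (nat_lit 6) (nat_lit 2) (nat_lit 6) (nat_lit 7) (nat_lit 12) (nat_lit 48) r3_12 r1_48 (nat_lit 0) (nat_lit 0) (nat_lit 0) (nat_lit 0x80a93acb0) (nat_lit 527952812),
  Rx.mk (nat_lit 500) (nat_lit 4) (nat_lit 6) (nat_lit 7) (nat_lit 6) (nat_lit 15) (nat_lit 41) r3_15 r1_41 (nat_lit 7553870) (nat_lit 0) (nat_lit 0) (nat_lit 0x7902075f8) (nat_lit 658039182),
  Rx.mk (nat_lit 502) (nat_lit 6) (nat_lit 6) (nat_lit 7) (nat_lit 7) (nat_lit 18) (nat_lit 45) r3_18 r1_45 (nat_lit 0) (nat_lit 0) (nat_lit 0) (nat_lit 0x7fd885e1c) (nat_lit 540659262),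
  Rx.mk (nat_lit 503) (nat_lit 7) (nat_lit 6) (nat_lit 7) (nat_lit 7) (nat_lit 19) (nat_lit 42) r3_19 r1_42 (nat_lit 0) (nat_lit 0) (nat_lit 0) (nat_lit 0x80556b2ba) (nat_lit 532838362)]
noncomputable def e6_9 : List Rx := [
  Rx.mk (nat_lit 278) (nat_lit 6) (nat_lit 2) (nat_lit 4) (nat_lit 3) (nat_lit 43) (nat_lit 36) r3_43 r4_36 (nat_lit 0) (nat_lit 0) (nat_lit 631050) (nat_lit 0x80795a612) (nat_lit 530585312),
  Rx.mk (nat_lit 386) (nat_lit 2) (nat_lit 0) (nat_lit 6) (nat_lit 5) (nat_lit 41) (nat_lit 34) r3_41 r4_34 (nat_lit 0) (nat_lit 929445) (nat_lit 0) (nat_lit 0x7e1ef5642) (nat_lit 568442957),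
  Rx.mk (nat_lit 402) (nat_lit 2) (nat_lit 2) (nat_lit 6) (nat_lit 7) (nat_lit 42) (nat_lit 39) r3_42 r4_39 (nat_lit 0) (nat_lit 0) (nat_lit 0) (nat_lit 0x802f141c0) (nat_lit 535365262),
  Rx.mk (nat_lit 406) (nat_lit 6) (nat_lit 2) (nat_lit 6) (nat_lit 7) (nat_lit 44) (nat_lit 38) r3_44 r4_38 (nat_lit 0) (nat_lit 0) (nat_lit 0) (nat_lit 0x806259120) (nat_lit 532277862),
  Rx.mk (nat_lit 410) (nat_lit 2) (nat_lit 3) (nat_lit 6) (nat_lit 7) (nat_lit 46) (nat_lit 35) r3_46 r4_35 (nat_lit 0) (nat_lit 0) (nat_lit 0) (nat_lit 0x7fc8e9274) (nat_lit 540391512),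
  Rx.mk (nat_lit 470) (nat_lit 6) (nat_lit 2) (nat_lit 7) (nat_lit 7) (nat_lit 45) (nat_lit 37) r3_45 r4_37 (nat_lit 0) (nat_lit 0) (nat_lit 0) (nat_lit 0x80712030c) (nat_lit 531200012),
  Rx.mk (nat_lit 500) (nat_lit 4) (nat_lit 6) (nat_lit 7) (nat_lit 6) (nat_lit 47) (nat_lit 31) r3_47 r4_31 (nat_lit 24740) (nat_lit 0) (nat_lit 0) (nat_lit 0x7ff7bed42) (nat_lit 537418902),
  Rx.mk (nat_lit 502) (nat_lit 6) (nat_lit 6) (nat_lit 7) (nat_lit 7) (nat_lit 48) (nat_lit 33) r3_48 r4_33 (nat_lit 0) (nat_lit 0) (nat_lit 0) (nat_lit 0x8112e8e28) (nat_lit 521452962),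
  Rx.mk (nat_lit 503) (nat_lit 7) (nat_lit 6) (nat_lit 7) (nat_lit 7) (nat_lit 49) (nat_lit 32) r3_49 r4_32 (nat_lit 0) (nat_lit 0) (nat_lit 0) (nat_lit 0x7990b12cc) (nat_lit 641633562)]
noncomputable def e6_10 : List Rx := [
  Rx.mk (nat_lit 39) (nat_lit 7) (nat_lit 4) (nat_lit 0) (nat_lit 1) (nat_lit 74) (nat_lit 44) r3_74 r6_44 (nat_lit 0) (nat_lit 3671) (nat_lit 2940) (nat_lit 0x7fffa9322) (nat_lit 536901023),
  Rx.mk (nat_lit 55) (nat_lit 7) (nat_lit 6) (nat_lit 0) (nat_lit 3) (nat_lit 77) (nat_lit 47) r3_77 r6_47 (nat_lit 0) (nat_lit 0) (nat_lit 201864) (nat_lit 0x7fa9eb5e8) (nat_lit 542596676),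
  Rx.mk (nat_lit 59) (nat_lit 3) (nat_lit 7) (nat_lit 0) (nat_lit 3) (nat_lit 79) (nat_lit 41) r3_79 r6_41 (nat_lit 0) (nat_lit 0) (nat_lit 1281031) (nat_lit 0x74900bd36) (nat_lit 723321843),
  Rx.mk (nat_lit 63) (nat_lit 7) (nat_lit 7) (nat_lit 0) (nat_lit 3) (nat_lit 81) (nat_lit 46) r3_81 r6_46 (nat_lit 0) (nat_lit 0) (nat_lit 6608634) (nat_lit 0x74406e594) (nat_lit 733974246),
  Rx.mk (nat_lit 187) (nat_lit 3) (nat_lit 7) (nat_lit 2) (nat_lit 7) (nat_lit 80) (nat_lit 42) r3_80 r6_42 (nat_lit 0) (nat_lit 0) (nat_lit 0) (nat_lit 0x82a884a62) (nat_lit 496785062),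
  Rx.mk (nat_lit 231) (nat_lit 7) (nat_lit 4) (nat_lit 3) (nat_lit 5) (nat_lit 75) (nat_lit 45) r3_75 r6_45 (nat_lit 0) (nat_lit 2875897) (nat_lit 0) (nat_lit 0x717aba4b2) (nat_lit 774887159),
  Rx.mk (nat_lit 244) (nat_lit 4) (nat_lit 6) (nat_lit 3) (nat_lit 6) (nat_lit 76) (nat_lit 43) r3_76 r6_43 (nat_lit 320985) (nat_lit 0) (nat_lit 0) (nat_lit 0x7f1636122) (nat_lit 552018747),
  Rx.mk (nat_lit 247) (nat_lit 7) (nat_lit 6) (nat_lit 3) (nat_lit 7) (nat_lit 78) (nat_lit 48) r3_78 r6_48 (nat_lit 0) (nat_lit 0) (nat_lit 0) (nat_lit 0x85801fec0) (nat_lit 453525812)]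
noncomputable def e6_11 : List Rx := [
  Rx.mk (nat_lit 59) (nat_lit 3) (nat_lit 7) (nat_lit 0) (nat_lit 3) (nat_lit 57) (nat_lit 19) r3_57 r5_19 (nat_lit 0) (nat_lit 0) (nat_lit 189369) (nat_lit 0x726ece4ea) (nat_lit 756498431),
  Rx.mk (nat_lit 63) (nat_lit 7) (nat_lit 7) (nat_lit 0) (nat_lit 3) (nat_lit 59) (nat_lit 17) r3_59 r5_17 (nat_lit 0) (nat_lit 0) (nat_lit 16744) (nat_lit 0x750724bf2) (nat_lit 714320356),
  Rx.mk (nat_lit 155) (nat_lit 3) (nat_lit 3) (nat_lit 2) (nat_lit 7) (nat_lit 51) (nat_lit 25) r3_51 r5_25 (nat_lit 0) (nat_lit 0) (nat_lit 0) (nat_lit 0x6ac4b35b6) (nat_lit 880256562),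
  Rx.mk (nat_lit 187) (nat_lit 3) (nat_lit 7) (nat_lit 2) (nat_lit 7) (nat_lit 58) (nat_lit 20) r3_58 r5_20 (nat_lit 0) (nat_lit 0) (nat_lit 0) (nat_lit 0x8463a3ca2) (nat_lit 470475612),
  Rx.mk (nat_lit 231) (nat_lit 7) (nat_lit 4) (nat_lit 3) (nat_lit 5) (nat_lit 52) (nat_lit 16) r3_52 r5_16 (nat_lit 0) (nat_lit 221843) (nat_lit 0) (nat_lit 0x79aa7fb2c) (nat_lit 639578955),
  Rx.mk (nat_lit 244) (nat_lit 4) (nat_lit 6) (nat_lit 3) (nat_lit 6) (nat_lit 53) (nat_lit 22) r3_53 r5_22 (nat_lit 101429) (nat_lit 0) (nat_lit 0) (nat_lit 0x75fc83cd8) (nat_lit 698920341),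
  Rx.mk (nat_lit 247) (nat_lit 7) (nat_lit 6) (nat_lit 3) (nat_lit 7) (nat_lit 56) (nat_lit 23) r3_56 r5_23 (nat_lit 0) (nat_lit 0) (nat_lit 0) (nat_lit 0x8fbafdd30) (nat_lit 297369762),
  Rx.mk (nat_lit 255) (nat_lit 7) (nat_lit 7) (nat_lit 3) (nat_lit 7) (nat_lit 60) (nat_lit 18) r3_60 r5_18 (nat_lit 0) (nat_lit 0) (nat_lit 0) (nat_lit 0x7a87b5e10) (nat_lit 626124662),
  Rx.mk (nat_lit 470) (nat_lit 6) (nat_lit 2) (nat_lit 7) (nat_lit 7) (nat_lit 50) (nat_lit 26) r3_50 r5_26 (nat_lit 0) (nat_lit 0) (nat_lit 0) (nat_lit 0x7f169299a) (nat_lit 552155012),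
  Rx.mk (nat_lit 500) (nat_lit 4) (nat_lit 6) (nat_lit 7) (nat_lit 6) (nat_lit 54) (nat_lit 21) r3_54 r5_21 (nat_lit 10455) (nat_lit 0) (nat_lit 0) (nat_lit 0x8008c36ba) (nat_lit 536361367),
  Rx.mk (nat_lit 502) (nat_lit 6) (nat_lit 6) (nat_lit 7) (nat_lit 7) (nat_lit 55) (nat_lit 24) r3_55 r5_24 (nat_lit 0) (nat_lit 0) (nat_lit 0) (nat_lit 0x74ad72000) (nat_lit 720619462)]
noncomputable def e6_12 : List Rx := [
  Rx.mk (nat_lit 37) (nat_lit 5) (nat_lit 4) (nat_lit 0) (nat_lit 1) (nat_lit 146) (nat_lit 300) r3_146 r0_300 (nat_lit 0) (nat_lit 1823) (nat_lit 3234) (nat_lit 0x7fffe0034) (nat_lit 536886669),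
  Rx.mk (nat_lit 53) (nat_lit 5) (nat_lit 6) (nat_lit 0) (nat_lit 3) (nat_lit 149) (nat_lit 301) r3_149 r0_301 (nat_lit 0) (nat_lit 0) (nat_lit 5037900) (nat_lit 0x7d56b4566) (nat_lit 585373512),
  Rx.mk (nat_lit 100) (nat_lit 4) (nat_lit 4) (nat_lit 1) (nat_lit 4) (nat_lit 145) (nat_lit 302) r3_145 r0_302 (nat_lit 5862) (nat_lit 13151) (nat_lit 0) (nat_lit 0x7a31628ba) (nat_lit 630796625),
  Rx.mk (nat_lit 101) (nat_lit 5) (nat_lit 4) (nat_lit 1) (nat_lit 5) (nat_lit 147) (nat_lit 303) r3_147 r0_303 (nat_lit 0) (nat_lit 2227735) (nat_lit 0) (nat_lit 0x7cd025f7c) (nat_lit 590865397),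
  Rx.mk (nat_lit 116) (nat_lit 4) (nat_lit 6) (nat_lit 1) (nat_lit 6) (nat_lit 148) (nat_lit 304) r3_148 r0_304 (nat_lit 1966223) (nat_lit 0) (nat_lit 0) (nat_lit 0x7a0eec8a8) (nat_lit 635246135),
  Rx.mk (nat_lit 117) (nat_lit 5) (nat_lit 6) (nat_lit 1) (nat_lit 7) (nat_lit 150) (nat_lit 305) r3_150 r0_305 (nat_lit 0) (nat_lit 0) (nat_lit 0) (nat_lit 0x81fa69626) (nat_lit 507231062)]
noncomputable def e6_13 : List Rx := [
  Rx.mk (nat_lit 100) (nat_lit 4) (nat_lit 4) (nat_lit 1) (nat_lit 4) (nat_lit 167) (nat_lit 52) r3_167 r7_52 (nat_lit 187444) (nat_lit 161216) (nat_lit 0) (nat_lit 0x65b3d3f7a) (nat_lit 962509472),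
  Rx.mk (nat_lit 101) (nat_lit 5) (nat_lit 4) (nat_lit 1) (nat_lit 5) (nat_lit 168) (nat_lit 54) r3_168 r7_54 (nat_lit 0) (nat_lit 20900457) (nat_lit 0) (nat_lit 0x7888ef68e) (nat_lit 679216269),
  Rx.mk (nat_lit 116) (nat_lit 4) (nat_lit 6) (nat_lit 1) (nat_lit 6) (nat_lit 169) (nat_lit 53) r3_169 r7_53 (nat_lit 1062796) (nat_lit 0) (nat_lit 0) (nat_lit 0x7d66ce370) (nat_lit 580163308),
  Rx.mk (nat_lit 117) (nat_lit 5) (nat_lit 6) (nat_lit 1) (nat_lit 7) (nat_lit 170) (nat_lit 55) r3_170 r7_55 (nat_lit 0) (nat_lit 0) (nat_lit 0) (nat_lit 0x82218c4a6) (nat_lit 505206912)]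
noncomputable def e6_14 : List Rx := [
  Rx.mk (nat_lit 37) (nat_lit 5) (nat_lit 4) (nat_lit 0) (nat_lit 1) (nat_lit 151) (nat_lit 293) r3_151 r1_293 (nat_lit 0) (nat_lit 11530) (nat_lit 12607) (nat_lit 0x8001f4cc6) (nat_lit 536785599),
  Rx.mk (nat_lit 53) (nat_lit 5) (nat_lit 6) (nat_lit 0) (nat_lit 3) (nat_lit 153) (nat_lit 294) r3_153 r1_294 (nat_lit 0) (nat_lit 0) (nat_lit 10831797) (nat_lit 0x81a17f3bc) (nat_lit 523520059),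
  Rx.mk (nat_lit 101) (nat_lit 5) (nat_lit 4) (nat_lit 1) (nat_lit 5) (nat_lit 152) (nat_lit 295) r3_152 r1_295 (nat_lit 0) (nat_lit 220600) (nat_lit 0) (nat_lit 0x7fe1be20e) (nat_lit 539042412),
  Rx.mk (nat_lit 117) (nat_lit 5) (nat_lit 6) (nat_lit 1) (nat_lit 7) (nat_lit 154) (nat_lit 296) r3_154 r1_296 (nat_lit 0) (nat_lit 0) (nat_lit 0) (nat_lit 0x8071f5700) (nat_lit 530794662)]
noncomputable def e6_15 : List Rx := [
  Rx.mk (nat_lit 101) (nat_lit 5) (nat_lit 4) (nat_lit 1) (nat_lit 5) (nat_lit 171) (nat_lit 61) r3_171 r8_61 (nat_lit 0) (nat_lit 4361193) (nat_lit 0) (nat_lit 0x73e0634a6) (nat_lit 737767955),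
  Rx.mk (nat_lit 117) (nat_lit 5) (nat_lit 6) (nat_lit 1) (nat_lit 7) (nat_lit 172) (nat_lit 62) r3_172 r8_62 (nat_lit 0) (nat_lit 0) (nat_lit 0) (nat_lit 0x851b92084) (nat_lit 459606612)]
noncomputable def e6_16 : List Rx := [
  Rx.mk (nat_lit 100) (nat_lit 4) (nat_lit 4) (nat_lit 1) (nat_lit 4) (nat_lit 173) (nat_lit 334) r3_173 r8_334 (nat_lit 875122) (nat_lit 913664) (nat_lit 0) (nat_lit 0x5cc5f9ef6) (nat_lit 1108454298),
  Rx.mk (nat_lit 101) (nat_lit 5) (nat_lit 4) (nat_lit 1) (nat_lit 5) (nat_lit 174) (nat_lit 335) r3_174 r8_335 (nat_lit 0) (nat_lit 20103359) (nat_lit 0) (nat_lit 0x733b06e04) (nat_lit 764186071),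
  Rx.mk (nat_lit 116) (nat_lit 4) (nat_lit 6) (nat_lit 1) (nat_lit 6) (nat_lit 175) (nat_lit 336) r3_175 r8_336 (nat_lit 6010146) (nat_lit 0) (nat_lit 0) (nat_lit 0x6e1566726) (nat_lit 833142708),
  Rx.mk (nat_lit 117) (nat_lit 5) (nat_lit 6) (nat_lit 1) (nat_lit 7) (nat_lit 177) (nat_lit 337) r3_177 r8_337 (nat_lit 0) (nat_lit 0) (nat_lit 0) (nat_lit 0x7f8ae4a3c) (nat_lit 545526512),
  Rx.mk (nat_lit 372) (nat_lit 4) (nat_lit 6) (nat_lit 5) (nat_lit 6) (nat_lit 176) (nat_lit 331) r3_176 r8_331 (nat_lit 14122163) (nat_lit 0) (nat_lit 0) (nat_lit 0x6b5780b64) (nat_lit 885726425),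
  Rx.mk (nat_lit 373) (nat_lit 5) (nat_lit 6) (nat_lit 5) (nat_lit 7) (nat_lit 178) (nat_lit 332) r3_178 r8_332 (nat_lit 0) (nat_lit 0) (nat_lit 0) (nat_lit 0x8017985b4) (nat_lit 536870912),
  Rx.mk (nat_lit 374) (nat_lit 6) (nat_lit 6) (nat_lit 5) (nat_lit 7) (nat_lit 179) (nat_lit 333) r3_179 r8_333 (nat_lit 0) (nat_lit 0) (nat_lit 0) (nat_lit 0x7f54cbf2c) (nat_lit 548916912)]
noncomputable def e6_17 : List Rx := [
  Rx.mk (nat_lit 342) (nat_lit 6) (nat_lit 2) (nat_lit 5) (nat_lit 7) (nat_lit 141) (nat_lit 21) r3_141 r9_21 (nat_lit 0) (nat_lit 0) (nat_lit 0) (nat_lit 0x800056a40) (nat_lit 538300112),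
  Rx.mk (nat_lit 372) (nat_lit 4) (nat_lit 6) (nat_lit 5) (nat_lit 6) (nat_lit 142) (nat_lit 19) r3_142 r9_19 (nat_lit 6950286) (nat_lit 0) (nat_lit 0) (nat_lit 0x6a58027fa) (nat_lit 894620048),
  Rx.mk (nat_lit 373) (nat_lit 5) (nat_lit 6) (nat_lit 5) (nat_lit 7) (nat_lit 143) (nat_lit 20) r3_143 r9_20 (nat_lit 0) (nat_lit 0) (nat_lit 0) (nat_lit 0x7ffede474) (nat_lit 538398162),
  Rx.mk (nat_lit 374) (nat_lit 6) (nat_lit 6) (nat_lit 5) (nat_lit 7) (nat_lit 144) (nat_lit 22) r3_144 r9_22 (nat_lit 0) (nat_lit 0) (nat_lit 0) (nat_lit 0x7fbe4884c) (nat_lit 542361212)]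
noncomputable def e6_18 : List Rx := [
  Rx.mk (nat_lit 36) (nat_lit 4) (nat_lit 4) (nat_lit 0) (nat_lit 0) (nat_lit 155) (nat_lit 315) r3_155 r4_315 (nat_lit 1469) (nat_lit 2229) (nat_lit 1732) (nat_lit 0x68e4b7288) (nat_lit 910528842),
  Rx.mk (nat_lit 37) (nat_lit 5) (nat_lit 4) (nat_lit 0) (nat_lit 1) (nat_lit 157) (nat_lit 316) r3_157 r4_316 (nat_lit 0) (nat_lit 11711) (nat_lit 52766084) (nat_lit 0x7e39636b4) (nat_lit 618367307),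
  Rx.mk (nat_lit 39) (nat_lit 7) (nat_lit 4) (nat_lit 0) (nat_lit 1) (nat_lit 159) (nat_lit 317) r3_159 r4_317 (nat_lit 0) (nat_lit 79972519) (nat_lit 18325) (nat_lit 0x7bd4579ca) (nat_lit 684307106),
  Rx.mk (nat_lit 52) (nat_lit 4) (nat_lit 6) (nat_lit 0) (nat_lit 2) (nat_lit 161) (nat_lit 318) r3_161 r4_318 (nat_lit 531156) (nat_lit 0) (nat_lit 654027) (nat_lit 0x7dee0ba40) (nat_lit 571676845),
  Rx.mk (nat_lit 53) (nat_lit 5) (nat_lit 6) (nat_lit 0) (nat_lit 3) (nat_lit 163) (nat_lit 319) r3_163 r4_319 (nat_lit 0) (nat_lit 0) (nat_lit 8572817) (nat_lit 0x825b4bc3c) (nat_lit 510304629),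
  Rx.mk (nat_lit 55) (nat_lit 7) (nat_lit 6) (nat_lit 0) (nat_lit 3) (nat_lit 165) (nat_lit 320) r3_165 r4_320 (nat_lit 0) (nat_lit 0) (nat_lit 8997628) (nat_lit 0x812b84d60) (nat_lit 529007340),
  Rx.mk (nat_lit 100) (nat_lit 4) (nat_lit 4) (nat_lit 1) (nat_lit 4) (nat_lit 156) (nat_lit 321) r3_156 r4_321 (nat_lit 197867) (nat_lit 291971) (nat_lit 0) (nat_lit 0x7cea5f820) (nat_lit 587285400),
  Rx.mk (nat_lit 101) (nat_lit 5) (nat_lit 4) (nat_lit 1) (nat_lit 5) (nat_lit 158) (nat_lit 322) r3_158 r4_322 (nat_lit 0) (nat_lit 6083194) (nat_lit 0) (nat_lit 0x8288ac032) (nat_lit 504840506),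
  Rx.mk (nat_lit 103) (nat_lit 7) (nat_lit 4) (nat_lit 1) (nat_lit 5) (nat_lit 160) (nat_lit 323) r3_160 r4_323 (nat_lit 0) (nat_lit 57785397) (nat_lit 0) (nat_lit 0x829aa2052) (nat_lit 555266559),
  Rx.mk (nat_lit 116) (nat_lit 4) (nat_lit 6) (nat_lit 1) (nat_lit 6) (nat_lit 162) (nat_lit 324) r3_162 r4_324 (nat_lit 1704686) (nat_lit 0) (nat_lit 0) (nat_lit 0x92d5beefa) (nat_lit 251699898),
  Rx.mk (nat_lit 117) (nat_lit 5) (nat_lit 6) (nat_lit 1) (nat_lit 7) (nat_lit 164) (nat_lit 325) r3_164 r4_325 (nat_lit 0) (nat_lit 0) (nat_lit 0) (nat_lit 0x886830f5a) (nat_lit 409301012),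
  Rx.mk (nat_lit 119) (nat_lit 7) (nat_lit 6) (nat_lit 1) (nat_lit 7) (nat_lit 166) (nat_lit 326) r3_166 r4_326 (nat_lit 0) (nat_lit 0) (nat_lit 0) (nat_lit 0x84db470d8) (nat_lit 463510162)]
noncomputable def e6_19 : List Rx := [
  Rx.mk (nat_lit 100) (nat_lit 4) (nat_lit 4) (nat_lit 1) (nat_lit 4) (nat_lit 180) (nat_lit 38) r3_180 r10_38 (nat_lit 197362) (nat_lit 167695) (nat_lit 0) (nat_lit 0x640a65476) (nat_lit 989404669),
  Rx.mk (nat_lit 101) (nat_lit 5) (nat_lit 4) (nat_lit 1) (nat_lit 5) (nat_lit 181) (nat_lit 40) r3_181 r10_40 (nat_lit 0) (nat_lit 24741287) (nat_lit 0) (nat_lit 0x8017985b4) (nat_lit 561612199),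
  Rx.mk (nat_lit 103) (nat_lit 7) (nat_lit 4) (nat_lit 1) (nat_lit 5) (nat_lit 182) (nat_lit 42) r3_182 r10_42 (nat_lit 0) (nat_lit 50053958) (nat_lit 0) (nat_lit 0x7eff903aa) (nat_lit 604233320),
  Rx.mk (nat_lit 116) (nat_lit 4) (nat_lit 6) (nat_lit 1) (nat_lit 6) (nat_lit 183) (nat_lit 39) r3_183 r10_39 (nat_lit 1486174) (nat_lit 0) (nat_lit 0) (nat_lit 0x82dc4fb94) (nat_lit 495172786),
  Rx.mk (nat_lit 117) (nat_lit 5) (nat_lit 6) (nat_lit 1) (nat_lit 7) (nat_lit 184) (nat_lit 41) r3_184 r10_41 (nat_lit 0) (nat_lit 0) (nat_lit 0) (nat_lit 0x8428b5dde) (nat_lit 474166012),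
  Rx.mk (nat_lit 119) (nat_lit 7) (nat_lit 6) (nat_lit 1) (nat_lit 7) (nat_lit 185) (nat_lit 43) r3_185 r10_43 (nat_lit 0) (nat_lit 0) (nat_lit 0) (nat_lit 0x8428a6758) (nat_lit 474169612)]
noncomputable def e6_20 : List Rx := [
  Rx.mk (nat_lit 36) (nat_lit 4) (nat_lit 4) (nat_lit 0) (nat_lit 0) (nat_lit 186) (nat_lit 19) r3_186 r11_19 (nat_lit 122716) (nat_lit 132111) (nat_lit 96674) (nat_lit 0x497316d28) (nat_lit 1419374513),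
  Rx.mk (nat_lit 37) (nat_lit 5) (nat_lit 4) (nat_lit 0) (nat_lit 1) (nat_lit 189) (nat_lit 25) r3_189 r11_25 (nat_lit 0) (nat_lit 1291523) (nat_lit 3284544) (nat_lit 0x652f21fd4) (nat_lit 975280179),
  Rx.mk (nat_lit 39) (nat_lit 7) (nat_lit 4) (nat_lit 0) (nat_lit 1) (nat_lit 192) (nat_lit 31) r3_192 r11_31 (nat_lit 0) (nat_lit 138609354) (nat_lit 849840) (nat_lit 0x69d7f337a) (nat_lit 1034816656),
  Rx.mk (nat_lit 52) (nat_lit 4) (nat_lit 6) (nat_lit 0) (nat_lit 2) (nat_lit 194) (nat_lit 22) r3_194 r11_22 (nat_lit 5090553) (nat_lit 0) (nat_lit 4459709) (nat_lit 0x6f5ae93ec) (nat_lit 816096324),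
  Rx.mk (nat_lit 53) (nat_lit 5) (nat_lit 6) (nat_lit 0) (nat_lit 3) (nat_lit 197) (nat_lit 28) r3_197 r11_28 (nat_lit 0) (nat_lit 0) (nat_lit 13146689) (nat_lit 0x808dd2f86) (nat_lit 542691851),
  Rx.mk (nat_lit 55) (nat_lit 7) (nat_lit 6) (nat_lit 0) (nat_lit 3) (nat_lit 200) (nat_lit 35) r3_200 r11_35 (nat_lit 0) (nat_lit 0) (nat_lit 13744676) (nat_lit 0x808aa0700) (nat_lit 543529688),
  Rx.mk (nat_lit 63) (nat_lit 7) (nat_lit 7) (nat_lit 0) (nat_lit 3) (nat_lit 202) (nat_lit 33) r3_202 r11_33 (nat_lit 0) (nat_lit 0) (nat_lit 22698438) (nat_lit 0x801e644f6) (nat_lit 559143350),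
  Rx.mk (nat_lit 100) (nat_lit 4) (nat_lit 4) (nat_lit 1) (nat_lit 4) (nat_lit 187) (nat_lit 20) r3_187 r11_20 (nat_lit 29295655) (nat_lit 18566817) (nat_lit 0) (nat_lit 0x6eb4eea14) (nat_lit 865039884),
  Rx.mk (nat_lit 101) (nat_lit 5) (nat_lit 4) (nat_lit 1) (nat_lit 5) (nat_lit 190) (nat_lit 26) r3_190 r11_26 (nat_lit 0) (nat_lit 24741287) (nat_lit 0) (nat_lit 0x8017985b4) (nat_lit 561612199),
  Rx.mk (nat_lit 103) (nat_lit 7) (nat_lit 4) (nat_lit 1) (nat_lit 5) (nat_lit 193) (nat_lit 32) r3_193 r11_32 (nat_lit 0) (nat_lit 29915179) (nat_lit 0) (nat_lit 0x7fe911db2) (nat_lit 569577941),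
  Rx.mk (nat_lit 116) (nat_lit 4) (nat_lit 6) (nat_lit 1) (nat_lit 6) (nat_lit 195) (nat_lit 23) r3_195 r11_23 (nat_lit 14431981) (nat_lit 0) (nat_lit 0) (nat_lit 0x80cd30a02) (nat_lit 540176893),
  Rx.mk (nat_lit 117) (nat_lit 5) (nat_lit 6) (nat_lit 1) (nat_lit 7) (nat_lit 198) (nat_lit 29) r3_198 r11_29 (nat_lit 0) (nat_lit 0) (nat_lit 0) (nat_lit 0x8017985b4) (nat_lit 536870912),
  Rx.mk (nat_lit 119) (nat_lit 7) (nat_lit 6) (nat_lit 1) (nat_lit 7) (nat_lit 201) (nat_lit 36) r3_201 r11_36 (nat_lit 0) (nat_lit 0) (nat_lit 0) (nat_lit 0x8017985b4) (nat_lit 536870912),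
  Rx.mk (nat_lit 127) (nat_lit 7) (nat_lit 7) (nat_lit 1) (nat_lit 7) (nat_lit 203) (nat_lit 34) r3_203 r11_34 (nat_lit 0) (nat_lit 0) (nat_lit 0) (nat_lit 0x8017985b4) (nat_lit 536870912),
  Rx.mk (nat_lit 228) (nat_lit 4) (nat_lit 4) (nat_lit 3) (nat_lit 4) (nat_lit 188) (nat_lit 21) r3_188 r11_21 (nat_lit 24848889) (nat_lit 41499232) (nat_lit 0) (nat_lit 0x75df8e2a4) (nat_lit 767700883),
  Rx.mk (nat_lit 229) (nat_lit 5) (nat_lit 4) (nat_lit 3) (nat_lit 5) (nat_lit 191) (nat_lit 27) r3_191 r11_27 (nat_lit 0) (nat_lit 22959846) (nat_lit 0) (nat_lit 0x7f72d2be2) (nat_lit 569951908),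
  Rx.mk (nat_lit 244) (nat_lit 4) (nat_lit 6) (nat_lit 3) (nat_lit 6) (nat_lit 196) (nat_lit 24) r3_196 r11_24 (nat_lit 10849071) (nat_lit 0) (nat_lit 0) (nat_lit 0x7fc617ece) (nat_lit 552588333),
  Rx.mk (nat_lit 245) (nat_lit 5) (nat_lit 6) (nat_lit 3) (nat_lit 7) (nat_lit 199) (nat_lit 30) r3_199 r11_30 (nat_lit 0) (nat_lit 0) (nat_lit 0) (nat_lit 0x8017985b4) (nat_lit 536870912)]
noncomputable def e6_21 : List Rx := [
  Rx.mk (nat_lit 342) (nat_lit 6) (nat_lit 2) (nat_lit 5) (nat_lit 7) (nat_lit 123) (nat_lit 14) r3_123 r9_14 (nat_lit 0) (nat_lit 0) (nat_lit 0) (nat_lit 0x7fce2024c) (nat_lit 541400812)]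
noncomputable def e6_22 : List Rx := [
  Rx.mk (nat_lit 128) (nat_lit 0) (nat_lit 0) (nat_lit 2) (nat_lit 4) (nat_lit 91) (nat_lit 43) r3_91 r0_43 (nat_lit 2481) (nat_lit 966) (nat_lit 0) (nat_lit 0x82288f6ae) (nat_lit 503955459),
  Rx.mk (nat_lit 130) (nat_lit 2) (nat_lit 0) (nat_lit 2) (nat_lit 5) (nat_lit 92) (nat_lit 46) r3_92 r0_46 (nat_lit 0) (nat_lit 1916670) (nat_lit 0) (nat_lit 0x7bfb383c8) (nat_lit 604200682),
  Rx.mk (nat_lit 152) (nat_lit 0) (nat_lit 3) (nat_lit 2) (nat_lit 6) (nat_lit 97) (nat_lit 44) r3_97 r0_44 (nat_lit 7927509) (nat_lit 0) (nat_lit 0) (nat_lit 0x72604c6ec) (nat_lit 765358121),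
  Rx.mk (nat_lit 154) (nat_lit 2) (nat_lit 3) (nat_lit 2) (nat_lit 7) (nat_lit 98) (nat_lit 47) r3_98 r0_47 (nat_lit 0) (nat_lit 0) (nat_lit 0) (nat_lit 0x7c1fb6a38) (nat_lit 600372212),
  Rx.mk (nat_lit 155) (nat_lit 3) (nat_lit 3) (nat_lit 2) (nat_lit 7) (nat_lit 99) (nat_lit 45) r3_99 r0_45 (nat_lit 0) (nat_lit 0) (nat_lit 0) (nat_lit 0x789a9bc84) (nat_lit 657134512),
  Rx.mk (nat_lit 278) (nat_lit 6) (nat_lit 2) (nat_lit 4) (nat_lit 3) (nat_lit 95) (nat_lit 48) r3_95 r0_48 (nat_lit 0) (nat_lit 0) (nat_lit 48839) (nat_lit 0x6e7903e32) (nat_lit 820364901),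
  Rx.mk (nat_lit 386) (nat_lit 2) (nat_lit 0) (nat_lit 6) (nat_lit 5) (nat_lit 93) (nat_lit 49) r3_93 r0_49 (nat_lit 0) (nat_lit 12614) (nat_lit 0) (nat_lit 0x7ff74418c) (nat_lit 537440126),
  Rx.mk (nat_lit 402) (nat_lit 2) (nat_lit 2) (nat_lit 6) (nat_lit 7) (nat_lit 94) (nat_lit 50) r3_94 r0_50 (nat_lit 0) (nat_lit 0) (nat_lit 0) (nat_lit 0x803739724) (nat_lit 534831362),
  Rx.mk (nat_lit 406) (nat_lit 6) (nat_lit 2) (nat_lit 6) (nat_lit 7) (nat_lit 96) (nat_lit 51) r3_96 r0_51 (nat_lit 0) (nat_lit 0) (nat_lit 0) (nat_lit 0x7f14b983a) (nat_lit 552804862)]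
noncomputable def e6_23 : List Rx := [
  Rx.mk (nat_lit 128) (nat_lit 0) (nat_lit 0) (nat_lit 2) (nat_lit 4) (nat_lit 104) (nat_lit 39) r3_104 r1_39 (nat_lit 10635) (nat_lit 4286) (nat_lit 0) (nat_lit 0x80094492c) (nat_lit 536338983),
  Rx.mk (nat_lit 130) (nat_lit 2) (nat_lit 0) (nat_lit 2) (nat_lit 5) (nat_lit 105) (nat_lit 43) r3_105 r1_43 (nat_lit 0) (nat_lit 2704556) (nat_lit 0) (nat_lit 0x7c015df14) (nat_lit 604691568),
  Rx.mk (nat_lit 136) (nat_lit 0) (nat_lit 1) (nat_lit 2) (nat_lit 6) (nat_lit 107) (nat_lit 40) r3_107 r1_40 (nat_lit 15940000) (nat_lit 0) (nat_lit 0) (nat_lit 0x805843974) (nat_lit 548544762),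
  Rx.mk (nat_lit 138) (nat_lit 2) (nat_lit 1) (nat_lit 2) (nat_lit 7) (nat_lit 108) (nat_lit 44) r3_108 r1_44 (nat_lit 0) (nat_lit 0) (nat_lit 0) (nat_lit 0x80652468e) (nat_lit 532033562),
  Rx.mk (nat_lit 152) (nat_lit 0) (nat_lit 3) (nat_lit 2) (nat_lit 6) (nat_lit 112) (nat_lit 41) r3_112 r1_41 (nat_lit 7553870) (nat_lit 0) (nat_lit 0) (nat_lit 0x7902075f8) (nat_lit 658039182),
  Rx.mk (nat_lit 154) (nat_lit 2) (nat_lit 3) (nat_lit 2) (nat_lit 7) (nat_lit 113) (nat_lit 45) r3_113 r1_45 (nat_lit 0) (nat_lit 0) (nat_lit 0) (nat_lit 0x7fd885e1c) (nat_lit 540659262),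
  Rx.mk (nat_lit 155) (nat_lit 3) (nat_lit 3) (nat_lit 2) (nat_lit 7) (nat_lit 114) (nat_lit 42) r3_114 r1_42 (nat_lit 0) (nat_lit 0) (nat_lit 0) (nat_lit 0x80556b2ba) (nat_lit 532838362),
  Rx.mk (nat_lit 386) (nat_lit 2) (nat_lit 0) (nat_lit 6) (nat_lit 5) (nat_lit 106) (nat_lit 46) r3_106 r1_46 (nat_lit 0) (nat_lit 47983) (nat_lit 0) (nat_lit 0x75459b28c) (nat_lit 710414795),
  Rx.mk (nat_lit 394) (nat_lit 2) (nat_lit 1) (nat_lit 6) (nat_lit 7) (nat_lit 109) (nat_lit 47) r3_109 r1_47 (nat_lit 0) (nat_lit 0) (nat_lit 0) (nat_lit 0x8b1948f84) (nat_lit 368104412),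
  Rx.mk (nat_lit 402) (nat_lit 2) (nat_lit 2) (nat_lit 6) (nat_lit 7) (nat_lit 110) (nat_lit 48) r3_110 r1_48 (nat_lit 0) (nat_lit 0) (nat_lit 0) (nat_lit 0x80a93acb0) (nat_lit 527952812),
  Rx.mk (nat_lit 406) (nat_lit 6) (nat_lit 2) (nat_lit 6) (nat_lit 7) (nat_lit 111) (nat_lit 49) r3_111 r1_49 (nat_lit 0) (nat_lit 0) (nat_lit 0) (nat_lit 0x805620b38) (nat_lit 533027112)]
noncomputable def e6_24 : List Rx := [
  Rx.mk (nat_lit 152) (nat_lit 0) (nat_lit 3) (nat_lit 2) (nat_lit 6) (nat_lit 129) (nat_lit 31) r3_129 r4_31 (nat_lit 24740) (nat_lit 0) (nat_lit 0) (nat_lit 0x7ff7bed42) (nat_lit 537418902),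
  Rx.mk (nat_lit 154) (nat_lit 2) (nat_lit 3) (nat_lit 2) (nat_lit 7) (nat_lit 130) (nat_lit 33) r3_130 r4_33 (nat_lit 0) (nat_lit 0) (nat_lit 0) (nat_lit 0x8112e8e28) (nat_lit 521452962),
  Rx.mk (nat_lit 155) (nat_lit 3) (nat_lit 3) (nat_lit 2) (nat_lit 7) (nat_lit 132) (nat_lit 32) r3_132 r4_32 (nat_lit 0) (nat_lit 0) (nat_lit 0) (nat_lit 0x7990b12cc) (nat_lit 641633562),
  Rx.mk (nat_lit 278) (nat_lit 6) (nat_lit 2) (nat_lit 4) (nat_lit 3) (nat_lit 126) (nat_lit 34) r3_126 r4_34 (nat_lit 0) (nat_lit 0) (nat_lit 929445) (nat_lit 0x7e1ef5642) (nat_lit 568442957),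
  Rx.mk (nat_lit 386) (nat_lit 2) (nat_lit 0) (nat_lit 6) (nat_lit 5) (nat_lit 124) (nat_lit 36) r3_124 r4_36 (nat_lit 0) (nat_lit 631050) (nat_lit 0) (nat_lit 0x80795a612) (nat_lit 530585312),
  Rx.mk (nat_lit 402) (nat_lit 2) (nat_lit 2) (nat_lit 6) (nat_lit 7) (nat_lit 125) (nat_lit 38) r3_125 r4_38 (nat_lit 0) (nat_lit 0) (nat_lit 0) (nat_lit 0x806259120) (nat_lit 532277862),
  Rx.mk (nat_lit 406) (nat_lit 6) (nat_lit 2) (nat_lit 6) (nat_lit 7) (nat_lit 127) (nat_lit 39) r3_127 r4_39 (nat_lit 0) (nat_lit 0) (nat_lit 0) (nat_lit 0x802f141c0) (nat_lit 535365262),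
  Rx.mk (nat_lit 410) (nat_lit 2) (nat_lit 3) (nat_lit 6) (nat_lit 7) (nat_lit 131) (nat_lit 37) r3_131 r4_37 (nat_lit 0) (nat_lit 0) (nat_lit 0) (nat_lit 0x80712030c) (nat_lit 531200012),
  Rx.mk (nat_lit 470) (nat_lit 6) (nat_lit 2) (nat_lit 7) (nat_lit 7) (nat_lit 128) (nat_lit 35) r3_128 r4_35 (nat_lit 0) (nat_lit 0) (nat_lit 0) (nat_lit 0x7fc8e9274) (nat_lit 540391512)]
noncomputable def e6_25 : List Rx := [
  Rx.mk (nat_lit 278) (nat_lit 6) (nat_lit 2) (nat_lit 4) (nat_lit 3) (nat_lit 102) (nat_lit 36) r3_102 r7_36 (nat_lit 0) (nat_lit 0) (nat_lit 365028) (nat_lit 0x82b316502) (nat_lit 496255090),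
  Rx.mk (nat_lit 386) (nat_lit 2) (nat_lit 0) (nat_lit 6) (nat_lit 5) (nat_lit 100) (nat_lit 35) r3_100 r7_35 (nat_lit 0) (nat_lit 365028) (nat_lit 0) (nat_lit 0x82b316502) (nat_lit 496255090),
  Rx.mk (nat_lit 402) (nat_lit 2) (nat_lit 2) (nat_lit 6) (nat_lit 7) (nat_lit 101) (nat_lit 38) r3_101 r7_38 (nat_lit 0) (nat_lit 0) (nat_lit 0) (nat_lit 0x7f95fdf2c) (nat_lit 544861262),
  Rx.mk (nat_lit 406) (nat_lit 6) (nat_lit 2) (nat_lit 6) (nat_lit 7) (nat_lit 103) (nat_lit 37) r3_103 r7_37 (nat_lit 0) (nat_lit 0) (nat_lit 0) (nat_lit 0x7f95fdf2c) (nat_lit 544861262)]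
noncomputable def e6_26 : List Rx := [
  Rx.mk (nat_lit 386) (nat_lit 2) (nat_lit 0) (nat_lit 6) (nat_lit 5) (nat_lit 115) (nat_lit 43) r3_115 r8_43 (nat_lit 0) (nat_lit 1763441) (nat_lit 0) (nat_lit 0x7c7a002d2) (nat_lit 596010653),
  Rx.mk (nat_lit 394) (nat_lit 2) (nat_lit 1) (nat_lit 6) (nat_lit 7) (nat_lit 116) (nat_lit 44) r3_116 r8_44 (nat_lit 0) (nat_lit 0) (nat_lit 0) (nat_lit 0x815f04622) (nat_lit 516911112),
  Rx.mk (nat_lit 402) (nat_lit 2) (nat_lit 2) (nat_lit 6) (nat_lit 7) (nat_lit 117) (nat_lit 46) r3_117 r8_46 (nat_lit 0) (nat_lit 0) (nat_lit 0) (nat_lit 0x7fe6eb434) (nat_lit 539872312),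
  Rx.mk (nat_lit 406) (nat_lit 6) (nat_lit 2) (nat_lit 6) (nat_lit 7) (nat_lit 118) (nat_lit 45) r3_118 r8_45 (nat_lit 0) (nat_lit 0) (nat_lit 0) (nat_lit 0x7fbaf6978) (nat_lit 542584962)]
noncomputable def e6_27 : List Rx := [
  Rx.mk (nat_lit 278) (nat_lit 6) (nat_lit 2) (nat_lit 4) (nat_lit 3) (nat_lit 120) (nat_lit 43) r3_120 r8_43 (nat_lit 0) (nat_lit 0) (nat_lit 1763441) (nat_lit 0x7c7a002d2) (nat_lit 596010653),
  Rx.mk (nat_lit 342) (nat_lit 6) (nat_lit 2) (nat_lit 5) (nat_lit 7) (nat_lit 121) (nat_lit 44) r3_121 r8_44 (nat_lit 0) (nat_lit 0) (nat_lit 0) (nat_lit 0x815f04622) (nat_lit 516911112),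
  Rx.mk (nat_lit 402) (nat_lit 2) (nat_lit 2) (nat_lit 6) (nat_lit 7) (nat_lit 119) (nat_lit 45) r3_119 r8_45 (nat_lit 0) (nat_lit 0) (nat_lit 0) (nat_lit 0x7fbaf6978) (nat_lit 542584962),
  Rx.mk (nat_lit 406) (nat_lit 6) (nat_lit 2) (nat_lit 6) (nat_lit 7) (nat_lit 122) (nat_lit 46) r3_122 r8_46 (nat_lit 0) (nat_lit 0) (nat_lit 0) (nat_lit 0x7fe6eb434) (nat_lit 539872312)]
noncomputable def e6_28 : List Rx := [
  Rx.mk (nat_lit 278) (nat_lit 6) (nat_lit 2) (nat_lit 4) (nat_lit 3) (nat_lit 135) (nat_lit 19) r3_135 r10_19 (nat_lit 0) (nat_lit 0) (nat_lit 427823) (nat_lit 0x86254ad0a) (nat_lit 443762085),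
  Rx.mk (nat_lit 386) (nat_lit 2) (nat_lit 0) (nat_lit 6) (nat_lit 5) (nat_lit 133) (nat_lit 17) r3_133 r10_17 (nat_lit 0) (nat_lit 427823) (nat_lit 0) (nat_lit 0x86254ad0a) (nat_lit 443762085),
  Rx.mk (nat_lit 402) (nat_lit 2) (nat_lit 2) (nat_lit 6) (nat_lit 7) (nat_lit 134) (nat_lit 22) r3_134 r10_22 (nat_lit 0) (nat_lit 0) (nat_lit 0) (nat_lit 0x809e38c5e) (nat_lit 528622162),
  Rx.mk (nat_lit 406) (nat_lit 6) (nat_lit 2) (nat_lit 6) (nat_lit 7) (nat_lit 136) (nat_lit 21) r3_136 r10_21 (nat_lit 0) (nat_lit 0) (nat_lit 0) (nat_lit 0x809e38c5e) (nat_lit 528622162),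
  Rx.mk (nat_lit 410) (nat_lit 2) (nat_lit 3) (nat_lit 6) (nat_lit 7) (nat_lit 138) (nat_lit 18) r3_138 r10_18 (nat_lit 0) (nat_lit 0) (nat_lit 0) (nat_lit 0x86cf556ec) (nat_lit 433675662),
  Rx.mk (nat_lit 470) (nat_lit 6) (nat_lit 2) (nat_lit 7) (nat_lit 7) (nat_lit 137) (nat_lit 20) r3_137 r10_20 (nat_lit 0) (nat_lit 0) (nat_lit 0) (nat_lit 0x86cf556ec) (nat_lit 433675662)]
noncomputable def e6_29 : List Rx := [
  Rx.mk (nat_lit 155) (nat_lit 3) (nat_lit 3) (nat_lit 2) (nat_lit 7) (nat_lit 140) (nat_lit 6) r3_140 r11_6 (nat_lit 0) (nat_lit 0) (nat_lit 0) (nat_lit 0x884245afc) (nat_lit 411412412),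
  Rx.mk (nat_lit 470) (nat_lit 6) (nat_lit 2) (nat_lit 7) (nat_lit 7) (nat_lit 139) (nat_lit 7) r3_139 r11_7 (nat_lit 0) (nat_lit 0) (nat_lit 0) (nat_lit 0x8f1cadf90) (nat_lit 306718562)]
noncomputable def e6_30 : List Rx := [
  Rx.mk (nat_lit 39) (nat_lit 7) (nat_lit 4) (nat_lit 0) (nat_lit 1) (nat_lit 221) (nat_lit 293) r3_221 r5_293 (nat_lit 0) (nat_lit 2469) (nat_lit 3024) (nat_lit 0x817743936) (nat_lit 514521255),
  Rx.mk (nat_lit 55) (nat_lit 7) (nat_lit 6) (nat_lit 0) (nat_lit 3) (nat_lit 223) (nat_lit 294) r3_223 r5_294 (nat_lit 0) (nat_lit 0) (nat_lit 87664) (nat_lit 0x7ee2d6d0e) (nat_lit 555002326),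
  Rx.mk (nat_lit 103) (nat_lit 7) (nat_lit 4) (nat_lit 1) (nat_lit 5) (nat_lit 222) (nat_lit 295) r3_222 r5_295 (nat_lit 0) (nat_lit 331055) (nat_lit 0) (nat_lit 0x7f44b8f22) (nat_lit 549048467),
  Rx.mk (nat_lit 119) (nat_lit 7) (nat_lit 6) (nat_lit 1) (nat_lit 7) (nat_lit 224) (nat_lit 296) r3_224 r5_296 (nat_lit 0) (nat_lit 0) (nat_lit 0) (nat_lit 0x8cf43f2ea) (nat_lit 339923812)]
noncomputable def e6_31 : List Rx := [
  Rx.mk (nat_lit 103) (nat_lit 7) (nat_lit 4) (nat_lit 1) (nat_lit 5) (nat_lit 225) (nat_lit 351) r3_225 r11_351 (nat_lit 0) (nat_lit 9974206) (nat_lit 0) (nat_lit 0x7a7d1cf58) (nat_lit 636241818),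
  Rx.mk (nat_lit 119) (nat_lit 7) (nat_lit 6) (nat_lit 1) (nat_lit 7) (nat_lit 226) (nat_lit 352) r3_226 r11_352 (nat_lit 0) (nat_lit 0) (nat_lit 0) (nat_lit 0x885a32e30) (nat_lit 409617212)]
noncomputable def e6_32 : List Rx := [
  Rx.mk (nat_lit 35) (nat_lit 3) (nat_lit 4) (nat_lit 0) (nat_lit 1) (nat_lit 227) (nat_lit 44) r3_227 r6_44 (nat_lit 0) (nat_lit 2940) (nat_lit 3671) (nat_lit 0x7fffa9322) (nat_lit 536901023),
  Rx.mk (nat_lit 59) (nat_lit 3) (nat_lit 7) (nat_lit 0) (nat_lit 3) (nat_lit 233) (nat_lit 45) r3_233 r6_45 (nat_lit 0) (nat_lit 0) (nat_lit 2875897) (nat_lit 0x717aba4b2) (nat_lit 774887159),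
  Rx.mk (nat_lit 163) (nat_lit 3) (nat_lit 4) (nat_lit 2) (nat_lit 5) (nat_lit 228) (nat_lit 47) r3_228 r6_47 (nat_lit 0) (nat_lit 201864) (nat_lit 0) (nat_lit 0x7fa9eb5e8) (nat_lit 542596676),
  Rx.mk (nat_lit 184) (nat_lit 0) (nat_lit 7) (nat_lit 2) (nat_lit 6) (nat_lit 232) (nat_lit 43) r3_232 r6_43 (nat_lit 320985) (nat_lit 0) (nat_lit 0) (nat_lit 0x7f1636122) (nat_lit 552018747),
  Rx.mk (nat_lit 187) (nat_lit 3) (nat_lit 7) (nat_lit 2) (nat_lit 7) (nat_lit 234) (nat_lit 48) r3_234 r6_48 (nat_lit 0) (nat_lit 0) (nat_lit 0) (nat_lit 0x85801fec0) (nat_lit 453525812),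
  Rx.mk (nat_lit 227) (nat_lit 3) (nat_lit 4) (nat_lit 3) (nat_lit 5) (nat_lit 229) (nat_lit 46) r3_229 r6_46 (nat_lit 0) (nat_lit 6608634) (nat_lit 0) (nat_lit 0x74406e594) (nat_lit 733974246),
  Rx.mk (nat_lit 231) (nat_lit 7) (nat_lit 4) (nat_lit 3) (nat_lit 5) (nat_lit 230) (nat_lit 41) r3_230 r6_41 (nat_lit 0) (nat_lit 1281031) (nat_lit 0) (nat_lit 0x74900bd36) (nat_lit 723321843),
  Rx.mk (nat_lit 247) (nat_lit 7) (nat_lit 6) (nat_lit 3) (nat_lit 7) (nat_lit 231) (nat_lit 42) r3_231 r6_42 (nat_lit 0) (nat_lit 0) (nat_lit 0) (nat_lit 0x82a884a62) (nat_lit 496785062)]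
noncomputable def e6_33 : List Rx := [
  Rx.mk (nat_lit 59) (nat_lit 3) (nat_lit 7) (nat_lit 0) (nat_lit 3) (nat_lit 212) (nat_lit 16) r3_212 r5_16 (nat_lit 0) (nat_lit 0) (nat_lit 221843) (nat_lit 0x79aa7fb2c) (nat_lit 639578955),
  Rx.mk (nat_lit 152) (nat_lit 0) (nat_lit 3) (nat_lit 2) (nat_lit 6) (nat_lit 204) (nat_lit 21) r3_204 r5_21 (nat_lit 10455) (nat_lit 0) (nat_lit 0) (nat_lit 0x8008c36ba) (nat_lit 536361367),
  Rx.mk (nat_lit 154) (nat_lit 2) (nat_lit 3) (nat_lit 2) (nat_lit 7) (nat_lit 205) (nat_lit 24) r3_205 r5_24 (nat_lit 0) (nat_lit 0) (nat_lit 0) (nat_lit 0x74ad72000) (nat_lit 720619462),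
  Rx.mk (nat_lit 184) (nat_lit 0) (nat_lit 7) (nat_lit 2) (nat_lit 6) (nat_lit 211) (nat_lit 22) r3_211 r5_22 (nat_lit 101429) (nat_lit 0) (nat_lit 0) (nat_lit 0x75fc83cd8) (nat_lit 698920341),
  Rx.mk (nat_lit 187) (nat_lit 3) (nat_lit 7) (nat_lit 2) (nat_lit 7) (nat_lit 213) (nat_lit 23) r3_213 r5_23 (nat_lit 0) (nat_lit 0) (nat_lit 0) (nat_lit 0x8fbafdd30) (nat_lit 297369762),
  Rx.mk (nat_lit 227) (nat_lit 3) (nat_lit 4) (nat_lit 3) (nat_lit 5) (nat_lit 207) (nat_lit 17) r3_207 r5_17 (nat_lit 0) (nat_lit 16744) (nat_lit 0) (nat_lit 0x750724bf2) (nat_lit 714320356),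
  Rx.mk (nat_lit 231) (nat_lit 7) (nat_lit 4) (nat_lit 3) (nat_lit 5) (nat_lit 208) (nat_lit 19) r3_208 r5_19 (nat_lit 0) (nat_lit 189369) (nat_lit 0) (nat_lit 0x726ece4ea) (nat_lit 756498431),
  Rx.mk (nat_lit 247) (nat_lit 7) (nat_lit 6) (nat_lit 3) (nat_lit 7) (nat_lit 209) (nat_lit 20) r3_209 r5_20 (nat_lit 0) (nat_lit 0) (nat_lit 0) (nat_lit 0x8463a3ca2) (nat_lit 470475612),
  Rx.mk (nat_lit 251) (nat_lit 3) (nat_lit 7) (nat_lit 3) (nat_lit 7) (nat_lit 214) (nat_lit 18) r3_214 r5_18 (nat_lit 0) (nat_lit 0) (nat_lit 0) (nat_lit 0x7a87b5e10) (nat_lit 626124662),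
  Rx.mk (nat_lit 410) (nat_lit 2) (nat_lit 3) (nat_lit 6) (nat_lit 7) (nat_lit 206) (nat_lit 26) r3_206 r5_26 (nat_lit 0) (nat_lit 0) (nat_lit 0) (nat_lit 0x7f169299a) (nat_lit 552155012),
  Rx.mk (nat_lit 503) (nat_lit 7) (nat_lit 6) (nat_lit 7) (nat_lit 7) (nat_lit 210) (nat_lit 25) r3_210 r5_25 (nat_lit 0) (nat_lit 0) (nat_lit 0) (nat_lit 0x6ac4b35b6) (nat_lit 880256562)]
noncomputable def e6_34 : List Rx := [
  Rx.mk (nat_lit 410) (nat_lit 2) (nat_lit 3) (nat_lit 6) (nat_lit 7) (nat_lit 215) (nat_lit 7) r3_215 r11_7 (nat_lit 0) (nat_lit 0) (nat_lit 0) (nat_lit 0x8f1cadf90) (nat_lit 306718562),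
  Rx.mk (nat_lit 503) (nat_lit 7) (nat_lit 6) (nat_lit 7) (nat_lit 7) (nat_lit 216) (nat_lit 6) r3_216 r11_6 (nat_lit 0) (nat_lit 0) (nat_lit 0) (nat_lit 0x884245afc) (nat_lit 411412412)]
noncomputable def e6_35 : List Rx := [
  Rx.mk (nat_lit 35) (nat_lit 3) (nat_lit 4) (nat_lit 0) (nat_lit 1) (nat_lit 217) (nat_lit 322) r3_217 r6_322 (nat_lit 0) (nat_lit 6389) (nat_lit 7883) (nat_lit 0x7fff97bfe) (nat_lit 536915534),
  Rx.mk (nat_lit 39) (nat_lit 7) (nat_lit 4) (nat_lit 0) (nat_lit 1) (nat_lit 219) (nat_lit 323) r3_219 r6_323 (nat_lit 0) (nat_lit 7883) (nat_lit 6389) (nat_lit 0x7fff97bfe) (nat_lit 536915534),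
  Rx.mk (nat_lit 55) (nat_lit 7) (nat_lit 6) (nat_lit 0) (nat_lit 3) (nat_lit 220) (nat_lit 325) r3_220 r6_325 (nat_lit 0) (nat_lit 0) (nat_lit 62040) (nat_lit 0x7ffb1f284) (nat_lit 537273802),
  Rx.mk (nat_lit 163) (nat_lit 3) (nat_lit 4) (nat_lit 2) (nat_lit 5) (nat_lit 218) (nat_lit 324) r3_218 r6_324 (nat_lit 0) (nat_lit 62040) (nat_lit 0) (nat_lit 0x7ffb1f284) (nat_lit 537273802)]
noncomputable def e6_36 : List Rx := [
  Rx.mk (nat_lit 35) (nat_lit 3) (nat_lit 4) (nat_lit 0) (nat_lit 1) (nat_lit 235) (nat_lit 41) r3_235 r12_41 (nat_lit 0) (nat_lit 4214) (nat_lit 5003) (nat_lit 0x7fff1ac3a) (nat_lit 536938379),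
  Rx.mk (nat_lit 39) (nat_lit 7) (nat_lit 4) (nat_lit 0) (nat_lit 1) (nat_lit 237) (nat_lit 45) r3_237 r12_45 (nat_lit 0) (nat_lit 5003) (nat_lit 4214) (nat_lit 0x7fff1ac3a) (nat_lit 536938379),
  Rx.mk (nat_lit 55) (nat_lit 7) (nat_lit 6) (nat_lit 0) (nat_lit 3) (nat_lit 239) (nat_lit 47) r3_239 r12_47 (nat_lit 0) (nat_lit 0) (nat_lit 80128) (nat_lit 0x7ffce7580) (nat_lit 537198240),
  Rx.mk (nat_lit 59) (nat_lit 3) (nat_lit 7) (nat_lit 0) (nat_lit 3) (nat_lit 241) (nat_lit 43) r3_241 r12_43 (nat_lit 0) (nat_lit 0) (nat_lit 475299) (nat_lit 0x6da4f8700) (nat_lit 834267961),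
  Rx.mk (nat_lit 163) (nat_lit 3) (nat_lit 4) (nat_lit 2) (nat_lit 5) (nat_lit 236) (nat_lit 42) r3_236 r12_42 (nat_lit 0) (nat_lit 80128) (nat_lit 0) (nat_lit 0x7ffce7580) (nat_lit 537198240),
  Rx.mk (nat_lit 187) (nat_lit 3) (nat_lit 7) (nat_lit 2) (nat_lit 7) (nat_lit 242) (nat_lit 44) r3_242 r12_44 (nat_lit 0) (nat_lit 0) (nat_lit 0) (nat_lit 0x8380378ba) (nat_lit 483854562),
  Rx.mk (nat_lit 231) (nat_lit 7) (nat_lit 4) (nat_lit 3) (nat_lit 5) (nat_lit 238) (nat_lit 46) r3_238 r12_46 (nat_lit 0) (nat_lit 475299) (nat_lit 0) (nat_lit 0x6da4f8700) (nat_lit 834267961),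
  Rx.mk (nat_lit 247) (nat_lit 7) (nat_lit 6) (nat_lit 3) (nat_lit 7) (nat_lit 240) (nat_lit 48) r3_240 r12_48 (nat_lit 0) (nat_lit 0) (nat_lit 0) (nat_lit 0x8380378ba) (nat_lit 483854562)]
noncomputable def e6_37 : List Rx := [
  Rx.mk (nat_lit 168) (nat_lit 0) (nat_lit 5) (nat_lit 2) (nat_lit 6) (nat_lit 249) (nat_lit 71) r3_249 r0_71 (nat_lit 2928) (nat_lit 0) (nat_lit 0) (nat_lit 0x806d30ec2) (nat_lit 530370140)]
noncomputable def e6_38 : List Rx := [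
  Rx.mk (nat_lit 33) (nat_lit 1) (nat_lit 4) (nat_lit 0) (nat_lit 1) (nat_lit 243) (nat_lit 300) r3_243 r0_300 (nat_lit 0) (nat_lit 3234) (nat_lit 1823) (nat_lit 0x7fffe0034) (nat_lit 536886669),
  Rx.mk (nat_lit 40) (nat_lit 0) (nat_lit 5) (nat_lit 0) (nat_lit 2) (nat_lit 245) (nat_lit 302) r3_245 r0_302 (nat_lit 5862) (nat_lit 0) (nat_lit 13151) (nat_lit 0x7a31628ba) (nat_lit 630796625),
  Rx.mk (nat_lit 41) (nat_lit 1) (nat_lit 5) (nat_lit 0) (nat_lit 3) (nat_lit 247) (nat_lit 303) r3_247 r0_303 (nat_lit 0) (nat_lit 0) (nat_lit 2227735) (nat_lit 0x7cd025f7c) (nat_lit 590865397),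
  Rx.mk (nat_lit 161) (nat_lit 1) (nat_lit 4) (nat_lit 2) (nat_lit 5) (nat_lit 244) (nat_lit 301) r3_244 r0_301 (nat_lit 0) (nat_lit 5037900) (nat_lit 0) (nat_lit 0x7d56b4566) (nat_lit 585373512),
  Rx.mk (nat_lit 168) (nat_lit 0) (nat_lit 5) (nat_lit 2) (nat_lit 6) (nat_lit 246) (nat_lit 304) r3_246 r0_304 (nat_lit 1966223) (nat_lit 0) (nat_lit 0) (nat_lit 0x7a0eec8a8) (nat_lit 635246135),
  Rx.mk (nat_lit 169) (nat_lit 1) (nat_lit 5) (nat_lit 2) (nat_lit 7) (nat_lit 248) (nat_lit 305) r3_248 r0_305 (nat_lit 0) (nat_lit 0) (nat_lit 0) (nat_lit 0x81fa69626) (nat_lit 507231062)]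
noncomputable def e6_39 : List Rx := [
  Rx.mk (nat_lit 40) (nat_lit 0) (nat_lit 5) (nat_lit 0) (nat_lit 2) (nat_lit 250) (nat_lit 52) r3_250 r7_52 (nat_lit 187444) (nat_lit 0) (nat_lit 161216) (nat_lit 0x65b3d3f7a) (nat_lit 962509472),
  Rx.mk (nat_lit 41) (nat_lit 1) (nat_lit 5) (nat_lit 0) (nat_lit 3) (nat_lit 252) (nat_lit 54) r3_252 r7_54 (nat_lit 0) (nat_lit 0) (nat_lit 20900457) (nat_lit 0x7888ef68e) (nat_lit 679216269),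
  Rx.mk (nat_lit 168) (nat_lit 0) (nat_lit 5) (nat_lit 2) (nat_lit 6) (nat_lit 251) (nat_lit 53) r3_251 r7_53 (nat_lit 1062796) (nat_lit 0) (nat_lit 0) (nat_lit 0x7d66ce370) (nat_lit 580163308),
  Rx.mk (nat_lit 169) (nat_lit 1) (nat_lit 5) (nat_lit 2) (nat_lit 7) (nat_lit 253) (nat_lit 55) r3_253 r7_55 (nat_lit 0) (nat_lit 0) (nat_lit 0) (nat_lit 0x82218c4a6) (nat_lit 505206912)]
noncomputable def e6_40 : List Rx := [
  Rx.mk (nat_lit 33) (nat_lit 1) (nat_lit 4) (nat_lit 0) (nat_lit 1) (nat_lit 276) (nat_lit 322) r3_276 r2_322 (nat_lit 0) (nat_lit 625176) (nat_lit 870846) (nat_lit 0x6220ea3a6) (nat_lit 1021510934),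
  Rx.mk (nat_lit 37) (nat_lit 5) (nat_lit 4) (nat_lit 0) (nat_lit 1) (nat_lit 279) (nat_lit 323) r3_279 r2_323 (nat_lit 0) (nat_lit 870846) (nat_lit 625176) (nat_lit 0x6220ea3a6) (nat_lit 1021510934),
  Rx.mk (nat_lit 41) (nat_lit 1) (nat_lit 5) (nat_lit 0) (nat_lit 3) (nat_lit 281) (nat_lit 327) r3_281 r2_327 (nat_lit 0) (nat_lit 0) (nat_lit 29104789) (nat_lit 0x7433cc070) (nat_lit 757442951),
  Rx.mk (nat_lit 45) (nat_lit 5) (nat_lit 5) (nat_lit 0) (nat_lit 3) (nat_lit 284) (nat_lit 328) r3_284 r2_328 (nat_lit 0) (nat_lit 0) (nat_lit 16366906) (nat_lit 0x6fe51c4c4) (nat_lit 814305468),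
  Rx.mk (nat_lit 53) (nat_lit 5) (nat_lit 6) (nat_lit 0) (nat_lit 3) (nat_lit 286) (nat_lit 332) r3_286 r2_332 (nat_lit 0) (nat_lit 0) (nat_lit 27621288) (nat_lit 0x7e6a285a6) (nat_lit 591112650),
  Rx.mk (nat_lit 97) (nat_lit 1) (nat_lit 4) (nat_lit 1) (nat_lit 5) (nat_lit 277) (nat_lit 324) r3_277 r2_324 (nat_lit 0) (nat_lit 16366906) (nat_lit 0) (nat_lit 0x6fe51c4c4) (nat_lit 814305468),
  Rx.mk (nat_lit 101) (nat_lit 5) (nat_lit 4) (nat_lit 1) (nat_lit 5) (nat_lit 280) (nat_lit 325) r3_280 r2_325 (nat_lit 0) (nat_lit 29104789) (nat_lit 0) (nat_lit 0x7433cc070) (nat_lit 757442951),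
  Rx.mk (nat_lit 105) (nat_lit 1) (nat_lit 5) (nat_lit 1) (nat_lit 7) (nat_lit 282) (nat_lit 329) r3_282 r2_329 (nat_lit 0) (nat_lit 0) (nat_lit 0) (nat_lit 0x8017985b4) (nat_lit 536870912),
  Rx.mk (nat_lit 109) (nat_lit 5) (nat_lit 5) (nat_lit 1) (nat_lit 7) (nat_lit 285) (nat_lit 330) r3_285 r2_330 (nat_lit 0) (nat_lit 0) (nat_lit 0) (nat_lit 0x8017985b4) (nat_lit 536870912),
  Rx.mk (nat_lit 117) (nat_lit 5) (nat_lit 6) (nat_lit 1) (nat_lit 7) (nat_lit 287) (nat_lit 333) r3_287 r2_333 (nat_lit 0) (nat_lit 0) (nat_lit 0) (nat_lit 0x80395644e) (nat_lit 534801512),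
  Rx.mk (nat_lit 161) (nat_lit 1) (nat_lit 4) (nat_lit 2) (nat_lit 5) (nat_lit 278) (nat_lit 326) r3_278 r2_326 (nat_lit 0) (nat_lit 27621288) (nat_lit 0) (nat_lit 0x7e6a285a6) (nat_lit 591112650),
  Rx.mk (nat_lit 169) (nat_lit 1) (nat_lit 5) (nat_lit 2) (nat_lit 7) (nat_lit 283) (nat_lit 331) r3_283 r2_331 (nat_lit 0) (nat_lit 0) (nat_lit 0) (nat_lit 0x80395644e) (nat_lit 534801512)]
noncomputable def e6_41 : List Rx := [
  Rx.mk (nat_lit 41) (nat_lit 1) (nat_lit 5) (nat_lit 0) (nat_lit 3) (nat_lit 290) (nat_lit 300) r3_290 r9_300 (nat_lit 0) (nat_lit 0) (nat_lit 36215805) (nat_lit 0x6837b1e8a) (nat_lit 958320217),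
  Rx.mk (nat_lit 45) (nat_lit 5) (nat_lit 5) (nat_lit 0) (nat_lit 3) (nat_lit 293) (nat_lit 301) r3_293 r9_301 (nat_lit 0) (nat_lit 0) (nat_lit 23806788) (nat_lit 0x6530a0838) (nat_lit 994848200),
  Rx.mk (nat_lit 105) (nat_lit 1) (nat_lit 5) (nat_lit 1) (nat_lit 7) (nat_lit 291) (nat_lit 302) r3_291 r9_302 (nat_lit 0) (nat_lit 0) (nat_lit 0) (nat_lit 0x7f8a461c0) (nat_lit 545571162),
  Rx.mk (nat_lit 109) (nat_lit 5) (nat_lit 5) (nat_lit 1) (nat_lit 7) (nat_lit 294) (nat_lit 303) r3_294 r9_303 (nat_lit 0) (nat_lit 0) (nat_lit 0) (nat_lit 0x8017985b4) (nat_lit 536870912),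
  Rx.mk (nat_lit 169) (nat_lit 1) (nat_lit 5) (nat_lit 2) (nat_lit 7) (nat_lit 292) (nat_lit 304) r3_292 r9_304 (nat_lit 0) (nat_lit 0) (nat_lit 0) (nat_lit 0x7ded52914) (nat_lit 571323512)]
noncomputable def e6_42 : List Rx := [
  Rx.mk (nat_lit 97) (nat_lit 1) (nat_lit 4) (nat_lit 1) (nat_lit 5) (nat_lit 295) (nat_lit 301) r3_295 r9_301 (nat_lit 0) (nat_lit 23806788) (nat_lit 0) (nat_lit 0x6530a0838) (nat_lit 994848200),
  Rx.mk (nat_lit 101) (nat_lit 5) (nat_lit 4) (nat_lit 1) (nat_lit 5) (nat_lit 296) (nat_lit 300) r3_296 r9_300 (nat_lit 0) (nat_lit 36215805) (nat_lit 0) (nat_lit 0x6837b1e8a) (nat_lit 958320217),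
  Rx.mk (nat_lit 105) (nat_lit 1) (nat_lit 5) (nat_lit 1) (nat_lit 7) (nat_lit 297) (nat_lit 303) r3_297 r9_303 (nat_lit 0) (nat_lit 0) (nat_lit 0) (nat_lit 0x8017985b4) (nat_lit 536870912),
  Rx.mk (nat_lit 109) (nat_lit 5) (nat_lit 5) (nat_lit 1) (nat_lit 7) (nat_lit 298) (nat_lit 302) r3_298 r9_302 (nat_lit 0) (nat_lit 0) (nat_lit 0) (nat_lit 0x7f8a461c0) (nat_lit 545571162),
  Rx.mk (nat_lit 117) (nat_lit 5) (nat_lit 6) (nat_lit 1) (nat_lit 7) (nat_lit 299) (nat_lit 304) r3_299 r9_304 (nat_lit 0) (nat_lit 0) (nat_lit 0) (nat_lit 0x7ded52914) (nat_lit 571323512)]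
noncomputable def e6_43 : List Rx := [
  Rx.mk (nat_lit 33) (nat_lit 1) (nat_lit 4) (nat_lit 0) (nat_lit 1) (nat_lit 272) (nat_lit 293) r3_272 r1_293 (nat_lit 0) (nat_lit 12607) (nat_lit 11530) (nat_lit 0x8001f4cc6) (nat_lit 536785599),
  Rx.mk (nat_lit 41) (nat_lit 1) (nat_lit 5) (nat_lit 0) (nat_lit 3) (nat_lit 274) (nat_lit 295) r3_274 r1_295 (nat_lit 0) (nat_lit 0) (nat_lit 220600) (nat_lit 0x7fe1be20e) (nat_lit 539042412),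
  Rx.mk (nat_lit 161) (nat_lit 1) (nat_lit 4) (nat_lit 2) (nat_lit 5) (nat_lit 273) (nat_lit 294) r3_273 r1_294 (nat_lit 0) (nat_lit 10831797) (nat_lit 0) (nat_lit 0x81a17f3bc) (nat_lit 523520059),
  Rx.mk (nat_lit 169) (nat_lit 1) (nat_lit 5) (nat_lit 2) (nat_lit 7) (nat_lit 275) (nat_lit 296) r3_275 r1_296 (nat_lit 0) (nat_lit 0) (nat_lit 0) (nat_lit 0x8071f5700) (nat_lit 530794662)]
noncomputable def e6_44 : List Rx := [
  Rx.mk (nat_lit 41) (nat_lit 1) (nat_lit 5) (nat_lit 0) (nat_lit 3) (nat_lit 288) (nat_lit 61) r3_288 r8_61 (nat_lit 0) (nat_lit 0) (nat_lit 4361193) (nat_lit 0x73e0634a6) (nat_lit 737767955),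
  Rx.mk (nat_lit 169) (nat_lit 1) (nat_lit 5) (nat_lit 2) (nat_lit 7) (nat_lit 289) (nat_lit 62) r3_289 r8_62 (nat_lit 0) (nat_lit 0) (nat_lit 0) (nat_lit 0x851b92084) (nat_lit 459606612)]
noncomputable def e6_45 : List Rx := [
  Rx.mk (nat_lit 136) (nat_lit 0) (nat_lit 1) (nat_lit 2) (nat_lit 6) (nat_lit 262) (nat_lit 67) r3_262 r1_67 (nat_lit 187256) (nat_lit 0) (nat_lit 0) (nat_lit 0x7e7e37ede) (nat_lit 561441168),
  Rx.mk (nat_lit 138) (nat_lit 2) (nat_lit 1) (nat_lit 2) (nat_lit 7) (nat_lit 263) (nat_lit 68) r3_263 r1_68 (nat_lit 0) (nat_lit 0) (nat_lit 0) (nat_lit 0x802f26848) (nat_lit 535238762),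
  Rx.mk (nat_lit 168) (nat_lit 0) (nat_lit 5) (nat_lit 2) (nat_lit 6) (nat_lit 264) (nat_lit 66) r3_264 r1_66 (nat_lit 15428) (nat_lit 0) (nat_lit 0) (nat_lit 0x81eea1d52) (nat_lit 507420490)]
noncomputable def e6_46 : List Rx := [
  Rx.mk (nat_lit 136) (nat_lit 0) (nat_lit 1) (nat_lit 2) (nat_lit 6) (nat_lit 254) (nat_lit 59) r3_254 r2_59 (nat_lit 1368375) (nat_lit 0) (nat_lit 0) (nat_lit 0x80b22cd14) (nat_lit 527945287),
  Rx.mk (nat_lit 138) (nat_lit 2) (nat_lit 1) (nat_lit 2) (nat_lit 7) (nat_lit 255) (nat_lit 61) r3_255 r2_61 (nat_lit 0) (nat_lit 0) (nat_lit 0) (nat_lit 0x842b28ae4) (nat_lit 474011712),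
  Rx.mk (nat_lit 394) (nat_lit 2) (nat_lit 1) (nat_lit 6) (nat_lit 7) (nat_lit 256) (nat_lit 60) r3_256 r2_60 (nat_lit 0) (nat_lit 0) (nat_lit 0) (nat_lit 0x8616d9e60) (nat_lit 444661462)]
noncomputable def e6_47 : List Rx := [
  Rx.mk (nat_lit 40) (nat_lit 0) (nat_lit 5) (nat_lit 0) (nat_lit 2) (nat_lit 268) (nat_lit 334) r3_268 r8_334 (nat_lit 875122) (nat_lit 0) (nat_lit 913664) (nat_lit 0x5cc5f9ef6) (nat_lit 1108454298),
  Rx.mk (nat_lit 41) (nat_lit 1) (nat_lit 5) (nat_lit 0) (nat_lit 3) (nat_lit 270) (nat_lit 335) r3_270 r8_335 (nat_lit 0) (nat_lit 0) (nat_lit 20103359) (nat_lit 0x733b06e04) (nat_lit 764186071),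
  Rx.mk (nat_lit 136) (nat_lit 0) (nat_lit 1) (nat_lit 2) (nat_lit 6) (nat_lit 265) (nat_lit 331) r3_265 r8_331 (nat_lit 14122163) (nat_lit 0) (nat_lit 0) (nat_lit 0x6b5780b64) (nat_lit 885726425),
  Rx.mk (nat_lit 137) (nat_lit 1) (nat_lit 1) (nat_lit 2) (nat_lit 7) (nat_lit 266) (nat_lit 332) r3_266 r8_332 (nat_lit 0) (nat_lit 0) (nat_lit 0) (nat_lit 0x8017985b4) (nat_lit 536870912),
  Rx.mk (nat_lit 138) (nat_lit 2) (nat_lit 1) (nat_lit 2) (nat_lit 7) (nat_lit 267) (nat_lit 333) r3_267 r8_333 (nat_lit 0) (nat_lit 0) (nat_lit 0) (nat_lit 0x7f54cbf2c) (nat_lit 548916912),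
  Rx.mk (nat_lit 168) (nat_lit 0) (nat_lit 5) (nat_lit 2) (nat_lit 6) (nat_lit 269) (nat_lit 336) r3_269 r8_336 (nat_lit 6010146) (nat_lit 0) (nat_lit 0) (nat_lit 0x6e1566726) (nat_lit 833142708),
  Rx.mk (nat_lit 169) (nat_lit 1) (nat_lit 5) (nat_lit 2) (nat_lit 7) (nat_lit 271) (nat_lit 337) r3_271 r8_337 (nat_lit 0) (nat_lit 0) (nat_lit 0) (nat_lit 0x7f8ae4a3c) (nat_lit 545526512)]
noncomputable def e6_48 : List Rx := [
  Rx.mk (nat_lit 136) (nat_lit 0) (nat_lit 1) (nat_lit 2) (nat_lit 6) (nat_lit 257) (nat_lit 19) r3_257 r9_19 (nat_lit 6950286) (nat_lit 0) (nat_lit 0) (nat_lit 0x6a58027fa) (nat_lit 894620048),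
  Rx.mk (nat_lit 137) (nat_lit 1) (nat_lit 1) (nat_lit 2) (nat_lit 7) (nat_lit 258) (nat_lit 20) r3_258 r9_20 (nat_lit 0) (nat_lit 0) (nat_lit 0) (nat_lit 0x7ffede474) (nat_lit 538398162),
  Rx.mk (nat_lit 138) (nat_lit 2) (nat_lit 1) (nat_lit 2) (nat_lit 7) (nat_lit 259) (nat_lit 22) r3_259 r9_22 (nat_lit 0) (nat_lit 0) (nat_lit 0) (nat_lit 0x7fbe4884c) (nat_lit 542361212),
  Rx.mk (nat_lit 394) (nat_lit 2) (nat_lit 1) (nat_lit 6) (nat_lit 7) (nat_lit 260) (nat_lit 21) r3_260 r9_21 (nat_lit 0) (nat_lit 0) (nat_lit 0) (nat_lit 0x800056a40) (nat_lit 538300112)]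
noncomputable def e6_49 : List Rx := [
  Rx.mk (nat_lit 394) (nat_lit 2) (nat_lit 1) (nat_lit 6) (nat_lit 7) (nat_lit 261) (nat_lit 14) r3_261 r9_14 (nat_lit 0) (nat_lit 0) (nat_lit 0) (nat_lit 0x7fce2024c) (nat_lit 541400812)]
noncomputable def e6_50 : List Rx := [
  Rx.mk (nat_lit 35) (nat_lit 3) (nat_lit 4) (nat_lit 0) (nat_lit 1) (nat_lit 301) (nat_lit 63) r3_301 r3_63 (nat_lit 0) (nat_lit 173) (nat_lit 326) (nat_lit 0x8083adba0) (nat_lit 529026761),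
  Rx.mk (nat_lit 43) (nat_lit 3) (nat_lit 5) (nat_lit 0) (nat_lit 3) (nat_lit 304) (nat_lit 64) r3_304 r3_64 (nat_lit 0) (nat_lit 0) (nat_lit 10672) (nat_lit 0x7ff6bfff4) (nat_lit 537468484),
  Rx.mk (nat_lit 160) (nat_lit 0) (nat_lit 4) (nat_lit 2) (nat_lit 4) (nat_lit 300) (nat_lit 61) r3_300 r3_61 (nat_lit 326) (nat_lit 173) (nat_lit 0) (nat_lit 0x8083adba0) (nat_lit 529026761),
  Rx.mk (nat_lit 163) (nat_lit 3) (nat_lit 4) (nat_lit 2) (nat_lit 5) (nat_lit 302) (nat_lit 65) r3_302 r3_65 (nat_lit 0) (nat_lit 180052) (nat_lit 0) (nat_lit 0x896e29a6e) (nat_lit 393288514),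
  Rx.mk (nat_lit 168) (nat_lit 0) (nat_lit 5) (nat_lit 2) (nat_lit 6) (nat_lit 303) (nat_lit 62) r3_303 r3_62 (nat_lit 10672) (nat_lit 0) (nat_lit 0) (nat_lit 0x7ff6bfff4) (nat_lit 537468484),
  Rx.mk (nat_lit 171) (nat_lit 3) (nat_lit 5) (nat_lit 2) (nat_lit 7) (nat_lit 305) (nat_lit 66) r3_305 r3_66 (nat_lit 0) (nat_lit 0) (nat_lit 0) (nat_lit 0x8ace81da2) (nat_lit 372721762)]
noncomputable def e6_51 : List Rx := [
  Rx.mk (nat_lit 43) (nat_lit 3) (nat_lit 5) (nat_lit 0) (nat_lit 3) (nat_lit 323) (nat_lit 66) r3_323 r4_66 (nat_lit 0) (nat_lit 0) (nat_lit 162706) (nat_lit 0x7fec4a02e) (nat_lit 538305068),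
  Rx.mk (nat_lit 168) (nat_lit 0) (nat_lit 5) (nat_lit 2) (nat_lit 6) (nat_lit 322) (nat_lit 65) r3_322 r4_65 (nat_lit 20881) (nat_lit 0) (nat_lit 0) (nat_lit 0x7ff798390) (nat_lit 537424343),
  Rx.mk (nat_lit 171) (nat_lit 3) (nat_lit 5) (nat_lit 2) (nat_lit 7) (nat_lit 324) (nat_lit 67) r3_324 r4_67 (nat_lit 0) (nat_lit 0) (nat_lit 0) (nat_lit 0x7ffafb73a) (nat_lit 537214012)]
noncomputable def e6_52 : List Rx := [
  Rx.mk (nat_lit 35) (nat_lit 3) (nat_lit 4) (nat_lit 0) (nat_lit 1) (nat_lit 334) (nat_lit 55) r3_334 r5_55 (nat_lit 0) (nat_lit 3690) (nat_lit 4830) (nat_lit 0x7ffd07a60) (nat_lit 537068682),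
  Rx.mk (nat_lit 43) (nat_lit 3) (nat_lit 5) (nat_lit 0) (nat_lit 3) (nat_lit 338) (nat_lit 56) r3_338 r5_56 (nat_lit 0) (nat_lit 0) (nat_lit 1607337) (nat_lit 0x7673024ae) (nat_lit 693215299),
  Rx.mk (nat_lit 160) (nat_lit 0) (nat_lit 4) (nat_lit 2) (nat_lit 4) (nat_lit 333) (nat_lit 52) r3_333 r5_52 (nat_lit 2749) (nat_lit 1558) (nat_lit 0) (nat_lit 0x800757f88) (nat_lit 536440369),
  Rx.mk (nat_lit 163) (nat_lit 3) (nat_lit 4) (nat_lit 2) (nat_lit 5) (nat_lit 335) (nat_lit 59) r3_335 r5_59 (nat_lit 0) (nat_lit 255679) (nat_lit 0) (nat_lit 0x890dc1b68) (nat_lit 399147191),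
  Rx.mk (nat_lit 168) (nat_lit 0) (nat_lit 5) (nat_lit 2) (nat_lit 6) (nat_lit 337) (nat_lit 53) r3_337 r5_53 (nat_lit 4617775) (nat_lit 0) (nat_lit 0) (nat_lit 0x7f39a7408) (nat_lit 554334537),
  Rx.mk (nat_lit 171) (nat_lit 3) (nat_lit 5) (nat_lit 2) (nat_lit 7) (nat_lit 339) (nat_lit 60) r3_339 r5_60 (nat_lit 0) (nat_lit 0) (nat_lit 0) (nat_lit 0x95e0ba39c) (nat_lit 203775112),
  Rx.mk (nat_lit 184) (nat_lit 0) (nat_lit 7) (nat_lit 2) (nat_lit 6) (nat_lit 341) (nat_lit 54) r3_341 r5_54 (nat_lit 6095527) (nat_lit 0) (nat_lit 0) (nat_lit 0x814491984) (nat_lit 524090139),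
  Rx.mk (nat_lit 227) (nat_lit 3) (nat_lit 4) (nat_lit 3) (nat_lit 5) (nat_lit 336) (nat_lit 57) r3_336 r5_57 (nat_lit 0) (nat_lit 2939284) (nat_lit 0) (nat_lit 0x760f97a22) (nat_lit 700976746),
  Rx.mk (nat_lit 235) (nat_lit 3) (nat_lit 5) (nat_lit 3) (nat_lit 7) (nat_lit 340) (nat_lit 58) r3_340 r5_58 (nat_lit 0) (nat_lit 0) (nat_lit 0) (nat_lit 0x7e9266ec8) (nat_lit 560921062)]
noncomputable def e6_53 : List Rx := [
  Rx.mk (nat_lit 32) (nat_lit 0) (nat_lit 4) (nat_lit 0) (nat_lit 0) (nat_lit 306) (nat_lit 315) r3_306 r4_315 (nat_lit 1469) (nat_lit 1732) (nat_lit 2229) (nat_lit 0x68e4b7288) (nat_lit 910528842),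
  Rx.mk (nat_lit 33) (nat_lit 1) (nat_lit 4) (nat_lit 0) (nat_lit 1) (nat_lit 308) (nat_lit 316) r3_308 r4_316 (nat_lit 0) (nat_lit 52766084) (nat_lit 11711) (nat_lit 0x7e39636b4) (nat_lit 618367307),
  Rx.mk (nat_lit 35) (nat_lit 3) (nat_lit 4) (nat_lit 0) (nat_lit 1) (nat_lit 310) (nat_lit 317) r3_310 r4_317 (nat_lit 0) (nat_lit 18325) (nat_lit 79972519) (nat_lit 0x7bd4579ca) (nat_lit 684307106),
  Rx.mk (nat_lit 40) (nat_lit 0) (nat_lit 5) (nat_lit 0) (nat_lit 2) (nat_lit 312) (nat_lit 321) r3_312 r4_321 (nat_lit 197867) (nat_lit 0) (nat_lit 291971) (nat_lit 0x7cea5f820) (nat_lit 587285400),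
  Rx.mk (nat_lit 41) (nat_lit 1) (nat_lit 5) (nat_lit 0) (nat_lit 3) (nat_lit 314) (nat_lit 322) r3_314 r4_322 (nat_lit 0) (nat_lit 0) (nat_lit 6083194) (nat_lit 0x8288ac032) (nat_lit 504840506),
  Rx.mk (nat_lit 43) (nat_lit 3) (nat_lit 5) (nat_lit 0) (nat_lit 3) (nat_lit 316) (nat_lit 323) r3_316 r4_323 (nat_lit 0) (nat_lit 0) (nat_lit 57785397) (nat_lit 0x829aa2052) (nat_lit 555266559),
  Rx.mk (nat_lit 160) (nat_lit 0) (nat_lit 4) (nat_lit 2) (nat_lit 4) (nat_lit 307) (nat_lit 318) r3_307 r4_318 (nat_lit 531156) (nat_lit 654027) (nat_lit 0) (nat_lit 0x7dee0ba40) (nat_lit 571676845),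
  Rx.mk (nat_lit 161) (nat_lit 1) (nat_lit 4) (nat_lit 2) (nat_lit 5) (nat_lit 309) (nat_lit 319) r3_309 r4_319 (nat_lit 0) (nat_lit 8572817) (nat_lit 0) (nat_lit 0x825b4bc3c) (nat_lit 510304629),
  Rx.mk (nat_lit 163) (nat_lit 3) (nat_lit 4) (nat_lit 2) (nat_lit 5) (nat_lit 311) (nat_lit 320) r3_311 r4_320 (nat_lit 0) (nat_lit 8997628) (nat_lit 0) (nat_lit 0x812b84d60) (nat_lit 529007340),
  Rx.mk (nat_lit 168) (nat_lit 0) (nat_lit 5) (nat_lit 2) (nat_lit 6) (nat_lit 313) (nat_lit 324) r3_313 r4_324 (nat_lit 1704686) (nat_lit 0) (nat_lit 0) (nat_lit 0x92d5beefa) (nat_lit 251699898),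
  Rx.mk (nat_lit 169) (nat_lit 1) (nat_lit 5) (nat_lit 2) (nat_lit 7) (nat_lit 315) (nat_lit 325) r3_315 r4_325 (nat_lit 0) (nat_lit 0) (nat_lit 0) (nat_lit 0x886830f5a) (nat_lit 409301012),
  Rx.mk (nat_lit 171) (nat_lit 3) (nat_lit 5) (nat_lit 2) (nat_lit 7) (nat_lit 317) (nat_lit 326) r3_317 r4_326 (nat_lit 0) (nat_lit 0) (nat_lit 0) (nat_lit 0x84db470d8) (nat_lit 463510162)]
noncomputable def e6_54 : List Rx := [
  Rx.mk (nat_lit 40) (nat_lit 0) (nat_lit 5) (nat_lit 0) (nat_lit 2) (nat_lit 325) (nat_lit 38) r3_325 r10_38 (nat_lit 197362) (nat_lit 0) (nat_lit 167695) (nat_lit 0x640a65476) (nat_lit 989404669),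
  Rx.mk (nat_lit 41) (nat_lit 1) (nat_lit 5) (nat_lit 0) (nat_lit 3) (nat_lit 327) (nat_lit 40) r3_327 r10_40 (nat_lit 0) (nat_lit 0) (nat_lit 24741287) (nat_lit 0x8017985b4) (nat_lit 561612199),
  Rx.mk (nat_lit 43) (nat_lit 3) (nat_lit 5) (nat_lit 0) (nat_lit 3) (nat_lit 329) (nat_lit 42) r3_329 r10_42 (nat_lit 0) (nat_lit 0) (nat_lit 50053958) (nat_lit 0x7eff903aa) (nat_lit 604233320),
  Rx.mk (nat_lit 168) (nat_lit 0) (nat_lit 5) (nat_lit 2) (nat_lit 6) (nat_lit 326) (nat_lit 39) r3_326 r10_39 (nat_lit 1486174) (nat_lit 0) (nat_lit 0) (nat_lit 0x82dc4fb94) (nat_lit 495172786),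
  Rx.mk (nat_lit 169) (nat_lit 1) (nat_lit 5) (nat_lit 2) (nat_lit 7) (nat_lit 328) (nat_lit 41) r3_328 r10_41 (nat_lit 0) (nat_lit 0) (nat_lit 0) (nat_lit 0x8428b5dde) (nat_lit 474166012),
  Rx.mk (nat_lit 171) (nat_lit 3) (nat_lit 5) (nat_lit 2) (nat_lit 7) (nat_lit 330) (nat_lit 43) r3_330 r10_43 (nat_lit 0) (nat_lit 0) (nat_lit 0) (nat_lit 0x8428a6758) (nat_lit 474169612)]
noncomputable def e6_55 : List Rx := [
  Rx.mk (nat_lit 32) (nat_lit 0) (nat_lit 4) (nat_lit 0) (nat_lit 0) (nat_lit 342) (nat_lit 19) r3_342 r11_19 (nat_lit 122716) (nat_lit 96674) (nat_lit 132111) (nat_lit 0x497316d28) (nat_lit 1419374513),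
  Rx.mk (nat_lit 33) (nat_lit 1) (nat_lit 4) (nat_lit 0) (nat_lit 1) (nat_lit 344) (nat_lit 25) r3_344 r11_25 (nat_lit 0) (nat_lit 3284544) (nat_lit 1291523) (nat_lit 0x652f21fd4) (nat_lit 975280179),
  Rx.mk (nat_lit 35) (nat_lit 3) (nat_lit 4) (nat_lit 0) (nat_lit 1) (nat_lit 346) (nat_lit 31) r3_346 r11_31 (nat_lit 0) (nat_lit 849840) (nat_lit 138609354) (nat_lit 0x69d7f337a) (nat_lit 1034816656),
  Rx.mk (nat_lit 40) (nat_lit 0) (nat_lit 5) (nat_lit 0) (nat_lit 2) (nat_lit 349) (nat_lit 20) r3_349 r11_20 (nat_lit 29295655) (nat_lit 0) (nat_lit 18566817) (nat_lit 0x6eb4eea14) (nat_lit 865039884),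
  Rx.mk (nat_lit 41) (nat_lit 1) (nat_lit 5) (nat_lit 0) (nat_lit 3) (nat_lit 351) (nat_lit 26) r3_351 r11_26 (nat_lit 0) (nat_lit 0) (nat_lit 24741287) (nat_lit 0x8017985b4) (nat_lit 561612199),
  Rx.mk (nat_lit 43) (nat_lit 3) (nat_lit 5) (nat_lit 0) (nat_lit 3) (nat_lit 353) (nat_lit 32) r3_353 r11_32 (nat_lit 0) (nat_lit 0) (nat_lit 29915179) (nat_lit 0x7fe911db2) (nat_lit 569577941),
  Rx.mk (nat_lit 56) (nat_lit 0) (nat_lit 7) (nat_lit 0) (nat_lit 2) (nat_lit 356) (nat_lit 21) r3_356 r11_21 (nat_lit 24848889) (nat_lit 0) (nat_lit 41499232) (nat_lit 0x75df8e2a4) (nat_lit 767700883),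
  Rx.mk (nat_lit 57) (nat_lit 1) (nat_lit 7) (nat_lit 0) (nat_lit 3) (nat_lit 358) (nat_lit 27) r3_358 r11_27 (nat_lit 0) (nat_lit 0) (nat_lit 22959846) (nat_lit 0x7f72d2be2) (nat_lit 569951908),
  Rx.mk (nat_lit 160) (nat_lit 0) (nat_lit 4) (nat_lit 2) (nat_lit 4) (nat_lit 343) (nat_lit 22) r3_343 r11_22 (nat_lit 5090553) (nat_lit 4459709) (nat_lit 0) (nat_lit 0x6f5ae93ec) (nat_lit 816096324),
  Rx.mk (nat_lit 161) (nat_lit 1) (nat_lit 4) (nat_lit 2) (nat_lit 5) (nat_lit 345) (nat_lit 28) r3_345 r11_28 (nat_lit 0) (nat_lit 13146689) (nat_lit 0) (nat_lit 0x808dd2f86) (nat_lit 542691851),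
  Rx.mk (nat_lit 163) (nat_lit 3) (nat_lit 4) (nat_lit 2) (nat_lit 5) (nat_lit 347) (nat_lit 35) r3_347 r11_35 (nat_lit 0) (nat_lit 13744676) (nat_lit 0) (nat_lit 0x808aa0700) (nat_lit 543529688),
  Rx.mk (nat_lit 168) (nat_lit 0) (nat_lit 5) (nat_lit 2) (nat_lit 6) (nat_lit 350) (nat_lit 23) r3_350 r11_23 (nat_lit 14431981) (nat_lit 0) (nat_lit 0) (nat_lit 0x80cd30a02) (nat_lit 540176893),
  Rx.mk (nat_lit 169) (nat_lit 1) (nat_lit 5) (nat_lit 2) (nat_lit 7) (nat_lit 352) (nat_lit 29) r3_352 r11_29 (nat_lit 0) (nat_lit 0) (nat_lit 0) (nat_lit 0x8017985b4) (nat_lit 536870912),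
  Rx.mk (nat_lit 171) (nat_lit 3) (nat_lit 5) (nat_lit 2) (nat_lit 7) (nat_lit 354) (nat_lit 36) r3_354 r11_36 (nat_lit 0) (nat_lit 0) (nat_lit 0) (nat_lit 0x8017985b4) (nat_lit 536870912),
  Rx.mk (nat_lit 184) (nat_lit 0) (nat_lit 7) (nat_lit 2) (nat_lit 6) (nat_lit 357) (nat_lit 24) r3_357 r11_24 (nat_lit 10849071) (nat_lit 0) (nat_lit 0) (nat_lit 0x7fc617ece) (nat_lit 552588333),
  Rx.mk (nat_lit 185) (nat_lit 1) (nat_lit 7) (nat_lit 2) (nat_lit 7) (nat_lit 359) (nat_lit 30) r3_359 r11_30 (nat_lit 0) (nat_lit 0) (nat_lit 0) (nat_lit 0x8017985b4) (nat_lit 536870912),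
  Rx.mk (nat_lit 227) (nat_lit 3) (nat_lit 4) (nat_lit 3) (nat_lit 5) (nat_lit 348) (nat_lit 33) r3_348 r11_33 (nat_lit 0) (nat_lit 22698438) (nat_lit 0) (nat_lit 0x801e644f6) (nat_lit 559143350),
  Rx.mk (nat_lit 235) (nat_lit 3) (nat_lit 5) (nat_lit 3) (nat_lit 7) (nat_lit 355) (nat_lit 34) r3_355 r11_34 (nat_lit 0) (nat_lit 0) (nat_lit 0) (nat_lit 0x8017985b4) (nat_lit 536870912)]
noncomputable def e6_56 : List Rx := [
  Rx.mk (nat_lit 35) (nat_lit 3) (nat_lit 4) (nat_lit 0) (nat_lit 1) (nat_lit 318) (nat_lit 293) r3_318 r5_293 (nat_lit 0) (nat_lit 3024) (nat_lit 2469) (nat_lit 0x817743936) (nat_lit 514521255),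
  Rx.mk (nat_lit 43) (nat_lit 3) (nat_lit 5) (nat_lit 0) (nat_lit 3) (nat_lit 320) (nat_lit 295) r3_320 r5_295 (nat_lit 0) (nat_lit 0) (nat_lit 331055) (nat_lit 0x7f44b8f22) (nat_lit 549048467),
  Rx.mk (nat_lit 163) (nat_lit 3) (nat_lit 4) (nat_lit 2) (nat_lit 5) (nat_lit 319) (nat_lit 294) r3_319 r5_294 (nat_lit 0) (nat_lit 87664) (nat_lit 0) (nat_lit 0x7ee2d6d0e) (nat_lit 555002326),
  Rx.mk (nat_lit 171) (nat_lit 3) (nat_lit 5) (nat_lit 2) (nat_lit 7) (nat_lit 321) (nat_lit 296) r3_321 r5_296 (nat_lit 0) (nat_lit 0) (nat_lit 0) (nat_lit 0x8cf43f2ea) (nat_lit 339923812)]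
noncomputable def e6_57 : List Rx := [
  Rx.mk (nat_lit 43) (nat_lit 3) (nat_lit 5) (nat_lit 0) (nat_lit 3) (nat_lit 331) (nat_lit 351) r3_331 r11_351 (nat_lit 0) (nat_lit 0) (nat_lit 9974206) (nat_lit 0x7a7d1cf58) (nat_lit 636241818),
  Rx.mk (nat_lit 171) (nat_lit 3) (nat_lit 5) (nat_lit 2) (nat_lit 7) (nat_lit 332) (nat_lit 352) r3_332 r11_352 (nat_lit 0) (nat_lit 0) (nat_lit 0) (nat_lit 0x885a32e30) (nat_lit 409617212)]
noncomputable def e6 : List (List Rx) := [e6_0, e6_1, e6_2, e6_3, e6_4, e6_5, e6_6, e6_7, e6_8, e6_9, e6_10, e6_11, e6_12, e6_13, e6_14, e6_15, e6_16, e6_17, e6_18, e6_19, e6_20, e6_21, e6_22, e6_23, e6_24, e6_25, e6_26, e6_27, e6_28, e6_29, e6_30, e6_31, e6_32, e6_33, e6_34, e6_35, e6_36, e6_37, e6_38, e6_39, e6_40, e6_41, e6_42, e6_43, e6_44, e6_45, e6_46, e6_47, e6_48, e6_49, e6_50, e6_51, e6_52, e6_53, e6_54, e6_55, e6_56, e6_57]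
noncomputable def e7_0 : List Rx := [
  Rx.mk (nat_lit 359) (nat_lit 7) (nat_lit 4) (nat_lit 5) (nat_lit 5) (nat_lit 72) (nat_lit 73) r0_72 r0_73 (nat_lit 0) (nat_lit 11196067) (nat_lit 0) (nat_lit 0x781247b62) (nat_lit 676967229),
  Rx.mk (nat_lit 372) (nat_lit 4) (nat_lit 6) (nat_lit 5) (nat_lit 6) (nat_lit 73) (nat_lit 72) r0_73 r0_72 (nat_lit 11196067) (nat_lit 0) (nat_lit 0) (nat_lit 0x781247b62) (nat_lit 676967229),
  Rx.mk (nat_lit 375) (nat_lit 7) (nat_lit 6) (nat_lit 5) (nat_lit 7) (nat_lit 74) (nat_lit 74) r0_74 r0_74 (nat_lit 0) (nat_lit 0) (nat_lit 0) (nat_lit 0x7ff019722) (nat_lit 539153312)]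
noncomputable def e7_1 : List Rx := [
  Rx.mk (nat_lit 359) (nat_lit 7) (nat_lit 4) (nat_lit 5) (nat_lit 5) (nat_lit 75) (nat_lit 70) r0_75 r1_70 (nat_lit 0) (nat_lit 11807158) (nat_lit 0) (nat_lit 0x7ffe24146) (nat_lit 550115770),
  Rx.mk (nat_lit 372) (nat_lit 4) (nat_lit 6) (nat_lit 5) (nat_lit 6) (nat_lit 76) (nat_lit 69) r0_76 r1_69 (nat_lit 21882932) (nat_lit 0) (nat_lit 0) (nat_lit 0x7e18dc364) (nat_lit 590459594),
  Rx.mk (nat_lit 374) (nat_lit 6) (nat_lit 6) (nat_lit 5) (nat_lit 7) (nat_lit 77) (nat_lit 72) r0_77 r1_72 (nat_lit 0) (nat_lit 0) (nat_lit 0) (nat_lit 0x8008dd830) (nat_lit 537772712),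
  Rx.mk (nat_lit 375) (nat_lit 7) (nat_lit 6) (nat_lit 5) (nat_lit 7) (nat_lit 78) (nat_lit 71) r0_78 r1_71 (nat_lit 0) (nat_lit 0) (nat_lit 0) (nat_lit 0x8272ee83a) (nat_lit 500330612)]
noncomputable def e7_2 : List Rx := [
  Rx.mk (nat_lit 295) (nat_lit 7) (nat_lit 4) (nat_lit 4) (nat_lit 1) (nat_lit 31) (nat_lit 64) r0_31 r2_64 (nat_lit 0) (nat_lit 6423183) (nat_lit 5596514) (nat_lit 0x5ddaed8d4) (nat_lit 1101594159),
  Rx.mk (nat_lit 308) (nat_lit 4) (nat_lit 6) (nat_lit 4) (nat_lit 2) (nat_lit 34) (nat_lit 62) r0_34 r2_62 (nat_lit 13136814) (nat_lit 0) (nat_lit 4998249) (nat_lit 0x5b905ca06) (nat_lit 1144741775),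
  Rx.mk (nat_lit 310) (nat_lit 6) (nat_lit 6) (nat_lit 4) (nat_lit 3) (nat_lit 36) (nat_lit 72) r0_36 r2_72 (nat_lit 0) (nat_lit 0) (nat_lit 21507758) (nat_lit 0x7d43469ac) (nat_lit 603533220),
  Rx.mk (nat_lit 311) (nat_lit 7) (nat_lit 6) (nat_lit 4) (nat_lit 3) (nat_lit 39) (nat_lit 68) r0_39 r2_68 (nat_lit 0) (nat_lit 0) (nat_lit 5674149) (nat_lit 0x7eaf25780) (nat_lit 564630711),
  Rx.mk (nat_lit 359) (nat_lit 7) (nat_lit 4) (nat_lit 5) (nat_lit 5) (nat_lit 32) (nat_lit 65) r0_32 r2_65 (nat_lit 0) (nat_lit 15050003) (nat_lit 0) (nat_lit 0x808182fe2) (nat_lit 545392665),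
  Rx.mk (nat_lit 372) (nat_lit 4) (nat_lit 6) (nat_lit 5) (nat_lit 6) (nat_lit 35) (nat_lit 63) r0_35 r2_63 (nat_lit 28341495) (nat_lit 0) (nat_lit 0) (nat_lit 0x7c3b84864) (nat_lit 626988107),
  Rx.mk (nat_lit 374) (nat_lit 6) (nat_lit 6) (nat_lit 5) (nat_lit 7) (nat_lit 37) (nat_lit 73) r0_37 r2_73 (nat_lit 0) (nat_lit 0) (nat_lit 0) (nat_lit 0x8017985b4) (nat_lit 536870912),
  Rx.mk (nat_lit 375) (nat_lit 7) (nat_lit 6) (nat_lit 5) (nat_lit 7) (nat_lit 40) (nat_lit 69) r0_40 r2_69 (nat_lit 0) (nat_lit 0) (nat_lit 0) (nat_lit 0x816b1f196) (nat_lit 516210712),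
  Rx.mk (nat_lit 406) (nat_lit 6) (nat_lit 2) (nat_lit 6) (nat_lit 7) (nat_lit 30) (nat_lit 71) r0_30 r2_71 (nat_lit 0) (nat_lit 0) (nat_lit 0) (nat_lit 0x7ff838a16) (nat_lit 538790162),
  Rx.mk (nat_lit 438) (nat_lit 6) (nat_lit 6) (nat_lit 6) (nat_lit 7) (nat_lit 38) (nat_lit 74) r0_38 r2_74 (nat_lit 0) (nat_lit 0) (nat_lit 0) (nat_lit 0x7ffabadac) (nat_lit 538636162),
  Rx.mk (nat_lit 487) (nat_lit 7) (nat_lit 4) (nat_lit 7) (nat_lit 5) (nat_lit 33) (nat_lit 66) r0_33 r2_66 (nat_lit 0) (nat_lit 26786742) (nat_lit 0) (nat_lit 0x7e49fc304) (nat_lit 592261154),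
  Rx.mk (nat_lit 503) (nat_lit 7) (nat_lit 6) (nat_lit 7) (nat_lit 7) (nat_lit 41) (nat_lit 70) r0_41 r2_70 (nat_lit 0) (nat_lit 0) (nat_lit 0) (nat_lit 0x81560cc68) (nat_lit 517481712),
  Rx.mk (nat_lit 511) (nat_lit 7) (nat_lit 7) (nat_lit 7) (nat_lit 7) (nat_lit 42) (nat_lit 67) r0_42 r2_67 (nat_lit 0) (nat_lit 0) (nat_lit 0) (nat_lit 0x8017985b4) (nat_lit 536870912)]
noncomputable def e7_3 : List Rx := [
  Rx.mk (nat_lit 103) (nat_lit 7) (nat_lit 4) (nat_lit 1) (nat_lit 5) (nat_lit 71) (nat_lit 67) r0_71 r3_67 (nat_lit 0) (nat_lit 2928) (nat_lit 0) (nat_lit 0x806d30ec2) (nat_lit 530370140)]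
noncomputable def e7_4 : List Rx := [
  Rx.mk (nat_lit 103) (nat_lit 7) (nat_lit 4) (nat_lit 1) (nat_lit 5) (nat_lit 79) (nat_lit 68) r0_79 r4_68 (nat_lit 0) (nat_lit 6167468) (nat_lit 0) (nat_lit 0x5e86efab0) (nat_lit 1084789780),
  Rx.mk (nat_lit 359) (nat_lit 7) (nat_lit 4) (nat_lit 5) (nat_lit 5) (nat_lit 80) (nat_lit 69) r0_80 r4_69 (nat_lit 0) (nat_lit 13011950) (nat_lit 0) (nat_lit 0x7c2e5800a) (nat_lit 612357812),
  Rx.mk (nat_lit 375) (nat_lit 7) (nat_lit 6) (nat_lit 5) (nat_lit 7) (nat_lit 81) (nat_lit 70) r0_81 r4_70 (nat_lit 0) (nat_lit 0) (nat_lit 0) (nat_lit 0x7f12b28fc) (nat_lit 552544162)]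
noncomputable def e7_5 : List Rx := [
  Rx.mk (nat_lit 103) (nat_lit 7) (nat_lit 4) (nat_lit 1) (nat_lit 5) (nat_lit 89) (nat_lit 61) r0_89 r5_61 (nat_lit 0) (nat_lit 16868928) (nat_lit 0) (nat_lit 0x770328902) (nat_lit 699634640),
  Rx.mk (nat_lit 127) (nat_lit 7) (nat_lit 7) (nat_lit 1) (nat_lit 7) (nat_lit 90) (nat_lit 62) r0_90 r5_62 (nat_lit 0) (nat_lit 0) (nat_lit 0) (nat_lit 0x80cf2f8d0) (nat_lit 525470412)]
noncomputable def e7_6 : List Rx := [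
  Rx.mk (nat_lit 24) (nat_lit 0) (nat_lit 3) (nat_lit 0) (nat_lit 2) (nat_lit 43) (nat_lit 4) r0_43 r3_4 (nat_lit 2481) (nat_lit 0) (nat_lit 966) (nat_lit 0x82288f6ae) (nat_lit 503955459),
  Rx.mk (nat_lit 27) (nat_lit 3) (nat_lit 3) (nat_lit 0) (nat_lit 3) (nat_lit 46) (nat_lit 6) r0_46 r3_6 (nat_lit 0) (nat_lit 0) (nat_lit 1916670) (nat_lit 0x7bfb383c8) (nat_lit 604200682),
  Rx.mk (nat_lit 59) (nat_lit 3) (nat_lit 7) (nat_lit 0) (nat_lit 3) (nat_lit 49) (nat_lit 2) r0_49 r3_2 (nat_lit 0) (nat_lit 0) (nat_lit 12614) (nat_lit 0x7ff74418c) (nat_lit 537440126),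
  Rx.mk (nat_lit 152) (nat_lit 0) (nat_lit 3) (nat_lit 2) (nat_lit 6) (nat_lit 44) (nat_lit 5) r0_44 r3_5 (nat_lit 7927509) (nat_lit 0) (nat_lit 0) (nat_lit 0x72604c6ec) (nat_lit 765358121),
  Rx.mk (nat_lit 154) (nat_lit 2) (nat_lit 3) (nat_lit 2) (nat_lit 7) (nat_lit 45) (nat_lit 8) r0_45 r3_8 (nat_lit 0) (nat_lit 0) (nat_lit 0) (nat_lit 0x789a9bc84) (nat_lit 657134512),
  Rx.mk (nat_lit 155) (nat_lit 3) (nat_lit 3) (nat_lit 2) (nat_lit 7) (nat_lit 47) (nat_lit 7) r0_47 r3_7 (nat_lit 0) (nat_lit 0) (nat_lit 0) (nat_lit 0x7c1fb6a38) (nat_lit 600372212),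
  Rx.mk (nat_lit 231) (nat_lit 7) (nat_lit 4) (nat_lit 3) (nat_lit 5) (nat_lit 48) (nat_lit 0) r0_48 r3_0 (nat_lit 0) (nat_lit 48839) (nat_lit 0) (nat_lit 0x6e7903e32) (nat_lit 820364901),
  Rx.mk (nat_lit 251) (nat_lit 3) (nat_lit 7) (nat_lit 3) (nat_lit 7) (nat_lit 50) (nat_lit 3) r0_50 r3_3 (nat_lit 0) (nat_lit 0) (nat_lit 0) (nat_lit 0x803739724) (nat_lit 534831362),
  Rx.mk (nat_lit 255) (nat_lit 7) (nat_lit 7) (nat_lit 3) (nat_lit 7) (nat_lit 51) (nat_lit 1) r0_51 r3_1 (nat_lit 0) (nat_lit 0) (nat_lit 0) (nat_lit 0x7f14b983a) (nat_lit 552804862)]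
noncomputable def e7_7 : List Rx := [
  Rx.mk (nat_lit 24) (nat_lit 0) (nat_lit 3) (nat_lit 0) (nat_lit 2) (nat_lit 4) (nat_lit 11) r0_4 r0_11 (nat_lit 6426) (nat_lit 0) (nat_lit 5108) (nat_lit 0x7ff90f05c) (nat_lit 537322946),
  Rx.mk (nat_lit 27) (nat_lit 3) (nat_lit 3) (nat_lit 0) (nat_lit 3) (nat_lit 7) (nat_lit 13) r0_7 r0_13 (nat_lit 0) (nat_lit 0) (nat_lit 22473) (nat_lit 0x842299b94) (nat_lit 473842535),
  Rx.mk (nat_lit 130) (nat_lit 2) (nat_lit 0) (nat_lit 2) (nat_lit 5) (nat_lit 0) (nat_lit 10) r0_0 r0_10 (nat_lit 0) (nat_lit 80316) (nat_lit 0) (nat_lit 0x5509d2c2a) (nat_lit 1231694478),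
  Rx.mk (nat_lit 146) (nat_lit 2) (nat_lit 2) (nat_lit 2) (nat_lit 7) (nat_lit 1) (nat_lit 19) r0_1 r0_19 (nat_lit 0) (nat_lit 0) (nat_lit 0) (nat_lit 0x74e6e15d4) (nat_lit 716955412),
  Rx.mk (nat_lit 152) (nat_lit 0) (nat_lit 3) (nat_lit 2) (nat_lit 6) (nat_lit 5) (nat_lit 12) r0_5 r0_12 (nat_lit 11895286) (nat_lit 0) (nat_lit 0) (nat_lit 0x6f9864d16) (nat_lit 814611698),
  Rx.mk (nat_lit 154) (nat_lit 2) (nat_lit 3) (nat_lit 2) (nat_lit 7) (nat_lit 6) (nat_lit 16) r0_6 r0_16 (nat_lit 0) (nat_lit 0) (nat_lit 0) (nat_lit 0x7fe5259ba) (nat_lit 538574762),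
  Rx.mk (nat_lit 155) (nat_lit 3) (nat_lit 3) (nat_lit 2) (nat_lit 7) (nat_lit 8) (nat_lit 15) r0_8 r0_15 (nat_lit 0) (nat_lit 0) (nat_lit 0) (nat_lit 0x7d18c92ba) (nat_lit 584629662),
  Rx.mk (nat_lit 219) (nat_lit 3) (nat_lit 3) (nat_lit 3) (nat_lit 7) (nat_lit 9) (nat_lit 14) r0_9 r0_14 (nat_lit 0) (nat_lit 0) (nat_lit 0) (nat_lit 0x7d7548f40) (nat_lit 578841012),
  Rx.mk (nat_lit 251) (nat_lit 3) (nat_lit 7) (nat_lit 3) (nat_lit 7) (nat_lit 17) (nat_lit 3) r0_17 r0_3 (nat_lit 0) (nat_lit 0) (nat_lit 0) (nat_lit 0x7e8dbb8b0) (nat_lit 561242362),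
  Rx.mk (nat_lit 255) (nat_lit 7) (nat_lit 7) (nat_lit 3) (nat_lit 7) (nat_lit 18) (nat_lit 2) r0_18 r0_2 (nat_lit 0) (nat_lit 0) (nat_lit 0) (nat_lit 0x7e64f42d8) (nat_lit 563774762),
  Rx.mk (nat_lit 308) (nat_lit 4) (nat_lit 6) (nat_lit 4) (nat_lit 2) (nat_lit 11) (nat_lit 4) r0_11 r0_4 (nat_lit 6426) (nat_lit 0) (nat_lit 5108) (nat_lit 0x7ff90f05c) (nat_lit 537322946),
  Rx.mk (nat_lit 310) (nat_lit 6) (nat_lit 6) (nat_lit 4) (nat_lit 3) (nat_lit 13) (nat_lit 7) r0_13 r0_7 (nat_lit 0) (nat_lit 0) (nat_lit 22473) (nat_lit 0x842299b94) (nat_lit 473842535),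
  Rx.mk (nat_lit 402) (nat_lit 2) (nat_lit 2) (nat_lit 6) (nat_lit 7) (nat_lit 2) (nat_lit 18) r0_2 r0_18 (nat_lit 0) (nat_lit 0) (nat_lit 0) (nat_lit 0x7e64f42d8) (nat_lit 563774762),
  Rx.mk (nat_lit 406) (nat_lit 6) (nat_lit 2) (nat_lit 6) (nat_lit 7) (nat_lit 3) (nat_lit 17) r0_3 r0_17 (nat_lit 0) (nat_lit 0) (nat_lit 0) (nat_lit 0x7e8dbb8b0) (nat_lit 561242362),
  Rx.mk (nat_lit 438) (nat_lit 6) (nat_lit 6) (nat_lit 6) (nat_lit 7) (nat_lit 14) (nat_lit 9) r0_14 r0_9 (nat_lit 0) (nat_lit 0) (nat_lit 0) (nat_lit 0x7d7548f40) (nat_lit 578841012),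
  Rx.mk (nat_lit 487) (nat_lit 7) (nat_lit 4) (nat_lit 7) (nat_lit 5) (nat_lit 10) (nat_lit 0) r0_10 r0_0 (nat_lit 0) (nat_lit 80316) (nat_lit 0) (nat_lit 0x5509d2c2a) (nat_lit 1231694478),
  Rx.mk (nat_lit 500) (nat_lit 4) (nat_lit 6) (nat_lit 7) (nat_lit 6) (nat_lit 12) (nat_lit 5) r0_12 r0_5 (nat_lit 11895286) (nat_lit 0) (nat_lit 0) (nat_lit 0x6f9864d16) (nat_lit 814611698),
  Rx.mk (nat_lit 502) (nat_lit 6) (nat_lit 6) (nat_lit 7) (nat_lit 7) (nat_lit 15) (nat_lit 8) r0_15 r0_8 (nat_lit 0) (nat_lit 0) (nat_lit 0) (nat_lit 0x7d18c92ba) (nat_lit 584629662),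
  Rx.mk (nat_lit 503) (nat_lit 7) (nat_lit 6) (nat_lit 7) (nat_lit 7) (nat_lit 16) (nat_lit 6) r0_16 r0_6 (nat_lit 0) (nat_lit 0) (nat_lit 0) (nat_lit 0x7fe5259ba) (nat_lit 538574762),
  Rx.mk (nat_lit 511) (nat_lit 7) (nat_lit 7) (nat_lit 7) (nat_lit 7) (nat_lit 19) (nat_lit 1) r0_19 r0_1 (nat_lit 0) (nat_lit 0) (nat_lit 0) (nat_lit 0x74e6e15d4) (nat_lit 716955412)]
noncomputable def e7_8 : List Rx := [
  Rx.mk (nat_lit 308) (nat_lit 4) (nat_lit 6) (nat_lit 4) (nat_lit 2) (nat_lit 23) (nat_lit 2) r0_23 r1_2 (nat_lit 5604383) (nat_lit 0) (nat_lit 3151689) (nat_lit 0x6d7564e26) (nat_lit 845928484),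
  Rx.mk (nat_lit 310) (nat_lit 6) (nat_lit 6) (nat_lit 4) (nat_lit 3) (nat_lit 25) (nat_lit 5) r0_25 r1_5 (nat_lit 0) (nat_lit 0) (nat_lit 8756247) (nat_lit 0x7bbb71c80) (nat_lit 615374609),
  Rx.mk (nat_lit 402) (nat_lit 2) (nat_lit 2) (nat_lit 6) (nat_lit 7) (nat_lit 20) (nat_lit 9) r0_20 r1_9 (nat_lit 0) (nat_lit 0) (nat_lit 0) (nat_lit 0x802da032a) (nat_lit 535514012),
  Rx.mk (nat_lit 406) (nat_lit 6) (nat_lit 2) (nat_lit 6) (nat_lit 7) (nat_lit 21) (nat_lit 8) r0_21 r1_8 (nat_lit 0) (nat_lit 0) (nat_lit 0) (nat_lit 0x807414446) (nat_lit 531187112),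
  Rx.mk (nat_lit 438) (nat_lit 6) (nat_lit 6) (nat_lit 6) (nat_lit 7) (nat_lit 26) (nat_lit 7) r0_26 r1_7 (nat_lit 0) (nat_lit 0) (nat_lit 0) (nat_lit 0x801bfa5bc) (nat_lit 536589212),
  Rx.mk (nat_lit 487) (nat_lit 7) (nat_lit 4) (nat_lit 7) (nat_lit 5) (nat_lit 22) (nat_lit 0) r0_22 r1_0 (nat_lit 0) (nat_lit 23596477) (nat_lit 0) (nat_lit 0x69c6e3bc0) (nat_lit 920472039),
  Rx.mk (nat_lit 500) (nat_lit 4) (nat_lit 6) (nat_lit 7) (nat_lit 6) (nat_lit 24) (nat_lit 3) r0_24 r1_3 (nat_lit 22794505) (nat_lit 0) (nat_lit 0) (nat_lit 0x7f395dd58) (nat_lit 573339467),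
  Rx.mk (nat_lit 502) (nat_lit 6) (nat_lit 6) (nat_lit 7) (nat_lit 7) (nat_lit 27) (nat_lit 6) r0_27 r1_6 (nat_lit 0) (nat_lit 0) (nat_lit 0) (nat_lit 0x80362d196) (nat_lit 534989612),
  Rx.mk (nat_lit 503) (nat_lit 7) (nat_lit 6) (nat_lit 7) (nat_lit 7) (nat_lit 28) (nat_lit 4) r0_28 r1_4 (nat_lit 0) (nat_lit 0) (nat_lit 0) (nat_lit 0x87136526a) (nat_lit 429577662),
  Rx.mk (nat_lit 511) (nat_lit 7) (nat_lit 7) (nat_lit 7) (nat_lit 7) (nat_lit 29) (nat_lit 1) r0_29 r1_1 (nat_lit 0) (nat_lit 0) (nat_lit 0) (nat_lit 0x807eeb3e2) (nat_lit 530392612)]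
noncomputable def e7_9 : List Rx := [
  Rx.mk (nat_lit 24) (nat_lit 0) (nat_lit 3) (nat_lit 0) (nat_lit 2) (nat_lit 52) (nat_lit 8) r0_52 r4_8 (nat_lit 22112455) (nat_lit 0) (nat_lit 6694296) (nat_lit 0x63f406554) (nat_lit 1019765813),
  Rx.mk (nat_lit 27) (nat_lit 3) (nat_lit 3) (nat_lit 0) (nat_lit 3) (nat_lit 55) (nat_lit 10) r0_55 r4_10 (nat_lit 0) (nat_lit 0) (nat_lit 12464414) (nat_lit 0x7d1fc1338) (nat_lit 596680676),
  Rx.mk (nat_lit 59) (nat_lit 3) (nat_lit 7) (nat_lit 0) (nat_lit 3) (nat_lit 62) (nat_lit 3) r0_62 r4_3 (nat_lit 0) (nat_lit 0) (nat_lit 11579015) (nat_lit 0x7fd79e04e) (nat_lit 552249627),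
  Rx.mk (nat_lit 152) (nat_lit 0) (nat_lit 3) (nat_lit 2) (nat_lit 6) (nat_lit 53) (nat_lit 9) r0_53 r4_9 (nat_lit 74749020) (nat_lit 0) (nat_lit 0) (nat_lit 0x751698fde) (nat_lit 788742832),
  Rx.mk (nat_lit 154) (nat_lit 2) (nat_lit 3) (nat_lit 2) (nat_lit 7) (nat_lit 54) (nat_lit 12) r0_54 r4_12 (nat_lit 0) (nat_lit 0) (nat_lit 0) (nat_lit 0x76aa13858) (nat_lit 688374962),
  Rx.mk (nat_lit 155) (nat_lit 3) (nat_lit 3) (nat_lit 2) (nat_lit 7) (nat_lit 56) (nat_lit 11) r0_56 r4_11 (nat_lit 0) (nat_lit 0) (nat_lit 0) (nat_lit 0x8071443a6) (nat_lit 531356412),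
  Rx.mk (nat_lit 231) (nat_lit 7) (nat_lit 4) (nat_lit 3) (nat_lit 5) (nat_lit 57) (nat_lit 1) r0_57 r4_1 (nat_lit 0) (nat_lit 13925368) (nat_lit 0) (nat_lit 0x7d011df30) (nat_lit 600028230),
  Rx.mk (nat_lit 251) (nat_lit 3) (nat_lit 7) (nat_lit 3) (nat_lit 7) (nat_lit 63) (nat_lit 4) r0_63 r4_4 (nat_lit 0) (nat_lit 0) (nat_lit 0) (nat_lit 0x804ed3af6) (nat_lit 533452762),
  Rx.mk (nat_lit 255) (nat_lit 7) (nat_lit 7) (nat_lit 3) (nat_lit 7) (nat_lit 64) (nat_lit 2) r0_64 r4_2 (nat_lit 0) (nat_lit 0) (nat_lit 0) (nat_lit 0x80a6ddf44) (nat_lit 528084262),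
  Rx.mk (nat_lit 487) (nat_lit 7) (nat_lit 4) (nat_lit 7) (nat_lit 5) (nat_lit 58) (nat_lit 0) r0_58 r4_0 (nat_lit 0) (nat_lit 5660977) (nat_lit 0) (nat_lit 0x6025939b8) (nat_lit 1058125439),
  Rx.mk (nat_lit 500) (nat_lit 4) (nat_lit 6) (nat_lit 7) (nat_lit 6) (nat_lit 59) (nat_lit 5) r0_59 r4_5 (nat_lit 82674763) (nat_lit 0) (nat_lit 0) (nat_lit 0x7746f3588) (nat_lit 761260075),
  Rx.mk (nat_lit 502) (nat_lit 6) (nat_lit 6) (nat_lit 7) (nat_lit 7) (nat_lit 60) (nat_lit 7) r0_60 r4_7 (nat_lit 0) (nat_lit 0) (nat_lit 0) (nat_lit 0x7f7512f6a) (nat_lit 546825312),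
  Rx.mk (nat_lit 503) (nat_lit 7) (nat_lit 6) (nat_lit 7) (nat_lit 7) (nat_lit 61) (nat_lit 6) r0_61 r4_6 (nat_lit 0) (nat_lit 0) (nat_lit 0) (nat_lit 0x7f2c10cae) (nat_lit 551161962)]
noncomputable def e7_10 : List Rx := [
  Rx.mk (nat_lit 39) (nat_lit 7) (nat_lit 4) (nat_lit 0) (nat_lit 1) (nat_lit 82) (nat_lit 51) r0_82 r6_51 (nat_lit 0) (nat_lit 2752324) (nat_lit 1834824) (nat_lit 0x5acd8ab40) (nat_lit 1143327010),
  Rx.mk (nat_lit 59) (nat_lit 3) (nat_lit 7) (nat_lit 0) (nat_lit 3) (nat_lit 85) (nat_lit 49) r0_85 r6_49 (nat_lit 0) (nat_lit 0) (nat_lit 4982960) (nat_lit 0x7f97fd5b6) (nat_lit 549398922),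
  Rx.mk (nat_lit 63) (nat_lit 7) (nat_lit 7) (nat_lit 0) (nat_lit 3) (nat_lit 87) (nat_lit 54) r0_87 r6_54 (nat_lit 0) (nat_lit 0) (nat_lit 18629772) (nat_lit 0x7b316cfbc) (nat_lit 634046784),
  Rx.mk (nat_lit 103) (nat_lit 7) (nat_lit 4) (nat_lit 1) (nat_lit 5) (nat_lit 83) (nat_lit 52) r0_83 r6_52 (nat_lit 0) (nat_lit 13075147) (nat_lit 0) (nat_lit 0x78e3d9b80) (nat_lit 665603759),
  Rx.mk (nat_lit 123) (nat_lit 3) (nat_lit 7) (nat_lit 1) (nat_lit 7) (nat_lit 86) (nat_lit 50) r0_86 r6_50 (nat_lit 0) (nat_lit 0) (nat_lit 0) (nat_lit 0x8ecace6ac) (nat_lit 311796962),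
  Rx.mk (nat_lit 127) (nat_lit 7) (nat_lit 7) (nat_lit 1) (nat_lit 7) (nat_lit 88) (nat_lit 55) r0_88 r6_55 (nat_lit 0) (nat_lit 0) (nat_lit 0) (nat_lit 0x8116bf43e) (nat_lit 521295912),
  Rx.mk (nat_lit 231) (nat_lit 7) (nat_lit 4) (nat_lit 3) (nat_lit 5) (nat_lit 84) (nat_lit 53) r0_84 r6_53 (nat_lit 0) (nat_lit 9488112) (nat_lit 0) (nat_lit 0x7869953b0) (nat_lit 669747474)]
noncomputable def e7_11 : List Rx := [
  Rx.mk (nat_lit 27) (nat_lit 3) (nat_lit 3) (nat_lit 0) (nat_lit 3) (nat_lit 65) (nat_lit 4) r0_65 r5_4 (nat_lit 0) (nat_lit 0) (nat_lit 5300773) (nat_lit 0x744841172) (nat_lit 732209835),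
  Rx.mk (nat_lit 59) (nat_lit 3) (nat_lit 7) (nat_lit 0) (nat_lit 3) (nat_lit 68) (nat_lit 3) r0_68 r5_3 (nat_lit 0) (nat_lit 0) (nat_lit 2967474) (nat_lit 0x6ee61820c) (nat_lit 816847386),
  Rx.mk (nat_lit 63) (nat_lit 7) (nat_lit 7) (nat_lit 0) (nat_lit 3) (nat_lit 69) (nat_lit 1) r0_69 r5_1 (nat_lit 0) (nat_lit 0) (nat_lit 3947515) (nat_lit 0x65de79e82) (nat_lit 963893527),
  Rx.mk (nat_lit 155) (nat_lit 3) (nat_lit 3) (nat_lit 2) (nat_lit 7) (nat_lit 66) (nat_lit 5) r0_66 r5_5 (nat_lit 0) (nat_lit 0) (nat_lit 0) (nat_lit 0x7e757e964) (nat_lit 562790112),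
  Rx.mk (nat_lit 231) (nat_lit 7) (nat_lit 4) (nat_lit 3) (nat_lit 5) (nat_lit 67) (nat_lit 0) r0_67 r5_0 (nat_lit 0) (nat_lit 3027604) (nat_lit 0) (nat_lit 0x6b9390500) (nat_lit 870600266),
  Rx.mk (nat_lit 255) (nat_lit 7) (nat_lit 7) (nat_lit 3) (nat_lit 7) (nat_lit 70) (nat_lit 2) r0_70 r5_2 (nat_lit 0) (nat_lit 0) (nat_lit 0) (nat_lit 0x7d9d38000) (nat_lit 576358762)]
noncomputable def e7_12 : List Rx := [
  Rx.mk (nat_lit 100) (nat_lit 4) (nat_lit 4) (nat_lit 1) (nat_lit 4) (nat_lit 171) (nat_lit 248) r0_171 r0_248 (nat_lit 19628) (nat_lit 1057520207) (nat_lit 0) (nat_lit 0x8001a79da) (nat_lit 1594326447),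
  Rx.mk (nat_lit 101) (nat_lit 5) (nat_lit 4) (nat_lit 1) (nat_lit 5) (nat_lit 172) (nat_lit 249) r0_172 r0_249 (nat_lit 0) (nat_lit 495476102) (nat_lit 0) (nat_lit 0x7bfc24796) (nat_lit 1097908564)]
noncomputable def e7_13 : List Rx := [
  Rx.mk (nat_lit 100) (nat_lit 4) (nat_lit 4) (nat_lit 1) (nat_lit 4) (nat_lit 177) (nat_lit 56) r0_177 r7_56 (nat_lit 3400781) (nat_lit 7378942) (nat_lit 0) (nat_lit 0x545558bfa) (nat_lit 1254182035),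
  Rx.mk (nat_lit 101) (nat_lit 5) (nat_lit 4) (nat_lit 1) (nat_lit 5) (nat_lit 179) (nat_lit 59) r0_179 r7_59 (nat_lit 0) (nat_lit 10961872) (nat_lit 0) (nat_lit 0x71abf8114) (nat_lit 780182384),
  Rx.mk (nat_lit 356) (nat_lit 4) (nat_lit 4) (nat_lit 5) (nat_lit 4) (nat_lit 178) (nat_lit 57) r0_178 r7_57 (nat_lit 5394699) (nat_lit 10270932) (nat_lit 0) (nat_lit 0x5fa366a58) (nat_lit 1076368243),
  Rx.mk (nat_lit 357) (nat_lit 5) (nat_lit 4) (nat_lit 5) (nat_lit 5) (nat_lit 180) (nat_lit 60) r0_180 r7_60 (nat_lit 0) (nat_lit 23289893) (nat_lit 0) (nat_lit 0x7d8545704) (nat_lit 601157455),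
  Rx.mk (nat_lit 359) (nat_lit 7) (nat_lit 4) (nat_lit 5) (nat_lit 5) (nat_lit 181) (nat_lit 62) r0_181 r7_62 (nat_lit 0) (nat_lit 39572657) (nat_lit 0) (nat_lit 0x7fce955ba) (nat_lit 580469619),
  Rx.mk (nat_lit 372) (nat_lit 4) (nat_lit 6) (nat_lit 5) (nat_lit 6) (nat_lit 182) (nat_lit 58) r0_182 r7_58 (nat_lit 7741900) (nat_lit 0) (nat_lit 0) (nat_lit 0x80bec9efa) (nat_lit 534261362),
  Rx.mk (nat_lit 373) (nat_lit 5) (nat_lit 6) (nat_lit 5) (nat_lit 7) (nat_lit 183) (nat_lit 61) r0_183 r7_61 (nat_lit 0) (nat_lit 0) (nat_lit 0) (nat_lit 0x80877ffc6) (nat_lit 529984012),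
  Rx.mk (nat_lit 375) (nat_lit 7) (nat_lit 6) (nat_lit 5) (nat_lit 7) (nat_lit 184) (nat_lit 63) r0_184 r7_63 (nat_lit 0) (nat_lit 0) (nat_lit 0) (nat_lit 0x80b89b4d4) (nat_lit 527012662)]
noncomputable def e7_14 : List Rx := [
  Rx.mk (nat_lit 101) (nat_lit 5) (nat_lit 4) (nat_lit 1) (nat_lit 5) (nat_lit 173) (nat_lit 255) r0_173 r1_255 (nat_lit 0) (nat_lit 106862022) (nat_lit 0) (nat_lit 0x7ee0fa15c) (nat_lit 662779834)]
noncomputable def e7_15 : List Rx := [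
  Rx.mk (nat_lit 101) (nat_lit 5) (nat_lit 4) (nat_lit 1) (nat_lit 5) (nat_lit 185) (nat_lit 63) r0_185 r8_63 (nat_lit 0) (nat_lit 17259595) (nat_lit 0) (nat_lit 0x7bf63ab82) (nat_lit 620224207),
  Rx.mk (nat_lit 357) (nat_lit 5) (nat_lit 4) (nat_lit 5) (nat_lit 5) (nat_lit 186) (nat_lit 64) r0_186 r8_64 (nat_lit 0) (nat_lit 26500941) (nat_lit 0) (nat_lit 0x7c9c5d064) (nat_lit 619045003),
  Rx.mk (nat_lit 373) (nat_lit 5) (nat_lit 6) (nat_lit 5) (nat_lit 7) (nat_lit 187) (nat_lit 65) r0_187 r8_65 (nat_lit 0) (nat_lit 0) (nat_lit 0) (nat_lit 0x802f4e852) (nat_lit 535398012)]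
noncomputable def e7_16 : List Rx := [
  Rx.mk (nat_lit 356) (nat_lit 4) (nat_lit 4) (nat_lit 5) (nat_lit 4) (nat_lit 188) (nat_lit 241) r0_188 r8_241 (nat_lit 19008238) (nat_lit 24251954) (nat_lit 0) (nat_lit 0x59ee2d664) (nat_lit 1196415754),
  Rx.mk (nat_lit 357) (nat_lit 5) (nat_lit 4) (nat_lit 5) (nat_lit 5) (nat_lit 189) (nat_lit 242) r0_189 r8_242 (nat_lit 0) (nat_lit 26165794) (nat_lit 0) (nat_lit 0x7b3e3e45c) (nat_lit 640781706),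
  Rx.mk (nat_lit 359) (nat_lit 7) (nat_lit 4) (nat_lit 5) (nat_lit 5) (nat_lit 190) (nat_lit 243) r0_190 r8_243 (nat_lit 0) (nat_lit 32293832) (nat_lit 0) (nat_lit 0x808393b6a) (nat_lit 562478594),
  Rx.mk (nat_lit 372) (nat_lit 4) (nat_lit 6) (nat_lit 5) (nat_lit 6) (nat_lit 191) (nat_lit 244) r0_191 r8_244 (nat_lit 20123998) (nat_lit 0) (nat_lit 0) (nat_lit 0x7c1a22dec) (nat_lit 620862110),
  Rx.mk (nat_lit 373) (nat_lit 5) (nat_lit 6) (nat_lit 5) (nat_lit 7) (nat_lit 192) (nat_lit 245) r0_192 r8_245 (nat_lit 0) (nat_lit 0) (nat_lit 0) (nat_lit 0x8005f486c) (nat_lit 537949312),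
  Rx.mk (nat_lit 374) (nat_lit 6) (nat_lit 6) (nat_lit 5) (nat_lit 7) (nat_lit 193) (nat_lit 247) r0_193 r8_247 (nat_lit 0) (nat_lit 0) (nat_lit 0) (nat_lit 0x8017985b4) (nat_lit 536870912),
  Rx.mk (nat_lit 375) (nat_lit 7) (nat_lit 6) (nat_lit 5) (nat_lit 7) (nat_lit 194) (nat_lit 246) r0_194 r8_246 (nat_lit 0) (nat_lit 0) (nat_lit 0) (nat_lit 0x8017985b4) (nat_lit 536870912)]
noncomputable def e7_17 : List Rx := [
  Rx.mk (nat_lit 292) (nat_lit 4) (nat_lit 4) (nat_lit 4) (nat_lit 0) (nat_lit 155) (nat_lit 23) r0_155 r9_23 (nat_lit 17383342) (nat_lit 20103060) (nat_lit 11766479) (nat_lit 0x26bb582ee) (nat_lit 2030296093),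
  Rx.mk (nat_lit 295) (nat_lit 7) (nat_lit 4) (nat_lit 4) (nat_lit 1) (nat_lit 158) (nat_lit 29) r0_158 r9_29 (nat_lit 0) (nat_lit 96643738) (nat_lit 19805728) (nat_lit 0x57dc9e896) (nat_lit 1303076978),
  Rx.mk (nat_lit 308) (nat_lit 4) (nat_lit 6) (nat_lit 4) (nat_lit 2) (nat_lit 161) (nat_lit 25) r0_161 r9_25 (nat_lit 15232789) (nat_lit 0) (nat_lit 15320849) (nat_lit 0x58679699e) (nat_lit 1208372050),
  Rx.mk (nat_lit 310) (nat_lit 6) (nat_lit 6) (nat_lit 4) (nat_lit 3) (nat_lit 164) (nat_lit 37) r0_164 r9_37 (nat_lit 0) (nat_lit 0) (nat_lit 24266921) (nat_lit 0x771d50316) (nat_lit 705582633),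
  Rx.mk (nat_lit 311) (nat_lit 7) (nat_lit 6) (nat_lit 4) (nat_lit 3) (nat_lit 167) (nat_lit 33) r0_167 r9_33 (nat_lit 0) (nat_lit 0) (nat_lit 23123952) (nat_lit 0x800002f3a) (nat_lit 561432214),
  Rx.mk (nat_lit 356) (nat_lit 4) (nat_lit 4) (nat_lit 5) (nat_lit 4) (nat_lit 156) (nat_lit 24) r0_156 r9_24 (nat_lit 21246965) (nat_lit 21454755) (nat_lit 0) (nat_lit 0x536054f6e) (nat_lit 1301860482),
  Rx.mk (nat_lit 357) (nat_lit 5) (nat_lit 4) (nat_lit 5) (nat_lit 5) (nat_lit 157) (nat_lit 27) r0_157 r9_27 (nat_lit 0) (nat_lit 27681734) (nat_lit 0) (nat_lit 0x7735d76f0) (nat_lit 707450746),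
  Rx.mk (nat_lit 359) (nat_lit 7) (nat_lit 4) (nat_lit 5) (nat_lit 5) (nat_lit 159) (nat_lit 30) r0_159 r9_30 (nat_lit 0) (nat_lit 39103353) (nat_lit 0) (nat_lit 0x7f0bc5f80) (nat_lit 592509415),
  Rx.mk (nat_lit 372) (nat_lit 4) (nat_lit 6) (nat_lit 5) (nat_lit 6) (nat_lit 162) (nat_lit 26) r0_162 r9_26 (nat_lit 24075478) (nat_lit 0) (nat_lit 0) (nat_lit 0x769019b32) (nat_lit 714298390),
  Rx.mk (nat_lit 373) (nat_lit 5) (nat_lit 6) (nat_lit 5) (nat_lit 7) (nat_lit 163) (nat_lit 28) r0_163 r9_28 (nat_lit 0) (nat_lit 0) (nat_lit 0) (nat_lit 0x7feb1ffb4) (nat_lit 539592162),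
  Rx.mk (nat_lit 374) (nat_lit 6) (nat_lit 6) (nat_lit 5) (nat_lit 7) (nat_lit 165) (nat_lit 38) r0_165 r9_38 (nat_lit 0) (nat_lit 0) (nat_lit 0) (nat_lit 0x7fee77a72) (nat_lit 539388362),
  Rx.mk (nat_lit 375) (nat_lit 7) (nat_lit 6) (nat_lit 5) (nat_lit 7) (nat_lit 168) (nat_lit 34) r0_168 r9_34 (nat_lit 0) (nat_lit 0) (nat_lit 0) (nat_lit 0x8017985b4) (nat_lit 536870912),
  Rx.mk (nat_lit 406) (nat_lit 6) (nat_lit 2) (nat_lit 6) (nat_lit 7) (nat_lit 154) (nat_lit 36) r0_154 r9_36 (nat_lit 0) (nat_lit 0) (nat_lit 0) (nat_lit 0x8017985b4) (nat_lit 536870912),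
  Rx.mk (nat_lit 438) (nat_lit 6) (nat_lit 6) (nat_lit 6) (nat_lit 7) (nat_lit 166) (nat_lit 39) r0_166 r9_39 (nat_lit 0) (nat_lit 0) (nat_lit 0) (nat_lit 0x8002decd6) (nat_lit 538139162),
  Rx.mk (nat_lit 487) (nat_lit 7) (nat_lit 4) (nat_lit 7) (nat_lit 5) (nat_lit 160) (nat_lit 31) r0_160 r9_31 (nat_lit 0) (nat_lit 140602240) (nat_lit 0) (nat_lit 0x7cdd650c0) (nat_lit 729034802),
  Rx.mk (nat_lit 503) (nat_lit 7) (nat_lit 6) (nat_lit 7) (nat_lit 7) (nat_lit 169) (nat_lit 35) r0_169 r9_35 (nat_lit 0) (nat_lit 0) (nat_lit 0) (nat_lit 0x8017985b4) (nat_lit 536870912),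
  Rx.mk (nat_lit 511) (nat_lit 7) (nat_lit 7) (nat_lit 7) (nat_lit 7) (nat_lit 170) (nat_lit 32) r0_170 r9_32 (nat_lit 0) (nat_lit 0) (nat_lit 0) (nat_lit 0x7fec37154) (nat_lit 539516912)]
noncomputable def e7_18 : List Rx := [
  Rx.mk (nat_lit 100) (nat_lit 4) (nat_lit 4) (nat_lit 1) (nat_lit 4) (nat_lit 174) (nat_lit 262) r0_174 r4_262 (nat_lit 1751344) (nat_lit 200714257) (nat_lit 0) (nat_lit 0x5c0ff7e00) (nat_lit 1320763563),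
  Rx.mk (nat_lit 101) (nat_lit 5) (nat_lit 4) (nat_lit 1) (nat_lit 5) (nat_lit 175) (nat_lit 263) r0_175 r4_263 (nat_lit 0) (nat_lit 51975942) (nat_lit 0) (nat_lit 0x79cafc27e) (nat_lit 689883204),
  Rx.mk (nat_lit 103) (nat_lit 7) (nat_lit 4) (nat_lit 1) (nat_lit 5) (nat_lit 176) (nat_lit 264) r0_176 r4_264 (nat_lit 0) (nat_lit 441859640) (nat_lit 0) (nat_lit 0x75873a166) (nat_lit 1148413852)]
noncomputable def e7_19 : List Rx := [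
  Rx.mk (nat_lit 100) (nat_lit 4) (nat_lit 4) (nat_lit 1) (nat_lit 4) (nat_lit 195) (nat_lit 44) r0_195 r10_44 (nat_lit 2412373) (nat_lit 4364993) (nat_lit 0) (nat_lit 0x599f905a6) (nat_lit 1164616828),
  Rx.mk (nat_lit 101) (nat_lit 5) (nat_lit 4) (nat_lit 1) (nat_lit 5) (nat_lit 196) (nat_lit 45) r0_196 r10_45 (nat_lit 0) (nat_lit 12102424) (nat_lit 0) (nat_lit 0x79db10b88) (nat_lit 649035436),
  Rx.mk (nat_lit 103) (nat_lit 7) (nat_lit 4) (nat_lit 1) (nat_lit 5) (nat_lit 197) (nat_lit 46) r0_197 r10_46 (nat_lit 0) (nat_lit 70189493) (nat_lit 0) (nat_lit 0x7d33fb286) (nat_lit 652998905),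
  Rx.mk (nat_lit 359) (nat_lit 7) (nat_lit 4) (nat_lit 5) (nat_lit 5) (nat_lit 198) (nat_lit 47) r0_198 r10_47 (nat_lit 0) (nat_lit 45895857) (nat_lit 0) (nat_lit 0x7fb6ad812) (nat_lit 588199269),
  Rx.mk (nat_lit 375) (nat_lit 7) (nat_lit 6) (nat_lit 5) (nat_lit 7) (nat_lit 199) (nat_lit 48) r0_199 r10_48 (nat_lit 0) (nat_lit 0) (nat_lit 0) (nat_lit 0x809c1612e) (nat_lit 528750462)]
noncomputable def e7_20 : List Rx := [
  Rx.mk (nat_lit 100) (nat_lit 4) (nat_lit 4) (nat_lit 1) (nat_lit 4) (nat_lit 200) (nat_lit 37) r0_200 r11_37 (nat_lit 75082556) (nat_lit 46723193) (nat_lit 0) (nat_lit 0x67eb4628a) (nat_lit 1048737861),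
  Rx.mk (nat_lit 101) (nat_lit 5) (nat_lit 4) (nat_lit 1) (nat_lit 5) (nat_lit 201) (nat_lit 38) r0_201 r11_38 (nat_lit 0) (nat_lit 24741287) (nat_lit 0) (nat_lit 0x80790da56) (nat_lit 555628299),
  Rx.mk (nat_lit 103) (nat_lit 7) (nat_lit 4) (nat_lit 1) (nat_lit 5) (nat_lit 202) (nat_lit 39) r0_202 r11_39 (nat_lit 0) (nat_lit 41103109) (nat_lit 0) (nat_lit 0x7fd7cf8c4) (nat_lit 581741021),
  Rx.mk (nat_lit 127) (nat_lit 7) (nat_lit 7) (nat_lit 1) (nat_lit 7) (nat_lit 203) (nat_lit 40) r0_203 r11_40 (nat_lit 0) (nat_lit 0) (nat_lit 0) (nat_lit 0x820bd8c36) (nat_lit 506517062)]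
noncomputable def e7_21 : List Rx := [
  Rx.mk (nat_lit 406) (nat_lit 6) (nat_lit 2) (nat_lit 6) (nat_lit 7) (nat_lit 141) (nat_lit 0) r0_141 r9_0 (nat_lit 0) (nat_lit 0) (nat_lit 0) (nat_lit 0x7fe34c40e) (nat_lit 540076362)]
noncomputable def e7_22 : List Rx := [
  Rx.mk (nat_lit 24) (nat_lit 0) (nat_lit 3) (nat_lit 0) (nat_lit 2) (nat_lit 94) (nat_lit 91) r0_94 r0_91 (nat_lit 319672734) (nat_lit 0) (nat_lit 13764543) (nat_lit 0x6b0dbb5b0) (nat_lit 1209624489),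
  Rx.mk (nat_lit 27) (nat_lit 3) (nat_lit 3) (nat_lit 0) (nat_lit 3) (nat_lit 97) (nat_lit 92) r0_97 r0_92 (nat_lit 0) (nat_lit 0) (nat_lit 32418381) (nat_lit 0x72161d882) (nat_lit 795028793),
  Rx.mk (nat_lit 128) (nat_lit 0) (nat_lit 0) (nat_lit 2) (nat_lit 4) (nat_lit 91) (nat_lit 94) r0_91 r0_94 (nat_lit 319672734) (nat_lit 13764543) (nat_lit 0) (nat_lit 0x6b0dbb5b0) (nat_lit 1209624489),
  Rx.mk (nat_lit 130) (nat_lit 2) (nat_lit 0) (nat_lit 2) (nat_lit 5) (nat_lit 92) (nat_lit 97) r0_92 r0_97 (nat_lit 0) (nat_lit 32418381) (nat_lit 0) (nat_lit 0x72161d882) (nat_lit 795028793),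
  Rx.mk (nat_lit 146) (nat_lit 2) (nat_lit 2) (nat_lit 2) (nat_lit 7) (nat_lit 93) (nat_lit 99) r0_93 r0_99 (nat_lit 0) (nat_lit 0) (nat_lit 0) (nat_lit 0x7fe1fc96e) (nat_lit 540154912),
  Rx.mk (nat_lit 152) (nat_lit 0) (nat_lit 3) (nat_lit 2) (nat_lit 6) (nat_lit 95) (nat_lit 95) r0_95 r0_95 (nat_lit 160205457) (nat_lit 0) (nat_lit 0) (nat_lit 0x7ec91cf3a) (nat_lit 717699119),
  Rx.mk (nat_lit 154) (nat_lit 2) (nat_lit 3) (nat_lit 2) (nat_lit 7) (nat_lit 96) (nat_lit 98) r0_96 r0_98 (nat_lit 0) (nat_lit 0) (nat_lit 0) (nat_lit 0x7f9c9f8d0) (nat_lit 544444712),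
  Rx.mk (nat_lit 155) (nat_lit 3) (nat_lit 3) (nat_lit 2) (nat_lit 7) (nat_lit 98) (nat_lit 96) r0_98 r0_96 (nat_lit 0) (nat_lit 0) (nat_lit 0) (nat_lit 0x7f9c9f8d0) (nat_lit 544444712),
  Rx.mk (nat_lit 219) (nat_lit 3) (nat_lit 3) (nat_lit 3) (nat_lit 7) (nat_lit 99) (nat_lit 93) r0_99 r0_93 (nat_lit 0) (nat_lit 0) (nat_lit 0) (nat_lit 0x7fe1fc96e) (nat_lit 540154912)]
noncomputable def e7_23 : List Rx := [
  Rx.mk (nat_lit 0) (nat_lit 0) (nat_lit 0) (nat_lit 0) (nat_lit 0) (nat_lit 111) (nat_lit 94) r0_111 r1_94 (nat_lit 704331784) (nat_lit 15478) (nat_lit 15924) (nat_lit 0x7ffceaa5a) (nat_lit 1241434748),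
  Rx.mk (nat_lit 8) (nat_lit 0) (nat_lit 1) (nat_lit 0) (nat_lit 2) (nat_lit 114) (nat_lit 95) r0_114 r1_95 (nat_lit 301314432) (nat_lit 0) (nat_lit 17923102) (nat_lit 0x7b08f77e4) (nat_lit 937110096),
  Rx.mk (nat_lit 24) (nat_lit 0) (nat_lit 3) (nat_lit 0) (nat_lit 2) (nat_lit 118) (nat_lit 96) r0_118 r1_96 (nat_lit 236637976) (nat_lit 0) (nat_lit 49509170) (nat_lit 0x7c1ee06fe) (nat_lit 886572308),
  Rx.mk (nat_lit 27) (nat_lit 3) (nat_lit 3) (nat_lit 0) (nat_lit 3) (nat_lit 121) (nat_lit 97) r0_121 r1_97 (nat_lit 0) (nat_lit 0) (nat_lit 26465750) (nat_lit 0x7f8d66de6) (nat_lit 571814812),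
  Rx.mk (nat_lit 128) (nat_lit 0) (nat_lit 0) (nat_lit 2) (nat_lit 4) (nat_lit 112) (nat_lit 99) r0_112 r1_99 (nat_lit 330891680) (nat_lit 15900944) (nat_lit 0) (nat_lit 0x77bef9212) (nat_lit 1017846086),
  Rx.mk (nat_lit 130) (nat_lit 2) (nat_lit 0) (nat_lit 2) (nat_lit 5) (nat_lit 113) (nat_lit 103) r0_113 r1_103 (nat_lit 0) (nat_lit 24548730) (nat_lit 0) (nat_lit 0x78780d94c) (nat_lit 683979642),
  Rx.mk (nat_lit 136) (nat_lit 0) (nat_lit 1) (nat_lit 2) (nat_lit 6) (nat_lit 115) (nat_lit 100) r0_115 r1_100 (nat_lit 40000838) (nat_lit 0) (nat_lit 0) (nat_lit 0x7f4fca046) (nat_lit 589164150),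
  Rx.mk (nat_lit 138) (nat_lit 2) (nat_lit 1) (nat_lit 2) (nat_lit 7) (nat_lit 116) (nat_lit 104) r0_116 r1_104 (nat_lit 0) (nat_lit 0) (nat_lit 0) (nat_lit 0x8008586c6) (nat_lit 537803512),
  Rx.mk (nat_lit 146) (nat_lit 2) (nat_lit 2) (nat_lit 2) (nat_lit 7) (nat_lit 117) (nat_lit 106) r0_117 r1_106 (nat_lit 0) (nat_lit 0) (nat_lit 0) (nat_lit 0x8008e1958) (nat_lit 537770662),
  Rx.mk (nat_lit 152) (nat_lit 0) (nat_lit 3) (nat_lit 2) (nat_lit 6) (nat_lit 119) (nat_lit 101) r0_119 r1_101 (nat_lit 43159532) (nat_lit 0) (nat_lit 0) (nat_lit 0x7fa01c38c) (nat_lit 587329944),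
  Rx.mk (nat_lit 154) (nat_lit 2) (nat_lit 3) (nat_lit 2) (nat_lit 7) (nat_lit 120) (nat_lit 105) r0_120 r1_105 (nat_lit 0) (nat_lit 0) (nat_lit 0) (nat_lit 0x8017985b4) (nat_lit 536870912),
  Rx.mk (nat_lit 155) (nat_lit 3) (nat_lit 3) (nat_lit 2) (nat_lit 7) (nat_lit 122) (nat_lit 102) r0_122 r1_102 (nat_lit 0) (nat_lit 0) (nat_lit 0) (nat_lit 0x8017985b4) (nat_lit 536870912),
  Rx.mk (nat_lit 219) (nat_lit 3) (nat_lit 3) (nat_lit 3) (nat_lit 7) (nat_lit 123) (nat_lit 98) r0_123 r1_98 (nat_lit 0) (nat_lit 0) (nat_lit 0) (nat_lit 0x8017985b4) (nat_lit 536870912)]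
noncomputable def e7_24 : List Rx := [
  Rx.mk (nat_lit 24) (nat_lit 0) (nat_lit 3) (nat_lit 0) (nat_lit 2) (nat_lit 142) (nat_lit 93) r0_142 r4_93 (nat_lit 206617785) (nat_lit 0) (nat_lit 1138602) (nat_lit 0x685ba0238) (nat_lit 1127160549),
  Rx.mk (nat_lit 27) (nat_lit 3) (nat_lit 3) (nat_lit 0) (nat_lit 3) (nat_lit 145) (nat_lit 94) r0_145 r4_94 (nat_lit 0) (nat_lit 0) (nat_lit 15006223) (nat_lit 0x7cc837842) (nat_lit 604752435),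
  Rx.mk (nat_lit 152) (nat_lit 0) (nat_lit 3) (nat_lit 2) (nat_lit 6) (nat_lit 143) (nat_lit 95) r0_143 r4_95 (nat_lit 128366738) (nat_lit 0) (nat_lit 0) (nat_lit 0x7fb918d0e) (nat_lit 670781900),
  Rx.mk (nat_lit 154) (nat_lit 2) (nat_lit 3) (nat_lit 2) (nat_lit 7) (nat_lit 144) (nat_lit 97) r0_144 r4_97 (nat_lit 0) (nat_lit 0) (nat_lit 0) (nat_lit 0x7fd67623e) (nat_lit 540864312),
  Rx.mk (nat_lit 155) (nat_lit 3) (nat_lit 3) (nat_lit 2) (nat_lit 7) (nat_lit 146) (nat_lit 96) r0_146 r4_96 (nat_lit 0) (nat_lit 0) (nat_lit 0) (nat_lit 0x801c7c06c) (nat_lit 536515262)]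
noncomputable def e7_25 : List Rx := [
  Rx.mk (nat_lit 24) (nat_lit 0) (nat_lit 3) (nat_lit 0) (nat_lit 2) (nat_lit 105) (nat_lit 2) r0_105 r7_2 (nat_lit 9373510) (nat_lit 0) (nat_lit 4536926) (nat_lit 0x680227486) (nat_lit 939230248),
  Rx.mk (nat_lit 27) (nat_lit 3) (nat_lit 3) (nat_lit 0) (nat_lit 3) (nat_lit 108) (nat_lit 4) r0_108 r7_4 (nat_lit 0) (nat_lit 0) (nat_lit 24727622) (nat_lit 0x7be4cbc66) (nat_lit 628839434),
  Rx.mk (nat_lit 128) (nat_lit 0) (nat_lit 0) (nat_lit 2) (nat_lit 4) (nat_lit 100) (nat_lit 0) r0_100 r7_0 (nat_lit 46745449) (nat_lit 31904360) (nat_lit 0) (nat_lit 0x5c2702b54) (nat_lit 1195869321),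
  Rx.mk (nat_lit 130) (nat_lit 2) (nat_lit 0) (nat_lit 2) (nat_lit 5) (nat_lit 101) (nat_lit 1) r0_101 r7_1 (nat_lit 0) (nat_lit 15260325) (nat_lit 0) (nat_lit 0x6e0d6284a) (nat_lit 843049387),
  Rx.mk (nat_lit 146) (nat_lit 2) (nat_lit 2) (nat_lit 2) (nat_lit 7) (nat_lit 102) (nat_lit 10) r0_102 r7_10 (nat_lit 0) (nat_lit 0) (nat_lit 0) (nat_lit 0x7dc623460) (nat_lit 573811562),
  Rx.mk (nat_lit 152) (nat_lit 0) (nat_lit 3) (nat_lit 2) (nat_lit 6) (nat_lit 106) (nat_lit 3) r0_106 r7_3 (nat_lit 73862049) (nat_lit 0) (nat_lit 0) (nat_lit 0x7d468cf26) (nat_lit 655662261),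
  Rx.mk (nat_lit 154) (nat_lit 2) (nat_lit 3) (nat_lit 2) (nat_lit 7) (nat_lit 107) (nat_lit 7) r0_107 r7_7 (nat_lit 0) (nat_lit 0) (nat_lit 0) (nat_lit 0x7fdfab7e6) (nat_lit 540283862),
  Rx.mk (nat_lit 155) (nat_lit 3) (nat_lit 3) (nat_lit 2) (nat_lit 7) (nat_lit 109) (nat_lit 6) r0_109 r7_6 (nat_lit 0) (nat_lit 0) (nat_lit 0) (nat_lit 0x7ff31a048) (nat_lit 539113112),
  Rx.mk (nat_lit 219) (nat_lit 3) (nat_lit 3) (nat_lit 3) (nat_lit 7) (nat_lit 110) (nat_lit 5) r0_110 r7_5 (nat_lit 0) (nat_lit 0) (nat_lit 0) (nat_lit 0x8017985b4) (nat_lit 536870912),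
  Rx.mk (nat_lit 402) (nat_lit 2) (nat_lit 2) (nat_lit 6) (nat_lit 7) (nat_lit 103) (nat_lit 9) r0_103 r7_9 (nat_lit 0) (nat_lit 0) (nat_lit 0) (nat_lit 0x8017985b4) (nat_lit 536870912),
  Rx.mk (nat_lit 406) (nat_lit 6) (nat_lit 2) (nat_lit 6) (nat_lit 7) (nat_lit 104) (nat_lit 8) r0_104 r7_8 (nat_lit 0) (nat_lit 0) (nat_lit 0) (nat_lit 0x7ffe471c8) (nat_lit 538421712)]
noncomputable def e7_26 : List Rx := [
  Rx.mk (nat_lit 0) (nat_lit 0) (nat_lit 0) (nat_lit 0) (nat_lit 0) (nat_lit 124) (nat_lit 0) r0_124 r8_0 (nat_lit 37018604) (nat_lit 7939868) (nat_lit 11031913) (nat_lit 0x2f3402ffc) (nat_lit 1899960047),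
  Rx.mk (nat_lit 8) (nat_lit 0) (nat_lit 1) (nat_lit 0) (nat_lit 2) (nat_lit 127) (nat_lit 3) r0_127 r8_3 (nat_lit 82416712) (nat_lit 0) (nat_lit 32206150) (nat_lit 0x66c0ffdc4) (nat_lit 1060452374),
  Rx.mk (nat_lit 24) (nat_lit 0) (nat_lit 3) (nat_lit 0) (nat_lit 2) (nat_lit 133) (nat_lit 6) r0_133 r8_6 (nat_lit 54286075) (nat_lit 0) (nat_lit 35479035) (nat_lit 0x62e45b6c8) (nat_lit 1098022322),
  Rx.mk (nat_lit 27) (nat_lit 3) (nat_lit 3) (nat_lit 0) (nat_lit 3) (nat_lit 136) (nat_lit 8) r0_136 r8_8 (nat_lit 0) (nat_lit 0) (nat_lit 31117367) (nat_lit 0x7e047cca2) (nat_lit 600994729),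
  Rx.mk (nat_lit 128) (nat_lit 0) (nat_lit 0) (nat_lit 2) (nat_lit 4) (nat_lit 125) (nat_lit 1) r0_125 r8_1 (nat_lit 43759254) (nat_lit 26421063) (nat_lit 0) (nat_lit 0x5ccc534e6) (nat_lit 1176984379),
  Rx.mk (nat_lit 130) (nat_lit 2) (nat_lit 0) (nat_lit 2) (nat_lit 5) (nat_lit 126) (nat_lit 2) r0_126 r8_2 (nat_lit 0) (nat_lit 19040660) (nat_lit 0) (nat_lit 0x6f984888c) (nat_lit 821904322),
  Rx.mk (nat_lit 136) (nat_lit 0) (nat_lit 1) (nat_lit 2) (nat_lit 6) (nat_lit 128) (nat_lit 4) r0_128 r8_4 (nat_lit 28052384) (nat_lit 0) (nat_lit 0) (nat_lit 0x7ecc55e04) (nat_lit 585422396),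
  Rx.mk (nat_lit 138) (nat_lit 2) (nat_lit 1) (nat_lit 2) (nat_lit 7) (nat_lit 129) (nat_lit 5) r0_129 r8_5 (nat_lit 0) (nat_lit 0) (nat_lit 0) (nat_lit 0x7feae9d88) (nat_lit 539601062),
  Rx.mk (nat_lit 146) (nat_lit 2) (nat_lit 2) (nat_lit 2) (nat_lit 7) (nat_lit 130) (nat_lit 14) r0_130 r8_14 (nat_lit 0) (nat_lit 0) (nat_lit 0) (nat_lit 0x7fa4b61a4) (nat_lit 543932912),
  Rx.mk (nat_lit 152) (nat_lit 0) (nat_lit 3) (nat_lit 2) (nat_lit 6) (nat_lit 134) (nat_lit 7) r0_134 r8_7 (nat_lit 28597756) (nat_lit 0) (nat_lit 0) (nat_lit 0x7fab4f40c) (nat_lit 572118568),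
  Rx.mk (nat_lit 154) (nat_lit 2) (nat_lit 3) (nat_lit 2) (nat_lit 7) (nat_lit 135) (nat_lit 11) r0_135 r8_11 (nat_lit 0) (nat_lit 0) (nat_lit 0) (nat_lit 0x7ffc6e694) (nat_lit 538526762),
  Rx.mk (nat_lit 155) (nat_lit 3) (nat_lit 3) (nat_lit 2) (nat_lit 7) (nat_lit 137) (nat_lit 10) r0_137 r8_10 (nat_lit 0) (nat_lit 0) (nat_lit 0) (nat_lit 0x8017985b4) (nat_lit 536870912),
  Rx.mk (nat_lit 219) (nat_lit 3) (nat_lit 3) (nat_lit 3) (nat_lit 7) (nat_lit 138) (nat_lit 9) r0_138 r8_9 (nat_lit 0) (nat_lit 0) (nat_lit 0) (nat_lit 0x8017985b4) (nat_lit 536870912),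
  Rx.mk (nat_lit 402) (nat_lit 2) (nat_lit 2) (nat_lit 6) (nat_lit 7) (nat_lit 131) (nat_lit 13) r0_131 r8_13 (nat_lit 0) (nat_lit 0) (nat_lit 0) (nat_lit 0x8017985b4) (nat_lit 536870912),
  Rx.mk (nat_lit 406) (nat_lit 6) (nat_lit 2) (nat_lit 6) (nat_lit 7) (nat_lit 132) (nat_lit 12) r0_132 r8_12 (nat_lit 0) (nat_lit 0) (nat_lit 0) (nat_lit 0x8017985b4) (nat_lit 536870912)]
noncomputable def e7_27 : List Rx := [
  Rx.mk (nat_lit 402) (nat_lit 2) (nat_lit 2) (nat_lit 6) (nat_lit 7) (nat_lit 139) (nat_lit 76) r0_139 r8_76 (nat_lit 0) (nat_lit 0) (nat_lit 0) (nat_lit 0x8017985b4) (nat_lit 536870912),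
  Rx.mk (nat_lit 406) (nat_lit 6) (nat_lit 2) (nat_lit 6) (nat_lit 7) (nat_lit 140) (nat_lit 77) r0_140 r8_77 (nat_lit 0) (nat_lit 0) (nat_lit 0) (nat_lit 0x8017985b4) (nat_lit 536870912)]
noncomputable def e7_28 : List Rx := [
  Rx.mk (nat_lit 24) (nat_lit 0) (nat_lit 3) (nat_lit 0) (nat_lit 2) (nat_lit 147) (nat_lit 0) r0_147 r10_0 (nat_lit 5072318) (nat_lit 0) (nat_lit 2583088) (nat_lit 0x6af50b056) (nat_lit 885195018),
  Rx.mk (nat_lit 27) (nat_lit 3) (nat_lit 3) (nat_lit 0) (nat_lit 3) (nat_lit 150) (nat_lit 2) r0_150 r10_2 (nat_lit 0) (nat_lit 0) (nat_lit 21612680) (nat_lit 0x79ca6153a) (nat_lit 659669742),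
  Rx.mk (nat_lit 152) (nat_lit 0) (nat_lit 3) (nat_lit 2) (nat_lit 6) (nat_lit 148) (nat_lit 1) r0_148 r10_1 (nat_lit 61676723) (nat_lit 0) (nat_lit 0) (nat_lit 0x7d6a0fc8c) (nat_lit 641243735),
  Rx.mk (nat_lit 154) (nat_lit 2) (nat_lit 3) (nat_lit 2) (nat_lit 7) (nat_lit 149) (nat_lit 4) r0_149 r10_4 (nat_lit 0) (nat_lit 0) (nat_lit 0) (nat_lit 0x7fef30450) (nat_lit 539335212),
  Rx.mk (nat_lit 155) (nat_lit 3) (nat_lit 3) (nat_lit 2) (nat_lit 7) (nat_lit 151) (nat_lit 3) r0_151 r10_3 (nat_lit 0) (nat_lit 0) (nat_lit 0) (nat_lit 0x7fba6e0c8) (nat_lit 542601512)]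
noncomputable def e7_29 : List Rx := [
  Rx.mk (nat_lit 27) (nat_lit 3) (nat_lit 3) (nat_lit 0) (nat_lit 3) (nat_lit 152) (nat_lit 0) r0_152 r11_0 (nat_lit 0) (nat_lit 0) (nat_lit 24142843) (nat_lit 0x7ecf6cf52) (nat_lit 581323155),
  Rx.mk (nat_lit 155) (nat_lit 3) (nat_lit 3) (nat_lit 2) (nat_lit 7) (nat_lit 153) (nat_lit 1) r0_153 r11_1 (nat_lit 0) (nat_lit 0) (nat_lit 0) (nat_lit 0x80194a9fc) (nat_lit 536773062)]
noncomputable def e7_30 : List Rx := [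
  Rx.mk (nat_lit 103) (nat_lit 7) (nat_lit 4) (nat_lit 1) (nat_lit 5) (nat_lit 224) (nat_lit 255) r0_224 r5_255 (nat_lit 0) (nat_lit 71218835) (nat_lit 0) (nat_lit 0x7ffb5ec54) (nat_lit 608387497)]
noncomputable def e7_31 : List Rx := [
  Rx.mk (nat_lit 103) (nat_lit 7) (nat_lit 4) (nat_lit 1) (nat_lit 5) (nat_lit 225) (nat_lit 302) r0_225 r11_302 (nat_lit 0) (nat_lit 9444164) (nat_lit 0) (nat_lit 0x7fd819c08) (nat_lit 550012926),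
  Rx.mk (nat_lit 359) (nat_lit 7) (nat_lit 4) (nat_lit 5) (nat_lit 5) (nat_lit 226) (nat_lit 300) r0_226 r11_300 (nat_lit 0) (nat_lit 12926127) (nat_lit 0) (nat_lit 0x800aea9a2) (nat_lit 550481389),
  Rx.mk (nat_lit 375) (nat_lit 7) (nat_lit 6) (nat_lit 5) (nat_lit 7) (nat_lit 227) (nat_lit 301) r0_227 r11_301 (nat_lit 0) (nat_lit 0) (nat_lit 0) (nat_lit 0x8257094c6) (nat_lit 501926062)]
noncomputable def e7_32 : List Rx := [
  Rx.mk (nat_lit 35) (nat_lit 3) (nat_lit 4) (nat_lit 0) (nat_lit 1) (nat_lit 228) (nat_lit 173) r0_228 r6_173 (nat_lit 0) (nat_lit 549304) (nat_lit 476596) (nat_lit 0x63aaea0f0) (nat_lit 996170062),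
  Rx.mk (nat_lit 56) (nat_lit 0) (nat_lit 7) (nat_lit 0) (nat_lit 2) (nat_lit 232) (nat_lit 171) r0_232 r6_171 (nat_lit 961472) (nat_lit 0) (nat_lit 853516) (nat_lit 0x7527736a6) (nat_lit 714260500),
  Rx.mk (nat_lit 59) (nat_lit 3) (nat_lit 7) (nat_lit 0) (nat_lit 3) (nat_lit 234) (nat_lit 174) r0_234 r6_174 (nat_lit 0) (nat_lit 0) (nat_lit 11464009) (nat_lit 0x7fcd39b80) (nat_lit 552812521),
  Rx.mk (nat_lit 99) (nat_lit 3) (nat_lit 4) (nat_lit 1) (nat_lit 5) (nat_lit 229) (nat_lit 175) r0_229 r6_175 (nat_lit 0) (nat_lit 2611205) (nat_lit 0) (nat_lit 0x83a05514c) (nat_lit 484513917),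
  Rx.mk (nat_lit 120) (nat_lit 0) (nat_lit 7) (nat_lit 1) (nat_lit 6) (nat_lit 233) (nat_lit 172) r0_233 r6_172 (nat_lit 727303) (nat_lit 0) (nat_lit 0) (nat_lit 0x864e745a0) (nat_lit 441614815),
  Rx.mk (nat_lit 123) (nat_lit 3) (nat_lit 7) (nat_lit 1) (nat_lit 7) (nat_lit 235) (nat_lit 176) r0_235 r6_176 (nat_lit 0) (nat_lit 0) (nat_lit 0) (nat_lit 0x86cc8ff0c) (nat_lit 433849212),
  Rx.mk (nat_lit 227) (nat_lit 3) (nat_lit 4) (nat_lit 3) (nat_lit 5) (nat_lit 230) (nat_lit 177) r0_230 r6_177 (nat_lit 0) (nat_lit 14019292) (nat_lit 0) (nat_lit 0x774820d34) (nat_lit 692574004),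
  Rx.mk (nat_lit 231) (nat_lit 7) (nat_lit 4) (nat_lit 3) (nat_lit 5) (nat_lit 231) (nat_lit 170) r0_231 r6_170 (nat_lit 0) (nat_lit 7518208) (nat_lit 0) (nat_lit 0x737802416) (nat_lit 747659820)]
noncomputable def e7_33 : List Rx := [
  Rx.mk (nat_lit 24) (nat_lit 0) (nat_lit 3) (nat_lit 0) (nat_lit 2) (nat_lit 204) (nat_lit 94) r0_204 r5_94 (nat_lit 538423) (nat_lit 0) (nat_lit 46998) (nat_lit 0x84bca4798) (nat_lit 465237583),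
  Rx.mk (nat_lit 56) (nat_lit 0) (nat_lit 7) (nat_lit 0) (nat_lit 2) (nat_lit 209) (nat_lit 95) r0_209 r5_95 (nat_lit 20620) (nat_lit 0) (nat_lit 14014) (nat_lit 0x76e524eec) (nat_lit 684143846),
  Rx.mk (nat_lit 59) (nat_lit 3) (nat_lit 7) (nat_lit 0) (nat_lit 3) (nat_lit 210) (nat_lit 96) r0_210 r5_96 (nat_lit 0) (nat_lit 0) (nat_lit 6178764) (nat_lit 0x7f794ecf0) (nat_lit 552570776),
  Rx.mk (nat_lit 152) (nat_lit 0) (nat_lit 3) (nat_lit 2) (nat_lit 6) (nat_lit 205) (nat_lit 100) r0_205 r5_100 (nat_lit 331782363) (nat_lit 0) (nat_lit 0) (nat_lit 0x7cda33514) (nat_lit 920285625),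
  Rx.mk (nat_lit 154) (nat_lit 2) (nat_lit 3) (nat_lit 2) (nat_lit 7) (nat_lit 206) (nat_lit 101) r0_206 r5_101 (nat_lit 0) (nat_lit 0) (nat_lit 0) (nat_lit 0x67513425a) (nat_lit 936576412),
  Rx.mk (nat_lit 227) (nat_lit 3) (nat_lit 4) (nat_lit 3) (nat_lit 5) (nat_lit 207) (nat_lit 97) r0_207 r5_97 (nat_lit 0) (nat_lit 10938667) (nat_lit 0) (nat_lit 0x6b03cd2ce) (nat_lit 887781329),
  Rx.mk (nat_lit 231) (nat_lit 7) (nat_lit 4) (nat_lit 3) (nat_lit 5) (nat_lit 208) (nat_lit 99) r0_208 r5_99 (nat_lit 0) (nat_lit 9650169) (nat_lit 0) (nat_lit 0x70202c884) (nat_lit 803847431),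
  Rx.mk (nat_lit 251) (nat_lit 3) (nat_lit 7) (nat_lit 3) (nat_lit 7) (nat_lit 211) (nat_lit 98) r0_211 r5_98 (nat_lit 0) (nat_lit 0) (nat_lit 0) (nat_lit 0x8017985b4) (nat_lit 536870912)]
noncomputable def e7_34 : List Rx := [
  Rx.mk (nat_lit 24) (nat_lit 0) (nat_lit 3) (nat_lit 0) (nat_lit 2) (nat_lit 212) (nat_lit 91) r0_212 r11_91 (nat_lit 170327518) (nat_lit 0) (nat_lit 18712504) (nat_lit 0x72fa2386a) (nat_lit 937148384),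
  Rx.mk (nat_lit 56) (nat_lit 0) (nat_lit 7) (nat_lit 0) (nat_lit 2) (nat_lit 219) (nat_lit 92) r0_219 r11_92 (nat_lit 9949213) (nat_lit 0) (nat_lit 7944298) (nat_lit 0x6fc82cfd0) (nat_lit 817619223),
  Rx.mk (nat_lit 59) (nat_lit 3) (nat_lit 7) (nat_lit 0) (nat_lit 3) (nat_lit 220) (nat_lit 93) r0_220 r11_93 (nat_lit 0) (nat_lit 0) (nat_lit 15086968) (nat_lit 0x80b26ae3e) (nat_lit 542475880),
  Rx.mk (nat_lit 152) (nat_lit 0) (nat_lit 3) (nat_lit 2) (nat_lit 6) (nat_lit 213) (nat_lit 97) r0_213 r11_97 (nat_lit 153834335) (nat_lit 0) (nat_lit 0) (nat_lit 0x7ce2c9da4) (nat_lit 741924097),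
  Rx.mk (nat_lit 154) (nat_lit 2) (nat_lit 3) (nat_lit 2) (nat_lit 7) (nat_lit 214) (nat_lit 98) r0_214 r11_98 (nat_lit 0) (nat_lit 0) (nat_lit 0) (nat_lit 0x8056e7ad0) (nat_lit 532778862),
  Rx.mk (nat_lit 227) (nat_lit 3) (nat_lit 4) (nat_lit 3) (nat_lit 5) (nat_lit 215) (nat_lit 94) r0_215 r11_94 (nat_lit 0) (nat_lit 14894858) (nat_lit 0) (nat_lit 0x800926332) (nat_lit 552590770),
  Rx.mk (nat_lit 231) (nat_lit 7) (nat_lit 4) (nat_lit 3) (nat_lit 5) (nat_lit 216) (nat_lit 96) r0_216 r11_96 (nat_lit 0) (nat_lit 12688314) (nat_lit 0) (nat_lit 0x803b0d346) (nat_lit 547294026),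
  Rx.mk (nat_lit 251) (nat_lit 3) (nat_lit 7) (nat_lit 3) (nat_lit 7) (nat_lit 221) (nat_lit 95) r0_221 r11_95 (nat_lit 0) (nat_lit 0) (nat_lit 0) (nat_lit 0x805e5975a) (nat_lit 532528962),
  Rx.mk (nat_lit 487) (nat_lit 7) (nat_lit 4) (nat_lit 7) (nat_lit 5) (nat_lit 217) (nat_lit 99) r0_217 r11_99 (nat_lit 0) (nat_lit 11279401) (nat_lit 0) (nat_lit 0x78e6c8c2e) (nat_lit 663631063),
  Rx.mk (nat_lit 503) (nat_lit 7) (nat_lit 6) (nat_lit 7) (nat_lit 7) (nat_lit 218) (nat_lit 100) r0_218 r11_100 (nat_lit 0) (nat_lit 0) (nat_lit 0) (nat_lit 0x81065e126) (nat_lit 522185862)]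
noncomputable def e7_35 : List Rx := [
  Rx.mk (nat_lit 99) (nat_lit 3) (nat_lit 4) (nat_lit 1) (nat_lit 5) (nat_lit 222) (nat_lit 276) r0_222 r6_276 (nat_lit 0) (nat_lit 52275) (nat_lit 0) (nat_lit 0x8149ad206) (nat_lit 517293887),
  Rx.mk (nat_lit 103) (nat_lit 7) (nat_lit 4) (nat_lit 1) (nat_lit 5) (nat_lit 223) (nat_lit 277) r0_223 r6_277 (nat_lit 0) (nat_lit 15883932) (nat_lit 0) (nat_lit 0x7b9d7068c) (nat_lit 624376294)]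
noncomputable def e7_36 : List Rx := [
  Rx.mk (nat_lit 35) (nat_lit 3) (nat_lit 4) (nat_lit 0) (nat_lit 1) (nat_lit 236) (nat_lit 49) r0_236 r12_49 (nat_lit 0) (nat_lit 483498) (nat_lit 337141) (nat_lit 0x69bd8207c) (nat_lit 897741001),
  Rx.mk (nat_lit 39) (nat_lit 7) (nat_lit 4) (nat_lit 0) (nat_lit 1) (nat_lit 238) (nat_lit 53) r0_238 r12_53 (nat_lit 0) (nat_lit 1147203) (nat_lit 939367) (nat_lit 0x56a34f6d6) (nat_lit 1208040532),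
  Rx.mk (nat_lit 59) (nat_lit 3) (nat_lit 7) (nat_lit 0) (nat_lit 3) (nat_lit 241) (nat_lit 51) r0_241 r12_51 (nat_lit 0) (nat_lit 0) (nat_lit 7132573) (nat_lit 0x7f5e76888) (nat_lit 555234485),
  Rx.mk (nat_lit 99) (nat_lit 3) (nat_lit 4) (nat_lit 1) (nat_lit 5) (nat_lit 237) (nat_lit 50) r0_237 r12_50 (nat_lit 0) (nat_lit 110144) (nat_lit 0) (nat_lit 0x82822bbe0) (nat_lit 498750706),
  Rx.mk (nat_lit 103) (nat_lit 7) (nat_lit 4) (nat_lit 1) (nat_lit 5) (nat_lit 239) (nat_lit 54) r0_239 r12_54 (nat_lit 0) (nat_lit 17412885) (nat_lit 0) (nat_lit 0x6e9844ff8) (nat_lit 836304197),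
  Rx.mk (nat_lit 123) (nat_lit 3) (nat_lit 7) (nat_lit 1) (nat_lit 7) (nat_lit 242) (nat_lit 52) r0_242 r12_52 (nat_lit 0) (nat_lit 0) (nat_lit 0) (nat_lit 0x91ea2ede6) (nat_lit 264130312),
  Rx.mk (nat_lit 231) (nat_lit 7) (nat_lit 4) (nat_lit 3) (nat_lit 5) (nat_lit 240) (nat_lit 55) r0_240 r12_55 (nat_lit 0) (nat_lit 5034045) (nat_lit 0) (nat_lit 0x6bcc7805c) (nat_lit 869121807)]
noncomputable def e7_37 : List Rx := [
  Rx.mk (nat_lit 40) (nat_lit 0) (nat_lit 5) (nat_lit 0) (nat_lit 2) (nat_lit 248) (nat_lit 171) r0_248 r0_171 (nat_lit 1057520207) (nat_lit 0) (nat_lit 19628) (nat_lit 0x8001a79da) (nat_lit 1594326447),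
  Rx.mk (nat_lit 104) (nat_lit 0) (nat_lit 5) (nat_lit 1) (nat_lit 6) (nat_lit 249) (nat_lit 172) r0_249 r0_172 (nat_lit 495476102) (nat_lit 0) (nat_lit 0) (nat_lit 0x7bfc24796) (nat_lit 1097908564)]
noncomputable def e7_38 : List Rx := [
  Rx.mk (nat_lit 40) (nat_lit 0) (nat_lit 5) (nat_lit 0) (nat_lit 2) (nat_lit 244) (nat_lit 244) r0_244 r0_244 (nat_lit 88358360) (nat_lit 0) (nat_lit 88358360) (nat_lit 0x68d4a3a72) (nat_lit 1088870982),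
  Rx.mk (nat_lit 41) (nat_lit 1) (nat_lit 5) (nat_lit 0) (nat_lit 3) (nat_lit 246) (nat_lit 245) r0_246 r0_245 (nat_lit 0) (nat_lit 0) (nat_lit 25767150) (nat_lit 0x782fa05e2) (nat_lit 689732912),
  Rx.mk (nat_lit 97) (nat_lit 1) (nat_lit 4) (nat_lit 1) (nat_lit 5) (nat_lit 243) (nat_lit 243) r0_243 r0_243 (nat_lit 0) (nat_lit 375356366) (nat_lit 0) (nat_lit 0x7fff94e4a) (nat_lit 912268878),
  Rx.mk (nat_lit 104) (nat_lit 0) (nat_lit 5) (nat_lit 1) (nat_lit 6) (nat_lit 245) (nat_lit 246) r0_245 r0_246 (nat_lit 25767150) (nat_lit 0) (nat_lit 0) (nat_lit 0x782fa05e2) (nat_lit 689732912),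
  Rx.mk (nat_lit 105) (nat_lit 1) (nat_lit 5) (nat_lit 1) (nat_lit 7) (nat_lit 247) (nat_lit 247) r0_247 r0_247 (nat_lit 0) (nat_lit 0) (nat_lit 0) (nat_lit 0x7f946ba74) (nat_lit 544898012)]
noncomputable def e7_39 : List Rx := [
  Rx.mk (nat_lit 40) (nat_lit 0) (nat_lit 5) (nat_lit 0) (nat_lit 2) (nat_lit 250) (nat_lit 217) r0_250 r7_217 (nat_lit 24992992) (nat_lit 0) (nat_lit 18636919) (nat_lit 0x67a63621c) (nat_lit 974858673),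
  Rx.mk (nat_lit 41) (nat_lit 1) (nat_lit 5) (nat_lit 0) (nat_lit 3) (nat_lit 252) (nat_lit 219) r0_252 r7_219 (nat_lit 0) (nat_lit 0) (nat_lit 26788272) (nat_lit 0x7afd29426) (nat_lit 645521784),
  Rx.mk (nat_lit 104) (nat_lit 0) (nat_lit 5) (nat_lit 1) (nat_lit 6) (nat_lit 251) (nat_lit 218) r0_251 r7_218 (nat_lit 25925090) (nat_lit 0) (nat_lit 0) (nat_lit 0x7f7ee0aba) (nat_lit 572200552),
  Rx.mk (nat_lit 105) (nat_lit 1) (nat_lit 5) (nat_lit 1) (nat_lit 7) (nat_lit 253) (nat_lit 220) r0_253 r7_220 (nat_lit 0) (nat_lit 0) (nat_lit 0) (nat_lit 0x80170d2ac) (nat_lit 536874862)]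
noncomputable def e7_40 : List Rx := [
  Rx.mk (nat_lit 97) (nat_lit 1) (nat_lit 4) (nat_lit 1) (nat_lit 5) (nat_lit 285) (nat_lit 276) r0_285 r2_276 (nat_lit 0) (nat_lit 65725081) (nat_lit 0) (nat_lit 0x7b4d9ae64) (nat_lit 679298593),
  Rx.mk (nat_lit 101) (nat_lit 5) (nat_lit 4) (nat_lit 1) (nat_lit 5) (nat_lit 286) (nat_lit 277) r0_286 r2_277 (nat_lit 0) (nat_lit 29130114) (nat_lit 0) (nat_lit 0x7eda42850) (nat_lit 585601326),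
  Rx.mk (nat_lit 105) (nat_lit 1) (nat_lit 5) (nat_lit 1) (nat_lit 7) (nat_lit 287) (nat_lit 278) r0_287 r2_278 (nat_lit 0) (nat_lit 0) (nat_lit 0) (nat_lit 0x8017985b4) (nat_lit 536870912),
  Rx.mk (nat_lit 109) (nat_lit 5) (nat_lit 5) (nat_lit 1) (nat_lit 7) (nat_lit 288) (nat_lit 279) r0_288 r2_279 (nat_lit 0) (nat_lit 0) (nat_lit 0) (nat_lit 0x8017985b4) (nat_lit 536870912)]
noncomputable def e7_41 : List Rx := [
  Rx.mk (nat_lit 105) (nat_lit 1) (nat_lit 5) (nat_lit 1) (nat_lit 7) (nat_lit 291) (nat_lit 248) r0_291 r9_248 (nat_lit 0) (nat_lit 0) (nat_lit 0) (nat_lit 0x7f706cec0) (nat_lit 547165662),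
  Rx.mk (nat_lit 109) (nat_lit 5) (nat_lit 5) (nat_lit 1) (nat_lit 7) (nat_lit 292) (nat_lit 249) r0_292 r9_249 (nat_lit 0) (nat_lit 0) (nat_lit 0) (nat_lit 0x7fa7f11e8) (nat_lit 543731812)]
noncomputable def e7_42 : List Rx := [
  Rx.mk (nat_lit 97) (nat_lit 1) (nat_lit 4) (nat_lit 1) (nat_lit 5) (nat_lit 293) (nat_lit 254) r0_293 r9_254 (nat_lit 0) (nat_lit 27880557) (nat_lit 0) (nat_lit 0x735c96bb4) (nat_lit 769863869),
  Rx.mk (nat_lit 101) (nat_lit 5) (nat_lit 4) (nat_lit 1) (nat_lit 5) (nat_lit 294) (nat_lit 253) r0_294 r9_253 (nat_lit 0) (nat_lit 27813133) (nat_lit 0) (nat_lit 0x7ac35ec14) (nat_lit 650184545),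
  Rx.mk (nat_lit 105) (nat_lit 1) (nat_lit 5) (nat_lit 1) (nat_lit 7) (nat_lit 296) (nat_lit 256) r0_296 r9_256 (nat_lit 0) (nat_lit 0) (nat_lit 0) (nat_lit 0x7ff5e805e) (nat_lit 538935112),
  Rx.mk (nat_lit 109) (nat_lit 5) (nat_lit 5) (nat_lit 1) (nat_lit 7) (nat_lit 297) (nat_lit 255) r0_297 r9_255 (nat_lit 0) (nat_lit 0) (nat_lit 0) (nat_lit 0x7fe5db210) (nat_lit 539920162),
  Rx.mk (nat_lit 357) (nat_lit 5) (nat_lit 4) (nat_lit 5) (nat_lit 5) (nat_lit 295) (nat_lit 250) r0_295 r9_250 (nat_lit 0) (nat_lit 25628035) (nat_lit 0) (nat_lit 0x7c71b8854) (nat_lit 620861597),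
  Rx.mk (nat_lit 365) (nat_lit 5) (nat_lit 5) (nat_lit 5) (nat_lit 7) (nat_lit 298) (nat_lit 251) r0_298 r9_251 (nat_lit 0) (nat_lit 0) (nat_lit 0) (nat_lit 0x7fa3dbc34) (nat_lit 543982362),
  Rx.mk (nat_lit 373) (nat_lit 5) (nat_lit 6) (nat_lit 5) (nat_lit 7) (nat_lit 299) (nat_lit 252) r0_299 r9_252 (nat_lit 0) (nat_lit 0) (nat_lit 0) (nat_lit 0x7fed20192) (nat_lit 539467362)]
noncomputable def e7_43 : List Rx := [
  Rx.mk (nat_lit 41) (nat_lit 1) (nat_lit 5) (nat_lit 0) (nat_lit 3) (nat_lit 283) (nat_lit 253) r0_283 r1_253 (nat_lit 0) (nat_lit 0) (nat_lit 24741287) (nat_lit 0x7fb668af0) (nat_lit 567576349),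
  Rx.mk (nat_lit 97) (nat_lit 1) (nat_lit 4) (nat_lit 1) (nat_lit 5) (nat_lit 282) (nat_lit 252) r0_282 r1_252 (nat_lit 0) (nat_lit 585345170) (nat_lit 0) (nat_lit 0x801301b72) (nat_lit 1121100632),
  Rx.mk (nat_lit 105) (nat_lit 1) (nat_lit 5) (nat_lit 1) (nat_lit 7) (nat_lit 284) (nat_lit 254) r0_284 r1_254 (nat_lit 0) (nat_lit 0) (nat_lit 0) (nat_lit 0x7fcf556ee) (nat_lit 541249062)]
noncomputable def e7_44 : List Rx := [
  Rx.mk (nat_lit 41) (nat_lit 1) (nat_lit 5) (nat_lit 0) (nat_lit 3) (nat_lit 289) (nat_lit 178) r0_289 r8_178 (nat_lit 0) (nat_lit 0) (nat_lit 25058333) (nat_lit 0x74a9cadf8) (nat_lit 746005345),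
  Rx.mk (nat_lit 105) (nat_lit 1) (nat_lit 5) (nat_lit 1) (nat_lit 7) (nat_lit 290) (nat_lit 179) r0_290 r8_179 (nat_lit 0) (nat_lit 0) (nat_lit 0) (nat_lit 0x7ffa6b34c) (nat_lit 538657562)]
noncomputable def e7_45 : List Rx := [
  Rx.mk (nat_lit 8) (nat_lit 0) (nat_lit 1) (nat_lit 0) (nat_lit 2) (nat_lit 265) (nat_lit 180) r0_265 r1_180 (nat_lit 67542365) (nat_lit 0) (nat_lit 14461079) (nat_lit 0x5cc089d90) (nat_lit 1189508356),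
  Rx.mk (nat_lit 40) (nat_lit 0) (nat_lit 5) (nat_lit 0) (nat_lit 2) (nat_lit 269) (nat_lit 179) r0_269 r1_179 (nat_lit 1205034172) (nat_lit 0) (nat_lit 62636) (nat_lit 0x802a2cad6) (nat_lit 1739481320),
  Rx.mk (nat_lit 72) (nat_lit 0) (nat_lit 1) (nat_lit 1) (nat_lit 6) (nat_lit 266) (nat_lit 182) r0_266 r1_182 (nat_lit 30433232) (nat_lit 0) (nat_lit 0) (nat_lit 0x7d7bf805c) (nat_lit 608923094),
  Rx.mk (nat_lit 104) (nat_lit 0) (nat_lit 5) (nat_lit 1) (nat_lit 6) (nat_lit 270) (nat_lit 181) r0_270 r1_181 (nat_lit 72480076) (nat_lit 0) (nat_lit 0) (nat_lit 0x7991dfe78) (nat_lit 713984088),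
  Rx.mk (nat_lit 136) (nat_lit 0) (nat_lit 1) (nat_lit 2) (nat_lit 6) (nat_lit 267) (nat_lit 183) r0_267 r1_183 (nat_lit 99141069) (nat_lit 0) (nat_lit 0) (nat_lit 0x7f0a1588e) (nat_lit 652491131),
  Rx.mk (nat_lit 138) (nat_lit 2) (nat_lit 1) (nat_lit 2) (nat_lit 7) (nat_lit 268) (nat_lit 184) r0_268 r1_184 (nat_lit 0) (nat_lit 0) (nat_lit 0) (nat_lit 0x7c86d8338) (nat_lit 593842712)]
noncomputable def e7_46 : List Rx := [
  Rx.mk (nat_lit 8) (nat_lit 0) (nat_lit 1) (nat_lit 0) (nat_lit 2) (nat_lit 254) (nat_lit 180) r0_254 r2_180 (nat_lit 169414750) (nat_lit 0) (nat_lit 32319873) (nat_lit 0x5d7f70754) (nat_lit 1297226585),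
  Rx.mk (nat_lit 136) (nat_lit 0) (nat_lit 1) (nat_lit 2) (nat_lit 6) (nat_lit 255) (nat_lit 181) r0_255 r2_181 (nat_lit 31094968) (nat_lit 0) (nat_lit 0) (nat_lit 0x7d34113e2) (nat_lit 614066280),
  Rx.mk (nat_lit 138) (nat_lit 2) (nat_lit 1) (nat_lit 2) (nat_lit 7) (nat_lit 256) (nat_lit 182) r0_256 r2_182 (nat_lit 0) (nat_lit 0) (nat_lit 0) (nat_lit 0x8017985b4) (nat_lit 536870912)]
noncomputable def e7_47 : List Rx := [
  Rx.mk (nat_lit 8) (nat_lit 0) (nat_lit 1) (nat_lit 0) (nat_lit 2) (nat_lit 271) (nat_lit 230) r0_271 r8_230 (nat_lit 75494649) (nat_lit 0) (nat_lit 75450971) (nat_lit 0x5a61765d0) (nat_lit 1296858182),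
  Rx.mk (nat_lit 9) (nat_lit 1) (nat_lit 1) (nat_lit 0) (nat_lit 3) (nat_lit 274) (nat_lit 231) r0_274 r8_231 (nat_lit 0) (nat_lit 0) (nat_lit 30314307) (nat_lit 0x6f3513136) (nat_lit 839472119),
  Rx.mk (nat_lit 40) (nat_lit 0) (nat_lit 5) (nat_lit 0) (nat_lit 2) (nat_lit 278) (nat_lit 237) r0_278 r8_237 (nat_lit 22445376) (nat_lit 0) (nat_lit 11187286) (nat_lit 0x611b170e2) (nat_lit 1070645824),
  Rx.mk (nat_lit 41) (nat_lit 1) (nat_lit 5) (nat_lit 0) (nat_lit 3) (nat_lit 280) (nat_lit 238) r0_280 r8_238 (nat_lit 0) (nat_lit 0) (nat_lit 25163350) (nat_lit 0x75f165a36) (nat_lit 725421662),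
  Rx.mk (nat_lit 72) (nat_lit 0) (nat_lit 1) (nat_lit 1) (nat_lit 6) (nat_lit 272) (nat_lit 232) r0_272 r8_232 (nat_lit 36993222) (nat_lit 0) (nat_lit 0) (nat_lit 0x7df6aaa0c) (nat_lit 607751434),
  Rx.mk (nat_lit 73) (nat_lit 1) (nat_lit 1) (nat_lit 1) (nat_lit 7) (nat_lit 275) (nat_lit 233) r0_275 r8_233 (nat_lit 0) (nat_lit 0) (nat_lit 0) (nat_lit 0x7f69ccc6e) (nat_lit 547574012),
  Rx.mk (nat_lit 104) (nat_lit 0) (nat_lit 5) (nat_lit 1) (nat_lit 6) (nat_lit 279) (nat_lit 239) r0_279 r8_239 (nat_lit 24741287) (nat_lit 0) (nat_lit 0) (nat_lit 0x7faf81db8) (nat_lit 567993049),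
  Rx.mk (nat_lit 105) (nat_lit 1) (nat_lit 5) (nat_lit 1) (nat_lit 7) (nat_lit 281) (nat_lit 240) r0_281 r8_240 (nat_lit 0) (nat_lit 0) (nat_lit 0) (nat_lit 0x80027a268) (nat_lit 538140112),
  Rx.mk (nat_lit 136) (nat_lit 0) (nat_lit 1) (nat_lit 2) (nat_lit 6) (nat_lit 273) (nat_lit 234) r0_273 r8_234 (nat_lit 25972273) (nat_lit 0) (nat_lit 0) (nat_lit 0x7eb8e4744) (nat_lit 584573485),
  Rx.mk (nat_lit 137) (nat_lit 1) (nat_lit 1) (nat_lit 2) (nat_lit 7) (nat_lit 276) (nat_lit 235) r0_276 r8_235 (nat_lit 0) (nat_lit 0) (nat_lit 0) (nat_lit 0x8017985b4) (nat_lit 536870912),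
  Rx.mk (nat_lit 138) (nat_lit 2) (nat_lit 1) (nat_lit 2) (nat_lit 7) (nat_lit 277) (nat_lit 236) r0_277 r8_236 (nat_lit 0) (nat_lit 0) (nat_lit 0) (nat_lit 0x8010a6c4c) (nat_lit 537295162)]
noncomputable def e7_48 : List Rx := [
  Rx.mk (nat_lit 8) (nat_lit 0) (nat_lit 1) (nat_lit 0) (nat_lit 2) (nat_lit 257) (nat_lit 155) r0_257 r9_155 (nat_lit 41159980) (nat_lit 0) (nat_lit 49590700) (nat_lit 0x50d4cab80) (nat_lit 1391082492),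
  Rx.mk (nat_lit 9) (nat_lit 1) (nat_lit 1) (nat_lit 0) (nat_lit 3) (nat_lit 259) (nat_lit 157) r0_259 r9_157 (nat_lit 0) (nat_lit 0) (nat_lit 28301978) (nat_lit 0x71f06598c) (nat_lit 793284240),
  Rx.mk (nat_lit 136) (nat_lit 0) (nat_lit 1) (nat_lit 2) (nat_lit 6) (nat_lit 258) (nat_lit 156) r0_258 r9_156 (nat_lit 30127539) (nat_lit 0) (nat_lit 0) (nat_lit 0x7a85fc8e4) (nat_lit 656361051),
  Rx.mk (nat_lit 137) (nat_lit 1) (nat_lit 1) (nat_lit 2) (nat_lit 7) (nat_lit 260) (nat_lit 158) r0_260 r9_158 (nat_lit 0) (nat_lit 0) (nat_lit 0) (nat_lit 0x7fffa9a3e) (nat_lit 538336962),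
  Rx.mk (nat_lit 138) (nat_lit 2) (nat_lit 1) (nat_lit 2) (nat_lit 7) (nat_lit 261) (nat_lit 159) r0_261 r9_159 (nat_lit 0) (nat_lit 0) (nat_lit 0) (nat_lit 0x800dc4ccc) (nat_lit 537471612)]
noncomputable def e7_49 : List Rx := [
  Rx.mk (nat_lit 8) (nat_lit 0) (nat_lit 1) (nat_lit 0) (nat_lit 2) (nat_lit 262) (nat_lit 65) r0_262 r9_65 (nat_lit 111519439) (nat_lit 0) (nat_lit 35271211) (nat_lit 0x580e92528) (nat_lit 1330276712),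
  Rx.mk (nat_lit 136) (nat_lit 0) (nat_lit 1) (nat_lit 2) (nat_lit 6) (nat_lit 263) (nat_lit 66) r0_263 r9_66 (nat_lit 42181634) (nat_lit 0) (nat_lit 0) (nat_lit 0x7bc61b1a4) (nat_lit 648220246),
  Rx.mk (nat_lit 138) (nat_lit 2) (nat_lit 1) (nat_lit 2) (nat_lit 7) (nat_lit 264) (nat_lit 67) r0_264 r9_67 (nat_lit 0) (nat_lit 0) (nat_lit 0) (nat_lit 0x7fcef5a96) (nat_lit 541322112)]
noncomputable def e7_50 : List Rx := [
  Rx.mk (nat_lit 40) (nat_lit 0) (nat_lit 5) (nat_lit 0) (nat_lit 2) (nat_lit 302) (nat_lit 145) r0_302 r3_145 (nat_lit 13151) (nat_lit 0) (nat_lit 5862) (nat_lit 0x7a31628ba) (nat_lit 630796625),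
  Rx.mk (nat_lit 43) (nat_lit 3) (nat_lit 5) (nat_lit 0) (nat_lit 3) (nat_lit 304) (nat_lit 148) r0_304 r3_148 (nat_lit 0) (nat_lit 0) (nat_lit 1966223) (nat_lit 0x7a0eec8a8) (nat_lit 635246135),
  Rx.mk (nat_lit 96) (nat_lit 0) (nat_lit 4) (nat_lit 1) (nat_lit 4) (nat_lit 300) (nat_lit 146) r0_300 r3_146 (nat_lit 1823) (nat_lit 3234) (nat_lit 0) (nat_lit 0x7fffe0034) (nat_lit 536886669),
  Rx.mk (nat_lit 99) (nat_lit 3) (nat_lit 4) (nat_lit 1) (nat_lit 5) (nat_lit 301) (nat_lit 149) r0_301 r3_149 (nat_lit 0) (nat_lit 5037900) (nat_lit 0) (nat_lit 0x7d56b4566) (nat_lit 585373512),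
  Rx.mk (nat_lit 104) (nat_lit 0) (nat_lit 5) (nat_lit 1) (nat_lit 6) (nat_lit 303) (nat_lit 147) r0_303 r3_147 (nat_lit 2227735) (nat_lit 0) (nat_lit 0) (nat_lit 0x7cd025f7c) (nat_lit 590865397),
  Rx.mk (nat_lit 107) (nat_lit 3) (nat_lit 5) (nat_lit 1) (nat_lit 7) (nat_lit 305) (nat_lit 150) r0_305 r3_150 (nat_lit 0) (nat_lit 0) (nat_lit 0) (nat_lit 0x81fa69626) (nat_lit 507231062)]
noncomputable def e7_51 : List Rx := [
  Rx.mk (nat_lit 40) (nat_lit 0) (nat_lit 5) (nat_lit 0) (nat_lit 2) (nat_lit 318) (nat_lit 155) r0_318 r4_155 (nat_lit 125045575) (nat_lit 0) (nat_lit 2195696) (nat_lit 0x6ae14ea2c) (nat_lit 1005937833),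
  Rx.mk (nat_lit 43) (nat_lit 3) (nat_lit 5) (nat_lit 0) (nat_lit 3) (nat_lit 320) (nat_lit 157) r0_320 r4_157 (nat_lit 0) (nat_lit 0) (nat_lit 9212328) (nat_lit 0x785000486) (nat_lit 671079090),
  Rx.mk (nat_lit 104) (nat_lit 0) (nat_lit 5) (nat_lit 1) (nat_lit 6) (nat_lit 319) (nat_lit 156) r0_319 r4_156 (nat_lit 25377028) (nat_lit 0) (nat_lit 0) (nat_lit 0x7f22d5c02) (nat_lit 577258190),
  Rx.mk (nat_lit 107) (nat_lit 3) (nat_lit 5) (nat_lit 1) (nat_lit 7) (nat_lit 321) (nat_lit 158) r0_321 r4_158 (nat_lit 0) (nat_lit 0) (nat_lit 0) (nat_lit 0x80b12ecdc) (nat_lit 527417312)]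
noncomputable def e7_52 : List Rx := [
  Rx.mk (nat_lit 32) (nat_lit 0) (nat_lit 4) (nat_lit 0) (nat_lit 0) (nat_lit 330) (nat_lit 152) r0_330 r5_152 (nat_lit 246635775) (nat_lit 4295) (nat_lit 4746) (nat_lit 0x7ffebcf68) (nat_lit 783597078),
  Rx.mk (nat_lit 35) (nat_lit 3) (nat_lit 4) (nat_lit 0) (nat_lit 1) (nat_lit 332) (nat_lit 158) r0_332 r5_158 (nat_lit 0) (nat_lit 9515140) (nat_lit 9046091) (nat_lit 0x640679402) (nat_lit 1008402593),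
  Rx.mk (nat_lit 40) (nat_lit 0) (nat_lit 5) (nat_lit 0) (nat_lit 2) (nat_lit 335) (nat_lit 153) r0_335 r5_153 (nat_lit 72835185) (nat_lit 0) (nat_lit 7966129) (nat_lit 0x768dbcfb0) (nat_lit 771020776),
  Rx.mk (nat_lit 43) (nat_lit 3) (nat_lit 5) (nat_lit 0) (nat_lit 3) (nat_lit 337) (nat_lit 159) r0_337 r5_159 (nat_lit 0) (nat_lit 0) (nat_lit 15727667) (nat_lit 0x785988350) (nat_lit 677032129),
  Rx.mk (nat_lit 56) (nat_lit 0) (nat_lit 7) (nat_lit 0) (nat_lit 2) (nat_lit 340) (nat_lit 154) r0_340 r5_154 (nat_lit 43528741) (nat_lit 0) (nat_lit 2248887) (nat_lit 0x7781485e4) (nat_lit 720358340),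
  Rx.mk (nat_lit 96) (nat_lit 0) (nat_lit 4) (nat_lit 1) (nat_lit 4) (nat_lit 331) (nat_lit 155) r0_331 r5_155 (nat_lit 12431881) (nat_lit 18467620) (nat_lit 0) (nat_lit 0x77229ca54) (nat_lit 711720913),
  Rx.mk (nat_lit 99) (nat_lit 3) (nat_lit 4) (nat_lit 1) (nat_lit 5) (nat_lit 333) (nat_lit 160) r0_333 r5_160 (nat_lit 0) (nat_lit 20486354) (nat_lit 0) (nat_lit 0x7e13133ec) (nat_lit 589334166),
  Rx.mk (nat_lit 104) (nat_lit 0) (nat_lit 5) (nat_lit 1) (nat_lit 6) (nat_lit 336) (nat_lit 156) r0_336 r5_156 (nat_lit 32356529) (nat_lit 0) (nat_lit 0) (nat_lit 0x7e416a34e) (nat_lit 598396941),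
  Rx.mk (nat_lit 107) (nat_lit 3) (nat_lit 5) (nat_lit 1) (nat_lit 7) (nat_lit 338) (nat_lit 161) r0_338 r5_161 (nat_lit 0) (nat_lit 0) (nat_lit 0) (nat_lit 0x7f6c75efc) (nat_lit 547366462),
  Rx.mk (nat_lit 120) (nat_lit 0) (nat_lit 7) (nat_lit 1) (nat_lit 6) (nat_lit 341) (nat_lit 157) r0_341 r5_157 (nat_lit 4283816) (nat_lit 0) (nat_lit 0) (nat_lit 0x76dca6428) (nat_lit 689405378),
  Rx.mk (nat_lit 227) (nat_lit 3) (nat_lit 4) (nat_lit 3) (nat_lit 5) (nat_lit 334) (nat_lit 162) r0_334 r5_162 (nat_lit 0) (nat_lit 25423219) (nat_lit 0) (nat_lit 0x71dceb686) (nat_lit 791634281),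
  Rx.mk (nat_lit 235) (nat_lit 3) (nat_lit 5) (nat_lit 3) (nat_lit 7) (nat_lit 339) (nat_lit 163) r0_339 r5_163 (nat_lit 0) (nat_lit 0) (nat_lit 0) (nat_lit 0x804d1b93e) (nat_lit 533580312)]
noncomputable def e7_53 : List Rx := [
  Rx.mk (nat_lit 40) (nat_lit 0) (nat_lit 5) (nat_lit 0) (nat_lit 2) (nat_lit 309) (nat_lit 256) r0_309 r4_256 (nat_lit 33909295) (nat_lit 0) (nat_lit 19670024) (nat_lit 0x680c7e7d6) (nat_lit 978281281),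
  Rx.mk (nat_lit 41) (nat_lit 1) (nat_lit 5) (nat_lit 0) (nat_lit 3) (nat_lit 311) (nat_lit 257) r0_311 r4_257 (nat_lit 0) (nat_lit 0) (nat_lit 27415859) (nat_lit 0x8000d8c2a) (nat_lit 565665771),
  Rx.mk (nat_lit 43) (nat_lit 3) (nat_lit 5) (nat_lit 0) (nat_lit 3) (nat_lit 313) (nat_lit 258) r0_313 r4_258 (nat_lit 0) (nat_lit 0) (nat_lit 29629750) (nat_lit 0x7db4131bc) (nat_lit 604586362),
  Rx.mk (nat_lit 96) (nat_lit 0) (nat_lit 4) (nat_lit 1) (nat_lit 4) (nat_lit 306) (nat_lit 253) r0_306 r4_253 (nat_lit 9185379) (nat_lit 44700456) (nat_lit 0) (nat_lit 0x69c6a03b6) (nat_lit 950753297),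
  Rx.mk (nat_lit 97) (nat_lit 1) (nat_lit 4) (nat_lit 1) (nat_lit 5) (nat_lit 307) (nat_lit 254) r0_307 r4_254 (nat_lit 0) (nat_lit 190947877) (nat_lit 0) (nat_lit 0x781662364) (nat_lit 856023289),
  Rx.mk (nat_lit 99) (nat_lit 3) (nat_lit 4) (nat_lit 1) (nat_lit 5) (nat_lit 308) (nat_lit 255) r0_308 r4_255 (nat_lit 0) (nat_lit 34510458) (nat_lit 0) (nat_lit 0x7fea14354) (nat_lit 574129370),
  Rx.mk (nat_lit 104) (nat_lit 0) (nat_lit 5) (nat_lit 1) (nat_lit 6) (nat_lit 310) (nat_lit 259) r0_310 r4_259 (nat_lit 25313016) (nat_lit 0) (nat_lit 0) (nat_lit 0x7f09601dc) (nat_lit 578840728),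
  Rx.mk (nat_lit 105) (nat_lit 1) (nat_lit 5) (nat_lit 1) (nat_lit 7) (nat_lit 312) (nat_lit 260) r0_312 r4_260 (nat_lit 0) (nat_lit 0) (nat_lit 0) (nat_lit 0x80abe37c8) (nat_lit 527783112),
  Rx.mk (nat_lit 107) (nat_lit 3) (nat_lit 5) (nat_lit 1) (nat_lit 7) (nat_lit 314) (nat_lit 261) r0_314 r4_261 (nat_lit 0) (nat_lit 0) (nat_lit 0) (nat_lit 0x8024ca73c) (nat_lit 536043112)]
noncomputable def e7_54 : List Rx := [
  Rx.mk (nat_lit 40) (nat_lit 0) (nat_lit 5) (nat_lit 0) (nat_lit 2) (nat_lit 322) (nat_lit 166) r0_322 r10_166 (nat_lit 17034488) (nat_lit 0) (nat_lit 14038217) (nat_lit 0x6f6e3009a) (nat_lit 836450667),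
  Rx.mk (nat_lit 41) (nat_lit 1) (nat_lit 5) (nat_lit 0) (nat_lit 3) (nat_lit 324) (nat_lit 168) r0_324 r10_168 (nat_lit 0) (nat_lit 0) (nat_lit 24924827) (nat_lit 0x7fc09e13c) (nat_lit 567146289),
  Rx.mk (nat_lit 43) (nat_lit 3) (nat_lit 5) (nat_lit 0) (nat_lit 3) (nat_lit 326) (nat_lit 170) r0_326 r10_170 (nat_lit 0) (nat_lit 0) (nat_lit 25781778) (nat_lit 0x7e4c3ec0c) (nat_lit 591158440),
  Rx.mk (nat_lit 104) (nat_lit 0) (nat_lit 5) (nat_lit 1) (nat_lit 6) (nat_lit 323) (nat_lit 167) r0_323 r10_167 (nat_lit 24741287) (nat_lit 0) (nat_lit 0) (nat_lit 0x8017985b4) (nat_lit 561612199),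
  Rx.mk (nat_lit 105) (nat_lit 1) (nat_lit 5) (nat_lit 1) (nat_lit 7) (nat_lit 325) (nat_lit 169) r0_325 r10_169 (nat_lit 0) (nat_lit 0) (nat_lit 0) (nat_lit 0x8017985b4) (nat_lit 536870912),
  Rx.mk (nat_lit 107) (nat_lit 3) (nat_lit 5) (nat_lit 1) (nat_lit 7) (nat_lit 327) (nat_lit 171) r0_327 r10_171 (nat_lit 0) (nat_lit 0) (nat_lit 0) (nat_lit 0x7ffa5b708) (nat_lit 538653612)]
noncomputable def e7_55 : List Rx := [
  Rx.mk (nat_lit 32) (nat_lit 0) (nat_lit 4) (nat_lit 0) (nat_lit 0) (nat_lit 342) (nat_lit 165) r0_342 r11_165 (nat_lit 27528448) (nat_lit 16543091) (nat_lit 61517721) (nat_lit 0x56389a70a) (nat_lit 1318729522),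
  Rx.mk (nat_lit 33) (nat_lit 1) (nat_lit 4) (nat_lit 0) (nat_lit 1) (nat_lit 344) (nat_lit 171) r0_344 r11_171 (nat_lit 0) (nat_lit 84020208) (nat_lit 36871294) (nat_lit 0x783359b98) (nat_lit 784659514),
  Rx.mk (nat_lit 35) (nat_lit 3) (nat_lit 4) (nat_lit 0) (nat_lit 1) (nat_lit 346) (nat_lit 177) r0_346 r11_177 (nat_lit 0) (nat_lit 31505454) (nat_lit 49484385) (nat_lit 0x786492660) (nat_lit 741673001),
  Rx.mk (nat_lit 40) (nat_lit 0) (nat_lit 5) (nat_lit 0) (nat_lit 2) (nat_lit 349) (nat_lit 166) r0_349 r11_166 (nat_lit 151143769) (nat_lit 0) (nat_lit 43084134) (nat_lit 0x7b5af1fae) (nat_lit 807011715),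
  Rx.mk (nat_lit 41) (nat_lit 1) (nat_lit 5) (nat_lit 0) (nat_lit 3) (nat_lit 351) (nat_lit 172) r0_351 r11_172 (nat_lit 0) (nat_lit 0) (nat_lit 24741287) (nat_lit 0x8017985b4) (nat_lit 561612199),
  Rx.mk (nat_lit 43) (nat_lit 3) (nat_lit 5) (nat_lit 0) (nat_lit 3) (nat_lit 353) (nat_lit 178) r0_353 r11_178 (nat_lit 0) (nat_lit 0) (nat_lit 27043959) (nat_lit 0x7fc599f24) (nat_lit 568952071),
  Rx.mk (nat_lit 56) (nat_lit 0) (nat_lit 7) (nat_lit 0) (nat_lit 2) (nat_lit 356) (nat_lit 167) r0_356 r11_167 (nat_lit 40023232) (nat_lit 0) (nat_lit 40023232) (nat_lit 0x7e12b2628) (nat_lit 649033426),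
  Rx.mk (nat_lit 57) (nat_lit 1) (nat_lit 7) (nat_lit 0) (nat_lit 3) (nat_lit 358) (nat_lit 173) r0_358 r11_173 (nat_lit 0) (nat_lit 0) (nat_lit 23550752) (nat_lit 0x804b6b5bc) (nat_lit 557203014),
  Rx.mk (nat_lit 96) (nat_lit 0) (nat_lit 4) (nat_lit 1) (nat_lit 4) (nat_lit 343) (nat_lit 168) r0_343 r11_168 (nat_lit 39863545) (nat_lit 97208642) (nat_lit 0) (nat_lit 0x7bb2e4220) (nat_lit 744358799),
  Rx.mk (nat_lit 97) (nat_lit 1) (nat_lit 4) (nat_lit 1) (nat_lit 5) (nat_lit 345) (nat_lit 174) r0_345 r11_174 (nat_lit 0) (nat_lit 66364716) (nat_lit 0) (nat_lit 0x7dacacf72) (nat_lit 641664678),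
  Rx.mk (nat_lit 99) (nat_lit 3) (nat_lit 4) (nat_lit 1) (nat_lit 5) (nat_lit 347) (nat_lit 179) r0_347 r11_179 (nat_lit 0) (nat_lit 24741287) (nat_lit 0) (nat_lit 0x8017985b4) (nat_lit 561612199),
  Rx.mk (nat_lit 104) (nat_lit 0) (nat_lit 5) (nat_lit 1) (nat_lit 6) (nat_lit 350) (nat_lit 169) r0_350 r11_169 (nat_lit 24741287) (nat_lit 0) (nat_lit 0) (nat_lit 0x8017985b4) (nat_lit 561612199),
  Rx.mk (nat_lit 105) (nat_lit 1) (nat_lit 5) (nat_lit 1) (nat_lit 7) (nat_lit 352) (nat_lit 175) r0_352 r11_175 (nat_lit 0) (nat_lit 0) (nat_lit 0) (nat_lit 0x8017985b4) (nat_lit 536870912),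
  Rx.mk (nat_lit 107) (nat_lit 3) (nat_lit 5) (nat_lit 1) (nat_lit 7) (nat_lit 354) (nat_lit 180) r0_354 r11_180 (nat_lit 0) (nat_lit 0) (nat_lit 0) (nat_lit 0x8017985b4) (nat_lit 536870912),
  Rx.mk (nat_lit 120) (nat_lit 0) (nat_lit 7) (nat_lit 1) (nat_lit 6) (nat_lit 357) (nat_lit 170) r0_357 r11_170 (nat_lit 24741287) (nat_lit 0) (nat_lit 0) (nat_lit 0x8017985b4) (nat_lit 561612199),
  Rx.mk (nat_lit 121) (nat_lit 1) (nat_lit 7) (nat_lit 1) (nat_lit 7) (nat_lit 359) (nat_lit 176) r0_359 r11_176 (nat_lit 0) (nat_lit 0) (nat_lit 0) (nat_lit 0x821f15f74) (nat_lit 505368512),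
  Rx.mk (nat_lit 227) (nat_lit 3) (nat_lit 4) (nat_lit 3) (nat_lit 5) (nat_lit 348) (nat_lit 181) r0_348 r11_181 (nat_lit 0) (nat_lit 24977480) (nat_lit 0) (nat_lit 0x7ff4c15ea) (nat_lit 563982842),
  Rx.mk (nat_lit 235) (nat_lit 3) (nat_lit 5) (nat_lit 3) (nat_lit 7) (nat_lit 355) (nat_lit 182) r0_355 r11_182 (nat_lit 0) (nat_lit 0) (nat_lit 0) (nat_lit 0x8017985b4) (nat_lit 536870912)]
noncomputable def e7_56 : List Rx := [
  Rx.mk (nat_lit 43) (nat_lit 3) (nat_lit 5) (nat_lit 0) (nat_lit 3) (nat_lit 316) (nat_lit 253) r0_316 r5_253 (nat_lit 0) (nat_lit 0) (nat_lit 6936321) (nat_lit 0x7b9f03d96) (nat_lit 615253533),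
  Rx.mk (nat_lit 99) (nat_lit 3) (nat_lit 4) (nat_lit 1) (nat_lit 5) (nat_lit 315) (nat_lit 252) r0_315 r5_252 (nat_lit 0) (nat_lit 10663228) (nat_lit 0) (nat_lit 0x7da55c5ce) (nat_lit 586217240),
  Rx.mk (nat_lit 107) (nat_lit 3) (nat_lit 5) (nat_lit 1) (nat_lit 7) (nat_lit 317) (nat_lit 254) r0_317 r5_254 (nat_lit 0) (nat_lit 0) (nat_lit 0) (nat_lit 0x8071fa930) (nat_lit 530954762)]
noncomputable def e7_57 : List Rx := [
  Rx.mk (nat_lit 43) (nat_lit 3) (nat_lit 5) (nat_lit 0) (nat_lit 3) (nat_lit 328) (nat_lit 298) r0_328 r11_298 (nat_lit 0) (nat_lit 0) (nat_lit 19793988) (nat_lit 0x801bf7722) (nat_lit 556379500),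
  Rx.mk (nat_lit 107) (nat_lit 3) (nat_lit 5) (nat_lit 1) (nat_lit 7) (nat_lit 329) (nat_lit 299) r0_329 r11_299 (nat_lit 0) (nat_lit 0) (nat_lit 0) (nat_lit 0x8017985b4) (nat_lit 536870912)]
noncomputable def e7 : List (List Rx) := [e7_0, e7_1, e7_2, e7_3, e7_4, e7_5, e7_6, e7_7, e7_8, e7_9, e7_10, e7_11, e7_12, e7_13, e7_14, e7_15, e7_16, e7_17, e7_18, e7_19, e7_20, e7_21, e7_22, e7_23, e7_24, e7_25, e7_26, e7_27, e7_28, e7_29, e7_30, e7_31, e7_32, e7_33, e7_34, e7_35, e7_36, e7_37, e7_38, e7_39, e7_40, e7_41, e7_42, e7_43, e7_44, e7_45, e7_46, e7_47, e7_48, e7_49, e7_50, e7_51, e7_52, e7_53, e7_54, e7_55, e7_56, e7_57]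
noncomputable def e8_0 : List Rx := [
  Rx.mk (nat_lit 359) (nat_lit 7) (nat_lit 4) (nat_lit 5) (nat_lit 5) (nat_lit 69) (nat_lit 76) r1_69 r0_76 (nat_lit 0) (nat_lit 21882932) (nat_lit 0) (nat_lit 0x7e18dc364) (nat_lit 590459594),
  Rx.mk (nat_lit 372) (nat_lit 4) (nat_lit 6) (nat_lit 5) (nat_lit 6) (nat_lit 70) (nat_lit 75) r1_70 r0_75 (nat_lit 11807158) (nat_lit 0) (nat_lit 0) (nat_lit 0x7ffe24146) (nat_lit 550115770),
  Rx.mk (nat_lit 375) (nat_lit 7) (nat_lit 6) (nat_lit 5) (nat_lit 7) (nat_lit 71) (nat_lit 78) r1_71 r0_78 (nat_lit 0) (nat_lit 0) (nat_lit 0) (nat_lit 0x8272ee83a) (nat_lit 500330612),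
  Rx.mk (nat_lit 383) (nat_lit 7) (nat_lit 7) (nat_lit 5) (nat_lit 7) (nat_lit 72) (nat_lit 77) r1_72 r0_77 (nat_lit 0) (nat_lit 0) (nat_lit 0) (nat_lit 0x8008dd830) (nat_lit 537772712)]
noncomputable def e8_1 : List Rx := [
  Rx.mk (nat_lit 295) (nat_lit 7) (nat_lit 4) (nat_lit 4) (nat_lit 1) (nat_lit 73) (nat_lit 75) r1_73 r1_75 (nat_lit 0) (nat_lit 31186734) (nat_lit 15490975) (nat_lit 0x737c3593e) (nat_lit 786645371),
  Rx.mk (nat_lit 308) (nat_lit 4) (nat_lit 6) (nat_lit 4) (nat_lit 2) (nat_lit 75) (nat_lit 73) r1_75 r1_73 (nat_lit 31186734) (nat_lit 0) (nat_lit 15490975) (nat_lit 0x737c3593e) (nat_lit 786645371),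
  Rx.mk (nat_lit 310) (nat_lit 6) (nat_lit 6) (nat_lit 4) (nat_lit 3) (nat_lit 77) (nat_lit 82) r1_77 r1_82 (nat_lit 0) (nat_lit 0) (nat_lit 24482746) (nat_lit 0x7fe0acf14) (nat_lit 564715758),
  Rx.mk (nat_lit 311) (nat_lit 7) (nat_lit 6) (nat_lit 4) (nat_lit 3) (nat_lit 80) (nat_lit 80) r1_80 r1_80 (nat_lit 0) (nat_lit 0) (nat_lit 11124082) (nat_lit 0x80f4f92b4) (nat_lit 534436844),
  Rx.mk (nat_lit 319) (nat_lit 7) (nat_lit 7) (nat_lit 4) (nat_lit 3) (nat_lit 82) (nat_lit 77) r1_82 r1_77 (nat_lit 0) (nat_lit 0) (nat_lit 24482746) (nat_lit 0x7fe0acf14) (nat_lit 564715758),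
  Rx.mk (nat_lit 359) (nat_lit 7) (nat_lit 4) (nat_lit 5) (nat_lit 5) (nat_lit 74) (nat_lit 76) r1_74 r1_76 (nat_lit 0) (nat_lit 21613846) (nat_lit 0) (nat_lit 0x803338576) (nat_lit 556779258),
  Rx.mk (nat_lit 372) (nat_lit 4) (nat_lit 6) (nat_lit 5) (nat_lit 6) (nat_lit 76) (nat_lit 74) r1_76 r1_74 (nat_lit 21613846) (nat_lit 0) (nat_lit 0) (nat_lit 0x803338576) (nat_lit 556779258),
  Rx.mk (nat_lit 374) (nat_lit 6) (nat_lit 6) (nat_lit 5) (nat_lit 7) (nat_lit 78) (nat_lit 83) r1_78 r1_83 (nat_lit 0) (nat_lit 0) (nat_lit 0) (nat_lit 0x8017985b4) (nat_lit 536870912),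
  Rx.mk (nat_lit 375) (nat_lit 7) (nat_lit 6) (nat_lit 5) (nat_lit 7) (nat_lit 81) (nat_lit 81) r1_81 r1_81 (nat_lit 0) (nat_lit 0) (nat_lit 0) (nat_lit 0x808fc0672) (nat_lit 529500412),
  Rx.mk (nat_lit 383) (nat_lit 7) (nat_lit 7) (nat_lit 5) (nat_lit 7) (nat_lit 83) (nat_lit 78) r1_83 r1_78 (nat_lit 0) (nat_lit 0) (nat_lit 0) (nat_lit 0x8017985b4) (nat_lit 536870912),
  Rx.mk (nat_lit 438) (nat_lit 6) (nat_lit 6) (nat_lit 6) (nat_lit 7) (nat_lit 79) (nat_lit 84) r1_79 r1_84 (nat_lit 0) (nat_lit 0) (nat_lit 0) (nat_lit 0x8017985b4) (nat_lit 536870912),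
  Rx.mk (nat_lit 511) (nat_lit 7) (nat_lit 7) (nat_lit 7) (nat_lit 7) (nat_lit 84) (nat_lit 79) r1_84 r1_79 (nat_lit 0) (nat_lit 0) (nat_lit 0) (nat_lit 0x8017985b4) (nat_lit 536870912)]
noncomputable def e8_2 : List Rx := [
  Rx.mk (nat_lit 295) (nat_lit 7) (nat_lit 4) (nat_lit 4) (nat_lit 1) (nat_lit 31) (nat_lit 76) r1_31 r2_76 (nat_lit 0) (nat_lit 28114446) (nat_lit 19918432) (nat_lit 0x712066600) (nat_lit 826141340),
  Rx.mk (nat_lit 308) (nat_lit 4) (nat_lit 6) (nat_lit 4) (nat_lit 2) (nat_lit 33) (nat_lit 75) r1_33 r2_75 (nat_lit 29030061) (nat_lit 0) (nat_lit 23439880) (nat_lit 0x6ea7937fc) (nat_lit 870542453),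
  Rx.mk (nat_lit 310) (nat_lit 6) (nat_lit 6) (nat_lit 4) (nat_lit 3) (nat_lit 34) (nat_lit 82) r1_34 r2_82 (nat_lit 0) (nat_lit 0) (nat_lit 24741287) (nat_lit 0x800662966) (nat_lit 562664999),
  Rx.mk (nat_lit 311) (nat_lit 7) (nat_lit 6) (nat_lit 4) (nat_lit 3) (nat_lit 36) (nat_lit 79) r1_36 r2_79 (nat_lit 0) (nat_lit 0) (nat_lit 12320371) (nat_lit 0x80de8e3da) (nat_lit 537025133),
  Rx.mk (nat_lit 406) (nat_lit 6) (nat_lit 2) (nat_lit 6) (nat_lit 7) (nat_lit 30) (nat_lit 81) r1_30 r2_81 (nat_lit 0) (nat_lit 0) (nat_lit 0) (nat_lit 0x8017985b4) (nat_lit 536870912),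
  Rx.mk (nat_lit 438) (nat_lit 6) (nat_lit 6) (nat_lit 6) (nat_lit 7) (nat_lit 35) (nat_lit 83) r1_35 r2_83 (nat_lit 0) (nat_lit 0) (nat_lit 0) (nat_lit 0x8017985b4) (nat_lit 536870912),
  Rx.mk (nat_lit 487) (nat_lit 7) (nat_lit 4) (nat_lit 7) (nat_lit 5) (nat_lit 32) (nat_lit 77) r1_32 r2_77 (nat_lit 0) (nat_lit 35404402) (nat_lit 0) (nat_lit 0x7ebadf3d2) (nat_lit 593887464),
  Rx.mk (nat_lit 503) (nat_lit 7) (nat_lit 6) (nat_lit 7) (nat_lit 7) (nat_lit 37) (nat_lit 80) r1_37 r2_80 (nat_lit 0) (nat_lit 0) (nat_lit 0) (nat_lit 0x804b9beec) (nat_lit 533672912),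
  Rx.mk (nat_lit 511) (nat_lit 7) (nat_lit 7) (nat_lit 7) (nat_lit 7) (nat_lit 38) (nat_lit 78) r1_38 r2_78 (nat_lit 0) (nat_lit 0) (nat_lit 0) (nat_lit 0x8017985b4) (nat_lit 536870912)]
noncomputable def e8_3 : List Rx := [
  Rx.mk (nat_lit 103) (nat_lit 7) (nat_lit 4) (nat_lit 1) (nat_lit 5) (nat_lit 66) (nat_lit 68) r1_66 r3_68 (nat_lit 0) (nat_lit 15428) (nat_lit 0) (nat_lit 0x81eea1d52) (nat_lit 507420490),
  Rx.mk (nat_lit 359) (nat_lit 7) (nat_lit 4) (nat_lit 5) (nat_lit 5) (nat_lit 67) (nat_lit 69) r1_67 r3_69 (nat_lit 0) (nat_lit 187256) (nat_lit 0) (nat_lit 0x7e7e37ede) (nat_lit 561441168),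
  Rx.mk (nat_lit 383) (nat_lit 7) (nat_lit 7) (nat_lit 5) (nat_lit 7) (nat_lit 68) (nat_lit 70) r1_68 r3_70 (nat_lit 0) (nat_lit 0) (nat_lit 0) (nat_lit 0x802f26848) (nat_lit 535238762)]
noncomputable def e8_4 : List Rx := [
  Rx.mk (nat_lit 359) (nat_lit 7) (nat_lit 4) (nat_lit 5) (nat_lit 5) (nat_lit 85) (nat_lit 71) r1_85 r4_71 (nat_lit 0) (nat_lit 18076853) (nat_lit 0) (nat_lit 0x7feb22318) (nat_lit 557573915),
  Rx.mk (nat_lit 375) (nat_lit 7) (nat_lit 6) (nat_lit 5) (nat_lit 7) (nat_lit 86) (nat_lit 73) r1_86 r4_73 (nat_lit 0) (nat_lit 0) (nat_lit 0) (nat_lit 0x8445fa28c) (nat_lit 472429712),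
  Rx.mk (nat_lit 383) (nat_lit 7) (nat_lit 7) (nat_lit 5) (nat_lit 7) (nat_lit 87) (nat_lit 72) r1_87 r4_72 (nat_lit 0) (nat_lit 0) (nat_lit 0) (nat_lit 0x8017985b4) (nat_lit 536870912)]
noncomputable def e8_5 : List Rx := [
  Rx.mk (nat_lit 103) (nat_lit 7) (nat_lit 4) (nat_lit 1) (nat_lit 5) (nat_lit 91) (nat_lit 63) r1_91 r5_63 (nat_lit 0) (nat_lit 3579826) (nat_lit 0) (nat_lit 0x811e759ee) (nat_lit 524029388),
  Rx.mk (nat_lit 127) (nat_lit 7) (nat_lit 7) (nat_lit 1) (nat_lit 7) (nat_lit 92) (nat_lit 64) r1_92 r5_64 (nat_lit 0) (nat_lit 0) (nat_lit 0) (nat_lit 0x79fc7a418) (nat_lit 634642712),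
  Rx.mk (nat_lit 383) (nat_lit 7) (nat_lit 7) (nat_lit 5) (nat_lit 7) (nat_lit 93) (nat_lit 65) r1_93 r5_65 (nat_lit 0) (nat_lit 0) (nat_lit 0) (nat_lit 0x7fd333eb4) (nat_lit 540973512)]
noncomputable def e8_6 : List Rx := [
  Rx.mk (nat_lit 24) (nat_lit 0) (nat_lit 3) (nat_lit 0) (nat_lit 2) (nat_lit 39) (nat_lit 13) r1_39 r3_13 (nat_lit 10635) (nat_lit 0) (nat_lit 4286) (nat_lit 0x80094492c) (nat_lit 536338983),
  Rx.mk (nat_lit 27) (nat_lit 3) (nat_lit 3) (nat_lit 0) (nat_lit 3) (nat_lit 43) (nat_lit 16) r1_43 r3_16 (nat_lit 0) (nat_lit 0) (nat_lit 2704556) (nat_lit 0x7c015df14) (nat_lit 604691568),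
  Rx.mk (nat_lit 59) (nat_lit 3) (nat_lit 7) (nat_lit 0) (nat_lit 3) (nat_lit 46) (nat_lit 10) r1_46 r3_10 (nat_lit 0) (nat_lit 0) (nat_lit 47983) (nat_lit 0x75459b28c) (nat_lit 710414795),
  Rx.mk (nat_lit 88) (nat_lit 0) (nat_lit 3) (nat_lit 1) (nat_lit 6) (nat_lit 40) (nat_lit 14) r1_40 r3_14 (nat_lit 15940000) (nat_lit 0) (nat_lit 0) (nat_lit 0x805843974) (nat_lit 548544762),
  Rx.mk (nat_lit 91) (nat_lit 3) (nat_lit 3) (nat_lit 1) (nat_lit 7) (nat_lit 44) (nat_lit 17) r1_44 r3_17 (nat_lit 0) (nat_lit 0) (nat_lit 0) (nat_lit 0x80652468e) (nat_lit 532033562),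
  Rx.mk (nat_lit 123) (nat_lit 3) (nat_lit 7) (nat_lit 1) (nat_lit 7) (nat_lit 47) (nat_lit 11) r1_47 r3_11 (nat_lit 0) (nat_lit 0) (nat_lit 0) (nat_lit 0x8b1948f84) (nat_lit 368104412),
  Rx.mk (nat_lit 152) (nat_lit 0) (nat_lit 3) (nat_lit 2) (nat_lit 6) (nat_lit 41) (nat_lit 15) r1_41 r3_15 (nat_lit 7553870) (nat_lit 0) (nat_lit 0) (nat_lit 0x7902075f8) (nat_lit 658039182),
  Rx.mk (nat_lit 154) (nat_lit 2) (nat_lit 3) (nat_lit 2) (nat_lit 7) (nat_lit 42) (nat_lit 19) r1_42 r3_19 (nat_lit 0) (nat_lit 0) (nat_lit 0) (nat_lit 0x80556b2ba) (nat_lit 532838362),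
  Rx.mk (nat_lit 155) (nat_lit 3) (nat_lit 3) (nat_lit 2) (nat_lit 7) (nat_lit 45) (nat_lit 18) r1_45 r3_18 (nat_lit 0) (nat_lit 0) (nat_lit 0) (nat_lit 0x7fd885e1c) (nat_lit 540659262),
  Rx.mk (nat_lit 251) (nat_lit 3) (nat_lit 7) (nat_lit 3) (nat_lit 7) (nat_lit 48) (nat_lit 12) r1_48 r3_12 (nat_lit 0) (nat_lit 0) (nat_lit 0) (nat_lit 0x80a93acb0) (nat_lit 527952812),
  Rx.mk (nat_lit 255) (nat_lit 7) (nat_lit 7) (nat_lit 3) (nat_lit 7) (nat_lit 49) (nat_lit 9) r1_49 r3_9 (nat_lit 0) (nat_lit 0) (nat_lit 0) (nat_lit 0x805620b38) (nat_lit 533027112)]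
noncomputable def e8_7 : List Rx := [
  Rx.mk (nat_lit 24) (nat_lit 0) (nat_lit 3) (nat_lit 0) (nat_lit 2) (nat_lit 2) (nat_lit 23) r1_2 r0_23 (nat_lit 5604383) (nat_lit 0) (nat_lit 3151689) (nat_lit 0x6d7564e26) (nat_lit 845928484),
  Rx.mk (nat_lit 27) (nat_lit 3) (nat_lit 3) (nat_lit 0) (nat_lit 3) (nat_lit 5) (nat_lit 25) r1_5 r0_25 (nat_lit 0) (nat_lit 0) (nat_lit 8756247) (nat_lit 0x7bbb71c80) (nat_lit 615374609),
  Rx.mk (nat_lit 130) (nat_lit 2) (nat_lit 0) (nat_lit 2) (nat_lit 5) (nat_lit 0) (nat_lit 22) r1_0 r0_22 (nat_lit 0) (nat_lit 23596477) (nat_lit 0) (nat_lit 0x69c6e3bc0) (nat_lit 920472039),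
  Rx.mk (nat_lit 146) (nat_lit 2) (nat_lit 2) (nat_lit 2) (nat_lit 7) (nat_lit 1) (nat_lit 29) r1_1 r0_29 (nat_lit 0) (nat_lit 0) (nat_lit 0) (nat_lit 0x807eeb3e2) (nat_lit 530392612),
  Rx.mk (nat_lit 152) (nat_lit 0) (nat_lit 3) (nat_lit 2) (nat_lit 6) (nat_lit 3) (nat_lit 24) r1_3 r0_24 (nat_lit 22794505) (nat_lit 0) (nat_lit 0) (nat_lit 0x7f395dd58) (nat_lit 573339467),
  Rx.mk (nat_lit 154) (nat_lit 2) (nat_lit 3) (nat_lit 2) (nat_lit 7) (nat_lit 4) (nat_lit 28) r1_4 r0_28 (nat_lit 0) (nat_lit 0) (nat_lit 0) (nat_lit 0x87136526a) (nat_lit 429577662),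
  Rx.mk (nat_lit 155) (nat_lit 3) (nat_lit 3) (nat_lit 2) (nat_lit 7) (nat_lit 6) (nat_lit 27) r1_6 r0_27 (nat_lit 0) (nat_lit 0) (nat_lit 0) (nat_lit 0x80362d196) (nat_lit 534989612),
  Rx.mk (nat_lit 219) (nat_lit 3) (nat_lit 3) (nat_lit 3) (nat_lit 7) (nat_lit 7) (nat_lit 26) r1_7 r0_26 (nat_lit 0) (nat_lit 0) (nat_lit 0) (nat_lit 0x801bfa5bc) (nat_lit 536589212),
  Rx.mk (nat_lit 251) (nat_lit 3) (nat_lit 7) (nat_lit 3) (nat_lit 7) (nat_lit 8) (nat_lit 21) r1_8 r0_21 (nat_lit 0) (nat_lit 0) (nat_lit 0) (nat_lit 0x807414446) (nat_lit 531187112),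
  Rx.mk (nat_lit 255) (nat_lit 7) (nat_lit 7) (nat_lit 3) (nat_lit 7) (nat_lit 9) (nat_lit 20) r1_9 r0_20 (nat_lit 0) (nat_lit 0) (nat_lit 0) (nat_lit 0x802da032a) (nat_lit 535514012)]
noncomputable def e8_8 : List Rx := [
  Rx.mk (nat_lit 24) (nat_lit 0) (nat_lit 3) (nat_lit 0) (nat_lit 2) (nat_lit 14) (nat_lit 21) r1_14 r1_21 (nat_lit 58909) (nat_lit 0) (nat_lit 48891) (nat_lit 0x7cd668c7c) (nat_lit 588136762),
  Rx.mk (nat_lit 27) (nat_lit 3) (nat_lit 3) (nat_lit 0) (nat_lit 3) (nat_lit 17) (nat_lit 23) r1_17 r1_23 (nat_lit 0) (nat_lit 0) (nat_lit 76678) (nat_lit 0x8003c0140) (nat_lit 536772290),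
  Rx.mk (nat_lit 130) (nat_lit 2) (nat_lit 0) (nat_lit 2) (nat_lit 5) (nat_lit 10) (nat_lit 20) r1_10 r1_20 (nat_lit 0) (nat_lit 16883735) (nat_lit 0) (nat_lit 0x6e23773e2) (nat_lit 843227197),
  Rx.mk (nat_lit 146) (nat_lit 2) (nat_lit 2) (nat_lit 2) (nat_lit 7) (nat_lit 11) (nat_lit 29) r1_11 r1_29 (nat_lit 0) (nat_lit 0) (nat_lit 0) (nat_lit 0x8082a427c) (nat_lit 530175062),
  Rx.mk (nat_lit 152) (nat_lit 0) (nat_lit 3) (nat_lit 2) (nat_lit 6) (nat_lit 15) (nat_lit 22) r1_15 r1_22 (nat_lit 14214021) (nat_lit 0) (nat_lit 0) (nat_lit 0x7fbeb8f98) (nat_lit 556417033),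
  Rx.mk (nat_lit 154) (nat_lit 2) (nat_lit 3) (nat_lit 2) (nat_lit 7) (nat_lit 16) (nat_lit 26) r1_16 r1_26 (nat_lit 0) (nat_lit 0) (nat_lit 0) (nat_lit 0x806722120) (nat_lit 530972362),
  Rx.mk (nat_lit 155) (nat_lit 3) (nat_lit 3) (nat_lit 2) (nat_lit 7) (nat_lit 18) (nat_lit 25) r1_18 r1_25 (nat_lit 0) (nat_lit 0) (nat_lit 0) (nat_lit 0x806b840b0) (nat_lit 531718612),
  Rx.mk (nat_lit 219) (nat_lit 3) (nat_lit 3) (nat_lit 3) (nat_lit 7) (nat_lit 19) (nat_lit 24) r1_19 r1_24 (nat_lit 0) (nat_lit 0) (nat_lit 0) (nat_lit 0x7fbfdde82) (nat_lit 542221012),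
  Rx.mk (nat_lit 251) (nat_lit 3) (nat_lit 7) (nat_lit 3) (nat_lit 7) (nat_lit 27) (nat_lit 13) r1_27 r1_13 (nat_lit 0) (nat_lit 0) (nat_lit 0) (nat_lit 0x800f8b876) (nat_lit 537285412),
  Rx.mk (nat_lit 255) (nat_lit 7) (nat_lit 7) (nat_lit 3) (nat_lit 7) (nat_lit 28) (nat_lit 12) r1_28 r1_12 (nat_lit 0) (nat_lit 0) (nat_lit 0) (nat_lit 0x806110df4) (nat_lit 532352862),
  Rx.mk (nat_lit 308) (nat_lit 4) (nat_lit 6) (nat_lit 4) (nat_lit 2) (nat_lit 21) (nat_lit 14) r1_21 r1_14 (nat_lit 58909) (nat_lit 0) (nat_lit 48891) (nat_lit 0x7cd668c7c) (nat_lit 588136762),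
  Rx.mk (nat_lit 310) (nat_lit 6) (nat_lit 6) (nat_lit 4) (nat_lit 3) (nat_lit 23) (nat_lit 17) r1_23 r1_17 (nat_lit 0) (nat_lit 0) (nat_lit 76678) (nat_lit 0x8003c0140) (nat_lit 536772290),
  Rx.mk (nat_lit 402) (nat_lit 2) (nat_lit 2) (nat_lit 6) (nat_lit 7) (nat_lit 12) (nat_lit 28) r1_12 r1_28 (nat_lit 0) (nat_lit 0) (nat_lit 0) (nat_lit 0x806110df4) (nat_lit 532352862),
  Rx.mk (nat_lit 406) (nat_lit 6) (nat_lit 2) (nat_lit 6) (nat_lit 7) (nat_lit 13) (nat_lit 27) r1_13 r1_27 (nat_lit 0) (nat_lit 0) (nat_lit 0) (nat_lit 0x800f8b876) (nat_lit 537285412),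
  Rx.mk (nat_lit 438) (nat_lit 6) (nat_lit 6) (nat_lit 6) (nat_lit 7) (nat_lit 24) (nat_lit 19) r1_24 r1_19 (nat_lit 0) (nat_lit 0) (nat_lit 0) (nat_lit 0x7fbfdde82) (nat_lit 542221012),
  Rx.mk (nat_lit 487) (nat_lit 7) (nat_lit 4) (nat_lit 7) (nat_lit 5) (nat_lit 20) (nat_lit 10) r1_20 r1_10 (nat_lit 0) (nat_lit 16883735) (nat_lit 0) (nat_lit 0x6e23773e2) (nat_lit 843227197),
  Rx.mk (nat_lit 500) (nat_lit 4) (nat_lit 6) (nat_lit 7) (nat_lit 6) (nat_lit 22) (nat_lit 15) r1_22 r1_15 (nat_lit 14214021) (nat_lit 0) (nat_lit 0) (nat_lit 0x7fbeb8f98) (nat_lit 556417033),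
  Rx.mk (nat_lit 502) (nat_lit 6) (nat_lit 6) (nat_lit 7) (nat_lit 7) (nat_lit 25) (nat_lit 18) r1_25 r1_18 (nat_lit 0) (nat_lit 0) (nat_lit 0) (nat_lit 0x806b840b0) (nat_lit 531718612),
  Rx.mk (nat_lit 503) (nat_lit 7) (nat_lit 6) (nat_lit 7) (nat_lit 7) (nat_lit 26) (nat_lit 16) r1_26 r1_16 (nat_lit 0) (nat_lit 0) (nat_lit 0) (nat_lit 0x806722120) (nat_lit 530972362),
  Rx.mk (nat_lit 511) (nat_lit 7) (nat_lit 7) (nat_lit 7) (nat_lit 7) (nat_lit 29) (nat_lit 11) r1_29 r1_11 (nat_lit 0) (nat_lit 0) (nat_lit 0) (nat_lit 0x8082a427c) (nat_lit 530175062)]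
noncomputable def e8_9 : List Rx := [
  Rx.mk (nat_lit 24) (nat_lit 0) (nat_lit 3) (nat_lit 0) (nat_lit 2) (nat_lit 50) (nat_lit 16) r1_50 r4_16 (nat_lit 67051359) (nat_lit 0) (nat_lit 12415695) (nat_lit 0x6dd5f0330) (nat_lit 910715916),
  Rx.mk (nat_lit 27) (nat_lit 3) (nat_lit 3) (nat_lit 0) (nat_lit 3) (nat_lit 53) (nat_lit 18) r1_53 r4_18 (nat_lit 0) (nat_lit 0) (nat_lit 18565138) (nat_lit 0x7e088a2e0) (nat_lit 588194500),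
  Rx.mk (nat_lit 59) (nat_lit 3) (nat_lit 7) (nat_lit 0) (nat_lit 3) (nat_lit 55) (nat_lit 14) r1_55 r4_14 (nat_lit 0) (nat_lit 0) (nat_lit 13824857) (nat_lit 0x8053119f6) (nat_lit 546991619),
  Rx.mk (nat_lit 152) (nat_lit 0) (nat_lit 3) (nat_lit 2) (nat_lit 6) (nat_lit 51) (nat_lit 17) r1_51 r4_17 (nat_lit 32103431) (nat_lit 0) (nat_lit 0) (nat_lit 0x7f4592056) (nat_lit 581897443),
  Rx.mk (nat_lit 154) (nat_lit 2) (nat_lit 3) (nat_lit 2) (nat_lit 7) (nat_lit 52) (nat_lit 20) r1_52 r4_20 (nat_lit 0) (nat_lit 0) (nat_lit 0) (nat_lit 0x8256757bc) (nat_lit 501986312),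
  Rx.mk (nat_lit 155) (nat_lit 3) (nat_lit 3) (nat_lit 2) (nat_lit 7) (nat_lit 54) (nat_lit 19) r1_54 r4_19 (nat_lit 0) (nat_lit 0) (nat_lit 0) (nat_lit 0x8017985b4) (nat_lit 536870912),
  Rx.mk (nat_lit 251) (nat_lit 3) (nat_lit 7) (nat_lit 3) (nat_lit 7) (nat_lit 56) (nat_lit 15) r1_56 r4_15 (nat_lit 0) (nat_lit 0) (nat_lit 0) (nat_lit 0x8078ceb44) (nat_lit 530903862),
  Rx.mk (nat_lit 255) (nat_lit 7) (nat_lit 7) (nat_lit 3) (nat_lit 7) (nat_lit 57) (nat_lit 13) r1_57 r4_13 (nat_lit 0) (nat_lit 0) (nat_lit 0) (nat_lit 0x8007403f6) (nat_lit 537871262)]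
noncomputable def e8_10 : List Rx := [
  Rx.mk (nat_lit 103) (nat_lit 7) (nat_lit 4) (nat_lit 1) (nat_lit 5) (nat_lit 88) (nat_lit 57) r1_88 r6_57 (nat_lit 0) (nat_lit 14248724) (nat_lit 0) (nat_lit 0x80a26753c) (nat_lit 542542486),
  Rx.mk (nat_lit 123) (nat_lit 3) (nat_lit 7) (nat_lit 1) (nat_lit 7) (nat_lit 89) (nat_lit 56) r1_89 r6_56 (nat_lit 0) (nat_lit 0) (nat_lit 0) (nat_lit 0x8954d7890) (nat_lit 395152462),
  Rx.mk (nat_lit 127) (nat_lit 7) (nat_lit 7) (nat_lit 1) (nat_lit 7) (nat_lit 90) (nat_lit 58) r1_90 r6_58 (nat_lit 0) (nat_lit 0) (nat_lit 0) (nat_lit 0x80add07a2) (nat_lit 527662962)]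
noncomputable def e8_11 : List Rx := [
  Rx.mk (nat_lit 27) (nat_lit 3) (nat_lit 3) (nat_lit 0) (nat_lit 3) (nat_lit 58) (nat_lit 11) r1_58 r5_11 (nat_lit 0) (nat_lit 0) (nat_lit 6051545) (nat_lit 0x72f5acc5a) (nat_lit 754383857),
  Rx.mk (nat_lit 59) (nat_lit 3) (nat_lit 7) (nat_lit 0) (nat_lit 3) (nat_lit 61) (nat_lit 9) r1_61 r5_9 (nat_lit 0) (nat_lit 0) (nat_lit 3702159) (nat_lit 0x6eab69304) (nat_lit 821330421),
  Rx.mk (nat_lit 63) (nat_lit 7) (nat_lit 7) (nat_lit 0) (nat_lit 3) (nat_lit 63) (nat_lit 6) r1_63 r5_6 (nat_lit 0) (nat_lit 0) (nat_lit 10795266) (nat_lit 0x6d3a97438) (nat_lit 851857228),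
  Rx.mk (nat_lit 91) (nat_lit 3) (nat_lit 3) (nat_lit 1) (nat_lit 7) (nat_lit 59) (nat_lit 12) r1_59 r5_12 (nat_lit 0) (nat_lit 0) (nat_lit 0) (nat_lit 0x814d8e96a) (nat_lit 517942162),
  Rx.mk (nat_lit 123) (nat_lit 3) (nat_lit 7) (nat_lit 1) (nat_lit 7) (nat_lit 62) (nat_lit 10) r1_62 r5_10 (nat_lit 0) (nat_lit 0) (nat_lit 0) (nat_lit 0x8270dea40) (nat_lit 500473562),
  Rx.mk (nat_lit 127) (nat_lit 7) (nat_lit 7) (nat_lit 1) (nat_lit 7) (nat_lit 64) (nat_lit 7) r1_64 r5_7 (nat_lit 0) (nat_lit 0) (nat_lit 0) (nat_lit 0x8038a520c) (nat_lit 534837962),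
  Rx.mk (nat_lit 155) (nat_lit 3) (nat_lit 3) (nat_lit 2) (nat_lit 7) (nat_lit 60) (nat_lit 13) r1_60 r5_13 (nat_lit 0) (nat_lit 0) (nat_lit 0) (nat_lit 0x7fe62a1bc) (nat_lit 539838662),
  Rx.mk (nat_lit 255) (nat_lit 7) (nat_lit 7) (nat_lit 3) (nat_lit 7) (nat_lit 65) (nat_lit 8) r1_65 r5_8 (nat_lit 0) (nat_lit 0) (nat_lit 0) (nat_lit 0x8009d4658) (nat_lit 537721562)]
noncomputable def e8_12 : List Rx := [
  Rx.mk (nat_lit 100) (nat_lit 4) (nat_lit 4) (nat_lit 1) (nat_lit 4) (nat_lit 179) (nat_lit 269) r1_179 r0_269 (nat_lit 62636) (nat_lit 1205034172) (nat_lit 0) (nat_lit 0x802a2cad6) (nat_lit 1739481320),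
  Rx.mk (nat_lit 101) (nat_lit 5) (nat_lit 4) (nat_lit 1) (nat_lit 5) (nat_lit 181) (nat_lit 270) r1_181 r0_270 (nat_lit 0) (nat_lit 72480076) (nat_lit 0) (nat_lit 0x7991dfe78) (nat_lit 713984088),
  Rx.mk (nat_lit 356) (nat_lit 4) (nat_lit 4) (nat_lit 5) (nat_lit 4) (nat_lit 180) (nat_lit 265) r1_180 r0_265 (nat_lit 14461079) (nat_lit 67542365) (nat_lit 0) (nat_lit 0x5cc089d90) (nat_lit 1189508356),
  Rx.mk (nat_lit 357) (nat_lit 5) (nat_lit 4) (nat_lit 5) (nat_lit 5) (nat_lit 182) (nat_lit 266) r1_182 r0_266 (nat_lit 0) (nat_lit 30433232) (nat_lit 0) (nat_lit 0x7d7bf805c) (nat_lit 608923094),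
  Rx.mk (nat_lit 359) (nat_lit 7) (nat_lit 4) (nat_lit 5) (nat_lit 5) (nat_lit 183) (nat_lit 267) r1_183 r0_267 (nat_lit 0) (nat_lit 99141069) (nat_lit 0) (nat_lit 0x7f0a1588e) (nat_lit 652491131),
  Rx.mk (nat_lit 383) (nat_lit 7) (nat_lit 7) (nat_lit 5) (nat_lit 7) (nat_lit 184) (nat_lit 268) r1_184 r0_268 (nat_lit 0) (nat_lit 0) (nat_lit 0) (nat_lit 0x7c86d8338) (nat_lit 593842712)]
noncomputable def e8_13 : List Rx := [
  Rx.mk (nat_lit 356) (nat_lit 4) (nat_lit 4) (nat_lit 5) (nat_lit 4) (nat_lit 192) (nat_lit 64) r1_192 r7_64 (nat_lit 16757287) (nat_lit 25112477) (nat_lit 0) (nat_lit 0x6c3762d4a) (nat_lit 899304226),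
  Rx.mk (nat_lit 357) (nat_lit 5) (nat_lit 4) (nat_lit 5) (nat_lit 5) (nat_lit 193) (nat_lit 66) r1_193 r7_66 (nat_lit 0) (nat_lit 25314926) (nat_lit 0) (nat_lit 0x7f9e34eca) (nat_lit 569620288),
  Rx.mk (nat_lit 359) (nat_lit 7) (nat_lit 4) (nat_lit 5) (nat_lit 5) (nat_lit 194) (nat_lit 68) r1_194 r7_68 (nat_lit 0) (nat_lit 30395325) (nat_lit 0) (nat_lit 0x809096c2c) (nat_lit 559824137),
  Rx.mk (nat_lit 372) (nat_lit 4) (nat_lit 6) (nat_lit 5) (nat_lit 6) (nat_lit 195) (nat_lit 65) r1_195 r7_65 (nat_lit 19851321) (nat_lit 0) (nat_lit 0) (nat_lit 0x80224bf92) (nat_lit 556043533),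
  Rx.mk (nat_lit 373) (nat_lit 5) (nat_lit 6) (nat_lit 5) (nat_lit 7) (nat_lit 196) (nat_lit 67) r1_196 r7_67 (nat_lit 0) (nat_lit 0) (nat_lit 0) (nat_lit 0x8017985b4) (nat_lit 536870912),
  Rx.mk (nat_lit 375) (nat_lit 7) (nat_lit 6) (nat_lit 5) (nat_lit 7) (nat_lit 197) (nat_lit 70) r1_197 r7_70 (nat_lit 0) (nat_lit 0) (nat_lit 0) (nat_lit 0x8017985b4) (nat_lit 536870912),
  Rx.mk (nat_lit 383) (nat_lit 7) (nat_lit 7) (nat_lit 5) (nat_lit 7) (nat_lit 198) (nat_lit 69) r1_198 r7_69 (nat_lit 0) (nat_lit 0) (nat_lit 0) (nat_lit 0x8018dbc28) (nat_lit 536671062)]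
noncomputable def e8_14 : List Rx := [
  Rx.mk (nat_lit 101) (nat_lit 5) (nat_lit 4) (nat_lit 1) (nat_lit 5) (nat_lit 185) (nat_lit 273) r1_185 r1_273 (nat_lit 0) (nat_lit 27314648) (nat_lit 0) (nat_lit 0x7fc62ebb0) (nat_lit 569113310),
  Rx.mk (nat_lit 357) (nat_lit 5) (nat_lit 4) (nat_lit 5) (nat_lit 5) (nat_lit 186) (nat_lit 272) r1_186 r1_272 (nat_lit 0) (nat_lit 25191095) (nat_lit 0) (nat_lit 0x7f94f86e0) (nat_lit 570102157)]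
noncomputable def e8_15 : List Rx := [
  Rx.mk (nat_lit 357) (nat_lit 5) (nat_lit 4) (nat_lit 5) (nat_lit 5) (nat_lit 199) (nat_lit 66) r1_199 r8_66 (nat_lit 0) (nat_lit 24741287) (nat_lit 0) (nat_lit 0x8001ac32c) (nat_lit 562953699),
  Rx.mk (nat_lit 373) (nat_lit 5) (nat_lit 6) (nat_lit 5) (nat_lit 7) (nat_lit 200) (nat_lit 67) r1_200 r8_67 (nat_lit 0) (nat_lit 0) (nat_lit 0) (nat_lit 0x8017985b4) (nat_lit 536870912)]
noncomputable def e8_16 : List Rx := [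
  Rx.mk (nat_lit 292) (nat_lit 4) (nat_lit 4) (nat_lit 4) (nat_lit 0) (nat_lit 201) (nat_lit 283) r1_201 r8_283 (nat_lit 20700425) (nat_lit 34852659) (nat_lit 11826643) (nat_lit 0x3dc59600a) (nat_lit 1675850589),
  Rx.mk (nat_lit 295) (nat_lit 7) (nat_lit 4) (nat_lit 4) (nat_lit 1) (nat_lit 204) (nat_lit 284) r1_204 r8_284 (nat_lit 0) (nat_lit 57475971) (nat_lit 26799246) (nat_lit 0x672d75b5c) (nat_lit 1023262029),
  Rx.mk (nat_lit 308) (nat_lit 4) (nat_lit 6) (nat_lit 4) (nat_lit 2) (nat_lit 206) (nat_lit 286) r1_206 r8_286 (nat_lit 33972801) (nat_lit 0) (nat_lit 31654428) (nat_lit 0x6c187865a) (nat_lit 925088641),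
  Rx.mk (nat_lit 310) (nat_lit 6) (nat_lit 6) (nat_lit 4) (nat_lit 3) (nat_lit 209) (nat_lit 288) r1_209 r8_288 (nat_lit 0) (nat_lit 0) (nat_lit 24741287) (nat_lit 0x8017985b4) (nat_lit 561612199),
  Rx.mk (nat_lit 311) (nat_lit 7) (nat_lit 6) (nat_lit 4) (nat_lit 3) (nat_lit 212) (nat_lit 287) r1_212 r8_287 (nat_lit 0) (nat_lit 0) (nat_lit 24741287) (nat_lit 0x8017985b4) (nat_lit 561612199),
  Rx.mk (nat_lit 319) (nat_lit 7) (nat_lit 7) (nat_lit 4) (nat_lit 3) (nat_lit 214) (nat_lit 285) r1_214 r8_285 (nat_lit 0) (nat_lit 0) (nat_lit 25082552) (nat_lit 0x71434a6d0) (nat_lit 800991214),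
  Rx.mk (nat_lit 356) (nat_lit 4) (nat_lit 4) (nat_lit 5) (nat_lit 4) (nat_lit 202) (nat_lit 289) r1_202 r8_289 (nat_lit 32376877) (nat_lit 29801349) (nat_lit 0) (nat_lit 0x669a3f496) (nat_lit 1010443188),
  Rx.mk (nat_lit 357) (nat_lit 5) (nat_lit 4) (nat_lit 5) (nat_lit 5) (nat_lit 203) (nat_lit 290) r1_203 r8_290 (nat_lit 0) (nat_lit 25018304) (nat_lit 0) (nat_lit 0x7fdcdbf2a) (nat_lit 565476766),
  Rx.mk (nat_lit 359) (nat_lit 7) (nat_lit 4) (nat_lit 5) (nat_lit 5) (nat_lit 205) (nat_lit 291) r1_205 r8_291 (nat_lit 0) (nat_lit 25047671) (nat_lit 0) (nat_lit 0x804337652) (nat_lit 559218933),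
  Rx.mk (nat_lit 372) (nat_lit 4) (nat_lit 6) (nat_lit 5) (nat_lit 6) (nat_lit 207) (nat_lit 293) r1_207 r8_293 (nat_lit 25834482) (nat_lit 0) (nat_lit 0) (nat_lit 0x7f77d0d42) (nat_lit 572534144),
  Rx.mk (nat_lit 373) (nat_lit 5) (nat_lit 6) (nat_lit 5) (nat_lit 7) (nat_lit 208) (nat_lit 294) r1_208 r8_294 (nat_lit 0) (nat_lit 0) (nat_lit 0) (nat_lit 0x8017985b4) (nat_lit 536870912),
  Rx.mk (nat_lit 374) (nat_lit 6) (nat_lit 6) (nat_lit 5) (nat_lit 7) (nat_lit 210) (nat_lit 296) r1_210 r8_296 (nat_lit 0) (nat_lit 0) (nat_lit 0) (nat_lit 0x8017985b4) (nat_lit 536870912),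
  Rx.mk (nat_lit 375) (nat_lit 7) (nat_lit 6) (nat_lit 5) (nat_lit 7) (nat_lit 213) (nat_lit 295) r1_213 r8_295 (nat_lit 0) (nat_lit 0) (nat_lit 0) (nat_lit 0x8017985b4) (nat_lit 536870912),
  Rx.mk (nat_lit 383) (nat_lit 7) (nat_lit 7) (nat_lit 5) (nat_lit 7) (nat_lit 215) (nat_lit 292) r1_215 r8_292 (nat_lit 0) (nat_lit 0) (nat_lit 0) (nat_lit 0x808e1a7dc) (nat_lit 529571662),
  Rx.mk (nat_lit 438) (nat_lit 6) (nat_lit 6) (nat_lit 6) (nat_lit 7) (nat_lit 211) (nat_lit 298) r1_211 r8_298 (nat_lit 0) (nat_lit 0) (nat_lit 0) (nat_lit 0x8017985b4) (nat_lit 536870912),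
  Rx.mk (nat_lit 511) (nat_lit 7) (nat_lit 7) (nat_lit 7) (nat_lit 7) (nat_lit 216) (nat_lit 297) r1_216 r8_297 (nat_lit 0) (nat_lit 0) (nat_lit 0) (nat_lit 0x7ed9578a0) (nat_lit 556568262)]
noncomputable def e8_17 : List Rx := [
  Rx.mk (nat_lit 292) (nat_lit 4) (nat_lit 4) (nat_lit 4) (nat_lit 0) (nat_lit 170) (nat_lit 40) r1_170 r9_40 (nat_lit 49328540) (nat_lit 56659484) (nat_lit 24261554) (nat_lit 0x3f56488d6) (nat_lit 1713461290),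
  Rx.mk (nat_lit 295) (nat_lit 7) (nat_lit 4) (nat_lit 4) (nat_lit 1) (nat_lit 171) (nat_lit 42) r1_171 r9_42 (nat_lit 0) (nat_lit 43212165) (nat_lit 26252196) (nat_lit 0x6d3fdbff2) (nat_lit 910271473),
  Rx.mk (nat_lit 308) (nat_lit 4) (nat_lit 6) (nat_lit 4) (nat_lit 2) (nat_lit 173) (nat_lit 41) r1_173 r9_41 (nat_lit 32551245) (nat_lit 0) (nat_lit 27290911) (nat_lit 0x6e1360b66) (nat_lit 887289868),
  Rx.mk (nat_lit 310) (nat_lit 6) (nat_lit 6) (nat_lit 4) (nat_lit 3) (nat_lit 174) (nat_lit 48) r1_174 r9_48 (nat_lit 0) (nat_lit 0) (nat_lit 24741287) (nat_lit 0x8004104a6) (nat_lit 562806149),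
  Rx.mk (nat_lit 311) (nat_lit 7) (nat_lit 6) (nat_lit 4) (nat_lit 3) (nat_lit 176) (nat_lit 45) r1_176 r9_45 (nat_lit 0) (nat_lit 0) (nat_lit 24741287) (nat_lit 0x8017985b4) (nat_lit 561612199),
  Rx.mk (nat_lit 406) (nat_lit 6) (nat_lit 2) (nat_lit 6) (nat_lit 7) (nat_lit 169) (nat_lit 47) r1_169 r9_47 (nat_lit 0) (nat_lit 0) (nat_lit 0) (nat_lit 0x8017985b4) (nat_lit 536870912),
  Rx.mk (nat_lit 438) (nat_lit 6) (nat_lit 6) (nat_lit 6) (nat_lit 7) (nat_lit 175) (nat_lit 49) r1_175 r9_49 (nat_lit 0) (nat_lit 0) (nat_lit 0) (nat_lit 0x8017985b4) (nat_lit 536870912),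
  Rx.mk (nat_lit 487) (nat_lit 7) (nat_lit 4) (nat_lit 7) (nat_lit 5) (nat_lit 172) (nat_lit 43) r1_172 r9_43 (nat_lit 0) (nat_lit 35087009) (nat_lit 0) (nat_lit 0x7eb627b3c) (nat_lit 593834521),
  Rx.mk (nat_lit 503) (nat_lit 7) (nat_lit 6) (nat_lit 7) (nat_lit 7) (nat_lit 177) (nat_lit 46) r1_177 r9_46 (nat_lit 0) (nat_lit 0) (nat_lit 0) (nat_lit 0x8017985b4) (nat_lit 536870912),
  Rx.mk (nat_lit 511) (nat_lit 7) (nat_lit 7) (nat_lit 7) (nat_lit 7) (nat_lit 178) (nat_lit 44) r1_178 r9_44 (nat_lit 0) (nat_lit 0) (nat_lit 0) (nat_lit 0x7ed9f7242) (nat_lit 556534462)]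
noncomputable def e8_18 : List Rx := [
  Rx.mk (nat_lit 100) (nat_lit 4) (nat_lit 4) (nat_lit 1) (nat_lit 4) (nat_lit 187) (nat_lit 281) r1_187 r4_281 (nat_lit 12745069) (nat_lit 131619701) (nat_lit 0) (nat_lit 0x669364acc) (nat_lit 1092912382),
  Rx.mk (nat_lit 101) (nat_lit 5) (nat_lit 4) (nat_lit 1) (nat_lit 5) (nat_lit 188) (nat_lit 282) r1_188 r4_282 (nat_lit 0) (nat_lit 25655830) (nat_lit 0) (nat_lit 0x7fff0d792) (nat_lit 563934392),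
  Rx.mk (nat_lit 103) (nat_lit 7) (nat_lit 4) (nat_lit 1) (nat_lit 5) (nat_lit 189) (nat_lit 283) r1_189 r4_283 (nat_lit 0) (nat_lit 277566866) (nat_lit 0) (nat_lit 0x7d3bb22a4) (nat_lit 859858978),
  Rx.mk (nat_lit 359) (nat_lit 7) (nat_lit 4) (nat_lit 5) (nat_lit 5) (nat_lit 190) (nat_lit 279) r1_190 r4_279 (nat_lit 0) (nat_lit 124425147) (nat_lit 0) (nat_lit 0x7ecc4e244) (nat_lit 681601709),
  Rx.mk (nat_lit 383) (nat_lit 7) (nat_lit 7) (nat_lit 5) (nat_lit 7) (nat_lit 191) (nat_lit 280) r1_191 r4_280 (nat_lit 0) (nat_lit 0) (nat_lit 0) (nat_lit 0x80304a1b6) (nat_lit 535245512)]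
noncomputable def e8_19 : List Rx := [
  Rx.mk (nat_lit 359) (nat_lit 7) (nat_lit 4) (nat_lit 5) (nat_lit 5) (nat_lit 217) (nat_lit 49) r1_217 r10_49 (nat_lit 0) (nat_lit 25153554) (nat_lit 0) (nat_lit 0x80e8b8eaa) (nat_lit 549278466),
  Rx.mk (nat_lit 375) (nat_lit 7) (nat_lit 6) (nat_lit 5) (nat_lit 7) (nat_lit 218) (nat_lit 51) r1_218 r10_51 (nat_lit 0) (nat_lit 0) (nat_lit 0) (nat_lit 0x8017985b4) (nat_lit 536870912),
  Rx.mk (nat_lit 383) (nat_lit 7) (nat_lit 7) (nat_lit 5) (nat_lit 7) (nat_lit 219) (nat_lit 50) r1_219 r10_50 (nat_lit 0) (nat_lit 0) (nat_lit 0) (nat_lit 0x81b14ef04) (nat_lit 511970262)]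
noncomputable def e8_20 : List Rx := [
  Rx.mk (nat_lit 100) (nat_lit 4) (nat_lit 4) (nat_lit 1) (nat_lit 4) (nat_lit 220) (nat_lit 41) r1_220 r11_41 (nat_lit 107908680) (nat_lit 132640855) (nat_lit 0) (nat_lit 0x75cd0e8fe) (nat_lit 943069347),
  Rx.mk (nat_lit 101) (nat_lit 5) (nat_lit 4) (nat_lit 1) (nat_lit 5) (nat_lit 221) (nat_lit 42) r1_221 r11_42 (nat_lit 0) (nat_lit 24741287) (nat_lit 0) (nat_lit 0x80394da56) (nat_lit 559537749),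
  Rx.mk (nat_lit 103) (nat_lit 7) (nat_lit 4) (nat_lit 1) (nat_lit 5) (nat_lit 222) (nat_lit 43) r1_222 r11_43 (nat_lit 0) (nat_lit 27280081) (nat_lit 0) (nat_lit 0x7ff4c6252) (nat_lit 566171843),
  Rx.mk (nat_lit 127) (nat_lit 7) (nat_lit 7) (nat_lit 1) (nat_lit 7) (nat_lit 223) (nat_lit 44) r1_223 r11_44 (nat_lit 0) (nat_lit 0) (nat_lit 0) (nat_lit 0x814af5f1e) (nat_lit 518142212),
  Rx.mk (nat_lit 383) (nat_lit 7) (nat_lit 7) (nat_lit 5) (nat_lit 7) (nat_lit 224) (nat_lit 45) r1_224 r11_45 (nat_lit 0) (nat_lit 0) (nat_lit 0) (nat_lit 0x808a832cc) (nat_lit 529822112)]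
noncomputable def e8_21 : List Rx := [
  Rx.mk (nat_lit 406) (nat_lit 6) (nat_lit 2) (nat_lit 6) (nat_lit 7) (nat_lit 153) (nat_lit 1) r1_153 r9_1 (nat_lit 0) (nat_lit 0) (nat_lit 0) (nat_lit 0x8017985b4) (nat_lit 536870912)]
noncomputable def e8_22 : List Rx := [
  Rx.mk (nat_lit 0) (nat_lit 0) (nat_lit 0) (nat_lit 0) (nat_lit 0) (nat_lit 94) (nat_lit 111) r1_94 r0_111 (nat_lit 704331784) (nat_lit 15924) (nat_lit 15478) (nat_lit 0x7ffceaa5a) (nat_lit 1241434748),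
  Rx.mk (nat_lit 24) (nat_lit 0) (nat_lit 3) (nat_lit 0) (nat_lit 2) (nat_lit 99) (nat_lit 112) r1_99 r0_112 (nat_lit 330891680) (nat_lit 0) (nat_lit 15900944) (nat_lit 0x77bef9212) (nat_lit 1017846086),
  Rx.mk (nat_lit 27) (nat_lit 3) (nat_lit 3) (nat_lit 0) (nat_lit 3) (nat_lit 103) (nat_lit 113) r1_103 r0_113 (nat_lit 0) (nat_lit 0) (nat_lit 24548730) (nat_lit 0x78780d94c) (nat_lit 683979642),
  Rx.mk (nat_lit 64) (nat_lit 0) (nat_lit 0) (nat_lit 1) (nat_lit 4) (nat_lit 95) (nat_lit 114) r1_95 r0_114 (nat_lit 301314432) (nat_lit 17923102) (nat_lit 0) (nat_lit 0x7b08f77e4) (nat_lit 937110096),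
  Rx.mk (nat_lit 88) (nat_lit 0) (nat_lit 3) (nat_lit 1) (nat_lit 6) (nat_lit 100) (nat_lit 115) r1_100 r0_115 (nat_lit 40000838) (nat_lit 0) (nat_lit 0) (nat_lit 0x7f4fca046) (nat_lit 589164150),
  Rx.mk (nat_lit 91) (nat_lit 3) (nat_lit 3) (nat_lit 1) (nat_lit 7) (nat_lit 104) (nat_lit 116) r1_104 r0_116 (nat_lit 0) (nat_lit 0) (nat_lit 0) (nat_lit 0x8008586c6) (nat_lit 537803512),
  Rx.mk (nat_lit 128) (nat_lit 0) (nat_lit 0) (nat_lit 2) (nat_lit 4) (nat_lit 96) (nat_lit 118) r1_96 r0_118 (nat_lit 236637976) (nat_lit 49509170) (nat_lit 0) (nat_lit 0x7c1ee06fe) (nat_lit 886572308),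
  Rx.mk (nat_lit 130) (nat_lit 2) (nat_lit 0) (nat_lit 2) (nat_lit 5) (nat_lit 97) (nat_lit 121) r1_97 r0_121 (nat_lit 0) (nat_lit 26465750) (nat_lit 0) (nat_lit 0x7f8d66de6) (nat_lit 571814812),
  Rx.mk (nat_lit 146) (nat_lit 2) (nat_lit 2) (nat_lit 2) (nat_lit 7) (nat_lit 98) (nat_lit 123) r1_98 r0_123 (nat_lit 0) (nat_lit 0) (nat_lit 0) (nat_lit 0x8017985b4) (nat_lit 536870912),
  Rx.mk (nat_lit 152) (nat_lit 0) (nat_lit 3) (nat_lit 2) (nat_lit 6) (nat_lit 101) (nat_lit 119) r1_101 r0_119 (nat_lit 43159532) (nat_lit 0) (nat_lit 0) (nat_lit 0x7fa01c38c) (nat_lit 587329944),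
  Rx.mk (nat_lit 154) (nat_lit 2) (nat_lit 3) (nat_lit 2) (nat_lit 7) (nat_lit 102) (nat_lit 122) r1_102 r0_122 (nat_lit 0) (nat_lit 0) (nat_lit 0) (nat_lit 0x8017985b4) (nat_lit 536870912),
  Rx.mk (nat_lit 155) (nat_lit 3) (nat_lit 3) (nat_lit 2) (nat_lit 7) (nat_lit 105) (nat_lit 120) r1_105 r0_120 (nat_lit 0) (nat_lit 0) (nat_lit 0) (nat_lit 0x8017985b4) (nat_lit 536870912),
  Rx.mk (nat_lit 219) (nat_lit 3) (nat_lit 3) (nat_lit 3) (nat_lit 7) (nat_lit 106) (nat_lit 117) r1_106 r0_117 (nat_lit 0) (nat_lit 0) (nat_lit 0) (nat_lit 0x8008e1958) (nat_lit 537770662)]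
noncomputable def e8_23 : List Rx := [
  Rx.mk (nat_lit 0) (nat_lit 0) (nat_lit 0) (nat_lit 0) (nat_lit 0) (nat_lit 117) (nat_lit 117) r1_117 r1_117 (nat_lit 589462715) (nat_lit 1979870) (nat_lit 1979870) (nat_lit 0x702baaa3a) (nat_lit 1386696517),
  Rx.mk (nat_lit 8) (nat_lit 0) (nat_lit 1) (nat_lit 0) (nat_lit 2) (nat_lit 121) (nat_lit 118) r1_121 r1_118 (nat_lit 301646691) (nat_lit 0) (nat_lit 46858283) (nat_lit 0x7c618c5e8) (nat_lit 944707886),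
  Rx.mk (nat_lit 24) (nat_lit 0) (nat_lit 3) (nat_lit 0) (nat_lit 2) (nat_lit 126) (nat_lit 119) r1_126 r1_119 (nat_lit 112411192) (nat_lit 0) (nat_lit 41207445) (nat_lit 0x7cd477904) (nat_lit 742617599),
  Rx.mk (nat_lit 27) (nat_lit 3) (nat_lit 3) (nat_lit 0) (nat_lit 3) (nat_lit 128) (nat_lit 120) r1_128 r1_120 (nat_lit 0) (nat_lit 0) (nat_lit 27831261) (nat_lit 0x7f26f387a) (nat_lit 579564373),
  Rx.mk (nat_lit 64) (nat_lit 0) (nat_lit 0) (nat_lit 1) (nat_lit 4) (nat_lit 118) (nat_lit 121) r1_118 r1_121 (nat_lit 301646691) (nat_lit 46858283) (nat_lit 0) (nat_lit 0x7c618c5e8) (nat_lit 944707886),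
  Rx.mk (nat_lit 72) (nat_lit 0) (nat_lit 1) (nat_lit 1) (nat_lit 6) (nat_lit 122) (nat_lit 122) r1_122 r1_122 (nat_lit 24741287) (nat_lit 0) (nat_lit 0) (nat_lit 0x8017985b4) (nat_lit 561612199),
  Rx.mk (nat_lit 88) (nat_lit 0) (nat_lit 3) (nat_lit 1) (nat_lit 6) (nat_lit 127) (nat_lit 123) r1_127 r1_123 (nat_lit 24741287) (nat_lit 0) (nat_lit 0) (nat_lit 0x8017985b4) (nat_lit 561612199),
  Rx.mk (nat_lit 91) (nat_lit 3) (nat_lit 3) (nat_lit 1) (nat_lit 7) (nat_lit 129) (nat_lit 124) r1_129 r1_124 (nat_lit 0) (nat_lit 0) (nat_lit 0) (nat_lit 0x8017985b4) (nat_lit 536870912),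
  Rx.mk (nat_lit 128) (nat_lit 0) (nat_lit 0) (nat_lit 2) (nat_lit 4) (nat_lit 119) (nat_lit 126) r1_119 r1_126 (nat_lit 112411192) (nat_lit 41207445) (nat_lit 0) (nat_lit 0x7cd477904) (nat_lit 742617599),
  Rx.mk (nat_lit 130) (nat_lit 2) (nat_lit 0) (nat_lit 2) (nat_lit 5) (nat_lit 120) (nat_lit 128) r1_120 r1_128 (nat_lit 0) (nat_lit 27831261) (nat_lit 0) (nat_lit 0x7f26f387a) (nat_lit 579564373),
  Rx.mk (nat_lit 136) (nat_lit 0) (nat_lit 1) (nat_lit 2) (nat_lit 6) (nat_lit 123) (nat_lit 127) r1_123 r1_127 (nat_lit 24741287) (nat_lit 0) (nat_lit 0) (nat_lit 0x8017985b4) (nat_lit 561612199),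
  Rx.mk (nat_lit 138) (nat_lit 2) (nat_lit 1) (nat_lit 2) (nat_lit 7) (nat_lit 124) (nat_lit 129) r1_124 r1_129 (nat_lit 0) (nat_lit 0) (nat_lit 0) (nat_lit 0x8017985b4) (nat_lit 536870912),
  Rx.mk (nat_lit 146) (nat_lit 2) (nat_lit 2) (nat_lit 2) (nat_lit 7) (nat_lit 125) (nat_lit 130) r1_125 r1_130 (nat_lit 0) (nat_lit 0) (nat_lit 0) (nat_lit 0x8017985b4) (nat_lit 536870912),
  Rx.mk (nat_lit 219) (nat_lit 3) (nat_lit 3) (nat_lit 3) (nat_lit 7) (nat_lit 130) (nat_lit 125) r1_130 r1_125 (nat_lit 0) (nat_lit 0) (nat_lit 0) (nat_lit 0x8017985b4) (nat_lit 536870912)]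
noncomputable def e8_24 : List Rx := [
  Rx.mk (nat_lit 24) (nat_lit 0) (nat_lit 3) (nat_lit 0) (nat_lit 2) (nat_lit 154) (nat_lit 107) r1_154 r4_107 (nat_lit 159743199) (nat_lit 0) (nat_lit 13326467) (nat_lit 0x73d78693c) (nat_lit 907207678),
  Rx.mk (nat_lit 27) (nat_lit 3) (nat_lit 3) (nat_lit 0) (nat_lit 3) (nat_lit 158) (nat_lit 108) r1_158 r4_108 (nat_lit 0) (nat_lit 0) (nat_lit 21535191) (nat_lit 0x7c291a87c) (nat_lit 621319503),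
  Rx.mk (nat_lit 88) (nat_lit 0) (nat_lit 3) (nat_lit 1) (nat_lit 6) (nat_lit 155) (nat_lit 109) r1_155 r4_109 (nat_lit 26051565) (nat_lit 0) (nat_lit 0) (nat_lit 0x8064f5dac) (nat_lit 558163527),
  Rx.mk (nat_lit 91) (nat_lit 3) (nat_lit 3) (nat_lit 1) (nat_lit 7) (nat_lit 159) (nat_lit 110) r1_159 r4_110 (nat_lit 0) (nat_lit 0) (nat_lit 0) (nat_lit 0x807893f76) (nat_lit 530914262),
  Rx.mk (nat_lit 152) (nat_lit 0) (nat_lit 3) (nat_lit 2) (nat_lit 6) (nat_lit 156) (nat_lit 111) r1_156 r4_111 (nat_lit 26855787) (nat_lit 0) (nat_lit 0) (nat_lit 0x80aa4da94) (nat_lit 554718499),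
  Rx.mk (nat_lit 154) (nat_lit 2) (nat_lit 3) (nat_lit 2) (nat_lit 7) (nat_lit 157) (nat_lit 113) r1_157 r4_113 (nat_lit 0) (nat_lit 0) (nat_lit 0) (nat_lit 0x8017985b4) (nat_lit 536870912),
  Rx.mk (nat_lit 155) (nat_lit 3) (nat_lit 3) (nat_lit 2) (nat_lit 7) (nat_lit 160) (nat_lit 112) r1_160 r4_112 (nat_lit 0) (nat_lit 0) (nat_lit 0) (nat_lit 0x8039d0276) (nat_lit 534761612)]
noncomputable def e8_25 : List Rx := [
  Rx.mk (nat_lit 0) (nat_lit 0) (nat_lit 0) (nat_lit 0) (nat_lit 0) (nat_lit 107) (nat_lit 11) r1_107 r7_11 (nat_lit 43642432) (nat_lit 5821095) (nat_lit 6392816) (nat_lit 0x44a1c92b0) (nat_lit 1553277655),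
  Rx.mk (nat_lit 24) (nat_lit 0) (nat_lit 3) (nat_lit 0) (nat_lit 2) (nat_lit 111) (nat_lit 14) r1_111 r7_14 (nat_lit 24461115) (nat_lit 0) (nat_lit 15973405) (nat_lit 0x6bcc10498) (nat_lit 904689032),
  Rx.mk (nat_lit 27) (nat_lit 3) (nat_lit 3) (nat_lit 0) (nat_lit 3) (nat_lit 114) (nat_lit 16) r1_114 r7_16 (nat_lit 0) (nat_lit 0) (nat_lit 16486043) (nat_lit 0x7aed483a4) (nat_lit 636147005),
  Rx.mk (nat_lit 128) (nat_lit 0) (nat_lit 0) (nat_lit 2) (nat_lit 4) (nat_lit 108) (nat_lit 12) r1_108 r7_12 (nat_lit 78119258) (nat_lit 35130887) (nat_lit 0) (nat_lit 0x6d4852dd4) (nat_lit 953515857),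
  Rx.mk (nat_lit 130) (nat_lit 2) (nat_lit 0) (nat_lit 2) (nat_lit 5) (nat_lit 109) (nat_lit 13) r1_109 r7_13 (nat_lit 0) (nat_lit 21790589) (nat_lit 0) (nat_lit 0x7f1945f52) (nat_lit 574322851),
  Rx.mk (nat_lit 146) (nat_lit 2) (nat_lit 2) (nat_lit 2) (nat_lit 7) (nat_lit 110) (nat_lit 20) r1_110 r7_20 (nat_lit 0) (nat_lit 0) (nat_lit 0) (nat_lit 0x8017985b4) (nat_lit 536870912),
  Rx.mk (nat_lit 152) (nat_lit 0) (nat_lit 3) (nat_lit 2) (nat_lit 6) (nat_lit 112) (nat_lit 15) r1_112 r7_15 (nat_lit 24618950) (nat_lit 0) (nat_lit 0) (nat_lit 0x80095eab6) (nat_lit 562360112),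
  Rx.mk (nat_lit 154) (nat_lit 2) (nat_lit 3) (nat_lit 2) (nat_lit 7) (nat_lit 113) (nat_lit 19) r1_113 r7_19 (nat_lit 0) (nat_lit 0) (nat_lit 0) (nat_lit 0x80538fe0a) (nat_lit 533186112),
  Rx.mk (nat_lit 155) (nat_lit 3) (nat_lit 3) (nat_lit 2) (nat_lit 7) (nat_lit 115) (nat_lit 18) r1_115 r7_18 (nat_lit 0) (nat_lit 0) (nat_lit 0) (nat_lit 0x8017985b4) (nat_lit 536870912),
  Rx.mk (nat_lit 219) (nat_lit 3) (nat_lit 3) (nat_lit 3) (nat_lit 7) (nat_lit 116) (nat_lit 17) r1_116 r7_17 (nat_lit 0) (nat_lit 0) (nat_lit 0) (nat_lit 0x8017985b4) (nat_lit 536870912)]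
noncomputable def e8_26 : List Rx := [
  Rx.mk (nat_lit 0) (nat_lit 0) (nat_lit 0) (nat_lit 0) (nat_lit 0) (nat_lit 131) (nat_lit 15) r1_131 r8_15 (nat_lit 78140221) (nat_lit 12570282) (nat_lit 16366775) (nat_lit 0x42b179a90) (nat_lit 1635971940),
  Rx.mk (nat_lit 8) (nat_lit 0) (nat_lit 1) (nat_lit 0) (nat_lit 2) (nat_lit 134) (nat_lit 18) r1_134 r8_18 (nat_lit 144484209) (nat_lit 0) (nat_lit 46134325) (nat_lit 0x72b2fdad0) (nat_lit 943309946),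
  Rx.mk (nat_lit 24) (nat_lit 0) (nat_lit 3) (nat_lit 0) (nat_lit 2) (nat_lit 138) (nat_lit 21) r1_138 r8_21 (nat_lit 36913539) (nat_lit 0) (nat_lit 31041958) (nat_lit 0x73f49b3ba) (nat_lit 800345659),
  Rx.mk (nat_lit 27) (nat_lit 3) (nat_lit 3) (nat_lit 0) (nat_lit 3) (nat_lit 139) (nat_lit 22) r1_139 r8_22 (nat_lit 0) (nat_lit 0) (nat_lit 19606239) (nat_lit 0x7f4c479c8) (nat_lit 568985001),
  Rx.mk (nat_lit 128) (nat_lit 0) (nat_lit 0) (nat_lit 2) (nat_lit 4) (nat_lit 132) (nat_lit 16) r1_132 r8_16 (nat_lit 44995829) (nat_lit 40466188) (nat_lit 0) (nat_lit 0x6d2f8c872) (nat_lit 927296079),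
  Rx.mk (nat_lit 130) (nat_lit 2) (nat_lit 0) (nat_lit 2) (nat_lit 5) (nat_lit 133) (nat_lit 17) r1_133 r8_17 (nat_lit 0) (nat_lit 25986002) (nat_lit 0) (nat_lit 0x7f21990dc) (nat_lit 578019064),
  Rx.mk (nat_lit 136) (nat_lit 0) (nat_lit 1) (nat_lit 2) (nat_lit 6) (nat_lit 135) (nat_lit 19) r1_135 r8_19 (nat_lit 24741287) (nat_lit 0) (nat_lit 0) (nat_lit 0x8017985b4) (nat_lit 561612199),
  Rx.mk (nat_lit 138) (nat_lit 2) (nat_lit 1) (nat_lit 2) (nat_lit 7) (nat_lit 136) (nat_lit 20) r1_136 r8_20 (nat_lit 0) (nat_lit 0) (nat_lit 0) (nat_lit 0x8017985b4) (nat_lit 536870912),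
  Rx.mk (nat_lit 146) (nat_lit 2) (nat_lit 2) (nat_lit 2) (nat_lit 7) (nat_lit 137) (nat_lit 24) r1_137 r8_24 (nat_lit 0) (nat_lit 0) (nat_lit 0) (nat_lit 0x8017985b4) (nat_lit 536870912),
  Rx.mk (nat_lit 219) (nat_lit 3) (nat_lit 3) (nat_lit 3) (nat_lit 7) (nat_lit 140) (nat_lit 23) r1_140 r8_23 (nat_lit 0) (nat_lit 0) (nat_lit 0) (nat_lit 0x8017985b4) (nat_lit 536870912)]
noncomputable def e8_27 : List Rx := [
  Rx.mk (nat_lit 0) (nat_lit 0) (nat_lit 0) (nat_lit 0) (nat_lit 0) (nat_lit 141) (nat_lit 90) r1_141 r8_90 (nat_lit 116288395) (nat_lit 23009154) (nat_lit 17944571) (nat_lit 0x447d83aae) (nat_lit 1657106532),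
  Rx.mk (nat_lit 24) (nat_lit 0) (nat_lit 3) (nat_lit 0) (nat_lit 2) (nat_lit 147) (nat_lit 91) r1_147 r8_91 (nat_lit 50885811) (nat_lit 0) (nat_lit 24802758) (nat_lit 0x6b9ee1742) (nat_lit 942829831),
  Rx.mk (nat_lit 27) (nat_lit 3) (nat_lit 3) (nat_lit 0) (nat_lit 3) (nat_lit 150) (nat_lit 92) r1_150 r8_92 (nat_lit 0) (nat_lit 0) (nat_lit 24952196) (nat_lit 0x7d5baea30) (nat_lit 605443508),
  Rx.mk (nat_lit 128) (nat_lit 0) (nat_lit 0) (nat_lit 2) (nat_lit 4) (nat_lit 142) (nat_lit 94) r1_142 r8_94 (nat_lit 50887267) (nat_lit 31282261) (nat_lit 0) (nat_lit 0x6d657dd46) (nat_lit 920594840),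
  Rx.mk (nat_lit 130) (nat_lit 2) (nat_lit 0) (nat_lit 2) (nat_lit 5) (nat_lit 143) (nat_lit 97) r1_143 r8_97 (nat_lit 0) (nat_lit 29620562) (nat_lit 0) (nat_lit 0x7f673ed30) (nat_lit 577332974),
  Rx.mk (nat_lit 146) (nat_lit 2) (nat_lit 2) (nat_lit 2) (nat_lit 7) (nat_lit 144) (nat_lit 99) r1_144 r8_99 (nat_lit 0) (nat_lit 0) (nat_lit 0) (nat_lit 0x8017985b4) (nat_lit 536870912),
  Rx.mk (nat_lit 152) (nat_lit 0) (nat_lit 3) (nat_lit 2) (nat_lit 6) (nat_lit 148) (nat_lit 95) r1_148 r8_95 (nat_lit 24741287) (nat_lit 0) (nat_lit 0) (nat_lit 0x8017985b4) (nat_lit 561612199),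
  Rx.mk (nat_lit 154) (nat_lit 2) (nat_lit 3) (nat_lit 2) (nat_lit 7) (nat_lit 149) (nat_lit 98) r1_149 r8_98 (nat_lit 0) (nat_lit 0) (nat_lit 0) (nat_lit 0x8017985b4) (nat_lit 536870912),
  Rx.mk (nat_lit 155) (nat_lit 3) (nat_lit 3) (nat_lit 2) (nat_lit 7) (nat_lit 151) (nat_lit 96) r1_151 r8_96 (nat_lit 0) (nat_lit 0) (nat_lit 0) (nat_lit 0x8017985b4) (nat_lit 536870912),
  Rx.mk (nat_lit 219) (nat_lit 3) (nat_lit 3) (nat_lit 3) (nat_lit 7) (nat_lit 152) (nat_lit 93) r1_152 r8_93 (nat_lit 0) (nat_lit 0) (nat_lit 0) (nat_lit 0x8017985b4) (nat_lit 536870912),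
  Rx.mk (nat_lit 402) (nat_lit 2) (nat_lit 2) (nat_lit 6) (nat_lit 7) (nat_lit 145) (nat_lit 100) r1_145 r8_100 (nat_lit 0) (nat_lit 0) (nat_lit 0) (nat_lit 0x8017985b4) (nat_lit 536870912),
  Rx.mk (nat_lit 406) (nat_lit 6) (nat_lit 2) (nat_lit 6) (nat_lit 7) (nat_lit 146) (nat_lit 101) r1_146 r8_101 (nat_lit 0) (nat_lit 0) (nat_lit 0) (nat_lit 0x8017985b4) (nat_lit 536870912)]
noncomputable def e8_28 : List Rx := [
  Rx.mk (nat_lit 24) (nat_lit 0) (nat_lit 3) (nat_lit 0) (nat_lit 2) (nat_lit 161) (nat_lit 5) r1_161 r10_5 (nat_lit 22829563) (nat_lit 0) (nat_lit 15183139) (nat_lit 0x6e1d4f8f2) (nat_lit 864770414),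
  Rx.mk (nat_lit 27) (nat_lit 3) (nat_lit 3) (nat_lit 0) (nat_lit 3) (nat_lit 164) (nat_lit 7) r1_164 r10_7 (nat_lit 0) (nat_lit 0) (nat_lit 9818448) (nat_lit 0x77a95bc0c) (nat_lit 682197510),
  Rx.mk (nat_lit 152) (nat_lit 0) (nat_lit 3) (nat_lit 2) (nat_lit 6) (nat_lit 162) (nat_lit 6) r1_162 r10_6 (nat_lit 24741287) (nat_lit 0) (nat_lit 0) (nat_lit 0x7fca1d474) (nat_lit 566365499),
  Rx.mk (nat_lit 154) (nat_lit 2) (nat_lit 3) (nat_lit 2) (nat_lit 7) (nat_lit 163) (nat_lit 9) r1_163 r10_9 (nat_lit 0) (nat_lit 0) (nat_lit 0) (nat_lit 0x8017985b4) (nat_lit 536870912),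
  Rx.mk (nat_lit 155) (nat_lit 3) (nat_lit 3) (nat_lit 2) (nat_lit 7) (nat_lit 165) (nat_lit 8) r1_165 r10_8 (nat_lit 0) (nat_lit 0) (nat_lit 0) (nat_lit 0x804a4b9b6) (nat_lit 533752062)]
noncomputable def e8_29 : List Rx := [
  Rx.mk (nat_lit 27) (nat_lit 3) (nat_lit 3) (nat_lit 0) (nat_lit 3) (nat_lit 166) (nat_lit 2) r1_166 r11_2 (nat_lit 0) (nat_lit 0) (nat_lit 24107596) (nat_lit 0x800249f8c) (nat_lit 562289358),
  Rx.mk (nat_lit 91) (nat_lit 3) (nat_lit 3) (nat_lit 1) (nat_lit 7) (nat_lit 167) (nat_lit 3) r1_167 r11_3 (nat_lit 0) (nat_lit 0) (nat_lit 0) (nat_lit 0x8017985b4) (nat_lit 536870912),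
  Rx.mk (nat_lit 155) (nat_lit 3) (nat_lit 3) (nat_lit 2) (nat_lit 7) (nat_lit 168) (nat_lit 4) r1_168 r11_4 (nat_lit 0) (nat_lit 0) (nat_lit 0) (nat_lit 0x8017985b4) (nat_lit 536870912)]
noncomputable def e8_30 : List Rx := [
  Rx.mk (nat_lit 103) (nat_lit 7) (nat_lit 4) (nat_lit 1) (nat_lit 5) (nat_lit 242) (nat_lit 268) r1_242 r5_268 (nat_lit 0) (nat_lit 100423417) (nat_lit 0) (nat_lit 0x83d8b6e82) (nat_lit 579086629),
  Rx.mk (nat_lit 359) (nat_lit 7) (nat_lit 4) (nat_lit 5) (nat_lit 5) (nat_lit 243) (nat_lit 267) r1_243 r5_267 (nat_lit 0) (nat_lit 91702614) (nat_lit 0) (nat_lit 0x80aaf72a6) (nat_lit 619301176)]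
noncomputable def e8_31 : List Rx := [
  Rx.mk (nat_lit 359) (nat_lit 7) (nat_lit 4) (nat_lit 5) (nat_lit 5) (nat_lit 244) (nat_lit 333) r1_244 r11_333 (nat_lit 0) (nat_lit 16971006) (nat_lit 0) (nat_lit 0x8058c13c4) (nat_lit 549817368),
  Rx.mk (nat_lit 375) (nat_lit 7) (nat_lit 6) (nat_lit 5) (nat_lit 7) (nat_lit 245) (nat_lit 334) r1_245 r11_334 (nat_lit 0) (nat_lit 0) (nat_lit 0) (nat_lit 0x814704da6) (nat_lit 518377612)]
noncomputable def e8_32 : List Rx := [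
  Rx.mk (nat_lit 99) (nat_lit 3) (nat_lit 4) (nat_lit 1) (nat_lit 5) (nat_lit 246) (nat_lit 179) r1_246 r6_179 (nat_lit 0) (nat_lit 4579048) (nat_lit 0) (nat_lit 0x829e4386e) (nat_lit 502034860),
  Rx.mk (nat_lit 120) (nat_lit 0) (nat_lit 7) (nat_lit 1) (nat_lit 6) (nat_lit 247) (nat_lit 178) r1_247 r6_178 (nat_lit 2146916) (nat_lit 0) (nat_lit 0) (nat_lit 0x832861f50) (nat_lit 491234428),
  Rx.mk (nat_lit 123) (nat_lit 3) (nat_lit 7) (nat_lit 1) (nat_lit 7) (nat_lit 248) (nat_lit 180) r1_248 r6_180 (nat_lit 0) (nat_lit 0) (nat_lit 0) (nat_lit 0x80c3cc614) (nat_lit 526329562)]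
noncomputable def e8_33 : List Rx := [
  Rx.mk (nat_lit 24) (nat_lit 0) (nat_lit 3) (nat_lit 0) (nat_lit 2) (nat_lit 225) (nat_lit 106) r1_225 r5_106 (nat_lit 183334041) (nat_lit 0) (nat_lit 1138385) (nat_lit 0x858f1770c) (nat_lit 636880238),
  Rx.mk (nat_lit 56) (nat_lit 0) (nat_lit 7) (nat_lit 0) (nat_lit 2) (nat_lit 229) (nat_lit 107) r1_229 r5_107 (nat_lit 5641616) (nat_lit 0) (nat_lit 3281434) (nat_lit 0x6d31d3d56) (nat_lit 850354662),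
  Rx.mk (nat_lit 59) (nat_lit 3) (nat_lit 7) (nat_lit 0) (nat_lit 3) (nat_lit 231) (nat_lit 108) r1_231 r5_108 (nat_lit 0) (nat_lit 0) (nat_lit 13555305) (nat_lit 0x7b2b08126) (nat_lit 629326967),
  Rx.mk (nat_lit 88) (nat_lit 0) (nat_lit 3) (nat_lit 1) (nat_lit 6) (nat_lit 226) (nat_lit 109) r1_226 r5_109 (nat_lit 20365735) (nat_lit 0) (nat_lit 0) (nat_lit 0x82689a0c8) (nat_lit 521307397),
  Rx.mk (nat_lit 120) (nat_lit 0) (nat_lit 7) (nat_lit 1) (nat_lit 6) (nat_lit 230) (nat_lit 110) r1_230 r5_110 (nat_lit 14046649) (nat_lit 0) (nat_lit 0) (nat_lit 0x808591f7a) (nat_lit 544109911),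
  Rx.mk (nat_lit 123) (nat_lit 3) (nat_lit 7) (nat_lit 1) (nat_lit 7) (nat_lit 232) (nat_lit 111) r1_232 r5_111 (nat_lit 0) (nat_lit 0) (nat_lit 0) (nat_lit 0x8017985b4) (nat_lit 536870912),
  Rx.mk (nat_lit 152) (nat_lit 0) (nat_lit 3) (nat_lit 2) (nat_lit 6) (nat_lit 227) (nat_lit 113) r1_227 r5_113 (nat_lit 34273461) (nat_lit 0) (nat_lit 0) (nat_lit 0x80eb8917a) (nat_lit 558087723),
  Rx.mk (nat_lit 154) (nat_lit 2) (nat_lit 3) (nat_lit 2) (nat_lit 7) (nat_lit 228) (nat_lit 114) r1_228 r5_114 (nat_lit 0) (nat_lit 0) (nat_lit 0) (nat_lit 0x80759d768) (nat_lit 530997812),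
  Rx.mk (nat_lit 251) (nat_lit 3) (nat_lit 7) (nat_lit 3) (nat_lit 7) (nat_lit 233) (nat_lit 112) r1_233 r5_112 (nat_lit 0) (nat_lit 0) (nat_lit 0) (nat_lit 0x8017985b4) (nat_lit 536870912)]
noncomputable def e8_34 : List Rx := [
  Rx.mk (nat_lit 24) (nat_lit 0) (nat_lit 3) (nat_lit 0) (nat_lit 2) (nat_lit 234) (nat_lit 107) r1_234 r11_107 (nat_lit 88719546) (nat_lit 0) (nat_lit 26935402) (nat_lit 0x76bea858e) (nat_lit 802950560),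
  Rx.mk (nat_lit 56) (nat_lit 0) (nat_lit 7) (nat_lit 0) (nat_lit 2) (nat_lit 237) (nat_lit 108) r1_237 r11_108 (nat_lit 51763813) (nat_lit 0) (nat_lit 45330043) (nat_lit 0x7bfdcf3ca) (nat_lit 699634368),
  Rx.mk (nat_lit 59) (nat_lit 3) (nat_lit 7) (nat_lit 0) (nat_lit 3) (nat_lit 238) (nat_lit 109) r1_238 r11_109 (nat_lit 0) (nat_lit 0) (nat_lit 24741287) (nat_lit 0x8017985b4) (nat_lit 561612199),
  Rx.mk (nat_lit 152) (nat_lit 0) (nat_lit 3) (nat_lit 2) (nat_lit 6) (nat_lit 235) (nat_lit 111) r1_235 r11_111 (nat_lit 25084538) (nat_lit 0) (nat_lit 0) (nat_lit 0x8001d6c6c) (nat_lit 563283450),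
  Rx.mk (nat_lit 154) (nat_lit 2) (nat_lit 3) (nat_lit 2) (nat_lit 7) (nat_lit 236) (nat_lit 112) r1_236 r11_112 (nat_lit 0) (nat_lit 0) (nat_lit 0) (nat_lit 0x81471cbfe) (nat_lit 518335312),
  Rx.mk (nat_lit 251) (nat_lit 3) (nat_lit 7) (nat_lit 3) (nat_lit 7) (nat_lit 239) (nat_lit 110) r1_239 r11_110 (nat_lit 0) (nat_lit 0) (nat_lit 0) (nat_lit 0x8017985b4) (nat_lit 536870912)]
noncomputable def e8_35 : List Rx := [
  Rx.mk (nat_lit 99) (nat_lit 3) (nat_lit 4) (nat_lit 1) (nat_lit 5) (nat_lit 240) (nat_lit 304) r1_240 r6_304 (nat_lit 0) (nat_lit 861113) (nat_lit 0) (nat_lit 0x81f140aa4) (nat_lit 508285625),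
  Rx.mk (nat_lit 103) (nat_lit 7) (nat_lit 4) (nat_lit 1) (nat_lit 5) (nat_lit 241) (nat_lit 305) r1_241 r6_305 (nat_lit 0) (nat_lit 15511582) (nat_lit 0) (nat_lit 0x81bcd1ade) (nat_lit 526733344)]
noncomputable def e8_36 : List Rx := [
  Rx.mk (nat_lit 99) (nat_lit 3) (nat_lit 4) (nat_lit 1) (nat_lit 5) (nat_lit 249) (nat_lit 56) r1_249 r12_56 (nat_lit 0) (nat_lit 188525) (nat_lit 0) (nat_lit 0x82e82ffae) (nat_lit 492764987),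
  Rx.mk (nat_lit 103) (nat_lit 7) (nat_lit 4) (nat_lit 1) (nat_lit 5) (nat_lit 250) (nat_lit 58) r1_250 r12_58 (nat_lit 0) (nat_lit 20432270) (nat_lit 0) (nat_lit 0x807054a04) (nat_lit 551662282),
  Rx.mk (nat_lit 123) (nat_lit 3) (nat_lit 7) (nat_lit 1) (nat_lit 7) (nat_lit 251) (nat_lit 57) r1_251 r12_57 (nat_lit 0) (nat_lit 0) (nat_lit 0) (nat_lit 0x8ee42ae52) (nat_lit 310307562)]
noncomputable def e8_37 : List Rx := [
  Rx.mk (nat_lit 104) (nat_lit 0) (nat_lit 5) (nat_lit 1) (nat_lit 6) (nat_lit 255) (nat_lit 173) r1_255 r0_173 (nat_lit 106862022) (nat_lit 0) (nat_lit 0) (nat_lit 0x7ee0fa15c) (nat_lit 662779834)]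
noncomputable def e8_38 : List Rx := [
  Rx.mk (nat_lit 97) (nat_lit 1) (nat_lit 4) (nat_lit 1) (nat_lit 5) (nat_lit 252) (nat_lit 282) r1_252 r0_282 (nat_lit 0) (nat_lit 585345170) (nat_lit 0) (nat_lit 0x801301b72) (nat_lit 1121100632),
  Rx.mk (nat_lit 104) (nat_lit 0) (nat_lit 5) (nat_lit 1) (nat_lit 6) (nat_lit 253) (nat_lit 283) r1_253 r0_283 (nat_lit 24741287) (nat_lit 0) (nat_lit 0) (nat_lit 0x7fb668af0) (nat_lit 567576349),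
  Rx.mk (nat_lit 105) (nat_lit 1) (nat_lit 5) (nat_lit 1) (nat_lit 7) (nat_lit 254) (nat_lit 284) r1_254 r0_284 (nat_lit 0) (nat_lit 0) (nat_lit 0) (nat_lit 0x7fcf556ee) (nat_lit 541249062)]
noncomputable def e8_39 : List Rx := [
  Rx.mk (nat_lit 104) (nat_lit 0) (nat_lit 5) (nat_lit 1) (nat_lit 6) (nat_lit 256) (nat_lit 221) r1_256 r7_221 (nat_lit 24741287) (nat_lit 0) (nat_lit 0) (nat_lit 0x8017985b4) (nat_lit 561612199),
  Rx.mk (nat_lit 105) (nat_lit 1) (nat_lit 5) (nat_lit 1) (nat_lit 7) (nat_lit 257) (nat_lit 222) r1_257 r7_222 (nat_lit 0) (nat_lit 0) (nat_lit 0) (nat_lit 0x8017985b4) (nat_lit 536870912)]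
noncomputable def e8_40 : List Rx := [
  Rx.mk (nat_lit 97) (nat_lit 1) (nat_lit 4) (nat_lit 1) (nat_lit 5) (nat_lit 280) (nat_lit 304) r1_280 r2_304 (nat_lit 0) (nat_lit 34697810) (nat_lit 0) (nat_lit 0x7fda33674) (nat_lit 575291622),
  Rx.mk (nat_lit 101) (nat_lit 5) (nat_lit 4) (nat_lit 1) (nat_lit 5) (nat_lit 281) (nat_lit 305) r1_281 r2_305 (nat_lit 0) (nat_lit 24741287) (nat_lit 0) (nat_lit 0x80411f176) (nat_lit 559058049),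
  Rx.mk (nat_lit 105) (nat_lit 1) (nat_lit 5) (nat_lit 1) (nat_lit 7) (nat_lit 283) (nat_lit 307) r1_283 r2_307 (nat_lit 0) (nat_lit 0) (nat_lit 0) (nat_lit 0x8017985b4) (nat_lit 536870912),
  Rx.mk (nat_lit 109) (nat_lit 5) (nat_lit 5) (nat_lit 1) (nat_lit 7) (nat_lit 284) (nat_lit 308) r1_284 r2_308 (nat_lit 0) (nat_lit 0) (nat_lit 0) (nat_lit 0x8017985b4) (nat_lit 536870912),
  Rx.mk (nat_lit 357) (nat_lit 5) (nat_lit 4) (nat_lit 5) (nat_lit 5) (nat_lit 282) (nat_lit 306) r1_282 r2_306 (nat_lit 0) (nat_lit 24741287) (nat_lit 0) (nat_lit 0x8017985b4) (nat_lit 561612199),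
  Rx.mk (nat_lit 365) (nat_lit 5) (nat_lit 5) (nat_lit 5) (nat_lit 7) (nat_lit 285) (nat_lit 309) r1_285 r2_309 (nat_lit 0) (nat_lit 0) (nat_lit 0) (nat_lit 0x8017985b4) (nat_lit 536870912)]
noncomputable def e8_41 : List Rx := [
  Rx.mk (nat_lit 105) (nat_lit 1) (nat_lit 5) (nat_lit 1) (nat_lit 7) (nat_lit 287) (nat_lit 290) r1_287 r9_290 (nat_lit 0) (nat_lit 0) (nat_lit 0) (nat_lit 0x8017985b4) (nat_lit 536870912),
  Rx.mk (nat_lit 109) (nat_lit 5) (nat_lit 5) (nat_lit 1) (nat_lit 7) (nat_lit 288) (nat_lit 291) r1_288 r9_291 (nat_lit 0) (nat_lit 0) (nat_lit 0) (nat_lit 0x8017985b4) (nat_lit 536870912),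
  Rx.mk (nat_lit 365) (nat_lit 5) (nat_lit 5) (nat_lit 5) (nat_lit 7) (nat_lit 289) (nat_lit 292) r1_289 r9_292 (nat_lit 0) (nat_lit 0) (nat_lit 0) (nat_lit 0x8017985b4) (nat_lit 536870912)]
noncomputable def e8_42 : List Rx := [
  Rx.mk (nat_lit 357) (nat_lit 5) (nat_lit 4) (nat_lit 5) (nat_lit 5) (nat_lit 290) (nat_lit 286) r1_290 r9_286 (nat_lit 0) (nat_lit 24741287) (nat_lit 0) (nat_lit 0x7fa9dd1b4) (nat_lit 568325299),
  Rx.mk (nat_lit 365) (nat_lit 5) (nat_lit 5) (nat_lit 5) (nat_lit 7) (nat_lit 291) (nat_lit 287) r1_291 r9_287 (nat_lit 0) (nat_lit 0) (nat_lit 0) (nat_lit 0x8017985b4) (nat_lit 536870912),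
  Rx.mk (nat_lit 373) (nat_lit 5) (nat_lit 6) (nat_lit 5) (nat_lit 7) (nat_lit 292) (nat_lit 288) r1_292 r9_288 (nat_lit 0) (nat_lit 0) (nat_lit 0) (nat_lit 0x8017985b4) (nat_lit 536870912)]
noncomputable def e8_43 : List Rx := [
  Rx.mk (nat_lit 97) (nat_lit 1) (nat_lit 4) (nat_lit 1) (nat_lit 5) (nat_lit 278) (nat_lit 278) r1_278 r1_278 (nat_lit 0) (nat_lit 46726331) (nat_lit 0) (nat_lit 0x7ff035c7e) (nat_lit 585800043),
  Rx.mk (nat_lit 105) (nat_lit 1) (nat_lit 5) (nat_lit 1) (nat_lit 7) (nat_lit 279) (nat_lit 279) r1_279 r1_279 (nat_lit 0) (nat_lit 0) (nat_lit 0) (nat_lit 0x8017985b4) (nat_lit 536870912)]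
noncomputable def e8_44 : List Rx := [
  Rx.mk (nat_lit 105) (nat_lit 1) (nat_lit 5) (nat_lit 1) (nat_lit 7) (nat_lit 286) (nat_lit 180) r1_286 r8_180 (nat_lit 0) (nat_lit 0) (nat_lit 0) (nat_lit 0x8017985b4) (nat_lit 536870912)]
noncomputable def e8_45 : List Rx := [
  Rx.mk (nat_lit 72) (nat_lit 0) (nat_lit 1) (nat_lit 1) (nat_lit 6) (nat_lit 272) (nat_lit 186) r1_272 r1_186 (nat_lit 25191095) (nat_lit 0) (nat_lit 0) (nat_lit 0x7f94f86e0) (nat_lit 570102157),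
  Rx.mk (nat_lit 104) (nat_lit 0) (nat_lit 5) (nat_lit 1) (nat_lit 6) (nat_lit 273) (nat_lit 185) r1_273 r1_185 (nat_lit 27314648) (nat_lit 0) (nat_lit 0) (nat_lit 0x7fc62ebb0) (nat_lit 569113310)]
noncomputable def e8_46 : List Rx := [
  Rx.mk (nat_lit 8) (nat_lit 0) (nat_lit 1) (nat_lit 0) (nat_lit 2) (nat_lit 258) (nat_lit 183) r1_258 r2_183 (nat_lit 69955890) (nat_lit 0) (nat_lit 62162713) (nat_lit 0x67d3cb8d0) (nat_lit 1060595215),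
  Rx.mk (nat_lit 72) (nat_lit 0) (nat_lit 1) (nat_lit 1) (nat_lit 6) (nat_lit 259) (nat_lit 184) r1_259 r2_184 (nat_lit 24741287) (nat_lit 0) (nat_lit 0) (nat_lit 0x8017985b4) (nat_lit 561612199),
  Rx.mk (nat_lit 136) (nat_lit 0) (nat_lit 1) (nat_lit 2) (nat_lit 6) (nat_lit 260) (nat_lit 185) r1_260 r2_185 (nat_lit 25157357) (nat_lit 0) (nat_lit 0) (nat_lit 0x800ccd3b4) (nat_lit 562687369),
  Rx.mk (nat_lit 138) (nat_lit 2) (nat_lit 1) (nat_lit 2) (nat_lit 7) (nat_lit 261) (nat_lit 186) r1_261 r2_186 (nat_lit 0) (nat_lit 0) (nat_lit 0) (nat_lit 0x8017985b4) (nat_lit 536870912)]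
noncomputable def e8_47 : List Rx := [
  Rx.mk (nat_lit 72) (nat_lit 0) (nat_lit 1) (nat_lit 1) (nat_lit 6) (nat_lit 274) (nat_lit 316) r1_274 r8_316 (nat_lit 24586055) (nat_lit 0) (nat_lit 0) (nat_lit 0x80057ba20) (nat_lit 562565917),
  Rx.mk (nat_lit 73) (nat_lit 1) (nat_lit 1) (nat_lit 1) (nat_lit 7) (nat_lit 275) (nat_lit 317) r1_275 r8_317 (nat_lit 0) (nat_lit 0) (nat_lit 0) (nat_lit 0x8017985b4) (nat_lit 536870912),
  Rx.mk (nat_lit 104) (nat_lit 0) (nat_lit 5) (nat_lit 1) (nat_lit 6) (nat_lit 276) (nat_lit 318) r1_276 r8_318 (nat_lit 24741287) (nat_lit 0) (nat_lit 0) (nat_lit 0x8017985b4) (nat_lit 561612199),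
  Rx.mk (nat_lit 105) (nat_lit 1) (nat_lit 5) (nat_lit 1) (nat_lit 7) (nat_lit 277) (nat_lit 319) r1_277 r8_319 (nat_lit 0) (nat_lit 0) (nat_lit 0) (nat_lit 0x8017985b4) (nat_lit 536870912)]
noncomputable def e8_48 : List Rx := [
  Rx.mk (nat_lit 8) (nat_lit 0) (nat_lit 1) (nat_lit 0) (nat_lit 2) (nat_lit 262) (nat_lit 160) r1_262 r9_160 (nat_lit 38504019) (nat_lit 0) (nat_lit 68973086) (nat_lit 0x645605570) (nat_lit 1092404867),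
  Rx.mk (nat_lit 9) (nat_lit 1) (nat_lit 1) (nat_lit 0) (nat_lit 3) (nat_lit 265) (nat_lit 163) r1_265 r9_163 (nat_lit 0) (nat_lit 0) (nat_lit 24741287) (nat_lit 0x8017985b4) (nat_lit 561612199),
  Rx.mk (nat_lit 72) (nat_lit 0) (nat_lit 1) (nat_lit 1) (nat_lit 6) (nat_lit 263) (nat_lit 161) r1_263 r9_161 (nat_lit 24741287) (nat_lit 0) (nat_lit 0) (nat_lit 0x8004fdb2a) (nat_lit 562749199),
  Rx.mk (nat_lit 73) (nat_lit 1) (nat_lit 1) (nat_lit 1) (nat_lit 7) (nat_lit 266) (nat_lit 164) r1_266 r9_164 (nat_lit 0) (nat_lit 0) (nat_lit 0) (nat_lit 0x8017985b4) (nat_lit 536870912),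
  Rx.mk (nat_lit 136) (nat_lit 0) (nat_lit 1) (nat_lit 2) (nat_lit 6) (nat_lit 264) (nat_lit 162) r1_264 r9_162 (nat_lit 24741287) (nat_lit 0) (nat_lit 0) (nat_lit 0x8017985b4) (nat_lit 561612199),
  Rx.mk (nat_lit 137) (nat_lit 1) (nat_lit 1) (nat_lit 2) (nat_lit 7) (nat_lit 267) (nat_lit 165) r1_267 r9_165 (nat_lit 0) (nat_lit 0) (nat_lit 0) (nat_lit 0x8017985b4) (nat_lit 536870912),
  Rx.mk (nat_lit 138) (nat_lit 2) (nat_lit 1) (nat_lit 2) (nat_lit 7) (nat_lit 268) (nat_lit 166) r1_268 r9_166 (nat_lit 0) (nat_lit 0) (nat_lit 0) (nat_lit 0x8017985b4) (nat_lit 536870912)]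
noncomputable def e8_49 : List Rx := [
  Rx.mk (nat_lit 8) (nat_lit 0) (nat_lit 1) (nat_lit 0) (nat_lit 2) (nat_lit 269) (nat_lit 83) r1_269 r9_83 (nat_lit 134396714) (nat_lit 0) (nat_lit 34355931) (nat_lit 0x734bda226) (nat_lit 911788807),
  Rx.mk (nat_lit 136) (nat_lit 0) (nat_lit 1) (nat_lit 2) (nat_lit 6) (nat_lit 270) (nat_lit 84) r1_270 r9_84 (nat_lit 24741287) (nat_lit 0) (nat_lit 0) (nat_lit 0x8008f717c) (nat_lit 562505199),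
  Rx.mk (nat_lit 138) (nat_lit 2) (nat_lit 1) (nat_lit 2) (nat_lit 7) (nat_lit 271) (nat_lit 85) r1_271 r9_85 (nat_lit 0) (nat_lit 0) (nat_lit 0) (nat_lit 0x8017985b4) (nat_lit 536870912)]
noncomputable def e8_50 : List Rx := [
  Rx.mk (nat_lit 96) (nat_lit 0) (nat_lit 4) (nat_lit 1) (nat_lit 4) (nat_lit 293) (nat_lit 151) r1_293 r3_151 (nat_lit 11530) (nat_lit 12607) (nat_lit 0) (nat_lit 0x8001f4cc6) (nat_lit 536785599),
  Rx.mk (nat_lit 99) (nat_lit 3) (nat_lit 4) (nat_lit 1) (nat_lit 5) (nat_lit 294) (nat_lit 153) r1_294 r3_153 (nat_lit 0) (nat_lit 10831797) (nat_lit 0) (nat_lit 0x81a17f3bc) (nat_lit 523520059),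
  Rx.mk (nat_lit 104) (nat_lit 0) (nat_lit 5) (nat_lit 1) (nat_lit 6) (nat_lit 295) (nat_lit 152) r1_295 r3_152 (nat_lit 220600) (nat_lit 0) (nat_lit 0) (nat_lit 0x7fe1be20e) (nat_lit 539042412),
  Rx.mk (nat_lit 107) (nat_lit 3) (nat_lit 5) (nat_lit 1) (nat_lit 7) (nat_lit 296) (nat_lit 154) r1_296 r3_154 (nat_lit 0) (nat_lit 0) (nat_lit 0) (nat_lit 0x8071f5700) (nat_lit 530794662)]
noncomputable def e8_51 : List Rx := [
  Rx.mk (nat_lit 104) (nat_lit 0) (nat_lit 5) (nat_lit 1) (nat_lit 6) (nat_lit 305) (nat_lit 159) r1_305 r4_159 (nat_lit 25741495) (nat_lit 0) (nat_lit 0) (nat_lit 0x7f774491e) (nat_lit 572424907),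
  Rx.mk (nat_lit 107) (nat_lit 3) (nat_lit 5) (nat_lit 1) (nat_lit 7) (nat_lit 306) (nat_lit 160) r1_306 r4_160 (nat_lit 0) (nat_lit 0) (nat_lit 0) (nat_lit 0x80964275c) (nat_lit 529102962)]
noncomputable def e8_52 : List Rx := [
  Rx.mk (nat_lit 96) (nat_lit 0) (nat_lit 4) (nat_lit 1) (nat_lit 4) (nat_lit 311) (nat_lit 164) r1_311 r5_164 (nat_lit 8816353) (nat_lit 14978700) (nat_lit 0) (nat_lit 0x6ec49af3a) (nat_lit 839845015),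
  Rx.mk (nat_lit 99) (nat_lit 3) (nat_lit 4) (nat_lit 1) (nat_lit 5) (nat_lit 312) (nat_lit 167) r1_312 r5_167 (nat_lit 0) (nat_lit 20400359) (nat_lit 0) (nat_lit 0x8039ecd5e) (nat_lit 555033421),
  Rx.mk (nat_lit 104) (nat_lit 0) (nat_lit 5) (nat_lit 1) (nat_lit 6) (nat_lit 313) (nat_lit 165) r1_313 r5_165 (nat_lit 20314026) (nat_lit 0) (nat_lit 0) (nat_lit 0x80db604a6) (nat_lit 545190438),
  Rx.mk (nat_lit 107) (nat_lit 3) (nat_lit 5) (nat_lit 1) (nat_lit 7) (nat_lit 314) (nat_lit 168) r1_314 r5_168 (nat_lit 0) (nat_lit 0) (nat_lit 0) (nat_lit 0x8095f8012) (nat_lit 529083662),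
  Rx.mk (nat_lit 120) (nat_lit 0) (nat_lit 7) (nat_lit 1) (nat_lit 6) (nat_lit 315) (nat_lit 166) r1_315 r5_166 (nat_lit 6296235) (nat_lit 0) (nat_lit 0) (nat_lit 0x7df201f0a) (nat_lit 577066447)]
noncomputable def e8_53 : List Rx := [
  Rx.mk (nat_lit 96) (nat_lit 0) (nat_lit 4) (nat_lit 1) (nat_lit 4) (nat_lit 297) (nat_lit 293) r1_297 r4_293 (nat_lit 16666109) (nat_lit 79659509) (nat_lit 0) (nat_lit 0x6e82c4200) (nat_lit 916697780),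
  Rx.mk (nat_lit 97) (nat_lit 1) (nat_lit 4) (nat_lit 1) (nat_lit 5) (nat_lit 298) (nat_lit 294) r1_298 r4_294 (nat_lit 0) (nat_lit 132162371) (nat_lit 0) (nat_lit 0x7a51f7832) (nat_lit 761496733),
  Rx.mk (nat_lit 99) (nat_lit 3) (nat_lit 4) (nat_lit 1) (nat_lit 5) (nat_lit 299) (nat_lit 295) r1_299 r4_295 (nat_lit 0) (nat_lit 29428945) (nat_lit 0) (nat_lit 0x800d7d0e8) (nat_lit 566895407),
  Rx.mk (nat_lit 104) (nat_lit 0) (nat_lit 5) (nat_lit 1) (nat_lit 6) (nat_lit 300) (nat_lit 296) r1_300 r4_296 (nat_lit 21556671) (nat_lit 0) (nat_lit 0) (nat_lit 0x801c58cca) (nat_lit 558112583),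
  Rx.mk (nat_lit 105) (nat_lit 1) (nat_lit 5) (nat_lit 1) (nat_lit 7) (nat_lit 301) (nat_lit 297) r1_301 r4_297 (nat_lit 0) (nat_lit 0) (nat_lit 0) (nat_lit 0x80b000be4) (nat_lit 527525712),
  Rx.mk (nat_lit 107) (nat_lit 3) (nat_lit 5) (nat_lit 1) (nat_lit 7) (nat_lit 302) (nat_lit 298) r1_302 r4_298 (nat_lit 0) (nat_lit 0) (nat_lit 0) (nat_lit 0x80691f28e) (nat_lit 531863312)]
noncomputable def e8_54 : List Rx := [
  Rx.mk (nat_lit 104) (nat_lit 0) (nat_lit 5) (nat_lit 1) (nat_lit 6) (nat_lit 307) (nat_lit 172) r1_307 r10_172 (nat_lit 24741287) (nat_lit 0) (nat_lit 0) (nat_lit 0x8017985b4) (nat_lit 561612199),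
  Rx.mk (nat_lit 105) (nat_lit 1) (nat_lit 5) (nat_lit 1) (nat_lit 7) (nat_lit 308) (nat_lit 173) r1_308 r10_173 (nat_lit 0) (nat_lit 0) (nat_lit 0) (nat_lit 0x8017985b4) (nat_lit 536870912),
  Rx.mk (nat_lit 107) (nat_lit 3) (nat_lit 5) (nat_lit 1) (nat_lit 7) (nat_lit 309) (nat_lit 174) r1_309 r10_174 (nat_lit 0) (nat_lit 0) (nat_lit 0) (nat_lit 0x8017985b4) (nat_lit 536870912)]
noncomputable def e8_55 : List Rx := [
  Rx.mk (nat_lit 96) (nat_lit 0) (nat_lit 4) (nat_lit 1) (nat_lit 4) (nat_lit 316) (nat_lit 183) r1_316 r11_183 (nat_lit 31169867) (nat_lit 115272517) (nat_lit 0) (nat_lit 0x729ca1386) (nat_lit 900542746),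
  Rx.mk (nat_lit 97) (nat_lit 1) (nat_lit 4) (nat_lit 1) (nat_lit 5) (nat_lit 317) (nat_lit 186) r1_317 r11_186 (nat_lit 0) (nat_lit 39197522) (nat_lit 0) (nat_lit 0x7db914fa8) (nat_lit 613796734),
  Rx.mk (nat_lit 99) (nat_lit 3) (nat_lit 4) (nat_lit 1) (nat_lit 5) (nat_lit 318) (nat_lit 189) r1_318 r11_189 (nat_lit 0) (nat_lit 24741287) (nat_lit 0) (nat_lit 0x8017985b4) (nat_lit 561612199),
  Rx.mk (nat_lit 104) (nat_lit 0) (nat_lit 5) (nat_lit 1) (nat_lit 6) (nat_lit 319) (nat_lit 184) r1_319 r11_184 (nat_lit 24741287) (nat_lit 0) (nat_lit 0) (nat_lit 0x8017985b4) (nat_lit 561612199),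
  Rx.mk (nat_lit 105) (nat_lit 1) (nat_lit 5) (nat_lit 1) (nat_lit 7) (nat_lit 320) (nat_lit 187) r1_320 r11_187 (nat_lit 0) (nat_lit 0) (nat_lit 0) (nat_lit 0x8017985b4) (nat_lit 536870912),
  Rx.mk (nat_lit 107) (nat_lit 3) (nat_lit 5) (nat_lit 1) (nat_lit 7) (nat_lit 321) (nat_lit 190) r1_321 r11_190 (nat_lit 0) (nat_lit 0) (nat_lit 0) (nat_lit 0x8017985b4) (nat_lit 536870912),
  Rx.mk (nat_lit 120) (nat_lit 0) (nat_lit 7) (nat_lit 1) (nat_lit 6) (nat_lit 322) (nat_lit 185) r1_322 r11_185 (nat_lit 24741287) (nat_lit 0) (nat_lit 0) (nat_lit 0x8017985b4) (nat_lit 561612199),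
  Rx.mk (nat_lit 121) (nat_lit 1) (nat_lit 7) (nat_lit 1) (nat_lit 7) (nat_lit 323) (nat_lit 188) r1_323 r11_188 (nat_lit 0) (nat_lit 0) (nat_lit 0) (nat_lit 0x81759db22) (nat_lit 515567712)]
noncomputable def e8_56 : List Rx := [
  Rx.mk (nat_lit 99) (nat_lit 3) (nat_lit 4) (nat_lit 1) (nat_lit 5) (nat_lit 303) (nat_lit 273) r1_303 r5_273 (nat_lit 0) (nat_lit 15528047) (nat_lit 0) (nat_lit 0x815c32e9e) (nat_lit 532577559),
  Rx.mk (nat_lit 107) (nat_lit 3) (nat_lit 5) (nat_lit 1) (nat_lit 7) (nat_lit 304) (nat_lit 274) r1_304 r5_274 (nat_lit 0) (nat_lit 0) (nat_lit 0) (nat_lit 0x825a7268a) (nat_lit 501688462)]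
noncomputable def e8_57 : List Rx := [
  Rx.mk (nat_lit 107) (nat_lit 3) (nat_lit 5) (nat_lit 1) (nat_lit 7) (nat_lit 310) (nat_lit 338) r1_310 r11_338 (nat_lit 0) (nat_lit 0) (nat_lit 0) (nat_lit 0x8017985b4) (nat_lit 536870912)]
noncomputable def e8 : List (List Rx) := [e8_0, e8_1, e8_2, e8_3, e8_4, e8_5, e8_6, e8_7, e8_8, e8_9, e8_10, e8_11, e8_12, e8_13, e8_14, e8_15, e8_16, e8_17, e8_18, e8_19, e8_20, e8_21, e8_22, e8_23, e8_24, e8_25, e8_26, e8_27, e8_28, e8_29, e8_30, e8_31, e8_32, e8_33, e8_34, e8_35, e8_36, e8_37, e8_38, e8_39, e8_40, e8_41, e8_42, e8_43, e8_44, e8_45, e8_46, e8_47, e8_48, e8_49, e8_50, e8_51, e8_52, e8_53, e8_54, e8_55, e8_56, e8_57]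
noncomputable def e9_0 : List Rx := [
  Rx.mk (nat_lit 116) (nat_lit 4) (nat_lit 6) (nat_lit 1) (nat_lit 6) (nat_lit 68) (nat_lit 79) r4_68 r0_79 (nat_lit 6167468) (nat_lit 0) (nat_lit 0) (nat_lit 0x5e86efab0) (nat_lit 1084789780),
  Rx.mk (nat_lit 372) (nat_lit 4) (nat_lit 6) (nat_lit 5) (nat_lit 6) (nat_lit 69) (nat_lit 80) r4_69 r0_80 (nat_lit 13011950) (nat_lit 0) (nat_lit 0) (nat_lit 0x7c2e5800a) (nat_lit 612357812),
  Rx.mk (nat_lit 375) (nat_lit 7) (nat_lit 6) (nat_lit 5) (nat_lit 7) (nat_lit 70) (nat_lit 81) r4_70 r0_81 (nat_lit 0) (nat_lit 0) (nat_lit 0) (nat_lit 0x7f12b28fc) (nat_lit 552544162)]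
noncomputable def e9_1 : List Rx := [
  Rx.mk (nat_lit 372) (nat_lit 4) (nat_lit 6) (nat_lit 5) (nat_lit 6) (nat_lit 71) (nat_lit 85) r4_71 r1_85 (nat_lit 18076853) (nat_lit 0) (nat_lit 0) (nat_lit 0x7feb22318) (nat_lit 557573915),
  Rx.mk (nat_lit 374) (nat_lit 6) (nat_lit 6) (nat_lit 5) (nat_lit 7) (nat_lit 72) (nat_lit 87) r4_72 r1_87 (nat_lit 0) (nat_lit 0) (nat_lit 0) (nat_lit 0x8017985b4) (nat_lit 536870912),
  Rx.mk (nat_lit 375) (nat_lit 7) (nat_lit 6) (nat_lit 5) (nat_lit 7) (nat_lit 73) (nat_lit 86) r4_73 r1_86 (nat_lit 0) (nat_lit 0) (nat_lit 0) (nat_lit 0x8445fa28c) (nat_lit 472429712)]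
noncomputable def e9_2 : List Rx := [
  Rx.mk (nat_lit 278) (nat_lit 6) (nat_lit 2) (nat_lit 4) (nat_lit 3) (nat_lit 21) (nat_lit 89) r4_21 r2_89 (nat_lit 0) (nat_lit 0) (nat_lit 16949147) (nat_lit 0x80890f31e) (nat_lit 546864309),
  Rx.mk (nat_lit 308) (nat_lit 4) (nat_lit 6) (nat_lit 4) (nat_lit 2) (nat_lit 24) (nat_lit 84) r4_24 r2_84 (nat_lit 8468611) (nat_lit 0) (nat_lit 4698401) (nat_lit 0x6f73fce92) (nat_lit 818155574),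
  Rx.mk (nat_lit 310) (nat_lit 6) (nat_lit 6) (nat_lit 4) (nat_lit 3) (nat_lit 26) (nat_lit 92) r4_26 r2_92 (nat_lit 0) (nat_lit 0) (nat_lit 18137495) (nat_lit 0x807289324) (nat_lit 549428707),
  Rx.mk (nat_lit 311) (nat_lit 7) (nat_lit 6) (nat_lit 4) (nat_lit 3) (nat_lit 28) (nat_lit 86) r4_28 r2_86 (nat_lit 0) (nat_lit 0) (nat_lit 4236250) (nat_lit 0x81374ce9a) (nat_lit 523350712),
  Rx.mk (nat_lit 342) (nat_lit 6) (nat_lit 2) (nat_lit 5) (nat_lit 7) (nat_lit 22) (nat_lit 90) r4_22 r2_90 (nat_lit 0) (nat_lit 0) (nat_lit 0) (nat_lit 0x8017985b4) (nat_lit 536870912),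
  Rx.mk (nat_lit 372) (nat_lit 4) (nat_lit 6) (nat_lit 5) (nat_lit 6) (nat_lit 25) (nat_lit 85) r4_25 r2_85 (nat_lit 26453388) (nat_lit 0) (nat_lit 0) (nat_lit 0x802d4deae) (nat_lit 561974850),
  Rx.mk (nat_lit 374) (nat_lit 6) (nat_lit 6) (nat_lit 5) (nat_lit 7) (nat_lit 27) (nat_lit 93) r4_27 r2_93 (nat_lit 0) (nat_lit 0) (nat_lit 0) (nat_lit 0x8017985b4) (nat_lit 536870912),
  Rx.mk (nat_lit 375) (nat_lit 7) (nat_lit 6) (nat_lit 5) (nat_lit 7) (nat_lit 29) (nat_lit 87) r4_29 r2_87 (nat_lit 0) (nat_lit 0) (nat_lit 0) (nat_lit 0x817902fd8) (nat_lit 515379662),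
  Rx.mk (nat_lit 406) (nat_lit 6) (nat_lit 2) (nat_lit 6) (nat_lit 7) (nat_lit 23) (nat_lit 91) r4_23 r2_91 (nat_lit 0) (nat_lit 0) (nat_lit 0) (nat_lit 0x8017985b4) (nat_lit 536870912),
  Rx.mk (nat_lit 503) (nat_lit 7) (nat_lit 6) (nat_lit 7) (nat_lit 7) (nat_lit 30) (nat_lit 88) r4_30 r2_88 (nat_lit 0) (nat_lit 0) (nat_lit 0) (nat_lit 0x8173c4f94) (nat_lit 515699662)]
noncomputable def e9_3 : List Rx := [
  Rx.mk (nat_lit 103) (nat_lit 7) (nat_lit 4) (nat_lit 1) (nat_lit 5) (nat_lit 65) (nat_lit 72) r4_65 r3_72 (nat_lit 0) (nat_lit 20881) (nat_lit 0) (nat_lit 0x7ff798390) (nat_lit 537424343),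
  Rx.mk (nat_lit 116) (nat_lit 4) (nat_lit 6) (nat_lit 1) (nat_lit 6) (nat_lit 66) (nat_lit 71) r4_66 r3_71 (nat_lit 162706) (nat_lit 0) (nat_lit 0) (nat_lit 0x7fec4a02e) (nat_lit 538305068),
  Rx.mk (nat_lit 119) (nat_lit 7) (nat_lit 6) (nat_lit 1) (nat_lit 7) (nat_lit 67) (nat_lit 73) r4_67 r3_73 (nat_lit 0) (nat_lit 0) (nat_lit 0) (nat_lit 0x7ffafb73a) (nat_lit 537214012)]
noncomputable def e9_4 : List Rx := [
  Rx.mk (nat_lit 103) (nat_lit 7) (nat_lit 4) (nat_lit 1) (nat_lit 5) (nat_lit 74) (nat_lit 75) r4_74 r4_75 (nat_lit 0) (nat_lit 7592338) (nat_lit 0) (nat_lit 0x7d0c0142e) (nat_lit 592808150),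
  Rx.mk (nat_lit 116) (nat_lit 4) (nat_lit 6) (nat_lit 1) (nat_lit 6) (nat_lit 75) (nat_lit 74) r4_75 r4_74 (nat_lit 7592338) (nat_lit 0) (nat_lit 0) (nat_lit 0x7d0c0142e) (nat_lit 592808150),
  Rx.mk (nat_lit 119) (nat_lit 7) (nat_lit 6) (nat_lit 1) (nat_lit 7) (nat_lit 76) (nat_lit 76) r4_76 r4_76 (nat_lit 0) (nat_lit 0) (nat_lit 0) (nat_lit 0x7fb75d550) (nat_lit 541473012),
  Rx.mk (nat_lit 375) (nat_lit 7) (nat_lit 6) (nat_lit 5) (nat_lit 7) (nat_lit 77) (nat_lit 77) r4_77 r4_77 (nat_lit 0) (nat_lit 0) (nat_lit 0) (nat_lit 0x8186ed79c) (nat_lit 514518262)]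
noncomputable def e9_5 : List Rx := [
  Rx.mk (nat_lit 103) (nat_lit 7) (nat_lit 4) (nat_lit 1) (nat_lit 5) (nat_lit 89) (nat_lit 67) r4_89 r5_67 (nat_lit 0) (nat_lit 10750557) (nat_lit 0) (nat_lit 0x7fd33eeae) (nat_lit 551622569),
  Rx.mk (nat_lit 116) (nat_lit 4) (nat_lit 6) (nat_lit 1) (nat_lit 6) (nat_lit 90) (nat_lit 66) r4_90 r5_66 (nat_lit 9749711) (nat_lit 0) (nat_lit 0) (nat_lit 0x7ffe1e016) (nat_lit 547673873),
  Rx.mk (nat_lit 119) (nat_lit 7) (nat_lit 6) (nat_lit 1) (nat_lit 7) (nat_lit 91) (nat_lit 69) r4_91 r5_69 (nat_lit 0) (nat_lit 0) (nat_lit 0) (nat_lit 0x8121440f8) (nat_lit 520021762),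
  Rx.mk (nat_lit 127) (nat_lit 7) (nat_lit 7) (nat_lit 1) (nat_lit 7) (nat_lit 92) (nat_lit 68) r4_92 r5_68 (nat_lit 0) (nat_lit 0) (nat_lit 0) (nat_lit 0x7fb528974) (nat_lit 542767312)]
noncomputable def e9_6 : List Rx := [
  Rx.mk (nat_lit 59) (nat_lit 3) (nat_lit 7) (nat_lit 0) (nat_lit 3) (nat_lit 36) (nat_lit 43) r4_36 r3_43 (nat_lit 0) (nat_lit 0) (nat_lit 631050) (nat_lit 0x80795a612) (nat_lit 530585312),
  Rx.mk (nat_lit 152) (nat_lit 0) (nat_lit 3) (nat_lit 2) (nat_lit 6) (nat_lit 31) (nat_lit 47) r4_31 r3_47 (nat_lit 24740) (nat_lit 0) (nat_lit 0) (nat_lit 0x7ff7bed42) (nat_lit 537418902),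
  Rx.mk (nat_lit 154) (nat_lit 2) (nat_lit 3) (nat_lit 2) (nat_lit 7) (nat_lit 32) (nat_lit 49) r4_32 r3_49 (nat_lit 0) (nat_lit 0) (nat_lit 0) (nat_lit 0x7990b12cc) (nat_lit 641633562),
  Rx.mk (nat_lit 155) (nat_lit 3) (nat_lit 3) (nat_lit 2) (nat_lit 7) (nat_lit 33) (nat_lit 48) r4_33 r3_48 (nat_lit 0) (nat_lit 0) (nat_lit 0) (nat_lit 0x8112e8e28) (nat_lit 521452962),
  Rx.mk (nat_lit 187) (nat_lit 3) (nat_lit 7) (nat_lit 2) (nat_lit 7) (nat_lit 37) (nat_lit 45) r4_37 r3_45 (nat_lit 0) (nat_lit 0) (nat_lit 0) (nat_lit 0x80712030c) (nat_lit 531200012),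
  Rx.mk (nat_lit 231) (nat_lit 7) (nat_lit 4) (nat_lit 3) (nat_lit 5) (nat_lit 34) (nat_lit 41) r4_34 r3_41 (nat_lit 0) (nat_lit 929445) (nat_lit 0) (nat_lit 0x7e1ef5642) (nat_lit 568442957),
  Rx.mk (nat_lit 247) (nat_lit 7) (nat_lit 6) (nat_lit 3) (nat_lit 7) (nat_lit 35) (nat_lit 46) r4_35 r3_46 (nat_lit 0) (nat_lit 0) (nat_lit 0) (nat_lit 0x7fc8e9274) (nat_lit 540391512),
  Rx.mk (nat_lit 251) (nat_lit 3) (nat_lit 7) (nat_lit 3) (nat_lit 7) (nat_lit 38) (nat_lit 44) r4_38 r3_44 (nat_lit 0) (nat_lit 0) (nat_lit 0) (nat_lit 0x806259120) (nat_lit 532277862),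
  Rx.mk (nat_lit 255) (nat_lit 7) (nat_lit 7) (nat_lit 3) (nat_lit 7) (nat_lit 39) (nat_lit 42) r4_39 r3_42 (nat_lit 0) (nat_lit 0) (nat_lit 0) (nat_lit 0x802f141c0) (nat_lit 535365262)]
noncomputable def e9_7 : List Rx := [
  Rx.mk (nat_lit 130) (nat_lit 2) (nat_lit 0) (nat_lit 2) (nat_lit 5) (nat_lit 0) (nat_lit 58) r4_0 r0_58 (nat_lit 0) (nat_lit 5660977) (nat_lit 0) (nat_lit 0x6025939b8) (nat_lit 1058125439),
  Rx.mk (nat_lit 152) (nat_lit 0) (nat_lit 3) (nat_lit 2) (nat_lit 6) (nat_lit 5) (nat_lit 59) r4_5 r0_59 (nat_lit 82674763) (nat_lit 0) (nat_lit 0) (nat_lit 0x7746f3588) (nat_lit 761260075),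
  Rx.mk (nat_lit 154) (nat_lit 2) (nat_lit 3) (nat_lit 2) (nat_lit 7) (nat_lit 6) (nat_lit 61) r4_6 r0_61 (nat_lit 0) (nat_lit 0) (nat_lit 0) (nat_lit 0x7f2c10cae) (nat_lit 551161962),
  Rx.mk (nat_lit 155) (nat_lit 3) (nat_lit 3) (nat_lit 2) (nat_lit 7) (nat_lit 7) (nat_lit 60) r4_7 r0_60 (nat_lit 0) (nat_lit 0) (nat_lit 0) (nat_lit 0x7f7512f6a) (nat_lit 546825312),
  Rx.mk (nat_lit 278) (nat_lit 6) (nat_lit 2) (nat_lit 4) (nat_lit 3) (nat_lit 3) (nat_lit 62) r4_3 r0_62 (nat_lit 0) (nat_lit 0) (nat_lit 11579015) (nat_lit 0x7fd79e04e) (nat_lit 552249627),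
  Rx.mk (nat_lit 308) (nat_lit 4) (nat_lit 6) (nat_lit 4) (nat_lit 2) (nat_lit 8) (nat_lit 52) r4_8 r0_52 (nat_lit 22112455) (nat_lit 0) (nat_lit 6694296) (nat_lit 0x63f406554) (nat_lit 1019765813),
  Rx.mk (nat_lit 310) (nat_lit 6) (nat_lit 6) (nat_lit 4) (nat_lit 3) (nat_lit 10) (nat_lit 55) r4_10 r0_55 (nat_lit 0) (nat_lit 0) (nat_lit 12464414) (nat_lit 0x7d1fc1338) (nat_lit 596680676),
  Rx.mk (nat_lit 386) (nat_lit 2) (nat_lit 0) (nat_lit 6) (nat_lit 5) (nat_lit 1) (nat_lit 57) r4_1 r0_57 (nat_lit 0) (nat_lit 13925368) (nat_lit 0) (nat_lit 0x7d011df30) (nat_lit 600028230),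
  Rx.mk (nat_lit 402) (nat_lit 2) (nat_lit 2) (nat_lit 6) (nat_lit 7) (nat_lit 2) (nat_lit 64) r4_2 r0_64 (nat_lit 0) (nat_lit 0) (nat_lit 0) (nat_lit 0x80a6ddf44) (nat_lit 528084262),
  Rx.mk (nat_lit 406) (nat_lit 6) (nat_lit 2) (nat_lit 6) (nat_lit 7) (nat_lit 4) (nat_lit 63) r4_4 r0_63 (nat_lit 0) (nat_lit 0) (nat_lit 0) (nat_lit 0x804ed3af6) (nat_lit 533452762),
  Rx.mk (nat_lit 500) (nat_lit 4) (nat_lit 6) (nat_lit 7) (nat_lit 6) (nat_lit 9) (nat_lit 53) r4_9 r0_53 (nat_lit 74749020) (nat_lit 0) (nat_lit 0) (nat_lit 0x751698fde) (nat_lit 788742832),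
  Rx.mk (nat_lit 502) (nat_lit 6) (nat_lit 6) (nat_lit 7) (nat_lit 7) (nat_lit 11) (nat_lit 56) r4_11 r0_56 (nat_lit 0) (nat_lit 0) (nat_lit 0) (nat_lit 0x8071443a6) (nat_lit 531356412),
  Rx.mk (nat_lit 503) (nat_lit 7) (nat_lit 6) (nat_lit 7) (nat_lit 7) (nat_lit 12) (nat_lit 54) r4_12 r0_54 (nat_lit 0) (nat_lit 0) (nat_lit 0) (nat_lit 0x76aa13858) (nat_lit 688374962)]
noncomputable def e9_8 : List Rx := [
  Rx.mk (nat_lit 278) (nat_lit 6) (nat_lit 2) (nat_lit 4) (nat_lit 3) (nat_lit 14) (nat_lit 55) r4_14 r1_55 (nat_lit 0) (nat_lit 0) (nat_lit 13824857) (nat_lit 0x8053119f6) (nat_lit 546991619),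
  Rx.mk (nat_lit 308) (nat_lit 4) (nat_lit 6) (nat_lit 4) (nat_lit 2) (nat_lit 16) (nat_lit 50) r4_16 r1_50 (nat_lit 67051359) (nat_lit 0) (nat_lit 12415695) (nat_lit 0x6dd5f0330) (nat_lit 910715916),
  Rx.mk (nat_lit 310) (nat_lit 6) (nat_lit 6) (nat_lit 4) (nat_lit 3) (nat_lit 18) (nat_lit 53) r4_18 r1_53 (nat_lit 0) (nat_lit 0) (nat_lit 18565138) (nat_lit 0x7e088a2e0) (nat_lit 588194500),
  Rx.mk (nat_lit 402) (nat_lit 2) (nat_lit 2) (nat_lit 6) (nat_lit 7) (nat_lit 13) (nat_lit 57) r4_13 r1_57 (nat_lit 0) (nat_lit 0) (nat_lit 0) (nat_lit 0x8007403f6) (nat_lit 537871262),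
  Rx.mk (nat_lit 406) (nat_lit 6) (nat_lit 2) (nat_lit 6) (nat_lit 7) (nat_lit 15) (nat_lit 56) r4_15 r1_56 (nat_lit 0) (nat_lit 0) (nat_lit 0) (nat_lit 0x8078ceb44) (nat_lit 530903862),
  Rx.mk (nat_lit 500) (nat_lit 4) (nat_lit 6) (nat_lit 7) (nat_lit 6) (nat_lit 17) (nat_lit 51) r4_17 r1_51 (nat_lit 32103431) (nat_lit 0) (nat_lit 0) (nat_lit 0x7f4592056) (nat_lit 581897443),
  Rx.mk (nat_lit 502) (nat_lit 6) (nat_lit 6) (nat_lit 7) (nat_lit 7) (nat_lit 19) (nat_lit 54) r4_19 r1_54 (nat_lit 0) (nat_lit 0) (nat_lit 0) (nat_lit 0x8017985b4) (nat_lit 536870912),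
  Rx.mk (nat_lit 503) (nat_lit 7) (nat_lit 6) (nat_lit 7) (nat_lit 7) (nat_lit 20) (nat_lit 52) r4_20 r1_52 (nat_lit 0) (nat_lit 0) (nat_lit 0) (nat_lit 0x8256757bc) (nat_lit 501986312)]
noncomputable def e9_9 : List Rx := [
  Rx.mk (nat_lit 59) (nat_lit 3) (nat_lit 7) (nat_lit 0) (nat_lit 3) (nat_lit 54) (nat_lit 42) r4_54 r4_42 (nat_lit 0) (nat_lit 0) (nat_lit 21693) (nat_lit 0x7f520135a) (nat_lit 547891305),
  Rx.mk (nat_lit 152) (nat_lit 0) (nat_lit 3) (nat_lit 2) (nat_lit 6) (nat_lit 45) (nat_lit 50) r4_45 r4_50 (nat_lit 46073) (nat_lit 0) (nat_lit 0) (nat_lit 0x7fd3d4b02) (nat_lit 539721735),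
  Rx.mk (nat_lit 154) (nat_lit 2) (nat_lit 3) (nat_lit 2) (nat_lit 7) (nat_lit 46) (nat_lit 53) r4_46 r4_53 (nat_lit 0) (nat_lit 0) (nat_lit 0) (nat_lit 0x7ecfb6c88) (nat_lit 556095412),
  Rx.mk (nat_lit 155) (nat_lit 3) (nat_lit 3) (nat_lit 2) (nat_lit 7) (nat_lit 48) (nat_lit 51) r4_48 r4_51 (nat_lit 0) (nat_lit 0) (nat_lit 0) (nat_lit 0x843b695d4) (nat_lit 473034362),
  Rx.mk (nat_lit 187) (nat_lit 3) (nat_lit 7) (nat_lit 2) (nat_lit 7) (nat_lit 55) (nat_lit 44) r4_55 r4_44 (nat_lit 0) (nat_lit 0) (nat_lit 0) (nat_lit 0x81a8d71a0) (nat_lit 512426612),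
  Rx.mk (nat_lit 231) (nat_lit 7) (nat_lit 4) (nat_lit 3) (nat_lit 5) (nat_lit 49) (nat_lit 40) r4_49 r4_40 (nat_lit 0) (nat_lit 47488) (nat_lit 0) (nat_lit 0x7f4c14ed8) (nat_lit 548301250),
  Rx.mk (nat_lit 247) (nat_lit 7) (nat_lit 6) (nat_lit 3) (nat_lit 7) (nat_lit 52) (nat_lit 47) r4_52 r4_47 (nat_lit 0) (nat_lit 0) (nat_lit 0) (nat_lit 0x8245b8b4a) (nat_lit 503024812),
  Rx.mk (nat_lit 251) (nat_lit 3) (nat_lit 7) (nat_lit 3) (nat_lit 7) (nat_lit 56) (nat_lit 43) r4_56 r4_43 (nat_lit 0) (nat_lit 0) (nat_lit 0) (nat_lit 0x823ed6796) (nat_lit 503474812),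
  Rx.mk (nat_lit 255) (nat_lit 7) (nat_lit 7) (nat_lit 3) (nat_lit 7) (nat_lit 57) (nat_lit 41) r4_57 r4_41 (nat_lit 0) (nat_lit 0) (nat_lit 0) (nat_lit 0x833e66080) (nat_lit 488151412),
  Rx.mk (nat_lit 278) (nat_lit 6) (nat_lit 2) (nat_lit 4) (nat_lit 3) (nat_lit 42) (nat_lit 54) r4_42 r4_54 (nat_lit 0) (nat_lit 0) (nat_lit 21693) (nat_lit 0x7f520135a) (nat_lit 547891305),
  Rx.mk (nat_lit 386) (nat_lit 2) (nat_lit 0) (nat_lit 6) (nat_lit 5) (nat_lit 40) (nat_lit 49) r4_40 r4_49 (nat_lit 0) (nat_lit 47488) (nat_lit 0) (nat_lit 0x7f4c14ed8) (nat_lit 548301250),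
  Rx.mk (nat_lit 402) (nat_lit 2) (nat_lit 2) (nat_lit 6) (nat_lit 7) (nat_lit 41) (nat_lit 57) r4_41 r4_57 (nat_lit 0) (nat_lit 0) (nat_lit 0) (nat_lit 0x833e66080) (nat_lit 488151412),
  Rx.mk (nat_lit 406) (nat_lit 6) (nat_lit 2) (nat_lit 6) (nat_lit 7) (nat_lit 43) (nat_lit 56) r4_43 r4_56 (nat_lit 0) (nat_lit 0) (nat_lit 0) (nat_lit 0x823ed6796) (nat_lit 503474812),
  Rx.mk (nat_lit 410) (nat_lit 2) (nat_lit 3) (nat_lit 6) (nat_lit 7) (nat_lit 47) (nat_lit 52) r4_47 r4_52 (nat_lit 0) (nat_lit 0) (nat_lit 0) (nat_lit 0x8245b8b4a) (nat_lit 503024812),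
  Rx.mk (nat_lit 470) (nat_lit 6) (nat_lit 2) (nat_lit 7) (nat_lit 7) (nat_lit 44) (nat_lit 55) r4_44 r4_55 (nat_lit 0) (nat_lit 0) (nat_lit 0) (nat_lit 0x81a8d71a0) (nat_lit 512426612),
  Rx.mk (nat_lit 500) (nat_lit 4) (nat_lit 6) (nat_lit 7) (nat_lit 6) (nat_lit 50) (nat_lit 45) r4_50 r4_45 (nat_lit 46073) (nat_lit 0) (nat_lit 0) (nat_lit 0x7fd3d4b02) (nat_lit 539721735),
  Rx.mk (nat_lit 502) (nat_lit 6) (nat_lit 6) (nat_lit 7) (nat_lit 7) (nat_lit 51) (nat_lit 48) r4_51 r4_48 (nat_lit 0) (nat_lit 0) (nat_lit 0) (nat_lit 0x843b695d4) (nat_lit 473034362),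
  Rx.mk (nat_lit 503) (nat_lit 7) (nat_lit 6) (nat_lit 7) (nat_lit 7) (nat_lit 53) (nat_lit 46) r4_53 r4_46 (nat_lit 0) (nat_lit 0) (nat_lit 0) (nat_lit 0x7ecfb6c88) (nat_lit 556095412)]
noncomputable def e9_10 : List Rx := [
  Rx.mk (nat_lit 39) (nat_lit 7) (nat_lit 4) (nat_lit 0) (nat_lit 1) (nat_lit 78) (nat_lit 62) r4_78 r6_62 (nat_lit 0) (nat_lit 3814909) (nat_lit 2670845) (nat_lit 0x6861eb944) (nat_lit 925706566),
  Rx.mk (nat_lit 55) (nat_lit 7) (nat_lit 6) (nat_lit 0) (nat_lit 3) (nat_lit 81) (nat_lit 67) r4_81 r6_67 (nat_lit 0) (nat_lit 0) (nat_lit 136651) (nat_lit 0x6297d7fc2) (nat_lit 1012582363),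
  Rx.mk (nat_lit 59) (nat_lit 3) (nat_lit 7) (nat_lit 0) (nat_lit 3) (nat_lit 84) (nat_lit 59) r4_84 r6_59 (nat_lit 0) (nat_lit 0) (nat_lit 5828454) (nat_lit 0x7fc27fd8e) (nat_lit 547632616),
  Rx.mk (nat_lit 63) (nat_lit 7) (nat_lit 7) (nat_lit 0) (nat_lit 3) (nat_lit 87) (nat_lit 65) r4_87 r6_65 (nat_lit 0) (nat_lit 0) (nat_lit 9821827) (nat_lit 0x7fc4fda48) (nat_lit 551627389),
  Rx.mk (nat_lit 103) (nat_lit 7) (nat_lit 4) (nat_lit 1) (nat_lit 5) (nat_lit 79) (nat_lit 63) r4_79 r6_63 (nat_lit 0) (nat_lit 9313182) (nat_lit 0) (nat_lit 0x8051e9268) (nat_lit 542445944),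
  Rx.mk (nat_lit 119) (nat_lit 7) (nat_lit 6) (nat_lit 1) (nat_lit 7) (nat_lit 82) (nat_lit 68) r4_82 r6_68 (nat_lit 0) (nat_lit 0) (nat_lit 0) (nat_lit 0x80f6273ca) (nat_lit 522994062),
  Rx.mk (nat_lit 123) (nat_lit 3) (nat_lit 7) (nat_lit 1) (nat_lit 7) (nat_lit 85) (nat_lit 60) r4_85 r6_60 (nat_lit 0) (nat_lit 0) (nat_lit 0) (nat_lit 0x80fddf1bc) (nat_lit 522806362),
  Rx.mk (nat_lit 127) (nat_lit 7) (nat_lit 7) (nat_lit 1) (nat_lit 7) (nat_lit 88) (nat_lit 66) r4_88 r6_66 (nat_lit 0) (nat_lit 0) (nat_lit 0) (nat_lit 0x8046420c2) (nat_lit 534001662),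
  Rx.mk (nat_lit 187) (nat_lit 3) (nat_lit 7) (nat_lit 2) (nat_lit 7) (nat_lit 86) (nat_lit 61) r4_86 r6_61 (nat_lit 0) (nat_lit 0) (nat_lit 0) (nat_lit 0x80efb1ee6) (nat_lit 523668462),
  Rx.mk (nat_lit 231) (nat_lit 7) (nat_lit 4) (nat_lit 3) (nat_lit 5) (nat_lit 80) (nat_lit 64) r4_80 r6_64 (nat_lit 0) (nat_lit 10422876) (nat_lit 0) (nat_lit 0x7e366a3fe) (nat_lit 577077388),
  Rx.mk (nat_lit 247) (nat_lit 7) (nat_lit 6) (nat_lit 3) (nat_lit 7) (nat_lit 83) (nat_lit 69) r4_83 r6_69 (nat_lit 0) (nat_lit 0) (nat_lit 0) (nat_lit 0x80d433d36) (nat_lit 525049262)]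
noncomputable def e9_11 : List Rx := [
  Rx.mk (nat_lit 59) (nat_lit 3) (nat_lit 7) (nat_lit 0) (nat_lit 3) (nat_lit 61) (nat_lit 30) r4_61 r5_30 (nat_lit 0) (nat_lit 0) (nat_lit 2696286) (nat_lit 0x7ed2b6d5c) (nat_lit 559201548),
  Rx.mk (nat_lit 63) (nat_lit 7) (nat_lit 7) (nat_lit 0) (nat_lit 3) (nat_lit 63) (nat_lit 28) r4_63 r5_28 (nat_lit 0) (nat_lit 0) (nat_lit 8135991) (nat_lit 0x79057fe38) (nat_lit 658530703),
  Rx.mk (nat_lit 155) (nat_lit 3) (nat_lit 3) (nat_lit 2) (nat_lit 7) (nat_lit 58) (nat_lit 33) r4_58 r5_33 (nat_lit 0) (nat_lit 0) (nat_lit 0) (nat_lit 0x7f5b0655e) (nat_lit 548352312),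
  Rx.mk (nat_lit 187) (nat_lit 3) (nat_lit 7) (nat_lit 2) (nat_lit 7) (nat_lit 62) (nat_lit 31) r4_62 r5_31 (nat_lit 0) (nat_lit 0) (nat_lit 0) (nat_lit 0x80e735e2a) (nat_lit 524112462),
  Rx.mk (nat_lit 231) (nat_lit 7) (nat_lit 4) (nat_lit 3) (nat_lit 5) (nat_lit 59) (nat_lit 27) r4_59 r5_27 (nat_lit 0) (nat_lit 6174630) (nat_lit 0) (nat_lit 0x7de1761fe) (nat_lit 578007592),
  Rx.mk (nat_lit 247) (nat_lit 7) (nat_lit 6) (nat_lit 3) (nat_lit 7) (nat_lit 60) (nat_lit 32) r4_60 r5_32 (nat_lit 0) (nat_lit 0) (nat_lit 0) (nat_lit 0x80483a47e) (nat_lit 532926012),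
  Rx.mk (nat_lit 255) (nat_lit 7) (nat_lit 7) (nat_lit 3) (nat_lit 7) (nat_lit 64) (nat_lit 29) r4_64 r5_29 (nat_lit 0) (nat_lit 0) (nat_lit 0) (nat_lit 0x80009fe20) (nat_lit 538237112)]
noncomputable def e9_12 : List Rx := [
  Rx.mk (nat_lit 100) (nat_lit 4) (nat_lit 4) (nat_lit 1) (nat_lit 4) (nat_lit 155) (nat_lit 318) r4_155 r0_318 (nat_lit 2195696) (nat_lit 125045575) (nat_lit 0) (nat_lit 0x6ae14ea2c) (nat_lit 1005937833),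
  Rx.mk (nat_lit 101) (nat_lit 5) (nat_lit 4) (nat_lit 1) (nat_lit 5) (nat_lit 156) (nat_lit 319) r4_156 r0_319 (nat_lit 0) (nat_lit 25377028) (nat_lit 0) (nat_lit 0x7f22d5c02) (nat_lit 577258190),
  Rx.mk (nat_lit 116) (nat_lit 4) (nat_lit 6) (nat_lit 1) (nat_lit 6) (nat_lit 157) (nat_lit 320) r4_157 r0_320 (nat_lit 9212328) (nat_lit 0) (nat_lit 0) (nat_lit 0x785000486) (nat_lit 671079090),
  Rx.mk (nat_lit 117) (nat_lit 5) (nat_lit 6) (nat_lit 1) (nat_lit 7) (nat_lit 158) (nat_lit 321) r4_158 r0_321 (nat_lit 0) (nat_lit 0) (nat_lit 0) (nat_lit 0x80b12ecdc) (nat_lit 527417312)]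
noncomputable def e9_13 : List Rx := [
  Rx.mk (nat_lit 100) (nat_lit 4) (nat_lit 4) (nat_lit 1) (nat_lit 4) (nat_lit 167) (nat_lit 71) r4_167 r7_71 (nat_lit 22125450) (nat_lit 19907554) (nat_lit 0) (nat_lit 0x63a785950) (nat_lit 1037930216),
  Rx.mk (nat_lit 101) (nat_lit 5) (nat_lit 4) (nat_lit 1) (nat_lit 5) (nat_lit 168) (nat_lit 74) r4_168 r7_74 (nat_lit 0) (nat_lit 19814278) (nat_lit 0) (nat_lit 0x7ff710a44) (nat_lit 558656140),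
  Rx.mk (nat_lit 116) (nat_lit 4) (nat_lit 6) (nat_lit 1) (nat_lit 6) (nat_lit 169) (nat_lit 72) r4_169 r7_72 (nat_lit 9466543) (nat_lit 0) (nat_lit 0) (nat_lit 0x7fa3c1d3e) (nat_lit 553281955),
  Rx.mk (nat_lit 117) (nat_lit 5) (nat_lit 6) (nat_lit 1) (nat_lit 7) (nat_lit 171) (nat_lit 75) r4_171 r7_75 (nat_lit 0) (nat_lit 0) (nat_lit 0) (nat_lit 0x80e5a0ace) (nat_lit 524283362),
  Rx.mk (nat_lit 372) (nat_lit 4) (nat_lit 6) (nat_lit 5) (nat_lit 6) (nat_lit 170) (nat_lit 73) r4_170 r7_73 (nat_lit 15079429) (nat_lit 0) (nat_lit 0) (nat_lit 0x80b288b5a) (nat_lit 542464441),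
  Rx.mk (nat_lit 373) (nat_lit 5) (nat_lit 6) (nat_lit 5) (nat_lit 7) (nat_lit 172) (nat_lit 76) r4_172 r7_76 (nat_lit 0) (nat_lit 0) (nat_lit 0) (nat_lit 0x8047400be) (nat_lit 533941862),
  Rx.mk (nat_lit 375) (nat_lit 7) (nat_lit 6) (nat_lit 5) (nat_lit 7) (nat_lit 173) (nat_lit 77) r4_173 r7_77 (nat_lit 0) (nat_lit 0) (nat_lit 0) (nat_lit 0x804741ba8) (nat_lit 533941462)]
noncomputable def e9_14 : List Rx := [
  Rx.mk (nat_lit 101) (nat_lit 5) (nat_lit 4) (nat_lit 1) (nat_lit 5) (nat_lit 159) (nat_lit 305) r4_159 r1_305 (nat_lit 0) (nat_lit 25741495) (nat_lit 0) (nat_lit 0x7f774491e) (nat_lit 572424907),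
  Rx.mk (nat_lit 117) (nat_lit 5) (nat_lit 6) (nat_lit 1) (nat_lit 7) (nat_lit 160) (nat_lit 306) r4_160 r1_306 (nat_lit 0) (nat_lit 0) (nat_lit 0) (nat_lit 0x80964275c) (nat_lit 529102962)]
noncomputable def e9_15 : List Rx := [
  Rx.mk (nat_lit 101) (nat_lit 5) (nat_lit 4) (nat_lit 1) (nat_lit 5) (nat_lit 174) (nat_lit 68) r4_174 r8_68 (nat_lit 0) (nat_lit 19417164) (nat_lit 0) (nat_lit 0x7fd35cbf2) (nat_lit 560445626),
  Rx.mk (nat_lit 117) (nat_lit 5) (nat_lit 6) (nat_lit 1) (nat_lit 7) (nat_lit 175) (nat_lit 69) r4_175 r8_69 (nat_lit 0) (nat_lit 0) (nat_lit 0) (nat_lit 0x80539e52c) (nat_lit 533184912),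
  Rx.mk (nat_lit 373) (nat_lit 5) (nat_lit 6) (nat_lit 5) (nat_lit 7) (nat_lit 176) (nat_lit 70) r4_176 r8_70 (nat_lit 0) (nat_lit 0) (nat_lit 0) (nat_lit 0x8017985b4) (nat_lit 536870912)]
noncomputable def e9_16 : List Rx := [
  Rx.mk (nat_lit 372) (nat_lit 4) (nat_lit 6) (nat_lit 5) (nat_lit 6) (nat_lit 177) (nat_lit 351) r4_177 r8_351 (nat_lit 24741287) (nat_lit 0) (nat_lit 0) (nat_lit 0x8017985b4) (nat_lit 561612199),
  Rx.mk (nat_lit 373) (nat_lit 5) (nat_lit 6) (nat_lit 5) (nat_lit 7) (nat_lit 178) (nat_lit 352) r4_178 r8_352 (nat_lit 0) (nat_lit 0) (nat_lit 0) (nat_lit 0x8017985b4) (nat_lit 536870912),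
  Rx.mk (nat_lit 374) (nat_lit 6) (nat_lit 6) (nat_lit 5) (nat_lit 7) (nat_lit 179) (nat_lit 354) r4_179 r8_354 (nat_lit 0) (nat_lit 0) (nat_lit 0) (nat_lit 0x8017985b4) (nat_lit 536870912),
  Rx.mk (nat_lit 375) (nat_lit 7) (nat_lit 6) (nat_lit 5) (nat_lit 7) (nat_lit 180) (nat_lit 353) r4_180 r8_353 (nat_lit 0) (nat_lit 0) (nat_lit 0) (nat_lit 0x8017985b4) (nat_lit 536870912)]
noncomputable def e9_17 : List Rx := [
  Rx.mk (nat_lit 278) (nat_lit 6) (nat_lit 2) (nat_lit 4) (nat_lit 3) (nat_lit 144) (nat_lit 56) r4_144 r9_56 (nat_lit 0) (nat_lit 0) (nat_lit 24741287) (nat_lit 0x8017985b4) (nat_lit 561612199),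
  Rx.mk (nat_lit 308) (nat_lit 4) (nat_lit 6) (nat_lit 4) (nat_lit 2) (nat_lit 147) (nat_lit 50) r4_147 r9_50 (nat_lit 18784265) (nat_lit 0) (nat_lit 16343874) (nat_lit 0x65a8d64ce) (nat_lit 998625001),
  Rx.mk (nat_lit 310) (nat_lit 6) (nat_lit 6) (nat_lit 4) (nat_lit 3) (nat_lit 150) (nat_lit 59) r4_150 r9_59 (nat_lit 0) (nat_lit 0) (nat_lit 24741287) (nat_lit 0x7ff8b06c4) (nat_lit 563504749),
  Rx.mk (nat_lit 311) (nat_lit 7) (nat_lit 6) (nat_lit 4) (nat_lit 3) (nat_lit 152) (nat_lit 53) r4_152 r9_53 (nat_lit 0) (nat_lit 0) (nat_lit 24741287) (nat_lit 0x8017985b4) (nat_lit 561612199),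
  Rx.mk (nat_lit 342) (nat_lit 6) (nat_lit 2) (nat_lit 5) (nat_lit 7) (nat_lit 145) (nat_lit 57) r4_145 r9_57 (nat_lit 0) (nat_lit 0) (nat_lit 0) (nat_lit 0x8017985b4) (nat_lit 536870912),
  Rx.mk (nat_lit 372) (nat_lit 4) (nat_lit 6) (nat_lit 5) (nat_lit 6) (nat_lit 148) (nat_lit 51) r4_148 r9_51 (nat_lit 24741287) (nat_lit 0) (nat_lit 0) (nat_lit 0x8017985b4) (nat_lit 561612199),
  Rx.mk (nat_lit 373) (nat_lit 5) (nat_lit 6) (nat_lit 5) (nat_lit 7) (nat_lit 149) (nat_lit 52) r4_149 r9_52 (nat_lit 0) (nat_lit 0) (nat_lit 0) (nat_lit 0x8017985b4) (nat_lit 536870912),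
  Rx.mk (nat_lit 374) (nat_lit 6) (nat_lit 6) (nat_lit 5) (nat_lit 7) (nat_lit 151) (nat_lit 60) r4_151 r9_60 (nat_lit 0) (nat_lit 0) (nat_lit 0) (nat_lit 0x8017985b4) (nat_lit 536870912),
  Rx.mk (nat_lit 375) (nat_lit 7) (nat_lit 6) (nat_lit 5) (nat_lit 7) (nat_lit 153) (nat_lit 54) r4_153 r9_54 (nat_lit 0) (nat_lit 0) (nat_lit 0) (nat_lit 0x8017985b4) (nat_lit 536870912),
  Rx.mk (nat_lit 406) (nat_lit 6) (nat_lit 2) (nat_lit 6) (nat_lit 7) (nat_lit 146) (nat_lit 58) r4_146 r9_58 (nat_lit 0) (nat_lit 0) (nat_lit 0) (nat_lit 0x8017985b4) (nat_lit 536870912),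
  Rx.mk (nat_lit 503) (nat_lit 7) (nat_lit 6) (nat_lit 7) (nat_lit 7) (nat_lit 154) (nat_lit 55) r4_154 r9_55 (nat_lit 0) (nat_lit 0) (nat_lit 0) (nat_lit 0x8017985b4) (nat_lit 536870912)]
noncomputable def e9_18 : List Rx := [
  Rx.mk (nat_lit 100) (nat_lit 4) (nat_lit 4) (nat_lit 1) (nat_lit 4) (nat_lit 161) (nat_lit 349) r4_161 r4_349 (nat_lit 8380959) (nat_lit 15888243) (nat_lit 0) (nat_lit 0x712c99c60) (nat_lit 801452014),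
  Rx.mk (nat_lit 101) (nat_lit 5) (nat_lit 4) (nat_lit 1) (nat_lit 5) (nat_lit 162) (nat_lit 350) r4_162 r4_350 (nat_lit 0) (nat_lit 22312841) (nat_lit 0) (nat_lit 0x806176d2a) (nat_lit 554648803),
  Rx.mk (nat_lit 103) (nat_lit 7) (nat_lit 4) (nat_lit 1) (nat_lit 5) (nat_lit 163) (nat_lit 351) r4_163 r4_351 (nat_lit 0) (nat_lit 68646309) (nat_lit 0) (nat_lit 0x7fa8798a4) (nat_lit 612142821),
  Rx.mk (nat_lit 116) (nat_lit 4) (nat_lit 6) (nat_lit 1) (nat_lit 6) (nat_lit 164) (nat_lit 352) r4_164 r4_352 (nat_lit 12559442) (nat_lit 0) (nat_lit 0) (nat_lit 0x7f3685d1a) (nat_lit 563145404),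
  Rx.mk (nat_lit 117) (nat_lit 5) (nat_lit 6) (nat_lit 1) (nat_lit 7) (nat_lit 165) (nat_lit 353) r4_165 r4_353 (nat_lit 0) (nat_lit 0) (nat_lit 0) (nat_lit 0x80d3762ea) (nat_lit 525382062),
  Rx.mk (nat_lit 119) (nat_lit 7) (nat_lit 6) (nat_lit 1) (nat_lit 7) (nat_lit 166) (nat_lit 354) r4_166 r4_354 (nat_lit 0) (nat_lit 0) (nat_lit 0) (nat_lit 0x808605e8e) (nat_lit 530063762)]
noncomputable def e9_19 : List Rx := [
  Rx.mk (nat_lit 100) (nat_lit 4) (nat_lit 4) (nat_lit 1) (nat_lit 4) (nat_lit 181) (nat_lit 52) r4_181 r10_52 (nat_lit 11415403) (nat_lit 12084870) (nat_lit 0) (nat_lit 0x6331c3eb0) (nat_lit 1026799885),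
  Rx.mk (nat_lit 101) (nat_lit 5) (nat_lit 4) (nat_lit 1) (nat_lit 5) (nat_lit 182) (nat_lit 54) r4_182 r10_54 (nat_lit 0) (nat_lit 21073453) (nat_lit 0) (nat_lit 0x8042207e6) (nat_lit 555329265),
  Rx.mk (nat_lit 103) (nat_lit 7) (nat_lit 4) (nat_lit 1) (nat_lit 5) (nat_lit 183) (nat_lit 56) r4_183 r10_56 (nat_lit 0) (nat_lit 23202415) (nat_lit 0) (nat_lit 0x7faaa218a) (nat_lit 566751477),
  Rx.mk (nat_lit 116) (nat_lit 4) (nat_lit 6) (nat_lit 1) (nat_lit 6) (nat_lit 184) (nat_lit 53) r4_184 r10_53 (nat_lit 10881583) (nat_lit 0) (nat_lit 0) (nat_lit 0x80aa66698) (nat_lit 538695745),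
  Rx.mk (nat_lit 117) (nat_lit 5) (nat_lit 6) (nat_lit 1) (nat_lit 7) (nat_lit 185) (nat_lit 55) r4_185 r10_55 (nat_lit 0) (nat_lit 0) (nat_lit 0) (nat_lit 0x80a823854) (nat_lit 528019812),
  Rx.mk (nat_lit 119) (nat_lit 7) (nat_lit 6) (nat_lit 1) (nat_lit 7) (nat_lit 186) (nat_lit 57) r4_186 r10_57 (nat_lit 0) (nat_lit 0) (nat_lit 0) (nat_lit 0x80a823516) (nat_lit 528019862),
  Rx.mk (nat_lit 375) (nat_lit 7) (nat_lit 6) (nat_lit 5) (nat_lit 7) (nat_lit 187) (nat_lit 58) r4_187 r10_58 (nat_lit 0) (nat_lit 0) (nat_lit 0) (nat_lit 0x8017985b4) (nat_lit 536870912)]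
noncomputable def e9_20 : List Rx := [
  Rx.mk (nat_lit 100) (nat_lit 4) (nat_lit 4) (nat_lit 1) (nat_lit 4) (nat_lit 188) (nat_lit 46) r4_188 r11_46 (nat_lit 33533154) (nat_lit 16806885) (nat_lit 0) (nat_lit 0x78c402cc6) (nat_lit 704937351),
  Rx.mk (nat_lit 101) (nat_lit 5) (nat_lit 4) (nat_lit 1) (nat_lit 5) (nat_lit 189) (nat_lit 48) r4_189 r11_48 (nat_lit 0) (nat_lit 24741287) (nat_lit 0) (nat_lit 0x8017985b4) (nat_lit 561612199),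
  Rx.mk (nat_lit 103) (nat_lit 7) (nat_lit 4) (nat_lit 1) (nat_lit 5) (nat_lit 190) (nat_lit 50) r4_190 r11_50 (nat_lit 0) (nat_lit 26071655) (nat_lit 0) (nat_lit 0x7fa9352f2) (nat_lit 569730517),
  Rx.mk (nat_lit 116) (nat_lit 4) (nat_lit 6) (nat_lit 1) (nat_lit 6) (nat_lit 191) (nat_lit 47) r4_191 r11_47 (nat_lit 16749673) (nat_lit 0) (nat_lit 0) (nat_lit 0x8060fd66e) (nat_lit 549095785),
  Rx.mk (nat_lit 117) (nat_lit 5) (nat_lit 6) (nat_lit 1) (nat_lit 7) (nat_lit 192) (nat_lit 49) r4_192 r11_49 (nat_lit 0) (nat_lit 0) (nat_lit 0) (nat_lit 0x804ce505a) (nat_lit 533594662),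
  Rx.mk (nat_lit 119) (nat_lit 7) (nat_lit 6) (nat_lit 1) (nat_lit 7) (nat_lit 193) (nat_lit 52) r4_193 r11_52 (nat_lit 0) (nat_lit 0) (nat_lit 0) (nat_lit 0x804ce4d1c) (nat_lit 533594712),
  Rx.mk (nat_lit 127) (nat_lit 7) (nat_lit 7) (nat_lit 1) (nat_lit 7) (nat_lit 194) (nat_lit 51) r4_194 r11_51 (nat_lit 0) (nat_lit 0) (nat_lit 0) (nat_lit 0x8017985b4) (nat_lit 536870912)]
noncomputable def e9_21 : List Rx := [
  Rx.mk (nat_lit 278) (nat_lit 6) (nat_lit 2) (nat_lit 4) (nat_lit 3) (nat_lit 128) (nat_lit 15) r4_128 r9_15 (nat_lit 0) (nat_lit 0) (nat_lit 24741287) (nat_lit 0x8017985b4) (nat_lit 561612199),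
  Rx.mk (nat_lit 342) (nat_lit 6) (nat_lit 2) (nat_lit 5) (nat_lit 7) (nat_lit 129) (nat_lit 16) r4_129 r9_16 (nat_lit 0) (nat_lit 0) (nat_lit 0) (nat_lit 0x8017985b4) (nat_lit 536870912),
  Rx.mk (nat_lit 406) (nat_lit 6) (nat_lit 2) (nat_lit 6) (nat_lit 7) (nat_lit 130) (nat_lit 17) r4_130 r9_17 (nat_lit 0) (nat_lit 0) (nat_lit 0) (nat_lit 0x8017985b4) (nat_lit 536870912)]
noncomputable def e9_22 : List Rx := [
  Rx.mk (nat_lit 128) (nat_lit 0) (nat_lit 0) (nat_lit 2) (nat_lit 4) (nat_lit 93) (nat_lit 142) r4_93 r0_142 (nat_lit 206617785) (nat_lit 1138602) (nat_lit 0) (nat_lit 0x685ba0238) (nat_lit 1127160549),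
  Rx.mk (nat_lit 130) (nat_lit 2) (nat_lit 0) (nat_lit 2) (nat_lit 5) (nat_lit 94) (nat_lit 145) r4_94 r0_145 (nat_lit 0) (nat_lit 15006223) (nat_lit 0) (nat_lit 0x7cc837842) (nat_lit 604752435),
  Rx.mk (nat_lit 152) (nat_lit 0) (nat_lit 3) (nat_lit 2) (nat_lit 6) (nat_lit 95) (nat_lit 143) r4_95 r0_143 (nat_lit 128366738) (nat_lit 0) (nat_lit 0) (nat_lit 0x7fb918d0e) (nat_lit 670781900),
  Rx.mk (nat_lit 154) (nat_lit 2) (nat_lit 3) (nat_lit 2) (nat_lit 7) (nat_lit 96) (nat_lit 146) r4_96 r0_146 (nat_lit 0) (nat_lit 0) (nat_lit 0) (nat_lit 0x801c7c06c) (nat_lit 536515262),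
  Rx.mk (nat_lit 155) (nat_lit 3) (nat_lit 3) (nat_lit 2) (nat_lit 7) (nat_lit 97) (nat_lit 144) r4_97 r0_144 (nat_lit 0) (nat_lit 0) (nat_lit 0) (nat_lit 0x7fd67623e) (nat_lit 540864312)]
noncomputable def e9_23 : List Rx := [
  Rx.mk (nat_lit 128) (nat_lit 0) (nat_lit 0) (nat_lit 2) (nat_lit 4) (nat_lit 107) (nat_lit 154) r4_107 r1_154 (nat_lit 159743199) (nat_lit 13326467) (nat_lit 0) (nat_lit 0x73d78693c) (nat_lit 907207678),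
  Rx.mk (nat_lit 130) (nat_lit 2) (nat_lit 0) (nat_lit 2) (nat_lit 5) (nat_lit 108) (nat_lit 158) r4_108 r1_158 (nat_lit 0) (nat_lit 21535191) (nat_lit 0) (nat_lit 0x7c291a87c) (nat_lit 621319503),
  Rx.mk (nat_lit 136) (nat_lit 0) (nat_lit 1) (nat_lit 2) (nat_lit 6) (nat_lit 109) (nat_lit 155) r4_109 r1_155 (nat_lit 26051565) (nat_lit 0) (nat_lit 0) (nat_lit 0x8064f5dac) (nat_lit 558163527),
  Rx.mk (nat_lit 138) (nat_lit 2) (nat_lit 1) (nat_lit 2) (nat_lit 7) (nat_lit 110) (nat_lit 159) r4_110 r1_159 (nat_lit 0) (nat_lit 0) (nat_lit 0) (nat_lit 0x807893f76) (nat_lit 530914262),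
  Rx.mk (nat_lit 152) (nat_lit 0) (nat_lit 3) (nat_lit 2) (nat_lit 6) (nat_lit 111) (nat_lit 156) r4_111 r1_156 (nat_lit 26855787) (nat_lit 0) (nat_lit 0) (nat_lit 0x80aa4da94) (nat_lit 554718499),
  Rx.mk (nat_lit 154) (nat_lit 2) (nat_lit 3) (nat_lit 2) (nat_lit 7) (nat_lit 112) (nat_lit 160) r4_112 r1_160 (nat_lit 0) (nat_lit 0) (nat_lit 0) (nat_lit 0x8039d0276) (nat_lit 534761612),
  Rx.mk (nat_lit 155) (nat_lit 3) (nat_lit 3) (nat_lit 2) (nat_lit 7) (nat_lit 113) (nat_lit 157) r4_113 r1_157 (nat_lit 0) (nat_lit 0) (nat_lit 0) (nat_lit 0x8017985b4) (nat_lit 536870912)]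
noncomputable def e9_24 : List Rx := [
  Rx.mk (nat_lit 152) (nat_lit 0) (nat_lit 3) (nat_lit 2) (nat_lit 6) (nat_lit 131) (nat_lit 131) r4_131 r4_131 (nat_lit 240605632) (nat_lit 0) (nat_lit 0) (nat_lit 0x7ff1aa79e) (nat_lit 779445244),
  Rx.mk (nat_lit 154) (nat_lit 2) (nat_lit 3) (nat_lit 2) (nat_lit 7) (nat_lit 132) (nat_lit 133) r4_132 r4_133 (nat_lit 0) (nat_lit 0) (nat_lit 0) (nat_lit 0x7fdb12f9a) (nat_lit 540544312),
  Rx.mk (nat_lit 155) (nat_lit 3) (nat_lit 3) (nat_lit 2) (nat_lit 7) (nat_lit 133) (nat_lit 132) r4_133 r4_132 (nat_lit 0) (nat_lit 0) (nat_lit 0) (nat_lit 0x7fdb12f9a) (nat_lit 540544312)]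
noncomputable def e9_25 : List Rx := [
  Rx.mk (nat_lit 128) (nat_lit 0) (nat_lit 0) (nat_lit 2) (nat_lit 4) (nat_lit 98) (nat_lit 39) r4_98 r7_39 (nat_lit 21615915) (nat_lit 11303237) (nat_lit 0) (nat_lit 0x68ed8d4d4) (nat_lit 943524414),
  Rx.mk (nat_lit 130) (nat_lit 2) (nat_lit 0) (nat_lit 2) (nat_lit 5) (nat_lit 99) (nat_lit 41) r4_99 r7_41 (nat_lit 0) (nat_lit 10576130) (nat_lit 0) (nat_lit 0x7fd267c38) (nat_lit 551565342),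
  Rx.mk (nat_lit 152) (nat_lit 0) (nat_lit 3) (nat_lit 2) (nat_lit 6) (nat_lit 104) (nat_lit 42) r4_104 r7_42 (nat_lit 32199586) (nat_lit 0) (nat_lit 0) (nat_lit 0x7deebd290) (nat_lit 603434298),
  Rx.mk (nat_lit 154) (nat_lit 2) (nat_lit 3) (nat_lit 2) (nat_lit 7) (nat_lit 105) (nat_lit 44) r4_105 r7_44 (nat_lit 0) (nat_lit 0) (nat_lit 0) (nat_lit 0x80d93c616) (nat_lit 525035062),
  Rx.mk (nat_lit 155) (nat_lit 3) (nat_lit 3) (nat_lit 2) (nat_lit 7) (nat_lit 106) (nat_lit 43) r4_106 r7_43 (nat_lit 0) (nat_lit 0) (nat_lit 0) (nat_lit 0x8017985b4) (nat_lit 536870912),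
  Rx.mk (nat_lit 278) (nat_lit 6) (nat_lit 2) (nat_lit 4) (nat_lit 3) (nat_lit 102) (nat_lit 45) r4_102 r7_45 (nat_lit 0) (nat_lit 0) (nat_lit 15103995) (nat_lit 0x808086120) (nat_lit 545531857),
  Rx.mk (nat_lit 386) (nat_lit 2) (nat_lit 0) (nat_lit 6) (nat_lit 5) (nat_lit 100) (nat_lit 40) r4_100 r7_40 (nat_lit 0) (nat_lit 17421724) (nat_lit 0) (nat_lit 0x804c6a3e6) (nat_lit 551019636),
  Rx.mk (nat_lit 402) (nat_lit 2) (nat_lit 2) (nat_lit 6) (nat_lit 7) (nat_lit 101) (nat_lit 47) r4_101 r7_47 (nat_lit 0) (nat_lit 0) (nat_lit 0) (nat_lit 0x8017985b4) (nat_lit 536870912),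
  Rx.mk (nat_lit 406) (nat_lit 6) (nat_lit 2) (nat_lit 6) (nat_lit 7) (nat_lit 103) (nat_lit 46) r4_103 r7_46 (nat_lit 0) (nat_lit 0) (nat_lit 0) (nat_lit 0x8017985b4) (nat_lit 536870912)]
noncomputable def e9_26 : List Rx := [
  Rx.mk (nat_lit 128) (nat_lit 0) (nat_lit 0) (nat_lit 2) (nat_lit 4) (nat_lit 114) (nat_lit 47) r4_114 r8_47 (nat_lit 35927384) (nat_lit 25528723) (nat_lit 0) (nat_lit 0x6c2494650) (nat_lit 920149869),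
  Rx.mk (nat_lit 130) (nat_lit 2) (nat_lit 0) (nat_lit 2) (nat_lit 5) (nat_lit 115) (nat_lit 49) r4_115 r8_49 (nat_lit 0) (nat_lit 15426170) (nat_lit 0) (nat_lit 0x7fa00e8ea) (nat_lit 559577782),
  Rx.mk (nat_lit 136) (nat_lit 0) (nat_lit 1) (nat_lit 2) (nat_lit 6) (nat_lit 117) (nat_lit 50) r4_117 r8_50 (nat_lit 24741287) (nat_lit 0) (nat_lit 0) (nat_lit 0x8005f42d6) (nat_lit 562689149),
  Rx.mk (nat_lit 138) (nat_lit 2) (nat_lit 1) (nat_lit 2) (nat_lit 7) (nat_lit 118) (nat_lit 52) r4_118 r8_52 (nat_lit 0) (nat_lit 0) (nat_lit 0) (nat_lit 0x8050765fc) (nat_lit 533378512),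
  Rx.mk (nat_lit 152) (nat_lit 0) (nat_lit 3) (nat_lit 2) (nat_lit 6) (nat_lit 122) (nat_lit 53) r4_122 r8_53 (nat_lit 24741287) (nat_lit 0) (nat_lit 0) (nat_lit 0x8017985b4) (nat_lit 561612199),
  Rx.mk (nat_lit 154) (nat_lit 2) (nat_lit 3) (nat_lit 2) (nat_lit 7) (nat_lit 123) (nat_lit 55) r4_123 r8_55 (nat_lit 0) (nat_lit 0) (nat_lit 0) (nat_lit 0x80507696c) (nat_lit 533378462),
  Rx.mk (nat_lit 155) (nat_lit 3) (nat_lit 3) (nat_lit 2) (nat_lit 7) (nat_lit 124) (nat_lit 54) r4_124 r8_54 (nat_lit 0) (nat_lit 0) (nat_lit 0) (nat_lit 0x8017985b4) (nat_lit 536870912),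
  Rx.mk (nat_lit 386) (nat_lit 2) (nat_lit 0) (nat_lit 6) (nat_lit 5) (nat_lit 116) (nat_lit 48) r4_116 r8_48 (nat_lit 0) (nat_lit 19539304) (nat_lit 0) (nat_lit 0x7feeea77a) (nat_lit 558873116),
  Rx.mk (nat_lit 394) (nat_lit 2) (nat_lit 1) (nat_lit 6) (nat_lit 7) (nat_lit 119) (nat_lit 51) r4_119 r8_51 (nat_lit 0) (nat_lit 0) (nat_lit 0) (nat_lit 0x8017985b4) (nat_lit 536870912),
  Rx.mk (nat_lit 402) (nat_lit 2) (nat_lit 2) (nat_lit 6) (nat_lit 7) (nat_lit 120) (nat_lit 57) r4_120 r8_57 (nat_lit 0) (nat_lit 0) (nat_lit 0) (nat_lit 0x8017985b4) (nat_lit 536870912),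
  Rx.mk (nat_lit 406) (nat_lit 6) (nat_lit 2) (nat_lit 6) (nat_lit 7) (nat_lit 121) (nat_lit 56) r4_121 r8_56 (nat_lit 0) (nat_lit 0) (nat_lit 0) (nat_lit 0x8017985b4) (nat_lit 536870912)]
noncomputable def e9_27 : List Rx := [
  Rx.mk (nat_lit 278) (nat_lit 6) (nat_lit 2) (nat_lit 4) (nat_lit 3) (nat_lit 126) (nat_lit 146) r4_126 r8_146 (nat_lit 0) (nat_lit 0) (nat_lit 22851491) (nat_lit 0x7fa9b2676) (nat_lit 566471853),
  Rx.mk (nat_lit 402) (nat_lit 2) (nat_lit 2) (nat_lit 6) (nat_lit 7) (nat_lit 125) (nat_lit 147) r4_125 r8_147 (nat_lit 0) (nat_lit 0) (nat_lit 0) (nat_lit 0x8017985b4) (nat_lit 536870912),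
  Rx.mk (nat_lit 406) (nat_lit 6) (nat_lit 2) (nat_lit 6) (nat_lit 7) (nat_lit 127) (nat_lit 148) r4_127 r8_148 (nat_lit 0) (nat_lit 0) (nat_lit 0) (nat_lit 0x8017985b4) (nat_lit 536870912)]
noncomputable def e9_28 : List Rx := [
  Rx.mk (nat_lit 152) (nat_lit 0) (nat_lit 3) (nat_lit 2) (nat_lit 6) (nat_lit 139) (nat_lit 24) r4_139 r10_24 (nat_lit 24676068) (nat_lit 0) (nat_lit 0) (nat_lit 0x7e8afe690) (nat_lit 586102830),
  Rx.mk (nat_lit 154) (nat_lit 2) (nat_lit 3) (nat_lit 2) (nat_lit 7) (nat_lit 140) (nat_lit 27) r4_140 r10_27 (nat_lit 0) (nat_lit 0) (nat_lit 0) (nat_lit 0x809f243f2) (nat_lit 528567662),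
  Rx.mk (nat_lit 155) (nat_lit 3) (nat_lit 3) (nat_lit 2) (nat_lit 7) (nat_lit 142) (nat_lit 25) r4_142 r10_25 (nat_lit 0) (nat_lit 0) (nat_lit 0) (nat_lit 0x8017985b4) (nat_lit 536870912),
  Rx.mk (nat_lit 278) (nat_lit 6) (nat_lit 2) (nat_lit 4) (nat_lit 3) (nat_lit 136) (nat_lit 28) r4_136 r10_28 (nat_lit 0) (nat_lit 0) (nat_lit 12224820) (nat_lit 0x806946df2) (nat_lit 544040032),
  Rx.mk (nat_lit 386) (nat_lit 2) (nat_lit 0) (nat_lit 6) (nat_lit 5) (nat_lit 134) (nat_lit 23) r4_134 r10_23 (nat_lit 0) (nat_lit 19244630) (nat_lit 0) (nat_lit 0x801080380) (nat_lit 556512792),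
  Rx.mk (nat_lit 402) (nat_lit 2) (nat_lit 2) (nat_lit 6) (nat_lit 7) (nat_lit 135) (nat_lit 31) r4_135 r10_31 (nat_lit 0) (nat_lit 0) (nat_lit 0) (nat_lit 0x8017985b4) (nat_lit 536870912),
  Rx.mk (nat_lit 406) (nat_lit 6) (nat_lit 2) (nat_lit 6) (nat_lit 7) (nat_lit 137) (nat_lit 30) r4_137 r10_30 (nat_lit 0) (nat_lit 0) (nat_lit 0) (nat_lit 0x8017985b4) (nat_lit 536870912),
  Rx.mk (nat_lit 410) (nat_lit 2) (nat_lit 3) (nat_lit 6) (nat_lit 7) (nat_lit 141) (nat_lit 26) r4_141 r10_26 (nat_lit 0) (nat_lit 0) (nat_lit 0) (nat_lit 0x8017985b4) (nat_lit 536870912),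
  Rx.mk (nat_lit 470) (nat_lit 6) (nat_lit 2) (nat_lit 7) (nat_lit 7) (nat_lit 138) (nat_lit 29) r4_138 r10_29 (nat_lit 0) (nat_lit 0) (nat_lit 0) (nat_lit 0x804468c56) (nat_lit 534115312)]
noncomputable def e9_29 : List Rx := [
  Rx.mk (nat_lit 155) (nat_lit 3) (nat_lit 3) (nat_lit 2) (nat_lit 7) (nat_lit 143) (nat_lit 8) r4_143 r11_8 (nat_lit 0) (nat_lit 0) (nat_lit 0) (nat_lit 0x7ff232496) (nat_lit 539166062)]
noncomputable def e9_30 : List Rx := [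
  Rx.mk (nat_lit 103) (nat_lit 7) (nat_lit 4) (nat_lit 1) (nat_lit 5) (nat_lit 224) (nat_lit 305) r4_224 r5_305 (nat_lit 0) (nat_lit 161090066) (nat_lit 0) (nat_lit 0x7fc75d3ec) (nat_lit 701587228),
  Rx.mk (nat_lit 119) (nat_lit 7) (nat_lit 6) (nat_lit 1) (nat_lit 7) (nat_lit 225) (nat_lit 306) r4_225 r5_306 (nat_lit 0) (nat_lit 0) (nat_lit 0) (nat_lit 0x743a265ec) (nat_lit 727415662)]
noncomputable def e9_31 : List Rx := [
  Rx.mk (nat_lit 103) (nat_lit 7) (nat_lit 4) (nat_lit 1) (nat_lit 5) (nat_lit 226) (nat_lit 358) r4_226 r11_358 (nat_lit 0) (nat_lit 11487859) (nat_lit 0) (nat_lit 0x7fe0ccc6a) (nat_lit 551547221),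
  Rx.mk (nat_lit 119) (nat_lit 7) (nat_lit 6) (nat_lit 1) (nat_lit 7) (nat_lit 227) (nat_lit 359) r4_227 r11_359 (nat_lit 0) (nat_lit 0) (nat_lit 0) (nat_lit 0x82046c2cc) (nat_lit 506848662),
  Rx.mk (nat_lit 375) (nat_lit 7) (nat_lit 6) (nat_lit 5) (nat_lit 7) (nat_lit 228) (nat_lit 357) r4_228 r11_357 (nat_lit 0) (nat_lit 0) (nat_lit 0) (nat_lit 0x850b42e04) (nat_lit 460662012)]
noncomputable def e9_32 : List Rx := [
  Rx.mk (nat_lit 35) (nat_lit 3) (nat_lit 4) (nat_lit 0) (nat_lit 1) (nat_lit 229) (nat_lit 186) r4_229 r6_186 (nat_lit 0) (nat_lit 185097) (nat_lit 150896) (nat_lit 0x7474055ce) (nat_lit 723972805),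
  Rx.mk (nat_lit 56) (nat_lit 0) (nat_lit 7) (nat_lit 0) (nat_lit 2) (nat_lit 235) (nat_lit 183) r4_235 r6_183 (nat_lit 102847) (nat_lit 0) (nat_lit 72450) (nat_lit 0x74c49e314) (nat_lit 718702409),
  Rx.mk (nat_lit 59) (nat_lit 3) (nat_lit 7) (nat_lit 0) (nat_lit 3) (nat_lit 238) (nat_lit 187) r4_238 r6_187 (nat_lit 0) (nat_lit 0) (nat_lit 8507115) (nat_lit 0x7fe98ff5a) (nat_lit 548034927),
  Rx.mk (nat_lit 99) (nat_lit 3) (nat_lit 4) (nat_lit 1) (nat_lit 5) (nat_lit 230) (nat_lit 188) r4_230 r6_188 (nat_lit 0) (nat_lit 15201900) (nat_lit 0) (nat_lit 0x80b22620c) (nat_lit 542613312),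
  Rx.mk (nat_lit 120) (nat_lit 0) (nat_lit 7) (nat_lit 1) (nat_lit 6) (nat_lit 236) (nat_lit 184) r4_236 r6_184 (nat_lit 17803608) (nat_lit 0) (nat_lit 0) (nat_lit 0x8030df784) (nat_lit 553092470),
  Rx.mk (nat_lit 123) (nat_lit 3) (nat_lit 7) (nat_lit 1) (nat_lit 7) (nat_lit 239) (nat_lit 189) r4_239 r6_189 (nat_lit 0) (nat_lit 0) (nat_lit 0) (nat_lit 0x80ad718e2) (nat_lit 527694462),
  Rx.mk (nat_lit 163) (nat_lit 3) (nat_lit 4) (nat_lit 2) (nat_lit 5) (nat_lit 231) (nat_lit 191) r4_231 r6_191 (nat_lit 0) (nat_lit 15888000) (nat_lit 0) (nat_lit 0x80a2446e0) (nat_lit 544269162),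
  Rx.mk (nat_lit 184) (nat_lit 0) (nat_lit 7) (nat_lit 2) (nat_lit 6) (nat_lit 237) (nat_lit 185) r4_237 r6_185 (nat_lit 14470459) (nat_lit 0) (nat_lit 0) (nat_lit 0x7f6a8c884) (nat_lit 561862921),
  Rx.mk (nat_lit 187) (nat_lit 3) (nat_lit 7) (nat_lit 2) (nat_lit 7) (nat_lit 240) (nat_lit 192) r4_240 r6_192 (nat_lit 0) (nat_lit 0) (nat_lit 0) (nat_lit 0x80ad718e2) (nat_lit 527694462),
  Rx.mk (nat_lit 227) (nat_lit 3) (nat_lit 4) (nat_lit 3) (nat_lit 5) (nat_lit 232) (nat_lit 190) r4_232 r6_190 (nat_lit 0) (nat_lit 14591992) (nat_lit 0) (nat_lit 0x7ffde2a5c) (nat_lit 552972954),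
  Rx.mk (nat_lit 231) (nat_lit 7) (nat_lit 4) (nat_lit 3) (nat_lit 5) (nat_lit 233) (nat_lit 181) r4_233 r6_181 (nat_lit 0) (nat_lit 11623710) (nat_lit 0) (nat_lit 0x7bf31a790) (nat_lit 614749172),
  Rx.mk (nat_lit 247) (nat_lit 7) (nat_lit 6) (nat_lit 3) (nat_lit 7) (nat_lit 234) (nat_lit 182) r4_234 r6_182 (nat_lit 0) (nat_lit 0) (nat_lit 0) (nat_lit 0x81ec02330) (nat_lit 508336162)]
noncomputable def e9_33 : List Rx := [
  Rx.mk (nat_lit 56) (nat_lit 0) (nat_lit 7) (nat_lit 0) (nat_lit 2) (nat_lit 200) (nat_lit 124) r4_200 r5_124 (nat_lit 27807) (nat_lit 0) (nat_lit 19134) (nat_lit 0x6beaf468e) (nat_lit 861670253),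
  Rx.mk (nat_lit 59) (nat_lit 3) (nat_lit 7) (nat_lit 0) (nat_lit 3) (nat_lit 202) (nat_lit 125) r4_202 r5_125 (nat_lit 0) (nat_lit 0) (nat_lit 4444174) (nat_lit 0x7f2401202) (nat_lit 556007186),
  Rx.mk (nat_lit 152) (nat_lit 0) (nat_lit 3) (nat_lit 2) (nat_lit 6) (nat_lit 195) (nat_lit 130) r4_195 r5_130 (nat_lit 202248689) (nat_lit 0) (nat_lit 0) (nat_lit 0x7fd88729e) (nat_lit 741698201),
  Rx.mk (nat_lit 154) (nat_lit 2) (nat_lit 3) (nat_lit 2) (nat_lit 7) (nat_lit 196) (nat_lit 133) r4_196 r5_133 (nat_lit 0) (nat_lit 0) (nat_lit 0) (nat_lit 0x7f0ea3518) (nat_lit 553137312),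
  Rx.mk (nat_lit 184) (nat_lit 0) (nat_lit 7) (nat_lit 2) (nat_lit 6) (nat_lit 201) (nat_lit 131) r4_201 r5_131 (nat_lit 11917208) (nat_lit 0) (nat_lit 0) (nat_lit 0x7c8e48028) (nat_lit 605161420),
  Rx.mk (nat_lit 187) (nat_lit 3) (nat_lit 7) (nat_lit 2) (nat_lit 7) (nat_lit 203) (nat_lit 132) r4_203 r5_132 (nat_lit 0) (nat_lit 0) (nat_lit 0) (nat_lit 0x80931c514) (nat_lit 529274562),
  Rx.mk (nat_lit 227) (nat_lit 3) (nat_lit 4) (nat_lit 3) (nat_lit 5) (nat_lit 197) (nat_lit 126) r4_197 r5_126 (nat_lit 0) (nat_lit 10127202) (nat_lit 0) (nat_lit 0x78e0d6154) (nat_lit 662850514),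
  Rx.mk (nat_lit 231) (nat_lit 7) (nat_lit 4) (nat_lit 3) (nat_lit 5) (nat_lit 198) (nat_lit 128) r4_198 r5_128 (nat_lit 0) (nat_lit 4758833) (nat_lit 0) (nat_lit 0x72642244c) (nat_lit 762218945),
  Rx.mk (nat_lit 247) (nat_lit 7) (nat_lit 6) (nat_lit 3) (nat_lit 7) (nat_lit 199) (nat_lit 129) r4_199 r5_129 (nat_lit 0) (nat_lit 0) (nat_lit 0) (nat_lit 0x7eb750676) (nat_lit 558254112),
  Rx.mk (nat_lit 251) (nat_lit 3) (nat_lit 7) (nat_lit 3) (nat_lit 7) (nat_lit 204) (nat_lit 127) r4_204 r5_127 (nat_lit 0) (nat_lit 0) (nat_lit 0) (nat_lit 0x8017985b4) (nat_lit 536870912)]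
noncomputable def e9_34 : List Rx := [
  Rx.mk (nat_lit 56) (nat_lit 0) (nat_lit 7) (nat_lit 0) (nat_lit 2) (nat_lit 212) (nat_lit 125) r4_212 r11_125 (nat_lit 616962) (nat_lit 0) (nat_lit 514055) (nat_lit 0x69c2df4b6) (nat_lit 897748479),
  Rx.mk (nat_lit 59) (nat_lit 3) (nat_lit 7) (nat_lit 0) (nat_lit 3) (nat_lit 214) (nat_lit 126) r4_214 r11_126 (nat_lit 0) (nat_lit 0) (nat_lit 10106242) (nat_lit 0x8153a01f0) (nat_lit 527714454),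
  Rx.mk (nat_lit 152) (nat_lit 0) (nat_lit 3) (nat_lit 2) (nat_lit 6) (nat_lit 205) (nat_lit 131) r4_205 r11_131 (nat_lit 31334360) (nat_lit 0) (nat_lit 0) (nat_lit 0x7f54de2a8) (nat_lit 580083322),
  Rx.mk (nat_lit 154) (nat_lit 2) (nat_lit 3) (nat_lit 2) (nat_lit 7) (nat_lit 206) (nat_lit 134) r4_206 r11_134 (nat_lit 0) (nat_lit 0) (nat_lit 0) (nat_lit 0x81e84d53c) (nat_lit 508548712),
  Rx.mk (nat_lit 184) (nat_lit 0) (nat_lit 7) (nat_lit 2) (nat_lit 6) (nat_lit 213) (nat_lit 132) r4_213 r11_132 (nat_lit 13764592) (nat_lit 0) (nat_lit 0) (nat_lit 0x8088c91ca) (nat_lit 543663854),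
  Rx.mk (nat_lit 187) (nat_lit 3) (nat_lit 7) (nat_lit 2) (nat_lit 7) (nat_lit 215) (nat_lit 133) r4_215 r11_133 (nat_lit 0) (nat_lit 0) (nat_lit 0) (nat_lit 0x807403de4) (nat_lit 531198062),
  Rx.mk (nat_lit 227) (nat_lit 3) (nat_lit 4) (nat_lit 3) (nat_lit 5) (nat_lit 208) (nat_lit 127) r4_208 r11_127 (nat_lit 0) (nat_lit 12952000) (nat_lit 0) (nat_lit 0x80562ac28) (nat_lit 545915612),
  Rx.mk (nat_lit 231) (nat_lit 7) (nat_lit 4) (nat_lit 3) (nat_lit 5) (nat_lit 209) (nat_lit 129) r4_209 r11_129 (nat_lit 0) (nat_lit 13063204) (nat_lit 0) (nat_lit 0x7f229ebd0) (nat_lit 564962416),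
  Rx.mk (nat_lit 247) (nat_lit 7) (nat_lit 6) (nat_lit 3) (nat_lit 7) (nat_lit 210) (nat_lit 130) r4_210 r11_130 (nat_lit 0) (nat_lit 0) (nat_lit 0) (nat_lit 0x81dd34f24) (nat_lit 509302462),
  Rx.mk (nat_lit 251) (nat_lit 3) (nat_lit 7) (nat_lit 3) (nat_lit 7) (nat_lit 216) (nat_lit 128) r4_216 r11_128 (nat_lit 0) (nat_lit 0) (nat_lit 0) (nat_lit 0x80812fcde) (nat_lit 530394062),
  Rx.mk (nat_lit 410) (nat_lit 2) (nat_lit 3) (nat_lit 6) (nat_lit 7) (nat_lit 207) (nat_lit 136) r4_207 r11_136 (nat_lit 0) (nat_lit 0) (nat_lit 0) (nat_lit 0x825f8dcd2) (nat_lit 501520162),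
  Rx.mk (nat_lit 503) (nat_lit 7) (nat_lit 6) (nat_lit 7) (nat_lit 7) (nat_lit 211) (nat_lit 135) r4_211 r11_135 (nat_lit 0) (nat_lit 0) (nat_lit 0) (nat_lit 0x80f168d7a) (nat_lit 523350662)]
noncomputable def e9_35 : List Rx := [
  Rx.mk (nat_lit 35) (nat_lit 3) (nat_lit 4) (nat_lit 0) (nat_lit 1) (nat_lit 217) (nat_lit 326) r4_217 r6_326 (nat_lit 0) (nat_lit 164206) (nat_lit 129197) (nat_lit 0x795e5323a) (nat_lit 644442165),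
  Rx.mk (nat_lit 39) (nat_lit 7) (nat_lit 4) (nat_lit 0) (nat_lit 1) (nat_lit 220) (nat_lit 327) r4_220 r6_327 (nat_lit 0) (nat_lit 4357312) (nat_lit 3315579) (nat_lit 0x66141debc) (nat_lit 964156353),
  Rx.mk (nat_lit 55) (nat_lit 7) (nat_lit 6) (nat_lit 0) (nat_lit 3) (nat_lit 222) (nat_lit 331) r4_222 r6_331 (nat_lit 0) (nat_lit 0) (nat_lit 79150) (nat_lit 0x53f546c4e) (nat_lit 1249167362),
  Rx.mk (nat_lit 99) (nat_lit 3) (nat_lit 4) (nat_lit 1) (nat_lit 5) (nat_lit 218) (nat_lit 328) r4_218 r6_328 (nat_lit 0) (nat_lit 12015582) (nat_lit 0) (nat_lit 0x8043b9b16) (nat_lit 546056094),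
  Rx.mk (nat_lit 103) (nat_lit 7) (nat_lit 4) (nat_lit 1) (nat_lit 5) (nat_lit 221) (nat_lit 329) r4_221 r6_329 (nat_lit 0) (nat_lit 9659627) (nat_lit 0) (nat_lit 0x7fc83bdd6) (nat_lit 551234539),
  Rx.mk (nat_lit 119) (nat_lit 7) (nat_lit 6) (nat_lit 1) (nat_lit 7) (nat_lit 223) (nat_lit 332) r4_223 r6_332 (nat_lit 0) (nat_lit 0) (nat_lit 0) (nat_lit 0x801c163de) (nat_lit 536140862),
  Rx.mk (nat_lit 163) (nat_lit 3) (nat_lit 4) (nat_lit 2) (nat_lit 5) (nat_lit 219) (nat_lit 330) r4_219 r6_330 (nat_lit 0) (nat_lit 14660822) (nat_lit 0) (nat_lit 0x80a2e9ac8) (nat_lit 542985584)]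
noncomputable def e9_36 : List Rx := [
  Rx.mk (nat_lit 35) (nat_lit 3) (nat_lit 4) (nat_lit 0) (nat_lit 1) (nat_lit 241) (nat_lit 59) r4_241 r12_59 (nat_lit 0) (nat_lit 58690) (nat_lit 41553) (nat_lit 0x7b312194a) (nat_lit 614735255),
  Rx.mk (nat_lit 39) (nat_lit 7) (nat_lit 4) (nat_lit 0) (nat_lit 1) (nat_lit 244) (nat_lit 65) r4_244 r12_65 (nat_lit 0) (nat_lit 2631942) (nat_lit 1714766) (nat_lit 0x6423137c0) (nat_lit 992114620),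
  Rx.mk (nat_lit 55) (nat_lit 7) (nat_lit 6) (nat_lit 0) (nat_lit 3) (nat_lit 247) (nat_lit 68) r4_247 r12_68 (nat_lit 0) (nat_lit 0) (nat_lit 99316) (nat_lit 0x5a569f38c) (nat_lit 1146020178),
  Rx.mk (nat_lit 59) (nat_lit 3) (nat_lit 7) (nat_lit 0) (nat_lit 3) (nat_lit 250) (nat_lit 62) r4_250 r12_62 (nat_lit 0) (nat_lit 0) (nat_lit 4688491) (nat_lit 0x7f006038e) (nat_lit 558460953),
  Rx.mk (nat_lit 99) (nat_lit 3) (nat_lit 4) (nat_lit 1) (nat_lit 5) (nat_lit 242) (nat_lit 60) r4_242 r12_60 (nat_lit 0) (nat_lit 8369781) (nat_lit 0) (nat_lit 0x7f5bb069e) (nat_lit 556643943),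
  Rx.mk (nat_lit 103) (nat_lit 7) (nat_lit 4) (nat_lit 1) (nat_lit 5) (nat_lit 245) (nat_lit 66) r4_245 r12_66 (nat_lit 0) (nat_lit 9667445) (nat_lit 0) (nat_lit 0x7e44f4f8c) (nat_lit 575356507),
  Rx.mk (nat_lit 119) (nat_lit 7) (nat_lit 6) (nat_lit 1) (nat_lit 7) (nat_lit 248) (nat_lit 69) r4_248 r12_69 (nat_lit 0) (nat_lit 0) (nat_lit 0) (nat_lit 0x7feb6c558) (nat_lit 539045512),
  Rx.mk (nat_lit 123) (nat_lit 3) (nat_lit 7) (nat_lit 1) (nat_lit 7) (nat_lit 251) (nat_lit 63) r4_251 r12_63 (nat_lit 0) (nat_lit 0) (nat_lit 0) (nat_lit 0x80a484a0e) (nat_lit 528215812),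
  Rx.mk (nat_lit 163) (nat_lit 3) (nat_lit 4) (nat_lit 2) (nat_lit 5) (nat_lit 243) (nat_lit 61) r4_243 r12_61 (nat_lit 0) (nat_lit 12827212) (nat_lit 0) (nat_lit 0x80d8b15d4) (nat_lit 537881374),
  Rx.mk (nat_lit 187) (nat_lit 3) (nat_lit 7) (nat_lit 2) (nat_lit 7) (nat_lit 252) (nat_lit 64) r4_252 r12_64 (nat_lit 0) (nat_lit 0) (nat_lit 0) (nat_lit 0x80c5a12f0) (nat_lit 526217362),
  Rx.mk (nat_lit 231) (nat_lit 7) (nat_lit 4) (nat_lit 3) (nat_lit 5) (nat_lit 246) (nat_lit 67) r4_246 r12_67 (nat_lit 0) (nat_lit 10567436) (nat_lit 0) (nat_lit 0x755c3f9fc) (nat_lit 720133798),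
  Rx.mk (nat_lit 247) (nat_lit 7) (nat_lit 6) (nat_lit 3) (nat_lit 7) (nat_lit 249) (nat_lit 70) r4_249 r12_70 (nat_lit 0) (nat_lit 0) (nat_lit 0) (nat_lit 0x7f2695054) (nat_lit 551109212)]
noncomputable def e9_37 : List Rx := [
  Rx.mk (nat_lit 40) (nat_lit 0) (nat_lit 5) (nat_lit 0) (nat_lit 2) (nat_lit 262) (nat_lit 174) r4_262 r0_174 (nat_lit 200714257) (nat_lit 0) (nat_lit 1751344) (nat_lit 0x5c0ff7e00) (nat_lit 1320763563),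
  Rx.mk (nat_lit 104) (nat_lit 0) (nat_lit 5) (nat_lit 1) (nat_lit 6) (nat_lit 263) (nat_lit 175) r4_263 r0_175 (nat_lit 51975942) (nat_lit 0) (nat_lit 0) (nat_lit 0x79cafc27e) (nat_lit 689883204),
  Rx.mk (nat_lit 168) (nat_lit 0) (nat_lit 5) (nat_lit 2) (nat_lit 6) (nat_lit 264) (nat_lit 176) r4_264 r0_176 (nat_lit 441859640) (nat_lit 0) (nat_lit 0) (nat_lit 0x75873a166) (nat_lit 1148413852)]
noncomputable def e9_38 : List Rx := [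
  Rx.mk (nat_lit 33) (nat_lit 1) (nat_lit 4) (nat_lit 0) (nat_lit 1) (nat_lit 253) (nat_lit 306) r4_253 r0_306 (nat_lit 0) (nat_lit 44700456) (nat_lit 9185379) (nat_lit 0x69c6a03b6) (nat_lit 950753297),
  Rx.mk (nat_lit 40) (nat_lit 0) (nat_lit 5) (nat_lit 0) (nat_lit 2) (nat_lit 256) (nat_lit 309) r4_256 r0_309 (nat_lit 19670024) (nat_lit 0) (nat_lit 33909295) (nat_lit 0x680c7e7d6) (nat_lit 978281281),
  Rx.mk (nat_lit 41) (nat_lit 1) (nat_lit 5) (nat_lit 0) (nat_lit 3) (nat_lit 259) (nat_lit 310) r4_259 r0_310 (nat_lit 0) (nat_lit 0) (nat_lit 25313016) (nat_lit 0x7f09601dc) (nat_lit 578840728),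
  Rx.mk (nat_lit 97) (nat_lit 1) (nat_lit 4) (nat_lit 1) (nat_lit 5) (nat_lit 254) (nat_lit 307) r4_254 r0_307 (nat_lit 0) (nat_lit 190947877) (nat_lit 0) (nat_lit 0x781662364) (nat_lit 856023289),
  Rx.mk (nat_lit 104) (nat_lit 0) (nat_lit 5) (nat_lit 1) (nat_lit 6) (nat_lit 257) (nat_lit 311) r4_257 r0_311 (nat_lit 27415859) (nat_lit 0) (nat_lit 0) (nat_lit 0x8000d8c2a) (nat_lit 565665771),
  Rx.mk (nat_lit 105) (nat_lit 1) (nat_lit 5) (nat_lit 1) (nat_lit 7) (nat_lit 260) (nat_lit 312) r4_260 r0_312 (nat_lit 0) (nat_lit 0) (nat_lit 0) (nat_lit 0x80abe37c8) (nat_lit 527783112),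
  Rx.mk (nat_lit 161) (nat_lit 1) (nat_lit 4) (nat_lit 2) (nat_lit 5) (nat_lit 255) (nat_lit 308) r4_255 r0_308 (nat_lit 0) (nat_lit 34510458) (nat_lit 0) (nat_lit 0x7fea14354) (nat_lit 574129370),
  Rx.mk (nat_lit 168) (nat_lit 0) (nat_lit 5) (nat_lit 2) (nat_lit 6) (nat_lit 258) (nat_lit 313) r4_258 r0_313 (nat_lit 29629750) (nat_lit 0) (nat_lit 0) (nat_lit 0x7db4131bc) (nat_lit 604586362),
  Rx.mk (nat_lit 169) (nat_lit 1) (nat_lit 5) (nat_lit 2) (nat_lit 7) (nat_lit 261) (nat_lit 314) r4_261 r0_314 (nat_lit 0) (nat_lit 0) (nat_lit 0) (nat_lit 0x8024ca73c) (nat_lit 536043112)]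
noncomputable def e9_39 : List Rx := [
  Rx.mk (nat_lit 40) (nat_lit 0) (nat_lit 5) (nat_lit 0) (nat_lit 2) (nat_lit 265) (nat_lit 223) r4_265 r7_223 (nat_lit 26363677) (nat_lit 0) (nat_lit 51960859) (nat_lit 0x6eea423dc) (nat_lit 892140698),
  Rx.mk (nat_lit 41) (nat_lit 1) (nat_lit 5) (nat_lit 0) (nat_lit 3) (nat_lit 268) (nat_lit 226) r4_268 r7_226 (nat_lit 0) (nat_lit 0) (nat_lit 24741287) (nat_lit 0x8017985b4) (nat_lit 561612199),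
  Rx.mk (nat_lit 104) (nat_lit 0) (nat_lit 5) (nat_lit 1) (nat_lit 6) (nat_lit 266) (nat_lit 224) r4_266 r7_224 (nat_lit 24741287) (nat_lit 0) (nat_lit 0) (nat_lit 0x8017985b4) (nat_lit 561612199),
  Rx.mk (nat_lit 105) (nat_lit 1) (nat_lit 5) (nat_lit 1) (nat_lit 7) (nat_lit 269) (nat_lit 227) r4_269 r7_227 (nat_lit 0) (nat_lit 0) (nat_lit 0) (nat_lit 0x8017985b4) (nat_lit 536870912),
  Rx.mk (nat_lit 168) (nat_lit 0) (nat_lit 5) (nat_lit 2) (nat_lit 6) (nat_lit 267) (nat_lit 225) r4_267 r7_225 (nat_lit 28981807) (nat_lit 0) (nat_lit 0) (nat_lit 0x7fc4d7cda) (nat_lit 570932769),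
  Rx.mk (nat_lit 169) (nat_lit 1) (nat_lit 5) (nat_lit 2) (nat_lit 7) (nat_lit 270) (nat_lit 228) r4_270 r7_228 (nat_lit 0) (nat_lit 0) (nat_lit 0) (nat_lit 0x8017985b4) (nat_lit 536870912)]
noncomputable def e9_40 : List Rx := [
  Rx.mk (nat_lit 97) (nat_lit 1) (nat_lit 4) (nat_lit 1) (nat_lit 5) (nat_lit 299) (nat_lit 334) r4_299 r2_334 (nat_lit 0) (nat_lit 42912160) (nat_lit 0) (nat_lit 0x7cc9d2418) (nat_lit 632560472),
  Rx.mk (nat_lit 101) (nat_lit 5) (nat_lit 4) (nat_lit 1) (nat_lit 5) (nat_lit 300) (nat_lit 335) r4_300 r2_335 (nat_lit 0) (nat_lit 24741287) (nat_lit 0) (nat_lit 0x7fcaef88e) (nat_lit 566317649),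
  Rx.mk (nat_lit 105) (nat_lit 1) (nat_lit 5) (nat_lit 1) (nat_lit 7) (nat_lit 301) (nat_lit 336) r4_301 r2_336 (nat_lit 0) (nat_lit 0) (nat_lit 0) (nat_lit 0x8017985b4) (nat_lit 536870912),
  Rx.mk (nat_lit 109) (nat_lit 5) (nat_lit 5) (nat_lit 1) (nat_lit 7) (nat_lit 302) (nat_lit 337) r4_302 r2_337 (nat_lit 0) (nat_lit 0) (nat_lit 0) (nat_lit 0x8017985b4) (nat_lit 536870912),
  Rx.mk (nat_lit 117) (nat_lit 5) (nat_lit 6) (nat_lit 1) (nat_lit 7) (nat_lit 303) (nat_lit 338) r4_303 r2_338 (nat_lit 0) (nat_lit 0) (nat_lit 0) (nat_lit 0x8017985b4) (nat_lit 536870912)]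
noncomputable def e9_41 : List Rx := [
  Rx.mk (nat_lit 105) (nat_lit 1) (nat_lit 5) (nat_lit 1) (nat_lit 7) (nat_lit 307) (nat_lit 305) r4_307 r9_305 (nat_lit 0) (nat_lit 0) (nat_lit 0) (nat_lit 0x8017985b4) (nat_lit 536870912),
  Rx.mk (nat_lit 109) (nat_lit 5) (nat_lit 5) (nat_lit 1) (nat_lit 7) (nat_lit 308) (nat_lit 306) r4_308 r9_306 (nat_lit 0) (nat_lit 0) (nat_lit 0) (nat_lit 0x8017985b4) (nat_lit 536870912)]
noncomputable def e9_42 : List Rx := [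
  Rx.mk (nat_lit 97) (nat_lit 1) (nat_lit 4) (nat_lit 1) (nat_lit 5) (nat_lit 309) (nat_lit 313) r4_309 r9_313 (nat_lit 0) (nat_lit 47490513) (nat_lit 0) (nat_lit 0x7c0f81f64) (nat_lit 648924525),
  Rx.mk (nat_lit 101) (nat_lit 5) (nat_lit 4) (nat_lit 1) (nat_lit 5) (nat_lit 310) (nat_lit 312) r4_310 r9_312 (nat_lit 0) (nat_lit 30557758) (nat_lit 0) (nat_lit 0x7f457f316) (nat_lit 580390720),
  Rx.mk (nat_lit 105) (nat_lit 1) (nat_lit 5) (nat_lit 1) (nat_lit 7) (nat_lit 311) (nat_lit 315) r4_311 r9_315 (nat_lit 0) (nat_lit 0) (nat_lit 0) (nat_lit 0x8017985b4) (nat_lit 536870912),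
  Rx.mk (nat_lit 109) (nat_lit 5) (nat_lit 5) (nat_lit 1) (nat_lit 7) (nat_lit 312) (nat_lit 314) r4_312 r9_314 (nat_lit 0) (nat_lit 0) (nat_lit 0) (nat_lit 0x8017985b4) (nat_lit 536870912),
  Rx.mk (nat_lit 117) (nat_lit 5) (nat_lit 6) (nat_lit 1) (nat_lit 7) (nat_lit 313) (nat_lit 316) r4_313 r9_316 (nat_lit 0) (nat_lit 0) (nat_lit 0) (nat_lit 0x8017985b4) (nat_lit 536870912),
  Rx.mk (nat_lit 373) (nat_lit 5) (nat_lit 6) (nat_lit 5) (nat_lit 7) (nat_lit 314) (nat_lit 311) r4_314 r9_311 (nat_lit 0) (nat_lit 0) (nat_lit 0) (nat_lit 0x8017985b4) (nat_lit 536870912)]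
noncomputable def e9_43 : List Rx := [
  Rx.mk (nat_lit 33) (nat_lit 1) (nat_lit 4) (nat_lit 0) (nat_lit 1) (nat_lit 293) (nat_lit 297) r4_293 r1_297 (nat_lit 0) (nat_lit 79659509) (nat_lit 16666109) (nat_lit 0x6e82c4200) (nat_lit 916697780),
  Rx.mk (nat_lit 41) (nat_lit 1) (nat_lit 5) (nat_lit 0) (nat_lit 3) (nat_lit 296) (nat_lit 300) r4_296 r1_300 (nat_lit 0) (nat_lit 0) (nat_lit 21556671) (nat_lit 0x801c58cca) (nat_lit 558112583),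
  Rx.mk (nat_lit 97) (nat_lit 1) (nat_lit 4) (nat_lit 1) (nat_lit 5) (nat_lit 294) (nat_lit 298) r4_294 r1_298 (nat_lit 0) (nat_lit 132162371) (nat_lit 0) (nat_lit 0x7a51f7832) (nat_lit 761496733),
  Rx.mk (nat_lit 105) (nat_lit 1) (nat_lit 5) (nat_lit 1) (nat_lit 7) (nat_lit 297) (nat_lit 301) r4_297 r1_301 (nat_lit 0) (nat_lit 0) (nat_lit 0) (nat_lit 0x80b000be4) (nat_lit 527525712),
  Rx.mk (nat_lit 161) (nat_lit 1) (nat_lit 4) (nat_lit 2) (nat_lit 5) (nat_lit 295) (nat_lit 299) r4_295 r1_299 (nat_lit 0) (nat_lit 29428945) (nat_lit 0) (nat_lit 0x800d7d0e8) (nat_lit 566895407),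
  Rx.mk (nat_lit 169) (nat_lit 1) (nat_lit 5) (nat_lit 2) (nat_lit 7) (nat_lit 298) (nat_lit 302) r4_298 r1_302 (nat_lit 0) (nat_lit 0) (nat_lit 0) (nat_lit 0x80691f28e) (nat_lit 531863312)]
noncomputable def e9_44 : List Rx := [
  Rx.mk (nat_lit 41) (nat_lit 1) (nat_lit 5) (nat_lit 0) (nat_lit 3) (nat_lit 304) (nat_lit 181) r4_304 r8_181 (nat_lit 0) (nat_lit 0) (nat_lit 24372871) (nat_lit 0x7fec7bb1a) (nat_lit 563885983),
  Rx.mk (nat_lit 105) (nat_lit 1) (nat_lit 5) (nat_lit 1) (nat_lit 7) (nat_lit 305) (nat_lit 182) r4_305 r8_182 (nat_lit 0) (nat_lit 0) (nat_lit 0) (nat_lit 0x8017985b4) (nat_lit 536870912),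
  Rx.mk (nat_lit 169) (nat_lit 1) (nat_lit 5) (nat_lit 2) (nat_lit 7) (nat_lit 306) (nat_lit 183) r4_306 r8_183 (nat_lit 0) (nat_lit 0) (nat_lit 0) (nat_lit 0x8017985b4) (nat_lit 536870912)]
noncomputable def e9_45 : List Rx := [
  Rx.mk (nat_lit 40) (nat_lit 0) (nat_lit 5) (nat_lit 0) (nat_lit 2) (nat_lit 281) (nat_lit 187) r4_281 r1_187 (nat_lit 131619701) (nat_lit 0) (nat_lit 12745069) (nat_lit 0x669364acc) (nat_lit 1092912382),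
  Rx.mk (nat_lit 104) (nat_lit 0) (nat_lit 5) (nat_lit 1) (nat_lit 6) (nat_lit 282) (nat_lit 188) r4_282 r1_188 (nat_lit 25655830) (nat_lit 0) (nat_lit 0) (nat_lit 0x7fff0d792) (nat_lit 563934392),
  Rx.mk (nat_lit 136) (nat_lit 0) (nat_lit 1) (nat_lit 2) (nat_lit 6) (nat_lit 279) (nat_lit 190) r4_279 r1_190 (nat_lit 124425147) (nat_lit 0) (nat_lit 0) (nat_lit 0x7ecc4e244) (nat_lit 681601709),
  Rx.mk (nat_lit 138) (nat_lit 2) (nat_lit 1) (nat_lit 2) (nat_lit 7) (nat_lit 280) (nat_lit 191) r4_280 r1_191 (nat_lit 0) (nat_lit 0) (nat_lit 0) (nat_lit 0x80304a1b6) (nat_lit 535245512),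
  Rx.mk (nat_lit 168) (nat_lit 0) (nat_lit 5) (nat_lit 2) (nat_lit 6) (nat_lit 283) (nat_lit 189) r4_283 r1_189 (nat_lit 277566866) (nat_lit 0) (nat_lit 0) (nat_lit 0x7d3bb22a4) (nat_lit 859858978)]
noncomputable def e9_46 : List Rx := [
  Rx.mk (nat_lit 136) (nat_lit 0) (nat_lit 1) (nat_lit 2) (nat_lit 6) (nat_lit 271) (nat_lit 187) r4_271 r2_187 (nat_lit 24741287) (nat_lit 0) (nat_lit 0) (nat_lit 0x8017985b4) (nat_lit 561612199),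
  Rx.mk (nat_lit 138) (nat_lit 2) (nat_lit 1) (nat_lit 2) (nat_lit 7) (nat_lit 272) (nat_lit 188) r4_272 r2_188 (nat_lit 0) (nat_lit 0) (nat_lit 0) (nat_lit 0x8017985b4) (nat_lit 536870912)]
noncomputable def e9_47 : List Rx := [
  Rx.mk (nat_lit 40) (nat_lit 0) (nat_lit 5) (nat_lit 0) (nat_lit 2) (nat_lit 287) (nat_lit 341) r4_287 r8_341 (nat_lit 27124229) (nat_lit 0) (nat_lit 34758505) (nat_lit 0x700d128ac) (nat_lit 857380996),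
  Rx.mk (nat_lit 41) (nat_lit 1) (nat_lit 5) (nat_lit 0) (nat_lit 3) (nat_lit 290) (nat_lit 342) r4_290 r8_342 (nat_lit 0) (nat_lit 0) (nat_lit 24741287) (nat_lit 0x8017985b4) (nat_lit 561612199),
  Rx.mk (nat_lit 104) (nat_lit 0) (nat_lit 5) (nat_lit 1) (nat_lit 6) (nat_lit 288) (nat_lit 343) r4_288 r8_343 (nat_lit 24741287) (nat_lit 0) (nat_lit 0) (nat_lit 0x7ff500268) (nat_lit 563728899),
  Rx.mk (nat_lit 105) (nat_lit 1) (nat_lit 5) (nat_lit 1) (nat_lit 7) (nat_lit 291) (nat_lit 344) r4_291 r8_344 (nat_lit 0) (nat_lit 0) (nat_lit 0) (nat_lit 0x8017985b4) (nat_lit 536870912),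
  Rx.mk (nat_lit 136) (nat_lit 0) (nat_lit 1) (nat_lit 2) (nat_lit 6) (nat_lit 284) (nat_lit 338) r4_284 r8_338 (nat_lit 24741287) (nat_lit 0) (nat_lit 0) (nat_lit 0x8017985b4) (nat_lit 561612199),
  Rx.mk (nat_lit 137) (nat_lit 1) (nat_lit 1) (nat_lit 2) (nat_lit 7) (nat_lit 285) (nat_lit 339) r4_285 r8_339 (nat_lit 0) (nat_lit 0) (nat_lit 0) (nat_lit 0x8017985b4) (nat_lit 536870912),
  Rx.mk (nat_lit 138) (nat_lit 2) (nat_lit 1) (nat_lit 2) (nat_lit 7) (nat_lit 286) (nat_lit 340) r4_286 r8_340 (nat_lit 0) (nat_lit 0) (nat_lit 0) (nat_lit 0x8017985b4) (nat_lit 536870912),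
  Rx.mk (nat_lit 168) (nat_lit 0) (nat_lit 5) (nat_lit 2) (nat_lit 6) (nat_lit 289) (nat_lit 345) r4_289 r8_345 (nat_lit 24741287) (nat_lit 0) (nat_lit 0) (nat_lit 0x8017985b4) (nat_lit 561612199),
  Rx.mk (nat_lit 169) (nat_lit 1) (nat_lit 5) (nat_lit 2) (nat_lit 7) (nat_lit 292) (nat_lit 346) r4_292 r8_346 (nat_lit 0) (nat_lit 0) (nat_lit 0) (nat_lit 0x8017985b4) (nat_lit 536870912)]
noncomputable def e9_48 : List Rx := [
  Rx.mk (nat_lit 136) (nat_lit 0) (nat_lit 1) (nat_lit 2) (nat_lit 6) (nat_lit 273) (nat_lit 167) r4_273 r9_167 (nat_lit 24741287) (nat_lit 0) (nat_lit 0) (nat_lit 0x7fff3afc6) (nat_lit 563104399),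
  Rx.mk (nat_lit 137) (nat_lit 1) (nat_lit 1) (nat_lit 2) (nat_lit 7) (nat_lit 274) (nat_lit 168) r4_274 r9_168 (nat_lit 0) (nat_lit 0) (nat_lit 0) (nat_lit 0x8017985b4) (nat_lit 536870912),
  Rx.mk (nat_lit 138) (nat_lit 2) (nat_lit 1) (nat_lit 2) (nat_lit 7) (nat_lit 275) (nat_lit 169) r4_275 r9_169 (nat_lit 0) (nat_lit 0) (nat_lit 0) (nat_lit 0x8017985b4) (nat_lit 536870912)]
noncomputable def e9_49 : List Rx := [
  Rx.mk (nat_lit 136) (nat_lit 0) (nat_lit 1) (nat_lit 2) (nat_lit 6) (nat_lit 276) (nat_lit 133) r4_276 r9_133 (nat_lit 24741287) (nat_lit 0) (nat_lit 0) (nat_lit 0x80035e648) (nat_lit 562847599),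
  Rx.mk (nat_lit 138) (nat_lit 2) (nat_lit 1) (nat_lit 2) (nat_lit 7) (nat_lit 277) (nat_lit 134) r4_277 r9_134 (nat_lit 0) (nat_lit 0) (nat_lit 0) (nat_lit 0x8017985b4) (nat_lit 536870912),
  Rx.mk (nat_lit 394) (nat_lit 2) (nat_lit 1) (nat_lit 6) (nat_lit 7) (nat_lit 278) (nat_lit 135) r4_278 r9_135 (nat_lit 0) (nat_lit 0) (nat_lit 0) (nat_lit 0x8017985b4) (nat_lit 536870912)]
noncomputable def e9_50 : List Rx := [
  Rx.mk (nat_lit 32) (nat_lit 0) (nat_lit 4) (nat_lit 0) (nat_lit 0) (nat_lit 315) (nat_lit 155) r4_315 r3_155 (nat_lit 2229) (nat_lit 1732) (nat_lit 1469) (nat_lit 0x68e4b7288) (nat_lit 910528842),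
  Rx.mk (nat_lit 35) (nat_lit 3) (nat_lit 4) (nat_lit 0) (nat_lit 1) (nat_lit 318) (nat_lit 161) r4_318 r3_161 (nat_lit 0) (nat_lit 654027) (nat_lit 531156) (nat_lit 0x7dee0ba40) (nat_lit 571676845),
  Rx.mk (nat_lit 40) (nat_lit 0) (nat_lit 5) (nat_lit 0) (nat_lit 2) (nat_lit 321) (nat_lit 156) r4_321 r3_156 (nat_lit 291971) (nat_lit 0) (nat_lit 197867) (nat_lit 0x7cea5f820) (nat_lit 587285400),
  Rx.mk (nat_lit 43) (nat_lit 3) (nat_lit 5) (nat_lit 0) (nat_lit 3) (nat_lit 324) (nat_lit 162) r4_324 r3_162 (nat_lit 0) (nat_lit 0) (nat_lit 1704686) (nat_lit 0x92d5beefa) (nat_lit 251699898),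
  Rx.mk (nat_lit 96) (nat_lit 0) (nat_lit 4) (nat_lit 1) (nat_lit 4) (nat_lit 316) (nat_lit 157) r4_316 r3_157 (nat_lit 11711) (nat_lit 52766084) (nat_lit 0) (nat_lit 0x7e39636b4) (nat_lit 618367307),
  Rx.mk (nat_lit 99) (nat_lit 3) (nat_lit 4) (nat_lit 1) (nat_lit 5) (nat_lit 319) (nat_lit 163) r4_319 r3_163 (nat_lit 0) (nat_lit 8572817) (nat_lit 0) (nat_lit 0x825b4bc3c) (nat_lit 510304629),
  Rx.mk (nat_lit 104) (nat_lit 0) (nat_lit 5) (nat_lit 1) (nat_lit 6) (nat_lit 322) (nat_lit 158) r4_322 r3_158 (nat_lit 6083194) (nat_lit 0) (nat_lit 0) (nat_lit 0x8288ac032) (nat_lit 504840506),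
  Rx.mk (nat_lit 107) (nat_lit 3) (nat_lit 5) (nat_lit 1) (nat_lit 7) (nat_lit 325) (nat_lit 164) r4_325 r3_164 (nat_lit 0) (nat_lit 0) (nat_lit 0) (nat_lit 0x886830f5a) (nat_lit 409301012),
  Rx.mk (nat_lit 160) (nat_lit 0) (nat_lit 4) (nat_lit 2) (nat_lit 4) (nat_lit 317) (nat_lit 159) r4_317 r3_159 (nat_lit 79972519) (nat_lit 18325) (nat_lit 0) (nat_lit 0x7bd4579ca) (nat_lit 684307106),
  Rx.mk (nat_lit 163) (nat_lit 3) (nat_lit 4) (nat_lit 2) (nat_lit 5) (nat_lit 320) (nat_lit 165) r4_320 r3_165 (nat_lit 0) (nat_lit 8997628) (nat_lit 0) (nat_lit 0x812b84d60) (nat_lit 529007340),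
  Rx.mk (nat_lit 168) (nat_lit 0) (nat_lit 5) (nat_lit 2) (nat_lit 6) (nat_lit 323) (nat_lit 160) r4_323 r3_160 (nat_lit 57785397) (nat_lit 0) (nat_lit 0) (nat_lit 0x829aa2052) (nat_lit 555266559),
  Rx.mk (nat_lit 171) (nat_lit 3) (nat_lit 5) (nat_lit 2) (nat_lit 7) (nat_lit 326) (nat_lit 166) r4_326 r3_166 (nat_lit 0) (nat_lit 0) (nat_lit 0) (nat_lit 0x84db470d8) (nat_lit 463510162)]
noncomputable def e9_51 : List Rx := [
  Rx.mk (nat_lit 40) (nat_lit 0) (nat_lit 5) (nat_lit 0) (nat_lit 2) (nat_lit 349) (nat_lit 161) r4_349 r4_161 (nat_lit 15888243) (nat_lit 0) (nat_lit 8380959) (nat_lit 0x712c99c60) (nat_lit 801452014),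
  Rx.mk (nat_lit 43) (nat_lit 3) (nat_lit 5) (nat_lit 0) (nat_lit 3) (nat_lit 352) (nat_lit 164) r4_352 r4_164 (nat_lit 0) (nat_lit 0) (nat_lit 12559442) (nat_lit 0x7f3685d1a) (nat_lit 563145404),
  Rx.mk (nat_lit 104) (nat_lit 0) (nat_lit 5) (nat_lit 1) (nat_lit 6) (nat_lit 350) (nat_lit 162) r4_350 r4_162 (nat_lit 22312841) (nat_lit 0) (nat_lit 0) (nat_lit 0x806176d2a) (nat_lit 554648803),
  Rx.mk (nat_lit 107) (nat_lit 3) (nat_lit 5) (nat_lit 1) (nat_lit 7) (nat_lit 353) (nat_lit 165) r4_353 r4_165 (nat_lit 0) (nat_lit 0) (nat_lit 0) (nat_lit 0x80d3762ea) (nat_lit 525382062),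
  Rx.mk (nat_lit 168) (nat_lit 0) (nat_lit 5) (nat_lit 2) (nat_lit 6) (nat_lit 351) (nat_lit 163) r4_351 r4_163 (nat_lit 68646309) (nat_lit 0) (nat_lit 0) (nat_lit 0x7fa8798a4) (nat_lit 612142821),
  Rx.mk (nat_lit 171) (nat_lit 3) (nat_lit 5) (nat_lit 2) (nat_lit 7) (nat_lit 354) (nat_lit 166) r4_354 r4_166 (nat_lit 0) (nat_lit 0) (nat_lit 0) (nat_lit 0x808605e8e) (nat_lit 530063762)]
noncomputable def e9_52 : List Rx := [
  Rx.mk (nat_lit 32) (nat_lit 0) (nat_lit 4) (nat_lit 0) (nat_lit 0) (nat_lit 366) (nat_lit 169) r4_366 r5_169 (nat_lit 2737427) (nat_lit 1433235) (nat_lit 841617) (nat_lit 0x61d7dcea2) (nat_lit 1029758991),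
  Rx.mk (nat_lit 35) (nat_lit 3) (nat_lit 4) (nat_lit 0) (nat_lit 1) (nat_lit 369) (nat_lit 177) r4_369 r5_177 (nat_lit 0) (nat_lit 5283235) (nat_lit 4717590) (nat_lit 0x752a4ab54) (nat_lit 722606187),
  Rx.mk (nat_lit 40) (nat_lit 0) (nat_lit 5) (nat_lit 0) (nat_lit 2) (nat_lit 373) (nat_lit 170) r4_373 r5_170 (nat_lit 159956814) (nat_lit 0) (nat_lit 11320658) (nat_lit 0x7afbd0750) (nat_lit 789998334),
  Rx.mk (nat_lit 43) (nat_lit 3) (nat_lit 5) (nat_lit 0) (nat_lit 3) (nat_lit 375) (nat_lit 178) r4_375 r5_178 (nat_lit 0) (nat_lit 0) (nat_lit 10292378) (nat_lit 0x80631e6c8) (nat_lit 542489390),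
  Rx.mk (nat_lit 56) (nat_lit 0) (nat_lit 7) (nat_lit 0) (nat_lit 2) (nat_lit 378) (nat_lit 171) r4_378 r5_171 (nat_lit 58076158) (nat_lit 0) (nat_lit 24206208) (nat_lit 0x78ad82f82) (nat_lit 738299028),
  Rx.mk (nat_lit 96) (nat_lit 0) (nat_lit 4) (nat_lit 1) (nat_lit 4) (nat_lit 367) (nat_lit 172) r4_367 r5_172 (nat_lit 38663507) (nat_lit 31203347) (nat_lit 0) (nat_lit 0x74de6bf62) (nat_lit 787491166),
  Rx.mk (nat_lit 99) (nat_lit 3) (nat_lit 4) (nat_lit 1) (nat_lit 5) (nat_lit 370) (nat_lit 179) r4_370 r5_179 (nat_lit 0) (nat_lit 12656058) (nat_lit 0) (nat_lit 0x8088cb0ec) (nat_lit 542545370),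
  Rx.mk (nat_lit 120) (nat_lit 0) (nat_lit 7) (nat_lit 1) (nat_lit 6) (nat_lit 379) (nat_lit 173) r4_379 r5_173 (nat_lit 24741287) (nat_lit 0) (nat_lit 0) (nat_lit 0x8017985b4) (nat_lit 561612199),
  Rx.mk (nat_lit 160) (nat_lit 0) (nat_lit 4) (nat_lit 2) (nat_lit 4) (nat_lit 368) (nat_lit 174) r4_368 r5_174 (nat_lit 174408130) (nat_lit 5546147) (nat_lit 0) (nat_lit 0x790afe648) (nat_lit 829916089),
  Rx.mk (nat_lit 163) (nat_lit 3) (nat_lit 4) (nat_lit 2) (nat_lit 5) (nat_lit 371) (nat_lit 182) r4_371 r5_182 (nat_lit 0) (nat_lit 11445764) (nat_lit 0) (nat_lit 0x81403787a) (nat_lit 530241476),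
  Rx.mk (nat_lit 168) (nat_lit 0) (nat_lit 5) (nat_lit 2) (nat_lit 6) (nat_lit 374) (nat_lit 175) r4_374 r5_175 (nat_lit 141819368) (nat_lit 0) (nat_lit 0) (nat_lit 0x7fe1dc33a) (nat_lit 681820880),
  Rx.mk (nat_lit 171) (nat_lit 3) (nat_lit 5) (nat_lit 2) (nat_lit 7) (nat_lit 376) (nat_lit 183) r4_376 r5_183 (nat_lit 0) (nat_lit 0) (nat_lit 0) (nat_lit 0x80cd61346) (nat_lit 525749862),
  Rx.mk (nat_lit 184) (nat_lit 0) (nat_lit 7) (nat_lit 2) (nat_lit 6) (nat_lit 380) (nat_lit 176) r4_380 r5_176 (nat_lit 26164324) (nat_lit 0) (nat_lit 0) (nat_lit 0x80999346a) (nat_lit 555052536),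
  Rx.mk (nat_lit 227) (nat_lit 3) (nat_lit 4) (nat_lit 3) (nat_lit 5) (nat_lit 372) (nat_lit 180) r4_372 r5_180 (nat_lit 0) (nat_lit 26071718) (nat_lit 0) (nat_lit 0x7c450e86c) (nat_lit 624104680),
  Rx.mk (nat_lit 235) (nat_lit 3) (nat_lit 5) (nat_lit 3) (nat_lit 7) (nat_lit 377) (nat_lit 181) r4_377 r5_181 (nat_lit 0) (nat_lit 0) (nat_lit 0) (nat_lit 0x80414fb1e) (nat_lit 534304462)]
noncomputable def e9_53 : List Rx := [
  Rx.mk (nat_lit 32) (nat_lit 0) (nat_lit 4) (nat_lit 0) (nat_lit 0) (nat_lit 327) (nat_lit 327) r4_327 r4_327 (nat_lit 6283487) (nat_lit 21773644) (nat_lit 6283487) (nat_lit 0x61999ca2a) (nat_lit 1063393080),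
  Rx.mk (nat_lit 33) (nat_lit 1) (nat_lit 4) (nat_lit 0) (nat_lit 1) (nat_lit 330) (nat_lit 328) r4_330 r4_328 (nat_lit 0) (nat_lit 48279250) (nat_lit 11437457) (nat_lit 0x777352bce) (nat_lit 735513319),
  Rx.mk (nat_lit 35) (nat_lit 3) (nat_lit 4) (nat_lit 0) (nat_lit 1) (nat_lit 333) (nat_lit 329) r4_333 r4_329 (nat_lit 0) (nat_lit 32031949) (nat_lit 24376439) (nat_lit 0x794b04102) (nat_lit 702517800),
  Rx.mk (nat_lit 40) (nat_lit 0) (nat_lit 5) (nat_lit 0) (nat_lit 2) (nat_lit 335) (nat_lit 335) r4_335 r4_335 (nat_lit 90649037) (nat_lit 0) (nat_lit 90649037) (nat_lit 0x7d5b0546c) (nat_lit 761817136),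
  Rx.mk (nat_lit 41) (nat_lit 1) (nat_lit 5) (nat_lit 0) (nat_lit 3) (nat_lit 338) (nat_lit 336) r4_338 r4_336 (nat_lit 0) (nat_lit 0) (nat_lit 24741287) (nat_lit 0x8017985b4) (nat_lit 561612199),
  Rx.mk (nat_lit 43) (nat_lit 3) (nat_lit 5) (nat_lit 0) (nat_lit 3) (nat_lit 341) (nat_lit 337) r4_341 r4_337 (nat_lit 0) (nat_lit 0) (nat_lit 28361871) (nat_lit 0x7f9b8ef18) (nat_lit 572839333),
  Rx.mk (nat_lit 96) (nat_lit 0) (nat_lit 4) (nat_lit 1) (nat_lit 4) (nat_lit 328) (nat_lit 330) r4_328 r4_330 (nat_lit 11437457) (nat_lit 48279250) (nat_lit 0) (nat_lit 0x777352bce) (nat_lit 735513319),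
  Rx.mk (nat_lit 97) (nat_lit 1) (nat_lit 4) (nat_lit 1) (nat_lit 5) (nat_lit 331) (nat_lit 331) r4_331 r4_331 (nat_lit 0) (nat_lit 25419834) (nat_lit 0) (nat_lit 0x7ffc8b384) (nat_lit 563917346),
  Rx.mk (nat_lit 99) (nat_lit 3) (nat_lit 4) (nat_lit 1) (nat_lit 5) (nat_lit 334) (nat_lit 332) r4_334 r4_332 (nat_lit 0) (nat_lit 24741287) (nat_lit 0) (nat_lit 0x8053c497a) (nat_lit 557914449),
  Rx.mk (nat_lit 104) (nat_lit 0) (nat_lit 5) (nat_lit 1) (nat_lit 6) (nat_lit 336) (nat_lit 338) r4_336 r4_338 (nat_lit 24741287) (nat_lit 0) (nat_lit 0) (nat_lit 0x8017985b4) (nat_lit 561612199),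
  Rx.mk (nat_lit 105) (nat_lit 1) (nat_lit 5) (nat_lit 1) (nat_lit 7) (nat_lit 339) (nat_lit 339) r4_339 r4_339 (nat_lit 0) (nat_lit 0) (nat_lit 0) (nat_lit 0x8017985b4) (nat_lit 536870912),
  Rx.mk (nat_lit 107) (nat_lit 3) (nat_lit 5) (nat_lit 1) (nat_lit 7) (nat_lit 342) (nat_lit 340) r4_342 r4_340 (nat_lit 0) (nat_lit 0) (nat_lit 0) (nat_lit 0x8017985b4) (nat_lit 536870912),
  Rx.mk (nat_lit 160) (nat_lit 0) (nat_lit 4) (nat_lit 2) (nat_lit 4) (nat_lit 329) (nat_lit 333) r4_329 r4_333 (nat_lit 24376439) (nat_lit 32031949) (nat_lit 0) (nat_lit 0x794b04102) (nat_lit 702517800),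
  Rx.mk (nat_lit 161) (nat_lit 1) (nat_lit 4) (nat_lit 2) (nat_lit 5) (nat_lit 332) (nat_lit 334) r4_332 r4_334 (nat_lit 0) (nat_lit 24741287) (nat_lit 0) (nat_lit 0x8053c497a) (nat_lit 557914449),
  Rx.mk (nat_lit 168) (nat_lit 0) (nat_lit 5) (nat_lit 2) (nat_lit 6) (nat_lit 337) (nat_lit 341) r4_337 r4_341 (nat_lit 28361871) (nat_lit 0) (nat_lit 0) (nat_lit 0x7f9b8ef18) (nat_lit 572839333),
  Rx.mk (nat_lit 169) (nat_lit 1) (nat_lit 5) (nat_lit 2) (nat_lit 7) (nat_lit 340) (nat_lit 342) r4_340 r4_342 (nat_lit 0) (nat_lit 0) (nat_lit 0) (nat_lit 0x8017985b4) (nat_lit 536870912)]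
noncomputable def e9_54 : List Rx := [
  Rx.mk (nat_lit 40) (nat_lit 0) (nat_lit 5) (nat_lit 0) (nat_lit 2) (nat_lit 355) (nat_lit 175) r4_355 r10_175 (nat_lit 35822015) (nat_lit 0) (nat_lit 46258346) (nat_lit 0x73116d7f0) (nat_lit 828766423),
  Rx.mk (nat_lit 41) (nat_lit 1) (nat_lit 5) (nat_lit 0) (nat_lit 3) (nat_lit 358) (nat_lit 178) r4_358 r10_178 (nat_lit 0) (nat_lit 0) (nat_lit 24741287) (nat_lit 0x8017985b4) (nat_lit 561612199),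
  Rx.mk (nat_lit 43) (nat_lit 3) (nat_lit 5) (nat_lit 0) (nat_lit 3) (nat_lit 361) (nat_lit 181) r4_361 r10_181 (nat_lit 0) (nat_lit 0) (nat_lit 28199854) (nat_lit 0x800201570) (nat_lit 566376116),
  Rx.mk (nat_lit 104) (nat_lit 0) (nat_lit 5) (nat_lit 1) (nat_lit 6) (nat_lit 356) (nat_lit 176) r4_356 r10_176 (nat_lit 24741287) (nat_lit 0) (nat_lit 0) (nat_lit 0x801405032) (nat_lit 561834699),
  Rx.mk (nat_lit 105) (nat_lit 1) (nat_lit 5) (nat_lit 1) (nat_lit 7) (nat_lit 359) (nat_lit 179) r4_359 r10_179 (nat_lit 0) (nat_lit 0) (nat_lit 0) (nat_lit 0x8017985b4) (nat_lit 536870912),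
  Rx.mk (nat_lit 107) (nat_lit 3) (nat_lit 5) (nat_lit 1) (nat_lit 7) (nat_lit 362) (nat_lit 182) r4_362 r10_182 (nat_lit 0) (nat_lit 0) (nat_lit 0) (nat_lit 0x8017985b4) (nat_lit 536870912),
  Rx.mk (nat_lit 168) (nat_lit 0) (nat_lit 5) (nat_lit 2) (nat_lit 6) (nat_lit 357) (nat_lit 177) r4_357 r10_177 (nat_lit 25246541) (nat_lit 0) (nat_lit 0) (nat_lit 0x7fe66bc2a) (nat_lit 565123853),
  Rx.mk (nat_lit 169) (nat_lit 1) (nat_lit 5) (nat_lit 2) (nat_lit 7) (nat_lit 360) (nat_lit 180) r4_360 r10_180 (nat_lit 0) (nat_lit 0) (nat_lit 0) (nat_lit 0x8017985b4) (nat_lit 536870912)]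
noncomputable def e9_55 : List Rx := [
  Rx.mk (nat_lit 32) (nat_lit 0) (nat_lit 4) (nat_lit 0) (nat_lit 0) (nat_lit 381) (nat_lit 191) r4_381 r11_191 (nat_lit 17952672) (nat_lit 17913539) (nat_lit 15710614) (nat_lit 0x5f1b5dba2) (nat_lit 1121002137),
  Rx.mk (nat_lit 33) (nat_lit 1) (nat_lit 4) (nat_lit 0) (nat_lit 1) (nat_lit 384) (nat_lit 199) r4_384 r11_199 (nat_lit 0) (nat_lit 35726227) (nat_lit 27870751) (nat_lit 0x779980b0c) (nat_lit 737097740),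
  Rx.mk (nat_lit 35) (nat_lit 3) (nat_lit 4) (nat_lit 0) (nat_lit 1) (nat_lit 387) (nat_lit 207) r4_387 r11_207 (nat_lit 0) (nat_lit 27912229) (nat_lit 29502798) (nat_lit 0x78d0f8fca) (nat_lit 711254839),
  Rx.mk (nat_lit 40) (nat_lit 0) (nat_lit 5) (nat_lit 0) (nat_lit 2) (nat_lit 390) (nat_lit 192) r4_390 r11_192 (nat_lit 96193341) (nat_lit 0) (nat_lit 20049231) (nat_lit 0x7b255b444) (nat_lit 732377384),
  Rx.mk (nat_lit 41) (nat_lit 1) (nat_lit 5) (nat_lit 0) (nat_lit 3) (nat_lit 392) (nat_lit 200) r4_392 r11_200 (nat_lit 0) (nat_lit 0) (nat_lit 24741287) (nat_lit 0x8017985b4) (nat_lit 561612199),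
  Rx.mk (nat_lit 43) (nat_lit 3) (nat_lit 5) (nat_lit 0) (nat_lit 3) (nat_lit 394) (nat_lit 208) r4_394 r11_208 (nat_lit 0) (nat_lit 0) (nat_lit 23934074) (nat_lit 0x7fe6d46d0) (nat_lit 563795286),
  Rx.mk (nat_lit 56) (nat_lit 0) (nat_lit 7) (nat_lit 0) (nat_lit 2) (nat_lit 396) (nat_lit 193) r4_396 r11_193 (nat_lit 30793545) (nat_lit 0) (nat_lit 30793545) (nat_lit 0x7da382596) (nat_lit 637575952),
  Rx.mk (nat_lit 57) (nat_lit 1) (nat_lit 7) (nat_lit 0) (nat_lit 3) (nat_lit 399) (nat_lit 201) r4_399 r11_201 (nat_lit 0) (nat_lit 0) (nat_lit 24741287) (nat_lit 0x8017985b4) (nat_lit 561612199),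
  Rx.mk (nat_lit 96) (nat_lit 0) (nat_lit 4) (nat_lit 1) (nat_lit 4) (nat_lit 382) (nat_lit 194) r4_382 r11_194 (nat_lit 27647826) (nat_lit 34329630) (nat_lit 0) (nat_lit 0x7e54987ea) (nat_lit 626865718),
  Rx.mk (nat_lit 97) (nat_lit 1) (nat_lit 4) (nat_lit 1) (nat_lit 5) (nat_lit 385) (nat_lit 202) r4_385 r11_202 (nat_lit 0) (nat_lit 26112240) (nat_lit 0) (nat_lit 0x7f458b346) (nat_lit 575951702),
  Rx.mk (nat_lit 99) (nat_lit 3) (nat_lit 4) (nat_lit 1) (nat_lit 5) (nat_lit 388) (nat_lit 209) r4_388 r11_209 (nat_lit 0) (nat_lit 24741287) (nat_lit 0) (nat_lit 0x8017985b4) (nat_lit 561612199),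
  Rx.mk (nat_lit 120) (nat_lit 0) (nat_lit 7) (nat_lit 1) (nat_lit 6) (nat_lit 397) (nat_lit 195) r4_397 r11_195 (nat_lit 24741287) (nat_lit 0) (nat_lit 0) (nat_lit 0x8017985b4) (nat_lit 561612199),
  Rx.mk (nat_lit 121) (nat_lit 1) (nat_lit 7) (nat_lit 1) (nat_lit 7) (nat_lit 400) (nat_lit 203) r4_400 r11_203 (nat_lit 0) (nat_lit 0) (nat_lit 0) (nat_lit 0x8017985b4) (nat_lit 536870912),
  Rx.mk (nat_lit 160) (nat_lit 0) (nat_lit 4) (nat_lit 2) (nat_lit 4) (nat_lit 383) (nat_lit 196) r4_383 r11_196 (nat_lit 28646946) (nat_lit 30009416) (nat_lit 0) (nat_lit 0x7b26b540c) (nat_lit 674773074),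
  Rx.mk (nat_lit 161) (nat_lit 1) (nat_lit 4) (nat_lit 2) (nat_lit 5) (nat_lit 386) (nat_lit 204) r4_386 r11_204 (nat_lit 0) (nat_lit 24741287) (nat_lit 0) (nat_lit 0x8017985b4) (nat_lit 561612199),
  Rx.mk (nat_lit 168) (nat_lit 0) (nat_lit 5) (nat_lit 2) (nat_lit 6) (nat_lit 391) (nat_lit 197) r4_391 r11_197 (nat_lit 30058585) (nat_lit 0) (nat_lit 0) (nat_lit 0x7fbf63a4c) (nat_lit 572343247),
  Rx.mk (nat_lit 169) (nat_lit 1) (nat_lit 5) (nat_lit 2) (nat_lit 7) (nat_lit 393) (nat_lit 205) r4_393 r11_205 (nat_lit 0) (nat_lit 0) (nat_lit 0) (nat_lit 0x8017985b4) (nat_lit 536870912),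
  Rx.mk (nat_lit 184) (nat_lit 0) (nat_lit 7) (nat_lit 2) (nat_lit 6) (nat_lit 398) (nat_lit 198) r4_398 r11_198 (nat_lit 24741287) (nat_lit 0) (nat_lit 0) (nat_lit 0x8017985b4) (nat_lit 561612199),
  Rx.mk (nat_lit 185) (nat_lit 1) (nat_lit 7) (nat_lit 2) (nat_lit 7) (nat_lit 401) (nat_lit 206) r4_401 r11_206 (nat_lit 0) (nat_lit 0) (nat_lit 0) (nat_lit 0x8017985b4) (nat_lit 536870912),
  Rx.mk (nat_lit 227) (nat_lit 3) (nat_lit 4) (nat_lit 3) (nat_lit 5) (nat_lit 389) (nat_lit 210) r4_389 r11_210 (nat_lit 0) (nat_lit 24741287) (nat_lit 0) (nat_lit 0x8017985b4) (nat_lit 561612199),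
  Rx.mk (nat_lit 235) (nat_lit 3) (nat_lit 5) (nat_lit 3) (nat_lit 7) (nat_lit 395) (nat_lit 211) r4_395 r11_211 (nat_lit 0) (nat_lit 0) (nat_lit 0) (nat_lit 0x8017985b4) (nat_lit 536870912)]
noncomputable def e9_56 : List Rx := [
  Rx.mk (nat_lit 35) (nat_lit 3) (nat_lit 4) (nat_lit 0) (nat_lit 1) (nat_lit 343) (nat_lit 297) r4_343 r5_297 (nat_lit 0) (nat_lit 8412019) (nat_lit 4914536) (nat_lit 0x7692903ac) (nat_lit 703204217),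
  Rx.mk (nat_lit 43) (nat_lit 3) (nat_lit 5) (nat_lit 0) (nat_lit 3) (nat_lit 346) (nat_lit 300) r4_346 r5_300 (nat_lit 0) (nat_lit 0) (nat_lit 2837782) (nat_lit 0x88d4b3178) (nat_lit 405532494),
  Rx.mk (nat_lit 99) (nat_lit 3) (nat_lit 4) (nat_lit 1) (nat_lit 5) (nat_lit 344) (nat_lit 298) r4_344 r5_298 (nat_lit 0) (nat_lit 16948508) (nat_lit 0) (nat_lit 0x809c7b0d8) (nat_lit 545627870),
  Rx.mk (nat_lit 107) (nat_lit 3) (nat_lit 5) (nat_lit 1) (nat_lit 7) (nat_lit 347) (nat_lit 301) r4_347 r5_301 (nat_lit 0) (nat_lit 0) (nat_lit 0) (nat_lit 0x8942acc88) (nat_lit 396280012),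
  Rx.mk (nat_lit 163) (nat_lit 3) (nat_lit 4) (nat_lit 2) (nat_lit 5) (nat_lit 345) (nat_lit 299) r4_345 r5_299 (nat_lit 0) (nat_lit 16388111) (nat_lit 0) (nat_lit 0x805f52918) (nat_lit 548834573),
  Rx.mk (nat_lit 171) (nat_lit 3) (nat_lit 5) (nat_lit 2) (nat_lit 7) (nat_lit 348) (nat_lit 302) r4_348 r5_302 (nat_lit 0) (nat_lit 0) (nat_lit 0) (nat_lit 0x816422d98) (nat_lit 516613662)]
noncomputable def e9_57 : List Rx := [
  Rx.mk (nat_lit 43) (nat_lit 3) (nat_lit 5) (nat_lit 0) (nat_lit 3) (nat_lit 363) (nat_lit 353) r4_363 r11_353 (nat_lit 0) (nat_lit 0) (nat_lit 18792813) (nat_lit 0x7fd5d2af8) (nat_lit 559647725),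
  Rx.mk (nat_lit 107) (nat_lit 3) (nat_lit 5) (nat_lit 1) (nat_lit 7) (nat_lit 364) (nat_lit 354) r4_364 r11_354 (nat_lit 0) (nat_lit 0) (nat_lit 0) (nat_lit 0x8047a5cb6) (nat_lit 533919512),
  Rx.mk (nat_lit 171) (nat_lit 3) (nat_lit 5) (nat_lit 2) (nat_lit 7) (nat_lit 365) (nat_lit 355) r4_365 r11_355 (nat_lit 0) (nat_lit 0) (nat_lit 0) (nat_lit 0x8026a1380) (nat_lit 535916512)]
noncomputable def e9 : List (List Rx) := [e9_0, e9_1, e9_2, e9_3, e9_4, e9_5, e9_6, e9_7, e9_8, e9_9, e9_10, e9_11, e9_12, e9_13, e9_14, e9_15, e9_16, e9_17, e9_18, e9_19, e9_20, e9_21, e9_22, e9_23, e9_24, e9_25, e9_26, e9_27, e9_28, e9_29, e9_30, e9_31, e9_32, e9_33, e9_34, e9_35, e9_36, e9_37, e9_38, e9_39, e9_40, e9_41, e9_42, e9_43, e9_44, e9_45, e9_46, e9_47, e9_48, e9_49, e9_50, e9_51, e9_52, e9_53, e9_54, e9_55, e9_56, e9_57]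
noncomputable def e10_0 : List Rx := [
  Rx.mk (nat_lit 22) (nat_lit 6) (nat_lit 2) (nat_lit 0) (nat_lit 3) (nat_lit 5) (nat_lit 85) r6_5 r0_85 (nat_lit 0) (nat_lit 0) (nat_lit 4982960) (nat_lit 0x7f97fd5b6) (nat_lit 549398922),
  Rx.mk (nat_lit 52) (nat_lit 4) (nat_lit 6) (nat_lit 0) (nat_lit 2) (nat_lit 0) (nat_lit 82) r6_0 r0_82 (nat_lit 2752324) (nat_lit 0) (nat_lit 1834824) (nat_lit 0x5acd8ab40) (nat_lit 1143327010),
  Rx.mk (nat_lit 54) (nat_lit 6) (nat_lit 6) (nat_lit 0) (nat_lit 3) (nat_lit 3) (nat_lit 87) r6_3 r0_87 (nat_lit 0) (nat_lit 0) (nat_lit 18629772) (nat_lit 0x7b316cfbc) (nat_lit 634046784),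
  Rx.mk (nat_lit 86) (nat_lit 6) (nat_lit 2) (nat_lit 1) (nat_lit 7) (nat_lit 6) (nat_lit 86) r6_6 r0_86 (nat_lit 0) (nat_lit 0) (nat_lit 0) (nat_lit 0x8ecace6ac) (nat_lit 311796962),
  Rx.mk (nat_lit 116) (nat_lit 4) (nat_lit 6) (nat_lit 1) (nat_lit 6) (nat_lit 1) (nat_lit 83) r6_1 r0_83 (nat_lit 13075147) (nat_lit 0) (nat_lit 0) (nat_lit 0x78e3d9b80) (nat_lit 665603759),
  Rx.mk (nat_lit 118) (nat_lit 6) (nat_lit 6) (nat_lit 1) (nat_lit 7) (nat_lit 4) (nat_lit 88) r6_4 r0_88 (nat_lit 0) (nat_lit 0) (nat_lit 0) (nat_lit 0x8116bf43e) (nat_lit 521295912),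
  Rx.mk (nat_lit 180) (nat_lit 4) (nat_lit 6) (nat_lit 2) (nat_lit 6) (nat_lit 2) (nat_lit 84) r6_2 r0_84 (nat_lit 9488112) (nat_lit 0) (nat_lit 0) (nat_lit 0x7869953b0) (nat_lit 669747474)]
noncomputable def e10_1 : List Rx := [
  Rx.mk (nat_lit 86) (nat_lit 6) (nat_lit 2) (nat_lit 1) (nat_lit 7) (nat_lit 9) (nat_lit 89) r6_9 r1_89 (nat_lit 0) (nat_lit 0) (nat_lit 0) (nat_lit 0x8954d7890) (nat_lit 395152462),
  Rx.mk (nat_lit 116) (nat_lit 4) (nat_lit 6) (nat_lit 1) (nat_lit 6) (nat_lit 7) (nat_lit 88) r6_7 r1_88 (nat_lit 14248724) (nat_lit 0) (nat_lit 0) (nat_lit 0x80a26753c) (nat_lit 542542486),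
  Rx.mk (nat_lit 118) (nat_lit 6) (nat_lit 6) (nat_lit 1) (nat_lit 7) (nat_lit 8) (nat_lit 90) r6_8 r1_90 (nat_lit 0) (nat_lit 0) (nat_lit 0) (nat_lit 0x80add07a2) (nat_lit 527662962)]
noncomputable def e10_2 : List Rx := [
  Rx.mk (nat_lit 86) (nat_lit 6) (nat_lit 2) (nat_lit 1) (nat_lit 7) (nat_lit 11) (nat_lit 94) r6_11 r2_94 (nat_lit 0) (nat_lit 0) (nat_lit 0) (nat_lit 0x8017985b4) (nat_lit 536870912),
  Rx.mk (nat_lit 342) (nat_lit 6) (nat_lit 2) (nat_lit 5) (nat_lit 7) (nat_lit 10) (nat_lit 95) r6_10 r2_95 (nat_lit 0) (nat_lit 0) (nat_lit 0) (nat_lit 0x8017985b4) (nat_lit 536870912)]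
noncomputable def e10_3 : List Rx := [
  Rx.mk (nat_lit 22) (nat_lit 6) (nat_lit 2) (nat_lit 0) (nat_lit 3) (nat_lit 15) (nat_lit 79) r6_15 r3_79 (nat_lit 0) (nat_lit 0) (nat_lit 1281031) (nat_lit 0x74900bd36) (nat_lit 723321843),
  Rx.mk (nat_lit 52) (nat_lit 4) (nat_lit 6) (nat_lit 0) (nat_lit 2) (nat_lit 12) (nat_lit 74) r6_12 r3_74 (nat_lit 3671) (nat_lit 0) (nat_lit 2940) (nat_lit 0x7fffa9322) (nat_lit 536901023),
  Rx.mk (nat_lit 54) (nat_lit 6) (nat_lit 6) (nat_lit 0) (nat_lit 3) (nat_lit 14) (nat_lit 81) r6_14 r3_81 (nat_lit 0) (nat_lit 0) (nat_lit 6608634) (nat_lit 0x74406e594) (nat_lit 733974246),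
  Rx.mk (nat_lit 55) (nat_lit 7) (nat_lit 6) (nat_lit 0) (nat_lit 3) (nat_lit 18) (nat_lit 77) r6_18 r3_77 (nat_lit 0) (nat_lit 0) (nat_lit 201864) (nat_lit 0x7fa9eb5e8) (nat_lit 542596676),
  Rx.mk (nat_lit 167) (nat_lit 7) (nat_lit 4) (nat_lit 2) (nat_lit 5) (nat_lit 17) (nat_lit 76) r6_17 r3_76 (nat_lit 0) (nat_lit 320985) (nat_lit 0) (nat_lit 0x7f1636122) (nat_lit 552018747),
  Rx.mk (nat_lit 180) (nat_lit 4) (nat_lit 6) (nat_lit 2) (nat_lit 6) (nat_lit 13) (nat_lit 75) r6_13 r3_75 (nat_lit 2875897) (nat_lit 0) (nat_lit 0) (nat_lit 0x717aba4b2) (nat_lit 774887159),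
  Rx.mk (nat_lit 183) (nat_lit 7) (nat_lit 6) (nat_lit 2) (nat_lit 7) (nat_lit 19) (nat_lit 78) r6_19 r3_78 (nat_lit 0) (nat_lit 0) (nat_lit 0) (nat_lit 0x85801fec0) (nat_lit 453525812),
  Rx.mk (nat_lit 214) (nat_lit 6) (nat_lit 2) (nat_lit 3) (nat_lit 7) (nat_lit 16) (nat_lit 80) r6_16 r3_80 (nat_lit 0) (nat_lit 0) (nat_lit 0) (nat_lit 0x82a884a62) (nat_lit 496785062)]
noncomputable def e10_4 : List Rx := [
  Rx.mk (nat_lit 22) (nat_lit 6) (nat_lit 2) (nat_lit 0) (nat_lit 3) (nat_lit 25) (nat_lit 84) r6_25 r4_84 (nat_lit 0) (nat_lit 0) (nat_lit 5828454) (nat_lit 0x7fc27fd8e) (nat_lit 547632616),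
  Rx.mk (nat_lit 52) (nat_lit 4) (nat_lit 6) (nat_lit 0) (nat_lit 2) (nat_lit 20) (nat_lit 78) r6_20 r4_78 (nat_lit 3814909) (nat_lit 0) (nat_lit 2670845) (nat_lit 0x6861eb944) (nat_lit 925706566),
  Rx.mk (nat_lit 54) (nat_lit 6) (nat_lit 6) (nat_lit 0) (nat_lit 3) (nat_lit 23) (nat_lit 87) r6_23 r4_87 (nat_lit 0) (nat_lit 0) (nat_lit 9821827) (nat_lit 0x7fc4fda48) (nat_lit 551627389),
  Rx.mk (nat_lit 55) (nat_lit 7) (nat_lit 6) (nat_lit 0) (nat_lit 3) (nat_lit 28) (nat_lit 81) r6_28 r4_81 (nat_lit 0) (nat_lit 0) (nat_lit 136651) (nat_lit 0x6297d7fc2) (nat_lit 1012582363),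
  Rx.mk (nat_lit 86) (nat_lit 6) (nat_lit 2) (nat_lit 1) (nat_lit 7) (nat_lit 26) (nat_lit 85) r6_26 r4_85 (nat_lit 0) (nat_lit 0) (nat_lit 0) (nat_lit 0x80fddf1bc) (nat_lit 522806362),
  Rx.mk (nat_lit 116) (nat_lit 4) (nat_lit 6) (nat_lit 1) (nat_lit 6) (nat_lit 21) (nat_lit 79) r6_21 r4_79 (nat_lit 9313182) (nat_lit 0) (nat_lit 0) (nat_lit 0x8051e9268) (nat_lit 542445944),
  Rx.mk (nat_lit 118) (nat_lit 6) (nat_lit 6) (nat_lit 1) (nat_lit 7) (nat_lit 24) (nat_lit 88) r6_24 r4_88 (nat_lit 0) (nat_lit 0) (nat_lit 0) (nat_lit 0x8046420c2) (nat_lit 534001662),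
  Rx.mk (nat_lit 119) (nat_lit 7) (nat_lit 6) (nat_lit 1) (nat_lit 7) (nat_lit 29) (nat_lit 82) r6_29 r4_82 (nat_lit 0) (nat_lit 0) (nat_lit 0) (nat_lit 0x80f6273ca) (nat_lit 522994062),
  Rx.mk (nat_lit 180) (nat_lit 4) (nat_lit 6) (nat_lit 2) (nat_lit 6) (nat_lit 22) (nat_lit 80) r6_22 r4_80 (nat_lit 10422876) (nat_lit 0) (nat_lit 0) (nat_lit 0x7e366a3fe) (nat_lit 577077388),
  Rx.mk (nat_lit 183) (nat_lit 7) (nat_lit 6) (nat_lit 2) (nat_lit 7) (nat_lit 30) (nat_lit 83) r6_30 r4_83 (nat_lit 0) (nat_lit 0) (nat_lit 0) (nat_lit 0x80d433d36) (nat_lit 525049262),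
  Rx.mk (nat_lit 214) (nat_lit 6) (nat_lit 2) (nat_lit 3) (nat_lit 7) (nat_lit 27) (nat_lit 86) r6_27 r4_86 (nat_lit 0) (nat_lit 0) (nat_lit 0) (nat_lit 0x80efb1ee6) (nat_lit 523668462)]
noncomputable def e10_5 : List Rx := [
  Rx.mk (nat_lit 52) (nat_lit 4) (nat_lit 6) (nat_lit 0) (nat_lit 2) (nat_lit 31) (nat_lit 70) r6_31 r5_70 (nat_lit 214613) (nat_lit 0) (nat_lit 151381) (nat_lit 0x7f84aacac) (nat_lit 545085756),
  Rx.mk (nat_lit 54) (nat_lit 6) (nat_lit 6) (nat_lit 0) (nat_lit 3) (nat_lit 34) (nat_lit 78) r6_34 r5_78 (nat_lit 0) (nat_lit 0) (nat_lit 14912566) (nat_lit 0x7ad02e7c8) (nat_lit 636403678),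
  Rx.mk (nat_lit 55) (nat_lit 7) (nat_lit 6) (nat_lit 0) (nat_lit 3) (nat_lit 38) (nat_lit 75) r6_38 r5_75 (nat_lit 0) (nat_lit 0) (nat_lit 506970) (nat_lit 0x8036353fa) (nat_lit 534398782),
  Rx.mk (nat_lit 167) (nat_lit 7) (nat_lit 4) (nat_lit 2) (nat_lit 5) (nat_lit 37) (nat_lit 73) r6_37 r5_73 (nat_lit 0) (nat_lit 6235362) (nat_lit 0) (nat_lit 0x7e4c9eb16) (nat_lit 571302074),
  Rx.mk (nat_lit 180) (nat_lit 4) (nat_lit 6) (nat_lit 2) (nat_lit 6) (nat_lit 32) (nat_lit 72) r6_32 r5_72 (nat_lit 7478372) (nat_lit 0) (nat_lit 0) (nat_lit 0x7e7bc2848) (nat_lit 569688734),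
  Rx.mk (nat_lit 183) (nat_lit 7) (nat_lit 6) (nat_lit 2) (nat_lit 7) (nat_lit 39) (nat_lit 76) r6_39 r5_76 (nat_lit 0) (nat_lit 0) (nat_lit 0) (nat_lit 0x8de7568e8) (nat_lit 325388962),
  Rx.mk (nat_lit 191) (nat_lit 7) (nat_lit 7) (nat_lit 2) (nat_lit 7) (nat_lit 40) (nat_lit 74) r6_40 r5_74 (nat_lit 0) (nat_lit 0) (nat_lit 0) (nat_lit 0x7ffe6318e) (nat_lit 538324412),
  Rx.mk (nat_lit 214) (nat_lit 6) (nat_lit 2) (nat_lit 3) (nat_lit 7) (nat_lit 36) (nat_lit 77) r6_36 r5_77 (nat_lit 0) (nat_lit 0) (nat_lit 0) (nat_lit 0x7adbdb5da) (nat_lit 620253362),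
  Rx.mk (nat_lit 244) (nat_lit 4) (nat_lit 6) (nat_lit 3) (nat_lit 6) (nat_lit 33) (nat_lit 71) r6_33 r5_71 (nat_lit 5517824) (nat_lit 0) (nat_lit 0) (nat_lit 0x80fe04cf0) (nat_lit 528080236),
  Rx.mk (nat_lit 246) (nat_lit 6) (nat_lit 6) (nat_lit 3) (nat_lit 7) (nat_lit 35) (nat_lit 79) r6_35 r5_79 (nat_lit 0) (nat_lit 0) (nat_lit 0) (nat_lit 0x7df8696ea) (nat_lit 570525862)]
noncomputable def e10_6 : List Rx := [
  Rx.mk (nat_lit 258) (nat_lit 2) (nat_lit 0) (nat_lit 4) (nat_lit 1) (nat_lit 44) (nat_lit 74) r6_44 r3_74 (nat_lit 0) (nat_lit 3671) (nat_lit 2940) (nat_lit 0x7fffa9322) (nat_lit 536901023),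
  Rx.mk (nat_lit 274) (nat_lit 2) (nat_lit 2) (nat_lit 4) (nat_lit 3) (nat_lit 46) (nat_lit 81) r6_46 r3_81 (nat_lit 0) (nat_lit 0) (nat_lit 6608634) (nat_lit 0x74406e594) (nat_lit 733974246),
  Rx.mk (nat_lit 278) (nat_lit 6) (nat_lit 2) (nat_lit 4) (nat_lit 3) (nat_lit 41) (nat_lit 79) r6_41 r3_79 (nat_lit 0) (nat_lit 0) (nat_lit 1281031) (nat_lit 0x74900bd36) (nat_lit 723321843),
  Rx.mk (nat_lit 282) (nat_lit 2) (nat_lit 3) (nat_lit 4) (nat_lit 3) (nat_lit 47) (nat_lit 77) r6_47 r3_77 (nat_lit 0) (nat_lit 0) (nat_lit 201864) (nat_lit 0x7fa9eb5e8) (nat_lit 542596676),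
  Rx.mk (nat_lit 386) (nat_lit 2) (nat_lit 0) (nat_lit 6) (nat_lit 5) (nat_lit 45) (nat_lit 75) r6_45 r3_75 (nat_lit 0) (nat_lit 2875897) (nat_lit 0) (nat_lit 0x717aba4b2) (nat_lit 774887159),
  Rx.mk (nat_lit 408) (nat_lit 0) (nat_lit 3) (nat_lit 6) (nat_lit 6) (nat_lit 43) (nat_lit 76) r6_43 r3_76 (nat_lit 320985) (nat_lit 0) (nat_lit 0) (nat_lit 0x7f1636122) (nat_lit 552018747),
  Rx.mk (nat_lit 410) (nat_lit 2) (nat_lit 3) (nat_lit 6) (nat_lit 7) (nat_lit 48) (nat_lit 78) r6_48 r3_78 (nat_lit 0) (nat_lit 0) (nat_lit 0) (nat_lit 0x85801fec0) (nat_lit 453525812),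
  Rx.mk (nat_lit 470) (nat_lit 6) (nat_lit 2) (nat_lit 7) (nat_lit 7) (nat_lit 42) (nat_lit 80) r6_42 r3_80 (nat_lit 0) (nat_lit 0) (nat_lit 0) (nat_lit 0x82a884a62) (nat_lit 496785062)]
noncomputable def e10_7 : List Rx := [
  Rx.mk (nat_lit 258) (nat_lit 2) (nat_lit 0) (nat_lit 4) (nat_lit 1) (nat_lit 51) (nat_lit 82) r6_51 r0_82 (nat_lit 0) (nat_lit 2752324) (nat_lit 1834824) (nat_lit 0x5acd8ab40) (nat_lit 1143327010),
  Rx.mk (nat_lit 274) (nat_lit 2) (nat_lit 2) (nat_lit 4) (nat_lit 3) (nat_lit 54) (nat_lit 87) r6_54 r0_87 (nat_lit 0) (nat_lit 0) (nat_lit 18629772) (nat_lit 0x7b316cfbc) (nat_lit 634046784),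
  Rx.mk (nat_lit 278) (nat_lit 6) (nat_lit 2) (nat_lit 4) (nat_lit 3) (nat_lit 49) (nat_lit 85) r6_49 r0_85 (nat_lit 0) (nat_lit 0) (nat_lit 4982960) (nat_lit 0x7f97fd5b6) (nat_lit 549398922),
  Rx.mk (nat_lit 322) (nat_lit 2) (nat_lit 0) (nat_lit 5) (nat_lit 5) (nat_lit 52) (nat_lit 83) r6_52 r0_83 (nat_lit 0) (nat_lit 13075147) (nat_lit 0) (nat_lit 0x78e3d9b80) (nat_lit 665603759),
  Rx.mk (nat_lit 338) (nat_lit 2) (nat_lit 2) (nat_lit 5) (nat_lit 7) (nat_lit 55) (nat_lit 88) r6_55 r0_88 (nat_lit 0) (nat_lit 0) (nat_lit 0) (nat_lit 0x8116bf43e) (nat_lit 521295912),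
  Rx.mk (nat_lit 342) (nat_lit 6) (nat_lit 2) (nat_lit 5) (nat_lit 7) (nat_lit 50) (nat_lit 86) r6_50 r0_86 (nat_lit 0) (nat_lit 0) (nat_lit 0) (nat_lit 0x8ecace6ac) (nat_lit 311796962),
  Rx.mk (nat_lit 386) (nat_lit 2) (nat_lit 0) (nat_lit 6) (nat_lit 5) (nat_lit 53) (nat_lit 84) r6_53 r0_84 (nat_lit 0) (nat_lit 9488112) (nat_lit 0) (nat_lit 0x7869953b0) (nat_lit 669747474)]
noncomputable def e10_8 : List Rx := [
  Rx.mk (nat_lit 322) (nat_lit 2) (nat_lit 0) (nat_lit 5) (nat_lit 5) (nat_lit 57) (nat_lit 88) r6_57 r1_88 (nat_lit 0) (nat_lit 14248724) (nat_lit 0) (nat_lit 0x80a26753c) (nat_lit 542542486),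
  Rx.mk (nat_lit 338) (nat_lit 2) (nat_lit 2) (nat_lit 5) (nat_lit 7) (nat_lit 58) (nat_lit 90) r6_58 r1_90 (nat_lit 0) (nat_lit 0) (nat_lit 0) (nat_lit 0x80add07a2) (nat_lit 527662962),
  Rx.mk (nat_lit 342) (nat_lit 6) (nat_lit 2) (nat_lit 5) (nat_lit 7) (nat_lit 56) (nat_lit 89) r6_56 r1_89 (nat_lit 0) (nat_lit 0) (nat_lit 0) (nat_lit 0x8954d7890) (nat_lit 395152462)]
noncomputable def e10_9 : List Rx := [
  Rx.mk (nat_lit 258) (nat_lit 2) (nat_lit 0) (nat_lit 4) (nat_lit 1) (nat_lit 62) (nat_lit 78) r6_62 r4_78 (nat_lit 0) (nat_lit 3814909) (nat_lit 2670845) (nat_lit 0x6861eb944) (nat_lit 925706566),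
  Rx.mk (nat_lit 274) (nat_lit 2) (nat_lit 2) (nat_lit 4) (nat_lit 3) (nat_lit 65) (nat_lit 87) r6_65 r4_87 (nat_lit 0) (nat_lit 0) (nat_lit 9821827) (nat_lit 0x7fc4fda48) (nat_lit 551627389),
  Rx.mk (nat_lit 278) (nat_lit 6) (nat_lit 2) (nat_lit 4) (nat_lit 3) (nat_lit 59) (nat_lit 84) r6_59 r4_84 (nat_lit 0) (nat_lit 0) (nat_lit 5828454) (nat_lit 0x7fc27fd8e) (nat_lit 547632616),
  Rx.mk (nat_lit 282) (nat_lit 2) (nat_lit 3) (nat_lit 4) (nat_lit 3) (nat_lit 67) (nat_lit 81) r6_67 r4_81 (nat_lit 0) (nat_lit 0) (nat_lit 136651) (nat_lit 0x6297d7fc2) (nat_lit 1012582363),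
  Rx.mk (nat_lit 322) (nat_lit 2) (nat_lit 0) (nat_lit 5) (nat_lit 5) (nat_lit 63) (nat_lit 79) r6_63 r4_79 (nat_lit 0) (nat_lit 9313182) (nat_lit 0) (nat_lit 0x8051e9268) (nat_lit 542445944),
  Rx.mk (nat_lit 338) (nat_lit 2) (nat_lit 2) (nat_lit 5) (nat_lit 7) (nat_lit 66) (nat_lit 88) r6_66 r4_88 (nat_lit 0) (nat_lit 0) (nat_lit 0) (nat_lit 0x8046420c2) (nat_lit 534001662),
  Rx.mk (nat_lit 342) (nat_lit 6) (nat_lit 2) (nat_lit 5) (nat_lit 7) (nat_lit 60) (nat_lit 85) r6_60 r4_85 (nat_lit 0) (nat_lit 0) (nat_lit 0) (nat_lit 0x80fddf1bc) (nat_lit 522806362),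
  Rx.mk (nat_lit 346) (nat_lit 2) (nat_lit 3) (nat_lit 5) (nat_lit 7) (nat_lit 68) (nat_lit 82) r6_68 r4_82 (nat_lit 0) (nat_lit 0) (nat_lit 0) (nat_lit 0x80f6273ca) (nat_lit 522994062),
  Rx.mk (nat_lit 386) (nat_lit 2) (nat_lit 0) (nat_lit 6) (nat_lit 5) (nat_lit 64) (nat_lit 80) r6_64 r4_80 (nat_lit 0) (nat_lit 10422876) (nat_lit 0) (nat_lit 0x7e366a3fe) (nat_lit 577077388),
  Rx.mk (nat_lit 410) (nat_lit 2) (nat_lit 3) (nat_lit 6) (nat_lit 7) (nat_lit 69) (nat_lit 83) r6_69 r4_83 (nat_lit 0) (nat_lit 0) (nat_lit 0) (nat_lit 0x80d433d36) (nat_lit 525049262),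
  Rx.mk (nat_lit 470) (nat_lit 6) (nat_lit 2) (nat_lit 7) (nat_lit 7) (nat_lit 61) (nat_lit 86) r6_61 r4_86 (nat_lit 0) (nat_lit 0) (nat_lit 0) (nat_lit 0x80efb1ee6) (nat_lit 523668462)]
noncomputable def e10_10 : List Rx := [
  Rx.mk (nat_lit 55) (nat_lit 7) (nat_lit 6) (nat_lit 0) (nat_lit 3) (nat_lit 75) (nat_lit 82) r6_75 r6_82 (nat_lit 0) (nat_lit 0) (nat_lit 152124) (nat_lit 0x7f97972ac) (nat_lit 543671286),
  Rx.mk (nat_lit 167) (nat_lit 7) (nat_lit 4) (nat_lit 2) (nat_lit 5) (nat_lit 74) (nat_lit 80) r6_74 r6_80 (nat_lit 0) (nat_lit 76275) (nat_lit 0) (nat_lit 0x800fab450) (nat_lit 536056587),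
  Rx.mk (nat_lit 183) (nat_lit 7) (nat_lit 6) (nat_lit 2) (nat_lit 7) (nat_lit 76) (nat_lit 84) r6_76 r6_84 (nat_lit 0) (nat_lit 0) (nat_lit 0) (nat_lit 0x803a62b4e) (nat_lit 533579562),
  Rx.mk (nat_lit 187) (nat_lit 3) (nat_lit 7) (nat_lit 2) (nat_lit 7) (nat_lit 86) (nat_lit 72) r6_86 r6_72 (nat_lit 0) (nat_lit 0) (nat_lit 0) (nat_lit 0x7fccb13b6) (nat_lit 540272512),
  Rx.mk (nat_lit 191) (nat_lit 7) (nat_lit 7) (nat_lit 2) (nat_lit 7) (nat_lit 78) (nat_lit 81) r6_78 r6_81 (nat_lit 0) (nat_lit 0) (nat_lit 0) (nat_lit 0x730ac3224) (nat_lit 747014662),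
  Rx.mk (nat_lit 214) (nat_lit 6) (nat_lit 2) (nat_lit 3) (nat_lit 7) (nat_lit 73) (nat_lit 85) r6_73 r6_85 (nat_lit 0) (nat_lit 0) (nat_lit 0) (nat_lit 0x7fccb13b6) (nat_lit 540272512),
  Rx.mk (nat_lit 244) (nat_lit 4) (nat_lit 6) (nat_lit 3) (nat_lit 6) (nat_lit 70) (nat_lit 79) r6_70 r6_79 (nat_lit 76275) (nat_lit 0) (nat_lit 0) (nat_lit 0x800fab450) (nat_lit 536056587),
  Rx.mk (nat_lit 246) (nat_lit 6) (nat_lit 6) (nat_lit 3) (nat_lit 7) (nat_lit 71) (nat_lit 87) r6_71 r6_87 (nat_lit 0) (nat_lit 0) (nat_lit 0) (nat_lit 0x730ac3224) (nat_lit 747014662),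
  Rx.mk (nat_lit 247) (nat_lit 7) (nat_lit 6) (nat_lit 3) (nat_lit 7) (nat_lit 77) (nat_lit 83) r6_77 r6_83 (nat_lit 0) (nat_lit 0) (nat_lit 0) (nat_lit 0x803a62b4e) (nat_lit 533579562),
  Rx.mk (nat_lit 282) (nat_lit 2) (nat_lit 3) (nat_lit 4) (nat_lit 3) (nat_lit 82) (nat_lit 75) r6_82 r6_75 (nat_lit 0) (nat_lit 0) (nat_lit 152124) (nat_lit 0x7f97972ac) (nat_lit 543671286),
  Rx.mk (nat_lit 408) (nat_lit 0) (nat_lit 3) (nat_lit 6) (nat_lit 6) (nat_lit 79) (nat_lit 70) r6_79 r6_70 (nat_lit 76275) (nat_lit 0) (nat_lit 0) (nat_lit 0x800fab450) (nat_lit 536056587),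
  Rx.mk (nat_lit 410) (nat_lit 2) (nat_lit 3) (nat_lit 6) (nat_lit 7) (nat_lit 83) (nat_lit 77) r6_83 r6_77 (nat_lit 0) (nat_lit 0) (nat_lit 0) (nat_lit 0x803a62b4e) (nat_lit 533579562),
  Rx.mk (nat_lit 411) (nat_lit 3) (nat_lit 3) (nat_lit 6) (nat_lit 7) (nat_lit 87) (nat_lit 71) r6_87 r6_71 (nat_lit 0) (nat_lit 0) (nat_lit 0) (nat_lit 0x730ac3224) (nat_lit 747014662),
  Rx.mk (nat_lit 443) (nat_lit 3) (nat_lit 7) (nat_lit 6) (nat_lit 7) (nat_lit 85) (nat_lit 73) r6_85 r6_73 (nat_lit 0) (nat_lit 0) (nat_lit 0) (nat_lit 0x7fccb13b6) (nat_lit 540272512),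
  Rx.mk (nat_lit 450) (nat_lit 2) (nat_lit 0) (nat_lit 7) (nat_lit 5) (nat_lit 80) (nat_lit 74) r6_80 r6_74 (nat_lit 0) (nat_lit 76275) (nat_lit 0) (nat_lit 0x800fab450) (nat_lit 536056587),
  Rx.mk (nat_lit 466) (nat_lit 2) (nat_lit 2) (nat_lit 7) (nat_lit 7) (nat_lit 81) (nat_lit 78) r6_81 r6_78 (nat_lit 0) (nat_lit 0) (nat_lit 0) (nat_lit 0x730ac3224) (nat_lit 747014662),
  Rx.mk (nat_lit 470) (nat_lit 6) (nat_lit 2) (nat_lit 7) (nat_lit 7) (nat_lit 72) (nat_lit 86) r6_72 r6_86 (nat_lit 0) (nat_lit 0) (nat_lit 0) (nat_lit 0x7fccb13b6) (nat_lit 540272512),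
  Rx.mk (nat_lit 474) (nat_lit 2) (nat_lit 3) (nat_lit 7) (nat_lit 7) (nat_lit 84) (nat_lit 76) r6_84 r6_76 (nat_lit 0) (nat_lit 0) (nat_lit 0) (nat_lit 0x803a62b4e) (nat_lit 533579562)]
noncomputable def e10_11 : List Rx := [
  Rx.mk (nat_lit 258) (nat_lit 2) (nat_lit 0) (nat_lit 4) (nat_lit 1) (nat_lit 90) (nat_lit 70) r6_90 r5_70 (nat_lit 0) (nat_lit 214613) (nat_lit 151381) (nat_lit 0x7f84aacac) (nat_lit 545085756),
  Rx.mk (nat_lit 274) (nat_lit 2) (nat_lit 2) (nat_lit 4) (nat_lit 3) (nat_lit 93) (nat_lit 78) r6_93 r5_78 (nat_lit 0) (nat_lit 0) (nat_lit 14912566) (nat_lit 0x7ad02e7c8) (nat_lit 636403678),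
  Rx.mk (nat_lit 282) (nat_lit 2) (nat_lit 3) (nat_lit 4) (nat_lit 3) (nat_lit 95) (nat_lit 75) r6_95 r5_75 (nat_lit 0) (nat_lit 0) (nat_lit 506970) (nat_lit 0x8036353fa) (nat_lit 534398782),
  Rx.mk (nat_lit 386) (nat_lit 2) (nat_lit 0) (nat_lit 6) (nat_lit 5) (nat_lit 91) (nat_lit 72) r6_91 r5_72 (nat_lit 0) (nat_lit 7478372) (nat_lit 0) (nat_lit 0x7e7bc2848) (nat_lit 569688734),
  Rx.mk (nat_lit 408) (nat_lit 0) (nat_lit 3) (nat_lit 6) (nat_lit 6) (nat_lit 89) (nat_lit 73) r6_89 r5_73 (nat_lit 6235362) (nat_lit 0) (nat_lit 0) (nat_lit 0x7e4c9eb16) (nat_lit 571302074),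
  Rx.mk (nat_lit 410) (nat_lit 2) (nat_lit 3) (nat_lit 6) (nat_lit 7) (nat_lit 96) (nat_lit 76) r6_96 r5_76 (nat_lit 0) (nat_lit 0) (nat_lit 0) (nat_lit 0x8de7568e8) (nat_lit 325388962),
  Rx.mk (nat_lit 411) (nat_lit 3) (nat_lit 3) (nat_lit 6) (nat_lit 7) (nat_lit 97) (nat_lit 74) r6_97 r5_74 (nat_lit 0) (nat_lit 0) (nat_lit 0) (nat_lit 0x7ffe6318e) (nat_lit 538324412),
  Rx.mk (nat_lit 450) (nat_lit 2) (nat_lit 0) (nat_lit 7) (nat_lit 5) (nat_lit 92) (nat_lit 71) r6_92 r5_71 (nat_lit 0) (nat_lit 5517824) (nat_lit 0) (nat_lit 0x80fe04cf0) (nat_lit 528080236),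
  Rx.mk (nat_lit 466) (nat_lit 2) (nat_lit 2) (nat_lit 7) (nat_lit 7) (nat_lit 94) (nat_lit 79) r6_94 r5_79 (nat_lit 0) (nat_lit 0) (nat_lit 0) (nat_lit 0x7df8696ea) (nat_lit 570525862),
  Rx.mk (nat_lit 470) (nat_lit 6) (nat_lit 2) (nat_lit 7) (nat_lit 7) (nat_lit 88) (nat_lit 77) r6_88 r5_77 (nat_lit 0) (nat_lit 0) (nat_lit 0) (nat_lit 0x7adbdb5da) (nat_lit 620253362)]
noncomputable def e10_12 : List Rx := [
  Rx.mk (nat_lit 22) (nat_lit 6) (nat_lit 2) (nat_lit 0) (nat_lit 3) (nat_lit 105) (nat_lit 231) r6_105 r0_231 (nat_lit 0) (nat_lit 0) (nat_lit 7518208) (nat_lit 0x737802416) (nat_lit 747659820),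
  Rx.mk (nat_lit 52) (nat_lit 4) (nat_lit 6) (nat_lit 0) (nat_lit 2) (nat_lit 99) (nat_lit 228) r6_99 r0_228 (nat_lit 476596) (nat_lit 0) (nat_lit 549304) (nat_lit 0x63aaea0f0) (nat_lit 996170062),
  Rx.mk (nat_lit 53) (nat_lit 5) (nat_lit 6) (nat_lit 0) (nat_lit 3) (nat_lit 102) (nat_lit 229) r6_102 r0_229 (nat_lit 0) (nat_lit 0) (nat_lit 2611205) (nat_lit 0x83a05514c) (nat_lit 484513917),
  Rx.mk (nat_lit 54) (nat_lit 6) (nat_lit 6) (nat_lit 0) (nat_lit 3) (nat_lit 104) (nat_lit 230) r6_104 r0_230 (nat_lit 0) (nat_lit 0) (nat_lit 14019292) (nat_lit 0x774820d34) (nat_lit 692574004),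
  Rx.mk (nat_lit 164) (nat_lit 4) (nat_lit 4) (nat_lit 2) (nat_lit 4) (nat_lit 98) (nat_lit 232) r6_98 r0_232 (nat_lit 853516) (nat_lit 961472) (nat_lit 0) (nat_lit 0x7527736a6) (nat_lit 714260500),
  Rx.mk (nat_lit 165) (nat_lit 5) (nat_lit 4) (nat_lit 2) (nat_lit 5) (nat_lit 101) (nat_lit 233) r6_101 r0_233 (nat_lit 0) (nat_lit 727303) (nat_lit 0) (nat_lit 0x864e745a0) (nat_lit 441614815),
  Rx.mk (nat_lit 180) (nat_lit 4) (nat_lit 6) (nat_lit 2) (nat_lit 6) (nat_lit 100) (nat_lit 234) r6_100 r0_234 (nat_lit 11464009) (nat_lit 0) (nat_lit 0) (nat_lit 0x7fcd39b80) (nat_lit 552812521),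
  Rx.mk (nat_lit 181) (nat_lit 5) (nat_lit 6) (nat_lit 2) (nat_lit 7) (nat_lit 103) (nat_lit 235) r6_103 r0_235 (nat_lit 0) (nat_lit 0) (nat_lit 0) (nat_lit 0x86cc8ff0c) (nat_lit 433849212)]
noncomputable def e10_13 : List Rx := [
  Rx.mk (nat_lit 22) (nat_lit 6) (nat_lit 2) (nat_lit 0) (nat_lit 3) (nat_lit 114) (nat_lit 84) r6_114 r7_84 (nat_lit 0) (nat_lit 0) (nat_lit 8290090) (nat_lit 0x80c4482e6) (nat_lit 534483002),
  Rx.mk (nat_lit 52) (nat_lit 4) (nat_lit 6) (nat_lit 0) (nat_lit 2) (nat_lit 106) (nat_lit 78) r6_106 r7_78 (nat_lit 3417910) (nat_lit 0) (nat_lit 3103288) (nat_lit 0x6f0f18210) (nat_lit 817792160),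
  Rx.mk (nat_lit 53) (nat_lit 5) (nat_lit 6) (nat_lit 0) (nat_lit 3) (nat_lit 109) (nat_lit 81) r6_109 r7_81 (nat_lit 0) (nat_lit 0) (nat_lit 10382740) (nat_lit 0x817f374a8) (nat_lit 525372102),
  Rx.mk (nat_lit 54) (nat_lit 6) (nat_lit 6) (nat_lit 0) (nat_lit 3) (nat_lit 112) (nat_lit 86) r6_112 r7_86 (nat_lit 0) (nat_lit 0) (nat_lit 24741287) (nat_lit 0x7f4e81a9a) (nat_lit 574017999),
  Rx.mk (nat_lit 86) (nat_lit 6) (nat_lit 2) (nat_lit 1) (nat_lit 7) (nat_lit 115) (nat_lit 85) r6_115 r7_85 (nat_lit 0) (nat_lit 0) (nat_lit 0) (nat_lit 0x810efde94) (nat_lit 521774762),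
  Rx.mk (nat_lit 116) (nat_lit 4) (nat_lit 6) (nat_lit 1) (nat_lit 6) (nat_lit 107) (nat_lit 79) r6_107 r7_79 (nat_lit 12588522) (nat_lit 0) (nat_lit 0) (nat_lit 0x8109aaa8c) (nat_lit 534683584),
  Rx.mk (nat_lit 117) (nat_lit 5) (nat_lit 6) (nat_lit 1) (nat_lit 7) (nat_lit 110) (nat_lit 82) r6_110 r7_82 (nat_lit 0) (nat_lit 0) (nat_lit 0) (nat_lit 0x806259ae4) (nat_lit 532286612),
  Rx.mk (nat_lit 118) (nat_lit 6) (nat_lit 6) (nat_lit 1) (nat_lit 7) (nat_lit 113) (nat_lit 87) r6_113 r7_87 (nat_lit 0) (nat_lit 0) (nat_lit 0) (nat_lit 0x8017985b4) (nat_lit 536870912),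
  Rx.mk (nat_lit 180) (nat_lit 4) (nat_lit 6) (nat_lit 2) (nat_lit 6) (nat_lit 108) (nat_lit 80) r6_108 r7_80 (nat_lit 9429526) (nat_lit 0) (nat_lit 0) (nat_lit 0x80843ba90) (nat_lit 539527188),
  Rx.mk (nat_lit 181) (nat_lit 5) (nat_lit 6) (nat_lit 2) (nat_lit 7) (nat_lit 111) (nat_lit 83) r6_111 r7_83 (nat_lit 0) (nat_lit 0) (nat_lit 0) (nat_lit 0x80e84372c) (nat_lit 524123412)]
noncomputable def e10_14 : List Rx := [
  Rx.mk (nat_lit 53) (nat_lit 5) (nat_lit 6) (nat_lit 0) (nat_lit 3) (nat_lit 117) (nat_lit 246) r6_117 r1_246 (nat_lit 0) (nat_lit 0) (nat_lit 4579048) (nat_lit 0x829e4386e) (nat_lit 502034860),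
  Rx.mk (nat_lit 165) (nat_lit 5) (nat_lit 4) (nat_lit 2) (nat_lit 5) (nat_lit 116) (nat_lit 247) r6_116 r1_247 (nat_lit 0) (nat_lit 2146916) (nat_lit 0) (nat_lit 0x832861f50) (nat_lit 491234428),
  Rx.mk (nat_lit 181) (nat_lit 5) (nat_lit 6) (nat_lit 2) (nat_lit 7) (nat_lit 118) (nat_lit 248) r6_118 r1_248 (nat_lit 0) (nat_lit 0) (nat_lit 0) (nat_lit 0x80c3cc614) (nat_lit 526329562)]
noncomputable def e10_15 : List Rx := [
  Rx.mk (nat_lit 53) (nat_lit 5) (nat_lit 6) (nat_lit 0) (nat_lit 3) (nat_lit 119) (nat_lit 71) r6_119 r8_71 (nat_lit 0) (nat_lit 0) (nat_lit 11276317) (nat_lit 0x80f41308e) (nat_lit 534645879),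
  Rx.mk (nat_lit 117) (nat_lit 5) (nat_lit 6) (nat_lit 1) (nat_lit 7) (nat_lit 120) (nat_lit 72) r6_120 r8_72 (nat_lit 0) (nat_lit 0) (nat_lit 0) (nat_lit 0x8017985b4) (nat_lit 536870912),
  Rx.mk (nat_lit 181) (nat_lit 5) (nat_lit 6) (nat_lit 2) (nat_lit 7) (nat_lit 121) (nat_lit 73) r6_121 r8_73 (nat_lit 0) (nat_lit 0) (nat_lit 0) (nat_lit 0x80607f5fc) (nat_lit 532392712)]
noncomputable def e10_16 : List Rx := [
  Rx.mk (nat_lit 86) (nat_lit 6) (nat_lit 2) (nat_lit 1) (nat_lit 7) (nat_lit 125) (nat_lit 224) r6_125 r8_224 (nat_lit 0) (nat_lit 0) (nat_lit 0) (nat_lit 0x805730f46) (nat_lit 532963862),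
  Rx.mk (nat_lit 116) (nat_lit 4) (nat_lit 6) (nat_lit 1) (nat_lit 6) (nat_lit 122) (nat_lit 221) r6_122 r8_221 (nat_lit 24741287) (nat_lit 0) (nat_lit 0) (nat_lit 0x8017985b4) (nat_lit 561612199),
  Rx.mk (nat_lit 117) (nat_lit 5) (nat_lit 6) (nat_lit 1) (nat_lit 7) (nat_lit 123) (nat_lit 222) r6_123 r8_222 (nat_lit 0) (nat_lit 0) (nat_lit 0) (nat_lit 0x8017985b4) (nat_lit 536870912),
  Rx.mk (nat_lit 118) (nat_lit 6) (nat_lit 6) (nat_lit 1) (nat_lit 7) (nat_lit 124) (nat_lit 223) r6_124 r8_223 (nat_lit 0) (nat_lit 0) (nat_lit 0) (nat_lit 0x8017985b4) (nat_lit 536870912)]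
noncomputable def e10_17 : List Rx := [
  Rx.mk (nat_lit 86) (nat_lit 6) (nat_lit 2) (nat_lit 1) (nat_lit 7) (nat_lit 127) (nat_lit 61) r6_127 r9_61 (nat_lit 0) (nat_lit 0) (nat_lit 0) (nat_lit 0x8017985b4) (nat_lit 536870912),
  Rx.mk (nat_lit 342) (nat_lit 6) (nat_lit 2) (nat_lit 5) (nat_lit 7) (nat_lit 126) (nat_lit 62) r6_126 r9_62 (nat_lit 0) (nat_lit 0) (nat_lit 0) (nat_lit 0x8017985b4) (nat_lit 536870912)]
noncomputable def e10_18 : List Rx := [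
  Rx.mk (nat_lit 22) (nat_lit 6) (nat_lit 2) (nat_lit 0) (nat_lit 3) (nat_lit 135) (nat_lit 233) r6_135 r4_233 (nat_lit 0) (nat_lit 0) (nat_lit 11623710) (nat_lit 0x7bf31a790) (nat_lit 614749172),
  Rx.mk (nat_lit 52) (nat_lit 4) (nat_lit 6) (nat_lit 0) (nat_lit 2) (nat_lit 129) (nat_lit 229) r6_129 r4_229 (nat_lit 150896) (nat_lit 0) (nat_lit 185097) (nat_lit 0x7474055ce) (nat_lit 723972805),
  Rx.mk (nat_lit 53) (nat_lit 5) (nat_lit 6) (nat_lit 0) (nat_lit 3) (nat_lit 132) (nat_lit 230) r6_132 r4_230 (nat_lit 0) (nat_lit 0) (nat_lit 15201900) (nat_lit 0x80b22620c) (nat_lit 542613312),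
  Rx.mk (nat_lit 54) (nat_lit 6) (nat_lit 6) (nat_lit 0) (nat_lit 3) (nat_lit 134) (nat_lit 232) r6_134 r4_232 (nat_lit 0) (nat_lit 0) (nat_lit 14591992) (nat_lit 0x7ffde2a5c) (nat_lit 552972954),
  Rx.mk (nat_lit 55) (nat_lit 7) (nat_lit 6) (nat_lit 0) (nat_lit 3) (nat_lit 138) (nat_lit 231) r6_138 r4_231 (nat_lit 0) (nat_lit 0) (nat_lit 15888000) (nat_lit 0x80a2446e0) (nat_lit 544269162),
  Rx.mk (nat_lit 164) (nat_lit 4) (nat_lit 4) (nat_lit 2) (nat_lit 4) (nat_lit 128) (nat_lit 235) r6_128 r4_235 (nat_lit 72450) (nat_lit 102847) (nat_lit 0) (nat_lit 0x74c49e314) (nat_lit 718702409),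
  Rx.mk (nat_lit 165) (nat_lit 5) (nat_lit 4) (nat_lit 2) (nat_lit 5) (nat_lit 131) (nat_lit 236) r6_131 r4_236 (nat_lit 0) (nat_lit 17803608) (nat_lit 0) (nat_lit 0x8030df784) (nat_lit 553092470),
  Rx.mk (nat_lit 167) (nat_lit 7) (nat_lit 4) (nat_lit 2) (nat_lit 5) (nat_lit 137) (nat_lit 237) r6_137 r4_237 (nat_lit 0) (nat_lit 14470459) (nat_lit 0) (nat_lit 0x7f6a8c884) (nat_lit 561862921),
  Rx.mk (nat_lit 180) (nat_lit 4) (nat_lit 6) (nat_lit 2) (nat_lit 6) (nat_lit 130) (nat_lit 238) r6_130 r4_238 (nat_lit 8507115) (nat_lit 0) (nat_lit 0) (nat_lit 0x7fe98ff5a) (nat_lit 548034927),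
  Rx.mk (nat_lit 181) (nat_lit 5) (nat_lit 6) (nat_lit 2) (nat_lit 7) (nat_lit 133) (nat_lit 239) r6_133 r4_239 (nat_lit 0) (nat_lit 0) (nat_lit 0) (nat_lit 0x80ad718e2) (nat_lit 527694462),
  Rx.mk (nat_lit 183) (nat_lit 7) (nat_lit 6) (nat_lit 2) (nat_lit 7) (nat_lit 139) (nat_lit 240) r6_139 r4_240 (nat_lit 0) (nat_lit 0) (nat_lit 0) (nat_lit 0x80ad718e2) (nat_lit 527694462),
  Rx.mk (nat_lit 214) (nat_lit 6) (nat_lit 2) (nat_lit 3) (nat_lit 7) (nat_lit 136) (nat_lit 234) r6_136 r4_234 (nat_lit 0) (nat_lit 0) (nat_lit 0) (nat_lit 0x81ec02330) (nat_lit 508336162)]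
noncomputable def e10_19 : List Rx := [
  Rx.mk (nat_lit 22) (nat_lit 6) (nat_lit 2) (nat_lit 0) (nat_lit 3) (nat_lit 147) (nat_lit 67) r6_147 r10_67 (nat_lit 0) (nat_lit 0) (nat_lit 9336562) (nat_lit 0x80cea0392) (nat_lit 534941174),
  Rx.mk (nat_lit 52) (nat_lit 4) (nat_lit 6) (nat_lit 0) (nat_lit 2) (nat_lit 140) (nat_lit 59) r6_140 r10_59 (nat_lit 3908311) (nat_lit 0) (nat_lit 3437710) (nat_lit 0x70b62ad72) (nat_lit 791927083),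
  Rx.mk (nat_lit 53) (nat_lit 5) (nat_lit 6) (nat_lit 0) (nat_lit 3) (nat_lit 143) (nat_lit 62) r6_143 r10_62 (nat_lit 0) (nat_lit 0) (nat_lit 14773968) (nat_lit 0x80be7a56c) (nat_lit 541432730),
  Rx.mk (nat_lit 54) (nat_lit 6) (nat_lit 6) (nat_lit 0) (nat_lit 3) (nat_lit 145) (nat_lit 70) r6_145 r10_70 (nat_lit 0) (nat_lit 0) (nat_lit 24741287) (nat_lit 0x7f68b2360) (nat_lit 572388699),
  Rx.mk (nat_lit 55) (nat_lit 7) (nat_lit 6) (nat_lit 0) (nat_lit 3) (nat_lit 150) (nat_lit 64) r6_150 r10_64 (nat_lit 0) (nat_lit 0) (nat_lit 14995754) (nat_lit 0x80820fd34) (nat_lit 545312416),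
  Rx.mk (nat_lit 86) (nat_lit 6) (nat_lit 2) (nat_lit 1) (nat_lit 7) (nat_lit 148) (nat_lit 68) r6_148 r10_68 (nat_lit 0) (nat_lit 0) (nat_lit 0) (nat_lit 0x80d032dc2) (nat_lit 525585862),
  Rx.mk (nat_lit 116) (nat_lit 4) (nat_lit 6) (nat_lit 1) (nat_lit 6) (nat_lit 141) (nat_lit 60) r6_141 r10_60 (nat_lit 18189542) (nat_lit 0) (nat_lit 0) (nat_lit 0x807407840) (nat_lit 549393204),
  Rx.mk (nat_lit 118) (nat_lit 6) (nat_lit 6) (nat_lit 1) (nat_lit 7) (nat_lit 146) (nat_lit 71) r6_146 r10_71 (nat_lit 0) (nat_lit 0) (nat_lit 0) (nat_lit 0x8017985b4) (nat_lit 536870912),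
  Rx.mk (nat_lit 119) (nat_lit 7) (nat_lit 6) (nat_lit 1) (nat_lit 7) (nat_lit 151) (nat_lit 65) r6_151 r10_65 (nat_lit 0) (nat_lit 0) (nat_lit 0) (nat_lit 0x8017985b4) (nat_lit 536870912),
  Rx.mk (nat_lit 180) (nat_lit 4) (nat_lit 6) (nat_lit 2) (nat_lit 6) (nat_lit 142) (nat_lit 61) r6_142 r10_61 (nat_lit 8452867) (nat_lit 0) (nat_lit 0) (nat_lit 0x80ffe1c3a) (nat_lit 531055429),
  Rx.mk (nat_lit 181) (nat_lit 5) (nat_lit 6) (nat_lit 2) (nat_lit 7) (nat_lit 144) (nat_lit 63) r6_144 r10_63 (nat_lit 0) (nat_lit 0) (nat_lit 0) (nat_lit 0x80d199d14) (nat_lit 525495962),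
  Rx.mk (nat_lit 183) (nat_lit 7) (nat_lit 6) (nat_lit 2) (nat_lit 7) (nat_lit 152) (nat_lit 66) r6_152 r10_66 (nat_lit 0) (nat_lit 0) (nat_lit 0) (nat_lit 0x80d1999d6) (nat_lit 525496012),
  Rx.mk (nat_lit 214) (nat_lit 6) (nat_lit 2) (nat_lit 3) (nat_lit 7) (nat_lit 149) (nat_lit 69) r6_149 r10_69 (nat_lit 0) (nat_lit 0) (nat_lit 0) (nat_lit 0x80d033132) (nat_lit 525585812)]
noncomputable def e10_20 : List Rx := [
  Rx.mk (nat_lit 52) (nat_lit 4) (nat_lit 6) (nat_lit 0) (nat_lit 2) (nat_lit 154) (nat_lit 54) r6_154 r11_54 (nat_lit 8887259) (nat_lit 0) (nat_lit 8232258) (nat_lit 0x752a94a10) (nat_lit 729817329),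
  Rx.mk (nat_lit 53) (nat_lit 5) (nat_lit 6) (nat_lit 0) (nat_lit 3) (nat_lit 158) (nat_lit 58) r6_158 r11_58 (nat_lit 0) (nat_lit 0) (nat_lit 24863851) (nat_lit 0x80051da7e) (nat_lit 562865263),
  Rx.mk (nat_lit 54) (nat_lit 6) (nat_lit 6) (nat_lit 0) (nat_lit 3) (nat_lit 161) (nat_lit 66) r6_161 r11_66 (nat_lit 0) (nat_lit 0) (nat_lit 24741287) (nat_lit 0x8017985b4) (nat_lit 561612199),
  Rx.mk (nat_lit 55) (nat_lit 7) (nat_lit 6) (nat_lit 0) (nat_lit 3) (nat_lit 165) (nat_lit 63) r6_165 r11_63 (nat_lit 0) (nat_lit 0) (nat_lit 24741287) (nat_lit 0x8017985b4) (nat_lit 561612199),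
  Rx.mk (nat_lit 164) (nat_lit 4) (nat_lit 4) (nat_lit 2) (nat_lit 4) (nat_lit 153) (nat_lit 53) r6_153 r11_53 (nat_lit 11453294) (nat_lit 17592133) (nat_lit 0) (nat_lit 0x79c89e50e) (nat_lit 667174639),
  Rx.mk (nat_lit 165) (nat_lit 5) (nat_lit 4) (nat_lit 2) (nat_lit 5) (nat_lit 157) (nat_lit 57) r6_157 r11_57 (nat_lit 0) (nat_lit 23560195) (nat_lit 0) (nat_lit 0x8006b0be8) (nat_lit 561461107),
  Rx.mk (nat_lit 167) (nat_lit 7) (nat_lit 4) (nat_lit 2) (nat_lit 5) (nat_lit 164) (nat_lit 61) r6_164 r11_61 (nat_lit 0) (nat_lit 26850297) (nat_lit 0) (nat_lit 0x80135a3c6) (nat_lit 563945709),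
  Rx.mk (nat_lit 180) (nat_lit 4) (nat_lit 6) (nat_lit 2) (nat_lit 6) (nat_lit 155) (nat_lit 56) r6_155 r11_56 (nat_lit 11833070) (nat_lit 0) (nat_lit 0) (nat_lit 0x80dfff796) (nat_lit 536433782),
  Rx.mk (nat_lit 181) (nat_lit 5) (nat_lit 6) (nat_lit 2) (nat_lit 7) (nat_lit 159) (nat_lit 60) r6_159 r11_60 (nat_lit 0) (nat_lit 0) (nat_lit 0) (nat_lit 0x8017985b4) (nat_lit 536870912),
  Rx.mk (nat_lit 183) (nat_lit 7) (nat_lit 6) (nat_lit 2) (nat_lit 7) (nat_lit 166) (nat_lit 64) r6_166 r11_64 (nat_lit 0) (nat_lit 0) (nat_lit 0) (nat_lit 0x8017985b4) (nat_lit 536870912),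
  Rx.mk (nat_lit 191) (nat_lit 7) (nat_lit 7) (nat_lit 2) (nat_lit 7) (nat_lit 167) (nat_lit 62) r6_167 r11_62 (nat_lit 0) (nat_lit 0) (nat_lit 0) (nat_lit 0x8017985b4) (nat_lit 536870912),
  Rx.mk (nat_lit 214) (nat_lit 6) (nat_lit 2) (nat_lit 3) (nat_lit 7) (nat_lit 163) (nat_lit 65) r6_163 r11_65 (nat_lit 0) (nat_lit 0) (nat_lit 0) (nat_lit 0x822812b0e) (nat_lit 504804312),
  Rx.mk (nat_lit 244) (nat_lit 4) (nat_lit 6) (nat_lit 3) (nat_lit 6) (nat_lit 156) (nat_lit 55) r6_156 r11_55 (nat_lit 20819956) (nat_lit 0) (nat_lit 0) (nat_lit 0x80443f36a) (nat_lit 554944468),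
  Rx.mk (nat_lit 245) (nat_lit 5) (nat_lit 6) (nat_lit 3) (nat_lit 7) (nat_lit 160) (nat_lit 59) r6_160 r11_59 (nat_lit 0) (nat_lit 0) (nat_lit 0) (nat_lit 0x8017985b4) (nat_lit 536870912),
  Rx.mk (nat_lit 246) (nat_lit 6) (nat_lit 6) (nat_lit 3) (nat_lit 7) (nat_lit 162) (nat_lit 67) r6_162 r11_67 (nat_lit 0) (nat_lit 0) (nat_lit 0) (nat_lit 0x8017985b4) (nat_lit 536870912)]
noncomputable def e10_21 : List Rx := [
  Rx.mk (nat_lit 86) (nat_lit 6) (nat_lit 2) (nat_lit 1) (nat_lit 7) (nat_lit 169) (nat_lit 62) r6_169 r9_62 (nat_lit 0) (nat_lit 0) (nat_lit 0) (nat_lit 0x8017985b4) (nat_lit 536870912),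
  Rx.mk (nat_lit 342) (nat_lit 6) (nat_lit 2) (nat_lit 5) (nat_lit 7) (nat_lit 168) (nat_lit 61) r6_168 r9_61 (nat_lit 0) (nat_lit 0) (nat_lit 0) (nat_lit 0x8017985b4) (nat_lit 536870912)]
noncomputable def e10_22 : List Rx := [
  Rx.mk (nat_lit 258) (nat_lit 2) (nat_lit 0) (nat_lit 4) (nat_lit 1) (nat_lit 173) (nat_lit 228) r6_173 r0_228 (nat_lit 0) (nat_lit 476596) (nat_lit 549304) (nat_lit 0x63aaea0f0) (nat_lit 996170062),
  Rx.mk (nat_lit 266) (nat_lit 2) (nat_lit 1) (nat_lit 4) (nat_lit 3) (nat_lit 175) (nat_lit 229) r6_175 r0_229 (nat_lit 0) (nat_lit 0) (nat_lit 2611205) (nat_lit 0x83a05514c) (nat_lit 484513917),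
  Rx.mk (nat_lit 274) (nat_lit 2) (nat_lit 2) (nat_lit 4) (nat_lit 3) (nat_lit 177) (nat_lit 230) r6_177 r0_230 (nat_lit 0) (nat_lit 0) (nat_lit 14019292) (nat_lit 0x774820d34) (nat_lit 692574004),
  Rx.mk (nat_lit 278) (nat_lit 6) (nat_lit 2) (nat_lit 4) (nat_lit 3) (nat_lit 170) (nat_lit 231) r6_170 r0_231 (nat_lit 0) (nat_lit 0) (nat_lit 7518208) (nat_lit 0x737802416) (nat_lit 747659820),
  Rx.mk (nat_lit 384) (nat_lit 0) (nat_lit 0) (nat_lit 6) (nat_lit 4) (nat_lit 171) (nat_lit 232) r6_171 r0_232 (nat_lit 961472) (nat_lit 853516) (nat_lit 0) (nat_lit 0x7527736a6) (nat_lit 714260500),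
  Rx.mk (nat_lit 386) (nat_lit 2) (nat_lit 0) (nat_lit 6) (nat_lit 5) (nat_lit 174) (nat_lit 234) r6_174 r0_234 (nat_lit 0) (nat_lit 11464009) (nat_lit 0) (nat_lit 0x7fcd39b80) (nat_lit 552812521),
  Rx.mk (nat_lit 392) (nat_lit 0) (nat_lit 1) (nat_lit 6) (nat_lit 6) (nat_lit 172) (nat_lit 233) r6_172 r0_233 (nat_lit 727303) (nat_lit 0) (nat_lit 0) (nat_lit 0x864e745a0) (nat_lit 441614815),
  Rx.mk (nat_lit 394) (nat_lit 2) (nat_lit 1) (nat_lit 6) (nat_lit 7) (nat_lit 176) (nat_lit 235) r6_176 r0_235 (nat_lit 0) (nat_lit 0) (nat_lit 0) (nat_lit 0x86cc8ff0c) (nat_lit 433849212)]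
noncomputable def e10_23 : List Rx := [
  Rx.mk (nat_lit 266) (nat_lit 2) (nat_lit 1) (nat_lit 4) (nat_lit 3) (nat_lit 179) (nat_lit 246) r6_179 r1_246 (nat_lit 0) (nat_lit 0) (nat_lit 4579048) (nat_lit 0x829e4386e) (nat_lit 502034860),
  Rx.mk (nat_lit 392) (nat_lit 0) (nat_lit 1) (nat_lit 6) (nat_lit 6) (nat_lit 178) (nat_lit 247) r6_178 r1_247 (nat_lit 2146916) (nat_lit 0) (nat_lit 0) (nat_lit 0x832861f50) (nat_lit 491234428),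
  Rx.mk (nat_lit 394) (nat_lit 2) (nat_lit 1) (nat_lit 6) (nat_lit 7) (nat_lit 180) (nat_lit 248) r6_180 r1_248 (nat_lit 0) (nat_lit 0) (nat_lit 0) (nat_lit 0x80c3cc614) (nat_lit 526329562)]
noncomputable def e10_24 : List Rx := [
  Rx.mk (nat_lit 258) (nat_lit 2) (nat_lit 0) (nat_lit 4) (nat_lit 1) (nat_lit 186) (nat_lit 229) r6_186 r4_229 (nat_lit 0) (nat_lit 150896) (nat_lit 185097) (nat_lit 0x7474055ce) (nat_lit 723972805),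
  Rx.mk (nat_lit 266) (nat_lit 2) (nat_lit 1) (nat_lit 4) (nat_lit 3) (nat_lit 188) (nat_lit 230) r6_188 r4_230 (nat_lit 0) (nat_lit 0) (nat_lit 15201900) (nat_lit 0x80b22620c) (nat_lit 542613312),
  Rx.mk (nat_lit 274) (nat_lit 2) (nat_lit 2) (nat_lit 4) (nat_lit 3) (nat_lit 190) (nat_lit 232) r6_190 r4_232 (nat_lit 0) (nat_lit 0) (nat_lit 14591992) (nat_lit 0x7ffde2a5c) (nat_lit 552972954),
  Rx.mk (nat_lit 278) (nat_lit 6) (nat_lit 2) (nat_lit 4) (nat_lit 3) (nat_lit 181) (nat_lit 233) r6_181 r4_233 (nat_lit 0) (nat_lit 0) (nat_lit 11623710) (nat_lit 0x7bf31a790) (nat_lit 614749172),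
  Rx.mk (nat_lit 282) (nat_lit 2) (nat_lit 3) (nat_lit 4) (nat_lit 3) (nat_lit 191) (nat_lit 231) r6_191 r4_231 (nat_lit 0) (nat_lit 0) (nat_lit 15888000) (nat_lit 0x80a2446e0) (nat_lit 544269162),
  Rx.mk (nat_lit 384) (nat_lit 0) (nat_lit 0) (nat_lit 6) (nat_lit 4) (nat_lit 183) (nat_lit 235) r6_183 r4_235 (nat_lit 102847) (nat_lit 72450) (nat_lit 0) (nat_lit 0x74c49e314) (nat_lit 718702409),
  Rx.mk (nat_lit 386) (nat_lit 2) (nat_lit 0) (nat_lit 6) (nat_lit 5) (nat_lit 187) (nat_lit 238) r6_187 r4_238 (nat_lit 0) (nat_lit 8507115) (nat_lit 0) (nat_lit 0x7fe98ff5a) (nat_lit 548034927),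
  Rx.mk (nat_lit 392) (nat_lit 0) (nat_lit 1) (nat_lit 6) (nat_lit 6) (nat_lit 184) (nat_lit 236) r6_184 r4_236 (nat_lit 17803608) (nat_lit 0) (nat_lit 0) (nat_lit 0x8030df784) (nat_lit 553092470),
  Rx.mk (nat_lit 394) (nat_lit 2) (nat_lit 1) (nat_lit 6) (nat_lit 7) (nat_lit 189) (nat_lit 239) r6_189 r4_239 (nat_lit 0) (nat_lit 0) (nat_lit 0) (nat_lit 0x80ad718e2) (nat_lit 527694462),
  Rx.mk (nat_lit 408) (nat_lit 0) (nat_lit 3) (nat_lit 6) (nat_lit 6) (nat_lit 185) (nat_lit 237) r6_185 r4_237 (nat_lit 14470459) (nat_lit 0) (nat_lit 0) (nat_lit 0x7f6a8c884) (nat_lit 561862921),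
  Rx.mk (nat_lit 410) (nat_lit 2) (nat_lit 3) (nat_lit 6) (nat_lit 7) (nat_lit 192) (nat_lit 240) r6_192 r4_240 (nat_lit 0) (nat_lit 0) (nat_lit 0) (nat_lit 0x80ad718e2) (nat_lit 527694462),
  Rx.mk (nat_lit 470) (nat_lit 6) (nat_lit 2) (nat_lit 7) (nat_lit 7) (nat_lit 182) (nat_lit 234) r6_182 r4_234 (nat_lit 0) (nat_lit 0) (nat_lit 0) (nat_lit 0x81ec02330) (nat_lit 508336162)]
noncomputable def e10_25 : List Rx := [
  Rx.mk (nat_lit 258) (nat_lit 2) (nat_lit 0) (nat_lit 4) (nat_lit 1) (nat_lit 195) (nat_lit 78) r6_195 r7_78 (nat_lit 0) (nat_lit 3417910) (nat_lit 3103288) (nat_lit 0x6f0f18210) (nat_lit 817792160),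
  Rx.mk (nat_lit 266) (nat_lit 2) (nat_lit 1) (nat_lit 4) (nat_lit 3) (nat_lit 198) (nat_lit 81) r6_198 r7_81 (nat_lit 0) (nat_lit 0) (nat_lit 10382740) (nat_lit 0x817f374a8) (nat_lit 525372102),
  Rx.mk (nat_lit 274) (nat_lit 2) (nat_lit 2) (nat_lit 4) (nat_lit 3) (nat_lit 201) (nat_lit 86) r6_201 r7_86 (nat_lit 0) (nat_lit 0) (nat_lit 24741287) (nat_lit 0x7f4e81a9a) (nat_lit 574017999),
  Rx.mk (nat_lit 278) (nat_lit 6) (nat_lit 2) (nat_lit 4) (nat_lit 3) (nat_lit 193) (nat_lit 84) r6_193 r7_84 (nat_lit 0) (nat_lit 0) (nat_lit 8290090) (nat_lit 0x80c4482e6) (nat_lit 534483002),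
  Rx.mk (nat_lit 322) (nat_lit 2) (nat_lit 0) (nat_lit 5) (nat_lit 5) (nat_lit 196) (nat_lit 79) r6_196 r7_79 (nat_lit 0) (nat_lit 12588522) (nat_lit 0) (nat_lit 0x8109aaa8c) (nat_lit 534683584),
  Rx.mk (nat_lit 330) (nat_lit 2) (nat_lit 1) (nat_lit 5) (nat_lit 7) (nat_lit 199) (nat_lit 82) r6_199 r7_82 (nat_lit 0) (nat_lit 0) (nat_lit 0) (nat_lit 0x806259ae4) (nat_lit 532286612),
  Rx.mk (nat_lit 338) (nat_lit 2) (nat_lit 2) (nat_lit 5) (nat_lit 7) (nat_lit 202) (nat_lit 87) r6_202 r7_87 (nat_lit 0) (nat_lit 0) (nat_lit 0) (nat_lit 0x8017985b4) (nat_lit 536870912),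
  Rx.mk (nat_lit 342) (nat_lit 6) (nat_lit 2) (nat_lit 5) (nat_lit 7) (nat_lit 194) (nat_lit 85) r6_194 r7_85 (nat_lit 0) (nat_lit 0) (nat_lit 0) (nat_lit 0x810efde94) (nat_lit 521774762),
  Rx.mk (nat_lit 386) (nat_lit 2) (nat_lit 0) (nat_lit 6) (nat_lit 5) (nat_lit 197) (nat_lit 80) r6_197 r7_80 (nat_lit 0) (nat_lit 9429526) (nat_lit 0) (nat_lit 0x80843ba90) (nat_lit 539527188),
  Rx.mk (nat_lit 394) (nat_lit 2) (nat_lit 1) (nat_lit 6) (nat_lit 7) (nat_lit 200) (nat_lit 83) r6_200 r7_83 (nat_lit 0) (nat_lit 0) (nat_lit 0) (nat_lit 0x80e84372c) (nat_lit 524123412)]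
noncomputable def e10_26 : List Rx := [
  Rx.mk (nat_lit 266) (nat_lit 2) (nat_lit 1) (nat_lit 4) (nat_lit 3) (nat_lit 203) (nat_lit 71) r6_203 r8_71 (nat_lit 0) (nat_lit 0) (nat_lit 11276317) (nat_lit 0x80f41308e) (nat_lit 534645879),
  Rx.mk (nat_lit 330) (nat_lit 2) (nat_lit 1) (nat_lit 5) (nat_lit 7) (nat_lit 204) (nat_lit 72) r6_204 r8_72 (nat_lit 0) (nat_lit 0) (nat_lit 0) (nat_lit 0x8017985b4) (nat_lit 536870912),
  Rx.mk (nat_lit 394) (nat_lit 2) (nat_lit 1) (nat_lit 6) (nat_lit 7) (nat_lit 205) (nat_lit 73) r6_205 r8_73 (nat_lit 0) (nat_lit 0) (nat_lit 0) (nat_lit 0x80607f5fc) (nat_lit 532392712)]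
noncomputable def e10_27 : List Rx := [
  Rx.mk (nat_lit 322) (nat_lit 2) (nat_lit 0) (nat_lit 5) (nat_lit 5) (nat_lit 207) (nat_lit 221) r6_207 r8_221 (nat_lit 0) (nat_lit 24741287) (nat_lit 0) (nat_lit 0x8017985b4) (nat_lit 561612199),
  Rx.mk (nat_lit 330) (nat_lit 2) (nat_lit 1) (nat_lit 5) (nat_lit 7) (nat_lit 208) (nat_lit 222) r6_208 r8_222 (nat_lit 0) (nat_lit 0) (nat_lit 0) (nat_lit 0x8017985b4) (nat_lit 536870912),
  Rx.mk (nat_lit 338) (nat_lit 2) (nat_lit 2) (nat_lit 5) (nat_lit 7) (nat_lit 209) (nat_lit 223) r6_209 r8_223 (nat_lit 0) (nat_lit 0) (nat_lit 0) (nat_lit 0x8017985b4) (nat_lit 536870912),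
  Rx.mk (nat_lit 342) (nat_lit 6) (nat_lit 2) (nat_lit 5) (nat_lit 7) (nat_lit 206) (nat_lit 224) r6_206 r8_224 (nat_lit 0) (nat_lit 0) (nat_lit 0) (nat_lit 0x805730f46) (nat_lit 532963862)]
noncomputable def e10_28 : List Rx := [
  Rx.mk (nat_lit 258) (nat_lit 2) (nat_lit 0) (nat_lit 4) (nat_lit 1) (nat_lit 213) (nat_lit 59) r6_213 r10_59 (nat_lit 0) (nat_lit 3908311) (nat_lit 3437710) (nat_lit 0x70b62ad72) (nat_lit 791927083),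
  Rx.mk (nat_lit 266) (nat_lit 2) (nat_lit 1) (nat_lit 4) (nat_lit 3) (nat_lit 216) (nat_lit 62) r6_216 r10_62 (nat_lit 0) (nat_lit 0) (nat_lit 14773968) (nat_lit 0x80be7a56c) (nat_lit 541432730),
  Rx.mk (nat_lit 274) (nat_lit 2) (nat_lit 2) (nat_lit 4) (nat_lit 3) (nat_lit 218) (nat_lit 70) r6_218 r10_70 (nat_lit 0) (nat_lit 0) (nat_lit 24741287) (nat_lit 0x7f68b2360) (nat_lit 572388699),
  Rx.mk (nat_lit 278) (nat_lit 6) (nat_lit 2) (nat_lit 4) (nat_lit 3) (nat_lit 210) (nat_lit 67) r6_210 r10_67 (nat_lit 0) (nat_lit 0) (nat_lit 9336562) (nat_lit 0x80cea0392) (nat_lit 534941174),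
  Rx.mk (nat_lit 282) (nat_lit 2) (nat_lit 3) (nat_lit 4) (nat_lit 3) (nat_lit 220) (nat_lit 64) r6_220 r10_64 (nat_lit 0) (nat_lit 0) (nat_lit 14995754) (nat_lit 0x80820fd34) (nat_lit 545312416),
  Rx.mk (nat_lit 322) (nat_lit 2) (nat_lit 0) (nat_lit 5) (nat_lit 5) (nat_lit 214) (nat_lit 60) r6_214 r10_60 (nat_lit 0) (nat_lit 18189542) (nat_lit 0) (nat_lit 0x807407840) (nat_lit 549393204),
  Rx.mk (nat_lit 338) (nat_lit 2) (nat_lit 2) (nat_lit 5) (nat_lit 7) (nat_lit 219) (nat_lit 71) r6_219 r10_71 (nat_lit 0) (nat_lit 0) (nat_lit 0) (nat_lit 0x8017985b4) (nat_lit 536870912),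
  Rx.mk (nat_lit 342) (nat_lit 6) (nat_lit 2) (nat_lit 5) (nat_lit 7) (nat_lit 211) (nat_lit 68) r6_211 r10_68 (nat_lit 0) (nat_lit 0) (nat_lit 0) (nat_lit 0x80d032dc2) (nat_lit 525585862),
  Rx.mk (nat_lit 346) (nat_lit 2) (nat_lit 3) (nat_lit 5) (nat_lit 7) (nat_lit 221) (nat_lit 65) r6_221 r10_65 (nat_lit 0) (nat_lit 0) (nat_lit 0) (nat_lit 0x8017985b4) (nat_lit 536870912),
  Rx.mk (nat_lit 386) (nat_lit 2) (nat_lit 0) (nat_lit 6) (nat_lit 5) (nat_lit 215) (nat_lit 61) r6_215 r10_61 (nat_lit 0) (nat_lit 8452867) (nat_lit 0) (nat_lit 0x80ffe1c3a) (nat_lit 531055429),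
  Rx.mk (nat_lit 394) (nat_lit 2) (nat_lit 1) (nat_lit 6) (nat_lit 7) (nat_lit 217) (nat_lit 63) r6_217 r10_63 (nat_lit 0) (nat_lit 0) (nat_lit 0) (nat_lit 0x80d199d14) (nat_lit 525495962),
  Rx.mk (nat_lit 410) (nat_lit 2) (nat_lit 3) (nat_lit 6) (nat_lit 7) (nat_lit 222) (nat_lit 66) r6_222 r10_66 (nat_lit 0) (nat_lit 0) (nat_lit 0) (nat_lit 0x80d1999d6) (nat_lit 525496012),
  Rx.mk (nat_lit 470) (nat_lit 6) (nat_lit 2) (nat_lit 7) (nat_lit 7) (nat_lit 212) (nat_lit 69) r6_212 r10_69 (nat_lit 0) (nat_lit 0) (nat_lit 0) (nat_lit 0x80d033132) (nat_lit 525585812)]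
noncomputable def e10_29 : List Rx := [
  Rx.mk (nat_lit 258) (nat_lit 2) (nat_lit 0) (nat_lit 4) (nat_lit 1) (nat_lit 227) (nat_lit 54) r6_227 r11_54 (nat_lit 0) (nat_lit 8887259) (nat_lit 8232258) (nat_lit 0x752a94a10) (nat_lit 729817329),
  Rx.mk (nat_lit 266) (nat_lit 2) (nat_lit 1) (nat_lit 4) (nat_lit 3) (nat_lit 230) (nat_lit 58) r6_230 r11_58 (nat_lit 0) (nat_lit 0) (nat_lit 24863851) (nat_lit 0x80051da7e) (nat_lit 562865263),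
  Rx.mk (nat_lit 274) (nat_lit 2) (nat_lit 2) (nat_lit 4) (nat_lit 3) (nat_lit 233) (nat_lit 66) r6_233 r11_66 (nat_lit 0) (nat_lit 0) (nat_lit 24741287) (nat_lit 0x8017985b4) (nat_lit 561612199),
  Rx.mk (nat_lit 282) (nat_lit 2) (nat_lit 3) (nat_lit 4) (nat_lit 3) (nat_lit 235) (nat_lit 63) r6_235 r11_63 (nat_lit 0) (nat_lit 0) (nat_lit 24741287) (nat_lit 0x8017985b4) (nat_lit 561612199),
  Rx.mk (nat_lit 384) (nat_lit 0) (nat_lit 0) (nat_lit 6) (nat_lit 4) (nat_lit 224) (nat_lit 53) r6_224 r11_53 (nat_lit 17592133) (nat_lit 11453294) (nat_lit 0) (nat_lit 0x79c89e50e) (nat_lit 667174639),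
  Rx.mk (nat_lit 386) (nat_lit 2) (nat_lit 0) (nat_lit 6) (nat_lit 5) (nat_lit 228) (nat_lit 56) r6_228 r11_56 (nat_lit 0) (nat_lit 11833070) (nat_lit 0) (nat_lit 0x80dfff796) (nat_lit 536433782),
  Rx.mk (nat_lit 392) (nat_lit 0) (nat_lit 1) (nat_lit 6) (nat_lit 6) (nat_lit 225) (nat_lit 57) r6_225 r11_57 (nat_lit 23560195) (nat_lit 0) (nat_lit 0) (nat_lit 0x8006b0be8) (nat_lit 561461107),
  Rx.mk (nat_lit 394) (nat_lit 2) (nat_lit 1) (nat_lit 6) (nat_lit 7) (nat_lit 231) (nat_lit 60) r6_231 r11_60 (nat_lit 0) (nat_lit 0) (nat_lit 0) (nat_lit 0x8017985b4) (nat_lit 536870912),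
  Rx.mk (nat_lit 408) (nat_lit 0) (nat_lit 3) (nat_lit 6) (nat_lit 6) (nat_lit 226) (nat_lit 61) r6_226 r11_61 (nat_lit 26850297) (nat_lit 0) (nat_lit 0) (nat_lit 0x80135a3c6) (nat_lit 563945709),
  Rx.mk (nat_lit 410) (nat_lit 2) (nat_lit 3) (nat_lit 6) (nat_lit 7) (nat_lit 236) (nat_lit 64) r6_236 r11_64 (nat_lit 0) (nat_lit 0) (nat_lit 0) (nat_lit 0x8017985b4) (nat_lit 536870912),
  Rx.mk (nat_lit 411) (nat_lit 3) (nat_lit 3) (nat_lit 6) (nat_lit 7) (nat_lit 237) (nat_lit 62) r6_237 r11_62 (nat_lit 0) (nat_lit 0) (nat_lit 0) (nat_lit 0x8017985b4) (nat_lit 536870912),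
  Rx.mk (nat_lit 450) (nat_lit 2) (nat_lit 0) (nat_lit 7) (nat_lit 5) (nat_lit 229) (nat_lit 55) r6_229 r11_55 (nat_lit 0) (nat_lit 20819956) (nat_lit 0) (nat_lit 0x80443f36a) (nat_lit 554944468),
  Rx.mk (nat_lit 458) (nat_lit 2) (nat_lit 1) (nat_lit 7) (nat_lit 7) (nat_lit 232) (nat_lit 59) r6_232 r11_59 (nat_lit 0) (nat_lit 0) (nat_lit 0) (nat_lit 0x8017985b4) (nat_lit 536870912),
  Rx.mk (nat_lit 466) (nat_lit 2) (nat_lit 2) (nat_lit 7) (nat_lit 7) (nat_lit 234) (nat_lit 67) r6_234 r11_67 (nat_lit 0) (nat_lit 0) (nat_lit 0) (nat_lit 0x8017985b4) (nat_lit 536870912),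
  Rx.mk (nat_lit 470) (nat_lit 6) (nat_lit 2) (nat_lit 7) (nat_lit 7) (nat_lit 223) (nat_lit 65) r6_223 r11_65 (nat_lit 0) (nat_lit 0) (nat_lit 0) (nat_lit 0x822812b0e) (nat_lit 504804312)]
noncomputable def e10_30 : List Rx := [
  Rx.mk (nat_lit 55) (nat_lit 7) (nat_lit 6) (nat_lit 0) (nat_lit 3) (nat_lit 239) (nat_lit 242) r6_239 r5_242 (nat_lit 0) (nat_lit 0) (nat_lit 355084) (nat_lit 0x7fdb97272) (nat_lit 539655146),
  Rx.mk (nat_lit 167) (nat_lit 7) (nat_lit 4) (nat_lit 2) (nat_lit 5) (nat_lit 238) (nat_lit 243) r6_238 r5_243 (nat_lit 0) (nat_lit 52534) (nat_lit 0) (nat_lit 0x806957f26) (nat_lit 530664346),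
  Rx.mk (nat_lit 183) (nat_lit 7) (nat_lit 6) (nat_lit 2) (nat_lit 7) (nat_lit 240) (nat_lit 244) r6_240 r5_244 (nat_lit 0) (nat_lit 0) (nat_lit 0) (nat_lit 0x7f639d938) (nat_lit 547371662)]
noncomputable def e10_31 : List Rx := [
  Rx.mk (nat_lit 55) (nat_lit 7) (nat_lit 6) (nat_lit 0) (nat_lit 3) (nat_lit 241) (nat_lit 284) r6_241 r11_284 (nat_lit 0) (nat_lit 0) (nat_lit 4181752) (nat_lit 0x80bce2e16) (nat_lit 530625764),
  Rx.mk (nat_lit 119) (nat_lit 7) (nat_lit 6) (nat_lit 1) (nat_lit 7) (nat_lit 242) (nat_lit 285) r6_242 r11_285 (nat_lit 0) (nat_lit 0) (nat_lit 0) (nat_lit 0x84db9c5a6) (nat_lit 463462512),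
  Rx.mk (nat_lit 183) (nat_lit 7) (nat_lit 6) (nat_lit 2) (nat_lit 7) (nat_lit 243) (nat_lit 286) r6_243 r11_286 (nat_lit 0) (nat_lit 0) (nat_lit 0) (nat_lit 0x8558f78ac) (nat_lit 456022662)]
noncomputable def e10_32 : List Rx := [
  Rx.mk (nat_lit 163) (nat_lit 3) (nat_lit 4) (nat_lit 2) (nat_lit 5) (nat_lit 249) (nat_lit 247) r6_249 r6_247 (nat_lit 0) (nat_lit 444414) (nat_lit 0) (nat_lit 0x7fdf18cb6) (nat_lit 539578826),
  Rx.mk (nat_lit 184) (nat_lit 0) (nat_lit 7) (nat_lit 2) (nat_lit 6) (nat_lit 245) (nat_lit 246) r6_245 r6_246 (nat_lit 4142685) (nat_lit 0) (nat_lit 0) (nat_lit 0x7fb361866) (nat_lit 546673497),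
  Rx.mk (nat_lit 187) (nat_lit 3) (nat_lit 7) (nat_lit 2) (nat_lit 7) (nat_lit 250) (nat_lit 248) r6_250 r6_248 (nat_lit 0) (nat_lit 0) (nat_lit 0) (nat_lit 0x8541a12d4) (nat_lit 457207412),
  Rx.mk (nat_lit 282) (nat_lit 2) (nat_lit 3) (nat_lit 4) (nat_lit 3) (nat_lit 247) (nat_lit 249) r6_247 r6_249 (nat_lit 0) (nat_lit 0) (nat_lit 444414) (nat_lit 0x7fdf18cb6) (nat_lit 539578826),
  Rx.mk (nat_lit 408) (nat_lit 0) (nat_lit 3) (nat_lit 6) (nat_lit 6) (nat_lit 246) (nat_lit 245) r6_246 r6_245 (nat_lit 4142685) (nat_lit 0) (nat_lit 0) (nat_lit 0x7fb361866) (nat_lit 546673497),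
  Rx.mk (nat_lit 410) (nat_lit 2) (nat_lit 3) (nat_lit 6) (nat_lit 7) (nat_lit 248) (nat_lit 250) r6_248 r6_250 (nat_lit 0) (nat_lit 0) (nat_lit 0) (nat_lit 0x8541a12d4) (nat_lit 457207412),
  Rx.mk (nat_lit 440) (nat_lit 0) (nat_lit 7) (nat_lit 6) (nat_lit 6) (nat_lit 244) (nat_lit 244) r6_244 r6_244 (nat_lit 646033) (nat_lit 0) (nat_lit 0) (nat_lit 0x7f96cb490) (nat_lit 544399195)]
noncomputable def e10_33 : List Rx := [
  Rx.mk (nat_lit 282) (nat_lit 2) (nat_lit 3) (nat_lit 4) (nat_lit 3) (nat_lit 252) (nat_lit 242) r6_252 r5_242 (nat_lit 0) (nat_lit 0) (nat_lit 355084) (nat_lit 0x7fdb97272) (nat_lit 539655146),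
  Rx.mk (nat_lit 408) (nat_lit 0) (nat_lit 3) (nat_lit 6) (nat_lit 6) (nat_lit 251) (nat_lit 243) r6_251 r5_243 (nat_lit 52534) (nat_lit 0) (nat_lit 0) (nat_lit 0x806957f26) (nat_lit 530664346),
  Rx.mk (nat_lit 410) (nat_lit 2) (nat_lit 3) (nat_lit 6) (nat_lit 7) (nat_lit 253) (nat_lit 244) r6_253 r5_244 (nat_lit 0) (nat_lit 0) (nat_lit 0) (nat_lit 0x7f639d938) (nat_lit 547371662)]
noncomputable def e10_34 : List Rx := [
  Rx.mk (nat_lit 282) (nat_lit 2) (nat_lit 3) (nat_lit 4) (nat_lit 3) (nat_lit 254) (nat_lit 284) r6_254 r11_284 (nat_lit 0) (nat_lit 0) (nat_lit 4181752) (nat_lit 0x80bce2e16) (nat_lit 530625764),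
  Rx.mk (nat_lit 346) (nat_lit 2) (nat_lit 3) (nat_lit 5) (nat_lit 7) (nat_lit 255) (nat_lit 285) r6_255 r11_285 (nat_lit 0) (nat_lit 0) (nat_lit 0) (nat_lit 0x84db9c5a6) (nat_lit 463462512),
  Rx.mk (nat_lit 410) (nat_lit 2) (nat_lit 3) (nat_lit 6) (nat_lit 7) (nat_lit 256) (nat_lit 286) r6_256 r11_286 (nat_lit 0) (nat_lit 0) (nat_lit 0) (nat_lit 0x8558f78ac) (nat_lit 456022662)]
noncomputable def e10_35 : List Rx := [
  Rx.mk (nat_lit 55) (nat_lit 7) (nat_lit 6) (nat_lit 0) (nat_lit 3) (nat_lit 258) (nat_lit 249) r6_258 r6_249 (nat_lit 0) (nat_lit 0) (nat_lit 444414) (nat_lit 0x7fdf18cb6) (nat_lit 539578826),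
  Rx.mk (nat_lit 163) (nat_lit 3) (nat_lit 4) (nat_lit 2) (nat_lit 5) (nat_lit 262) (nat_lit 244) r6_262 r6_244 (nat_lit 0) (nat_lit 646033) (nat_lit 0) (nat_lit 0x7f96cb490) (nat_lit 544399195),
  Rx.mk (nat_lit 167) (nat_lit 7) (nat_lit 4) (nat_lit 2) (nat_lit 5) (nat_lit 257) (nat_lit 245) r6_257 r6_245 (nat_lit 0) (nat_lit 4142685) (nat_lit 0) (nat_lit 0x7fb361866) (nat_lit 546673497),
  Rx.mk (nat_lit 183) (nat_lit 7) (nat_lit 6) (nat_lit 2) (nat_lit 7) (nat_lit 259) (nat_lit 250) r6_259 r6_250 (nat_lit 0) (nat_lit 0) (nat_lit 0) (nat_lit 0x8541a12d4) (nat_lit 457207412),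
  Rx.mk (nat_lit 419) (nat_lit 3) (nat_lit 4) (nat_lit 6) (nat_lit 5) (nat_lit 261) (nat_lit 246) r6_261 r6_246 (nat_lit 0) (nat_lit 4142685) (nat_lit 0) (nat_lit 0x7fb361866) (nat_lit 546673497),
  Rx.mk (nat_lit 440) (nat_lit 0) (nat_lit 7) (nat_lit 6) (nat_lit 6) (nat_lit 260) (nat_lit 247) r6_260 r6_247 (nat_lit 444414) (nat_lit 0) (nat_lit 0) (nat_lit 0x7fdf18cb6) (nat_lit 539578826),
  Rx.mk (nat_lit 443) (nat_lit 3) (nat_lit 7) (nat_lit 6) (nat_lit 7) (nat_lit 263) (nat_lit 248) r6_263 r6_248 (nat_lit 0) (nat_lit 0) (nat_lit 0) (nat_lit 0x8541a12d4) (nat_lit 457207412)]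
noncomputable def e10_36 : List Rx := [
  Rx.mk (nat_lit 55) (nat_lit 7) (nat_lit 6) (nat_lit 0) (nat_lit 3) (nat_lit 265) (nat_lit 80) r6_265 r12_80 (nat_lit 0) (nat_lit 0) (nat_lit 553755) (nat_lit 0x7fb8fc4c4) (nat_lit 542151267),
  Rx.mk (nat_lit 163) (nat_lit 3) (nat_lit 4) (nat_lit 2) (nat_lit 5) (nat_lit 273) (nat_lit 73) r6_273 r12_73 (nat_lit 0) (nat_lit 136696) (nat_lit 0) (nat_lit 0x7fdc594a8) (nat_lit 539308358),
  Rx.mk (nat_lit 167) (nat_lit 7) (nat_lit 4) (nat_lit 2) (nat_lit 5) (nat_lit 264) (nat_lit 79) r6_264 r12_79 (nat_lit 0) (nat_lit 580263) (nat_lit 0) (nat_lit 0x7f28ad08a) (nat_lit 551200875),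
  Rx.mk (nat_lit 183) (nat_lit 7) (nat_lit 6) (nat_lit 2) (nat_lit 7) (nat_lit 266) (nat_lit 82) r6_266 r12_82 (nat_lit 0) (nat_lit 0) (nat_lit 0) (nat_lit 0x83d678a8a) (nat_lit 478658912),
  Rx.mk (nat_lit 187) (nat_lit 3) (nat_lit 7) (nat_lit 2) (nat_lit 7) (nat_lit 275) (nat_lit 74) r6_275 r12_74 (nat_lit 0) (nat_lit 0) (nat_lit 0) (nat_lit 0x8008848c0) (nat_lit 536614962),
  Rx.mk (nat_lit 247) (nat_lit 7) (nat_lit 6) (nat_lit 3) (nat_lit 7) (nat_lit 267) (nat_lit 81) r6_267 r12_81 (nat_lit 0) (nat_lit 0) (nat_lit 0) (nat_lit 0x82c9245f6) (nat_lit 494708962),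
  Rx.mk (nat_lit 282) (nat_lit 2) (nat_lit 3) (nat_lit 4) (nat_lit 3) (nat_lit 270) (nat_lit 76) r6_270 r12_76 (nat_lit 0) (nat_lit 0) (nat_lit 553755) (nat_lit 0x7fb8fc4c4) (nat_lit 542151267),
  Rx.mk (nat_lit 408) (nat_lit 0) (nat_lit 3) (nat_lit 6) (nat_lit 6) (nat_lit 269) (nat_lit 71) r6_269 r12_71 (nat_lit 580263) (nat_lit 0) (nat_lit 0) (nat_lit 0x7f28ad08a) (nat_lit 551200875),
  Rx.mk (nat_lit 410) (nat_lit 2) (nat_lit 3) (nat_lit 6) (nat_lit 7) (nat_lit 271) (nat_lit 78) r6_271 r12_78 (nat_lit 0) (nat_lit 0) (nat_lit 0) (nat_lit 0x83d678a8a) (nat_lit 478658912),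
  Rx.mk (nat_lit 440) (nat_lit 0) (nat_lit 7) (nat_lit 6) (nat_lit 6) (nat_lit 268) (nat_lit 72) r6_268 r12_72 (nat_lit 136696) (nat_lit 0) (nat_lit 0) (nat_lit 0x7fdc594a8) (nat_lit 539308358),
  Rx.mk (nat_lit 443) (nat_lit 3) (nat_lit 7) (nat_lit 6) (nat_lit 7) (nat_lit 274) (nat_lit 75) r6_274 r12_75 (nat_lit 0) (nat_lit 0) (nat_lit 0) (nat_lit 0x8008848c0) (nat_lit 536614962),
  Rx.mk (nat_lit 474) (nat_lit 2) (nat_lit 3) (nat_lit 7) (nat_lit 7) (nat_lit 272) (nat_lit 77) r6_272 r12_77 (nat_lit 0) (nat_lit 0) (nat_lit 0) (nat_lit 0x82c9245f6) (nat_lit 494708962)]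
noncomputable def e10_37 : List Rx := [
  Rx.mk (nat_lit 168) (nat_lit 0) (nat_lit 5) (nat_lit 2) (nat_lit 6) (nat_lit 277) (nat_lit 223) r6_277 r0_223 (nat_lit 15883932) (nat_lit 0) (nat_lit 0) (nat_lit 0x7b9d7068c) (nat_lit 624376294),
  Rx.mk (nat_lit 424) (nat_lit 0) (nat_lit 5) (nat_lit 6) (nat_lit 6) (nat_lit 276) (nat_lit 222) r6_276 r0_222 (nat_lit 52275) (nat_lit 0) (nat_lit 0) (nat_lit 0x8149ad206) (nat_lit 517293887)]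
noncomputable def e10_38 : List Rx := [
  Rx.mk (nat_lit 161) (nat_lit 1) (nat_lit 4) (nat_lit 2) (nat_lit 5) (nat_lit 279) (nat_lit 222) r6_279 r0_222 (nat_lit 0) (nat_lit 52275) (nat_lit 0) (nat_lit 0x8149ad206) (nat_lit 517293887),
  Rx.mk (nat_lit 417) (nat_lit 1) (nat_lit 4) (nat_lit 6) (nat_lit 5) (nat_lit 278) (nat_lit 223) r6_278 r0_223 (nat_lit 0) (nat_lit 15883932) (nat_lit 0) (nat_lit 0x7b9d7068c) (nat_lit 624376294)]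
noncomputable def e10_39 : List Rx := [
  Rx.mk (nat_lit 161) (nat_lit 1) (nat_lit 4) (nat_lit 2) (nat_lit 5) (nat_lit 283) (nat_lit 284) r6_283 r7_284 (nat_lit 0) (nat_lit 8941730) (nat_lit 0) (nat_lit 0x81ee95fca) (nat_lit 517221742),
  Rx.mk (nat_lit 168) (nat_lit 0) (nat_lit 5) (nat_lit 2) (nat_lit 6) (nat_lit 281) (nat_lit 281) r6_281 r7_281 (nat_lit 10459655) (nat_lit 0) (nat_lit 0) (nat_lit 0x80ee2cb7a) (nat_lit 534173067),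
  Rx.mk (nat_lit 169) (nat_lit 1) (nat_lit 5) (nat_lit 2) (nat_lit 7) (nat_lit 285) (nat_lit 285) r6_285 r7_285 (nat_lit 0) (nat_lit 0) (nat_lit 0) (nat_lit 0x80830e500) (nat_lit 530283612),
  Rx.mk (nat_lit 417) (nat_lit 1) (nat_lit 4) (nat_lit 6) (nat_lit 5) (nat_lit 282) (nat_lit 282) r6_282 r7_282 (nat_lit 0) (nat_lit 10459655) (nat_lit 0) (nat_lit 0x80ee2cb7a) (nat_lit 534173067),
  Rx.mk (nat_lit 424) (nat_lit 0) (nat_lit 5) (nat_lit 6) (nat_lit 6) (nat_lit 280) (nat_lit 280) r6_280 r7_280 (nat_lit 8941730) (nat_lit 0) (nat_lit 0) (nat_lit 0x81ee95fca) (nat_lit 517221742),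
  Rx.mk (nat_lit 425) (nat_lit 1) (nat_lit 5) (nat_lit 6) (nat_lit 7) (nat_lit 284) (nat_lit 283) r6_284 r7_283 (nat_lit 0) (nat_lit 0) (nat_lit 0) (nat_lit 0x80830e500) (nat_lit 530283612)]
noncomputable def e10_40 : List Rx := [
  Rx.mk (nat_lit 53) (nat_lit 5) (nat_lit 6) (nat_lit 0) (nat_lit 3) (nat_lit 287) (nat_lit 253) r6_287 r2_253 (nat_lit 0) (nat_lit 0) (nat_lit 32877958) (nat_lit 0x7f6f4bf78) (nat_lit 580120470),
  Rx.mk (nat_lit 161) (nat_lit 1) (nat_lit 4) (nat_lit 2) (nat_lit 5) (nat_lit 289) (nat_lit 251) r6_289 r2_251 (nat_lit 0) (nat_lit 37541131) (nat_lit 0) (nat_lit 0x7f337957c) (nat_lit 588490643),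
  Rx.mk (nat_lit 165) (nat_lit 5) (nat_lit 4) (nat_lit 2) (nat_lit 5) (nat_lit 286) (nat_lit 252) r6_286 r2_252 (nat_lit 0) (nat_lit 25088397) (nat_lit 0) (nat_lit 0x7fe4f918a) (nat_lit 565068109),
  Rx.mk (nat_lit 181) (nat_lit 5) (nat_lit 6) (nat_lit 2) (nat_lit 7) (nat_lit 288) (nat_lit 254) r6_288 r2_254 (nat_lit 0) (nat_lit 0) (nat_lit 0) (nat_lit 0x8017985b4) (nat_lit 536870912)]
noncomputable def e10_41 : List Rx := [
  Rx.mk (nat_lit 161) (nat_lit 1) (nat_lit 4) (nat_lit 2) (nat_lit 5) (nat_lit 293) (nat_lit 219) r6_293 r9_219 (nat_lit 0) (nat_lit 24741287) (nat_lit 0) (nat_lit 0x7fbf624bc) (nat_lit 567020899),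
  Rx.mk (nat_lit 165) (nat_lit 5) (nat_lit 4) (nat_lit 2) (nat_lit 5) (nat_lit 290) (nat_lit 220) r6_290 r9_220 (nat_lit 0) (nat_lit 25547425) (nat_lit 0) (nat_lit 0x7ed7c15fe) (nat_lit 582171937),
  Rx.mk (nat_lit 169) (nat_lit 1) (nat_lit 5) (nat_lit 2) (nat_lit 7) (nat_lit 294) (nat_lit 221) r6_294 r9_221 (nat_lit 0) (nat_lit 0) (nat_lit 0) (nat_lit 0x8017985b4) (nat_lit 536870912),
  Rx.mk (nat_lit 173) (nat_lit 5) (nat_lit 5) (nat_lit 2) (nat_lit 7) (nat_lit 291) (nat_lit 222) r6_291 r9_222 (nat_lit 0) (nat_lit 0) (nat_lit 0) (nat_lit 0x8017985b4) (nat_lit 536870912),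
  Rx.mk (nat_lit 181) (nat_lit 5) (nat_lit 6) (nat_lit 2) (nat_lit 7) (nat_lit 292) (nat_lit 223) r6_292 r9_223 (nat_lit 0) (nat_lit 0) (nat_lit 0) (nat_lit 0x8017985b4) (nat_lit 536870912)]
noncomputable def e10_42 : List Rx := [
  Rx.mk (nat_lit 53) (nat_lit 5) (nat_lit 6) (nat_lit 0) (nat_lit 3) (nat_lit 295) (nat_lit 241) r6_295 r9_241 (nat_lit 0) (nat_lit 0) (nat_lit 25123569) (nat_lit 0x7f345289a) (nat_lit 575983031),
  Rx.mk (nat_lit 117) (nat_lit 5) (nat_lit 6) (nat_lit 1) (nat_lit 7) (nat_lit 296) (nat_lit 242) r6_296 r9_242 (nat_lit 0) (nat_lit 0) (nat_lit 0) (nat_lit 0x8017985b4) (nat_lit 536870912),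
  Rx.mk (nat_lit 181) (nat_lit 5) (nat_lit 6) (nat_lit 2) (nat_lit 7) (nat_lit 297) (nat_lit 243) r6_297 r9_243 (nat_lit 0) (nat_lit 0) (nat_lit 0) (nat_lit 0x8017985b4) (nat_lit 536870912)]
noncomputable def e10_43 : List Rx := [
  Rx.mk (nat_lit 161) (nat_lit 1) (nat_lit 4) (nat_lit 2) (nat_lit 5) (nat_lit 299) (nat_lit 240) r6_299 r1_240 (nat_lit 0) (nat_lit 861113) (nat_lit 0) (nat_lit 0x81f140aa4) (nat_lit 508285625),
  Rx.mk (nat_lit 417) (nat_lit 1) (nat_lit 4) (nat_lit 6) (nat_lit 5) (nat_lit 298) (nat_lit 241) r6_298 r1_241 (nat_lit 0) (nat_lit 15511582) (nat_lit 0) (nat_lit 0x81bcd1ade) (nat_lit 526733344)]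
noncomputable def e10_44 : List Rx := [
  Rx.mk (nat_lit 161) (nat_lit 1) (nat_lit 4) (nat_lit 2) (nat_lit 5) (nat_lit 301) (nat_lit 216) r6_301 r8_216 (nat_lit 0) (nat_lit 11102784) (nat_lit 0) (nat_lit 0x80e83c530) (nat_lit 535184746),
  Rx.mk (nat_lit 169) (nat_lit 1) (nat_lit 5) (nat_lit 2) (nat_lit 7) (nat_lit 303) (nat_lit 217) r6_303 r8_217 (nat_lit 0) (nat_lit 0) (nat_lit 0) (nat_lit 0x8017985b4) (nat_lit 536870912),
  Rx.mk (nat_lit 417) (nat_lit 1) (nat_lit 4) (nat_lit 6) (nat_lit 5) (nat_lit 300) (nat_lit 214) r6_300 r8_214 (nat_lit 0) (nat_lit 24741287) (nat_lit 0) (nat_lit 0x8017985b4) (nat_lit 561612199),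
  Rx.mk (nat_lit 425) (nat_lit 1) (nat_lit 5) (nat_lit 6) (nat_lit 7) (nat_lit 302) (nat_lit 215) r6_302 r8_215 (nat_lit 0) (nat_lit 0) (nat_lit 0) (nat_lit 0x8017985b4) (nat_lit 536870912)]
noncomputable def e10_45 : List Rx := [
  Rx.mk (nat_lit 168) (nat_lit 0) (nat_lit 5) (nat_lit 2) (nat_lit 6) (nat_lit 305) (nat_lit 241) r6_305 r1_241 (nat_lit 15511582) (nat_lit 0) (nat_lit 0) (nat_lit 0x81bcd1ade) (nat_lit 526733344),
  Rx.mk (nat_lit 424) (nat_lit 0) (nat_lit 5) (nat_lit 6) (nat_lit 6) (nat_lit 304) (nat_lit 240) r6_304 r1_240 (nat_lit 861113) (nat_lit 0) (nat_lit 0) (nat_lit 0x81f140aa4) (nat_lit 508285625)]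
noncomputable def e10_46 : List Rx := [
  Rx.mk (nat_lit 266) (nat_lit 2) (nat_lit 1) (nat_lit 4) (nat_lit 3) (nat_lit 308) (nat_lit 253) r6_308 r2_253 (nat_lit 0) (nat_lit 0) (nat_lit 32877958) (nat_lit 0x7f6f4bf78) (nat_lit 580120470),
  Rx.mk (nat_lit 392) (nat_lit 0) (nat_lit 1) (nat_lit 6) (nat_lit 6) (nat_lit 307) (nat_lit 252) r6_307 r2_252 (nat_lit 25088397) (nat_lit 0) (nat_lit 0) (nat_lit 0x7fe4f918a) (nat_lit 565068109),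
  Rx.mk (nat_lit 394) (nat_lit 2) (nat_lit 1) (nat_lit 6) (nat_lit 7) (nat_lit 309) (nat_lit 254) r6_309 r2_254 (nat_lit 0) (nat_lit 0) (nat_lit 0) (nat_lit 0x8017985b4) (nat_lit 536870912),
  Rx.mk (nat_lit 424) (nat_lit 0) (nat_lit 5) (nat_lit 6) (nat_lit 6) (nat_lit 306) (nat_lit 251) r6_306 r2_251 (nat_lit 37541131) (nat_lit 0) (nat_lit 0) (nat_lit 0x7f337957c) (nat_lit 588490643)]
noncomputable def e10_47 : List Rx := [
  Rx.mk (nat_lit 168) (nat_lit 0) (nat_lit 5) (nat_lit 2) (nat_lit 6) (nat_lit 311) (nat_lit 214) r6_311 r8_214 (nat_lit 24741287) (nat_lit 0) (nat_lit 0) (nat_lit 0x8017985b4) (nat_lit 561612199),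
  Rx.mk (nat_lit 169) (nat_lit 1) (nat_lit 5) (nat_lit 2) (nat_lit 7) (nat_lit 313) (nat_lit 215) r6_313 r8_215 (nat_lit 0) (nat_lit 0) (nat_lit 0) (nat_lit 0x8017985b4) (nat_lit 536870912),
  Rx.mk (nat_lit 424) (nat_lit 0) (nat_lit 5) (nat_lit 6) (nat_lit 6) (nat_lit 310) (nat_lit 216) r6_310 r8_216 (nat_lit 11102784) (nat_lit 0) (nat_lit 0) (nat_lit 0x80e83c530) (nat_lit 535184746),
  Rx.mk (nat_lit 425) (nat_lit 1) (nat_lit 5) (nat_lit 6) (nat_lit 7) (nat_lit 312) (nat_lit 217) r6_312 r8_217 (nat_lit 0) (nat_lit 0) (nat_lit 0) (nat_lit 0x8017985b4) (nat_lit 536870912)]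
noncomputable def e10_48 : List Rx := [
  Rx.mk (nat_lit 392) (nat_lit 0) (nat_lit 1) (nat_lit 6) (nat_lit 6) (nat_lit 315) (nat_lit 220) r6_315 r9_220 (nat_lit 25547425) (nat_lit 0) (nat_lit 0) (nat_lit 0x7ed7c15fe) (nat_lit 582171937),
  Rx.mk (nat_lit 393) (nat_lit 1) (nat_lit 1) (nat_lit 6) (nat_lit 7) (nat_lit 317) (nat_lit 222) r6_317 r9_222 (nat_lit 0) (nat_lit 0) (nat_lit 0) (nat_lit 0x8017985b4) (nat_lit 536870912),
  Rx.mk (nat_lit 394) (nat_lit 2) (nat_lit 1) (nat_lit 6) (nat_lit 7) (nat_lit 318) (nat_lit 223) r6_318 r9_223 (nat_lit 0) (nat_lit 0) (nat_lit 0) (nat_lit 0x8017985b4) (nat_lit 536870912),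
  Rx.mk (nat_lit 424) (nat_lit 0) (nat_lit 5) (nat_lit 6) (nat_lit 6) (nat_lit 314) (nat_lit 219) r6_314 r9_219 (nat_lit 24741287) (nat_lit 0) (nat_lit 0) (nat_lit 0x7fbf624bc) (nat_lit 567020899),
  Rx.mk (nat_lit 425) (nat_lit 1) (nat_lit 5) (nat_lit 6) (nat_lit 7) (nat_lit 316) (nat_lit 221) r6_316 r9_221 (nat_lit 0) (nat_lit 0) (nat_lit 0) (nat_lit 0x8017985b4) (nat_lit 536870912)]
noncomputable def e10_49 : List Rx := [
  Rx.mk (nat_lit 266) (nat_lit 2) (nat_lit 1) (nat_lit 4) (nat_lit 3) (nat_lit 319) (nat_lit 241) r6_319 r9_241 (nat_lit 0) (nat_lit 0) (nat_lit 25123569) (nat_lit 0x7f345289a) (nat_lit 575983031),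
  Rx.mk (nat_lit 330) (nat_lit 2) (nat_lit 1) (nat_lit 5) (nat_lit 7) (nat_lit 320) (nat_lit 242) r6_320 r9_242 (nat_lit 0) (nat_lit 0) (nat_lit 0) (nat_lit 0x8017985b4) (nat_lit 536870912),
  Rx.mk (nat_lit 394) (nat_lit 2) (nat_lit 1) (nat_lit 6) (nat_lit 7) (nat_lit 321) (nat_lit 243) r6_321 r9_243 (nat_lit 0) (nat_lit 0) (nat_lit 0) (nat_lit 0x8017985b4) (nat_lit 536870912)]
noncomputable def e10_50 : List Rx := [
  Rx.mk (nat_lit 160) (nat_lit 0) (nat_lit 4) (nat_lit 2) (nat_lit 4) (nat_lit 323) (nat_lit 219) r6_323 r3_219 (nat_lit 7883) (nat_lit 6389) (nat_lit 0) (nat_lit 0x7fff97bfe) (nat_lit 536915534),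
  Rx.mk (nat_lit 163) (nat_lit 3) (nat_lit 4) (nat_lit 2) (nat_lit 5) (nat_lit 325) (nat_lit 220) r6_325 r3_220 (nat_lit 0) (nat_lit 62040) (nat_lit 0) (nat_lit 0x7ffb1f284) (nat_lit 537273802),
  Rx.mk (nat_lit 416) (nat_lit 0) (nat_lit 4) (nat_lit 6) (nat_lit 4) (nat_lit 322) (nat_lit 217) r6_322 r3_217 (nat_lit 6389) (nat_lit 7883) (nat_lit 0) (nat_lit 0x7fff97bfe) (nat_lit 536915534),
  Rx.mk (nat_lit 440) (nat_lit 0) (nat_lit 7) (nat_lit 6) (nat_lit 6) (nat_lit 324) (nat_lit 218) r6_324 r3_218 (nat_lit 62040) (nat_lit 0) (nat_lit 0) (nat_lit 0x7ffb1f284) (nat_lit 537273802)]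
noncomputable def e10_51 : List Rx := [
  Rx.mk (nat_lit 160) (nat_lit 0) (nat_lit 4) (nat_lit 2) (nat_lit 4) (nat_lit 327) (nat_lit 220) r6_327 r4_220 (nat_lit 4357312) (nat_lit 3315579) (nat_lit 0) (nat_lit 0x66141debc) (nat_lit 964156353),
  Rx.mk (nat_lit 163) (nat_lit 3) (nat_lit 4) (nat_lit 2) (nat_lit 5) (nat_lit 331) (nat_lit 222) r6_331 r4_222 (nat_lit 0) (nat_lit 79150) (nat_lit 0) (nat_lit 0x53f546c4e) (nat_lit 1249167362),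
  Rx.mk (nat_lit 168) (nat_lit 0) (nat_lit 5) (nat_lit 2) (nat_lit 6) (nat_lit 329) (nat_lit 221) r6_329 r4_221 (nat_lit 9659627) (nat_lit 0) (nat_lit 0) (nat_lit 0x7fc83bdd6) (nat_lit 551234539),
  Rx.mk (nat_lit 171) (nat_lit 3) (nat_lit 5) (nat_lit 2) (nat_lit 7) (nat_lit 332) (nat_lit 223) r6_332 r4_223 (nat_lit 0) (nat_lit 0) (nat_lit 0) (nat_lit 0x801c163de) (nat_lit 536140862),
  Rx.mk (nat_lit 416) (nat_lit 0) (nat_lit 4) (nat_lit 6) (nat_lit 4) (nat_lit 326) (nat_lit 217) r6_326 r4_217 (nat_lit 164206) (nat_lit 129197) (nat_lit 0) (nat_lit 0x795e5323a) (nat_lit 644442165),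
  Rx.mk (nat_lit 424) (nat_lit 0) (nat_lit 5) (nat_lit 6) (nat_lit 6) (nat_lit 328) (nat_lit 218) r6_328 r4_218 (nat_lit 12015582) (nat_lit 0) (nat_lit 0) (nat_lit 0x8043b9b16) (nat_lit 546056094),
  Rx.mk (nat_lit 440) (nat_lit 0) (nat_lit 7) (nat_lit 6) (nat_lit 6) (nat_lit 330) (nat_lit 219) r6_330 r4_219 (nat_lit 14660822) (nat_lit 0) (nat_lit 0) (nat_lit 0x80a2e9ac8) (nat_lit 542985584)]
noncomputable def e10_52 : List Rx := [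
  Rx.mk (nat_lit 160) (nat_lit 0) (nat_lit 4) (nat_lit 2) (nat_lit 4) (nat_lit 333) (nat_lit 232) r6_333 r5_232 (nat_lit 1379852) (nat_lit 1266917) (nat_lit 0) (nat_lit 0x7a2fc99c2) (nat_lit 633790631),
  Rx.mk (nat_lit 163) (nat_lit 3) (nat_lit 4) (nat_lit 2) (nat_lit 5) (nat_lit 336) (nat_lit 234) r6_336 r5_234 (nat_lit 0) (nat_lit 745573) (nat_lit 0) (nat_lit 0x806c92614) (nat_lit 531405435),
  Rx.mk (nat_lit 184) (nat_lit 0) (nat_lit 7) (nat_lit 2) (nat_lit 6) (nat_lit 335) (nat_lit 233) r6_335 r5_233 (nat_lit 4400993) (nat_lit 0) (nat_lit 0) (nat_lit 0x831fc2ff2) (nat_lit 494248105),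
  Rx.mk (nat_lit 440) (nat_lit 0) (nat_lit 7) (nat_lit 6) (nat_lit 6) (nat_lit 334) (nat_lit 231) r6_334 r5_231 (nat_lit 64873) (nat_lit 0) (nat_lit 0) (nat_lit 0x800bef67c) (nat_lit 536253635)]
noncomputable def e10_53 : List Rx := [
  Rx.mk (nat_lit 160) (nat_lit 0) (nat_lit 4) (nat_lit 2) (nat_lit 4) (nat_lit 338) (nat_lit 217) r6_338 r4_217 (nat_lit 129197) (nat_lit 164206) (nat_lit 0) (nat_lit 0x795e5323a) (nat_lit 644442165),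
  Rx.mk (nat_lit 161) (nat_lit 1) (nat_lit 4) (nat_lit 2) (nat_lit 5) (nat_lit 341) (nat_lit 218) r6_341 r4_218 (nat_lit 0) (nat_lit 12015582) (nat_lit 0) (nat_lit 0x8043b9b16) (nat_lit 546056094),
  Rx.mk (nat_lit 163) (nat_lit 3) (nat_lit 4) (nat_lit 2) (nat_lit 5) (nat_lit 343) (nat_lit 219) r6_343 r4_219 (nat_lit 0) (nat_lit 14660822) (nat_lit 0) (nat_lit 0x80a2e9ac8) (nat_lit 542985584),
  Rx.mk (nat_lit 416) (nat_lit 0) (nat_lit 4) (nat_lit 6) (nat_lit 4) (nat_lit 337) (nat_lit 220) r6_337 r4_220 (nat_lit 3315579) (nat_lit 4357312) (nat_lit 0) (nat_lit 0x66141debc) (nat_lit 964156353),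
  Rx.mk (nat_lit 417) (nat_lit 1) (nat_lit 4) (nat_lit 6) (nat_lit 5) (nat_lit 340) (nat_lit 221) r6_340 r4_221 (nat_lit 0) (nat_lit 9659627) (nat_lit 0) (nat_lit 0x7fc83bdd6) (nat_lit 551234539),
  Rx.mk (nat_lit 440) (nat_lit 0) (nat_lit 7) (nat_lit 6) (nat_lit 6) (nat_lit 339) (nat_lit 222) r6_339 r4_222 (nat_lit 79150) (nat_lit 0) (nat_lit 0) (nat_lit 0x53f546c4e) (nat_lit 1249167362),
  Rx.mk (nat_lit 441) (nat_lit 1) (nat_lit 7) (nat_lit 6) (nat_lit 7) (nat_lit 342) (nat_lit 223) r6_342 r4_223 (nat_lit 0) (nat_lit 0) (nat_lit 0) (nat_lit 0x801c163de) (nat_lit 536140862)]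
noncomputable def e10_54 : List Rx := [
  Rx.mk (nat_lit 160) (nat_lit 0) (nat_lit 4) (nat_lit 2) (nat_lit 4) (nat_lit 345) (nat_lit 228) r6_345 r10_228 (nat_lit 2379676) (nat_lit 2476245) (nat_lit 0) (nat_lit 0x72757b8ec) (nat_lit 761113833),
  Rx.mk (nat_lit 161) (nat_lit 1) (nat_lit 4) (nat_lit 2) (nat_lit 5) (nat_lit 350) (nat_lit 233) r6_350 r10_233 (nat_lit 0) (nat_lit 11707184) (nat_lit 0) (nat_lit 0x8125d3a2e) (nat_lit 532088296),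
  Rx.mk (nat_lit 163) (nat_lit 3) (nat_lit 4) (nat_lit 2) (nat_lit 5) (nat_lit 354) (nat_lit 235) r6_354 r10_235 (nat_lit 0) (nat_lit 11706733) (nat_lit 0) (nat_lit 0x8125d7dc2) (nat_lit 532086845),
  Rx.mk (nat_lit 168) (nat_lit 0) (nat_lit 5) (nat_lit 2) (nat_lit 6) (nat_lit 347) (nat_lit 229) r6_347 r10_229 (nat_lit 14712556) (nat_lit 0) (nat_lit 0) (nat_lit 0x80ba6dfaa) (nat_lit 541613868),
  Rx.mk (nat_lit 169) (nat_lit 1) (nat_lit 5) (nat_lit 2) (nat_lit 7) (nat_lit 352) (nat_lit 234) r6_352 r10_234 (nat_lit 0) (nat_lit 0) (nat_lit 0) (nat_lit 0x8017985b4) (nat_lit 536870912),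
  Rx.mk (nat_lit 171) (nat_lit 3) (nat_lit 5) (nat_lit 2) (nat_lit 7) (nat_lit 355) (nat_lit 236) r6_355 r10_236 (nat_lit 0) (nat_lit 0) (nat_lit 0) (nat_lit 0x8017985b4) (nat_lit 536870912),
  Rx.mk (nat_lit 416) (nat_lit 0) (nat_lit 4) (nat_lit 6) (nat_lit 4) (nat_lit 344) (nat_lit 225) r6_344 r10_225 (nat_lit 2476245) (nat_lit 2379676) (nat_lit 0) (nat_lit 0x72757b8ec) (nat_lit 761113833),
  Rx.mk (nat_lit 417) (nat_lit 1) (nat_lit 4) (nat_lit 6) (nat_lit 5) (nat_lit 349) (nat_lit 230) r6_349 r10_230 (nat_lit 0) (nat_lit 14712556) (nat_lit 0) (nat_lit 0x80ba6dfaa) (nat_lit 541613868),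
  Rx.mk (nat_lit 424) (nat_lit 0) (nat_lit 5) (nat_lit 6) (nat_lit 6) (nat_lit 346) (nat_lit 226) r6_346 r10_226 (nat_lit 11707184) (nat_lit 0) (nat_lit 0) (nat_lit 0x8125d3a2e) (nat_lit 532088296),
  Rx.mk (nat_lit 425) (nat_lit 1) (nat_lit 5) (nat_lit 6) (nat_lit 7) (nat_lit 351) (nat_lit 231) r6_351 r10_231 (nat_lit 0) (nat_lit 0) (nat_lit 0) (nat_lit 0x8017985b4) (nat_lit 536870912),
  Rx.mk (nat_lit 440) (nat_lit 0) (nat_lit 7) (nat_lit 6) (nat_lit 6) (nat_lit 348) (nat_lit 227) r6_348 r10_227 (nat_lit 11706733) (nat_lit 0) (nat_lit 0) (nat_lit 0x8125d7dc2) (nat_lit 532086845),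
  Rx.mk (nat_lit 441) (nat_lit 1) (nat_lit 7) (nat_lit 6) (nat_lit 7) (nat_lit 353) (nat_lit 232) r6_353 r10_232 (nat_lit 0) (nat_lit 0) (nat_lit 0) (nat_lit 0x8017985b4) (nat_lit 536870912)]
noncomputable def e10_55 : List Rx := [
  Rx.mk (nat_lit 160) (nat_lit 0) (nat_lit 4) (nat_lit 2) (nat_lit 4) (nat_lit 356) (nat_lit 267) r6_356 r11_267 (nat_lit 5190488) (nat_lit 5930575) (nat_lit 0) (nat_lit 0x76ef41074) (nat_lit 695185625),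
  Rx.mk (nat_lit 161) (nat_lit 1) (nat_lit 4) (nat_lit 2) (nat_lit 5) (nat_lit 359) (nat_lit 270) r6_359 r11_270 (nat_lit 0) (nat_lit 17138393) (nat_lit 0) (nat_lit 0x806f00630) (nat_lit 548606105),
  Rx.mk (nat_lit 163) (nat_lit 3) (nat_lit 4) (nat_lit 2) (nat_lit 5) (nat_lit 362) (nat_lit 272) r6_362 r11_272 (nat_lit 0) (nat_lit 24741287) (nat_lit 0) (nat_lit 0x8017985b4) (nat_lit 561612199),
  Rx.mk (nat_lit 184) (nat_lit 0) (nat_lit 7) (nat_lit 2) (nat_lit 6) (nat_lit 358) (nat_lit 268) r6_358 r11_268 (nat_lit 18945663) (nat_lit 0) (nat_lit 0) (nat_lit 0x804f12fb2) (nat_lit 552405325),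
  Rx.mk (nat_lit 185) (nat_lit 1) (nat_lit 7) (nat_lit 2) (nat_lit 7) (nat_lit 361) (nat_lit 271) r6_361 r11_271 (nat_lit 0) (nat_lit 0) (nat_lit 0) (nat_lit 0x8017985b4) (nat_lit 536870912),
  Rx.mk (nat_lit 440) (nat_lit 0) (nat_lit 7) (nat_lit 6) (nat_lit 6) (nat_lit 357) (nat_lit 266) r6_357 r11_266 (nat_lit 4488265) (nat_lit 0) (nat_lit 0) (nat_lit 0x805dc6720) (nat_lit 536687177),
  Rx.mk (nat_lit 441) (nat_lit 1) (nat_lit 7) (nat_lit 6) (nat_lit 7) (nat_lit 360) (nat_lit 269) r6_360 r11_269 (nat_lit 0) (nat_lit 0) (nat_lit 0) (nat_lit 0x84800501c) (nat_lit 468941562)]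
noncomputable def e10_56 : List Rx := [
  Rx.mk (nat_lit 163) (nat_lit 3) (nat_lit 4) (nat_lit 2) (nat_lit 5) (nat_lit 366) (nat_lit 231) r6_366 r5_231 (nat_lit 0) (nat_lit 64873) (nat_lit 0) (nat_lit 0x800bef67c) (nat_lit 536253635),
  Rx.mk (nat_lit 416) (nat_lit 0) (nat_lit 4) (nat_lit 6) (nat_lit 4) (nat_lit 363) (nat_lit 232) r6_363 r5_232 (nat_lit 1266917) (nat_lit 1379852) (nat_lit 0) (nat_lit 0x7a2fc99c2) (nat_lit 633790631),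
  Rx.mk (nat_lit 419) (nat_lit 3) (nat_lit 4) (nat_lit 6) (nat_lit 5) (nat_lit 365) (nat_lit 233) r6_365 r5_233 (nat_lit 0) (nat_lit 4400993) (nat_lit 0) (nat_lit 0x831fc2ff2) (nat_lit 494248105),
  Rx.mk (nat_lit 440) (nat_lit 0) (nat_lit 7) (nat_lit 6) (nat_lit 6) (nat_lit 364) (nat_lit 234) r6_364 r5_234 (nat_lit 745573) (nat_lit 0) (nat_lit 0) (nat_lit 0x806c92614) (nat_lit 531405435)]
noncomputable def e10_57 : List Rx := [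
  Rx.mk (nat_lit 163) (nat_lit 3) (nat_lit 4) (nat_lit 2) (nat_lit 5) (nat_lit 371) (nat_lit 266) r6_371 r11_266 (nat_lit 0) (nat_lit 4488265) (nat_lit 0) (nat_lit 0x805dc6720) (nat_lit 536687177),
  Rx.mk (nat_lit 171) (nat_lit 3) (nat_lit 5) (nat_lit 2) (nat_lit 7) (nat_lit 373) (nat_lit 269) r6_373 r11_269 (nat_lit 0) (nat_lit 0) (nat_lit 0) (nat_lit 0x84800501c) (nat_lit 468941562),
  Rx.mk (nat_lit 416) (nat_lit 0) (nat_lit 4) (nat_lit 6) (nat_lit 4) (nat_lit 367) (nat_lit 267) r6_367 r11_267 (nat_lit 5930575) (nat_lit 5190488) (nat_lit 0) (nat_lit 0x76ef41074) (nat_lit 695185625),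
  Rx.mk (nat_lit 419) (nat_lit 3) (nat_lit 4) (nat_lit 6) (nat_lit 5) (nat_lit 370) (nat_lit 268) r6_370 r11_268 (nat_lit 0) (nat_lit 18945663) (nat_lit 0) (nat_lit 0x804f12fb2) (nat_lit 552405325),
  Rx.mk (nat_lit 424) (nat_lit 0) (nat_lit 5) (nat_lit 6) (nat_lit 6) (nat_lit 368) (nat_lit 270) r6_368 r11_270 (nat_lit 17138393) (nat_lit 0) (nat_lit 0) (nat_lit 0x806f00630) (nat_lit 548606105),
  Rx.mk (nat_lit 427) (nat_lit 3) (nat_lit 5) (nat_lit 6) (nat_lit 7) (nat_lit 372) (nat_lit 271) r6_372 r11_271 (nat_lit 0) (nat_lit 0) (nat_lit 0) (nat_lit 0x8017985b4) (nat_lit 536870912),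
  Rx.mk (nat_lit 440) (nat_lit 0) (nat_lit 7) (nat_lit 6) (nat_lit 6) (nat_lit 369) (nat_lit 272) r6_369 r11_272 (nat_lit 24741287) (nat_lit 0) (nat_lit 0) (nat_lit 0x8017985b4) (nat_lit 561612199)]
noncomputable def e10 : List (List Rx) := [e10_0, e10_1, e10_2, e10_3, e10_4, e10_5, e10_6, e10_7, e10_8, e10_9, e10_10, e10_11, e10_12, e10_13, e10_14, e10_15, e10_16, e10_17, e10_18, e10_19, e10_20, e10_21, e10_22, e10_23, e10_24, e10_25, e10_26, e10_27, e10_28, e10_29, e10_30, e10_31, e10_32, e10_33, e10_34, e10_35, e10_36, e10_37, e10_38, e10_39, e10_40, e10_41, e10_42, e10_43, e10_44, e10_45, e10_46, e10_47, e10_48, e10_49, e10_50, e10_51, e10_52, e10_53, e10_54, e10_55, e10_56, e10_57]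
noncomputable def e11_0 : List Rx := [
  Rx.mk (nat_lit 116) (nat_lit 4) (nat_lit 6) (nat_lit 1) (nat_lit 6) (nat_lit 61) (nat_lit 89) r5_61 r0_89 (nat_lit 16868928) (nat_lit 0) (nat_lit 0) (nat_lit 0x770328902) (nat_lit 699634640),
  Rx.mk (nat_lit 118) (nat_lit 6) (nat_lit 6) (nat_lit 1) (nat_lit 7) (nat_lit 62) (nat_lit 90) r5_62 r0_90 (nat_lit 0) (nat_lit 0) (nat_lit 0) (nat_lit 0x80cf2f8d0) (nat_lit 525470412)]
noncomputable def e11_1 : List Rx := [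
  Rx.mk (nat_lit 116) (nat_lit 4) (nat_lit 6) (nat_lit 1) (nat_lit 6) (nat_lit 63) (nat_lit 91) r5_63 r1_91 (nat_lit 3579826) (nat_lit 0) (nat_lit 0) (nat_lit 0x811e759ee) (nat_lit 524029388),
  Rx.mk (nat_lit 118) (nat_lit 6) (nat_lit 6) (nat_lit 1) (nat_lit 7) (nat_lit 64) (nat_lit 92) r5_64 r1_92 (nat_lit 0) (nat_lit 0) (nat_lit 0) (nat_lit 0x79fc7a418) (nat_lit 634642712),
  Rx.mk (nat_lit 374) (nat_lit 6) (nat_lit 6) (nat_lit 5) (nat_lit 7) (nat_lit 65) (nat_lit 93) r5_65 r1_93 (nat_lit 0) (nat_lit 0) (nat_lit 0) (nat_lit 0x7fd333eb4) (nat_lit 540973512)]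
noncomputable def e11_2 : List Rx := [
  Rx.mk (nat_lit 342) (nat_lit 6) (nat_lit 2) (nat_lit 5) (nat_lit 7) (nat_lit 14) (nat_lit 96) r5_14 r2_96 (nat_lit 0) (nat_lit 0) (nat_lit 0) (nat_lit 0x8017985b4) (nat_lit 536870912),
  Rx.mk (nat_lit 374) (nat_lit 6) (nat_lit 6) (nat_lit 5) (nat_lit 7) (nat_lit 15) (nat_lit 97) r5_15 r2_97 (nat_lit 0) (nat_lit 0) (nat_lit 0) (nat_lit 0x8059dee46) (nat_lit 532797862)]
noncomputable def e11_3 : List Rx := [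
  Rx.mk (nat_lit 39) (nat_lit 7) (nat_lit 4) (nat_lit 0) (nat_lit 1) (nat_lit 52) (nat_lit 84) r5_52 r3_84 (nat_lit 0) (nat_lit 2749) (nat_lit 1558) (nat_lit 0x800757f88) (nat_lit 536440369),
  Rx.mk (nat_lit 52) (nat_lit 4) (nat_lit 6) (nat_lit 0) (nat_lit 2) (nat_lit 55) (nat_lit 82) r5_55 r3_82 (nat_lit 4830) (nat_lit 0) (nat_lit 3690) (nat_lit 0x7ffd07a60) (nat_lit 537068682),
  Rx.mk (nat_lit 54) (nat_lit 6) (nat_lit 6) (nat_lit 0) (nat_lit 3) (nat_lit 57) (nat_lit 89) r5_57 r3_89 (nat_lit 0) (nat_lit 0) (nat_lit 2939284) (nat_lit 0x760f97a22) (nat_lit 700976746),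
  Rx.mk (nat_lit 55) (nat_lit 7) (nat_lit 6) (nat_lit 0) (nat_lit 3) (nat_lit 59) (nat_lit 87) r5_59 r3_87 (nat_lit 0) (nat_lit 0) (nat_lit 255679) (nat_lit 0x890dc1b68) (nat_lit 399147191),
  Rx.mk (nat_lit 103) (nat_lit 7) (nat_lit 4) (nat_lit 1) (nat_lit 5) (nat_lit 53) (nat_lit 85) r5_53 r3_85 (nat_lit 0) (nat_lit 4617775) (nat_lit 0) (nat_lit 0x7f39a7408) (nat_lit 554334537),
  Rx.mk (nat_lit 116) (nat_lit 4) (nat_lit 6) (nat_lit 1) (nat_lit 6) (nat_lit 56) (nat_lit 83) r5_56 r3_83 (nat_lit 1607337) (nat_lit 0) (nat_lit 0) (nat_lit 0x7673024ae) (nat_lit 693215299),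
  Rx.mk (nat_lit 118) (nat_lit 6) (nat_lit 6) (nat_lit 1) (nat_lit 7) (nat_lit 58) (nat_lit 90) r5_58 r3_90 (nat_lit 0) (nat_lit 0) (nat_lit 0) (nat_lit 0x7e9266ec8) (nat_lit 560921062),
  Rx.mk (nat_lit 119) (nat_lit 7) (nat_lit 6) (nat_lit 1) (nat_lit 7) (nat_lit 60) (nat_lit 88) r5_60 r3_88 (nat_lit 0) (nat_lit 0) (nat_lit 0) (nat_lit 0x95e0ba39c) (nat_lit 203775112),
  Rx.mk (nat_lit 167) (nat_lit 7) (nat_lit 4) (nat_lit 2) (nat_lit 5) (nat_lit 54) (nat_lit 86) r5_54 r3_86 (nat_lit 0) (nat_lit 6095527) (nat_lit 0) (nat_lit 0x814491984) (nat_lit 524090139)]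
noncomputable def e11_4 : List Rx := [
  Rx.mk (nat_lit 103) (nat_lit 7) (nat_lit 4) (nat_lit 1) (nat_lit 5) (nat_lit 66) (nat_lit 90) r5_66 r4_90 (nat_lit 0) (nat_lit 9749711) (nat_lit 0) (nat_lit 0x7ffe1e016) (nat_lit 547673873),
  Rx.mk (nat_lit 116) (nat_lit 4) (nat_lit 6) (nat_lit 1) (nat_lit 6) (nat_lit 67) (nat_lit 89) r5_67 r4_89 (nat_lit 10750557) (nat_lit 0) (nat_lit 0) (nat_lit 0x7fd33eeae) (nat_lit 551622569),
  Rx.mk (nat_lit 118) (nat_lit 6) (nat_lit 6) (nat_lit 1) (nat_lit 7) (nat_lit 68) (nat_lit 92) r5_68 r4_92 (nat_lit 0) (nat_lit 0) (nat_lit 0) (nat_lit 0x7fb528974) (nat_lit 542767312),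
  Rx.mk (nat_lit 119) (nat_lit 7) (nat_lit 6) (nat_lit 1) (nat_lit 7) (nat_lit 69) (nat_lit 91) r5_69 r4_91 (nat_lit 0) (nat_lit 0) (nat_lit 0) (nat_lit 0x8121440f8) (nat_lit 520021762)]
noncomputable def e11_5 : List Rx := [
  Rx.mk (nat_lit 39) (nat_lit 7) (nat_lit 4) (nat_lit 0) (nat_lit 1) (nat_lit 80) (nat_lit 83) r5_80 r5_83 (nat_lit 0) (nat_lit 32434) (nat_lit 21406) (nat_lit 0x7df66377e) (nat_lit 569881502),
  Rx.mk (nat_lit 52) (nat_lit 4) (nat_lit 6) (nat_lit 0) (nat_lit 2) (nat_lit 83) (nat_lit 80) r5_83 r5_80 (nat_lit 32434) (nat_lit 0) (nat_lit 21406) (nat_lit 0x7df66377e) (nat_lit 569881502),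
  Rx.mk (nat_lit 54) (nat_lit 6) (nat_lit 6) (nat_lit 0) (nat_lit 3) (nat_lit 86) (nat_lit 91) r5_86 r5_91 (nat_lit 0) (nat_lit 0) (nat_lit 4689852) (nat_lit 0x775cace2e) (nat_lit 681805714),
  Rx.mk (nat_lit 55) (nat_lit 7) (nat_lit 6) (nat_lit 0) (nat_lit 3) (nat_lit 89) (nat_lit 89) r5_89 r5_89 (nat_lit 0) (nat_lit 0) (nat_lit 169882) (nat_lit 0x8abe45df8) (nat_lit 373252794),
  Rx.mk (nat_lit 63) (nat_lit 7) (nat_lit 7) (nat_lit 0) (nat_lit 3) (nat_lit 91) (nat_lit 86) r5_91 r5_86 (nat_lit 0) (nat_lit 0) (nat_lit 4689852) (nat_lit 0x775cace2e) (nat_lit 681805714),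
  Rx.mk (nat_lit 103) (nat_lit 7) (nat_lit 4) (nat_lit 1) (nat_lit 5) (nat_lit 81) (nat_lit 84) r5_81 r5_84 (nat_lit 0) (nat_lit 10427805) (nat_lit 0) (nat_lit 0x7ec01b5f8) (nat_lit 568411717),
  Rx.mk (nat_lit 116) (nat_lit 4) (nat_lit 6) (nat_lit 1) (nat_lit 6) (nat_lit 84) (nat_lit 81) r5_84 r5_81 (nat_lit 10427805) (nat_lit 0) (nat_lit 0) (nat_lit 0x7ec01b5f8) (nat_lit 568411717),
  Rx.mk (nat_lit 118) (nat_lit 6) (nat_lit 6) (nat_lit 1) (nat_lit 7) (nat_lit 87) (nat_lit 92) r5_87 r5_92 (nat_lit 0) (nat_lit 0) (nat_lit 0) (nat_lit 0x7af3eeae6) (nat_lit 619248212),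
  Rx.mk (nat_lit 119) (nat_lit 7) (nat_lit 6) (nat_lit 1) (nat_lit 7) (nat_lit 90) (nat_lit 90) r5_90 r5_90 (nat_lit 0) (nat_lit 0) (nat_lit 0) (nat_lit 0x814eaf5e2) (nat_lit 517898262),
  Rx.mk (nat_lit 127) (nat_lit 7) (nat_lit 7) (nat_lit 1) (nat_lit 7) (nat_lit 92) (nat_lit 87) r5_92 r5_87 (nat_lit 0) (nat_lit 0) (nat_lit 0) (nat_lit 0x7af3eeae6) (nat_lit 619248212),
  Rx.mk (nat_lit 167) (nat_lit 7) (nat_lit 4) (nat_lit 2) (nat_lit 5) (nat_lit 82) (nat_lit 85) r5_82 r5_85 (nat_lit 0) (nat_lit 4868394) (nat_lit 0) (nat_lit 0x805425f9a) (nat_lit 537655506),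
  Rx.mk (nat_lit 191) (nat_lit 7) (nat_lit 7) (nat_lit 2) (nat_lit 7) (nat_lit 93) (nat_lit 88) r5_93 r5_88 (nat_lit 0) (nat_lit 0) (nat_lit 0) (nat_lit 0x7ff6f362e) (nat_lit 538736412),
  Rx.mk (nat_lit 244) (nat_lit 4) (nat_lit 6) (nat_lit 3) (nat_lit 6) (nat_lit 85) (nat_lit 82) r5_85 r5_82 (nat_lit 4868394) (nat_lit 0) (nat_lit 0) (nat_lit 0x805425f9a) (nat_lit 537655506),
  Rx.mk (nat_lit 246) (nat_lit 6) (nat_lit 6) (nat_lit 3) (nat_lit 7) (nat_lit 88) (nat_lit 93) r5_88 r5_93 (nat_lit 0) (nat_lit 0) (nat_lit 0) (nat_lit 0x7ff6f362e) (nat_lit 538736412)]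
noncomputable def e11_6 : List Rx := [
  Rx.mk (nat_lit 152) (nat_lit 0) (nat_lit 3) (nat_lit 2) (nat_lit 6) (nat_lit 21) (nat_lit 54) r5_21 r3_54 (nat_lit 10455) (nat_lit 0) (nat_lit 0) (nat_lit 0x8008c36ba) (nat_lit 536361367),
  Rx.mk (nat_lit 155) (nat_lit 3) (nat_lit 3) (nat_lit 2) (nat_lit 7) (nat_lit 24) (nat_lit 55) r5_24 r3_55 (nat_lit 0) (nat_lit 0) (nat_lit 0) (nat_lit 0x74ad72000) (nat_lit 720619462),
  Rx.mk (nat_lit 187) (nat_lit 3) (nat_lit 7) (nat_lit 2) (nat_lit 7) (nat_lit 26) (nat_lit 50) r5_26 r3_50 (nat_lit 0) (nat_lit 0) (nat_lit 0) (nat_lit 0x7f169299a) (nat_lit 552155012),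
  Rx.mk (nat_lit 274) (nat_lit 2) (nat_lit 2) (nat_lit 4) (nat_lit 3) (nat_lit 17) (nat_lit 59) r5_17 r3_59 (nat_lit 0) (nat_lit 0) (nat_lit 16744) (nat_lit 0x750724bf2) (nat_lit 714320356),
  Rx.mk (nat_lit 278) (nat_lit 6) (nat_lit 2) (nat_lit 4) (nat_lit 3) (nat_lit 19) (nat_lit 57) r5_19 r3_57 (nat_lit 0) (nat_lit 0) (nat_lit 189369) (nat_lit 0x726ece4ea) (nat_lit 756498431),
  Rx.mk (nat_lit 386) (nat_lit 2) (nat_lit 0) (nat_lit 6) (nat_lit 5) (nat_lit 16) (nat_lit 52) r5_16 r3_52 (nat_lit 0) (nat_lit 221843) (nat_lit 0) (nat_lit 0x79aa7fb2c) (nat_lit 639578955),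
  Rx.mk (nat_lit 402) (nat_lit 2) (nat_lit 2) (nat_lit 6) (nat_lit 7) (nat_lit 18) (nat_lit 60) r5_18 r3_60 (nat_lit 0) (nat_lit 0) (nat_lit 0) (nat_lit 0x7a87b5e10) (nat_lit 626124662),
  Rx.mk (nat_lit 408) (nat_lit 0) (nat_lit 3) (nat_lit 6) (nat_lit 6) (nat_lit 22) (nat_lit 53) r5_22 r3_53 (nat_lit 101429) (nat_lit 0) (nat_lit 0) (nat_lit 0x75fc83cd8) (nat_lit 698920341),
  Rx.mk (nat_lit 410) (nat_lit 2) (nat_lit 3) (nat_lit 6) (nat_lit 7) (nat_lit 23) (nat_lit 56) r5_23 r3_56 (nat_lit 0) (nat_lit 0) (nat_lit 0) (nat_lit 0x8fbafdd30) (nat_lit 297369762),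
  Rx.mk (nat_lit 470) (nat_lit 6) (nat_lit 2) (nat_lit 7) (nat_lit 7) (nat_lit 20) (nat_lit 58) r5_20 r3_58 (nat_lit 0) (nat_lit 0) (nat_lit 0) (nat_lit 0x8463a3ca2) (nat_lit 470475612),
  Rx.mk (nat_lit 502) (nat_lit 6) (nat_lit 6) (nat_lit 7) (nat_lit 7) (nat_lit 25) (nat_lit 51) r5_25 r3_51 (nat_lit 0) (nat_lit 0) (nat_lit 0) (nat_lit 0x6ac4b35b6) (nat_lit 880256562)]
noncomputable def e11_7 : List Rx := [
  Rx.mk (nat_lit 274) (nat_lit 2) (nat_lit 2) (nat_lit 4) (nat_lit 3) (nat_lit 1) (nat_lit 69) r5_1 r0_69 (nat_lit 0) (nat_lit 0) (nat_lit 3947515) (nat_lit 0x65de79e82) (nat_lit 963893527),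
  Rx.mk (nat_lit 278) (nat_lit 6) (nat_lit 2) (nat_lit 4) (nat_lit 3) (nat_lit 3) (nat_lit 68) r5_3 r0_68 (nat_lit 0) (nat_lit 0) (nat_lit 2967474) (nat_lit 0x6ee61820c) (nat_lit 816847386),
  Rx.mk (nat_lit 310) (nat_lit 6) (nat_lit 6) (nat_lit 4) (nat_lit 3) (nat_lit 4) (nat_lit 65) r5_4 r0_65 (nat_lit 0) (nat_lit 0) (nat_lit 5300773) (nat_lit 0x744841172) (nat_lit 732209835),
  Rx.mk (nat_lit 386) (nat_lit 2) (nat_lit 0) (nat_lit 6) (nat_lit 5) (nat_lit 0) (nat_lit 67) r5_0 r0_67 (nat_lit 0) (nat_lit 3027604) (nat_lit 0) (nat_lit 0x6b9390500) (nat_lit 870600266),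
  Rx.mk (nat_lit 402) (nat_lit 2) (nat_lit 2) (nat_lit 6) (nat_lit 7) (nat_lit 2) (nat_lit 70) r5_2 r0_70 (nat_lit 0) (nat_lit 0) (nat_lit 0) (nat_lit 0x7d9d38000) (nat_lit 576358762),
  Rx.mk (nat_lit 502) (nat_lit 6) (nat_lit 6) (nat_lit 7) (nat_lit 7) (nat_lit 5) (nat_lit 66) r5_5 r0_66 (nat_lit 0) (nat_lit 0) (nat_lit 0) (nat_lit 0x7e757e964) (nat_lit 562790112)]
noncomputable def e11_8 : List Rx := [
  Rx.mk (nat_lit 274) (nat_lit 2) (nat_lit 2) (nat_lit 4) (nat_lit 3) (nat_lit 6) (nat_lit 63) r5_6 r1_63 (nat_lit 0) (nat_lit 0) (nat_lit 10795266) (nat_lit 0x6d3a97438) (nat_lit 851857228),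
  Rx.mk (nat_lit 278) (nat_lit 6) (nat_lit 2) (nat_lit 4) (nat_lit 3) (nat_lit 9) (nat_lit 61) r5_9 r1_61 (nat_lit 0) (nat_lit 0) (nat_lit 3702159) (nat_lit 0x6eab69304) (nat_lit 821330421),
  Rx.mk (nat_lit 310) (nat_lit 6) (nat_lit 6) (nat_lit 4) (nat_lit 3) (nat_lit 11) (nat_lit 58) r5_11 r1_58 (nat_lit 0) (nat_lit 0) (nat_lit 6051545) (nat_lit 0x72f5acc5a) (nat_lit 754383857),
  Rx.mk (nat_lit 338) (nat_lit 2) (nat_lit 2) (nat_lit 5) (nat_lit 7) (nat_lit 7) (nat_lit 64) r5_7 r1_64 (nat_lit 0) (nat_lit 0) (nat_lit 0) (nat_lit 0x8038a520c) (nat_lit 534837962),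
  Rx.mk (nat_lit 342) (nat_lit 6) (nat_lit 2) (nat_lit 5) (nat_lit 7) (nat_lit 10) (nat_lit 62) r5_10 r1_62 (nat_lit 0) (nat_lit 0) (nat_lit 0) (nat_lit 0x8270dea40) (nat_lit 500473562),
  Rx.mk (nat_lit 374) (nat_lit 6) (nat_lit 6) (nat_lit 5) (nat_lit 7) (nat_lit 12) (nat_lit 59) r5_12 r1_59 (nat_lit 0) (nat_lit 0) (nat_lit 0) (nat_lit 0x814d8e96a) (nat_lit 517942162),
  Rx.mk (nat_lit 402) (nat_lit 2) (nat_lit 2) (nat_lit 6) (nat_lit 7) (nat_lit 8) (nat_lit 65) r5_8 r1_65 (nat_lit 0) (nat_lit 0) (nat_lit 0) (nat_lit 0x8009d4658) (nat_lit 537721562),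
  Rx.mk (nat_lit 502) (nat_lit 6) (nat_lit 6) (nat_lit 7) (nat_lit 7) (nat_lit 13) (nat_lit 60) r5_13 r1_60 (nat_lit 0) (nat_lit 0) (nat_lit 0) (nat_lit 0x7fe62a1bc) (nat_lit 539838662)]
noncomputable def e11_9 : List Rx := [
  Rx.mk (nat_lit 274) (nat_lit 2) (nat_lit 2) (nat_lit 4) (nat_lit 3) (nat_lit 28) (nat_lit 63) r5_28 r4_63 (nat_lit 0) (nat_lit 0) (nat_lit 8135991) (nat_lit 0x79057fe38) (nat_lit 658530703),
  Rx.mk (nat_lit 278) (nat_lit 6) (nat_lit 2) (nat_lit 4) (nat_lit 3) (nat_lit 30) (nat_lit 61) r5_30 r4_61 (nat_lit 0) (nat_lit 0) (nat_lit 2696286) (nat_lit 0x7ed2b6d5c) (nat_lit 559201548),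
  Rx.mk (nat_lit 386) (nat_lit 2) (nat_lit 0) (nat_lit 6) (nat_lit 5) (nat_lit 27) (nat_lit 59) r5_27 r4_59 (nat_lit 0) (nat_lit 6174630) (nat_lit 0) (nat_lit 0x7de1761fe) (nat_lit 578007592),
  Rx.mk (nat_lit 402) (nat_lit 2) (nat_lit 2) (nat_lit 6) (nat_lit 7) (nat_lit 29) (nat_lit 64) r5_29 r4_64 (nat_lit 0) (nat_lit 0) (nat_lit 0) (nat_lit 0x80009fe20) (nat_lit 538237112),
  Rx.mk (nat_lit 410) (nat_lit 2) (nat_lit 3) (nat_lit 6) (nat_lit 7) (nat_lit 32) (nat_lit 60) r5_32 r4_60 (nat_lit 0) (nat_lit 0) (nat_lit 0) (nat_lit 0x80483a47e) (nat_lit 532926012),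
  Rx.mk (nat_lit 470) (nat_lit 6) (nat_lit 2) (nat_lit 7) (nat_lit 7) (nat_lit 31) (nat_lit 62) r5_31 r4_62 (nat_lit 0) (nat_lit 0) (nat_lit 0) (nat_lit 0x80e735e2a) (nat_lit 524112462),
  Rx.mk (nat_lit 502) (nat_lit 6) (nat_lit 6) (nat_lit 7) (nat_lit 7) (nat_lit 33) (nat_lit 58) r5_33 r4_58 (nat_lit 0) (nat_lit 0) (nat_lit 0) (nat_lit 0x7f5b0655e) (nat_lit 548352312)]
noncomputable def e11_10 : List Rx := [
  Rx.mk (nat_lit 39) (nat_lit 7) (nat_lit 4) (nat_lit 0) (nat_lit 1) (nat_lit 70) (nat_lit 90) r5_70 r6_90 (nat_lit 0) (nat_lit 214613) (nat_lit 151381) (nat_lit 0x7f84aacac) (nat_lit 545085756),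
  Rx.mk (nat_lit 55) (nat_lit 7) (nat_lit 6) (nat_lit 0) (nat_lit 3) (nat_lit 75) (nat_lit 95) r5_75 r6_95 (nat_lit 0) (nat_lit 0) (nat_lit 506970) (nat_lit 0x8036353fa) (nat_lit 534398782),
  Rx.mk (nat_lit 63) (nat_lit 7) (nat_lit 7) (nat_lit 0) (nat_lit 3) (nat_lit 78) (nat_lit 93) r5_78 r6_93 (nat_lit 0) (nat_lit 0) (nat_lit 14912566) (nat_lit 0x7ad02e7c8) (nat_lit 636403678),
  Rx.mk (nat_lit 167) (nat_lit 7) (nat_lit 4) (nat_lit 2) (nat_lit 5) (nat_lit 71) (nat_lit 92) r5_71 r6_92 (nat_lit 0) (nat_lit 5517824) (nat_lit 0) (nat_lit 0x80fe04cf0) (nat_lit 528080236),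
  Rx.mk (nat_lit 187) (nat_lit 3) (nat_lit 7) (nat_lit 2) (nat_lit 7) (nat_lit 77) (nat_lit 88) r5_77 r6_88 (nat_lit 0) (nat_lit 0) (nat_lit 0) (nat_lit 0x7adbdb5da) (nat_lit 620253362),
  Rx.mk (nat_lit 191) (nat_lit 7) (nat_lit 7) (nat_lit 2) (nat_lit 7) (nat_lit 79) (nat_lit 94) r5_79 r6_94 (nat_lit 0) (nat_lit 0) (nat_lit 0) (nat_lit 0x7df8696ea) (nat_lit 570525862),
  Rx.mk (nat_lit 231) (nat_lit 7) (nat_lit 4) (nat_lit 3) (nat_lit 5) (nat_lit 72) (nat_lit 91) r5_72 r6_91 (nat_lit 0) (nat_lit 7478372) (nat_lit 0) (nat_lit 0x7e7bc2848) (nat_lit 569688734),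
  Rx.mk (nat_lit 244) (nat_lit 4) (nat_lit 6) (nat_lit 3) (nat_lit 6) (nat_lit 73) (nat_lit 89) r5_73 r6_89 (nat_lit 6235362) (nat_lit 0) (nat_lit 0) (nat_lit 0x7e4c9eb16) (nat_lit 571302074),
  Rx.mk (nat_lit 246) (nat_lit 6) (nat_lit 6) (nat_lit 3) (nat_lit 7) (nat_lit 74) (nat_lit 97) r5_74 r6_97 (nat_lit 0) (nat_lit 0) (nat_lit 0) (nat_lit 0x7ffe6318e) (nat_lit 538324412),
  Rx.mk (nat_lit 247) (nat_lit 7) (nat_lit 6) (nat_lit 3) (nat_lit 7) (nat_lit 76) (nat_lit 96) r5_76 r6_96 (nat_lit 0) (nat_lit 0) (nat_lit 0) (nat_lit 0x8de7568e8) (nat_lit 325388962)]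
noncomputable def e11_11 : List Rx := [
  Rx.mk (nat_lit 63) (nat_lit 7) (nat_lit 7) (nat_lit 0) (nat_lit 3) (nat_lit 49) (nat_lit 35) r5_49 r5_35 (nat_lit 0) (nat_lit 0) (nat_lit 60765) (nat_lit 0x613d6daec) (nat_lit 1034367827),
  Rx.mk (nat_lit 155) (nat_lit 3) (nat_lit 3) (nat_lit 2) (nat_lit 7) (nat_lit 41) (nat_lit 46) r5_41 r5_46 (nat_lit 0) (nat_lit 0) (nat_lit 0) (nat_lit 0x69d8ee522) (nat_lit 895187012),
  Rx.mk (nat_lit 187) (nat_lit 3) (nat_lit 7) (nat_lit 2) (nat_lit 7) (nat_lit 48) (nat_lit 38) r5_48 r5_38 (nat_lit 0) (nat_lit 0) (nat_lit 0) (nat_lit 0x71216a11e) (nat_lit 777371612),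
  Rx.mk (nat_lit 191) (nat_lit 7) (nat_lit 7) (nat_lit 2) (nat_lit 7) (nat_lit 50) (nat_lit 37) r5_50 r5_37 (nat_lit 0) (nat_lit 0) (nat_lit 0) (nat_lit 0x7bbed4a8a) (nat_lit 606336812),
  Rx.mk (nat_lit 231) (nat_lit 7) (nat_lit 4) (nat_lit 3) (nat_lit 5) (nat_lit 43) (nat_lit 34) r5_43 r5_34 (nat_lit 0) (nat_lit 7782) (nat_lit 0) (nat_lit 0x7fffb2940) (nat_lit 536903144),
  Rx.mk (nat_lit 244) (nat_lit 4) (nat_lit 6) (nat_lit 3) (nat_lit 6) (nat_lit 44) (nat_lit 39) r5_44 r5_39 (nat_lit 95224) (nat_lit 0) (nat_lit 0) (nat_lit 0x657b91806) (nat_lit 965803786),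
  Rx.mk (nat_lit 246) (nat_lit 6) (nat_lit 6) (nat_lit 3) (nat_lit 7) (nat_lit 45) (nat_lit 42) r5_45 r5_42 (nat_lit 0) (nat_lit 0) (nat_lit 0) (nat_lit 0x84d140d82) (nat_lit 463855312),
  Rx.mk (nat_lit 247) (nat_lit 7) (nat_lit 6) (nat_lit 3) (nat_lit 7) (nat_lit 47) (nat_lit 40) r5_47 r5_40 (nat_lit 0) (nat_lit 0) (nat_lit 0) (nat_lit 0x9c18cb802) (nat_lit 108391362),
  Rx.mk (nat_lit 255) (nat_lit 7) (nat_lit 7) (nat_lit 3) (nat_lit 7) (nat_lit 51) (nat_lit 36) r5_51 r5_36 (nat_lit 0) (nat_lit 0) (nat_lit 0) (nat_lit 0x7cdc412e8) (nat_lit 588411612),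
  Rx.mk (nat_lit 274) (nat_lit 2) (nat_lit 2) (nat_lit 4) (nat_lit 3) (nat_lit 35) (nat_lit 49) r5_35 r5_49 (nat_lit 0) (nat_lit 0) (nat_lit 60765) (nat_lit 0x613d6daec) (nat_lit 1034367827),
  Rx.mk (nat_lit 386) (nat_lit 2) (nat_lit 0) (nat_lit 6) (nat_lit 5) (nat_lit 34) (nat_lit 43) r5_34 r5_43 (nat_lit 0) (nat_lit 7782) (nat_lit 0) (nat_lit 0x7fffb2940) (nat_lit 536903144),
  Rx.mk (nat_lit 402) (nat_lit 2) (nat_lit 2) (nat_lit 6) (nat_lit 7) (nat_lit 36) (nat_lit 51) r5_36 r5_51 (nat_lit 0) (nat_lit 0) (nat_lit 0) (nat_lit 0x7cdc412e8) (nat_lit 588411612),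
  Rx.mk (nat_lit 408) (nat_lit 0) (nat_lit 3) (nat_lit 6) (nat_lit 6) (nat_lit 39) (nat_lit 44) r5_39 r5_44 (nat_lit 95224) (nat_lit 0) (nat_lit 0) (nat_lit 0x657b91806) (nat_lit 965803786),
  Rx.mk (nat_lit 410) (nat_lit 2) (nat_lit 3) (nat_lit 6) (nat_lit 7) (nat_lit 40) (nat_lit 47) r5_40 r5_47 (nat_lit 0) (nat_lit 0) (nat_lit 0) (nat_lit 0x9c18cb802) (nat_lit 108391362),
  Rx.mk (nat_lit 411) (nat_lit 3) (nat_lit 3) (nat_lit 6) (nat_lit 7) (nat_lit 42) (nat_lit 45) r5_42 r5_45 (nat_lit 0) (nat_lit 0) (nat_lit 0) (nat_lit 0x84d140d82) (nat_lit 463855312),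
  Rx.mk (nat_lit 466) (nat_lit 2) (nat_lit 2) (nat_lit 7) (nat_lit 7) (nat_lit 37) (nat_lit 50) r5_37 r5_50 (nat_lit 0) (nat_lit 0) (nat_lit 0) (nat_lit 0x7bbed4a8a) (nat_lit 606336812),
  Rx.mk (nat_lit 470) (nat_lit 6) (nat_lit 2) (nat_lit 7) (nat_lit 7) (nat_lit 38) (nat_lit 48) r5_38 r5_48 (nat_lit 0) (nat_lit 0) (nat_lit 0) (nat_lit 0x71216a11e) (nat_lit 777371612),
  Rx.mk (nat_lit 502) (nat_lit 6) (nat_lit 6) (nat_lit 7) (nat_lit 7) (nat_lit 46) (nat_lit 41) r5_46 r5_41 (nat_lit 0) (nat_lit 0) (nat_lit 0) (nat_lit 0x69d8ee522) (nat_lit 895187012)]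
noncomputable def e11_12 : List Rx := [
  Rx.mk (nat_lit 36) (nat_lit 4) (nat_lit 4) (nat_lit 0) (nat_lit 0) (nat_lit 152) (nat_lit 330) r5_152 r0_330 (nat_lit 4746) (nat_lit 246635775) (nat_lit 4295) (nat_lit 0x7ffebcf68) (nat_lit 783597078),
  Rx.mk (nat_lit 37) (nat_lit 5) (nat_lit 4) (nat_lit 0) (nat_lit 1) (nat_lit 155) (nat_lit 331) r5_155 r0_331 (nat_lit 0) (nat_lit 12431881) (nat_lit 18467620) (nat_lit 0x77229ca54) (nat_lit 711720913),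
  Rx.mk (nat_lit 52) (nat_lit 4) (nat_lit 6) (nat_lit 0) (nat_lit 2) (nat_lit 158) (nat_lit 332) r5_158 r0_332 (nat_lit 9046091) (nat_lit 0) (nat_lit 9515140) (nat_lit 0x640679402) (nat_lit 1008402593),
  Rx.mk (nat_lit 53) (nat_lit 5) (nat_lit 6) (nat_lit 0) (nat_lit 3) (nat_lit 160) (nat_lit 333) r5_160 r0_333 (nat_lit 0) (nat_lit 0) (nat_lit 20486354) (nat_lit 0x7e13133ec) (nat_lit 589334166),
  Rx.mk (nat_lit 54) (nat_lit 6) (nat_lit 6) (nat_lit 0) (nat_lit 3) (nat_lit 162) (nat_lit 334) r5_162 r0_334 (nat_lit 0) (nat_lit 0) (nat_lit 25423219) (nat_lit 0x71dceb686) (nat_lit 791634281),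
  Rx.mk (nat_lit 100) (nat_lit 4) (nat_lit 4) (nat_lit 1) (nat_lit 4) (nat_lit 153) (nat_lit 335) r5_153 r0_335 (nat_lit 7966129) (nat_lit 72835185) (nat_lit 0) (nat_lit 0x768dbcfb0) (nat_lit 771020776),
  Rx.mk (nat_lit 101) (nat_lit 5) (nat_lit 4) (nat_lit 1) (nat_lit 5) (nat_lit 156) (nat_lit 336) r5_156 r0_336 (nat_lit 0) (nat_lit 32356529) (nat_lit 0) (nat_lit 0x7e416a34e) (nat_lit 598396941),
  Rx.mk (nat_lit 116) (nat_lit 4) (nat_lit 6) (nat_lit 1) (nat_lit 6) (nat_lit 159) (nat_lit 337) r5_159 r0_337 (nat_lit 15727667) (nat_lit 0) (nat_lit 0) (nat_lit 0x785988350) (nat_lit 677032129),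
  Rx.mk (nat_lit 117) (nat_lit 5) (nat_lit 6) (nat_lit 1) (nat_lit 7) (nat_lit 161) (nat_lit 338) r5_161 r0_338 (nat_lit 0) (nat_lit 0) (nat_lit 0) (nat_lit 0x7f6c75efc) (nat_lit 547366462),
  Rx.mk (nat_lit 118) (nat_lit 6) (nat_lit 6) (nat_lit 1) (nat_lit 7) (nat_lit 163) (nat_lit 339) r5_163 r0_339 (nat_lit 0) (nat_lit 0) (nat_lit 0) (nat_lit 0x804d1b93e) (nat_lit 533580312),
  Rx.mk (nat_lit 164) (nat_lit 4) (nat_lit 4) (nat_lit 2) (nat_lit 4) (nat_lit 154) (nat_lit 340) r5_154 r0_340 (nat_lit 2248887) (nat_lit 43528741) (nat_lit 0) (nat_lit 0x7781485e4) (nat_lit 720358340),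
  Rx.mk (nat_lit 165) (nat_lit 5) (nat_lit 4) (nat_lit 2) (nat_lit 5) (nat_lit 157) (nat_lit 341) r5_157 r0_341 (nat_lit 0) (nat_lit 4283816) (nat_lit 0) (nat_lit 0x76dca6428) (nat_lit 689405378)]
noncomputable def e11_13 : List Rx := [
  Rx.mk (nat_lit 100) (nat_lit 4) (nat_lit 4) (nat_lit 1) (nat_lit 4) (nat_lit 184) (nat_lit 88) r5_184 r7_88 (nat_lit 5813795) (nat_lit 21504054) (nat_lit 0) (nat_lit 0x686efd894) (nat_lit 945833261),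
  Rx.mk (nat_lit 101) (nat_lit 5) (nat_lit 4) (nat_lit 1) (nat_lit 5) (nat_lit 185) (nat_lit 90) r5_185 r7_90 (nat_lit 0) (nat_lit 24741287) (nat_lit 0) (nat_lit 0x7fd363f88) (nat_lit 565797099),
  Rx.mk (nat_lit 116) (nat_lit 4) (nat_lit 6) (nat_lit 1) (nat_lit 6) (nat_lit 186) (nat_lit 89) r5_186 r7_89 (nat_lit 6741966) (nat_lit 0) (nat_lit 0) (nat_lit 0x7f4734e86) (nat_lit 556141628),
  Rx.mk (nat_lit 117) (nat_lit 5) (nat_lit 6) (nat_lit 1) (nat_lit 7) (nat_lit 187) (nat_lit 91) r5_187 r7_91 (nat_lit 0) (nat_lit 0) (nat_lit 0) (nat_lit 0x812b94fb2) (nat_lit 520035912),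
  Rx.mk (nat_lit 118) (nat_lit 6) (nat_lit 6) (nat_lit 1) (nat_lit 7) (nat_lit 188) (nat_lit 92) r5_188 r7_92 (nat_lit 0) (nat_lit 0) (nat_lit 0) (nat_lit 0x8017985b4) (nat_lit 536870912)]
noncomputable def e11_14 : List Rx := [
  Rx.mk (nat_lit 37) (nat_lit 5) (nat_lit 4) (nat_lit 0) (nat_lit 1) (nat_lit 164) (nat_lit 311) r5_164 r1_311 (nat_lit 0) (nat_lit 8816353) (nat_lit 14978700) (nat_lit 0x6ec49af3a) (nat_lit 839845015),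
  Rx.mk (nat_lit 53) (nat_lit 5) (nat_lit 6) (nat_lit 0) (nat_lit 3) (nat_lit 167) (nat_lit 312) r5_167 r1_312 (nat_lit 0) (nat_lit 0) (nat_lit 20400359) (nat_lit 0x8039ecd5e) (nat_lit 555033421),
  Rx.mk (nat_lit 101) (nat_lit 5) (nat_lit 4) (nat_lit 1) (nat_lit 5) (nat_lit 165) (nat_lit 313) r5_165 r1_313 (nat_lit 0) (nat_lit 20314026) (nat_lit 0) (nat_lit 0x80db604a6) (nat_lit 545190438),
  Rx.mk (nat_lit 117) (nat_lit 5) (nat_lit 6) (nat_lit 1) (nat_lit 7) (nat_lit 168) (nat_lit 314) r5_168 r1_314 (nat_lit 0) (nat_lit 0) (nat_lit 0) (nat_lit 0x8095f8012) (nat_lit 529083662),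
  Rx.mk (nat_lit 165) (nat_lit 5) (nat_lit 4) (nat_lit 2) (nat_lit 5) (nat_lit 166) (nat_lit 315) r5_166 r1_315 (nat_lit 0) (nat_lit 6296235) (nat_lit 0) (nat_lit 0x7df201f0a) (nat_lit 577066447)]
noncomputable def e11_15 : List Rx := [
  Rx.mk (nat_lit 101) (nat_lit 5) (nat_lit 4) (nat_lit 1) (nat_lit 5) (nat_lit 189) (nat_lit 74) r5_189 r8_74 (nat_lit 0) (nat_lit 17765140) (nat_lit 0) (nat_lit 0x7ff74602c) (nat_lit 556578502),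
  Rx.mk (nat_lit 117) (nat_lit 5) (nat_lit 6) (nat_lit 1) (nat_lit 7) (nat_lit 190) (nat_lit 75) r5_190 r8_75 (nat_lit 0) (nat_lit 0) (nat_lit 0) (nat_lit 0x80b32653a) (nat_lit 527341762)]
noncomputable def e11_16 : List Rx := [
  Rx.mk (nat_lit 100) (nat_lit 4) (nat_lit 4) (nat_lit 1) (nat_lit 4) (nat_lit 191) (nat_lit 362) r5_191 r8_362 (nat_lit 13579307) (nat_lit 40282511) (nat_lit 0) (nat_lit 0x676dbd25a) (nat_lit 988710430),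
  Rx.mk (nat_lit 101) (nat_lit 5) (nat_lit 4) (nat_lit 1) (nat_lit 5) (nat_lit 192) (nat_lit 363) r5_192 r8_363 (nat_lit 0) (nat_lit 24741287) (nat_lit 0) (nat_lit 0x7fc98e4ea) (nat_lit 566401349),
  Rx.mk (nat_lit 116) (nat_lit 4) (nat_lit 6) (nat_lit 1) (nat_lit 6) (nat_lit 193) (nat_lit 364) r5_193 r8_364 (nat_lit 26008793) (nat_lit 0) (nat_lit 0) (nat_lit 0x78bef927a) (nat_lit 680926905),
  Rx.mk (nat_lit 117) (nat_lit 5) (nat_lit 6) (nat_lit 1) (nat_lit 7) (nat_lit 194) (nat_lit 365) r5_194 r8_365 (nat_lit 0) (nat_lit 0) (nat_lit 0) (nat_lit 0x8017985b4) (nat_lit 536870912),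
  Rx.mk (nat_lit 118) (nat_lit 6) (nat_lit 6) (nat_lit 1) (nat_lit 7) (nat_lit 195) (nat_lit 366) r5_195 r8_366 (nat_lit 0) (nat_lit 0) (nat_lit 0) (nat_lit 0x7f79cc664) (nat_lit 546583312),
  Rx.mk (nat_lit 374) (nat_lit 6) (nat_lit 6) (nat_lit 5) (nat_lit 7) (nat_lit 196) (nat_lit 361) r5_196 r8_361 (nat_lit 0) (nat_lit 0) (nat_lit 0) (nat_lit 0x8017985b4) (nat_lit 536870912)]
noncomputable def e11_17 : List Rx := [
  Rx.mk (nat_lit 342) (nat_lit 6) (nat_lit 2) (nat_lit 5) (nat_lit 7) (nat_lit 150) (nat_lit 63) r5_150 r9_63 (nat_lit 0) (nat_lit 0) (nat_lit 0) (nat_lit 0x8017985b4) (nat_lit 536870912),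
  Rx.mk (nat_lit 374) (nat_lit 6) (nat_lit 6) (nat_lit 5) (nat_lit 7) (nat_lit 151) (nat_lit 64) r5_151 r9_64 (nat_lit 0) (nat_lit 0) (nat_lit 0) (nat_lit 0x7ffc47724) (nat_lit 538543512)]
noncomputable def e11_18 : List Rx := [
  Rx.mk (nat_lit 36) (nat_lit 4) (nat_lit 4) (nat_lit 0) (nat_lit 0) (nat_lit 169) (nat_lit 366) r5_169 r4_366 (nat_lit 841617) (nat_lit 2737427) (nat_lit 1433235) (nat_lit 0x61d7dcea2) (nat_lit 1029758991),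
  Rx.mk (nat_lit 37) (nat_lit 5) (nat_lit 4) (nat_lit 0) (nat_lit 1) (nat_lit 172) (nat_lit 367) r5_172 r4_367 (nat_lit 0) (nat_lit 38663507) (nat_lit 31203347) (nat_lit 0x74de6bf62) (nat_lit 787491166),
  Rx.mk (nat_lit 39) (nat_lit 7) (nat_lit 4) (nat_lit 0) (nat_lit 1) (nat_lit 174) (nat_lit 368) r5_174 r4_368 (nat_lit 0) (nat_lit 174408130) (nat_lit 5546147) (nat_lit 0x790afe648) (nat_lit 829916089),
  Rx.mk (nat_lit 52) (nat_lit 4) (nat_lit 6) (nat_lit 0) (nat_lit 2) (nat_lit 177) (nat_lit 369) r5_177 r4_369 (nat_lit 4717590) (nat_lit 0) (nat_lit 5283235) (nat_lit 0x752a4ab54) (nat_lit 722606187),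
  Rx.mk (nat_lit 53) (nat_lit 5) (nat_lit 6) (nat_lit 0) (nat_lit 3) (nat_lit 179) (nat_lit 370) r5_179 r4_370 (nat_lit 0) (nat_lit 0) (nat_lit 12656058) (nat_lit 0x8088cb0ec) (nat_lit 542545370),
  Rx.mk (nat_lit 54) (nat_lit 6) (nat_lit 6) (nat_lit 0) (nat_lit 3) (nat_lit 180) (nat_lit 372) r5_180 r4_372 (nat_lit 0) (nat_lit 0) (nat_lit 26071718) (nat_lit 0x7c450e86c) (nat_lit 624104680),
  Rx.mk (nat_lit 55) (nat_lit 7) (nat_lit 6) (nat_lit 0) (nat_lit 3) (nat_lit 182) (nat_lit 371) r5_182 r4_371 (nat_lit 0) (nat_lit 0) (nat_lit 11445764) (nat_lit 0x81403787a) (nat_lit 530241476),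
  Rx.mk (nat_lit 100) (nat_lit 4) (nat_lit 4) (nat_lit 1) (nat_lit 4) (nat_lit 170) (nat_lit 373) r5_170 r4_373 (nat_lit 11320658) (nat_lit 159956814) (nat_lit 0) (nat_lit 0x7afbd0750) (nat_lit 789998334),
  Rx.mk (nat_lit 103) (nat_lit 7) (nat_lit 4) (nat_lit 1) (nat_lit 5) (nat_lit 175) (nat_lit 374) r5_175 r4_374 (nat_lit 0) (nat_lit 141819368) (nat_lit 0) (nat_lit 0x7fe1dc33a) (nat_lit 681820880),
  Rx.mk (nat_lit 116) (nat_lit 4) (nat_lit 6) (nat_lit 1) (nat_lit 6) (nat_lit 178) (nat_lit 375) r5_178 r4_375 (nat_lit 10292378) (nat_lit 0) (nat_lit 0) (nat_lit 0x80631e6c8) (nat_lit 542489390),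
  Rx.mk (nat_lit 118) (nat_lit 6) (nat_lit 6) (nat_lit 1) (nat_lit 7) (nat_lit 181) (nat_lit 377) r5_181 r4_377 (nat_lit 0) (nat_lit 0) (nat_lit 0) (nat_lit 0x80414fb1e) (nat_lit 534304462),
  Rx.mk (nat_lit 119) (nat_lit 7) (nat_lit 6) (nat_lit 1) (nat_lit 7) (nat_lit 183) (nat_lit 376) r5_183 r4_376 (nat_lit 0) (nat_lit 0) (nat_lit 0) (nat_lit 0x80cd61346) (nat_lit 525749862),
  Rx.mk (nat_lit 164) (nat_lit 4) (nat_lit 4) (nat_lit 2) (nat_lit 4) (nat_lit 171) (nat_lit 378) r5_171 r4_378 (nat_lit 24206208) (nat_lit 58076158) (nat_lit 0) (nat_lit 0x78ad82f82) (nat_lit 738299028),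
  Rx.mk (nat_lit 165) (nat_lit 5) (nat_lit 4) (nat_lit 2) (nat_lit 5) (nat_lit 173) (nat_lit 379) r5_173 r4_379 (nat_lit 0) (nat_lit 24741287) (nat_lit 0) (nat_lit 0x8017985b4) (nat_lit 561612199),
  Rx.mk (nat_lit 167) (nat_lit 7) (nat_lit 4) (nat_lit 2) (nat_lit 5) (nat_lit 176) (nat_lit 380) r5_176 r4_380 (nat_lit 0) (nat_lit 26164324) (nat_lit 0) (nat_lit 0x80999346a) (nat_lit 555052536)]
noncomputable def e11_19 : List Rx := [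
  Rx.mk (nat_lit 100) (nat_lit 4) (nat_lit 4) (nat_lit 1) (nat_lit 4) (nat_lit 197) (nat_lit 72) r5_197 r10_72 (nat_lit 4889214) (nat_lit 11835146) (nat_lit 0) (nat_lit 0x6ab7fa806) (nat_lit 898281722),
  Rx.mk (nat_lit 103) (nat_lit 7) (nat_lit 4) (nat_lit 1) (nat_lit 5) (nat_lit 198) (nat_lit 74) r5_198 r10_74 (nat_lit 0) (nat_lit 24741287) (nat_lit 0) (nat_lit 0x7fb2f649e) (nat_lit 567798249),
  Rx.mk (nat_lit 116) (nat_lit 4) (nat_lit 6) (nat_lit 1) (nat_lit 6) (nat_lit 199) (nat_lit 73) r5_199 r10_73 (nat_lit 5323301) (nat_lit 0) (nat_lit 0) (nat_lit 0x821784ed6) (nat_lit 511046163),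
  Rx.mk (nat_lit 118) (nat_lit 6) (nat_lit 6) (nat_lit 1) (nat_lit 7) (nat_lit 200) (nat_lit 76) r5_200 r10_76 (nat_lit 0) (nat_lit 0) (nat_lit 0) (nat_lit 0x8017985b4) (nat_lit 536870912),
  Rx.mk (nat_lit 119) (nat_lit 7) (nat_lit 6) (nat_lit 1) (nat_lit 7) (nat_lit 201) (nat_lit 75) r5_201 r10_75 (nat_lit 0) (nat_lit 0) (nat_lit 0) (nat_lit 0x80ff5f960) (nat_lit 522714412)]
noncomputable def e11_20 : List Rx := [
  Rx.mk (nat_lit 36) (nat_lit 4) (nat_lit 4) (nat_lit 0) (nat_lit 0) (nat_lit 202) (nat_lit 68) r5_202 r11_68 (nat_lit 5946457) (nat_lit 23484085) (nat_lit 4773935) (nat_lit 0x49e63d70c) (nat_lit 1446456039),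
  Rx.mk (nat_lit 37) (nat_lit 5) (nat_lit 4) (nat_lit 0) (nat_lit 1) (nat_lit 206) (nat_lit 75) r5_206 r11_75 (nat_lit 0) (nat_lit 41438793) (nat_lit 35682471) (nat_lit 0x752101d04) (nat_lit 790555976),
  Rx.mk (nat_lit 39) (nat_lit 7) (nat_lit 4) (nat_lit 0) (nat_lit 1) (nat_lit 209) (nat_lit 80) r5_209 r11_80 (nat_lit 0) (nat_lit 163052374) (nat_lit 10516416) (nat_lit 0x79e792546) (nat_lit 809704152),
  Rx.mk (nat_lit 52) (nat_lit 4) (nat_lit 6) (nat_lit 0) (nat_lit 2) (nat_lit 212) (nat_lit 72) r5_212 r11_72 (nat_lit 12323810) (nat_lit 0) (nat_lit 8957018) (nat_lit 0x6eeac40b2) (nat_lit 835033290),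
  Rx.mk (nat_lit 53) (nat_lit 5) (nat_lit 6) (nat_lit 0) (nat_lit 3) (nat_lit 215) (nat_lit 78) r5_215 r11_78 (nat_lit 0) (nat_lit 0) (nat_lit 16307770) (nat_lit 0x8072222be) (nat_lit 547606132),
  Rx.mk (nat_lit 54) (nat_lit 6) (nat_lit 6) (nat_lit 0) (nat_lit 3) (nat_lit 217) (nat_lit 88) r5_217 r11_88 (nat_lit 0) (nat_lit 0) (nat_lit 24841657) (nat_lit 0x7dc3688d8) (nat_lit 598810569),
  Rx.mk (nat_lit 55) (nat_lit 7) (nat_lit 6) (nat_lit 0) (nat_lit 3) (nat_lit 220) (nat_lit 86) r5_220 r11_86 (nat_lit 0) (nat_lit 0) (nat_lit 16204149) (nat_lit 0x809309fb8) (nat_lit 545503711),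
  Rx.mk (nat_lit 63) (nat_lit 7) (nat_lit 7) (nat_lit 0) (nat_lit 3) (nat_lit 222) (nat_lit 83) r5_222 r11_83 (nat_lit 0) (nat_lit 0) (nat_lit 20811975) (nat_lit 0x7fde627e0) (nat_lit 561177737),
  Rx.mk (nat_lit 100) (nat_lit 4) (nat_lit 4) (nat_lit 1) (nat_lit 4) (nat_lit 203) (nat_lit 69) r5_203 r11_69 (nat_lit 33768507) (nat_lit 55665677) (nat_lit 0) (nat_lit 0x7ce62247e) (nat_lit 677311396),
  Rx.mk (nat_lit 103) (nat_lit 7) (nat_lit 4) (nat_lit 1) (nat_lit 5) (nat_lit 210) (nat_lit 81) r5_210 r11_81 (nat_lit 0) (nat_lit 24741287) (nat_lit 0) (nat_lit 0x8036bdc00) (nat_lit 559695499),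
  Rx.mk (nat_lit 116) (nat_lit 4) (nat_lit 6) (nat_lit 1) (nat_lit 6) (nat_lit 213) (nat_lit 73) r5_213 r11_73 (nat_lit 18403732) (nat_lit 0) (nat_lit 0) (nat_lit 0x8068f7d2e) (nat_lit 550276494),
  Rx.mk (nat_lit 118) (nat_lit 6) (nat_lit 6) (nat_lit 1) (nat_lit 7) (nat_lit 218) (nat_lit 89) r5_218 r11_89 (nat_lit 0) (nat_lit 0) (nat_lit 0) (nat_lit 0x8017985b4) (nat_lit 536870912),
  Rx.mk (nat_lit 119) (nat_lit 7) (nat_lit 6) (nat_lit 1) (nat_lit 7) (nat_lit 221) (nat_lit 87) r5_221 r11_87 (nat_lit 0) (nat_lit 0) (nat_lit 0) (nat_lit 0x8017985b4) (nat_lit 536870912),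
  Rx.mk (nat_lit 127) (nat_lit 7) (nat_lit 7) (nat_lit 1) (nat_lit 7) (nat_lit 223) (nat_lit 84) r5_223 r11_84 (nat_lit 0) (nat_lit 0) (nat_lit 0) (nat_lit 0x8017985b4) (nat_lit 536870912),
  Rx.mk (nat_lit 164) (nat_lit 4) (nat_lit 4) (nat_lit 2) (nat_lit 4) (nat_lit 204) (nat_lit 71) r5_204 r11_71 (nat_lit 36801253) (nat_lit 60413237) (nat_lit 0) (nat_lit 0x7abb7e684) (nat_lit 720123752),
  Rx.mk (nat_lit 165) (nat_lit 5) (nat_lit 4) (nat_lit 2) (nat_lit 5) (nat_lit 207) (nat_lit 77) r5_207 r11_77 (nat_lit 0) (nat_lit 24741287) (nat_lit 0) (nat_lit 0x8017985b4) (nat_lit 561612199),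
  Rx.mk (nat_lit 167) (nat_lit 7) (nat_lit 4) (nat_lit 2) (nat_lit 5) (nat_lit 211) (nat_lit 82) r5_211 r11_82 (nat_lit 0) (nat_lit 25956094) (nat_lit 0) (nat_lit 0x80019bd60) (nat_lit 564158956),
  Rx.mk (nat_lit 191) (nat_lit 7) (nat_lit 7) (nat_lit 2) (nat_lit 7) (nat_lit 224) (nat_lit 85) r5_224 r11_85 (nat_lit 0) (nat_lit 0) (nat_lit 0) (nat_lit 0x8017985b4) (nat_lit 536870912),
  Rx.mk (nat_lit 228) (nat_lit 4) (nat_lit 4) (nat_lit 3) (nat_lit 4) (nat_lit 205) (nat_lit 70) r5_205 r11_70 (nat_lit 37783563) (nat_lit 43048303) (nat_lit 0) (nat_lit 0x7dabdf81a) (nat_lit 656267928),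
  Rx.mk (nat_lit 229) (nat_lit 5) (nat_lit 4) (nat_lit 3) (nat_lit 5) (nat_lit 208) (nat_lit 76) r5_208 r11_76 (nat_lit 0) (nat_lit 24741287) (nat_lit 0) (nat_lit 0x8017985b4) (nat_lit 561612199),
  Rx.mk (nat_lit 244) (nat_lit 4) (nat_lit 6) (nat_lit 3) (nat_lit 6) (nat_lit 214) (nat_lit 74) r5_214 r11_74 (nat_lit 19699007) (nat_lit 0) (nat_lit 0) (nat_lit 0x7fd8785be) (nat_lit 560420169),
  Rx.mk (nat_lit 245) (nat_lit 5) (nat_lit 6) (nat_lit 3) (nat_lit 7) (nat_lit 216) (nat_lit 79) r5_216 r11_79 (nat_lit 0) (nat_lit 0) (nat_lit 0) (nat_lit 0x8017985b4) (nat_lit 536870912),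
  Rx.mk (nat_lit 246) (nat_lit 6) (nat_lit 6) (nat_lit 3) (nat_lit 7) (nat_lit 219) (nat_lit 90) r5_219 r11_90 (nat_lit 0) (nat_lit 0) (nat_lit 0) (nat_lit 0x8017985b4) (nat_lit 536870912)]
noncomputable def e11_21 : List Rx := [
  Rx.mk (nat_lit 342) (nat_lit 6) (nat_lit 2) (nat_lit 5) (nat_lit 7) (nat_lit 123) (nat_lit 18) r5_123 r9_18 (nat_lit 0) (nat_lit 0) (nat_lit 0) (nat_lit 0x8017985b4) (nat_lit 536870912)]
noncomputable def e11_22 : List Rx := [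
  Rx.mk (nat_lit 128) (nat_lit 0) (nat_lit 0) (nat_lit 2) (nat_lit 4) (nat_lit 94) (nat_lit 204) r5_94 r0_204 (nat_lit 538423) (nat_lit 46998) (nat_lit 0) (nat_lit 0x84bca4798) (nat_lit 465237583),
  Rx.mk (nat_lit 152) (nat_lit 0) (nat_lit 3) (nat_lit 2) (nat_lit 6) (nat_lit 100) (nat_lit 205) r5_100 r0_205 (nat_lit 331782363) (nat_lit 0) (nat_lit 0) (nat_lit 0x7cda33514) (nat_lit 920285625),
  Rx.mk (nat_lit 155) (nat_lit 3) (nat_lit 3) (nat_lit 2) (nat_lit 7) (nat_lit 101) (nat_lit 206) r5_101 r0_206 (nat_lit 0) (nat_lit 0) (nat_lit 0) (nat_lit 0x67513425a) (nat_lit 936576412),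
  Rx.mk (nat_lit 274) (nat_lit 2) (nat_lit 2) (nat_lit 4) (nat_lit 3) (nat_lit 97) (nat_lit 207) r5_97 r0_207 (nat_lit 0) (nat_lit 0) (nat_lit 10938667) (nat_lit 0x6b03cd2ce) (nat_lit 887781329),
  Rx.mk (nat_lit 278) (nat_lit 6) (nat_lit 2) (nat_lit 4) (nat_lit 3) (nat_lit 99) (nat_lit 208) r5_99 r0_208 (nat_lit 0) (nat_lit 0) (nat_lit 9650169) (nat_lit 0x70202c884) (nat_lit 803847431),
  Rx.mk (nat_lit 384) (nat_lit 0) (nat_lit 0) (nat_lit 6) (nat_lit 4) (nat_lit 95) (nat_lit 209) r5_95 r0_209 (nat_lit 20620) (nat_lit 14014) (nat_lit 0) (nat_lit 0x76e524eec) (nat_lit 684143846),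
  Rx.mk (nat_lit 386) (nat_lit 2) (nat_lit 0) (nat_lit 6) (nat_lit 5) (nat_lit 96) (nat_lit 210) r5_96 r0_210 (nat_lit 0) (nat_lit 6178764) (nat_lit 0) (nat_lit 0x7f794ecf0) (nat_lit 552570776),
  Rx.mk (nat_lit 402) (nat_lit 2) (nat_lit 2) (nat_lit 6) (nat_lit 7) (nat_lit 98) (nat_lit 211) r5_98 r0_211 (nat_lit 0) (nat_lit 0) (nat_lit 0) (nat_lit 0x8017985b4) (nat_lit 536870912)]
noncomputable def e11_23 : List Rx := [
  Rx.mk (nat_lit 128) (nat_lit 0) (nat_lit 0) (nat_lit 2) (nat_lit 4) (nat_lit 106) (nat_lit 225) r5_106 r1_225 (nat_lit 183334041) (nat_lit 1138385) (nat_lit 0) (nat_lit 0x858f1770c) (nat_lit 636880238),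
  Rx.mk (nat_lit 136) (nat_lit 0) (nat_lit 1) (nat_lit 2) (nat_lit 6) (nat_lit 109) (nat_lit 226) r5_109 r1_226 (nat_lit 20365735) (nat_lit 0) (nat_lit 0) (nat_lit 0x82689a0c8) (nat_lit 521307397),
  Rx.mk (nat_lit 152) (nat_lit 0) (nat_lit 3) (nat_lit 2) (nat_lit 6) (nat_lit 113) (nat_lit 227) r5_113 r1_227 (nat_lit 34273461) (nat_lit 0) (nat_lit 0) (nat_lit 0x80eb8917a) (nat_lit 558087723),
  Rx.mk (nat_lit 155) (nat_lit 3) (nat_lit 3) (nat_lit 2) (nat_lit 7) (nat_lit 114) (nat_lit 228) r5_114 r1_228 (nat_lit 0) (nat_lit 0) (nat_lit 0) (nat_lit 0x80759d768) (nat_lit 530997812),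
  Rx.mk (nat_lit 384) (nat_lit 0) (nat_lit 0) (nat_lit 6) (nat_lit 4) (nat_lit 107) (nat_lit 229) r5_107 r1_229 (nat_lit 5641616) (nat_lit 3281434) (nat_lit 0) (nat_lit 0x6d31d3d56) (nat_lit 850354662),
  Rx.mk (nat_lit 386) (nat_lit 2) (nat_lit 0) (nat_lit 6) (nat_lit 5) (nat_lit 108) (nat_lit 231) r5_108 r1_231 (nat_lit 0) (nat_lit 13555305) (nat_lit 0) (nat_lit 0x7b2b08126) (nat_lit 629326967),
  Rx.mk (nat_lit 392) (nat_lit 0) (nat_lit 1) (nat_lit 6) (nat_lit 6) (nat_lit 110) (nat_lit 230) r5_110 r1_230 (nat_lit 14046649) (nat_lit 0) (nat_lit 0) (nat_lit 0x808591f7a) (nat_lit 544109911),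
  Rx.mk (nat_lit 394) (nat_lit 2) (nat_lit 1) (nat_lit 6) (nat_lit 7) (nat_lit 111) (nat_lit 232) r5_111 r1_232 (nat_lit 0) (nat_lit 0) (nat_lit 0) (nat_lit 0x8017985b4) (nat_lit 536870912),
  Rx.mk (nat_lit 402) (nat_lit 2) (nat_lit 2) (nat_lit 6) (nat_lit 7) (nat_lit 112) (nat_lit 233) r5_112 r1_233 (nat_lit 0) (nat_lit 0) (nat_lit 0) (nat_lit 0x8017985b4) (nat_lit 536870912)]
noncomputable def e11_24 : List Rx := [
  Rx.mk (nat_lit 152) (nat_lit 0) (nat_lit 3) (nat_lit 2) (nat_lit 6) (nat_lit 130) (nat_lit 195) r5_130 r4_195 (nat_lit 202248689) (nat_lit 0) (nat_lit 0) (nat_lit 0x7fd88729e) (nat_lit 741698201),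
  Rx.mk (nat_lit 155) (nat_lit 3) (nat_lit 3) (nat_lit 2) (nat_lit 7) (nat_lit 133) (nat_lit 196) r5_133 r4_196 (nat_lit 0) (nat_lit 0) (nat_lit 0) (nat_lit 0x7f0ea3518) (nat_lit 553137312),
  Rx.mk (nat_lit 274) (nat_lit 2) (nat_lit 2) (nat_lit 4) (nat_lit 3) (nat_lit 126) (nat_lit 197) r5_126 r4_197 (nat_lit 0) (nat_lit 0) (nat_lit 10127202) (nat_lit 0x78e0d6154) (nat_lit 662850514),
  Rx.mk (nat_lit 278) (nat_lit 6) (nat_lit 2) (nat_lit 4) (nat_lit 3) (nat_lit 128) (nat_lit 198) r5_128 r4_198 (nat_lit 0) (nat_lit 0) (nat_lit 4758833) (nat_lit 0x72642244c) (nat_lit 762218945),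
  Rx.mk (nat_lit 384) (nat_lit 0) (nat_lit 0) (nat_lit 6) (nat_lit 4) (nat_lit 124) (nat_lit 200) r5_124 r4_200 (nat_lit 27807) (nat_lit 19134) (nat_lit 0) (nat_lit 0x6beaf468e) (nat_lit 861670253),
  Rx.mk (nat_lit 386) (nat_lit 2) (nat_lit 0) (nat_lit 6) (nat_lit 5) (nat_lit 125) (nat_lit 202) r5_125 r4_202 (nat_lit 0) (nat_lit 4444174) (nat_lit 0) (nat_lit 0x7f2401202) (nat_lit 556007186),
  Rx.mk (nat_lit 402) (nat_lit 2) (nat_lit 2) (nat_lit 6) (nat_lit 7) (nat_lit 127) (nat_lit 204) r5_127 r4_204 (nat_lit 0) (nat_lit 0) (nat_lit 0) (nat_lit 0x8017985b4) (nat_lit 536870912),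
  Rx.mk (nat_lit 408) (nat_lit 0) (nat_lit 3) (nat_lit 6) (nat_lit 6) (nat_lit 131) (nat_lit 201) r5_131 r4_201 (nat_lit 11917208) (nat_lit 0) (nat_lit 0) (nat_lit 0x7c8e48028) (nat_lit 605161420),
  Rx.mk (nat_lit 410) (nat_lit 2) (nat_lit 3) (nat_lit 6) (nat_lit 7) (nat_lit 132) (nat_lit 203) r5_132 r4_203 (nat_lit 0) (nat_lit 0) (nat_lit 0) (nat_lit 0x80931c514) (nat_lit 529274562),
  Rx.mk (nat_lit 470) (nat_lit 6) (nat_lit 2) (nat_lit 7) (nat_lit 7) (nat_lit 129) (nat_lit 199) r5_129 r4_199 (nat_lit 0) (nat_lit 0) (nat_lit 0) (nat_lit 0x7eb750676) (nat_lit 558254112)]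
noncomputable def e11_25 : List Rx := [
  Rx.mk (nat_lit 274) (nat_lit 2) (nat_lit 2) (nat_lit 4) (nat_lit 3) (nat_lit 103) (nat_lit 50) r5_103 r7_50 (nat_lit 0) (nat_lit 0) (nat_lit 19223735) (nat_lit 0x75d2c1c74) (nat_lit 721395547),
  Rx.mk (nat_lit 278) (nat_lit 6) (nat_lit 2) (nat_lit 4) (nat_lit 3) (nat_lit 105) (nat_lit 49) r5_105 r7_49 (nat_lit 0) (nat_lit 0) (nat_lit 7182949) (nat_lit 0x7cac4e324) (nat_lit 598492961),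
  Rx.mk (nat_lit 386) (nat_lit 2) (nat_lit 0) (nat_lit 6) (nat_lit 5) (nat_lit 102) (nat_lit 48) r5_102 r7_48 (nat_lit 0) (nat_lit 6601539) (nat_lit 0) (nat_lit 0x821cfef2e) (nat_lit 512046101),
  Rx.mk (nat_lit 402) (nat_lit 2) (nat_lit 2) (nat_lit 6) (nat_lit 7) (nat_lit 104) (nat_lit 51) r5_104 r7_51 (nat_lit 0) (nat_lit 0) (nat_lit 0) (nat_lit 0x8017985b4) (nat_lit 536870912)]
noncomputable def e11_26 : List Rx := [
  Rx.mk (nat_lit 386) (nat_lit 2) (nat_lit 0) (nat_lit 6) (nat_lit 5) (nat_lit 115) (nat_lit 58) r5_115 r8_58 (nat_lit 0) (nat_lit 14303237) (nat_lit 0) (nat_lit 0x7ea35f61c) (nat_lit 574182799),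
  Rx.mk (nat_lit 394) (nat_lit 2) (nat_lit 1) (nat_lit 6) (nat_lit 7) (nat_lit 116) (nat_lit 59) r5_116 r8_59 (nat_lit 0) (nat_lit 0) (nat_lit 0) (nat_lit 0x805c00e40) (nat_lit 532666762),
  Rx.mk (nat_lit 402) (nat_lit 2) (nat_lit 2) (nat_lit 6) (nat_lit 7) (nat_lit 117) (nat_lit 60) r5_117 r8_60 (nat_lit 0) (nat_lit 0) (nat_lit 0) (nat_lit 0x8017985b4) (nat_lit 536870912)]
noncomputable def e11_27 : List Rx := [
  Rx.mk (nat_lit 274) (nat_lit 2) (nat_lit 2) (nat_lit 4) (nat_lit 3) (nat_lit 118) (nat_lit 201) r5_118 r8_201 (nat_lit 0) (nat_lit 0) (nat_lit 25748057) (nat_lit 0x790d284fa) (nat_lit 675764869),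
  Rx.mk (nat_lit 278) (nat_lit 6) (nat_lit 2) (nat_lit 4) (nat_lit 3) (nat_lit 121) (nat_lit 202) r5_121 r8_202 (nat_lit 0) (nat_lit 0) (nat_lit 10065734) (nat_lit 0x7e9c4689e) (nat_lit 570285946),
  Rx.mk (nat_lit 338) (nat_lit 2) (nat_lit 2) (nat_lit 5) (nat_lit 7) (nat_lit 119) (nat_lit 203) r5_119 r8_203 (nat_lit 0) (nat_lit 0) (nat_lit 0) (nat_lit 0x8017985b4) (nat_lit 536870912),
  Rx.mk (nat_lit 342) (nat_lit 6) (nat_lit 2) (nat_lit 5) (nat_lit 7) (nat_lit 122) (nat_lit 204) r5_122 r8_204 (nat_lit 0) (nat_lit 0) (nat_lit 0) (nat_lit 0x80d50bd58) (nat_lit 525282062),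
  Rx.mk (nat_lit 402) (nat_lit 2) (nat_lit 2) (nat_lit 6) (nat_lit 7) (nat_lit 120) (nat_lit 205) r5_120 r8_205 (nat_lit 0) (nat_lit 0) (nat_lit 0) (nat_lit 0x8017985b4) (nat_lit 536870912)]
noncomputable def e11_28 : List Rx := [
  Rx.mk (nat_lit 274) (nat_lit 2) (nat_lit 2) (nat_lit 4) (nat_lit 3) (nat_lit 135) (nat_lit 36) r5_135 r10_36 (nat_lit 0) (nat_lit 0) (nat_lit 16735369) (nat_lit 0x79b416a78) (nat_lit 656180481),
  Rx.mk (nat_lit 278) (nat_lit 6) (nat_lit 2) (nat_lit 4) (nat_lit 3) (nat_lit 137) (nat_lit 34) r5_137 r10_34 (nat_lit 0) (nat_lit 0) (nat_lit 5865404) (nat_lit 0x7ef7589d0) (nat_lit 560306366),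
  Rx.mk (nat_lit 386) (nat_lit 2) (nat_lit 0) (nat_lit 6) (nat_lit 5) (nat_lit 134) (nat_lit 32) r5_134 r10_32 (nat_lit 0) (nat_lit 6614420) (nat_lit 0) (nat_lit 0x81f9ff474) (nat_lit 514154582),
  Rx.mk (nat_lit 402) (nat_lit 2) (nat_lit 2) (nat_lit 6) (nat_lit 7) (nat_lit 136) (nat_lit 37) r5_136 r10_37 (nat_lit 0) (nat_lit 0) (nat_lit 0) (nat_lit 0x8017985b4) (nat_lit 536870912),
  Rx.mk (nat_lit 410) (nat_lit 2) (nat_lit 3) (nat_lit 6) (nat_lit 7) (nat_lit 139) (nat_lit 33) r5_139 r10_33 (nat_lit 0) (nat_lit 0) (nat_lit 0) (nat_lit 0x80c39fc54) (nat_lit 526340012),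
  Rx.mk (nat_lit 470) (nat_lit 6) (nat_lit 2) (nat_lit 7) (nat_lit 7) (nat_lit 138) (nat_lit 35) r5_138 r10_35 (nat_lit 0) (nat_lit 0) (nat_lit 0) (nat_lit 0x815de8a72) (nat_lit 517001212)]
noncomputable def e11_29 : List Rx := [
  Rx.mk (nat_lit 155) (nat_lit 3) (nat_lit 3) (nat_lit 2) (nat_lit 7) (nat_lit 148) (nat_lit 13) r5_148 r11_13 (nat_lit 0) (nat_lit 0) (nat_lit 0) (nat_lit 0x8219c55ce) (nat_lit 505691562),
  Rx.mk (nat_lit 274) (nat_lit 2) (nat_lit 2) (nat_lit 4) (nat_lit 3) (nat_lit 142) (nat_lit 16) r5_142 r11_16 (nat_lit 0) (nat_lit 0) (nat_lit 13610733) (nat_lit 0x7f8c34efa) (nat_lit 558980045),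
  Rx.mk (nat_lit 384) (nat_lit 0) (nat_lit 0) (nat_lit 6) (nat_lit 4) (nat_lit 140) (nat_lit 9) r5_140 r11_9 (nat_lit 674925) (nat_lit 474232) (nat_lit 0) (nat_lit 0x722cb1ea4) (nat_lit 761731069),
  Rx.mk (nat_lit 386) (nat_lit 2) (nat_lit 0) (nat_lit 6) (nat_lit 5) (nat_lit 141) (nat_lit 10) r5_141 r11_10 (nat_lit 0) (nat_lit 4328604) (nat_lit 0) (nat_lit 0x8397c64a4) (nat_lit 487049866),
  Rx.mk (nat_lit 402) (nat_lit 2) (nat_lit 2) (nat_lit 6) (nat_lit 7) (nat_lit 143) (nat_lit 18) r5_143 r11_18 (nat_lit 0) (nat_lit 0) (nat_lit 0) (nat_lit 0x804f350bc) (nat_lit 533454612),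
  Rx.mk (nat_lit 408) (nat_lit 0) (nat_lit 3) (nat_lit 6) (nat_lit 6) (nat_lit 146) (nat_lit 11) r5_146 r11_11 (nat_lit 9828533) (nat_lit 0) (nat_lit 0) (nat_lit 0x7fdfbd658) (nat_lit 549901095),
  Rx.mk (nat_lit 410) (nat_lit 2) (nat_lit 3) (nat_lit 6) (nat_lit 7) (nat_lit 147) (nat_lit 14) r5_147 r11_14 (nat_lit 0) (nat_lit 0) (nat_lit 0) (nat_lit 0x81c0f7b72) (nat_lit 511039762),
  Rx.mk (nat_lit 411) (nat_lit 3) (nat_lit 3) (nat_lit 6) (nat_lit 7) (nat_lit 149) (nat_lit 12) r5_149 r11_12 (nat_lit 0) (nat_lit 0) (nat_lit 0) (nat_lit 0x80700d5c8) (nat_lit 531445012),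
  Rx.mk (nat_lit 466) (nat_lit 2) (nat_lit 2) (nat_lit 7) (nat_lit 7) (nat_lit 144) (nat_lit 17) r5_144 r11_17 (nat_lit 0) (nat_lit 0) (nat_lit 0) (nat_lit 0x804f3bf3e) (nat_lit 533452962),
  Rx.mk (nat_lit 470) (nat_lit 6) (nat_lit 2) (nat_lit 7) (nat_lit 7) (nat_lit 145) (nat_lit 15) r5_145 r11_15 (nat_lit 0) (nat_lit 0) (nat_lit 0) (nat_lit 0x839723e3e) (nat_lit 482866162)]
noncomputable def e11_30 : List Rx := [
  Rx.mk (nat_lit 39) (nat_lit 7) (nat_lit 4) (nat_lit 0) (nat_lit 1) (nat_lit 235) (nat_lit 311) r5_235 r5_311 (nat_lit 0) (nat_lit 256039) (nat_lit 59092) (nat_lit 0x820de74a0) (nat_lit 505885693),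
  Rx.mk (nat_lit 55) (nat_lit 7) (nat_lit 6) (nat_lit 0) (nat_lit 3) (nat_lit 238) (nat_lit 312) r5_238 r5_312 (nat_lit 0) (nat_lit 0) (nat_lit 1304446) (nat_lit 0x7fd0f99aa) (nat_lit 541617058),
  Rx.mk (nat_lit 103) (nat_lit 7) (nat_lit 4) (nat_lit 1) (nat_lit 5) (nat_lit 236) (nat_lit 313) r5_236 r5_313 (nat_lit 0) (nat_lit 84189096) (nat_lit 0) (nat_lit 0x80e5c9802) (nat_lit 608169008),
  Rx.mk (nat_lit 119) (nat_lit 7) (nat_lit 6) (nat_lit 1) (nat_lit 7) (nat_lit 239) (nat_lit 314) r5_239 r5_314 (nat_lit 0) (nat_lit 0) (nat_lit 0) (nat_lit 0x81c0a1d3a) (nat_lit 511016762),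
  Rx.mk (nat_lit 167) (nat_lit 7) (nat_lit 4) (nat_lit 2) (nat_lit 5) (nat_lit 237) (nat_lit 315) r5_237 r5_315 (nat_lit 0) (nat_lit 6154533) (nat_lit 0) (nat_lit 0x82d163a50) (nat_lit 500638795)]
noncomputable def e11_31 : List Rx := [
  Rx.mk (nat_lit 103) (nat_lit 7) (nat_lit 4) (nat_lit 1) (nat_lit 5) (nat_lit 240) (nat_lit 366) r5_240 r11_366 (nat_lit 0) (nat_lit 12925908) (nat_lit 0) (nat_lit 0x804d82ed6) (nat_lit 546213020),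
  Rx.mk (nat_lit 119) (nat_lit 7) (nat_lit 6) (nat_lit 1) (nat_lit 7) (nat_lit 241) (nat_lit 367) r5_241 r11_367 (nat_lit 0) (nat_lit 0) (nat_lit 0) (nat_lit 0x834f94230) (nat_lit 487057512)]
noncomputable def e11_32 : List Rx := [
  Rx.mk (nat_lit 163) (nat_lit 3) (nat_lit 4) (nat_lit 2) (nat_lit 5) (nat_lit 242) (nat_lit 252) r5_242 r6_252 (nat_lit 0) (nat_lit 355084) (nat_lit 0) (nat_lit 0x7fdb97272) (nat_lit 539655146),
  Rx.mk (nat_lit 184) (nat_lit 0) (nat_lit 7) (nat_lit 2) (nat_lit 6) (nat_lit 243) (nat_lit 251) r5_243 r6_251 (nat_lit 52534) (nat_lit 0) (nat_lit 0) (nat_lit 0x806957f26) (nat_lit 530664346),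
  Rx.mk (nat_lit 187) (nat_lit 3) (nat_lit 7) (nat_lit 2) (nat_lit 7) (nat_lit 244) (nat_lit 253) r5_244 r6_253 (nat_lit 0) (nat_lit 0) (nat_lit 0) (nat_lit 0x7f639d938) (nat_lit 547371662)]
noncomputable def e11_33 : List Rx := [
  Rx.mk (nat_lit 152) (nat_lit 0) (nat_lit 3) (nat_lit 2) (nat_lit 6) (nat_lit 225) (nat_lit 225) r5_225 r5_225 (nat_lit 18256872) (nat_lit 0) (nat_lit 0) (nat_lit 0x84be62d6e) (nat_lit 483320184),
  Rx.mk (nat_lit 184) (nat_lit 0) (nat_lit 7) (nat_lit 2) (nat_lit 6) (nat_lit 228) (nat_lit 226) r5_228 r5_226 (nat_lit 5850069) (nat_lit 0) (nat_lit 0) (nat_lit 0x7b79ebb76) (nat_lit 616369131),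
  Rx.mk (nat_lit 187) (nat_lit 3) (nat_lit 7) (nat_lit 2) (nat_lit 7) (nat_lit 229) (nat_lit 227) r5_229 r5_227 (nat_lit 0) (nat_lit 0) (nat_lit 0) (nat_lit 0x7faf46fd8) (nat_lit 542713462),
  Rx.mk (nat_lit 408) (nat_lit 0) (nat_lit 3) (nat_lit 6) (nat_lit 6) (nat_lit 226) (nat_lit 228) r5_226 r5_228 (nat_lit 5850069) (nat_lit 0) (nat_lit 0) (nat_lit 0x7b79ebb76) (nat_lit 616369131),
  Rx.mk (nat_lit 410) (nat_lit 2) (nat_lit 3) (nat_lit 6) (nat_lit 7) (nat_lit 227) (nat_lit 229) r5_227 r5_229 (nat_lit 0) (nat_lit 0) (nat_lit 0) (nat_lit 0x7faf46fd8) (nat_lit 542713462)]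
noncomputable def e11_34 : List Rx := [
  Rx.mk (nat_lit 410) (nat_lit 2) (nat_lit 3) (nat_lit 6) (nat_lit 7) (nat_lit 230) (nat_lit 265) r5_230 r11_265 (nat_lit 0) (nat_lit 0) (nat_lit 0) (nat_lit 0x880aa8a68) (nat_lit 414822412)]
noncomputable def e11_35 : List Rx := [
  Rx.mk (nat_lit 39) (nat_lit 7) (nat_lit 4) (nat_lit 0) (nat_lit 1) (nat_lit 232) (nat_lit 333) r5_232 r6_333 (nat_lit 0) (nat_lit 1379852) (nat_lit 1266917) (nat_lit 0x7a2fc99c2) (nat_lit 633790631),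
  Rx.mk (nat_lit 55) (nat_lit 7) (nat_lit 6) (nat_lit 0) (nat_lit 3) (nat_lit 234) (nat_lit 336) r5_234 r6_336 (nat_lit 0) (nat_lit 0) (nat_lit 745573) (nat_lit 0x806c92614) (nat_lit 531405435),
  Rx.mk (nat_lit 163) (nat_lit 3) (nat_lit 4) (nat_lit 2) (nat_lit 5) (nat_lit 231) (nat_lit 334) r5_231 r6_334 (nat_lit 0) (nat_lit 64873) (nat_lit 0) (nat_lit 0x800bef67c) (nat_lit 536253635),
  Rx.mk (nat_lit 167) (nat_lit 7) (nat_lit 4) (nat_lit 2) (nat_lit 5) (nat_lit 233) (nat_lit 335) r5_233 r6_335 (nat_lit 0) (nat_lit 4400993) (nat_lit 0) (nat_lit 0x831fc2ff2) (nat_lit 494248105)]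
noncomputable def e11_36 : List Rx := [
  Rx.mk (nat_lit 39) (nat_lit 7) (nat_lit 4) (nat_lit 0) (nat_lit 1) (nat_lit 246) (nat_lit 85) r5_246 r12_85 (nat_lit 0) (nat_lit 257136) (nat_lit 183720) (nat_lit 0x78fe81dd4) (nat_lit 650662468),
  Rx.mk (nat_lit 55) (nat_lit 7) (nat_lit 6) (nat_lit 0) (nat_lit 3) (nat_lit 249) (nat_lit 88) r5_249 r12_88 (nat_lit 0) (nat_lit 0) (nat_lit 385241) (nat_lit 0x80ae72098) (nat_lit 527020953),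
  Rx.mk (nat_lit 163) (nat_lit 3) (nat_lit 4) (nat_lit 2) (nat_lit 5) (nat_lit 245) (nat_lit 83) r5_245 r12_83 (nat_lit 0) (nat_lit 174098) (nat_lit 0) (nat_lit 0x8023fadac) (nat_lit 534971660),
  Rx.mk (nat_lit 167) (nat_lit 7) (nat_lit 4) (nat_lit 2) (nat_lit 5) (nat_lit 247) (nat_lit 87) r5_247 r12_87 (nat_lit 0) (nat_lit 3185059) (nat_lit 0) (nat_lit 0x8418ad1da) (nat_lit 478052171),
  Rx.mk (nat_lit 187) (nat_lit 3) (nat_lit 7) (nat_lit 2) (nat_lit 7) (nat_lit 251) (nat_lit 84) r5_251 r12_84 (nat_lit 0) (nat_lit 0) (nat_lit 0) (nat_lit 0x7a825aed4) (nat_lit 625769862),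
  Rx.mk (nat_lit 231) (nat_lit 7) (nat_lit 4) (nat_lit 3) (nat_lit 5) (nat_lit 248) (nat_lit 86) r5_248 r12_86 (nat_lit 0) (nat_lit 6750895) (nat_lit 0) (nat_lit 0x78f123c8c) (nat_lit 658355657),
  Rx.mk (nat_lit 247) (nat_lit 7) (nat_lit 6) (nat_lit 3) (nat_lit 7) (nat_lit 250) (nat_lit 89) r5_250 r12_89 (nat_lit 0) (nat_lit 0) (nat_lit 0) (nat_lit 0x8f2213cf0) (nat_lit 306467812)]
noncomputable def e11_37 : List Rx := [
  Rx.mk (nat_lit 168) (nat_lit 0) (nat_lit 5) (nat_lit 2) (nat_lit 6) (nat_lit 255) (nat_lit 224) r5_255 r0_224 (nat_lit 71218835) (nat_lit 0) (nat_lit 0) (nat_lit 0x7ffb5ec54) (nat_lit 608387497)]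
noncomputable def e11_38 : List Rx := [
  Rx.mk (nat_lit 161) (nat_lit 1) (nat_lit 4) (nat_lit 2) (nat_lit 5) (nat_lit 252) (nat_lit 315) r5_252 r0_315 (nat_lit 0) (nat_lit 10663228) (nat_lit 0) (nat_lit 0x7da55c5ce) (nat_lit 586217240),
  Rx.mk (nat_lit 168) (nat_lit 0) (nat_lit 5) (nat_lit 2) (nat_lit 6) (nat_lit 253) (nat_lit 316) r5_253 r0_316 (nat_lit 6936321) (nat_lit 0) (nat_lit 0) (nat_lit 0x7b9f03d96) (nat_lit 615253533),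
  Rx.mk (nat_lit 169) (nat_lit 1) (nat_lit 5) (nat_lit 2) (nat_lit 7) (nat_lit 254) (nat_lit 317) r5_254 r0_317 (nat_lit 0) (nat_lit 0) (nat_lit 0) (nat_lit 0x8071fa930) (nat_lit 530954762)]
noncomputable def e11_39 : List Rx := [
  Rx.mk (nat_lit 168) (nat_lit 0) (nat_lit 5) (nat_lit 2) (nat_lit 6) (nat_lit 256) (nat_lit 286) r5_256 r7_286 (nat_lit 10453794) (nat_lit 0) (nat_lit 0) (nat_lit 0x7f320ae16) (nat_lit 561328856),
  Rx.mk (nat_lit 169) (nat_lit 1) (nat_lit 5) (nat_lit 2) (nat_lit 7) (nat_lit 257) (nat_lit 287) r5_257 r7_287 (nat_lit 0) (nat_lit 0) (nat_lit 0) (nat_lit 0x811261be4) (nat_lit 521565112)]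
noncomputable def e11_40 : List Rx := [
  Rx.mk (nat_lit 37) (nat_lit 5) (nat_lit 4) (nat_lit 0) (nat_lit 1) (nat_lit 276) (nat_lit 339) r5_276 r2_339 (nat_lit 0) (nat_lit 29764725) (nat_lit 20559373) (nat_lit 0x5846938aa) (nat_lit 1230188910),
  Rx.mk (nat_lit 45) (nat_lit 5) (nat_lit 5) (nat_lit 0) (nat_lit 3) (nat_lit 280) (nat_lit 343) r5_280 r2_343 (nat_lit 0) (nat_lit 0) (nat_lit 74305846) (nat_lit 0x6bbe842c0) (nat_lit 939452858),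
  Rx.mk (nat_lit 53) (nat_lit 5) (nat_lit 6) (nat_lit 0) (nat_lit 3) (nat_lit 283) (nat_lit 347) r5_283 r2_347 (nat_lit 0) (nat_lit 0) (nat_lit 33327253) (nat_lit 0x7f65916c2) (nat_lit 581168965),
  Rx.mk (nat_lit 101) (nat_lit 5) (nat_lit 4) (nat_lit 1) (nat_lit 5) (nat_lit 277) (nat_lit 340) r5_277 r2_340 (nat_lit 0) (nat_lit 24741287) (nat_lit 0) (nat_lit 0x8017985b4) (nat_lit 561612199),
  Rx.mk (nat_lit 109) (nat_lit 5) (nat_lit 5) (nat_lit 1) (nat_lit 7) (nat_lit 281) (nat_lit 344) r5_281 r2_344 (nat_lit 0) (nat_lit 0) (nat_lit 0) (nat_lit 0x8017985b4) (nat_lit 536870912),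
  Rx.mk (nat_lit 117) (nat_lit 5) (nat_lit 6) (nat_lit 1) (nat_lit 7) (nat_lit 284) (nat_lit 348) r5_284 r2_348 (nat_lit 0) (nat_lit 0) (nat_lit 0) (nat_lit 0x8017985b4) (nat_lit 536870912),
  Rx.mk (nat_lit 161) (nat_lit 1) (nat_lit 4) (nat_lit 2) (nat_lit 5) (nat_lit 275) (nat_lit 341) r5_275 r2_341 (nat_lit 0) (nat_lit 28314395) (nat_lit 0) (nat_lit 0x7f288f256) (nat_lit 579938957),
  Rx.mk (nat_lit 165) (nat_lit 5) (nat_lit 4) (nat_lit 2) (nat_lit 5) (nat_lit 278) (nat_lit 342) r5_278 r2_342 (nat_lit 0) (nat_lit 27157988) (nat_lit 0) (nat_lit 0x7f2b617cc) (nat_lit 578604450),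
  Rx.mk (nat_lit 169) (nat_lit 1) (nat_lit 5) (nat_lit 2) (nat_lit 7) (nat_lit 279) (nat_lit 345) r5_279 r2_345 (nat_lit 0) (nat_lit 0) (nat_lit 0) (nat_lit 0x8017985b4) (nat_lit 536870912),
  Rx.mk (nat_lit 173) (nat_lit 5) (nat_lit 5) (nat_lit 2) (nat_lit 7) (nat_lit 282) (nat_lit 346) r5_282 r2_346 (nat_lit 0) (nat_lit 0) (nat_lit 0) (nat_lit 0x8017985b4) (nat_lit 536870912)]
noncomputable def e11_41 : List Rx := [
  Rx.mk (nat_lit 45) (nat_lit 5) (nat_lit 5) (nat_lit 0) (nat_lit 3) (nat_lit 287) (nat_lit 307) r5_287 r9_307 (nat_lit 0) (nat_lit 0) (nat_lit 111344299) (nat_lit 0x6b103b6e6) (nat_lit 987492011),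
  Rx.mk (nat_lit 109) (nat_lit 5) (nat_lit 5) (nat_lit 1) (nat_lit 7) (nat_lit 288) (nat_lit 308) r5_288 r9_308 (nat_lit 0) (nat_lit 0) (nat_lit 0) (nat_lit 0x7ff67effe) (nat_lit 538897862),
  Rx.mk (nat_lit 169) (nat_lit 1) (nat_lit 5) (nat_lit 2) (nat_lit 7) (nat_lit 286) (nat_lit 309) r5_286 r9_309 (nat_lit 0) (nat_lit 0) (nat_lit 0) (nat_lit 0x7ff9dad06) (nat_lit 538691612),
  Rx.mk (nat_lit 173) (nat_lit 5) (nat_lit 5) (nat_lit 2) (nat_lit 7) (nat_lit 289) (nat_lit 310) r5_289 r9_310 (nat_lit 0) (nat_lit 0) (nat_lit 0) (nat_lit 0x7ff760b48) (nat_lit 538843712)]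
noncomputable def e11_42 : List Rx := [
  Rx.mk (nat_lit 101) (nat_lit 5) (nat_lit 4) (nat_lit 1) (nat_lit 5) (nat_lit 290) (nat_lit 324) r5_290 r9_324 (nat_lit 0) (nat_lit 26942027) (nat_lit 0) (nat_lit 0x7e5860594) (nat_lit 591515239),
  Rx.mk (nat_lit 109) (nat_lit 5) (nat_lit 5) (nat_lit 1) (nat_lit 7) (nat_lit 291) (nat_lit 325) r5_291 r9_325 (nat_lit 0) (nat_lit 0) (nat_lit 0) (nat_lit 0x7ff2ca070) (nat_lit 539127012),
  Rx.mk (nat_lit 117) (nat_lit 5) (nat_lit 6) (nat_lit 1) (nat_lit 7) (nat_lit 292) (nat_lit 326) r5_292 r9_326 (nat_lit 0) (nat_lit 0) (nat_lit 0) (nat_lit 0x8017985b4) (nat_lit 536870912)]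
noncomputable def e11_43 : List Rx := [
  Rx.mk (nat_lit 161) (nat_lit 1) (nat_lit 4) (nat_lit 2) (nat_lit 5) (nat_lit 273) (nat_lit 303) r5_273 r1_303 (nat_lit 0) (nat_lit 15528047) (nat_lit 0) (nat_lit 0x815c32e9e) (nat_lit 532577559),
  Rx.mk (nat_lit 169) (nat_lit 1) (nat_lit 5) (nat_lit 2) (nat_lit 7) (nat_lit 274) (nat_lit 304) r5_274 r1_304 (nat_lit 0) (nat_lit 0) (nat_lit 0) (nat_lit 0x825a7268a) (nat_lit 501688462)]
noncomputable def e11_44 : List Rx := [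
  Rx.mk (nat_lit 169) (nat_lit 1) (nat_lit 5) (nat_lit 2) (nat_lit 7) (nat_lit 285) (nat_lit 218) r5_285 r8_218 (nat_lit 0) (nat_lit 0) (nat_lit 0) (nat_lit 0x815927600) (nat_lit 517280412)]
noncomputable def e11_45 : List Rx := [
  Rx.mk (nat_lit 136) (nat_lit 0) (nat_lit 1) (nat_lit 2) (nat_lit 6) (nat_lit 267) (nat_lit 243) r5_267 r1_243 (nat_lit 91702614) (nat_lit 0) (nat_lit 0) (nat_lit 0x80aaf72a6) (nat_lit 619301176),
  Rx.mk (nat_lit 168) (nat_lit 0) (nat_lit 5) (nat_lit 2) (nat_lit 6) (nat_lit 268) (nat_lit 242) r5_268 r1_242 (nat_lit 100423417) (nat_lit 0) (nat_lit 0) (nat_lit 0x83d8b6e82) (nat_lit 579086629)]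
noncomputable def e11_46 : List Rx := [
  Rx.mk (nat_lit 136) (nat_lit 0) (nat_lit 1) (nat_lit 2) (nat_lit 6) (nat_lit 258) (nat_lit 256) r5_258 r2_256 (nat_lit 39193482) (nat_lit 0) (nat_lit 0) (nat_lit 0x80a1c8662) (nat_lit 567515444),
  Rx.mk (nat_lit 392) (nat_lit 0) (nat_lit 1) (nat_lit 6) (nat_lit 6) (nat_lit 259) (nat_lit 255) r5_259 r2_255 (nat_lit 20262659) (nat_lit 0) (nat_lit 0) (nat_lit 0x7ffd89060) (nat_lit 558709871),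
  Rx.mk (nat_lit 394) (nat_lit 2) (nat_lit 1) (nat_lit 6) (nat_lit 7) (nat_lit 260) (nat_lit 257) r5_260 r2_257 (nat_lit 0) (nat_lit 0) (nat_lit 0) (nat_lit 0x8017985b4) (nat_lit 536870912)]
noncomputable def e11_47 : List Rx := [
  Rx.mk (nat_lit 136) (nat_lit 0) (nat_lit 1) (nat_lit 2) (nat_lit 6) (nat_lit 269) (nat_lit 347) r5_269 r8_347 (nat_lit 26407128) (nat_lit 0) (nat_lit 0) (nat_lit 0x7ed75b9ac) (nat_lit 583090140),
  Rx.mk (nat_lit 137) (nat_lit 1) (nat_lit 1) (nat_lit 2) (nat_lit 7) (nat_lit 270) (nat_lit 348) r5_270 r8_348 (nat_lit 0) (nat_lit 0) (nat_lit 0) (nat_lit 0x8017985b4) (nat_lit 536870912),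
  Rx.mk (nat_lit 168) (nat_lit 0) (nat_lit 5) (nat_lit 2) (nat_lit 6) (nat_lit 271) (nat_lit 349) r5_271 r8_349 (nat_lit 26551209) (nat_lit 0) (nat_lit 0) (nat_lit 0x7f5f75306) (nat_lit 574765171),
  Rx.mk (nat_lit 169) (nat_lit 1) (nat_lit 5) (nat_lit 2) (nat_lit 7) (nat_lit 272) (nat_lit 350) r5_272 r8_350 (nat_lit 0) (nat_lit 0) (nat_lit 0) (nat_lit 0x8017985b4) (nat_lit 536870912)]
noncomputable def e11_48 : List Rx := [
  Rx.mk (nat_lit 136) (nat_lit 0) (nat_lit 1) (nat_lit 2) (nat_lit 6) (nat_lit 261) (nat_lit 225) r5_261 r9_225 (nat_lit 29963902) (nat_lit 0) (nat_lit 0) (nat_lit 0x7c0aae942) (nat_lit 631646464),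
  Rx.mk (nat_lit 137) (nat_lit 1) (nat_lit 1) (nat_lit 2) (nat_lit 7) (nat_lit 263) (nat_lit 227) r5_263 r9_227 (nat_lit 0) (nat_lit 0) (nat_lit 0) (nat_lit 0x8017985b4) (nat_lit 536870912),
  Rx.mk (nat_lit 392) (nat_lit 0) (nat_lit 1) (nat_lit 6) (nat_lit 6) (nat_lit 262) (nat_lit 224) r5_262 r9_224 (nat_lit 27922064) (nat_lit 0) (nat_lit 0) (nat_lit 0x7cb09d100) (nat_lit 619170926),
  Rx.mk (nat_lit 393) (nat_lit 1) (nat_lit 1) (nat_lit 6) (nat_lit 7) (nat_lit 264) (nat_lit 226) r5_264 r9_226 (nat_lit 0) (nat_lit 0) (nat_lit 0) (nat_lit 0x8017985b4) (nat_lit 536870912),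
  Rx.mk (nat_lit 394) (nat_lit 2) (nat_lit 1) (nat_lit 6) (nat_lit 7) (nat_lit 265) (nat_lit 228) r5_265 r9_228 (nat_lit 0) (nat_lit 0) (nat_lit 0) (nat_lit 0x8017985b4) (nat_lit 536870912)]
noncomputable def e11_49 : List Rx := [
  Rx.mk (nat_lit 394) (nat_lit 2) (nat_lit 1) (nat_lit 6) (nat_lit 7) (nat_lit 266) (nat_lit 215) r5_266 r9_215 (nat_lit 0) (nat_lit 0) (nat_lit 0) (nat_lit 0x7fd940442) (nat_lit 540690962)]
noncomputable def e11_50 : List Rx := [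
  Rx.mk (nat_lit 160) (nat_lit 0) (nat_lit 4) (nat_lit 2) (nat_lit 4) (nat_lit 293) (nat_lit 221) r5_293 r3_221 (nat_lit 2469) (nat_lit 3024) (nat_lit 0) (nat_lit 0x817743936) (nat_lit 514521255),
  Rx.mk (nat_lit 163) (nat_lit 3) (nat_lit 4) (nat_lit 2) (nat_lit 5) (nat_lit 294) (nat_lit 223) r5_294 r3_223 (nat_lit 0) (nat_lit 87664) (nat_lit 0) (nat_lit 0x7ee2d6d0e) (nat_lit 555002326),
  Rx.mk (nat_lit 168) (nat_lit 0) (nat_lit 5) (nat_lit 2) (nat_lit 6) (nat_lit 295) (nat_lit 222) r5_295 r3_222 (nat_lit 331055) (nat_lit 0) (nat_lit 0) (nat_lit 0x7f44b8f22) (nat_lit 549048467),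
  Rx.mk (nat_lit 171) (nat_lit 3) (nat_lit 5) (nat_lit 2) (nat_lit 7) (nat_lit 296) (nat_lit 224) r5_296 r3_224 (nat_lit 0) (nat_lit 0) (nat_lit 0) (nat_lit 0x8cf43f2ea) (nat_lit 339923812)]
noncomputable def e11_51 : List Rx := [
  Rx.mk (nat_lit 168) (nat_lit 0) (nat_lit 5) (nat_lit 2) (nat_lit 6) (nat_lit 305) (nat_lit 224) r5_305 r4_224 (nat_lit 161090066) (nat_lit 0) (nat_lit 0) (nat_lit 0x7fc75d3ec) (nat_lit 701587228),
  Rx.mk (nat_lit 171) (nat_lit 3) (nat_lit 5) (nat_lit 2) (nat_lit 7) (nat_lit 306) (nat_lit 225) r5_306 r4_225 (nat_lit 0) (nat_lit 0) (nat_lit 0) (nat_lit 0x743a265ec) (nat_lit 727415662)]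
noncomputable def e11_52 : List Rx := [
  Rx.mk (nat_lit 160) (nat_lit 0) (nat_lit 4) (nat_lit 2) (nat_lit 4) (nat_lit 311) (nat_lit 235) r5_311 r5_235 (nat_lit 256039) (nat_lit 59092) (nat_lit 0) (nat_lit 0x820de74a0) (nat_lit 505885693),
  Rx.mk (nat_lit 163) (nat_lit 3) (nat_lit 4) (nat_lit 2) (nat_lit 5) (nat_lit 312) (nat_lit 238) r5_312 r5_238 (nat_lit 0) (nat_lit 1304446) (nat_lit 0) (nat_lit 0x7fd0f99aa) (nat_lit 541617058),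
  Rx.mk (nat_lit 168) (nat_lit 0) (nat_lit 5) (nat_lit 2) (nat_lit 6) (nat_lit 313) (nat_lit 236) r5_313 r5_236 (nat_lit 84189096) (nat_lit 0) (nat_lit 0) (nat_lit 0x80e5c9802) (nat_lit 608169008),
  Rx.mk (nat_lit 171) (nat_lit 3) (nat_lit 5) (nat_lit 2) (nat_lit 7) (nat_lit 314) (nat_lit 239) r5_314 r5_239 (nat_lit 0) (nat_lit 0) (nat_lit 0) (nat_lit 0x81c0a1d3a) (nat_lit 511016762),
  Rx.mk (nat_lit 184) (nat_lit 0) (nat_lit 7) (nat_lit 2) (nat_lit 6) (nat_lit 315) (nat_lit 237) r5_315 r5_237 (nat_lit 6154533) (nat_lit 0) (nat_lit 0) (nat_lit 0x82d163a50) (nat_lit 500638795)]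
noncomputable def e11_53 : List Rx := [
  Rx.mk (nat_lit 160) (nat_lit 0) (nat_lit 4) (nat_lit 2) (nat_lit 4) (nat_lit 297) (nat_lit 343) r5_297 r4_343 (nat_lit 4914536) (nat_lit 8412019) (nat_lit 0) (nat_lit 0x7692903ac) (nat_lit 703204217),
  Rx.mk (nat_lit 161) (nat_lit 1) (nat_lit 4) (nat_lit 2) (nat_lit 5) (nat_lit 298) (nat_lit 344) r5_298 r4_344 (nat_lit 0) (nat_lit 16948508) (nat_lit 0) (nat_lit 0x809c7b0d8) (nat_lit 545627870),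
  Rx.mk (nat_lit 163) (nat_lit 3) (nat_lit 4) (nat_lit 2) (nat_lit 5) (nat_lit 299) (nat_lit 345) r5_299 r4_345 (nat_lit 0) (nat_lit 16388111) (nat_lit 0) (nat_lit 0x805f52918) (nat_lit 548834573),
  Rx.mk (nat_lit 168) (nat_lit 0) (nat_lit 5) (nat_lit 2) (nat_lit 6) (nat_lit 300) (nat_lit 346) r5_300 r4_346 (nat_lit 2837782) (nat_lit 0) (nat_lit 0) (nat_lit 0x88d4b3178) (nat_lit 405532494),
  Rx.mk (nat_lit 169) (nat_lit 1) (nat_lit 5) (nat_lit 2) (nat_lit 7) (nat_lit 301) (nat_lit 347) r5_301 r4_347 (nat_lit 0) (nat_lit 0) (nat_lit 0) (nat_lit 0x8942acc88) (nat_lit 396280012),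
  Rx.mk (nat_lit 171) (nat_lit 3) (nat_lit 5) (nat_lit 2) (nat_lit 7) (nat_lit 302) (nat_lit 348) r5_302 r4_348 (nat_lit 0) (nat_lit 0) (nat_lit 0) (nat_lit 0x816422d98) (nat_lit 516613662)]
noncomputable def e11_54 : List Rx := [
  Rx.mk (nat_lit 168) (nat_lit 0) (nat_lit 5) (nat_lit 2) (nat_lit 6) (nat_lit 307) (nat_lit 237) r5_307 r10_237 (nat_lit 11477207) (nat_lit 0) (nat_lit 0) (nat_lit 0x7fc2367ba) (nat_lit 553442619),
  Rx.mk (nat_lit 169) (nat_lit 1) (nat_lit 5) (nat_lit 2) (nat_lit 7) (nat_lit 308) (nat_lit 238) r5_308 r10_238 (nat_lit 0) (nat_lit 0) (nat_lit 0) (nat_lit 0x80b9b4848) (nat_lit 526949812),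
  Rx.mk (nat_lit 171) (nat_lit 3) (nat_lit 5) (nat_lit 2) (nat_lit 7) (nat_lit 309) (nat_lit 239) r5_309 r10_239 (nat_lit 0) (nat_lit 0) (nat_lit 0) (nat_lit 0x80b9b154e) (nat_lit 526950562)]
noncomputable def e11_55 : List Rx := [
  Rx.mk (nat_lit 160) (nat_lit 0) (nat_lit 4) (nat_lit 2) (nat_lit 4) (nat_lit 316) (nat_lit 273) r5_316 r11_273 (nat_lit 20649739) (nat_lit 21014715) (nat_lit 0) (nat_lit 0x729e8ccc2) (nat_lit 795632066),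
  Rx.mk (nat_lit 161) (nat_lit 1) (nat_lit 4) (nat_lit 2) (nat_lit 5) (nat_lit 317) (nat_lit 276) r5_317 r11_276 (nat_lit 0) (nat_lit 20064994) (nat_lit 0) (nat_lit 0x807284b4e) (nat_lit 551341856),
  Rx.mk (nat_lit 163) (nat_lit 3) (nat_lit 4) (nat_lit 2) (nat_lit 5) (nat_lit 318) (nat_lit 279) r5_318 r11_279 (nat_lit 0) (nat_lit 21930199) (nat_lit 0) (nat_lit 0x8037c1084) (nat_lit 556823461),
  Rx.mk (nat_lit 168) (nat_lit 0) (nat_lit 5) (nat_lit 2) (nat_lit 6) (nat_lit 319) (nat_lit 274) r5_319 r11_274 (nat_lit 24741287) (nat_lit 0) (nat_lit 0) (nat_lit 0x8017985b4) (nat_lit 561612199),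
  Rx.mk (nat_lit 169) (nat_lit 1) (nat_lit 5) (nat_lit 2) (nat_lit 7) (nat_lit 320) (nat_lit 277) r5_320 r11_277 (nat_lit 0) (nat_lit 0) (nat_lit 0) (nat_lit 0x8017985b4) (nat_lit 536870912),
  Rx.mk (nat_lit 171) (nat_lit 3) (nat_lit 5) (nat_lit 2) (nat_lit 7) (nat_lit 321) (nat_lit 280) r5_321 r11_280 (nat_lit 0) (nat_lit 0) (nat_lit 0) (nat_lit 0x8017985b4) (nat_lit 536870912),
  Rx.mk (nat_lit 184) (nat_lit 0) (nat_lit 7) (nat_lit 2) (nat_lit 6) (nat_lit 322) (nat_lit 275) r5_322 r11_275 (nat_lit 24086680) (nat_lit 0) (nat_lit 0) (nat_lit 0x7f9584f64) (nat_lit 568953542),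
  Rx.mk (nat_lit 185) (nat_lit 1) (nat_lit 7) (nat_lit 2) (nat_lit 7) (nat_lit 323) (nat_lit 278) r5_323 r11_278 (nat_lit 0) (nat_lit 0) (nat_lit 0) (nat_lit 0x8017985b4) (nat_lit 536870912)]
noncomputable def e11_56 : List Rx := [
  Rx.mk (nat_lit 163) (nat_lit 3) (nat_lit 4) (nat_lit 2) (nat_lit 5) (nat_lit 303) (nat_lit 303) r5_303 r5_303 (nat_lit 0) (nat_lit 811576) (nat_lit 0) (nat_lit 0x800e813cc) (nat_lit 537125038),
  Rx.mk (nat_lit 171) (nat_lit 3) (nat_lit 5) (nat_lit 2) (nat_lit 7) (nat_lit 304) (nat_lit 304) r5_304 r5_304 (nat_lit 0) (nat_lit 0) (nat_lit 0) (nat_lit 0x8142f445a) (nat_lit 518652812)]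
noncomputable def e11_57 : List Rx := [
  Rx.mk (nat_lit 171) (nat_lit 3) (nat_lit 5) (nat_lit 2) (nat_lit 7) (nat_lit 310) (nat_lit 356) r5_310 r11_356 (nat_lit 0) (nat_lit 0) (nat_lit 0) (nat_lit 0x81691ae72) (nat_lit 516102862)]
noncomputable def e11 : List (List Rx) := [e11_0, e11_1, e11_2, e11_3, e11_4, e11_5, e11_6, e11_7, e11_8, e11_9, e11_10, e11_11, e11_12, e11_13, e11_14, e11_15, e11_16, e11_17, e11_18, e11_19, e11_20, e11_21, e11_22, e11_23, e11_24, e11_25, e11_26, e11_27, e11_28, e11_29, e11_30, e11_31, e11_32, e11_33, e11_34, e11_35, e11_36, e11_37, e11_38, e11_39, e11_40, e11_41, e11_42, e11_43, e11_44, e11_45, e11_46, e11_47, e11_48, e11_49, e11_50, e11_51, e11_52, e11_53, e11_54, e11_55, e11_56, e11_57]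

end Pool.Agent.AKXS_24_34_V1
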