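import Pool.Agent.AKXS_24_34_V1.R0
import Pool.Agent.AKXS_24_34_V1.R1
import Pool.Agent.AKXS_24_34_V1.R2
import Pool.Agent.AKXS_24_34_V1.R3
import Pool.Agent.AKXS_24_34_V1.R4
import Pool.Agent.AKXS_24_34_V1.R5
import Pool.Agent.AKXS_24_34_V1.R6
import Pool.Agent.AKXS_24_34_V1.R7
import Pool.Agent.AKXS_24_34_V1.R8
import Pool.Agent.AKXS_24_34_V1.R9
import Pool.Agent.AKXS_24_34_V1.R10
import Pool.Agent.AKXS_24_34_V1.R11
import Pool.Agent.AKXS_24_34_V1.R12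

set_option autoImplicit false

namespace Pool.Agent.AKXS_24_34_V1

open Pool.Agent.AKX Pool.Agent.AKU

noncomputable def e12_0 : List Rx := [
  Rx.mk (nat_lit 2) (nat_lit 2) (nat_lit 0) (nat_lit 0) (nat_lit 1) (nat_lit 91) (nat_lit 94) r0_91 r0_94 (nat_lit 0) (nat_lit 319672734) (nat_lit 13764543) (nat_lit 0x6b0dbb5b0) (nat_lit 1209624489),
  Rx.mk (nat_lit 18) (nat_lit 2) (nat_lit 2) (nat_lit 0) (nat_lit 3) (nat_lit 92) (nat_lit 97) r0_92 r0_97 (nat_lit 0) (nat_lit 0) (nat_lit 32418381) (nat_lit 0x72161d882) (nat_lit 795028793),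
  Rx.mk (nat_lit 146) (nat_lit 2) (nat_lit 2) (nat_lit 2) (nat_lit 7) (nat_lit 93) (nat_lit 99) r0_93 r0_99 (nat_lit 0) (nat_lit 0) (nat_lit 0) (nat_lit 0x7fe1fc96e) (nat_lit 540154912),
  Rx.mk (nat_lit 192) (nat_lit 0) (nat_lit 0) (nat_lit 3) (nat_lit 4) (nat_lit 94) (nat_lit 91) r0_94 r0_91 (nat_lit 13764543) (nat_lit 319672734) (nat_lit 0) (nat_lit 0x6b0dbb5b0) (nat_lit 1209624489),
  Rx.mk (nat_lit 194) (nat_lit 2) (nat_lit 0) (nat_lit 3) (nat_lit 5) (nat_lit 95) (nat_lit 95) r0_95 r0_95 (nat_lit 0) (nat_lit 160205457) (nat_lit 0) (nat_lit 0x7ec91cf3a) (nat_lit 717699119),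
  Rx.mk (nat_lit 210) (nat_lit 2) (nat_lit 2) (nat_lit 3) (nat_lit 7) (nat_lit 96) (nat_lit 98) r0_96 r0_98 (nat_lit 0) (nat_lit 0) (nat_lit 0) (nat_lit 0x7f9c9f8d0) (nat_lit 544444712),
  Rx.mk (nat_lit 216) (nat_lit 0) (nat_lit 3) (nat_lit 3) (nat_lit 6) (nat_lit 97) (nat_lit 92) r0_97 r0_92 (nat_lit 32418381) (nat_lit 0) (nat_lit 0) (nat_lit 0x72161d882) (nat_lit 795028793),
  Rx.mk (nat_lit 218) (nat_lit 2) (nat_lit 3) (nat_lit 3) (nat_lit 7) (nat_lit 98) (nat_lit 96) r0_98 r0_96 (nat_lit 0) (nat_lit 0) (nat_lit 0) (nat_lit 0x7f9c9f8d0) (nat_lit 544444712),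
  Rx.mk (nat_lit 219) (nat_lit 3) (nat_lit 3) (nat_lit 3) (nat_lit 7) (nat_lit 99) (nat_lit 93) r0_99 r0_93 (nat_lit 0) (nat_lit 0) (nat_lit 0) (nat_lit 0x7fe1fc96e) (nat_lit 540154912)]
noncomputable def e12_1 : List Rx := [
  Rx.mk (nat_lit 0) (nat_lit 0) (nat_lit 0) (nat_lit 0) (nat_lit 0) (nat_lit 111) (nat_lit 94) r0_111 r1_94 (nat_lit 15924) (nat_lit 704331784) (nat_lit 15478) (nat_lit 0x7ffceaa5a) (nat_lit 1241434748),
  Rx.mk (nat_lit 2) (nat_lit 2) (nat_lit 0) (nat_lit 0) (nat_lit 1) (nat_lit 112) (nat_lit 99) r0_112 r1_99 (nat_lit 0) (nat_lit 330891680) (nat_lit 15900944) (nat_lit 0x77bef9212) (nat_lit 1017846086),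
  Rx.mk (nat_lit 18) (nat_lit 2) (nat_lit 2) (nat_lit 0) (nat_lit 3) (nat_lit 113) (nat_lit 103) r0_113 r1_103 (nat_lit 0) (nat_lit 0) (nat_lit 24548730) (nat_lit 0x78780d94c) (nat_lit 683979642),
  Rx.mk (nat_lit 64) (nat_lit 0) (nat_lit 0) (nat_lit 1) (nat_lit 4) (nat_lit 114) (nat_lit 95) r0_114 r1_95 (nat_lit 17923102) (nat_lit 301314432) (nat_lit 0) (nat_lit 0x7b08f77e4) (nat_lit 937110096),
  Rx.mk (nat_lit 66) (nat_lit 2) (nat_lit 0) (nat_lit 1) (nat_lit 5) (nat_lit 115) (nat_lit 100) r0_115 r1_100 (nat_lit 0) (nat_lit 40000838) (nat_lit 0) (nat_lit 0x7f4fca046) (nat_lit 589164150),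
  Rx.mk (nat_lit 82) (nat_lit 2) (nat_lit 2) (nat_lit 1) (nat_lit 7) (nat_lit 116) (nat_lit 104) r0_116 r1_104 (nat_lit 0) (nat_lit 0) (nat_lit 0) (nat_lit 0x8008586c6) (nat_lit 537803512),
  Rx.mk (nat_lit 146) (nat_lit 2) (nat_lit 2) (nat_lit 2) (nat_lit 7) (nat_lit 117) (nat_lit 106) r0_117 r1_106 (nat_lit 0) (nat_lit 0) (nat_lit 0) (nat_lit 0x8008e1958) (nat_lit 537770662),
  Rx.mk (nat_lit 192) (nat_lit 0) (nat_lit 0) (nat_lit 3) (nat_lit 4) (nat_lit 118) (nat_lit 96) r0_118 r1_96 (nat_lit 49509170) (nat_lit 236637976) (nat_lit 0) (nat_lit 0x7c1ee06fe) (nat_lit 886572308),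
  Rx.mk (nat_lit 194) (nat_lit 2) (nat_lit 0) (nat_lit 3) (nat_lit 5) (nat_lit 119) (nat_lit 101) r0_119 r1_101 (nat_lit 0) (nat_lit 43159532) (nat_lit 0) (nat_lit 0x7fa01c38c) (nat_lit 587329944),
  Rx.mk (nat_lit 210) (nat_lit 2) (nat_lit 2) (nat_lit 3) (nat_lit 7) (nat_lit 120) (nat_lit 105) r0_120 r1_105 (nat_lit 0) (nat_lit 0) (nat_lit 0) (nat_lit 0x8017985b4) (nat_lit 536870912),
  Rx.mk (nat_lit 216) (nat_lit 0) (nat_lit 3) (nat_lit 3) (nat_lit 6) (nat_lit 121) (nat_lit 97) r0_121 r1_97 (nat_lit 26465750) (nat_lit 0) (nat_lit 0) (nat_lit 0x7f8d66de6) (nat_lit 571814812),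
  Rx.mk (nat_lit 218) (nat_lit 2) (nat_lit 3) (nat_lit 3) (nat_lit 7) (nat_lit 122) (nat_lit 102) r0_122 r1_102 (nat_lit 0) (nat_lit 0) (nat_lit 0) (nat_lit 0x8017985b4) (nat_lit 536870912),
  Rx.mk (nat_lit 219) (nat_lit 3) (nat_lit 3) (nat_lit 3) (nat_lit 7) (nat_lit 123) (nat_lit 98) r0_123 r1_98 (nat_lit 0) (nat_lit 0) (nat_lit 0) (nat_lit 0x8017985b4) (nat_lit 536870912)]
noncomputable def e12_2 : List Rx := [
  Rx.mk (nat_lit 64) (nat_lit 0) (nat_lit 0) (nat_lit 1) (nat_lit 4) (nat_lit 254) (nat_lit 98) r0_254 r2_98 (nat_lit 32319873) (nat_lit 169414750) (nat_lit 0) (nat_lit 0x5d7f70754) (nat_lit 1297226585),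
  Rx.mk (nat_lit 66) (nat_lit 2) (nat_lit 0) (nat_lit 1) (nat_lit 5) (nat_lit 255) (nat_lit 99) r0_255 r2_99 (nat_lit 0) (nat_lit 31094968) (nat_lit 0) (nat_lit 0x7d34113e2) (nat_lit 614066280),
  Rx.mk (nat_lit 82) (nat_lit 2) (nat_lit 2) (nat_lit 1) (nat_lit 7) (nat_lit 256) (nat_lit 100) r0_256 r2_100 (nat_lit 0) (nat_lit 0) (nat_lit 0) (nat_lit 0x8017985b4) (nat_lit 536870912)]
noncomputable def e12_3 : List Rx := [
  Rx.mk (nat_lit 192) (nat_lit 0) (nat_lit 0) (nat_lit 3) (nat_lit 4) (nat_lit 43) (nat_lit 91) r0_43 r3_91 (nat_lit 966) (nat_lit 2481) (nat_lit 0) (nat_lit 0x82288f6ae) (nat_lit 503955459),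
  Rx.mk (nat_lit 194) (nat_lit 2) (nat_lit 0) (nat_lit 3) (nat_lit 5) (nat_lit 44) (nat_lit 97) r0_44 r3_97 (nat_lit 0) (nat_lit 7927509) (nat_lit 0) (nat_lit 0x72604c6ec) (nat_lit 765358121),
  Rx.mk (nat_lit 210) (nat_lit 2) (nat_lit 2) (nat_lit 3) (nat_lit 7) (nat_lit 45) (nat_lit 99) r0_45 r3_99 (nat_lit 0) (nat_lit 0) (nat_lit 0) (nat_lit 0x789a9bc84) (nat_lit 657134512),
  Rx.mk (nat_lit 216) (nat_lit 0) (nat_lit 3) (nat_lit 3) (nat_lit 6) (nat_lit 46) (nat_lit 92) r0_46 r3_92 (nat_lit 1916670) (nat_lit 0) (nat_lit 0) (nat_lit 0x7bfb383c8) (nat_lit 604200682),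
  Rx.mk (nat_lit 218) (nat_lit 2) (nat_lit 3) (nat_lit 3) (nat_lit 7) (nat_lit 47) (nat_lit 98) r0_47 r3_98 (nat_lit 0) (nat_lit 0) (nat_lit 0) (nat_lit 0x7c1fb6a38) (nat_lit 600372212),
  Rx.mk (nat_lit 315) (nat_lit 3) (nat_lit 7) (nat_lit 4) (nat_lit 3) (nat_lit 48) (nat_lit 95) r0_48 r3_95 (nat_lit 0) (nat_lit 0) (nat_lit 48839) (nat_lit 0x6e7903e32) (nat_lit 820364901),
  Rx.mk (nat_lit 472) (nat_lit 0) (nat_lit 3) (nat_lit 7) (nat_lit 6) (nat_lit 49) (nat_lit 93) r0_49 r3_93 (nat_lit 12614) (nat_lit 0) (nat_lit 0) (nat_lit 0x7ff74418c) (nat_lit 537440126),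
  Rx.mk (nat_lit 475) (nat_lit 3) (nat_lit 3) (nat_lit 7) (nat_lit 7) (nat_lit 50) (nat_lit 94) r0_50 r3_94 (nat_lit 0) (nat_lit 0) (nat_lit 0) (nat_lit 0x803739724) (nat_lit 534831362),
  Rx.mk (nat_lit 507) (nat_lit 3) (nat_lit 7) (nat_lit 7) (nat_lit 7) (nat_lit 51) (nat_lit 96) r0_51 r3_96 (nat_lit 0) (nat_lit 0) (nat_lit 0) (nat_lit 0x7f14b983a) (nat_lit 552804862)]
noncomputable def e12_4 : List Rx := [
  Rx.mk (nat_lit 192) (nat_lit 0) (nat_lit 0) (nat_lit 3) (nat_lit 4) (nat_lit 142) (nat_lit 93) r0_142 r4_93 (nat_lit 1138602) (nat_lit 206617785) (nat_lit 0) (nat_lit 0x685ba0238) (nat_lit 1127160549),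
  Rx.mk (nat_lit 194) (nat_lit 2) (nat_lit 0) (nat_lit 3) (nat_lit 5) (nat_lit 143) (nat_lit 95) r0_143 r4_95 (nat_lit 0) (nat_lit 128366738) (nat_lit 0) (nat_lit 0x7fb918d0e) (nat_lit 670781900),
  Rx.mk (nat_lit 210) (nat_lit 2) (nat_lit 2) (nat_lit 3) (nat_lit 7) (nat_lit 144) (nat_lit 97) r0_144 r4_97 (nat_lit 0) (nat_lit 0) (nat_lit 0) (nat_lit 0x7fd67623e) (nat_lit 540864312),
  Rx.mk (nat_lit 216) (nat_lit 0) (nat_lit 3) (nat_lit 3) (nat_lit 6) (nat_lit 145) (nat_lit 94) r0_145 r4_94 (nat_lit 15006223) (nat_lit 0) (nat_lit 0) (nat_lit 0x7cc837842) (nat_lit 604752435),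
  Rx.mk (nat_lit 218) (nat_lit 2) (nat_lit 3) (nat_lit 3) (nat_lit 7) (nat_lit 146) (nat_lit 96) r0_146 r4_96 (nat_lit 0) (nat_lit 0) (nat_lit 0) (nat_lit 0x801c7c06c) (nat_lit 536515262)]
noncomputable def e12_5 : List Rx := [
  Rx.mk (nat_lit 192) (nat_lit 0) (nat_lit 0) (nat_lit 3) (nat_lit 4) (nat_lit 204) (nat_lit 94) r0_204 r5_94 (nat_lit 46998) (nat_lit 538423) (nat_lit 0) (nat_lit 0x84bca4798) (nat_lit 465237583),
  Rx.mk (nat_lit 194) (nat_lit 2) (nat_lit 0) (nat_lit 3) (nat_lit 5) (nat_lit 205) (nat_lit 100) r0_205 r5_100 (nat_lit 0) (nat_lit 331782363) (nat_lit 0) (nat_lit 0x7cda33514) (nat_lit 920285625),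
  Rx.mk (nat_lit 210) (nat_lit 2) (nat_lit 2) (nat_lit 3) (nat_lit 7) (nat_lit 206) (nat_lit 101) r0_206 r5_101 (nat_lit 0) (nat_lit 0) (nat_lit 0) (nat_lit 0x67513425a) (nat_lit 936576412),
  Rx.mk (nat_lit 283) (nat_lit 3) (nat_lit 3) (nat_lit 4) (nat_lit 3) (nat_lit 207) (nat_lit 97) r0_207 r5_97 (nat_lit 0) (nat_lit 0) (nat_lit 10938667) (nat_lit 0x6b03cd2ce) (nat_lit 887781329),
  Rx.mk (nat_lit 315) (nat_lit 3) (nat_lit 7) (nat_lit 4) (nat_lit 3) (nat_lit 208) (nat_lit 99) r0_208 r5_99 (nat_lit 0) (nat_lit 0) (nat_lit 9650169) (nat_lit 0x70202c884) (nat_lit 803847431),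
  Rx.mk (nat_lit 448) (nat_lit 0) (nat_lit 0) (nat_lit 7) (nat_lit 4) (nat_lit 209) (nat_lit 95) r0_209 r5_95 (nat_lit 14014) (nat_lit 20620) (nat_lit 0) (nat_lit 0x76e524eec) (nat_lit 684143846),
  Rx.mk (nat_lit 472) (nat_lit 0) (nat_lit 3) (nat_lit 7) (nat_lit 6) (nat_lit 210) (nat_lit 96) r0_210 r5_96 (nat_lit 6178764) (nat_lit 0) (nat_lit 0) (nat_lit 0x7f794ecf0) (nat_lit 552570776),
  Rx.mk (nat_lit 475) (nat_lit 3) (nat_lit 3) (nat_lit 7) (nat_lit 7) (nat_lit 211) (nat_lit 98) r0_211 r5_98 (nat_lit 0) (nat_lit 0) (nat_lit 0) (nat_lit 0x8017985b4) (nat_lit 536870912)]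
noncomputable def e12_6 : List Rx := [
  Rx.mk (nat_lit 257) (nat_lit 1) (nat_lit 0) (nat_lit 4) (nat_lit 1) (nat_lit 300) (nat_lit 146) r0_300 r3_146 (nat_lit 0) (nat_lit 1823) (nat_lit 3234) (nat_lit 0x7fffe0034) (nat_lit 536886669),
  Rx.mk (nat_lit 281) (nat_lit 1) (nat_lit 3) (nat_lit 4) (nat_lit 3) (nat_lit 301) (nat_lit 149) r0_301 r3_149 (nat_lit 0) (nat_lit 0) (nat_lit 5037900) (nat_lit 0x7d56b4566) (nat_lit 585373512),
  Rx.mk (nat_lit 320) (nat_lit 0) (nat_lit 0) (nat_lit 5) (nat_lit 4) (nat_lit 302) (nat_lit 145) r0_302 r3_145 (nat_lit 5862) (nat_lit 13151) (nat_lit 0) (nat_lit 0x7a31628ba) (nat_lit 630796625),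
  Rx.mk (nat_lit 321) (nat_lit 1) (nat_lit 0) (nat_lit 5) (nat_lit 5) (nat_lit 303) (nat_lit 147) r0_303 r3_147 (nat_lit 0) (nat_lit 2227735) (nat_lit 0) (nat_lit 0x7cd025f7c) (nat_lit 590865397),
  Rx.mk (nat_lit 344) (nat_lit 0) (nat_lit 3) (nat_lit 5) (nat_lit 6) (nat_lit 304) (nat_lit 148) r0_304 r3_148 (nat_lit 1966223) (nat_lit 0) (nat_lit 0) (nat_lit 0x7a0eec8a8) (nat_lit 635246135),
  Rx.mk (nat_lit 345) (nat_lit 1) (nat_lit 3) (nat_lit 5) (nat_lit 7) (nat_lit 305) (nat_lit 150) r0_305 r3_150 (nat_lit 0) (nat_lit 0) (nat_lit 0) (nat_lit 0x81fa69626) (nat_lit 507231062)]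
noncomputable def e12_7 : List Rx := [
  Rx.mk (nat_lit 320) (nat_lit 0) (nat_lit 0) (nat_lit 5) (nat_lit 4) (nat_lit 248) (nat_lit 171) r0_248 r0_171 (nat_lit 19628) (nat_lit 1057520207) (nat_lit 0) (nat_lit 0x8001a79da) (nat_lit 1594326447),
  Rx.mk (nat_lit 321) (nat_lit 1) (nat_lit 0) (nat_lit 5) (nat_lit 5) (nat_lit 249) (nat_lit 172) r0_249 r0_172 (nat_lit 0) (nat_lit 495476102) (nat_lit 0) (nat_lit 0x7bfc24796) (nat_lit 1097908564)]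
noncomputable def e12_8 : List Rx := [
  Rx.mk (nat_lit 64) (nat_lit 0) (nat_lit 0) (nat_lit 1) (nat_lit 4) (nat_lit 265) (nat_lit 180) r0_265 r1_180 (nat_lit 14461079) (nat_lit 67542365) (nat_lit 0) (nat_lit 0x5cc089d90) (nat_lit 1189508356),
  Rx.mk (nat_lit 65) (nat_lit 1) (nat_lit 0) (nat_lit 1) (nat_lit 5) (nat_lit 266) (nat_lit 182) r0_266 r1_182 (nat_lit 0) (nat_lit 30433232) (nat_lit 0) (nat_lit 0x7d7bf805c) (nat_lit 608923094),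
  Rx.mk (nat_lit 66) (nat_lit 2) (nat_lit 0) (nat_lit 1) (nat_lit 5) (nat_lit 267) (nat_lit 183) r0_267 r1_183 (nat_lit 0) (nat_lit 99141069) (nat_lit 0) (nat_lit 0x7f0a1588e) (nat_lit 652491131),
  Rx.mk (nat_lit 82) (nat_lit 2) (nat_lit 2) (nat_lit 1) (nat_lit 7) (nat_lit 268) (nat_lit 184) r0_268 r1_184 (nat_lit 0) (nat_lit 0) (nat_lit 0) (nat_lit 0x7c86d8338) (nat_lit 593842712),
  Rx.mk (nat_lit 320) (nat_lit 0) (nat_lit 0) (nat_lit 5) (nat_lit 4) (nat_lit 269) (nat_lit 179) r0_269 r1_179 (nat_lit 62636) (nat_lit 1205034172) (nat_lit 0) (nat_lit 0x802a2cad6) (nat_lit 1739481320),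
  Rx.mk (nat_lit 321) (nat_lit 1) (nat_lit 0) (nat_lit 5) (nat_lit 5) (nat_lit 270) (nat_lit 181) r0_270 r1_181 (nat_lit 0) (nat_lit 72480076) (nat_lit 0) (nat_lit 0x7991dfe78) (nat_lit 713984088)]
noncomputable def e12_9 : List Rx := [
  Rx.mk (nat_lit 320) (nat_lit 0) (nat_lit 0) (nat_lit 5) (nat_lit 4) (nat_lit 318) (nat_lit 155) r0_318 r4_155 (nat_lit 2195696) (nat_lit 125045575) (nat_lit 0) (nat_lit 0x6ae14ea2c) (nat_lit 1005937833),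
  Rx.mk (nat_lit 321) (nat_lit 1) (nat_lit 0) (nat_lit 5) (nat_lit 5) (nat_lit 319) (nat_lit 156) r0_319 r4_156 (nat_lit 0) (nat_lit 25377028) (nat_lit 0) (nat_lit 0x7f22d5c02) (nat_lit 577258190),
  Rx.mk (nat_lit 344) (nat_lit 0) (nat_lit 3) (nat_lit 5) (nat_lit 6) (nat_lit 320) (nat_lit 157) r0_320 r4_157 (nat_lit 9212328) (nat_lit 0) (nat_lit 0) (nat_lit 0x785000486) (nat_lit 671079090),
  Rx.mk (nat_lit 345) (nat_lit 1) (nat_lit 3) (nat_lit 5) (nat_lit 7) (nat_lit 321) (nat_lit 158) r0_321 r4_158 (nat_lit 0) (nat_lit 0) (nat_lit 0) (nat_lit 0x80b12ecdc) (nat_lit 527417312)]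
noncomputable def e12_10 : List Rx := [
  Rx.mk (nat_lit 280) (nat_lit 0) (nat_lit 3) (nat_lit 4) (nat_lit 2) (nat_lit 228) (nat_lit 99) r0_228 r6_99 (nat_lit 476596) (nat_lit 0) (nat_lit 549304) (nat_lit 0x63aaea0f0) (nat_lit 996170062),
  Rx.mk (nat_lit 281) (nat_lit 1) (nat_lit 3) (nat_lit 4) (nat_lit 3) (nat_lit 229) (nat_lit 102) r0_229 r6_102 (nat_lit 0) (nat_lit 0) (nat_lit 2611205) (nat_lit 0x83a05514c) (nat_lit 484513917),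
  Rx.mk (nat_lit 283) (nat_lit 3) (nat_lit 3) (nat_lit 4) (nat_lit 3) (nat_lit 230) (nat_lit 104) r0_230 r6_104 (nat_lit 0) (nat_lit 0) (nat_lit 14019292) (nat_lit 0x774820d34) (nat_lit 692574004),
  Rx.mk (nat_lit 315) (nat_lit 3) (nat_lit 7) (nat_lit 4) (nat_lit 3) (nat_lit 231) (nat_lit 105) r0_231 r6_105 (nat_lit 0) (nat_lit 0) (nat_lit 7518208) (nat_lit 0x737802416) (nat_lit 747659820),
  Rx.mk (nat_lit 448) (nat_lit 0) (nat_lit 0) (nat_lit 7) (nat_lit 4) (nat_lit 232) (nat_lit 98) r0_232 r6_98 (nat_lit 853516) (nat_lit 961472) (nat_lit 0) (nat_lit 0x7527736a6) (nat_lit 714260500),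
  Rx.mk (nat_lit 449) (nat_lit 1) (nat_lit 0) (nat_lit 7) (nat_lit 5) (nat_lit 233) (nat_lit 101) r0_233 r6_101 (nat_lit 0) (nat_lit 727303) (nat_lit 0) (nat_lit 0x864e745a0) (nat_lit 441614815),
  Rx.mk (nat_lit 472) (nat_lit 0) (nat_lit 3) (nat_lit 7) (nat_lit 6) (nat_lit 234) (nat_lit 100) r0_234 r6_100 (nat_lit 11464009) (nat_lit 0) (nat_lit 0) (nat_lit 0x7fcd39b80) (nat_lit 552812521),
  Rx.mk (nat_lit 473) (nat_lit 1) (nat_lit 3) (nat_lit 7) (nat_lit 7) (nat_lit 235) (nat_lit 103) r0_235 r6_103 (nat_lit 0) (nat_lit 0) (nat_lit 0) (nat_lit 0x86cc8ff0c) (nat_lit 433849212)]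
noncomputable def e12_11 : List Rx := [
  Rx.mk (nat_lit 256) (nat_lit 0) (nat_lit 0) (nat_lit 4) (nat_lit 0) (nat_lit 330) (nat_lit 152) r0_330 r5_152 (nat_lit 4746) (nat_lit 246635775) (nat_lit 4295) (nat_lit 0x7ffebcf68) (nat_lit 783597078),
  Rx.mk (nat_lit 257) (nat_lit 1) (nat_lit 0) (nat_lit 4) (nat_lit 1) (nat_lit 331) (nat_lit 155) r0_331 r5_155 (nat_lit 0) (nat_lit 12431881) (nat_lit 18467620) (nat_lit 0x77229ca54) (nat_lit 711720913),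
  Rx.mk (nat_lit 280) (nat_lit 0) (nat_lit 3) (nat_lit 4) (nat_lit 2) (nat_lit 332) (nat_lit 158) r0_332 r5_158 (nat_lit 9046091) (nat_lit 0) (nat_lit 9515140) (nat_lit 0x640679402) (nat_lit 1008402593),
  Rx.mk (nat_lit 281) (nat_lit 1) (nat_lit 3) (nat_lit 4) (nat_lit 3) (nat_lit 333) (nat_lit 160) r0_333 r5_160 (nat_lit 0) (nat_lit 0) (nat_lit 20486354) (nat_lit 0x7e13133ec) (nat_lit 589334166),
  Rx.mk (nat_lit 283) (nat_lit 3) (nat_lit 3) (nat_lit 4) (nat_lit 3) (nat_lit 334) (nat_lit 162) r0_334 r5_162 (nat_lit 0) (nat_lit 0) (nat_lit 25423219) (nat_lit 0x71dceb686) (nat_lit 791634281),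
  Rx.mk (nat_lit 320) (nat_lit 0) (nat_lit 0) (nat_lit 5) (nat_lit 4) (nat_lit 335) (nat_lit 153) r0_335 r5_153 (nat_lit 7966129) (nat_lit 72835185) (nat_lit 0) (nat_lit 0x768dbcfb0) (nat_lit 771020776),
  Rx.mk (nat_lit 321) (nat_lit 1) (nat_lit 0) (nat_lit 5) (nat_lit 5) (nat_lit 336) (nat_lit 156) r0_336 r5_156 (nat_lit 0) (nat_lit 32356529) (nat_lit 0) (nat_lit 0x7e416a34e) (nat_lit 598396941),
  Rx.mk (nat_lit 344) (nat_lit 0) (nat_lit 3) (nat_lit 5) (nat_lit 6) (nat_lit 337) (nat_lit 159) r0_337 r5_159 (nat_lit 15727667) (nat_lit 0) (nat_lit 0) (nat_lit 0x785988350) (nat_lit 677032129),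
  Rx.mk (nat_lit 345) (nat_lit 1) (nat_lit 3) (nat_lit 5) (nat_lit 7) (nat_lit 338) (nat_lit 161) r0_338 r5_161 (nat_lit 0) (nat_lit 0) (nat_lit 0) (nat_lit 0x7f6c75efc) (nat_lit 547366462),
  Rx.mk (nat_lit 347) (nat_lit 3) (nat_lit 3) (nat_lit 5) (nat_lit 7) (nat_lit 339) (nat_lit 163) r0_339 r5_163 (nat_lit 0) (nat_lit 0) (nat_lit 0) (nat_lit 0x804d1b93e) (nat_lit 533580312),
  Rx.mk (nat_lit 448) (nat_lit 0) (nat_lit 0) (nat_lit 7) (nat_lit 4) (nat_lit 340) (nat_lit 154) r0_340 r5_154 (nat_lit 2248887) (nat_lit 43528741) (nat_lit 0) (nat_lit 0x7781485e4) (nat_lit 720358340),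
  Rx.mk (nat_lit 449) (nat_lit 1) (nat_lit 0) (nat_lit 7) (nat_lit 5) (nat_lit 341) (nat_lit 157) r0_341 r5_157 (nat_lit 0) (nat_lit 4283816) (nat_lit 0) (nat_lit 0x76dca6428) (nat_lit 689405378)]
noncomputable def e12_12 : List Rx := [
  Rx.mk (nat_lit 18) (nat_lit 2) (nat_lit 2) (nat_lit 0) (nat_lit 3) (nat_lit 0) (nat_lit 10) r0_0 r0_10 (nat_lit 0) (nat_lit 0) (nat_lit 80316) (nat_lit 0x5509d2c2a) (nat_lit 1231694478),
  Rx.mk (nat_lit 146) (nat_lit 2) (nat_lit 2) (nat_lit 2) (nat_lit 7) (nat_lit 1) (nat_lit 19) r0_1 r0_19 (nat_lit 0) (nat_lit 0) (nat_lit 0) (nat_lit 0x74e6e15d4) (nat_lit 716955412),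
  Rx.mk (nat_lit 150) (nat_lit 6) (nat_lit 2) (nat_lit 2) (nat_lit 7) (nat_lit 2) (nat_lit 18) r0_2 r0_18 (nat_lit 0) (nat_lit 0) (nat_lit 0) (nat_lit 0x7e64f42d8) (nat_lit 563774762),
  Rx.mk (nat_lit 182) (nat_lit 6) (nat_lit 6) (nat_lit 2) (nat_lit 7) (nat_lit 3) (nat_lit 17) r0_3 r0_17 (nat_lit 0) (nat_lit 0) (nat_lit 0) (nat_lit 0x7e8dbb8b0) (nat_lit 561242362),
  Rx.mk (nat_lit 192) (nat_lit 0) (nat_lit 0) (nat_lit 3) (nat_lit 4) (nat_lit 4) (nat_lit 11) r0_4 r0_11 (nat_lit 5108) (nat_lit 6426) (nat_lit 0) (nat_lit 0x7ff90f05c) (nat_lit 537322946),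
  Rx.mk (nat_lit 194) (nat_lit 2) (nat_lit 0) (nat_lit 3) (nat_lit 5) (nat_lit 5) (nat_lit 12) r0_5 r0_12 (nat_lit 0) (nat_lit 11895286) (nat_lit 0) (nat_lit 0x6f9864d16) (nat_lit 814611698),
  Rx.mk (nat_lit 210) (nat_lit 2) (nat_lit 2) (nat_lit 3) (nat_lit 7) (nat_lit 6) (nat_lit 16) r0_6 r0_16 (nat_lit 0) (nat_lit 0) (nat_lit 0) (nat_lit 0x7fe5259ba) (nat_lit 538574762),
  Rx.mk (nat_lit 216) (nat_lit 0) (nat_lit 3) (nat_lit 3) (nat_lit 6) (nat_lit 7) (nat_lit 13) r0_7 r0_13 (nat_lit 22473) (nat_lit 0) (nat_lit 0) (nat_lit 0x842299b94) (nat_lit 473842535),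
  Rx.mk (nat_lit 218) (nat_lit 2) (nat_lit 3) (nat_lit 3) (nat_lit 7) (nat_lit 8) (nat_lit 15) r0_8 r0_15 (nat_lit 0) (nat_lit 0) (nat_lit 0) (nat_lit 0x7d18c92ba) (nat_lit 584629662),
  Rx.mk (nat_lit 219) (nat_lit 3) (nat_lit 3) (nat_lit 3) (nat_lit 7) (nat_lit 9) (nat_lit 14) r0_9 r0_14 (nat_lit 0) (nat_lit 0) (nat_lit 0) (nat_lit 0x7d7548f40) (nat_lit 578841012),
  Rx.mk (nat_lit 319) (nat_lit 7) (nat_lit 7) (nat_lit 4) (nat_lit 3) (nat_lit 10) (nat_lit 0) r0_10 r0_0 (nat_lit 0) (nat_lit 0) (nat_lit 80316) (nat_lit 0x5509d2c2a) (nat_lit 1231694478),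
  Rx.mk (nat_lit 420) (nat_lit 4) (nat_lit 4) (nat_lit 6) (nat_lit 4) (nat_lit 11) (nat_lit 4) r0_11 r0_4 (nat_lit 5108) (nat_lit 6426) (nat_lit 0) (nat_lit 0x7ff90f05c) (nat_lit 537322946),
  Rx.mk (nat_lit 423) (nat_lit 7) (nat_lit 4) (nat_lit 6) (nat_lit 5) (nat_lit 12) (nat_lit 5) r0_12 r0_5 (nat_lit 0) (nat_lit 11895286) (nat_lit 0) (nat_lit 0x6f9864d16) (nat_lit 814611698),
  Rx.mk (nat_lit 436) (nat_lit 4) (nat_lit 6) (nat_lit 6) (nat_lit 6) (nat_lit 13) (nat_lit 7) r0_13 r0_7 (nat_lit 22473) (nat_lit 0) (nat_lit 0) (nat_lit 0x842299b94) (nat_lit 473842535),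
  Rx.mk (nat_lit 438) (nat_lit 6) (nat_lit 6) (nat_lit 6) (nat_lit 7) (nat_lit 14) (nat_lit 9) r0_14 r0_9 (nat_lit 0) (nat_lit 0) (nat_lit 0) (nat_lit 0x7d7548f40) (nat_lit 578841012),
  Rx.mk (nat_lit 439) (nat_lit 7) (nat_lit 6) (nat_lit 6) (nat_lit 7) (nat_lit 15) (nat_lit 8) r0_15 r0_8 (nat_lit 0) (nat_lit 0) (nat_lit 0) (nat_lit 0x7d18c92ba) (nat_lit 584629662),
  Rx.mk (nat_lit 447) (nat_lit 7) (nat_lit 7) (nat_lit 6) (nat_lit 7) (nat_lit 16) (nat_lit 6) r0_16 r0_6 (nat_lit 0) (nat_lit 0) (nat_lit 0) (nat_lit 0x7fe5259ba) (nat_lit 538574762),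
  Rx.mk (nat_lit 475) (nat_lit 3) (nat_lit 3) (nat_lit 7) (nat_lit 7) (nat_lit 17) (nat_lit 3) r0_17 r0_3 (nat_lit 0) (nat_lit 0) (nat_lit 0) (nat_lit 0x7e8dbb8b0) (nat_lit 561242362),
  Rx.mk (nat_lit 507) (nat_lit 3) (nat_lit 7) (nat_lit 7) (nat_lit 7) (nat_lit 18) (nat_lit 2) r0_18 r0_2 (nat_lit 0) (nat_lit 0) (nat_lit 0) (nat_lit 0x7e64f42d8) (nat_lit 563774762),
  Rx.mk (nat_lit 511) (nat_lit 7) (nat_lit 7) (nat_lit 7) (nat_lit 7) (nat_lit 19) (nat_lit 1) r0_19 r0_1 (nat_lit 0) (nat_lit 0) (nat_lit 0) (nat_lit 0x74e6e15d4) (nat_lit 716955412)]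
noncomputable def e12_13 : List Rx := [
  Rx.mk (nat_lit 2) (nat_lit 2) (nat_lit 0) (nat_lit 0) (nat_lit 1) (nat_lit 100) (nat_lit 96) r0_100 r7_96 (nat_lit 0) (nat_lit 46745449) (nat_lit 31904360) (nat_lit 0x5c2702b54) (nat_lit 1195869321),
  Rx.mk (nat_lit 18) (nat_lit 2) (nat_lit 2) (nat_lit 0) (nat_lit 3) (nat_lit 101) (nat_lit 99) r0_101 r7_99 (nat_lit 0) (nat_lit 0) (nat_lit 15260325) (nat_lit 0x6e0d6284a) (nat_lit 843049387),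
  Rx.mk (nat_lit 146) (nat_lit 2) (nat_lit 2) (nat_lit 2) (nat_lit 7) (nat_lit 102) (nat_lit 101) r0_102 r7_101 (nat_lit 0) (nat_lit 0) (nat_lit 0) (nat_lit 0x7dc623460) (nat_lit 573811562),
  Rx.mk (nat_lit 150) (nat_lit 6) (nat_lit 2) (nat_lit 2) (nat_lit 7) (nat_lit 103) (nat_lit 102) r0_103 r7_102 (nat_lit 0) (nat_lit 0) (nat_lit 0) (nat_lit 0x8017985b4) (nat_lit 536870912),
  Rx.mk (nat_lit 182) (nat_lit 6) (nat_lit 6) (nat_lit 2) (nat_lit 7) (nat_lit 104) (nat_lit 103) r0_104 r7_103 (nat_lit 0) (nat_lit 0) (nat_lit 0) (nat_lit 0x7ffe471c8) (nat_lit 538421712),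
  Rx.mk (nat_lit 192) (nat_lit 0) (nat_lit 0) (nat_lit 3) (nat_lit 4) (nat_lit 105) (nat_lit 93) r0_105 r7_93 (nat_lit 4536926) (nat_lit 9373510) (nat_lit 0) (nat_lit 0x680227486) (nat_lit 939230248),
  Rx.mk (nat_lit 194) (nat_lit 2) (nat_lit 0) (nat_lit 3) (nat_lit 5) (nat_lit 106) (nat_lit 97) r0_106 r7_97 (nat_lit 0) (nat_lit 73862049) (nat_lit 0) (nat_lit 0x7d468cf26) (nat_lit 655662261),
  Rx.mk (nat_lit 210) (nat_lit 2) (nat_lit 2) (nat_lit 3) (nat_lit 7) (nat_lit 107) (nat_lit 100) r0_107 r7_100 (nat_lit 0) (nat_lit 0) (nat_lit 0) (nat_lit 0x7fdfab7e6) (nat_lit 540283862),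
  Rx.mk (nat_lit 216) (nat_lit 0) (nat_lit 3) (nat_lit 3) (nat_lit 6) (nat_lit 108) (nat_lit 94) r0_108 r7_94 (nat_lit 24727622) (nat_lit 0) (nat_lit 0) (nat_lit 0x7be4cbc66) (nat_lit 628839434),
  Rx.mk (nat_lit 218) (nat_lit 2) (nat_lit 3) (nat_lit 3) (nat_lit 7) (nat_lit 109) (nat_lit 98) r0_109 r7_98 (nat_lit 0) (nat_lit 0) (nat_lit 0) (nat_lit 0x7ff31a048) (nat_lit 539113112),
  Rx.mk (nat_lit 219) (nat_lit 3) (nat_lit 3) (nat_lit 3) (nat_lit 7) (nat_lit 110) (nat_lit 95) r0_110 r7_95 (nat_lit 0) (nat_lit 0) (nat_lit 0) (nat_lit 0x8017985b4) (nat_lit 536870912)]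
noncomputable def e12_14 : List Rx := [
  Rx.mk (nat_lit 150) (nat_lit 6) (nat_lit 2) (nat_lit 2) (nat_lit 7) (nat_lit 20) (nat_lit 9) r0_20 r1_9 (nat_lit 0) (nat_lit 0) (nat_lit 0) (nat_lit 0x802da032a) (nat_lit 535514012),
  Rx.mk (nat_lit 182) (nat_lit 6) (nat_lit 6) (nat_lit 2) (nat_lit 7) (nat_lit 21) (nat_lit 8) r0_21 r1_8 (nat_lit 0) (nat_lit 0) (nat_lit 0) (nat_lit 0x807414446) (nat_lit 531187112),
  Rx.mk (nat_lit 319) (nat_lit 7) (nat_lit 7) (nat_lit 4) (nat_lit 3) (nat_lit 22) (nat_lit 0) r0_22 r1_0 (nat_lit 0) (nat_lit 0) (nat_lit 23596477) (nat_lit 0x69c6e3bc0) (nat_lit 920472039),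
  Rx.mk (nat_lit 420) (nat_lit 4) (nat_lit 4) (nat_lit 6) (nat_lit 4) (nat_lit 23) (nat_lit 2) r0_23 r1_2 (nat_lit 3151689) (nat_lit 5604383) (nat_lit 0) (nat_lit 0x6d7564e26) (nat_lit 845928484),
  Rx.mk (nat_lit 423) (nat_lit 7) (nat_lit 4) (nat_lit 6) (nat_lit 5) (nat_lit 24) (nat_lit 3) r0_24 r1_3 (nat_lit 0) (nat_lit 22794505) (nat_lit 0) (nat_lit 0x7f395dd58) (nat_lit 573339467),
  Rx.mk (nat_lit 436) (nat_lit 4) (nat_lit 6) (nat_lit 6) (nat_lit 6) (nat_lit 25) (nat_lit 5) r0_25 r1_5 (nat_lit 8756247) (nat_lit 0) (nat_lit 0) (nat_lit 0x7bbb71c80) (nat_lit 615374609),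
  Rx.mk (nat_lit 438) (nat_lit 6) (nat_lit 6) (nat_lit 6) (nat_lit 7) (nat_lit 26) (nat_lit 7) r0_26 r1_7 (nat_lit 0) (nat_lit 0) (nat_lit 0) (nat_lit 0x801bfa5bc) (nat_lit 536589212),
  Rx.mk (nat_lit 439) (nat_lit 7) (nat_lit 6) (nat_lit 6) (nat_lit 7) (nat_lit 27) (nat_lit 6) r0_27 r1_6 (nat_lit 0) (nat_lit 0) (nat_lit 0) (nat_lit 0x80362d196) (nat_lit 534989612),
  Rx.mk (nat_lit 447) (nat_lit 7) (nat_lit 7) (nat_lit 6) (nat_lit 7) (nat_lit 28) (nat_lit 4) r0_28 r1_4 (nat_lit 0) (nat_lit 0) (nat_lit 0) (nat_lit 0x87136526a) (nat_lit 429577662),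
  Rx.mk (nat_lit 511) (nat_lit 7) (nat_lit 7) (nat_lit 7) (nat_lit 7) (nat_lit 29) (nat_lit 1) r0_29 r1_1 (nat_lit 0) (nat_lit 0) (nat_lit 0) (nat_lit 0x807eeb3e2) (nat_lit 530392612)]
noncomputable def e12_15 : List Rx := [
  Rx.mk (nat_lit 150) (nat_lit 6) (nat_lit 2) (nat_lit 2) (nat_lit 7) (nat_lit 139) (nat_lit 76) r0_139 r8_76 (nat_lit 0) (nat_lit 0) (nat_lit 0) (nat_lit 0x8017985b4) (nat_lit 536870912),
  Rx.mk (nat_lit 182) (nat_lit 6) (nat_lit 6) (nat_lit 2) (nat_lit 7) (nat_lit 140) (nat_lit 77) r0_140 r8_77 (nat_lit 0) (nat_lit 0) (nat_lit 0) (nat_lit 0x8017985b4) (nat_lit 536870912)]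
noncomputable def e12_16 : List Rx := [
  Rx.mk (nat_lit 0) (nat_lit 0) (nat_lit 0) (nat_lit 0) (nat_lit 0) (nat_lit 124) (nat_lit 0) r0_124 r8_0 (nat_lit 11031913) (nat_lit 37018604) (nat_lit 7939868) (nat_lit 0x2f3402ffc) (nat_lit 1899960047),
  Rx.mk (nat_lit 2) (nat_lit 2) (nat_lit 0) (nat_lit 0) (nat_lit 1) (nat_lit 125) (nat_lit 1) r0_125 r8_1 (nat_lit 0) (nat_lit 43759254) (nat_lit 26421063) (nat_lit 0x5ccc534e6) (nat_lit 1176984379),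
  Rx.mk (nat_lit 18) (nat_lit 2) (nat_lit 2) (nat_lit 0) (nat_lit 3) (nat_lit 126) (nat_lit 2) r0_126 r8_2 (nat_lit 0) (nat_lit 0) (nat_lit 19040660) (nat_lit 0x6f984888c) (nat_lit 821904322),
  Rx.mk (nat_lit 64) (nat_lit 0) (nat_lit 0) (nat_lit 1) (nat_lit 4) (nat_lit 127) (nat_lit 3) r0_127 r8_3 (nat_lit 32206150) (nat_lit 82416712) (nat_lit 0) (nat_lit 0x66c0ffdc4) (nat_lit 1060452374),
  Rx.mk (nat_lit 66) (nat_lit 2) (nat_lit 0) (nat_lit 1) (nat_lit 5) (nat_lit 128) (nat_lit 4) r0_128 r8_4 (nat_lit 0) (nat_lit 28052384) (nat_lit 0) (nat_lit 0x7ecc55e04) (nat_lit 585422396),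
  Rx.mk (nat_lit 82) (nat_lit 2) (nat_lit 2) (nat_lit 1) (nat_lit 7) (nat_lit 129) (nat_lit 5) r0_129 r8_5 (nat_lit 0) (nat_lit 0) (nat_lit 0) (nat_lit 0x7feae9d88) (nat_lit 539601062),
  Rx.mk (nat_lit 146) (nat_lit 2) (nat_lit 2) (nat_lit 2) (nat_lit 7) (nat_lit 130) (nat_lit 14) r0_130 r8_14 (nat_lit 0) (nat_lit 0) (nat_lit 0) (nat_lit 0x7fa4b61a4) (nat_lit 543932912),
  Rx.mk (nat_lit 150) (nat_lit 6) (nat_lit 2) (nat_lit 2) (nat_lit 7) (nat_lit 131) (nat_lit 13) r0_131 r8_13 (nat_lit 0) (nat_lit 0) (nat_lit 0) (nat_lit 0x8017985b4) (nat_lit 536870912),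
  Rx.mk (nat_lit 182) (nat_lit 6) (nat_lit 6) (nat_lit 2) (nat_lit 7) (nat_lit 132) (nat_lit 12) r0_132 r8_12 (nat_lit 0) (nat_lit 0) (nat_lit 0) (nat_lit 0x8017985b4) (nat_lit 536870912),
  Rx.mk (nat_lit 192) (nat_lit 0) (nat_lit 0) (nat_lit 3) (nat_lit 4) (nat_lit 133) (nat_lit 6) r0_133 r8_6 (nat_lit 35479035) (nat_lit 54286075) (nat_lit 0) (nat_lit 0x62e45b6c8) (nat_lit 1098022322),
  Rx.mk (nat_lit 194) (nat_lit 2) (nat_lit 0) (nat_lit 3) (nat_lit 5) (nat_lit 134) (nat_lit 7) r0_134 r8_7 (nat_lit 0) (nat_lit 28597756) (nat_lit 0) (nat_lit 0x7fab4f40c) (nat_lit 572118568),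
  Rx.mk (nat_lit 210) (nat_lit 2) (nat_lit 2) (nat_lit 3) (nat_lit 7) (nat_lit 135) (nat_lit 11) r0_135 r8_11 (nat_lit 0) (nat_lit 0) (nat_lit 0) (nat_lit 0x7ffc6e694) (nat_lit 538526762),
  Rx.mk (nat_lit 216) (nat_lit 0) (nat_lit 3) (nat_lit 3) (nat_lit 6) (nat_lit 136) (nat_lit 8) r0_136 r8_8 (nat_lit 31117367) (nat_lit 0) (nat_lit 0) (nat_lit 0x7e047cca2) (nat_lit 600994729),
  Rx.mk (nat_lit 218) (nat_lit 2) (nat_lit 3) (nat_lit 3) (nat_lit 7) (nat_lit 137) (nat_lit 10) r0_137 r8_10 (nat_lit 0) (nat_lit 0) (nat_lit 0) (nat_lit 0x8017985b4) (nat_lit 536870912),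
  Rx.mk (nat_lit 219) (nat_lit 3) (nat_lit 3) (nat_lit 3) (nat_lit 7) (nat_lit 138) (nat_lit 9) r0_138 r8_9 (nat_lit 0) (nat_lit 0) (nat_lit 0) (nat_lit 0x8017985b4) (nat_lit 536870912)]
noncomputable def e12_17 : List Rx := [
  Rx.mk (nat_lit 64) (nat_lit 0) (nat_lit 0) (nat_lit 1) (nat_lit 4) (nat_lit 262) (nat_lit 65) r0_262 r9_65 (nat_lit 35271211) (nat_lit 111519439) (nat_lit 0) (nat_lit 0x580e92528) (nat_lit 1330276712),
  Rx.mk (nat_lit 66) (nat_lit 2) (nat_lit 0) (nat_lit 1) (nat_lit 5) (nat_lit 263) (nat_lit 66) r0_263 r9_66 (nat_lit 0) (nat_lit 42181634) (nat_lit 0) (nat_lit 0x7bc61b1a4) (nat_lit 648220246),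
  Rx.mk (nat_lit 82) (nat_lit 2) (nat_lit 2) (nat_lit 1) (nat_lit 7) (nat_lit 264) (nat_lit 67) r0_264 r9_67 (nat_lit 0) (nat_lit 0) (nat_lit 0) (nat_lit 0x7fcef5a96) (nat_lit 541322112)]
noncomputable def e12_18 : List Rx := [
  Rx.mk (nat_lit 192) (nat_lit 0) (nat_lit 0) (nat_lit 3) (nat_lit 4) (nat_lit 52) (nat_lit 8) r0_52 r4_8 (nat_lit 6694296) (nat_lit 22112455) (nat_lit 0) (nat_lit 0x63f406554) (nat_lit 1019765813),
  Rx.mk (nat_lit 194) (nat_lit 2) (nat_lit 0) (nat_lit 3) (nat_lit 5) (nat_lit 53) (nat_lit 9) r0_53 r4_9 (nat_lit 0) (nat_lit 74749020) (nat_lit 0) (nat_lit 0x751698fde) (nat_lit 788742832),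
  Rx.mk (nat_lit 210) (nat_lit 2) (nat_lit 2) (nat_lit 3) (nat_lit 7) (nat_lit 54) (nat_lit 12) r0_54 r4_12 (nat_lit 0) (nat_lit 0) (nat_lit 0) (nat_lit 0x76aa13858) (nat_lit 688374962),
  Rx.mk (nat_lit 216) (nat_lit 0) (nat_lit 3) (nat_lit 3) (nat_lit 6) (nat_lit 55) (nat_lit 10) r0_55 r4_10 (nat_lit 12464414) (nat_lit 0) (nat_lit 0) (nat_lit 0x7d1fc1338) (nat_lit 596680676),
  Rx.mk (nat_lit 218) (nat_lit 2) (nat_lit 3) (nat_lit 3) (nat_lit 7) (nat_lit 56) (nat_lit 11) r0_56 r4_11 (nat_lit 0) (nat_lit 0) (nat_lit 0) (nat_lit 0x8071443a6) (nat_lit 531356412),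
  Rx.mk (nat_lit 315) (nat_lit 3) (nat_lit 7) (nat_lit 4) (nat_lit 3) (nat_lit 57) (nat_lit 1) r0_57 r4_1 (nat_lit 0) (nat_lit 0) (nat_lit 13925368) (nat_lit 0x7d011df30) (nat_lit 600028230),
  Rx.mk (nat_lit 319) (nat_lit 7) (nat_lit 7) (nat_lit 4) (nat_lit 3) (nat_lit 58) (nat_lit 0) r0_58 r4_0 (nat_lit 0) (nat_lit 0) (nat_lit 5660977) (nat_lit 0x6025939b8) (nat_lit 1058125439),
  Rx.mk (nat_lit 423) (nat_lit 7) (nat_lit 4) (nat_lit 6) (nat_lit 5) (nat_lit 59) (nat_lit 5) r0_59 r4_5 (nat_lit 0) (nat_lit 82674763) (nat_lit 0) (nat_lit 0x7746f3588) (nat_lit 761260075),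
  Rx.mk (nat_lit 439) (nat_lit 7) (nat_lit 6) (nat_lit 6) (nat_lit 7) (nat_lit 60) (nat_lit 7) r0_60 r4_7 (nat_lit 0) (nat_lit 0) (nat_lit 0) (nat_lit 0x7f7512f6a) (nat_lit 546825312),
  Rx.mk (nat_lit 447) (nat_lit 7) (nat_lit 7) (nat_lit 6) (nat_lit 7) (nat_lit 61) (nat_lit 6) r0_61 r4_6 (nat_lit 0) (nat_lit 0) (nat_lit 0) (nat_lit 0x7f2c10cae) (nat_lit 551161962),
  Rx.mk (nat_lit 472) (nat_lit 0) (nat_lit 3) (nat_lit 7) (nat_lit 6) (nat_lit 62) (nat_lit 3) r0_62 r4_3 (nat_lit 11579015) (nat_lit 0) (nat_lit 0) (nat_lit 0x7fd79e04e) (nat_lit 552249627),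
  Rx.mk (nat_lit 475) (nat_lit 3) (nat_lit 3) (nat_lit 7) (nat_lit 7) (nat_lit 63) (nat_lit 4) r0_63 r4_4 (nat_lit 0) (nat_lit 0) (nat_lit 0) (nat_lit 0x804ed3af6) (nat_lit 533452762),
  Rx.mk (nat_lit 507) (nat_lit 3) (nat_lit 7) (nat_lit 7) (nat_lit 7) (nat_lit 64) (nat_lit 2) r0_64 r4_2 (nat_lit 0) (nat_lit 0) (nat_lit 0) (nat_lit 0x80a6ddf44) (nat_lit 528084262)]
noncomputable def e12_19 : List Rx := [
  Rx.mk (nat_lit 192) (nat_lit 0) (nat_lit 0) (nat_lit 3) (nat_lit 4) (nat_lit 147) (nat_lit 77) r0_147 r10_77 (nat_lit 2583088) (nat_lit 5072318) (nat_lit 0) (nat_lit 0x6af50b056) (nat_lit 885195018),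
  Rx.mk (nat_lit 194) (nat_lit 2) (nat_lit 0) (nat_lit 3) (nat_lit 5) (nat_lit 148) (nat_lit 79) r0_148 r10_79 (nat_lit 0) (nat_lit 61676723) (nat_lit 0) (nat_lit 0x7d6a0fc8c) (nat_lit 641243735),
  Rx.mk (nat_lit 210) (nat_lit 2) (nat_lit 2) (nat_lit 3) (nat_lit 7) (nat_lit 149) (nat_lit 81) r0_149 r10_81 (nat_lit 0) (nat_lit 0) (nat_lit 0) (nat_lit 0x7fef30450) (nat_lit 539335212),
  Rx.mk (nat_lit 216) (nat_lit 0) (nat_lit 3) (nat_lit 3) (nat_lit 6) (nat_lit 150) (nat_lit 78) r0_150 r10_78 (nat_lit 21612680) (nat_lit 0) (nat_lit 0) (nat_lit 0x79ca6153a) (nat_lit 659669742),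
  Rx.mk (nat_lit 218) (nat_lit 2) (nat_lit 3) (nat_lit 3) (nat_lit 7) (nat_lit 151) (nat_lit 80) r0_151 r10_80 (nat_lit 0) (nat_lit 0) (nat_lit 0) (nat_lit 0x7fba6e0c8) (nat_lit 542601512)]
noncomputable def e12_20 : List Rx := [
  Rx.mk (nat_lit 192) (nat_lit 0) (nat_lit 0) (nat_lit 3) (nat_lit 4) (nat_lit 212) (nat_lit 91) r0_212 r11_91 (nat_lit 18712504) (nat_lit 170327518) (nat_lit 0) (nat_lit 0x72fa2386a) (nat_lit 937148384),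
  Rx.mk (nat_lit 194) (nat_lit 2) (nat_lit 0) (nat_lit 3) (nat_lit 5) (nat_lit 213) (nat_lit 97) r0_213 r11_97 (nat_lit 0) (nat_lit 153834335) (nat_lit 0) (nat_lit 0x7ce2c9da4) (nat_lit 741924097),
  Rx.mk (nat_lit 210) (nat_lit 2) (nat_lit 2) (nat_lit 3) (nat_lit 7) (nat_lit 214) (nat_lit 98) r0_214 r11_98 (nat_lit 0) (nat_lit 0) (nat_lit 0) (nat_lit 0x8056e7ad0) (nat_lit 532778862),
  Rx.mk (nat_lit 283) (nat_lit 3) (nat_lit 3) (nat_lit 4) (nat_lit 3) (nat_lit 215) (nat_lit 94) r0_215 r11_94 (nat_lit 0) (nat_lit 0) (nat_lit 14894858) (nat_lit 0x800926332) (nat_lit 552590770),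
  Rx.mk (nat_lit 315) (nat_lit 3) (nat_lit 7) (nat_lit 4) (nat_lit 3) (nat_lit 216) (nat_lit 96) r0_216 r11_96 (nat_lit 0) (nat_lit 0) (nat_lit 12688314) (nat_lit 0x803b0d346) (nat_lit 547294026),
  Rx.mk (nat_lit 319) (nat_lit 7) (nat_lit 7) (nat_lit 4) (nat_lit 3) (nat_lit 217) (nat_lit 99) r0_217 r11_99 (nat_lit 0) (nat_lit 0) (nat_lit 11279401) (nat_lit 0x78e6c8c2e) (nat_lit 663631063),
  Rx.mk (nat_lit 447) (nat_lit 7) (nat_lit 7) (nat_lit 6) (nat_lit 7) (nat_lit 218) (nat_lit 100) r0_218 r11_100 (nat_lit 0) (nat_lit 0) (nat_lit 0) (nat_lit 0x81065e126) (nat_lit 522185862),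
  Rx.mk (nat_lit 448) (nat_lit 0) (nat_lit 0) (nat_lit 7) (nat_lit 4) (nat_lit 219) (nat_lit 92) r0_219 r11_92 (nat_lit 7944298) (nat_lit 9949213) (nat_lit 0) (nat_lit 0x6fc82cfd0) (nat_lit 817619223),
  Rx.mk (nat_lit 472) (nat_lit 0) (nat_lit 3) (nat_lit 7) (nat_lit 6) (nat_lit 220) (nat_lit 93) r0_220 r11_93 (nat_lit 15086968) (nat_lit 0) (nat_lit 0) (nat_lit 0x80b26ae3e) (nat_lit 542475880),
  Rx.mk (nat_lit 475) (nat_lit 3) (nat_lit 3) (nat_lit 7) (nat_lit 7) (nat_lit 221) (nat_lit 95) r0_221 r11_95 (nat_lit 0) (nat_lit 0) (nat_lit 0) (nat_lit 0x805e5975a) (nat_lit 532528962)]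
noncomputable def e12_21 : List Rx := [
  Rx.mk (nat_lit 64) (nat_lit 0) (nat_lit 0) (nat_lit 1) (nat_lit 4) (nat_lit 257) (nat_lit 155) r0_257 r9_155 (nat_lit 49590700) (nat_lit 41159980) (nat_lit 0) (nat_lit 0x50d4cab80) (nat_lit 1391082492),
  Rx.mk (nat_lit 66) (nat_lit 2) (nat_lit 0) (nat_lit 1) (nat_lit 5) (nat_lit 258) (nat_lit 156) r0_258 r9_156 (nat_lit 0) (nat_lit 30127539) (nat_lit 0) (nat_lit 0x7a85fc8e4) (nat_lit 656361051),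
  Rx.mk (nat_lit 72) (nat_lit 0) (nat_lit 1) (nat_lit 1) (nat_lit 6) (nat_lit 259) (nat_lit 157) r0_259 r9_157 (nat_lit 28301978) (nat_lit 0) (nat_lit 0) (nat_lit 0x71f06598c) (nat_lit 793284240),
  Rx.mk (nat_lit 74) (nat_lit 2) (nat_lit 1) (nat_lit 1) (nat_lit 7) (nat_lit 260) (nat_lit 158) r0_260 r9_158 (nat_lit 0) (nat_lit 0) (nat_lit 0) (nat_lit 0x7fffa9a3e) (nat_lit 538336962),
  Rx.mk (nat_lit 82) (nat_lit 2) (nat_lit 2) (nat_lit 1) (nat_lit 7) (nat_lit 261) (nat_lit 159) r0_261 r9_159 (nat_lit 0) (nat_lit 0) (nat_lit 0) (nat_lit 0x800dc4ccc) (nat_lit 537471612)]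
noncomputable def e12_22 : List Rx := [
  Rx.mk (nat_lit 265) (nat_lit 1) (nat_lit 1) (nat_lit 4) (nat_lit 3) (nat_lit 243) (nat_lit 243) r0_243 r0_243 (nat_lit 0) (nat_lit 0) (nat_lit 375356366) (nat_lit 0x7fff94e4a) (nat_lit 912268878),
  Rx.mk (nat_lit 320) (nat_lit 0) (nat_lit 0) (nat_lit 5) (nat_lit 4) (nat_lit 244) (nat_lit 244) r0_244 r0_244 (nat_lit 88358360) (nat_lit 88358360) (nat_lit 0) (nat_lit 0x68d4a3a72) (nat_lit 1088870982),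
  Rx.mk (nat_lit 321) (nat_lit 1) (nat_lit 0) (nat_lit 5) (nat_lit 5) (nat_lit 245) (nat_lit 246) r0_245 r0_246 (nat_lit 0) (nat_lit 25767150) (nat_lit 0) (nat_lit 0x782fa05e2) (nat_lit 689732912),
  Rx.mk (nat_lit 328) (nat_lit 0) (nat_lit 1) (nat_lit 5) (nat_lit 6) (nat_lit 246) (nat_lit 245) r0_246 r0_245 (nat_lit 25767150) (nat_lit 0) (nat_lit 0) (nat_lit 0x782fa05e2) (nat_lit 689732912),
  Rx.mk (nat_lit 329) (nat_lit 1) (nat_lit 1) (nat_lit 5) (nat_lit 7) (nat_lit 247) (nat_lit 247) r0_247 r0_247 (nat_lit 0) (nat_lit 0) (nat_lit 0) (nat_lit 0x7f946ba74) (nat_lit 544898012)]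
noncomputable def e12_23 : List Rx := [
  Rx.mk (nat_lit 265) (nat_lit 1) (nat_lit 1) (nat_lit 4) (nat_lit 3) (nat_lit 282) (nat_lit 252) r0_282 r1_252 (nat_lit 0) (nat_lit 0) (nat_lit 585345170) (nat_lit 0x801301b72) (nat_lit 1121100632),
  Rx.mk (nat_lit 328) (nat_lit 0) (nat_lit 1) (nat_lit 5) (nat_lit 6) (nat_lit 283) (nat_lit 253) r0_283 r1_253 (nat_lit 24741287) (nat_lit 0) (nat_lit 0) (nat_lit 0x7fb668af0) (nat_lit 567576349),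
  Rx.mk (nat_lit 329) (nat_lit 1) (nat_lit 1) (nat_lit 5) (nat_lit 7) (nat_lit 284) (nat_lit 254) r0_284 r1_254 (nat_lit 0) (nat_lit 0) (nat_lit 0) (nat_lit 0x7fcf556ee) (nat_lit 541249062)]
noncomputable def e12_24 : List Rx := [
  Rx.mk (nat_lit 257) (nat_lit 1) (nat_lit 0) (nat_lit 4) (nat_lit 1) (nat_lit 306) (nat_lit 253) r0_306 r4_253 (nat_lit 0) (nat_lit 9185379) (nat_lit 44700456) (nat_lit 0x69c6a03b6) (nat_lit 950753297),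
  Rx.mk (nat_lit 265) (nat_lit 1) (nat_lit 1) (nat_lit 4) (nat_lit 3) (nat_lit 307) (nat_lit 254) r0_307 r4_254 (nat_lit 0) (nat_lit 0) (nat_lit 190947877) (nat_lit 0x781662364) (nat_lit 856023289),
  Rx.mk (nat_lit 281) (nat_lit 1) (nat_lit 3) (nat_lit 4) (nat_lit 3) (nat_lit 308) (nat_lit 255) r0_308 r4_255 (nat_lit 0) (nat_lit 0) (nat_lit 34510458) (nat_lit 0x7fea14354) (nat_lit 574129370),
  Rx.mk (nat_lit 320) (nat_lit 0) (nat_lit 0) (nat_lit 5) (nat_lit 4) (nat_lit 309) (nat_lit 256) r0_309 r4_256 (nat_lit 19670024) (nat_lit 33909295) (nat_lit 0) (nat_lit 0x680c7e7d6) (nat_lit 978281281),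
  Rx.mk (nat_lit 321) (nat_lit 1) (nat_lit 0) (nat_lit 5) (nat_lit 5) (nat_lit 310) (nat_lit 259) r0_310 r4_259 (nat_lit 0) (nat_lit 25313016) (nat_lit 0) (nat_lit 0x7f09601dc) (nat_lit 578840728),
  Rx.mk (nat_lit 328) (nat_lit 0) (nat_lit 1) (nat_lit 5) (nat_lit 6) (nat_lit 311) (nat_lit 257) r0_311 r4_257 (nat_lit 27415859) (nat_lit 0) (nat_lit 0) (nat_lit 0x8000d8c2a) (nat_lit 565665771),
  Rx.mk (nat_lit 329) (nat_lit 1) (nat_lit 1) (nat_lit 5) (nat_lit 7) (nat_lit 312) (nat_lit 260) r0_312 r4_260 (nat_lit 0) (nat_lit 0) (nat_lit 0) (nat_lit 0x80abe37c8) (nat_lit 527783112),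
  Rx.mk (nat_lit 344) (nat_lit 0) (nat_lit 3) (nat_lit 5) (nat_lit 6) (nat_lit 313) (nat_lit 258) r0_313 r4_258 (nat_lit 29629750) (nat_lit 0) (nat_lit 0) (nat_lit 0x7db4131bc) (nat_lit 604586362),
  Rx.mk (nat_lit 345) (nat_lit 1) (nat_lit 3) (nat_lit 5) (nat_lit 7) (nat_lit 314) (nat_lit 261) r0_314 r4_261 (nat_lit 0) (nat_lit 0) (nat_lit 0) (nat_lit 0x8024ca73c) (nat_lit 536043112)]
noncomputable def e12_25 : List Rx := [
  Rx.mk (nat_lit 320) (nat_lit 0) (nat_lit 0) (nat_lit 5) (nat_lit 4) (nat_lit 250) (nat_lit 217) r0_250 r7_217 (nat_lit 18636919) (nat_lit 24992992) (nat_lit 0) (nat_lit 0x67a63621c) (nat_lit 974858673),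
  Rx.mk (nat_lit 321) (nat_lit 1) (nat_lit 0) (nat_lit 5) (nat_lit 5) (nat_lit 251) (nat_lit 218) r0_251 r7_218 (nat_lit 0) (nat_lit 25925090) (nat_lit 0) (nat_lit 0x7f7ee0aba) (nat_lit 572200552),
  Rx.mk (nat_lit 328) (nat_lit 0) (nat_lit 1) (nat_lit 5) (nat_lit 6) (nat_lit 252) (nat_lit 219) r0_252 r7_219 (nat_lit 26788272) (nat_lit 0) (nat_lit 0) (nat_lit 0x7afd29426) (nat_lit 645521784),
  Rx.mk (nat_lit 329) (nat_lit 1) (nat_lit 1) (nat_lit 5) (nat_lit 7) (nat_lit 253) (nat_lit 220) r0_253 r7_220 (nat_lit 0) (nat_lit 0) (nat_lit 0) (nat_lit 0x80170d2ac) (nat_lit 536874862)]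
noncomputable def e12_26 : List Rx := [
  Rx.mk (nat_lit 328) (nat_lit 0) (nat_lit 1) (nat_lit 5) (nat_lit 6) (nat_lit 289) (nat_lit 178) r0_289 r8_178 (nat_lit 25058333) (nat_lit 0) (nat_lit 0) (nat_lit 0x74a9cadf8) (nat_lit 746005345),
  Rx.mk (nat_lit 329) (nat_lit 1) (nat_lit 1) (nat_lit 5) (nat_lit 7) (nat_lit 290) (nat_lit 179) r0_290 r8_179 (nat_lit 0) (nat_lit 0) (nat_lit 0) (nat_lit 0x7ffa6b34c) (nat_lit 538657562)]
noncomputable def e12_27 : List Rx := [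
  Rx.mk (nat_lit 64) (nat_lit 0) (nat_lit 0) (nat_lit 1) (nat_lit 4) (nat_lit 271) (nat_lit 230) r0_271 r8_230 (nat_lit 75450971) (nat_lit 75494649) (nat_lit 0) (nat_lit 0x5a61765d0) (nat_lit 1296858182),
  Rx.mk (nat_lit 65) (nat_lit 1) (nat_lit 0) (nat_lit 1) (nat_lit 5) (nat_lit 272) (nat_lit 232) r0_272 r8_232 (nat_lit 0) (nat_lit 36993222) (nat_lit 0) (nat_lit 0x7df6aaa0c) (nat_lit 607751434),
  Rx.mk (nat_lit 66) (nat_lit 2) (nat_lit 0) (nat_lit 1) (nat_lit 5) (nat_lit 273) (nat_lit 234) r0_273 r8_234 (nat_lit 0) (nat_lit 25972273) (nat_lit 0) (nat_lit 0x7eb8e4744) (nat_lit 584573485),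
  Rx.mk (nat_lit 72) (nat_lit 0) (nat_lit 1) (nat_lit 1) (nat_lit 6) (nat_lit 274) (nat_lit 231) r0_274 r8_231 (nat_lit 30314307) (nat_lit 0) (nat_lit 0) (nat_lit 0x6f3513136) (nat_lit 839472119),
  Rx.mk (nat_lit 73) (nat_lit 1) (nat_lit 1) (nat_lit 1) (nat_lit 7) (nat_lit 275) (nat_lit 233) r0_275 r8_233 (nat_lit 0) (nat_lit 0) (nat_lit 0) (nat_lit 0x7f69ccc6e) (nat_lit 547574012),
  Rx.mk (nat_lit 74) (nat_lit 2) (nat_lit 1) (nat_lit 1) (nat_lit 7) (nat_lit 276) (nat_lit 235) r0_276 r8_235 (nat_lit 0) (nat_lit 0) (nat_lit 0) (nat_lit 0x8017985b4) (nat_lit 536870912),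
  Rx.mk (nat_lit 82) (nat_lit 2) (nat_lit 2) (nat_lit 1) (nat_lit 7) (nat_lit 277) (nat_lit 236) r0_277 r8_236 (nat_lit 0) (nat_lit 0) (nat_lit 0) (nat_lit 0x8010a6c4c) (nat_lit 537295162),
  Rx.mk (nat_lit 320) (nat_lit 0) (nat_lit 0) (nat_lit 5) (nat_lit 4) (nat_lit 278) (nat_lit 237) r0_278 r8_237 (nat_lit 11187286) (nat_lit 22445376) (nat_lit 0) (nat_lit 0x611b170e2) (nat_lit 1070645824),
  Rx.mk (nat_lit 321) (nat_lit 1) (nat_lit 0) (nat_lit 5) (nat_lit 5) (nat_lit 279) (nat_lit 239) r0_279 r8_239 (nat_lit 0) (nat_lit 24741287) (nat_lit 0) (nat_lit 0x7faf81db8) (nat_lit 567993049),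
  Rx.mk (nat_lit 328) (nat_lit 0) (nat_lit 1) (nat_lit 5) (nat_lit 6) (nat_lit 280) (nat_lit 238) r0_280 r8_238 (nat_lit 25163350) (nat_lit 0) (nat_lit 0) (nat_lit 0x75f165a36) (nat_lit 725421662),
  Rx.mk (nat_lit 329) (nat_lit 1) (nat_lit 1) (nat_lit 5) (nat_lit 7) (nat_lit 281) (nat_lit 240) r0_281 r8_240 (nat_lit 0) (nat_lit 0) (nat_lit 0) (nat_lit 0x80027a268) (nat_lit 538140112)]
noncomputable def e12_28 : List Rx := [
  Rx.mk (nat_lit 320) (nat_lit 0) (nat_lit 0) (nat_lit 5) (nat_lit 4) (nat_lit 322) (nat_lit 166) r0_322 r10_166 (nat_lit 14038217) (nat_lit 17034488) (nat_lit 0) (nat_lit 0x6f6e3009a) (nat_lit 836450667),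
  Rx.mk (nat_lit 321) (nat_lit 1) (nat_lit 0) (nat_lit 5) (nat_lit 5) (nat_lit 323) (nat_lit 167) r0_323 r10_167 (nat_lit 0) (nat_lit 24741287) (nat_lit 0) (nat_lit 0x8017985b4) (nat_lit 561612199),
  Rx.mk (nat_lit 328) (nat_lit 0) (nat_lit 1) (nat_lit 5) (nat_lit 6) (nat_lit 324) (nat_lit 168) r0_324 r10_168 (nat_lit 24924827) (nat_lit 0) (nat_lit 0) (nat_lit 0x7fc09e13c) (nat_lit 567146289),
  Rx.mk (nat_lit 329) (nat_lit 1) (nat_lit 1) (nat_lit 5) (nat_lit 7) (nat_lit 325) (nat_lit 169) r0_325 r10_169 (nat_lit 0) (nat_lit 0) (nat_lit 0) (nat_lit 0x8017985b4) (nat_lit 536870912),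
  Rx.mk (nat_lit 344) (nat_lit 0) (nat_lit 3) (nat_lit 5) (nat_lit 6) (nat_lit 326) (nat_lit 170) r0_326 r10_170 (nat_lit 25781778) (nat_lit 0) (nat_lit 0) (nat_lit 0x7e4c3ec0c) (nat_lit 591158440),
  Rx.mk (nat_lit 345) (nat_lit 1) (nat_lit 3) (nat_lit 5) (nat_lit 7) (nat_lit 327) (nat_lit 171) r0_327 r10_171 (nat_lit 0) (nat_lit 0) (nat_lit 0) (nat_lit 0x7ffa5b708) (nat_lit 538653612)]
noncomputable def e12_29 : List Rx := [
  Rx.mk (nat_lit 256) (nat_lit 0) (nat_lit 0) (nat_lit 4) (nat_lit 0) (nat_lit 342) (nat_lit 165) r0_342 r11_165 (nat_lit 61517721) (nat_lit 27528448) (nat_lit 16543091) (nat_lit 0x56389a70a) (nat_lit 1318729522),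
  Rx.mk (nat_lit 257) (nat_lit 1) (nat_lit 0) (nat_lit 4) (nat_lit 1) (nat_lit 343) (nat_lit 168) r0_343 r11_168 (nat_lit 0) (nat_lit 39863545) (nat_lit 97208642) (nat_lit 0x7bb2e4220) (nat_lit 744358799),
  Rx.mk (nat_lit 264) (nat_lit 0) (nat_lit 1) (nat_lit 4) (nat_lit 2) (nat_lit 344) (nat_lit 171) r0_344 r11_171 (nat_lit 36871294) (nat_lit 0) (nat_lit 84020208) (nat_lit 0x783359b98) (nat_lit 784659514),
  Rx.mk (nat_lit 265) (nat_lit 1) (nat_lit 1) (nat_lit 4) (nat_lit 3) (nat_lit 345) (nat_lit 174) r0_345 r11_174 (nat_lit 0) (nat_lit 0) (nat_lit 66364716) (nat_lit 0x7dacacf72) (nat_lit 641664678),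
  Rx.mk (nat_lit 280) (nat_lit 0) (nat_lit 3) (nat_lit 4) (nat_lit 2) (nat_lit 346) (nat_lit 177) r0_346 r11_177 (nat_lit 49484385) (nat_lit 0) (nat_lit 31505454) (nat_lit 0x786492660) (nat_lit 741673001),
  Rx.mk (nat_lit 281) (nat_lit 1) (nat_lit 3) (nat_lit 4) (nat_lit 3) (nat_lit 347) (nat_lit 179) r0_347 r11_179 (nat_lit 0) (nat_lit 0) (nat_lit 24741287) (nat_lit 0x8017985b4) (nat_lit 561612199),
  Rx.mk (nat_lit 283) (nat_lit 3) (nat_lit 3) (nat_lit 4) (nat_lit 3) (nat_lit 348) (nat_lit 181) r0_348 r11_181 (nat_lit 0) (nat_lit 0) (nat_lit 24977480) (nat_lit 0x7ff4c15ea) (nat_lit 563982842),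
  Rx.mk (nat_lit 320) (nat_lit 0) (nat_lit 0) (nat_lit 5) (nat_lit 4) (nat_lit 349) (nat_lit 166) r0_349 r11_166 (nat_lit 43084134) (nat_lit 151143769) (nat_lit 0) (nat_lit 0x7b5af1fae) (nat_lit 807011715),
  Rx.mk (nat_lit 321) (nat_lit 1) (nat_lit 0) (nat_lit 5) (nat_lit 5) (nat_lit 350) (nat_lit 169) r0_350 r11_169 (nat_lit 0) (nat_lit 24741287) (nat_lit 0) (nat_lit 0x8017985b4) (nat_lit 561612199),
  Rx.mk (nat_lit 328) (nat_lit 0) (nat_lit 1) (nat_lit 5) (nat_lit 6) (nat_lit 351) (nat_lit 172) r0_351 r11_172 (nat_lit 24741287) (nat_lit 0) (nat_lit 0) (nat_lit 0x8017985b4) (nat_lit 561612199),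
  Rx.mk (nat_lit 329) (nat_lit 1) (nat_lit 1) (nat_lit 5) (nat_lit 7) (nat_lit 352) (nat_lit 175) r0_352 r11_175 (nat_lit 0) (nat_lit 0) (nat_lit 0) (nat_lit 0x8017985b4) (nat_lit 536870912),
  Rx.mk (nat_lit 344) (nat_lit 0) (nat_lit 3) (nat_lit 5) (nat_lit 6) (nat_lit 353) (nat_lit 178) r0_353 r11_178 (nat_lit 27043959) (nat_lit 0) (nat_lit 0) (nat_lit 0x7fc599f24) (nat_lit 568952071),
  Rx.mk (nat_lit 345) (nat_lit 1) (nat_lit 3) (nat_lit 5) (nat_lit 7) (nat_lit 354) (nat_lit 180) r0_354 r11_180 (nat_lit 0) (nat_lit 0) (nat_lit 0) (nat_lit 0x8017985b4) (nat_lit 536870912),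
  Rx.mk (nat_lit 347) (nat_lit 3) (nat_lit 3) (nat_lit 5) (nat_lit 7) (nat_lit 355) (nat_lit 182) r0_355 r11_182 (nat_lit 0) (nat_lit 0) (nat_lit 0) (nat_lit 0x8017985b4) (nat_lit 536870912),
  Rx.mk (nat_lit 448) (nat_lit 0) (nat_lit 0) (nat_lit 7) (nat_lit 4) (nat_lit 356) (nat_lit 167) r0_356 r11_167 (nat_lit 40023232) (nat_lit 40023232) (nat_lit 0) (nat_lit 0x7e12b2628) (nat_lit 649033426),
  Rx.mk (nat_lit 449) (nat_lit 1) (nat_lit 0) (nat_lit 7) (nat_lit 5) (nat_lit 357) (nat_lit 170) r0_357 r11_170 (nat_lit 0) (nat_lit 24741287) (nat_lit 0) (nat_lit 0x8017985b4) (nat_lit 561612199),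
  Rx.mk (nat_lit 456) (nat_lit 0) (nat_lit 1) (nat_lit 7) (nat_lit 6) (nat_lit 358) (nat_lit 173) r0_358 r11_173 (nat_lit 23550752) (nat_lit 0) (nat_lit 0) (nat_lit 0x804b6b5bc) (nat_lit 557203014),
  Rx.mk (nat_lit 457) (nat_lit 1) (nat_lit 1) (nat_lit 7) (nat_lit 7) (nat_lit 359) (nat_lit 176) r0_359 r11_176 (nat_lit 0) (nat_lit 0) (nat_lit 0) (nat_lit 0x821f15f74) (nat_lit 505368512)]
noncomputable def e12_30 : List Rx := [
  Rx.mk (nat_lit 216) (nat_lit 0) (nat_lit 3) (nat_lit 3) (nat_lit 6) (nat_lit 65) (nat_lit 4) r0_65 r5_4 (nat_lit 5300773) (nat_lit 0) (nat_lit 0) (nat_lit 0x744841172) (nat_lit 732209835),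
  Rx.mk (nat_lit 218) (nat_lit 2) (nat_lit 3) (nat_lit 3) (nat_lit 7) (nat_lit 66) (nat_lit 5) r0_66 r5_5 (nat_lit 0) (nat_lit 0) (nat_lit 0) (nat_lit 0x7e757e964) (nat_lit 562790112),
  Rx.mk (nat_lit 315) (nat_lit 3) (nat_lit 7) (nat_lit 4) (nat_lit 3) (nat_lit 67) (nat_lit 0) r0_67 r5_0 (nat_lit 0) (nat_lit 0) (nat_lit 3027604) (nat_lit 0x6b9390500) (nat_lit 870600266),
  Rx.mk (nat_lit 472) (nat_lit 0) (nat_lit 3) (nat_lit 7) (nat_lit 6) (nat_lit 68) (nat_lit 3) r0_68 r5_3 (nat_lit 2967474) (nat_lit 0) (nat_lit 0) (nat_lit 0x6ee61820c) (nat_lit 816847386),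
  Rx.mk (nat_lit 504) (nat_lit 0) (nat_lit 7) (nat_lit 7) (nat_lit 6) (nat_lit 69) (nat_lit 1) r0_69 r5_1 (nat_lit 3947515) (nat_lit 0) (nat_lit 0) (nat_lit 0x65de79e82) (nat_lit 963893527),
  Rx.mk (nat_lit 507) (nat_lit 3) (nat_lit 7) (nat_lit 7) (nat_lit 7) (nat_lit 70) (nat_lit 2) r0_70 r5_2 (nat_lit 0) (nat_lit 0) (nat_lit 0) (nat_lit 0x7d9d38000) (nat_lit 576358762)]
noncomputable def e12_31 : List Rx := [
  Rx.mk (nat_lit 216) (nat_lit 0) (nat_lit 3) (nat_lit 3) (nat_lit 6) (nat_lit 152) (nat_lit 0) r0_152 r11_0 (nat_lit 24142843) (nat_lit 0) (nat_lit 0) (nat_lit 0x7ecf6cf52) (nat_lit 581323155),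
  Rx.mk (nat_lit 218) (nat_lit 2) (nat_lit 3) (nat_lit 3) (nat_lit 7) (nat_lit 153) (nat_lit 1) r0_153 r11_1 (nat_lit 0) (nat_lit 0) (nat_lit 0) (nat_lit 0x80194a9fc) (nat_lit 536773062)]
noncomputable def e12_32 : List Rx := [
  Rx.mk (nat_lit 281) (nat_lit 1) (nat_lit 3) (nat_lit 4) (nat_lit 3) (nat_lit 222) (nat_lit 279) r0_222 r6_279 (nat_lit 0) (nat_lit 0) (nat_lit 52275) (nat_lit 0x8149ad206) (nat_lit 517293887),
  Rx.mk (nat_lit 313) (nat_lit 1) (nat_lit 7) (nat_lit 4) (nat_lit 3) (nat_lit 223) (nat_lit 278) r0_223 r6_278 (nat_lit 0) (nat_lit 0) (nat_lit 15883932) (nat_lit 0x7b9d7068c) (nat_lit 624376294)]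
noncomputable def e12_33 : List Rx := [
  Rx.mk (nat_lit 281) (nat_lit 1) (nat_lit 3) (nat_lit 4) (nat_lit 3) (nat_lit 315) (nat_lit 252) r0_315 r5_252 (nat_lit 0) (nat_lit 0) (nat_lit 10663228) (nat_lit 0x7da55c5ce) (nat_lit 586217240),
  Rx.mk (nat_lit 344) (nat_lit 0) (nat_lit 3) (nat_lit 5) (nat_lit 6) (nat_lit 316) (nat_lit 253) r0_316 r5_253 (nat_lit 6936321) (nat_lit 0) (nat_lit 0) (nat_lit 0x7b9f03d96) (nat_lit 615253533),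
  Rx.mk (nat_lit 345) (nat_lit 1) (nat_lit 3) (nat_lit 5) (nat_lit 7) (nat_lit 317) (nat_lit 254) r0_317 r5_254 (nat_lit 0) (nat_lit 0) (nat_lit 0) (nat_lit 0x8071fa930) (nat_lit 530954762)]
noncomputable def e12_34 : List Rx := [
  Rx.mk (nat_lit 344) (nat_lit 0) (nat_lit 3) (nat_lit 5) (nat_lit 6) (nat_lit 328) (nat_lit 298) r0_328 r11_298 (nat_lit 19793988) (nat_lit 0) (nat_lit 0) (nat_lit 0x801bf7722) (nat_lit 556379500),
  Rx.mk (nat_lit 345) (nat_lit 1) (nat_lit 3) (nat_lit 5) (nat_lit 7) (nat_lit 329) (nat_lit 299) r0_329 r11_299 (nat_lit 0) (nat_lit 0) (nat_lit 0) (nat_lit 0x8017985b4) (nat_lit 536870912)]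
noncomputable def e12_35 : List Rx := [
  Rx.mk (nat_lit 312) (nat_lit 0) (nat_lit 7) (nat_lit 4) (nat_lit 2) (nat_lit 82) (nat_lit 51) r0_82 r6_51 (nat_lit 1834824) (nat_lit 0) (nat_lit 2752324) (nat_lit 0x5acd8ab40) (nat_lit 1143327010),
  Rx.mk (nat_lit 313) (nat_lit 1) (nat_lit 7) (nat_lit 4) (nat_lit 3) (nat_lit 83) (nat_lit 52) r0_83 r6_52 (nat_lit 0) (nat_lit 0) (nat_lit 13075147) (nat_lit 0x78e3d9b80) (nat_lit 665603759),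
  Rx.mk (nat_lit 315) (nat_lit 3) (nat_lit 7) (nat_lit 4) (nat_lit 3) (nat_lit 84) (nat_lit 53) r0_84 r6_53 (nat_lit 0) (nat_lit 0) (nat_lit 9488112) (nat_lit 0x7869953b0) (nat_lit 669747474),
  Rx.mk (nat_lit 472) (nat_lit 0) (nat_lit 3) (nat_lit 7) (nat_lit 6) (nat_lit 85) (nat_lit 49) r0_85 r6_49 (nat_lit 4982960) (nat_lit 0) (nat_lit 0) (nat_lit 0x7f97fd5b6) (nat_lit 549398922),
  Rx.mk (nat_lit 473) (nat_lit 1) (nat_lit 3) (nat_lit 7) (nat_lit 7) (nat_lit 86) (nat_lit 50) r0_86 r6_50 (nat_lit 0) (nat_lit 0) (nat_lit 0) (nat_lit 0x8ecace6ac) (nat_lit 311796962),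
  Rx.mk (nat_lit 504) (nat_lit 0) (nat_lit 7) (nat_lit 7) (nat_lit 6) (nat_lit 87) (nat_lit 54) r0_87 r6_54 (nat_lit 18629772) (nat_lit 0) (nat_lit 0) (nat_lit 0x7b316cfbc) (nat_lit 634046784),
  Rx.mk (nat_lit 505) (nat_lit 1) (nat_lit 7) (nat_lit 7) (nat_lit 7) (nat_lit 88) (nat_lit 55) r0_88 r6_55 (nat_lit 0) (nat_lit 0) (nat_lit 0) (nat_lit 0x8116bf43e) (nat_lit 521295912)]
noncomputable def e12_36 : List Rx := [
  Rx.mk (nat_lit 280) (nat_lit 0) (nat_lit 3) (nat_lit 4) (nat_lit 2) (nat_lit 236) (nat_lit 90) r0_236 r12_90 (nat_lit 337141) (nat_lit 0) (nat_lit 483498) (nat_lit 0x69bd8207c) (nat_lit 897741001),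
  Rx.mk (nat_lit 281) (nat_lit 1) (nat_lit 3) (nat_lit 4) (nat_lit 3) (nat_lit 237) (nat_lit 93) r0_237 r12_93 (nat_lit 0) (nat_lit 0) (nat_lit 110144) (nat_lit 0x82822bbe0) (nat_lit 498750706),
  Rx.mk (nat_lit 312) (nat_lit 0) (nat_lit 7) (nat_lit 4) (nat_lit 2) (nat_lit 238) (nat_lit 92) r0_238 r12_92 (nat_lit 939367) (nat_lit 0) (nat_lit 1147203) (nat_lit 0x56a34f6d6) (nat_lit 1208040532),
  Rx.mk (nat_lit 313) (nat_lit 1) (nat_lit 7) (nat_lit 4) (nat_lit 3) (nat_lit 239) (nat_lit 95) r0_239 r12_95 (nat_lit 0) (nat_lit 0) (nat_lit 17412885) (nat_lit 0x6e9844ff8) (nat_lit 836304197),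
  Rx.mk (nat_lit 315) (nat_lit 3) (nat_lit 7) (nat_lit 4) (nat_lit 3) (nat_lit 240) (nat_lit 96) r0_240 r12_96 (nat_lit 0) (nat_lit 0) (nat_lit 5034045) (nat_lit 0x6bcc7805c) (nat_lit 869121807),
  Rx.mk (nat_lit 472) (nat_lit 0) (nat_lit 3) (nat_lit 7) (nat_lit 6) (nat_lit 241) (nat_lit 91) r0_241 r12_91 (nat_lit 7132573) (nat_lit 0) (nat_lit 0) (nat_lit 0x7f5e76888) (nat_lit 555234485),
  Rx.mk (nat_lit 473) (nat_lit 1) (nat_lit 3) (nat_lit 7) (nat_lit 7) (nat_lit 242) (nat_lit 94) r0_242 r12_94 (nat_lit 0) (nat_lit 0) (nat_lit 0) (nat_lit 0x91ea2ede6) (nat_lit 264130312)]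
noncomputable def e12_37 : List Rx := [
  Rx.mk (nat_lit 289) (nat_lit 1) (nat_lit 4) (nat_lit 4) (nat_lit 1) (nat_lit 171) (nat_lit 248) r0_171 r0_248 (nat_lit 0) (nat_lit 19628) (nat_lit 1057520207) (nat_lit 0x8001a79da) (nat_lit 1594326447),
  Rx.mk (nat_lit 297) (nat_lit 1) (nat_lit 5) (nat_lit 4) (nat_lit 3) (nat_lit 172) (nat_lit 249) r0_172 r0_249 (nat_lit 0) (nat_lit 0) (nat_lit 495476102) (nat_lit 0x7bfc24796) (nat_lit 1097908564)]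
noncomputable def e12_38 : List Rx := [
  Rx.mk (nat_lit 317) (nat_lit 5) (nat_lit 7) (nat_lit 4) (nat_lit 3) (nat_lit 72) (nat_lit 73) r0_72 r0_73 (nat_lit 0) (nat_lit 0) (nat_lit 11196067) (nat_lit 0x781247b62) (nat_lit 676967229),
  Rx.mk (nat_lit 421) (nat_lit 5) (nat_lit 4) (nat_lit 6) (nat_lit 5) (nat_lit 73) (nat_lit 72) r0_73 r0_72 (nat_lit 0) (nat_lit 11196067) (nat_lit 0) (nat_lit 0x781247b62) (nat_lit 676967229),
  Rx.mk (nat_lit 445) (nat_lit 5) (nat_lit 7) (nat_lit 6) (nat_lit 7) (nat_lit 74) (nat_lit 74) r0_74 r0_74 (nat_lit 0) (nat_lit 0) (nat_lit 0) (nat_lit 0x7ff019722) (nat_lit 539153312)]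
noncomputable def e12_39 : List Rx := [
  Rx.mk (nat_lit 289) (nat_lit 1) (nat_lit 4) (nat_lit 4) (nat_lit 1) (nat_lit 177) (nat_lit 325) r0_177 r7_325 (nat_lit 0) (nat_lit 3400781) (nat_lit 7378942) (nat_lit 0x545558bfa) (nat_lit 1254182035),
  Rx.mk (nat_lit 293) (nat_lit 5) (nat_lit 4) (nat_lit 4) (nat_lit 1) (nat_lit 178) (nat_lit 319) r0_178 r7_319 (nat_lit 0) (nat_lit 5394699) (nat_lit 10270932) (nat_lit 0x5fa366a58) (nat_lit 1076368243),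
  Rx.mk (nat_lit 297) (nat_lit 1) (nat_lit 5) (nat_lit 4) (nat_lit 3) (nat_lit 179) (nat_lit 326) r0_179 r7_326 (nat_lit 0) (nat_lit 0) (nat_lit 10961872) (nat_lit 0x71abf8114) (nat_lit 780182384),
  Rx.mk (nat_lit 301) (nat_lit 5) (nat_lit 5) (nat_lit 4) (nat_lit 3) (nat_lit 180) (nat_lit 320) r0_180 r7_320 (nat_lit 0) (nat_lit 0) (nat_lit 23289893) (nat_lit 0x7d8545704) (nat_lit 601157455),
  Rx.mk (nat_lit 317) (nat_lit 5) (nat_lit 7) (nat_lit 4) (nat_lit 3) (nat_lit 181) (nat_lit 321) r0_181 r7_321 (nat_lit 0) (nat_lit 0) (nat_lit 39572657) (nat_lit 0x7fce955ba) (nat_lit 580469619),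
  Rx.mk (nat_lit 421) (nat_lit 5) (nat_lit 4) (nat_lit 6) (nat_lit 5) (nat_lit 182) (nat_lit 322) r0_182 r7_322 (nat_lit 0) (nat_lit 7741900) (nat_lit 0) (nat_lit 0x80bec9efa) (nat_lit 534261362),
  Rx.mk (nat_lit 429) (nat_lit 5) (nat_lit 5) (nat_lit 6) (nat_lit 7) (nat_lit 183) (nat_lit 323) r0_183 r7_323 (nat_lit 0) (nat_lit 0) (nat_lit 0) (nat_lit 0x80877ffc6) (nat_lit 529984012),
  Rx.mk (nat_lit 445) (nat_lit 5) (nat_lit 7) (nat_lit 6) (nat_lit 7) (nat_lit 184) (nat_lit 324) r0_184 r7_324 (nat_lit 0) (nat_lit 0) (nat_lit 0) (nat_lit 0x80b89b4d4) (nat_lit 527012662)]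
noncomputable def e12_40 : List Rx := [
  Rx.mk (nat_lit 182) (nat_lit 6) (nat_lit 6) (nat_lit 2) (nat_lit 7) (nat_lit 30) (nat_lit 71) r0_30 r2_71 (nat_lit 0) (nat_lit 0) (nat_lit 0) (nat_lit 0x7ff838a16) (nat_lit 538790162),
  Rx.mk (nat_lit 316) (nat_lit 4) (nat_lit 7) (nat_lit 4) (nat_lit 2) (nat_lit 31) (nat_lit 64) r0_31 r2_64 (nat_lit 5596514) (nat_lit 0) (nat_lit 6423183) (nat_lit 0x5ddaed8d4) (nat_lit 1101594159),
  Rx.mk (nat_lit 317) (nat_lit 5) (nat_lit 7) (nat_lit 4) (nat_lit 3) (nat_lit 32) (nat_lit 65) r0_32 r2_65 (nat_lit 0) (nat_lit 0) (nat_lit 15050003) (nat_lit 0x808182fe2) (nat_lit 545392665),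
  Rx.mk (nat_lit 319) (nat_lit 7) (nat_lit 7) (nat_lit 4) (nat_lit 3) (nat_lit 33) (nat_lit 66) r0_33 r2_66 (nat_lit 0) (nat_lit 0) (nat_lit 26786742) (nat_lit 0x7e49fc304) (nat_lit 592261154),
  Rx.mk (nat_lit 420) (nat_lit 4) (nat_lit 4) (nat_lit 6) (nat_lit 4) (nat_lit 34) (nat_lit 62) r0_34 r2_62 (nat_lit 4998249) (nat_lit 13136814) (nat_lit 0) (nat_lit 0x5b905ca06) (nat_lit 1144741775),
  Rx.mk (nat_lit 421) (nat_lit 5) (nat_lit 4) (nat_lit 6) (nat_lit 5) (nat_lit 35) (nat_lit 63) r0_35 r2_63 (nat_lit 0) (nat_lit 28341495) (nat_lit 0) (nat_lit 0x7c3b84864) (nat_lit 626988107),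
  Rx.mk (nat_lit 436) (nat_lit 4) (nat_lit 6) (nat_lit 6) (nat_lit 6) (nat_lit 36) (nat_lit 72) r0_36 r2_72 (nat_lit 21507758) (nat_lit 0) (nat_lit 0) (nat_lit 0x7d43469ac) (nat_lit 603533220),
  Rx.mk (nat_lit 437) (nat_lit 5) (nat_lit 6) (nat_lit 6) (nat_lit 7) (nat_lit 37) (nat_lit 73) r0_37 r2_73 (nat_lit 0) (nat_lit 0) (nat_lit 0) (nat_lit 0x8017985b4) (nat_lit 536870912),
  Rx.mk (nat_lit 438) (nat_lit 6) (nat_lit 6) (nat_lit 6) (nat_lit 7) (nat_lit 38) (nat_lit 74) r0_38 r2_74 (nat_lit 0) (nat_lit 0) (nat_lit 0) (nat_lit 0x7ffabadac) (nat_lit 538636162),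
  Rx.mk (nat_lit 444) (nat_lit 4) (nat_lit 7) (nat_lit 6) (nat_lit 6) (nat_lit 39) (nat_lit 68) r0_39 r2_68 (nat_lit 5674149) (nat_lit 0) (nat_lit 0) (nat_lit 0x7eaf25780) (nat_lit 564630711),
  Rx.mk (nat_lit 445) (nat_lit 5) (nat_lit 7) (nat_lit 6) (nat_lit 7) (nat_lit 40) (nat_lit 69) r0_40 r2_69 (nat_lit 0) (nat_lit 0) (nat_lit 0) (nat_lit 0x816b1f196) (nat_lit 516210712),
  Rx.mk (nat_lit 447) (nat_lit 7) (nat_lit 7) (nat_lit 6) (nat_lit 7) (nat_lit 41) (nat_lit 70) r0_41 r2_70 (nat_lit 0) (nat_lit 0) (nat_lit 0) (nat_lit 0x81560cc68) (nat_lit 517481712),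
  Rx.mk (nat_lit 511) (nat_lit 7) (nat_lit 7) (nat_lit 7) (nat_lit 7) (nat_lit 42) (nat_lit 67) r0_42 r2_67 (nat_lit 0) (nat_lit 0) (nat_lit 0) (nat_lit 0x8017985b4) (nat_lit 536870912)]
noncomputable def e12_41 : List Rx := [
  Rx.mk (nat_lit 182) (nat_lit 6) (nat_lit 6) (nat_lit 2) (nat_lit 7) (nat_lit 154) (nat_lit 36) r0_154 r9_36 (nat_lit 0) (nat_lit 0) (nat_lit 0) (nat_lit 0x8017985b4) (nat_lit 536870912),
  Rx.mk (nat_lit 292) (nat_lit 4) (nat_lit 4) (nat_lit 4) (nat_lit 0) (nat_lit 155) (nat_lit 23) r0_155 r9_23 (nat_lit 11766479) (nat_lit 17383342) (nat_lit 20103060) (nat_lit 0x26bb582ee) (nat_lit 2030296093),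
  Rx.mk (nat_lit 293) (nat_lit 5) (nat_lit 4) (nat_lit 4) (nat_lit 1) (nat_lit 156) (nat_lit 24) r0_156 r9_24 (nat_lit 0) (nat_lit 21246965) (nat_lit 21454755) (nat_lit 0x536054f6e) (nat_lit 1301860482),
  Rx.mk (nat_lit 301) (nat_lit 5) (nat_lit 5) (nat_lit 4) (nat_lit 3) (nat_lit 157) (nat_lit 27) r0_157 r9_27 (nat_lit 0) (nat_lit 0) (nat_lit 27681734) (nat_lit 0x7735d76f0) (nat_lit 707450746),
  Rx.mk (nat_lit 316) (nat_lit 4) (nat_lit 7) (nat_lit 4) (nat_lit 2) (nat_lit 158) (nat_lit 29) r0_158 r9_29 (nat_lit 19805728) (nat_lit 0) (nat_lit 96643738) (nat_lit 0x57dc9e896) (nat_lit 1303076978),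
  Rx.mk (nat_lit 317) (nat_lit 5) (nat_lit 7) (nat_lit 4) (nat_lit 3) (nat_lit 159) (nat_lit 30) r0_159 r9_30 (nat_lit 0) (nat_lit 0) (nat_lit 39103353) (nat_lit 0x7f0bc5f80) (nat_lit 592509415),
  Rx.mk (nat_lit 319) (nat_lit 7) (nat_lit 7) (nat_lit 4) (nat_lit 3) (nat_lit 160) (nat_lit 31) r0_160 r9_31 (nat_lit 0) (nat_lit 0) (nat_lit 140602240) (nat_lit 0x7cdd650c0) (nat_lit 729034802),
  Rx.mk (nat_lit 420) (nat_lit 4) (nat_lit 4) (nat_lit 6) (nat_lit 4) (nat_lit 161) (nat_lit 25) r0_161 r9_25 (nat_lit 15320849) (nat_lit 15232789) (nat_lit 0) (nat_lit 0x58679699e) (nat_lit 1208372050),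
  Rx.mk (nat_lit 421) (nat_lit 5) (nat_lit 4) (nat_lit 6) (nat_lit 5) (nat_lit 162) (nat_lit 26) r0_162 r9_26 (nat_lit 0) (nat_lit 24075478) (nat_lit 0) (nat_lit 0x769019b32) (nat_lit 714298390),
  Rx.mk (nat_lit 429) (nat_lit 5) (nat_lit 5) (nat_lit 6) (nat_lit 7) (nat_lit 163) (nat_lit 28) r0_163 r9_28 (nat_lit 0) (nat_lit 0) (nat_lit 0) (nat_lit 0x7feb1ffb4) (nat_lit 539592162),
  Rx.mk (nat_lit 436) (nat_lit 4) (nat_lit 6) (nat_lit 6) (nat_lit 6) (nat_lit 164) (nat_lit 37) r0_164 r9_37 (nat_lit 24266921) (nat_lit 0) (nat_lit 0) (nat_lit 0x771d50316) (nat_lit 705582633),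
  Rx.mk (nat_lit 437) (nat_lit 5) (nat_lit 6) (nat_lit 6) (nat_lit 7) (nat_lit 165) (nat_lit 38) r0_165 r9_38 (nat_lit 0) (nat_lit 0) (nat_lit 0) (nat_lit 0x7fee77a72) (nat_lit 539388362),
  Rx.mk (nat_lit 438) (nat_lit 6) (nat_lit 6) (nat_lit 6) (nat_lit 7) (nat_lit 166) (nat_lit 39) r0_166 r9_39 (nat_lit 0) (nat_lit 0) (nat_lit 0) (nat_lit 0x8002decd6) (nat_lit 538139162),
  Rx.mk (nat_lit 444) (nat_lit 4) (nat_lit 7) (nat_lit 6) (nat_lit 6) (nat_lit 167) (nat_lit 33) r0_167 r9_33 (nat_lit 23123952) (nat_lit 0) (nat_lit 0) (nat_lit 0x800002f3a) (nat_lit 561432214),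
  Rx.mk (nat_lit 445) (nat_lit 5) (nat_lit 7) (nat_lit 6) (nat_lit 7) (nat_lit 168) (nat_lit 34) r0_168 r9_34 (nat_lit 0) (nat_lit 0) (nat_lit 0) (nat_lit 0x8017985b4) (nat_lit 536870912),
  Rx.mk (nat_lit 447) (nat_lit 7) (nat_lit 7) (nat_lit 6) (nat_lit 7) (nat_lit 169) (nat_lit 35) r0_169 r9_35 (nat_lit 0) (nat_lit 0) (nat_lit 0) (nat_lit 0x8017985b4) (nat_lit 536870912),
  Rx.mk (nat_lit 511) (nat_lit 7) (nat_lit 7) (nat_lit 7) (nat_lit 7) (nat_lit 170) (nat_lit 32) r0_170 r9_32 (nat_lit 0) (nat_lit 0) (nat_lit 0) (nat_lit 0x7fec37154) (nat_lit 539516912)]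
noncomputable def e12_42 : List Rx := [
  Rx.mk (nat_lit 182) (nat_lit 6) (nat_lit 6) (nat_lit 2) (nat_lit 7) (nat_lit 141) (nat_lit 0) r0_141 r9_0 (nat_lit 0) (nat_lit 0) (nat_lit 0) (nat_lit 0x7fe34c40e) (nat_lit 540076362)]
noncomputable def e12_43 : List Rx := [
  Rx.mk (nat_lit 317) (nat_lit 5) (nat_lit 7) (nat_lit 4) (nat_lit 3) (nat_lit 75) (nat_lit 70) r0_75 r1_70 (nat_lit 0) (nat_lit 0) (nat_lit 11807158) (nat_lit 0x7ffe24146) (nat_lit 550115770),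
  Rx.mk (nat_lit 421) (nat_lit 5) (nat_lit 4) (nat_lit 6) (nat_lit 5) (nat_lit 76) (nat_lit 69) r0_76 r1_69 (nat_lit 0) (nat_lit 21882932) (nat_lit 0) (nat_lit 0x7e18dc364) (nat_lit 590459594),
  Rx.mk (nat_lit 437) (nat_lit 5) (nat_lit 6) (nat_lit 6) (nat_lit 7) (nat_lit 77) (nat_lit 72) r0_77 r1_72 (nat_lit 0) (nat_lit 0) (nat_lit 0) (nat_lit 0x8008dd830) (nat_lit 537772712),
  Rx.mk (nat_lit 445) (nat_lit 5) (nat_lit 7) (nat_lit 6) (nat_lit 7) (nat_lit 78) (nat_lit 71) r0_78 r1_71 (nat_lit 0) (nat_lit 0) (nat_lit 0) (nat_lit 0x8272ee83a) (nat_lit 500330612)]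
noncomputable def e12_44 : List Rx := [
  Rx.mk (nat_lit 293) (nat_lit 5) (nat_lit 4) (nat_lit 4) (nat_lit 1) (nat_lit 188) (nat_lit 241) r0_188 r8_241 (nat_lit 0) (nat_lit 19008238) (nat_lit 24251954) (nat_lit 0x59ee2d664) (nat_lit 1196415754),
  Rx.mk (nat_lit 301) (nat_lit 5) (nat_lit 5) (nat_lit 4) (nat_lit 3) (nat_lit 189) (nat_lit 242) r0_189 r8_242 (nat_lit 0) (nat_lit 0) (nat_lit 26165794) (nat_lit 0x7b3e3e45c) (nat_lit 640781706),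
  Rx.mk (nat_lit 317) (nat_lit 5) (nat_lit 7) (nat_lit 4) (nat_lit 3) (nat_lit 190) (nat_lit 243) r0_190 r8_243 (nat_lit 0) (nat_lit 0) (nat_lit 32293832) (nat_lit 0x808393b6a) (nat_lit 562478594),
  Rx.mk (nat_lit 421) (nat_lit 5) (nat_lit 4) (nat_lit 6) (nat_lit 5) (nat_lit 191) (nat_lit 244) r0_191 r8_244 (nat_lit 0) (nat_lit 20123998) (nat_lit 0) (nat_lit 0x7c1a22dec) (nat_lit 620862110),
  Rx.mk (nat_lit 429) (nat_lit 5) (nat_lit 5) (nat_lit 6) (nat_lit 7) (nat_lit 192) (nat_lit 245) r0_192 r8_245 (nat_lit 0) (nat_lit 0) (nat_lit 0) (nat_lit 0x8005f486c) (nat_lit 537949312),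
  Rx.mk (nat_lit 437) (nat_lit 5) (nat_lit 6) (nat_lit 6) (nat_lit 7) (nat_lit 193) (nat_lit 247) r0_193 r8_247 (nat_lit 0) (nat_lit 0) (nat_lit 0) (nat_lit 0x8017985b4) (nat_lit 536870912),
  Rx.mk (nat_lit 445) (nat_lit 5) (nat_lit 7) (nat_lit 6) (nat_lit 7) (nat_lit 194) (nat_lit 246) r0_194 r8_246 (nat_lit 0) (nat_lit 0) (nat_lit 0) (nat_lit 0x8017985b4) (nat_lit 536870912)]
noncomputable def e12_45 : List Rx := [
  Rx.mk (nat_lit 297) (nat_lit 1) (nat_lit 5) (nat_lit 4) (nat_lit 3) (nat_lit 173) (nat_lit 255) r0_173 r1_255 (nat_lit 0) (nat_lit 0) (nat_lit 106862022) (nat_lit 0x7ee0fa15c) (nat_lit 662779834)]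
noncomputable def e12_46 : List Rx := [
  Rx.mk (nat_lit 265) (nat_lit 1) (nat_lit 1) (nat_lit 4) (nat_lit 3) (nat_lit 285) (nat_lit 281) r0_285 r2_281 (nat_lit 0) (nat_lit 0) (nat_lit 65725081) (nat_lit 0x7b4d9ae64) (nat_lit 679298593),
  Rx.mk (nat_lit 297) (nat_lit 1) (nat_lit 5) (nat_lit 4) (nat_lit 3) (nat_lit 286) (nat_lit 280) r0_286 r2_280 (nat_lit 0) (nat_lit 0) (nat_lit 29130114) (nat_lit 0x7eda42850) (nat_lit 585601326),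
  Rx.mk (nat_lit 329) (nat_lit 1) (nat_lit 1) (nat_lit 5) (nat_lit 7) (nat_lit 287) (nat_lit 283) r0_287 r2_283 (nat_lit 0) (nat_lit 0) (nat_lit 0) (nat_lit 0x8017985b4) (nat_lit 536870912),
  Rx.mk (nat_lit 361) (nat_lit 1) (nat_lit 5) (nat_lit 5) (nat_lit 7) (nat_lit 288) (nat_lit 282) r0_288 r2_282 (nat_lit 0) (nat_lit 0) (nat_lit 0) (nat_lit 0x8017985b4) (nat_lit 536870912)]
noncomputable def e12_47 : List Rx := [
  Rx.mk (nat_lit 297) (nat_lit 1) (nat_lit 5) (nat_lit 4) (nat_lit 3) (nat_lit 185) (nat_lit 63) r0_185 r8_63 (nat_lit 0) (nat_lit 0) (nat_lit 17259595) (nat_lit 0x7bf63ab82) (nat_lit 620224207),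
  Rx.mk (nat_lit 301) (nat_lit 5) (nat_lit 5) (nat_lit 4) (nat_lit 3) (nat_lit 186) (nat_lit 64) r0_186 r8_64 (nat_lit 0) (nat_lit 0) (nat_lit 26500941) (nat_lit 0x7c9c5d064) (nat_lit 619045003),
  Rx.mk (nat_lit 429) (nat_lit 5) (nat_lit 5) (nat_lit 6) (nat_lit 7) (nat_lit 187) (nat_lit 65) r0_187 r8_65 (nat_lit 0) (nat_lit 0) (nat_lit 0) (nat_lit 0x802f4e852) (nat_lit 535398012)]
noncomputable def e12_48 : List Rx := [
  Rx.mk (nat_lit 265) (nat_lit 1) (nat_lit 1) (nat_lit 4) (nat_lit 3) (nat_lit 293) (nat_lit 254) r0_293 r9_254 (nat_lit 0) (nat_lit 0) (nat_lit 27880557) (nat_lit 0x735c96bb4) (nat_lit 769863869),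
  Rx.mk (nat_lit 297) (nat_lit 1) (nat_lit 5) (nat_lit 4) (nat_lit 3) (nat_lit 294) (nat_lit 253) r0_294 r9_253 (nat_lit 0) (nat_lit 0) (nat_lit 27813133) (nat_lit 0x7ac35ec14) (nat_lit 650184545),
  Rx.mk (nat_lit 301) (nat_lit 5) (nat_lit 5) (nat_lit 4) (nat_lit 3) (nat_lit 295) (nat_lit 250) r0_295 r9_250 (nat_lit 0) (nat_lit 0) (nat_lit 25628035) (nat_lit 0x7c71b8854) (nat_lit 620861597),
  Rx.mk (nat_lit 329) (nat_lit 1) (nat_lit 1) (nat_lit 5) (nat_lit 7) (nat_lit 296) (nat_lit 256) r0_296 r9_256 (nat_lit 0) (nat_lit 0) (nat_lit 0) (nat_lit 0x7ff5e805e) (nat_lit 538935112),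
  Rx.mk (nat_lit 361) (nat_lit 1) (nat_lit 5) (nat_lit 5) (nat_lit 7) (nat_lit 297) (nat_lit 255) r0_297 r9_255 (nat_lit 0) (nat_lit 0) (nat_lit 0) (nat_lit 0x7fe5db210) (nat_lit 539920162),
  Rx.mk (nat_lit 365) (nat_lit 5) (nat_lit 5) (nat_lit 5) (nat_lit 7) (nat_lit 298) (nat_lit 251) r0_298 r9_251 (nat_lit 0) (nat_lit 0) (nat_lit 0) (nat_lit 0x7fa3dbc34) (nat_lit 543982362),
  Rx.mk (nat_lit 429) (nat_lit 5) (nat_lit 5) (nat_lit 6) (nat_lit 7) (nat_lit 299) (nat_lit 252) r0_299 r9_252 (nat_lit 0) (nat_lit 0) (nat_lit 0) (nat_lit 0x7fed20192) (nat_lit 539467362)]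
noncomputable def e12_49 : List Rx := [
  Rx.mk (nat_lit 329) (nat_lit 1) (nat_lit 1) (nat_lit 5) (nat_lit 7) (nat_lit 291) (nat_lit 248) r0_291 r9_248 (nat_lit 0) (nat_lit 0) (nat_lit 0) (nat_lit 0x7f706cec0) (nat_lit 547165662),
  Rx.mk (nat_lit 361) (nat_lit 1) (nat_lit 5) (nat_lit 5) (nat_lit 7) (nat_lit 292) (nat_lit 249) r0_292 r9_249 (nat_lit 0) (nat_lit 0) (nat_lit 0) (nat_lit 0x7fa7f11e8) (nat_lit 543731812)]
noncomputable def e12_50 : List Rx := [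
  Rx.mk (nat_lit 313) (nat_lit 1) (nat_lit 7) (nat_lit 4) (nat_lit 3) (nat_lit 71) (nat_lit 249) r0_71 r3_249 (nat_lit 0) (nat_lit 0) (nat_lit 2928) (nat_lit 0x806d30ec2) (nat_lit 530370140)]
noncomputable def e12_51 : List Rx := [
  Rx.mk (nat_lit 289) (nat_lit 1) (nat_lit 4) (nat_lit 4) (nat_lit 1) (nat_lit 174) (nat_lit 262) r0_174 r4_262 (nat_lit 0) (nat_lit 1751344) (nat_lit 200714257) (nat_lit 0x5c0ff7e00) (nat_lit 1320763563),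
  Rx.mk (nat_lit 297) (nat_lit 1) (nat_lit 5) (nat_lit 4) (nat_lit 3) (nat_lit 175) (nat_lit 263) r0_175 r4_263 (nat_lit 0) (nat_lit 0) (nat_lit 51975942) (nat_lit 0x79cafc27e) (nat_lit 689883204),
  Rx.mk (nat_lit 313) (nat_lit 1) (nat_lit 7) (nat_lit 4) (nat_lit 3) (nat_lit 176) (nat_lit 264) r0_176 r4_264 (nat_lit 0) (nat_lit 0) (nat_lit 441859640) (nat_lit 0x75873a166) (nat_lit 1148413852)]
noncomputable def e12_52 : List Rx := [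
  Rx.mk (nat_lit 313) (nat_lit 1) (nat_lit 7) (nat_lit 4) (nat_lit 3) (nat_lit 224) (nat_lit 255) r0_224 r5_255 (nat_lit 0) (nat_lit 0) (nat_lit 71218835) (nat_lit 0x7ffb5ec54) (nat_lit 608387497)]
noncomputable def e12_53 : List Rx := [
  Rx.mk (nat_lit 313) (nat_lit 1) (nat_lit 7) (nat_lit 4) (nat_lit 3) (nat_lit 79) (nat_lit 68) r0_79 r4_68 (nat_lit 0) (nat_lit 0) (nat_lit 6167468) (nat_lit 0x5e86efab0) (nat_lit 1084789780),
  Rx.mk (nat_lit 317) (nat_lit 5) (nat_lit 7) (nat_lit 4) (nat_lit 3) (nat_lit 80) (nat_lit 69) r0_80 r4_69 (nat_lit 0) (nat_lit 0) (nat_lit 13011950) (nat_lit 0x7c2e5800a) (nat_lit 612357812),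
  Rx.mk (nat_lit 445) (nat_lit 5) (nat_lit 7) (nat_lit 6) (nat_lit 7) (nat_lit 81) (nat_lit 70) r0_81 r4_70 (nat_lit 0) (nat_lit 0) (nat_lit 0) (nat_lit 0x7f12b28fc) (nat_lit 552544162)]
noncomputable def e12_54 : List Rx := [
  Rx.mk (nat_lit 289) (nat_lit 1) (nat_lit 4) (nat_lit 4) (nat_lit 1) (nat_lit 195) (nat_lit 281) r0_195 r10_281 (nat_lit 0) (nat_lit 2412373) (nat_lit 4364993) (nat_lit 0x599f905a6) (nat_lit 1164616828),
  Rx.mk (nat_lit 297) (nat_lit 1) (nat_lit 5) (nat_lit 4) (nat_lit 3) (nat_lit 196) (nat_lit 282) r0_196 r10_282 (nat_lit 0) (nat_lit 0) (nat_lit 12102424) (nat_lit 0x79db10b88) (nat_lit 649035436),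
  Rx.mk (nat_lit 313) (nat_lit 1) (nat_lit 7) (nat_lit 4) (nat_lit 3) (nat_lit 197) (nat_lit 283) r0_197 r10_283 (nat_lit 0) (nat_lit 0) (nat_lit 70189493) (nat_lit 0x7d33fb286) (nat_lit 652998905),
  Rx.mk (nat_lit 317) (nat_lit 5) (nat_lit 7) (nat_lit 4) (nat_lit 3) (nat_lit 198) (nat_lit 279) r0_198 r10_279 (nat_lit 0) (nat_lit 0) (nat_lit 45895857) (nat_lit 0x7fb6ad812) (nat_lit 588199269),
  Rx.mk (nat_lit 445) (nat_lit 5) (nat_lit 7) (nat_lit 6) (nat_lit 7) (nat_lit 199) (nat_lit 280) r0_199 r10_280 (nat_lit 0) (nat_lit 0) (nat_lit 0) (nat_lit 0x809c1612e) (nat_lit 528750462)]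
noncomputable def e12_55 : List Rx := [
  Rx.mk (nat_lit 313) (nat_lit 1) (nat_lit 7) (nat_lit 4) (nat_lit 3) (nat_lit 225) (nat_lit 302) r0_225 r11_302 (nat_lit 0) (nat_lit 0) (nat_lit 9444164) (nat_lit 0x7fd819c08) (nat_lit 550012926),
  Rx.mk (nat_lit 317) (nat_lit 5) (nat_lit 7) (nat_lit 4) (nat_lit 3) (nat_lit 226) (nat_lit 300) r0_226 r11_300 (nat_lit 0) (nat_lit 0) (nat_lit 12926127) (nat_lit 0x800aea9a2) (nat_lit 550481389),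
  Rx.mk (nat_lit 445) (nat_lit 5) (nat_lit 7) (nat_lit 6) (nat_lit 7) (nat_lit 227) (nat_lit 301) r0_227 r11_301 (nat_lit 0) (nat_lit 0) (nat_lit 0) (nat_lit 0x8257094c6) (nat_lit 501926062)]
noncomputable def e12_56 : List Rx := [
  Rx.mk (nat_lit 313) (nat_lit 1) (nat_lit 7) (nat_lit 4) (nat_lit 3) (nat_lit 89) (nat_lit 61) r0_89 r5_61 (nat_lit 0) (nat_lit 0) (nat_lit 16868928) (nat_lit 0x770328902) (nat_lit 699634640),
  Rx.mk (nat_lit 505) (nat_lit 1) (nat_lit 7) (nat_lit 7) (nat_lit 7) (nat_lit 90) (nat_lit 62) r0_90 r5_62 (nat_lit 0) (nat_lit 0) (nat_lit 0) (nat_lit 0x80cf2f8d0) (nat_lit 525470412)]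
noncomputable def e12_57 : List Rx := [
  Rx.mk (nat_lit 289) (nat_lit 1) (nat_lit 4) (nat_lit 4) (nat_lit 1) (nat_lit 200) (nat_lit 37) r0_200 r11_37 (nat_lit 0) (nat_lit 75082556) (nat_lit 46723193) (nat_lit 0x67eb4628a) (nat_lit 1048737861),
  Rx.mk (nat_lit 297) (nat_lit 1) (nat_lit 5) (nat_lit 4) (nat_lit 3) (nat_lit 201) (nat_lit 38) r0_201 r11_38 (nat_lit 0) (nat_lit 0) (nat_lit 24741287) (nat_lit 0x80790da56) (nat_lit 555628299),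
  Rx.mk (nat_lit 313) (nat_lit 1) (nat_lit 7) (nat_lit 4) (nat_lit 3) (nat_lit 202) (nat_lit 39) r0_202 r11_39 (nat_lit 0) (nat_lit 0) (nat_lit 41103109) (nat_lit 0x7fd7cf8c4) (nat_lit 581741021),
  Rx.mk (nat_lit 505) (nat_lit 1) (nat_lit 7) (nat_lit 7) (nat_lit 7) (nat_lit 203) (nat_lit 40) r0_203 r11_40 (nat_lit 0) (nat_lit 0) (nat_lit 0) (nat_lit 0x820bd8c36) (nat_lit 506517062)]
noncomputable def e12 : List (List Rx) := [e12_0, e12_1, e12_2, e12_3, e12_4, e12_5, e12_6, e12_7, e12_8, e12_9, e12_10, e12_11, e12_12, e12_13, e12_14, e12_15, e12_16, e12_17, e12_18, e12_19, e12_20, e12_21, e12_22, e12_23, e12_24, e12_25, e12_26, e12_27, e12_28, e12_29, e12_30, e12_31, e12_32, e12_33, e12_34, e12_35, e12_36, e12_37, e12_38, e12_39, e12_40, e12_41, e12_42, e12_43, e12_44, e12_45, e12_46, e12_47, e12_48, e12_49, e12_50, e12_51, e12_52, e12_53, e12_54, e12_55,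 e12_56, e12_57]
noncomputable def e13_0 : List Rx := [
  Rx.mk (nat_lit 2) (nat_lit 2) (nat_lit 0) (nat_lit 0) (nat_lit 1) (nat_lit 2) (nat_lit 105) r7_2 r0_105 (nat_lit 0) (nat_lit 9373510) (nat_lit 4536926) (nat_lit 0x680227486) (nat_lit 939230248),
  Rx.mk (nat_lit 18) (nat_lit 2) (nat_lit 2) (nat_lit 0) (nat_lit 3) (nat_lit 4) (nat_lit 108) r7_4 r0_108 (nat_lit 0) (nat_lit 0) (nat_lit 24727622) (nat_lit 0x7be4cbc66) (nat_lit 628839434),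
  Rx.mk (nat_lit 146) (nat_lit 2) (nat_lit 2) (nat_lit 2) (nat_lit 7) (nat_lit 5) (nat_lit 110) r7_5 r0_110 (nat_lit 0) (nat_lit 0) (nat_lit 0) (nat_lit 0x8017985b4) (nat_lit 536870912),
  Rx.mk (nat_lit 192) (nat_lit 0) (nat_lit 0) (nat_lit 3) (nat_lit 4) (nat_lit 0) (nat_lit 100) r7_0 r0_100 (nat_lit 31904360) (nat_lit 46745449) (nat_lit 0) (nat_lit 0x5c2702b54) (nat_lit 1195869321),
  Rx.mk (nat_lit 194) (nat_lit 2) (nat_lit 0) (nat_lit 3) (nat_lit 5) (nat_lit 3) (nat_lit 106) r7_3 r0_106 (nat_lit 0) (nat_lit 73862049) (nat_lit 0) (nat_lit 0x7d468cf26) (nat_lit 655662261),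
  Rx.mk (nat_lit 210) (nat_lit 2) (nat_lit 2) (nat_lit 3) (nat_lit 7) (nat_lit 6) (nat_lit 109) r7_6 r0_109 (nat_lit 0) (nat_lit 0) (nat_lit 0) (nat_lit 0x7ff31a048) (nat_lit 539113112),
  Rx.mk (nat_lit 216) (nat_lit 0) (nat_lit 3) (nat_lit 3) (nat_lit 6) (nat_lit 1) (nat_lit 101) r7_1 r0_101 (nat_lit 15260325) (nat_lit 0) (nat_lit 0) (nat_lit 0x6e0d6284a) (nat_lit 843049387),
  Rx.mk (nat_lit 218) (nat_lit 2) (nat_lit 3) (nat_lit 3) (nat_lit 7) (nat_lit 7) (nat_lit 107) r7_7 r0_107 (nat_lit 0) (nat_lit 0) (nat_lit 0) (nat_lit 0x7fdfab7e6) (nat_lit 540283862),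
  Rx.mk (nat_lit 219) (nat_lit 3) (nat_lit 3) (nat_lit 3) (nat_lit 7) (nat_lit 10) (nat_lit 102) r7_10 r0_102 (nat_lit 0) (nat_lit 0) (nat_lit 0) (nat_lit 0x7dc623460) (nat_lit 573811562),
  Rx.mk (nat_lit 475) (nat_lit 3) (nat_lit 3) (nat_lit 7) (nat_lit 7) (nat_lit 9) (nat_lit 103) r7_9 r0_103 (nat_lit 0) (nat_lit 0) (nat_lit 0) (nat_lit 0x8017985b4) (nat_lit 536870912),
  Rx.mk (nat_lit 507) (nat_lit 3) (nat_lit 7) (nat_lit 7) (nat_lit 7) (nat_lit 8) (nat_lit 104) r7_8 r0_104 (nat_lit 0) (nat_lit 0) (nat_lit 0) (nat_lit 0x7ffe471c8) (nat_lit 538421712)]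
noncomputable def e13_1 : List Rx := [
  Rx.mk (nat_lit 0) (nat_lit 0) (nat_lit 0) (nat_lit 0) (nat_lit 0) (nat_lit 11) (nat_lit 107) r7_11 r1_107 (nat_lit 5821095) (nat_lit 43642432) (nat_lit 6392816) (nat_lit 0x44a1c92b0) (nat_lit 1553277655),
  Rx.mk (nat_lit 2) (nat_lit 2) (nat_lit 0) (nat_lit 0) (nat_lit 1) (nat_lit 14) (nat_lit 111) r7_14 r1_111 (nat_lit 0) (nat_lit 24461115) (nat_lit 15973405) (nat_lit 0x6bcc10498) (nat_lit 904689032),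
  Rx.mk (nat_lit 18) (nat_lit 2) (nat_lit 2) (nat_lit 0) (nat_lit 3) (nat_lit 16) (nat_lit 114) r7_16 r1_114 (nat_lit 0) (nat_lit 0) (nat_lit 16486043) (nat_lit 0x7aed483a4) (nat_lit 636147005),
  Rx.mk (nat_lit 146) (nat_lit 2) (nat_lit 2) (nat_lit 2) (nat_lit 7) (nat_lit 17) (nat_lit 116) r7_17 r1_116 (nat_lit 0) (nat_lit 0) (nat_lit 0) (nat_lit 0x8017985b4) (nat_lit 536870912),
  Rx.mk (nat_lit 192) (nat_lit 0) (nat_lit 0) (nat_lit 3) (nat_lit 4) (nat_lit 12) (nat_lit 108) r7_12 r1_108 (nat_lit 35130887) (nat_lit 78119258) (nat_lit 0) (nat_lit 0x6d4852dd4) (nat_lit 953515857),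
  Rx.mk (nat_lit 194) (nat_lit 2) (nat_lit 0) (nat_lit 3) (nat_lit 5) (nat_lit 15) (nat_lit 112) r7_15 r1_112 (nat_lit 0) (nat_lit 24618950) (nat_lit 0) (nat_lit 0x80095eab6) (nat_lit 562360112),
  Rx.mk (nat_lit 210) (nat_lit 2) (nat_lit 2) (nat_lit 3) (nat_lit 7) (nat_lit 18) (nat_lit 115) r7_18 r1_115 (nat_lit 0) (nat_lit 0) (nat_lit 0) (nat_lit 0x8017985b4) (nat_lit 536870912),
  Rx.mk (nat_lit 216) (nat_lit 0) (nat_lit 3) (nat_lit 3) (nat_lit 6) (nat_lit 13) (nat_lit 109) r7_13 r1_109 (nat_lit 21790589) (nat_lit 0) (nat_lit 0) (nat_lit 0x7f1945f52) (nat_lit 574322851),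
  Rx.mk (nat_lit 218) (nat_lit 2) (nat_lit 3) (nat_lit 3) (nat_lit 7) (nat_lit 19) (nat_lit 113) r7_19 r1_113 (nat_lit 0) (nat_lit 0) (nat_lit 0) (nat_lit 0x80538fe0a) (nat_lit 533186112),
  Rx.mk (nat_lit 219) (nat_lit 3) (nat_lit 3) (nat_lit 3) (nat_lit 7) (nat_lit 20) (nat_lit 110) r7_20 r1_110 (nat_lit 0) (nat_lit 0) (nat_lit 0) (nat_lit 0x8017985b4) (nat_lit 536870912)]
noncomputable def e13_2 : List Rx := [
  Rx.mk (nat_lit 0) (nat_lit 0) (nat_lit 0) (nat_lit 0) (nat_lit 0) (nat_lit 21) (nat_lit 101) r7_21 r2_101 (nat_lit 2362318) (nat_lit 3422726) (nat_lit 2611593) (nat_lit 0x3ce06297a) (nat_lit 1631121799),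
  Rx.mk (nat_lit 2) (nat_lit 2) (nat_lit 0) (nat_lit 0) (nat_lit 1) (nat_lit 26) (nat_lit 107) r7_26 r2_107 (nat_lit 0) (nat_lit 15429794) (nat_lit 17983786) (nat_lit 0x642450a34) (nat_lit 1021437892),
  Rx.mk (nat_lit 18) (nat_lit 2) (nat_lit 2) (nat_lit 0) (nat_lit 3) (nat_lit 28) (nat_lit 112) r7_28 r2_112 (nat_lit 0) (nat_lit 0) (nat_lit 24741287) (nat_lit 0x7ffac5806) (nat_lit 563378349),
  Rx.mk (nat_lit 24) (nat_lit 0) (nat_lit 3) (nat_lit 0) (nat_lit 2) (nat_lit 23) (nat_lit 103) r7_23 r2_103 (nat_lit 12919491) (nat_lit 0) (nat_lit 15431888) (nat_lit 0x6872d6740) (nat_lit 946738841),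
  Rx.mk (nat_lit 26) (nat_lit 2) (nat_lit 3) (nat_lit 0) (nat_lit 3) (nat_lit 31) (nat_lit 109) r7_31 r2_109 (nat_lit 0) (nat_lit 0) (nat_lit 24741287) (nat_lit 0x800bf9d8e) (nat_lit 562322849),
  Rx.mk (nat_lit 64) (nat_lit 0) (nat_lit 0) (nat_lit 1) (nat_lit 4) (nat_lit 22) (nat_lit 102) r7_22 r2_102 (nat_lit 33242310) (nat_lit 55381709) (nat_lit 0) (nat_lit 0x6310bfaca) (nat_lit 1094102531),
  Rx.mk (nat_lit 66) (nat_lit 2) (nat_lit 0) (nat_lit 1) (nat_lit 5) (nat_lit 27) (nat_lit 108) r7_27 r2_108 (nat_lit 0) (nat_lit 24741287) (nat_lit 0) (nat_lit 0x800c30b36) (nat_lit 562309299),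
  Rx.mk (nat_lit 82) (nat_lit 2) (nat_lit 2) (nat_lit 1) (nat_lit 7) (nat_lit 29) (nat_lit 113) r7_29 r2_113 (nat_lit 0) (nat_lit 0) (nat_lit 0) (nat_lit 0x8017985b4) (nat_lit 536870912),
  Rx.mk (nat_lit 88) (nat_lit 0) (nat_lit 3) (nat_lit 1) (nat_lit 6) (nat_lit 24) (nat_lit 104) r7_24 r2_104 (nat_lit 25208910) (nat_lit 0) (nat_lit 0) (nat_lit 0x800becfd0) (nat_lit 562792922),
  Rx.mk (nat_lit 90) (nat_lit 2) (nat_lit 3) (nat_lit 1) (nat_lit 7) (nat_lit 32) (nat_lit 110) r7_32 r2_110 (nat_lit 0) (nat_lit 0) (nat_lit 0) (nat_lit 0x8017985b4) (nat_lit 536870912),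
  Rx.mk (nat_lit 146) (nat_lit 2) (nat_lit 2) (nat_lit 2) (nat_lit 7) (nat_lit 30) (nat_lit 114) r7_30 r2_114 (nat_lit 0) (nat_lit 0) (nat_lit 0) (nat_lit 0x8017985b4) (nat_lit 536870912),
  Rx.mk (nat_lit 216) (nat_lit 0) (nat_lit 3) (nat_lit 3) (nat_lit 6) (nat_lit 25) (nat_lit 105) r7_25 r2_105 (nat_lit 24741287) (nat_lit 0) (nat_lit 0) (nat_lit 0x800c2469c) (nat_lit 562313099),
  Rx.mk (nat_lit 218) (nat_lit 2) (nat_lit 3) (nat_lit 3) (nat_lit 7) (nat_lit 33) (nat_lit 111) r7_33 r2_111 (nat_lit 0) (nat_lit 0) (nat_lit 0) (nat_lit 0x8017985b4) (nat_lit 536870912),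
  Rx.mk (nat_lit 219) (nat_lit 3) (nat_lit 3) (nat_lit 3) (nat_lit 7) (nat_lit 34) (nat_lit 106) r7_34 r2_106 (nat_lit 0) (nat_lit 0) (nat_lit 0) (nat_lit 0x8017985b4) (nat_lit 536870912)]
noncomputable def e13_3 : List Rx := [
  Rx.mk (nat_lit 315) (nat_lit 3) (nat_lit 7) (nat_lit 4) (nat_lit 3) (nat_lit 36) (nat_lit 102) r7_36 r3_102 (nat_lit 0) (nat_lit 0) (nat_lit 365028) (nat_lit 0x82b316502) (nat_lit 496255090),
  Rx.mk (nat_lit 472) (nat_lit 0) (nat_lit 3) (nat_lit 7) (nat_lit 6) (nat_lit 35) (nat_lit 100) r7_35 r3_100 (nat_lit 365028) (nat_lit 0) (nat_lit 0) (nat_lit 0x82b316502) (nat_lit 496255090),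
  Rx.mk (nat_lit 475) (nat_lit 3) (nat_lit 3) (nat_lit 7) (nat_lit 7) (nat_lit 38) (nat_lit 101) r7_38 r3_101 (nat_lit 0) (nat_lit 0) (nat_lit 0) (nat_lit 0x7f95fdf2c) (nat_lit 544861262),
  Rx.mk (nat_lit 507) (nat_lit 3) (nat_lit 7) (nat_lit 7) (nat_lit 7) (nat_lit 37) (nat_lit 103) r7_37 r3_103 (nat_lit 0) (nat_lit 0) (nat_lit 0) (nat_lit 0x7f95fdf2c) (nat_lit 544861262)]
noncomputable def e13_4 : List Rx := [
  Rx.mk (nat_lit 192) (nat_lit 0) (nat_lit 0) (nat_lit 3) (nat_lit 4) (nat_lit 39) (nat_lit 98) r7_39 r4_98 (nat_lit 11303237) (nat_lit 21615915) (nat_lit 0) (nat_lit 0x68ed8d4d4) (nat_lit 943524414),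
  Rx.mk (nat_lit 194) (nat_lit 2) (nat_lit 0) (nat_lit 3) (nat_lit 5) (nat_lit 42) (nat_lit 104) r7_42 r4_104 (nat_lit 0) (nat_lit 32199586) (nat_lit 0) (nat_lit 0x7deebd290) (nat_lit 603434298),
  Rx.mk (nat_lit 210) (nat_lit 2) (nat_lit 2) (nat_lit 3) (nat_lit 7) (nat_lit 43) (nat_lit 106) r7_43 r4_106 (nat_lit 0) (nat_lit 0) (nat_lit 0) (nat_lit 0x8017985b4) (nat_lit 536870912),
  Rx.mk (nat_lit 216) (nat_lit 0) (nat_lit 3) (nat_lit 3) (nat_lit 6) (nat_lit 41) (nat_lit 99) r7_41 r4_99 (nat_lit 10576130) (nat_lit 0) (nat_lit 0) (nat_lit 0x7fd267c38) (nat_lit 551565342),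
  Rx.mk (nat_lit 218) (nat_lit 2) (nat_lit 3) (nat_lit 3) (nat_lit 7) (nat_lit 44) (nat_lit 105) r7_44 r4_105 (nat_lit 0) (nat_lit 0) (nat_lit 0) (nat_lit 0x80d93c616) (nat_lit 525035062),
  Rx.mk (nat_lit 315) (nat_lit 3) (nat_lit 7) (nat_lit 4) (nat_lit 3) (nat_lit 45) (nat_lit 102) r7_45 r4_102 (nat_lit 0) (nat_lit 0) (nat_lit 15103995) (nat_lit 0x808086120) (nat_lit 545531857),
  Rx.mk (nat_lit 472) (nat_lit 0) (nat_lit 3) (nat_lit 7) (nat_lit 6) (nat_lit 40) (nat_lit 100) r7_40 r4_100 (nat_lit 17421724) (nat_lit 0) (nat_lit 0) (nat_lit 0x804c6a3e6) (nat_lit 551019636),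
  Rx.mk (nat_lit 475) (nat_lit 3) (nat_lit 3) (nat_lit 7) (nat_lit 7) (nat_lit 47) (nat_lit 101) r7_47 r4_101 (nat_lit 0) (nat_lit 0) (nat_lit 0) (nat_lit 0x8017985b4) (nat_lit 536870912),
  Rx.mk (nat_lit 507) (nat_lit 3) (nat_lit 7) (nat_lit 7) (nat_lit 7) (nat_lit 46) (nat_lit 103) r7_46 r4_103 (nat_lit 0) (nat_lit 0) (nat_lit 0) (nat_lit 0x8017985b4) (nat_lit 536870912)]
noncomputable def e13_5 : List Rx := [
  Rx.mk (nat_lit 283) (nat_lit 3) (nat_lit 3) (nat_lit 4) (nat_lit 3) (nat_lit 50) (nat_lit 103) r7_50 r5_103 (nat_lit 0) (nat_lit 0) (nat_lit 19223735) (nat_lit 0x75d2c1c74) (nat_lit 721395547),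
  Rx.mk (nat_lit 315) (nat_lit 3) (nat_lit 7) (nat_lit 4) (nat_lit 3) (nat_lit 49) (nat_lit 105) r7_49 r5_105 (nat_lit 0) (nat_lit 0) (nat_lit 7182949) (nat_lit 0x7cac4e324) (nat_lit 598492961),
  Rx.mk (nat_lit 472) (nat_lit 0) (nat_lit 3) (nat_lit 7) (nat_lit 6) (nat_lit 48) (nat_lit 102) r7_48 r5_102 (nat_lit 6601539) (nat_lit 0) (nat_lit 0) (nat_lit 0x821cfef2e) (nat_lit 512046101),
  Rx.mk (nat_lit 475) (nat_lit 3) (nat_lit 3) (nat_lit 7) (nat_lit 7) (nat_lit 51) (nat_lit 104) r7_51 r5_104 (nat_lit 0) (nat_lit 0) (nat_lit 0) (nat_lit 0x8017985b4) (nat_lit 536870912)]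
noncomputable def e13_6 : List Rx := [
  Rx.mk (nat_lit 320) (nat_lit 0) (nat_lit 0) (nat_lit 5) (nat_lit 4) (nat_lit 52) (nat_lit 167) r7_52 r3_167 (nat_lit 187444) (nat_lit 161216) (nat_lit 0) (nat_lit 0x65b3d3f7a) (nat_lit 962509472),
  Rx.mk (nat_lit 321) (nat_lit 1) (nat_lit 0) (nat_lit 5) (nat_lit 5) (nat_lit 54) (nat_lit 168) r7_54 r3_168 (nat_lit 0) (nat_lit 20900457) (nat_lit 0) (nat_lit 0x7888ef68e) (nat_lit 679216269),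
  Rx.mk (nat_lit 344) (nat_lit 0) (nat_lit 3) (nat_lit 5) (nat_lit 6) (nat_lit 53) (nat_lit 169) r7_53 r3_169 (nat_lit 1062796) (nat_lit 0) (nat_lit 0) (nat_lit 0x7d66ce370) (nat_lit 580163308),
  Rx.mk (nat_lit 345) (nat_lit 1) (nat_lit 3) (nat_lit 5) (nat_lit 7) (nat_lit 55) (nat_lit 170) r7_55 r3_170 (nat_lit 0) (nat_lit 0) (nat_lit 0) (nat_lit 0x82218c4a6) (nat_lit 505206912)]
noncomputable def e13_7 : List Rx := [
  Rx.mk (nat_lit 64) (nat_lit 0) (nat_lit 0) (nat_lit 1) (nat_lit 4) (nat_lit 57) (nat_lit 178) r7_57 r0_178 (nat_lit 5394699) (nat_lit 10270932) (nat_lit 0) (nat_lit 0x5fa366a58) (nat_lit 1076368243),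
  Rx.mk (nat_lit 65) (nat_lit 1) (nat_lit 0) (nat_lit 1) (nat_lit 5) (nat_lit 60) (nat_lit 180) r7_60 r0_180 (nat_lit 0) (nat_lit 23289893) (nat_lit 0) (nat_lit 0x7d8545704) (nat_lit 601157455),
  Rx.mk (nat_lit 66) (nat_lit 2) (nat_lit 0) (nat_lit 1) (nat_lit 5) (nat_lit 62) (nat_lit 181) r7_62 r0_181 (nat_lit 0) (nat_lit 39572657) (nat_lit 0) (nat_lit 0x7fce955ba) (nat_lit 580469619),
  Rx.mk (nat_lit 88) (nat_lit 0) (nat_lit 3) (nat_lit 1) (nat_lit 6) (nat_lit 58) (nat_lit 182) r7_58 r0_182 (nat_lit 7741900) (nat_lit 0) (nat_lit 0) (nat_lit 0x80bec9efa) (nat_lit 534261362),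
  Rx.mk (nat_lit 89) (nat_lit 1) (nat_lit 3) (nat_lit 1) (nat_lit 7) (nat_lit 61) (nat_lit 183) r7_61 r0_183 (nat_lit 0) (nat_lit 0) (nat_lit 0) (nat_lit 0x80877ffc6) (nat_lit 529984012),
  Rx.mk (nat_lit 90) (nat_lit 2) (nat_lit 3) (nat_lit 1) (nat_lit 7) (nat_lit 63) (nat_lit 184) r7_63 r0_184 (nat_lit 0) (nat_lit 0) (nat_lit 0) (nat_lit 0x80b89b4d4) (nat_lit 527012662),
  Rx.mk (nat_lit 320) (nat_lit 0) (nat_lit 0) (nat_lit 5) (nat_lit 4) (nat_lit 56) (nat_lit 177) r7_56 r0_177 (nat_lit 3400781) (nat_lit 7378942) (nat_lit 0) (nat_lit 0x545558bfa) (nat_lit 1254182035),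
  Rx.mk (nat_lit 321) (nat_lit 1) (nat_lit 0) (nat_lit 5) (nat_lit 5) (nat_lit 59) (nat_lit 179) r7_59 r0_179 (nat_lit 0) (nat_lit 10961872) (nat_lit 0) (nat_lit 0x71abf8114) (nat_lit 780182384)]
noncomputable def e13_8 : List Rx := [
  Rx.mk (nat_lit 64) (nat_lit 0) (nat_lit 0) (nat_lit 1) (nat_lit 4) (nat_lit 64) (nat_lit 192) r7_64 r1_192 (nat_lit 16757287) (nat_lit 25112477) (nat_lit 0) (nat_lit 0x6c3762d4a) (nat_lit 899304226),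
  Rx.mk (nat_lit 65) (nat_lit 1) (nat_lit 0) (nat_lit 1) (nat_lit 5) (nat_lit 66) (nat_lit 193) r7_66 r1_193 (nat_lit 0) (nat_lit 25314926) (nat_lit 0) (nat_lit 0x7f9e34eca) (nat_lit 569620288),
  Rx.mk (nat_lit 66) (nat_lit 2) (nat_lit 0) (nat_lit 1) (nat_lit 5) (nat_lit 68) (nat_lit 194) r7_68 r1_194 (nat_lit 0) (nat_lit 30395325) (nat_lit 0) (nat_lit 0x809096c2c) (nat_lit 559824137),
  Rx.mk (nat_lit 82) (nat_lit 2) (nat_lit 2) (nat_lit 1) (nat_lit 7) (nat_lit 69) (nat_lit 198) r7_69 r1_198 (nat_lit 0) (nat_lit 0) (nat_lit 0) (nat_lit 0x8018dbc28) (nat_lit 536671062),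
  Rx.mk (nat_lit 88) (nat_lit 0) (nat_lit 3) (nat_lit 1) (nat_lit 6) (nat_lit 65) (nat_lit 195) r7_65 r1_195 (nat_lit 19851321) (nat_lit 0) (nat_lit 0) (nat_lit 0x80224bf92) (nat_lit 556043533),
  Rx.mk (nat_lit 89) (nat_lit 1) (nat_lit 3) (nat_lit 1) (nat_lit 7) (nat_lit 67) (nat_lit 196) r7_67 r1_196 (nat_lit 0) (nat_lit 0) (nat_lit 0) (nat_lit 0x8017985b4) (nat_lit 536870912),
  Rx.mk (nat_lit 90) (nat_lit 2) (nat_lit 3) (nat_lit 1) (nat_lit 7) (nat_lit 70) (nat_lit 197) r7_70 r1_197 (nat_lit 0) (nat_lit 0) (nat_lit 0) (nat_lit 0x8017985b4) (nat_lit 536870912)]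
noncomputable def e13_9 : List Rx := [
  Rx.mk (nat_lit 88) (nat_lit 0) (nat_lit 3) (nat_lit 1) (nat_lit 6) (nat_lit 73) (nat_lit 170) r7_73 r4_170 (nat_lit 15079429) (nat_lit 0) (nat_lit 0) (nat_lit 0x80b288b5a) (nat_lit 542464441),
  Rx.mk (nat_lit 89) (nat_lit 1) (nat_lit 3) (nat_lit 1) (nat_lit 7) (nat_lit 76) (nat_lit 172) r7_76 r4_172 (nat_lit 0) (nat_lit 0) (nat_lit 0) (nat_lit 0x8047400be) (nat_lit 533941862),
  Rx.mk (nat_lit 90) (nat_lit 2) (nat_lit 3) (nat_lit 1) (nat_lit 7) (nat_lit 77) (nat_lit 173) r7_77 r4_173 (nat_lit 0) (nat_lit 0) (nat_lit 0) (nat_lit 0x804741ba8) (nat_lit 533941462),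
  Rx.mk (nat_lit 320) (nat_lit 0) (nat_lit 0) (nat_lit 5) (nat_lit 4) (nat_lit 71) (nat_lit 167) r7_71 r4_167 (nat_lit 22125450) (nat_lit 19907554) (nat_lit 0) (nat_lit 0x63a785950) (nat_lit 1037930216),
  Rx.mk (nat_lit 321) (nat_lit 1) (nat_lit 0) (nat_lit 5) (nat_lit 5) (nat_lit 74) (nat_lit 168) r7_74 r4_168 (nat_lit 0) (nat_lit 19814278) (nat_lit 0) (nat_lit 0x7ff710a44) (nat_lit 558656140),
  Rx.mk (nat_lit 344) (nat_lit 0) (nat_lit 3) (nat_lit 5) (nat_lit 6) (nat_lit 72) (nat_lit 169) r7_72 r4_169 (nat_lit 9466543) (nat_lit 0) (nat_lit 0) (nat_lit 0x7fa3c1d3e) (nat_lit 553281955),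
  Rx.mk (nat_lit 345) (nat_lit 1) (nat_lit 3) (nat_lit 5) (nat_lit 7) (nat_lit 75) (nat_lit 171) r7_75 r4_171 (nat_lit 0) (nat_lit 0) (nat_lit 0) (nat_lit 0x80e5a0ace) (nat_lit 524283362)]
noncomputable def e13_10 : List Rx := [
  Rx.mk (nat_lit 280) (nat_lit 0) (nat_lit 3) (nat_lit 4) (nat_lit 2) (nat_lit 78) (nat_lit 106) r7_78 r6_106 (nat_lit 3417910) (nat_lit 0) (nat_lit 3103288) (nat_lit 0x6f0f18210) (nat_lit 817792160),
  Rx.mk (nat_lit 281) (nat_lit 1) (nat_lit 3) (nat_lit 4) (nat_lit 3) (nat_lit 81) (nat_lit 109) r7_81 r6_109 (nat_lit 0) (nat_lit 0) (nat_lit 10382740) (nat_lit 0x817f374a8) (nat_lit 525372102),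
  Rx.mk (nat_lit 283) (nat_lit 3) (nat_lit 3) (nat_lit 4) (nat_lit 3) (nat_lit 86) (nat_lit 112) r7_86 r6_112 (nat_lit 0) (nat_lit 0) (nat_lit 24741287) (nat_lit 0x7f4e81a9a) (nat_lit 574017999),
  Rx.mk (nat_lit 315) (nat_lit 3) (nat_lit 7) (nat_lit 4) (nat_lit 3) (nat_lit 84) (nat_lit 114) r7_84 r6_114 (nat_lit 0) (nat_lit 0) (nat_lit 8290090) (nat_lit 0x80c4482e6) (nat_lit 534483002),
  Rx.mk (nat_lit 344) (nat_lit 0) (nat_lit 3) (nat_lit 5) (nat_lit 6) (nat_lit 79) (nat_lit 107) r7_79 r6_107 (nat_lit 12588522) (nat_lit 0) (nat_lit 0) (nat_lit 0x8109aaa8c) (nat_lit 534683584),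
  Rx.mk (nat_lit 345) (nat_lit 1) (nat_lit 3) (nat_lit 5) (nat_lit 7) (nat_lit 82) (nat_lit 110) r7_82 r6_110 (nat_lit 0) (nat_lit 0) (nat_lit 0) (nat_lit 0x806259ae4) (nat_lit 532286612),
  Rx.mk (nat_lit 347) (nat_lit 3) (nat_lit 3) (nat_lit 5) (nat_lit 7) (nat_lit 87) (nat_lit 113) r7_87 r6_113 (nat_lit 0) (nat_lit 0) (nat_lit 0) (nat_lit 0x8017985b4) (nat_lit 536870912),
  Rx.mk (nat_lit 379) (nat_lit 3) (nat_lit 7) (nat_lit 5) (nat_lit 7) (nat_lit 85) (nat_lit 115) r7_85 r6_115 (nat_lit 0) (nat_lit 0) (nat_lit 0) (nat_lit 0x810efde94) (nat_lit 521774762),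
  Rx.mk (nat_lit 472) (nat_lit 0) (nat_lit 3) (nat_lit 7) (nat_lit 6) (nat_lit 80) (nat_lit 108) r7_80 r6_108 (nat_lit 9429526) (nat_lit 0) (nat_lit 0) (nat_lit 0x80843ba90) (nat_lit 539527188),
  Rx.mk (nat_lit 473) (nat_lit 1) (nat_lit 3) (nat_lit 7) (nat_lit 7) (nat_lit 83) (nat_lit 111) r7_83 r6_111 (nat_lit 0) (nat_lit 0) (nat_lit 0) (nat_lit 0x80e84372c) (nat_lit 524123412)]
noncomputable def e13_11 : List Rx := [
  Rx.mk (nat_lit 320) (nat_lit 0) (nat_lit 0) (nat_lit 5) (nat_lit 4) (nat_lit 88) (nat_lit 184) r7_88 r5_184 (nat_lit 5813795) (nat_lit 21504054) (nat_lit 0) (nat_lit 0x686efd894) (nat_lit 945833261),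
  Rx.mk (nat_lit 321) (nat_lit 1) (nat_lit 0) (nat_lit 5) (nat_lit 5) (nat_lit 90) (nat_lit 185) r7_90 r5_185 (nat_lit 0) (nat_lit 24741287) (nat_lit 0) (nat_lit 0x7fd363f88) (nat_lit 565797099),
  Rx.mk (nat_lit 344) (nat_lit 0) (nat_lit 3) (nat_lit 5) (nat_lit 6) (nat_lit 89) (nat_lit 186) r7_89 r5_186 (nat_lit 6741966) (nat_lit 0) (nat_lit 0) (nat_lit 0x7f4734e86) (nat_lit 556141628),
  Rx.mk (nat_lit 345) (nat_lit 1) (nat_lit 3) (nat_lit 5) (nat_lit 7) (nat_lit 91) (nat_lit 187) r7_91 r5_187 (nat_lit 0) (nat_lit 0) (nat_lit 0) (nat_lit 0x812b94fb2) (nat_lit 520035912),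
  Rx.mk (nat_lit 347) (nat_lit 3) (nat_lit 3) (nat_lit 5) (nat_lit 7) (nat_lit 92) (nat_lit 188) r7_92 r5_188 (nat_lit 0) (nat_lit 0) (nat_lit 0) (nat_lit 0x8017985b4) (nat_lit 536870912)]
noncomputable def e13_12 : List Rx := [
  Rx.mk (nat_lit 295) (nat_lit 7) (nat_lit 4) (nat_lit 4) (nat_lit 1) (nat_lit 96) (nat_lit 100) r7_96 r0_100 (nat_lit 0) (nat_lit 46745449) (nat_lit 31904360) (nat_lit 0x5c2702b54) (nat_lit 1195869321),
  Rx.mk (nat_lit 319) (nat_lit 7) (nat_lit 7) (nat_lit 4) (nat_lit 3) (nat_lit 99) (nat_lit 101) r7_99 r0_101 (nat_lit 0) (nat_lit 0) (nat_lit 15260325) (nat_lit 0x6e0d6284a) (nat_lit 843049387),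
  Rx.mk (nat_lit 420) (nat_lit 4) (nat_lit 4) (nat_lit 6) (nat_lit 4) (nat_lit 93) (nat_lit 105) r7_93 r0_105 (nat_lit 4536926) (nat_lit 9373510) (nat_lit 0) (nat_lit 0x680227486) (nat_lit 939230248),
  Rx.mk (nat_lit 423) (nat_lit 7) (nat_lit 4) (nat_lit 6) (nat_lit 5) (nat_lit 97) (nat_lit 106) r7_97 r0_106 (nat_lit 0) (nat_lit 73862049) (nat_lit 0) (nat_lit 0x7d468cf26) (nat_lit 655662261),
  Rx.mk (nat_lit 436) (nat_lit 4) (nat_lit 6) (nat_lit 6) (nat_lit 6) (nat_lit 94) (nat_lit 108) r7_94 r0_108 (nat_lit 24727622) (nat_lit 0) (nat_lit 0) (nat_lit 0x7be4cbc66) (nat_lit 628839434),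
  Rx.mk (nat_lit 438) (nat_lit 6) (nat_lit 6) (nat_lit 6) (nat_lit 7) (nat_lit 95) (nat_lit 110) r7_95 r0_110 (nat_lit 0) (nat_lit 0) (nat_lit 0) (nat_lit 0x8017985b4) (nat_lit 536870912),
  Rx.mk (nat_lit 439) (nat_lit 7) (nat_lit 6) (nat_lit 6) (nat_lit 7) (nat_lit 98) (nat_lit 109) r7_98 r0_109 (nat_lit 0) (nat_lit 0) (nat_lit 0) (nat_lit 0x7ff31a048) (nat_lit 539113112),
  Rx.mk (nat_lit 447) (nat_lit 7) (nat_lit 7) (nat_lit 6) (nat_lit 7) (nat_lit 100) (nat_lit 107) r7_100 r0_107 (nat_lit 0) (nat_lit 0) (nat_lit 0) (nat_lit 0x7fdfab7e6) (nat_lit 540283862),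
  Rx.mk (nat_lit 475) (nat_lit 3) (nat_lit 3) (nat_lit 7) (nat_lit 7) (nat_lit 103) (nat_lit 104) r7_103 r0_104 (nat_lit 0) (nat_lit 0) (nat_lit 0) (nat_lit 0x7ffe471c8) (nat_lit 538421712),
  Rx.mk (nat_lit 507) (nat_lit 3) (nat_lit 7) (nat_lit 7) (nat_lit 7) (nat_lit 102) (nat_lit 103) r7_102 r0_103 (nat_lit 0) (nat_lit 0) (nat_lit 0) (nat_lit 0x8017985b4) (nat_lit 536870912),
  Rx.mk (nat_lit 511) (nat_lit 7) (nat_lit 7) (nat_lit 7) (nat_lit 7) (nat_lit 101) (nat_lit 102) r7_101 r0_102 (nat_lit 0) (nat_lit 0) (nat_lit 0) (nat_lit 0x7dc623460) (nat_lit 573811562)]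
noncomputable def e13_13 : List Rx := [
  Rx.mk (nat_lit 2) (nat_lit 2) (nat_lit 0) (nat_lit 0) (nat_lit 1) (nat_lit 117) (nat_lit 109) r7_117 r7_109 (nat_lit 0) (nat_lit 2171094) (nat_lit 1892156) (nat_lit 0x66d673f48) (nat_lit 948189812),
  Rx.mk (nat_lit 18) (nat_lit 2) (nat_lit 2) (nat_lit 0) (nat_lit 3) (nat_lit 119) (nat_lit 112) r7_119 r7_112 (nat_lit 0) (nat_lit 0) (nat_lit 20653400) (nat_lit 0x7eba33c62) (nat_lit 579149912),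
  Rx.mk (nat_lit 146) (nat_lit 2) (nat_lit 2) (nat_lit 2) (nat_lit 7) (nat_lit 120) (nat_lit 114) r7_120 r7_114 (nat_lit 0) (nat_lit 0) (nat_lit 0) (nat_lit 0x8017985b4) (nat_lit 536870912),
  Rx.mk (nat_lit 150) (nat_lit 6) (nat_lit 2) (nat_lit 2) (nat_lit 7) (nat_lit 108) (nat_lit 123) r7_108 r7_123 (nat_lit 0) (nat_lit 0) (nat_lit 0) (nat_lit 0x8017985b4) (nat_lit 536870912),
  Rx.mk (nat_lit 182) (nat_lit 6) (nat_lit 6) (nat_lit 2) (nat_lit 7) (nat_lit 107) (nat_lit 124) r7_107 r7_124 (nat_lit 0) (nat_lit 0) (nat_lit 0) (nat_lit 0x8017985b4) (nat_lit 536870912),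
  Rx.mk (nat_lit 192) (nat_lit 0) (nat_lit 0) (nat_lit 3) (nat_lit 4) (nat_lit 115) (nat_lit 104) r7_115 r7_104 (nat_lit 1892156) (nat_lit 2171094) (nat_lit 0) (nat_lit 0x66d673f48) (nat_lit 948189812),
  Rx.mk (nat_lit 194) (nat_lit 2) (nat_lit 0) (nat_lit 3) (nat_lit 5) (nat_lit 118) (nat_lit 110) r7_118 r7_110 (nat_lit 0) (nat_lit 27248611) (nat_lit 0) (nat_lit 0x7eb81e31e) (nat_lit 585867273),
  Rx.mk (nat_lit 210) (nat_lit 2) (nat_lit 2) (nat_lit 3) (nat_lit 7) (nat_lit 121) (nat_lit 113) r7_121 r7_113 (nat_lit 0) (nat_lit 0) (nat_lit 0) (nat_lit 0x8017985b4) (nat_lit 536870912),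
  Rx.mk (nat_lit 216) (nat_lit 0) (nat_lit 3) (nat_lit 3) (nat_lit 6) (nat_lit 116) (nat_lit 105) r7_116 r7_105 (nat_lit 20653400) (nat_lit 0) (nat_lit 0) (nat_lit 0x7eba33c62) (nat_lit 579149912),
  Rx.mk (nat_lit 218) (nat_lit 2) (nat_lit 3) (nat_lit 3) (nat_lit 7) (nat_lit 122) (nat_lit 111) r7_122 r7_111 (nat_lit 0) (nat_lit 0) (nat_lit 0) (nat_lit 0x8017985b4) (nat_lit 536870912),
  Rx.mk (nat_lit 219) (nat_lit 3) (nat_lit 3) (nat_lit 3) (nat_lit 7) (nat_lit 125) (nat_lit 106) r7_125 r7_106 (nat_lit 0) (nat_lit 0) (nat_lit 0) (nat_lit 0x8017985b4) (nat_lit 536870912),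
  Rx.mk (nat_lit 295) (nat_lit 7) (nat_lit 4) (nat_lit 4) (nat_lit 1) (nat_lit 109) (nat_lit 117) r7_109 r7_117 (nat_lit 0) (nat_lit 2171094) (nat_lit 1892156) (nat_lit 0x66d673f48) (nat_lit 948189812),
  Rx.mk (nat_lit 319) (nat_lit 7) (nat_lit 7) (nat_lit 4) (nat_lit 3) (nat_lit 112) (nat_lit 119) r7_112 r7_119 (nat_lit 0) (nat_lit 0) (nat_lit 20653400) (nat_lit 0x7eba33c62) (nat_lit 579149912),
  Rx.mk (nat_lit 420) (nat_lit 4) (nat_lit 4) (nat_lit 6) (nat_lit 4) (nat_lit 104) (nat_lit 115) r7_104 r7_115 (nat_lit 1892156) (nat_lit 2171094) (nat_lit 0) (nat_lit 0x66d673f48) (nat_lit 948189812),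
  Rx.mk (nat_lit 423) (nat_lit 7) (nat_lit 4) (nat_lit 6) (nat_lit 5) (nat_lit 110) (nat_lit 118) r7_110 r7_118 (nat_lit 0) (nat_lit 27248611) (nat_lit 0) (nat_lit 0x7eb81e31e) (nat_lit 585867273),
  Rx.mk (nat_lit 436) (nat_lit 4) (nat_lit 6) (nat_lit 6) (nat_lit 6) (nat_lit 105) (nat_lit 116) r7_105 r7_116 (nat_lit 20653400) (nat_lit 0) (nat_lit 0) (nat_lit 0x7eba33c62) (nat_lit 579149912),
  Rx.mk (nat_lit 438) (nat_lit 6) (nat_lit 6) (nat_lit 6) (nat_lit 7) (nat_lit 106) (nat_lit 125) r7_106 r7_125 (nat_lit 0) (nat_lit 0) (nat_lit 0) (nat_lit 0x8017985b4) (nat_lit 536870912),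
  Rx.mk (nat_lit 439) (nat_lit 7) (nat_lit 6) (nat_lit 6) (nat_lit 7) (nat_lit 111) (nat_lit 122) r7_111 r7_122 (nat_lit 0) (nat_lit 0) (nat_lit 0) (nat_lit 0x8017985b4) (nat_lit 536870912),
  Rx.mk (nat_lit 447) (nat_lit 7) (nat_lit 7) (nat_lit 6) (nat_lit 7) (nat_lit 113) (nat_lit 121) r7_113 r7_121 (nat_lit 0) (nat_lit 0) (nat_lit 0) (nat_lit 0x8017985b4) (nat_lit 536870912),
  Rx.mk (nat_lit 475) (nat_lit 3) (nat_lit 3) (nat_lit 7) (nat_lit 7) (nat_lit 124) (nat_lit 107) r7_124 r7_107 (nat_lit 0) (nat_lit 0) (nat_lit 0) (nat_lit 0x8017985b4) (nat_lit 536870912),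
  Rx.mk (nat_lit 507) (nat_lit 3) (nat_lit 7) (nat_lit 7) (nat_lit 7) (nat_lit 123) (nat_lit 108) r7_123 r7_108 (nat_lit 0) (nat_lit 0) (nat_lit 0) (nat_lit 0x8017985b4) (nat_lit 536870912),
  Rx.mk (nat_lit 511) (nat_lit 7) (nat_lit 7) (nat_lit 7) (nat_lit 7) (nat_lit 114) (nat_lit 120) r7_114 r7_120 (nat_lit 0) (nat_lit 0) (nat_lit 0) (nat_lit 0x8017985b4) (nat_lit 536870912)]
noncomputable def e13_14 : List Rx := [
  Rx.mk (nat_lit 292) (nat_lit 4) (nat_lit 4) (nat_lit 4) (nat_lit 0) (nat_lit 126) (nat_lit 107) r7_126 r1_107 (nat_lit 6392816) (nat_lit 43642432) (nat_lit 5821095) (nat_lit 0x44a1c92b0) (nat_lit 1553277655),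
  Rx.mk (nat_lit 295) (nat_lit 7) (nat_lit 4) (nat_lit 4) (nat_lit 1) (nat_lit 130) (nat_lit 108) r7_130 r1_108 (nat_lit 0) (nat_lit 78119258) (nat_lit 35130887) (nat_lit 0x6d4852dd4) (nat_lit 953515857),
  Rx.mk (nat_lit 319) (nat_lit 7) (nat_lit 7) (nat_lit 4) (nat_lit 3) (nat_lit 133) (nat_lit 109) r7_133 r1_109 (nat_lit 0) (nat_lit 0) (nat_lit 21790589) (nat_lit 0x7f1945f52) (nat_lit 574322851),
  Rx.mk (nat_lit 420) (nat_lit 4) (nat_lit 4) (nat_lit 6) (nat_lit 4) (nat_lit 127) (nat_lit 111) r7_127 r1_111 (nat_lit 15973405) (nat_lit 24461115) (nat_lit 0) (nat_lit 0x6bcc10498) (nat_lit 904689032),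
  Rx.mk (nat_lit 423) (nat_lit 7) (nat_lit 4) (nat_lit 6) (nat_lit 5) (nat_lit 131) (nat_lit 112) r7_131 r1_112 (nat_lit 0) (nat_lit 24618950) (nat_lit 0) (nat_lit 0x80095eab6) (nat_lit 562360112),
  Rx.mk (nat_lit 436) (nat_lit 4) (nat_lit 6) (nat_lit 6) (nat_lit 6) (nat_lit 128) (nat_lit 114) r7_128 r1_114 (nat_lit 16486043) (nat_lit 0) (nat_lit 0) (nat_lit 0x7aed483a4) (nat_lit 636147005),
  Rx.mk (nat_lit 438) (nat_lit 6) (nat_lit 6) (nat_lit 6) (nat_lit 7) (nat_lit 129) (nat_lit 116) r7_129 r1_116 (nat_lit 0) (nat_lit 0) (nat_lit 0) (nat_lit 0x8017985b4) (nat_lit 536870912),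
  Rx.mk (nat_lit 439) (nat_lit 7) (nat_lit 6) (nat_lit 6) (nat_lit 7) (nat_lit 132) (nat_lit 115) r7_132 r1_115 (nat_lit 0) (nat_lit 0) (nat_lit 0) (nat_lit 0x8017985b4) (nat_lit 536870912),
  Rx.mk (nat_lit 447) (nat_lit 7) (nat_lit 7) (nat_lit 6) (nat_lit 7) (nat_lit 134) (nat_lit 113) r7_134 r1_113 (nat_lit 0) (nat_lit 0) (nat_lit 0) (nat_lit 0x80538fe0a) (nat_lit 533186112),
  Rx.mk (nat_lit 511) (nat_lit 7) (nat_lit 7) (nat_lit 7) (nat_lit 7) (nat_lit 135) (nat_lit 110) r7_135 r1_110 (nat_lit 0) (nat_lit 0) (nat_lit 0) (nat_lit 0x8017985b4) (nat_lit 536870912)]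
noncomputable def e13_15 : List Rx := [
  Rx.mk (nat_lit 150) (nat_lit 6) (nat_lit 2) (nat_lit 2) (nat_lit 7) (nat_lit 141) (nat_lit 87) r7_141 r8_87 (nat_lit 0) (nat_lit 0) (nat_lit 0) (nat_lit 0x8017985b4) (nat_lit 536870912),
  Rx.mk (nat_lit 182) (nat_lit 6) (nat_lit 6) (nat_lit 2) (nat_lit 7) (nat_lit 140) (nat_lit 88) r7_140 r8_88 (nat_lit 0) (nat_lit 0) (nat_lit 0) (nat_lit 0x8017985b4) (nat_lit 536870912),
  Rx.mk (nat_lit 292) (nat_lit 4) (nat_lit 4) (nat_lit 4) (nat_lit 0) (nat_lit 136) (nat_lit 78) r7_136 r8_78 (nat_lit 8960456) (nat_lit 26185611) (nat_lit 8497828) (nat_lit 0x362c7667e) (nat_lit 1774947907),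
  Rx.mk (nat_lit 295) (nat_lit 7) (nat_lit 4) (nat_lit 4) (nat_lit 1) (nat_lit 142) (nat_lit 81) r7_142 r8_81 (nat_lit 0) (nat_lit 13633279) (nat_lit 14186136) (nat_lit 0x6517ac3fe) (nat_lit 1000476627),
  Rx.mk (nat_lit 319) (nat_lit 7) (nat_lit 7) (nat_lit 4) (nat_lit 3) (nat_lit 145) (nat_lit 83) r7_145 r8_83 (nat_lit 0) (nat_lit 0) (nat_lit 24741287) (nat_lit 0x7fe1901b0) (nat_lit 564922449),
  Rx.mk (nat_lit 420) (nat_lit 4) (nat_lit 4) (nat_lit 6) (nat_lit 4) (nat_lit 137) (nat_lit 79) r7_137 r8_79 (nat_lit 24616168) (nat_lit 24651851) (nat_lit 0) (nat_lit 0x5ff890ccc) (nat_lit 1104782931),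
  Rx.mk (nat_lit 423) (nat_lit 7) (nat_lit 4) (nat_lit 6) (nat_lit 5) (nat_lit 143) (nat_lit 82) r7_143 r8_82 (nat_lit 0) (nat_lit 24741287) (nat_lit 0) (nat_lit 0x7fe8e8d90) (nat_lit 564464999),
  Rx.mk (nat_lit 436) (nat_lit 4) (nat_lit 6) (nat_lit 6) (nat_lit 6) (nat_lit 138) (nat_lit 80) r7_138 r8_80 (nat_lit 24741287) (nat_lit 0) (nat_lit 0) (nat_lit 0x7ff6824a6) (nat_lit 563637099),
  Rx.mk (nat_lit 438) (nat_lit 6) (nat_lit 6) (nat_lit 6) (nat_lit 7) (nat_lit 139) (nat_lit 89) r7_139 r8_89 (nat_lit 0) (nat_lit 0) (nat_lit 0) (nat_lit 0x8017985b4) (nat_lit 536870912),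
  Rx.mk (nat_lit 439) (nat_lit 7) (nat_lit 6) (nat_lit 6) (nat_lit 7) (nat_lit 144) (nat_lit 86) r7_144 r8_86 (nat_lit 0) (nat_lit 0) (nat_lit 0) (nat_lit 0x8017985b4) (nat_lit 536870912),
  Rx.mk (nat_lit 447) (nat_lit 7) (nat_lit 7) (nat_lit 6) (nat_lit 7) (nat_lit 146) (nat_lit 85) r7_146 r8_85 (nat_lit 0) (nat_lit 0) (nat_lit 0) (nat_lit 0x8017985b4) (nat_lit 536870912),
  Rx.mk (nat_lit 511) (nat_lit 7) (nat_lit 7) (nat_lit 7) (nat_lit 7) (nat_lit 147) (nat_lit 84) r7_147 r8_84 (nat_lit 0) (nat_lit 0) (nat_lit 0) (nat_lit 0x8017985b4) (nat_lit 536870912)]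
noncomputable def e13_16 : List Rx := [
  Rx.mk (nat_lit 0) (nat_lit 0) (nat_lit 0) (nat_lit 0) (nat_lit 0) (nat_lit 150) (nat_lit 78) r7_150 r8_78 (nat_lit 8497828) (nat_lit 26185611) (nat_lit 8960456) (nat_lit 0x362c7667e) (nat_lit 1774947907),
  Rx.mk (nat_lit 2) (nat_lit 2) (nat_lit 0) (nat_lit 0) (nat_lit 1) (nat_lit 153) (nat_lit 79) r7_153 r8_79 (nat_lit 0) (nat_lit 24651851) (nat_lit 24616168) (nat_lit 0x5ff890ccc) (nat_lit 1104782931),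
  Rx.mk (nat_lit 18) (nat_lit 2) (nat_lit 2) (nat_lit 0) (nat_lit 3) (nat_lit 155) (nat_lit 80) r7_155 r8_80 (nat_lit 0) (nat_lit 0) (nat_lit 24741287) (nat_lit 0x7ff6824a6) (nat_lit 563637099),
  Rx.mk (nat_lit 146) (nat_lit 2) (nat_lit 2) (nat_lit 2) (nat_lit 7) (nat_lit 156) (nat_lit 89) r7_156 r8_89 (nat_lit 0) (nat_lit 0) (nat_lit 0) (nat_lit 0x8017985b4) (nat_lit 536870912),
  Rx.mk (nat_lit 150) (nat_lit 6) (nat_lit 2) (nat_lit 2) (nat_lit 7) (nat_lit 149) (nat_lit 88) r7_149 r8_88 (nat_lit 0) (nat_lit 0) (nat_lit 0) (nat_lit 0x8017985b4) (nat_lit 536870912),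
  Rx.mk (nat_lit 182) (nat_lit 6) (nat_lit 6) (nat_lit 2) (nat_lit 7) (nat_lit 148) (nat_lit 87) r7_148 r8_87 (nat_lit 0) (nat_lit 0) (nat_lit 0) (nat_lit 0x8017985b4) (nat_lit 536870912),
  Rx.mk (nat_lit 192) (nat_lit 0) (nat_lit 0) (nat_lit 3) (nat_lit 4) (nat_lit 151) (nat_lit 81) r7_151 r8_81 (nat_lit 14186136) (nat_lit 13633279) (nat_lit 0) (nat_lit 0x6517ac3fe) (nat_lit 1000476627),
  Rx.mk (nat_lit 194) (nat_lit 2) (nat_lit 0) (nat_lit 3) (nat_lit 5) (nat_lit 154) (nat_lit 82) r7_154 r8_82 (nat_lit 0) (nat_lit 24741287) (nat_lit 0) (nat_lit 0x7fe8e8d90) (nat_lit 564464999),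
  Rx.mk (nat_lit 210) (nat_lit 2) (nat_lit 2) (nat_lit 3) (nat_lit 7) (nat_lit 157) (nat_lit 86) r7_157 r8_86 (nat_lit 0) (nat_lit 0) (nat_lit 0) (nat_lit 0x8017985b4) (nat_lit 536870912),
  Rx.mk (nat_lit 216) (nat_lit 0) (nat_lit 3) (nat_lit 3) (nat_lit 6) (nat_lit 152) (nat_lit 83) r7_152 r8_83 (nat_lit 24741287) (nat_lit 0) (nat_lit 0) (nat_lit 0x7fe1901b0) (nat_lit 564922449),
  Rx.mk (nat_lit 218) (nat_lit 2) (nat_lit 3) (nat_lit 3) (nat_lit 7) (nat_lit 158) (nat_lit 85) r7_158 r8_85 (nat_lit 0) (nat_lit 0) (nat_lit 0) (nat_lit 0x8017985b4) (nat_lit 536870912),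
  Rx.mk (nat_lit 219) (nat_lit 3) (nat_lit 3) (nat_lit 3) (nat_lit 7) (nat_lit 159) (nat_lit 84) r7_159 r8_84 (nat_lit 0) (nat_lit 0) (nat_lit 0) (nat_lit 0x8017985b4) (nat_lit 536870912)]
noncomputable def e13_17 : List Rx := [
  Rx.mk (nat_lit 0) (nat_lit 0) (nat_lit 0) (nat_lit 0) (nat_lit 0) (nat_lit 161) (nat_lit 68) r7_161 r9_68 (nat_lit 12174851) (nat_lit 53728367) (nat_lit 12221267) (nat_lit 0x38c2f41c6) (nat_lit 1767626247),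
  Rx.mk (nat_lit 2) (nat_lit 2) (nat_lit 0) (nat_lit 0) (nat_lit 1) (nat_lit 166) (nat_lit 74) r7_166 r9_74 (nat_lit 0) (nat_lit 24913710) (nat_lit 27374180) (nat_lit 0x629c47274) (nat_lit 1065121602),
  Rx.mk (nat_lit 18) (nat_lit 2) (nat_lit 2) (nat_lit 0) (nat_lit 3) (nat_lit 168) (nat_lit 79) r7_168 r9_79 (nat_lit 0) (nat_lit 0) (nat_lit 24741287) (nat_lit 0x7fe3cd14e) (nat_lit 564781099),
  Rx.mk (nat_lit 24) (nat_lit 0) (nat_lit 3) (nat_lit 0) (nat_lit 2) (nat_lit 163) (nat_lit 70) r7_163 r9_70 (nat_lit 23888514) (nat_lit 0) (nat_lit 25388524) (nat_lit 0x66b5a08de) (nat_lit 995832150),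
  Rx.mk (nat_lit 26) (nat_lit 2) (nat_lit 3) (nat_lit 0) (nat_lit 3) (nat_lit 171) (nat_lit 76) r7_171 r9_76 (nat_lit 0) (nat_lit 0) (nat_lit 24741287) (nat_lit 0x80064b5b8) (nat_lit 562671499),
  Rx.mk (nat_lit 64) (nat_lit 0) (nat_lit 0) (nat_lit 1) (nat_lit 4) (nat_lit 162) (nat_lit 69) r7_162 r9_69 (nat_lit 28898569) (nat_lit 49319051) (nat_lit 0) (nat_lit 0x6539461d6) (nat_lit 1048798182),
  Rx.mk (nat_lit 66) (nat_lit 2) (nat_lit 0) (nat_lit 1) (nat_lit 5) (nat_lit 167) (nat_lit 75) r7_167 r9_75 (nat_lit 0) (nat_lit 24624079) (nat_lit 0) (nat_lit 0x8009fe8fe) (nat_lit 562326791),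
  Rx.mk (nat_lit 82) (nat_lit 2) (nat_lit 2) (nat_lit 1) (nat_lit 7) (nat_lit 169) (nat_lit 80) r7_169 r9_80 (nat_lit 0) (nat_lit 0) (nat_lit 0) (nat_lit 0x8017985b4) (nat_lit 536870912),
  Rx.mk (nat_lit 88) (nat_lit 0) (nat_lit 3) (nat_lit 1) (nat_lit 6) (nat_lit 164) (nat_lit 71) r7_164 r9_71 (nat_lit 24741287) (nat_lit 0) (nat_lit 0) (nat_lit 0x7fff7117a) (nat_lit 563091449),
  Rx.mk (nat_lit 90) (nat_lit 2) (nat_lit 3) (nat_lit 1) (nat_lit 7) (nat_lit 172) (nat_lit 77) r7_172 r9_77 (nat_lit 0) (nat_lit 0) (nat_lit 0) (nat_lit 0x8017985b4) (nat_lit 536870912),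
  Rx.mk (nat_lit 146) (nat_lit 2) (nat_lit 2) (nat_lit 2) (nat_lit 7) (nat_lit 170) (nat_lit 81) r7_170 r9_81 (nat_lit 0) (nat_lit 0) (nat_lit 0) (nat_lit 0x8017985b4) (nat_lit 536870912),
  Rx.mk (nat_lit 150) (nat_lit 6) (nat_lit 2) (nat_lit 2) (nat_lit 7) (nat_lit 160) (nat_lit 82) r7_160 r9_82 (nat_lit 0) (nat_lit 0) (nat_lit 0) (nat_lit 0x8017985b4) (nat_lit 536870912),
  Rx.mk (nat_lit 216) (nat_lit 0) (nat_lit 3) (nat_lit 3) (nat_lit 6) (nat_lit 165) (nat_lit 72) r7_165 r9_72 (nat_lit 24741287) (nat_lit 0) (nat_lit 0) (nat_lit 0x800788c14) (nat_lit 562595399),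
  Rx.mk (nat_lit 218) (nat_lit 2) (nat_lit 3) (nat_lit 3) (nat_lit 7) (nat_lit 173) (nat_lit 78) r7_173 r9_78 (nat_lit 0) (nat_lit 0) (nat_lit 0) (nat_lit 0x8017985b4) (nat_lit 536870912),
  Rx.mk (nat_lit 219) (nat_lit 3) (nat_lit 3) (nat_lit 3) (nat_lit 7) (nat_lit 174) (nat_lit 73) r7_174 r9_73 (nat_lit 0) (nat_lit 0) (nat_lit 0) (nat_lit 0x8017985b4) (nat_lit 536870912)]
noncomputable def e13_18 : List Rx := [
  Rx.mk (nat_lit 295) (nat_lit 7) (nat_lit 4) (nat_lit 4) (nat_lit 1) (nat_lit 175) (nat_lit 98) r7_175 r4_98 (nat_lit 0) (nat_lit 21615915) (nat_lit 11303237) (nat_lit 0x68ed8d4d4) (nat_lit 943524414),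
  Rx.mk (nat_lit 315) (nat_lit 3) (nat_lit 7) (nat_lit 4) (nat_lit 3) (nat_lit 181) (nat_lit 100) r7_181 r4_100 (nat_lit 0) (nat_lit 0) (nat_lit 17421724) (nat_lit 0x804c6a3e6) (nat_lit 551019636),
  Rx.mk (nat_lit 319) (nat_lit 7) (nat_lit 7) (nat_lit 4) (nat_lit 3) (nat_lit 178) (nat_lit 99) r7_178 r4_99 (nat_lit 0) (nat_lit 0) (nat_lit 10576130) (nat_lit 0x7fd267c38) (nat_lit 551565342),
  Rx.mk (nat_lit 423) (nat_lit 7) (nat_lit 4) (nat_lit 6) (nat_lit 5) (nat_lit 176) (nat_lit 104) r7_176 r4_104 (nat_lit 0) (nat_lit 32199586) (nat_lit 0) (nat_lit 0x7deebd290) (nat_lit 603434298),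
  Rx.mk (nat_lit 439) (nat_lit 7) (nat_lit 6) (nat_lit 6) (nat_lit 7) (nat_lit 177) (nat_lit 106) r7_177 r4_106 (nat_lit 0) (nat_lit 0) (nat_lit 0) (nat_lit 0x8017985b4) (nat_lit 536870912),
  Rx.mk (nat_lit 447) (nat_lit 7) (nat_lit 7) (nat_lit 6) (nat_lit 7) (nat_lit 179) (nat_lit 105) r7_179 r4_105 (nat_lit 0) (nat_lit 0) (nat_lit 0) (nat_lit 0x80d93c616) (nat_lit 525035062),
  Rx.mk (nat_lit 472) (nat_lit 0) (nat_lit 3) (nat_lit 7) (nat_lit 6) (nat_lit 180) (nat_lit 102) r7_180 r4_102 (nat_lit 15103995) (nat_lit 0) (nat_lit 0) (nat_lit 0x808086120) (nat_lit 545531857),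
  Rx.mk (nat_lit 475) (nat_lit 3) (nat_lit 3) (nat_lit 7) (nat_lit 7) (nat_lit 183) (nat_lit 103) r7_183 r4_103 (nat_lit 0) (nat_lit 0) (nat_lit 0) (nat_lit 0x8017985b4) (nat_lit 536870912),
  Rx.mk (nat_lit 507) (nat_lit 3) (nat_lit 7) (nat_lit 7) (nat_lit 7) (nat_lit 182) (nat_lit 101) r7_182 r4_101 (nat_lit 0) (nat_lit 0) (nat_lit 0) (nat_lit 0x8017985b4) (nat_lit 536870912)]
noncomputable def e13_19 : List Rx := [
  Rx.mk (nat_lit 192) (nat_lit 0) (nat_lit 0) (nat_lit 3) (nat_lit 4) (nat_lit 189) (nat_lit 82) r7_189 r10_82 (nat_lit 2041025) (nat_lit 2494455) (nat_lit 0) (nat_lit 0x6a9b34cd0) (nat_lit 887706942),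
  Rx.mk (nat_lit 194) (nat_lit 2) (nat_lit 0) (nat_lit 3) (nat_lit 5) (nat_lit 192) (nat_lit 88) r7_192 r10_88 (nat_lit 0) (nat_lit 24741287) (nat_lit 0) (nat_lit 0x8017985b4) (nat_lit 561612199),
  Rx.mk (nat_lit 210) (nat_lit 2) (nat_lit 2) (nat_lit 3) (nat_lit 7) (nat_lit 193) (nat_lit 90) r7_193 r10_90 (nat_lit 0) (nat_lit 0) (nat_lit 0) (nat_lit 0x8017985b4) (nat_lit 536870912),
  Rx.mk (nat_lit 216) (nat_lit 0) (nat_lit 3) (nat_lit 3) (nat_lit 6) (nat_lit 191) (nat_lit 83) r7_191 r10_83 (nat_lit 21221230) (nat_lit 0) (nat_lit 0) (nat_lit 0x7ffecc166) (nat_lit 559591742),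
  Rx.mk (nat_lit 218) (nat_lit 2) (nat_lit 3) (nat_lit 3) (nat_lit 7) (nat_lit 194) (nat_lit 89) r7_194 r10_89 (nat_lit 0) (nat_lit 0) (nat_lit 0) (nat_lit 0x8017985b4) (nat_lit 536870912),
  Rx.mk (nat_lit 295) (nat_lit 7) (nat_lit 4) (nat_lit 4) (nat_lit 1) (nat_lit 184) (nat_lit 91) r7_184 r10_91 (nat_lit 0) (nat_lit 2494455) (nat_lit 2041025) (nat_lit 0x6a9b34cd0) (nat_lit 887706942),
  Rx.mk (nat_lit 315) (nat_lit 3) (nat_lit 7) (nat_lit 4) (nat_lit 3) (nat_lit 195) (nat_lit 86) r7_195 r10_86 (nat_lit 0) (nat_lit 0) (nat_lit 24741287) (nat_lit 0x7fd76a0e6) (nat_lit 565534799),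
  Rx.mk (nat_lit 319) (nat_lit 7) (nat_lit 7) (nat_lit 4) (nat_lit 3) (nat_lit 187) (nat_lit 93) r7_187 r10_93 (nat_lit 0) (nat_lit 0) (nat_lit 21221230) (nat_lit 0x7ffecc166) (nat_lit 559591742),
  Rx.mk (nat_lit 423) (nat_lit 7) (nat_lit 4) (nat_lit 6) (nat_lit 5) (nat_lit 185) (nat_lit 92) r7_185 r10_92 (nat_lit 0) (nat_lit 24741287) (nat_lit 0) (nat_lit 0x8017985b4) (nat_lit 561612199),
  Rx.mk (nat_lit 439) (nat_lit 7) (nat_lit 6) (nat_lit 6) (nat_lit 7) (nat_lit 186) (nat_lit 95) r7_186 r10_95 (nat_lit 0) (nat_lit 0) (nat_lit 0) (nat_lit 0x8017985b4) (nat_lit 536870912),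
  Rx.mk (nat_lit 447) (nat_lit 7) (nat_lit 7) (nat_lit 6) (nat_lit 7) (nat_lit 188) (nat_lit 94) r7_188 r10_94 (nat_lit 0) (nat_lit 0) (nat_lit 0) (nat_lit 0x8017985b4) (nat_lit 536870912),
  Rx.mk (nat_lit 472) (nat_lit 0) (nat_lit 3) (nat_lit 7) (nat_lit 6) (nat_lit 190) (nat_lit 84) r7_190 r10_84 (nat_lit 24741287) (nat_lit 0) (nat_lit 0) (nat_lit 0x7fd76a0e6) (nat_lit 565534799),
  Rx.mk (nat_lit 475) (nat_lit 3) (nat_lit 3) (nat_lit 7) (nat_lit 7) (nat_lit 197) (nat_lit 85) r7_197 r10_85 (nat_lit 0) (nat_lit 0) (nat_lit 0) (nat_lit 0x8017985b4) (nat_lit 536870912),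
  Rx.mk (nat_lit 507) (nat_lit 3) (nat_lit 7) (nat_lit 7) (nat_lit 7) (nat_lit 196) (nat_lit 87) r7_196 r10_87 (nat_lit 0) (nat_lit 0) (nat_lit 0) (nat_lit 0x8017985b4) (nat_lit 536870912)]
noncomputable def e13_20 : List Rx := [
  Rx.mk (nat_lit 283) (nat_lit 3) (nat_lit 3) (nat_lit 4) (nat_lit 3) (nat_lit 202) (nat_lit 102) r7_202 r11_102 (nat_lit 0) (nat_lit 0) (nat_lit 24836041) (nat_lit 0x800a5d2d2) (nat_lit 562522353),
  Rx.mk (nat_lit 315) (nat_lit 3) (nat_lit 7) (nat_lit 4) (nat_lit 3) (nat_lit 201) (nat_lit 104) r7_201 r11_104 (nat_lit 0) (nat_lit 0) (nat_lit 24741287) (nat_lit 0x8017985b4) (nat_lit 561612199),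
  Rx.mk (nat_lit 319) (nat_lit 7) (nat_lit 7) (nat_lit 4) (nat_lit 3) (nat_lit 198) (nat_lit 105) r7_198 r11_105 (nat_lit 0) (nat_lit 0) (nat_lit 22333228) (nat_lit 0x7fea265d6) (nat_lit 561979440),
  Rx.mk (nat_lit 447) (nat_lit 7) (nat_lit 7) (nat_lit 6) (nat_lit 7) (nat_lit 199) (nat_lit 106) r7_199 r11_106 (nat_lit 0) (nat_lit 0) (nat_lit 0) (nat_lit 0x8017985b4) (nat_lit 536870912),
  Rx.mk (nat_lit 472) (nat_lit 0) (nat_lit 3) (nat_lit 7) (nat_lit 6) (nat_lit 200) (nat_lit 101) r7_200 r11_101 (nat_lit 24741287) (nat_lit 0) (nat_lit 0) (nat_lit 0x8017985b4) (nat_lit 561612199),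
  Rx.mk (nat_lit 475) (nat_lit 3) (nat_lit 3) (nat_lit 7) (nat_lit 7) (nat_lit 203) (nat_lit 103) r7_203 r11_103 (nat_lit 0) (nat_lit 0) (nat_lit 0) (nat_lit 0x8017985b4) (nat_lit 536870912)]
noncomputable def e13_21 : List Rx := [
  Rx.mk (nat_lit 0) (nat_lit 0) (nat_lit 0) (nat_lit 0) (nat_lit 0) (nat_lit 204) (nat_lit 170) r7_204 r9_170 (nat_lit 19525038) (nat_lit 25638298) (nat_lit 13837945) (nat_lit 0x3a3a221ac) (nat_lit 1724813643),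
  Rx.mk (nat_lit 2) (nat_lit 2) (nat_lit 0) (nat_lit 0) (nat_lit 1) (nat_lit 210) (nat_lit 172) r7_210 r9_172 (nat_lit 0) (nat_lit 30361877) (nat_lit 38278625) (nat_lit 0x697120ad0) (nat_lit 971010514),
  Rx.mk (nat_lit 18) (nat_lit 2) (nat_lit 2) (nat_lit 0) (nat_lit 3) (nat_lit 213) (nat_lit 180) r7_213 r9_180 (nat_lit 0) (nat_lit 0) (nat_lit 24741287) (nat_lit 0x8017985b4) (nat_lit 561612199),
  Rx.mk (nat_lit 24) (nat_lit 0) (nat_lit 3) (nat_lit 0) (nat_lit 2) (nat_lit 207) (nat_lit 176) r7_207 r9_176 (nat_lit 22236043) (nat_lit 0) (nat_lit 30412328) (nat_lit 0x6db23206a) (nat_lit 886234833),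
  Rx.mk (nat_lit 64) (nat_lit 0) (nat_lit 0) (nat_lit 1) (nat_lit 4) (nat_lit 205) (nat_lit 171) r7_205 r9_171 (nat_lit 35325188) (nat_lit 50988633) (nat_lit 0) (nat_lit 0x657b86a96) (nat_lit 1052706133),
  Rx.mk (nat_lit 66) (nat_lit 2) (nat_lit 0) (nat_lit 1) (nat_lit 5) (nat_lit 211) (nat_lit 173) r7_211 r9_173 (nat_lit 0) (nat_lit 24741287) (nat_lit 0) (nat_lit 0x800c2759a) (nat_lit 562311049),
  Rx.mk (nat_lit 72) (nat_lit 0) (nat_lit 1) (nat_lit 1) (nat_lit 6) (nat_lit 206) (nat_lit 174) r7_206 r9_174 (nat_lit 24741287) (nat_lit 0) (nat_lit 0) (nat_lit 0x8017985b4) (nat_lit 561612199),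
  Rx.mk (nat_lit 74) (nat_lit 2) (nat_lit 1) (nat_lit 1) (nat_lit 7) (nat_lit 212) (nat_lit 175) r7_212 r9_175 (nat_lit 0) (nat_lit 0) (nat_lit 0) (nat_lit 0x8017985b4) (nat_lit 536870912),
  Rx.mk (nat_lit 82) (nat_lit 2) (nat_lit 2) (nat_lit 1) (nat_lit 7) (nat_lit 214) (nat_lit 181) r7_214 r9_181 (nat_lit 0) (nat_lit 0) (nat_lit 0) (nat_lit 0x8017985b4) (nat_lit 536870912),
  Rx.mk (nat_lit 88) (nat_lit 0) (nat_lit 3) (nat_lit 1) (nat_lit 6) (nat_lit 208) (nat_lit 177) r7_208 r9_177 (nat_lit 24741287) (nat_lit 0) (nat_lit 0) (nat_lit 0x8017985b4) (nat_lit 561612199),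
  Rx.mk (nat_lit 146) (nat_lit 2) (nat_lit 2) (nat_lit 2) (nat_lit 7) (nat_lit 215) (nat_lit 182) r7_215 r9_182 (nat_lit 0) (nat_lit 0) (nat_lit 0) (nat_lit 0x8017985b4) (nat_lit 536870912),
  Rx.mk (nat_lit 216) (nat_lit 0) (nat_lit 3) (nat_lit 3) (nat_lit 6) (nat_lit 209) (nat_lit 178) r7_209 r9_178 (nat_lit 24741287) (nat_lit 0) (nat_lit 0) (nat_lit 0x8017985b4) (nat_lit 561612199),
  Rx.mk (nat_lit 219) (nat_lit 3) (nat_lit 3) (nat_lit 3) (nat_lit 7) (nat_lit 216) (nat_lit 179) r7_216 r9_179 (nat_lit 0) (nat_lit 0) (nat_lit 0) (nat_lit 0x8017985b4) (nat_lit 536870912)]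
noncomputable def e13_22 : List Rx := [
  Rx.mk (nat_lit 320) (nat_lit 0) (nat_lit 0) (nat_lit 5) (nat_lit 4) (nat_lit 217) (nat_lit 250) r7_217 r0_250 (nat_lit 24992992) (nat_lit 18636919) (nat_lit 0) (nat_lit 0x67a63621c) (nat_lit 974858673),
  Rx.mk (nat_lit 321) (nat_lit 1) (nat_lit 0) (nat_lit 5) (nat_lit 5) (nat_lit 219) (nat_lit 252) r7_219 r0_252 (nat_lit 0) (nat_lit 26788272) (nat_lit 0) (nat_lit 0x7afd29426) (nat_lit 645521784),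
  Rx.mk (nat_lit 328) (nat_lit 0) (nat_lit 1) (nat_lit 5) (nat_lit 6) (nat_lit 218) (nat_lit 251) r7_218 r0_251 (nat_lit 25925090) (nat_lit 0) (nat_lit 0) (nat_lit 0x7f7ee0aba) (nat_lit 572200552),
  Rx.mk (nat_lit 329) (nat_lit 1) (nat_lit 1) (nat_lit 5) (nat_lit 7) (nat_lit 220) (nat_lit 253) r7_220 r0_253 (nat_lit 0) (nat_lit 0) (nat_lit 0) (nat_lit 0x80170d2ac) (nat_lit 536874862)]
noncomputable def e13_23 : List Rx := [
  Rx.mk (nat_lit 328) (nat_lit 0) (nat_lit 1) (nat_lit 5) (nat_lit 6) (nat_lit 221) (nat_lit 256) r7_221 r1_256 (nat_lit 24741287) (nat_lit 0) (nat_lit 0) (nat_lit 0x8017985b4) (nat_lit 561612199),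
  Rx.mk (nat_lit 329) (nat_lit 1) (nat_lit 1) (nat_lit 5) (nat_lit 7) (nat_lit 222) (nat_lit 257) r7_222 r1_257 (nat_lit 0) (nat_lit 0) (nat_lit 0) (nat_lit 0x8017985b4) (nat_lit 536870912)]
noncomputable def e13_24 : List Rx := [
  Rx.mk (nat_lit 320) (nat_lit 0) (nat_lit 0) (nat_lit 5) (nat_lit 4) (nat_lit 223) (nat_lit 265) r7_223 r4_265 (nat_lit 26363677) (nat_lit 51960859) (nat_lit 0) (nat_lit 0x6eea423dc) (nat_lit 892140698),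
  Rx.mk (nat_lit 321) (nat_lit 1) (nat_lit 0) (nat_lit 5) (nat_lit 5) (nat_lit 226) (nat_lit 268) r7_226 r4_268 (nat_lit 0) (nat_lit 24741287) (nat_lit 0) (nat_lit 0x8017985b4) (nat_lit 561612199),
  Rx.mk (nat_lit 328) (nat_lit 0) (nat_lit 1) (nat_lit 5) (nat_lit 6) (nat_lit 224) (nat_lit 266) r7_224 r4_266 (nat_lit 24741287) (nat_lit 0) (nat_lit 0) (nat_lit 0x8017985b4) (nat_lit 561612199),
  Rx.mk (nat_lit 329) (nat_lit 1) (nat_lit 1) (nat_lit 5) (nat_lit 7) (nat_lit 227) (nat_lit 269) r7_227 r4_269 (nat_lit 0) (nat_lit 0) (nat_lit 0) (nat_lit 0x8017985b4) (nat_lit 536870912),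
  Rx.mk (nat_lit 344) (nat_lit 0) (nat_lit 3) (nat_lit 5) (nat_lit 6) (nat_lit 225) (nat_lit 267) r7_225 r4_267 (nat_lit 28981807) (nat_lit 0) (nat_lit 0) (nat_lit 0x7fc4d7cda) (nat_lit 570932769),
  Rx.mk (nat_lit 345) (nat_lit 1) (nat_lit 3) (nat_lit 5) (nat_lit 7) (nat_lit 228) (nat_lit 270) r7_228 r4_270 (nat_lit 0) (nat_lit 0) (nat_lit 0) (nat_lit 0x8017985b4) (nat_lit 536870912)]
noncomputable def e13_25 : List Rx := [
  Rx.mk (nat_lit 64) (nat_lit 0) (nat_lit 0) (nat_lit 1) (nat_lit 4) (nat_lit 230) (nat_lit 230) r7_230 r7_230 (nat_lit 93243893) (nat_lit 93243893) (nat_lit 0) (nat_lit 0x6bd582bac) (nat_lit 1050182148),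
  Rx.mk (nat_lit 65) (nat_lit 1) (nat_lit 0) (nat_lit 1) (nat_lit 5) (nat_lit 235) (nat_lit 232) r7_235 r7_232 (nat_lit 0) (nat_lit 26241675) (nat_lit 0) (nat_lit 0x7fe63006c) (nat_lit 566139187),
  Rx.mk (nat_lit 66) (nat_lit 2) (nat_lit 0) (nat_lit 1) (nat_lit 5) (nat_lit 239) (nat_lit 233) r7_239 r7_233 (nat_lit 0) (nat_lit 25127303) (nat_lit 0) (nat_lit 0x800ee0d22) (nat_lit 562531915),
  Rx.mk (nat_lit 72) (nat_lit 0) (nat_lit 1) (nat_lit 1) (nat_lit 6) (nat_lit 232) (nat_lit 235) r7_232 r7_235 (nat_lit 26241675) (nat_lit 0) (nat_lit 0) (nat_lit 0x7fe63006c) (nat_lit 566139187),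
  Rx.mk (nat_lit 73) (nat_lit 1) (nat_lit 1) (nat_lit 1) (nat_lit 7) (nat_lit 237) (nat_lit 237) r7_237 r7_237 (nat_lit 0) (nat_lit 0) (nat_lit 0) (nat_lit 0x8017985b4) (nat_lit 536870912),
  Rx.mk (nat_lit 74) (nat_lit 2) (nat_lit 1) (nat_lit 1) (nat_lit 7) (nat_lit 240) (nat_lit 238) r7_240 r7_238 (nat_lit 0) (nat_lit 0) (nat_lit 0) (nat_lit 0x8017985b4) (nat_lit 536870912),
  Rx.mk (nat_lit 88) (nat_lit 0) (nat_lit 3) (nat_lit 1) (nat_lit 6) (nat_lit 233) (nat_lit 239) r7_233 r7_239 (nat_lit 25127303) (nat_lit 0) (nat_lit 0) (nat_lit 0x800ee0d22) (nat_lit 562531915),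
  Rx.mk (nat_lit 89) (nat_lit 1) (nat_lit 3) (nat_lit 1) (nat_lit 7) (nat_lit 238) (nat_lit 240) r7_238 r7_240 (nat_lit 0) (nat_lit 0) (nat_lit 0) (nat_lit 0x8017985b4) (nat_lit 536870912),
  Rx.mk (nat_lit 320) (nat_lit 0) (nat_lit 0) (nat_lit 5) (nat_lit 4) (nat_lit 229) (nat_lit 229) r7_229 r7_229 (nat_lit 32713036) (nat_lit 32713036) (nat_lit 0) (nat_lit 0x69d5f62d4) (nat_lit 961393834),
  Rx.mk (nat_lit 321) (nat_lit 1) (nat_lit 0) (nat_lit 5) (nat_lit 5) (nat_lit 234) (nat_lit 231) r7_234 r7_231 (nat_lit 0) (nat_lit 24741287) (nat_lit 0) (nat_lit 0x8017985b4) (nat_lit 561612199),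
  Rx.mk (nat_lit 328) (nat_lit 0) (nat_lit 1) (nat_lit 5) (nat_lit 6) (nat_lit 231) (nat_lit 234) r7_231 r7_234 (nat_lit 24741287) (nat_lit 0) (nat_lit 0) (nat_lit 0x8017985b4) (nat_lit 561612199),
  Rx.mk (nat_lit 329) (nat_lit 1) (nat_lit 1) (nat_lit 5) (nat_lit 7) (nat_lit 236) (nat_lit 236) r7_236 r7_236 (nat_lit 0) (nat_lit 0) (nat_lit 0) (nat_lit 0x8017985b4) (nat_lit 536870912)]
noncomputable def e13_26 : List Rx := [
  Rx.mk (nat_lit 72) (nat_lit 0) (nat_lit 1) (nat_lit 1) (nat_lit 6) (nat_lit 242) (nat_lit 185) r7_242 r8_185 (nat_lit 25158612) (nat_lit 0) (nat_lit 0) (nat_lit 0x7ffdc5b5a) (nat_lit 563608374),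
  Rx.mk (nat_lit 73) (nat_lit 1) (nat_lit 1) (nat_lit 1) (nat_lit 7) (nat_lit 244) (nat_lit 187) r7_244 r8_187 (nat_lit 0) (nat_lit 0) (nat_lit 0) (nat_lit 0x8017985b4) (nat_lit 536870912),
  Rx.mk (nat_lit 74) (nat_lit 2) (nat_lit 1) (nat_lit 1) (nat_lit 7) (nat_lit 245) (nat_lit 188) r7_245 r8_188 (nat_lit 0) (nat_lit 0) (nat_lit 0) (nat_lit 0x8017985b4) (nat_lit 536870912),
  Rx.mk (nat_lit 328) (nat_lit 0) (nat_lit 1) (nat_lit 5) (nat_lit 6) (nat_lit 241) (nat_lit 184) r7_241 r8_184 (nat_lit 24741287) (nat_lit 0) (nat_lit 0) (nat_lit 0x8017985b4) (nat_lit 561612199),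
  Rx.mk (nat_lit 329) (nat_lit 1) (nat_lit 1) (nat_lit 5) (nat_lit 7) (nat_lit 243) (nat_lit 186) r7_243 r8_186 (nat_lit 0) (nat_lit 0) (nat_lit 0) (nat_lit 0x8017985b4) (nat_lit 536870912)]
noncomputable def e13_27 : List Rx := [
  Rx.mk (nat_lit 64) (nat_lit 0) (nat_lit 0) (nat_lit 1) (nat_lit 4) (nat_lit 246) (nat_lit 248) r7_246 r8_248 (nat_lit 54887331) (nat_lit 69413824) (nat_lit 0) (nat_lit 0x65c8453d2) (nat_lit 1085844417),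
  Rx.mk (nat_lit 65) (nat_lit 1) (nat_lit 0) (nat_lit 1) (nat_lit 5) (nat_lit 249) (nat_lit 251) r7_249 r8_251 (nat_lit 0) (nat_lit 25521481) (nat_lit 0) (nat_lit 0x8004c69ea) (nat_lit 563543143),
  Rx.mk (nat_lit 66) (nat_lit 2) (nat_lit 0) (nat_lit 1) (nat_lit 5) (nat_lit 252) (nat_lit 254) r7_252 r8_254 (nat_lit 0) (nat_lit 24625619) (nat_lit 0) (nat_lit 0x800a04d3a) (nat_lit 562328731),
  Rx.mk (nat_lit 72) (nat_lit 0) (nat_lit 1) (nat_lit 1) (nat_lit 6) (nat_lit 247) (nat_lit 249) r7_247 r8_249 (nat_lit 25009292) (nat_lit 0) (nat_lit 0) (nat_lit 0x8011540e0) (nat_lit 562263654),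
  Rx.mk (nat_lit 73) (nat_lit 1) (nat_lit 1) (nat_lit 1) (nat_lit 7) (nat_lit 250) (nat_lit 252) r7_250 r8_252 (nat_lit 0) (nat_lit 0) (nat_lit 0) (nat_lit 0x8017985b4) (nat_lit 536870912),
  Rx.mk (nat_lit 74) (nat_lit 2) (nat_lit 1) (nat_lit 1) (nat_lit 7) (nat_lit 253) (nat_lit 255) r7_253 r8_255 (nat_lit 0) (nat_lit 0) (nat_lit 0) (nat_lit 0x8017985b4) (nat_lit 536870912),
  Rx.mk (nat_lit 82) (nat_lit 2) (nat_lit 2) (nat_lit 1) (nat_lit 7) (nat_lit 254) (nat_lit 256) r7_254 r8_256 (nat_lit 0) (nat_lit 0) (nat_lit 0) (nat_lit 0x8017985b4) (nat_lit 536870912),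
  Rx.mk (nat_lit 88) (nat_lit 0) (nat_lit 3) (nat_lit 1) (nat_lit 6) (nat_lit 248) (nat_lit 250) r7_248 r8_250 (nat_lit 24741287) (nat_lit 0) (nat_lit 0) (nat_lit 0x8017985b4) (nat_lit 561612199),
  Rx.mk (nat_lit 89) (nat_lit 1) (nat_lit 3) (nat_lit 1) (nat_lit 7) (nat_lit 251) (nat_lit 253) r7_251 r8_253 (nat_lit 0) (nat_lit 0) (nat_lit 0) (nat_lit 0x8017985b4) (nat_lit 536870912)]
noncomputable def e13_28 : List Rx := [
  Rx.mk (nat_lit 88) (nat_lit 0) (nat_lit 3) (nat_lit 1) (nat_lit 6) (nat_lit 258) (nat_lit 188) r7_258 r10_188 (nat_lit 25393500) (nat_lit 0) (nat_lit 0) (nat_lit 0x7ffadf27e) (nat_lit 564019262),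
  Rx.mk (nat_lit 89) (nat_lit 1) (nat_lit 3) (nat_lit 1) (nat_lit 7) (nat_lit 262) (nat_lit 190) r7_262 r10_190 (nat_lit 0) (nat_lit 0) (nat_lit 0) (nat_lit 0x8017985b4) (nat_lit 536870912),
  Rx.mk (nat_lit 320) (nat_lit 0) (nat_lit 0) (nat_lit 5) (nat_lit 4) (nat_lit 255) (nat_lit 183) r7_255 r10_183 (nat_lit 28712906) (nat_lit 23931749) (nat_lit 0) (nat_lit 0x6a7e66ee6) (nat_lit 937964567),
  Rx.mk (nat_lit 321) (nat_lit 1) (nat_lit 0) (nat_lit 5) (nat_lit 5) (nat_lit 259) (nat_lit 184) r7_259 r10_184 (nat_lit 0) (nat_lit 26205094) (nat_lit 0) (nat_lit 0x7ff5adb5c) (nat_lit 565151456),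
  Rx.mk (nat_lit 328) (nat_lit 0) (nat_lit 1) (nat_lit 5) (nat_lit 6) (nat_lit 256) (nat_lit 185) r7_256 r10_185 (nat_lit 24741287) (nat_lit 0) (nat_lit 0) (nat_lit 0x8017985b4) (nat_lit 561612199),
  Rx.mk (nat_lit 329) (nat_lit 1) (nat_lit 1) (nat_lit 5) (nat_lit 7) (nat_lit 260) (nat_lit 186) r7_260 r10_186 (nat_lit 0) (nat_lit 0) (nat_lit 0) (nat_lit 0x8017985b4) (nat_lit 536870912),
  Rx.mk (nat_lit 344) (nat_lit 0) (nat_lit 3) (nat_lit 5) (nat_lit 6) (nat_lit 257) (nat_lit 187) r7_257 r10_187 (nat_lit 25691165) (nat_lit 0) (nat_lit 0) (nat_lit 0x800112efc) (nat_lit 563939677),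
  Rx.mk (nat_lit 345) (nat_lit 1) (nat_lit 3) (nat_lit 5) (nat_lit 7) (nat_lit 261) (nat_lit 189) r7_261 r10_189 (nat_lit 0) (nat_lit 0) (nat_lit 0) (nat_lit 0x8017985b4) (nat_lit 536870912)]
noncomputable def e13_29 : List Rx := [
  Rx.mk (nat_lit 320) (nat_lit 0) (nat_lit 0) (nat_lit 5) (nat_lit 4) (nat_lit 263) (nat_lit 212) r7_263 r11_212 (nat_lit 34414543) (nat_lit 107532607) (nat_lit 0) (nat_lit 0x7c21f872e) (nat_lit 742207762),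
  Rx.mk (nat_lit 321) (nat_lit 1) (nat_lit 0) (nat_lit 5) (nat_lit 5) (nat_lit 266) (nat_lit 213) r7_266 r11_213 (nat_lit 0) (nat_lit 24741287) (nat_lit 0) (nat_lit 0x8017985b4) (nat_lit 561612199),
  Rx.mk (nat_lit 328) (nat_lit 0) (nat_lit 1) (nat_lit 5) (nat_lit 6) (nat_lit 264) (nat_lit 214) r7_264 r11_214 (nat_lit 24741287) (nat_lit 0) (nat_lit 0) (nat_lit 0x8017985b4) (nat_lit 561612199),
  Rx.mk (nat_lit 329) (nat_lit 1) (nat_lit 1) (nat_lit 5) (nat_lit 7) (nat_lit 267) (nat_lit 215) r7_267 r11_215 (nat_lit 0) (nat_lit 0) (nat_lit 0) (nat_lit 0x8017985b4) (nat_lit 536870912),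
  Rx.mk (nat_lit 344) (nat_lit 0) (nat_lit 3) (nat_lit 5) (nat_lit 6) (nat_lit 265) (nat_lit 216) r7_265 r11_216 (nat_lit 24741287) (nat_lit 0) (nat_lit 0) (nat_lit 0x8017985b4) (nat_lit 561612199),
  Rx.mk (nat_lit 345) (nat_lit 1) (nat_lit 3) (nat_lit 5) (nat_lit 7) (nat_lit 268) (nat_lit 217) r7_268 r11_217 (nat_lit 0) (nat_lit 0) (nat_lit 0) (nat_lit 0x8017985b4) (nat_lit 536870912),
  Rx.mk (nat_lit 347) (nat_lit 3) (nat_lit 3) (nat_lit 5) (nat_lit 7) (nat_lit 269) (nat_lit 218) r7_269 r11_218 (nat_lit 0) (nat_lit 0) (nat_lit 0) (nat_lit 0x8017985b4) (nat_lit 536870912)]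
noncomputable def e13_30 : List Rx := [
  Rx.mk (nat_lit 315) (nat_lit 3) (nat_lit 7) (nat_lit 4) (nat_lit 3) (nat_lit 272) (nat_lit 102) r7_272 r5_102 (nat_lit 0) (nat_lit 0) (nat_lit 6601539) (nat_lit 0x821cfef2e) (nat_lit 512046101),
  Rx.mk (nat_lit 472) (nat_lit 0) (nat_lit 3) (nat_lit 7) (nat_lit 6) (nat_lit 271) (nat_lit 105) r7_271 r5_105 (nat_lit 7182949) (nat_lit 0) (nat_lit 0) (nat_lit 0x7cac4e324) (nat_lit 598492961),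
  Rx.mk (nat_lit 504) (nat_lit 0) (nat_lit 7) (nat_lit 7) (nat_lit 6) (nat_lit 270) (nat_lit 103) r7_270 r5_103 (nat_lit 19223735) (nat_lit 0) (nat_lit 0) (nat_lit 0x75d2c1c74) (nat_lit 721395547),
  Rx.mk (nat_lit 507) (nat_lit 3) (nat_lit 7) (nat_lit 7) (nat_lit 7) (nat_lit 273) (nat_lit 104) r7_273 r5_104 (nat_lit 0) (nat_lit 0) (nat_lit 0) (nat_lit 0x8017985b4) (nat_lit 536870912)]
noncomputable def e13_31 : List Rx := [
  Rx.mk (nat_lit 216) (nat_lit 0) (nat_lit 3) (nat_lit 3) (nat_lit 6) (nat_lit 276) (nat_lit 105) r7_276 r11_105 (nat_lit 22333228) (nat_lit 0) (nat_lit 0) (nat_lit 0x7fea265d6) (nat_lit 561979440),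
  Rx.mk (nat_lit 218) (nat_lit 2) (nat_lit 3) (nat_lit 3) (nat_lit 7) (nat_lit 277) (nat_lit 106) r7_277 r11_106 (nat_lit 0) (nat_lit 0) (nat_lit 0) (nat_lit 0x8017985b4) (nat_lit 536870912),
  Rx.mk (nat_lit 315) (nat_lit 3) (nat_lit 7) (nat_lit 4) (nat_lit 3) (nat_lit 278) (nat_lit 101) r7_278 r11_101 (nat_lit 0) (nat_lit 0) (nat_lit 24741287) (nat_lit 0x8017985b4) (nat_lit 561612199),
  Rx.mk (nat_lit 472) (nat_lit 0) (nat_lit 3) (nat_lit 7) (nat_lit 6) (nat_lit 275) (nat_lit 104) r7_275 r11_104 (nat_lit 24741287) (nat_lit 0) (nat_lit 0) (nat_lit 0x8017985b4) (nat_lit 561612199),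
  Rx.mk (nat_lit 504) (nat_lit 0) (nat_lit 7) (nat_lit 7) (nat_lit 6) (nat_lit 274) (nat_lit 102) r7_274 r11_102 (nat_lit 24836041) (nat_lit 0) (nat_lit 0) (nat_lit 0x800a5d2d2) (nat_lit 562522353),
  Rx.mk (nat_lit 507) (nat_lit 3) (nat_lit 7) (nat_lit 7) (nat_lit 7) (nat_lit 279) (nat_lit 103) r7_279 r11_103 (nat_lit 0) (nat_lit 0) (nat_lit 0) (nat_lit 0x8017985b4) (nat_lit 536870912)]
noncomputable def e13_32 : List Rx := [
  Rx.mk (nat_lit 281) (nat_lit 1) (nat_lit 3) (nat_lit 4) (nat_lit 3) (nat_lit 284) (nat_lit 283) r7_284 r6_283 (nat_lit 0) (nat_lit 0) (nat_lit 8941730) (nat_lit 0x81ee95fca) (nat_lit 517221742),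
  Rx.mk (nat_lit 313) (nat_lit 1) (nat_lit 7) (nat_lit 4) (nat_lit 3) (nat_lit 282) (nat_lit 282) r7_282 r6_282 (nat_lit 0) (nat_lit 0) (nat_lit 10459655) (nat_lit 0x80ee2cb7a) (nat_lit 534173067),
  Rx.mk (nat_lit 344) (nat_lit 0) (nat_lit 3) (nat_lit 5) (nat_lit 6) (nat_lit 281) (nat_lit 281) r7_281 r6_281 (nat_lit 10459655) (nat_lit 0) (nat_lit 0) (nat_lit 0x80ee2cb7a) (nat_lit 534173067),
  Rx.mk (nat_lit 345) (nat_lit 1) (nat_lit 3) (nat_lit 5) (nat_lit 7) (nat_lit 285) (nat_lit 285) r7_285 r6_285 (nat_lit 0) (nat_lit 0) (nat_lit 0) (nat_lit 0x80830e500) (nat_lit 530283612),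
  Rx.mk (nat_lit 376) (nat_lit 0) (nat_lit 7) (nat_lit 5) (nat_lit 6) (nat_lit 280) (nat_lit 280) r7_280 r6_280 (nat_lit 8941730) (nat_lit 0) (nat_lit 0) (nat_lit 0x81ee95fca) (nat_lit 517221742),
  Rx.mk (nat_lit 377) (nat_lit 1) (nat_lit 7) (nat_lit 5) (nat_lit 7) (nat_lit 283) (nat_lit 284) r7_283 r6_284 (nat_lit 0) (nat_lit 0) (nat_lit 0) (nat_lit 0x80830e500) (nat_lit 530283612)]
noncomputable def e13_33 : List Rx := [
  Rx.mk (nat_lit 344) (nat_lit 0) (nat_lit 3) (nat_lit 5) (nat_lit 6) (nat_lit 286) (nat_lit 256) r7_286 r5_256 (nat_lit 10453794) (nat_lit 0) (nat_lit 0) (nat_lit 0x7f320ae16) (nat_lit 561328856),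
  Rx.mk (nat_lit 345) (nat_lit 1) (nat_lit 3) (nat_lit 5) (nat_lit 7) (nat_lit 287) (nat_lit 257) r7_287 r5_257 (nat_lit 0) (nat_lit 0) (nat_lit 0) (nat_lit 0x811261be4) (nat_lit 521565112)]
noncomputable def e13_34 : List Rx := [
  Rx.mk (nat_lit 88) (nat_lit 0) (nat_lit 3) (nat_lit 1) (nat_lit 6) (nat_lit 289) (nat_lit 303) r7_289 r11_303 (nat_lit 24741287) (nat_lit 0) (nat_lit 0) (nat_lit 0x8017985b4) (nat_lit 561612199),
  Rx.mk (nat_lit 89) (nat_lit 1) (nat_lit 3) (nat_lit 1) (nat_lit 7) (nat_lit 291) (nat_lit 304) r7_291 r11_304 (nat_lit 0) (nat_lit 0) (nat_lit 0) (nat_lit 0x8017985b4) (nat_lit 536870912),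
  Rx.mk (nat_lit 90) (nat_lit 2) (nat_lit 3) (nat_lit 1) (nat_lit 7) (nat_lit 292) (nat_lit 305) r7_292 r11_305 (nat_lit 0) (nat_lit 0) (nat_lit 0) (nat_lit 0x8017985b4) (nat_lit 536870912),
  Rx.mk (nat_lit 344) (nat_lit 0) (nat_lit 3) (nat_lit 5) (nat_lit 6) (nat_lit 288) (nat_lit 306) r7_288 r11_306 (nat_lit 19264518) (nat_lit 0) (nat_lit 0) (nat_lit 0x8067c11ee) (nat_lit 551226430),
  Rx.mk (nat_lit 345) (nat_lit 1) (nat_lit 3) (nat_lit 5) (nat_lit 7) (nat_lit 290) (nat_lit 307) r7_290 r11_307 (nat_lit 0) (nat_lit 0) (nat_lit 0) (nat_lit 0x8017985b4) (nat_lit 536870912)]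
noncomputable def e13_35 : List Rx := [
  Rx.mk (nat_lit 312) (nat_lit 0) (nat_lit 7) (nat_lit 4) (nat_lit 2) (nat_lit 293) (nat_lit 195) r7_293 r6_195 (nat_lit 3103288) (nat_lit 0) (nat_lit 3417910) (nat_lit 0x6f0f18210) (nat_lit 817792160),
  Rx.mk (nat_lit 313) (nat_lit 1) (nat_lit 7) (nat_lit 4) (nat_lit 3) (nat_lit 297) (nat_lit 196) r7_297 r6_196 (nat_lit 0) (nat_lit 0) (nat_lit 12588522) (nat_lit 0x8109aaa8c) (nat_lit 534683584),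
  Rx.mk (nat_lit 315) (nat_lit 3) (nat_lit 7) (nat_lit 4) (nat_lit 3) (nat_lit 301) (nat_lit 197) r7_301 r6_197 (nat_lit 0) (nat_lit 0) (nat_lit 9429526) (nat_lit 0x80843ba90) (nat_lit 539527188),
  Rx.mk (nat_lit 376) (nat_lit 0) (nat_lit 7) (nat_lit 5) (nat_lit 6) (nat_lit 294) (nat_lit 198) r7_294 r6_198 (nat_lit 10382740) (nat_lit 0) (nat_lit 0) (nat_lit 0x817f374a8) (nat_lit 525372102),
  Rx.mk (nat_lit 377) (nat_lit 1) (nat_lit 7) (nat_lit 5) (nat_lit 7) (nat_lit 298) (nat_lit 199) r7_298 r6_199 (nat_lit 0) (nat_lit 0) (nat_lit 0) (nat_lit 0x806259ae4) (nat_lit 532286612),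
  Rx.mk (nat_lit 379) (nat_lit 3) (nat_lit 7) (nat_lit 5) (nat_lit 7) (nat_lit 302) (nat_lit 200) r7_302 r6_200 (nat_lit 0) (nat_lit 0) (nat_lit 0) (nat_lit 0x80e84372c) (nat_lit 524123412),
  Rx.mk (nat_lit 472) (nat_lit 0) (nat_lit 3) (nat_lit 7) (nat_lit 6) (nat_lit 296) (nat_lit 193) r7_296 r6_193 (nat_lit 8290090) (nat_lit 0) (nat_lit 0) (nat_lit 0x80c4482e6) (nat_lit 534483002),
  Rx.mk (nat_lit 473) (nat_lit 1) (nat_lit 3) (nat_lit 7) (nat_lit 7) (nat_lit 300) (nat_lit 194) r7_300 r6_194 (nat_lit 0) (nat_lit 0) (nat_lit 0) (nat_lit 0x810efde94) (nat_lit 521774762),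
  Rx.mk (nat_lit 504) (nat_lit 0) (nat_lit 7) (nat_lit 7) (nat_lit 6) (nat_lit 295) (nat_lit 201) r7_295 r6_201 (nat_lit 24741287) (nat_lit 0) (nat_lit 0) (nat_lit 0x7f4e81a9a) (nat_lit 574017999),
  Rx.mk (nat_lit 505) (nat_lit 1) (nat_lit 7) (nat_lit 7) (nat_lit 7) (nat_lit 299) (nat_lit 202) r7_299 r6_202 (nat_lit 0) (nat_lit 0) (nat_lit 0) (nat_lit 0x8017985b4) (nat_lit 536870912)]
noncomputable def e13_36 : List Rx := [
  Rx.mk (nat_lit 280) (nat_lit 0) (nat_lit 3) (nat_lit 4) (nat_lit 2) (nat_lit 305) (nat_lit 97) r7_305 r12_97 (nat_lit 2071523) (nat_lit 0) (nat_lit 1948491) (nat_lit 0x725343702) (nat_lit 762393676),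
  Rx.mk (nat_lit 281) (nat_lit 1) (nat_lit 3) (nat_lit 4) (nat_lit 3) (nat_lit 310) (nat_lit 102) r7_310 r12_102 (nat_lit 0) (nat_lit 0) (nat_lit 6531868) (nat_lit 0x84ddc88ac) (nat_lit 469895630),
  Rx.mk (nat_lit 312) (nat_lit 0) (nat_lit 7) (nat_lit 4) (nat_lit 2) (nat_lit 303) (nat_lit 100) r7_303 r12_100 (nat_lit 1948491) (nat_lit 0) (nat_lit 2071523) (nat_lit 0x725343702) (nat_lit 762393676),
  Rx.mk (nat_lit 313) (nat_lit 1) (nat_lit 7) (nat_lit 4) (nat_lit 3) (nat_lit 308) (nat_lit 105) r7_308 r12_105 (nat_lit 0) (nat_lit 0) (nat_lit 8527156) (nat_lit 0x81695c1f6) (nat_lit 524761868),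
  Rx.mk (nat_lit 315) (nat_lit 3) (nat_lit 7) (nat_lit 4) (nat_lit 3) (nat_lit 313) (nat_lit 107) r7_313 r12_107 (nat_lit 0) (nat_lit 0) (nat_lit 6800525) (nat_lit 0x808257a3a) (nat_lit 536924437),
  Rx.mk (nat_lit 344) (nat_lit 0) (nat_lit 3) (nat_lit 5) (nat_lit 6) (nat_lit 306) (nat_lit 98) r7_306 r12_98 (nat_lit 8527156) (nat_lit 0) (nat_lit 0) (nat_lit 0x81695c1f6) (nat_lit 524761868),
  Rx.mk (nat_lit 345) (nat_lit 1) (nat_lit 3) (nat_lit 5) (nat_lit 7) (nat_lit 311) (nat_lit 103) r7_311 r12_103 (nat_lit 0) (nat_lit 0) (nat_lit 0) (nat_lit 0x80a647396) (nat_lit 528139662),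
  Rx.mk (nat_lit 376) (nat_lit 0) (nat_lit 7) (nat_lit 5) (nat_lit 6) (nat_lit 304) (nat_lit 101) r7_304 r12_101 (nat_lit 6531868) (nat_lit 0) (nat_lit 0) (nat_lit 0x84ddc88ac) (nat_lit 469895630),
  Rx.mk (nat_lit 377) (nat_lit 1) (nat_lit 7) (nat_lit 5) (nat_lit 7) (nat_lit 309) (nat_lit 106) r7_309 r12_106 (nat_lit 0) (nat_lit 0) (nat_lit 0) (nat_lit 0x80a647396) (nat_lit 528139662),
  Rx.mk (nat_lit 379) (nat_lit 3) (nat_lit 7) (nat_lit 5) (nat_lit 7) (nat_lit 314) (nat_lit 108) r7_314 r12_108 (nat_lit 0) (nat_lit 0) (nat_lit 0) (nat_lit 0x8167097d2) (nat_lit 516457412),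
  Rx.mk (nat_lit 472) (nat_lit 0) (nat_lit 3) (nat_lit 7) (nat_lit 6) (nat_lit 307) (nat_lit 99) r7_307 r12_99 (nat_lit 6800525) (nat_lit 0) (nat_lit 0) (nat_lit 0x808257a3a) (nat_lit 536924437),
  Rx.mk (nat_lit 473) (nat_lit 1) (nat_lit 3) (nat_lit 7) (nat_lit 7) (nat_lit 312) (nat_lit 104) r7_312 r12_104 (nat_lit 0) (nat_lit 0) (nat_lit 0) (nat_lit 0x8167097d2) (nat_lit 516457412)]
noncomputable def e13_37 : List Rx := [
  Rx.mk (nat_lit 289) (nat_lit 1) (nat_lit 4) (nat_lit 4) (nat_lit 1) (nat_lit 315) (nat_lit 250) r7_315 r0_250 (nat_lit 0) (nat_lit 18636919) (nat_lit 24992992) (nat_lit 0x67a63621c) (nat_lit 974858673),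
  Rx.mk (nat_lit 297) (nat_lit 1) (nat_lit 5) (nat_lit 4) (nat_lit 3) (nat_lit 317) (nat_lit 251) r7_317 r0_251 (nat_lit 0) (nat_lit 0) (nat_lit 25925090) (nat_lit 0x7f7ee0aba) (nat_lit 572200552),
  Rx.mk (nat_lit 353) (nat_lit 1) (nat_lit 4) (nat_lit 5) (nat_lit 5) (nat_lit 316) (nat_lit 252) r7_316 r0_252 (nat_lit 0) (nat_lit 26788272) (nat_lit 0) (nat_lit 0x7afd29426) (nat_lit 645521784),
  Rx.mk (nat_lit 361) (nat_lit 1) (nat_lit 5) (nat_lit 5) (nat_lit 7) (nat_lit 318) (nat_lit 253) r7_318 r0_253 (nat_lit 0) (nat_lit 0) (nat_lit 0) (nat_lit 0x80170d2ac) (nat_lit 536874862)]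
noncomputable def e13_38 : List Rx := [
  Rx.mk (nat_lit 289) (nat_lit 1) (nat_lit 4) (nat_lit 4) (nat_lit 1) (nat_lit 325) (nat_lit 177) r7_325 r0_177 (nat_lit 0) (nat_lit 7378942) (nat_lit 3400781) (nat_lit 0x545558bfa) (nat_lit 1254182035),
  Rx.mk (nat_lit 293) (nat_lit 5) (nat_lit 4) (nat_lit 4) (nat_lit 1) (nat_lit 319) (nat_lit 178) r7_319 r0_178 (nat_lit 0) (nat_lit 10270932) (nat_lit 5394699) (nat_lit 0x5fa366a58) (nat_lit 1076368243),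
  Rx.mk (nat_lit 317) (nat_lit 5) (nat_lit 7) (nat_lit 4) (nat_lit 3) (nat_lit 322) (nat_lit 182) r7_322 r0_182 (nat_lit 0) (nat_lit 0) (nat_lit 7741900) (nat_lit 0x80bec9efa) (nat_lit 534261362),
  Rx.mk (nat_lit 353) (nat_lit 1) (nat_lit 4) (nat_lit 5) (nat_lit 5) (nat_lit 326) (nat_lit 179) r7_326 r0_179 (nat_lit 0) (nat_lit 10961872) (nat_lit 0) (nat_lit 0x71abf8114) (nat_lit 780182384),
  Rx.mk (nat_lit 357) (nat_lit 5) (nat_lit 4) (nat_lit 5) (nat_lit 5) (nat_lit 320) (nat_lit 180) r7_320 r0_180 (nat_lit 0) (nat_lit 23289893) (nat_lit 0) (nat_lit 0x7d8545704) (nat_lit 601157455),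
  Rx.mk (nat_lit 381) (nat_lit 5) (nat_lit 7) (nat_lit 5) (nat_lit 7) (nat_lit 323) (nat_lit 183) r7_323 r0_183 (nat_lit 0) (nat_lit 0) (nat_lit 0) (nat_lit 0x80877ffc6) (nat_lit 529984012),
  Rx.mk (nat_lit 421) (nat_lit 5) (nat_lit 4) (nat_lit 6) (nat_lit 5) (nat_lit 321) (nat_lit 181) r7_321 r0_181 (nat_lit 0) (nat_lit 39572657) (nat_lit 0) (nat_lit 0x7fce955ba) (nat_lit 580469619),
  Rx.mk (nat_lit 445) (nat_lit 5) (nat_lit 7) (nat_lit 6) (nat_lit 7) (nat_lit 324) (nat_lit 184) r7_324 r0_184 (nat_lit 0) (nat_lit 0) (nat_lit 0) (nat_lit 0x80b89b4d4) (nat_lit 527012662)]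
noncomputable def e13_39 : List Rx := [
  Rx.mk (nat_lit 289) (nat_lit 1) (nat_lit 4) (nat_lit 4) (nat_lit 1) (nat_lit 335) (nat_lit 335) r7_335 r7_335 (nat_lit 0) (nat_lit 32713036) (nat_lit 32713036) (nat_lit 0x69d5f62d4) (nat_lit 961393834),
  Rx.mk (nat_lit 293) (nat_lit 5) (nat_lit 4) (nat_lit 4) (nat_lit 1) (nat_lit 327) (nat_lit 327) r7_327 r7_327 (nat_lit 0) (nat_lit 93243893) (nat_lit 93243893) (nat_lit 0x6bd582bac) (nat_lit 1050182148),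
  Rx.mk (nat_lit 297) (nat_lit 1) (nat_lit 5) (nat_lit 4) (nat_lit 3) (nat_lit 337) (nat_lit 336) r7_337 r7_336 (nat_lit 0) (nat_lit 0) (nat_lit 24741287) (nat_lit 0x8017985b4) (nat_lit 561612199),
  Rx.mk (nat_lit 301) (nat_lit 5) (nat_lit 5) (nat_lit 4) (nat_lit 3) (nat_lit 330) (nat_lit 328) r7_330 r7_328 (nat_lit 0) (nat_lit 0) (nat_lit 26241675) (nat_lit 0x7fe63006c) (nat_lit 566139187),
  Rx.mk (nat_lit 317) (nat_lit 5) (nat_lit 7) (nat_lit 4) (nat_lit 3) (nat_lit 333) (nat_lit 329) r7_333 r7_329 (nat_lit 0) (nat_lit 0) (nat_lit 25127303) (nat_lit 0x800ee0d22) (nat_lit 562531915),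
  Rx.mk (nat_lit 353) (nat_lit 1) (nat_lit 4) (nat_lit 5) (nat_lit 5) (nat_lit 336) (nat_lit 337) r7_336 r7_337 (nat_lit 0) (nat_lit 24741287) (nat_lit 0) (nat_lit 0x8017985b4) (nat_lit 561612199),
  Rx.mk (nat_lit 357) (nat_lit 5) (nat_lit 4) (nat_lit 5) (nat_lit 5) (nat_lit 328) (nat_lit 330) r7_328 r7_330 (nat_lit 0) (nat_lit 26241675) (nat_lit 0) (nat_lit 0x7fe63006c) (nat_lit 566139187),
  Rx.mk (nat_lit 361) (nat_lit 1) (nat_lit 5) (nat_lit 5) (nat_lit 7) (nat_lit 338) (nat_lit 338) r7_338 r7_338 (nat_lit 0) (nat_lit 0) (nat_lit 0) (nat_lit 0x8017985b4) (nat_lit 536870912),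
  Rx.mk (nat_lit 365) (nat_lit 5) (nat_lit 5) (nat_lit 5) (nat_lit 7) (nat_lit 331) (nat_lit 331) r7_331 r7_331 (nat_lit 0) (nat_lit 0) (nat_lit 0) (nat_lit 0x8017985b4) (nat_lit 536870912),
  Rx.mk (nat_lit 381) (nat_lit 5) (nat_lit 7) (nat_lit 5) (nat_lit 7) (nat_lit 334) (nat_lit 332) r7_334 r7_332 (nat_lit 0) (nat_lit 0) (nat_lit 0) (nat_lit 0x8017985b4) (nat_lit 536870912),
  Rx.mk (nat_lit 421) (nat_lit 5) (nat_lit 4) (nat_lit 6) (nat_lit 5) (nat_lit 329) (nat_lit 333) r7_329 r7_333 (nat_lit 0) (nat_lit 25127303) (nat_lit 0) (nat_lit 0x800ee0d22) (nat_lit 562531915),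
  Rx.mk (nat_lit 429) (nat_lit 5) (nat_lit 5) (nat_lit 6) (nat_lit 7) (nat_lit 332) (nat_lit 334) r7_332 r7_334 (nat_lit 0) (nat_lit 0) (nat_lit 0) (nat_lit 0x8017985b4) (nat_lit 536870912)]
noncomputable def e13_40 : List Rx := [
  Rx.mk (nat_lit 292) (nat_lit 4) (nat_lit 4) (nat_lit 4) (nat_lit 0) (nat_lit 339) (nat_lit 189) r7_339 r2_189 (nat_lit 2611593) (nat_lit 3422726) (nat_lit 2362318) (nat_lit 0x3ce06297a) (nat_lit 1631121799),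
  Rx.mk (nat_lit 293) (nat_lit 5) (nat_lit 4) (nat_lit 4) (nat_lit 1) (nat_lit 344) (nat_lit 190) r7_344 r2_190 (nat_lit 0) (nat_lit 55381709) (nat_lit 33242310) (nat_lit 0x6310bfaca) (nat_lit 1094102531),
  Rx.mk (nat_lit 316) (nat_lit 4) (nat_lit 7) (nat_lit 4) (nat_lit 2) (nat_lit 342) (nat_lit 193) r7_342 r2_193 (nat_lit 15431888) (nat_lit 0) (nat_lit 12919491) (nat_lit 0x6872d6740) (nat_lit 946738841),
  Rx.mk (nat_lit 317) (nat_lit 5) (nat_lit 7) (nat_lit 4) (nat_lit 3) (nat_lit 347) (nat_lit 194) r7_347 r2_194 (nat_lit 0) (nat_lit 0) (nat_lit 25208910) (nat_lit 0x800becfd0) (nat_lit 562792922),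
  Rx.mk (nat_lit 319) (nat_lit 7) (nat_lit 7) (nat_lit 4) (nat_lit 3) (nat_lit 350) (nat_lit 195) r7_350 r2_195 (nat_lit 0) (nat_lit 0) (nat_lit 24741287) (nat_lit 0x800c2469c) (nat_lit 562313099),
  Rx.mk (nat_lit 420) (nat_lit 4) (nat_lit 4) (nat_lit 6) (nat_lit 4) (nat_lit 340) (nat_lit 191) r7_340 r2_191 (nat_lit 17983786) (nat_lit 15429794) (nat_lit 0) (nat_lit 0x642450a34) (nat_lit 1021437892),
  Rx.mk (nat_lit 421) (nat_lit 5) (nat_lit 4) (nat_lit 6) (nat_lit 5) (nat_lit 345) (nat_lit 192) r7_345 r2_192 (nat_lit 0) (nat_lit 24741287) (nat_lit 0) (nat_lit 0x800c30b36) (nat_lit 562309299),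
  Rx.mk (nat_lit 436) (nat_lit 4) (nat_lit 6) (nat_lit 6) (nat_lit 6) (nat_lit 341) (nat_lit 200) r7_341 r2_200 (nat_lit 24741287) (nat_lit 0) (nat_lit 0) (nat_lit 0x7ffac5806) (nat_lit 563378349),
  Rx.mk (nat_lit 437) (nat_lit 5) (nat_lit 6) (nat_lit 6) (nat_lit 7) (nat_lit 346) (nat_lit 201) r7_346 r2_201 (nat_lit 0) (nat_lit 0) (nat_lit 0) (nat_lit 0x8017985b4) (nat_lit 536870912),
  Rx.mk (nat_lit 438) (nat_lit 6) (nat_lit 6) (nat_lit 6) (nat_lit 7) (nat_lit 349) (nat_lit 202) r7_349 r2_202 (nat_lit 0) (nat_lit 0) (nat_lit 0) (nat_lit 0x8017985b4) (nat_lit 536870912),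
  Rx.mk (nat_lit 444) (nat_lit 4) (nat_lit 7) (nat_lit 6) (nat_lit 6) (nat_lit 343) (nat_lit 197) r7_343 r2_197 (nat_lit 24741287) (nat_lit 0) (nat_lit 0) (nat_lit 0x800bf9d8e) (nat_lit 562322849),
  Rx.mk (nat_lit 445) (nat_lit 5) (nat_lit 7) (nat_lit 6) (nat_lit 7) (nat_lit 348) (nat_lit 198) r7_348 r2_198 (nat_lit 0) (nat_lit 0) (nat_lit 0) (nat_lit 0x8017985b4) (nat_lit 536870912),
  Rx.mk (nat_lit 447) (nat_lit 7) (nat_lit 7) (nat_lit 6) (nat_lit 7) (nat_lit 351) (nat_lit 199) r7_351 r2_199 (nat_lit 0) (nat_lit 0) (nat_lit 0) (nat_lit 0x8017985b4) (nat_lit 536870912),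
  Rx.mk (nat_lit 511) (nat_lit 7) (nat_lit 7) (nat_lit 7) (nat_lit 7) (nat_lit 352) (nat_lit 196) r7_352 r2_196 (nat_lit 0) (nat_lit 0) (nat_lit 0) (nat_lit 0x8017985b4) (nat_lit 536870912)]
noncomputable def e13_41 : List Rx := [
  Rx.mk (nat_lit 292) (nat_lit 4) (nat_lit 4) (nat_lit 4) (nat_lit 0) (nat_lit 353) (nat_lit 170) r7_353 r9_170 (nat_lit 13837945) (nat_lit 25638298) (nat_lit 19525038) (nat_lit 0x3a3a221ac) (nat_lit 1724813643),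
  Rx.mk (nat_lit 293) (nat_lit 5) (nat_lit 4) (nat_lit 4) (nat_lit 1) (nat_lit 357) (nat_lit 171) r7_357 r9_171 (nat_lit 0) (nat_lit 50988633) (nat_lit 35325188) (nat_lit 0x657b86a96) (nat_lit 1052706133),
  Rx.mk (nat_lit 301) (nat_lit 5) (nat_lit 5) (nat_lit 4) (nat_lit 3) (nat_lit 359) (nat_lit 174) r7_359 r9_174 (nat_lit 0) (nat_lit 0) (nat_lit 24741287) (nat_lit 0x8017985b4) (nat_lit 561612199),
  Rx.mk (nat_lit 316) (nat_lit 4) (nat_lit 7) (nat_lit 4) (nat_lit 2) (nat_lit 356) (nat_lit 176) r7_356 r9_176 (nat_lit 30412328) (nat_lit 0) (nat_lit 22236043) (nat_lit 0x6db23206a) (nat_lit 886234833),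
  Rx.mk (nat_lit 317) (nat_lit 5) (nat_lit 7) (nat_lit 4) (nat_lit 3) (nat_lit 362) (nat_lit 177) r7_362 r9_177 (nat_lit 0) (nat_lit 0) (nat_lit 24741287) (nat_lit 0x8017985b4) (nat_lit 561612199),
  Rx.mk (nat_lit 319) (nat_lit 7) (nat_lit 7) (nat_lit 4) (nat_lit 3) (nat_lit 364) (nat_lit 178) r7_364 r9_178 (nat_lit 0) (nat_lit 0) (nat_lit 24741287) (nat_lit 0x8017985b4) (nat_lit 561612199),
  Rx.mk (nat_lit 420) (nat_lit 4) (nat_lit 4) (nat_lit 6) (nat_lit 4) (nat_lit 354) (nat_lit 172) r7_354 r9_172 (nat_lit 38278625) (nat_lit 30361877) (nat_lit 0) (nat_lit 0x697120ad0) (nat_lit 971010514),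
  Rx.mk (nat_lit 421) (nat_lit 5) (nat_lit 4) (nat_lit 6) (nat_lit 5) (nat_lit 358) (nat_lit 173) r7_358 r9_173 (nat_lit 0) (nat_lit 24741287) (nat_lit 0) (nat_lit 0x800c2759a) (nat_lit 562311049),
  Rx.mk (nat_lit 429) (nat_lit 5) (nat_lit 5) (nat_lit 6) (nat_lit 7) (nat_lit 360) (nat_lit 175) r7_360 r9_175 (nat_lit 0) (nat_lit 0) (nat_lit 0) (nat_lit 0x8017985b4) (nat_lit 536870912),
  Rx.mk (nat_lit 436) (nat_lit 4) (nat_lit 6) (nat_lit 6) (nat_lit 6) (nat_lit 355) (nat_lit 180) r7_355 r9_180 (nat_lit 24741287) (nat_lit 0) (nat_lit 0) (nat_lit 0x8017985b4) (nat_lit 561612199),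
  Rx.mk (nat_lit 437) (nat_lit 5) (nat_lit 6) (nat_lit 6) (nat_lit 7) (nat_lit 361) (nat_lit 181) r7_361 r9_181 (nat_lit 0) (nat_lit 0) (nat_lit 0) (nat_lit 0x8017985b4) (nat_lit 536870912),
  Rx.mk (nat_lit 438) (nat_lit 6) (nat_lit 6) (nat_lit 6) (nat_lit 7) (nat_lit 363) (nat_lit 182) r7_363 r9_182 (nat_lit 0) (nat_lit 0) (nat_lit 0) (nat_lit 0x8017985b4) (nat_lit 536870912),
  Rx.mk (nat_lit 511) (nat_lit 7) (nat_lit 7) (nat_lit 7) (nat_lit 7) (nat_lit 365) (nat_lit 179) r7_365 r9_179 (nat_lit 0) (nat_lit 0) (nat_lit 0) (nat_lit 0x8017985b4) (nat_lit 536870912)]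
noncomputable def e13_42 : List Rx := [
  Rx.mk (nat_lit 182) (nat_lit 6) (nat_lit 6) (nat_lit 2) (nat_lit 7) (nat_lit 377) (nat_lit 82) r7_377 r9_82 (nat_lit 0) (nat_lit 0) (nat_lit 0) (nat_lit 0x8017985b4) (nat_lit 536870912),
  Rx.mk (nat_lit 292) (nat_lit 4) (nat_lit 4) (nat_lit 4) (nat_lit 0) (nat_lit 366) (nat_lit 68) r7_366 r9_68 (nat_lit 12221267) (nat_lit 53728367) (nat_lit 12174851) (nat_lit 0x38c2f41c6) (nat_lit 1767626247),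
  Rx.mk (nat_lit 293) (nat_lit 5) (nat_lit 4) (nat_lit 4) (nat_lit 1) (nat_lit 371) (nat_lit 69) r7_371 r9_69 (nat_lit 0) (nat_lit 49319051) (nat_lit 28898569) (nat_lit 0x6539461d6) (nat_lit 1048798182),
  Rx.mk (nat_lit 316) (nat_lit 4) (nat_lit 7) (nat_lit 4) (nat_lit 2) (nat_lit 369) (nat_lit 70) r7_369 r9_70 (nat_lit 25388524) (nat_lit 0) (nat_lit 23888514) (nat_lit 0x66b5a08de) (nat_lit 995832150),
  Rx.mk (nat_lit 317) (nat_lit 5) (nat_lit 7) (nat_lit 4) (nat_lit 3) (nat_lit 374) (nat_lit 71) r7_374 r9_71 (nat_lit 0) (nat_lit 0) (nat_lit 24741287) (nat_lit 0x7fff7117a) (nat_lit 563091449),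
  Rx.mk (nat_lit 319) (nat_lit 7) (nat_lit 7) (nat_lit 4) (nat_lit 3) (nat_lit 378) (nat_lit 72) r7_378 r9_72 (nat_lit 0) (nat_lit 0) (nat_lit 24741287) (nat_lit 0x800788c14) (nat_lit 562595399),
  Rx.mk (nat_lit 420) (nat_lit 4) (nat_lit 4) (nat_lit 6) (nat_lit 4) (nat_lit 367) (nat_lit 74) r7_367 r9_74 (nat_lit 27374180) (nat_lit 24913710) (nat_lit 0) (nat_lit 0x629c47274) (nat_lit 1065121602),
  Rx.mk (nat_lit 421) (nat_lit 5) (nat_lit 4) (nat_lit 6) (nat_lit 5) (nat_lit 372) (nat_lit 75) r7_372 r9_75 (nat_lit 0) (nat_lit 24624079) (nat_lit 0) (nat_lit 0x8009fe8fe) (nat_lit 562326791),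
  Rx.mk (nat_lit 436) (nat_lit 4) (nat_lit 6) (nat_lit 6) (nat_lit 6) (nat_lit 368) (nat_lit 79) r7_368 r9_79 (nat_lit 24741287) (nat_lit 0) (nat_lit 0) (nat_lit 0x7fe3cd14e) (nat_lit 564781099),
  Rx.mk (nat_lit 437) (nat_lit 5) (nat_lit 6) (nat_lit 6) (nat_lit 7) (nat_lit 373) (nat_lit 80) r7_373 r9_80 (nat_lit 0) (nat_lit 0) (nat_lit 0) (nat_lit 0x8017985b4) (nat_lit 536870912),
  Rx.mk (nat_lit 438) (nat_lit 6) (nat_lit 6) (nat_lit 6) (nat_lit 7) (nat_lit 376) (nat_lit 81) r7_376 r9_81 (nat_lit 0) (nat_lit 0) (nat_lit 0) (nat_lit 0x8017985b4) (nat_lit 536870912),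
  Rx.mk (nat_lit 444) (nat_lit 4) (nat_lit 7) (nat_lit 6) (nat_lit 6) (nat_lit 370) (nat_lit 76) r7_370 r9_76 (nat_lit 24741287) (nat_lit 0) (nat_lit 0) (nat_lit 0x80064b5b8) (nat_lit 562671499),
  Rx.mk (nat_lit 445) (nat_lit 5) (nat_lit 7) (nat_lit 6) (nat_lit 7) (nat_lit 375) (nat_lit 77) r7_375 r9_77 (nat_lit 0) (nat_lit 0) (nat_lit 0) (nat_lit 0x8017985b4) (nat_lit 536870912),
  Rx.mk (nat_lit 447) (nat_lit 7) (nat_lit 7) (nat_lit 6) (nat_lit 7) (nat_lit 379) (nat_lit 78) r7_379 r9_78 (nat_lit 0) (nat_lit 0) (nat_lit 0) (nat_lit 0x8017985b4) (nat_lit 536870912),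
  Rx.mk (nat_lit 511) (nat_lit 7) (nat_lit 7) (nat_lit 7) (nat_lit 7) (nat_lit 380) (nat_lit 73) r7_380 r9_73 (nat_lit 0) (nat_lit 0) (nat_lit 0) (nat_lit 0x8017985b4) (nat_lit 536870912)]
noncomputable def e13_43 : List Rx := [
  Rx.mk (nat_lit 293) (nat_lit 5) (nat_lit 4) (nat_lit 4) (nat_lit 1) (nat_lit 381) (nat_lit 192) r7_381 r1_192 (nat_lit 0) (nat_lit 25112477) (nat_lit 16757287) (nat_lit 0x6c3762d4a) (nat_lit 899304226),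
  Rx.mk (nat_lit 317) (nat_lit 5) (nat_lit 7) (nat_lit 4) (nat_lit 3) (nat_lit 385) (nat_lit 195) r7_385 r1_195 (nat_lit 0) (nat_lit 0) (nat_lit 19851321) (nat_lit 0x80224bf92) (nat_lit 556043533),
  Rx.mk (nat_lit 357) (nat_lit 5) (nat_lit 4) (nat_lit 5) (nat_lit 5) (nat_lit 382) (nat_lit 193) r7_382 r1_193 (nat_lit 0) (nat_lit 25314926) (nat_lit 0) (nat_lit 0x7f9e34eca) (nat_lit 569620288),
  Rx.mk (nat_lit 381) (nat_lit 5) (nat_lit 7) (nat_lit 5) (nat_lit 7) (nat_lit 386) (nat_lit 196) r7_386 r1_196 (nat_lit 0) (nat_lit 0) (nat_lit 0) (nat_lit 0x8017985b4) (nat_lit 536870912),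
  Rx.mk (nat_lit 421) (nat_lit 5) (nat_lit 4) (nat_lit 6) (nat_lit 5) (nat_lit 383) (nat_lit 194) r7_383 r1_194 (nat_lit 0) (nat_lit 30395325) (nat_lit 0) (nat_lit 0x809096c2c) (nat_lit 559824137),
  Rx.mk (nat_lit 437) (nat_lit 5) (nat_lit 6) (nat_lit 6) (nat_lit 7) (nat_lit 384) (nat_lit 198) r7_384 r1_198 (nat_lit 0) (nat_lit 0) (nat_lit 0) (nat_lit 0x8018dbc28) (nat_lit 536671062),
  Rx.mk (nat_lit 445) (nat_lit 5) (nat_lit 7) (nat_lit 6) (nat_lit 7) (nat_lit 387) (nat_lit 197) r7_387 r1_197 (nat_lit 0) (nat_lit 0) (nat_lit 0) (nat_lit 0x8017985b4) (nat_lit 536870912)]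
noncomputable def e13_44 : List Rx := [
  Rx.mk (nat_lit 293) (nat_lit 5) (nat_lit 4) (nat_lit 4) (nat_lit 1) (nat_lit 388) (nat_lit 248) r7_388 r8_248 (nat_lit 0) (nat_lit 69413824) (nat_lit 54887331) (nat_lit 0x65c8453d2) (nat_lit 1085844417),
  Rx.mk (nat_lit 301) (nat_lit 5) (nat_lit 5) (nat_lit 4) (nat_lit 3) (nat_lit 391) (nat_lit 249) r7_391 r8_249 (nat_lit 0) (nat_lit 0) (nat_lit 25009292) (nat_lit 0x8011540e0) (nat_lit 562263654),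
  Rx.mk (nat_lit 317) (nat_lit 5) (nat_lit 7) (nat_lit 4) (nat_lit 3) (nat_lit 395) (nat_lit 250) r7_395 r8_250 (nat_lit 0) (nat_lit 0) (nat_lit 24741287) (nat_lit 0x8017985b4) (nat_lit 561612199),
  Rx.mk (nat_lit 357) (nat_lit 5) (nat_lit 4) (nat_lit 5) (nat_lit 5) (nat_lit 389) (nat_lit 251) r7_389 r8_251 (nat_lit 0) (nat_lit 25521481) (nat_lit 0) (nat_lit 0x8004c69ea) (nat_lit 563543143),
  Rx.mk (nat_lit 365) (nat_lit 5) (nat_lit 5) (nat_lit 5) (nat_lit 7) (nat_lit 392) (nat_lit 252) r7_392 r8_252 (nat_lit 0) (nat_lit 0) (nat_lit 0) (nat_lit 0x8017985b4) (nat_lit 536870912),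
  Rx.mk (nat_lit 381) (nat_lit 5) (nat_lit 7) (nat_lit 5) (nat_lit 7) (nat_lit 396) (nat_lit 253) r7_396 r8_253 (nat_lit 0) (nat_lit 0) (nat_lit 0) (nat_lit 0x8017985b4) (nat_lit 536870912),
  Rx.mk (nat_lit 421) (nat_lit 5) (nat_lit 4) (nat_lit 6) (nat_lit 5) (nat_lit 390) (nat_lit 254) r7_390 r8_254 (nat_lit 0) (nat_lit 24625619) (nat_lit 0) (nat_lit 0x800a04d3a) (nat_lit 562328731),
  Rx.mk (nat_lit 429) (nat_lit 5) (nat_lit 5) (nat_lit 6) (nat_lit 7) (nat_lit 393) (nat_lit 255) r7_393 r8_255 (nat_lit 0) (nat_lit 0) (nat_lit 0) (nat_lit 0x8017985b4) (nat_lit 536870912),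
  Rx.mk (nat_lit 437) (nat_lit 5) (nat_lit 6) (nat_lit 6) (nat_lit 7) (nat_lit 394) (nat_lit 256) r7_394 r8_256 (nat_lit 0) (nat_lit 0) (nat_lit 0) (nat_lit 0x8017985b4) (nat_lit 536870912)]
noncomputable def e13_45 : List Rx := [
  Rx.mk (nat_lit 297) (nat_lit 1) (nat_lit 5) (nat_lit 4) (nat_lit 3) (nat_lit 397) (nat_lit 256) r7_397 r1_256 (nat_lit 0) (nat_lit 0) (nat_lit 24741287) (nat_lit 0x8017985b4) (nat_lit 561612199),
  Rx.mk (nat_lit 361) (nat_lit 1) (nat_lit 5) (nat_lit 5) (nat_lit 7) (nat_lit 398) (nat_lit 257) r7_398 r1_257 (nat_lit 0) (nat_lit 0) (nat_lit 0) (nat_lit 0x8017985b4) (nat_lit 536870912)]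
noncomputable def e13_46 : List Rx := [
  Rx.mk (nat_lit 329) (nat_lit 1) (nat_lit 1) (nat_lit 5) (nat_lit 7) (nat_lit 400) (nat_lit 285) r7_400 r2_285 (nat_lit 0) (nat_lit 0) (nat_lit 0) (nat_lit 0x8017985b4) (nat_lit 536870912),
  Rx.mk (nat_lit 361) (nat_lit 1) (nat_lit 5) (nat_lit 5) (nat_lit 7) (nat_lit 399) (nat_lit 284) r7_399 r2_284 (nat_lit 0) (nat_lit 0) (nat_lit 0) (nat_lit 0x8017985b4) (nat_lit 536870912)]
noncomputable def e13_47 : List Rx := [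
  Rx.mk (nat_lit 297) (nat_lit 1) (nat_lit 5) (nat_lit 4) (nat_lit 3) (nat_lit 404) (nat_lit 184) r7_404 r8_184 (nat_lit 0) (nat_lit 0) (nat_lit 24741287) (nat_lit 0x8017985b4) (nat_lit 561612199),
  Rx.mk (nat_lit 301) (nat_lit 5) (nat_lit 5) (nat_lit 4) (nat_lit 3) (nat_lit 401) (nat_lit 185) r7_401 r8_185 (nat_lit 0) (nat_lit 0) (nat_lit 25158612) (nat_lit 0x7ffdc5b5a) (nat_lit 563608374),
  Rx.mk (nat_lit 361) (nat_lit 1) (nat_lit 5) (nat_lit 5) (nat_lit 7) (nat_lit 405) (nat_lit 186) r7_405 r8_186 (nat_lit 0) (nat_lit 0) (nat_lit 0) (nat_lit 0x8017985b4) (nat_lit 536870912),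
  Rx.mk (nat_lit 365) (nat_lit 5) (nat_lit 5) (nat_lit 5) (nat_lit 7) (nat_lit 402) (nat_lit 187) r7_402 r8_187 (nat_lit 0) (nat_lit 0) (nat_lit 0) (nat_lit 0x8017985b4) (nat_lit 536870912),
  Rx.mk (nat_lit 429) (nat_lit 5) (nat_lit 5) (nat_lit 6) (nat_lit 7) (nat_lit 403) (nat_lit 188) r7_403 r8_188 (nat_lit 0) (nat_lit 0) (nat_lit 0) (nat_lit 0x8017985b4) (nat_lit 536870912)]
noncomputable def e13_48 : List Rx := [
  Rx.mk (nat_lit 329) (nat_lit 1) (nat_lit 1) (nat_lit 5) (nat_lit 7) (nat_lit 408) (nat_lit 259) r7_408 r9_259 (nat_lit 0) (nat_lit 0) (nat_lit 0) (nat_lit 0x8017985b4) (nat_lit 536870912),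
  Rx.mk (nat_lit 361) (nat_lit 1) (nat_lit 5) (nat_lit 5) (nat_lit 7) (nat_lit 407) (nat_lit 258) r7_407 r9_258 (nat_lit 0) (nat_lit 0) (nat_lit 0) (nat_lit 0x8017985b4) (nat_lit 536870912),
  Rx.mk (nat_lit 365) (nat_lit 5) (nat_lit 5) (nat_lit 5) (nat_lit 7) (nat_lit 406) (nat_lit 257) r7_406 r9_257 (nat_lit 0) (nat_lit 0) (nat_lit 0) (nat_lit 0x8017985b4) (nat_lit 536870912)]
noncomputable def e13_49 : List Rx := [
  Rx.mk (nat_lit 73) (nat_lit 1) (nat_lit 1) (nat_lit 1) (nat_lit 7) (nat_lit 411) (nat_lit 257) r7_411 r9_257 (nat_lit 0) (nat_lit 0) (nat_lit 0) (nat_lit 0x8017985b4) (nat_lit 536870912),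
  Rx.mk (nat_lit 329) (nat_lit 1) (nat_lit 1) (nat_lit 5) (nat_lit 7) (nat_lit 410) (nat_lit 258) r7_410 r9_258 (nat_lit 0) (nat_lit 0) (nat_lit 0) (nat_lit 0x8017985b4) (nat_lit 536870912),
  Rx.mk (nat_lit 361) (nat_lit 1) (nat_lit 5) (nat_lit 5) (nat_lit 7) (nat_lit 409) (nat_lit 259) r7_409 r9_259 (nat_lit 0) (nat_lit 0) (nat_lit 0) (nat_lit 0x8017985b4) (nat_lit 536870912)]
noncomputable def e13_50 : List Rx := [
  Rx.mk (nat_lit 289) (nat_lit 1) (nat_lit 4) (nat_lit 4) (nat_lit 1) (nat_lit 412) (nat_lit 250) r7_412 r3_250 (nat_lit 0) (nat_lit 161216) (nat_lit 187444) (nat_lit 0x65b3d3f7a) (nat_lit 962509472),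
  Rx.mk (nat_lit 313) (nat_lit 1) (nat_lit 7) (nat_lit 4) (nat_lit 3) (nat_lit 414) (nat_lit 251) r7_414 r3_251 (nat_lit 0) (nat_lit 0) (nat_lit 1062796) (nat_lit 0x7d66ce370) (nat_lit 580163308),
  Rx.mk (nat_lit 353) (nat_lit 1) (nat_lit 4) (nat_lit 5) (nat_lit 5) (nat_lit 413) (nat_lit 252) r7_413 r3_252 (nat_lit 0) (nat_lit 20900457) (nat_lit 0) (nat_lit 0x7888ef68e) (nat_lit 679216269),
  Rx.mk (nat_lit 377) (nat_lit 1) (nat_lit 7) (nat_lit 5) (nat_lit 7) (nat_lit 415) (nat_lit 253) r7_415 r3_253 (nat_lit 0) (nat_lit 0) (nat_lit 0) (nat_lit 0x82218c4a6) (nat_lit 505206912)]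
noncomputable def e13_51 : List Rx := [
  Rx.mk (nat_lit 289) (nat_lit 1) (nat_lit 4) (nat_lit 4) (nat_lit 1) (nat_lit 416) (nat_lit 265) r7_416 r4_265 (nat_lit 0) (nat_lit 51960859) (nat_lit 26363677) (nat_lit 0x6eea423dc) (nat_lit 892140698),
  Rx.mk (nat_lit 297) (nat_lit 1) (nat_lit 5) (nat_lit 4) (nat_lit 3) (nat_lit 418) (nat_lit 266) r7_418 r4_266 (nat_lit 0) (nat_lit 0) (nat_lit 24741287) (nat_lit 0x8017985b4) (nat_lit 561612199),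
  Rx.mk (nat_lit 313) (nat_lit 1) (nat_lit 7) (nat_lit 4) (nat_lit 3) (nat_lit 420) (nat_lit 267) r7_420 r4_267 (nat_lit 0) (nat_lit 0) (nat_lit 28981807) (nat_lit 0x7fc4d7cda) (nat_lit 570932769),
  Rx.mk (nat_lit 353) (nat_lit 1) (nat_lit 4) (nat_lit 5) (nat_lit 5) (nat_lit 417) (nat_lit 268) r7_417 r4_268 (nat_lit 0) (nat_lit 24741287) (nat_lit 0) (nat_lit 0x8017985b4) (nat_lit 561612199),
  Rx.mk (nat_lit 361) (nat_lit 1) (nat_lit 5) (nat_lit 5) (nat_lit 7) (nat_lit 419) (nat_lit 269) r7_419 r4_269 (nat_lit 0) (nat_lit 0) (nat_lit 0) (nat_lit 0x8017985b4) (nat_lit 536870912),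
  Rx.mk (nat_lit 377) (nat_lit 1) (nat_lit 7) (nat_lit 5) (nat_lit 7) (nat_lit 421) (nat_lit 270) r7_421 r4_270 (nat_lit 0) (nat_lit 0) (nat_lit 0) (nat_lit 0x8017985b4) (nat_lit 536870912)]
noncomputable def e13_52 : List Rx := [
  Rx.mk (nat_lit 313) (nat_lit 1) (nat_lit 7) (nat_lit 4) (nat_lit 3) (nat_lit 422) (nat_lit 256) r7_422 r5_256 (nat_lit 0) (nat_lit 0) (nat_lit 10453794) (nat_lit 0x7f320ae16) (nat_lit 561328856),
  Rx.mk (nat_lit 377) (nat_lit 1) (nat_lit 7) (nat_lit 5) (nat_lit 7) (nat_lit 423) (nat_lit 257) r7_423 r5_257 (nat_lit 0) (nat_lit 0) (nat_lit 0) (nat_lit 0x811261be4) (nat_lit 521565112)]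
noncomputable def e13_53 : List Rx := [
  Rx.mk (nat_lit 289) (nat_lit 1) (nat_lit 4) (nat_lit 4) (nat_lit 1) (nat_lit 427) (nat_lit 167) r7_427 r4_167 (nat_lit 0) (nat_lit 19907554) (nat_lit 22125450) (nat_lit 0x63a785950) (nat_lit 1037930216),
  Rx.mk (nat_lit 313) (nat_lit 1) (nat_lit 7) (nat_lit 4) (nat_lit 3) (nat_lit 429) (nat_lit 169) r7_429 r4_169 (nat_lit 0) (nat_lit 0) (nat_lit 9466543) (nat_lit 0x7fa3c1d3e) (nat_lit 553281955),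
  Rx.mk (nat_lit 317) (nat_lit 5) (nat_lit 7) (nat_lit 4) (nat_lit 3) (nat_lit 424) (nat_lit 170) r7_424 r4_170 (nat_lit 0) (nat_lit 0) (nat_lit 15079429) (nat_lit 0x80b288b5a) (nat_lit 542464441),
  Rx.mk (nat_lit 353) (nat_lit 1) (nat_lit 4) (nat_lit 5) (nat_lit 5) (nat_lit 428) (nat_lit 168) r7_428 r4_168 (nat_lit 0) (nat_lit 19814278) (nat_lit 0) (nat_lit 0x7ff710a44) (nat_lit 558656140),
  Rx.mk (nat_lit 377) (nat_lit 1) (nat_lit 7) (nat_lit 5) (nat_lit 7) (nat_lit 430) (nat_lit 171) r7_430 r4_171 (nat_lit 0) (nat_lit 0) (nat_lit 0) (nat_lit 0x80e5a0ace) (nat_lit 524283362),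
  Rx.mk (nat_lit 381) (nat_lit 5) (nat_lit 7) (nat_lit 5) (nat_lit 7) (nat_lit 425) (nat_lit 172) r7_425 r4_172 (nat_lit 0) (nat_lit 0) (nat_lit 0) (nat_lit 0x8047400be) (nat_lit 533941862),
  Rx.mk (nat_lit 445) (nat_lit 5) (nat_lit 7) (nat_lit 6) (nat_lit 7) (nat_lit 426) (nat_lit 173) r7_426 r4_173 (nat_lit 0) (nat_lit 0) (nat_lit 0) (nat_lit 0x804741ba8) (nat_lit 533941462)]
noncomputable def e13_54 : List Rx := [
  Rx.mk (nat_lit 289) (nat_lit 1) (nat_lit 4) (nat_lit 4) (nat_lit 1) (nat_lit 433) (nat_lit 286) r7_433 r10_286 (nat_lit 0) (nat_lit 23931749) (nat_lit 28712906) (nat_lit 0x6a7e66ee6) (nat_lit 937964567),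
  Rx.mk (nat_lit 297) (nat_lit 1) (nat_lit 5) (nat_lit 4) (nat_lit 3) (nat_lit 435) (nat_lit 287) r7_435 r10_287 (nat_lit 0) (nat_lit 0) (nat_lit 24741287) (nat_lit 0x8017985b4) (nat_lit 561612199),
  Rx.mk (nat_lit 313) (nat_lit 1) (nat_lit 7) (nat_lit 4) (nat_lit 3) (nat_lit 437) (nat_lit 288) r7_437 r10_288 (nat_lit 0) (nat_lit 0) (nat_lit 25691165) (nat_lit 0x800112efc) (nat_lit 563939677),
  Rx.mk (nat_lit 317) (nat_lit 5) (nat_lit 7) (nat_lit 4) (nat_lit 3) (nat_lit 431) (nat_lit 284) r7_431 r10_284 (nat_lit 0) (nat_lit 0) (nat_lit 25393500) (nat_lit 0x7ffadf27e) (nat_lit 564019262),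
  Rx.mk (nat_lit 353) (nat_lit 1) (nat_lit 4) (nat_lit 5) (nat_lit 5) (nat_lit 434) (nat_lit 289) r7_434 r10_289 (nat_lit 0) (nat_lit 26205094) (nat_lit 0) (nat_lit 0x7ff5adb5c) (nat_lit 565151456),
  Rx.mk (nat_lit 361) (nat_lit 1) (nat_lit 5) (nat_lit 5) (nat_lit 7) (nat_lit 436) (nat_lit 290) r7_436 r10_290 (nat_lit 0) (nat_lit 0) (nat_lit 0) (nat_lit 0x8017985b4) (nat_lit 536870912),
  Rx.mk (nat_lit 377) (nat_lit 1) (nat_lit 7) (nat_lit 5) (nat_lit 7) (nat_lit 438) (nat_lit 291) r7_438 r10_291 (nat_lit 0) (nat_lit 0) (nat_lit 0) (nat_lit 0x8017985b4) (nat_lit 536870912),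
  Rx.mk (nat_lit 381) (nat_lit 5) (nat_lit 7) (nat_lit 5) (nat_lit 7) (nat_lit 432) (nat_lit 285) r7_432 r10_285 (nat_lit 0) (nat_lit 0) (nat_lit 0) (nat_lit 0x8017985b4) (nat_lit 536870912)]
noncomputable def e13_55 : List Rx := [
  Rx.mk (nat_lit 313) (nat_lit 1) (nat_lit 7) (nat_lit 4) (nat_lit 3) (nat_lit 442) (nat_lit 306) r7_442 r11_306 (nat_lit 0) (nat_lit 0) (nat_lit 19264518) (nat_lit 0x8067c11ee) (nat_lit 551226430),
  Rx.mk (nat_lit 317) (nat_lit 5) (nat_lit 7) (nat_lit 4) (nat_lit 3) (nat_lit 439) (nat_lit 303) r7_439 r11_303 (nat_lit 0) (nat_lit 0) (nat_lit 24741287) (nat_lit 0x8017985b4) (nat_lit 561612199),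
  Rx.mk (nat_lit 377) (nat_lit 1) (nat_lit 7) (nat_lit 5) (nat_lit 7) (nat_lit 443) (nat_lit 307) r7_443 r11_307 (nat_lit 0) (nat_lit 0) (nat_lit 0) (nat_lit 0x8017985b4) (nat_lit 536870912),
  Rx.mk (nat_lit 381) (nat_lit 5) (nat_lit 7) (nat_lit 5) (nat_lit 7) (nat_lit 440) (nat_lit 304) r7_440 r11_304 (nat_lit 0) (nat_lit 0) (nat_lit 0) (nat_lit 0x8017985b4) (nat_lit 536870912),
  Rx.mk (nat_lit 445) (nat_lit 5) (nat_lit 7) (nat_lit 6) (nat_lit 7) (nat_lit 441) (nat_lit 305) r7_441 r11_305 (nat_lit 0) (nat_lit 0) (nat_lit 0) (nat_lit 0x8017985b4) (nat_lit 536870912)]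
noncomputable def e13_56 : List Rx := [
  Rx.mk (nat_lit 289) (nat_lit 1) (nat_lit 4) (nat_lit 4) (nat_lit 1) (nat_lit 444) (nat_lit 184) r7_444 r5_184 (nat_lit 0) (nat_lit 21504054) (nat_lit 5813795) (nat_lit 0x686efd894) (nat_lit 945833261),
  Rx.mk (nat_lit 313) (nat_lit 1) (nat_lit 7) (nat_lit 4) (nat_lit 3) (nat_lit 446) (nat_lit 186) r7_446 r5_186 (nat_lit 0) (nat_lit 0) (nat_lit 6741966) (nat_lit 0x7f4734e86) (nat_lit 556141628),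
  Rx.mk (nat_lit 353) (nat_lit 1) (nat_lit 4) (nat_lit 5) (nat_lit 5) (nat_lit 445) (nat_lit 185) r7_445 r5_185 (nat_lit 0) (nat_lit 24741287) (nat_lit 0) (nat_lit 0x7fd363f88) (nat_lit 565797099),
  Rx.mk (nat_lit 377) (nat_lit 1) (nat_lit 7) (nat_lit 5) (nat_lit 7) (nat_lit 447) (nat_lit 187) r7_447 r5_187 (nat_lit 0) (nat_lit 0) (nat_lit 0) (nat_lit 0x812b94fb2) (nat_lit 520035912),
  Rx.mk (nat_lit 505) (nat_lit 1) (nat_lit 7) (nat_lit 7) (nat_lit 7) (nat_lit 448) (nat_lit 188) r7_448 r5_188 (nat_lit 0) (nat_lit 0) (nat_lit 0) (nat_lit 0x8017985b4) (nat_lit 536870912)]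
noncomputable def e13_57 : List Rx := [
  Rx.mk (nat_lit 289) (nat_lit 1) (nat_lit 4) (nat_lit 4) (nat_lit 1) (nat_lit 449) (nat_lit 212) r7_449 r11_212 (nat_lit 0) (nat_lit 107532607) (nat_lit 34414543) (nat_lit 0x7c21f872e) (nat_lit 742207762),
  Rx.mk (nat_lit 297) (nat_lit 1) (nat_lit 5) (nat_lit 4) (nat_lit 3) (nat_lit 451) (nat_lit 214) r7_451 r11_214 (nat_lit 0) (nat_lit 0) (nat_lit 24741287) (nat_lit 0x8017985b4) (nat_lit 561612199),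
  Rx.mk (nat_lit 313) (nat_lit 1) (nat_lit 7) (nat_lit 4) (nat_lit 3) (nat_lit 453) (nat_lit 216) r7_453 r11_216 (nat_lit 0) (nat_lit 0) (nat_lit 24741287) (nat_lit 0x8017985b4) (nat_lit 561612199),
  Rx.mk (nat_lit 353) (nat_lit 1) (nat_lit 4) (nat_lit 5) (nat_lit 5) (nat_lit 450) (nat_lit 213) r7_450 r11_213 (nat_lit 0) (nat_lit 24741287) (nat_lit 0) (nat_lit 0x8017985b4) (nat_lit 561612199),
  Rx.mk (nat_lit 361) (nat_lit 1) (nat_lit 5) (nat_lit 5) (nat_lit 7) (nat_lit 452) (nat_lit 215) r7_452 r11_215 (nat_lit 0) (nat_lit 0) (nat_lit 0) (nat_lit 0x8017985b4) (nat_lit 536870912),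
  Rx.mk (nat_lit 377) (nat_lit 1) (nat_lit 7) (nat_lit 5) (nat_lit 7) (nat_lit 454) (nat_lit 217) r7_454 r11_217 (nat_lit 0) (nat_lit 0) (nat_lit 0) (nat_lit 0x8017985b4) (nat_lit 536870912),
  Rx.mk (nat_lit 505) (nat_lit 1) (nat_lit 7) (nat_lit 7) (nat_lit 7) (nat_lit 455) (nat_lit 218) r7_455 r11_218 (nat_lit 0) (nat_lit 0) (nat_lit 0) (nat_lit 0x8017985b4) (nat_lit 536870912)]
noncomputable def e13 : List (List Rx) := [e13_0, e13_1, e13_2, e13_3, e13_4, e13_5, e13_6, e13_7, e13_8, e13_9, e13_10, e13_11, e13_12, e13_13, e13_14, e13_15, e13_16, e13_17, e13_18, e13_19, e13_20, e13_21, e13_22, e13_23, e13_24, e13_25, e13_26, e13_27, e13_28, e13_29, e13_30, e13_31, e13_32, e13_33, e13_34, e13_35, e13_36, e13_37, e13_38, e13_39, e13_40, e13_41, e13_42, e13_43, e13_44, e13_45, e13_46, e13_47, e13_48, e13_49, e13_50, e13_51, e13_52, e13_53, e13_54, e13_55, e13_56,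 e13_57]
noncomputable def e14_0 : List Rx := [
  Rx.mk (nat_lit 0) (nat_lit 0) (nat_lit 0) (nat_lit 0) (nat_lit 0) (nat_lit 94) (nat_lit 111) r1_94 r0_111 (nat_lit 15478) (nat_lit 704331784) (nat_lit 15924) (nat_lit 0x7ffceaa5a) (nat_lit 1241434748),
  Rx.mk (nat_lit 1) (nat_lit 1) (nat_lit 0) (nat_lit 0) (nat_lit 1) (nat_lit 95) (nat_lit 114) r1_95 r0_114 (nat_lit 0) (nat_lit 301314432) (nat_lit 17923102) (nat_lit 0x7b08f77e4) (nat_lit 937110096),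
  Rx.mk (nat_lit 2) (nat_lit 2) (nat_lit 0) (nat_lit 0) (nat_lit 1) (nat_lit 96) (nat_lit 118) r1_96 r0_118 (nat_lit 0) (nat_lit 236637976) (nat_lit 49509170) (nat_lit 0x7c1ee06fe) (nat_lit 886572308),
  Rx.mk (nat_lit 18) (nat_lit 2) (nat_lit 2) (nat_lit 0) (nat_lit 3) (nat_lit 97) (nat_lit 121) r1_97 r0_121 (nat_lit 0) (nat_lit 0) (nat_lit 26465750) (nat_lit 0x7f8d66de6) (nat_lit 571814812),
  Rx.mk (nat_lit 146) (nat_lit 2) (nat_lit 2) (nat_lit 2) (nat_lit 7) (nat_lit 98) (nat_lit 123) r1_98 r0_123 (nat_lit 0) (nat_lit 0) (nat_lit 0) (nat_lit 0x8017985b4) (nat_lit 536870912),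
  Rx.mk (nat_lit 192) (nat_lit 0) (nat_lit 0) (nat_lit 3) (nat_lit 4) (nat_lit 99) (nat_lit 112) r1_99 r0_112 (nat_lit 15900944) (nat_lit 330891680) (nat_lit 0) (nat_lit 0x77bef9212) (nat_lit 1017846086),
  Rx.mk (nat_lit 193) (nat_lit 1) (nat_lit 0) (nat_lit 3) (nat_lit 5) (nat_lit 100) (nat_lit 115) r1_100 r0_115 (nat_lit 0) (nat_lit 40000838) (nat_lit 0) (nat_lit 0x7f4fca046) (nat_lit 589164150),
  Rx.mk (nat_lit 194) (nat_lit 2) (nat_lit 0) (nat_lit 3) (nat_lit 5) (nat_lit 101) (nat_lit 119) r1_101 r0_119 (nat_lit 0) (nat_lit 43159532) (nat_lit 0) (nat_lit 0x7fa01c38c) (nat_lit 587329944),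
  Rx.mk (nat_lit 210) (nat_lit 2) (nat_lit 2) (nat_lit 3) (nat_lit 7) (nat_lit 102) (nat_lit 122) r1_102 r0_122 (nat_lit 0) (nat_lit 0) (nat_lit 0) (nat_lit 0x8017985b4) (nat_lit 536870912),
  Rx.mk (nat_lit 216) (nat_lit 0) (nat_lit 3) (nat_lit 3) (nat_lit 6) (nat_lit 103) (nat_lit 113) r1_103 r0_113 (nat_lit 24548730) (nat_lit 0) (nat_lit 0) (nat_lit 0x78780d94c) (nat_lit 683979642),
  Rx.mk (nat_lit 217) (nat_lit 1) (nat_lit 3) (nat_lit 3) (nat_lit 7) (nat_lit 104) (nat_lit 116) r1_104 r0_116 (nat_lit 0) (nat_lit 0) (nat_lit 0) (nat_lit 0x8008586c6) (nat_lit 537803512),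
  Rx.mk (nat_lit 218) (nat_lit 2) (nat_lit 3) (nat_lit 3) (nat_lit 7) (nat_lit 105) (nat_lit 120) r1_105 r0_120 (nat_lit 0) (nat_lit 0) (nat_lit 0) (nat_lit 0x8017985b4) (nat_lit 536870912),
  Rx.mk (nat_lit 219) (nat_lit 3) (nat_lit 3) (nat_lit 3) (nat_lit 7) (nat_lit 106) (nat_lit 117) r1_106 r0_117 (nat_lit 0) (nat_lit 0) (nat_lit 0) (nat_lit 0x8008e1958) (nat_lit 537770662)]
noncomputable def e14_1 : List Rx := [
  Rx.mk (nat_lit 0) (nat_lit 0) (nat_lit 0) (nat_lit 0) (nat_lit 0) (nat_lit 117) (nat_lit 117) r1_117 r1_117 (nat_lit 1979870) (nat_lit 589462715) (nat_lit 1979870) (nat_lit 0x702baaa3a) (nat_lit 1386696517),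
  Rx.mk (nat_lit 1) (nat_lit 1) (nat_lit 0) (nat_lit 0) (nat_lit 1) (nat_lit 118) (nat_lit 121) r1_118 r1_121 (nat_lit 0) (nat_lit 301646691) (nat_lit 46858283) (nat_lit 0x7c618c5e8) (nat_lit 944707886),
  Rx.mk (nat_lit 2) (nat_lit 2) (nat_lit 0) (nat_lit 0) (nat_lit 1) (nat_lit 119) (nat_lit 126) r1_119 r1_126 (nat_lit 0) (nat_lit 112411192) (nat_lit 41207445) (nat_lit 0x7cd477904) (nat_lit 742617599),
  Rx.mk (nat_lit 18) (nat_lit 2) (nat_lit 2) (nat_lit 0) (nat_lit 3) (nat_lit 120) (nat_lit 128) r1_120 r1_128 (nat_lit 0) (nat_lit 0) (nat_lit 27831261) (nat_lit 0x7f26f387a) (nat_lit 579564373),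
  Rx.mk (nat_lit 64) (nat_lit 0) (nat_lit 0) (nat_lit 1) (nat_lit 4) (nat_lit 121) (nat_lit 118) r1_121 r1_118 (nat_lit 46858283) (nat_lit 301646691) (nat_lit 0) (nat_lit 0x7c618c5e8) (nat_lit 944707886),
  Rx.mk (nat_lit 65) (nat_lit 1) (nat_lit 0) (nat_lit 1) (nat_lit 5) (nat_lit 122) (nat_lit 122) r1_122 r1_122 (nat_lit 0) (nat_lit 24741287) (nat_lit 0) (nat_lit 0x8017985b4) (nat_lit 561612199),
  Rx.mk (nat_lit 66) (nat_lit 2) (nat_lit 0) (nat_lit 1) (nat_lit 5) (nat_lit 123) (nat_lit 127) r1_123 r1_127 (nat_lit 0) (nat_lit 24741287) (nat_lit 0) (nat_lit 0x8017985b4) (nat_lit 561612199),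
  Rx.mk (nat_lit 82) (nat_lit 2) (nat_lit 2) (nat_lit 1) (nat_lit 7) (nat_lit 124) (nat_lit 129) r1_124 r1_129 (nat_lit 0) (nat_lit 0) (nat_lit 0) (nat_lit 0x8017985b4) (nat_lit 536870912),
  Rx.mk (nat_lit 146) (nat_lit 2) (nat_lit 2) (nat_lit 2) (nat_lit 7) (nat_lit 125) (nat_lit 130) r1_125 r1_130 (nat_lit 0) (nat_lit 0) (nat_lit 0) (nat_lit 0x8017985b4) (nat_lit 536870912),
  Rx.mk (nat_lit 192) (nat_lit 0) (nat_lit 0) (nat_lit 3) (nat_lit 4) (nat_lit 126) (nat_lit 119) r1_126 r1_119 (nat_lit 41207445) (nat_lit 112411192) (nat_lit 0) (nat_lit 0x7cd477904) (nat_lit 742617599),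
  Rx.mk (nat_lit 193) (nat_lit 1) (nat_lit 0) (nat_lit 3) (nat_lit 5) (nat_lit 127) (nat_lit 123) r1_127 r1_123 (nat_lit 0) (nat_lit 24741287) (nat_lit 0) (nat_lit 0x8017985b4) (nat_lit 561612199),
  Rx.mk (nat_lit 216) (nat_lit 0) (nat_lit 3) (nat_lit 3) (nat_lit 6) (nat_lit 128) (nat_lit 120) r1_128 r1_120 (nat_lit 27831261) (nat_lit 0) (nat_lit 0) (nat_lit 0x7f26f387a) (nat_lit 579564373),
  Rx.mk (nat_lit 217) (nat_lit 1) (nat_lit 3) (nat_lit 3) (nat_lit 7) (nat_lit 129) (nat_lit 124) r1_129 r1_124 (nat_lit 0) (nat_lit 0) (nat_lit 0) (nat_lit 0x8017985b4) (nat_lit 536870912),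
  Rx.mk (nat_lit 219) (nat_lit 3) (nat_lit 3) (nat_lit 3) (nat_lit 7) (nat_lit 130) (nat_lit 125) r1_130 r1_125 (nat_lit 0) (nat_lit 0) (nat_lit 0) (nat_lit 0x8017985b4) (nat_lit 536870912)]
noncomputable def e14_2 : List Rx := [
  Rx.mk (nat_lit 64) (nat_lit 0) (nat_lit 0) (nat_lit 1) (nat_lit 4) (nat_lit 258) (nat_lit 115) r1_258 r2_115 (nat_lit 62162713) (nat_lit 69955890) (nat_lit 0) (nat_lit 0x67d3cb8d0) (nat_lit 1060595215),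
  Rx.mk (nat_lit 65) (nat_lit 1) (nat_lit 0) (nat_lit 1) (nat_lit 5) (nat_lit 259) (nat_lit 116) r1_259 r2_116 (nat_lit 0) (nat_lit 24741287) (nat_lit 0) (nat_lit 0x8017985b4) (nat_lit 561612199),
  Rx.mk (nat_lit 66) (nat_lit 2) (nat_lit 0) (nat_lit 1) (nat_lit 5) (nat_lit 260) (nat_lit 117) r1_260 r2_117 (nat_lit 0) (nat_lit 25157357) (nat_lit 0) (nat_lit 0x800ccd3b4) (nat_lit 562687369),
  Rx.mk (nat_lit 82) (nat_lit 2) (nat_lit 2) (nat_lit 1) (nat_lit 7) (nat_lit 261) (nat_lit 118) r1_261 r2_118 (nat_lit 0) (nat_lit 0) (nat_lit 0) (nat_lit 0x8017985b4) (nat_lit 536870912)]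
noncomputable def e14_3 : List Rx := [
  Rx.mk (nat_lit 192) (nat_lit 0) (nat_lit 0) (nat_lit 3) (nat_lit 4) (nat_lit 39) (nat_lit 104) r1_39 r3_104 (nat_lit 4286) (nat_lit 10635) (nat_lit 0) (nat_lit 0x80094492c) (nat_lit 536338983),
  Rx.mk (nat_lit 193) (nat_lit 1) (nat_lit 0) (nat_lit 3) (nat_lit 5) (nat_lit 40) (nat_lit 107) r1_40 r3_107 (nat_lit 0) (nat_lit 15940000) (nat_lit 0) (nat_lit 0x805843974) (nat_lit 548544762),
  Rx.mk (nat_lit 194) (nat_lit 2) (nat_lit 0) (nat_lit 3) (nat_lit 5) (nat_lit 41) (nat_lit 112) r1_41 r3_112 (nat_lit 0) (nat_lit 7553870) (nat_lit 0) (nat_lit 0x7902075f8) (nat_lit 658039182),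
  Rx.mk (nat_lit 210) (nat_lit 2) (nat_lit 2) (nat_lit 3) (nat_lit 7) (nat_lit 42) (nat_lit 114) r1_42 r3_114 (nat_lit 0) (nat_lit 0) (nat_lit 0) (nat_lit 0x80556b2ba) (nat_lit 532838362),
  Rx.mk (nat_lit 216) (nat_lit 0) (nat_lit 3) (nat_lit 3) (nat_lit 6) (nat_lit 43) (nat_lit 105) r1_43 r3_105 (nat_lit 2704556) (nat_lit 0) (nat_lit 0) (nat_lit 0x7c015df14) (nat_lit 604691568),
  Rx.mk (nat_lit 217) (nat_lit 1) (nat_lit 3) (nat_lit 3) (nat_lit 7) (nat_lit 44) (nat_lit 108) r1_44 r3_108 (nat_lit 0) (nat_lit 0) (nat_lit 0) (nat_lit 0x80652468e) (nat_lit 532033562),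
  Rx.mk (nat_lit 218) (nat_lit 2) (nat_lit 3) (nat_lit 3) (nat_lit 7) (nat_lit 45) (nat_lit 113) r1_45 r3_113 (nat_lit 0) (nat_lit 0) (nat_lit 0) (nat_lit 0x7fd885e1c) (nat_lit 540659262),
  Rx.mk (nat_lit 472) (nat_lit 0) (nat_lit 3) (nat_lit 7) (nat_lit 6) (nat_lit 46) (nat_lit 106) r1_46 r3_106 (nat_lit 47983) (nat_lit 0) (nat_lit 0) (nat_lit 0x75459b28c) (nat_lit 710414795),
  Rx.mk (nat_lit 473) (nat_lit 1) (nat_lit 3) (nat_lit 7) (nat_lit 7) (nat_lit 47) (nat_lit 109) r1_47 r3_109 (nat_lit 0) (nat_lit 0) (nat_lit 0) (nat_lit 0x8b1948f84) (nat_lit 368104412),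
  Rx.mk (nat_lit 475) (nat_lit 3) (nat_lit 3) (nat_lit 7) (nat_lit 7) (nat_lit 48) (nat_lit 110) r1_48 r3_110 (nat_lit 0) (nat_lit 0) (nat_lit 0) (nat_lit 0x80a93acb0) (nat_lit 527952812),
  Rx.mk (nat_lit 507) (nat_lit 3) (nat_lit 7) (nat_lit 7) (nat_lit 7) (nat_lit 49) (nat_lit 111) r1_49 r3_111 (nat_lit 0) (nat_lit 0) (nat_lit 0) (nat_lit 0x805620b38) (nat_lit 533027112)]
noncomputable def e14_4 : List Rx := [
  Rx.mk (nat_lit 192) (nat_lit 0) (nat_lit 0) (nat_lit 3) (nat_lit 4) (nat_lit 154) (nat_lit 107) r1_154 r4_107 (nat_lit 13326467) (nat_lit 159743199) (nat_lit 0) (nat_lit 0x73d78693c) (nat_lit 907207678),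
  Rx.mk (nat_lit 193) (nat_lit 1) (nat_lit 0) (nat_lit 3) (nat_lit 5) (nat_lit 155) (nat_lit 109) r1_155 r4_109 (nat_lit 0) (nat_lit 26051565) (nat_lit 0) (nat_lit 0x8064f5dac) (nat_lit 558163527),
  Rx.mk (nat_lit 194) (nat_lit 2) (nat_lit 0) (nat_lit 3) (nat_lit 5) (nat_lit 156) (nat_lit 111) r1_156 r4_111 (nat_lit 0) (nat_lit 26855787) (nat_lit 0) (nat_lit 0x80aa4da94) (nat_lit 554718499),
  Rx.mk (nat_lit 210) (nat_lit 2) (nat_lit 2) (nat_lit 3) (nat_lit 7) (nat_lit 157) (nat_lit 113) r1_157 r4_113 (nat_lit 0) (nat_lit 0) (nat_lit 0) (nat_lit 0x8017985b4) (nat_lit 536870912),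
  Rx.mk (nat_lit 216) (nat_lit 0) (nat_lit 3) (nat_lit 3) (nat_lit 6) (nat_lit 158) (nat_lit 108) r1_158 r4_108 (nat_lit 21535191) (nat_lit 0) (nat_lit 0) (nat_lit 0x7c291a87c) (nat_lit 621319503),
  Rx.mk (nat_lit 217) (nat_lit 1) (nat_lit 3) (nat_lit 3) (nat_lit 7) (nat_lit 159) (nat_lit 110) r1_159 r4_110 (nat_lit 0) (nat_lit 0) (nat_lit 0) (nat_lit 0x807893f76) (nat_lit 530914262),
  Rx.mk (nat_lit 218) (nat_lit 2) (nat_lit 3) (nat_lit 3) (nat_lit 7) (nat_lit 160) (nat_lit 112) r1_160 r4_112 (nat_lit 0) (nat_lit 0) (nat_lit 0) (nat_lit 0x8039d0276) (nat_lit 534761612)]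
noncomputable def e14_5 : List Rx := [
  Rx.mk (nat_lit 192) (nat_lit 0) (nat_lit 0) (nat_lit 3) (nat_lit 4) (nat_lit 225) (nat_lit 106) r1_225 r5_106 (nat_lit 1138385) (nat_lit 183334041) (nat_lit 0) (nat_lit 0x858f1770c) (nat_lit 636880238),
  Rx.mk (nat_lit 193) (nat_lit 1) (nat_lit 0) (nat_lit 3) (nat_lit 5) (nat_lit 226) (nat_lit 109) r1_226 r5_109 (nat_lit 0) (nat_lit 20365735) (nat_lit 0) (nat_lit 0x82689a0c8) (nat_lit 521307397),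
  Rx.mk (nat_lit 194) (nat_lit 2) (nat_lit 0) (nat_lit 3) (nat_lit 5) (nat_lit 227) (nat_lit 113) r1_227 r5_113 (nat_lit 0) (nat_lit 34273461) (nat_lit 0) (nat_lit 0x80eb8917a) (nat_lit 558087723),
  Rx.mk (nat_lit 210) (nat_lit 2) (nat_lit 2) (nat_lit 3) (nat_lit 7) (nat_lit 228) (nat_lit 114) r1_228 r5_114 (nat_lit 0) (nat_lit 0) (nat_lit 0) (nat_lit 0x80759d768) (nat_lit 530997812),
  Rx.mk (nat_lit 448) (nat_lit 0) (nat_lit 0) (nat_lit 7) (nat_lit 4) (nat_lit 229) (nat_lit 107) r1_229 r5_107 (nat_lit 3281434) (nat_lit 5641616) (nat_lit 0) (nat_lit 0x6d31d3d56) (nat_lit 850354662),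
  Rx.mk (nat_lit 449) (nat_lit 1) (nat_lit 0) (nat_lit 7) (nat_lit 5) (nat_lit 230) (nat_lit 110) r1_230 r5_110 (nat_lit 0) (nat_lit 14046649) (nat_lit 0) (nat_lit 0x808591f7a) (nat_lit 544109911),
  Rx.mk (nat_lit 472) (nat_lit 0) (nat_lit 3) (nat_lit 7) (nat_lit 6) (nat_lit 231) (nat_lit 108) r1_231 r5_108 (nat_lit 13555305) (nat_lit 0) (nat_lit 0) (nat_lit 0x7b2b08126) (nat_lit 629326967),
  Rx.mk (nat_lit 473) (nat_lit 1) (nat_lit 3) (nat_lit 7) (nat_lit 7) (nat_lit 232) (nat_lit 111) r1_232 r5_111 (nat_lit 0) (nat_lit 0) (nat_lit 0) (nat_lit 0x8017985b4) (nat_lit 536870912),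
  Rx.mk (nat_lit 475) (nat_lit 3) (nat_lit 3) (nat_lit 7) (nat_lit 7) (nat_lit 233) (nat_lit 112) r1_233 r5_112 (nat_lit 0) (nat_lit 0) (nat_lit 0) (nat_lit 0x8017985b4) (nat_lit 536870912)]
noncomputable def e14_6 : List Rx := [
  Rx.mk (nat_lit 257) (nat_lit 1) (nat_lit 0) (nat_lit 4) (nat_lit 1) (nat_lit 293) (nat_lit 151) r1_293 r3_151 (nat_lit 0) (nat_lit 11530) (nat_lit 12607) (nat_lit 0x8001f4cc6) (nat_lit 536785599),
  Rx.mk (nat_lit 281) (nat_lit 1) (nat_lit 3) (nat_lit 4) (nat_lit 3) (nat_lit 294) (nat_lit 153) r1_294 r3_153 (nat_lit 0) (nat_lit 0) (nat_lit 10831797) (nat_lit 0x81a17f3bc) (nat_lit 523520059),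
  Rx.mk (nat_lit 321) (nat_lit 1) (nat_lit 0) (nat_lit 5) (nat_lit 5) (nat_lit 295) (nat_lit 152) r1_295 r3_152 (nat_lit 0) (nat_lit 220600) (nat_lit 0) (nat_lit 0x7fe1be20e) (nat_lit 539042412),
  Rx.mk (nat_lit 345) (nat_lit 1) (nat_lit 3) (nat_lit 5) (nat_lit 7) (nat_lit 296) (nat_lit 154) r1_296 r3_154 (nat_lit 0) (nat_lit 0) (nat_lit 0) (nat_lit 0x8071f5700) (nat_lit 530794662)]
noncomputable def e14_7 : List Rx := [
  Rx.mk (nat_lit 321) (nat_lit 1) (nat_lit 0) (nat_lit 5) (nat_lit 5) (nat_lit 255) (nat_lit 173) r1_255 r0_173 (nat_lit 0) (nat_lit 106862022) (nat_lit 0) (nat_lit 0x7ee0fa15c) (nat_lit 662779834)]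
noncomputable def e14_8 : List Rx := [
  Rx.mk (nat_lit 65) (nat_lit 1) (nat_lit 0) (nat_lit 1) (nat_lit 5) (nat_lit 272) (nat_lit 186) r1_272 r1_186 (nat_lit 0) (nat_lit 25191095) (nat_lit 0) (nat_lit 0x7f94f86e0) (nat_lit 570102157),
  Rx.mk (nat_lit 321) (nat_lit 1) (nat_lit 0) (nat_lit 5) (nat_lit 5) (nat_lit 273) (nat_lit 185) r1_273 r1_185 (nat_lit 0) (nat_lit 27314648) (nat_lit 0) (nat_lit 0x7fc62ebb0) (nat_lit 569113310)]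
noncomputable def e14_9 : List Rx := [
  Rx.mk (nat_lit 321) (nat_lit 1) (nat_lit 0) (nat_lit 5) (nat_lit 5) (nat_lit 305) (nat_lit 159) r1_305 r4_159 (nat_lit 0) (nat_lit 25741495) (nat_lit 0) (nat_lit 0x7f774491e) (nat_lit 572424907),
  Rx.mk (nat_lit 345) (nat_lit 1) (nat_lit 3) (nat_lit 5) (nat_lit 7) (nat_lit 306) (nat_lit 160) r1_306 r4_160 (nat_lit 0) (nat_lit 0) (nat_lit 0) (nat_lit 0x80964275c) (nat_lit 529102962)]
noncomputable def e14_10 : List Rx := [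
  Rx.mk (nat_lit 281) (nat_lit 1) (nat_lit 3) (nat_lit 4) (nat_lit 3) (nat_lit 246) (nat_lit 117) r1_246 r6_117 (nat_lit 0) (nat_lit 0) (nat_lit 4579048) (nat_lit 0x829e4386e) (nat_lit 502034860),
  Rx.mk (nat_lit 449) (nat_lit 1) (nat_lit 0) (nat_lit 7) (nat_lit 5) (nat_lit 247) (nat_lit 116) r1_247 r6_116 (nat_lit 0) (nat_lit 2146916) (nat_lit 0) (nat_lit 0x832861f50) (nat_lit 491234428),
  Rx.mk (nat_lit 473) (nat_lit 1) (nat_lit 3) (nat_lit 7) (nat_lit 7) (nat_lit 248) (nat_lit 118) r1_248 r6_118 (nat_lit 0) (nat_lit 0) (nat_lit 0) (nat_lit 0x80c3cc614) (nat_lit 526329562)]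
noncomputable def e14_11 : List Rx := [
  Rx.mk (nat_lit 257) (nat_lit 1) (nat_lit 0) (nat_lit 4) (nat_lit 1) (nat_lit 311) (nat_lit 164) r1_311 r5_164 (nat_lit 0) (nat_lit 8816353) (nat_lit 14978700) (nat_lit 0x6ec49af3a) (nat_lit 839845015),
  Rx.mk (nat_lit 281) (nat_lit 1) (nat_lit 3) (nat_lit 4) (nat_lit 3) (nat_lit 312) (nat_lit 167) r1_312 r5_167 (nat_lit 0) (nat_lit 0) (nat_lit 20400359) (nat_lit 0x8039ecd5e) (nat_lit 555033421),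
  Rx.mk (nat_lit 321) (nat_lit 1) (nat_lit 0) (nat_lit 5) (nat_lit 5) (nat_lit 313) (nat_lit 165) r1_313 r5_165 (nat_lit 0) (nat_lit 20314026) (nat_lit 0) (nat_lit 0x80db604a6) (nat_lit 545190438),
  Rx.mk (nat_lit 345) (nat_lit 1) (nat_lit 3) (nat_lit 5) (nat_lit 7) (nat_lit 314) (nat_lit 168) r1_314 r5_168 (nat_lit 0) (nat_lit 0) (nat_lit 0) (nat_lit 0x8095f8012) (nat_lit 529083662),
  Rx.mk (nat_lit 449) (nat_lit 1) (nat_lit 0) (nat_lit 7) (nat_lit 5) (nat_lit 315) (nat_lit 166) r1_315 r5_166 (nat_lit 0) (nat_lit 6296235) (nat_lit 0) (nat_lit 0x7df201f0a) (nat_lit 577066447)]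
noncomputable def e14_12 : List Rx := [
  Rx.mk (nat_lit 18) (nat_lit 2) (nat_lit 2) (nat_lit 0) (nat_lit 3) (nat_lit 0) (nat_lit 22) r1_0 r0_22 (nat_lit 0) (nat_lit 0) (nat_lit 23596477) (nat_lit 0x69c6e3bc0) (nat_lit 920472039),
  Rx.mk (nat_lit 146) (nat_lit 2) (nat_lit 2) (nat_lit 2) (nat_lit 7) (nat_lit 1) (nat_lit 29) r1_1 r0_29 (nat_lit 0) (nat_lit 0) (nat_lit 0) (nat_lit 0x807eeb3e2) (nat_lit 530392612),
  Rx.mk (nat_lit 192) (nat_lit 0) (nat_lit 0) (nat_lit 3) (nat_lit 4) (nat_lit 2) (nat_lit 23) r1_2 r0_23 (nat_lit 3151689) (nat_lit 5604383) (nat_lit 0) (nat_lit 0x6d7564e26) (nat_lit 845928484),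
  Rx.mk (nat_lit 194) (nat_lit 2) (nat_lit 0) (nat_lit 3) (nat_lit 5) (nat_lit 3) (nat_lit 24) r1_3 r0_24 (nat_lit 0) (nat_lit 22794505) (nat_lit 0) (nat_lit 0x7f395dd58) (nat_lit 573339467),
  Rx.mk (nat_lit 210) (nat_lit 2) (nat_lit 2) (nat_lit 3) (nat_lit 7) (nat_lit 4) (nat_lit 28) r1_4 r0_28 (nat_lit 0) (nat_lit 0) (nat_lit 0) (nat_lit 0x87136526a) (nat_lit 429577662),
  Rx.mk (nat_lit 216) (nat_lit 0) (nat_lit 3) (nat_lit 3) (nat_lit 6) (nat_lit 5) (nat_lit 25) r1_5 r0_25 (nat_lit 8756247) (nat_lit 0) (nat_lit 0) (nat_lit 0x7bbb71c80) (nat_lit 615374609),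
  Rx.mk (nat_lit 218) (nat_lit 2) (nat_lit 3) (nat_lit 3) (nat_lit 7) (nat_lit 6) (nat_lit 27) r1_6 r0_27 (nat_lit 0) (nat_lit 0) (nat_lit 0) (nat_lit 0x80362d196) (nat_lit 534989612),
  Rx.mk (nat_lit 219) (nat_lit 3) (nat_lit 3) (nat_lit 3) (nat_lit 7) (nat_lit 7) (nat_lit 26) r1_7 r0_26 (nat_lit 0) (nat_lit 0) (nat_lit 0) (nat_lit 0x801bfa5bc) (nat_lit 536589212),
  Rx.mk (nat_lit 475) (nat_lit 3) (nat_lit 3) (nat_lit 7) (nat_lit 7) (nat_lit 8) (nat_lit 21) r1_8 r0_21 (nat_lit 0) (nat_lit 0) (nat_lit 0) (nat_lit 0x807414446) (nat_lit 531187112),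
  Rx.mk (nat_lit 507) (nat_lit 3) (nat_lit 7) (nat_lit 7) (nat_lit 7) (nat_lit 9) (nat_lit 20) r1_9 r0_20 (nat_lit 0) (nat_lit 0) (nat_lit 0) (nat_lit 0x802da032a) (nat_lit 535514012)]
noncomputable def e14_13 : List Rx := [
  Rx.mk (nat_lit 0) (nat_lit 0) (nat_lit 0) (nat_lit 0) (nat_lit 0) (nat_lit 107) (nat_lit 126) r1_107 r7_126 (nat_lit 6392816) (nat_lit 43642432) (nat_lit 5821095) (nat_lit 0x44a1c92b0) (nat_lit 1553277655),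
  Rx.mk (nat_lit 2) (nat_lit 2) (nat_lit 0) (nat_lit 0) (nat_lit 1) (nat_lit 108) (nat_lit 130) r1_108 r7_130 (nat_lit 0) (nat_lit 78119258) (nat_lit 35130887) (nat_lit 0x6d4852dd4) (nat_lit 953515857),
  Rx.mk (nat_lit 18) (nat_lit 2) (nat_lit 2) (nat_lit 0) (nat_lit 3) (nat_lit 109) (nat_lit 133) r1_109 r7_133 (nat_lit 0) (nat_lit 0) (nat_lit 21790589) (nat_lit 0x7f1945f52) (nat_lit 574322851),
  Rx.mk (nat_lit 146) (nat_lit 2) (nat_lit 2) (nat_lit 2) (nat_lit 7) (nat_lit 110) (nat_lit 135) r1_110 r7_135 (nat_lit 0) (nat_lit 0) (nat_lit 0) (nat_lit 0x8017985b4) (nat_lit 536870912),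
  Rx.mk (nat_lit 192) (nat_lit 0) (nat_lit 0) (nat_lit 3) (nat_lit 4) (nat_lit 111) (nat_lit 127) r1_111 r7_127 (nat_lit 15973405) (nat_lit 24461115) (nat_lit 0) (nat_lit 0x6bcc10498) (nat_lit 904689032),
  Rx.mk (nat_lit 194) (nat_lit 2) (nat_lit 0) (nat_lit 3) (nat_lit 5) (nat_lit 112) (nat_lit 131) r1_112 r7_131 (nat_lit 0) (nat_lit 24618950) (nat_lit 0) (nat_lit 0x80095eab6) (nat_lit 562360112),
  Rx.mk (nat_lit 210) (nat_lit 2) (nat_lit 2) (nat_lit 3) (nat_lit 7) (nat_lit 113) (nat_lit 134) r1_113 r7_134 (nat_lit 0) (nat_lit 0) (nat_lit 0) (nat_lit 0x80538fe0a) (nat_lit 533186112),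
  Rx.mk (nat_lit 216) (nat_lit 0) (nat_lit 3) (nat_lit 3) (nat_lit 6) (nat_lit 114) (nat_lit 128) r1_114 r7_128 (nat_lit 16486043) (nat_lit 0) (nat_lit 0) (nat_lit 0x7aed483a4) (nat_lit 636147005),
  Rx.mk (nat_lit 218) (nat_lit 2) (nat_lit 3) (nat_lit 3) (nat_lit 7) (nat_lit 115) (nat_lit 132) r1_115 r7_132 (nat_lit 0) (nat_lit 0) (nat_lit 0) (nat_lit 0x8017985b4) (nat_lit 536870912),
  Rx.mk (nat_lit 219) (nat_lit 3) (nat_lit 3) (nat_lit 3) (nat_lit 7) (nat_lit 116) (nat_lit 129) r1_116 r7_129 (nat_lit 0) (nat_lit 0) (nat_lit 0) (nat_lit 0x8017985b4) (nat_lit 536870912)]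
noncomputable def e14_14 : List Rx := [
  Rx.mk (nat_lit 18) (nat_lit 2) (nat_lit 2) (nat_lit 0) (nat_lit 3) (nat_lit 10) (nat_lit 20) r1_10 r1_20 (nat_lit 0) (nat_lit 0) (nat_lit 16883735) (nat_lit 0x6e23773e2) (nat_lit 843227197),
  Rx.mk (nat_lit 146) (nat_lit 2) (nat_lit 2) (nat_lit 2) (nat_lit 7) (nat_lit 11) (nat_lit 29) r1_11 r1_29 (nat_lit 0) (nat_lit 0) (nat_lit 0) (nat_lit 0x8082a427c) (nat_lit 530175062),
  Rx.mk (nat_lit 150) (nat_lit 6) (nat_lit 2) (nat_lit 2) (nat_lit 7) (nat_lit 12) (nat_lit 28) r1_12 r1_28 (nat_lit 0) (nat_lit 0) (nat_lit 0) (nat_lit 0x806110df4) (nat_lit 532352862),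
  Rx.mk (nat_lit 182) (nat_lit 6) (nat_lit 6) (nat_lit 2) (nat_lit 7) (nat_lit 13) (nat_lit 27) r1_13 r1_27 (nat_lit 0) (nat_lit 0) (nat_lit 0) (nat_lit 0x800f8b876) (nat_lit 537285412),
  Rx.mk (nat_lit 192) (nat_lit 0) (nat_lit 0) (nat_lit 3) (nat_lit 4) (nat_lit 14) (nat_lit 21) r1_14 r1_21 (nat_lit 48891) (nat_lit 58909) (nat_lit 0) (nat_lit 0x7cd668c7c) (nat_lit 588136762),
  Rx.mk (nat_lit 194) (nat_lit 2) (nat_lit 0) (nat_lit 3) (nat_lit 5) (nat_lit 15) (nat_lit 22) r1_15 r1_22 (nat_lit 0) (nat_lit 14214021) (nat_lit 0) (nat_lit 0x7fbeb8f98) (nat_lit 556417033),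
  Rx.mk (nat_lit 210) (nat_lit 2) (nat_lit 2) (nat_lit 3) (nat_lit 7) (nat_lit 16) (nat_lit 26) r1_16 r1_26 (nat_lit 0) (nat_lit 0) (nat_lit 0) (nat_lit 0x806722120) (nat_lit 530972362),
  Rx.mk (nat_lit 216) (nat_lit 0) (nat_lit 3) (nat_lit 3) (nat_lit 6) (nat_lit 17) (nat_lit 23) r1_17 r1_23 (nat_lit 76678) (nat_lit 0) (nat_lit 0) (nat_lit 0x8003c0140) (nat_lit 536772290),
  Rx.mk (nat_lit 218) (nat_lit 2) (nat_lit 3) (nat_lit 3) (nat_lit 7) (nat_lit 18) (nat_lit 25) r1_18 r1_25 (nat_lit 0) (nat_lit 0) (nat_lit 0) (nat_lit 0x806b840b0) (nat_lit 531718612),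
  Rx.mk (nat_lit 219) (nat_lit 3) (nat_lit 3) (nat_lit 3) (nat_lit 7) (nat_lit 19) (nat_lit 24) r1_19 r1_24 (nat_lit 0) (nat_lit 0) (nat_lit 0) (nat_lit 0x7fbfdde82) (nat_lit 542221012),
  Rx.mk (nat_lit 319) (nat_lit 7) (nat_lit 7) (nat_lit 4) (nat_lit 3) (nat_lit 20) (nat_lit 10) r1_20 r1_10 (nat_lit 0) (nat_lit 0) (nat_lit 16883735) (nat_lit 0x6e23773e2) (nat_lit 843227197),
  Rx.mk (nat_lit 420) (nat_lit 4) (nat_lit 4) (nat_lit 6) (nat_lit 4) (nat_lit 21) (nat_lit 14) r1_21 r1_14 (nat_lit 48891) (nat_lit 58909) (nat_lit 0) (nat_lit 0x7cd668c7c) (nat_lit 588136762),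
  Rx.mk (nat_lit 423) (nat_lit 7) (nat_lit 4) (nat_lit 6) (nat_lit 5) (nat_lit 22) (nat_lit 15) r1_22 r1_15 (nat_lit 0) (nat_lit 14214021) (nat_lit 0) (nat_lit 0x7fbeb8f98) (nat_lit 556417033),
  Rx.mk (nat_lit 436) (nat_lit 4) (nat_lit 6) (nat_lit 6) (nat_lit 6) (nat_lit 23) (nat_lit 17) r1_23 r1_17 (nat_lit 76678) (nat_lit 0) (nat_lit 0) (nat_lit 0x8003c0140) (nat_lit 536772290),
  Rx.mk (nat_lit 438) (nat_lit 6) (nat_lit 6) (nat_lit 6) (nat_lit 7) (nat_lit 24) (nat_lit 19) r1_24 r1_19 (nat_lit 0) (nat_lit 0) (nat_lit 0) (nat_lit 0x7fbfdde82) (nat_lit 542221012),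
  Rx.mk (nat_lit 439) (nat_lit 7) (nat_lit 6) (nat_lit 6) (nat_lit 7) (nat_lit 25) (nat_lit 18) r1_25 r1_18 (nat_lit 0) (nat_lit 0) (nat_lit 0) (nat_lit 0x806b840b0) (nat_lit 531718612),
  Rx.mk (nat_lit 447) (nat_lit 7) (nat_lit 7) (nat_lit 6) (nat_lit 7) (nat_lit 26) (nat_lit 16) r1_26 r1_16 (nat_lit 0) (nat_lit 0) (nat_lit 0) (nat_lit 0x806722120) (nat_lit 530972362),
  Rx.mk (nat_lit 475) (nat_lit 3) (nat_lit 3) (nat_lit 7) (nat_lit 7) (nat_lit 27) (nat_lit 13) r1_27 r1_13 (nat_lit 0) (nat_lit 0) (nat_lit 0) (nat_lit 0x800f8b876) (nat_lit 537285412),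
  Rx.mk (nat_lit 507) (nat_lit 3) (nat_lit 7) (nat_lit 7) (nat_lit 7) (nat_lit 28) (nat_lit 12) r1_28 r1_12 (nat_lit 0) (nat_lit 0) (nat_lit 0) (nat_lit 0x806110df4) (nat_lit 532352862),
  Rx.mk (nat_lit 511) (nat_lit 7) (nat_lit 7) (nat_lit 7) (nat_lit 7) (nat_lit 29) (nat_lit 11) r1_29 r1_11 (nat_lit 0) (nat_lit 0) (nat_lit 0) (nat_lit 0x8082a427c) (nat_lit 530175062)]
noncomputable def e14_15 : List Rx := [
  Rx.mk (nat_lit 0) (nat_lit 0) (nat_lit 0) (nat_lit 0) (nat_lit 0) (nat_lit 141) (nat_lit 90) r1_141 r8_90 (nat_lit 17944571) (nat_lit 116288395) (nat_lit 23009154) (nat_lit 0x447d83aae) (nat_lit 1657106532),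
  Rx.mk (nat_lit 2) (nat_lit 2) (nat_lit 0) (nat_lit 0) (nat_lit 1) (nat_lit 142) (nat_lit 94) r1_142 r8_94 (nat_lit 0) (nat_lit 50887267) (nat_lit 31282261) (nat_lit 0x6d657dd46) (nat_lit 920594840),
  Rx.mk (nat_lit 18) (nat_lit 2) (nat_lit 2) (nat_lit 0) (nat_lit 3) (nat_lit 143) (nat_lit 97) r1_143 r8_97 (nat_lit 0) (nat_lit 0) (nat_lit 29620562) (nat_lit 0x7f673ed30) (nat_lit 577332974),
  Rx.mk (nat_lit 146) (nat_lit 2) (nat_lit 2) (nat_lit 2) (nat_lit 7) (nat_lit 144) (nat_lit 99) r1_144 r8_99 (nat_lit 0) (nat_lit 0) (nat_lit 0) (nat_lit 0x8017985b4) (nat_lit 536870912),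
  Rx.mk (nat_lit 150) (nat_lit 6) (nat_lit 2) (nat_lit 2) (nat_lit 7) (nat_lit 145) (nat_lit 100) r1_145 r8_100 (nat_lit 0) (nat_lit 0) (nat_lit 0) (nat_lit 0x8017985b4) (nat_lit 536870912),
  Rx.mk (nat_lit 182) (nat_lit 6) (nat_lit 6) (nat_lit 2) (nat_lit 7) (nat_lit 146) (nat_lit 101) r1_146 r8_101 (nat_lit 0) (nat_lit 0) (nat_lit 0) (nat_lit 0x8017985b4) (nat_lit 536870912),
  Rx.mk (nat_lit 192) (nat_lit 0) (nat_lit 0) (nat_lit 3) (nat_lit 4) (nat_lit 147) (nat_lit 91) r1_147 r8_91 (nat_lit 24802758) (nat_lit 50885811) (nat_lit 0) (nat_lit 0x6b9ee1742) (nat_lit 942829831),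
  Rx.mk (nat_lit 194) (nat_lit 2) (nat_lit 0) (nat_lit 3) (nat_lit 5) (nat_lit 148) (nat_lit 95) r1_148 r8_95 (nat_lit 0) (nat_lit 24741287) (nat_lit 0) (nat_lit 0x8017985b4) (nat_lit 561612199),
  Rx.mk (nat_lit 210) (nat_lit 2) (nat_lit 2) (nat_lit 3) (nat_lit 7) (nat_lit 149) (nat_lit 98) r1_149 r8_98 (nat_lit 0) (nat_lit 0) (nat_lit 0) (nat_lit 0x8017985b4) (nat_lit 536870912),
  Rx.mk (nat_lit 216) (nat_lit 0) (nat_lit 3) (nat_lit 3) (nat_lit 6) (nat_lit 150) (nat_lit 92) r1_150 r8_92 (nat_lit 24952196) (nat_lit 0) (nat_lit 0) (nat_lit 0x7d5baea30) (nat_lit 605443508),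
  Rx.mk (nat_lit 218) (nat_lit 2) (nat_lit 3) (nat_lit 3) (nat_lit 7) (nat_lit 151) (nat_lit 96) r1_151 r8_96 (nat_lit 0) (nat_lit 0) (nat_lit 0) (nat_lit 0x8017985b4) (nat_lit 536870912),
  Rx.mk (nat_lit 219) (nat_lit 3) (nat_lit 3) (nat_lit 3) (nat_lit 7) (nat_lit 152) (nat_lit 93) r1_152 r8_93 (nat_lit 0) (nat_lit 0) (nat_lit 0) (nat_lit 0x8017985b4) (nat_lit 536870912)]
noncomputable def e14_16 : List Rx := [
  Rx.mk (nat_lit 0) (nat_lit 0) (nat_lit 0) (nat_lit 0) (nat_lit 0) (nat_lit 131) (nat_lit 15) r1_131 r8_15 (nat_lit 16366775) (nat_lit 78140221) (nat_lit 12570282) (nat_lit 0x42b179a90) (nat_lit 1635971940),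
  Rx.mk (nat_lit 2) (nat_lit 2) (nat_lit 0) (nat_lit 0) (nat_lit 1) (nat_lit 132) (nat_lit 16) r1_132 r8_16 (nat_lit 0) (nat_lit 44995829) (nat_lit 40466188) (nat_lit 0x6d2f8c872) (nat_lit 927296079),
  Rx.mk (nat_lit 18) (nat_lit 2) (nat_lit 2) (nat_lit 0) (nat_lit 3) (nat_lit 133) (nat_lit 17) r1_133 r8_17 (nat_lit 0) (nat_lit 0) (nat_lit 25986002) (nat_lit 0x7f21990dc) (nat_lit 578019064),
  Rx.mk (nat_lit 64) (nat_lit 0) (nat_lit 0) (nat_lit 1) (nat_lit 4) (nat_lit 134) (nat_lit 18) r1_134 r8_18 (nat_lit 46134325) (nat_lit 144484209) (nat_lit 0) (nat_lit 0x72b2fdad0) (nat_lit 943309946),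
  Rx.mk (nat_lit 66) (nat_lit 2) (nat_lit 0) (nat_lit 1) (nat_lit 5) (nat_lit 135) (nat_lit 19) r1_135 r8_19 (nat_lit 0) (nat_lit 24741287) (nat_lit 0) (nat_lit 0x8017985b4) (nat_lit 561612199),
  Rx.mk (nat_lit 82) (nat_lit 2) (nat_lit 2) (nat_lit 1) (nat_lit 7) (nat_lit 136) (nat_lit 20) r1_136 r8_20 (nat_lit 0) (nat_lit 0) (nat_lit 0) (nat_lit 0x8017985b4) (nat_lit 536870912),
  Rx.mk (nat_lit 146) (nat_lit 2) (nat_lit 2) (nat_lit 2) (nat_lit 7) (nat_lit 137) (nat_lit 24) r1_137 r8_24 (nat_lit 0) (nat_lit 0) (nat_lit 0) (nat_lit 0x8017985b4) (nat_lit 536870912),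
  Rx.mk (nat_lit 192) (nat_lit 0) (nat_lit 0) (nat_lit 3) (nat_lit 4) (nat_lit 138) (nat_lit 21) r1_138 r8_21 (nat_lit 31041958) (nat_lit 36913539) (nat_lit 0) (nat_lit 0x73f49b3ba) (nat_lit 800345659),
  Rx.mk (nat_lit 216) (nat_lit 0) (nat_lit 3) (nat_lit 3) (nat_lit 6) (nat_lit 139) (nat_lit 22) r1_139 r8_22 (nat_lit 19606239) (nat_lit 0) (nat_lit 0) (nat_lit 0x7f4c479c8) (nat_lit 568985001),
  Rx.mk (nat_lit 219) (nat_lit 3) (nat_lit 3) (nat_lit 3) (nat_lit 7) (nat_lit 140) (nat_lit 23) r1_140 r8_23 (nat_lit 0) (nat_lit 0) (nat_lit 0) (nat_lit 0x8017985b4) (nat_lit 536870912)]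
noncomputable def e14_17 : List Rx := [
  Rx.mk (nat_lit 64) (nat_lit 0) (nat_lit 0) (nat_lit 1) (nat_lit 4) (nat_lit 269) (nat_lit 83) r1_269 r9_83 (nat_lit 34355931) (nat_lit 134396714) (nat_lit 0) (nat_lit 0x734bda226) (nat_lit 911788807),
  Rx.mk (nat_lit 66) (nat_lit 2) (nat_lit 0) (nat_lit 1) (nat_lit 5) (nat_lit 270) (nat_lit 84) r1_270 r9_84 (nat_lit 0) (nat_lit 24741287) (nat_lit 0) (nat_lit 0x8008f717c) (nat_lit 562505199),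
  Rx.mk (nat_lit 82) (nat_lit 2) (nat_lit 2) (nat_lit 1) (nat_lit 7) (nat_lit 271) (nat_lit 85) r1_271 r9_85 (nat_lit 0) (nat_lit 0) (nat_lit 0) (nat_lit 0x8017985b4) (nat_lit 536870912)]
noncomputable def e14_18 : List Rx := [
  Rx.mk (nat_lit 192) (nat_lit 0) (nat_lit 0) (nat_lit 3) (nat_lit 4) (nat_lit 50) (nat_lit 16) r1_50 r4_16 (nat_lit 12415695) (nat_lit 67051359) (nat_lit 0) (nat_lit 0x6dd5f0330) (nat_lit 910715916),
  Rx.mk (nat_lit 194) (nat_lit 2) (nat_lit 0) (nat_lit 3) (nat_lit 5) (nat_lit 51) (nat_lit 17) r1_51 r4_17 (nat_lit 0) (nat_lit 32103431) (nat_lit 0) (nat_lit 0x7f4592056) (nat_lit 581897443),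
  Rx.mk (nat_lit 210) (nat_lit 2) (nat_lit 2) (nat_lit 3) (nat_lit 7) (nat_lit 52) (nat_lit 20) r1_52 r4_20 (nat_lit 0) (nat_lit 0) (nat_lit 0) (nat_lit 0x8256757bc) (nat_lit 501986312),
  Rx.mk (nat_lit 216) (nat_lit 0) (nat_lit 3) (nat_lit 3) (nat_lit 6) (nat_lit 53) (nat_lit 18) r1_53 r4_18 (nat_lit 18565138) (nat_lit 0) (nat_lit 0) (nat_lit 0x7e088a2e0) (nat_lit 588194500),
  Rx.mk (nat_lit 218) (nat_lit 2) (nat_lit 3) (nat_lit 3) (nat_lit 7) (nat_lit 54) (nat_lit 19) r1_54 r4_19 (nat_lit 0) (nat_lit 0) (nat_lit 0) (nat_lit 0x8017985b4) (nat_lit 536870912),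
  Rx.mk (nat_lit 472) (nat_lit 0) (nat_lit 3) (nat_lit 7) (nat_lit 6) (nat_lit 55) (nat_lit 14) r1_55 r4_14 (nat_lit 13824857) (nat_lit 0) (nat_lit 0) (nat_lit 0x8053119f6) (nat_lit 546991619),
  Rx.mk (nat_lit 475) (nat_lit 3) (nat_lit 3) (nat_lit 7) (nat_lit 7) (nat_lit 56) (nat_lit 15) r1_56 r4_15 (nat_lit 0) (nat_lit 0) (nat_lit 0) (nat_lit 0x8078ceb44) (nat_lit 530903862),
  Rx.mk (nat_lit 507) (nat_lit 3) (nat_lit 7) (nat_lit 7) (nat_lit 7) (nat_lit 57) (nat_lit 13) r1_57 r4_13 (nat_lit 0) (nat_lit 0) (nat_lit 0) (nat_lit 0x8007403f6) (nat_lit 537871262)]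
noncomputable def e14_19 : List Rx := [
  Rx.mk (nat_lit 192) (nat_lit 0) (nat_lit 0) (nat_lit 3) (nat_lit 4) (nat_lit 161) (nat_lit 96) r1_161 r10_96 (nat_lit 15183139) (nat_lit 22829563) (nat_lit 0) (nat_lit 0x6e1d4f8f2) (nat_lit 864770414),
  Rx.mk (nat_lit 194) (nat_lit 2) (nat_lit 0) (nat_lit 3) (nat_lit 5) (nat_lit 162) (nat_lit 98) r1_162 r10_98 (nat_lit 0) (nat_lit 24741287) (nat_lit 0) (nat_lit 0x7fca1d474) (nat_lit 566365499),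
  Rx.mk (nat_lit 210) (nat_lit 2) (nat_lit 2) (nat_lit 3) (nat_lit 7) (nat_lit 163) (nat_lit 100) r1_163 r10_100 (nat_lit 0) (nat_lit 0) (nat_lit 0) (nat_lit 0x8017985b4) (nat_lit 536870912),
  Rx.mk (nat_lit 216) (nat_lit 0) (nat_lit 3) (nat_lit 3) (nat_lit 6) (nat_lit 164) (nat_lit 97) r1_164 r10_97 (nat_lit 9818448) (nat_lit 0) (nat_lit 0) (nat_lit 0x77a95bc0c) (nat_lit 682197510),
  Rx.mk (nat_lit 218) (nat_lit 2) (nat_lit 3) (nat_lit 3) (nat_lit 7) (nat_lit 165) (nat_lit 99) r1_165 r10_99 (nat_lit 0) (nat_lit 0) (nat_lit 0) (nat_lit 0x804a4b9b6) (nat_lit 533752062)]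
noncomputable def e14_20 : List Rx := [
  Rx.mk (nat_lit 192) (nat_lit 0) (nat_lit 0) (nat_lit 3) (nat_lit 4) (nat_lit 234) (nat_lit 107) r1_234 r11_107 (nat_lit 26935402) (nat_lit 88719546) (nat_lit 0) (nat_lit 0x76bea858e) (nat_lit 802950560),
  Rx.mk (nat_lit 194) (nat_lit 2) (nat_lit 0) (nat_lit 3) (nat_lit 5) (nat_lit 235) (nat_lit 111) r1_235 r11_111 (nat_lit 0) (nat_lit 25084538) (nat_lit 0) (nat_lit 0x8001d6c6c) (nat_lit 563283450),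
  Rx.mk (nat_lit 210) (nat_lit 2) (nat_lit 2) (nat_lit 3) (nat_lit 7) (nat_lit 236) (nat_lit 112) r1_236 r11_112 (nat_lit 0) (nat_lit 0) (nat_lit 0) (nat_lit 0x81471cbfe) (nat_lit 518335312),
  Rx.mk (nat_lit 448) (nat_lit 0) (nat_lit 0) (nat_lit 7) (nat_lit 4) (nat_lit 237) (nat_lit 108) r1_237 r11_108 (nat_lit 45330043) (nat_lit 51763813) (nat_lit 0) (nat_lit 0x7bfdcf3ca) (nat_lit 699634368),
  Rx.mk (nat_lit 472) (nat_lit 0) (nat_lit 3) (nat_lit 7) (nat_lit 6) (nat_lit 238) (nat_lit 109) r1_238 r11_109 (nat_lit 24741287) (nat_lit 0) (nat_lit 0) (nat_lit 0x8017985b4) (nat_lit 561612199),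
  Rx.mk (nat_lit 475) (nat_lit 3) (nat_lit 3) (nat_lit 7) (nat_lit 7) (nat_lit 239) (nat_lit 110) r1_239 r11_110 (nat_lit 0) (nat_lit 0) (nat_lit 0) (nat_lit 0x8017985b4) (nat_lit 536870912)]
noncomputable def e14_21 : List Rx := [
  Rx.mk (nat_lit 64) (nat_lit 0) (nat_lit 0) (nat_lit 1) (nat_lit 4) (nat_lit 262) (nat_lit 160) r1_262 r9_160 (nat_lit 68973086) (nat_lit 38504019) (nat_lit 0) (nat_lit 0x645605570) (nat_lit 1092404867),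
  Rx.mk (nat_lit 65) (nat_lit 1) (nat_lit 0) (nat_lit 1) (nat_lit 5) (nat_lit 263) (nat_lit 161) r1_263 r9_161 (nat_lit 0) (nat_lit 24741287) (nat_lit 0) (nat_lit 0x8004fdb2a) (nat_lit 562749199),
  Rx.mk (nat_lit 66) (nat_lit 2) (nat_lit 0) (nat_lit 1) (nat_lit 5) (nat_lit 264) (nat_lit 162) r1_264 r9_162 (nat_lit 0) (nat_lit 24741287) (nat_lit 0) (nat_lit 0x8017985b4) (nat_lit 561612199),
  Rx.mk (nat_lit 72) (nat_lit 0) (nat_lit 1) (nat_lit 1) (nat_lit 6) (nat_lit 265) (nat_lit 163) r1_265 r9_163 (nat_lit 24741287) (nat_lit 0) (nat_lit 0) (nat_lit 0x8017985b4) (nat_lit 561612199),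
  Rx.mk (nat_lit 73) (nat_lit 1) (nat_lit 1) (nat_lit 1) (nat_lit 7) (nat_lit 266) (nat_lit 164) r1_266 r9_164 (nat_lit 0) (nat_lit 0) (nat_lit 0) (nat_lit 0x8017985b4) (nat_lit 536870912),
  Rx.mk (nat_lit 74) (nat_lit 2) (nat_lit 1) (nat_lit 1) (nat_lit 7) (nat_lit 267) (nat_lit 165) r1_267 r9_165 (nat_lit 0) (nat_lit 0) (nat_lit 0) (nat_lit 0x8017985b4) (nat_lit 536870912),
  Rx.mk (nat_lit 82) (nat_lit 2) (nat_lit 2) (nat_lit 1) (nat_lit 7) (nat_lit 268) (nat_lit 166) r1_268 r9_166 (nat_lit 0) (nat_lit 0) (nat_lit 0) (nat_lit 0x8017985b4) (nat_lit 536870912)]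
noncomputable def e14_22 : List Rx := [
  Rx.mk (nat_lit 265) (nat_lit 1) (nat_lit 1) (nat_lit 4) (nat_lit 3) (nat_lit 252) (nat_lit 282) r1_252 r0_282 (nat_lit 0) (nat_lit 0) (nat_lit 585345170) (nat_lit 0x801301b72) (nat_lit 1121100632),
  Rx.mk (nat_lit 321) (nat_lit 1) (nat_lit 0) (nat_lit 5) (nat_lit 5) (nat_lit 253) (nat_lit 283) r1_253 r0_283 (nat_lit 0) (nat_lit 24741287) (nat_lit 0) (nat_lit 0x7fb668af0) (nat_lit 567576349),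
  Rx.mk (nat_lit 329) (nat_lit 1) (nat_lit 1) (nat_lit 5) (nat_lit 7) (nat_lit 254) (nat_lit 284) r1_254 r0_284 (nat_lit 0) (nat_lit 0) (nat_lit 0) (nat_lit 0x7fcf556ee) (nat_lit 541249062)]
noncomputable def e14_23 : List Rx := [
  Rx.mk (nat_lit 265) (nat_lit 1) (nat_lit 1) (nat_lit 4) (nat_lit 3) (nat_lit 278) (nat_lit 278) r1_278 r1_278 (nat_lit 0) (nat_lit 0) (nat_lit 46726331) (nat_lit 0x7ff035c7e) (nat_lit 585800043),
  Rx.mk (nat_lit 329) (nat_lit 1) (nat_lit 1) (nat_lit 5) (nat_lit 7) (nat_lit 279) (nat_lit 279) r1_279 r1_279 (nat_lit 0) (nat_lit 0) (nat_lit 0) (nat_lit 0x8017985b4) (nat_lit 536870912)]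
noncomputable def e14_24 : List Rx := [
  Rx.mk (nat_lit 257) (nat_lit 1) (nat_lit 0) (nat_lit 4) (nat_lit 1) (nat_lit 297) (nat_lit 293) r1_297 r4_293 (nat_lit 0) (nat_lit 16666109) (nat_lit 79659509) (nat_lit 0x6e82c4200) (nat_lit 916697780),
  Rx.mk (nat_lit 265) (nat_lit 1) (nat_lit 1) (nat_lit 4) (nat_lit 3) (nat_lit 298) (nat_lit 294) r1_298 r4_294 (nat_lit 0) (nat_lit 0) (nat_lit 132162371) (nat_lit 0x7a51f7832) (nat_lit 761496733),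
  Rx.mk (nat_lit 281) (nat_lit 1) (nat_lit 3) (nat_lit 4) (nat_lit 3) (nat_lit 299) (nat_lit 295) r1_299 r4_295 (nat_lit 0) (nat_lit 0) (nat_lit 29428945) (nat_lit 0x800d7d0e8) (nat_lit 566895407),
  Rx.mk (nat_lit 321) (nat_lit 1) (nat_lit 0) (nat_lit 5) (nat_lit 5) (nat_lit 300) (nat_lit 296) r1_300 r4_296 (nat_lit 0) (nat_lit 21556671) (nat_lit 0) (nat_lit 0x801c58cca) (nat_lit 558112583),
  Rx.mk (nat_lit 329) (nat_lit 1) (nat_lit 1) (nat_lit 5) (nat_lit 7) (nat_lit 301) (nat_lit 297) r1_301 r4_297 (nat_lit 0) (nat_lit 0) (nat_lit 0) (nat_lit 0x80b000be4) (nat_lit 527525712),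
  Rx.mk (nat_lit 345) (nat_lit 1) (nat_lit 3) (nat_lit 5) (nat_lit 7) (nat_lit 302) (nat_lit 298) r1_302 r4_298 (nat_lit 0) (nat_lit 0) (nat_lit 0) (nat_lit 0x80691f28e) (nat_lit 531863312)]
noncomputable def e14_25 : List Rx := [
  Rx.mk (nat_lit 321) (nat_lit 1) (nat_lit 0) (nat_lit 5) (nat_lit 5) (nat_lit 256) (nat_lit 221) r1_256 r7_221 (nat_lit 0) (nat_lit 24741287) (nat_lit 0) (nat_lit 0x8017985b4) (nat_lit 561612199),
  Rx.mk (nat_lit 329) (nat_lit 1) (nat_lit 1) (nat_lit 5) (nat_lit 7) (nat_lit 257) (nat_lit 222) r1_257 r7_222 (nat_lit 0) (nat_lit 0) (nat_lit 0) (nat_lit 0x8017985b4) (nat_lit 536870912)]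
noncomputable def e14_26 : List Rx := [
  Rx.mk (nat_lit 329) (nat_lit 1) (nat_lit 1) (nat_lit 5) (nat_lit 7) (nat_lit 286) (nat_lit 180) r1_286 r8_180 (nat_lit 0) (nat_lit 0) (nat_lit 0) (nat_lit 0x8017985b4) (nat_lit 536870912)]
noncomputable def e14_27 : List Rx := [
  Rx.mk (nat_lit 65) (nat_lit 1) (nat_lit 0) (nat_lit 1) (nat_lit 5) (nat_lit 274) (nat_lit 316) r1_274 r8_316 (nat_lit 0) (nat_lit 24586055) (nat_lit 0) (nat_lit 0x80057ba20) (nat_lit 562565917),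
  Rx.mk (nat_lit 73) (nat_lit 1) (nat_lit 1) (nat_lit 1) (nat_lit 7) (nat_lit 275) (nat_lit 317) r1_275 r8_317 (nat_lit 0) (nat_lit 0) (nat_lit 0) (nat_lit 0x8017985b4) (nat_lit 536870912),
  Rx.mk (nat_lit 321) (nat_lit 1) (nat_lit 0) (nat_lit 5) (nat_lit 5) (nat_lit 276) (nat_lit 318) r1_276 r8_318 (nat_lit 0) (nat_lit 24741287) (nat_lit 0) (nat_lit 0x8017985b4) (nat_lit 561612199),
  Rx.mk (nat_lit 329) (nat_lit 1) (nat_lit 1) (nat_lit 5) (nat_lit 7) (nat_lit 277) (nat_lit 319) r1_277 r8_319 (nat_lit 0) (nat_lit 0) (nat_lit 0) (nat_lit 0x8017985b4) (nat_lit 536870912)]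
noncomputable def e14_28 : List Rx := [
  Rx.mk (nat_lit 321) (nat_lit 1) (nat_lit 0) (nat_lit 5) (nat_lit 5) (nat_lit 307) (nat_lit 172) r1_307 r10_172 (nat_lit 0) (nat_lit 24741287) (nat_lit 0) (nat_lit 0x8017985b4) (nat_lit 561612199),
  Rx.mk (nat_lit 329) (nat_lit 1) (nat_lit 1) (nat_lit 5) (nat_lit 7) (nat_lit 308) (nat_lit 173) r1_308 r10_173 (nat_lit 0) (nat_lit 0) (nat_lit 0) (nat_lit 0x8017985b4) (nat_lit 536870912),
  Rx.mk (nat_lit 345) (nat_lit 1) (nat_lit 3) (nat_lit 5) (nat_lit 7) (nat_lit 309) (nat_lit 174) r1_309 r10_174 (nat_lit 0) (nat_lit 0) (nat_lit 0) (nat_lit 0x8017985b4) (nat_lit 536870912)]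
noncomputable def e14_29 : List Rx := [
  Rx.mk (nat_lit 257) (nat_lit 1) (nat_lit 0) (nat_lit 4) (nat_lit 1) (nat_lit 316) (nat_lit 183) r1_316 r11_183 (nat_lit 0) (nat_lit 31169867) (nat_lit 115272517) (nat_lit 0x729ca1386) (nat_lit 900542746),
  Rx.mk (nat_lit 265) (nat_lit 1) (nat_lit 1) (nat_lit 4) (nat_lit 3) (nat_lit 317) (nat_lit 186) r1_317 r11_186 (nat_lit 0) (nat_lit 0) (nat_lit 39197522) (nat_lit 0x7db914fa8) (nat_lit 613796734),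
  Rx.mk (nat_lit 281) (nat_lit 1) (nat_lit 3) (nat_lit 4) (nat_lit 3) (nat_lit 318) (nat_lit 189) r1_318 r11_189 (nat_lit 0) (nat_lit 0) (nat_lit 24741287) (nat_lit 0x8017985b4) (nat_lit 561612199),
  Rx.mk (nat_lit 321) (nat_lit 1) (nat_lit 0) (nat_lit 5) (nat_lit 5) (nat_lit 319) (nat_lit 184) r1_319 r11_184 (nat_lit 0) (nat_lit 24741287) (nat_lit 0) (nat_lit 0x8017985b4) (nat_lit 561612199),
  Rx.mk (nat_lit 329) (nat_lit 1) (nat_lit 1) (nat_lit 5) (nat_lit 7) (nat_lit 320) (nat_lit 187) r1_320 r11_187 (nat_lit 0) (nat_lit 0) (nat_lit 0) (nat_lit 0x8017985b4) (nat_lit 536870912),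
  Rx.mk (nat_lit 345) (nat_lit 1) (nat_lit 3) (nat_lit 5) (nat_lit 7) (nat_lit 321) (nat_lit 190) r1_321 r11_190 (nat_lit 0) (nat_lit 0) (nat_lit 0) (nat_lit 0x8017985b4) (nat_lit 536870912),
  Rx.mk (nat_lit 449) (nat_lit 1) (nat_lit 0) (nat_lit 7) (nat_lit 5) (nat_lit 322) (nat_lit 185) r1_322 r11_185 (nat_lit 0) (nat_lit 24741287) (nat_lit 0) (nat_lit 0x8017985b4) (nat_lit 561612199),
  Rx.mk (nat_lit 457) (nat_lit 1) (nat_lit 1) (nat_lit 7) (nat_lit 7) (nat_lit 323) (nat_lit 188) r1_323 r11_188 (nat_lit 0) (nat_lit 0) (nat_lit 0) (nat_lit 0x81759db22) (nat_lit 515567712)]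
noncomputable def e14_30 : List Rx := [
  Rx.mk (nat_lit 216) (nat_lit 0) (nat_lit 3) (nat_lit 3) (nat_lit 6) (nat_lit 58) (nat_lit 11) r1_58 r5_11 (nat_lit 6051545) (nat_lit 0) (nat_lit 0) (nat_lit 0x72f5acc5a) (nat_lit 754383857),
  Rx.mk (nat_lit 217) (nat_lit 1) (nat_lit 3) (nat_lit 3) (nat_lit 7) (nat_lit 59) (nat_lit 12) r1_59 r5_12 (nat_lit 0) (nat_lit 0) (nat_lit 0) (nat_lit 0x814d8e96a) (nat_lit 517942162),
  Rx.mk (nat_lit 218) (nat_lit 2) (nat_lit 3) (nat_lit 3) (nat_lit 7) (nat_lit 60) (nat_lit 13) r1_60 r5_13 (nat_lit 0) (nat_lit 0) (nat_lit 0) (nat_lit 0x7fe62a1bc) (nat_lit 539838662),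
  Rx.mk (nat_lit 472) (nat_lit 0) (nat_lit 3) (nat_lit 7) (nat_lit 6) (nat_lit 61) (nat_lit 9) r1_61 r5_9 (nat_lit 3702159) (nat_lit 0) (nat_lit 0) (nat_lit 0x6eab69304) (nat_lit 821330421),
  Rx.mk (nat_lit 473) (nat_lit 1) (nat_lit 3) (nat_lit 7) (nat_lit 7) (nat_lit 62) (nat_lit 10) r1_62 r5_10 (nat_lit 0) (nat_lit 0) (nat_lit 0) (nat_lit 0x8270dea40) (nat_lit 500473562),
  Rx.mk (nat_lit 504) (nat_lit 0) (nat_lit 7) (nat_lit 7) (nat_lit 6) (nat_lit 63) (nat_lit 6) r1_63 r5_6 (nat_lit 10795266) (nat_lit 0) (nat_lit 0) (nat_lit 0x6d3a97438) (nat_lit 851857228),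
  Rx.mk (nat_lit 505) (nat_lit 1) (nat_lit 7) (nat_lit 7) (nat_lit 7) (nat_lit 64) (nat_lit 7) r1_64 r5_7 (nat_lit 0) (nat_lit 0) (nat_lit 0) (nat_lit 0x8038a520c) (nat_lit 534837962),
  Rx.mk (nat_lit 507) (nat_lit 3) (nat_lit 7) (nat_lit 7) (nat_lit 7) (nat_lit 65) (nat_lit 8) r1_65 r5_8 (nat_lit 0) (nat_lit 0) (nat_lit 0) (nat_lit 0x8009d4658) (nat_lit 537721562)]
noncomputable def e14_31 : List Rx := [
  Rx.mk (nat_lit 216) (nat_lit 0) (nat_lit 3) (nat_lit 3) (nat_lit 6) (nat_lit 166) (nat_lit 2) r1_166 r11_2 (nat_lit 24107596) (nat_lit 0) (nat_lit 0) (nat_lit 0x800249f8c) (nat_lit 562289358),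
  Rx.mk (nat_lit 217) (nat_lit 1) (nat_lit 3) (nat_lit 3) (nat_lit 7) (nat_lit 167) (nat_lit 3) r1_167 r11_3 (nat_lit 0) (nat_lit 0) (nat_lit 0) (nat_lit 0x8017985b4) (nat_lit 536870912),
  Rx.mk (nat_lit 218) (nat_lit 2) (nat_lit 3) (nat_lit 3) (nat_lit 7) (nat_lit 168) (nat_lit 4) r1_168 r11_4 (nat_lit 0) (nat_lit 0) (nat_lit 0) (nat_lit 0x8017985b4) (nat_lit 536870912)]
noncomputable def e14_32 : List Rx := [
  Rx.mk (nat_lit 281) (nat_lit 1) (nat_lit 3) (nat_lit 4) (nat_lit 3) (nat_lit 240) (nat_lit 299) r1_240 r6_299 (nat_lit 0) (nat_lit 0) (nat_lit 861113) (nat_lit 0x81f140aa4) (nat_lit 508285625),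
  Rx.mk (nat_lit 313) (nat_lit 1) (nat_lit 7) (nat_lit 4) (nat_lit 3) (nat_lit 241) (nat_lit 298) r1_241 r6_298 (nat_lit 0) (nat_lit 0) (nat_lit 15511582) (nat_lit 0x81bcd1ade) (nat_lit 526733344)]
noncomputable def e14_33 : List Rx := [
  Rx.mk (nat_lit 281) (nat_lit 1) (nat_lit 3) (nat_lit 4) (nat_lit 3) (nat_lit 303) (nat_lit 273) r1_303 r5_273 (nat_lit 0) (nat_lit 0) (nat_lit 15528047) (nat_lit 0x815c32e9e) (nat_lit 532577559),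
  Rx.mk (nat_lit 345) (nat_lit 1) (nat_lit 3) (nat_lit 5) (nat_lit 7) (nat_lit 304) (nat_lit 274) r1_304 r5_274 (nat_lit 0) (nat_lit 0) (nat_lit 0) (nat_lit 0x825a7268a) (nat_lit 501688462)]
noncomputable def e14_34 : List Rx := [
  Rx.mk (nat_lit 345) (nat_lit 1) (nat_lit 3) (nat_lit 5) (nat_lit 7) (nat_lit 310) (nat_lit 338) r1_310 r11_338 (nat_lit 0) (nat_lit 0) (nat_lit 0) (nat_lit 0x8017985b4) (nat_lit 536870912)]
noncomputable def e14_35 : List Rx := [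
  Rx.mk (nat_lit 313) (nat_lit 1) (nat_lit 7) (nat_lit 4) (nat_lit 3) (nat_lit 88) (nat_lit 57) r1_88 r6_57 (nat_lit 0) (nat_lit 0) (nat_lit 14248724) (nat_lit 0x80a26753c) (nat_lit 542542486),
  Rx.mk (nat_lit 473) (nat_lit 1) (nat_lit 3) (nat_lit 7) (nat_lit 7) (nat_lit 89) (nat_lit 56) r1_89 r6_56 (nat_lit 0) (nat_lit 0) (nat_lit 0) (nat_lit 0x8954d7890) (nat_lit 395152462),
  Rx.mk (nat_lit 505) (nat_lit 1) (nat_lit 7) (nat_lit 7) (nat_lit 7) (nat_lit 90) (nat_lit 58) r1_90 r6_58 (nat_lit 0) (nat_lit 0) (nat_lit 0) (nat_lit 0x80add07a2) (nat_lit 527662962)]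
noncomputable def e14_36 : List Rx := [
  Rx.mk (nat_lit 281) (nat_lit 1) (nat_lit 3) (nat_lit 4) (nat_lit 3) (nat_lit 249) (nat_lit 109) r1_249 r12_109 (nat_lit 0) (nat_lit 0) (nat_lit 188525) (nat_lit 0x82e82ffae) (nat_lit 492764987),
  Rx.mk (nat_lit 313) (nat_lit 1) (nat_lit 7) (nat_lit 4) (nat_lit 3) (nat_lit 250) (nat_lit 111) r1_250 r12_111 (nat_lit 0) (nat_lit 0) (nat_lit 20432270) (nat_lit 0x807054a04) (nat_lit 551662282),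
  Rx.mk (nat_lit 473) (nat_lit 1) (nat_lit 3) (nat_lit 7) (nat_lit 7) (nat_lit 251) (nat_lit 110) r1_251 r12_110 (nat_lit 0) (nat_lit 0) (nat_lit 0) (nat_lit 0x8ee42ae52) (nat_lit 310307562)]
noncomputable def e14_37 : List Rx := [
  Rx.mk (nat_lit 289) (nat_lit 1) (nat_lit 4) (nat_lit 4) (nat_lit 1) (nat_lit 179) (nat_lit 269) r1_179 r0_269 (nat_lit 0) (nat_lit 62636) (nat_lit 1205034172) (nat_lit 0x802a2cad6) (nat_lit 1739481320),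
  Rx.mk (nat_lit 293) (nat_lit 5) (nat_lit 4) (nat_lit 4) (nat_lit 1) (nat_lit 180) (nat_lit 265) r1_180 r0_265 (nat_lit 0) (nat_lit 14461079) (nat_lit 67542365) (nat_lit 0x5cc089d90) (nat_lit 1189508356),
  Rx.mk (nat_lit 297) (nat_lit 1) (nat_lit 5) (nat_lit 4) (nat_lit 3) (nat_lit 181) (nat_lit 270) r1_181 r0_270 (nat_lit 0) (nat_lit 0) (nat_lit 72480076) (nat_lit 0x7991dfe78) (nat_lit 713984088),
  Rx.mk (nat_lit 301) (nat_lit 5) (nat_lit 5) (nat_lit 4) (nat_lit 3) (nat_lit 182) (nat_lit 266) r1_182 r0_266 (nat_lit 0) (nat_lit 0) (nat_lit 30433232) (nat_lit 0x7d7bf805c) (nat_lit 608923094),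
  Rx.mk (nat_lit 317) (nat_lit 5) (nat_lit 7) (nat_lit 4) (nat_lit 3) (nat_lit 183) (nat_lit 267) r1_183 r0_267 (nat_lit 0) (nat_lit 0) (nat_lit 99141069) (nat_lit 0x7f0a1588e) (nat_lit 652491131),
  Rx.mk (nat_lit 509) (nat_lit 5) (nat_lit 7) (nat_lit 7) (nat_lit 7) (nat_lit 184) (nat_lit 268) r1_184 r0_268 (nat_lit 0) (nat_lit 0) (nat_lit 0) (nat_lit 0x7c86d8338) (nat_lit 593842712)]
noncomputable def e14_38 : List Rx := [
  Rx.mk (nat_lit 317) (nat_lit 5) (nat_lit 7) (nat_lit 4) (nat_lit 3) (nat_lit 69) (nat_lit 76) r1_69 r0_76 (nat_lit 0) (nat_lit 0) (nat_lit 21882932) (nat_lit 0x7e18dc364) (nat_lit 590459594),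
  Rx.mk (nat_lit 421) (nat_lit 5) (nat_lit 4) (nat_lit 6) (nat_lit 5) (nat_lit 70) (nat_lit 75) r1_70 r0_75 (nat_lit 0) (nat_lit 11807158) (nat_lit 0) (nat_lit 0x7ffe24146) (nat_lit 550115770),
  Rx.mk (nat_lit 445) (nat_lit 5) (nat_lit 7) (nat_lit 6) (nat_lit 7) (nat_lit 71) (nat_lit 78) r1_71 r0_78 (nat_lit 0) (nat_lit 0) (nat_lit 0) (nat_lit 0x8272ee83a) (nat_lit 500330612),
  Rx.mk (nat_lit 509) (nat_lit 5) (nat_lit 7) (nat_lit 7) (nat_lit 7) (nat_lit 72) (nat_lit 77) r1_72 r0_77 (nat_lit 0) (nat_lit 0) (nat_lit 0) (nat_lit 0x8008dd830) (nat_lit 537772712)]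
noncomputable def e14_39 : List Rx := [
  Rx.mk (nat_lit 293) (nat_lit 5) (nat_lit 4) (nat_lit 4) (nat_lit 1) (nat_lit 192) (nat_lit 381) r1_192 r7_381 (nat_lit 0) (nat_lit 16757287) (nat_lit 25112477) (nat_lit 0x6c3762d4a) (nat_lit 899304226),
  Rx.mk (nat_lit 301) (nat_lit 5) (nat_lit 5) (nat_lit 4) (nat_lit 3) (nat_lit 193) (nat_lit 382) r1_193 r7_382 (nat_lit 0) (nat_lit 0) (nat_lit 25314926) (nat_lit 0x7f9e34eca) (nat_lit 569620288),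
  Rx.mk (nat_lit 317) (nat_lit 5) (nat_lit 7) (nat_lit 4) (nat_lit 3) (nat_lit 194) (nat_lit 383) r1_194 r7_383 (nat_lit 0) (nat_lit 0) (nat_lit 30395325) (nat_lit 0x809096c2c) (nat_lit 559824137),
  Rx.mk (nat_lit 421) (nat_lit 5) (nat_lit 4) (nat_lit 6) (nat_lit 5) (nat_lit 195) (nat_lit 385) r1_195 r7_385 (nat_lit 0) (nat_lit 19851321) (nat_lit 0) (nat_lit 0x80224bf92) (nat_lit 556043533),
  Rx.mk (nat_lit 429) (nat_lit 5) (nat_lit 5) (nat_lit 6) (nat_lit 7) (nat_lit 196) (nat_lit 386) r1_196 r7_386 (nat_lit 0) (nat_lit 0) (nat_lit 0) (nat_lit 0x8017985b4) (nat_lit 536870912),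
  Rx.mk (nat_lit 445) (nat_lit 5) (nat_lit 7) (nat_lit 6) (nat_lit 7) (nat_lit 197) (nat_lit 387) r1_197 r7_387 (nat_lit 0) (nat_lit 0) (nat_lit 0) (nat_lit 0x8017985b4) (nat_lit 536870912),
  Rx.mk (nat_lit 509) (nat_lit 5) (nat_lit 7) (nat_lit 7) (nat_lit 7) (nat_lit 198) (nat_lit 384) r1_198 r7_384 (nat_lit 0) (nat_lit 0) (nat_lit 0) (nat_lit 0x8018dbc28) (nat_lit 536671062)]
noncomputable def e14_40 : List Rx := [
  Rx.mk (nat_lit 182) (nat_lit 6) (nat_lit 6) (nat_lit 2) (nat_lit 7) (nat_lit 30) (nat_lit 81) r1_30 r2_81 (nat_lit 0) (nat_lit 0) (nat_lit 0) (nat_lit 0x8017985b4) (nat_lit 536870912),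
  Rx.mk (nat_lit 316) (nat_lit 4) (nat_lit 7) (nat_lit 4) (nat_lit 2) (nat_lit 31) (nat_lit 76) r1_31 r2_76 (nat_lit 19918432) (nat_lit 0) (nat_lit 28114446) (nat_lit 0x712066600) (nat_lit 826141340),
  Rx.mk (nat_lit 319) (nat_lit 7) (nat_lit 7) (nat_lit 4) (nat_lit 3) (nat_lit 32) (nat_lit 77) r1_32 r2_77 (nat_lit 0) (nat_lit 0) (nat_lit 35404402) (nat_lit 0x7ebadf3d2) (nat_lit 593887464),
  Rx.mk (nat_lit 420) (nat_lit 4) (nat_lit 4) (nat_lit 6) (nat_lit 4) (nat_lit 33) (nat_lit 75) r1_33 r2_75 (nat_lit 23439880) (nat_lit 29030061) (nat_lit 0) (nat_lit 0x6ea7937fc) (nat_lit 870542453),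
  Rx.mk (nat_lit 436) (nat_lit 4) (nat_lit 6) (nat_lit 6) (nat_lit 6) (nat_lit 34) (nat_lit 82) r1_34 r2_82 (nat_lit 24741287) (nat_lit 0) (nat_lit 0) (nat_lit 0x800662966) (nat_lit 562664999),
  Rx.mk (nat_lit 438) (nat_lit 6) (nat_lit 6) (nat_lit 6) (nat_lit 7) (nat_lit 35) (nat_lit 83) r1_35 r2_83 (nat_lit 0) (nat_lit 0) (nat_lit 0) (nat_lit 0x8017985b4) (nat_lit 536870912),
  Rx.mk (nat_lit 444) (nat_lit 4) (nat_lit 7) (nat_lit 6) (nat_lit 6) (nat_lit 36) (nat_lit 79) r1_36 r2_79 (nat_lit 12320371) (nat_lit 0) (nat_lit 0) (nat_lit 0x80de8e3da) (nat_lit 537025133),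
  Rx.mk (nat_lit 447) (nat_lit 7) (nat_lit 7) (nat_lit 6) (nat_lit 7) (nat_lit 37) (nat_lit 80) r1_37 r2_80 (nat_lit 0) (nat_lit 0) (nat_lit 0) (nat_lit 0x804b9beec) (nat_lit 533672912),
  Rx.mk (nat_lit 511) (nat_lit 7) (nat_lit 7) (nat_lit 7) (nat_lit 7) (nat_lit 38) (nat_lit 78) r1_38 r2_78 (nat_lit 0) (nat_lit 0) (nat_lit 0) (nat_lit 0x8017985b4) (nat_lit 536870912)]
noncomputable def e14_41 : List Rx := [
  Rx.mk (nat_lit 182) (nat_lit 6) (nat_lit 6) (nat_lit 2) (nat_lit 7) (nat_lit 169) (nat_lit 47) r1_169 r9_47 (nat_lit 0) (nat_lit 0) (nat_lit 0) (nat_lit 0x8017985b4) (nat_lit 536870912),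
  Rx.mk (nat_lit 292) (nat_lit 4) (nat_lit 4) (nat_lit 4) (nat_lit 0) (nat_lit 170) (nat_lit 40) r1_170 r9_40 (nat_lit 24261554) (nat_lit 49328540) (nat_lit 56659484) (nat_lit 0x3f56488d6) (nat_lit 1713461290),
  Rx.mk (nat_lit 316) (nat_lit 4) (nat_lit 7) (nat_lit 4) (nat_lit 2) (nat_lit 171) (nat_lit 42) r1_171 r9_42 (nat_lit 26252196) (nat_lit 0) (nat_lit 43212165) (nat_lit 0x6d3fdbff2) (nat_lit 910271473),
  Rx.mk (nat_lit 319) (nat_lit 7) (nat_lit 7) (nat_lit 4) (nat_lit 3) (nat_lit 172) (nat_lit 43) r1_172 r9_43 (nat_lit 0) (nat_lit 0) (nat_lit 35087009) (nat_lit 0x7eb627b3c) (nat_lit 593834521),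
  Rx.mk (nat_lit 420) (nat_lit 4) (nat_lit 4) (nat_lit 6) (nat_lit 4) (nat_lit 173) (nat_lit 41) r1_173 r9_41 (nat_lit 27290911) (nat_lit 32551245) (nat_lit 0) (nat_lit 0x6e1360b66) (nat_lit 887289868),
  Rx.mk (nat_lit 436) (nat_lit 4) (nat_lit 6) (nat_lit 6) (nat_lit 6) (nat_lit 174) (nat_lit 48) r1_174 r9_48 (nat_lit 24741287) (nat_lit 0) (nat_lit 0) (nat_lit 0x8004104a6) (nat_lit 562806149),
  Rx.mk (nat_lit 438) (nat_lit 6) (nat_lit 6) (nat_lit 6) (nat_lit 7) (nat_lit 175) (nat_lit 49) r1_175 r9_49 (nat_lit 0) (nat_lit 0) (nat_lit 0) (nat_lit 0x8017985b4) (nat_lit 536870912),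
  Rx.mk (nat_lit 444) (nat_lit 4) (nat_lit 7) (nat_lit 6) (nat_lit 6) (nat_lit 176) (nat_lit 45) r1_176 r9_45 (nat_lit 24741287) (nat_lit 0) (nat_lit 0) (nat_lit 0x8017985b4) (nat_lit 561612199),
  Rx.mk (nat_lit 447) (nat_lit 7) (nat_lit 7) (nat_lit 6) (nat_lit 7) (nat_lit 177) (nat_lit 46) r1_177 r9_46 (nat_lit 0) (nat_lit 0) (nat_lit 0) (nat_lit 0x8017985b4) (nat_lit 536870912),
  Rx.mk (nat_lit 511) (nat_lit 7) (nat_lit 7) (nat_lit 7) (nat_lit 7) (nat_lit 178) (nat_lit 44) r1_178 r9_44 (nat_lit 0) (nat_lit 0) (nat_lit 0) (nat_lit 0x7ed9f7242) (nat_lit 556534462)]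
noncomputable def e14_42 : List Rx := [
  Rx.mk (nat_lit 182) (nat_lit 6) (nat_lit 6) (nat_lit 2) (nat_lit 7) (nat_lit 153) (nat_lit 1) r1_153 r9_1 (nat_lit 0) (nat_lit 0) (nat_lit 0) (nat_lit 0x8017985b4) (nat_lit 536870912)]
noncomputable def e14_43 : List Rx := [
  Rx.mk (nat_lit 316) (nat_lit 4) (nat_lit 7) (nat_lit 4) (nat_lit 2) (nat_lit 73) (nat_lit 75) r1_73 r1_75 (nat_lit 15490975) (nat_lit 0) (nat_lit 31186734) (nat_lit 0x737c3593e) (nat_lit 786645371),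
  Rx.mk (nat_lit 317) (nat_lit 5) (nat_lit 7) (nat_lit 4) (nat_lit 3) (nat_lit 74) (nat_lit 76) r1_74 r1_76 (nat_lit 0) (nat_lit 0) (nat_lit 21613846) (nat_lit 0x803338576) (nat_lit 556779258),
  Rx.mk (nat_lit 420) (nat_lit 4) (nat_lit 4) (nat_lit 6) (nat_lit 4) (nat_lit 75) (nat_lit 73) r1_75 r1_73 (nat_lit 15490975) (nat_lit 31186734) (nat_lit 0) (nat_lit 0x737c3593e) (nat_lit 786645371),
  Rx.mk (nat_lit 421) (nat_lit 5) (nat_lit 4) (nat_lit 6) (nat_lit 5) (nat_lit 76) (nat_lit 74) r1_76 r1_74 (nat_lit 0) (nat_lit 21613846) (nat_lit 0) (nat_lit 0x803338576) (nat_lit 556779258),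
  Rx.mk (nat_lit 436) (nat_lit 4) (nat_lit 6) (nat_lit 6) (nat_lit 6) (nat_lit 77) (nat_lit 82) r1_77 r1_82 (nat_lit 24482746) (nat_lit 0) (nat_lit 0) (nat_lit 0x7fe0acf14) (nat_lit 564715758),
  Rx.mk (nat_lit 437) (nat_lit 5) (nat_lit 6) (nat_lit 6) (nat_lit 7) (nat_lit 78) (nat_lit 83) r1_78 r1_83 (nat_lit 0) (nat_lit 0) (nat_lit 0) (nat_lit 0x8017985b4) (nat_lit 536870912),
  Rx.mk (nat_lit 438) (nat_lit 6) (nat_lit 6) (nat_lit 6) (nat_lit 7) (nat_lit 79) (nat_lit 84) r1_79 r1_84 (nat_lit 0) (nat_lit 0) (nat_lit 0) (nat_lit 0x8017985b4) (nat_lit 536870912),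
  Rx.mk (nat_lit 444) (nat_lit 4) (nat_lit 7) (nat_lit 6) (nat_lit 6) (nat_lit 80) (nat_lit 80) r1_80 r1_80 (nat_lit 11124082) (nat_lit 0) (nat_lit 0) (nat_lit 0x80f4f92b4) (nat_lit 534436844),
  Rx.mk (nat_lit 445) (nat_lit 5) (nat_lit 7) (nat_lit 6) (nat_lit 7) (nat_lit 81) (nat_lit 81) r1_81 r1_81 (nat_lit 0) (nat_lit 0) (nat_lit 0) (nat_lit 0x808fc0672) (nat_lit 529500412),
  Rx.mk (nat_lit 508) (nat_lit 4) (nat_lit 7) (nat_lit 7) (nat_lit 6) (nat_lit 82) (nat_lit 77) r1_82 r1_77 (nat_lit 24482746) (nat_lit 0) (nat_lit 0) (nat_lit 0x7fe0acf14) (nat_lit 564715758),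
  Rx.mk (nat_lit 509) (nat_lit 5) (nat_lit 7) (nat_lit 7) (nat_lit 7) (nat_lit 83) (nat_lit 78) r1_83 r1_78 (nat_lit 0) (nat_lit 0) (nat_lit 0) (nat_lit 0x8017985b4) (nat_lit 536870912),
  Rx.mk (nat_lit 511) (nat_lit 7) (nat_lit 7) (nat_lit 7) (nat_lit 7) (nat_lit 84) (nat_lit 79) r1_84 r1_79 (nat_lit 0) (nat_lit 0) (nat_lit 0) (nat_lit 0x8017985b4) (nat_lit 536870912)]
noncomputable def e14_44 : List Rx := [
  Rx.mk (nat_lit 292) (nat_lit 4) (nat_lit 4) (nat_lit 4) (nat_lit 0) (nat_lit 201) (nat_lit 283) r1_201 r8_283 (nat_lit 11826643) (nat_lit 20700425) (nat_lit 34852659) (nat_lit 0x3dc59600a) (nat_lit 1675850589),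
  Rx.mk (nat_lit 293) (nat_lit 5) (nat_lit 4) (nat_lit 4) (nat_lit 1) (nat_lit 202) (nat_lit 289) r1_202 r8_289 (nat_lit 0) (nat_lit 32376877) (nat_lit 29801349) (nat_lit 0x669a3f496) (nat_lit 1010443188),
  Rx.mk (nat_lit 301) (nat_lit 5) (nat_lit 5) (nat_lit 4) (nat_lit 3) (nat_lit 203) (nat_lit 290) r1_203 r8_290 (nat_lit 0) (nat_lit 0) (nat_lit 25018304) (nat_lit 0x7fdcdbf2a) (nat_lit 565476766),
  Rx.mk (nat_lit 316) (nat_lit 4) (nat_lit 7) (nat_lit 4) (nat_lit 2) (nat_lit 204) (nat_lit 284) r1_204 r8_284 (nat_lit 26799246) (nat_lit 0) (nat_lit 57475971) (nat_lit 0x672d75b5c) (nat_lit 1023262029),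
  Rx.mk (nat_lit 317) (nat_lit 5) (nat_lit 7) (nat_lit 4) (nat_lit 3) (nat_lit 205) (nat_lit 291) r1_205 r8_291 (nat_lit 0) (nat_lit 0) (nat_lit 25047671) (nat_lit 0x804337652) (nat_lit 559218933),
  Rx.mk (nat_lit 420) (nat_lit 4) (nat_lit 4) (nat_lit 6) (nat_lit 4) (nat_lit 206) (nat_lit 286) r1_206 r8_286 (nat_lit 31654428) (nat_lit 33972801) (nat_lit 0) (nat_lit 0x6c187865a) (nat_lit 925088641),
  Rx.mk (nat_lit 421) (nat_lit 5) (nat_lit 4) (nat_lit 6) (nat_lit 5) (nat_lit 207) (nat_lit 293) r1_207 r8_293 (nat_lit 0) (nat_lit 25834482) (nat_lit 0) (nat_lit 0x7f77d0d42) (nat_lit 572534144),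
  Rx.mk (nat_lit 429) (nat_lit 5) (nat_lit 5) (nat_lit 6) (nat_lit 7) (nat_lit 208) (nat_lit 294) r1_208 r8_294 (nat_lit 0) (nat_lit 0) (nat_lit 0) (nat_lit 0x8017985b4) (nat_lit 536870912),
  Rx.mk (nat_lit 436) (nat_lit 4) (nat_lit 6) (nat_lit 6) (nat_lit 6) (nat_lit 209) (nat_lit 288) r1_209 r8_288 (nat_lit 24741287) (nat_lit 0) (nat_lit 0) (nat_lit 0x8017985b4) (nat_lit 561612199),
  Rx.mk (nat_lit 437) (nat_lit 5) (nat_lit 6) (nat_lit 6) (nat_lit 7) (nat_lit 210) (nat_lit 296) r1_210 r8_296 (nat_lit 0) (nat_lit 0) (nat_lit 0) (nat_lit 0x8017985b4) (nat_lit 536870912),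
  Rx.mk (nat_lit 438) (nat_lit 6) (nat_lit 6) (nat_lit 6) (nat_lit 7) (nat_lit 211) (nat_lit 298) r1_211 r8_298 (nat_lit 0) (nat_lit 0) (nat_lit 0) (nat_lit 0x8017985b4) (nat_lit 536870912),
  Rx.mk (nat_lit 444) (nat_lit 4) (nat_lit 7) (nat_lit 6) (nat_lit 6) (nat_lit 212) (nat_lit 287) r1_212 r8_287 (nat_lit 24741287) (nat_lit 0) (nat_lit 0) (nat_lit 0x8017985b4) (nat_lit 561612199),
  Rx.mk (nat_lit 445) (nat_lit 5) (nat_lit 7) (nat_lit 6) (nat_lit 7) (nat_lit 213) (nat_lit 295) r1_213 r8_295 (nat_lit 0) (nat_lit 0) (nat_lit 0) (nat_lit 0x8017985b4) (nat_lit 536870912),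
  Rx.mk (nat_lit 508) (nat_lit 4) (nat_lit 7) (nat_lit 7) (nat_lit 6) (nat_lit 214) (nat_lit 285) r1_214 r8_285 (nat_lit 25082552) (nat_lit 0) (nat_lit 0) (nat_lit 0x71434a6d0) (nat_lit 800991214),
  Rx.mk (nat_lit 509) (nat_lit 5) (nat_lit 7) (nat_lit 7) (nat_lit 7) (nat_lit 215) (nat_lit 292) r1_215 r8_292 (nat_lit 0) (nat_lit 0) (nat_lit 0) (nat_lit 0x808e1a7dc) (nat_lit 529571662),
  Rx.mk (nat_lit 511) (nat_lit 7) (nat_lit 7) (nat_lit 7) (nat_lit 7) (nat_lit 216) (nat_lit 297) r1_216 r8_297 (nat_lit 0) (nat_lit 0) (nat_lit 0) (nat_lit 0x7ed9578a0) (nat_lit 556568262)]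
noncomputable def e14_45 : List Rx := [
  Rx.mk (nat_lit 297) (nat_lit 1) (nat_lit 5) (nat_lit 4) (nat_lit 3) (nat_lit 185) (nat_lit 273) r1_185 r1_273 (nat_lit 0) (nat_lit 0) (nat_lit 27314648) (nat_lit 0x7fc62ebb0) (nat_lit 569113310),
  Rx.mk (nat_lit 301) (nat_lit 5) (nat_lit 5) (nat_lit 4) (nat_lit 3) (nat_lit 186) (nat_lit 272) r1_186 r1_272 (nat_lit 0) (nat_lit 0) (nat_lit 25191095) (nat_lit 0x7f94f86e0) (nat_lit 570102157)]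
noncomputable def e14_46 : List Rx := [
  Rx.mk (nat_lit 265) (nat_lit 1) (nat_lit 1) (nat_lit 4) (nat_lit 3) (nat_lit 280) (nat_lit 298) r1_280 r2_298 (nat_lit 0) (nat_lit 0) (nat_lit 34697810) (nat_lit 0x7fda33674) (nat_lit 575291622),
  Rx.mk (nat_lit 297) (nat_lit 1) (nat_lit 5) (nat_lit 4) (nat_lit 3) (nat_lit 281) (nat_lit 297) r1_281 r2_297 (nat_lit 0) (nat_lit 0) (nat_lit 24741287) (nat_lit 0x80411f176) (nat_lit 559058049),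
  Rx.mk (nat_lit 301) (nat_lit 5) (nat_lit 5) (nat_lit 4) (nat_lit 3) (nat_lit 282) (nat_lit 295) r1_282 r2_295 (nat_lit 0) (nat_lit 0) (nat_lit 24741287) (nat_lit 0x8017985b4) (nat_lit 561612199),
  Rx.mk (nat_lit 329) (nat_lit 1) (nat_lit 1) (nat_lit 5) (nat_lit 7) (nat_lit 283) (nat_lit 300) r1_283 r2_300 (nat_lit 0) (nat_lit 0) (nat_lit 0) (nat_lit 0x8017985b4) (nat_lit 536870912),
  Rx.mk (nat_lit 361) (nat_lit 1) (nat_lit 5) (nat_lit 5) (nat_lit 7) (nat_lit 284) (nat_lit 299) r1_284 r2_299 (nat_lit 0) (nat_lit 0) (nat_lit 0) (nat_lit 0x8017985b4) (nat_lit 536870912),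
  Rx.mk (nat_lit 365) (nat_lit 5) (nat_lit 5) (nat_lit 5) (nat_lit 7) (nat_lit 285) (nat_lit 296) r1_285 r2_296 (nat_lit 0) (nat_lit 0) (nat_lit 0) (nat_lit 0x8017985b4) (nat_lit 536870912)]
noncomputable def e14_47 : List Rx := [
  Rx.mk (nat_lit 301) (nat_lit 5) (nat_lit 5) (nat_lit 4) (nat_lit 3) (nat_lit 199) (nat_lit 66) r1_199 r8_66 (nat_lit 0) (nat_lit 0) (nat_lit 24741287) (nat_lit 0x8001ac32c) (nat_lit 562953699),
  Rx.mk (nat_lit 429) (nat_lit 5) (nat_lit 5) (nat_lit 6) (nat_lit 7) (nat_lit 200) (nat_lit 67) r1_200 r8_67 (nat_lit 0) (nat_lit 0) (nat_lit 0) (nat_lit 0x8017985b4) (nat_lit 536870912)]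
noncomputable def e14_48 : List Rx := [
  Rx.mk (nat_lit 301) (nat_lit 5) (nat_lit 5) (nat_lit 4) (nat_lit 3) (nat_lit 290) (nat_lit 286) r1_290 r9_286 (nat_lit 0) (nat_lit 0) (nat_lit 24741287) (nat_lit 0x7fa9dd1b4) (nat_lit 568325299),
  Rx.mk (nat_lit 365) (nat_lit 5) (nat_lit 5) (nat_lit 5) (nat_lit 7) (nat_lit 291) (nat_lit 287) r1_291 r9_287 (nat_lit 0) (nat_lit 0) (nat_lit 0) (nat_lit 0x8017985b4) (nat_lit 536870912),
  Rx.mk (nat_lit 429) (nat_lit 5) (nat_lit 5) (nat_lit 6) (nat_lit 7) (nat_lit 292) (nat_lit 288) r1_292 r9_288 (nat_lit 0) (nat_lit 0) (nat_lit 0) (nat_lit 0x8017985b4) (nat_lit 536870912)]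
noncomputable def e14_49 : List Rx := [
  Rx.mk (nat_lit 329) (nat_lit 1) (nat_lit 1) (nat_lit 5) (nat_lit 7) (nat_lit 287) (nat_lit 290) r1_287 r9_290 (nat_lit 0) (nat_lit 0) (nat_lit 0) (nat_lit 0x8017985b4) (nat_lit 536870912),
  Rx.mk (nat_lit 361) (nat_lit 1) (nat_lit 5) (nat_lit 5) (nat_lit 7) (nat_lit 288) (nat_lit 291) r1_288 r9_291 (nat_lit 0) (nat_lit 0) (nat_lit 0) (nat_lit 0x8017985b4) (nat_lit 536870912),
  Rx.mk (nat_lit 365) (nat_lit 5) (nat_lit 5) (nat_lit 5) (nat_lit 7) (nat_lit 289) (nat_lit 292) r1_289 r9_292 (nat_lit 0) (nat_lit 0) (nat_lit 0) (nat_lit 0x8017985b4) (nat_lit 536870912)]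
noncomputable def e14_50 : List Rx := [
  Rx.mk (nat_lit 313) (nat_lit 1) (nat_lit 7) (nat_lit 4) (nat_lit 3) (nat_lit 66) (nat_lit 264) r1_66 r3_264 (nat_lit 0) (nat_lit 0) (nat_lit 15428) (nat_lit 0x81eea1d52) (nat_lit 507420490),
  Rx.mk (nat_lit 317) (nat_lit 5) (nat_lit 7) (nat_lit 4) (nat_lit 3) (nat_lit 67) (nat_lit 262) r1_67 r3_262 (nat_lit 0) (nat_lit 0) (nat_lit 187256) (nat_lit 0x7e7e37ede) (nat_lit 561441168),
  Rx.mk (nat_lit 509) (nat_lit 5) (nat_lit 7) (nat_lit 7) (nat_lit 7) (nat_lit 68) (nat_lit 263) r1_68 r3_263 (nat_lit 0) (nat_lit 0) (nat_lit 0) (nat_lit 0x802f26848) (nat_lit 535238762)]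
noncomputable def e14_51 : List Rx := [
  Rx.mk (nat_lit 289) (nat_lit 1) (nat_lit 4) (nat_lit 4) (nat_lit 1) (nat_lit 187) (nat_lit 281) r1_187 r4_281 (nat_lit 0) (nat_lit 12745069) (nat_lit 131619701) (nat_lit 0x669364acc) (nat_lit 1092912382),
  Rx.mk (nat_lit 297) (nat_lit 1) (nat_lit 5) (nat_lit 4) (nat_lit 3) (nat_lit 188) (nat_lit 282) r1_188 r4_282 (nat_lit 0) (nat_lit 0) (nat_lit 25655830) (nat_lit 0x7fff0d792) (nat_lit 563934392),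
  Rx.mk (nat_lit 313) (nat_lit 1) (nat_lit 7) (nat_lit 4) (nat_lit 3) (nat_lit 189) (nat_lit 283) r1_189 r4_283 (nat_lit 0) (nat_lit 0) (nat_lit 277566866) (nat_lit 0x7d3bb22a4) (nat_lit 859858978),
  Rx.mk (nat_lit 317) (nat_lit 5) (nat_lit 7) (nat_lit 4) (nat_lit 3) (nat_lit 190) (nat_lit 279) r1_190 r4_279 (nat_lit 0) (nat_lit 0) (nat_lit 124425147) (nat_lit 0x7ecc4e244) (nat_lit 681601709),
  Rx.mk (nat_lit 509) (nat_lit 5) (nat_lit 7) (nat_lit 7) (nat_lit 7) (nat_lit 191) (nat_lit 280) r1_191 r4_280 (nat_lit 0) (nat_lit 0) (nat_lit 0) (nat_lit 0x80304a1b6) (nat_lit 535245512)]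
noncomputable def e14_52 : List Rx := [
  Rx.mk (nat_lit 313) (nat_lit 1) (nat_lit 7) (nat_lit 4) (nat_lit 3) (nat_lit 242) (nat_lit 268) r1_242 r5_268 (nat_lit 0) (nat_lit 0) (nat_lit 100423417) (nat_lit 0x83d8b6e82) (nat_lit 579086629),
  Rx.mk (nat_lit 317) (nat_lit 5) (nat_lit 7) (nat_lit 4) (nat_lit 3) (nat_lit 243) (nat_lit 267) r1_243 r5_267 (nat_lit 0) (nat_lit 0) (nat_lit 91702614) (nat_lit 0x80aaf72a6) (nat_lit 619301176)]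
noncomputable def e14_53 : List Rx := [
  Rx.mk (nat_lit 317) (nat_lit 5) (nat_lit 7) (nat_lit 4) (nat_lit 3) (nat_lit 85) (nat_lit 71) r1_85 r4_71 (nat_lit 0) (nat_lit 0) (nat_lit 18076853) (nat_lit 0x7feb22318) (nat_lit 557573915),
  Rx.mk (nat_lit 445) (nat_lit 5) (nat_lit 7) (nat_lit 6) (nat_lit 7) (nat_lit 86) (nat_lit 73) r1_86 r4_73 (nat_lit 0) (nat_lit 0) (nat_lit 0) (nat_lit 0x8445fa28c) (nat_lit 472429712),
  Rx.mk (nat_lit 509) (nat_lit 5) (nat_lit 7) (nat_lit 7) (nat_lit 7) (nat_lit 87) (nat_lit 72) r1_87 r4_72 (nat_lit 0) (nat_lit 0) (nat_lit 0) (nat_lit 0x8017985b4) (nat_lit 536870912)]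
noncomputable def e14_54 : List Rx := [
  Rx.mk (nat_lit 317) (nat_lit 5) (nat_lit 7) (nat_lit 4) (nat_lit 3) (nat_lit 217) (nat_lit 314) r1_217 r10_314 (nat_lit 0) (nat_lit 0) (nat_lit 25153554) (nat_lit 0x80e8b8eaa) (nat_lit 549278466),
  Rx.mk (nat_lit 445) (nat_lit 5) (nat_lit 7) (nat_lit 6) (nat_lit 7) (nat_lit 218) (nat_lit 316) r1_218 r10_316 (nat_lit 0) (nat_lit 0) (nat_lit 0) (nat_lit 0x8017985b4) (nat_lit 536870912),
  Rx.mk (nat_lit 509) (nat_lit 5) (nat_lit 7) (nat_lit 7) (nat_lit 7) (nat_lit 219) (nat_lit 315) r1_219 r10_315 (nat_lit 0) (nat_lit 0) (nat_lit 0) (nat_lit 0x81b14ef04) (nat_lit 511970262)]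
noncomputable def e14_55 : List Rx := [
  Rx.mk (nat_lit 317) (nat_lit 5) (nat_lit 7) (nat_lit 4) (nat_lit 3) (nat_lit 244) (nat_lit 333) r1_244 r11_333 (nat_lit 0) (nat_lit 0) (nat_lit 16971006) (nat_lit 0x8058c13c4) (nat_lit 549817368),
  Rx.mk (nat_lit 445) (nat_lit 5) (nat_lit 7) (nat_lit 6) (nat_lit 7) (nat_lit 245) (nat_lit 334) r1_245 r11_334 (nat_lit 0) (nat_lit 0) (nat_lit 0) (nat_lit 0x814704da6) (nat_lit 518377612)]
noncomputable def e14_56 : List Rx := [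
  Rx.mk (nat_lit 313) (nat_lit 1) (nat_lit 7) (nat_lit 4) (nat_lit 3) (nat_lit 91) (nat_lit 63) r1_91 r5_63 (nat_lit 0) (nat_lit 0) (nat_lit 3579826) (nat_lit 0x811e759ee) (nat_lit 524029388),
  Rx.mk (nat_lit 505) (nat_lit 1) (nat_lit 7) (nat_lit 7) (nat_lit 7) (nat_lit 92) (nat_lit 64) r1_92 r5_64 (nat_lit 0) (nat_lit 0) (nat_lit 0) (nat_lit 0x79fc7a418) (nat_lit 634642712),
  Rx.mk (nat_lit 509) (nat_lit 5) (nat_lit 7) (nat_lit 7) (nat_lit 7) (nat_lit 93) (nat_lit 65) r1_93 r5_65 (nat_lit 0) (nat_lit 0) (nat_lit 0) (nat_lit 0x7fd333eb4) (nat_lit 540973512)]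
noncomputable def e14_57 : List Rx := [
  Rx.mk (nat_lit 289) (nat_lit 1) (nat_lit 4) (nat_lit 4) (nat_lit 1) (nat_lit 220) (nat_lit 41) r1_220 r11_41 (nat_lit 0) (nat_lit 107908680) (nat_lit 132640855) (nat_lit 0x75cd0e8fe) (nat_lit 943069347),
  Rx.mk (nat_lit 297) (nat_lit 1) (nat_lit 5) (nat_lit 4) (nat_lit 3) (nat_lit 221) (nat_lit 42) r1_221 r11_42 (nat_lit 0) (nat_lit 0) (nat_lit 24741287) (nat_lit 0x80394da56) (nat_lit 559537749),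
  Rx.mk (nat_lit 313) (nat_lit 1) (nat_lit 7) (nat_lit 4) (nat_lit 3) (nat_lit 222) (nat_lit 43) r1_222 r11_43 (nat_lit 0) (nat_lit 0) (nat_lit 27280081) (nat_lit 0x7ff4c6252) (nat_lit 566171843),
  Rx.mk (nat_lit 505) (nat_lit 1) (nat_lit 7) (nat_lit 7) (nat_lit 7) (nat_lit 223) (nat_lit 44) r1_223 r11_44 (nat_lit 0) (nat_lit 0) (nat_lit 0) (nat_lit 0x814af5f1e) (nat_lit 518142212),
  Rx.mk (nat_lit 509) (nat_lit 5) (nat_lit 7) (nat_lit 7) (nat_lit 7) (nat_lit 224) (nat_lit 45) r1_224 r11_45 (nat_lit 0) (nat_lit 0) (nat_lit 0) (nat_lit 0x808a832cc) (nat_lit 529822112)]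
noncomputable def e14 : List (List Rx) := [e14_0, e14_1, e14_2, e14_3, e14_4, e14_5, e14_6, e14_7, e14_8, e14_9, e14_10, e14_11, e14_12, e14_13, e14_14, e14_15, e14_16, e14_17, e14_18, e14_19, e14_20, e14_21, e14_22, e14_23, e14_24, e14_25, e14_26, e14_27, e14_28, e14_29, e14_30, e14_31, e14_32, e14_33, e14_34, e14_35, e14_36, e14_37, e14_38, e14_39, e14_40, e14_41, e14_42, e14_43, e14_44, e14_45, e14_46, e14_47, e14_48, e14_49, e14_50, e14_51, e14_52, e14_53, e14_54, e14_55, e14_56, e14_57]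
noncomputable def e15_0 : List Rx := [
  Rx.mk (nat_lit 0) (nat_lit 0) (nat_lit 0) (nat_lit 0) (nat_lit 0) (nat_lit 0) (nat_lit 124) r8_0 r0_124 (nat_lit 7939868) (nat_lit 37018604) (nat_lit 11031913) (nat_lit 0x2f3402ffc) (nat_lit 1899960047),
  Rx.mk (nat_lit 1) (nat_lit 1) (nat_lit 0) (nat_lit 0) (nat_lit 1) (nat_lit 3) (nat_lit 127) r8_3 r0_127 (nat_lit 0) (nat_lit 82416712) (nat_lit 32206150) (nat_lit 0x66c0ffdc4) (nat_lit 1060452374),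
  Rx.mk (nat_lit 2) (nat_lit 2) (nat_lit 0) (nat_lit 0) (nat_lit 1) (nat_lit 6) (nat_lit 133) r8_6 r0_133 (nat_lit 0) (nat_lit 54286075) (nat_lit 35479035) (nat_lit 0x62e45b6c8) (nat_lit 1098022322),
  Rx.mk (nat_lit 18) (nat_lit 2) (nat_lit 2) (nat_lit 0) (nat_lit 3) (nat_lit 8) (nat_lit 136) r8_8 r0_136 (nat_lit 0) (nat_lit 0) (nat_lit 31117367) (nat_lit 0x7e047cca2) (nat_lit 600994729),
  Rx.mk (nat_lit 146) (nat_lit 2) (nat_lit 2) (nat_lit 2) (nat_lit 7) (nat_lit 9) (nat_lit 138) r8_9 r0_138 (nat_lit 0) (nat_lit 0) (nat_lit 0) (nat_lit 0x8017985b4) (nat_lit 536870912),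
  Rx.mk (nat_lit 192) (nat_lit 0) (nat_lit 0) (nat_lit 3) (nat_lit 4) (nat_lit 1) (nat_lit 125) r8_1 r0_125 (nat_lit 26421063) (nat_lit 43759254) (nat_lit 0) (nat_lit 0x5ccc534e6) (nat_lit 1176984379),
  Rx.mk (nat_lit 193) (nat_lit 1) (nat_lit 0) (nat_lit 3) (nat_lit 5) (nat_lit 4) (nat_lit 128) r8_4 r0_128 (nat_lit 0) (nat_lit 28052384) (nat_lit 0) (nat_lit 0x7ecc55e04) (nat_lit 585422396),
  Rx.mk (nat_lit 194) (nat_lit 2) (nat_lit 0) (nat_lit 3) (nat_lit 5) (nat_lit 7) (nat_lit 134) r8_7 r0_134 (nat_lit 0) (nat_lit 28597756) (nat_lit 0) (nat_lit 0x7fab4f40c) (nat_lit 572118568),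
  Rx.mk (nat_lit 210) (nat_lit 2) (nat_lit 2) (nat_lit 3) (nat_lit 7) (nat_lit 10) (nat_lit 137) r8_10 r0_137 (nat_lit 0) (nat_lit 0) (nat_lit 0) (nat_lit 0x8017985b4) (nat_lit 536870912),
  Rx.mk (nat_lit 216) (nat_lit 0) (nat_lit 3) (nat_lit 3) (nat_lit 6) (nat_lit 2) (nat_lit 126) r8_2 r0_126 (nat_lit 19040660) (nat_lit 0) (nat_lit 0) (nat_lit 0x6f984888c) (nat_lit 821904322),
  Rx.mk (nat_lit 217) (nat_lit 1) (nat_lit 3) (nat_lit 3) (nat_lit 7) (nat_lit 5) (nat_lit 129) r8_5 r0_129 (nat_lit 0) (nat_lit 0) (nat_lit 0) (nat_lit 0x7feae9d88) (nat_lit 539601062),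
  Rx.mk (nat_lit 218) (nat_lit 2) (nat_lit 3) (nat_lit 3) (nat_lit 7) (nat_lit 11) (nat_lit 135) r8_11 r0_135 (nat_lit 0) (nat_lit 0) (nat_lit 0) (nat_lit 0x7ffc6e694) (nat_lit 538526762),
  Rx.mk (nat_lit 219) (nat_lit 3) (nat_lit 3) (nat_lit 3) (nat_lit 7) (nat_lit 14) (nat_lit 130) r8_14 r0_130 (nat_lit 0) (nat_lit 0) (nat_lit 0) (nat_lit 0x7fa4b61a4) (nat_lit 543932912),
  Rx.mk (nat_lit 475) (nat_lit 3) (nat_lit 3) (nat_lit 7) (nat_lit 7) (nat_lit 13) (nat_lit 131) r8_13 r0_131 (nat_lit 0) (nat_lit 0) (nat_lit 0) (nat_lit 0x8017985b4) (nat_lit 536870912),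
  Rx.mk (nat_lit 507) (nat_lit 3) (nat_lit 7) (nat_lit 7) (nat_lit 7) (nat_lit 12) (nat_lit 132) r8_12 r0_132 (nat_lit 0) (nat_lit 0) (nat_lit 0) (nat_lit 0x8017985b4) (nat_lit 536870912)]
noncomputable def e15_1 : List Rx := [
  Rx.mk (nat_lit 0) (nat_lit 0) (nat_lit 0) (nat_lit 0) (nat_lit 0) (nat_lit 15) (nat_lit 131) r8_15 r1_131 (nat_lit 12570282) (nat_lit 78140221) (nat_lit 16366775) (nat_lit 0x42b179a90) (nat_lit 1635971940),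
  Rx.mk (nat_lit 1) (nat_lit 1) (nat_lit 0) (nat_lit 0) (nat_lit 1) (nat_lit 18) (nat_lit 134) r8_18 r1_134 (nat_lit 0) (nat_lit 144484209) (nat_lit 46134325) (nat_lit 0x72b2fdad0) (nat_lit 943309946),
  Rx.mk (nat_lit 2) (nat_lit 2) (nat_lit 0) (nat_lit 0) (nat_lit 1) (nat_lit 21) (nat_lit 138) r8_21 r1_138 (nat_lit 0) (nat_lit 36913539) (nat_lit 31041958) (nat_lit 0x73f49b3ba) (nat_lit 800345659),
  Rx.mk (nat_lit 18) (nat_lit 2) (nat_lit 2) (nat_lit 0) (nat_lit 3) (nat_lit 22) (nat_lit 139) r8_22 r1_139 (nat_lit 0) (nat_lit 0) (nat_lit 19606239) (nat_lit 0x7f4c479c8) (nat_lit 568985001),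
  Rx.mk (nat_lit 146) (nat_lit 2) (nat_lit 2) (nat_lit 2) (nat_lit 7) (nat_lit 23) (nat_lit 140) r8_23 r1_140 (nat_lit 0) (nat_lit 0) (nat_lit 0) (nat_lit 0x8017985b4) (nat_lit 536870912),
  Rx.mk (nat_lit 192) (nat_lit 0) (nat_lit 0) (nat_lit 3) (nat_lit 4) (nat_lit 16) (nat_lit 132) r8_16 r1_132 (nat_lit 40466188) (nat_lit 44995829) (nat_lit 0) (nat_lit 0x6d2f8c872) (nat_lit 927296079),
  Rx.mk (nat_lit 193) (nat_lit 1) (nat_lit 0) (nat_lit 3) (nat_lit 5) (nat_lit 19) (nat_lit 135) r8_19 r1_135 (nat_lit 0) (nat_lit 24741287) (nat_lit 0) (nat_lit 0x8017985b4) (nat_lit 561612199),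
  Rx.mk (nat_lit 216) (nat_lit 0) (nat_lit 3) (nat_lit 3) (nat_lit 6) (nat_lit 17) (nat_lit 133) r8_17 r1_133 (nat_lit 25986002) (nat_lit 0) (nat_lit 0) (nat_lit 0x7f21990dc) (nat_lit 578019064),
  Rx.mk (nat_lit 217) (nat_lit 1) (nat_lit 3) (nat_lit 3) (nat_lit 7) (nat_lit 20) (nat_lit 136) r8_20 r1_136 (nat_lit 0) (nat_lit 0) (nat_lit 0) (nat_lit 0x8017985b4) (nat_lit 536870912),
  Rx.mk (nat_lit 219) (nat_lit 3) (nat_lit 3) (nat_lit 3) (nat_lit 7) (nat_lit 24) (nat_lit 137) r8_24 r1_137 (nat_lit 0) (nat_lit 0) (nat_lit 0) (nat_lit 0x8017985b4) (nat_lit 536870912)]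
noncomputable def e15_2 : List Rx := [
  Rx.mk (nat_lit 0) (nat_lit 0) (nat_lit 0) (nat_lit 0) (nat_lit 0) (nat_lit 25) (nat_lit 119) r8_25 r2_119 (nat_lit 4963972) (nat_lit 12331261) (nat_lit 5186153) (nat_lit 0x3d9490d48) (nat_lit 1633943848),
  Rx.mk (nat_lit 1) (nat_lit 1) (nat_lit 0) (nat_lit 0) (nat_lit 1) (nat_lit 30) (nat_lit 124) r8_30 r2_124 (nat_lit 0) (nat_lit 36724435) (nat_lit 57149300) (nat_lit 0x6701206b0) (nat_lit 1035651797),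
  Rx.mk (nat_lit 2) (nat_lit 2) (nat_lit 0) (nat_lit 0) (nat_lit 1) (nat_lit 35) (nat_lit 130) r8_35 r2_130 (nat_lit 0) (nat_lit 20092839) (nat_lit 26542101) (nat_lit 0x6a8be4910) (nat_lit 931123202),
  Rx.mk (nat_lit 18) (nat_lit 2) (nat_lit 2) (nat_lit 0) (nat_lit 3) (nat_lit 37) (nat_lit 134) r8_37 r2_134 (nat_lit 0) (nat_lit 0) (nat_lit 24741287) (nat_lit 0x8017985b4) (nat_lit 561612199),
  Rx.mk (nat_lit 24) (nat_lit 0) (nat_lit 3) (nat_lit 0) (nat_lit 2) (nat_lit 27) (nat_lit 121) r8_27 r2_121 (nat_lit 21402582) (nat_lit 0) (nat_lit 24833065) (nat_lit 0x6b091ef98) (nat_lit 922817759),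
  Rx.mk (nat_lit 25) (nat_lit 1) (nat_lit 3) (nat_lit 0) (nat_lit 3) (nat_lit 32) (nat_lit 126) r8_32 r2_126 (nat_lit 0) (nat_lit 0) (nat_lit 24741287) (nat_lit 0x8017985b4) (nat_lit 561612199),
  Rx.mk (nat_lit 26) (nat_lit 2) (nat_lit 3) (nat_lit 0) (nat_lit 3) (nat_lit 40) (nat_lit 132) r8_40 r2_132 (nat_lit 0) (nat_lit 0) (nat_lit 24741287) (nat_lit 0x7ff611878) (nat_lit 563663549),
  Rx.mk (nat_lit 64) (nat_lit 0) (nat_lit 0) (nat_lit 1) (nat_lit 4) (nat_lit 26) (nat_lit 120) r8_26 r2_120 (nat_lit 34582474) (nat_lit 52104926) (nat_lit 0) (nat_lit 0x6328cac00) (nat_lit 1090646762),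
  Rx.mk (nat_lit 65) (nat_lit 1) (nat_lit 0) (nat_lit 1) (nat_lit 5) (nat_lit 31) (nat_lit 125) r8_31 r2_125 (nat_lit 0) (nat_lit 25055876) (nat_lit 0) (nat_lit 0x7fce11080) (nat_lit 566426188),
  Rx.mk (nat_lit 66) (nat_lit 2) (nat_lit 0) (nat_lit 1) (nat_lit 5) (nat_lit 36) (nat_lit 131) r8_36 r2_131 (nat_lit 0) (nat_lit 25669145) (nat_lit 0) (nat_lit 0x80014139c) (nat_lit 563906157),
  Rx.mk (nat_lit 82) (nat_lit 2) (nat_lit 2) (nat_lit 1) (nat_lit 7) (nat_lit 38) (nat_lit 135) r8_38 r2_135 (nat_lit 0) (nat_lit 0) (nat_lit 0) (nat_lit 0x8017985b4) (nat_lit 536870912),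
  Rx.mk (nat_lit 88) (nat_lit 0) (nat_lit 3) (nat_lit 1) (nat_lit 6) (nat_lit 28) (nat_lit 122) r8_28 r2_122 (nat_lit 24741287) (nat_lit 0) (nat_lit 0) (nat_lit 0x8017985b4) (nat_lit 561612199),
  Rx.mk (nat_lit 89) (nat_lit 1) (nat_lit 3) (nat_lit 1) (nat_lit 7) (nat_lit 33) (nat_lit 127) r8_33 r2_127 (nat_lit 0) (nat_lit 0) (nat_lit 0) (nat_lit 0x8017985b4) (nat_lit 536870912),
  Rx.mk (nat_lit 90) (nat_lit 2) (nat_lit 3) (nat_lit 1) (nat_lit 7) (nat_lit 41) (nat_lit 133) r8_41 r2_133 (nat_lit 0) (nat_lit 0) (nat_lit 0) (nat_lit 0x8017985b4) (nat_lit 536870912),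
  Rx.mk (nat_lit 146) (nat_lit 2) (nat_lit 2) (nat_lit 2) (nat_lit 7) (nat_lit 39) (nat_lit 136) r8_39 r2_136 (nat_lit 0) (nat_lit 0) (nat_lit 0) (nat_lit 0x8017985b4) (nat_lit 536870912),
  Rx.mk (nat_lit 216) (nat_lit 0) (nat_lit 3) (nat_lit 3) (nat_lit 6) (nat_lit 29) (nat_lit 123) r8_29 r2_123 (nat_lit 24741287) (nat_lit 0) (nat_lit 0) (nat_lit 0x7fd79296a) (nat_lit 565539099),
  Rx.mk (nat_lit 217) (nat_lit 1) (nat_lit 3) (nat_lit 3) (nat_lit 7) (nat_lit 34) (nat_lit 128) r8_34 r2_128 (nat_lit 0) (nat_lit 0) (nat_lit 0) (nat_lit 0x8017985b4) (nat_lit 536870912),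
  Rx.mk (nat_lit 219) (nat_lit 3) (nat_lit 3) (nat_lit 3) (nat_lit 7) (nat_lit 42) (nat_lit 129) r8_42 r2_129 (nat_lit 0) (nat_lit 0) (nat_lit 0) (nat_lit 0x8017985b4) (nat_lit 536870912)]
noncomputable def e15_3 : List Rx := [
  Rx.mk (nat_lit 472) (nat_lit 0) (nat_lit 3) (nat_lit 7) (nat_lit 6) (nat_lit 43) (nat_lit 115) r8_43 r3_115 (nat_lit 1763441) (nat_lit 0) (nat_lit 0) (nat_lit 0x7c7a002d2) (nat_lit 596010653),
  Rx.mk (nat_lit 473) (nat_lit 1) (nat_lit 3) (nat_lit 7) (nat_lit 7) (nat_lit 44) (nat_lit 116) r8_44 r3_116 (nat_lit 0) (nat_lit 0) (nat_lit 0) (nat_lit 0x815f04622) (nat_lit 516911112),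
  Rx.mk (nat_lit 475) (nat_lit 3) (nat_lit 3) (nat_lit 7) (nat_lit 7) (nat_lit 46) (nat_lit 117) r8_46 r3_117 (nat_lit 0) (nat_lit 0) (nat_lit 0) (nat_lit 0x7fe6eb434) (nat_lit 539872312),
  Rx.mk (nat_lit 507) (nat_lit 3) (nat_lit 7) (nat_lit 7) (nat_lit 7) (nat_lit 45) (nat_lit 118) r8_45 r3_118 (nat_lit 0) (nat_lit 0) (nat_lit 0) (nat_lit 0x7fbaf6978) (nat_lit 542584962)]
noncomputable def e15_4 : List Rx := [
  Rx.mk (nat_lit 192) (nat_lit 0) (nat_lit 0) (nat_lit 3) (nat_lit 4) (nat_lit 47) (nat_lit 114) r8_47 r4_114 (nat_lit 25528723) (nat_lit 35927384) (nat_lit 0) (nat_lit 0x6c2494650) (nat_lit 920149869),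
  Rx.mk (nat_lit 193) (nat_lit 1) (nat_lit 0) (nat_lit 3) (nat_lit 5) (nat_lit 50) (nat_lit 117) r8_50 r4_117 (nat_lit 0) (nat_lit 24741287) (nat_lit 0) (nat_lit 0x8005f42d6) (nat_lit 562689149),
  Rx.mk (nat_lit 194) (nat_lit 2) (nat_lit 0) (nat_lit 3) (nat_lit 5) (nat_lit 53) (nat_lit 122) r8_53 r4_122 (nat_lit 0) (nat_lit 24741287) (nat_lit 0) (nat_lit 0x8017985b4) (nat_lit 561612199),
  Rx.mk (nat_lit 210) (nat_lit 2) (nat_lit 2) (nat_lit 3) (nat_lit 7) (nat_lit 54) (nat_lit 124) r8_54 r4_124 (nat_lit 0) (nat_lit 0) (nat_lit 0) (nat_lit 0x8017985b4) (nat_lit 536870912),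
  Rx.mk (nat_lit 216) (nat_lit 0) (nat_lit 3) (nat_lit 3) (nat_lit 6) (nat_lit 49) (nat_lit 115) r8_49 r4_115 (nat_lit 15426170) (nat_lit 0) (nat_lit 0) (nat_lit 0x7fa00e8ea) (nat_lit 559577782),
  Rx.mk (nat_lit 217) (nat_lit 1) (nat_lit 3) (nat_lit 3) (nat_lit 7) (nat_lit 52) (nat_lit 118) r8_52 r4_118 (nat_lit 0) (nat_lit 0) (nat_lit 0) (nat_lit 0x8050765fc) (nat_lit 533378512),
  Rx.mk (nat_lit 218) (nat_lit 2) (nat_lit 3) (nat_lit 3) (nat_lit 7) (nat_lit 55) (nat_lit 123) r8_55 r4_123 (nat_lit 0) (nat_lit 0) (nat_lit 0) (nat_lit 0x80507696c) (nat_lit 533378462),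
  Rx.mk (nat_lit 472) (nat_lit 0) (nat_lit 3) (nat_lit 7) (nat_lit 6) (nat_lit 48) (nat_lit 116) r8_48 r4_116 (nat_lit 19539304) (nat_lit 0) (nat_lit 0) (nat_lit 0x7feeea77a) (nat_lit 558873116),
  Rx.mk (nat_lit 473) (nat_lit 1) (nat_lit 3) (nat_lit 7) (nat_lit 7) (nat_lit 51) (nat_lit 119) r8_51 r4_119 (nat_lit 0) (nat_lit 0) (nat_lit 0) (nat_lit 0x8017985b4) (nat_lit 536870912),
  Rx.mk (nat_lit 475) (nat_lit 3) (nat_lit 3) (nat_lit 7) (nat_lit 7) (nat_lit 57) (nat_lit 120) r8_57 r4_120 (nat_lit 0) (nat_lit 0) (nat_lit 0) (nat_lit 0x8017985b4) (nat_lit 536870912),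
  Rx.mk (nat_lit 507) (nat_lit 3) (nat_lit 7) (nat_lit 7) (nat_lit 7) (nat_lit 56) (nat_lit 121) r8_56 r4_121 (nat_lit 0) (nat_lit 0) (nat_lit 0) (nat_lit 0x8017985b4) (nat_lit 536870912)]
noncomputable def e15_5 : List Rx := [
  Rx.mk (nat_lit 472) (nat_lit 0) (nat_lit 3) (nat_lit 7) (nat_lit 6) (nat_lit 58) (nat_lit 115) r8_58 r5_115 (nat_lit 14303237) (nat_lit 0) (nat_lit 0) (nat_lit 0x7ea35f61c) (nat_lit 574182799),
  Rx.mk (nat_lit 473) (nat_lit 1) (nat_lit 3) (nat_lit 7) (nat_lit 7) (nat_lit 59) (nat_lit 116) r8_59 r5_116 (nat_lit 0) (nat_lit 0) (nat_lit 0) (nat_lit 0x805c00e40) (nat_lit 532666762),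
  Rx.mk (nat_lit 475) (nat_lit 3) (nat_lit 3) (nat_lit 7) (nat_lit 7) (nat_lit 60) (nat_lit 117) r8_60 r5_117 (nat_lit 0) (nat_lit 0) (nat_lit 0) (nat_lit 0x8017985b4) (nat_lit 536870912)]
noncomputable def e15_6 : List Rx := [
  Rx.mk (nat_lit 321) (nat_lit 1) (nat_lit 0) (nat_lit 5) (nat_lit 5) (nat_lit 61) (nat_lit 171) r8_61 r3_171 (nat_lit 0) (nat_lit 4361193) (nat_lit 0) (nat_lit 0x73e0634a6) (nat_lit 737767955),
  Rx.mk (nat_lit 345) (nat_lit 1) (nat_lit 3) (nat_lit 5) (nat_lit 7) (nat_lit 62) (nat_lit 172) r8_62 r3_172 (nat_lit 0) (nat_lit 0) (nat_lit 0) (nat_lit 0x851b92084) (nat_lit 459606612)]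
noncomputable def e15_7 : List Rx := [
  Rx.mk (nat_lit 65) (nat_lit 1) (nat_lit 0) (nat_lit 1) (nat_lit 5) (nat_lit 64) (nat_lit 186) r8_64 r0_186 (nat_lit 0) (nat_lit 26500941) (nat_lit 0) (nat_lit 0x7c9c5d064) (nat_lit 619045003),
  Rx.mk (nat_lit 89) (nat_lit 1) (nat_lit 3) (nat_lit 1) (nat_lit 7) (nat_lit 65) (nat_lit 187) r8_65 r0_187 (nat_lit 0) (nat_lit 0) (nat_lit 0) (nat_lit 0x802f4e852) (nat_lit 535398012),
  Rx.mk (nat_lit 321) (nat_lit 1) (nat_lit 0) (nat_lit 5) (nat_lit 5) (nat_lit 63) (nat_lit 185) r8_63 r0_185 (nat_lit 0) (nat_lit 17259595) (nat_lit 0) (nat_lit 0x7bf63ab82) (nat_lit 620224207)]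
noncomputable def e15_8 : List Rx := [
  Rx.mk (nat_lit 65) (nat_lit 1) (nat_lit 0) (nat_lit 1) (nat_lit 5) (nat_lit 66) (nat_lit 199) r8_66 r1_199 (nat_lit 0) (nat_lit 24741287) (nat_lit 0) (nat_lit 0x8001ac32c) (nat_lit 562953699),
  Rx.mk (nat_lit 89) (nat_lit 1) (nat_lit 3) (nat_lit 1) (nat_lit 7) (nat_lit 67) (nat_lit 200) r8_67 r1_200 (nat_lit 0) (nat_lit 0) (nat_lit 0) (nat_lit 0x8017985b4) (nat_lit 536870912)]
noncomputable def e15_9 : List Rx := [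
  Rx.mk (nat_lit 89) (nat_lit 1) (nat_lit 3) (nat_lit 1) (nat_lit 7) (nat_lit 70) (nat_lit 176) r8_70 r4_176 (nat_lit 0) (nat_lit 0) (nat_lit 0) (nat_lit 0x8017985b4) (nat_lit 536870912),
  Rx.mk (nat_lit 321) (nat_lit 1) (nat_lit 0) (nat_lit 5) (nat_lit 5) (nat_lit 68) (nat_lit 174) r8_68 r4_174 (nat_lit 0) (nat_lit 19417164) (nat_lit 0) (nat_lit 0x7fd35cbf2) (nat_lit 560445626),
  Rx.mk (nat_lit 345) (nat_lit 1) (nat_lit 3) (nat_lit 5) (nat_lit 7) (nat_lit 69) (nat_lit 175) r8_69 r4_175 (nat_lit 0) (nat_lit 0) (nat_lit 0) (nat_lit 0x80539e52c) (nat_lit 533184912)]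
noncomputable def e15_10 : List Rx := [
  Rx.mk (nat_lit 281) (nat_lit 1) (nat_lit 3) (nat_lit 4) (nat_lit 3) (nat_lit 71) (nat_lit 119) r8_71 r6_119 (nat_lit 0) (nat_lit 0) (nat_lit 11276317) (nat_lit 0x80f41308e) (nat_lit 534645879),
  Rx.mk (nat_lit 345) (nat_lit 1) (nat_lit 3) (nat_lit 5) (nat_lit 7) (nat_lit 72) (nat_lit 120) r8_72 r6_120 (nat_lit 0) (nat_lit 0) (nat_lit 0) (nat_lit 0x8017985b4) (nat_lit 536870912),
  Rx.mk (nat_lit 473) (nat_lit 1) (nat_lit 3) (nat_lit 7) (nat_lit 7) (nat_lit 73) (nat_lit 121) r8_73 r6_121 (nat_lit 0) (nat_lit 0) (nat_lit 0) (nat_lit 0x80607f5fc) (nat_lit 532392712)]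
noncomputable def e15_11 : List Rx := [
  Rx.mk (nat_lit 321) (nat_lit 1) (nat_lit 0) (nat_lit 5) (nat_lit 5) (nat_lit 74) (nat_lit 189) r8_74 r5_189 (nat_lit 0) (nat_lit 17765140) (nat_lit 0) (nat_lit 0x7ff74602c) (nat_lit 556578502),
  Rx.mk (nat_lit 345) (nat_lit 1) (nat_lit 3) (nat_lit 5) (nat_lit 7) (nat_lit 75) (nat_lit 190) r8_75 r5_190 (nat_lit 0) (nat_lit 0) (nat_lit 0) (nat_lit 0x80b32653a) (nat_lit 527341762)]
noncomputable def e15_12 : List Rx := [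
  Rx.mk (nat_lit 475) (nat_lit 3) (nat_lit 3) (nat_lit 7) (nat_lit 7) (nat_lit 77) (nat_lit 140) r8_77 r0_140 (nat_lit 0) (nat_lit 0) (nat_lit 0) (nat_lit 0x8017985b4) (nat_lit 536870912),
  Rx.mk (nat_lit 507) (nat_lit 3) (nat_lit 7) (nat_lit 7) (nat_lit 7) (nat_lit 76) (nat_lit 139) r8_76 r0_139 (nat_lit 0) (nat_lit 0) (nat_lit 0) (nat_lit 0x8017985b4) (nat_lit 536870912)]
noncomputable def e15_13 : List Rx := [
  Rx.mk (nat_lit 0) (nat_lit 0) (nat_lit 0) (nat_lit 0) (nat_lit 0) (nat_lit 78) (nat_lit 136) r8_78 r7_136 (nat_lit 8960456) (nat_lit 26185611) (nat_lit 8497828) (nat_lit 0x362c7667e) (nat_lit 1774947907),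
  Rx.mk (nat_lit 2) (nat_lit 2) (nat_lit 0) (nat_lit 0) (nat_lit 1) (nat_lit 81) (nat_lit 142) r8_81 r7_142 (nat_lit 0) (nat_lit 13633279) (nat_lit 14186136) (nat_lit 0x6517ac3fe) (nat_lit 1000476627),
  Rx.mk (nat_lit 18) (nat_lit 2) (nat_lit 2) (nat_lit 0) (nat_lit 3) (nat_lit 83) (nat_lit 145) r8_83 r7_145 (nat_lit 0) (nat_lit 0) (nat_lit 24741287) (nat_lit 0x7fe1901b0) (nat_lit 564922449),
  Rx.mk (nat_lit 146) (nat_lit 2) (nat_lit 2) (nat_lit 2) (nat_lit 7) (nat_lit 84) (nat_lit 147) r8_84 r7_147 (nat_lit 0) (nat_lit 0) (nat_lit 0) (nat_lit 0x8017985b4) (nat_lit 536870912),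
  Rx.mk (nat_lit 192) (nat_lit 0) (nat_lit 0) (nat_lit 3) (nat_lit 4) (nat_lit 79) (nat_lit 137) r8_79 r7_137 (nat_lit 24616168) (nat_lit 24651851) (nat_lit 0) (nat_lit 0x5ff890ccc) (nat_lit 1104782931),
  Rx.mk (nat_lit 194) (nat_lit 2) (nat_lit 0) (nat_lit 3) (nat_lit 5) (nat_lit 82) (nat_lit 143) r8_82 r7_143 (nat_lit 0) (nat_lit 24741287) (nat_lit 0) (nat_lit 0x7fe8e8d90) (nat_lit 564464999),
  Rx.mk (nat_lit 210) (nat_lit 2) (nat_lit 2) (nat_lit 3) (nat_lit 7) (nat_lit 85) (nat_lit 146) r8_85 r7_146 (nat_lit 0) (nat_lit 0) (nat_lit 0) (nat_lit 0x8017985b4) (nat_lit 536870912),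
  Rx.mk (nat_lit 216) (nat_lit 0) (nat_lit 3) (nat_lit 3) (nat_lit 6) (nat_lit 80) (nat_lit 138) r8_80 r7_138 (nat_lit 24741287) (nat_lit 0) (nat_lit 0) (nat_lit 0x7ff6824a6) (nat_lit 563637099),
  Rx.mk (nat_lit 218) (nat_lit 2) (nat_lit 3) (nat_lit 3) (nat_lit 7) (nat_lit 86) (nat_lit 144) r8_86 r7_144 (nat_lit 0) (nat_lit 0) (nat_lit 0) (nat_lit 0x8017985b4) (nat_lit 536870912),
  Rx.mk (nat_lit 219) (nat_lit 3) (nat_lit 3) (nat_lit 3) (nat_lit 7) (nat_lit 89) (nat_lit 139) r8_89 r7_139 (nat_lit 0) (nat_lit 0) (nat_lit 0) (nat_lit 0x8017985b4) (nat_lit 536870912),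
  Rx.mk (nat_lit 475) (nat_lit 3) (nat_lit 3) (nat_lit 7) (nat_lit 7) (nat_lit 88) (nat_lit 140) r8_88 r7_140 (nat_lit 0) (nat_lit 0) (nat_lit 0) (nat_lit 0x8017985b4) (nat_lit 536870912),
  Rx.mk (nat_lit 507) (nat_lit 3) (nat_lit 7) (nat_lit 7) (nat_lit 7) (nat_lit 87) (nat_lit 141) r8_87 r7_141 (nat_lit 0) (nat_lit 0) (nat_lit 0) (nat_lit 0x8017985b4) (nat_lit 536870912)]
noncomputable def e15_14 : List Rx := [
  Rx.mk (nat_lit 292) (nat_lit 4) (nat_lit 4) (nat_lit 4) (nat_lit 0) (nat_lit 90) (nat_lit 141) r8_90 r1_141 (nat_lit 17944571) (nat_lit 116288395) (nat_lit 23009154) (nat_lit 0x447d83aae) (nat_lit 1657106532),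
  Rx.mk (nat_lit 295) (nat_lit 7) (nat_lit 4) (nat_lit 4) (nat_lit 1) (nat_lit 94) (nat_lit 142) r8_94 r1_142 (nat_lit 0) (nat_lit 50887267) (nat_lit 31282261) (nat_lit 0x6d657dd46) (nat_lit 920594840),
  Rx.mk (nat_lit 319) (nat_lit 7) (nat_lit 7) (nat_lit 4) (nat_lit 3) (nat_lit 97) (nat_lit 143) r8_97 r1_143 (nat_lit 0) (nat_lit 0) (nat_lit 29620562) (nat_lit 0x7f673ed30) (nat_lit 577332974),
  Rx.mk (nat_lit 420) (nat_lit 4) (nat_lit 4) (nat_lit 6) (nat_lit 4) (nat_lit 91) (nat_lit 147) r8_91 r1_147 (nat_lit 24802758) (nat_lit 50885811) (nat_lit 0) (nat_lit 0x6b9ee1742) (nat_lit 942829831),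
  Rx.mk (nat_lit 423) (nat_lit 7) (nat_lit 4) (nat_lit 6) (nat_lit 5) (nat_lit 95) (nat_lit 148) r8_95 r1_148 (nat_lit 0) (nat_lit 24741287) (nat_lit 0) (nat_lit 0x8017985b4) (nat_lit 561612199),
  Rx.mk (nat_lit 436) (nat_lit 4) (nat_lit 6) (nat_lit 6) (nat_lit 6) (nat_lit 92) (nat_lit 150) r8_92 r1_150 (nat_lit 24952196) (nat_lit 0) (nat_lit 0) (nat_lit 0x7d5baea30) (nat_lit 605443508),
  Rx.mk (nat_lit 438) (nat_lit 6) (nat_lit 6) (nat_lit 6) (nat_lit 7) (nat_lit 93) (nat_lit 152) r8_93 r1_152 (nat_lit 0) (nat_lit 0) (nat_lit 0) (nat_lit 0x8017985b4) (nat_lit 536870912),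
  Rx.mk (nat_lit 439) (nat_lit 7) (nat_lit 6) (nat_lit 6) (nat_lit 7) (nat_lit 96) (nat_lit 151) r8_96 r1_151 (nat_lit 0) (nat_lit 0) (nat_lit 0) (nat_lit 0x8017985b4) (nat_lit 536870912),
  Rx.mk (nat_lit 447) (nat_lit 7) (nat_lit 7) (nat_lit 6) (nat_lit 7) (nat_lit 98) (nat_lit 149) r8_98 r1_149 (nat_lit 0) (nat_lit 0) (nat_lit 0) (nat_lit 0x8017985b4) (nat_lit 536870912),
  Rx.mk (nat_lit 475) (nat_lit 3) (nat_lit 3) (nat_lit 7) (nat_lit 7) (nat_lit 101) (nat_lit 146) r8_101 r1_146 (nat_lit 0) (nat_lit 0) (nat_lit 0) (nat_lit 0x8017985b4) (nat_lit 536870912),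
  Rx.mk (nat_lit 507) (nat_lit 3) (nat_lit 7) (nat_lit 7) (nat_lit 7) (nat_lit 100) (nat_lit 145) r8_100 r1_145 (nat_lit 0) (nat_lit 0) (nat_lit 0) (nat_lit 0x8017985b4) (nat_lit 536870912),
  Rx.mk (nat_lit 511) (nat_lit 7) (nat_lit 7) (nat_lit 7) (nat_lit 7) (nat_lit 99) (nat_lit 144) r8_99 r1_144 (nat_lit 0) (nat_lit 0) (nat_lit 0) (nat_lit 0x8017985b4) (nat_lit 536870912)]
noncomputable def e15_15 : List Rx := [
  Rx.mk (nat_lit 0) (nat_lit 0) (nat_lit 0) (nat_lit 0) (nat_lit 0) (nat_lit 114) (nat_lit 102) r8_114 r8_102 (nat_lit 10519158) (nat_lit 23607891) (nat_lit 12621568) (nat_lit 0x35cfe746c) (nat_lit 1783943879),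
  Rx.mk (nat_lit 2) (nat_lit 2) (nat_lit 0) (nat_lit 0) (nat_lit 1) (nat_lit 117) (nat_lit 108) r8_117 r8_108 (nat_lit 0) (nat_lit 7782469) (nat_lit 8151494) (nat_lit 0x657d11ec4) (nat_lit 982120125),
  Rx.mk (nat_lit 18) (nat_lit 2) (nat_lit 2) (nat_lit 0) (nat_lit 3) (nat_lit 119) (nat_lit 111) r8_119 r8_111 (nat_lit 0) (nat_lit 0) (nat_lit 24741287) (nat_lit 0x7fe7fdaf2) (nat_lit 564530549),
  Rx.mk (nat_lit 146) (nat_lit 2) (nat_lit 2) (nat_lit 2) (nat_lit 7) (nat_lit 120) (nat_lit 113) r8_120 r8_113 (nat_lit 0) (nat_lit 0) (nat_lit 0) (nat_lit 0x8017985b4) (nat_lit 536870912),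
  Rx.mk (nat_lit 150) (nat_lit 6) (nat_lit 2) (nat_lit 2) (nat_lit 7) (nat_lit 107) (nat_lit 123) r8_107 r8_123 (nat_lit 0) (nat_lit 0) (nat_lit 0) (nat_lit 0x8017985b4) (nat_lit 536870912),
  Rx.mk (nat_lit 182) (nat_lit 6) (nat_lit 6) (nat_lit 2) (nat_lit 7) (nat_lit 106) (nat_lit 124) r8_106 r8_124 (nat_lit 0) (nat_lit 0) (nat_lit 0) (nat_lit 0x8017985b4) (nat_lit 536870912),
  Rx.mk (nat_lit 192) (nat_lit 0) (nat_lit 0) (nat_lit 3) (nat_lit 4) (nat_lit 115) (nat_lit 103) r8_115 r8_103 (nat_lit 22151582) (nat_lit 21485510) (nat_lit 0) (nat_lit 0x5d3108e36) (nat_lit 1144097304),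
  Rx.mk (nat_lit 194) (nat_lit 2) (nat_lit 0) (nat_lit 3) (nat_lit 5) (nat_lit 118) (nat_lit 109) r8_118 r8_109 (nat_lit 0) (nat_lit 25147508) (nat_lit 0) (nat_lit 0x80037d764) (nat_lit 563258220),
  Rx.mk (nat_lit 210) (nat_lit 2) (nat_lit 2) (nat_lit 3) (nat_lit 7) (nat_lit 121) (nat_lit 112) r8_121 r8_112 (nat_lit 0) (nat_lit 0) (nat_lit 0) (nat_lit 0x8017985b4) (nat_lit 536870912),
  Rx.mk (nat_lit 216) (nat_lit 0) (nat_lit 3) (nat_lit 3) (nat_lit 6) (nat_lit 116) (nat_lit 104) r8_116 r8_104 (nat_lit 24741287) (nat_lit 0) (nat_lit 0) (nat_lit 0x8017985b4) (nat_lit 561612199),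
  Rx.mk (nat_lit 218) (nat_lit 2) (nat_lit 3) (nat_lit 3) (nat_lit 7) (nat_lit 122) (nat_lit 110) r8_122 r8_110 (nat_lit 0) (nat_lit 0) (nat_lit 0) (nat_lit 0x8017985b4) (nat_lit 536870912),
  Rx.mk (nat_lit 219) (nat_lit 3) (nat_lit 3) (nat_lit 3) (nat_lit 7) (nat_lit 125) (nat_lit 105) r8_125 r8_105 (nat_lit 0) (nat_lit 0) (nat_lit 0) (nat_lit 0x8017985b4) (nat_lit 536870912),
  Rx.mk (nat_lit 292) (nat_lit 4) (nat_lit 4) (nat_lit 4) (nat_lit 0) (nat_lit 102) (nat_lit 114) r8_102 r8_114 (nat_lit 10519158) (nat_lit 23607891) (nat_lit 12621568) (nat_lit 0x35cfe746c) (nat_lit 1783943879),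
  Rx.mk (nat_lit 295) (nat_lit 7) (nat_lit 4) (nat_lit 4) (nat_lit 1) (nat_lit 108) (nat_lit 117) r8_108 r8_117 (nat_lit 0) (nat_lit 7782469) (nat_lit 8151494) (nat_lit 0x657d11ec4) (nat_lit 982120125),
  Rx.mk (nat_lit 319) (nat_lit 7) (nat_lit 7) (nat_lit 4) (nat_lit 3) (nat_lit 111) (nat_lit 119) r8_111 r8_119 (nat_lit 0) (nat_lit 0) (nat_lit 24741287) (nat_lit 0x7fe7fdaf2) (nat_lit 564530549),
  Rx.mk (nat_lit 420) (nat_lit 4) (nat_lit 4) (nat_lit 6) (nat_lit 4) (nat_lit 103) (nat_lit 115) r8_103 r8_115 (nat_lit 22151582) (nat_lit 21485510) (nat_lit 0) (nat_lit 0x5d3108e36) (nat_lit 1144097304),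
  Rx.mk (nat_lit 423) (nat_lit 7) (nat_lit 4) (nat_lit 6) (nat_lit 5) (nat_lit 109) (nat_lit 118) r8_109 r8_118 (nat_lit 0) (nat_lit 25147508) (nat_lit 0) (nat_lit 0x80037d764) (nat_lit 563258220),
  Rx.mk (nat_lit 436) (nat_lit 4) (nat_lit 6) (nat_lit 6) (nat_lit 6) (nat_lit 104) (nat_lit 116) r8_104 r8_116 (nat_lit 24741287) (nat_lit 0) (nat_lit 0) (nat_lit 0x8017985b4) (nat_lit 561612199),
  Rx.mk (nat_lit 438) (nat_lit 6) (nat_lit 6) (nat_lit 6) (nat_lit 7) (nat_lit 105) (nat_lit 125) r8_105 r8_125 (nat_lit 0) (nat_lit 0) (nat_lit 0) (nat_lit 0x8017985b4) (nat_lit 536870912),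
  Rx.mk (nat_lit 439) (nat_lit 7) (nat_lit 6) (nat_lit 6) (nat_lit 7) (nat_lit 110) (nat_lit 122) r8_110 r8_122 (nat_lit 0) (nat_lit 0) (nat_lit 0) (nat_lit 0x8017985b4) (nat_lit 536870912),
  Rx.mk (nat_lit 447) (nat_lit 7) (nat_lit 7) (nat_lit 6) (nat_lit 7) (nat_lit 112) (nat_lit 121) r8_112 r8_121 (nat_lit 0) (nat_lit 0) (nat_lit 0) (nat_lit 0x8017985b4) (nat_lit 536870912),
  Rx.mk (nat_lit 475) (nat_lit 3) (nat_lit 3) (nat_lit 7) (nat_lit 7) (nat_lit 124) (nat_lit 106) r8_124 r8_106 (nat_lit 0) (nat_lit 0) (nat_lit 0) (nat_lit 0x8017985b4) (nat_lit 536870912),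
  Rx.mk (nat_lit 507) (nat_lit 3) (nat_lit 7) (nat_lit 7) (nat_lit 7) (nat_lit 123) (nat_lit 107) r8_123 r8_107 (nat_lit 0) (nat_lit 0) (nat_lit 0) (nat_lit 0x8017985b4) (nat_lit 536870912),
  Rx.mk (nat_lit 511) (nat_lit 7) (nat_lit 7) (nat_lit 7) (nat_lit 7) (nat_lit 113) (nat_lit 120) r8_113 r8_120 (nat_lit 0) (nat_lit 0) (nat_lit 0) (nat_lit 0x8017985b4) (nat_lit 536870912)]
noncomputable def e15_16 : List Rx := [
  Rx.mk (nat_lit 0) (nat_lit 0) (nat_lit 0) (nat_lit 0) (nat_lit 0) (nat_lit 126) (nat_lit 126) r8_126 r8_126 (nat_lit 20497821) (nat_lit 69167844) (nat_lit 20497821) (nat_lit 0x3ff6c5f16) (nat_lit 1683229348),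
  Rx.mk (nat_lit 2) (nat_lit 2) (nat_lit 0) (nat_lit 0) (nat_lit 1) (nat_lit 129) (nat_lit 127) r8_129 r8_127 (nat_lit 0) (nat_lit 25761297) (nat_lit 25354659) (nat_lit 0x65918fae0) (nat_lit 1016119168),
  Rx.mk (nat_lit 18) (nat_lit 2) (nat_lit 2) (nat_lit 0) (nat_lit 3) (nat_lit 130) (nat_lit 128) r8_130 r8_128 (nat_lit 0) (nat_lit 0) (nat_lit 24741287) (nat_lit 0x8009bb888) (nat_lit 562459499),
  Rx.mk (nat_lit 146) (nat_lit 2) (nat_lit 2) (nat_lit 2) (nat_lit 7) (nat_lit 131) (nat_lit 132) r8_131 r8_132 (nat_lit 0) (nat_lit 0) (nat_lit 0) (nat_lit 0x8017985b4) (nat_lit 536870912),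
  Rx.mk (nat_lit 192) (nat_lit 0) (nat_lit 0) (nat_lit 3) (nat_lit 4) (nat_lit 127) (nat_lit 129) r8_127 r8_129 (nat_lit 25354659) (nat_lit 25761297) (nat_lit 0) (nat_lit 0x65918fae0) (nat_lit 1016119168),
  Rx.mk (nat_lit 216) (nat_lit 0) (nat_lit 3) (nat_lit 3) (nat_lit 6) (nat_lit 128) (nat_lit 130) r8_128 r8_130 (nat_lit 24741287) (nat_lit 0) (nat_lit 0) (nat_lit 0x8009bb888) (nat_lit 562459499),
  Rx.mk (nat_lit 219) (nat_lit 3) (nat_lit 3) (nat_lit 3) (nat_lit 7) (nat_lit 132) (nat_lit 131) r8_132 r8_131 (nat_lit 0) (nat_lit 0) (nat_lit 0) (nat_lit 0x8017985b4) (nat_lit 536870912)]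
noncomputable def e15_17 : List Rx := [
  Rx.mk (nat_lit 0) (nat_lit 0) (nat_lit 0) (nat_lit 0) (nat_lit 0) (nat_lit 133) (nat_lit 86) r8_133 r9_86 (nat_lit 17870946) (nat_lit 94967087) (nat_lit 18637644) (nat_lit 0x4127ec576) (nat_lit 1685261939),
  Rx.mk (nat_lit 2) (nat_lit 2) (nat_lit 0) (nat_lit 0) (nat_lit 1) (nat_lit 138) (nat_lit 92) r8_138 r9_92 (nat_lit 0) (nat_lit 23390390) (nat_lit 35165148) (nat_lit 0x65db9d3f8) (nat_lit 1018879500),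
  Rx.mk (nat_lit 18) (nat_lit 2) (nat_lit 2) (nat_lit 0) (nat_lit 3) (nat_lit 140) (nat_lit 96) r8_140 r9_96 (nat_lit 0) (nat_lit 0) (nat_lit 24741287) (nat_lit 0x8017985b4) (nat_lit 561612199),
  Rx.mk (nat_lit 24) (nat_lit 0) (nat_lit 3) (nat_lit 0) (nat_lit 2) (nat_lit 135) (nat_lit 88) r8_135 r9_88 (nat_lit 24700278) (nat_lit 0) (nat_lit 29365924) (nat_lit 0x6a57b692c) (nat_lit 941876114),
  Rx.mk (nat_lit 26) (nat_lit 2) (nat_lit 3) (nat_lit 0) (nat_lit 3) (nat_lit 143) (nat_lit 94) r8_143 r9_94 (nat_lit 0) (nat_lit 0) (nat_lit 24489661) (nat_lit 0x7ffa8f6de) (nat_lit 563135273),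
  Rx.mk (nat_lit 64) (nat_lit 0) (nat_lit 0) (nat_lit 1) (nat_lit 4) (nat_lit 134) (nat_lit 87) r8_134 r9_87 (nat_lit 26394436) (nat_lit 82173125) (nat_lit 0) (nat_lit 0x6a21a438e) (nat_lit 999789173),
  Rx.mk (nat_lit 66) (nat_lit 2) (nat_lit 0) (nat_lit 1) (nat_lit 5) (nat_lit 139) (nat_lit 93) r8_139 r9_93 (nat_lit 0) (nat_lit 24741287) (nat_lit 0) (nat_lit 0x8017985b4) (nat_lit 561612199),
  Rx.mk (nat_lit 82) (nat_lit 2) (nat_lit 2) (nat_lit 1) (nat_lit 7) (nat_lit 141) (nat_lit 97) r8_141 r9_97 (nat_lit 0) (nat_lit 0) (nat_lit 0) (nat_lit 0x8017985b4) (nat_lit 536870912),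
  Rx.mk (nat_lit 88) (nat_lit 0) (nat_lit 3) (nat_lit 1) (nat_lit 6) (nat_lit 136) (nat_lit 89) r8_136 r9_89 (nat_lit 24741287) (nat_lit 0) (nat_lit 0) (nat_lit 0x8017985b4) (nat_lit 561612199),
  Rx.mk (nat_lit 90) (nat_lit 2) (nat_lit 3) (nat_lit 1) (nat_lit 7) (nat_lit 144) (nat_lit 95) r8_144 r9_95 (nat_lit 0) (nat_lit 0) (nat_lit 0) (nat_lit 0x8017985b4) (nat_lit 536870912),
  Rx.mk (nat_lit 146) (nat_lit 2) (nat_lit 2) (nat_lit 2) (nat_lit 7) (nat_lit 142) (nat_lit 98) r8_142 r9_98 (nat_lit 0) (nat_lit 0) (nat_lit 0) (nat_lit 0x8017985b4) (nat_lit 536870912),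
  Rx.mk (nat_lit 216) (nat_lit 0) (nat_lit 3) (nat_lit 3) (nat_lit 6) (nat_lit 137) (nat_lit 90) r8_137 r9_90 (nat_lit 24741287) (nat_lit 0) (nat_lit 0) (nat_lit 0x7fffb92e0) (nat_lit 563069249),
  Rx.mk (nat_lit 219) (nat_lit 3) (nat_lit 3) (nat_lit 3) (nat_lit 7) (nat_lit 145) (nat_lit 91) r8_145 r9_91 (nat_lit 0) (nat_lit 0) (nat_lit 0) (nat_lit 0x8017985b4) (nat_lit 536870912)]
noncomputable def e15_18 : List Rx := [
  Rx.mk (nat_lit 472) (nat_lit 0) (nat_lit 3) (nat_lit 7) (nat_lit 6) (nat_lit 146) (nat_lit 126) r8_146 r4_126 (nat_lit 22851491) (nat_lit 0) (nat_lit 0) (nat_lit 0x7fa9b2676) (nat_lit 566471853),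
  Rx.mk (nat_lit 475) (nat_lit 3) (nat_lit 3) (nat_lit 7) (nat_lit 7) (nat_lit 148) (nat_lit 127) r8_148 r4_127 (nat_lit 0) (nat_lit 0) (nat_lit 0) (nat_lit 0x8017985b4) (nat_lit 536870912),
  Rx.mk (nat_lit 507) (nat_lit 3) (nat_lit 7) (nat_lit 7) (nat_lit 7) (nat_lit 147) (nat_lit 125) r8_147 r4_125 (nat_lit 0) (nat_lit 0) (nat_lit 0) (nat_lit 0x8017985b4) (nat_lit 536870912)]
noncomputable def e15_19 : List Rx := [
  Rx.mk (nat_lit 192) (nat_lit 0) (nat_lit 0) (nat_lit 3) (nat_lit 4) (nat_lit 149) (nat_lit 101) r8_149 r10_101 (nat_lit 25194848) (nat_lit 27532938) (nat_lit 0) (nat_lit 0x6502bec76) (nat_lit 1026751498),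
  Rx.mk (nat_lit 194) (nat_lit 2) (nat_lit 0) (nat_lit 3) (nat_lit 5) (nat_lit 152) (nat_lit 106) r8_152 r10_106 (nat_lit 0) (nat_lit 24741287) (nat_lit 0) (nat_lit 0x7fc74cd8a) (nat_lit 566520649),
  Rx.mk (nat_lit 210) (nat_lit 2) (nat_lit 2) (nat_lit 3) (nat_lit 7) (nat_lit 153) (nat_lit 108) r8_153 r10_108 (nat_lit 0) (nat_lit 0) (nat_lit 0) (nat_lit 0x8017985b4) (nat_lit 536870912),
  Rx.mk (nat_lit 216) (nat_lit 0) (nat_lit 3) (nat_lit 3) (nat_lit 6) (nat_lit 151) (nat_lit 102) r8_151 r10_102 (nat_lit 24741287) (nat_lit 0) (nat_lit 0) (nat_lit 0x80046e510) (nat_lit 562785099),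
  Rx.mk (nat_lit 218) (nat_lit 2) (nat_lit 3) (nat_lit 3) (nat_lit 7) (nat_lit 154) (nat_lit 107) r8_154 r10_107 (nat_lit 0) (nat_lit 0) (nat_lit 0) (nat_lit 0x8017985b4) (nat_lit 536870912),
  Rx.mk (nat_lit 472) (nat_lit 0) (nat_lit 3) (nat_lit 7) (nat_lit 6) (nat_lit 150) (nat_lit 103) r8_150 r10_103 (nat_lit 24741287) (nat_lit 0) (nat_lit 0) (nat_lit 0x8006a3cfe) (nat_lit 562650649),
  Rx.mk (nat_lit 475) (nat_lit 3) (nat_lit 3) (nat_lit 7) (nat_lit 7) (nat_lit 156) (nat_lit 104) r8_156 r10_104 (nat_lit 0) (nat_lit 0) (nat_lit 0) (nat_lit 0x8017985b4) (nat_lit 536870912),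
  Rx.mk (nat_lit 507) (nat_lit 3) (nat_lit 7) (nat_lit 7) (nat_lit 7) (nat_lit 155) (nat_lit 105) r8_155 r10_105 (nat_lit 0) (nat_lit 0) (nat_lit 0) (nat_lit 0x8017985b4) (nat_lit 536870912)]
noncomputable def e15_20 : List Rx := [
  Rx.mk (nat_lit 472) (nat_lit 0) (nat_lit 3) (nat_lit 7) (nat_lit 6) (nat_lit 157) (nat_lit 113) r8_157 r11_113 (nat_lit 24741287) (nat_lit 0) (nat_lit 0) (nat_lit 0x8017985b4) (nat_lit 561612199),
  Rx.mk (nat_lit 475) (nat_lit 3) (nat_lit 3) (nat_lit 7) (nat_lit 7) (nat_lit 158) (nat_lit 114) r8_158 r11_114 (nat_lit 0) (nat_lit 0) (nat_lit 0) (nat_lit 0x8017985b4) (nat_lit 536870912)]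
noncomputable def e15_21 : List Rx := [
  Rx.mk (nat_lit 0) (nat_lit 0) (nat_lit 0) (nat_lit 0) (nat_lit 0) (nat_lit 159) (nat_lit 183) r8_159 r9_183 (nat_lit 27871597) (nat_lit 23644808) (nat_lit 18255310) (nat_lit 0x407f928e4) (nat_lit 1634185527),
  Rx.mk (nat_lit 1) (nat_lit 1) (nat_lit 0) (nat_lit 0) (nat_lit 1) (nat_lit 165) (nat_lit 185) r8_165 r9_185 (nat_lit 0) (nat_lit 40805453) (nat_lit 130895702) (nat_lit 0x7010e2518) (nat_lit 966967117),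
  Rx.mk (nat_lit 2) (nat_lit 2) (nat_lit 0) (nat_lit 0) (nat_lit 1) (nat_lit 171) (nat_lit 187) r8_171 r9_187 (nat_lit 0) (nat_lit 30134438) (nat_lit 55618136) (nat_lit 0x6f41c019a) (nat_lit 894101936),
  Rx.mk (nat_lit 18) (nat_lit 2) (nat_lit 2) (nat_lit 0) (nat_lit 3) (nat_lit 174) (nat_lit 199) r8_174 r9_199 (nat_lit 0) (nat_lit 0) (nat_lit 24741287) (nat_lit 0x8017985b4) (nat_lit 561612199),
  Rx.mk (nat_lit 24) (nat_lit 0) (nat_lit 3) (nat_lit 0) (nat_lit 2) (nat_lit 162) (nat_lit 192) r8_162 r9_192 (nat_lit 28133172) (nat_lit 0) (nat_lit 40482942) (nat_lit 0x6d0747a06) (nat_lit 912998026),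
  Rx.mk (nat_lit 25) (nat_lit 1) (nat_lit 3) (nat_lit 0) (nat_lit 3) (nat_lit 168) (nat_lit 195) r8_168 r9_195 (nat_lit 0) (nat_lit 0) (nat_lit 24741287) (nat_lit 0x8017985b4) (nat_lit 561612199),
  Rx.mk (nat_lit 64) (nat_lit 0) (nat_lit 0) (nat_lit 1) (nat_lit 4) (nat_lit 160) (nat_lit 184) r8_160 r9_184 (nat_lit 34699300) (nat_lit 50716108) (nat_lit 0) (nat_lit 0x6b512c18c) (nat_lit 957466070),
  Rx.mk (nat_lit 65) (nat_lit 1) (nat_lit 0) (nat_lit 1) (nat_lit 5) (nat_lit 166) (nat_lit 186) r8_166 r9_186 (nat_lit 0) (nat_lit 23667545) (nat_lit 0) (nat_lit 0x7fe4ef41e) (nat_lit 563630257),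
  Rx.mk (nat_lit 66) (nat_lit 2) (nat_lit 0) (nat_lit 1) (nat_lit 5) (nat_lit 172) (nat_lit 188) r8_172 r9_188 (nat_lit 0) (nat_lit 24741287) (nat_lit 0) (nat_lit 0x8017985b4) (nat_lit 561612199),
  Rx.mk (nat_lit 72) (nat_lit 0) (nat_lit 1) (nat_lit 1) (nat_lit 6) (nat_lit 161) (nat_lit 189) r8_161 r9_189 (nat_lit 25054288) (nat_lit 0) (nat_lit 0) (nat_lit 0x800856290) (nat_lit 562857500),
  Rx.mk (nat_lit 73) (nat_lit 1) (nat_lit 1) (nat_lit 1) (nat_lit 7) (nat_lit 167) (nat_lit 190) r8_167 r9_190 (nat_lit 0) (nat_lit 0) (nat_lit 0) (nat_lit 0x8017985b4) (nat_lit 536870912),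
  Rx.mk (nat_lit 74) (nat_lit 2) (nat_lit 1) (nat_lit 1) (nat_lit 7) (nat_lit 173) (nat_lit 191) r8_173 r9_191 (nat_lit 0) (nat_lit 0) (nat_lit 0) (nat_lit 0x8017985b4) (nat_lit 536870912),
  Rx.mk (nat_lit 82) (nat_lit 2) (nat_lit 2) (nat_lit 1) (nat_lit 7) (nat_lit 175) (nat_lit 200) r8_175 r9_200 (nat_lit 0) (nat_lit 0) (nat_lit 0) (nat_lit 0x8017985b4) (nat_lit 536870912),
  Rx.mk (nat_lit 88) (nat_lit 0) (nat_lit 3) (nat_lit 1) (nat_lit 6) (nat_lit 163) (nat_lit 193) r8_163 r9_193 (nat_lit 24741287) (nat_lit 0) (nat_lit 0) (nat_lit 0x8009d4ae0) (nat_lit 562452249),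
  Rx.mk (nat_lit 89) (nat_lit 1) (nat_lit 3) (nat_lit 1) (nat_lit 7) (nat_lit 169) (nat_lit 196) r8_169 r9_196 (nat_lit 0) (nat_lit 0) (nat_lit 0) (nat_lit 0x8017985b4) (nat_lit 536870912),
  Rx.mk (nat_lit 146) (nat_lit 2) (nat_lit 2) (nat_lit 2) (nat_lit 7) (nat_lit 176) (nat_lit 201) r8_176 r9_201 (nat_lit 0) (nat_lit 0) (nat_lit 0) (nat_lit 0x8017985b4) (nat_lit 536870912),
  Rx.mk (nat_lit 216) (nat_lit 0) (nat_lit 3) (nat_lit 3) (nat_lit 6) (nat_lit 164) (nat_lit 194) r8_164 r9_194 (nat_lit 24741287) (nat_lit 0) (nat_lit 0) (nat_lit 0x8017985b4) (nat_lit 561612199),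
  Rx.mk (nat_lit 217) (nat_lit 1) (nat_lit 3) (nat_lit 3) (nat_lit 7) (nat_lit 170) (nat_lit 197) r8_170 r9_197 (nat_lit 0) (nat_lit 0) (nat_lit 0) (nat_lit 0x8017985b4) (nat_lit 536870912),
  Rx.mk (nat_lit 219) (nat_lit 3) (nat_lit 3) (nat_lit 3) (nat_lit 7) (nat_lit 177) (nat_lit 198) r8_177 r9_198 (nat_lit 0) (nat_lit 0) (nat_lit 0) (nat_lit 0x8017985b4) (nat_lit 536870912)]
noncomputable def e15_22 : List Rx := [
  Rx.mk (nat_lit 321) (nat_lit 1) (nat_lit 0) (nat_lit 5) (nat_lit 5) (nat_lit 178) (nat_lit 289) r8_178 r0_289 (nat_lit 0) (nat_lit 25058333) (nat_lit 0) (nat_lit 0x74a9cadf8) (nat_lit 746005345),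
  Rx.mk (nat_lit 329) (nat_lit 1) (nat_lit 1) (nat_lit 5) (nat_lit 7) (nat_lit 179) (nat_lit 290) r8_179 r0_290 (nat_lit 0) (nat_lit 0) (nat_lit 0) (nat_lit 0x7ffa6b34c) (nat_lit 538657562)]
noncomputable def e15_23 : List Rx := [
  Rx.mk (nat_lit 329) (nat_lit 1) (nat_lit 1) (nat_lit 5) (nat_lit 7) (nat_lit 180) (nat_lit 286) r8_180 r1_286 (nat_lit 0) (nat_lit 0) (nat_lit 0) (nat_lit 0x8017985b4) (nat_lit 536870912)]
noncomputable def e15_24 : List Rx := [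
  Rx.mk (nat_lit 321) (nat_lit 1) (nat_lit 0) (nat_lit 5) (nat_lit 5) (nat_lit 181) (nat_lit 304) r8_181 r4_304 (nat_lit 0) (nat_lit 24372871) (nat_lit 0) (nat_lit 0x7fec7bb1a) (nat_lit 563885983),
  Rx.mk (nat_lit 329) (nat_lit 1) (nat_lit 1) (nat_lit 5) (nat_lit 7) (nat_lit 182) (nat_lit 305) r8_182 r4_305 (nat_lit 0) (nat_lit 0) (nat_lit 0) (nat_lit 0x8017985b4) (nat_lit 536870912),
  Rx.mk (nat_lit 345) (nat_lit 1) (nat_lit 3) (nat_lit 5) (nat_lit 7) (nat_lit 183) (nat_lit 306) r8_183 r4_306 (nat_lit 0) (nat_lit 0) (nat_lit 0) (nat_lit 0x8017985b4) (nat_lit 536870912)]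
noncomputable def e15_25 : List Rx := [
  Rx.mk (nat_lit 65) (nat_lit 1) (nat_lit 0) (nat_lit 1) (nat_lit 5) (nat_lit 185) (nat_lit 242) r8_185 r7_242 (nat_lit 0) (nat_lit 25158612) (nat_lit 0) (nat_lit 0x7ffdc5b5a) (nat_lit 563608374),
  Rx.mk (nat_lit 73) (nat_lit 1) (nat_lit 1) (nat_lit 1) (nat_lit 7) (nat_lit 187) (nat_lit 244) r8_187 r7_244 (nat_lit 0) (nat_lit 0) (nat_lit 0) (nat_lit 0x8017985b4) (nat_lit 536870912),
  Rx.mk (nat_lit 89) (nat_lit 1) (nat_lit 3) (nat_lit 1) (nat_lit 7) (nat_lit 188) (nat_lit 245) r8_188 r7_245 (nat_lit 0) (nat_lit 0) (nat_lit 0) (nat_lit 0x8017985b4) (nat_lit 536870912),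
  Rx.mk (nat_lit 321) (nat_lit 1) (nat_lit 0) (nat_lit 5) (nat_lit 5) (nat_lit 184) (nat_lit 241) r8_184 r7_241 (nat_lit 0) (nat_lit 24741287) (nat_lit 0) (nat_lit 0x8017985b4) (nat_lit 561612199),
  Rx.mk (nat_lit 329) (nat_lit 1) (nat_lit 1) (nat_lit 5) (nat_lit 7) (nat_lit 186) (nat_lit 243) r8_186 r7_243 (nat_lit 0) (nat_lit 0) (nat_lit 0) (nat_lit 0x8017985b4) (nat_lit 536870912)]
noncomputable def e15_26 : List Rx := [
  Rx.mk (nat_lit 73) (nat_lit 1) (nat_lit 1) (nat_lit 1) (nat_lit 7) (nat_lit 190) (nat_lit 190) r8_190 r8_190 (nat_lit 0) (nat_lit 0) (nat_lit 0) (nat_lit 0x8017985b4) (nat_lit 536870912),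
  Rx.mk (nat_lit 329) (nat_lit 1) (nat_lit 1) (nat_lit 5) (nat_lit 7) (nat_lit 189) (nat_lit 189) r8_189 r8_189 (nat_lit 0) (nat_lit 0) (nat_lit 0) (nat_lit 0x8017985b4) (nat_lit 536870912)]
noncomputable def e15_27 : List Rx := [
  Rx.mk (nat_lit 65) (nat_lit 1) (nat_lit 0) (nat_lit 1) (nat_lit 5) (nat_lit 191) (nat_lit 323) r8_191 r8_323 (nat_lit 0) (nat_lit 24741287) (nat_lit 0) (nat_lit 0x8017985b4) (nat_lit 561612199),
  Rx.mk (nat_lit 73) (nat_lit 1) (nat_lit 1) (nat_lit 1) (nat_lit 7) (nat_lit 192) (nat_lit 324) r8_192 r8_324 (nat_lit 0) (nat_lit 0) (nat_lit 0) (nat_lit 0x8017985b4) (nat_lit 536870912),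
  Rx.mk (nat_lit 89) (nat_lit 1) (nat_lit 3) (nat_lit 1) (nat_lit 7) (nat_lit 193) (nat_lit 325) r8_193 r8_325 (nat_lit 0) (nat_lit 0) (nat_lit 0) (nat_lit 0x8017985b4) (nat_lit 536870912)]
noncomputable def e15_28 : List Rx := [
  Rx.mk (nat_lit 89) (nat_lit 1) (nat_lit 3) (nat_lit 1) (nat_lit 7) (nat_lit 197) (nat_lit 194) r8_197 r10_194 (nat_lit 0) (nat_lit 0) (nat_lit 0) (nat_lit 0x8017985b4) (nat_lit 536870912),
  Rx.mk (nat_lit 321) (nat_lit 1) (nat_lit 0) (nat_lit 5) (nat_lit 5) (nat_lit 194) (nat_lit 191) r8_194 r10_191 (nat_lit 0) (nat_lit 24741287) (nat_lit 0) (nat_lit 0x8017985b4) (nat_lit 561612199),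
  Rx.mk (nat_lit 329) (nat_lit 1) (nat_lit 1) (nat_lit 5) (nat_lit 7) (nat_lit 195) (nat_lit 192) r8_195 r10_192 (nat_lit 0) (nat_lit 0) (nat_lit 0) (nat_lit 0x8017985b4) (nat_lit 536870912),
  Rx.mk (nat_lit 345) (nat_lit 1) (nat_lit 3) (nat_lit 5) (nat_lit 7) (nat_lit 196) (nat_lit 193) r8_196 r10_193 (nat_lit 0) (nat_lit 0) (nat_lit 0) (nat_lit 0x8017985b4) (nat_lit 536870912)]
noncomputable def e15_29 : List Rx := [
  Rx.mk (nat_lit 321) (nat_lit 1) (nat_lit 0) (nat_lit 5) (nat_lit 5) (nat_lit 198) (nat_lit 219) r8_198 r11_219 (nat_lit 0) (nat_lit 24741287) (nat_lit 0) (nat_lit 0x8017985b4) (nat_lit 561612199),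
  Rx.mk (nat_lit 329) (nat_lit 1) (nat_lit 1) (nat_lit 5) (nat_lit 7) (nat_lit 199) (nat_lit 220) r8_199 r11_220 (nat_lit 0) (nat_lit 0) (nat_lit 0) (nat_lit 0x8017985b4) (nat_lit 536870912),
  Rx.mk (nat_lit 345) (nat_lit 1) (nat_lit 3) (nat_lit 5) (nat_lit 7) (nat_lit 200) (nat_lit 221) r8_200 r11_221 (nat_lit 0) (nat_lit 0) (nat_lit 0) (nat_lit 0x8017985b4) (nat_lit 536870912)]
noncomputable def e15_30 : List Rx := [
  Rx.mk (nat_lit 472) (nat_lit 0) (nat_lit 3) (nat_lit 7) (nat_lit 6) (nat_lit 202) (nat_lit 121) r8_202 r5_121 (nat_lit 10065734) (nat_lit 0) (nat_lit 0) (nat_lit 0x7e9c4689e) (nat_lit 570285946),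
  Rx.mk (nat_lit 473) (nat_lit 1) (nat_lit 3) (nat_lit 7) (nat_lit 7) (nat_lit 204) (nat_lit 122) r8_204 r5_122 (nat_lit 0) (nat_lit 0) (nat_lit 0) (nat_lit 0x80d50bd58) (nat_lit 525282062),
  Rx.mk (nat_lit 504) (nat_lit 0) (nat_lit 7) (nat_lit 7) (nat_lit 6) (nat_lit 201) (nat_lit 118) r8_201 r5_118 (nat_lit 25748057) (nat_lit 0) (nat_lit 0) (nat_lit 0x790d284fa) (nat_lit 675764869),
  Rx.mk (nat_lit 505) (nat_lit 1) (nat_lit 7) (nat_lit 7) (nat_lit 7) (nat_lit 203) (nat_lit 119) r8_203 r5_119 (nat_lit 0) (nat_lit 0) (nat_lit 0) (nat_lit 0x8017985b4) (nat_lit 536870912),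
  Rx.mk (nat_lit 507) (nat_lit 3) (nat_lit 7) (nat_lit 7) (nat_lit 7) (nat_lit 205) (nat_lit 120) r8_205 r5_120 (nat_lit 0) (nat_lit 0) (nat_lit 0) (nat_lit 0x8017985b4) (nat_lit 536870912)]
noncomputable def e15_31 : List Rx := [
  Rx.mk (nat_lit 216) (nat_lit 0) (nat_lit 3) (nat_lit 3) (nat_lit 6) (nat_lit 208) (nat_lit 120) r8_208 r11_120 (nat_lit 28059580) (nat_lit 0) (nat_lit 0) (nat_lit 0x7f58302f8) (nat_lit 576670492),
  Rx.mk (nat_lit 217) (nat_lit 1) (nat_lit 3) (nat_lit 3) (nat_lit 7) (nat_lit 211) (nat_lit 121) r8_211 r11_121 (nat_lit 0) (nat_lit 0) (nat_lit 0) (nat_lit 0x8017985b4) (nat_lit 536870912),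
  Rx.mk (nat_lit 218) (nat_lit 2) (nat_lit 3) (nat_lit 3) (nat_lit 7) (nat_lit 212) (nat_lit 122) r8_212 r11_122 (nat_lit 0) (nat_lit 0) (nat_lit 0) (nat_lit 0x8017985b4) (nat_lit 536870912),
  Rx.mk (nat_lit 472) (nat_lit 0) (nat_lit 3) (nat_lit 7) (nat_lit 6) (nat_lit 207) (nat_lit 118) r8_207 r11_118 (nat_lit 24741287) (nat_lit 0) (nat_lit 0) (nat_lit 0x8017985b4) (nat_lit 561612199),
  Rx.mk (nat_lit 473) (nat_lit 1) (nat_lit 3) (nat_lit 7) (nat_lit 7) (nat_lit 210) (nat_lit 119) r8_210 r11_119 (nat_lit 0) (nat_lit 0) (nat_lit 0) (nat_lit 0x8017985b4) (nat_lit 536870912),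
  Rx.mk (nat_lit 504) (nat_lit 0) (nat_lit 7) (nat_lit 7) (nat_lit 6) (nat_lit 206) (nat_lit 115) r8_206 r11_115 (nat_lit 24741287) (nat_lit 0) (nat_lit 0) (nat_lit 0x8017985b4) (nat_lit 561612199),
  Rx.mk (nat_lit 505) (nat_lit 1) (nat_lit 7) (nat_lit 7) (nat_lit 7) (nat_lit 209) (nat_lit 116) r8_209 r11_116 (nat_lit 0) (nat_lit 0) (nat_lit 0) (nat_lit 0x8017985b4) (nat_lit 536870912),
  Rx.mk (nat_lit 507) (nat_lit 3) (nat_lit 7) (nat_lit 7) (nat_lit 7) (nat_lit 213) (nat_lit 117) r8_213 r11_117 (nat_lit 0) (nat_lit 0) (nat_lit 0) (nat_lit 0x8017985b4) (nat_lit 536870912)]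
noncomputable def e15_32 : List Rx := [
  Rx.mk (nat_lit 281) (nat_lit 1) (nat_lit 3) (nat_lit 4) (nat_lit 3) (nat_lit 216) (nat_lit 301) r8_216 r6_301 (nat_lit 0) (nat_lit 0) (nat_lit 11102784) (nat_lit 0x80e83c530) (nat_lit 535184746),
  Rx.mk (nat_lit 313) (nat_lit 1) (nat_lit 7) (nat_lit 4) (nat_lit 3) (nat_lit 214) (nat_lit 300) r8_214 r6_300 (nat_lit 0) (nat_lit 0) (nat_lit 24741287) (nat_lit 0x8017985b4) (nat_lit 561612199),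
  Rx.mk (nat_lit 345) (nat_lit 1) (nat_lit 3) (nat_lit 5) (nat_lit 7) (nat_lit 217) (nat_lit 303) r8_217 r6_303 (nat_lit 0) (nat_lit 0) (nat_lit 0) (nat_lit 0x8017985b4) (nat_lit 536870912),
  Rx.mk (nat_lit 377) (nat_lit 1) (nat_lit 7) (nat_lit 5) (nat_lit 7) (nat_lit 215) (nat_lit 302) r8_215 r6_302 (nat_lit 0) (nat_lit 0) (nat_lit 0) (nat_lit 0x8017985b4) (nat_lit 536870912)]
noncomputable def e15_33 : List Rx := [
  Rx.mk (nat_lit 345) (nat_lit 1) (nat_lit 3) (nat_lit 5) (nat_lit 7) (nat_lit 218) (nat_lit 285) r8_218 r5_285 (nat_lit 0) (nat_lit 0) (nat_lit 0) (nat_lit 0x815927600) (nat_lit 517280412)]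
noncomputable def e15_34 : List Rx := [
  Rx.mk (nat_lit 89) (nat_lit 1) (nat_lit 3) (nat_lit 1) (nat_lit 7) (nat_lit 220) (nat_lit 343) r8_220 r11_343 (nat_lit 0) (nat_lit 0) (nat_lit 0) (nat_lit 0x8017985b4) (nat_lit 536870912),
  Rx.mk (nat_lit 345) (nat_lit 1) (nat_lit 3) (nat_lit 5) (nat_lit 7) (nat_lit 219) (nat_lit 344) r8_219 r11_344 (nat_lit 0) (nat_lit 0) (nat_lit 0) (nat_lit 0x8017985b4) (nat_lit 536870912)]
noncomputable def e15_35 : List Rx := [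
  Rx.mk (nat_lit 313) (nat_lit 1) (nat_lit 7) (nat_lit 4) (nat_lit 3) (nat_lit 221) (nat_lit 207) r8_221 r6_207 (nat_lit 0) (nat_lit 0) (nat_lit 24741287) (nat_lit 0x8017985b4) (nat_lit 561612199),
  Rx.mk (nat_lit 377) (nat_lit 1) (nat_lit 7) (nat_lit 5) (nat_lit 7) (nat_lit 222) (nat_lit 208) r8_222 r6_208 (nat_lit 0) (nat_lit 0) (nat_lit 0) (nat_lit 0x8017985b4) (nat_lit 536870912),
  Rx.mk (nat_lit 473) (nat_lit 1) (nat_lit 3) (nat_lit 7) (nat_lit 7) (nat_lit 224) (nat_lit 206) r8_224 r6_206 (nat_lit 0) (nat_lit 0) (nat_lit 0) (nat_lit 0x805730f46) (nat_lit 532963862),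
  Rx.mk (nat_lit 505) (nat_lit 1) (nat_lit 7) (nat_lit 7) (nat_lit 7) (nat_lit 223) (nat_lit 209) r8_223 r6_209 (nat_lit 0) (nat_lit 0) (nat_lit 0) (nat_lit 0x8017985b4) (nat_lit 536870912)]
noncomputable def e15_36 : List Rx := [
  Rx.mk (nat_lit 281) (nat_lit 1) (nat_lit 3) (nat_lit 4) (nat_lit 3) (nat_lit 227) (nat_lit 112) r8_227 r12_112 (nat_lit 0) (nat_lit 0) (nat_lit 8954591) (nat_lit 0x8144dd5dc) (nat_lit 527420603),
  Rx.mk (nat_lit 313) (nat_lit 1) (nat_lit 7) (nat_lit 4) (nat_lit 3) (nat_lit 225) (nat_lit 115) r8_225 r12_115 (nat_lit 0) (nat_lit 0) (nat_lit 25796827) (nat_lit 0x7fa80b20a) (nat_lit 569524589),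
  Rx.mk (nat_lit 345) (nat_lit 1) (nat_lit 3) (nat_lit 5) (nat_lit 7) (nat_lit 228) (nat_lit 113) r8_228 r12_113 (nat_lit 0) (nat_lit 0) (nat_lit 0) (nat_lit 0x8017985b4) (nat_lit 536870912),
  Rx.mk (nat_lit 377) (nat_lit 1) (nat_lit 7) (nat_lit 5) (nat_lit 7) (nat_lit 226) (nat_lit 116) r8_226 r12_116 (nat_lit 0) (nat_lit 0) (nat_lit 0) (nat_lit 0x8017985b4) (nat_lit 536870912),
  Rx.mk (nat_lit 473) (nat_lit 1) (nat_lit 3) (nat_lit 7) (nat_lit 7) (nat_lit 229) (nat_lit 114) r8_229 r12_114 (nat_lit 0) (nat_lit 0) (nat_lit 0) (nat_lit 0x8017985b4) (nat_lit 536870912)]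
noncomputable def e15_37 : List Rx := [
  Rx.mk (nat_lit 289) (nat_lit 1) (nat_lit 4) (nat_lit 4) (nat_lit 1) (nat_lit 237) (nat_lit 278) r8_237 r0_278 (nat_lit 0) (nat_lit 11187286) (nat_lit 22445376) (nat_lit 0x611b170e2) (nat_lit 1070645824),
  Rx.mk (nat_lit 293) (nat_lit 5) (nat_lit 4) (nat_lit 4) (nat_lit 1) (nat_lit 230) (nat_lit 271) r8_230 r0_271 (nat_lit 0) (nat_lit 75450971) (nat_lit 75494649) (nat_lit 0x5a61765d0) (nat_lit 1296858182),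
  Rx.mk (nat_lit 297) (nat_lit 1) (nat_lit 5) (nat_lit 4) (nat_lit 3) (nat_lit 239) (nat_lit 279) r8_239 r0_279 (nat_lit 0) (nat_lit 0) (nat_lit 24741287) (nat_lit 0x7faf81db8) (nat_lit 567993049),
  Rx.mk (nat_lit 301) (nat_lit 5) (nat_lit 5) (nat_lit 4) (nat_lit 3) (nat_lit 232) (nat_lit 272) r8_232 r0_272 (nat_lit 0) (nat_lit 0) (nat_lit 36993222) (nat_lit 0x7df6aaa0c) (nat_lit 607751434),
  Rx.mk (nat_lit 317) (nat_lit 5) (nat_lit 7) (nat_lit 4) (nat_lit 3) (nat_lit 234) (nat_lit 273) r8_234 r0_273 (nat_lit 0) (nat_lit 0) (nat_lit 25972273) (nat_lit 0x7eb8e4744) (nat_lit 584573485),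
  Rx.mk (nat_lit 353) (nat_lit 1) (nat_lit 4) (nat_lit 5) (nat_lit 5) (nat_lit 238) (nat_lit 280) r8_238 r0_280 (nat_lit 0) (nat_lit 25163350) (nat_lit 0) (nat_lit 0x75f165a36) (nat_lit 725421662),
  Rx.mk (nat_lit 357) (nat_lit 5) (nat_lit 4) (nat_lit 5) (nat_lit 5) (nat_lit 231) (nat_lit 274) r8_231 r0_274 (nat_lit 0) (nat_lit 30314307) (nat_lit 0) (nat_lit 0x6f3513136) (nat_lit 839472119),
  Rx.mk (nat_lit 361) (nat_lit 1) (nat_lit 5) (nat_lit 5) (nat_lit 7) (nat_lit 240) (nat_lit 281) r8_240 r0_281 (nat_lit 0) (nat_lit 0) (nat_lit 0) (nat_lit 0x80027a268) (nat_lit 538140112),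
  Rx.mk (nat_lit 365) (nat_lit 5) (nat_lit 5) (nat_lit 5) (nat_lit 7) (nat_lit 233) (nat_lit 275) r8_233 r0_275 (nat_lit 0) (nat_lit 0) (nat_lit 0) (nat_lit 0x7f69ccc6e) (nat_lit 547574012),
  Rx.mk (nat_lit 381) (nat_lit 5) (nat_lit 7) (nat_lit 5) (nat_lit 7) (nat_lit 235) (nat_lit 276) r8_235 r0_276 (nat_lit 0) (nat_lit 0) (nat_lit 0) (nat_lit 0x8017985b4) (nat_lit 536870912),
  Rx.mk (nat_lit 509) (nat_lit 5) (nat_lit 7) (nat_lit 7) (nat_lit 7) (nat_lit 236) (nat_lit 277) r8_236 r0_277 (nat_lit 0) (nat_lit 0) (nat_lit 0) (nat_lit 0x8010a6c4c) (nat_lit 537295162)]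
noncomputable def e15_38 : List Rx := [
  Rx.mk (nat_lit 293) (nat_lit 5) (nat_lit 4) (nat_lit 4) (nat_lit 1) (nat_lit 241) (nat_lit 188) r8_241 r0_188 (nat_lit 0) (nat_lit 24251954) (nat_lit 19008238) (nat_lit 0x59ee2d664) (nat_lit 1196415754),
  Rx.mk (nat_lit 317) (nat_lit 5) (nat_lit 7) (nat_lit 4) (nat_lit 3) (nat_lit 244) (nat_lit 191) r8_244 r0_191 (nat_lit 0) (nat_lit 0) (nat_lit 20123998) (nat_lit 0x7c1a22dec) (nat_lit 620862110),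
  Rx.mk (nat_lit 357) (nat_lit 5) (nat_lit 4) (nat_lit 5) (nat_lit 5) (nat_lit 242) (nat_lit 189) r8_242 r0_189 (nat_lit 0) (nat_lit 26165794) (nat_lit 0) (nat_lit 0x7b3e3e45c) (nat_lit 640781706),
  Rx.mk (nat_lit 381) (nat_lit 5) (nat_lit 7) (nat_lit 5) (nat_lit 7) (nat_lit 245) (nat_lit 192) r8_245 r0_192 (nat_lit 0) (nat_lit 0) (nat_lit 0) (nat_lit 0x8005f486c) (nat_lit 537949312),
  Rx.mk (nat_lit 421) (nat_lit 5) (nat_lit 4) (nat_lit 6) (nat_lit 5) (nat_lit 243) (nat_lit 190) r8_243 r0_190 (nat_lit 0) (nat_lit 32293832) (nat_lit 0) (nat_lit 0x808393b6a) (nat_lit 562478594),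
  Rx.mk (nat_lit 445) (nat_lit 5) (nat_lit 7) (nat_lit 6) (nat_lit 7) (nat_lit 246) (nat_lit 194) r8_246 r0_194 (nat_lit 0) (nat_lit 0) (nat_lit 0) (nat_lit 0x8017985b4) (nat_lit 536870912),
  Rx.mk (nat_lit 509) (nat_lit 5) (nat_lit 7) (nat_lit 7) (nat_lit 7) (nat_lit 247) (nat_lit 193) r8_247 r0_193 (nat_lit 0) (nat_lit 0) (nat_lit 0) (nat_lit 0x8017985b4) (nat_lit 536870912)]
noncomputable def e15_39 : List Rx := [
  Rx.mk (nat_lit 293) (nat_lit 5) (nat_lit 4) (nat_lit 4) (nat_lit 1) (nat_lit 248) (nat_lit 388) r8_248 r7_388 (nat_lit 0) (nat_lit 54887331) (nat_lit 69413824) (nat_lit 0x65c8453d2) (nat_lit 1085844417),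
  Rx.mk (nat_lit 301) (nat_lit 5) (nat_lit 5) (nat_lit 4) (nat_lit 3) (nat_lit 251) (nat_lit 389) r8_251 r7_389 (nat_lit 0) (nat_lit 0) (nat_lit 25521481) (nat_lit 0x8004c69ea) (nat_lit 563543143),
  Rx.mk (nat_lit 317) (nat_lit 5) (nat_lit 7) (nat_lit 4) (nat_lit 3) (nat_lit 254) (nat_lit 390) r8_254 r7_390 (nat_lit 0) (nat_lit 0) (nat_lit 24625619) (nat_lit 0x800a04d3a) (nat_lit 562328731),
  Rx.mk (nat_lit 357) (nat_lit 5) (nat_lit 4) (nat_lit 5) (nat_lit 5) (nat_lit 249) (nat_lit 391) r8_249 r7_391 (nat_lit 0) (nat_lit 25009292) (nat_lit 0) (nat_lit 0x8011540e0) (nat_lit 562263654),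
  Rx.mk (nat_lit 365) (nat_lit 5) (nat_lit 5) (nat_lit 5) (nat_lit 7) (nat_lit 252) (nat_lit 392) r8_252 r7_392 (nat_lit 0) (nat_lit 0) (nat_lit 0) (nat_lit 0x8017985b4) (nat_lit 536870912),
  Rx.mk (nat_lit 381) (nat_lit 5) (nat_lit 7) (nat_lit 5) (nat_lit 7) (nat_lit 255) (nat_lit 393) r8_255 r7_393 (nat_lit 0) (nat_lit 0) (nat_lit 0) (nat_lit 0x8017985b4) (nat_lit 536870912),
  Rx.mk (nat_lit 421) (nat_lit 5) (nat_lit 4) (nat_lit 6) (nat_lit 5) (nat_lit 250) (nat_lit 395) r8_250 r7_395 (nat_lit 0) (nat_lit 24741287) (nat_lit 0) (nat_lit 0x8017985b4) (nat_lit 561612199),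
  Rx.mk (nat_lit 429) (nat_lit 5) (nat_lit 5) (nat_lit 6) (nat_lit 7) (nat_lit 253) (nat_lit 396) r8_253 r7_396 (nat_lit 0) (nat_lit 0) (nat_lit 0) (nat_lit 0x8017985b4) (nat_lit 536870912),
  Rx.mk (nat_lit 509) (nat_lit 5) (nat_lit 7) (nat_lit 7) (nat_lit 7) (nat_lit 256) (nat_lit 394) r8_256 r7_394 (nat_lit 0) (nat_lit 0) (nat_lit 0) (nat_lit 0x8017985b4) (nat_lit 536870912)]
noncomputable def e15_40 : List Rx := [
  Rx.mk (nat_lit 292) (nat_lit 4) (nat_lit 4) (nat_lit 4) (nat_lit 0) (nat_lit 257) (nat_lit 221) r8_257 r2_221 (nat_lit 8042902) (nat_lit 9703689) (nat_lit 7956767) (nat_lit 0x3b91a0bee) (nat_lit 1669754570),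
  Rx.mk (nat_lit 316) (nat_lit 4) (nat_lit 7) (nat_lit 4) (nat_lit 2) (nat_lit 260) (nat_lit 223) r8_260 r2_223 (nat_lit 26855489) (nat_lit 0) (nat_lit 23014465) (nat_lit 0x65ff1eed0) (nat_lit 1007952966),
  Rx.mk (nat_lit 319) (nat_lit 7) (nat_lit 7) (nat_lit 4) (nat_lit 3) (nat_lit 263) (nat_lit 224) r8_263 r2_224 (nat_lit 0) (nat_lit 0) (nat_lit 24741287) (nat_lit 0x8005746a8) (nat_lit 562722999),
  Rx.mk (nat_lit 420) (nat_lit 4) (nat_lit 4) (nat_lit 6) (nat_lit 4) (nat_lit 258) (nat_lit 222) r8_258 r2_222 (nat_lit 26195638) (nat_lit 23096430) (nat_lit 0) (nat_lit 0x64c1b892a) (nat_lit 1027421630),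
  Rx.mk (nat_lit 436) (nat_lit 4) (nat_lit 6) (nat_lit 6) (nat_lit 6) (nat_lit 259) (nat_lit 228) r8_259 r2_228 (nat_lit 24741287) (nat_lit 0) (nat_lit 0) (nat_lit 0x8017985b4) (nat_lit 561612199),
  Rx.mk (nat_lit 438) (nat_lit 6) (nat_lit 6) (nat_lit 6) (nat_lit 7) (nat_lit 262) (nat_lit 229) r8_262 r2_229 (nat_lit 0) (nat_lit 0) (nat_lit 0) (nat_lit 0x8017985b4) (nat_lit 536870912),
  Rx.mk (nat_lit 444) (nat_lit 4) (nat_lit 7) (nat_lit 6) (nat_lit 6) (nat_lit 261) (nat_lit 226) r8_261 r2_226 (nat_lit 25403330) (nat_lit 0) (nat_lit 0) (nat_lit 0x7ff0757d4) (nat_lit 564659792),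
  Rx.mk (nat_lit 447) (nat_lit 7) (nat_lit 7) (nat_lit 6) (nat_lit 7) (nat_lit 264) (nat_lit 227) r8_264 r2_227 (nat_lit 0) (nat_lit 0) (nat_lit 0) (nat_lit 0x8017985b4) (nat_lit 536870912),
  Rx.mk (nat_lit 511) (nat_lit 7) (nat_lit 7) (nat_lit 7) (nat_lit 7) (nat_lit 265) (nat_lit 225) r8_265 r2_225 (nat_lit 0) (nat_lit 0) (nat_lit 0) (nat_lit 0x8017985b4) (nat_lit 536870912)]
noncomputable def e15_41 : List Rx := [
  Rx.mk (nat_lit 292) (nat_lit 4) (nat_lit 4) (nat_lit 4) (nat_lit 0) (nat_lit 266) (nat_lit 202) r8_266 r9_202 (nat_lit 16962537) (nat_lit 37514210) (nat_lit 23929726) (nat_lit 0x3e09e15de) (nat_lit 1682604485),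
  Rx.mk (nat_lit 316) (nat_lit 4) (nat_lit 7) (nat_lit 4) (nat_lit 2) (nat_lit 269) (nat_lit 204) r8_269 r9_204 (nat_lit 29280147) (nat_lit 0) (nat_lit 25355923) (nat_lit 0x6cdd7d4fa) (nat_lit 901656982),
  Rx.mk (nat_lit 319) (nat_lit 7) (nat_lit 7) (nat_lit 4) (nat_lit 3) (nat_lit 271) (nat_lit 205) r8_271 r9_205 (nat_lit 0) (nat_lit 0) (nat_lit 24741287) (nat_lit 0x8017985b4) (nat_lit 561612199),
  Rx.mk (nat_lit 420) (nat_lit 4) (nat_lit 4) (nat_lit 6) (nat_lit 4) (nat_lit 267) (nat_lit 203) r8_267 r9_203 (nat_lit 34060215) (nat_lit 27096766) (nat_lit 0) (nat_lit 0x698596640) (nat_lit 962235943),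
  Rx.mk (nat_lit 436) (nat_lit 4) (nat_lit 6) (nat_lit 6) (nat_lit 6) (nat_lit 268) (nat_lit 207) r8_268 r9_207 (nat_lit 24537189) (nat_lit 0) (nat_lit 0) (nat_lit 0x8007ecd18) (nat_lit 562365701),
  Rx.mk (nat_lit 438) (nat_lit 6) (nat_lit 6) (nat_lit 6) (nat_lit 7) (nat_lit 270) (nat_lit 208) r8_270 r9_208 (nat_lit 0) (nat_lit 0) (nat_lit 0) (nat_lit 0x8017985b4) (nat_lit 536870912),
  Rx.mk (nat_lit 511) (nat_lit 7) (nat_lit 7) (nat_lit 7) (nat_lit 7) (nat_lit 272) (nat_lit 206) r8_272 r9_206 (nat_lit 0) (nat_lit 0) (nat_lit 0) (nat_lit 0x8017985b4) (nat_lit 536870912)]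
noncomputable def e15_42 : List Rx := [
  Rx.mk (nat_lit 182) (nat_lit 6) (nat_lit 6) (nat_lit 2) (nat_lit 7) (nat_lit 279) (nat_lit 108) r8_279 r9_108 (nat_lit 0) (nat_lit 0) (nat_lit 0) (nat_lit 0x8017985b4) (nat_lit 536870912),
  Rx.mk (nat_lit 292) (nat_lit 4) (nat_lit 4) (nat_lit 4) (nat_lit 0) (nat_lit 273) (nat_lit 99) r8_273 r9_99 (nat_lit 15284300) (nat_lit 46447449) (nat_lit 18790511) (nat_lit 0x3cee725c4) (nat_lit 1702614672),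
  Rx.mk (nat_lit 316) (nat_lit 4) (nat_lit 7) (nat_lit 4) (nat_lit 2) (nat_lit 276) (nat_lit 100) r8_276 r9_100 (nat_lit 26650245) (nat_lit 0) (nat_lit 23999425) (nat_lit 0x66dd7892e) (nat_lit 994688732),
  Rx.mk (nat_lit 319) (nat_lit 7) (nat_lit 7) (nat_lit 4) (nat_lit 3) (nat_lit 280) (nat_lit 101) r8_280 r9_101 (nat_lit 0) (nat_lit 0) (nat_lit 24741287) (nat_lit 0x7ff1b40e6) (nat_lit 563929249),
  Rx.mk (nat_lit 420) (nat_lit 4) (nat_lit 4) (nat_lit 6) (nat_lit 4) (nat_lit 274) (nat_lit 103) r8_274 r9_103 (nat_lit 24950323) (nat_lit 23607638) (nat_lit 0) (nat_lit 0x64fca11c2) (nat_lit 1022966473),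
  Rx.mk (nat_lit 436) (nat_lit 4) (nat_lit 6) (nat_lit 6) (nat_lit 6) (nat_lit 275) (nat_lit 106) r8_275 r9_106 (nat_lit 24741287) (nat_lit 0) (nat_lit 0) (nat_lit 0x800b35984) (nat_lit 562371349),
  Rx.mk (nat_lit 438) (nat_lit 6) (nat_lit 6) (nat_lit 6) (nat_lit 7) (nat_lit 278) (nat_lit 107) r8_278 r9_107 (nat_lit 0) (nat_lit 0) (nat_lit 0) (nat_lit 0x8017985b4) (nat_lit 536870912),
  Rx.mk (nat_lit 444) (nat_lit 4) (nat_lit 7) (nat_lit 6) (nat_lit 6) (nat_lit 277) (nat_lit 104) r8_277 r9_104 (nat_lit 24488988) (nat_lit 0) (nat_lit 0) (nat_lit 0x7ff6155ae) (nat_lit 563408300),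
  Rx.mk (nat_lit 447) (nat_lit 7) (nat_lit 7) (nat_lit 6) (nat_lit 7) (nat_lit 281) (nat_lit 105) r8_281 r9_105 (nat_lit 0) (nat_lit 0) (nat_lit 0) (nat_lit 0x8017985b4) (nat_lit 536870912),
  Rx.mk (nat_lit 511) (nat_lit 7) (nat_lit 7) (nat_lit 7) (nat_lit 7) (nat_lit 282) (nat_lit 102) r8_282 r9_102 (nat_lit 0) (nat_lit 0) (nat_lit 0) (nat_lit 0x8017985b4) (nat_lit 536870912)]
noncomputable def e15_43 : List Rx := [
  Rx.mk (nat_lit 292) (nat_lit 4) (nat_lit 4) (nat_lit 4) (nat_lit 0) (nat_lit 283) (nat_lit 201) r8_283 r1_201 (nat_lit 11826643) (nat_lit 34852659) (nat_lit 20700425) (nat_lit 0x3dc59600a) (nat_lit 1675850589),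
  Rx.mk (nat_lit 293) (nat_lit 5) (nat_lit 4) (nat_lit 4) (nat_lit 1) (nat_lit 289) (nat_lit 202) r8_289 r1_202 (nat_lit 0) (nat_lit 29801349) (nat_lit 32376877) (nat_lit 0x669a3f496) (nat_lit 1010443188),
  Rx.mk (nat_lit 316) (nat_lit 4) (nat_lit 7) (nat_lit 4) (nat_lit 2) (nat_lit 286) (nat_lit 206) r8_286 r1_206 (nat_lit 31654428) (nat_lit 0) (nat_lit 33972801) (nat_lit 0x6c187865a) (nat_lit 925088641),
  Rx.mk (nat_lit 317) (nat_lit 5) (nat_lit 7) (nat_lit 4) (nat_lit 3) (nat_lit 293) (nat_lit 207) r8_293 r1_207 (nat_lit 0) (nat_lit 0) (nat_lit 25834482) (nat_lit 0x7f77d0d42) (nat_lit 572534144),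
  Rx.mk (nat_lit 357) (nat_lit 5) (nat_lit 4) (nat_lit 5) (nat_lit 5) (nat_lit 290) (nat_lit 203) r8_290 r1_203 (nat_lit 0) (nat_lit 25018304) (nat_lit 0) (nat_lit 0x7fdcdbf2a) (nat_lit 565476766),
  Rx.mk (nat_lit 381) (nat_lit 5) (nat_lit 7) (nat_lit 5) (nat_lit 7) (nat_lit 294) (nat_lit 208) r8_294 r1_208 (nat_lit 0) (nat_lit 0) (nat_lit 0) (nat_lit 0x8017985b4) (nat_lit 536870912),
  Rx.mk (nat_lit 420) (nat_lit 4) (nat_lit 4) (nat_lit 6) (nat_lit 4) (nat_lit 284) (nat_lit 204) r8_284 r1_204 (nat_lit 26799246) (nat_lit 57475971) (nat_lit 0) (nat_lit 0x672d75b5c) (nat_lit 1023262029),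
  Rx.mk (nat_lit 421) (nat_lit 5) (nat_lit 4) (nat_lit 6) (nat_lit 5) (nat_lit 291) (nat_lit 205) r8_291 r1_205 (nat_lit 0) (nat_lit 25047671) (nat_lit 0) (nat_lit 0x804337652) (nat_lit 559218933),
  Rx.mk (nat_lit 436) (nat_lit 4) (nat_lit 6) (nat_lit 6) (nat_lit 6) (nat_lit 285) (nat_lit 214) r8_285 r1_214 (nat_lit 25082552) (nat_lit 0) (nat_lit 0) (nat_lit 0x71434a6d0) (nat_lit 800991214),
  Rx.mk (nat_lit 437) (nat_lit 5) (nat_lit 6) (nat_lit 6) (nat_lit 7) (nat_lit 292) (nat_lit 215) r8_292 r1_215 (nat_lit 0) (nat_lit 0) (nat_lit 0) (nat_lit 0x808e1a7dc) (nat_lit 529571662),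
  Rx.mk (nat_lit 438) (nat_lit 6) (nat_lit 6) (nat_lit 6) (nat_lit 7) (nat_lit 297) (nat_lit 216) r8_297 r1_216 (nat_lit 0) (nat_lit 0) (nat_lit 0) (nat_lit 0x7ed9578a0) (nat_lit 556568262),
  Rx.mk (nat_lit 444) (nat_lit 4) (nat_lit 7) (nat_lit 6) (nat_lit 6) (nat_lit 287) (nat_lit 212) r8_287 r1_212 (nat_lit 24741287) (nat_lit 0) (nat_lit 0) (nat_lit 0x8017985b4) (nat_lit 561612199),
  Rx.mk (nat_lit 445) (nat_lit 5) (nat_lit 7) (nat_lit 6) (nat_lit 7) (nat_lit 295) (nat_lit 213) r8_295 r1_213 (nat_lit 0) (nat_lit 0) (nat_lit 0) (nat_lit 0x8017985b4) (nat_lit 536870912),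
  Rx.mk (nat_lit 508) (nat_lit 4) (nat_lit 7) (nat_lit 7) (nat_lit 6) (nat_lit 288) (nat_lit 209) r8_288 r1_209 (nat_lit 24741287) (nat_lit 0) (nat_lit 0) (nat_lit 0x8017985b4) (nat_lit 561612199),
  Rx.mk (nat_lit 509) (nat_lit 5) (nat_lit 7) (nat_lit 7) (nat_lit 7) (nat_lit 296) (nat_lit 210) r8_296 r1_210 (nat_lit 0) (nat_lit 0) (nat_lit 0) (nat_lit 0x8017985b4) (nat_lit 536870912),
  Rx.mk (nat_lit 511) (nat_lit 7) (nat_lit 7) (nat_lit 7) (nat_lit 7) (nat_lit 298) (nat_lit 211) r8_298 r1_211 (nat_lit 0) (nat_lit 0) (nat_lit 0) (nat_lit 0x8017985b4) (nat_lit 536870912)]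
noncomputable def e15_44 : List Rx := [
  Rx.mk (nat_lit 292) (nat_lit 4) (nat_lit 4) (nat_lit 4) (nat_lit 0) (nat_lit 299) (nat_lit 299) r8_299 r8_299 (nat_lit 24537386) (nat_lit 49404879) (nat_lit 49404879) (nat_lit 0x3fed72ca2) (nat_lit 1697003556),
  Rx.mk (nat_lit 293) (nat_lit 5) (nat_lit 4) (nat_lit 4) (nat_lit 1) (nat_lit 304) (nat_lit 304) r8_304 r8_304 (nat_lit 0) (nat_lit 73831755) (nat_lit 73831755) (nat_lit 0x6cd203c6e) (nat_lit 995409072),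
  Rx.mk (nat_lit 301) (nat_lit 5) (nat_lit 5) (nat_lit 4) (nat_lit 3) (nat_lit 307) (nat_lit 305) r8_307 r8_305 (nat_lit 0) (nat_lit 0) (nat_lit 23858381) (nat_lit 0x7fdfd7f80) (nat_lit 564143543),
  Rx.mk (nat_lit 316) (nat_lit 4) (nat_lit 7) (nat_lit 4) (nat_lit 2) (nat_lit 302) (nat_lit 300) r8_302 r8_300 (nat_lit 44632481) (nat_lit 0) (nat_lit 39717842) (nat_lit 0x6cbc2f938) (nat_lit 933479835),
  Rx.mk (nat_lit 317) (nat_lit 5) (nat_lit 7) (nat_lit 4) (nat_lit 3) (nat_lit 311) (nat_lit 306) r8_311 r8_306 (nat_lit 0) (nat_lit 0) (nat_lit 24741287) (nat_lit 0x8017985b4) (nat_lit 561612199),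
  Rx.mk (nat_lit 357) (nat_lit 5) (nat_lit 4) (nat_lit 5) (nat_lit 5) (nat_lit 305) (nat_lit 307) r8_305 r8_307 (nat_lit 0) (nat_lit 23858381) (nat_lit 0) (nat_lit 0x7fdfd7f80) (nat_lit 564143543),
  Rx.mk (nat_lit 365) (nat_lit 5) (nat_lit 5) (nat_lit 5) (nat_lit 7) (nat_lit 308) (nat_lit 308) r8_308 r8_308 (nat_lit 0) (nat_lit 0) (nat_lit 0) (nat_lit 0x8017985b4) (nat_lit 536870912),
  Rx.mk (nat_lit 381) (nat_lit 5) (nat_lit 7) (nat_lit 5) (nat_lit 7) (nat_lit 312) (nat_lit 309) r8_312 r8_309 (nat_lit 0) (nat_lit 0) (nat_lit 0) (nat_lit 0x8017985b4) (nat_lit 536870912),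
  Rx.mk (nat_lit 420) (nat_lit 4) (nat_lit 4) (nat_lit 6) (nat_lit 4) (nat_lit 300) (nat_lit 302) r8_300 r8_302 (nat_lit 44632481) (nat_lit 39717842) (nat_lit 0) (nat_lit 0x6cbc2f938) (nat_lit 933479835),
  Rx.mk (nat_lit 421) (nat_lit 5) (nat_lit 4) (nat_lit 6) (nat_lit 5) (nat_lit 306) (nat_lit 311) r8_306 r8_311 (nat_lit 0) (nat_lit 24741287) (nat_lit 0) (nat_lit 0x8017985b4) (nat_lit 561612199),
  Rx.mk (nat_lit 429) (nat_lit 5) (nat_lit 5) (nat_lit 6) (nat_lit 7) (nat_lit 309) (nat_lit 312) r8_309 r8_312 (nat_lit 0) (nat_lit 0) (nat_lit 0) (nat_lit 0x8017985b4) (nat_lit 536870912),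
  Rx.mk (nat_lit 436) (nat_lit 4) (nat_lit 6) (nat_lit 6) (nat_lit 6) (nat_lit 301) (nat_lit 303) r8_301 r8_303 (nat_lit 24741287) (nat_lit 0) (nat_lit 0) (nat_lit 0x8017985b4) (nat_lit 561612199),
  Rx.mk (nat_lit 437) (nat_lit 5) (nat_lit 6) (nat_lit 6) (nat_lit 7) (nat_lit 310) (nat_lit 313) r8_310 r8_313 (nat_lit 0) (nat_lit 0) (nat_lit 0) (nat_lit 0x8017985b4) (nat_lit 536870912),
  Rx.mk (nat_lit 438) (nat_lit 6) (nat_lit 6) (nat_lit 6) (nat_lit 7) (nat_lit 314) (nat_lit 315) r8_314 r8_315 (nat_lit 0) (nat_lit 0) (nat_lit 0) (nat_lit 0x8017985b4) (nat_lit 536870912),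
  Rx.mk (nat_lit 508) (nat_lit 4) (nat_lit 7) (nat_lit 7) (nat_lit 6) (nat_lit 303) (nat_lit 301) r8_303 r8_301 (nat_lit 24741287) (nat_lit 0) (nat_lit 0) (nat_lit 0x8017985b4) (nat_lit 561612199),
  Rx.mk (nat_lit 509) (nat_lit 5) (nat_lit 7) (nat_lit 7) (nat_lit 7) (nat_lit 313) (nat_lit 310) r8_313 r8_310 (nat_lit 0) (nat_lit 0) (nat_lit 0) (nat_lit 0x8017985b4) (nat_lit 536870912),
  Rx.mk (nat_lit 511) (nat_lit 7) (nat_lit 7) (nat_lit 7) (nat_lit 7) (nat_lit 315) (nat_lit 314) r8_315 r8_314 (nat_lit 0) (nat_lit 0) (nat_lit 0) (nat_lit 0x8017985b4) (nat_lit 536870912)]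
noncomputable def e15_45 : List Rx := [
  Rx.mk (nat_lit 297) (nat_lit 1) (nat_lit 5) (nat_lit 4) (nat_lit 3) (nat_lit 318) (nat_lit 276) r8_318 r1_276 (nat_lit 0) (nat_lit 0) (nat_lit 24741287) (nat_lit 0x8017985b4) (nat_lit 561612199),
  Rx.mk (nat_lit 301) (nat_lit 5) (nat_lit 5) (nat_lit 4) (nat_lit 3) (nat_lit 316) (nat_lit 274) r8_316 r1_274 (nat_lit 0) (nat_lit 0) (nat_lit 24586055) (nat_lit 0x80057ba20) (nat_lit 562565917),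
  Rx.mk (nat_lit 361) (nat_lit 1) (nat_lit 5) (nat_lit 5) (nat_lit 7) (nat_lit 319) (nat_lit 277) r8_319 r1_277 (nat_lit 0) (nat_lit 0) (nat_lit 0) (nat_lit 0x8017985b4) (nat_lit 536870912),
  Rx.mk (nat_lit 365) (nat_lit 5) (nat_lit 5) (nat_lit 5) (nat_lit 7) (nat_lit 317) (nat_lit 275) r8_317 r1_275 (nat_lit 0) (nat_lit 0) (nat_lit 0) (nat_lit 0x8017985b4) (nat_lit 536870912)]
noncomputable def e15_46 : List Rx := [
  Rx.mk (nat_lit 329) (nat_lit 1) (nat_lit 1) (nat_lit 5) (nat_lit 7) (nat_lit 322) (nat_lit 303) r8_322 r2_303 (nat_lit 0) (nat_lit 0) (nat_lit 0) (nat_lit 0x8017985b4) (nat_lit 536870912),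
  Rx.mk (nat_lit 361) (nat_lit 1) (nat_lit 5) (nat_lit 5) (nat_lit 7) (nat_lit 321) (nat_lit 302) r8_321 r2_302 (nat_lit 0) (nat_lit 0) (nat_lit 0) (nat_lit 0x8017985b4) (nat_lit 536870912),
  Rx.mk (nat_lit 365) (nat_lit 5) (nat_lit 5) (nat_lit 5) (nat_lit 7) (nat_lit 320) (nat_lit 301) r8_320 r2_301 (nat_lit 0) (nat_lit 0) (nat_lit 0) (nat_lit 0x8017985b4) (nat_lit 536870912)]
noncomputable def e15_47 : List Rx := [
  Rx.mk (nat_lit 301) (nat_lit 5) (nat_lit 5) (nat_lit 4) (nat_lit 3) (nat_lit 323) (nat_lit 191) r8_323 r8_191 (nat_lit 0) (nat_lit 0) (nat_lit 24741287) (nat_lit 0x8017985b4) (nat_lit 561612199),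
  Rx.mk (nat_lit 365) (nat_lit 5) (nat_lit 5) (nat_lit 5) (nat_lit 7) (nat_lit 324) (nat_lit 192) r8_324 r8_192 (nat_lit 0) (nat_lit 0) (nat_lit 0) (nat_lit 0x8017985b4) (nat_lit 536870912),
  Rx.mk (nat_lit 429) (nat_lit 5) (nat_lit 5) (nat_lit 6) (nat_lit 7) (nat_lit 325) (nat_lit 193) r8_325 r8_193 (nat_lit 0) (nat_lit 0) (nat_lit 0) (nat_lit 0x8017985b4) (nat_lit 536870912)]
noncomputable def e15_48 : List Rx := [
  Rx.mk (nat_lit 365) (nat_lit 5) (nat_lit 5) (nat_lit 5) (nat_lit 7) (nat_lit 326) (nat_lit 289) r8_326 r9_289 (nat_lit 0) (nat_lit 0) (nat_lit 0) (nat_lit 0x8017985b4) (nat_lit 536870912)]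
noncomputable def e15_49 : List Rx := [
  Rx.mk (nat_lit 73) (nat_lit 1) (nat_lit 1) (nat_lit 1) (nat_lit 7) (nat_lit 330) (nat_lit 294) r8_330 r9_294 (nat_lit 0) (nat_lit 0) (nat_lit 0) (nat_lit 0x8017985b4) (nat_lit 536870912),
  Rx.mk (nat_lit 329) (nat_lit 1) (nat_lit 1) (nat_lit 5) (nat_lit 7) (nat_lit 329) (nat_lit 295) r8_329 r9_295 (nat_lit 0) (nat_lit 0) (nat_lit 0) (nat_lit 0x8017985b4) (nat_lit 536870912),
  Rx.mk (nat_lit 361) (nat_lit 1) (nat_lit 5) (nat_lit 5) (nat_lit 7) (nat_lit 328) (nat_lit 296) r8_328 r9_296 (nat_lit 0) (nat_lit 0) (nat_lit 0) (nat_lit 0x8017985b4) (nat_lit 536870912),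
  Rx.mk (nat_lit 365) (nat_lit 5) (nat_lit 5) (nat_lit 5) (nat_lit 7) (nat_lit 327) (nat_lit 297) r8_327 r9_297 (nat_lit 0) (nat_lit 0) (nat_lit 0) (nat_lit 0x8017985b4) (nat_lit 536870912)]
noncomputable def e15_50 : List Rx := [
  Rx.mk (nat_lit 289) (nat_lit 1) (nat_lit 4) (nat_lit 4) (nat_lit 1) (nat_lit 334) (nat_lit 268) r8_334 r3_268 (nat_lit 0) (nat_lit 913664) (nat_lit 875122) (nat_lit 0x5cc5f9ef6) (nat_lit 1108454298),
  Rx.mk (nat_lit 313) (nat_lit 1) (nat_lit 7) (nat_lit 4) (nat_lit 3) (nat_lit 336) (nat_lit 269) r8_336 r3_269 (nat_lit 0) (nat_lit 0) (nat_lit 6010146) (nat_lit 0x6e1566726) (nat_lit 833142708),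
  Rx.mk (nat_lit 317) (nat_lit 5) (nat_lit 7) (nat_lit 4) (nat_lit 3) (nat_lit 331) (nat_lit 265) r8_331 r3_265 (nat_lit 0) (nat_lit 0) (nat_lit 14122163) (nat_lit 0x6b5780b64) (nat_lit 885726425),
  Rx.mk (nat_lit 353) (nat_lit 1) (nat_lit 4) (nat_lit 5) (nat_lit 5) (nat_lit 335) (nat_lit 270) r8_335 r3_270 (nat_lit 0) (nat_lit 20103359) (nat_lit 0) (nat_lit 0x733b06e04) (nat_lit 764186071),
  Rx.mk (nat_lit 377) (nat_lit 1) (nat_lit 7) (nat_lit 5) (nat_lit 7) (nat_lit 337) (nat_lit 271) r8_337 r3_271 (nat_lit 0) (nat_lit 0) (nat_lit 0) (nat_lit 0x7f8ae4a3c) (nat_lit 545526512),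
  Rx.mk (nat_lit 381) (nat_lit 5) (nat_lit 7) (nat_lit 5) (nat_lit 7) (nat_lit 332) (nat_lit 266) r8_332 r3_266 (nat_lit 0) (nat_lit 0) (nat_lit 0) (nat_lit 0x8017985b4) (nat_lit 536870912),
  Rx.mk (nat_lit 509) (nat_lit 5) (nat_lit 7) (nat_lit 7) (nat_lit 7) (nat_lit 333) (nat_lit 267) r8_333 r3_267 (nat_lit 0) (nat_lit 0) (nat_lit 0) (nat_lit 0x7f54cbf2c) (nat_lit 548916912)]
noncomputable def e15_51 : List Rx := [
  Rx.mk (nat_lit 289) (nat_lit 1) (nat_lit 4) (nat_lit 4) (nat_lit 1) (nat_lit 341) (nat_lit 287) r8_341 r4_287 (nat_lit 0) (nat_lit 34758505) (nat_lit 27124229) (nat_lit 0x700d128ac) (nat_lit 857380996),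
  Rx.mk (nat_lit 297) (nat_lit 1) (nat_lit 5) (nat_lit 4) (nat_lit 3) (nat_lit 343) (nat_lit 288) r8_343 r4_288 (nat_lit 0) (nat_lit 0) (nat_lit 24741287) (nat_lit 0x7ff500268) (nat_lit 563728899),
  Rx.mk (nat_lit 313) (nat_lit 1) (nat_lit 7) (nat_lit 4) (nat_lit 3) (nat_lit 345) (nat_lit 289) r8_345 r4_289 (nat_lit 0) (nat_lit 0) (nat_lit 24741287) (nat_lit 0x8017985b4) (nat_lit 561612199),
  Rx.mk (nat_lit 317) (nat_lit 5) (nat_lit 7) (nat_lit 4) (nat_lit 3) (nat_lit 338) (nat_lit 284) r8_338 r4_284 (nat_lit 0) (nat_lit 0) (nat_lit 24741287) (nat_lit 0x8017985b4) (nat_lit 561612199),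
  Rx.mk (nat_lit 353) (nat_lit 1) (nat_lit 4) (nat_lit 5) (nat_lit 5) (nat_lit 342) (nat_lit 290) r8_342 r4_290 (nat_lit 0) (nat_lit 24741287) (nat_lit 0) (nat_lit 0x8017985b4) (nat_lit 561612199),
  Rx.mk (nat_lit 361) (nat_lit 1) (nat_lit 5) (nat_lit 5) (nat_lit 7) (nat_lit 344) (nat_lit 291) r8_344 r4_291 (nat_lit 0) (nat_lit 0) (nat_lit 0) (nat_lit 0x8017985b4) (nat_lit 536870912),
  Rx.mk (nat_lit 377) (nat_lit 1) (nat_lit 7) (nat_lit 5) (nat_lit 7) (nat_lit 346) (nat_lit 292) r8_346 r4_292 (nat_lit 0) (nat_lit 0) (nat_lit 0) (nat_lit 0x8017985b4) (nat_lit 536870912),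
  Rx.mk (nat_lit 381) (nat_lit 5) (nat_lit 7) (nat_lit 5) (nat_lit 7) (nat_lit 339) (nat_lit 285) r8_339 r4_285 (nat_lit 0) (nat_lit 0) (nat_lit 0) (nat_lit 0x8017985b4) (nat_lit 536870912),
  Rx.mk (nat_lit 509) (nat_lit 5) (nat_lit 7) (nat_lit 7) (nat_lit 7) (nat_lit 340) (nat_lit 286) r8_340 r4_286 (nat_lit 0) (nat_lit 0) (nat_lit 0) (nat_lit 0x8017985b4) (nat_lit 536870912)]
noncomputable def e15_52 : List Rx := [
  Rx.mk (nat_lit 313) (nat_lit 1) (nat_lit 7) (nat_lit 4) (nat_lit 3) (nat_lit 349) (nat_lit 271) r8_349 r5_271 (nat_lit 0) (nat_lit 0) (nat_lit 26551209) (nat_lit 0x7f5f75306) (nat_lit 574765171),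
  Rx.mk (nat_lit 317) (nat_lit 5) (nat_lit 7) (nat_lit 4) (nat_lit 3) (nat_lit 347) (nat_lit 269) r8_347 r5_269 (nat_lit 0) (nat_lit 0) (nat_lit 26407128) (nat_lit 0x7ed75b9ac) (nat_lit 583090140),
  Rx.mk (nat_lit 377) (nat_lit 1) (nat_lit 7) (nat_lit 5) (nat_lit 7) (nat_lit 350) (nat_lit 272) r8_350 r5_272 (nat_lit 0) (nat_lit 0) (nat_lit 0) (nat_lit 0x8017985b4) (nat_lit 536870912),
  Rx.mk (nat_lit 381) (nat_lit 5) (nat_lit 7) (nat_lit 5) (nat_lit 7) (nat_lit 348) (nat_lit 270) r8_348 r5_270 (nat_lit 0) (nat_lit 0) (nat_lit 0) (nat_lit 0x8017985b4) (nat_lit 536870912)]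
noncomputable def e15_53 : List Rx := [
  Rx.mk (nat_lit 317) (nat_lit 5) (nat_lit 7) (nat_lit 4) (nat_lit 3) (nat_lit 351) (nat_lit 177) r8_351 r4_177 (nat_lit 0) (nat_lit 0) (nat_lit 24741287) (nat_lit 0x8017985b4) (nat_lit 561612199),
  Rx.mk (nat_lit 381) (nat_lit 5) (nat_lit 7) (nat_lit 5) (nat_lit 7) (nat_lit 352) (nat_lit 178) r8_352 r4_178 (nat_lit 0) (nat_lit 0) (nat_lit 0) (nat_lit 0x8017985b4) (nat_lit 536870912),
  Rx.mk (nat_lit 445) (nat_lit 5) (nat_lit 7) (nat_lit 6) (nat_lit 7) (nat_lit 353) (nat_lit 180) r8_353 r4_180 (nat_lit 0) (nat_lit 0) (nat_lit 0) (nat_lit 0x8017985b4) (nat_lit 536870912),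
  Rx.mk (nat_lit 509) (nat_lit 5) (nat_lit 7) (nat_lit 7) (nat_lit 7) (nat_lit 354) (nat_lit 179) r8_354 r4_179 (nat_lit 0) (nat_lit 0) (nat_lit 0) (nat_lit 0x8017985b4) (nat_lit 536870912)]
noncomputable def e15_54 : List Rx := [
  Rx.mk (nat_lit 317) (nat_lit 5) (nat_lit 7) (nat_lit 4) (nat_lit 3) (nat_lit 355) (nat_lit 317) r8_355 r10_317 (nat_lit 0) (nat_lit 0) (nat_lit 24634759) (nat_lit 0x800b33de6) (nat_lit 562264771),
  Rx.mk (nat_lit 381) (nat_lit 5) (nat_lit 7) (nat_lit 5) (nat_lit 7) (nat_lit 356) (nat_lit 318) r8_356 r10_318 (nat_lit 0) (nat_lit 0) (nat_lit 0) (nat_lit 0x8017985b4) (nat_lit 536870912),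
  Rx.mk (nat_lit 509) (nat_lit 5) (nat_lit 7) (nat_lit 7) (nat_lit 7) (nat_lit 357) (nat_lit 319) r8_357 r10_319 (nat_lit 0) (nat_lit 0) (nat_lit 0) (nat_lit 0x8017985b4) (nat_lit 536870912)]
noncomputable def e15_55 : List Rx := [
  Rx.mk (nat_lit 317) (nat_lit 5) (nat_lit 7) (nat_lit 4) (nat_lit 3) (nat_lit 358) (nat_lit 335) r8_358 r11_335 (nat_lit 0) (nat_lit 0) (nat_lit 24741287) (nat_lit 0x8017985b4) (nat_lit 561612199),
  Rx.mk (nat_lit 381) (nat_lit 5) (nat_lit 7) (nat_lit 5) (nat_lit 7) (nat_lit 359) (nat_lit 336) r8_359 r11_336 (nat_lit 0) (nat_lit 0) (nat_lit 0) (nat_lit 0x8017985b4) (nat_lit 536870912),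
  Rx.mk (nat_lit 445) (nat_lit 5) (nat_lit 7) (nat_lit 6) (nat_lit 7) (nat_lit 360) (nat_lit 337) r8_360 r11_337 (nat_lit 0) (nat_lit 0) (nat_lit 0) (nat_lit 0x8017985b4) (nat_lit 536870912)]
noncomputable def e15_56 : List Rx := [
  Rx.mk (nat_lit 289) (nat_lit 1) (nat_lit 4) (nat_lit 4) (nat_lit 1) (nat_lit 362) (nat_lit 191) r8_362 r5_191 (nat_lit 0) (nat_lit 40282511) (nat_lit 13579307) (nat_lit 0x676dbd25a) (nat_lit 988710430),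
  Rx.mk (nat_lit 313) (nat_lit 1) (nat_lit 7) (nat_lit 4) (nat_lit 3) (nat_lit 364) (nat_lit 193) r8_364 r5_193 (nat_lit 0) (nat_lit 0) (nat_lit 26008793) (nat_lit 0x78bef927a) (nat_lit 680926905),
  Rx.mk (nat_lit 353) (nat_lit 1) (nat_lit 4) (nat_lit 5) (nat_lit 5) (nat_lit 363) (nat_lit 192) r8_363 r5_192 (nat_lit 0) (nat_lit 24741287) (nat_lit 0) (nat_lit 0x7fc98e4ea) (nat_lit 566401349),
  Rx.mk (nat_lit 377) (nat_lit 1) (nat_lit 7) (nat_lit 5) (nat_lit 7) (nat_lit 365) (nat_lit 194) r8_365 r5_194 (nat_lit 0) (nat_lit 0) (nat_lit 0) (nat_lit 0x8017985b4) (nat_lit 536870912),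
  Rx.mk (nat_lit 505) (nat_lit 1) (nat_lit 7) (nat_lit 7) (nat_lit 7) (nat_lit 366) (nat_lit 195) r8_366 r5_195 (nat_lit 0) (nat_lit 0) (nat_lit 0) (nat_lit 0x7f79cc664) (nat_lit 546583312),
  Rx.mk (nat_lit 509) (nat_lit 5) (nat_lit 7) (nat_lit 7) (nat_lit 7) (nat_lit 361) (nat_lit 196) r8_361 r5_196 (nat_lit 0) (nat_lit 0) (nat_lit 0) (nat_lit 0x8017985b4) (nat_lit 536870912)]
noncomputable def e15_57 : List Rx := [
  Rx.mk (nat_lit 289) (nat_lit 1) (nat_lit 4) (nat_lit 4) (nat_lit 1) (nat_lit 368) (nat_lit 222) r8_368 r11_222 (nat_lit 0) (nat_lit 93109333) (nat_lit 49696383) (nat_lit 0x7a0dfb9e4) (nat_lit 776624328),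
  Rx.mk (nat_lit 297) (nat_lit 1) (nat_lit 5) (nat_lit 4) (nat_lit 3) (nat_lit 370) (nat_lit 224) r8_370 r11_224 (nat_lit 0) (nat_lit 0) (nat_lit 24741287) (nat_lit 0x8017985b4) (nat_lit 561612199),
  Rx.mk (nat_lit 313) (nat_lit 1) (nat_lit 7) (nat_lit 4) (nat_lit 3) (nat_lit 372) (nat_lit 226) r8_372 r11_226 (nat_lit 0) (nat_lit 0) (nat_lit 24741287) (nat_lit 0x8017985b4) (nat_lit 561612199),
  Rx.mk (nat_lit 353) (nat_lit 1) (nat_lit 4) (nat_lit 5) (nat_lit 5) (nat_lit 369) (nat_lit 223) r8_369 r11_223 (nat_lit 0) (nat_lit 24741287) (nat_lit 0) (nat_lit 0x8017985b4) (nat_lit 561612199),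
  Rx.mk (nat_lit 361) (nat_lit 1) (nat_lit 5) (nat_lit 5) (nat_lit 7) (nat_lit 371) (nat_lit 225) r8_371 r11_225 (nat_lit 0) (nat_lit 0) (nat_lit 0) (nat_lit 0x8017985b4) (nat_lit 536870912),
  Rx.mk (nat_lit 377) (nat_lit 1) (nat_lit 7) (nat_lit 5) (nat_lit 7) (nat_lit 373) (nat_lit 227) r8_373 r11_227 (nat_lit 0) (nat_lit 0) (nat_lit 0) (nat_lit 0x8017985b4) (nat_lit 536870912),
  Rx.mk (nat_lit 505) (nat_lit 1) (nat_lit 7) (nat_lit 7) (nat_lit 7) (nat_lit 374) (nat_lit 228) r8_374 r11_228 (nat_lit 0) (nat_lit 0) (nat_lit 0) (nat_lit 0x8017985b4) (nat_lit 536870912),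
  Rx.mk (nat_lit 509) (nat_lit 5) (nat_lit 7) (nat_lit 7) (nat_lit 7) (nat_lit 367) (nat_lit 229) r8_367 r11_229 (nat_lit 0) (nat_lit 0) (nat_lit 0) (nat_lit 0x8017985b4) (nat_lit 536870912)]
noncomputable def e15 : List (List Rx) := [e15_0, e15_1, e15_2, e15_3, e15_4, e15_5, e15_6, e15_7, e15_8, e15_9, e15_10, e15_11, e15_12, e15_13, e15_14, e15_15, e15_16, e15_17, e15_18, e15_19, e15_20, e15_21, e15_22, e15_23, e15_24, e15_25, e15_26, e15_27, e15_28, e15_29, e15_30, e15_31, e15_32, e15_33, e15_34, e15_35, e15_36, e15_37, e15_38, e15_39, e15_40, e15_41, e15_42, e15_43, e15_44, e15_45, e15_46, e15_47, e15_48, e15_49, e15_50, e15_51, e15_52, e15_53, e15_54, e15_55, e15_56, e15_57]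
noncomputable def e16_0 : List Rx := [
  Rx.mk (nat_lit 475) (nat_lit 3) (nat_lit 3) (nat_lit 7) (nat_lit 7) (nat_lit 76) (nat_lit 139) r8_76 r0_139 (nat_lit 0) (nat_lit 0) (nat_lit 0) (nat_lit 0x8017985b4) (nat_lit 536870912),
  Rx.mk (nat_lit 507) (nat_lit 3) (nat_lit 7) (nat_lit 7) (nat_lit 7) (nat_lit 77) (nat_lit 140) r8_77 r0_140 (nat_lit 0) (nat_lit 0) (nat_lit 0) (nat_lit 0x8017985b4) (nat_lit 536870912)]
noncomputable def e16_1 : List Rx := [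
  Rx.mk (nat_lit 0) (nat_lit 0) (nat_lit 0) (nat_lit 0) (nat_lit 0) (nat_lit 90) (nat_lit 141) r8_90 r1_141 (nat_lit 23009154) (nat_lit 116288395) (nat_lit 17944571) (nat_lit 0x447d83aae) (nat_lit 1657106532),
  Rx.mk (nat_lit 2) (nat_lit 2) (nat_lit 0) (nat_lit 0) (nat_lit 1) (nat_lit 91) (nat_lit 147) r8_91 r1_147 (nat_lit 0) (nat_lit 50885811) (nat_lit 24802758) (nat_lit 0x6b9ee1742) (nat_lit 942829831),
  Rx.mk (nat_lit 18) (nat_lit 2) (nat_lit 2) (nat_lit 0) (nat_lit 3) (nat_lit 92) (nat_lit 150) r8_92 r1_150 (nat_lit 0) (nat_lit 0) (nat_lit 24952196) (nat_lit 0x7d5baea30) (nat_lit 605443508),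
  Rx.mk (nat_lit 146) (nat_lit 2) (nat_lit 2) (nat_lit 2) (nat_lit 7) (nat_lit 93) (nat_lit 152) r8_93 r1_152 (nat_lit 0) (nat_lit 0) (nat_lit 0) (nat_lit 0x8017985b4) (nat_lit 536870912),
  Rx.mk (nat_lit 192) (nat_lit 0) (nat_lit 0) (nat_lit 3) (nat_lit 4) (nat_lit 94) (nat_lit 142) r8_94 r1_142 (nat_lit 31282261) (nat_lit 50887267) (nat_lit 0) (nat_lit 0x6d657dd46) (nat_lit 920594840),
  Rx.mk (nat_lit 194) (nat_lit 2) (nat_lit 0) (nat_lit 3) (nat_lit 5) (nat_lit 95) (nat_lit 148) r8_95 r1_148 (nat_lit 0) (nat_lit 24741287) (nat_lit 0) (nat_lit 0x8017985b4) (nat_lit 561612199),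
  Rx.mk (nat_lit 210) (nat_lit 2) (nat_lit 2) (nat_lit 3) (nat_lit 7) (nat_lit 96) (nat_lit 151) r8_96 r1_151 (nat_lit 0) (nat_lit 0) (nat_lit 0) (nat_lit 0x8017985b4) (nat_lit 536870912),
  Rx.mk (nat_lit 216) (nat_lit 0) (nat_lit 3) (nat_lit 3) (nat_lit 6) (nat_lit 97) (nat_lit 143) r8_97 r1_143 (nat_lit 29620562) (nat_lit 0) (nat_lit 0) (nat_lit 0x7f673ed30) (nat_lit 577332974),
  Rx.mk (nat_lit 218) (nat_lit 2) (nat_lit 3) (nat_lit 3) (nat_lit 7) (nat_lit 98) (nat_lit 149) r8_98 r1_149 (nat_lit 0) (nat_lit 0) (nat_lit 0) (nat_lit 0x8017985b4) (nat_lit 536870912),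
  Rx.mk (nat_lit 219) (nat_lit 3) (nat_lit 3) (nat_lit 3) (nat_lit 7) (nat_lit 99) (nat_lit 144) r8_99 r1_144 (nat_lit 0) (nat_lit 0) (nat_lit 0) (nat_lit 0x8017985b4) (nat_lit 536870912),
  Rx.mk (nat_lit 475) (nat_lit 3) (nat_lit 3) (nat_lit 7) (nat_lit 7) (nat_lit 100) (nat_lit 145) r8_100 r1_145 (nat_lit 0) (nat_lit 0) (nat_lit 0) (nat_lit 0x8017985b4) (nat_lit 536870912),
  Rx.mk (nat_lit 507) (nat_lit 3) (nat_lit 7) (nat_lit 7) (nat_lit 7) (nat_lit 101) (nat_lit 146) r8_101 r1_146 (nat_lit 0) (nat_lit 0) (nat_lit 0) (nat_lit 0x8017985b4) (nat_lit 536870912)]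
noncomputable def e16_2 : List Rx := [
  Rx.mk (nat_lit 0) (nat_lit 0) (nat_lit 0) (nat_lit 0) (nat_lit 0) (nat_lit 257) (nat_lit 137) r8_257 r2_137 (nat_lit 7956767) (nat_lit 9703689) (nat_lit 8042902) (nat_lit 0x3b91a0bee) (nat_lit 1669754570),
  Rx.mk (nat_lit 2) (nat_lit 2) (nat_lit 0) (nat_lit 0) (nat_lit 1) (nat_lit 258) (nat_lit 141) r8_258 r2_141 (nat_lit 0) (nat_lit 23096430) (nat_lit 26195638) (nat_lit 0x64c1b892a) (nat_lit 1027421630),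
  Rx.mk (nat_lit 18) (nat_lit 2) (nat_lit 2) (nat_lit 0) (nat_lit 3) (nat_lit 259) (nat_lit 144) r8_259 r2_144 (nat_lit 0) (nat_lit 0) (nat_lit 24741287) (nat_lit 0x8017985b4) (nat_lit 561612199),
  Rx.mk (nat_lit 24) (nat_lit 0) (nat_lit 3) (nat_lit 0) (nat_lit 2) (nat_lit 260) (nat_lit 138) r8_260 r2_138 (nat_lit 23014465) (nat_lit 0) (nat_lit 26855489) (nat_lit 0x65ff1eed0) (nat_lit 1007952966),
  Rx.mk (nat_lit 26) (nat_lit 2) (nat_lit 3) (nat_lit 0) (nat_lit 3) (nat_lit 261) (nat_lit 142) r8_261 r2_142 (nat_lit 0) (nat_lit 0) (nat_lit 25403330) (nat_lit 0x7ff0757d4) (nat_lit 564659792),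
  Rx.mk (nat_lit 146) (nat_lit 2) (nat_lit 2) (nat_lit 2) (nat_lit 7) (nat_lit 262) (nat_lit 145) r8_262 r2_145 (nat_lit 0) (nat_lit 0) (nat_lit 0) (nat_lit 0x8017985b4) (nat_lit 536870912),
  Rx.mk (nat_lit 216) (nat_lit 0) (nat_lit 3) (nat_lit 3) (nat_lit 6) (nat_lit 263) (nat_lit 139) r8_263 r2_139 (nat_lit 24741287) (nat_lit 0) (nat_lit 0) (nat_lit 0x8005746a8) (nat_lit 562722999),
  Rx.mk (nat_lit 218) (nat_lit 2) (nat_lit 3) (nat_lit 3) (nat_lit 7) (nat_lit 264) (nat_lit 143) r8_264 r2_143 (nat_lit 0) (nat_lit 0) (nat_lit 0) (nat_lit 0x8017985b4) (nat_lit 536870912),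
  Rx.mk (nat_lit 219) (nat_lit 3) (nat_lit 3) (nat_lit 3) (nat_lit 7) (nat_lit 265) (nat_lit 140) r8_265 r2_140 (nat_lit 0) (nat_lit 0) (nat_lit 0) (nat_lit 0x8017985b4) (nat_lit 536870912)]
noncomputable def e16_3 : List Rx := [
  Rx.mk (nat_lit 315) (nat_lit 3) (nat_lit 7) (nat_lit 4) (nat_lit 3) (nat_lit 43) (nat_lit 120) r8_43 r3_120 (nat_lit 0) (nat_lit 0) (nat_lit 1763441) (nat_lit 0x7c7a002d2) (nat_lit 596010653),
  Rx.mk (nat_lit 379) (nat_lit 3) (nat_lit 7) (nat_lit 5) (nat_lit 7) (nat_lit 44) (nat_lit 121) r8_44 r3_121 (nat_lit 0) (nat_lit 0) (nat_lit 0) (nat_lit 0x815f04622) (nat_lit 516911112),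
  Rx.mk (nat_lit 475) (nat_lit 3) (nat_lit 3) (nat_lit 7) (nat_lit 7) (nat_lit 45) (nat_lit 119) r8_45 r3_119 (nat_lit 0) (nat_lit 0) (nat_lit 0) (nat_lit 0x7fbaf6978) (nat_lit 542584962),
  Rx.mk (nat_lit 507) (nat_lit 3) (nat_lit 7) (nat_lit 7) (nat_lit 7) (nat_lit 46) (nat_lit 122) r8_46 r3_122 (nat_lit 0) (nat_lit 0) (nat_lit 0) (nat_lit 0x7fe6eb434) (nat_lit 539872312)]
noncomputable def e16_4 : List Rx := [
  Rx.mk (nat_lit 315) (nat_lit 3) (nat_lit 7) (nat_lit 4) (nat_lit 3) (nat_lit 146) (nat_lit 126) r8_146 r4_126 (nat_lit 0) (nat_lit 0) (nat_lit 22851491) (nat_lit 0x7fa9b2676) (nat_lit 566471853),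
  Rx.mk (nat_lit 475) (nat_lit 3) (nat_lit 3) (nat_lit 7) (nat_lit 7) (nat_lit 147) (nat_lit 125) r8_147 r4_125 (nat_lit 0) (nat_lit 0) (nat_lit 0) (nat_lit 0x8017985b4) (nat_lit 536870912),
  Rx.mk (nat_lit 507) (nat_lit 3) (nat_lit 7) (nat_lit 7) (nat_lit 7) (nat_lit 148) (nat_lit 127) r8_148 r4_127 (nat_lit 0) (nat_lit 0) (nat_lit 0) (nat_lit 0x8017985b4) (nat_lit 536870912)]
noncomputable def e16_5 : List Rx := [
  Rx.mk (nat_lit 283) (nat_lit 3) (nat_lit 3) (nat_lit 4) (nat_lit 3) (nat_lit 201) (nat_lit 118) r8_201 r5_118 (nat_lit 0) (nat_lit 0) (nat_lit 25748057) (nat_lit 0x790d284fa) (nat_lit 675764869),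
  Rx.mk (nat_lit 315) (nat_lit 3) (nat_lit 7) (nat_lit 4) (nat_lit 3) (nat_lit 202) (nat_lit 121) r8_202 r5_121 (nat_lit 0) (nat_lit 0) (nat_lit 10065734) (nat_lit 0x7e9c4689e) (nat_lit 570285946),
  Rx.mk (nat_lit 347) (nat_lit 3) (nat_lit 3) (nat_lit 5) (nat_lit 7) (nat_lit 203) (nat_lit 119) r8_203 r5_119 (nat_lit 0) (nat_lit 0) (nat_lit 0) (nat_lit 0x8017985b4) (nat_lit 536870912),
  Rx.mk (nat_lit 379) (nat_lit 3) (nat_lit 7) (nat_lit 5) (nat_lit 7) (nat_lit 204) (nat_lit 122) r8_204 r5_122 (nat_lit 0) (nat_lit 0) (nat_lit 0) (nat_lit 0x80d50bd58) (nat_lit 525282062),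
  Rx.mk (nat_lit 475) (nat_lit 3) (nat_lit 3) (nat_lit 7) (nat_lit 7) (nat_lit 205) (nat_lit 120) r8_205 r5_120 (nat_lit 0) (nat_lit 0) (nat_lit 0) (nat_lit 0x8017985b4) (nat_lit 536870912)]
noncomputable def e16_6 : List Rx := [
  Rx.mk (nat_lit 88) (nat_lit 0) (nat_lit 3) (nat_lit 1) (nat_lit 6) (nat_lit 331) (nat_lit 176) r8_331 r3_176 (nat_lit 14122163) (nat_lit 0) (nat_lit 0) (nat_lit 0x6b5780b64) (nat_lit 885726425),
  Rx.mk (nat_lit 89) (nat_lit 1) (nat_lit 3) (nat_lit 1) (nat_lit 7) (nat_lit 332) (nat_lit 178) r8_332 r3_178 (nat_lit 0) (nat_lit 0) (nat_lit 0) (nat_lit 0x8017985b4) (nat_lit 536870912),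
  Rx.mk (nat_lit 91) (nat_lit 3) (nat_lit 3) (nat_lit 1) (nat_lit 7) (nat_lit 333) (nat_lit 179) r8_333 r3_179 (nat_lit 0) (nat_lit 0) (nat_lit 0) (nat_lit 0x7f54cbf2c) (nat_lit 548916912),
  Rx.mk (nat_lit 320) (nat_lit 0) (nat_lit 0) (nat_lit 5) (nat_lit 4) (nat_lit 334) (nat_lit 173) r8_334 r3_173 (nat_lit 875122) (nat_lit 913664) (nat_lit 0) (nat_lit 0x5cc5f9ef6) (nat_lit 1108454298),
  Rx.mk (nat_lit 321) (nat_lit 1) (nat_lit 0) (nat_lit 5) (nat_lit 5) (nat_lit 335) (nat_lit 174) r8_335 r3_174 (nat_lit 0) (nat_lit 20103359) (nat_lit 0) (nat_lit 0x733b06e04) (nat_lit 764186071),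
  Rx.mk (nat_lit 344) (nat_lit 0) (nat_lit 3) (nat_lit 5) (nat_lit 6) (nat_lit 336) (nat_lit 175) r8_336 r3_175 (nat_lit 6010146) (nat_lit 0) (nat_lit 0) (nat_lit 0x6e1566726) (nat_lit 833142708),
  Rx.mk (nat_lit 345) (nat_lit 1) (nat_lit 3) (nat_lit 5) (nat_lit 7) (nat_lit 337) (nat_lit 177) r8_337 r3_177 (nat_lit 0) (nat_lit 0) (nat_lit 0) (nat_lit 0x7f8ae4a3c) (nat_lit 545526512)]
noncomputable def e16_7 : List Rx := [
  Rx.mk (nat_lit 64) (nat_lit 0) (nat_lit 0) (nat_lit 1) (nat_lit 4) (nat_lit 241) (nat_lit 188) r8_241 r0_188 (nat_lit 19008238) (nat_lit 24251954) (nat_lit 0) (nat_lit 0x59ee2d664) (nat_lit 1196415754),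
  Rx.mk (nat_lit 65) (nat_lit 1) (nat_lit 0) (nat_lit 1) (nat_lit 5) (nat_lit 242) (nat_lit 189) r8_242 r0_189 (nat_lit 0) (nat_lit 26165794) (nat_lit 0) (nat_lit 0x7b3e3e45c) (nat_lit 640781706),
  Rx.mk (nat_lit 66) (nat_lit 2) (nat_lit 0) (nat_lit 1) (nat_lit 5) (nat_lit 243) (nat_lit 190) r8_243 r0_190 (nat_lit 0) (nat_lit 32293832) (nat_lit 0) (nat_lit 0x808393b6a) (nat_lit 562478594),
  Rx.mk (nat_lit 88) (nat_lit 0) (nat_lit 3) (nat_lit 1) (nat_lit 6) (nat_lit 244) (nat_lit 191) r8_244 r0_191 (nat_lit 20123998) (nat_lit 0) (nat_lit 0) (nat_lit 0x7c1a22dec) (nat_lit 620862110),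
  Rx.mk (nat_lit 89) (nat_lit 1) (nat_lit 3) (nat_lit 1) (nat_lit 7) (nat_lit 245) (nat_lit 192) r8_245 r0_192 (nat_lit 0) (nat_lit 0) (nat_lit 0) (nat_lit 0x8005f486c) (nat_lit 537949312),
  Rx.mk (nat_lit 90) (nat_lit 2) (nat_lit 3) (nat_lit 1) (nat_lit 7) (nat_lit 246) (nat_lit 194) r8_246 r0_194 (nat_lit 0) (nat_lit 0) (nat_lit 0) (nat_lit 0x8017985b4) (nat_lit 536870912),
  Rx.mk (nat_lit 91) (nat_lit 3) (nat_lit 3) (nat_lit 1) (nat_lit 7) (nat_lit 247) (nat_lit 193) r8_247 r0_193 (nat_lit 0) (nat_lit 0) (nat_lit 0) (nat_lit 0x8017985b4) (nat_lit 536870912)]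
noncomputable def e16_8 : List Rx := [
  Rx.mk (nat_lit 0) (nat_lit 0) (nat_lit 0) (nat_lit 0) (nat_lit 0) (nat_lit 283) (nat_lit 201) r8_283 r1_201 (nat_lit 20700425) (nat_lit 34852659) (nat_lit 11826643) (nat_lit 0x3dc59600a) (nat_lit 1675850589),
  Rx.mk (nat_lit 2) (nat_lit 2) (nat_lit 0) (nat_lit 0) (nat_lit 1) (nat_lit 284) (nat_lit 204) r8_284 r1_204 (nat_lit 0) (nat_lit 57475971) (nat_lit 26799246) (nat_lit 0x672d75b5c) (nat_lit 1023262029),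
  Rx.mk (nat_lit 18) (nat_lit 2) (nat_lit 2) (nat_lit 0) (nat_lit 3) (nat_lit 285) (nat_lit 214) r8_285 r1_214 (nat_lit 0) (nat_lit 0) (nat_lit 25082552) (nat_lit 0x71434a6d0) (nat_lit 800991214),
  Rx.mk (nat_lit 24) (nat_lit 0) (nat_lit 3) (nat_lit 0) (nat_lit 2) (nat_lit 286) (nat_lit 206) r8_286 r1_206 (nat_lit 33972801) (nat_lit 0) (nat_lit 31654428) (nat_lit 0x6c187865a) (nat_lit 925088641),
  Rx.mk (nat_lit 26) (nat_lit 2) (nat_lit 3) (nat_lit 0) (nat_lit 3) (nat_lit 287) (nat_lit 212) r8_287 r1_212 (nat_lit 0) (nat_lit 0) (nat_lit 24741287) (nat_lit 0x8017985b4) (nat_lit 561612199),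
  Rx.mk (nat_lit 27) (nat_lit 3) (nat_lit 3) (nat_lit 0) (nat_lit 3) (nat_lit 288) (nat_lit 209) r8_288 r1_209 (nat_lit 0) (nat_lit 0) (nat_lit 24741287) (nat_lit 0x8017985b4) (nat_lit 561612199),
  Rx.mk (nat_lit 64) (nat_lit 0) (nat_lit 0) (nat_lit 1) (nat_lit 4) (nat_lit 289) (nat_lit 202) r8_289 r1_202 (nat_lit 32376877) (nat_lit 29801349) (nat_lit 0) (nat_lit 0x669a3f496) (nat_lit 1010443188),
  Rx.mk (nat_lit 65) (nat_lit 1) (nat_lit 0) (nat_lit 1) (nat_lit 5) (nat_lit 290) (nat_lit 203) r8_290 r1_203 (nat_lit 0) (nat_lit 25018304) (nat_lit 0) (nat_lit 0x7fdcdbf2a) (nat_lit 565476766),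
  Rx.mk (nat_lit 66) (nat_lit 2) (nat_lit 0) (nat_lit 1) (nat_lit 5) (nat_lit 291) (nat_lit 205) r8_291 r1_205 (nat_lit 0) (nat_lit 25047671) (nat_lit 0) (nat_lit 0x804337652) (nat_lit 559218933),
  Rx.mk (nat_lit 82) (nat_lit 2) (nat_lit 2) (nat_lit 1) (nat_lit 7) (nat_lit 292) (nat_lit 215) r8_292 r1_215 (nat_lit 0) (nat_lit 0) (nat_lit 0) (nat_lit 0x808e1a7dc) (nat_lit 529571662),
  Rx.mk (nat_lit 88) (nat_lit 0) (nat_lit 3) (nat_lit 1) (nat_lit 6) (nat_lit 293) (nat_lit 207) r8_293 r1_207 (nat_lit 25834482) (nat_lit 0) (nat_lit 0) (nat_lit 0x7f77d0d42) (nat_lit 572534144),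
  Rx.mk (nat_lit 89) (nat_lit 1) (nat_lit 3) (nat_lit 1) (nat_lit 7) (nat_lit 294) (nat_lit 208) r8_294 r1_208 (nat_lit 0) (nat_lit 0) (nat_lit 0) (nat_lit 0x8017985b4) (nat_lit 536870912),
  Rx.mk (nat_lit 90) (nat_lit 2) (nat_lit 3) (nat_lit 1) (nat_lit 7) (nat_lit 295) (nat_lit 213) r8_295 r1_213 (nat_lit 0) (nat_lit 0) (nat_lit 0) (nat_lit 0x8017985b4) (nat_lit 536870912),
  Rx.mk (nat_lit 91) (nat_lit 3) (nat_lit 3) (nat_lit 1) (nat_lit 7) (nat_lit 296) (nat_lit 210) r8_296 r1_210 (nat_lit 0) (nat_lit 0) (nat_lit 0) (nat_lit 0x8017985b4) (nat_lit 536870912),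
  Rx.mk (nat_lit 146) (nat_lit 2) (nat_lit 2) (nat_lit 2) (nat_lit 7) (nat_lit 297) (nat_lit 216) r8_297 r1_216 (nat_lit 0) (nat_lit 0) (nat_lit 0) (nat_lit 0x7ed9578a0) (nat_lit 556568262),
  Rx.mk (nat_lit 219) (nat_lit 3) (nat_lit 3) (nat_lit 3) (nat_lit 7) (nat_lit 298) (nat_lit 211) r8_298 r1_211 (nat_lit 0) (nat_lit 0) (nat_lit 0) (nat_lit 0x8017985b4) (nat_lit 536870912)]
noncomputable def e16_9 : List Rx := [
  Rx.mk (nat_lit 88) (nat_lit 0) (nat_lit 3) (nat_lit 1) (nat_lit 6) (nat_lit 351) (nat_lit 177) r8_351 r4_177 (nat_lit 24741287) (nat_lit 0) (nat_lit 0) (nat_lit 0x8017985b4) (nat_lit 561612199),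
  Rx.mk (nat_lit 89) (nat_lit 1) (nat_lit 3) (nat_lit 1) (nat_lit 7) (nat_lit 352) (nat_lit 178) r8_352 r4_178 (nat_lit 0) (nat_lit 0) (nat_lit 0) (nat_lit 0x8017985b4) (nat_lit 536870912),
  Rx.mk (nat_lit 90) (nat_lit 2) (nat_lit 3) (nat_lit 1) (nat_lit 7) (nat_lit 353) (nat_lit 180) r8_353 r4_180 (nat_lit 0) (nat_lit 0) (nat_lit 0) (nat_lit 0x8017985b4) (nat_lit 536870912),
  Rx.mk (nat_lit 91) (nat_lit 3) (nat_lit 3) (nat_lit 1) (nat_lit 7) (nat_lit 354) (nat_lit 179) r8_354 r4_179 (nat_lit 0) (nat_lit 0) (nat_lit 0) (nat_lit 0x8017985b4) (nat_lit 536870912)]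
noncomputable def e16_10 : List Rx := [
  Rx.mk (nat_lit 344) (nat_lit 0) (nat_lit 3) (nat_lit 5) (nat_lit 6) (nat_lit 221) (nat_lit 122) r8_221 r6_122 (nat_lit 24741287) (nat_lit 0) (nat_lit 0) (nat_lit 0x8017985b4) (nat_lit 561612199),
  Rx.mk (nat_lit 345) (nat_lit 1) (nat_lit 3) (nat_lit 5) (nat_lit 7) (nat_lit 222) (nat_lit 123) r8_222 r6_123 (nat_lit 0) (nat_lit 0) (nat_lit 0) (nat_lit 0x8017985b4) (nat_lit 536870912),
  Rx.mk (nat_lit 347) (nat_lit 3) (nat_lit 3) (nat_lit 5) (nat_lit 7) (nat_lit 223) (nat_lit 124) r8_223 r6_124 (nat_lit 0) (nat_lit 0) (nat_lit 0) (nat_lit 0x8017985b4) (nat_lit 536870912),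
  Rx.mk (nat_lit 379) (nat_lit 3) (nat_lit 7) (nat_lit 5) (nat_lit 7) (nat_lit 224) (nat_lit 125) r8_224 r6_125 (nat_lit 0) (nat_lit 0) (nat_lit 0) (nat_lit 0x805730f46) (nat_lit 532963862)]
noncomputable def e16_11 : List Rx := [
  Rx.mk (nat_lit 91) (nat_lit 3) (nat_lit 3) (nat_lit 1) (nat_lit 7) (nat_lit 361) (nat_lit 196) r8_361 r5_196 (nat_lit 0) (nat_lit 0) (nat_lit 0) (nat_lit 0x8017985b4) (nat_lit 536870912),
  Rx.mk (nat_lit 320) (nat_lit 0) (nat_lit 0) (nat_lit 5) (nat_lit 4) (nat_lit 362) (nat_lit 191) r8_362 r5_191 (nat_lit 13579307) (nat_lit 40282511) (nat_lit 0) (nat_lit 0x676dbd25a) (nat_lit 988710430),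
  Rx.mk (nat_lit 321) (nat_lit 1) (nat_lit 0) (nat_lit 5) (nat_lit 5) (nat_lit 363) (nat_lit 192) r8_363 r5_192 (nat_lit 0) (nat_lit 24741287) (nat_lit 0) (nat_lit 0x7fc98e4ea) (nat_lit 566401349),
  Rx.mk (nat_lit 344) (nat_lit 0) (nat_lit 3) (nat_lit 5) (nat_lit 6) (nat_lit 364) (nat_lit 193) r8_364 r5_193 (nat_lit 26008793) (nat_lit 0) (nat_lit 0) (nat_lit 0x78bef927a) (nat_lit 680926905),
  Rx.mk (nat_lit 345) (nat_lit 1) (nat_lit 3) (nat_lit 5) (nat_lit 7) (nat_lit 365) (nat_lit 194) r8_365 r5_194 (nat_lit 0) (nat_lit 0) (nat_lit 0) (nat_lit 0x8017985b4) (nat_lit 536870912),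
  Rx.mk (nat_lit 347) (nat_lit 3) (nat_lit 3) (nat_lit 5) (nat_lit 7) (nat_lit 366) (nat_lit 195) r8_366 r5_195 (nat_lit 0) (nat_lit 0) (nat_lit 0) (nat_lit 0x7f79cc664) (nat_lit 546583312)]
noncomputable def e16_12 : List Rx := [
  Rx.mk (nat_lit 292) (nat_lit 4) (nat_lit 4) (nat_lit 4) (nat_lit 0) (nat_lit 0) (nat_lit 124) r8_0 r0_124 (nat_lit 11031913) (nat_lit 37018604) (nat_lit 7939868) (nat_lit 0x2f3402ffc) (nat_lit 1899960047),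
  Rx.mk (nat_lit 295) (nat_lit 7) (nat_lit 4) (nat_lit 4) (nat_lit 1) (nat_lit 1) (nat_lit 125) r8_1 r0_125 (nat_lit 0) (nat_lit 43759254) (nat_lit 26421063) (nat_lit 0x5ccc534e6) (nat_lit 1176984379),
  Rx.mk (nat_lit 319) (nat_lit 7) (nat_lit 7) (nat_lit 4) (nat_lit 3) (nat_lit 2) (nat_lit 126) r8_2 r0_126 (nat_lit 0) (nat_lit 0) (nat_lit 19040660) (nat_lit 0x6f984888c) (nat_lit 821904322),
  Rx.mk (nat_lit 356) (nat_lit 4) (nat_lit 4) (nat_lit 5) (nat_lit 4) (nat_lit 3) (nat_lit 127) r8_3 r0_127 (nat_lit 32206150) (nat_lit 82416712) (nat_lit 0) (nat_lit 0x66c0ffdc4) (nat_lit 1060452374),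
  Rx.mk (nat_lit 359) (nat_lit 7) (nat_lit 4) (nat_lit 5) (nat_lit 5) (nat_lit 4) (nat_lit 128) r8_4 r0_128 (nat_lit 0) (nat_lit 28052384) (nat_lit 0) (nat_lit 0x7ecc55e04) (nat_lit 585422396),
  Rx.mk (nat_lit 383) (nat_lit 7) (nat_lit 7) (nat_lit 5) (nat_lit 7) (nat_lit 5) (nat_lit 129) r8_5 r0_129 (nat_lit 0) (nat_lit 0) (nat_lit 0) (nat_lit 0x7feae9d88) (nat_lit 539601062),
  Rx.mk (nat_lit 420) (nat_lit 4) (nat_lit 4) (nat_lit 6) (nat_lit 4) (nat_lit 6) (nat_lit 133) r8_6 r0_133 (nat_lit 35479035) (nat_lit 54286075) (nat_lit 0) (nat_lit 0x62e45b6c8) (nat_lit 1098022322),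
  Rx.mk (nat_lit 423) (nat_lit 7) (nat_lit 4) (nat_lit 6) (nat_lit 5) (nat_lit 7) (nat_lit 134) r8_7 r0_134 (nat_lit 0) (nat_lit 28597756) (nat_lit 0) (nat_lit 0x7fab4f40c) (nat_lit 572118568),
  Rx.mk (nat_lit 436) (nat_lit 4) (nat_lit 6) (nat_lit 6) (nat_lit 6) (nat_lit 8) (nat_lit 136) r8_8 r0_136 (nat_lit 31117367) (nat_lit 0) (nat_lit 0) (nat_lit 0x7e047cca2) (nat_lit 600994729),
  Rx.mk (nat_lit 438) (nat_lit 6) (nat_lit 6) (nat_lit 6) (nat_lit 7) (nat_lit 9) (nat_lit 138) r8_9 r0_138 (nat_lit 0) (nat_lit 0) (nat_lit 0) (nat_lit 0x8017985b4) (nat_lit 536870912),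
  Rx.mk (nat_lit 439) (nat_lit 7) (nat_lit 6) (nat_lit 6) (nat_lit 7) (nat_lit 10) (nat_lit 137) r8_10 r0_137 (nat_lit 0) (nat_lit 0) (nat_lit 0) (nat_lit 0x8017985b4) (nat_lit 536870912),
  Rx.mk (nat_lit 447) (nat_lit 7) (nat_lit 7) (nat_lit 6) (nat_lit 7) (nat_lit 11) (nat_lit 135) r8_11 r0_135 (nat_lit 0) (nat_lit 0) (nat_lit 0) (nat_lit 0x7ffc6e694) (nat_lit 538526762),
  Rx.mk (nat_lit 475) (nat_lit 3) (nat_lit 3) (nat_lit 7) (nat_lit 7) (nat_lit 12) (nat_lit 132) r8_12 r0_132 (nat_lit 0) (nat_lit 0) (nat_lit 0) (nat_lit 0x8017985b4) (nat_lit 536870912),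
  Rx.mk (nat_lit 507) (nat_lit 3) (nat_lit 7) (nat_lit 7) (nat_lit 7) (nat_lit 13) (nat_lit 131) r8_13 r0_131 (nat_lit 0) (nat_lit 0) (nat_lit 0) (nat_lit 0x8017985b4) (nat_lit 536870912),
  Rx.mk (nat_lit 511) (nat_lit 7) (nat_lit 7) (nat_lit 7) (nat_lit 7) (nat_lit 14) (nat_lit 130) r8_14 r0_130 (nat_lit 0) (nat_lit 0) (nat_lit 0) (nat_lit 0x7fa4b61a4) (nat_lit 543932912)]
noncomputable def e16_13 : List Rx := [
  Rx.mk (nat_lit 292) (nat_lit 4) (nat_lit 4) (nat_lit 4) (nat_lit 0) (nat_lit 78) (nat_lit 150) r8_78 r7_150 (nat_lit 8497828) (nat_lit 26185611) (nat_lit 8960456) (nat_lit 0x362c7667e) (nat_lit 1774947907),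
  Rx.mk (nat_lit 295) (nat_lit 7) (nat_lit 4) (nat_lit 4) (nat_lit 1) (nat_lit 79) (nat_lit 153) r8_79 r7_153 (nat_lit 0) (nat_lit 24651851) (nat_lit 24616168) (nat_lit 0x5ff890ccc) (nat_lit 1104782931),
  Rx.mk (nat_lit 319) (nat_lit 7) (nat_lit 7) (nat_lit 4) (nat_lit 3) (nat_lit 80) (nat_lit 155) r8_80 r7_155 (nat_lit 0) (nat_lit 0) (nat_lit 24741287) (nat_lit 0x7ff6824a6) (nat_lit 563637099),
  Rx.mk (nat_lit 420) (nat_lit 4) (nat_lit 4) (nat_lit 6) (nat_lit 4) (nat_lit 81) (nat_lit 151) r8_81 r7_151 (nat_lit 14186136) (nat_lit 13633279) (nat_lit 0) (nat_lit 0x6517ac3fe) (nat_lit 1000476627),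
  Rx.mk (nat_lit 423) (nat_lit 7) (nat_lit 4) (nat_lit 6) (nat_lit 5) (nat_lit 82) (nat_lit 154) r8_82 r7_154 (nat_lit 0) (nat_lit 24741287) (nat_lit 0) (nat_lit 0x7fe8e8d90) (nat_lit 564464999),
  Rx.mk (nat_lit 436) (nat_lit 4) (nat_lit 6) (nat_lit 6) (nat_lit 6) (nat_lit 83) (nat_lit 152) r8_83 r7_152 (nat_lit 24741287) (nat_lit 0) (nat_lit 0) (nat_lit 0x7fe1901b0) (nat_lit 564922449),
  Rx.mk (nat_lit 438) (nat_lit 6) (nat_lit 6) (nat_lit 6) (nat_lit 7) (nat_lit 84) (nat_lit 159) r8_84 r7_159 (nat_lit 0) (nat_lit 0) (nat_lit 0) (nat_lit 0x8017985b4) (nat_lit 536870912),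
  Rx.mk (nat_lit 439) (nat_lit 7) (nat_lit 6) (nat_lit 6) (nat_lit 7) (nat_lit 85) (nat_lit 158) r8_85 r7_158 (nat_lit 0) (nat_lit 0) (nat_lit 0) (nat_lit 0x8017985b4) (nat_lit 536870912),
  Rx.mk (nat_lit 447) (nat_lit 7) (nat_lit 7) (nat_lit 6) (nat_lit 7) (nat_lit 86) (nat_lit 157) r8_86 r7_157 (nat_lit 0) (nat_lit 0) (nat_lit 0) (nat_lit 0x8017985b4) (nat_lit 536870912),
  Rx.mk (nat_lit 475) (nat_lit 3) (nat_lit 3) (nat_lit 7) (nat_lit 7) (nat_lit 87) (nat_lit 148) r8_87 r7_148 (nat_lit 0) (nat_lit 0) (nat_lit 0) (nat_lit 0x8017985b4) (nat_lit 536870912),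
  Rx.mk (nat_lit 507) (nat_lit 3) (nat_lit 7) (nat_lit 7) (nat_lit 7) (nat_lit 88) (nat_lit 149) r8_88 r7_149 (nat_lit 0) (nat_lit 0) (nat_lit 0) (nat_lit 0x8017985b4) (nat_lit 536870912),
  Rx.mk (nat_lit 511) (nat_lit 7) (nat_lit 7) (nat_lit 7) (nat_lit 7) (nat_lit 89) (nat_lit 156) r8_89 r7_156 (nat_lit 0) (nat_lit 0) (nat_lit 0) (nat_lit 0x8017985b4) (nat_lit 536870912)]
noncomputable def e16_14 : List Rx := [
  Rx.mk (nat_lit 292) (nat_lit 4) (nat_lit 4) (nat_lit 4) (nat_lit 0) (nat_lit 15) (nat_lit 131) r8_15 r1_131 (nat_lit 16366775) (nat_lit 78140221) (nat_lit 12570282) (nat_lit 0x42b179a90) (nat_lit 1635971940),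
  Rx.mk (nat_lit 295) (nat_lit 7) (nat_lit 4) (nat_lit 4) (nat_lit 1) (nat_lit 16) (nat_lit 132) r8_16 r1_132 (nat_lit 0) (nat_lit 44995829) (nat_lit 40466188) (nat_lit 0x6d2f8c872) (nat_lit 927296079),
  Rx.mk (nat_lit 319) (nat_lit 7) (nat_lit 7) (nat_lit 4) (nat_lit 3) (nat_lit 17) (nat_lit 133) r8_17 r1_133 (nat_lit 0) (nat_lit 0) (nat_lit 25986002) (nat_lit 0x7f21990dc) (nat_lit 578019064),
  Rx.mk (nat_lit 356) (nat_lit 4) (nat_lit 4) (nat_lit 5) (nat_lit 4) (nat_lit 18) (nat_lit 134) r8_18 r1_134 (nat_lit 46134325) (nat_lit 144484209) (nat_lit 0) (nat_lit 0x72b2fdad0) (nat_lit 943309946),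
  Rx.mk (nat_lit 359) (nat_lit 7) (nat_lit 4) (nat_lit 5) (nat_lit 5) (nat_lit 19) (nat_lit 135) r8_19 r1_135 (nat_lit 0) (nat_lit 24741287) (nat_lit 0) (nat_lit 0x8017985b4) (nat_lit 561612199),
  Rx.mk (nat_lit 383) (nat_lit 7) (nat_lit 7) (nat_lit 5) (nat_lit 7) (nat_lit 20) (nat_lit 136) r8_20 r1_136 (nat_lit 0) (nat_lit 0) (nat_lit 0) (nat_lit 0x8017985b4) (nat_lit 536870912),
  Rx.mk (nat_lit 420) (nat_lit 4) (nat_lit 4) (nat_lit 6) (nat_lit 4) (nat_lit 21) (nat_lit 138) r8_21 r1_138 (nat_lit 31041958) (nat_lit 36913539) (nat_lit 0) (nat_lit 0x73f49b3ba) (nat_lit 800345659),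
  Rx.mk (nat_lit 436) (nat_lit 4) (nat_lit 6) (nat_lit 6) (nat_lit 6) (nat_lit 22) (nat_lit 139) r8_22 r1_139 (nat_lit 19606239) (nat_lit 0) (nat_lit 0) (nat_lit 0x7f4c479c8) (nat_lit 568985001),
  Rx.mk (nat_lit 438) (nat_lit 6) (nat_lit 6) (nat_lit 6) (nat_lit 7) (nat_lit 23) (nat_lit 140) r8_23 r1_140 (nat_lit 0) (nat_lit 0) (nat_lit 0) (nat_lit 0x8017985b4) (nat_lit 536870912),
  Rx.mk (nat_lit 511) (nat_lit 7) (nat_lit 7) (nat_lit 7) (nat_lit 7) (nat_lit 24) (nat_lit 137) r8_24 r1_137 (nat_lit 0) (nat_lit 0) (nat_lit 0) (nat_lit 0x8017985b4) (nat_lit 536870912)]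
noncomputable def e16_15 : List Rx := [
  Rx.mk (nat_lit 292) (nat_lit 4) (nat_lit 4) (nat_lit 4) (nat_lit 0) (nat_lit 126) (nat_lit 126) r8_126 r8_126 (nat_lit 20497821) (nat_lit 69167844) (nat_lit 20497821) (nat_lit 0x3ff6c5f16) (nat_lit 1683229348),
  Rx.mk (nat_lit 295) (nat_lit 7) (nat_lit 4) (nat_lit 4) (nat_lit 1) (nat_lit 127) (nat_lit 129) r8_127 r8_129 (nat_lit 0) (nat_lit 25761297) (nat_lit 25354659) (nat_lit 0x65918fae0) (nat_lit 1016119168),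
  Rx.mk (nat_lit 319) (nat_lit 7) (nat_lit 7) (nat_lit 4) (nat_lit 3) (nat_lit 128) (nat_lit 130) r8_128 r8_130 (nat_lit 0) (nat_lit 0) (nat_lit 24741287) (nat_lit 0x8009bb888) (nat_lit 562459499),
  Rx.mk (nat_lit 420) (nat_lit 4) (nat_lit 4) (nat_lit 6) (nat_lit 4) (nat_lit 129) (nat_lit 127) r8_129 r8_127 (nat_lit 25354659) (nat_lit 25761297) (nat_lit 0) (nat_lit 0x65918fae0) (nat_lit 1016119168),
  Rx.mk (nat_lit 436) (nat_lit 4) (nat_lit 6) (nat_lit 6) (nat_lit 6) (nat_lit 130) (nat_lit 128) r8_130 r8_128 (nat_lit 24741287) (nat_lit 0) (nat_lit 0) (nat_lit 0x8009bb888) (nat_lit 562459499),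
  Rx.mk (nat_lit 438) (nat_lit 6) (nat_lit 6) (nat_lit 6) (nat_lit 7) (nat_lit 131) (nat_lit 132) r8_131 r8_132 (nat_lit 0) (nat_lit 0) (nat_lit 0) (nat_lit 0x8017985b4) (nat_lit 536870912),
  Rx.mk (nat_lit 511) (nat_lit 7) (nat_lit 7) (nat_lit 7) (nat_lit 7) (nat_lit 132) (nat_lit 131) r8_132 r8_131 (nat_lit 0) (nat_lit 0) (nat_lit 0) (nat_lit 0x8017985b4) (nat_lit 536870912)]
noncomputable def e16_16 : List Rx := [
  Rx.mk (nat_lit 0) (nat_lit 0) (nat_lit 0) (nat_lit 0) (nat_lit 0) (nat_lit 102) (nat_lit 114) r8_102 r8_114 (nat_lit 12621568) (nat_lit 23607891) (nat_lit 10519158) (nat_lit 0x35cfe746c) (nat_lit 1783943879),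
  Rx.mk (nat_lit 2) (nat_lit 2) (nat_lit 0) (nat_lit 0) (nat_lit 1) (nat_lit 103) (nat_lit 115) r8_103 r8_115 (nat_lit 0) (nat_lit 21485510) (nat_lit 22151582) (nat_lit 0x5d3108e36) (nat_lit 1144097304),
  Rx.mk (nat_lit 18) (nat_lit 2) (nat_lit 2) (nat_lit 0) (nat_lit 3) (nat_lit 104) (nat_lit 116) r8_104 r8_116 (nat_lit 0) (nat_lit 0) (nat_lit 24741287) (nat_lit 0x8017985b4) (nat_lit 561612199),
  Rx.mk (nat_lit 146) (nat_lit 2) (nat_lit 2) (nat_lit 2) (nat_lit 7) (nat_lit 105) (nat_lit 125) r8_105 r8_125 (nat_lit 0) (nat_lit 0) (nat_lit 0) (nat_lit 0x8017985b4) (nat_lit 536870912),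
  Rx.mk (nat_lit 150) (nat_lit 6) (nat_lit 2) (nat_lit 2) (nat_lit 7) (nat_lit 106) (nat_lit 124) r8_106 r8_124 (nat_lit 0) (nat_lit 0) (nat_lit 0) (nat_lit 0x8017985b4) (nat_lit 536870912),
  Rx.mk (nat_lit 182) (nat_lit 6) (nat_lit 6) (nat_lit 2) (nat_lit 7) (nat_lit 107) (nat_lit 123) r8_107 r8_123 (nat_lit 0) (nat_lit 0) (nat_lit 0) (nat_lit 0x8017985b4) (nat_lit 536870912),
  Rx.mk (nat_lit 192) (nat_lit 0) (nat_lit 0) (nat_lit 3) (nat_lit 4) (nat_lit 108) (nat_lit 117) r8_108 r8_117 (nat_lit 8151494) (nat_lit 7782469) (nat_lit 0) (nat_lit 0x657d11ec4) (nat_lit 982120125),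
  Rx.mk (nat_lit 194) (nat_lit 2) (nat_lit 0) (nat_lit 3) (nat_lit 5) (nat_lit 109) (nat_lit 118) r8_109 r8_118 (nat_lit 0) (nat_lit 25147508) (nat_lit 0) (nat_lit 0x80037d764) (nat_lit 563258220),
  Rx.mk (nat_lit 210) (nat_lit 2) (nat_lit 2) (nat_lit 3) (nat_lit 7) (nat_lit 110) (nat_lit 122) r8_110 r8_122 (nat_lit 0) (nat_lit 0) (nat_lit 0) (nat_lit 0x8017985b4) (nat_lit 536870912),
  Rx.mk (nat_lit 216) (nat_lit 0) (nat_lit 3) (nat_lit 3) (nat_lit 6) (nat_lit 111) (nat_lit 119) r8_111 r8_119 (nat_lit 24741287) (nat_lit 0) (nat_lit 0) (nat_lit 0x7fe7fdaf2) (nat_lit 564530549),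
  Rx.mk (nat_lit 218) (nat_lit 2) (nat_lit 3) (nat_lit 3) (nat_lit 7) (nat_lit 112) (nat_lit 121) r8_112 r8_121 (nat_lit 0) (nat_lit 0) (nat_lit 0) (nat_lit 0x8017985b4) (nat_lit 536870912),
  Rx.mk (nat_lit 219) (nat_lit 3) (nat_lit 3) (nat_lit 3) (nat_lit 7) (nat_lit 113) (nat_lit 120) r8_113 r8_120 (nat_lit 0) (nat_lit 0) (nat_lit 0) (nat_lit 0x8017985b4) (nat_lit 536870912),
  Rx.mk (nat_lit 292) (nat_lit 4) (nat_lit 4) (nat_lit 4) (nat_lit 0) (nat_lit 114) (nat_lit 102) r8_114 r8_102 (nat_lit 12621568) (nat_lit 23607891) (nat_lit 10519158) (nat_lit 0x35cfe746c) (nat_lit 1783943879),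
  Rx.mk (nat_lit 295) (nat_lit 7) (nat_lit 4) (nat_lit 4) (nat_lit 1) (nat_lit 115) (nat_lit 103) r8_115 r8_103 (nat_lit 0) (nat_lit 21485510) (nat_lit 22151582) (nat_lit 0x5d3108e36) (nat_lit 1144097304),
  Rx.mk (nat_lit 319) (nat_lit 7) (nat_lit 7) (nat_lit 4) (nat_lit 3) (nat_lit 116) (nat_lit 104) r8_116 r8_104 (nat_lit 0) (nat_lit 0) (nat_lit 24741287) (nat_lit 0x8017985b4) (nat_lit 561612199),
  Rx.mk (nat_lit 420) (nat_lit 4) (nat_lit 4) (nat_lit 6) (nat_lit 4) (nat_lit 117) (nat_lit 108) r8_117 r8_108 (nat_lit 8151494) (nat_lit 7782469) (nat_lit 0) (nat_lit 0x657d11ec4) (nat_lit 982120125),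
  Rx.mk (nat_lit 423) (nat_lit 7) (nat_lit 4) (nat_lit 6) (nat_lit 5) (nat_lit 118) (nat_lit 109) r8_118 r8_109 (nat_lit 0) (nat_lit 25147508) (nat_lit 0) (nat_lit 0x80037d764) (nat_lit 563258220),
  Rx.mk (nat_lit 436) (nat_lit 4) (nat_lit 6) (nat_lit 6) (nat_lit 6) (nat_lit 119) (nat_lit 111) r8_119 r8_111 (nat_lit 24741287) (nat_lit 0) (nat_lit 0) (nat_lit 0x7fe7fdaf2) (nat_lit 564530549),
  Rx.mk (nat_lit 438) (nat_lit 6) (nat_lit 6) (nat_lit 6) (nat_lit 7) (nat_lit 120) (nat_lit 113) r8_120 r8_113 (nat_lit 0) (nat_lit 0) (nat_lit 0) (nat_lit 0x8017985b4) (nat_lit 536870912),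
  Rx.mk (nat_lit 439) (nat_lit 7) (nat_lit 6) (nat_lit 6) (nat_lit 7) (nat_lit 121) (nat_lit 112) r8_121 r8_112 (nat_lit 0) (nat_lit 0) (nat_lit 0) (nat_lit 0x8017985b4) (nat_lit 536870912),
  Rx.mk (nat_lit 447) (nat_lit 7) (nat_lit 7) (nat_lit 6) (nat_lit 7) (nat_lit 122) (nat_lit 110) r8_122 r8_110 (nat_lit 0) (nat_lit 0) (nat_lit 0) (nat_lit 0x8017985b4) (nat_lit 536870912),
  Rx.mk (nat_lit 475) (nat_lit 3) (nat_lit 3) (nat_lit 7) (nat_lit 7) (nat_lit 123) (nat_lit 107) r8_123 r8_107 (nat_lit 0) (nat_lit 0) (nat_lit 0) (nat_lit 0x8017985b4) (nat_lit 536870912),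
  Rx.mk (nat_lit 507) (nat_lit 3) (nat_lit 7) (nat_lit 7) (nat_lit 7) (nat_lit 124) (nat_lit 106) r8_124 r8_106 (nat_lit 0) (nat_lit 0) (nat_lit 0) (nat_lit 0x8017985b4) (nat_lit 536870912),
  Rx.mk (nat_lit 511) (nat_lit 7) (nat_lit 7) (nat_lit 7) (nat_lit 7) (nat_lit 125) (nat_lit 105) r8_125 r8_105 (nat_lit 0) (nat_lit 0) (nat_lit 0) (nat_lit 0x8017985b4) (nat_lit 536870912)]
noncomputable def e16_17 : List Rx := [
  Rx.mk (nat_lit 0) (nat_lit 0) (nat_lit 0) (nat_lit 0) (nat_lit 0) (nat_lit 273) (nat_lit 99) r8_273 r9_99 (nat_lit 18790511) (nat_lit 46447449) (nat_lit 15284300) (nat_lit 0x3cee725c4) (nat_lit 1702614672),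
  Rx.mk (nat_lit 2) (nat_lit 2) (nat_lit 0) (nat_lit 0) (nat_lit 1) (nat_lit 274) (nat_lit 103) r8_274 r9_103 (nat_lit 0) (nat_lit 23607638) (nat_lit 24950323) (nat_lit 0x64fca11c2) (nat_lit 1022966473),
  Rx.mk (nat_lit 18) (nat_lit 2) (nat_lit 2) (nat_lit 0) (nat_lit 3) (nat_lit 275) (nat_lit 106) r8_275 r9_106 (nat_lit 0) (nat_lit 0) (nat_lit 24741287) (nat_lit 0x800b35984) (nat_lit 562371349),
  Rx.mk (nat_lit 24) (nat_lit 0) (nat_lit 3) (nat_lit 0) (nat_lit 2) (nat_lit 276) (nat_lit 100) r8_276 r9_100 (nat_lit 23999425) (nat_lit 0) (nat_lit 26650245) (nat_lit 0x66dd7892e) (nat_lit 994688732),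
  Rx.mk (nat_lit 26) (nat_lit 2) (nat_lit 3) (nat_lit 0) (nat_lit 3) (nat_lit 277) (nat_lit 104) r8_277 r9_104 (nat_lit 0) (nat_lit 0) (nat_lit 24488988) (nat_lit 0x7ff6155ae) (nat_lit 563408300),
  Rx.mk (nat_lit 146) (nat_lit 2) (nat_lit 2) (nat_lit 2) (nat_lit 7) (nat_lit 278) (nat_lit 107) r8_278 r9_107 (nat_lit 0) (nat_lit 0) (nat_lit 0) (nat_lit 0x8017985b4) (nat_lit 536870912),
  Rx.mk (nat_lit 150) (nat_lit 6) (nat_lit 2) (nat_lit 2) (nat_lit 7) (nat_lit 279) (nat_lit 108) r8_279 r9_108 (nat_lit 0) (nat_lit 0) (nat_lit 0) (nat_lit 0x8017985b4) (nat_lit 536870912),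
  Rx.mk (nat_lit 216) (nat_lit 0) (nat_lit 3) (nat_lit 3) (nat_lit 6) (nat_lit 280) (nat_lit 101) r8_280 r9_101 (nat_lit 24741287) (nat_lit 0) (nat_lit 0) (nat_lit 0x7ff1b40e6) (nat_lit 563929249),
  Rx.mk (nat_lit 218) (nat_lit 2) (nat_lit 3) (nat_lit 3) (nat_lit 7) (nat_lit 281) (nat_lit 105) r8_281 r9_105 (nat_lit 0) (nat_lit 0) (nat_lit 0) (nat_lit 0x8017985b4) (nat_lit 536870912),
  Rx.mk (nat_lit 219) (nat_lit 3) (nat_lit 3) (nat_lit 3) (nat_lit 7) (nat_lit 282) (nat_lit 102) r8_282 r9_102 (nat_lit 0) (nat_lit 0) (nat_lit 0) (nat_lit 0x8017985b4) (nat_lit 536870912)]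
noncomputable def e16_18 : List Rx := [
  Rx.mk (nat_lit 295) (nat_lit 7) (nat_lit 4) (nat_lit 4) (nat_lit 1) (nat_lit 47) (nat_lit 114) r8_47 r4_114 (nat_lit 0) (nat_lit 35927384) (nat_lit 25528723) (nat_lit 0x6c2494650) (nat_lit 920149869),
  Rx.mk (nat_lit 315) (nat_lit 3) (nat_lit 7) (nat_lit 4) (nat_lit 3) (nat_lit 48) (nat_lit 116) r8_48 r4_116 (nat_lit 0) (nat_lit 0) (nat_lit 19539304) (nat_lit 0x7feeea77a) (nat_lit 558873116),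
  Rx.mk (nat_lit 319) (nat_lit 7) (nat_lit 7) (nat_lit 4) (nat_lit 3) (nat_lit 49) (nat_lit 115) r8_49 r4_115 (nat_lit 0) (nat_lit 0) (nat_lit 15426170) (nat_lit 0x7fa00e8ea) (nat_lit 559577782),
  Rx.mk (nat_lit 359) (nat_lit 7) (nat_lit 4) (nat_lit 5) (nat_lit 5) (nat_lit 50) (nat_lit 117) r8_50 r4_117 (nat_lit 0) (nat_lit 24741287) (nat_lit 0) (nat_lit 0x8005f42d6) (nat_lit 562689149),
  Rx.mk (nat_lit 379) (nat_lit 3) (nat_lit 7) (nat_lit 5) (nat_lit 7) (nat_lit 51) (nat_lit 119) r8_51 r4_119 (nat_lit 0) (nat_lit 0) (nat_lit 0) (nat_lit 0x8017985b4) (nat_lit 536870912),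
  Rx.mk (nat_lit 383) (nat_lit 7) (nat_lit 7) (nat_lit 5) (nat_lit 7) (nat_lit 52) (nat_lit 118) r8_52 r4_118 (nat_lit 0) (nat_lit 0) (nat_lit 0) (nat_lit 0x8050765fc) (nat_lit 533378512),
  Rx.mk (nat_lit 423) (nat_lit 7) (nat_lit 4) (nat_lit 6) (nat_lit 5) (nat_lit 53) (nat_lit 122) r8_53 r4_122 (nat_lit 0) (nat_lit 24741287) (nat_lit 0) (nat_lit 0x8017985b4) (nat_lit 561612199),
  Rx.mk (nat_lit 439) (nat_lit 7) (nat_lit 6) (nat_lit 6) (nat_lit 7) (nat_lit 54) (nat_lit 124) r8_54 r4_124 (nat_lit 0) (nat_lit 0) (nat_lit 0) (nat_lit 0x8017985b4) (nat_lit 536870912),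
  Rx.mk (nat_lit 447) (nat_lit 7) (nat_lit 7) (nat_lit 6) (nat_lit 7) (nat_lit 55) (nat_lit 123) r8_55 r4_123 (nat_lit 0) (nat_lit 0) (nat_lit 0) (nat_lit 0x80507696c) (nat_lit 533378462),
  Rx.mk (nat_lit 475) (nat_lit 3) (nat_lit 3) (nat_lit 7) (nat_lit 7) (nat_lit 56) (nat_lit 121) r8_56 r4_121 (nat_lit 0) (nat_lit 0) (nat_lit 0) (nat_lit 0x8017985b4) (nat_lit 536870912),
  Rx.mk (nat_lit 507) (nat_lit 3) (nat_lit 7) (nat_lit 7) (nat_lit 7) (nat_lit 57) (nat_lit 120) r8_57 r4_120 (nat_lit 0) (nat_lit 0) (nat_lit 0) (nat_lit 0x8017985b4) (nat_lit 536870912)]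
noncomputable def e16_19 : List Rx := [
  Rx.mk (nat_lit 295) (nat_lit 7) (nat_lit 4) (nat_lit 4) (nat_lit 1) (nat_lit 149) (nat_lit 112) r8_149 r10_112 (nat_lit 0) (nat_lit 27532938) (nat_lit 25194848) (nat_lit 0x6502bec76) (nat_lit 1026751498),
  Rx.mk (nat_lit 315) (nat_lit 3) (nat_lit 7) (nat_lit 4) (nat_lit 3) (nat_lit 150) (nat_lit 110) r8_150 r10_110 (nat_lit 0) (nat_lit 0) (nat_lit 24741287) (nat_lit 0x8006a3cfe) (nat_lit 562650649),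
  Rx.mk (nat_lit 319) (nat_lit 7) (nat_lit 7) (nat_lit 4) (nat_lit 3) (nat_lit 151) (nat_lit 114) r8_151 r10_114 (nat_lit 0) (nat_lit 0) (nat_lit 24741287) (nat_lit 0x80046e510) (nat_lit 562785099),
  Rx.mk (nat_lit 423) (nat_lit 7) (nat_lit 4) (nat_lit 6) (nat_lit 5) (nat_lit 152) (nat_lit 113) r8_152 r10_113 (nat_lit 0) (nat_lit 24741287) (nat_lit 0) (nat_lit 0x7fc74cd8a) (nat_lit 566520649),
  Rx.mk (nat_lit 439) (nat_lit 7) (nat_lit 6) (nat_lit 6) (nat_lit 7) (nat_lit 153) (nat_lit 116) r8_153 r10_116 (nat_lit 0) (nat_lit 0) (nat_lit 0) (nat_lit 0x8017985b4) (nat_lit 536870912),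
  Rx.mk (nat_lit 447) (nat_lit 7) (nat_lit 7) (nat_lit 6) (nat_lit 7) (nat_lit 154) (nat_lit 115) r8_154 r10_115 (nat_lit 0) (nat_lit 0) (nat_lit 0) (nat_lit 0x8017985b4) (nat_lit 536870912),
  Rx.mk (nat_lit 475) (nat_lit 3) (nat_lit 3) (nat_lit 7) (nat_lit 7) (nat_lit 155) (nat_lit 109) r8_155 r10_109 (nat_lit 0) (nat_lit 0) (nat_lit 0) (nat_lit 0x8017985b4) (nat_lit 536870912),
  Rx.mk (nat_lit 507) (nat_lit 3) (nat_lit 7) (nat_lit 7) (nat_lit 7) (nat_lit 156) (nat_lit 111) r8_156 r10_111 (nat_lit 0) (nat_lit 0) (nat_lit 0) (nat_lit 0x8017985b4) (nat_lit 536870912)]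
noncomputable def e16_20 : List Rx := [
  Rx.mk (nat_lit 283) (nat_lit 3) (nat_lit 3) (nat_lit 4) (nat_lit 3) (nat_lit 206) (nat_lit 115) r8_206 r11_115 (nat_lit 0) (nat_lit 0) (nat_lit 24741287) (nat_lit 0x8017985b4) (nat_lit 561612199),
  Rx.mk (nat_lit 315) (nat_lit 3) (nat_lit 7) (nat_lit 4) (nat_lit 3) (nat_lit 207) (nat_lit 118) r8_207 r11_118 (nat_lit 0) (nat_lit 0) (nat_lit 24741287) (nat_lit 0x8017985b4) (nat_lit 561612199),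
  Rx.mk (nat_lit 319) (nat_lit 7) (nat_lit 7) (nat_lit 4) (nat_lit 3) (nat_lit 208) (nat_lit 120) r8_208 r11_120 (nat_lit 0) (nat_lit 0) (nat_lit 28059580) (nat_lit 0x7f58302f8) (nat_lit 576670492),
  Rx.mk (nat_lit 347) (nat_lit 3) (nat_lit 3) (nat_lit 5) (nat_lit 7) (nat_lit 209) (nat_lit 116) r8_209 r11_116 (nat_lit 0) (nat_lit 0) (nat_lit 0) (nat_lit 0x8017985b4) (nat_lit 536870912),
  Rx.mk (nat_lit 379) (nat_lit 3) (nat_lit 7) (nat_lit 5) (nat_lit 7) (nat_lit 210) (nat_lit 119) r8_210 r11_119 (nat_lit 0) (nat_lit 0) (nat_lit 0) (nat_lit 0x8017985b4) (nat_lit 536870912),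
  Rx.mk (nat_lit 383) (nat_lit 7) (nat_lit 7) (nat_lit 5) (nat_lit 7) (nat_lit 211) (nat_lit 121) r8_211 r11_121 (nat_lit 0) (nat_lit 0) (nat_lit 0) (nat_lit 0x8017985b4) (nat_lit 536870912),
  Rx.mk (nat_lit 447) (nat_lit 7) (nat_lit 7) (nat_lit 6) (nat_lit 7) (nat_lit 212) (nat_lit 122) r8_212 r11_122 (nat_lit 0) (nat_lit 0) (nat_lit 0) (nat_lit 0x8017985b4) (nat_lit 536870912),
  Rx.mk (nat_lit 475) (nat_lit 3) (nat_lit 3) (nat_lit 7) (nat_lit 7) (nat_lit 213) (nat_lit 117) r8_213 r11_117 (nat_lit 0) (nat_lit 0) (nat_lit 0) (nat_lit 0x8017985b4) (nat_lit 536870912)]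
noncomputable def e16_21 : List Rx := [
  Rx.mk (nat_lit 0) (nat_lit 0) (nat_lit 0) (nat_lit 0) (nat_lit 0) (nat_lit 266) (nat_lit 202) r8_266 r9_202 (nat_lit 23929726) (nat_lit 37514210) (nat_lit 16962537) (nat_lit 0x3e09e15de) (nat_lit 1682604485),
  Rx.mk (nat_lit 2) (nat_lit 2) (nat_lit 0) (nat_lit 0) (nat_lit 1) (nat_lit 267) (nat_lit 203) r8_267 r9_203 (nat_lit 0) (nat_lit 27096766) (nat_lit 34060215) (nat_lit 0x698596640) (nat_lit 962235943),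
  Rx.mk (nat_lit 18) (nat_lit 2) (nat_lit 2) (nat_lit 0) (nat_lit 3) (nat_lit 268) (nat_lit 207) r8_268 r9_207 (nat_lit 0) (nat_lit 0) (nat_lit 24537189) (nat_lit 0x8007ecd18) (nat_lit 562365701),
  Rx.mk (nat_lit 24) (nat_lit 0) (nat_lit 3) (nat_lit 0) (nat_lit 2) (nat_lit 269) (nat_lit 204) r8_269 r9_204 (nat_lit 25355923) (nat_lit 0) (nat_lit 29280147) (nat_lit 0x6cdd7d4fa) (nat_lit 901656982),
  Rx.mk (nat_lit 146) (nat_lit 2) (nat_lit 2) (nat_lit 2) (nat_lit 7) (nat_lit 270) (nat_lit 208) r8_270 r9_208 (nat_lit 0) (nat_lit 0) (nat_lit 0) (nat_lit 0x8017985b4) (nat_lit 536870912),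
  Rx.mk (nat_lit 216) (nat_lit 0) (nat_lit 3) (nat_lit 3) (nat_lit 6) (nat_lit 271) (nat_lit 205) r8_271 r9_205 (nat_lit 24741287) (nat_lit 0) (nat_lit 0) (nat_lit 0x8017985b4) (nat_lit 561612199),
  Rx.mk (nat_lit 219) (nat_lit 3) (nat_lit 3) (nat_lit 3) (nat_lit 7) (nat_lit 272) (nat_lit 206) r8_272 r9_206 (nat_lit 0) (nat_lit 0) (nat_lit 0) (nat_lit 0x8017985b4) (nat_lit 536870912)]
noncomputable def e16_22 : List Rx := [
  Rx.mk (nat_lit 64) (nat_lit 0) (nat_lit 0) (nat_lit 1) (nat_lit 4) (nat_lit 230) (nat_lit 271) r8_230 r0_271 (nat_lit 75494649) (nat_lit 75450971) (nat_lit 0) (nat_lit 0x5a61765d0) (nat_lit 1296858182),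
  Rx.mk (nat_lit 65) (nat_lit 1) (nat_lit 0) (nat_lit 1) (nat_lit 5) (nat_lit 231) (nat_lit 274) r8_231 r0_274 (nat_lit 0) (nat_lit 30314307) (nat_lit 0) (nat_lit 0x6f3513136) (nat_lit 839472119),
  Rx.mk (nat_lit 72) (nat_lit 0) (nat_lit 1) (nat_lit 1) (nat_lit 6) (nat_lit 232) (nat_lit 272) r8_232 r0_272 (nat_lit 36993222) (nat_lit 0) (nat_lit 0) (nat_lit 0x7df6aaa0c) (nat_lit 607751434),
  Rx.mk (nat_lit 73) (nat_lit 1) (nat_lit 1) (nat_lit 1) (nat_lit 7) (nat_lit 233) (nat_lit 275) r8_233 r0_275 (nat_lit 0) (nat_lit 0) (nat_lit 0) (nat_lit 0x7f69ccc6e) (nat_lit 547574012),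
  Rx.mk (nat_lit 88) (nat_lit 0) (nat_lit 3) (nat_lit 1) (nat_lit 6) (nat_lit 234) (nat_lit 273) r8_234 r0_273 (nat_lit 25972273) (nat_lit 0) (nat_lit 0) (nat_lit 0x7eb8e4744) (nat_lit 584573485),
  Rx.mk (nat_lit 89) (nat_lit 1) (nat_lit 3) (nat_lit 1) (nat_lit 7) (nat_lit 235) (nat_lit 276) r8_235 r0_276 (nat_lit 0) (nat_lit 0) (nat_lit 0) (nat_lit 0x8017985b4) (nat_lit 536870912),
  Rx.mk (nat_lit 91) (nat_lit 3) (nat_lit 3) (nat_lit 1) (nat_lit 7) (nat_lit 236) (nat_lit 277) r8_236 r0_277 (nat_lit 0) (nat_lit 0) (nat_lit 0) (nat_lit 0x8010a6c4c) (nat_lit 537295162),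
  Rx.mk (nat_lit 320) (nat_lit 0) (nat_lit 0) (nat_lit 5) (nat_lit 4) (nat_lit 237) (nat_lit 278) r8_237 r0_278 (nat_lit 22445376) (nat_lit 11187286) (nat_lit 0) (nat_lit 0x611b170e2) (nat_lit 1070645824),
  Rx.mk (nat_lit 321) (nat_lit 1) (nat_lit 0) (nat_lit 5) (nat_lit 5) (nat_lit 238) (nat_lit 280) r8_238 r0_280 (nat_lit 0) (nat_lit 25163350) (nat_lit 0) (nat_lit 0x75f165a36) (nat_lit 725421662),
  Rx.mk (nat_lit 328) (nat_lit 0) (nat_lit 1) (nat_lit 5) (nat_lit 6) (nat_lit 239) (nat_lit 279) r8_239 r0_279 (nat_lit 24741287) (nat_lit 0) (nat_lit 0) (nat_lit 0x7faf81db8) (nat_lit 567993049),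
  Rx.mk (nat_lit 329) (nat_lit 1) (nat_lit 1) (nat_lit 5) (nat_lit 7) (nat_lit 240) (nat_lit 281) r8_240 r0_281 (nat_lit 0) (nat_lit 0) (nat_lit 0) (nat_lit 0x80027a268) (nat_lit 538140112)]
noncomputable def e16_23 : List Rx := [
  Rx.mk (nat_lit 72) (nat_lit 0) (nat_lit 1) (nat_lit 1) (nat_lit 6) (nat_lit 316) (nat_lit 274) r8_316 r1_274 (nat_lit 24586055) (nat_lit 0) (nat_lit 0) (nat_lit 0x80057ba20) (nat_lit 562565917),
  Rx.mk (nat_lit 73) (nat_lit 1) (nat_lit 1) (nat_lit 1) (nat_lit 7) (nat_lit 317) (nat_lit 275) r8_317 r1_275 (nat_lit 0) (nat_lit 0) (nat_lit 0) (nat_lit 0x8017985b4) (nat_lit 536870912),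
  Rx.mk (nat_lit 328) (nat_lit 0) (nat_lit 1) (nat_lit 5) (nat_lit 6) (nat_lit 318) (nat_lit 276) r8_318 r1_276 (nat_lit 24741287) (nat_lit 0) (nat_lit 0) (nat_lit 0x8017985b4) (nat_lit 561612199),
  Rx.mk (nat_lit 329) (nat_lit 1) (nat_lit 1) (nat_lit 5) (nat_lit 7) (nat_lit 319) (nat_lit 277) r8_319 r1_277 (nat_lit 0) (nat_lit 0) (nat_lit 0) (nat_lit 0x8017985b4) (nat_lit 536870912)]
noncomputable def e16_24 : List Rx := [
  Rx.mk (nat_lit 88) (nat_lit 0) (nat_lit 3) (nat_lit 1) (nat_lit 6) (nat_lit 338) (nat_lit 284) r8_338 r4_284 (nat_lit 24741287) (nat_lit 0) (nat_lit 0) (nat_lit 0x8017985b4) (nat_lit 561612199),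
  Rx.mk (nat_lit 89) (nat_lit 1) (nat_lit 3) (nat_lit 1) (nat_lit 7) (nat_lit 339) (nat_lit 285) r8_339 r4_285 (nat_lit 0) (nat_lit 0) (nat_lit 0) (nat_lit 0x8017985b4) (nat_lit 536870912),
  Rx.mk (nat_lit 91) (nat_lit 3) (nat_lit 3) (nat_lit 1) (nat_lit 7) (nat_lit 340) (nat_lit 286) r8_340 r4_286 (nat_lit 0) (nat_lit 0) (nat_lit 0) (nat_lit 0x8017985b4) (nat_lit 536870912),
  Rx.mk (nat_lit 320) (nat_lit 0) (nat_lit 0) (nat_lit 5) (nat_lit 4) (nat_lit 341) (nat_lit 287) r8_341 r4_287 (nat_lit 27124229) (nat_lit 34758505) (nat_lit 0) (nat_lit 0x700d128ac) (nat_lit 857380996),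
  Rx.mk (nat_lit 321) (nat_lit 1) (nat_lit 0) (nat_lit 5) (nat_lit 5) (nat_lit 342) (nat_lit 290) r8_342 r4_290 (nat_lit 0) (nat_lit 24741287) (nat_lit 0) (nat_lit 0x8017985b4) (nat_lit 561612199),
  Rx.mk (nat_lit 328) (nat_lit 0) (nat_lit 1) (nat_lit 5) (nat_lit 6) (nat_lit 343) (nat_lit 288) r8_343 r4_288 (nat_lit 24741287) (nat_lit 0) (nat_lit 0) (nat_lit 0x7ff500268) (nat_lit 563728899),
  Rx.mk (nat_lit 329) (nat_lit 1) (nat_lit 1) (nat_lit 5) (nat_lit 7) (nat_lit 344) (nat_lit 291) r8_344 r4_291 (nat_lit 0) (nat_lit 0) (nat_lit 0) (nat_lit 0x8017985b4) (nat_lit 536870912),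
  Rx.mk (nat_lit 344) (nat_lit 0) (nat_lit 3) (nat_lit 5) (nat_lit 6) (nat_lit 345) (nat_lit 289) r8_345 r4_289 (nat_lit 24741287) (nat_lit 0) (nat_lit 0) (nat_lit 0x8017985b4) (nat_lit 561612199),
  Rx.mk (nat_lit 345) (nat_lit 1) (nat_lit 3) (nat_lit 5) (nat_lit 7) (nat_lit 346) (nat_lit 292) r8_346 r4_292 (nat_lit 0) (nat_lit 0) (nat_lit 0) (nat_lit 0x8017985b4) (nat_lit 536870912)]
noncomputable def e16_25 : List Rx := [
  Rx.mk (nat_lit 64) (nat_lit 0) (nat_lit 0) (nat_lit 1) (nat_lit 4) (nat_lit 248) (nat_lit 246) r8_248 r7_246 (nat_lit 69413824) (nat_lit 54887331) (nat_lit 0) (nat_lit 0x65c8453d2) (nat_lit 1085844417),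
  Rx.mk (nat_lit 65) (nat_lit 1) (nat_lit 0) (nat_lit 1) (nat_lit 5) (nat_lit 249) (nat_lit 247) r8_249 r7_247 (nat_lit 0) (nat_lit 25009292) (nat_lit 0) (nat_lit 0x8011540e0) (nat_lit 562263654),
  Rx.mk (nat_lit 66) (nat_lit 2) (nat_lit 0) (nat_lit 1) (nat_lit 5) (nat_lit 250) (nat_lit 248) r8_250 r7_248 (nat_lit 0) (nat_lit 24741287) (nat_lit 0) (nat_lit 0x8017985b4) (nat_lit 561612199),
  Rx.mk (nat_lit 72) (nat_lit 0) (nat_lit 1) (nat_lit 1) (nat_lit 6) (nat_lit 251) (nat_lit 249) r8_251 r7_249 (nat_lit 25521481) (nat_lit 0) (nat_lit 0) (nat_lit 0x8004c69ea) (nat_lit 563543143),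
  Rx.mk (nat_lit 73) (nat_lit 1) (nat_lit 1) (nat_lit 1) (nat_lit 7) (nat_lit 252) (nat_lit 250) r8_252 r7_250 (nat_lit 0) (nat_lit 0) (nat_lit 0) (nat_lit 0x8017985b4) (nat_lit 536870912),
  Rx.mk (nat_lit 74) (nat_lit 2) (nat_lit 1) (nat_lit 1) (nat_lit 7) (nat_lit 253) (nat_lit 251) r8_253 r7_251 (nat_lit 0) (nat_lit 0) (nat_lit 0) (nat_lit 0x8017985b4) (nat_lit 536870912),
  Rx.mk (nat_lit 88) (nat_lit 0) (nat_lit 3) (nat_lit 1) (nat_lit 6) (nat_lit 254) (nat_lit 252) r8_254 r7_252 (nat_lit 24625619) (nat_lit 0) (nat_lit 0) (nat_lit 0x800a04d3a) (nat_lit 562328731),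
  Rx.mk (nat_lit 89) (nat_lit 1) (nat_lit 3) (nat_lit 1) (nat_lit 7) (nat_lit 255) (nat_lit 253) r8_255 r7_253 (nat_lit 0) (nat_lit 0) (nat_lit 0) (nat_lit 0x8017985b4) (nat_lit 536870912),
  Rx.mk (nat_lit 91) (nat_lit 3) (nat_lit 3) (nat_lit 1) (nat_lit 7) (nat_lit 256) (nat_lit 254) r8_256 r7_254 (nat_lit 0) (nat_lit 0) (nat_lit 0) (nat_lit 0x8017985b4) (nat_lit 536870912)]
noncomputable def e16_26 : List Rx := [
  Rx.mk (nat_lit 72) (nat_lit 0) (nat_lit 1) (nat_lit 1) (nat_lit 6) (nat_lit 323) (nat_lit 191) r8_323 r8_191 (nat_lit 24741287) (nat_lit 0) (nat_lit 0) (nat_lit 0x8017985b4) (nat_lit 561612199),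
  Rx.mk (nat_lit 73) (nat_lit 1) (nat_lit 1) (nat_lit 1) (nat_lit 7) (nat_lit 324) (nat_lit 192) r8_324 r8_192 (nat_lit 0) (nat_lit 0) (nat_lit 0) (nat_lit 0x8017985b4) (nat_lit 536870912),
  Rx.mk (nat_lit 74) (nat_lit 2) (nat_lit 1) (nat_lit 1) (nat_lit 7) (nat_lit 325) (nat_lit 193) r8_325 r8_193 (nat_lit 0) (nat_lit 0) (nat_lit 0) (nat_lit 0x8017985b4) (nat_lit 536870912)]
noncomputable def e16_27 : List Rx := [
  Rx.mk (nat_lit 0) (nat_lit 0) (nat_lit 0) (nat_lit 0) (nat_lit 0) (nat_lit 299) (nat_lit 299) r8_299 r8_299 (nat_lit 49404879) (nat_lit 49404879) (nat_lit 24537386) (nat_lit 0x3fed72ca2) (nat_lit 1697003556),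
  Rx.mk (nat_lit 2) (nat_lit 2) (nat_lit 0) (nat_lit 0) (nat_lit 1) (nat_lit 300) (nat_lit 302) r8_300 r8_302 (nat_lit 0) (nat_lit 39717842) (nat_lit 44632481) (nat_lit 0x6cbc2f938) (nat_lit 933479835),
  Rx.mk (nat_lit 18) (nat_lit 2) (nat_lit 2) (nat_lit 0) (nat_lit 3) (nat_lit 301) (nat_lit 303) r8_301 r8_303 (nat_lit 0) (nat_lit 0) (nat_lit 24741287) (nat_lit 0x8017985b4) (nat_lit 561612199),
  Rx.mk (nat_lit 24) (nat_lit 0) (nat_lit 3) (nat_lit 0) (nat_lit 2) (nat_lit 302) (nat_lit 300) r8_302 r8_300 (nat_lit 39717842) (nat_lit 0) (nat_lit 44632481) (nat_lit 0x6cbc2f938) (nat_lit 933479835),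
  Rx.mk (nat_lit 27) (nat_lit 3) (nat_lit 3) (nat_lit 0) (nat_lit 3) (nat_lit 303) (nat_lit 301) r8_303 r8_301 (nat_lit 0) (nat_lit 0) (nat_lit 24741287) (nat_lit 0x8017985b4) (nat_lit 561612199),
  Rx.mk (nat_lit 64) (nat_lit 0) (nat_lit 0) (nat_lit 1) (nat_lit 4) (nat_lit 304) (nat_lit 304) r8_304 r8_304 (nat_lit 73831755) (nat_lit 73831755) (nat_lit 0) (nat_lit 0x6cd203c6e) (nat_lit 995409072),
  Rx.mk (nat_lit 65) (nat_lit 1) (nat_lit 0) (nat_lit 1) (nat_lit 5) (nat_lit 305) (nat_lit 307) r8_305 r8_307 (nat_lit 0) (nat_lit 23858381) (nat_lit 0) (nat_lit 0x7fdfd7f80) (nat_lit 564143543),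
  Rx.mk (nat_lit 66) (nat_lit 2) (nat_lit 0) (nat_lit 1) (nat_lit 5) (nat_lit 306) (nat_lit 311) r8_306 r8_311 (nat_lit 0) (nat_lit 24741287) (nat_lit 0) (nat_lit 0x8017985b4) (nat_lit 561612199),
  Rx.mk (nat_lit 72) (nat_lit 0) (nat_lit 1) (nat_lit 1) (nat_lit 6) (nat_lit 307) (nat_lit 305) r8_307 r8_305 (nat_lit 23858381) (nat_lit 0) (nat_lit 0) (nat_lit 0x7fdfd7f80) (nat_lit 564143543),
  Rx.mk (nat_lit 73) (nat_lit 1) (nat_lit 1) (nat_lit 1) (nat_lit 7) (nat_lit 308) (nat_lit 308) r8_308 r8_308 (nat_lit 0) (nat_lit 0) (nat_lit 0) (nat_lit 0x8017985b4) (nat_lit 536870912),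
  Rx.mk (nat_lit 74) (nat_lit 2) (nat_lit 1) (nat_lit 1) (nat_lit 7) (nat_lit 309) (nat_lit 312) r8_309 r8_312 (nat_lit 0) (nat_lit 0) (nat_lit 0) (nat_lit 0x8017985b4) (nat_lit 536870912),
  Rx.mk (nat_lit 82) (nat_lit 2) (nat_lit 2) (nat_lit 1) (nat_lit 7) (nat_lit 310) (nat_lit 313) r8_310 r8_313 (nat_lit 0) (nat_lit 0) (nat_lit 0) (nat_lit 0x8017985b4) (nat_lit 536870912),
  Rx.mk (nat_lit 88) (nat_lit 0) (nat_lit 3) (nat_lit 1) (nat_lit 6) (nat_lit 311) (nat_lit 306) r8_311 r8_306 (nat_lit 24741287) (nat_lit 0) (nat_lit 0) (nat_lit 0x8017985b4) (nat_lit 561612199),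
  Rx.mk (nat_lit 89) (nat_lit 1) (nat_lit 3) (nat_lit 1) (nat_lit 7) (nat_lit 312) (nat_lit 309) r8_312 r8_309 (nat_lit 0) (nat_lit 0) (nat_lit 0) (nat_lit 0x8017985b4) (nat_lit 536870912),
  Rx.mk (nat_lit 91) (nat_lit 3) (nat_lit 3) (nat_lit 1) (nat_lit 7) (nat_lit 313) (nat_lit 310) r8_313 r8_310 (nat_lit 0) (nat_lit 0) (nat_lit 0) (nat_lit 0x8017985b4) (nat_lit 536870912),
  Rx.mk (nat_lit 146) (nat_lit 2) (nat_lit 2) (nat_lit 2) (nat_lit 7) (nat_lit 314) (nat_lit 315) r8_314 r8_315 (nat_lit 0) (nat_lit 0) (nat_lit 0) (nat_lit 0x8017985b4) (nat_lit 536870912),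
  Rx.mk (nat_lit 219) (nat_lit 3) (nat_lit 3) (nat_lit 3) (nat_lit 7) (nat_lit 315) (nat_lit 314) r8_315 r8_314 (nat_lit 0) (nat_lit 0) (nat_lit 0) (nat_lit 0x8017985b4) (nat_lit 536870912)]
noncomputable def e16_28 : List Rx := [
  Rx.mk (nat_lit 88) (nat_lit 0) (nat_lit 3) (nat_lit 1) (nat_lit 6) (nat_lit 355) (nat_lit 195) r8_355 r10_195 (nat_lit 24634759) (nat_lit 0) (nat_lit 0) (nat_lit 0x800b33de6) (nat_lit 562264771),
  Rx.mk (nat_lit 89) (nat_lit 1) (nat_lit 3) (nat_lit 1) (nat_lit 7) (nat_lit 356) (nat_lit 196) r8_356 r10_196 (nat_lit 0) (nat_lit 0) (nat_lit 0) (nat_lit 0x8017985b4) (nat_lit 536870912),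
  Rx.mk (nat_lit 91) (nat_lit 3) (nat_lit 3) (nat_lit 1) (nat_lit 7) (nat_lit 357) (nat_lit 197) r8_357 r10_197 (nat_lit 0) (nat_lit 0) (nat_lit 0) (nat_lit 0x8017985b4) (nat_lit 536870912)]
noncomputable def e16_29 : List Rx := [
  Rx.mk (nat_lit 91) (nat_lit 3) (nat_lit 3) (nat_lit 1) (nat_lit 7) (nat_lit 367) (nat_lit 229) r8_367 r11_229 (nat_lit 0) (nat_lit 0) (nat_lit 0) (nat_lit 0x8017985b4) (nat_lit 536870912),
  Rx.mk (nat_lit 320) (nat_lit 0) (nat_lit 0) (nat_lit 5) (nat_lit 4) (nat_lit 368) (nat_lit 222) r8_368 r11_222 (nat_lit 49696383) (nat_lit 93109333) (nat_lit 0) (nat_lit 0x7a0dfb9e4) (nat_lit 776624328),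
  Rx.mk (nat_lit 321) (nat_lit 1) (nat_lit 0) (nat_lit 5) (nat_lit 5) (nat_lit 369) (nat_lit 223) r8_369 r11_223 (nat_lit 0) (nat_lit 24741287) (nat_lit 0) (nat_lit 0x8017985b4) (nat_lit 561612199),
  Rx.mk (nat_lit 328) (nat_lit 0) (nat_lit 1) (nat_lit 5) (nat_lit 6) (nat_lit 370) (nat_lit 224) r8_370 r11_224 (nat_lit 24741287) (nat_lit 0) (nat_lit 0) (nat_lit 0x8017985b4) (nat_lit 561612199),
  Rx.mk (nat_lit 329) (nat_lit 1) (nat_lit 1) (nat_lit 5) (nat_lit 7) (nat_lit 371) (nat_lit 225) r8_371 r11_225 (nat_lit 0) (nat_lit 0) (nat_lit 0) (nat_lit 0x8017985b4) (nat_lit 536870912),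
  Rx.mk (nat_lit 344) (nat_lit 0) (nat_lit 3) (nat_lit 5) (nat_lit 6) (nat_lit 372) (nat_lit 226) r8_372 r11_226 (nat_lit 24741287) (nat_lit 0) (nat_lit 0) (nat_lit 0x8017985b4) (nat_lit 561612199),
  Rx.mk (nat_lit 345) (nat_lit 1) (nat_lit 3) (nat_lit 5) (nat_lit 7) (nat_lit 373) (nat_lit 227) r8_373 r11_227 (nat_lit 0) (nat_lit 0) (nat_lit 0) (nat_lit 0x8017985b4) (nat_lit 536870912),
  Rx.mk (nat_lit 347) (nat_lit 3) (nat_lit 3) (nat_lit 5) (nat_lit 7) (nat_lit 374) (nat_lit 228) r8_374 r11_228 (nat_lit 0) (nat_lit 0) (nat_lit 0) (nat_lit 0x8017985b4) (nat_lit 536870912)]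
noncomputable def e16_30 : List Rx := [
  Rx.mk (nat_lit 315) (nat_lit 3) (nat_lit 7) (nat_lit 4) (nat_lit 3) (nat_lit 58) (nat_lit 115) r8_58 r5_115 (nat_lit 0) (nat_lit 0) (nat_lit 14303237) (nat_lit 0x7ea35f61c) (nat_lit 574182799),
  Rx.mk (nat_lit 379) (nat_lit 3) (nat_lit 7) (nat_lit 5) (nat_lit 7) (nat_lit 59) (nat_lit 116) r8_59 r5_116 (nat_lit 0) (nat_lit 0) (nat_lit 0) (nat_lit 0x805c00e40) (nat_lit 532666762),
  Rx.mk (nat_lit 507) (nat_lit 3) (nat_lit 7) (nat_lit 7) (nat_lit 7) (nat_lit 60) (nat_lit 117) r8_60 r5_117 (nat_lit 0) (nat_lit 0) (nat_lit 0) (nat_lit 0x8017985b4) (nat_lit 536870912)]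
noncomputable def e16_31 : List Rx := [
  Rx.mk (nat_lit 315) (nat_lit 3) (nat_lit 7) (nat_lit 4) (nat_lit 3) (nat_lit 157) (nat_lit 113) r8_157 r11_113 (nat_lit 0) (nat_lit 0) (nat_lit 24741287) (nat_lit 0x8017985b4) (nat_lit 561612199),
  Rx.mk (nat_lit 507) (nat_lit 3) (nat_lit 7) (nat_lit 7) (nat_lit 7) (nat_lit 158) (nat_lit 114) r8_158 r11_114 (nat_lit 0) (nat_lit 0) (nat_lit 0) (nat_lit 0x8017985b4) (nat_lit 536870912)]
noncomputable def e16_32 : List Rx := [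
  Rx.mk (nat_lit 344) (nat_lit 0) (nat_lit 3) (nat_lit 5) (nat_lit 6) (nat_lit 214) (nat_lit 311) r8_214 r6_311 (nat_lit 24741287) (nat_lit 0) (nat_lit 0) (nat_lit 0x8017985b4) (nat_lit 561612199),
  Rx.mk (nat_lit 345) (nat_lit 1) (nat_lit 3) (nat_lit 5) (nat_lit 7) (nat_lit 215) (nat_lit 313) r8_215 r6_313 (nat_lit 0) (nat_lit 0) (nat_lit 0) (nat_lit 0x8017985b4) (nat_lit 536870912),
  Rx.mk (nat_lit 376) (nat_lit 0) (nat_lit 7) (nat_lit 5) (nat_lit 6) (nat_lit 216) (nat_lit 310) r8_216 r6_310 (nat_lit 11102784) (nat_lit 0) (nat_lit 0) (nat_lit 0x80e83c530) (nat_lit 535184746),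
  Rx.mk (nat_lit 377) (nat_lit 1) (nat_lit 7) (nat_lit 5) (nat_lit 7) (nat_lit 217) (nat_lit 312) r8_217 r6_312 (nat_lit 0) (nat_lit 0) (nat_lit 0) (nat_lit 0x8017985b4) (nat_lit 536870912)]
noncomputable def e16_33 : List Rx := [
  Rx.mk (nat_lit 88) (nat_lit 0) (nat_lit 3) (nat_lit 1) (nat_lit 6) (nat_lit 347) (nat_lit 269) r8_347 r5_269 (nat_lit 26407128) (nat_lit 0) (nat_lit 0) (nat_lit 0x7ed75b9ac) (nat_lit 583090140),
  Rx.mk (nat_lit 89) (nat_lit 1) (nat_lit 3) (nat_lit 1) (nat_lit 7) (nat_lit 348) (nat_lit 270) r8_348 r5_270 (nat_lit 0) (nat_lit 0) (nat_lit 0) (nat_lit 0x8017985b4) (nat_lit 536870912),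
  Rx.mk (nat_lit 344) (nat_lit 0) (nat_lit 3) (nat_lit 5) (nat_lit 6) (nat_lit 349) (nat_lit 271) r8_349 r5_271 (nat_lit 26551209) (nat_lit 0) (nat_lit 0) (nat_lit 0x7f5f75306) (nat_lit 574765171),
  Rx.mk (nat_lit 345) (nat_lit 1) (nat_lit 3) (nat_lit 5) (nat_lit 7) (nat_lit 350) (nat_lit 272) r8_350 r5_272 (nat_lit 0) (nat_lit 0) (nat_lit 0) (nat_lit 0x8017985b4) (nat_lit 536870912)]
noncomputable def e16_34 : List Rx := [
  Rx.mk (nat_lit 88) (nat_lit 0) (nat_lit 3) (nat_lit 1) (nat_lit 6) (nat_lit 358) (nat_lit 335) r8_358 r11_335 (nat_lit 24741287) (nat_lit 0) (nat_lit 0) (nat_lit 0x8017985b4) (nat_lit 561612199),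
  Rx.mk (nat_lit 89) (nat_lit 1) (nat_lit 3) (nat_lit 1) (nat_lit 7) (nat_lit 359) (nat_lit 336) r8_359 r11_336 (nat_lit 0) (nat_lit 0) (nat_lit 0) (nat_lit 0x8017985b4) (nat_lit 536870912),
  Rx.mk (nat_lit 90) (nat_lit 2) (nat_lit 3) (nat_lit 1) (nat_lit 7) (nat_lit 360) (nat_lit 337) r8_360 r11_337 (nat_lit 0) (nat_lit 0) (nat_lit 0) (nat_lit 0x8017985b4) (nat_lit 536870912)]
noncomputable def e16_35 : List Rx := [
  Rx.mk (nat_lit 376) (nat_lit 0) (nat_lit 7) (nat_lit 5) (nat_lit 6) (nat_lit 71) (nat_lit 203) r8_71 r6_203 (nat_lit 11276317) (nat_lit 0) (nat_lit 0) (nat_lit 0x80f41308e) (nat_lit 534645879),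
  Rx.mk (nat_lit 377) (nat_lit 1) (nat_lit 7) (nat_lit 5) (nat_lit 7) (nat_lit 72) (nat_lit 204) r8_72 r6_204 (nat_lit 0) (nat_lit 0) (nat_lit 0) (nat_lit 0x8017985b4) (nat_lit 536870912),
  Rx.mk (nat_lit 379) (nat_lit 3) (nat_lit 7) (nat_lit 5) (nat_lit 7) (nat_lit 73) (nat_lit 205) r8_73 r6_205 (nat_lit 0) (nat_lit 0) (nat_lit 0) (nat_lit 0x80607f5fc) (nat_lit 532392712)]
noncomputable def e16_36 : List Rx := [
  Rx.mk (nat_lit 344) (nat_lit 0) (nat_lit 3) (nat_lit 5) (nat_lit 6) (nat_lit 225) (nat_lit 117) r8_225 r12_117 (nat_lit 25796827) (nat_lit 0) (nat_lit 0) (nat_lit 0x7fa80b20a) (nat_lit 569524589),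
  Rx.mk (nat_lit 345) (nat_lit 1) (nat_lit 3) (nat_lit 5) (nat_lit 7) (nat_lit 226) (nat_lit 119) r8_226 r12_119 (nat_lit 0) (nat_lit 0) (nat_lit 0) (nat_lit 0x8017985b4) (nat_lit 536870912),
  Rx.mk (nat_lit 376) (nat_lit 0) (nat_lit 7) (nat_lit 5) (nat_lit 6) (nat_lit 227) (nat_lit 118) r8_227 r12_118 (nat_lit 8954591) (nat_lit 0) (nat_lit 0) (nat_lit 0x8144dd5dc) (nat_lit 527420603),
  Rx.mk (nat_lit 377) (nat_lit 1) (nat_lit 7) (nat_lit 5) (nat_lit 7) (nat_lit 228) (nat_lit 120) r8_228 r12_120 (nat_lit 0) (nat_lit 0) (nat_lit 0) (nat_lit 0x8017985b4) (nat_lit 536870912),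
  Rx.mk (nat_lit 379) (nat_lit 3) (nat_lit 7) (nat_lit 5) (nat_lit 7) (nat_lit 229) (nat_lit 121) r8_229 r12_121 (nat_lit 0) (nat_lit 0) (nat_lit 0) (nat_lit 0x8017985b4) (nat_lit 536870912)]
noncomputable def e16_37 : List Rx := [
  Rx.mk (nat_lit 353) (nat_lit 1) (nat_lit 4) (nat_lit 5) (nat_lit 5) (nat_lit 178) (nat_lit 289) r8_178 r0_289 (nat_lit 0) (nat_lit 25058333) (nat_lit 0) (nat_lit 0x74a9cadf8) (nat_lit 746005345),
  Rx.mk (nat_lit 361) (nat_lit 1) (nat_lit 5) (nat_lit 5) (nat_lit 7) (nat_lit 179) (nat_lit 290) r8_179 r0_290 (nat_lit 0) (nat_lit 0) (nat_lit 0) (nat_lit 0x7ffa6b34c) (nat_lit 538657562)]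
noncomputable def e16_38 : List Rx := [
  Rx.mk (nat_lit 353) (nat_lit 1) (nat_lit 4) (nat_lit 5) (nat_lit 5) (nat_lit 63) (nat_lit 185) r8_63 r0_185 (nat_lit 0) (nat_lit 17259595) (nat_lit 0) (nat_lit 0x7bf63ab82) (nat_lit 620224207),
  Rx.mk (nat_lit 357) (nat_lit 5) (nat_lit 4) (nat_lit 5) (nat_lit 5) (nat_lit 64) (nat_lit 186) r8_64 r0_186 (nat_lit 0) (nat_lit 26500941) (nat_lit 0) (nat_lit 0x7c9c5d064) (nat_lit 619045003),
  Rx.mk (nat_lit 381) (nat_lit 5) (nat_lit 7) (nat_lit 5) (nat_lit 7) (nat_lit 65) (nat_lit 187) r8_65 r0_187 (nat_lit 0) (nat_lit 0) (nat_lit 0) (nat_lit 0x802f4e852) (nat_lit 535398012)]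
noncomputable def e16_39 : List Rx := [
  Rx.mk (nat_lit 353) (nat_lit 1) (nat_lit 4) (nat_lit 5) (nat_lit 5) (nat_lit 184) (nat_lit 404) r8_184 r7_404 (nat_lit 0) (nat_lit 24741287) (nat_lit 0) (nat_lit 0x8017985b4) (nat_lit 561612199),
  Rx.mk (nat_lit 357) (nat_lit 5) (nat_lit 4) (nat_lit 5) (nat_lit 5) (nat_lit 185) (nat_lit 401) r8_185 r7_401 (nat_lit 0) (nat_lit 25158612) (nat_lit 0) (nat_lit 0x7ffdc5b5a) (nat_lit 563608374),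
  Rx.mk (nat_lit 361) (nat_lit 1) (nat_lit 5) (nat_lit 5) (nat_lit 7) (nat_lit 186) (nat_lit 405) r8_186 r7_405 (nat_lit 0) (nat_lit 0) (nat_lit 0) (nat_lit 0x8017985b4) (nat_lit 536870912),
  Rx.mk (nat_lit 365) (nat_lit 5) (nat_lit 5) (nat_lit 5) (nat_lit 7) (nat_lit 187) (nat_lit 402) r8_187 r7_402 (nat_lit 0) (nat_lit 0) (nat_lit 0) (nat_lit 0x8017985b4) (nat_lit 536870912),
  Rx.mk (nat_lit 381) (nat_lit 5) (nat_lit 7) (nat_lit 5) (nat_lit 7) (nat_lit 188) (nat_lit 403) r8_188 r7_403 (nat_lit 0) (nat_lit 0) (nat_lit 0) (nat_lit 0x8017985b4) (nat_lit 536870912)]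
noncomputable def e16_40 : List Rx := [
  Rx.mk (nat_lit 292) (nat_lit 4) (nat_lit 4) (nat_lit 4) (nat_lit 0) (nat_lit 25) (nat_lit 203) r8_25 r2_203 (nat_lit 5186153) (nat_lit 12331261) (nat_lit 4963972) (nat_lit 0x3d9490d48) (nat_lit 1633943848),
  Rx.mk (nat_lit 293) (nat_lit 5) (nat_lit 4) (nat_lit 4) (nat_lit 1) (nat_lit 26) (nat_lit 204) r8_26 r2_204 (nat_lit 0) (nat_lit 52104926) (nat_lit 34582474) (nat_lit 0x6328cac00) (nat_lit 1090646762),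
  Rx.mk (nat_lit 316) (nat_lit 4) (nat_lit 7) (nat_lit 4) (nat_lit 2) (nat_lit 27) (nat_lit 209) r8_27 r2_209 (nat_lit 24833065) (nat_lit 0) (nat_lit 21402582) (nat_lit 0x6b091ef98) (nat_lit 922817759),
  Rx.mk (nat_lit 317) (nat_lit 5) (nat_lit 7) (nat_lit 4) (nat_lit 3) (nat_lit 28) (nat_lit 210) r8_28 r2_210 (nat_lit 0) (nat_lit 0) (nat_lit 24741287) (nat_lit 0x8017985b4) (nat_lit 561612199),
  Rx.mk (nat_lit 319) (nat_lit 7) (nat_lit 7) (nat_lit 4) (nat_lit 3) (nat_lit 29) (nat_lit 211) r8_29 r2_211 (nat_lit 0) (nat_lit 0) (nat_lit 24741287) (nat_lit 0x7fd79296a) (nat_lit 565539099),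
  Rx.mk (nat_lit 356) (nat_lit 4) (nat_lit 4) (nat_lit 5) (nat_lit 4) (nat_lit 30) (nat_lit 205) r8_30 r2_205 (nat_lit 57149300) (nat_lit 36724435) (nat_lit 0) (nat_lit 0x6701206b0) (nat_lit 1035651797),
  Rx.mk (nat_lit 357) (nat_lit 5) (nat_lit 4) (nat_lit 5) (nat_lit 5) (nat_lit 31) (nat_lit 206) r8_31 r2_206 (nat_lit 0) (nat_lit 25055876) (nat_lit 0) (nat_lit 0x7fce11080) (nat_lit 566426188),
  Rx.mk (nat_lit 380) (nat_lit 4) (nat_lit 7) (nat_lit 5) (nat_lit 6) (nat_lit 32) (nat_lit 212) r8_32 r2_212 (nat_lit 24741287) (nat_lit 0) (nat_lit 0) (nat_lit 0x8017985b4) (nat_lit 561612199),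
  Rx.mk (nat_lit 381) (nat_lit 5) (nat_lit 7) (nat_lit 5) (nat_lit 7) (nat_lit 33) (nat_lit 213) r8_33 r2_213 (nat_lit 0) (nat_lit 0) (nat_lit 0) (nat_lit 0x8017985b4) (nat_lit 536870912),
  Rx.mk (nat_lit 383) (nat_lit 7) (nat_lit 7) (nat_lit 5) (nat_lit 7) (nat_lit 34) (nat_lit 214) r8_34 r2_214 (nat_lit 0) (nat_lit 0) (nat_lit 0) (nat_lit 0x8017985b4) (nat_lit 536870912),
  Rx.mk (nat_lit 420) (nat_lit 4) (nat_lit 4) (nat_lit 6) (nat_lit 4) (nat_lit 35) (nat_lit 207) r8_35 r2_207 (nat_lit 26542101) (nat_lit 20092839) (nat_lit 0) (nat_lit 0x6a8be4910) (nat_lit 931123202),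
  Rx.mk (nat_lit 421) (nat_lit 5) (nat_lit 4) (nat_lit 6) (nat_lit 5) (nat_lit 36) (nat_lit 208) r8_36 r2_208 (nat_lit 0) (nat_lit 25669145) (nat_lit 0) (nat_lit 0x80014139c) (nat_lit 563906157),
  Rx.mk (nat_lit 436) (nat_lit 4) (nat_lit 6) (nat_lit 6) (nat_lit 6) (nat_lit 37) (nat_lit 218) r8_37 r2_218 (nat_lit 24741287) (nat_lit 0) (nat_lit 0) (nat_lit 0x8017985b4) (nat_lit 561612199),
  Rx.mk (nat_lit 437) (nat_lit 5) (nat_lit 6) (nat_lit 6) (nat_lit 7) (nat_lit 38) (nat_lit 219) r8_38 r2_219 (nat_lit 0) (nat_lit 0) (nat_lit 0) (nat_lit 0x8017985b4) (nat_lit 536870912),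
  Rx.mk (nat_lit 438) (nat_lit 6) (nat_lit 6) (nat_lit 6) (nat_lit 7) (nat_lit 39) (nat_lit 220) r8_39 r2_220 (nat_lit 0) (nat_lit 0) (nat_lit 0) (nat_lit 0x8017985b4) (nat_lit 536870912),
  Rx.mk (nat_lit 444) (nat_lit 4) (nat_lit 7) (nat_lit 6) (nat_lit 6) (nat_lit 40) (nat_lit 216) r8_40 r2_216 (nat_lit 24741287) (nat_lit 0) (nat_lit 0) (nat_lit 0x7ff611878) (nat_lit 563663549),
  Rx.mk (nat_lit 445) (nat_lit 5) (nat_lit 7) (nat_lit 6) (nat_lit 7) (nat_lit 41) (nat_lit 217) r8_41 r2_217 (nat_lit 0) (nat_lit 0) (nat_lit 0) (nat_lit 0x8017985b4) (nat_lit 536870912),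
  Rx.mk (nat_lit 511) (nat_lit 7) (nat_lit 7) (nat_lit 7) (nat_lit 7) (nat_lit 42) (nat_lit 215) r8_42 r2_215 (nat_lit 0) (nat_lit 0) (nat_lit 0) (nat_lit 0x8017985b4) (nat_lit 536870912)]
noncomputable def e16_41 : List Rx := [
  Rx.mk (nat_lit 292) (nat_lit 4) (nat_lit 4) (nat_lit 4) (nat_lit 0) (nat_lit 159) (nat_lit 183) r8_159 r9_183 (nat_lit 18255310) (nat_lit 23644808) (nat_lit 27871597) (nat_lit 0x407f928e4) (nat_lit 1634185527),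
  Rx.mk (nat_lit 293) (nat_lit 5) (nat_lit 4) (nat_lit 4) (nat_lit 1) (nat_lit 160) (nat_lit 184) r8_160 r9_184 (nat_lit 0) (nat_lit 50716108) (nat_lit 34699300) (nat_lit 0x6b512c18c) (nat_lit 957466070),
  Rx.mk (nat_lit 301) (nat_lit 5) (nat_lit 5) (nat_lit 4) (nat_lit 3) (nat_lit 161) (nat_lit 189) r8_161 r9_189 (nat_lit 0) (nat_lit 0) (nat_lit 25054288) (nat_lit 0x800856290) (nat_lit 562857500),
  Rx.mk (nat_lit 316) (nat_lit 4) (nat_lit 7) (nat_lit 4) (nat_lit 2) (nat_lit 162) (nat_lit 192) r8_162 r9_192 (nat_lit 40482942) (nat_lit 0) (nat_lit 28133172) (nat_lit 0x6d0747a06) (nat_lit 912998026),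
  Rx.mk (nat_lit 317) (nat_lit 5) (nat_lit 7) (nat_lit 4) (nat_lit 3) (nat_lit 163) (nat_lit 193) r8_163 r9_193 (nat_lit 0) (nat_lit 0) (nat_lit 24741287) (nat_lit 0x8009d4ae0) (nat_lit 562452249),
  Rx.mk (nat_lit 319) (nat_lit 7) (nat_lit 7) (nat_lit 4) (nat_lit 3) (nat_lit 164) (nat_lit 194) r8_164 r9_194 (nat_lit 0) (nat_lit 0) (nat_lit 24741287) (nat_lit 0x8017985b4) (nat_lit 561612199),
  Rx.mk (nat_lit 356) (nat_lit 4) (nat_lit 4) (nat_lit 5) (nat_lit 4) (nat_lit 165) (nat_lit 185) r8_165 r9_185 (nat_lit 130895702) (nat_lit 40805453) (nat_lit 0) (nat_lit 0x7010e2518) (nat_lit 966967117),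
  Rx.mk (nat_lit 357) (nat_lit 5) (nat_lit 4) (nat_lit 5) (nat_lit 5) (nat_lit 166) (nat_lit 186) r8_166 r9_186 (nat_lit 0) (nat_lit 23667545) (nat_lit 0) (nat_lit 0x7fe4ef41e) (nat_lit 563630257),
  Rx.mk (nat_lit 365) (nat_lit 5) (nat_lit 5) (nat_lit 5) (nat_lit 7) (nat_lit 167) (nat_lit 190) r8_167 r9_190 (nat_lit 0) (nat_lit 0) (nat_lit 0) (nat_lit 0x8017985b4) (nat_lit 536870912),
  Rx.mk (nat_lit 380) (nat_lit 4) (nat_lit 7) (nat_lit 5) (nat_lit 6) (nat_lit 168) (nat_lit 195) r8_168 r9_195 (nat_lit 24741287) (nat_lit 0) (nat_lit 0) (nat_lit 0x8017985b4) (nat_lit 561612199),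
  Rx.mk (nat_lit 381) (nat_lit 5) (nat_lit 7) (nat_lit 5) (nat_lit 7) (nat_lit 169) (nat_lit 196) r8_169 r9_196 (nat_lit 0) (nat_lit 0) (nat_lit 0) (nat_lit 0x8017985b4) (nat_lit 536870912),
  Rx.mk (nat_lit 383) (nat_lit 7) (nat_lit 7) (nat_lit 5) (nat_lit 7) (nat_lit 170) (nat_lit 197) r8_170 r9_197 (nat_lit 0) (nat_lit 0) (nat_lit 0) (nat_lit 0x8017985b4) (nat_lit 536870912),
  Rx.mk (nat_lit 420) (nat_lit 4) (nat_lit 4) (nat_lit 6) (nat_lit 4) (nat_lit 171) (nat_lit 187) r8_171 r9_187 (nat_lit 55618136) (nat_lit 30134438) (nat_lit 0) (nat_lit 0x6f41c019a) (nat_lit 894101936),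
  Rx.mk (nat_lit 421) (nat_lit 5) (nat_lit 4) (nat_lit 6) (nat_lit 5) (nat_lit 172) (nat_lit 188) r8_172 r9_188 (nat_lit 0) (nat_lit 24741287) (nat_lit 0) (nat_lit 0x8017985b4) (nat_lit 561612199),
  Rx.mk (nat_lit 429) (nat_lit 5) (nat_lit 5) (nat_lit 6) (nat_lit 7) (nat_lit 173) (nat_lit 191) r8_173 r9_191 (nat_lit 0) (nat_lit 0) (nat_lit 0) (nat_lit 0x8017985b4) (nat_lit 536870912),
  Rx.mk (nat_lit 436) (nat_lit 4) (nat_lit 6) (nat_lit 6) (nat_lit 6) (nat_lit 174) (nat_lit 199) r8_174 r9_199 (nat_lit 24741287) (nat_lit 0) (nat_lit 0) (nat_lit 0x8017985b4) (nat_lit 561612199),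
  Rx.mk (nat_lit 437) (nat_lit 5) (nat_lit 6) (nat_lit 6) (nat_lit 7) (nat_lit 175) (nat_lit 200) r8_175 r9_200 (nat_lit 0) (nat_lit 0) (nat_lit 0) (nat_lit 0x8017985b4) (nat_lit 536870912),
  Rx.mk (nat_lit 438) (nat_lit 6) (nat_lit 6) (nat_lit 6) (nat_lit 7) (nat_lit 176) (nat_lit 201) r8_176 r9_201 (nat_lit 0) (nat_lit 0) (nat_lit 0) (nat_lit 0x8017985b4) (nat_lit 536870912),
  Rx.mk (nat_lit 511) (nat_lit 7) (nat_lit 7) (nat_lit 7) (nat_lit 7) (nat_lit 177) (nat_lit 198) r8_177 r9_198 (nat_lit 0) (nat_lit 0) (nat_lit 0) (nat_lit 0x8017985b4) (nat_lit 536870912)]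
noncomputable def e16_42 : List Rx := [
  Rx.mk (nat_lit 292) (nat_lit 4) (nat_lit 4) (nat_lit 4) (nat_lit 0) (nat_lit 133) (nat_lit 86) r8_133 r9_86 (nat_lit 18637644) (nat_lit 94967087) (nat_lit 17870946) (nat_lit 0x4127ec576) (nat_lit 1685261939),
  Rx.mk (nat_lit 293) (nat_lit 5) (nat_lit 4) (nat_lit 4) (nat_lit 1) (nat_lit 134) (nat_lit 87) r8_134 r9_87 (nat_lit 0) (nat_lit 82173125) (nat_lit 26394436) (nat_lit 0x6a21a438e) (nat_lit 999789173),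
  Rx.mk (nat_lit 316) (nat_lit 4) (nat_lit 7) (nat_lit 4) (nat_lit 2) (nat_lit 135) (nat_lit 88) r8_135 r9_88 (nat_lit 29365924) (nat_lit 0) (nat_lit 24700278) (nat_lit 0x6a57b692c) (nat_lit 941876114),
  Rx.mk (nat_lit 317) (nat_lit 5) (nat_lit 7) (nat_lit 4) (nat_lit 3) (nat_lit 136) (nat_lit 89) r8_136 r9_89 (nat_lit 0) (nat_lit 0) (nat_lit 24741287) (nat_lit 0x8017985b4) (nat_lit 561612199),
  Rx.mk (nat_lit 319) (nat_lit 7) (nat_lit 7) (nat_lit 4) (nat_lit 3) (nat_lit 137) (nat_lit 90) r8_137 r9_90 (nat_lit 0) (nat_lit 0) (nat_lit 24741287) (nat_lit 0x7fffb92e0) (nat_lit 563069249),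
  Rx.mk (nat_lit 420) (nat_lit 4) (nat_lit 4) (nat_lit 6) (nat_lit 4) (nat_lit 138) (nat_lit 92) r8_138 r9_92 (nat_lit 35165148) (nat_lit 23390390) (nat_lit 0) (nat_lit 0x65db9d3f8) (nat_lit 1018879500),
  Rx.mk (nat_lit 421) (nat_lit 5) (nat_lit 4) (nat_lit 6) (nat_lit 5) (nat_lit 139) (nat_lit 93) r8_139 r9_93 (nat_lit 0) (nat_lit 24741287) (nat_lit 0) (nat_lit 0x8017985b4) (nat_lit 561612199),
  Rx.mk (nat_lit 436) (nat_lit 4) (nat_lit 6) (nat_lit 6) (nat_lit 6) (nat_lit 140) (nat_lit 96) r8_140 r9_96 (nat_lit 24741287) (nat_lit 0) (nat_lit 0) (nat_lit 0x8017985b4) (nat_lit 561612199),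
  Rx.mk (nat_lit 437) (nat_lit 5) (nat_lit 6) (nat_lit 6) (nat_lit 7) (nat_lit 141) (nat_lit 97) r8_141 r9_97 (nat_lit 0) (nat_lit 0) (nat_lit 0) (nat_lit 0x8017985b4) (nat_lit 536870912),
  Rx.mk (nat_lit 438) (nat_lit 6) (nat_lit 6) (nat_lit 6) (nat_lit 7) (nat_lit 142) (nat_lit 98) r8_142 r9_98 (nat_lit 0) (nat_lit 0) (nat_lit 0) (nat_lit 0x8017985b4) (nat_lit 536870912),
  Rx.mk (nat_lit 444) (nat_lit 4) (nat_lit 7) (nat_lit 6) (nat_lit 6) (nat_lit 143) (nat_lit 94) r8_143 r9_94 (nat_lit 24489661) (nat_lit 0) (nat_lit 0) (nat_lit 0x7ffa8f6de) (nat_lit 563135273),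
  Rx.mk (nat_lit 445) (nat_lit 5) (nat_lit 7) (nat_lit 6) (nat_lit 7) (nat_lit 144) (nat_lit 95) r8_144 r9_95 (nat_lit 0) (nat_lit 0) (nat_lit 0) (nat_lit 0x8017985b4) (nat_lit 536870912),
  Rx.mk (nat_lit 511) (nat_lit 7) (nat_lit 7) (nat_lit 7) (nat_lit 7) (nat_lit 145) (nat_lit 91) r8_145 r9_91 (nat_lit 0) (nat_lit 0) (nat_lit 0) (nat_lit 0x8017985b4) (nat_lit 536870912)]
noncomputable def e16_43 : List Rx := [
  Rx.mk (nat_lit 357) (nat_lit 5) (nat_lit 4) (nat_lit 5) (nat_lit 5) (nat_lit 66) (nat_lit 199) r8_66 r1_199 (nat_lit 0) (nat_lit 24741287) (nat_lit 0) (nat_lit 0x8001ac32c) (nat_lit 562953699),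
  Rx.mk (nat_lit 381) (nat_lit 5) (nat_lit 7) (nat_lit 5) (nat_lit 7) (nat_lit 67) (nat_lit 200) r8_67 r1_200 (nat_lit 0) (nat_lit 0) (nat_lit 0) (nat_lit 0x8017985b4) (nat_lit 536870912)]
noncomputable def e16_44 : List Rx := [
  Rx.mk (nat_lit 357) (nat_lit 5) (nat_lit 4) (nat_lit 5) (nat_lit 5) (nat_lit 191) (nat_lit 323) r8_191 r8_323 (nat_lit 0) (nat_lit 24741287) (nat_lit 0) (nat_lit 0x8017985b4) (nat_lit 561612199),
  Rx.mk (nat_lit 365) (nat_lit 5) (nat_lit 5) (nat_lit 5) (nat_lit 7) (nat_lit 192) (nat_lit 324) r8_192 r8_324 (nat_lit 0) (nat_lit 0) (nat_lit 0) (nat_lit 0x8017985b4) (nat_lit 536870912),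
  Rx.mk (nat_lit 381) (nat_lit 5) (nat_lit 7) (nat_lit 5) (nat_lit 7) (nat_lit 193) (nat_lit 325) r8_193 r8_325 (nat_lit 0) (nat_lit 0) (nat_lit 0) (nat_lit 0x8017985b4) (nat_lit 536870912)]
noncomputable def e16_45 : List Rx := [
  Rx.mk (nat_lit 361) (nat_lit 1) (nat_lit 5) (nat_lit 5) (nat_lit 7) (nat_lit 180) (nat_lit 286) r8_180 r1_286 (nat_lit 0) (nat_lit 0) (nat_lit 0) (nat_lit 0x8017985b4) (nat_lit 536870912)]
noncomputable def e16_46 : List Rx := [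
  Rx.mk (nat_lit 73) (nat_lit 1) (nat_lit 1) (nat_lit 1) (nat_lit 7) (nat_lit 320) (nat_lit 314) r8_320 r2_314 (nat_lit 0) (nat_lit 0) (nat_lit 0) (nat_lit 0x8017985b4) (nat_lit 536870912),
  Rx.mk (nat_lit 329) (nat_lit 1) (nat_lit 1) (nat_lit 5) (nat_lit 7) (nat_lit 321) (nat_lit 313) r8_321 r2_313 (nat_lit 0) (nat_lit 0) (nat_lit 0) (nat_lit 0x8017985b4) (nat_lit 536870912),
  Rx.mk (nat_lit 361) (nat_lit 1) (nat_lit 5) (nat_lit 5) (nat_lit 7) (nat_lit 322) (nat_lit 312) r8_322 r2_312 (nat_lit 0) (nat_lit 0) (nat_lit 0) (nat_lit 0x8017985b4) (nat_lit 536870912)]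
noncomputable def e16_47 : List Rx := [
  Rx.mk (nat_lit 361) (nat_lit 1) (nat_lit 5) (nat_lit 5) (nat_lit 7) (nat_lit 189) (nat_lit 189) r8_189 r8_189 (nat_lit 0) (nat_lit 0) (nat_lit 0) (nat_lit 0x8017985b4) (nat_lit 536870912),
  Rx.mk (nat_lit 365) (nat_lit 5) (nat_lit 5) (nat_lit 5) (nat_lit 7) (nat_lit 190) (nat_lit 190) r8_190 r8_190 (nat_lit 0) (nat_lit 0) (nat_lit 0) (nat_lit 0x8017985b4) (nat_lit 536870912)]
noncomputable def e16_48 : List Rx := [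
  Rx.mk (nat_lit 73) (nat_lit 1) (nat_lit 1) (nat_lit 1) (nat_lit 7) (nat_lit 327) (nat_lit 297) r8_327 r9_297 (nat_lit 0) (nat_lit 0) (nat_lit 0) (nat_lit 0x8017985b4) (nat_lit 536870912),
  Rx.mk (nat_lit 329) (nat_lit 1) (nat_lit 1) (nat_lit 5) (nat_lit 7) (nat_lit 328) (nat_lit 296) r8_328 r9_296 (nat_lit 0) (nat_lit 0) (nat_lit 0) (nat_lit 0x8017985b4) (nat_lit 536870912),
  Rx.mk (nat_lit 361) (nat_lit 1) (nat_lit 5) (nat_lit 5) (nat_lit 7) (nat_lit 329) (nat_lit 295) r8_329 r9_295 (nat_lit 0) (nat_lit 0) (nat_lit 0) (nat_lit 0x8017985b4) (nat_lit 536870912),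
  Rx.mk (nat_lit 365) (nat_lit 5) (nat_lit 5) (nat_lit 5) (nat_lit 7) (nat_lit 330) (nat_lit 294) r8_330 r9_294 (nat_lit 0) (nat_lit 0) (nat_lit 0) (nat_lit 0x8017985b4) (nat_lit 536870912)]
noncomputable def e16_49 : List Rx := [
  Rx.mk (nat_lit 73) (nat_lit 1) (nat_lit 1) (nat_lit 1) (nat_lit 7) (nat_lit 326) (nat_lit 289) r8_326 r9_289 (nat_lit 0) (nat_lit 0) (nat_lit 0) (nat_lit 0x8017985b4) (nat_lit 536870912)]
noncomputable def e16_50 : List Rx := [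
  Rx.mk (nat_lit 353) (nat_lit 1) (nat_lit 4) (nat_lit 5) (nat_lit 5) (nat_lit 61) (nat_lit 288) r8_61 r3_288 (nat_lit 0) (nat_lit 4361193) (nat_lit 0) (nat_lit 0x73e0634a6) (nat_lit 737767955),
  Rx.mk (nat_lit 377) (nat_lit 1) (nat_lit 7) (nat_lit 5) (nat_lit 7) (nat_lit 62) (nat_lit 289) r8_62 r3_289 (nat_lit 0) (nat_lit 0) (nat_lit 0) (nat_lit 0x851b92084) (nat_lit 459606612)]
noncomputable def e16_51 : List Rx := [
  Rx.mk (nat_lit 353) (nat_lit 1) (nat_lit 4) (nat_lit 5) (nat_lit 5) (nat_lit 181) (nat_lit 304) r8_181 r4_304 (nat_lit 0) (nat_lit 24372871) (nat_lit 0) (nat_lit 0x7fec7bb1a) (nat_lit 563885983),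
  Rx.mk (nat_lit 361) (nat_lit 1) (nat_lit 5) (nat_lit 5) (nat_lit 7) (nat_lit 182) (nat_lit 305) r8_182 r4_305 (nat_lit 0) (nat_lit 0) (nat_lit 0) (nat_lit 0x8017985b4) (nat_lit 536870912),
  Rx.mk (nat_lit 377) (nat_lit 1) (nat_lit 7) (nat_lit 5) (nat_lit 7) (nat_lit 183) (nat_lit 306) r8_183 r4_306 (nat_lit 0) (nat_lit 0) (nat_lit 0) (nat_lit 0x8017985b4) (nat_lit 536870912)]
noncomputable def e16_52 : List Rx := [
  Rx.mk (nat_lit 377) (nat_lit 1) (nat_lit 7) (nat_lit 5) (nat_lit 7) (nat_lit 218) (nat_lit 285) r8_218 r5_285 (nat_lit 0) (nat_lit 0) (nat_lit 0) (nat_lit 0x815927600) (nat_lit 517280412)]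
noncomputable def e16_53 : List Rx := [
  Rx.mk (nat_lit 353) (nat_lit 1) (nat_lit 4) (nat_lit 5) (nat_lit 5) (nat_lit 68) (nat_lit 174) r8_68 r4_174 (nat_lit 0) (nat_lit 19417164) (nat_lit 0) (nat_lit 0x7fd35cbf2) (nat_lit 560445626),
  Rx.mk (nat_lit 377) (nat_lit 1) (nat_lit 7) (nat_lit 5) (nat_lit 7) (nat_lit 69) (nat_lit 175) r8_69 r4_175 (nat_lit 0) (nat_lit 0) (nat_lit 0) (nat_lit 0x80539e52c) (nat_lit 533184912),
  Rx.mk (nat_lit 381) (nat_lit 5) (nat_lit 7) (nat_lit 5) (nat_lit 7) (nat_lit 70) (nat_lit 176) r8_70 r4_176 (nat_lit 0) (nat_lit 0) (nat_lit 0) (nat_lit 0x8017985b4) (nat_lit 536870912)]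
noncomputable def e16_54 : List Rx := [
  Rx.mk (nat_lit 353) (nat_lit 1) (nat_lit 4) (nat_lit 5) (nat_lit 5) (nat_lit 194) (nat_lit 326) r8_194 r10_326 (nat_lit 0) (nat_lit 24741287) (nat_lit 0) (nat_lit 0x8017985b4) (nat_lit 561612199),
  Rx.mk (nat_lit 361) (nat_lit 1) (nat_lit 5) (nat_lit 5) (nat_lit 7) (nat_lit 195) (nat_lit 327) r8_195 r10_327 (nat_lit 0) (nat_lit 0) (nat_lit 0) (nat_lit 0x8017985b4) (nat_lit 536870912),
  Rx.mk (nat_lit 377) (nat_lit 1) (nat_lit 7) (nat_lit 5) (nat_lit 7) (nat_lit 196) (nat_lit 328) r8_196 r10_328 (nat_lit 0) (nat_lit 0) (nat_lit 0) (nat_lit 0x8017985b4) (nat_lit 536870912),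
  Rx.mk (nat_lit 381) (nat_lit 5) (nat_lit 7) (nat_lit 5) (nat_lit 7) (nat_lit 197) (nat_lit 325) r8_197 r10_325 (nat_lit 0) (nat_lit 0) (nat_lit 0) (nat_lit 0x8017985b4) (nat_lit 536870912)]
noncomputable def e16_55 : List Rx := [
  Rx.mk (nat_lit 377) (nat_lit 1) (nat_lit 7) (nat_lit 5) (nat_lit 7) (nat_lit 219) (nat_lit 344) r8_219 r11_344 (nat_lit 0) (nat_lit 0) (nat_lit 0) (nat_lit 0x8017985b4) (nat_lit 536870912),
  Rx.mk (nat_lit 381) (nat_lit 5) (nat_lit 7) (nat_lit 5) (nat_lit 7) (nat_lit 220) (nat_lit 343) r8_220 r11_343 (nat_lit 0) (nat_lit 0) (nat_lit 0) (nat_lit 0x8017985b4) (nat_lit 536870912)]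
noncomputable def e16_56 : List Rx := [
  Rx.mk (nat_lit 353) (nat_lit 1) (nat_lit 4) (nat_lit 5) (nat_lit 5) (nat_lit 74) (nat_lit 189) r8_74 r5_189 (nat_lit 0) (nat_lit 17765140) (nat_lit 0) (nat_lit 0x7ff74602c) (nat_lit 556578502),
  Rx.mk (nat_lit 377) (nat_lit 1) (nat_lit 7) (nat_lit 5) (nat_lit 7) (nat_lit 75) (nat_lit 190) r8_75 r5_190 (nat_lit 0) (nat_lit 0) (nat_lit 0) (nat_lit 0x80b32653a) (nat_lit 527341762)]
noncomputable def e16_57 : List Rx := [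
  Rx.mk (nat_lit 353) (nat_lit 1) (nat_lit 4) (nat_lit 5) (nat_lit 5) (nat_lit 198) (nat_lit 219) r8_198 r11_219 (nat_lit 0) (nat_lit 24741287) (nat_lit 0) (nat_lit 0x8017985b4) (nat_lit 561612199),
  Rx.mk (nat_lit 361) (nat_lit 1) (nat_lit 5) (nat_lit 5) (nat_lit 7) (nat_lit 199) (nat_lit 220) r8_199 r11_220 (nat_lit 0) (nat_lit 0) (nat_lit 0) (nat_lit 0x8017985b4) (nat_lit 536870912),
  Rx.mk (nat_lit 377) (nat_lit 1) (nat_lit 7) (nat_lit 5) (nat_lit 7) (nat_lit 200) (nat_lit 221) r8_200 r11_221 (nat_lit 0) (nat_lit 0) (nat_lit 0) (nat_lit 0x8017985b4) (nat_lit 536870912)]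
noncomputable def e16 : List (List Rx) := [e16_0, e16_1, e16_2, e16_3, e16_4, e16_5, e16_6, e16_7, e16_8, e16_9, e16_10, e16_11, e16_12, e16_13, e16_14, e16_15, e16_16, e16_17, e16_18, e16_19, e16_20, e16_21, e16_22, e16_23, e16_24, e16_25, e16_26, e16_27, e16_28, e16_29, e16_30, e16_31, e16_32, e16_33, e16_34, e16_35, e16_36, e16_37, e16_38, e16_39, e16_40, e16_41, e16_42, e16_43, e16_44, e16_45, e16_46, e16_47, e16_48, e16_49, e16_50, e16_51, e16_52, e16_53, e16_54, e16_55, e16_56, e16_57]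
noncomputable def e17_0 : List Rx := [
  Rx.mk (nat_lit 507) (nat_lit 3) (nat_lit 7) (nat_lit 7) (nat_lit 7) (nat_lit 0) (nat_lit 141) r9_0 r0_141 (nat_lit 0) (nat_lit 0) (nat_lit 0) (nat_lit 0x7fe34c40e) (nat_lit 540076362)]
noncomputable def e17_1 : List Rx := [
  Rx.mk (nat_lit 507) (nat_lit 3) (nat_lit 7) (nat_lit 7) (nat_lit 7) (nat_lit 1) (nat_lit 153) r9_1 r1_153 (nat_lit 0) (nat_lit 0) (nat_lit 0) (nat_lit 0x8017985b4) (nat_lit 536870912)]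
noncomputable def e17_2 : List Rx := [
  Rx.mk (nat_lit 0) (nat_lit 0) (nat_lit 0) (nat_lit 0) (nat_lit 0) (nat_lit 2) (nat_lit 146) r9_2 r2_146 (nat_lit 10208836) (nat_lit 12054409) (nat_lit 9380650) (nat_lit 0x4191c7aea) (nat_lit 1578696407),
  Rx.mk (nat_lit 2) (nat_lit 2) (nat_lit 0) (nat_lit 0) (nat_lit 1) (nat_lit 5) (nat_lit 152) r9_5 r2_152 (nat_lit 0) (nat_lit 19348784) (nat_lit 28184396) (nat_lit 0x6737e5402) (nat_lit 985858192),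
  Rx.mk (nat_lit 24) (nat_lit 0) (nat_lit 3) (nat_lit 0) (nat_lit 2) (nat_lit 3) (nat_lit 147) r9_3 r2_147 (nat_lit 18448465) (nat_lit 0) (nat_lit 27923274) (nat_lit 0x696412f82) (nat_lit 949568801),
  Rx.mk (nat_lit 26) (nat_lit 2) (nat_lit 3) (nat_lit 0) (nat_lit 3) (nat_lit 8) (nat_lit 154) r9_8 r2_154 (nat_lit 0) (nat_lit 0) (nat_lit 24741287) (nat_lit 0x800e5e7c8) (nat_lit 562175649),
  Rx.mk (nat_lit 130) (nat_lit 2) (nat_lit 0) (nat_lit 2) (nat_lit 5) (nat_lit 6) (nat_lit 153) r9_6 r2_153 (nat_lit 0) (nat_lit 23881749) (nat_lit 0) (nat_lit 0x7ffacd09c) (nat_lit 562515361),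
  Rx.mk (nat_lit 146) (nat_lit 2) (nat_lit 2) (nat_lit 2) (nat_lit 7) (nat_lit 7) (nat_lit 157) r9_7 r2_157 (nat_lit 0) (nat_lit 0) (nat_lit 0) (nat_lit 0x8017985b4) (nat_lit 536870912),
  Rx.mk (nat_lit 154) (nat_lit 2) (nat_lit 3) (nat_lit 2) (nat_lit 7) (nat_lit 9) (nat_lit 156) r9_9 r2_156 (nat_lit 0) (nat_lit 0) (nat_lit 0) (nat_lit 0x8017985b4) (nat_lit 536870912),
  Rx.mk (nat_lit 216) (nat_lit 0) (nat_lit 3) (nat_lit 3) (nat_lit 6) (nat_lit 4) (nat_lit 148) r9_4 r2_148 (nat_lit 24741287) (nat_lit 0) (nat_lit 0) (nat_lit 0x7f9cd5ee4) (nat_lit 569152349),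
  Rx.mk (nat_lit 218) (nat_lit 2) (nat_lit 3) (nat_lit 3) (nat_lit 7) (nat_lit 10) (nat_lit 155) r9_10 r2_155 (nat_lit 0) (nat_lit 0) (nat_lit 0) (nat_lit 0x8017985b4) (nat_lit 536870912),
  Rx.mk (nat_lit 219) (nat_lit 3) (nat_lit 3) (nat_lit 3) (nat_lit 7) (nat_lit 13) (nat_lit 149) r9_13 r2_149 (nat_lit 0) (nat_lit 0) (nat_lit 0) (nat_lit 0x8017985b4) (nat_lit 536870912),
  Rx.mk (nat_lit 251) (nat_lit 3) (nat_lit 7) (nat_lit 3) (nat_lit 7) (nat_lit 12) (nat_lit 150) r9_12 r2_150 (nat_lit 0) (nat_lit 0) (nat_lit 0) (nat_lit 0x8017985b4) (nat_lit 536870912),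
  Rx.mk (nat_lit 507) (nat_lit 3) (nat_lit 7) (nat_lit 7) (nat_lit 7) (nat_lit 11) (nat_lit 151) r9_11 r2_151 (nat_lit 0) (nat_lit 0) (nat_lit 0) (nat_lit 0x8017985b4) (nat_lit 536870912)]
noncomputable def e17_3 : List Rx := [
  Rx.mk (nat_lit 379) (nat_lit 3) (nat_lit 7) (nat_lit 5) (nat_lit 7) (nat_lit 14) (nat_lit 123) r9_14 r3_123 (nat_lit 0) (nat_lit 0) (nat_lit 0) (nat_lit 0x7fce2024c) (nat_lit 541400812)]
noncomputable def e17_4 : List Rx := [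
  Rx.mk (nat_lit 315) (nat_lit 3) (nat_lit 7) (nat_lit 4) (nat_lit 3) (nat_lit 15) (nat_lit 128) r9_15 r4_128 (nat_lit 0) (nat_lit 0) (nat_lit 24741287) (nat_lit 0x8017985b4) (nat_lit 561612199),
  Rx.mk (nat_lit 379) (nat_lit 3) (nat_lit 7) (nat_lit 5) (nat_lit 7) (nat_lit 16) (nat_lit 129) r9_16 r4_129 (nat_lit 0) (nat_lit 0) (nat_lit 0) (nat_lit 0x8017985b4) (nat_lit 536870912),
  Rx.mk (nat_lit 507) (nat_lit 3) (nat_lit 7) (nat_lit 7) (nat_lit 7) (nat_lit 17) (nat_lit 130) r9_17 r4_130 (nat_lit 0) (nat_lit 0) (nat_lit 0) (nat_lit 0x8017985b4) (nat_lit 536870912)]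
noncomputable def e17_5 : List Rx := [
  Rx.mk (nat_lit 379) (nat_lit 3) (nat_lit 7) (nat_lit 5) (nat_lit 7) (nat_lit 18) (nat_lit 123) r9_18 r5_123 (nat_lit 0) (nat_lit 0) (nat_lit 0) (nat_lit 0x8017985b4) (nat_lit 536870912)]
noncomputable def e17_6 : List Rx := [
  Rx.mk (nat_lit 88) (nat_lit 0) (nat_lit 3) (nat_lit 1) (nat_lit 6) (nat_lit 19) (nat_lit 142) r9_19 r3_142 (nat_lit 6950286) (nat_lit 0) (nat_lit 0) (nat_lit 0x6a58027fa) (nat_lit 894620048),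
  Rx.mk (nat_lit 89) (nat_lit 1) (nat_lit 3) (nat_lit 1) (nat_lit 7) (nat_lit 20) (nat_lit 143) r9_20 r3_143 (nat_lit 0) (nat_lit 0) (nat_lit 0) (nat_lit 0x7ffede474) (nat_lit 538398162),
  Rx.mk (nat_lit 91) (nat_lit 3) (nat_lit 3) (nat_lit 1) (nat_lit 7) (nat_lit 22) (nat_lit 144) r9_22 r3_144 (nat_lit 0) (nat_lit 0) (nat_lit 0) (nat_lit 0x7fbe4884c) (nat_lit 542361212),
  Rx.mk (nat_lit 123) (nat_lit 3) (nat_lit 7) (nat_lit 1) (nat_lit 7) (nat_lit 21) (nat_lit 141) r9_21 r3_141 (nat_lit 0) (nat_lit 0) (nat_lit 0) (nat_lit 0x800056a40) (nat_lit 538300112)]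
noncomputable def e17_7 : List Rx := [
  Rx.mk (nat_lit 0) (nat_lit 0) (nat_lit 0) (nat_lit 0) (nat_lit 0) (nat_lit 23) (nat_lit 155) r9_23 r0_155 (nat_lit 17383342) (nat_lit 20103060) (nat_lit 11766479) (nat_lit 0x26bb582ee) (nat_lit 2030296093),
  Rx.mk (nat_lit 2) (nat_lit 2) (nat_lit 0) (nat_lit 0) (nat_lit 1) (nat_lit 29) (nat_lit 158) r9_29 r0_158 (nat_lit 0) (nat_lit 96643738) (nat_lit 19805728) (nat_lit 0x57dc9e896) (nat_lit 1303076978),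
  Rx.mk (nat_lit 24) (nat_lit 0) (nat_lit 3) (nat_lit 0) (nat_lit 2) (nat_lit 25) (nat_lit 161) r9_25 r0_161 (nat_lit 15232789) (nat_lit 0) (nat_lit 15320849) (nat_lit 0x58679699e) (nat_lit 1208372050),
  Rx.mk (nat_lit 26) (nat_lit 2) (nat_lit 3) (nat_lit 0) (nat_lit 3) (nat_lit 33) (nat_lit 167) r9_33 r0_167 (nat_lit 0) (nat_lit 0) (nat_lit 23123952) (nat_lit 0x800002f3a) (nat_lit 561432214),
  Rx.mk (nat_lit 27) (nat_lit 3) (nat_lit 3) (nat_lit 0) (nat_lit 3) (nat_lit 37) (nat_lit 164) r9_37 r0_164 (nat_lit 0) (nat_lit 0) (nat_lit 24266921) (nat_lit 0x771d50316) (nat_lit 705582633),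
  Rx.mk (nat_lit 64) (nat_lit 0) (nat_lit 0) (nat_lit 1) (nat_lit 4) (nat_lit 24) (nat_lit 156) r9_24 r0_156 (nat_lit 21246965) (nat_lit 21454755) (nat_lit 0) (nat_lit 0x536054f6e) (nat_lit 1301860482),
  Rx.mk (nat_lit 65) (nat_lit 1) (nat_lit 0) (nat_lit 1) (nat_lit 5) (nat_lit 27) (nat_lit 157) r9_27 r0_157 (nat_lit 0) (nat_lit 27681734) (nat_lit 0) (nat_lit 0x7735d76f0) (nat_lit 707450746),
  Rx.mk (nat_lit 66) (nat_lit 2) (nat_lit 0) (nat_lit 1) (nat_lit 5) (nat_lit 30) (nat_lit 159) r9_30 r0_159 (nat_lit 0) (nat_lit 39103353) (nat_lit 0) (nat_lit 0x7f0bc5f80) (nat_lit 592509415),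
  Rx.mk (nat_lit 88) (nat_lit 0) (nat_lit 3) (nat_lit 1) (nat_lit 6) (nat_lit 26) (nat_lit 162) r9_26 r0_162 (nat_lit 24075478) (nat_lit 0) (nat_lit 0) (nat_lit 0x769019b32) (nat_lit 714298390),
  Rx.mk (nat_lit 89) (nat_lit 1) (nat_lit 3) (nat_lit 1) (nat_lit 7) (nat_lit 28) (nat_lit 163) r9_28 r0_163 (nat_lit 0) (nat_lit 0) (nat_lit 0) (nat_lit 0x7feb1ffb4) (nat_lit 539592162),
  Rx.mk (nat_lit 90) (nat_lit 2) (nat_lit 3) (nat_lit 1) (nat_lit 7) (nat_lit 34) (nat_lit 168) r9_34 r0_168 (nat_lit 0) (nat_lit 0) (nat_lit 0) (nat_lit 0x8017985b4) (nat_lit 536870912),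
  Rx.mk (nat_lit 91) (nat_lit 3) (nat_lit 3) (nat_lit 1) (nat_lit 7) (nat_lit 38) (nat_lit 165) r9_38 r0_165 (nat_lit 0) (nat_lit 0) (nat_lit 0) (nat_lit 0x7fee77a72) (nat_lit 539388362),
  Rx.mk (nat_lit 130) (nat_lit 2) (nat_lit 0) (nat_lit 2) (nat_lit 5) (nat_lit 31) (nat_lit 160) r9_31 r0_160 (nat_lit 0) (nat_lit 140602240) (nat_lit 0) (nat_lit 0x7cdd650c0) (nat_lit 729034802),
  Rx.mk (nat_lit 146) (nat_lit 2) (nat_lit 2) (nat_lit 2) (nat_lit 7) (nat_lit 32) (nat_lit 170) r9_32 r0_170 (nat_lit 0) (nat_lit 0) (nat_lit 0) (nat_lit 0x7fec37154) (nat_lit 539516912),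
  Rx.mk (nat_lit 154) (nat_lit 2) (nat_lit 3) (nat_lit 2) (nat_lit 7) (nat_lit 35) (nat_lit 169) r9_35 r0_169 (nat_lit 0) (nat_lit 0) (nat_lit 0) (nat_lit 0x8017985b4) (nat_lit 536870912),
  Rx.mk (nat_lit 219) (nat_lit 3) (nat_lit 3) (nat_lit 3) (nat_lit 7) (nat_lit 39) (nat_lit 166) r9_39 r0_166 (nat_lit 0) (nat_lit 0) (nat_lit 0) (nat_lit 0x8002decd6) (nat_lit 538139162),
  Rx.mk (nat_lit 251) (nat_lit 3) (nat_lit 7) (nat_lit 3) (nat_lit 7) (nat_lit 36) (nat_lit 154) r9_36 r0_154 (nat_lit 0) (nat_lit 0) (nat_lit 0) (nat_lit 0x8017985b4) (nat_lit 536870912)]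
noncomputable def e17_8 : List Rx := [
  Rx.mk (nat_lit 0) (nat_lit 0) (nat_lit 0) (nat_lit 0) (nat_lit 0) (nat_lit 40) (nat_lit 170) r9_40 r1_170 (nat_lit 49328540) (nat_lit 56659484) (nat_lit 24261554) (nat_lit 0x3f56488d6) (nat_lit 1713461290),
  Rx.mk (nat_lit 2) (nat_lit 2) (nat_lit 0) (nat_lit 0) (nat_lit 1) (nat_lit 42) (nat_lit 171) r9_42 r1_171 (nat_lit 0) (nat_lit 43212165) (nat_lit 26252196) (nat_lit 0x6d3fdbff2) (nat_lit 910271473),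
  Rx.mk (nat_lit 24) (nat_lit 0) (nat_lit 3) (nat_lit 0) (nat_lit 2) (nat_lit 41) (nat_lit 173) r9_41 r1_173 (nat_lit 32551245) (nat_lit 0) (nat_lit 27290911) (nat_lit 0x6e1360b66) (nat_lit 887289868),
  Rx.mk (nat_lit 26) (nat_lit 2) (nat_lit 3) (nat_lit 0) (nat_lit 3) (nat_lit 45) (nat_lit 176) r9_45 r1_176 (nat_lit 0) (nat_lit 0) (nat_lit 24741287) (nat_lit 0x8017985b4) (nat_lit 561612199),
  Rx.mk (nat_lit 27) (nat_lit 3) (nat_lit 3) (nat_lit 0) (nat_lit 3) (nat_lit 48) (nat_lit 174) r9_48 r1_174 (nat_lit 0) (nat_lit 0) (nat_lit 24741287) (nat_lit 0x8004104a6) (nat_lit 562806149),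
  Rx.mk (nat_lit 130) (nat_lit 2) (nat_lit 0) (nat_lit 2) (nat_lit 5) (nat_lit 43) (nat_lit 172) r9_43 r1_172 (nat_lit 0) (nat_lit 35087009) (nat_lit 0) (nat_lit 0x7eb627b3c) (nat_lit 593834521),
  Rx.mk (nat_lit 146) (nat_lit 2) (nat_lit 2) (nat_lit 2) (nat_lit 7) (nat_lit 44) (nat_lit 178) r9_44 r1_178 (nat_lit 0) (nat_lit 0) (nat_lit 0) (nat_lit 0x7ed9f7242) (nat_lit 556534462),
  Rx.mk (nat_lit 154) (nat_lit 2) (nat_lit 3) (nat_lit 2) (nat_lit 7) (nat_lit 46) (nat_lit 177) r9_46 r1_177 (nat_lit 0) (nat_lit 0) (nat_lit 0) (nat_lit 0x8017985b4) (nat_lit 536870912),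
  Rx.mk (nat_lit 219) (nat_lit 3) (nat_lit 3) (nat_lit 3) (nat_lit 7) (nat_lit 49) (nat_lit 175) r9_49 r1_175 (nat_lit 0) (nat_lit 0) (nat_lit 0) (nat_lit 0x8017985b4) (nat_lit 536870912),
  Rx.mk (nat_lit 251) (nat_lit 3) (nat_lit 7) (nat_lit 3) (nat_lit 7) (nat_lit 47) (nat_lit 169) r9_47 r1_169 (nat_lit 0) (nat_lit 0) (nat_lit 0) (nat_lit 0x8017985b4) (nat_lit 536870912)]
noncomputable def e17_9 : List Rx := [
  Rx.mk (nat_lit 24) (nat_lit 0) (nat_lit 3) (nat_lit 0) (nat_lit 2) (nat_lit 50) (nat_lit 147) r9_50 r4_147 (nat_lit 18784265) (nat_lit 0) (nat_lit 16343874) (nat_lit 0x65a8d64ce) (nat_lit 998625001),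
  Rx.mk (nat_lit 26) (nat_lit 2) (nat_lit 3) (nat_lit 0) (nat_lit 3) (nat_lit 53) (nat_lit 152) r9_53 r4_152 (nat_lit 0) (nat_lit 0) (nat_lit 24741287) (nat_lit 0x8017985b4) (nat_lit 561612199),
  Rx.mk (nat_lit 27) (nat_lit 3) (nat_lit 3) (nat_lit 0) (nat_lit 3) (nat_lit 59) (nat_lit 150) r9_59 r4_150 (nat_lit 0) (nat_lit 0) (nat_lit 24741287) (nat_lit 0x7ff8b06c4) (nat_lit 563504749),
  Rx.mk (nat_lit 59) (nat_lit 3) (nat_lit 7) (nat_lit 0) (nat_lit 3) (nat_lit 56) (nat_lit 144) r9_56 r4_144 (nat_lit 0) (nat_lit 0) (nat_lit 24741287) (nat_lit 0x8017985b4) (nat_lit 561612199),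
  Rx.mk (nat_lit 88) (nat_lit 0) (nat_lit 3) (nat_lit 1) (nat_lit 6) (nat_lit 51) (nat_lit 148) r9_51 r4_148 (nat_lit 24741287) (nat_lit 0) (nat_lit 0) (nat_lit 0x8017985b4) (nat_lit 561612199),
  Rx.mk (nat_lit 89) (nat_lit 1) (nat_lit 3) (nat_lit 1) (nat_lit 7) (nat_lit 52) (nat_lit 149) r9_52 r4_149 (nat_lit 0) (nat_lit 0) (nat_lit 0) (nat_lit 0x8017985b4) (nat_lit 536870912),
  Rx.mk (nat_lit 90) (nat_lit 2) (nat_lit 3) (nat_lit 1) (nat_lit 7) (nat_lit 54) (nat_lit 153) r9_54 r4_153 (nat_lit 0) (nat_lit 0) (nat_lit 0) (nat_lit 0x8017985b4) (nat_lit 536870912),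
  Rx.mk (nat_lit 91) (nat_lit 3) (nat_lit 3) (nat_lit 1) (nat_lit 7) (nat_lit 60) (nat_lit 151) r9_60 r4_151 (nat_lit 0) (nat_lit 0) (nat_lit 0) (nat_lit 0x8017985b4) (nat_lit 536870912),
  Rx.mk (nat_lit 123) (nat_lit 3) (nat_lit 7) (nat_lit 1) (nat_lit 7) (nat_lit 57) (nat_lit 145) r9_57 r4_145 (nat_lit 0) (nat_lit 0) (nat_lit 0) (nat_lit 0x8017985b4) (nat_lit 536870912),
  Rx.mk (nat_lit 154) (nat_lit 2) (nat_lit 3) (nat_lit 2) (nat_lit 7) (nat_lit 55) (nat_lit 154) r9_55 r4_154 (nat_lit 0) (nat_lit 0) (nat_lit 0) (nat_lit 0x8017985b4) (nat_lit 536870912),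
  Rx.mk (nat_lit 251) (nat_lit 3) (nat_lit 7) (nat_lit 3) (nat_lit 7) (nat_lit 58) (nat_lit 146) r9_58 r4_146 (nat_lit 0) (nat_lit 0) (nat_lit 0) (nat_lit 0x8017985b4) (nat_lit 536870912)]
noncomputable def e17_10 : List Rx := [
  Rx.mk (nat_lit 123) (nat_lit 3) (nat_lit 7) (nat_lit 1) (nat_lit 7) (nat_lit 62) (nat_lit 126) r9_62 r6_126 (nat_lit 0) (nat_lit 0) (nat_lit 0) (nat_lit 0x8017985b4) (nat_lit 536870912),
  Rx.mk (nat_lit 379) (nat_lit 3) (nat_lit 7) (nat_lit 5) (nat_lit 7) (nat_lit 61) (nat_lit 127) r9_61 r6_127 (nat_lit 0) (nat_lit 0) (nat_lit 0) (nat_lit 0x8017985b4) (nat_lit 536870912)]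
noncomputable def e17_11 : List Rx := [
  Rx.mk (nat_lit 91) (nat_lit 3) (nat_lit 3) (nat_lit 1) (nat_lit 7) (nat_lit 64) (nat_lit 151) r9_64 r5_151 (nat_lit 0) (nat_lit 0) (nat_lit 0) (nat_lit 0x7ffc47724) (nat_lit 538543512),
  Rx.mk (nat_lit 123) (nat_lit 3) (nat_lit 7) (nat_lit 1) (nat_lit 7) (nat_lit 63) (nat_lit 150) r9_63 r5_150 (nat_lit 0) (nat_lit 0) (nat_lit 0) (nat_lit 0x8017985b4) (nat_lit 536870912)]
noncomputable def e17_12 : List Rx := [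
  Rx.mk (nat_lit 356) (nat_lit 4) (nat_lit 4) (nat_lit 5) (nat_lit 4) (nat_lit 65) (nat_lit 262) r9_65 r0_262 (nat_lit 35271211) (nat_lit 111519439) (nat_lit 0) (nat_lit 0x580e92528) (nat_lit 1330276712),
  Rx.mk (nat_lit 359) (nat_lit 7) (nat_lit 4) (nat_lit 5) (nat_lit 5) (nat_lit 66) (nat_lit 263) r9_66 r0_263 (nat_lit 0) (nat_lit 42181634) (nat_lit 0) (nat_lit 0x7bc61b1a4) (nat_lit 648220246),
  Rx.mk (nat_lit 383) (nat_lit 7) (nat_lit 7) (nat_lit 5) (nat_lit 7) (nat_lit 67) (nat_lit 264) r9_67 r0_264 (nat_lit 0) (nat_lit 0) (nat_lit 0) (nat_lit 0x7fcef5a96) (nat_lit 541322112)]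
noncomputable def e17_13 : List Rx := [
  Rx.mk (nat_lit 292) (nat_lit 4) (nat_lit 4) (nat_lit 4) (nat_lit 0) (nat_lit 68) (nat_lit 161) r9_68 r7_161 (nat_lit 12174851) (nat_lit 53728367) (nat_lit 12221267) (nat_lit 0x38c2f41c6) (nat_lit 1767626247),
  Rx.mk (nat_lit 295) (nat_lit 7) (nat_lit 4) (nat_lit 4) (nat_lit 1) (nat_lit 74) (nat_lit 166) r9_74 r7_166 (nat_lit 0) (nat_lit 24913710) (nat_lit 27374180) (nat_lit 0x629c47274) (nat_lit 1065121602),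
  Rx.mk (nat_lit 308) (nat_lit 4) (nat_lit 6) (nat_lit 4) (nat_lit 2) (nat_lit 70) (nat_lit 163) r9_70 r7_163 (nat_lit 23888514) (nat_lit 0) (nat_lit 25388524) (nat_lit 0x66b5a08de) (nat_lit 995832150),
  Rx.mk (nat_lit 311) (nat_lit 7) (nat_lit 6) (nat_lit 4) (nat_lit 3) (nat_lit 76) (nat_lit 171) r9_76 r7_171 (nat_lit 0) (nat_lit 0) (nat_lit 24741287) (nat_lit 0x80064b5b8) (nat_lit 562671499),
  Rx.mk (nat_lit 319) (nat_lit 7) (nat_lit 7) (nat_lit 4) (nat_lit 3) (nat_lit 79) (nat_lit 168) r9_79 r7_168 (nat_lit 0) (nat_lit 0) (nat_lit 24741287) (nat_lit 0x7fe3cd14e) (nat_lit 564781099),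
  Rx.mk (nat_lit 356) (nat_lit 4) (nat_lit 4) (nat_lit 5) (nat_lit 4) (nat_lit 69) (nat_lit 162) r9_69 r7_162 (nat_lit 28898569) (nat_lit 49319051) (nat_lit 0) (nat_lit 0x6539461d6) (nat_lit 1048798182),
  Rx.mk (nat_lit 359) (nat_lit 7) (nat_lit 4) (nat_lit 5) (nat_lit 5) (nat_lit 75) (nat_lit 167) r9_75 r7_167 (nat_lit 0) (nat_lit 24624079) (nat_lit 0) (nat_lit 0x8009fe8fe) (nat_lit 562326791),
  Rx.mk (nat_lit 372) (nat_lit 4) (nat_lit 6) (nat_lit 5) (nat_lit 6) (nat_lit 71) (nat_lit 164) r9_71 r7_164 (nat_lit 24741287) (nat_lit 0) (nat_lit 0) (nat_lit 0x7fff7117a) (nat_lit 563091449),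
  Rx.mk (nat_lit 375) (nat_lit 7) (nat_lit 6) (nat_lit 5) (nat_lit 7) (nat_lit 77) (nat_lit 172) r9_77 r7_172 (nat_lit 0) (nat_lit 0) (nat_lit 0) (nat_lit 0x8017985b4) (nat_lit 536870912),
  Rx.mk (nat_lit 383) (nat_lit 7) (nat_lit 7) (nat_lit 5) (nat_lit 7) (nat_lit 80) (nat_lit 169) r9_80 r7_169 (nat_lit 0) (nat_lit 0) (nat_lit 0) (nat_lit 0x8017985b4) (nat_lit 536870912),
  Rx.mk (nat_lit 436) (nat_lit 4) (nat_lit 6) (nat_lit 6) (nat_lit 6) (nat_lit 72) (nat_lit 165) r9_72 r7_165 (nat_lit 24741287) (nat_lit 0) (nat_lit 0) (nat_lit 0x800788c14) (nat_lit 562595399),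
  Rx.mk (nat_lit 438) (nat_lit 6) (nat_lit 6) (nat_lit 6) (nat_lit 7) (nat_lit 73) (nat_lit 174) r9_73 r7_174 (nat_lit 0) (nat_lit 0) (nat_lit 0) (nat_lit 0x8017985b4) (nat_lit 536870912),
  Rx.mk (nat_lit 439) (nat_lit 7) (nat_lit 6) (nat_lit 6) (nat_lit 7) (nat_lit 78) (nat_lit 173) r9_78 r7_173 (nat_lit 0) (nat_lit 0) (nat_lit 0) (nat_lit 0x8017985b4) (nat_lit 536870912),
  Rx.mk (nat_lit 507) (nat_lit 3) (nat_lit 7) (nat_lit 7) (nat_lit 7) (nat_lit 82) (nat_lit 160) r9_82 r7_160 (nat_lit 0) (nat_lit 0) (nat_lit 0) (nat_lit 0x8017985b4) (nat_lit 536870912),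
  Rx.mk (nat_lit 511) (nat_lit 7) (nat_lit 7) (nat_lit 7) (nat_lit 7) (nat_lit 81) (nat_lit 170) r9_81 r7_170 (nat_lit 0) (nat_lit 0) (nat_lit 0) (nat_lit 0x8017985b4) (nat_lit 536870912)]
noncomputable def e17_14 : List Rx := [
  Rx.mk (nat_lit 356) (nat_lit 4) (nat_lit 4) (nat_lit 5) (nat_lit 4) (nat_lit 83) (nat_lit 269) r9_83 r1_269 (nat_lit 34355931) (nat_lit 134396714) (nat_lit 0) (nat_lit 0x734bda226) (nat_lit 911788807),
  Rx.mk (nat_lit 359) (nat_lit 7) (nat_lit 4) (nat_lit 5) (nat_lit 5) (nat_lit 84) (nat_lit 270) r9_84 r1_270 (nat_lit 0) (nat_lit 24741287) (nat_lit 0) (nat_lit 0x8008f717c) (nat_lit 562505199),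
  Rx.mk (nat_lit 383) (nat_lit 7) (nat_lit 7) (nat_lit 5) (nat_lit 7) (nat_lit 85) (nat_lit 271) r9_85 r1_271 (nat_lit 0) (nat_lit 0) (nat_lit 0) (nat_lit 0x8017985b4) (nat_lit 536870912)]
noncomputable def e17_15 : List Rx := [
  Rx.mk (nat_lit 292) (nat_lit 4) (nat_lit 4) (nat_lit 4) (nat_lit 0) (nat_lit 86) (nat_lit 133) r9_86 r8_133 (nat_lit 17870946) (nat_lit 94967087) (nat_lit 18637644) (nat_lit 0x4127ec576) (nat_lit 1685261939),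
  Rx.mk (nat_lit 295) (nat_lit 7) (nat_lit 4) (nat_lit 4) (nat_lit 1) (nat_lit 92) (nat_lit 138) r9_92 r8_138 (nat_lit 0) (nat_lit 23390390) (nat_lit 35165148) (nat_lit 0x65db9d3f8) (nat_lit 1018879500),
  Rx.mk (nat_lit 308) (nat_lit 4) (nat_lit 6) (nat_lit 4) (nat_lit 2) (nat_lit 88) (nat_lit 135) r9_88 r8_135 (nat_lit 24700278) (nat_lit 0) (nat_lit 29365924) (nat_lit 0x6a57b692c) (nat_lit 941876114),
  Rx.mk (nat_lit 311) (nat_lit 7) (nat_lit 6) (nat_lit 4) (nat_lit 3) (nat_lit 94) (nat_lit 143) r9_94 r8_143 (nat_lit 0) (nat_lit 0) (nat_lit 24489661) (nat_lit 0x7ffa8f6de) (nat_lit 563135273),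
  Rx.mk (nat_lit 319) (nat_lit 7) (nat_lit 7) (nat_lit 4) (nat_lit 3) (nat_lit 96) (nat_lit 140) r9_96 r8_140 (nat_lit 0) (nat_lit 0) (nat_lit 24741287) (nat_lit 0x8017985b4) (nat_lit 561612199),
  Rx.mk (nat_lit 356) (nat_lit 4) (nat_lit 4) (nat_lit 5) (nat_lit 4) (nat_lit 87) (nat_lit 134) r9_87 r8_134 (nat_lit 26394436) (nat_lit 82173125) (nat_lit 0) (nat_lit 0x6a21a438e) (nat_lit 999789173),
  Rx.mk (nat_lit 359) (nat_lit 7) (nat_lit 4) (nat_lit 5) (nat_lit 5) (nat_lit 93) (nat_lit 139) r9_93 r8_139 (nat_lit 0) (nat_lit 24741287) (nat_lit 0) (nat_lit 0x8017985b4) (nat_lit 561612199),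
  Rx.mk (nat_lit 372) (nat_lit 4) (nat_lit 6) (nat_lit 5) (nat_lit 6) (nat_lit 89) (nat_lit 136) r9_89 r8_136 (nat_lit 24741287) (nat_lit 0) (nat_lit 0) (nat_lit 0x8017985b4) (nat_lit 561612199),
  Rx.mk (nat_lit 375) (nat_lit 7) (nat_lit 6) (nat_lit 5) (nat_lit 7) (nat_lit 95) (nat_lit 144) r9_95 r8_144 (nat_lit 0) (nat_lit 0) (nat_lit 0) (nat_lit 0x8017985b4) (nat_lit 536870912),
  Rx.mk (nat_lit 383) (nat_lit 7) (nat_lit 7) (nat_lit 5) (nat_lit 7) (nat_lit 97) (nat_lit 141) r9_97 r8_141 (nat_lit 0) (nat_lit 0) (nat_lit 0) (nat_lit 0x8017985b4) (nat_lit 536870912),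
  Rx.mk (nat_lit 436) (nat_lit 4) (nat_lit 6) (nat_lit 6) (nat_lit 6) (nat_lit 90) (nat_lit 137) r9_90 r8_137 (nat_lit 24741287) (nat_lit 0) (nat_lit 0) (nat_lit 0x7fffb92e0) (nat_lit 563069249),
  Rx.mk (nat_lit 438) (nat_lit 6) (nat_lit 6) (nat_lit 6) (nat_lit 7) (nat_lit 91) (nat_lit 145) r9_91 r8_145 (nat_lit 0) (nat_lit 0) (nat_lit 0) (nat_lit 0x8017985b4) (nat_lit 536870912),
  Rx.mk (nat_lit 511) (nat_lit 7) (nat_lit 7) (nat_lit 7) (nat_lit 7) (nat_lit 98) (nat_lit 142) r9_98 r8_142 (nat_lit 0) (nat_lit 0) (nat_lit 0) (nat_lit 0x8017985b4) (nat_lit 536870912)]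
noncomputable def e17_16 : List Rx := [
  Rx.mk (nat_lit 292) (nat_lit 4) (nat_lit 4) (nat_lit 4) (nat_lit 0) (nat_lit 99) (nat_lit 273) r9_99 r8_273 (nat_lit 18790511) (nat_lit 46447449) (nat_lit 15284300) (nat_lit 0x3cee725c4) (nat_lit 1702614672),
  Rx.mk (nat_lit 295) (nat_lit 7) (nat_lit 4) (nat_lit 4) (nat_lit 1) (nat_lit 103) (nat_lit 274) r9_103 r8_274 (nat_lit 0) (nat_lit 23607638) (nat_lit 24950323) (nat_lit 0x64fca11c2) (nat_lit 1022966473),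
  Rx.mk (nat_lit 308) (nat_lit 4) (nat_lit 6) (nat_lit 4) (nat_lit 2) (nat_lit 100) (nat_lit 276) r9_100 r8_276 (nat_lit 23999425) (nat_lit 0) (nat_lit 26650245) (nat_lit 0x66dd7892e) (nat_lit 994688732),
  Rx.mk (nat_lit 311) (nat_lit 7) (nat_lit 6) (nat_lit 4) (nat_lit 3) (nat_lit 104) (nat_lit 277) r9_104 r8_277 (nat_lit 0) (nat_lit 0) (nat_lit 24488988) (nat_lit 0x7ff6155ae) (nat_lit 563408300),
  Rx.mk (nat_lit 319) (nat_lit 7) (nat_lit 7) (nat_lit 4) (nat_lit 3) (nat_lit 106) (nat_lit 275) r9_106 r8_275 (nat_lit 0) (nat_lit 0) (nat_lit 24741287) (nat_lit 0x800b35984) (nat_lit 562371349),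
  Rx.mk (nat_lit 436) (nat_lit 4) (nat_lit 6) (nat_lit 6) (nat_lit 6) (nat_lit 101) (nat_lit 280) r9_101 r8_280 (nat_lit 24741287) (nat_lit 0) (nat_lit 0) (nat_lit 0x7ff1b40e6) (nat_lit 563929249),
  Rx.mk (nat_lit 438) (nat_lit 6) (nat_lit 6) (nat_lit 6) (nat_lit 7) (nat_lit 102) (nat_lit 282) r9_102 r8_282 (nat_lit 0) (nat_lit 0) (nat_lit 0) (nat_lit 0x8017985b4) (nat_lit 536870912),
  Rx.mk (nat_lit 439) (nat_lit 7) (nat_lit 6) (nat_lit 6) (nat_lit 7) (nat_lit 105) (nat_lit 281) r9_105 r8_281 (nat_lit 0) (nat_lit 0) (nat_lit 0) (nat_lit 0x8017985b4) (nat_lit 536870912),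
  Rx.mk (nat_lit 507) (nat_lit 3) (nat_lit 7) (nat_lit 7) (nat_lit 7) (nat_lit 108) (nat_lit 279) r9_108 r8_279 (nat_lit 0) (nat_lit 0) (nat_lit 0) (nat_lit 0x8017985b4) (nat_lit 536870912),
  Rx.mk (nat_lit 511) (nat_lit 7) (nat_lit 7) (nat_lit 7) (nat_lit 7) (nat_lit 107) (nat_lit 278) r9_107 r8_278 (nat_lit 0) (nat_lit 0) (nat_lit 0) (nat_lit 0x8017985b4) (nat_lit 536870912)]
noncomputable def e17_17 : List Rx := [
  Rx.mk (nat_lit 0) (nat_lit 0) (nat_lit 0) (nat_lit 0) (nat_lit 0) (nat_lit 121) (nat_lit 109) r9_121 r9_109 (nat_lit 22961591) (nat_lit 36523476) (nat_lit 21797302) (nat_lit 0x3ad62b83c) (nat_lit 1737278231),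
  Rx.mk (nat_lit 2) (nat_lit 2) (nat_lit 0) (nat_lit 0) (nat_lit 1) (nat_lit 124) (nat_lit 115) r9_124 r9_115 (nat_lit 0) (nat_lit 21805176) (nat_lit 21788749) (nat_lit 0x60e0b917a) (nat_lit 1084441637),
  Rx.mk (nat_lit 24) (nat_lit 0) (nat_lit 3) (nat_lit 0) (nat_lit 2) (nat_lit 122) (nat_lit 110) r9_122 r9_110 (nat_lit 18882716) (nat_lit 0) (nat_lit 24030520) (nat_lit 0x619393b74) (nat_lit 1072465598),
  Rx.mk (nat_lit 26) (nat_lit 2) (nat_lit 3) (nat_lit 0) (nat_lit 3) (nat_lit 127) (nat_lit 117) r9_127 r9_117 (nat_lit 0) (nat_lit 0) (nat_lit 24741287) (nat_lit 0x7f6b2ca1e) (nat_lit 572209049),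
  Rx.mk (nat_lit 130) (nat_lit 2) (nat_lit 0) (nat_lit 2) (nat_lit 5) (nat_lit 125) (nat_lit 116) r9_125 r9_116 (nat_lit 0) (nat_lit 22977602) (nat_lit 0) (nat_lit 0x7edbd4c9a) (nat_lit 579368164),
  Rx.mk (nat_lit 146) (nat_lit 2) (nat_lit 2) (nat_lit 2) (nat_lit 7) (nat_lit 126) (nat_lit 120) r9_126 r9_120 (nat_lit 0) (nat_lit 0) (nat_lit 0) (nat_lit 0x8017985b4) (nat_lit 536870912),
  Rx.mk (nat_lit 150) (nat_lit 6) (nat_lit 2) (nat_lit 2) (nat_lit 7) (nat_lit 114) (nat_lit 130) r9_114 r9_130 (nat_lit 0) (nat_lit 0) (nat_lit 0) (nat_lit 0x8017985b4) (nat_lit 536870912),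
  Rx.mk (nat_lit 154) (nat_lit 2) (nat_lit 3) (nat_lit 2) (nat_lit 7) (nat_lit 128) (nat_lit 119) r9_128 r9_119 (nat_lit 0) (nat_lit 0) (nat_lit 0) (nat_lit 0x8017985b4) (nat_lit 536870912),
  Rx.mk (nat_lit 216) (nat_lit 0) (nat_lit 3) (nat_lit 3) (nat_lit 6) (nat_lit 123) (nat_lit 111) r9_123 r9_111 (nat_lit 21899928) (nat_lit 0) (nat_lit 0) (nat_lit 0x7e32c5136) (nat_lit 588892740),
  Rx.mk (nat_lit 218) (nat_lit 2) (nat_lit 3) (nat_lit 3) (nat_lit 7) (nat_lit 129) (nat_lit 118) r9_129 r9_118 (nat_lit 0) (nat_lit 0) (nat_lit 0) (nat_lit 0x8017985b4) (nat_lit 536870912),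
  Rx.mk (nat_lit 219) (nat_lit 3) (nat_lit 3) (nat_lit 3) (nat_lit 7) (nat_lit 132) (nat_lit 112) r9_132 r9_112 (nat_lit 0) (nat_lit 0) (nat_lit 0) (nat_lit 0x8017985b4) (nat_lit 536870912),
  Rx.mk (nat_lit 251) (nat_lit 3) (nat_lit 7) (nat_lit 3) (nat_lit 7) (nat_lit 131) (nat_lit 113) r9_131 r9_113 (nat_lit 0) (nat_lit 0) (nat_lit 0) (nat_lit 0x8017985b4) (nat_lit 536870912),
  Rx.mk (nat_lit 292) (nat_lit 4) (nat_lit 4) (nat_lit 4) (nat_lit 0) (nat_lit 109) (nat_lit 121) r9_109 r9_121 (nat_lit 22961591) (nat_lit 36523476) (nat_lit 21797302) (nat_lit 0x3ad62b83c) (nat_lit 1737278231),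
  Rx.mk (nat_lit 295) (nat_lit 7) (nat_lit 4) (nat_lit 4) (nat_lit 1) (nat_lit 115) (nat_lit 124) r9_115 r9_124 (nat_lit 0) (nat_lit 21805176) (nat_lit 21788749) (nat_lit 0x60e0b917a) (nat_lit 1084441637),
  Rx.mk (nat_lit 308) (nat_lit 4) (nat_lit 6) (nat_lit 4) (nat_lit 2) (nat_lit 110) (nat_lit 122) r9_110 r9_122 (nat_lit 18882716) (nat_lit 0) (nat_lit 24030520) (nat_lit 0x619393b74) (nat_lit 1072465598),
  Rx.mk (nat_lit 311) (nat_lit 7) (nat_lit 6) (nat_lit 4) (nat_lit 3) (nat_lit 117) (nat_lit 127) r9_117 r9_127 (nat_lit 0) (nat_lit 0) (nat_lit 24741287) (nat_lit 0x7f6b2ca1e) (nat_lit 572209049),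
  Rx.mk (nat_lit 406) (nat_lit 6) (nat_lit 2) (nat_lit 6) (nat_lit 7) (nat_lit 113) (nat_lit 131) r9_113 r9_131 (nat_lit 0) (nat_lit 0) (nat_lit 0) (nat_lit 0x8017985b4) (nat_lit 536870912),
  Rx.mk (nat_lit 436) (nat_lit 4) (nat_lit 6) (nat_lit 6) (nat_lit 6) (nat_lit 111) (nat_lit 123) r9_111 r9_123 (nat_lit 21899928) (nat_lit 0) (nat_lit 0) (nat_lit 0x7e32c5136) (nat_lit 588892740),
  Rx.mk (nat_lit 438) (nat_lit 6) (nat_lit 6) (nat_lit 6) (nat_lit 7) (nat_lit 112) (nat_lit 132) r9_112 r9_132 (nat_lit 0) (nat_lit 0) (nat_lit 0) (nat_lit 0x8017985b4) (nat_lit 536870912),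
  Rx.mk (nat_lit 439) (nat_lit 7) (nat_lit 6) (nat_lit 6) (nat_lit 7) (nat_lit 118) (nat_lit 129) r9_118 r9_129 (nat_lit 0) (nat_lit 0) (nat_lit 0) (nat_lit 0x8017985b4) (nat_lit 536870912),
  Rx.mk (nat_lit 487) (nat_lit 7) (nat_lit 4) (nat_lit 7) (nat_lit 5) (nat_lit 116) (nat_lit 125) r9_116 r9_125 (nat_lit 0) (nat_lit 22977602) (nat_lit 0) (nat_lit 0x7edbd4c9a) (nat_lit 579368164),
  Rx.mk (nat_lit 503) (nat_lit 7) (nat_lit 6) (nat_lit 7) (nat_lit 7) (nat_lit 119) (nat_lit 128) r9_119 r9_128 (nat_lit 0) (nat_lit 0) (nat_lit 0) (nat_lit 0x8017985b4) (nat_lit 536870912),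
  Rx.mk (nat_lit 507) (nat_lit 3) (nat_lit 7) (nat_lit 7) (nat_lit 7) (nat_lit 130) (nat_lit 114) r9_130 r9_114 (nat_lit 0) (nat_lit 0) (nat_lit 0) (nat_lit 0x8017985b4) (nat_lit 536870912),
  Rx.mk (nat_lit 511) (nat_lit 7) (nat_lit 7) (nat_lit 7) (nat_lit 7) (nat_lit 120) (nat_lit 126) r9_120 r9_126 (nat_lit 0) (nat_lit 0) (nat_lit 0) (nat_lit 0x8017985b4) (nat_lit 536870912)]
noncomputable def e17_18 : List Rx := [
  Rx.mk (nat_lit 359) (nat_lit 7) (nat_lit 4) (nat_lit 5) (nat_lit 5) (nat_lit 133) (nat_lit 276) r9_133 r4_276 (nat_lit 0) (nat_lit 24741287) (nat_lit 0) (nat_lit 0x80035e648) (nat_lit 562847599),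
  Rx.mk (nat_lit 379) (nat_lit 3) (nat_lit 7) (nat_lit 5) (nat_lit 7) (nat_lit 135) (nat_lit 278) r9_135 r4_278 (nat_lit 0) (nat_lit 0) (nat_lit 0) (nat_lit 0x8017985b4) (nat_lit 536870912),
  Rx.mk (nat_lit 383) (nat_lit 7) (nat_lit 7) (nat_lit 5) (nat_lit 7) (nat_lit 134) (nat_lit 277) r9_134 r4_277 (nat_lit 0) (nat_lit 0) (nat_lit 0) (nat_lit 0x8017985b4) (nat_lit 536870912)]
noncomputable def e17_19 : List Rx := [
  Rx.mk (nat_lit 295) (nat_lit 7) (nat_lit 4) (nat_lit 4) (nat_lit 1) (nat_lit 136) (nat_lit 120) r9_136 r10_120 (nat_lit 0) (nat_lit 28731315) (nat_lit 40997444) (nat_lit 0x62fe769f4) (nat_lit 1076357921),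
  Rx.mk (nat_lit 311) (nat_lit 7) (nat_lit 6) (nat_lit 4) (nat_lit 3) (nat_lit 138) (nat_lit 124) r9_138 r10_124 (nat_lit 0) (nat_lit 0) (nat_lit 25252468) (nat_lit 0x7fd0be0b2) (nat_lit 566460430),
  Rx.mk (nat_lit 315) (nat_lit 3) (nat_lit 7) (nat_lit 4) (nat_lit 3) (nat_lit 143) (nat_lit 117) r9_143 r10_117 (nat_lit 0) (nat_lit 0) (nat_lit 24741287) (nat_lit 0x7fffebc7c) (nat_lit 563058399),
  Rx.mk (nat_lit 319) (nat_lit 7) (nat_lit 7) (nat_lit 4) (nat_lit 3) (nat_lit 141) (nat_lit 122) r9_141 r10_122 (nat_lit 0) (nat_lit 0) (nat_lit 24741287) (nat_lit 0x7fcd6a76c) (nat_lit 566141199),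
  Rx.mk (nat_lit 359) (nat_lit 7) (nat_lit 4) (nat_lit 5) (nat_lit 5) (nat_lit 137) (nat_lit 121) r9_137 r10_121 (nat_lit 0) (nat_lit 24741287) (nat_lit 0) (nat_lit 0x8017985b4) (nat_lit 561612199),
  Rx.mk (nat_lit 375) (nat_lit 7) (nat_lit 6) (nat_lit 5) (nat_lit 7) (nat_lit 139) (nat_lit 125) r9_139 r10_125 (nat_lit 0) (nat_lit 0) (nat_lit 0) (nat_lit 0x8017985b4) (nat_lit 536870912),
  Rx.mk (nat_lit 379) (nat_lit 3) (nat_lit 7) (nat_lit 5) (nat_lit 7) (nat_lit 144) (nat_lit 118) r9_144 r10_118 (nat_lit 0) (nat_lit 0) (nat_lit 0) (nat_lit 0x8017985b4) (nat_lit 536870912),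
  Rx.mk (nat_lit 383) (nat_lit 7) (nat_lit 7) (nat_lit 5) (nat_lit 7) (nat_lit 142) (nat_lit 123) r9_142 r10_123 (nat_lit 0) (nat_lit 0) (nat_lit 0) (nat_lit 0x8017985b4) (nat_lit 536870912),
  Rx.mk (nat_lit 439) (nat_lit 7) (nat_lit 6) (nat_lit 6) (nat_lit 7) (nat_lit 140) (nat_lit 126) r9_140 r10_126 (nat_lit 0) (nat_lit 0) (nat_lit 0) (nat_lit 0x8017985b4) (nat_lit 536870912),
  Rx.mk (nat_lit 507) (nat_lit 3) (nat_lit 7) (nat_lit 7) (nat_lit 7) (nat_lit 145) (nat_lit 119) r9_145 r10_119 (nat_lit 0) (nat_lit 0) (nat_lit 0) (nat_lit 0x8017985b4) (nat_lit 536870912)]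
noncomputable def e17_20 : List Rx := [
  Rx.mk (nat_lit 379) (nat_lit 3) (nat_lit 7) (nat_lit 5) (nat_lit 7) (nat_lit 147) (nat_lit 123) r9_147 r11_123 (nat_lit 0) (nat_lit 0) (nat_lit 0) (nat_lit 0x8017985b4) (nat_lit 536870912),
  Rx.mk (nat_lit 383) (nat_lit 7) (nat_lit 7) (nat_lit 5) (nat_lit 7) (nat_lit 146) (nat_lit 124) r9_146 r11_124 (nat_lit 0) (nat_lit 0) (nat_lit 0) (nat_lit 0x8017985b4) (nat_lit 536870912)]
noncomputable def e17_21 : List Rx := [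
  Rx.mk (nat_lit 0) (nat_lit 0) (nat_lit 0) (nat_lit 0) (nat_lit 0) (nat_lit 148) (nat_lit 148) r9_148 r9_148 (nat_lit 26184378) (nat_lit 26184378) (nat_lit 17958918) (nat_lit 0x4289fca08) (nat_lit 1601756836),
  Rx.mk (nat_lit 2) (nat_lit 2) (nat_lit 0) (nat_lit 0) (nat_lit 1) (nat_lit 151) (nat_lit 149) r9_151 r9_149 (nat_lit 0) (nat_lit 24357688) (nat_lit 25198067) (nat_lit 0x695294076) (nat_lit 953855717),
  Rx.mk (nat_lit 24) (nat_lit 0) (nat_lit 3) (nat_lit 0) (nat_lit 2) (nat_lit 149) (nat_lit 151) r9_149 r9_151 (nat_lit 24357688) (nat_lit 0) (nat_lit 25198067) (nat_lit 0x695294076) (nat_lit 953855717),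
  Rx.mk (nat_lit 130) (nat_lit 2) (nat_lit 0) (nat_lit 2) (nat_lit 5) (nat_lit 152) (nat_lit 150) r9_152 r9_150 (nat_lit 0) (nat_lit 24501470) (nat_lit 0) (nat_lit 0x7fbf237c6) (nat_lit 566776782),
  Rx.mk (nat_lit 146) (nat_lit 2) (nat_lit 2) (nat_lit 2) (nat_lit 7) (nat_lit 153) (nat_lit 154) r9_153 r9_154 (nat_lit 0) (nat_lit 0) (nat_lit 0) (nat_lit 0x8017985b4) (nat_lit 536870912),
  Rx.mk (nat_lit 216) (nat_lit 0) (nat_lit 3) (nat_lit 3) (nat_lit 6) (nat_lit 150) (nat_lit 152) r9_150 r9_152 (nat_lit 24501470) (nat_lit 0) (nat_lit 0) (nat_lit 0x7fbf237c6) (nat_lit 566776782),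
  Rx.mk (nat_lit 219) (nat_lit 3) (nat_lit 3) (nat_lit 3) (nat_lit 7) (nat_lit 154) (nat_lit 153) r9_154 r9_153 (nat_lit 0) (nat_lit 0) (nat_lit 0) (nat_lit 0x8017985b4) (nat_lit 536870912)]
noncomputable def e17_22 : List Rx := [
  Rx.mk (nat_lit 64) (nat_lit 0) (nat_lit 0) (nat_lit 1) (nat_lit 4) (nat_lit 155) (nat_lit 257) r9_155 r0_257 (nat_lit 41159980) (nat_lit 49590700) (nat_lit 0) (nat_lit 0x50d4cab80) (nat_lit 1391082492),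
  Rx.mk (nat_lit 65) (nat_lit 1) (nat_lit 0) (nat_lit 1) (nat_lit 5) (nat_lit 157) (nat_lit 259) r9_157 r0_259 (nat_lit 0) (nat_lit 28301978) (nat_lit 0) (nat_lit 0x71f06598c) (nat_lit 793284240),
  Rx.mk (nat_lit 88) (nat_lit 0) (nat_lit 3) (nat_lit 1) (nat_lit 6) (nat_lit 156) (nat_lit 258) r9_156 r0_258 (nat_lit 30127539) (nat_lit 0) (nat_lit 0) (nat_lit 0x7a85fc8e4) (nat_lit 656361051),
  Rx.mk (nat_lit 89) (nat_lit 1) (nat_lit 3) (nat_lit 1) (nat_lit 7) (nat_lit 158) (nat_lit 260) r9_158 r0_260 (nat_lit 0) (nat_lit 0) (nat_lit 0) (nat_lit 0x7fffa9a3e) (nat_lit 538336962),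
  Rx.mk (nat_lit 91) (nat_lit 3) (nat_lit 3) (nat_lit 1) (nat_lit 7) (nat_lit 159) (nat_lit 261) r9_159 r0_261 (nat_lit 0) (nat_lit 0) (nat_lit 0) (nat_lit 0x800dc4ccc) (nat_lit 537471612)]
noncomputable def e17_23 : List Rx := [
  Rx.mk (nat_lit 64) (nat_lit 0) (nat_lit 0) (nat_lit 1) (nat_lit 4) (nat_lit 160) (nat_lit 262) r9_160 r1_262 (nat_lit 38504019) (nat_lit 68973086) (nat_lit 0) (nat_lit 0x645605570) (nat_lit 1092404867),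
  Rx.mk (nat_lit 65) (nat_lit 1) (nat_lit 0) (nat_lit 1) (nat_lit 5) (nat_lit 163) (nat_lit 265) r9_163 r1_265 (nat_lit 0) (nat_lit 24741287) (nat_lit 0) (nat_lit 0x8017985b4) (nat_lit 561612199),
  Rx.mk (nat_lit 72) (nat_lit 0) (nat_lit 1) (nat_lit 1) (nat_lit 6) (nat_lit 161) (nat_lit 263) r9_161 r1_263 (nat_lit 24741287) (nat_lit 0) (nat_lit 0) (nat_lit 0x8004fdb2a) (nat_lit 562749199),
  Rx.mk (nat_lit 73) (nat_lit 1) (nat_lit 1) (nat_lit 1) (nat_lit 7) (nat_lit 164) (nat_lit 266) r9_164 r1_266 (nat_lit 0) (nat_lit 0) (nat_lit 0) (nat_lit 0x8017985b4) (nat_lit 536870912),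
  Rx.mk (nat_lit 88) (nat_lit 0) (nat_lit 3) (nat_lit 1) (nat_lit 6) (nat_lit 162) (nat_lit 264) r9_162 r1_264 (nat_lit 24741287) (nat_lit 0) (nat_lit 0) (nat_lit 0x8017985b4) (nat_lit 561612199),
  Rx.mk (nat_lit 89) (nat_lit 1) (nat_lit 3) (nat_lit 1) (nat_lit 7) (nat_lit 165) (nat_lit 267) r9_165 r1_267 (nat_lit 0) (nat_lit 0) (nat_lit 0) (nat_lit 0x8017985b4) (nat_lit 536870912),
  Rx.mk (nat_lit 91) (nat_lit 3) (nat_lit 3) (nat_lit 1) (nat_lit 7) (nat_lit 166) (nat_lit 268) r9_166 r1_268 (nat_lit 0) (nat_lit 0) (nat_lit 0) (nat_lit 0x8017985b4) (nat_lit 536870912)]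
noncomputable def e17_24 : List Rx := [
  Rx.mk (nat_lit 88) (nat_lit 0) (nat_lit 3) (nat_lit 1) (nat_lit 6) (nat_lit 167) (nat_lit 273) r9_167 r4_273 (nat_lit 24741287) (nat_lit 0) (nat_lit 0) (nat_lit 0x7fff3afc6) (nat_lit 563104399),
  Rx.mk (nat_lit 89) (nat_lit 1) (nat_lit 3) (nat_lit 1) (nat_lit 7) (nat_lit 168) (nat_lit 274) r9_168 r4_274 (nat_lit 0) (nat_lit 0) (nat_lit 0) (nat_lit 0x8017985b4) (nat_lit 536870912),
  Rx.mk (nat_lit 91) (nat_lit 3) (nat_lit 3) (nat_lit 1) (nat_lit 7) (nat_lit 169) (nat_lit 275) r9_169 r4_275 (nat_lit 0) (nat_lit 0) (nat_lit 0) (nat_lit 0x8017985b4) (nat_lit 536870912)]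
noncomputable def e17_25 : List Rx := [
  Rx.mk (nat_lit 0) (nat_lit 0) (nat_lit 0) (nat_lit 0) (nat_lit 0) (nat_lit 170) (nat_lit 204) r9_170 r7_204 (nat_lit 25638298) (nat_lit 19525038) (nat_lit 13837945) (nat_lit 0x3a3a221ac) (nat_lit 1724813643),
  Rx.mk (nat_lit 2) (nat_lit 2) (nat_lit 0) (nat_lit 0) (nat_lit 1) (nat_lit 176) (nat_lit 207) r9_176 r7_207 (nat_lit 0) (nat_lit 22236043) (nat_lit 30412328) (nat_lit 0x6db23206a) (nat_lit 886234833),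
  Rx.mk (nat_lit 24) (nat_lit 0) (nat_lit 3) (nat_lit 0) (nat_lit 2) (nat_lit 172) (nat_lit 210) r9_172 r7_210 (nat_lit 30361877) (nat_lit 0) (nat_lit 38278625) (nat_lit 0x697120ad0) (nat_lit 971010514),
  Rx.mk (nat_lit 27) (nat_lit 3) (nat_lit 3) (nat_lit 0) (nat_lit 3) (nat_lit 180) (nat_lit 213) r9_180 r7_213 (nat_lit 0) (nat_lit 0) (nat_lit 24741287) (nat_lit 0x8017985b4) (nat_lit 561612199),
  Rx.mk (nat_lit 64) (nat_lit 0) (nat_lit 0) (nat_lit 1) (nat_lit 4) (nat_lit 171) (nat_lit 205) r9_171 r7_205 (nat_lit 50988633) (nat_lit 35325188) (nat_lit 0) (nat_lit 0x657b86a96) (nat_lit 1052706133),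
  Rx.mk (nat_lit 65) (nat_lit 1) (nat_lit 0) (nat_lit 1) (nat_lit 5) (nat_lit 174) (nat_lit 206) r9_174 r7_206 (nat_lit 0) (nat_lit 24741287) (nat_lit 0) (nat_lit 0x8017985b4) (nat_lit 561612199),
  Rx.mk (nat_lit 66) (nat_lit 2) (nat_lit 0) (nat_lit 1) (nat_lit 5) (nat_lit 177) (nat_lit 208) r9_177 r7_208 (nat_lit 0) (nat_lit 24741287) (nat_lit 0) (nat_lit 0x8017985b4) (nat_lit 561612199),
  Rx.mk (nat_lit 88) (nat_lit 0) (nat_lit 3) (nat_lit 1) (nat_lit 6) (nat_lit 173) (nat_lit 211) r9_173 r7_211 (nat_lit 24741287) (nat_lit 0) (nat_lit 0) (nat_lit 0x800c2759a) (nat_lit 562311049),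
  Rx.mk (nat_lit 89) (nat_lit 1) (nat_lit 3) (nat_lit 1) (nat_lit 7) (nat_lit 175) (nat_lit 212) r9_175 r7_212 (nat_lit 0) (nat_lit 0) (nat_lit 0) (nat_lit 0x8017985b4) (nat_lit 536870912),
  Rx.mk (nat_lit 91) (nat_lit 3) (nat_lit 3) (nat_lit 1) (nat_lit 7) (nat_lit 181) (nat_lit 214) r9_181 r7_214 (nat_lit 0) (nat_lit 0) (nat_lit 0) (nat_lit 0x8017985b4) (nat_lit 536870912),
  Rx.mk (nat_lit 130) (nat_lit 2) (nat_lit 0) (nat_lit 2) (nat_lit 5) (nat_lit 178) (nat_lit 209) r9_178 r7_209 (nat_lit 0) (nat_lit 24741287) (nat_lit 0) (nat_lit 0x8017985b4) (nat_lit 561612199),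
  Rx.mk (nat_lit 146) (nat_lit 2) (nat_lit 2) (nat_lit 2) (nat_lit 7) (nat_lit 179) (nat_lit 216) r9_179 r7_216 (nat_lit 0) (nat_lit 0) (nat_lit 0) (nat_lit 0x8017985b4) (nat_lit 536870912),
  Rx.mk (nat_lit 219) (nat_lit 3) (nat_lit 3) (nat_lit 3) (nat_lit 7) (nat_lit 182) (nat_lit 215) r9_182 r7_215 (nat_lit 0) (nat_lit 0) (nat_lit 0) (nat_lit 0x8017985b4) (nat_lit 536870912)]
noncomputable def e17_26 : List Rx := [
  Rx.mk (nat_lit 0) (nat_lit 0) (nat_lit 0) (nat_lit 0) (nat_lit 0) (nat_lit 183) (nat_lit 159) r9_183 r8_159 (nat_lit 23644808) (nat_lit 27871597) (nat_lit 18255310) (nat_lit 0x407f928e4) (nat_lit 1634185527),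
  Rx.mk (nat_lit 2) (nat_lit 2) (nat_lit 0) (nat_lit 0) (nat_lit 1) (nat_lit 192) (nat_lit 162) r9_192 r8_162 (nat_lit 0) (nat_lit 28133172) (nat_lit 40482942) (nat_lit 0x6d0747a06) (nat_lit 912998026),
  Rx.mk (nat_lit 8) (nat_lit 0) (nat_lit 1) (nat_lit 0) (nat_lit 2) (nat_lit 185) (nat_lit 165) r9_185 r8_165 (nat_lit 40805453) (nat_lit 0) (nat_lit 130895702) (nat_lit 0x7010e2518) (nat_lit 966967117),
  Rx.mk (nat_lit 10) (nat_lit 2) (nat_lit 1) (nat_lit 0) (nat_lit 3) (nat_lit 195) (nat_lit 168) r9_195 r8_168 (nat_lit 0) (nat_lit 0) (nat_lit 24741287) (nat_lit 0x8017985b4) (nat_lit 561612199),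
  Rx.mk (nat_lit 24) (nat_lit 0) (nat_lit 3) (nat_lit 0) (nat_lit 2) (nat_lit 187) (nat_lit 171) r9_187 r8_171 (nat_lit 30134438) (nat_lit 0) (nat_lit 55618136) (nat_lit 0x6f41c019a) (nat_lit 894101936),
  Rx.mk (nat_lit 27) (nat_lit 3) (nat_lit 3) (nat_lit 0) (nat_lit 3) (nat_lit 199) (nat_lit 174) r9_199 r8_174 (nat_lit 0) (nat_lit 0) (nat_lit 24741287) (nat_lit 0x8017985b4) (nat_lit 561612199),
  Rx.mk (nat_lit 64) (nat_lit 0) (nat_lit 0) (nat_lit 1) (nat_lit 4) (nat_lit 184) (nat_lit 160) r9_184 r8_160 (nat_lit 50716108) (nat_lit 34699300) (nat_lit 0) (nat_lit 0x6b512c18c) (nat_lit 957466070),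
  Rx.mk (nat_lit 65) (nat_lit 1) (nat_lit 0) (nat_lit 1) (nat_lit 5) (nat_lit 189) (nat_lit 161) r9_189 r8_161 (nat_lit 0) (nat_lit 25054288) (nat_lit 0) (nat_lit 0x800856290) (nat_lit 562857500),
  Rx.mk (nat_lit 66) (nat_lit 2) (nat_lit 0) (nat_lit 1) (nat_lit 5) (nat_lit 193) (nat_lit 163) r9_193 r8_163 (nat_lit 0) (nat_lit 24741287) (nat_lit 0) (nat_lit 0x8009d4ae0) (nat_lit 562452249),
  Rx.mk (nat_lit 72) (nat_lit 0) (nat_lit 1) (nat_lit 1) (nat_lit 6) (nat_lit 186) (nat_lit 166) r9_186 r8_166 (nat_lit 23667545) (nat_lit 0) (nat_lit 0) (nat_lit 0x7fe4ef41e) (nat_lit 563630257),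
  Rx.mk (nat_lit 73) (nat_lit 1) (nat_lit 1) (nat_lit 1) (nat_lit 7) (nat_lit 190) (nat_lit 167) r9_190 r8_167 (nat_lit 0) (nat_lit 0) (nat_lit 0) (nat_lit 0x8017985b4) (nat_lit 536870912),
  Rx.mk (nat_lit 74) (nat_lit 2) (nat_lit 1) (nat_lit 1) (nat_lit 7) (nat_lit 196) (nat_lit 169) r9_196 r8_169 (nat_lit 0) (nat_lit 0) (nat_lit 0) (nat_lit 0x8017985b4) (nat_lit 536870912),
  Rx.mk (nat_lit 88) (nat_lit 0) (nat_lit 3) (nat_lit 1) (nat_lit 6) (nat_lit 188) (nat_lit 172) r9_188 r8_172 (nat_lit 24741287) (nat_lit 0) (nat_lit 0) (nat_lit 0x8017985b4) (nat_lit 561612199),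
  Rx.mk (nat_lit 89) (nat_lit 1) (nat_lit 3) (nat_lit 1) (nat_lit 7) (nat_lit 191) (nat_lit 173) r9_191 r8_173 (nat_lit 0) (nat_lit 0) (nat_lit 0) (nat_lit 0x8017985b4) (nat_lit 536870912),
  Rx.mk (nat_lit 91) (nat_lit 3) (nat_lit 3) (nat_lit 1) (nat_lit 7) (nat_lit 200) (nat_lit 175) r9_200 r8_175 (nat_lit 0) (nat_lit 0) (nat_lit 0) (nat_lit 0x8017985b4) (nat_lit 536870912),
  Rx.mk (nat_lit 130) (nat_lit 2) (nat_lit 0) (nat_lit 2) (nat_lit 5) (nat_lit 194) (nat_lit 164) r9_194 r8_164 (nat_lit 0) (nat_lit 24741287) (nat_lit 0) (nat_lit 0x8017985b4) (nat_lit 561612199),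
  Rx.mk (nat_lit 138) (nat_lit 2) (nat_lit 1) (nat_lit 2) (nat_lit 7) (nat_lit 197) (nat_lit 170) r9_197 r8_170 (nat_lit 0) (nat_lit 0) (nat_lit 0) (nat_lit 0x8017985b4) (nat_lit 536870912),
  Rx.mk (nat_lit 146) (nat_lit 2) (nat_lit 2) (nat_lit 2) (nat_lit 7) (nat_lit 198) (nat_lit 177) r9_198 r8_177 (nat_lit 0) (nat_lit 0) (nat_lit 0) (nat_lit 0x8017985b4) (nat_lit 536870912),
  Rx.mk (nat_lit 219) (nat_lit 3) (nat_lit 3) (nat_lit 3) (nat_lit 7) (nat_lit 201) (nat_lit 176) r9_201 r8_176 (nat_lit 0) (nat_lit 0) (nat_lit 0) (nat_lit 0x8017985b4) (nat_lit 536870912)]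
noncomputable def e17_27 : List Rx := [
  Rx.mk (nat_lit 0) (nat_lit 0) (nat_lit 0) (nat_lit 0) (nat_lit 0) (nat_lit 202) (nat_lit 266) r9_202 r8_266 (nat_lit 37514210) (nat_lit 23929726) (nat_lit 16962537) (nat_lit 0x3e09e15de) (nat_lit 1682604485),
  Rx.mk (nat_lit 2) (nat_lit 2) (nat_lit 0) (nat_lit 0) (nat_lit 1) (nat_lit 204) (nat_lit 269) r9_204 r8_269 (nat_lit 0) (nat_lit 25355923) (nat_lit 29280147) (nat_lit 0x6cdd7d4fa) (nat_lit 901656982),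
  Rx.mk (nat_lit 24) (nat_lit 0) (nat_lit 3) (nat_lit 0) (nat_lit 2) (nat_lit 203) (nat_lit 267) r9_203 r8_267 (nat_lit 27096766) (nat_lit 0) (nat_lit 34060215) (nat_lit 0x698596640) (nat_lit 962235943),
  Rx.mk (nat_lit 27) (nat_lit 3) (nat_lit 3) (nat_lit 0) (nat_lit 3) (nat_lit 207) (nat_lit 268) r9_207 r8_268 (nat_lit 0) (nat_lit 0) (nat_lit 24537189) (nat_lit 0x8007ecd18) (nat_lit 562365701),
  Rx.mk (nat_lit 130) (nat_lit 2) (nat_lit 0) (nat_lit 2) (nat_lit 5) (nat_lit 205) (nat_lit 271) r9_205 r8_271 (nat_lit 0) (nat_lit 24741287) (nat_lit 0) (nat_lit 0x8017985b4) (nat_lit 561612199),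
  Rx.mk (nat_lit 146) (nat_lit 2) (nat_lit 2) (nat_lit 2) (nat_lit 7) (nat_lit 206) (nat_lit 272) r9_206 r8_272 (nat_lit 0) (nat_lit 0) (nat_lit 0) (nat_lit 0x8017985b4) (nat_lit 536870912),
  Rx.mk (nat_lit 219) (nat_lit 3) (nat_lit 3) (nat_lit 3) (nat_lit 7) (nat_lit 208) (nat_lit 270) r9_208 r8_270 (nat_lit 0) (nat_lit 0) (nat_lit 0) (nat_lit 0x8017985b4) (nat_lit 536870912)]
noncomputable def e17_28 : List Rx := [
  Rx.mk (nat_lit 24) (nat_lit 0) (nat_lit 3) (nat_lit 0) (nat_lit 2) (nat_lit 209) (nat_lit 161) r9_209 r10_161 (nat_lit 34942940) (nat_lit 0) (nat_lit 65106199) (nat_lit 0x66b1feea6) (nat_lit 1046829251),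
  Rx.mk (nat_lit 27) (nat_lit 3) (nat_lit 3) (nat_lit 0) (nat_lit 3) (nat_lit 212) (nat_lit 164) r9_212 r10_164 (nat_lit 0) (nat_lit 0) (nat_lit 24741287) (nat_lit 0x8017985b4) (nat_lit 561612199),
  Rx.mk (nat_lit 88) (nat_lit 0) (nat_lit 3) (nat_lit 1) (nat_lit 6) (nat_lit 210) (nat_lit 162) r9_210 r10_162 (nat_lit 25290688) (nat_lit 0) (nat_lit 0) (nat_lit 0x800987e2a) (nat_lit 563020650),
  Rx.mk (nat_lit 89) (nat_lit 1) (nat_lit 3) (nat_lit 1) (nat_lit 7) (nat_lit 211) (nat_lit 163) r9_211 r10_163 (nat_lit 0) (nat_lit 0) (nat_lit 0) (nat_lit 0x8017985b4) (nat_lit 536870912),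
  Rx.mk (nat_lit 91) (nat_lit 3) (nat_lit 3) (nat_lit 1) (nat_lit 7) (nat_lit 213) (nat_lit 165) r9_213 r10_165 (nat_lit 0) (nat_lit 0) (nat_lit 0) (nat_lit 0x8017985b4) (nat_lit 536870912)]
noncomputable def e17_29 : List Rx := [
  Rx.mk (nat_lit 91) (nat_lit 3) (nat_lit 3) (nat_lit 1) (nat_lit 7) (nat_lit 214) (nat_lit 164) r9_214 r11_164 (nat_lit 0) (nat_lit 0) (nat_lit 0) (nat_lit 0x8017985b4) (nat_lit 536870912)]
noncomputable def e17_30 : List Rx := [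
  Rx.mk (nat_lit 379) (nat_lit 3) (nat_lit 7) (nat_lit 5) (nat_lit 7) (nat_lit 215) (nat_lit 266) r9_215 r5_266 (nat_lit 0) (nat_lit 0) (nat_lit 0) (nat_lit 0x7fd940442) (nat_lit 540690962)]
noncomputable def e17_31 : List Rx := [
  Rx.mk (nat_lit 315) (nat_lit 3) (nat_lit 7) (nat_lit 4) (nat_lit 3) (nat_lit 216) (nat_lit 330) r9_216 r11_330 (nat_lit 0) (nat_lit 0) (nat_lit 24741287) (nat_lit 0x8017985b4) (nat_lit 561612199),
  Rx.mk (nat_lit 379) (nat_lit 3) (nat_lit 7) (nat_lit 5) (nat_lit 7) (nat_lit 217) (nat_lit 331) r9_217 r11_331 (nat_lit 0) (nat_lit 0) (nat_lit 0) (nat_lit 0x8017985b4) (nat_lit 536870912),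
  Rx.mk (nat_lit 507) (nat_lit 3) (nat_lit 7) (nat_lit 7) (nat_lit 7) (nat_lit 218) (nat_lit 332) r9_218 r11_332 (nat_lit 0) (nat_lit 0) (nat_lit 0) (nat_lit 0x8017985b4) (nat_lit 536870912)]
noncomputable def e17_32 : List Rx := [
  Rx.mk (nat_lit 120) (nat_lit 0) (nat_lit 7) (nat_lit 1) (nat_lit 6) (nat_lit 220) (nat_lit 315) r9_220 r6_315 (nat_lit 25547425) (nat_lit 0) (nat_lit 0) (nat_lit 0x7ed7c15fe) (nat_lit 582171937),
  Rx.mk (nat_lit 121) (nat_lit 1) (nat_lit 7) (nat_lit 1) (nat_lit 7) (nat_lit 222) (nat_lit 317) r9_222 r6_317 (nat_lit 0) (nat_lit 0) (nat_lit 0) (nat_lit 0x8017985b4) (nat_lit 536870912),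
  Rx.mk (nat_lit 123) (nat_lit 3) (nat_lit 7) (nat_lit 1) (nat_lit 7) (nat_lit 223) (nat_lit 318) r9_223 r6_318 (nat_lit 0) (nat_lit 0) (nat_lit 0) (nat_lit 0x8017985b4) (nat_lit 536870912),
  Rx.mk (nat_lit 376) (nat_lit 0) (nat_lit 7) (nat_lit 5) (nat_lit 6) (nat_lit 219) (nat_lit 314) r9_219 r6_314 (nat_lit 24741287) (nat_lit 0) (nat_lit 0) (nat_lit 0x7fbf624bc) (nat_lit 567020899),
  Rx.mk (nat_lit 377) (nat_lit 1) (nat_lit 7) (nat_lit 5) (nat_lit 7) (nat_lit 221) (nat_lit 316) r9_221 r6_316 (nat_lit 0) (nat_lit 0) (nat_lit 0) (nat_lit 0x8017985b4) (nat_lit 536870912)]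
noncomputable def e17_33 : List Rx := [
  Rx.mk (nat_lit 88) (nat_lit 0) (nat_lit 3) (nat_lit 1) (nat_lit 6) (nat_lit 225) (nat_lit 261) r9_225 r5_261 (nat_lit 29963902) (nat_lit 0) (nat_lit 0) (nat_lit 0x7c0aae942) (nat_lit 631646464),
  Rx.mk (nat_lit 89) (nat_lit 1) (nat_lit 3) (nat_lit 1) (nat_lit 7) (nat_lit 227) (nat_lit 263) r9_227 r5_263 (nat_lit 0) (nat_lit 0) (nat_lit 0) (nat_lit 0x8017985b4) (nat_lit 536870912),
  Rx.mk (nat_lit 120) (nat_lit 0) (nat_lit 7) (nat_lit 1) (nat_lit 6) (nat_lit 224) (nat_lit 262) r9_224 r5_262 (nat_lit 27922064) (nat_lit 0) (nat_lit 0) (nat_lit 0x7cb09d100) (nat_lit 619170926),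
  Rx.mk (nat_lit 121) (nat_lit 1) (nat_lit 7) (nat_lit 1) (nat_lit 7) (nat_lit 226) (nat_lit 264) r9_226 r5_264 (nat_lit 0) (nat_lit 0) (nat_lit 0) (nat_lit 0x8017985b4) (nat_lit 536870912),
  Rx.mk (nat_lit 123) (nat_lit 3) (nat_lit 7) (nat_lit 1) (nat_lit 7) (nat_lit 228) (nat_lit 265) r9_228 r5_265 (nat_lit 0) (nat_lit 0) (nat_lit 0) (nat_lit 0x8017985b4) (nat_lit 536870912)]
noncomputable def e17_34 : List Rx := [
  Rx.mk (nat_lit 24) (nat_lit 0) (nat_lit 3) (nat_lit 0) (nat_lit 2) (nat_lit 231) (nat_lit 318) r9_231 r11_318 (nat_lit 43848106) (nat_lit 0) (nat_lit 43672610) (nat_lit 0x78800f28a) (nat_lit 746426178),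
  Rx.mk (nat_lit 26) (nat_lit 2) (nat_lit 3) (nat_lit 0) (nat_lit 3) (nat_lit 235) (nat_lit 321) r9_235 r11_321 (nat_lit 0) (nat_lit 0) (nat_lit 24741287) (nat_lit 0x8017985b4) (nat_lit 561612199),
  Rx.mk (nat_lit 56) (nat_lit 0) (nat_lit 7) (nat_lit 0) (nat_lit 2) (nat_lit 229) (nat_lit 319) r9_229 r11_319 (nat_lit 47287016) (nat_lit 0) (nat_lit 47287016) (nat_lit 0x7cbaf48b0) (nat_lit 685204344),
  Rx.mk (nat_lit 59) (nat_lit 3) (nat_lit 7) (nat_lit 0) (nat_lit 3) (nat_lit 238) (nat_lit 320) r9_238 r11_320 (nat_lit 0) (nat_lit 0) (nat_lit 24741287) (nat_lit 0x8017985b4) (nat_lit 561612199),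
  Rx.mk (nat_lit 88) (nat_lit 0) (nat_lit 3) (nat_lit 1) (nat_lit 6) (nat_lit 232) (nat_lit 322) r9_232 r11_322 (nat_lit 24741287) (nat_lit 0) (nat_lit 0) (nat_lit 0x8017985b4) (nat_lit 561612199),
  Rx.mk (nat_lit 89) (nat_lit 1) (nat_lit 3) (nat_lit 1) (nat_lit 7) (nat_lit 234) (nat_lit 324) r9_234 r11_324 (nat_lit 0) (nat_lit 0) (nat_lit 0) (nat_lit 0x8017985b4) (nat_lit 536870912),
  Rx.mk (nat_lit 90) (nat_lit 2) (nat_lit 3) (nat_lit 1) (nat_lit 7) (nat_lit 236) (nat_lit 327) r9_236 r11_327 (nat_lit 0) (nat_lit 0) (nat_lit 0) (nat_lit 0x8017985b4) (nat_lit 536870912),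
  Rx.mk (nat_lit 120) (nat_lit 0) (nat_lit 7) (nat_lit 1) (nat_lit 6) (nat_lit 230) (nat_lit 323) r9_230 r11_323 (nat_lit 24741287) (nat_lit 0) (nat_lit 0) (nat_lit 0x8017985b4) (nat_lit 561612199),
  Rx.mk (nat_lit 121) (nat_lit 1) (nat_lit 7) (nat_lit 1) (nat_lit 7) (nat_lit 233) (nat_lit 325) r9_233 r11_325 (nat_lit 0) (nat_lit 0) (nat_lit 0) (nat_lit 0x8017985b4) (nat_lit 536870912),
  Rx.mk (nat_lit 123) (nat_lit 3) (nat_lit 7) (nat_lit 1) (nat_lit 7) (nat_lit 239) (nat_lit 326) r9_239 r11_326 (nat_lit 0) (nat_lit 0) (nat_lit 0) (nat_lit 0x8017985b4) (nat_lit 536870912),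
  Rx.mk (nat_lit 154) (nat_lit 2) (nat_lit 3) (nat_lit 2) (nat_lit 7) (nat_lit 237) (nat_lit 329) r9_237 r11_329 (nat_lit 0) (nat_lit 0) (nat_lit 0) (nat_lit 0x8017985b4) (nat_lit 536870912),
  Rx.mk (nat_lit 251) (nat_lit 3) (nat_lit 7) (nat_lit 3) (nat_lit 7) (nat_lit 240) (nat_lit 328) r9_240 r11_328 (nat_lit 0) (nat_lit 0) (nat_lit 0) (nat_lit 0x8017985b4) (nat_lit 536870912)]
noncomputable def e17_35 : List Rx := [
  Rx.mk (nat_lit 376) (nat_lit 0) (nat_lit 7) (nat_lit 5) (nat_lit 6) (nat_lit 241) (nat_lit 319) r9_241 r6_319 (nat_lit 25123569) (nat_lit 0) (nat_lit 0) (nat_lit 0x7f345289a) (nat_lit 575983031),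
  Rx.mk (nat_lit 377) (nat_lit 1) (nat_lit 7) (nat_lit 5) (nat_lit 7) (nat_lit 242) (nat_lit 320) r9_242 r6_320 (nat_lit 0) (nat_lit 0) (nat_lit 0) (nat_lit 0x8017985b4) (nat_lit 536870912),
  Rx.mk (nat_lit 379) (nat_lit 3) (nat_lit 7) (nat_lit 5) (nat_lit 7) (nat_lit 243) (nat_lit 321) r9_243 r6_321 (nat_lit 0) (nat_lit 0) (nat_lit 0) (nat_lit 0x8017985b4) (nat_lit 536870912)]
noncomputable def e17_36 : List Rx := [
  Rx.mk (nat_lit 123) (nat_lit 3) (nat_lit 7) (nat_lit 1) (nat_lit 7) (nat_lit 247) (nat_lit 124) r9_247 r12_124 (nat_lit 0) (nat_lit 0) (nat_lit 0) (nat_lit 0x8017985b4) (nat_lit 536870912),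
  Rx.mk (nat_lit 376) (nat_lit 0) (nat_lit 7) (nat_lit 5) (nat_lit 6) (nat_lit 244) (nat_lit 122) r9_244 r12_122 (nat_lit 25288573) (nat_lit 0) (nat_lit 0) (nat_lit 0x7f59c63d8) (nat_lit 573834985),
  Rx.mk (nat_lit 377) (nat_lit 1) (nat_lit 7) (nat_lit 5) (nat_lit 7) (nat_lit 245) (nat_lit 123) r9_245 r12_123 (nat_lit 0) (nat_lit 0) (nat_lit 0) (nat_lit 0x8017985b4) (nat_lit 536870912),
  Rx.mk (nat_lit 379) (nat_lit 3) (nat_lit 7) (nat_lit 5) (nat_lit 7) (nat_lit 246) (nat_lit 125) r9_246 r12_125 (nat_lit 0) (nat_lit 0) (nat_lit 0) (nat_lit 0x8017985b4) (nat_lit 536870912)]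
noncomputable def e17_37 : List Rx := [
  Rx.mk (nat_lit 105) (nat_lit 1) (nat_lit 5) (nat_lit 1) (nat_lit 7) (nat_lit 249) (nat_lit 292) r9_249 r0_292 (nat_lit 0) (nat_lit 0) (nat_lit 0) (nat_lit 0x7fa7f11e8) (nat_lit 543731812),
  Rx.mk (nat_lit 361) (nat_lit 1) (nat_lit 5) (nat_lit 5) (nat_lit 7) (nat_lit 248) (nat_lit 291) r9_248 r0_291 (nat_lit 0) (nat_lit 0) (nat_lit 0) (nat_lit 0x7f706cec0) (nat_lit 547165662)]
noncomputable def e17_38 : List Rx := [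
  Rx.mk (nat_lit 97) (nat_lit 1) (nat_lit 4) (nat_lit 1) (nat_lit 5) (nat_lit 254) (nat_lit 293) r9_254 r0_293 (nat_lit 0) (nat_lit 27880557) (nat_lit 0) (nat_lit 0x735c96bb4) (nat_lit 769863869),
  Rx.mk (nat_lit 105) (nat_lit 1) (nat_lit 5) (nat_lit 1) (nat_lit 7) (nat_lit 256) (nat_lit 296) r9_256 r0_296 (nat_lit 0) (nat_lit 0) (nat_lit 0) (nat_lit 0x7ff5e805e) (nat_lit 538935112),
  Rx.mk (nat_lit 353) (nat_lit 1) (nat_lit 4) (nat_lit 5) (nat_lit 5) (nat_lit 253) (nat_lit 294) r9_253 r0_294 (nat_lit 0) (nat_lit 27813133) (nat_lit 0) (nat_lit 0x7ac35ec14) (nat_lit 650184545),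
  Rx.mk (nat_lit 357) (nat_lit 5) (nat_lit 4) (nat_lit 5) (nat_lit 5) (nat_lit 250) (nat_lit 295) r9_250 r0_295 (nat_lit 0) (nat_lit 25628035) (nat_lit 0) (nat_lit 0x7c71b8854) (nat_lit 620861597),
  Rx.mk (nat_lit 361) (nat_lit 1) (nat_lit 5) (nat_lit 5) (nat_lit 7) (nat_lit 255) (nat_lit 297) r9_255 r0_297 (nat_lit 0) (nat_lit 0) (nat_lit 0) (nat_lit 0x7fe5db210) (nat_lit 539920162),
  Rx.mk (nat_lit 365) (nat_lit 5) (nat_lit 5) (nat_lit 5) (nat_lit 7) (nat_lit 251) (nat_lit 298) r9_251 r0_298 (nat_lit 0) (nat_lit 0) (nat_lit 0) (nat_lit 0x7fa3dbc34) (nat_lit 543982362),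
  Rx.mk (nat_lit 381) (nat_lit 5) (nat_lit 7) (nat_lit 5) (nat_lit 7) (nat_lit 252) (nat_lit 299) r9_252 r0_299 (nat_lit 0) (nat_lit 0) (nat_lit 0) (nat_lit 0x7fed20192) (nat_lit 539467362)]
noncomputable def e17_39 : List Rx := [
  Rx.mk (nat_lit 105) (nat_lit 1) (nat_lit 5) (nat_lit 1) (nat_lit 7) (nat_lit 259) (nat_lit 408) r9_259 r7_408 (nat_lit 0) (nat_lit 0) (nat_lit 0) (nat_lit 0x8017985b4) (nat_lit 536870912),
  Rx.mk (nat_lit 361) (nat_lit 1) (nat_lit 5) (nat_lit 5) (nat_lit 7) (nat_lit 258) (nat_lit 407) r9_258 r7_407 (nat_lit 0) (nat_lit 0) (nat_lit 0) (nat_lit 0x8017985b4) (nat_lit 536870912),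
  Rx.mk (nat_lit 365) (nat_lit 5) (nat_lit 5) (nat_lit 5) (nat_lit 7) (nat_lit 257) (nat_lit 406) r9_257 r7_406 (nat_lit 0) (nat_lit 0) (nat_lit 0) (nat_lit 0x8017985b4) (nat_lit 536870912)]
noncomputable def e17_40 : List Rx := [
  Rx.mk (nat_lit 356) (nat_lit 4) (nat_lit 4) (nat_lit 5) (nat_lit 4) (nat_lit 260) (nat_lit 316) r9_260 r2_316 (nat_lit 67893355) (nat_lit 40876841) (nat_lit 0) (nat_lit 0x6a127e06c) (nat_lit 1000948958),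
  Rx.mk (nat_lit 357) (nat_lit 5) (nat_lit 4) (nat_lit 5) (nat_lit 5) (nat_lit 262) (nat_lit 317) r9_262 r2_317 (nat_lit 0) (nat_lit 24603401) (nat_lit 0) (nat_lit 0x8007974d0) (nat_lit 562452963),
  Rx.mk (nat_lit 365) (nat_lit 5) (nat_lit 5) (nat_lit 5) (nat_lit 7) (nat_lit 263) (nat_lit 318) r9_263 r2_318 (nat_lit 0) (nat_lit 0) (nat_lit 0) (nat_lit 0x8017985b4) (nat_lit 536870912),
  Rx.mk (nat_lit 380) (nat_lit 4) (nat_lit 7) (nat_lit 5) (nat_lit 6) (nat_lit 261) (nat_lit 319) r9_261 r2_319 (nat_lit 24741287) (nat_lit 0) (nat_lit 0) (nat_lit 0x8017985b4) (nat_lit 561612199),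
  Rx.mk (nat_lit 381) (nat_lit 5) (nat_lit 7) (nat_lit 5) (nat_lit 7) (nat_lit 264) (nat_lit 320) r9_264 r2_320 (nat_lit 0) (nat_lit 0) (nat_lit 0) (nat_lit 0x8017985b4) (nat_lit 536870912),
  Rx.mk (nat_lit 383) (nat_lit 7) (nat_lit 7) (nat_lit 5) (nat_lit 7) (nat_lit 265) (nat_lit 321) r9_265 r2_321 (nat_lit 0) (nat_lit 0) (nat_lit 0) (nat_lit 0x8017985b4) (nat_lit 536870912)]
noncomputable def e17_41 : List Rx := [
  Rx.mk (nat_lit 365) (nat_lit 5) (nat_lit 5) (nat_lit 5) (nat_lit 7) (nat_lit 266) (nat_lit 299) r9_266 r9_299 (nat_lit 0) (nat_lit 0) (nat_lit 0) (nat_lit 0x8017985b4) (nat_lit 536870912)]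
noncomputable def e17_42 : List Rx := [
  Rx.mk (nat_lit 292) (nat_lit 4) (nat_lit 4) (nat_lit 4) (nat_lit 0) (nat_lit 267) (nat_lit 267) r9_267 r9_267 (nat_lit 19947850) (nat_lit 112948378) (nat_lit 19947850) (nat_lit 0x42f38d800) (nat_lit 1677613190),
  Rx.mk (nat_lit 293) (nat_lit 5) (nat_lit 4) (nat_lit 4) (nat_lit 1) (nat_lit 274) (nat_lit 268) r9_274 r9_268 (nat_lit 0) (nat_lit 36644786) (nat_lit 58482756) (nat_lit 0x665409c74) (nat_lit 1047842904),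
  Rx.mk (nat_lit 308) (nat_lit 4) (nat_lit 6) (nat_lit 4) (nat_lit 2) (nat_lit 269) (nat_lit 272) r9_269 r9_272 (nat_lit 40541115) (nat_lit 0) (nat_lit 33468687) (nat_lit 0x6c692da82) (nat_lit 928375014),
  Rx.mk (nat_lit 309) (nat_lit 5) (nat_lit 6) (nat_lit 4) (nat_lit 3) (nat_lit 277) (nat_lit 273) r9_277 r9_273 (nat_lit 0) (nat_lit 0) (nat_lit 24741287) (nat_lit 0x8017985b4) (nat_lit 561612199),
  Rx.mk (nat_lit 316) (nat_lit 4) (nat_lit 7) (nat_lit 4) (nat_lit 2) (nat_lit 272) (nat_lit 269) r9_272 r9_269 (nat_lit 33468687) (nat_lit 0) (nat_lit 40541115) (nat_lit 0x6c692da82) (nat_lit 928375014),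
  Rx.mk (nat_lit 317) (nat_lit 5) (nat_lit 7) (nat_lit 4) (nat_lit 3) (nat_lit 280) (nat_lit 270) r9_280 r9_270 (nat_lit 0) (nat_lit 0) (nat_lit 24741287) (nat_lit 0x8017985b4) (nat_lit 561612199),
  Rx.mk (nat_lit 319) (nat_lit 7) (nat_lit 7) (nat_lit 4) (nat_lit 3) (nat_lit 283) (nat_lit 271) r9_283 r9_271 (nat_lit 0) (nat_lit 0) (nat_lit 24741287) (nat_lit 0x8017985b4) (nat_lit 561612199),
  Rx.mk (nat_lit 356) (nat_lit 4) (nat_lit 4) (nat_lit 5) (nat_lit 4) (nat_lit 268) (nat_lit 274) r9_268 r9_274 (nat_lit 58482756) (nat_lit 36644786) (nat_lit 0) (nat_lit 0x665409c74) (nat_lit 1047842904),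
  Rx.mk (nat_lit 357) (nat_lit 5) (nat_lit 4) (nat_lit 5) (nat_lit 5) (nat_lit 275) (nat_lit 275) r9_275 r9_275 (nat_lit 0) (nat_lit 24741287) (nat_lit 0) (nat_lit 0x8017985b4) (nat_lit 561612199),
  Rx.mk (nat_lit 365) (nat_lit 5) (nat_lit 5) (nat_lit 5) (nat_lit 7) (nat_lit 276) (nat_lit 276) r9_276 r9_276 (nat_lit 0) (nat_lit 0) (nat_lit 0) (nat_lit 0x8017985b4) (nat_lit 536870912),
  Rx.mk (nat_lit 372) (nat_lit 4) (nat_lit 6) (nat_lit 5) (nat_lit 6) (nat_lit 270) (nat_lit 280) r9_270 r9_280 (nat_lit 24741287) (nat_lit 0) (nat_lit 0) (nat_lit 0x8017985b4) (nat_lit 561612199),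
  Rx.mk (nat_lit 373) (nat_lit 5) (nat_lit 6) (nat_lit 5) (nat_lit 7) (nat_lit 278) (nat_lit 281) r9_278 r9_281 (nat_lit 0) (nat_lit 0) (nat_lit 0) (nat_lit 0x8017985b4) (nat_lit 536870912),
  Rx.mk (nat_lit 380) (nat_lit 4) (nat_lit 7) (nat_lit 5) (nat_lit 6) (nat_lit 273) (nat_lit 277) r9_273 r9_277 (nat_lit 24741287) (nat_lit 0) (nat_lit 0) (nat_lit 0x8017985b4) (nat_lit 561612199),
  Rx.mk (nat_lit 381) (nat_lit 5) (nat_lit 7) (nat_lit 5) (nat_lit 7) (nat_lit 281) (nat_lit 278) r9_281 r9_278 (nat_lit 0) (nat_lit 0) (nat_lit 0) (nat_lit 0x8017985b4) (nat_lit 536870912),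
  Rx.mk (nat_lit 383) (nat_lit 7) (nat_lit 7) (nat_lit 5) (nat_lit 7) (nat_lit 284) (nat_lit 279) r9_284 r9_279 (nat_lit 0) (nat_lit 0) (nat_lit 0) (nat_lit 0x8017985b4) (nat_lit 536870912),
  Rx.mk (nat_lit 436) (nat_lit 4) (nat_lit 6) (nat_lit 6) (nat_lit 6) (nat_lit 271) (nat_lit 283) r9_271 r9_283 (nat_lit 24741287) (nat_lit 0) (nat_lit 0) (nat_lit 0x8017985b4) (nat_lit 561612199),
  Rx.mk (nat_lit 437) (nat_lit 5) (nat_lit 6) (nat_lit 6) (nat_lit 7) (nat_lit 279) (nat_lit 284) r9_279 r9_284 (nat_lit 0) (nat_lit 0) (nat_lit 0) (nat_lit 0x8017985b4) (nat_lit 536870912),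
  Rx.mk (nat_lit 438) (nat_lit 6) (nat_lit 6) (nat_lit 6) (nat_lit 7) (nat_lit 282) (nat_lit 285) r9_282 r9_285 (nat_lit 0) (nat_lit 0) (nat_lit 0) (nat_lit 0x8017985b4) (nat_lit 536870912),
  Rx.mk (nat_lit 511) (nat_lit 7) (nat_lit 7) (nat_lit 7) (nat_lit 7) (nat_lit 285) (nat_lit 282) r9_285 r9_282 (nat_lit 0) (nat_lit 0) (nat_lit 0) (nat_lit 0x8017985b4) (nat_lit 536870912)]
noncomputable def e17_43 : List Rx := [
  Rx.mk (nat_lit 357) (nat_lit 5) (nat_lit 4) (nat_lit 5) (nat_lit 5) (nat_lit 286) (nat_lit 290) r9_286 r1_290 (nat_lit 0) (nat_lit 24741287) (nat_lit 0) (nat_lit 0x7fa9dd1b4) (nat_lit 568325299),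
  Rx.mk (nat_lit 365) (nat_lit 5) (nat_lit 5) (nat_lit 5) (nat_lit 7) (nat_lit 287) (nat_lit 291) r9_287 r1_291 (nat_lit 0) (nat_lit 0) (nat_lit 0) (nat_lit 0x8017985b4) (nat_lit 536870912),
  Rx.mk (nat_lit 381) (nat_lit 5) (nat_lit 7) (nat_lit 5) (nat_lit 7) (nat_lit 288) (nat_lit 292) r9_288 r1_292 (nat_lit 0) (nat_lit 0) (nat_lit 0) (nat_lit 0x8017985b4) (nat_lit 536870912)]
noncomputable def e17_44 : List Rx := [
  Rx.mk (nat_lit 365) (nat_lit 5) (nat_lit 5) (nat_lit 5) (nat_lit 7) (nat_lit 289) (nat_lit 326) r9_289 r8_326 (nat_lit 0) (nat_lit 0) (nat_lit 0) (nat_lit 0x8017985b4) (nat_lit 536870912)]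
noncomputable def e17_45 : List Rx := [
  Rx.mk (nat_lit 73) (nat_lit 1) (nat_lit 1) (nat_lit 1) (nat_lit 7) (nat_lit 292) (nat_lit 289) r9_292 r1_289 (nat_lit 0) (nat_lit 0) (nat_lit 0) (nat_lit 0x8017985b4) (nat_lit 536870912),
  Rx.mk (nat_lit 105) (nat_lit 1) (nat_lit 5) (nat_lit 1) (nat_lit 7) (nat_lit 291) (nat_lit 288) r9_291 r1_288 (nat_lit 0) (nat_lit 0) (nat_lit 0) (nat_lit 0x8017985b4) (nat_lit 536870912),
  Rx.mk (nat_lit 361) (nat_lit 1) (nat_lit 5) (nat_lit 5) (nat_lit 7) (nat_lit 290) (nat_lit 287) r9_290 r1_287 (nat_lit 0) (nat_lit 0) (nat_lit 0) (nat_lit 0x8017985b4) (nat_lit 536870912)]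
noncomputable def e17_46 : List Rx := [
  Rx.mk (nat_lit 73) (nat_lit 1) (nat_lit 1) (nat_lit 1) (nat_lit 7) (nat_lit 293) (nat_lit 315) r9_293 r2_315 (nat_lit 0) (nat_lit 0) (nat_lit 0) (nat_lit 0x8017985b4) (nat_lit 536870912)]
noncomputable def e17_47 : List Rx := [
  Rx.mk (nat_lit 73) (nat_lit 1) (nat_lit 1) (nat_lit 1) (nat_lit 7) (nat_lit 297) (nat_lit 327) r9_297 r8_327 (nat_lit 0) (nat_lit 0) (nat_lit 0) (nat_lit 0x8017985b4) (nat_lit 536870912),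
  Rx.mk (nat_lit 105) (nat_lit 1) (nat_lit 5) (nat_lit 1) (nat_lit 7) (nat_lit 296) (nat_lit 328) r9_296 r8_328 (nat_lit 0) (nat_lit 0) (nat_lit 0) (nat_lit 0x8017985b4) (nat_lit 536870912),
  Rx.mk (nat_lit 361) (nat_lit 1) (nat_lit 5) (nat_lit 5) (nat_lit 7) (nat_lit 295) (nat_lit 329) r9_295 r8_329 (nat_lit 0) (nat_lit 0) (nat_lit 0) (nat_lit 0x8017985b4) (nat_lit 536870912),
  Rx.mk (nat_lit 365) (nat_lit 5) (nat_lit 5) (nat_lit 5) (nat_lit 7) (nat_lit 294) (nat_lit 330) r9_294 r8_330 (nat_lit 0) (nat_lit 0) (nat_lit 0) (nat_lit 0x8017985b4) (nat_lit 536870912)]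
noncomputable def e17_48 : List Rx := [
  Rx.mk (nat_lit 73) (nat_lit 1) (nat_lit 1) (nat_lit 1) (nat_lit 7) (nat_lit 298) (nat_lit 298) r9_298 r9_298 (nat_lit 0) (nat_lit 0) (nat_lit 0) (nat_lit 0x8017985b4) (nat_lit 536870912)]
noncomputable def e17_49 : List Rx := [
  Rx.mk (nat_lit 73) (nat_lit 1) (nat_lit 1) (nat_lit 1) (nat_lit 7) (nat_lit 299) (nat_lit 266) r9_299 r9_266 (nat_lit 0) (nat_lit 0) (nat_lit 0) (nat_lit 0x8017985b4) (nat_lit 536870912)]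
noncomputable def e17_50 : List Rx := [
  Rx.mk (nat_lit 97) (nat_lit 1) (nat_lit 4) (nat_lit 1) (nat_lit 5) (nat_lit 301) (nat_lit 293) r9_301 r3_293 (nat_lit 0) (nat_lit 23806788) (nat_lit 0) (nat_lit 0x6530a0838) (nat_lit 994848200),
  Rx.mk (nat_lit 105) (nat_lit 1) (nat_lit 5) (nat_lit 1) (nat_lit 7) (nat_lit 303) (nat_lit 294) r9_303 r3_294 (nat_lit 0) (nat_lit 0) (nat_lit 0) (nat_lit 0x8017985b4) (nat_lit 536870912),
  Rx.mk (nat_lit 353) (nat_lit 1) (nat_lit 4) (nat_lit 5) (nat_lit 5) (nat_lit 300) (nat_lit 290) r9_300 r3_290 (nat_lit 0) (nat_lit 36215805) (nat_lit 0) (nat_lit 0x6837b1e8a) (nat_lit 958320217),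
  Rx.mk (nat_lit 361) (nat_lit 1) (nat_lit 5) (nat_lit 5) (nat_lit 7) (nat_lit 302) (nat_lit 291) r9_302 r3_291 (nat_lit 0) (nat_lit 0) (nat_lit 0) (nat_lit 0x7f8a461c0) (nat_lit 545571162),
  Rx.mk (nat_lit 377) (nat_lit 1) (nat_lit 7) (nat_lit 5) (nat_lit 7) (nat_lit 304) (nat_lit 292) r9_304 r3_292 (nat_lit 0) (nat_lit 0) (nat_lit 0) (nat_lit 0x7ded52914) (nat_lit 571323512)]
noncomputable def e17_51 : List Rx := [
  Rx.mk (nat_lit 105) (nat_lit 1) (nat_lit 5) (nat_lit 1) (nat_lit 7) (nat_lit 306) (nat_lit 308) r9_306 r4_308 (nat_lit 0) (nat_lit 0) (nat_lit 0) (nat_lit 0x8017985b4) (nat_lit 536870912),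
  Rx.mk (nat_lit 361) (nat_lit 1) (nat_lit 5) (nat_lit 5) (nat_lit 7) (nat_lit 305) (nat_lit 307) r9_305 r4_307 (nat_lit 0) (nat_lit 0) (nat_lit 0) (nat_lit 0x8017985b4) (nat_lit 536870912)]
noncomputable def e17_52 : List Rx := [
  Rx.mk (nat_lit 97) (nat_lit 1) (nat_lit 4) (nat_lit 1) (nat_lit 5) (nat_lit 307) (nat_lit 287) r9_307 r5_287 (nat_lit 0) (nat_lit 111344299) (nat_lit 0) (nat_lit 0x6b103b6e6) (nat_lit 987492011),
  Rx.mk (nat_lit 105) (nat_lit 1) (nat_lit 5) (nat_lit 1) (nat_lit 7) (nat_lit 308) (nat_lit 288) r9_308 r5_288 (nat_lit 0) (nat_lit 0) (nat_lit 0) (nat_lit 0x7ff67effe) (nat_lit 538897862),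
  Rx.mk (nat_lit 121) (nat_lit 1) (nat_lit 7) (nat_lit 1) (nat_lit 7) (nat_lit 310) (nat_lit 289) r9_310 r5_289 (nat_lit 0) (nat_lit 0) (nat_lit 0) (nat_lit 0x7ff760b48) (nat_lit 538843712),
  Rx.mk (nat_lit 377) (nat_lit 1) (nat_lit 7) (nat_lit 5) (nat_lit 7) (nat_lit 309) (nat_lit 286) r9_309 r5_286 (nat_lit 0) (nat_lit 0) (nat_lit 0) (nat_lit 0x7ff9dad06) (nat_lit 538691612)]
noncomputable def e17_53 : List Rx := [
  Rx.mk (nat_lit 97) (nat_lit 1) (nat_lit 4) (nat_lit 1) (nat_lit 5) (nat_lit 313) (nat_lit 309) r9_313 r4_309 (nat_lit 0) (nat_lit 47490513) (nat_lit 0) (nat_lit 0x7c0f81f64) (nat_lit 648924525),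
  Rx.mk (nat_lit 105) (nat_lit 1) (nat_lit 5) (nat_lit 1) (nat_lit 7) (nat_lit 315) (nat_lit 311) r9_315 r4_311 (nat_lit 0) (nat_lit 0) (nat_lit 0) (nat_lit 0x8017985b4) (nat_lit 536870912),
  Rx.mk (nat_lit 353) (nat_lit 1) (nat_lit 4) (nat_lit 5) (nat_lit 5) (nat_lit 312) (nat_lit 310) r9_312 r4_310 (nat_lit 0) (nat_lit 30557758) (nat_lit 0) (nat_lit 0x7f457f316) (nat_lit 580390720),
  Rx.mk (nat_lit 361) (nat_lit 1) (nat_lit 5) (nat_lit 5) (nat_lit 7) (nat_lit 314) (nat_lit 312) r9_314 r4_312 (nat_lit 0) (nat_lit 0) (nat_lit 0) (nat_lit 0x8017985b4) (nat_lit 536870912),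
  Rx.mk (nat_lit 377) (nat_lit 1) (nat_lit 7) (nat_lit 5) (nat_lit 7) (nat_lit 316) (nat_lit 313) r9_316 r4_313 (nat_lit 0) (nat_lit 0) (nat_lit 0) (nat_lit 0x8017985b4) (nat_lit 536870912),
  Rx.mk (nat_lit 381) (nat_lit 5) (nat_lit 7) (nat_lit 5) (nat_lit 7) (nat_lit 311) (nat_lit 314) r9_311 r4_314 (nat_lit 0) (nat_lit 0) (nat_lit 0) (nat_lit 0x8017985b4) (nat_lit 536870912)]
noncomputable def e17_54 : List Rx := [
  Rx.mk (nat_lit 105) (nat_lit 1) (nat_lit 5) (nat_lit 1) (nat_lit 7) (nat_lit 318) (nat_lit 330) r9_318 r10_330 (nat_lit 0) (nat_lit 0) (nat_lit 0) (nat_lit 0x8017985b4) (nat_lit 536870912),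
  Rx.mk (nat_lit 361) (nat_lit 1) (nat_lit 5) (nat_lit 5) (nat_lit 7) (nat_lit 317) (nat_lit 329) r9_317 r10_329 (nat_lit 0) (nat_lit 0) (nat_lit 0) (nat_lit 0x8017985b4) (nat_lit 536870912)]
noncomputable def e17_55 : List Rx := [
  Rx.mk (nat_lit 97) (nat_lit 1) (nat_lit 4) (nat_lit 1) (nat_lit 5) (nat_lit 320) (nat_lit 347) r9_320 r11_347 (nat_lit 0) (nat_lit 34238693) (nat_lit 0) (nat_lit 0x7ed4be032) (nat_lit 591026955),
  Rx.mk (nat_lit 105) (nat_lit 1) (nat_lit 5) (nat_lit 1) (nat_lit 7) (nat_lit 321) (nat_lit 348) r9_321 r11_348 (nat_lit 0) (nat_lit 0) (nat_lit 0) (nat_lit 0x8017985b4) (nat_lit 536870912),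
  Rx.mk (nat_lit 121) (nat_lit 1) (nat_lit 7) (nat_lit 1) (nat_lit 7) (nat_lit 323) (nat_lit 349) r9_323 r11_349 (nat_lit 0) (nat_lit 0) (nat_lit 0) (nat_lit 0x8017985b4) (nat_lit 536870912),
  Rx.mk (nat_lit 377) (nat_lit 1) (nat_lit 7) (nat_lit 5) (nat_lit 7) (nat_lit 322) (nat_lit 346) r9_322 r11_346 (nat_lit 0) (nat_lit 0) (nat_lit 0) (nat_lit 0x8017985b4) (nat_lit 536870912),
  Rx.mk (nat_lit 381) (nat_lit 5) (nat_lit 7) (nat_lit 5) (nat_lit 7) (nat_lit 319) (nat_lit 345) r9_319 r11_345 (nat_lit 0) (nat_lit 0) (nat_lit 0) (nat_lit 0x8017985b4) (nat_lit 536870912)]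
noncomputable def e17_56 : List Rx := [
  Rx.mk (nat_lit 353) (nat_lit 1) (nat_lit 4) (nat_lit 5) (nat_lit 5) (nat_lit 324) (nat_lit 290) r9_324 r5_290 (nat_lit 0) (nat_lit 26942027) (nat_lit 0) (nat_lit 0x7e5860594) (nat_lit 591515239),
  Rx.mk (nat_lit 361) (nat_lit 1) (nat_lit 5) (nat_lit 5) (nat_lit 7) (nat_lit 325) (nat_lit 291) r9_325 r5_291 (nat_lit 0) (nat_lit 0) (nat_lit 0) (nat_lit 0x7ff2ca070) (nat_lit 539127012),
  Rx.mk (nat_lit 377) (nat_lit 1) (nat_lit 7) (nat_lit 5) (nat_lit 7) (nat_lit 326) (nat_lit 292) r9_326 r5_292 (nat_lit 0) (nat_lit 0) (nat_lit 0) (nat_lit 0x8017985b4) (nat_lit 536870912)]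
noncomputable def e17_57 : List Rx := [
  Rx.mk (nat_lit 361) (nat_lit 1) (nat_lit 5) (nat_lit 5) (nat_lit 7) (nat_lit 327) (nat_lit 350) r9_327 r11_350 (nat_lit 0) (nat_lit 0) (nat_lit 0) (nat_lit 0x8017985b4) (nat_lit 536870912)]
noncomputable def e17 : List (List Rx) := [e17_0, e17_1, e17_2, e17_3, e17_4, e17_5, e17_6, e17_7, e17_8, e17_9, e17_10, e17_11, e17_12, e17_13, e17_14, e17_15, e17_16, e17_17, e17_18, e17_19, e17_20, e17_21, e17_22, e17_23, e17_24, e17_25, e17_26, e17_27, e17_28, e17_29, e17_30, e17_31, e17_32, e17_33, e17_34, e17_35, e17_36, e17_37, e17_38, e17_39, e17_40, e17_41, e17_42, e17_43, e17_44, e17_45, e17_46, e17_47, e17_48, e17_49, e17_50, e17_51, e17_52, e17_53, e17_54, e17_55, e17_56, e17_57]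

end Pool.Agent.AKXS_24_34_V1
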