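import Pool.Agent.AKXS_24_34_V1.R0
import Pool.Agent.AKXS_24_34_V1.R1
import Pool.Agent.AKXS_24_34_V1.R2
import Pool.Agent.AKXS_24_34_V1.R3
import Pool.Agent.AKXS_24_34_V1.R4
import Pool.Agent.AKXS_24_34_V1.R5
import Pool.Agent.AKXS_24_34_V1.R6
import Pool.Agent.AKXS_24_34_V1.R7
import Pool.Agent.AKXS_24_34_V1.R8
import Pool.Agent.AKXS_24_34_V1.R9
import Pool.Agent.AKXS_24_34_V1.R10
import Pool.Agent.AKXS_24_34_V1.R11
import Pool.Agent.AKXS_24_34_V1.R12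

set_option autoImplicit false

namespace Pool.Agent.AKXS_24_34_V1

open Pool.Agent.AKX Pool.Agent.AKU

noncomputable def e18_0 : List Rx := [
  Rx.mk (nat_lit 2) (nat_lit 2) (nat_lit 0) (nat_lit 0) (nat_lit 1) (nat_lit 93) (nat_lit 142) r4_93 r0_142 (nat_lit 0) (nat_lit 206617785) (nat_lit 1138602) (nat_lit 0x685ba0238) (nat_lit 1127160549),
  Rx.mk (nat_lit 18) (nat_lit 2) (nat_lit 2) (nat_lit 0) (nat_lit 3) (nat_lit 94) (nat_lit 145) r4_94 r0_145 (nat_lit 0) (nat_lit 0) (nat_lit 15006223) (nat_lit 0x7cc837842) (nat_lit 604752435),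
  Rx.mk (nat_lit 194) (nat_lit 2) (nat_lit 0) (nat_lit 3) (nat_lit 5) (nat_lit 95) (nat_lit 143) r4_95 r0_143 (nat_lit 0) (nat_lit 128366738) (nat_lit 0) (nat_lit 0x7fb918d0e) (nat_lit 670781900),
  Rx.mk (nat_lit 210) (nat_lit 2) (nat_lit 2) (nat_lit 3) (nat_lit 7) (nat_lit 96) (nat_lit 146) r4_96 r0_146 (nat_lit 0) (nat_lit 0) (nat_lit 0) (nat_lit 0x801c7c06c) (nat_lit 536515262),
  Rx.mk (nat_lit 218) (nat_lit 2) (nat_lit 3) (nat_lit 3) (nat_lit 7) (nat_lit 97) (nat_lit 144) r4_97 r0_144 (nat_lit 0) (nat_lit 0) (nat_lit 0) (nat_lit 0x7fd67623e) (nat_lit 540864312)]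
noncomputable def e18_1 : List Rx := [
  Rx.mk (nat_lit 2) (nat_lit 2) (nat_lit 0) (nat_lit 0) (nat_lit 1) (nat_lit 107) (nat_lit 154) r4_107 r1_154 (nat_lit 0) (nat_lit 159743199) (nat_lit 13326467) (nat_lit 0x73d78693c) (nat_lit 907207678),
  Rx.mk (nat_lit 18) (nat_lit 2) (nat_lit 2) (nat_lit 0) (nat_lit 3) (nat_lit 108) (nat_lit 158) r4_108 r1_158 (nat_lit 0) (nat_lit 0) (nat_lit 21535191) (nat_lit 0x7c291a87c) (nat_lit 621319503),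
  Rx.mk (nat_lit 66) (nat_lit 2) (nat_lit 0) (nat_lit 1) (nat_lit 5) (nat_lit 109) (nat_lit 155) r4_109 r1_155 (nat_lit 0) (nat_lit 26051565) (nat_lit 0) (nat_lit 0x8064f5dac) (nat_lit 558163527),
  Rx.mk (nat_lit 82) (nat_lit 2) (nat_lit 2) (nat_lit 1) (nat_lit 7) (nat_lit 110) (nat_lit 159) r4_110 r1_159 (nat_lit 0) (nat_lit 0) (nat_lit 0) (nat_lit 0x807893f76) (nat_lit 530914262),
  Rx.mk (nat_lit 194) (nat_lit 2) (nat_lit 0) (nat_lit 3) (nat_lit 5) (nat_lit 111) (nat_lit 156) r4_111 r1_156 (nat_lit 0) (nat_lit 26855787) (nat_lit 0) (nat_lit 0x80aa4da94) (nat_lit 554718499),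
  Rx.mk (nat_lit 210) (nat_lit 2) (nat_lit 2) (nat_lit 3) (nat_lit 7) (nat_lit 112) (nat_lit 160) r4_112 r1_160 (nat_lit 0) (nat_lit 0) (nat_lit 0) (nat_lit 0x8039d0276) (nat_lit 534761612),
  Rx.mk (nat_lit 218) (nat_lit 2) (nat_lit 3) (nat_lit 3) (nat_lit 7) (nat_lit 113) (nat_lit 157) r4_113 r1_157 (nat_lit 0) (nat_lit 0) (nat_lit 0) (nat_lit 0x8017985b4) (nat_lit 536870912)]
noncomputable def e18_2 : List Rx := [
  Rx.mk (nat_lit 66) (nat_lit 2) (nat_lit 0) (nat_lit 1) (nat_lit 5) (nat_lit 271) (nat_lit 158) r4_271 r2_158 (nat_lit 0) (nat_lit 24741287) (nat_lit 0) (nat_lit 0x8017985b4) (nat_lit 561612199),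
  Rx.mk (nat_lit 82) (nat_lit 2) (nat_lit 2) (nat_lit 1) (nat_lit 7) (nat_lit 272) (nat_lit 159) r4_272 r2_159 (nat_lit 0) (nat_lit 0) (nat_lit 0) (nat_lit 0x8017985b4) (nat_lit 536870912)]
noncomputable def e18_3 : List Rx := [
  Rx.mk (nat_lit 194) (nat_lit 2) (nat_lit 0) (nat_lit 3) (nat_lit 5) (nat_lit 31) (nat_lit 129) r4_31 r3_129 (nat_lit 0) (nat_lit 24740) (nat_lit 0) (nat_lit 0x7ff7bed42) (nat_lit 537418902),
  Rx.mk (nat_lit 210) (nat_lit 2) (nat_lit 2) (nat_lit 3) (nat_lit 7) (nat_lit 32) (nat_lit 132) r4_32 r3_132 (nat_lit 0) (nat_lit 0) (nat_lit 0) (nat_lit 0x7990b12cc) (nat_lit 641633562),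
  Rx.mk (nat_lit 218) (nat_lit 2) (nat_lit 3) (nat_lit 3) (nat_lit 7) (nat_lit 33) (nat_lit 130) r4_33 r3_130 (nat_lit 0) (nat_lit 0) (nat_lit 0) (nat_lit 0x8112e8e28) (nat_lit 521452962),
  Rx.mk (nat_lit 315) (nat_lit 3) (nat_lit 7) (nat_lit 4) (nat_lit 3) (nat_lit 34) (nat_lit 126) r4_34 r3_126 (nat_lit 0) (nat_lit 0) (nat_lit 929445) (nat_lit 0x7e1ef5642) (nat_lit 568442957),
  Rx.mk (nat_lit 443) (nat_lit 3) (nat_lit 7) (nat_lit 6) (nat_lit 7) (nat_lit 35) (nat_lit 128) r4_35 r3_128 (nat_lit 0) (nat_lit 0) (nat_lit 0) (nat_lit 0x7fc8e9274) (nat_lit 540391512),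
  Rx.mk (nat_lit 472) (nat_lit 0) (nat_lit 3) (nat_lit 7) (nat_lit 6) (nat_lit 36) (nat_lit 124) r4_36 r3_124 (nat_lit 631050) (nat_lit 0) (nat_lit 0) (nat_lit 0x80795a612) (nat_lit 530585312),
  Rx.mk (nat_lit 474) (nat_lit 2) (nat_lit 3) (nat_lit 7) (nat_lit 7) (nat_lit 37) (nat_lit 131) r4_37 r3_131 (nat_lit 0) (nat_lit 0) (nat_lit 0) (nat_lit 0x80712030c) (nat_lit 531200012),
  Rx.mk (nat_lit 475) (nat_lit 3) (nat_lit 3) (nat_lit 7) (nat_lit 7) (nat_lit 38) (nat_lit 125) r4_38 r3_125 (nat_lit 0) (nat_lit 0) (nat_lit 0) (nat_lit 0x806259120) (nat_lit 532277862),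
  Rx.mk (nat_lit 507) (nat_lit 3) (nat_lit 7) (nat_lit 7) (nat_lit 7) (nat_lit 39) (nat_lit 127) r4_39 r3_127 (nat_lit 0) (nat_lit 0) (nat_lit 0) (nat_lit 0x802f141c0) (nat_lit 535365262)]
noncomputable def e18_4 : List Rx := [
  Rx.mk (nat_lit 194) (nat_lit 2) (nat_lit 0) (nat_lit 3) (nat_lit 5) (nat_lit 131) (nat_lit 131) r4_131 r4_131 (nat_lit 0) (nat_lit 240605632) (nat_lit 0) (nat_lit 0x7ff1aa79e) (nat_lit 779445244),
  Rx.mk (nat_lit 210) (nat_lit 2) (nat_lit 2) (nat_lit 3) (nat_lit 7) (nat_lit 132) (nat_lit 133) r4_132 r4_133 (nat_lit 0) (nat_lit 0) (nat_lit 0) (nat_lit 0x7fdb12f9a) (nat_lit 540544312),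
  Rx.mk (nat_lit 218) (nat_lit 2) (nat_lit 3) (nat_lit 3) (nat_lit 7) (nat_lit 133) (nat_lit 132) r4_133 r4_132 (nat_lit 0) (nat_lit 0) (nat_lit 0) (nat_lit 0x7fdb12f9a) (nat_lit 540544312)]
noncomputable def e18_5 : List Rx := [
  Rx.mk (nat_lit 194) (nat_lit 2) (nat_lit 0) (nat_lit 3) (nat_lit 5) (nat_lit 195) (nat_lit 130) r4_195 r5_130 (nat_lit 0) (nat_lit 202248689) (nat_lit 0) (nat_lit 0x7fd88729e) (nat_lit 741698201),
  Rx.mk (nat_lit 210) (nat_lit 2) (nat_lit 2) (nat_lit 3) (nat_lit 7) (nat_lit 196) (nat_lit 133) r4_196 r5_133 (nat_lit 0) (nat_lit 0) (nat_lit 0) (nat_lit 0x7f0ea3518) (nat_lit 553137312),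
  Rx.mk (nat_lit 283) (nat_lit 3) (nat_lit 3) (nat_lit 4) (nat_lit 3) (nat_lit 197) (nat_lit 126) r4_197 r5_126 (nat_lit 0) (nat_lit 0) (nat_lit 10127202) (nat_lit 0x78e0d6154) (nat_lit 662850514),
  Rx.mk (nat_lit 315) (nat_lit 3) (nat_lit 7) (nat_lit 4) (nat_lit 3) (nat_lit 198) (nat_lit 128) r4_198 r5_128 (nat_lit 0) (nat_lit 0) (nat_lit 4758833) (nat_lit 0x72642244c) (nat_lit 762218945),
  Rx.mk (nat_lit 443) (nat_lit 3) (nat_lit 7) (nat_lit 6) (nat_lit 7) (nat_lit 199) (nat_lit 129) r4_199 r5_129 (nat_lit 0) (nat_lit 0) (nat_lit 0) (nat_lit 0x7eb750676) (nat_lit 558254112),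
  Rx.mk (nat_lit 448) (nat_lit 0) (nat_lit 0) (nat_lit 7) (nat_lit 4) (nat_lit 200) (nat_lit 124) r4_200 r5_124 (nat_lit 19134) (nat_lit 27807) (nat_lit 0) (nat_lit 0x6beaf468e) (nat_lit 861670253),
  Rx.mk (nat_lit 450) (nat_lit 2) (nat_lit 0) (nat_lit 7) (nat_lit 5) (nat_lit 201) (nat_lit 131) r4_201 r5_131 (nat_lit 0) (nat_lit 11917208) (nat_lit 0) (nat_lit 0x7c8e48028) (nat_lit 605161420),
  Rx.mk (nat_lit 472) (nat_lit 0) (nat_lit 3) (nat_lit 7) (nat_lit 6) (nat_lit 202) (nat_lit 125) r4_202 r5_125 (nat_lit 4444174) (nat_lit 0) (nat_lit 0) (nat_lit 0x7f2401202) (nat_lit 556007186),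
  Rx.mk (nat_lit 474) (nat_lit 2) (nat_lit 3) (nat_lit 7) (nat_lit 7) (nat_lit 203) (nat_lit 132) r4_203 r5_132 (nat_lit 0) (nat_lit 0) (nat_lit 0) (nat_lit 0x80931c514) (nat_lit 529274562),
  Rx.mk (nat_lit 475) (nat_lit 3) (nat_lit 3) (nat_lit 7) (nat_lit 7) (nat_lit 204) (nat_lit 127) r4_204 r5_127 (nat_lit 0) (nat_lit 0) (nat_lit 0) (nat_lit 0x8017985b4) (nat_lit 536870912)]
noncomputable def e18_6 : List Rx := [
  Rx.mk (nat_lit 256) (nat_lit 0) (nat_lit 0) (nat_lit 4) (nat_lit 0) (nat_lit 315) (nat_lit 155) r4_315 r3_155 (nat_lit 1469) (nat_lit 2229) (nat_lit 1732) (nat_lit 0x68e4b7288) (nat_lit 910528842),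
  Rx.mk (nat_lit 257) (nat_lit 1) (nat_lit 0) (nat_lit 4) (nat_lit 1) (nat_lit 316) (nat_lit 157) r4_316 r3_157 (nat_lit 0) (nat_lit 11711) (nat_lit 52766084) (nat_lit 0x7e39636b4) (nat_lit 618367307),
  Rx.mk (nat_lit 258) (nat_lit 2) (nat_lit 0) (nat_lit 4) (nat_lit 1) (nat_lit 317) (nat_lit 159) r4_317 r3_159 (nat_lit 0) (nat_lit 79972519) (nat_lit 18325) (nat_lit 0x7bd4579ca) (nat_lit 684307106),
  Rx.mk (nat_lit 280) (nat_lit 0) (nat_lit 3) (nat_lit 4) (nat_lit 2) (nat_lit 318) (nat_lit 161) r4_318 r3_161 (nat_lit 531156) (nat_lit 0) (nat_lit 654027) (nat_lit 0x7dee0ba40) (nat_lit 571676845),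
  Rx.mk (nat_lit 281) (nat_lit 1) (nat_lit 3) (nat_lit 4) (nat_lit 3) (nat_lit 319) (nat_lit 163) r4_319 r3_163 (nat_lit 0) (nat_lit 0) (nat_lit 8572817) (nat_lit 0x825b4bc3c) (nat_lit 510304629),
  Rx.mk (nat_lit 282) (nat_lit 2) (nat_lit 3) (nat_lit 4) (nat_lit 3) (nat_lit 320) (nat_lit 165) r4_320 r3_165 (nat_lit 0) (nat_lit 0) (nat_lit 8997628) (nat_lit 0x812b84d60) (nat_lit 529007340),
  Rx.mk (nat_lit 320) (nat_lit 0) (nat_lit 0) (nat_lit 5) (nat_lit 4) (nat_lit 321) (nat_lit 156) r4_321 r3_156 (nat_lit 197867) (nat_lit 291971) (nat_lit 0) (nat_lit 0x7cea5f820) (nat_lit 587285400),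
  Rx.mk (nat_lit 321) (nat_lit 1) (nat_lit 0) (nat_lit 5) (nat_lit 5) (nat_lit 322) (nat_lit 158) r4_322 r3_158 (nat_lit 0) (nat_lit 6083194) (nat_lit 0) (nat_lit 0x8288ac032) (nat_lit 504840506),
  Rx.mk (nat_lit 322) (nat_lit 2) (nat_lit 0) (nat_lit 5) (nat_lit 5) (nat_lit 323) (nat_lit 160) r4_323 r3_160 (nat_lit 0) (nat_lit 57785397) (nat_lit 0) (nat_lit 0x829aa2052) (nat_lit 555266559),
  Rx.mk (nat_lit 344) (nat_lit 0) (nat_lit 3) (nat_lit 5) (nat_lit 6) (nat_lit 324) (nat_lit 162) r4_324 r3_162 (nat_lit 1704686) (nat_lit 0) (nat_lit 0) (nat_lit 0x92d5beefa) (nat_lit 251699898),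
  Rx.mk (nat_lit 345) (nat_lit 1) (nat_lit 3) (nat_lit 5) (nat_lit 7) (nat_lit 325) (nat_lit 164) r4_325 r3_164 (nat_lit 0) (nat_lit 0) (nat_lit 0) (nat_lit 0x886830f5a) (nat_lit 409301012),
  Rx.mk (nat_lit 346) (nat_lit 2) (nat_lit 3) (nat_lit 5) (nat_lit 7) (nat_lit 326) (nat_lit 166) r4_326 r3_166 (nat_lit 0) (nat_lit 0) (nat_lit 0) (nat_lit 0x84db470d8) (nat_lit 463510162)]
noncomputable def e18_7 : List Rx := [
  Rx.mk (nat_lit 320) (nat_lit 0) (nat_lit 0) (nat_lit 5) (nat_lit 4) (nat_lit 262) (nat_lit 174) r4_262 r0_174 (nat_lit 1751344) (nat_lit 200714257) (nat_lit 0) (nat_lit 0x5c0ff7e00) (nat_lit 1320763563),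
  Rx.mk (nat_lit 321) (nat_lit 1) (nat_lit 0) (nat_lit 5) (nat_lit 5) (nat_lit 263) (nat_lit 175) r4_263 r0_175 (nat_lit 0) (nat_lit 51975942) (nat_lit 0) (nat_lit 0x79cafc27e) (nat_lit 689883204),
  Rx.mk (nat_lit 322) (nat_lit 2) (nat_lit 0) (nat_lit 5) (nat_lit 5) (nat_lit 264) (nat_lit 176) r4_264 r0_176 (nat_lit 0) (nat_lit 441859640) (nat_lit 0) (nat_lit 0x75873a166) (nat_lit 1148413852)]
noncomputable def e18_8 : List Rx := [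
  Rx.mk (nat_lit 66) (nat_lit 2) (nat_lit 0) (nat_lit 1) (nat_lit 5) (nat_lit 279) (nat_lit 190) r4_279 r1_190 (nat_lit 0) (nat_lit 124425147) (nat_lit 0) (nat_lit 0x7ecc4e244) (nat_lit 681601709),
  Rx.mk (nat_lit 82) (nat_lit 2) (nat_lit 2) (nat_lit 1) (nat_lit 7) (nat_lit 280) (nat_lit 191) r4_280 r1_191 (nat_lit 0) (nat_lit 0) (nat_lit 0) (nat_lit 0x80304a1b6) (nat_lit 535245512),
  Rx.mk (nat_lit 320) (nat_lit 0) (nat_lit 0) (nat_lit 5) (nat_lit 4) (nat_lit 281) (nat_lit 187) r4_281 r1_187 (nat_lit 12745069) (nat_lit 131619701) (nat_lit 0) (nat_lit 0x669364acc) (nat_lit 1092912382),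
  Rx.mk (nat_lit 321) (nat_lit 1) (nat_lit 0) (nat_lit 5) (nat_lit 5) (nat_lit 282) (nat_lit 188) r4_282 r1_188 (nat_lit 0) (nat_lit 25655830) (nat_lit 0) (nat_lit 0x7fff0d792) (nat_lit 563934392),
  Rx.mk (nat_lit 322) (nat_lit 2) (nat_lit 0) (nat_lit 5) (nat_lit 5) (nat_lit 283) (nat_lit 189) r4_283 r1_189 (nat_lit 0) (nat_lit 277566866) (nat_lit 0) (nat_lit 0x7d3bb22a4) (nat_lit 859858978)]
noncomputable def e18_9 : List Rx := [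
  Rx.mk (nat_lit 320) (nat_lit 0) (nat_lit 0) (nat_lit 5) (nat_lit 4) (nat_lit 349) (nat_lit 161) r4_349 r4_161 (nat_lit 8380959) (nat_lit 15888243) (nat_lit 0) (nat_lit 0x712c99c60) (nat_lit 801452014),
  Rx.mk (nat_lit 321) (nat_lit 1) (nat_lit 0) (nat_lit 5) (nat_lit 5) (nat_lit 350) (nat_lit 162) r4_350 r4_162 (nat_lit 0) (nat_lit 22312841) (nat_lit 0) (nat_lit 0x806176d2a) (nat_lit 554648803),
  Rx.mk (nat_lit 322) (nat_lit 2) (nat_lit 0) (nat_lit 5) (nat_lit 5) (nat_lit 351) (nat_lit 163) r4_351 r4_163 (nat_lit 0) (nat_lit 68646309) (nat_lit 0) (nat_lit 0x7fa8798a4) (nat_lit 612142821),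
  Rx.mk (nat_lit 344) (nat_lit 0) (nat_lit 3) (nat_lit 5) (nat_lit 6) (nat_lit 352) (nat_lit 164) r4_352 r4_164 (nat_lit 12559442) (nat_lit 0) (nat_lit 0) (nat_lit 0x7f3685d1a) (nat_lit 563145404),
  Rx.mk (nat_lit 345) (nat_lit 1) (nat_lit 3) (nat_lit 5) (nat_lit 7) (nat_lit 353) (nat_lit 165) r4_353 r4_165 (nat_lit 0) (nat_lit 0) (nat_lit 0) (nat_lit 0x80d3762ea) (nat_lit 525382062),
  Rx.mk (nat_lit 346) (nat_lit 2) (nat_lit 3) (nat_lit 5) (nat_lit 7) (nat_lit 354) (nat_lit 166) r4_354 r4_166 (nat_lit 0) (nat_lit 0) (nat_lit 0) (nat_lit 0x808605e8e) (nat_lit 530063762)]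
noncomputable def e18_10 : List Rx := [
  Rx.mk (nat_lit 280) (nat_lit 0) (nat_lit 3) (nat_lit 4) (nat_lit 2) (nat_lit 229) (nat_lit 129) r4_229 r6_129 (nat_lit 150896) (nat_lit 0) (nat_lit 185097) (nat_lit 0x7474055ce) (nat_lit 723972805),
  Rx.mk (nat_lit 281) (nat_lit 1) (nat_lit 3) (nat_lit 4) (nat_lit 3) (nat_lit 230) (nat_lit 132) r4_230 r6_132 (nat_lit 0) (nat_lit 0) (nat_lit 15201900) (nat_lit 0x80b22620c) (nat_lit 542613312),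
  Rx.mk (nat_lit 282) (nat_lit 2) (nat_lit 3) (nat_lit 4) (nat_lit 3) (nat_lit 231) (nat_lit 138) r4_231 r6_138 (nat_lit 0) (nat_lit 0) (nat_lit 15888000) (nat_lit 0x80a2446e0) (nat_lit 544269162),
  Rx.mk (nat_lit 283) (nat_lit 3) (nat_lit 3) (nat_lit 4) (nat_lit 3) (nat_lit 232) (nat_lit 134) r4_232 r6_134 (nat_lit 0) (nat_lit 0) (nat_lit 14591992) (nat_lit 0x7ffde2a5c) (nat_lit 552972954),
  Rx.mk (nat_lit 315) (nat_lit 3) (nat_lit 7) (nat_lit 4) (nat_lit 3) (nat_lit 233) (nat_lit 135) r4_233 r6_135 (nat_lit 0) (nat_lit 0) (nat_lit 11623710) (nat_lit 0x7bf31a790) (nat_lit 614749172),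
  Rx.mk (nat_lit 443) (nat_lit 3) (nat_lit 7) (nat_lit 6) (nat_lit 7) (nat_lit 234) (nat_lit 136) r4_234 r6_136 (nat_lit 0) (nat_lit 0) (nat_lit 0) (nat_lit 0x81ec02330) (nat_lit 508336162),
  Rx.mk (nat_lit 448) (nat_lit 0) (nat_lit 0) (nat_lit 7) (nat_lit 4) (nat_lit 235) (nat_lit 128) r4_235 r6_128 (nat_lit 72450) (nat_lit 102847) (nat_lit 0) (nat_lit 0x74c49e314) (nat_lit 718702409),
  Rx.mk (nat_lit 449) (nat_lit 1) (nat_lit 0) (nat_lit 7) (nat_lit 5) (nat_lit 236) (nat_lit 131) r4_236 r6_131 (nat_lit 0) (nat_lit 17803608) (nat_lit 0) (nat_lit 0x8030df784) (nat_lit 553092470),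
  Rx.mk (nat_lit 450) (nat_lit 2) (nat_lit 0) (nat_lit 7) (nat_lit 5) (nat_lit 237) (nat_lit 137) r4_237 r6_137 (nat_lit 0) (nat_lit 14470459) (nat_lit 0) (nat_lit 0x7f6a8c884) (nat_lit 561862921),
  Rx.mk (nat_lit 472) (nat_lit 0) (nat_lit 3) (nat_lit 7) (nat_lit 6) (nat_lit 238) (nat_lit 130) r4_238 r6_130 (nat_lit 8507115) (nat_lit 0) (nat_lit 0) (nat_lit 0x7fe98ff5a) (nat_lit 548034927),
  Rx.mk (nat_lit 473) (nat_lit 1) (nat_lit 3) (nat_lit 7) (nat_lit 7) (nat_lit 239) (nat_lit 133) r4_239 r6_133 (nat_lit 0) (nat_lit 0) (nat_lit 0) (nat_lit 0x80ad718e2) (nat_lit 527694462),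
  Rx.mk (nat_lit 474) (nat_lit 2) (nat_lit 3) (nat_lit 7) (nat_lit 7) (nat_lit 240) (nat_lit 139) r4_240 r6_139 (nat_lit 0) (nat_lit 0) (nat_lit 0) (nat_lit 0x80ad718e2) (nat_lit 527694462)]
noncomputable def e18_11 : List Rx := [
  Rx.mk (nat_lit 256) (nat_lit 0) (nat_lit 0) (nat_lit 4) (nat_lit 0) (nat_lit 366) (nat_lit 169) r4_366 r5_169 (nat_lit 841617) (nat_lit 2737427) (nat_lit 1433235) (nat_lit 0x61d7dcea2) (nat_lit 1029758991),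
  Rx.mk (nat_lit 257) (nat_lit 1) (nat_lit 0) (nat_lit 4) (nat_lit 1) (nat_lit 367) (nat_lit 172) r4_367 r5_172 (nat_lit 0) (nat_lit 38663507) (nat_lit 31203347) (nat_lit 0x74de6bf62) (nat_lit 787491166),
  Rx.mk (nat_lit 258) (nat_lit 2) (nat_lit 0) (nat_lit 4) (nat_lit 1) (nat_lit 368) (nat_lit 174) r4_368 r5_174 (nat_lit 0) (nat_lit 174408130) (nat_lit 5546147) (nat_lit 0x790afe648) (nat_lit 829916089),
  Rx.mk (nat_lit 280) (nat_lit 0) (nat_lit 3) (nat_lit 4) (nat_lit 2) (nat_lit 369) (nat_lit 177) r4_369 r5_177 (nat_lit 4717590) (nat_lit 0) (nat_lit 5283235) (nat_lit 0x752a4ab54) (nat_lit 722606187),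
  Rx.mk (nat_lit 281) (nat_lit 1) (nat_lit 3) (nat_lit 4) (nat_lit 3) (nat_lit 370) (nat_lit 179) r4_370 r5_179 (nat_lit 0) (nat_lit 0) (nat_lit 12656058) (nat_lit 0x8088cb0ec) (nat_lit 542545370),
  Rx.mk (nat_lit 282) (nat_lit 2) (nat_lit 3) (nat_lit 4) (nat_lit 3) (nat_lit 371) (nat_lit 182) r4_371 r5_182 (nat_lit 0) (nat_lit 0) (nat_lit 11445764) (nat_lit 0x81403787a) (nat_lit 530241476),
  Rx.mk (nat_lit 283) (nat_lit 3) (nat_lit 3) (nat_lit 4) (nat_lit 3) (nat_lit 372) (nat_lit 180) r4_372 r5_180 (nat_lit 0) (nat_lit 0) (nat_lit 26071718) (nat_lit 0x7c450e86c) (nat_lit 624104680),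
  Rx.mk (nat_lit 320) (nat_lit 0) (nat_lit 0) (nat_lit 5) (nat_lit 4) (nat_lit 373) (nat_lit 170) r4_373 r5_170 (nat_lit 11320658) (nat_lit 159956814) (nat_lit 0) (nat_lit 0x7afbd0750) (nat_lit 789998334),
  Rx.mk (nat_lit 322) (nat_lit 2) (nat_lit 0) (nat_lit 5) (nat_lit 5) (nat_lit 374) (nat_lit 175) r4_374 r5_175 (nat_lit 0) (nat_lit 141819368) (nat_lit 0) (nat_lit 0x7fe1dc33a) (nat_lit 681820880),
  Rx.mk (nat_lit 344) (nat_lit 0) (nat_lit 3) (nat_lit 5) (nat_lit 6) (nat_lit 375) (nat_lit 178) r4_375 r5_178 (nat_lit 10292378) (nat_lit 0) (nat_lit 0) (nat_lit 0x80631e6c8) (nat_lit 542489390),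
  Rx.mk (nat_lit 346) (nat_lit 2) (nat_lit 3) (nat_lit 5) (nat_lit 7) (nat_lit 376) (nat_lit 183) r4_376 r5_183 (nat_lit 0) (nat_lit 0) (nat_lit 0) (nat_lit 0x80cd61346) (nat_lit 525749862),
  Rx.mk (nat_lit 347) (nat_lit 3) (nat_lit 3) (nat_lit 5) (nat_lit 7) (nat_lit 377) (nat_lit 181) r4_377 r5_181 (nat_lit 0) (nat_lit 0) (nat_lit 0) (nat_lit 0x80414fb1e) (nat_lit 534304462),
  Rx.mk (nat_lit 448) (nat_lit 0) (nat_lit 0) (nat_lit 7) (nat_lit 4) (nat_lit 378) (nat_lit 171) r4_378 r5_171 (nat_lit 24206208) (nat_lit 58076158) (nat_lit 0) (nat_lit 0x78ad82f82) (nat_lit 738299028),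
  Rx.mk (nat_lit 449) (nat_lit 1) (nat_lit 0) (nat_lit 7) (nat_lit 5) (nat_lit 379) (nat_lit 173) r4_379 r5_173 (nat_lit 0) (nat_lit 24741287) (nat_lit 0) (nat_lit 0x8017985b4) (nat_lit 561612199),
  Rx.mk (nat_lit 450) (nat_lit 2) (nat_lit 0) (nat_lit 7) (nat_lit 5) (nat_lit 380) (nat_lit 176) r4_380 r5_176 (nat_lit 0) (nat_lit 26164324) (nat_lit 0) (nat_lit 0x80999346a) (nat_lit 555052536)]
noncomputable def e18_12 : List Rx := [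
  Rx.mk (nat_lit 18) (nat_lit 2) (nat_lit 2) (nat_lit 0) (nat_lit 3) (nat_lit 0) (nat_lit 58) r4_0 r0_58 (nat_lit 0) (nat_lit 0) (nat_lit 5660977) (nat_lit 0x6025939b8) (nat_lit 1058125439),
  Rx.mk (nat_lit 22) (nat_lit 6) (nat_lit 2) (nat_lit 0) (nat_lit 3) (nat_lit 1) (nat_lit 57) r4_1 r0_57 (nat_lit 0) (nat_lit 0) (nat_lit 13925368) (nat_lit 0x7d011df30) (nat_lit 600028230),
  Rx.mk (nat_lit 150) (nat_lit 6) (nat_lit 2) (nat_lit 2) (nat_lit 7) (nat_lit 2) (nat_lit 64) r4_2 r0_64 (nat_lit 0) (nat_lit 0) (nat_lit 0) (nat_lit 0x80a6ddf44) (nat_lit 528084262),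
  Rx.mk (nat_lit 180) (nat_lit 4) (nat_lit 6) (nat_lit 2) (nat_lit 6) (nat_lit 3) (nat_lit 62) r4_3 r0_62 (nat_lit 11579015) (nat_lit 0) (nat_lit 0) (nat_lit 0x7fd79e04e) (nat_lit 552249627),
  Rx.mk (nat_lit 182) (nat_lit 6) (nat_lit 6) (nat_lit 2) (nat_lit 7) (nat_lit 4) (nat_lit 63) r4_4 r0_63 (nat_lit 0) (nat_lit 0) (nat_lit 0) (nat_lit 0x804ed3af6) (nat_lit 533452762),
  Rx.mk (nat_lit 194) (nat_lit 2) (nat_lit 0) (nat_lit 3) (nat_lit 5) (nat_lit 5) (nat_lit 59) r4_5 r0_59 (nat_lit 0) (nat_lit 82674763) (nat_lit 0) (nat_lit 0x7746f3588) (nat_lit 761260075),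
  Rx.mk (nat_lit 210) (nat_lit 2) (nat_lit 2) (nat_lit 3) (nat_lit 7) (nat_lit 6) (nat_lit 61) r4_6 r0_61 (nat_lit 0) (nat_lit 0) (nat_lit 0) (nat_lit 0x7f2c10cae) (nat_lit 551161962),
  Rx.mk (nat_lit 218) (nat_lit 2) (nat_lit 3) (nat_lit 3) (nat_lit 7) (nat_lit 7) (nat_lit 60) r4_7 r0_60 (nat_lit 0) (nat_lit 0) (nat_lit 0) (nat_lit 0x7f7512f6a) (nat_lit 546825312),
  Rx.mk (nat_lit 420) (nat_lit 4) (nat_lit 4) (nat_lit 6) (nat_lit 4) (nat_lit 8) (nat_lit 52) r4_8 r0_52 (nat_lit 6694296) (nat_lit 22112455) (nat_lit 0) (nat_lit 0x63f406554) (nat_lit 1019765813),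
  Rx.mk (nat_lit 423) (nat_lit 7) (nat_lit 4) (nat_lit 6) (nat_lit 5) (nat_lit 9) (nat_lit 53) r4_9 r0_53 (nat_lit 0) (nat_lit 74749020) (nat_lit 0) (nat_lit 0x751698fde) (nat_lit 788742832),
  Rx.mk (nat_lit 436) (nat_lit 4) (nat_lit 6) (nat_lit 6) (nat_lit 6) (nat_lit 10) (nat_lit 55) r4_10 r0_55 (nat_lit 12464414) (nat_lit 0) (nat_lit 0) (nat_lit 0x7d1fc1338) (nat_lit 596680676),
  Rx.mk (nat_lit 439) (nat_lit 7) (nat_lit 6) (nat_lit 6) (nat_lit 7) (nat_lit 11) (nat_lit 56) r4_11 r0_56 (nat_lit 0) (nat_lit 0) (nat_lit 0) (nat_lit 0x8071443a6) (nat_lit 531356412),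
  Rx.mk (nat_lit 447) (nat_lit 7) (nat_lit 7) (nat_lit 6) (nat_lit 7) (nat_lit 12) (nat_lit 54) r4_12 r0_54 (nat_lit 0) (nat_lit 0) (nat_lit 0) (nat_lit 0x76aa13858) (nat_lit 688374962)]
noncomputable def e18_13 : List Rx := [
  Rx.mk (nat_lit 2) (nat_lit 2) (nat_lit 0) (nat_lit 0) (nat_lit 1) (nat_lit 98) (nat_lit 175) r4_98 r7_175 (nat_lit 0) (nat_lit 21615915) (nat_lit 11303237) (nat_lit 0x68ed8d4d4) (nat_lit 943524414),
  Rx.mk (nat_lit 18) (nat_lit 2) (nat_lit 2) (nat_lit 0) (nat_lit 3) (nat_lit 99) (nat_lit 178) r4_99 r7_178 (nat_lit 0) (nat_lit 0) (nat_lit 10576130) (nat_lit 0x7fd267c38) (nat_lit 551565342),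
  Rx.mk (nat_lit 22) (nat_lit 6) (nat_lit 2) (nat_lit 0) (nat_lit 3) (nat_lit 100) (nat_lit 181) r4_100 r7_181 (nat_lit 0) (nat_lit 0) (nat_lit 17421724) (nat_lit 0x804c6a3e6) (nat_lit 551019636),
  Rx.mk (nat_lit 150) (nat_lit 6) (nat_lit 2) (nat_lit 2) (nat_lit 7) (nat_lit 101) (nat_lit 182) r4_101 r7_182 (nat_lit 0) (nat_lit 0) (nat_lit 0) (nat_lit 0x8017985b4) (nat_lit 536870912),
  Rx.mk (nat_lit 180) (nat_lit 4) (nat_lit 6) (nat_lit 2) (nat_lit 6) (nat_lit 102) (nat_lit 180) r4_102 r7_180 (nat_lit 15103995) (nat_lit 0) (nat_lit 0) (nat_lit 0x808086120) (nat_lit 545531857),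
  Rx.mk (nat_lit 182) (nat_lit 6) (nat_lit 6) (nat_lit 2) (nat_lit 7) (nat_lit 103) (nat_lit 183) r4_103 r7_183 (nat_lit 0) (nat_lit 0) (nat_lit 0) (nat_lit 0x8017985b4) (nat_lit 536870912),
  Rx.mk (nat_lit 194) (nat_lit 2) (nat_lit 0) (nat_lit 3) (nat_lit 5) (nat_lit 104) (nat_lit 176) r4_104 r7_176 (nat_lit 0) (nat_lit 32199586) (nat_lit 0) (nat_lit 0x7deebd290) (nat_lit 603434298),
  Rx.mk (nat_lit 210) (nat_lit 2) (nat_lit 2) (nat_lit 3) (nat_lit 7) (nat_lit 105) (nat_lit 179) r4_105 r7_179 (nat_lit 0) (nat_lit 0) (nat_lit 0) (nat_lit 0x80d93c616) (nat_lit 525035062),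
  Rx.mk (nat_lit 218) (nat_lit 2) (nat_lit 3) (nat_lit 3) (nat_lit 7) (nat_lit 106) (nat_lit 177) r4_106 r7_177 (nat_lit 0) (nat_lit 0) (nat_lit 0) (nat_lit 0x8017985b4) (nat_lit 536870912)]
noncomputable def e18_14 : List Rx := [
  Rx.mk (nat_lit 150) (nat_lit 6) (nat_lit 2) (nat_lit 2) (nat_lit 7) (nat_lit 13) (nat_lit 57) r4_13 r1_57 (nat_lit 0) (nat_lit 0) (nat_lit 0) (nat_lit 0x8007403f6) (nat_lit 537871262),
  Rx.mk (nat_lit 180) (nat_lit 4) (nat_lit 6) (nat_lit 2) (nat_lit 6) (nat_lit 14) (nat_lit 55) r4_14 r1_55 (nat_lit 13824857) (nat_lit 0) (nat_lit 0) (nat_lit 0x8053119f6) (nat_lit 546991619),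
  Rx.mk (nat_lit 182) (nat_lit 6) (nat_lit 6) (nat_lit 2) (nat_lit 7) (nat_lit 15) (nat_lit 56) r4_15 r1_56 (nat_lit 0) (nat_lit 0) (nat_lit 0) (nat_lit 0x8078ceb44) (nat_lit 530903862),
  Rx.mk (nat_lit 420) (nat_lit 4) (nat_lit 4) (nat_lit 6) (nat_lit 4) (nat_lit 16) (nat_lit 50) r4_16 r1_50 (nat_lit 12415695) (nat_lit 67051359) (nat_lit 0) (nat_lit 0x6dd5f0330) (nat_lit 910715916),
  Rx.mk (nat_lit 423) (nat_lit 7) (nat_lit 4) (nat_lit 6) (nat_lit 5) (nat_lit 17) (nat_lit 51) r4_17 r1_51 (nat_lit 0) (nat_lit 32103431) (nat_lit 0) (nat_lit 0x7f4592056) (nat_lit 581897443),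
  Rx.mk (nat_lit 436) (nat_lit 4) (nat_lit 6) (nat_lit 6) (nat_lit 6) (nat_lit 18) (nat_lit 53) r4_18 r1_53 (nat_lit 18565138) (nat_lit 0) (nat_lit 0) (nat_lit 0x7e088a2e0) (nat_lit 588194500),
  Rx.mk (nat_lit 439) (nat_lit 7) (nat_lit 6) (nat_lit 6) (nat_lit 7) (nat_lit 19) (nat_lit 54) r4_19 r1_54 (nat_lit 0) (nat_lit 0) (nat_lit 0) (nat_lit 0x8017985b4) (nat_lit 536870912),
  Rx.mk (nat_lit 447) (nat_lit 7) (nat_lit 7) (nat_lit 6) (nat_lit 7) (nat_lit 20) (nat_lit 52) r4_20 r1_52 (nat_lit 0) (nat_lit 0) (nat_lit 0) (nat_lit 0x8256757bc) (nat_lit 501986312)]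
noncomputable def e18_15 : List Rx := [
  Rx.mk (nat_lit 150) (nat_lit 6) (nat_lit 2) (nat_lit 2) (nat_lit 7) (nat_lit 125) (nat_lit 147) r4_125 r8_147 (nat_lit 0) (nat_lit 0) (nat_lit 0) (nat_lit 0x8017985b4) (nat_lit 536870912),
  Rx.mk (nat_lit 180) (nat_lit 4) (nat_lit 6) (nat_lit 2) (nat_lit 6) (nat_lit 126) (nat_lit 146) r4_126 r8_146 (nat_lit 22851491) (nat_lit 0) (nat_lit 0) (nat_lit 0x7fa9b2676) (nat_lit 566471853),
  Rx.mk (nat_lit 182) (nat_lit 6) (nat_lit 6) (nat_lit 2) (nat_lit 7) (nat_lit 127) (nat_lit 148) r4_127 r8_148 (nat_lit 0) (nat_lit 0) (nat_lit 0) (nat_lit 0x8017985b4) (nat_lit 536870912)]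
noncomputable def e18_16 : List Rx := [
  Rx.mk (nat_lit 2) (nat_lit 2) (nat_lit 0) (nat_lit 0) (nat_lit 1) (nat_lit 114) (nat_lit 47) r4_114 r8_47 (nat_lit 0) (nat_lit 35927384) (nat_lit 25528723) (nat_lit 0x6c2494650) (nat_lit 920149869),
  Rx.mk (nat_lit 18) (nat_lit 2) (nat_lit 2) (nat_lit 0) (nat_lit 3) (nat_lit 115) (nat_lit 49) r4_115 r8_49 (nat_lit 0) (nat_lit 0) (nat_lit 15426170) (nat_lit 0x7fa00e8ea) (nat_lit 559577782),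
  Rx.mk (nat_lit 22) (nat_lit 6) (nat_lit 2) (nat_lit 0) (nat_lit 3) (nat_lit 116) (nat_lit 48) r4_116 r8_48 (nat_lit 0) (nat_lit 0) (nat_lit 19539304) (nat_lit 0x7feeea77a) (nat_lit 558873116),
  Rx.mk (nat_lit 66) (nat_lit 2) (nat_lit 0) (nat_lit 1) (nat_lit 5) (nat_lit 117) (nat_lit 50) r4_117 r8_50 (nat_lit 0) (nat_lit 24741287) (nat_lit 0) (nat_lit 0x8005f42d6) (nat_lit 562689149),
  Rx.mk (nat_lit 82) (nat_lit 2) (nat_lit 2) (nat_lit 1) (nat_lit 7) (nat_lit 118) (nat_lit 52) r4_118 r8_52 (nat_lit 0) (nat_lit 0) (nat_lit 0) (nat_lit 0x8050765fc) (nat_lit 533378512),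
  Rx.mk (nat_lit 86) (nat_lit 6) (nat_lit 2) (nat_lit 1) (nat_lit 7) (nat_lit 119) (nat_lit 51) r4_119 r8_51 (nat_lit 0) (nat_lit 0) (nat_lit 0) (nat_lit 0x8017985b4) (nat_lit 536870912),
  Rx.mk (nat_lit 150) (nat_lit 6) (nat_lit 2) (nat_lit 2) (nat_lit 7) (nat_lit 120) (nat_lit 57) r4_120 r8_57 (nat_lit 0) (nat_lit 0) (nat_lit 0) (nat_lit 0x8017985b4) (nat_lit 536870912),
  Rx.mk (nat_lit 182) (nat_lit 6) (nat_lit 6) (nat_lit 2) (nat_lit 7) (nat_lit 121) (nat_lit 56) r4_121 r8_56 (nat_lit 0) (nat_lit 0) (nat_lit 0) (nat_lit 0x8017985b4) (nat_lit 536870912),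
  Rx.mk (nat_lit 194) (nat_lit 2) (nat_lit 0) (nat_lit 3) (nat_lit 5) (nat_lit 122) (nat_lit 53) r4_122 r8_53 (nat_lit 0) (nat_lit 24741287) (nat_lit 0) (nat_lit 0x8017985b4) (nat_lit 561612199),
  Rx.mk (nat_lit 210) (nat_lit 2) (nat_lit 2) (nat_lit 3) (nat_lit 7) (nat_lit 123) (nat_lit 55) r4_123 r8_55 (nat_lit 0) (nat_lit 0) (nat_lit 0) (nat_lit 0x80507696c) (nat_lit 533378462),
  Rx.mk (nat_lit 218) (nat_lit 2) (nat_lit 3) (nat_lit 3) (nat_lit 7) (nat_lit 124) (nat_lit 54) r4_124 r8_54 (nat_lit 0) (nat_lit 0) (nat_lit 0) (nat_lit 0x8017985b4) (nat_lit 536870912)]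
noncomputable def e18_17 : List Rx := [
  Rx.mk (nat_lit 66) (nat_lit 2) (nat_lit 0) (nat_lit 1) (nat_lit 5) (nat_lit 276) (nat_lit 133) r4_276 r9_133 (nat_lit 0) (nat_lit 24741287) (nat_lit 0) (nat_lit 0x80035e648) (nat_lit 562847599),
  Rx.mk (nat_lit 82) (nat_lit 2) (nat_lit 2) (nat_lit 1) (nat_lit 7) (nat_lit 277) (nat_lit 134) r4_277 r9_134 (nat_lit 0) (nat_lit 0) (nat_lit 0) (nat_lit 0x8017985b4) (nat_lit 536870912),
  Rx.mk (nat_lit 86) (nat_lit 6) (nat_lit 2) (nat_lit 1) (nat_lit 7) (nat_lit 278) (nat_lit 135) r4_278 r9_135 (nat_lit 0) (nat_lit 0) (nat_lit 0) (nat_lit 0x8017985b4) (nat_lit 536870912)]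
noncomputable def e18_18 : List Rx := [
  Rx.mk (nat_lit 22) (nat_lit 6) (nat_lit 2) (nat_lit 0) (nat_lit 3) (nat_lit 40) (nat_lit 49) r4_40 r4_49 (nat_lit 0) (nat_lit 0) (nat_lit 47488) (nat_lit 0x7f4c14ed8) (nat_lit 548301250),
  Rx.mk (nat_lit 150) (nat_lit 6) (nat_lit 2) (nat_lit 2) (nat_lit 7) (nat_lit 41) (nat_lit 57) r4_41 r4_57 (nat_lit 0) (nat_lit 0) (nat_lit 0) (nat_lit 0x833e66080) (nat_lit 488151412),
  Rx.mk (nat_lit 180) (nat_lit 4) (nat_lit 6) (nat_lit 2) (nat_lit 6) (nat_lit 42) (nat_lit 54) r4_42 r4_54 (nat_lit 21693) (nat_lit 0) (nat_lit 0) (nat_lit 0x7f520135a) (nat_lit 547891305),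
  Rx.mk (nat_lit 182) (nat_lit 6) (nat_lit 6) (nat_lit 2) (nat_lit 7) (nat_lit 43) (nat_lit 56) r4_43 r4_56 (nat_lit 0) (nat_lit 0) (nat_lit 0) (nat_lit 0x823ed6796) (nat_lit 503474812),
  Rx.mk (nat_lit 183) (nat_lit 7) (nat_lit 6) (nat_lit 2) (nat_lit 7) (nat_lit 44) (nat_lit 55) r4_44 r4_55 (nat_lit 0) (nat_lit 0) (nat_lit 0) (nat_lit 0x81a8d71a0) (nat_lit 512426612),
  Rx.mk (nat_lit 194) (nat_lit 2) (nat_lit 0) (nat_lit 3) (nat_lit 5) (nat_lit 45) (nat_lit 50) r4_45 r4_50 (nat_lit 0) (nat_lit 46073) (nat_lit 0) (nat_lit 0x7fd3d4b02) (nat_lit 539721735),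
  Rx.mk (nat_lit 210) (nat_lit 2) (nat_lit 2) (nat_lit 3) (nat_lit 7) (nat_lit 46) (nat_lit 53) r4_46 r4_53 (nat_lit 0) (nat_lit 0) (nat_lit 0) (nat_lit 0x7ecfb6c88) (nat_lit 556095412),
  Rx.mk (nat_lit 214) (nat_lit 6) (nat_lit 2) (nat_lit 3) (nat_lit 7) (nat_lit 47) (nat_lit 52) r4_47 r4_52 (nat_lit 0) (nat_lit 0) (nat_lit 0) (nat_lit 0x8245b8b4a) (nat_lit 503024812),
  Rx.mk (nat_lit 218) (nat_lit 2) (nat_lit 3) (nat_lit 3) (nat_lit 7) (nat_lit 48) (nat_lit 51) r4_48 r4_51 (nat_lit 0) (nat_lit 0) (nat_lit 0) (nat_lit 0x843b695d4) (nat_lit 473034362),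
  Rx.mk (nat_lit 315) (nat_lit 3) (nat_lit 7) (nat_lit 4) (nat_lit 3) (nat_lit 49) (nat_lit 40) r4_49 r4_40 (nat_lit 0) (nat_lit 0) (nat_lit 47488) (nat_lit 0x7f4c14ed8) (nat_lit 548301250),
  Rx.mk (nat_lit 423) (nat_lit 7) (nat_lit 4) (nat_lit 6) (nat_lit 5) (nat_lit 50) (nat_lit 45) r4_50 r4_45 (nat_lit 0) (nat_lit 46073) (nat_lit 0) (nat_lit 0x7fd3d4b02) (nat_lit 539721735),
  Rx.mk (nat_lit 439) (nat_lit 7) (nat_lit 6) (nat_lit 6) (nat_lit 7) (nat_lit 51) (nat_lit 48) r4_51 r4_48 (nat_lit 0) (nat_lit 0) (nat_lit 0) (nat_lit 0x843b695d4) (nat_lit 473034362),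
  Rx.mk (nat_lit 443) (nat_lit 3) (nat_lit 7) (nat_lit 6) (nat_lit 7) (nat_lit 52) (nat_lit 47) r4_52 r4_47 (nat_lit 0) (nat_lit 0) (nat_lit 0) (nat_lit 0x8245b8b4a) (nat_lit 503024812),
  Rx.mk (nat_lit 447) (nat_lit 7) (nat_lit 7) (nat_lit 6) (nat_lit 7) (nat_lit 53) (nat_lit 46) r4_53 r4_46 (nat_lit 0) (nat_lit 0) (nat_lit 0) (nat_lit 0x7ecfb6c88) (nat_lit 556095412),
  Rx.mk (nat_lit 472) (nat_lit 0) (nat_lit 3) (nat_lit 7) (nat_lit 6) (nat_lit 54) (nat_lit 42) r4_54 r4_42 (nat_lit 21693) (nat_lit 0) (nat_lit 0) (nat_lit 0x7f520135a) (nat_lit 547891305),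
  Rx.mk (nat_lit 474) (nat_lit 2) (nat_lit 3) (nat_lit 7) (nat_lit 7) (nat_lit 55) (nat_lit 44) r4_55 r4_44 (nat_lit 0) (nat_lit 0) (nat_lit 0) (nat_lit 0x81a8d71a0) (nat_lit 512426612),
  Rx.mk (nat_lit 475) (nat_lit 3) (nat_lit 3) (nat_lit 7) (nat_lit 7) (nat_lit 56) (nat_lit 43) r4_56 r4_43 (nat_lit 0) (nat_lit 0) (nat_lit 0) (nat_lit 0x823ed6796) (nat_lit 503474812),
  Rx.mk (nat_lit 507) (nat_lit 3) (nat_lit 7) (nat_lit 7) (nat_lit 7) (nat_lit 57) (nat_lit 41) r4_57 r4_41 (nat_lit 0) (nat_lit 0) (nat_lit 0) (nat_lit 0x833e66080) (nat_lit 488151412)]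
noncomputable def e18_19 : List Rx := [
  Rx.mk (nat_lit 22) (nat_lit 6) (nat_lit 2) (nat_lit 0) (nat_lit 3) (nat_lit 134) (nat_lit 132) r4_134 r10_132 (nat_lit 0) (nat_lit 0) (nat_lit 19244630) (nat_lit 0x801080380) (nat_lit 556512792),
  Rx.mk (nat_lit 150) (nat_lit 6) (nat_lit 2) (nat_lit 2) (nat_lit 7) (nat_lit 135) (nat_lit 134) r4_135 r10_134 (nat_lit 0) (nat_lit 0) (nat_lit 0) (nat_lit 0x8017985b4) (nat_lit 536870912),
  Rx.mk (nat_lit 180) (nat_lit 4) (nat_lit 6) (nat_lit 2) (nat_lit 6) (nat_lit 136) (nat_lit 130) r4_136 r10_130 (nat_lit 12224820) (nat_lit 0) (nat_lit 0) (nat_lit 0x806946df2) (nat_lit 544040032),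
  Rx.mk (nat_lit 182) (nat_lit 6) (nat_lit 6) (nat_lit 2) (nat_lit 7) (nat_lit 137) (nat_lit 135) r4_137 r10_135 (nat_lit 0) (nat_lit 0) (nat_lit 0) (nat_lit 0x8017985b4) (nat_lit 536870912),
  Rx.mk (nat_lit 183) (nat_lit 7) (nat_lit 6) (nat_lit 2) (nat_lit 7) (nat_lit 138) (nat_lit 131) r4_138 r10_131 (nat_lit 0) (nat_lit 0) (nat_lit 0) (nat_lit 0x804468c56) (nat_lit 534115312),
  Rx.mk (nat_lit 194) (nat_lit 2) (nat_lit 0) (nat_lit 3) (nat_lit 5) (nat_lit 139) (nat_lit 127) r4_139 r10_127 (nat_lit 0) (nat_lit 24676068) (nat_lit 0) (nat_lit 0x7e8afe690) (nat_lit 586102830),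
  Rx.mk (nat_lit 210) (nat_lit 2) (nat_lit 2) (nat_lit 3) (nat_lit 7) (nat_lit 140) (nat_lit 129) r4_140 r10_129 (nat_lit 0) (nat_lit 0) (nat_lit 0) (nat_lit 0x809f243f2) (nat_lit 528567662),
  Rx.mk (nat_lit 214) (nat_lit 6) (nat_lit 2) (nat_lit 3) (nat_lit 7) (nat_lit 141) (nat_lit 133) r4_141 r10_133 (nat_lit 0) (nat_lit 0) (nat_lit 0) (nat_lit 0x8017985b4) (nat_lit 536870912),
  Rx.mk (nat_lit 218) (nat_lit 2) (nat_lit 3) (nat_lit 3) (nat_lit 7) (nat_lit 142) (nat_lit 128) r4_142 r10_128 (nat_lit 0) (nat_lit 0) (nat_lit 0) (nat_lit 0x8017985b4) (nat_lit 536870912)]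
noncomputable def e18_20 : List Rx := [
  Rx.mk (nat_lit 194) (nat_lit 2) (nat_lit 0) (nat_lit 3) (nat_lit 5) (nat_lit 205) (nat_lit 131) r4_205 r11_131 (nat_lit 0) (nat_lit 31334360) (nat_lit 0) (nat_lit 0x7f54de2a8) (nat_lit 580083322),
  Rx.mk (nat_lit 210) (nat_lit 2) (nat_lit 2) (nat_lit 3) (nat_lit 7) (nat_lit 206) (nat_lit 134) r4_206 r11_134 (nat_lit 0) (nat_lit 0) (nat_lit 0) (nat_lit 0x81e84d53c) (nat_lit 508548712),
  Rx.mk (nat_lit 214) (nat_lit 6) (nat_lit 2) (nat_lit 3) (nat_lit 7) (nat_lit 207) (nat_lit 136) r4_207 r11_136 (nat_lit 0) (nat_lit 0) (nat_lit 0) (nat_lit 0x825f8dcd2) (nat_lit 501520162),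
  Rx.mk (nat_lit 283) (nat_lit 3) (nat_lit 3) (nat_lit 4) (nat_lit 3) (nat_lit 208) (nat_lit 127) r4_208 r11_127 (nat_lit 0) (nat_lit 0) (nat_lit 12952000) (nat_lit 0x80562ac28) (nat_lit 545915612),
  Rx.mk (nat_lit 315) (nat_lit 3) (nat_lit 7) (nat_lit 4) (nat_lit 3) (nat_lit 209) (nat_lit 129) r4_209 r11_129 (nat_lit 0) (nat_lit 0) (nat_lit 13063204) (nat_lit 0x7f229ebd0) (nat_lit 564962416),
  Rx.mk (nat_lit 443) (nat_lit 3) (nat_lit 7) (nat_lit 6) (nat_lit 7) (nat_lit 210) (nat_lit 130) r4_210 r11_130 (nat_lit 0) (nat_lit 0) (nat_lit 0) (nat_lit 0x81dd34f24) (nat_lit 509302462),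
  Rx.mk (nat_lit 447) (nat_lit 7) (nat_lit 7) (nat_lit 6) (nat_lit 7) (nat_lit 211) (nat_lit 135) r4_211 r11_135 (nat_lit 0) (nat_lit 0) (nat_lit 0) (nat_lit 0x80f168d7a) (nat_lit 523350662),
  Rx.mk (nat_lit 448) (nat_lit 0) (nat_lit 0) (nat_lit 7) (nat_lit 4) (nat_lit 212) (nat_lit 125) r4_212 r11_125 (nat_lit 514055) (nat_lit 616962) (nat_lit 0) (nat_lit 0x69c2df4b6) (nat_lit 897748479),
  Rx.mk (nat_lit 450) (nat_lit 2) (nat_lit 0) (nat_lit 7) (nat_lit 5) (nat_lit 213) (nat_lit 132) r4_213 r11_132 (nat_lit 0) (nat_lit 13764592) (nat_lit 0) (nat_lit 0x8088c91ca) (nat_lit 543663854),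
  Rx.mk (nat_lit 472) (nat_lit 0) (nat_lit 3) (nat_lit 7) (nat_lit 6) (nat_lit 214) (nat_lit 126) r4_214 r11_126 (nat_lit 10106242) (nat_lit 0) (nat_lit 0) (nat_lit 0x8153a01f0) (nat_lit 527714454),
  Rx.mk (nat_lit 474) (nat_lit 2) (nat_lit 3) (nat_lit 7) (nat_lit 7) (nat_lit 215) (nat_lit 133) r4_215 r11_133 (nat_lit 0) (nat_lit 0) (nat_lit 0) (nat_lit 0x807403de4) (nat_lit 531198062),
  Rx.mk (nat_lit 475) (nat_lit 3) (nat_lit 3) (nat_lit 7) (nat_lit 7) (nat_lit 216) (nat_lit 128) r4_216 r11_128 (nat_lit 0) (nat_lit 0) (nat_lit 0) (nat_lit 0x80812fcde) (nat_lit 530394062)]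
noncomputable def e18_21 : List Rx := [
  Rx.mk (nat_lit 66) (nat_lit 2) (nat_lit 0) (nat_lit 1) (nat_lit 5) (nat_lit 273) (nat_lit 167) r4_273 r9_167 (nat_lit 0) (nat_lit 24741287) (nat_lit 0) (nat_lit 0x7fff3afc6) (nat_lit 563104399),
  Rx.mk (nat_lit 74) (nat_lit 2) (nat_lit 1) (nat_lit 1) (nat_lit 7) (nat_lit 274) (nat_lit 168) r4_274 r9_168 (nat_lit 0) (nat_lit 0) (nat_lit 0) (nat_lit 0x8017985b4) (nat_lit 536870912),
  Rx.mk (nat_lit 82) (nat_lit 2) (nat_lit 2) (nat_lit 1) (nat_lit 7) (nat_lit 275) (nat_lit 169) r4_275 r9_169 (nat_lit 0) (nat_lit 0) (nat_lit 0) (nat_lit 0x8017985b4) (nat_lit 536870912)]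
noncomputable def e18_22 : List Rx := [
  Rx.mk (nat_lit 264) (nat_lit 0) (nat_lit 1) (nat_lit 4) (nat_lit 2) (nat_lit 253) (nat_lit 306) r4_253 r0_306 (nat_lit 9185379) (nat_lit 0) (nat_lit 44700456) (nat_lit 0x69c6a03b6) (nat_lit 950753297),
  Rx.mk (nat_lit 265) (nat_lit 1) (nat_lit 1) (nat_lit 4) (nat_lit 3) (nat_lit 254) (nat_lit 307) r4_254 r0_307 (nat_lit 0) (nat_lit 0) (nat_lit 190947877) (nat_lit 0x781662364) (nat_lit 856023289),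
  Rx.mk (nat_lit 266) (nat_lit 2) (nat_lit 1) (nat_lit 4) (nat_lit 3) (nat_lit 255) (nat_lit 308) r4_255 r0_308 (nat_lit 0) (nat_lit 0) (nat_lit 34510458) (nat_lit 0x7fea14354) (nat_lit 574129370),
  Rx.mk (nat_lit 320) (nat_lit 0) (nat_lit 0) (nat_lit 5) (nat_lit 4) (nat_lit 256) (nat_lit 309) r4_256 r0_309 (nat_lit 33909295) (nat_lit 19670024) (nat_lit 0) (nat_lit 0x680c7e7d6) (nat_lit 978281281),
  Rx.mk (nat_lit 321) (nat_lit 1) (nat_lit 0) (nat_lit 5) (nat_lit 5) (nat_lit 257) (nat_lit 311) r4_257 r0_311 (nat_lit 0) (nat_lit 27415859) (nat_lit 0) (nat_lit 0x8000d8c2a) (nat_lit 565665771),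
  Rx.mk (nat_lit 322) (nat_lit 2) (nat_lit 0) (nat_lit 5) (nat_lit 5) (nat_lit 258) (nat_lit 313) r4_258 r0_313 (nat_lit 0) (nat_lit 29629750) (nat_lit 0) (nat_lit 0x7db4131bc) (nat_lit 604586362),
  Rx.mk (nat_lit 328) (nat_lit 0) (nat_lit 1) (nat_lit 5) (nat_lit 6) (nat_lit 259) (nat_lit 310) r4_259 r0_310 (nat_lit 25313016) (nat_lit 0) (nat_lit 0) (nat_lit 0x7f09601dc) (nat_lit 578840728),
  Rx.mk (nat_lit 329) (nat_lit 1) (nat_lit 1) (nat_lit 5) (nat_lit 7) (nat_lit 260) (nat_lit 312) r4_260 r0_312 (nat_lit 0) (nat_lit 0) (nat_lit 0) (nat_lit 0x80abe37c8) (nat_lit 527783112),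
  Rx.mk (nat_lit 330) (nat_lit 2) (nat_lit 1) (nat_lit 5) (nat_lit 7) (nat_lit 261) (nat_lit 314) r4_261 r0_314 (nat_lit 0) (nat_lit 0) (nat_lit 0) (nat_lit 0x8024ca73c) (nat_lit 536043112)]
noncomputable def e18_23 : List Rx := [
  Rx.mk (nat_lit 264) (nat_lit 0) (nat_lit 1) (nat_lit 4) (nat_lit 2) (nat_lit 293) (nat_lit 297) r4_293 r1_297 (nat_lit 16666109) (nat_lit 0) (nat_lit 79659509) (nat_lit 0x6e82c4200) (nat_lit 916697780),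
  Rx.mk (nat_lit 265) (nat_lit 1) (nat_lit 1) (nat_lit 4) (nat_lit 3) (nat_lit 294) (nat_lit 298) r4_294 r1_298 (nat_lit 0) (nat_lit 0) (nat_lit 132162371) (nat_lit 0x7a51f7832) (nat_lit 761496733),
  Rx.mk (nat_lit 266) (nat_lit 2) (nat_lit 1) (nat_lit 4) (nat_lit 3) (nat_lit 295) (nat_lit 299) r4_295 r1_299 (nat_lit 0) (nat_lit 0) (nat_lit 29428945) (nat_lit 0x800d7d0e8) (nat_lit 566895407),
  Rx.mk (nat_lit 328) (nat_lit 0) (nat_lit 1) (nat_lit 5) (nat_lit 6) (nat_lit 296) (nat_lit 300) r4_296 r1_300 (nat_lit 21556671) (nat_lit 0) (nat_lit 0) (nat_lit 0x801c58cca) (nat_lit 558112583),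
  Rx.mk (nat_lit 329) (nat_lit 1) (nat_lit 1) (nat_lit 5) (nat_lit 7) (nat_lit 297) (nat_lit 301) r4_297 r1_301 (nat_lit 0) (nat_lit 0) (nat_lit 0) (nat_lit 0x80b000be4) (nat_lit 527525712),
  Rx.mk (nat_lit 330) (nat_lit 2) (nat_lit 1) (nat_lit 5) (nat_lit 7) (nat_lit 298) (nat_lit 302) r4_298 r1_302 (nat_lit 0) (nat_lit 0) (nat_lit 0) (nat_lit 0x80691f28e) (nat_lit 531863312)]
noncomputable def e18_24 : List Rx := [
  Rx.mk (nat_lit 256) (nat_lit 0) (nat_lit 0) (nat_lit 4) (nat_lit 0) (nat_lit 327) (nat_lit 327) r4_327 r4_327 (nat_lit 6283487) (nat_lit 6283487) (nat_lit 21773644) (nat_lit 0x61999ca2a) (nat_lit 1063393080),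
  Rx.mk (nat_lit 257) (nat_lit 1) (nat_lit 0) (nat_lit 4) (nat_lit 1) (nat_lit 328) (nat_lit 330) r4_328 r4_330 (nat_lit 0) (nat_lit 11437457) (nat_lit 48279250) (nat_lit 0x777352bce) (nat_lit 735513319),
  Rx.mk (nat_lit 258) (nat_lit 2) (nat_lit 0) (nat_lit 4) (nat_lit 1) (nat_lit 329) (nat_lit 333) r4_329 r4_333 (nat_lit 0) (nat_lit 24376439) (nat_lit 32031949) (nat_lit 0x794b04102) (nat_lit 702517800),
  Rx.mk (nat_lit 264) (nat_lit 0) (nat_lit 1) (nat_lit 4) (nat_lit 2) (nat_lit 330) (nat_lit 328) r4_330 r4_328 (nat_lit 11437457) (nat_lit 0) (nat_lit 48279250) (nat_lit 0x777352bce) (nat_lit 735513319),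
  Rx.mk (nat_lit 265) (nat_lit 1) (nat_lit 1) (nat_lit 4) (nat_lit 3) (nat_lit 331) (nat_lit 331) r4_331 r4_331 (nat_lit 0) (nat_lit 0) (nat_lit 25419834) (nat_lit 0x7ffc8b384) (nat_lit 563917346),
  Rx.mk (nat_lit 266) (nat_lit 2) (nat_lit 1) (nat_lit 4) (nat_lit 3) (nat_lit 332) (nat_lit 334) r4_332 r4_334 (nat_lit 0) (nat_lit 0) (nat_lit 24741287) (nat_lit 0x8053c497a) (nat_lit 557914449),
  Rx.mk (nat_lit 280) (nat_lit 0) (nat_lit 3) (nat_lit 4) (nat_lit 2) (nat_lit 333) (nat_lit 329) r4_333 r4_329 (nat_lit 24376439) (nat_lit 0) (nat_lit 32031949) (nat_lit 0x794b04102) (nat_lit 702517800),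
  Rx.mk (nat_lit 281) (nat_lit 1) (nat_lit 3) (nat_lit 4) (nat_lit 3) (nat_lit 334) (nat_lit 332) r4_334 r4_332 (nat_lit 0) (nat_lit 0) (nat_lit 24741287) (nat_lit 0x8053c497a) (nat_lit 557914449),
  Rx.mk (nat_lit 320) (nat_lit 0) (nat_lit 0) (nat_lit 5) (nat_lit 4) (nat_lit 335) (nat_lit 335) r4_335 r4_335 (nat_lit 90649037) (nat_lit 90649037) (nat_lit 0) (nat_lit 0x7d5b0546c) (nat_lit 761817136),
  Rx.mk (nat_lit 321) (nat_lit 1) (nat_lit 0) (nat_lit 5) (nat_lit 5) (nat_lit 336) (nat_lit 338) r4_336 r4_338 (nat_lit 0) (nat_lit 24741287) (nat_lit 0) (nat_lit 0x8017985b4) (nat_lit 561612199),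
  Rx.mk (nat_lit 322) (nat_lit 2) (nat_lit 0) (nat_lit 5) (nat_lit 5) (nat_lit 337) (nat_lit 341) r4_337 r4_341 (nat_lit 0) (nat_lit 28361871) (nat_lit 0) (nat_lit 0x7f9b8ef18) (nat_lit 572839333),
  Rx.mk (nat_lit 328) (nat_lit 0) (nat_lit 1) (nat_lit 5) (nat_lit 6) (nat_lit 338) (nat_lit 336) r4_338 r4_336 (nat_lit 24741287) (nat_lit 0) (nat_lit 0) (nat_lit 0x8017985b4) (nat_lit 561612199),
  Rx.mk (nat_lit 329) (nat_lit 1) (nat_lit 1) (nat_lit 5) (nat_lit 7) (nat_lit 339) (nat_lit 339) r4_339 r4_339 (nat_lit 0) (nat_lit 0) (nat_lit 0) (nat_lit 0x8017985b4) (nat_lit 536870912),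
  Rx.mk (nat_lit 330) (nat_lit 2) (nat_lit 1) (nat_lit 5) (nat_lit 7) (nat_lit 340) (nat_lit 342) r4_340 r4_342 (nat_lit 0) (nat_lit 0) (nat_lit 0) (nat_lit 0x8017985b4) (nat_lit 536870912),
  Rx.mk (nat_lit 344) (nat_lit 0) (nat_lit 3) (nat_lit 5) (nat_lit 6) (nat_lit 341) (nat_lit 337) r4_341 r4_337 (nat_lit 28361871) (nat_lit 0) (nat_lit 0) (nat_lit 0x7f9b8ef18) (nat_lit 572839333),
  Rx.mk (nat_lit 345) (nat_lit 1) (nat_lit 3) (nat_lit 5) (nat_lit 7) (nat_lit 342) (nat_lit 340) r4_342 r4_340 (nat_lit 0) (nat_lit 0) (nat_lit 0) (nat_lit 0x8017985b4) (nat_lit 536870912)]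
noncomputable def e18_25 : List Rx := [
  Rx.mk (nat_lit 320) (nat_lit 0) (nat_lit 0) (nat_lit 5) (nat_lit 4) (nat_lit 265) (nat_lit 223) r4_265 r7_223 (nat_lit 51960859) (nat_lit 26363677) (nat_lit 0) (nat_lit 0x6eea423dc) (nat_lit 892140698),
  Rx.mk (nat_lit 321) (nat_lit 1) (nat_lit 0) (nat_lit 5) (nat_lit 5) (nat_lit 266) (nat_lit 224) r4_266 r7_224 (nat_lit 0) (nat_lit 24741287) (nat_lit 0) (nat_lit 0x8017985b4) (nat_lit 561612199),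
  Rx.mk (nat_lit 322) (nat_lit 2) (nat_lit 0) (nat_lit 5) (nat_lit 5) (nat_lit 267) (nat_lit 225) r4_267 r7_225 (nat_lit 0) (nat_lit 28981807) (nat_lit 0) (nat_lit 0x7fc4d7cda) (nat_lit 570932769),
  Rx.mk (nat_lit 328) (nat_lit 0) (nat_lit 1) (nat_lit 5) (nat_lit 6) (nat_lit 268) (nat_lit 226) r4_268 r7_226 (nat_lit 24741287) (nat_lit 0) (nat_lit 0) (nat_lit 0x8017985b4) (nat_lit 561612199),
  Rx.mk (nat_lit 329) (nat_lit 1) (nat_lit 1) (nat_lit 5) (nat_lit 7) (nat_lit 269) (nat_lit 227) r4_269 r7_227 (nat_lit 0) (nat_lit 0) (nat_lit 0) (nat_lit 0x8017985b4) (nat_lit 536870912),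
  Rx.mk (nat_lit 330) (nat_lit 2) (nat_lit 1) (nat_lit 5) (nat_lit 7) (nat_lit 270) (nat_lit 228) r4_270 r7_228 (nat_lit 0) (nat_lit 0) (nat_lit 0) (nat_lit 0x8017985b4) (nat_lit 536870912)]
noncomputable def e18_26 : List Rx := [
  Rx.mk (nat_lit 328) (nat_lit 0) (nat_lit 1) (nat_lit 5) (nat_lit 6) (nat_lit 304) (nat_lit 181) r4_304 r8_181 (nat_lit 24372871) (nat_lit 0) (nat_lit 0) (nat_lit 0x7fec7bb1a) (nat_lit 563885983),
  Rx.mk (nat_lit 329) (nat_lit 1) (nat_lit 1) (nat_lit 5) (nat_lit 7) (nat_lit 305) (nat_lit 182) r4_305 r8_182 (nat_lit 0) (nat_lit 0) (nat_lit 0) (nat_lit 0x8017985b4) (nat_lit 536870912),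
  Rx.mk (nat_lit 330) (nat_lit 2) (nat_lit 1) (nat_lit 5) (nat_lit 7) (nat_lit 306) (nat_lit 183) r4_306 r8_183 (nat_lit 0) (nat_lit 0) (nat_lit 0) (nat_lit 0x8017985b4) (nat_lit 536870912)]
noncomputable def e18_27 : List Rx := [
  Rx.mk (nat_lit 66) (nat_lit 2) (nat_lit 0) (nat_lit 1) (nat_lit 5) (nat_lit 284) (nat_lit 338) r4_284 r8_338 (nat_lit 0) (nat_lit 24741287) (nat_lit 0) (nat_lit 0x8017985b4) (nat_lit 561612199),
  Rx.mk (nat_lit 74) (nat_lit 2) (nat_lit 1) (nat_lit 1) (nat_lit 7) (nat_lit 285) (nat_lit 339) r4_285 r8_339 (nat_lit 0) (nat_lit 0) (nat_lit 0) (nat_lit 0x8017985b4) (nat_lit 536870912),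
  Rx.mk (nat_lit 82) (nat_lit 2) (nat_lit 2) (nat_lit 1) (nat_lit 7) (nat_lit 286) (nat_lit 340) r4_286 r8_340 (nat_lit 0) (nat_lit 0) (nat_lit 0) (nat_lit 0x8017985b4) (nat_lit 536870912),
  Rx.mk (nat_lit 320) (nat_lit 0) (nat_lit 0) (nat_lit 5) (nat_lit 4) (nat_lit 287) (nat_lit 341) r4_287 r8_341 (nat_lit 34758505) (nat_lit 27124229) (nat_lit 0) (nat_lit 0x700d128ac) (nat_lit 857380996),
  Rx.mk (nat_lit 321) (nat_lit 1) (nat_lit 0) (nat_lit 5) (nat_lit 5) (nat_lit 288) (nat_lit 343) r4_288 r8_343 (nat_lit 0) (nat_lit 24741287) (nat_lit 0) (nat_lit 0x7ff500268) (nat_lit 563728899),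
  Rx.mk (nat_lit 322) (nat_lit 2) (nat_lit 0) (nat_lit 5) (nat_lit 5) (nat_lit 289) (nat_lit 345) r4_289 r8_345 (nat_lit 0) (nat_lit 24741287) (nat_lit 0) (nat_lit 0x8017985b4) (nat_lit 561612199),
  Rx.mk (nat_lit 328) (nat_lit 0) (nat_lit 1) (nat_lit 5) (nat_lit 6) (nat_lit 290) (nat_lit 342) r4_290 r8_342 (nat_lit 24741287) (nat_lit 0) (nat_lit 0) (nat_lit 0x8017985b4) (nat_lit 561612199),
  Rx.mk (nat_lit 329) (nat_lit 1) (nat_lit 1) (nat_lit 5) (nat_lit 7) (nat_lit 291) (nat_lit 344) r4_291 r8_344 (nat_lit 0) (nat_lit 0) (nat_lit 0) (nat_lit 0x8017985b4) (nat_lit 536870912),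
  Rx.mk (nat_lit 330) (nat_lit 2) (nat_lit 1) (nat_lit 5) (nat_lit 7) (nat_lit 292) (nat_lit 346) r4_292 r8_346 (nat_lit 0) (nat_lit 0) (nat_lit 0) (nat_lit 0x8017985b4) (nat_lit 536870912)]
noncomputable def e18_28 : List Rx := [
  Rx.mk (nat_lit 320) (nat_lit 0) (nat_lit 0) (nat_lit 5) (nat_lit 4) (nat_lit 355) (nat_lit 175) r4_355 r10_175 (nat_lit 46258346) (nat_lit 35822015) (nat_lit 0) (nat_lit 0x73116d7f0) (nat_lit 828766423),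
  Rx.mk (nat_lit 321) (nat_lit 1) (nat_lit 0) (nat_lit 5) (nat_lit 5) (nat_lit 356) (nat_lit 176) r4_356 r10_176 (nat_lit 0) (nat_lit 24741287) (nat_lit 0) (nat_lit 0x801405032) (nat_lit 561834699),
  Rx.mk (nat_lit 322) (nat_lit 2) (nat_lit 0) (nat_lit 5) (nat_lit 5) (nat_lit 357) (nat_lit 177) r4_357 r10_177 (nat_lit 0) (nat_lit 25246541) (nat_lit 0) (nat_lit 0x7fe66bc2a) (nat_lit 565123853),
  Rx.mk (nat_lit 328) (nat_lit 0) (nat_lit 1) (nat_lit 5) (nat_lit 6) (nat_lit 358) (nat_lit 178) r4_358 r10_178 (nat_lit 24741287) (nat_lit 0) (nat_lit 0) (nat_lit 0x8017985b4) (nat_lit 561612199),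
  Rx.mk (nat_lit 329) (nat_lit 1) (nat_lit 1) (nat_lit 5) (nat_lit 7) (nat_lit 359) (nat_lit 179) r4_359 r10_179 (nat_lit 0) (nat_lit 0) (nat_lit 0) (nat_lit 0x8017985b4) (nat_lit 536870912),
  Rx.mk (nat_lit 330) (nat_lit 2) (nat_lit 1) (nat_lit 5) (nat_lit 7) (nat_lit 360) (nat_lit 180) r4_360 r10_180 (nat_lit 0) (nat_lit 0) (nat_lit 0) (nat_lit 0x8017985b4) (nat_lit 536870912),
  Rx.mk (nat_lit 344) (nat_lit 0) (nat_lit 3) (nat_lit 5) (nat_lit 6) (nat_lit 361) (nat_lit 181) r4_361 r10_181 (nat_lit 28199854) (nat_lit 0) (nat_lit 0) (nat_lit 0x800201570) (nat_lit 566376116),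
  Rx.mk (nat_lit 345) (nat_lit 1) (nat_lit 3) (nat_lit 5) (nat_lit 7) (nat_lit 362) (nat_lit 182) r4_362 r10_182 (nat_lit 0) (nat_lit 0) (nat_lit 0) (nat_lit 0x8017985b4) (nat_lit 536870912)]
noncomputable def e18_29 : List Rx := [
  Rx.mk (nat_lit 256) (nat_lit 0) (nat_lit 0) (nat_lit 4) (nat_lit 0) (nat_lit 381) (nat_lit 191) r4_381 r11_191 (nat_lit 15710614) (nat_lit 17952672) (nat_lit 17913539) (nat_lit 0x5f1b5dba2) (nat_lit 1121002137),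
  Rx.mk (nat_lit 257) (nat_lit 1) (nat_lit 0) (nat_lit 4) (nat_lit 1) (nat_lit 382) (nat_lit 194) r4_382 r11_194 (nat_lit 0) (nat_lit 27647826) (nat_lit 34329630) (nat_lit 0x7e54987ea) (nat_lit 626865718),
  Rx.mk (nat_lit 258) (nat_lit 2) (nat_lit 0) (nat_lit 4) (nat_lit 1) (nat_lit 383) (nat_lit 196) r4_383 r11_196 (nat_lit 0) (nat_lit 28646946) (nat_lit 30009416) (nat_lit 0x7b26b540c) (nat_lit 674773074),
  Rx.mk (nat_lit 264) (nat_lit 0) (nat_lit 1) (nat_lit 4) (nat_lit 2) (nat_lit 384) (nat_lit 199) r4_384 r11_199 (nat_lit 27870751) (nat_lit 0) (nat_lit 35726227) (nat_lit 0x779980b0c) (nat_lit 737097740),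
  Rx.mk (nat_lit 265) (nat_lit 1) (nat_lit 1) (nat_lit 4) (nat_lit 3) (nat_lit 385) (nat_lit 202) r4_385 r11_202 (nat_lit 0) (nat_lit 0) (nat_lit 26112240) (nat_lit 0x7f458b346) (nat_lit 575951702),
  Rx.mk (nat_lit 266) (nat_lit 2) (nat_lit 1) (nat_lit 4) (nat_lit 3) (nat_lit 386) (nat_lit 204) r4_386 r11_204 (nat_lit 0) (nat_lit 0) (nat_lit 24741287) (nat_lit 0x8017985b4) (nat_lit 561612199),
  Rx.mk (nat_lit 280) (nat_lit 0) (nat_lit 3) (nat_lit 4) (nat_lit 2) (nat_lit 387) (nat_lit 207) r4_387 r11_207 (nat_lit 29502798) (nat_lit 0) (nat_lit 27912229) (nat_lit 0x78d0f8fca) (nat_lit 711254839),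
  Rx.mk (nat_lit 281) (nat_lit 1) (nat_lit 3) (nat_lit 4) (nat_lit 3) (nat_lit 388) (nat_lit 209) r4_388 r11_209 (nat_lit 0) (nat_lit 0) (nat_lit 24741287) (nat_lit 0x8017985b4) (nat_lit 561612199),
  Rx.mk (nat_lit 283) (nat_lit 3) (nat_lit 3) (nat_lit 4) (nat_lit 3) (nat_lit 389) (nat_lit 210) r4_389 r11_210 (nat_lit 0) (nat_lit 0) (nat_lit 24741287) (nat_lit 0x8017985b4) (nat_lit 561612199),
  Rx.mk (nat_lit 320) (nat_lit 0) (nat_lit 0) (nat_lit 5) (nat_lit 4) (nat_lit 390) (nat_lit 192) r4_390 r11_192 (nat_lit 20049231) (nat_lit 96193341) (nat_lit 0) (nat_lit 0x7b255b444) (nat_lit 732377384),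
  Rx.mk (nat_lit 322) (nat_lit 2) (nat_lit 0) (nat_lit 5) (nat_lit 5) (nat_lit 391) (nat_lit 197) r4_391 r11_197 (nat_lit 0) (nat_lit 30058585) (nat_lit 0) (nat_lit 0x7fbf63a4c) (nat_lit 572343247),
  Rx.mk (nat_lit 328) (nat_lit 0) (nat_lit 1) (nat_lit 5) (nat_lit 6) (nat_lit 392) (nat_lit 200) r4_392 r11_200 (nat_lit 24741287) (nat_lit 0) (nat_lit 0) (nat_lit 0x8017985b4) (nat_lit 561612199),
  Rx.mk (nat_lit 330) (nat_lit 2) (nat_lit 1) (nat_lit 5) (nat_lit 7) (nat_lit 393) (nat_lit 205) r4_393 r11_205 (nat_lit 0) (nat_lit 0) (nat_lit 0) (nat_lit 0x8017985b4) (nat_lit 536870912),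
  Rx.mk (nat_lit 344) (nat_lit 0) (nat_lit 3) (nat_lit 5) (nat_lit 6) (nat_lit 394) (nat_lit 208) r4_394 r11_208 (nat_lit 23934074) (nat_lit 0) (nat_lit 0) (nat_lit 0x7fe6d46d0) (nat_lit 563795286),
  Rx.mk (nat_lit 347) (nat_lit 3) (nat_lit 3) (nat_lit 5) (nat_lit 7) (nat_lit 395) (nat_lit 211) r4_395 r11_211 (nat_lit 0) (nat_lit 0) (nat_lit 0) (nat_lit 0x8017985b4) (nat_lit 536870912),
  Rx.mk (nat_lit 448) (nat_lit 0) (nat_lit 0) (nat_lit 7) (nat_lit 4) (nat_lit 396) (nat_lit 193) r4_396 r11_193 (nat_lit 30793545) (nat_lit 30793545) (nat_lit 0) (nat_lit 0x7da382596) (nat_lit 637575952),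
  Rx.mk (nat_lit 449) (nat_lit 1) (nat_lit 0) (nat_lit 7) (nat_lit 5) (nat_lit 397) (nat_lit 195) r4_397 r11_195 (nat_lit 0) (nat_lit 24741287) (nat_lit 0) (nat_lit 0x8017985b4) (nat_lit 561612199),
  Rx.mk (nat_lit 450) (nat_lit 2) (nat_lit 0) (nat_lit 7) (nat_lit 5) (nat_lit 398) (nat_lit 198) r4_398 r11_198 (nat_lit 0) (nat_lit 24741287) (nat_lit 0) (nat_lit 0x8017985b4) (nat_lit 561612199),
  Rx.mk (nat_lit 456) (nat_lit 0) (nat_lit 1) (nat_lit 7) (nat_lit 6) (nat_lit 399) (nat_lit 201) r4_399 r11_201 (nat_lit 24741287) (nat_lit 0) (nat_lit 0) (nat_lit 0x8017985b4) (nat_lit 561612199),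
  Rx.mk (nat_lit 457) (nat_lit 1) (nat_lit 1) (nat_lit 7) (nat_lit 7) (nat_lit 400) (nat_lit 203) r4_400 r11_203 (nat_lit 0) (nat_lit 0) (nat_lit 0) (nat_lit 0x8017985b4) (nat_lit 536870912),
  Rx.mk (nat_lit 458) (nat_lit 2) (nat_lit 1) (nat_lit 7) (nat_lit 7) (nat_lit 401) (nat_lit 206) r4_401 r11_206 (nat_lit 0) (nat_lit 0) (nat_lit 0) (nat_lit 0x8017985b4) (nat_lit 536870912)]
noncomputable def e18_30 : List Rx := [
  Rx.mk (nat_lit 218) (nat_lit 2) (nat_lit 3) (nat_lit 3) (nat_lit 7) (nat_lit 58) (nat_lit 33) r4_58 r5_33 (nat_lit 0) (nat_lit 0) (nat_lit 0) (nat_lit 0x7f5b0655e) (nat_lit 548352312),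
  Rx.mk (nat_lit 315) (nat_lit 3) (nat_lit 7) (nat_lit 4) (nat_lit 3) (nat_lit 59) (nat_lit 27) r4_59 r5_27 (nat_lit 0) (nat_lit 0) (nat_lit 6174630) (nat_lit 0x7de1761fe) (nat_lit 578007592),
  Rx.mk (nat_lit 443) (nat_lit 3) (nat_lit 7) (nat_lit 6) (nat_lit 7) (nat_lit 60) (nat_lit 32) r4_60 r5_32 (nat_lit 0) (nat_lit 0) (nat_lit 0) (nat_lit 0x80483a47e) (nat_lit 532926012),
  Rx.mk (nat_lit 472) (nat_lit 0) (nat_lit 3) (nat_lit 7) (nat_lit 6) (nat_lit 61) (nat_lit 30) r4_61 r5_30 (nat_lit 2696286) (nat_lit 0) (nat_lit 0) (nat_lit 0x7ed2b6d5c) (nat_lit 559201548),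
  Rx.mk (nat_lit 474) (nat_lit 2) (nat_lit 3) (nat_lit 7) (nat_lit 7) (nat_lit 62) (nat_lit 31) r4_62 r5_31 (nat_lit 0) (nat_lit 0) (nat_lit 0) (nat_lit 0x80e735e2a) (nat_lit 524112462),
  Rx.mk (nat_lit 504) (nat_lit 0) (nat_lit 7) (nat_lit 7) (nat_lit 6) (nat_lit 63) (nat_lit 28) r4_63 r5_28 (nat_lit 8135991) (nat_lit 0) (nat_lit 0) (nat_lit 0x79057fe38) (nat_lit 658530703),
  Rx.mk (nat_lit 507) (nat_lit 3) (nat_lit 7) (nat_lit 7) (nat_lit 7) (nat_lit 64) (nat_lit 29) r4_64 r5_29 (nat_lit 0) (nat_lit 0) (nat_lit 0) (nat_lit 0x80009fe20) (nat_lit 538237112)]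
noncomputable def e18_31 : List Rx := [
  Rx.mk (nat_lit 218) (nat_lit 2) (nat_lit 3) (nat_lit 3) (nat_lit 7) (nat_lit 143) (nat_lit 8) r4_143 r11_8 (nat_lit 0) (nat_lit 0) (nat_lit 0) (nat_lit 0x7ff232496) (nat_lit 539166062)]
noncomputable def e18_32 : List Rx := [
  Rx.mk (nat_lit 280) (nat_lit 0) (nat_lit 3) (nat_lit 4) (nat_lit 2) (nat_lit 217) (nat_lit 338) r4_217 r6_338 (nat_lit 129197) (nat_lit 0) (nat_lit 164206) (nat_lit 0x795e5323a) (nat_lit 644442165),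
  Rx.mk (nat_lit 281) (nat_lit 1) (nat_lit 3) (nat_lit 4) (nat_lit 3) (nat_lit 218) (nat_lit 341) r4_218 r6_341 (nat_lit 0) (nat_lit 0) (nat_lit 12015582) (nat_lit 0x8043b9b16) (nat_lit 546056094),
  Rx.mk (nat_lit 282) (nat_lit 2) (nat_lit 3) (nat_lit 4) (nat_lit 3) (nat_lit 219) (nat_lit 343) r4_219 r6_343 (nat_lit 0) (nat_lit 0) (nat_lit 14660822) (nat_lit 0x80a2e9ac8) (nat_lit 542985584),
  Rx.mk (nat_lit 312) (nat_lit 0) (nat_lit 7) (nat_lit 4) (nat_lit 2) (nat_lit 220) (nat_lit 337) r4_220 r6_337 (nat_lit 3315579) (nat_lit 0) (nat_lit 4357312) (nat_lit 0x66141debc) (nat_lit 964156353),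
  Rx.mk (nat_lit 313) (nat_lit 1) (nat_lit 7) (nat_lit 4) (nat_lit 3) (nat_lit 221) (nat_lit 340) r4_221 r6_340 (nat_lit 0) (nat_lit 0) (nat_lit 9659627) (nat_lit 0x7fc83bdd6) (nat_lit 551234539),
  Rx.mk (nat_lit 440) (nat_lit 0) (nat_lit 7) (nat_lit 6) (nat_lit 6) (nat_lit 222) (nat_lit 339) r4_222 r6_339 (nat_lit 79150) (nat_lit 0) (nat_lit 0) (nat_lit 0x53f546c4e) (nat_lit 1249167362),
  Rx.mk (nat_lit 441) (nat_lit 1) (nat_lit 7) (nat_lit 6) (nat_lit 7) (nat_lit 223) (nat_lit 342) r4_223 r6_342 (nat_lit 0) (nat_lit 0) (nat_lit 0) (nat_lit 0x801c163de) (nat_lit 536140862)]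
noncomputable def e18_33 : List Rx := [
  Rx.mk (nat_lit 280) (nat_lit 0) (nat_lit 3) (nat_lit 4) (nat_lit 2) (nat_lit 343) (nat_lit 297) r4_343 r5_297 (nat_lit 4914536) (nat_lit 0) (nat_lit 8412019) (nat_lit 0x7692903ac) (nat_lit 703204217),
  Rx.mk (nat_lit 281) (nat_lit 1) (nat_lit 3) (nat_lit 4) (nat_lit 3) (nat_lit 344) (nat_lit 298) r4_344 r5_298 (nat_lit 0) (nat_lit 0) (nat_lit 16948508) (nat_lit 0x809c7b0d8) (nat_lit 545627870),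
  Rx.mk (nat_lit 282) (nat_lit 2) (nat_lit 3) (nat_lit 4) (nat_lit 3) (nat_lit 345) (nat_lit 299) r4_345 r5_299 (nat_lit 0) (nat_lit 0) (nat_lit 16388111) (nat_lit 0x805f52918) (nat_lit 548834573),
  Rx.mk (nat_lit 344) (nat_lit 0) (nat_lit 3) (nat_lit 5) (nat_lit 6) (nat_lit 346) (nat_lit 300) r4_346 r5_300 (nat_lit 2837782) (nat_lit 0) (nat_lit 0) (nat_lit 0x88d4b3178) (nat_lit 405532494),
  Rx.mk (nat_lit 345) (nat_lit 1) (nat_lit 3) (nat_lit 5) (nat_lit 7) (nat_lit 347) (nat_lit 301) r4_347 r5_301 (nat_lit 0) (nat_lit 0) (nat_lit 0) (nat_lit 0x8942acc88) (nat_lit 396280012),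
  Rx.mk (nat_lit 346) (nat_lit 2) (nat_lit 3) (nat_lit 5) (nat_lit 7) (nat_lit 348) (nat_lit 302) r4_348 r5_302 (nat_lit 0) (nat_lit 0) (nat_lit 0) (nat_lit 0x816422d98) (nat_lit 516613662)]
noncomputable def e18_34 : List Rx := [
  Rx.mk (nat_lit 344) (nat_lit 0) (nat_lit 3) (nat_lit 5) (nat_lit 6) (nat_lit 363) (nat_lit 353) r4_363 r11_353 (nat_lit 18792813) (nat_lit 0) (nat_lit 0) (nat_lit 0x7fd5d2af8) (nat_lit 559647725),
  Rx.mk (nat_lit 345) (nat_lit 1) (nat_lit 3) (nat_lit 5) (nat_lit 7) (nat_lit 364) (nat_lit 354) r4_364 r11_354 (nat_lit 0) (nat_lit 0) (nat_lit 0) (nat_lit 0x8047a5cb6) (nat_lit 533919512),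
  Rx.mk (nat_lit 346) (nat_lit 2) (nat_lit 3) (nat_lit 5) (nat_lit 7) (nat_lit 365) (nat_lit 355) r4_365 r11_355 (nat_lit 0) (nat_lit 0) (nat_lit 0) (nat_lit 0x8026a1380) (nat_lit 535916512)]
noncomputable def e18_35 : List Rx := [
  Rx.mk (nat_lit 312) (nat_lit 0) (nat_lit 7) (nat_lit 4) (nat_lit 2) (nat_lit 78) (nat_lit 62) r4_78 r6_62 (nat_lit 2670845) (nat_lit 0) (nat_lit 3814909) (nat_lit 0x6861eb944) (nat_lit 925706566),
  Rx.mk (nat_lit 313) (nat_lit 1) (nat_lit 7) (nat_lit 4) (nat_lit 3) (nat_lit 79) (nat_lit 63) r4_79 r6_63 (nat_lit 0) (nat_lit 0) (nat_lit 9313182) (nat_lit 0x8051e9268) (nat_lit 542445944),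
  Rx.mk (nat_lit 315) (nat_lit 3) (nat_lit 7) (nat_lit 4) (nat_lit 3) (nat_lit 80) (nat_lit 64) r4_80 r6_64 (nat_lit 0) (nat_lit 0) (nat_lit 10422876) (nat_lit 0x7e366a3fe) (nat_lit 577077388),
  Rx.mk (nat_lit 440) (nat_lit 0) (nat_lit 7) (nat_lit 6) (nat_lit 6) (nat_lit 81) (nat_lit 67) r4_81 r6_67 (nat_lit 136651) (nat_lit 0) (nat_lit 0) (nat_lit 0x6297d7fc2) (nat_lit 1012582363),
  Rx.mk (nat_lit 441) (nat_lit 1) (nat_lit 7) (nat_lit 6) (nat_lit 7) (nat_lit 82) (nat_lit 68) r4_82 r6_68 (nat_lit 0) (nat_lit 0) (nat_lit 0) (nat_lit 0x80f6273ca) (nat_lit 522994062),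
  Rx.mk (nat_lit 443) (nat_lit 3) (nat_lit 7) (nat_lit 6) (nat_lit 7) (nat_lit 83) (nat_lit 69) r4_83 r6_69 (nat_lit 0) (nat_lit 0) (nat_lit 0) (nat_lit 0x80d433d36) (nat_lit 525049262),
  Rx.mk (nat_lit 472) (nat_lit 0) (nat_lit 3) (nat_lit 7) (nat_lit 6) (nat_lit 84) (nat_lit 59) r4_84 r6_59 (nat_lit 5828454) (nat_lit 0) (nat_lit 0) (nat_lit 0x7fc27fd8e) (nat_lit 547632616),
  Rx.mk (nat_lit 473) (nat_lit 1) (nat_lit 3) (nat_lit 7) (nat_lit 7) (nat_lit 85) (nat_lit 60) r4_85 r6_60 (nat_lit 0) (nat_lit 0) (nat_lit 0) (nat_lit 0x80fddf1bc) (nat_lit 522806362),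
  Rx.mk (nat_lit 474) (nat_lit 2) (nat_lit 3) (nat_lit 7) (nat_lit 7) (nat_lit 86) (nat_lit 61) r4_86 r6_61 (nat_lit 0) (nat_lit 0) (nat_lit 0) (nat_lit 0x80efb1ee6) (nat_lit 523668462),
  Rx.mk (nat_lit 504) (nat_lit 0) (nat_lit 7) (nat_lit 7) (nat_lit 6) (nat_lit 87) (nat_lit 65) r4_87 r6_65 (nat_lit 9821827) (nat_lit 0) (nat_lit 0) (nat_lit 0x7fc4fda48) (nat_lit 551627389),
  Rx.mk (nat_lit 505) (nat_lit 1) (nat_lit 7) (nat_lit 7) (nat_lit 7) (nat_lit 88) (nat_lit 66) r4_88 r6_66 (nat_lit 0) (nat_lit 0) (nat_lit 0) (nat_lit 0x8046420c2) (nat_lit 534001662)]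
noncomputable def e18_36 : List Rx := [
  Rx.mk (nat_lit 280) (nat_lit 0) (nat_lit 3) (nat_lit 4) (nat_lit 2) (nat_lit 241) (nat_lit 126) r4_241 r12_126 (nat_lit 41553) (nat_lit 0) (nat_lit 58690) (nat_lit 0x7b312194a) (nat_lit 614735255),
  Rx.mk (nat_lit 281) (nat_lit 1) (nat_lit 3) (nat_lit 4) (nat_lit 3) (nat_lit 242) (nat_lit 130) r4_242 r12_130 (nat_lit 0) (nat_lit 0) (nat_lit 8369781) (nat_lit 0x7f5bb069e) (nat_lit 556643943),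
  Rx.mk (nat_lit 282) (nat_lit 2) (nat_lit 3) (nat_lit 4) (nat_lit 3) (nat_lit 243) (nat_lit 136) r4_243 r12_136 (nat_lit 0) (nat_lit 0) (nat_lit 12827212) (nat_lit 0x80d8b15d4) (nat_lit 537881374),
  Rx.mk (nat_lit 312) (nat_lit 0) (nat_lit 7) (nat_lit 4) (nat_lit 2) (nat_lit 244) (nat_lit 128) r4_244 r12_128 (nat_lit 1714766) (nat_lit 0) (nat_lit 2631942) (nat_lit 0x6423137c0) (nat_lit 992114620),
  Rx.mk (nat_lit 313) (nat_lit 1) (nat_lit 7) (nat_lit 4) (nat_lit 3) (nat_lit 245) (nat_lit 132) r4_245 r12_132 (nat_lit 0) (nat_lit 0) (nat_lit 9667445) (nat_lit 0x7e44f4f8c) (nat_lit 575356507),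
  Rx.mk (nat_lit 315) (nat_lit 3) (nat_lit 7) (nat_lit 4) (nat_lit 3) (nat_lit 246) (nat_lit 134) r4_246 r12_134 (nat_lit 0) (nat_lit 0) (nat_lit 10567436) (nat_lit 0x755c3f9fc) (nat_lit 720133798),
  Rx.mk (nat_lit 440) (nat_lit 0) (nat_lit 7) (nat_lit 6) (nat_lit 6) (nat_lit 247) (nat_lit 129) r4_247 r12_129 (nat_lit 99316) (nat_lit 0) (nat_lit 0) (nat_lit 0x5a569f38c) (nat_lit 1146020178),
  Rx.mk (nat_lit 441) (nat_lit 1) (nat_lit 7) (nat_lit 6) (nat_lit 7) (nat_lit 248) (nat_lit 133) r4_248 r12_133 (nat_lit 0) (nat_lit 0) (nat_lit 0) (nat_lit 0x7feb6c558) (nat_lit 539045512),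
  Rx.mk (nat_lit 443) (nat_lit 3) (nat_lit 7) (nat_lit 6) (nat_lit 7) (nat_lit 249) (nat_lit 135) r4_249 r12_135 (nat_lit 0) (nat_lit 0) (nat_lit 0) (nat_lit 0x7f2695054) (nat_lit 551109212),
  Rx.mk (nat_lit 472) (nat_lit 0) (nat_lit 3) (nat_lit 7) (nat_lit 6) (nat_lit 250) (nat_lit 127) r4_250 r12_127 (nat_lit 4688491) (nat_lit 0) (nat_lit 0) (nat_lit 0x7f006038e) (nat_lit 558460953),
  Rx.mk (nat_lit 473) (nat_lit 1) (nat_lit 3) (nat_lit 7) (nat_lit 7) (nat_lit 251) (nat_lit 131) r4_251 r12_131 (nat_lit 0) (nat_lit 0) (nat_lit 0) (nat_lit 0x80a484a0e) (nat_lit 528215812),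
  Rx.mk (nat_lit 474) (nat_lit 2) (nat_lit 3) (nat_lit 7) (nat_lit 7) (nat_lit 252) (nat_lit 137) r4_252 r12_137 (nat_lit 0) (nat_lit 0) (nat_lit 0) (nat_lit 0x80c5a12f0) (nat_lit 526217362)]
noncomputable def e18_37 : List Rx := [
  Rx.mk (nat_lit 289) (nat_lit 1) (nat_lit 4) (nat_lit 4) (nat_lit 1) (nat_lit 155) (nat_lit 318) r4_155 r0_318 (nat_lit 0) (nat_lit 2195696) (nat_lit 125045575) (nat_lit 0x6ae14ea2c) (nat_lit 1005937833),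
  Rx.mk (nat_lit 297) (nat_lit 1) (nat_lit 5) (nat_lit 4) (nat_lit 3) (nat_lit 156) (nat_lit 319) r4_156 r0_319 (nat_lit 0) (nat_lit 0) (nat_lit 25377028) (nat_lit 0x7f22d5c02) (nat_lit 577258190),
  Rx.mk (nat_lit 417) (nat_lit 1) (nat_lit 4) (nat_lit 6) (nat_lit 5) (nat_lit 157) (nat_lit 320) r4_157 r0_320 (nat_lit 0) (nat_lit 9212328) (nat_lit 0) (nat_lit 0x785000486) (nat_lit 671079090),
  Rx.mk (nat_lit 425) (nat_lit 1) (nat_lit 5) (nat_lit 6) (nat_lit 7) (nat_lit 158) (nat_lit 321) r4_158 r0_321 (nat_lit 0) (nat_lit 0) (nat_lit 0) (nat_lit 0x80b12ecdc) (nat_lit 527417312)]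
noncomputable def e18_38 : List Rx := [
  Rx.mk (nat_lit 417) (nat_lit 1) (nat_lit 4) (nat_lit 6) (nat_lit 5) (nat_lit 68) (nat_lit 79) r4_68 r0_79 (nat_lit 0) (nat_lit 6167468) (nat_lit 0) (nat_lit 0x5e86efab0) (nat_lit 1084789780),
  Rx.mk (nat_lit 421) (nat_lit 5) (nat_lit 4) (nat_lit 6) (nat_lit 5) (nat_lit 69) (nat_lit 80) r4_69 r0_80 (nat_lit 0) (nat_lit 13011950) (nat_lit 0) (nat_lit 0x7c2e5800a) (nat_lit 612357812),
  Rx.mk (nat_lit 445) (nat_lit 5) (nat_lit 7) (nat_lit 6) (nat_lit 7) (nat_lit 70) (nat_lit 81) r4_70 r0_81 (nat_lit 0) (nat_lit 0) (nat_lit 0) (nat_lit 0x7f12b28fc) (nat_lit 552544162)]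
noncomputable def e18_39 : List Rx := [
  Rx.mk (nat_lit 289) (nat_lit 1) (nat_lit 4) (nat_lit 4) (nat_lit 1) (nat_lit 167) (nat_lit 427) r4_167 r7_427 (nat_lit 0) (nat_lit 22125450) (nat_lit 19907554) (nat_lit 0x63a785950) (nat_lit 1037930216),
  Rx.mk (nat_lit 297) (nat_lit 1) (nat_lit 5) (nat_lit 4) (nat_lit 3) (nat_lit 168) (nat_lit 428) r4_168 r7_428 (nat_lit 0) (nat_lit 0) (nat_lit 19814278) (nat_lit 0x7ff710a44) (nat_lit 558656140),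
  Rx.mk (nat_lit 417) (nat_lit 1) (nat_lit 4) (nat_lit 6) (nat_lit 5) (nat_lit 169) (nat_lit 429) r4_169 r7_429 (nat_lit 0) (nat_lit 9466543) (nat_lit 0) (nat_lit 0x7fa3c1d3e) (nat_lit 553281955),
  Rx.mk (nat_lit 421) (nat_lit 5) (nat_lit 4) (nat_lit 6) (nat_lit 5) (nat_lit 170) (nat_lit 424) r4_170 r7_424 (nat_lit 0) (nat_lit 15079429) (nat_lit 0) (nat_lit 0x80b288b5a) (nat_lit 542464441),
  Rx.mk (nat_lit 425) (nat_lit 1) (nat_lit 5) (nat_lit 6) (nat_lit 7) (nat_lit 171) (nat_lit 430) r4_171 r7_430 (nat_lit 0) (nat_lit 0) (nat_lit 0) (nat_lit 0x80e5a0ace) (nat_lit 524283362),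
  Rx.mk (nat_lit 429) (nat_lit 5) (nat_lit 5) (nat_lit 6) (nat_lit 7) (nat_lit 172) (nat_lit 425) r4_172 r7_425 (nat_lit 0) (nat_lit 0) (nat_lit 0) (nat_lit 0x8047400be) (nat_lit 533941862),
  Rx.mk (nat_lit 445) (nat_lit 5) (nat_lit 7) (nat_lit 6) (nat_lit 7) (nat_lit 173) (nat_lit 426) r4_173 r7_426 (nat_lit 0) (nat_lit 0) (nat_lit 0) (nat_lit 0x804741ba8) (nat_lit 533941462)]
noncomputable def e18_40 : List Rx := [
  Rx.mk (nat_lit 180) (nat_lit 4) (nat_lit 6) (nat_lit 2) (nat_lit 6) (nat_lit 21) (nat_lit 89) r4_21 r2_89 (nat_lit 16949147) (nat_lit 0) (nat_lit 0) (nat_lit 0x80890f31e) (nat_lit 546864309),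
  Rx.mk (nat_lit 181) (nat_lit 5) (nat_lit 6) (nat_lit 2) (nat_lit 7) (nat_lit 22) (nat_lit 90) r4_22 r2_90 (nat_lit 0) (nat_lit 0) (nat_lit 0) (nat_lit 0x8017985b4) (nat_lit 536870912),
  Rx.mk (nat_lit 182) (nat_lit 6) (nat_lit 6) (nat_lit 2) (nat_lit 7) (nat_lit 23) (nat_lit 91) r4_23 r2_91 (nat_lit 0) (nat_lit 0) (nat_lit 0) (nat_lit 0x8017985b4) (nat_lit 536870912),
  Rx.mk (nat_lit 420) (nat_lit 4) (nat_lit 4) (nat_lit 6) (nat_lit 4) (nat_lit 24) (nat_lit 84) r4_24 r2_84 (nat_lit 4698401) (nat_lit 8468611) (nat_lit 0) (nat_lit 0x6f73fce92) (nat_lit 818155574),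
  Rx.mk (nat_lit 421) (nat_lit 5) (nat_lit 4) (nat_lit 6) (nat_lit 5) (nat_lit 25) (nat_lit 85) r4_25 r2_85 (nat_lit 0) (nat_lit 26453388) (nat_lit 0) (nat_lit 0x802d4deae) (nat_lit 561974850),
  Rx.mk (nat_lit 436) (nat_lit 4) (nat_lit 6) (nat_lit 6) (nat_lit 6) (nat_lit 26) (nat_lit 92) r4_26 r2_92 (nat_lit 18137495) (nat_lit 0) (nat_lit 0) (nat_lit 0x807289324) (nat_lit 549428707),
  Rx.mk (nat_lit 437) (nat_lit 5) (nat_lit 6) (nat_lit 6) (nat_lit 7) (nat_lit 27) (nat_lit 93) r4_27 r2_93 (nat_lit 0) (nat_lit 0) (nat_lit 0) (nat_lit 0x8017985b4) (nat_lit 536870912),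
  Rx.mk (nat_lit 444) (nat_lit 4) (nat_lit 7) (nat_lit 6) (nat_lit 6) (nat_lit 28) (nat_lit 86) r4_28 r2_86 (nat_lit 4236250) (nat_lit 0) (nat_lit 0) (nat_lit 0x81374ce9a) (nat_lit 523350712),
  Rx.mk (nat_lit 445) (nat_lit 5) (nat_lit 7) (nat_lit 6) (nat_lit 7) (nat_lit 29) (nat_lit 87) r4_29 r2_87 (nat_lit 0) (nat_lit 0) (nat_lit 0) (nat_lit 0x817902fd8) (nat_lit 515379662),
  Rx.mk (nat_lit 447) (nat_lit 7) (nat_lit 7) (nat_lit 6) (nat_lit 7) (nat_lit 30) (nat_lit 88) r4_30 r2_88 (nat_lit 0) (nat_lit 0) (nat_lit 0) (nat_lit 0x8173c4f94) (nat_lit 515699662)]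
noncomputable def e18_41 : List Rx := [
  Rx.mk (nat_lit 180) (nat_lit 4) (nat_lit 6) (nat_lit 2) (nat_lit 6) (nat_lit 144) (nat_lit 56) r4_144 r9_56 (nat_lit 24741287) (nat_lit 0) (nat_lit 0) (nat_lit 0x8017985b4) (nat_lit 561612199),
  Rx.mk (nat_lit 181) (nat_lit 5) (nat_lit 6) (nat_lit 2) (nat_lit 7) (nat_lit 145) (nat_lit 57) r4_145 r9_57 (nat_lit 0) (nat_lit 0) (nat_lit 0) (nat_lit 0x8017985b4) (nat_lit 536870912),
  Rx.mk (nat_lit 182) (nat_lit 6) (nat_lit 6) (nat_lit 2) (nat_lit 7) (nat_lit 146) (nat_lit 58) r4_146 r9_58 (nat_lit 0) (nat_lit 0) (nat_lit 0) (nat_lit 0x8017985b4) (nat_lit 536870912),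
  Rx.mk (nat_lit 420) (nat_lit 4) (nat_lit 4) (nat_lit 6) (nat_lit 4) (nat_lit 147) (nat_lit 50) r4_147 r9_50 (nat_lit 16343874) (nat_lit 18784265) (nat_lit 0) (nat_lit 0x65a8d64ce) (nat_lit 998625001),
  Rx.mk (nat_lit 421) (nat_lit 5) (nat_lit 4) (nat_lit 6) (nat_lit 5) (nat_lit 148) (nat_lit 51) r4_148 r9_51 (nat_lit 0) (nat_lit 24741287) (nat_lit 0) (nat_lit 0x8017985b4) (nat_lit 561612199),
  Rx.mk (nat_lit 429) (nat_lit 5) (nat_lit 5) (nat_lit 6) (nat_lit 7) (nat_lit 149) (nat_lit 52) r4_149 r9_52 (nat_lit 0) (nat_lit 0) (nat_lit 0) (nat_lit 0x8017985b4) (nat_lit 536870912),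
  Rx.mk (nat_lit 436) (nat_lit 4) (nat_lit 6) (nat_lit 6) (nat_lit 6) (nat_lit 150) (nat_lit 59) r4_150 r9_59 (nat_lit 24741287) (nat_lit 0) (nat_lit 0) (nat_lit 0x7ff8b06c4) (nat_lit 563504749),
  Rx.mk (nat_lit 437) (nat_lit 5) (nat_lit 6) (nat_lit 6) (nat_lit 7) (nat_lit 151) (nat_lit 60) r4_151 r9_60 (nat_lit 0) (nat_lit 0) (nat_lit 0) (nat_lit 0x8017985b4) (nat_lit 536870912),
  Rx.mk (nat_lit 444) (nat_lit 4) (nat_lit 7) (nat_lit 6) (nat_lit 6) (nat_lit 152) (nat_lit 53) r4_152 r9_53 (nat_lit 24741287) (nat_lit 0) (nat_lit 0) (nat_lit 0x8017985b4) (nat_lit 561612199),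
  Rx.mk (nat_lit 445) (nat_lit 5) (nat_lit 7) (nat_lit 6) (nat_lit 7) (nat_lit 153) (nat_lit 54) r4_153 r9_54 (nat_lit 0) (nat_lit 0) (nat_lit 0) (nat_lit 0x8017985b4) (nat_lit 536870912),
  Rx.mk (nat_lit 447) (nat_lit 7) (nat_lit 7) (nat_lit 6) (nat_lit 7) (nat_lit 154) (nat_lit 55) r4_154 r9_55 (nat_lit 0) (nat_lit 0) (nat_lit 0) (nat_lit 0x8017985b4) (nat_lit 536870912)]
noncomputable def e18_42 : List Rx := [
  Rx.mk (nat_lit 180) (nat_lit 4) (nat_lit 6) (nat_lit 2) (nat_lit 6) (nat_lit 128) (nat_lit 15) r4_128 r9_15 (nat_lit 24741287) (nat_lit 0) (nat_lit 0) (nat_lit 0x8017985b4) (nat_lit 561612199),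
  Rx.mk (nat_lit 181) (nat_lit 5) (nat_lit 6) (nat_lit 2) (nat_lit 7) (nat_lit 129) (nat_lit 16) r4_129 r9_16 (nat_lit 0) (nat_lit 0) (nat_lit 0) (nat_lit 0x8017985b4) (nat_lit 536870912),
  Rx.mk (nat_lit 182) (nat_lit 6) (nat_lit 6) (nat_lit 2) (nat_lit 7) (nat_lit 130) (nat_lit 17) r4_130 r9_17 (nat_lit 0) (nat_lit 0) (nat_lit 0) (nat_lit 0x8017985b4) (nat_lit 536870912)]
noncomputable def e18_43 : List Rx := [
  Rx.mk (nat_lit 421) (nat_lit 5) (nat_lit 4) (nat_lit 6) (nat_lit 5) (nat_lit 71) (nat_lit 85) r4_71 r1_85 (nat_lit 0) (nat_lit 18076853) (nat_lit 0) (nat_lit 0x7feb22318) (nat_lit 557573915),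
  Rx.mk (nat_lit 437) (nat_lit 5) (nat_lit 6) (nat_lit 6) (nat_lit 7) (nat_lit 72) (nat_lit 87) r4_72 r1_87 (nat_lit 0) (nat_lit 0) (nat_lit 0) (nat_lit 0x8017985b4) (nat_lit 536870912),
  Rx.mk (nat_lit 445) (nat_lit 5) (nat_lit 7) (nat_lit 6) (nat_lit 7) (nat_lit 73) (nat_lit 86) r4_73 r1_86 (nat_lit 0) (nat_lit 0) (nat_lit 0) (nat_lit 0x8445fa28c) (nat_lit 472429712)]
noncomputable def e18_44 : List Rx := [
  Rx.mk (nat_lit 421) (nat_lit 5) (nat_lit 4) (nat_lit 6) (nat_lit 5) (nat_lit 177) (nat_lit 351) r4_177 r8_351 (nat_lit 0) (nat_lit 24741287) (nat_lit 0) (nat_lit 0x8017985b4) (nat_lit 561612199),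
  Rx.mk (nat_lit 429) (nat_lit 5) (nat_lit 5) (nat_lit 6) (nat_lit 7) (nat_lit 178) (nat_lit 352) r4_178 r8_352 (nat_lit 0) (nat_lit 0) (nat_lit 0) (nat_lit 0x8017985b4) (nat_lit 536870912),
  Rx.mk (nat_lit 437) (nat_lit 5) (nat_lit 6) (nat_lit 6) (nat_lit 7) (nat_lit 179) (nat_lit 354) r4_179 r8_354 (nat_lit 0) (nat_lit 0) (nat_lit 0) (nat_lit 0x8017985b4) (nat_lit 536870912),
  Rx.mk (nat_lit 445) (nat_lit 5) (nat_lit 7) (nat_lit 6) (nat_lit 7) (nat_lit 180) (nat_lit 353) r4_180 r8_353 (nat_lit 0) (nat_lit 0) (nat_lit 0) (nat_lit 0x8017985b4) (nat_lit 536870912)]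
noncomputable def e18_45 : List Rx := [
  Rx.mk (nat_lit 297) (nat_lit 1) (nat_lit 5) (nat_lit 4) (nat_lit 3) (nat_lit 159) (nat_lit 305) r4_159 r1_305 (nat_lit 0) (nat_lit 0) (nat_lit 25741495) (nat_lit 0x7f774491e) (nat_lit 572424907),
  Rx.mk (nat_lit 425) (nat_lit 1) (nat_lit 5) (nat_lit 6) (nat_lit 7) (nat_lit 160) (nat_lit 306) r4_160 r1_306 (nat_lit 0) (nat_lit 0) (nat_lit 0) (nat_lit 0x80964275c) (nat_lit 529102962)]
noncomputable def e18_46 : List Rx := [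
  Rx.mk (nat_lit 265) (nat_lit 1) (nat_lit 1) (nat_lit 4) (nat_lit 3) (nat_lit 299) (nat_lit 350) r4_299 r2_350 (nat_lit 0) (nat_lit 0) (nat_lit 42912160) (nat_lit 0x7cc9d2418) (nat_lit 632560472),
  Rx.mk (nat_lit 297) (nat_lit 1) (nat_lit 5) (nat_lit 4) (nat_lit 3) (nat_lit 300) (nat_lit 349) r4_300 r2_349 (nat_lit 0) (nat_lit 0) (nat_lit 24741287) (nat_lit 0x7fcaef88e) (nat_lit 566317649),
  Rx.mk (nat_lit 329) (nat_lit 1) (nat_lit 1) (nat_lit 5) (nat_lit 7) (nat_lit 301) (nat_lit 352) r4_301 r2_352 (nat_lit 0) (nat_lit 0) (nat_lit 0) (nat_lit 0x8017985b4) (nat_lit 536870912),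
  Rx.mk (nat_lit 361) (nat_lit 1) (nat_lit 5) (nat_lit 5) (nat_lit 7) (nat_lit 302) (nat_lit 351) r4_302 r2_351 (nat_lit 0) (nat_lit 0) (nat_lit 0) (nat_lit 0x8017985b4) (nat_lit 536870912),
  Rx.mk (nat_lit 425) (nat_lit 1) (nat_lit 5) (nat_lit 6) (nat_lit 7) (nat_lit 303) (nat_lit 353) r4_303 r2_353 (nat_lit 0) (nat_lit 0) (nat_lit 0) (nat_lit 0x8017985b4) (nat_lit 536870912)]
noncomputable def e18_47 : List Rx := [
  Rx.mk (nat_lit 297) (nat_lit 1) (nat_lit 5) (nat_lit 4) (nat_lit 3) (nat_lit 174) (nat_lit 68) r4_174 r8_68 (nat_lit 0) (nat_lit 0) (nat_lit 19417164) (nat_lit 0x7fd35cbf2) (nat_lit 560445626),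
  Rx.mk (nat_lit 425) (nat_lit 1) (nat_lit 5) (nat_lit 6) (nat_lit 7) (nat_lit 175) (nat_lit 69) r4_175 r8_69 (nat_lit 0) (nat_lit 0) (nat_lit 0) (nat_lit 0x80539e52c) (nat_lit 533184912),
  Rx.mk (nat_lit 429) (nat_lit 5) (nat_lit 5) (nat_lit 6) (nat_lit 7) (nat_lit 176) (nat_lit 70) r4_176 r8_70 (nat_lit 0) (nat_lit 0) (nat_lit 0) (nat_lit 0x8017985b4) (nat_lit 536870912)]
noncomputable def e18_48 : List Rx := [
  Rx.mk (nat_lit 265) (nat_lit 1) (nat_lit 1) (nat_lit 4) (nat_lit 3) (nat_lit 309) (nat_lit 313) r4_309 r9_313 (nat_lit 0) (nat_lit 0) (nat_lit 47490513) (nat_lit 0x7c0f81f64) (nat_lit 648924525),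
  Rx.mk (nat_lit 297) (nat_lit 1) (nat_lit 5) (nat_lit 4) (nat_lit 3) (nat_lit 310) (nat_lit 312) r4_310 r9_312 (nat_lit 0) (nat_lit 0) (nat_lit 30557758) (nat_lit 0x7f457f316) (nat_lit 580390720),
  Rx.mk (nat_lit 329) (nat_lit 1) (nat_lit 1) (nat_lit 5) (nat_lit 7) (nat_lit 311) (nat_lit 315) r4_311 r9_315 (nat_lit 0) (nat_lit 0) (nat_lit 0) (nat_lit 0x8017985b4) (nat_lit 536870912),
  Rx.mk (nat_lit 361) (nat_lit 1) (nat_lit 5) (nat_lit 5) (nat_lit 7) (nat_lit 312) (nat_lit 314) r4_312 r9_314 (nat_lit 0) (nat_lit 0) (nat_lit 0) (nat_lit 0x8017985b4) (nat_lit 536870912),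
  Rx.mk (nat_lit 425) (nat_lit 1) (nat_lit 5) (nat_lit 6) (nat_lit 7) (nat_lit 313) (nat_lit 316) r4_313 r9_316 (nat_lit 0) (nat_lit 0) (nat_lit 0) (nat_lit 0x8017985b4) (nat_lit 536870912),
  Rx.mk (nat_lit 429) (nat_lit 5) (nat_lit 5) (nat_lit 6) (nat_lit 7) (nat_lit 314) (nat_lit 311) r4_314 r9_311 (nat_lit 0) (nat_lit 0) (nat_lit 0) (nat_lit 0x8017985b4) (nat_lit 536870912)]
noncomputable def e18_49 : List Rx := [
  Rx.mk (nat_lit 329) (nat_lit 1) (nat_lit 1) (nat_lit 5) (nat_lit 7) (nat_lit 307) (nat_lit 305) r4_307 r9_305 (nat_lit 0) (nat_lit 0) (nat_lit 0) (nat_lit 0x8017985b4) (nat_lit 536870912),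
  Rx.mk (nat_lit 361) (nat_lit 1) (nat_lit 5) (nat_lit 5) (nat_lit 7) (nat_lit 308) (nat_lit 306) r4_308 r9_306 (nat_lit 0) (nat_lit 0) (nat_lit 0) (nat_lit 0x8017985b4) (nat_lit 536870912)]
noncomputable def e18_50 : List Rx := [
  Rx.mk (nat_lit 313) (nat_lit 1) (nat_lit 7) (nat_lit 4) (nat_lit 3) (nat_lit 65) (nat_lit 322) r4_65 r3_322 (nat_lit 0) (nat_lit 0) (nat_lit 20881) (nat_lit 0x7ff798390) (nat_lit 537424343),
  Rx.mk (nat_lit 417) (nat_lit 1) (nat_lit 4) (nat_lit 6) (nat_lit 5) (nat_lit 66) (nat_lit 323) r4_66 r3_323 (nat_lit 0) (nat_lit 162706) (nat_lit 0) (nat_lit 0x7fec4a02e) (nat_lit 538305068),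
  Rx.mk (nat_lit 441) (nat_lit 1) (nat_lit 7) (nat_lit 6) (nat_lit 7) (nat_lit 67) (nat_lit 324) r4_67 r3_324 (nat_lit 0) (nat_lit 0) (nat_lit 0) (nat_lit 0x7ffafb73a) (nat_lit 537214012)]
noncomputable def e18_51 : List Rx := [
  Rx.mk (nat_lit 289) (nat_lit 1) (nat_lit 4) (nat_lit 4) (nat_lit 1) (nat_lit 161) (nat_lit 349) r4_161 r4_349 (nat_lit 0) (nat_lit 8380959) (nat_lit 15888243) (nat_lit 0x712c99c60) (nat_lit 801452014),
  Rx.mk (nat_lit 297) (nat_lit 1) (nat_lit 5) (nat_lit 4) (nat_lit 3) (nat_lit 162) (nat_lit 350) r4_162 r4_350 (nat_lit 0) (nat_lit 0) (nat_lit 22312841) (nat_lit 0x806176d2a) (nat_lit 554648803),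
  Rx.mk (nat_lit 313) (nat_lit 1) (nat_lit 7) (nat_lit 4) (nat_lit 3) (nat_lit 163) (nat_lit 351) r4_163 r4_351 (nat_lit 0) (nat_lit 0) (nat_lit 68646309) (nat_lit 0x7fa8798a4) (nat_lit 612142821),
  Rx.mk (nat_lit 417) (nat_lit 1) (nat_lit 4) (nat_lit 6) (nat_lit 5) (nat_lit 164) (nat_lit 352) r4_164 r4_352 (nat_lit 0) (nat_lit 12559442) (nat_lit 0) (nat_lit 0x7f3685d1a) (nat_lit 563145404),
  Rx.mk (nat_lit 425) (nat_lit 1) (nat_lit 5) (nat_lit 6) (nat_lit 7) (nat_lit 165) (nat_lit 353) r4_165 r4_353 (nat_lit 0) (nat_lit 0) (nat_lit 0) (nat_lit 0x80d3762ea) (nat_lit 525382062),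
  Rx.mk (nat_lit 441) (nat_lit 1) (nat_lit 7) (nat_lit 6) (nat_lit 7) (nat_lit 166) (nat_lit 354) r4_166 r4_354 (nat_lit 0) (nat_lit 0) (nat_lit 0) (nat_lit 0x808605e8e) (nat_lit 530063762)]
noncomputable def e18_52 : List Rx := [
  Rx.mk (nat_lit 313) (nat_lit 1) (nat_lit 7) (nat_lit 4) (nat_lit 3) (nat_lit 224) (nat_lit 305) r4_224 r5_305 (nat_lit 0) (nat_lit 0) (nat_lit 161090066) (nat_lit 0x7fc75d3ec) (nat_lit 701587228),
  Rx.mk (nat_lit 441) (nat_lit 1) (nat_lit 7) (nat_lit 6) (nat_lit 7) (nat_lit 225) (nat_lit 306) r4_225 r5_306 (nat_lit 0) (nat_lit 0) (nat_lit 0) (nat_lit 0x743a265ec) (nat_lit 727415662)]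
noncomputable def e18_53 : List Rx := [
  Rx.mk (nat_lit 313) (nat_lit 1) (nat_lit 7) (nat_lit 4) (nat_lit 3) (nat_lit 74) (nat_lit 75) r4_74 r4_75 (nat_lit 0) (nat_lit 0) (nat_lit 7592338) (nat_lit 0x7d0c0142e) (nat_lit 592808150),
  Rx.mk (nat_lit 417) (nat_lit 1) (nat_lit 4) (nat_lit 6) (nat_lit 5) (nat_lit 75) (nat_lit 74) r4_75 r4_74 (nat_lit 0) (nat_lit 7592338) (nat_lit 0) (nat_lit 0x7d0c0142e) (nat_lit 592808150),
  Rx.mk (nat_lit 441) (nat_lit 1) (nat_lit 7) (nat_lit 6) (nat_lit 7) (nat_lit 76) (nat_lit 76) r4_76 r4_76 (nat_lit 0) (nat_lit 0) (nat_lit 0) (nat_lit 0x7fb75d550) (nat_lit 541473012),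
  Rx.mk (nat_lit 445) (nat_lit 5) (nat_lit 7) (nat_lit 6) (nat_lit 7) (nat_lit 77) (nat_lit 77) r4_77 r4_77 (nat_lit 0) (nat_lit 0) (nat_lit 0) (nat_lit 0x8186ed79c) (nat_lit 514518262)]
noncomputable def e18_54 : List Rx := [
  Rx.mk (nat_lit 289) (nat_lit 1) (nat_lit 4) (nat_lit 4) (nat_lit 1) (nat_lit 181) (nat_lit 351) r4_181 r10_351 (nat_lit 0) (nat_lit 11415403) (nat_lit 12084870) (nat_lit 0x6331c3eb0) (nat_lit 1026799885),
  Rx.mk (nat_lit 297) (nat_lit 1) (nat_lit 5) (nat_lit 4) (nat_lit 3) (nat_lit 182) (nat_lit 352) r4_182 r10_352 (nat_lit 0) (nat_lit 0) (nat_lit 21073453) (nat_lit 0x8042207e6) (nat_lit 555329265),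
  Rx.mk (nat_lit 313) (nat_lit 1) (nat_lit 7) (nat_lit 4) (nat_lit 3) (nat_lit 183) (nat_lit 353) r4_183 r10_353 (nat_lit 0) (nat_lit 0) (nat_lit 23202415) (nat_lit 0x7faaa218a) (nat_lit 566751477),
  Rx.mk (nat_lit 417) (nat_lit 1) (nat_lit 4) (nat_lit 6) (nat_lit 5) (nat_lit 184) (nat_lit 354) r4_184 r10_354 (nat_lit 0) (nat_lit 10881583) (nat_lit 0) (nat_lit 0x80aa66698) (nat_lit 538695745),
  Rx.mk (nat_lit 425) (nat_lit 1) (nat_lit 5) (nat_lit 6) (nat_lit 7) (nat_lit 185) (nat_lit 355) r4_185 r10_355 (nat_lit 0) (nat_lit 0) (nat_lit 0) (nat_lit 0x80a823854) (nat_lit 528019812),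
  Rx.mk (nat_lit 441) (nat_lit 1) (nat_lit 7) (nat_lit 6) (nat_lit 7) (nat_lit 186) (nat_lit 356) r4_186 r10_356 (nat_lit 0) (nat_lit 0) (nat_lit 0) (nat_lit 0x80a823516) (nat_lit 528019862),
  Rx.mk (nat_lit 445) (nat_lit 5) (nat_lit 7) (nat_lit 6) (nat_lit 7) (nat_lit 187) (nat_lit 350) r4_187 r10_350 (nat_lit 0) (nat_lit 0) (nat_lit 0) (nat_lit 0x8017985b4) (nat_lit 536870912)]
noncomputable def e18_55 : List Rx := [
  Rx.mk (nat_lit 313) (nat_lit 1) (nat_lit 7) (nat_lit 4) (nat_lit 3) (nat_lit 226) (nat_lit 358) r4_226 r11_358 (nat_lit 0) (nat_lit 0) (nat_lit 11487859) (nat_lit 0x7fe0ccc6a) (nat_lit 551547221),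
  Rx.mk (nat_lit 441) (nat_lit 1) (nat_lit 7) (nat_lit 6) (nat_lit 7) (nat_lit 227) (nat_lit 359) r4_227 r11_359 (nat_lit 0) (nat_lit 0) (nat_lit 0) (nat_lit 0x82046c2cc) (nat_lit 506848662),
  Rx.mk (nat_lit 445) (nat_lit 5) (nat_lit 7) (nat_lit 6) (nat_lit 7) (nat_lit 228) (nat_lit 357) r4_228 r11_357 (nat_lit 0) (nat_lit 0) (nat_lit 0) (nat_lit 0x850b42e04) (nat_lit 460662012)]
noncomputable def e18_56 : List Rx := [
  Rx.mk (nat_lit 313) (nat_lit 1) (nat_lit 7) (nat_lit 4) (nat_lit 3) (nat_lit 89) (nat_lit 67) r4_89 r5_67 (nat_lit 0) (nat_lit 0) (nat_lit 10750557) (nat_lit 0x7fd33eeae) (nat_lit 551622569),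
  Rx.mk (nat_lit 417) (nat_lit 1) (nat_lit 4) (nat_lit 6) (nat_lit 5) (nat_lit 90) (nat_lit 66) r4_90 r5_66 (nat_lit 0) (nat_lit 9749711) (nat_lit 0) (nat_lit 0x7ffe1e016) (nat_lit 547673873),
  Rx.mk (nat_lit 441) (nat_lit 1) (nat_lit 7) (nat_lit 6) (nat_lit 7) (nat_lit 91) (nat_lit 69) r4_91 r5_69 (nat_lit 0) (nat_lit 0) (nat_lit 0) (nat_lit 0x8121440f8) (nat_lit 520021762),
  Rx.mk (nat_lit 505) (nat_lit 1) (nat_lit 7) (nat_lit 7) (nat_lit 7) (nat_lit 92) (nat_lit 68) r4_92 r5_68 (nat_lit 0) (nat_lit 0) (nat_lit 0) (nat_lit 0x7fb528974) (nat_lit 542767312)]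
noncomputable def e18_57 : List Rx := [
  Rx.mk (nat_lit 289) (nat_lit 1) (nat_lit 4) (nat_lit 4) (nat_lit 1) (nat_lit 188) (nat_lit 46) r4_188 r11_46 (nat_lit 0) (nat_lit 33533154) (nat_lit 16806885) (nat_lit 0x78c402cc6) (nat_lit 704937351),
  Rx.mk (nat_lit 297) (nat_lit 1) (nat_lit 5) (nat_lit 4) (nat_lit 3) (nat_lit 189) (nat_lit 48) r4_189 r11_48 (nat_lit 0) (nat_lit 0) (nat_lit 24741287) (nat_lit 0x8017985b4) (nat_lit 561612199),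
  Rx.mk (nat_lit 313) (nat_lit 1) (nat_lit 7) (nat_lit 4) (nat_lit 3) (nat_lit 190) (nat_lit 50) r4_190 r11_50 (nat_lit 0) (nat_lit 0) (nat_lit 26071655) (nat_lit 0x7fa9352f2) (nat_lit 569730517),
  Rx.mk (nat_lit 417) (nat_lit 1) (nat_lit 4) (nat_lit 6) (nat_lit 5) (nat_lit 191) (nat_lit 47) r4_191 r11_47 (nat_lit 0) (nat_lit 16749673) (nat_lit 0) (nat_lit 0x8060fd66e) (nat_lit 549095785),
  Rx.mk (nat_lit 425) (nat_lit 1) (nat_lit 5) (nat_lit 6) (nat_lit 7) (nat_lit 192) (nat_lit 49) r4_192 r11_49 (nat_lit 0) (nat_lit 0) (nat_lit 0) (nat_lit 0x804ce505a) (nat_lit 533594662),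
  Rx.mk (nat_lit 441) (nat_lit 1) (nat_lit 7) (nat_lit 6) (nat_lit 7) (nat_lit 193) (nat_lit 52) r4_193 r11_52 (nat_lit 0) (nat_lit 0) (nat_lit 0) (nat_lit 0x804ce4d1c) (nat_lit 533594712),
  Rx.mk (nat_lit 505) (nat_lit 1) (nat_lit 7) (nat_lit 7) (nat_lit 7) (nat_lit 194) (nat_lit 51) r4_194 r11_51 (nat_lit 0) (nat_lit 0) (nat_lit 0) (nat_lit 0x8017985b4) (nat_lit 536870912)]
noncomputable def e18 : List (List Rx) := [e18_0, e18_1, e18_2, e18_3, e18_4, e18_5, e18_6, e18_7, e18_8, e18_9, e18_10, e18_11, e18_12, e18_13, e18_14, e18_15, e18_16, e18_17, e18_18, e18_19, e18_20, e18_21, e18_22, e18_23, e18_24, e18_25, e18_26, e18_27, e18_28, e18_29, e18_30, e18_31, e18_32, e18_33, e18_34, e18_35, e18_36, e18_37, e18_38, e18_39, e18_40, e18_41, e18_42, e18_43, e18_44, e18_45, e18_46, e18_47, e18_48, e18_49, e18_50, e18_51, e18_52, e18_53, e18_54, e18_55, e18_56,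 e18_57]
noncomputable def e19_0 : List Rx := [
  Rx.mk (nat_lit 2) (nat_lit 2) (nat_lit 0) (nat_lit 0) (nat_lit 1) (nat_lit 0) (nat_lit 147) r10_0 r0_147 (nat_lit 0) (nat_lit 5072318) (nat_lit 2583088) (nat_lit 0x6af50b056) (nat_lit 885195018),
  Rx.mk (nat_lit 18) (nat_lit 2) (nat_lit 2) (nat_lit 0) (nat_lit 3) (nat_lit 2) (nat_lit 150) r10_2 r0_150 (nat_lit 0) (nat_lit 0) (nat_lit 21612680) (nat_lit 0x79ca6153a) (nat_lit 659669742),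
  Rx.mk (nat_lit 194) (nat_lit 2) (nat_lit 0) (nat_lit 3) (nat_lit 5) (nat_lit 1) (nat_lit 148) r10_1 r0_148 (nat_lit 0) (nat_lit 61676723) (nat_lit 0) (nat_lit 0x7d6a0fc8c) (nat_lit 641243735),
  Rx.mk (nat_lit 210) (nat_lit 2) (nat_lit 2) (nat_lit 3) (nat_lit 7) (nat_lit 3) (nat_lit 151) r10_3 r0_151 (nat_lit 0) (nat_lit 0) (nat_lit 0) (nat_lit 0x7fba6e0c8) (nat_lit 542601512),
  Rx.mk (nat_lit 218) (nat_lit 2) (nat_lit 3) (nat_lit 3) (nat_lit 7) (nat_lit 4) (nat_lit 149) r10_4 r0_149 (nat_lit 0) (nat_lit 0) (nat_lit 0) (nat_lit 0x7fef30450) (nat_lit 539335212)]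
noncomputable def e19_1 : List Rx := [
  Rx.mk (nat_lit 2) (nat_lit 2) (nat_lit 0) (nat_lit 0) (nat_lit 1) (nat_lit 5) (nat_lit 161) r10_5 r1_161 (nat_lit 0) (nat_lit 22829563) (nat_lit 15183139) (nat_lit 0x6e1d4f8f2) (nat_lit 864770414),
  Rx.mk (nat_lit 18) (nat_lit 2) (nat_lit 2) (nat_lit 0) (nat_lit 3) (nat_lit 7) (nat_lit 164) r10_7 r1_164 (nat_lit 0) (nat_lit 0) (nat_lit 9818448) (nat_lit 0x77a95bc0c) (nat_lit 682197510),
  Rx.mk (nat_lit 194) (nat_lit 2) (nat_lit 0) (nat_lit 3) (nat_lit 5) (nat_lit 6) (nat_lit 162) r10_6 r1_162 (nat_lit 0) (nat_lit 24741287) (nat_lit 0) (nat_lit 0x7fca1d474) (nat_lit 566365499),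
  Rx.mk (nat_lit 210) (nat_lit 2) (nat_lit 2) (nat_lit 3) (nat_lit 7) (nat_lit 8) (nat_lit 165) r10_8 r1_165 (nat_lit 0) (nat_lit 0) (nat_lit 0) (nat_lit 0x804a4b9b6) (nat_lit 533752062),
  Rx.mk (nat_lit 218) (nat_lit 2) (nat_lit 3) (nat_lit 3) (nat_lit 7) (nat_lit 9) (nat_lit 163) r10_9 r1_163 (nat_lit 0) (nat_lit 0) (nat_lit 0) (nat_lit 0x8017985b4) (nat_lit 536870912)]
noncomputable def e19_2 : List Rx := [
  Rx.mk (nat_lit 2) (nat_lit 2) (nat_lit 0) (nat_lit 0) (nat_lit 1) (nat_lit 10) (nat_lit 160) r10_10 r2_160 (nat_lit 0) (nat_lit 10828370) (nat_lit 13507056) (nat_lit 0x67d645c8c) (nat_lit 952582088),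
  Rx.mk (nat_lit 18) (nat_lit 2) (nat_lit 2) (nat_lit 0) (nat_lit 3) (nat_lit 12) (nat_lit 165) r10_12 r2_165 (nat_lit 0) (nat_lit 0) (nat_lit 24741287) (nat_lit 0x8017985b4) (nat_lit 561612199),
  Rx.mk (nat_lit 26) (nat_lit 2) (nat_lit 3) (nat_lit 0) (nat_lit 3) (nat_lit 14) (nat_lit 162) r10_14 r2_162 (nat_lit 0) (nat_lit 0) (nat_lit 26181532) (nat_lit 0x7fe1525fe) (nat_lit 566368444),
  Rx.mk (nat_lit 66) (nat_lit 2) (nat_lit 0) (nat_lit 1) (nat_lit 5) (nat_lit 11) (nat_lit 161) r10_11 r2_161 (nat_lit 0) (nat_lit 24741287) (nat_lit 0) (nat_lit 0x8017985b4) (nat_lit 561612199),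
  Rx.mk (nat_lit 82) (nat_lit 2) (nat_lit 2) (nat_lit 1) (nat_lit 7) (nat_lit 13) (nat_lit 166) r10_13 r2_166 (nat_lit 0) (nat_lit 0) (nat_lit 0) (nat_lit 0x8017985b4) (nat_lit 536870912),
  Rx.mk (nat_lit 90) (nat_lit 2) (nat_lit 3) (nat_lit 1) (nat_lit 7) (nat_lit 15) (nat_lit 163) r10_15 r2_163 (nat_lit 0) (nat_lit 0) (nat_lit 0) (nat_lit 0x8017985b4) (nat_lit 536870912),
  Rx.mk (nat_lit 218) (nat_lit 2) (nat_lit 3) (nat_lit 3) (nat_lit 7) (nat_lit 16) (nat_lit 164) r10_16 r2_164 (nat_lit 0) (nat_lit 0) (nat_lit 0) (nat_lit 0x8017985b4) (nat_lit 536870912)]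
noncomputable def e19_3 : List Rx := [
  Rx.mk (nat_lit 315) (nat_lit 3) (nat_lit 7) (nat_lit 4) (nat_lit 3) (nat_lit 19) (nat_lit 135) r10_19 r3_135 (nat_lit 0) (nat_lit 0) (nat_lit 427823) (nat_lit 0x86254ad0a) (nat_lit 443762085),
  Rx.mk (nat_lit 443) (nat_lit 3) (nat_lit 7) (nat_lit 6) (nat_lit 7) (nat_lit 20) (nat_lit 137) r10_20 r3_137 (nat_lit 0) (nat_lit 0) (nat_lit 0) (nat_lit 0x86cf556ec) (nat_lit 433675662),
  Rx.mk (nat_lit 472) (nat_lit 0) (nat_lit 3) (nat_lit 7) (nat_lit 6) (nat_lit 17) (nat_lit 133) r10_17 r3_133 (nat_lit 427823) (nat_lit 0) (nat_lit 0) (nat_lit 0x86254ad0a) (nat_lit 443762085),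
  Rx.mk (nat_lit 474) (nat_lit 2) (nat_lit 3) (nat_lit 7) (nat_lit 7) (nat_lit 18) (nat_lit 138) r10_18 r3_138 (nat_lit 0) (nat_lit 0) (nat_lit 0) (nat_lit 0x86cf556ec) (nat_lit 433675662),
  Rx.mk (nat_lit 475) (nat_lit 3) (nat_lit 3) (nat_lit 7) (nat_lit 7) (nat_lit 22) (nat_lit 134) r10_22 r3_134 (nat_lit 0) (nat_lit 0) (nat_lit 0) (nat_lit 0x809e38c5e) (nat_lit 528622162),
  Rx.mk (nat_lit 507) (nat_lit 3) (nat_lit 7) (nat_lit 7) (nat_lit 7) (nat_lit 21) (nat_lit 136) r10_21 r3_136 (nat_lit 0) (nat_lit 0) (nat_lit 0) (nat_lit 0x809e38c5e) (nat_lit 528622162)]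
noncomputable def e19_4 : List Rx := [
  Rx.mk (nat_lit 194) (nat_lit 2) (nat_lit 0) (nat_lit 3) (nat_lit 5) (nat_lit 24) (nat_lit 139) r10_24 r4_139 (nat_lit 0) (nat_lit 24676068) (nat_lit 0) (nat_lit 0x7e8afe690) (nat_lit 586102830),
  Rx.mk (nat_lit 210) (nat_lit 2) (nat_lit 2) (nat_lit 3) (nat_lit 7) (nat_lit 25) (nat_lit 142) r10_25 r4_142 (nat_lit 0) (nat_lit 0) (nat_lit 0) (nat_lit 0x8017985b4) (nat_lit 536870912),
  Rx.mk (nat_lit 218) (nat_lit 2) (nat_lit 3) (nat_lit 3) (nat_lit 7) (nat_lit 27) (nat_lit 140) r10_27 r4_140 (nat_lit 0) (nat_lit 0) (nat_lit 0) (nat_lit 0x809f243f2) (nat_lit 528567662),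
  Rx.mk (nat_lit 315) (nat_lit 3) (nat_lit 7) (nat_lit 4) (nat_lit 3) (nat_lit 28) (nat_lit 136) r10_28 r4_136 (nat_lit 0) (nat_lit 0) (nat_lit 12224820) (nat_lit 0x806946df2) (nat_lit 544040032),
  Rx.mk (nat_lit 443) (nat_lit 3) (nat_lit 7) (nat_lit 6) (nat_lit 7) (nat_lit 29) (nat_lit 138) r10_29 r4_138 (nat_lit 0) (nat_lit 0) (nat_lit 0) (nat_lit 0x804468c56) (nat_lit 534115312),
  Rx.mk (nat_lit 472) (nat_lit 0) (nat_lit 3) (nat_lit 7) (nat_lit 6) (nat_lit 23) (nat_lit 134) r10_23 r4_134 (nat_lit 19244630) (nat_lit 0) (nat_lit 0) (nat_lit 0x801080380) (nat_lit 556512792),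
  Rx.mk (nat_lit 474) (nat_lit 2) (nat_lit 3) (nat_lit 7) (nat_lit 7) (nat_lit 26) (nat_lit 141) r10_26 r4_141 (nat_lit 0) (nat_lit 0) (nat_lit 0) (nat_lit 0x8017985b4) (nat_lit 536870912),
  Rx.mk (nat_lit 475) (nat_lit 3) (nat_lit 3) (nat_lit 7) (nat_lit 7) (nat_lit 31) (nat_lit 135) r10_31 r4_135 (nat_lit 0) (nat_lit 0) (nat_lit 0) (nat_lit 0x8017985b4) (nat_lit 536870912),
  Rx.mk (nat_lit 507) (nat_lit 3) (nat_lit 7) (nat_lit 7) (nat_lit 7) (nat_lit 30) (nat_lit 137) r10_30 r4_137 (nat_lit 0) (nat_lit 0) (nat_lit 0) (nat_lit 0x8017985b4) (nat_lit 536870912)]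
noncomputable def e19_5 : List Rx := [
  Rx.mk (nat_lit 283) (nat_lit 3) (nat_lit 3) (nat_lit 4) (nat_lit 3) (nat_lit 36) (nat_lit 135) r10_36 r5_135 (nat_lit 0) (nat_lit 0) (nat_lit 16735369) (nat_lit 0x79b416a78) (nat_lit 656180481),
  Rx.mk (nat_lit 315) (nat_lit 3) (nat_lit 7) (nat_lit 4) (nat_lit 3) (nat_lit 34) (nat_lit 137) r10_34 r5_137 (nat_lit 0) (nat_lit 0) (nat_lit 5865404) (nat_lit 0x7ef7589d0) (nat_lit 560306366),
  Rx.mk (nat_lit 443) (nat_lit 3) (nat_lit 7) (nat_lit 6) (nat_lit 7) (nat_lit 35) (nat_lit 138) r10_35 r5_138 (nat_lit 0) (nat_lit 0) (nat_lit 0) (nat_lit 0x815de8a72) (nat_lit 517001212),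
  Rx.mk (nat_lit 472) (nat_lit 0) (nat_lit 3) (nat_lit 7) (nat_lit 6) (nat_lit 32) (nat_lit 134) r10_32 r5_134 (nat_lit 6614420) (nat_lit 0) (nat_lit 0) (nat_lit 0x81f9ff474) (nat_lit 514154582),
  Rx.mk (nat_lit 474) (nat_lit 2) (nat_lit 3) (nat_lit 7) (nat_lit 7) (nat_lit 33) (nat_lit 139) r10_33 r5_139 (nat_lit 0) (nat_lit 0) (nat_lit 0) (nat_lit 0x80c39fc54) (nat_lit 526340012),
  Rx.mk (nat_lit 475) (nat_lit 3) (nat_lit 3) (nat_lit 7) (nat_lit 7) (nat_lit 37) (nat_lit 136) r10_37 r5_136 (nat_lit 0) (nat_lit 0) (nat_lit 0) (nat_lit 0x8017985b4) (nat_lit 536870912)]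
noncomputable def e19_6 : List Rx := [
  Rx.mk (nat_lit 320) (nat_lit 0) (nat_lit 0) (nat_lit 5) (nat_lit 4) (nat_lit 38) (nat_lit 180) r10_38 r3_180 (nat_lit 197362) (nat_lit 167695) (nat_lit 0) (nat_lit 0x640a65476) (nat_lit 989404669),
  Rx.mk (nat_lit 321) (nat_lit 1) (nat_lit 0) (nat_lit 5) (nat_lit 5) (nat_lit 40) (nat_lit 181) r10_40 r3_181 (nat_lit 0) (nat_lit 24741287) (nat_lit 0) (nat_lit 0x8017985b4) (nat_lit 561612199),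
  Rx.mk (nat_lit 322) (nat_lit 2) (nat_lit 0) (nat_lit 5) (nat_lit 5) (nat_lit 42) (nat_lit 182) r10_42 r3_182 (nat_lit 0) (nat_lit 50053958) (nat_lit 0) (nat_lit 0x7eff903aa) (nat_lit 604233320),
  Rx.mk (nat_lit 344) (nat_lit 0) (nat_lit 3) (nat_lit 5) (nat_lit 6) (nat_lit 39) (nat_lit 183) r10_39 r3_183 (nat_lit 1486174) (nat_lit 0) (nat_lit 0) (nat_lit 0x82dc4fb94) (nat_lit 495172786),
  Rx.mk (nat_lit 345) (nat_lit 1) (nat_lit 3) (nat_lit 5) (nat_lit 7) (nat_lit 41) (nat_lit 184) r10_41 r3_184 (nat_lit 0) (nat_lit 0) (nat_lit 0) (nat_lit 0x8428b5dde) (nat_lit 474166012),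
  Rx.mk (nat_lit 346) (nat_lit 2) (nat_lit 3) (nat_lit 5) (nat_lit 7) (nat_lit 43) (nat_lit 185) r10_43 r3_185 (nat_lit 0) (nat_lit 0) (nat_lit 0) (nat_lit 0x8428a6758) (nat_lit 474169612)]
noncomputable def e19_7 : List Rx := [
  Rx.mk (nat_lit 66) (nat_lit 2) (nat_lit 0) (nat_lit 1) (nat_lit 5) (nat_lit 47) (nat_lit 198) r10_47 r0_198 (nat_lit 0) (nat_lit 45895857) (nat_lit 0) (nat_lit 0x7fb6ad812) (nat_lit 588199269),
  Rx.mk (nat_lit 90) (nat_lit 2) (nat_lit 3) (nat_lit 1) (nat_lit 7) (nat_lit 48) (nat_lit 199) r10_48 r0_199 (nat_lit 0) (nat_lit 0) (nat_lit 0) (nat_lit 0x809c1612e) (nat_lit 528750462),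
  Rx.mk (nat_lit 320) (nat_lit 0) (nat_lit 0) (nat_lit 5) (nat_lit 4) (nat_lit 44) (nat_lit 195) r10_44 r0_195 (nat_lit 2412373) (nat_lit 4364993) (nat_lit 0) (nat_lit 0x599f905a6) (nat_lit 1164616828),
  Rx.mk (nat_lit 321) (nat_lit 1) (nat_lit 0) (nat_lit 5) (nat_lit 5) (nat_lit 45) (nat_lit 196) r10_45 r0_196 (nat_lit 0) (nat_lit 12102424) (nat_lit 0) (nat_lit 0x79db10b88) (nat_lit 649035436),
  Rx.mk (nat_lit 322) (nat_lit 2) (nat_lit 0) (nat_lit 5) (nat_lit 5) (nat_lit 46) (nat_lit 197) r10_46 r0_197 (nat_lit 0) (nat_lit 70189493) (nat_lit 0) (nat_lit 0x7d33fb286) (nat_lit 652998905)]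
noncomputable def e19_8 : List Rx := [
  Rx.mk (nat_lit 66) (nat_lit 2) (nat_lit 0) (nat_lit 1) (nat_lit 5) (nat_lit 49) (nat_lit 217) r10_49 r1_217 (nat_lit 0) (nat_lit 25153554) (nat_lit 0) (nat_lit 0x80e8b8eaa) (nat_lit 549278466),
  Rx.mk (nat_lit 82) (nat_lit 2) (nat_lit 2) (nat_lit 1) (nat_lit 7) (nat_lit 50) (nat_lit 219) r10_50 r1_219 (nat_lit 0) (nat_lit 0) (nat_lit 0) (nat_lit 0x81b14ef04) (nat_lit 511970262),
  Rx.mk (nat_lit 90) (nat_lit 2) (nat_lit 3) (nat_lit 1) (nat_lit 7) (nat_lit 51) (nat_lit 218) r10_51 r1_218 (nat_lit 0) (nat_lit 0) (nat_lit 0) (nat_lit 0x8017985b4) (nat_lit 536870912)]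
noncomputable def e19_9 : List Rx := [
  Rx.mk (nat_lit 90) (nat_lit 2) (nat_lit 3) (nat_lit 1) (nat_lit 7) (nat_lit 58) (nat_lit 187) r10_58 r4_187 (nat_lit 0) (nat_lit 0) (nat_lit 0) (nat_lit 0x8017985b4) (nat_lit 536870912),
  Rx.mk (nat_lit 320) (nat_lit 0) (nat_lit 0) (nat_lit 5) (nat_lit 4) (nat_lit 52) (nat_lit 181) r10_52 r4_181 (nat_lit 11415403) (nat_lit 12084870) (nat_lit 0) (nat_lit 0x6331c3eb0) (nat_lit 1026799885),
  Rx.mk (nat_lit 321) (nat_lit 1) (nat_lit 0) (nat_lit 5) (nat_lit 5) (nat_lit 54) (nat_lit 182) r10_54 r4_182 (nat_lit 0) (nat_lit 21073453) (nat_lit 0) (nat_lit 0x8042207e6) (nat_lit 555329265),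
  Rx.mk (nat_lit 322) (nat_lit 2) (nat_lit 0) (nat_lit 5) (nat_lit 5) (nat_lit 56) (nat_lit 183) r10_56 r4_183 (nat_lit 0) (nat_lit 23202415) (nat_lit 0) (nat_lit 0x7faaa218a) (nat_lit 566751477),
  Rx.mk (nat_lit 344) (nat_lit 0) (nat_lit 3) (nat_lit 5) (nat_lit 6) (nat_lit 53) (nat_lit 184) r10_53 r4_184 (nat_lit 10881583) (nat_lit 0) (nat_lit 0) (nat_lit 0x80aa66698) (nat_lit 538695745),
  Rx.mk (nat_lit 345) (nat_lit 1) (nat_lit 3) (nat_lit 5) (nat_lit 7) (nat_lit 55) (nat_lit 185) r10_55 r4_185 (nat_lit 0) (nat_lit 0) (nat_lit 0) (nat_lit 0x80a823854) (nat_lit 528019812),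
  Rx.mk (nat_lit 346) (nat_lit 2) (nat_lit 3) (nat_lit 5) (nat_lit 7) (nat_lit 57) (nat_lit 186) r10_57 r4_186 (nat_lit 0) (nat_lit 0) (nat_lit 0) (nat_lit 0x80a823516) (nat_lit 528019862)]
noncomputable def e19_10 : List Rx := [
  Rx.mk (nat_lit 280) (nat_lit 0) (nat_lit 3) (nat_lit 4) (nat_lit 2) (nat_lit 59) (nat_lit 140) r10_59 r6_140 (nat_lit 3908311) (nat_lit 0) (nat_lit 3437710) (nat_lit 0x70b62ad72) (nat_lit 791927083),
  Rx.mk (nat_lit 281) (nat_lit 1) (nat_lit 3) (nat_lit 4) (nat_lit 3) (nat_lit 62) (nat_lit 143) r10_62 r6_143 (nat_lit 0) (nat_lit 0) (nat_lit 14773968) (nat_lit 0x80be7a56c) (nat_lit 541432730),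
  Rx.mk (nat_lit 282) (nat_lit 2) (nat_lit 3) (nat_lit 4) (nat_lit 3) (nat_lit 64) (nat_lit 150) r10_64 r6_150 (nat_lit 0) (nat_lit 0) (nat_lit 14995754) (nat_lit 0x80820fd34) (nat_lit 545312416),
  Rx.mk (nat_lit 283) (nat_lit 3) (nat_lit 3) (nat_lit 4) (nat_lit 3) (nat_lit 70) (nat_lit 145) r10_70 r6_145 (nat_lit 0) (nat_lit 0) (nat_lit 24741287) (nat_lit 0x7f68b2360) (nat_lit 572388699),
  Rx.mk (nat_lit 315) (nat_lit 3) (nat_lit 7) (nat_lit 4) (nat_lit 3) (nat_lit 67) (nat_lit 147) r10_67 r6_147 (nat_lit 0) (nat_lit 0) (nat_lit 9336562) (nat_lit 0x80cea0392) (nat_lit 534941174),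
  Rx.mk (nat_lit 344) (nat_lit 0) (nat_lit 3) (nat_lit 5) (nat_lit 6) (nat_lit 60) (nat_lit 141) r10_60 r6_141 (nat_lit 18189542) (nat_lit 0) (nat_lit 0) (nat_lit 0x807407840) (nat_lit 549393204),
  Rx.mk (nat_lit 346) (nat_lit 2) (nat_lit 3) (nat_lit 5) (nat_lit 7) (nat_lit 65) (nat_lit 151) r10_65 r6_151 (nat_lit 0) (nat_lit 0) (nat_lit 0) (nat_lit 0x8017985b4) (nat_lit 536870912),
  Rx.mk (nat_lit 347) (nat_lit 3) (nat_lit 3) (nat_lit 5) (nat_lit 7) (nat_lit 71) (nat_lit 146) r10_71 r6_146 (nat_lit 0) (nat_lit 0) (nat_lit 0) (nat_lit 0x8017985b4) (nat_lit 536870912),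
  Rx.mk (nat_lit 379) (nat_lit 3) (nat_lit 7) (nat_lit 5) (nat_lit 7) (nat_lit 68) (nat_lit 148) r10_68 r6_148 (nat_lit 0) (nat_lit 0) (nat_lit 0) (nat_lit 0x80d032dc2) (nat_lit 525585862),
  Rx.mk (nat_lit 443) (nat_lit 3) (nat_lit 7) (nat_lit 6) (nat_lit 7) (nat_lit 69) (nat_lit 149) r10_69 r6_149 (nat_lit 0) (nat_lit 0) (nat_lit 0) (nat_lit 0x80d033132) (nat_lit 525585812),
  Rx.mk (nat_lit 472) (nat_lit 0) (nat_lit 3) (nat_lit 7) (nat_lit 6) (nat_lit 61) (nat_lit 142) r10_61 r6_142 (nat_lit 8452867) (nat_lit 0) (nat_lit 0) (nat_lit 0x80ffe1c3a) (nat_lit 531055429),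
  Rx.mk (nat_lit 473) (nat_lit 1) (nat_lit 3) (nat_lit 7) (nat_lit 7) (nat_lit 63) (nat_lit 144) r10_63 r6_144 (nat_lit 0) (nat_lit 0) (nat_lit 0) (nat_lit 0x80d199d14) (nat_lit 525495962),
  Rx.mk (nat_lit 474) (nat_lit 2) (nat_lit 3) (nat_lit 7) (nat_lit 7) (nat_lit 66) (nat_lit 152) r10_66 r6_152 (nat_lit 0) (nat_lit 0) (nat_lit 0) (nat_lit 0x80d1999d6) (nat_lit 525496012)]
noncomputable def e19_11 : List Rx := [
  Rx.mk (nat_lit 320) (nat_lit 0) (nat_lit 0) (nat_lit 5) (nat_lit 4) (nat_lit 72) (nat_lit 197) r10_72 r5_197 (nat_lit 4889214) (nat_lit 11835146) (nat_lit 0) (nat_lit 0x6ab7fa806) (nat_lit 898281722),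
  Rx.mk (nat_lit 322) (nat_lit 2) (nat_lit 0) (nat_lit 5) (nat_lit 5) (nat_lit 74) (nat_lit 198) r10_74 r5_198 (nat_lit 0) (nat_lit 24741287) (nat_lit 0) (nat_lit 0x7fb2f649e) (nat_lit 567798249),
  Rx.mk (nat_lit 344) (nat_lit 0) (nat_lit 3) (nat_lit 5) (nat_lit 6) (nat_lit 73) (nat_lit 199) r10_73 r5_199 (nat_lit 5323301) (nat_lit 0) (nat_lit 0) (nat_lit 0x821784ed6) (nat_lit 511046163),
  Rx.mk (nat_lit 346) (nat_lit 2) (nat_lit 3) (nat_lit 5) (nat_lit 7) (nat_lit 75) (nat_lit 201) r10_75 r5_201 (nat_lit 0) (nat_lit 0) (nat_lit 0) (nat_lit 0x80ff5f960) (nat_lit 522714412),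
  Rx.mk (nat_lit 347) (nat_lit 3) (nat_lit 3) (nat_lit 5) (nat_lit 7) (nat_lit 76) (nat_lit 200) r10_76 r5_200 (nat_lit 0) (nat_lit 0) (nat_lit 0) (nat_lit 0x8017985b4) (nat_lit 536870912)]
noncomputable def e19_12 : List Rx := [
  Rx.mk (nat_lit 420) (nat_lit 4) (nat_lit 4) (nat_lit 6) (nat_lit 4) (nat_lit 77) (nat_lit 147) r10_77 r0_147 (nat_lit 2583088) (nat_lit 5072318) (nat_lit 0) (nat_lit 0x6af50b056) (nat_lit 885195018),
  Rx.mk (nat_lit 423) (nat_lit 7) (nat_lit 4) (nat_lit 6) (nat_lit 5) (nat_lit 79) (nat_lit 148) r10_79 r0_148 (nat_lit 0) (nat_lit 61676723) (nat_lit 0) (nat_lit 0x7d6a0fc8c) (nat_lit 641243735),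
  Rx.mk (nat_lit 436) (nat_lit 4) (nat_lit 6) (nat_lit 6) (nat_lit 6) (nat_lit 78) (nat_lit 150) r10_78 r0_150 (nat_lit 21612680) (nat_lit 0) (nat_lit 0) (nat_lit 0x79ca6153a) (nat_lit 659669742),
  Rx.mk (nat_lit 439) (nat_lit 7) (nat_lit 6) (nat_lit 6) (nat_lit 7) (nat_lit 80) (nat_lit 151) r10_80 r0_151 (nat_lit 0) (nat_lit 0) (nat_lit 0) (nat_lit 0x7fba6e0c8) (nat_lit 542601512),
  Rx.mk (nat_lit 447) (nat_lit 7) (nat_lit 7) (nat_lit 6) (nat_lit 7) (nat_lit 81) (nat_lit 149) r10_81 r0_149 (nat_lit 0) (nat_lit 0) (nat_lit 0) (nat_lit 0x7fef30450) (nat_lit 539335212)]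
noncomputable def e19_13 : List Rx := [
  Rx.mk (nat_lit 2) (nat_lit 2) (nat_lit 0) (nat_lit 0) (nat_lit 1) (nat_lit 91) (nat_lit 184) r10_91 r7_184 (nat_lit 0) (nat_lit 2494455) (nat_lit 2041025) (nat_lit 0x6a9b34cd0) (nat_lit 887706942),
  Rx.mk (nat_lit 18) (nat_lit 2) (nat_lit 2) (nat_lit 0) (nat_lit 3) (nat_lit 93) (nat_lit 187) r10_93 r7_187 (nat_lit 0) (nat_lit 0) (nat_lit 21221230) (nat_lit 0x7ffecc166) (nat_lit 559591742),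
  Rx.mk (nat_lit 22) (nat_lit 6) (nat_lit 2) (nat_lit 0) (nat_lit 3) (nat_lit 86) (nat_lit 195) r10_86 r7_195 (nat_lit 0) (nat_lit 0) (nat_lit 24741287) (nat_lit 0x7fd76a0e6) (nat_lit 565534799),
  Rx.mk (nat_lit 150) (nat_lit 6) (nat_lit 2) (nat_lit 2) (nat_lit 7) (nat_lit 87) (nat_lit 196) r10_87 r7_196 (nat_lit 0) (nat_lit 0) (nat_lit 0) (nat_lit 0x8017985b4) (nat_lit 536870912),
  Rx.mk (nat_lit 180) (nat_lit 4) (nat_lit 6) (nat_lit 2) (nat_lit 6) (nat_lit 84) (nat_lit 190) r10_84 r7_190 (nat_lit 24741287) (nat_lit 0) (nat_lit 0) (nat_lit 0x7fd76a0e6) (nat_lit 565534799),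
  Rx.mk (nat_lit 182) (nat_lit 6) (nat_lit 6) (nat_lit 2) (nat_lit 7) (nat_lit 85) (nat_lit 197) r10_85 r7_197 (nat_lit 0) (nat_lit 0) (nat_lit 0) (nat_lit 0x8017985b4) (nat_lit 536870912),
  Rx.mk (nat_lit 194) (nat_lit 2) (nat_lit 0) (nat_lit 3) (nat_lit 5) (nat_lit 92) (nat_lit 185) r10_92 r7_185 (nat_lit 0) (nat_lit 24741287) (nat_lit 0) (nat_lit 0x8017985b4) (nat_lit 561612199),
  Rx.mk (nat_lit 210) (nat_lit 2) (nat_lit 2) (nat_lit 3) (nat_lit 7) (nat_lit 94) (nat_lit 188) r10_94 r7_188 (nat_lit 0) (nat_lit 0) (nat_lit 0) (nat_lit 0x8017985b4) (nat_lit 536870912),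
  Rx.mk (nat_lit 218) (nat_lit 2) (nat_lit 3) (nat_lit 3) (nat_lit 7) (nat_lit 95) (nat_lit 186) r10_95 r7_186 (nat_lit 0) (nat_lit 0) (nat_lit 0) (nat_lit 0x8017985b4) (nat_lit 536870912),
  Rx.mk (nat_lit 420) (nat_lit 4) (nat_lit 4) (nat_lit 6) (nat_lit 4) (nat_lit 82) (nat_lit 189) r10_82 r7_189 (nat_lit 2041025) (nat_lit 2494455) (nat_lit 0) (nat_lit 0x6a9b34cd0) (nat_lit 887706942),
  Rx.mk (nat_lit 423) (nat_lit 7) (nat_lit 4) (nat_lit 6) (nat_lit 5) (nat_lit 88) (nat_lit 192) r10_88 r7_192 (nat_lit 0) (nat_lit 24741287) (nat_lit 0) (nat_lit 0x8017985b4) (nat_lit 561612199),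
  Rx.mk (nat_lit 436) (nat_lit 4) (nat_lit 6) (nat_lit 6) (nat_lit 6) (nat_lit 83) (nat_lit 191) r10_83 r7_191 (nat_lit 21221230) (nat_lit 0) (nat_lit 0) (nat_lit 0x7ffecc166) (nat_lit 559591742),
  Rx.mk (nat_lit 439) (nat_lit 7) (nat_lit 6) (nat_lit 6) (nat_lit 7) (nat_lit 89) (nat_lit 194) r10_89 r7_194 (nat_lit 0) (nat_lit 0) (nat_lit 0) (nat_lit 0x8017985b4) (nat_lit 536870912),
  Rx.mk (nat_lit 447) (nat_lit 7) (nat_lit 7) (nat_lit 6) (nat_lit 7) (nat_lit 90) (nat_lit 193) r10_90 r7_193 (nat_lit 0) (nat_lit 0) (nat_lit 0) (nat_lit 0x8017985b4) (nat_lit 536870912)]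
noncomputable def e19_14 : List Rx := [
  Rx.mk (nat_lit 420) (nat_lit 4) (nat_lit 4) (nat_lit 6) (nat_lit 4) (nat_lit 96) (nat_lit 161) r10_96 r1_161 (nat_lit 15183139) (nat_lit 22829563) (nat_lit 0) (nat_lit 0x6e1d4f8f2) (nat_lit 864770414),
  Rx.mk (nat_lit 423) (nat_lit 7) (nat_lit 4) (nat_lit 6) (nat_lit 5) (nat_lit 98) (nat_lit 162) r10_98 r1_162 (nat_lit 0) (nat_lit 24741287) (nat_lit 0) (nat_lit 0x7fca1d474) (nat_lit 566365499),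
  Rx.mk (nat_lit 436) (nat_lit 4) (nat_lit 6) (nat_lit 6) (nat_lit 6) (nat_lit 97) (nat_lit 164) r10_97 r1_164 (nat_lit 9818448) (nat_lit 0) (nat_lit 0) (nat_lit 0x77a95bc0c) (nat_lit 682197510),
  Rx.mk (nat_lit 439) (nat_lit 7) (nat_lit 6) (nat_lit 6) (nat_lit 7) (nat_lit 99) (nat_lit 165) r10_99 r1_165 (nat_lit 0) (nat_lit 0) (nat_lit 0) (nat_lit 0x804a4b9b6) (nat_lit 533752062),
  Rx.mk (nat_lit 447) (nat_lit 7) (nat_lit 7) (nat_lit 6) (nat_lit 7) (nat_lit 100) (nat_lit 163) r10_100 r1_163 (nat_lit 0) (nat_lit 0) (nat_lit 0) (nat_lit 0x8017985b4) (nat_lit 536870912)]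
noncomputable def e19_15 : List Rx := [
  Rx.mk (nat_lit 150) (nat_lit 6) (nat_lit 2) (nat_lit 2) (nat_lit 7) (nat_lit 105) (nat_lit 155) r10_105 r8_155 (nat_lit 0) (nat_lit 0) (nat_lit 0) (nat_lit 0x8017985b4) (nat_lit 536870912),
  Rx.mk (nat_lit 180) (nat_lit 4) (nat_lit 6) (nat_lit 2) (nat_lit 6) (nat_lit 103) (nat_lit 150) r10_103 r8_150 (nat_lit 24741287) (nat_lit 0) (nat_lit 0) (nat_lit 0x8006a3cfe) (nat_lit 562650649),
  Rx.mk (nat_lit 182) (nat_lit 6) (nat_lit 6) (nat_lit 2) (nat_lit 7) (nat_lit 104) (nat_lit 156) r10_104 r8_156 (nat_lit 0) (nat_lit 0) (nat_lit 0) (nat_lit 0x8017985b4) (nat_lit 536870912),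
  Rx.mk (nat_lit 420) (nat_lit 4) (nat_lit 4) (nat_lit 6) (nat_lit 4) (nat_lit 101) (nat_lit 149) r10_101 r8_149 (nat_lit 25194848) (nat_lit 27532938) (nat_lit 0) (nat_lit 0x6502bec76) (nat_lit 1026751498),
  Rx.mk (nat_lit 423) (nat_lit 7) (nat_lit 4) (nat_lit 6) (nat_lit 5) (nat_lit 106) (nat_lit 152) r10_106 r8_152 (nat_lit 0) (nat_lit 24741287) (nat_lit 0) (nat_lit 0x7fc74cd8a) (nat_lit 566520649),
  Rx.mk (nat_lit 436) (nat_lit 4) (nat_lit 6) (nat_lit 6) (nat_lit 6) (nat_lit 102) (nat_lit 151) r10_102 r8_151 (nat_lit 24741287) (nat_lit 0) (nat_lit 0) (nat_lit 0x80046e510) (nat_lit 562785099),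
  Rx.mk (nat_lit 439) (nat_lit 7) (nat_lit 6) (nat_lit 6) (nat_lit 7) (nat_lit 107) (nat_lit 154) r10_107 r8_154 (nat_lit 0) (nat_lit 0) (nat_lit 0) (nat_lit 0x8017985b4) (nat_lit 536870912),
  Rx.mk (nat_lit 447) (nat_lit 7) (nat_lit 7) (nat_lit 6) (nat_lit 7) (nat_lit 108) (nat_lit 153) r10_108 r8_153 (nat_lit 0) (nat_lit 0) (nat_lit 0) (nat_lit 0x8017985b4) (nat_lit 536870912)]
noncomputable def e19_16 : List Rx := [
  Rx.mk (nat_lit 2) (nat_lit 2) (nat_lit 0) (nat_lit 0) (nat_lit 1) (nat_lit 112) (nat_lit 149) r10_112 r8_149 (nat_lit 0) (nat_lit 27532938) (nat_lit 25194848) (nat_lit 0x6502bec76) (nat_lit 1026751498),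
  Rx.mk (nat_lit 18) (nat_lit 2) (nat_lit 2) (nat_lit 0) (nat_lit 3) (nat_lit 114) (nat_lit 151) r10_114 r8_151 (nat_lit 0) (nat_lit 0) (nat_lit 24741287) (nat_lit 0x80046e510) (nat_lit 562785099),
  Rx.mk (nat_lit 22) (nat_lit 6) (nat_lit 2) (nat_lit 0) (nat_lit 3) (nat_lit 110) (nat_lit 150) r10_110 r8_150 (nat_lit 0) (nat_lit 0) (nat_lit 24741287) (nat_lit 0x8006a3cfe) (nat_lit 562650649),
  Rx.mk (nat_lit 150) (nat_lit 6) (nat_lit 2) (nat_lit 2) (nat_lit 7) (nat_lit 111) (nat_lit 156) r10_111 r8_156 (nat_lit 0) (nat_lit 0) (nat_lit 0) (nat_lit 0x8017985b4) (nat_lit 536870912),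
  Rx.mk (nat_lit 182) (nat_lit 6) (nat_lit 6) (nat_lit 2) (nat_lit 7) (nat_lit 109) (nat_lit 155) r10_109 r8_155 (nat_lit 0) (nat_lit 0) (nat_lit 0) (nat_lit 0x8017985b4) (nat_lit 536870912),
  Rx.mk (nat_lit 194) (nat_lit 2) (nat_lit 0) (nat_lit 3) (nat_lit 5) (nat_lit 113) (nat_lit 152) r10_113 r8_152 (nat_lit 0) (nat_lit 24741287) (nat_lit 0) (nat_lit 0x7fc74cd8a) (nat_lit 566520649),
  Rx.mk (nat_lit 210) (nat_lit 2) (nat_lit 2) (nat_lit 3) (nat_lit 7) (nat_lit 115) (nat_lit 154) r10_115 r8_154 (nat_lit 0) (nat_lit 0) (nat_lit 0) (nat_lit 0x8017985b4) (nat_lit 536870912),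
  Rx.mk (nat_lit 218) (nat_lit 2) (nat_lit 3) (nat_lit 3) (nat_lit 7) (nat_lit 116) (nat_lit 153) r10_116 r8_153 (nat_lit 0) (nat_lit 0) (nat_lit 0) (nat_lit 0x8017985b4) (nat_lit 536870912)]
noncomputable def e19_17 : List Rx := [
  Rx.mk (nat_lit 2) (nat_lit 2) (nat_lit 0) (nat_lit 0) (nat_lit 1) (nat_lit 120) (nat_lit 136) r10_120 r9_136 (nat_lit 0) (nat_lit 28731315) (nat_lit 40997444) (nat_lit 0x62fe769f4) (nat_lit 1076357921),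
  Rx.mk (nat_lit 18) (nat_lit 2) (nat_lit 2) (nat_lit 0) (nat_lit 3) (nat_lit 122) (nat_lit 141) r10_122 r9_141 (nat_lit 0) (nat_lit 0) (nat_lit 24741287) (nat_lit 0x7fcd6a76c) (nat_lit 566141199),
  Rx.mk (nat_lit 22) (nat_lit 6) (nat_lit 2) (nat_lit 0) (nat_lit 3) (nat_lit 117) (nat_lit 143) r10_117 r9_143 (nat_lit 0) (nat_lit 0) (nat_lit 24741287) (nat_lit 0x7fffebc7c) (nat_lit 563058399),
  Rx.mk (nat_lit 26) (nat_lit 2) (nat_lit 3) (nat_lit 0) (nat_lit 3) (nat_lit 124) (nat_lit 138) r10_124 r9_138 (nat_lit 0) (nat_lit 0) (nat_lit 25252468) (nat_lit 0x7fd0be0b2) (nat_lit 566460430),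
  Rx.mk (nat_lit 66) (nat_lit 2) (nat_lit 0) (nat_lit 1) (nat_lit 5) (nat_lit 121) (nat_lit 137) r10_121 r9_137 (nat_lit 0) (nat_lit 24741287) (nat_lit 0) (nat_lit 0x8017985b4) (nat_lit 561612199),
  Rx.mk (nat_lit 82) (nat_lit 2) (nat_lit 2) (nat_lit 1) (nat_lit 7) (nat_lit 123) (nat_lit 142) r10_123 r9_142 (nat_lit 0) (nat_lit 0) (nat_lit 0) (nat_lit 0x8017985b4) (nat_lit 536870912),
  Rx.mk (nat_lit 86) (nat_lit 6) (nat_lit 2) (nat_lit 1) (nat_lit 7) (nat_lit 118) (nat_lit 144) r10_118 r9_144 (nat_lit 0) (nat_lit 0) (nat_lit 0) (nat_lit 0x8017985b4) (nat_lit 536870912),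
  Rx.mk (nat_lit 90) (nat_lit 2) (nat_lit 3) (nat_lit 1) (nat_lit 7) (nat_lit 125) (nat_lit 139) r10_125 r9_139 (nat_lit 0) (nat_lit 0) (nat_lit 0) (nat_lit 0x8017985b4) (nat_lit 536870912),
  Rx.mk (nat_lit 150) (nat_lit 6) (nat_lit 2) (nat_lit 2) (nat_lit 7) (nat_lit 119) (nat_lit 145) r10_119 r9_145 (nat_lit 0) (nat_lit 0) (nat_lit 0) (nat_lit 0x8017985b4) (nat_lit 536870912),
  Rx.mk (nat_lit 218) (nat_lit 2) (nat_lit 3) (nat_lit 3) (nat_lit 7) (nat_lit 126) (nat_lit 140) r10_126 r9_140 (nat_lit 0) (nat_lit 0) (nat_lit 0) (nat_lit 0x8017985b4) (nat_lit 536870912)]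
noncomputable def e19_18 : List Rx := [
  Rx.mk (nat_lit 315) (nat_lit 3) (nat_lit 7) (nat_lit 4) (nat_lit 3) (nat_lit 132) (nat_lit 134) r10_132 r4_134 (nat_lit 0) (nat_lit 0) (nat_lit 19244630) (nat_lit 0x801080380) (nat_lit 556512792),
  Rx.mk (nat_lit 423) (nat_lit 7) (nat_lit 4) (nat_lit 6) (nat_lit 5) (nat_lit 127) (nat_lit 139) r10_127 r4_139 (nat_lit 0) (nat_lit 24676068) (nat_lit 0) (nat_lit 0x7e8afe690) (nat_lit 586102830),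
  Rx.mk (nat_lit 439) (nat_lit 7) (nat_lit 6) (nat_lit 6) (nat_lit 7) (nat_lit 128) (nat_lit 142) r10_128 r4_142 (nat_lit 0) (nat_lit 0) (nat_lit 0) (nat_lit 0x8017985b4) (nat_lit 536870912),
  Rx.mk (nat_lit 443) (nat_lit 3) (nat_lit 7) (nat_lit 6) (nat_lit 7) (nat_lit 133) (nat_lit 141) r10_133 r4_141 (nat_lit 0) (nat_lit 0) (nat_lit 0) (nat_lit 0x8017985b4) (nat_lit 536870912),
  Rx.mk (nat_lit 447) (nat_lit 7) (nat_lit 7) (nat_lit 6) (nat_lit 7) (nat_lit 129) (nat_lit 140) r10_129 r4_140 (nat_lit 0) (nat_lit 0) (nat_lit 0) (nat_lit 0x809f243f2) (nat_lit 528567662),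
  Rx.mk (nat_lit 472) (nat_lit 0) (nat_lit 3) (nat_lit 7) (nat_lit 6) (nat_lit 130) (nat_lit 136) r10_130 r4_136 (nat_lit 12224820) (nat_lit 0) (nat_lit 0) (nat_lit 0x806946df2) (nat_lit 544040032),
  Rx.mk (nat_lit 474) (nat_lit 2) (nat_lit 3) (nat_lit 7) (nat_lit 7) (nat_lit 131) (nat_lit 138) r10_131 r4_138 (nat_lit 0) (nat_lit 0) (nat_lit 0) (nat_lit 0x804468c56) (nat_lit 534115312),
  Rx.mk (nat_lit 475) (nat_lit 3) (nat_lit 3) (nat_lit 7) (nat_lit 7) (nat_lit 135) (nat_lit 137) r10_135 r4_137 (nat_lit 0) (nat_lit 0) (nat_lit 0) (nat_lit 0x8017985b4) (nat_lit 536870912),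
  Rx.mk (nat_lit 507) (nat_lit 3) (nat_lit 7) (nat_lit 7) (nat_lit 7) (nat_lit 134) (nat_lit 135) r10_134 r4_135 (nat_lit 0) (nat_lit 0) (nat_lit 0) (nat_lit 0x8017985b4) (nat_lit 536870912)]
noncomputable def e19_19 : List Rx := [
  Rx.mk (nat_lit 22) (nat_lit 6) (nat_lit 2) (nat_lit 0) (nat_lit 3) (nat_lit 138) (nat_lit 150) r10_138 r10_150 (nat_lit 0) (nat_lit 0) (nat_lit 5487991) (nat_lit 0x7daf29de0) (nat_lit 580522453),
  Rx.mk (nat_lit 150) (nat_lit 6) (nat_lit 2) (nat_lit 2) (nat_lit 7) (nat_lit 139) (nat_lit 152) r10_139 r10_152 (nat_lit 0) (nat_lit 0) (nat_lit 0) (nat_lit 0x8017985b4) (nat_lit 536870912),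
  Rx.mk (nat_lit 180) (nat_lit 4) (nat_lit 6) (nat_lit 2) (nat_lit 6) (nat_lit 136) (nat_lit 145) r10_136 r10_145 (nat_lit 5487991) (nat_lit 0) (nat_lit 0) (nat_lit 0x7daf29de0) (nat_lit 580522453),
  Rx.mk (nat_lit 182) (nat_lit 6) (nat_lit 6) (nat_lit 2) (nat_lit 7) (nat_lit 137) (nat_lit 153) r10_137 r10_153 (nat_lit 0) (nat_lit 0) (nat_lit 0) (nat_lit 0x8017985b4) (nat_lit 536870912),
  Rx.mk (nat_lit 183) (nat_lit 7) (nat_lit 6) (nat_lit 2) (nat_lit 7) (nat_lit 143) (nat_lit 148) r10_143 r10_148 (nat_lit 0) (nat_lit 0) (nat_lit 0) (nat_lit 0x8017985b4) (nat_lit 536870912),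
  Rx.mk (nat_lit 194) (nat_lit 2) (nat_lit 0) (nat_lit 3) (nat_lit 5) (nat_lit 146) (nat_lit 141) r10_146 r10_141 (nat_lit 0) (nat_lit 12670382) (nat_lit 0) (nat_lit 0x7eae7fcf4) (nat_lit 571834594),
  Rx.mk (nat_lit 210) (nat_lit 2) (nat_lit 2) (nat_lit 3) (nat_lit 7) (nat_lit 147) (nat_lit 144) r10_147 r10_144 (nat_lit 0) (nat_lit 0) (nat_lit 0) (nat_lit 0x8017985b4) (nat_lit 536870912),
  Rx.mk (nat_lit 214) (nat_lit 6) (nat_lit 2) (nat_lit 3) (nat_lit 7) (nat_lit 140) (nat_lit 151) r10_140 r10_151 (nat_lit 0) (nat_lit 0) (nat_lit 0) (nat_lit 0x8017985b4) (nat_lit 536870912),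
  Rx.mk (nat_lit 218) (nat_lit 2) (nat_lit 3) (nat_lit 3) (nat_lit 7) (nat_lit 149) (nat_lit 142) r10_149 r10_142 (nat_lit 0) (nat_lit 0) (nat_lit 0) (nat_lit 0x8017985b4) (nat_lit 536870912),
  Rx.mk (nat_lit 315) (nat_lit 3) (nat_lit 7) (nat_lit 4) (nat_lit 3) (nat_lit 150) (nat_lit 138) r10_150 r10_138 (nat_lit 0) (nat_lit 0) (nat_lit 5487991) (nat_lit 0x7daf29de0) (nat_lit 580522453),
  Rx.mk (nat_lit 423) (nat_lit 7) (nat_lit 4) (nat_lit 6) (nat_lit 5) (nat_lit 141) (nat_lit 146) r10_141 r10_146 (nat_lit 0) (nat_lit 12670382) (nat_lit 0) (nat_lit 0x7eae7fcf4) (nat_lit 571834594),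
  Rx.mk (nat_lit 439) (nat_lit 7) (nat_lit 6) (nat_lit 6) (nat_lit 7) (nat_lit 142) (nat_lit 149) r10_142 r10_149 (nat_lit 0) (nat_lit 0) (nat_lit 0) (nat_lit 0x8017985b4) (nat_lit 536870912),
  Rx.mk (nat_lit 443) (nat_lit 3) (nat_lit 7) (nat_lit 6) (nat_lit 7) (nat_lit 151) (nat_lit 140) r10_151 r10_140 (nat_lit 0) (nat_lit 0) (nat_lit 0) (nat_lit 0x8017985b4) (nat_lit 536870912),
  Rx.mk (nat_lit 447) (nat_lit 7) (nat_lit 7) (nat_lit 6) (nat_lit 7) (nat_lit 144) (nat_lit 147) r10_144 r10_147 (nat_lit 0) (nat_lit 0) (nat_lit 0) (nat_lit 0x8017985b4) (nat_lit 536870912),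
  Rx.mk (nat_lit 472) (nat_lit 0) (nat_lit 3) (nat_lit 7) (nat_lit 6) (nat_lit 145) (nat_lit 136) r10_145 r10_136 (nat_lit 5487991) (nat_lit 0) (nat_lit 0) (nat_lit 0x7daf29de0) (nat_lit 580522453),
  Rx.mk (nat_lit 474) (nat_lit 2) (nat_lit 3) (nat_lit 7) (nat_lit 7) (nat_lit 148) (nat_lit 143) r10_148 r10_143 (nat_lit 0) (nat_lit 0) (nat_lit 0) (nat_lit 0x8017985b4) (nat_lit 536870912),
  Rx.mk (nat_lit 475) (nat_lit 3) (nat_lit 3) (nat_lit 7) (nat_lit 7) (nat_lit 153) (nat_lit 137) r10_153 r10_137 (nat_lit 0) (nat_lit 0) (nat_lit 0) (nat_lit 0x8017985b4) (nat_lit 536870912),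
  Rx.mk (nat_lit 507) (nat_lit 3) (nat_lit 7) (nat_lit 7) (nat_lit 7) (nat_lit 152) (nat_lit 139) r10_152 r10_139 (nat_lit 0) (nat_lit 0) (nat_lit 0) (nat_lit 0x8017985b4) (nat_lit 536870912)]
noncomputable def e19_20 : List Rx := [
  Rx.mk (nat_lit 283) (nat_lit 3) (nat_lit 3) (nat_lit 4) (nat_lit 3) (nat_lit 159) (nat_lit 138) r10_159 r11_138 (nat_lit 0) (nat_lit 0) (nat_lit 24741287) (nat_lit 0x8017985b4) (nat_lit 561612199),
  Rx.mk (nat_lit 315) (nat_lit 3) (nat_lit 7) (nat_lit 4) (nat_lit 3) (nat_lit 157) (nat_lit 140) r10_157 r11_140 (nat_lit 0) (nat_lit 0) (nat_lit 24894793) (nat_lit 0x8000a4c72) (nat_lit 563170405),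
  Rx.mk (nat_lit 443) (nat_lit 3) (nat_lit 7) (nat_lit 6) (nat_lit 7) (nat_lit 158) (nat_lit 141) r10_158 r11_141 (nat_lit 0) (nat_lit 0) (nat_lit 0) (nat_lit 0x8017985b4) (nat_lit 536870912),
  Rx.mk (nat_lit 447) (nat_lit 7) (nat_lit 7) (nat_lit 6) (nat_lit 7) (nat_lit 154) (nat_lit 143) r10_154 r11_143 (nat_lit 0) (nat_lit 0) (nat_lit 0) (nat_lit 0x8017985b4) (nat_lit 536870912),
  Rx.mk (nat_lit 472) (nat_lit 0) (nat_lit 3) (nat_lit 7) (nat_lit 6) (nat_lit 155) (nat_lit 137) r10_155 r11_137 (nat_lit 24741287) (nat_lit 0) (nat_lit 0) (nat_lit 0x8017985b4) (nat_lit 561612199),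
  Rx.mk (nat_lit 474) (nat_lit 2) (nat_lit 3) (nat_lit 7) (nat_lit 7) (nat_lit 156) (nat_lit 142) r10_156 r11_142 (nat_lit 0) (nat_lit 0) (nat_lit 0) (nat_lit 0x8017985b4) (nat_lit 536870912),
  Rx.mk (nat_lit 475) (nat_lit 3) (nat_lit 3) (nat_lit 7) (nat_lit 7) (nat_lit 160) (nat_lit 139) r10_160 r11_139 (nat_lit 0) (nat_lit 0) (nat_lit 0) (nat_lit 0x8017985b4) (nat_lit 536870912)]
noncomputable def e19_21 : List Rx := [
  Rx.mk (nat_lit 2) (nat_lit 2) (nat_lit 0) (nat_lit 0) (nat_lit 1) (nat_lit 161) (nat_lit 209) r10_161 r9_209 (nat_lit 0) (nat_lit 34942940) (nat_lit 65106199) (nat_lit 0x66b1feea6) (nat_lit 1046829251),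
  Rx.mk (nat_lit 18) (nat_lit 2) (nat_lit 2) (nat_lit 0) (nat_lit 3) (nat_lit 164) (nat_lit 212) r10_164 r9_212 (nat_lit 0) (nat_lit 0) (nat_lit 24741287) (nat_lit 0x8017985b4) (nat_lit 561612199),
  Rx.mk (nat_lit 66) (nat_lit 2) (nat_lit 0) (nat_lit 1) (nat_lit 5) (nat_lit 162) (nat_lit 210) r10_162 r9_210 (nat_lit 0) (nat_lit 25290688) (nat_lit 0) (nat_lit 0x800987e2a) (nat_lit 563020650),
  Rx.mk (nat_lit 74) (nat_lit 2) (nat_lit 1) (nat_lit 1) (nat_lit 7) (nat_lit 163) (nat_lit 211) r10_163 r9_211 (nat_lit 0) (nat_lit 0) (nat_lit 0) (nat_lit 0x8017985b4) (nat_lit 536870912),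
  Rx.mk (nat_lit 82) (nat_lit 2) (nat_lit 2) (nat_lit 1) (nat_lit 7) (nat_lit 165) (nat_lit 213) r10_165 r9_213 (nat_lit 0) (nat_lit 0) (nat_lit 0) (nat_lit 0x8017985b4) (nat_lit 536870912)]
noncomputable def e19_22 : List Rx := [
  Rx.mk (nat_lit 320) (nat_lit 0) (nat_lit 0) (nat_lit 5) (nat_lit 4) (nat_lit 166) (nat_lit 322) r10_166 r0_322 (nat_lit 17034488) (nat_lit 14038217) (nat_lit 0) (nat_lit 0x6f6e3009a) (nat_lit 836450667),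
  Rx.mk (nat_lit 321) (nat_lit 1) (nat_lit 0) (nat_lit 5) (nat_lit 5) (nat_lit 168) (nat_lit 324) r10_168 r0_324 (nat_lit 0) (nat_lit 24924827) (nat_lit 0) (nat_lit 0x7fc09e13c) (nat_lit 567146289),
  Rx.mk (nat_lit 322) (nat_lit 2) (nat_lit 0) (nat_lit 5) (nat_lit 5) (nat_lit 170) (nat_lit 326) r10_170 r0_326 (nat_lit 0) (nat_lit 25781778) (nat_lit 0) (nat_lit 0x7e4c3ec0c) (nat_lit 591158440),
  Rx.mk (nat_lit 328) (nat_lit 0) (nat_lit 1) (nat_lit 5) (nat_lit 6) (nat_lit 167) (nat_lit 323) r10_167 r0_323 (nat_lit 24741287) (nat_lit 0) (nat_lit 0) (nat_lit 0x8017985b4) (nat_lit 561612199),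
  Rx.mk (nat_lit 329) (nat_lit 1) (nat_lit 1) (nat_lit 5) (nat_lit 7) (nat_lit 169) (nat_lit 325) r10_169 r0_325 (nat_lit 0) (nat_lit 0) (nat_lit 0) (nat_lit 0x8017985b4) (nat_lit 536870912),
  Rx.mk (nat_lit 330) (nat_lit 2) (nat_lit 1) (nat_lit 5) (nat_lit 7) (nat_lit 171) (nat_lit 327) r10_171 r0_327 (nat_lit 0) (nat_lit 0) (nat_lit 0) (nat_lit 0x7ffa5b708) (nat_lit 538653612)]
noncomputable def e19_23 : List Rx := [
  Rx.mk (nat_lit 328) (nat_lit 0) (nat_lit 1) (nat_lit 5) (nat_lit 6) (nat_lit 172) (nat_lit 307) r10_172 r1_307 (nat_lit 24741287) (nat_lit 0) (nat_lit 0) (nat_lit 0x8017985b4) (nat_lit 561612199),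
  Rx.mk (nat_lit 329) (nat_lit 1) (nat_lit 1) (nat_lit 5) (nat_lit 7) (nat_lit 173) (nat_lit 308) r10_173 r1_308 (nat_lit 0) (nat_lit 0) (nat_lit 0) (nat_lit 0x8017985b4) (nat_lit 536870912),
  Rx.mk (nat_lit 330) (nat_lit 2) (nat_lit 1) (nat_lit 5) (nat_lit 7) (nat_lit 174) (nat_lit 309) r10_174 r1_309 (nat_lit 0) (nat_lit 0) (nat_lit 0) (nat_lit 0x8017985b4) (nat_lit 536870912)]
noncomputable def e19_24 : List Rx := [
  Rx.mk (nat_lit 320) (nat_lit 0) (nat_lit 0) (nat_lit 5) (nat_lit 4) (nat_lit 175) (nat_lit 355) r10_175 r4_355 (nat_lit 35822015) (nat_lit 46258346) (nat_lit 0) (nat_lit 0x73116d7f0) (nat_lit 828766423),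
  Rx.mk (nat_lit 321) (nat_lit 1) (nat_lit 0) (nat_lit 5) (nat_lit 5) (nat_lit 178) (nat_lit 358) r10_178 r4_358 (nat_lit 0) (nat_lit 24741287) (nat_lit 0) (nat_lit 0x8017985b4) (nat_lit 561612199),
  Rx.mk (nat_lit 322) (nat_lit 2) (nat_lit 0) (nat_lit 5) (nat_lit 5) (nat_lit 181) (nat_lit 361) r10_181 r4_361 (nat_lit 0) (nat_lit 28199854) (nat_lit 0) (nat_lit 0x800201570) (nat_lit 566376116),
  Rx.mk (nat_lit 328) (nat_lit 0) (nat_lit 1) (nat_lit 5) (nat_lit 6) (nat_lit 176) (nat_lit 356) r10_176 r4_356 (nat_lit 24741287) (nat_lit 0) (nat_lit 0) (nat_lit 0x801405032) (nat_lit 561834699),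
  Rx.mk (nat_lit 329) (nat_lit 1) (nat_lit 1) (nat_lit 5) (nat_lit 7) (nat_lit 179) (nat_lit 359) r10_179 r4_359 (nat_lit 0) (nat_lit 0) (nat_lit 0) (nat_lit 0x8017985b4) (nat_lit 536870912),
  Rx.mk (nat_lit 330) (nat_lit 2) (nat_lit 1) (nat_lit 5) (nat_lit 7) (nat_lit 182) (nat_lit 362) r10_182 r4_362 (nat_lit 0) (nat_lit 0) (nat_lit 0) (nat_lit 0x8017985b4) (nat_lit 536870912),
  Rx.mk (nat_lit 344) (nat_lit 0) (nat_lit 3) (nat_lit 5) (nat_lit 6) (nat_lit 177) (nat_lit 357) r10_177 r4_357 (nat_lit 25246541) (nat_lit 0) (nat_lit 0) (nat_lit 0x7fe66bc2a) (nat_lit 565123853),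
  Rx.mk (nat_lit 345) (nat_lit 1) (nat_lit 3) (nat_lit 5) (nat_lit 7) (nat_lit 180) (nat_lit 360) r10_180 r4_360 (nat_lit 0) (nat_lit 0) (nat_lit 0) (nat_lit 0x8017985b4) (nat_lit 536870912)]
noncomputable def e19_25 : List Rx := [
  Rx.mk (nat_lit 66) (nat_lit 2) (nat_lit 0) (nat_lit 1) (nat_lit 5) (nat_lit 188) (nat_lit 258) r10_188 r7_258 (nat_lit 0) (nat_lit 25393500) (nat_lit 0) (nat_lit 0x7ffadf27e) (nat_lit 564019262),
  Rx.mk (nat_lit 74) (nat_lit 2) (nat_lit 1) (nat_lit 1) (nat_lit 7) (nat_lit 190) (nat_lit 262) r10_190 r7_262 (nat_lit 0) (nat_lit 0) (nat_lit 0) (nat_lit 0x8017985b4) (nat_lit 536870912),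
  Rx.mk (nat_lit 320) (nat_lit 0) (nat_lit 0) (nat_lit 5) (nat_lit 4) (nat_lit 183) (nat_lit 255) r10_183 r7_255 (nat_lit 23931749) (nat_lit 28712906) (nat_lit 0) (nat_lit 0x6a7e66ee6) (nat_lit 937964567),
  Rx.mk (nat_lit 321) (nat_lit 1) (nat_lit 0) (nat_lit 5) (nat_lit 5) (nat_lit 185) (nat_lit 256) r10_185 r7_256 (nat_lit 0) (nat_lit 24741287) (nat_lit 0) (nat_lit 0x8017985b4) (nat_lit 561612199),
  Rx.mk (nat_lit 322) (nat_lit 2) (nat_lit 0) (nat_lit 5) (nat_lit 5) (nat_lit 187) (nat_lit 257) r10_187 r7_257 (nat_lit 0) (nat_lit 25691165) (nat_lit 0) (nat_lit 0x800112efc) (nat_lit 563939677),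
  Rx.mk (nat_lit 328) (nat_lit 0) (nat_lit 1) (nat_lit 5) (nat_lit 6) (nat_lit 184) (nat_lit 259) r10_184 r7_259 (nat_lit 26205094) (nat_lit 0) (nat_lit 0) (nat_lit 0x7ff5adb5c) (nat_lit 565151456),
  Rx.mk (nat_lit 329) (nat_lit 1) (nat_lit 1) (nat_lit 5) (nat_lit 7) (nat_lit 186) (nat_lit 260) r10_186 r7_260 (nat_lit 0) (nat_lit 0) (nat_lit 0) (nat_lit 0x8017985b4) (nat_lit 536870912),
  Rx.mk (nat_lit 330) (nat_lit 2) (nat_lit 1) (nat_lit 5) (nat_lit 7) (nat_lit 189) (nat_lit 261) r10_189 r7_261 (nat_lit 0) (nat_lit 0) (nat_lit 0) (nat_lit 0x8017985b4) (nat_lit 536870912)]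
noncomputable def e19_26 : List Rx := [
  Rx.mk (nat_lit 74) (nat_lit 2) (nat_lit 1) (nat_lit 1) (nat_lit 7) (nat_lit 194) (nat_lit 197) r10_194 r8_197 (nat_lit 0) (nat_lit 0) (nat_lit 0) (nat_lit 0x8017985b4) (nat_lit 536870912),
  Rx.mk (nat_lit 328) (nat_lit 0) (nat_lit 1) (nat_lit 5) (nat_lit 6) (nat_lit 191) (nat_lit 194) r10_191 r8_194 (nat_lit 24741287) (nat_lit 0) (nat_lit 0) (nat_lit 0x8017985b4) (nat_lit 561612199),
  Rx.mk (nat_lit 329) (nat_lit 1) (nat_lit 1) (nat_lit 5) (nat_lit 7) (nat_lit 192) (nat_lit 195) r10_192 r8_195 (nat_lit 0) (nat_lit 0) (nat_lit 0) (nat_lit 0x8017985b4) (nat_lit 536870912),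
  Rx.mk (nat_lit 330) (nat_lit 2) (nat_lit 1) (nat_lit 5) (nat_lit 7) (nat_lit 193) (nat_lit 196) r10_193 r8_196 (nat_lit 0) (nat_lit 0) (nat_lit 0) (nat_lit 0x8017985b4) (nat_lit 536870912)]
noncomputable def e19_27 : List Rx := [
  Rx.mk (nat_lit 66) (nat_lit 2) (nat_lit 0) (nat_lit 1) (nat_lit 5) (nat_lit 195) (nat_lit 355) r10_195 r8_355 (nat_lit 0) (nat_lit 24634759) (nat_lit 0) (nat_lit 0x800b33de6) (nat_lit 562264771),
  Rx.mk (nat_lit 74) (nat_lit 2) (nat_lit 1) (nat_lit 1) (nat_lit 7) (nat_lit 196) (nat_lit 356) r10_196 r8_356 (nat_lit 0) (nat_lit 0) (nat_lit 0) (nat_lit 0x8017985b4) (nat_lit 536870912),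
  Rx.mk (nat_lit 82) (nat_lit 2) (nat_lit 2) (nat_lit 1) (nat_lit 7) (nat_lit 197) (nat_lit 357) r10_197 r8_357 (nat_lit 0) (nat_lit 0) (nat_lit 0) (nat_lit 0x8017985b4) (nat_lit 536870912)]
noncomputable def e19_28 : List Rx := [
  Rx.mk (nat_lit 320) (nat_lit 0) (nat_lit 0) (nat_lit 5) (nat_lit 4) (nat_lit 198) (nat_lit 198) r10_198 r10_198 (nat_lit 16509364) (nat_lit 16509364) (nat_lit 0) (nat_lit 0x6644d8d22) (nat_lit 986668290),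
  Rx.mk (nat_lit 321) (nat_lit 1) (nat_lit 0) (nat_lit 5) (nat_lit 5) (nat_lit 201) (nat_lit 199) r10_201 r10_199 (nat_lit 0) (nat_lit 24741287) (nat_lit 0) (nat_lit 0x8017985b4) (nat_lit 561612199),
  Rx.mk (nat_lit 322) (nat_lit 2) (nat_lit 0) (nat_lit 5) (nat_lit 5) (nat_lit 204) (nat_lit 200) r10_204 r10_200 (nat_lit 0) (nat_lit 24741287) (nat_lit 0) (nat_lit 0x8017985b4) (nat_lit 561612199),
  Rx.mk (nat_lit 328) (nat_lit 0) (nat_lit 1) (nat_lit 5) (nat_lit 6) (nat_lit 199) (nat_lit 201) r10_199 r10_201 (nat_lit 24741287) (nat_lit 0) (nat_lit 0) (nat_lit 0x8017985b4) (nat_lit 561612199),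
  Rx.mk (nat_lit 329) (nat_lit 1) (nat_lit 1) (nat_lit 5) (nat_lit 7) (nat_lit 202) (nat_lit 202) r10_202 r10_202 (nat_lit 0) (nat_lit 0) (nat_lit 0) (nat_lit 0x8017985b4) (nat_lit 536870912),
  Rx.mk (nat_lit 330) (nat_lit 2) (nat_lit 1) (nat_lit 5) (nat_lit 7) (nat_lit 205) (nat_lit 203) r10_205 r10_203 (nat_lit 0) (nat_lit 0) (nat_lit 0) (nat_lit 0x8017985b4) (nat_lit 536870912),
  Rx.mk (nat_lit 344) (nat_lit 0) (nat_lit 3) (nat_lit 5) (nat_lit 6) (nat_lit 200) (nat_lit 204) r10_200 r10_204 (nat_lit 24741287) (nat_lit 0) (nat_lit 0) (nat_lit 0x8017985b4) (nat_lit 561612199),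
  Rx.mk (nat_lit 345) (nat_lit 1) (nat_lit 3) (nat_lit 5) (nat_lit 7) (nat_lit 203) (nat_lit 205) r10_203 r10_205 (nat_lit 0) (nat_lit 0) (nat_lit 0) (nat_lit 0x8017985b4) (nat_lit 536870912)]
noncomputable def e19_29 : List Rx := [
  Rx.mk (nat_lit 320) (nat_lit 0) (nat_lit 0) (nat_lit 5) (nat_lit 4) (nat_lit 206) (nat_lit 230) r10_206 r11_230 (nat_lit 29967916) (nat_lit 53187078) (nat_lit 0) (nat_lit 0x781c132b8) (nat_lit 748379156),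
  Rx.mk (nat_lit 322) (nat_lit 2) (nat_lit 0) (nat_lit 5) (nat_lit 5) (nat_lit 209) (nat_lit 231) r10_209 r11_231 (nat_lit 0) (nat_lit 24741287) (nat_lit 0) (nat_lit 0x8017985b4) (nat_lit 561612199),
  Rx.mk (nat_lit 328) (nat_lit 0) (nat_lit 1) (nat_lit 5) (nat_lit 6) (nat_lit 207) (nat_lit 232) r10_207 r11_232 (nat_lit 24741287) (nat_lit 0) (nat_lit 0) (nat_lit 0x8017985b4) (nat_lit 561612199),
  Rx.mk (nat_lit 330) (nat_lit 2) (nat_lit 1) (nat_lit 5) (nat_lit 7) (nat_lit 210) (nat_lit 233) r10_210 r11_233 (nat_lit 0) (nat_lit 0) (nat_lit 0) (nat_lit 0x8017985b4) (nat_lit 536870912),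
  Rx.mk (nat_lit 344) (nat_lit 0) (nat_lit 3) (nat_lit 5) (nat_lit 6) (nat_lit 208) (nat_lit 234) r10_208 r11_234 (nat_lit 24741287) (nat_lit 0) (nat_lit 0) (nat_lit 0x8017985b4) (nat_lit 561612199),
  Rx.mk (nat_lit 347) (nat_lit 3) (nat_lit 3) (nat_lit 5) (nat_lit 7) (nat_lit 211) (nat_lit 235) r10_211 r11_235 (nat_lit 0) (nat_lit 0) (nat_lit 0) (nat_lit 0x8017985b4) (nat_lit 536870912)]
noncomputable def e19_30 : List Rx := [
  Rx.mk (nat_lit 315) (nat_lit 3) (nat_lit 7) (nat_lit 4) (nat_lit 3) (nat_lit 215) (nat_lit 134) r10_215 r5_134 (nat_lit 0) (nat_lit 0) (nat_lit 6614420) (nat_lit 0x81f9ff474) (nat_lit 514154582),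
  Rx.mk (nat_lit 443) (nat_lit 3) (nat_lit 7) (nat_lit 6) (nat_lit 7) (nat_lit 216) (nat_lit 139) r10_216 r5_139 (nat_lit 0) (nat_lit 0) (nat_lit 0) (nat_lit 0x80c39fc54) (nat_lit 526340012),
  Rx.mk (nat_lit 472) (nat_lit 0) (nat_lit 3) (nat_lit 7) (nat_lit 6) (nat_lit 213) (nat_lit 137) r10_213 r5_137 (nat_lit 5865404) (nat_lit 0) (nat_lit 0) (nat_lit 0x7ef7589d0) (nat_lit 560306366),
  Rx.mk (nat_lit 474) (nat_lit 2) (nat_lit 3) (nat_lit 7) (nat_lit 7) (nat_lit 214) (nat_lit 138) r10_214 r5_138 (nat_lit 0) (nat_lit 0) (nat_lit 0) (nat_lit 0x815de8a72) (nat_lit 517001212),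
  Rx.mk (nat_lit 504) (nat_lit 0) (nat_lit 7) (nat_lit 7) (nat_lit 6) (nat_lit 212) (nat_lit 135) r10_212 r5_135 (nat_lit 16735369) (nat_lit 0) (nat_lit 0) (nat_lit 0x79b416a78) (nat_lit 656180481),
  Rx.mk (nat_lit 507) (nat_lit 3) (nat_lit 7) (nat_lit 7) (nat_lit 7) (nat_lit 217) (nat_lit 136) r10_217 r5_136 (nat_lit 0) (nat_lit 0) (nat_lit 0) (nat_lit 0x8017985b4) (nat_lit 536870912)]
noncomputable def e19_31 : List Rx := [
  Rx.mk (nat_lit 218) (nat_lit 2) (nat_lit 3) (nat_lit 3) (nat_lit 7) (nat_lit 221) (nat_lit 143) r10_221 r11_143 (nat_lit 0) (nat_lit 0) (nat_lit 0) (nat_lit 0x8017985b4) (nat_lit 536870912),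
  Rx.mk (nat_lit 315) (nat_lit 3) (nat_lit 7) (nat_lit 4) (nat_lit 3) (nat_lit 222) (nat_lit 137) r10_222 r11_137 (nat_lit 0) (nat_lit 0) (nat_lit 24741287) (nat_lit 0x8017985b4) (nat_lit 561612199),
  Rx.mk (nat_lit 443) (nat_lit 3) (nat_lit 7) (nat_lit 6) (nat_lit 7) (nat_lit 223) (nat_lit 142) r10_223 r11_142 (nat_lit 0) (nat_lit 0) (nat_lit 0) (nat_lit 0x8017985b4) (nat_lit 536870912),
  Rx.mk (nat_lit 472) (nat_lit 0) (nat_lit 3) (nat_lit 7) (nat_lit 6) (nat_lit 219) (nat_lit 140) r10_219 r11_140 (nat_lit 24894793) (nat_lit 0) (nat_lit 0) (nat_lit 0x8000a4c72) (nat_lit 563170405),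
  Rx.mk (nat_lit 474) (nat_lit 2) (nat_lit 3) (nat_lit 7) (nat_lit 7) (nat_lit 220) (nat_lit 141) r10_220 r11_141 (nat_lit 0) (nat_lit 0) (nat_lit 0) (nat_lit 0x8017985b4) (nat_lit 536870912),
  Rx.mk (nat_lit 504) (nat_lit 0) (nat_lit 7) (nat_lit 7) (nat_lit 6) (nat_lit 218) (nat_lit 138) r10_218 r11_138 (nat_lit 24741287) (nat_lit 0) (nat_lit 0) (nat_lit 0x8017985b4) (nat_lit 561612199),
  Rx.mk (nat_lit 507) (nat_lit 3) (nat_lit 7) (nat_lit 7) (nat_lit 7) (nat_lit 224) (nat_lit 139) r10_224 r11_139 (nat_lit 0) (nat_lit 0) (nat_lit 0) (nat_lit 0x8017985b4) (nat_lit 536870912)]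
noncomputable def e19_32 : List Rx := [
  Rx.mk (nat_lit 280) (nat_lit 0) (nat_lit 3) (nat_lit 4) (nat_lit 2) (nat_lit 228) (nat_lit 345) r10_228 r6_345 (nat_lit 2379676) (nat_lit 0) (nat_lit 2476245) (nat_lit 0x72757b8ec) (nat_lit 761113833),
  Rx.mk (nat_lit 281) (nat_lit 1) (nat_lit 3) (nat_lit 4) (nat_lit 3) (nat_lit 233) (nat_lit 350) r10_233 r6_350 (nat_lit 0) (nat_lit 0) (nat_lit 11707184) (nat_lit 0x8125d3a2e) (nat_lit 532088296),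
  Rx.mk (nat_lit 282) (nat_lit 2) (nat_lit 3) (nat_lit 4) (nat_lit 3) (nat_lit 235) (nat_lit 354) r10_235 r6_354 (nat_lit 0) (nat_lit 0) (nat_lit 11706733) (nat_lit 0x8125d7dc2) (nat_lit 532086845),
  Rx.mk (nat_lit 312) (nat_lit 0) (nat_lit 7) (nat_lit 4) (nat_lit 2) (nat_lit 225) (nat_lit 344) r10_225 r6_344 (nat_lit 2476245) (nat_lit 0) (nat_lit 2379676) (nat_lit 0x72757b8ec) (nat_lit 761113833),
  Rx.mk (nat_lit 313) (nat_lit 1) (nat_lit 7) (nat_lit 4) (nat_lit 3) (nat_lit 230) (nat_lit 349) r10_230 r6_349 (nat_lit 0) (nat_lit 0) (nat_lit 14712556) (nat_lit 0x80ba6dfaa) (nat_lit 541613868),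
  Rx.mk (nat_lit 344) (nat_lit 0) (nat_lit 3) (nat_lit 5) (nat_lit 6) (nat_lit 229) (nat_lit 347) r10_229 r6_347 (nat_lit 14712556) (nat_lit 0) (nat_lit 0) (nat_lit 0x80ba6dfaa) (nat_lit 541613868),
  Rx.mk (nat_lit 345) (nat_lit 1) (nat_lit 3) (nat_lit 5) (nat_lit 7) (nat_lit 234) (nat_lit 352) r10_234 r6_352 (nat_lit 0) (nat_lit 0) (nat_lit 0) (nat_lit 0x8017985b4) (nat_lit 536870912),
  Rx.mk (nat_lit 346) (nat_lit 2) (nat_lit 3) (nat_lit 5) (nat_lit 7) (nat_lit 236) (nat_lit 355) r10_236 r6_355 (nat_lit 0) (nat_lit 0) (nat_lit 0) (nat_lit 0x8017985b4) (nat_lit 536870912),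
  Rx.mk (nat_lit 376) (nat_lit 0) (nat_lit 7) (nat_lit 5) (nat_lit 6) (nat_lit 226) (nat_lit 346) r10_226 r6_346 (nat_lit 11707184) (nat_lit 0) (nat_lit 0) (nat_lit 0x8125d3a2e) (nat_lit 532088296),
  Rx.mk (nat_lit 377) (nat_lit 1) (nat_lit 7) (nat_lit 5) (nat_lit 7) (nat_lit 231) (nat_lit 351) r10_231 r6_351 (nat_lit 0) (nat_lit 0) (nat_lit 0) (nat_lit 0x8017985b4) (nat_lit 536870912),
  Rx.mk (nat_lit 440) (nat_lit 0) (nat_lit 7) (nat_lit 6) (nat_lit 6) (nat_lit 227) (nat_lit 348) r10_227 r6_348 (nat_lit 11706733) (nat_lit 0) (nat_lit 0) (nat_lit 0x8125d7dc2) (nat_lit 532086845),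
  Rx.mk (nat_lit 441) (nat_lit 1) (nat_lit 7) (nat_lit 6) (nat_lit 7) (nat_lit 232) (nat_lit 353) r10_232 r6_353 (nat_lit 0) (nat_lit 0) (nat_lit 0) (nat_lit 0x8017985b4) (nat_lit 536870912)]
noncomputable def e19_33 : List Rx := [
  Rx.mk (nat_lit 344) (nat_lit 0) (nat_lit 3) (nat_lit 5) (nat_lit 6) (nat_lit 237) (nat_lit 307) r10_237 r5_307 (nat_lit 11477207) (nat_lit 0) (nat_lit 0) (nat_lit 0x7fc2367ba) (nat_lit 553442619),
  Rx.mk (nat_lit 345) (nat_lit 1) (nat_lit 3) (nat_lit 5) (nat_lit 7) (nat_lit 238) (nat_lit 308) r10_238 r5_308 (nat_lit 0) (nat_lit 0) (nat_lit 0) (nat_lit 0x80b9b4848) (nat_lit 526949812),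
  Rx.mk (nat_lit 346) (nat_lit 2) (nat_lit 3) (nat_lit 5) (nat_lit 7) (nat_lit 239) (nat_lit 309) r10_239 r5_309 (nat_lit 0) (nat_lit 0) (nat_lit 0) (nat_lit 0x80b9b154e) (nat_lit 526950562)]
noncomputable def e19_34 : List Rx := [
  Rx.mk (nat_lit 90) (nat_lit 2) (nat_lit 3) (nat_lit 1) (nat_lit 7) (nat_lit 243) (nat_lit 360) r10_243 r11_360 (nat_lit 0) (nat_lit 0) (nat_lit 0) (nat_lit 0x8017985b4) (nat_lit 536870912),
  Rx.mk (nat_lit 344) (nat_lit 0) (nat_lit 3) (nat_lit 5) (nat_lit 6) (nat_lit 240) (nat_lit 361) r10_240 r11_361 (nat_lit 20709188) (nat_lit 0) (nat_lit 0) (nat_lit 0x804c96cf2) (nat_lit 554327950),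
  Rx.mk (nat_lit 345) (nat_lit 1) (nat_lit 3) (nat_lit 5) (nat_lit 7) (nat_lit 241) (nat_lit 362) r10_241 r11_362 (nat_lit 0) (nat_lit 0) (nat_lit 0) (nat_lit 0x8017985b4) (nat_lit 536870912),
  Rx.mk (nat_lit 346) (nat_lit 2) (nat_lit 3) (nat_lit 5) (nat_lit 7) (nat_lit 242) (nat_lit 363) r10_242 r11_363 (nat_lit 0) (nat_lit 0) (nat_lit 0) (nat_lit 0x8017985b4) (nat_lit 536870912)]
noncomputable def e19_35 : List Rx := [
  Rx.mk (nat_lit 312) (nat_lit 0) (nat_lit 7) (nat_lit 4) (nat_lit 2) (nat_lit 244) (nat_lit 213) r10_244 r6_213 (nat_lit 3437710) (nat_lit 0) (nat_lit 3908311) (nat_lit 0x70b62ad72) (nat_lit 791927083),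
  Rx.mk (nat_lit 313) (nat_lit 1) (nat_lit 7) (nat_lit 4) (nat_lit 3) (nat_lit 249) (nat_lit 214) r10_249 r6_214 (nat_lit 0) (nat_lit 0) (nat_lit 18189542) (nat_lit 0x807407840) (nat_lit 549393204),
  Rx.mk (nat_lit 315) (nat_lit 3) (nat_lit 7) (nat_lit 4) (nat_lit 3) (nat_lit 254) (nat_lit 215) r10_254 r6_215 (nat_lit 0) (nat_lit 0) (nat_lit 8452867) (nat_lit 0x80ffe1c3a) (nat_lit 531055429),
  Rx.mk (nat_lit 376) (nat_lit 0) (nat_lit 7) (nat_lit 5) (nat_lit 6) (nat_lit 245) (nat_lit 216) r10_245 r6_216 (nat_lit 14773968) (nat_lit 0) (nat_lit 0) (nat_lit 0x80be7a56c) (nat_lit 541432730),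
  Rx.mk (nat_lit 379) (nat_lit 3) (nat_lit 7) (nat_lit 5) (nat_lit 7) (nat_lit 255) (nat_lit 217) r10_255 r6_217 (nat_lit 0) (nat_lit 0) (nat_lit 0) (nat_lit 0x80d199d14) (nat_lit 525495962),
  Rx.mk (nat_lit 440) (nat_lit 0) (nat_lit 7) (nat_lit 6) (nat_lit 6) (nat_lit 246) (nat_lit 220) r10_246 r6_220 (nat_lit 14995754) (nat_lit 0) (nat_lit 0) (nat_lit 0x80820fd34) (nat_lit 545312416),
  Rx.mk (nat_lit 441) (nat_lit 1) (nat_lit 7) (nat_lit 6) (nat_lit 7) (nat_lit 250) (nat_lit 221) r10_250 r6_221 (nat_lit 0) (nat_lit 0) (nat_lit 0) (nat_lit 0x8017985b4) (nat_lit 536870912),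
  Rx.mk (nat_lit 443) (nat_lit 3) (nat_lit 7) (nat_lit 6) (nat_lit 7) (nat_lit 256) (nat_lit 222) r10_256 r6_222 (nat_lit 0) (nat_lit 0) (nat_lit 0) (nat_lit 0x80d1999d6) (nat_lit 525496012),
  Rx.mk (nat_lit 472) (nat_lit 0) (nat_lit 3) (nat_lit 7) (nat_lit 6) (nat_lit 248) (nat_lit 210) r10_248 r6_210 (nat_lit 9336562) (nat_lit 0) (nat_lit 0) (nat_lit 0x80cea0392) (nat_lit 534941174),
  Rx.mk (nat_lit 473) (nat_lit 1) (nat_lit 3) (nat_lit 7) (nat_lit 7) (nat_lit 252) (nat_lit 211) r10_252 r6_211 (nat_lit 0) (nat_lit 0) (nat_lit 0) (nat_lit 0x80d032dc2) (nat_lit 525585862),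
  Rx.mk (nat_lit 474) (nat_lit 2) (nat_lit 3) (nat_lit 7) (nat_lit 7) (nat_lit 253) (nat_lit 212) r10_253 r6_212 (nat_lit 0) (nat_lit 0) (nat_lit 0) (nat_lit 0x80d033132) (nat_lit 525585812),
  Rx.mk (nat_lit 504) (nat_lit 0) (nat_lit 7) (nat_lit 7) (nat_lit 6) (nat_lit 247) (nat_lit 218) r10_247 r6_218 (nat_lit 24741287) (nat_lit 0) (nat_lit 0) (nat_lit 0x7f68b2360) (nat_lit 572388699),
  Rx.mk (nat_lit 505) (nat_lit 1) (nat_lit 7) (nat_lit 7) (nat_lit 7) (nat_lit 251) (nat_lit 219) r10_251 r6_219 (nat_lit 0) (nat_lit 0) (nat_lit 0) (nat_lit 0x8017985b4) (nat_lit 536870912)]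
noncomputable def e19_36 : List Rx := [
  Rx.mk (nat_lit 280) (nat_lit 0) (nat_lit 3) (nat_lit 4) (nat_lit 2) (nat_lit 260) (nat_lit 138) r10_260 r12_138 (nat_lit 2577418) (nat_lit 0) (nat_lit 2436129) (nat_lit 0x73aa6288e) (nat_lit 741762309),
  Rx.mk (nat_lit 281) (nat_lit 1) (nat_lit 3) (nat_lit 4) (nat_lit 3) (nat_lit 265) (nat_lit 144) r10_265 r12_144 (nat_lit 0) (nat_lit 0) (nat_lit 8688892) (nat_lit 0x823a95ac4) (nat_lit 512418754),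
  Rx.mk (nat_lit 282) (nat_lit 2) (nat_lit 3) (nat_lit 4) (nat_lit 3) (nat_lit 267) (nat_lit 151) r10_267 r12_151 (nat_lit 0) (nat_lit 0) (nat_lit 8688910) (nat_lit 0x823a961a4) (nat_lit 512418672),
  Rx.mk (nat_lit 312) (nat_lit 0) (nat_lit 7) (nat_lit 4) (nat_lit 2) (nat_lit 257) (nat_lit 141) r10_257 r12_141 (nat_lit 2436129) (nat_lit 0) (nat_lit 2577418) (nat_lit 0x73aa6288e) (nat_lit 741762309),
  Rx.mk (nat_lit 313) (nat_lit 1) (nat_lit 7) (nat_lit 4) (nat_lit 3) (nat_lit 263) (nat_lit 146) r10_263 r12_146 (nat_lit 0) (nat_lit 0) (nat_lit 12157828) (nat_lit 0x8125a3a9a) (nat_lit 532563440),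
  Rx.mk (nat_lit 315) (nat_lit 3) (nat_lit 7) (nat_lit 4) (nat_lit 3) (nat_lit 270) (nat_lit 148) r10_270 r12_148 (nat_lit 0) (nat_lit 0) (nat_lit 6405981) (nat_lit 0x808bbb2fc) (nat_lit 535951843),
  Rx.mk (nat_lit 344) (nat_lit 0) (nat_lit 3) (nat_lit 5) (nat_lit 6) (nat_lit 261) (nat_lit 139) r10_261 r12_139 (nat_lit 12157828) (nat_lit 0) (nat_lit 0) (nat_lit 0x8125a3a9a) (nat_lit 532563440),
  Rx.mk (nat_lit 346) (nat_lit 2) (nat_lit 3) (nat_lit 5) (nat_lit 7) (nat_lit 268) (nat_lit 152) r10_268 r12_152 (nat_lit 0) (nat_lit 0) (nat_lit 0) (nat_lit 0x8017985b4) (nat_lit 536870912),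
  Rx.mk (nat_lit 376) (nat_lit 0) (nat_lit 7) (nat_lit 5) (nat_lit 6) (nat_lit 258) (nat_lit 142) r10_258 r12_142 (nat_lit 8688892) (nat_lit 0) (nat_lit 0) (nat_lit 0x823a95ac4) (nat_lit 512418754),
  Rx.mk (nat_lit 379) (nat_lit 3) (nat_lit 7) (nat_lit 5) (nat_lit 7) (nat_lit 271) (nat_lit 149) r10_271 r12_149 (nat_lit 0) (nat_lit 0) (nat_lit 0) (nat_lit 0x811742e92) (nat_lit 521278712),
  Rx.mk (nat_lit 440) (nat_lit 0) (nat_lit 7) (nat_lit 6) (nat_lit 6) (nat_lit 259) (nat_lit 143) r10_259 r12_143 (nat_lit 8688910) (nat_lit 0) (nat_lit 0) (nat_lit 0x823a961a4) (nat_lit 512418672),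
  Rx.mk (nat_lit 441) (nat_lit 1) (nat_lit 7) (nat_lit 6) (nat_lit 7) (nat_lit 264) (nat_lit 147) r10_264 r12_147 (nat_lit 0) (nat_lit 0) (nat_lit 0) (nat_lit 0x8017985b4) (nat_lit 536870912),
  Rx.mk (nat_lit 443) (nat_lit 3) (nat_lit 7) (nat_lit 6) (nat_lit 7) (nat_lit 272) (nat_lit 150) r10_272 r12_150 (nat_lit 0) (nat_lit 0) (nat_lit 0) (nat_lit 0x8117427e4) (nat_lit 521278812),
  Rx.mk (nat_lit 472) (nat_lit 0) (nat_lit 3) (nat_lit 7) (nat_lit 6) (nat_lit 262) (nat_lit 140) r10_262 r12_140 (nat_lit 6405981) (nat_lit 0) (nat_lit 0) (nat_lit 0x808bbb2fc) (nat_lit 535951843),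
  Rx.mk (nat_lit 473) (nat_lit 1) (nat_lit 3) (nat_lit 7) (nat_lit 7) (nat_lit 266) (nat_lit 145) r10_266 r12_145 (nat_lit 0) (nat_lit 0) (nat_lit 0) (nat_lit 0x811742e92) (nat_lit 521278712),
  Rx.mk (nat_lit 474) (nat_lit 2) (nat_lit 3) (nat_lit 7) (nat_lit 7) (nat_lit 269) (nat_lit 153) r10_269 r12_153 (nat_lit 0) (nat_lit 0) (nat_lit 0) (nat_lit 0x8117427e4) (nat_lit 521278812)]
noncomputable def e19_37 : List Rx := [
  Rx.mk (nat_lit 289) (nat_lit 1) (nat_lit 4) (nat_lit 4) (nat_lit 1) (nat_lit 273) (nat_lit 322) r10_273 r0_322 (nat_lit 0) (nat_lit 14038217) (nat_lit 17034488) (nat_lit 0x6f6e3009a) (nat_lit 836450667),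
  Rx.mk (nat_lit 297) (nat_lit 1) (nat_lit 5) (nat_lit 4) (nat_lit 3) (nat_lit 276) (nat_lit 323) r10_276 r0_323 (nat_lit 0) (nat_lit 0) (nat_lit 24741287) (nat_lit 0x8017985b4) (nat_lit 561612199),
  Rx.mk (nat_lit 353) (nat_lit 1) (nat_lit 4) (nat_lit 5) (nat_lit 5) (nat_lit 274) (nat_lit 324) r10_274 r0_324 (nat_lit 0) (nat_lit 24924827) (nat_lit 0) (nat_lit 0x7fc09e13c) (nat_lit 567146289),
  Rx.mk (nat_lit 361) (nat_lit 1) (nat_lit 5) (nat_lit 5) (nat_lit 7) (nat_lit 277) (nat_lit 325) r10_277 r0_325 (nat_lit 0) (nat_lit 0) (nat_lit 0) (nat_lit 0x8017985b4) (nat_lit 536870912),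
  Rx.mk (nat_lit 417) (nat_lit 1) (nat_lit 4) (nat_lit 6) (nat_lit 5) (nat_lit 275) (nat_lit 326) r10_275 r0_326 (nat_lit 0) (nat_lit 25781778) (nat_lit 0) (nat_lit 0x7e4c3ec0c) (nat_lit 591158440),
  Rx.mk (nat_lit 425) (nat_lit 1) (nat_lit 5) (nat_lit 6) (nat_lit 7) (nat_lit 278) (nat_lit 327) r10_278 r0_327 (nat_lit 0) (nat_lit 0) (nat_lit 0) (nat_lit 0x7ffa5b708) (nat_lit 538653612)]
noncomputable def e19_38 : List Rx := [
  Rx.mk (nat_lit 289) (nat_lit 1) (nat_lit 4) (nat_lit 4) (nat_lit 1) (nat_lit 281) (nat_lit 195) r10_281 r0_195 (nat_lit 0) (nat_lit 4364993) (nat_lit 2412373) (nat_lit 0x599f905a6) (nat_lit 1164616828),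
  Rx.mk (nat_lit 353) (nat_lit 1) (nat_lit 4) (nat_lit 5) (nat_lit 5) (nat_lit 282) (nat_lit 196) r10_282 r0_196 (nat_lit 0) (nat_lit 12102424) (nat_lit 0) (nat_lit 0x79db10b88) (nat_lit 649035436),
  Rx.mk (nat_lit 417) (nat_lit 1) (nat_lit 4) (nat_lit 6) (nat_lit 5) (nat_lit 283) (nat_lit 197) r10_283 r0_197 (nat_lit 0) (nat_lit 70189493) (nat_lit 0) (nat_lit 0x7d33fb286) (nat_lit 652998905),
  Rx.mk (nat_lit 421) (nat_lit 5) (nat_lit 4) (nat_lit 6) (nat_lit 5) (nat_lit 279) (nat_lit 198) r10_279 r0_198 (nat_lit 0) (nat_lit 45895857) (nat_lit 0) (nat_lit 0x7fb6ad812) (nat_lit 588199269),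
  Rx.mk (nat_lit 445) (nat_lit 5) (nat_lit 7) (nat_lit 6) (nat_lit 7) (nat_lit 280) (nat_lit 199) r10_280 r0_199 (nat_lit 0) (nat_lit 0) (nat_lit 0) (nat_lit 0x809c1612e) (nat_lit 528750462)]
noncomputable def e19_39 : List Rx := [
  Rx.mk (nat_lit 289) (nat_lit 1) (nat_lit 4) (nat_lit 4) (nat_lit 1) (nat_lit 286) (nat_lit 433) r10_286 r7_433 (nat_lit 0) (nat_lit 28712906) (nat_lit 23931749) (nat_lit 0x6a7e66ee6) (nat_lit 937964567),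
  Rx.mk (nat_lit 297) (nat_lit 1) (nat_lit 5) (nat_lit 4) (nat_lit 3) (nat_lit 289) (nat_lit 434) r10_289 r7_434 (nat_lit 0) (nat_lit 0) (nat_lit 26205094) (nat_lit 0x7ff5adb5c) (nat_lit 565151456),
  Rx.mk (nat_lit 353) (nat_lit 1) (nat_lit 4) (nat_lit 5) (nat_lit 5) (nat_lit 287) (nat_lit 435) r10_287 r7_435 (nat_lit 0) (nat_lit 24741287) (nat_lit 0) (nat_lit 0x8017985b4) (nat_lit 561612199),
  Rx.mk (nat_lit 361) (nat_lit 1) (nat_lit 5) (nat_lit 5) (nat_lit 7) (nat_lit 290) (nat_lit 436) r10_290 r7_436 (nat_lit 0) (nat_lit 0) (nat_lit 0) (nat_lit 0x8017985b4) (nat_lit 536870912),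
  Rx.mk (nat_lit 417) (nat_lit 1) (nat_lit 4) (nat_lit 6) (nat_lit 5) (nat_lit 288) (nat_lit 437) r10_288 r7_437 (nat_lit 0) (nat_lit 25691165) (nat_lit 0) (nat_lit 0x800112efc) (nat_lit 563939677),
  Rx.mk (nat_lit 421) (nat_lit 5) (nat_lit 4) (nat_lit 6) (nat_lit 5) (nat_lit 284) (nat_lit 431) r10_284 r7_431 (nat_lit 0) (nat_lit 25393500) (nat_lit 0) (nat_lit 0x7ffadf27e) (nat_lit 564019262),
  Rx.mk (nat_lit 425) (nat_lit 1) (nat_lit 5) (nat_lit 6) (nat_lit 7) (nat_lit 291) (nat_lit 438) r10_291 r7_438 (nat_lit 0) (nat_lit 0) (nat_lit 0) (nat_lit 0x8017985b4) (nat_lit 536870912),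
  Rx.mk (nat_lit 429) (nat_lit 5) (nat_lit 5) (nat_lit 6) (nat_lit 7) (nat_lit 285) (nat_lit 432) r10_285 r7_432 (nat_lit 0) (nat_lit 0) (nat_lit 0) (nat_lit 0x8017985b4) (nat_lit 536870912)]
noncomputable def e19_40 : List Rx := [
  Rx.mk (nat_lit 420) (nat_lit 4) (nat_lit 4) (nat_lit 6) (nat_lit 4) (nat_lit 292) (nat_lit 230) r10_292 r2_230 (nat_lit 13507056) (nat_lit 10828370) (nat_lit 0) (nat_lit 0x67d645c8c) (nat_lit 952582088),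
  Rx.mk (nat_lit 421) (nat_lit 5) (nat_lit 4) (nat_lit 6) (nat_lit 5) (nat_lit 295) (nat_lit 231) r10_295 r2_231 (nat_lit 0) (nat_lit 24741287) (nat_lit 0) (nat_lit 0x8017985b4) (nat_lit 561612199),
  Rx.mk (nat_lit 436) (nat_lit 4) (nat_lit 6) (nat_lit 6) (nat_lit 6) (nat_lit 293) (nat_lit 235) r10_293 r2_235 (nat_lit 24741287) (nat_lit 0) (nat_lit 0) (nat_lit 0x8017985b4) (nat_lit 561612199),
  Rx.mk (nat_lit 437) (nat_lit 5) (nat_lit 6) (nat_lit 6) (nat_lit 7) (nat_lit 296) (nat_lit 236) r10_296 r2_236 (nat_lit 0) (nat_lit 0) (nat_lit 0) (nat_lit 0x8017985b4) (nat_lit 536870912),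
  Rx.mk (nat_lit 444) (nat_lit 4) (nat_lit 7) (nat_lit 6) (nat_lit 6) (nat_lit 294) (nat_lit 232) r10_294 r2_232 (nat_lit 26181532) (nat_lit 0) (nat_lit 0) (nat_lit 0x7fe1525fe) (nat_lit 566368444),
  Rx.mk (nat_lit 445) (nat_lit 5) (nat_lit 7) (nat_lit 6) (nat_lit 7) (nat_lit 297) (nat_lit 233) r10_297 r2_233 (nat_lit 0) (nat_lit 0) (nat_lit 0) (nat_lit 0x8017985b4) (nat_lit 536870912),
  Rx.mk (nat_lit 447) (nat_lit 7) (nat_lit 7) (nat_lit 6) (nat_lit 7) (nat_lit 298) (nat_lit 234) r10_298 r2_234 (nat_lit 0) (nat_lit 0) (nat_lit 0) (nat_lit 0x8017985b4) (nat_lit 536870912)]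
noncomputable def e19_41 : List Rx := [
  Rx.mk (nat_lit 420) (nat_lit 4) (nat_lit 4) (nat_lit 6) (nat_lit 4) (nat_lit 299) (nat_lit 209) r10_299 r9_209 (nat_lit 65106199) (nat_lit 34942940) (nat_lit 0) (nat_lit 0x66b1feea6) (nat_lit 1046829251),
  Rx.mk (nat_lit 421) (nat_lit 5) (nat_lit 4) (nat_lit 6) (nat_lit 5) (nat_lit 301) (nat_lit 210) r10_301 r9_210 (nat_lit 0) (nat_lit 25290688) (nat_lit 0) (nat_lit 0x800987e2a) (nat_lit 563020650),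
  Rx.mk (nat_lit 429) (nat_lit 5) (nat_lit 5) (nat_lit 6) (nat_lit 7) (nat_lit 302) (nat_lit 211) r10_302 r9_211 (nat_lit 0) (nat_lit 0) (nat_lit 0) (nat_lit 0x8017985b4) (nat_lit 536870912),
  Rx.mk (nat_lit 436) (nat_lit 4) (nat_lit 6) (nat_lit 6) (nat_lit 6) (nat_lit 300) (nat_lit 212) r10_300 r9_212 (nat_lit 24741287) (nat_lit 0) (nat_lit 0) (nat_lit 0x8017985b4) (nat_lit 561612199),
  Rx.mk (nat_lit 437) (nat_lit 5) (nat_lit 6) (nat_lit 6) (nat_lit 7) (nat_lit 303) (nat_lit 213) r10_303 r9_213 (nat_lit 0) (nat_lit 0) (nat_lit 0) (nat_lit 0x8017985b4) (nat_lit 536870912)]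
noncomputable def e19_42 : List Rx := [
  Rx.mk (nat_lit 180) (nat_lit 4) (nat_lit 6) (nat_lit 2) (nat_lit 6) (nat_lit 306) (nat_lit 143) r10_306 r9_143 (nat_lit 24741287) (nat_lit 0) (nat_lit 0) (nat_lit 0x7fffebc7c) (nat_lit 563058399),
  Rx.mk (nat_lit 181) (nat_lit 5) (nat_lit 6) (nat_lit 2) (nat_lit 7) (nat_lit 310) (nat_lit 144) r10_310 r9_144 (nat_lit 0) (nat_lit 0) (nat_lit 0) (nat_lit 0x8017985b4) (nat_lit 536870912),
  Rx.mk (nat_lit 182) (nat_lit 6) (nat_lit 6) (nat_lit 2) (nat_lit 7) (nat_lit 312) (nat_lit 145) r10_312 r9_145 (nat_lit 0) (nat_lit 0) (nat_lit 0) (nat_lit 0x8017985b4) (nat_lit 536870912),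
  Rx.mk (nat_lit 420) (nat_lit 4) (nat_lit 4) (nat_lit 6) (nat_lit 4) (nat_lit 304) (nat_lit 136) r10_304 r9_136 (nat_lit 40997444) (nat_lit 28731315) (nat_lit 0) (nat_lit 0x62fe769f4) (nat_lit 1076357921),
  Rx.mk (nat_lit 421) (nat_lit 5) (nat_lit 4) (nat_lit 6) (nat_lit 5) (nat_lit 308) (nat_lit 137) r10_308 r9_137 (nat_lit 0) (nat_lit 24741287) (nat_lit 0) (nat_lit 0x8017985b4) (nat_lit 561612199),
  Rx.mk (nat_lit 436) (nat_lit 4) (nat_lit 6) (nat_lit 6) (nat_lit 6) (nat_lit 305) (nat_lit 141) r10_305 r9_141 (nat_lit 24741287) (nat_lit 0) (nat_lit 0) (nat_lit 0x7fcd6a76c) (nat_lit 566141199),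
  Rx.mk (nat_lit 437) (nat_lit 5) (nat_lit 6) (nat_lit 6) (nat_lit 7) (nat_lit 309) (nat_lit 142) r10_309 r9_142 (nat_lit 0) (nat_lit 0) (nat_lit 0) (nat_lit 0x8017985b4) (nat_lit 536870912),
  Rx.mk (nat_lit 444) (nat_lit 4) (nat_lit 7) (nat_lit 6) (nat_lit 6) (nat_lit 307) (nat_lit 138) r10_307 r9_138 (nat_lit 25252468) (nat_lit 0) (nat_lit 0) (nat_lit 0x7fd0be0b2) (nat_lit 566460430),
  Rx.mk (nat_lit 445) (nat_lit 5) (nat_lit 7) (nat_lit 6) (nat_lit 7) (nat_lit 311) (nat_lit 139) r10_311 r9_139 (nat_lit 0) (nat_lit 0) (nat_lit 0) (nat_lit 0x8017985b4) (nat_lit 536870912),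
  Rx.mk (nat_lit 447) (nat_lit 7) (nat_lit 7) (nat_lit 6) (nat_lit 7) (nat_lit 313) (nat_lit 140) r10_313 r9_140 (nat_lit 0) (nat_lit 0) (nat_lit 0) (nat_lit 0x8017985b4) (nat_lit 536870912)]
noncomputable def e19_43 : List Rx := [
  Rx.mk (nat_lit 421) (nat_lit 5) (nat_lit 4) (nat_lit 6) (nat_lit 5) (nat_lit 314) (nat_lit 217) r10_314 r1_217 (nat_lit 0) (nat_lit 25153554) (nat_lit 0) (nat_lit 0x80e8b8eaa) (nat_lit 549278466),
  Rx.mk (nat_lit 437) (nat_lit 5) (nat_lit 6) (nat_lit 6) (nat_lit 7) (nat_lit 315) (nat_lit 219) r10_315 r1_219 (nat_lit 0) (nat_lit 0) (nat_lit 0) (nat_lit 0x81b14ef04) (nat_lit 511970262),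
  Rx.mk (nat_lit 445) (nat_lit 5) (nat_lit 7) (nat_lit 6) (nat_lit 7) (nat_lit 316) (nat_lit 218) r10_316 r1_218 (nat_lit 0) (nat_lit 0) (nat_lit 0) (nat_lit 0x8017985b4) (nat_lit 536870912)]
noncomputable def e19_44 : List Rx := [
  Rx.mk (nat_lit 421) (nat_lit 5) (nat_lit 4) (nat_lit 6) (nat_lit 5) (nat_lit 317) (nat_lit 355) r10_317 r8_355 (nat_lit 0) (nat_lit 24634759) (nat_lit 0) (nat_lit 0x800b33de6) (nat_lit 562264771),
  Rx.mk (nat_lit 429) (nat_lit 5) (nat_lit 5) (nat_lit 6) (nat_lit 7) (nat_lit 318) (nat_lit 356) r10_318 r8_356 (nat_lit 0) (nat_lit 0) (nat_lit 0) (nat_lit 0x8017985b4) (nat_lit 536870912),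
  Rx.mk (nat_lit 437) (nat_lit 5) (nat_lit 6) (nat_lit 6) (nat_lit 7) (nat_lit 319) (nat_lit 357) r10_319 r8_357 (nat_lit 0) (nat_lit 0) (nat_lit 0) (nat_lit 0x8017985b4) (nat_lit 536870912)]
noncomputable def e19_45 : List Rx := [
  Rx.mk (nat_lit 297) (nat_lit 1) (nat_lit 5) (nat_lit 4) (nat_lit 3) (nat_lit 320) (nat_lit 307) r10_320 r1_307 (nat_lit 0) (nat_lit 0) (nat_lit 24741287) (nat_lit 0x8017985b4) (nat_lit 561612199),
  Rx.mk (nat_lit 361) (nat_lit 1) (nat_lit 5) (nat_lit 5) (nat_lit 7) (nat_lit 321) (nat_lit 308) r10_321 r1_308 (nat_lit 0) (nat_lit 0) (nat_lit 0) (nat_lit 0x8017985b4) (nat_lit 536870912),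
  Rx.mk (nat_lit 425) (nat_lit 1) (nat_lit 5) (nat_lit 6) (nat_lit 7) (nat_lit 322) (nat_lit 309) r10_322 r1_309 (nat_lit 0) (nat_lit 0) (nat_lit 0) (nat_lit 0x8017985b4) (nat_lit 536870912)]
noncomputable def e19_46 : List Rx := [
  Rx.mk (nat_lit 329) (nat_lit 1) (nat_lit 1) (nat_lit 5) (nat_lit 7) (nat_lit 324) (nat_lit 355) r10_324 r2_355 (nat_lit 0) (nat_lit 0) (nat_lit 0) (nat_lit 0x8017985b4) (nat_lit 536870912),
  Rx.mk (nat_lit 361) (nat_lit 1) (nat_lit 5) (nat_lit 5) (nat_lit 7) (nat_lit 323) (nat_lit 354) r10_323 r2_354 (nat_lit 0) (nat_lit 0) (nat_lit 0) (nat_lit 0x8017985b4) (nat_lit 536870912)]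
noncomputable def e19_47 : List Rx := [
  Rx.mk (nat_lit 297) (nat_lit 1) (nat_lit 5) (nat_lit 4) (nat_lit 3) (nat_lit 326) (nat_lit 194) r10_326 r8_194 (nat_lit 0) (nat_lit 0) (nat_lit 24741287) (nat_lit 0x8017985b4) (nat_lit 561612199),
  Rx.mk (nat_lit 361) (nat_lit 1) (nat_lit 5) (nat_lit 5) (nat_lit 7) (nat_lit 327) (nat_lit 195) r10_327 r8_195 (nat_lit 0) (nat_lit 0) (nat_lit 0) (nat_lit 0x8017985b4) (nat_lit 536870912),
  Rx.mk (nat_lit 425) (nat_lit 1) (nat_lit 5) (nat_lit 6) (nat_lit 7) (nat_lit 328) (nat_lit 196) r10_328 r8_196 (nat_lit 0) (nat_lit 0) (nat_lit 0) (nat_lit 0x8017985b4) (nat_lit 536870912),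
  Rx.mk (nat_lit 429) (nat_lit 5) (nat_lit 5) (nat_lit 6) (nat_lit 7) (nat_lit 325) (nat_lit 197) r10_325 r8_197 (nat_lit 0) (nat_lit 0) (nat_lit 0) (nat_lit 0x8017985b4) (nat_lit 536870912)]
noncomputable def e19_48 : List Rx := [
  Rx.mk (nat_lit 329) (nat_lit 1) (nat_lit 1) (nat_lit 5) (nat_lit 7) (nat_lit 330) (nat_lit 318) r10_330 r9_318 (nat_lit 0) (nat_lit 0) (nat_lit 0) (nat_lit 0x8017985b4) (nat_lit 536870912),
  Rx.mk (nat_lit 361) (nat_lit 1) (nat_lit 5) (nat_lit 5) (nat_lit 7) (nat_lit 329) (nat_lit 317) r10_329 r9_317 (nat_lit 0) (nat_lit 0) (nat_lit 0) (nat_lit 0x8017985b4) (nat_lit 536870912)]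
noncomputable def e19_49 : List Rx := [
  Rx.mk (nat_lit 329) (nat_lit 1) (nat_lit 1) (nat_lit 5) (nat_lit 7) (nat_lit 332) (nat_lit 317) r10_332 r9_317 (nat_lit 0) (nat_lit 0) (nat_lit 0) (nat_lit 0x8017985b4) (nat_lit 536870912),
  Rx.mk (nat_lit 361) (nat_lit 1) (nat_lit 5) (nat_lit 5) (nat_lit 7) (nat_lit 331) (nat_lit 318) r10_331 r9_318 (nat_lit 0) (nat_lit 0) (nat_lit 0) (nat_lit 0x8017985b4) (nat_lit 536870912)]
noncomputable def e19_50 : List Rx := [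
  Rx.mk (nat_lit 289) (nat_lit 1) (nat_lit 4) (nat_lit 4) (nat_lit 1) (nat_lit 333) (nat_lit 325) r10_333 r3_325 (nat_lit 0) (nat_lit 167695) (nat_lit 197362) (nat_lit 0x640a65476) (nat_lit 989404669),
  Rx.mk (nat_lit 313) (nat_lit 1) (nat_lit 7) (nat_lit 4) (nat_lit 3) (nat_lit 336) (nat_lit 326) r10_336 r3_326 (nat_lit 0) (nat_lit 0) (nat_lit 1486174) (nat_lit 0x82dc4fb94) (nat_lit 495172786),
  Rx.mk (nat_lit 353) (nat_lit 1) (nat_lit 4) (nat_lit 5) (nat_lit 5) (nat_lit 334) (nat_lit 327) r10_334 r3_327 (nat_lit 0) (nat_lit 24741287) (nat_lit 0) (nat_lit 0x8017985b4) (nat_lit 561612199),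
  Rx.mk (nat_lit 377) (nat_lit 1) (nat_lit 7) (nat_lit 5) (nat_lit 7) (nat_lit 337) (nat_lit 328) r10_337 r3_328 (nat_lit 0) (nat_lit 0) (nat_lit 0) (nat_lit 0x8428b5dde) (nat_lit 474166012),
  Rx.mk (nat_lit 417) (nat_lit 1) (nat_lit 4) (nat_lit 6) (nat_lit 5) (nat_lit 335) (nat_lit 329) r10_335 r3_329 (nat_lit 0) (nat_lit 50053958) (nat_lit 0) (nat_lit 0x7eff903aa) (nat_lit 604233320),
  Rx.mk (nat_lit 441) (nat_lit 1) (nat_lit 7) (nat_lit 6) (nat_lit 7) (nat_lit 338) (nat_lit 330) r10_338 r3_330 (nat_lit 0) (nat_lit 0) (nat_lit 0) (nat_lit 0x8428a6758) (nat_lit 474169612)]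
noncomputable def e19_51 : List Rx := [
  Rx.mk (nat_lit 289) (nat_lit 1) (nat_lit 4) (nat_lit 4) (nat_lit 1) (nat_lit 339) (nat_lit 355) r10_339 r4_355 (nat_lit 0) (nat_lit 46258346) (nat_lit 35822015) (nat_lit 0x73116d7f0) (nat_lit 828766423),
  Rx.mk (nat_lit 297) (nat_lit 1) (nat_lit 5) (nat_lit 4) (nat_lit 3) (nat_lit 342) (nat_lit 356) r10_342 r4_356 (nat_lit 0) (nat_lit 0) (nat_lit 24741287) (nat_lit 0x801405032) (nat_lit 561834699),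
  Rx.mk (nat_lit 313) (nat_lit 1) (nat_lit 7) (nat_lit 4) (nat_lit 3) (nat_lit 345) (nat_lit 357) r10_345 r4_357 (nat_lit 0) (nat_lit 0) (nat_lit 25246541) (nat_lit 0x7fe66bc2a) (nat_lit 565123853),
  Rx.mk (nat_lit 353) (nat_lit 1) (nat_lit 4) (nat_lit 5) (nat_lit 5) (nat_lit 340) (nat_lit 358) r10_340 r4_358 (nat_lit 0) (nat_lit 24741287) (nat_lit 0) (nat_lit 0x8017985b4) (nat_lit 561612199),
  Rx.mk (nat_lit 361) (nat_lit 1) (nat_lit 5) (nat_lit 5) (nat_lit 7) (nat_lit 343) (nat_lit 359) r10_343 r4_359 (nat_lit 0) (nat_lit 0) (nat_lit 0) (nat_lit 0x8017985b4) (nat_lit 536870912),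
  Rx.mk (nat_lit 377) (nat_lit 1) (nat_lit 7) (nat_lit 5) (nat_lit 7) (nat_lit 346) (nat_lit 360) r10_346 r4_360 (nat_lit 0) (nat_lit 0) (nat_lit 0) (nat_lit 0x8017985b4) (nat_lit 536870912),
  Rx.mk (nat_lit 417) (nat_lit 1) (nat_lit 4) (nat_lit 6) (nat_lit 5) (nat_lit 341) (nat_lit 361) r10_341 r4_361 (nat_lit 0) (nat_lit 28199854) (nat_lit 0) (nat_lit 0x800201570) (nat_lit 566376116),
  Rx.mk (nat_lit 425) (nat_lit 1) (nat_lit 5) (nat_lit 6) (nat_lit 7) (nat_lit 344) (nat_lit 362) r10_344 r4_362 (nat_lit 0) (nat_lit 0) (nat_lit 0) (nat_lit 0x8017985b4) (nat_lit 536870912)]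
noncomputable def e19_52 : List Rx := [
  Rx.mk (nat_lit 313) (nat_lit 1) (nat_lit 7) (nat_lit 4) (nat_lit 3) (nat_lit 347) (nat_lit 307) r10_347 r5_307 (nat_lit 0) (nat_lit 0) (nat_lit 11477207) (nat_lit 0x7fc2367ba) (nat_lit 553442619),
  Rx.mk (nat_lit 377) (nat_lit 1) (nat_lit 7) (nat_lit 5) (nat_lit 7) (nat_lit 348) (nat_lit 308) r10_348 r5_308 (nat_lit 0) (nat_lit 0) (nat_lit 0) (nat_lit 0x80b9b4848) (nat_lit 526949812),
  Rx.mk (nat_lit 441) (nat_lit 1) (nat_lit 7) (nat_lit 6) (nat_lit 7) (nat_lit 349) (nat_lit 309) r10_349 r5_309 (nat_lit 0) (nat_lit 0) (nat_lit 0) (nat_lit 0x80b9b154e) (nat_lit 526950562)]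
noncomputable def e19_53 : List Rx := [
  Rx.mk (nat_lit 289) (nat_lit 1) (nat_lit 4) (nat_lit 4) (nat_lit 1) (nat_lit 351) (nat_lit 181) r10_351 r4_181 (nat_lit 0) (nat_lit 12084870) (nat_lit 11415403) (nat_lit 0x6331c3eb0) (nat_lit 1026799885),
  Rx.mk (nat_lit 313) (nat_lit 1) (nat_lit 7) (nat_lit 4) (nat_lit 3) (nat_lit 354) (nat_lit 184) r10_354 r4_184 (nat_lit 0) (nat_lit 0) (nat_lit 10881583) (nat_lit 0x80aa66698) (nat_lit 538695745),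
  Rx.mk (nat_lit 353) (nat_lit 1) (nat_lit 4) (nat_lit 5) (nat_lit 5) (nat_lit 352) (nat_lit 182) r10_352 r4_182 (nat_lit 0) (nat_lit 21073453) (nat_lit 0) (nat_lit 0x8042207e6) (nat_lit 555329265),
  Rx.mk (nat_lit 377) (nat_lit 1) (nat_lit 7) (nat_lit 5) (nat_lit 7) (nat_lit 355) (nat_lit 185) r10_355 r4_185 (nat_lit 0) (nat_lit 0) (nat_lit 0) (nat_lit 0x80a823854) (nat_lit 528019812),
  Rx.mk (nat_lit 417) (nat_lit 1) (nat_lit 4) (nat_lit 6) (nat_lit 5) (nat_lit 353) (nat_lit 183) r10_353 r4_183 (nat_lit 0) (nat_lit 23202415) (nat_lit 0) (nat_lit 0x7faaa218a) (nat_lit 566751477),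
  Rx.mk (nat_lit 441) (nat_lit 1) (nat_lit 7) (nat_lit 6) (nat_lit 7) (nat_lit 356) (nat_lit 186) r10_356 r4_186 (nat_lit 0) (nat_lit 0) (nat_lit 0) (nat_lit 0x80a823516) (nat_lit 528019862),
  Rx.mk (nat_lit 445) (nat_lit 5) (nat_lit 7) (nat_lit 6) (nat_lit 7) (nat_lit 350) (nat_lit 187) r10_350 r4_187 (nat_lit 0) (nat_lit 0) (nat_lit 0) (nat_lit 0x8017985b4) (nat_lit 536870912)]
noncomputable def e19_54 : List Rx := [
  Rx.mk (nat_lit 289) (nat_lit 1) (nat_lit 4) (nat_lit 4) (nat_lit 1) (nat_lit 357) (nat_lit 357) r10_357 r10_357 (nat_lit 0) (nat_lit 16509364) (nat_lit 16509364) (nat_lit 0x6644d8d22) (nat_lit 986668290),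
  Rx.mk (nat_lit 297) (nat_lit 1) (nat_lit 5) (nat_lit 4) (nat_lit 3) (nat_lit 360) (nat_lit 358) r10_360 r10_358 (nat_lit 0) (nat_lit 0) (nat_lit 24741287) (nat_lit 0x8017985b4) (nat_lit 561612199),
  Rx.mk (nat_lit 313) (nat_lit 1) (nat_lit 7) (nat_lit 4) (nat_lit 3) (nat_lit 363) (nat_lit 359) r10_363 r10_359 (nat_lit 0) (nat_lit 0) (nat_lit 24741287) (nat_lit 0x8017985b4) (nat_lit 561612199),
  Rx.mk (nat_lit 353) (nat_lit 1) (nat_lit 4) (nat_lit 5) (nat_lit 5) (nat_lit 358) (nat_lit 360) r10_358 r10_360 (nat_lit 0) (nat_lit 24741287) (nat_lit 0) (nat_lit 0x8017985b4) (nat_lit 561612199),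
  Rx.mk (nat_lit 361) (nat_lit 1) (nat_lit 5) (nat_lit 5) (nat_lit 7) (nat_lit 361) (nat_lit 361) r10_361 r10_361 (nat_lit 0) (nat_lit 0) (nat_lit 0) (nat_lit 0x8017985b4) (nat_lit 536870912),
  Rx.mk (nat_lit 377) (nat_lit 1) (nat_lit 7) (nat_lit 5) (nat_lit 7) (nat_lit 364) (nat_lit 362) r10_364 r10_362 (nat_lit 0) (nat_lit 0) (nat_lit 0) (nat_lit 0x8017985b4) (nat_lit 536870912),
  Rx.mk (nat_lit 417) (nat_lit 1) (nat_lit 4) (nat_lit 6) (nat_lit 5) (nat_lit 359) (nat_lit 363) r10_359 r10_363 (nat_lit 0) (nat_lit 24741287) (nat_lit 0) (nat_lit 0x8017985b4) (nat_lit 561612199),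
  Rx.mk (nat_lit 425) (nat_lit 1) (nat_lit 5) (nat_lit 6) (nat_lit 7) (nat_lit 362) (nat_lit 364) r10_362 r10_364 (nat_lit 0) (nat_lit 0) (nat_lit 0) (nat_lit 0x8017985b4) (nat_lit 536870912)]
noncomputable def e19_55 : List Rx := [
  Rx.mk (nat_lit 313) (nat_lit 1) (nat_lit 7) (nat_lit 4) (nat_lit 3) (nat_lit 366) (nat_lit 361) r10_366 r11_361 (nat_lit 0) (nat_lit 0) (nat_lit 20709188) (nat_lit 0x804c96cf2) (nat_lit 554327950),
  Rx.mk (nat_lit 377) (nat_lit 1) (nat_lit 7) (nat_lit 5) (nat_lit 7) (nat_lit 367) (nat_lit 362) r10_367 r11_362 (nat_lit 0) (nat_lit 0) (nat_lit 0) (nat_lit 0x8017985b4) (nat_lit 536870912),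
  Rx.mk (nat_lit 441) (nat_lit 1) (nat_lit 7) (nat_lit 6) (nat_lit 7) (nat_lit 368) (nat_lit 363) r10_368 r11_363 (nat_lit 0) (nat_lit 0) (nat_lit 0) (nat_lit 0x8017985b4) (nat_lit 536870912),
  Rx.mk (nat_lit 445) (nat_lit 5) (nat_lit 7) (nat_lit 6) (nat_lit 7) (nat_lit 365) (nat_lit 360) r10_365 r11_360 (nat_lit 0) (nat_lit 0) (nat_lit 0) (nat_lit 0x8017985b4) (nat_lit 536870912)]
noncomputable def e19_56 : List Rx := [
  Rx.mk (nat_lit 289) (nat_lit 1) (nat_lit 4) (nat_lit 4) (nat_lit 1) (nat_lit 369) (nat_lit 197) r10_369 r5_197 (nat_lit 0) (nat_lit 11835146) (nat_lit 4889214) (nat_lit 0x6ab7fa806) (nat_lit 898281722),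
  Rx.mk (nat_lit 313) (nat_lit 1) (nat_lit 7) (nat_lit 4) (nat_lit 3) (nat_lit 371) (nat_lit 199) r10_371 r5_199 (nat_lit 0) (nat_lit 0) (nat_lit 5323301) (nat_lit 0x821784ed6) (nat_lit 511046163),
  Rx.mk (nat_lit 417) (nat_lit 1) (nat_lit 4) (nat_lit 6) (nat_lit 5) (nat_lit 370) (nat_lit 198) r10_370 r5_198 (nat_lit 0) (nat_lit 24741287) (nat_lit 0) (nat_lit 0x7fb2f649e) (nat_lit 567798249),
  Rx.mk (nat_lit 441) (nat_lit 1) (nat_lit 7) (nat_lit 6) (nat_lit 7) (nat_lit 372) (nat_lit 201) r10_372 r5_201 (nat_lit 0) (nat_lit 0) (nat_lit 0) (nat_lit 0x80ff5f960) (nat_lit 522714412),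
  Rx.mk (nat_lit 505) (nat_lit 1) (nat_lit 7) (nat_lit 7) (nat_lit 7) (nat_lit 373) (nat_lit 200) r10_373 r5_200 (nat_lit 0) (nat_lit 0) (nat_lit 0) (nat_lit 0x8017985b4) (nat_lit 536870912)]
noncomputable def e19_57 : List Rx := [
  Rx.mk (nat_lit 289) (nat_lit 1) (nat_lit 4) (nat_lit 4) (nat_lit 1) (nat_lit 374) (nat_lit 230) r10_374 r11_230 (nat_lit 0) (nat_lit 53187078) (nat_lit 29967916) (nat_lit 0x781c132b8) (nat_lit 748379156),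
  Rx.mk (nat_lit 297) (nat_lit 1) (nat_lit 5) (nat_lit 4) (nat_lit 3) (nat_lit 376) (nat_lit 232) r10_376 r11_232 (nat_lit 0) (nat_lit 0) (nat_lit 24741287) (nat_lit 0x8017985b4) (nat_lit 561612199),
  Rx.mk (nat_lit 313) (nat_lit 1) (nat_lit 7) (nat_lit 4) (nat_lit 3) (nat_lit 378) (nat_lit 234) r10_378 r11_234 (nat_lit 0) (nat_lit 0) (nat_lit 24741287) (nat_lit 0x8017985b4) (nat_lit 561612199),
  Rx.mk (nat_lit 417) (nat_lit 1) (nat_lit 4) (nat_lit 6) (nat_lit 5) (nat_lit 375) (nat_lit 231) r10_375 r11_231 (nat_lit 0) (nat_lit 24741287) (nat_lit 0) (nat_lit 0x8017985b4) (nat_lit 561612199),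
  Rx.mk (nat_lit 425) (nat_lit 1) (nat_lit 5) (nat_lit 6) (nat_lit 7) (nat_lit 377) (nat_lit 233) r10_377 r11_233 (nat_lit 0) (nat_lit 0) (nat_lit 0) (nat_lit 0x8017985b4) (nat_lit 536870912),
  Rx.mk (nat_lit 505) (nat_lit 1) (nat_lit 7) (nat_lit 7) (nat_lit 7) (nat_lit 379) (nat_lit 235) r10_379 r11_235 (nat_lit 0) (nat_lit 0) (nat_lit 0) (nat_lit 0x8017985b4) (nat_lit 536870912)]
noncomputable def e19 : List (List Rx) := [e19_0, e19_1, e19_2, e19_3, e19_4, e19_5, e19_6, e19_7, e19_8, e19_9, e19_10, e19_11, e19_12, e19_13, e19_14, e19_15, e19_16, e19_17, e19_18, e19_19, e19_20, e19_21, e19_22, e19_23, e19_24, e19_25, e19_26, e19_27, e19_28, e19_29, e19_30, e19_31, e19_32, e19_33, e19_34, e19_35, e19_36, e19_37, e19_38, e19_39, e19_40, e19_41, e19_42, e19_43, e19_44, e19_45, e19_46, e19_47, e19_48, e19_49, e19_50, e19_51, e19_52, e19_53, e19_54, e19_55, e19_56,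 e19_57]
noncomputable def e20_0 : List Rx := [
  Rx.mk (nat_lit 18) (nat_lit 2) (nat_lit 2) (nat_lit 0) (nat_lit 3) (nat_lit 0) (nat_lit 152) r11_0 r0_152 (nat_lit 0) (nat_lit 0) (nat_lit 24142843) (nat_lit 0x7ecf6cf52) (nat_lit 581323155),
  Rx.mk (nat_lit 210) (nat_lit 2) (nat_lit 2) (nat_lit 3) (nat_lit 7) (nat_lit 1) (nat_lit 153) r11_1 r0_153 (nat_lit 0) (nat_lit 0) (nat_lit 0) (nat_lit 0x80194a9fc) (nat_lit 536773062)]
noncomputable def e20_1 : List Rx := [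
  Rx.mk (nat_lit 18) (nat_lit 2) (nat_lit 2) (nat_lit 0) (nat_lit 3) (nat_lit 2) (nat_lit 166) r11_2 r1_166 (nat_lit 0) (nat_lit 0) (nat_lit 24107596) (nat_lit 0x800249f8c) (nat_lit 562289358),
  Rx.mk (nat_lit 82) (nat_lit 2) (nat_lit 2) (nat_lit 1) (nat_lit 7) (nat_lit 3) (nat_lit 167) r11_3 r1_167 (nat_lit 0) (nat_lit 0) (nat_lit 0) (nat_lit 0x8017985b4) (nat_lit 536870912),
  Rx.mk (nat_lit 210) (nat_lit 2) (nat_lit 2) (nat_lit 3) (nat_lit 7) (nat_lit 4) (nat_lit 168) r11_4 r1_168 (nat_lit 0) (nat_lit 0) (nat_lit 0) (nat_lit 0x8017985b4) (nat_lit 536870912)]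
noncomputable def e20_2 : List Rx := [
  Rx.mk (nat_lit 82) (nat_lit 2) (nat_lit 2) (nat_lit 1) (nat_lit 7) (nat_lit 5) (nat_lit 167) r11_5 r2_167 (nat_lit 0) (nat_lit 0) (nat_lit 0) (nat_lit 0x8017985b4) (nat_lit 536870912)]
noncomputable def e20_3 : List Rx := [
  Rx.mk (nat_lit 210) (nat_lit 2) (nat_lit 2) (nat_lit 3) (nat_lit 7) (nat_lit 6) (nat_lit 140) r11_6 r3_140 (nat_lit 0) (nat_lit 0) (nat_lit 0) (nat_lit 0x884245afc) (nat_lit 411412412),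
  Rx.mk (nat_lit 443) (nat_lit 3) (nat_lit 7) (nat_lit 6) (nat_lit 7) (nat_lit 7) (nat_lit 139) r11_7 r3_139 (nat_lit 0) (nat_lit 0) (nat_lit 0) (nat_lit 0x8f1cadf90) (nat_lit 306718562)]
noncomputable def e20_4 : List Rx := [
  Rx.mk (nat_lit 210) (nat_lit 2) (nat_lit 2) (nat_lit 3) (nat_lit 7) (nat_lit 8) (nat_lit 143) r11_8 r4_143 (nat_lit 0) (nat_lit 0) (nat_lit 0) (nat_lit 0x7ff232496) (nat_lit 539166062)]
noncomputable def e20_5 : List Rx := [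
  Rx.mk (nat_lit 210) (nat_lit 2) (nat_lit 2) (nat_lit 3) (nat_lit 7) (nat_lit 13) (nat_lit 148) r11_13 r5_148 (nat_lit 0) (nat_lit 0) (nat_lit 0) (nat_lit 0x8219c55ce) (nat_lit 505691562),
  Rx.mk (nat_lit 283) (nat_lit 3) (nat_lit 3) (nat_lit 4) (nat_lit 3) (nat_lit 16) (nat_lit 142) r11_16 r5_142 (nat_lit 0) (nat_lit 0) (nat_lit 13610733) (nat_lit 0x7f8c34efa) (nat_lit 558980045),
  Rx.mk (nat_lit 411) (nat_lit 3) (nat_lit 3) (nat_lit 6) (nat_lit 7) (nat_lit 17) (nat_lit 144) r11_17 r5_144 (nat_lit 0) (nat_lit 0) (nat_lit 0) (nat_lit 0x804f3bf3e) (nat_lit 533452962),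
  Rx.mk (nat_lit 443) (nat_lit 3) (nat_lit 7) (nat_lit 6) (nat_lit 7) (nat_lit 15) (nat_lit 145) r11_15 r5_145 (nat_lit 0) (nat_lit 0) (nat_lit 0) (nat_lit 0x839723e3e) (nat_lit 482866162),
  Rx.mk (nat_lit 448) (nat_lit 0) (nat_lit 0) (nat_lit 7) (nat_lit 4) (nat_lit 9) (nat_lit 140) r11_9 r5_140 (nat_lit 474232) (nat_lit 674925) (nat_lit 0) (nat_lit 0x722cb1ea4) (nat_lit 761731069),
  Rx.mk (nat_lit 450) (nat_lit 2) (nat_lit 0) (nat_lit 7) (nat_lit 5) (nat_lit 11) (nat_lit 146) r11_11 r5_146 (nat_lit 0) (nat_lit 9828533) (nat_lit 0) (nat_lit 0x7fdfbd658) (nat_lit 549901095),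
  Rx.mk (nat_lit 466) (nat_lit 2) (nat_lit 2) (nat_lit 7) (nat_lit 7) (nat_lit 12) (nat_lit 149) r11_12 r5_149 (nat_lit 0) (nat_lit 0) (nat_lit 0) (nat_lit 0x80700d5c8) (nat_lit 531445012),
  Rx.mk (nat_lit 472) (nat_lit 0) (nat_lit 3) (nat_lit 7) (nat_lit 6) (nat_lit 10) (nat_lit 141) r11_10 r5_141 (nat_lit 4328604) (nat_lit 0) (nat_lit 0) (nat_lit 0x8397c64a4) (nat_lit 487049866),
  Rx.mk (nat_lit 474) (nat_lit 2) (nat_lit 3) (nat_lit 7) (nat_lit 7) (nat_lit 14) (nat_lit 147) r11_14 r5_147 (nat_lit 0) (nat_lit 0) (nat_lit 0) (nat_lit 0x81c0f7b72) (nat_lit 511039762),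
  Rx.mk (nat_lit 475) (nat_lit 3) (nat_lit 3) (nat_lit 7) (nat_lit 7) (nat_lit 18) (nat_lit 143) r11_18 r5_143 (nat_lit 0) (nat_lit 0) (nat_lit 0) (nat_lit 0x804f350bc) (nat_lit 533454612)]
noncomputable def e20_6 : List Rx := [
  Rx.mk (nat_lit 256) (nat_lit 0) (nat_lit 0) (nat_lit 4) (nat_lit 0) (nat_lit 19) (nat_lit 186) r11_19 r3_186 (nat_lit 122716) (nat_lit 132111) (nat_lit 96674) (nat_lit 0x497316d28) (nat_lit 1419374513),
  Rx.mk (nat_lit 257) (nat_lit 1) (nat_lit 0) (nat_lit 4) (nat_lit 1) (nat_lit 25) (nat_lit 189) r11_25 r3_189 (nat_lit 0) (nat_lit 1291523) (nat_lit 3284544) (nat_lit 0x652f21fd4) (nat_lit 975280179),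
  Rx.mk (nat_lit 258) (nat_lit 2) (nat_lit 0) (nat_lit 4) (nat_lit 1) (nat_lit 31) (nat_lit 192) r11_31 r3_192 (nat_lit 0) (nat_lit 138609354) (nat_lit 849840) (nat_lit 0x69d7f337a) (nat_lit 1034816656),
  Rx.mk (nat_lit 274) (nat_lit 2) (nat_lit 2) (nat_lit 4) (nat_lit 3) (nat_lit 33) (nat_lit 202) r11_33 r3_202 (nat_lit 0) (nat_lit 0) (nat_lit 22698438) (nat_lit 0x801e644f6) (nat_lit 559143350),
  Rx.mk (nat_lit 280) (nat_lit 0) (nat_lit 3) (nat_lit 4) (nat_lit 2) (nat_lit 22) (nat_lit 194) r11_22 r3_194 (nat_lit 5090553) (nat_lit 0) (nat_lit 4459709) (nat_lit 0x6f5ae93ec) (nat_lit 816096324),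
  Rx.mk (nat_lit 281) (nat_lit 1) (nat_lit 3) (nat_lit 4) (nat_lit 3) (nat_lit 28) (nat_lit 197) r11_28 r3_197 (nat_lit 0) (nat_lit 0) (nat_lit 13146689) (nat_lit 0x808dd2f86) (nat_lit 542691851),
  Rx.mk (nat_lit 282) (nat_lit 2) (nat_lit 3) (nat_lit 4) (nat_lit 3) (nat_lit 35) (nat_lit 200) r11_35 r3_200 (nat_lit 0) (nat_lit 0) (nat_lit 13744676) (nat_lit 0x808aa0700) (nat_lit 543529688),
  Rx.mk (nat_lit 320) (nat_lit 0) (nat_lit 0) (nat_lit 5) (nat_lit 4) (nat_lit 20) (nat_lit 187) r11_20 r3_187 (nat_lit 29295655) (nat_lit 18566817) (nat_lit 0) (nat_lit 0x6eb4eea14) (nat_lit 865039884),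
  Rx.mk (nat_lit 321) (nat_lit 1) (nat_lit 0) (nat_lit 5) (nat_lit 5) (nat_lit 26) (nat_lit 190) r11_26 r3_190 (nat_lit 0) (nat_lit 24741287) (nat_lit 0) (nat_lit 0x8017985b4) (nat_lit 561612199),
  Rx.mk (nat_lit 322) (nat_lit 2) (nat_lit 0) (nat_lit 5) (nat_lit 5) (nat_lit 32) (nat_lit 193) r11_32 r3_193 (nat_lit 0) (nat_lit 29915179) (nat_lit 0) (nat_lit 0x7fe911db2) (nat_lit 569577941),
  Rx.mk (nat_lit 338) (nat_lit 2) (nat_lit 2) (nat_lit 5) (nat_lit 7) (nat_lit 34) (nat_lit 203) r11_34 r3_203 (nat_lit 0) (nat_lit 0) (nat_lit 0) (nat_lit 0x8017985b4) (nat_lit 536870912),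
  Rx.mk (nat_lit 344) (nat_lit 0) (nat_lit 3) (nat_lit 5) (nat_lit 6) (nat_lit 23) (nat_lit 195) r11_23 r3_195 (nat_lit 14431981) (nat_lit 0) (nat_lit 0) (nat_lit 0x80cd30a02) (nat_lit 540176893),
  Rx.mk (nat_lit 345) (nat_lit 1) (nat_lit 3) (nat_lit 5) (nat_lit 7) (nat_lit 29) (nat_lit 198) r11_29 r3_198 (nat_lit 0) (nat_lit 0) (nat_lit 0) (nat_lit 0x8017985b4) (nat_lit 536870912),
  Rx.mk (nat_lit 346) (nat_lit 2) (nat_lit 3) (nat_lit 5) (nat_lit 7) (nat_lit 36) (nat_lit 201) r11_36 r3_201 (nat_lit 0) (nat_lit 0) (nat_lit 0) (nat_lit 0x8017985b4) (nat_lit 536870912),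
  Rx.mk (nat_lit 384) (nat_lit 0) (nat_lit 0) (nat_lit 6) (nat_lit 4) (nat_lit 21) (nat_lit 188) r11_21 r3_188 (nat_lit 24848889) (nat_lit 41499232) (nat_lit 0) (nat_lit 0x75df8e2a4) (nat_lit 767700883),
  Rx.mk (nat_lit 385) (nat_lit 1) (nat_lit 0) (nat_lit 6) (nat_lit 5) (nat_lit 27) (nat_lit 191) r11_27 r3_191 (nat_lit 0) (nat_lit 22959846) (nat_lit 0) (nat_lit 0x7f72d2be2) (nat_lit 569951908),
  Rx.mk (nat_lit 408) (nat_lit 0) (nat_lit 3) (nat_lit 6) (nat_lit 6) (nat_lit 24) (nat_lit 196) r11_24 r3_196 (nat_lit 10849071) (nat_lit 0) (nat_lit 0) (nat_lit 0x7fc617ece) (nat_lit 552588333),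
  Rx.mk (nat_lit 409) (nat_lit 1) (nat_lit 3) (nat_lit 6) (nat_lit 7) (nat_lit 30) (nat_lit 199) r11_30 r3_199 (nat_lit 0) (nat_lit 0) (nat_lit 0) (nat_lit 0x8017985b4) (nat_lit 536870912)]
noncomputable def e20_7 : List Rx := [
  Rx.mk (nat_lit 320) (nat_lit 0) (nat_lit 0) (nat_lit 5) (nat_lit 4) (nat_lit 37) (nat_lit 200) r11_37 r0_200 (nat_lit 75082556) (nat_lit 46723193) (nat_lit 0) (nat_lit 0x67eb4628a) (nat_lit 1048737861),
  Rx.mk (nat_lit 321) (nat_lit 1) (nat_lit 0) (nat_lit 5) (nat_lit 5) (nat_lit 38) (nat_lit 201) r11_38 r0_201 (nat_lit 0) (nat_lit 24741287) (nat_lit 0) (nat_lit 0x80790da56) (nat_lit 555628299),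
  Rx.mk (nat_lit 322) (nat_lit 2) (nat_lit 0) (nat_lit 5) (nat_lit 5) (nat_lit 39) (nat_lit 202) r11_39 r0_202 (nat_lit 0) (nat_lit 41103109) (nat_lit 0) (nat_lit 0x7fd7cf8c4) (nat_lit 581741021),
  Rx.mk (nat_lit 338) (nat_lit 2) (nat_lit 2) (nat_lit 5) (nat_lit 7) (nat_lit 40) (nat_lit 203) r11_40 r0_203 (nat_lit 0) (nat_lit 0) (nat_lit 0) (nat_lit 0x820bd8c36) (nat_lit 506517062)]
noncomputable def e20_8 : List Rx := [
  Rx.mk (nat_lit 82) (nat_lit 2) (nat_lit 2) (nat_lit 1) (nat_lit 7) (nat_lit 45) (nat_lit 224) r11_45 r1_224 (nat_lit 0) (nat_lit 0) (nat_lit 0) (nat_lit 0x808a832cc) (nat_lit 529822112),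
  Rx.mk (nat_lit 320) (nat_lit 0) (nat_lit 0) (nat_lit 5) (nat_lit 4) (nat_lit 41) (nat_lit 220) r11_41 r1_220 (nat_lit 107908680) (nat_lit 132640855) (nat_lit 0) (nat_lit 0x75cd0e8fe) (nat_lit 943069347),
  Rx.mk (nat_lit 321) (nat_lit 1) (nat_lit 0) (nat_lit 5) (nat_lit 5) (nat_lit 42) (nat_lit 221) r11_42 r1_221 (nat_lit 0) (nat_lit 24741287) (nat_lit 0) (nat_lit 0x80394da56) (nat_lit 559537749),
  Rx.mk (nat_lit 322) (nat_lit 2) (nat_lit 0) (nat_lit 5) (nat_lit 5) (nat_lit 43) (nat_lit 222) r11_43 r1_222 (nat_lit 0) (nat_lit 27280081) (nat_lit 0) (nat_lit 0x7ff4c6252) (nat_lit 566171843),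
  Rx.mk (nat_lit 338) (nat_lit 2) (nat_lit 2) (nat_lit 5) (nat_lit 7) (nat_lit 44) (nat_lit 223) r11_44 r1_223 (nat_lit 0) (nat_lit 0) (nat_lit 0) (nat_lit 0x814af5f1e) (nat_lit 518142212)]
noncomputable def e20_9 : List Rx := [
  Rx.mk (nat_lit 320) (nat_lit 0) (nat_lit 0) (nat_lit 5) (nat_lit 4) (nat_lit 46) (nat_lit 188) r11_46 r4_188 (nat_lit 33533154) (nat_lit 16806885) (nat_lit 0) (nat_lit 0x78c402cc6) (nat_lit 704937351),
  Rx.mk (nat_lit 321) (nat_lit 1) (nat_lit 0) (nat_lit 5) (nat_lit 5) (nat_lit 48) (nat_lit 189) r11_48 r4_189 (nat_lit 0) (nat_lit 24741287) (nat_lit 0) (nat_lit 0x8017985b4) (nat_lit 561612199),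
  Rx.mk (nat_lit 322) (nat_lit 2) (nat_lit 0) (nat_lit 5) (nat_lit 5) (nat_lit 50) (nat_lit 190) r11_50 r4_190 (nat_lit 0) (nat_lit 26071655) (nat_lit 0) (nat_lit 0x7fa9352f2) (nat_lit 569730517),
  Rx.mk (nat_lit 338) (nat_lit 2) (nat_lit 2) (nat_lit 5) (nat_lit 7) (nat_lit 51) (nat_lit 194) r11_51 r4_194 (nat_lit 0) (nat_lit 0) (nat_lit 0) (nat_lit 0x8017985b4) (nat_lit 536870912),
  Rx.mk (nat_lit 344) (nat_lit 0) (nat_lit 3) (nat_lit 5) (nat_lit 6) (nat_lit 47) (nat_lit 191) r11_47 r4_191 (nat_lit 16749673) (nat_lit 0) (nat_lit 0) (nat_lit 0x8060fd66e) (nat_lit 549095785),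
  Rx.mk (nat_lit 345) (nat_lit 1) (nat_lit 3) (nat_lit 5) (nat_lit 7) (nat_lit 49) (nat_lit 192) r11_49 r4_192 (nat_lit 0) (nat_lit 0) (nat_lit 0) (nat_lit 0x804ce505a) (nat_lit 533594662),
  Rx.mk (nat_lit 346) (nat_lit 2) (nat_lit 3) (nat_lit 5) (nat_lit 7) (nat_lit 52) (nat_lit 193) r11_52 r4_193 (nat_lit 0) (nat_lit 0) (nat_lit 0) (nat_lit 0x804ce4d1c) (nat_lit 533594712)]
noncomputable def e20_10 : List Rx := [
  Rx.mk (nat_lit 280) (nat_lit 0) (nat_lit 3) (nat_lit 4) (nat_lit 2) (nat_lit 54) (nat_lit 154) r11_54 r6_154 (nat_lit 8887259) (nat_lit 0) (nat_lit 8232258) (nat_lit 0x752a94a10) (nat_lit 729817329),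
  Rx.mk (nat_lit 281) (nat_lit 1) (nat_lit 3) (nat_lit 4) (nat_lit 3) (nat_lit 58) (nat_lit 158) r11_58 r6_158 (nat_lit 0) (nat_lit 0) (nat_lit 24863851) (nat_lit 0x80051da7e) (nat_lit 562865263),
  Rx.mk (nat_lit 282) (nat_lit 2) (nat_lit 3) (nat_lit 4) (nat_lit 3) (nat_lit 63) (nat_lit 165) r11_63 r6_165 (nat_lit 0) (nat_lit 0) (nat_lit 24741287) (nat_lit 0x8017985b4) (nat_lit 561612199),
  Rx.mk (nat_lit 283) (nat_lit 3) (nat_lit 3) (nat_lit 4) (nat_lit 3) (nat_lit 66) (nat_lit 161) r11_66 r6_161 (nat_lit 0) (nat_lit 0) (nat_lit 24741287) (nat_lit 0x8017985b4) (nat_lit 561612199),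
  Rx.mk (nat_lit 408) (nat_lit 0) (nat_lit 3) (nat_lit 6) (nat_lit 6) (nat_lit 55) (nat_lit 156) r11_55 r6_156 (nat_lit 20819956) (nat_lit 0) (nat_lit 0) (nat_lit 0x80443f36a) (nat_lit 554944468),
  Rx.mk (nat_lit 409) (nat_lit 1) (nat_lit 3) (nat_lit 6) (nat_lit 7) (nat_lit 59) (nat_lit 160) r11_59 r6_160 (nat_lit 0) (nat_lit 0) (nat_lit 0) (nat_lit 0x8017985b4) (nat_lit 536870912),
  Rx.mk (nat_lit 411) (nat_lit 3) (nat_lit 3) (nat_lit 6) (nat_lit 7) (nat_lit 67) (nat_lit 162) r11_67 r6_162 (nat_lit 0) (nat_lit 0) (nat_lit 0) (nat_lit 0x8017985b4) (nat_lit 536870912),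
  Rx.mk (nat_lit 443) (nat_lit 3) (nat_lit 7) (nat_lit 6) (nat_lit 7) (nat_lit 65) (nat_lit 163) r11_65 r6_163 (nat_lit 0) (nat_lit 0) (nat_lit 0) (nat_lit 0x822812b0e) (nat_lit 504804312),
  Rx.mk (nat_lit 448) (nat_lit 0) (nat_lit 0) (nat_lit 7) (nat_lit 4) (nat_lit 53) (nat_lit 153) r11_53 r6_153 (nat_lit 11453294) (nat_lit 17592133) (nat_lit 0) (nat_lit 0x79c89e50e) (nat_lit 667174639),
  Rx.mk (nat_lit 449) (nat_lit 1) (nat_lit 0) (nat_lit 7) (nat_lit 5) (nat_lit 57) (nat_lit 157) r11_57 r6_157 (nat_lit 0) (nat_lit 23560195) (nat_lit 0) (nat_lit 0x8006b0be8) (nat_lit 561461107),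
  Rx.mk (nat_lit 450) (nat_lit 2) (nat_lit 0) (nat_lit 7) (nat_lit 5) (nat_lit 61) (nat_lit 164) r11_61 r6_164 (nat_lit 0) (nat_lit 26850297) (nat_lit 0) (nat_lit 0x80135a3c6) (nat_lit 563945709),
  Rx.mk (nat_lit 466) (nat_lit 2) (nat_lit 2) (nat_lit 7) (nat_lit 7) (nat_lit 62) (nat_lit 167) r11_62 r6_167 (nat_lit 0) (nat_lit 0) (nat_lit 0) (nat_lit 0x8017985b4) (nat_lit 536870912),
  Rx.mk (nat_lit 472) (nat_lit 0) (nat_lit 3) (nat_lit 7) (nat_lit 6) (nat_lit 56) (nat_lit 155) r11_56 r6_155 (nat_lit 11833070) (nat_lit 0) (nat_lit 0) (nat_lit 0x80dfff796) (nat_lit 536433782),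
  Rx.mk (nat_lit 473) (nat_lit 1) (nat_lit 3) (nat_lit 7) (nat_lit 7) (nat_lit 60) (nat_lit 159) r11_60 r6_159 (nat_lit 0) (nat_lit 0) (nat_lit 0) (nat_lit 0x8017985b4) (nat_lit 536870912),
  Rx.mk (nat_lit 474) (nat_lit 2) (nat_lit 3) (nat_lit 7) (nat_lit 7) (nat_lit 64) (nat_lit 166) r11_64 r6_166 (nat_lit 0) (nat_lit 0) (nat_lit 0) (nat_lit 0x8017985b4) (nat_lit 536870912)]
noncomputable def e20_11 : List Rx := [
  Rx.mk (nat_lit 256) (nat_lit 0) (nat_lit 0) (nat_lit 4) (nat_lit 0) (nat_lit 68) (nat_lit 202) r11_68 r5_202 (nat_lit 5946457) (nat_lit 23484085) (nat_lit 4773935) (nat_lit 0x49e63d70c) (nat_lit 1446456039),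
  Rx.mk (nat_lit 257) (nat_lit 1) (nat_lit 0) (nat_lit 4) (nat_lit 1) (nat_lit 75) (nat_lit 206) r11_75 r5_206 (nat_lit 0) (nat_lit 41438793) (nat_lit 35682471) (nat_lit 0x752101d04) (nat_lit 790555976),
  Rx.mk (nat_lit 258) (nat_lit 2) (nat_lit 0) (nat_lit 4) (nat_lit 1) (nat_lit 80) (nat_lit 209) r11_80 r5_209 (nat_lit 0) (nat_lit 163052374) (nat_lit 10516416) (nat_lit 0x79e792546) (nat_lit 809704152),
  Rx.mk (nat_lit 274) (nat_lit 2) (nat_lit 2) (nat_lit 4) (nat_lit 3) (nat_lit 83) (nat_lit 222) r11_83 r5_222 (nat_lit 0) (nat_lit 0) (nat_lit 20811975) (nat_lit 0x7fde627e0) (nat_lit 561177737),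
  Rx.mk (nat_lit 280) (nat_lit 0) (nat_lit 3) (nat_lit 4) (nat_lit 2) (nat_lit 72) (nat_lit 212) r11_72 r5_212 (nat_lit 12323810) (nat_lit 0) (nat_lit 8957018) (nat_lit 0x6eeac40b2) (nat_lit 835033290),
  Rx.mk (nat_lit 281) (nat_lit 1) (nat_lit 3) (nat_lit 4) (nat_lit 3) (nat_lit 78) (nat_lit 215) r11_78 r5_215 (nat_lit 0) (nat_lit 0) (nat_lit 16307770) (nat_lit 0x8072222be) (nat_lit 547606132),
  Rx.mk (nat_lit 282) (nat_lit 2) (nat_lit 3) (nat_lit 4) (nat_lit 3) (nat_lit 86) (nat_lit 220) r11_86 r5_220 (nat_lit 0) (nat_lit 0) (nat_lit 16204149) (nat_lit 0x809309fb8) (nat_lit 545503711),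
  Rx.mk (nat_lit 283) (nat_lit 3) (nat_lit 3) (nat_lit 4) (nat_lit 3) (nat_lit 88) (nat_lit 217) r11_88 r5_217 (nat_lit 0) (nat_lit 0) (nat_lit 24841657) (nat_lit 0x7dc3688d8) (nat_lit 598810569),
  Rx.mk (nat_lit 320) (nat_lit 0) (nat_lit 0) (nat_lit 5) (nat_lit 4) (nat_lit 69) (nat_lit 203) r11_69 r5_203 (nat_lit 33768507) (nat_lit 55665677) (nat_lit 0) (nat_lit 0x7ce62247e) (nat_lit 677311396),
  Rx.mk (nat_lit 322) (nat_lit 2) (nat_lit 0) (nat_lit 5) (nat_lit 5) (nat_lit 81) (nat_lit 210) r11_81 r5_210 (nat_lit 0) (nat_lit 24741287) (nat_lit 0) (nat_lit 0x8036bdc00) (nat_lit 559695499),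
  Rx.mk (nat_lit 338) (nat_lit 2) (nat_lit 2) (nat_lit 5) (nat_lit 7) (nat_lit 84) (nat_lit 223) r11_84 r5_223 (nat_lit 0) (nat_lit 0) (nat_lit 0) (nat_lit 0x8017985b4) (nat_lit 536870912),
  Rx.mk (nat_lit 344) (nat_lit 0) (nat_lit 3) (nat_lit 5) (nat_lit 6) (nat_lit 73) (nat_lit 213) r11_73 r5_213 (nat_lit 18403732) (nat_lit 0) (nat_lit 0) (nat_lit 0x8068f7d2e) (nat_lit 550276494),
  Rx.mk (nat_lit 346) (nat_lit 2) (nat_lit 3) (nat_lit 5) (nat_lit 7) (nat_lit 87) (nat_lit 221) r11_87 r5_221 (nat_lit 0) (nat_lit 0) (nat_lit 0) (nat_lit 0x8017985b4) (nat_lit 536870912),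
  Rx.mk (nat_lit 347) (nat_lit 3) (nat_lit 3) (nat_lit 5) (nat_lit 7) (nat_lit 89) (nat_lit 218) r11_89 r5_218 (nat_lit 0) (nat_lit 0) (nat_lit 0) (nat_lit 0x8017985b4) (nat_lit 536870912),
  Rx.mk (nat_lit 384) (nat_lit 0) (nat_lit 0) (nat_lit 6) (nat_lit 4) (nat_lit 70) (nat_lit 205) r11_70 r5_205 (nat_lit 37783563) (nat_lit 43048303) (nat_lit 0) (nat_lit 0x7dabdf81a) (nat_lit 656267928),
  Rx.mk (nat_lit 385) (nat_lit 1) (nat_lit 0) (nat_lit 6) (nat_lit 5) (nat_lit 76) (nat_lit 208) r11_76 r5_208 (nat_lit 0) (nat_lit 24741287) (nat_lit 0) (nat_lit 0x8017985b4) (nat_lit 561612199),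
  Rx.mk (nat_lit 408) (nat_lit 0) (nat_lit 3) (nat_lit 6) (nat_lit 6) (nat_lit 74) (nat_lit 214) r11_74 r5_214 (nat_lit 19699007) (nat_lit 0) (nat_lit 0) (nat_lit 0x7fd8785be) (nat_lit 560420169),
  Rx.mk (nat_lit 409) (nat_lit 1) (nat_lit 3) (nat_lit 6) (nat_lit 7) (nat_lit 79) (nat_lit 216) r11_79 r5_216 (nat_lit 0) (nat_lit 0) (nat_lit 0) (nat_lit 0x8017985b4) (nat_lit 536870912),
  Rx.mk (nat_lit 411) (nat_lit 3) (nat_lit 3) (nat_lit 6) (nat_lit 7) (nat_lit 90) (nat_lit 219) r11_90 r5_219 (nat_lit 0) (nat_lit 0) (nat_lit 0) (nat_lit 0x8017985b4) (nat_lit 536870912),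
  Rx.mk (nat_lit 448) (nat_lit 0) (nat_lit 0) (nat_lit 7) (nat_lit 4) (nat_lit 71) (nat_lit 204) r11_71 r5_204 (nat_lit 36801253) (nat_lit 60413237) (nat_lit 0) (nat_lit 0x7abb7e684) (nat_lit 720123752),
  Rx.mk (nat_lit 449) (nat_lit 1) (nat_lit 0) (nat_lit 7) (nat_lit 5) (nat_lit 77) (nat_lit 207) r11_77 r5_207 (nat_lit 0) (nat_lit 24741287) (nat_lit 0) (nat_lit 0x8017985b4) (nat_lit 561612199),
  Rx.mk (nat_lit 450) (nat_lit 2) (nat_lit 0) (nat_lit 7) (nat_lit 5) (nat_lit 82) (nat_lit 211) r11_82 r5_211 (nat_lit 0) (nat_lit 25956094) (nat_lit 0) (nat_lit 0x80019bd60) (nat_lit 564158956),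
  Rx.mk (nat_lit 466) (nat_lit 2) (nat_lit 2) (nat_lit 7) (nat_lit 7) (nat_lit 85) (nat_lit 224) r11_85 r5_224 (nat_lit 0) (nat_lit 0) (nat_lit 0) (nat_lit 0x8017985b4) (nat_lit 536870912)]
noncomputable def e20_12 : List Rx := [
  Rx.mk (nat_lit 18) (nat_lit 2) (nat_lit 2) (nat_lit 0) (nat_lit 3) (nat_lit 99) (nat_lit 217) r11_99 r0_217 (nat_lit 0) (nat_lit 0) (nat_lit 11279401) (nat_lit 0x78e6c8c2e) (nat_lit 663631063),
  Rx.mk (nat_lit 22) (nat_lit 6) (nat_lit 2) (nat_lit 0) (nat_lit 3) (nat_lit 96) (nat_lit 216) r11_96 r0_216 (nat_lit 0) (nat_lit 0) (nat_lit 12688314) (nat_lit 0x803b0d346) (nat_lit 547294026),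
  Rx.mk (nat_lit 54) (nat_lit 6) (nat_lit 6) (nat_lit 0) (nat_lit 3) (nat_lit 94) (nat_lit 215) r11_94 r0_215 (nat_lit 0) (nat_lit 0) (nat_lit 14894858) (nat_lit 0x800926332) (nat_lit 552590770),
  Rx.mk (nat_lit 164) (nat_lit 4) (nat_lit 4) (nat_lit 2) (nat_lit 4) (nat_lit 92) (nat_lit 219) r11_92 r0_219 (nat_lit 7944298) (nat_lit 9949213) (nat_lit 0) (nat_lit 0x6fc82cfd0) (nat_lit 817619223),
  Rx.mk (nat_lit 180) (nat_lit 4) (nat_lit 6) (nat_lit 2) (nat_lit 6) (nat_lit 93) (nat_lit 220) r11_93 r0_220 (nat_lit 15086968) (nat_lit 0) (nat_lit 0) (nat_lit 0x80b26ae3e) (nat_lit 542475880),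
  Rx.mk (nat_lit 182) (nat_lit 6) (nat_lit 6) (nat_lit 2) (nat_lit 7) (nat_lit 95) (nat_lit 221) r11_95 r0_221 (nat_lit 0) (nat_lit 0) (nat_lit 0) (nat_lit 0x805e5975a) (nat_lit 532528962),
  Rx.mk (nat_lit 210) (nat_lit 2) (nat_lit 2) (nat_lit 3) (nat_lit 7) (nat_lit 100) (nat_lit 218) r11_100 r0_218 (nat_lit 0) (nat_lit 0) (nat_lit 0) (nat_lit 0x81065e126) (nat_lit 522185862),
  Rx.mk (nat_lit 420) (nat_lit 4) (nat_lit 4) (nat_lit 6) (nat_lit 4) (nat_lit 91) (nat_lit 212) r11_91 r0_212 (nat_lit 18712504) (nat_lit 170327518) (nat_lit 0) (nat_lit 0x72fa2386a) (nat_lit 937148384),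
  Rx.mk (nat_lit 423) (nat_lit 7) (nat_lit 4) (nat_lit 6) (nat_lit 5) (nat_lit 97) (nat_lit 213) r11_97 r0_213 (nat_lit 0) (nat_lit 153834335) (nat_lit 0) (nat_lit 0x7ce2c9da4) (nat_lit 741924097),
  Rx.mk (nat_lit 447) (nat_lit 7) (nat_lit 7) (nat_lit 6) (nat_lit 7) (nat_lit 98) (nat_lit 214) r11_98 r0_214 (nat_lit 0) (nat_lit 0) (nat_lit 0) (nat_lit 0x8056e7ad0) (nat_lit 532778862)]
noncomputable def e20_13 : List Rx := [
  Rx.mk (nat_lit 18) (nat_lit 2) (nat_lit 2) (nat_lit 0) (nat_lit 3) (nat_lit 105) (nat_lit 198) r11_105 r7_198 (nat_lit 0) (nat_lit 0) (nat_lit 22333228) (nat_lit 0x7fea265d6) (nat_lit 561979440),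
  Rx.mk (nat_lit 22) (nat_lit 6) (nat_lit 2) (nat_lit 0) (nat_lit 3) (nat_lit 104) (nat_lit 201) r11_104 r7_201 (nat_lit 0) (nat_lit 0) (nat_lit 24741287) (nat_lit 0x8017985b4) (nat_lit 561612199),
  Rx.mk (nat_lit 54) (nat_lit 6) (nat_lit 6) (nat_lit 0) (nat_lit 3) (nat_lit 102) (nat_lit 202) r11_102 r7_202 (nat_lit 0) (nat_lit 0) (nat_lit 24836041) (nat_lit 0x800a5d2d2) (nat_lit 562522353),
  Rx.mk (nat_lit 180) (nat_lit 4) (nat_lit 6) (nat_lit 2) (nat_lit 6) (nat_lit 101) (nat_lit 200) r11_101 r7_200 (nat_lit 24741287) (nat_lit 0) (nat_lit 0) (nat_lit 0x8017985b4) (nat_lit 561612199),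
  Rx.mk (nat_lit 182) (nat_lit 6) (nat_lit 6) (nat_lit 2) (nat_lit 7) (nat_lit 103) (nat_lit 203) r11_103 r7_203 (nat_lit 0) (nat_lit 0) (nat_lit 0) (nat_lit 0x8017985b4) (nat_lit 536870912),
  Rx.mk (nat_lit 210) (nat_lit 2) (nat_lit 2) (nat_lit 3) (nat_lit 7) (nat_lit 106) (nat_lit 199) r11_106 r7_199 (nat_lit 0) (nat_lit 0) (nat_lit 0) (nat_lit 0x8017985b4) (nat_lit 536870912)]
noncomputable def e20_14 : List Rx := [
  Rx.mk (nat_lit 164) (nat_lit 4) (nat_lit 4) (nat_lit 2) (nat_lit 4) (nat_lit 108) (nat_lit 237) r11_108 r1_237 (nat_lit 45330043) (nat_lit 51763813) (nat_lit 0) (nat_lit 0x7bfdcf3ca) (nat_lit 699634368),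
  Rx.mk (nat_lit 180) (nat_lit 4) (nat_lit 6) (nat_lit 2) (nat_lit 6) (nat_lit 109) (nat_lit 238) r11_109 r1_238 (nat_lit 24741287) (nat_lit 0) (nat_lit 0) (nat_lit 0x8017985b4) (nat_lit 561612199),
  Rx.mk (nat_lit 182) (nat_lit 6) (nat_lit 6) (nat_lit 2) (nat_lit 7) (nat_lit 110) (nat_lit 239) r11_110 r1_239 (nat_lit 0) (nat_lit 0) (nat_lit 0) (nat_lit 0x8017985b4) (nat_lit 536870912),
  Rx.mk (nat_lit 420) (nat_lit 4) (nat_lit 4) (nat_lit 6) (nat_lit 4) (nat_lit 107) (nat_lit 234) r11_107 r1_234 (nat_lit 26935402) (nat_lit 88719546) (nat_lit 0) (nat_lit 0x76bea858e) (nat_lit 802950560),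
  Rx.mk (nat_lit 423) (nat_lit 7) (nat_lit 4) (nat_lit 6) (nat_lit 5) (nat_lit 111) (nat_lit 235) r11_111 r1_235 (nat_lit 0) (nat_lit 25084538) (nat_lit 0) (nat_lit 0x8001d6c6c) (nat_lit 563283450),
  Rx.mk (nat_lit 447) (nat_lit 7) (nat_lit 7) (nat_lit 6) (nat_lit 7) (nat_lit 112) (nat_lit 236) r11_112 r1_236 (nat_lit 0) (nat_lit 0) (nat_lit 0) (nat_lit 0x81471cbfe) (nat_lit 518335312)]
noncomputable def e20_15 : List Rx := [
  Rx.mk (nat_lit 180) (nat_lit 4) (nat_lit 6) (nat_lit 2) (nat_lit 6) (nat_lit 113) (nat_lit 157) r11_113 r8_157 (nat_lit 24741287) (nat_lit 0) (nat_lit 0) (nat_lit 0x8017985b4) (nat_lit 561612199),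
  Rx.mk (nat_lit 182) (nat_lit 6) (nat_lit 6) (nat_lit 2) (nat_lit 7) (nat_lit 114) (nat_lit 158) r11_114 r8_158 (nat_lit 0) (nat_lit 0) (nat_lit 0) (nat_lit 0x8017985b4) (nat_lit 536870912)]
noncomputable def e20_16 : List Rx := [
  Rx.mk (nat_lit 18) (nat_lit 2) (nat_lit 2) (nat_lit 0) (nat_lit 3) (nat_lit 120) (nat_lit 208) r11_120 r8_208 (nat_lit 0) (nat_lit 0) (nat_lit 28059580) (nat_lit 0x7f58302f8) (nat_lit 576670492),
  Rx.mk (nat_lit 22) (nat_lit 6) (nat_lit 2) (nat_lit 0) (nat_lit 3) (nat_lit 118) (nat_lit 207) r11_118 r8_207 (nat_lit 0) (nat_lit 0) (nat_lit 24741287) (nat_lit 0x8017985b4) (nat_lit 561612199),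
  Rx.mk (nat_lit 54) (nat_lit 6) (nat_lit 6) (nat_lit 0) (nat_lit 3) (nat_lit 115) (nat_lit 206) r11_115 r8_206 (nat_lit 0) (nat_lit 0) (nat_lit 24741287) (nat_lit 0x8017985b4) (nat_lit 561612199),
  Rx.mk (nat_lit 82) (nat_lit 2) (nat_lit 2) (nat_lit 1) (nat_lit 7) (nat_lit 121) (nat_lit 211) r11_121 r8_211 (nat_lit 0) (nat_lit 0) (nat_lit 0) (nat_lit 0x8017985b4) (nat_lit 536870912),
  Rx.mk (nat_lit 86) (nat_lit 6) (nat_lit 2) (nat_lit 1) (nat_lit 7) (nat_lit 119) (nat_lit 210) r11_119 r8_210 (nat_lit 0) (nat_lit 0) (nat_lit 0) (nat_lit 0x8017985b4) (nat_lit 536870912),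
  Rx.mk (nat_lit 118) (nat_lit 6) (nat_lit 6) (nat_lit 1) (nat_lit 7) (nat_lit 116) (nat_lit 209) r11_116 r8_209 (nat_lit 0) (nat_lit 0) (nat_lit 0) (nat_lit 0x8017985b4) (nat_lit 536870912),
  Rx.mk (nat_lit 182) (nat_lit 6) (nat_lit 6) (nat_lit 2) (nat_lit 7) (nat_lit 117) (nat_lit 213) r11_117 r8_213 (nat_lit 0) (nat_lit 0) (nat_lit 0) (nat_lit 0x8017985b4) (nat_lit 536870912),
  Rx.mk (nat_lit 210) (nat_lit 2) (nat_lit 2) (nat_lit 3) (nat_lit 7) (nat_lit 122) (nat_lit 212) r11_122 r8_212 (nat_lit 0) (nat_lit 0) (nat_lit 0) (nat_lit 0x8017985b4) (nat_lit 536870912)]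
noncomputable def e20_17 : List Rx := [
  Rx.mk (nat_lit 82) (nat_lit 2) (nat_lit 2) (nat_lit 1) (nat_lit 7) (nat_lit 124) (nat_lit 146) r11_124 r9_146 (nat_lit 0) (nat_lit 0) (nat_lit 0) (nat_lit 0x8017985b4) (nat_lit 536870912),
  Rx.mk (nat_lit 86) (nat_lit 6) (nat_lit 2) (nat_lit 1) (nat_lit 7) (nat_lit 123) (nat_lit 147) r11_123 r9_147 (nat_lit 0) (nat_lit 0) (nat_lit 0) (nat_lit 0x8017985b4) (nat_lit 536870912)]
noncomputable def e20_18 : List Rx := [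
  Rx.mk (nat_lit 22) (nat_lit 6) (nat_lit 2) (nat_lit 0) (nat_lit 3) (nat_lit 129) (nat_lit 209) r11_129 r4_209 (nat_lit 0) (nat_lit 0) (nat_lit 13063204) (nat_lit 0x7f229ebd0) (nat_lit 564962416),
  Rx.mk (nat_lit 54) (nat_lit 6) (nat_lit 6) (nat_lit 0) (nat_lit 3) (nat_lit 127) (nat_lit 208) r11_127 r4_208 (nat_lit 0) (nat_lit 0) (nat_lit 12952000) (nat_lit 0x80562ac28) (nat_lit 545915612),
  Rx.mk (nat_lit 164) (nat_lit 4) (nat_lit 4) (nat_lit 2) (nat_lit 4) (nat_lit 125) (nat_lit 212) r11_125 r4_212 (nat_lit 514055) (nat_lit 616962) (nat_lit 0) (nat_lit 0x69c2df4b6) (nat_lit 897748479),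
  Rx.mk (nat_lit 167) (nat_lit 7) (nat_lit 4) (nat_lit 2) (nat_lit 5) (nat_lit 132) (nat_lit 213) r11_132 r4_213 (nat_lit 0) (nat_lit 13764592) (nat_lit 0) (nat_lit 0x8088c91ca) (nat_lit 543663854),
  Rx.mk (nat_lit 180) (nat_lit 4) (nat_lit 6) (nat_lit 2) (nat_lit 6) (nat_lit 126) (nat_lit 214) r11_126 r4_214 (nat_lit 10106242) (nat_lit 0) (nat_lit 0) (nat_lit 0x8153a01f0) (nat_lit 527714454),
  Rx.mk (nat_lit 182) (nat_lit 6) (nat_lit 6) (nat_lit 2) (nat_lit 7) (nat_lit 128) (nat_lit 216) r11_128 r4_216 (nat_lit 0) (nat_lit 0) (nat_lit 0) (nat_lit 0x80812fcde) (nat_lit 530394062),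
  Rx.mk (nat_lit 183) (nat_lit 7) (nat_lit 6) (nat_lit 2) (nat_lit 7) (nat_lit 133) (nat_lit 215) r11_133 r4_215 (nat_lit 0) (nat_lit 0) (nat_lit 0) (nat_lit 0x807403de4) (nat_lit 531198062),
  Rx.mk (nat_lit 210) (nat_lit 2) (nat_lit 2) (nat_lit 3) (nat_lit 7) (nat_lit 135) (nat_lit 211) r11_135 r4_211 (nat_lit 0) (nat_lit 0) (nat_lit 0) (nat_lit 0x80f168d7a) (nat_lit 523350662),
  Rx.mk (nat_lit 214) (nat_lit 6) (nat_lit 2) (nat_lit 3) (nat_lit 7) (nat_lit 130) (nat_lit 210) r11_130 r4_210 (nat_lit 0) (nat_lit 0) (nat_lit 0) (nat_lit 0x81dd34f24) (nat_lit 509302462),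
  Rx.mk (nat_lit 423) (nat_lit 7) (nat_lit 4) (nat_lit 6) (nat_lit 5) (nat_lit 131) (nat_lit 205) r11_131 r4_205 (nat_lit 0) (nat_lit 31334360) (nat_lit 0) (nat_lit 0x7f54de2a8) (nat_lit 580083322),
  Rx.mk (nat_lit 443) (nat_lit 3) (nat_lit 7) (nat_lit 6) (nat_lit 7) (nat_lit 136) (nat_lit 207) r11_136 r4_207 (nat_lit 0) (nat_lit 0) (nat_lit 0) (nat_lit 0x825f8dcd2) (nat_lit 501520162),
  Rx.mk (nat_lit 447) (nat_lit 7) (nat_lit 7) (nat_lit 6) (nat_lit 7) (nat_lit 134) (nat_lit 206) r11_134 r4_206 (nat_lit 0) (nat_lit 0) (nat_lit 0) (nat_lit 0x81e84d53c) (nat_lit 508548712)]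
noncomputable def e20_19 : List Rx := [
  Rx.mk (nat_lit 22) (nat_lit 6) (nat_lit 2) (nat_lit 0) (nat_lit 3) (nat_lit 140) (nat_lit 157) r11_140 r10_157 (nat_lit 0) (nat_lit 0) (nat_lit 24894793) (nat_lit 0x8000a4c72) (nat_lit 563170405),
  Rx.mk (nat_lit 54) (nat_lit 6) (nat_lit 6) (nat_lit 0) (nat_lit 3) (nat_lit 138) (nat_lit 159) r11_138 r10_159 (nat_lit 0) (nat_lit 0) (nat_lit 24741287) (nat_lit 0x8017985b4) (nat_lit 561612199),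
  Rx.mk (nat_lit 180) (nat_lit 4) (nat_lit 6) (nat_lit 2) (nat_lit 6) (nat_lit 137) (nat_lit 155) r11_137 r10_155 (nat_lit 24741287) (nat_lit 0) (nat_lit 0) (nat_lit 0x8017985b4) (nat_lit 561612199),
  Rx.mk (nat_lit 182) (nat_lit 6) (nat_lit 6) (nat_lit 2) (nat_lit 7) (nat_lit 139) (nat_lit 160) r11_139 r10_160 (nat_lit 0) (nat_lit 0) (nat_lit 0) (nat_lit 0x8017985b4) (nat_lit 536870912),
  Rx.mk (nat_lit 183) (nat_lit 7) (nat_lit 6) (nat_lit 2) (nat_lit 7) (nat_lit 142) (nat_lit 156) r11_142 r10_156 (nat_lit 0) (nat_lit 0) (nat_lit 0) (nat_lit 0x8017985b4) (nat_lit 536870912),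
  Rx.mk (nat_lit 210) (nat_lit 2) (nat_lit 2) (nat_lit 3) (nat_lit 7) (nat_lit 143) (nat_lit 154) r11_143 r10_154 (nat_lit 0) (nat_lit 0) (nat_lit 0) (nat_lit 0x8017985b4) (nat_lit 536870912),
  Rx.mk (nat_lit 214) (nat_lit 6) (nat_lit 2) (nat_lit 3) (nat_lit 7) (nat_lit 141) (nat_lit 158) r11_141 r10_158 (nat_lit 0) (nat_lit 0) (nat_lit 0) (nat_lit 0x8017985b4) (nat_lit 536870912)]
noncomputable def e20_20 : List Rx := [
  Rx.mk (nat_lit 54) (nat_lit 6) (nat_lit 6) (nat_lit 0) (nat_lit 3) (nat_lit 146) (nat_lit 161) r11_146 r11_161 (nat_lit 0) (nat_lit 0) (nat_lit 22142472) (nat_lit 0x800df71e0) (nat_lit 559592834),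
  Rx.mk (nat_lit 164) (nat_lit 4) (nat_lit 4) (nat_lit 2) (nat_lit 4) (nat_lit 144) (nat_lit 154) r11_144 r11_154 (nat_lit 2309132) (nat_lit 2749576) (nat_lit 0) (nat_lit 0x74869b7b0) (nat_lit 727898020),
  Rx.mk (nat_lit 167) (nat_lit 7) (nat_lit 4) (nat_lit 2) (nat_lit 5) (nat_lit 150) (nat_lit 156) r11_150 r11_156 (nat_lit 0) (nat_lit 22669922) (nat_lit 0) (nat_lit 0x800c22b12) (nat_lit 560231734),
  Rx.mk (nat_lit 180) (nat_lit 4) (nat_lit 6) (nat_lit 2) (nat_lit 6) (nat_lit 145) (nat_lit 155) r11_145 r11_155 (nat_lit 19246826) (nat_lit 0) (nat_lit 0) (nat_lit 0x8067e6958) (nat_lit 551201238),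
  Rx.mk (nat_lit 182) (nat_lit 6) (nat_lit 6) (nat_lit 2) (nat_lit 7) (nat_lit 147) (nat_lit 163) r11_147 r11_163 (nat_lit 0) (nat_lit 0) (nat_lit 0) (nat_lit 0x8017985b4) (nat_lit 536870912),
  Rx.mk (nat_lit 183) (nat_lit 7) (nat_lit 6) (nat_lit 2) (nat_lit 7) (nat_lit 151) (nat_lit 159) r11_151 r11_159 (nat_lit 0) (nat_lit 0) (nat_lit 0) (nat_lit 0x8017985b4) (nat_lit 536870912),
  Rx.mk (nat_lit 191) (nat_lit 7) (nat_lit 7) (nat_lit 2) (nat_lit 7) (nat_lit 153) (nat_lit 157) r11_153 r11_157 (nat_lit 0) (nat_lit 0) (nat_lit 0) (nat_lit 0x8017985b4) (nat_lit 536870912),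
  Rx.mk (nat_lit 210) (nat_lit 2) (nat_lit 2) (nat_lit 3) (nat_lit 7) (nat_lit 158) (nat_lit 152) r11_158 r11_152 (nat_lit 0) (nat_lit 0) (nat_lit 0) (nat_lit 0x80b7ebb88) (nat_lit 527004212),
  Rx.mk (nat_lit 214) (nat_lit 6) (nat_lit 2) (nat_lit 3) (nat_lit 7) (nat_lit 149) (nat_lit 160) r11_149 r11_160 (nat_lit 0) (nat_lit 0) (nat_lit 0) (nat_lit 0x801359f98) (nat_lit 537129362),
  Rx.mk (nat_lit 246) (nat_lit 6) (nat_lit 6) (nat_lit 3) (nat_lit 7) (nat_lit 148) (nat_lit 162) r11_148 r11_162 (nat_lit 0) (nat_lit 0) (nat_lit 0) (nat_lit 0x8017985b4) (nat_lit 536870912),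
  Rx.mk (nat_lit 283) (nat_lit 3) (nat_lit 3) (nat_lit 4) (nat_lit 3) (nat_lit 161) (nat_lit 146) r11_161 r11_146 (nat_lit 0) (nat_lit 0) (nat_lit 22142472) (nat_lit 0x800df71e0) (nat_lit 559592834),
  Rx.mk (nat_lit 411) (nat_lit 3) (nat_lit 3) (nat_lit 6) (nat_lit 7) (nat_lit 162) (nat_lit 148) r11_162 r11_148 (nat_lit 0) (nat_lit 0) (nat_lit 0) (nat_lit 0x8017985b4) (nat_lit 536870912),
  Rx.mk (nat_lit 443) (nat_lit 3) (nat_lit 7) (nat_lit 6) (nat_lit 7) (nat_lit 160) (nat_lit 149) r11_160 r11_149 (nat_lit 0) (nat_lit 0) (nat_lit 0) (nat_lit 0x801359f98) (nat_lit 537129362),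
  Rx.mk (nat_lit 447) (nat_lit 7) (nat_lit 7) (nat_lit 6) (nat_lit 7) (nat_lit 152) (nat_lit 158) r11_152 r11_158 (nat_lit 0) (nat_lit 0) (nat_lit 0) (nat_lit 0x80b7ebb88) (nat_lit 527004212),
  Rx.mk (nat_lit 448) (nat_lit 0) (nat_lit 0) (nat_lit 7) (nat_lit 4) (nat_lit 154) (nat_lit 144) r11_154 r11_144 (nat_lit 2309132) (nat_lit 2749576) (nat_lit 0) (nat_lit 0x74869b7b0) (nat_lit 727898020),
  Rx.mk (nat_lit 450) (nat_lit 2) (nat_lit 0) (nat_lit 7) (nat_lit 5) (nat_lit 156) (nat_lit 150) r11_156 r11_150 (nat_lit 0) (nat_lit 22669922) (nat_lit 0) (nat_lit 0x800c22b12) (nat_lit 560231734),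
  Rx.mk (nat_lit 466) (nat_lit 2) (nat_lit 2) (nat_lit 7) (nat_lit 7) (nat_lit 157) (nat_lit 153) r11_157 r11_153 (nat_lit 0) (nat_lit 0) (nat_lit 0) (nat_lit 0x8017985b4) (nat_lit 536870912),
  Rx.mk (nat_lit 472) (nat_lit 0) (nat_lit 3) (nat_lit 7) (nat_lit 6) (nat_lit 155) (nat_lit 145) r11_155 r11_145 (nat_lit 19246826) (nat_lit 0) (nat_lit 0) (nat_lit 0x8067e6958) (nat_lit 551201238),
  Rx.mk (nat_lit 474) (nat_lit 2) (nat_lit 3) (nat_lit 7) (nat_lit 7) (nat_lit 159) (nat_lit 151) r11_159 r11_151 (nat_lit 0) (nat_lit 0) (nat_lit 0) (nat_lit 0x8017985b4) (nat_lit 536870912),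
  Rx.mk (nat_lit 475) (nat_lit 3) (nat_lit 3) (nat_lit 7) (nat_lit 7) (nat_lit 163) (nat_lit 147) r11_163 r11_147 (nat_lit 0) (nat_lit 0) (nat_lit 0) (nat_lit 0x8017985b4) (nat_lit 536870912)]
noncomputable def e20_21 : List Rx := [
  Rx.mk (nat_lit 82) (nat_lit 2) (nat_lit 2) (nat_lit 1) (nat_lit 7) (nat_lit 164) (nat_lit 214) r11_164 r9_214 (nat_lit 0) (nat_lit 0) (nat_lit 0) (nat_lit 0x8017985b4) (nat_lit 536870912)]
noncomputable def e20_22 : List Rx := [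
  Rx.mk (nat_lit 256) (nat_lit 0) (nat_lit 0) (nat_lit 4) (nat_lit 0) (nat_lit 165) (nat_lit 342) r11_165 r0_342 (nat_lit 27528448) (nat_lit 61517721) (nat_lit 16543091) (nat_lit 0x56389a70a) (nat_lit 1318729522),
  Rx.mk (nat_lit 257) (nat_lit 1) (nat_lit 0) (nat_lit 4) (nat_lit 1) (nat_lit 171) (nat_lit 344) r11_171 r0_344 (nat_lit 0) (nat_lit 36871294) (nat_lit 84020208) (nat_lit 0x783359b98) (nat_lit 784659514),
  Rx.mk (nat_lit 258) (nat_lit 2) (nat_lit 0) (nat_lit 4) (nat_lit 1) (nat_lit 177) (nat_lit 346) r11_177 r0_346 (nat_lit 0) (nat_lit 49484385) (nat_lit 31505454) (nat_lit 0x786492660) (nat_lit 741673001),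
  Rx.mk (nat_lit 264) (nat_lit 0) (nat_lit 1) (nat_lit 4) (nat_lit 2) (nat_lit 168) (nat_lit 343) r11_168 r0_343 (nat_lit 39863545) (nat_lit 0) (nat_lit 97208642) (nat_lit 0x7bb2e4220) (nat_lit 744358799),
  Rx.mk (nat_lit 265) (nat_lit 1) (nat_lit 1) (nat_lit 4) (nat_lit 3) (nat_lit 174) (nat_lit 345) r11_174 r0_345 (nat_lit 0) (nat_lit 0) (nat_lit 66364716) (nat_lit 0x7dacacf72) (nat_lit 641664678),
  Rx.mk (nat_lit 266) (nat_lit 2) (nat_lit 1) (nat_lit 4) (nat_lit 3) (nat_lit 179) (nat_lit 347) r11_179 r0_347 (nat_lit 0) (nat_lit 0) (nat_lit 24741287) (nat_lit 0x8017985b4) (nat_lit 561612199),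
  Rx.mk (nat_lit 274) (nat_lit 2) (nat_lit 2) (nat_lit 4) (nat_lit 3) (nat_lit 181) (nat_lit 348) r11_181 r0_348 (nat_lit 0) (nat_lit 0) (nat_lit 24977480) (nat_lit 0x7ff4c15ea) (nat_lit 563982842),
  Rx.mk (nat_lit 320) (nat_lit 0) (nat_lit 0) (nat_lit 5) (nat_lit 4) (nat_lit 166) (nat_lit 349) r11_166 r0_349 (nat_lit 151143769) (nat_lit 43084134) (nat_lit 0) (nat_lit 0x7b5af1fae) (nat_lit 807011715),
  Rx.mk (nat_lit 321) (nat_lit 1) (nat_lit 0) (nat_lit 5) (nat_lit 5) (nat_lit 172) (nat_lit 351) r11_172 r0_351 (nat_lit 0) (nat_lit 24741287) (nat_lit 0) (nat_lit 0x8017985b4) (nat_lit 561612199),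
  Rx.mk (nat_lit 322) (nat_lit 2) (nat_lit 0) (nat_lit 5) (nat_lit 5) (nat_lit 178) (nat_lit 353) r11_178 r0_353 (nat_lit 0) (nat_lit 27043959) (nat_lit 0) (nat_lit 0x7fc599f24) (nat_lit 568952071),
  Rx.mk (nat_lit 328) (nat_lit 0) (nat_lit 1) (nat_lit 5) (nat_lit 6) (nat_lit 169) (nat_lit 350) r11_169 r0_350 (nat_lit 24741287) (nat_lit 0) (nat_lit 0) (nat_lit 0x8017985b4) (nat_lit 561612199),
  Rx.mk (nat_lit 329) (nat_lit 1) (nat_lit 1) (nat_lit 5) (nat_lit 7) (nat_lit 175) (nat_lit 352) r11_175 r0_352 (nat_lit 0) (nat_lit 0) (nat_lit 0) (nat_lit 0x8017985b4) (nat_lit 536870912),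
  Rx.mk (nat_lit 330) (nat_lit 2) (nat_lit 1) (nat_lit 5) (nat_lit 7) (nat_lit 180) (nat_lit 354) r11_180 r0_354 (nat_lit 0) (nat_lit 0) (nat_lit 0) (nat_lit 0x8017985b4) (nat_lit 536870912),
  Rx.mk (nat_lit 338) (nat_lit 2) (nat_lit 2) (nat_lit 5) (nat_lit 7) (nat_lit 182) (nat_lit 355) r11_182 r0_355 (nat_lit 0) (nat_lit 0) (nat_lit 0) (nat_lit 0x8017985b4) (nat_lit 536870912),
  Rx.mk (nat_lit 384) (nat_lit 0) (nat_lit 0) (nat_lit 6) (nat_lit 4) (nat_lit 167) (nat_lit 356) r11_167 r0_356 (nat_lit 40023232) (nat_lit 40023232) (nat_lit 0) (nat_lit 0x7e12b2628) (nat_lit 649033426),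
  Rx.mk (nat_lit 385) (nat_lit 1) (nat_lit 0) (nat_lit 6) (nat_lit 5) (nat_lit 173) (nat_lit 358) r11_173 r0_358 (nat_lit 0) (nat_lit 23550752) (nat_lit 0) (nat_lit 0x804b6b5bc) (nat_lit 557203014),
  Rx.mk (nat_lit 392) (nat_lit 0) (nat_lit 1) (nat_lit 6) (nat_lit 6) (nat_lit 170) (nat_lit 357) r11_170 r0_357 (nat_lit 24741287) (nat_lit 0) (nat_lit 0) (nat_lit 0x8017985b4) (nat_lit 561612199),
  Rx.mk (nat_lit 393) (nat_lit 1) (nat_lit 1) (nat_lit 6) (nat_lit 7) (nat_lit 176) (nat_lit 359) r11_176 r0_359 (nat_lit 0) (nat_lit 0) (nat_lit 0) (nat_lit 0x821f15f74) (nat_lit 505368512)]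
noncomputable def e20_23 : List Rx := [
  Rx.mk (nat_lit 264) (nat_lit 0) (nat_lit 1) (nat_lit 4) (nat_lit 2) (nat_lit 183) (nat_lit 316) r11_183 r1_316 (nat_lit 31169867) (nat_lit 0) (nat_lit 115272517) (nat_lit 0x729ca1386) (nat_lit 900542746),
  Rx.mk (nat_lit 265) (nat_lit 1) (nat_lit 1) (nat_lit 4) (nat_lit 3) (nat_lit 186) (nat_lit 317) r11_186 r1_317 (nat_lit 0) (nat_lit 0) (nat_lit 39197522) (nat_lit 0x7db914fa8) (nat_lit 613796734),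
  Rx.mk (nat_lit 266) (nat_lit 2) (nat_lit 1) (nat_lit 4) (nat_lit 3) (nat_lit 189) (nat_lit 318) r11_189 r1_318 (nat_lit 0) (nat_lit 0) (nat_lit 24741287) (nat_lit 0x8017985b4) (nat_lit 561612199),
  Rx.mk (nat_lit 328) (nat_lit 0) (nat_lit 1) (nat_lit 5) (nat_lit 6) (nat_lit 184) (nat_lit 319) r11_184 r1_319 (nat_lit 24741287) (nat_lit 0) (nat_lit 0) (nat_lit 0x8017985b4) (nat_lit 561612199),
  Rx.mk (nat_lit 329) (nat_lit 1) (nat_lit 1) (nat_lit 5) (nat_lit 7) (nat_lit 187) (nat_lit 320) r11_187 r1_320 (nat_lit 0) (nat_lit 0) (nat_lit 0) (nat_lit 0x8017985b4) (nat_lit 536870912),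
  Rx.mk (nat_lit 330) (nat_lit 2) (nat_lit 1) (nat_lit 5) (nat_lit 7) (nat_lit 190) (nat_lit 321) r11_190 r1_321 (nat_lit 0) (nat_lit 0) (nat_lit 0) (nat_lit 0x8017985b4) (nat_lit 536870912),
  Rx.mk (nat_lit 392) (nat_lit 0) (nat_lit 1) (nat_lit 6) (nat_lit 6) (nat_lit 185) (nat_lit 322) r11_185 r1_322 (nat_lit 24741287) (nat_lit 0) (nat_lit 0) (nat_lit 0x8017985b4) (nat_lit 561612199),
  Rx.mk (nat_lit 393) (nat_lit 1) (nat_lit 1) (nat_lit 6) (nat_lit 7) (nat_lit 188) (nat_lit 323) r11_188 r1_323 (nat_lit 0) (nat_lit 0) (nat_lit 0) (nat_lit 0x81759db22) (nat_lit 515567712)]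
noncomputable def e20_24 : List Rx := [
  Rx.mk (nat_lit 256) (nat_lit 0) (nat_lit 0) (nat_lit 4) (nat_lit 0) (nat_lit 191) (nat_lit 381) r11_191 r4_381 (nat_lit 17952672) (nat_lit 15710614) (nat_lit 17913539) (nat_lit 0x5f1b5dba2) (nat_lit 1121002137),
  Rx.mk (nat_lit 257) (nat_lit 1) (nat_lit 0) (nat_lit 4) (nat_lit 1) (nat_lit 199) (nat_lit 384) r11_199 r4_384 (nat_lit 0) (nat_lit 27870751) (nat_lit 35726227) (nat_lit 0x779980b0c) (nat_lit 737097740),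
  Rx.mk (nat_lit 258) (nat_lit 2) (nat_lit 0) (nat_lit 4) (nat_lit 1) (nat_lit 207) (nat_lit 387) r11_207 r4_387 (nat_lit 0) (nat_lit 29502798) (nat_lit 27912229) (nat_lit 0x78d0f8fca) (nat_lit 711254839),
  Rx.mk (nat_lit 264) (nat_lit 0) (nat_lit 1) (nat_lit 4) (nat_lit 2) (nat_lit 194) (nat_lit 382) r11_194 r4_382 (nat_lit 27647826) (nat_lit 0) (nat_lit 34329630) (nat_lit 0x7e54987ea) (nat_lit 626865718),
  Rx.mk (nat_lit 265) (nat_lit 1) (nat_lit 1) (nat_lit 4) (nat_lit 3) (nat_lit 202) (nat_lit 385) r11_202 r4_385 (nat_lit 0) (nat_lit 0) (nat_lit 26112240) (nat_lit 0x7f458b346) (nat_lit 575951702),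
  Rx.mk (nat_lit 266) (nat_lit 2) (nat_lit 1) (nat_lit 4) (nat_lit 3) (nat_lit 209) (nat_lit 388) r11_209 r4_388 (nat_lit 0) (nat_lit 0) (nat_lit 24741287) (nat_lit 0x8017985b4) (nat_lit 561612199),
  Rx.mk (nat_lit 274) (nat_lit 2) (nat_lit 2) (nat_lit 4) (nat_lit 3) (nat_lit 210) (nat_lit 389) r11_210 r4_389 (nat_lit 0) (nat_lit 0) (nat_lit 24741287) (nat_lit 0x8017985b4) (nat_lit 561612199),
  Rx.mk (nat_lit 280) (nat_lit 0) (nat_lit 3) (nat_lit 4) (nat_lit 2) (nat_lit 196) (nat_lit 383) r11_196 r4_383 (nat_lit 28646946) (nat_lit 0) (nat_lit 30009416) (nat_lit 0x7b26b540c) (nat_lit 674773074),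
  Rx.mk (nat_lit 281) (nat_lit 1) (nat_lit 3) (nat_lit 4) (nat_lit 3) (nat_lit 204) (nat_lit 386) r11_204 r4_386 (nat_lit 0) (nat_lit 0) (nat_lit 24741287) (nat_lit 0x8017985b4) (nat_lit 561612199),
  Rx.mk (nat_lit 320) (nat_lit 0) (nat_lit 0) (nat_lit 5) (nat_lit 4) (nat_lit 192) (nat_lit 390) r11_192 r4_390 (nat_lit 96193341) (nat_lit 20049231) (nat_lit 0) (nat_lit 0x7b255b444) (nat_lit 732377384),
  Rx.mk (nat_lit 321) (nat_lit 1) (nat_lit 0) (nat_lit 5) (nat_lit 5) (nat_lit 200) (nat_lit 392) r11_200 r4_392 (nat_lit 0) (nat_lit 24741287) (nat_lit 0) (nat_lit 0x8017985b4) (nat_lit 561612199),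
  Rx.mk (nat_lit 322) (nat_lit 2) (nat_lit 0) (nat_lit 5) (nat_lit 5) (nat_lit 208) (nat_lit 394) r11_208 r4_394 (nat_lit 0) (nat_lit 23934074) (nat_lit 0) (nat_lit 0x7fe6d46d0) (nat_lit 563795286),
  Rx.mk (nat_lit 338) (nat_lit 2) (nat_lit 2) (nat_lit 5) (nat_lit 7) (nat_lit 211) (nat_lit 395) r11_211 r4_395 (nat_lit 0) (nat_lit 0) (nat_lit 0) (nat_lit 0x8017985b4) (nat_lit 536870912),
  Rx.mk (nat_lit 344) (nat_lit 0) (nat_lit 3) (nat_lit 5) (nat_lit 6) (nat_lit 197) (nat_lit 391) r11_197 r4_391 (nat_lit 30058585) (nat_lit 0) (nat_lit 0) (nat_lit 0x7fbf63a4c) (nat_lit 572343247),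
  Rx.mk (nat_lit 345) (nat_lit 1) (nat_lit 3) (nat_lit 5) (nat_lit 7) (nat_lit 205) (nat_lit 393) r11_205 r4_393 (nat_lit 0) (nat_lit 0) (nat_lit 0) (nat_lit 0x8017985b4) (nat_lit 536870912),
  Rx.mk (nat_lit 384) (nat_lit 0) (nat_lit 0) (nat_lit 6) (nat_lit 4) (nat_lit 193) (nat_lit 396) r11_193 r4_396 (nat_lit 30793545) (nat_lit 30793545) (nat_lit 0) (nat_lit 0x7da382596) (nat_lit 637575952),
  Rx.mk (nat_lit 385) (nat_lit 1) (nat_lit 0) (nat_lit 6) (nat_lit 5) (nat_lit 201) (nat_lit 399) r11_201 r4_399 (nat_lit 0) (nat_lit 24741287) (nat_lit 0) (nat_lit 0x8017985b4) (nat_lit 561612199),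
  Rx.mk (nat_lit 392) (nat_lit 0) (nat_lit 1) (nat_lit 6) (nat_lit 6) (nat_lit 195) (nat_lit 397) r11_195 r4_397 (nat_lit 24741287) (nat_lit 0) (nat_lit 0) (nat_lit 0x8017985b4) (nat_lit 561612199),
  Rx.mk (nat_lit 393) (nat_lit 1) (nat_lit 1) (nat_lit 6) (nat_lit 7) (nat_lit 203) (nat_lit 400) r11_203 r4_400 (nat_lit 0) (nat_lit 0) (nat_lit 0) (nat_lit 0x8017985b4) (nat_lit 536870912),
  Rx.mk (nat_lit 408) (nat_lit 0) (nat_lit 3) (nat_lit 6) (nat_lit 6) (nat_lit 198) (nat_lit 398) r11_198 r4_398 (nat_lit 24741287) (nat_lit 0) (nat_lit 0) (nat_lit 0x8017985b4) (nat_lit 561612199),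
  Rx.mk (nat_lit 409) (nat_lit 1) (nat_lit 3) (nat_lit 6) (nat_lit 7) (nat_lit 206) (nat_lit 401) r11_206 r4_401 (nat_lit 0) (nat_lit 0) (nat_lit 0) (nat_lit 0x8017985b4) (nat_lit 536870912)]
noncomputable def e20_25 : List Rx := [
  Rx.mk (nat_lit 320) (nat_lit 0) (nat_lit 0) (nat_lit 5) (nat_lit 4) (nat_lit 212) (nat_lit 263) r11_212 r7_263 (nat_lit 107532607) (nat_lit 34414543) (nat_lit 0) (nat_lit 0x7c21f872e) (nat_lit 742207762),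
  Rx.mk (nat_lit 321) (nat_lit 1) (nat_lit 0) (nat_lit 5) (nat_lit 5) (nat_lit 214) (nat_lit 264) r11_214 r7_264 (nat_lit 0) (nat_lit 24741287) (nat_lit 0) (nat_lit 0x8017985b4) (nat_lit 561612199),
  Rx.mk (nat_lit 322) (nat_lit 2) (nat_lit 0) (nat_lit 5) (nat_lit 5) (nat_lit 216) (nat_lit 265) r11_216 r7_265 (nat_lit 0) (nat_lit 24741287) (nat_lit 0) (nat_lit 0x8017985b4) (nat_lit 561612199),
  Rx.mk (nat_lit 328) (nat_lit 0) (nat_lit 1) (nat_lit 5) (nat_lit 6) (nat_lit 213) (nat_lit 266) r11_213 r7_266 (nat_lit 24741287) (nat_lit 0) (nat_lit 0) (nat_lit 0x8017985b4) (nat_lit 561612199),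
  Rx.mk (nat_lit 329) (nat_lit 1) (nat_lit 1) (nat_lit 5) (nat_lit 7) (nat_lit 215) (nat_lit 267) r11_215 r7_267 (nat_lit 0) (nat_lit 0) (nat_lit 0) (nat_lit 0x8017985b4) (nat_lit 536870912),
  Rx.mk (nat_lit 330) (nat_lit 2) (nat_lit 1) (nat_lit 5) (nat_lit 7) (nat_lit 217) (nat_lit 268) r11_217 r7_268 (nat_lit 0) (nat_lit 0) (nat_lit 0) (nat_lit 0x8017985b4) (nat_lit 536870912),
  Rx.mk (nat_lit 338) (nat_lit 2) (nat_lit 2) (nat_lit 5) (nat_lit 7) (nat_lit 218) (nat_lit 269) r11_218 r7_269 (nat_lit 0) (nat_lit 0) (nat_lit 0) (nat_lit 0x8017985b4) (nat_lit 536870912)]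
noncomputable def e20_26 : List Rx := [
  Rx.mk (nat_lit 328) (nat_lit 0) (nat_lit 1) (nat_lit 5) (nat_lit 6) (nat_lit 219) (nat_lit 198) r11_219 r8_198 (nat_lit 24741287) (nat_lit 0) (nat_lit 0) (nat_lit 0x8017985b4) (nat_lit 561612199),
  Rx.mk (nat_lit 329) (nat_lit 1) (nat_lit 1) (nat_lit 5) (nat_lit 7) (nat_lit 220) (nat_lit 199) r11_220 r8_199 (nat_lit 0) (nat_lit 0) (nat_lit 0) (nat_lit 0x8017985b4) (nat_lit 536870912),
  Rx.mk (nat_lit 330) (nat_lit 2) (nat_lit 1) (nat_lit 5) (nat_lit 7) (nat_lit 221) (nat_lit 200) r11_221 r8_200 (nat_lit 0) (nat_lit 0) (nat_lit 0) (nat_lit 0x8017985b4) (nat_lit 536870912)]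
noncomputable def e20_27 : List Rx := [
  Rx.mk (nat_lit 82) (nat_lit 2) (nat_lit 2) (nat_lit 1) (nat_lit 7) (nat_lit 229) (nat_lit 367) r11_229 r8_367 (nat_lit 0) (nat_lit 0) (nat_lit 0) (nat_lit 0x8017985b4) (nat_lit 536870912),
  Rx.mk (nat_lit 320) (nat_lit 0) (nat_lit 0) (nat_lit 5) (nat_lit 4) (nat_lit 222) (nat_lit 368) r11_222 r8_368 (nat_lit 93109333) (nat_lit 49696383) (nat_lit 0) (nat_lit 0x7a0dfb9e4) (nat_lit 776624328),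
  Rx.mk (nat_lit 321) (nat_lit 1) (nat_lit 0) (nat_lit 5) (nat_lit 5) (nat_lit 224) (nat_lit 370) r11_224 r8_370 (nat_lit 0) (nat_lit 24741287) (nat_lit 0) (nat_lit 0x8017985b4) (nat_lit 561612199),
  Rx.mk (nat_lit 322) (nat_lit 2) (nat_lit 0) (nat_lit 5) (nat_lit 5) (nat_lit 226) (nat_lit 372) r11_226 r8_372 (nat_lit 0) (nat_lit 24741287) (nat_lit 0) (nat_lit 0x8017985b4) (nat_lit 561612199),
  Rx.mk (nat_lit 328) (nat_lit 0) (nat_lit 1) (nat_lit 5) (nat_lit 6) (nat_lit 223) (nat_lit 369) r11_223 r8_369 (nat_lit 24741287) (nat_lit 0) (nat_lit 0) (nat_lit 0x8017985b4) (nat_lit 561612199),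
  Rx.mk (nat_lit 329) (nat_lit 1) (nat_lit 1) (nat_lit 5) (nat_lit 7) (nat_lit 225) (nat_lit 371) r11_225 r8_371 (nat_lit 0) (nat_lit 0) (nat_lit 0) (nat_lit 0x8017985b4) (nat_lit 536870912),
  Rx.mk (nat_lit 330) (nat_lit 2) (nat_lit 1) (nat_lit 5) (nat_lit 7) (nat_lit 227) (nat_lit 373) r11_227 r8_373 (nat_lit 0) (nat_lit 0) (nat_lit 0) (nat_lit 0x8017985b4) (nat_lit 536870912),
  Rx.mk (nat_lit 338) (nat_lit 2) (nat_lit 2) (nat_lit 5) (nat_lit 7) (nat_lit 228) (nat_lit 374) r11_228 r8_374 (nat_lit 0) (nat_lit 0) (nat_lit 0) (nat_lit 0x8017985b4) (nat_lit 536870912)]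
noncomputable def e20_28 : List Rx := [
  Rx.mk (nat_lit 320) (nat_lit 0) (nat_lit 0) (nat_lit 5) (nat_lit 4) (nat_lit 230) (nat_lit 206) r11_230 r10_206 (nat_lit 53187078) (nat_lit 29967916) (nat_lit 0) (nat_lit 0x781c132b8) (nat_lit 748379156),
  Rx.mk (nat_lit 321) (nat_lit 1) (nat_lit 0) (nat_lit 5) (nat_lit 5) (nat_lit 232) (nat_lit 207) r11_232 r10_207 (nat_lit 0) (nat_lit 24741287) (nat_lit 0) (nat_lit 0x8017985b4) (nat_lit 561612199),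
  Rx.mk (nat_lit 322) (nat_lit 2) (nat_lit 0) (nat_lit 5) (nat_lit 5) (nat_lit 234) (nat_lit 208) r11_234 r10_208 (nat_lit 0) (nat_lit 24741287) (nat_lit 0) (nat_lit 0x8017985b4) (nat_lit 561612199),
  Rx.mk (nat_lit 338) (nat_lit 2) (nat_lit 2) (nat_lit 5) (nat_lit 7) (nat_lit 235) (nat_lit 211) r11_235 r10_211 (nat_lit 0) (nat_lit 0) (nat_lit 0) (nat_lit 0x8017985b4) (nat_lit 536870912),
  Rx.mk (nat_lit 344) (nat_lit 0) (nat_lit 3) (nat_lit 5) (nat_lit 6) (nat_lit 231) (nat_lit 209) r11_231 r10_209 (nat_lit 24741287) (nat_lit 0) (nat_lit 0) (nat_lit 0x8017985b4) (nat_lit 561612199),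
  Rx.mk (nat_lit 345) (nat_lit 1) (nat_lit 3) (nat_lit 5) (nat_lit 7) (nat_lit 233) (nat_lit 210) r11_233 r10_210 (nat_lit 0) (nat_lit 0) (nat_lit 0) (nat_lit 0x8017985b4) (nat_lit 536870912)]
noncomputable def e20_29 : List Rx := [
  Rx.mk (nat_lit 256) (nat_lit 0) (nat_lit 0) (nat_lit 4) (nat_lit 0) (nat_lit 236) (nat_lit 236) r11_236 r11_236 (nat_lit 53843718) (nat_lit 53843718) (nat_lit 32932365) (nat_lit 0x5ad4d46f8) (nat_lit 1279235263),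
  Rx.mk (nat_lit 257) (nat_lit 1) (nat_lit 0) (nat_lit 4) (nat_lit 1) (nat_lit 246) (nat_lit 240) r11_246 r11_240 (nat_lit 0) (nat_lit 50819749) (nat_lit 36022396) (nat_lit 0x7a243af02) (nat_lit 719244457),
  Rx.mk (nat_lit 258) (nat_lit 2) (nat_lit 0) (nat_lit 4) (nat_lit 1) (nat_lit 254) (nat_lit 243) r11_254 r11_243 (nat_lit 0) (nat_lit 37472217) (nat_lit 35875760) (nat_lit 0x774eb43c6) (nat_lit 751561939),
  Rx.mk (nat_lit 264) (nat_lit 0) (nat_lit 1) (nat_lit 4) (nat_lit 2) (nat_lit 240) (nat_lit 246) r11_240 r11_246 (nat_lit 50819749) (nat_lit 0) (nat_lit 36022396) (nat_lit 0x7a243af02) (nat_lit 719244457),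
  Rx.mk (nat_lit 265) (nat_lit 1) (nat_lit 1) (nat_lit 4) (nat_lit 3) (nat_lit 249) (nat_lit 249) r11_249 r11_249 (nat_lit 0) (nat_lit 0) (nat_lit 24842793) (nat_lit 0x7fa573ed4) (nat_lit 568719755),
  Rx.mk (nat_lit 266) (nat_lit 2) (nat_lit 1) (nat_lit 4) (nat_lit 3) (nat_lit 257) (nat_lit 252) r11_257 r11_252 (nat_lit 0) (nat_lit 0) (nat_lit 24741287) (nat_lit 0x8017985b4) (nat_lit 561612199),
  Rx.mk (nat_lit 274) (nat_lit 2) (nat_lit 2) (nat_lit 4) (nat_lit 3) (nat_lit 259) (nat_lit 262) r11_259 r11_262 (nat_lit 0) (nat_lit 0) (nat_lit 24741287) (nat_lit 0x8017985b4) (nat_lit 561612199),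
  Rx.mk (nat_lit 280) (nat_lit 0) (nat_lit 3) (nat_lit 4) (nat_lit 2) (nat_lit 243) (nat_lit 254) r11_243 r11_254 (nat_lit 37472217) (nat_lit 0) (nat_lit 35875760) (nat_lit 0x774eb43c6) (nat_lit 751561939),
  Rx.mk (nat_lit 281) (nat_lit 1) (nat_lit 3) (nat_lit 4) (nat_lit 3) (nat_lit 252) (nat_lit 257) r11_252 r11_257 (nat_lit 0) (nat_lit 0) (nat_lit 24741287) (nat_lit 0x8017985b4) (nat_lit 561612199),
  Rx.mk (nat_lit 283) (nat_lit 3) (nat_lit 3) (nat_lit 4) (nat_lit 3) (nat_lit 262) (nat_lit 259) r11_262 r11_259 (nat_lit 0) (nat_lit 0) (nat_lit 24741287) (nat_lit 0x8017985b4) (nat_lit 561612199),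
  Rx.mk (nat_lit 320) (nat_lit 0) (nat_lit 0) (nat_lit 5) (nat_lit 4) (nat_lit 237) (nat_lit 237) r11_237 r11_237 (nat_lit 49618932) (nat_lit 49618932) (nat_lit 0) (nat_lit 0x7eda874a0) (nat_lit 655708776),
  Rx.mk (nat_lit 322) (nat_lit 2) (nat_lit 0) (nat_lit 5) (nat_lit 5) (nat_lit 255) (nat_lit 244) r11_255 r11_244 (nat_lit 0) (nat_lit 24741287) (nat_lit 0) (nat_lit 0x8017985b4) (nat_lit 561612199),
  Rx.mk (nat_lit 338) (nat_lit 2) (nat_lit 2) (nat_lit 5) (nat_lit 7) (nat_lit 260) (nat_lit 263) r11_260 r11_263 (nat_lit 0) (nat_lit 0) (nat_lit 0) (nat_lit 0x8017985b4) (nat_lit 536870912),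
  Rx.mk (nat_lit 344) (nat_lit 0) (nat_lit 3) (nat_lit 5) (nat_lit 6) (nat_lit 244) (nat_lit 255) r11_244 r11_255 (nat_lit 24741287) (nat_lit 0) (nat_lit 0) (nat_lit 0x8017985b4) (nat_lit 561612199),
  Rx.mk (nat_lit 347) (nat_lit 3) (nat_lit 3) (nat_lit 5) (nat_lit 7) (nat_lit 263) (nat_lit 260) r11_263 r11_260 (nat_lit 0) (nat_lit 0) (nat_lit 0) (nat_lit 0x8017985b4) (nat_lit 536870912),
  Rx.mk (nat_lit 384) (nat_lit 0) (nat_lit 0) (nat_lit 6) (nat_lit 4) (nat_lit 238) (nat_lit 239) r11_238 r11_239 (nat_lit 31419554) (nat_lit 30414660) (nat_lit 0) (nat_lit 0x7dc8ca060) (nat_lit 635354426),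
  Rx.mk (nat_lit 385) (nat_lit 1) (nat_lit 0) (nat_lit 6) (nat_lit 5) (nat_lit 247) (nat_lit 242) r11_247 r11_242 (nat_lit 0) (nat_lit 24741287) (nat_lit 0) (nat_lit 0x8017985b4) (nat_lit 561612199),
  Rx.mk (nat_lit 392) (nat_lit 0) (nat_lit 1) (nat_lit 6) (nat_lit 6) (nat_lit 241) (nat_lit 248) r11_241 r11_248 (nat_lit 24741287) (nat_lit 0) (nat_lit 0) (nat_lit 0x8017985b4) (nat_lit 561612199),
  Rx.mk (nat_lit 393) (nat_lit 1) (nat_lit 1) (nat_lit 6) (nat_lit 7) (nat_lit 250) (nat_lit 251) r11_250 r11_251 (nat_lit 0) (nat_lit 0) (nat_lit 0) (nat_lit 0x8017985b4) (nat_lit 536870912),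
  Rx.mk (nat_lit 408) (nat_lit 0) (nat_lit 3) (nat_lit 6) (nat_lit 6) (nat_lit 245) (nat_lit 256) r11_245 r11_256 (nat_lit 24741287) (nat_lit 0) (nat_lit 0) (nat_lit 0x8017985b4) (nat_lit 561612199),
  Rx.mk (nat_lit 409) (nat_lit 1) (nat_lit 3) (nat_lit 6) (nat_lit 7) (nat_lit 253) (nat_lit 258) r11_253 r11_258 (nat_lit 0) (nat_lit 0) (nat_lit 0) (nat_lit 0x8017985b4) (nat_lit 536870912),
  Rx.mk (nat_lit 411) (nat_lit 3) (nat_lit 3) (nat_lit 6) (nat_lit 7) (nat_lit 264) (nat_lit 261) r11_264 r11_261 (nat_lit 0) (nat_lit 0) (nat_lit 0) (nat_lit 0x8017985b4) (nat_lit 536870912),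
  Rx.mk (nat_lit 448) (nat_lit 0) (nat_lit 0) (nat_lit 7) (nat_lit 4) (nat_lit 239) (nat_lit 238) r11_239 r11_238 (nat_lit 30414660) (nat_lit 31419554) (nat_lit 0) (nat_lit 0x7dc8ca060) (nat_lit 635354426),
  Rx.mk (nat_lit 449) (nat_lit 1) (nat_lit 0) (nat_lit 7) (nat_lit 5) (nat_lit 248) (nat_lit 241) r11_248 r11_241 (nat_lit 0) (nat_lit 24741287) (nat_lit 0) (nat_lit 0x8017985b4) (nat_lit 561612199),
  Rx.mk (nat_lit 450) (nat_lit 2) (nat_lit 0) (nat_lit 7) (nat_lit 5) (nat_lit 256) (nat_lit 245) r11_256 r11_245 (nat_lit 0) (nat_lit 24741287) (nat_lit 0) (nat_lit 0x8017985b4) (nat_lit 561612199),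
  Rx.mk (nat_lit 456) (nat_lit 0) (nat_lit 1) (nat_lit 7) (nat_lit 6) (nat_lit 242) (nat_lit 247) r11_242 r11_247 (nat_lit 24741287) (nat_lit 0) (nat_lit 0) (nat_lit 0x8017985b4) (nat_lit 561612199),
  Rx.mk (nat_lit 457) (nat_lit 1) (nat_lit 1) (nat_lit 7) (nat_lit 7) (nat_lit 251) (nat_lit 250) r11_251 r11_250 (nat_lit 0) (nat_lit 0) (nat_lit 0) (nat_lit 0x8017985b4) (nat_lit 536870912),
  Rx.mk (nat_lit 458) (nat_lit 2) (nat_lit 1) (nat_lit 7) (nat_lit 7) (nat_lit 258) (nat_lit 253) r11_258 r11_253 (nat_lit 0) (nat_lit 0) (nat_lit 0) (nat_lit 0x8017985b4) (nat_lit 536870912),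
  Rx.mk (nat_lit 466) (nat_lit 2) (nat_lit 2) (nat_lit 7) (nat_lit 7) (nat_lit 261) (nat_lit 264) r11_261 r11_264 (nat_lit 0) (nat_lit 0) (nat_lit 0) (nat_lit 0x8017985b4) (nat_lit 536870912)]
noncomputable def e20_30 : List Rx := [
  Rx.mk (nat_lit 443) (nat_lit 3) (nat_lit 7) (nat_lit 6) (nat_lit 7) (nat_lit 265) (nat_lit 230) r11_265 r5_230 (nat_lit 0) (nat_lit 0) (nat_lit 0) (nat_lit 0x880aa8a68) (nat_lit 414822412)]
noncomputable def e20_31 : List Rx := []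
noncomputable def e20_32 : List Rx := [
  Rx.mk (nat_lit 280) (nat_lit 0) (nat_lit 3) (nat_lit 4) (nat_lit 2) (nat_lit 267) (nat_lit 356) r11_267 r6_356 (nat_lit 5190488) (nat_lit 0) (nat_lit 5930575) (nat_lit 0x76ef41074) (nat_lit 695185625),
  Rx.mk (nat_lit 281) (nat_lit 1) (nat_lit 3) (nat_lit 4) (nat_lit 3) (nat_lit 270) (nat_lit 359) r11_270 r6_359 (nat_lit 0) (nat_lit 0) (nat_lit 17138393) (nat_lit 0x806f00630) (nat_lit 548606105),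
  Rx.mk (nat_lit 282) (nat_lit 2) (nat_lit 3) (nat_lit 4) (nat_lit 3) (nat_lit 272) (nat_lit 362) r11_272 r6_362 (nat_lit 0) (nat_lit 0) (nat_lit 24741287) (nat_lit 0x8017985b4) (nat_lit 561612199),
  Rx.mk (nat_lit 408) (nat_lit 0) (nat_lit 3) (nat_lit 6) (nat_lit 6) (nat_lit 268) (nat_lit 358) r11_268 r6_358 (nat_lit 18945663) (nat_lit 0) (nat_lit 0) (nat_lit 0x804f12fb2) (nat_lit 552405325),
  Rx.mk (nat_lit 409) (nat_lit 1) (nat_lit 3) (nat_lit 6) (nat_lit 7) (nat_lit 271) (nat_lit 361) r11_271 r6_361 (nat_lit 0) (nat_lit 0) (nat_lit 0) (nat_lit 0x8017985b4) (nat_lit 536870912),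
  Rx.mk (nat_lit 440) (nat_lit 0) (nat_lit 7) (nat_lit 6) (nat_lit 6) (nat_lit 266) (nat_lit 357) r11_266 r6_357 (nat_lit 4488265) (nat_lit 0) (nat_lit 0) (nat_lit 0x805dc6720) (nat_lit 536687177),
  Rx.mk (nat_lit 441) (nat_lit 1) (nat_lit 7) (nat_lit 6) (nat_lit 7) (nat_lit 269) (nat_lit 360) r11_269 r6_360 (nat_lit 0) (nat_lit 0) (nat_lit 0) (nat_lit 0x84800501c) (nat_lit 468941562)]
noncomputable def e20_33 : List Rx := [
  Rx.mk (nat_lit 280) (nat_lit 0) (nat_lit 3) (nat_lit 4) (nat_lit 2) (nat_lit 273) (nat_lit 316) r11_273 r5_316 (nat_lit 20649739) (nat_lit 0) (nat_lit 21014715) (nat_lit 0x729e8ccc2) (nat_lit 795632066),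
  Rx.mk (nat_lit 281) (nat_lit 1) (nat_lit 3) (nat_lit 4) (nat_lit 3) (nat_lit 276) (nat_lit 317) r11_276 r5_317 (nat_lit 0) (nat_lit 0) (nat_lit 20064994) (nat_lit 0x807284b4e) (nat_lit 551341856),
  Rx.mk (nat_lit 282) (nat_lit 2) (nat_lit 3) (nat_lit 4) (nat_lit 3) (nat_lit 279) (nat_lit 318) r11_279 r5_318 (nat_lit 0) (nat_lit 0) (nat_lit 21930199) (nat_lit 0x8037c1084) (nat_lit 556823461),
  Rx.mk (nat_lit 344) (nat_lit 0) (nat_lit 3) (nat_lit 5) (nat_lit 6) (nat_lit 274) (nat_lit 319) r11_274 r5_319 (nat_lit 24741287) (nat_lit 0) (nat_lit 0) (nat_lit 0x8017985b4) (nat_lit 561612199),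
  Rx.mk (nat_lit 345) (nat_lit 1) (nat_lit 3) (nat_lit 5) (nat_lit 7) (nat_lit 277) (nat_lit 320) r11_277 r5_320 (nat_lit 0) (nat_lit 0) (nat_lit 0) (nat_lit 0x8017985b4) (nat_lit 536870912),
  Rx.mk (nat_lit 346) (nat_lit 2) (nat_lit 3) (nat_lit 5) (nat_lit 7) (nat_lit 280) (nat_lit 321) r11_280 r5_321 (nat_lit 0) (nat_lit 0) (nat_lit 0) (nat_lit 0x8017985b4) (nat_lit 536870912),
  Rx.mk (nat_lit 408) (nat_lit 0) (nat_lit 3) (nat_lit 6) (nat_lit 6) (nat_lit 275) (nat_lit 322) r11_275 r5_322 (nat_lit 24086680) (nat_lit 0) (nat_lit 0) (nat_lit 0x7f9584f64) (nat_lit 568953542),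
  Rx.mk (nat_lit 409) (nat_lit 1) (nat_lit 3) (nat_lit 6) (nat_lit 7) (nat_lit 278) (nat_lit 323) r11_278 r5_323 (nat_lit 0) (nat_lit 0) (nat_lit 0) (nat_lit 0x8017985b4) (nat_lit 536870912)]
noncomputable def e20_34 : List Rx := [
  Rx.mk (nat_lit 344) (nat_lit 0) (nat_lit 3) (nat_lit 5) (nat_lit 6) (nat_lit 281) (nat_lit 368) r11_281 r11_368 (nat_lit 24741287) (nat_lit 0) (nat_lit 0) (nat_lit 0x8017985b4) (nat_lit 561612199),
  Rx.mk (nat_lit 345) (nat_lit 1) (nat_lit 3) (nat_lit 5) (nat_lit 7) (nat_lit 282) (nat_lit 369) r11_282 r11_369 (nat_lit 0) (nat_lit 0) (nat_lit 0) (nat_lit 0x8017985b4) (nat_lit 536870912),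
  Rx.mk (nat_lit 346) (nat_lit 2) (nat_lit 3) (nat_lit 5) (nat_lit 7) (nat_lit 283) (nat_lit 370) r11_283 r11_370 (nat_lit 0) (nat_lit 0) (nat_lit 0) (nat_lit 0x8017985b4) (nat_lit 536870912)]
noncomputable def e20_35 : List Rx := [
  Rx.mk (nat_lit 440) (nat_lit 0) (nat_lit 7) (nat_lit 6) (nat_lit 6) (nat_lit 284) (nat_lit 254) r11_284 r6_254 (nat_lit 4181752) (nat_lit 0) (nat_lit 0) (nat_lit 0x80bce2e16) (nat_lit 530625764),
  Rx.mk (nat_lit 441) (nat_lit 1) (nat_lit 7) (nat_lit 6) (nat_lit 7) (nat_lit 285) (nat_lit 255) r11_285 r6_255 (nat_lit 0) (nat_lit 0) (nat_lit 0) (nat_lit 0x84db9c5a6) (nat_lit 463462512),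
  Rx.mk (nat_lit 443) (nat_lit 3) (nat_lit 7) (nat_lit 6) (nat_lit 7) (nat_lit 286) (nat_lit 256) r11_286 r6_256 (nat_lit 0) (nat_lit 0) (nat_lit 0) (nat_lit 0x8558f78ac) (nat_lit 456022662)]
noncomputable def e20_36 : List Rx := [
  Rx.mk (nat_lit 280) (nat_lit 0) (nat_lit 3) (nat_lit 4) (nat_lit 2) (nat_lit 288) (nat_lit 154) r11_288 r12_154 (nat_lit 4468885) (nat_lit 0) (nat_lit 4803434) (nat_lit 0x77fe54128) (nat_lit 676180381),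
  Rx.mk (nat_lit 281) (nat_lit 1) (nat_lit 3) (nat_lit 4) (nat_lit 3) (nat_lit 292) (nat_lit 158) r11_292 r12_158 (nat_lit 0) (nat_lit 0) (nat_lit 16057116) (nat_lit 0x7fc34d5cc) (nat_lit 558049628),
  Rx.mk (nat_lit 282) (nat_lit 2) (nat_lit 3) (nat_lit 4) (nat_lit 3) (nat_lit 295) (nat_lit 163) r11_295 r12_163 (nat_lit 0) (nat_lit 0) (nat_lit 21075625) (nat_lit 0x804227960) (nat_lit 555330187),
  Rx.mk (nat_lit 408) (nat_lit 0) (nat_lit 3) (nat_lit 6) (nat_lit 6) (nat_lit 289) (nat_lit 156) r11_289 r12_156 (nat_lit 24820252) (nat_lit 0) (nat_lit 0) (nat_lit 0x800bab5a8) (nat_lit 562420664),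
  Rx.mk (nat_lit 409) (nat_lit 1) (nat_lit 3) (nat_lit 6) (nat_lit 7) (nat_lit 293) (nat_lit 160) r11_293 r12_160 (nat_lit 0) (nat_lit 0) (nat_lit 0) (nat_lit 0x7ff71c2cc) (nat_lit 538851962),
  Rx.mk (nat_lit 440) (nat_lit 0) (nat_lit 7) (nat_lit 6) (nat_lit 6) (nat_lit 287) (nat_lit 157) r11_287 r12_157 (nat_lit 3201067) (nat_lit 0) (nat_lit 0) (nat_lit 0x80c289022) (nat_lit 529188929),
  Rx.mk (nat_lit 441) (nat_lit 1) (nat_lit 7) (nat_lit 6) (nat_lit 7) (nat_lit 291) (nat_lit 161) r11_291 r12_161 (nat_lit 0) (nat_lit 0) (nat_lit 0) (nat_lit 0x8f490b628) (nat_lit 304348712),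
  Rx.mk (nat_lit 443) (nat_lit 3) (nat_lit 7) (nat_lit 6) (nat_lit 7) (nat_lit 297) (nat_lit 162) r11_297 r12_162 (nat_lit 0) (nat_lit 0) (nat_lit 0) (nat_lit 0x853b3dfaa) (nat_lit 457742362),
  Rx.mk (nat_lit 472) (nat_lit 0) (nat_lit 3) (nat_lit 7) (nat_lit 6) (nat_lit 290) (nat_lit 155) r11_290 r12_155 (nat_lit 9075693) (nat_lit 0) (nat_lit 0) (nat_lit 0x80cd0b3ba) (nat_lit 534764955),
  Rx.mk (nat_lit 473) (nat_lit 1) (nat_lit 3) (nat_lit 7) (nat_lit 7) (nat_lit 294) (nat_lit 159) r11_294 r12_159 (nat_lit 0) (nat_lit 0) (nat_lit 0) (nat_lit 0x804e46f70) (nat_lit 533487162),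
  Rx.mk (nat_lit 474) (nat_lit 2) (nat_lit 3) (nat_lit 7) (nat_lit 7) (nat_lit 296) (nat_lit 164) r11_296 r12_164 (nat_lit 0) (nat_lit 0) (nat_lit 0) (nat_lit 0x8071a753c) (nat_lit 531344562)]
noncomputable def e20_37 : List Rx := [
  Rx.mk (nat_lit 417) (nat_lit 1) (nat_lit 4) (nat_lit 6) (nat_lit 5) (nat_lit 298) (nat_lit 328) r11_298 r0_328 (nat_lit 0) (nat_lit 19793988) (nat_lit 0) (nat_lit 0x801bf7722) (nat_lit 556379500),
  Rx.mk (nat_lit 425) (nat_lit 1) (nat_lit 5) (nat_lit 6) (nat_lit 7) (nat_lit 299) (nat_lit 329) r11_299 r0_329 (nat_lit 0) (nat_lit 0) (nat_lit 0) (nat_lit 0x8017985b4) (nat_lit 536870912)]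
noncomputable def e20_38 : List Rx := [
  Rx.mk (nat_lit 417) (nat_lit 1) (nat_lit 4) (nat_lit 6) (nat_lit 5) (nat_lit 302) (nat_lit 225) r11_302 r0_225 (nat_lit 0) (nat_lit 9444164) (nat_lit 0) (nat_lit 0x7fd819c08) (nat_lit 550012926),
  Rx.mk (nat_lit 421) (nat_lit 5) (nat_lit 4) (nat_lit 6) (nat_lit 5) (nat_lit 300) (nat_lit 226) r11_300 r0_226 (nat_lit 0) (nat_lit 12926127) (nat_lit 0) (nat_lit 0x800aea9a2) (nat_lit 550481389),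
  Rx.mk (nat_lit 445) (nat_lit 5) (nat_lit 7) (nat_lit 6) (nat_lit 7) (nat_lit 301) (nat_lit 227) r11_301 r0_227 (nat_lit 0) (nat_lit 0) (nat_lit 0) (nat_lit 0x8257094c6) (nat_lit 501926062)]
noncomputable def e20_39 : List Rx := [
  Rx.mk (nat_lit 417) (nat_lit 1) (nat_lit 4) (nat_lit 6) (nat_lit 5) (nat_lit 306) (nat_lit 442) r11_306 r7_442 (nat_lit 0) (nat_lit 19264518) (nat_lit 0) (nat_lit 0x8067c11ee) (nat_lit 551226430),
  Rx.mk (nat_lit 421) (nat_lit 5) (nat_lit 4) (nat_lit 6) (nat_lit 5) (nat_lit 303) (nat_lit 439) r11_303 r7_439 (nat_lit 0) (nat_lit 24741287) (nat_lit 0) (nat_lit 0x8017985b4) (nat_lit 561612199),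
  Rx.mk (nat_lit 425) (nat_lit 1) (nat_lit 5) (nat_lit 6) (nat_lit 7) (nat_lit 307) (nat_lit 443) r11_307 r7_443 (nat_lit 0) (nat_lit 0) (nat_lit 0) (nat_lit 0x8017985b4) (nat_lit 536870912),
  Rx.mk (nat_lit 429) (nat_lit 5) (nat_lit 5) (nat_lit 6) (nat_lit 7) (nat_lit 304) (nat_lit 440) r11_304 r7_440 (nat_lit 0) (nat_lit 0) (nat_lit 0) (nat_lit 0x8017985b4) (nat_lit 536870912),
  Rx.mk (nat_lit 445) (nat_lit 5) (nat_lit 7) (nat_lit 6) (nat_lit 7) (nat_lit 305) (nat_lit 441) r11_305 r7_441 (nat_lit 0) (nat_lit 0) (nat_lit 0) (nat_lit 0x8017985b4) (nat_lit 536870912)]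
noncomputable def e20_40 : List Rx := [
  Rx.mk (nat_lit 164) (nat_lit 4) (nat_lit 4) (nat_lit 2) (nat_lit 4) (nat_lit 309) (nat_lit 258) r11_309 r2_258 (nat_lit 33757685) (nat_lit 47863837) (nat_lit 0) (nat_lit 0x7c693e598) (nat_lit 677403034),
  Rx.mk (nat_lit 165) (nat_lit 5) (nat_lit 4) (nat_lit 2) (nat_lit 5) (nat_lit 313) (nat_lit 259) r11_313 r2_259 (nat_lit 0) (nat_lit 24741287) (nat_lit 0) (nat_lit 0x8017985b4) (nat_lit 561612199),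
  Rx.mk (nat_lit 180) (nat_lit 4) (nat_lit 6) (nat_lit 2) (nat_lit 6) (nat_lit 310) (nat_lit 265) r11_310 r2_265 (nat_lit 24741287) (nat_lit 0) (nat_lit 0) (nat_lit 0x8017985b4) (nat_lit 561612199),
  Rx.mk (nat_lit 181) (nat_lit 5) (nat_lit 6) (nat_lit 2) (nat_lit 7) (nat_lit 314) (nat_lit 266) r11_314 r2_266 (nat_lit 0) (nat_lit 0) (nat_lit 0) (nat_lit 0x8017985b4) (nat_lit 536870912),
  Rx.mk (nat_lit 182) (nat_lit 6) (nat_lit 6) (nat_lit 2) (nat_lit 7) (nat_lit 316) (nat_lit 267) r11_316 r2_267 (nat_lit 0) (nat_lit 0) (nat_lit 0) (nat_lit 0x8017985b4) (nat_lit 536870912),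
  Rx.mk (nat_lit 420) (nat_lit 4) (nat_lit 4) (nat_lit 6) (nat_lit 4) (nat_lit 308) (nat_lit 260) r11_308 r2_260 (nat_lit 25006969) (nat_lit 36134950) (nat_lit 0) (nat_lit 0x75d2a943a) (nat_lit 763343081),
  Rx.mk (nat_lit 421) (nat_lit 5) (nat_lit 4) (nat_lit 6) (nat_lit 5) (nat_lit 312) (nat_lit 261) r11_312 r2_261 (nat_lit 0) (nat_lit 24741287) (nat_lit 0) (nat_lit 0x8017985b4) (nat_lit 561612199),
  Rx.mk (nat_lit 444) (nat_lit 4) (nat_lit 7) (nat_lit 6) (nat_lit 6) (nat_lit 311) (nat_lit 262) r11_311 r2_262 (nat_lit 24741287) (nat_lit 0) (nat_lit 0) (nat_lit 0x8017985b4) (nat_lit 561612199),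
  Rx.mk (nat_lit 445) (nat_lit 5) (nat_lit 7) (nat_lit 6) (nat_lit 7) (nat_lit 315) (nat_lit 263) r11_315 r2_263 (nat_lit 0) (nat_lit 0) (nat_lit 0) (nat_lit 0x8017985b4) (nat_lit 536870912),
  Rx.mk (nat_lit 447) (nat_lit 7) (nat_lit 7) (nat_lit 6) (nat_lit 7) (nat_lit 317) (nat_lit 264) r11_317 r2_264 (nat_lit 0) (nat_lit 0) (nat_lit 0) (nat_lit 0x8017985b4) (nat_lit 536870912)]
noncomputable def e20_41 : List Rx := [
  Rx.mk (nat_lit 164) (nat_lit 4) (nat_lit 4) (nat_lit 2) (nat_lit 4) (nat_lit 319) (nat_lit 229) r11_319 r9_229 (nat_lit 47287016) (nat_lit 47287016) (nat_lit 0) (nat_lit 0x7cbaf48b0) (nat_lit 685204344),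
  Rx.mk (nat_lit 165) (nat_lit 5) (nat_lit 4) (nat_lit 2) (nat_lit 5) (nat_lit 323) (nat_lit 230) r11_323 r9_230 (nat_lit 0) (nat_lit 24741287) (nat_lit 0) (nat_lit 0x8017985b4) (nat_lit 561612199),
  Rx.mk (nat_lit 173) (nat_lit 5) (nat_lit 5) (nat_lit 2) (nat_lit 7) (nat_lit 325) (nat_lit 233) r11_325 r9_233 (nat_lit 0) (nat_lit 0) (nat_lit 0) (nat_lit 0x8017985b4) (nat_lit 536870912),
  Rx.mk (nat_lit 180) (nat_lit 4) (nat_lit 6) (nat_lit 2) (nat_lit 6) (nat_lit 320) (nat_lit 238) r11_320 r9_238 (nat_lit 24741287) (nat_lit 0) (nat_lit 0) (nat_lit 0x8017985b4) (nat_lit 561612199),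
  Rx.mk (nat_lit 181) (nat_lit 5) (nat_lit 6) (nat_lit 2) (nat_lit 7) (nat_lit 326) (nat_lit 239) r11_326 r9_239 (nat_lit 0) (nat_lit 0) (nat_lit 0) (nat_lit 0x8017985b4) (nat_lit 536870912),
  Rx.mk (nat_lit 182) (nat_lit 6) (nat_lit 6) (nat_lit 2) (nat_lit 7) (nat_lit 328) (nat_lit 240) r11_328 r9_240 (nat_lit 0) (nat_lit 0) (nat_lit 0) (nat_lit 0x8017985b4) (nat_lit 536870912),
  Rx.mk (nat_lit 420) (nat_lit 4) (nat_lit 4) (nat_lit 6) (nat_lit 4) (nat_lit 318) (nat_lit 231) r11_318 r9_231 (nat_lit 43672610) (nat_lit 43848106) (nat_lit 0) (nat_lit 0x78800f28a) (nat_lit 746426178),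
  Rx.mk (nat_lit 421) (nat_lit 5) (nat_lit 4) (nat_lit 6) (nat_lit 5) (nat_lit 322) (nat_lit 232) r11_322 r9_232 (nat_lit 0) (nat_lit 24741287) (nat_lit 0) (nat_lit 0x8017985b4) (nat_lit 561612199),
  Rx.mk (nat_lit 429) (nat_lit 5) (nat_lit 5) (nat_lit 6) (nat_lit 7) (nat_lit 324) (nat_lit 234) r11_324 r9_234 (nat_lit 0) (nat_lit 0) (nat_lit 0) (nat_lit 0x8017985b4) (nat_lit 536870912),
  Rx.mk (nat_lit 444) (nat_lit 4) (nat_lit 7) (nat_lit 6) (nat_lit 6) (nat_lit 321) (nat_lit 235) r11_321 r9_235 (nat_lit 24741287) (nat_lit 0) (nat_lit 0) (nat_lit 0x8017985b4) (nat_lit 561612199),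
  Rx.mk (nat_lit 445) (nat_lit 5) (nat_lit 7) (nat_lit 6) (nat_lit 7) (nat_lit 327) (nat_lit 236) r11_327 r9_236 (nat_lit 0) (nat_lit 0) (nat_lit 0) (nat_lit 0x8017985b4) (nat_lit 536870912),
  Rx.mk (nat_lit 447) (nat_lit 7) (nat_lit 7) (nat_lit 6) (nat_lit 7) (nat_lit 329) (nat_lit 237) r11_329 r9_237 (nat_lit 0) (nat_lit 0) (nat_lit 0) (nat_lit 0x8017985b4) (nat_lit 536870912)]
noncomputable def e20_42 : List Rx := [
  Rx.mk (nat_lit 180) (nat_lit 4) (nat_lit 6) (nat_lit 2) (nat_lit 6) (nat_lit 330) (nat_lit 216) r11_330 r9_216 (nat_lit 24741287) (nat_lit 0) (nat_lit 0) (nat_lit 0x8017985b4) (nat_lit 561612199),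
  Rx.mk (nat_lit 181) (nat_lit 5) (nat_lit 6) (nat_lit 2) (nat_lit 7) (nat_lit 331) (nat_lit 217) r11_331 r9_217 (nat_lit 0) (nat_lit 0) (nat_lit 0) (nat_lit 0x8017985b4) (nat_lit 536870912),
  Rx.mk (nat_lit 182) (nat_lit 6) (nat_lit 6) (nat_lit 2) (nat_lit 7) (nat_lit 332) (nat_lit 218) r11_332 r9_218 (nat_lit 0) (nat_lit 0) (nat_lit 0) (nat_lit 0x8017985b4) (nat_lit 536870912)]
noncomputable def e20_43 : List Rx := [
  Rx.mk (nat_lit 421) (nat_lit 5) (nat_lit 4) (nat_lit 6) (nat_lit 5) (nat_lit 333) (nat_lit 244) r11_333 r1_244 (nat_lit 0) (nat_lit 16971006) (nat_lit 0) (nat_lit 0x8058c13c4) (nat_lit 549817368),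
  Rx.mk (nat_lit 445) (nat_lit 5) (nat_lit 7) (nat_lit 6) (nat_lit 7) (nat_lit 334) (nat_lit 245) r11_334 r1_245 (nat_lit 0) (nat_lit 0) (nat_lit 0) (nat_lit 0x814704da6) (nat_lit 518377612)]
noncomputable def e20_44 : List Rx := [
  Rx.mk (nat_lit 421) (nat_lit 5) (nat_lit 4) (nat_lit 6) (nat_lit 5) (nat_lit 335) (nat_lit 358) r11_335 r8_358 (nat_lit 0) (nat_lit 24741287) (nat_lit 0) (nat_lit 0x8017985b4) (nat_lit 561612199),
  Rx.mk (nat_lit 429) (nat_lit 5) (nat_lit 5) (nat_lit 6) (nat_lit 7) (nat_lit 336) (nat_lit 359) r11_336 r8_359 (nat_lit 0) (nat_lit 0) (nat_lit 0) (nat_lit 0x8017985b4) (nat_lit 536870912),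
  Rx.mk (nat_lit 445) (nat_lit 5) (nat_lit 7) (nat_lit 6) (nat_lit 7) (nat_lit 337) (nat_lit 360) r11_337 r8_360 (nat_lit 0) (nat_lit 0) (nat_lit 0) (nat_lit 0x8017985b4) (nat_lit 536870912)]
noncomputable def e20_45 : List Rx := [
  Rx.mk (nat_lit 425) (nat_lit 1) (nat_lit 5) (nat_lit 6) (nat_lit 7) (nat_lit 338) (nat_lit 310) r11_338 r1_310 (nat_lit 0) (nat_lit 0) (nat_lit 0) (nat_lit 0x8017985b4) (nat_lit 536870912)]
noncomputable def e20_46 : List Rx := [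
  Rx.mk (nat_lit 265) (nat_lit 1) (nat_lit 1) (nat_lit 4) (nat_lit 3) (nat_lit 340) (nat_lit 356) r11_340 r2_356 (nat_lit 0) (nat_lit 0) (nat_lit 27655321) (nat_lit 0x7fd1d42f8) (nat_lit 568815833),
  Rx.mk (nat_lit 329) (nat_lit 1) (nat_lit 1) (nat_lit 5) (nat_lit 7) (nat_lit 341) (nat_lit 357) r11_341 r2_357 (nat_lit 0) (nat_lit 0) (nat_lit 0) (nat_lit 0x8017985b4) (nat_lit 536870912),
  Rx.mk (nat_lit 393) (nat_lit 1) (nat_lit 1) (nat_lit 6) (nat_lit 7) (nat_lit 342) (nat_lit 359) r11_342 r2_359 (nat_lit 0) (nat_lit 0) (nat_lit 0) (nat_lit 0x8017985b4) (nat_lit 536870912),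
  Rx.mk (nat_lit 425) (nat_lit 1) (nat_lit 5) (nat_lit 6) (nat_lit 7) (nat_lit 339) (nat_lit 358) r11_339 r2_358 (nat_lit 0) (nat_lit 0) (nat_lit 0) (nat_lit 0x8017985b4) (nat_lit 536870912)]
noncomputable def e20_47 : List Rx := [
  Rx.mk (nat_lit 425) (nat_lit 1) (nat_lit 5) (nat_lit 6) (nat_lit 7) (nat_lit 344) (nat_lit 219) r11_344 r8_219 (nat_lit 0) (nat_lit 0) (nat_lit 0) (nat_lit 0x8017985b4) (nat_lit 536870912),
  Rx.mk (nat_lit 429) (nat_lit 5) (nat_lit 5) (nat_lit 6) (nat_lit 7) (nat_lit 343) (nat_lit 220) r11_343 r8_220 (nat_lit 0) (nat_lit 0) (nat_lit 0) (nat_lit 0x8017985b4) (nat_lit 536870912)]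
noncomputable def e20_48 : List Rx := [
  Rx.mk (nat_lit 265) (nat_lit 1) (nat_lit 1) (nat_lit 4) (nat_lit 3) (nat_lit 347) (nat_lit 320) r11_347 r9_320 (nat_lit 0) (nat_lit 0) (nat_lit 34238693) (nat_lit 0x7ed4be032) (nat_lit 591026955),
  Rx.mk (nat_lit 329) (nat_lit 1) (nat_lit 1) (nat_lit 5) (nat_lit 7) (nat_lit 348) (nat_lit 321) r11_348 r9_321 (nat_lit 0) (nat_lit 0) (nat_lit 0) (nat_lit 0x8017985b4) (nat_lit 536870912),
  Rx.mk (nat_lit 393) (nat_lit 1) (nat_lit 1) (nat_lit 6) (nat_lit 7) (nat_lit 349) (nat_lit 323) r11_349 r9_323 (nat_lit 0) (nat_lit 0) (nat_lit 0) (nat_lit 0x8017985b4) (nat_lit 536870912),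
  Rx.mk (nat_lit 425) (nat_lit 1) (nat_lit 5) (nat_lit 6) (nat_lit 7) (nat_lit 346) (nat_lit 322) r11_346 r9_322 (nat_lit 0) (nat_lit 0) (nat_lit 0) (nat_lit 0x8017985b4) (nat_lit 536870912),
  Rx.mk (nat_lit 429) (nat_lit 5) (nat_lit 5) (nat_lit 6) (nat_lit 7) (nat_lit 345) (nat_lit 319) r11_345 r9_319 (nat_lit 0) (nat_lit 0) (nat_lit 0) (nat_lit 0x8017985b4) (nat_lit 536870912)]
noncomputable def e20_49 : List Rx := [
  Rx.mk (nat_lit 329) (nat_lit 1) (nat_lit 1) (nat_lit 5) (nat_lit 7) (nat_lit 350) (nat_lit 327) r11_350 r9_327 (nat_lit 0) (nat_lit 0) (nat_lit 0) (nat_lit 0x8017985b4) (nat_lit 536870912)]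
noncomputable def e20_50 : List Rx := [
  Rx.mk (nat_lit 417) (nat_lit 1) (nat_lit 4) (nat_lit 6) (nat_lit 5) (nat_lit 351) (nat_lit 331) r11_351 r3_331 (nat_lit 0) (nat_lit 9974206) (nat_lit 0) (nat_lit 0x7a7d1cf58) (nat_lit 636241818),
  Rx.mk (nat_lit 441) (nat_lit 1) (nat_lit 7) (nat_lit 6) (nat_lit 7) (nat_lit 352) (nat_lit 332) r11_352 r3_332 (nat_lit 0) (nat_lit 0) (nat_lit 0) (nat_lit 0x885a32e30) (nat_lit 409617212)]
noncomputable def e20_51 : List Rx := [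
  Rx.mk (nat_lit 417) (nat_lit 1) (nat_lit 4) (nat_lit 6) (nat_lit 5) (nat_lit 353) (nat_lit 363) r11_353 r4_363 (nat_lit 0) (nat_lit 18792813) (nat_lit 0) (nat_lit 0x7fd5d2af8) (nat_lit 559647725),
  Rx.mk (nat_lit 425) (nat_lit 1) (nat_lit 5) (nat_lit 6) (nat_lit 7) (nat_lit 354) (nat_lit 364) r11_354 r4_364 (nat_lit 0) (nat_lit 0) (nat_lit 0) (nat_lit 0x8047a5cb6) (nat_lit 533919512),
  Rx.mk (nat_lit 441) (nat_lit 1) (nat_lit 7) (nat_lit 6) (nat_lit 7) (nat_lit 355) (nat_lit 365) r11_355 r4_365 (nat_lit 0) (nat_lit 0) (nat_lit 0) (nat_lit 0x8026a1380) (nat_lit 535916512)]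
noncomputable def e20_52 : List Rx := [
  Rx.mk (nat_lit 441) (nat_lit 1) (nat_lit 7) (nat_lit 6) (nat_lit 7) (nat_lit 356) (nat_lit 310) r11_356 r5_310 (nat_lit 0) (nat_lit 0) (nat_lit 0) (nat_lit 0x81691ae72) (nat_lit 516102862)]
noncomputable def e20_53 : List Rx := [
  Rx.mk (nat_lit 417) (nat_lit 1) (nat_lit 4) (nat_lit 6) (nat_lit 5) (nat_lit 358) (nat_lit 226) r11_358 r4_226 (nat_lit 0) (nat_lit 11487859) (nat_lit 0) (nat_lit 0x7fe0ccc6a) (nat_lit 551547221),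
  Rx.mk (nat_lit 441) (nat_lit 1) (nat_lit 7) (nat_lit 6) (nat_lit 7) (nat_lit 359) (nat_lit 227) r11_359 r4_227 (nat_lit 0) (nat_lit 0) (nat_lit 0) (nat_lit 0x82046c2cc) (nat_lit 506848662),
  Rx.mk (nat_lit 445) (nat_lit 5) (nat_lit 7) (nat_lit 6) (nat_lit 7) (nat_lit 357) (nat_lit 228) r11_357 r4_228 (nat_lit 0) (nat_lit 0) (nat_lit 0) (nat_lit 0x850b42e04) (nat_lit 460662012)]
noncomputable def e20_54 : List Rx := [
  Rx.mk (nat_lit 417) (nat_lit 1) (nat_lit 4) (nat_lit 6) (nat_lit 5) (nat_lit 361) (nat_lit 366) r11_361 r10_366 (nat_lit 0) (nat_lit 20709188) (nat_lit 0) (nat_lit 0x804c96cf2) (nat_lit 554327950),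
  Rx.mk (nat_lit 425) (nat_lit 1) (nat_lit 5) (nat_lit 6) (nat_lit 7) (nat_lit 362) (nat_lit 367) r11_362 r10_367 (nat_lit 0) (nat_lit 0) (nat_lit 0) (nat_lit 0x8017985b4) (nat_lit 536870912),
  Rx.mk (nat_lit 441) (nat_lit 1) (nat_lit 7) (nat_lit 6) (nat_lit 7) (nat_lit 363) (nat_lit 368) r11_363 r10_368 (nat_lit 0) (nat_lit 0) (nat_lit 0) (nat_lit 0x8017985b4) (nat_lit 536870912),
  Rx.mk (nat_lit 445) (nat_lit 5) (nat_lit 7) (nat_lit 6) (nat_lit 7) (nat_lit 360) (nat_lit 365) r11_360 r10_365 (nat_lit 0) (nat_lit 0) (nat_lit 0) (nat_lit 0x8017985b4) (nat_lit 536870912)]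
noncomputable def e20_55 : List Rx := [
  Rx.mk (nat_lit 441) (nat_lit 1) (nat_lit 7) (nat_lit 6) (nat_lit 7) (nat_lit 365) (nat_lit 365) r11_365 r11_365 (nat_lit 0) (nat_lit 0) (nat_lit 0) (nat_lit 0x80801aaba) (nat_lit 530459962),
  Rx.mk (nat_lit 445) (nat_lit 5) (nat_lit 7) (nat_lit 6) (nat_lit 7) (nat_lit 364) (nat_lit 364) r11_364 r11_364 (nat_lit 0) (nat_lit 0) (nat_lit 0) (nat_lit 0x8017985b4) (nat_lit 536870912)]
noncomputable def e20_56 : List Rx := [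
  Rx.mk (nat_lit 417) (nat_lit 1) (nat_lit 4) (nat_lit 6) (nat_lit 5) (nat_lit 366) (nat_lit 240) r11_366 r5_240 (nat_lit 0) (nat_lit 12925908) (nat_lit 0) (nat_lit 0x804d82ed6) (nat_lit 546213020),
  Rx.mk (nat_lit 441) (nat_lit 1) (nat_lit 7) (nat_lit 6) (nat_lit 7) (nat_lit 367) (nat_lit 241) r11_367 r5_241 (nat_lit 0) (nat_lit 0) (nat_lit 0) (nat_lit 0x834f94230) (nat_lit 487057512)]
noncomputable def e20_57 : List Rx := [
  Rx.mk (nat_lit 417) (nat_lit 1) (nat_lit 4) (nat_lit 6) (nat_lit 5) (nat_lit 368) (nat_lit 281) r11_368 r11_281 (nat_lit 0) (nat_lit 24741287) (nat_lit 0) (nat_lit 0x8017985b4) (nat_lit 561612199),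
  Rx.mk (nat_lit 425) (nat_lit 1) (nat_lit 5) (nat_lit 6) (nat_lit 7) (nat_lit 369) (nat_lit 282) r11_369 r11_282 (nat_lit 0) (nat_lit 0) (nat_lit 0) (nat_lit 0x8017985b4) (nat_lit 536870912),
  Rx.mk (nat_lit 441) (nat_lit 1) (nat_lit 7) (nat_lit 6) (nat_lit 7) (nat_lit 370) (nat_lit 283) r11_370 r11_283 (nat_lit 0) (nat_lit 0) (nat_lit 0) (nat_lit 0x8017985b4) (nat_lit 536870912)]
noncomputable def e20 : List (List Rx) := [e20_0, e20_1, e20_2, e20_3, e20_4, e20_5, e20_6, e20_7, e20_8, e20_9, e20_10, e20_11, e20_12, e20_13, e20_14, e20_15, e20_16, e20_17, e20_18, e20_19, e20_20, e20_21, e20_22, e20_23, e20_24, e20_25, e20_26, e20_27, e20_28, e20_29, e20_30, e20_31, e20_32, e20_33, e20_34, e20_35, e20_36, e20_37, e20_38, e20_39, e20_40, e20_41, e20_42, e20_43, e20_44, e20_45, e20_46, e20_47, e20_48, e20_49, e20_50, e20_51, e20_52, e20_53, e20_54, e20_55, e20_56,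 e20_57]
noncomputable def e21_0 : List Rx := [
  Rx.mk (nat_lit 292) (nat_lit 4) (nat_lit 4) (nat_lit 4) (nat_lit 0) (nat_lit 23) (nat_lit 155) r9_23 r0_155 (nat_lit 20103060) (nat_lit 17383342) (nat_lit 11766479) (nat_lit 0x26bb582ee) (nat_lit 2030296093),
  Rx.mk (nat_lit 295) (nat_lit 7) (nat_lit 4) (nat_lit 4) (nat_lit 1) (nat_lit 25) (nat_lit 161) r9_25 r0_161 (nat_lit 0) (nat_lit 15232789) (nat_lit 15320849) (nat_lit 0x58679699e) (nat_lit 1208372050),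
  Rx.mk (nat_lit 308) (nat_lit 4) (nat_lit 6) (nat_lit 4) (nat_lit 2) (nat_lit 29) (nat_lit 158) r9_29 r0_158 (nat_lit 96643738) (nat_lit 0) (nat_lit 19805728) (nat_lit 0x57dc9e896) (nat_lit 1303076978),
  Rx.mk (nat_lit 311) (nat_lit 7) (nat_lit 6) (nat_lit 4) (nat_lit 3) (nat_lit 33) (nat_lit 167) r9_33 r0_167 (nat_lit 0) (nat_lit 0) (nat_lit 23123952) (nat_lit 0x800002f3a) (nat_lit 561432214),
  Rx.mk (nat_lit 319) (nat_lit 7) (nat_lit 7) (nat_lit 4) (nat_lit 3) (nat_lit 37) (nat_lit 164) r9_37 r0_164 (nat_lit 0) (nat_lit 0) (nat_lit 24266921) (nat_lit 0x771d50316) (nat_lit 705582633),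
  Rx.mk (nat_lit 356) (nat_lit 4) (nat_lit 4) (nat_lit 5) (nat_lit 4) (nat_lit 24) (nat_lit 156) r9_24 r0_156 (nat_lit 21454755) (nat_lit 21246965) (nat_lit 0) (nat_lit 0x536054f6e) (nat_lit 1301860482),
  Rx.mk (nat_lit 359) (nat_lit 7) (nat_lit 4) (nat_lit 5) (nat_lit 5) (nat_lit 26) (nat_lit 162) r9_26 r0_162 (nat_lit 0) (nat_lit 24075478) (nat_lit 0) (nat_lit 0x769019b32) (nat_lit 714298390),
  Rx.mk (nat_lit 364) (nat_lit 4) (nat_lit 5) (nat_lit 5) (nat_lit 6) (nat_lit 27) (nat_lit 157) r9_27 r0_157 (nat_lit 27681734) (nat_lit 0) (nat_lit 0) (nat_lit 0x7735d76f0) (nat_lit 707450746),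
  Rx.mk (nat_lit 367) (nat_lit 7) (nat_lit 5) (nat_lit 5) (nat_lit 7) (nat_lit 28) (nat_lit 163) r9_28 r0_163 (nat_lit 0) (nat_lit 0) (nat_lit 0) (nat_lit 0x7feb1ffb4) (nat_lit 539592162),
  Rx.mk (nat_lit 372) (nat_lit 4) (nat_lit 6) (nat_lit 5) (nat_lit 6) (nat_lit 30) (nat_lit 159) r9_30 r0_159 (nat_lit 39103353) (nat_lit 0) (nat_lit 0) (nat_lit 0x7f0bc5f80) (nat_lit 592509415),
  Rx.mk (nat_lit 375) (nat_lit 7) (nat_lit 6) (nat_lit 5) (nat_lit 7) (nat_lit 34) (nat_lit 168) r9_34 r0_168 (nat_lit 0) (nat_lit 0) (nat_lit 0) (nat_lit 0x8017985b4) (nat_lit 536870912),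
  Rx.mk (nat_lit 383) (nat_lit 7) (nat_lit 7) (nat_lit 5) (nat_lit 7) (nat_lit 38) (nat_lit 165) r9_38 r0_165 (nat_lit 0) (nat_lit 0) (nat_lit 0) (nat_lit 0x7fee77a72) (nat_lit 539388362),
  Rx.mk (nat_lit 436) (nat_lit 4) (nat_lit 6) (nat_lit 6) (nat_lit 6) (nat_lit 31) (nat_lit 160) r9_31 r0_160 (nat_lit 140602240) (nat_lit 0) (nat_lit 0) (nat_lit 0x7cdd650c0) (nat_lit 729034802),
  Rx.mk (nat_lit 438) (nat_lit 6) (nat_lit 6) (nat_lit 6) (nat_lit 7) (nat_lit 32) (nat_lit 170) r9_32 r0_170 (nat_lit 0) (nat_lit 0) (nat_lit 0) (nat_lit 0x7fec37154) (nat_lit 539516912),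
  Rx.mk (nat_lit 439) (nat_lit 7) (nat_lit 6) (nat_lit 6) (nat_lit 7) (nat_lit 35) (nat_lit 169) r9_35 r0_169 (nat_lit 0) (nat_lit 0) (nat_lit 0) (nat_lit 0x8017985b4) (nat_lit 536870912),
  Rx.mk (nat_lit 507) (nat_lit 3) (nat_lit 7) (nat_lit 7) (nat_lit 7) (nat_lit 36) (nat_lit 154) r9_36 r0_154 (nat_lit 0) (nat_lit 0) (nat_lit 0) (nat_lit 0x8017985b4) (nat_lit 536870912),
  Rx.mk (nat_lit 511) (nat_lit 7) (nat_lit 7) (nat_lit 7) (nat_lit 7) (nat_lit 39) (nat_lit 166) r9_39 r0_166 (nat_lit 0) (nat_lit 0) (nat_lit 0) (nat_lit 0x8002decd6) (nat_lit 538139162)]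
noncomputable def e21_1 : List Rx := [
  Rx.mk (nat_lit 292) (nat_lit 4) (nat_lit 4) (nat_lit 4) (nat_lit 0) (nat_lit 40) (nat_lit 170) r9_40 r1_170 (nat_lit 56659484) (nat_lit 49328540) (nat_lit 24261554) (nat_lit 0x3f56488d6) (nat_lit 1713461290),
  Rx.mk (nat_lit 295) (nat_lit 7) (nat_lit 4) (nat_lit 4) (nat_lit 1) (nat_lit 41) (nat_lit 173) r9_41 r1_173 (nat_lit 0) (nat_lit 32551245) (nat_lit 27290911) (nat_lit 0x6e1360b66) (nat_lit 887289868),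
  Rx.mk (nat_lit 308) (nat_lit 4) (nat_lit 6) (nat_lit 4) (nat_lit 2) (nat_lit 42) (nat_lit 171) r9_42 r1_171 (nat_lit 43212165) (nat_lit 0) (nat_lit 26252196) (nat_lit 0x6d3fdbff2) (nat_lit 910271473),
  Rx.mk (nat_lit 311) (nat_lit 7) (nat_lit 6) (nat_lit 4) (nat_lit 3) (nat_lit 45) (nat_lit 176) r9_45 r1_176 (nat_lit 0) (nat_lit 0) (nat_lit 24741287) (nat_lit 0x8017985b4) (nat_lit 561612199),
  Rx.mk (nat_lit 319) (nat_lit 7) (nat_lit 7) (nat_lit 4) (nat_lit 3) (nat_lit 48) (nat_lit 174) r9_48 r1_174 (nat_lit 0) (nat_lit 0) (nat_lit 24741287) (nat_lit 0x8004104a6) (nat_lit 562806149),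
  Rx.mk (nat_lit 436) (nat_lit 4) (nat_lit 6) (nat_lit 6) (nat_lit 6) (nat_lit 43) (nat_lit 172) r9_43 r1_172 (nat_lit 35087009) (nat_lit 0) (nat_lit 0) (nat_lit 0x7eb627b3c) (nat_lit 593834521),
  Rx.mk (nat_lit 438) (nat_lit 6) (nat_lit 6) (nat_lit 6) (nat_lit 7) (nat_lit 44) (nat_lit 178) r9_44 r1_178 (nat_lit 0) (nat_lit 0) (nat_lit 0) (nat_lit 0x7ed9f7242) (nat_lit 556534462),
  Rx.mk (nat_lit 439) (nat_lit 7) (nat_lit 6) (nat_lit 6) (nat_lit 7) (nat_lit 46) (nat_lit 177) r9_46 r1_177 (nat_lit 0) (nat_lit 0) (nat_lit 0) (nat_lit 0x8017985b4) (nat_lit 536870912),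
  Rx.mk (nat_lit 507) (nat_lit 3) (nat_lit 7) (nat_lit 7) (nat_lit 7) (nat_lit 47) (nat_lit 169) r9_47 r1_169 (nat_lit 0) (nat_lit 0) (nat_lit 0) (nat_lit 0x8017985b4) (nat_lit 536870912),
  Rx.mk (nat_lit 511) (nat_lit 7) (nat_lit 7) (nat_lit 7) (nat_lit 7) (nat_lit 49) (nat_lit 175) r9_49 r1_175 (nat_lit 0) (nat_lit 0) (nat_lit 0) (nat_lit 0x8017985b4) (nat_lit 536870912)]
noncomputable def e21_2 : List Rx := [
  Rx.mk (nat_lit 251) (nat_lit 3) (nat_lit 7) (nat_lit 3) (nat_lit 7) (nat_lit 11) (nat_lit 168) r9_11 r2_168 (nat_lit 0) (nat_lit 0) (nat_lit 0) (nat_lit 0x8017985b4) (nat_lit 536870912),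
  Rx.mk (nat_lit 292) (nat_lit 4) (nat_lit 4) (nat_lit 4) (nat_lit 0) (nat_lit 2) (nat_lit 170) r9_2 r2_170 (nat_lit 12054409) (nat_lit 10208836) (nat_lit 9380650) (nat_lit 0x4191c7aea) (nat_lit 1578696407),
  Rx.mk (nat_lit 295) (nat_lit 7) (nat_lit 4) (nat_lit 4) (nat_lit 1) (nat_lit 3) (nat_lit 173) r9_3 r2_173 (nat_lit 0) (nat_lit 18448465) (nat_lit 27923274) (nat_lit 0x696412f82) (nat_lit 949568801),
  Rx.mk (nat_lit 308) (nat_lit 4) (nat_lit 6) (nat_lit 4) (nat_lit 2) (nat_lit 5) (nat_lit 171) r9_5 r2_171 (nat_lit 19348784) (nat_lit 0) (nat_lit 28184396) (nat_lit 0x6737e5402) (nat_lit 985858192),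
  Rx.mk (nat_lit 311) (nat_lit 7) (nat_lit 6) (nat_lit 4) (nat_lit 3) (nat_lit 8) (nat_lit 176) r9_8 r2_176 (nat_lit 0) (nat_lit 0) (nat_lit 24741287) (nat_lit 0x800e5e7c8) (nat_lit 562175649),
  Rx.mk (nat_lit 436) (nat_lit 4) (nat_lit 6) (nat_lit 6) (nat_lit 6) (nat_lit 6) (nat_lit 172) r9_6 r2_172 (nat_lit 23881749) (nat_lit 0) (nat_lit 0) (nat_lit 0x7ffacd09c) (nat_lit 562515361),
  Rx.mk (nat_lit 438) (nat_lit 6) (nat_lit 6) (nat_lit 6) (nat_lit 7) (nat_lit 7) (nat_lit 179) r9_7 r2_179 (nat_lit 0) (nat_lit 0) (nat_lit 0) (nat_lit 0x8017985b4) (nat_lit 536870912),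
  Rx.mk (nat_lit 439) (nat_lit 7) (nat_lit 6) (nat_lit 6) (nat_lit 7) (nat_lit 9) (nat_lit 178) r9_9 r2_178 (nat_lit 0) (nat_lit 0) (nat_lit 0) (nat_lit 0x8017985b4) (nat_lit 536870912),
  Rx.mk (nat_lit 487) (nat_lit 7) (nat_lit 4) (nat_lit 7) (nat_lit 5) (nat_lit 4) (nat_lit 174) r9_4 r2_174 (nat_lit 0) (nat_lit 24741287) (nat_lit 0) (nat_lit 0x7f9cd5ee4) (nat_lit 569152349),
  Rx.mk (nat_lit 503) (nat_lit 7) (nat_lit 6) (nat_lit 7) (nat_lit 7) (nat_lit 10) (nat_lit 177) r9_10 r2_177 (nat_lit 0) (nat_lit 0) (nat_lit 0) (nat_lit 0x8017985b4) (nat_lit 536870912),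
  Rx.mk (nat_lit 507) (nat_lit 3) (nat_lit 7) (nat_lit 7) (nat_lit 7) (nat_lit 12) (nat_lit 169) r9_12 r2_169 (nat_lit 0) (nat_lit 0) (nat_lit 0) (nat_lit 0x8017985b4) (nat_lit 536870912),
  Rx.mk (nat_lit 511) (nat_lit 7) (nat_lit 7) (nat_lit 7) (nat_lit 7) (nat_lit 13) (nat_lit 175) r9_13 r2_175 (nat_lit 0) (nat_lit 0) (nat_lit 0) (nat_lit 0x8017985b4) (nat_lit 536870912)]
noncomputable def e21_3 : List Rx := [
  Rx.mk (nat_lit 359) (nat_lit 7) (nat_lit 4) (nat_lit 5) (nat_lit 5) (nat_lit 19) (nat_lit 142) r9_19 r3_142 (nat_lit 0) (nat_lit 6950286) (nat_lit 0) (nat_lit 0x6a58027fa) (nat_lit 894620048),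
  Rx.mk (nat_lit 367) (nat_lit 7) (nat_lit 5) (nat_lit 5) (nat_lit 7) (nat_lit 20) (nat_lit 143) r9_20 r3_143 (nat_lit 0) (nat_lit 0) (nat_lit 0) (nat_lit 0x7ffede474) (nat_lit 538398162),
  Rx.mk (nat_lit 379) (nat_lit 3) (nat_lit 7) (nat_lit 5) (nat_lit 7) (nat_lit 21) (nat_lit 141) r9_21 r3_141 (nat_lit 0) (nat_lit 0) (nat_lit 0) (nat_lit 0x800056a40) (nat_lit 538300112),
  Rx.mk (nat_lit 383) (nat_lit 7) (nat_lit 7) (nat_lit 5) (nat_lit 7) (nat_lit 22) (nat_lit 144) r9_22 r3_144 (nat_lit 0) (nat_lit 0) (nat_lit 0) (nat_lit 0x7fbe4884c) (nat_lit 542361212)]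
noncomputable def e21_4 : List Rx := [
  Rx.mk (nat_lit 295) (nat_lit 7) (nat_lit 4) (nat_lit 4) (nat_lit 1) (nat_lit 50) (nat_lit 147) r9_50 r4_147 (nat_lit 0) (nat_lit 18784265) (nat_lit 16343874) (nat_lit 0x65a8d64ce) (nat_lit 998625001),
  Rx.mk (nat_lit 311) (nat_lit 7) (nat_lit 6) (nat_lit 4) (nat_lit 3) (nat_lit 53) (nat_lit 152) r9_53 r4_152 (nat_lit 0) (nat_lit 0) (nat_lit 24741287) (nat_lit 0x8017985b4) (nat_lit 561612199),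
  Rx.mk (nat_lit 315) (nat_lit 3) (nat_lit 7) (nat_lit 4) (nat_lit 3) (nat_lit 56) (nat_lit 144) r9_56 r4_144 (nat_lit 0) (nat_lit 0) (nat_lit 24741287) (nat_lit 0x8017985b4) (nat_lit 561612199),
  Rx.mk (nat_lit 319) (nat_lit 7) (nat_lit 7) (nat_lit 4) (nat_lit 3) (nat_lit 59) (nat_lit 150) r9_59 r4_150 (nat_lit 0) (nat_lit 0) (nat_lit 24741287) (nat_lit 0x7ff8b06c4) (nat_lit 563504749),
  Rx.mk (nat_lit 359) (nat_lit 7) (nat_lit 4) (nat_lit 5) (nat_lit 5) (nat_lit 51) (nat_lit 148) r9_51 r4_148 (nat_lit 0) (nat_lit 24741287) (nat_lit 0) (nat_lit 0x8017985b4) (nat_lit 561612199),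
  Rx.mk (nat_lit 367) (nat_lit 7) (nat_lit 5) (nat_lit 5) (nat_lit 7) (nat_lit 52) (nat_lit 149) r9_52 r4_149 (nat_lit 0) (nat_lit 0) (nat_lit 0) (nat_lit 0x8017985b4) (nat_lit 536870912),
  Rx.mk (nat_lit 375) (nat_lit 7) (nat_lit 6) (nat_lit 5) (nat_lit 7) (nat_lit 54) (nat_lit 153) r9_54 r4_153 (nat_lit 0) (nat_lit 0) (nat_lit 0) (nat_lit 0x8017985b4) (nat_lit 536870912),
  Rx.mk (nat_lit 379) (nat_lit 3) (nat_lit 7) (nat_lit 5) (nat_lit 7) (nat_lit 57) (nat_lit 145) r9_57 r4_145 (nat_lit 0) (nat_lit 0) (nat_lit 0) (nat_lit 0x8017985b4) (nat_lit 536870912),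
  Rx.mk (nat_lit 383) (nat_lit 7) (nat_lit 7) (nat_lit 5) (nat_lit 7) (nat_lit 60) (nat_lit 151) r9_60 r4_151 (nat_lit 0) (nat_lit 0) (nat_lit 0) (nat_lit 0x8017985b4) (nat_lit 536870912),
  Rx.mk (nat_lit 439) (nat_lit 7) (nat_lit 6) (nat_lit 6) (nat_lit 7) (nat_lit 55) (nat_lit 154) r9_55 r4_154 (nat_lit 0) (nat_lit 0) (nat_lit 0) (nat_lit 0x8017985b4) (nat_lit 536870912),
  Rx.mk (nat_lit 507) (nat_lit 3) (nat_lit 7) (nat_lit 7) (nat_lit 7) (nat_lit 58) (nat_lit 146) r9_58 r4_146 (nat_lit 0) (nat_lit 0) (nat_lit 0) (nat_lit 0x8017985b4) (nat_lit 536870912)]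
noncomputable def e21_5 : List Rx := [
  Rx.mk (nat_lit 379) (nat_lit 3) (nat_lit 7) (nat_lit 5) (nat_lit 7) (nat_lit 63) (nat_lit 150) r9_63 r5_150 (nat_lit 0) (nat_lit 0) (nat_lit 0) (nat_lit 0x8017985b4) (nat_lit 536870912),
  Rx.mk (nat_lit 383) (nat_lit 7) (nat_lit 7) (nat_lit 5) (nat_lit 7) (nat_lit 64) (nat_lit 151) r9_64 r5_151 (nat_lit 0) (nat_lit 0) (nat_lit 0) (nat_lit 0x7ffc47724) (nat_lit 538543512)]
noncomputable def e21_6 : List Rx := [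
  Rx.mk (nat_lit 123) (nat_lit 3) (nat_lit 7) (nat_lit 1) (nat_lit 7) (nat_lit 14) (nat_lit 123) r9_14 r3_123 (nat_lit 0) (nat_lit 0) (nat_lit 0) (nat_lit 0x7fce2024c) (nat_lit 541400812)]
noncomputable def e21_7 : List Rx := [
  Rx.mk (nat_lit 251) (nat_lit 3) (nat_lit 7) (nat_lit 3) (nat_lit 7) (nat_lit 0) (nat_lit 141) r9_0 r0_141 (nat_lit 0) (nat_lit 0) (nat_lit 0) (nat_lit 0x7fe34c40e) (nat_lit 540076362)]
noncomputable def e21_8 : List Rx := [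
  Rx.mk (nat_lit 251) (nat_lit 3) (nat_lit 7) (nat_lit 3) (nat_lit 7) (nat_lit 1) (nat_lit 153) r9_1 r1_153 (nat_lit 0) (nat_lit 0) (nat_lit 0) (nat_lit 0x8017985b4) (nat_lit 536870912)]
noncomputable def e21_9 : List Rx := [
  Rx.mk (nat_lit 59) (nat_lit 3) (nat_lit 7) (nat_lit 0) (nat_lit 3) (nat_lit 15) (nat_lit 128) r9_15 r4_128 (nat_lit 0) (nat_lit 0) (nat_lit 24741287) (nat_lit 0x8017985b4) (nat_lit 561612199),
  Rx.mk (nat_lit 123) (nat_lit 3) (nat_lit 7) (nat_lit 1) (nat_lit 7) (nat_lit 16) (nat_lit 129) r9_16 r4_129 (nat_lit 0) (nat_lit 0) (nat_lit 0) (nat_lit 0x8017985b4) (nat_lit 536870912),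
  Rx.mk (nat_lit 251) (nat_lit 3) (nat_lit 7) (nat_lit 3) (nat_lit 7) (nat_lit 17) (nat_lit 130) r9_17 r4_130 (nat_lit 0) (nat_lit 0) (nat_lit 0) (nat_lit 0x8017985b4) (nat_lit 536870912)]
noncomputable def e21_10 : List Rx := [
  Rx.mk (nat_lit 123) (nat_lit 3) (nat_lit 7) (nat_lit 1) (nat_lit 7) (nat_lit 61) (nat_lit 168) r9_61 r6_168 (nat_lit 0) (nat_lit 0) (nat_lit 0) (nat_lit 0x8017985b4) (nat_lit 536870912),
  Rx.mk (nat_lit 379) (nat_lit 3) (nat_lit 7) (nat_lit 5) (nat_lit 7) (nat_lit 62) (nat_lit 169) r9_62 r6_169 (nat_lit 0) (nat_lit 0) (nat_lit 0) (nat_lit 0x8017985b4) (nat_lit 536870912)]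
noncomputable def e21_11 : List Rx := [
  Rx.mk (nat_lit 123) (nat_lit 3) (nat_lit 7) (nat_lit 1) (nat_lit 7) (nat_lit 18) (nat_lit 123) r9_18 r5_123 (nat_lit 0) (nat_lit 0) (nat_lit 0) (nat_lit 0x8017985b4) (nat_lit 536870912)]
noncomputable def e21_12 : List Rx := [
  Rx.mk (nat_lit 356) (nat_lit 4) (nat_lit 4) (nat_lit 5) (nat_lit 4) (nat_lit 155) (nat_lit 257) r9_155 r0_257 (nat_lit 49590700) (nat_lit 41159980) (nat_lit 0) (nat_lit 0x50d4cab80) (nat_lit 1391082492),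
  Rx.mk (nat_lit 359) (nat_lit 7) (nat_lit 4) (nat_lit 5) (nat_lit 5) (nat_lit 156) (nat_lit 258) r9_156 r0_258 (nat_lit 0) (nat_lit 30127539) (nat_lit 0) (nat_lit 0x7a85fc8e4) (nat_lit 656361051),
  Rx.mk (nat_lit 364) (nat_lit 4) (nat_lit 5) (nat_lit 5) (nat_lit 6) (nat_lit 157) (nat_lit 259) r9_157 r0_259 (nat_lit 28301978) (nat_lit 0) (nat_lit 0) (nat_lit 0x71f06598c) (nat_lit 793284240),
  Rx.mk (nat_lit 367) (nat_lit 7) (nat_lit 5) (nat_lit 5) (nat_lit 7) (nat_lit 158) (nat_lit 260) r9_158 r0_260 (nat_lit 0) (nat_lit 0) (nat_lit 0) (nat_lit 0x7fffa9a3e) (nat_lit 538336962),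
  Rx.mk (nat_lit 383) (nat_lit 7) (nat_lit 7) (nat_lit 5) (nat_lit 7) (nat_lit 159) (nat_lit 261) r9_159 r0_261 (nat_lit 0) (nat_lit 0) (nat_lit 0) (nat_lit 0x800dc4ccc) (nat_lit 537471612)]
noncomputable def e21_13 : List Rx := [
  Rx.mk (nat_lit 292) (nat_lit 4) (nat_lit 4) (nat_lit 4) (nat_lit 0) (nat_lit 170) (nat_lit 204) r9_170 r7_204 (nat_lit 19525038) (nat_lit 25638298) (nat_lit 13837945) (nat_lit 0x3a3a221ac) (nat_lit 1724813643),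
  Rx.mk (nat_lit 295) (nat_lit 7) (nat_lit 4) (nat_lit 4) (nat_lit 1) (nat_lit 172) (nat_lit 210) r9_172 r7_210 (nat_lit 0) (nat_lit 30361877) (nat_lit 38278625) (nat_lit 0x697120ad0) (nat_lit 971010514),
  Rx.mk (nat_lit 308) (nat_lit 4) (nat_lit 6) (nat_lit 4) (nat_lit 2) (nat_lit 176) (nat_lit 207) r9_176 r7_207 (nat_lit 22236043) (nat_lit 0) (nat_lit 30412328) (nat_lit 0x6db23206a) (nat_lit 886234833),
  Rx.mk (nat_lit 319) (nat_lit 7) (nat_lit 7) (nat_lit 4) (nat_lit 3) (nat_lit 180) (nat_lit 213) r9_180 r7_213 (nat_lit 0) (nat_lit 0) (nat_lit 24741287) (nat_lit 0x8017985b4) (nat_lit 561612199),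
  Rx.mk (nat_lit 356) (nat_lit 4) (nat_lit 4) (nat_lit 5) (nat_lit 4) (nat_lit 171) (nat_lit 205) r9_171 r7_205 (nat_lit 35325188) (nat_lit 50988633) (nat_lit 0) (nat_lit 0x657b86a96) (nat_lit 1052706133),
  Rx.mk (nat_lit 359) (nat_lit 7) (nat_lit 4) (nat_lit 5) (nat_lit 5) (nat_lit 173) (nat_lit 211) r9_173 r7_211 (nat_lit 0) (nat_lit 24741287) (nat_lit 0) (nat_lit 0x800c2759a) (nat_lit 562311049),
  Rx.mk (nat_lit 364) (nat_lit 4) (nat_lit 5) (nat_lit 5) (nat_lit 6) (nat_lit 174) (nat_lit 206) r9_174 r7_206 (nat_lit 24741287) (nat_lit 0) (nat_lit 0) (nat_lit 0x8017985b4) (nat_lit 561612199),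
  Rx.mk (nat_lit 367) (nat_lit 7) (nat_lit 5) (nat_lit 5) (nat_lit 7) (nat_lit 175) (nat_lit 212) r9_175 r7_212 (nat_lit 0) (nat_lit 0) (nat_lit 0) (nat_lit 0x8017985b4) (nat_lit 536870912),
  Rx.mk (nat_lit 372) (nat_lit 4) (nat_lit 6) (nat_lit 5) (nat_lit 6) (nat_lit 177) (nat_lit 208) r9_177 r7_208 (nat_lit 24741287) (nat_lit 0) (nat_lit 0) (nat_lit 0x8017985b4) (nat_lit 561612199),
  Rx.mk (nat_lit 383) (nat_lit 7) (nat_lit 7) (nat_lit 5) (nat_lit 7) (nat_lit 181) (nat_lit 214) r9_181 r7_214 (nat_lit 0) (nat_lit 0) (nat_lit 0) (nat_lit 0x8017985b4) (nat_lit 536870912),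
  Rx.mk (nat_lit 436) (nat_lit 4) (nat_lit 6) (nat_lit 6) (nat_lit 6) (nat_lit 178) (nat_lit 209) r9_178 r7_209 (nat_lit 24741287) (nat_lit 0) (nat_lit 0) (nat_lit 0x8017985b4) (nat_lit 561612199),
  Rx.mk (nat_lit 438) (nat_lit 6) (nat_lit 6) (nat_lit 6) (nat_lit 7) (nat_lit 179) (nat_lit 216) r9_179 r7_216 (nat_lit 0) (nat_lit 0) (nat_lit 0) (nat_lit 0x8017985b4) (nat_lit 536870912),
  Rx.mk (nat_lit 511) (nat_lit 7) (nat_lit 7) (nat_lit 7) (nat_lit 7) (nat_lit 182) (nat_lit 215) r9_182 r7_215 (nat_lit 0) (nat_lit 0) (nat_lit 0) (nat_lit 0x8017985b4) (nat_lit 536870912)]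
noncomputable def e21_14 : List Rx := [
  Rx.mk (nat_lit 356) (nat_lit 4) (nat_lit 4) (nat_lit 5) (nat_lit 4) (nat_lit 160) (nat_lit 262) r9_160 r1_262 (nat_lit 68973086) (nat_lit 38504019) (nat_lit 0) (nat_lit 0x645605570) (nat_lit 1092404867),
  Rx.mk (nat_lit 357) (nat_lit 5) (nat_lit 4) (nat_lit 5) (nat_lit 5) (nat_lit 161) (nat_lit 263) r9_161 r1_263 (nat_lit 0) (nat_lit 24741287) (nat_lit 0) (nat_lit 0x8004fdb2a) (nat_lit 562749199),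
  Rx.mk (nat_lit 359) (nat_lit 7) (nat_lit 4) (nat_lit 5) (nat_lit 5) (nat_lit 162) (nat_lit 264) r9_162 r1_264 (nat_lit 0) (nat_lit 24741287) (nat_lit 0) (nat_lit 0x8017985b4) (nat_lit 561612199),
  Rx.mk (nat_lit 364) (nat_lit 4) (nat_lit 5) (nat_lit 5) (nat_lit 6) (nat_lit 163) (nat_lit 265) r9_163 r1_265 (nat_lit 24741287) (nat_lit 0) (nat_lit 0) (nat_lit 0x8017985b4) (nat_lit 561612199),
  Rx.mk (nat_lit 365) (nat_lit 5) (nat_lit 5) (nat_lit 5) (nat_lit 7) (nat_lit 164) (nat_lit 266) r9_164 r1_266 (nat_lit 0) (nat_lit 0) (nat_lit 0) (nat_lit 0x8017985b4) (nat_lit 536870912),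
  Rx.mk (nat_lit 367) (nat_lit 7) (nat_lit 5) (nat_lit 5) (nat_lit 7) (nat_lit 165) (nat_lit 267) r9_165 r1_267 (nat_lit 0) (nat_lit 0) (nat_lit 0) (nat_lit 0x8017985b4) (nat_lit 536870912),
  Rx.mk (nat_lit 383) (nat_lit 7) (nat_lit 7) (nat_lit 5) (nat_lit 7) (nat_lit 166) (nat_lit 268) r9_166 r1_268 (nat_lit 0) (nat_lit 0) (nat_lit 0) (nat_lit 0x8017985b4) (nat_lit 536870912)]
noncomputable def e21_15 : List Rx := [
  Rx.mk (nat_lit 292) (nat_lit 4) (nat_lit 4) (nat_lit 4) (nat_lit 0) (nat_lit 183) (nat_lit 159) r9_183 r8_159 (nat_lit 27871597) (nat_lit 23644808) (nat_lit 18255310) (nat_lit 0x407f928e4) (nat_lit 1634185527),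
  Rx.mk (nat_lit 293) (nat_lit 5) (nat_lit 4) (nat_lit 4) (nat_lit 1) (nat_lit 185) (nat_lit 165) r9_185 r8_165 (nat_lit 0) (nat_lit 40805453) (nat_lit 130895702) (nat_lit 0x7010e2518) (nat_lit 966967117),
  Rx.mk (nat_lit 295) (nat_lit 7) (nat_lit 4) (nat_lit 4) (nat_lit 1) (nat_lit 187) (nat_lit 171) r9_187 r8_171 (nat_lit 0) (nat_lit 30134438) (nat_lit 55618136) (nat_lit 0x6f41c019a) (nat_lit 894101936),
  Rx.mk (nat_lit 308) (nat_lit 4) (nat_lit 6) (nat_lit 4) (nat_lit 2) (nat_lit 192) (nat_lit 162) r9_192 r8_162 (nat_lit 28133172) (nat_lit 0) (nat_lit 40482942) (nat_lit 0x6d0747a06) (nat_lit 912998026),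
  Rx.mk (nat_lit 309) (nat_lit 5) (nat_lit 6) (nat_lit 4) (nat_lit 3) (nat_lit 195) (nat_lit 168) r9_195 r8_168 (nat_lit 0) (nat_lit 0) (nat_lit 24741287) (nat_lit 0x8017985b4) (nat_lit 561612199),
  Rx.mk (nat_lit 319) (nat_lit 7) (nat_lit 7) (nat_lit 4) (nat_lit 3) (nat_lit 199) (nat_lit 174) r9_199 r8_174 (nat_lit 0) (nat_lit 0) (nat_lit 24741287) (nat_lit 0x8017985b4) (nat_lit 561612199),
  Rx.mk (nat_lit 356) (nat_lit 4) (nat_lit 4) (nat_lit 5) (nat_lit 4) (nat_lit 184) (nat_lit 160) r9_184 r8_160 (nat_lit 34699300) (nat_lit 50716108) (nat_lit 0) (nat_lit 0x6b512c18c) (nat_lit 957466070),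
  Rx.mk (nat_lit 357) (nat_lit 5) (nat_lit 4) (nat_lit 5) (nat_lit 5) (nat_lit 186) (nat_lit 166) r9_186 r8_166 (nat_lit 0) (nat_lit 23667545) (nat_lit 0) (nat_lit 0x7fe4ef41e) (nat_lit 563630257),
  Rx.mk (nat_lit 359) (nat_lit 7) (nat_lit 4) (nat_lit 5) (nat_lit 5) (nat_lit 188) (nat_lit 172) r9_188 r8_172 (nat_lit 0) (nat_lit 24741287) (nat_lit 0) (nat_lit 0x8017985b4) (nat_lit 561612199),
  Rx.mk (nat_lit 364) (nat_lit 4) (nat_lit 5) (nat_lit 5) (nat_lit 6) (nat_lit 189) (nat_lit 161) r9_189 r8_161 (nat_lit 25054288) (nat_lit 0) (nat_lit 0) (nat_lit 0x800856290) (nat_lit 562857500),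
  Rx.mk (nat_lit 365) (nat_lit 5) (nat_lit 5) (nat_lit 5) (nat_lit 7) (nat_lit 190) (nat_lit 167) r9_190 r8_167 (nat_lit 0) (nat_lit 0) (nat_lit 0) (nat_lit 0x8017985b4) (nat_lit 536870912),
  Rx.mk (nat_lit 367) (nat_lit 7) (nat_lit 5) (nat_lit 5) (nat_lit 7) (nat_lit 191) (nat_lit 173) r9_191 r8_173 (nat_lit 0) (nat_lit 0) (nat_lit 0) (nat_lit 0x8017985b4) (nat_lit 536870912),
  Rx.mk (nat_lit 372) (nat_lit 4) (nat_lit 6) (nat_lit 5) (nat_lit 6) (nat_lit 193) (nat_lit 163) r9_193 r8_163 (nat_lit 24741287) (nat_lit 0) (nat_lit 0) (nat_lit 0x8009d4ae0) (nat_lit 562452249),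
  Rx.mk (nat_lit 373) (nat_lit 5) (nat_lit 6) (nat_lit 5) (nat_lit 7) (nat_lit 196) (nat_lit 169) r9_196 r8_169 (nat_lit 0) (nat_lit 0) (nat_lit 0) (nat_lit 0x8017985b4) (nat_lit 536870912),
  Rx.mk (nat_lit 383) (nat_lit 7) (nat_lit 7) (nat_lit 5) (nat_lit 7) (nat_lit 200) (nat_lit 175) r9_200 r8_175 (nat_lit 0) (nat_lit 0) (nat_lit 0) (nat_lit 0x8017985b4) (nat_lit 536870912),
  Rx.mk (nat_lit 436) (nat_lit 4) (nat_lit 6) (nat_lit 6) (nat_lit 6) (nat_lit 194) (nat_lit 164) r9_194 r8_164 (nat_lit 24741287) (nat_lit 0) (nat_lit 0) (nat_lit 0x8017985b4) (nat_lit 561612199),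
  Rx.mk (nat_lit 437) (nat_lit 5) (nat_lit 6) (nat_lit 6) (nat_lit 7) (nat_lit 197) (nat_lit 170) r9_197 r8_170 (nat_lit 0) (nat_lit 0) (nat_lit 0) (nat_lit 0x8017985b4) (nat_lit 536870912),
  Rx.mk (nat_lit 438) (nat_lit 6) (nat_lit 6) (nat_lit 6) (nat_lit 7) (nat_lit 198) (nat_lit 177) r9_198 r8_177 (nat_lit 0) (nat_lit 0) (nat_lit 0) (nat_lit 0x8017985b4) (nat_lit 536870912),
  Rx.mk (nat_lit 511) (nat_lit 7) (nat_lit 7) (nat_lit 7) (nat_lit 7) (nat_lit 201) (nat_lit 176) r9_201 r8_176 (nat_lit 0) (nat_lit 0) (nat_lit 0) (nat_lit 0x8017985b4) (nat_lit 536870912)]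
noncomputable def e21_16 : List Rx := [
  Rx.mk (nat_lit 292) (nat_lit 4) (nat_lit 4) (nat_lit 4) (nat_lit 0) (nat_lit 202) (nat_lit 266) r9_202 r8_266 (nat_lit 23929726) (nat_lit 37514210) (nat_lit 16962537) (nat_lit 0x3e09e15de) (nat_lit 1682604485),
  Rx.mk (nat_lit 295) (nat_lit 7) (nat_lit 4) (nat_lit 4) (nat_lit 1) (nat_lit 203) (nat_lit 267) r9_203 r8_267 (nat_lit 0) (nat_lit 27096766) (nat_lit 34060215) (nat_lit 0x698596640) (nat_lit 962235943),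
  Rx.mk (nat_lit 308) (nat_lit 4) (nat_lit 6) (nat_lit 4) (nat_lit 2) (nat_lit 204) (nat_lit 269) r9_204 r8_269 (nat_lit 25355923) (nat_lit 0) (nat_lit 29280147) (nat_lit 0x6cdd7d4fa) (nat_lit 901656982),
  Rx.mk (nat_lit 319) (nat_lit 7) (nat_lit 7) (nat_lit 4) (nat_lit 3) (nat_lit 207) (nat_lit 268) r9_207 r8_268 (nat_lit 0) (nat_lit 0) (nat_lit 24537189) (nat_lit 0x8007ecd18) (nat_lit 562365701),
  Rx.mk (nat_lit 436) (nat_lit 4) (nat_lit 6) (nat_lit 6) (nat_lit 6) (nat_lit 205) (nat_lit 271) r9_205 r8_271 (nat_lit 24741287) (nat_lit 0) (nat_lit 0) (nat_lit 0x8017985b4) (nat_lit 561612199),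
  Rx.mk (nat_lit 438) (nat_lit 6) (nat_lit 6) (nat_lit 6) (nat_lit 7) (nat_lit 206) (nat_lit 272) r9_206 r8_272 (nat_lit 0) (nat_lit 0) (nat_lit 0) (nat_lit 0x8017985b4) (nat_lit 536870912),
  Rx.mk (nat_lit 511) (nat_lit 7) (nat_lit 7) (nat_lit 7) (nat_lit 7) (nat_lit 208) (nat_lit 270) r9_208 r8_270 (nat_lit 0) (nat_lit 0) (nat_lit 0) (nat_lit 0x8017985b4) (nat_lit 536870912)]
noncomputable def e21_17 : List Rx := [
  Rx.mk (nat_lit 292) (nat_lit 4) (nat_lit 4) (nat_lit 4) (nat_lit 0) (nat_lit 148) (nat_lit 148) r9_148 r9_148 (nat_lit 26184378) (nat_lit 26184378) (nat_lit 17958918) (nat_lit 0x4289fca08) (nat_lit 1601756836),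
  Rx.mk (nat_lit 295) (nat_lit 7) (nat_lit 4) (nat_lit 4) (nat_lit 1) (nat_lit 149) (nat_lit 151) r9_149 r9_151 (nat_lit 0) (nat_lit 24357688) (nat_lit 25198067) (nat_lit 0x695294076) (nat_lit 953855717),
  Rx.mk (nat_lit 308) (nat_lit 4) (nat_lit 6) (nat_lit 4) (nat_lit 2) (nat_lit 151) (nat_lit 149) r9_151 r9_149 (nat_lit 24357688) (nat_lit 0) (nat_lit 25198067) (nat_lit 0x695294076) (nat_lit 953855717),
  Rx.mk (nat_lit 436) (nat_lit 4) (nat_lit 6) (nat_lit 6) (nat_lit 6) (nat_lit 152) (nat_lit 150) r9_152 r9_150 (nat_lit 24501470) (nat_lit 0) (nat_lit 0) (nat_lit 0x7fbf237c6) (nat_lit 566776782),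
  Rx.mk (nat_lit 438) (nat_lit 6) (nat_lit 6) (nat_lit 6) (nat_lit 7) (nat_lit 153) (nat_lit 154) r9_153 r9_154 (nat_lit 0) (nat_lit 0) (nat_lit 0) (nat_lit 0x8017985b4) (nat_lit 536870912),
  Rx.mk (nat_lit 487) (nat_lit 7) (nat_lit 4) (nat_lit 7) (nat_lit 5) (nat_lit 150) (nat_lit 152) r9_150 r9_152 (nat_lit 0) (nat_lit 24501470) (nat_lit 0) (nat_lit 0x7fbf237c6) (nat_lit 566776782),
  Rx.mk (nat_lit 511) (nat_lit 7) (nat_lit 7) (nat_lit 7) (nat_lit 7) (nat_lit 154) (nat_lit 153) r9_154 r9_153 (nat_lit 0) (nat_lit 0) (nat_lit 0) (nat_lit 0x8017985b4) (nat_lit 536870912)]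
noncomputable def e21_18 : List Rx := [
  Rx.mk (nat_lit 359) (nat_lit 7) (nat_lit 4) (nat_lit 5) (nat_lit 5) (nat_lit 167) (nat_lit 273) r9_167 r4_273 (nat_lit 0) (nat_lit 24741287) (nat_lit 0) (nat_lit 0x7fff3afc6) (nat_lit 563104399),
  Rx.mk (nat_lit 367) (nat_lit 7) (nat_lit 5) (nat_lit 5) (nat_lit 7) (nat_lit 168) (nat_lit 274) r9_168 r4_274 (nat_lit 0) (nat_lit 0) (nat_lit 0) (nat_lit 0x8017985b4) (nat_lit 536870912),
  Rx.mk (nat_lit 383) (nat_lit 7) (nat_lit 7) (nat_lit 5) (nat_lit 7) (nat_lit 169) (nat_lit 275) r9_169 r4_275 (nat_lit 0) (nat_lit 0) (nat_lit 0) (nat_lit 0x8017985b4) (nat_lit 536870912)]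
noncomputable def e21_19 : List Rx := [
  Rx.mk (nat_lit 295) (nat_lit 7) (nat_lit 4) (nat_lit 4) (nat_lit 1) (nat_lit 209) (nat_lit 161) r9_209 r10_161 (nat_lit 0) (nat_lit 34942940) (nat_lit 65106199) (nat_lit 0x66b1feea6) (nat_lit 1046829251),
  Rx.mk (nat_lit 319) (nat_lit 7) (nat_lit 7) (nat_lit 4) (nat_lit 3) (nat_lit 212) (nat_lit 164) r9_212 r10_164 (nat_lit 0) (nat_lit 0) (nat_lit 24741287) (nat_lit 0x8017985b4) (nat_lit 561612199),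
  Rx.mk (nat_lit 359) (nat_lit 7) (nat_lit 4) (nat_lit 5) (nat_lit 5) (nat_lit 210) (nat_lit 162) r9_210 r10_162 (nat_lit 0) (nat_lit 25290688) (nat_lit 0) (nat_lit 0x800987e2a) (nat_lit 563020650),
  Rx.mk (nat_lit 367) (nat_lit 7) (nat_lit 5) (nat_lit 5) (nat_lit 7) (nat_lit 211) (nat_lit 163) r9_211 r10_163 (nat_lit 0) (nat_lit 0) (nat_lit 0) (nat_lit 0x8017985b4) (nat_lit 536870912),
  Rx.mk (nat_lit 383) (nat_lit 7) (nat_lit 7) (nat_lit 5) (nat_lit 7) (nat_lit 213) (nat_lit 165) r9_213 r10_165 (nat_lit 0) (nat_lit 0) (nat_lit 0) (nat_lit 0x8017985b4) (nat_lit 536870912)]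
noncomputable def e21_20 : List Rx := [
  Rx.mk (nat_lit 383) (nat_lit 7) (nat_lit 7) (nat_lit 5) (nat_lit 7) (nat_lit 214) (nat_lit 164) r9_214 r11_164 (nat_lit 0) (nat_lit 0) (nat_lit 0) (nat_lit 0x8017985b4) (nat_lit 536870912)]
noncomputable def e21_21 : List Rx := [
  Rx.mk (nat_lit 0) (nat_lit 0) (nat_lit 0) (nat_lit 0) (nat_lit 0) (nat_lit 109) (nat_lit 121) r9_109 r9_121 (nat_lit 36523476) (nat_lit 22961591) (nat_lit 21797302) (nat_lit 0x3ad62b83c) (nat_lit 1737278231),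
  Rx.mk (nat_lit 2) (nat_lit 2) (nat_lit 0) (nat_lit 0) (nat_lit 1) (nat_lit 110) (nat_lit 122) r9_110 r9_122 (nat_lit 0) (nat_lit 18882716) (nat_lit 24030520) (nat_lit 0x619393b74) (nat_lit 1072465598),
  Rx.mk (nat_lit 24) (nat_lit 0) (nat_lit 3) (nat_lit 0) (nat_lit 2) (nat_lit 115) (nat_lit 124) r9_115 r9_124 (nat_lit 21805176) (nat_lit 0) (nat_lit 21788749) (nat_lit 0x60e0b917a) (nat_lit 1084441637),
  Rx.mk (nat_lit 26) (nat_lit 2) (nat_lit 3) (nat_lit 0) (nat_lit 3) (nat_lit 117) (nat_lit 127) r9_117 r9_127 (nat_lit 0) (nat_lit 0) (nat_lit 24741287) (nat_lit 0x7f6b2ca1e) (nat_lit 572209049),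
  Rx.mk (nat_lit 130) (nat_lit 2) (nat_lit 0) (nat_lit 2) (nat_lit 5) (nat_lit 111) (nat_lit 123) r9_111 r9_123 (nat_lit 0) (nat_lit 21899928) (nat_lit 0) (nat_lit 0x7e32c5136) (nat_lit 588892740),
  Rx.mk (nat_lit 146) (nat_lit 2) (nat_lit 2) (nat_lit 2) (nat_lit 7) (nat_lit 112) (nat_lit 132) r9_112 r9_132 (nat_lit 0) (nat_lit 0) (nat_lit 0) (nat_lit 0x8017985b4) (nat_lit 536870912),
  Rx.mk (nat_lit 150) (nat_lit 6) (nat_lit 2) (nat_lit 2) (nat_lit 7) (nat_lit 113) (nat_lit 131) r9_113 r9_131 (nat_lit 0) (nat_lit 0) (nat_lit 0) (nat_lit 0x8017985b4) (nat_lit 536870912),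
  Rx.mk (nat_lit 154) (nat_lit 2) (nat_lit 3) (nat_lit 2) (nat_lit 7) (nat_lit 118) (nat_lit 129) r9_118 r9_129 (nat_lit 0) (nat_lit 0) (nat_lit 0) (nat_lit 0x8017985b4) (nat_lit 536870912),
  Rx.mk (nat_lit 216) (nat_lit 0) (nat_lit 3) (nat_lit 3) (nat_lit 6) (nat_lit 116) (nat_lit 125) r9_116 r9_125 (nat_lit 22977602) (nat_lit 0) (nat_lit 0) (nat_lit 0x7edbd4c9a) (nat_lit 579368164),
  Rx.mk (nat_lit 218) (nat_lit 2) (nat_lit 3) (nat_lit 3) (nat_lit 7) (nat_lit 119) (nat_lit 128) r9_119 r9_128 (nat_lit 0) (nat_lit 0) (nat_lit 0) (nat_lit 0x8017985b4) (nat_lit 536870912),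
  Rx.mk (nat_lit 219) (nat_lit 3) (nat_lit 3) (nat_lit 3) (nat_lit 7) (nat_lit 120) (nat_lit 126) r9_120 r9_126 (nat_lit 0) (nat_lit 0) (nat_lit 0) (nat_lit 0x8017985b4) (nat_lit 536870912),
  Rx.mk (nat_lit 251) (nat_lit 3) (nat_lit 7) (nat_lit 3) (nat_lit 7) (nat_lit 130) (nat_lit 114) r9_130 r9_114 (nat_lit 0) (nat_lit 0) (nat_lit 0) (nat_lit 0x8017985b4) (nat_lit 536870912),
  Rx.mk (nat_lit 292) (nat_lit 4) (nat_lit 4) (nat_lit 4) (nat_lit 0) (nat_lit 121) (nat_lit 109) r9_121 r9_109 (nat_lit 36523476) (nat_lit 22961591) (nat_lit 21797302) (nat_lit 0x3ad62b83c) (nat_lit 1737278231),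
  Rx.mk (nat_lit 295) (nat_lit 7) (nat_lit 4) (nat_lit 4) (nat_lit 1) (nat_lit 122) (nat_lit 110) r9_122 r9_110 (nat_lit 0) (nat_lit 18882716) (nat_lit 24030520) (nat_lit 0x619393b74) (nat_lit 1072465598),
  Rx.mk (nat_lit 308) (nat_lit 4) (nat_lit 6) (nat_lit 4) (nat_lit 2) (nat_lit 124) (nat_lit 115) r9_124 r9_115 (nat_lit 21805176) (nat_lit 0) (nat_lit 21788749) (nat_lit 0x60e0b917a) (nat_lit 1084441637),
  Rx.mk (nat_lit 311) (nat_lit 7) (nat_lit 6) (nat_lit 4) (nat_lit 3) (nat_lit 127) (nat_lit 117) r9_127 r9_117 (nat_lit 0) (nat_lit 0) (nat_lit 24741287) (nat_lit 0x7f6b2ca1e) (nat_lit 572209049),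
  Rx.mk (nat_lit 406) (nat_lit 6) (nat_lit 2) (nat_lit 6) (nat_lit 7) (nat_lit 114) (nat_lit 130) r9_114 r9_130 (nat_lit 0) (nat_lit 0) (nat_lit 0) (nat_lit 0x8017985b4) (nat_lit 536870912),
  Rx.mk (nat_lit 436) (nat_lit 4) (nat_lit 6) (nat_lit 6) (nat_lit 6) (nat_lit 125) (nat_lit 116) r9_125 r9_116 (nat_lit 22977602) (nat_lit 0) (nat_lit 0) (nat_lit 0x7edbd4c9a) (nat_lit 579368164),
  Rx.mk (nat_lit 438) (nat_lit 6) (nat_lit 6) (nat_lit 6) (nat_lit 7) (nat_lit 126) (nat_lit 120) r9_126 r9_120 (nat_lit 0) (nat_lit 0) (nat_lit 0) (nat_lit 0x8017985b4) (nat_lit 536870912),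
  Rx.mk (nat_lit 439) (nat_lit 7) (nat_lit 6) (nat_lit 6) (nat_lit 7) (nat_lit 128) (nat_lit 119) r9_128 r9_119 (nat_lit 0) (nat_lit 0) (nat_lit 0) (nat_lit 0x8017985b4) (nat_lit 536870912),
  Rx.mk (nat_lit 487) (nat_lit 7) (nat_lit 4) (nat_lit 7) (nat_lit 5) (nat_lit 123) (nat_lit 111) r9_123 r9_111 (nat_lit 0) (nat_lit 21899928) (nat_lit 0) (nat_lit 0x7e32c5136) (nat_lit 588892740),
  Rx.mk (nat_lit 503) (nat_lit 7) (nat_lit 6) (nat_lit 7) (nat_lit 7) (nat_lit 129) (nat_lit 118) r9_129 r9_118 (nat_lit 0) (nat_lit 0) (nat_lit 0) (nat_lit 0x8017985b4) (nat_lit 536870912),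
  Rx.mk (nat_lit 507) (nat_lit 3) (nat_lit 7) (nat_lit 7) (nat_lit 7) (nat_lit 131) (nat_lit 113) r9_131 r9_113 (nat_lit 0) (nat_lit 0) (nat_lit 0) (nat_lit 0x8017985b4) (nat_lit 536870912),
  Rx.mk (nat_lit 511) (nat_lit 7) (nat_lit 7) (nat_lit 7) (nat_lit 7) (nat_lit 132) (nat_lit 112) r9_132 r9_112 (nat_lit 0) (nat_lit 0) (nat_lit 0) (nat_lit 0x8017985b4) (nat_lit 536870912)]
noncomputable def e21_22 : List Rx := [
  Rx.mk (nat_lit 64) (nat_lit 0) (nat_lit 0) (nat_lit 1) (nat_lit 4) (nat_lit 65) (nat_lit 262) r9_65 r0_262 (nat_lit 111519439) (nat_lit 35271211) (nat_lit 0) (nat_lit 0x580e92528) (nat_lit 1330276712),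
  Rx.mk (nat_lit 88) (nat_lit 0) (nat_lit 3) (nat_lit 1) (nat_lit 6) (nat_lit 66) (nat_lit 263) r9_66 r0_263 (nat_lit 42181634) (nat_lit 0) (nat_lit 0) (nat_lit 0x7bc61b1a4) (nat_lit 648220246),
  Rx.mk (nat_lit 91) (nat_lit 3) (nat_lit 3) (nat_lit 1) (nat_lit 7) (nat_lit 67) (nat_lit 264) r9_67 r0_264 (nat_lit 0) (nat_lit 0) (nat_lit 0) (nat_lit 0x7fcef5a96) (nat_lit 541322112)]
noncomputable def e21_23 : List Rx := [
  Rx.mk (nat_lit 64) (nat_lit 0) (nat_lit 0) (nat_lit 1) (nat_lit 4) (nat_lit 83) (nat_lit 269) r9_83 r1_269 (nat_lit 134396714) (nat_lit 34355931) (nat_lit 0) (nat_lit 0x734bda226) (nat_lit 911788807),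
  Rx.mk (nat_lit 88) (nat_lit 0) (nat_lit 3) (nat_lit 1) (nat_lit 6) (nat_lit 84) (nat_lit 270) r9_84 r1_270 (nat_lit 24741287) (nat_lit 0) (nat_lit 0) (nat_lit 0x8008f717c) (nat_lit 562505199),
  Rx.mk (nat_lit 91) (nat_lit 3) (nat_lit 3) (nat_lit 1) (nat_lit 7) (nat_lit 85) (nat_lit 271) r9_85 r1_271 (nat_lit 0) (nat_lit 0) (nat_lit 0) (nat_lit 0x8017985b4) (nat_lit 536870912)]
noncomputable def e21_24 : List Rx := [
  Rx.mk (nat_lit 88) (nat_lit 0) (nat_lit 3) (nat_lit 1) (nat_lit 6) (nat_lit 133) (nat_lit 276) r9_133 r4_276 (nat_lit 24741287) (nat_lit 0) (nat_lit 0) (nat_lit 0x80035e648) (nat_lit 562847599),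
  Rx.mk (nat_lit 91) (nat_lit 3) (nat_lit 3) (nat_lit 1) (nat_lit 7) (nat_lit 134) (nat_lit 277) r9_134 r4_277 (nat_lit 0) (nat_lit 0) (nat_lit 0) (nat_lit 0x8017985b4) (nat_lit 536870912),
  Rx.mk (nat_lit 123) (nat_lit 3) (nat_lit 7) (nat_lit 1) (nat_lit 7) (nat_lit 135) (nat_lit 278) r9_135 r4_278 (nat_lit 0) (nat_lit 0) (nat_lit 0) (nat_lit 0x8017985b4) (nat_lit 536870912)]
noncomputable def e21_25 : List Rx := [
  Rx.mk (nat_lit 0) (nat_lit 0) (nat_lit 0) (nat_lit 0) (nat_lit 0) (nat_lit 68) (nat_lit 161) r9_68 r7_161 (nat_lit 53728367) (nat_lit 12174851) (nat_lit 12221267) (nat_lit 0x38c2f41c6) (nat_lit 1767626247),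
  Rx.mk (nat_lit 2) (nat_lit 2) (nat_lit 0) (nat_lit 0) (nat_lit 1) (nat_lit 70) (nat_lit 163) r9_70 r7_163 (nat_lit 0) (nat_lit 23888514) (nat_lit 25388524) (nat_lit 0x66b5a08de) (nat_lit 995832150),
  Rx.mk (nat_lit 24) (nat_lit 0) (nat_lit 3) (nat_lit 0) (nat_lit 2) (nat_lit 74) (nat_lit 166) r9_74 r7_166 (nat_lit 24913710) (nat_lit 0) (nat_lit 27374180) (nat_lit 0x629c47274) (nat_lit 1065121602),
  Rx.mk (nat_lit 26) (nat_lit 2) (nat_lit 3) (nat_lit 0) (nat_lit 3) (nat_lit 76) (nat_lit 171) r9_76 r7_171 (nat_lit 0) (nat_lit 0) (nat_lit 24741287) (nat_lit 0x80064b5b8) (nat_lit 562671499),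
  Rx.mk (nat_lit 27) (nat_lit 3) (nat_lit 3) (nat_lit 0) (nat_lit 3) (nat_lit 79) (nat_lit 168) r9_79 r7_168 (nat_lit 0) (nat_lit 0) (nat_lit 24741287) (nat_lit 0x7fe3cd14e) (nat_lit 564781099),
  Rx.mk (nat_lit 64) (nat_lit 0) (nat_lit 0) (nat_lit 1) (nat_lit 4) (nat_lit 69) (nat_lit 162) r9_69 r7_162 (nat_lit 49319051) (nat_lit 28898569) (nat_lit 0) (nat_lit 0x6539461d6) (nat_lit 1048798182),
  Rx.mk (nat_lit 66) (nat_lit 2) (nat_lit 0) (nat_lit 1) (nat_lit 5) (nat_lit 71) (nat_lit 164) r9_71 r7_164 (nat_lit 0) (nat_lit 24741287) (nat_lit 0) (nat_lit 0x7fff7117a) (nat_lit 563091449),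
  Rx.mk (nat_lit 88) (nat_lit 0) (nat_lit 3) (nat_lit 1) (nat_lit 6) (nat_lit 75) (nat_lit 167) r9_75 r7_167 (nat_lit 24624079) (nat_lit 0) (nat_lit 0) (nat_lit 0x8009fe8fe) (nat_lit 562326791),
  Rx.mk (nat_lit 90) (nat_lit 2) (nat_lit 3) (nat_lit 1) (nat_lit 7) (nat_lit 77) (nat_lit 172) r9_77 r7_172 (nat_lit 0) (nat_lit 0) (nat_lit 0) (nat_lit 0x8017985b4) (nat_lit 536870912),
  Rx.mk (nat_lit 91) (nat_lit 3) (nat_lit 3) (nat_lit 1) (nat_lit 7) (nat_lit 80) (nat_lit 169) r9_80 r7_169 (nat_lit 0) (nat_lit 0) (nat_lit 0) (nat_lit 0x8017985b4) (nat_lit 536870912),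
  Rx.mk (nat_lit 130) (nat_lit 2) (nat_lit 0) (nat_lit 2) (nat_lit 5) (nat_lit 72) (nat_lit 165) r9_72 r7_165 (nat_lit 0) (nat_lit 24741287) (nat_lit 0) (nat_lit 0x800788c14) (nat_lit 562595399),
  Rx.mk (nat_lit 146) (nat_lit 2) (nat_lit 2) (nat_lit 2) (nat_lit 7) (nat_lit 73) (nat_lit 174) r9_73 r7_174 (nat_lit 0) (nat_lit 0) (nat_lit 0) (nat_lit 0x8017985b4) (nat_lit 536870912),
  Rx.mk (nat_lit 154) (nat_lit 2) (nat_lit 3) (nat_lit 2) (nat_lit 7) (nat_lit 78) (nat_lit 173) r9_78 r7_173 (nat_lit 0) (nat_lit 0) (nat_lit 0) (nat_lit 0x8017985b4) (nat_lit 536870912),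
  Rx.mk (nat_lit 219) (nat_lit 3) (nat_lit 3) (nat_lit 3) (nat_lit 7) (nat_lit 81) (nat_lit 170) r9_81 r7_170 (nat_lit 0) (nat_lit 0) (nat_lit 0) (nat_lit 0x8017985b4) (nat_lit 536870912),
  Rx.mk (nat_lit 251) (nat_lit 3) (nat_lit 7) (nat_lit 3) (nat_lit 7) (nat_lit 82) (nat_lit 160) r9_82 r7_160 (nat_lit 0) (nat_lit 0) (nat_lit 0) (nat_lit 0x8017985b4) (nat_lit 536870912)]
noncomputable def e21_26 : List Rx := [
  Rx.mk (nat_lit 0) (nat_lit 0) (nat_lit 0) (nat_lit 0) (nat_lit 0) (nat_lit 86) (nat_lit 133) r9_86 r8_133 (nat_lit 94967087) (nat_lit 17870946) (nat_lit 18637644) (nat_lit 0x4127ec576) (nat_lit 1685261939),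
  Rx.mk (nat_lit 2) (nat_lit 2) (nat_lit 0) (nat_lit 0) (nat_lit 1) (nat_lit 88) (nat_lit 135) r9_88 r8_135 (nat_lit 0) (nat_lit 24700278) (nat_lit 29365924) (nat_lit 0x6a57b692c) (nat_lit 941876114),
  Rx.mk (nat_lit 24) (nat_lit 0) (nat_lit 3) (nat_lit 0) (nat_lit 2) (nat_lit 92) (nat_lit 138) r9_92 r8_138 (nat_lit 23390390) (nat_lit 0) (nat_lit 35165148) (nat_lit 0x65db9d3f8) (nat_lit 1018879500),
  Rx.mk (nat_lit 26) (nat_lit 2) (nat_lit 3) (nat_lit 0) (nat_lit 3) (nat_lit 94) (nat_lit 143) r9_94 r8_143 (nat_lit 0) (nat_lit 0) (nat_lit 24489661) (nat_lit 0x7ffa8f6de) (nat_lit 563135273),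
  Rx.mk (nat_lit 27) (nat_lit 3) (nat_lit 3) (nat_lit 0) (nat_lit 3) (nat_lit 96) (nat_lit 140) r9_96 r8_140 (nat_lit 0) (nat_lit 0) (nat_lit 24741287) (nat_lit 0x8017985b4) (nat_lit 561612199),
  Rx.mk (nat_lit 64) (nat_lit 0) (nat_lit 0) (nat_lit 1) (nat_lit 4) (nat_lit 87) (nat_lit 134) r9_87 r8_134 (nat_lit 82173125) (nat_lit 26394436) (nat_lit 0) (nat_lit 0x6a21a438e) (nat_lit 999789173),
  Rx.mk (nat_lit 66) (nat_lit 2) (nat_lit 0) (nat_lit 1) (nat_lit 5) (nat_lit 89) (nat_lit 136) r9_89 r8_136 (nat_lit 0) (nat_lit 24741287) (nat_lit 0) (nat_lit 0x8017985b4) (nat_lit 561612199),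
  Rx.mk (nat_lit 88) (nat_lit 0) (nat_lit 3) (nat_lit 1) (nat_lit 6) (nat_lit 93) (nat_lit 139) r9_93 r8_139 (nat_lit 24741287) (nat_lit 0) (nat_lit 0) (nat_lit 0x8017985b4) (nat_lit 561612199),
  Rx.mk (nat_lit 90) (nat_lit 2) (nat_lit 3) (nat_lit 1) (nat_lit 7) (nat_lit 95) (nat_lit 144) r9_95 r8_144 (nat_lit 0) (nat_lit 0) (nat_lit 0) (nat_lit 0x8017985b4) (nat_lit 536870912),
  Rx.mk (nat_lit 91) (nat_lit 3) (nat_lit 3) (nat_lit 1) (nat_lit 7) (nat_lit 97) (nat_lit 141) r9_97 r8_141 (nat_lit 0) (nat_lit 0) (nat_lit 0) (nat_lit 0x8017985b4) (nat_lit 536870912),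
  Rx.mk (nat_lit 130) (nat_lit 2) (nat_lit 0) (nat_lit 2) (nat_lit 5) (nat_lit 90) (nat_lit 137) r9_90 r8_137 (nat_lit 0) (nat_lit 24741287) (nat_lit 0) (nat_lit 0x7fffb92e0) (nat_lit 563069249),
  Rx.mk (nat_lit 146) (nat_lit 2) (nat_lit 2) (nat_lit 2) (nat_lit 7) (nat_lit 91) (nat_lit 145) r9_91 r8_145 (nat_lit 0) (nat_lit 0) (nat_lit 0) (nat_lit 0x8017985b4) (nat_lit 536870912),
  Rx.mk (nat_lit 219) (nat_lit 3) (nat_lit 3) (nat_lit 3) (nat_lit 7) (nat_lit 98) (nat_lit 142) r9_98 r8_142 (nat_lit 0) (nat_lit 0) (nat_lit 0) (nat_lit 0x8017985b4) (nat_lit 536870912)]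
noncomputable def e21_27 : List Rx := [
  Rx.mk (nat_lit 0) (nat_lit 0) (nat_lit 0) (nat_lit 0) (nat_lit 0) (nat_lit 99) (nat_lit 273) r9_99 r8_273 (nat_lit 46447449) (nat_lit 18790511) (nat_lit 15284300) (nat_lit 0x3cee725c4) (nat_lit 1702614672),
  Rx.mk (nat_lit 2) (nat_lit 2) (nat_lit 0) (nat_lit 0) (nat_lit 1) (nat_lit 100) (nat_lit 276) r9_100 r8_276 (nat_lit 0) (nat_lit 23999425) (nat_lit 26650245) (nat_lit 0x66dd7892e) (nat_lit 994688732),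
  Rx.mk (nat_lit 24) (nat_lit 0) (nat_lit 3) (nat_lit 0) (nat_lit 2) (nat_lit 103) (nat_lit 274) r9_103 r8_274 (nat_lit 23607638) (nat_lit 0) (nat_lit 24950323) (nat_lit 0x64fca11c2) (nat_lit 1022966473),
  Rx.mk (nat_lit 26) (nat_lit 2) (nat_lit 3) (nat_lit 0) (nat_lit 3) (nat_lit 104) (nat_lit 277) r9_104 r8_277 (nat_lit 0) (nat_lit 0) (nat_lit 24488988) (nat_lit 0x7ff6155ae) (nat_lit 563408300),
  Rx.mk (nat_lit 27) (nat_lit 3) (nat_lit 3) (nat_lit 0) (nat_lit 3) (nat_lit 106) (nat_lit 275) r9_106 r8_275 (nat_lit 0) (nat_lit 0) (nat_lit 24741287) (nat_lit 0x800b35984) (nat_lit 562371349),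
  Rx.mk (nat_lit 130) (nat_lit 2) (nat_lit 0) (nat_lit 2) (nat_lit 5) (nat_lit 101) (nat_lit 280) r9_101 r8_280 (nat_lit 0) (nat_lit 24741287) (nat_lit 0) (nat_lit 0x7ff1b40e6) (nat_lit 563929249),
  Rx.mk (nat_lit 146) (nat_lit 2) (nat_lit 2) (nat_lit 2) (nat_lit 7) (nat_lit 102) (nat_lit 282) r9_102 r8_282 (nat_lit 0) (nat_lit 0) (nat_lit 0) (nat_lit 0x8017985b4) (nat_lit 536870912),
  Rx.mk (nat_lit 154) (nat_lit 2) (nat_lit 3) (nat_lit 2) (nat_lit 7) (nat_lit 105) (nat_lit 281) r9_105 r8_281 (nat_lit 0) (nat_lit 0) (nat_lit 0) (nat_lit 0x8017985b4) (nat_lit 536870912),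
  Rx.mk (nat_lit 219) (nat_lit 3) (nat_lit 3) (nat_lit 3) (nat_lit 7) (nat_lit 107) (nat_lit 278) r9_107 r8_278 (nat_lit 0) (nat_lit 0) (nat_lit 0) (nat_lit 0x8017985b4) (nat_lit 536870912),
  Rx.mk (nat_lit 251) (nat_lit 3) (nat_lit 7) (nat_lit 3) (nat_lit 7) (nat_lit 108) (nat_lit 279) r9_108 r8_279 (nat_lit 0) (nat_lit 0) (nat_lit 0) (nat_lit 0x8017985b4) (nat_lit 536870912)]
noncomputable def e21_28 : List Rx := [
  Rx.mk (nat_lit 24) (nat_lit 0) (nat_lit 3) (nat_lit 0) (nat_lit 2) (nat_lit 136) (nat_lit 120) r9_136 r10_120 (nat_lit 28731315) (nat_lit 0) (nat_lit 40997444) (nat_lit 0x62fe769f4) (nat_lit 1076357921),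
  Rx.mk (nat_lit 26) (nat_lit 2) (nat_lit 3) (nat_lit 0) (nat_lit 3) (nat_lit 138) (nat_lit 124) r9_138 r10_124 (nat_lit 0) (nat_lit 0) (nat_lit 25252468) (nat_lit 0x7fd0be0b2) (nat_lit 566460430),
  Rx.mk (nat_lit 27) (nat_lit 3) (nat_lit 3) (nat_lit 0) (nat_lit 3) (nat_lit 141) (nat_lit 122) r9_141 r10_122 (nat_lit 0) (nat_lit 0) (nat_lit 24741287) (nat_lit 0x7fcd6a76c) (nat_lit 566141199),
  Rx.mk (nat_lit 59) (nat_lit 3) (nat_lit 7) (nat_lit 0) (nat_lit 3) (nat_lit 143) (nat_lit 117) r9_143 r10_117 (nat_lit 0) (nat_lit 0) (nat_lit 24741287) (nat_lit 0x7fffebc7c) (nat_lit 563058399),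
  Rx.mk (nat_lit 88) (nat_lit 0) (nat_lit 3) (nat_lit 1) (nat_lit 6) (nat_lit 137) (nat_lit 121) r9_137 r10_121 (nat_lit 24741287) (nat_lit 0) (nat_lit 0) (nat_lit 0x8017985b4) (nat_lit 561612199),
  Rx.mk (nat_lit 90) (nat_lit 2) (nat_lit 3) (nat_lit 1) (nat_lit 7) (nat_lit 139) (nat_lit 125) r9_139 r10_125 (nat_lit 0) (nat_lit 0) (nat_lit 0) (nat_lit 0x8017985b4) (nat_lit 536870912),
  Rx.mk (nat_lit 91) (nat_lit 3) (nat_lit 3) (nat_lit 1) (nat_lit 7) (nat_lit 142) (nat_lit 123) r9_142 r10_123 (nat_lit 0) (nat_lit 0) (nat_lit 0) (nat_lit 0x8017985b4) (nat_lit 536870912),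
  Rx.mk (nat_lit 123) (nat_lit 3) (nat_lit 7) (nat_lit 1) (nat_lit 7) (nat_lit 144) (nat_lit 118) r9_144 r10_118 (nat_lit 0) (nat_lit 0) (nat_lit 0) (nat_lit 0x8017985b4) (nat_lit 536870912),
  Rx.mk (nat_lit 154) (nat_lit 2) (nat_lit 3) (nat_lit 2) (nat_lit 7) (nat_lit 140) (nat_lit 126) r9_140 r10_126 (nat_lit 0) (nat_lit 0) (nat_lit 0) (nat_lit 0x8017985b4) (nat_lit 536870912),
  Rx.mk (nat_lit 251) (nat_lit 3) (nat_lit 7) (nat_lit 3) (nat_lit 7) (nat_lit 145) (nat_lit 119) r9_145 r10_119 (nat_lit 0) (nat_lit 0) (nat_lit 0) (nat_lit 0x8017985b4) (nat_lit 536870912)]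
noncomputable def e21_29 : List Rx := [
  Rx.mk (nat_lit 91) (nat_lit 3) (nat_lit 3) (nat_lit 1) (nat_lit 7) (nat_lit 146) (nat_lit 124) r9_146 r11_124 (nat_lit 0) (nat_lit 0) (nat_lit 0) (nat_lit 0x8017985b4) (nat_lit 536870912),
  Rx.mk (nat_lit 123) (nat_lit 3) (nat_lit 7) (nat_lit 1) (nat_lit 7) (nat_lit 147) (nat_lit 123) r9_147 r11_123 (nat_lit 0) (nat_lit 0) (nat_lit 0) (nat_lit 0x8017985b4) (nat_lit 536870912)]
noncomputable def e21_30 : List Rx := [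
  Rx.mk (nat_lit 355) (nat_lit 3) (nat_lit 4) (nat_lit 5) (nat_lit 5) (nat_lit 224) (nat_lit 262) r9_224 r5_262 (nat_lit 0) (nat_lit 27922064) (nat_lit 0) (nat_lit 0x7cb09d100) (nat_lit 619170926),
  Rx.mk (nat_lit 359) (nat_lit 7) (nat_lit 4) (nat_lit 5) (nat_lit 5) (nat_lit 225) (nat_lit 261) r9_225 r5_261 (nat_lit 0) (nat_lit 29963902) (nat_lit 0) (nat_lit 0x7c0aae942) (nat_lit 631646464),
  Rx.mk (nat_lit 363) (nat_lit 3) (nat_lit 5) (nat_lit 5) (nat_lit 7) (nat_lit 226) (nat_lit 264) r9_226 r5_264 (nat_lit 0) (nat_lit 0) (nat_lit 0) (nat_lit 0x8017985b4) (nat_lit 536870912),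
  Rx.mk (nat_lit 367) (nat_lit 7) (nat_lit 5) (nat_lit 5) (nat_lit 7) (nat_lit 227) (nat_lit 263) r9_227 r5_263 (nat_lit 0) (nat_lit 0) (nat_lit 0) (nat_lit 0x8017985b4) (nat_lit 536870912),
  Rx.mk (nat_lit 379) (nat_lit 3) (nat_lit 7) (nat_lit 5) (nat_lit 7) (nat_lit 228) (nat_lit 265) r9_228 r5_265 (nat_lit 0) (nat_lit 0) (nat_lit 0) (nat_lit 0x8017985b4) (nat_lit 536870912)]
noncomputable def e21_31 : List Rx := [
  Rx.mk (nat_lit 291) (nat_lit 3) (nat_lit 4) (nat_lit 4) (nat_lit 1) (nat_lit 229) (nat_lit 319) r9_229 r11_319 (nat_lit 0) (nat_lit 47287016) (nat_lit 47287016) (nat_lit 0x7cbaf48b0) (nat_lit 685204344),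
  Rx.mk (nat_lit 295) (nat_lit 7) (nat_lit 4) (nat_lit 4) (nat_lit 1) (nat_lit 231) (nat_lit 318) r9_231 r11_318 (nat_lit 0) (nat_lit 43848106) (nat_lit 43672610) (nat_lit 0x78800f28a) (nat_lit 746426178),
  Rx.mk (nat_lit 311) (nat_lit 7) (nat_lit 6) (nat_lit 4) (nat_lit 3) (nat_lit 235) (nat_lit 321) r9_235 r11_321 (nat_lit 0) (nat_lit 0) (nat_lit 24741287) (nat_lit 0x8017985b4) (nat_lit 561612199),
  Rx.mk (nat_lit 315) (nat_lit 3) (nat_lit 7) (nat_lit 4) (nat_lit 3) (nat_lit 238) (nat_lit 320) r9_238 r11_320 (nat_lit 0) (nat_lit 0) (nat_lit 24741287) (nat_lit 0x8017985b4) (nat_lit 561612199),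
  Rx.mk (nat_lit 355) (nat_lit 3) (nat_lit 4) (nat_lit 5) (nat_lit 5) (nat_lit 230) (nat_lit 323) r9_230 r11_323 (nat_lit 0) (nat_lit 24741287) (nat_lit 0) (nat_lit 0x8017985b4) (nat_lit 561612199),
  Rx.mk (nat_lit 359) (nat_lit 7) (nat_lit 4) (nat_lit 5) (nat_lit 5) (nat_lit 232) (nat_lit 322) r9_232 r11_322 (nat_lit 0) (nat_lit 24741287) (nat_lit 0) (nat_lit 0x8017985b4) (nat_lit 561612199),
  Rx.mk (nat_lit 363) (nat_lit 3) (nat_lit 5) (nat_lit 5) (nat_lit 7) (nat_lit 233) (nat_lit 325) r9_233 r11_325 (nat_lit 0) (nat_lit 0) (nat_lit 0) (nat_lit 0x8017985b4) (nat_lit 536870912),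
  Rx.mk (nat_lit 367) (nat_lit 7) (nat_lit 5) (nat_lit 5) (nat_lit 7) (nat_lit 234) (nat_lit 324) r9_234 r11_324 (nat_lit 0) (nat_lit 0) (nat_lit 0) (nat_lit 0x8017985b4) (nat_lit 536870912),
  Rx.mk (nat_lit 375) (nat_lit 7) (nat_lit 6) (nat_lit 5) (nat_lit 7) (nat_lit 236) (nat_lit 327) r9_236 r11_327 (nat_lit 0) (nat_lit 0) (nat_lit 0) (nat_lit 0x8017985b4) (nat_lit 536870912),
  Rx.mk (nat_lit 379) (nat_lit 3) (nat_lit 7) (nat_lit 5) (nat_lit 7) (nat_lit 239) (nat_lit 326) r9_239 r11_326 (nat_lit 0) (nat_lit 0) (nat_lit 0) (nat_lit 0x8017985b4) (nat_lit 536870912),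
  Rx.mk (nat_lit 439) (nat_lit 7) (nat_lit 6) (nat_lit 6) (nat_lit 7) (nat_lit 237) (nat_lit 329) r9_237 r11_329 (nat_lit 0) (nat_lit 0) (nat_lit 0) (nat_lit 0x8017985b4) (nat_lit 536870912),
  Rx.mk (nat_lit 507) (nat_lit 3) (nat_lit 7) (nat_lit 7) (nat_lit 7) (nat_lit 240) (nat_lit 328) r9_240 r11_328 (nat_lit 0) (nat_lit 0) (nat_lit 0) (nat_lit 0x8017985b4) (nat_lit 536870912)]
noncomputable def e21_32 : List Rx := [
  Rx.mk (nat_lit 99) (nat_lit 3) (nat_lit 4) (nat_lit 1) (nat_lit 5) (nat_lit 241) (nat_lit 319) r9_241 r6_319 (nat_lit 0) (nat_lit 25123569) (nat_lit 0) (nat_lit 0x7f345289a) (nat_lit 575983031),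
  Rx.mk (nat_lit 107) (nat_lit 3) (nat_lit 5) (nat_lit 1) (nat_lit 7) (nat_lit 242) (nat_lit 320) r9_242 r6_320 (nat_lit 0) (nat_lit 0) (nat_lit 0) (nat_lit 0x8017985b4) (nat_lit 536870912),
  Rx.mk (nat_lit 123) (nat_lit 3) (nat_lit 7) (nat_lit 1) (nat_lit 7) (nat_lit 243) (nat_lit 321) r9_243 r6_321 (nat_lit 0) (nat_lit 0) (nat_lit 0) (nat_lit 0x8017985b4) (nat_lit 536870912)]
noncomputable def e21_33 : List Rx := [
  Rx.mk (nat_lit 123) (nat_lit 3) (nat_lit 7) (nat_lit 1) (nat_lit 7) (nat_lit 215) (nat_lit 266) r9_215 r5_266 (nat_lit 0) (nat_lit 0) (nat_lit 0) (nat_lit 0x7fd940442) (nat_lit 540690962)]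
noncomputable def e21_34 : List Rx := [
  Rx.mk (nat_lit 59) (nat_lit 3) (nat_lit 7) (nat_lit 0) (nat_lit 3) (nat_lit 216) (nat_lit 330) r9_216 r11_330 (nat_lit 0) (nat_lit 0) (nat_lit 24741287) (nat_lit 0x8017985b4) (nat_lit 561612199),
  Rx.mk (nat_lit 123) (nat_lit 3) (nat_lit 7) (nat_lit 1) (nat_lit 7) (nat_lit 217) (nat_lit 331) r9_217 r11_331 (nat_lit 0) (nat_lit 0) (nat_lit 0) (nat_lit 0x8017985b4) (nat_lit 536870912),
  Rx.mk (nat_lit 251) (nat_lit 3) (nat_lit 7) (nat_lit 3) (nat_lit 7) (nat_lit 218) (nat_lit 332) r9_218 r11_332 (nat_lit 0) (nat_lit 0) (nat_lit 0) (nat_lit 0x8017985b4) (nat_lit 536870912)]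
noncomputable def e21_35 : List Rx := [
  Rx.mk (nat_lit 99) (nat_lit 3) (nat_lit 4) (nat_lit 1) (nat_lit 5) (nat_lit 219) (nat_lit 314) r9_219 r6_314 (nat_lit 0) (nat_lit 24741287) (nat_lit 0) (nat_lit 0x7fbf624bc) (nat_lit 567020899),
  Rx.mk (nat_lit 107) (nat_lit 3) (nat_lit 5) (nat_lit 1) (nat_lit 7) (nat_lit 221) (nat_lit 316) r9_221 r6_316 (nat_lit 0) (nat_lit 0) (nat_lit 0) (nat_lit 0x8017985b4) (nat_lit 536870912),
  Rx.mk (nat_lit 355) (nat_lit 3) (nat_lit 4) (nat_lit 5) (nat_lit 5) (nat_lit 220) (nat_lit 315) r9_220 r6_315 (nat_lit 0) (nat_lit 25547425) (nat_lit 0) (nat_lit 0x7ed7c15fe) (nat_lit 582171937),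
  Rx.mk (nat_lit 363) (nat_lit 3) (nat_lit 5) (nat_lit 5) (nat_lit 7) (nat_lit 222) (nat_lit 317) r9_222 r6_317 (nat_lit 0) (nat_lit 0) (nat_lit 0) (nat_lit 0x8017985b4) (nat_lit 536870912),
  Rx.mk (nat_lit 379) (nat_lit 3) (nat_lit 7) (nat_lit 5) (nat_lit 7) (nat_lit 223) (nat_lit 318) r9_223 r6_318 (nat_lit 0) (nat_lit 0) (nat_lit 0) (nat_lit 0x8017985b4) (nat_lit 536870912)]
noncomputable def e21_36 : List Rx := [
  Rx.mk (nat_lit 99) (nat_lit 3) (nat_lit 4) (nat_lit 1) (nat_lit 5) (nat_lit 244) (nat_lit 165) r9_244 r12_165 (nat_lit 0) (nat_lit 25288573) (nat_lit 0) (nat_lit 0x7f59c63d8) (nat_lit 573834985),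
  Rx.mk (nat_lit 107) (nat_lit 3) (nat_lit 5) (nat_lit 1) (nat_lit 7) (nat_lit 245) (nat_lit 166) r9_245 r12_166 (nat_lit 0) (nat_lit 0) (nat_lit 0) (nat_lit 0x8017985b4) (nat_lit 536870912),
  Rx.mk (nat_lit 123) (nat_lit 3) (nat_lit 7) (nat_lit 1) (nat_lit 7) (nat_lit 246) (nat_lit 167) r9_246 r12_167 (nat_lit 0) (nat_lit 0) (nat_lit 0) (nat_lit 0x8017985b4) (nat_lit 536870912),
  Rx.mk (nat_lit 379) (nat_lit 3) (nat_lit 7) (nat_lit 5) (nat_lit 7) (nat_lit 247) (nat_lit 168) r9_247 r12_168 (nat_lit 0) (nat_lit 0) (nat_lit 0) (nat_lit 0x8017985b4) (nat_lit 536870912)]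
noncomputable def e21_37 : List Rx := [
  Rx.mk (nat_lit 72) (nat_lit 0) (nat_lit 1) (nat_lit 1) (nat_lit 6) (nat_lit 250) (nat_lit 295) r9_250 r0_295 (nat_lit 25628035) (nat_lit 0) (nat_lit 0) (nat_lit 0x7c71b8854) (nat_lit 620861597),
  Rx.mk (nat_lit 73) (nat_lit 1) (nat_lit 1) (nat_lit 1) (nat_lit 7) (nat_lit 251) (nat_lit 298) r9_251 r0_298 (nat_lit 0) (nat_lit 0) (nat_lit 0) (nat_lit 0x7fa3dbc34) (nat_lit 543982362),
  Rx.mk (nat_lit 75) (nat_lit 3) (nat_lit 1) (nat_lit 1) (nat_lit 7) (nat_lit 252) (nat_lit 299) r9_252 r0_299 (nat_lit 0) (nat_lit 0) (nat_lit 0) (nat_lit 0x7fed20192) (nat_lit 539467362),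
  Rx.mk (nat_lit 104) (nat_lit 0) (nat_lit 5) (nat_lit 1) (nat_lit 6) (nat_lit 253) (nat_lit 294) r9_253 r0_294 (nat_lit 27813133) (nat_lit 0) (nat_lit 0) (nat_lit 0x7ac35ec14) (nat_lit 650184545),
  Rx.mk (nat_lit 105) (nat_lit 1) (nat_lit 5) (nat_lit 1) (nat_lit 7) (nat_lit 255) (nat_lit 297) r9_255 r0_297 (nat_lit 0) (nat_lit 0) (nat_lit 0) (nat_lit 0x7fe5db210) (nat_lit 539920162),
  Rx.mk (nat_lit 360) (nat_lit 0) (nat_lit 5) (nat_lit 5) (nat_lit 6) (nat_lit 254) (nat_lit 293) r9_254 r0_293 (nat_lit 27880557) (nat_lit 0) (nat_lit 0) (nat_lit 0x735c96bb4) (nat_lit 769863869),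
  Rx.mk (nat_lit 361) (nat_lit 1) (nat_lit 5) (nat_lit 5) (nat_lit 7) (nat_lit 256) (nat_lit 296) r9_256 r0_296 (nat_lit 0) (nat_lit 0) (nat_lit 0) (nat_lit 0x7ff5e805e) (nat_lit 538935112)]
noncomputable def e21_38 : List Rx := [
  Rx.mk (nat_lit 105) (nat_lit 1) (nat_lit 5) (nat_lit 1) (nat_lit 7) (nat_lit 248) (nat_lit 291) r9_248 r0_291 (nat_lit 0) (nat_lit 0) (nat_lit 0) (nat_lit 0x7f706cec0) (nat_lit 547165662),
  Rx.mk (nat_lit 361) (nat_lit 1) (nat_lit 5) (nat_lit 5) (nat_lit 7) (nat_lit 249) (nat_lit 292) r9_249 r0_292 (nat_lit 0) (nat_lit 0) (nat_lit 0) (nat_lit 0x7fa7f11e8) (nat_lit 543731812)]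
noncomputable def e21_39 : List Rx := [
  Rx.mk (nat_lit 73) (nat_lit 1) (nat_lit 1) (nat_lit 1) (nat_lit 7) (nat_lit 257) (nat_lit 411) r9_257 r7_411 (nat_lit 0) (nat_lit 0) (nat_lit 0) (nat_lit 0x8017985b4) (nat_lit 536870912),
  Rx.mk (nat_lit 105) (nat_lit 1) (nat_lit 5) (nat_lit 1) (nat_lit 7) (nat_lit 258) (nat_lit 410) r9_258 r7_410 (nat_lit 0) (nat_lit 0) (nat_lit 0) (nat_lit 0x8017985b4) (nat_lit 536870912),
  Rx.mk (nat_lit 361) (nat_lit 1) (nat_lit 5) (nat_lit 5) (nat_lit 7) (nat_lit 259) (nat_lit 409) r9_259 r7_409 (nat_lit 0) (nat_lit 0) (nat_lit 0) (nat_lit 0x8017985b4) (nat_lit 536870912)]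
noncomputable def e21_40 : List Rx := [
  Rx.mk (nat_lit 365) (nat_lit 5) (nat_lit 5) (nat_lit 5) (nat_lit 7) (nat_lit 293) (nat_lit 315) r9_293 r2_315 (nat_lit 0) (nat_lit 0) (nat_lit 0) (nat_lit 0x8017985b4) (nat_lit 536870912)]
noncomputable def e21_41 : List Rx := [
  Rx.mk (nat_lit 365) (nat_lit 5) (nat_lit 5) (nat_lit 5) (nat_lit 7) (nat_lit 298) (nat_lit 298) r9_298 r9_298 (nat_lit 0) (nat_lit 0) (nat_lit 0) (nat_lit 0x8017985b4) (nat_lit 536870912)]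
noncomputable def e21_42 : List Rx := [
  Rx.mk (nat_lit 365) (nat_lit 5) (nat_lit 5) (nat_lit 5) (nat_lit 7) (nat_lit 299) (nat_lit 266) r9_299 r9_266 (nat_lit 0) (nat_lit 0) (nat_lit 0) (nat_lit 0x8017985b4) (nat_lit 536870912)]
noncomputable def e21_43 : List Rx := [
  Rx.mk (nat_lit 105) (nat_lit 1) (nat_lit 5) (nat_lit 1) (nat_lit 7) (nat_lit 290) (nat_lit 287) r9_290 r1_287 (nat_lit 0) (nat_lit 0) (nat_lit 0) (nat_lit 0x8017985b4) (nat_lit 536870912),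
  Rx.mk (nat_lit 361) (nat_lit 1) (nat_lit 5) (nat_lit 5) (nat_lit 7) (nat_lit 291) (nat_lit 288) r9_291 r1_288 (nat_lit 0) (nat_lit 0) (nat_lit 0) (nat_lit 0x8017985b4) (nat_lit 536870912),
  Rx.mk (nat_lit 365) (nat_lit 5) (nat_lit 5) (nat_lit 5) (nat_lit 7) (nat_lit 292) (nat_lit 289) r9_292 r1_289 (nat_lit 0) (nat_lit 0) (nat_lit 0) (nat_lit 0x8017985b4) (nat_lit 536870912)]
noncomputable def e21_44 : List Rx := [
  Rx.mk (nat_lit 73) (nat_lit 1) (nat_lit 1) (nat_lit 1) (nat_lit 7) (nat_lit 294) (nat_lit 330) r9_294 r8_330 (nat_lit 0) (nat_lit 0) (nat_lit 0) (nat_lit 0x8017985b4) (nat_lit 536870912),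
  Rx.mk (nat_lit 105) (nat_lit 1) (nat_lit 5) (nat_lit 1) (nat_lit 7) (nat_lit 295) (nat_lit 329) r9_295 r8_329 (nat_lit 0) (nat_lit 0) (nat_lit 0) (nat_lit 0x8017985b4) (nat_lit 536870912),
  Rx.mk (nat_lit 361) (nat_lit 1) (nat_lit 5) (nat_lit 5) (nat_lit 7) (nat_lit 296) (nat_lit 328) r9_296 r8_328 (nat_lit 0) (nat_lit 0) (nat_lit 0) (nat_lit 0x8017985b4) (nat_lit 536870912),
  Rx.mk (nat_lit 365) (nat_lit 5) (nat_lit 5) (nat_lit 5) (nat_lit 7) (nat_lit 297) (nat_lit 327) r9_297 r8_327 (nat_lit 0) (nat_lit 0) (nat_lit 0) (nat_lit 0x8017985b4) (nat_lit 536870912)]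
noncomputable def e21_45 : List Rx := [
  Rx.mk (nat_lit 72) (nat_lit 0) (nat_lit 1) (nat_lit 1) (nat_lit 6) (nat_lit 286) (nat_lit 290) r9_286 r1_290 (nat_lit 24741287) (nat_lit 0) (nat_lit 0) (nat_lit 0x7fa9dd1b4) (nat_lit 568325299),
  Rx.mk (nat_lit 73) (nat_lit 1) (nat_lit 1) (nat_lit 1) (nat_lit 7) (nat_lit 287) (nat_lit 291) r9_287 r1_291 (nat_lit 0) (nat_lit 0) (nat_lit 0) (nat_lit 0x8017985b4) (nat_lit 536870912),
  Rx.mk (nat_lit 75) (nat_lit 3) (nat_lit 1) (nat_lit 1) (nat_lit 7) (nat_lit 288) (nat_lit 292) r9_288 r1_292 (nat_lit 0) (nat_lit 0) (nat_lit 0) (nat_lit 0x8017985b4) (nat_lit 536870912)]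
noncomputable def e21_46 : List Rx := [
  Rx.mk (nat_lit 64) (nat_lit 0) (nat_lit 0) (nat_lit 1) (nat_lit 4) (nat_lit 260) (nat_lit 316) r9_260 r2_316 (nat_lit 40876841) (nat_lit 67893355) (nat_lit 0) (nat_lit 0x6a127e06c) (nat_lit 1000948958),
  Rx.mk (nat_lit 67) (nat_lit 3) (nat_lit 0) (nat_lit 1) (nat_lit 5) (nat_lit 261) (nat_lit 319) r9_261 r2_319 (nat_lit 0) (nat_lit 24741287) (nat_lit 0) (nat_lit 0x8017985b4) (nat_lit 561612199),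
  Rx.mk (nat_lit 72) (nat_lit 0) (nat_lit 1) (nat_lit 1) (nat_lit 6) (nat_lit 262) (nat_lit 317) r9_262 r2_317 (nat_lit 24603401) (nat_lit 0) (nat_lit 0) (nat_lit 0x8007974d0) (nat_lit 562452963),
  Rx.mk (nat_lit 73) (nat_lit 1) (nat_lit 1) (nat_lit 1) (nat_lit 7) (nat_lit 263) (nat_lit 318) r9_263 r2_318 (nat_lit 0) (nat_lit 0) (nat_lit 0) (nat_lit 0x8017985b4) (nat_lit 536870912),
  Rx.mk (nat_lit 75) (nat_lit 3) (nat_lit 1) (nat_lit 1) (nat_lit 7) (nat_lit 264) (nat_lit 320) r9_264 r2_320 (nat_lit 0) (nat_lit 0) (nat_lit 0) (nat_lit 0x8017985b4) (nat_lit 536870912),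
  Rx.mk (nat_lit 91) (nat_lit 3) (nat_lit 3) (nat_lit 1) (nat_lit 7) (nat_lit 265) (nat_lit 321) r9_265 r2_321 (nat_lit 0) (nat_lit 0) (nat_lit 0) (nat_lit 0x8017985b4) (nat_lit 536870912)]
noncomputable def e21_47 : List Rx := [
  Rx.mk (nat_lit 73) (nat_lit 1) (nat_lit 1) (nat_lit 1) (nat_lit 7) (nat_lit 289) (nat_lit 326) r9_289 r8_326 (nat_lit 0) (nat_lit 0) (nat_lit 0) (nat_lit 0x8017985b4) (nat_lit 536870912)]
noncomputable def e21_48 : List Rx := [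
  Rx.mk (nat_lit 73) (nat_lit 1) (nat_lit 1) (nat_lit 1) (nat_lit 7) (nat_lit 266) (nat_lit 299) r9_266 r9_299 (nat_lit 0) (nat_lit 0) (nat_lit 0) (nat_lit 0x8017985b4) (nat_lit 536870912)]
noncomputable def e21_49 : List Rx := [
  Rx.mk (nat_lit 0) (nat_lit 0) (nat_lit 0) (nat_lit 0) (nat_lit 0) (nat_lit 267) (nat_lit 267) r9_267 r9_267 (nat_lit 112948378) (nat_lit 19947850) (nat_lit 19947850) (nat_lit 0x42f38d800) (nat_lit 1677613190),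
  Rx.mk (nat_lit 2) (nat_lit 2) (nat_lit 0) (nat_lit 0) (nat_lit 1) (nat_lit 269) (nat_lit 272) r9_269 r9_272 (nat_lit 0) (nat_lit 40541115) (nat_lit 33468687) (nat_lit 0x6c692da82) (nat_lit 928375014),
  Rx.mk (nat_lit 3) (nat_lit 3) (nat_lit 0) (nat_lit 0) (nat_lit 1) (nat_lit 272) (nat_lit 269) r9_272 r9_269 (nat_lit 0) (nat_lit 33468687) (nat_lit 40541115) (nat_lit 0x6c692da82) (nat_lit 928375014),
  Rx.mk (nat_lit 8) (nat_lit 0) (nat_lit 1) (nat_lit 0) (nat_lit 2) (nat_lit 274) (nat_lit 268) r9_274 r9_268 (nat_lit 36644786) (nat_lit 0) (nat_lit 58482756) (nat_lit 0x665409c74) (nat_lit 1047842904),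
  Rx.mk (nat_lit 10) (nat_lit 2) (nat_lit 1) (nat_lit 0) (nat_lit 3) (nat_lit 277) (nat_lit 273) r9_277 r9_273 (nat_lit 0) (nat_lit 0) (nat_lit 24741287) (nat_lit 0x8017985b4) (nat_lit 561612199),
  Rx.mk (nat_lit 11) (nat_lit 3) (nat_lit 1) (nat_lit 0) (nat_lit 3) (nat_lit 280) (nat_lit 270) r9_280 r9_270 (nat_lit 0) (nat_lit 0) (nat_lit 24741287) (nat_lit 0x8017985b4) (nat_lit 561612199),
  Rx.mk (nat_lit 27) (nat_lit 3) (nat_lit 3) (nat_lit 0) (nat_lit 3) (nat_lit 283) (nat_lit 271) r9_283 r9_271 (nat_lit 0) (nat_lit 0) (nat_lit 24741287) (nat_lit 0x8017985b4) (nat_lit 561612199),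
  Rx.mk (nat_lit 64) (nat_lit 0) (nat_lit 0) (nat_lit 1) (nat_lit 4) (nat_lit 268) (nat_lit 274) r9_268 r9_274 (nat_lit 36644786) (nat_lit 58482756) (nat_lit 0) (nat_lit 0x665409c74) (nat_lit 1047842904),
  Rx.mk (nat_lit 66) (nat_lit 2) (nat_lit 0) (nat_lit 1) (nat_lit 5) (nat_lit 270) (nat_lit 280) r9_270 r9_280 (nat_lit 0) (nat_lit 24741287) (nat_lit 0) (nat_lit 0x8017985b4) (nat_lit 561612199),
  Rx.mk (nat_lit 67) (nat_lit 3) (nat_lit 0) (nat_lit 1) (nat_lit 5) (nat_lit 273) (nat_lit 277) r9_273 r9_277 (nat_lit 0) (nat_lit 24741287) (nat_lit 0) (nat_lit 0x8017985b4) (nat_lit 561612199),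
  Rx.mk (nat_lit 72) (nat_lit 0) (nat_lit 1) (nat_lit 1) (nat_lit 6) (nat_lit 275) (nat_lit 275) r9_275 r9_275 (nat_lit 24741287) (nat_lit 0) (nat_lit 0) (nat_lit 0x8017985b4) (nat_lit 561612199),
  Rx.mk (nat_lit 73) (nat_lit 1) (nat_lit 1) (nat_lit 1) (nat_lit 7) (nat_lit 276) (nat_lit 276) r9_276 r9_276 (nat_lit 0) (nat_lit 0) (nat_lit 0) (nat_lit 0x8017985b4) (nat_lit 536870912),
  Rx.mk (nat_lit 74) (nat_lit 2) (nat_lit 1) (nat_lit 1) (nat_lit 7) (nat_lit 278) (nat_lit 281) r9_278 r9_281 (nat_lit 0) (nat_lit 0) (nat_lit 0) (nat_lit 0x8017985b4) (nat_lit 536870912),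
  Rx.mk (nat_lit 75) (nat_lit 3) (nat_lit 1) (nat_lit 1) (nat_lit 7) (nat_lit 281) (nat_lit 278) r9_281 r9_278 (nat_lit 0) (nat_lit 0) (nat_lit 0) (nat_lit 0x8017985b4) (nat_lit 536870912),
  Rx.mk (nat_lit 91) (nat_lit 3) (nat_lit 3) (nat_lit 1) (nat_lit 7) (nat_lit 284) (nat_lit 279) r9_284 r9_279 (nat_lit 0) (nat_lit 0) (nat_lit 0) (nat_lit 0x8017985b4) (nat_lit 536870912),
  Rx.mk (nat_lit 130) (nat_lit 2) (nat_lit 0) (nat_lit 2) (nat_lit 5) (nat_lit 271) (nat_lit 283) r9_271 r9_283 (nat_lit 0) (nat_lit 24741287) (nat_lit 0) (nat_lit 0x8017985b4) (nat_lit 561612199),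
  Rx.mk (nat_lit 138) (nat_lit 2) (nat_lit 1) (nat_lit 2) (nat_lit 7) (nat_lit 279) (nat_lit 284) r9_279 r9_284 (nat_lit 0) (nat_lit 0) (nat_lit 0) (nat_lit 0x8017985b4) (nat_lit 536870912),
  Rx.mk (nat_lit 146) (nat_lit 2) (nat_lit 2) (nat_lit 2) (nat_lit 7) (nat_lit 282) (nat_lit 285) r9_282 r9_285 (nat_lit 0) (nat_lit 0) (nat_lit 0) (nat_lit 0x8017985b4) (nat_lit 536870912),
  Rx.mk (nat_lit 219) (nat_lit 3) (nat_lit 3) (nat_lit 3) (nat_lit 7) (nat_lit 285) (nat_lit 282) r9_285 r9_282 (nat_lit 0) (nat_lit 0) (nat_lit 0) (nat_lit 0x8017985b4) (nat_lit 536870912)]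
noncomputable def e21_50 : List Rx := [
  Rx.mk (nat_lit 104) (nat_lit 0) (nat_lit 5) (nat_lit 1) (nat_lit 6) (nat_lit 300) (nat_lit 296) r9_300 r3_296 (nat_lit 36215805) (nat_lit 0) (nat_lit 0) (nat_lit 0x6837b1e8a) (nat_lit 958320217),
  Rx.mk (nat_lit 105) (nat_lit 1) (nat_lit 5) (nat_lit 1) (nat_lit 7) (nat_lit 302) (nat_lit 298) r9_302 r3_298 (nat_lit 0) (nat_lit 0) (nat_lit 0) (nat_lit 0x7f8a461c0) (nat_lit 545571162),
  Rx.mk (nat_lit 107) (nat_lit 3) (nat_lit 5) (nat_lit 1) (nat_lit 7) (nat_lit 304) (nat_lit 299) r9_304 r3_299 (nat_lit 0) (nat_lit 0) (nat_lit 0) (nat_lit 0x7ded52914) (nat_lit 571323512),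
  Rx.mk (nat_lit 360) (nat_lit 0) (nat_lit 5) (nat_lit 5) (nat_lit 6) (nat_lit 301) (nat_lit 295) r9_301 r3_295 (nat_lit 23806788) (nat_lit 0) (nat_lit 0) (nat_lit 0x6530a0838) (nat_lit 994848200),
  Rx.mk (nat_lit 361) (nat_lit 1) (nat_lit 5) (nat_lit 5) (nat_lit 7) (nat_lit 303) (nat_lit 297) r9_303 r3_297 (nat_lit 0) (nat_lit 0) (nat_lit 0) (nat_lit 0x8017985b4) (nat_lit 536870912)]
noncomputable def e21_51 : List Rx := [
  Rx.mk (nat_lit 75) (nat_lit 3) (nat_lit 1) (nat_lit 1) (nat_lit 7) (nat_lit 311) (nat_lit 314) r9_311 r4_314 (nat_lit 0) (nat_lit 0) (nat_lit 0) (nat_lit 0x8017985b4) (nat_lit 536870912),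
  Rx.mk (nat_lit 104) (nat_lit 0) (nat_lit 5) (nat_lit 1) (nat_lit 6) (nat_lit 312) (nat_lit 310) r9_312 r4_310 (nat_lit 30557758) (nat_lit 0) (nat_lit 0) (nat_lit 0x7f457f316) (nat_lit 580390720),
  Rx.mk (nat_lit 105) (nat_lit 1) (nat_lit 5) (nat_lit 1) (nat_lit 7) (nat_lit 314) (nat_lit 312) r9_314 r4_312 (nat_lit 0) (nat_lit 0) (nat_lit 0) (nat_lit 0x8017985b4) (nat_lit 536870912),
  Rx.mk (nat_lit 107) (nat_lit 3) (nat_lit 5) (nat_lit 1) (nat_lit 7) (nat_lit 316) (nat_lit 313) r9_316 r4_313 (nat_lit 0) (nat_lit 0) (nat_lit 0) (nat_lit 0x8017985b4) (nat_lit 536870912),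
  Rx.mk (nat_lit 360) (nat_lit 0) (nat_lit 5) (nat_lit 5) (nat_lit 6) (nat_lit 313) (nat_lit 309) r9_313 r4_309 (nat_lit 47490513) (nat_lit 0) (nat_lit 0) (nat_lit 0x7c0f81f64) (nat_lit 648924525),
  Rx.mk (nat_lit 361) (nat_lit 1) (nat_lit 5) (nat_lit 5) (nat_lit 7) (nat_lit 315) (nat_lit 311) r9_315 r4_311 (nat_lit 0) (nat_lit 0) (nat_lit 0) (nat_lit 0x8017985b4) (nat_lit 536870912)]
noncomputable def e21_52 : List Rx := [
  Rx.mk (nat_lit 104) (nat_lit 0) (nat_lit 5) (nat_lit 1) (nat_lit 6) (nat_lit 324) (nat_lit 290) r9_324 r5_290 (nat_lit 26942027) (nat_lit 0) (nat_lit 0) (nat_lit 0x7e5860594) (nat_lit 591515239),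
  Rx.mk (nat_lit 105) (nat_lit 1) (nat_lit 5) (nat_lit 1) (nat_lit 7) (nat_lit 325) (nat_lit 291) r9_325 r5_291 (nat_lit 0) (nat_lit 0) (nat_lit 0) (nat_lit 0x7ff2ca070) (nat_lit 539127012),
  Rx.mk (nat_lit 107) (nat_lit 3) (nat_lit 5) (nat_lit 1) (nat_lit 7) (nat_lit 326) (nat_lit 292) r9_326 r5_292 (nat_lit 0) (nat_lit 0) (nat_lit 0) (nat_lit 0x8017985b4) (nat_lit 536870912)]
noncomputable def e21_53 : List Rx := [
  Rx.mk (nat_lit 105) (nat_lit 1) (nat_lit 5) (nat_lit 1) (nat_lit 7) (nat_lit 305) (nat_lit 307) r9_305 r4_307 (nat_lit 0) (nat_lit 0) (nat_lit 0) (nat_lit 0x8017985b4) (nat_lit 536870912),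
  Rx.mk (nat_lit 361) (nat_lit 1) (nat_lit 5) (nat_lit 5) (nat_lit 7) (nat_lit 306) (nat_lit 308) r9_306 r4_308 (nat_lit 0) (nat_lit 0) (nat_lit 0) (nat_lit 0x8017985b4) (nat_lit 536870912)]
noncomputable def e21_54 : List Rx := [
  Rx.mk (nat_lit 105) (nat_lit 1) (nat_lit 5) (nat_lit 1) (nat_lit 7) (nat_lit 317) (nat_lit 332) r9_317 r10_332 (nat_lit 0) (nat_lit 0) (nat_lit 0) (nat_lit 0x8017985b4) (nat_lit 536870912),
  Rx.mk (nat_lit 361) (nat_lit 1) (nat_lit 5) (nat_lit 5) (nat_lit 7) (nat_lit 318) (nat_lit 331) r9_318 r10_331 (nat_lit 0) (nat_lit 0) (nat_lit 0) (nat_lit 0x8017985b4) (nat_lit 536870912)]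
noncomputable def e21_55 : List Rx := [
  Rx.mk (nat_lit 105) (nat_lit 1) (nat_lit 5) (nat_lit 1) (nat_lit 7) (nat_lit 327) (nat_lit 350) r9_327 r11_350 (nat_lit 0) (nat_lit 0) (nat_lit 0) (nat_lit 0x8017985b4) (nat_lit 536870912)]
noncomputable def e21_56 : List Rx := [
  Rx.mk (nat_lit 107) (nat_lit 3) (nat_lit 5) (nat_lit 1) (nat_lit 7) (nat_lit 309) (nat_lit 286) r9_309 r5_286 (nat_lit 0) (nat_lit 0) (nat_lit 0) (nat_lit 0x7ff9dad06) (nat_lit 538691612),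
  Rx.mk (nat_lit 360) (nat_lit 0) (nat_lit 5) (nat_lit 5) (nat_lit 6) (nat_lit 307) (nat_lit 287) r9_307 r5_287 (nat_lit 111344299) (nat_lit 0) (nat_lit 0) (nat_lit 0x6b103b6e6) (nat_lit 987492011),
  Rx.mk (nat_lit 361) (nat_lit 1) (nat_lit 5) (nat_lit 5) (nat_lit 7) (nat_lit 308) (nat_lit 288) r9_308 r5_288 (nat_lit 0) (nat_lit 0) (nat_lit 0) (nat_lit 0x7ff67effe) (nat_lit 538897862),
  Rx.mk (nat_lit 363) (nat_lit 3) (nat_lit 5) (nat_lit 5) (nat_lit 7) (nat_lit 310) (nat_lit 289) r9_310 r5_289 (nat_lit 0) (nat_lit 0) (nat_lit 0) (nat_lit 0x7ff760b48) (nat_lit 538843712)]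
noncomputable def e21_57 : List Rx := [
  Rx.mk (nat_lit 75) (nat_lit 3) (nat_lit 1) (nat_lit 1) (nat_lit 7) (nat_lit 319) (nat_lit 345) r9_319 r11_345 (nat_lit 0) (nat_lit 0) (nat_lit 0) (nat_lit 0x8017985b4) (nat_lit 536870912),
  Rx.mk (nat_lit 107) (nat_lit 3) (nat_lit 5) (nat_lit 1) (nat_lit 7) (nat_lit 322) (nat_lit 346) r9_322 r11_346 (nat_lit 0) (nat_lit 0) (nat_lit 0) (nat_lit 0x8017985b4) (nat_lit 536870912),
  Rx.mk (nat_lit 360) (nat_lit 0) (nat_lit 5) (nat_lit 5) (nat_lit 6) (nat_lit 320) (nat_lit 347) r9_320 r11_347 (nat_lit 34238693) (nat_lit 0) (nat_lit 0) (nat_lit 0x7ed4be032) (nat_lit 591026955),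
  Rx.mk (nat_lit 361) (nat_lit 1) (nat_lit 5) (nat_lit 5) (nat_lit 7) (nat_lit 321) (nat_lit 348) r9_321 r11_348 (nat_lit 0) (nat_lit 0) (nat_lit 0) (nat_lit 0x8017985b4) (nat_lit 536870912),
  Rx.mk (nat_lit 363) (nat_lit 3) (nat_lit 5) (nat_lit 5) (nat_lit 7) (nat_lit 323) (nat_lit 349) r9_323 r11_349 (nat_lit 0) (nat_lit 0) (nat_lit 0) (nat_lit 0x8017985b4) (nat_lit 536870912)]
noncomputable def e21 : List (List Rx) := [e21_0, e21_1, e21_2, e21_3, e21_4, e21_5, e21_6, e21_7, e21_8, e21_9, e21_10, e21_11, e21_12, e21_13, e21_14, e21_15, e21_16, e21_17, e21_18, e21_19, e21_20, e21_21, e21_22, e21_23, e21_24, e21_25, e21_26, e21_27, e21_28, e21_29, e21_30, e21_31, e21_32, e21_33, e21_34, e21_35, e21_36, e21_37, e21_38, e21_39, e21_40, e21_41, e21_42, e21_43, e21_44, e21_45, e21_46, e21_47, e21_48, e21_49, e21_50, e21_51, e21_52, e21_53, e21_54, e21_55, e21_56,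 e21_57]
noncomputable def e22_0 : List Rx := [
  Rx.mk (nat_lit 100) (nat_lit 4) (nat_lit 4) (nat_lit 1) (nat_lit 4) (nat_lit 248) (nat_lit 171) r0_248 r0_171 (nat_lit 1057520207) (nat_lit 19628) (nat_lit 0) (nat_lit 0x8001a79da) (nat_lit 1594326447),
  Rx.mk (nat_lit 108) (nat_lit 4) (nat_lit 5) (nat_lit 1) (nat_lit 6) (nat_lit 249) (nat_lit 172) r0_249 r0_172 (nat_lit 495476102) (nat_lit 0) (nat_lit 0) (nat_lit 0x7bfc24796) (nat_lit 1097908564)]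
noncomputable def e22_1 : List Rx := [
  Rx.mk (nat_lit 100) (nat_lit 4) (nat_lit 4) (nat_lit 1) (nat_lit 4) (nat_lit 269) (nat_lit 179) r0_269 r1_179 (nat_lit 1205034172) (nat_lit 62636) (nat_lit 0) (nat_lit 0x802a2cad6) (nat_lit 1739481320),
  Rx.mk (nat_lit 108) (nat_lit 4) (nat_lit 5) (nat_lit 1) (nat_lit 6) (nat_lit 270) (nat_lit 181) r0_270 r1_181 (nat_lit 72480076) (nat_lit 0) (nat_lit 0) (nat_lit 0x7991dfe78) (nat_lit 713984088),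
  Rx.mk (nat_lit 356) (nat_lit 4) (nat_lit 4) (nat_lit 5) (nat_lit 4) (nat_lit 265) (nat_lit 180) r0_265 r1_180 (nat_lit 67542365) (nat_lit 14461079) (nat_lit 0) (nat_lit 0x5cc089d90) (nat_lit 1189508356),
  Rx.mk (nat_lit 364) (nat_lit 4) (nat_lit 5) (nat_lit 5) (nat_lit 6) (nat_lit 266) (nat_lit 182) r0_266 r1_182 (nat_lit 30433232) (nat_lit 0) (nat_lit 0) (nat_lit 0x7d7bf805c) (nat_lit 608923094),
  Rx.mk (nat_lit 372) (nat_lit 4) (nat_lit 6) (nat_lit 5) (nat_lit 6) (nat_lit 267) (nat_lit 183) r0_267 r1_183 (nat_lit 99141069) (nat_lit 0) (nat_lit 0) (nat_lit 0x7f0a1588e) (nat_lit 652491131),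
  Rx.mk (nat_lit 374) (nat_lit 6) (nat_lit 6) (nat_lit 5) (nat_lit 7) (nat_lit 268) (nat_lit 184) r0_268 r1_184 (nat_lit 0) (nat_lit 0) (nat_lit 0) (nat_lit 0x7c86d8338) (nat_lit 593842712)]
noncomputable def e22_2 : List Rx := [
  Rx.mk (nat_lit 356) (nat_lit 4) (nat_lit 4) (nat_lit 5) (nat_lit 4) (nat_lit 254) (nat_lit 180) r0_254 r2_180 (nat_lit 169414750) (nat_lit 32319873) (nat_lit 0) (nat_lit 0x5d7f70754) (nat_lit 1297226585),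
  Rx.mk (nat_lit 372) (nat_lit 4) (nat_lit 6) (nat_lit 5) (nat_lit 6) (nat_lit 255) (nat_lit 181) r0_255 r2_181 (nat_lit 31094968) (nat_lit 0) (nat_lit 0) (nat_lit 0x7d34113e2) (nat_lit 614066280),
  Rx.mk (nat_lit 374) (nat_lit 6) (nat_lit 6) (nat_lit 5) (nat_lit 7) (nat_lit 256) (nat_lit 182) r0_256 r2_182 (nat_lit 0) (nat_lit 0) (nat_lit 0) (nat_lit 0x8017985b4) (nat_lit 536870912)]
noncomputable def e22_3 : List Rx := [
  Rx.mk (nat_lit 44) (nat_lit 4) (nat_lit 5) (nat_lit 0) (nat_lit 2) (nat_lit 300) (nat_lit 146) r0_300 r3_146 (nat_lit 1823) (nat_lit 0) (nat_lit 3234) (nat_lit 0x7fffe0034) (nat_lit 536886669),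
  Rx.mk (nat_lit 47) (nat_lit 7) (nat_lit 5) (nat_lit 0) (nat_lit 3) (nat_lit 301) (nat_lit 149) r0_301 r3_149 (nat_lit 0) (nat_lit 0) (nat_lit 5037900) (nat_lit 0x7d56b4566) (nat_lit 585373512),
  Rx.mk (nat_lit 100) (nat_lit 4) (nat_lit 4) (nat_lit 1) (nat_lit 4) (nat_lit 302) (nat_lit 145) r0_302 r3_145 (nat_lit 13151) (nat_lit 5862) (nat_lit 0) (nat_lit 0x7a31628ba) (nat_lit 630796625),
  Rx.mk (nat_lit 103) (nat_lit 7) (nat_lit 4) (nat_lit 1) (nat_lit 5) (nat_lit 304) (nat_lit 148) r0_304 r3_148 (nat_lit 0) (nat_lit 1966223) (nat_lit 0) (nat_lit 0x7a0eec8a8) (nat_lit 635246135),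
  Rx.mk (nat_lit 108) (nat_lit 4) (nat_lit 5) (nat_lit 1) (nat_lit 6) (nat_lit 303) (nat_lit 147) r0_303 r3_147 (nat_lit 2227735) (nat_lit 0) (nat_lit 0) (nat_lit 0x7cd025f7c) (nat_lit 590865397),
  Rx.mk (nat_lit 111) (nat_lit 7) (nat_lit 5) (nat_lit 1) (nat_lit 7) (nat_lit 305) (nat_lit 150) r0_305 r3_150 (nat_lit 0) (nat_lit 0) (nat_lit 0) (nat_lit 0x81fa69626) (nat_lit 507231062)]
noncomputable def e22_4 : List Rx := [
  Rx.mk (nat_lit 100) (nat_lit 4) (nat_lit 4) (nat_lit 1) (nat_lit 4) (nat_lit 318) (nat_lit 155) r0_318 r4_155 (nat_lit 125045575) (nat_lit 2195696) (nat_lit 0) (nat_lit 0x6ae14ea2c) (nat_lit 1005937833),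
  Rx.mk (nat_lit 103) (nat_lit 7) (nat_lit 4) (nat_lit 1) (nat_lit 5) (nat_lit 320) (nat_lit 157) r0_320 r4_157 (nat_lit 0) (nat_lit 9212328) (nat_lit 0) (nat_lit 0x785000486) (nat_lit 671079090),
  Rx.mk (nat_lit 108) (nat_lit 4) (nat_lit 5) (nat_lit 1) (nat_lit 6) (nat_lit 319) (nat_lit 156) r0_319 r4_156 (nat_lit 25377028) (nat_lit 0) (nat_lit 0) (nat_lit 0x7f22d5c02) (nat_lit 577258190),
  Rx.mk (nat_lit 111) (nat_lit 7) (nat_lit 5) (nat_lit 1) (nat_lit 7) (nat_lit 321) (nat_lit 158) r0_321 r4_158 (nat_lit 0) (nat_lit 0) (nat_lit 0) (nat_lit 0x80b12ecdc) (nat_lit 527417312)]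
noncomputable def e22_5 : List Rx := [
  Rx.mk (nat_lit 36) (nat_lit 4) (nat_lit 4) (nat_lit 0) (nat_lit 0) (nat_lit 330) (nat_lit 152) r0_330 r5_152 (nat_lit 246635775) (nat_lit 4746) (nat_lit 4295) (nat_lit 0x7ffebcf68) (nat_lit 783597078),
  Rx.mk (nat_lit 39) (nat_lit 7) (nat_lit 4) (nat_lit 0) (nat_lit 1) (nat_lit 332) (nat_lit 158) r0_332 r5_158 (nat_lit 0) (nat_lit 9046091) (nat_lit 9515140) (nat_lit 0x640679402) (nat_lit 1008402593),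
  Rx.mk (nat_lit 44) (nat_lit 4) (nat_lit 5) (nat_lit 0) (nat_lit 2) (nat_lit 331) (nat_lit 155) r0_331 r5_155 (nat_lit 12431881) (nat_lit 0) (nat_lit 18467620) (nat_lit 0x77229ca54) (nat_lit 711720913),
  Rx.mk (nat_lit 47) (nat_lit 7) (nat_lit 5) (nat_lit 0) (nat_lit 3) (nat_lit 333) (nat_lit 160) r0_333 r5_160 (nat_lit 0) (nat_lit 0) (nat_lit 20486354) (nat_lit 0x7e13133ec) (nat_lit 589334166),
  Rx.mk (nat_lit 63) (nat_lit 7) (nat_lit 7) (nat_lit 0) (nat_lit 3) (nat_lit 334) (nat_lit 162) r0_334 r5_162 (nat_lit 0) (nat_lit 0) (nat_lit 25423219) (nat_lit 0x71dceb686) (nat_lit 791634281),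
  Rx.mk (nat_lit 100) (nat_lit 4) (nat_lit 4) (nat_lit 1) (nat_lit 4) (nat_lit 335) (nat_lit 153) r0_335 r5_153 (nat_lit 72835185) (nat_lit 7966129) (nat_lit 0) (nat_lit 0x768dbcfb0) (nat_lit 771020776),
  Rx.mk (nat_lit 103) (nat_lit 7) (nat_lit 4) (nat_lit 1) (nat_lit 5) (nat_lit 337) (nat_lit 159) r0_337 r5_159 (nat_lit 0) (nat_lit 15727667) (nat_lit 0) (nat_lit 0x785988350) (nat_lit 677032129),
  Rx.mk (nat_lit 108) (nat_lit 4) (nat_lit 5) (nat_lit 1) (nat_lit 6) (nat_lit 336) (nat_lit 156) r0_336 r5_156 (nat_lit 32356529) (nat_lit 0) (nat_lit 0) (nat_lit 0x7e416a34e) (nat_lit 598396941),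
  Rx.mk (nat_lit 111) (nat_lit 7) (nat_lit 5) (nat_lit 1) (nat_lit 7) (nat_lit 338) (nat_lit 161) r0_338 r5_161 (nat_lit 0) (nat_lit 0) (nat_lit 0) (nat_lit 0x7f6c75efc) (nat_lit 547366462),
  Rx.mk (nat_lit 127) (nat_lit 7) (nat_lit 7) (nat_lit 1) (nat_lit 7) (nat_lit 339) (nat_lit 163) r0_339 r5_163 (nat_lit 0) (nat_lit 0) (nat_lit 0) (nat_lit 0x804d1b93e) (nat_lit 533580312),
  Rx.mk (nat_lit 228) (nat_lit 4) (nat_lit 4) (nat_lit 3) (nat_lit 4) (nat_lit 340) (nat_lit 154) r0_340 r5_154 (nat_lit 43528741) (nat_lit 2248887) (nat_lit 0) (nat_lit 0x7781485e4) (nat_lit 720358340),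
  Rx.mk (nat_lit 236) (nat_lit 4) (nat_lit 5) (nat_lit 3) (nat_lit 6) (nat_lit 341) (nat_lit 157) r0_341 r5_157 (nat_lit 4283816) (nat_lit 0) (nat_lit 0) (nat_lit 0x76dca6428) (nat_lit 689405378)]
noncomputable def e22_6 : List Rx := [
  Rx.mk (nat_lit 59) (nat_lit 3) (nat_lit 7) (nat_lit 0) (nat_lit 3) (nat_lit 48) (nat_lit 95) r0_48 r3_95 (nat_lit 0) (nat_lit 0) (nat_lit 48839) (nat_lit 0x6e7903e32) (nat_lit 820364901),
  Rx.mk (nat_lit 231) (nat_lit 7) (nat_lit 4) (nat_lit 3) (nat_lit 5) (nat_lit 49) (nat_lit 93) r0_49 r3_93 (nat_lit 0) (nat_lit 12614) (nat_lit 0) (nat_lit 0x7ff74418c) (nat_lit 537440126),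
  Rx.mk (nat_lit 251) (nat_lit 3) (nat_lit 7) (nat_lit 3) (nat_lit 7) (nat_lit 51) (nat_lit 96) r0_51 r3_96 (nat_lit 0) (nat_lit 0) (nat_lit 0) (nat_lit 0x7f14b983a) (nat_lit 552804862),
  Rx.mk (nat_lit 255) (nat_lit 7) (nat_lit 7) (nat_lit 3) (nat_lit 7) (nat_lit 50) (nat_lit 94) r0_50 r3_94 (nat_lit 0) (nat_lit 0) (nat_lit 0) (nat_lit 0x803739724) (nat_lit 534831362),
  Rx.mk (nat_lit 484) (nat_lit 4) (nat_lit 4) (nat_lit 7) (nat_lit 4) (nat_lit 43) (nat_lit 91) r0_43 r3_91 (nat_lit 2481) (nat_lit 966) (nat_lit 0) (nat_lit 0x82288f6ae) (nat_lit 503955459),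
  Rx.mk (nat_lit 487) (nat_lit 7) (nat_lit 4) (nat_lit 7) (nat_lit 5) (nat_lit 46) (nat_lit 92) r0_46 r3_92 (nat_lit 0) (nat_lit 1916670) (nat_lit 0) (nat_lit 0x7bfb383c8) (nat_lit 604200682),
  Rx.mk (nat_lit 500) (nat_lit 4) (nat_lit 6) (nat_lit 7) (nat_lit 6) (nat_lit 44) (nat_lit 97) r0_44 r3_97 (nat_lit 7927509) (nat_lit 0) (nat_lit 0) (nat_lit 0x72604c6ec) (nat_lit 765358121),
  Rx.mk (nat_lit 502) (nat_lit 6) (nat_lit 6) (nat_lit 7) (nat_lit 7) (nat_lit 45) (nat_lit 99) r0_45 r3_99 (nat_lit 0) (nat_lit 0) (nat_lit 0) (nat_lit 0x789a9bc84) (nat_lit 657134512),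
  Rx.mk (nat_lit 503) (nat_lit 7) (nat_lit 6) (nat_lit 7) (nat_lit 7) (nat_lit 47) (nat_lit 98) r0_47 r3_98 (nat_lit 0) (nat_lit 0) (nat_lit 0) (nat_lit 0x7c1fb6a38) (nat_lit 600372212)]
noncomputable def e22_7 : List Rx := [
  Rx.mk (nat_lit 308) (nat_lit 4) (nat_lit 6) (nat_lit 4) (nat_lit 2) (nat_lit 91) (nat_lit 94) r0_91 r0_94 (nat_lit 319672734) (nat_lit 0) (nat_lit 13764543) (nat_lit 0x6b0dbb5b0) (nat_lit 1209624489),
  Rx.mk (nat_lit 310) (nat_lit 6) (nat_lit 6) (nat_lit 4) (nat_lit 3) (nat_lit 92) (nat_lit 97) r0_92 r0_97 (nat_lit 0) (nat_lit 0) (nat_lit 32418381) (nat_lit 0x72161d882) (nat_lit 795028793),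
  Rx.mk (nat_lit 438) (nat_lit 6) (nat_lit 6) (nat_lit 6) (nat_lit 7) (nat_lit 93) (nat_lit 99) r0_93 r0_99 (nat_lit 0) (nat_lit 0) (nat_lit 0) (nat_lit 0x7fe1fc96e) (nat_lit 540154912),
  Rx.mk (nat_lit 484) (nat_lit 4) (nat_lit 4) (nat_lit 7) (nat_lit 4) (nat_lit 94) (nat_lit 91) r0_94 r0_91 (nat_lit 319672734) (nat_lit 13764543) (nat_lit 0) (nat_lit 0x6b0dbb5b0) (nat_lit 1209624489),
  Rx.mk (nat_lit 487) (nat_lit 7) (nat_lit 4) (nat_lit 7) (nat_lit 5) (nat_lit 97) (nat_lit 92) r0_97 r0_92 (nat_lit 0) (nat_lit 32418381) (nat_lit 0) (nat_lit 0x72161d882) (nat_lit 795028793),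
  Rx.mk (nat_lit 500) (nat_lit 4) (nat_lit 6) (nat_lit 7) (nat_lit 6) (nat_lit 95) (nat_lit 95) r0_95 r0_95 (nat_lit 160205457) (nat_lit 0) (nat_lit 0) (nat_lit 0x7ec91cf3a) (nat_lit 717699119),
  Rx.mk (nat_lit 502) (nat_lit 6) (nat_lit 6) (nat_lit 7) (nat_lit 7) (nat_lit 96) (nat_lit 98) r0_96 r0_98 (nat_lit 0) (nat_lit 0) (nat_lit 0) (nat_lit 0x7f9c9f8d0) (nat_lit 544444712),
  Rx.mk (nat_lit 503) (nat_lit 7) (nat_lit 6) (nat_lit 7) (nat_lit 7) (nat_lit 98) (nat_lit 96) r0_98 r0_96 (nat_lit 0) (nat_lit 0) (nat_lit 0) (nat_lit 0x7f9c9f8d0) (nat_lit 544444712),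
  Rx.mk (nat_lit 511) (nat_lit 7) (nat_lit 7) (nat_lit 7) (nat_lit 7) (nat_lit 99) (nat_lit 93) r0_99 r0_93 (nat_lit 0) (nat_lit 0) (nat_lit 0) (nat_lit 0x7fe1fc96e) (nat_lit 540154912)]
noncomputable def e22_8 : List Rx := [
  Rx.mk (nat_lit 292) (nat_lit 4) (nat_lit 4) (nat_lit 4) (nat_lit 0) (nat_lit 111) (nat_lit 94) r0_111 r1_94 (nat_lit 704331784) (nat_lit 15924) (nat_lit 15478) (nat_lit 0x7ffceaa5a) (nat_lit 1241434748),
  Rx.mk (nat_lit 308) (nat_lit 4) (nat_lit 6) (nat_lit 4) (nat_lit 2) (nat_lit 112) (nat_lit 99) r0_112 r1_99 (nat_lit 330891680) (nat_lit 0) (nat_lit 15900944) (nat_lit 0x77bef9212) (nat_lit 1017846086),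
  Rx.mk (nat_lit 310) (nat_lit 6) (nat_lit 6) (nat_lit 4) (nat_lit 3) (nat_lit 113) (nat_lit 103) r0_113 r1_103 (nat_lit 0) (nat_lit 0) (nat_lit 24548730) (nat_lit 0x78780d94c) (nat_lit 683979642),
  Rx.mk (nat_lit 356) (nat_lit 4) (nat_lit 4) (nat_lit 5) (nat_lit 4) (nat_lit 114) (nat_lit 95) r0_114 r1_95 (nat_lit 301314432) (nat_lit 17923102) (nat_lit 0) (nat_lit 0x7b08f77e4) (nat_lit 937110096),
  Rx.mk (nat_lit 372) (nat_lit 4) (nat_lit 6) (nat_lit 5) (nat_lit 6) (nat_lit 115) (nat_lit 100) r0_115 r1_100 (nat_lit 40000838) (nat_lit 0) (nat_lit 0) (nat_lit 0x7f4fca046) (nat_lit 589164150),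
  Rx.mk (nat_lit 374) (nat_lit 6) (nat_lit 6) (nat_lit 5) (nat_lit 7) (nat_lit 116) (nat_lit 104) r0_116 r1_104 (nat_lit 0) (nat_lit 0) (nat_lit 0) (nat_lit 0x8008586c6) (nat_lit 537803512),
  Rx.mk (nat_lit 438) (nat_lit 6) (nat_lit 6) (nat_lit 6) (nat_lit 7) (nat_lit 117) (nat_lit 106) r0_117 r1_106 (nat_lit 0) (nat_lit 0) (nat_lit 0) (nat_lit 0x8008e1958) (nat_lit 537770662),
  Rx.mk (nat_lit 484) (nat_lit 4) (nat_lit 4) (nat_lit 7) (nat_lit 4) (nat_lit 118) (nat_lit 96) r0_118 r1_96 (nat_lit 236637976) (nat_lit 49509170) (nat_lit 0) (nat_lit 0x7c1ee06fe) (nat_lit 886572308),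
  Rx.mk (nat_lit 487) (nat_lit 7) (nat_lit 4) (nat_lit 7) (nat_lit 5) (nat_lit 121) (nat_lit 97) r0_121 r1_97 (nat_lit 0) (nat_lit 26465750) (nat_lit 0) (nat_lit 0x7f8d66de6) (nat_lit 571814812),
  Rx.mk (nat_lit 500) (nat_lit 4) (nat_lit 6) (nat_lit 7) (nat_lit 6) (nat_lit 119) (nat_lit 101) r0_119 r1_101 (nat_lit 43159532) (nat_lit 0) (nat_lit 0) (nat_lit 0x7fa01c38c) (nat_lit 587329944),
  Rx.mk (nat_lit 502) (nat_lit 6) (nat_lit 6) (nat_lit 7) (nat_lit 7) (nat_lit 120) (nat_lit 105) r0_120 r1_105 (nat_lit 0) (nat_lit 0) (nat_lit 0) (nat_lit 0x8017985b4) (nat_lit 536870912),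
  Rx.mk (nat_lit 503) (nat_lit 7) (nat_lit 6) (nat_lit 7) (nat_lit 7) (nat_lit 122) (nat_lit 102) r0_122 r1_102 (nat_lit 0) (nat_lit 0) (nat_lit 0) (nat_lit 0x8017985b4) (nat_lit 536870912),
  Rx.mk (nat_lit 511) (nat_lit 7) (nat_lit 7) (nat_lit 7) (nat_lit 7) (nat_lit 123) (nat_lit 98) r0_123 r1_98 (nat_lit 0) (nat_lit 0) (nat_lit 0) (nat_lit 0x8017985b4) (nat_lit 536870912)]
noncomputable def e22_9 : List Rx := [
  Rx.mk (nat_lit 484) (nat_lit 4) (nat_lit 4) (nat_lit 7) (nat_lit 4) (nat_lit 142) (nat_lit 93) r0_142 r4_93 (nat_lit 206617785) (nat_lit 1138602) (nat_lit 0) (nat_lit 0x685ba0238) (nat_lit 1127160549),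
  Rx.mk (nat_lit 487) (nat_lit 7) (nat_lit 4) (nat_lit 7) (nat_lit 5) (nat_lit 145) (nat_lit 94) r0_145 r4_94 (nat_lit 0) (nat_lit 15006223) (nat_lit 0) (nat_lit 0x7cc837842) (nat_lit 604752435),
  Rx.mk (nat_lit 500) (nat_lit 4) (nat_lit 6) (nat_lit 7) (nat_lit 6) (nat_lit 143) (nat_lit 95) r0_143 r4_95 (nat_lit 128366738) (nat_lit 0) (nat_lit 0) (nat_lit 0x7fb918d0e) (nat_lit 670781900),
  Rx.mk (nat_lit 502) (nat_lit 6) (nat_lit 6) (nat_lit 7) (nat_lit 7) (nat_lit 144) (nat_lit 97) r0_144 r4_97 (nat_lit 0) (nat_lit 0) (nat_lit 0) (nat_lit 0x7fd67623e) (nat_lit 540864312),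
  Rx.mk (nat_lit 503) (nat_lit 7) (nat_lit 6) (nat_lit 7) (nat_lit 7) (nat_lit 146) (nat_lit 96) r0_146 r4_96 (nat_lit 0) (nat_lit 0) (nat_lit 0) (nat_lit 0x801c7c06c) (nat_lit 536515262)]
noncomputable def e22_10 : List Rx := [
  Rx.mk (nat_lit 39) (nat_lit 7) (nat_lit 4) (nat_lit 0) (nat_lit 1) (nat_lit 228) (nat_lit 173) r0_228 r6_173 (nat_lit 0) (nat_lit 476596) (nat_lit 549304) (nat_lit 0x63aaea0f0) (nat_lit 996170062),
  Rx.mk (nat_lit 47) (nat_lit 7) (nat_lit 5) (nat_lit 0) (nat_lit 3) (nat_lit 229) (nat_lit 175) r0_229 r6_175 (nat_lit 0) (nat_lit 0) (nat_lit 2611205) (nat_lit 0x83a05514c) (nat_lit 484513917),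
  Rx.mk (nat_lit 59) (nat_lit 3) (nat_lit 7) (nat_lit 0) (nat_lit 3) (nat_lit 231) (nat_lit 170) r0_231 r6_170 (nat_lit 0) (nat_lit 0) (nat_lit 7518208) (nat_lit 0x737802416) (nat_lit 747659820),
  Rx.mk (nat_lit 63) (nat_lit 7) (nat_lit 7) (nat_lit 0) (nat_lit 3) (nat_lit 230) (nat_lit 177) r0_230 r6_177 (nat_lit 0) (nat_lit 0) (nat_lit 14019292) (nat_lit 0x774820d34) (nat_lit 692574004),
  Rx.mk (nat_lit 228) (nat_lit 4) (nat_lit 4) (nat_lit 3) (nat_lit 4) (nat_lit 232) (nat_lit 171) r0_232 r6_171 (nat_lit 961472) (nat_lit 853516) (nat_lit 0) (nat_lit 0x7527736a6) (nat_lit 714260500),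
  Rx.mk (nat_lit 231) (nat_lit 7) (nat_lit 4) (nat_lit 3) (nat_lit 5) (nat_lit 234) (nat_lit 174) r0_234 r6_174 (nat_lit 0) (nat_lit 11464009) (nat_lit 0) (nat_lit 0x7fcd39b80) (nat_lit 552812521),
  Rx.mk (nat_lit 236) (nat_lit 4) (nat_lit 5) (nat_lit 3) (nat_lit 6) (nat_lit 233) (nat_lit 172) r0_233 r6_172 (nat_lit 727303) (nat_lit 0) (nat_lit 0) (nat_lit 0x864e745a0) (nat_lit 441614815),
  Rx.mk (nat_lit 239) (nat_lit 7) (nat_lit 5) (nat_lit 3) (nat_lit 7) (nat_lit 235) (nat_lit 176) r0_235 r6_176 (nat_lit 0) (nat_lit 0) (nat_lit 0) (nat_lit 0x86cc8ff0c) (nat_lit 433849212)]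
noncomputable def e22_11 : List Rx := [
  Rx.mk (nat_lit 59) (nat_lit 3) (nat_lit 7) (nat_lit 0) (nat_lit 3) (nat_lit 208) (nat_lit 99) r0_208 r5_99 (nat_lit 0) (nat_lit 0) (nat_lit 9650169) (nat_lit 0x70202c884) (nat_lit 803847431),
  Rx.mk (nat_lit 63) (nat_lit 7) (nat_lit 7) (nat_lit 0) (nat_lit 3) (nat_lit 207) (nat_lit 97) r0_207 r5_97 (nat_lit 0) (nat_lit 0) (nat_lit 10938667) (nat_lit 0x6b03cd2ce) (nat_lit 887781329),
  Rx.mk (nat_lit 228) (nat_lit 4) (nat_lit 4) (nat_lit 3) (nat_lit 4) (nat_lit 209) (nat_lit 95) r0_209 r5_95 (nat_lit 20620) (nat_lit 14014) (nat_lit 0) (nat_lit 0x76e524eec) (nat_lit 684143846),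
  Rx.mk (nat_lit 231) (nat_lit 7) (nat_lit 4) (nat_lit 3) (nat_lit 5) (nat_lit 210) (nat_lit 96) r0_210 r5_96 (nat_lit 0) (nat_lit 6178764) (nat_lit 0) (nat_lit 0x7f794ecf0) (nat_lit 552570776),
  Rx.mk (nat_lit 255) (nat_lit 7) (nat_lit 7) (nat_lit 3) (nat_lit 7) (nat_lit 211) (nat_lit 98) r0_211 r5_98 (nat_lit 0) (nat_lit 0) (nat_lit 0) (nat_lit 0x8017985b4) (nat_lit 536870912),
  Rx.mk (nat_lit 484) (nat_lit 4) (nat_lit 4) (nat_lit 7) (nat_lit 4) (nat_lit 204) (nat_lit 94) r0_204 r5_94 (nat_lit 538423) (nat_lit 46998) (nat_lit 0) (nat_lit 0x84bca4798) (nat_lit 465237583),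
  Rx.mk (nat_lit 500) (nat_lit 4) (nat_lit 6) (nat_lit 7) (nat_lit 6) (nat_lit 205) (nat_lit 100) r0_205 r5_100 (nat_lit 331782363) (nat_lit 0) (nat_lit 0) (nat_lit 0x7cda33514) (nat_lit 920285625),
  Rx.mk (nat_lit 502) (nat_lit 6) (nat_lit 6) (nat_lit 7) (nat_lit 7) (nat_lit 206) (nat_lit 101) r0_206 r5_101 (nat_lit 0) (nat_lit 0) (nat_lit 0) (nat_lit 0x67513425a) (nat_lit 936576412)]
noncomputable def e22_12 : List Rx := [
  Rx.mk (nat_lit 45) (nat_lit 5) (nat_lit 5) (nat_lit 0) (nat_lit 3) (nat_lit 243) (nat_lit 243) r0_243 r0_243 (nat_lit 0) (nat_lit 0) (nat_lit 375356366) (nat_lit 0x7fff94e4a) (nat_lit 912268878),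
  Rx.mk (nat_lit 100) (nat_lit 4) (nat_lit 4) (nat_lit 1) (nat_lit 4) (nat_lit 244) (nat_lit 244) r0_244 r0_244 (nat_lit 88358360) (nat_lit 88358360) (nat_lit 0) (nat_lit 0x68d4a3a72) (nat_lit 1088870982),
  Rx.mk (nat_lit 101) (nat_lit 5) (nat_lit 4) (nat_lit 1) (nat_lit 5) (nat_lit 246) (nat_lit 245) r0_246 r0_245 (nat_lit 0) (nat_lit 25767150) (nat_lit 0) (nat_lit 0x782fa05e2) (nat_lit 689732912),
  Rx.mk (nat_lit 108) (nat_lit 4) (nat_lit 5) (nat_lit 1) (nat_lit 6) (nat_lit 245) (nat_lit 246) r0_245 r0_246 (nat_lit 25767150) (nat_lit 0) (nat_lit 0) (nat_lit 0x782fa05e2) (nat_lit 689732912),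
  Rx.mk (nat_lit 109) (nat_lit 5) (nat_lit 5) (nat_lit 1) (nat_lit 7) (nat_lit 247) (nat_lit 247) r0_247 r0_247 (nat_lit 0) (nat_lit 0) (nat_lit 0) (nat_lit 0x7f946ba74) (nat_lit 544898012)]
noncomputable def e22_13 : List Rx := [
  Rx.mk (nat_lit 100) (nat_lit 4) (nat_lit 4) (nat_lit 1) (nat_lit 4) (nat_lit 250) (nat_lit 217) r0_250 r7_217 (nat_lit 24992992) (nat_lit 18636919) (nat_lit 0) (nat_lit 0x67a63621c) (nat_lit 974858673),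
  Rx.mk (nat_lit 101) (nat_lit 5) (nat_lit 4) (nat_lit 1) (nat_lit 5) (nat_lit 252) (nat_lit 219) r0_252 r7_219 (nat_lit 0) (nat_lit 26788272) (nat_lit 0) (nat_lit 0x7afd29426) (nat_lit 645521784),
  Rx.mk (nat_lit 108) (nat_lit 4) (nat_lit 5) (nat_lit 1) (nat_lit 6) (nat_lit 251) (nat_lit 218) r0_251 r7_218 (nat_lit 25925090) (nat_lit 0) (nat_lit 0) (nat_lit 0x7f7ee0aba) (nat_lit 572200552),
  Rx.mk (nat_lit 109) (nat_lit 5) (nat_lit 5) (nat_lit 1) (nat_lit 7) (nat_lit 253) (nat_lit 220) r0_253 r7_220 (nat_lit 0) (nat_lit 0) (nat_lit 0) (nat_lit 0x80170d2ac) (nat_lit 536874862)]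
noncomputable def e22_14 : List Rx := [
  Rx.mk (nat_lit 45) (nat_lit 5) (nat_lit 5) (nat_lit 0) (nat_lit 3) (nat_lit 282) (nat_lit 252) r0_282 r1_252 (nat_lit 0) (nat_lit 0) (nat_lit 585345170) (nat_lit 0x801301b72) (nat_lit 1121100632),
  Rx.mk (nat_lit 101) (nat_lit 5) (nat_lit 4) (nat_lit 1) (nat_lit 5) (nat_lit 283) (nat_lit 253) r0_283 r1_253 (nat_lit 0) (nat_lit 24741287) (nat_lit 0) (nat_lit 0x7fb668af0) (nat_lit 567576349),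
  Rx.mk (nat_lit 109) (nat_lit 5) (nat_lit 5) (nat_lit 1) (nat_lit 7) (nat_lit 284) (nat_lit 254) r0_284 r1_254 (nat_lit 0) (nat_lit 0) (nat_lit 0) (nat_lit 0x7fcf556ee) (nat_lit 541249062)]
noncomputable def e22_15 : List Rx := [
  Rx.mk (nat_lit 101) (nat_lit 5) (nat_lit 4) (nat_lit 1) (nat_lit 5) (nat_lit 289) (nat_lit 178) r0_289 r8_178 (nat_lit 0) (nat_lit 25058333) (nat_lit 0) (nat_lit 0x74a9cadf8) (nat_lit 746005345),
  Rx.mk (nat_lit 109) (nat_lit 5) (nat_lit 5) (nat_lit 1) (nat_lit 7) (nat_lit 290) (nat_lit 179) r0_290 r8_179 (nat_lit 0) (nat_lit 0) (nat_lit 0) (nat_lit 0x7ffa6b34c) (nat_lit 538657562)]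
noncomputable def e22_16 : List Rx := [
  Rx.mk (nat_lit 100) (nat_lit 4) (nat_lit 4) (nat_lit 1) (nat_lit 4) (nat_lit 278) (nat_lit 237) r0_278 r8_237 (nat_lit 22445376) (nat_lit 11187286) (nat_lit 0) (nat_lit 0x611b170e2) (nat_lit 1070645824),
  Rx.mk (nat_lit 101) (nat_lit 5) (nat_lit 4) (nat_lit 1) (nat_lit 5) (nat_lit 280) (nat_lit 238) r0_280 r8_238 (nat_lit 0) (nat_lit 25163350) (nat_lit 0) (nat_lit 0x75f165a36) (nat_lit 725421662),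
  Rx.mk (nat_lit 108) (nat_lit 4) (nat_lit 5) (nat_lit 1) (nat_lit 6) (nat_lit 279) (nat_lit 239) r0_279 r8_239 (nat_lit 24741287) (nat_lit 0) (nat_lit 0) (nat_lit 0x7faf81db8) (nat_lit 567993049),
  Rx.mk (nat_lit 109) (nat_lit 5) (nat_lit 5) (nat_lit 1) (nat_lit 7) (nat_lit 281) (nat_lit 240) r0_281 r8_240 (nat_lit 0) (nat_lit 0) (nat_lit 0) (nat_lit 0x80027a268) (nat_lit 538140112),
  Rx.mk (nat_lit 356) (nat_lit 4) (nat_lit 4) (nat_lit 5) (nat_lit 4) (nat_lit 271) (nat_lit 230) r0_271 r8_230 (nat_lit 75494649) (nat_lit 75450971) (nat_lit 0) (nat_lit 0x5a61765d0) (nat_lit 1296858182),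
  Rx.mk (nat_lit 357) (nat_lit 5) (nat_lit 4) (nat_lit 5) (nat_lit 5) (nat_lit 274) (nat_lit 231) r0_274 r8_231 (nat_lit 0) (nat_lit 30314307) (nat_lit 0) (nat_lit 0x6f3513136) (nat_lit 839472119),
  Rx.mk (nat_lit 364) (nat_lit 4) (nat_lit 5) (nat_lit 5) (nat_lit 6) (nat_lit 272) (nat_lit 232) r0_272 r8_232 (nat_lit 36993222) (nat_lit 0) (nat_lit 0) (nat_lit 0x7df6aaa0c) (nat_lit 607751434),
  Rx.mk (nat_lit 365) (nat_lit 5) (nat_lit 5) (nat_lit 5) (nat_lit 7) (nat_lit 275) (nat_lit 233) r0_275 r8_233 (nat_lit 0) (nat_lit 0) (nat_lit 0) (nat_lit 0x7f69ccc6e) (nat_lit 547574012),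
  Rx.mk (nat_lit 372) (nat_lit 4) (nat_lit 6) (nat_lit 5) (nat_lit 6) (nat_lit 273) (nat_lit 234) r0_273 r8_234 (nat_lit 25972273) (nat_lit 0) (nat_lit 0) (nat_lit 0x7eb8e4744) (nat_lit 584573485),
  Rx.mk (nat_lit 373) (nat_lit 5) (nat_lit 6) (nat_lit 5) (nat_lit 7) (nat_lit 276) (nat_lit 235) r0_276 r8_235 (nat_lit 0) (nat_lit 0) (nat_lit 0) (nat_lit 0x8017985b4) (nat_lit 536870912),
  Rx.mk (nat_lit 374) (nat_lit 6) (nat_lit 6) (nat_lit 5) (nat_lit 7) (nat_lit 277) (nat_lit 236) r0_277 r8_236 (nat_lit 0) (nat_lit 0) (nat_lit 0) (nat_lit 0x8010a6c4c) (nat_lit 537295162)]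
noncomputable def e22_17 : List Rx := [
  Rx.mk (nat_lit 356) (nat_lit 4) (nat_lit 4) (nat_lit 5) (nat_lit 4) (nat_lit 257) (nat_lit 155) r0_257 r9_155 (nat_lit 41159980) (nat_lit 49590700) (nat_lit 0) (nat_lit 0x50d4cab80) (nat_lit 1391082492),
  Rx.mk (nat_lit 357) (nat_lit 5) (nat_lit 4) (nat_lit 5) (nat_lit 5) (nat_lit 259) (nat_lit 157) r0_259 r9_157 (nat_lit 0) (nat_lit 28301978) (nat_lit 0) (nat_lit 0x71f06598c) (nat_lit 793284240),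
  Rx.mk (nat_lit 372) (nat_lit 4) (nat_lit 6) (nat_lit 5) (nat_lit 6) (nat_lit 258) (nat_lit 156) r0_258 r9_156 (nat_lit 30127539) (nat_lit 0) (nat_lit 0) (nat_lit 0x7a85fc8e4) (nat_lit 656361051),
  Rx.mk (nat_lit 373) (nat_lit 5) (nat_lit 6) (nat_lit 5) (nat_lit 7) (nat_lit 260) (nat_lit 158) r0_260 r9_158 (nat_lit 0) (nat_lit 0) (nat_lit 0) (nat_lit 0x7fffa9a3e) (nat_lit 538336962),
  Rx.mk (nat_lit 374) (nat_lit 6) (nat_lit 6) (nat_lit 5) (nat_lit 7) (nat_lit 261) (nat_lit 159) r0_261 r9_159 (nat_lit 0) (nat_lit 0) (nat_lit 0) (nat_lit 0x800dc4ccc) (nat_lit 537471612)]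
noncomputable def e22_18 : List Rx := [
  Rx.mk (nat_lit 44) (nat_lit 4) (nat_lit 5) (nat_lit 0) (nat_lit 2) (nat_lit 306) (nat_lit 253) r0_306 r4_253 (nat_lit 9185379) (nat_lit 0) (nat_lit 44700456) (nat_lit 0x69c6a03b6) (nat_lit 950753297),
  Rx.mk (nat_lit 45) (nat_lit 5) (nat_lit 5) (nat_lit 0) (nat_lit 3) (nat_lit 307) (nat_lit 254) r0_307 r4_254 (nat_lit 0) (nat_lit 0) (nat_lit 190947877) (nat_lit 0x781662364) (nat_lit 856023289),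
  Rx.mk (nat_lit 47) (nat_lit 7) (nat_lit 5) (nat_lit 0) (nat_lit 3) (nat_lit 308) (nat_lit 255) r0_308 r4_255 (nat_lit 0) (nat_lit 0) (nat_lit 34510458) (nat_lit 0x7fea14354) (nat_lit 574129370),
  Rx.mk (nat_lit 100) (nat_lit 4) (nat_lit 4) (nat_lit 1) (nat_lit 4) (nat_lit 309) (nat_lit 256) r0_309 r4_256 (nat_lit 33909295) (nat_lit 19670024) (nat_lit 0) (nat_lit 0x680c7e7d6) (nat_lit 978281281),
  Rx.mk (nat_lit 101) (nat_lit 5) (nat_lit 4) (nat_lit 1) (nat_lit 5) (nat_lit 311) (nat_lit 257) r0_311 r4_257 (nat_lit 0) (nat_lit 27415859) (nat_lit 0) (nat_lit 0x8000d8c2a) (nat_lit 565665771),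
  Rx.mk (nat_lit 103) (nat_lit 7) (nat_lit 4) (nat_lit 1) (nat_lit 5) (nat_lit 313) (nat_lit 258) r0_313 r4_258 (nat_lit 0) (nat_lit 29629750) (nat_lit 0) (nat_lit 0x7db4131bc) (nat_lit 604586362),
  Rx.mk (nat_lit 108) (nat_lit 4) (nat_lit 5) (nat_lit 1) (nat_lit 6) (nat_lit 310) (nat_lit 259) r0_310 r4_259 (nat_lit 25313016) (nat_lit 0) (nat_lit 0) (nat_lit 0x7f09601dc) (nat_lit 578840728),
  Rx.mk (nat_lit 109) (nat_lit 5) (nat_lit 5) (nat_lit 1) (nat_lit 7) (nat_lit 312) (nat_lit 260) r0_312 r4_260 (nat_lit 0) (nat_lit 0) (nat_lit 0) (nat_lit 0x80abe37c8) (nat_lit 527783112),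
  Rx.mk (nat_lit 111) (nat_lit 7) (nat_lit 5) (nat_lit 1) (nat_lit 7) (nat_lit 314) (nat_lit 261) r0_314 r4_261 (nat_lit 0) (nat_lit 0) (nat_lit 0) (nat_lit 0x8024ca73c) (nat_lit 536043112)]
noncomputable def e22_19 : List Rx := [
  Rx.mk (nat_lit 100) (nat_lit 4) (nat_lit 4) (nat_lit 1) (nat_lit 4) (nat_lit 322) (nat_lit 166) r0_322 r10_166 (nat_lit 17034488) (nat_lit 14038217) (nat_lit 0) (nat_lit 0x6f6e3009a) (nat_lit 836450667),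
  Rx.mk (nat_lit 101) (nat_lit 5) (nat_lit 4) (nat_lit 1) (nat_lit 5) (nat_lit 324) (nat_lit 168) r0_324 r10_168 (nat_lit 0) (nat_lit 24924827) (nat_lit 0) (nat_lit 0x7fc09e13c) (nat_lit 567146289),
  Rx.mk (nat_lit 103) (nat_lit 7) (nat_lit 4) (nat_lit 1) (nat_lit 5) (nat_lit 326) (nat_lit 170) r0_326 r10_170 (nat_lit 0) (nat_lit 25781778) (nat_lit 0) (nat_lit 0x7e4c3ec0c) (nat_lit 591158440),
  Rx.mk (nat_lit 108) (nat_lit 4) (nat_lit 5) (nat_lit 1) (nat_lit 6) (nat_lit 323) (nat_lit 167) r0_323 r10_167 (nat_lit 24741287) (nat_lit 0) (nat_lit 0) (nat_lit 0x8017985b4) (nat_lit 561612199),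
  Rx.mk (nat_lit 109) (nat_lit 5) (nat_lit 5) (nat_lit 1) (nat_lit 7) (nat_lit 325) (nat_lit 169) r0_325 r10_169 (nat_lit 0) (nat_lit 0) (nat_lit 0) (nat_lit 0x8017985b4) (nat_lit 536870912),
  Rx.mk (nat_lit 111) (nat_lit 7) (nat_lit 5) (nat_lit 1) (nat_lit 7) (nat_lit 327) (nat_lit 171) r0_327 r10_171 (nat_lit 0) (nat_lit 0) (nat_lit 0) (nat_lit 0x7ffa5b708) (nat_lit 538653612)]
noncomputable def e22_20 : List Rx := [
  Rx.mk (nat_lit 36) (nat_lit 4) (nat_lit 4) (nat_lit 0) (nat_lit 0) (nat_lit 342) (nat_lit 165) r0_342 r11_165 (nat_lit 27528448) (nat_lit 61517721) (nat_lit 16543091) (nat_lit 0x56389a70a) (nat_lit 1318729522),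
  Rx.mk (nat_lit 37) (nat_lit 5) (nat_lit 4) (nat_lit 0) (nat_lit 1) (nat_lit 344) (nat_lit 171) r0_344 r11_171 (nat_lit 0) (nat_lit 36871294) (nat_lit 84020208) (nat_lit 0x783359b98) (nat_lit 784659514),
  Rx.mk (nat_lit 39) (nat_lit 7) (nat_lit 4) (nat_lit 0) (nat_lit 1) (nat_lit 346) (nat_lit 177) r0_346 r11_177 (nat_lit 0) (nat_lit 49484385) (nat_lit 31505454) (nat_lit 0x786492660) (nat_lit 741673001),
  Rx.mk (nat_lit 44) (nat_lit 4) (nat_lit 5) (nat_lit 0) (nat_lit 2) (nat_lit 343) (nat_lit 168) r0_343 r11_168 (nat_lit 39863545) (nat_lit 0) (nat_lit 97208642) (nat_lit 0x7bb2e4220) (nat_lit 744358799),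
  Rx.mk (nat_lit 45) (nat_lit 5) (nat_lit 5) (nat_lit 0) (nat_lit 3) (nat_lit 345) (nat_lit 174) r0_345 r11_174 (nat_lit 0) (nat_lit 0) (nat_lit 66364716) (nat_lit 0x7dacacf72) (nat_lit 641664678),
  Rx.mk (nat_lit 47) (nat_lit 7) (nat_lit 5) (nat_lit 0) (nat_lit 3) (nat_lit 347) (nat_lit 179) r0_347 r11_179 (nat_lit 0) (nat_lit 0) (nat_lit 24741287) (nat_lit 0x8017985b4) (nat_lit 561612199),
  Rx.mk (nat_lit 63) (nat_lit 7) (nat_lit 7) (nat_lit 0) (nat_lit 3) (nat_lit 348) (nat_lit 181) r0_348 r11_181 (nat_lit 0) (nat_lit 0) (nat_lit 24977480) (nat_lit 0x7ff4c15ea) (nat_lit 563982842),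
  Rx.mk (nat_lit 100) (nat_lit 4) (nat_lit 4) (nat_lit 1) (nat_lit 4) (nat_lit 349) (nat_lit 166) r0_349 r11_166 (nat_lit 151143769) (nat_lit 43084134) (nat_lit 0) (nat_lit 0x7b5af1fae) (nat_lit 807011715),
  Rx.mk (nat_lit 101) (nat_lit 5) (nat_lit 4) (nat_lit 1) (nat_lit 5) (nat_lit 351) (nat_lit 172) r0_351 r11_172 (nat_lit 0) (nat_lit 24741287) (nat_lit 0) (nat_lit 0x8017985b4) (nat_lit 561612199),
  Rx.mk (nat_lit 103) (nat_lit 7) (nat_lit 4) (nat_lit 1) (nat_lit 5) (nat_lit 353) (nat_lit 178) r0_353 r11_178 (nat_lit 0) (nat_lit 27043959) (nat_lit 0) (nat_lit 0x7fc599f24) (nat_lit 568952071),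
  Rx.mk (nat_lit 108) (nat_lit 4) (nat_lit 5) (nat_lit 1) (nat_lit 6) (nat_lit 350) (nat_lit 169) r0_350 r11_169 (nat_lit 24741287) (nat_lit 0) (nat_lit 0) (nat_lit 0x8017985b4) (nat_lit 561612199),
  Rx.mk (nat_lit 109) (nat_lit 5) (nat_lit 5) (nat_lit 1) (nat_lit 7) (nat_lit 352) (nat_lit 175) r0_352 r11_175 (nat_lit 0) (nat_lit 0) (nat_lit 0) (nat_lit 0x8017985b4) (nat_lit 536870912),
  Rx.mk (nat_lit 111) (nat_lit 7) (nat_lit 5) (nat_lit 1) (nat_lit 7) (nat_lit 354) (nat_lit 180) r0_354 r11_180 (nat_lit 0) (nat_lit 0) (nat_lit 0) (nat_lit 0x8017985b4) (nat_lit 536870912),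
  Rx.mk (nat_lit 127) (nat_lit 7) (nat_lit 7) (nat_lit 1) (nat_lit 7) (nat_lit 355) (nat_lit 182) r0_355 r11_182 (nat_lit 0) (nat_lit 0) (nat_lit 0) (nat_lit 0x8017985b4) (nat_lit 536870912),
  Rx.mk (nat_lit 228) (nat_lit 4) (nat_lit 4) (nat_lit 3) (nat_lit 4) (nat_lit 356) (nat_lit 167) r0_356 r11_167 (nat_lit 40023232) (nat_lit 40023232) (nat_lit 0) (nat_lit 0x7e12b2628) (nat_lit 649033426),
  Rx.mk (nat_lit 229) (nat_lit 5) (nat_lit 4) (nat_lit 3) (nat_lit 5) (nat_lit 358) (nat_lit 173) r0_358 r11_173 (nat_lit 0) (nat_lit 23550752) (nat_lit 0) (nat_lit 0x804b6b5bc) (nat_lit 557203014),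
  Rx.mk (nat_lit 236) (nat_lit 4) (nat_lit 5) (nat_lit 3) (nat_lit 6) (nat_lit 357) (nat_lit 170) r0_357 r11_170 (nat_lit 24741287) (nat_lit 0) (nat_lit 0) (nat_lit 0x8017985b4) (nat_lit 561612199),
  Rx.mk (nat_lit 237) (nat_lit 5) (nat_lit 5) (nat_lit 3) (nat_lit 7) (nat_lit 359) (nat_lit 176) r0_359 r11_176 (nat_lit 0) (nat_lit 0) (nat_lit 0) (nat_lit 0x821f15f74) (nat_lit 505368512)]
noncomputable def e22_21 : List Rx := [
  Rx.mk (nat_lit 356) (nat_lit 4) (nat_lit 4) (nat_lit 5) (nat_lit 4) (nat_lit 262) (nat_lit 65) r0_262 r9_65 (nat_lit 111519439) (nat_lit 35271211) (nat_lit 0) (nat_lit 0x580e92528) (nat_lit 1330276712),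
  Rx.mk (nat_lit 372) (nat_lit 4) (nat_lit 6) (nat_lit 5) (nat_lit 6) (nat_lit 263) (nat_lit 66) r0_263 r9_66 (nat_lit 42181634) (nat_lit 0) (nat_lit 0) (nat_lit 0x7bc61b1a4) (nat_lit 648220246),
  Rx.mk (nat_lit 374) (nat_lit 6) (nat_lit 6) (nat_lit 5) (nat_lit 7) (nat_lit 264) (nat_lit 67) r0_264 r9_67 (nat_lit 0) (nat_lit 0) (nat_lit 0) (nat_lit 0x7fcef5a96) (nat_lit 541322112)]
noncomputable def e22_22 : List Rx := [
  Rx.mk (nat_lit 27) (nat_lit 3) (nat_lit 3) (nat_lit 0) (nat_lit 3) (nat_lit 10) (nat_lit 0) r0_10 r0_0 (nat_lit 0) (nat_lit 0) (nat_lit 80316) (nat_lit 0x5509d2c2a) (nat_lit 1231694478),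
  Rx.mk (nat_lit 128) (nat_lit 0) (nat_lit 0) (nat_lit 2) (nat_lit 4) (nat_lit 11) (nat_lit 4) r0_11 r0_4 (nat_lit 6426) (nat_lit 5108) (nat_lit 0) (nat_lit 0x7ff90f05c) (nat_lit 537322946),
  Rx.mk (nat_lit 130) (nat_lit 2) (nat_lit 0) (nat_lit 2) (nat_lit 5) (nat_lit 13) (nat_lit 7) r0_13 r0_7 (nat_lit 0) (nat_lit 22473) (nat_lit 0) (nat_lit 0x842299b94) (nat_lit 473842535),
  Rx.mk (nat_lit 146) (nat_lit 2) (nat_lit 2) (nat_lit 2) (nat_lit 7) (nat_lit 14) (nat_lit 9) r0_14 r0_9 (nat_lit 0) (nat_lit 0) (nat_lit 0) (nat_lit 0x7d7548f40) (nat_lit 578841012),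
  Rx.mk (nat_lit 152) (nat_lit 0) (nat_lit 3) (nat_lit 2) (nat_lit 6) (nat_lit 12) (nat_lit 5) r0_12 r0_5 (nat_lit 11895286) (nat_lit 0) (nat_lit 0) (nat_lit 0x6f9864d16) (nat_lit 814611698),
  Rx.mk (nat_lit 154) (nat_lit 2) (nat_lit 3) (nat_lit 2) (nat_lit 7) (nat_lit 15) (nat_lit 8) r0_15 r0_8 (nat_lit 0) (nat_lit 0) (nat_lit 0) (nat_lit 0x7d18c92ba) (nat_lit 584629662),
  Rx.mk (nat_lit 155) (nat_lit 3) (nat_lit 3) (nat_lit 2) (nat_lit 7) (nat_lit 16) (nat_lit 6) r0_16 r0_6 (nat_lit 0) (nat_lit 0) (nat_lit 0) (nat_lit 0x7fe5259ba) (nat_lit 538574762),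
  Rx.mk (nat_lit 219) (nat_lit 3) (nat_lit 3) (nat_lit 3) (nat_lit 7) (nat_lit 19) (nat_lit 1) r0_19 r0_1 (nat_lit 0) (nat_lit 0) (nat_lit 0) (nat_lit 0x74e6e15d4) (nat_lit 716955412),
  Rx.mk (nat_lit 251) (nat_lit 3) (nat_lit 7) (nat_lit 3) (nat_lit 7) (nat_lit 18) (nat_lit 2) r0_18 r0_2 (nat_lit 0) (nat_lit 0) (nat_lit 0) (nat_lit 0x7e64f42d8) (nat_lit 563774762),
  Rx.mk (nat_lit 255) (nat_lit 7) (nat_lit 7) (nat_lit 3) (nat_lit 7) (nat_lit 17) (nat_lit 3) r0_17 r0_3 (nat_lit 0) (nat_lit 0) (nat_lit 0) (nat_lit 0x7e8dbb8b0) (nat_lit 561242362),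
  Rx.mk (nat_lit 310) (nat_lit 6) (nat_lit 6) (nat_lit 4) (nat_lit 3) (nat_lit 0) (nat_lit 10) r0_0 r0_10 (nat_lit 0) (nat_lit 0) (nat_lit 80316) (nat_lit 0x5509d2c2a) (nat_lit 1231694478),
  Rx.mk (nat_lit 402) (nat_lit 2) (nat_lit 2) (nat_lit 6) (nat_lit 7) (nat_lit 3) (nat_lit 17) r0_3 r0_17 (nat_lit 0) (nat_lit 0) (nat_lit 0) (nat_lit 0x7e8dbb8b0) (nat_lit 561242362),
  Rx.mk (nat_lit 406) (nat_lit 6) (nat_lit 2) (nat_lit 6) (nat_lit 7) (nat_lit 2) (nat_lit 18) r0_2 r0_18 (nat_lit 0) (nat_lit 0) (nat_lit 0) (nat_lit 0x7e64f42d8) (nat_lit 563774762),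
  Rx.mk (nat_lit 438) (nat_lit 6) (nat_lit 6) (nat_lit 6) (nat_lit 7) (nat_lit 1) (nat_lit 19) r0_1 r0_19 (nat_lit 0) (nat_lit 0) (nat_lit 0) (nat_lit 0x74e6e15d4) (nat_lit 716955412),
  Rx.mk (nat_lit 484) (nat_lit 4) (nat_lit 4) (nat_lit 7) (nat_lit 4) (nat_lit 4) (nat_lit 11) r0_4 r0_11 (nat_lit 6426) (nat_lit 5108) (nat_lit 0) (nat_lit 0x7ff90f05c) (nat_lit 537322946),
  Rx.mk (nat_lit 487) (nat_lit 7) (nat_lit 4) (nat_lit 7) (nat_lit 5) (nat_lit 7) (nat_lit 13) r0_7 r0_13 (nat_lit 0) (nat_lit 22473) (nat_lit 0) (nat_lit 0x842299b94) (nat_lit 473842535),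
  Rx.mk (nat_lit 500) (nat_lit 4) (nat_lit 6) (nat_lit 7) (nat_lit 6) (nat_lit 5) (nat_lit 12) r0_5 r0_12 (nat_lit 11895286) (nat_lit 0) (nat_lit 0) (nat_lit 0x6f9864d16) (nat_lit 814611698),
  Rx.mk (nat_lit 502) (nat_lit 6) (nat_lit 6) (nat_lit 7) (nat_lit 7) (nat_lit 6) (nat_lit 16) r0_6 r0_16 (nat_lit 0) (nat_lit 0) (nat_lit 0) (nat_lit 0x7fe5259ba) (nat_lit 538574762),
  Rx.mk (nat_lit 503) (nat_lit 7) (nat_lit 6) (nat_lit 7) (nat_lit 7) (nat_lit 8) (nat_lit 15) r0_8 r0_15 (nat_lit 0) (nat_lit 0) (nat_lit 0) (nat_lit 0x7d18c92ba) (nat_lit 584629662),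
  Rx.mk (nat_lit 511) (nat_lit 7) (nat_lit 7) (nat_lit 7) (nat_lit 7) (nat_lit 9) (nat_lit 14) r0_9 r0_14 (nat_lit 0) (nat_lit 0) (nat_lit 0) (nat_lit 0x7d7548f40) (nat_lit 578841012)]
noncomputable def e22_23 : List Rx := [
  Rx.mk (nat_lit 27) (nat_lit 3) (nat_lit 3) (nat_lit 0) (nat_lit 3) (nat_lit 22) (nat_lit 0) r0_22 r1_0 (nat_lit 0) (nat_lit 0) (nat_lit 23596477) (nat_lit 0x69c6e3bc0) (nat_lit 920472039),
  Rx.mk (nat_lit 128) (nat_lit 0) (nat_lit 0) (nat_lit 2) (nat_lit 4) (nat_lit 23) (nat_lit 2) r0_23 r1_2 (nat_lit 5604383) (nat_lit 3151689) (nat_lit 0) (nat_lit 0x6d7564e26) (nat_lit 845928484),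
  Rx.mk (nat_lit 130) (nat_lit 2) (nat_lit 0) (nat_lit 2) (nat_lit 5) (nat_lit 25) (nat_lit 5) r0_25 r1_5 (nat_lit 0) (nat_lit 8756247) (nat_lit 0) (nat_lit 0x7bbb71c80) (nat_lit 615374609),
  Rx.mk (nat_lit 146) (nat_lit 2) (nat_lit 2) (nat_lit 2) (nat_lit 7) (nat_lit 26) (nat_lit 7) r0_26 r1_7 (nat_lit 0) (nat_lit 0) (nat_lit 0) (nat_lit 0x801bfa5bc) (nat_lit 536589212),
  Rx.mk (nat_lit 152) (nat_lit 0) (nat_lit 3) (nat_lit 2) (nat_lit 6) (nat_lit 24) (nat_lit 3) r0_24 r1_3 (nat_lit 22794505) (nat_lit 0) (nat_lit 0) (nat_lit 0x7f395dd58) (nat_lit 573339467),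
  Rx.mk (nat_lit 154) (nat_lit 2) (nat_lit 3) (nat_lit 2) (nat_lit 7) (nat_lit 27) (nat_lit 6) r0_27 r1_6 (nat_lit 0) (nat_lit 0) (nat_lit 0) (nat_lit 0x80362d196) (nat_lit 534989612),
  Rx.mk (nat_lit 155) (nat_lit 3) (nat_lit 3) (nat_lit 2) (nat_lit 7) (nat_lit 28) (nat_lit 4) r0_28 r1_4 (nat_lit 0) (nat_lit 0) (nat_lit 0) (nat_lit 0x87136526a) (nat_lit 429577662),
  Rx.mk (nat_lit 219) (nat_lit 3) (nat_lit 3) (nat_lit 3) (nat_lit 7) (nat_lit 29) (nat_lit 1) r0_29 r1_1 (nat_lit 0) (nat_lit 0) (nat_lit 0) (nat_lit 0x807eeb3e2) (nat_lit 530392612),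
  Rx.mk (nat_lit 402) (nat_lit 2) (nat_lit 2) (nat_lit 6) (nat_lit 7) (nat_lit 21) (nat_lit 8) r0_21 r1_8 (nat_lit 0) (nat_lit 0) (nat_lit 0) (nat_lit 0x807414446) (nat_lit 531187112),
  Rx.mk (nat_lit 406) (nat_lit 6) (nat_lit 2) (nat_lit 6) (nat_lit 7) (nat_lit 20) (nat_lit 9) r0_20 r1_9 (nat_lit 0) (nat_lit 0) (nat_lit 0) (nat_lit 0x802da032a) (nat_lit 535514012)]
noncomputable def e22_24 : List Rx := [
  Rx.mk (nat_lit 27) (nat_lit 3) (nat_lit 3) (nat_lit 0) (nat_lit 3) (nat_lit 58) (nat_lit 0) r0_58 r4_0 (nat_lit 0) (nat_lit 0) (nat_lit 5660977) (nat_lit 0x6025939b8) (nat_lit 1058125439),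
  Rx.mk (nat_lit 59) (nat_lit 3) (nat_lit 7) (nat_lit 0) (nat_lit 3) (nat_lit 57) (nat_lit 1) r0_57 r4_1 (nat_lit 0) (nat_lit 0) (nat_lit 13925368) (nat_lit 0x7d011df30) (nat_lit 600028230),
  Rx.mk (nat_lit 152) (nat_lit 0) (nat_lit 3) (nat_lit 2) (nat_lit 6) (nat_lit 59) (nat_lit 5) r0_59 r4_5 (nat_lit 82674763) (nat_lit 0) (nat_lit 0) (nat_lit 0x7746f3588) (nat_lit 761260075),
  Rx.mk (nat_lit 154) (nat_lit 2) (nat_lit 3) (nat_lit 2) (nat_lit 7) (nat_lit 60) (nat_lit 7) r0_60 r4_7 (nat_lit 0) (nat_lit 0) (nat_lit 0) (nat_lit 0x7f7512f6a) (nat_lit 546825312),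
  Rx.mk (nat_lit 155) (nat_lit 3) (nat_lit 3) (nat_lit 2) (nat_lit 7) (nat_lit 61) (nat_lit 6) r0_61 r4_6 (nat_lit 0) (nat_lit 0) (nat_lit 0) (nat_lit 0x7f2c10cae) (nat_lit 551161962),
  Rx.mk (nat_lit 231) (nat_lit 7) (nat_lit 4) (nat_lit 3) (nat_lit 5) (nat_lit 62) (nat_lit 3) r0_62 r4_3 (nat_lit 0) (nat_lit 11579015) (nat_lit 0) (nat_lit 0x7fd79e04e) (nat_lit 552249627),
  Rx.mk (nat_lit 251) (nat_lit 3) (nat_lit 7) (nat_lit 3) (nat_lit 7) (nat_lit 64) (nat_lit 2) r0_64 r4_2 (nat_lit 0) (nat_lit 0) (nat_lit 0) (nat_lit 0x80a6ddf44) (nat_lit 528084262),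
  Rx.mk (nat_lit 255) (nat_lit 7) (nat_lit 7) (nat_lit 3) (nat_lit 7) (nat_lit 63) (nat_lit 4) r0_63 r4_4 (nat_lit 0) (nat_lit 0) (nat_lit 0) (nat_lit 0x804ed3af6) (nat_lit 533452762),
  Rx.mk (nat_lit 484) (nat_lit 4) (nat_lit 4) (nat_lit 7) (nat_lit 4) (nat_lit 52) (nat_lit 8) r0_52 r4_8 (nat_lit 22112455) (nat_lit 6694296) (nat_lit 0) (nat_lit 0x63f406554) (nat_lit 1019765813),
  Rx.mk (nat_lit 487) (nat_lit 7) (nat_lit 4) (nat_lit 7) (nat_lit 5) (nat_lit 55) (nat_lit 10) r0_55 r4_10 (nat_lit 0) (nat_lit 12464414) (nat_lit 0) (nat_lit 0x7d1fc1338) (nat_lit 596680676),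
  Rx.mk (nat_lit 500) (nat_lit 4) (nat_lit 6) (nat_lit 7) (nat_lit 6) (nat_lit 53) (nat_lit 9) r0_53 r4_9 (nat_lit 74749020) (nat_lit 0) (nat_lit 0) (nat_lit 0x751698fde) (nat_lit 788742832),
  Rx.mk (nat_lit 502) (nat_lit 6) (nat_lit 6) (nat_lit 7) (nat_lit 7) (nat_lit 54) (nat_lit 12) r0_54 r4_12 (nat_lit 0) (nat_lit 0) (nat_lit 0) (nat_lit 0x76aa13858) (nat_lit 688374962),
  Rx.mk (nat_lit 503) (nat_lit 7) (nat_lit 6) (nat_lit 7) (nat_lit 7) (nat_lit 56) (nat_lit 11) r0_56 r4_11 (nat_lit 0) (nat_lit 0) (nat_lit 0) (nat_lit 0x8071443a6) (nat_lit 531356412)]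
noncomputable def e22_25 : List Rx := [
  Rx.mk (nat_lit 308) (nat_lit 4) (nat_lit 6) (nat_lit 4) (nat_lit 2) (nat_lit 100) (nat_lit 96) r0_100 r7_96 (nat_lit 46745449) (nat_lit 0) (nat_lit 31904360) (nat_lit 0x5c2702b54) (nat_lit 1195869321),
  Rx.mk (nat_lit 310) (nat_lit 6) (nat_lit 6) (nat_lit 4) (nat_lit 3) (nat_lit 101) (nat_lit 99) r0_101 r7_99 (nat_lit 0) (nat_lit 0) (nat_lit 15260325) (nat_lit 0x6e0d6284a) (nat_lit 843049387),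
  Rx.mk (nat_lit 402) (nat_lit 2) (nat_lit 2) (nat_lit 6) (nat_lit 7) (nat_lit 104) (nat_lit 103) r0_104 r7_103 (nat_lit 0) (nat_lit 0) (nat_lit 0) (nat_lit 0x7ffe471c8) (nat_lit 538421712),
  Rx.mk (nat_lit 406) (nat_lit 6) (nat_lit 2) (nat_lit 6) (nat_lit 7) (nat_lit 103) (nat_lit 102) r0_103 r7_102 (nat_lit 0) (nat_lit 0) (nat_lit 0) (nat_lit 0x8017985b4) (nat_lit 536870912),
  Rx.mk (nat_lit 438) (nat_lit 6) (nat_lit 6) (nat_lit 6) (nat_lit 7) (nat_lit 102) (nat_lit 101) r0_102 r7_101 (nat_lit 0) (nat_lit 0) (nat_lit 0) (nat_lit 0x7dc623460) (nat_lit 573811562),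
  Rx.mk (nat_lit 484) (nat_lit 4) (nat_lit 4) (nat_lit 7) (nat_lit 4) (nat_lit 105) (nat_lit 93) r0_105 r7_93 (nat_lit 9373510) (nat_lit 4536926) (nat_lit 0) (nat_lit 0x680227486) (nat_lit 939230248),
  Rx.mk (nat_lit 487) (nat_lit 7) (nat_lit 4) (nat_lit 7) (nat_lit 5) (nat_lit 108) (nat_lit 94) r0_108 r7_94 (nat_lit 0) (nat_lit 24727622) (nat_lit 0) (nat_lit 0x7be4cbc66) (nat_lit 628839434),
  Rx.mk (nat_lit 500) (nat_lit 4) (nat_lit 6) (nat_lit 7) (nat_lit 6) (nat_lit 106) (nat_lit 97) r0_106 r7_97 (nat_lit 73862049) (nat_lit 0) (nat_lit 0) (nat_lit 0x7d468cf26) (nat_lit 655662261),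
  Rx.mk (nat_lit 502) (nat_lit 6) (nat_lit 6) (nat_lit 7) (nat_lit 7) (nat_lit 107) (nat_lit 100) r0_107 r7_100 (nat_lit 0) (nat_lit 0) (nat_lit 0) (nat_lit 0x7fdfab7e6) (nat_lit 540283862),
  Rx.mk (nat_lit 503) (nat_lit 7) (nat_lit 6) (nat_lit 7) (nat_lit 7) (nat_lit 109) (nat_lit 98) r0_109 r7_98 (nat_lit 0) (nat_lit 0) (nat_lit 0) (nat_lit 0x7ff31a048) (nat_lit 539113112),
  Rx.mk (nat_lit 511) (nat_lit 7) (nat_lit 7) (nat_lit 7) (nat_lit 7) (nat_lit 110) (nat_lit 95) r0_110 r7_95 (nat_lit 0) (nat_lit 0) (nat_lit 0) (nat_lit 0x8017985b4) (nat_lit 536870912)]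
noncomputable def e22_26 : List Rx := [
  Rx.mk (nat_lit 402) (nat_lit 2) (nat_lit 2) (nat_lit 6) (nat_lit 7) (nat_lit 140) (nat_lit 77) r0_140 r8_77 (nat_lit 0) (nat_lit 0) (nat_lit 0) (nat_lit 0x8017985b4) (nat_lit 536870912),
  Rx.mk (nat_lit 406) (nat_lit 6) (nat_lit 2) (nat_lit 6) (nat_lit 7) (nat_lit 139) (nat_lit 76) r0_139 r8_76 (nat_lit 0) (nat_lit 0) (nat_lit 0) (nat_lit 0x8017985b4) (nat_lit 536870912)]
noncomputable def e22_27 : List Rx := [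
  Rx.mk (nat_lit 292) (nat_lit 4) (nat_lit 4) (nat_lit 4) (nat_lit 0) (nat_lit 124) (nat_lit 0) r0_124 r8_0 (nat_lit 37018604) (nat_lit 11031913) (nat_lit 7939868) (nat_lit 0x2f3402ffc) (nat_lit 1899960047),
  Rx.mk (nat_lit 308) (nat_lit 4) (nat_lit 6) (nat_lit 4) (nat_lit 2) (nat_lit 125) (nat_lit 1) r0_125 r8_1 (nat_lit 43759254) (nat_lit 0) (nat_lit 26421063) (nat_lit 0x5ccc534e6) (nat_lit 1176984379),
  Rx.mk (nat_lit 310) (nat_lit 6) (nat_lit 6) (nat_lit 4) (nat_lit 3) (nat_lit 126) (nat_lit 2) r0_126 r8_2 (nat_lit 0) (nat_lit 0) (nat_lit 19040660) (nat_lit 0x6f984888c) (nat_lit 821904322),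
  Rx.mk (nat_lit 356) (nat_lit 4) (nat_lit 4) (nat_lit 5) (nat_lit 4) (nat_lit 127) (nat_lit 3) r0_127 r8_3 (nat_lit 82416712) (nat_lit 32206150) (nat_lit 0) (nat_lit 0x66c0ffdc4) (nat_lit 1060452374),
  Rx.mk (nat_lit 372) (nat_lit 4) (nat_lit 6) (nat_lit 5) (nat_lit 6) (nat_lit 128) (nat_lit 4) r0_128 r8_4 (nat_lit 28052384) (nat_lit 0) (nat_lit 0) (nat_lit 0x7ecc55e04) (nat_lit 585422396),
  Rx.mk (nat_lit 374) (nat_lit 6) (nat_lit 6) (nat_lit 5) (nat_lit 7) (nat_lit 129) (nat_lit 5) r0_129 r8_5 (nat_lit 0) (nat_lit 0) (nat_lit 0) (nat_lit 0x7feae9d88) (nat_lit 539601062),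
  Rx.mk (nat_lit 402) (nat_lit 2) (nat_lit 2) (nat_lit 6) (nat_lit 7) (nat_lit 132) (nat_lit 12) r0_132 r8_12 (nat_lit 0) (nat_lit 0) (nat_lit 0) (nat_lit 0x8017985b4) (nat_lit 536870912),
  Rx.mk (nat_lit 406) (nat_lit 6) (nat_lit 2) (nat_lit 6) (nat_lit 7) (nat_lit 131) (nat_lit 13) r0_131 r8_13 (nat_lit 0) (nat_lit 0) (nat_lit 0) (nat_lit 0x8017985b4) (nat_lit 536870912),
  Rx.mk (nat_lit 438) (nat_lit 6) (nat_lit 6) (nat_lit 6) (nat_lit 7) (nat_lit 130) (nat_lit 14) r0_130 r8_14 (nat_lit 0) (nat_lit 0) (nat_lit 0) (nat_lit 0x7fa4b61a4) (nat_lit 543932912),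
  Rx.mk (nat_lit 484) (nat_lit 4) (nat_lit 4) (nat_lit 7) (nat_lit 4) (nat_lit 133) (nat_lit 6) r0_133 r8_6 (nat_lit 54286075) (nat_lit 35479035) (nat_lit 0) (nat_lit 0x62e45b6c8) (nat_lit 1098022322),
  Rx.mk (nat_lit 487) (nat_lit 7) (nat_lit 4) (nat_lit 7) (nat_lit 5) (nat_lit 136) (nat_lit 8) r0_136 r8_8 (nat_lit 0) (nat_lit 31117367) (nat_lit 0) (nat_lit 0x7e047cca2) (nat_lit 600994729),
  Rx.mk (nat_lit 500) (nat_lit 4) (nat_lit 6) (nat_lit 7) (nat_lit 6) (nat_lit 134) (nat_lit 7) r0_134 r8_7 (nat_lit 28597756) (nat_lit 0) (nat_lit 0) (nat_lit 0x7fab4f40c) (nat_lit 572118568),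
  Rx.mk (nat_lit 502) (nat_lit 6) (nat_lit 6) (nat_lit 7) (nat_lit 7) (nat_lit 135) (nat_lit 11) r0_135 r8_11 (nat_lit 0) (nat_lit 0) (nat_lit 0) (nat_lit 0x7ffc6e694) (nat_lit 538526762),
  Rx.mk (nat_lit 503) (nat_lit 7) (nat_lit 6) (nat_lit 7) (nat_lit 7) (nat_lit 137) (nat_lit 10) r0_137 r8_10 (nat_lit 0) (nat_lit 0) (nat_lit 0) (nat_lit 0x8017985b4) (nat_lit 536870912),
  Rx.mk (nat_lit 511) (nat_lit 7) (nat_lit 7) (nat_lit 7) (nat_lit 7) (nat_lit 138) (nat_lit 9) r0_138 r8_9 (nat_lit 0) (nat_lit 0) (nat_lit 0) (nat_lit 0x8017985b4) (nat_lit 536870912)]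
noncomputable def e22_28 : List Rx := [
  Rx.mk (nat_lit 484) (nat_lit 4) (nat_lit 4) (nat_lit 7) (nat_lit 4) (nat_lit 147) (nat_lit 77) r0_147 r10_77 (nat_lit 5072318) (nat_lit 2583088) (nat_lit 0) (nat_lit 0x6af50b056) (nat_lit 885195018),
  Rx.mk (nat_lit 487) (nat_lit 7) (nat_lit 4) (nat_lit 7) (nat_lit 5) (nat_lit 150) (nat_lit 78) r0_150 r10_78 (nat_lit 0) (nat_lit 21612680) (nat_lit 0) (nat_lit 0x79ca6153a) (nat_lit 659669742),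
  Rx.mk (nat_lit 500) (nat_lit 4) (nat_lit 6) (nat_lit 7) (nat_lit 6) (nat_lit 148) (nat_lit 79) r0_148 r10_79 (nat_lit 61676723) (nat_lit 0) (nat_lit 0) (nat_lit 0x7d6a0fc8c) (nat_lit 641243735),
  Rx.mk (nat_lit 502) (nat_lit 6) (nat_lit 6) (nat_lit 7) (nat_lit 7) (nat_lit 149) (nat_lit 81) r0_149 r10_81 (nat_lit 0) (nat_lit 0) (nat_lit 0) (nat_lit 0x7fef30450) (nat_lit 539335212),
  Rx.mk (nat_lit 503) (nat_lit 7) (nat_lit 6) (nat_lit 7) (nat_lit 7) (nat_lit 151) (nat_lit 80) r0_151 r10_80 (nat_lit 0) (nat_lit 0) (nat_lit 0) (nat_lit 0x7fba6e0c8) (nat_lit 542601512)]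
noncomputable def e22_29 : List Rx := [
  Rx.mk (nat_lit 27) (nat_lit 3) (nat_lit 3) (nat_lit 0) (nat_lit 3) (nat_lit 217) (nat_lit 99) r0_217 r11_99 (nat_lit 0) (nat_lit 0) (nat_lit 11279401) (nat_lit 0x78e6c8c2e) (nat_lit 663631063),
  Rx.mk (nat_lit 59) (nat_lit 3) (nat_lit 7) (nat_lit 0) (nat_lit 3) (nat_lit 216) (nat_lit 96) r0_216 r11_96 (nat_lit 0) (nat_lit 0) (nat_lit 12688314) (nat_lit 0x803b0d346) (nat_lit 547294026),
  Rx.mk (nat_lit 63) (nat_lit 7) (nat_lit 7) (nat_lit 0) (nat_lit 3) (nat_lit 215) (nat_lit 94) r0_215 r11_94 (nat_lit 0) (nat_lit 0) (nat_lit 14894858) (nat_lit 0x800926332) (nat_lit 552590770),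
  Rx.mk (nat_lit 155) (nat_lit 3) (nat_lit 3) (nat_lit 2) (nat_lit 7) (nat_lit 218) (nat_lit 100) r0_218 r11_100 (nat_lit 0) (nat_lit 0) (nat_lit 0) (nat_lit 0x81065e126) (nat_lit 522185862),
  Rx.mk (nat_lit 228) (nat_lit 4) (nat_lit 4) (nat_lit 3) (nat_lit 4) (nat_lit 219) (nat_lit 92) r0_219 r11_92 (nat_lit 9949213) (nat_lit 7944298) (nat_lit 0) (nat_lit 0x6fc82cfd0) (nat_lit 817619223),
  Rx.mk (nat_lit 231) (nat_lit 7) (nat_lit 4) (nat_lit 3) (nat_lit 5) (nat_lit 220) (nat_lit 93) r0_220 r11_93 (nat_lit 0) (nat_lit 15086968) (nat_lit 0) (nat_lit 0x80b26ae3e) (nat_lit 542475880),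
  Rx.mk (nat_lit 255) (nat_lit 7) (nat_lit 7) (nat_lit 3) (nat_lit 7) (nat_lit 221) (nat_lit 95) r0_221 r11_95 (nat_lit 0) (nat_lit 0) (nat_lit 0) (nat_lit 0x805e5975a) (nat_lit 532528962),
  Rx.mk (nat_lit 484) (nat_lit 4) (nat_lit 4) (nat_lit 7) (nat_lit 4) (nat_lit 212) (nat_lit 91) r0_212 r11_91 (nat_lit 170327518) (nat_lit 18712504) (nat_lit 0) (nat_lit 0x72fa2386a) (nat_lit 937148384),
  Rx.mk (nat_lit 500) (nat_lit 4) (nat_lit 6) (nat_lit 7) (nat_lit 6) (nat_lit 213) (nat_lit 97) r0_213 r11_97 (nat_lit 153834335) (nat_lit 0) (nat_lit 0) (nat_lit 0x7ce2c9da4) (nat_lit 741924097),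
  Rx.mk (nat_lit 502) (nat_lit 6) (nat_lit 6) (nat_lit 7) (nat_lit 7) (nat_lit 214) (nat_lit 98) r0_214 r11_98 (nat_lit 0) (nat_lit 0) (nat_lit 0) (nat_lit 0x8056e7ad0) (nat_lit 532778862)]
noncomputable def e22_30 : List Rx := [
  Rx.mk (nat_lit 47) (nat_lit 7) (nat_lit 5) (nat_lit 0) (nat_lit 3) (nat_lit 315) (nat_lit 252) r0_315 r5_252 (nat_lit 0) (nat_lit 0) (nat_lit 10663228) (nat_lit 0x7da55c5ce) (nat_lit 586217240),
  Rx.mk (nat_lit 103) (nat_lit 7) (nat_lit 4) (nat_lit 1) (nat_lit 5) (nat_lit 316) (nat_lit 253) r0_316 r5_253 (nat_lit 0) (nat_lit 6936321) (nat_lit 0) (nat_lit 0x7b9f03d96) (nat_lit 615253533),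
  Rx.mk (nat_lit 111) (nat_lit 7) (nat_lit 5) (nat_lit 1) (nat_lit 7) (nat_lit 317) (nat_lit 254) r0_317 r5_254 (nat_lit 0) (nat_lit 0) (nat_lit 0) (nat_lit 0x8071fa930) (nat_lit 530954762)]
noncomputable def e22_31 : List Rx := [
  Rx.mk (nat_lit 103) (nat_lit 7) (nat_lit 4) (nat_lit 1) (nat_lit 5) (nat_lit 328) (nat_lit 298) r0_328 r11_298 (nat_lit 0) (nat_lit 19793988) (nat_lit 0) (nat_lit 0x801bf7722) (nat_lit 556379500),
  Rx.mk (nat_lit 111) (nat_lit 7) (nat_lit 5) (nat_lit 1) (nat_lit 7) (nat_lit 329) (nat_lit 299) r0_329 r11_299 (nat_lit 0) (nat_lit 0) (nat_lit 0) (nat_lit 0x8017985b4) (nat_lit 536870912)]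
noncomputable def e22_32 : List Rx := [
  Rx.mk (nat_lit 35) (nat_lit 3) (nat_lit 4) (nat_lit 0) (nat_lit 1) (nat_lit 82) (nat_lit 51) r0_82 r6_51 (nat_lit 0) (nat_lit 1834824) (nat_lit 2752324) (nat_lit 0x5acd8ab40) (nat_lit 1143327010),
  Rx.mk (nat_lit 43) (nat_lit 3) (nat_lit 5) (nat_lit 0) (nat_lit 3) (nat_lit 83) (nat_lit 52) r0_83 r6_52 (nat_lit 0) (nat_lit 0) (nat_lit 13075147) (nat_lit 0x78e3d9b80) (nat_lit 665603759),
  Rx.mk (nat_lit 59) (nat_lit 3) (nat_lit 7) (nat_lit 0) (nat_lit 3) (nat_lit 84) (nat_lit 53) r0_84 r6_53 (nat_lit 0) (nat_lit 0) (nat_lit 9488112) (nat_lit 0x7869953b0) (nat_lit 669747474),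
  Rx.mk (nat_lit 227) (nat_lit 3) (nat_lit 4) (nat_lit 3) (nat_lit 5) (nat_lit 87) (nat_lit 54) r0_87 r6_54 (nat_lit 0) (nat_lit 18629772) (nat_lit 0) (nat_lit 0x7b316cfbc) (nat_lit 634046784),
  Rx.mk (nat_lit 231) (nat_lit 7) (nat_lit 4) (nat_lit 3) (nat_lit 5) (nat_lit 85) (nat_lit 49) r0_85 r6_49 (nat_lit 0) (nat_lit 4982960) (nat_lit 0) (nat_lit 0x7f97fd5b6) (nat_lit 549398922),
  Rx.mk (nat_lit 235) (nat_lit 3) (nat_lit 5) (nat_lit 3) (nat_lit 7) (nat_lit 88) (nat_lit 55) r0_88 r6_55 (nat_lit 0) (nat_lit 0) (nat_lit 0) (nat_lit 0x8116bf43e) (nat_lit 521295912),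
  Rx.mk (nat_lit 239) (nat_lit 7) (nat_lit 5) (nat_lit 3) (nat_lit 7) (nat_lit 86) (nat_lit 50) r0_86 r6_50 (nat_lit 0) (nat_lit 0) (nat_lit 0) (nat_lit 0x8ecace6ac) (nat_lit 311796962)]
noncomputable def e22_33 : List Rx := [
  Rx.mk (nat_lit 59) (nat_lit 3) (nat_lit 7) (nat_lit 0) (nat_lit 3) (nat_lit 67) (nat_lit 0) r0_67 r5_0 (nat_lit 0) (nat_lit 0) (nat_lit 3027604) (nat_lit 0x6b9390500) (nat_lit 870600266),
  Rx.mk (nat_lit 227) (nat_lit 3) (nat_lit 4) (nat_lit 3) (nat_lit 5) (nat_lit 69) (nat_lit 1) r0_69 r5_1 (nat_lit 0) (nat_lit 3947515) (nat_lit 0) (nat_lit 0x65de79e82) (nat_lit 963893527),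
  Rx.mk (nat_lit 231) (nat_lit 7) (nat_lit 4) (nat_lit 3) (nat_lit 5) (nat_lit 68) (nat_lit 3) r0_68 r5_3 (nat_lit 0) (nat_lit 2967474) (nat_lit 0) (nat_lit 0x6ee61820c) (nat_lit 816847386),
  Rx.mk (nat_lit 251) (nat_lit 3) (nat_lit 7) (nat_lit 3) (nat_lit 7) (nat_lit 70) (nat_lit 2) r0_70 r5_2 (nat_lit 0) (nat_lit 0) (nat_lit 0) (nat_lit 0x7d9d38000) (nat_lit 576358762),
  Rx.mk (nat_lit 487) (nat_lit 7) (nat_lit 4) (nat_lit 7) (nat_lit 5) (nat_lit 65) (nat_lit 4) r0_65 r5_4 (nat_lit 0) (nat_lit 5300773) (nat_lit 0) (nat_lit 0x744841172) (nat_lit 732209835),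
  Rx.mk (nat_lit 503) (nat_lit 7) (nat_lit 6) (nat_lit 7) (nat_lit 7) (nat_lit 66) (nat_lit 5) r0_66 r5_5 (nat_lit 0) (nat_lit 0) (nat_lit 0) (nat_lit 0x7e757e964) (nat_lit 562790112)]
noncomputable def e22_34 : List Rx := [
  Rx.mk (nat_lit 487) (nat_lit 7) (nat_lit 4) (nat_lit 7) (nat_lit 5) (nat_lit 152) (nat_lit 0) r0_152 r11_0 (nat_lit 0) (nat_lit 24142843) (nat_lit 0) (nat_lit 0x7ecf6cf52) (nat_lit 581323155),
  Rx.mk (nat_lit 503) (nat_lit 7) (nat_lit 6) (nat_lit 7) (nat_lit 7) (nat_lit 153) (nat_lit 1) r0_153 r11_1 (nat_lit 0) (nat_lit 0) (nat_lit 0) (nat_lit 0x80194a9fc) (nat_lit 536773062)]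
noncomputable def e22_35 : List Rx := [
  Rx.mk (nat_lit 43) (nat_lit 3) (nat_lit 5) (nat_lit 0) (nat_lit 3) (nat_lit 223) (nat_lit 278) r0_223 r6_278 (nat_lit 0) (nat_lit 0) (nat_lit 15883932) (nat_lit 0x7b9d7068c) (nat_lit 624376294),
  Rx.mk (nat_lit 47) (nat_lit 7) (nat_lit 5) (nat_lit 0) (nat_lit 3) (nat_lit 222) (nat_lit 279) r0_222 r6_279 (nat_lit 0) (nat_lit 0) (nat_lit 52275) (nat_lit 0x8149ad206) (nat_lit 517293887)]
noncomputable def e22_36 : List Rx := [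
  Rx.mk (nat_lit 35) (nat_lit 3) (nat_lit 4) (nat_lit 0) (nat_lit 1) (nat_lit 238) (nat_lit 169) r0_238 r12_169 (nat_lit 0) (nat_lit 939367) (nat_lit 1147203) (nat_lit 0x56a34f6d6) (nat_lit 1208040532),
  Rx.mk (nat_lit 39) (nat_lit 7) (nat_lit 4) (nat_lit 0) (nat_lit 1) (nat_lit 236) (nat_lit 172) r0_236 r12_172 (nat_lit 0) (nat_lit 337141) (nat_lit 483498) (nat_lit 0x69bd8207c) (nat_lit 897741001),
  Rx.mk (nat_lit 43) (nat_lit 3) (nat_lit 5) (nat_lit 0) (nat_lit 3) (nat_lit 239) (nat_lit 170) r0_239 r12_170 (nat_lit 0) (nat_lit 0) (nat_lit 17412885) (nat_lit 0x6e9844ff8) (nat_lit 836304197),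
  Rx.mk (nat_lit 47) (nat_lit 7) (nat_lit 5) (nat_lit 0) (nat_lit 3) (nat_lit 237) (nat_lit 174) r0_237 r12_174 (nat_lit 0) (nat_lit 0) (nat_lit 110144) (nat_lit 0x82822bbe0) (nat_lit 498750706),
  Rx.mk (nat_lit 59) (nat_lit 3) (nat_lit 7) (nat_lit 0) (nat_lit 3) (nat_lit 240) (nat_lit 171) r0_240 r12_171 (nat_lit 0) (nat_lit 0) (nat_lit 5034045) (nat_lit 0x6bcc7805c) (nat_lit 869121807),
  Rx.mk (nat_lit 231) (nat_lit 7) (nat_lit 4) (nat_lit 3) (nat_lit 5) (nat_lit 241) (nat_lit 173) r0_241 r12_173 (nat_lit 0) (nat_lit 7132573) (nat_lit 0) (nat_lit 0x7f5e76888) (nat_lit 555234485),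
  Rx.mk (nat_lit 239) (nat_lit 7) (nat_lit 5) (nat_lit 3) (nat_lit 7) (nat_lit 242) (nat_lit 175) r0_242 r12_175 (nat_lit 0) (nat_lit 0) (nat_lit 0) (nat_lit 0x91ea2ede6) (nat_lit 264130312)]
noncomputable def e22_37 : List Rx := [
  Rx.mk (nat_lit 11) (nat_lit 3) (nat_lit 1) (nat_lit 0) (nat_lit 3) (nat_lit 72) (nat_lit 73) r0_72 r0_73 (nat_lit 0) (nat_lit 0) (nat_lit 11196067) (nat_lit 0x781247b62) (nat_lit 676967229),
  Rx.mk (nat_lit 136) (nat_lit 0) (nat_lit 1) (nat_lit 2) (nat_lit 6) (nat_lit 73) (nat_lit 72) r0_73 r0_72 (nat_lit 11196067) (nat_lit 0) (nat_lit 0) (nat_lit 0x781247b62) (nat_lit 676967229),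
  Rx.mk (nat_lit 139) (nat_lit 3) (nat_lit 1) (nat_lit 2) (nat_lit 7) (nat_lit 74) (nat_lit 74) r0_74 r0_74 (nat_lit 0) (nat_lit 0) (nat_lit 0) (nat_lit 0x7ff019722) (nat_lit 539153312)]
noncomputable def e22_38 : List Rx := [
  Rx.mk (nat_lit 40) (nat_lit 0) (nat_lit 5) (nat_lit 0) (nat_lit 2) (nat_lit 171) (nat_lit 248) r0_171 r0_248 (nat_lit 19628) (nat_lit 0) (nat_lit 1057520207) (nat_lit 0x8001a79da) (nat_lit 1594326447),
  Rx.mk (nat_lit 41) (nat_lit 1) (nat_lit 5) (nat_lit 0) (nat_lit 3) (nat_lit 172) (nat_lit 249) r0_172 r0_249 (nat_lit 0) (nat_lit 0) (nat_lit 495476102) (nat_lit 0x7bfc24796) (nat_lit 1097908564)]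
noncomputable def e22_39 : List Rx := [
  Rx.mk (nat_lit 8) (nat_lit 0) (nat_lit 1) (nat_lit 0) (nat_lit 2) (nat_lit 178) (nat_lit 57) r0_178 r7_57 (nat_lit 5394699) (nat_lit 0) (nat_lit 10270932) (nat_lit 0x5fa366a58) (nat_lit 1076368243),
  Rx.mk (nat_lit 9) (nat_lit 1) (nat_lit 1) (nat_lit 0) (nat_lit 3) (nat_lit 180) (nat_lit 60) r0_180 r7_60 (nat_lit 0) (nat_lit 0) (nat_lit 23289893) (nat_lit 0x7d8545704) (nat_lit 601157455),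
  Rx.mk (nat_lit 11) (nat_lit 3) (nat_lit 1) (nat_lit 0) (nat_lit 3) (nat_lit 181) (nat_lit 62) r0_181 r7_62 (nat_lit 0) (nat_lit 0) (nat_lit 39572657) (nat_lit 0x7fce955ba) (nat_lit 580469619),
  Rx.mk (nat_lit 40) (nat_lit 0) (nat_lit 5) (nat_lit 0) (nat_lit 2) (nat_lit 177) (nat_lit 56) r0_177 r7_56 (nat_lit 3400781) (nat_lit 0) (nat_lit 7378942) (nat_lit 0x545558bfa) (nat_lit 1254182035),
  Rx.mk (nat_lit 41) (nat_lit 1) (nat_lit 5) (nat_lit 0) (nat_lit 3) (nat_lit 179) (nat_lit 59) r0_179 r7_59 (nat_lit 0) (nat_lit 0) (nat_lit 10961872) (nat_lit 0x71abf8114) (nat_lit 780182384),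
  Rx.mk (nat_lit 136) (nat_lit 0) (nat_lit 1) (nat_lit 2) (nat_lit 6) (nat_lit 182) (nat_lit 58) r0_182 r7_58 (nat_lit 7741900) (nat_lit 0) (nat_lit 0) (nat_lit 0x80bec9efa) (nat_lit 534261362),
  Rx.mk (nat_lit 137) (nat_lit 1) (nat_lit 1) (nat_lit 2) (nat_lit 7) (nat_lit 183) (nat_lit 61) r0_183 r7_61 (nat_lit 0) (nat_lit 0) (nat_lit 0) (nat_lit 0x80877ffc6) (nat_lit 529984012),
  Rx.mk (nat_lit 139) (nat_lit 3) (nat_lit 1) (nat_lit 2) (nat_lit 7) (nat_lit 184) (nat_lit 63) r0_184 r7_63 (nat_lit 0) (nat_lit 0) (nat_lit 0) (nat_lit 0x80b89b4d4) (nat_lit 527012662)]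
noncomputable def e22_40 : List Rx := [
  Rx.mk (nat_lit 41) (nat_lit 1) (nat_lit 5) (nat_lit 0) (nat_lit 3) (nat_lit 286) (nat_lit 280) r0_286 r2_280 (nat_lit 0) (nat_lit 0) (nat_lit 29130114) (nat_lit 0x7eda42850) (nat_lit 585601326),
  Rx.mk (nat_lit 45) (nat_lit 5) (nat_lit 5) (nat_lit 0) (nat_lit 3) (nat_lit 285) (nat_lit 281) r0_285 r2_281 (nat_lit 0) (nat_lit 0) (nat_lit 65725081) (nat_lit 0x7b4d9ae64) (nat_lit 679298593),
  Rx.mk (nat_lit 105) (nat_lit 1) (nat_lit 5) (nat_lit 1) (nat_lit 7) (nat_lit 288) (nat_lit 282) r0_288 r2_282 (nat_lit 0) (nat_lit 0) (nat_lit 0) (nat_lit 0x8017985b4) (nat_lit 536870912),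
  Rx.mk (nat_lit 109) (nat_lit 5) (nat_lit 5) (nat_lit 1) (nat_lit 7) (nat_lit 287) (nat_lit 283) r0_287 r2_283 (nat_lit 0) (nat_lit 0) (nat_lit 0) (nat_lit 0x8017985b4) (nat_lit 536870912)]
noncomputable def e22_41 : List Rx := [
  Rx.mk (nat_lit 9) (nat_lit 1) (nat_lit 1) (nat_lit 0) (nat_lit 3) (nat_lit 295) (nat_lit 250) r0_295 r9_250 (nat_lit 0) (nat_lit 0) (nat_lit 25628035) (nat_lit 0x7c71b8854) (nat_lit 620861597),
  Rx.mk (nat_lit 41) (nat_lit 1) (nat_lit 5) (nat_lit 0) (nat_lit 3) (nat_lit 294) (nat_lit 253) r0_294 r9_253 (nat_lit 0) (nat_lit 0) (nat_lit 27813133) (nat_lit 0x7ac35ec14) (nat_lit 650184545),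
  Rx.mk (nat_lit 45) (nat_lit 5) (nat_lit 5) (nat_lit 0) (nat_lit 3) (nat_lit 293) (nat_lit 254) r0_293 r9_254 (nat_lit 0) (nat_lit 0) (nat_lit 27880557) (nat_lit 0x735c96bb4) (nat_lit 769863869),
  Rx.mk (nat_lit 73) (nat_lit 1) (nat_lit 1) (nat_lit 1) (nat_lit 7) (nat_lit 298) (nat_lit 251) r0_298 r9_251 (nat_lit 0) (nat_lit 0) (nat_lit 0) (nat_lit 0x7fa3dbc34) (nat_lit 543982362),
  Rx.mk (nat_lit 105) (nat_lit 1) (nat_lit 5) (nat_lit 1) (nat_lit 7) (nat_lit 297) (nat_lit 255) r0_297 r9_255 (nat_lit 0) (nat_lit 0) (nat_lit 0) (nat_lit 0x7fe5db210) (nat_lit 539920162),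
  Rx.mk (nat_lit 109) (nat_lit 5) (nat_lit 5) (nat_lit 1) (nat_lit 7) (nat_lit 296) (nat_lit 256) r0_296 r9_256 (nat_lit 0) (nat_lit 0) (nat_lit 0) (nat_lit 0x7ff5e805e) (nat_lit 538935112),
  Rx.mk (nat_lit 137) (nat_lit 1) (nat_lit 1) (nat_lit 2) (nat_lit 7) (nat_lit 299) (nat_lit 252) r0_299 r9_252 (nat_lit 0) (nat_lit 0) (nat_lit 0) (nat_lit 0x7fed20192) (nat_lit 539467362)]
noncomputable def e22_42 : List Rx := [
  Rx.mk (nat_lit 105) (nat_lit 1) (nat_lit 5) (nat_lit 1) (nat_lit 7) (nat_lit 292) (nat_lit 249) r0_292 r9_249 (nat_lit 0) (nat_lit 0) (nat_lit 0) (nat_lit 0x7fa7f11e8) (nat_lit 543731812),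
  Rx.mk (nat_lit 109) (nat_lit 5) (nat_lit 5) (nat_lit 1) (nat_lit 7) (nat_lit 291) (nat_lit 248) r0_291 r9_248 (nat_lit 0) (nat_lit 0) (nat_lit 0) (nat_lit 0x7f706cec0) (nat_lit 547165662)]
noncomputable def e22_43 : List Rx := [
  Rx.mk (nat_lit 41) (nat_lit 1) (nat_lit 5) (nat_lit 0) (nat_lit 3) (nat_lit 173) (nat_lit 255) r0_173 r1_255 (nat_lit 0) (nat_lit 0) (nat_lit 106862022) (nat_lit 0x7ee0fa15c) (nat_lit 662779834)]
noncomputable def e22_44 : List Rx := [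
  Rx.mk (nat_lit 9) (nat_lit 1) (nat_lit 1) (nat_lit 0) (nat_lit 3) (nat_lit 186) (nat_lit 64) r0_186 r8_64 (nat_lit 0) (nat_lit 0) (nat_lit 26500941) (nat_lit 0x7c9c5d064) (nat_lit 619045003),
  Rx.mk (nat_lit 41) (nat_lit 1) (nat_lit 5) (nat_lit 0) (nat_lit 3) (nat_lit 185) (nat_lit 63) r0_185 r8_63 (nat_lit 0) (nat_lit 0) (nat_lit 17259595) (nat_lit 0x7bf63ab82) (nat_lit 620224207),
  Rx.mk (nat_lit 137) (nat_lit 1) (nat_lit 1) (nat_lit 2) (nat_lit 7) (nat_lit 187) (nat_lit 65) r0_187 r8_65 (nat_lit 0) (nat_lit 0) (nat_lit 0) (nat_lit 0x802f4e852) (nat_lit 535398012)]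
noncomputable def e22_45 : List Rx := [
  Rx.mk (nat_lit 11) (nat_lit 3) (nat_lit 1) (nat_lit 0) (nat_lit 3) (nat_lit 75) (nat_lit 70) r0_75 r1_70 (nat_lit 0) (nat_lit 0) (nat_lit 11807158) (nat_lit 0x7ffe24146) (nat_lit 550115770),
  Rx.mk (nat_lit 136) (nat_lit 0) (nat_lit 1) (nat_lit 2) (nat_lit 6) (nat_lit 76) (nat_lit 69) r0_76 r1_69 (nat_lit 21882932) (nat_lit 0) (nat_lit 0) (nat_lit 0x7e18dc364) (nat_lit 590459594),
  Rx.mk (nat_lit 138) (nat_lit 2) (nat_lit 1) (nat_lit 2) (nat_lit 7) (nat_lit 77) (nat_lit 72) r0_77 r1_72 (nat_lit 0) (nat_lit 0) (nat_lit 0) (nat_lit 0x8008dd830) (nat_lit 537772712),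
  Rx.mk (nat_lit 139) (nat_lit 3) (nat_lit 1) (nat_lit 2) (nat_lit 7) (nat_lit 78) (nat_lit 71) r0_78 r1_71 (nat_lit 0) (nat_lit 0) (nat_lit 0) (nat_lit 0x8272ee83a) (nat_lit 500330612)]
noncomputable def e22_46 : List Rx := [
  Rx.mk (nat_lit 3) (nat_lit 3) (nat_lit 0) (nat_lit 0) (nat_lit 1) (nat_lit 31) (nat_lit 64) r0_31 r2_64 (nat_lit 0) (nat_lit 5596514) (nat_lit 6423183) (nat_lit 0x5ddaed8d4) (nat_lit 1101594159),
  Rx.mk (nat_lit 11) (nat_lit 3) (nat_lit 1) (nat_lit 0) (nat_lit 3) (nat_lit 32) (nat_lit 65) r0_32 r2_65 (nat_lit 0) (nat_lit 0) (nat_lit 15050003) (nat_lit 0x808182fe2) (nat_lit 545392665),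
  Rx.mk (nat_lit 27) (nat_lit 3) (nat_lit 3) (nat_lit 0) (nat_lit 3) (nat_lit 33) (nat_lit 66) r0_33 r2_66 (nat_lit 0) (nat_lit 0) (nat_lit 26786742) (nat_lit 0x7e49fc304) (nat_lit 592261154),
  Rx.mk (nat_lit 128) (nat_lit 0) (nat_lit 0) (nat_lit 2) (nat_lit 4) (nat_lit 34) (nat_lit 62) r0_34 r2_62 (nat_lit 13136814) (nat_lit 4998249) (nat_lit 0) (nat_lit 0x5b905ca06) (nat_lit 1144741775),
  Rx.mk (nat_lit 130) (nat_lit 2) (nat_lit 0) (nat_lit 2) (nat_lit 5) (nat_lit 36) (nat_lit 72) r0_36 r2_72 (nat_lit 0) (nat_lit 21507758) (nat_lit 0) (nat_lit 0x7d43469ac) (nat_lit 603533220),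
  Rx.mk (nat_lit 131) (nat_lit 3) (nat_lit 0) (nat_lit 2) (nat_lit 5) (nat_lit 39) (nat_lit 68) r0_39 r2_68 (nat_lit 0) (nat_lit 5674149) (nat_lit 0) (nat_lit 0x7eaf25780) (nat_lit 564630711),
  Rx.mk (nat_lit 136) (nat_lit 0) (nat_lit 1) (nat_lit 2) (nat_lit 6) (nat_lit 35) (nat_lit 63) r0_35 r2_63 (nat_lit 28341495) (nat_lit 0) (nat_lit 0) (nat_lit 0x7c3b84864) (nat_lit 626988107),
  Rx.mk (nat_lit 138) (nat_lit 2) (nat_lit 1) (nat_lit 2) (nat_lit 7) (nat_lit 37) (nat_lit 73) r0_37 r2_73 (nat_lit 0) (nat_lit 0) (nat_lit 0) (nat_lit 0x8017985b4) (nat_lit 536870912),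
  Rx.mk (nat_lit 139) (nat_lit 3) (nat_lit 1) (nat_lit 2) (nat_lit 7) (nat_lit 40) (nat_lit 69) r0_40 r2_69 (nat_lit 0) (nat_lit 0) (nat_lit 0) (nat_lit 0x816b1f196) (nat_lit 516210712),
  Rx.mk (nat_lit 146) (nat_lit 2) (nat_lit 2) (nat_lit 2) (nat_lit 7) (nat_lit 38) (nat_lit 74) r0_38 r2_74 (nat_lit 0) (nat_lit 0) (nat_lit 0) (nat_lit 0x7ffabadac) (nat_lit 538636162),
  Rx.mk (nat_lit 155) (nat_lit 3) (nat_lit 3) (nat_lit 2) (nat_lit 7) (nat_lit 41) (nat_lit 70) r0_41 r2_70 (nat_lit 0) (nat_lit 0) (nat_lit 0) (nat_lit 0x81560cc68) (nat_lit 517481712),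
  Rx.mk (nat_lit 219) (nat_lit 3) (nat_lit 3) (nat_lit 3) (nat_lit 7) (nat_lit 42) (nat_lit 67) r0_42 r2_67 (nat_lit 0) (nat_lit 0) (nat_lit 0) (nat_lit 0x8017985b4) (nat_lit 536870912),
  Rx.mk (nat_lit 402) (nat_lit 2) (nat_lit 2) (nat_lit 6) (nat_lit 7) (nat_lit 30) (nat_lit 71) r0_30 r2_71 (nat_lit 0) (nat_lit 0) (nat_lit 0) (nat_lit 0x7ff838a16) (nat_lit 538790162)]
noncomputable def e22_47 : List Rx := [
  Rx.mk (nat_lit 8) (nat_lit 0) (nat_lit 1) (nat_lit 0) (nat_lit 2) (nat_lit 188) (nat_lit 241) r0_188 r8_241 (nat_lit 19008238) (nat_lit 0) (nat_lit 24251954) (nat_lit 0x59ee2d664) (nat_lit 1196415754),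
  Rx.mk (nat_lit 9) (nat_lit 1) (nat_lit 1) (nat_lit 0) (nat_lit 3) (nat_lit 189) (nat_lit 242) r0_189 r8_242 (nat_lit 0) (nat_lit 0) (nat_lit 26165794) (nat_lit 0x7b3e3e45c) (nat_lit 640781706),
  Rx.mk (nat_lit 11) (nat_lit 3) (nat_lit 1) (nat_lit 0) (nat_lit 3) (nat_lit 190) (nat_lit 243) r0_190 r8_243 (nat_lit 0) (nat_lit 0) (nat_lit 32293832) (nat_lit 0x808393b6a) (nat_lit 562478594),
  Rx.mk (nat_lit 136) (nat_lit 0) (nat_lit 1) (nat_lit 2) (nat_lit 6) (nat_lit 191) (nat_lit 244) r0_191 r8_244 (nat_lit 20123998) (nat_lit 0) (nat_lit 0) (nat_lit 0x7c1a22dec) (nat_lit 620862110),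
  Rx.mk (nat_lit 137) (nat_lit 1) (nat_lit 1) (nat_lit 2) (nat_lit 7) (nat_lit 192) (nat_lit 245) r0_192 r8_245 (nat_lit 0) (nat_lit 0) (nat_lit 0) (nat_lit 0x8005f486c) (nat_lit 537949312),
  Rx.mk (nat_lit 138) (nat_lit 2) (nat_lit 1) (nat_lit 2) (nat_lit 7) (nat_lit 193) (nat_lit 247) r0_193 r8_247 (nat_lit 0) (nat_lit 0) (nat_lit 0) (nat_lit 0x8017985b4) (nat_lit 536870912),
  Rx.mk (nat_lit 139) (nat_lit 3) (nat_lit 1) (nat_lit 2) (nat_lit 7) (nat_lit 194) (nat_lit 246) r0_194 r8_246 (nat_lit 0) (nat_lit 0) (nat_lit 0) (nat_lit 0x8017985b4) (nat_lit 536870912)]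
noncomputable def e22_48 : List Rx := [
  Rx.mk (nat_lit 0) (nat_lit 0) (nat_lit 0) (nat_lit 0) (nat_lit 0) (nat_lit 155) (nat_lit 23) r0_155 r9_23 (nat_lit 17383342) (nat_lit 11766479) (nat_lit 20103060) (nat_lit 0x26bb582ee) (nat_lit 2030296093),
  Rx.mk (nat_lit 3) (nat_lit 3) (nat_lit 0) (nat_lit 0) (nat_lit 1) (nat_lit 158) (nat_lit 29) r0_158 r9_29 (nat_lit 0) (nat_lit 19805728) (nat_lit 96643738) (nat_lit 0x57dc9e896) (nat_lit 1303076978),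
  Rx.mk (nat_lit 8) (nat_lit 0) (nat_lit 1) (nat_lit 0) (nat_lit 2) (nat_lit 156) (nat_lit 24) r0_156 r9_24 (nat_lit 21246965) (nat_lit 0) (nat_lit 21454755) (nat_lit 0x536054f6e) (nat_lit 1301860482),
  Rx.mk (nat_lit 9) (nat_lit 1) (nat_lit 1) (nat_lit 0) (nat_lit 3) (nat_lit 157) (nat_lit 27) r0_157 r9_27 (nat_lit 0) (nat_lit 0) (nat_lit 27681734) (nat_lit 0x7735d76f0) (nat_lit 707450746),
  Rx.mk (nat_lit 11) (nat_lit 3) (nat_lit 1) (nat_lit 0) (nat_lit 3) (nat_lit 159) (nat_lit 30) r0_159 r9_30 (nat_lit 0) (nat_lit 0) (nat_lit 39103353) (nat_lit 0x7f0bc5f80) (nat_lit 592509415),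
  Rx.mk (nat_lit 27) (nat_lit 3) (nat_lit 3) (nat_lit 0) (nat_lit 3) (nat_lit 160) (nat_lit 31) r0_160 r9_31 (nat_lit 0) (nat_lit 0) (nat_lit 140602240) (nat_lit 0x7cdd650c0) (nat_lit 729034802),
  Rx.mk (nat_lit 128) (nat_lit 0) (nat_lit 0) (nat_lit 2) (nat_lit 4) (nat_lit 161) (nat_lit 25) r0_161 r9_25 (nat_lit 15232789) (nat_lit 15320849) (nat_lit 0) (nat_lit 0x58679699e) (nat_lit 1208372050),
  Rx.mk (nat_lit 130) (nat_lit 2) (nat_lit 0) (nat_lit 2) (nat_lit 5) (nat_lit 164) (nat_lit 37) r0_164 r9_37 (nat_lit 0) (nat_lit 24266921) (nat_lit 0) (nat_lit 0x771d50316) (nat_lit 705582633),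
  Rx.mk (nat_lit 131) (nat_lit 3) (nat_lit 0) (nat_lit 2) (nat_lit 5) (nat_lit 167) (nat_lit 33) r0_167 r9_33 (nat_lit 0) (nat_lit 23123952) (nat_lit 0) (nat_lit 0x800002f3a) (nat_lit 561432214),
  Rx.mk (nat_lit 136) (nat_lit 0) (nat_lit 1) (nat_lit 2) (nat_lit 6) (nat_lit 162) (nat_lit 26) r0_162 r9_26 (nat_lit 24075478) (nat_lit 0) (nat_lit 0) (nat_lit 0x769019b32) (nat_lit 714298390),
  Rx.mk (nat_lit 137) (nat_lit 1) (nat_lit 1) (nat_lit 2) (nat_lit 7) (nat_lit 163) (nat_lit 28) r0_163 r9_28 (nat_lit 0) (nat_lit 0) (nat_lit 0) (nat_lit 0x7feb1ffb4) (nat_lit 539592162),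
  Rx.mk (nat_lit 138) (nat_lit 2) (nat_lit 1) (nat_lit 2) (nat_lit 7) (nat_lit 165) (nat_lit 38) r0_165 r9_38 (nat_lit 0) (nat_lit 0) (nat_lit 0) (nat_lit 0x7fee77a72) (nat_lit 539388362),
  Rx.mk (nat_lit 139) (nat_lit 3) (nat_lit 1) (nat_lit 2) (nat_lit 7) (nat_lit 168) (nat_lit 34) r0_168 r9_34 (nat_lit 0) (nat_lit 0) (nat_lit 0) (nat_lit 0x8017985b4) (nat_lit 536870912),
  Rx.mk (nat_lit 146) (nat_lit 2) (nat_lit 2) (nat_lit 2) (nat_lit 7) (nat_lit 166) (nat_lit 39) r0_166 r9_39 (nat_lit 0) (nat_lit 0) (nat_lit 0) (nat_lit 0x8002decd6) (nat_lit 538139162),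
  Rx.mk (nat_lit 155) (nat_lit 3) (nat_lit 3) (nat_lit 2) (nat_lit 7) (nat_lit 169) (nat_lit 35) r0_169 r9_35 (nat_lit 0) (nat_lit 0) (nat_lit 0) (nat_lit 0x8017985b4) (nat_lit 536870912),
  Rx.mk (nat_lit 219) (nat_lit 3) (nat_lit 3) (nat_lit 3) (nat_lit 7) (nat_lit 170) (nat_lit 32) r0_170 r9_32 (nat_lit 0) (nat_lit 0) (nat_lit 0) (nat_lit 0x7fec37154) (nat_lit 539516912),
  Rx.mk (nat_lit 402) (nat_lit 2) (nat_lit 2) (nat_lit 6) (nat_lit 7) (nat_lit 154) (nat_lit 36) r0_154 r9_36 (nat_lit 0) (nat_lit 0) (nat_lit 0) (nat_lit 0x8017985b4) (nat_lit 536870912)]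
noncomputable def e22_49 : List Rx := [
  Rx.mk (nat_lit 402) (nat_lit 2) (nat_lit 2) (nat_lit 6) (nat_lit 7) (nat_lit 141) (nat_lit 0) r0_141 r9_0 (nat_lit 0) (nat_lit 0) (nat_lit 0) (nat_lit 0x7fe34c40e) (nat_lit 540076362)]
noncomputable def e22_50 : List Rx := [
  Rx.mk (nat_lit 43) (nat_lit 3) (nat_lit 5) (nat_lit 0) (nat_lit 3) (nat_lit 71) (nat_lit 67) r0_71 r3_67 (nat_lit 0) (nat_lit 0) (nat_lit 2928) (nat_lit 0x806d30ec2) (nat_lit 530370140)]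
noncomputable def e22_51 : List Rx := [
  Rx.mk (nat_lit 11) (nat_lit 3) (nat_lit 1) (nat_lit 0) (nat_lit 3) (nat_lit 80) (nat_lit 69) r0_80 r4_69 (nat_lit 0) (nat_lit 0) (nat_lit 13011950) (nat_lit 0x7c2e5800a) (nat_lit 612357812),
  Rx.mk (nat_lit 43) (nat_lit 3) (nat_lit 5) (nat_lit 0) (nat_lit 3) (nat_lit 79) (nat_lit 68) r0_79 r4_68 (nat_lit 0) (nat_lit 0) (nat_lit 6167468) (nat_lit 0x5e86efab0) (nat_lit 1084789780),
  Rx.mk (nat_lit 139) (nat_lit 3) (nat_lit 1) (nat_lit 2) (nat_lit 7) (nat_lit 81) (nat_lit 70) r0_81 r4_70 (nat_lit 0) (nat_lit 0) (nat_lit 0) (nat_lit 0x7f12b28fc) (nat_lit 552544162)]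
noncomputable def e22_52 : List Rx := [
  Rx.mk (nat_lit 43) (nat_lit 3) (nat_lit 5) (nat_lit 0) (nat_lit 3) (nat_lit 89) (nat_lit 61) r0_89 r5_61 (nat_lit 0) (nat_lit 0) (nat_lit 16868928) (nat_lit 0x770328902) (nat_lit 699634640),
  Rx.mk (nat_lit 235) (nat_lit 3) (nat_lit 5) (nat_lit 3) (nat_lit 7) (nat_lit 90) (nat_lit 62) r0_90 r5_62 (nat_lit 0) (nat_lit 0) (nat_lit 0) (nat_lit 0x80cf2f8d0) (nat_lit 525470412)]
noncomputable def e22_53 : List Rx := [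
  Rx.mk (nat_lit 40) (nat_lit 0) (nat_lit 5) (nat_lit 0) (nat_lit 2) (nat_lit 174) (nat_lit 262) r0_174 r4_262 (nat_lit 1751344) (nat_lit 0) (nat_lit 200714257) (nat_lit 0x5c0ff7e00) (nat_lit 1320763563),
  Rx.mk (nat_lit 41) (nat_lit 1) (nat_lit 5) (nat_lit 0) (nat_lit 3) (nat_lit 175) (nat_lit 263) r0_175 r4_263 (nat_lit 0) (nat_lit 0) (nat_lit 51975942) (nat_lit 0x79cafc27e) (nat_lit 689883204),
  Rx.mk (nat_lit 43) (nat_lit 3) (nat_lit 5) (nat_lit 0) (nat_lit 3) (nat_lit 176) (nat_lit 264) r0_176 r4_264 (nat_lit 0) (nat_lit 0) (nat_lit 441859640) (nat_lit 0x75873a166) (nat_lit 1148413852)]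
noncomputable def e22_54 : List Rx := [
  Rx.mk (nat_lit 11) (nat_lit 3) (nat_lit 1) (nat_lit 0) (nat_lit 3) (nat_lit 198) (nat_lit 47) r0_198 r10_47 (nat_lit 0) (nat_lit 0) (nat_lit 45895857) (nat_lit 0x7fb6ad812) (nat_lit 588199269),
  Rx.mk (nat_lit 40) (nat_lit 0) (nat_lit 5) (nat_lit 0) (nat_lit 2) (nat_lit 195) (nat_lit 44) r0_195 r10_44 (nat_lit 2412373) (nat_lit 0) (nat_lit 4364993) (nat_lit 0x599f905a6) (nat_lit 1164616828),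
  Rx.mk (nat_lit 41) (nat_lit 1) (nat_lit 5) (nat_lit 0) (nat_lit 3) (nat_lit 196) (nat_lit 45) r0_196 r10_45 (nat_lit 0) (nat_lit 0) (nat_lit 12102424) (nat_lit 0x79db10b88) (nat_lit 649035436),
  Rx.mk (nat_lit 43) (nat_lit 3) (nat_lit 5) (nat_lit 0) (nat_lit 3) (nat_lit 197) (nat_lit 46) r0_197 r10_46 (nat_lit 0) (nat_lit 0) (nat_lit 70189493) (nat_lit 0x7d33fb286) (nat_lit 652998905),
  Rx.mk (nat_lit 139) (nat_lit 3) (nat_lit 1) (nat_lit 2) (nat_lit 7) (nat_lit 199) (nat_lit 48) r0_199 r10_48 (nat_lit 0) (nat_lit 0) (nat_lit 0) (nat_lit 0x809c1612e) (nat_lit 528750462)]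
noncomputable def e22_55 : List Rx := [
  Rx.mk (nat_lit 40) (nat_lit 0) (nat_lit 5) (nat_lit 0) (nat_lit 2) (nat_lit 200) (nat_lit 37) r0_200 r11_37 (nat_lit 75082556) (nat_lit 0) (nat_lit 46723193) (nat_lit 0x67eb4628a) (nat_lit 1048737861),
  Rx.mk (nat_lit 41) (nat_lit 1) (nat_lit 5) (nat_lit 0) (nat_lit 3) (nat_lit 201) (nat_lit 38) r0_201 r11_38 (nat_lit 0) (nat_lit 0) (nat_lit 24741287) (nat_lit 0x80790da56) (nat_lit 555628299),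
  Rx.mk (nat_lit 43) (nat_lit 3) (nat_lit 5) (nat_lit 0) (nat_lit 3) (nat_lit 202) (nat_lit 39) r0_202 r11_39 (nat_lit 0) (nat_lit 0) (nat_lit 41103109) (nat_lit 0x7fd7cf8c4) (nat_lit 581741021),
  Rx.mk (nat_lit 235) (nat_lit 3) (nat_lit 5) (nat_lit 3) (nat_lit 7) (nat_lit 203) (nat_lit 40) r0_203 r11_40 (nat_lit 0) (nat_lit 0) (nat_lit 0) (nat_lit 0x820bd8c36) (nat_lit 506517062)]
noncomputable def e22_56 : List Rx := [
  Rx.mk (nat_lit 43) (nat_lit 3) (nat_lit 5) (nat_lit 0) (nat_lit 3) (nat_lit 224) (nat_lit 255) r0_224 r5_255 (nat_lit 0) (nat_lit 0) (nat_lit 71218835) (nat_lit 0x7ffb5ec54) (nat_lit 608387497)]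
noncomputable def e22_57 : List Rx := [
  Rx.mk (nat_lit 11) (nat_lit 3) (nat_lit 1) (nat_lit 0) (nat_lit 3) (nat_lit 226) (nat_lit 300) r0_226 r11_300 (nat_lit 0) (nat_lit 0) (nat_lit 12926127) (nat_lit 0x800aea9a2) (nat_lit 550481389),
  Rx.mk (nat_lit 43) (nat_lit 3) (nat_lit 5) (nat_lit 0) (nat_lit 3) (nat_lit 225) (nat_lit 302) r0_225 r11_302 (nat_lit 0) (nat_lit 0) (nat_lit 9444164) (nat_lit 0x7fd819c08) (nat_lit 550012926),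
  Rx.mk (nat_lit 139) (nat_lit 3) (nat_lit 1) (nat_lit 2) (nat_lit 7) (nat_lit 227) (nat_lit 301) r0_227 r11_301 (nat_lit 0) (nat_lit 0) (nat_lit 0) (nat_lit 0x8257094c6) (nat_lit 501926062)]
noncomputable def e22 : List (List Rx) := [e22_0, e22_1, e22_2, e22_3, e22_4, e22_5, e22_6, e22_7, e22_8, e22_9, e22_10, e22_11, e22_12, e22_13, e22_14, e22_15, e22_16, e22_17, e22_18, e22_19, e22_20, e22_21, e22_22, e22_23, e22_24, e22_25, e22_26, e22_27, e22_28, e22_29, e22_30, e22_31, e22_32, e22_33, e22_34, e22_35, e22_36, e22_37, e22_38, e22_39, e22_40, e22_41, e22_42, e22_43, e22_44, e22_45, e22_46, e22_47, e22_48, e22_49, e22_50, e22_51, e22_52, e22_53, e22_54, e22_55, e22_56, e22_57]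
noncomputable def e23_0 : List Rx := [
  Rx.mk (nat_lit 108) (nat_lit 4) (nat_lit 5) (nat_lit 1) (nat_lit 6) (nat_lit 255) (nat_lit 173) r1_255 r0_173 (nat_lit 106862022) (nat_lit 0) (nat_lit 0) (nat_lit 0x7ee0fa15c) (nat_lit 662779834)]
noncomputable def e23_1 : List Rx := [
  Rx.mk (nat_lit 108) (nat_lit 4) (nat_lit 5) (nat_lit 1) (nat_lit 6) (nat_lit 273) (nat_lit 185) r1_273 r1_185 (nat_lit 27314648) (nat_lit 0) (nat_lit 0) (nat_lit 0x7fc62ebb0) (nat_lit 569113310),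
  Rx.mk (nat_lit 364) (nat_lit 4) (nat_lit 5) (nat_lit 5) (nat_lit 6) (nat_lit 272) (nat_lit 186) r1_272 r1_186 (nat_lit 25191095) (nat_lit 0) (nat_lit 0) (nat_lit 0x7f94f86e0) (nat_lit 570102157)]
noncomputable def e23_2 : List Rx := [
  Rx.mk (nat_lit 356) (nat_lit 4) (nat_lit 4) (nat_lit 5) (nat_lit 4) (nat_lit 258) (nat_lit 183) r1_258 r2_183 (nat_lit 69955890) (nat_lit 62162713) (nat_lit 0) (nat_lit 0x67d3cb8d0) (nat_lit 1060595215),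
  Rx.mk (nat_lit 364) (nat_lit 4) (nat_lit 5) (nat_lit 5) (nat_lit 6) (nat_lit 259) (nat_lit 184) r1_259 r2_184 (nat_lit 24741287) (nat_lit 0) (nat_lit 0) (nat_lit 0x8017985b4) (nat_lit 561612199),
  Rx.mk (nat_lit 372) (nat_lit 4) (nat_lit 6) (nat_lit 5) (nat_lit 6) (nat_lit 260) (nat_lit 185) r1_260 r2_185 (nat_lit 25157357) (nat_lit 0) (nat_lit 0) (nat_lit 0x800ccd3b4) (nat_lit 562687369),
  Rx.mk (nat_lit 374) (nat_lit 6) (nat_lit 6) (nat_lit 5) (nat_lit 7) (nat_lit 261) (nat_lit 186) r1_261 r2_186 (nat_lit 0) (nat_lit 0) (nat_lit 0) (nat_lit 0x8017985b4) (nat_lit 536870912)]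
noncomputable def e23_3 : List Rx := [
  Rx.mk (nat_lit 44) (nat_lit 4) (nat_lit 5) (nat_lit 0) (nat_lit 2) (nat_lit 293) (nat_lit 151) r1_293 r3_151 (nat_lit 11530) (nat_lit 0) (nat_lit 12607) (nat_lit 0x8001f4cc6) (nat_lit 536785599),
  Rx.mk (nat_lit 47) (nat_lit 7) (nat_lit 5) (nat_lit 0) (nat_lit 3) (nat_lit 294) (nat_lit 153) r1_294 r3_153 (nat_lit 0) (nat_lit 0) (nat_lit 10831797) (nat_lit 0x81a17f3bc) (nat_lit 523520059),
  Rx.mk (nat_lit 108) (nat_lit 4) (nat_lit 5) (nat_lit 1) (nat_lit 6) (nat_lit 295) (nat_lit 152) r1_295 r3_152 (nat_lit 220600) (nat_lit 0) (nat_lit 0) (nat_lit 0x7fe1be20e) (nat_lit 539042412),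
  Rx.mk (nat_lit 111) (nat_lit 7) (nat_lit 5) (nat_lit 1) (nat_lit 7) (nat_lit 296) (nat_lit 154) r1_296 r3_154 (nat_lit 0) (nat_lit 0) (nat_lit 0) (nat_lit 0x8071f5700) (nat_lit 530794662)]
noncomputable def e23_4 : List Rx := [
  Rx.mk (nat_lit 108) (nat_lit 4) (nat_lit 5) (nat_lit 1) (nat_lit 6) (nat_lit 305) (nat_lit 159) r1_305 r4_159 (nat_lit 25741495) (nat_lit 0) (nat_lit 0) (nat_lit 0x7f774491e) (nat_lit 572424907),
  Rx.mk (nat_lit 111) (nat_lit 7) (nat_lit 5) (nat_lit 1) (nat_lit 7) (nat_lit 306) (nat_lit 160) r1_306 r4_160 (nat_lit 0) (nat_lit 0) (nat_lit 0) (nat_lit 0x80964275c) (nat_lit 529102962)]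
noncomputable def e23_5 : List Rx := [
  Rx.mk (nat_lit 44) (nat_lit 4) (nat_lit 5) (nat_lit 0) (nat_lit 2) (nat_lit 311) (nat_lit 164) r1_311 r5_164 (nat_lit 8816353) (nat_lit 0) (nat_lit 14978700) (nat_lit 0x6ec49af3a) (nat_lit 839845015),
  Rx.mk (nat_lit 47) (nat_lit 7) (nat_lit 5) (nat_lit 0) (nat_lit 3) (nat_lit 312) (nat_lit 167) r1_312 r5_167 (nat_lit 0) (nat_lit 0) (nat_lit 20400359) (nat_lit 0x8039ecd5e) (nat_lit 555033421),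
  Rx.mk (nat_lit 108) (nat_lit 4) (nat_lit 5) (nat_lit 1) (nat_lit 6) (nat_lit 313) (nat_lit 165) r1_313 r5_165 (nat_lit 20314026) (nat_lit 0) (nat_lit 0) (nat_lit 0x80db604a6) (nat_lit 545190438),
  Rx.mk (nat_lit 111) (nat_lit 7) (nat_lit 5) (nat_lit 1) (nat_lit 7) (nat_lit 314) (nat_lit 168) r1_314 r5_168 (nat_lit 0) (nat_lit 0) (nat_lit 0) (nat_lit 0x8095f8012) (nat_lit 529083662),
  Rx.mk (nat_lit 236) (nat_lit 4) (nat_lit 5) (nat_lit 3) (nat_lit 6) (nat_lit 315) (nat_lit 166) r1_315 r5_166 (nat_lit 6296235) (nat_lit 0) (nat_lit 0) (nat_lit 0x7df201f0a) (nat_lit 577066447)]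
noncomputable def e23_6 : List Rx := [
  Rx.mk (nat_lit 231) (nat_lit 7) (nat_lit 4) (nat_lit 3) (nat_lit 5) (nat_lit 46) (nat_lit 106) r1_46 r3_106 (nat_lit 0) (nat_lit 47983) (nat_lit 0) (nat_lit 0x75459b28c) (nat_lit 710414795),
  Rx.mk (nat_lit 239) (nat_lit 7) (nat_lit 5) (nat_lit 3) (nat_lit 7) (nat_lit 47) (nat_lit 109) r1_47 r3_109 (nat_lit 0) (nat_lit 0) (nat_lit 0) (nat_lit 0x8b1948f84) (nat_lit 368104412),
  Rx.mk (nat_lit 251) (nat_lit 3) (nat_lit 7) (nat_lit 3) (nat_lit 7) (nat_lit 49) (nat_lit 111) r1_49 r3_111 (nat_lit 0) (nat_lit 0) (nat_lit 0) (nat_lit 0x805620b38) (nat_lit 533027112),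
  Rx.mk (nat_lit 255) (nat_lit 7) (nat_lit 7) (nat_lit 3) (nat_lit 7) (nat_lit 48) (nat_lit 110) r1_48 r3_110 (nat_lit 0) (nat_lit 0) (nat_lit 0) (nat_lit 0x80a93acb0) (nat_lit 527952812),
  Rx.mk (nat_lit 484) (nat_lit 4) (nat_lit 4) (nat_lit 7) (nat_lit 4) (nat_lit 39) (nat_lit 104) r1_39 r3_104 (nat_lit 10635) (nat_lit 4286) (nat_lit 0) (nat_lit 0x80094492c) (nat_lit 536338983),
  Rx.mk (nat_lit 487) (nat_lit 7) (nat_lit 4) (nat_lit 7) (nat_lit 5) (nat_lit 43) (nat_lit 105) r1_43 r3_105 (nat_lit 0) (nat_lit 2704556) (nat_lit 0) (nat_lit 0x7c015df14) (nat_lit 604691568),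
  Rx.mk (nat_lit 492) (nat_lit 4) (nat_lit 5) (nat_lit 7) (nat_lit 6) (nat_lit 40) (nat_lit 107) r1_40 r3_107 (nat_lit 15940000) (nat_lit 0) (nat_lit 0) (nat_lit 0x805843974) (nat_lit 548544762),
  Rx.mk (nat_lit 495) (nat_lit 7) (nat_lit 5) (nat_lit 7) (nat_lit 7) (nat_lit 44) (nat_lit 108) r1_44 r3_108 (nat_lit 0) (nat_lit 0) (nat_lit 0) (nat_lit 0x80652468e) (nat_lit 532033562),
  Rx.mk (nat_lit 500) (nat_lit 4) (nat_lit 6) (nat_lit 7) (nat_lit 6) (nat_lit 41) (nat_lit 112) r1_41 r3_112 (nat_lit 7553870) (nat_lit 0) (nat_lit 0) (nat_lit 0x7902075f8) (nat_lit 658039182),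
  Rx.mk (nat_lit 502) (nat_lit 6) (nat_lit 6) (nat_lit 7) (nat_lit 7) (nat_lit 42) (nat_lit 114) r1_42 r3_114 (nat_lit 0) (nat_lit 0) (nat_lit 0) (nat_lit 0x80556b2ba) (nat_lit 532838362),
  Rx.mk (nat_lit 503) (nat_lit 7) (nat_lit 6) (nat_lit 7) (nat_lit 7) (nat_lit 45) (nat_lit 113) r1_45 r3_113 (nat_lit 0) (nat_lit 0) (nat_lit 0) (nat_lit 0x7fd885e1c) (nat_lit 540659262)]
noncomputable def e23_7 : List Rx := [
  Rx.mk (nat_lit 292) (nat_lit 4) (nat_lit 4) (nat_lit 4) (nat_lit 0) (nat_lit 94) (nat_lit 111) r1_94 r0_111 (nat_lit 704331784) (nat_lit 15478) (nat_lit 15924) (nat_lit 0x7ffceaa5a) (nat_lit 1241434748),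
  Rx.mk (nat_lit 300) (nat_lit 4) (nat_lit 5) (nat_lit 4) (nat_lit 2) (nat_lit 95) (nat_lit 114) r1_95 r0_114 (nat_lit 301314432) (nat_lit 0) (nat_lit 17923102) (nat_lit 0x7b08f77e4) (nat_lit 937110096),
  Rx.mk (nat_lit 308) (nat_lit 4) (nat_lit 6) (nat_lit 4) (nat_lit 2) (nat_lit 96) (nat_lit 118) r1_96 r0_118 (nat_lit 236637976) (nat_lit 0) (nat_lit 49509170) (nat_lit 0x7c1ee06fe) (nat_lit 886572308),
  Rx.mk (nat_lit 310) (nat_lit 6) (nat_lit 6) (nat_lit 4) (nat_lit 3) (nat_lit 97) (nat_lit 121) r1_97 r0_121 (nat_lit 0) (nat_lit 0) (nat_lit 26465750) (nat_lit 0x7f8d66de6) (nat_lit 571814812),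
  Rx.mk (nat_lit 438) (nat_lit 6) (nat_lit 6) (nat_lit 6) (nat_lit 7) (nat_lit 98) (nat_lit 123) r1_98 r0_123 (nat_lit 0) (nat_lit 0) (nat_lit 0) (nat_lit 0x8017985b4) (nat_lit 536870912),
  Rx.mk (nat_lit 484) (nat_lit 4) (nat_lit 4) (nat_lit 7) (nat_lit 4) (nat_lit 99) (nat_lit 112) r1_99 r0_112 (nat_lit 330891680) (nat_lit 15900944) (nat_lit 0) (nat_lit 0x77bef9212) (nat_lit 1017846086),
  Rx.mk (nat_lit 487) (nat_lit 7) (nat_lit 4) (nat_lit 7) (nat_lit 5) (nat_lit 103) (nat_lit 113) r1_103 r0_113 (nat_lit 0) (nat_lit 24548730) (nat_lit 0) (nat_lit 0x78780d94c) (nat_lit 683979642),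
  Rx.mk (nat_lit 492) (nat_lit 4) (nat_lit 5) (nat_lit 7) (nat_lit 6) (nat_lit 100) (nat_lit 115) r1_100 r0_115 (nat_lit 40000838) (nat_lit 0) (nat_lit 0) (nat_lit 0x7f4fca046) (nat_lit 589164150),
  Rx.mk (nat_lit 495) (nat_lit 7) (nat_lit 5) (nat_lit 7) (nat_lit 7) (nat_lit 104) (nat_lit 116) r1_104 r0_116 (nat_lit 0) (nat_lit 0) (nat_lit 0) (nat_lit 0x8008586c6) (nat_lit 537803512),
  Rx.mk (nat_lit 500) (nat_lit 4) (nat_lit 6) (nat_lit 7) (nat_lit 6) (nat_lit 101) (nat_lit 119) r1_101 r0_119 (nat_lit 43159532) (nat_lit 0) (nat_lit 0) (nat_lit 0x7fa01c38c) (nat_lit 587329944),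
  Rx.mk (nat_lit 502) (nat_lit 6) (nat_lit 6) (nat_lit 7) (nat_lit 7) (nat_lit 102) (nat_lit 122) r1_102 r0_122 (nat_lit 0) (nat_lit 0) (nat_lit 0) (nat_lit 0x8017985b4) (nat_lit 536870912),
  Rx.mk (nat_lit 503) (nat_lit 7) (nat_lit 6) (nat_lit 7) (nat_lit 7) (nat_lit 105) (nat_lit 120) r1_105 r0_120 (nat_lit 0) (nat_lit 0) (nat_lit 0) (nat_lit 0x8017985b4) (nat_lit 536870912),
  Rx.mk (nat_lit 511) (nat_lit 7) (nat_lit 7) (nat_lit 7) (nat_lit 7) (nat_lit 106) (nat_lit 117) r1_106 r0_117 (nat_lit 0) (nat_lit 0) (nat_lit 0) (nat_lit 0x8008e1958) (nat_lit 537770662)]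
noncomputable def e23_8 : List Rx := [
  Rx.mk (nat_lit 292) (nat_lit 4) (nat_lit 4) (nat_lit 4) (nat_lit 0) (nat_lit 117) (nat_lit 117) r1_117 r1_117 (nat_lit 589462715) (nat_lit 1979870) (nat_lit 1979870) (nat_lit 0x702baaa3a) (nat_lit 1386696517),
  Rx.mk (nat_lit 300) (nat_lit 4) (nat_lit 5) (nat_lit 4) (nat_lit 2) (nat_lit 118) (nat_lit 121) r1_118 r1_121 (nat_lit 301646691) (nat_lit 0) (nat_lit 46858283) (nat_lit 0x7c618c5e8) (nat_lit 944707886),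
  Rx.mk (nat_lit 308) (nat_lit 4) (nat_lit 6) (nat_lit 4) (nat_lit 2) (nat_lit 119) (nat_lit 126) r1_119 r1_126 (nat_lit 112411192) (nat_lit 0) (nat_lit 41207445) (nat_lit 0x7cd477904) (nat_lit 742617599),
  Rx.mk (nat_lit 310) (nat_lit 6) (nat_lit 6) (nat_lit 4) (nat_lit 3) (nat_lit 120) (nat_lit 128) r1_120 r1_128 (nat_lit 0) (nat_lit 0) (nat_lit 27831261) (nat_lit 0x7f26f387a) (nat_lit 579564373),
  Rx.mk (nat_lit 356) (nat_lit 4) (nat_lit 4) (nat_lit 5) (nat_lit 4) (nat_lit 121) (nat_lit 118) r1_121 r1_118 (nat_lit 301646691) (nat_lit 46858283) (nat_lit 0) (nat_lit 0x7c618c5e8) (nat_lit 944707886),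
  Rx.mk (nat_lit 364) (nat_lit 4) (nat_lit 5) (nat_lit 5) (nat_lit 6) (nat_lit 122) (nat_lit 122) r1_122 r1_122 (nat_lit 24741287) (nat_lit 0) (nat_lit 0) (nat_lit 0x8017985b4) (nat_lit 561612199),
  Rx.mk (nat_lit 372) (nat_lit 4) (nat_lit 6) (nat_lit 5) (nat_lit 6) (nat_lit 123) (nat_lit 127) r1_123 r1_127 (nat_lit 24741287) (nat_lit 0) (nat_lit 0) (nat_lit 0x8017985b4) (nat_lit 561612199),
  Rx.mk (nat_lit 374) (nat_lit 6) (nat_lit 6) (nat_lit 5) (nat_lit 7) (nat_lit 124) (nat_lit 129) r1_124 r1_129 (nat_lit 0) (nat_lit 0) (nat_lit 0) (nat_lit 0x8017985b4) (nat_lit 536870912),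
  Rx.mk (nat_lit 438) (nat_lit 6) (nat_lit 6) (nat_lit 6) (nat_lit 7) (nat_lit 125) (nat_lit 130) r1_125 r1_130 (nat_lit 0) (nat_lit 0) (nat_lit 0) (nat_lit 0x8017985b4) (nat_lit 536870912),
  Rx.mk (nat_lit 484) (nat_lit 4) (nat_lit 4) (nat_lit 7) (nat_lit 4) (nat_lit 126) (nat_lit 119) r1_126 r1_119 (nat_lit 112411192) (nat_lit 41207445) (nat_lit 0) (nat_lit 0x7cd477904) (nat_lit 742617599),
  Rx.mk (nat_lit 487) (nat_lit 7) (nat_lit 4) (nat_lit 7) (nat_lit 5) (nat_lit 128) (nat_lit 120) r1_128 r1_120 (nat_lit 0) (nat_lit 27831261) (nat_lit 0) (nat_lit 0x7f26f387a) (nat_lit 579564373),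
  Rx.mk (nat_lit 492) (nat_lit 4) (nat_lit 5) (nat_lit 7) (nat_lit 6) (nat_lit 127) (nat_lit 123) r1_127 r1_123 (nat_lit 24741287) (nat_lit 0) (nat_lit 0) (nat_lit 0x8017985b4) (nat_lit 561612199),
  Rx.mk (nat_lit 495) (nat_lit 7) (nat_lit 5) (nat_lit 7) (nat_lit 7) (nat_lit 129) (nat_lit 124) r1_129 r1_124 (nat_lit 0) (nat_lit 0) (nat_lit 0) (nat_lit 0x8017985b4) (nat_lit 536870912),
  Rx.mk (nat_lit 511) (nat_lit 7) (nat_lit 7) (nat_lit 7) (nat_lit 7) (nat_lit 130) (nat_lit 125) r1_130 r1_125 (nat_lit 0) (nat_lit 0) (nat_lit 0) (nat_lit 0x8017985b4) (nat_lit 536870912)]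
noncomputable def e23_9 : List Rx := [
  Rx.mk (nat_lit 484) (nat_lit 4) (nat_lit 4) (nat_lit 7) (nat_lit 4) (nat_lit 154) (nat_lit 107) r1_154 r4_107 (nat_lit 159743199) (nat_lit 13326467) (nat_lit 0) (nat_lit 0x73d78693c) (nat_lit 907207678),
  Rx.mk (nat_lit 487) (nat_lit 7) (nat_lit 4) (nat_lit 7) (nat_lit 5) (nat_lit 158) (nat_lit 108) r1_158 r4_108 (nat_lit 0) (nat_lit 21535191) (nat_lit 0) (nat_lit 0x7c291a87c) (nat_lit 621319503),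
  Rx.mk (nat_lit 492) (nat_lit 4) (nat_lit 5) (nat_lit 7) (nat_lit 6) (nat_lit 155) (nat_lit 109) r1_155 r4_109 (nat_lit 26051565) (nat_lit 0) (nat_lit 0) (nat_lit 0x8064f5dac) (nat_lit 558163527),
  Rx.mk (nat_lit 495) (nat_lit 7) (nat_lit 5) (nat_lit 7) (nat_lit 7) (nat_lit 159) (nat_lit 110) r1_159 r4_110 (nat_lit 0) (nat_lit 0) (nat_lit 0) (nat_lit 0x807893f76) (nat_lit 530914262),
  Rx.mk (nat_lit 500) (nat_lit 4) (nat_lit 6) (nat_lit 7) (nat_lit 6) (nat_lit 156) (nat_lit 111) r1_156 r4_111 (nat_lit 26855787) (nat_lit 0) (nat_lit 0) (nat_lit 0x80aa4da94) (nat_lit 554718499),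
  Rx.mk (nat_lit 502) (nat_lit 6) (nat_lit 6) (nat_lit 7) (nat_lit 7) (nat_lit 157) (nat_lit 113) r1_157 r4_113 (nat_lit 0) (nat_lit 0) (nat_lit 0) (nat_lit 0x8017985b4) (nat_lit 536870912),
  Rx.mk (nat_lit 503) (nat_lit 7) (nat_lit 6) (nat_lit 7) (nat_lit 7) (nat_lit 160) (nat_lit 112) r1_160 r4_112 (nat_lit 0) (nat_lit 0) (nat_lit 0) (nat_lit 0x8039d0276) (nat_lit 534761612)]
noncomputable def e23_10 : List Rx := [
  Rx.mk (nat_lit 47) (nat_lit 7) (nat_lit 5) (nat_lit 0) (nat_lit 3) (nat_lit 246) (nat_lit 179) r1_246 r6_179 (nat_lit 0) (nat_lit 0) (nat_lit 4579048) (nat_lit 0x829e4386e) (nat_lit 502034860),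
  Rx.mk (nat_lit 236) (nat_lit 4) (nat_lit 5) (nat_lit 3) (nat_lit 6) (nat_lit 247) (nat_lit 178) r1_247 r6_178 (nat_lit 2146916) (nat_lit 0) (nat_lit 0) (nat_lit 0x832861f50) (nat_lit 491234428),
  Rx.mk (nat_lit 239) (nat_lit 7) (nat_lit 5) (nat_lit 3) (nat_lit 7) (nat_lit 248) (nat_lit 180) r1_248 r6_180 (nat_lit 0) (nat_lit 0) (nat_lit 0) (nat_lit 0x80c3cc614) (nat_lit 526329562)]
noncomputable def e23_11 : List Rx := [
  Rx.mk (nat_lit 228) (nat_lit 4) (nat_lit 4) (nat_lit 3) (nat_lit 4) (nat_lit 229) (nat_lit 107) r1_229 r5_107 (nat_lit 5641616) (nat_lit 3281434) (nat_lit 0) (nat_lit 0x6d31d3d56) (nat_lit 850354662),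
  Rx.mk (nat_lit 231) (nat_lit 7) (nat_lit 4) (nat_lit 3) (nat_lit 5) (nat_lit 231) (nat_lit 108) r1_231 r5_108 (nat_lit 0) (nat_lit 13555305) (nat_lit 0) (nat_lit 0x7b2b08126) (nat_lit 629326967),
  Rx.mk (nat_lit 236) (nat_lit 4) (nat_lit 5) (nat_lit 3) (nat_lit 6) (nat_lit 230) (nat_lit 110) r1_230 r5_110 (nat_lit 14046649) (nat_lit 0) (nat_lit 0) (nat_lit 0x808591f7a) (nat_lit 544109911),
  Rx.mk (nat_lit 239) (nat_lit 7) (nat_lit 5) (nat_lit 3) (nat_lit 7) (nat_lit 232) (nat_lit 111) r1_232 r5_111 (nat_lit 0) (nat_lit 0) (nat_lit 0) (nat_lit 0x8017985b4) (nat_lit 536870912),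
  Rx.mk (nat_lit 255) (nat_lit 7) (nat_lit 7) (nat_lit 3) (nat_lit 7) (nat_lit 233) (nat_lit 112) r1_233 r5_112 (nat_lit 0) (nat_lit 0) (nat_lit 0) (nat_lit 0x8017985b4) (nat_lit 536870912),
  Rx.mk (nat_lit 484) (nat_lit 4) (nat_lit 4) (nat_lit 7) (nat_lit 4) (nat_lit 225) (nat_lit 106) r1_225 r5_106 (nat_lit 183334041) (nat_lit 1138385) (nat_lit 0) (nat_lit 0x858f1770c) (nat_lit 636880238),
  Rx.mk (nat_lit 492) (nat_lit 4) (nat_lit 5) (nat_lit 7) (nat_lit 6) (nat_lit 226) (nat_lit 109) r1_226 r5_109 (nat_lit 20365735) (nat_lit 0) (nat_lit 0) (nat_lit 0x82689a0c8) (nat_lit 521307397),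
  Rx.mk (nat_lit 500) (nat_lit 4) (nat_lit 6) (nat_lit 7) (nat_lit 6) (nat_lit 227) (nat_lit 113) r1_227 r5_113 (nat_lit 34273461) (nat_lit 0) (nat_lit 0) (nat_lit 0x80eb8917a) (nat_lit 558087723),
  Rx.mk (nat_lit 502) (nat_lit 6) (nat_lit 6) (nat_lit 7) (nat_lit 7) (nat_lit 228) (nat_lit 114) r1_228 r5_114 (nat_lit 0) (nat_lit 0) (nat_lit 0) (nat_lit 0x80759d768) (nat_lit 530997812)]
noncomputable def e23_12 : List Rx := [
  Rx.mk (nat_lit 45) (nat_lit 5) (nat_lit 5) (nat_lit 0) (nat_lit 3) (nat_lit 252) (nat_lit 282) r1_252 r0_282 (nat_lit 0) (nat_lit 0) (nat_lit 585345170) (nat_lit 0x801301b72) (nat_lit 1121100632),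
  Rx.mk (nat_lit 108) (nat_lit 4) (nat_lit 5) (nat_lit 1) (nat_lit 6) (nat_lit 253) (nat_lit 283) r1_253 r0_283 (nat_lit 24741287) (nat_lit 0) (nat_lit 0) (nat_lit 0x7fb668af0) (nat_lit 567576349),
  Rx.mk (nat_lit 109) (nat_lit 5) (nat_lit 5) (nat_lit 1) (nat_lit 7) (nat_lit 254) (nat_lit 284) r1_254 r0_284 (nat_lit 0) (nat_lit 0) (nat_lit 0) (nat_lit 0x7fcf556ee) (nat_lit 541249062)]
noncomputable def e23_13 : List Rx := [
  Rx.mk (nat_lit 108) (nat_lit 4) (nat_lit 5) (nat_lit 1) (nat_lit 6) (nat_lit 256) (nat_lit 221) r1_256 r7_221 (nat_lit 24741287) (nat_lit 0) (nat_lit 0) (nat_lit 0x8017985b4) (nat_lit 561612199),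
  Rx.mk (nat_lit 109) (nat_lit 5) (nat_lit 5) (nat_lit 1) (nat_lit 7) (nat_lit 257) (nat_lit 222) r1_257 r7_222 (nat_lit 0) (nat_lit 0) (nat_lit 0) (nat_lit 0x8017985b4) (nat_lit 536870912)]
noncomputable def e23_14 : List Rx := [
  Rx.mk (nat_lit 45) (nat_lit 5) (nat_lit 5) (nat_lit 0) (nat_lit 3) (nat_lit 278) (nat_lit 278) r1_278 r1_278 (nat_lit 0) (nat_lit 0) (nat_lit 46726331) (nat_lit 0x7ff035c7e) (nat_lit 585800043),
  Rx.mk (nat_lit 109) (nat_lit 5) (nat_lit 5) (nat_lit 1) (nat_lit 7) (nat_lit 279) (nat_lit 279) r1_279 r1_279 (nat_lit 0) (nat_lit 0) (nat_lit 0) (nat_lit 0x8017985b4) (nat_lit 536870912)]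
noncomputable def e23_15 : List Rx := [
  Rx.mk (nat_lit 109) (nat_lit 5) (nat_lit 5) (nat_lit 1) (nat_lit 7) (nat_lit 286) (nat_lit 180) r1_286 r8_180 (nat_lit 0) (nat_lit 0) (nat_lit 0) (nat_lit 0x8017985b4) (nat_lit 536870912)]
noncomputable def e23_16 : List Rx := [
  Rx.mk (nat_lit 108) (nat_lit 4) (nat_lit 5) (nat_lit 1) (nat_lit 6) (nat_lit 276) (nat_lit 318) r1_276 r8_318 (nat_lit 24741287) (nat_lit 0) (nat_lit 0) (nat_lit 0x8017985b4) (nat_lit 561612199),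
  Rx.mk (nat_lit 109) (nat_lit 5) (nat_lit 5) (nat_lit 1) (nat_lit 7) (nat_lit 277) (nat_lit 319) r1_277 r8_319 (nat_lit 0) (nat_lit 0) (nat_lit 0) (nat_lit 0x8017985b4) (nat_lit 536870912),
  Rx.mk (nat_lit 364) (nat_lit 4) (nat_lit 5) (nat_lit 5) (nat_lit 6) (nat_lit 274) (nat_lit 316) r1_274 r8_316 (nat_lit 24586055) (nat_lit 0) (nat_lit 0) (nat_lit 0x80057ba20) (nat_lit 562565917),
  Rx.mk (nat_lit 365) (nat_lit 5) (nat_lit 5) (nat_lit 5) (nat_lit 7) (nat_lit 275) (nat_lit 317) r1_275 r8_317 (nat_lit 0) (nat_lit 0) (nat_lit 0) (nat_lit 0x8017985b4) (nat_lit 536870912)]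
noncomputable def e23_17 : List Rx := [
  Rx.mk (nat_lit 356) (nat_lit 4) (nat_lit 4) (nat_lit 5) (nat_lit 4) (nat_lit 262) (nat_lit 160) r1_262 r9_160 (nat_lit 38504019) (nat_lit 68973086) (nat_lit 0) (nat_lit 0x645605570) (nat_lit 1092404867),
  Rx.mk (nat_lit 357) (nat_lit 5) (nat_lit 4) (nat_lit 5) (nat_lit 5) (nat_lit 265) (nat_lit 163) r1_265 r9_163 (nat_lit 0) (nat_lit 24741287) (nat_lit 0) (nat_lit 0x8017985b4) (nat_lit 561612199),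
  Rx.mk (nat_lit 364) (nat_lit 4) (nat_lit 5) (nat_lit 5) (nat_lit 6) (nat_lit 263) (nat_lit 161) r1_263 r9_161 (nat_lit 24741287) (nat_lit 0) (nat_lit 0) (nat_lit 0x8004fdb2a) (nat_lit 562749199),
  Rx.mk (nat_lit 365) (nat_lit 5) (nat_lit 5) (nat_lit 5) (nat_lit 7) (nat_lit 266) (nat_lit 164) r1_266 r9_164 (nat_lit 0) (nat_lit 0) (nat_lit 0) (nat_lit 0x8017985b4) (nat_lit 536870912),
  Rx.mk (nat_lit 372) (nat_lit 4) (nat_lit 6) (nat_lit 5) (nat_lit 6) (nat_lit 264) (nat_lit 162) r1_264 r9_162 (nat_lit 24741287) (nat_lit 0) (nat_lit 0) (nat_lit 0x8017985b4) (nat_lit 561612199),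
  Rx.mk (nat_lit 373) (nat_lit 5) (nat_lit 6) (nat_lit 5) (nat_lit 7) (nat_lit 267) (nat_lit 165) r1_267 r9_165 (nat_lit 0) (nat_lit 0) (nat_lit 0) (nat_lit 0x8017985b4) (nat_lit 536870912),
  Rx.mk (nat_lit 374) (nat_lit 6) (nat_lit 6) (nat_lit 5) (nat_lit 7) (nat_lit 268) (nat_lit 166) r1_268 r9_166 (nat_lit 0) (nat_lit 0) (nat_lit 0) (nat_lit 0x8017985b4) (nat_lit 536870912)]
noncomputable def e23_18 : List Rx := [
  Rx.mk (nat_lit 44) (nat_lit 4) (nat_lit 5) (nat_lit 0) (nat_lit 2) (nat_lit 297) (nat_lit 293) r1_297 r4_293 (nat_lit 16666109) (nat_lit 0) (nat_lit 79659509) (nat_lit 0x6e82c4200) (nat_lit 916697780),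
  Rx.mk (nat_lit 45) (nat_lit 5) (nat_lit 5) (nat_lit 0) (nat_lit 3) (nat_lit 298) (nat_lit 294) r1_298 r4_294 (nat_lit 0) (nat_lit 0) (nat_lit 132162371) (nat_lit 0x7a51f7832) (nat_lit 761496733),
  Rx.mk (nat_lit 47) (nat_lit 7) (nat_lit 5) (nat_lit 0) (nat_lit 3) (nat_lit 299) (nat_lit 295) r1_299 r4_295 (nat_lit 0) (nat_lit 0) (nat_lit 29428945) (nat_lit 0x800d7d0e8) (nat_lit 566895407),
  Rx.mk (nat_lit 108) (nat_lit 4) (nat_lit 5) (nat_lit 1) (nat_lit 6) (nat_lit 300) (nat_lit 296) r1_300 r4_296 (nat_lit 21556671) (nat_lit 0) (nat_lit 0) (nat_lit 0x801c58cca) (nat_lit 558112583),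
  Rx.mk (nat_lit 109) (nat_lit 5) (nat_lit 5) (nat_lit 1) (nat_lit 7) (nat_lit 301) (nat_lit 297) r1_301 r4_297 (nat_lit 0) (nat_lit 0) (nat_lit 0) (nat_lit 0x80b000be4) (nat_lit 527525712),
  Rx.mk (nat_lit 111) (nat_lit 7) (nat_lit 5) (nat_lit 1) (nat_lit 7) (nat_lit 302) (nat_lit 298) r1_302 r4_298 (nat_lit 0) (nat_lit 0) (nat_lit 0) (nat_lit 0x80691f28e) (nat_lit 531863312)]
noncomputable def e23_19 : List Rx := [
  Rx.mk (nat_lit 108) (nat_lit 4) (nat_lit 5) (nat_lit 1) (nat_lit 6) (nat_lit 307) (nat_lit 172) r1_307 r10_172 (nat_lit 24741287) (nat_lit 0) (nat_lit 0) (nat_lit 0x8017985b4) (nat_lit 561612199),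
  Rx.mk (nat_lit 109) (nat_lit 5) (nat_lit 5) (nat_lit 1) (nat_lit 7) (nat_lit 308) (nat_lit 173) r1_308 r10_173 (nat_lit 0) (nat_lit 0) (nat_lit 0) (nat_lit 0x8017985b4) (nat_lit 536870912),
  Rx.mk (nat_lit 111) (nat_lit 7) (nat_lit 5) (nat_lit 1) (nat_lit 7) (nat_lit 309) (nat_lit 174) r1_309 r10_174 (nat_lit 0) (nat_lit 0) (nat_lit 0) (nat_lit 0x8017985b4) (nat_lit 536870912)]
noncomputable def e23_20 : List Rx := [
  Rx.mk (nat_lit 44) (nat_lit 4) (nat_lit 5) (nat_lit 0) (nat_lit 2) (nat_lit 316) (nat_lit 183) r1_316 r11_183 (nat_lit 31169867) (nat_lit 0) (nat_lit 115272517) (nat_lit 0x729ca1386) (nat_lit 900542746),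
  Rx.mk (nat_lit 45) (nat_lit 5) (nat_lit 5) (nat_lit 0) (nat_lit 3) (nat_lit 317) (nat_lit 186) r1_317 r11_186 (nat_lit 0) (nat_lit 0) (nat_lit 39197522) (nat_lit 0x7db914fa8) (nat_lit 613796734),
  Rx.mk (nat_lit 47) (nat_lit 7) (nat_lit 5) (nat_lit 0) (nat_lit 3) (nat_lit 318) (nat_lit 189) r1_318 r11_189 (nat_lit 0) (nat_lit 0) (nat_lit 24741287) (nat_lit 0x8017985b4) (nat_lit 561612199),
  Rx.mk (nat_lit 108) (nat_lit 4) (nat_lit 5) (nat_lit 1) (nat_lit 6) (nat_lit 319) (nat_lit 184) r1_319 r11_184 (nat_lit 24741287) (nat_lit 0) (nat_lit 0) (nat_lit 0x8017985b4) (nat_lit 561612199),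
  Rx.mk (nat_lit 109) (nat_lit 5) (nat_lit 5) (nat_lit 1) (nat_lit 7) (nat_lit 320) (nat_lit 187) r1_320 r11_187 (nat_lit 0) (nat_lit 0) (nat_lit 0) (nat_lit 0x8017985b4) (nat_lit 536870912),
  Rx.mk (nat_lit 111) (nat_lit 7) (nat_lit 5) (nat_lit 1) (nat_lit 7) (nat_lit 321) (nat_lit 190) r1_321 r11_190 (nat_lit 0) (nat_lit 0) (nat_lit 0) (nat_lit 0x8017985b4) (nat_lit 536870912),
  Rx.mk (nat_lit 236) (nat_lit 4) (nat_lit 5) (nat_lit 3) (nat_lit 6) (nat_lit 322) (nat_lit 185) r1_322 r11_185 (nat_lit 24741287) (nat_lit 0) (nat_lit 0) (nat_lit 0x8017985b4) (nat_lit 561612199),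
  Rx.mk (nat_lit 237) (nat_lit 5) (nat_lit 5) (nat_lit 3) (nat_lit 7) (nat_lit 323) (nat_lit 188) r1_323 r11_188 (nat_lit 0) (nat_lit 0) (nat_lit 0) (nat_lit 0x81759db22) (nat_lit 515567712)]
noncomputable def e23_21 : List Rx := [
  Rx.mk (nat_lit 356) (nat_lit 4) (nat_lit 4) (nat_lit 5) (nat_lit 4) (nat_lit 269) (nat_lit 83) r1_269 r9_83 (nat_lit 134396714) (nat_lit 34355931) (nat_lit 0) (nat_lit 0x734bda226) (nat_lit 911788807),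
  Rx.mk (nat_lit 372) (nat_lit 4) (nat_lit 6) (nat_lit 5) (nat_lit 6) (nat_lit 270) (nat_lit 84) r1_270 r9_84 (nat_lit 24741287) (nat_lit 0) (nat_lit 0) (nat_lit 0x8008f717c) (nat_lit 562505199),
  Rx.mk (nat_lit 374) (nat_lit 6) (nat_lit 6) (nat_lit 5) (nat_lit 7) (nat_lit 271) (nat_lit 85) r1_271 r9_85 (nat_lit 0) (nat_lit 0) (nat_lit 0) (nat_lit 0x8017985b4) (nat_lit 536870912)]
noncomputable def e23_22 : List Rx := [
  Rx.mk (nat_lit 251) (nat_lit 3) (nat_lit 7) (nat_lit 3) (nat_lit 7) (nat_lit 9) (nat_lit 20) r1_9 r0_20 (nat_lit 0) (nat_lit 0) (nat_lit 0) (nat_lit 0x802da032a) (nat_lit 535514012),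
  Rx.mk (nat_lit 255) (nat_lit 7) (nat_lit 7) (nat_lit 3) (nat_lit 7) (nat_lit 8) (nat_lit 21) r1_8 r0_21 (nat_lit 0) (nat_lit 0) (nat_lit 0) (nat_lit 0x807414446) (nat_lit 531187112),
  Rx.mk (nat_lit 310) (nat_lit 6) (nat_lit 6) (nat_lit 4) (nat_lit 3) (nat_lit 0) (nat_lit 22) r1_0 r0_22 (nat_lit 0) (nat_lit 0) (nat_lit 23596477) (nat_lit 0x69c6e3bc0) (nat_lit 920472039),
  Rx.mk (nat_lit 438) (nat_lit 6) (nat_lit 6) (nat_lit 6) (nat_lit 7) (nat_lit 1) (nat_lit 29) r1_1 r0_29 (nat_lit 0) (nat_lit 0) (nat_lit 0) (nat_lit 0x807eeb3e2) (nat_lit 530392612),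
  Rx.mk (nat_lit 484) (nat_lit 4) (nat_lit 4) (nat_lit 7) (nat_lit 4) (nat_lit 2) (nat_lit 23) r1_2 r0_23 (nat_lit 5604383) (nat_lit 3151689) (nat_lit 0) (nat_lit 0x6d7564e26) (nat_lit 845928484),
  Rx.mk (nat_lit 487) (nat_lit 7) (nat_lit 4) (nat_lit 7) (nat_lit 5) (nat_lit 5) (nat_lit 25) r1_5 r0_25 (nat_lit 0) (nat_lit 8756247) (nat_lit 0) (nat_lit 0x7bbb71c80) (nat_lit 615374609),
  Rx.mk (nat_lit 500) (nat_lit 4) (nat_lit 6) (nat_lit 7) (nat_lit 6) (nat_lit 3) (nat_lit 24) r1_3 r0_24 (nat_lit 22794505) (nat_lit 0) (nat_lit 0) (nat_lit 0x7f395dd58) (nat_lit 573339467),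
  Rx.mk (nat_lit 502) (nat_lit 6) (nat_lit 6) (nat_lit 7) (nat_lit 7) (nat_lit 4) (nat_lit 28) r1_4 r0_28 (nat_lit 0) (nat_lit 0) (nat_lit 0) (nat_lit 0x87136526a) (nat_lit 429577662),
  Rx.mk (nat_lit 503) (nat_lit 7) (nat_lit 6) (nat_lit 7) (nat_lit 7) (nat_lit 6) (nat_lit 27) r1_6 r0_27 (nat_lit 0) (nat_lit 0) (nat_lit 0) (nat_lit 0x80362d196) (nat_lit 534989612),
  Rx.mk (nat_lit 511) (nat_lit 7) (nat_lit 7) (nat_lit 7) (nat_lit 7) (nat_lit 7) (nat_lit 26) r1_7 r0_26 (nat_lit 0) (nat_lit 0) (nat_lit 0) (nat_lit 0x801bfa5bc) (nat_lit 536589212)]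
noncomputable def e23_23 : List Rx := [
  Rx.mk (nat_lit 27) (nat_lit 3) (nat_lit 3) (nat_lit 0) (nat_lit 3) (nat_lit 20) (nat_lit 10) r1_20 r1_10 (nat_lit 0) (nat_lit 0) (nat_lit 16883735) (nat_lit 0x6e23773e2) (nat_lit 843227197),
  Rx.mk (nat_lit 128) (nat_lit 0) (nat_lit 0) (nat_lit 2) (nat_lit 4) (nat_lit 21) (nat_lit 14) r1_21 r1_14 (nat_lit 58909) (nat_lit 48891) (nat_lit 0) (nat_lit 0x7cd668c7c) (nat_lit 588136762),
  Rx.mk (nat_lit 130) (nat_lit 2) (nat_lit 0) (nat_lit 2) (nat_lit 5) (nat_lit 23) (nat_lit 17) r1_23 r1_17 (nat_lit 0) (nat_lit 76678) (nat_lit 0) (nat_lit 0x8003c0140) (nat_lit 536772290),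
  Rx.mk (nat_lit 146) (nat_lit 2) (nat_lit 2) (nat_lit 2) (nat_lit 7) (nat_lit 24) (nat_lit 19) r1_24 r1_19 (nat_lit 0) (nat_lit 0) (nat_lit 0) (nat_lit 0x7fbfdde82) (nat_lit 542221012),
  Rx.mk (nat_lit 152) (nat_lit 0) (nat_lit 3) (nat_lit 2) (nat_lit 6) (nat_lit 22) (nat_lit 15) r1_22 r1_15 (nat_lit 14214021) (nat_lit 0) (nat_lit 0) (nat_lit 0x7fbeb8f98) (nat_lit 556417033),
  Rx.mk (nat_lit 154) (nat_lit 2) (nat_lit 3) (nat_lit 2) (nat_lit 7) (nat_lit 25) (nat_lit 18) r1_25 r1_18 (nat_lit 0) (nat_lit 0) (nat_lit 0) (nat_lit 0x806b840b0) (nat_lit 531718612),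
  Rx.mk (nat_lit 155) (nat_lit 3) (nat_lit 3) (nat_lit 2) (nat_lit 7) (nat_lit 26) (nat_lit 16) r1_26 r1_16 (nat_lit 0) (nat_lit 0) (nat_lit 0) (nat_lit 0x806722120) (nat_lit 530972362),
  Rx.mk (nat_lit 219) (nat_lit 3) (nat_lit 3) (nat_lit 3) (nat_lit 7) (nat_lit 29) (nat_lit 11) r1_29 r1_11 (nat_lit 0) (nat_lit 0) (nat_lit 0) (nat_lit 0x8082a427c) (nat_lit 530175062),
  Rx.mk (nat_lit 251) (nat_lit 3) (nat_lit 7) (nat_lit 3) (nat_lit 7) (nat_lit 28) (nat_lit 12) r1_28 r1_12 (nat_lit 0) (nat_lit 0) (nat_lit 0) (nat_lit 0x806110df4) (nat_lit 532352862),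
  Rx.mk (nat_lit 255) (nat_lit 7) (nat_lit 7) (nat_lit 3) (nat_lit 7) (nat_lit 27) (nat_lit 13) r1_27 r1_13 (nat_lit 0) (nat_lit 0) (nat_lit 0) (nat_lit 0x800f8b876) (nat_lit 537285412),
  Rx.mk (nat_lit 310) (nat_lit 6) (nat_lit 6) (nat_lit 4) (nat_lit 3) (nat_lit 10) (nat_lit 20) r1_10 r1_20 (nat_lit 0) (nat_lit 0) (nat_lit 16883735) (nat_lit 0x6e23773e2) (nat_lit 843227197),
  Rx.mk (nat_lit 402) (nat_lit 2) (nat_lit 2) (nat_lit 6) (nat_lit 7) (nat_lit 13) (nat_lit 27) r1_13 r1_27 (nat_lit 0) (nat_lit 0) (nat_lit 0) (nat_lit 0x800f8b876) (nat_lit 537285412),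
  Rx.mk (nat_lit 406) (nat_lit 6) (nat_lit 2) (nat_lit 6) (nat_lit 7) (nat_lit 12) (nat_lit 28) r1_12 r1_28 (nat_lit 0) (nat_lit 0) (nat_lit 0) (nat_lit 0x806110df4) (nat_lit 532352862),
  Rx.mk (nat_lit 438) (nat_lit 6) (nat_lit 6) (nat_lit 6) (nat_lit 7) (nat_lit 11) (nat_lit 29) r1_11 r1_29 (nat_lit 0) (nat_lit 0) (nat_lit 0) (nat_lit 0x8082a427c) (nat_lit 530175062),
  Rx.mk (nat_lit 484) (nat_lit 4) (nat_lit 4) (nat_lit 7) (nat_lit 4) (nat_lit 14) (nat_lit 21) r1_14 r1_21 (nat_lit 58909) (nat_lit 48891) (nat_lit 0) (nat_lit 0x7cd668c7c) (nat_lit 588136762),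
  Rx.mk (nat_lit 487) (nat_lit 7) (nat_lit 4) (nat_lit 7) (nat_lit 5) (nat_lit 17) (nat_lit 23) r1_17 r1_23 (nat_lit 0) (nat_lit 76678) (nat_lit 0) (nat_lit 0x8003c0140) (nat_lit 536772290),
  Rx.mk (nat_lit 500) (nat_lit 4) (nat_lit 6) (nat_lit 7) (nat_lit 6) (nat_lit 15) (nat_lit 22) r1_15 r1_22 (nat_lit 14214021) (nat_lit 0) (nat_lit 0) (nat_lit 0x7fbeb8f98) (nat_lit 556417033),
  Rx.mk (nat_lit 502) (nat_lit 6) (nat_lit 6) (nat_lit 7) (nat_lit 7) (nat_lit 16) (nat_lit 26) r1_16 r1_26 (nat_lit 0) (nat_lit 0) (nat_lit 0) (nat_lit 0x806722120) (nat_lit 530972362),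
  Rx.mk (nat_lit 503) (nat_lit 7) (nat_lit 6) (nat_lit 7) (nat_lit 7) (nat_lit 18) (nat_lit 25) r1_18 r1_25 (nat_lit 0) (nat_lit 0) (nat_lit 0) (nat_lit 0x806b840b0) (nat_lit 531718612),
  Rx.mk (nat_lit 511) (nat_lit 7) (nat_lit 7) (nat_lit 7) (nat_lit 7) (nat_lit 19) (nat_lit 24) r1_19 r1_24 (nat_lit 0) (nat_lit 0) (nat_lit 0) (nat_lit 0x7fbfdde82) (nat_lit 542221012)]
noncomputable def e23_24 : List Rx := [
  Rx.mk (nat_lit 231) (nat_lit 7) (nat_lit 4) (nat_lit 3) (nat_lit 5) (nat_lit 55) (nat_lit 14) r1_55 r4_14 (nat_lit 0) (nat_lit 13824857) (nat_lit 0) (nat_lit 0x8053119f6) (nat_lit 546991619),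
  Rx.mk (nat_lit 251) (nat_lit 3) (nat_lit 7) (nat_lit 3) (nat_lit 7) (nat_lit 57) (nat_lit 13) r1_57 r4_13 (nat_lit 0) (nat_lit 0) (nat_lit 0) (nat_lit 0x8007403f6) (nat_lit 537871262),
  Rx.mk (nat_lit 255) (nat_lit 7) (nat_lit 7) (nat_lit 3) (nat_lit 7) (nat_lit 56) (nat_lit 15) r1_56 r4_15 (nat_lit 0) (nat_lit 0) (nat_lit 0) (nat_lit 0x8078ceb44) (nat_lit 530903862),
  Rx.mk (nat_lit 484) (nat_lit 4) (nat_lit 4) (nat_lit 7) (nat_lit 4) (nat_lit 50) (nat_lit 16) r1_50 r4_16 (nat_lit 67051359) (nat_lit 12415695) (nat_lit 0) (nat_lit 0x6dd5f0330) (nat_lit 910715916),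
  Rx.mk (nat_lit 487) (nat_lit 7) (nat_lit 4) (nat_lit 7) (nat_lit 5) (nat_lit 53) (nat_lit 18) r1_53 r4_18 (nat_lit 0) (nat_lit 18565138) (nat_lit 0) (nat_lit 0x7e088a2e0) (nat_lit 588194500),
  Rx.mk (nat_lit 500) (nat_lit 4) (nat_lit 6) (nat_lit 7) (nat_lit 6) (nat_lit 51) (nat_lit 17) r1_51 r4_17 (nat_lit 32103431) (nat_lit 0) (nat_lit 0) (nat_lit 0x7f4592056) (nat_lit 581897443),
  Rx.mk (nat_lit 502) (nat_lit 6) (nat_lit 6) (nat_lit 7) (nat_lit 7) (nat_lit 52) (nat_lit 20) r1_52 r4_20 (nat_lit 0) (nat_lit 0) (nat_lit 0) (nat_lit 0x8256757bc) (nat_lit 501986312),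
  Rx.mk (nat_lit 503) (nat_lit 7) (nat_lit 6) (nat_lit 7) (nat_lit 7) (nat_lit 54) (nat_lit 19) r1_54 r4_19 (nat_lit 0) (nat_lit 0) (nat_lit 0) (nat_lit 0x8017985b4) (nat_lit 536870912)]
noncomputable def e23_25 : List Rx := [
  Rx.mk (nat_lit 292) (nat_lit 4) (nat_lit 4) (nat_lit 4) (nat_lit 0) (nat_lit 107) (nat_lit 126) r1_107 r7_126 (nat_lit 43642432) (nat_lit 6392816) (nat_lit 5821095) (nat_lit 0x44a1c92b0) (nat_lit 1553277655),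
  Rx.mk (nat_lit 308) (nat_lit 4) (nat_lit 6) (nat_lit 4) (nat_lit 2) (nat_lit 108) (nat_lit 130) r1_108 r7_130 (nat_lit 78119258) (nat_lit 0) (nat_lit 35130887) (nat_lit 0x6d4852dd4) (nat_lit 953515857),
  Rx.mk (nat_lit 310) (nat_lit 6) (nat_lit 6) (nat_lit 4) (nat_lit 3) (nat_lit 109) (nat_lit 133) r1_109 r7_133 (nat_lit 0) (nat_lit 0) (nat_lit 21790589) (nat_lit 0x7f1945f52) (nat_lit 574322851),
  Rx.mk (nat_lit 438) (nat_lit 6) (nat_lit 6) (nat_lit 6) (nat_lit 7) (nat_lit 110) (nat_lit 135) r1_110 r7_135 (nat_lit 0) (nat_lit 0) (nat_lit 0) (nat_lit 0x8017985b4) (nat_lit 536870912),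
  Rx.mk (nat_lit 484) (nat_lit 4) (nat_lit 4) (nat_lit 7) (nat_lit 4) (nat_lit 111) (nat_lit 127) r1_111 r7_127 (nat_lit 24461115) (nat_lit 15973405) (nat_lit 0) (nat_lit 0x6bcc10498) (nat_lit 904689032),
  Rx.mk (nat_lit 487) (nat_lit 7) (nat_lit 4) (nat_lit 7) (nat_lit 5) (nat_lit 114) (nat_lit 128) r1_114 r7_128 (nat_lit 0) (nat_lit 16486043) (nat_lit 0) (nat_lit 0x7aed483a4) (nat_lit 636147005),
  Rx.mk (nat_lit 500) (nat_lit 4) (nat_lit 6) (nat_lit 7) (nat_lit 6) (nat_lit 112) (nat_lit 131) r1_112 r7_131 (nat_lit 24618950) (nat_lit 0) (nat_lit 0) (nat_lit 0x80095eab6) (nat_lit 562360112),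
  Rx.mk (nat_lit 502) (nat_lit 6) (nat_lit 6) (nat_lit 7) (nat_lit 7) (nat_lit 113) (nat_lit 134) r1_113 r7_134 (nat_lit 0) (nat_lit 0) (nat_lit 0) (nat_lit 0x80538fe0a) (nat_lit 533186112),
  Rx.mk (nat_lit 503) (nat_lit 7) (nat_lit 6) (nat_lit 7) (nat_lit 7) (nat_lit 115) (nat_lit 132) r1_115 r7_132 (nat_lit 0) (nat_lit 0) (nat_lit 0) (nat_lit 0x8017985b4) (nat_lit 536870912),
  Rx.mk (nat_lit 511) (nat_lit 7) (nat_lit 7) (nat_lit 7) (nat_lit 7) (nat_lit 116) (nat_lit 129) r1_116 r7_129 (nat_lit 0) (nat_lit 0) (nat_lit 0) (nat_lit 0x8017985b4) (nat_lit 536870912)]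
noncomputable def e23_26 : List Rx := [
  Rx.mk (nat_lit 292) (nat_lit 4) (nat_lit 4) (nat_lit 4) (nat_lit 0) (nat_lit 141) (nat_lit 90) r1_141 r8_90 (nat_lit 116288395) (nat_lit 17944571) (nat_lit 23009154) (nat_lit 0x447d83aae) (nat_lit 1657106532),
  Rx.mk (nat_lit 308) (nat_lit 4) (nat_lit 6) (nat_lit 4) (nat_lit 2) (nat_lit 142) (nat_lit 94) r1_142 r8_94 (nat_lit 50887267) (nat_lit 0) (nat_lit 31282261) (nat_lit 0x6d657dd46) (nat_lit 920594840),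
  Rx.mk (nat_lit 310) (nat_lit 6) (nat_lit 6) (nat_lit 4) (nat_lit 3) (nat_lit 143) (nat_lit 97) r1_143 r8_97 (nat_lit 0) (nat_lit 0) (nat_lit 29620562) (nat_lit 0x7f673ed30) (nat_lit 577332974),
  Rx.mk (nat_lit 402) (nat_lit 2) (nat_lit 2) (nat_lit 6) (nat_lit 7) (nat_lit 146) (nat_lit 101) r1_146 r8_101 (nat_lit 0) (nat_lit 0) (nat_lit 0) (nat_lit 0x8017985b4) (nat_lit 536870912),
  Rx.mk (nat_lit 406) (nat_lit 6) (nat_lit 2) (nat_lit 6) (nat_lit 7) (nat_lit 145) (nat_lit 100) r1_145 r8_100 (nat_lit 0) (nat_lit 0) (nat_lit 0) (nat_lit 0x8017985b4) (nat_lit 536870912),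
  Rx.mk (nat_lit 438) (nat_lit 6) (nat_lit 6) (nat_lit 6) (nat_lit 7) (nat_lit 144) (nat_lit 99) r1_144 r8_99 (nat_lit 0) (nat_lit 0) (nat_lit 0) (nat_lit 0x8017985b4) (nat_lit 536870912),
  Rx.mk (nat_lit 484) (nat_lit 4) (nat_lit 4) (nat_lit 7) (nat_lit 4) (nat_lit 147) (nat_lit 91) r1_147 r8_91 (nat_lit 50885811) (nat_lit 24802758) (nat_lit 0) (nat_lit 0x6b9ee1742) (nat_lit 942829831),
  Rx.mk (nat_lit 487) (nat_lit 7) (nat_lit 4) (nat_lit 7) (nat_lit 5) (nat_lit 150) (nat_lit 92) r1_150 r8_92 (nat_lit 0) (nat_lit 24952196) (nat_lit 0) (nat_lit 0x7d5baea30) (nat_lit 605443508),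
  Rx.mk (nat_lit 500) (nat_lit 4) (nat_lit 6) (nat_lit 7) (nat_lit 6) (nat_lit 148) (nat_lit 95) r1_148 r8_95 (nat_lit 24741287) (nat_lit 0) (nat_lit 0) (nat_lit 0x8017985b4) (nat_lit 561612199),
  Rx.mk (nat_lit 502) (nat_lit 6) (nat_lit 6) (nat_lit 7) (nat_lit 7) (nat_lit 149) (nat_lit 98) r1_149 r8_98 (nat_lit 0) (nat_lit 0) (nat_lit 0) (nat_lit 0x8017985b4) (nat_lit 536870912),
  Rx.mk (nat_lit 503) (nat_lit 7) (nat_lit 6) (nat_lit 7) (nat_lit 7) (nat_lit 151) (nat_lit 96) r1_151 r8_96 (nat_lit 0) (nat_lit 0) (nat_lit 0) (nat_lit 0x8017985b4) (nat_lit 536870912),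
  Rx.mk (nat_lit 511) (nat_lit 7) (nat_lit 7) (nat_lit 7) (nat_lit 7) (nat_lit 152) (nat_lit 93) r1_152 r8_93 (nat_lit 0) (nat_lit 0) (nat_lit 0) (nat_lit 0x8017985b4) (nat_lit 536870912)]
noncomputable def e23_27 : List Rx := [
  Rx.mk (nat_lit 292) (nat_lit 4) (nat_lit 4) (nat_lit 4) (nat_lit 0) (nat_lit 131) (nat_lit 15) r1_131 r8_15 (nat_lit 78140221) (nat_lit 16366775) (nat_lit 12570282) (nat_lit 0x42b179a90) (nat_lit 1635971940),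
  Rx.mk (nat_lit 308) (nat_lit 4) (nat_lit 6) (nat_lit 4) (nat_lit 2) (nat_lit 132) (nat_lit 16) r1_132 r8_16 (nat_lit 44995829) (nat_lit 0) (nat_lit 40466188) (nat_lit 0x6d2f8c872) (nat_lit 927296079),
  Rx.mk (nat_lit 310) (nat_lit 6) (nat_lit 6) (nat_lit 4) (nat_lit 3) (nat_lit 133) (nat_lit 17) r1_133 r8_17 (nat_lit 0) (nat_lit 0) (nat_lit 25986002) (nat_lit 0x7f21990dc) (nat_lit 578019064),
  Rx.mk (nat_lit 356) (nat_lit 4) (nat_lit 4) (nat_lit 5) (nat_lit 4) (nat_lit 134) (nat_lit 18) r1_134 r8_18 (nat_lit 144484209) (nat_lit 46134325) (nat_lit 0) (nat_lit 0x72b2fdad0) (nat_lit 943309946),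
  Rx.mk (nat_lit 372) (nat_lit 4) (nat_lit 6) (nat_lit 5) (nat_lit 6) (nat_lit 135) (nat_lit 19) r1_135 r8_19 (nat_lit 24741287) (nat_lit 0) (nat_lit 0) (nat_lit 0x8017985b4) (nat_lit 561612199),
  Rx.mk (nat_lit 374) (nat_lit 6) (nat_lit 6) (nat_lit 5) (nat_lit 7) (nat_lit 136) (nat_lit 20) r1_136 r8_20 (nat_lit 0) (nat_lit 0) (nat_lit 0) (nat_lit 0x8017985b4) (nat_lit 536870912),
  Rx.mk (nat_lit 438) (nat_lit 6) (nat_lit 6) (nat_lit 6) (nat_lit 7) (nat_lit 137) (nat_lit 24) r1_137 r8_24 (nat_lit 0) (nat_lit 0) (nat_lit 0) (nat_lit 0x8017985b4) (nat_lit 536870912),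
  Rx.mk (nat_lit 484) (nat_lit 4) (nat_lit 4) (nat_lit 7) (nat_lit 4) (nat_lit 138) (nat_lit 21) r1_138 r8_21 (nat_lit 36913539) (nat_lit 31041958) (nat_lit 0) (nat_lit 0x73f49b3ba) (nat_lit 800345659),
  Rx.mk (nat_lit 487) (nat_lit 7) (nat_lit 4) (nat_lit 7) (nat_lit 5) (nat_lit 139) (nat_lit 22) r1_139 r8_22 (nat_lit 0) (nat_lit 19606239) (nat_lit 0) (nat_lit 0x7f4c479c8) (nat_lit 568985001),
  Rx.mk (nat_lit 511) (nat_lit 7) (nat_lit 7) (nat_lit 7) (nat_lit 7) (nat_lit 140) (nat_lit 23) r1_140 r8_23 (nat_lit 0) (nat_lit 0) (nat_lit 0) (nat_lit 0x8017985b4) (nat_lit 536870912)]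
noncomputable def e23_28 : List Rx := [
  Rx.mk (nat_lit 484) (nat_lit 4) (nat_lit 4) (nat_lit 7) (nat_lit 4) (nat_lit 161) (nat_lit 96) r1_161 r10_96 (nat_lit 22829563) (nat_lit 15183139) (nat_lit 0) (nat_lit 0x6e1d4f8f2) (nat_lit 864770414),
  Rx.mk (nat_lit 487) (nat_lit 7) (nat_lit 4) (nat_lit 7) (nat_lit 5) (nat_lit 164) (nat_lit 97) r1_164 r10_97 (nat_lit 0) (nat_lit 9818448) (nat_lit 0) (nat_lit 0x77a95bc0c) (nat_lit 682197510),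
  Rx.mk (nat_lit 500) (nat_lit 4) (nat_lit 6) (nat_lit 7) (nat_lit 6) (nat_lit 162) (nat_lit 98) r1_162 r10_98 (nat_lit 24741287) (nat_lit 0) (nat_lit 0) (nat_lit 0x7fca1d474) (nat_lit 566365499),
  Rx.mk (nat_lit 502) (nat_lit 6) (nat_lit 6) (nat_lit 7) (nat_lit 7) (nat_lit 163) (nat_lit 100) r1_163 r10_100 (nat_lit 0) (nat_lit 0) (nat_lit 0) (nat_lit 0x8017985b4) (nat_lit 536870912),
  Rx.mk (nat_lit 503) (nat_lit 7) (nat_lit 6) (nat_lit 7) (nat_lit 7) (nat_lit 165) (nat_lit 99) r1_165 r10_99 (nat_lit 0) (nat_lit 0) (nat_lit 0) (nat_lit 0x804a4b9b6) (nat_lit 533752062)]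
noncomputable def e23_29 : List Rx := [
  Rx.mk (nat_lit 228) (nat_lit 4) (nat_lit 4) (nat_lit 3) (nat_lit 4) (nat_lit 237) (nat_lit 108) r1_237 r11_108 (nat_lit 51763813) (nat_lit 45330043) (nat_lit 0) (nat_lit 0x7bfdcf3ca) (nat_lit 699634368),
  Rx.mk (nat_lit 231) (nat_lit 7) (nat_lit 4) (nat_lit 3) (nat_lit 5) (nat_lit 238) (nat_lit 109) r1_238 r11_109 (nat_lit 0) (nat_lit 24741287) (nat_lit 0) (nat_lit 0x8017985b4) (nat_lit 561612199),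
  Rx.mk (nat_lit 255) (nat_lit 7) (nat_lit 7) (nat_lit 3) (nat_lit 7) (nat_lit 239) (nat_lit 110) r1_239 r11_110 (nat_lit 0) (nat_lit 0) (nat_lit 0) (nat_lit 0x8017985b4) (nat_lit 536870912),
  Rx.mk (nat_lit 484) (nat_lit 4) (nat_lit 4) (nat_lit 7) (nat_lit 4) (nat_lit 234) (nat_lit 107) r1_234 r11_107 (nat_lit 88719546) (nat_lit 26935402) (nat_lit 0) (nat_lit 0x76bea858e) (nat_lit 802950560),
  Rx.mk (nat_lit 500) (nat_lit 4) (nat_lit 6) (nat_lit 7) (nat_lit 6) (nat_lit 235) (nat_lit 111) r1_235 r11_111 (nat_lit 25084538) (nat_lit 0) (nat_lit 0) (nat_lit 0x8001d6c6c) (nat_lit 563283450),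
  Rx.mk (nat_lit 502) (nat_lit 6) (nat_lit 6) (nat_lit 7) (nat_lit 7) (nat_lit 236) (nat_lit 112) r1_236 r11_112 (nat_lit 0) (nat_lit 0) (nat_lit 0) (nat_lit 0x81471cbfe) (nat_lit 518335312)]
noncomputable def e23_30 : List Rx := [
  Rx.mk (nat_lit 47) (nat_lit 7) (nat_lit 5) (nat_lit 0) (nat_lit 3) (nat_lit 303) (nat_lit 273) r1_303 r5_273 (nat_lit 0) (nat_lit 0) (nat_lit 15528047) (nat_lit 0x815c32e9e) (nat_lit 532577559),
  Rx.mk (nat_lit 111) (nat_lit 7) (nat_lit 5) (nat_lit 1) (nat_lit 7) (nat_lit 304) (nat_lit 274) r1_304 r5_274 (nat_lit 0) (nat_lit 0) (nat_lit 0) (nat_lit 0x825a7268a) (nat_lit 501688462)]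
noncomputable def e23_31 : List Rx := [
  Rx.mk (nat_lit 111) (nat_lit 7) (nat_lit 5) (nat_lit 1) (nat_lit 7) (nat_lit 310) (nat_lit 338) r1_310 r11_338 (nat_lit 0) (nat_lit 0) (nat_lit 0) (nat_lit 0x8017985b4) (nat_lit 536870912)]
noncomputable def e23_32 : List Rx := [
  Rx.mk (nat_lit 43) (nat_lit 3) (nat_lit 5) (nat_lit 0) (nat_lit 3) (nat_lit 88) (nat_lit 57) r1_88 r6_57 (nat_lit 0) (nat_lit 0) (nat_lit 14248724) (nat_lit 0x80a26753c) (nat_lit 542542486),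
  Rx.mk (nat_lit 235) (nat_lit 3) (nat_lit 5) (nat_lit 3) (nat_lit 7) (nat_lit 90) (nat_lit 58) r1_90 r6_58 (nat_lit 0) (nat_lit 0) (nat_lit 0) (nat_lit 0x80add07a2) (nat_lit 527662962),
  Rx.mk (nat_lit 239) (nat_lit 7) (nat_lit 5) (nat_lit 3) (nat_lit 7) (nat_lit 89) (nat_lit 56) r1_89 r6_56 (nat_lit 0) (nat_lit 0) (nat_lit 0) (nat_lit 0x8954d7890) (nat_lit 395152462)]
noncomputable def e23_33 : List Rx := [
  Rx.mk (nat_lit 227) (nat_lit 3) (nat_lit 4) (nat_lit 3) (nat_lit 5) (nat_lit 63) (nat_lit 6) r1_63 r5_6 (nat_lit 0) (nat_lit 10795266) (nat_lit 0) (nat_lit 0x6d3a97438) (nat_lit 851857228),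
  Rx.mk (nat_lit 231) (nat_lit 7) (nat_lit 4) (nat_lit 3) (nat_lit 5) (nat_lit 61) (nat_lit 9) r1_61 r5_9 (nat_lit 0) (nat_lit 3702159) (nat_lit 0) (nat_lit 0x6eab69304) (nat_lit 821330421),
  Rx.mk (nat_lit 235) (nat_lit 3) (nat_lit 5) (nat_lit 3) (nat_lit 7) (nat_lit 64) (nat_lit 7) r1_64 r5_7 (nat_lit 0) (nat_lit 0) (nat_lit 0) (nat_lit 0x8038a520c) (nat_lit 534837962),
  Rx.mk (nat_lit 239) (nat_lit 7) (nat_lit 5) (nat_lit 3) (nat_lit 7) (nat_lit 62) (nat_lit 10) r1_62 r5_10 (nat_lit 0) (nat_lit 0) (nat_lit 0) (nat_lit 0x8270dea40) (nat_lit 500473562),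
  Rx.mk (nat_lit 251) (nat_lit 3) (nat_lit 7) (nat_lit 3) (nat_lit 7) (nat_lit 65) (nat_lit 8) r1_65 r5_8 (nat_lit 0) (nat_lit 0) (nat_lit 0) (nat_lit 0x8009d4658) (nat_lit 537721562),
  Rx.mk (nat_lit 487) (nat_lit 7) (nat_lit 4) (nat_lit 7) (nat_lit 5) (nat_lit 58) (nat_lit 11) r1_58 r5_11 (nat_lit 0) (nat_lit 6051545) (nat_lit 0) (nat_lit 0x72f5acc5a) (nat_lit 754383857),
  Rx.mk (nat_lit 495) (nat_lit 7) (nat_lit 5) (nat_lit 7) (nat_lit 7) (nat_lit 59) (nat_lit 12) r1_59 r5_12 (nat_lit 0) (nat_lit 0) (nat_lit 0) (nat_lit 0x814d8e96a) (nat_lit 517942162),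
  Rx.mk (nat_lit 503) (nat_lit 7) (nat_lit 6) (nat_lit 7) (nat_lit 7) (nat_lit 60) (nat_lit 13) r1_60 r5_13 (nat_lit 0) (nat_lit 0) (nat_lit 0) (nat_lit 0x7fe62a1bc) (nat_lit 539838662)]
noncomputable def e23_34 : List Rx := [
  Rx.mk (nat_lit 487) (nat_lit 7) (nat_lit 4) (nat_lit 7) (nat_lit 5) (nat_lit 166) (nat_lit 2) r1_166 r11_2 (nat_lit 0) (nat_lit 24107596) (nat_lit 0) (nat_lit 0x800249f8c) (nat_lit 562289358),
  Rx.mk (nat_lit 495) (nat_lit 7) (nat_lit 5) (nat_lit 7) (nat_lit 7) (nat_lit 167) (nat_lit 3) r1_167 r11_3 (nat_lit 0) (nat_lit 0) (nat_lit 0) (nat_lit 0x8017985b4) (nat_lit 536870912),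
  Rx.mk (nat_lit 503) (nat_lit 7) (nat_lit 6) (nat_lit 7) (nat_lit 7) (nat_lit 168) (nat_lit 4) r1_168 r11_4 (nat_lit 0) (nat_lit 0) (nat_lit 0) (nat_lit 0x8017985b4) (nat_lit 536870912)]
noncomputable def e23_35 : List Rx := [
  Rx.mk (nat_lit 43) (nat_lit 3) (nat_lit 5) (nat_lit 0) (nat_lit 3) (nat_lit 241) (nat_lit 298) r1_241 r6_298 (nat_lit 0) (nat_lit 0) (nat_lit 15511582) (nat_lit 0x81bcd1ade) (nat_lit 526733344),
  Rx.mk (nat_lit 47) (nat_lit 7) (nat_lit 5) (nat_lit 0) (nat_lit 3) (nat_lit 240) (nat_lit 299) r1_240 r6_299 (nat_lit 0) (nat_lit 0) (nat_lit 861113) (nat_lit 0x81f140aa4) (nat_lit 508285625)]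
noncomputable def e23_36 : List Rx := [
  Rx.mk (nat_lit 43) (nat_lit 3) (nat_lit 5) (nat_lit 0) (nat_lit 3) (nat_lit 250) (nat_lit 176) r1_250 r12_176 (nat_lit 0) (nat_lit 0) (nat_lit 20432270) (nat_lit 0x807054a04) (nat_lit 551662282),
  Rx.mk (nat_lit 47) (nat_lit 7) (nat_lit 5) (nat_lit 0) (nat_lit 3) (nat_lit 249) (nat_lit 177) r1_249 r12_177 (nat_lit 0) (nat_lit 0) (nat_lit 188525) (nat_lit 0x82e82ffae) (nat_lit 492764987),
  Rx.mk (nat_lit 239) (nat_lit 7) (nat_lit 5) (nat_lit 3) (nat_lit 7) (nat_lit 251) (nat_lit 178) r1_251 r12_178 (nat_lit 0) (nat_lit 0) (nat_lit 0) (nat_lit 0x8ee42ae52) (nat_lit 310307562)]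
noncomputable def e23_37 : List Rx := [
  Rx.mk (nat_lit 11) (nat_lit 3) (nat_lit 1) (nat_lit 0) (nat_lit 3) (nat_lit 69) (nat_lit 76) r1_69 r0_76 (nat_lit 0) (nat_lit 0) (nat_lit 21882932) (nat_lit 0x7e18dc364) (nat_lit 590459594),
  Rx.mk (nat_lit 136) (nat_lit 0) (nat_lit 1) (nat_lit 2) (nat_lit 6) (nat_lit 70) (nat_lit 75) r1_70 r0_75 (nat_lit 11807158) (nat_lit 0) (nat_lit 0) (nat_lit 0x7ffe24146) (nat_lit 550115770),
  Rx.mk (nat_lit 139) (nat_lit 3) (nat_lit 1) (nat_lit 2) (nat_lit 7) (nat_lit 71) (nat_lit 78) r1_71 r0_78 (nat_lit 0) (nat_lit 0) (nat_lit 0) (nat_lit 0x8272ee83a) (nat_lit 500330612),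
  Rx.mk (nat_lit 203) (nat_lit 3) (nat_lit 1) (nat_lit 3) (nat_lit 7) (nat_lit 72) (nat_lit 77) r1_72 r0_77 (nat_lit 0) (nat_lit 0) (nat_lit 0) (nat_lit 0x8008dd830) (nat_lit 537772712)]
noncomputable def e23_38 : List Rx := [
  Rx.mk (nat_lit 8) (nat_lit 0) (nat_lit 1) (nat_lit 0) (nat_lit 2) (nat_lit 180) (nat_lit 265) r1_180 r0_265 (nat_lit 14461079) (nat_lit 0) (nat_lit 67542365) (nat_lit 0x5cc089d90) (nat_lit 1189508356),
  Rx.mk (nat_lit 9) (nat_lit 1) (nat_lit 1) (nat_lit 0) (nat_lit 3) (nat_lit 182) (nat_lit 266) r1_182 r0_266 (nat_lit 0) (nat_lit 0) (nat_lit 30433232) (nat_lit 0x7d7bf805c) (nat_lit 608923094),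
  Rx.mk (nat_lit 11) (nat_lit 3) (nat_lit 1) (nat_lit 0) (nat_lit 3) (nat_lit 183) (nat_lit 267) r1_183 r0_267 (nat_lit 0) (nat_lit 0) (nat_lit 99141069) (nat_lit 0x7f0a1588e) (nat_lit 652491131),
  Rx.mk (nat_lit 40) (nat_lit 0) (nat_lit 5) (nat_lit 0) (nat_lit 2) (nat_lit 179) (nat_lit 269) r1_179 r0_269 (nat_lit 62636) (nat_lit 0) (nat_lit 1205034172) (nat_lit 0x802a2cad6) (nat_lit 1739481320),
  Rx.mk (nat_lit 41) (nat_lit 1) (nat_lit 5) (nat_lit 0) (nat_lit 3) (nat_lit 181) (nat_lit 270) r1_181 r0_270 (nat_lit 0) (nat_lit 0) (nat_lit 72480076) (nat_lit 0x7991dfe78) (nat_lit 713984088),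
  Rx.mk (nat_lit 203) (nat_lit 3) (nat_lit 1) (nat_lit 3) (nat_lit 7) (nat_lit 184) (nat_lit 268) r1_184 r0_268 (nat_lit 0) (nat_lit 0) (nat_lit 0) (nat_lit 0x7c86d8338) (nat_lit 593842712)]
noncomputable def e23_39 : List Rx := [
  Rx.mk (nat_lit 8) (nat_lit 0) (nat_lit 1) (nat_lit 0) (nat_lit 2) (nat_lit 192) (nat_lit 64) r1_192 r7_64 (nat_lit 16757287) (nat_lit 0) (nat_lit 25112477) (nat_lit 0x6c3762d4a) (nat_lit 899304226),
  Rx.mk (nat_lit 9) (nat_lit 1) (nat_lit 1) (nat_lit 0) (nat_lit 3) (nat_lit 193) (nat_lit 66) r1_193 r7_66 (nat_lit 0) (nat_lit 0) (nat_lit 25314926) (nat_lit 0x7f9e34eca) (nat_lit 569620288),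
  Rx.mk (nat_lit 11) (nat_lit 3) (nat_lit 1) (nat_lit 0) (nat_lit 3) (nat_lit 194) (nat_lit 68) r1_194 r7_68 (nat_lit 0) (nat_lit 0) (nat_lit 30395325) (nat_lit 0x809096c2c) (nat_lit 559824137),
  Rx.mk (nat_lit 136) (nat_lit 0) (nat_lit 1) (nat_lit 2) (nat_lit 6) (nat_lit 195) (nat_lit 65) r1_195 r7_65 (nat_lit 19851321) (nat_lit 0) (nat_lit 0) (nat_lit 0x80224bf92) (nat_lit 556043533),
  Rx.mk (nat_lit 137) (nat_lit 1) (nat_lit 1) (nat_lit 2) (nat_lit 7) (nat_lit 196) (nat_lit 67) r1_196 r7_67 (nat_lit 0) (nat_lit 0) (nat_lit 0) (nat_lit 0x8017985b4) (nat_lit 536870912),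
  Rx.mk (nat_lit 139) (nat_lit 3) (nat_lit 1) (nat_lit 2) (nat_lit 7) (nat_lit 197) (nat_lit 70) r1_197 r7_70 (nat_lit 0) (nat_lit 0) (nat_lit 0) (nat_lit 0x8017985b4) (nat_lit 536870912),
  Rx.mk (nat_lit 203) (nat_lit 3) (nat_lit 1) (nat_lit 3) (nat_lit 7) (nat_lit 198) (nat_lit 69) r1_198 r7_69 (nat_lit 0) (nat_lit 0) (nat_lit 0) (nat_lit 0x8018dbc28) (nat_lit 536671062)]
noncomputable def e23_40 : List Rx := [
  Rx.mk (nat_lit 9) (nat_lit 1) (nat_lit 1) (nat_lit 0) (nat_lit 3) (nat_lit 282) (nat_lit 295) r1_282 r2_295 (nat_lit 0) (nat_lit 0) (nat_lit 24741287) (nat_lit 0x8017985b4) (nat_lit 561612199),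
  Rx.mk (nat_lit 41) (nat_lit 1) (nat_lit 5) (nat_lit 0) (nat_lit 3) (nat_lit 281) (nat_lit 297) r1_281 r2_297 (nat_lit 0) (nat_lit 0) (nat_lit 24741287) (nat_lit 0x80411f176) (nat_lit 559058049),
  Rx.mk (nat_lit 45) (nat_lit 5) (nat_lit 5) (nat_lit 0) (nat_lit 3) (nat_lit 280) (nat_lit 298) r1_280 r2_298 (nat_lit 0) (nat_lit 0) (nat_lit 34697810) (nat_lit 0x7fda33674) (nat_lit 575291622),
  Rx.mk (nat_lit 73) (nat_lit 1) (nat_lit 1) (nat_lit 1) (nat_lit 7) (nat_lit 285) (nat_lit 296) r1_285 r2_296 (nat_lit 0) (nat_lit 0) (nat_lit 0) (nat_lit 0x8017985b4) (nat_lit 536870912),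
  Rx.mk (nat_lit 105) (nat_lit 1) (nat_lit 5) (nat_lit 1) (nat_lit 7) (nat_lit 284) (nat_lit 299) r1_284 r2_299 (nat_lit 0) (nat_lit 0) (nat_lit 0) (nat_lit 0x8017985b4) (nat_lit 536870912),
  Rx.mk (nat_lit 109) (nat_lit 5) (nat_lit 5) (nat_lit 1) (nat_lit 7) (nat_lit 283) (nat_lit 300) r1_283 r2_300 (nat_lit 0) (nat_lit 0) (nat_lit 0) (nat_lit 0x8017985b4) (nat_lit 536870912)]
noncomputable def e23_41 : List Rx := [
  Rx.mk (nat_lit 9) (nat_lit 1) (nat_lit 1) (nat_lit 0) (nat_lit 3) (nat_lit 290) (nat_lit 286) r1_290 r9_286 (nat_lit 0) (nat_lit 0) (nat_lit 24741287) (nat_lit 0x7fa9dd1b4) (nat_lit 568325299),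
  Rx.mk (nat_lit 73) (nat_lit 1) (nat_lit 1) (nat_lit 1) (nat_lit 7) (nat_lit 291) (nat_lit 287) r1_291 r9_287 (nat_lit 0) (nat_lit 0) (nat_lit 0) (nat_lit 0x8017985b4) (nat_lit 536870912),
  Rx.mk (nat_lit 137) (nat_lit 1) (nat_lit 1) (nat_lit 2) (nat_lit 7) (nat_lit 292) (nat_lit 288) r1_292 r9_288 (nat_lit 0) (nat_lit 0) (nat_lit 0) (nat_lit 0x8017985b4) (nat_lit 536870912)]
noncomputable def e23_42 : List Rx := [
  Rx.mk (nat_lit 73) (nat_lit 1) (nat_lit 1) (nat_lit 1) (nat_lit 7) (nat_lit 289) (nat_lit 292) r1_289 r9_292 (nat_lit 0) (nat_lit 0) (nat_lit 0) (nat_lit 0x8017985b4) (nat_lit 536870912),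
  Rx.mk (nat_lit 105) (nat_lit 1) (nat_lit 5) (nat_lit 1) (nat_lit 7) (nat_lit 288) (nat_lit 291) r1_288 r9_291 (nat_lit 0) (nat_lit 0) (nat_lit 0) (nat_lit 0x8017985b4) (nat_lit 536870912),
  Rx.mk (nat_lit 109) (nat_lit 5) (nat_lit 5) (nat_lit 1) (nat_lit 7) (nat_lit 287) (nat_lit 290) r1_287 r9_290 (nat_lit 0) (nat_lit 0) (nat_lit 0) (nat_lit 0x8017985b4) (nat_lit 536870912)]
noncomputable def e23_43 : List Rx := [
  Rx.mk (nat_lit 9) (nat_lit 1) (nat_lit 1) (nat_lit 0) (nat_lit 3) (nat_lit 186) (nat_lit 272) r1_186 r1_272 (nat_lit 0) (nat_lit 0) (nat_lit 25191095) (nat_lit 0x7f94f86e0) (nat_lit 570102157),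
  Rx.mk (nat_lit 41) (nat_lit 1) (nat_lit 5) (nat_lit 0) (nat_lit 3) (nat_lit 185) (nat_lit 273) r1_185 r1_273 (nat_lit 0) (nat_lit 0) (nat_lit 27314648) (nat_lit 0x7fc62ebb0) (nat_lit 569113310)]
noncomputable def e23_44 : List Rx := [
  Rx.mk (nat_lit 9) (nat_lit 1) (nat_lit 1) (nat_lit 0) (nat_lit 3) (nat_lit 199) (nat_lit 66) r1_199 r8_66 (nat_lit 0) (nat_lit 0) (nat_lit 24741287) (nat_lit 0x8001ac32c) (nat_lit 562953699),
  Rx.mk (nat_lit 137) (nat_lit 1) (nat_lit 1) (nat_lit 2) (nat_lit 7) (nat_lit 200) (nat_lit 67) r1_200 r8_67 (nat_lit 0) (nat_lit 0) (nat_lit 0) (nat_lit 0x8017985b4) (nat_lit 536870912)]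
noncomputable def e23_45 : List Rx := [
  Rx.mk (nat_lit 3) (nat_lit 3) (nat_lit 0) (nat_lit 0) (nat_lit 1) (nat_lit 73) (nat_lit 75) r1_73 r1_75 (nat_lit 0) (nat_lit 15490975) (nat_lit 31186734) (nat_lit 0x737c3593e) (nat_lit 786645371),
  Rx.mk (nat_lit 11) (nat_lit 3) (nat_lit 1) (nat_lit 0) (nat_lit 3) (nat_lit 74) (nat_lit 76) r1_74 r1_76 (nat_lit 0) (nat_lit 0) (nat_lit 21613846) (nat_lit 0x803338576) (nat_lit 556779258),
  Rx.mk (nat_lit 128) (nat_lit 0) (nat_lit 0) (nat_lit 2) (nat_lit 4) (nat_lit 75) (nat_lit 73) r1_75 r1_73 (nat_lit 31186734) (nat_lit 15490975) (nat_lit 0) (nat_lit 0x737c3593e) (nat_lit 786645371),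
  Rx.mk (nat_lit 130) (nat_lit 2) (nat_lit 0) (nat_lit 2) (nat_lit 5) (nat_lit 77) (nat_lit 82) r1_77 r1_82 (nat_lit 0) (nat_lit 24482746) (nat_lit 0) (nat_lit 0x7fe0acf14) (nat_lit 564715758),
  Rx.mk (nat_lit 131) (nat_lit 3) (nat_lit 0) (nat_lit 2) (nat_lit 5) (nat_lit 80) (nat_lit 80) r1_80 r1_80 (nat_lit 0) (nat_lit 11124082) (nat_lit 0) (nat_lit 0x80f4f92b4) (nat_lit 534436844),
  Rx.mk (nat_lit 136) (nat_lit 0) (nat_lit 1) (nat_lit 2) (nat_lit 6) (nat_lit 76) (nat_lit 74) r1_76 r1_74 (nat_lit 21613846) (nat_lit 0) (nat_lit 0) (nat_lit 0x803338576) (nat_lit 556779258),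
  Rx.mk (nat_lit 138) (nat_lit 2) (nat_lit 1) (nat_lit 2) (nat_lit 7) (nat_lit 78) (nat_lit 83) r1_78 r1_83 (nat_lit 0) (nat_lit 0) (nat_lit 0) (nat_lit 0x8017985b4) (nat_lit 536870912),
  Rx.mk (nat_lit 139) (nat_lit 3) (nat_lit 1) (nat_lit 2) (nat_lit 7) (nat_lit 81) (nat_lit 81) r1_81 r1_81 (nat_lit 0) (nat_lit 0) (nat_lit 0) (nat_lit 0x808fc0672) (nat_lit 529500412),
  Rx.mk (nat_lit 146) (nat_lit 2) (nat_lit 2) (nat_lit 2) (nat_lit 7) (nat_lit 79) (nat_lit 84) r1_79 r1_84 (nat_lit 0) (nat_lit 0) (nat_lit 0) (nat_lit 0x8017985b4) (nat_lit 536870912),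
  Rx.mk (nat_lit 195) (nat_lit 3) (nat_lit 0) (nat_lit 3) (nat_lit 5) (nat_lit 82) (nat_lit 77) r1_82 r1_77 (nat_lit 0) (nat_lit 24482746) (nat_lit 0) (nat_lit 0x7fe0acf14) (nat_lit 564715758),
  Rx.mk (nat_lit 203) (nat_lit 3) (nat_lit 1) (nat_lit 3) (nat_lit 7) (nat_lit 83) (nat_lit 78) r1_83 r1_78 (nat_lit 0) (nat_lit 0) (nat_lit 0) (nat_lit 0x8017985b4) (nat_lit 536870912),
  Rx.mk (nat_lit 219) (nat_lit 3) (nat_lit 3) (nat_lit 3) (nat_lit 7) (nat_lit 84) (nat_lit 79) r1_84 r1_79 (nat_lit 0) (nat_lit 0) (nat_lit 0) (nat_lit 0x8017985b4) (nat_lit 536870912)]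
noncomputable def e23_46 : List Rx := [
  Rx.mk (nat_lit 3) (nat_lit 3) (nat_lit 0) (nat_lit 0) (nat_lit 1) (nat_lit 31) (nat_lit 76) r1_31 r2_76 (nat_lit 0) (nat_lit 19918432) (nat_lit 28114446) (nat_lit 0x712066600) (nat_lit 826141340),
  Rx.mk (nat_lit 27) (nat_lit 3) (nat_lit 3) (nat_lit 0) (nat_lit 3) (nat_lit 32) (nat_lit 77) r1_32 r2_77 (nat_lit 0) (nat_lit 0) (nat_lit 35404402) (nat_lit 0x7ebadf3d2) (nat_lit 593887464),
  Rx.mk (nat_lit 128) (nat_lit 0) (nat_lit 0) (nat_lit 2) (nat_lit 4) (nat_lit 33) (nat_lit 75) r1_33 r2_75 (nat_lit 29030061) (nat_lit 23439880) (nat_lit 0) (nat_lit 0x6ea7937fc) (nat_lit 870542453),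
  Rx.mk (nat_lit 130) (nat_lit 2) (nat_lit 0) (nat_lit 2) (nat_lit 5) (nat_lit 34) (nat_lit 82) r1_34 r2_82 (nat_lit 0) (nat_lit 24741287) (nat_lit 0) (nat_lit 0x800662966) (nat_lit 562664999),
  Rx.mk (nat_lit 131) (nat_lit 3) (nat_lit 0) (nat_lit 2) (nat_lit 5) (nat_lit 36) (nat_lit 79) r1_36 r2_79 (nat_lit 0) (nat_lit 12320371) (nat_lit 0) (nat_lit 0x80de8e3da) (nat_lit 537025133),
  Rx.mk (nat_lit 146) (nat_lit 2) (nat_lit 2) (nat_lit 2) (nat_lit 7) (nat_lit 35) (nat_lit 83) r1_35 r2_83 (nat_lit 0) (nat_lit 0) (nat_lit 0) (nat_lit 0x8017985b4) (nat_lit 536870912),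
  Rx.mk (nat_lit 155) (nat_lit 3) (nat_lit 3) (nat_lit 2) (nat_lit 7) (nat_lit 37) (nat_lit 80) r1_37 r2_80 (nat_lit 0) (nat_lit 0) (nat_lit 0) (nat_lit 0x804b9beec) (nat_lit 533672912),
  Rx.mk (nat_lit 219) (nat_lit 3) (nat_lit 3) (nat_lit 3) (nat_lit 7) (nat_lit 38) (nat_lit 78) r1_38 r2_78 (nat_lit 0) (nat_lit 0) (nat_lit 0) (nat_lit 0x8017985b4) (nat_lit 536870912),
  Rx.mk (nat_lit 402) (nat_lit 2) (nat_lit 2) (nat_lit 6) (nat_lit 7) (nat_lit 30) (nat_lit 81) r1_30 r2_81 (nat_lit 0) (nat_lit 0) (nat_lit 0) (nat_lit 0x8017985b4) (nat_lit 536870912)]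
noncomputable def e23_47 : List Rx := [
  Rx.mk (nat_lit 0) (nat_lit 0) (nat_lit 0) (nat_lit 0) (nat_lit 0) (nat_lit 201) (nat_lit 283) r1_201 r8_283 (nat_lit 20700425) (nat_lit 11826643) (nat_lit 34852659) (nat_lit 0x3dc59600a) (nat_lit 1675850589),
  Rx.mk (nat_lit 3) (nat_lit 3) (nat_lit 0) (nat_lit 0) (nat_lit 1) (nat_lit 204) (nat_lit 284) r1_204 r8_284 (nat_lit 0) (nat_lit 26799246) (nat_lit 57475971) (nat_lit 0x672d75b5c) (nat_lit 1023262029),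
  Rx.mk (nat_lit 8) (nat_lit 0) (nat_lit 1) (nat_lit 0) (nat_lit 2) (nat_lit 202) (nat_lit 289) r1_202 r8_289 (nat_lit 32376877) (nat_lit 0) (nat_lit 29801349) (nat_lit 0x669a3f496) (nat_lit 1010443188),
  Rx.mk (nat_lit 9) (nat_lit 1) (nat_lit 1) (nat_lit 0) (nat_lit 3) (nat_lit 203) (nat_lit 290) r1_203 r8_290 (nat_lit 0) (nat_lit 0) (nat_lit 25018304) (nat_lit 0x7fdcdbf2a) (nat_lit 565476766),
  Rx.mk (nat_lit 11) (nat_lit 3) (nat_lit 1) (nat_lit 0) (nat_lit 3) (nat_lit 205) (nat_lit 291) r1_205 r8_291 (nat_lit 0) (nat_lit 0) (nat_lit 25047671) (nat_lit 0x804337652) (nat_lit 559218933),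
  Rx.mk (nat_lit 128) (nat_lit 0) (nat_lit 0) (nat_lit 2) (nat_lit 4) (nat_lit 206) (nat_lit 286) r1_206 r8_286 (nat_lit 33972801) (nat_lit 31654428) (nat_lit 0) (nat_lit 0x6c187865a) (nat_lit 925088641),
  Rx.mk (nat_lit 130) (nat_lit 2) (nat_lit 0) (nat_lit 2) (nat_lit 5) (nat_lit 209) (nat_lit 288) r1_209 r8_288 (nat_lit 0) (nat_lit 24741287) (nat_lit 0) (nat_lit 0x8017985b4) (nat_lit 561612199),
  Rx.mk (nat_lit 131) (nat_lit 3) (nat_lit 0) (nat_lit 2) (nat_lit 5) (nat_lit 212) (nat_lit 287) r1_212 r8_287 (nat_lit 0) (nat_lit 24741287) (nat_lit 0) (nat_lit 0x8017985b4) (nat_lit 561612199),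
  Rx.mk (nat_lit 136) (nat_lit 0) (nat_lit 1) (nat_lit 2) (nat_lit 6) (nat_lit 207) (nat_lit 293) r1_207 r8_293 (nat_lit 25834482) (nat_lit 0) (nat_lit 0) (nat_lit 0x7f77d0d42) (nat_lit 572534144),
  Rx.mk (nat_lit 137) (nat_lit 1) (nat_lit 1) (nat_lit 2) (nat_lit 7) (nat_lit 208) (nat_lit 294) r1_208 r8_294 (nat_lit 0) (nat_lit 0) (nat_lit 0) (nat_lit 0x8017985b4) (nat_lit 536870912),
  Rx.mk (nat_lit 138) (nat_lit 2) (nat_lit 1) (nat_lit 2) (nat_lit 7) (nat_lit 210) (nat_lit 296) r1_210 r8_296 (nat_lit 0) (nat_lit 0) (nat_lit 0) (nat_lit 0x8017985b4) (nat_lit 536870912),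
  Rx.mk (nat_lit 139) (nat_lit 3) (nat_lit 1) (nat_lit 2) (nat_lit 7) (nat_lit 213) (nat_lit 295) r1_213 r8_295 (nat_lit 0) (nat_lit 0) (nat_lit 0) (nat_lit 0x8017985b4) (nat_lit 536870912),
  Rx.mk (nat_lit 146) (nat_lit 2) (nat_lit 2) (nat_lit 2) (nat_lit 7) (nat_lit 211) (nat_lit 298) r1_211 r8_298 (nat_lit 0) (nat_lit 0) (nat_lit 0) (nat_lit 0x8017985b4) (nat_lit 536870912),
  Rx.mk (nat_lit 195) (nat_lit 3) (nat_lit 0) (nat_lit 3) (nat_lit 5) (nat_lit 214) (nat_lit 285) r1_214 r8_285 (nat_lit 0) (nat_lit 25082552) (nat_lit 0) (nat_lit 0x71434a6d0) (nat_lit 800991214),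
  Rx.mk (nat_lit 203) (nat_lit 3) (nat_lit 1) (nat_lit 3) (nat_lit 7) (nat_lit 215) (nat_lit 292) r1_215 r8_292 (nat_lit 0) (nat_lit 0) (nat_lit 0) (nat_lit 0x808e1a7dc) (nat_lit 529571662),
  Rx.mk (nat_lit 219) (nat_lit 3) (nat_lit 3) (nat_lit 3) (nat_lit 7) (nat_lit 216) (nat_lit 297) r1_216 r8_297 (nat_lit 0) (nat_lit 0) (nat_lit 0) (nat_lit 0x7ed9578a0) (nat_lit 556568262)]
noncomputable def e23_48 : List Rx := [
  Rx.mk (nat_lit 0) (nat_lit 0) (nat_lit 0) (nat_lit 0) (nat_lit 0) (nat_lit 170) (nat_lit 40) r1_170 r9_40 (nat_lit 49328540) (nat_lit 24261554) (nat_lit 56659484) (nat_lit 0x3f56488d6) (nat_lit 1713461290),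
  Rx.mk (nat_lit 3) (nat_lit 3) (nat_lit 0) (nat_lit 0) (nat_lit 1) (nat_lit 171) (nat_lit 42) r1_171 r9_42 (nat_lit 0) (nat_lit 26252196) (nat_lit 43212165) (nat_lit 0x6d3fdbff2) (nat_lit 910271473),
  Rx.mk (nat_lit 27) (nat_lit 3) (nat_lit 3) (nat_lit 0) (nat_lit 3) (nat_lit 172) (nat_lit 43) r1_172 r9_43 (nat_lit 0) (nat_lit 0) (nat_lit 35087009) (nat_lit 0x7eb627b3c) (nat_lit 593834521),
  Rx.mk (nat_lit 128) (nat_lit 0) (nat_lit 0) (nat_lit 2) (nat_lit 4) (nat_lit 173) (nat_lit 41) r1_173 r9_41 (nat_lit 32551245) (nat_lit 27290911) (nat_lit 0) (nat_lit 0x6e1360b66) (nat_lit 887289868),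
  Rx.mk (nat_lit 130) (nat_lit 2) (nat_lit 0) (nat_lit 2) (nat_lit 5) (nat_lit 174) (nat_lit 48) r1_174 r9_48 (nat_lit 0) (nat_lit 24741287) (nat_lit 0) (nat_lit 0x8004104a6) (nat_lit 562806149),
  Rx.mk (nat_lit 131) (nat_lit 3) (nat_lit 0) (nat_lit 2) (nat_lit 5) (nat_lit 176) (nat_lit 45) r1_176 r9_45 (nat_lit 0) (nat_lit 24741287) (nat_lit 0) (nat_lit 0x8017985b4) (nat_lit 561612199),
  Rx.mk (nat_lit 146) (nat_lit 2) (nat_lit 2) (nat_lit 2) (nat_lit 7) (nat_lit 175) (nat_lit 49) r1_175 r9_49 (nat_lit 0) (nat_lit 0) (nat_lit 0) (nat_lit 0x8017985b4) (nat_lit 536870912),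
  Rx.mk (nat_lit 155) (nat_lit 3) (nat_lit 3) (nat_lit 2) (nat_lit 7) (nat_lit 177) (nat_lit 46) r1_177 r9_46 (nat_lit 0) (nat_lit 0) (nat_lit 0) (nat_lit 0x8017985b4) (nat_lit 536870912),
  Rx.mk (nat_lit 219) (nat_lit 3) (nat_lit 3) (nat_lit 3) (nat_lit 7) (nat_lit 178) (nat_lit 44) r1_178 r9_44 (nat_lit 0) (nat_lit 0) (nat_lit 0) (nat_lit 0x7ed9f7242) (nat_lit 556534462),
  Rx.mk (nat_lit 402) (nat_lit 2) (nat_lit 2) (nat_lit 6) (nat_lit 7) (nat_lit 169) (nat_lit 47) r1_169 r9_47 (nat_lit 0) (nat_lit 0) (nat_lit 0) (nat_lit 0x8017985b4) (nat_lit 536870912)]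
noncomputable def e23_49 : List Rx := [
  Rx.mk (nat_lit 402) (nat_lit 2) (nat_lit 2) (nat_lit 6) (nat_lit 7) (nat_lit 153) (nat_lit 1) r1_153 r9_1 (nat_lit 0) (nat_lit 0) (nat_lit 0) (nat_lit 0x8017985b4) (nat_lit 536870912)]
noncomputable def e23_50 : List Rx := [
  Rx.mk (nat_lit 11) (nat_lit 3) (nat_lit 1) (nat_lit 0) (nat_lit 3) (nat_lit 67) (nat_lit 69) r1_67 r3_69 (nat_lit 0) (nat_lit 0) (nat_lit 187256) (nat_lit 0x7e7e37ede) (nat_lit 561441168),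
  Rx.mk (nat_lit 43) (nat_lit 3) (nat_lit 5) (nat_lit 0) (nat_lit 3) (nat_lit 66) (nat_lit 68) r1_66 r3_68 (nat_lit 0) (nat_lit 0) (nat_lit 15428) (nat_lit 0x81eea1d52) (nat_lit 507420490),
  Rx.mk (nat_lit 203) (nat_lit 3) (nat_lit 1) (nat_lit 3) (nat_lit 7) (nat_lit 68) (nat_lit 70) r1_68 r3_70 (nat_lit 0) (nat_lit 0) (nat_lit 0) (nat_lit 0x802f26848) (nat_lit 535238762)]
noncomputable def e23_51 : List Rx := [
  Rx.mk (nat_lit 11) (nat_lit 3) (nat_lit 1) (nat_lit 0) (nat_lit 3) (nat_lit 85) (nat_lit 71) r1_85 r4_71 (nat_lit 0) (nat_lit 0) (nat_lit 18076853) (nat_lit 0x7feb22318) (nat_lit 557573915),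
  Rx.mk (nat_lit 139) (nat_lit 3) (nat_lit 1) (nat_lit 2) (nat_lit 7) (nat_lit 86) (nat_lit 73) r1_86 r4_73 (nat_lit 0) (nat_lit 0) (nat_lit 0) (nat_lit 0x8445fa28c) (nat_lit 472429712),
  Rx.mk (nat_lit 203) (nat_lit 3) (nat_lit 1) (nat_lit 3) (nat_lit 7) (nat_lit 87) (nat_lit 72) r1_87 r4_72 (nat_lit 0) (nat_lit 0) (nat_lit 0) (nat_lit 0x8017985b4) (nat_lit 536870912)]
noncomputable def e23_52 : List Rx := [
  Rx.mk (nat_lit 43) (nat_lit 3) (nat_lit 5) (nat_lit 0) (nat_lit 3) (nat_lit 91) (nat_lit 63) r1_91 r5_63 (nat_lit 0) (nat_lit 0) (nat_lit 3579826) (nat_lit 0x811e759ee) (nat_lit 524029388),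
  Rx.mk (nat_lit 203) (nat_lit 3) (nat_lit 1) (nat_lit 3) (nat_lit 7) (nat_lit 93) (nat_lit 65) r1_93 r5_65 (nat_lit 0) (nat_lit 0) (nat_lit 0) (nat_lit 0x7fd333eb4) (nat_lit 540973512),
  Rx.mk (nat_lit 235) (nat_lit 3) (nat_lit 5) (nat_lit 3) (nat_lit 7) (nat_lit 92) (nat_lit 64) r1_92 r5_64 (nat_lit 0) (nat_lit 0) (nat_lit 0) (nat_lit 0x79fc7a418) (nat_lit 634642712)]
noncomputable def e23_53 : List Rx := [
  Rx.mk (nat_lit 11) (nat_lit 3) (nat_lit 1) (nat_lit 0) (nat_lit 3) (nat_lit 190) (nat_lit 279) r1_190 r4_279 (nat_lit 0) (nat_lit 0) (nat_lit 124425147) (nat_lit 0x7ecc4e244) (nat_lit 681601709),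
  Rx.mk (nat_lit 40) (nat_lit 0) (nat_lit 5) (nat_lit 0) (nat_lit 2) (nat_lit 187) (nat_lit 281) r1_187 r4_281 (nat_lit 12745069) (nat_lit 0) (nat_lit 131619701) (nat_lit 0x669364acc) (nat_lit 1092912382),
  Rx.mk (nat_lit 41) (nat_lit 1) (nat_lit 5) (nat_lit 0) (nat_lit 3) (nat_lit 188) (nat_lit 282) r1_188 r4_282 (nat_lit 0) (nat_lit 0) (nat_lit 25655830) (nat_lit 0x7fff0d792) (nat_lit 563934392),
  Rx.mk (nat_lit 43) (nat_lit 3) (nat_lit 5) (nat_lit 0) (nat_lit 3) (nat_lit 189) (nat_lit 283) r1_189 r4_283 (nat_lit 0) (nat_lit 0) (nat_lit 277566866) (nat_lit 0x7d3bb22a4) (nat_lit 859858978),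
  Rx.mk (nat_lit 203) (nat_lit 3) (nat_lit 1) (nat_lit 3) (nat_lit 7) (nat_lit 191) (nat_lit 280) r1_191 r4_280 (nat_lit 0) (nat_lit 0) (nat_lit 0) (nat_lit 0x80304a1b6) (nat_lit 535245512)]
noncomputable def e23_54 : List Rx := [
  Rx.mk (nat_lit 11) (nat_lit 3) (nat_lit 1) (nat_lit 0) (nat_lit 3) (nat_lit 217) (nat_lit 49) r1_217 r10_49 (nat_lit 0) (nat_lit 0) (nat_lit 25153554) (nat_lit 0x80e8b8eaa) (nat_lit 549278466),
  Rx.mk (nat_lit 139) (nat_lit 3) (nat_lit 1) (nat_lit 2) (nat_lit 7) (nat_lit 218) (nat_lit 51) r1_218 r10_51 (nat_lit 0) (nat_lit 0) (nat_lit 0) (nat_lit 0x8017985b4) (nat_lit 536870912),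
  Rx.mk (nat_lit 203) (nat_lit 3) (nat_lit 1) (nat_lit 3) (nat_lit 7) (nat_lit 219) (nat_lit 50) r1_219 r10_50 (nat_lit 0) (nat_lit 0) (nat_lit 0) (nat_lit 0x81b14ef04) (nat_lit 511970262)]
noncomputable def e23_55 : List Rx := [
  Rx.mk (nat_lit 40) (nat_lit 0) (nat_lit 5) (nat_lit 0) (nat_lit 2) (nat_lit 220) (nat_lit 41) r1_220 r11_41 (nat_lit 107908680) (nat_lit 0) (nat_lit 132640855) (nat_lit 0x75cd0e8fe) (nat_lit 943069347),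
  Rx.mk (nat_lit 41) (nat_lit 1) (nat_lit 5) (nat_lit 0) (nat_lit 3) (nat_lit 221) (nat_lit 42) r1_221 r11_42 (nat_lit 0) (nat_lit 0) (nat_lit 24741287) (nat_lit 0x80394da56) (nat_lit 559537749),
  Rx.mk (nat_lit 43) (nat_lit 3) (nat_lit 5) (nat_lit 0) (nat_lit 3) (nat_lit 222) (nat_lit 43) r1_222 r11_43 (nat_lit 0) (nat_lit 0) (nat_lit 27280081) (nat_lit 0x7ff4c6252) (nat_lit 566171843),
  Rx.mk (nat_lit 203) (nat_lit 3) (nat_lit 1) (nat_lit 3) (nat_lit 7) (nat_lit 224) (nat_lit 45) r1_224 r11_45 (nat_lit 0) (nat_lit 0) (nat_lit 0) (nat_lit 0x808a832cc) (nat_lit 529822112),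
  Rx.mk (nat_lit 235) (nat_lit 3) (nat_lit 5) (nat_lit 3) (nat_lit 7) (nat_lit 223) (nat_lit 44) r1_223 r11_44 (nat_lit 0) (nat_lit 0) (nat_lit 0) (nat_lit 0x814af5f1e) (nat_lit 518142212)]
noncomputable def e23_56 : List Rx := [
  Rx.mk (nat_lit 11) (nat_lit 3) (nat_lit 1) (nat_lit 0) (nat_lit 3) (nat_lit 243) (nat_lit 267) r1_243 r5_267 (nat_lit 0) (nat_lit 0) (nat_lit 91702614) (nat_lit 0x80aaf72a6) (nat_lit 619301176),
  Rx.mk (nat_lit 43) (nat_lit 3) (nat_lit 5) (nat_lit 0) (nat_lit 3) (nat_lit 242) (nat_lit 268) r1_242 r5_268 (nat_lit 0) (nat_lit 0) (nat_lit 100423417) (nat_lit 0x83d8b6e82) (nat_lit 579086629)]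
noncomputable def e23_57 : List Rx := [
  Rx.mk (nat_lit 11) (nat_lit 3) (nat_lit 1) (nat_lit 0) (nat_lit 3) (nat_lit 244) (nat_lit 333) r1_244 r11_333 (nat_lit 0) (nat_lit 0) (nat_lit 16971006) (nat_lit 0x8058c13c4) (nat_lit 549817368),
  Rx.mk (nat_lit 139) (nat_lit 3) (nat_lit 1) (nat_lit 2) (nat_lit 7) (nat_lit 245) (nat_lit 334) r1_245 r11_334 (nat_lit 0) (nat_lit 0) (nat_lit 0) (nat_lit 0x814704da6) (nat_lit 518377612)]
noncomputable def e23 : List (List Rx) := [e23_0, e23_1, e23_2, e23_3, e23_4, e23_5, e23_6, e23_7, e23_8, e23_9, e23_10, e23_11, e23_12, e23_13, e23_14, e23_15, e23_16, e23_17, e23_18, e23_19, e23_20, e23_21, e23_22, e23_23, e23_24, e23_25, e23_26, e23_27, e23_28, e23_29, e23_30, e23_31, e23_32, e23_33, e23_34, e23_35, e23_36, e23_37, e23_38, e23_39, e23_40, e23_41, e23_42, e23_43, e23_44, e23_45, e23_46, e23_47, e23_48, e23_49, e23_50,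 e23_51, e23_52, e23_53, e23_54, e23_55, e23_56, e23_57]

end Pool.Agent.AKXS_24_34_V1
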