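import Pool.Agent.AKXS_24_34_V1.R0
import Pool.Agent.AKXS_24_34_V1.R1
import Pool.Agent.AKXS_24_34_V1.R2
import Pool.Agent.AKXS_24_34_V1.R3
import Pool.Agent.AKXS_24_34_V1.R4
import Pool.Agent.AKXS_24_34_V1.R5
import Pool.Agent.AKXS_24_34_V1.R6
import Pool.Agent.AKXS_24_34_V1.R7
import Pool.Agent.AKXS_24_34_V1.R8
import Pool.Agent.AKXS_24_34_V1.R9
import Pool.Agent.AKXS_24_34_V1.R10
import Pool.Agent.AKXS_24_34_V1.R11
import Pool.Agent.AKXS_24_34_V1.R12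

set_option autoImplicit false

namespace Pool.Agent.AKXS_24_34_V1

open Pool.Agent.AKX Pool.Agent.AKU

noncomputable def e24_0 : List Rx := [
  Rx.mk (nat_lit 100) (nat_lit 4) (nat_lit 4) (nat_lit 1) (nat_lit 4) (nat_lit 262) (nat_lit 174) r4_262 r0_174 (nat_lit 200714257) (nat_lit 1751344) (nat_lit 0) (nat_lit 0x5c0ff7e00) (nat_lit 1320763563),
  Rx.mk (nat_lit 108) (nat_lit 4) (nat_lit 5) (nat_lit 1) (nat_lit 6) (nat_lit 263) (nat_lit 175) r4_263 r0_175 (nat_lit 51975942) (nat_lit 0) (nat_lit 0) (nat_lit 0x79cafc27e) (nat_lit 689883204),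
  Rx.mk (nat_lit 116) (nat_lit 4) (nat_lit 6) (nat_lit 1) (nat_lit 6) (nat_lit 264) (nat_lit 176) r4_264 r0_176 (nat_lit 441859640) (nat_lit 0) (nat_lit 0) (nat_lit 0x75873a166) (nat_lit 1148413852)]
noncomputable def e24_1 : List Rx := [
  Rx.mk (nat_lit 100) (nat_lit 4) (nat_lit 4) (nat_lit 1) (nat_lit 4) (nat_lit 281) (nat_lit 187) r4_281 r1_187 (nat_lit 131619701) (nat_lit 12745069) (nat_lit 0) (nat_lit 0x669364acc) (nat_lit 1092912382),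
  Rx.mk (nat_lit 108) (nat_lit 4) (nat_lit 5) (nat_lit 1) (nat_lit 6) (nat_lit 282) (nat_lit 188) r4_282 r1_188 (nat_lit 25655830) (nat_lit 0) (nat_lit 0) (nat_lit 0x7fff0d792) (nat_lit 563934392),
  Rx.mk (nat_lit 116) (nat_lit 4) (nat_lit 6) (nat_lit 1) (nat_lit 6) (nat_lit 283) (nat_lit 189) r4_283 r1_189 (nat_lit 277566866) (nat_lit 0) (nat_lit 0) (nat_lit 0x7d3bb22a4) (nat_lit 859858978),
  Rx.mk (nat_lit 372) (nat_lit 4) (nat_lit 6) (nat_lit 5) (nat_lit 6) (nat_lit 279) (nat_lit 190) r4_279 r1_190 (nat_lit 124425147) (nat_lit 0) (nat_lit 0) (nat_lit 0x7ecc4e244) (nat_lit 681601709),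
  Rx.mk (nat_lit 374) (nat_lit 6) (nat_lit 6) (nat_lit 5) (nat_lit 7) (nat_lit 280) (nat_lit 191) r4_280 r1_191 (nat_lit 0) (nat_lit 0) (nat_lit 0) (nat_lit 0x80304a1b6) (nat_lit 535245512)]
noncomputable def e24_2 : List Rx := [
  Rx.mk (nat_lit 372) (nat_lit 4) (nat_lit 6) (nat_lit 5) (nat_lit 6) (nat_lit 271) (nat_lit 187) r4_271 r2_187 (nat_lit 24741287) (nat_lit 0) (nat_lit 0) (nat_lit 0x8017985b4) (nat_lit 561612199),
  Rx.mk (nat_lit 374) (nat_lit 6) (nat_lit 6) (nat_lit 5) (nat_lit 7) (nat_lit 272) (nat_lit 188) r4_272 r2_188 (nat_lit 0) (nat_lit 0) (nat_lit 0) (nat_lit 0x8017985b4) (nat_lit 536870912)]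
noncomputable def e24_3 : List Rx := [
  Rx.mk (nat_lit 36) (nat_lit 4) (nat_lit 4) (nat_lit 0) (nat_lit 0) (nat_lit 315) (nat_lit 155) r4_315 r3_155 (nat_lit 2229) (nat_lit 1469) (nat_lit 1732) (nat_lit 0x68e4b7288) (nat_lit 910528842),
  Rx.mk (nat_lit 39) (nat_lit 7) (nat_lit 4) (nat_lit 0) (nat_lit 1) (nat_lit 318) (nat_lit 161) r4_318 r3_161 (nat_lit 0) (nat_lit 531156) (nat_lit 654027) (nat_lit 0x7dee0ba40) (nat_lit 571676845),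
  Rx.mk (nat_lit 44) (nat_lit 4) (nat_lit 5) (nat_lit 0) (nat_lit 2) (nat_lit 316) (nat_lit 157) r4_316 r3_157 (nat_lit 11711) (nat_lit 0) (nat_lit 52766084) (nat_lit 0x7e39636b4) (nat_lit 618367307),
  Rx.mk (nat_lit 47) (nat_lit 7) (nat_lit 5) (nat_lit 0) (nat_lit 3) (nat_lit 319) (nat_lit 163) r4_319 r3_163 (nat_lit 0) (nat_lit 0) (nat_lit 8572817) (nat_lit 0x825b4bc3c) (nat_lit 510304629),
  Rx.mk (nat_lit 52) (nat_lit 4) (nat_lit 6) (nat_lit 0) (nat_lit 2) (nat_lit 317) (nat_lit 159) r4_317 r3_159 (nat_lit 79972519) (nat_lit 0) (nat_lit 18325) (nat_lit 0x7bd4579ca) (nat_lit 684307106),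
  Rx.mk (nat_lit 55) (nat_lit 7) (nat_lit 6) (nat_lit 0) (nat_lit 3) (nat_lit 320) (nat_lit 165) r4_320 r3_165 (nat_lit 0) (nat_lit 0) (nat_lit 8997628) (nat_lit 0x812b84d60) (nat_lit 529007340),
  Rx.mk (nat_lit 100) (nat_lit 4) (nat_lit 4) (nat_lit 1) (nat_lit 4) (nat_lit 321) (nat_lit 156) r4_321 r3_156 (nat_lit 291971) (nat_lit 197867) (nat_lit 0) (nat_lit 0x7cea5f820) (nat_lit 587285400),
  Rx.mk (nat_lit 103) (nat_lit 7) (nat_lit 4) (nat_lit 1) (nat_lit 5) (nat_lit 324) (nat_lit 162) r4_324 r3_162 (nat_lit 0) (nat_lit 1704686) (nat_lit 0) (nat_lit 0x92d5beefa) (nat_lit 251699898),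
  Rx.mk (nat_lit 108) (nat_lit 4) (nat_lit 5) (nat_lit 1) (nat_lit 6) (nat_lit 322) (nat_lit 158) r4_322 r3_158 (nat_lit 6083194) (nat_lit 0) (nat_lit 0) (nat_lit 0x8288ac032) (nat_lit 504840506),
  Rx.mk (nat_lit 111) (nat_lit 7) (nat_lit 5) (nat_lit 1) (nat_lit 7) (nat_lit 325) (nat_lit 164) r4_325 r3_164 (nat_lit 0) (nat_lit 0) (nat_lit 0) (nat_lit 0x886830f5a) (nat_lit 409301012),
  Rx.mk (nat_lit 116) (nat_lit 4) (nat_lit 6) (nat_lit 1) (nat_lit 6) (nat_lit 323) (nat_lit 160) r4_323 r3_160 (nat_lit 57785397) (nat_lit 0) (nat_lit 0) (nat_lit 0x829aa2052) (nat_lit 555266559),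
  Rx.mk (nat_lit 119) (nat_lit 7) (nat_lit 6) (nat_lit 1) (nat_lit 7) (nat_lit 326) (nat_lit 166) r4_326 r3_166 (nat_lit 0) (nat_lit 0) (nat_lit 0) (nat_lit 0x84db470d8) (nat_lit 463510162)]
noncomputable def e24_4 : List Rx := [
  Rx.mk (nat_lit 100) (nat_lit 4) (nat_lit 4) (nat_lit 1) (nat_lit 4) (nat_lit 349) (nat_lit 161) r4_349 r4_161 (nat_lit 15888243) (nat_lit 8380959) (nat_lit 0) (nat_lit 0x712c99c60) (nat_lit 801452014),
  Rx.mk (nat_lit 103) (nat_lit 7) (nat_lit 4) (nat_lit 1) (nat_lit 5) (nat_lit 352) (nat_lit 164) r4_352 r4_164 (nat_lit 0) (nat_lit 12559442) (nat_lit 0) (nat_lit 0x7f3685d1a) (nat_lit 563145404),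
  Rx.mk (nat_lit 108) (nat_lit 4) (nat_lit 5) (nat_lit 1) (nat_lit 6) (nat_lit 350) (nat_lit 162) r4_350 r4_162 (nat_lit 22312841) (nat_lit 0) (nat_lit 0) (nat_lit 0x806176d2a) (nat_lit 554648803),
  Rx.mk (nat_lit 111) (nat_lit 7) (nat_lit 5) (nat_lit 1) (nat_lit 7) (nat_lit 353) (nat_lit 165) r4_353 r4_165 (nat_lit 0) (nat_lit 0) (nat_lit 0) (nat_lit 0x80d3762ea) (nat_lit 525382062),
  Rx.mk (nat_lit 116) (nat_lit 4) (nat_lit 6) (nat_lit 1) (nat_lit 6) (nat_lit 351) (nat_lit 163) r4_351 r4_163 (nat_lit 68646309) (nat_lit 0) (nat_lit 0) (nat_lit 0x7fa8798a4) (nat_lit 612142821),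
  Rx.mk (nat_lit 119) (nat_lit 7) (nat_lit 6) (nat_lit 1) (nat_lit 7) (nat_lit 354) (nat_lit 166) r4_354 r4_166 (nat_lit 0) (nat_lit 0) (nat_lit 0) (nat_lit 0x808605e8e) (nat_lit 530063762)]
noncomputable def e24_5 : List Rx := [
  Rx.mk (nat_lit 36) (nat_lit 4) (nat_lit 4) (nat_lit 0) (nat_lit 0) (nat_lit 366) (nat_lit 169) r4_366 r5_169 (nat_lit 2737427) (nat_lit 841617) (nat_lit 1433235) (nat_lit 0x61d7dcea2) (nat_lit 1029758991),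
  Rx.mk (nat_lit 39) (nat_lit 7) (nat_lit 4) (nat_lit 0) (nat_lit 1) (nat_lit 369) (nat_lit 177) r4_369 r5_177 (nat_lit 0) (nat_lit 4717590) (nat_lit 5283235) (nat_lit 0x752a4ab54) (nat_lit 722606187),
  Rx.mk (nat_lit 44) (nat_lit 4) (nat_lit 5) (nat_lit 0) (nat_lit 2) (nat_lit 367) (nat_lit 172) r4_367 r5_172 (nat_lit 38663507) (nat_lit 0) (nat_lit 31203347) (nat_lit 0x74de6bf62) (nat_lit 787491166),
  Rx.mk (nat_lit 47) (nat_lit 7) (nat_lit 5) (nat_lit 0) (nat_lit 3) (nat_lit 370) (nat_lit 179) r4_370 r5_179 (nat_lit 0) (nat_lit 0) (nat_lit 12656058) (nat_lit 0x8088cb0ec) (nat_lit 542545370),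
  Rx.mk (nat_lit 52) (nat_lit 4) (nat_lit 6) (nat_lit 0) (nat_lit 2) (nat_lit 368) (nat_lit 174) r4_368 r5_174 (nat_lit 174408130) (nat_lit 0) (nat_lit 5546147) (nat_lit 0x790afe648) (nat_lit 829916089),
  Rx.mk (nat_lit 55) (nat_lit 7) (nat_lit 6) (nat_lit 0) (nat_lit 3) (nat_lit 371) (nat_lit 182) r4_371 r5_182 (nat_lit 0) (nat_lit 0) (nat_lit 11445764) (nat_lit 0x81403787a) (nat_lit 530241476),
  Rx.mk (nat_lit 63) (nat_lit 7) (nat_lit 7) (nat_lit 0) (nat_lit 3) (nat_lit 372) (nat_lit 180) r4_372 r5_180 (nat_lit 0) (nat_lit 0) (nat_lit 26071718) (nat_lit 0x7c450e86c) (nat_lit 624104680),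
  Rx.mk (nat_lit 100) (nat_lit 4) (nat_lit 4) (nat_lit 1) (nat_lit 4) (nat_lit 373) (nat_lit 170) r4_373 r5_170 (nat_lit 159956814) (nat_lit 11320658) (nat_lit 0) (nat_lit 0x7afbd0750) (nat_lit 789998334),
  Rx.mk (nat_lit 103) (nat_lit 7) (nat_lit 4) (nat_lit 1) (nat_lit 5) (nat_lit 375) (nat_lit 178) r4_375 r5_178 (nat_lit 0) (nat_lit 10292378) (nat_lit 0) (nat_lit 0x80631e6c8) (nat_lit 542489390),
  Rx.mk (nat_lit 116) (nat_lit 4) (nat_lit 6) (nat_lit 1) (nat_lit 6) (nat_lit 374) (nat_lit 175) r4_374 r5_175 (nat_lit 141819368) (nat_lit 0) (nat_lit 0) (nat_lit 0x7fe1dc33a) (nat_lit 681820880),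
  Rx.mk (nat_lit 119) (nat_lit 7) (nat_lit 6) (nat_lit 1) (nat_lit 7) (nat_lit 376) (nat_lit 183) r4_376 r5_183 (nat_lit 0) (nat_lit 0) (nat_lit 0) (nat_lit 0x80cd61346) (nat_lit 525749862),
  Rx.mk (nat_lit 127) (nat_lit 7) (nat_lit 7) (nat_lit 1) (nat_lit 7) (nat_lit 377) (nat_lit 181) r4_377 r5_181 (nat_lit 0) (nat_lit 0) (nat_lit 0) (nat_lit 0x80414fb1e) (nat_lit 534304462),
  Rx.mk (nat_lit 228) (nat_lit 4) (nat_lit 4) (nat_lit 3) (nat_lit 4) (nat_lit 378) (nat_lit 171) r4_378 r5_171 (nat_lit 58076158) (nat_lit 24206208) (nat_lit 0) (nat_lit 0x78ad82f82) (nat_lit 738299028),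
  Rx.mk (nat_lit 236) (nat_lit 4) (nat_lit 5) (nat_lit 3) (nat_lit 6) (nat_lit 379) (nat_lit 173) r4_379 r5_173 (nat_lit 24741287) (nat_lit 0) (nat_lit 0) (nat_lit 0x8017985b4) (nat_lit 561612199),
  Rx.mk (nat_lit 244) (nat_lit 4) (nat_lit 6) (nat_lit 3) (nat_lit 6) (nat_lit 380) (nat_lit 176) r4_380 r5_176 (nat_lit 26164324) (nat_lit 0) (nat_lit 0) (nat_lit 0x80999346a) (nat_lit 555052536)]
noncomputable def e24_6 : List Rx := [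
  Rx.mk (nat_lit 59) (nat_lit 3) (nat_lit 7) (nat_lit 0) (nat_lit 3) (nat_lit 34) (nat_lit 126) r4_34 r3_126 (nat_lit 0) (nat_lit 0) (nat_lit 929445) (nat_lit 0x7e1ef5642) (nat_lit 568442957),
  Rx.mk (nat_lit 187) (nat_lit 3) (nat_lit 7) (nat_lit 2) (nat_lit 7) (nat_lit 35) (nat_lit 128) r4_35 r3_128 (nat_lit 0) (nat_lit 0) (nat_lit 0) (nat_lit 0x7fc8e9274) (nat_lit 540391512),
  Rx.mk (nat_lit 231) (nat_lit 7) (nat_lit 4) (nat_lit 3) (nat_lit 5) (nat_lit 36) (nat_lit 124) r4_36 r3_124 (nat_lit 0) (nat_lit 631050) (nat_lit 0) (nat_lit 0x80795a612) (nat_lit 530585312),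
  Rx.mk (nat_lit 247) (nat_lit 7) (nat_lit 6) (nat_lit 3) (nat_lit 7) (nat_lit 37) (nat_lit 131) r4_37 r3_131 (nat_lit 0) (nat_lit 0) (nat_lit 0) (nat_lit 0x80712030c) (nat_lit 531200012),
  Rx.mk (nat_lit 251) (nat_lit 3) (nat_lit 7) (nat_lit 3) (nat_lit 7) (nat_lit 39) (nat_lit 127) r4_39 r3_127 (nat_lit 0) (nat_lit 0) (nat_lit 0) (nat_lit 0x802f141c0) (nat_lit 535365262),
  Rx.mk (nat_lit 255) (nat_lit 7) (nat_lit 7) (nat_lit 3) (nat_lit 7) (nat_lit 38) (nat_lit 125) r4_38 r3_125 (nat_lit 0) (nat_lit 0) (nat_lit 0) (nat_lit 0x806259120) (nat_lit 532277862),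
  Rx.mk (nat_lit 500) (nat_lit 4) (nat_lit 6) (nat_lit 7) (nat_lit 6) (nat_lit 31) (nat_lit 129) r4_31 r3_129 (nat_lit 24740) (nat_lit 0) (nat_lit 0) (nat_lit 0x7ff7bed42) (nat_lit 537418902),
  Rx.mk (nat_lit 502) (nat_lit 6) (nat_lit 6) (nat_lit 7) (nat_lit 7) (nat_lit 32) (nat_lit 132) r4_32 r3_132 (nat_lit 0) (nat_lit 0) (nat_lit 0) (nat_lit 0x7990b12cc) (nat_lit 641633562),
  Rx.mk (nat_lit 503) (nat_lit 7) (nat_lit 6) (nat_lit 7) (nat_lit 7) (nat_lit 33) (nat_lit 130) r4_33 r3_130 (nat_lit 0) (nat_lit 0) (nat_lit 0) (nat_lit 0x8112e8e28) (nat_lit 521452962)]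
noncomputable def e24_7 : List Rx := [
  Rx.mk (nat_lit 308) (nat_lit 4) (nat_lit 6) (nat_lit 4) (nat_lit 2) (nat_lit 93) (nat_lit 142) r4_93 r0_142 (nat_lit 206617785) (nat_lit 0) (nat_lit 1138602) (nat_lit 0x685ba0238) (nat_lit 1127160549),
  Rx.mk (nat_lit 310) (nat_lit 6) (nat_lit 6) (nat_lit 4) (nat_lit 3) (nat_lit 94) (nat_lit 145) r4_94 r0_145 (nat_lit 0) (nat_lit 0) (nat_lit 15006223) (nat_lit 0x7cc837842) (nat_lit 604752435),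
  Rx.mk (nat_lit 500) (nat_lit 4) (nat_lit 6) (nat_lit 7) (nat_lit 6) (nat_lit 95) (nat_lit 143) r4_95 r0_143 (nat_lit 128366738) (nat_lit 0) (nat_lit 0) (nat_lit 0x7fb918d0e) (nat_lit 670781900),
  Rx.mk (nat_lit 502) (nat_lit 6) (nat_lit 6) (nat_lit 7) (nat_lit 7) (nat_lit 96) (nat_lit 146) r4_96 r0_146 (nat_lit 0) (nat_lit 0) (nat_lit 0) (nat_lit 0x801c7c06c) (nat_lit 536515262),
  Rx.mk (nat_lit 503) (nat_lit 7) (nat_lit 6) (nat_lit 7) (nat_lit 7) (nat_lit 97) (nat_lit 144) r4_97 r0_144 (nat_lit 0) (nat_lit 0) (nat_lit 0) (nat_lit 0x7fd67623e) (nat_lit 540864312)]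
noncomputable def e24_8 : List Rx := [
  Rx.mk (nat_lit 308) (nat_lit 4) (nat_lit 6) (nat_lit 4) (nat_lit 2) (nat_lit 107) (nat_lit 154) r4_107 r1_154 (nat_lit 159743199) (nat_lit 0) (nat_lit 13326467) (nat_lit 0x73d78693c) (nat_lit 907207678),
  Rx.mk (nat_lit 310) (nat_lit 6) (nat_lit 6) (nat_lit 4) (nat_lit 3) (nat_lit 108) (nat_lit 158) r4_108 r1_158 (nat_lit 0) (nat_lit 0) (nat_lit 21535191) (nat_lit 0x7c291a87c) (nat_lit 621319503),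
  Rx.mk (nat_lit 372) (nat_lit 4) (nat_lit 6) (nat_lit 5) (nat_lit 6) (nat_lit 109) (nat_lit 155) r4_109 r1_155 (nat_lit 26051565) (nat_lit 0) (nat_lit 0) (nat_lit 0x8064f5dac) (nat_lit 558163527),
  Rx.mk (nat_lit 374) (nat_lit 6) (nat_lit 6) (nat_lit 5) (nat_lit 7) (nat_lit 110) (nat_lit 159) r4_110 r1_159 (nat_lit 0) (nat_lit 0) (nat_lit 0) (nat_lit 0x807893f76) (nat_lit 530914262),
  Rx.mk (nat_lit 500) (nat_lit 4) (nat_lit 6) (nat_lit 7) (nat_lit 6) (nat_lit 111) (nat_lit 156) r4_111 r1_156 (nat_lit 26855787) (nat_lit 0) (nat_lit 0) (nat_lit 0x80aa4da94) (nat_lit 554718499),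
  Rx.mk (nat_lit 502) (nat_lit 6) (nat_lit 6) (nat_lit 7) (nat_lit 7) (nat_lit 112) (nat_lit 160) r4_112 r1_160 (nat_lit 0) (nat_lit 0) (nat_lit 0) (nat_lit 0x8039d0276) (nat_lit 534761612),
  Rx.mk (nat_lit 503) (nat_lit 7) (nat_lit 6) (nat_lit 7) (nat_lit 7) (nat_lit 113) (nat_lit 157) r4_113 r1_157 (nat_lit 0) (nat_lit 0) (nat_lit 0) (nat_lit 0x8017985b4) (nat_lit 536870912)]
noncomputable def e24_9 : List Rx := [
  Rx.mk (nat_lit 500) (nat_lit 4) (nat_lit 6) (nat_lit 7) (nat_lit 6) (nat_lit 131) (nat_lit 131) r4_131 r4_131 (nat_lit 240605632) (nat_lit 0) (nat_lit 0) (nat_lit 0x7ff1aa79e) (nat_lit 779445244),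
  Rx.mk (nat_lit 502) (nat_lit 6) (nat_lit 6) (nat_lit 7) (nat_lit 7) (nat_lit 132) (nat_lit 133) r4_132 r4_133 (nat_lit 0) (nat_lit 0) (nat_lit 0) (nat_lit 0x7fdb12f9a) (nat_lit 540544312),
  Rx.mk (nat_lit 503) (nat_lit 7) (nat_lit 6) (nat_lit 7) (nat_lit 7) (nat_lit 133) (nat_lit 132) r4_133 r4_132 (nat_lit 0) (nat_lit 0) (nat_lit 0) (nat_lit 0x7fdb12f9a) (nat_lit 540544312)]
noncomputable def e24_10 : List Rx := [
  Rx.mk (nat_lit 39) (nat_lit 7) (nat_lit 4) (nat_lit 0) (nat_lit 1) (nat_lit 229) (nat_lit 186) r4_229 r6_186 (nat_lit 0) (nat_lit 150896) (nat_lit 185097) (nat_lit 0x7474055ce) (nat_lit 723972805),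
  Rx.mk (nat_lit 47) (nat_lit 7) (nat_lit 5) (nat_lit 0) (nat_lit 3) (nat_lit 230) (nat_lit 188) r4_230 r6_188 (nat_lit 0) (nat_lit 0) (nat_lit 15201900) (nat_lit 0x80b22620c) (nat_lit 542613312),
  Rx.mk (nat_lit 55) (nat_lit 7) (nat_lit 6) (nat_lit 0) (nat_lit 3) (nat_lit 231) (nat_lit 191) r4_231 r6_191 (nat_lit 0) (nat_lit 0) (nat_lit 15888000) (nat_lit 0x80a2446e0) (nat_lit 544269162),
  Rx.mk (nat_lit 59) (nat_lit 3) (nat_lit 7) (nat_lit 0) (nat_lit 3) (nat_lit 233) (nat_lit 181) r4_233 r6_181 (nat_lit 0) (nat_lit 0) (nat_lit 11623710) (nat_lit 0x7bf31a790) (nat_lit 614749172),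
  Rx.mk (nat_lit 63) (nat_lit 7) (nat_lit 7) (nat_lit 0) (nat_lit 3) (nat_lit 232) (nat_lit 190) r4_232 r6_190 (nat_lit 0) (nat_lit 0) (nat_lit 14591992) (nat_lit 0x7ffde2a5c) (nat_lit 552972954),
  Rx.mk (nat_lit 187) (nat_lit 3) (nat_lit 7) (nat_lit 2) (nat_lit 7) (nat_lit 234) (nat_lit 182) r4_234 r6_182 (nat_lit 0) (nat_lit 0) (nat_lit 0) (nat_lit 0x81ec02330) (nat_lit 508336162),
  Rx.mk (nat_lit 228) (nat_lit 4) (nat_lit 4) (nat_lit 3) (nat_lit 4) (nat_lit 235) (nat_lit 183) r4_235 r6_183 (nat_lit 102847) (nat_lit 72450) (nat_lit 0) (nat_lit 0x74c49e314) (nat_lit 718702409),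
  Rx.mk (nat_lit 231) (nat_lit 7) (nat_lit 4) (nat_lit 3) (nat_lit 5) (nat_lit 238) (nat_lit 187) r4_238 r6_187 (nat_lit 0) (nat_lit 8507115) (nat_lit 0) (nat_lit 0x7fe98ff5a) (nat_lit 548034927),
  Rx.mk (nat_lit 236) (nat_lit 4) (nat_lit 5) (nat_lit 3) (nat_lit 6) (nat_lit 236) (nat_lit 184) r4_236 r6_184 (nat_lit 17803608) (nat_lit 0) (nat_lit 0) (nat_lit 0x8030df784) (nat_lit 553092470),
  Rx.mk (nat_lit 239) (nat_lit 7) (nat_lit 5) (nat_lit 3) (nat_lit 7) (nat_lit 239) (nat_lit 189) r4_239 r6_189 (nat_lit 0) (nat_lit 0) (nat_lit 0) (nat_lit 0x80ad718e2) (nat_lit 527694462),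
  Rx.mk (nat_lit 244) (nat_lit 4) (nat_lit 6) (nat_lit 3) (nat_lit 6) (nat_lit 237) (nat_lit 185) r4_237 r6_185 (nat_lit 14470459) (nat_lit 0) (nat_lit 0) (nat_lit 0x7f6a8c884) (nat_lit 561862921),
  Rx.mk (nat_lit 247) (nat_lit 7) (nat_lit 6) (nat_lit 3) (nat_lit 7) (nat_lit 240) (nat_lit 192) r4_240 r6_192 (nat_lit 0) (nat_lit 0) (nat_lit 0) (nat_lit 0x80ad718e2) (nat_lit 527694462)]
noncomputable def e24_11 : List Rx := [
  Rx.mk (nat_lit 59) (nat_lit 3) (nat_lit 7) (nat_lit 0) (nat_lit 3) (nat_lit 198) (nat_lit 128) r4_198 r5_128 (nat_lit 0) (nat_lit 0) (nat_lit 4758833) (nat_lit 0x72642244c) (nat_lit 762218945),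
  Rx.mk (nat_lit 63) (nat_lit 7) (nat_lit 7) (nat_lit 0) (nat_lit 3) (nat_lit 197) (nat_lit 126) r4_197 r5_126 (nat_lit 0) (nat_lit 0) (nat_lit 10127202) (nat_lit 0x78e0d6154) (nat_lit 662850514),
  Rx.mk (nat_lit 187) (nat_lit 3) (nat_lit 7) (nat_lit 2) (nat_lit 7) (nat_lit 199) (nat_lit 129) r4_199 r5_129 (nat_lit 0) (nat_lit 0) (nat_lit 0) (nat_lit 0x7eb750676) (nat_lit 558254112),
  Rx.mk (nat_lit 228) (nat_lit 4) (nat_lit 4) (nat_lit 3) (nat_lit 4) (nat_lit 200) (nat_lit 124) r4_200 r5_124 (nat_lit 27807) (nat_lit 19134) (nat_lit 0) (nat_lit 0x6beaf468e) (nat_lit 861670253),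
  Rx.mk (nat_lit 231) (nat_lit 7) (nat_lit 4) (nat_lit 3) (nat_lit 5) (nat_lit 202) (nat_lit 125) r4_202 r5_125 (nat_lit 0) (nat_lit 4444174) (nat_lit 0) (nat_lit 0x7f2401202) (nat_lit 556007186),
  Rx.mk (nat_lit 244) (nat_lit 4) (nat_lit 6) (nat_lit 3) (nat_lit 6) (nat_lit 201) (nat_lit 131) r4_201 r5_131 (nat_lit 11917208) (nat_lit 0) (nat_lit 0) (nat_lit 0x7c8e48028) (nat_lit 605161420),
  Rx.mk (nat_lit 247) (nat_lit 7) (nat_lit 6) (nat_lit 3) (nat_lit 7) (nat_lit 203) (nat_lit 132) r4_203 r5_132 (nat_lit 0) (nat_lit 0) (nat_lit 0) (nat_lit 0x80931c514) (nat_lit 529274562),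
  Rx.mk (nat_lit 255) (nat_lit 7) (nat_lit 7) (nat_lit 3) (nat_lit 7) (nat_lit 204) (nat_lit 127) r4_204 r5_127 (nat_lit 0) (nat_lit 0) (nat_lit 0) (nat_lit 0x8017985b4) (nat_lit 536870912),
  Rx.mk (nat_lit 500) (nat_lit 4) (nat_lit 6) (nat_lit 7) (nat_lit 6) (nat_lit 195) (nat_lit 130) r4_195 r5_130 (nat_lit 202248689) (nat_lit 0) (nat_lit 0) (nat_lit 0x7fd88729e) (nat_lit 741698201),
  Rx.mk (nat_lit 502) (nat_lit 6) (nat_lit 6) (nat_lit 7) (nat_lit 7) (nat_lit 196) (nat_lit 133) r4_196 r5_133 (nat_lit 0) (nat_lit 0) (nat_lit 0) (nat_lit 0x7f0ea3518) (nat_lit 553137312)]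
noncomputable def e24_12 : List Rx := [
  Rx.mk (nat_lit 37) (nat_lit 5) (nat_lit 4) (nat_lit 0) (nat_lit 1) (nat_lit 253) (nat_lit 306) r4_253 r0_306 (nat_lit 0) (nat_lit 9185379) (nat_lit 44700456) (nat_lit 0x69c6a03b6) (nat_lit 950753297),
  Rx.mk (nat_lit 45) (nat_lit 5) (nat_lit 5) (nat_lit 0) (nat_lit 3) (nat_lit 254) (nat_lit 307) r4_254 r0_307 (nat_lit 0) (nat_lit 0) (nat_lit 190947877) (nat_lit 0x781662364) (nat_lit 856023289),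
  Rx.mk (nat_lit 53) (nat_lit 5) (nat_lit 6) (nat_lit 0) (nat_lit 3) (nat_lit 255) (nat_lit 308) r4_255 r0_308 (nat_lit 0) (nat_lit 0) (nat_lit 34510458) (nat_lit 0x7fea14354) (nat_lit 574129370),
  Rx.mk (nat_lit 100) (nat_lit 4) (nat_lit 4) (nat_lit 1) (nat_lit 4) (nat_lit 256) (nat_lit 309) r4_256 r0_309 (nat_lit 19670024) (nat_lit 33909295) (nat_lit 0) (nat_lit 0x680c7e7d6) (nat_lit 978281281),
  Rx.mk (nat_lit 101) (nat_lit 5) (nat_lit 4) (nat_lit 1) (nat_lit 5) (nat_lit 259) (nat_lit 310) r4_259 r0_310 (nat_lit 0) (nat_lit 25313016) (nat_lit 0) (nat_lit 0x7f09601dc) (nat_lit 578840728),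
  Rx.mk (nat_lit 108) (nat_lit 4) (nat_lit 5) (nat_lit 1) (nat_lit 6) (nat_lit 257) (nat_lit 311) r4_257 r0_311 (nat_lit 27415859) (nat_lit 0) (nat_lit 0) (nat_lit 0x8000d8c2a) (nat_lit 565665771),
  Rx.mk (nat_lit 109) (nat_lit 5) (nat_lit 5) (nat_lit 1) (nat_lit 7) (nat_lit 260) (nat_lit 312) r4_260 r0_312 (nat_lit 0) (nat_lit 0) (nat_lit 0) (nat_lit 0x80abe37c8) (nat_lit 527783112),
  Rx.mk (nat_lit 116) (nat_lit 4) (nat_lit 6) (nat_lit 1) (nat_lit 6) (nat_lit 258) (nat_lit 313) r4_258 r0_313 (nat_lit 29629750) (nat_lit 0) (nat_lit 0) (nat_lit 0x7db4131bc) (nat_lit 604586362),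
  Rx.mk (nat_lit 117) (nat_lit 5) (nat_lit 6) (nat_lit 1) (nat_lit 7) (nat_lit 261) (nat_lit 314) r4_261 r0_314 (nat_lit 0) (nat_lit 0) (nat_lit 0) (nat_lit 0x8024ca73c) (nat_lit 536043112)]
noncomputable def e24_13 : List Rx := [
  Rx.mk (nat_lit 100) (nat_lit 4) (nat_lit 4) (nat_lit 1) (nat_lit 4) (nat_lit 265) (nat_lit 223) r4_265 r7_223 (nat_lit 26363677) (nat_lit 51960859) (nat_lit 0) (nat_lit 0x6eea423dc) (nat_lit 892140698),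
  Rx.mk (nat_lit 101) (nat_lit 5) (nat_lit 4) (nat_lit 1) (nat_lit 5) (nat_lit 268) (nat_lit 226) r4_268 r7_226 (nat_lit 0) (nat_lit 24741287) (nat_lit 0) (nat_lit 0x8017985b4) (nat_lit 561612199),
  Rx.mk (nat_lit 108) (nat_lit 4) (nat_lit 5) (nat_lit 1) (nat_lit 6) (nat_lit 266) (nat_lit 224) r4_266 r7_224 (nat_lit 24741287) (nat_lit 0) (nat_lit 0) (nat_lit 0x8017985b4) (nat_lit 561612199),
  Rx.mk (nat_lit 109) (nat_lit 5) (nat_lit 5) (nat_lit 1) (nat_lit 7) (nat_lit 269) (nat_lit 227) r4_269 r7_227 (nat_lit 0) (nat_lit 0) (nat_lit 0) (nat_lit 0x8017985b4) (nat_lit 536870912),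
  Rx.mk (nat_lit 116) (nat_lit 4) (nat_lit 6) (nat_lit 1) (nat_lit 6) (nat_lit 267) (nat_lit 225) r4_267 r7_225 (nat_lit 28981807) (nat_lit 0) (nat_lit 0) (nat_lit 0x7fc4d7cda) (nat_lit 570932769),
  Rx.mk (nat_lit 117) (nat_lit 5) (nat_lit 6) (nat_lit 1) (nat_lit 7) (nat_lit 270) (nat_lit 228) r4_270 r7_228 (nat_lit 0) (nat_lit 0) (nat_lit 0) (nat_lit 0x8017985b4) (nat_lit 536870912)]
noncomputable def e24_14 : List Rx := [
  Rx.mk (nat_lit 37) (nat_lit 5) (nat_lit 4) (nat_lit 0) (nat_lit 1) (nat_lit 293) (nat_lit 297) r4_293 r1_297 (nat_lit 0) (nat_lit 16666109) (nat_lit 79659509) (nat_lit 0x6e82c4200) (nat_lit 916697780),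
  Rx.mk (nat_lit 45) (nat_lit 5) (nat_lit 5) (nat_lit 0) (nat_lit 3) (nat_lit 294) (nat_lit 298) r4_294 r1_298 (nat_lit 0) (nat_lit 0) (nat_lit 132162371) (nat_lit 0x7a51f7832) (nat_lit 761496733),
  Rx.mk (nat_lit 53) (nat_lit 5) (nat_lit 6) (nat_lit 0) (nat_lit 3) (nat_lit 295) (nat_lit 299) r4_295 r1_299 (nat_lit 0) (nat_lit 0) (nat_lit 29428945) (nat_lit 0x800d7d0e8) (nat_lit 566895407),
  Rx.mk (nat_lit 101) (nat_lit 5) (nat_lit 4) (nat_lit 1) (nat_lit 5) (nat_lit 296) (nat_lit 300) r4_296 r1_300 (nat_lit 0) (nat_lit 21556671) (nat_lit 0) (nat_lit 0x801c58cca) (nat_lit 558112583),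
  Rx.mk (nat_lit 109) (nat_lit 5) (nat_lit 5) (nat_lit 1) (nat_lit 7) (nat_lit 297) (nat_lit 301) r4_297 r1_301 (nat_lit 0) (nat_lit 0) (nat_lit 0) (nat_lit 0x80b000be4) (nat_lit 527525712),
  Rx.mk (nat_lit 117) (nat_lit 5) (nat_lit 6) (nat_lit 1) (nat_lit 7) (nat_lit 298) (nat_lit 302) r4_298 r1_302 (nat_lit 0) (nat_lit 0) (nat_lit 0) (nat_lit 0x80691f28e) (nat_lit 531863312)]
noncomputable def e24_15 : List Rx := [
  Rx.mk (nat_lit 101) (nat_lit 5) (nat_lit 4) (nat_lit 1) (nat_lit 5) (nat_lit 304) (nat_lit 181) r4_304 r8_181 (nat_lit 0) (nat_lit 24372871) (nat_lit 0) (nat_lit 0x7fec7bb1a) (nat_lit 563885983),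
  Rx.mk (nat_lit 109) (nat_lit 5) (nat_lit 5) (nat_lit 1) (nat_lit 7) (nat_lit 305) (nat_lit 182) r4_305 r8_182 (nat_lit 0) (nat_lit 0) (nat_lit 0) (nat_lit 0x8017985b4) (nat_lit 536870912),
  Rx.mk (nat_lit 117) (nat_lit 5) (nat_lit 6) (nat_lit 1) (nat_lit 7) (nat_lit 306) (nat_lit 183) r4_306 r8_183 (nat_lit 0) (nat_lit 0) (nat_lit 0) (nat_lit 0x8017985b4) (nat_lit 536870912)]
noncomputable def e24_16 : List Rx := [
  Rx.mk (nat_lit 100) (nat_lit 4) (nat_lit 4) (nat_lit 1) (nat_lit 4) (nat_lit 287) (nat_lit 341) r4_287 r8_341 (nat_lit 27124229) (nat_lit 34758505) (nat_lit 0) (nat_lit 0x700d128ac) (nat_lit 857380996),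
  Rx.mk (nat_lit 101) (nat_lit 5) (nat_lit 4) (nat_lit 1) (nat_lit 5) (nat_lit 290) (nat_lit 342) r4_290 r8_342 (nat_lit 0) (nat_lit 24741287) (nat_lit 0) (nat_lit 0x8017985b4) (nat_lit 561612199),
  Rx.mk (nat_lit 108) (nat_lit 4) (nat_lit 5) (nat_lit 1) (nat_lit 6) (nat_lit 288) (nat_lit 343) r4_288 r8_343 (nat_lit 24741287) (nat_lit 0) (nat_lit 0) (nat_lit 0x7ff500268) (nat_lit 563728899),
  Rx.mk (nat_lit 109) (nat_lit 5) (nat_lit 5) (nat_lit 1) (nat_lit 7) (nat_lit 291) (nat_lit 344) r4_291 r8_344 (nat_lit 0) (nat_lit 0) (nat_lit 0) (nat_lit 0x8017985b4) (nat_lit 536870912),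
  Rx.mk (nat_lit 116) (nat_lit 4) (nat_lit 6) (nat_lit 1) (nat_lit 6) (nat_lit 289) (nat_lit 345) r4_289 r8_345 (nat_lit 24741287) (nat_lit 0) (nat_lit 0) (nat_lit 0x8017985b4) (nat_lit 561612199),
  Rx.mk (nat_lit 117) (nat_lit 5) (nat_lit 6) (nat_lit 1) (nat_lit 7) (nat_lit 292) (nat_lit 346) r4_292 r8_346 (nat_lit 0) (nat_lit 0) (nat_lit 0) (nat_lit 0x8017985b4) (nat_lit 536870912),
  Rx.mk (nat_lit 372) (nat_lit 4) (nat_lit 6) (nat_lit 5) (nat_lit 6) (nat_lit 284) (nat_lit 338) r4_284 r8_338 (nat_lit 24741287) (nat_lit 0) (nat_lit 0) (nat_lit 0x8017985b4) (nat_lit 561612199),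
  Rx.mk (nat_lit 373) (nat_lit 5) (nat_lit 6) (nat_lit 5) (nat_lit 7) (nat_lit 285) (nat_lit 339) r4_285 r8_339 (nat_lit 0) (nat_lit 0) (nat_lit 0) (nat_lit 0x8017985b4) (nat_lit 536870912),
  Rx.mk (nat_lit 374) (nat_lit 6) (nat_lit 6) (nat_lit 5) (nat_lit 7) (nat_lit 286) (nat_lit 340) r4_286 r8_340 (nat_lit 0) (nat_lit 0) (nat_lit 0) (nat_lit 0x8017985b4) (nat_lit 536870912)]
noncomputable def e24_17 : List Rx := [
  Rx.mk (nat_lit 372) (nat_lit 4) (nat_lit 6) (nat_lit 5) (nat_lit 6) (nat_lit 273) (nat_lit 167) r4_273 r9_167 (nat_lit 24741287) (nat_lit 0) (nat_lit 0) (nat_lit 0x7fff3afc6) (nat_lit 563104399),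
  Rx.mk (nat_lit 373) (nat_lit 5) (nat_lit 6) (nat_lit 5) (nat_lit 7) (nat_lit 274) (nat_lit 168) r4_274 r9_168 (nat_lit 0) (nat_lit 0) (nat_lit 0) (nat_lit 0x8017985b4) (nat_lit 536870912),
  Rx.mk (nat_lit 374) (nat_lit 6) (nat_lit 6) (nat_lit 5) (nat_lit 7) (nat_lit 275) (nat_lit 169) r4_275 r9_169 (nat_lit 0) (nat_lit 0) (nat_lit 0) (nat_lit 0x8017985b4) (nat_lit 536870912)]
noncomputable def e24_18 : List Rx := [
  Rx.mk (nat_lit 36) (nat_lit 4) (nat_lit 4) (nat_lit 0) (nat_lit 0) (nat_lit 327) (nat_lit 327) r4_327 r4_327 (nat_lit 6283487) (nat_lit 6283487) (nat_lit 21773644) (nat_lit 0x61999ca2a) (nat_lit 1063393080),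
  Rx.mk (nat_lit 37) (nat_lit 5) (nat_lit 4) (nat_lit 0) (nat_lit 1) (nat_lit 330) (nat_lit 328) r4_330 r4_328 (nat_lit 0) (nat_lit 11437457) (nat_lit 48279250) (nat_lit 0x777352bce) (nat_lit 735513319),
  Rx.mk (nat_lit 39) (nat_lit 7) (nat_lit 4) (nat_lit 0) (nat_lit 1) (nat_lit 333) (nat_lit 329) r4_333 r4_329 (nat_lit 0) (nat_lit 24376439) (nat_lit 32031949) (nat_lit 0x794b04102) (nat_lit 702517800),
  Rx.mk (nat_lit 44) (nat_lit 4) (nat_lit 5) (nat_lit 0) (nat_lit 2) (nat_lit 328) (nat_lit 330) r4_328 r4_330 (nat_lit 11437457) (nat_lit 0) (nat_lit 48279250) (nat_lit 0x777352bce) (nat_lit 735513319),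
  Rx.mk (nat_lit 45) (nat_lit 5) (nat_lit 5) (nat_lit 0) (nat_lit 3) (nat_lit 331) (nat_lit 331) r4_331 r4_331 (nat_lit 0) (nat_lit 0) (nat_lit 25419834) (nat_lit 0x7ffc8b384) (nat_lit 563917346),
  Rx.mk (nat_lit 47) (nat_lit 7) (nat_lit 5) (nat_lit 0) (nat_lit 3) (nat_lit 334) (nat_lit 332) r4_334 r4_332 (nat_lit 0) (nat_lit 0) (nat_lit 24741287) (nat_lit 0x8053c497a) (nat_lit 557914449),
  Rx.mk (nat_lit 52) (nat_lit 4) (nat_lit 6) (nat_lit 0) (nat_lit 2) (nat_lit 329) (nat_lit 333) r4_329 r4_333 (nat_lit 24376439) (nat_lit 0) (nat_lit 32031949) (nat_lit 0x794b04102) (nat_lit 702517800),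
  Rx.mk (nat_lit 53) (nat_lit 5) (nat_lit 6) (nat_lit 0) (nat_lit 3) (nat_lit 332) (nat_lit 334) r4_332 r4_334 (nat_lit 0) (nat_lit 0) (nat_lit 24741287) (nat_lit 0x8053c497a) (nat_lit 557914449),
  Rx.mk (nat_lit 100) (nat_lit 4) (nat_lit 4) (nat_lit 1) (nat_lit 4) (nat_lit 335) (nat_lit 335) r4_335 r4_335 (nat_lit 90649037) (nat_lit 90649037) (nat_lit 0) (nat_lit 0x7d5b0546c) (nat_lit 761817136),
  Rx.mk (nat_lit 101) (nat_lit 5) (nat_lit 4) (nat_lit 1) (nat_lit 5) (nat_lit 338) (nat_lit 336) r4_338 r4_336 (nat_lit 0) (nat_lit 24741287) (nat_lit 0) (nat_lit 0x8017985b4) (nat_lit 561612199),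
  Rx.mk (nat_lit 103) (nat_lit 7) (nat_lit 4) (nat_lit 1) (nat_lit 5) (nat_lit 341) (nat_lit 337) r4_341 r4_337 (nat_lit 0) (nat_lit 28361871) (nat_lit 0) (nat_lit 0x7f9b8ef18) (nat_lit 572839333),
  Rx.mk (nat_lit 108) (nat_lit 4) (nat_lit 5) (nat_lit 1) (nat_lit 6) (nat_lit 336) (nat_lit 338) r4_336 r4_338 (nat_lit 24741287) (nat_lit 0) (nat_lit 0) (nat_lit 0x8017985b4) (nat_lit 561612199),
  Rx.mk (nat_lit 109) (nat_lit 5) (nat_lit 5) (nat_lit 1) (nat_lit 7) (nat_lit 339) (nat_lit 339) r4_339 r4_339 (nat_lit 0) (nat_lit 0) (nat_lit 0) (nat_lit 0x8017985b4) (nat_lit 536870912),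
  Rx.mk (nat_lit 111) (nat_lit 7) (nat_lit 5) (nat_lit 1) (nat_lit 7) (nat_lit 342) (nat_lit 340) r4_342 r4_340 (nat_lit 0) (nat_lit 0) (nat_lit 0) (nat_lit 0x8017985b4) (nat_lit 536870912),
  Rx.mk (nat_lit 116) (nat_lit 4) (nat_lit 6) (nat_lit 1) (nat_lit 6) (nat_lit 337) (nat_lit 341) r4_337 r4_341 (nat_lit 28361871) (nat_lit 0) (nat_lit 0) (nat_lit 0x7f9b8ef18) (nat_lit 572839333),
  Rx.mk (nat_lit 117) (nat_lit 5) (nat_lit 6) (nat_lit 1) (nat_lit 7) (nat_lit 340) (nat_lit 342) r4_340 r4_342 (nat_lit 0) (nat_lit 0) (nat_lit 0) (nat_lit 0x8017985b4) (nat_lit 536870912)]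
noncomputable def e24_19 : List Rx := [
  Rx.mk (nat_lit 100) (nat_lit 4) (nat_lit 4) (nat_lit 1) (nat_lit 4) (nat_lit 355) (nat_lit 175) r4_355 r10_175 (nat_lit 35822015) (nat_lit 46258346) (nat_lit 0) (nat_lit 0x73116d7f0) (nat_lit 828766423),
  Rx.mk (nat_lit 101) (nat_lit 5) (nat_lit 4) (nat_lit 1) (nat_lit 5) (nat_lit 358) (nat_lit 178) r4_358 r10_178 (nat_lit 0) (nat_lit 24741287) (nat_lit 0) (nat_lit 0x8017985b4) (nat_lit 561612199),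
  Rx.mk (nat_lit 103) (nat_lit 7) (nat_lit 4) (nat_lit 1) (nat_lit 5) (nat_lit 361) (nat_lit 181) r4_361 r10_181 (nat_lit 0) (nat_lit 28199854) (nat_lit 0) (nat_lit 0x800201570) (nat_lit 566376116),
  Rx.mk (nat_lit 108) (nat_lit 4) (nat_lit 5) (nat_lit 1) (nat_lit 6) (nat_lit 356) (nat_lit 176) r4_356 r10_176 (nat_lit 24741287) (nat_lit 0) (nat_lit 0) (nat_lit 0x801405032) (nat_lit 561834699),
  Rx.mk (nat_lit 109) (nat_lit 5) (nat_lit 5) (nat_lit 1) (nat_lit 7) (nat_lit 359) (nat_lit 179) r4_359 r10_179 (nat_lit 0) (nat_lit 0) (nat_lit 0) (nat_lit 0x8017985b4) (nat_lit 536870912),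
  Rx.mk (nat_lit 111) (nat_lit 7) (nat_lit 5) (nat_lit 1) (nat_lit 7) (nat_lit 362) (nat_lit 182) r4_362 r10_182 (nat_lit 0) (nat_lit 0) (nat_lit 0) (nat_lit 0x8017985b4) (nat_lit 536870912),
  Rx.mk (nat_lit 116) (nat_lit 4) (nat_lit 6) (nat_lit 1) (nat_lit 6) (nat_lit 357) (nat_lit 177) r4_357 r10_177 (nat_lit 25246541) (nat_lit 0) (nat_lit 0) (nat_lit 0x7fe66bc2a) (nat_lit 565123853),
  Rx.mk (nat_lit 117) (nat_lit 5) (nat_lit 6) (nat_lit 1) (nat_lit 7) (nat_lit 360) (nat_lit 180) r4_360 r10_180 (nat_lit 0) (nat_lit 0) (nat_lit 0) (nat_lit 0x8017985b4) (nat_lit 536870912)]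
noncomputable def e24_20 : List Rx := [
  Rx.mk (nat_lit 36) (nat_lit 4) (nat_lit 4) (nat_lit 0) (nat_lit 0) (nat_lit 381) (nat_lit 191) r4_381 r11_191 (nat_lit 17952672) (nat_lit 15710614) (nat_lit 17913539) (nat_lit 0x5f1b5dba2) (nat_lit 1121002137),
  Rx.mk (nat_lit 37) (nat_lit 5) (nat_lit 4) (nat_lit 0) (nat_lit 1) (nat_lit 384) (nat_lit 199) r4_384 r11_199 (nat_lit 0) (nat_lit 27870751) (nat_lit 35726227) (nat_lit 0x779980b0c) (nat_lit 737097740),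
  Rx.mk (nat_lit 39) (nat_lit 7) (nat_lit 4) (nat_lit 0) (nat_lit 1) (nat_lit 387) (nat_lit 207) r4_387 r11_207 (nat_lit 0) (nat_lit 29502798) (nat_lit 27912229) (nat_lit 0x78d0f8fca) (nat_lit 711254839),
  Rx.mk (nat_lit 44) (nat_lit 4) (nat_lit 5) (nat_lit 0) (nat_lit 2) (nat_lit 382) (nat_lit 194) r4_382 r11_194 (nat_lit 27647826) (nat_lit 0) (nat_lit 34329630) (nat_lit 0x7e54987ea) (nat_lit 626865718),
  Rx.mk (nat_lit 45) (nat_lit 5) (nat_lit 5) (nat_lit 0) (nat_lit 3) (nat_lit 385) (nat_lit 202) r4_385 r11_202 (nat_lit 0) (nat_lit 0) (nat_lit 26112240) (nat_lit 0x7f458b346) (nat_lit 575951702),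
  Rx.mk (nat_lit 47) (nat_lit 7) (nat_lit 5) (nat_lit 0) (nat_lit 3) (nat_lit 388) (nat_lit 209) r4_388 r11_209 (nat_lit 0) (nat_lit 0) (nat_lit 24741287) (nat_lit 0x8017985b4) (nat_lit 561612199),
  Rx.mk (nat_lit 52) (nat_lit 4) (nat_lit 6) (nat_lit 0) (nat_lit 2) (nat_lit 383) (nat_lit 196) r4_383 r11_196 (nat_lit 28646946) (nat_lit 0) (nat_lit 30009416) (nat_lit 0x7b26b540c) (nat_lit 674773074),
  Rx.mk (nat_lit 53) (nat_lit 5) (nat_lit 6) (nat_lit 0) (nat_lit 3) (nat_lit 386) (nat_lit 204) r4_386 r11_204 (nat_lit 0) (nat_lit 0) (nat_lit 24741287) (nat_lit 0x8017985b4) (nat_lit 561612199),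
  Rx.mk (nat_lit 63) (nat_lit 7) (nat_lit 7) (nat_lit 0) (nat_lit 3) (nat_lit 389) (nat_lit 210) r4_389 r11_210 (nat_lit 0) (nat_lit 0) (nat_lit 24741287) (nat_lit 0x8017985b4) (nat_lit 561612199),
  Rx.mk (nat_lit 100) (nat_lit 4) (nat_lit 4) (nat_lit 1) (nat_lit 4) (nat_lit 390) (nat_lit 192) r4_390 r11_192 (nat_lit 96193341) (nat_lit 20049231) (nat_lit 0) (nat_lit 0x7b255b444) (nat_lit 732377384),
  Rx.mk (nat_lit 101) (nat_lit 5) (nat_lit 4) (nat_lit 1) (nat_lit 5) (nat_lit 392) (nat_lit 200) r4_392 r11_200 (nat_lit 0) (nat_lit 24741287) (nat_lit 0) (nat_lit 0x8017985b4) (nat_lit 561612199),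
  Rx.mk (nat_lit 103) (nat_lit 7) (nat_lit 4) (nat_lit 1) (nat_lit 5) (nat_lit 394) (nat_lit 208) r4_394 r11_208 (nat_lit 0) (nat_lit 23934074) (nat_lit 0) (nat_lit 0x7fe6d46d0) (nat_lit 563795286),
  Rx.mk (nat_lit 116) (nat_lit 4) (nat_lit 6) (nat_lit 1) (nat_lit 6) (nat_lit 391) (nat_lit 197) r4_391 r11_197 (nat_lit 30058585) (nat_lit 0) (nat_lit 0) (nat_lit 0x7fbf63a4c) (nat_lit 572343247),
  Rx.mk (nat_lit 117) (nat_lit 5) (nat_lit 6) (nat_lit 1) (nat_lit 7) (nat_lit 393) (nat_lit 205) r4_393 r11_205 (nat_lit 0) (nat_lit 0) (nat_lit 0) (nat_lit 0x8017985b4) (nat_lit 536870912),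
  Rx.mk (nat_lit 127) (nat_lit 7) (nat_lit 7) (nat_lit 1) (nat_lit 7) (nat_lit 395) (nat_lit 211) r4_395 r11_211 (nat_lit 0) (nat_lit 0) (nat_lit 0) (nat_lit 0x8017985b4) (nat_lit 536870912),
  Rx.mk (nat_lit 228) (nat_lit 4) (nat_lit 4) (nat_lit 3) (nat_lit 4) (nat_lit 396) (nat_lit 193) r4_396 r11_193 (nat_lit 30793545) (nat_lit 30793545) (nat_lit 0) (nat_lit 0x7da382596) (nat_lit 637575952),
  Rx.mk (nat_lit 229) (nat_lit 5) (nat_lit 4) (nat_lit 3) (nat_lit 5) (nat_lit 399) (nat_lit 201) r4_399 r11_201 (nat_lit 0) (nat_lit 24741287) (nat_lit 0) (nat_lit 0x8017985b4) (nat_lit 561612199),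
  Rx.mk (nat_lit 236) (nat_lit 4) (nat_lit 5) (nat_lit 3) (nat_lit 6) (nat_lit 397) (nat_lit 195) r4_397 r11_195 (nat_lit 24741287) (nat_lit 0) (nat_lit 0) (nat_lit 0x8017985b4) (nat_lit 561612199),
  Rx.mk (nat_lit 237) (nat_lit 5) (nat_lit 5) (nat_lit 3) (nat_lit 7) (nat_lit 400) (nat_lit 203) r4_400 r11_203 (nat_lit 0) (nat_lit 0) (nat_lit 0) (nat_lit 0x8017985b4) (nat_lit 536870912),
  Rx.mk (nat_lit 244) (nat_lit 4) (nat_lit 6) (nat_lit 3) (nat_lit 6) (nat_lit 398) (nat_lit 198) r4_398 r11_198 (nat_lit 24741287) (nat_lit 0) (nat_lit 0) (nat_lit 0x8017985b4) (nat_lit 561612199),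
  Rx.mk (nat_lit 245) (nat_lit 5) (nat_lit 6) (nat_lit 3) (nat_lit 7) (nat_lit 401) (nat_lit 206) r4_401 r11_206 (nat_lit 0) (nat_lit 0) (nat_lit 0) (nat_lit 0x8017985b4) (nat_lit 536870912)]
noncomputable def e24_21 : List Rx := [
  Rx.mk (nat_lit 342) (nat_lit 6) (nat_lit 2) (nat_lit 5) (nat_lit 7) (nat_lit 278) (nat_lit 135) r4_278 r9_135 (nat_lit 0) (nat_lit 0) (nat_lit 0) (nat_lit 0x8017985b4) (nat_lit 536870912),
  Rx.mk (nat_lit 372) (nat_lit 4) (nat_lit 6) (nat_lit 5) (nat_lit 6) (nat_lit 276) (nat_lit 133) r4_276 r9_133 (nat_lit 24741287) (nat_lit 0) (nat_lit 0) (nat_lit 0x80035e648) (nat_lit 562847599),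
  Rx.mk (nat_lit 374) (nat_lit 6) (nat_lit 6) (nat_lit 5) (nat_lit 7) (nat_lit 277) (nat_lit 134) r4_277 r9_134 (nat_lit 0) (nat_lit 0) (nat_lit 0) (nat_lit 0x8017985b4) (nat_lit 536870912)]
noncomputable def e24_22 : List Rx := [
  Rx.mk (nat_lit 128) (nat_lit 0) (nat_lit 0) (nat_lit 2) (nat_lit 4) (nat_lit 8) (nat_lit 52) r4_8 r0_52 (nat_lit 22112455) (nat_lit 6694296) (nat_lit 0) (nat_lit 0x63f406554) (nat_lit 1019765813),
  Rx.mk (nat_lit 130) (nat_lit 2) (nat_lit 0) (nat_lit 2) (nat_lit 5) (nat_lit 10) (nat_lit 55) r4_10 r0_55 (nat_lit 0) (nat_lit 12464414) (nat_lit 0) (nat_lit 0x7d1fc1338) (nat_lit 596680676),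
  Rx.mk (nat_lit 152) (nat_lit 0) (nat_lit 3) (nat_lit 2) (nat_lit 6) (nat_lit 9) (nat_lit 53) r4_9 r0_53 (nat_lit 74749020) (nat_lit 0) (nat_lit 0) (nat_lit 0x751698fde) (nat_lit 788742832),
  Rx.mk (nat_lit 154) (nat_lit 2) (nat_lit 3) (nat_lit 2) (nat_lit 7) (nat_lit 11) (nat_lit 56) r4_11 r0_56 (nat_lit 0) (nat_lit 0) (nat_lit 0) (nat_lit 0x8071443a6) (nat_lit 531356412),
  Rx.mk (nat_lit 155) (nat_lit 3) (nat_lit 3) (nat_lit 2) (nat_lit 7) (nat_lit 12) (nat_lit 54) r4_12 r0_54 (nat_lit 0) (nat_lit 0) (nat_lit 0) (nat_lit 0x76aa13858) (nat_lit 688374962),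
  Rx.mk (nat_lit 278) (nat_lit 6) (nat_lit 2) (nat_lit 4) (nat_lit 3) (nat_lit 1) (nat_lit 57) r4_1 r0_57 (nat_lit 0) (nat_lit 0) (nat_lit 13925368) (nat_lit 0x7d011df30) (nat_lit 600028230),
  Rx.mk (nat_lit 310) (nat_lit 6) (nat_lit 6) (nat_lit 4) (nat_lit 3) (nat_lit 0) (nat_lit 58) r4_0 r0_58 (nat_lit 0) (nat_lit 0) (nat_lit 5660977) (nat_lit 0x6025939b8) (nat_lit 1058125439),
  Rx.mk (nat_lit 386) (nat_lit 2) (nat_lit 0) (nat_lit 6) (nat_lit 5) (nat_lit 3) (nat_lit 62) r4_3 r0_62 (nat_lit 0) (nat_lit 11579015) (nat_lit 0) (nat_lit 0x7fd79e04e) (nat_lit 552249627),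
  Rx.mk (nat_lit 402) (nat_lit 2) (nat_lit 2) (nat_lit 6) (nat_lit 7) (nat_lit 4) (nat_lit 63) r4_4 r0_63 (nat_lit 0) (nat_lit 0) (nat_lit 0) (nat_lit 0x804ed3af6) (nat_lit 533452762),
  Rx.mk (nat_lit 406) (nat_lit 6) (nat_lit 2) (nat_lit 6) (nat_lit 7) (nat_lit 2) (nat_lit 64) r4_2 r0_64 (nat_lit 0) (nat_lit 0) (nat_lit 0) (nat_lit 0x80a6ddf44) (nat_lit 528084262),
  Rx.mk (nat_lit 500) (nat_lit 4) (nat_lit 6) (nat_lit 7) (nat_lit 6) (nat_lit 5) (nat_lit 59) r4_5 r0_59 (nat_lit 82674763) (nat_lit 0) (nat_lit 0) (nat_lit 0x7746f3588) (nat_lit 761260075),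
  Rx.mk (nat_lit 502) (nat_lit 6) (nat_lit 6) (nat_lit 7) (nat_lit 7) (nat_lit 6) (nat_lit 61) r4_6 r0_61 (nat_lit 0) (nat_lit 0) (nat_lit 0) (nat_lit 0x7f2c10cae) (nat_lit 551161962),
  Rx.mk (nat_lit 503) (nat_lit 7) (nat_lit 6) (nat_lit 7) (nat_lit 7) (nat_lit 7) (nat_lit 60) r4_7 r0_60 (nat_lit 0) (nat_lit 0) (nat_lit 0) (nat_lit 0x7f7512f6a) (nat_lit 546825312)]
noncomputable def e24_23 : List Rx := [
  Rx.mk (nat_lit 128) (nat_lit 0) (nat_lit 0) (nat_lit 2) (nat_lit 4) (nat_lit 16) (nat_lit 50) r4_16 r1_50 (nat_lit 67051359) (nat_lit 12415695) (nat_lit 0) (nat_lit 0x6dd5f0330) (nat_lit 910715916),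
  Rx.mk (nat_lit 130) (nat_lit 2) (nat_lit 0) (nat_lit 2) (nat_lit 5) (nat_lit 18) (nat_lit 53) r4_18 r1_53 (nat_lit 0) (nat_lit 18565138) (nat_lit 0) (nat_lit 0x7e088a2e0) (nat_lit 588194500),
  Rx.mk (nat_lit 152) (nat_lit 0) (nat_lit 3) (nat_lit 2) (nat_lit 6) (nat_lit 17) (nat_lit 51) r4_17 r1_51 (nat_lit 32103431) (nat_lit 0) (nat_lit 0) (nat_lit 0x7f4592056) (nat_lit 581897443),
  Rx.mk (nat_lit 154) (nat_lit 2) (nat_lit 3) (nat_lit 2) (nat_lit 7) (nat_lit 19) (nat_lit 54) r4_19 r1_54 (nat_lit 0) (nat_lit 0) (nat_lit 0) (nat_lit 0x8017985b4) (nat_lit 536870912),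
  Rx.mk (nat_lit 155) (nat_lit 3) (nat_lit 3) (nat_lit 2) (nat_lit 7) (nat_lit 20) (nat_lit 52) r4_20 r1_52 (nat_lit 0) (nat_lit 0) (nat_lit 0) (nat_lit 0x8256757bc) (nat_lit 501986312),
  Rx.mk (nat_lit 386) (nat_lit 2) (nat_lit 0) (nat_lit 6) (nat_lit 5) (nat_lit 14) (nat_lit 55) r4_14 r1_55 (nat_lit 0) (nat_lit 13824857) (nat_lit 0) (nat_lit 0x8053119f6) (nat_lit 546991619),
  Rx.mk (nat_lit 402) (nat_lit 2) (nat_lit 2) (nat_lit 6) (nat_lit 7) (nat_lit 15) (nat_lit 56) r4_15 r1_56 (nat_lit 0) (nat_lit 0) (nat_lit 0) (nat_lit 0x8078ceb44) (nat_lit 530903862),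
  Rx.mk (nat_lit 406) (nat_lit 6) (nat_lit 2) (nat_lit 6) (nat_lit 7) (nat_lit 13) (nat_lit 57) r4_13 r1_57 (nat_lit 0) (nat_lit 0) (nat_lit 0) (nat_lit 0x8007403f6) (nat_lit 537871262)]
noncomputable def e24_24 : List Rx := [
  Rx.mk (nat_lit 59) (nat_lit 3) (nat_lit 7) (nat_lit 0) (nat_lit 3) (nat_lit 49) (nat_lit 40) r4_49 r4_40 (nat_lit 0) (nat_lit 0) (nat_lit 47488) (nat_lit 0x7f4c14ed8) (nat_lit 548301250),
  Rx.mk (nat_lit 152) (nat_lit 0) (nat_lit 3) (nat_lit 2) (nat_lit 6) (nat_lit 50) (nat_lit 45) r4_50 r4_45 (nat_lit 46073) (nat_lit 0) (nat_lit 0) (nat_lit 0x7fd3d4b02) (nat_lit 539721735),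
  Rx.mk (nat_lit 154) (nat_lit 2) (nat_lit 3) (nat_lit 2) (nat_lit 7) (nat_lit 51) (nat_lit 48) r4_51 r4_48 (nat_lit 0) (nat_lit 0) (nat_lit 0) (nat_lit 0x843b695d4) (nat_lit 473034362),
  Rx.mk (nat_lit 155) (nat_lit 3) (nat_lit 3) (nat_lit 2) (nat_lit 7) (nat_lit 53) (nat_lit 46) r4_53 r4_46 (nat_lit 0) (nat_lit 0) (nat_lit 0) (nat_lit 0x7ecfb6c88) (nat_lit 556095412),
  Rx.mk (nat_lit 187) (nat_lit 3) (nat_lit 7) (nat_lit 2) (nat_lit 7) (nat_lit 52) (nat_lit 47) r4_52 r4_47 (nat_lit 0) (nat_lit 0) (nat_lit 0) (nat_lit 0x8245b8b4a) (nat_lit 503024812),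
  Rx.mk (nat_lit 231) (nat_lit 7) (nat_lit 4) (nat_lit 3) (nat_lit 5) (nat_lit 54) (nat_lit 42) r4_54 r4_42 (nat_lit 0) (nat_lit 21693) (nat_lit 0) (nat_lit 0x7f520135a) (nat_lit 547891305),
  Rx.mk (nat_lit 247) (nat_lit 7) (nat_lit 6) (nat_lit 3) (nat_lit 7) (nat_lit 55) (nat_lit 44) r4_55 r4_44 (nat_lit 0) (nat_lit 0) (nat_lit 0) (nat_lit 0x81a8d71a0) (nat_lit 512426612),
  Rx.mk (nat_lit 251) (nat_lit 3) (nat_lit 7) (nat_lit 3) (nat_lit 7) (nat_lit 57) (nat_lit 41) r4_57 r4_41 (nat_lit 0) (nat_lit 0) (nat_lit 0) (nat_lit 0x833e66080) (nat_lit 488151412),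
  Rx.mk (nat_lit 255) (nat_lit 7) (nat_lit 7) (nat_lit 3) (nat_lit 7) (nat_lit 56) (nat_lit 43) r4_56 r4_43 (nat_lit 0) (nat_lit 0) (nat_lit 0) (nat_lit 0x823ed6796) (nat_lit 503474812),
  Rx.mk (nat_lit 278) (nat_lit 6) (nat_lit 2) (nat_lit 4) (nat_lit 3) (nat_lit 40) (nat_lit 49) r4_40 r4_49 (nat_lit 0) (nat_lit 0) (nat_lit 47488) (nat_lit 0x7f4c14ed8) (nat_lit 548301250),
  Rx.mk (nat_lit 386) (nat_lit 2) (nat_lit 0) (nat_lit 6) (nat_lit 5) (nat_lit 42) (nat_lit 54) r4_42 r4_54 (nat_lit 0) (nat_lit 21693) (nat_lit 0) (nat_lit 0x7f520135a) (nat_lit 547891305),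
  Rx.mk (nat_lit 402) (nat_lit 2) (nat_lit 2) (nat_lit 6) (nat_lit 7) (nat_lit 43) (nat_lit 56) r4_43 r4_56 (nat_lit 0) (nat_lit 0) (nat_lit 0) (nat_lit 0x823ed6796) (nat_lit 503474812),
  Rx.mk (nat_lit 406) (nat_lit 6) (nat_lit 2) (nat_lit 6) (nat_lit 7) (nat_lit 41) (nat_lit 57) r4_41 r4_57 (nat_lit 0) (nat_lit 0) (nat_lit 0) (nat_lit 0x833e66080) (nat_lit 488151412),
  Rx.mk (nat_lit 410) (nat_lit 2) (nat_lit 3) (nat_lit 6) (nat_lit 7) (nat_lit 44) (nat_lit 55) r4_44 r4_55 (nat_lit 0) (nat_lit 0) (nat_lit 0) (nat_lit 0x81a8d71a0) (nat_lit 512426612),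
  Rx.mk (nat_lit 470) (nat_lit 6) (nat_lit 2) (nat_lit 7) (nat_lit 7) (nat_lit 47) (nat_lit 52) r4_47 r4_52 (nat_lit 0) (nat_lit 0) (nat_lit 0) (nat_lit 0x8245b8b4a) (nat_lit 503024812),
  Rx.mk (nat_lit 500) (nat_lit 4) (nat_lit 6) (nat_lit 7) (nat_lit 6) (nat_lit 45) (nat_lit 50) r4_45 r4_50 (nat_lit 46073) (nat_lit 0) (nat_lit 0) (nat_lit 0x7fd3d4b02) (nat_lit 539721735),
  Rx.mk (nat_lit 502) (nat_lit 6) (nat_lit 6) (nat_lit 7) (nat_lit 7) (nat_lit 46) (nat_lit 53) r4_46 r4_53 (nat_lit 0) (nat_lit 0) (nat_lit 0) (nat_lit 0x7ecfb6c88) (nat_lit 556095412),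
  Rx.mk (nat_lit 503) (nat_lit 7) (nat_lit 6) (nat_lit 7) (nat_lit 7) (nat_lit 48) (nat_lit 51) r4_48 r4_51 (nat_lit 0) (nat_lit 0) (nat_lit 0) (nat_lit 0x843b695d4) (nat_lit 473034362)]
noncomputable def e24_25 : List Rx := [
  Rx.mk (nat_lit 278) (nat_lit 6) (nat_lit 2) (nat_lit 4) (nat_lit 3) (nat_lit 100) (nat_lit 181) r4_100 r7_181 (nat_lit 0) (nat_lit 0) (nat_lit 17421724) (nat_lit 0x804c6a3e6) (nat_lit 551019636),
  Rx.mk (nat_lit 308) (nat_lit 4) (nat_lit 6) (nat_lit 4) (nat_lit 2) (nat_lit 98) (nat_lit 175) r4_98 r7_175 (nat_lit 21615915) (nat_lit 0) (nat_lit 11303237) (nat_lit 0x68ed8d4d4) (nat_lit 943524414),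
  Rx.mk (nat_lit 310) (nat_lit 6) (nat_lit 6) (nat_lit 4) (nat_lit 3) (nat_lit 99) (nat_lit 178) r4_99 r7_178 (nat_lit 0) (nat_lit 0) (nat_lit 10576130) (nat_lit 0x7fd267c38) (nat_lit 551565342),
  Rx.mk (nat_lit 386) (nat_lit 2) (nat_lit 0) (nat_lit 6) (nat_lit 5) (nat_lit 102) (nat_lit 180) r4_102 r7_180 (nat_lit 0) (nat_lit 15103995) (nat_lit 0) (nat_lit 0x808086120) (nat_lit 545531857),
  Rx.mk (nat_lit 402) (nat_lit 2) (nat_lit 2) (nat_lit 6) (nat_lit 7) (nat_lit 103) (nat_lit 183) r4_103 r7_183 (nat_lit 0) (nat_lit 0) (nat_lit 0) (nat_lit 0x8017985b4) (nat_lit 536870912),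
  Rx.mk (nat_lit 406) (nat_lit 6) (nat_lit 2) (nat_lit 6) (nat_lit 7) (nat_lit 101) (nat_lit 182) r4_101 r7_182 (nat_lit 0) (nat_lit 0) (nat_lit 0) (nat_lit 0x8017985b4) (nat_lit 536870912),
  Rx.mk (nat_lit 500) (nat_lit 4) (nat_lit 6) (nat_lit 7) (nat_lit 6) (nat_lit 104) (nat_lit 176) r4_104 r7_176 (nat_lit 32199586) (nat_lit 0) (nat_lit 0) (nat_lit 0x7deebd290) (nat_lit 603434298),
  Rx.mk (nat_lit 502) (nat_lit 6) (nat_lit 6) (nat_lit 7) (nat_lit 7) (nat_lit 105) (nat_lit 179) r4_105 r7_179 (nat_lit 0) (nat_lit 0) (nat_lit 0) (nat_lit 0x80d93c616) (nat_lit 525035062),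
  Rx.mk (nat_lit 503) (nat_lit 7) (nat_lit 6) (nat_lit 7) (nat_lit 7) (nat_lit 106) (nat_lit 177) r4_106 r7_177 (nat_lit 0) (nat_lit 0) (nat_lit 0) (nat_lit 0x8017985b4) (nat_lit 536870912)]
noncomputable def e24_26 : List Rx := [
  Rx.mk (nat_lit 386) (nat_lit 2) (nat_lit 0) (nat_lit 6) (nat_lit 5) (nat_lit 126) (nat_lit 146) r4_126 r8_146 (nat_lit 0) (nat_lit 22851491) (nat_lit 0) (nat_lit 0x7fa9b2676) (nat_lit 566471853),
  Rx.mk (nat_lit 402) (nat_lit 2) (nat_lit 2) (nat_lit 6) (nat_lit 7) (nat_lit 127) (nat_lit 148) r4_127 r8_148 (nat_lit 0) (nat_lit 0) (nat_lit 0) (nat_lit 0x8017985b4) (nat_lit 536870912),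
  Rx.mk (nat_lit 406) (nat_lit 6) (nat_lit 2) (nat_lit 6) (nat_lit 7) (nat_lit 125) (nat_lit 147) r4_125 r8_147 (nat_lit 0) (nat_lit 0) (nat_lit 0) (nat_lit 0x8017985b4) (nat_lit 536870912)]
noncomputable def e24_27 : List Rx := [
  Rx.mk (nat_lit 278) (nat_lit 6) (nat_lit 2) (nat_lit 4) (nat_lit 3) (nat_lit 116) (nat_lit 48) r4_116 r8_48 (nat_lit 0) (nat_lit 0) (nat_lit 19539304) (nat_lit 0x7feeea77a) (nat_lit 558873116),
  Rx.mk (nat_lit 308) (nat_lit 4) (nat_lit 6) (nat_lit 4) (nat_lit 2) (nat_lit 114) (nat_lit 47) r4_114 r8_47 (nat_lit 35927384) (nat_lit 0) (nat_lit 25528723) (nat_lit 0x6c2494650) (nat_lit 920149869),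
  Rx.mk (nat_lit 310) (nat_lit 6) (nat_lit 6) (nat_lit 4) (nat_lit 3) (nat_lit 115) (nat_lit 49) r4_115 r8_49 (nat_lit 0) (nat_lit 0) (nat_lit 15426170) (nat_lit 0x7fa00e8ea) (nat_lit 559577782),
  Rx.mk (nat_lit 342) (nat_lit 6) (nat_lit 2) (nat_lit 5) (nat_lit 7) (nat_lit 119) (nat_lit 51) r4_119 r8_51 (nat_lit 0) (nat_lit 0) (nat_lit 0) (nat_lit 0x8017985b4) (nat_lit 536870912),
  Rx.mk (nat_lit 372) (nat_lit 4) (nat_lit 6) (nat_lit 5) (nat_lit 6) (nat_lit 117) (nat_lit 50) r4_117 r8_50 (nat_lit 24741287) (nat_lit 0) (nat_lit 0) (nat_lit 0x8005f42d6) (nat_lit 562689149),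
  Rx.mk (nat_lit 374) (nat_lit 6) (nat_lit 6) (nat_lit 5) (nat_lit 7) (nat_lit 118) (nat_lit 52) r4_118 r8_52 (nat_lit 0) (nat_lit 0) (nat_lit 0) (nat_lit 0x8050765fc) (nat_lit 533378512),
  Rx.mk (nat_lit 402) (nat_lit 2) (nat_lit 2) (nat_lit 6) (nat_lit 7) (nat_lit 121) (nat_lit 56) r4_121 r8_56 (nat_lit 0) (nat_lit 0) (nat_lit 0) (nat_lit 0x8017985b4) (nat_lit 536870912),
  Rx.mk (nat_lit 406) (nat_lit 6) (nat_lit 2) (nat_lit 6) (nat_lit 7) (nat_lit 120) (nat_lit 57) r4_120 r8_57 (nat_lit 0) (nat_lit 0) (nat_lit 0) (nat_lit 0x8017985b4) (nat_lit 536870912),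
  Rx.mk (nat_lit 500) (nat_lit 4) (nat_lit 6) (nat_lit 7) (nat_lit 6) (nat_lit 122) (nat_lit 53) r4_122 r8_53 (nat_lit 24741287) (nat_lit 0) (nat_lit 0) (nat_lit 0x8017985b4) (nat_lit 561612199),
  Rx.mk (nat_lit 502) (nat_lit 6) (nat_lit 6) (nat_lit 7) (nat_lit 7) (nat_lit 123) (nat_lit 55) r4_123 r8_55 (nat_lit 0) (nat_lit 0) (nat_lit 0) (nat_lit 0x80507696c) (nat_lit 533378462),
  Rx.mk (nat_lit 503) (nat_lit 7) (nat_lit 6) (nat_lit 7) (nat_lit 7) (nat_lit 124) (nat_lit 54) r4_124 r8_54 (nat_lit 0) (nat_lit 0) (nat_lit 0) (nat_lit 0x8017985b4) (nat_lit 536870912)]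
noncomputable def e24_28 : List Rx := [
  Rx.mk (nat_lit 278) (nat_lit 6) (nat_lit 2) (nat_lit 4) (nat_lit 3) (nat_lit 134) (nat_lit 132) r4_134 r10_132 (nat_lit 0) (nat_lit 0) (nat_lit 19244630) (nat_lit 0x801080380) (nat_lit 556512792),
  Rx.mk (nat_lit 386) (nat_lit 2) (nat_lit 0) (nat_lit 6) (nat_lit 5) (nat_lit 136) (nat_lit 130) r4_136 r10_130 (nat_lit 0) (nat_lit 12224820) (nat_lit 0) (nat_lit 0x806946df2) (nat_lit 544040032),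
  Rx.mk (nat_lit 402) (nat_lit 2) (nat_lit 2) (nat_lit 6) (nat_lit 7) (nat_lit 137) (nat_lit 135) r4_137 r10_135 (nat_lit 0) (nat_lit 0) (nat_lit 0) (nat_lit 0x8017985b4) (nat_lit 536870912),
  Rx.mk (nat_lit 406) (nat_lit 6) (nat_lit 2) (nat_lit 6) (nat_lit 7) (nat_lit 135) (nat_lit 134) r4_135 r10_134 (nat_lit 0) (nat_lit 0) (nat_lit 0) (nat_lit 0x8017985b4) (nat_lit 536870912),
  Rx.mk (nat_lit 410) (nat_lit 2) (nat_lit 3) (nat_lit 6) (nat_lit 7) (nat_lit 138) (nat_lit 131) r4_138 r10_131 (nat_lit 0) (nat_lit 0) (nat_lit 0) (nat_lit 0x804468c56) (nat_lit 534115312),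
  Rx.mk (nat_lit 470) (nat_lit 6) (nat_lit 2) (nat_lit 7) (nat_lit 7) (nat_lit 141) (nat_lit 133) r4_141 r10_133 (nat_lit 0) (nat_lit 0) (nat_lit 0) (nat_lit 0x8017985b4) (nat_lit 536870912),
  Rx.mk (nat_lit 500) (nat_lit 4) (nat_lit 6) (nat_lit 7) (nat_lit 6) (nat_lit 139) (nat_lit 127) r4_139 r10_127 (nat_lit 24676068) (nat_lit 0) (nat_lit 0) (nat_lit 0x7e8afe690) (nat_lit 586102830),
  Rx.mk (nat_lit 502) (nat_lit 6) (nat_lit 6) (nat_lit 7) (nat_lit 7) (nat_lit 140) (nat_lit 129) r4_140 r10_129 (nat_lit 0) (nat_lit 0) (nat_lit 0) (nat_lit 0x809f243f2) (nat_lit 528567662),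
  Rx.mk (nat_lit 503) (nat_lit 7) (nat_lit 6) (nat_lit 7) (nat_lit 7) (nat_lit 142) (nat_lit 128) r4_142 r10_128 (nat_lit 0) (nat_lit 0) (nat_lit 0) (nat_lit 0x8017985b4) (nat_lit 536870912)]
noncomputable def e24_29 : List Rx := [
  Rx.mk (nat_lit 59) (nat_lit 3) (nat_lit 7) (nat_lit 0) (nat_lit 3) (nat_lit 209) (nat_lit 129) r4_209 r11_129 (nat_lit 0) (nat_lit 0) (nat_lit 13063204) (nat_lit 0x7f229ebd0) (nat_lit 564962416),
  Rx.mk (nat_lit 63) (nat_lit 7) (nat_lit 7) (nat_lit 0) (nat_lit 3) (nat_lit 208) (nat_lit 127) r4_208 r11_127 (nat_lit 0) (nat_lit 0) (nat_lit 12952000) (nat_lit 0x80562ac28) (nat_lit 545915612),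
  Rx.mk (nat_lit 155) (nat_lit 3) (nat_lit 3) (nat_lit 2) (nat_lit 7) (nat_lit 211) (nat_lit 135) r4_211 r11_135 (nat_lit 0) (nat_lit 0) (nat_lit 0) (nat_lit 0x80f168d7a) (nat_lit 523350662),
  Rx.mk (nat_lit 187) (nat_lit 3) (nat_lit 7) (nat_lit 2) (nat_lit 7) (nat_lit 210) (nat_lit 130) r4_210 r11_130 (nat_lit 0) (nat_lit 0) (nat_lit 0) (nat_lit 0x81dd34f24) (nat_lit 509302462),
  Rx.mk (nat_lit 228) (nat_lit 4) (nat_lit 4) (nat_lit 3) (nat_lit 4) (nat_lit 212) (nat_lit 125) r4_212 r11_125 (nat_lit 616962) (nat_lit 514055) (nat_lit 0) (nat_lit 0x69c2df4b6) (nat_lit 897748479),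
  Rx.mk (nat_lit 231) (nat_lit 7) (nat_lit 4) (nat_lit 3) (nat_lit 5) (nat_lit 214) (nat_lit 126) r4_214 r11_126 (nat_lit 0) (nat_lit 10106242) (nat_lit 0) (nat_lit 0x8153a01f0) (nat_lit 527714454),
  Rx.mk (nat_lit 244) (nat_lit 4) (nat_lit 6) (nat_lit 3) (nat_lit 6) (nat_lit 213) (nat_lit 132) r4_213 r11_132 (nat_lit 13764592) (nat_lit 0) (nat_lit 0) (nat_lit 0x8088c91ca) (nat_lit 543663854),
  Rx.mk (nat_lit 247) (nat_lit 7) (nat_lit 6) (nat_lit 3) (nat_lit 7) (nat_lit 215) (nat_lit 133) r4_215 r11_133 (nat_lit 0) (nat_lit 0) (nat_lit 0) (nat_lit 0x807403de4) (nat_lit 531198062),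
  Rx.mk (nat_lit 255) (nat_lit 7) (nat_lit 7) (nat_lit 3) (nat_lit 7) (nat_lit 216) (nat_lit 128) r4_216 r11_128 (nat_lit 0) (nat_lit 0) (nat_lit 0) (nat_lit 0x80812fcde) (nat_lit 530394062),
  Rx.mk (nat_lit 470) (nat_lit 6) (nat_lit 2) (nat_lit 7) (nat_lit 7) (nat_lit 207) (nat_lit 136) r4_207 r11_136 (nat_lit 0) (nat_lit 0) (nat_lit 0) (nat_lit 0x825f8dcd2) (nat_lit 501520162),
  Rx.mk (nat_lit 500) (nat_lit 4) (nat_lit 6) (nat_lit 7) (nat_lit 6) (nat_lit 205) (nat_lit 131) r4_205 r11_131 (nat_lit 31334360) (nat_lit 0) (nat_lit 0) (nat_lit 0x7f54de2a8) (nat_lit 580083322),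
  Rx.mk (nat_lit 502) (nat_lit 6) (nat_lit 6) (nat_lit 7) (nat_lit 7) (nat_lit 206) (nat_lit 134) r4_206 r11_134 (nat_lit 0) (nat_lit 0) (nat_lit 0) (nat_lit 0x81e84d53c) (nat_lit 508548712)]
noncomputable def e24_30 : List Rx := [
  Rx.mk (nat_lit 39) (nat_lit 7) (nat_lit 4) (nat_lit 0) (nat_lit 1) (nat_lit 343) (nat_lit 297) r4_343 r5_297 (nat_lit 0) (nat_lit 4914536) (nat_lit 8412019) (nat_lit 0x7692903ac) (nat_lit 703204217),
  Rx.mk (nat_lit 47) (nat_lit 7) (nat_lit 5) (nat_lit 0) (nat_lit 3) (nat_lit 344) (nat_lit 298) r4_344 r5_298 (nat_lit 0) (nat_lit 0) (nat_lit 16948508) (nat_lit 0x809c7b0d8) (nat_lit 545627870),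
  Rx.mk (nat_lit 55) (nat_lit 7) (nat_lit 6) (nat_lit 0) (nat_lit 3) (nat_lit 345) (nat_lit 299) r4_345 r5_299 (nat_lit 0) (nat_lit 0) (nat_lit 16388111) (nat_lit 0x805f52918) (nat_lit 548834573),
  Rx.mk (nat_lit 103) (nat_lit 7) (nat_lit 4) (nat_lit 1) (nat_lit 5) (nat_lit 346) (nat_lit 300) r4_346 r5_300 (nat_lit 0) (nat_lit 2837782) (nat_lit 0) (nat_lit 0x88d4b3178) (nat_lit 405532494),
  Rx.mk (nat_lit 111) (nat_lit 7) (nat_lit 5) (nat_lit 1) (nat_lit 7) (nat_lit 347) (nat_lit 301) r4_347 r5_301 (nat_lit 0) (nat_lit 0) (nat_lit 0) (nat_lit 0x8942acc88) (nat_lit 396280012),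
  Rx.mk (nat_lit 119) (nat_lit 7) (nat_lit 6) (nat_lit 1) (nat_lit 7) (nat_lit 348) (nat_lit 302) r4_348 r5_302 (nat_lit 0) (nat_lit 0) (nat_lit 0) (nat_lit 0x816422d98) (nat_lit 516613662)]
noncomputable def e24_31 : List Rx := [
  Rx.mk (nat_lit 103) (nat_lit 7) (nat_lit 4) (nat_lit 1) (nat_lit 5) (nat_lit 363) (nat_lit 353) r4_363 r11_353 (nat_lit 0) (nat_lit 18792813) (nat_lit 0) (nat_lit 0x7fd5d2af8) (nat_lit 559647725),
  Rx.mk (nat_lit 111) (nat_lit 7) (nat_lit 5) (nat_lit 1) (nat_lit 7) (nat_lit 364) (nat_lit 354) r4_364 r11_354 (nat_lit 0) (nat_lit 0) (nat_lit 0) (nat_lit 0x8047a5cb6) (nat_lit 533919512),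
  Rx.mk (nat_lit 119) (nat_lit 7) (nat_lit 6) (nat_lit 1) (nat_lit 7) (nat_lit 365) (nat_lit 355) r4_365 r11_355 (nat_lit 0) (nat_lit 0) (nat_lit 0) (nat_lit 0x8026a1380) (nat_lit 535916512)]
noncomputable def e24_32 : List Rx := [
  Rx.mk (nat_lit 35) (nat_lit 3) (nat_lit 4) (nat_lit 0) (nat_lit 1) (nat_lit 78) (nat_lit 62) r4_78 r6_62 (nat_lit 0) (nat_lit 2670845) (nat_lit 3814909) (nat_lit 0x6861eb944) (nat_lit 925706566),
  Rx.mk (nat_lit 43) (nat_lit 3) (nat_lit 5) (nat_lit 0) (nat_lit 3) (nat_lit 79) (nat_lit 63) r4_79 r6_63 (nat_lit 0) (nat_lit 0) (nat_lit 9313182) (nat_lit 0x8051e9268) (nat_lit 542445944),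
  Rx.mk (nat_lit 59) (nat_lit 3) (nat_lit 7) (nat_lit 0) (nat_lit 3) (nat_lit 80) (nat_lit 64) r4_80 r6_64 (nat_lit 0) (nat_lit 0) (nat_lit 10422876) (nat_lit 0x7e366a3fe) (nat_lit 577077388),
  Rx.mk (nat_lit 163) (nat_lit 3) (nat_lit 4) (nat_lit 2) (nat_lit 5) (nat_lit 81) (nat_lit 67) r4_81 r6_67 (nat_lit 0) (nat_lit 136651) (nat_lit 0) (nat_lit 0x6297d7fc2) (nat_lit 1012582363),
  Rx.mk (nat_lit 171) (nat_lit 3) (nat_lit 5) (nat_lit 2) (nat_lit 7) (nat_lit 82) (nat_lit 68) r4_82 r6_68 (nat_lit 0) (nat_lit 0) (nat_lit 0) (nat_lit 0x80f6273ca) (nat_lit 522994062),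
  Rx.mk (nat_lit 187) (nat_lit 3) (nat_lit 7) (nat_lit 2) (nat_lit 7) (nat_lit 83) (nat_lit 69) r4_83 r6_69 (nat_lit 0) (nat_lit 0) (nat_lit 0) (nat_lit 0x80d433d36) (nat_lit 525049262),
  Rx.mk (nat_lit 227) (nat_lit 3) (nat_lit 4) (nat_lit 3) (nat_lit 5) (nat_lit 87) (nat_lit 65) r4_87 r6_65 (nat_lit 0) (nat_lit 9821827) (nat_lit 0) (nat_lit 0x7fc4fda48) (nat_lit 551627389),
  Rx.mk (nat_lit 231) (nat_lit 7) (nat_lit 4) (nat_lit 3) (nat_lit 5) (nat_lit 84) (nat_lit 59) r4_84 r6_59 (nat_lit 0) (nat_lit 5828454) (nat_lit 0) (nat_lit 0x7fc27fd8e) (nat_lit 547632616),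
  Rx.mk (nat_lit 235) (nat_lit 3) (nat_lit 5) (nat_lit 3) (nat_lit 7) (nat_lit 88) (nat_lit 66) r4_88 r6_66 (nat_lit 0) (nat_lit 0) (nat_lit 0) (nat_lit 0x8046420c2) (nat_lit 534001662),
  Rx.mk (nat_lit 239) (nat_lit 7) (nat_lit 5) (nat_lit 3) (nat_lit 7) (nat_lit 85) (nat_lit 60) r4_85 r6_60 (nat_lit 0) (nat_lit 0) (nat_lit 0) (nat_lit 0x80fddf1bc) (nat_lit 522806362),
  Rx.mk (nat_lit 247) (nat_lit 7) (nat_lit 6) (nat_lit 3) (nat_lit 7) (nat_lit 86) (nat_lit 61) r4_86 r6_61 (nat_lit 0) (nat_lit 0) (nat_lit 0) (nat_lit 0x80efb1ee6) (nat_lit 523668462)]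
noncomputable def e24_33 : List Rx := [
  Rx.mk (nat_lit 59) (nat_lit 3) (nat_lit 7) (nat_lit 0) (nat_lit 3) (nat_lit 59) (nat_lit 27) r4_59 r5_27 (nat_lit 0) (nat_lit 0) (nat_lit 6174630) (nat_lit 0x7de1761fe) (nat_lit 578007592),
  Rx.mk (nat_lit 187) (nat_lit 3) (nat_lit 7) (nat_lit 2) (nat_lit 7) (nat_lit 60) (nat_lit 32) r4_60 r5_32 (nat_lit 0) (nat_lit 0) (nat_lit 0) (nat_lit 0x80483a47e) (nat_lit 532926012),
  Rx.mk (nat_lit 227) (nat_lit 3) (nat_lit 4) (nat_lit 3) (nat_lit 5) (nat_lit 63) (nat_lit 28) r4_63 r5_28 (nat_lit 0) (nat_lit 8135991) (nat_lit 0) (nat_lit 0x79057fe38) (nat_lit 658530703),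
  Rx.mk (nat_lit 231) (nat_lit 7) (nat_lit 4) (nat_lit 3) (nat_lit 5) (nat_lit 61) (nat_lit 30) r4_61 r5_30 (nat_lit 0) (nat_lit 2696286) (nat_lit 0) (nat_lit 0x7ed2b6d5c) (nat_lit 559201548),
  Rx.mk (nat_lit 247) (nat_lit 7) (nat_lit 6) (nat_lit 3) (nat_lit 7) (nat_lit 62) (nat_lit 31) r4_62 r5_31 (nat_lit 0) (nat_lit 0) (nat_lit 0) (nat_lit 0x80e735e2a) (nat_lit 524112462),
  Rx.mk (nat_lit 251) (nat_lit 3) (nat_lit 7) (nat_lit 3) (nat_lit 7) (nat_lit 64) (nat_lit 29) r4_64 r5_29 (nat_lit 0) (nat_lit 0) (nat_lit 0) (nat_lit 0x80009fe20) (nat_lit 538237112),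
  Rx.mk (nat_lit 503) (nat_lit 7) (nat_lit 6) (nat_lit 7) (nat_lit 7) (nat_lit 58) (nat_lit 33) r4_58 r5_33 (nat_lit 0) (nat_lit 0) (nat_lit 0) (nat_lit 0x7f5b0655e) (nat_lit 548352312)]
noncomputable def e24_34 : List Rx := [
  Rx.mk (nat_lit 503) (nat_lit 7) (nat_lit 6) (nat_lit 7) (nat_lit 7) (nat_lit 143) (nat_lit 8) r4_143 r11_8 (nat_lit 0) (nat_lit 0) (nat_lit 0) (nat_lit 0x7ff232496) (nat_lit 539166062)]
noncomputable def e24_35 : List Rx := [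
  Rx.mk (nat_lit 35) (nat_lit 3) (nat_lit 4) (nat_lit 0) (nat_lit 1) (nat_lit 220) (nat_lit 337) r4_220 r6_337 (nat_lit 0) (nat_lit 3315579) (nat_lit 4357312) (nat_lit 0x66141debc) (nat_lit 964156353),
  Rx.mk (nat_lit 39) (nat_lit 7) (nat_lit 4) (nat_lit 0) (nat_lit 1) (nat_lit 217) (nat_lit 338) r4_217 r6_338 (nat_lit 0) (nat_lit 129197) (nat_lit 164206) (nat_lit 0x795e5323a) (nat_lit 644442165),
  Rx.mk (nat_lit 43) (nat_lit 3) (nat_lit 5) (nat_lit 0) (nat_lit 3) (nat_lit 221) (nat_lit 340) r4_221 r6_340 (nat_lit 0) (nat_lit 0) (nat_lit 9659627) (nat_lit 0x7fc83bdd6) (nat_lit 551234539),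
  Rx.mk (nat_lit 47) (nat_lit 7) (nat_lit 5) (nat_lit 0) (nat_lit 3) (nat_lit 218) (nat_lit 341) r4_218 r6_341 (nat_lit 0) (nat_lit 0) (nat_lit 12015582) (nat_lit 0x8043b9b16) (nat_lit 546056094),
  Rx.mk (nat_lit 55) (nat_lit 7) (nat_lit 6) (nat_lit 0) (nat_lit 3) (nat_lit 219) (nat_lit 343) r4_219 r6_343 (nat_lit 0) (nat_lit 0) (nat_lit 14660822) (nat_lit 0x80a2e9ac8) (nat_lit 542985584),
  Rx.mk (nat_lit 163) (nat_lit 3) (nat_lit 4) (nat_lit 2) (nat_lit 5) (nat_lit 222) (nat_lit 339) r4_222 r6_339 (nat_lit 0) (nat_lit 79150) (nat_lit 0) (nat_lit 0x53f546c4e) (nat_lit 1249167362),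
  Rx.mk (nat_lit 171) (nat_lit 3) (nat_lit 5) (nat_lit 2) (nat_lit 7) (nat_lit 223) (nat_lit 342) r4_223 r6_342 (nat_lit 0) (nat_lit 0) (nat_lit 0) (nat_lit 0x801c163de) (nat_lit 536140862)]
noncomputable def e24_36 : List Rx := [
  Rx.mk (nat_lit 35) (nat_lit 3) (nat_lit 4) (nat_lit 0) (nat_lit 1) (nat_lit 244) (nat_lit 179) r4_244 r12_179 (nat_lit 0) (nat_lit 1714766) (nat_lit 2631942) (nat_lit 0x6423137c0) (nat_lit 992114620),
  Rx.mk (nat_lit 39) (nat_lit 7) (nat_lit 4) (nat_lit 0) (nat_lit 1) (nat_lit 241) (nat_lit 185) r4_241 r12_185 (nat_lit 0) (nat_lit 41553) (nat_lit 58690) (nat_lit 0x7b312194a) (nat_lit 614735255),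
  Rx.mk (nat_lit 43) (nat_lit 3) (nat_lit 5) (nat_lit 0) (nat_lit 3) (nat_lit 245) (nat_lit 181) r4_245 r12_181 (nat_lit 0) (nat_lit 0) (nat_lit 9667445) (nat_lit 0x7e44f4f8c) (nat_lit 575356507),
  Rx.mk (nat_lit 47) (nat_lit 7) (nat_lit 5) (nat_lit 0) (nat_lit 3) (nat_lit 242) (nat_lit 187) r4_242 r12_187 (nat_lit 0) (nat_lit 0) (nat_lit 8369781) (nat_lit 0x7f5bb069e) (nat_lit 556643943),
  Rx.mk (nat_lit 55) (nat_lit 7) (nat_lit 6) (nat_lit 0) (nat_lit 3) (nat_lit 243) (nat_lit 189) r4_243 r12_189 (nat_lit 0) (nat_lit 0) (nat_lit 12827212) (nat_lit 0x80d8b15d4) (nat_lit 537881374),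
  Rx.mk (nat_lit 59) (nat_lit 3) (nat_lit 7) (nat_lit 0) (nat_lit 3) (nat_lit 246) (nat_lit 183) r4_246 r12_183 (nat_lit 0) (nat_lit 0) (nat_lit 10567436) (nat_lit 0x755c3f9fc) (nat_lit 720133798),
  Rx.mk (nat_lit 163) (nat_lit 3) (nat_lit 4) (nat_lit 2) (nat_lit 5) (nat_lit 247) (nat_lit 180) r4_247 r12_180 (nat_lit 0) (nat_lit 99316) (nat_lit 0) (nat_lit 0x5a569f38c) (nat_lit 1146020178),
  Rx.mk (nat_lit 171) (nat_lit 3) (nat_lit 5) (nat_lit 2) (nat_lit 7) (nat_lit 248) (nat_lit 182) r4_248 r12_182 (nat_lit 0) (nat_lit 0) (nat_lit 0) (nat_lit 0x7feb6c558) (nat_lit 539045512),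
  Rx.mk (nat_lit 187) (nat_lit 3) (nat_lit 7) (nat_lit 2) (nat_lit 7) (nat_lit 249) (nat_lit 184) r4_249 r12_184 (nat_lit 0) (nat_lit 0) (nat_lit 0) (nat_lit 0x7f2695054) (nat_lit 551109212),
  Rx.mk (nat_lit 231) (nat_lit 7) (nat_lit 4) (nat_lit 3) (nat_lit 5) (nat_lit 250) (nat_lit 186) r4_250 r12_186 (nat_lit 0) (nat_lit 4688491) (nat_lit 0) (nat_lit 0x7f006038e) (nat_lit 558460953),
  Rx.mk (nat_lit 239) (nat_lit 7) (nat_lit 5) (nat_lit 3) (nat_lit 7) (nat_lit 251) (nat_lit 188) r4_251 r12_188 (nat_lit 0) (nat_lit 0) (nat_lit 0) (nat_lit 0x80a484a0e) (nat_lit 528215812),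
  Rx.mk (nat_lit 247) (nat_lit 7) (nat_lit 6) (nat_lit 3) (nat_lit 7) (nat_lit 252) (nat_lit 190) r4_252 r12_190 (nat_lit 0) (nat_lit 0) (nat_lit 0) (nat_lit 0x80c5a12f0) (nat_lit 526217362)]
noncomputable def e24_37 : List Rx := [
  Rx.mk (nat_lit 136) (nat_lit 0) (nat_lit 1) (nat_lit 2) (nat_lit 6) (nat_lit 69) (nat_lit 80) r4_69 r0_80 (nat_lit 13011950) (nat_lit 0) (nat_lit 0) (nat_lit 0x7c2e5800a) (nat_lit 612357812),
  Rx.mk (nat_lit 139) (nat_lit 3) (nat_lit 1) (nat_lit 2) (nat_lit 7) (nat_lit 70) (nat_lit 81) r4_70 r0_81 (nat_lit 0) (nat_lit 0) (nat_lit 0) (nat_lit 0x7f12b28fc) (nat_lit 552544162),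
  Rx.mk (nat_lit 168) (nat_lit 0) (nat_lit 5) (nat_lit 2) (nat_lit 6) (nat_lit 68) (nat_lit 79) r4_68 r0_79 (nat_lit 6167468) (nat_lit 0) (nat_lit 0) (nat_lit 0x5e86efab0) (nat_lit 1084789780)]
noncomputable def e24_38 : List Rx := [
  Rx.mk (nat_lit 40) (nat_lit 0) (nat_lit 5) (nat_lit 0) (nat_lit 2) (nat_lit 155) (nat_lit 318) r4_155 r0_318 (nat_lit 2195696) (nat_lit 0) (nat_lit 125045575) (nat_lit 0x6ae14ea2c) (nat_lit 1005937833),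
  Rx.mk (nat_lit 41) (nat_lit 1) (nat_lit 5) (nat_lit 0) (nat_lit 3) (nat_lit 156) (nat_lit 319) r4_156 r0_319 (nat_lit 0) (nat_lit 0) (nat_lit 25377028) (nat_lit 0x7f22d5c02) (nat_lit 577258190),
  Rx.mk (nat_lit 168) (nat_lit 0) (nat_lit 5) (nat_lit 2) (nat_lit 6) (nat_lit 157) (nat_lit 320) r4_157 r0_320 (nat_lit 9212328) (nat_lit 0) (nat_lit 0) (nat_lit 0x785000486) (nat_lit 671079090),
  Rx.mk (nat_lit 169) (nat_lit 1) (nat_lit 5) (nat_lit 2) (nat_lit 7) (nat_lit 158) (nat_lit 321) r4_158 r0_321 (nat_lit 0) (nat_lit 0) (nat_lit 0) (nat_lit 0x80b12ecdc) (nat_lit 527417312)]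
noncomputable def e24_39 : List Rx := [
  Rx.mk (nat_lit 40) (nat_lit 0) (nat_lit 5) (nat_lit 0) (nat_lit 2) (nat_lit 167) (nat_lit 71) r4_167 r7_71 (nat_lit 22125450) (nat_lit 0) (nat_lit 19907554) (nat_lit 0x63a785950) (nat_lit 1037930216),
  Rx.mk (nat_lit 41) (nat_lit 1) (nat_lit 5) (nat_lit 0) (nat_lit 3) (nat_lit 168) (nat_lit 74) r4_168 r7_74 (nat_lit 0) (nat_lit 0) (nat_lit 19814278) (nat_lit 0x7ff710a44) (nat_lit 558656140),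
  Rx.mk (nat_lit 136) (nat_lit 0) (nat_lit 1) (nat_lit 2) (nat_lit 6) (nat_lit 170) (nat_lit 73) r4_170 r7_73 (nat_lit 15079429) (nat_lit 0) (nat_lit 0) (nat_lit 0x80b288b5a) (nat_lit 542464441),
  Rx.mk (nat_lit 137) (nat_lit 1) (nat_lit 1) (nat_lit 2) (nat_lit 7) (nat_lit 172) (nat_lit 76) r4_172 r7_76 (nat_lit 0) (nat_lit 0) (nat_lit 0) (nat_lit 0x8047400be) (nat_lit 533941862),
  Rx.mk (nat_lit 139) (nat_lit 3) (nat_lit 1) (nat_lit 2) (nat_lit 7) (nat_lit 173) (nat_lit 77) r4_173 r7_77 (nat_lit 0) (nat_lit 0) (nat_lit 0) (nat_lit 0x804741ba8) (nat_lit 533941462),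
  Rx.mk (nat_lit 168) (nat_lit 0) (nat_lit 5) (nat_lit 2) (nat_lit 6) (nat_lit 169) (nat_lit 72) r4_169 r7_72 (nat_lit 9466543) (nat_lit 0) (nat_lit 0) (nat_lit 0x7fa3c1d3e) (nat_lit 553281955),
  Rx.mk (nat_lit 169) (nat_lit 1) (nat_lit 5) (nat_lit 2) (nat_lit 7) (nat_lit 171) (nat_lit 75) r4_171 r7_75 (nat_lit 0) (nat_lit 0) (nat_lit 0) (nat_lit 0x80e5a0ace) (nat_lit 524283362)]
noncomputable def e24_40 : List Rx := [
  Rx.mk (nat_lit 41) (nat_lit 1) (nat_lit 5) (nat_lit 0) (nat_lit 3) (nat_lit 300) (nat_lit 349) r4_300 r2_349 (nat_lit 0) (nat_lit 0) (nat_lit 24741287) (nat_lit 0x7fcaef88e) (nat_lit 566317649),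
  Rx.mk (nat_lit 45) (nat_lit 5) (nat_lit 5) (nat_lit 0) (nat_lit 3) (nat_lit 299) (nat_lit 350) r4_299 r2_350 (nat_lit 0) (nat_lit 0) (nat_lit 42912160) (nat_lit 0x7cc9d2418) (nat_lit 632560472),
  Rx.mk (nat_lit 105) (nat_lit 1) (nat_lit 5) (nat_lit 1) (nat_lit 7) (nat_lit 302) (nat_lit 351) r4_302 r2_351 (nat_lit 0) (nat_lit 0) (nat_lit 0) (nat_lit 0x8017985b4) (nat_lit 536870912),
  Rx.mk (nat_lit 109) (nat_lit 5) (nat_lit 5) (nat_lit 1) (nat_lit 7) (nat_lit 301) (nat_lit 352) r4_301 r2_352 (nat_lit 0) (nat_lit 0) (nat_lit 0) (nat_lit 0x8017985b4) (nat_lit 536870912),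
  Rx.mk (nat_lit 169) (nat_lit 1) (nat_lit 5) (nat_lit 2) (nat_lit 7) (nat_lit 303) (nat_lit 353) r4_303 r2_353 (nat_lit 0) (nat_lit 0) (nat_lit 0) (nat_lit 0x8017985b4) (nat_lit 536870912)]
noncomputable def e24_41 : List Rx := [
  Rx.mk (nat_lit 41) (nat_lit 1) (nat_lit 5) (nat_lit 0) (nat_lit 3) (nat_lit 310) (nat_lit 312) r4_310 r9_312 (nat_lit 0) (nat_lit 0) (nat_lit 30557758) (nat_lit 0x7f457f316) (nat_lit 580390720),
  Rx.mk (nat_lit 45) (nat_lit 5) (nat_lit 5) (nat_lit 0) (nat_lit 3) (nat_lit 309) (nat_lit 313) r4_309 r9_313 (nat_lit 0) (nat_lit 0) (nat_lit 47490513) (nat_lit 0x7c0f81f64) (nat_lit 648924525),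
  Rx.mk (nat_lit 105) (nat_lit 1) (nat_lit 5) (nat_lit 1) (nat_lit 7) (nat_lit 312) (nat_lit 314) r4_312 r9_314 (nat_lit 0) (nat_lit 0) (nat_lit 0) (nat_lit 0x8017985b4) (nat_lit 536870912),
  Rx.mk (nat_lit 109) (nat_lit 5) (nat_lit 5) (nat_lit 1) (nat_lit 7) (nat_lit 311) (nat_lit 315) r4_311 r9_315 (nat_lit 0) (nat_lit 0) (nat_lit 0) (nat_lit 0x8017985b4) (nat_lit 536870912),
  Rx.mk (nat_lit 137) (nat_lit 1) (nat_lit 1) (nat_lit 2) (nat_lit 7) (nat_lit 314) (nat_lit 311) r4_314 r9_311 (nat_lit 0) (nat_lit 0) (nat_lit 0) (nat_lit 0x8017985b4) (nat_lit 536870912),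
  Rx.mk (nat_lit 169) (nat_lit 1) (nat_lit 5) (nat_lit 2) (nat_lit 7) (nat_lit 313) (nat_lit 316) r4_313 r9_316 (nat_lit 0) (nat_lit 0) (nat_lit 0) (nat_lit 0x8017985b4) (nat_lit 536870912)]
noncomputable def e24_42 : List Rx := [
  Rx.mk (nat_lit 105) (nat_lit 1) (nat_lit 5) (nat_lit 1) (nat_lit 7) (nat_lit 308) (nat_lit 306) r4_308 r9_306 (nat_lit 0) (nat_lit 0) (nat_lit 0) (nat_lit 0x8017985b4) (nat_lit 536870912),
  Rx.mk (nat_lit 109) (nat_lit 5) (nat_lit 5) (nat_lit 1) (nat_lit 7) (nat_lit 307) (nat_lit 305) r4_307 r9_305 (nat_lit 0) (nat_lit 0) (nat_lit 0) (nat_lit 0x8017985b4) (nat_lit 536870912)]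
noncomputable def e24_43 : List Rx := [
  Rx.mk (nat_lit 41) (nat_lit 1) (nat_lit 5) (nat_lit 0) (nat_lit 3) (nat_lit 159) (nat_lit 305) r4_159 r1_305 (nat_lit 0) (nat_lit 0) (nat_lit 25741495) (nat_lit 0x7f774491e) (nat_lit 572424907),
  Rx.mk (nat_lit 169) (nat_lit 1) (nat_lit 5) (nat_lit 2) (nat_lit 7) (nat_lit 160) (nat_lit 306) r4_160 r1_306 (nat_lit 0) (nat_lit 0) (nat_lit 0) (nat_lit 0x80964275c) (nat_lit 529102962)]
noncomputable def e24_44 : List Rx := [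
  Rx.mk (nat_lit 41) (nat_lit 1) (nat_lit 5) (nat_lit 0) (nat_lit 3) (nat_lit 174) (nat_lit 68) r4_174 r8_68 (nat_lit 0) (nat_lit 0) (nat_lit 19417164) (nat_lit 0x7fd35cbf2) (nat_lit 560445626),
  Rx.mk (nat_lit 137) (nat_lit 1) (nat_lit 1) (nat_lit 2) (nat_lit 7) (nat_lit 176) (nat_lit 70) r4_176 r8_70 (nat_lit 0) (nat_lit 0) (nat_lit 0) (nat_lit 0x8017985b4) (nat_lit 536870912),
  Rx.mk (nat_lit 169) (nat_lit 1) (nat_lit 5) (nat_lit 2) (nat_lit 7) (nat_lit 175) (nat_lit 69) r4_175 r8_69 (nat_lit 0) (nat_lit 0) (nat_lit 0) (nat_lit 0x80539e52c) (nat_lit 533184912)]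
noncomputable def e24_45 : List Rx := [
  Rx.mk (nat_lit 136) (nat_lit 0) (nat_lit 1) (nat_lit 2) (nat_lit 6) (nat_lit 71) (nat_lit 85) r4_71 r1_85 (nat_lit 18076853) (nat_lit 0) (nat_lit 0) (nat_lit 0x7feb22318) (nat_lit 557573915),
  Rx.mk (nat_lit 138) (nat_lit 2) (nat_lit 1) (nat_lit 2) (nat_lit 7) (nat_lit 72) (nat_lit 87) r4_72 r1_87 (nat_lit 0) (nat_lit 0) (nat_lit 0) (nat_lit 0x8017985b4) (nat_lit 536870912),
  Rx.mk (nat_lit 139) (nat_lit 3) (nat_lit 1) (nat_lit 2) (nat_lit 7) (nat_lit 73) (nat_lit 86) r4_73 r1_86 (nat_lit 0) (nat_lit 0) (nat_lit 0) (nat_lit 0x8445fa28c) (nat_lit 472429712)]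
noncomputable def e24_46 : List Rx := [
  Rx.mk (nat_lit 128) (nat_lit 0) (nat_lit 0) (nat_lit 2) (nat_lit 4) (nat_lit 24) (nat_lit 84) r4_24 r2_84 (nat_lit 8468611) (nat_lit 4698401) (nat_lit 0) (nat_lit 0x6f73fce92) (nat_lit 818155574),
  Rx.mk (nat_lit 130) (nat_lit 2) (nat_lit 0) (nat_lit 2) (nat_lit 5) (nat_lit 26) (nat_lit 92) r4_26 r2_92 (nat_lit 0) (nat_lit 18137495) (nat_lit 0) (nat_lit 0x807289324) (nat_lit 549428707),
  Rx.mk (nat_lit 131) (nat_lit 3) (nat_lit 0) (nat_lit 2) (nat_lit 5) (nat_lit 28) (nat_lit 86) r4_28 r2_86 (nat_lit 0) (nat_lit 4236250) (nat_lit 0) (nat_lit 0x81374ce9a) (nat_lit 523350712),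
  Rx.mk (nat_lit 136) (nat_lit 0) (nat_lit 1) (nat_lit 2) (nat_lit 6) (nat_lit 25) (nat_lit 85) r4_25 r2_85 (nat_lit 26453388) (nat_lit 0) (nat_lit 0) (nat_lit 0x802d4deae) (nat_lit 561974850),
  Rx.mk (nat_lit 138) (nat_lit 2) (nat_lit 1) (nat_lit 2) (nat_lit 7) (nat_lit 27) (nat_lit 93) r4_27 r2_93 (nat_lit 0) (nat_lit 0) (nat_lit 0) (nat_lit 0x8017985b4) (nat_lit 536870912),
  Rx.mk (nat_lit 139) (nat_lit 3) (nat_lit 1) (nat_lit 2) (nat_lit 7) (nat_lit 29) (nat_lit 87) r4_29 r2_87 (nat_lit 0) (nat_lit 0) (nat_lit 0) (nat_lit 0x817902fd8) (nat_lit 515379662),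
  Rx.mk (nat_lit 155) (nat_lit 3) (nat_lit 3) (nat_lit 2) (nat_lit 7) (nat_lit 30) (nat_lit 88) r4_30 r2_88 (nat_lit 0) (nat_lit 0) (nat_lit 0) (nat_lit 0x8173c4f94) (nat_lit 515699662),
  Rx.mk (nat_lit 386) (nat_lit 2) (nat_lit 0) (nat_lit 6) (nat_lit 5) (nat_lit 21) (nat_lit 89) r4_21 r2_89 (nat_lit 0) (nat_lit 16949147) (nat_lit 0) (nat_lit 0x80890f31e) (nat_lit 546864309),
  Rx.mk (nat_lit 394) (nat_lit 2) (nat_lit 1) (nat_lit 6) (nat_lit 7) (nat_lit 22) (nat_lit 90) r4_22 r2_90 (nat_lit 0) (nat_lit 0) (nat_lit 0) (nat_lit 0x8017985b4) (nat_lit 536870912),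
  Rx.mk (nat_lit 402) (nat_lit 2) (nat_lit 2) (nat_lit 6) (nat_lit 7) (nat_lit 23) (nat_lit 91) r4_23 r2_91 (nat_lit 0) (nat_lit 0) (nat_lit 0) (nat_lit 0x8017985b4) (nat_lit 536870912)]
noncomputable def e24_47 : List Rx := [
  Rx.mk (nat_lit 136) (nat_lit 0) (nat_lit 1) (nat_lit 2) (nat_lit 6) (nat_lit 177) (nat_lit 351) r4_177 r8_351 (nat_lit 24741287) (nat_lit 0) (nat_lit 0) (nat_lit 0x8017985b4) (nat_lit 561612199),
  Rx.mk (nat_lit 137) (nat_lit 1) (nat_lit 1) (nat_lit 2) (nat_lit 7) (nat_lit 178) (nat_lit 352) r4_178 r8_352 (nat_lit 0) (nat_lit 0) (nat_lit 0) (nat_lit 0x8017985b4) (nat_lit 536870912),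
  Rx.mk (nat_lit 138) (nat_lit 2) (nat_lit 1) (nat_lit 2) (nat_lit 7) (nat_lit 179) (nat_lit 354) r4_179 r8_354 (nat_lit 0) (nat_lit 0) (nat_lit 0) (nat_lit 0x8017985b4) (nat_lit 536870912),
  Rx.mk (nat_lit 139) (nat_lit 3) (nat_lit 1) (nat_lit 2) (nat_lit 7) (nat_lit 180) (nat_lit 353) r4_180 r8_353 (nat_lit 0) (nat_lit 0) (nat_lit 0) (nat_lit 0x8017985b4) (nat_lit 536870912)]
noncomputable def e24_48 : List Rx := [
  Rx.mk (nat_lit 128) (nat_lit 0) (nat_lit 0) (nat_lit 2) (nat_lit 4) (nat_lit 147) (nat_lit 50) r4_147 r9_50 (nat_lit 18784265) (nat_lit 16343874) (nat_lit 0) (nat_lit 0x65a8d64ce) (nat_lit 998625001),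
  Rx.mk (nat_lit 130) (nat_lit 2) (nat_lit 0) (nat_lit 2) (nat_lit 5) (nat_lit 150) (nat_lit 59) r4_150 r9_59 (nat_lit 0) (nat_lit 24741287) (nat_lit 0) (nat_lit 0x7ff8b06c4) (nat_lit 563504749),
  Rx.mk (nat_lit 131) (nat_lit 3) (nat_lit 0) (nat_lit 2) (nat_lit 5) (nat_lit 152) (nat_lit 53) r4_152 r9_53 (nat_lit 0) (nat_lit 24741287) (nat_lit 0) (nat_lit 0x8017985b4) (nat_lit 561612199),
  Rx.mk (nat_lit 136) (nat_lit 0) (nat_lit 1) (nat_lit 2) (nat_lit 6) (nat_lit 148) (nat_lit 51) r4_148 r9_51 (nat_lit 24741287) (nat_lit 0) (nat_lit 0) (nat_lit 0x8017985b4) (nat_lit 561612199),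
  Rx.mk (nat_lit 137) (nat_lit 1) (nat_lit 1) (nat_lit 2) (nat_lit 7) (nat_lit 149) (nat_lit 52) r4_149 r9_52 (nat_lit 0) (nat_lit 0) (nat_lit 0) (nat_lit 0x8017985b4) (nat_lit 536870912),
  Rx.mk (nat_lit 138) (nat_lit 2) (nat_lit 1) (nat_lit 2) (nat_lit 7) (nat_lit 151) (nat_lit 60) r4_151 r9_60 (nat_lit 0) (nat_lit 0) (nat_lit 0) (nat_lit 0x8017985b4) (nat_lit 536870912),
  Rx.mk (nat_lit 139) (nat_lit 3) (nat_lit 1) (nat_lit 2) (nat_lit 7) (nat_lit 153) (nat_lit 54) r4_153 r9_54 (nat_lit 0) (nat_lit 0) (nat_lit 0) (nat_lit 0x8017985b4) (nat_lit 536870912),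
  Rx.mk (nat_lit 155) (nat_lit 3) (nat_lit 3) (nat_lit 2) (nat_lit 7) (nat_lit 154) (nat_lit 55) r4_154 r9_55 (nat_lit 0) (nat_lit 0) (nat_lit 0) (nat_lit 0x8017985b4) (nat_lit 536870912),
  Rx.mk (nat_lit 386) (nat_lit 2) (nat_lit 0) (nat_lit 6) (nat_lit 5) (nat_lit 144) (nat_lit 56) r4_144 r9_56 (nat_lit 0) (nat_lit 24741287) (nat_lit 0) (nat_lit 0x8017985b4) (nat_lit 561612199),
  Rx.mk (nat_lit 394) (nat_lit 2) (nat_lit 1) (nat_lit 6) (nat_lit 7) (nat_lit 145) (nat_lit 57) r4_145 r9_57 (nat_lit 0) (nat_lit 0) (nat_lit 0) (nat_lit 0x8017985b4) (nat_lit 536870912),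
  Rx.mk (nat_lit 402) (nat_lit 2) (nat_lit 2) (nat_lit 6) (nat_lit 7) (nat_lit 146) (nat_lit 58) r4_146 r9_58 (nat_lit 0) (nat_lit 0) (nat_lit 0) (nat_lit 0x8017985b4) (nat_lit 536870912)]
noncomputable def e24_49 : List Rx := [
  Rx.mk (nat_lit 386) (nat_lit 2) (nat_lit 0) (nat_lit 6) (nat_lit 5) (nat_lit 128) (nat_lit 15) r4_128 r9_15 (nat_lit 0) (nat_lit 24741287) (nat_lit 0) (nat_lit 0x8017985b4) (nat_lit 561612199),
  Rx.mk (nat_lit 394) (nat_lit 2) (nat_lit 1) (nat_lit 6) (nat_lit 7) (nat_lit 129) (nat_lit 16) r4_129 r9_16 (nat_lit 0) (nat_lit 0) (nat_lit 0) (nat_lit 0x8017985b4) (nat_lit 536870912),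
  Rx.mk (nat_lit 402) (nat_lit 2) (nat_lit 2) (nat_lit 6) (nat_lit 7) (nat_lit 130) (nat_lit 17) r4_130 r9_17 (nat_lit 0) (nat_lit 0) (nat_lit 0) (nat_lit 0x8017985b4) (nat_lit 536870912)]
noncomputable def e24_50 : List Rx := [
  Rx.mk (nat_lit 43) (nat_lit 3) (nat_lit 5) (nat_lit 0) (nat_lit 3) (nat_lit 65) (nat_lit 72) r4_65 r3_72 (nat_lit 0) (nat_lit 0) (nat_lit 20881) (nat_lit 0x7ff798390) (nat_lit 537424343),
  Rx.mk (nat_lit 168) (nat_lit 0) (nat_lit 5) (nat_lit 2) (nat_lit 6) (nat_lit 66) (nat_lit 71) r4_66 r3_71 (nat_lit 162706) (nat_lit 0) (nat_lit 0) (nat_lit 0x7fec4a02e) (nat_lit 538305068),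
  Rx.mk (nat_lit 171) (nat_lit 3) (nat_lit 5) (nat_lit 2) (nat_lit 7) (nat_lit 67) (nat_lit 73) r4_67 r3_73 (nat_lit 0) (nat_lit 0) (nat_lit 0) (nat_lit 0x7ffafb73a) (nat_lit 537214012)]
noncomputable def e24_51 : List Rx := [
  Rx.mk (nat_lit 43) (nat_lit 3) (nat_lit 5) (nat_lit 0) (nat_lit 3) (nat_lit 74) (nat_lit 75) r4_74 r4_75 (nat_lit 0) (nat_lit 0) (nat_lit 7592338) (nat_lit 0x7d0c0142e) (nat_lit 592808150),
  Rx.mk (nat_lit 139) (nat_lit 3) (nat_lit 1) (nat_lit 2) (nat_lit 7) (nat_lit 77) (nat_lit 77) r4_77 r4_77 (nat_lit 0) (nat_lit 0) (nat_lit 0) (nat_lit 0x8186ed79c) (nat_lit 514518262),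
  Rx.mk (nat_lit 168) (nat_lit 0) (nat_lit 5) (nat_lit 2) (nat_lit 6) (nat_lit 75) (nat_lit 74) r4_75 r4_74 (nat_lit 7592338) (nat_lit 0) (nat_lit 0) (nat_lit 0x7d0c0142e) (nat_lit 592808150),
  Rx.mk (nat_lit 171) (nat_lit 3) (nat_lit 5) (nat_lit 2) (nat_lit 7) (nat_lit 76) (nat_lit 76) r4_76 r4_76 (nat_lit 0) (nat_lit 0) (nat_lit 0) (nat_lit 0x7fb75d550) (nat_lit 541473012)]
noncomputable def e24_52 : List Rx := [
  Rx.mk (nat_lit 43) (nat_lit 3) (nat_lit 5) (nat_lit 0) (nat_lit 3) (nat_lit 89) (nat_lit 67) r4_89 r5_67 (nat_lit 0) (nat_lit 0) (nat_lit 10750557) (nat_lit 0x7fd33eeae) (nat_lit 551622569),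
  Rx.mk (nat_lit 168) (nat_lit 0) (nat_lit 5) (nat_lit 2) (nat_lit 6) (nat_lit 90) (nat_lit 66) r4_90 r5_66 (nat_lit 9749711) (nat_lit 0) (nat_lit 0) (nat_lit 0x7ffe1e016) (nat_lit 547673873),
  Rx.mk (nat_lit 171) (nat_lit 3) (nat_lit 5) (nat_lit 2) (nat_lit 7) (nat_lit 91) (nat_lit 69) r4_91 r5_69 (nat_lit 0) (nat_lit 0) (nat_lit 0) (nat_lit 0x8121440f8) (nat_lit 520021762),
  Rx.mk (nat_lit 235) (nat_lit 3) (nat_lit 5) (nat_lit 3) (nat_lit 7) (nat_lit 92) (nat_lit 68) r4_92 r5_68 (nat_lit 0) (nat_lit 0) (nat_lit 0) (nat_lit 0x7fb528974) (nat_lit 542767312)]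
noncomputable def e24_53 : List Rx := [
  Rx.mk (nat_lit 40) (nat_lit 0) (nat_lit 5) (nat_lit 0) (nat_lit 2) (nat_lit 161) (nat_lit 349) r4_161 r4_349 (nat_lit 8380959) (nat_lit 0) (nat_lit 15888243) (nat_lit 0x712c99c60) (nat_lit 801452014),
  Rx.mk (nat_lit 41) (nat_lit 1) (nat_lit 5) (nat_lit 0) (nat_lit 3) (nat_lit 162) (nat_lit 350) r4_162 r4_350 (nat_lit 0) (nat_lit 0) (nat_lit 22312841) (nat_lit 0x806176d2a) (nat_lit 554648803),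
  Rx.mk (nat_lit 43) (nat_lit 3) (nat_lit 5) (nat_lit 0) (nat_lit 3) (nat_lit 163) (nat_lit 351) r4_163 r4_351 (nat_lit 0) (nat_lit 0) (nat_lit 68646309) (nat_lit 0x7fa8798a4) (nat_lit 612142821),
  Rx.mk (nat_lit 168) (nat_lit 0) (nat_lit 5) (nat_lit 2) (nat_lit 6) (nat_lit 164) (nat_lit 352) r4_164 r4_352 (nat_lit 12559442) (nat_lit 0) (nat_lit 0) (nat_lit 0x7f3685d1a) (nat_lit 563145404),
  Rx.mk (nat_lit 169) (nat_lit 1) (nat_lit 5) (nat_lit 2) (nat_lit 7) (nat_lit 165) (nat_lit 353) r4_165 r4_353 (nat_lit 0) (nat_lit 0) (nat_lit 0) (nat_lit 0x80d3762ea) (nat_lit 525382062),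
  Rx.mk (nat_lit 171) (nat_lit 3) (nat_lit 5) (nat_lit 2) (nat_lit 7) (nat_lit 166) (nat_lit 354) r4_166 r4_354 (nat_lit 0) (nat_lit 0) (nat_lit 0) (nat_lit 0x808605e8e) (nat_lit 530063762)]
noncomputable def e24_54 : List Rx := [
  Rx.mk (nat_lit 40) (nat_lit 0) (nat_lit 5) (nat_lit 0) (nat_lit 2) (nat_lit 181) (nat_lit 52) r4_181 r10_52 (nat_lit 11415403) (nat_lit 0) (nat_lit 12084870) (nat_lit 0x6331c3eb0) (nat_lit 1026799885),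
  Rx.mk (nat_lit 41) (nat_lit 1) (nat_lit 5) (nat_lit 0) (nat_lit 3) (nat_lit 182) (nat_lit 54) r4_182 r10_54 (nat_lit 0) (nat_lit 0) (nat_lit 21073453) (nat_lit 0x8042207e6) (nat_lit 555329265),
  Rx.mk (nat_lit 43) (nat_lit 3) (nat_lit 5) (nat_lit 0) (nat_lit 3) (nat_lit 183) (nat_lit 56) r4_183 r10_56 (nat_lit 0) (nat_lit 0) (nat_lit 23202415) (nat_lit 0x7faaa218a) (nat_lit 566751477),
  Rx.mk (nat_lit 139) (nat_lit 3) (nat_lit 1) (nat_lit 2) (nat_lit 7) (nat_lit 187) (nat_lit 58) r4_187 r10_58 (nat_lit 0) (nat_lit 0) (nat_lit 0) (nat_lit 0x8017985b4) (nat_lit 536870912),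
  Rx.mk (nat_lit 168) (nat_lit 0) (nat_lit 5) (nat_lit 2) (nat_lit 6) (nat_lit 184) (nat_lit 53) r4_184 r10_53 (nat_lit 10881583) (nat_lit 0) (nat_lit 0) (nat_lit 0x80aa66698) (nat_lit 538695745),
  Rx.mk (nat_lit 169) (nat_lit 1) (nat_lit 5) (nat_lit 2) (nat_lit 7) (nat_lit 185) (nat_lit 55) r4_185 r10_55 (nat_lit 0) (nat_lit 0) (nat_lit 0) (nat_lit 0x80a823854) (nat_lit 528019812),
  Rx.mk (nat_lit 171) (nat_lit 3) (nat_lit 5) (nat_lit 2) (nat_lit 7) (nat_lit 186) (nat_lit 57) r4_186 r10_57 (nat_lit 0) (nat_lit 0) (nat_lit 0) (nat_lit 0x80a823516) (nat_lit 528019862)]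
noncomputable def e24_55 : List Rx := [
  Rx.mk (nat_lit 40) (nat_lit 0) (nat_lit 5) (nat_lit 0) (nat_lit 2) (nat_lit 188) (nat_lit 46) r4_188 r11_46 (nat_lit 33533154) (nat_lit 0) (nat_lit 16806885) (nat_lit 0x78c402cc6) (nat_lit 704937351),
  Rx.mk (nat_lit 41) (nat_lit 1) (nat_lit 5) (nat_lit 0) (nat_lit 3) (nat_lit 189) (nat_lit 48) r4_189 r11_48 (nat_lit 0) (nat_lit 0) (nat_lit 24741287) (nat_lit 0x8017985b4) (nat_lit 561612199),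
  Rx.mk (nat_lit 43) (nat_lit 3) (nat_lit 5) (nat_lit 0) (nat_lit 3) (nat_lit 190) (nat_lit 50) r4_190 r11_50 (nat_lit 0) (nat_lit 0) (nat_lit 26071655) (nat_lit 0x7fa9352f2) (nat_lit 569730517),
  Rx.mk (nat_lit 168) (nat_lit 0) (nat_lit 5) (nat_lit 2) (nat_lit 6) (nat_lit 191) (nat_lit 47) r4_191 r11_47 (nat_lit 16749673) (nat_lit 0) (nat_lit 0) (nat_lit 0x8060fd66e) (nat_lit 549095785),
  Rx.mk (nat_lit 169) (nat_lit 1) (nat_lit 5) (nat_lit 2) (nat_lit 7) (nat_lit 192) (nat_lit 49) r4_192 r11_49 (nat_lit 0) (nat_lit 0) (nat_lit 0) (nat_lit 0x804ce505a) (nat_lit 533594662),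
  Rx.mk (nat_lit 171) (nat_lit 3) (nat_lit 5) (nat_lit 2) (nat_lit 7) (nat_lit 193) (nat_lit 52) r4_193 r11_52 (nat_lit 0) (nat_lit 0) (nat_lit 0) (nat_lit 0x804ce4d1c) (nat_lit 533594712),
  Rx.mk (nat_lit 235) (nat_lit 3) (nat_lit 5) (nat_lit 3) (nat_lit 7) (nat_lit 194) (nat_lit 51) r4_194 r11_51 (nat_lit 0) (nat_lit 0) (nat_lit 0) (nat_lit 0x8017985b4) (nat_lit 536870912)]
noncomputable def e24_56 : List Rx := [
  Rx.mk (nat_lit 43) (nat_lit 3) (nat_lit 5) (nat_lit 0) (nat_lit 3) (nat_lit 224) (nat_lit 305) r4_224 r5_305 (nat_lit 0) (nat_lit 0) (nat_lit 161090066) (nat_lit 0x7fc75d3ec) (nat_lit 701587228),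
  Rx.mk (nat_lit 171) (nat_lit 3) (nat_lit 5) (nat_lit 2) (nat_lit 7) (nat_lit 225) (nat_lit 306) r4_225 r5_306 (nat_lit 0) (nat_lit 0) (nat_lit 0) (nat_lit 0x743a265ec) (nat_lit 727415662)]
noncomputable def e24_57 : List Rx := [
  Rx.mk (nat_lit 43) (nat_lit 3) (nat_lit 5) (nat_lit 0) (nat_lit 3) (nat_lit 226) (nat_lit 358) r4_226 r11_358 (nat_lit 0) (nat_lit 0) (nat_lit 11487859) (nat_lit 0x7fe0ccc6a) (nat_lit 551547221),
  Rx.mk (nat_lit 139) (nat_lit 3) (nat_lit 1) (nat_lit 2) (nat_lit 7) (nat_lit 228) (nat_lit 357) r4_228 r11_357 (nat_lit 0) (nat_lit 0) (nat_lit 0) (nat_lit 0x850b42e04) (nat_lit 460662012),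
  Rx.mk (nat_lit 171) (nat_lit 3) (nat_lit 5) (nat_lit 2) (nat_lit 7) (nat_lit 227) (nat_lit 359) r4_227 r11_359 (nat_lit 0) (nat_lit 0) (nat_lit 0) (nat_lit 0x82046c2cc) (nat_lit 506848662)]
noncomputable def e24 : List (List Rx) := [e24_0, e24_1, e24_2, e24_3, e24_4, e24_5, e24_6, e24_7, e24_8, e24_9, e24_10, e24_11, e24_12, e24_13, e24_14, e24_15, e24_16, e24_17, e24_18, e24_19, e24_20, e24_21, e24_22, e24_23, e24_24, e24_25, e24_26, e24_27, e24_28, e24_29, e24_30, e24_31, e24_32, e24_33, e24_34, e24_35, e24_36, e24_37, e24_38, e24_39, e24_40, e24_41, e24_42, e24_43, e24_44, e24_45, e24_46, e24_47, e24_48, e24_49, e24_50, e24_51, e24_52, e24_53, e24_54, e24_55, e24_56, e24_57]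
noncomputable def e25_0 : List Rx := [
  Rx.mk (nat_lit 100) (nat_lit 4) (nat_lit 4) (nat_lit 1) (nat_lit 4) (nat_lit 56) (nat_lit 177) r7_56 r0_177 (nat_lit 7378942) (nat_lit 3400781) (nat_lit 0) (nat_lit 0x545558bfa) (nat_lit 1254182035),
  Rx.mk (nat_lit 108) (nat_lit 4) (nat_lit 5) (nat_lit 1) (nat_lit 6) (nat_lit 59) (nat_lit 179) r7_59 r0_179 (nat_lit 10961872) (nat_lit 0) (nat_lit 0) (nat_lit 0x71abf8114) (nat_lit 780182384),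
  Rx.mk (nat_lit 356) (nat_lit 4) (nat_lit 4) (nat_lit 5) (nat_lit 4) (nat_lit 57) (nat_lit 178) r7_57 r0_178 (nat_lit 10270932) (nat_lit 5394699) (nat_lit 0) (nat_lit 0x5fa366a58) (nat_lit 1076368243),
  Rx.mk (nat_lit 359) (nat_lit 7) (nat_lit 4) (nat_lit 5) (nat_lit 5) (nat_lit 58) (nat_lit 182) r7_58 r0_182 (nat_lit 0) (nat_lit 7741900) (nat_lit 0) (nat_lit 0x80bec9efa) (nat_lit 534261362),
  Rx.mk (nat_lit 364) (nat_lit 4) (nat_lit 5) (nat_lit 5) (nat_lit 6) (nat_lit 60) (nat_lit 180) r7_60 r0_180 (nat_lit 23289893) (nat_lit 0) (nat_lit 0) (nat_lit 0x7d8545704) (nat_lit 601157455),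
  Rx.mk (nat_lit 367) (nat_lit 7) (nat_lit 5) (nat_lit 5) (nat_lit 7) (nat_lit 61) (nat_lit 183) r7_61 r0_183 (nat_lit 0) (nat_lit 0) (nat_lit 0) (nat_lit 0x80877ffc6) (nat_lit 529984012),
  Rx.mk (nat_lit 372) (nat_lit 4) (nat_lit 6) (nat_lit 5) (nat_lit 6) (nat_lit 62) (nat_lit 181) r7_62 r0_181 (nat_lit 39572657) (nat_lit 0) (nat_lit 0) (nat_lit 0x7fce955ba) (nat_lit 580469619),
  Rx.mk (nat_lit 375) (nat_lit 7) (nat_lit 6) (nat_lit 5) (nat_lit 7) (nat_lit 63) (nat_lit 184) r7_63 r0_184 (nat_lit 0) (nat_lit 0) (nat_lit 0) (nat_lit 0x80b89b4d4) (nat_lit 527012662)]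
noncomputable def e25_1 : List Rx := [
  Rx.mk (nat_lit 356) (nat_lit 4) (nat_lit 4) (nat_lit 5) (nat_lit 4) (nat_lit 64) (nat_lit 192) r7_64 r1_192 (nat_lit 25112477) (nat_lit 16757287) (nat_lit 0) (nat_lit 0x6c3762d4a) (nat_lit 899304226),
  Rx.mk (nat_lit 359) (nat_lit 7) (nat_lit 4) (nat_lit 5) (nat_lit 5) (nat_lit 65) (nat_lit 195) r7_65 r1_195 (nat_lit 0) (nat_lit 19851321) (nat_lit 0) (nat_lit 0x80224bf92) (nat_lit 556043533),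
  Rx.mk (nat_lit 364) (nat_lit 4) (nat_lit 5) (nat_lit 5) (nat_lit 6) (nat_lit 66) (nat_lit 193) r7_66 r1_193 (nat_lit 25314926) (nat_lit 0) (nat_lit 0) (nat_lit 0x7f9e34eca) (nat_lit 569620288),
  Rx.mk (nat_lit 367) (nat_lit 7) (nat_lit 5) (nat_lit 5) (nat_lit 7) (nat_lit 67) (nat_lit 196) r7_67 r1_196 (nat_lit 0) (nat_lit 0) (nat_lit 0) (nat_lit 0x8017985b4) (nat_lit 536870912),
  Rx.mk (nat_lit 372) (nat_lit 4) (nat_lit 6) (nat_lit 5) (nat_lit 6) (nat_lit 68) (nat_lit 194) r7_68 r1_194 (nat_lit 30395325) (nat_lit 0) (nat_lit 0) (nat_lit 0x809096c2c) (nat_lit 559824137),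
  Rx.mk (nat_lit 374) (nat_lit 6) (nat_lit 6) (nat_lit 5) (nat_lit 7) (nat_lit 69) (nat_lit 198) r7_69 r1_198 (nat_lit 0) (nat_lit 0) (nat_lit 0) (nat_lit 0x8018dbc28) (nat_lit 536671062),
  Rx.mk (nat_lit 375) (nat_lit 7) (nat_lit 6) (nat_lit 5) (nat_lit 7) (nat_lit 70) (nat_lit 197) r7_70 r1_197 (nat_lit 0) (nat_lit 0) (nat_lit 0) (nat_lit 0x8017985b4) (nat_lit 536870912)]
noncomputable def e25_2 : List Rx := [
  Rx.mk (nat_lit 292) (nat_lit 4) (nat_lit 4) (nat_lit 4) (nat_lit 0) (nat_lit 21) (nat_lit 189) r7_21 r2_189 (nat_lit 3422726) (nat_lit 2362318) (nat_lit 2611593) (nat_lit 0x3ce06297a) (nat_lit 1631121799),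
  Rx.mk (nat_lit 295) (nat_lit 7) (nat_lit 4) (nat_lit 4) (nat_lit 1) (nat_lit 23) (nat_lit 193) r7_23 r2_193 (nat_lit 0) (nat_lit 12919491) (nat_lit 15431888) (nat_lit 0x6872d6740) (nat_lit 946738841),
  Rx.mk (nat_lit 308) (nat_lit 4) (nat_lit 6) (nat_lit 4) (nat_lit 2) (nat_lit 26) (nat_lit 191) r7_26 r2_191 (nat_lit 15429794) (nat_lit 0) (nat_lit 17983786) (nat_lit 0x642450a34) (nat_lit 1021437892),
  Rx.mk (nat_lit 310) (nat_lit 6) (nat_lit 6) (nat_lit 4) (nat_lit 3) (nat_lit 28) (nat_lit 200) r7_28 r2_200 (nat_lit 0) (nat_lit 0) (nat_lit 24741287) (nat_lit 0x7ffac5806) (nat_lit 563378349),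
  Rx.mk (nat_lit 311) (nat_lit 7) (nat_lit 6) (nat_lit 4) (nat_lit 3) (nat_lit 31) (nat_lit 197) r7_31 r2_197 (nat_lit 0) (nat_lit 0) (nat_lit 24741287) (nat_lit 0x800bf9d8e) (nat_lit 562322849),
  Rx.mk (nat_lit 356) (nat_lit 4) (nat_lit 4) (nat_lit 5) (nat_lit 4) (nat_lit 22) (nat_lit 190) r7_22 r2_190 (nat_lit 55381709) (nat_lit 33242310) (nat_lit 0) (nat_lit 0x6310bfaca) (nat_lit 1094102531),
  Rx.mk (nat_lit 359) (nat_lit 7) (nat_lit 4) (nat_lit 5) (nat_lit 5) (nat_lit 24) (nat_lit 194) r7_24 r2_194 (nat_lit 0) (nat_lit 25208910) (nat_lit 0) (nat_lit 0x800becfd0) (nat_lit 562792922),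
  Rx.mk (nat_lit 372) (nat_lit 4) (nat_lit 6) (nat_lit 5) (nat_lit 6) (nat_lit 27) (nat_lit 192) r7_27 r2_192 (nat_lit 24741287) (nat_lit 0) (nat_lit 0) (nat_lit 0x800c30b36) (nat_lit 562309299),
  Rx.mk (nat_lit 374) (nat_lit 6) (nat_lit 6) (nat_lit 5) (nat_lit 7) (nat_lit 29) (nat_lit 201) r7_29 r2_201 (nat_lit 0) (nat_lit 0) (nat_lit 0) (nat_lit 0x8017985b4) (nat_lit 536870912),
  Rx.mk (nat_lit 375) (nat_lit 7) (nat_lit 6) (nat_lit 5) (nat_lit 7) (nat_lit 32) (nat_lit 198) r7_32 r2_198 (nat_lit 0) (nat_lit 0) (nat_lit 0) (nat_lit 0x8017985b4) (nat_lit 536870912),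
  Rx.mk (nat_lit 438) (nat_lit 6) (nat_lit 6) (nat_lit 6) (nat_lit 7) (nat_lit 30) (nat_lit 202) r7_30 r2_202 (nat_lit 0) (nat_lit 0) (nat_lit 0) (nat_lit 0x8017985b4) (nat_lit 536870912),
  Rx.mk (nat_lit 487) (nat_lit 7) (nat_lit 4) (nat_lit 7) (nat_lit 5) (nat_lit 25) (nat_lit 195) r7_25 r2_195 (nat_lit 0) (nat_lit 24741287) (nat_lit 0) (nat_lit 0x800c2469c) (nat_lit 562313099),
  Rx.mk (nat_lit 503) (nat_lit 7) (nat_lit 6) (nat_lit 7) (nat_lit 7) (nat_lit 33) (nat_lit 199) r7_33 r2_199 (nat_lit 0) (nat_lit 0) (nat_lit 0) (nat_lit 0x8017985b4) (nat_lit 536870912),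
  Rx.mk (nat_lit 511) (nat_lit 7) (nat_lit 7) (nat_lit 7) (nat_lit 7) (nat_lit 34) (nat_lit 196) r7_34 r2_196 (nat_lit 0) (nat_lit 0) (nat_lit 0) (nat_lit 0x8017985b4) (nat_lit 536870912)]
noncomputable def e25_3 : List Rx := [
  Rx.mk (nat_lit 100) (nat_lit 4) (nat_lit 4) (nat_lit 1) (nat_lit 4) (nat_lit 52) (nat_lit 167) r7_52 r3_167 (nat_lit 161216) (nat_lit 187444) (nat_lit 0) (nat_lit 0x65b3d3f7a) (nat_lit 962509472),
  Rx.mk (nat_lit 103) (nat_lit 7) (nat_lit 4) (nat_lit 1) (nat_lit 5) (nat_lit 53) (nat_lit 169) r7_53 r3_169 (nat_lit 0) (nat_lit 1062796) (nat_lit 0) (nat_lit 0x7d66ce370) (nat_lit 580163308),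
  Rx.mk (nat_lit 108) (nat_lit 4) (nat_lit 5) (nat_lit 1) (nat_lit 6) (nat_lit 54) (nat_lit 168) r7_54 r3_168 (nat_lit 20900457) (nat_lit 0) (nat_lit 0) (nat_lit 0x7888ef68e) (nat_lit 679216269),
  Rx.mk (nat_lit 111) (nat_lit 7) (nat_lit 5) (nat_lit 1) (nat_lit 7) (nat_lit 55) (nat_lit 170) r7_55 r3_170 (nat_lit 0) (nat_lit 0) (nat_lit 0) (nat_lit 0x82218c4a6) (nat_lit 505206912)]
noncomputable def e25_4 : List Rx := [
  Rx.mk (nat_lit 100) (nat_lit 4) (nat_lit 4) (nat_lit 1) (nat_lit 4) (nat_lit 71) (nat_lit 167) r7_71 r4_167 (nat_lit 19907554) (nat_lit 22125450) (nat_lit 0) (nat_lit 0x63a785950) (nat_lit 1037930216),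
  Rx.mk (nat_lit 103) (nat_lit 7) (nat_lit 4) (nat_lit 1) (nat_lit 5) (nat_lit 72) (nat_lit 169) r7_72 r4_169 (nat_lit 0) (nat_lit 9466543) (nat_lit 0) (nat_lit 0x7fa3c1d3e) (nat_lit 553281955),
  Rx.mk (nat_lit 108) (nat_lit 4) (nat_lit 5) (nat_lit 1) (nat_lit 6) (nat_lit 74) (nat_lit 168) r7_74 r4_168 (nat_lit 19814278) (nat_lit 0) (nat_lit 0) (nat_lit 0x7ff710a44) (nat_lit 558656140),
  Rx.mk (nat_lit 111) (nat_lit 7) (nat_lit 5) (nat_lit 1) (nat_lit 7) (nat_lit 75) (nat_lit 171) r7_75 r4_171 (nat_lit 0) (nat_lit 0) (nat_lit 0) (nat_lit 0x80e5a0ace) (nat_lit 524283362),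
  Rx.mk (nat_lit 359) (nat_lit 7) (nat_lit 4) (nat_lit 5) (nat_lit 5) (nat_lit 73) (nat_lit 170) r7_73 r4_170 (nat_lit 0) (nat_lit 15079429) (nat_lit 0) (nat_lit 0x80b288b5a) (nat_lit 542464441),
  Rx.mk (nat_lit 367) (nat_lit 7) (nat_lit 5) (nat_lit 5) (nat_lit 7) (nat_lit 76) (nat_lit 172) r7_76 r4_172 (nat_lit 0) (nat_lit 0) (nat_lit 0) (nat_lit 0x8047400be) (nat_lit 533941862),
  Rx.mk (nat_lit 375) (nat_lit 7) (nat_lit 6) (nat_lit 5) (nat_lit 7) (nat_lit 77) (nat_lit 173) r7_77 r4_173 (nat_lit 0) (nat_lit 0) (nat_lit 0) (nat_lit 0x804741ba8) (nat_lit 533941462)]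
noncomputable def e25_5 : List Rx := [
  Rx.mk (nat_lit 100) (nat_lit 4) (nat_lit 4) (nat_lit 1) (nat_lit 4) (nat_lit 88) (nat_lit 184) r7_88 r5_184 (nat_lit 21504054) (nat_lit 5813795) (nat_lit 0) (nat_lit 0x686efd894) (nat_lit 945833261),
  Rx.mk (nat_lit 103) (nat_lit 7) (nat_lit 4) (nat_lit 1) (nat_lit 5) (nat_lit 89) (nat_lit 186) r7_89 r5_186 (nat_lit 0) (nat_lit 6741966) (nat_lit 0) (nat_lit 0x7f4734e86) (nat_lit 556141628),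
  Rx.mk (nat_lit 108) (nat_lit 4) (nat_lit 5) (nat_lit 1) (nat_lit 6) (nat_lit 90) (nat_lit 185) r7_90 r5_185 (nat_lit 24741287) (nat_lit 0) (nat_lit 0) (nat_lit 0x7fd363f88) (nat_lit 565797099),
  Rx.mk (nat_lit 111) (nat_lit 7) (nat_lit 5) (nat_lit 1) (nat_lit 7) (nat_lit 91) (nat_lit 187) r7_91 r5_187 (nat_lit 0) (nat_lit 0) (nat_lit 0) (nat_lit 0x812b94fb2) (nat_lit 520035912),
  Rx.mk (nat_lit 127) (nat_lit 7) (nat_lit 7) (nat_lit 1) (nat_lit 7) (nat_lit 92) (nat_lit 188) r7_92 r5_188 (nat_lit 0) (nat_lit 0) (nat_lit 0) (nat_lit 0x8017985b4) (nat_lit 536870912)]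
noncomputable def e25_6 : List Rx := [
  Rx.mk (nat_lit 59) (nat_lit 3) (nat_lit 7) (nat_lit 0) (nat_lit 3) (nat_lit 36) (nat_lit 102) r7_36 r3_102 (nat_lit 0) (nat_lit 0) (nat_lit 365028) (nat_lit 0x82b316502) (nat_lit 496255090),
  Rx.mk (nat_lit 231) (nat_lit 7) (nat_lit 4) (nat_lit 3) (nat_lit 5) (nat_lit 35) (nat_lit 100) r7_35 r3_100 (nat_lit 0) (nat_lit 365028) (nat_lit 0) (nat_lit 0x82b316502) (nat_lit 496255090),
  Rx.mk (nat_lit 251) (nat_lit 3) (nat_lit 7) (nat_lit 3) (nat_lit 7) (nat_lit 37) (nat_lit 103) r7_37 r3_103 (nat_lit 0) (nat_lit 0) (nat_lit 0) (nat_lit 0x7f95fdf2c) (nat_lit 544861262),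
  Rx.mk (nat_lit 255) (nat_lit 7) (nat_lit 7) (nat_lit 3) (nat_lit 7) (nat_lit 38) (nat_lit 101) r7_38 r3_101 (nat_lit 0) (nat_lit 0) (nat_lit 0) (nat_lit 0x7f95fdf2c) (nat_lit 544861262)]
noncomputable def e25_7 : List Rx := [
  Rx.mk (nat_lit 251) (nat_lit 3) (nat_lit 7) (nat_lit 3) (nat_lit 7) (nat_lit 8) (nat_lit 104) r7_8 r0_104 (nat_lit 0) (nat_lit 0) (nat_lit 0) (nat_lit 0x7ffe471c8) (nat_lit 538421712),
  Rx.mk (nat_lit 255) (nat_lit 7) (nat_lit 7) (nat_lit 3) (nat_lit 7) (nat_lit 9) (nat_lit 103) r7_9 r0_103 (nat_lit 0) (nat_lit 0) (nat_lit 0) (nat_lit 0x8017985b4) (nat_lit 536870912),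
  Rx.mk (nat_lit 308) (nat_lit 4) (nat_lit 6) (nat_lit 4) (nat_lit 2) (nat_lit 2) (nat_lit 105) r7_2 r0_105 (nat_lit 9373510) (nat_lit 0) (nat_lit 4536926) (nat_lit 0x680227486) (nat_lit 939230248),
  Rx.mk (nat_lit 310) (nat_lit 6) (nat_lit 6) (nat_lit 4) (nat_lit 3) (nat_lit 4) (nat_lit 108) r7_4 r0_108 (nat_lit 0) (nat_lit 0) (nat_lit 24727622) (nat_lit 0x7be4cbc66) (nat_lit 628839434),
  Rx.mk (nat_lit 438) (nat_lit 6) (nat_lit 6) (nat_lit 6) (nat_lit 7) (nat_lit 5) (nat_lit 110) r7_5 r0_110 (nat_lit 0) (nat_lit 0) (nat_lit 0) (nat_lit 0x8017985b4) (nat_lit 536870912),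
  Rx.mk (nat_lit 484) (nat_lit 4) (nat_lit 4) (nat_lit 7) (nat_lit 4) (nat_lit 0) (nat_lit 100) r7_0 r0_100 (nat_lit 46745449) (nat_lit 31904360) (nat_lit 0) (nat_lit 0x5c2702b54) (nat_lit 1195869321),
  Rx.mk (nat_lit 487) (nat_lit 7) (nat_lit 4) (nat_lit 7) (nat_lit 5) (nat_lit 1) (nat_lit 101) r7_1 r0_101 (nat_lit 0) (nat_lit 15260325) (nat_lit 0) (nat_lit 0x6e0d6284a) (nat_lit 843049387),
  Rx.mk (nat_lit 500) (nat_lit 4) (nat_lit 6) (nat_lit 7) (nat_lit 6) (nat_lit 3) (nat_lit 106) r7_3 r0_106 (nat_lit 73862049) (nat_lit 0) (nat_lit 0) (nat_lit 0x7d468cf26) (nat_lit 655662261),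
  Rx.mk (nat_lit 502) (nat_lit 6) (nat_lit 6) (nat_lit 7) (nat_lit 7) (nat_lit 6) (nat_lit 109) r7_6 r0_109 (nat_lit 0) (nat_lit 0) (nat_lit 0) (nat_lit 0x7ff31a048) (nat_lit 539113112),
  Rx.mk (nat_lit 503) (nat_lit 7) (nat_lit 6) (nat_lit 7) (nat_lit 7) (nat_lit 7) (nat_lit 107) r7_7 r0_107 (nat_lit 0) (nat_lit 0) (nat_lit 0) (nat_lit 0x7fdfab7e6) (nat_lit 540283862),
  Rx.mk (nat_lit 511) (nat_lit 7) (nat_lit 7) (nat_lit 7) (nat_lit 7) (nat_lit 10) (nat_lit 102) r7_10 r0_102 (nat_lit 0) (nat_lit 0) (nat_lit 0) (nat_lit 0x7dc623460) (nat_lit 573811562)]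
noncomputable def e25_8 : List Rx := [
  Rx.mk (nat_lit 292) (nat_lit 4) (nat_lit 4) (nat_lit 4) (nat_lit 0) (nat_lit 11) (nat_lit 107) r7_11 r1_107 (nat_lit 43642432) (nat_lit 5821095) (nat_lit 6392816) (nat_lit 0x44a1c92b0) (nat_lit 1553277655),
  Rx.mk (nat_lit 308) (nat_lit 4) (nat_lit 6) (nat_lit 4) (nat_lit 2) (nat_lit 14) (nat_lit 111) r7_14 r1_111 (nat_lit 24461115) (nat_lit 0) (nat_lit 15973405) (nat_lit 0x6bcc10498) (nat_lit 904689032),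
  Rx.mk (nat_lit 310) (nat_lit 6) (nat_lit 6) (nat_lit 4) (nat_lit 3) (nat_lit 16) (nat_lit 114) r7_16 r1_114 (nat_lit 0) (nat_lit 0) (nat_lit 16486043) (nat_lit 0x7aed483a4) (nat_lit 636147005),
  Rx.mk (nat_lit 438) (nat_lit 6) (nat_lit 6) (nat_lit 6) (nat_lit 7) (nat_lit 17) (nat_lit 116) r7_17 r1_116 (nat_lit 0) (nat_lit 0) (nat_lit 0) (nat_lit 0x8017985b4) (nat_lit 536870912),
  Rx.mk (nat_lit 484) (nat_lit 4) (nat_lit 4) (nat_lit 7) (nat_lit 4) (nat_lit 12) (nat_lit 108) r7_12 r1_108 (nat_lit 78119258) (nat_lit 35130887) (nat_lit 0) (nat_lit 0x6d4852dd4) (nat_lit 953515857),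
  Rx.mk (nat_lit 487) (nat_lit 7) (nat_lit 4) (nat_lit 7) (nat_lit 5) (nat_lit 13) (nat_lit 109) r7_13 r1_109 (nat_lit 0) (nat_lit 21790589) (nat_lit 0) (nat_lit 0x7f1945f52) (nat_lit 574322851),
  Rx.mk (nat_lit 500) (nat_lit 4) (nat_lit 6) (nat_lit 7) (nat_lit 6) (nat_lit 15) (nat_lit 112) r7_15 r1_112 (nat_lit 24618950) (nat_lit 0) (nat_lit 0) (nat_lit 0x80095eab6) (nat_lit 562360112),
  Rx.mk (nat_lit 502) (nat_lit 6) (nat_lit 6) (nat_lit 7) (nat_lit 7) (nat_lit 18) (nat_lit 115) r7_18 r1_115 (nat_lit 0) (nat_lit 0) (nat_lit 0) (nat_lit 0x8017985b4) (nat_lit 536870912),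
  Rx.mk (nat_lit 503) (nat_lit 7) (nat_lit 6) (nat_lit 7) (nat_lit 7) (nat_lit 19) (nat_lit 113) r7_19 r1_113 (nat_lit 0) (nat_lit 0) (nat_lit 0) (nat_lit 0x80538fe0a) (nat_lit 533186112),
  Rx.mk (nat_lit 511) (nat_lit 7) (nat_lit 7) (nat_lit 7) (nat_lit 7) (nat_lit 20) (nat_lit 110) r7_20 r1_110 (nat_lit 0) (nat_lit 0) (nat_lit 0) (nat_lit 0x8017985b4) (nat_lit 536870912)]
noncomputable def e25_9 : List Rx := [
  Rx.mk (nat_lit 59) (nat_lit 3) (nat_lit 7) (nat_lit 0) (nat_lit 3) (nat_lit 45) (nat_lit 102) r7_45 r4_102 (nat_lit 0) (nat_lit 0) (nat_lit 15103995) (nat_lit 0x808086120) (nat_lit 545531857),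
  Rx.mk (nat_lit 231) (nat_lit 7) (nat_lit 4) (nat_lit 3) (nat_lit 5) (nat_lit 40) (nat_lit 100) r7_40 r4_100 (nat_lit 0) (nat_lit 17421724) (nat_lit 0) (nat_lit 0x804c6a3e6) (nat_lit 551019636),
  Rx.mk (nat_lit 251) (nat_lit 3) (nat_lit 7) (nat_lit 3) (nat_lit 7) (nat_lit 46) (nat_lit 103) r7_46 r4_103 (nat_lit 0) (nat_lit 0) (nat_lit 0) (nat_lit 0x8017985b4) (nat_lit 536870912),
  Rx.mk (nat_lit 255) (nat_lit 7) (nat_lit 7) (nat_lit 3) (nat_lit 7) (nat_lit 47) (nat_lit 101) r7_47 r4_101 (nat_lit 0) (nat_lit 0) (nat_lit 0) (nat_lit 0x8017985b4) (nat_lit 536870912),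
  Rx.mk (nat_lit 484) (nat_lit 4) (nat_lit 4) (nat_lit 7) (nat_lit 4) (nat_lit 39) (nat_lit 98) r7_39 r4_98 (nat_lit 21615915) (nat_lit 11303237) (nat_lit 0) (nat_lit 0x68ed8d4d4) (nat_lit 943524414),
  Rx.mk (nat_lit 487) (nat_lit 7) (nat_lit 4) (nat_lit 7) (nat_lit 5) (nat_lit 41) (nat_lit 99) r7_41 r4_99 (nat_lit 0) (nat_lit 10576130) (nat_lit 0) (nat_lit 0x7fd267c38) (nat_lit 551565342),
  Rx.mk (nat_lit 500) (nat_lit 4) (nat_lit 6) (nat_lit 7) (nat_lit 6) (nat_lit 42) (nat_lit 104) r7_42 r4_104 (nat_lit 32199586) (nat_lit 0) (nat_lit 0) (nat_lit 0x7deebd290) (nat_lit 603434298),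
  Rx.mk (nat_lit 502) (nat_lit 6) (nat_lit 6) (nat_lit 7) (nat_lit 7) (nat_lit 43) (nat_lit 106) r7_43 r4_106 (nat_lit 0) (nat_lit 0) (nat_lit 0) (nat_lit 0x8017985b4) (nat_lit 536870912),
  Rx.mk (nat_lit 503) (nat_lit 7) (nat_lit 6) (nat_lit 7) (nat_lit 7) (nat_lit 44) (nat_lit 105) r7_44 r4_105 (nat_lit 0) (nat_lit 0) (nat_lit 0) (nat_lit 0x80d93c616) (nat_lit 525035062)]
noncomputable def e25_10 : List Rx := [
  Rx.mk (nat_lit 39) (nat_lit 7) (nat_lit 4) (nat_lit 0) (nat_lit 1) (nat_lit 78) (nat_lit 195) r7_78 r6_195 (nat_lit 0) (nat_lit 3417910) (nat_lit 3103288) (nat_lit 0x6f0f18210) (nat_lit 817792160),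
  Rx.mk (nat_lit 47) (nat_lit 7) (nat_lit 5) (nat_lit 0) (nat_lit 3) (nat_lit 81) (nat_lit 198) r7_81 r6_198 (nat_lit 0) (nat_lit 0) (nat_lit 10382740) (nat_lit 0x817f374a8) (nat_lit 525372102),
  Rx.mk (nat_lit 59) (nat_lit 3) (nat_lit 7) (nat_lit 0) (nat_lit 3) (nat_lit 84) (nat_lit 193) r7_84 r6_193 (nat_lit 0) (nat_lit 0) (nat_lit 8290090) (nat_lit 0x80c4482e6) (nat_lit 534483002),
  Rx.mk (nat_lit 63) (nat_lit 7) (nat_lit 7) (nat_lit 0) (nat_lit 3) (nat_lit 86) (nat_lit 201) r7_86 r6_201 (nat_lit 0) (nat_lit 0) (nat_lit 24741287) (nat_lit 0x7f4e81a9a) (nat_lit 574017999),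
  Rx.mk (nat_lit 103) (nat_lit 7) (nat_lit 4) (nat_lit 1) (nat_lit 5) (nat_lit 79) (nat_lit 196) r7_79 r6_196 (nat_lit 0) (nat_lit 12588522) (nat_lit 0) (nat_lit 0x8109aaa8c) (nat_lit 534683584),
  Rx.mk (nat_lit 111) (nat_lit 7) (nat_lit 5) (nat_lit 1) (nat_lit 7) (nat_lit 82) (nat_lit 199) r7_82 r6_199 (nat_lit 0) (nat_lit 0) (nat_lit 0) (nat_lit 0x806259ae4) (nat_lit 532286612),
  Rx.mk (nat_lit 123) (nat_lit 3) (nat_lit 7) (nat_lit 1) (nat_lit 7) (nat_lit 85) (nat_lit 194) r7_85 r6_194 (nat_lit 0) (nat_lit 0) (nat_lit 0) (nat_lit 0x810efde94) (nat_lit 521774762),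
  Rx.mk (nat_lit 127) (nat_lit 7) (nat_lit 7) (nat_lit 1) (nat_lit 7) (nat_lit 87) (nat_lit 202) r7_87 r6_202 (nat_lit 0) (nat_lit 0) (nat_lit 0) (nat_lit 0x8017985b4) (nat_lit 536870912),
  Rx.mk (nat_lit 231) (nat_lit 7) (nat_lit 4) (nat_lit 3) (nat_lit 5) (nat_lit 80) (nat_lit 197) r7_80 r6_197 (nat_lit 0) (nat_lit 9429526) (nat_lit 0) (nat_lit 0x80843ba90) (nat_lit 539527188),
  Rx.mk (nat_lit 239) (nat_lit 7) (nat_lit 5) (nat_lit 3) (nat_lit 7) (nat_lit 83) (nat_lit 200) r7_83 r6_200 (nat_lit 0) (nat_lit 0) (nat_lit 0) (nat_lit 0x80e84372c) (nat_lit 524123412)]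
noncomputable def e25_11 : List Rx := [
  Rx.mk (nat_lit 59) (nat_lit 3) (nat_lit 7) (nat_lit 0) (nat_lit 3) (nat_lit 49) (nat_lit 105) r7_49 r5_105 (nat_lit 0) (nat_lit 0) (nat_lit 7182949) (nat_lit 0x7cac4e324) (nat_lit 598492961),
  Rx.mk (nat_lit 63) (nat_lit 7) (nat_lit 7) (nat_lit 0) (nat_lit 3) (nat_lit 50) (nat_lit 103) r7_50 r5_103 (nat_lit 0) (nat_lit 0) (nat_lit 19223735) (nat_lit 0x75d2c1c74) (nat_lit 721395547),
  Rx.mk (nat_lit 231) (nat_lit 7) (nat_lit 4) (nat_lit 3) (nat_lit 5) (nat_lit 48) (nat_lit 102) r7_48 r5_102 (nat_lit 0) (nat_lit 6601539) (nat_lit 0) (nat_lit 0x821cfef2e) (nat_lit 512046101),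
  Rx.mk (nat_lit 255) (nat_lit 7) (nat_lit 7) (nat_lit 3) (nat_lit 7) (nat_lit 51) (nat_lit 104) r7_51 r5_104 (nat_lit 0) (nat_lit 0) (nat_lit 0) (nat_lit 0x8017985b4) (nat_lit 536870912)]
noncomputable def e25_12 : List Rx := [
  Rx.mk (nat_lit 100) (nat_lit 4) (nat_lit 4) (nat_lit 1) (nat_lit 4) (nat_lit 217) (nat_lit 250) r7_217 r0_250 (nat_lit 18636919) (nat_lit 24992992) (nat_lit 0) (nat_lit 0x67a63621c) (nat_lit 974858673),
  Rx.mk (nat_lit 101) (nat_lit 5) (nat_lit 4) (nat_lit 1) (nat_lit 5) (nat_lit 218) (nat_lit 251) r7_218 r0_251 (nat_lit 0) (nat_lit 25925090) (nat_lit 0) (nat_lit 0x7f7ee0aba) (nat_lit 572200552),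
  Rx.mk (nat_lit 108) (nat_lit 4) (nat_lit 5) (nat_lit 1) (nat_lit 6) (nat_lit 219) (nat_lit 252) r7_219 r0_252 (nat_lit 26788272) (nat_lit 0) (nat_lit 0) (nat_lit 0x7afd29426) (nat_lit 645521784),
  Rx.mk (nat_lit 109) (nat_lit 5) (nat_lit 5) (nat_lit 1) (nat_lit 7) (nat_lit 220) (nat_lit 253) r7_220 r0_253 (nat_lit 0) (nat_lit 0) (nat_lit 0) (nat_lit 0x80170d2ac) (nat_lit 536874862)]
noncomputable def e25_13 : List Rx := [
  Rx.mk (nat_lit 100) (nat_lit 4) (nat_lit 4) (nat_lit 1) (nat_lit 4) (nat_lit 229) (nat_lit 229) r7_229 r7_229 (nat_lit 32713036) (nat_lit 32713036) (nat_lit 0) (nat_lit 0x69d5f62d4) (nat_lit 961393834),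
  Rx.mk (nat_lit 101) (nat_lit 5) (nat_lit 4) (nat_lit 1) (nat_lit 5) (nat_lit 231) (nat_lit 234) r7_231 r7_234 (nat_lit 0) (nat_lit 24741287) (nat_lit 0) (nat_lit 0x8017985b4) (nat_lit 561612199),
  Rx.mk (nat_lit 108) (nat_lit 4) (nat_lit 5) (nat_lit 1) (nat_lit 6) (nat_lit 234) (nat_lit 231) r7_234 r7_231 (nat_lit 24741287) (nat_lit 0) (nat_lit 0) (nat_lit 0x8017985b4) (nat_lit 561612199),
  Rx.mk (nat_lit 109) (nat_lit 5) (nat_lit 5) (nat_lit 1) (nat_lit 7) (nat_lit 236) (nat_lit 236) r7_236 r7_236 (nat_lit 0) (nat_lit 0) (nat_lit 0) (nat_lit 0x8017985b4) (nat_lit 536870912),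
  Rx.mk (nat_lit 356) (nat_lit 4) (nat_lit 4) (nat_lit 5) (nat_lit 4) (nat_lit 230) (nat_lit 230) r7_230 r7_230 (nat_lit 93243893) (nat_lit 93243893) (nat_lit 0) (nat_lit 0x6bd582bac) (nat_lit 1050182148),
  Rx.mk (nat_lit 357) (nat_lit 5) (nat_lit 4) (nat_lit 5) (nat_lit 5) (nat_lit 232) (nat_lit 235) r7_232 r7_235 (nat_lit 0) (nat_lit 26241675) (nat_lit 0) (nat_lit 0x7fe63006c) (nat_lit 566139187),
  Rx.mk (nat_lit 359) (nat_lit 7) (nat_lit 4) (nat_lit 5) (nat_lit 5) (nat_lit 233) (nat_lit 239) r7_233 r7_239 (nat_lit 0) (nat_lit 25127303) (nat_lit 0) (nat_lit 0x800ee0d22) (nat_lit 562531915),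
  Rx.mk (nat_lit 364) (nat_lit 4) (nat_lit 5) (nat_lit 5) (nat_lit 6) (nat_lit 235) (nat_lit 232) r7_235 r7_232 (nat_lit 26241675) (nat_lit 0) (nat_lit 0) (nat_lit 0x7fe63006c) (nat_lit 566139187),
  Rx.mk (nat_lit 365) (nat_lit 5) (nat_lit 5) (nat_lit 5) (nat_lit 7) (nat_lit 237) (nat_lit 237) r7_237 r7_237 (nat_lit 0) (nat_lit 0) (nat_lit 0) (nat_lit 0x8017985b4) (nat_lit 536870912),
  Rx.mk (nat_lit 367) (nat_lit 7) (nat_lit 5) (nat_lit 5) (nat_lit 7) (nat_lit 238) (nat_lit 240) r7_238 r7_240 (nat_lit 0) (nat_lit 0) (nat_lit 0) (nat_lit 0x8017985b4) (nat_lit 536870912),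
  Rx.mk (nat_lit 372) (nat_lit 4) (nat_lit 6) (nat_lit 5) (nat_lit 6) (nat_lit 239) (nat_lit 233) r7_239 r7_233 (nat_lit 25127303) (nat_lit 0) (nat_lit 0) (nat_lit 0x800ee0d22) (nat_lit 562531915),
  Rx.mk (nat_lit 373) (nat_lit 5) (nat_lit 6) (nat_lit 5) (nat_lit 7) (nat_lit 240) (nat_lit 238) r7_240 r7_238 (nat_lit 0) (nat_lit 0) (nat_lit 0) (nat_lit 0x8017985b4) (nat_lit 536870912)]
noncomputable def e25_14 : List Rx := [
  Rx.mk (nat_lit 101) (nat_lit 5) (nat_lit 4) (nat_lit 1) (nat_lit 5) (nat_lit 221) (nat_lit 256) r7_221 r1_256 (nat_lit 0) (nat_lit 24741287) (nat_lit 0) (nat_lit 0x8017985b4) (nat_lit 561612199),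
  Rx.mk (nat_lit 109) (nat_lit 5) (nat_lit 5) (nat_lit 1) (nat_lit 7) (nat_lit 222) (nat_lit 257) r7_222 r1_257 (nat_lit 0) (nat_lit 0) (nat_lit 0) (nat_lit 0x8017985b4) (nat_lit 536870912)]
noncomputable def e25_15 : List Rx := [
  Rx.mk (nat_lit 101) (nat_lit 5) (nat_lit 4) (nat_lit 1) (nat_lit 5) (nat_lit 241) (nat_lit 184) r7_241 r8_184 (nat_lit 0) (nat_lit 24741287) (nat_lit 0) (nat_lit 0x8017985b4) (nat_lit 561612199),
  Rx.mk (nat_lit 109) (nat_lit 5) (nat_lit 5) (nat_lit 1) (nat_lit 7) (nat_lit 243) (nat_lit 186) r7_243 r8_186 (nat_lit 0) (nat_lit 0) (nat_lit 0) (nat_lit 0x8017985b4) (nat_lit 536870912),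
  Rx.mk (nat_lit 357) (nat_lit 5) (nat_lit 4) (nat_lit 5) (nat_lit 5) (nat_lit 242) (nat_lit 185) r7_242 r8_185 (nat_lit 0) (nat_lit 25158612) (nat_lit 0) (nat_lit 0x7ffdc5b5a) (nat_lit 563608374),
  Rx.mk (nat_lit 365) (nat_lit 5) (nat_lit 5) (nat_lit 5) (nat_lit 7) (nat_lit 244) (nat_lit 187) r7_244 r8_187 (nat_lit 0) (nat_lit 0) (nat_lit 0) (nat_lit 0x8017985b4) (nat_lit 536870912),
  Rx.mk (nat_lit 373) (nat_lit 5) (nat_lit 6) (nat_lit 5) (nat_lit 7) (nat_lit 245) (nat_lit 188) r7_245 r8_188 (nat_lit 0) (nat_lit 0) (nat_lit 0) (nat_lit 0x8017985b4) (nat_lit 536870912)]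
noncomputable def e25_16 : List Rx := [
  Rx.mk (nat_lit 356) (nat_lit 4) (nat_lit 4) (nat_lit 5) (nat_lit 4) (nat_lit 246) (nat_lit 248) r7_246 r8_248 (nat_lit 69413824) (nat_lit 54887331) (nat_lit 0) (nat_lit 0x65c8453d2) (nat_lit 1085844417),
  Rx.mk (nat_lit 357) (nat_lit 5) (nat_lit 4) (nat_lit 5) (nat_lit 5) (nat_lit 247) (nat_lit 249) r7_247 r8_249 (nat_lit 0) (nat_lit 25009292) (nat_lit 0) (nat_lit 0x8011540e0) (nat_lit 562263654),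
  Rx.mk (nat_lit 359) (nat_lit 7) (nat_lit 4) (nat_lit 5) (nat_lit 5) (nat_lit 248) (nat_lit 250) r7_248 r8_250 (nat_lit 0) (nat_lit 24741287) (nat_lit 0) (nat_lit 0x8017985b4) (nat_lit 561612199),
  Rx.mk (nat_lit 364) (nat_lit 4) (nat_lit 5) (nat_lit 5) (nat_lit 6) (nat_lit 249) (nat_lit 251) r7_249 r8_251 (nat_lit 25521481) (nat_lit 0) (nat_lit 0) (nat_lit 0x8004c69ea) (nat_lit 563543143),
  Rx.mk (nat_lit 365) (nat_lit 5) (nat_lit 5) (nat_lit 5) (nat_lit 7) (nat_lit 250) (nat_lit 252) r7_250 r8_252 (nat_lit 0) (nat_lit 0) (nat_lit 0) (nat_lit 0x8017985b4) (nat_lit 536870912),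
  Rx.mk (nat_lit 367) (nat_lit 7) (nat_lit 5) (nat_lit 5) (nat_lit 7) (nat_lit 251) (nat_lit 253) r7_251 r8_253 (nat_lit 0) (nat_lit 0) (nat_lit 0) (nat_lit 0x8017985b4) (nat_lit 536870912),
  Rx.mk (nat_lit 372) (nat_lit 4) (nat_lit 6) (nat_lit 5) (nat_lit 6) (nat_lit 252) (nat_lit 254) r7_252 r8_254 (nat_lit 24625619) (nat_lit 0) (nat_lit 0) (nat_lit 0x800a04d3a) (nat_lit 562328731),
  Rx.mk (nat_lit 373) (nat_lit 5) (nat_lit 6) (nat_lit 5) (nat_lit 7) (nat_lit 253) (nat_lit 255) r7_253 r8_255 (nat_lit 0) (nat_lit 0) (nat_lit 0) (nat_lit 0x8017985b4) (nat_lit 536870912),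
  Rx.mk (nat_lit 374) (nat_lit 6) (nat_lit 6) (nat_lit 5) (nat_lit 7) (nat_lit 254) (nat_lit 256) r7_254 r8_256 (nat_lit 0) (nat_lit 0) (nat_lit 0) (nat_lit 0x8017985b4) (nat_lit 536870912)]
noncomputable def e25_17 : List Rx := [
  Rx.mk (nat_lit 292) (nat_lit 4) (nat_lit 4) (nat_lit 4) (nat_lit 0) (nat_lit 204) (nat_lit 170) r7_204 r9_170 (nat_lit 25638298) (nat_lit 19525038) (nat_lit 13837945) (nat_lit 0x3a3a221ac) (nat_lit 1724813643),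
  Rx.mk (nat_lit 295) (nat_lit 7) (nat_lit 4) (nat_lit 4) (nat_lit 1) (nat_lit 207) (nat_lit 176) r7_207 r9_176 (nat_lit 0) (nat_lit 22236043) (nat_lit 30412328) (nat_lit 0x6db23206a) (nat_lit 886234833),
  Rx.mk (nat_lit 308) (nat_lit 4) (nat_lit 6) (nat_lit 4) (nat_lit 2) (nat_lit 210) (nat_lit 172) r7_210 r9_172 (nat_lit 30361877) (nat_lit 0) (nat_lit 38278625) (nat_lit 0x697120ad0) (nat_lit 971010514),
  Rx.mk (nat_lit 310) (nat_lit 6) (nat_lit 6) (nat_lit 4) (nat_lit 3) (nat_lit 213) (nat_lit 180) r7_213 r9_180 (nat_lit 0) (nat_lit 0) (nat_lit 24741287) (nat_lit 0x8017985b4) (nat_lit 561612199),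
  Rx.mk (nat_lit 356) (nat_lit 4) (nat_lit 4) (nat_lit 5) (nat_lit 4) (nat_lit 205) (nat_lit 171) r7_205 r9_171 (nat_lit 50988633) (nat_lit 35325188) (nat_lit 0) (nat_lit 0x657b86a96) (nat_lit 1052706133),
  Rx.mk (nat_lit 357) (nat_lit 5) (nat_lit 4) (nat_lit 5) (nat_lit 5) (nat_lit 206) (nat_lit 174) r7_206 r9_174 (nat_lit 0) (nat_lit 24741287) (nat_lit 0) (nat_lit 0x8017985b4) (nat_lit 561612199),
  Rx.mk (nat_lit 359) (nat_lit 7) (nat_lit 4) (nat_lit 5) (nat_lit 5) (nat_lit 208) (nat_lit 177) r7_208 r9_177 (nat_lit 0) (nat_lit 24741287) (nat_lit 0) (nat_lit 0x8017985b4) (nat_lit 561612199),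
  Rx.mk (nat_lit 372) (nat_lit 4) (nat_lit 6) (nat_lit 5) (nat_lit 6) (nat_lit 211) (nat_lit 173) r7_211 r9_173 (nat_lit 24741287) (nat_lit 0) (nat_lit 0) (nat_lit 0x800c2759a) (nat_lit 562311049),
  Rx.mk (nat_lit 373) (nat_lit 5) (nat_lit 6) (nat_lit 5) (nat_lit 7) (nat_lit 212) (nat_lit 175) r7_212 r9_175 (nat_lit 0) (nat_lit 0) (nat_lit 0) (nat_lit 0x8017985b4) (nat_lit 536870912),
  Rx.mk (nat_lit 374) (nat_lit 6) (nat_lit 6) (nat_lit 5) (nat_lit 7) (nat_lit 214) (nat_lit 181) r7_214 r9_181 (nat_lit 0) (nat_lit 0) (nat_lit 0) (nat_lit 0x8017985b4) (nat_lit 536870912),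
  Rx.mk (nat_lit 438) (nat_lit 6) (nat_lit 6) (nat_lit 6) (nat_lit 7) (nat_lit 215) (nat_lit 182) r7_215 r9_182 (nat_lit 0) (nat_lit 0) (nat_lit 0) (nat_lit 0x8017985b4) (nat_lit 536870912),
  Rx.mk (nat_lit 487) (nat_lit 7) (nat_lit 4) (nat_lit 7) (nat_lit 5) (nat_lit 209) (nat_lit 178) r7_209 r9_178 (nat_lit 0) (nat_lit 24741287) (nat_lit 0) (nat_lit 0x8017985b4) (nat_lit 561612199),
  Rx.mk (nat_lit 511) (nat_lit 7) (nat_lit 7) (nat_lit 7) (nat_lit 7) (nat_lit 216) (nat_lit 179) r7_216 r9_179 (nat_lit 0) (nat_lit 0) (nat_lit 0) (nat_lit 0x8017985b4) (nat_lit 536870912)]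
noncomputable def e25_18 : List Rx := [
  Rx.mk (nat_lit 100) (nat_lit 4) (nat_lit 4) (nat_lit 1) (nat_lit 4) (nat_lit 223) (nat_lit 265) r7_223 r4_265 (nat_lit 51960859) (nat_lit 26363677) (nat_lit 0) (nat_lit 0x6eea423dc) (nat_lit 892140698),
  Rx.mk (nat_lit 101) (nat_lit 5) (nat_lit 4) (nat_lit 1) (nat_lit 5) (nat_lit 224) (nat_lit 266) r7_224 r4_266 (nat_lit 0) (nat_lit 24741287) (nat_lit 0) (nat_lit 0x8017985b4) (nat_lit 561612199),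
  Rx.mk (nat_lit 103) (nat_lit 7) (nat_lit 4) (nat_lit 1) (nat_lit 5) (nat_lit 225) (nat_lit 267) r7_225 r4_267 (nat_lit 0) (nat_lit 28981807) (nat_lit 0) (nat_lit 0x7fc4d7cda) (nat_lit 570932769),
  Rx.mk (nat_lit 108) (nat_lit 4) (nat_lit 5) (nat_lit 1) (nat_lit 6) (nat_lit 226) (nat_lit 268) r7_226 r4_268 (nat_lit 24741287) (nat_lit 0) (nat_lit 0) (nat_lit 0x8017985b4) (nat_lit 561612199),
  Rx.mk (nat_lit 109) (nat_lit 5) (nat_lit 5) (nat_lit 1) (nat_lit 7) (nat_lit 227) (nat_lit 269) r7_227 r4_269 (nat_lit 0) (nat_lit 0) (nat_lit 0) (nat_lit 0x8017985b4) (nat_lit 536870912),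
  Rx.mk (nat_lit 111) (nat_lit 7) (nat_lit 5) (nat_lit 1) (nat_lit 7) (nat_lit 228) (nat_lit 270) r7_228 r4_270 (nat_lit 0) (nat_lit 0) (nat_lit 0) (nat_lit 0x8017985b4) (nat_lit 536870912)]
noncomputable def e25_19 : List Rx := [
  Rx.mk (nat_lit 100) (nat_lit 4) (nat_lit 4) (nat_lit 1) (nat_lit 4) (nat_lit 255) (nat_lit 183) r7_255 r10_183 (nat_lit 23931749) (nat_lit 28712906) (nat_lit 0) (nat_lit 0x6a7e66ee6) (nat_lit 937964567),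
  Rx.mk (nat_lit 101) (nat_lit 5) (nat_lit 4) (nat_lit 1) (nat_lit 5) (nat_lit 256) (nat_lit 185) r7_256 r10_185 (nat_lit 0) (nat_lit 24741287) (nat_lit 0) (nat_lit 0x8017985b4) (nat_lit 561612199),
  Rx.mk (nat_lit 103) (nat_lit 7) (nat_lit 4) (nat_lit 1) (nat_lit 5) (nat_lit 257) (nat_lit 187) r7_257 r10_187 (nat_lit 0) (nat_lit 25691165) (nat_lit 0) (nat_lit 0x800112efc) (nat_lit 563939677),
  Rx.mk (nat_lit 108) (nat_lit 4) (nat_lit 5) (nat_lit 1) (nat_lit 6) (nat_lit 259) (nat_lit 184) r7_259 r10_184 (nat_lit 26205094) (nat_lit 0) (nat_lit 0) (nat_lit 0x7ff5adb5c) (nat_lit 565151456),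
  Rx.mk (nat_lit 109) (nat_lit 5) (nat_lit 5) (nat_lit 1) (nat_lit 7) (nat_lit 260) (nat_lit 186) r7_260 r10_186 (nat_lit 0) (nat_lit 0) (nat_lit 0) (nat_lit 0x8017985b4) (nat_lit 536870912),
  Rx.mk (nat_lit 111) (nat_lit 7) (nat_lit 5) (nat_lit 1) (nat_lit 7) (nat_lit 261) (nat_lit 189) r7_261 r10_189 (nat_lit 0) (nat_lit 0) (nat_lit 0) (nat_lit 0x8017985b4) (nat_lit 536870912),
  Rx.mk (nat_lit 359) (nat_lit 7) (nat_lit 4) (nat_lit 5) (nat_lit 5) (nat_lit 258) (nat_lit 188) r7_258 r10_188 (nat_lit 0) (nat_lit 25393500) (nat_lit 0) (nat_lit 0x7ffadf27e) (nat_lit 564019262),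
  Rx.mk (nat_lit 367) (nat_lit 7) (nat_lit 5) (nat_lit 5) (nat_lit 7) (nat_lit 262) (nat_lit 190) r7_262 r10_190 (nat_lit 0) (nat_lit 0) (nat_lit 0) (nat_lit 0x8017985b4) (nat_lit 536870912)]
noncomputable def e25_20 : List Rx := [
  Rx.mk (nat_lit 100) (nat_lit 4) (nat_lit 4) (nat_lit 1) (nat_lit 4) (nat_lit 263) (nat_lit 212) r7_263 r11_212 (nat_lit 107532607) (nat_lit 34414543) (nat_lit 0) (nat_lit 0x7c21f872e) (nat_lit 742207762),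
  Rx.mk (nat_lit 101) (nat_lit 5) (nat_lit 4) (nat_lit 1) (nat_lit 5) (nat_lit 264) (nat_lit 214) r7_264 r11_214 (nat_lit 0) (nat_lit 24741287) (nat_lit 0) (nat_lit 0x8017985b4) (nat_lit 561612199),
  Rx.mk (nat_lit 103) (nat_lit 7) (nat_lit 4) (nat_lit 1) (nat_lit 5) (nat_lit 265) (nat_lit 216) r7_265 r11_216 (nat_lit 0) (nat_lit 24741287) (nat_lit 0) (nat_lit 0x8017985b4) (nat_lit 561612199),
  Rx.mk (nat_lit 108) (nat_lit 4) (nat_lit 5) (nat_lit 1) (nat_lit 6) (nat_lit 266) (nat_lit 213) r7_266 r11_213 (nat_lit 24741287) (nat_lit 0) (nat_lit 0) (nat_lit 0x8017985b4) (nat_lit 561612199),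
  Rx.mk (nat_lit 109) (nat_lit 5) (nat_lit 5) (nat_lit 1) (nat_lit 7) (nat_lit 267) (nat_lit 215) r7_267 r11_215 (nat_lit 0) (nat_lit 0) (nat_lit 0) (nat_lit 0x8017985b4) (nat_lit 536870912),
  Rx.mk (nat_lit 111) (nat_lit 7) (nat_lit 5) (nat_lit 1) (nat_lit 7) (nat_lit 268) (nat_lit 217) r7_268 r11_217 (nat_lit 0) (nat_lit 0) (nat_lit 0) (nat_lit 0x8017985b4) (nat_lit 536870912),
  Rx.mk (nat_lit 127) (nat_lit 7) (nat_lit 7) (nat_lit 1) (nat_lit 7) (nat_lit 269) (nat_lit 218) r7_269 r11_218 (nat_lit 0) (nat_lit 0) (nat_lit 0) (nat_lit 0x8017985b4) (nat_lit 536870912)]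
noncomputable def e25_21 : List Rx := [
  Rx.mk (nat_lit 292) (nat_lit 4) (nat_lit 4) (nat_lit 4) (nat_lit 0) (nat_lit 161) (nat_lit 68) r7_161 r9_68 (nat_lit 53728367) (nat_lit 12174851) (nat_lit 12221267) (nat_lit 0x38c2f41c6) (nat_lit 1767626247),
  Rx.mk (nat_lit 295) (nat_lit 7) (nat_lit 4) (nat_lit 4) (nat_lit 1) (nat_lit 163) (nat_lit 70) r7_163 r9_70 (nat_lit 0) (nat_lit 23888514) (nat_lit 25388524) (nat_lit 0x66b5a08de) (nat_lit 995832150),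
  Rx.mk (nat_lit 308) (nat_lit 4) (nat_lit 6) (nat_lit 4) (nat_lit 2) (nat_lit 166) (nat_lit 74) r7_166 r9_74 (nat_lit 24913710) (nat_lit 0) (nat_lit 27374180) (nat_lit 0x629c47274) (nat_lit 1065121602),
  Rx.mk (nat_lit 310) (nat_lit 6) (nat_lit 6) (nat_lit 4) (nat_lit 3) (nat_lit 168) (nat_lit 79) r7_168 r9_79 (nat_lit 0) (nat_lit 0) (nat_lit 24741287) (nat_lit 0x7fe3cd14e) (nat_lit 564781099),
  Rx.mk (nat_lit 311) (nat_lit 7) (nat_lit 6) (nat_lit 4) (nat_lit 3) (nat_lit 171) (nat_lit 76) r7_171 r9_76 (nat_lit 0) (nat_lit 0) (nat_lit 24741287) (nat_lit 0x80064b5b8) (nat_lit 562671499),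
  Rx.mk (nat_lit 356) (nat_lit 4) (nat_lit 4) (nat_lit 5) (nat_lit 4) (nat_lit 162) (nat_lit 69) r7_162 r9_69 (nat_lit 49319051) (nat_lit 28898569) (nat_lit 0) (nat_lit 0x6539461d6) (nat_lit 1048798182),
  Rx.mk (nat_lit 359) (nat_lit 7) (nat_lit 4) (nat_lit 5) (nat_lit 5) (nat_lit 164) (nat_lit 71) r7_164 r9_71 (nat_lit 0) (nat_lit 24741287) (nat_lit 0) (nat_lit 0x7fff7117a) (nat_lit 563091449),
  Rx.mk (nat_lit 372) (nat_lit 4) (nat_lit 6) (nat_lit 5) (nat_lit 6) (nat_lit 167) (nat_lit 75) r7_167 r9_75 (nat_lit 24624079) (nat_lit 0) (nat_lit 0) (nat_lit 0x8009fe8fe) (nat_lit 562326791),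
  Rx.mk (nat_lit 374) (nat_lit 6) (nat_lit 6) (nat_lit 5) (nat_lit 7) (nat_lit 169) (nat_lit 80) r7_169 r9_80 (nat_lit 0) (nat_lit 0) (nat_lit 0) (nat_lit 0x8017985b4) (nat_lit 536870912),
  Rx.mk (nat_lit 375) (nat_lit 7) (nat_lit 6) (nat_lit 5) (nat_lit 7) (nat_lit 172) (nat_lit 77) r7_172 r9_77 (nat_lit 0) (nat_lit 0) (nat_lit 0) (nat_lit 0x8017985b4) (nat_lit 536870912),
  Rx.mk (nat_lit 406) (nat_lit 6) (nat_lit 2) (nat_lit 6) (nat_lit 7) (nat_lit 160) (nat_lit 82) r7_160 r9_82 (nat_lit 0) (nat_lit 0) (nat_lit 0) (nat_lit 0x8017985b4) (nat_lit 536870912),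
  Rx.mk (nat_lit 438) (nat_lit 6) (nat_lit 6) (nat_lit 6) (nat_lit 7) (nat_lit 170) (nat_lit 81) r7_170 r9_81 (nat_lit 0) (nat_lit 0) (nat_lit 0) (nat_lit 0x8017985b4) (nat_lit 536870912),
  Rx.mk (nat_lit 487) (nat_lit 7) (nat_lit 4) (nat_lit 7) (nat_lit 5) (nat_lit 165) (nat_lit 72) r7_165 r9_72 (nat_lit 0) (nat_lit 24741287) (nat_lit 0) (nat_lit 0x800788c14) (nat_lit 562595399),
  Rx.mk (nat_lit 503) (nat_lit 7) (nat_lit 6) (nat_lit 7) (nat_lit 7) (nat_lit 173) (nat_lit 78) r7_173 r9_78 (nat_lit 0) (nat_lit 0) (nat_lit 0) (nat_lit 0x8017985b4) (nat_lit 536870912),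
  Rx.mk (nat_lit 511) (nat_lit 7) (nat_lit 7) (nat_lit 7) (nat_lit 7) (nat_lit 174) (nat_lit 73) r7_174 r9_73 (nat_lit 0) (nat_lit 0) (nat_lit 0) (nat_lit 0x8017985b4) (nat_lit 536870912)]
noncomputable def e25_22 : List Rx := [
  Rx.mk (nat_lit 24) (nat_lit 0) (nat_lit 3) (nat_lit 0) (nat_lit 2) (nat_lit 96) (nat_lit 100) r7_96 r0_100 (nat_lit 46745449) (nat_lit 0) (nat_lit 31904360) (nat_lit 0x5c2702b54) (nat_lit 1195869321),
  Rx.mk (nat_lit 27) (nat_lit 3) (nat_lit 3) (nat_lit 0) (nat_lit 3) (nat_lit 99) (nat_lit 101) r7_99 r0_101 (nat_lit 0) (nat_lit 0) (nat_lit 15260325) (nat_lit 0x6e0d6284a) (nat_lit 843049387),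
  Rx.mk (nat_lit 128) (nat_lit 0) (nat_lit 0) (nat_lit 2) (nat_lit 4) (nat_lit 93) (nat_lit 105) r7_93 r0_105 (nat_lit 9373510) (nat_lit 4536926) (nat_lit 0) (nat_lit 0x680227486) (nat_lit 939230248),
  Rx.mk (nat_lit 130) (nat_lit 2) (nat_lit 0) (nat_lit 2) (nat_lit 5) (nat_lit 94) (nat_lit 108) r7_94 r0_108 (nat_lit 0) (nat_lit 24727622) (nat_lit 0) (nat_lit 0x7be4cbc66) (nat_lit 628839434),
  Rx.mk (nat_lit 146) (nat_lit 2) (nat_lit 2) (nat_lit 2) (nat_lit 7) (nat_lit 95) (nat_lit 110) r7_95 r0_110 (nat_lit 0) (nat_lit 0) (nat_lit 0) (nat_lit 0x8017985b4) (nat_lit 536870912),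
  Rx.mk (nat_lit 152) (nat_lit 0) (nat_lit 3) (nat_lit 2) (nat_lit 6) (nat_lit 97) (nat_lit 106) r7_97 r0_106 (nat_lit 73862049) (nat_lit 0) (nat_lit 0) (nat_lit 0x7d468cf26) (nat_lit 655662261),
  Rx.mk (nat_lit 154) (nat_lit 2) (nat_lit 3) (nat_lit 2) (nat_lit 7) (nat_lit 98) (nat_lit 109) r7_98 r0_109 (nat_lit 0) (nat_lit 0) (nat_lit 0) (nat_lit 0x7ff31a048) (nat_lit 539113112),
  Rx.mk (nat_lit 155) (nat_lit 3) (nat_lit 3) (nat_lit 2) (nat_lit 7) (nat_lit 100) (nat_lit 107) r7_100 r0_107 (nat_lit 0) (nat_lit 0) (nat_lit 0) (nat_lit 0x7fdfab7e6) (nat_lit 540283862),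
  Rx.mk (nat_lit 219) (nat_lit 3) (nat_lit 3) (nat_lit 3) (nat_lit 7) (nat_lit 101) (nat_lit 102) r7_101 r0_102 (nat_lit 0) (nat_lit 0) (nat_lit 0) (nat_lit 0x7dc623460) (nat_lit 573811562),
  Rx.mk (nat_lit 251) (nat_lit 3) (nat_lit 7) (nat_lit 3) (nat_lit 7) (nat_lit 102) (nat_lit 103) r7_102 r0_103 (nat_lit 0) (nat_lit 0) (nat_lit 0) (nat_lit 0x8017985b4) (nat_lit 536870912),
  Rx.mk (nat_lit 255) (nat_lit 7) (nat_lit 7) (nat_lit 3) (nat_lit 7) (nat_lit 103) (nat_lit 104) r7_103 r0_104 (nat_lit 0) (nat_lit 0) (nat_lit 0) (nat_lit 0x7ffe471c8) (nat_lit 538421712)]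
noncomputable def e25_23 : List Rx := [
  Rx.mk (nat_lit 0) (nat_lit 0) (nat_lit 0) (nat_lit 0) (nat_lit 0) (nat_lit 126) (nat_lit 107) r7_126 r1_107 (nat_lit 43642432) (nat_lit 6392816) (nat_lit 5821095) (nat_lit 0x44a1c92b0) (nat_lit 1553277655),
  Rx.mk (nat_lit 24) (nat_lit 0) (nat_lit 3) (nat_lit 0) (nat_lit 2) (nat_lit 130) (nat_lit 108) r7_130 r1_108 (nat_lit 78119258) (nat_lit 0) (nat_lit 35130887) (nat_lit 0x6d4852dd4) (nat_lit 953515857),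
  Rx.mk (nat_lit 27) (nat_lit 3) (nat_lit 3) (nat_lit 0) (nat_lit 3) (nat_lit 133) (nat_lit 109) r7_133 r1_109 (nat_lit 0) (nat_lit 0) (nat_lit 21790589) (nat_lit 0x7f1945f52) (nat_lit 574322851),
  Rx.mk (nat_lit 128) (nat_lit 0) (nat_lit 0) (nat_lit 2) (nat_lit 4) (nat_lit 127) (nat_lit 111) r7_127 r1_111 (nat_lit 24461115) (nat_lit 15973405) (nat_lit 0) (nat_lit 0x6bcc10498) (nat_lit 904689032),
  Rx.mk (nat_lit 130) (nat_lit 2) (nat_lit 0) (nat_lit 2) (nat_lit 5) (nat_lit 128) (nat_lit 114) r7_128 r1_114 (nat_lit 0) (nat_lit 16486043) (nat_lit 0) (nat_lit 0x7aed483a4) (nat_lit 636147005),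
  Rx.mk (nat_lit 146) (nat_lit 2) (nat_lit 2) (nat_lit 2) (nat_lit 7) (nat_lit 129) (nat_lit 116) r7_129 r1_116 (nat_lit 0) (nat_lit 0) (nat_lit 0) (nat_lit 0x8017985b4) (nat_lit 536870912),
  Rx.mk (nat_lit 152) (nat_lit 0) (nat_lit 3) (nat_lit 2) (nat_lit 6) (nat_lit 131) (nat_lit 112) r7_131 r1_112 (nat_lit 24618950) (nat_lit 0) (nat_lit 0) (nat_lit 0x80095eab6) (nat_lit 562360112),
  Rx.mk (nat_lit 154) (nat_lit 2) (nat_lit 3) (nat_lit 2) (nat_lit 7) (nat_lit 132) (nat_lit 115) r7_132 r1_115 (nat_lit 0) (nat_lit 0) (nat_lit 0) (nat_lit 0x8017985b4) (nat_lit 536870912),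
  Rx.mk (nat_lit 155) (nat_lit 3) (nat_lit 3) (nat_lit 2) (nat_lit 7) (nat_lit 134) (nat_lit 113) r7_134 r1_113 (nat_lit 0) (nat_lit 0) (nat_lit 0) (nat_lit 0x80538fe0a) (nat_lit 533186112),
  Rx.mk (nat_lit 219) (nat_lit 3) (nat_lit 3) (nat_lit 3) (nat_lit 7) (nat_lit 135) (nat_lit 110) r7_135 r1_110 (nat_lit 0) (nat_lit 0) (nat_lit 0) (nat_lit 0x8017985b4) (nat_lit 536870912)]
noncomputable def e25_24 : List Rx := [
  Rx.mk (nat_lit 24) (nat_lit 0) (nat_lit 3) (nat_lit 0) (nat_lit 2) (nat_lit 175) (nat_lit 98) r7_175 r4_98 (nat_lit 21615915) (nat_lit 0) (nat_lit 11303237) (nat_lit 0x68ed8d4d4) (nat_lit 943524414),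
  Rx.mk (nat_lit 27) (nat_lit 3) (nat_lit 3) (nat_lit 0) (nat_lit 3) (nat_lit 178) (nat_lit 99) r7_178 r4_99 (nat_lit 0) (nat_lit 0) (nat_lit 10576130) (nat_lit 0x7fd267c38) (nat_lit 551565342),
  Rx.mk (nat_lit 59) (nat_lit 3) (nat_lit 7) (nat_lit 0) (nat_lit 3) (nat_lit 181) (nat_lit 100) r7_181 r4_100 (nat_lit 0) (nat_lit 0) (nat_lit 17421724) (nat_lit 0x804c6a3e6) (nat_lit 551019636),
  Rx.mk (nat_lit 152) (nat_lit 0) (nat_lit 3) (nat_lit 2) (nat_lit 6) (nat_lit 176) (nat_lit 104) r7_176 r4_104 (nat_lit 32199586) (nat_lit 0) (nat_lit 0) (nat_lit 0x7deebd290) (nat_lit 603434298),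
  Rx.mk (nat_lit 154) (nat_lit 2) (nat_lit 3) (nat_lit 2) (nat_lit 7) (nat_lit 177) (nat_lit 106) r7_177 r4_106 (nat_lit 0) (nat_lit 0) (nat_lit 0) (nat_lit 0x8017985b4) (nat_lit 536870912),
  Rx.mk (nat_lit 155) (nat_lit 3) (nat_lit 3) (nat_lit 2) (nat_lit 7) (nat_lit 179) (nat_lit 105) r7_179 r4_105 (nat_lit 0) (nat_lit 0) (nat_lit 0) (nat_lit 0x80d93c616) (nat_lit 525035062),
  Rx.mk (nat_lit 231) (nat_lit 7) (nat_lit 4) (nat_lit 3) (nat_lit 5) (nat_lit 180) (nat_lit 102) r7_180 r4_102 (nat_lit 0) (nat_lit 15103995) (nat_lit 0) (nat_lit 0x808086120) (nat_lit 545531857),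
  Rx.mk (nat_lit 251) (nat_lit 3) (nat_lit 7) (nat_lit 3) (nat_lit 7) (nat_lit 182) (nat_lit 101) r7_182 r4_101 (nat_lit 0) (nat_lit 0) (nat_lit 0) (nat_lit 0x8017985b4) (nat_lit 536870912),
  Rx.mk (nat_lit 255) (nat_lit 7) (nat_lit 7) (nat_lit 3) (nat_lit 7) (nat_lit 183) (nat_lit 103) r7_183 r4_103 (nat_lit 0) (nat_lit 0) (nat_lit 0) (nat_lit 0x8017985b4) (nat_lit 536870912)]
noncomputable def e25_25 : List Rx := [
  Rx.mk (nat_lit 24) (nat_lit 0) (nat_lit 3) (nat_lit 0) (nat_lit 2) (nat_lit 109) (nat_lit 117) r7_109 r7_117 (nat_lit 2171094) (nat_lit 0) (nat_lit 1892156) (nat_lit 0x66d673f48) (nat_lit 948189812),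
  Rx.mk (nat_lit 27) (nat_lit 3) (nat_lit 3) (nat_lit 0) (nat_lit 3) (nat_lit 112) (nat_lit 119) r7_112 r7_119 (nat_lit 0) (nat_lit 0) (nat_lit 20653400) (nat_lit 0x7eba33c62) (nat_lit 579149912),
  Rx.mk (nat_lit 128) (nat_lit 0) (nat_lit 0) (nat_lit 2) (nat_lit 4) (nat_lit 104) (nat_lit 115) r7_104 r7_115 (nat_lit 2171094) (nat_lit 1892156) (nat_lit 0) (nat_lit 0x66d673f48) (nat_lit 948189812),
  Rx.mk (nat_lit 130) (nat_lit 2) (nat_lit 0) (nat_lit 2) (nat_lit 5) (nat_lit 105) (nat_lit 116) r7_105 r7_116 (nat_lit 0) (nat_lit 20653400) (nat_lit 0) (nat_lit 0x7eba33c62) (nat_lit 579149912),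
  Rx.mk (nat_lit 146) (nat_lit 2) (nat_lit 2) (nat_lit 2) (nat_lit 7) (nat_lit 106) (nat_lit 125) r7_106 r7_125 (nat_lit 0) (nat_lit 0) (nat_lit 0) (nat_lit 0x8017985b4) (nat_lit 536870912),
  Rx.mk (nat_lit 152) (nat_lit 0) (nat_lit 3) (nat_lit 2) (nat_lit 6) (nat_lit 110) (nat_lit 118) r7_110 r7_118 (nat_lit 27248611) (nat_lit 0) (nat_lit 0) (nat_lit 0x7eb81e31e) (nat_lit 585867273),
  Rx.mk (nat_lit 154) (nat_lit 2) (nat_lit 3) (nat_lit 2) (nat_lit 7) (nat_lit 111) (nat_lit 122) r7_111 r7_122 (nat_lit 0) (nat_lit 0) (nat_lit 0) (nat_lit 0x8017985b4) (nat_lit 536870912),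
  Rx.mk (nat_lit 155) (nat_lit 3) (nat_lit 3) (nat_lit 2) (nat_lit 7) (nat_lit 113) (nat_lit 121) r7_113 r7_121 (nat_lit 0) (nat_lit 0) (nat_lit 0) (nat_lit 0x8017985b4) (nat_lit 536870912),
  Rx.mk (nat_lit 219) (nat_lit 3) (nat_lit 3) (nat_lit 3) (nat_lit 7) (nat_lit 114) (nat_lit 120) r7_114 r7_120 (nat_lit 0) (nat_lit 0) (nat_lit 0) (nat_lit 0x8017985b4) (nat_lit 536870912),
  Rx.mk (nat_lit 251) (nat_lit 3) (nat_lit 7) (nat_lit 3) (nat_lit 7) (nat_lit 123) (nat_lit 108) r7_123 r7_108 (nat_lit 0) (nat_lit 0) (nat_lit 0) (nat_lit 0x8017985b4) (nat_lit 536870912),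
  Rx.mk (nat_lit 255) (nat_lit 7) (nat_lit 7) (nat_lit 3) (nat_lit 7) (nat_lit 124) (nat_lit 107) r7_124 r7_107 (nat_lit 0) (nat_lit 0) (nat_lit 0) (nat_lit 0x8017985b4) (nat_lit 536870912),
  Rx.mk (nat_lit 308) (nat_lit 4) (nat_lit 6) (nat_lit 4) (nat_lit 2) (nat_lit 117) (nat_lit 109) r7_117 r7_109 (nat_lit 2171094) (nat_lit 0) (nat_lit 1892156) (nat_lit 0x66d673f48) (nat_lit 948189812),
  Rx.mk (nat_lit 310) (nat_lit 6) (nat_lit 6) (nat_lit 4) (nat_lit 3) (nat_lit 119) (nat_lit 112) r7_119 r7_112 (nat_lit 0) (nat_lit 0) (nat_lit 20653400) (nat_lit 0x7eba33c62) (nat_lit 579149912),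
  Rx.mk (nat_lit 402) (nat_lit 2) (nat_lit 2) (nat_lit 6) (nat_lit 7) (nat_lit 107) (nat_lit 124) r7_107 r7_124 (nat_lit 0) (nat_lit 0) (nat_lit 0) (nat_lit 0x8017985b4) (nat_lit 536870912),
  Rx.mk (nat_lit 406) (nat_lit 6) (nat_lit 2) (nat_lit 6) (nat_lit 7) (nat_lit 108) (nat_lit 123) r7_108 r7_123 (nat_lit 0) (nat_lit 0) (nat_lit 0) (nat_lit 0x8017985b4) (nat_lit 536870912),
  Rx.mk (nat_lit 438) (nat_lit 6) (nat_lit 6) (nat_lit 6) (nat_lit 7) (nat_lit 120) (nat_lit 114) r7_120 r7_114 (nat_lit 0) (nat_lit 0) (nat_lit 0) (nat_lit 0x8017985b4) (nat_lit 536870912),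
  Rx.mk (nat_lit 484) (nat_lit 4) (nat_lit 4) (nat_lit 7) (nat_lit 4) (nat_lit 115) (nat_lit 104) r7_115 r7_104 (nat_lit 2171094) (nat_lit 1892156) (nat_lit 0) (nat_lit 0x66d673f48) (nat_lit 948189812),
  Rx.mk (nat_lit 487) (nat_lit 7) (nat_lit 4) (nat_lit 7) (nat_lit 5) (nat_lit 116) (nat_lit 105) r7_116 r7_105 (nat_lit 0) (nat_lit 20653400) (nat_lit 0) (nat_lit 0x7eba33c62) (nat_lit 579149912),
  Rx.mk (nat_lit 500) (nat_lit 4) (nat_lit 6) (nat_lit 7) (nat_lit 6) (nat_lit 118) (nat_lit 110) r7_118 r7_110 (nat_lit 27248611) (nat_lit 0) (nat_lit 0) (nat_lit 0x7eb81e31e) (nat_lit 585867273),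
  Rx.mk (nat_lit 502) (nat_lit 6) (nat_lit 6) (nat_lit 7) (nat_lit 7) (nat_lit 121) (nat_lit 113) r7_121 r7_113 (nat_lit 0) (nat_lit 0) (nat_lit 0) (nat_lit 0x8017985b4) (nat_lit 536870912),
  Rx.mk (nat_lit 503) (nat_lit 7) (nat_lit 6) (nat_lit 7) (nat_lit 7) (nat_lit 122) (nat_lit 111) r7_122 r7_111 (nat_lit 0) (nat_lit 0) (nat_lit 0) (nat_lit 0x8017985b4) (nat_lit 536870912),
  Rx.mk (nat_lit 511) (nat_lit 7) (nat_lit 7) (nat_lit 7) (nat_lit 7) (nat_lit 125) (nat_lit 106) r7_125 r7_106 (nat_lit 0) (nat_lit 0) (nat_lit 0) (nat_lit 0x8017985b4) (nat_lit 536870912)]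
noncomputable def e25_26 : List Rx := [
  Rx.mk (nat_lit 0) (nat_lit 0) (nat_lit 0) (nat_lit 0) (nat_lit 0) (nat_lit 136) (nat_lit 78) r7_136 r8_78 (nat_lit 26185611) (nat_lit 8960456) (nat_lit 8497828) (nat_lit 0x362c7667e) (nat_lit 1774947907),
  Rx.mk (nat_lit 24) (nat_lit 0) (nat_lit 3) (nat_lit 0) (nat_lit 2) (nat_lit 142) (nat_lit 81) r7_142 r8_81 (nat_lit 13633279) (nat_lit 0) (nat_lit 14186136) (nat_lit 0x6517ac3fe) (nat_lit 1000476627),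
  Rx.mk (nat_lit 27) (nat_lit 3) (nat_lit 3) (nat_lit 0) (nat_lit 3) (nat_lit 145) (nat_lit 83) r7_145 r8_83 (nat_lit 0) (nat_lit 0) (nat_lit 24741287) (nat_lit 0x7fe1901b0) (nat_lit 564922449),
  Rx.mk (nat_lit 128) (nat_lit 0) (nat_lit 0) (nat_lit 2) (nat_lit 4) (nat_lit 137) (nat_lit 79) r7_137 r8_79 (nat_lit 24651851) (nat_lit 24616168) (nat_lit 0) (nat_lit 0x5ff890ccc) (nat_lit 1104782931),
  Rx.mk (nat_lit 130) (nat_lit 2) (nat_lit 0) (nat_lit 2) (nat_lit 5) (nat_lit 138) (nat_lit 80) r7_138 r8_80 (nat_lit 0) (nat_lit 24741287) (nat_lit 0) (nat_lit 0x7ff6824a6) (nat_lit 563637099),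
  Rx.mk (nat_lit 146) (nat_lit 2) (nat_lit 2) (nat_lit 2) (nat_lit 7) (nat_lit 139) (nat_lit 89) r7_139 r8_89 (nat_lit 0) (nat_lit 0) (nat_lit 0) (nat_lit 0x8017985b4) (nat_lit 536870912),
  Rx.mk (nat_lit 152) (nat_lit 0) (nat_lit 3) (nat_lit 2) (nat_lit 6) (nat_lit 143) (nat_lit 82) r7_143 r8_82 (nat_lit 24741287) (nat_lit 0) (nat_lit 0) (nat_lit 0x7fe8e8d90) (nat_lit 564464999),
  Rx.mk (nat_lit 154) (nat_lit 2) (nat_lit 3) (nat_lit 2) (nat_lit 7) (nat_lit 144) (nat_lit 86) r7_144 r8_86 (nat_lit 0) (nat_lit 0) (nat_lit 0) (nat_lit 0x8017985b4) (nat_lit 536870912),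
  Rx.mk (nat_lit 155) (nat_lit 3) (nat_lit 3) (nat_lit 2) (nat_lit 7) (nat_lit 146) (nat_lit 85) r7_146 r8_85 (nat_lit 0) (nat_lit 0) (nat_lit 0) (nat_lit 0x8017985b4) (nat_lit 536870912),
  Rx.mk (nat_lit 219) (nat_lit 3) (nat_lit 3) (nat_lit 3) (nat_lit 7) (nat_lit 147) (nat_lit 84) r7_147 r8_84 (nat_lit 0) (nat_lit 0) (nat_lit 0) (nat_lit 0x8017985b4) (nat_lit 536870912),
  Rx.mk (nat_lit 402) (nat_lit 2) (nat_lit 2) (nat_lit 6) (nat_lit 7) (nat_lit 140) (nat_lit 88) r7_140 r8_88 (nat_lit 0) (nat_lit 0) (nat_lit 0) (nat_lit 0x8017985b4) (nat_lit 536870912),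
  Rx.mk (nat_lit 406) (nat_lit 6) (nat_lit 2) (nat_lit 6) (nat_lit 7) (nat_lit 141) (nat_lit 87) r7_141 r8_87 (nat_lit 0) (nat_lit 0) (nat_lit 0) (nat_lit 0x8017985b4) (nat_lit 536870912)]
noncomputable def e25_27 : List Rx := [
  Rx.mk (nat_lit 292) (nat_lit 4) (nat_lit 4) (nat_lit 4) (nat_lit 0) (nat_lit 150) (nat_lit 78) r7_150 r8_78 (nat_lit 26185611) (nat_lit 8497828) (nat_lit 8960456) (nat_lit 0x362c7667e) (nat_lit 1774947907),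
  Rx.mk (nat_lit 308) (nat_lit 4) (nat_lit 6) (nat_lit 4) (nat_lit 2) (nat_lit 153) (nat_lit 79) r7_153 r8_79 (nat_lit 24651851) (nat_lit 0) (nat_lit 24616168) (nat_lit 0x5ff890ccc) (nat_lit 1104782931),
  Rx.mk (nat_lit 310) (nat_lit 6) (nat_lit 6) (nat_lit 4) (nat_lit 3) (nat_lit 155) (nat_lit 80) r7_155 r8_80 (nat_lit 0) (nat_lit 0) (nat_lit 24741287) (nat_lit 0x7ff6824a6) (nat_lit 563637099),
  Rx.mk (nat_lit 402) (nat_lit 2) (nat_lit 2) (nat_lit 6) (nat_lit 7) (nat_lit 148) (nat_lit 87) r7_148 r8_87 (nat_lit 0) (nat_lit 0) (nat_lit 0) (nat_lit 0x8017985b4) (nat_lit 536870912),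
  Rx.mk (nat_lit 406) (nat_lit 6) (nat_lit 2) (nat_lit 6) (nat_lit 7) (nat_lit 149) (nat_lit 88) r7_149 r8_88 (nat_lit 0) (nat_lit 0) (nat_lit 0) (nat_lit 0x8017985b4) (nat_lit 536870912),
  Rx.mk (nat_lit 438) (nat_lit 6) (nat_lit 6) (nat_lit 6) (nat_lit 7) (nat_lit 156) (nat_lit 89) r7_156 r8_89 (nat_lit 0) (nat_lit 0) (nat_lit 0) (nat_lit 0x8017985b4) (nat_lit 536870912),
  Rx.mk (nat_lit 484) (nat_lit 4) (nat_lit 4) (nat_lit 7) (nat_lit 4) (nat_lit 151) (nat_lit 81) r7_151 r8_81 (nat_lit 13633279) (nat_lit 14186136) (nat_lit 0) (nat_lit 0x6517ac3fe) (nat_lit 1000476627),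
  Rx.mk (nat_lit 487) (nat_lit 7) (nat_lit 4) (nat_lit 7) (nat_lit 5) (nat_lit 152) (nat_lit 83) r7_152 r8_83 (nat_lit 0) (nat_lit 24741287) (nat_lit 0) (nat_lit 0x7fe1901b0) (nat_lit 564922449),
  Rx.mk (nat_lit 500) (nat_lit 4) (nat_lit 6) (nat_lit 7) (nat_lit 6) (nat_lit 154) (nat_lit 82) r7_154 r8_82 (nat_lit 24741287) (nat_lit 0) (nat_lit 0) (nat_lit 0x7fe8e8d90) (nat_lit 564464999),
  Rx.mk (nat_lit 502) (nat_lit 6) (nat_lit 6) (nat_lit 7) (nat_lit 7) (nat_lit 157) (nat_lit 86) r7_157 r8_86 (nat_lit 0) (nat_lit 0) (nat_lit 0) (nat_lit 0x8017985b4) (nat_lit 536870912),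
  Rx.mk (nat_lit 503) (nat_lit 7) (nat_lit 6) (nat_lit 7) (nat_lit 7) (nat_lit 158) (nat_lit 85) r7_158 r8_85 (nat_lit 0) (nat_lit 0) (nat_lit 0) (nat_lit 0x8017985b4) (nat_lit 536870912),
  Rx.mk (nat_lit 511) (nat_lit 7) (nat_lit 7) (nat_lit 7) (nat_lit 7) (nat_lit 159) (nat_lit 84) r7_159 r8_84 (nat_lit 0) (nat_lit 0) (nat_lit 0) (nat_lit 0x8017985b4) (nat_lit 536870912)]
noncomputable def e25_28 : List Rx := [
  Rx.mk (nat_lit 24) (nat_lit 0) (nat_lit 3) (nat_lit 0) (nat_lit 2) (nat_lit 184) (nat_lit 91) r7_184 r10_91 (nat_lit 2494455) (nat_lit 0) (nat_lit 2041025) (nat_lit 0x6a9b34cd0) (nat_lit 887706942),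
  Rx.mk (nat_lit 27) (nat_lit 3) (nat_lit 3) (nat_lit 0) (nat_lit 3) (nat_lit 187) (nat_lit 93) r7_187 r10_93 (nat_lit 0) (nat_lit 0) (nat_lit 21221230) (nat_lit 0x7ffecc166) (nat_lit 559591742),
  Rx.mk (nat_lit 59) (nat_lit 3) (nat_lit 7) (nat_lit 0) (nat_lit 3) (nat_lit 195) (nat_lit 86) r7_195 r10_86 (nat_lit 0) (nat_lit 0) (nat_lit 24741287) (nat_lit 0x7fd76a0e6) (nat_lit 565534799),
  Rx.mk (nat_lit 152) (nat_lit 0) (nat_lit 3) (nat_lit 2) (nat_lit 6) (nat_lit 185) (nat_lit 92) r7_185 r10_92 (nat_lit 24741287) (nat_lit 0) (nat_lit 0) (nat_lit 0x8017985b4) (nat_lit 561612199),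
  Rx.mk (nat_lit 154) (nat_lit 2) (nat_lit 3) (nat_lit 2) (nat_lit 7) (nat_lit 186) (nat_lit 95) r7_186 r10_95 (nat_lit 0) (nat_lit 0) (nat_lit 0) (nat_lit 0x8017985b4) (nat_lit 536870912),
  Rx.mk (nat_lit 155) (nat_lit 3) (nat_lit 3) (nat_lit 2) (nat_lit 7) (nat_lit 188) (nat_lit 94) r7_188 r10_94 (nat_lit 0) (nat_lit 0) (nat_lit 0) (nat_lit 0x8017985b4) (nat_lit 536870912),
  Rx.mk (nat_lit 231) (nat_lit 7) (nat_lit 4) (nat_lit 3) (nat_lit 5) (nat_lit 190) (nat_lit 84) r7_190 r10_84 (nat_lit 0) (nat_lit 24741287) (nat_lit 0) (nat_lit 0x7fd76a0e6) (nat_lit 565534799),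
  Rx.mk (nat_lit 251) (nat_lit 3) (nat_lit 7) (nat_lit 3) (nat_lit 7) (nat_lit 196) (nat_lit 87) r7_196 r10_87 (nat_lit 0) (nat_lit 0) (nat_lit 0) (nat_lit 0x8017985b4) (nat_lit 536870912),
  Rx.mk (nat_lit 255) (nat_lit 7) (nat_lit 7) (nat_lit 3) (nat_lit 7) (nat_lit 197) (nat_lit 85) r7_197 r10_85 (nat_lit 0) (nat_lit 0) (nat_lit 0) (nat_lit 0x8017985b4) (nat_lit 536870912),
  Rx.mk (nat_lit 484) (nat_lit 4) (nat_lit 4) (nat_lit 7) (nat_lit 4) (nat_lit 189) (nat_lit 82) r7_189 r10_82 (nat_lit 2494455) (nat_lit 2041025) (nat_lit 0) (nat_lit 0x6a9b34cd0) (nat_lit 887706942),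
  Rx.mk (nat_lit 487) (nat_lit 7) (nat_lit 4) (nat_lit 7) (nat_lit 5) (nat_lit 191) (nat_lit 83) r7_191 r10_83 (nat_lit 0) (nat_lit 21221230) (nat_lit 0) (nat_lit 0x7ffecc166) (nat_lit 559591742),
  Rx.mk (nat_lit 500) (nat_lit 4) (nat_lit 6) (nat_lit 7) (nat_lit 6) (nat_lit 192) (nat_lit 88) r7_192 r10_88 (nat_lit 24741287) (nat_lit 0) (nat_lit 0) (nat_lit 0x8017985b4) (nat_lit 561612199),
  Rx.mk (nat_lit 502) (nat_lit 6) (nat_lit 6) (nat_lit 7) (nat_lit 7) (nat_lit 193) (nat_lit 90) r7_193 r10_90 (nat_lit 0) (nat_lit 0) (nat_lit 0) (nat_lit 0x8017985b4) (nat_lit 536870912),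
  Rx.mk (nat_lit 503) (nat_lit 7) (nat_lit 6) (nat_lit 7) (nat_lit 7) (nat_lit 194) (nat_lit 89) r7_194 r10_89 (nat_lit 0) (nat_lit 0) (nat_lit 0) (nat_lit 0x8017985b4) (nat_lit 536870912)]
noncomputable def e25_29 : List Rx := [
  Rx.mk (nat_lit 27) (nat_lit 3) (nat_lit 3) (nat_lit 0) (nat_lit 3) (nat_lit 198) (nat_lit 105) r7_198 r11_105 (nat_lit 0) (nat_lit 0) (nat_lit 22333228) (nat_lit 0x7fea265d6) (nat_lit 561979440),
  Rx.mk (nat_lit 59) (nat_lit 3) (nat_lit 7) (nat_lit 0) (nat_lit 3) (nat_lit 201) (nat_lit 104) r7_201 r11_104 (nat_lit 0) (nat_lit 0) (nat_lit 24741287) (nat_lit 0x8017985b4) (nat_lit 561612199),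
  Rx.mk (nat_lit 63) (nat_lit 7) (nat_lit 7) (nat_lit 0) (nat_lit 3) (nat_lit 202) (nat_lit 102) r7_202 r11_102 (nat_lit 0) (nat_lit 0) (nat_lit 24836041) (nat_lit 0x800a5d2d2) (nat_lit 562522353),
  Rx.mk (nat_lit 155) (nat_lit 3) (nat_lit 3) (nat_lit 2) (nat_lit 7) (nat_lit 199) (nat_lit 106) r7_199 r11_106 (nat_lit 0) (nat_lit 0) (nat_lit 0) (nat_lit 0x8017985b4) (nat_lit 536870912),
  Rx.mk (nat_lit 231) (nat_lit 7) (nat_lit 4) (nat_lit 3) (nat_lit 5) (nat_lit 200) (nat_lit 101) r7_200 r11_101 (nat_lit 0) (nat_lit 24741287) (nat_lit 0) (nat_lit 0x8017985b4) (nat_lit 561612199),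
  Rx.mk (nat_lit 255) (nat_lit 7) (nat_lit 7) (nat_lit 3) (nat_lit 7) (nat_lit 203) (nat_lit 103) r7_203 r11_103 (nat_lit 0) (nat_lit 0) (nat_lit 0) (nat_lit 0x8017985b4) (nat_lit 536870912)]
noncomputable def e25_30 : List Rx := [
  Rx.mk (nat_lit 103) (nat_lit 7) (nat_lit 4) (nat_lit 1) (nat_lit 5) (nat_lit 286) (nat_lit 256) r7_286 r5_256 (nat_lit 0) (nat_lit 10453794) (nat_lit 0) (nat_lit 0x7f320ae16) (nat_lit 561328856),
  Rx.mk (nat_lit 111) (nat_lit 7) (nat_lit 5) (nat_lit 1) (nat_lit 7) (nat_lit 287) (nat_lit 257) r7_287 r5_257 (nat_lit 0) (nat_lit 0) (nat_lit 0) (nat_lit 0x811261be4) (nat_lit 521565112)]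
noncomputable def e25_31 : List Rx := [
  Rx.mk (nat_lit 103) (nat_lit 7) (nat_lit 4) (nat_lit 1) (nat_lit 5) (nat_lit 288) (nat_lit 306) r7_288 r11_306 (nat_lit 0) (nat_lit 19264518) (nat_lit 0) (nat_lit 0x8067c11ee) (nat_lit 551226430),
  Rx.mk (nat_lit 111) (nat_lit 7) (nat_lit 5) (nat_lit 1) (nat_lit 7) (nat_lit 290) (nat_lit 307) r7_290 r11_307 (nat_lit 0) (nat_lit 0) (nat_lit 0) (nat_lit 0x8017985b4) (nat_lit 536870912),
  Rx.mk (nat_lit 359) (nat_lit 7) (nat_lit 4) (nat_lit 5) (nat_lit 5) (nat_lit 289) (nat_lit 303) r7_289 r11_303 (nat_lit 0) (nat_lit 24741287) (nat_lit 0) (nat_lit 0x8017985b4) (nat_lit 561612199),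
  Rx.mk (nat_lit 367) (nat_lit 7) (nat_lit 5) (nat_lit 5) (nat_lit 7) (nat_lit 291) (nat_lit 304) r7_291 r11_304 (nat_lit 0) (nat_lit 0) (nat_lit 0) (nat_lit 0x8017985b4) (nat_lit 536870912),
  Rx.mk (nat_lit 375) (nat_lit 7) (nat_lit 6) (nat_lit 5) (nat_lit 7) (nat_lit 292) (nat_lit 305) r7_292 r11_305 (nat_lit 0) (nat_lit 0) (nat_lit 0) (nat_lit 0x8017985b4) (nat_lit 536870912)]
noncomputable def e25_32 : List Rx := [
  Rx.mk (nat_lit 35) (nat_lit 3) (nat_lit 4) (nat_lit 0) (nat_lit 1) (nat_lit 293) (nat_lit 195) r7_293 r6_195 (nat_lit 0) (nat_lit 3103288) (nat_lit 3417910) (nat_lit 0x6f0f18210) (nat_lit 817792160),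
  Rx.mk (nat_lit 43) (nat_lit 3) (nat_lit 5) (nat_lit 0) (nat_lit 3) (nat_lit 297) (nat_lit 196) r7_297 r6_196 (nat_lit 0) (nat_lit 0) (nat_lit 12588522) (nat_lit 0x8109aaa8c) (nat_lit 534683584),
  Rx.mk (nat_lit 59) (nat_lit 3) (nat_lit 7) (nat_lit 0) (nat_lit 3) (nat_lit 301) (nat_lit 197) r7_301 r6_197 (nat_lit 0) (nat_lit 0) (nat_lit 9429526) (nat_lit 0x80843ba90) (nat_lit 539527188),
  Rx.mk (nat_lit 99) (nat_lit 3) (nat_lit 4) (nat_lit 1) (nat_lit 5) (nat_lit 294) (nat_lit 198) r7_294 r6_198 (nat_lit 0) (nat_lit 10382740) (nat_lit 0) (nat_lit 0x817f374a8) (nat_lit 525372102),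
  Rx.mk (nat_lit 107) (nat_lit 3) (nat_lit 5) (nat_lit 1) (nat_lit 7) (nat_lit 298) (nat_lit 199) r7_298 r6_199 (nat_lit 0) (nat_lit 0) (nat_lit 0) (nat_lit 0x806259ae4) (nat_lit 532286612),
  Rx.mk (nat_lit 123) (nat_lit 3) (nat_lit 7) (nat_lit 1) (nat_lit 7) (nat_lit 302) (nat_lit 200) r7_302 r6_200 (nat_lit 0) (nat_lit 0) (nat_lit 0) (nat_lit 0x80e84372c) (nat_lit 524123412),
  Rx.mk (nat_lit 227) (nat_lit 3) (nat_lit 4) (nat_lit 3) (nat_lit 5) (nat_lit 295) (nat_lit 201) r7_295 r6_201 (nat_lit 0) (nat_lit 24741287) (nat_lit 0) (nat_lit 0x7f4e81a9a) (nat_lit 574017999),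
  Rx.mk (nat_lit 231) (nat_lit 7) (nat_lit 4) (nat_lit 3) (nat_lit 5) (nat_lit 296) (nat_lit 193) r7_296 r6_193 (nat_lit 0) (nat_lit 8290090) (nat_lit 0) (nat_lit 0x80c4482e6) (nat_lit 534483002),
  Rx.mk (nat_lit 235) (nat_lit 3) (nat_lit 5) (nat_lit 3) (nat_lit 7) (nat_lit 299) (nat_lit 202) r7_299 r6_202 (nat_lit 0) (nat_lit 0) (nat_lit 0) (nat_lit 0x8017985b4) (nat_lit 536870912),
  Rx.mk (nat_lit 239) (nat_lit 7) (nat_lit 5) (nat_lit 3) (nat_lit 7) (nat_lit 300) (nat_lit 194) r7_300 r6_194 (nat_lit 0) (nat_lit 0) (nat_lit 0) (nat_lit 0x810efde94) (nat_lit 521774762)]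
noncomputable def e25_33 : List Rx := [
  Rx.mk (nat_lit 59) (nat_lit 3) (nat_lit 7) (nat_lit 0) (nat_lit 3) (nat_lit 272) (nat_lit 102) r7_272 r5_102 (nat_lit 0) (nat_lit 0) (nat_lit 6601539) (nat_lit 0x821cfef2e) (nat_lit 512046101),
  Rx.mk (nat_lit 227) (nat_lit 3) (nat_lit 4) (nat_lit 3) (nat_lit 5) (nat_lit 270) (nat_lit 103) r7_270 r5_103 (nat_lit 0) (nat_lit 19223735) (nat_lit 0) (nat_lit 0x75d2c1c74) (nat_lit 721395547),
  Rx.mk (nat_lit 231) (nat_lit 7) (nat_lit 4) (nat_lit 3) (nat_lit 5) (nat_lit 271) (nat_lit 105) r7_271 r5_105 (nat_lit 0) (nat_lit 7182949) (nat_lit 0) (nat_lit 0x7cac4e324) (nat_lit 598492961),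
  Rx.mk (nat_lit 251) (nat_lit 3) (nat_lit 7) (nat_lit 3) (nat_lit 7) (nat_lit 273) (nat_lit 104) r7_273 r5_104 (nat_lit 0) (nat_lit 0) (nat_lit 0) (nat_lit 0x8017985b4) (nat_lit 536870912)]
noncomputable def e25_34 : List Rx := [
  Rx.mk (nat_lit 59) (nat_lit 3) (nat_lit 7) (nat_lit 0) (nat_lit 3) (nat_lit 278) (nat_lit 101) r7_278 r11_101 (nat_lit 0) (nat_lit 0) (nat_lit 24741287) (nat_lit 0x8017985b4) (nat_lit 561612199),
  Rx.mk (nat_lit 227) (nat_lit 3) (nat_lit 4) (nat_lit 3) (nat_lit 5) (nat_lit 274) (nat_lit 102) r7_274 r11_102 (nat_lit 0) (nat_lit 24836041) (nat_lit 0) (nat_lit 0x800a5d2d2) (nat_lit 562522353),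
  Rx.mk (nat_lit 231) (nat_lit 7) (nat_lit 4) (nat_lit 3) (nat_lit 5) (nat_lit 275) (nat_lit 104) r7_275 r11_104 (nat_lit 0) (nat_lit 24741287) (nat_lit 0) (nat_lit 0x8017985b4) (nat_lit 561612199),
  Rx.mk (nat_lit 251) (nat_lit 3) (nat_lit 7) (nat_lit 3) (nat_lit 7) (nat_lit 279) (nat_lit 103) r7_279 r11_103 (nat_lit 0) (nat_lit 0) (nat_lit 0) (nat_lit 0x8017985b4) (nat_lit 536870912),
  Rx.mk (nat_lit 487) (nat_lit 7) (nat_lit 4) (nat_lit 7) (nat_lit 5) (nat_lit 276) (nat_lit 105) r7_276 r11_105 (nat_lit 0) (nat_lit 22333228) (nat_lit 0) (nat_lit 0x7fea265d6) (nat_lit 561979440),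
  Rx.mk (nat_lit 503) (nat_lit 7) (nat_lit 6) (nat_lit 7) (nat_lit 7) (nat_lit 277) (nat_lit 106) r7_277 r11_106 (nat_lit 0) (nat_lit 0) (nat_lit 0) (nat_lit 0x8017985b4) (nat_lit 536870912)]
noncomputable def e25_35 : List Rx := [
  Rx.mk (nat_lit 43) (nat_lit 3) (nat_lit 5) (nat_lit 0) (nat_lit 3) (nat_lit 282) (nat_lit 282) r7_282 r6_282 (nat_lit 0) (nat_lit 0) (nat_lit 10459655) (nat_lit 0x80ee2cb7a) (nat_lit 534173067),
  Rx.mk (nat_lit 47) (nat_lit 7) (nat_lit 5) (nat_lit 0) (nat_lit 3) (nat_lit 284) (nat_lit 283) r7_284 r6_283 (nat_lit 0) (nat_lit 0) (nat_lit 8941730) (nat_lit 0x81ee95fca) (nat_lit 517221742),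
  Rx.mk (nat_lit 99) (nat_lit 3) (nat_lit 4) (nat_lit 1) (nat_lit 5) (nat_lit 280) (nat_lit 280) r7_280 r6_280 (nat_lit 0) (nat_lit 8941730) (nat_lit 0) (nat_lit 0x81ee95fca) (nat_lit 517221742),
  Rx.mk (nat_lit 103) (nat_lit 7) (nat_lit 4) (nat_lit 1) (nat_lit 5) (nat_lit 281) (nat_lit 281) r7_281 r6_281 (nat_lit 0) (nat_lit 10459655) (nat_lit 0) (nat_lit 0x80ee2cb7a) (nat_lit 534173067),
  Rx.mk (nat_lit 107) (nat_lit 3) (nat_lit 5) (nat_lit 1) (nat_lit 7) (nat_lit 283) (nat_lit 284) r7_283 r6_284 (nat_lit 0) (nat_lit 0) (nat_lit 0) (nat_lit 0x80830e500) (nat_lit 530283612),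
  Rx.mk (nat_lit 111) (nat_lit 7) (nat_lit 5) (nat_lit 1) (nat_lit 7) (nat_lit 285) (nat_lit 285) r7_285 r6_285 (nat_lit 0) (nat_lit 0) (nat_lit 0) (nat_lit 0x80830e500) (nat_lit 530283612)]
noncomputable def e25_36 : List Rx := [
  Rx.mk (nat_lit 35) (nat_lit 3) (nat_lit 4) (nat_lit 0) (nat_lit 1) (nat_lit 303) (nat_lit 191) r7_303 r12_191 (nat_lit 0) (nat_lit 1948491) (nat_lit 2071523) (nat_lit 0x725343702) (nat_lit 762393676),
  Rx.mk (nat_lit 39) (nat_lit 7) (nat_lit 4) (nat_lit 0) (nat_lit 1) (nat_lit 305) (nat_lit 197) r7_305 r12_197 (nat_lit 0) (nat_lit 2071523) (nat_lit 1948491) (nat_lit 0x725343702) (nat_lit 762393676),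
  Rx.mk (nat_lit 43) (nat_lit 3) (nat_lit 5) (nat_lit 0) (nat_lit 3) (nat_lit 308) (nat_lit 193) r7_308 r12_193 (nat_lit 0) (nat_lit 0) (nat_lit 8527156) (nat_lit 0x81695c1f6) (nat_lit 524761868),
  Rx.mk (nat_lit 47) (nat_lit 7) (nat_lit 5) (nat_lit 0) (nat_lit 3) (nat_lit 310) (nat_lit 200) r7_310 r12_200 (nat_lit 0) (nat_lit 0) (nat_lit 6531868) (nat_lit 0x84ddc88ac) (nat_lit 469895630),
  Rx.mk (nat_lit 59) (nat_lit 3) (nat_lit 7) (nat_lit 0) (nat_lit 3) (nat_lit 313) (nat_lit 195) r7_313 r12_195 (nat_lit 0) (nat_lit 0) (nat_lit 6800525) (nat_lit 0x808257a3a) (nat_lit 536924437),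
  Rx.mk (nat_lit 99) (nat_lit 3) (nat_lit 4) (nat_lit 1) (nat_lit 5) (nat_lit 304) (nat_lit 192) r7_304 r12_192 (nat_lit 0) (nat_lit 6531868) (nat_lit 0) (nat_lit 0x84ddc88ac) (nat_lit 469895630),
  Rx.mk (nat_lit 103) (nat_lit 7) (nat_lit 4) (nat_lit 1) (nat_lit 5) (nat_lit 306) (nat_lit 198) r7_306 r12_198 (nat_lit 0) (nat_lit 8527156) (nat_lit 0) (nat_lit 0x81695c1f6) (nat_lit 524761868),
  Rx.mk (nat_lit 107) (nat_lit 3) (nat_lit 5) (nat_lit 1) (nat_lit 7) (nat_lit 309) (nat_lit 194) r7_309 r12_194 (nat_lit 0) (nat_lit 0) (nat_lit 0) (nat_lit 0x80a647396) (nat_lit 528139662),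
  Rx.mk (nat_lit 111) (nat_lit 7) (nat_lit 5) (nat_lit 1) (nat_lit 7) (nat_lit 311) (nat_lit 201) r7_311 r12_201 (nat_lit 0) (nat_lit 0) (nat_lit 0) (nat_lit 0x80a647396) (nat_lit 528139662),
  Rx.mk (nat_lit 123) (nat_lit 3) (nat_lit 7) (nat_lit 1) (nat_lit 7) (nat_lit 314) (nat_lit 196) r7_314 r12_196 (nat_lit 0) (nat_lit 0) (nat_lit 0) (nat_lit 0x8167097d2) (nat_lit 516457412),
  Rx.mk (nat_lit 231) (nat_lit 7) (nat_lit 4) (nat_lit 3) (nat_lit 5) (nat_lit 307) (nat_lit 199) r7_307 r12_199 (nat_lit 0) (nat_lit 6800525) (nat_lit 0) (nat_lit 0x808257a3a) (nat_lit 536924437),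
  Rx.mk (nat_lit 239) (nat_lit 7) (nat_lit 5) (nat_lit 3) (nat_lit 7) (nat_lit 312) (nat_lit 202) r7_312 r12_202 (nat_lit 0) (nat_lit 0) (nat_lit 0) (nat_lit 0x8167097d2) (nat_lit 516457412)]
noncomputable def e25_37 : List Rx := [
  Rx.mk (nat_lit 8) (nat_lit 0) (nat_lit 1) (nat_lit 0) (nat_lit 2) (nat_lit 319) (nat_lit 178) r7_319 r0_178 (nat_lit 10270932) (nat_lit 0) (nat_lit 5394699) (nat_lit 0x5fa366a58) (nat_lit 1076368243),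
  Rx.mk (nat_lit 11) (nat_lit 3) (nat_lit 1) (nat_lit 0) (nat_lit 3) (nat_lit 322) (nat_lit 182) r7_322 r0_182 (nat_lit 0) (nat_lit 0) (nat_lit 7741900) (nat_lit 0x80bec9efa) (nat_lit 534261362),
  Rx.mk (nat_lit 40) (nat_lit 0) (nat_lit 5) (nat_lit 0) (nat_lit 2) (nat_lit 325) (nat_lit 177) r7_325 r0_177 (nat_lit 7378942) (nat_lit 0) (nat_lit 3400781) (nat_lit 0x545558bfa) (nat_lit 1254182035),
  Rx.mk (nat_lit 72) (nat_lit 0) (nat_lit 1) (nat_lit 1) (nat_lit 6) (nat_lit 320) (nat_lit 180) r7_320 r0_180 (nat_lit 23289893) (nat_lit 0) (nat_lit 0) (nat_lit 0x7d8545704) (nat_lit 601157455),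
  Rx.mk (nat_lit 75) (nat_lit 3) (nat_lit 1) (nat_lit 1) (nat_lit 7) (nat_lit 323) (nat_lit 183) r7_323 r0_183 (nat_lit 0) (nat_lit 0) (nat_lit 0) (nat_lit 0x80877ffc6) (nat_lit 529984012),
  Rx.mk (nat_lit 104) (nat_lit 0) (nat_lit 5) (nat_lit 1) (nat_lit 6) (nat_lit 326) (nat_lit 179) r7_326 r0_179 (nat_lit 10961872) (nat_lit 0) (nat_lit 0) (nat_lit 0x71abf8114) (nat_lit 780182384),
  Rx.mk (nat_lit 136) (nat_lit 0) (nat_lit 1) (nat_lit 2) (nat_lit 6) (nat_lit 321) (nat_lit 181) r7_321 r0_181 (nat_lit 39572657) (nat_lit 0) (nat_lit 0) (nat_lit 0x7fce955ba) (nat_lit 580469619),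
  Rx.mk (nat_lit 139) (nat_lit 3) (nat_lit 1) (nat_lit 2) (nat_lit 7) (nat_lit 324) (nat_lit 184) r7_324 r0_184 (nat_lit 0) (nat_lit 0) (nat_lit 0) (nat_lit 0x80b89b4d4) (nat_lit 527012662)]
noncomputable def e25_38 : List Rx := [
  Rx.mk (nat_lit 40) (nat_lit 0) (nat_lit 5) (nat_lit 0) (nat_lit 2) (nat_lit 315) (nat_lit 250) r7_315 r0_250 (nat_lit 18636919) (nat_lit 0) (nat_lit 24992992) (nat_lit 0x67a63621c) (nat_lit 974858673),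
  Rx.mk (nat_lit 41) (nat_lit 1) (nat_lit 5) (nat_lit 0) (nat_lit 3) (nat_lit 317) (nat_lit 251) r7_317 r0_251 (nat_lit 0) (nat_lit 0) (nat_lit 25925090) (nat_lit 0x7f7ee0aba) (nat_lit 572200552),
  Rx.mk (nat_lit 104) (nat_lit 0) (nat_lit 5) (nat_lit 1) (nat_lit 6) (nat_lit 316) (nat_lit 252) r7_316 r0_252 (nat_lit 26788272) (nat_lit 0) (nat_lit 0) (nat_lit 0x7afd29426) (nat_lit 645521784),
  Rx.mk (nat_lit 105) (nat_lit 1) (nat_lit 5) (nat_lit 1) (nat_lit 7) (nat_lit 318) (nat_lit 253) r7_318 r0_253 (nat_lit 0) (nat_lit 0) (nat_lit 0) (nat_lit 0x80170d2ac) (nat_lit 536874862)]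
noncomputable def e25_39 : List Rx := [
  Rx.mk (nat_lit 8) (nat_lit 0) (nat_lit 1) (nat_lit 0) (nat_lit 2) (nat_lit 327) (nat_lit 230) r7_327 r7_230 (nat_lit 93243893) (nat_lit 0) (nat_lit 93243893) (nat_lit 0x6bd582bac) (nat_lit 1050182148),
  Rx.mk (nat_lit 9) (nat_lit 1) (nat_lit 1) (nat_lit 0) (nat_lit 3) (nat_lit 330) (nat_lit 235) r7_330 r7_235 (nat_lit 0) (nat_lit 0) (nat_lit 26241675) (nat_lit 0x7fe63006c) (nat_lit 566139187),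
  Rx.mk (nat_lit 11) (nat_lit 3) (nat_lit 1) (nat_lit 0) (nat_lit 3) (nat_lit 333) (nat_lit 239) r7_333 r7_239 (nat_lit 0) (nat_lit 0) (nat_lit 25127303) (nat_lit 0x800ee0d22) (nat_lit 562531915),
  Rx.mk (nat_lit 40) (nat_lit 0) (nat_lit 5) (nat_lit 0) (nat_lit 2) (nat_lit 335) (nat_lit 229) r7_335 r7_229 (nat_lit 32713036) (nat_lit 0) (nat_lit 32713036) (nat_lit 0x69d5f62d4) (nat_lit 961393834),
  Rx.mk (nat_lit 41) (nat_lit 1) (nat_lit 5) (nat_lit 0) (nat_lit 3) (nat_lit 337) (nat_lit 234) r7_337 r7_234 (nat_lit 0) (nat_lit 0) (nat_lit 24741287) (nat_lit 0x8017985b4) (nat_lit 561612199),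
  Rx.mk (nat_lit 72) (nat_lit 0) (nat_lit 1) (nat_lit 1) (nat_lit 6) (nat_lit 328) (nat_lit 232) r7_328 r7_232 (nat_lit 26241675) (nat_lit 0) (nat_lit 0) (nat_lit 0x7fe63006c) (nat_lit 566139187),
  Rx.mk (nat_lit 73) (nat_lit 1) (nat_lit 1) (nat_lit 1) (nat_lit 7) (nat_lit 331) (nat_lit 237) r7_331 r7_237 (nat_lit 0) (nat_lit 0) (nat_lit 0) (nat_lit 0x8017985b4) (nat_lit 536870912),
  Rx.mk (nat_lit 75) (nat_lit 3) (nat_lit 1) (nat_lit 1) (nat_lit 7) (nat_lit 334) (nat_lit 240) r7_334 r7_240 (nat_lit 0) (nat_lit 0) (nat_lit 0) (nat_lit 0x8017985b4) (nat_lit 536870912),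
  Rx.mk (nat_lit 104) (nat_lit 0) (nat_lit 5) (nat_lit 1) (nat_lit 6) (nat_lit 336) (nat_lit 231) r7_336 r7_231 (nat_lit 24741287) (nat_lit 0) (nat_lit 0) (nat_lit 0x8017985b4) (nat_lit 561612199),
  Rx.mk (nat_lit 105) (nat_lit 1) (nat_lit 5) (nat_lit 1) (nat_lit 7) (nat_lit 338) (nat_lit 236) r7_338 r7_236 (nat_lit 0) (nat_lit 0) (nat_lit 0) (nat_lit 0x8017985b4) (nat_lit 536870912),
  Rx.mk (nat_lit 136) (nat_lit 0) (nat_lit 1) (nat_lit 2) (nat_lit 6) (nat_lit 329) (nat_lit 233) r7_329 r7_233 (nat_lit 25127303) (nat_lit 0) (nat_lit 0) (nat_lit 0x800ee0d22) (nat_lit 562531915),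
  Rx.mk (nat_lit 137) (nat_lit 1) (nat_lit 1) (nat_lit 2) (nat_lit 7) (nat_lit 332) (nat_lit 238) r7_332 r7_238 (nat_lit 0) (nat_lit 0) (nat_lit 0) (nat_lit 0x8017985b4) (nat_lit 536870912)]
noncomputable def e25_40 : List Rx := [
  Rx.mk (nat_lit 105) (nat_lit 1) (nat_lit 5) (nat_lit 1) (nat_lit 7) (nat_lit 399) (nat_lit 284) r7_399 r2_284 (nat_lit 0) (nat_lit 0) (nat_lit 0) (nat_lit 0x8017985b4) (nat_lit 536870912),
  Rx.mk (nat_lit 109) (nat_lit 5) (nat_lit 5) (nat_lit 1) (nat_lit 7) (nat_lit 400) (nat_lit 285) r7_400 r2_285 (nat_lit 0) (nat_lit 0) (nat_lit 0) (nat_lit 0x8017985b4) (nat_lit 536870912)]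
noncomputable def e25_41 : List Rx := [
  Rx.mk (nat_lit 73) (nat_lit 1) (nat_lit 1) (nat_lit 1) (nat_lit 7) (nat_lit 406) (nat_lit 257) r7_406 r9_257 (nat_lit 0) (nat_lit 0) (nat_lit 0) (nat_lit 0x8017985b4) (nat_lit 536870912),
  Rx.mk (nat_lit 105) (nat_lit 1) (nat_lit 5) (nat_lit 1) (nat_lit 7) (nat_lit 407) (nat_lit 258) r7_407 r9_258 (nat_lit 0) (nat_lit 0) (nat_lit 0) (nat_lit 0x8017985b4) (nat_lit 536870912),
  Rx.mk (nat_lit 109) (nat_lit 5) (nat_lit 5) (nat_lit 1) (nat_lit 7) (nat_lit 408) (nat_lit 259) r7_408 r9_259 (nat_lit 0) (nat_lit 0) (nat_lit 0) (nat_lit 0x8017985b4) (nat_lit 536870912)]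
noncomputable def e25_42 : List Rx := [
  Rx.mk (nat_lit 105) (nat_lit 1) (nat_lit 5) (nat_lit 1) (nat_lit 7) (nat_lit 409) (nat_lit 259) r7_409 r9_259 (nat_lit 0) (nat_lit 0) (nat_lit 0) (nat_lit 0x8017985b4) (nat_lit 536870912),
  Rx.mk (nat_lit 109) (nat_lit 5) (nat_lit 5) (nat_lit 1) (nat_lit 7) (nat_lit 410) (nat_lit 258) r7_410 r9_258 (nat_lit 0) (nat_lit 0) (nat_lit 0) (nat_lit 0x8017985b4) (nat_lit 536870912),
  Rx.mk (nat_lit 365) (nat_lit 5) (nat_lit 5) (nat_lit 5) (nat_lit 7) (nat_lit 411) (nat_lit 257) r7_411 r9_257 (nat_lit 0) (nat_lit 0) (nat_lit 0) (nat_lit 0x8017985b4) (nat_lit 536870912)]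
noncomputable def e25_43 : List Rx := [
  Rx.mk (nat_lit 41) (nat_lit 1) (nat_lit 5) (nat_lit 0) (nat_lit 3) (nat_lit 397) (nat_lit 256) r7_397 r1_256 (nat_lit 0) (nat_lit 0) (nat_lit 24741287) (nat_lit 0x8017985b4) (nat_lit 561612199),
  Rx.mk (nat_lit 105) (nat_lit 1) (nat_lit 5) (nat_lit 1) (nat_lit 7) (nat_lit 398) (nat_lit 257) r7_398 r1_257 (nat_lit 0) (nat_lit 0) (nat_lit 0) (nat_lit 0x8017985b4) (nat_lit 536870912)]
noncomputable def e25_44 : List Rx := [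
  Rx.mk (nat_lit 9) (nat_lit 1) (nat_lit 1) (nat_lit 0) (nat_lit 3) (nat_lit 401) (nat_lit 185) r7_401 r8_185 (nat_lit 0) (nat_lit 0) (nat_lit 25158612) (nat_lit 0x7ffdc5b5a) (nat_lit 563608374),
  Rx.mk (nat_lit 41) (nat_lit 1) (nat_lit 5) (nat_lit 0) (nat_lit 3) (nat_lit 404) (nat_lit 184) r7_404 r8_184 (nat_lit 0) (nat_lit 0) (nat_lit 24741287) (nat_lit 0x8017985b4) (nat_lit 561612199),
  Rx.mk (nat_lit 73) (nat_lit 1) (nat_lit 1) (nat_lit 1) (nat_lit 7) (nat_lit 402) (nat_lit 187) r7_402 r8_187 (nat_lit 0) (nat_lit 0) (nat_lit 0) (nat_lit 0x8017985b4) (nat_lit 536870912),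
  Rx.mk (nat_lit 105) (nat_lit 1) (nat_lit 5) (nat_lit 1) (nat_lit 7) (nat_lit 405) (nat_lit 186) r7_405 r8_186 (nat_lit 0) (nat_lit 0) (nat_lit 0) (nat_lit 0x8017985b4) (nat_lit 536870912),
  Rx.mk (nat_lit 137) (nat_lit 1) (nat_lit 1) (nat_lit 2) (nat_lit 7) (nat_lit 403) (nat_lit 188) r7_403 r8_188 (nat_lit 0) (nat_lit 0) (nat_lit 0) (nat_lit 0x8017985b4) (nat_lit 536870912)]
noncomputable def e25_45 : List Rx := [
  Rx.mk (nat_lit 8) (nat_lit 0) (nat_lit 1) (nat_lit 0) (nat_lit 2) (nat_lit 381) (nat_lit 192) r7_381 r1_192 (nat_lit 25112477) (nat_lit 0) (nat_lit 16757287) (nat_lit 0x6c3762d4a) (nat_lit 899304226),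
  Rx.mk (nat_lit 11) (nat_lit 3) (nat_lit 1) (nat_lit 0) (nat_lit 3) (nat_lit 385) (nat_lit 195) r7_385 r1_195 (nat_lit 0) (nat_lit 0) (nat_lit 19851321) (nat_lit 0x80224bf92) (nat_lit 556043533),
  Rx.mk (nat_lit 72) (nat_lit 0) (nat_lit 1) (nat_lit 1) (nat_lit 6) (nat_lit 382) (nat_lit 193) r7_382 r1_193 (nat_lit 25314926) (nat_lit 0) (nat_lit 0) (nat_lit 0x7f9e34eca) (nat_lit 569620288),
  Rx.mk (nat_lit 75) (nat_lit 3) (nat_lit 1) (nat_lit 1) (nat_lit 7) (nat_lit 386) (nat_lit 196) r7_386 r1_196 (nat_lit 0) (nat_lit 0) (nat_lit 0) (nat_lit 0x8017985b4) (nat_lit 536870912),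
  Rx.mk (nat_lit 136) (nat_lit 0) (nat_lit 1) (nat_lit 2) (nat_lit 6) (nat_lit 383) (nat_lit 194) r7_383 r1_194 (nat_lit 30395325) (nat_lit 0) (nat_lit 0) (nat_lit 0x809096c2c) (nat_lit 559824137),
  Rx.mk (nat_lit 138) (nat_lit 2) (nat_lit 1) (nat_lit 2) (nat_lit 7) (nat_lit 384) (nat_lit 198) r7_384 r1_198 (nat_lit 0) (nat_lit 0) (nat_lit 0) (nat_lit 0x8018dbc28) (nat_lit 536671062),
  Rx.mk (nat_lit 139) (nat_lit 3) (nat_lit 1) (nat_lit 2) (nat_lit 7) (nat_lit 387) (nat_lit 197) r7_387 r1_197 (nat_lit 0) (nat_lit 0) (nat_lit 0) (nat_lit 0x8017985b4) (nat_lit 536870912)]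
noncomputable def e25_46 : List Rx := [
  Rx.mk (nat_lit 0) (nat_lit 0) (nat_lit 0) (nat_lit 0) (nat_lit 0) (nat_lit 339) (nat_lit 189) r7_339 r2_189 (nat_lit 3422726) (nat_lit 2611593) (nat_lit 2362318) (nat_lit 0x3ce06297a) (nat_lit 1631121799),
  Rx.mk (nat_lit 3) (nat_lit 3) (nat_lit 0) (nat_lit 0) (nat_lit 1) (nat_lit 342) (nat_lit 193) r7_342 r2_193 (nat_lit 0) (nat_lit 15431888) (nat_lit 12919491) (nat_lit 0x6872d6740) (nat_lit 946738841),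
  Rx.mk (nat_lit 8) (nat_lit 0) (nat_lit 1) (nat_lit 0) (nat_lit 2) (nat_lit 344) (nat_lit 190) r7_344 r2_190 (nat_lit 55381709) (nat_lit 0) (nat_lit 33242310) (nat_lit 0x6310bfaca) (nat_lit 1094102531),
  Rx.mk (nat_lit 11) (nat_lit 3) (nat_lit 1) (nat_lit 0) (nat_lit 3) (nat_lit 347) (nat_lit 194) r7_347 r2_194 (nat_lit 0) (nat_lit 0) (nat_lit 25208910) (nat_lit 0x800becfd0) (nat_lit 562792922),
  Rx.mk (nat_lit 27) (nat_lit 3) (nat_lit 3) (nat_lit 0) (nat_lit 3) (nat_lit 350) (nat_lit 195) r7_350 r2_195 (nat_lit 0) (nat_lit 0) (nat_lit 24741287) (nat_lit 0x800c2469c) (nat_lit 562313099),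
  Rx.mk (nat_lit 128) (nat_lit 0) (nat_lit 0) (nat_lit 2) (nat_lit 4) (nat_lit 340) (nat_lit 191) r7_340 r2_191 (nat_lit 15429794) (nat_lit 17983786) (nat_lit 0) (nat_lit 0x642450a34) (nat_lit 1021437892),
  Rx.mk (nat_lit 130) (nat_lit 2) (nat_lit 0) (nat_lit 2) (nat_lit 5) (nat_lit 341) (nat_lit 200) r7_341 r2_200 (nat_lit 0) (nat_lit 24741287) (nat_lit 0) (nat_lit 0x7ffac5806) (nat_lit 563378349),
  Rx.mk (nat_lit 131) (nat_lit 3) (nat_lit 0) (nat_lit 2) (nat_lit 5) (nat_lit 343) (nat_lit 197) r7_343 r2_197 (nat_lit 0) (nat_lit 24741287) (nat_lit 0) (nat_lit 0x800bf9d8e) (nat_lit 562322849),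
  Rx.mk (nat_lit 136) (nat_lit 0) (nat_lit 1) (nat_lit 2) (nat_lit 6) (nat_lit 345) (nat_lit 192) r7_345 r2_192 (nat_lit 24741287) (nat_lit 0) (nat_lit 0) (nat_lit 0x800c30b36) (nat_lit 562309299),
  Rx.mk (nat_lit 138) (nat_lit 2) (nat_lit 1) (nat_lit 2) (nat_lit 7) (nat_lit 346) (nat_lit 201) r7_346 r2_201 (nat_lit 0) (nat_lit 0) (nat_lit 0) (nat_lit 0x8017985b4) (nat_lit 536870912),
  Rx.mk (nat_lit 139) (nat_lit 3) (nat_lit 1) (nat_lit 2) (nat_lit 7) (nat_lit 348) (nat_lit 198) r7_348 r2_198 (nat_lit 0) (nat_lit 0) (nat_lit 0) (nat_lit 0x8017985b4) (nat_lit 536870912),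
  Rx.mk (nat_lit 146) (nat_lit 2) (nat_lit 2) (nat_lit 2) (nat_lit 7) (nat_lit 349) (nat_lit 202) r7_349 r2_202 (nat_lit 0) (nat_lit 0) (nat_lit 0) (nat_lit 0x8017985b4) (nat_lit 536870912),
  Rx.mk (nat_lit 155) (nat_lit 3) (nat_lit 3) (nat_lit 2) (nat_lit 7) (nat_lit 351) (nat_lit 199) r7_351 r2_199 (nat_lit 0) (nat_lit 0) (nat_lit 0) (nat_lit 0x8017985b4) (nat_lit 536870912),
  Rx.mk (nat_lit 219) (nat_lit 3) (nat_lit 3) (nat_lit 3) (nat_lit 7) (nat_lit 352) (nat_lit 196) r7_352 r2_196 (nat_lit 0) (nat_lit 0) (nat_lit 0) (nat_lit 0x8017985b4) (nat_lit 536870912)]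
noncomputable def e25_47 : List Rx := [
  Rx.mk (nat_lit 8) (nat_lit 0) (nat_lit 1) (nat_lit 0) (nat_lit 2) (nat_lit 388) (nat_lit 248) r7_388 r8_248 (nat_lit 69413824) (nat_lit 0) (nat_lit 54887331) (nat_lit 0x65c8453d2) (nat_lit 1085844417),
  Rx.mk (nat_lit 9) (nat_lit 1) (nat_lit 1) (nat_lit 0) (nat_lit 3) (nat_lit 391) (nat_lit 249) r7_391 r8_249 (nat_lit 0) (nat_lit 0) (nat_lit 25009292) (nat_lit 0x8011540e0) (nat_lit 562263654),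
  Rx.mk (nat_lit 11) (nat_lit 3) (nat_lit 1) (nat_lit 0) (nat_lit 3) (nat_lit 395) (nat_lit 250) r7_395 r8_250 (nat_lit 0) (nat_lit 0) (nat_lit 24741287) (nat_lit 0x8017985b4) (nat_lit 561612199),
  Rx.mk (nat_lit 72) (nat_lit 0) (nat_lit 1) (nat_lit 1) (nat_lit 6) (nat_lit 389) (nat_lit 251) r7_389 r8_251 (nat_lit 25521481) (nat_lit 0) (nat_lit 0) (nat_lit 0x8004c69ea) (nat_lit 563543143),
  Rx.mk (nat_lit 73) (nat_lit 1) (nat_lit 1) (nat_lit 1) (nat_lit 7) (nat_lit 392) (nat_lit 252) r7_392 r8_252 (nat_lit 0) (nat_lit 0) (nat_lit 0) (nat_lit 0x8017985b4) (nat_lit 536870912),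
  Rx.mk (nat_lit 75) (nat_lit 3) (nat_lit 1) (nat_lit 1) (nat_lit 7) (nat_lit 396) (nat_lit 253) r7_396 r8_253 (nat_lit 0) (nat_lit 0) (nat_lit 0) (nat_lit 0x8017985b4) (nat_lit 536870912),
  Rx.mk (nat_lit 136) (nat_lit 0) (nat_lit 1) (nat_lit 2) (nat_lit 6) (nat_lit 390) (nat_lit 254) r7_390 r8_254 (nat_lit 24625619) (nat_lit 0) (nat_lit 0) (nat_lit 0x800a04d3a) (nat_lit 562328731),
  Rx.mk (nat_lit 137) (nat_lit 1) (nat_lit 1) (nat_lit 2) (nat_lit 7) (nat_lit 393) (nat_lit 255) r7_393 r8_255 (nat_lit 0) (nat_lit 0) (nat_lit 0) (nat_lit 0x8017985b4) (nat_lit 536870912),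
  Rx.mk (nat_lit 138) (nat_lit 2) (nat_lit 1) (nat_lit 2) (nat_lit 7) (nat_lit 394) (nat_lit 256) r7_394 r8_256 (nat_lit 0) (nat_lit 0) (nat_lit 0) (nat_lit 0x8017985b4) (nat_lit 536870912)]
noncomputable def e25_48 : List Rx := [
  Rx.mk (nat_lit 0) (nat_lit 0) (nat_lit 0) (nat_lit 0) (nat_lit 0) (nat_lit 353) (nat_lit 170) r7_353 r9_170 (nat_lit 25638298) (nat_lit 13837945) (nat_lit 19525038) (nat_lit 0x3a3a221ac) (nat_lit 1724813643),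
  Rx.mk (nat_lit 3) (nat_lit 3) (nat_lit 0) (nat_lit 0) (nat_lit 1) (nat_lit 356) (nat_lit 176) r7_356 r9_176 (nat_lit 0) (nat_lit 30412328) (nat_lit 22236043) (nat_lit 0x6db23206a) (nat_lit 886234833),
  Rx.mk (nat_lit 8) (nat_lit 0) (nat_lit 1) (nat_lit 0) (nat_lit 2) (nat_lit 357) (nat_lit 171) r7_357 r9_171 (nat_lit 50988633) (nat_lit 0) (nat_lit 35325188) (nat_lit 0x657b86a96) (nat_lit 1052706133),
  Rx.mk (nat_lit 9) (nat_lit 1) (nat_lit 1) (nat_lit 0) (nat_lit 3) (nat_lit 359) (nat_lit 174) r7_359 r9_174 (nat_lit 0) (nat_lit 0) (nat_lit 24741287) (nat_lit 0x8017985b4) (nat_lit 561612199),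
  Rx.mk (nat_lit 11) (nat_lit 3) (nat_lit 1) (nat_lit 0) (nat_lit 3) (nat_lit 362) (nat_lit 177) r7_362 r9_177 (nat_lit 0) (nat_lit 0) (nat_lit 24741287) (nat_lit 0x8017985b4) (nat_lit 561612199),
  Rx.mk (nat_lit 27) (nat_lit 3) (nat_lit 3) (nat_lit 0) (nat_lit 3) (nat_lit 364) (nat_lit 178) r7_364 r9_178 (nat_lit 0) (nat_lit 0) (nat_lit 24741287) (nat_lit 0x8017985b4) (nat_lit 561612199),
  Rx.mk (nat_lit 128) (nat_lit 0) (nat_lit 0) (nat_lit 2) (nat_lit 4) (nat_lit 354) (nat_lit 172) r7_354 r9_172 (nat_lit 30361877) (nat_lit 38278625) (nat_lit 0) (nat_lit 0x697120ad0) (nat_lit 971010514),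
  Rx.mk (nat_lit 130) (nat_lit 2) (nat_lit 0) (nat_lit 2) (nat_lit 5) (nat_lit 355) (nat_lit 180) r7_355 r9_180 (nat_lit 0) (nat_lit 24741287) (nat_lit 0) (nat_lit 0x8017985b4) (nat_lit 561612199),
  Rx.mk (nat_lit 136) (nat_lit 0) (nat_lit 1) (nat_lit 2) (nat_lit 6) (nat_lit 358) (nat_lit 173) r7_358 r9_173 (nat_lit 24741287) (nat_lit 0) (nat_lit 0) (nat_lit 0x800c2759a) (nat_lit 562311049),
  Rx.mk (nat_lit 137) (nat_lit 1) (nat_lit 1) (nat_lit 2) (nat_lit 7) (nat_lit 360) (nat_lit 175) r7_360 r9_175 (nat_lit 0) (nat_lit 0) (nat_lit 0) (nat_lit 0x8017985b4) (nat_lit 536870912),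
  Rx.mk (nat_lit 138) (nat_lit 2) (nat_lit 1) (nat_lit 2) (nat_lit 7) (nat_lit 361) (nat_lit 181) r7_361 r9_181 (nat_lit 0) (nat_lit 0) (nat_lit 0) (nat_lit 0x8017985b4) (nat_lit 536870912),
  Rx.mk (nat_lit 146) (nat_lit 2) (nat_lit 2) (nat_lit 2) (nat_lit 7) (nat_lit 363) (nat_lit 182) r7_363 r9_182 (nat_lit 0) (nat_lit 0) (nat_lit 0) (nat_lit 0x8017985b4) (nat_lit 536870912),
  Rx.mk (nat_lit 219) (nat_lit 3) (nat_lit 3) (nat_lit 3) (nat_lit 7) (nat_lit 365) (nat_lit 179) r7_365 r9_179 (nat_lit 0) (nat_lit 0) (nat_lit 0) (nat_lit 0x8017985b4) (nat_lit 536870912)]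
noncomputable def e25_49 : List Rx := [
  Rx.mk (nat_lit 0) (nat_lit 0) (nat_lit 0) (nat_lit 0) (nat_lit 0) (nat_lit 366) (nat_lit 68) r7_366 r9_68 (nat_lit 53728367) (nat_lit 12221267) (nat_lit 12174851) (nat_lit 0x38c2f41c6) (nat_lit 1767626247),
  Rx.mk (nat_lit 3) (nat_lit 3) (nat_lit 0) (nat_lit 0) (nat_lit 1) (nat_lit 369) (nat_lit 70) r7_369 r9_70 (nat_lit 0) (nat_lit 25388524) (nat_lit 23888514) (nat_lit 0x66b5a08de) (nat_lit 995832150),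
  Rx.mk (nat_lit 8) (nat_lit 0) (nat_lit 1) (nat_lit 0) (nat_lit 2) (nat_lit 371) (nat_lit 69) r7_371 r9_69 (nat_lit 49319051) (nat_lit 0) (nat_lit 28898569) (nat_lit 0x6539461d6) (nat_lit 1048798182),
  Rx.mk (nat_lit 11) (nat_lit 3) (nat_lit 1) (nat_lit 0) (nat_lit 3) (nat_lit 374) (nat_lit 71) r7_374 r9_71 (nat_lit 0) (nat_lit 0) (nat_lit 24741287) (nat_lit 0x7fff7117a) (nat_lit 563091449),
  Rx.mk (nat_lit 27) (nat_lit 3) (nat_lit 3) (nat_lit 0) (nat_lit 3) (nat_lit 378) (nat_lit 72) r7_378 r9_72 (nat_lit 0) (nat_lit 0) (nat_lit 24741287) (nat_lit 0x800788c14) (nat_lit 562595399),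
  Rx.mk (nat_lit 128) (nat_lit 0) (nat_lit 0) (nat_lit 2) (nat_lit 4) (nat_lit 367) (nat_lit 74) r7_367 r9_74 (nat_lit 24913710) (nat_lit 27374180) (nat_lit 0) (nat_lit 0x629c47274) (nat_lit 1065121602),
  Rx.mk (nat_lit 130) (nat_lit 2) (nat_lit 0) (nat_lit 2) (nat_lit 5) (nat_lit 368) (nat_lit 79) r7_368 r9_79 (nat_lit 0) (nat_lit 24741287) (nat_lit 0) (nat_lit 0x7fe3cd14e) (nat_lit 564781099),
  Rx.mk (nat_lit 131) (nat_lit 3) (nat_lit 0) (nat_lit 2) (nat_lit 5) (nat_lit 370) (nat_lit 76) r7_370 r9_76 (nat_lit 0) (nat_lit 24741287) (nat_lit 0) (nat_lit 0x80064b5b8) (nat_lit 562671499),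
  Rx.mk (nat_lit 136) (nat_lit 0) (nat_lit 1) (nat_lit 2) (nat_lit 6) (nat_lit 372) (nat_lit 75) r7_372 r9_75 (nat_lit 24624079) (nat_lit 0) (nat_lit 0) (nat_lit 0x8009fe8fe) (nat_lit 562326791),
  Rx.mk (nat_lit 138) (nat_lit 2) (nat_lit 1) (nat_lit 2) (nat_lit 7) (nat_lit 373) (nat_lit 80) r7_373 r9_80 (nat_lit 0) (nat_lit 0) (nat_lit 0) (nat_lit 0x8017985b4) (nat_lit 536870912),
  Rx.mk (nat_lit 139) (nat_lit 3) (nat_lit 1) (nat_lit 2) (nat_lit 7) (nat_lit 375) (nat_lit 77) r7_375 r9_77 (nat_lit 0) (nat_lit 0) (nat_lit 0) (nat_lit 0x8017985b4) (nat_lit 536870912),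
  Rx.mk (nat_lit 146) (nat_lit 2) (nat_lit 2) (nat_lit 2) (nat_lit 7) (nat_lit 376) (nat_lit 81) r7_376 r9_81 (nat_lit 0) (nat_lit 0) (nat_lit 0) (nat_lit 0x8017985b4) (nat_lit 536870912),
  Rx.mk (nat_lit 155) (nat_lit 3) (nat_lit 3) (nat_lit 2) (nat_lit 7) (nat_lit 379) (nat_lit 78) r7_379 r9_78 (nat_lit 0) (nat_lit 0) (nat_lit 0) (nat_lit 0x8017985b4) (nat_lit 536870912),
  Rx.mk (nat_lit 219) (nat_lit 3) (nat_lit 3) (nat_lit 3) (nat_lit 7) (nat_lit 380) (nat_lit 73) r7_380 r9_73 (nat_lit 0) (nat_lit 0) (nat_lit 0) (nat_lit 0x8017985b4) (nat_lit 536870912),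
  Rx.mk (nat_lit 402) (nat_lit 2) (nat_lit 2) (nat_lit 6) (nat_lit 7) (nat_lit 377) (nat_lit 82) r7_377 r9_82 (nat_lit 0) (nat_lit 0) (nat_lit 0) (nat_lit 0x8017985b4) (nat_lit 536870912)]
noncomputable def e25_50 : List Rx := [
  Rx.mk (nat_lit 40) (nat_lit 0) (nat_lit 5) (nat_lit 0) (nat_lit 2) (nat_lit 412) (nat_lit 167) r7_412 r3_167 (nat_lit 161216) (nat_lit 0) (nat_lit 187444) (nat_lit 0x65b3d3f7a) (nat_lit 962509472),
  Rx.mk (nat_lit 43) (nat_lit 3) (nat_lit 5) (nat_lit 0) (nat_lit 3) (nat_lit 414) (nat_lit 169) r7_414 r3_169 (nat_lit 0) (nat_lit 0) (nat_lit 1062796) (nat_lit 0x7d66ce370) (nat_lit 580163308),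
  Rx.mk (nat_lit 104) (nat_lit 0) (nat_lit 5) (nat_lit 1) (nat_lit 6) (nat_lit 413) (nat_lit 168) r7_413 r3_168 (nat_lit 20900457) (nat_lit 0) (nat_lit 0) (nat_lit 0x7888ef68e) (nat_lit 679216269),
  Rx.mk (nat_lit 107) (nat_lit 3) (nat_lit 5) (nat_lit 1) (nat_lit 7) (nat_lit 415) (nat_lit 170) r7_415 r3_170 (nat_lit 0) (nat_lit 0) (nat_lit 0) (nat_lit 0x82218c4a6) (nat_lit 505206912)]
noncomputable def e25_51 : List Rx := [
  Rx.mk (nat_lit 11) (nat_lit 3) (nat_lit 1) (nat_lit 0) (nat_lit 3) (nat_lit 424) (nat_lit 170) r7_424 r4_170 (nat_lit 0) (nat_lit 0) (nat_lit 15079429) (nat_lit 0x80b288b5a) (nat_lit 542464441),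
  Rx.mk (nat_lit 40) (nat_lit 0) (nat_lit 5) (nat_lit 0) (nat_lit 2) (nat_lit 427) (nat_lit 167) r7_427 r4_167 (nat_lit 19907554) (nat_lit 0) (nat_lit 22125450) (nat_lit 0x63a785950) (nat_lit 1037930216),
  Rx.mk (nat_lit 43) (nat_lit 3) (nat_lit 5) (nat_lit 0) (nat_lit 3) (nat_lit 429) (nat_lit 169) r7_429 r4_169 (nat_lit 0) (nat_lit 0) (nat_lit 9466543) (nat_lit 0x7fa3c1d3e) (nat_lit 553281955),
  Rx.mk (nat_lit 75) (nat_lit 3) (nat_lit 1) (nat_lit 1) (nat_lit 7) (nat_lit 425) (nat_lit 172) r7_425 r4_172 (nat_lit 0) (nat_lit 0) (nat_lit 0) (nat_lit 0x8047400be) (nat_lit 533941862),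
  Rx.mk (nat_lit 104) (nat_lit 0) (nat_lit 5) (nat_lit 1) (nat_lit 6) (nat_lit 428) (nat_lit 168) r7_428 r4_168 (nat_lit 19814278) (nat_lit 0) (nat_lit 0) (nat_lit 0x7ff710a44) (nat_lit 558656140),
  Rx.mk (nat_lit 107) (nat_lit 3) (nat_lit 5) (nat_lit 1) (nat_lit 7) (nat_lit 430) (nat_lit 171) r7_430 r4_171 (nat_lit 0) (nat_lit 0) (nat_lit 0) (nat_lit 0x80e5a0ace) (nat_lit 524283362),
  Rx.mk (nat_lit 139) (nat_lit 3) (nat_lit 1) (nat_lit 2) (nat_lit 7) (nat_lit 426) (nat_lit 173) r7_426 r4_173 (nat_lit 0) (nat_lit 0) (nat_lit 0) (nat_lit 0x804741ba8) (nat_lit 533941462)]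
noncomputable def e25_52 : List Rx := [
  Rx.mk (nat_lit 40) (nat_lit 0) (nat_lit 5) (nat_lit 0) (nat_lit 2) (nat_lit 444) (nat_lit 184) r7_444 r5_184 (nat_lit 21504054) (nat_lit 0) (nat_lit 5813795) (nat_lit 0x686efd894) (nat_lit 945833261),
  Rx.mk (nat_lit 43) (nat_lit 3) (nat_lit 5) (nat_lit 0) (nat_lit 3) (nat_lit 446) (nat_lit 186) r7_446 r5_186 (nat_lit 0) (nat_lit 0) (nat_lit 6741966) (nat_lit 0x7f4734e86) (nat_lit 556141628),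
  Rx.mk (nat_lit 104) (nat_lit 0) (nat_lit 5) (nat_lit 1) (nat_lit 6) (nat_lit 445) (nat_lit 185) r7_445 r5_185 (nat_lit 24741287) (nat_lit 0) (nat_lit 0) (nat_lit 0x7fd363f88) (nat_lit 565797099),
  Rx.mk (nat_lit 107) (nat_lit 3) (nat_lit 5) (nat_lit 1) (nat_lit 7) (nat_lit 447) (nat_lit 187) r7_447 r5_187 (nat_lit 0) (nat_lit 0) (nat_lit 0) (nat_lit 0x812b94fb2) (nat_lit 520035912),
  Rx.mk (nat_lit 235) (nat_lit 3) (nat_lit 5) (nat_lit 3) (nat_lit 7) (nat_lit 448) (nat_lit 188) r7_448 r5_188 (nat_lit 0) (nat_lit 0) (nat_lit 0) (nat_lit 0x8017985b4) (nat_lit 536870912)]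
noncomputable def e25_53 : List Rx := [
  Rx.mk (nat_lit 40) (nat_lit 0) (nat_lit 5) (nat_lit 0) (nat_lit 2) (nat_lit 416) (nat_lit 265) r7_416 r4_265 (nat_lit 51960859) (nat_lit 0) (nat_lit 26363677) (nat_lit 0x6eea423dc) (nat_lit 892140698),
  Rx.mk (nat_lit 41) (nat_lit 1) (nat_lit 5) (nat_lit 0) (nat_lit 3) (nat_lit 418) (nat_lit 266) r7_418 r4_266 (nat_lit 0) (nat_lit 0) (nat_lit 24741287) (nat_lit 0x8017985b4) (nat_lit 561612199),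
  Rx.mk (nat_lit 43) (nat_lit 3) (nat_lit 5) (nat_lit 0) (nat_lit 3) (nat_lit 420) (nat_lit 267) r7_420 r4_267 (nat_lit 0) (nat_lit 0) (nat_lit 28981807) (nat_lit 0x7fc4d7cda) (nat_lit 570932769),
  Rx.mk (nat_lit 104) (nat_lit 0) (nat_lit 5) (nat_lit 1) (nat_lit 6) (nat_lit 417) (nat_lit 268) r7_417 r4_268 (nat_lit 24741287) (nat_lit 0) (nat_lit 0) (nat_lit 0x8017985b4) (nat_lit 561612199),
  Rx.mk (nat_lit 105) (nat_lit 1) (nat_lit 5) (nat_lit 1) (nat_lit 7) (nat_lit 419) (nat_lit 269) r7_419 r4_269 (nat_lit 0) (nat_lit 0) (nat_lit 0) (nat_lit 0x8017985b4) (nat_lit 536870912),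
  Rx.mk (nat_lit 107) (nat_lit 3) (nat_lit 5) (nat_lit 1) (nat_lit 7) (nat_lit 421) (nat_lit 270) r7_421 r4_270 (nat_lit 0) (nat_lit 0) (nat_lit 0) (nat_lit 0x8017985b4) (nat_lit 536870912)]
noncomputable def e25_54 : List Rx := [
  Rx.mk (nat_lit 11) (nat_lit 3) (nat_lit 1) (nat_lit 0) (nat_lit 3) (nat_lit 431) (nat_lit 188) r7_431 r10_188 (nat_lit 0) (nat_lit 0) (nat_lit 25393500) (nat_lit 0x7ffadf27e) (nat_lit 564019262),
  Rx.mk (nat_lit 40) (nat_lit 0) (nat_lit 5) (nat_lit 0) (nat_lit 2) (nat_lit 433) (nat_lit 183) r7_433 r10_183 (nat_lit 23931749) (nat_lit 0) (nat_lit 28712906) (nat_lit 0x6a7e66ee6) (nat_lit 937964567),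
  Rx.mk (nat_lit 41) (nat_lit 1) (nat_lit 5) (nat_lit 0) (nat_lit 3) (nat_lit 435) (nat_lit 185) r7_435 r10_185 (nat_lit 0) (nat_lit 0) (nat_lit 24741287) (nat_lit 0x8017985b4) (nat_lit 561612199),
  Rx.mk (nat_lit 43) (nat_lit 3) (nat_lit 5) (nat_lit 0) (nat_lit 3) (nat_lit 437) (nat_lit 187) r7_437 r10_187 (nat_lit 0) (nat_lit 0) (nat_lit 25691165) (nat_lit 0x800112efc) (nat_lit 563939677),
  Rx.mk (nat_lit 75) (nat_lit 3) (nat_lit 1) (nat_lit 1) (nat_lit 7) (nat_lit 432) (nat_lit 190) r7_432 r10_190 (nat_lit 0) (nat_lit 0) (nat_lit 0) (nat_lit 0x8017985b4) (nat_lit 536870912),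
  Rx.mk (nat_lit 104) (nat_lit 0) (nat_lit 5) (nat_lit 1) (nat_lit 6) (nat_lit 434) (nat_lit 184) r7_434 r10_184 (nat_lit 26205094) (nat_lit 0) (nat_lit 0) (nat_lit 0x7ff5adb5c) (nat_lit 565151456),
  Rx.mk (nat_lit 105) (nat_lit 1) (nat_lit 5) (nat_lit 1) (nat_lit 7) (nat_lit 436) (nat_lit 186) r7_436 r10_186 (nat_lit 0) (nat_lit 0) (nat_lit 0) (nat_lit 0x8017985b4) (nat_lit 536870912),
  Rx.mk (nat_lit 107) (nat_lit 3) (nat_lit 5) (nat_lit 1) (nat_lit 7) (nat_lit 438) (nat_lit 189) r7_438 r10_189 (nat_lit 0) (nat_lit 0) (nat_lit 0) (nat_lit 0x8017985b4) (nat_lit 536870912)]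
noncomputable def e25_55 : List Rx := [
  Rx.mk (nat_lit 40) (nat_lit 0) (nat_lit 5) (nat_lit 0) (nat_lit 2) (nat_lit 449) (nat_lit 212) r7_449 r11_212 (nat_lit 107532607) (nat_lit 0) (nat_lit 34414543) (nat_lit 0x7c21f872e) (nat_lit 742207762),
  Rx.mk (nat_lit 41) (nat_lit 1) (nat_lit 5) (nat_lit 0) (nat_lit 3) (nat_lit 451) (nat_lit 214) r7_451 r11_214 (nat_lit 0) (nat_lit 0) (nat_lit 24741287) (nat_lit 0x8017985b4) (nat_lit 561612199),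
  Rx.mk (nat_lit 43) (nat_lit 3) (nat_lit 5) (nat_lit 0) (nat_lit 3) (nat_lit 453) (nat_lit 216) r7_453 r11_216 (nat_lit 0) (nat_lit 0) (nat_lit 24741287) (nat_lit 0x8017985b4) (nat_lit 561612199),
  Rx.mk (nat_lit 104) (nat_lit 0) (nat_lit 5) (nat_lit 1) (nat_lit 6) (nat_lit 450) (nat_lit 213) r7_450 r11_213 (nat_lit 24741287) (nat_lit 0) (nat_lit 0) (nat_lit 0x8017985b4) (nat_lit 561612199),
  Rx.mk (nat_lit 105) (nat_lit 1) (nat_lit 5) (nat_lit 1) (nat_lit 7) (nat_lit 452) (nat_lit 215) r7_452 r11_215 (nat_lit 0) (nat_lit 0) (nat_lit 0) (nat_lit 0x8017985b4) (nat_lit 536870912),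
  Rx.mk (nat_lit 107) (nat_lit 3) (nat_lit 5) (nat_lit 1) (nat_lit 7) (nat_lit 454) (nat_lit 217) r7_454 r11_217 (nat_lit 0) (nat_lit 0) (nat_lit 0) (nat_lit 0x8017985b4) (nat_lit 536870912),
  Rx.mk (nat_lit 235) (nat_lit 3) (nat_lit 5) (nat_lit 3) (nat_lit 7) (nat_lit 455) (nat_lit 218) r7_455 r11_218 (nat_lit 0) (nat_lit 0) (nat_lit 0) (nat_lit 0x8017985b4) (nat_lit 536870912)]
noncomputable def e25_56 : List Rx := [
  Rx.mk (nat_lit 43) (nat_lit 3) (nat_lit 5) (nat_lit 0) (nat_lit 3) (nat_lit 422) (nat_lit 256) r7_422 r5_256 (nat_lit 0) (nat_lit 0) (nat_lit 10453794) (nat_lit 0x7f320ae16) (nat_lit 561328856),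
  Rx.mk (nat_lit 107) (nat_lit 3) (nat_lit 5) (nat_lit 1) (nat_lit 7) (nat_lit 423) (nat_lit 257) r7_423 r5_257 (nat_lit 0) (nat_lit 0) (nat_lit 0) (nat_lit 0x811261be4) (nat_lit 521565112)]
noncomputable def e25_57 : List Rx := [
  Rx.mk (nat_lit 11) (nat_lit 3) (nat_lit 1) (nat_lit 0) (nat_lit 3) (nat_lit 439) (nat_lit 303) r7_439 r11_303 (nat_lit 0) (nat_lit 0) (nat_lit 24741287) (nat_lit 0x8017985b4) (nat_lit 561612199),
  Rx.mk (nat_lit 43) (nat_lit 3) (nat_lit 5) (nat_lit 0) (nat_lit 3) (nat_lit 442) (nat_lit 306) r7_442 r11_306 (nat_lit 0) (nat_lit 0) (nat_lit 19264518) (nat_lit 0x8067c11ee) (nat_lit 551226430),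
  Rx.mk (nat_lit 75) (nat_lit 3) (nat_lit 1) (nat_lit 1) (nat_lit 7) (nat_lit 440) (nat_lit 304) r7_440 r11_304 (nat_lit 0) (nat_lit 0) (nat_lit 0) (nat_lit 0x8017985b4) (nat_lit 536870912),
  Rx.mk (nat_lit 107) (nat_lit 3) (nat_lit 5) (nat_lit 1) (nat_lit 7) (nat_lit 443) (nat_lit 307) r7_443 r11_307 (nat_lit 0) (nat_lit 0) (nat_lit 0) (nat_lit 0x8017985b4) (nat_lit 536870912),
  Rx.mk (nat_lit 139) (nat_lit 3) (nat_lit 1) (nat_lit 2) (nat_lit 7) (nat_lit 441) (nat_lit 305) r7_441 r11_305 (nat_lit 0) (nat_lit 0) (nat_lit 0) (nat_lit 0x8017985b4) (nat_lit 536870912)]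
noncomputable def e25 : List (List Rx) := [e25_0, e25_1, e25_2, e25_3, e25_4, e25_5, e25_6, e25_7, e25_8, e25_9, e25_10, e25_11, e25_12, e25_13, e25_14, e25_15, e25_16, e25_17, e25_18, e25_19, e25_20, e25_21, e25_22, e25_23, e25_24, e25_25, e25_26, e25_27, e25_28, e25_29, e25_30, e25_31, e25_32, e25_33, e25_34, e25_35, e25_36, e25_37, e25_38, e25_39, e25_40, e25_41, e25_42, e25_43, e25_44, e25_45, e25_46, e25_47, e25_48, e25_49, e25_50, e25_51, e25_52, e25_53, e25_54, e25_55, e25_56, e25_57]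
noncomputable def e26_0 : List Rx := [
  Rx.mk (nat_lit 108) (nat_lit 4) (nat_lit 5) (nat_lit 1) (nat_lit 6) (nat_lit 63) (nat_lit 185) r8_63 r0_185 (nat_lit 17259595) (nat_lit 0) (nat_lit 0) (nat_lit 0x7bf63ab82) (nat_lit 620224207),
  Rx.mk (nat_lit 364) (nat_lit 4) (nat_lit 5) (nat_lit 5) (nat_lit 6) (nat_lit 64) (nat_lit 186) r8_64 r0_186 (nat_lit 26500941) (nat_lit 0) (nat_lit 0) (nat_lit 0x7c9c5d064) (nat_lit 619045003),
  Rx.mk (nat_lit 367) (nat_lit 7) (nat_lit 5) (nat_lit 5) (nat_lit 7) (nat_lit 65) (nat_lit 187) r8_65 r0_187 (nat_lit 0) (nat_lit 0) (nat_lit 0) (nat_lit 0x802f4e852) (nat_lit 535398012)]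
noncomputable def e26_1 : List Rx := [
  Rx.mk (nat_lit 364) (nat_lit 4) (nat_lit 5) (nat_lit 5) (nat_lit 6) (nat_lit 66) (nat_lit 199) r8_66 r1_199 (nat_lit 24741287) (nat_lit 0) (nat_lit 0) (nat_lit 0x8001ac32c) (nat_lit 562953699),
  Rx.mk (nat_lit 367) (nat_lit 7) (nat_lit 5) (nat_lit 5) (nat_lit 7) (nat_lit 67) (nat_lit 200) r8_67 r1_200 (nat_lit 0) (nat_lit 0) (nat_lit 0) (nat_lit 0x8017985b4) (nat_lit 536870912)]
noncomputable def e26_2 : List Rx := [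
  Rx.mk (nat_lit 292) (nat_lit 4) (nat_lit 4) (nat_lit 4) (nat_lit 0) (nat_lit 25) (nat_lit 203) r8_25 r2_203 (nat_lit 12331261) (nat_lit 4963972) (nat_lit 5186153) (nat_lit 0x3d9490d48) (nat_lit 1633943848),
  Rx.mk (nat_lit 295) (nat_lit 7) (nat_lit 4) (nat_lit 4) (nat_lit 1) (nat_lit 27) (nat_lit 209) r8_27 r2_209 (nat_lit 0) (nat_lit 21402582) (nat_lit 24833065) (nat_lit 0x6b091ef98) (nat_lit 922817759),
  Rx.mk (nat_lit 300) (nat_lit 4) (nat_lit 5) (nat_lit 4) (nat_lit 2) (nat_lit 30) (nat_lit 205) r8_30 r2_205 (nat_lit 36724435) (nat_lit 0) (nat_lit 57149300) (nat_lit 0x6701206b0) (nat_lit 1035651797),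
  Rx.mk (nat_lit 303) (nat_lit 7) (nat_lit 5) (nat_lit 4) (nat_lit 3) (nat_lit 32) (nat_lit 212) r8_32 r2_212 (nat_lit 0) (nat_lit 0) (nat_lit 24741287) (nat_lit 0x8017985b4) (nat_lit 561612199),
  Rx.mk (nat_lit 308) (nat_lit 4) (nat_lit 6) (nat_lit 4) (nat_lit 2) (nat_lit 35) (nat_lit 207) r8_35 r2_207 (nat_lit 20092839) (nat_lit 0) (nat_lit 26542101) (nat_lit 0x6a8be4910) (nat_lit 931123202),
  Rx.mk (nat_lit 310) (nat_lit 6) (nat_lit 6) (nat_lit 4) (nat_lit 3) (nat_lit 37) (nat_lit 218) r8_37 r2_218 (nat_lit 0) (nat_lit 0) (nat_lit 24741287) (nat_lit 0x8017985b4) (nat_lit 561612199),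
  Rx.mk (nat_lit 311) (nat_lit 7) (nat_lit 6) (nat_lit 4) (nat_lit 3) (nat_lit 40) (nat_lit 216) r8_40 r2_216 (nat_lit 0) (nat_lit 0) (nat_lit 24741287) (nat_lit 0x7ff611878) (nat_lit 563663549),
  Rx.mk (nat_lit 356) (nat_lit 4) (nat_lit 4) (nat_lit 5) (nat_lit 4) (nat_lit 26) (nat_lit 204) r8_26 r2_204 (nat_lit 52104926) (nat_lit 34582474) (nat_lit 0) (nat_lit 0x6328cac00) (nat_lit 1090646762),
  Rx.mk (nat_lit 359) (nat_lit 7) (nat_lit 4) (nat_lit 5) (nat_lit 5) (nat_lit 28) (nat_lit 210) r8_28 r2_210 (nat_lit 0) (nat_lit 24741287) (nat_lit 0) (nat_lit 0x8017985b4) (nat_lit 561612199),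
  Rx.mk (nat_lit 364) (nat_lit 4) (nat_lit 5) (nat_lit 5) (nat_lit 6) (nat_lit 31) (nat_lit 206) r8_31 r2_206 (nat_lit 25055876) (nat_lit 0) (nat_lit 0) (nat_lit 0x7fce11080) (nat_lit 566426188),
  Rx.mk (nat_lit 367) (nat_lit 7) (nat_lit 5) (nat_lit 5) (nat_lit 7) (nat_lit 33) (nat_lit 213) r8_33 r2_213 (nat_lit 0) (nat_lit 0) (nat_lit 0) (nat_lit 0x8017985b4) (nat_lit 536870912),
  Rx.mk (nat_lit 372) (nat_lit 4) (nat_lit 6) (nat_lit 5) (nat_lit 6) (nat_lit 36) (nat_lit 208) r8_36 r2_208 (nat_lit 25669145) (nat_lit 0) (nat_lit 0) (nat_lit 0x80014139c) (nat_lit 563906157),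
  Rx.mk (nat_lit 374) (nat_lit 6) (nat_lit 6) (nat_lit 5) (nat_lit 7) (nat_lit 38) (nat_lit 219) r8_38 r2_219 (nat_lit 0) (nat_lit 0) (nat_lit 0) (nat_lit 0x8017985b4) (nat_lit 536870912),
  Rx.mk (nat_lit 375) (nat_lit 7) (nat_lit 6) (nat_lit 5) (nat_lit 7) (nat_lit 41) (nat_lit 217) r8_41 r2_217 (nat_lit 0) (nat_lit 0) (nat_lit 0) (nat_lit 0x8017985b4) (nat_lit 536870912),
  Rx.mk (nat_lit 438) (nat_lit 6) (nat_lit 6) (nat_lit 6) (nat_lit 7) (nat_lit 39) (nat_lit 220) r8_39 r2_220 (nat_lit 0) (nat_lit 0) (nat_lit 0) (nat_lit 0x8017985b4) (nat_lit 536870912),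
  Rx.mk (nat_lit 487) (nat_lit 7) (nat_lit 4) (nat_lit 7) (nat_lit 5) (nat_lit 29) (nat_lit 211) r8_29 r2_211 (nat_lit 0) (nat_lit 24741287) (nat_lit 0) (nat_lit 0x7fd79296a) (nat_lit 565539099),
  Rx.mk (nat_lit 495) (nat_lit 7) (nat_lit 5) (nat_lit 7) (nat_lit 7) (nat_lit 34) (nat_lit 214) r8_34 r2_214 (nat_lit 0) (nat_lit 0) (nat_lit 0) (nat_lit 0x8017985b4) (nat_lit 536870912),
  Rx.mk (nat_lit 511) (nat_lit 7) (nat_lit 7) (nat_lit 7) (nat_lit 7) (nat_lit 42) (nat_lit 215) r8_42 r2_215 (nat_lit 0) (nat_lit 0) (nat_lit 0) (nat_lit 0x8017985b4) (nat_lit 536870912)]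
noncomputable def e26_3 : List Rx := [
  Rx.mk (nat_lit 108) (nat_lit 4) (nat_lit 5) (nat_lit 1) (nat_lit 6) (nat_lit 61) (nat_lit 171) r8_61 r3_171 (nat_lit 4361193) (nat_lit 0) (nat_lit 0) (nat_lit 0x73e0634a6) (nat_lit 737767955),
  Rx.mk (nat_lit 111) (nat_lit 7) (nat_lit 5) (nat_lit 1) (nat_lit 7) (nat_lit 62) (nat_lit 172) r8_62 r3_172 (nat_lit 0) (nat_lit 0) (nat_lit 0) (nat_lit 0x851b92084) (nat_lit 459606612)]
noncomputable def e26_4 : List Rx := [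
  Rx.mk (nat_lit 108) (nat_lit 4) (nat_lit 5) (nat_lit 1) (nat_lit 6) (nat_lit 68) (nat_lit 174) r8_68 r4_174 (nat_lit 19417164) (nat_lit 0) (nat_lit 0) (nat_lit 0x7fd35cbf2) (nat_lit 560445626),
  Rx.mk (nat_lit 111) (nat_lit 7) (nat_lit 5) (nat_lit 1) (nat_lit 7) (nat_lit 69) (nat_lit 175) r8_69 r4_175 (nat_lit 0) (nat_lit 0) (nat_lit 0) (nat_lit 0x80539e52c) (nat_lit 533184912),
  Rx.mk (nat_lit 367) (nat_lit 7) (nat_lit 5) (nat_lit 5) (nat_lit 7) (nat_lit 70) (nat_lit 176) r8_70 r4_176 (nat_lit 0) (nat_lit 0) (nat_lit 0) (nat_lit 0x8017985b4) (nat_lit 536870912)]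
noncomputable def e26_5 : List Rx := [
  Rx.mk (nat_lit 108) (nat_lit 4) (nat_lit 5) (nat_lit 1) (nat_lit 6) (nat_lit 74) (nat_lit 189) r8_74 r5_189 (nat_lit 17765140) (nat_lit 0) (nat_lit 0) (nat_lit 0x7ff74602c) (nat_lit 556578502),
  Rx.mk (nat_lit 111) (nat_lit 7) (nat_lit 5) (nat_lit 1) (nat_lit 7) (nat_lit 75) (nat_lit 190) r8_75 r5_190 (nat_lit 0) (nat_lit 0) (nat_lit 0) (nat_lit 0x80b32653a) (nat_lit 527341762)]
noncomputable def e26_6 : List Rx := [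
  Rx.mk (nat_lit 231) (nat_lit 7) (nat_lit 4) (nat_lit 3) (nat_lit 5) (nat_lit 43) (nat_lit 115) r8_43 r3_115 (nat_lit 0) (nat_lit 1763441) (nat_lit 0) (nat_lit 0x7c7a002d2) (nat_lit 596010653),
  Rx.mk (nat_lit 239) (nat_lit 7) (nat_lit 5) (nat_lit 3) (nat_lit 7) (nat_lit 44) (nat_lit 116) r8_44 r3_116 (nat_lit 0) (nat_lit 0) (nat_lit 0) (nat_lit 0x815f04622) (nat_lit 516911112),
  Rx.mk (nat_lit 251) (nat_lit 3) (nat_lit 7) (nat_lit 3) (nat_lit 7) (nat_lit 45) (nat_lit 118) r8_45 r3_118 (nat_lit 0) (nat_lit 0) (nat_lit 0) (nat_lit 0x7fbaf6978) (nat_lit 542584962),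
  Rx.mk (nat_lit 255) (nat_lit 7) (nat_lit 7) (nat_lit 3) (nat_lit 7) (nat_lit 46) (nat_lit 117) r8_46 r3_117 (nat_lit 0) (nat_lit 0) (nat_lit 0) (nat_lit 0x7fe6eb434) (nat_lit 539872312)]
noncomputable def e26_7 : List Rx := [
  Rx.mk (nat_lit 251) (nat_lit 3) (nat_lit 7) (nat_lit 3) (nat_lit 7) (nat_lit 12) (nat_lit 132) r8_12 r0_132 (nat_lit 0) (nat_lit 0) (nat_lit 0) (nat_lit 0x8017985b4) (nat_lit 536870912),
  Rx.mk (nat_lit 255) (nat_lit 7) (nat_lit 7) (nat_lit 3) (nat_lit 7) (nat_lit 13) (nat_lit 131) r8_13 r0_131 (nat_lit 0) (nat_lit 0) (nat_lit 0) (nat_lit 0x8017985b4) (nat_lit 536870912),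
  Rx.mk (nat_lit 292) (nat_lit 4) (nat_lit 4) (nat_lit 4) (nat_lit 0) (nat_lit 0) (nat_lit 124) r8_0 r0_124 (nat_lit 37018604) (nat_lit 7939868) (nat_lit 11031913) (nat_lit 0x2f3402ffc) (nat_lit 1899960047),
  Rx.mk (nat_lit 300) (nat_lit 4) (nat_lit 5) (nat_lit 4) (nat_lit 2) (nat_lit 3) (nat_lit 127) r8_3 r0_127 (nat_lit 82416712) (nat_lit 0) (nat_lit 32206150) (nat_lit 0x66c0ffdc4) (nat_lit 1060452374),
  Rx.mk (nat_lit 308) (nat_lit 4) (nat_lit 6) (nat_lit 4) (nat_lit 2) (nat_lit 6) (nat_lit 133) r8_6 r0_133 (nat_lit 54286075) (nat_lit 0) (nat_lit 35479035) (nat_lit 0x62e45b6c8) (nat_lit 1098022322),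
  Rx.mk (nat_lit 310) (nat_lit 6) (nat_lit 6) (nat_lit 4) (nat_lit 3) (nat_lit 8) (nat_lit 136) r8_8 r0_136 (nat_lit 0) (nat_lit 0) (nat_lit 31117367) (nat_lit 0x7e047cca2) (nat_lit 600994729),
  Rx.mk (nat_lit 438) (nat_lit 6) (nat_lit 6) (nat_lit 6) (nat_lit 7) (nat_lit 9) (nat_lit 138) r8_9 r0_138 (nat_lit 0) (nat_lit 0) (nat_lit 0) (nat_lit 0x8017985b4) (nat_lit 536870912),
  Rx.mk (nat_lit 484) (nat_lit 4) (nat_lit 4) (nat_lit 7) (nat_lit 4) (nat_lit 1) (nat_lit 125) r8_1 r0_125 (nat_lit 43759254) (nat_lit 26421063) (nat_lit 0) (nat_lit 0x5ccc534e6) (nat_lit 1176984379),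
  Rx.mk (nat_lit 487) (nat_lit 7) (nat_lit 4) (nat_lit 7) (nat_lit 5) (nat_lit 2) (nat_lit 126) r8_2 r0_126 (nat_lit 0) (nat_lit 19040660) (nat_lit 0) (nat_lit 0x6f984888c) (nat_lit 821904322),
  Rx.mk (nat_lit 492) (nat_lit 4) (nat_lit 5) (nat_lit 7) (nat_lit 6) (nat_lit 4) (nat_lit 128) r8_4 r0_128 (nat_lit 28052384) (nat_lit 0) (nat_lit 0) (nat_lit 0x7ecc55e04) (nat_lit 585422396),
  Rx.mk (nat_lit 495) (nat_lit 7) (nat_lit 5) (nat_lit 7) (nat_lit 7) (nat_lit 5) (nat_lit 129) r8_5 r0_129 (nat_lit 0) (nat_lit 0) (nat_lit 0) (nat_lit 0x7feae9d88) (nat_lit 539601062),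
  Rx.mk (nat_lit 500) (nat_lit 4) (nat_lit 6) (nat_lit 7) (nat_lit 6) (nat_lit 7) (nat_lit 134) r8_7 r0_134 (nat_lit 28597756) (nat_lit 0) (nat_lit 0) (nat_lit 0x7fab4f40c) (nat_lit 572118568),
  Rx.mk (nat_lit 502) (nat_lit 6) (nat_lit 6) (nat_lit 7) (nat_lit 7) (nat_lit 10) (nat_lit 137) r8_10 r0_137 (nat_lit 0) (nat_lit 0) (nat_lit 0) (nat_lit 0x8017985b4) (nat_lit 536870912),
  Rx.mk (nat_lit 503) (nat_lit 7) (nat_lit 6) (nat_lit 7) (nat_lit 7) (nat_lit 11) (nat_lit 135) r8_11 r0_135 (nat_lit 0) (nat_lit 0) (nat_lit 0) (nat_lit 0x7ffc6e694) (nat_lit 538526762),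
  Rx.mk (nat_lit 511) (nat_lit 7) (nat_lit 7) (nat_lit 7) (nat_lit 7) (nat_lit 14) (nat_lit 130) r8_14 r0_130 (nat_lit 0) (nat_lit 0) (nat_lit 0) (nat_lit 0x7fa4b61a4) (nat_lit 543932912)]
noncomputable def e26_8 : List Rx := [
  Rx.mk (nat_lit 292) (nat_lit 4) (nat_lit 4) (nat_lit 4) (nat_lit 0) (nat_lit 15) (nat_lit 131) r8_15 r1_131 (nat_lit 78140221) (nat_lit 12570282) (nat_lit 16366775) (nat_lit 0x42b179a90) (nat_lit 1635971940),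
  Rx.mk (nat_lit 300) (nat_lit 4) (nat_lit 5) (nat_lit 4) (nat_lit 2) (nat_lit 18) (nat_lit 134) r8_18 r1_134 (nat_lit 144484209) (nat_lit 0) (nat_lit 46134325) (nat_lit 0x72b2fdad0) (nat_lit 943309946),
  Rx.mk (nat_lit 308) (nat_lit 4) (nat_lit 6) (nat_lit 4) (nat_lit 2) (nat_lit 21) (nat_lit 138) r8_21 r1_138 (nat_lit 36913539) (nat_lit 0) (nat_lit 31041958) (nat_lit 0x73f49b3ba) (nat_lit 800345659),
  Rx.mk (nat_lit 310) (nat_lit 6) (nat_lit 6) (nat_lit 4) (nat_lit 3) (nat_lit 22) (nat_lit 139) r8_22 r1_139 (nat_lit 0) (nat_lit 0) (nat_lit 19606239) (nat_lit 0x7f4c479c8) (nat_lit 568985001),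
  Rx.mk (nat_lit 438) (nat_lit 6) (nat_lit 6) (nat_lit 6) (nat_lit 7) (nat_lit 23) (nat_lit 140) r8_23 r1_140 (nat_lit 0) (nat_lit 0) (nat_lit 0) (nat_lit 0x8017985b4) (nat_lit 536870912),
  Rx.mk (nat_lit 484) (nat_lit 4) (nat_lit 4) (nat_lit 7) (nat_lit 4) (nat_lit 16) (nat_lit 132) r8_16 r1_132 (nat_lit 44995829) (nat_lit 40466188) (nat_lit 0) (nat_lit 0x6d2f8c872) (nat_lit 927296079),
  Rx.mk (nat_lit 487) (nat_lit 7) (nat_lit 4) (nat_lit 7) (nat_lit 5) (nat_lit 17) (nat_lit 133) r8_17 r1_133 (nat_lit 0) (nat_lit 25986002) (nat_lit 0) (nat_lit 0x7f21990dc) (nat_lit 578019064),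
  Rx.mk (nat_lit 492) (nat_lit 4) (nat_lit 5) (nat_lit 7) (nat_lit 6) (nat_lit 19) (nat_lit 135) r8_19 r1_135 (nat_lit 24741287) (nat_lit 0) (nat_lit 0) (nat_lit 0x8017985b4) (nat_lit 561612199),
  Rx.mk (nat_lit 495) (nat_lit 7) (nat_lit 5) (nat_lit 7) (nat_lit 7) (nat_lit 20) (nat_lit 136) r8_20 r1_136 (nat_lit 0) (nat_lit 0) (nat_lit 0) (nat_lit 0x8017985b4) (nat_lit 536870912),
  Rx.mk (nat_lit 511) (nat_lit 7) (nat_lit 7) (nat_lit 7) (nat_lit 7) (nat_lit 24) (nat_lit 137) r8_24 r1_137 (nat_lit 0) (nat_lit 0) (nat_lit 0) (nat_lit 0x8017985b4) (nat_lit 536870912)]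
noncomputable def e26_9 : List Rx := [
  Rx.mk (nat_lit 231) (nat_lit 7) (nat_lit 4) (nat_lit 3) (nat_lit 5) (nat_lit 48) (nat_lit 116) r8_48 r4_116 (nat_lit 0) (nat_lit 19539304) (nat_lit 0) (nat_lit 0x7feeea77a) (nat_lit 558873116),
  Rx.mk (nat_lit 239) (nat_lit 7) (nat_lit 5) (nat_lit 3) (nat_lit 7) (nat_lit 51) (nat_lit 119) r8_51 r4_119 (nat_lit 0) (nat_lit 0) (nat_lit 0) (nat_lit 0x8017985b4) (nat_lit 536870912),
  Rx.mk (nat_lit 251) (nat_lit 3) (nat_lit 7) (nat_lit 3) (nat_lit 7) (nat_lit 56) (nat_lit 121) r8_56 r4_121 (nat_lit 0) (nat_lit 0) (nat_lit 0) (nat_lit 0x8017985b4) (nat_lit 536870912),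
  Rx.mk (nat_lit 255) (nat_lit 7) (nat_lit 7) (nat_lit 3) (nat_lit 7) (nat_lit 57) (nat_lit 120) r8_57 r4_120 (nat_lit 0) (nat_lit 0) (nat_lit 0) (nat_lit 0x8017985b4) (nat_lit 536870912),
  Rx.mk (nat_lit 484) (nat_lit 4) (nat_lit 4) (nat_lit 7) (nat_lit 4) (nat_lit 47) (nat_lit 114) r8_47 r4_114 (nat_lit 35927384) (nat_lit 25528723) (nat_lit 0) (nat_lit 0x6c2494650) (nat_lit 920149869),
  Rx.mk (nat_lit 487) (nat_lit 7) (nat_lit 4) (nat_lit 7) (nat_lit 5) (nat_lit 49) (nat_lit 115) r8_49 r4_115 (nat_lit 0) (nat_lit 15426170) (nat_lit 0) (nat_lit 0x7fa00e8ea) (nat_lit 559577782),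
  Rx.mk (nat_lit 492) (nat_lit 4) (nat_lit 5) (nat_lit 7) (nat_lit 6) (nat_lit 50) (nat_lit 117) r8_50 r4_117 (nat_lit 24741287) (nat_lit 0) (nat_lit 0) (nat_lit 0x8005f42d6) (nat_lit 562689149),
  Rx.mk (nat_lit 495) (nat_lit 7) (nat_lit 5) (nat_lit 7) (nat_lit 7) (nat_lit 52) (nat_lit 118) r8_52 r4_118 (nat_lit 0) (nat_lit 0) (nat_lit 0) (nat_lit 0x8050765fc) (nat_lit 533378512),
  Rx.mk (nat_lit 500) (nat_lit 4) (nat_lit 6) (nat_lit 7) (nat_lit 6) (nat_lit 53) (nat_lit 122) r8_53 r4_122 (nat_lit 24741287) (nat_lit 0) (nat_lit 0) (nat_lit 0x8017985b4) (nat_lit 561612199),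
  Rx.mk (nat_lit 502) (nat_lit 6) (nat_lit 6) (nat_lit 7) (nat_lit 7) (nat_lit 54) (nat_lit 124) r8_54 r4_124 (nat_lit 0) (nat_lit 0) (nat_lit 0) (nat_lit 0x8017985b4) (nat_lit 536870912),
  Rx.mk (nat_lit 503) (nat_lit 7) (nat_lit 6) (nat_lit 7) (nat_lit 7) (nat_lit 55) (nat_lit 123) r8_55 r4_123 (nat_lit 0) (nat_lit 0) (nat_lit 0) (nat_lit 0x80507696c) (nat_lit 533378462)]
noncomputable def e26_10 : List Rx := [
  Rx.mk (nat_lit 47) (nat_lit 7) (nat_lit 5) (nat_lit 0) (nat_lit 3) (nat_lit 71) (nat_lit 203) r8_71 r6_203 (nat_lit 0) (nat_lit 0) (nat_lit 11276317) (nat_lit 0x80f41308e) (nat_lit 534645879),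
  Rx.mk (nat_lit 111) (nat_lit 7) (nat_lit 5) (nat_lit 1) (nat_lit 7) (nat_lit 72) (nat_lit 204) r8_72 r6_204 (nat_lit 0) (nat_lit 0) (nat_lit 0) (nat_lit 0x8017985b4) (nat_lit 536870912),
  Rx.mk (nat_lit 239) (nat_lit 7) (nat_lit 5) (nat_lit 3) (nat_lit 7) (nat_lit 73) (nat_lit 205) r8_73 r6_205 (nat_lit 0) (nat_lit 0) (nat_lit 0) (nat_lit 0x80607f5fc) (nat_lit 532392712)]
noncomputable def e26_11 : List Rx := [
  Rx.mk (nat_lit 231) (nat_lit 7) (nat_lit 4) (nat_lit 3) (nat_lit 5) (nat_lit 58) (nat_lit 115) r8_58 r5_115 (nat_lit 0) (nat_lit 14303237) (nat_lit 0) (nat_lit 0x7ea35f61c) (nat_lit 574182799),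
  Rx.mk (nat_lit 239) (nat_lit 7) (nat_lit 5) (nat_lit 3) (nat_lit 7) (nat_lit 59) (nat_lit 116) r8_59 r5_116 (nat_lit 0) (nat_lit 0) (nat_lit 0) (nat_lit 0x805c00e40) (nat_lit 532666762),
  Rx.mk (nat_lit 255) (nat_lit 7) (nat_lit 7) (nat_lit 3) (nat_lit 7) (nat_lit 60) (nat_lit 117) r8_60 r5_117 (nat_lit 0) (nat_lit 0) (nat_lit 0) (nat_lit 0x8017985b4) (nat_lit 536870912)]
noncomputable def e26_12 : List Rx := [
  Rx.mk (nat_lit 108) (nat_lit 4) (nat_lit 5) (nat_lit 1) (nat_lit 6) (nat_lit 178) (nat_lit 289) r8_178 r0_289 (nat_lit 25058333) (nat_lit 0) (nat_lit 0) (nat_lit 0x74a9cadf8) (nat_lit 746005345),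
  Rx.mk (nat_lit 109) (nat_lit 5) (nat_lit 5) (nat_lit 1) (nat_lit 7) (nat_lit 179) (nat_lit 290) r8_179 r0_290 (nat_lit 0) (nat_lit 0) (nat_lit 0) (nat_lit 0x7ffa6b34c) (nat_lit 538657562)]
noncomputable def e26_13 : List Rx := [
  Rx.mk (nat_lit 108) (nat_lit 4) (nat_lit 5) (nat_lit 1) (nat_lit 6) (nat_lit 184) (nat_lit 241) r8_184 r7_241 (nat_lit 24741287) (nat_lit 0) (nat_lit 0) (nat_lit 0x8017985b4) (nat_lit 561612199),
  Rx.mk (nat_lit 109) (nat_lit 5) (nat_lit 5) (nat_lit 1) (nat_lit 7) (nat_lit 186) (nat_lit 243) r8_186 r7_243 (nat_lit 0) (nat_lit 0) (nat_lit 0) (nat_lit 0x8017985b4) (nat_lit 536870912),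
  Rx.mk (nat_lit 364) (nat_lit 4) (nat_lit 5) (nat_lit 5) (nat_lit 6) (nat_lit 185) (nat_lit 242) r8_185 r7_242 (nat_lit 25158612) (nat_lit 0) (nat_lit 0) (nat_lit 0x7ffdc5b5a) (nat_lit 563608374),
  Rx.mk (nat_lit 365) (nat_lit 5) (nat_lit 5) (nat_lit 5) (nat_lit 7) (nat_lit 187) (nat_lit 244) r8_187 r7_244 (nat_lit 0) (nat_lit 0) (nat_lit 0) (nat_lit 0x8017985b4) (nat_lit 536870912),
  Rx.mk (nat_lit 367) (nat_lit 7) (nat_lit 5) (nat_lit 5) (nat_lit 7) (nat_lit 188) (nat_lit 245) r8_188 r7_245 (nat_lit 0) (nat_lit 0) (nat_lit 0) (nat_lit 0x8017985b4) (nat_lit 536870912)]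
noncomputable def e26_14 : List Rx := [
  Rx.mk (nat_lit 109) (nat_lit 5) (nat_lit 5) (nat_lit 1) (nat_lit 7) (nat_lit 180) (nat_lit 286) r8_180 r1_286 (nat_lit 0) (nat_lit 0) (nat_lit 0) (nat_lit 0x8017985b4) (nat_lit 536870912)]
noncomputable def e26_15 : List Rx := [
  Rx.mk (nat_lit 109) (nat_lit 5) (nat_lit 5) (nat_lit 1) (nat_lit 7) (nat_lit 189) (nat_lit 189) r8_189 r8_189 (nat_lit 0) (nat_lit 0) (nat_lit 0) (nat_lit 0x8017985b4) (nat_lit 536870912),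
  Rx.mk (nat_lit 365) (nat_lit 5) (nat_lit 5) (nat_lit 5) (nat_lit 7) (nat_lit 190) (nat_lit 190) r8_190 r8_190 (nat_lit 0) (nat_lit 0) (nat_lit 0) (nat_lit 0x8017985b4) (nat_lit 536870912)]
noncomputable def e26_16 : List Rx := [
  Rx.mk (nat_lit 364) (nat_lit 4) (nat_lit 5) (nat_lit 5) (nat_lit 6) (nat_lit 191) (nat_lit 323) r8_191 r8_323 (nat_lit 24741287) (nat_lit 0) (nat_lit 0) (nat_lit 0x8017985b4) (nat_lit 561612199),
  Rx.mk (nat_lit 365) (nat_lit 5) (nat_lit 5) (nat_lit 5) (nat_lit 7) (nat_lit 192) (nat_lit 324) r8_192 r8_324 (nat_lit 0) (nat_lit 0) (nat_lit 0) (nat_lit 0x8017985b4) (nat_lit 536870912),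
  Rx.mk (nat_lit 367) (nat_lit 7) (nat_lit 5) (nat_lit 5) (nat_lit 7) (nat_lit 193) (nat_lit 325) r8_193 r8_325 (nat_lit 0) (nat_lit 0) (nat_lit 0) (nat_lit 0x8017985b4) (nat_lit 536870912)]
noncomputable def e26_17 : List Rx := [
  Rx.mk (nat_lit 292) (nat_lit 4) (nat_lit 4) (nat_lit 4) (nat_lit 0) (nat_lit 159) (nat_lit 183) r8_159 r9_183 (nat_lit 23644808) (nat_lit 27871597) (nat_lit 18255310) (nat_lit 0x407f928e4) (nat_lit 1634185527),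
  Rx.mk (nat_lit 295) (nat_lit 7) (nat_lit 4) (nat_lit 4) (nat_lit 1) (nat_lit 162) (nat_lit 192) r8_162 r9_192 (nat_lit 0) (nat_lit 28133172) (nat_lit 40482942) (nat_lit 0x6d0747a06) (nat_lit 912998026),
  Rx.mk (nat_lit 300) (nat_lit 4) (nat_lit 5) (nat_lit 4) (nat_lit 2) (nat_lit 165) (nat_lit 185) r8_165 r9_185 (nat_lit 40805453) (nat_lit 0) (nat_lit 130895702) (nat_lit 0x7010e2518) (nat_lit 966967117),
  Rx.mk (nat_lit 303) (nat_lit 7) (nat_lit 5) (nat_lit 4) (nat_lit 3) (nat_lit 168) (nat_lit 195) r8_168 r9_195 (nat_lit 0) (nat_lit 0) (nat_lit 24741287) (nat_lit 0x8017985b4) (nat_lit 561612199),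
  Rx.mk (nat_lit 308) (nat_lit 4) (nat_lit 6) (nat_lit 4) (nat_lit 2) (nat_lit 171) (nat_lit 187) r8_171 r9_187 (nat_lit 30134438) (nat_lit 0) (nat_lit 55618136) (nat_lit 0x6f41c019a) (nat_lit 894101936),
  Rx.mk (nat_lit 310) (nat_lit 6) (nat_lit 6) (nat_lit 4) (nat_lit 3) (nat_lit 174) (nat_lit 199) r8_174 r9_199 (nat_lit 0) (nat_lit 0) (nat_lit 24741287) (nat_lit 0x8017985b4) (nat_lit 561612199),
  Rx.mk (nat_lit 356) (nat_lit 4) (nat_lit 4) (nat_lit 5) (nat_lit 4) (nat_lit 160) (nat_lit 184) r8_160 r9_184 (nat_lit 50716108) (nat_lit 34699300) (nat_lit 0) (nat_lit 0x6b512c18c) (nat_lit 957466070),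
  Rx.mk (nat_lit 357) (nat_lit 5) (nat_lit 4) (nat_lit 5) (nat_lit 5) (nat_lit 161) (nat_lit 189) r8_161 r9_189 (nat_lit 0) (nat_lit 25054288) (nat_lit 0) (nat_lit 0x800856290) (nat_lit 562857500),
  Rx.mk (nat_lit 359) (nat_lit 7) (nat_lit 4) (nat_lit 5) (nat_lit 5) (nat_lit 163) (nat_lit 193) r8_163 r9_193 (nat_lit 0) (nat_lit 24741287) (nat_lit 0) (nat_lit 0x8009d4ae0) (nat_lit 562452249),
  Rx.mk (nat_lit 364) (nat_lit 4) (nat_lit 5) (nat_lit 5) (nat_lit 6) (nat_lit 166) (nat_lit 186) r8_166 r9_186 (nat_lit 23667545) (nat_lit 0) (nat_lit 0) (nat_lit 0x7fe4ef41e) (nat_lit 563630257),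
  Rx.mk (nat_lit 365) (nat_lit 5) (nat_lit 5) (nat_lit 5) (nat_lit 7) (nat_lit 167) (nat_lit 190) r8_167 r9_190 (nat_lit 0) (nat_lit 0) (nat_lit 0) (nat_lit 0x8017985b4) (nat_lit 536870912),
  Rx.mk (nat_lit 367) (nat_lit 7) (nat_lit 5) (nat_lit 5) (nat_lit 7) (nat_lit 169) (nat_lit 196) r8_169 r9_196 (nat_lit 0) (nat_lit 0) (nat_lit 0) (nat_lit 0x8017985b4) (nat_lit 536870912),
  Rx.mk (nat_lit 372) (nat_lit 4) (nat_lit 6) (nat_lit 5) (nat_lit 6) (nat_lit 172) (nat_lit 188) r8_172 r9_188 (nat_lit 24741287) (nat_lit 0) (nat_lit 0) (nat_lit 0x8017985b4) (nat_lit 561612199),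
  Rx.mk (nat_lit 373) (nat_lit 5) (nat_lit 6) (nat_lit 5) (nat_lit 7) (nat_lit 173) (nat_lit 191) r8_173 r9_191 (nat_lit 0) (nat_lit 0) (nat_lit 0) (nat_lit 0x8017985b4) (nat_lit 536870912),
  Rx.mk (nat_lit 374) (nat_lit 6) (nat_lit 6) (nat_lit 5) (nat_lit 7) (nat_lit 175) (nat_lit 200) r8_175 r9_200 (nat_lit 0) (nat_lit 0) (nat_lit 0) (nat_lit 0x8017985b4) (nat_lit 536870912),
  Rx.mk (nat_lit 438) (nat_lit 6) (nat_lit 6) (nat_lit 6) (nat_lit 7) (nat_lit 176) (nat_lit 201) r8_176 r9_201 (nat_lit 0) (nat_lit 0) (nat_lit 0) (nat_lit 0x8017985b4) (nat_lit 536870912),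
  Rx.mk (nat_lit 487) (nat_lit 7) (nat_lit 4) (nat_lit 7) (nat_lit 5) (nat_lit 164) (nat_lit 194) r8_164 r9_194 (nat_lit 0) (nat_lit 24741287) (nat_lit 0) (nat_lit 0x8017985b4) (nat_lit 561612199),
  Rx.mk (nat_lit 495) (nat_lit 7) (nat_lit 5) (nat_lit 7) (nat_lit 7) (nat_lit 170) (nat_lit 197) r8_170 r9_197 (nat_lit 0) (nat_lit 0) (nat_lit 0) (nat_lit 0x8017985b4) (nat_lit 536870912),
  Rx.mk (nat_lit 511) (nat_lit 7) (nat_lit 7) (nat_lit 7) (nat_lit 7) (nat_lit 177) (nat_lit 198) r8_177 r9_198 (nat_lit 0) (nat_lit 0) (nat_lit 0) (nat_lit 0x8017985b4) (nat_lit 536870912)]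
noncomputable def e26_18 : List Rx := [
  Rx.mk (nat_lit 108) (nat_lit 4) (nat_lit 5) (nat_lit 1) (nat_lit 6) (nat_lit 181) (nat_lit 304) r8_181 r4_304 (nat_lit 24372871) (nat_lit 0) (nat_lit 0) (nat_lit 0x7fec7bb1a) (nat_lit 563885983),
  Rx.mk (nat_lit 109) (nat_lit 5) (nat_lit 5) (nat_lit 1) (nat_lit 7) (nat_lit 182) (nat_lit 305) r8_182 r4_305 (nat_lit 0) (nat_lit 0) (nat_lit 0) (nat_lit 0x8017985b4) (nat_lit 536870912),
  Rx.mk (nat_lit 111) (nat_lit 7) (nat_lit 5) (nat_lit 1) (nat_lit 7) (nat_lit 183) (nat_lit 306) r8_183 r4_306 (nat_lit 0) (nat_lit 0) (nat_lit 0) (nat_lit 0x8017985b4) (nat_lit 536870912)]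
noncomputable def e26_19 : List Rx := [
  Rx.mk (nat_lit 108) (nat_lit 4) (nat_lit 5) (nat_lit 1) (nat_lit 6) (nat_lit 194) (nat_lit 191) r8_194 r10_191 (nat_lit 24741287) (nat_lit 0) (nat_lit 0) (nat_lit 0x8017985b4) (nat_lit 561612199),
  Rx.mk (nat_lit 109) (nat_lit 5) (nat_lit 5) (nat_lit 1) (nat_lit 7) (nat_lit 195) (nat_lit 192) r8_195 r10_192 (nat_lit 0) (nat_lit 0) (nat_lit 0) (nat_lit 0x8017985b4) (nat_lit 536870912),
  Rx.mk (nat_lit 111) (nat_lit 7) (nat_lit 5) (nat_lit 1) (nat_lit 7) (nat_lit 196) (nat_lit 193) r8_196 r10_193 (nat_lit 0) (nat_lit 0) (nat_lit 0) (nat_lit 0x8017985b4) (nat_lit 536870912),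
  Rx.mk (nat_lit 367) (nat_lit 7) (nat_lit 5) (nat_lit 5) (nat_lit 7) (nat_lit 197) (nat_lit 194) r8_197 r10_194 (nat_lit 0) (nat_lit 0) (nat_lit 0) (nat_lit 0x8017985b4) (nat_lit 536870912)]
noncomputable def e26_20 : List Rx := [
  Rx.mk (nat_lit 108) (nat_lit 4) (nat_lit 5) (nat_lit 1) (nat_lit 6) (nat_lit 198) (nat_lit 219) r8_198 r11_219 (nat_lit 24741287) (nat_lit 0) (nat_lit 0) (nat_lit 0x8017985b4) (nat_lit 561612199),
  Rx.mk (nat_lit 109) (nat_lit 5) (nat_lit 5) (nat_lit 1) (nat_lit 7) (nat_lit 199) (nat_lit 220) r8_199 r11_220 (nat_lit 0) (nat_lit 0) (nat_lit 0) (nat_lit 0x8017985b4) (nat_lit 536870912),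
  Rx.mk (nat_lit 111) (nat_lit 7) (nat_lit 5) (nat_lit 1) (nat_lit 7) (nat_lit 200) (nat_lit 221) r8_200 r11_221 (nat_lit 0) (nat_lit 0) (nat_lit 0) (nat_lit 0x8017985b4) (nat_lit 536870912)]
noncomputable def e26_21 : List Rx := [
  Rx.mk (nat_lit 292) (nat_lit 4) (nat_lit 4) (nat_lit 4) (nat_lit 0) (nat_lit 133) (nat_lit 86) r8_133 r9_86 (nat_lit 94967087) (nat_lit 17870946) (nat_lit 18637644) (nat_lit 0x4127ec576) (nat_lit 1685261939),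
  Rx.mk (nat_lit 295) (nat_lit 7) (nat_lit 4) (nat_lit 4) (nat_lit 1) (nat_lit 135) (nat_lit 88) r8_135 r9_88 (nat_lit 0) (nat_lit 24700278) (nat_lit 29365924) (nat_lit 0x6a57b692c) (nat_lit 941876114),
  Rx.mk (nat_lit 308) (nat_lit 4) (nat_lit 6) (nat_lit 4) (nat_lit 2) (nat_lit 138) (nat_lit 92) r8_138 r9_92 (nat_lit 23390390) (nat_lit 0) (nat_lit 35165148) (nat_lit 0x65db9d3f8) (nat_lit 1018879500),
  Rx.mk (nat_lit 310) (nat_lit 6) (nat_lit 6) (nat_lit 4) (nat_lit 3) (nat_lit 140) (nat_lit 96) r8_140 r9_96 (nat_lit 0) (nat_lit 0) (nat_lit 24741287) (nat_lit 0x8017985b4) (nat_lit 561612199),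
  Rx.mk (nat_lit 311) (nat_lit 7) (nat_lit 6) (nat_lit 4) (nat_lit 3) (nat_lit 143) (nat_lit 94) r8_143 r9_94 (nat_lit 0) (nat_lit 0) (nat_lit 24489661) (nat_lit 0x7ffa8f6de) (nat_lit 563135273),
  Rx.mk (nat_lit 356) (nat_lit 4) (nat_lit 4) (nat_lit 5) (nat_lit 4) (nat_lit 134) (nat_lit 87) r8_134 r9_87 (nat_lit 82173125) (nat_lit 26394436) (nat_lit 0) (nat_lit 0x6a21a438e) (nat_lit 999789173),
  Rx.mk (nat_lit 359) (nat_lit 7) (nat_lit 4) (nat_lit 5) (nat_lit 5) (nat_lit 136) (nat_lit 89) r8_136 r9_89 (nat_lit 0) (nat_lit 24741287) (nat_lit 0) (nat_lit 0x8017985b4) (nat_lit 561612199),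
  Rx.mk (nat_lit 372) (nat_lit 4) (nat_lit 6) (nat_lit 5) (nat_lit 6) (nat_lit 139) (nat_lit 93) r8_139 r9_93 (nat_lit 24741287) (nat_lit 0) (nat_lit 0) (nat_lit 0x8017985b4) (nat_lit 561612199),
  Rx.mk (nat_lit 374) (nat_lit 6) (nat_lit 6) (nat_lit 5) (nat_lit 7) (nat_lit 141) (nat_lit 97) r8_141 r9_97 (nat_lit 0) (nat_lit 0) (nat_lit 0) (nat_lit 0x8017985b4) (nat_lit 536870912),
  Rx.mk (nat_lit 375) (nat_lit 7) (nat_lit 6) (nat_lit 5) (nat_lit 7) (nat_lit 144) (nat_lit 95) r8_144 r9_95 (nat_lit 0) (nat_lit 0) (nat_lit 0) (nat_lit 0x8017985b4) (nat_lit 536870912),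
  Rx.mk (nat_lit 438) (nat_lit 6) (nat_lit 6) (nat_lit 6) (nat_lit 7) (nat_lit 142) (nat_lit 98) r8_142 r9_98 (nat_lit 0) (nat_lit 0) (nat_lit 0) (nat_lit 0x8017985b4) (nat_lit 536870912),
  Rx.mk (nat_lit 487) (nat_lit 7) (nat_lit 4) (nat_lit 7) (nat_lit 5) (nat_lit 137) (nat_lit 90) r8_137 r9_90 (nat_lit 0) (nat_lit 24741287) (nat_lit 0) (nat_lit 0x7fffb92e0) (nat_lit 563069249),
  Rx.mk (nat_lit 511) (nat_lit 7) (nat_lit 7) (nat_lit 7) (nat_lit 7) (nat_lit 145) (nat_lit 91) r8_145 r9_91 (nat_lit 0) (nat_lit 0) (nat_lit 0) (nat_lit 0x8017985b4) (nat_lit 536870912)]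
noncomputable def e26_22 : List Rx := [
  Rx.mk (nat_lit 251) (nat_lit 3) (nat_lit 7) (nat_lit 3) (nat_lit 7) (nat_lit 76) (nat_lit 139) r8_76 r0_139 (nat_lit 0) (nat_lit 0) (nat_lit 0) (nat_lit 0x8017985b4) (nat_lit 536870912),
  Rx.mk (nat_lit 255) (nat_lit 7) (nat_lit 7) (nat_lit 3) (nat_lit 7) (nat_lit 77) (nat_lit 140) r8_77 r0_140 (nat_lit 0) (nat_lit 0) (nat_lit 0) (nat_lit 0x8017985b4) (nat_lit 536870912)]
noncomputable def e26_23 : List Rx := [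
  Rx.mk (nat_lit 0) (nat_lit 0) (nat_lit 0) (nat_lit 0) (nat_lit 0) (nat_lit 90) (nat_lit 141) r8_90 r1_141 (nat_lit 116288395) (nat_lit 17944571) (nat_lit 23009154) (nat_lit 0x447d83aae) (nat_lit 1657106532),
  Rx.mk (nat_lit 24) (nat_lit 0) (nat_lit 3) (nat_lit 0) (nat_lit 2) (nat_lit 94) (nat_lit 142) r8_94 r1_142 (nat_lit 50887267) (nat_lit 0) (nat_lit 31282261) (nat_lit 0x6d657dd46) (nat_lit 920594840),
  Rx.mk (nat_lit 27) (nat_lit 3) (nat_lit 3) (nat_lit 0) (nat_lit 3) (nat_lit 97) (nat_lit 143) r8_97 r1_143 (nat_lit 0) (nat_lit 0) (nat_lit 29620562) (nat_lit 0x7f673ed30) (nat_lit 577332974),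
  Rx.mk (nat_lit 128) (nat_lit 0) (nat_lit 0) (nat_lit 2) (nat_lit 4) (nat_lit 91) (nat_lit 147) r8_91 r1_147 (nat_lit 50885811) (nat_lit 24802758) (nat_lit 0) (nat_lit 0x6b9ee1742) (nat_lit 942829831),
  Rx.mk (nat_lit 130) (nat_lit 2) (nat_lit 0) (nat_lit 2) (nat_lit 5) (nat_lit 92) (nat_lit 150) r8_92 r1_150 (nat_lit 0) (nat_lit 24952196) (nat_lit 0) (nat_lit 0x7d5baea30) (nat_lit 605443508),
  Rx.mk (nat_lit 146) (nat_lit 2) (nat_lit 2) (nat_lit 2) (nat_lit 7) (nat_lit 93) (nat_lit 152) r8_93 r1_152 (nat_lit 0) (nat_lit 0) (nat_lit 0) (nat_lit 0x8017985b4) (nat_lit 536870912),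
  Rx.mk (nat_lit 152) (nat_lit 0) (nat_lit 3) (nat_lit 2) (nat_lit 6) (nat_lit 95) (nat_lit 148) r8_95 r1_148 (nat_lit 24741287) (nat_lit 0) (nat_lit 0) (nat_lit 0x8017985b4) (nat_lit 561612199),
  Rx.mk (nat_lit 154) (nat_lit 2) (nat_lit 3) (nat_lit 2) (nat_lit 7) (nat_lit 96) (nat_lit 151) r8_96 r1_151 (nat_lit 0) (nat_lit 0) (nat_lit 0) (nat_lit 0x8017985b4) (nat_lit 536870912),
  Rx.mk (nat_lit 155) (nat_lit 3) (nat_lit 3) (nat_lit 2) (nat_lit 7) (nat_lit 98) (nat_lit 149) r8_98 r1_149 (nat_lit 0) (nat_lit 0) (nat_lit 0) (nat_lit 0x8017985b4) (nat_lit 536870912),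
  Rx.mk (nat_lit 219) (nat_lit 3) (nat_lit 3) (nat_lit 3) (nat_lit 7) (nat_lit 99) (nat_lit 144) r8_99 r1_144 (nat_lit 0) (nat_lit 0) (nat_lit 0) (nat_lit 0x8017985b4) (nat_lit 536870912),
  Rx.mk (nat_lit 251) (nat_lit 3) (nat_lit 7) (nat_lit 3) (nat_lit 7) (nat_lit 100) (nat_lit 145) r8_100 r1_145 (nat_lit 0) (nat_lit 0) (nat_lit 0) (nat_lit 0x8017985b4) (nat_lit 536870912),
  Rx.mk (nat_lit 255) (nat_lit 7) (nat_lit 7) (nat_lit 3) (nat_lit 7) (nat_lit 101) (nat_lit 146) r8_101 r1_146 (nat_lit 0) (nat_lit 0) (nat_lit 0) (nat_lit 0x8017985b4) (nat_lit 536870912)]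
noncomputable def e26_24 : List Rx := [
  Rx.mk (nat_lit 231) (nat_lit 7) (nat_lit 4) (nat_lit 3) (nat_lit 5) (nat_lit 146) (nat_lit 126) r8_146 r4_126 (nat_lit 0) (nat_lit 22851491) (nat_lit 0) (nat_lit 0x7fa9b2676) (nat_lit 566471853),
  Rx.mk (nat_lit 251) (nat_lit 3) (nat_lit 7) (nat_lit 3) (nat_lit 7) (nat_lit 147) (nat_lit 125) r8_147 r4_125 (nat_lit 0) (nat_lit 0) (nat_lit 0) (nat_lit 0x8017985b4) (nat_lit 536870912),
  Rx.mk (nat_lit 255) (nat_lit 7) (nat_lit 7) (nat_lit 3) (nat_lit 7) (nat_lit 148) (nat_lit 127) r8_148 r4_127 (nat_lit 0) (nat_lit 0) (nat_lit 0) (nat_lit 0x8017985b4) (nat_lit 536870912)]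
noncomputable def e26_25 : List Rx := [
  Rx.mk (nat_lit 251) (nat_lit 3) (nat_lit 7) (nat_lit 3) (nat_lit 7) (nat_lit 87) (nat_lit 141) r8_87 r7_141 (nat_lit 0) (nat_lit 0) (nat_lit 0) (nat_lit 0x8017985b4) (nat_lit 536870912),
  Rx.mk (nat_lit 255) (nat_lit 7) (nat_lit 7) (nat_lit 3) (nat_lit 7) (nat_lit 88) (nat_lit 140) r8_88 r7_140 (nat_lit 0) (nat_lit 0) (nat_lit 0) (nat_lit 0x8017985b4) (nat_lit 536870912),
  Rx.mk (nat_lit 292) (nat_lit 4) (nat_lit 4) (nat_lit 4) (nat_lit 0) (nat_lit 78) (nat_lit 136) r8_78 r7_136 (nat_lit 26185611) (nat_lit 8960456) (nat_lit 8497828) (nat_lit 0x362c7667e) (nat_lit 1774947907),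
  Rx.mk (nat_lit 308) (nat_lit 4) (nat_lit 6) (nat_lit 4) (nat_lit 2) (nat_lit 81) (nat_lit 142) r8_81 r7_142 (nat_lit 13633279) (nat_lit 0) (nat_lit 14186136) (nat_lit 0x6517ac3fe) (nat_lit 1000476627),
  Rx.mk (nat_lit 310) (nat_lit 6) (nat_lit 6) (nat_lit 4) (nat_lit 3) (nat_lit 83) (nat_lit 145) r8_83 r7_145 (nat_lit 0) (nat_lit 0) (nat_lit 24741287) (nat_lit 0x7fe1901b0) (nat_lit 564922449),
  Rx.mk (nat_lit 438) (nat_lit 6) (nat_lit 6) (nat_lit 6) (nat_lit 7) (nat_lit 84) (nat_lit 147) r8_84 r7_147 (nat_lit 0) (nat_lit 0) (nat_lit 0) (nat_lit 0x8017985b4) (nat_lit 536870912),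
  Rx.mk (nat_lit 484) (nat_lit 4) (nat_lit 4) (nat_lit 7) (nat_lit 4) (nat_lit 79) (nat_lit 137) r8_79 r7_137 (nat_lit 24651851) (nat_lit 24616168) (nat_lit 0) (nat_lit 0x5ff890ccc) (nat_lit 1104782931),
  Rx.mk (nat_lit 487) (nat_lit 7) (nat_lit 4) (nat_lit 7) (nat_lit 5) (nat_lit 80) (nat_lit 138) r8_80 r7_138 (nat_lit 0) (nat_lit 24741287) (nat_lit 0) (nat_lit 0x7ff6824a6) (nat_lit 563637099),
  Rx.mk (nat_lit 500) (nat_lit 4) (nat_lit 6) (nat_lit 7) (nat_lit 6) (nat_lit 82) (nat_lit 143) r8_82 r7_143 (nat_lit 24741287) (nat_lit 0) (nat_lit 0) (nat_lit 0x7fe8e8d90) (nat_lit 564464999),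
  Rx.mk (nat_lit 502) (nat_lit 6) (nat_lit 6) (nat_lit 7) (nat_lit 7) (nat_lit 85) (nat_lit 146) r8_85 r7_146 (nat_lit 0) (nat_lit 0) (nat_lit 0) (nat_lit 0x8017985b4) (nat_lit 536870912),
  Rx.mk (nat_lit 503) (nat_lit 7) (nat_lit 6) (nat_lit 7) (nat_lit 7) (nat_lit 86) (nat_lit 144) r8_86 r7_144 (nat_lit 0) (nat_lit 0) (nat_lit 0) (nat_lit 0x8017985b4) (nat_lit 536870912),
  Rx.mk (nat_lit 511) (nat_lit 7) (nat_lit 7) (nat_lit 7) (nat_lit 7) (nat_lit 89) (nat_lit 139) r8_89 r7_139 (nat_lit 0) (nat_lit 0) (nat_lit 0) (nat_lit 0x8017985b4) (nat_lit 536870912)]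
noncomputable def e26_26 : List Rx := [
  Rx.mk (nat_lit 0) (nat_lit 0) (nat_lit 0) (nat_lit 0) (nat_lit 0) (nat_lit 102) (nat_lit 114) r8_102 r8_114 (nat_lit 23607891) (nat_lit 10519158) (nat_lit 12621568) (nat_lit 0x35cfe746c) (nat_lit 1783943879),
  Rx.mk (nat_lit 24) (nat_lit 0) (nat_lit 3) (nat_lit 0) (nat_lit 2) (nat_lit 108) (nat_lit 117) r8_108 r8_117 (nat_lit 7782469) (nat_lit 0) (nat_lit 8151494) (nat_lit 0x657d11ec4) (nat_lit 982120125),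
  Rx.mk (nat_lit 27) (nat_lit 3) (nat_lit 3) (nat_lit 0) (nat_lit 3) (nat_lit 111) (nat_lit 119) r8_111 r8_119 (nat_lit 0) (nat_lit 0) (nat_lit 24741287) (nat_lit 0x7fe7fdaf2) (nat_lit 564530549),
  Rx.mk (nat_lit 128) (nat_lit 0) (nat_lit 0) (nat_lit 2) (nat_lit 4) (nat_lit 103) (nat_lit 115) r8_103 r8_115 (nat_lit 21485510) (nat_lit 22151582) (nat_lit 0) (nat_lit 0x5d3108e36) (nat_lit 1144097304),
  Rx.mk (nat_lit 130) (nat_lit 2) (nat_lit 0) (nat_lit 2) (nat_lit 5) (nat_lit 104) (nat_lit 116) r8_104 r8_116 (nat_lit 0) (nat_lit 24741287) (nat_lit 0) (nat_lit 0x8017985b4) (nat_lit 561612199),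
  Rx.mk (nat_lit 146) (nat_lit 2) (nat_lit 2) (nat_lit 2) (nat_lit 7) (nat_lit 105) (nat_lit 125) r8_105 r8_125 (nat_lit 0) (nat_lit 0) (nat_lit 0) (nat_lit 0x8017985b4) (nat_lit 536870912),
  Rx.mk (nat_lit 152) (nat_lit 0) (nat_lit 3) (nat_lit 2) (nat_lit 6) (nat_lit 109) (nat_lit 118) r8_109 r8_118 (nat_lit 25147508) (nat_lit 0) (nat_lit 0) (nat_lit 0x80037d764) (nat_lit 563258220),
  Rx.mk (nat_lit 154) (nat_lit 2) (nat_lit 3) (nat_lit 2) (nat_lit 7) (nat_lit 110) (nat_lit 122) r8_110 r8_122 (nat_lit 0) (nat_lit 0) (nat_lit 0) (nat_lit 0x8017985b4) (nat_lit 536870912),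
  Rx.mk (nat_lit 155) (nat_lit 3) (nat_lit 3) (nat_lit 2) (nat_lit 7) (nat_lit 112) (nat_lit 121) r8_112 r8_121 (nat_lit 0) (nat_lit 0) (nat_lit 0) (nat_lit 0x8017985b4) (nat_lit 536870912),
  Rx.mk (nat_lit 219) (nat_lit 3) (nat_lit 3) (nat_lit 3) (nat_lit 7) (nat_lit 113) (nat_lit 120) r8_113 r8_120 (nat_lit 0) (nat_lit 0) (nat_lit 0) (nat_lit 0x8017985b4) (nat_lit 536870912),
  Rx.mk (nat_lit 251) (nat_lit 3) (nat_lit 7) (nat_lit 3) (nat_lit 7) (nat_lit 123) (nat_lit 107) r8_123 r8_107 (nat_lit 0) (nat_lit 0) (nat_lit 0) (nat_lit 0x8017985b4) (nat_lit 536870912),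
  Rx.mk (nat_lit 255) (nat_lit 7) (nat_lit 7) (nat_lit 3) (nat_lit 7) (nat_lit 124) (nat_lit 106) r8_124 r8_106 (nat_lit 0) (nat_lit 0) (nat_lit 0) (nat_lit 0x8017985b4) (nat_lit 536870912),
  Rx.mk (nat_lit 292) (nat_lit 4) (nat_lit 4) (nat_lit 4) (nat_lit 0) (nat_lit 114) (nat_lit 102) r8_114 r8_102 (nat_lit 23607891) (nat_lit 10519158) (nat_lit 12621568) (nat_lit 0x35cfe746c) (nat_lit 1783943879),
  Rx.mk (nat_lit 308) (nat_lit 4) (nat_lit 6) (nat_lit 4) (nat_lit 2) (nat_lit 117) (nat_lit 108) r8_117 r8_108 (nat_lit 7782469) (nat_lit 0) (nat_lit 8151494) (nat_lit 0x657d11ec4) (nat_lit 982120125),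
  Rx.mk (nat_lit 310) (nat_lit 6) (nat_lit 6) (nat_lit 4) (nat_lit 3) (nat_lit 119) (nat_lit 111) r8_119 r8_111 (nat_lit 0) (nat_lit 0) (nat_lit 24741287) (nat_lit 0x7fe7fdaf2) (nat_lit 564530549),
  Rx.mk (nat_lit 402) (nat_lit 2) (nat_lit 2) (nat_lit 6) (nat_lit 7) (nat_lit 106) (nat_lit 124) r8_106 r8_124 (nat_lit 0) (nat_lit 0) (nat_lit 0) (nat_lit 0x8017985b4) (nat_lit 536870912),
  Rx.mk (nat_lit 406) (nat_lit 6) (nat_lit 2) (nat_lit 6) (nat_lit 7) (nat_lit 107) (nat_lit 123) r8_107 r8_123 (nat_lit 0) (nat_lit 0) (nat_lit 0) (nat_lit 0x8017985b4) (nat_lit 536870912),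
  Rx.mk (nat_lit 438) (nat_lit 6) (nat_lit 6) (nat_lit 6) (nat_lit 7) (nat_lit 120) (nat_lit 113) r8_120 r8_113 (nat_lit 0) (nat_lit 0) (nat_lit 0) (nat_lit 0x8017985b4) (nat_lit 536870912),
  Rx.mk (nat_lit 484) (nat_lit 4) (nat_lit 4) (nat_lit 7) (nat_lit 4) (nat_lit 115) (nat_lit 103) r8_115 r8_103 (nat_lit 21485510) (nat_lit 22151582) (nat_lit 0) (nat_lit 0x5d3108e36) (nat_lit 1144097304),
  Rx.mk (nat_lit 487) (nat_lit 7) (nat_lit 4) (nat_lit 7) (nat_lit 5) (nat_lit 116) (nat_lit 104) r8_116 r8_104 (nat_lit 0) (nat_lit 24741287) (nat_lit 0) (nat_lit 0x8017985b4) (nat_lit 561612199),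
  Rx.mk (nat_lit 500) (nat_lit 4) (nat_lit 6) (nat_lit 7) (nat_lit 6) (nat_lit 118) (nat_lit 109) r8_118 r8_109 (nat_lit 25147508) (nat_lit 0) (nat_lit 0) (nat_lit 0x80037d764) (nat_lit 563258220),
  Rx.mk (nat_lit 502) (nat_lit 6) (nat_lit 6) (nat_lit 7) (nat_lit 7) (nat_lit 121) (nat_lit 112) r8_121 r8_112 (nat_lit 0) (nat_lit 0) (nat_lit 0) (nat_lit 0x8017985b4) (nat_lit 536870912),
  Rx.mk (nat_lit 503) (nat_lit 7) (nat_lit 6) (nat_lit 7) (nat_lit 7) (nat_lit 122) (nat_lit 110) r8_122 r8_110 (nat_lit 0) (nat_lit 0) (nat_lit 0) (nat_lit 0x8017985b4) (nat_lit 536870912),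
  Rx.mk (nat_lit 511) (nat_lit 7) (nat_lit 7) (nat_lit 7) (nat_lit 7) (nat_lit 125) (nat_lit 105) r8_125 r8_105 (nat_lit 0) (nat_lit 0) (nat_lit 0) (nat_lit 0x8017985b4) (nat_lit 536870912)]
noncomputable def e26_27 : List Rx := [
  Rx.mk (nat_lit 292) (nat_lit 4) (nat_lit 4) (nat_lit 4) (nat_lit 0) (nat_lit 126) (nat_lit 126) r8_126 r8_126 (nat_lit 69167844) (nat_lit 20497821) (nat_lit 20497821) (nat_lit 0x3ff6c5f16) (nat_lit 1683229348),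
  Rx.mk (nat_lit 308) (nat_lit 4) (nat_lit 6) (nat_lit 4) (nat_lit 2) (nat_lit 129) (nat_lit 127) r8_129 r8_127 (nat_lit 25761297) (nat_lit 0) (nat_lit 25354659) (nat_lit 0x65918fae0) (nat_lit 1016119168),
  Rx.mk (nat_lit 310) (nat_lit 6) (nat_lit 6) (nat_lit 4) (nat_lit 3) (nat_lit 130) (nat_lit 128) r8_130 r8_128 (nat_lit 0) (nat_lit 0) (nat_lit 24741287) (nat_lit 0x8009bb888) (nat_lit 562459499),
  Rx.mk (nat_lit 438) (nat_lit 6) (nat_lit 6) (nat_lit 6) (nat_lit 7) (nat_lit 131) (nat_lit 132) r8_131 r8_132 (nat_lit 0) (nat_lit 0) (nat_lit 0) (nat_lit 0x8017985b4) (nat_lit 536870912),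
  Rx.mk (nat_lit 484) (nat_lit 4) (nat_lit 4) (nat_lit 7) (nat_lit 4) (nat_lit 127) (nat_lit 129) r8_127 r8_129 (nat_lit 25761297) (nat_lit 25354659) (nat_lit 0) (nat_lit 0x65918fae0) (nat_lit 1016119168),
  Rx.mk (nat_lit 487) (nat_lit 7) (nat_lit 4) (nat_lit 7) (nat_lit 5) (nat_lit 128) (nat_lit 130) r8_128 r8_130 (nat_lit 0) (nat_lit 24741287) (nat_lit 0) (nat_lit 0x8009bb888) (nat_lit 562459499),
  Rx.mk (nat_lit 511) (nat_lit 7) (nat_lit 7) (nat_lit 7) (nat_lit 7) (nat_lit 132) (nat_lit 131) r8_132 r8_131 (nat_lit 0) (nat_lit 0) (nat_lit 0) (nat_lit 0x8017985b4) (nat_lit 536870912)]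
noncomputable def e26_28 : List Rx := [
  Rx.mk (nat_lit 231) (nat_lit 7) (nat_lit 4) (nat_lit 3) (nat_lit 5) (nat_lit 150) (nat_lit 103) r8_150 r10_103 (nat_lit 0) (nat_lit 24741287) (nat_lit 0) (nat_lit 0x8006a3cfe) (nat_lit 562650649),
  Rx.mk (nat_lit 251) (nat_lit 3) (nat_lit 7) (nat_lit 3) (nat_lit 7) (nat_lit 155) (nat_lit 105) r8_155 r10_105 (nat_lit 0) (nat_lit 0) (nat_lit 0) (nat_lit 0x8017985b4) (nat_lit 536870912),
  Rx.mk (nat_lit 255) (nat_lit 7) (nat_lit 7) (nat_lit 3) (nat_lit 7) (nat_lit 156) (nat_lit 104) r8_156 r10_104 (nat_lit 0) (nat_lit 0) (nat_lit 0) (nat_lit 0x8017985b4) (nat_lit 536870912),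
  Rx.mk (nat_lit 484) (nat_lit 4) (nat_lit 4) (nat_lit 7) (nat_lit 4) (nat_lit 149) (nat_lit 101) r8_149 r10_101 (nat_lit 27532938) (nat_lit 25194848) (nat_lit 0) (nat_lit 0x6502bec76) (nat_lit 1026751498),
  Rx.mk (nat_lit 487) (nat_lit 7) (nat_lit 4) (nat_lit 7) (nat_lit 5) (nat_lit 151) (nat_lit 102) r8_151 r10_102 (nat_lit 0) (nat_lit 24741287) (nat_lit 0) (nat_lit 0x80046e510) (nat_lit 562785099),
  Rx.mk (nat_lit 500) (nat_lit 4) (nat_lit 6) (nat_lit 7) (nat_lit 6) (nat_lit 152) (nat_lit 106) r8_152 r10_106 (nat_lit 24741287) (nat_lit 0) (nat_lit 0) (nat_lit 0x7fc74cd8a) (nat_lit 566520649),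
  Rx.mk (nat_lit 502) (nat_lit 6) (nat_lit 6) (nat_lit 7) (nat_lit 7) (nat_lit 153) (nat_lit 108) r8_153 r10_108 (nat_lit 0) (nat_lit 0) (nat_lit 0) (nat_lit 0x8017985b4) (nat_lit 536870912),
  Rx.mk (nat_lit 503) (nat_lit 7) (nat_lit 6) (nat_lit 7) (nat_lit 7) (nat_lit 154) (nat_lit 107) r8_154 r10_107 (nat_lit 0) (nat_lit 0) (nat_lit 0) (nat_lit 0x8017985b4) (nat_lit 536870912)]
noncomputable def e26_29 : List Rx := [
  Rx.mk (nat_lit 231) (nat_lit 7) (nat_lit 4) (nat_lit 3) (nat_lit 5) (nat_lit 157) (nat_lit 113) r8_157 r11_113 (nat_lit 0) (nat_lit 24741287) (nat_lit 0) (nat_lit 0x8017985b4) (nat_lit 561612199),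
  Rx.mk (nat_lit 255) (nat_lit 7) (nat_lit 7) (nat_lit 3) (nat_lit 7) (nat_lit 158) (nat_lit 114) r8_158 r11_114 (nat_lit 0) (nat_lit 0) (nat_lit 0) (nat_lit 0x8017985b4) (nat_lit 536870912)]
noncomputable def e26_30 : List Rx := [
  Rx.mk (nat_lit 111) (nat_lit 7) (nat_lit 5) (nat_lit 1) (nat_lit 7) (nat_lit 218) (nat_lit 285) r8_218 r5_285 (nat_lit 0) (nat_lit 0) (nat_lit 0) (nat_lit 0x815927600) (nat_lit 517280412)]
noncomputable def e26_31 : List Rx := [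
  Rx.mk (nat_lit 111) (nat_lit 7) (nat_lit 5) (nat_lit 1) (nat_lit 7) (nat_lit 219) (nat_lit 344) r8_219 r11_344 (nat_lit 0) (nat_lit 0) (nat_lit 0) (nat_lit 0x8017985b4) (nat_lit 536870912),
  Rx.mk (nat_lit 367) (nat_lit 7) (nat_lit 5) (nat_lit 5) (nat_lit 7) (nat_lit 220) (nat_lit 343) r8_220 r11_343 (nat_lit 0) (nat_lit 0) (nat_lit 0) (nat_lit 0x8017985b4) (nat_lit 536870912)]
noncomputable def e26_32 : List Rx := [
  Rx.mk (nat_lit 43) (nat_lit 3) (nat_lit 5) (nat_lit 0) (nat_lit 3) (nat_lit 221) (nat_lit 207) r8_221 r6_207 (nat_lit 0) (nat_lit 0) (nat_lit 24741287) (nat_lit 0x8017985b4) (nat_lit 561612199),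
  Rx.mk (nat_lit 107) (nat_lit 3) (nat_lit 5) (nat_lit 1) (nat_lit 7) (nat_lit 222) (nat_lit 208) r8_222 r6_208 (nat_lit 0) (nat_lit 0) (nat_lit 0) (nat_lit 0x8017985b4) (nat_lit 536870912),
  Rx.mk (nat_lit 235) (nat_lit 3) (nat_lit 5) (nat_lit 3) (nat_lit 7) (nat_lit 223) (nat_lit 209) r8_223 r6_209 (nat_lit 0) (nat_lit 0) (nat_lit 0) (nat_lit 0x8017985b4) (nat_lit 536870912),
  Rx.mk (nat_lit 239) (nat_lit 7) (nat_lit 5) (nat_lit 3) (nat_lit 7) (nat_lit 224) (nat_lit 206) r8_224 r6_206 (nat_lit 0) (nat_lit 0) (nat_lit 0) (nat_lit 0x805730f46) (nat_lit 532963862)]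
noncomputable def e26_33 : List Rx := [
  Rx.mk (nat_lit 227) (nat_lit 3) (nat_lit 4) (nat_lit 3) (nat_lit 5) (nat_lit 201) (nat_lit 118) r8_201 r5_118 (nat_lit 0) (nat_lit 25748057) (nat_lit 0) (nat_lit 0x790d284fa) (nat_lit 675764869),
  Rx.mk (nat_lit 231) (nat_lit 7) (nat_lit 4) (nat_lit 3) (nat_lit 5) (nat_lit 202) (nat_lit 121) r8_202 r5_121 (nat_lit 0) (nat_lit 10065734) (nat_lit 0) (nat_lit 0x7e9c4689e) (nat_lit 570285946),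
  Rx.mk (nat_lit 235) (nat_lit 3) (nat_lit 5) (nat_lit 3) (nat_lit 7) (nat_lit 203) (nat_lit 119) r8_203 r5_119 (nat_lit 0) (nat_lit 0) (nat_lit 0) (nat_lit 0x8017985b4) (nat_lit 536870912),
  Rx.mk (nat_lit 239) (nat_lit 7) (nat_lit 5) (nat_lit 3) (nat_lit 7) (nat_lit 204) (nat_lit 122) r8_204 r5_122 (nat_lit 0) (nat_lit 0) (nat_lit 0) (nat_lit 0x80d50bd58) (nat_lit 525282062),
  Rx.mk (nat_lit 251) (nat_lit 3) (nat_lit 7) (nat_lit 3) (nat_lit 7) (nat_lit 205) (nat_lit 120) r8_205 r5_120 (nat_lit 0) (nat_lit 0) (nat_lit 0) (nat_lit 0x8017985b4) (nat_lit 536870912)]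
noncomputable def e26_34 : List Rx := [
  Rx.mk (nat_lit 227) (nat_lit 3) (nat_lit 4) (nat_lit 3) (nat_lit 5) (nat_lit 206) (nat_lit 115) r8_206 r11_115 (nat_lit 0) (nat_lit 24741287) (nat_lit 0) (nat_lit 0x8017985b4) (nat_lit 561612199),
  Rx.mk (nat_lit 231) (nat_lit 7) (nat_lit 4) (nat_lit 3) (nat_lit 5) (nat_lit 207) (nat_lit 118) r8_207 r11_118 (nat_lit 0) (nat_lit 24741287) (nat_lit 0) (nat_lit 0x8017985b4) (nat_lit 561612199),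
  Rx.mk (nat_lit 235) (nat_lit 3) (nat_lit 5) (nat_lit 3) (nat_lit 7) (nat_lit 209) (nat_lit 116) r8_209 r11_116 (nat_lit 0) (nat_lit 0) (nat_lit 0) (nat_lit 0x8017985b4) (nat_lit 536870912),
  Rx.mk (nat_lit 239) (nat_lit 7) (nat_lit 5) (nat_lit 3) (nat_lit 7) (nat_lit 210) (nat_lit 119) r8_210 r11_119 (nat_lit 0) (nat_lit 0) (nat_lit 0) (nat_lit 0x8017985b4) (nat_lit 536870912),
  Rx.mk (nat_lit 251) (nat_lit 3) (nat_lit 7) (nat_lit 3) (nat_lit 7) (nat_lit 213) (nat_lit 117) r8_213 r11_117 (nat_lit 0) (nat_lit 0) (nat_lit 0) (nat_lit 0x8017985b4) (nat_lit 536870912),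
  Rx.mk (nat_lit 487) (nat_lit 7) (nat_lit 4) (nat_lit 7) (nat_lit 5) (nat_lit 208) (nat_lit 120) r8_208 r11_120 (nat_lit 0) (nat_lit 28059580) (nat_lit 0) (nat_lit 0x7f58302f8) (nat_lit 576670492),
  Rx.mk (nat_lit 495) (nat_lit 7) (nat_lit 5) (nat_lit 7) (nat_lit 7) (nat_lit 211) (nat_lit 121) r8_211 r11_121 (nat_lit 0) (nat_lit 0) (nat_lit 0) (nat_lit 0x8017985b4) (nat_lit 536870912),
  Rx.mk (nat_lit 503) (nat_lit 7) (nat_lit 6) (nat_lit 7) (nat_lit 7) (nat_lit 212) (nat_lit 122) r8_212 r11_122 (nat_lit 0) (nat_lit 0) (nat_lit 0) (nat_lit 0x8017985b4) (nat_lit 536870912)]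
noncomputable def e26_35 : List Rx := [
  Rx.mk (nat_lit 43) (nat_lit 3) (nat_lit 5) (nat_lit 0) (nat_lit 3) (nat_lit 214) (nat_lit 300) r8_214 r6_300 (nat_lit 0) (nat_lit 0) (nat_lit 24741287) (nat_lit 0x8017985b4) (nat_lit 561612199),
  Rx.mk (nat_lit 47) (nat_lit 7) (nat_lit 5) (nat_lit 0) (nat_lit 3) (nat_lit 216) (nat_lit 301) r8_216 r6_301 (nat_lit 0) (nat_lit 0) (nat_lit 11102784) (nat_lit 0x80e83c530) (nat_lit 535184746),
  Rx.mk (nat_lit 107) (nat_lit 3) (nat_lit 5) (nat_lit 1) (nat_lit 7) (nat_lit 215) (nat_lit 302) r8_215 r6_302 (nat_lit 0) (nat_lit 0) (nat_lit 0) (nat_lit 0x8017985b4) (nat_lit 536870912),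
  Rx.mk (nat_lit 111) (nat_lit 7) (nat_lit 5) (nat_lit 1) (nat_lit 7) (nat_lit 217) (nat_lit 303) r8_217 r6_303 (nat_lit 0) (nat_lit 0) (nat_lit 0) (nat_lit 0x8017985b4) (nat_lit 536870912)]
noncomputable def e26_36 : List Rx := [
  Rx.mk (nat_lit 43) (nat_lit 3) (nat_lit 5) (nat_lit 0) (nat_lit 3) (nat_lit 225) (nat_lit 203) r8_225 r12_203 (nat_lit 0) (nat_lit 0) (nat_lit 25796827) (nat_lit 0x7fa80b20a) (nat_lit 569524589),
  Rx.mk (nat_lit 47) (nat_lit 7) (nat_lit 5) (nat_lit 0) (nat_lit 3) (nat_lit 227) (nat_lit 205) r8_227 r12_205 (nat_lit 0) (nat_lit 0) (nat_lit 8954591) (nat_lit 0x8144dd5dc) (nat_lit 527420603),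
  Rx.mk (nat_lit 107) (nat_lit 3) (nat_lit 5) (nat_lit 1) (nat_lit 7) (nat_lit 226) (nat_lit 204) r8_226 r12_204 (nat_lit 0) (nat_lit 0) (nat_lit 0) (nat_lit 0x8017985b4) (nat_lit 536870912),
  Rx.mk (nat_lit 111) (nat_lit 7) (nat_lit 5) (nat_lit 1) (nat_lit 7) (nat_lit 228) (nat_lit 206) r8_228 r12_206 (nat_lit 0) (nat_lit 0) (nat_lit 0) (nat_lit 0x8017985b4) (nat_lit 536870912),
  Rx.mk (nat_lit 239) (nat_lit 7) (nat_lit 5) (nat_lit 3) (nat_lit 7) (nat_lit 229) (nat_lit 207) r8_229 r12_207 (nat_lit 0) (nat_lit 0) (nat_lit 0) (nat_lit 0x8017985b4) (nat_lit 536870912)]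
noncomputable def e26_37 : List Rx := [
  Rx.mk (nat_lit 8) (nat_lit 0) (nat_lit 1) (nat_lit 0) (nat_lit 2) (nat_lit 241) (nat_lit 188) r8_241 r0_188 (nat_lit 24251954) (nat_lit 0) (nat_lit 19008238) (nat_lit 0x59ee2d664) (nat_lit 1196415754),
  Rx.mk (nat_lit 11) (nat_lit 3) (nat_lit 1) (nat_lit 0) (nat_lit 3) (nat_lit 244) (nat_lit 191) r8_244 r0_191 (nat_lit 0) (nat_lit 0) (nat_lit 20123998) (nat_lit 0x7c1a22dec) (nat_lit 620862110),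
  Rx.mk (nat_lit 72) (nat_lit 0) (nat_lit 1) (nat_lit 1) (nat_lit 6) (nat_lit 242) (nat_lit 189) r8_242 r0_189 (nat_lit 26165794) (nat_lit 0) (nat_lit 0) (nat_lit 0x7b3e3e45c) (nat_lit 640781706),
  Rx.mk (nat_lit 75) (nat_lit 3) (nat_lit 1) (nat_lit 1) (nat_lit 7) (nat_lit 245) (nat_lit 192) r8_245 r0_192 (nat_lit 0) (nat_lit 0) (nat_lit 0) (nat_lit 0x8005f486c) (nat_lit 537949312),
  Rx.mk (nat_lit 136) (nat_lit 0) (nat_lit 1) (nat_lit 2) (nat_lit 6) (nat_lit 243) (nat_lit 190) r8_243 r0_190 (nat_lit 32293832) (nat_lit 0) (nat_lit 0) (nat_lit 0x808393b6a) (nat_lit 562478594),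
  Rx.mk (nat_lit 139) (nat_lit 3) (nat_lit 1) (nat_lit 2) (nat_lit 7) (nat_lit 246) (nat_lit 194) r8_246 r0_194 (nat_lit 0) (nat_lit 0) (nat_lit 0) (nat_lit 0x8017985b4) (nat_lit 536870912),
  Rx.mk (nat_lit 203) (nat_lit 3) (nat_lit 1) (nat_lit 3) (nat_lit 7) (nat_lit 247) (nat_lit 193) r8_247 r0_193 (nat_lit 0) (nat_lit 0) (nat_lit 0) (nat_lit 0x8017985b4) (nat_lit 536870912)]
noncomputable def e26_38 : List Rx := [
  Rx.mk (nat_lit 8) (nat_lit 0) (nat_lit 1) (nat_lit 0) (nat_lit 2) (nat_lit 230) (nat_lit 271) r8_230 r0_271 (nat_lit 75450971) (nat_lit 0) (nat_lit 75494649) (nat_lit 0x5a61765d0) (nat_lit 1296858182),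
  Rx.mk (nat_lit 9) (nat_lit 1) (nat_lit 1) (nat_lit 0) (nat_lit 3) (nat_lit 232) (nat_lit 272) r8_232 r0_272 (nat_lit 0) (nat_lit 0) (nat_lit 36993222) (nat_lit 0x7df6aaa0c) (nat_lit 607751434),
  Rx.mk (nat_lit 11) (nat_lit 3) (nat_lit 1) (nat_lit 0) (nat_lit 3) (nat_lit 234) (nat_lit 273) r8_234 r0_273 (nat_lit 0) (nat_lit 0) (nat_lit 25972273) (nat_lit 0x7eb8e4744) (nat_lit 584573485),
  Rx.mk (nat_lit 40) (nat_lit 0) (nat_lit 5) (nat_lit 0) (nat_lit 2) (nat_lit 237) (nat_lit 278) r8_237 r0_278 (nat_lit 11187286) (nat_lit 0) (nat_lit 22445376) (nat_lit 0x611b170e2) (nat_lit 1070645824),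
  Rx.mk (nat_lit 41) (nat_lit 1) (nat_lit 5) (nat_lit 0) (nat_lit 3) (nat_lit 239) (nat_lit 279) r8_239 r0_279 (nat_lit 0) (nat_lit 0) (nat_lit 24741287) (nat_lit 0x7faf81db8) (nat_lit 567993049),
  Rx.mk (nat_lit 72) (nat_lit 0) (nat_lit 1) (nat_lit 1) (nat_lit 6) (nat_lit 231) (nat_lit 274) r8_231 r0_274 (nat_lit 30314307) (nat_lit 0) (nat_lit 0) (nat_lit 0x6f3513136) (nat_lit 839472119),
  Rx.mk (nat_lit 73) (nat_lit 1) (nat_lit 1) (nat_lit 1) (nat_lit 7) (nat_lit 233) (nat_lit 275) r8_233 r0_275 (nat_lit 0) (nat_lit 0) (nat_lit 0) (nat_lit 0x7f69ccc6e) (nat_lit 547574012),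
  Rx.mk (nat_lit 75) (nat_lit 3) (nat_lit 1) (nat_lit 1) (nat_lit 7) (nat_lit 235) (nat_lit 276) r8_235 r0_276 (nat_lit 0) (nat_lit 0) (nat_lit 0) (nat_lit 0x8017985b4) (nat_lit 536870912),
  Rx.mk (nat_lit 104) (nat_lit 0) (nat_lit 5) (nat_lit 1) (nat_lit 6) (nat_lit 238) (nat_lit 280) r8_238 r0_280 (nat_lit 25163350) (nat_lit 0) (nat_lit 0) (nat_lit 0x75f165a36) (nat_lit 725421662),
  Rx.mk (nat_lit 105) (nat_lit 1) (nat_lit 5) (nat_lit 1) (nat_lit 7) (nat_lit 240) (nat_lit 281) r8_240 r0_281 (nat_lit 0) (nat_lit 0) (nat_lit 0) (nat_lit 0x80027a268) (nat_lit 538140112),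
  Rx.mk (nat_lit 203) (nat_lit 3) (nat_lit 1) (nat_lit 3) (nat_lit 7) (nat_lit 236) (nat_lit 277) r8_236 r0_277 (nat_lit 0) (nat_lit 0) (nat_lit 0) (nat_lit 0x8010a6c4c) (nat_lit 537295162)]
noncomputable def e26_39 : List Rx := [
  Rx.mk (nat_lit 8) (nat_lit 0) (nat_lit 1) (nat_lit 0) (nat_lit 2) (nat_lit 248) (nat_lit 246) r8_248 r7_246 (nat_lit 54887331) (nat_lit 0) (nat_lit 69413824) (nat_lit 0x65c8453d2) (nat_lit 1085844417),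
  Rx.mk (nat_lit 9) (nat_lit 1) (nat_lit 1) (nat_lit 0) (nat_lit 3) (nat_lit 251) (nat_lit 249) r8_251 r7_249 (nat_lit 0) (nat_lit 0) (nat_lit 25521481) (nat_lit 0x8004c69ea) (nat_lit 563543143),
  Rx.mk (nat_lit 11) (nat_lit 3) (nat_lit 1) (nat_lit 0) (nat_lit 3) (nat_lit 254) (nat_lit 252) r8_254 r7_252 (nat_lit 0) (nat_lit 0) (nat_lit 24625619) (nat_lit 0x800a04d3a) (nat_lit 562328731),
  Rx.mk (nat_lit 72) (nat_lit 0) (nat_lit 1) (nat_lit 1) (nat_lit 6) (nat_lit 249) (nat_lit 247) r8_249 r7_247 (nat_lit 25009292) (nat_lit 0) (nat_lit 0) (nat_lit 0x8011540e0) (nat_lit 562263654),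
  Rx.mk (nat_lit 73) (nat_lit 1) (nat_lit 1) (nat_lit 1) (nat_lit 7) (nat_lit 252) (nat_lit 250) r8_252 r7_250 (nat_lit 0) (nat_lit 0) (nat_lit 0) (nat_lit 0x8017985b4) (nat_lit 536870912),
  Rx.mk (nat_lit 75) (nat_lit 3) (nat_lit 1) (nat_lit 1) (nat_lit 7) (nat_lit 255) (nat_lit 253) r8_255 r7_253 (nat_lit 0) (nat_lit 0) (nat_lit 0) (nat_lit 0x8017985b4) (nat_lit 536870912),
  Rx.mk (nat_lit 136) (nat_lit 0) (nat_lit 1) (nat_lit 2) (nat_lit 6) (nat_lit 250) (nat_lit 248) r8_250 r7_248 (nat_lit 24741287) (nat_lit 0) (nat_lit 0) (nat_lit 0x8017985b4) (nat_lit 561612199),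
  Rx.mk (nat_lit 137) (nat_lit 1) (nat_lit 1) (nat_lit 2) (nat_lit 7) (nat_lit 253) (nat_lit 251) r8_253 r7_251 (nat_lit 0) (nat_lit 0) (nat_lit 0) (nat_lit 0x8017985b4) (nat_lit 536870912),
  Rx.mk (nat_lit 203) (nat_lit 3) (nat_lit 1) (nat_lit 3) (nat_lit 7) (nat_lit 256) (nat_lit 254) r8_256 r7_254 (nat_lit 0) (nat_lit 0) (nat_lit 0) (nat_lit 0x8017985b4) (nat_lit 536870912)]
noncomputable def e26_40 : List Rx := [
  Rx.mk (nat_lit 73) (nat_lit 1) (nat_lit 1) (nat_lit 1) (nat_lit 7) (nat_lit 320) (nat_lit 301) r8_320 r2_301 (nat_lit 0) (nat_lit 0) (nat_lit 0) (nat_lit 0x8017985b4) (nat_lit 536870912),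
  Rx.mk (nat_lit 105) (nat_lit 1) (nat_lit 5) (nat_lit 1) (nat_lit 7) (nat_lit 321) (nat_lit 302) r8_321 r2_302 (nat_lit 0) (nat_lit 0) (nat_lit 0) (nat_lit 0x8017985b4) (nat_lit 536870912),
  Rx.mk (nat_lit 109) (nat_lit 5) (nat_lit 5) (nat_lit 1) (nat_lit 7) (nat_lit 322) (nat_lit 303) r8_322 r2_303 (nat_lit 0) (nat_lit 0) (nat_lit 0) (nat_lit 0x8017985b4) (nat_lit 536870912)]
noncomputable def e26_41 : List Rx := [
  Rx.mk (nat_lit 73) (nat_lit 1) (nat_lit 1) (nat_lit 1) (nat_lit 7) (nat_lit 326) (nat_lit 289) r8_326 r9_289 (nat_lit 0) (nat_lit 0) (nat_lit 0) (nat_lit 0x8017985b4) (nat_lit 536870912)]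
noncomputable def e26_42 : List Rx := [
  Rx.mk (nat_lit 73) (nat_lit 1) (nat_lit 1) (nat_lit 1) (nat_lit 7) (nat_lit 327) (nat_lit 297) r8_327 r9_297 (nat_lit 0) (nat_lit 0) (nat_lit 0) (nat_lit 0x8017985b4) (nat_lit 536870912),
  Rx.mk (nat_lit 105) (nat_lit 1) (nat_lit 5) (nat_lit 1) (nat_lit 7) (nat_lit 328) (nat_lit 296) r8_328 r9_296 (nat_lit 0) (nat_lit 0) (nat_lit 0) (nat_lit 0x8017985b4) (nat_lit 536870912),
  Rx.mk (nat_lit 109) (nat_lit 5) (nat_lit 5) (nat_lit 1) (nat_lit 7) (nat_lit 329) (nat_lit 295) r8_329 r9_295 (nat_lit 0) (nat_lit 0) (nat_lit 0) (nat_lit 0x8017985b4) (nat_lit 536870912),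
  Rx.mk (nat_lit 365) (nat_lit 5) (nat_lit 5) (nat_lit 5) (nat_lit 7) (nat_lit 330) (nat_lit 294) r8_330 r9_294 (nat_lit 0) (nat_lit 0) (nat_lit 0) (nat_lit 0x8017985b4) (nat_lit 536870912)]
noncomputable def e26_43 : List Rx := [
  Rx.mk (nat_lit 9) (nat_lit 1) (nat_lit 1) (nat_lit 0) (nat_lit 3) (nat_lit 316) (nat_lit 274) r8_316 r1_274 (nat_lit 0) (nat_lit 0) (nat_lit 24586055) (nat_lit 0x80057ba20) (nat_lit 562565917),
  Rx.mk (nat_lit 41) (nat_lit 1) (nat_lit 5) (nat_lit 0) (nat_lit 3) (nat_lit 318) (nat_lit 276) r8_318 r1_276 (nat_lit 0) (nat_lit 0) (nat_lit 24741287) (nat_lit 0x8017985b4) (nat_lit 561612199),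
  Rx.mk (nat_lit 73) (nat_lit 1) (nat_lit 1) (nat_lit 1) (nat_lit 7) (nat_lit 317) (nat_lit 275) r8_317 r1_275 (nat_lit 0) (nat_lit 0) (nat_lit 0) (nat_lit 0x8017985b4) (nat_lit 536870912),
  Rx.mk (nat_lit 105) (nat_lit 1) (nat_lit 5) (nat_lit 1) (nat_lit 7) (nat_lit 319) (nat_lit 277) r8_319 r1_277 (nat_lit 0) (nat_lit 0) (nat_lit 0) (nat_lit 0x8017985b4) (nat_lit 536870912)]
noncomputable def e26_44 : List Rx := [
  Rx.mk (nat_lit 9) (nat_lit 1) (nat_lit 1) (nat_lit 0) (nat_lit 3) (nat_lit 323) (nat_lit 191) r8_323 r8_191 (nat_lit 0) (nat_lit 0) (nat_lit 24741287) (nat_lit 0x8017985b4) (nat_lit 561612199),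
  Rx.mk (nat_lit 73) (nat_lit 1) (nat_lit 1) (nat_lit 1) (nat_lit 7) (nat_lit 324) (nat_lit 192) r8_324 r8_192 (nat_lit 0) (nat_lit 0) (nat_lit 0) (nat_lit 0x8017985b4) (nat_lit 536870912),
  Rx.mk (nat_lit 137) (nat_lit 1) (nat_lit 1) (nat_lit 2) (nat_lit 7) (nat_lit 325) (nat_lit 193) r8_325 r8_193 (nat_lit 0) (nat_lit 0) (nat_lit 0) (nat_lit 0x8017985b4) (nat_lit 536870912)]
noncomputable def e26_45 : List Rx := [
  Rx.mk (nat_lit 0) (nat_lit 0) (nat_lit 0) (nat_lit 0) (nat_lit 0) (nat_lit 283) (nat_lit 201) r8_283 r1_201 (nat_lit 34852659) (nat_lit 11826643) (nat_lit 20700425) (nat_lit 0x3dc59600a) (nat_lit 1675850589),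
  Rx.mk (nat_lit 3) (nat_lit 3) (nat_lit 0) (nat_lit 0) (nat_lit 1) (nat_lit 286) (nat_lit 206) r8_286 r1_206 (nat_lit 0) (nat_lit 31654428) (nat_lit 33972801) (nat_lit 0x6c187865a) (nat_lit 925088641),
  Rx.mk (nat_lit 8) (nat_lit 0) (nat_lit 1) (nat_lit 0) (nat_lit 2) (nat_lit 289) (nat_lit 202) r8_289 r1_202 (nat_lit 29801349) (nat_lit 0) (nat_lit 32376877) (nat_lit 0x669a3f496) (nat_lit 1010443188),
  Rx.mk (nat_lit 11) (nat_lit 3) (nat_lit 1) (nat_lit 0) (nat_lit 3) (nat_lit 293) (nat_lit 207) r8_293 r1_207 (nat_lit 0) (nat_lit 0) (nat_lit 25834482) (nat_lit 0x7f77d0d42) (nat_lit 572534144),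
  Rx.mk (nat_lit 72) (nat_lit 0) (nat_lit 1) (nat_lit 1) (nat_lit 6) (nat_lit 290) (nat_lit 203) r8_290 r1_203 (nat_lit 25018304) (nat_lit 0) (nat_lit 0) (nat_lit 0x7fdcdbf2a) (nat_lit 565476766),
  Rx.mk (nat_lit 75) (nat_lit 3) (nat_lit 1) (nat_lit 1) (nat_lit 7) (nat_lit 294) (nat_lit 208) r8_294 r1_208 (nat_lit 0) (nat_lit 0) (nat_lit 0) (nat_lit 0x8017985b4) (nat_lit 536870912),
  Rx.mk (nat_lit 128) (nat_lit 0) (nat_lit 0) (nat_lit 2) (nat_lit 4) (nat_lit 284) (nat_lit 204) r8_284 r1_204 (nat_lit 57475971) (nat_lit 26799246) (nat_lit 0) (nat_lit 0x672d75b5c) (nat_lit 1023262029),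
  Rx.mk (nat_lit 130) (nat_lit 2) (nat_lit 0) (nat_lit 2) (nat_lit 5) (nat_lit 285) (nat_lit 214) r8_285 r1_214 (nat_lit 0) (nat_lit 25082552) (nat_lit 0) (nat_lit 0x71434a6d0) (nat_lit 800991214),
  Rx.mk (nat_lit 131) (nat_lit 3) (nat_lit 0) (nat_lit 2) (nat_lit 5) (nat_lit 287) (nat_lit 212) r8_287 r1_212 (nat_lit 0) (nat_lit 24741287) (nat_lit 0) (nat_lit 0x8017985b4) (nat_lit 561612199),
  Rx.mk (nat_lit 136) (nat_lit 0) (nat_lit 1) (nat_lit 2) (nat_lit 6) (nat_lit 291) (nat_lit 205) r8_291 r1_205 (nat_lit 25047671) (nat_lit 0) (nat_lit 0) (nat_lit 0x804337652) (nat_lit 559218933),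
  Rx.mk (nat_lit 138) (nat_lit 2) (nat_lit 1) (nat_lit 2) (nat_lit 7) (nat_lit 292) (nat_lit 215) r8_292 r1_215 (nat_lit 0) (nat_lit 0) (nat_lit 0) (nat_lit 0x808e1a7dc) (nat_lit 529571662),
  Rx.mk (nat_lit 139) (nat_lit 3) (nat_lit 1) (nat_lit 2) (nat_lit 7) (nat_lit 295) (nat_lit 213) r8_295 r1_213 (nat_lit 0) (nat_lit 0) (nat_lit 0) (nat_lit 0x8017985b4) (nat_lit 536870912),
  Rx.mk (nat_lit 146) (nat_lit 2) (nat_lit 2) (nat_lit 2) (nat_lit 7) (nat_lit 297) (nat_lit 216) r8_297 r1_216 (nat_lit 0) (nat_lit 0) (nat_lit 0) (nat_lit 0x7ed9578a0) (nat_lit 556568262),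
  Rx.mk (nat_lit 195) (nat_lit 3) (nat_lit 0) (nat_lit 3) (nat_lit 5) (nat_lit 288) (nat_lit 209) r8_288 r1_209 (nat_lit 0) (nat_lit 24741287) (nat_lit 0) (nat_lit 0x8017985b4) (nat_lit 561612199),
  Rx.mk (nat_lit 203) (nat_lit 3) (nat_lit 1) (nat_lit 3) (nat_lit 7) (nat_lit 296) (nat_lit 210) r8_296 r1_210 (nat_lit 0) (nat_lit 0) (nat_lit 0) (nat_lit 0x8017985b4) (nat_lit 536870912),
  Rx.mk (nat_lit 219) (nat_lit 3) (nat_lit 3) (nat_lit 3) (nat_lit 7) (nat_lit 298) (nat_lit 211) r8_298 r1_211 (nat_lit 0) (nat_lit 0) (nat_lit 0) (nat_lit 0x8017985b4) (nat_lit 536870912)]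
noncomputable def e26_46 : List Rx := [
  Rx.mk (nat_lit 0) (nat_lit 0) (nat_lit 0) (nat_lit 0) (nat_lit 0) (nat_lit 257) (nat_lit 221) r8_257 r2_221 (nat_lit 9703689) (nat_lit 8042902) (nat_lit 7956767) (nat_lit 0x3b91a0bee) (nat_lit 1669754570),
  Rx.mk (nat_lit 3) (nat_lit 3) (nat_lit 0) (nat_lit 0) (nat_lit 1) (nat_lit 260) (nat_lit 223) r8_260 r2_223 (nat_lit 0) (nat_lit 26855489) (nat_lit 23014465) (nat_lit 0x65ff1eed0) (nat_lit 1007952966),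
  Rx.mk (nat_lit 27) (nat_lit 3) (nat_lit 3) (nat_lit 0) (nat_lit 3) (nat_lit 263) (nat_lit 224) r8_263 r2_224 (nat_lit 0) (nat_lit 0) (nat_lit 24741287) (nat_lit 0x8005746a8) (nat_lit 562722999),
  Rx.mk (nat_lit 128) (nat_lit 0) (nat_lit 0) (nat_lit 2) (nat_lit 4) (nat_lit 258) (nat_lit 222) r8_258 r2_222 (nat_lit 23096430) (nat_lit 26195638) (nat_lit 0) (nat_lit 0x64c1b892a) (nat_lit 1027421630),
  Rx.mk (nat_lit 130) (nat_lit 2) (nat_lit 0) (nat_lit 2) (nat_lit 5) (nat_lit 259) (nat_lit 228) r8_259 r2_228 (nat_lit 0) (nat_lit 24741287) (nat_lit 0) (nat_lit 0x8017985b4) (nat_lit 561612199),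
  Rx.mk (nat_lit 131) (nat_lit 3) (nat_lit 0) (nat_lit 2) (nat_lit 5) (nat_lit 261) (nat_lit 226) r8_261 r2_226 (nat_lit 0) (nat_lit 25403330) (nat_lit 0) (nat_lit 0x7ff0757d4) (nat_lit 564659792),
  Rx.mk (nat_lit 146) (nat_lit 2) (nat_lit 2) (nat_lit 2) (nat_lit 7) (nat_lit 262) (nat_lit 229) r8_262 r2_229 (nat_lit 0) (nat_lit 0) (nat_lit 0) (nat_lit 0x8017985b4) (nat_lit 536870912),
  Rx.mk (nat_lit 155) (nat_lit 3) (nat_lit 3) (nat_lit 2) (nat_lit 7) (nat_lit 264) (nat_lit 227) r8_264 r2_227 (nat_lit 0) (nat_lit 0) (nat_lit 0) (nat_lit 0x8017985b4) (nat_lit 536870912),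
  Rx.mk (nat_lit 219) (nat_lit 3) (nat_lit 3) (nat_lit 3) (nat_lit 7) (nat_lit 265) (nat_lit 225) r8_265 r2_225 (nat_lit 0) (nat_lit 0) (nat_lit 0) (nat_lit 0x8017985b4) (nat_lit 536870912)]
noncomputable def e26_47 : List Rx := [
  Rx.mk (nat_lit 0) (nat_lit 0) (nat_lit 0) (nat_lit 0) (nat_lit 0) (nat_lit 299) (nat_lit 299) r8_299 r8_299 (nat_lit 49404879) (nat_lit 24537386) (nat_lit 49404879) (nat_lit 0x3fed72ca2) (nat_lit 1697003556),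
  Rx.mk (nat_lit 3) (nat_lit 3) (nat_lit 0) (nat_lit 0) (nat_lit 1) (nat_lit 302) (nat_lit 300) r8_302 r8_300 (nat_lit 0) (nat_lit 44632481) (nat_lit 39717842) (nat_lit 0x6cbc2f938) (nat_lit 933479835),
  Rx.mk (nat_lit 8) (nat_lit 0) (nat_lit 1) (nat_lit 0) (nat_lit 2) (nat_lit 304) (nat_lit 304) r8_304 r8_304 (nat_lit 73831755) (nat_lit 0) (nat_lit 73831755) (nat_lit 0x6cd203c6e) (nat_lit 995409072),
  Rx.mk (nat_lit 9) (nat_lit 1) (nat_lit 1) (nat_lit 0) (nat_lit 3) (nat_lit 307) (nat_lit 305) r8_307 r8_305 (nat_lit 0) (nat_lit 0) (nat_lit 23858381) (nat_lit 0x7fdfd7f80) (nat_lit 564143543),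
  Rx.mk (nat_lit 11) (nat_lit 3) (nat_lit 1) (nat_lit 0) (nat_lit 3) (nat_lit 311) (nat_lit 306) r8_311 r8_306 (nat_lit 0) (nat_lit 0) (nat_lit 24741287) (nat_lit 0x8017985b4) (nat_lit 561612199),
  Rx.mk (nat_lit 72) (nat_lit 0) (nat_lit 1) (nat_lit 1) (nat_lit 6) (nat_lit 305) (nat_lit 307) r8_305 r8_307 (nat_lit 23858381) (nat_lit 0) (nat_lit 0) (nat_lit 0x7fdfd7f80) (nat_lit 564143543),
  Rx.mk (nat_lit 73) (nat_lit 1) (nat_lit 1) (nat_lit 1) (nat_lit 7) (nat_lit 308) (nat_lit 308) r8_308 r8_308 (nat_lit 0) (nat_lit 0) (nat_lit 0) (nat_lit 0x8017985b4) (nat_lit 536870912),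
  Rx.mk (nat_lit 75) (nat_lit 3) (nat_lit 1) (nat_lit 1) (nat_lit 7) (nat_lit 312) (nat_lit 309) r8_312 r8_309 (nat_lit 0) (nat_lit 0) (nat_lit 0) (nat_lit 0x8017985b4) (nat_lit 536870912),
  Rx.mk (nat_lit 128) (nat_lit 0) (nat_lit 0) (nat_lit 2) (nat_lit 4) (nat_lit 300) (nat_lit 302) r8_300 r8_302 (nat_lit 39717842) (nat_lit 44632481) (nat_lit 0) (nat_lit 0x6cbc2f938) (nat_lit 933479835),
  Rx.mk (nat_lit 130) (nat_lit 2) (nat_lit 0) (nat_lit 2) (nat_lit 5) (nat_lit 301) (nat_lit 303) r8_301 r8_303 (nat_lit 0) (nat_lit 24741287) (nat_lit 0) (nat_lit 0x8017985b4) (nat_lit 561612199),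
  Rx.mk (nat_lit 136) (nat_lit 0) (nat_lit 1) (nat_lit 2) (nat_lit 6) (nat_lit 306) (nat_lit 311) r8_306 r8_311 (nat_lit 24741287) (nat_lit 0) (nat_lit 0) (nat_lit 0x8017985b4) (nat_lit 561612199),
  Rx.mk (nat_lit 137) (nat_lit 1) (nat_lit 1) (nat_lit 2) (nat_lit 7) (nat_lit 309) (nat_lit 312) r8_309 r8_312 (nat_lit 0) (nat_lit 0) (nat_lit 0) (nat_lit 0x8017985b4) (nat_lit 536870912),
  Rx.mk (nat_lit 138) (nat_lit 2) (nat_lit 1) (nat_lit 2) (nat_lit 7) (nat_lit 310) (nat_lit 313) r8_310 r8_313 (nat_lit 0) (nat_lit 0) (nat_lit 0) (nat_lit 0x8017985b4) (nat_lit 536870912),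
  Rx.mk (nat_lit 146) (nat_lit 2) (nat_lit 2) (nat_lit 2) (nat_lit 7) (nat_lit 314) (nat_lit 315) r8_314 r8_315 (nat_lit 0) (nat_lit 0) (nat_lit 0) (nat_lit 0x8017985b4) (nat_lit 536870912),
  Rx.mk (nat_lit 195) (nat_lit 3) (nat_lit 0) (nat_lit 3) (nat_lit 5) (nat_lit 303) (nat_lit 301) r8_303 r8_301 (nat_lit 0) (nat_lit 24741287) (nat_lit 0) (nat_lit 0x8017985b4) (nat_lit 561612199),
  Rx.mk (nat_lit 203) (nat_lit 3) (nat_lit 1) (nat_lit 3) (nat_lit 7) (nat_lit 313) (nat_lit 310) r8_313 r8_310 (nat_lit 0) (nat_lit 0) (nat_lit 0) (nat_lit 0x8017985b4) (nat_lit 536870912),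
  Rx.mk (nat_lit 219) (nat_lit 3) (nat_lit 3) (nat_lit 3) (nat_lit 7) (nat_lit 315) (nat_lit 314) r8_315 r8_314 (nat_lit 0) (nat_lit 0) (nat_lit 0) (nat_lit 0x8017985b4) (nat_lit 536870912)]
noncomputable def e26_48 : List Rx := [
  Rx.mk (nat_lit 0) (nat_lit 0) (nat_lit 0) (nat_lit 0) (nat_lit 0) (nat_lit 266) (nat_lit 202) r8_266 r9_202 (nat_lit 37514210) (nat_lit 16962537) (nat_lit 23929726) (nat_lit 0x3e09e15de) (nat_lit 1682604485),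
  Rx.mk (nat_lit 3) (nat_lit 3) (nat_lit 0) (nat_lit 0) (nat_lit 1) (nat_lit 269) (nat_lit 204) r8_269 r9_204 (nat_lit 0) (nat_lit 29280147) (nat_lit 25355923) (nat_lit 0x6cdd7d4fa) (nat_lit 901656982),
  Rx.mk (nat_lit 27) (nat_lit 3) (nat_lit 3) (nat_lit 0) (nat_lit 3) (nat_lit 271) (nat_lit 205) r8_271 r9_205 (nat_lit 0) (nat_lit 0) (nat_lit 24741287) (nat_lit 0x8017985b4) (nat_lit 561612199),
  Rx.mk (nat_lit 128) (nat_lit 0) (nat_lit 0) (nat_lit 2) (nat_lit 4) (nat_lit 267) (nat_lit 203) r8_267 r9_203 (nat_lit 27096766) (nat_lit 34060215) (nat_lit 0) (nat_lit 0x698596640) (nat_lit 962235943),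
  Rx.mk (nat_lit 130) (nat_lit 2) (nat_lit 0) (nat_lit 2) (nat_lit 5) (nat_lit 268) (nat_lit 207) r8_268 r9_207 (nat_lit 0) (nat_lit 24537189) (nat_lit 0) (nat_lit 0x8007ecd18) (nat_lit 562365701),
  Rx.mk (nat_lit 146) (nat_lit 2) (nat_lit 2) (nat_lit 2) (nat_lit 7) (nat_lit 270) (nat_lit 208) r8_270 r9_208 (nat_lit 0) (nat_lit 0) (nat_lit 0) (nat_lit 0x8017985b4) (nat_lit 536870912),
  Rx.mk (nat_lit 219) (nat_lit 3) (nat_lit 3) (nat_lit 3) (nat_lit 7) (nat_lit 272) (nat_lit 206) r8_272 r9_206 (nat_lit 0) (nat_lit 0) (nat_lit 0) (nat_lit 0x8017985b4) (nat_lit 536870912)]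
noncomputable def e26_49 : List Rx := [
  Rx.mk (nat_lit 0) (nat_lit 0) (nat_lit 0) (nat_lit 0) (nat_lit 0) (nat_lit 273) (nat_lit 99) r8_273 r9_99 (nat_lit 46447449) (nat_lit 15284300) (nat_lit 18790511) (nat_lit 0x3cee725c4) (nat_lit 1702614672),
  Rx.mk (nat_lit 3) (nat_lit 3) (nat_lit 0) (nat_lit 0) (nat_lit 1) (nat_lit 276) (nat_lit 100) r8_276 r9_100 (nat_lit 0) (nat_lit 26650245) (nat_lit 23999425) (nat_lit 0x66dd7892e) (nat_lit 994688732),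
  Rx.mk (nat_lit 27) (nat_lit 3) (nat_lit 3) (nat_lit 0) (nat_lit 3) (nat_lit 280) (nat_lit 101) r8_280 r9_101 (nat_lit 0) (nat_lit 0) (nat_lit 24741287) (nat_lit 0x7ff1b40e6) (nat_lit 563929249),
  Rx.mk (nat_lit 128) (nat_lit 0) (nat_lit 0) (nat_lit 2) (nat_lit 4) (nat_lit 274) (nat_lit 103) r8_274 r9_103 (nat_lit 23607638) (nat_lit 24950323) (nat_lit 0) (nat_lit 0x64fca11c2) (nat_lit 1022966473),
  Rx.mk (nat_lit 130) (nat_lit 2) (nat_lit 0) (nat_lit 2) (nat_lit 5) (nat_lit 275) (nat_lit 106) r8_275 r9_106 (nat_lit 0) (nat_lit 24741287) (nat_lit 0) (nat_lit 0x800b35984) (nat_lit 562371349),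
  Rx.mk (nat_lit 131) (nat_lit 3) (nat_lit 0) (nat_lit 2) (nat_lit 5) (nat_lit 277) (nat_lit 104) r8_277 r9_104 (nat_lit 0) (nat_lit 24488988) (nat_lit 0) (nat_lit 0x7ff6155ae) (nat_lit 563408300),
  Rx.mk (nat_lit 146) (nat_lit 2) (nat_lit 2) (nat_lit 2) (nat_lit 7) (nat_lit 278) (nat_lit 107) r8_278 r9_107 (nat_lit 0) (nat_lit 0) (nat_lit 0) (nat_lit 0x8017985b4) (nat_lit 536870912),
  Rx.mk (nat_lit 155) (nat_lit 3) (nat_lit 3) (nat_lit 2) (nat_lit 7) (nat_lit 281) (nat_lit 105) r8_281 r9_105 (nat_lit 0) (nat_lit 0) (nat_lit 0) (nat_lit 0x8017985b4) (nat_lit 536870912),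
  Rx.mk (nat_lit 219) (nat_lit 3) (nat_lit 3) (nat_lit 3) (nat_lit 7) (nat_lit 282) (nat_lit 102) r8_282 r9_102 (nat_lit 0) (nat_lit 0) (nat_lit 0) (nat_lit 0x8017985b4) (nat_lit 536870912),
  Rx.mk (nat_lit 402) (nat_lit 2) (nat_lit 2) (nat_lit 6) (nat_lit 7) (nat_lit 279) (nat_lit 108) r8_279 r9_108 (nat_lit 0) (nat_lit 0) (nat_lit 0) (nat_lit 0x8017985b4) (nat_lit 536870912)]
noncomputable def e26_50 : List Rx := [
  Rx.mk (nat_lit 11) (nat_lit 3) (nat_lit 1) (nat_lit 0) (nat_lit 3) (nat_lit 331) (nat_lit 176) r8_331 r3_176 (nat_lit 0) (nat_lit 0) (nat_lit 14122163) (nat_lit 0x6b5780b64) (nat_lit 885726425),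
  Rx.mk (nat_lit 40) (nat_lit 0) (nat_lit 5) (nat_lit 0) (nat_lit 2) (nat_lit 334) (nat_lit 173) r8_334 r3_173 (nat_lit 913664) (nat_lit 0) (nat_lit 875122) (nat_lit 0x5cc5f9ef6) (nat_lit 1108454298),
  Rx.mk (nat_lit 43) (nat_lit 3) (nat_lit 5) (nat_lit 0) (nat_lit 3) (nat_lit 336) (nat_lit 175) r8_336 r3_175 (nat_lit 0) (nat_lit 0) (nat_lit 6010146) (nat_lit 0x6e1566726) (nat_lit 833142708),
  Rx.mk (nat_lit 75) (nat_lit 3) (nat_lit 1) (nat_lit 1) (nat_lit 7) (nat_lit 332) (nat_lit 178) r8_332 r3_178 (nat_lit 0) (nat_lit 0) (nat_lit 0) (nat_lit 0x8017985b4) (nat_lit 536870912),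
  Rx.mk (nat_lit 104) (nat_lit 0) (nat_lit 5) (nat_lit 1) (nat_lit 6) (nat_lit 335) (nat_lit 174) r8_335 r3_174 (nat_lit 20103359) (nat_lit 0) (nat_lit 0) (nat_lit 0x733b06e04) (nat_lit 764186071),
  Rx.mk (nat_lit 107) (nat_lit 3) (nat_lit 5) (nat_lit 1) (nat_lit 7) (nat_lit 337) (nat_lit 177) r8_337 r3_177 (nat_lit 0) (nat_lit 0) (nat_lit 0) (nat_lit 0x7f8ae4a3c) (nat_lit 545526512),
  Rx.mk (nat_lit 203) (nat_lit 3) (nat_lit 1) (nat_lit 3) (nat_lit 7) (nat_lit 333) (nat_lit 179) r8_333 r3_179 (nat_lit 0) (nat_lit 0) (nat_lit 0) (nat_lit 0x7f54cbf2c) (nat_lit 548916912)]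
noncomputable def e26_51 : List Rx := [
  Rx.mk (nat_lit 11) (nat_lit 3) (nat_lit 1) (nat_lit 0) (nat_lit 3) (nat_lit 351) (nat_lit 177) r8_351 r4_177 (nat_lit 0) (nat_lit 0) (nat_lit 24741287) (nat_lit 0x8017985b4) (nat_lit 561612199),
  Rx.mk (nat_lit 75) (nat_lit 3) (nat_lit 1) (nat_lit 1) (nat_lit 7) (nat_lit 352) (nat_lit 178) r8_352 r4_178 (nat_lit 0) (nat_lit 0) (nat_lit 0) (nat_lit 0x8017985b4) (nat_lit 536870912),
  Rx.mk (nat_lit 139) (nat_lit 3) (nat_lit 1) (nat_lit 2) (nat_lit 7) (nat_lit 353) (nat_lit 180) r8_353 r4_180 (nat_lit 0) (nat_lit 0) (nat_lit 0) (nat_lit 0x8017985b4) (nat_lit 536870912),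
  Rx.mk (nat_lit 203) (nat_lit 3) (nat_lit 1) (nat_lit 3) (nat_lit 7) (nat_lit 354) (nat_lit 179) r8_354 r4_179 (nat_lit 0) (nat_lit 0) (nat_lit 0) (nat_lit 0x8017985b4) (nat_lit 536870912)]
noncomputable def e26_52 : List Rx := [
  Rx.mk (nat_lit 40) (nat_lit 0) (nat_lit 5) (nat_lit 0) (nat_lit 2) (nat_lit 362) (nat_lit 191) r8_362 r5_191 (nat_lit 40282511) (nat_lit 0) (nat_lit 13579307) (nat_lit 0x676dbd25a) (nat_lit 988710430),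
  Rx.mk (nat_lit 43) (nat_lit 3) (nat_lit 5) (nat_lit 0) (nat_lit 3) (nat_lit 364) (nat_lit 193) r8_364 r5_193 (nat_lit 0) (nat_lit 0) (nat_lit 26008793) (nat_lit 0x78bef927a) (nat_lit 680926905),
  Rx.mk (nat_lit 104) (nat_lit 0) (nat_lit 5) (nat_lit 1) (nat_lit 6) (nat_lit 363) (nat_lit 192) r8_363 r5_192 (nat_lit 24741287) (nat_lit 0) (nat_lit 0) (nat_lit 0x7fc98e4ea) (nat_lit 566401349),
  Rx.mk (nat_lit 107) (nat_lit 3) (nat_lit 5) (nat_lit 1) (nat_lit 7) (nat_lit 365) (nat_lit 194) r8_365 r5_194 (nat_lit 0) (nat_lit 0) (nat_lit 0) (nat_lit 0x8017985b4) (nat_lit 536870912),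
  Rx.mk (nat_lit 203) (nat_lit 3) (nat_lit 1) (nat_lit 3) (nat_lit 7) (nat_lit 361) (nat_lit 196) r8_361 r5_196 (nat_lit 0) (nat_lit 0) (nat_lit 0) (nat_lit 0x8017985b4) (nat_lit 536870912),
  Rx.mk (nat_lit 235) (nat_lit 3) (nat_lit 5) (nat_lit 3) (nat_lit 7) (nat_lit 366) (nat_lit 195) r8_366 r5_195 (nat_lit 0) (nat_lit 0) (nat_lit 0) (nat_lit 0x7f79cc664) (nat_lit 546583312)]
noncomputable def e26_53 : List Rx := [
  Rx.mk (nat_lit 11) (nat_lit 3) (nat_lit 1) (nat_lit 0) (nat_lit 3) (nat_lit 338) (nat_lit 284) r8_338 r4_284 (nat_lit 0) (nat_lit 0) (nat_lit 24741287) (nat_lit 0x8017985b4) (nat_lit 561612199),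
  Rx.mk (nat_lit 40) (nat_lit 0) (nat_lit 5) (nat_lit 0) (nat_lit 2) (nat_lit 341) (nat_lit 287) r8_341 r4_287 (nat_lit 34758505) (nat_lit 0) (nat_lit 27124229) (nat_lit 0x700d128ac) (nat_lit 857380996),
  Rx.mk (nat_lit 41) (nat_lit 1) (nat_lit 5) (nat_lit 0) (nat_lit 3) (nat_lit 343) (nat_lit 288) r8_343 r4_288 (nat_lit 0) (nat_lit 0) (nat_lit 24741287) (nat_lit 0x7ff500268) (nat_lit 563728899),
  Rx.mk (nat_lit 43) (nat_lit 3) (nat_lit 5) (nat_lit 0) (nat_lit 3) (nat_lit 345) (nat_lit 289) r8_345 r4_289 (nat_lit 0) (nat_lit 0) (nat_lit 24741287) (nat_lit 0x8017985b4) (nat_lit 561612199),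
  Rx.mk (nat_lit 75) (nat_lit 3) (nat_lit 1) (nat_lit 1) (nat_lit 7) (nat_lit 339) (nat_lit 285) r8_339 r4_285 (nat_lit 0) (nat_lit 0) (nat_lit 0) (nat_lit 0x8017985b4) (nat_lit 536870912),
  Rx.mk (nat_lit 104) (nat_lit 0) (nat_lit 5) (nat_lit 1) (nat_lit 6) (nat_lit 342) (nat_lit 290) r8_342 r4_290 (nat_lit 24741287) (nat_lit 0) (nat_lit 0) (nat_lit 0x8017985b4) (nat_lit 561612199),
  Rx.mk (nat_lit 105) (nat_lit 1) (nat_lit 5) (nat_lit 1) (nat_lit 7) (nat_lit 344) (nat_lit 291) r8_344 r4_291 (nat_lit 0) (nat_lit 0) (nat_lit 0) (nat_lit 0x8017985b4) (nat_lit 536870912),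
  Rx.mk (nat_lit 107) (nat_lit 3) (nat_lit 5) (nat_lit 1) (nat_lit 7) (nat_lit 346) (nat_lit 292) r8_346 r4_292 (nat_lit 0) (nat_lit 0) (nat_lit 0) (nat_lit 0x8017985b4) (nat_lit 536870912),
  Rx.mk (nat_lit 203) (nat_lit 3) (nat_lit 1) (nat_lit 3) (nat_lit 7) (nat_lit 340) (nat_lit 286) r8_340 r4_286 (nat_lit 0) (nat_lit 0) (nat_lit 0) (nat_lit 0x8017985b4) (nat_lit 536870912)]
noncomputable def e26_54 : List Rx := [
  Rx.mk (nat_lit 11) (nat_lit 3) (nat_lit 1) (nat_lit 0) (nat_lit 3) (nat_lit 355) (nat_lit 195) r8_355 r10_195 (nat_lit 0) (nat_lit 0) (nat_lit 24634759) (nat_lit 0x800b33de6) (nat_lit 562264771),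
  Rx.mk (nat_lit 75) (nat_lit 3) (nat_lit 1) (nat_lit 1) (nat_lit 7) (nat_lit 356) (nat_lit 196) r8_356 r10_196 (nat_lit 0) (nat_lit 0) (nat_lit 0) (nat_lit 0x8017985b4) (nat_lit 536870912),
  Rx.mk (nat_lit 203) (nat_lit 3) (nat_lit 1) (nat_lit 3) (nat_lit 7) (nat_lit 357) (nat_lit 197) r8_357 r10_197 (nat_lit 0) (nat_lit 0) (nat_lit 0) (nat_lit 0x8017985b4) (nat_lit 536870912)]
noncomputable def e26_55 : List Rx := [
  Rx.mk (nat_lit 40) (nat_lit 0) (nat_lit 5) (nat_lit 0) (nat_lit 2) (nat_lit 368) (nat_lit 222) r8_368 r11_222 (nat_lit 93109333) (nat_lit 0) (nat_lit 49696383) (nat_lit 0x7a0dfb9e4) (nat_lit 776624328),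
  Rx.mk (nat_lit 41) (nat_lit 1) (nat_lit 5) (nat_lit 0) (nat_lit 3) (nat_lit 370) (nat_lit 224) r8_370 r11_224 (nat_lit 0) (nat_lit 0) (nat_lit 24741287) (nat_lit 0x8017985b4) (nat_lit 561612199),
  Rx.mk (nat_lit 43) (nat_lit 3) (nat_lit 5) (nat_lit 0) (nat_lit 3) (nat_lit 372) (nat_lit 226) r8_372 r11_226 (nat_lit 0) (nat_lit 0) (nat_lit 24741287) (nat_lit 0x8017985b4) (nat_lit 561612199),
  Rx.mk (nat_lit 104) (nat_lit 0) (nat_lit 5) (nat_lit 1) (nat_lit 6) (nat_lit 369) (nat_lit 223) r8_369 r11_223 (nat_lit 24741287) (nat_lit 0) (nat_lit 0) (nat_lit 0x8017985b4) (nat_lit 561612199),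
  Rx.mk (nat_lit 105) (nat_lit 1) (nat_lit 5) (nat_lit 1) (nat_lit 7) (nat_lit 371) (nat_lit 225) r8_371 r11_225 (nat_lit 0) (nat_lit 0) (nat_lit 0) (nat_lit 0x8017985b4) (nat_lit 536870912),
  Rx.mk (nat_lit 107) (nat_lit 3) (nat_lit 5) (nat_lit 1) (nat_lit 7) (nat_lit 373) (nat_lit 227) r8_373 r11_227 (nat_lit 0) (nat_lit 0) (nat_lit 0) (nat_lit 0x8017985b4) (nat_lit 536870912),
  Rx.mk (nat_lit 203) (nat_lit 3) (nat_lit 1) (nat_lit 3) (nat_lit 7) (nat_lit 367) (nat_lit 229) r8_367 r11_229 (nat_lit 0) (nat_lit 0) (nat_lit 0) (nat_lit 0x8017985b4) (nat_lit 536870912),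
  Rx.mk (nat_lit 235) (nat_lit 3) (nat_lit 5) (nat_lit 3) (nat_lit 7) (nat_lit 374) (nat_lit 228) r8_374 r11_228 (nat_lit 0) (nat_lit 0) (nat_lit 0) (nat_lit 0x8017985b4) (nat_lit 536870912)]
noncomputable def e26_56 : List Rx := [
  Rx.mk (nat_lit 11) (nat_lit 3) (nat_lit 1) (nat_lit 0) (nat_lit 3) (nat_lit 347) (nat_lit 269) r8_347 r5_269 (nat_lit 0) (nat_lit 0) (nat_lit 26407128) (nat_lit 0x7ed75b9ac) (nat_lit 583090140),
  Rx.mk (nat_lit 43) (nat_lit 3) (nat_lit 5) (nat_lit 0) (nat_lit 3) (nat_lit 349) (nat_lit 271) r8_349 r5_271 (nat_lit 0) (nat_lit 0) (nat_lit 26551209) (nat_lit 0x7f5f75306) (nat_lit 574765171),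
  Rx.mk (nat_lit 75) (nat_lit 3) (nat_lit 1) (nat_lit 1) (nat_lit 7) (nat_lit 348) (nat_lit 270) r8_348 r5_270 (nat_lit 0) (nat_lit 0) (nat_lit 0) (nat_lit 0x8017985b4) (nat_lit 536870912),
  Rx.mk (nat_lit 107) (nat_lit 3) (nat_lit 5) (nat_lit 1) (nat_lit 7) (nat_lit 350) (nat_lit 272) r8_350 r5_272 (nat_lit 0) (nat_lit 0) (nat_lit 0) (nat_lit 0x8017985b4) (nat_lit 536870912)]
noncomputable def e26_57 : List Rx := [
  Rx.mk (nat_lit 11) (nat_lit 3) (nat_lit 1) (nat_lit 0) (nat_lit 3) (nat_lit 358) (nat_lit 335) r8_358 r11_335 (nat_lit 0) (nat_lit 0) (nat_lit 24741287) (nat_lit 0x8017985b4) (nat_lit 561612199),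
  Rx.mk (nat_lit 75) (nat_lit 3) (nat_lit 1) (nat_lit 1) (nat_lit 7) (nat_lit 359) (nat_lit 336) r8_359 r11_336 (nat_lit 0) (nat_lit 0) (nat_lit 0) (nat_lit 0x8017985b4) (nat_lit 536870912),
  Rx.mk (nat_lit 139) (nat_lit 3) (nat_lit 1) (nat_lit 2) (nat_lit 7) (nat_lit 360) (nat_lit 337) r8_360 r11_337 (nat_lit 0) (nat_lit 0) (nat_lit 0) (nat_lit 0x8017985b4) (nat_lit 536870912)]
noncomputable def e26 : List (List Rx) := [e26_0, e26_1, e26_2, e26_3, e26_4, e26_5, e26_6, e26_7, e26_8, e26_9, e26_10, e26_11, e26_12, e26_13, e26_14, e26_15, e26_16, e26_17, e26_18, e26_19, e26_20, e26_21, e26_22, e26_23, e26_24, e26_25, e26_26, e26_27, e26_28, e26_29, e26_30, e26_31, e26_32, e26_33, e26_34, e26_35, e26_36, e26_37, e26_38, e26_39, e26_40, e26_41, e26_42, e26_43, e26_44, e26_45, e26_46, e26_47, e26_48, e26_49, e26_50, e26_51, e26_52, e26_53, e26_54, e26_55, e26_56,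 e26_57]
noncomputable def e27_0 : List Rx := [
  Rx.mk (nat_lit 356) (nat_lit 4) (nat_lit 4) (nat_lit 5) (nat_lit 4) (nat_lit 241) (nat_lit 188) r8_241 r0_188 (nat_lit 24251954) (nat_lit 19008238) (nat_lit 0) (nat_lit 0x59ee2d664) (nat_lit 1196415754),
  Rx.mk (nat_lit 359) (nat_lit 7) (nat_lit 4) (nat_lit 5) (nat_lit 5) (nat_lit 244) (nat_lit 191) r8_244 r0_191 (nat_lit 0) (nat_lit 20123998) (nat_lit 0) (nat_lit 0x7c1a22dec) (nat_lit 620862110),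
  Rx.mk (nat_lit 364) (nat_lit 4) (nat_lit 5) (nat_lit 5) (nat_lit 6) (nat_lit 242) (nat_lit 189) r8_242 r0_189 (nat_lit 26165794) (nat_lit 0) (nat_lit 0) (nat_lit 0x7b3e3e45c) (nat_lit 640781706),
  Rx.mk (nat_lit 367) (nat_lit 7) (nat_lit 5) (nat_lit 5) (nat_lit 7) (nat_lit 245) (nat_lit 192) r8_245 r0_192 (nat_lit 0) (nat_lit 0) (nat_lit 0) (nat_lit 0x8005f486c) (nat_lit 537949312),
  Rx.mk (nat_lit 372) (nat_lit 4) (nat_lit 6) (nat_lit 5) (nat_lit 6) (nat_lit 243) (nat_lit 190) r8_243 r0_190 (nat_lit 32293832) (nat_lit 0) (nat_lit 0) (nat_lit 0x808393b6a) (nat_lit 562478594),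
  Rx.mk (nat_lit 375) (nat_lit 7) (nat_lit 6) (nat_lit 5) (nat_lit 7) (nat_lit 246) (nat_lit 194) r8_246 r0_194 (nat_lit 0) (nat_lit 0) (nat_lit 0) (nat_lit 0x8017985b4) (nat_lit 536870912),
  Rx.mk (nat_lit 383) (nat_lit 7) (nat_lit 7) (nat_lit 5) (nat_lit 7) (nat_lit 247) (nat_lit 193) r8_247 r0_193 (nat_lit 0) (nat_lit 0) (nat_lit 0) (nat_lit 0x8017985b4) (nat_lit 536870912)]
noncomputable def e27_1 : List Rx := [
  Rx.mk (nat_lit 292) (nat_lit 4) (nat_lit 4) (nat_lit 4) (nat_lit 0) (nat_lit 283) (nat_lit 201) r8_283 r1_201 (nat_lit 34852659) (nat_lit 20700425) (nat_lit 11826643) (nat_lit 0x3dc59600a) (nat_lit 1675850589),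
  Rx.mk (nat_lit 295) (nat_lit 7) (nat_lit 4) (nat_lit 4) (nat_lit 1) (nat_lit 286) (nat_lit 206) r8_286 r1_206 (nat_lit 0) (nat_lit 33972801) (nat_lit 31654428) (nat_lit 0x6c187865a) (nat_lit 925088641),
  Rx.mk (nat_lit 308) (nat_lit 4) (nat_lit 6) (nat_lit 4) (nat_lit 2) (nat_lit 284) (nat_lit 204) r8_284 r1_204 (nat_lit 57475971) (nat_lit 0) (nat_lit 26799246) (nat_lit 0x672d75b5c) (nat_lit 1023262029),
  Rx.mk (nat_lit 310) (nat_lit 6) (nat_lit 6) (nat_lit 4) (nat_lit 3) (nat_lit 285) (nat_lit 214) r8_285 r1_214 (nat_lit 0) (nat_lit 0) (nat_lit 25082552) (nat_lit 0x71434a6d0) (nat_lit 800991214),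
  Rx.mk (nat_lit 311) (nat_lit 7) (nat_lit 6) (nat_lit 4) (nat_lit 3) (nat_lit 287) (nat_lit 212) r8_287 r1_212 (nat_lit 0) (nat_lit 0) (nat_lit 24741287) (nat_lit 0x8017985b4) (nat_lit 561612199),
  Rx.mk (nat_lit 319) (nat_lit 7) (nat_lit 7) (nat_lit 4) (nat_lit 3) (nat_lit 288) (nat_lit 209) r8_288 r1_209 (nat_lit 0) (nat_lit 0) (nat_lit 24741287) (nat_lit 0x8017985b4) (nat_lit 561612199),
  Rx.mk (nat_lit 356) (nat_lit 4) (nat_lit 4) (nat_lit 5) (nat_lit 4) (nat_lit 289) (nat_lit 202) r8_289 r1_202 (nat_lit 29801349) (nat_lit 32376877) (nat_lit 0) (nat_lit 0x669a3f496) (nat_lit 1010443188),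
  Rx.mk (nat_lit 359) (nat_lit 7) (nat_lit 4) (nat_lit 5) (nat_lit 5) (nat_lit 293) (nat_lit 207) r8_293 r1_207 (nat_lit 0) (nat_lit 25834482) (nat_lit 0) (nat_lit 0x7f77d0d42) (nat_lit 572534144),
  Rx.mk (nat_lit 364) (nat_lit 4) (nat_lit 5) (nat_lit 5) (nat_lit 6) (nat_lit 290) (nat_lit 203) r8_290 r1_203 (nat_lit 25018304) (nat_lit 0) (nat_lit 0) (nat_lit 0x7fdcdbf2a) (nat_lit 565476766),
  Rx.mk (nat_lit 367) (nat_lit 7) (nat_lit 5) (nat_lit 5) (nat_lit 7) (nat_lit 294) (nat_lit 208) r8_294 r1_208 (nat_lit 0) (nat_lit 0) (nat_lit 0) (nat_lit 0x8017985b4) (nat_lit 536870912),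
  Rx.mk (nat_lit 372) (nat_lit 4) (nat_lit 6) (nat_lit 5) (nat_lit 6) (nat_lit 291) (nat_lit 205) r8_291 r1_205 (nat_lit 25047671) (nat_lit 0) (nat_lit 0) (nat_lit 0x804337652) (nat_lit 559218933),
  Rx.mk (nat_lit 374) (nat_lit 6) (nat_lit 6) (nat_lit 5) (nat_lit 7) (nat_lit 292) (nat_lit 215) r8_292 r1_215 (nat_lit 0) (nat_lit 0) (nat_lit 0) (nat_lit 0x808e1a7dc) (nat_lit 529571662),
  Rx.mk (nat_lit 375) (nat_lit 7) (nat_lit 6) (nat_lit 5) (nat_lit 7) (nat_lit 295) (nat_lit 213) r8_295 r1_213 (nat_lit 0) (nat_lit 0) (nat_lit 0) (nat_lit 0x8017985b4) (nat_lit 536870912),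
  Rx.mk (nat_lit 383) (nat_lit 7) (nat_lit 7) (nat_lit 5) (nat_lit 7) (nat_lit 296) (nat_lit 210) r8_296 r1_210 (nat_lit 0) (nat_lit 0) (nat_lit 0) (nat_lit 0x8017985b4) (nat_lit 536870912),
  Rx.mk (nat_lit 438) (nat_lit 6) (nat_lit 6) (nat_lit 6) (nat_lit 7) (nat_lit 297) (nat_lit 216) r8_297 r1_216 (nat_lit 0) (nat_lit 0) (nat_lit 0) (nat_lit 0x7ed9578a0) (nat_lit 556568262),
  Rx.mk (nat_lit 511) (nat_lit 7) (nat_lit 7) (nat_lit 7) (nat_lit 7) (nat_lit 298) (nat_lit 211) r8_298 r1_211 (nat_lit 0) (nat_lit 0) (nat_lit 0) (nat_lit 0x8017985b4) (nat_lit 536870912)]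
noncomputable def e27_2 : List Rx := [
  Rx.mk (nat_lit 292) (nat_lit 4) (nat_lit 4) (nat_lit 4) (nat_lit 0) (nat_lit 257) (nat_lit 221) r8_257 r2_221 (nat_lit 9703689) (nat_lit 7956767) (nat_lit 8042902) (nat_lit 0x3b91a0bee) (nat_lit 1669754570),
  Rx.mk (nat_lit 295) (nat_lit 7) (nat_lit 4) (nat_lit 4) (nat_lit 1) (nat_lit 260) (nat_lit 223) r8_260 r2_223 (nat_lit 0) (nat_lit 23014465) (nat_lit 26855489) (nat_lit 0x65ff1eed0) (nat_lit 1007952966),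
  Rx.mk (nat_lit 308) (nat_lit 4) (nat_lit 6) (nat_lit 4) (nat_lit 2) (nat_lit 258) (nat_lit 222) r8_258 r2_222 (nat_lit 23096430) (nat_lit 0) (nat_lit 26195638) (nat_lit 0x64c1b892a) (nat_lit 1027421630),
  Rx.mk (nat_lit 310) (nat_lit 6) (nat_lit 6) (nat_lit 4) (nat_lit 3) (nat_lit 259) (nat_lit 228) r8_259 r2_228 (nat_lit 0) (nat_lit 0) (nat_lit 24741287) (nat_lit 0x8017985b4) (nat_lit 561612199),
  Rx.mk (nat_lit 311) (nat_lit 7) (nat_lit 6) (nat_lit 4) (nat_lit 3) (nat_lit 261) (nat_lit 226) r8_261 r2_226 (nat_lit 0) (nat_lit 0) (nat_lit 25403330) (nat_lit 0x7ff0757d4) (nat_lit 564659792),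
  Rx.mk (nat_lit 438) (nat_lit 6) (nat_lit 6) (nat_lit 6) (nat_lit 7) (nat_lit 262) (nat_lit 229) r8_262 r2_229 (nat_lit 0) (nat_lit 0) (nat_lit 0) (nat_lit 0x8017985b4) (nat_lit 536870912),
  Rx.mk (nat_lit 487) (nat_lit 7) (nat_lit 4) (nat_lit 7) (nat_lit 5) (nat_lit 263) (nat_lit 224) r8_263 r2_224 (nat_lit 0) (nat_lit 24741287) (nat_lit 0) (nat_lit 0x8005746a8) (nat_lit 562722999),
  Rx.mk (nat_lit 503) (nat_lit 7) (nat_lit 6) (nat_lit 7) (nat_lit 7) (nat_lit 264) (nat_lit 227) r8_264 r2_227 (nat_lit 0) (nat_lit 0) (nat_lit 0) (nat_lit 0x8017985b4) (nat_lit 536870912),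
  Rx.mk (nat_lit 511) (nat_lit 7) (nat_lit 7) (nat_lit 7) (nat_lit 7) (nat_lit 265) (nat_lit 225) r8_265 r2_225 (nat_lit 0) (nat_lit 0) (nat_lit 0) (nat_lit 0x8017985b4) (nat_lit 536870912)]
noncomputable def e27_3 : List Rx := [
  Rx.mk (nat_lit 100) (nat_lit 4) (nat_lit 4) (nat_lit 1) (nat_lit 4) (nat_lit 334) (nat_lit 173) r8_334 r3_173 (nat_lit 913664) (nat_lit 875122) (nat_lit 0) (nat_lit 0x5cc5f9ef6) (nat_lit 1108454298),
  Rx.mk (nat_lit 103) (nat_lit 7) (nat_lit 4) (nat_lit 1) (nat_lit 5) (nat_lit 336) (nat_lit 175) r8_336 r3_175 (nat_lit 0) (nat_lit 6010146) (nat_lit 0) (nat_lit 0x6e1566726) (nat_lit 833142708),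
  Rx.mk (nat_lit 108) (nat_lit 4) (nat_lit 5) (nat_lit 1) (nat_lit 6) (nat_lit 335) (nat_lit 174) r8_335 r3_174 (nat_lit 20103359) (nat_lit 0) (nat_lit 0) (nat_lit 0x733b06e04) (nat_lit 764186071),
  Rx.mk (nat_lit 111) (nat_lit 7) (nat_lit 5) (nat_lit 1) (nat_lit 7) (nat_lit 337) (nat_lit 177) r8_337 r3_177 (nat_lit 0) (nat_lit 0) (nat_lit 0) (nat_lit 0x7f8ae4a3c) (nat_lit 545526512),
  Rx.mk (nat_lit 359) (nat_lit 7) (nat_lit 4) (nat_lit 5) (nat_lit 5) (nat_lit 331) (nat_lit 176) r8_331 r3_176 (nat_lit 0) (nat_lit 14122163) (nat_lit 0) (nat_lit 0x6b5780b64) (nat_lit 885726425),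
  Rx.mk (nat_lit 367) (nat_lit 7) (nat_lit 5) (nat_lit 5) (nat_lit 7) (nat_lit 332) (nat_lit 178) r8_332 r3_178 (nat_lit 0) (nat_lit 0) (nat_lit 0) (nat_lit 0x8017985b4) (nat_lit 536870912),
  Rx.mk (nat_lit 383) (nat_lit 7) (nat_lit 7) (nat_lit 5) (nat_lit 7) (nat_lit 333) (nat_lit 179) r8_333 r3_179 (nat_lit 0) (nat_lit 0) (nat_lit 0) (nat_lit 0x7f54cbf2c) (nat_lit 548916912)]
noncomputable def e27_4 : List Rx := [
  Rx.mk (nat_lit 359) (nat_lit 7) (nat_lit 4) (nat_lit 5) (nat_lit 5) (nat_lit 351) (nat_lit 177) r8_351 r4_177 (nat_lit 0) (nat_lit 24741287) (nat_lit 0) (nat_lit 0x8017985b4) (nat_lit 561612199),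
  Rx.mk (nat_lit 367) (nat_lit 7) (nat_lit 5) (nat_lit 5) (nat_lit 7) (nat_lit 352) (nat_lit 178) r8_352 r4_178 (nat_lit 0) (nat_lit 0) (nat_lit 0) (nat_lit 0x8017985b4) (nat_lit 536870912),
  Rx.mk (nat_lit 375) (nat_lit 7) (nat_lit 6) (nat_lit 5) (nat_lit 7) (nat_lit 353) (nat_lit 180) r8_353 r4_180 (nat_lit 0) (nat_lit 0) (nat_lit 0) (nat_lit 0x8017985b4) (nat_lit 536870912),
  Rx.mk (nat_lit 383) (nat_lit 7) (nat_lit 7) (nat_lit 5) (nat_lit 7) (nat_lit 354) (nat_lit 179) r8_354 r4_179 (nat_lit 0) (nat_lit 0) (nat_lit 0) (nat_lit 0x8017985b4) (nat_lit 536870912)]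
noncomputable def e27_5 : List Rx := [
  Rx.mk (nat_lit 100) (nat_lit 4) (nat_lit 4) (nat_lit 1) (nat_lit 4) (nat_lit 362) (nat_lit 191) r8_362 r5_191 (nat_lit 40282511) (nat_lit 13579307) (nat_lit 0) (nat_lit 0x676dbd25a) (nat_lit 988710430),
  Rx.mk (nat_lit 103) (nat_lit 7) (nat_lit 4) (nat_lit 1) (nat_lit 5) (nat_lit 364) (nat_lit 193) r8_364 r5_193 (nat_lit 0) (nat_lit 26008793) (nat_lit 0) (nat_lit 0x78bef927a) (nat_lit 680926905),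
  Rx.mk (nat_lit 108) (nat_lit 4) (nat_lit 5) (nat_lit 1) (nat_lit 6) (nat_lit 363) (nat_lit 192) r8_363 r5_192 (nat_lit 24741287) (nat_lit 0) (nat_lit 0) (nat_lit 0x7fc98e4ea) (nat_lit 566401349),
  Rx.mk (nat_lit 111) (nat_lit 7) (nat_lit 5) (nat_lit 1) (nat_lit 7) (nat_lit 365) (nat_lit 194) r8_365 r5_194 (nat_lit 0) (nat_lit 0) (nat_lit 0) (nat_lit 0x8017985b4) (nat_lit 536870912),
  Rx.mk (nat_lit 127) (nat_lit 7) (nat_lit 7) (nat_lit 1) (nat_lit 7) (nat_lit 366) (nat_lit 195) r8_366 r5_195 (nat_lit 0) (nat_lit 0) (nat_lit 0) (nat_lit 0x7f79cc664) (nat_lit 546583312),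
  Rx.mk (nat_lit 383) (nat_lit 7) (nat_lit 7) (nat_lit 5) (nat_lit 7) (nat_lit 361) (nat_lit 196) r8_361 r5_196 (nat_lit 0) (nat_lit 0) (nat_lit 0) (nat_lit 0x8017985b4) (nat_lit 536870912)]
noncomputable def e27_6 : List Rx := [
  Rx.mk (nat_lit 59) (nat_lit 3) (nat_lit 7) (nat_lit 0) (nat_lit 3) (nat_lit 43) (nat_lit 120) r8_43 r3_120 (nat_lit 0) (nat_lit 0) (nat_lit 1763441) (nat_lit 0x7c7a002d2) (nat_lit 596010653),
  Rx.mk (nat_lit 123) (nat_lit 3) (nat_lit 7) (nat_lit 1) (nat_lit 7) (nat_lit 44) (nat_lit 121) r8_44 r3_121 (nat_lit 0) (nat_lit 0) (nat_lit 0) (nat_lit 0x815f04622) (nat_lit 516911112),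
  Rx.mk (nat_lit 251) (nat_lit 3) (nat_lit 7) (nat_lit 3) (nat_lit 7) (nat_lit 46) (nat_lit 122) r8_46 r3_122 (nat_lit 0) (nat_lit 0) (nat_lit 0) (nat_lit 0x7fe6eb434) (nat_lit 539872312),
  Rx.mk (nat_lit 255) (nat_lit 7) (nat_lit 7) (nat_lit 3) (nat_lit 7) (nat_lit 45) (nat_lit 119) r8_45 r3_119 (nat_lit 0) (nat_lit 0) (nat_lit 0) (nat_lit 0x7fbaf6978) (nat_lit 542584962)]
noncomputable def e27_7 : List Rx := [
  Rx.mk (nat_lit 251) (nat_lit 3) (nat_lit 7) (nat_lit 3) (nat_lit 7) (nat_lit 77) (nat_lit 140) r8_77 r0_140 (nat_lit 0) (nat_lit 0) (nat_lit 0) (nat_lit 0x8017985b4) (nat_lit 536870912),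
  Rx.mk (nat_lit 255) (nat_lit 7) (nat_lit 7) (nat_lit 3) (nat_lit 7) (nat_lit 76) (nat_lit 139) r8_76 r0_139 (nat_lit 0) (nat_lit 0) (nat_lit 0) (nat_lit 0x8017985b4) (nat_lit 536870912)]
noncomputable def e27_8 : List Rx := [
  Rx.mk (nat_lit 251) (nat_lit 3) (nat_lit 7) (nat_lit 3) (nat_lit 7) (nat_lit 101) (nat_lit 146) r8_101 r1_146 (nat_lit 0) (nat_lit 0) (nat_lit 0) (nat_lit 0x8017985b4) (nat_lit 536870912),
  Rx.mk (nat_lit 255) (nat_lit 7) (nat_lit 7) (nat_lit 3) (nat_lit 7) (nat_lit 100) (nat_lit 145) r8_100 r1_145 (nat_lit 0) (nat_lit 0) (nat_lit 0) (nat_lit 0x8017985b4) (nat_lit 536870912),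
  Rx.mk (nat_lit 292) (nat_lit 4) (nat_lit 4) (nat_lit 4) (nat_lit 0) (nat_lit 90) (nat_lit 141) r8_90 r1_141 (nat_lit 116288395) (nat_lit 23009154) (nat_lit 17944571) (nat_lit 0x447d83aae) (nat_lit 1657106532),
  Rx.mk (nat_lit 308) (nat_lit 4) (nat_lit 6) (nat_lit 4) (nat_lit 2) (nat_lit 91) (nat_lit 147) r8_91 r1_147 (nat_lit 50885811) (nat_lit 0) (nat_lit 24802758) (nat_lit 0x6b9ee1742) (nat_lit 942829831),
  Rx.mk (nat_lit 310) (nat_lit 6) (nat_lit 6) (nat_lit 4) (nat_lit 3) (nat_lit 92) (nat_lit 150) r8_92 r1_150 (nat_lit 0) (nat_lit 0) (nat_lit 24952196) (nat_lit 0x7d5baea30) (nat_lit 605443508),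
  Rx.mk (nat_lit 438) (nat_lit 6) (nat_lit 6) (nat_lit 6) (nat_lit 7) (nat_lit 93) (nat_lit 152) r8_93 r1_152 (nat_lit 0) (nat_lit 0) (nat_lit 0) (nat_lit 0x8017985b4) (nat_lit 536870912),
  Rx.mk (nat_lit 484) (nat_lit 4) (nat_lit 4) (nat_lit 7) (nat_lit 4) (nat_lit 94) (nat_lit 142) r8_94 r1_142 (nat_lit 50887267) (nat_lit 31282261) (nat_lit 0) (nat_lit 0x6d657dd46) (nat_lit 920594840),
  Rx.mk (nat_lit 487) (nat_lit 7) (nat_lit 4) (nat_lit 7) (nat_lit 5) (nat_lit 97) (nat_lit 143) r8_97 r1_143 (nat_lit 0) (nat_lit 29620562) (nat_lit 0) (nat_lit 0x7f673ed30) (nat_lit 577332974),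
  Rx.mk (nat_lit 500) (nat_lit 4) (nat_lit 6) (nat_lit 7) (nat_lit 6) (nat_lit 95) (nat_lit 148) r8_95 r1_148 (nat_lit 24741287) (nat_lit 0) (nat_lit 0) (nat_lit 0x8017985b4) (nat_lit 561612199),
  Rx.mk (nat_lit 502) (nat_lit 6) (nat_lit 6) (nat_lit 7) (nat_lit 7) (nat_lit 96) (nat_lit 151) r8_96 r1_151 (nat_lit 0) (nat_lit 0) (nat_lit 0) (nat_lit 0x8017985b4) (nat_lit 536870912),
  Rx.mk (nat_lit 503) (nat_lit 7) (nat_lit 6) (nat_lit 7) (nat_lit 7) (nat_lit 98) (nat_lit 149) r8_98 r1_149 (nat_lit 0) (nat_lit 0) (nat_lit 0) (nat_lit 0x8017985b4) (nat_lit 536870912),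
  Rx.mk (nat_lit 511) (nat_lit 7) (nat_lit 7) (nat_lit 7) (nat_lit 7) (nat_lit 99) (nat_lit 144) r8_99 r1_144 (nat_lit 0) (nat_lit 0) (nat_lit 0) (nat_lit 0x8017985b4) (nat_lit 536870912)]
noncomputable def e27_9 : List Rx := [
  Rx.mk (nat_lit 59) (nat_lit 3) (nat_lit 7) (nat_lit 0) (nat_lit 3) (nat_lit 146) (nat_lit 126) r8_146 r4_126 (nat_lit 0) (nat_lit 0) (nat_lit 22851491) (nat_lit 0x7fa9b2676) (nat_lit 566471853),
  Rx.mk (nat_lit 251) (nat_lit 3) (nat_lit 7) (nat_lit 3) (nat_lit 7) (nat_lit 148) (nat_lit 127) r8_148 r4_127 (nat_lit 0) (nat_lit 0) (nat_lit 0) (nat_lit 0x8017985b4) (nat_lit 536870912),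
  Rx.mk (nat_lit 255) (nat_lit 7) (nat_lit 7) (nat_lit 3) (nat_lit 7) (nat_lit 147) (nat_lit 125) r8_147 r4_125 (nat_lit 0) (nat_lit 0) (nat_lit 0) (nat_lit 0x8017985b4) (nat_lit 536870912)]
noncomputable def e27_10 : List Rx := [
  Rx.mk (nat_lit 103) (nat_lit 7) (nat_lit 4) (nat_lit 1) (nat_lit 5) (nat_lit 221) (nat_lit 207) r8_221 r6_207 (nat_lit 0) (nat_lit 24741287) (nat_lit 0) (nat_lit 0x8017985b4) (nat_lit 561612199),
  Rx.mk (nat_lit 111) (nat_lit 7) (nat_lit 5) (nat_lit 1) (nat_lit 7) (nat_lit 222) (nat_lit 208) r8_222 r6_208 (nat_lit 0) (nat_lit 0) (nat_lit 0) (nat_lit 0x8017985b4) (nat_lit 536870912),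
  Rx.mk (nat_lit 123) (nat_lit 3) (nat_lit 7) (nat_lit 1) (nat_lit 7) (nat_lit 224) (nat_lit 206) r8_224 r6_206 (nat_lit 0) (nat_lit 0) (nat_lit 0) (nat_lit 0x805730f46) (nat_lit 532963862),
  Rx.mk (nat_lit 127) (nat_lit 7) (nat_lit 7) (nat_lit 1) (nat_lit 7) (nat_lit 223) (nat_lit 209) r8_223 r6_209 (nat_lit 0) (nat_lit 0) (nat_lit 0) (nat_lit 0x8017985b4) (nat_lit 536870912)]
noncomputable def e27_11 : List Rx := [
  Rx.mk (nat_lit 59) (nat_lit 3) (nat_lit 7) (nat_lit 0) (nat_lit 3) (nat_lit 202) (nat_lit 121) r8_202 r5_121 (nat_lit 0) (nat_lit 0) (nat_lit 10065734) (nat_lit 0x7e9c4689e) (nat_lit 570285946),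
  Rx.mk (nat_lit 63) (nat_lit 7) (nat_lit 7) (nat_lit 0) (nat_lit 3) (nat_lit 201) (nat_lit 118) r8_201 r5_118 (nat_lit 0) (nat_lit 0) (nat_lit 25748057) (nat_lit 0x790d284fa) (nat_lit 675764869),
  Rx.mk (nat_lit 123) (nat_lit 3) (nat_lit 7) (nat_lit 1) (nat_lit 7) (nat_lit 204) (nat_lit 122) r8_204 r5_122 (nat_lit 0) (nat_lit 0) (nat_lit 0) (nat_lit 0x80d50bd58) (nat_lit 525282062),
  Rx.mk (nat_lit 127) (nat_lit 7) (nat_lit 7) (nat_lit 1) (nat_lit 7) (nat_lit 203) (nat_lit 119) r8_203 r5_119 (nat_lit 0) (nat_lit 0) (nat_lit 0) (nat_lit 0x8017985b4) (nat_lit 536870912),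
  Rx.mk (nat_lit 255) (nat_lit 7) (nat_lit 7) (nat_lit 3) (nat_lit 7) (nat_lit 205) (nat_lit 120) r8_205 r5_120 (nat_lit 0) (nat_lit 0) (nat_lit 0) (nat_lit 0x8017985b4) (nat_lit 536870912)]
noncomputable def e27_12 : List Rx := [
  Rx.mk (nat_lit 100) (nat_lit 4) (nat_lit 4) (nat_lit 1) (nat_lit 4) (nat_lit 237) (nat_lit 278) r8_237 r0_278 (nat_lit 11187286) (nat_lit 22445376) (nat_lit 0) (nat_lit 0x611b170e2) (nat_lit 1070645824),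
  Rx.mk (nat_lit 101) (nat_lit 5) (nat_lit 4) (nat_lit 1) (nat_lit 5) (nat_lit 239) (nat_lit 279) r8_239 r0_279 (nat_lit 0) (nat_lit 24741287) (nat_lit 0) (nat_lit 0x7faf81db8) (nat_lit 567993049),
  Rx.mk (nat_lit 108) (nat_lit 4) (nat_lit 5) (nat_lit 1) (nat_lit 6) (nat_lit 238) (nat_lit 280) r8_238 r0_280 (nat_lit 25163350) (nat_lit 0) (nat_lit 0) (nat_lit 0x75f165a36) (nat_lit 725421662),
  Rx.mk (nat_lit 109) (nat_lit 5) (nat_lit 5) (nat_lit 1) (nat_lit 7) (nat_lit 240) (nat_lit 281) r8_240 r0_281 (nat_lit 0) (nat_lit 0) (nat_lit 0) (nat_lit 0x80027a268) (nat_lit 538140112),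
  Rx.mk (nat_lit 356) (nat_lit 4) (nat_lit 4) (nat_lit 5) (nat_lit 4) (nat_lit 230) (nat_lit 271) r8_230 r0_271 (nat_lit 75450971) (nat_lit 75494649) (nat_lit 0) (nat_lit 0x5a61765d0) (nat_lit 1296858182),
  Rx.mk (nat_lit 357) (nat_lit 5) (nat_lit 4) (nat_lit 5) (nat_lit 5) (nat_lit 232) (nat_lit 272) r8_232 r0_272 (nat_lit 0) (nat_lit 36993222) (nat_lit 0) (nat_lit 0x7df6aaa0c) (nat_lit 607751434),
  Rx.mk (nat_lit 359) (nat_lit 7) (nat_lit 4) (nat_lit 5) (nat_lit 5) (nat_lit 234) (nat_lit 273) r8_234 r0_273 (nat_lit 0) (nat_lit 25972273) (nat_lit 0) (nat_lit 0x7eb8e4744) (nat_lit 584573485),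
  Rx.mk (nat_lit 364) (nat_lit 4) (nat_lit 5) (nat_lit 5) (nat_lit 6) (nat_lit 231) (nat_lit 274) r8_231 r0_274 (nat_lit 30314307) (nat_lit 0) (nat_lit 0) (nat_lit 0x6f3513136) (nat_lit 839472119),
  Rx.mk (nat_lit 365) (nat_lit 5) (nat_lit 5) (nat_lit 5) (nat_lit 7) (nat_lit 233) (nat_lit 275) r8_233 r0_275 (nat_lit 0) (nat_lit 0) (nat_lit 0) (nat_lit 0x7f69ccc6e) (nat_lit 547574012),
  Rx.mk (nat_lit 367) (nat_lit 7) (nat_lit 5) (nat_lit 5) (nat_lit 7) (nat_lit 235) (nat_lit 276) r8_235 r0_276 (nat_lit 0) (nat_lit 0) (nat_lit 0) (nat_lit 0x8017985b4) (nat_lit 536870912),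
  Rx.mk (nat_lit 383) (nat_lit 7) (nat_lit 7) (nat_lit 5) (nat_lit 7) (nat_lit 236) (nat_lit 277) r8_236 r0_277 (nat_lit 0) (nat_lit 0) (nat_lit 0) (nat_lit 0x8010a6c4c) (nat_lit 537295162)]
noncomputable def e27_13 : List Rx := [
  Rx.mk (nat_lit 356) (nat_lit 4) (nat_lit 4) (nat_lit 5) (nat_lit 4) (nat_lit 248) (nat_lit 246) r8_248 r7_246 (nat_lit 54887331) (nat_lit 69413824) (nat_lit 0) (nat_lit 0x65c8453d2) (nat_lit 1085844417),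
  Rx.mk (nat_lit 357) (nat_lit 5) (nat_lit 4) (nat_lit 5) (nat_lit 5) (nat_lit 251) (nat_lit 249) r8_251 r7_249 (nat_lit 0) (nat_lit 25521481) (nat_lit 0) (nat_lit 0x8004c69ea) (nat_lit 563543143),
  Rx.mk (nat_lit 359) (nat_lit 7) (nat_lit 4) (nat_lit 5) (nat_lit 5) (nat_lit 254) (nat_lit 252) r8_254 r7_252 (nat_lit 0) (nat_lit 24625619) (nat_lit 0) (nat_lit 0x800a04d3a) (nat_lit 562328731),
  Rx.mk (nat_lit 364) (nat_lit 4) (nat_lit 5) (nat_lit 5) (nat_lit 6) (nat_lit 249) (nat_lit 247) r8_249 r7_247 (nat_lit 25009292) (nat_lit 0) (nat_lit 0) (nat_lit 0x8011540e0) (nat_lit 562263654),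
  Rx.mk (nat_lit 365) (nat_lit 5) (nat_lit 5) (nat_lit 5) (nat_lit 7) (nat_lit 252) (nat_lit 250) r8_252 r7_250 (nat_lit 0) (nat_lit 0) (nat_lit 0) (nat_lit 0x8017985b4) (nat_lit 536870912),
  Rx.mk (nat_lit 367) (nat_lit 7) (nat_lit 5) (nat_lit 5) (nat_lit 7) (nat_lit 255) (nat_lit 253) r8_255 r7_253 (nat_lit 0) (nat_lit 0) (nat_lit 0) (nat_lit 0x8017985b4) (nat_lit 536870912),
  Rx.mk (nat_lit 372) (nat_lit 4) (nat_lit 6) (nat_lit 5) (nat_lit 6) (nat_lit 250) (nat_lit 248) r8_250 r7_248 (nat_lit 24741287) (nat_lit 0) (nat_lit 0) (nat_lit 0x8017985b4) (nat_lit 561612199),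
  Rx.mk (nat_lit 373) (nat_lit 5) (nat_lit 6) (nat_lit 5) (nat_lit 7) (nat_lit 253) (nat_lit 251) r8_253 r7_251 (nat_lit 0) (nat_lit 0) (nat_lit 0) (nat_lit 0x8017985b4) (nat_lit 536870912),
  Rx.mk (nat_lit 383) (nat_lit 7) (nat_lit 7) (nat_lit 5) (nat_lit 7) (nat_lit 256) (nat_lit 254) r8_256 r7_254 (nat_lit 0) (nat_lit 0) (nat_lit 0) (nat_lit 0x8017985b4) (nat_lit 536870912)]
noncomputable def e27_14 : List Rx := [
  Rx.mk (nat_lit 101) (nat_lit 5) (nat_lit 4) (nat_lit 1) (nat_lit 5) (nat_lit 318) (nat_lit 276) r8_318 r1_276 (nat_lit 0) (nat_lit 24741287) (nat_lit 0) (nat_lit 0x8017985b4) (nat_lit 561612199),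
  Rx.mk (nat_lit 109) (nat_lit 5) (nat_lit 5) (nat_lit 1) (nat_lit 7) (nat_lit 319) (nat_lit 277) r8_319 r1_277 (nat_lit 0) (nat_lit 0) (nat_lit 0) (nat_lit 0x8017985b4) (nat_lit 536870912),
  Rx.mk (nat_lit 357) (nat_lit 5) (nat_lit 4) (nat_lit 5) (nat_lit 5) (nat_lit 316) (nat_lit 274) r8_316 r1_274 (nat_lit 0) (nat_lit 24586055) (nat_lit 0) (nat_lit 0x80057ba20) (nat_lit 562565917),
  Rx.mk (nat_lit 365) (nat_lit 5) (nat_lit 5) (nat_lit 5) (nat_lit 7) (nat_lit 317) (nat_lit 275) r8_317 r1_275 (nat_lit 0) (nat_lit 0) (nat_lit 0) (nat_lit 0x8017985b4) (nat_lit 536870912)]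
noncomputable def e27_15 : List Rx := [
  Rx.mk (nat_lit 357) (nat_lit 5) (nat_lit 4) (nat_lit 5) (nat_lit 5) (nat_lit 323) (nat_lit 191) r8_323 r8_191 (nat_lit 0) (nat_lit 24741287) (nat_lit 0) (nat_lit 0x8017985b4) (nat_lit 561612199),
  Rx.mk (nat_lit 365) (nat_lit 5) (nat_lit 5) (nat_lit 5) (nat_lit 7) (nat_lit 324) (nat_lit 192) r8_324 r8_192 (nat_lit 0) (nat_lit 0) (nat_lit 0) (nat_lit 0x8017985b4) (nat_lit 536870912),
  Rx.mk (nat_lit 373) (nat_lit 5) (nat_lit 6) (nat_lit 5) (nat_lit 7) (nat_lit 325) (nat_lit 193) r8_325 r8_193 (nat_lit 0) (nat_lit 0) (nat_lit 0) (nat_lit 0x8017985b4) (nat_lit 536870912)]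
noncomputable def e27_16 : List Rx := [
  Rx.mk (nat_lit 292) (nat_lit 4) (nat_lit 4) (nat_lit 4) (nat_lit 0) (nat_lit 299) (nat_lit 299) r8_299 r8_299 (nat_lit 49404879) (nat_lit 49404879) (nat_lit 24537386) (nat_lit 0x3fed72ca2) (nat_lit 1697003556),
  Rx.mk (nat_lit 295) (nat_lit 7) (nat_lit 4) (nat_lit 4) (nat_lit 1) (nat_lit 302) (nat_lit 300) r8_302 r8_300 (nat_lit 0) (nat_lit 39717842) (nat_lit 44632481) (nat_lit 0x6cbc2f938) (nat_lit 933479835),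
  Rx.mk (nat_lit 308) (nat_lit 4) (nat_lit 6) (nat_lit 4) (nat_lit 2) (nat_lit 300) (nat_lit 302) r8_300 r8_302 (nat_lit 39717842) (nat_lit 0) (nat_lit 44632481) (nat_lit 0x6cbc2f938) (nat_lit 933479835),
  Rx.mk (nat_lit 310) (nat_lit 6) (nat_lit 6) (nat_lit 4) (nat_lit 3) (nat_lit 301) (nat_lit 303) r8_301 r8_303 (nat_lit 0) (nat_lit 0) (nat_lit 24741287) (nat_lit 0x8017985b4) (nat_lit 561612199),
  Rx.mk (nat_lit 319) (nat_lit 7) (nat_lit 7) (nat_lit 4) (nat_lit 3) (nat_lit 303) (nat_lit 301) r8_303 r8_301 (nat_lit 0) (nat_lit 0) (nat_lit 24741287) (nat_lit 0x8017985b4) (nat_lit 561612199),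
  Rx.mk (nat_lit 356) (nat_lit 4) (nat_lit 4) (nat_lit 5) (nat_lit 4) (nat_lit 304) (nat_lit 304) r8_304 r8_304 (nat_lit 73831755) (nat_lit 73831755) (nat_lit 0) (nat_lit 0x6cd203c6e) (nat_lit 995409072),
  Rx.mk (nat_lit 357) (nat_lit 5) (nat_lit 4) (nat_lit 5) (nat_lit 5) (nat_lit 307) (nat_lit 305) r8_307 r8_305 (nat_lit 0) (nat_lit 23858381) (nat_lit 0) (nat_lit 0x7fdfd7f80) (nat_lit 564143543),
  Rx.mk (nat_lit 359) (nat_lit 7) (nat_lit 4) (nat_lit 5) (nat_lit 5) (nat_lit 311) (nat_lit 306) r8_311 r8_306 (nat_lit 0) (nat_lit 24741287) (nat_lit 0) (nat_lit 0x8017985b4) (nat_lit 561612199),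
  Rx.mk (nat_lit 364) (nat_lit 4) (nat_lit 5) (nat_lit 5) (nat_lit 6) (nat_lit 305) (nat_lit 307) r8_305 r8_307 (nat_lit 23858381) (nat_lit 0) (nat_lit 0) (nat_lit 0x7fdfd7f80) (nat_lit 564143543),
  Rx.mk (nat_lit 365) (nat_lit 5) (nat_lit 5) (nat_lit 5) (nat_lit 7) (nat_lit 308) (nat_lit 308) r8_308 r8_308 (nat_lit 0) (nat_lit 0) (nat_lit 0) (nat_lit 0x8017985b4) (nat_lit 536870912),
  Rx.mk (nat_lit 367) (nat_lit 7) (nat_lit 5) (nat_lit 5) (nat_lit 7) (nat_lit 312) (nat_lit 309) r8_312 r8_309 (nat_lit 0) (nat_lit 0) (nat_lit 0) (nat_lit 0x8017985b4) (nat_lit 536870912),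
  Rx.mk (nat_lit 372) (nat_lit 4) (nat_lit 6) (nat_lit 5) (nat_lit 6) (nat_lit 306) (nat_lit 311) r8_306 r8_311 (nat_lit 24741287) (nat_lit 0) (nat_lit 0) (nat_lit 0x8017985b4) (nat_lit 561612199),
  Rx.mk (nat_lit 373) (nat_lit 5) (nat_lit 6) (nat_lit 5) (nat_lit 7) (nat_lit 309) (nat_lit 312) r8_309 r8_312 (nat_lit 0) (nat_lit 0) (nat_lit 0) (nat_lit 0x8017985b4) (nat_lit 536870912),
  Rx.mk (nat_lit 374) (nat_lit 6) (nat_lit 6) (nat_lit 5) (nat_lit 7) (nat_lit 310) (nat_lit 313) r8_310 r8_313 (nat_lit 0) (nat_lit 0) (nat_lit 0) (nat_lit 0x8017985b4) (nat_lit 536870912),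
  Rx.mk (nat_lit 383) (nat_lit 7) (nat_lit 7) (nat_lit 5) (nat_lit 7) (nat_lit 313) (nat_lit 310) r8_313 r8_310 (nat_lit 0) (nat_lit 0) (nat_lit 0) (nat_lit 0x8017985b4) (nat_lit 536870912),
  Rx.mk (nat_lit 438) (nat_lit 6) (nat_lit 6) (nat_lit 6) (nat_lit 7) (nat_lit 314) (nat_lit 315) r8_314 r8_315 (nat_lit 0) (nat_lit 0) (nat_lit 0) (nat_lit 0x8017985b4) (nat_lit 536870912),
  Rx.mk (nat_lit 511) (nat_lit 7) (nat_lit 7) (nat_lit 7) (nat_lit 7) (nat_lit 315) (nat_lit 314) r8_315 r8_314 (nat_lit 0) (nat_lit 0) (nat_lit 0) (nat_lit 0x8017985b4) (nat_lit 536870912)]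
noncomputable def e27_17 : List Rx := [
  Rx.mk (nat_lit 292) (nat_lit 4) (nat_lit 4) (nat_lit 4) (nat_lit 0) (nat_lit 266) (nat_lit 202) r8_266 r9_202 (nat_lit 37514210) (nat_lit 23929726) (nat_lit 16962537) (nat_lit 0x3e09e15de) (nat_lit 1682604485),
  Rx.mk (nat_lit 295) (nat_lit 7) (nat_lit 4) (nat_lit 4) (nat_lit 1) (nat_lit 269) (nat_lit 204) r8_269 r9_204 (nat_lit 0) (nat_lit 25355923) (nat_lit 29280147) (nat_lit 0x6cdd7d4fa) (nat_lit 901656982),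
  Rx.mk (nat_lit 308) (nat_lit 4) (nat_lit 6) (nat_lit 4) (nat_lit 2) (nat_lit 267) (nat_lit 203) r8_267 r9_203 (nat_lit 27096766) (nat_lit 0) (nat_lit 34060215) (nat_lit 0x698596640) (nat_lit 962235943),
  Rx.mk (nat_lit 310) (nat_lit 6) (nat_lit 6) (nat_lit 4) (nat_lit 3) (nat_lit 268) (nat_lit 207) r8_268 r9_207 (nat_lit 0) (nat_lit 0) (nat_lit 24537189) (nat_lit 0x8007ecd18) (nat_lit 562365701),
  Rx.mk (nat_lit 438) (nat_lit 6) (nat_lit 6) (nat_lit 6) (nat_lit 7) (nat_lit 270) (nat_lit 208) r8_270 r9_208 (nat_lit 0) (nat_lit 0) (nat_lit 0) (nat_lit 0x8017985b4) (nat_lit 536870912),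
  Rx.mk (nat_lit 487) (nat_lit 7) (nat_lit 4) (nat_lit 7) (nat_lit 5) (nat_lit 271) (nat_lit 205) r8_271 r9_205 (nat_lit 0) (nat_lit 24741287) (nat_lit 0) (nat_lit 0x8017985b4) (nat_lit 561612199),
  Rx.mk (nat_lit 511) (nat_lit 7) (nat_lit 7) (nat_lit 7) (nat_lit 7) (nat_lit 272) (nat_lit 206) r8_272 r9_206 (nat_lit 0) (nat_lit 0) (nat_lit 0) (nat_lit 0x8017985b4) (nat_lit 536870912)]
noncomputable def e27_18 : List Rx := [
  Rx.mk (nat_lit 100) (nat_lit 4) (nat_lit 4) (nat_lit 1) (nat_lit 4) (nat_lit 341) (nat_lit 287) r8_341 r4_287 (nat_lit 34758505) (nat_lit 27124229) (nat_lit 0) (nat_lit 0x700d128ac) (nat_lit 857380996),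
  Rx.mk (nat_lit 101) (nat_lit 5) (nat_lit 4) (nat_lit 1) (nat_lit 5) (nat_lit 343) (nat_lit 288) r8_343 r4_288 (nat_lit 0) (nat_lit 24741287) (nat_lit 0) (nat_lit 0x7ff500268) (nat_lit 563728899),
  Rx.mk (nat_lit 103) (nat_lit 7) (nat_lit 4) (nat_lit 1) (nat_lit 5) (nat_lit 345) (nat_lit 289) r8_345 r4_289 (nat_lit 0) (nat_lit 24741287) (nat_lit 0) (nat_lit 0x8017985b4) (nat_lit 561612199),
  Rx.mk (nat_lit 108) (nat_lit 4) (nat_lit 5) (nat_lit 1) (nat_lit 6) (nat_lit 342) (nat_lit 290) r8_342 r4_290 (nat_lit 24741287) (nat_lit 0) (nat_lit 0) (nat_lit 0x8017985b4) (nat_lit 561612199),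
  Rx.mk (nat_lit 109) (nat_lit 5) (nat_lit 5) (nat_lit 1) (nat_lit 7) (nat_lit 344) (nat_lit 291) r8_344 r4_291 (nat_lit 0) (nat_lit 0) (nat_lit 0) (nat_lit 0x8017985b4) (nat_lit 536870912),
  Rx.mk (nat_lit 111) (nat_lit 7) (nat_lit 5) (nat_lit 1) (nat_lit 7) (nat_lit 346) (nat_lit 292) r8_346 r4_292 (nat_lit 0) (nat_lit 0) (nat_lit 0) (nat_lit 0x8017985b4) (nat_lit 536870912),
  Rx.mk (nat_lit 359) (nat_lit 7) (nat_lit 4) (nat_lit 5) (nat_lit 5) (nat_lit 338) (nat_lit 284) r8_338 r4_284 (nat_lit 0) (nat_lit 24741287) (nat_lit 0) (nat_lit 0x8017985b4) (nat_lit 561612199),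
  Rx.mk (nat_lit 367) (nat_lit 7) (nat_lit 5) (nat_lit 5) (nat_lit 7) (nat_lit 339) (nat_lit 285) r8_339 r4_285 (nat_lit 0) (nat_lit 0) (nat_lit 0) (nat_lit 0x8017985b4) (nat_lit 536870912),
  Rx.mk (nat_lit 383) (nat_lit 7) (nat_lit 7) (nat_lit 5) (nat_lit 7) (nat_lit 340) (nat_lit 286) r8_340 r4_286 (nat_lit 0) (nat_lit 0) (nat_lit 0) (nat_lit 0x8017985b4) (nat_lit 536870912)]
noncomputable def e27_19 : List Rx := [
  Rx.mk (nat_lit 359) (nat_lit 7) (nat_lit 4) (nat_lit 5) (nat_lit 5) (nat_lit 355) (nat_lit 195) r8_355 r10_195 (nat_lit 0) (nat_lit 24634759) (nat_lit 0) (nat_lit 0x800b33de6) (nat_lit 562264771),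
  Rx.mk (nat_lit 367) (nat_lit 7) (nat_lit 5) (nat_lit 5) (nat_lit 7) (nat_lit 356) (nat_lit 196) r8_356 r10_196 (nat_lit 0) (nat_lit 0) (nat_lit 0) (nat_lit 0x8017985b4) (nat_lit 536870912),
  Rx.mk (nat_lit 383) (nat_lit 7) (nat_lit 7) (nat_lit 5) (nat_lit 7) (nat_lit 357) (nat_lit 197) r8_357 r10_197 (nat_lit 0) (nat_lit 0) (nat_lit 0) (nat_lit 0x8017985b4) (nat_lit 536870912)]
noncomputable def e27_20 : List Rx := [
  Rx.mk (nat_lit 100) (nat_lit 4) (nat_lit 4) (nat_lit 1) (nat_lit 4) (nat_lit 368) (nat_lit 222) r8_368 r11_222 (nat_lit 93109333) (nat_lit 49696383) (nat_lit 0) (nat_lit 0x7a0dfb9e4) (nat_lit 776624328),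
  Rx.mk (nat_lit 101) (nat_lit 5) (nat_lit 4) (nat_lit 1) (nat_lit 5) (nat_lit 370) (nat_lit 224) r8_370 r11_224 (nat_lit 0) (nat_lit 24741287) (nat_lit 0) (nat_lit 0x8017985b4) (nat_lit 561612199),
  Rx.mk (nat_lit 103) (nat_lit 7) (nat_lit 4) (nat_lit 1) (nat_lit 5) (nat_lit 372) (nat_lit 226) r8_372 r11_226 (nat_lit 0) (nat_lit 24741287) (nat_lit 0) (nat_lit 0x8017985b4) (nat_lit 561612199),
  Rx.mk (nat_lit 108) (nat_lit 4) (nat_lit 5) (nat_lit 1) (nat_lit 6) (nat_lit 369) (nat_lit 223) r8_369 r11_223 (nat_lit 24741287) (nat_lit 0) (nat_lit 0) (nat_lit 0x8017985b4) (nat_lit 561612199),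
  Rx.mk (nat_lit 109) (nat_lit 5) (nat_lit 5) (nat_lit 1) (nat_lit 7) (nat_lit 371) (nat_lit 225) r8_371 r11_225 (nat_lit 0) (nat_lit 0) (nat_lit 0) (nat_lit 0x8017985b4) (nat_lit 536870912),
  Rx.mk (nat_lit 111) (nat_lit 7) (nat_lit 5) (nat_lit 1) (nat_lit 7) (nat_lit 373) (nat_lit 227) r8_373 r11_227 (nat_lit 0) (nat_lit 0) (nat_lit 0) (nat_lit 0x8017985b4) (nat_lit 536870912),
  Rx.mk (nat_lit 127) (nat_lit 7) (nat_lit 7) (nat_lit 1) (nat_lit 7) (nat_lit 374) (nat_lit 228) r8_374 r11_228 (nat_lit 0) (nat_lit 0) (nat_lit 0) (nat_lit 0x8017985b4) (nat_lit 536870912),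
  Rx.mk (nat_lit 383) (nat_lit 7) (nat_lit 7) (nat_lit 5) (nat_lit 7) (nat_lit 367) (nat_lit 229) r8_367 r11_229 (nat_lit 0) (nat_lit 0) (nat_lit 0) (nat_lit 0x8017985b4) (nat_lit 536870912)]
noncomputable def e27_21 : List Rx := [
  Rx.mk (nat_lit 292) (nat_lit 4) (nat_lit 4) (nat_lit 4) (nat_lit 0) (nat_lit 273) (nat_lit 99) r8_273 r9_99 (nat_lit 46447449) (nat_lit 18790511) (nat_lit 15284300) (nat_lit 0x3cee725c4) (nat_lit 1702614672),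
  Rx.mk (nat_lit 295) (nat_lit 7) (nat_lit 4) (nat_lit 4) (nat_lit 1) (nat_lit 276) (nat_lit 100) r8_276 r9_100 (nat_lit 0) (nat_lit 23999425) (nat_lit 26650245) (nat_lit 0x66dd7892e) (nat_lit 994688732),
  Rx.mk (nat_lit 308) (nat_lit 4) (nat_lit 6) (nat_lit 4) (nat_lit 2) (nat_lit 274) (nat_lit 103) r8_274 r9_103 (nat_lit 23607638) (nat_lit 0) (nat_lit 24950323) (nat_lit 0x64fca11c2) (nat_lit 1022966473),
  Rx.mk (nat_lit 310) (nat_lit 6) (nat_lit 6) (nat_lit 4) (nat_lit 3) (nat_lit 275) (nat_lit 106) r8_275 r9_106 (nat_lit 0) (nat_lit 0) (nat_lit 24741287) (nat_lit 0x800b35984) (nat_lit 562371349),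
  Rx.mk (nat_lit 311) (nat_lit 7) (nat_lit 6) (nat_lit 4) (nat_lit 3) (nat_lit 277) (nat_lit 104) r8_277 r9_104 (nat_lit 0) (nat_lit 0) (nat_lit 24488988) (nat_lit 0x7ff6155ae) (nat_lit 563408300),
  Rx.mk (nat_lit 406) (nat_lit 6) (nat_lit 2) (nat_lit 6) (nat_lit 7) (nat_lit 279) (nat_lit 108) r8_279 r9_108 (nat_lit 0) (nat_lit 0) (nat_lit 0) (nat_lit 0x8017985b4) (nat_lit 536870912),
  Rx.mk (nat_lit 438) (nat_lit 6) (nat_lit 6) (nat_lit 6) (nat_lit 7) (nat_lit 278) (nat_lit 107) r8_278 r9_107 (nat_lit 0) (nat_lit 0) (nat_lit 0) (nat_lit 0x8017985b4) (nat_lit 536870912),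
  Rx.mk (nat_lit 487) (nat_lit 7) (nat_lit 4) (nat_lit 7) (nat_lit 5) (nat_lit 280) (nat_lit 101) r8_280 r9_101 (nat_lit 0) (nat_lit 24741287) (nat_lit 0) (nat_lit 0x7ff1b40e6) (nat_lit 563929249),
  Rx.mk (nat_lit 503) (nat_lit 7) (nat_lit 6) (nat_lit 7) (nat_lit 7) (nat_lit 281) (nat_lit 105) r8_281 r9_105 (nat_lit 0) (nat_lit 0) (nat_lit 0) (nat_lit 0x8017985b4) (nat_lit 536870912),
  Rx.mk (nat_lit 511) (nat_lit 7) (nat_lit 7) (nat_lit 7) (nat_lit 7) (nat_lit 282) (nat_lit 102) r8_282 r9_102 (nat_lit 0) (nat_lit 0) (nat_lit 0) (nat_lit 0x8017985b4) (nat_lit 536870912)]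
noncomputable def e27_22 : List Rx := [
  Rx.mk (nat_lit 0) (nat_lit 0) (nat_lit 0) (nat_lit 0) (nat_lit 0) (nat_lit 0) (nat_lit 124) r8_0 r0_124 (nat_lit 37018604) (nat_lit 11031913) (nat_lit 7939868) (nat_lit 0x2f3402ffc) (nat_lit 1899960047),
  Rx.mk (nat_lit 24) (nat_lit 0) (nat_lit 3) (nat_lit 0) (nat_lit 2) (nat_lit 1) (nat_lit 125) r8_1 r0_125 (nat_lit 43759254) (nat_lit 0) (nat_lit 26421063) (nat_lit 0x5ccc534e6) (nat_lit 1176984379),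
  Rx.mk (nat_lit 27) (nat_lit 3) (nat_lit 3) (nat_lit 0) (nat_lit 3) (nat_lit 2) (nat_lit 126) r8_2 r0_126 (nat_lit 0) (nat_lit 0) (nat_lit 19040660) (nat_lit 0x6f984888c) (nat_lit 821904322),
  Rx.mk (nat_lit 64) (nat_lit 0) (nat_lit 0) (nat_lit 1) (nat_lit 4) (nat_lit 3) (nat_lit 127) r8_3 r0_127 (nat_lit 82416712) (nat_lit 32206150) (nat_lit 0) (nat_lit 0x66c0ffdc4) (nat_lit 1060452374),
  Rx.mk (nat_lit 88) (nat_lit 0) (nat_lit 3) (nat_lit 1) (nat_lit 6) (nat_lit 4) (nat_lit 128) r8_4 r0_128 (nat_lit 28052384) (nat_lit 0) (nat_lit 0) (nat_lit 0x7ecc55e04) (nat_lit 585422396),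
  Rx.mk (nat_lit 91) (nat_lit 3) (nat_lit 3) (nat_lit 1) (nat_lit 7) (nat_lit 5) (nat_lit 129) r8_5 r0_129 (nat_lit 0) (nat_lit 0) (nat_lit 0) (nat_lit 0x7feae9d88) (nat_lit 539601062),
  Rx.mk (nat_lit 128) (nat_lit 0) (nat_lit 0) (nat_lit 2) (nat_lit 4) (nat_lit 6) (nat_lit 133) r8_6 r0_133 (nat_lit 54286075) (nat_lit 35479035) (nat_lit 0) (nat_lit 0x62e45b6c8) (nat_lit 1098022322),
  Rx.mk (nat_lit 130) (nat_lit 2) (nat_lit 0) (nat_lit 2) (nat_lit 5) (nat_lit 8) (nat_lit 136) r8_8 r0_136 (nat_lit 0) (nat_lit 31117367) (nat_lit 0) (nat_lit 0x7e047cca2) (nat_lit 600994729),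
  Rx.mk (nat_lit 146) (nat_lit 2) (nat_lit 2) (nat_lit 2) (nat_lit 7) (nat_lit 9) (nat_lit 138) r8_9 r0_138 (nat_lit 0) (nat_lit 0) (nat_lit 0) (nat_lit 0x8017985b4) (nat_lit 536870912),
  Rx.mk (nat_lit 152) (nat_lit 0) (nat_lit 3) (nat_lit 2) (nat_lit 6) (nat_lit 7) (nat_lit 134) r8_7 r0_134 (nat_lit 28597756) (nat_lit 0) (nat_lit 0) (nat_lit 0x7fab4f40c) (nat_lit 572118568),
  Rx.mk (nat_lit 154) (nat_lit 2) (nat_lit 3) (nat_lit 2) (nat_lit 7) (nat_lit 10) (nat_lit 137) r8_10 r0_137 (nat_lit 0) (nat_lit 0) (nat_lit 0) (nat_lit 0x8017985b4) (nat_lit 536870912),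
  Rx.mk (nat_lit 155) (nat_lit 3) (nat_lit 3) (nat_lit 2) (nat_lit 7) (nat_lit 11) (nat_lit 135) r8_11 r0_135 (nat_lit 0) (nat_lit 0) (nat_lit 0) (nat_lit 0x7ffc6e694) (nat_lit 538526762),
  Rx.mk (nat_lit 219) (nat_lit 3) (nat_lit 3) (nat_lit 3) (nat_lit 7) (nat_lit 14) (nat_lit 130) r8_14 r0_130 (nat_lit 0) (nat_lit 0) (nat_lit 0) (nat_lit 0x7fa4b61a4) (nat_lit 543932912),
  Rx.mk (nat_lit 251) (nat_lit 3) (nat_lit 7) (nat_lit 3) (nat_lit 7) (nat_lit 13) (nat_lit 131) r8_13 r0_131 (nat_lit 0) (nat_lit 0) (nat_lit 0) (nat_lit 0x8017985b4) (nat_lit 536870912),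
  Rx.mk (nat_lit 255) (nat_lit 7) (nat_lit 7) (nat_lit 3) (nat_lit 7) (nat_lit 12) (nat_lit 132) r8_12 r0_132 (nat_lit 0) (nat_lit 0) (nat_lit 0) (nat_lit 0x8017985b4) (nat_lit 536870912)]
noncomputable def e27_23 : List Rx := [
  Rx.mk (nat_lit 0) (nat_lit 0) (nat_lit 0) (nat_lit 0) (nat_lit 0) (nat_lit 15) (nat_lit 131) r8_15 r1_131 (nat_lit 78140221) (nat_lit 16366775) (nat_lit 12570282) (nat_lit 0x42b179a90) (nat_lit 1635971940),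
  Rx.mk (nat_lit 24) (nat_lit 0) (nat_lit 3) (nat_lit 0) (nat_lit 2) (nat_lit 16) (nat_lit 132) r8_16 r1_132 (nat_lit 44995829) (nat_lit 0) (nat_lit 40466188) (nat_lit 0x6d2f8c872) (nat_lit 927296079),
  Rx.mk (nat_lit 27) (nat_lit 3) (nat_lit 3) (nat_lit 0) (nat_lit 3) (nat_lit 17) (nat_lit 133) r8_17 r1_133 (nat_lit 0) (nat_lit 0) (nat_lit 25986002) (nat_lit 0x7f21990dc) (nat_lit 578019064),
  Rx.mk (nat_lit 64) (nat_lit 0) (nat_lit 0) (nat_lit 1) (nat_lit 4) (nat_lit 18) (nat_lit 134) r8_18 r1_134 (nat_lit 144484209) (nat_lit 46134325) (nat_lit 0) (nat_lit 0x72b2fdad0) (nat_lit 943309946),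
  Rx.mk (nat_lit 88) (nat_lit 0) (nat_lit 3) (nat_lit 1) (nat_lit 6) (nat_lit 19) (nat_lit 135) r8_19 r1_135 (nat_lit 24741287) (nat_lit 0) (nat_lit 0) (nat_lit 0x8017985b4) (nat_lit 561612199),
  Rx.mk (nat_lit 91) (nat_lit 3) (nat_lit 3) (nat_lit 1) (nat_lit 7) (nat_lit 20) (nat_lit 136) r8_20 r1_136 (nat_lit 0) (nat_lit 0) (nat_lit 0) (nat_lit 0x8017985b4) (nat_lit 536870912),
  Rx.mk (nat_lit 128) (nat_lit 0) (nat_lit 0) (nat_lit 2) (nat_lit 4) (nat_lit 21) (nat_lit 138) r8_21 r1_138 (nat_lit 36913539) (nat_lit 31041958) (nat_lit 0) (nat_lit 0x73f49b3ba) (nat_lit 800345659),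
  Rx.mk (nat_lit 130) (nat_lit 2) (nat_lit 0) (nat_lit 2) (nat_lit 5) (nat_lit 22) (nat_lit 139) r8_22 r1_139 (nat_lit 0) (nat_lit 19606239) (nat_lit 0) (nat_lit 0x7f4c479c8) (nat_lit 568985001),
  Rx.mk (nat_lit 146) (nat_lit 2) (nat_lit 2) (nat_lit 2) (nat_lit 7) (nat_lit 23) (nat_lit 140) r8_23 r1_140 (nat_lit 0) (nat_lit 0) (nat_lit 0) (nat_lit 0x8017985b4) (nat_lit 536870912),
  Rx.mk (nat_lit 219) (nat_lit 3) (nat_lit 3) (nat_lit 3) (nat_lit 7) (nat_lit 24) (nat_lit 137) r8_24 r1_137 (nat_lit 0) (nat_lit 0) (nat_lit 0) (nat_lit 0x8017985b4) (nat_lit 536870912)]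
noncomputable def e27_24 : List Rx := [
  Rx.mk (nat_lit 24) (nat_lit 0) (nat_lit 3) (nat_lit 0) (nat_lit 2) (nat_lit 47) (nat_lit 114) r8_47 r4_114 (nat_lit 35927384) (nat_lit 0) (nat_lit 25528723) (nat_lit 0x6c2494650) (nat_lit 920149869),
  Rx.mk (nat_lit 27) (nat_lit 3) (nat_lit 3) (nat_lit 0) (nat_lit 3) (nat_lit 49) (nat_lit 115) r8_49 r4_115 (nat_lit 0) (nat_lit 0) (nat_lit 15426170) (nat_lit 0x7fa00e8ea) (nat_lit 559577782),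
  Rx.mk (nat_lit 59) (nat_lit 3) (nat_lit 7) (nat_lit 0) (nat_lit 3) (nat_lit 48) (nat_lit 116) r8_48 r4_116 (nat_lit 0) (nat_lit 0) (nat_lit 19539304) (nat_lit 0x7feeea77a) (nat_lit 558873116),
  Rx.mk (nat_lit 88) (nat_lit 0) (nat_lit 3) (nat_lit 1) (nat_lit 6) (nat_lit 50) (nat_lit 117) r8_50 r4_117 (nat_lit 24741287) (nat_lit 0) (nat_lit 0) (nat_lit 0x8005f42d6) (nat_lit 562689149),
  Rx.mk (nat_lit 91) (nat_lit 3) (nat_lit 3) (nat_lit 1) (nat_lit 7) (nat_lit 52) (nat_lit 118) r8_52 r4_118 (nat_lit 0) (nat_lit 0) (nat_lit 0) (nat_lit 0x8050765fc) (nat_lit 533378512),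
  Rx.mk (nat_lit 123) (nat_lit 3) (nat_lit 7) (nat_lit 1) (nat_lit 7) (nat_lit 51) (nat_lit 119) r8_51 r4_119 (nat_lit 0) (nat_lit 0) (nat_lit 0) (nat_lit 0x8017985b4) (nat_lit 536870912),
  Rx.mk (nat_lit 152) (nat_lit 0) (nat_lit 3) (nat_lit 2) (nat_lit 6) (nat_lit 53) (nat_lit 122) r8_53 r4_122 (nat_lit 24741287) (nat_lit 0) (nat_lit 0) (nat_lit 0x8017985b4) (nat_lit 561612199),
  Rx.mk (nat_lit 154) (nat_lit 2) (nat_lit 3) (nat_lit 2) (nat_lit 7) (nat_lit 54) (nat_lit 124) r8_54 r4_124 (nat_lit 0) (nat_lit 0) (nat_lit 0) (nat_lit 0x8017985b4) (nat_lit 536870912),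
  Rx.mk (nat_lit 155) (nat_lit 3) (nat_lit 3) (nat_lit 2) (nat_lit 7) (nat_lit 55) (nat_lit 123) r8_55 r4_123 (nat_lit 0) (nat_lit 0) (nat_lit 0) (nat_lit 0x80507696c) (nat_lit 533378462),
  Rx.mk (nat_lit 251) (nat_lit 3) (nat_lit 7) (nat_lit 3) (nat_lit 7) (nat_lit 57) (nat_lit 120) r8_57 r4_120 (nat_lit 0) (nat_lit 0) (nat_lit 0) (nat_lit 0x8017985b4) (nat_lit 536870912),
  Rx.mk (nat_lit 255) (nat_lit 7) (nat_lit 7) (nat_lit 3) (nat_lit 7) (nat_lit 56) (nat_lit 121) r8_56 r4_121 (nat_lit 0) (nat_lit 0) (nat_lit 0) (nat_lit 0x8017985b4) (nat_lit 536870912)]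
noncomputable def e27_25 : List Rx := [
  Rx.mk (nat_lit 0) (nat_lit 0) (nat_lit 0) (nat_lit 0) (nat_lit 0) (nat_lit 78) (nat_lit 150) r8_78 r7_150 (nat_lit 26185611) (nat_lit 8497828) (nat_lit 8960456) (nat_lit 0x362c7667e) (nat_lit 1774947907),
  Rx.mk (nat_lit 24) (nat_lit 0) (nat_lit 3) (nat_lit 0) (nat_lit 2) (nat_lit 79) (nat_lit 153) r8_79 r7_153 (nat_lit 24651851) (nat_lit 0) (nat_lit 24616168) (nat_lit 0x5ff890ccc) (nat_lit 1104782931),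
  Rx.mk (nat_lit 27) (nat_lit 3) (nat_lit 3) (nat_lit 0) (nat_lit 3) (nat_lit 80) (nat_lit 155) r8_80 r7_155 (nat_lit 0) (nat_lit 0) (nat_lit 24741287) (nat_lit 0x7ff6824a6) (nat_lit 563637099),
  Rx.mk (nat_lit 128) (nat_lit 0) (nat_lit 0) (nat_lit 2) (nat_lit 4) (nat_lit 81) (nat_lit 151) r8_81 r7_151 (nat_lit 13633279) (nat_lit 14186136) (nat_lit 0) (nat_lit 0x6517ac3fe) (nat_lit 1000476627),
  Rx.mk (nat_lit 130) (nat_lit 2) (nat_lit 0) (nat_lit 2) (nat_lit 5) (nat_lit 83) (nat_lit 152) r8_83 r7_152 (nat_lit 0) (nat_lit 24741287) (nat_lit 0) (nat_lit 0x7fe1901b0) (nat_lit 564922449),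
  Rx.mk (nat_lit 146) (nat_lit 2) (nat_lit 2) (nat_lit 2) (nat_lit 7) (nat_lit 84) (nat_lit 159) r8_84 r7_159 (nat_lit 0) (nat_lit 0) (nat_lit 0) (nat_lit 0x8017985b4) (nat_lit 536870912),
  Rx.mk (nat_lit 152) (nat_lit 0) (nat_lit 3) (nat_lit 2) (nat_lit 6) (nat_lit 82) (nat_lit 154) r8_82 r7_154 (nat_lit 24741287) (nat_lit 0) (nat_lit 0) (nat_lit 0x7fe8e8d90) (nat_lit 564464999),
  Rx.mk (nat_lit 154) (nat_lit 2) (nat_lit 3) (nat_lit 2) (nat_lit 7) (nat_lit 85) (nat_lit 158) r8_85 r7_158 (nat_lit 0) (nat_lit 0) (nat_lit 0) (nat_lit 0x8017985b4) (nat_lit 536870912),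
  Rx.mk (nat_lit 155) (nat_lit 3) (nat_lit 3) (nat_lit 2) (nat_lit 7) (nat_lit 86) (nat_lit 157) r8_86 r7_157 (nat_lit 0) (nat_lit 0) (nat_lit 0) (nat_lit 0x8017985b4) (nat_lit 536870912),
  Rx.mk (nat_lit 219) (nat_lit 3) (nat_lit 3) (nat_lit 3) (nat_lit 7) (nat_lit 89) (nat_lit 156) r8_89 r7_156 (nat_lit 0) (nat_lit 0) (nat_lit 0) (nat_lit 0x8017985b4) (nat_lit 536870912),
  Rx.mk (nat_lit 251) (nat_lit 3) (nat_lit 7) (nat_lit 3) (nat_lit 7) (nat_lit 88) (nat_lit 149) r8_88 r7_149 (nat_lit 0) (nat_lit 0) (nat_lit 0) (nat_lit 0x8017985b4) (nat_lit 536870912),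
  Rx.mk (nat_lit 255) (nat_lit 7) (nat_lit 7) (nat_lit 3) (nat_lit 7) (nat_lit 87) (nat_lit 148) r8_87 r7_148 (nat_lit 0) (nat_lit 0) (nat_lit 0) (nat_lit 0x8017985b4) (nat_lit 536870912)]
noncomputable def e27_26 : List Rx := [
  Rx.mk (nat_lit 0) (nat_lit 0) (nat_lit 0) (nat_lit 0) (nat_lit 0) (nat_lit 126) (nat_lit 126) r8_126 r8_126 (nat_lit 69167844) (nat_lit 20497821) (nat_lit 20497821) (nat_lit 0x3ff6c5f16) (nat_lit 1683229348),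
  Rx.mk (nat_lit 24) (nat_lit 0) (nat_lit 3) (nat_lit 0) (nat_lit 2) (nat_lit 127) (nat_lit 129) r8_127 r8_129 (nat_lit 25761297) (nat_lit 0) (nat_lit 25354659) (nat_lit 0x65918fae0) (nat_lit 1016119168),
  Rx.mk (nat_lit 27) (nat_lit 3) (nat_lit 3) (nat_lit 0) (nat_lit 3) (nat_lit 128) (nat_lit 130) r8_128 r8_130 (nat_lit 0) (nat_lit 0) (nat_lit 24741287) (nat_lit 0x8009bb888) (nat_lit 562459499),
  Rx.mk (nat_lit 128) (nat_lit 0) (nat_lit 0) (nat_lit 2) (nat_lit 4) (nat_lit 129) (nat_lit 127) r8_129 r8_127 (nat_lit 25761297) (nat_lit 25354659) (nat_lit 0) (nat_lit 0x65918fae0) (nat_lit 1016119168),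
  Rx.mk (nat_lit 130) (nat_lit 2) (nat_lit 0) (nat_lit 2) (nat_lit 5) (nat_lit 130) (nat_lit 128) r8_130 r8_128 (nat_lit 0) (nat_lit 24741287) (nat_lit 0) (nat_lit 0x8009bb888) (nat_lit 562459499),
  Rx.mk (nat_lit 146) (nat_lit 2) (nat_lit 2) (nat_lit 2) (nat_lit 7) (nat_lit 131) (nat_lit 132) r8_131 r8_132 (nat_lit 0) (nat_lit 0) (nat_lit 0) (nat_lit 0x8017985b4) (nat_lit 536870912),
  Rx.mk (nat_lit 219) (nat_lit 3) (nat_lit 3) (nat_lit 3) (nat_lit 7) (nat_lit 132) (nat_lit 131) r8_132 r8_131 (nat_lit 0) (nat_lit 0) (nat_lit 0) (nat_lit 0x8017985b4) (nat_lit 536870912)]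
noncomputable def e27_27 : List Rx := [
  Rx.mk (nat_lit 0) (nat_lit 0) (nat_lit 0) (nat_lit 0) (nat_lit 0) (nat_lit 114) (nat_lit 102) r8_114 r8_102 (nat_lit 23607891) (nat_lit 12621568) (nat_lit 10519158) (nat_lit 0x35cfe746c) (nat_lit 1783943879),
  Rx.mk (nat_lit 24) (nat_lit 0) (nat_lit 3) (nat_lit 0) (nat_lit 2) (nat_lit 115) (nat_lit 103) r8_115 r8_103 (nat_lit 21485510) (nat_lit 0) (nat_lit 22151582) (nat_lit 0x5d3108e36) (nat_lit 1144097304),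
  Rx.mk (nat_lit 27) (nat_lit 3) (nat_lit 3) (nat_lit 0) (nat_lit 3) (nat_lit 116) (nat_lit 104) r8_116 r8_104 (nat_lit 0) (nat_lit 0) (nat_lit 24741287) (nat_lit 0x8017985b4) (nat_lit 561612199),
  Rx.mk (nat_lit 128) (nat_lit 0) (nat_lit 0) (nat_lit 2) (nat_lit 4) (nat_lit 117) (nat_lit 108) r8_117 r8_108 (nat_lit 7782469) (nat_lit 8151494) (nat_lit 0) (nat_lit 0x657d11ec4) (nat_lit 982120125),
  Rx.mk (nat_lit 130) (nat_lit 2) (nat_lit 0) (nat_lit 2) (nat_lit 5) (nat_lit 119) (nat_lit 111) r8_119 r8_111 (nat_lit 0) (nat_lit 24741287) (nat_lit 0) (nat_lit 0x7fe7fdaf2) (nat_lit 564530549),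
  Rx.mk (nat_lit 146) (nat_lit 2) (nat_lit 2) (nat_lit 2) (nat_lit 7) (nat_lit 120) (nat_lit 113) r8_120 r8_113 (nat_lit 0) (nat_lit 0) (nat_lit 0) (nat_lit 0x8017985b4) (nat_lit 536870912),
  Rx.mk (nat_lit 152) (nat_lit 0) (nat_lit 3) (nat_lit 2) (nat_lit 6) (nat_lit 118) (nat_lit 109) r8_118 r8_109 (nat_lit 25147508) (nat_lit 0) (nat_lit 0) (nat_lit 0x80037d764) (nat_lit 563258220),
  Rx.mk (nat_lit 154) (nat_lit 2) (nat_lit 3) (nat_lit 2) (nat_lit 7) (nat_lit 121) (nat_lit 112) r8_121 r8_112 (nat_lit 0) (nat_lit 0) (nat_lit 0) (nat_lit 0x8017985b4) (nat_lit 536870912),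
  Rx.mk (nat_lit 155) (nat_lit 3) (nat_lit 3) (nat_lit 2) (nat_lit 7) (nat_lit 122) (nat_lit 110) r8_122 r8_110 (nat_lit 0) (nat_lit 0) (nat_lit 0) (nat_lit 0x8017985b4) (nat_lit 536870912),
  Rx.mk (nat_lit 219) (nat_lit 3) (nat_lit 3) (nat_lit 3) (nat_lit 7) (nat_lit 125) (nat_lit 105) r8_125 r8_105 (nat_lit 0) (nat_lit 0) (nat_lit 0) (nat_lit 0x8017985b4) (nat_lit 536870912),
  Rx.mk (nat_lit 251) (nat_lit 3) (nat_lit 7) (nat_lit 3) (nat_lit 7) (nat_lit 124) (nat_lit 106) r8_124 r8_106 (nat_lit 0) (nat_lit 0) (nat_lit 0) (nat_lit 0x8017985b4) (nat_lit 536870912),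
  Rx.mk (nat_lit 255) (nat_lit 7) (nat_lit 7) (nat_lit 3) (nat_lit 7) (nat_lit 123) (nat_lit 107) r8_123 r8_107 (nat_lit 0) (nat_lit 0) (nat_lit 0) (nat_lit 0x8017985b4) (nat_lit 536870912),
  Rx.mk (nat_lit 292) (nat_lit 4) (nat_lit 4) (nat_lit 4) (nat_lit 0) (nat_lit 102) (nat_lit 114) r8_102 r8_114 (nat_lit 23607891) (nat_lit 12621568) (nat_lit 10519158) (nat_lit 0x35cfe746c) (nat_lit 1783943879),
  Rx.mk (nat_lit 308) (nat_lit 4) (nat_lit 6) (nat_lit 4) (nat_lit 2) (nat_lit 103) (nat_lit 115) r8_103 r8_115 (nat_lit 21485510) (nat_lit 0) (nat_lit 22151582) (nat_lit 0x5d3108e36) (nat_lit 1144097304),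
  Rx.mk (nat_lit 310) (nat_lit 6) (nat_lit 6) (nat_lit 4) (nat_lit 3) (nat_lit 104) (nat_lit 116) r8_104 r8_116 (nat_lit 0) (nat_lit 0) (nat_lit 24741287) (nat_lit 0x8017985b4) (nat_lit 561612199),
  Rx.mk (nat_lit 402) (nat_lit 2) (nat_lit 2) (nat_lit 6) (nat_lit 7) (nat_lit 107) (nat_lit 123) r8_107 r8_123 (nat_lit 0) (nat_lit 0) (nat_lit 0) (nat_lit 0x8017985b4) (nat_lit 536870912),
  Rx.mk (nat_lit 406) (nat_lit 6) (nat_lit 2) (nat_lit 6) (nat_lit 7) (nat_lit 106) (nat_lit 124) r8_106 r8_124 (nat_lit 0) (nat_lit 0) (nat_lit 0) (nat_lit 0x8017985b4) (nat_lit 536870912),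
  Rx.mk (nat_lit 438) (nat_lit 6) (nat_lit 6) (nat_lit 6) (nat_lit 7) (nat_lit 105) (nat_lit 125) r8_105 r8_125 (nat_lit 0) (nat_lit 0) (nat_lit 0) (nat_lit 0x8017985b4) (nat_lit 536870912),
  Rx.mk (nat_lit 484) (nat_lit 4) (nat_lit 4) (nat_lit 7) (nat_lit 4) (nat_lit 108) (nat_lit 117) r8_108 r8_117 (nat_lit 7782469) (nat_lit 8151494) (nat_lit 0) (nat_lit 0x657d11ec4) (nat_lit 982120125),
  Rx.mk (nat_lit 487) (nat_lit 7) (nat_lit 4) (nat_lit 7) (nat_lit 5) (nat_lit 111) (nat_lit 119) r8_111 r8_119 (nat_lit 0) (nat_lit 24741287) (nat_lit 0) (nat_lit 0x7fe7fdaf2) (nat_lit 564530549),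
  Rx.mk (nat_lit 500) (nat_lit 4) (nat_lit 6) (nat_lit 7) (nat_lit 6) (nat_lit 109) (nat_lit 118) r8_109 r8_118 (nat_lit 25147508) (nat_lit 0) (nat_lit 0) (nat_lit 0x80037d764) (nat_lit 563258220),
  Rx.mk (nat_lit 502) (nat_lit 6) (nat_lit 6) (nat_lit 7) (nat_lit 7) (nat_lit 110) (nat_lit 122) r8_110 r8_122 (nat_lit 0) (nat_lit 0) (nat_lit 0) (nat_lit 0x8017985b4) (nat_lit 536870912),
  Rx.mk (nat_lit 503) (nat_lit 7) (nat_lit 6) (nat_lit 7) (nat_lit 7) (nat_lit 112) (nat_lit 121) r8_112 r8_121 (nat_lit 0) (nat_lit 0) (nat_lit 0) (nat_lit 0x8017985b4) (nat_lit 536870912),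
  Rx.mk (nat_lit 511) (nat_lit 7) (nat_lit 7) (nat_lit 7) (nat_lit 7) (nat_lit 113) (nat_lit 120) r8_113 r8_120 (nat_lit 0) (nat_lit 0) (nat_lit 0) (nat_lit 0x8017985b4) (nat_lit 536870912)]
noncomputable def e27_28 : List Rx := [
  Rx.mk (nat_lit 24) (nat_lit 0) (nat_lit 3) (nat_lit 0) (nat_lit 2) (nat_lit 149) (nat_lit 112) r8_149 r10_112 (nat_lit 27532938) (nat_lit 0) (nat_lit 25194848) (nat_lit 0x6502bec76) (nat_lit 1026751498),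
  Rx.mk (nat_lit 27) (nat_lit 3) (nat_lit 3) (nat_lit 0) (nat_lit 3) (nat_lit 151) (nat_lit 114) r8_151 r10_114 (nat_lit 0) (nat_lit 0) (nat_lit 24741287) (nat_lit 0x80046e510) (nat_lit 562785099),
  Rx.mk (nat_lit 59) (nat_lit 3) (nat_lit 7) (nat_lit 0) (nat_lit 3) (nat_lit 150) (nat_lit 110) r8_150 r10_110 (nat_lit 0) (nat_lit 0) (nat_lit 24741287) (nat_lit 0x8006a3cfe) (nat_lit 562650649),
  Rx.mk (nat_lit 152) (nat_lit 0) (nat_lit 3) (nat_lit 2) (nat_lit 6) (nat_lit 152) (nat_lit 113) r8_152 r10_113 (nat_lit 24741287) (nat_lit 0) (nat_lit 0) (nat_lit 0x7fc74cd8a) (nat_lit 566520649),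
  Rx.mk (nat_lit 154) (nat_lit 2) (nat_lit 3) (nat_lit 2) (nat_lit 7) (nat_lit 153) (nat_lit 116) r8_153 r10_116 (nat_lit 0) (nat_lit 0) (nat_lit 0) (nat_lit 0x8017985b4) (nat_lit 536870912),
  Rx.mk (nat_lit 155) (nat_lit 3) (nat_lit 3) (nat_lit 2) (nat_lit 7) (nat_lit 154) (nat_lit 115) r8_154 r10_115 (nat_lit 0) (nat_lit 0) (nat_lit 0) (nat_lit 0x8017985b4) (nat_lit 536870912),
  Rx.mk (nat_lit 251) (nat_lit 3) (nat_lit 7) (nat_lit 3) (nat_lit 7) (nat_lit 156) (nat_lit 111) r8_156 r10_111 (nat_lit 0) (nat_lit 0) (nat_lit 0) (nat_lit 0x8017985b4) (nat_lit 536870912),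
  Rx.mk (nat_lit 255) (nat_lit 7) (nat_lit 7) (nat_lit 3) (nat_lit 7) (nat_lit 155) (nat_lit 109) r8_155 r10_109 (nat_lit 0) (nat_lit 0) (nat_lit 0) (nat_lit 0x8017985b4) (nat_lit 536870912)]
noncomputable def e27_29 : List Rx := [
  Rx.mk (nat_lit 27) (nat_lit 3) (nat_lit 3) (nat_lit 0) (nat_lit 3) (nat_lit 208) (nat_lit 120) r8_208 r11_120 (nat_lit 0) (nat_lit 0) (nat_lit 28059580) (nat_lit 0x7f58302f8) (nat_lit 576670492),
  Rx.mk (nat_lit 59) (nat_lit 3) (nat_lit 7) (nat_lit 0) (nat_lit 3) (nat_lit 207) (nat_lit 118) r8_207 r11_118 (nat_lit 0) (nat_lit 0) (nat_lit 24741287) (nat_lit 0x8017985b4) (nat_lit 561612199),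
  Rx.mk (nat_lit 63) (nat_lit 7) (nat_lit 7) (nat_lit 0) (nat_lit 3) (nat_lit 206) (nat_lit 115) r8_206 r11_115 (nat_lit 0) (nat_lit 0) (nat_lit 24741287) (nat_lit 0x8017985b4) (nat_lit 561612199),
  Rx.mk (nat_lit 91) (nat_lit 3) (nat_lit 3) (nat_lit 1) (nat_lit 7) (nat_lit 211) (nat_lit 121) r8_211 r11_121 (nat_lit 0) (nat_lit 0) (nat_lit 0) (nat_lit 0x8017985b4) (nat_lit 536870912),
  Rx.mk (nat_lit 123) (nat_lit 3) (nat_lit 7) (nat_lit 1) (nat_lit 7) (nat_lit 210) (nat_lit 119) r8_210 r11_119 (nat_lit 0) (nat_lit 0) (nat_lit 0) (nat_lit 0x8017985b4) (nat_lit 536870912),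
  Rx.mk (nat_lit 127) (nat_lit 7) (nat_lit 7) (nat_lit 1) (nat_lit 7) (nat_lit 209) (nat_lit 116) r8_209 r11_116 (nat_lit 0) (nat_lit 0) (nat_lit 0) (nat_lit 0x8017985b4) (nat_lit 536870912),
  Rx.mk (nat_lit 155) (nat_lit 3) (nat_lit 3) (nat_lit 2) (nat_lit 7) (nat_lit 212) (nat_lit 122) r8_212 r11_122 (nat_lit 0) (nat_lit 0) (nat_lit 0) (nat_lit 0x8017985b4) (nat_lit 536870912),
  Rx.mk (nat_lit 255) (nat_lit 7) (nat_lit 7) (nat_lit 3) (nat_lit 7) (nat_lit 213) (nat_lit 117) r8_213 r11_117 (nat_lit 0) (nat_lit 0) (nat_lit 0) (nat_lit 0x8017985b4) (nat_lit 536870912)]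
noncomputable def e27_30 : List Rx := [
  Rx.mk (nat_lit 103) (nat_lit 7) (nat_lit 4) (nat_lit 1) (nat_lit 5) (nat_lit 349) (nat_lit 271) r8_349 r5_271 (nat_lit 0) (nat_lit 26551209) (nat_lit 0) (nat_lit 0x7f5f75306) (nat_lit 574765171),
  Rx.mk (nat_lit 111) (nat_lit 7) (nat_lit 5) (nat_lit 1) (nat_lit 7) (nat_lit 350) (nat_lit 272) r8_350 r5_272 (nat_lit 0) (nat_lit 0) (nat_lit 0) (nat_lit 0x8017985b4) (nat_lit 536870912),
  Rx.mk (nat_lit 359) (nat_lit 7) (nat_lit 4) (nat_lit 5) (nat_lit 5) (nat_lit 347) (nat_lit 269) r8_347 r5_269 (nat_lit 0) (nat_lit 26407128) (nat_lit 0) (nat_lit 0x7ed75b9ac) (nat_lit 583090140),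
  Rx.mk (nat_lit 367) (nat_lit 7) (nat_lit 5) (nat_lit 5) (nat_lit 7) (nat_lit 348) (nat_lit 270) r8_348 r5_270 (nat_lit 0) (nat_lit 0) (nat_lit 0) (nat_lit 0x8017985b4) (nat_lit 536870912)]
noncomputable def e27_31 : List Rx := [
  Rx.mk (nat_lit 359) (nat_lit 7) (nat_lit 4) (nat_lit 5) (nat_lit 5) (nat_lit 358) (nat_lit 335) r8_358 r11_335 (nat_lit 0) (nat_lit 24741287) (nat_lit 0) (nat_lit 0x8017985b4) (nat_lit 561612199),
  Rx.mk (nat_lit 367) (nat_lit 7) (nat_lit 5) (nat_lit 5) (nat_lit 7) (nat_lit 359) (nat_lit 336) r8_359 r11_336 (nat_lit 0) (nat_lit 0) (nat_lit 0) (nat_lit 0x8017985b4) (nat_lit 536870912),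
  Rx.mk (nat_lit 375) (nat_lit 7) (nat_lit 6) (nat_lit 5) (nat_lit 7) (nat_lit 360) (nat_lit 337) r8_360 r11_337 (nat_lit 0) (nat_lit 0) (nat_lit 0) (nat_lit 0x8017985b4) (nat_lit 536870912)]
noncomputable def e27_32 : List Rx := [
  Rx.mk (nat_lit 99) (nat_lit 3) (nat_lit 4) (nat_lit 1) (nat_lit 5) (nat_lit 71) (nat_lit 203) r8_71 r6_203 (nat_lit 0) (nat_lit 11276317) (nat_lit 0) (nat_lit 0x80f41308e) (nat_lit 534645879),
  Rx.mk (nat_lit 107) (nat_lit 3) (nat_lit 5) (nat_lit 1) (nat_lit 7) (nat_lit 72) (nat_lit 204) r8_72 r6_204 (nat_lit 0) (nat_lit 0) (nat_lit 0) (nat_lit 0x8017985b4) (nat_lit 536870912),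
  Rx.mk (nat_lit 123) (nat_lit 3) (nat_lit 7) (nat_lit 1) (nat_lit 7) (nat_lit 73) (nat_lit 205) r8_73 r6_205 (nat_lit 0) (nat_lit 0) (nat_lit 0) (nat_lit 0x80607f5fc) (nat_lit 532392712)]
noncomputable def e27_33 : List Rx := [
  Rx.mk (nat_lit 59) (nat_lit 3) (nat_lit 7) (nat_lit 0) (nat_lit 3) (nat_lit 58) (nat_lit 115) r8_58 r5_115 (nat_lit 0) (nat_lit 0) (nat_lit 14303237) (nat_lit 0x7ea35f61c) (nat_lit 574182799),
  Rx.mk (nat_lit 123) (nat_lit 3) (nat_lit 7) (nat_lit 1) (nat_lit 7) (nat_lit 59) (nat_lit 116) r8_59 r5_116 (nat_lit 0) (nat_lit 0) (nat_lit 0) (nat_lit 0x805c00e40) (nat_lit 532666762),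
  Rx.mk (nat_lit 251) (nat_lit 3) (nat_lit 7) (nat_lit 3) (nat_lit 7) (nat_lit 60) (nat_lit 117) r8_60 r5_117 (nat_lit 0) (nat_lit 0) (nat_lit 0) (nat_lit 0x8017985b4) (nat_lit 536870912)]
noncomputable def e27_34 : List Rx := [
  Rx.mk (nat_lit 59) (nat_lit 3) (nat_lit 7) (nat_lit 0) (nat_lit 3) (nat_lit 157) (nat_lit 113) r8_157 r11_113 (nat_lit 0) (nat_lit 0) (nat_lit 24741287) (nat_lit 0x8017985b4) (nat_lit 561612199),
  Rx.mk (nat_lit 251) (nat_lit 3) (nat_lit 7) (nat_lit 3) (nat_lit 7) (nat_lit 158) (nat_lit 114) r8_158 r11_114 (nat_lit 0) (nat_lit 0) (nat_lit 0) (nat_lit 0x8017985b4) (nat_lit 536870912)]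
noncomputable def e27_35 : List Rx := [
  Rx.mk (nat_lit 99) (nat_lit 3) (nat_lit 4) (nat_lit 1) (nat_lit 5) (nat_lit 216) (nat_lit 310) r8_216 r6_310 (nat_lit 0) (nat_lit 11102784) (nat_lit 0) (nat_lit 0x80e83c530) (nat_lit 535184746),
  Rx.mk (nat_lit 103) (nat_lit 7) (nat_lit 4) (nat_lit 1) (nat_lit 5) (nat_lit 214) (nat_lit 311) r8_214 r6_311 (nat_lit 0) (nat_lit 24741287) (nat_lit 0) (nat_lit 0x8017985b4) (nat_lit 561612199),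
  Rx.mk (nat_lit 107) (nat_lit 3) (nat_lit 5) (nat_lit 1) (nat_lit 7) (nat_lit 217) (nat_lit 312) r8_217 r6_312 (nat_lit 0) (nat_lit 0) (nat_lit 0) (nat_lit 0x8017985b4) (nat_lit 536870912),
  Rx.mk (nat_lit 111) (nat_lit 7) (nat_lit 5) (nat_lit 1) (nat_lit 7) (nat_lit 215) (nat_lit 313) r8_215 r6_313 (nat_lit 0) (nat_lit 0) (nat_lit 0) (nat_lit 0x8017985b4) (nat_lit 536870912)]
noncomputable def e27_36 : List Rx := [
  Rx.mk (nat_lit 99) (nat_lit 3) (nat_lit 4) (nat_lit 1) (nat_lit 5) (nat_lit 227) (nat_lit 208) r8_227 r12_208 (nat_lit 0) (nat_lit 8954591) (nat_lit 0) (nat_lit 0x8144dd5dc) (nat_lit 527420603),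
  Rx.mk (nat_lit 103) (nat_lit 7) (nat_lit 4) (nat_lit 1) (nat_lit 5) (nat_lit 225) (nat_lit 211) r8_225 r12_211 (nat_lit 0) (nat_lit 25796827) (nat_lit 0) (nat_lit 0x7fa80b20a) (nat_lit 569524589),
  Rx.mk (nat_lit 107) (nat_lit 3) (nat_lit 5) (nat_lit 1) (nat_lit 7) (nat_lit 228) (nat_lit 209) r8_228 r12_209 (nat_lit 0) (nat_lit 0) (nat_lit 0) (nat_lit 0x8017985b4) (nat_lit 536870912),
  Rx.mk (nat_lit 111) (nat_lit 7) (nat_lit 5) (nat_lit 1) (nat_lit 7) (nat_lit 226) (nat_lit 212) r8_226 r12_212 (nat_lit 0) (nat_lit 0) (nat_lit 0) (nat_lit 0x8017985b4) (nat_lit 536870912),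
  Rx.mk (nat_lit 123) (nat_lit 3) (nat_lit 7) (nat_lit 1) (nat_lit 7) (nat_lit 229) (nat_lit 210) r8_229 r12_210 (nat_lit 0) (nat_lit 0) (nat_lit 0) (nat_lit 0x8017985b4) (nat_lit 536870912)]
noncomputable def e27_37 : List Rx := [
  Rx.mk (nat_lit 72) (nat_lit 0) (nat_lit 1) (nat_lit 1) (nat_lit 6) (nat_lit 64) (nat_lit 186) r8_64 r0_186 (nat_lit 26500941) (nat_lit 0) (nat_lit 0) (nat_lit 0x7c9c5d064) (nat_lit 619045003),
  Rx.mk (nat_lit 75) (nat_lit 3) (nat_lit 1) (nat_lit 1) (nat_lit 7) (nat_lit 65) (nat_lit 187) r8_65 r0_187 (nat_lit 0) (nat_lit 0) (nat_lit 0) (nat_lit 0x802f4e852) (nat_lit 535398012),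
  Rx.mk (nat_lit 104) (nat_lit 0) (nat_lit 5) (nat_lit 1) (nat_lit 6) (nat_lit 63) (nat_lit 185) r8_63 r0_185 (nat_lit 17259595) (nat_lit 0) (nat_lit 0) (nat_lit 0x7bf63ab82) (nat_lit 620224207)]
noncomputable def e27_38 : List Rx := [
  Rx.mk (nat_lit 104) (nat_lit 0) (nat_lit 5) (nat_lit 1) (nat_lit 6) (nat_lit 178) (nat_lit 289) r8_178 r0_289 (nat_lit 25058333) (nat_lit 0) (nat_lit 0) (nat_lit 0x74a9cadf8) (nat_lit 746005345),
  Rx.mk (nat_lit 105) (nat_lit 1) (nat_lit 5) (nat_lit 1) (nat_lit 7) (nat_lit 179) (nat_lit 290) r8_179 r0_290 (nat_lit 0) (nat_lit 0) (nat_lit 0) (nat_lit 0x7ffa6b34c) (nat_lit 538657562)]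
noncomputable def e27_39 : List Rx := [
  Rx.mk (nat_lit 72) (nat_lit 0) (nat_lit 1) (nat_lit 1) (nat_lit 6) (nat_lit 185) (nat_lit 242) r8_185 r7_242 (nat_lit 25158612) (nat_lit 0) (nat_lit 0) (nat_lit 0x7ffdc5b5a) (nat_lit 563608374),
  Rx.mk (nat_lit 73) (nat_lit 1) (nat_lit 1) (nat_lit 1) (nat_lit 7) (nat_lit 187) (nat_lit 244) r8_187 r7_244 (nat_lit 0) (nat_lit 0) (nat_lit 0) (nat_lit 0x8017985b4) (nat_lit 536870912),
  Rx.mk (nat_lit 75) (nat_lit 3) (nat_lit 1) (nat_lit 1) (nat_lit 7) (nat_lit 188) (nat_lit 245) r8_188 r7_245 (nat_lit 0) (nat_lit 0) (nat_lit 0) (nat_lit 0x8017985b4) (nat_lit 536870912),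
  Rx.mk (nat_lit 104) (nat_lit 0) (nat_lit 5) (nat_lit 1) (nat_lit 6) (nat_lit 184) (nat_lit 241) r8_184 r7_241 (nat_lit 24741287) (nat_lit 0) (nat_lit 0) (nat_lit 0x8017985b4) (nat_lit 561612199),
  Rx.mk (nat_lit 105) (nat_lit 1) (nat_lit 5) (nat_lit 1) (nat_lit 7) (nat_lit 186) (nat_lit 243) r8_186 r7_243 (nat_lit 0) (nat_lit 0) (nat_lit 0) (nat_lit 0x8017985b4) (nat_lit 536870912)]
noncomputable def e27_40 : List Rx := [
  Rx.mk (nat_lit 105) (nat_lit 1) (nat_lit 5) (nat_lit 1) (nat_lit 7) (nat_lit 322) (nat_lit 312) r8_322 r2_312 (nat_lit 0) (nat_lit 0) (nat_lit 0) (nat_lit 0x8017985b4) (nat_lit 536870912),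
  Rx.mk (nat_lit 109) (nat_lit 5) (nat_lit 5) (nat_lit 1) (nat_lit 7) (nat_lit 321) (nat_lit 313) r8_321 r2_313 (nat_lit 0) (nat_lit 0) (nat_lit 0) (nat_lit 0x8017985b4) (nat_lit 536870912),
  Rx.mk (nat_lit 365) (nat_lit 5) (nat_lit 5) (nat_lit 5) (nat_lit 7) (nat_lit 320) (nat_lit 314) r8_320 r2_314 (nat_lit 0) (nat_lit 0) (nat_lit 0) (nat_lit 0x8017985b4) (nat_lit 536870912)]
noncomputable def e27_41 : List Rx := [
  Rx.mk (nat_lit 73) (nat_lit 1) (nat_lit 1) (nat_lit 1) (nat_lit 7) (nat_lit 330) (nat_lit 294) r8_330 r9_294 (nat_lit 0) (nat_lit 0) (nat_lit 0) (nat_lit 0x8017985b4) (nat_lit 536870912),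
  Rx.mk (nat_lit 105) (nat_lit 1) (nat_lit 5) (nat_lit 1) (nat_lit 7) (nat_lit 329) (nat_lit 295) r8_329 r9_295 (nat_lit 0) (nat_lit 0) (nat_lit 0) (nat_lit 0x8017985b4) (nat_lit 536870912),
  Rx.mk (nat_lit 109) (nat_lit 5) (nat_lit 5) (nat_lit 1) (nat_lit 7) (nat_lit 328) (nat_lit 296) r8_328 r9_296 (nat_lit 0) (nat_lit 0) (nat_lit 0) (nat_lit 0x8017985b4) (nat_lit 536870912),
  Rx.mk (nat_lit 365) (nat_lit 5) (nat_lit 5) (nat_lit 5) (nat_lit 7) (nat_lit 327) (nat_lit 297) r8_327 r9_297 (nat_lit 0) (nat_lit 0) (nat_lit 0) (nat_lit 0x8017985b4) (nat_lit 536870912)]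
noncomputable def e27_42 : List Rx := [
  Rx.mk (nat_lit 365) (nat_lit 5) (nat_lit 5) (nat_lit 5) (nat_lit 7) (nat_lit 326) (nat_lit 289) r8_326 r9_289 (nat_lit 0) (nat_lit 0) (nat_lit 0) (nat_lit 0x8017985b4) (nat_lit 536870912)]
noncomputable def e27_43 : List Rx := [
  Rx.mk (nat_lit 105) (nat_lit 1) (nat_lit 5) (nat_lit 1) (nat_lit 7) (nat_lit 180) (nat_lit 286) r8_180 r1_286 (nat_lit 0) (nat_lit 0) (nat_lit 0) (nat_lit 0x8017985b4) (nat_lit 536870912)]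
noncomputable def e27_44 : List Rx := [
  Rx.mk (nat_lit 73) (nat_lit 1) (nat_lit 1) (nat_lit 1) (nat_lit 7) (nat_lit 190) (nat_lit 190) r8_190 r8_190 (nat_lit 0) (nat_lit 0) (nat_lit 0) (nat_lit 0x8017985b4) (nat_lit 536870912),
  Rx.mk (nat_lit 105) (nat_lit 1) (nat_lit 5) (nat_lit 1) (nat_lit 7) (nat_lit 189) (nat_lit 189) r8_189 r8_189 (nat_lit 0) (nat_lit 0) (nat_lit 0) (nat_lit 0x8017985b4) (nat_lit 536870912)]
noncomputable def e27_45 : List Rx := [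
  Rx.mk (nat_lit 72) (nat_lit 0) (nat_lit 1) (nat_lit 1) (nat_lit 6) (nat_lit 66) (nat_lit 199) r8_66 r1_199 (nat_lit 24741287) (nat_lit 0) (nat_lit 0) (nat_lit 0x8001ac32c) (nat_lit 562953699),
  Rx.mk (nat_lit 75) (nat_lit 3) (nat_lit 1) (nat_lit 1) (nat_lit 7) (nat_lit 67) (nat_lit 200) r8_67 r1_200 (nat_lit 0) (nat_lit 0) (nat_lit 0) (nat_lit 0x8017985b4) (nat_lit 536870912)]
noncomputable def e27_46 : List Rx := [
  Rx.mk (nat_lit 0) (nat_lit 0) (nat_lit 0) (nat_lit 0) (nat_lit 0) (nat_lit 25) (nat_lit 203) r8_25 r2_203 (nat_lit 12331261) (nat_lit 5186153) (nat_lit 4963972) (nat_lit 0x3d9490d48) (nat_lit 1633943848),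
  Rx.mk (nat_lit 3) (nat_lit 3) (nat_lit 0) (nat_lit 0) (nat_lit 1) (nat_lit 27) (nat_lit 209) r8_27 r2_209 (nat_lit 0) (nat_lit 24833065) (nat_lit 21402582) (nat_lit 0x6b091ef98) (nat_lit 922817759),
  Rx.mk (nat_lit 8) (nat_lit 0) (nat_lit 1) (nat_lit 0) (nat_lit 2) (nat_lit 26) (nat_lit 204) r8_26 r2_204 (nat_lit 52104926) (nat_lit 0) (nat_lit 34582474) (nat_lit 0x6328cac00) (nat_lit 1090646762),
  Rx.mk (nat_lit 11) (nat_lit 3) (nat_lit 1) (nat_lit 0) (nat_lit 3) (nat_lit 28) (nat_lit 210) r8_28 r2_210 (nat_lit 0) (nat_lit 0) (nat_lit 24741287) (nat_lit 0x8017985b4) (nat_lit 561612199),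
  Rx.mk (nat_lit 27) (nat_lit 3) (nat_lit 3) (nat_lit 0) (nat_lit 3) (nat_lit 29) (nat_lit 211) r8_29 r2_211 (nat_lit 0) (nat_lit 0) (nat_lit 24741287) (nat_lit 0x7fd79296a) (nat_lit 565539099),
  Rx.mk (nat_lit 64) (nat_lit 0) (nat_lit 0) (nat_lit 1) (nat_lit 4) (nat_lit 30) (nat_lit 205) r8_30 r2_205 (nat_lit 36724435) (nat_lit 57149300) (nat_lit 0) (nat_lit 0x6701206b0) (nat_lit 1035651797),
  Rx.mk (nat_lit 67) (nat_lit 3) (nat_lit 0) (nat_lit 1) (nat_lit 5) (nat_lit 32) (nat_lit 212) r8_32 r2_212 (nat_lit 0) (nat_lit 24741287) (nat_lit 0) (nat_lit 0x8017985b4) (nat_lit 561612199),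
  Rx.mk (nat_lit 72) (nat_lit 0) (nat_lit 1) (nat_lit 1) (nat_lit 6) (nat_lit 31) (nat_lit 206) r8_31 r2_206 (nat_lit 25055876) (nat_lit 0) (nat_lit 0) (nat_lit 0x7fce11080) (nat_lit 566426188),
  Rx.mk (nat_lit 75) (nat_lit 3) (nat_lit 1) (nat_lit 1) (nat_lit 7) (nat_lit 33) (nat_lit 213) r8_33 r2_213 (nat_lit 0) (nat_lit 0) (nat_lit 0) (nat_lit 0x8017985b4) (nat_lit 536870912),
  Rx.mk (nat_lit 91) (nat_lit 3) (nat_lit 3) (nat_lit 1) (nat_lit 7) (nat_lit 34) (nat_lit 214) r8_34 r2_214 (nat_lit 0) (nat_lit 0) (nat_lit 0) (nat_lit 0x8017985b4) (nat_lit 536870912),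
  Rx.mk (nat_lit 128) (nat_lit 0) (nat_lit 0) (nat_lit 2) (nat_lit 4) (nat_lit 35) (nat_lit 207) r8_35 r2_207 (nat_lit 20092839) (nat_lit 26542101) (nat_lit 0) (nat_lit 0x6a8be4910) (nat_lit 931123202),
  Rx.mk (nat_lit 130) (nat_lit 2) (nat_lit 0) (nat_lit 2) (nat_lit 5) (nat_lit 37) (nat_lit 218) r8_37 r2_218 (nat_lit 0) (nat_lit 24741287) (nat_lit 0) (nat_lit 0x8017985b4) (nat_lit 561612199),
  Rx.mk (nat_lit 131) (nat_lit 3) (nat_lit 0) (nat_lit 2) (nat_lit 5) (nat_lit 40) (nat_lit 216) r8_40 r2_216 (nat_lit 0) (nat_lit 24741287) (nat_lit 0) (nat_lit 0x7ff611878) (nat_lit 563663549),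
  Rx.mk (nat_lit 136) (nat_lit 0) (nat_lit 1) (nat_lit 2) (nat_lit 6) (nat_lit 36) (nat_lit 208) r8_36 r2_208 (nat_lit 25669145) (nat_lit 0) (nat_lit 0) (nat_lit 0x80014139c) (nat_lit 563906157),
  Rx.mk (nat_lit 138) (nat_lit 2) (nat_lit 1) (nat_lit 2) (nat_lit 7) (nat_lit 38) (nat_lit 219) r8_38 r2_219 (nat_lit 0) (nat_lit 0) (nat_lit 0) (nat_lit 0x8017985b4) (nat_lit 536870912),
  Rx.mk (nat_lit 139) (nat_lit 3) (nat_lit 1) (nat_lit 2) (nat_lit 7) (nat_lit 41) (nat_lit 217) r8_41 r2_217 (nat_lit 0) (nat_lit 0) (nat_lit 0) (nat_lit 0x8017985b4) (nat_lit 536870912),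
  Rx.mk (nat_lit 146) (nat_lit 2) (nat_lit 2) (nat_lit 2) (nat_lit 7) (nat_lit 39) (nat_lit 220) r8_39 r2_220 (nat_lit 0) (nat_lit 0) (nat_lit 0) (nat_lit 0x8017985b4) (nat_lit 536870912),
  Rx.mk (nat_lit 219) (nat_lit 3) (nat_lit 3) (nat_lit 3) (nat_lit 7) (nat_lit 42) (nat_lit 215) r8_42 r2_215 (nat_lit 0) (nat_lit 0) (nat_lit 0) (nat_lit 0x8017985b4) (nat_lit 536870912)]
noncomputable def e27_47 : List Rx := [
  Rx.mk (nat_lit 72) (nat_lit 0) (nat_lit 1) (nat_lit 1) (nat_lit 6) (nat_lit 191) (nat_lit 323) r8_191 r8_323 (nat_lit 24741287) (nat_lit 0) (nat_lit 0) (nat_lit 0x8017985b4) (nat_lit 561612199),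
  Rx.mk (nat_lit 73) (nat_lit 1) (nat_lit 1) (nat_lit 1) (nat_lit 7) (nat_lit 192) (nat_lit 324) r8_192 r8_324 (nat_lit 0) (nat_lit 0) (nat_lit 0) (nat_lit 0x8017985b4) (nat_lit 536870912),
  Rx.mk (nat_lit 75) (nat_lit 3) (nat_lit 1) (nat_lit 1) (nat_lit 7) (nat_lit 193) (nat_lit 325) r8_193 r8_325 (nat_lit 0) (nat_lit 0) (nat_lit 0) (nat_lit 0x8017985b4) (nat_lit 536870912)]
noncomputable def e27_48 : List Rx := [
  Rx.mk (nat_lit 0) (nat_lit 0) (nat_lit 0) (nat_lit 0) (nat_lit 0) (nat_lit 159) (nat_lit 183) r8_159 r9_183 (nat_lit 23644808) (nat_lit 18255310) (nat_lit 27871597) (nat_lit 0x407f928e4) (nat_lit 1634185527),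
  Rx.mk (nat_lit 3) (nat_lit 3) (nat_lit 0) (nat_lit 0) (nat_lit 1) (nat_lit 162) (nat_lit 192) r8_162 r9_192 (nat_lit 0) (nat_lit 40482942) (nat_lit 28133172) (nat_lit 0x6d0747a06) (nat_lit 912998026),
  Rx.mk (nat_lit 8) (nat_lit 0) (nat_lit 1) (nat_lit 0) (nat_lit 2) (nat_lit 160) (nat_lit 184) r8_160 r9_184 (nat_lit 50716108) (nat_lit 0) (nat_lit 34699300) (nat_lit 0x6b512c18c) (nat_lit 957466070),
  Rx.mk (nat_lit 9) (nat_lit 1) (nat_lit 1) (nat_lit 0) (nat_lit 3) (nat_lit 161) (nat_lit 189) r8_161 r9_189 (nat_lit 0) (nat_lit 0) (nat_lit 25054288) (nat_lit 0x800856290) (nat_lit 562857500),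
  Rx.mk (nat_lit 11) (nat_lit 3) (nat_lit 1) (nat_lit 0) (nat_lit 3) (nat_lit 163) (nat_lit 193) r8_163 r9_193 (nat_lit 0) (nat_lit 0) (nat_lit 24741287) (nat_lit 0x8009d4ae0) (nat_lit 562452249),
  Rx.mk (nat_lit 27) (nat_lit 3) (nat_lit 3) (nat_lit 0) (nat_lit 3) (nat_lit 164) (nat_lit 194) r8_164 r9_194 (nat_lit 0) (nat_lit 0) (nat_lit 24741287) (nat_lit 0x8017985b4) (nat_lit 561612199),
  Rx.mk (nat_lit 64) (nat_lit 0) (nat_lit 0) (nat_lit 1) (nat_lit 4) (nat_lit 165) (nat_lit 185) r8_165 r9_185 (nat_lit 40805453) (nat_lit 130895702) (nat_lit 0) (nat_lit 0x7010e2518) (nat_lit 966967117),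
  Rx.mk (nat_lit 67) (nat_lit 3) (nat_lit 0) (nat_lit 1) (nat_lit 5) (nat_lit 168) (nat_lit 195) r8_168 r9_195 (nat_lit 0) (nat_lit 24741287) (nat_lit 0) (nat_lit 0x8017985b4) (nat_lit 561612199),
  Rx.mk (nat_lit 72) (nat_lit 0) (nat_lit 1) (nat_lit 1) (nat_lit 6) (nat_lit 166) (nat_lit 186) r8_166 r9_186 (nat_lit 23667545) (nat_lit 0) (nat_lit 0) (nat_lit 0x7fe4ef41e) (nat_lit 563630257),
  Rx.mk (nat_lit 73) (nat_lit 1) (nat_lit 1) (nat_lit 1) (nat_lit 7) (nat_lit 167) (nat_lit 190) r8_167 r9_190 (nat_lit 0) (nat_lit 0) (nat_lit 0) (nat_lit 0x8017985b4) (nat_lit 536870912),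
  Rx.mk (nat_lit 75) (nat_lit 3) (nat_lit 1) (nat_lit 1) (nat_lit 7) (nat_lit 169) (nat_lit 196) r8_169 r9_196 (nat_lit 0) (nat_lit 0) (nat_lit 0) (nat_lit 0x8017985b4) (nat_lit 536870912),
  Rx.mk (nat_lit 91) (nat_lit 3) (nat_lit 3) (nat_lit 1) (nat_lit 7) (nat_lit 170) (nat_lit 197) r8_170 r9_197 (nat_lit 0) (nat_lit 0) (nat_lit 0) (nat_lit 0x8017985b4) (nat_lit 536870912),
  Rx.mk (nat_lit 128) (nat_lit 0) (nat_lit 0) (nat_lit 2) (nat_lit 4) (nat_lit 171) (nat_lit 187) r8_171 r9_187 (nat_lit 30134438) (nat_lit 55618136) (nat_lit 0) (nat_lit 0x6f41c019a) (nat_lit 894101936),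
  Rx.mk (nat_lit 130) (nat_lit 2) (nat_lit 0) (nat_lit 2) (nat_lit 5) (nat_lit 174) (nat_lit 199) r8_174 r9_199 (nat_lit 0) (nat_lit 24741287) (nat_lit 0) (nat_lit 0x8017985b4) (nat_lit 561612199),
  Rx.mk (nat_lit 136) (nat_lit 0) (nat_lit 1) (nat_lit 2) (nat_lit 6) (nat_lit 172) (nat_lit 188) r8_172 r9_188 (nat_lit 24741287) (nat_lit 0) (nat_lit 0) (nat_lit 0x8017985b4) (nat_lit 561612199),
  Rx.mk (nat_lit 137) (nat_lit 1) (nat_lit 1) (nat_lit 2) (nat_lit 7) (nat_lit 173) (nat_lit 191) r8_173 r9_191 (nat_lit 0) (nat_lit 0) (nat_lit 0) (nat_lit 0x8017985b4) (nat_lit 536870912),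
  Rx.mk (nat_lit 138) (nat_lit 2) (nat_lit 1) (nat_lit 2) (nat_lit 7) (nat_lit 175) (nat_lit 200) r8_175 r9_200 (nat_lit 0) (nat_lit 0) (nat_lit 0) (nat_lit 0x8017985b4) (nat_lit 536870912),
  Rx.mk (nat_lit 146) (nat_lit 2) (nat_lit 2) (nat_lit 2) (nat_lit 7) (nat_lit 176) (nat_lit 201) r8_176 r9_201 (nat_lit 0) (nat_lit 0) (nat_lit 0) (nat_lit 0x8017985b4) (nat_lit 536870912),
  Rx.mk (nat_lit 219) (nat_lit 3) (nat_lit 3) (nat_lit 3) (nat_lit 7) (nat_lit 177) (nat_lit 198) r8_177 r9_198 (nat_lit 0) (nat_lit 0) (nat_lit 0) (nat_lit 0x8017985b4) (nat_lit 536870912)]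
noncomputable def e27_49 : List Rx := [
  Rx.mk (nat_lit 0) (nat_lit 0) (nat_lit 0) (nat_lit 0) (nat_lit 0) (nat_lit 133) (nat_lit 86) r8_133 r9_86 (nat_lit 94967087) (nat_lit 18637644) (nat_lit 17870946) (nat_lit 0x4127ec576) (nat_lit 1685261939),
  Rx.mk (nat_lit 3) (nat_lit 3) (nat_lit 0) (nat_lit 0) (nat_lit 1) (nat_lit 135) (nat_lit 88) r8_135 r9_88 (nat_lit 0) (nat_lit 29365924) (nat_lit 24700278) (nat_lit 0x6a57b692c) (nat_lit 941876114),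
  Rx.mk (nat_lit 8) (nat_lit 0) (nat_lit 1) (nat_lit 0) (nat_lit 2) (nat_lit 134) (nat_lit 87) r8_134 r9_87 (nat_lit 82173125) (nat_lit 0) (nat_lit 26394436) (nat_lit 0x6a21a438e) (nat_lit 999789173),
  Rx.mk (nat_lit 11) (nat_lit 3) (nat_lit 1) (nat_lit 0) (nat_lit 3) (nat_lit 136) (nat_lit 89) r8_136 r9_89 (nat_lit 0) (nat_lit 0) (nat_lit 24741287) (nat_lit 0x8017985b4) (nat_lit 561612199),
  Rx.mk (nat_lit 27) (nat_lit 3) (nat_lit 3) (nat_lit 0) (nat_lit 3) (nat_lit 137) (nat_lit 90) r8_137 r9_90 (nat_lit 0) (nat_lit 0) (nat_lit 24741287) (nat_lit 0x7fffb92e0) (nat_lit 563069249),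
  Rx.mk (nat_lit 128) (nat_lit 0) (nat_lit 0) (nat_lit 2) (nat_lit 4) (nat_lit 138) (nat_lit 92) r8_138 r9_92 (nat_lit 23390390) (nat_lit 35165148) (nat_lit 0) (nat_lit 0x65db9d3f8) (nat_lit 1018879500),
  Rx.mk (nat_lit 130) (nat_lit 2) (nat_lit 0) (nat_lit 2) (nat_lit 5) (nat_lit 140) (nat_lit 96) r8_140 r9_96 (nat_lit 0) (nat_lit 24741287) (nat_lit 0) (nat_lit 0x8017985b4) (nat_lit 561612199),
  Rx.mk (nat_lit 131) (nat_lit 3) (nat_lit 0) (nat_lit 2) (nat_lit 5) (nat_lit 143) (nat_lit 94) r8_143 r9_94 (nat_lit 0) (nat_lit 24489661) (nat_lit 0) (nat_lit 0x7ffa8f6de) (nat_lit 563135273),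
  Rx.mk (nat_lit 136) (nat_lit 0) (nat_lit 1) (nat_lit 2) (nat_lit 6) (nat_lit 139) (nat_lit 93) r8_139 r9_93 (nat_lit 24741287) (nat_lit 0) (nat_lit 0) (nat_lit 0x8017985b4) (nat_lit 561612199),
  Rx.mk (nat_lit 138) (nat_lit 2) (nat_lit 1) (nat_lit 2) (nat_lit 7) (nat_lit 141) (nat_lit 97) r8_141 r9_97 (nat_lit 0) (nat_lit 0) (nat_lit 0) (nat_lit 0x8017985b4) (nat_lit 536870912),
  Rx.mk (nat_lit 139) (nat_lit 3) (nat_lit 1) (nat_lit 2) (nat_lit 7) (nat_lit 144) (nat_lit 95) r8_144 r9_95 (nat_lit 0) (nat_lit 0) (nat_lit 0) (nat_lit 0x8017985b4) (nat_lit 536870912),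
  Rx.mk (nat_lit 146) (nat_lit 2) (nat_lit 2) (nat_lit 2) (nat_lit 7) (nat_lit 142) (nat_lit 98) r8_142 r9_98 (nat_lit 0) (nat_lit 0) (nat_lit 0) (nat_lit 0x8017985b4) (nat_lit 536870912),
  Rx.mk (nat_lit 219) (nat_lit 3) (nat_lit 3) (nat_lit 3) (nat_lit 7) (nat_lit 145) (nat_lit 91) r8_145 r9_91 (nat_lit 0) (nat_lit 0) (nat_lit 0) (nat_lit 0x8017985b4) (nat_lit 536870912)]
noncomputable def e27_50 : List Rx := [
  Rx.mk (nat_lit 104) (nat_lit 0) (nat_lit 5) (nat_lit 1) (nat_lit 6) (nat_lit 61) (nat_lit 171) r8_61 r3_171 (nat_lit 4361193) (nat_lit 0) (nat_lit 0) (nat_lit 0x73e0634a6) (nat_lit 737767955),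
  Rx.mk (nat_lit 107) (nat_lit 3) (nat_lit 5) (nat_lit 1) (nat_lit 7) (nat_lit 62) (nat_lit 172) r8_62 r3_172 (nat_lit 0) (nat_lit 0) (nat_lit 0) (nat_lit 0x851b92084) (nat_lit 459606612)]
noncomputable def e27_51 : List Rx := [
  Rx.mk (nat_lit 75) (nat_lit 3) (nat_lit 1) (nat_lit 1) (nat_lit 7) (nat_lit 70) (nat_lit 176) r8_70 r4_176 (nat_lit 0) (nat_lit 0) (nat_lit 0) (nat_lit 0x8017985b4) (nat_lit 536870912),
  Rx.mk (nat_lit 104) (nat_lit 0) (nat_lit 5) (nat_lit 1) (nat_lit 6) (nat_lit 68) (nat_lit 174) r8_68 r4_174 (nat_lit 19417164) (nat_lit 0) (nat_lit 0) (nat_lit 0x7fd35cbf2) (nat_lit 560445626),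
  Rx.mk (nat_lit 107) (nat_lit 3) (nat_lit 5) (nat_lit 1) (nat_lit 7) (nat_lit 69) (nat_lit 175) r8_69 r4_175 (nat_lit 0) (nat_lit 0) (nat_lit 0) (nat_lit 0x80539e52c) (nat_lit 533184912)]
noncomputable def e27_52 : List Rx := [
  Rx.mk (nat_lit 104) (nat_lit 0) (nat_lit 5) (nat_lit 1) (nat_lit 6) (nat_lit 74) (nat_lit 189) r8_74 r5_189 (nat_lit 17765140) (nat_lit 0) (nat_lit 0) (nat_lit 0x7ff74602c) (nat_lit 556578502),
  Rx.mk (nat_lit 107) (nat_lit 3) (nat_lit 5) (nat_lit 1) (nat_lit 7) (nat_lit 75) (nat_lit 190) r8_75 r5_190 (nat_lit 0) (nat_lit 0) (nat_lit 0) (nat_lit 0x80b32653a) (nat_lit 527341762)]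
noncomputable def e27_53 : List Rx := [
  Rx.mk (nat_lit 104) (nat_lit 0) (nat_lit 5) (nat_lit 1) (nat_lit 6) (nat_lit 181) (nat_lit 304) r8_181 r4_304 (nat_lit 24372871) (nat_lit 0) (nat_lit 0) (nat_lit 0x7fec7bb1a) (nat_lit 563885983),
  Rx.mk (nat_lit 105) (nat_lit 1) (nat_lit 5) (nat_lit 1) (nat_lit 7) (nat_lit 182) (nat_lit 305) r8_182 r4_305 (nat_lit 0) (nat_lit 0) (nat_lit 0) (nat_lit 0x8017985b4) (nat_lit 536870912),
  Rx.mk (nat_lit 107) (nat_lit 3) (nat_lit 5) (nat_lit 1) (nat_lit 7) (nat_lit 183) (nat_lit 306) r8_183 r4_306 (nat_lit 0) (nat_lit 0) (nat_lit 0) (nat_lit 0x8017985b4) (nat_lit 536870912)]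
noncomputable def e27_54 : List Rx := [
  Rx.mk (nat_lit 75) (nat_lit 3) (nat_lit 1) (nat_lit 1) (nat_lit 7) (nat_lit 197) (nat_lit 194) r8_197 r10_194 (nat_lit 0) (nat_lit 0) (nat_lit 0) (nat_lit 0x8017985b4) (nat_lit 536870912),
  Rx.mk (nat_lit 104) (nat_lit 0) (nat_lit 5) (nat_lit 1) (nat_lit 6) (nat_lit 194) (nat_lit 191) r8_194 r10_191 (nat_lit 24741287) (nat_lit 0) (nat_lit 0) (nat_lit 0x8017985b4) (nat_lit 561612199),
  Rx.mk (nat_lit 105) (nat_lit 1) (nat_lit 5) (nat_lit 1) (nat_lit 7) (nat_lit 195) (nat_lit 192) r8_195 r10_192 (nat_lit 0) (nat_lit 0) (nat_lit 0) (nat_lit 0x8017985b4) (nat_lit 536870912),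
  Rx.mk (nat_lit 107) (nat_lit 3) (nat_lit 5) (nat_lit 1) (nat_lit 7) (nat_lit 196) (nat_lit 193) r8_196 r10_193 (nat_lit 0) (nat_lit 0) (nat_lit 0) (nat_lit 0x8017985b4) (nat_lit 536870912)]
noncomputable def e27_55 : List Rx := [
  Rx.mk (nat_lit 104) (nat_lit 0) (nat_lit 5) (nat_lit 1) (nat_lit 6) (nat_lit 198) (nat_lit 219) r8_198 r11_219 (nat_lit 24741287) (nat_lit 0) (nat_lit 0) (nat_lit 0x8017985b4) (nat_lit 561612199),
  Rx.mk (nat_lit 105) (nat_lit 1) (nat_lit 5) (nat_lit 1) (nat_lit 7) (nat_lit 199) (nat_lit 220) r8_199 r11_220 (nat_lit 0) (nat_lit 0) (nat_lit 0) (nat_lit 0x8017985b4) (nat_lit 536870912),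
  Rx.mk (nat_lit 107) (nat_lit 3) (nat_lit 5) (nat_lit 1) (nat_lit 7) (nat_lit 200) (nat_lit 221) r8_200 r11_221 (nat_lit 0) (nat_lit 0) (nat_lit 0) (nat_lit 0x8017985b4) (nat_lit 536870912)]
noncomputable def e27_56 : List Rx := [
  Rx.mk (nat_lit 107) (nat_lit 3) (nat_lit 5) (nat_lit 1) (nat_lit 7) (nat_lit 218) (nat_lit 285) r8_218 r5_285 (nat_lit 0) (nat_lit 0) (nat_lit 0) (nat_lit 0x815927600) (nat_lit 517280412)]
noncomputable def e27_57 : List Rx := [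
  Rx.mk (nat_lit 75) (nat_lit 3) (nat_lit 1) (nat_lit 1) (nat_lit 7) (nat_lit 220) (nat_lit 343) r8_220 r11_343 (nat_lit 0) (nat_lit 0) (nat_lit 0) (nat_lit 0x8017985b4) (nat_lit 536870912),
  Rx.mk (nat_lit 107) (nat_lit 3) (nat_lit 5) (nat_lit 1) (nat_lit 7) (nat_lit 219) (nat_lit 344) r8_219 r11_344 (nat_lit 0) (nat_lit 0) (nat_lit 0) (nat_lit 0x8017985b4) (nat_lit 536870912)]
noncomputable def e27 : List (List Rx) := [e27_0, e27_1, e27_2, e27_3, e27_4, e27_5, e27_6, e27_7, e27_8, e27_9, e27_10, e27_11, e27_12, e27_13, e27_14, e27_15, e27_16, e27_17, e27_18, e27_19, e27_20, e27_21, e27_22, e27_23, e27_24, e27_25, e27_26, e27_27, e27_28, e27_29, e27_30, e27_31, e27_32, e27_33, e27_34, e27_35, e27_36, e27_37, e27_38, e27_39, e27_40, e27_41, e27_42, e27_43, e27_44, e27_45, e27_46, e27_47, e27_48, e27_49, e27_50, e27_51, e27_52, e27_53, e27_54, e27_55, e27_56,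 e27_57]
noncomputable def e28_0 : List Rx := [
  Rx.mk (nat_lit 100) (nat_lit 4) (nat_lit 4) (nat_lit 1) (nat_lit 4) (nat_lit 44) (nat_lit 195) r10_44 r0_195 (nat_lit 4364993) (nat_lit 2412373) (nat_lit 0) (nat_lit 0x599f905a6) (nat_lit 1164616828),
  Rx.mk (nat_lit 108) (nat_lit 4) (nat_lit 5) (nat_lit 1) (nat_lit 6) (nat_lit 45) (nat_lit 196) r10_45 r0_196 (nat_lit 12102424) (nat_lit 0) (nat_lit 0) (nat_lit 0x79db10b88) (nat_lit 649035436),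
  Rx.mk (nat_lit 116) (nat_lit 4) (nat_lit 6) (nat_lit 1) (nat_lit 6) (nat_lit 46) (nat_lit 197) r10_46 r0_197 (nat_lit 70189493) (nat_lit 0) (nat_lit 0) (nat_lit 0x7d33fb286) (nat_lit 652998905),
  Rx.mk (nat_lit 372) (nat_lit 4) (nat_lit 6) (nat_lit 5) (nat_lit 6) (nat_lit 47) (nat_lit 198) r10_47 r0_198 (nat_lit 45895857) (nat_lit 0) (nat_lit 0) (nat_lit 0x7fb6ad812) (nat_lit 588199269),
  Rx.mk (nat_lit 375) (nat_lit 7) (nat_lit 6) (nat_lit 5) (nat_lit 7) (nat_lit 48) (nat_lit 199) r10_48 r0_199 (nat_lit 0) (nat_lit 0) (nat_lit 0) (nat_lit 0x809c1612e) (nat_lit 528750462)]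
noncomputable def e28_1 : List Rx := [
  Rx.mk (nat_lit 372) (nat_lit 4) (nat_lit 6) (nat_lit 5) (nat_lit 6) (nat_lit 49) (nat_lit 217) r10_49 r1_217 (nat_lit 25153554) (nat_lit 0) (nat_lit 0) (nat_lit 0x80e8b8eaa) (nat_lit 549278466),
  Rx.mk (nat_lit 374) (nat_lit 6) (nat_lit 6) (nat_lit 5) (nat_lit 7) (nat_lit 50) (nat_lit 219) r10_50 r1_219 (nat_lit 0) (nat_lit 0) (nat_lit 0) (nat_lit 0x81b14ef04) (nat_lit 511970262),
  Rx.mk (nat_lit 375) (nat_lit 7) (nat_lit 6) (nat_lit 5) (nat_lit 7) (nat_lit 51) (nat_lit 218) r10_51 r1_218 (nat_lit 0) (nat_lit 0) (nat_lit 0) (nat_lit 0x8017985b4) (nat_lit 536870912)]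
noncomputable def e28_2 : List Rx := [
  Rx.mk (nat_lit 308) (nat_lit 4) (nat_lit 6) (nat_lit 4) (nat_lit 2) (nat_lit 10) (nat_lit 230) r10_10 r2_230 (nat_lit 10828370) (nat_lit 0) (nat_lit 13507056) (nat_lit 0x67d645c8c) (nat_lit 952582088),
  Rx.mk (nat_lit 310) (nat_lit 6) (nat_lit 6) (nat_lit 4) (nat_lit 3) (nat_lit 12) (nat_lit 235) r10_12 r2_235 (nat_lit 0) (nat_lit 0) (nat_lit 24741287) (nat_lit 0x8017985b4) (nat_lit 561612199),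
  Rx.mk (nat_lit 311) (nat_lit 7) (nat_lit 6) (nat_lit 4) (nat_lit 3) (nat_lit 14) (nat_lit 232) r10_14 r2_232 (nat_lit 0) (nat_lit 0) (nat_lit 26181532) (nat_lit 0x7fe1525fe) (nat_lit 566368444),
  Rx.mk (nat_lit 372) (nat_lit 4) (nat_lit 6) (nat_lit 5) (nat_lit 6) (nat_lit 11) (nat_lit 231) r10_11 r2_231 (nat_lit 24741287) (nat_lit 0) (nat_lit 0) (nat_lit 0x8017985b4) (nat_lit 561612199),
  Rx.mk (nat_lit 374) (nat_lit 6) (nat_lit 6) (nat_lit 5) (nat_lit 7) (nat_lit 13) (nat_lit 236) r10_13 r2_236 (nat_lit 0) (nat_lit 0) (nat_lit 0) (nat_lit 0x8017985b4) (nat_lit 536870912),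
  Rx.mk (nat_lit 375) (nat_lit 7) (nat_lit 6) (nat_lit 5) (nat_lit 7) (nat_lit 15) (nat_lit 233) r10_15 r2_233 (nat_lit 0) (nat_lit 0) (nat_lit 0) (nat_lit 0x8017985b4) (nat_lit 536870912),
  Rx.mk (nat_lit 503) (nat_lit 7) (nat_lit 6) (nat_lit 7) (nat_lit 7) (nat_lit 16) (nat_lit 234) r10_16 r2_234 (nat_lit 0) (nat_lit 0) (nat_lit 0) (nat_lit 0x8017985b4) (nat_lit 536870912)]
noncomputable def e28_3 : List Rx := [
  Rx.mk (nat_lit 100) (nat_lit 4) (nat_lit 4) (nat_lit 1) (nat_lit 4) (nat_lit 38) (nat_lit 180) r10_38 r3_180 (nat_lit 167695) (nat_lit 197362) (nat_lit 0) (nat_lit 0x640a65476) (nat_lit 989404669),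
  Rx.mk (nat_lit 103) (nat_lit 7) (nat_lit 4) (nat_lit 1) (nat_lit 5) (nat_lit 39) (nat_lit 183) r10_39 r3_183 (nat_lit 0) (nat_lit 1486174) (nat_lit 0) (nat_lit 0x82dc4fb94) (nat_lit 495172786),
  Rx.mk (nat_lit 108) (nat_lit 4) (nat_lit 5) (nat_lit 1) (nat_lit 6) (nat_lit 40) (nat_lit 181) r10_40 r3_181 (nat_lit 24741287) (nat_lit 0) (nat_lit 0) (nat_lit 0x8017985b4) (nat_lit 561612199),
  Rx.mk (nat_lit 111) (nat_lit 7) (nat_lit 5) (nat_lit 1) (nat_lit 7) (nat_lit 41) (nat_lit 184) r10_41 r3_184 (nat_lit 0) (nat_lit 0) (nat_lit 0) (nat_lit 0x8428b5dde) (nat_lit 474166012),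
  Rx.mk (nat_lit 116) (nat_lit 4) (nat_lit 6) (nat_lit 1) (nat_lit 6) (nat_lit 42) (nat_lit 182) r10_42 r3_182 (nat_lit 50053958) (nat_lit 0) (nat_lit 0) (nat_lit 0x7eff903aa) (nat_lit 604233320),
  Rx.mk (nat_lit 119) (nat_lit 7) (nat_lit 6) (nat_lit 1) (nat_lit 7) (nat_lit 43) (nat_lit 185) r10_43 r3_185 (nat_lit 0) (nat_lit 0) (nat_lit 0) (nat_lit 0x8428a6758) (nat_lit 474169612)]
noncomputable def e28_4 : List Rx := [
  Rx.mk (nat_lit 100) (nat_lit 4) (nat_lit 4) (nat_lit 1) (nat_lit 4) (nat_lit 52) (nat_lit 181) r10_52 r4_181 (nat_lit 12084870) (nat_lit 11415403) (nat_lit 0) (nat_lit 0x6331c3eb0) (nat_lit 1026799885),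
  Rx.mk (nat_lit 103) (nat_lit 7) (nat_lit 4) (nat_lit 1) (nat_lit 5) (nat_lit 53) (nat_lit 184) r10_53 r4_184 (nat_lit 0) (nat_lit 10881583) (nat_lit 0) (nat_lit 0x80aa66698) (nat_lit 538695745),
  Rx.mk (nat_lit 108) (nat_lit 4) (nat_lit 5) (nat_lit 1) (nat_lit 6) (nat_lit 54) (nat_lit 182) r10_54 r4_182 (nat_lit 21073453) (nat_lit 0) (nat_lit 0) (nat_lit 0x8042207e6) (nat_lit 555329265),
  Rx.mk (nat_lit 111) (nat_lit 7) (nat_lit 5) (nat_lit 1) (nat_lit 7) (nat_lit 55) (nat_lit 185) r10_55 r4_185 (nat_lit 0) (nat_lit 0) (nat_lit 0) (nat_lit 0x80a823854) (nat_lit 528019812),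
  Rx.mk (nat_lit 116) (nat_lit 4) (nat_lit 6) (nat_lit 1) (nat_lit 6) (nat_lit 56) (nat_lit 183) r10_56 r4_183 (nat_lit 23202415) (nat_lit 0) (nat_lit 0) (nat_lit 0x7faaa218a) (nat_lit 566751477),
  Rx.mk (nat_lit 119) (nat_lit 7) (nat_lit 6) (nat_lit 1) (nat_lit 7) (nat_lit 57) (nat_lit 186) r10_57 r4_186 (nat_lit 0) (nat_lit 0) (nat_lit 0) (nat_lit 0x80a823516) (nat_lit 528019862),
  Rx.mk (nat_lit 375) (nat_lit 7) (nat_lit 6) (nat_lit 5) (nat_lit 7) (nat_lit 58) (nat_lit 187) r10_58 r4_187 (nat_lit 0) (nat_lit 0) (nat_lit 0) (nat_lit 0x8017985b4) (nat_lit 536870912)]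
noncomputable def e28_5 : List Rx := [
  Rx.mk (nat_lit 100) (nat_lit 4) (nat_lit 4) (nat_lit 1) (nat_lit 4) (nat_lit 72) (nat_lit 197) r10_72 r5_197 (nat_lit 11835146) (nat_lit 4889214) (nat_lit 0) (nat_lit 0x6ab7fa806) (nat_lit 898281722),
  Rx.mk (nat_lit 103) (nat_lit 7) (nat_lit 4) (nat_lit 1) (nat_lit 5) (nat_lit 73) (nat_lit 199) r10_73 r5_199 (nat_lit 0) (nat_lit 5323301) (nat_lit 0) (nat_lit 0x821784ed6) (nat_lit 511046163),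
  Rx.mk (nat_lit 116) (nat_lit 4) (nat_lit 6) (nat_lit 1) (nat_lit 6) (nat_lit 74) (nat_lit 198) r10_74 r5_198 (nat_lit 24741287) (nat_lit 0) (nat_lit 0) (nat_lit 0x7fb2f649e) (nat_lit 567798249),
  Rx.mk (nat_lit 119) (nat_lit 7) (nat_lit 6) (nat_lit 1) (nat_lit 7) (nat_lit 75) (nat_lit 201) r10_75 r5_201 (nat_lit 0) (nat_lit 0) (nat_lit 0) (nat_lit 0x80ff5f960) (nat_lit 522714412),
  Rx.mk (nat_lit 127) (nat_lit 7) (nat_lit 7) (nat_lit 1) (nat_lit 7) (nat_lit 76) (nat_lit 200) r10_76 r5_200 (nat_lit 0) (nat_lit 0) (nat_lit 0) (nat_lit 0x8017985b4) (nat_lit 536870912)]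
noncomputable def e28_6 : List Rx := [
  Rx.mk (nat_lit 59) (nat_lit 3) (nat_lit 7) (nat_lit 0) (nat_lit 3) (nat_lit 19) (nat_lit 135) r10_19 r3_135 (nat_lit 0) (nat_lit 0) (nat_lit 427823) (nat_lit 0x86254ad0a) (nat_lit 443762085),
  Rx.mk (nat_lit 187) (nat_lit 3) (nat_lit 7) (nat_lit 2) (nat_lit 7) (nat_lit 20) (nat_lit 137) r10_20 r3_137 (nat_lit 0) (nat_lit 0) (nat_lit 0) (nat_lit 0x86cf556ec) (nat_lit 433675662),
  Rx.mk (nat_lit 231) (nat_lit 7) (nat_lit 4) (nat_lit 3) (nat_lit 5) (nat_lit 17) (nat_lit 133) r10_17 r3_133 (nat_lit 0) (nat_lit 427823) (nat_lit 0) (nat_lit 0x86254ad0a) (nat_lit 443762085),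
  Rx.mk (nat_lit 247) (nat_lit 7) (nat_lit 6) (nat_lit 3) (nat_lit 7) (nat_lit 18) (nat_lit 138) r10_18 r3_138 (nat_lit 0) (nat_lit 0) (nat_lit 0) (nat_lit 0x86cf556ec) (nat_lit 433675662),
  Rx.mk (nat_lit 251) (nat_lit 3) (nat_lit 7) (nat_lit 3) (nat_lit 7) (nat_lit 21) (nat_lit 136) r10_21 r3_136 (nat_lit 0) (nat_lit 0) (nat_lit 0) (nat_lit 0x809e38c5e) (nat_lit 528622162),
  Rx.mk (nat_lit 255) (nat_lit 7) (nat_lit 7) (nat_lit 3) (nat_lit 7) (nat_lit 22) (nat_lit 134) r10_22 r3_134 (nat_lit 0) (nat_lit 0) (nat_lit 0) (nat_lit 0x809e38c5e) (nat_lit 528622162)]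
noncomputable def e28_7 : List Rx := [
  Rx.mk (nat_lit 308) (nat_lit 4) (nat_lit 6) (nat_lit 4) (nat_lit 2) (nat_lit 0) (nat_lit 147) r10_0 r0_147 (nat_lit 5072318) (nat_lit 0) (nat_lit 2583088) (nat_lit 0x6af50b056) (nat_lit 885195018),
  Rx.mk (nat_lit 310) (nat_lit 6) (nat_lit 6) (nat_lit 4) (nat_lit 3) (nat_lit 2) (nat_lit 150) r10_2 r0_150 (nat_lit 0) (nat_lit 0) (nat_lit 21612680) (nat_lit 0x79ca6153a) (nat_lit 659669742),
  Rx.mk (nat_lit 500) (nat_lit 4) (nat_lit 6) (nat_lit 7) (nat_lit 6) (nat_lit 1) (nat_lit 148) r10_1 r0_148 (nat_lit 61676723) (nat_lit 0) (nat_lit 0) (nat_lit 0x7d6a0fc8c) (nat_lit 641243735),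
  Rx.mk (nat_lit 502) (nat_lit 6) (nat_lit 6) (nat_lit 7) (nat_lit 7) (nat_lit 3) (nat_lit 151) r10_3 r0_151 (nat_lit 0) (nat_lit 0) (nat_lit 0) (nat_lit 0x7fba6e0c8) (nat_lit 542601512),
  Rx.mk (nat_lit 503) (nat_lit 7) (nat_lit 6) (nat_lit 7) (nat_lit 7) (nat_lit 4) (nat_lit 149) r10_4 r0_149 (nat_lit 0) (nat_lit 0) (nat_lit 0) (nat_lit 0x7fef30450) (nat_lit 539335212)]
noncomputable def e28_8 : List Rx := [
  Rx.mk (nat_lit 308) (nat_lit 4) (nat_lit 6) (nat_lit 4) (nat_lit 2) (nat_lit 5) (nat_lit 161) r10_5 r1_161 (nat_lit 22829563) (nat_lit 0) (nat_lit 15183139) (nat_lit 0x6e1d4f8f2) (nat_lit 864770414),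
  Rx.mk (nat_lit 310) (nat_lit 6) (nat_lit 6) (nat_lit 4) (nat_lit 3) (nat_lit 7) (nat_lit 164) r10_7 r1_164 (nat_lit 0) (nat_lit 0) (nat_lit 9818448) (nat_lit 0x77a95bc0c) (nat_lit 682197510),
  Rx.mk (nat_lit 500) (nat_lit 4) (nat_lit 6) (nat_lit 7) (nat_lit 6) (nat_lit 6) (nat_lit 162) r10_6 r1_162 (nat_lit 24741287) (nat_lit 0) (nat_lit 0) (nat_lit 0x7fca1d474) (nat_lit 566365499),
  Rx.mk (nat_lit 502) (nat_lit 6) (nat_lit 6) (nat_lit 7) (nat_lit 7) (nat_lit 8) (nat_lit 165) r10_8 r1_165 (nat_lit 0) (nat_lit 0) (nat_lit 0) (nat_lit 0x804a4b9b6) (nat_lit 533752062),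
  Rx.mk (nat_lit 503) (nat_lit 7) (nat_lit 6) (nat_lit 7) (nat_lit 7) (nat_lit 9) (nat_lit 163) r10_9 r1_163 (nat_lit 0) (nat_lit 0) (nat_lit 0) (nat_lit 0x8017985b4) (nat_lit 536870912)]
noncomputable def e28_9 : List Rx := [
  Rx.mk (nat_lit 59) (nat_lit 3) (nat_lit 7) (nat_lit 0) (nat_lit 3) (nat_lit 28) (nat_lit 136) r10_28 r4_136 (nat_lit 0) (nat_lit 0) (nat_lit 12224820) (nat_lit 0x806946df2) (nat_lit 544040032),
  Rx.mk (nat_lit 187) (nat_lit 3) (nat_lit 7) (nat_lit 2) (nat_lit 7) (nat_lit 29) (nat_lit 138) r10_29 r4_138 (nat_lit 0) (nat_lit 0) (nat_lit 0) (nat_lit 0x804468c56) (nat_lit 534115312),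
  Rx.mk (nat_lit 231) (nat_lit 7) (nat_lit 4) (nat_lit 3) (nat_lit 5) (nat_lit 23) (nat_lit 134) r10_23 r4_134 (nat_lit 0) (nat_lit 19244630) (nat_lit 0) (nat_lit 0x801080380) (nat_lit 556512792),
  Rx.mk (nat_lit 247) (nat_lit 7) (nat_lit 6) (nat_lit 3) (nat_lit 7) (nat_lit 26) (nat_lit 141) r10_26 r4_141 (nat_lit 0) (nat_lit 0) (nat_lit 0) (nat_lit 0x8017985b4) (nat_lit 536870912),
  Rx.mk (nat_lit 251) (nat_lit 3) (nat_lit 7) (nat_lit 3) (nat_lit 7) (nat_lit 30) (nat_lit 137) r10_30 r4_137 (nat_lit 0) (nat_lit 0) (nat_lit 0) (nat_lit 0x8017985b4) (nat_lit 536870912),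
  Rx.mk (nat_lit 255) (nat_lit 7) (nat_lit 7) (nat_lit 3) (nat_lit 7) (nat_lit 31) (nat_lit 135) r10_31 r4_135 (nat_lit 0) (nat_lit 0) (nat_lit 0) (nat_lit 0x8017985b4) (nat_lit 536870912),
  Rx.mk (nat_lit 500) (nat_lit 4) (nat_lit 6) (nat_lit 7) (nat_lit 6) (nat_lit 24) (nat_lit 139) r10_24 r4_139 (nat_lit 24676068) (nat_lit 0) (nat_lit 0) (nat_lit 0x7e8afe690) (nat_lit 586102830),
  Rx.mk (nat_lit 502) (nat_lit 6) (nat_lit 6) (nat_lit 7) (nat_lit 7) (nat_lit 25) (nat_lit 142) r10_25 r4_142 (nat_lit 0) (nat_lit 0) (nat_lit 0) (nat_lit 0x8017985b4) (nat_lit 536870912),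
  Rx.mk (nat_lit 503) (nat_lit 7) (nat_lit 6) (nat_lit 7) (nat_lit 7) (nat_lit 27) (nat_lit 140) r10_27 r4_140 (nat_lit 0) (nat_lit 0) (nat_lit 0) (nat_lit 0x809f243f2) (nat_lit 528567662)]
noncomputable def e28_10 : List Rx := [
  Rx.mk (nat_lit 39) (nat_lit 7) (nat_lit 4) (nat_lit 0) (nat_lit 1) (nat_lit 59) (nat_lit 213) r10_59 r6_213 (nat_lit 0) (nat_lit 3908311) (nat_lit 3437710) (nat_lit 0x70b62ad72) (nat_lit 791927083),
  Rx.mk (nat_lit 47) (nat_lit 7) (nat_lit 5) (nat_lit 0) (nat_lit 3) (nat_lit 62) (nat_lit 216) r10_62 r6_216 (nat_lit 0) (nat_lit 0) (nat_lit 14773968) (nat_lit 0x80be7a56c) (nat_lit 541432730),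
  Rx.mk (nat_lit 55) (nat_lit 7) (nat_lit 6) (nat_lit 0) (nat_lit 3) (nat_lit 64) (nat_lit 220) r10_64 r6_220 (nat_lit 0) (nat_lit 0) (nat_lit 14995754) (nat_lit 0x80820fd34) (nat_lit 545312416),
  Rx.mk (nat_lit 59) (nat_lit 3) (nat_lit 7) (nat_lit 0) (nat_lit 3) (nat_lit 67) (nat_lit 210) r10_67 r6_210 (nat_lit 0) (nat_lit 0) (nat_lit 9336562) (nat_lit 0x80cea0392) (nat_lit 534941174),
  Rx.mk (nat_lit 63) (nat_lit 7) (nat_lit 7) (nat_lit 0) (nat_lit 3) (nat_lit 70) (nat_lit 218) r10_70 r6_218 (nat_lit 0) (nat_lit 0) (nat_lit 24741287) (nat_lit 0x7f68b2360) (nat_lit 572388699),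
  Rx.mk (nat_lit 103) (nat_lit 7) (nat_lit 4) (nat_lit 1) (nat_lit 5) (nat_lit 60) (nat_lit 214) r10_60 r6_214 (nat_lit 0) (nat_lit 18189542) (nat_lit 0) (nat_lit 0x807407840) (nat_lit 549393204),
  Rx.mk (nat_lit 119) (nat_lit 7) (nat_lit 6) (nat_lit 1) (nat_lit 7) (nat_lit 65) (nat_lit 221) r10_65 r6_221 (nat_lit 0) (nat_lit 0) (nat_lit 0) (nat_lit 0x8017985b4) (nat_lit 536870912),
  Rx.mk (nat_lit 123) (nat_lit 3) (nat_lit 7) (nat_lit 1) (nat_lit 7) (nat_lit 68) (nat_lit 211) r10_68 r6_211 (nat_lit 0) (nat_lit 0) (nat_lit 0) (nat_lit 0x80d032dc2) (nat_lit 525585862),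
  Rx.mk (nat_lit 127) (nat_lit 7) (nat_lit 7) (nat_lit 1) (nat_lit 7) (nat_lit 71) (nat_lit 219) r10_71 r6_219 (nat_lit 0) (nat_lit 0) (nat_lit 0) (nat_lit 0x8017985b4) (nat_lit 536870912),
  Rx.mk (nat_lit 187) (nat_lit 3) (nat_lit 7) (nat_lit 2) (nat_lit 7) (nat_lit 69) (nat_lit 212) r10_69 r6_212 (nat_lit 0) (nat_lit 0) (nat_lit 0) (nat_lit 0x80d033132) (nat_lit 525585812),
  Rx.mk (nat_lit 231) (nat_lit 7) (nat_lit 4) (nat_lit 3) (nat_lit 5) (nat_lit 61) (nat_lit 215) r10_61 r6_215 (nat_lit 0) (nat_lit 8452867) (nat_lit 0) (nat_lit 0x80ffe1c3a) (nat_lit 531055429),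
  Rx.mk (nat_lit 239) (nat_lit 7) (nat_lit 5) (nat_lit 3) (nat_lit 7) (nat_lit 63) (nat_lit 217) r10_63 r6_217 (nat_lit 0) (nat_lit 0) (nat_lit 0) (nat_lit 0x80d199d14) (nat_lit 525495962),
  Rx.mk (nat_lit 247) (nat_lit 7) (nat_lit 6) (nat_lit 3) (nat_lit 7) (nat_lit 66) (nat_lit 222) r10_66 r6_222 (nat_lit 0) (nat_lit 0) (nat_lit 0) (nat_lit 0x80d1999d6) (nat_lit 525496012)]
noncomputable def e28_11 : List Rx := [
  Rx.mk (nat_lit 59) (nat_lit 3) (nat_lit 7) (nat_lit 0) (nat_lit 3) (nat_lit 34) (nat_lit 137) r10_34 r5_137 (nat_lit 0) (nat_lit 0) (nat_lit 5865404) (nat_lit 0x7ef7589d0) (nat_lit 560306366),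
  Rx.mk (nat_lit 63) (nat_lit 7) (nat_lit 7) (nat_lit 0) (nat_lit 3) (nat_lit 36) (nat_lit 135) r10_36 r5_135 (nat_lit 0) (nat_lit 0) (nat_lit 16735369) (nat_lit 0x79b416a78) (nat_lit 656180481),
  Rx.mk (nat_lit 187) (nat_lit 3) (nat_lit 7) (nat_lit 2) (nat_lit 7) (nat_lit 35) (nat_lit 138) r10_35 r5_138 (nat_lit 0) (nat_lit 0) (nat_lit 0) (nat_lit 0x815de8a72) (nat_lit 517001212),
  Rx.mk (nat_lit 231) (nat_lit 7) (nat_lit 4) (nat_lit 3) (nat_lit 5) (nat_lit 32) (nat_lit 134) r10_32 r5_134 (nat_lit 0) (nat_lit 6614420) (nat_lit 0) (nat_lit 0x81f9ff474) (nat_lit 514154582),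
  Rx.mk (nat_lit 247) (nat_lit 7) (nat_lit 6) (nat_lit 3) (nat_lit 7) (nat_lit 33) (nat_lit 139) r10_33 r5_139 (nat_lit 0) (nat_lit 0) (nat_lit 0) (nat_lit 0x80c39fc54) (nat_lit 526340012),
  Rx.mk (nat_lit 255) (nat_lit 7) (nat_lit 7) (nat_lit 3) (nat_lit 7) (nat_lit 37) (nat_lit 136) r10_37 r5_136 (nat_lit 0) (nat_lit 0) (nat_lit 0) (nat_lit 0x8017985b4) (nat_lit 536870912)]
noncomputable def e28_12 : List Rx := [
  Rx.mk (nat_lit 100) (nat_lit 4) (nat_lit 4) (nat_lit 1) (nat_lit 4) (nat_lit 166) (nat_lit 322) r10_166 r0_322 (nat_lit 14038217) (nat_lit 17034488) (nat_lit 0) (nat_lit 0x6f6e3009a) (nat_lit 836450667),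
  Rx.mk (nat_lit 101) (nat_lit 5) (nat_lit 4) (nat_lit 1) (nat_lit 5) (nat_lit 167) (nat_lit 323) r10_167 r0_323 (nat_lit 0) (nat_lit 24741287) (nat_lit 0) (nat_lit 0x8017985b4) (nat_lit 561612199),
  Rx.mk (nat_lit 108) (nat_lit 4) (nat_lit 5) (nat_lit 1) (nat_lit 6) (nat_lit 168) (nat_lit 324) r10_168 r0_324 (nat_lit 24924827) (nat_lit 0) (nat_lit 0) (nat_lit 0x7fc09e13c) (nat_lit 567146289),
  Rx.mk (nat_lit 109) (nat_lit 5) (nat_lit 5) (nat_lit 1) (nat_lit 7) (nat_lit 169) (nat_lit 325) r10_169 r0_325 (nat_lit 0) (nat_lit 0) (nat_lit 0) (nat_lit 0x8017985b4) (nat_lit 536870912),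
  Rx.mk (nat_lit 116) (nat_lit 4) (nat_lit 6) (nat_lit 1) (nat_lit 6) (nat_lit 170) (nat_lit 326) r10_170 r0_326 (nat_lit 25781778) (nat_lit 0) (nat_lit 0) (nat_lit 0x7e4c3ec0c) (nat_lit 591158440),
  Rx.mk (nat_lit 117) (nat_lit 5) (nat_lit 6) (nat_lit 1) (nat_lit 7) (nat_lit 171) (nat_lit 327) r10_171 r0_327 (nat_lit 0) (nat_lit 0) (nat_lit 0) (nat_lit 0x7ffa5b708) (nat_lit 538653612)]
noncomputable def e28_13 : List Rx := [
  Rx.mk (nat_lit 100) (nat_lit 4) (nat_lit 4) (nat_lit 1) (nat_lit 4) (nat_lit 183) (nat_lit 255) r10_183 r7_255 (nat_lit 28712906) (nat_lit 23931749) (nat_lit 0) (nat_lit 0x6a7e66ee6) (nat_lit 937964567),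
  Rx.mk (nat_lit 101) (nat_lit 5) (nat_lit 4) (nat_lit 1) (nat_lit 5) (nat_lit 184) (nat_lit 259) r10_184 r7_259 (nat_lit 0) (nat_lit 26205094) (nat_lit 0) (nat_lit 0x7ff5adb5c) (nat_lit 565151456),
  Rx.mk (nat_lit 108) (nat_lit 4) (nat_lit 5) (nat_lit 1) (nat_lit 6) (nat_lit 185) (nat_lit 256) r10_185 r7_256 (nat_lit 24741287) (nat_lit 0) (nat_lit 0) (nat_lit 0x8017985b4) (nat_lit 561612199),
  Rx.mk (nat_lit 109) (nat_lit 5) (nat_lit 5) (nat_lit 1) (nat_lit 7) (nat_lit 186) (nat_lit 260) r10_186 r7_260 (nat_lit 0) (nat_lit 0) (nat_lit 0) (nat_lit 0x8017985b4) (nat_lit 536870912),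
  Rx.mk (nat_lit 116) (nat_lit 4) (nat_lit 6) (nat_lit 1) (nat_lit 6) (nat_lit 187) (nat_lit 257) r10_187 r7_257 (nat_lit 25691165) (nat_lit 0) (nat_lit 0) (nat_lit 0x800112efc) (nat_lit 563939677),
  Rx.mk (nat_lit 117) (nat_lit 5) (nat_lit 6) (nat_lit 1) (nat_lit 7) (nat_lit 189) (nat_lit 261) r10_189 r7_261 (nat_lit 0) (nat_lit 0) (nat_lit 0) (nat_lit 0x8017985b4) (nat_lit 536870912),
  Rx.mk (nat_lit 372) (nat_lit 4) (nat_lit 6) (nat_lit 5) (nat_lit 6) (nat_lit 188) (nat_lit 258) r10_188 r7_258 (nat_lit 25393500) (nat_lit 0) (nat_lit 0) (nat_lit 0x7ffadf27e) (nat_lit 564019262),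
  Rx.mk (nat_lit 373) (nat_lit 5) (nat_lit 6) (nat_lit 5) (nat_lit 7) (nat_lit 190) (nat_lit 262) r10_190 r7_262 (nat_lit 0) (nat_lit 0) (nat_lit 0) (nat_lit 0x8017985b4) (nat_lit 536870912)]
noncomputable def e28_14 : List Rx := [
  Rx.mk (nat_lit 101) (nat_lit 5) (nat_lit 4) (nat_lit 1) (nat_lit 5) (nat_lit 172) (nat_lit 307) r10_172 r1_307 (nat_lit 0) (nat_lit 24741287) (nat_lit 0) (nat_lit 0x8017985b4) (nat_lit 561612199),
  Rx.mk (nat_lit 109) (nat_lit 5) (nat_lit 5) (nat_lit 1) (nat_lit 7) (nat_lit 173) (nat_lit 308) r10_173 r1_308 (nat_lit 0) (nat_lit 0) (nat_lit 0) (nat_lit 0x8017985b4) (nat_lit 536870912),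
  Rx.mk (nat_lit 117) (nat_lit 5) (nat_lit 6) (nat_lit 1) (nat_lit 7) (nat_lit 174) (nat_lit 309) r10_174 r1_309 (nat_lit 0) (nat_lit 0) (nat_lit 0) (nat_lit 0x8017985b4) (nat_lit 536870912)]
noncomputable def e28_15 : List Rx := [
  Rx.mk (nat_lit 101) (nat_lit 5) (nat_lit 4) (nat_lit 1) (nat_lit 5) (nat_lit 191) (nat_lit 194) r10_191 r8_194 (nat_lit 0) (nat_lit 24741287) (nat_lit 0) (nat_lit 0x8017985b4) (nat_lit 561612199),
  Rx.mk (nat_lit 109) (nat_lit 5) (nat_lit 5) (nat_lit 1) (nat_lit 7) (nat_lit 192) (nat_lit 195) r10_192 r8_195 (nat_lit 0) (nat_lit 0) (nat_lit 0) (nat_lit 0x8017985b4) (nat_lit 536870912),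
  Rx.mk (nat_lit 117) (nat_lit 5) (nat_lit 6) (nat_lit 1) (nat_lit 7) (nat_lit 193) (nat_lit 196) r10_193 r8_196 (nat_lit 0) (nat_lit 0) (nat_lit 0) (nat_lit 0x8017985b4) (nat_lit 536870912),
  Rx.mk (nat_lit 373) (nat_lit 5) (nat_lit 6) (nat_lit 5) (nat_lit 7) (nat_lit 194) (nat_lit 197) r10_194 r8_197 (nat_lit 0) (nat_lit 0) (nat_lit 0) (nat_lit 0x8017985b4) (nat_lit 536870912)]
noncomputable def e28_16 : List Rx := [
  Rx.mk (nat_lit 372) (nat_lit 4) (nat_lit 6) (nat_lit 5) (nat_lit 6) (nat_lit 195) (nat_lit 355) r10_195 r8_355 (nat_lit 24634759) (nat_lit 0) (nat_lit 0) (nat_lit 0x800b33de6) (nat_lit 562264771),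
  Rx.mk (nat_lit 373) (nat_lit 5) (nat_lit 6) (nat_lit 5) (nat_lit 7) (nat_lit 196) (nat_lit 356) r10_196 r8_356 (nat_lit 0) (nat_lit 0) (nat_lit 0) (nat_lit 0x8017985b4) (nat_lit 536870912),
  Rx.mk (nat_lit 374) (nat_lit 6) (nat_lit 6) (nat_lit 5) (nat_lit 7) (nat_lit 197) (nat_lit 357) r10_197 r8_357 (nat_lit 0) (nat_lit 0) (nat_lit 0) (nat_lit 0x8017985b4) (nat_lit 536870912)]
noncomputable def e28_17 : List Rx := [
  Rx.mk (nat_lit 308) (nat_lit 4) (nat_lit 6) (nat_lit 4) (nat_lit 2) (nat_lit 161) (nat_lit 209) r10_161 r9_209 (nat_lit 34942940) (nat_lit 0) (nat_lit 65106199) (nat_lit 0x66b1feea6) (nat_lit 1046829251),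
  Rx.mk (nat_lit 310) (nat_lit 6) (nat_lit 6) (nat_lit 4) (nat_lit 3) (nat_lit 164) (nat_lit 212) r10_164 r9_212 (nat_lit 0) (nat_lit 0) (nat_lit 24741287) (nat_lit 0x8017985b4) (nat_lit 561612199),
  Rx.mk (nat_lit 372) (nat_lit 4) (nat_lit 6) (nat_lit 5) (nat_lit 6) (nat_lit 162) (nat_lit 210) r10_162 r9_210 (nat_lit 25290688) (nat_lit 0) (nat_lit 0) (nat_lit 0x800987e2a) (nat_lit 563020650),
  Rx.mk (nat_lit 373) (nat_lit 5) (nat_lit 6) (nat_lit 5) (nat_lit 7) (nat_lit 163) (nat_lit 211) r10_163 r9_211 (nat_lit 0) (nat_lit 0) (nat_lit 0) (nat_lit 0x8017985b4) (nat_lit 536870912),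
  Rx.mk (nat_lit 374) (nat_lit 6) (nat_lit 6) (nat_lit 5) (nat_lit 7) (nat_lit 165) (nat_lit 213) r10_165 r9_213 (nat_lit 0) (nat_lit 0) (nat_lit 0) (nat_lit 0x8017985b4) (nat_lit 536870912)]
noncomputable def e28_18 : List Rx := [
  Rx.mk (nat_lit 100) (nat_lit 4) (nat_lit 4) (nat_lit 1) (nat_lit 4) (nat_lit 175) (nat_lit 355) r10_175 r4_355 (nat_lit 46258346) (nat_lit 35822015) (nat_lit 0) (nat_lit 0x73116d7f0) (nat_lit 828766423),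
  Rx.mk (nat_lit 101) (nat_lit 5) (nat_lit 4) (nat_lit 1) (nat_lit 5) (nat_lit 176) (nat_lit 356) r10_176 r4_356 (nat_lit 0) (nat_lit 24741287) (nat_lit 0) (nat_lit 0x801405032) (nat_lit 561834699),
  Rx.mk (nat_lit 103) (nat_lit 7) (nat_lit 4) (nat_lit 1) (nat_lit 5) (nat_lit 177) (nat_lit 357) r10_177 r4_357 (nat_lit 0) (nat_lit 25246541) (nat_lit 0) (nat_lit 0x7fe66bc2a) (nat_lit 565123853),
  Rx.mk (nat_lit 108) (nat_lit 4) (nat_lit 5) (nat_lit 1) (nat_lit 6) (nat_lit 178) (nat_lit 358) r10_178 r4_358 (nat_lit 24741287) (nat_lit 0) (nat_lit 0) (nat_lit 0x8017985b4) (nat_lit 561612199),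
  Rx.mk (nat_lit 109) (nat_lit 5) (nat_lit 5) (nat_lit 1) (nat_lit 7) (nat_lit 179) (nat_lit 359) r10_179 r4_359 (nat_lit 0) (nat_lit 0) (nat_lit 0) (nat_lit 0x8017985b4) (nat_lit 536870912),
  Rx.mk (nat_lit 111) (nat_lit 7) (nat_lit 5) (nat_lit 1) (nat_lit 7) (nat_lit 180) (nat_lit 360) r10_180 r4_360 (nat_lit 0) (nat_lit 0) (nat_lit 0) (nat_lit 0x8017985b4) (nat_lit 536870912),
  Rx.mk (nat_lit 116) (nat_lit 4) (nat_lit 6) (nat_lit 1) (nat_lit 6) (nat_lit 181) (nat_lit 361) r10_181 r4_361 (nat_lit 28199854) (nat_lit 0) (nat_lit 0) (nat_lit 0x800201570) (nat_lit 566376116),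
  Rx.mk (nat_lit 117) (nat_lit 5) (nat_lit 6) (nat_lit 1) (nat_lit 7) (nat_lit 182) (nat_lit 362) r10_182 r4_362 (nat_lit 0) (nat_lit 0) (nat_lit 0) (nat_lit 0x8017985b4) (nat_lit 536870912)]
noncomputable def e28_19 : List Rx := [
  Rx.mk (nat_lit 100) (nat_lit 4) (nat_lit 4) (nat_lit 1) (nat_lit 4) (nat_lit 198) (nat_lit 198) r10_198 r10_198 (nat_lit 16509364) (nat_lit 16509364) (nat_lit 0) (nat_lit 0x6644d8d22) (nat_lit 986668290),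
  Rx.mk (nat_lit 101) (nat_lit 5) (nat_lit 4) (nat_lit 1) (nat_lit 5) (nat_lit 199) (nat_lit 201) r10_199 r10_201 (nat_lit 0) (nat_lit 24741287) (nat_lit 0) (nat_lit 0x8017985b4) (nat_lit 561612199),
  Rx.mk (nat_lit 103) (nat_lit 7) (nat_lit 4) (nat_lit 1) (nat_lit 5) (nat_lit 200) (nat_lit 204) r10_200 r10_204 (nat_lit 0) (nat_lit 24741287) (nat_lit 0) (nat_lit 0x8017985b4) (nat_lit 561612199),
  Rx.mk (nat_lit 108) (nat_lit 4) (nat_lit 5) (nat_lit 1) (nat_lit 6) (nat_lit 201) (nat_lit 199) r10_201 r10_199 (nat_lit 24741287) (nat_lit 0) (nat_lit 0) (nat_lit 0x8017985b4) (nat_lit 561612199),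
  Rx.mk (nat_lit 109) (nat_lit 5) (nat_lit 5) (nat_lit 1) (nat_lit 7) (nat_lit 202) (nat_lit 202) r10_202 r10_202 (nat_lit 0) (nat_lit 0) (nat_lit 0) (nat_lit 0x8017985b4) (nat_lit 536870912),
  Rx.mk (nat_lit 111) (nat_lit 7) (nat_lit 5) (nat_lit 1) (nat_lit 7) (nat_lit 203) (nat_lit 205) r10_203 r10_205 (nat_lit 0) (nat_lit 0) (nat_lit 0) (nat_lit 0x8017985b4) (nat_lit 536870912),
  Rx.mk (nat_lit 116) (nat_lit 4) (nat_lit 6) (nat_lit 1) (nat_lit 6) (nat_lit 204) (nat_lit 200) r10_204 r10_200 (nat_lit 24741287) (nat_lit 0) (nat_lit 0) (nat_lit 0x8017985b4) (nat_lit 561612199),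
  Rx.mk (nat_lit 117) (nat_lit 5) (nat_lit 6) (nat_lit 1) (nat_lit 7) (nat_lit 205) (nat_lit 203) r10_205 r10_203 (nat_lit 0) (nat_lit 0) (nat_lit 0) (nat_lit 0x8017985b4) (nat_lit 536870912)]
noncomputable def e28_20 : List Rx := [
  Rx.mk (nat_lit 100) (nat_lit 4) (nat_lit 4) (nat_lit 1) (nat_lit 4) (nat_lit 206) (nat_lit 230) r10_206 r11_230 (nat_lit 53187078) (nat_lit 29967916) (nat_lit 0) (nat_lit 0x781c132b8) (nat_lit 748379156),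
  Rx.mk (nat_lit 101) (nat_lit 5) (nat_lit 4) (nat_lit 1) (nat_lit 5) (nat_lit 207) (nat_lit 232) r10_207 r11_232 (nat_lit 0) (nat_lit 24741287) (nat_lit 0) (nat_lit 0x8017985b4) (nat_lit 561612199),
  Rx.mk (nat_lit 103) (nat_lit 7) (nat_lit 4) (nat_lit 1) (nat_lit 5) (nat_lit 208) (nat_lit 234) r10_208 r11_234 (nat_lit 0) (nat_lit 24741287) (nat_lit 0) (nat_lit 0x8017985b4) (nat_lit 561612199),
  Rx.mk (nat_lit 116) (nat_lit 4) (nat_lit 6) (nat_lit 1) (nat_lit 6) (nat_lit 209) (nat_lit 231) r10_209 r11_231 (nat_lit 24741287) (nat_lit 0) (nat_lit 0) (nat_lit 0x8017985b4) (nat_lit 561612199),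
  Rx.mk (nat_lit 117) (nat_lit 5) (nat_lit 6) (nat_lit 1) (nat_lit 7) (nat_lit 210) (nat_lit 233) r10_210 r11_233 (nat_lit 0) (nat_lit 0) (nat_lit 0) (nat_lit 0x8017985b4) (nat_lit 536870912),
  Rx.mk (nat_lit 127) (nat_lit 7) (nat_lit 7) (nat_lit 1) (nat_lit 7) (nat_lit 211) (nat_lit 235) r10_211 r11_235 (nat_lit 0) (nat_lit 0) (nat_lit 0) (nat_lit 0x8017985b4) (nat_lit 536870912)]
noncomputable def e28_21 : List Rx := [
  Rx.mk (nat_lit 278) (nat_lit 6) (nat_lit 2) (nat_lit 4) (nat_lit 3) (nat_lit 117) (nat_lit 143) r10_117 r9_143 (nat_lit 0) (nat_lit 0) (nat_lit 24741287) (nat_lit 0x7fffebc7c) (nat_lit 563058399),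
  Rx.mk (nat_lit 308) (nat_lit 4) (nat_lit 6) (nat_lit 4) (nat_lit 2) (nat_lit 120) (nat_lit 136) r10_120 r9_136 (nat_lit 28731315) (nat_lit 0) (nat_lit 40997444) (nat_lit 0x62fe769f4) (nat_lit 1076357921),
  Rx.mk (nat_lit 310) (nat_lit 6) (nat_lit 6) (nat_lit 4) (nat_lit 3) (nat_lit 122) (nat_lit 141) r10_122 r9_141 (nat_lit 0) (nat_lit 0) (nat_lit 24741287) (nat_lit 0x7fcd6a76c) (nat_lit 566141199),
  Rx.mk (nat_lit 311) (nat_lit 7) (nat_lit 6) (nat_lit 4) (nat_lit 3) (nat_lit 124) (nat_lit 138) r10_124 r9_138 (nat_lit 0) (nat_lit 0) (nat_lit 25252468) (nat_lit 0x7fd0be0b2) (nat_lit 566460430),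
  Rx.mk (nat_lit 342) (nat_lit 6) (nat_lit 2) (nat_lit 5) (nat_lit 7) (nat_lit 118) (nat_lit 144) r10_118 r9_144 (nat_lit 0) (nat_lit 0) (nat_lit 0) (nat_lit 0x8017985b4) (nat_lit 536870912),
  Rx.mk (nat_lit 372) (nat_lit 4) (nat_lit 6) (nat_lit 5) (nat_lit 6) (nat_lit 121) (nat_lit 137) r10_121 r9_137 (nat_lit 24741287) (nat_lit 0) (nat_lit 0) (nat_lit 0x8017985b4) (nat_lit 561612199),
  Rx.mk (nat_lit 374) (nat_lit 6) (nat_lit 6) (nat_lit 5) (nat_lit 7) (nat_lit 123) (nat_lit 142) r10_123 r9_142 (nat_lit 0) (nat_lit 0) (nat_lit 0) (nat_lit 0x8017985b4) (nat_lit 536870912),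
  Rx.mk (nat_lit 375) (nat_lit 7) (nat_lit 6) (nat_lit 5) (nat_lit 7) (nat_lit 125) (nat_lit 139) r10_125 r9_139 (nat_lit 0) (nat_lit 0) (nat_lit 0) (nat_lit 0x8017985b4) (nat_lit 536870912),
  Rx.mk (nat_lit 406) (nat_lit 6) (nat_lit 2) (nat_lit 6) (nat_lit 7) (nat_lit 119) (nat_lit 145) r10_119 r9_145 (nat_lit 0) (nat_lit 0) (nat_lit 0) (nat_lit 0x8017985b4) (nat_lit 536870912),
  Rx.mk (nat_lit 503) (nat_lit 7) (nat_lit 6) (nat_lit 7) (nat_lit 7) (nat_lit 126) (nat_lit 140) r10_126 r9_140 (nat_lit 0) (nat_lit 0) (nat_lit 0) (nat_lit 0x8017985b4) (nat_lit 536870912)]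
noncomputable def e28_22 : List Rx := [
  Rx.mk (nat_lit 128) (nat_lit 0) (nat_lit 0) (nat_lit 2) (nat_lit 4) (nat_lit 77) (nat_lit 147) r10_77 r0_147 (nat_lit 5072318) (nat_lit 2583088) (nat_lit 0) (nat_lit 0x6af50b056) (nat_lit 885195018),
  Rx.mk (nat_lit 130) (nat_lit 2) (nat_lit 0) (nat_lit 2) (nat_lit 5) (nat_lit 78) (nat_lit 150) r10_78 r0_150 (nat_lit 0) (nat_lit 21612680) (nat_lit 0) (nat_lit 0x79ca6153a) (nat_lit 659669742),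
  Rx.mk (nat_lit 152) (nat_lit 0) (nat_lit 3) (nat_lit 2) (nat_lit 6) (nat_lit 79) (nat_lit 148) r10_79 r0_148 (nat_lit 61676723) (nat_lit 0) (nat_lit 0) (nat_lit 0x7d6a0fc8c) (nat_lit 641243735),
  Rx.mk (nat_lit 154) (nat_lit 2) (nat_lit 3) (nat_lit 2) (nat_lit 7) (nat_lit 80) (nat_lit 151) r10_80 r0_151 (nat_lit 0) (nat_lit 0) (nat_lit 0) (nat_lit 0x7fba6e0c8) (nat_lit 542601512),
  Rx.mk (nat_lit 155) (nat_lit 3) (nat_lit 3) (nat_lit 2) (nat_lit 7) (nat_lit 81) (nat_lit 149) r10_81 r0_149 (nat_lit 0) (nat_lit 0) (nat_lit 0) (nat_lit 0x7fef30450) (nat_lit 539335212)]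
noncomputable def e28_23 : List Rx := [
  Rx.mk (nat_lit 128) (nat_lit 0) (nat_lit 0) (nat_lit 2) (nat_lit 4) (nat_lit 96) (nat_lit 161) r10_96 r1_161 (nat_lit 22829563) (nat_lit 15183139) (nat_lit 0) (nat_lit 0x6e1d4f8f2) (nat_lit 864770414),
  Rx.mk (nat_lit 130) (nat_lit 2) (nat_lit 0) (nat_lit 2) (nat_lit 5) (nat_lit 97) (nat_lit 164) r10_97 r1_164 (nat_lit 0) (nat_lit 9818448) (nat_lit 0) (nat_lit 0x77a95bc0c) (nat_lit 682197510),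
  Rx.mk (nat_lit 152) (nat_lit 0) (nat_lit 3) (nat_lit 2) (nat_lit 6) (nat_lit 98) (nat_lit 162) r10_98 r1_162 (nat_lit 24741287) (nat_lit 0) (nat_lit 0) (nat_lit 0x7fca1d474) (nat_lit 566365499),
  Rx.mk (nat_lit 154) (nat_lit 2) (nat_lit 3) (nat_lit 2) (nat_lit 7) (nat_lit 99) (nat_lit 165) r10_99 r1_165 (nat_lit 0) (nat_lit 0) (nat_lit 0) (nat_lit 0x804a4b9b6) (nat_lit 533752062),
  Rx.mk (nat_lit 155) (nat_lit 3) (nat_lit 3) (nat_lit 2) (nat_lit 7) (nat_lit 100) (nat_lit 163) r10_100 r1_163 (nat_lit 0) (nat_lit 0) (nat_lit 0) (nat_lit 0x8017985b4) (nat_lit 536870912)]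
noncomputable def e28_24 : List Rx := [
  Rx.mk (nat_lit 59) (nat_lit 3) (nat_lit 7) (nat_lit 0) (nat_lit 3) (nat_lit 132) (nat_lit 134) r10_132 r4_134 (nat_lit 0) (nat_lit 0) (nat_lit 19244630) (nat_lit 0x801080380) (nat_lit 556512792),
  Rx.mk (nat_lit 152) (nat_lit 0) (nat_lit 3) (nat_lit 2) (nat_lit 6) (nat_lit 127) (nat_lit 139) r10_127 r4_139 (nat_lit 24676068) (nat_lit 0) (nat_lit 0) (nat_lit 0x7e8afe690) (nat_lit 586102830),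
  Rx.mk (nat_lit 154) (nat_lit 2) (nat_lit 3) (nat_lit 2) (nat_lit 7) (nat_lit 128) (nat_lit 142) r10_128 r4_142 (nat_lit 0) (nat_lit 0) (nat_lit 0) (nat_lit 0x8017985b4) (nat_lit 536870912),
  Rx.mk (nat_lit 155) (nat_lit 3) (nat_lit 3) (nat_lit 2) (nat_lit 7) (nat_lit 129) (nat_lit 140) r10_129 r4_140 (nat_lit 0) (nat_lit 0) (nat_lit 0) (nat_lit 0x809f243f2) (nat_lit 528567662),
  Rx.mk (nat_lit 187) (nat_lit 3) (nat_lit 7) (nat_lit 2) (nat_lit 7) (nat_lit 133) (nat_lit 141) r10_133 r4_141 (nat_lit 0) (nat_lit 0) (nat_lit 0) (nat_lit 0x8017985b4) (nat_lit 536870912),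
  Rx.mk (nat_lit 231) (nat_lit 7) (nat_lit 4) (nat_lit 3) (nat_lit 5) (nat_lit 130) (nat_lit 136) r10_130 r4_136 (nat_lit 0) (nat_lit 12224820) (nat_lit 0) (nat_lit 0x806946df2) (nat_lit 544040032),
  Rx.mk (nat_lit 247) (nat_lit 7) (nat_lit 6) (nat_lit 3) (nat_lit 7) (nat_lit 131) (nat_lit 138) r10_131 r4_138 (nat_lit 0) (nat_lit 0) (nat_lit 0) (nat_lit 0x804468c56) (nat_lit 534115312),
  Rx.mk (nat_lit 251) (nat_lit 3) (nat_lit 7) (nat_lit 3) (nat_lit 7) (nat_lit 134) (nat_lit 135) r10_134 r4_135 (nat_lit 0) (nat_lit 0) (nat_lit 0) (nat_lit 0x8017985b4) (nat_lit 536870912),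
  Rx.mk (nat_lit 255) (nat_lit 7) (nat_lit 7) (nat_lit 3) (nat_lit 7) (nat_lit 135) (nat_lit 137) r10_135 r4_137 (nat_lit 0) (nat_lit 0) (nat_lit 0) (nat_lit 0x8017985b4) (nat_lit 536870912)]
noncomputable def e28_25 : List Rx := [
  Rx.mk (nat_lit 128) (nat_lit 0) (nat_lit 0) (nat_lit 2) (nat_lit 4) (nat_lit 82) (nat_lit 189) r10_82 r7_189 (nat_lit 2494455) (nat_lit 2041025) (nat_lit 0) (nat_lit 0x6a9b34cd0) (nat_lit 887706942),
  Rx.mk (nat_lit 130) (nat_lit 2) (nat_lit 0) (nat_lit 2) (nat_lit 5) (nat_lit 83) (nat_lit 191) r10_83 r7_191 (nat_lit 0) (nat_lit 21221230) (nat_lit 0) (nat_lit 0x7ffecc166) (nat_lit 559591742),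
  Rx.mk (nat_lit 152) (nat_lit 0) (nat_lit 3) (nat_lit 2) (nat_lit 6) (nat_lit 88) (nat_lit 192) r10_88 r7_192 (nat_lit 24741287) (nat_lit 0) (nat_lit 0) (nat_lit 0x8017985b4) (nat_lit 561612199),
  Rx.mk (nat_lit 154) (nat_lit 2) (nat_lit 3) (nat_lit 2) (nat_lit 7) (nat_lit 89) (nat_lit 194) r10_89 r7_194 (nat_lit 0) (nat_lit 0) (nat_lit 0) (nat_lit 0x8017985b4) (nat_lit 536870912),
  Rx.mk (nat_lit 155) (nat_lit 3) (nat_lit 3) (nat_lit 2) (nat_lit 7) (nat_lit 90) (nat_lit 193) r10_90 r7_193 (nat_lit 0) (nat_lit 0) (nat_lit 0) (nat_lit 0x8017985b4) (nat_lit 536870912),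
  Rx.mk (nat_lit 278) (nat_lit 6) (nat_lit 2) (nat_lit 4) (nat_lit 3) (nat_lit 86) (nat_lit 195) r10_86 r7_195 (nat_lit 0) (nat_lit 0) (nat_lit 24741287) (nat_lit 0x7fd76a0e6) (nat_lit 565534799),
  Rx.mk (nat_lit 308) (nat_lit 4) (nat_lit 6) (nat_lit 4) (nat_lit 2) (nat_lit 91) (nat_lit 184) r10_91 r7_184 (nat_lit 2494455) (nat_lit 0) (nat_lit 2041025) (nat_lit 0x6a9b34cd0) (nat_lit 887706942),
  Rx.mk (nat_lit 310) (nat_lit 6) (nat_lit 6) (nat_lit 4) (nat_lit 3) (nat_lit 93) (nat_lit 187) r10_93 r7_187 (nat_lit 0) (nat_lit 0) (nat_lit 21221230) (nat_lit 0x7ffecc166) (nat_lit 559591742),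
  Rx.mk (nat_lit 386) (nat_lit 2) (nat_lit 0) (nat_lit 6) (nat_lit 5) (nat_lit 84) (nat_lit 190) r10_84 r7_190 (nat_lit 0) (nat_lit 24741287) (nat_lit 0) (nat_lit 0x7fd76a0e6) (nat_lit 565534799),
  Rx.mk (nat_lit 402) (nat_lit 2) (nat_lit 2) (nat_lit 6) (nat_lit 7) (nat_lit 85) (nat_lit 197) r10_85 r7_197 (nat_lit 0) (nat_lit 0) (nat_lit 0) (nat_lit 0x8017985b4) (nat_lit 536870912),
  Rx.mk (nat_lit 406) (nat_lit 6) (nat_lit 2) (nat_lit 6) (nat_lit 7) (nat_lit 87) (nat_lit 196) r10_87 r7_196 (nat_lit 0) (nat_lit 0) (nat_lit 0) (nat_lit 0x8017985b4) (nat_lit 536870912),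
  Rx.mk (nat_lit 500) (nat_lit 4) (nat_lit 6) (nat_lit 7) (nat_lit 6) (nat_lit 92) (nat_lit 185) r10_92 r7_185 (nat_lit 24741287) (nat_lit 0) (nat_lit 0) (nat_lit 0x8017985b4) (nat_lit 561612199),
  Rx.mk (nat_lit 502) (nat_lit 6) (nat_lit 6) (nat_lit 7) (nat_lit 7) (nat_lit 94) (nat_lit 188) r10_94 r7_188 (nat_lit 0) (nat_lit 0) (nat_lit 0) (nat_lit 0x8017985b4) (nat_lit 536870912),
  Rx.mk (nat_lit 503) (nat_lit 7) (nat_lit 6) (nat_lit 7) (nat_lit 7) (nat_lit 95) (nat_lit 186) r10_95 r7_186 (nat_lit 0) (nat_lit 0) (nat_lit 0) (nat_lit 0x8017985b4) (nat_lit 536870912)]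
noncomputable def e28_26 : List Rx := [
  Rx.mk (nat_lit 128) (nat_lit 0) (nat_lit 0) (nat_lit 2) (nat_lit 4) (nat_lit 101) (nat_lit 149) r10_101 r8_149 (nat_lit 27532938) (nat_lit 25194848) (nat_lit 0) (nat_lit 0x6502bec76) (nat_lit 1026751498),
  Rx.mk (nat_lit 130) (nat_lit 2) (nat_lit 0) (nat_lit 2) (nat_lit 5) (nat_lit 102) (nat_lit 151) r10_102 r8_151 (nat_lit 0) (nat_lit 24741287) (nat_lit 0) (nat_lit 0x80046e510) (nat_lit 562785099),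
  Rx.mk (nat_lit 152) (nat_lit 0) (nat_lit 3) (nat_lit 2) (nat_lit 6) (nat_lit 106) (nat_lit 152) r10_106 r8_152 (nat_lit 24741287) (nat_lit 0) (nat_lit 0) (nat_lit 0x7fc74cd8a) (nat_lit 566520649),
  Rx.mk (nat_lit 154) (nat_lit 2) (nat_lit 3) (nat_lit 2) (nat_lit 7) (nat_lit 107) (nat_lit 154) r10_107 r8_154 (nat_lit 0) (nat_lit 0) (nat_lit 0) (nat_lit 0x8017985b4) (nat_lit 536870912),
  Rx.mk (nat_lit 155) (nat_lit 3) (nat_lit 3) (nat_lit 2) (nat_lit 7) (nat_lit 108) (nat_lit 153) r10_108 r8_153 (nat_lit 0) (nat_lit 0) (nat_lit 0) (nat_lit 0x8017985b4) (nat_lit 536870912),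
  Rx.mk (nat_lit 386) (nat_lit 2) (nat_lit 0) (nat_lit 6) (nat_lit 5) (nat_lit 103) (nat_lit 150) r10_103 r8_150 (nat_lit 0) (nat_lit 24741287) (nat_lit 0) (nat_lit 0x8006a3cfe) (nat_lit 562650649),
  Rx.mk (nat_lit 402) (nat_lit 2) (nat_lit 2) (nat_lit 6) (nat_lit 7) (nat_lit 104) (nat_lit 156) r10_104 r8_156 (nat_lit 0) (nat_lit 0) (nat_lit 0) (nat_lit 0x8017985b4) (nat_lit 536870912),
  Rx.mk (nat_lit 406) (nat_lit 6) (nat_lit 2) (nat_lit 6) (nat_lit 7) (nat_lit 105) (nat_lit 155) r10_105 r8_155 (nat_lit 0) (nat_lit 0) (nat_lit 0) (nat_lit 0x8017985b4) (nat_lit 536870912)]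
noncomputable def e28_27 : List Rx := [
  Rx.mk (nat_lit 278) (nat_lit 6) (nat_lit 2) (nat_lit 4) (nat_lit 3) (nat_lit 110) (nat_lit 150) r10_110 r8_150 (nat_lit 0) (nat_lit 0) (nat_lit 24741287) (nat_lit 0x8006a3cfe) (nat_lit 562650649),
  Rx.mk (nat_lit 308) (nat_lit 4) (nat_lit 6) (nat_lit 4) (nat_lit 2) (nat_lit 112) (nat_lit 149) r10_112 r8_149 (nat_lit 27532938) (nat_lit 0) (nat_lit 25194848) (nat_lit 0x6502bec76) (nat_lit 1026751498),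
  Rx.mk (nat_lit 310) (nat_lit 6) (nat_lit 6) (nat_lit 4) (nat_lit 3) (nat_lit 114) (nat_lit 151) r10_114 r8_151 (nat_lit 0) (nat_lit 0) (nat_lit 24741287) (nat_lit 0x80046e510) (nat_lit 562785099),
  Rx.mk (nat_lit 402) (nat_lit 2) (nat_lit 2) (nat_lit 6) (nat_lit 7) (nat_lit 109) (nat_lit 155) r10_109 r8_155 (nat_lit 0) (nat_lit 0) (nat_lit 0) (nat_lit 0x8017985b4) (nat_lit 536870912),
  Rx.mk (nat_lit 406) (nat_lit 6) (nat_lit 2) (nat_lit 6) (nat_lit 7) (nat_lit 111) (nat_lit 156) r10_111 r8_156 (nat_lit 0) (nat_lit 0) (nat_lit 0) (nat_lit 0x8017985b4) (nat_lit 536870912),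
  Rx.mk (nat_lit 500) (nat_lit 4) (nat_lit 6) (nat_lit 7) (nat_lit 6) (nat_lit 113) (nat_lit 152) r10_113 r8_152 (nat_lit 24741287) (nat_lit 0) (nat_lit 0) (nat_lit 0x7fc74cd8a) (nat_lit 566520649),
  Rx.mk (nat_lit 502) (nat_lit 6) (nat_lit 6) (nat_lit 7) (nat_lit 7) (nat_lit 115) (nat_lit 154) r10_115 r8_154 (nat_lit 0) (nat_lit 0) (nat_lit 0) (nat_lit 0x8017985b4) (nat_lit 536870912),
  Rx.mk (nat_lit 503) (nat_lit 7) (nat_lit 6) (nat_lit 7) (nat_lit 7) (nat_lit 116) (nat_lit 153) r10_116 r8_153 (nat_lit 0) (nat_lit 0) (nat_lit 0) (nat_lit 0x8017985b4) (nat_lit 536870912)]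
noncomputable def e28_28 : List Rx := [
  Rx.mk (nat_lit 59) (nat_lit 3) (nat_lit 7) (nat_lit 0) (nat_lit 3) (nat_lit 150) (nat_lit 138) r10_150 r10_138 (nat_lit 0) (nat_lit 0) (nat_lit 5487991) (nat_lit 0x7daf29de0) (nat_lit 580522453),
  Rx.mk (nat_lit 152) (nat_lit 0) (nat_lit 3) (nat_lit 2) (nat_lit 6) (nat_lit 141) (nat_lit 146) r10_141 r10_146 (nat_lit 12670382) (nat_lit 0) (nat_lit 0) (nat_lit 0x7eae7fcf4) (nat_lit 571834594),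
  Rx.mk (nat_lit 154) (nat_lit 2) (nat_lit 3) (nat_lit 2) (nat_lit 7) (nat_lit 142) (nat_lit 149) r10_142 r10_149 (nat_lit 0) (nat_lit 0) (nat_lit 0) (nat_lit 0x8017985b4) (nat_lit 536870912),
  Rx.mk (nat_lit 155) (nat_lit 3) (nat_lit 3) (nat_lit 2) (nat_lit 7) (nat_lit 144) (nat_lit 147) r10_144 r10_147 (nat_lit 0) (nat_lit 0) (nat_lit 0) (nat_lit 0x8017985b4) (nat_lit 536870912),
  Rx.mk (nat_lit 187) (nat_lit 3) (nat_lit 7) (nat_lit 2) (nat_lit 7) (nat_lit 151) (nat_lit 140) r10_151 r10_140 (nat_lit 0) (nat_lit 0) (nat_lit 0) (nat_lit 0x8017985b4) (nat_lit 536870912),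
  Rx.mk (nat_lit 231) (nat_lit 7) (nat_lit 4) (nat_lit 3) (nat_lit 5) (nat_lit 145) (nat_lit 136) r10_145 r10_136 (nat_lit 0) (nat_lit 5487991) (nat_lit 0) (nat_lit 0x7daf29de0) (nat_lit 580522453),
  Rx.mk (nat_lit 247) (nat_lit 7) (nat_lit 6) (nat_lit 3) (nat_lit 7) (nat_lit 148) (nat_lit 143) r10_148 r10_143 (nat_lit 0) (nat_lit 0) (nat_lit 0) (nat_lit 0x8017985b4) (nat_lit 536870912),
  Rx.mk (nat_lit 251) (nat_lit 3) (nat_lit 7) (nat_lit 3) (nat_lit 7) (nat_lit 152) (nat_lit 139) r10_152 r10_139 (nat_lit 0) (nat_lit 0) (nat_lit 0) (nat_lit 0x8017985b4) (nat_lit 536870912),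
  Rx.mk (nat_lit 255) (nat_lit 7) (nat_lit 7) (nat_lit 3) (nat_lit 7) (nat_lit 153) (nat_lit 137) r10_153 r10_137 (nat_lit 0) (nat_lit 0) (nat_lit 0) (nat_lit 0x8017985b4) (nat_lit 536870912),
  Rx.mk (nat_lit 278) (nat_lit 6) (nat_lit 2) (nat_lit 4) (nat_lit 3) (nat_lit 138) (nat_lit 150) r10_138 r10_150 (nat_lit 0) (nat_lit 0) (nat_lit 5487991) (nat_lit 0x7daf29de0) (nat_lit 580522453),
  Rx.mk (nat_lit 386) (nat_lit 2) (nat_lit 0) (nat_lit 6) (nat_lit 5) (nat_lit 136) (nat_lit 145) r10_136 r10_145 (nat_lit 0) (nat_lit 5487991) (nat_lit 0) (nat_lit 0x7daf29de0) (nat_lit 580522453),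
  Rx.mk (nat_lit 402) (nat_lit 2) (nat_lit 2) (nat_lit 6) (nat_lit 7) (nat_lit 137) (nat_lit 153) r10_137 r10_153 (nat_lit 0) (nat_lit 0) (nat_lit 0) (nat_lit 0x8017985b4) (nat_lit 536870912),
  Rx.mk (nat_lit 406) (nat_lit 6) (nat_lit 2) (nat_lit 6) (nat_lit 7) (nat_lit 139) (nat_lit 152) r10_139 r10_152 (nat_lit 0) (nat_lit 0) (nat_lit 0) (nat_lit 0x8017985b4) (nat_lit 536870912),
  Rx.mk (nat_lit 410) (nat_lit 2) (nat_lit 3) (nat_lit 6) (nat_lit 7) (nat_lit 143) (nat_lit 148) r10_143 r10_148 (nat_lit 0) (nat_lit 0) (nat_lit 0) (nat_lit 0x8017985b4) (nat_lit 536870912),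
  Rx.mk (nat_lit 470) (nat_lit 6) (nat_lit 2) (nat_lit 7) (nat_lit 7) (nat_lit 140) (nat_lit 151) r10_140 r10_151 (nat_lit 0) (nat_lit 0) (nat_lit 0) (nat_lit 0x8017985b4) (nat_lit 536870912),
  Rx.mk (nat_lit 500) (nat_lit 4) (nat_lit 6) (nat_lit 7) (nat_lit 6) (nat_lit 146) (nat_lit 141) r10_146 r10_141 (nat_lit 12670382) (nat_lit 0) (nat_lit 0) (nat_lit 0x7eae7fcf4) (nat_lit 571834594),
  Rx.mk (nat_lit 502) (nat_lit 6) (nat_lit 6) (nat_lit 7) (nat_lit 7) (nat_lit 147) (nat_lit 144) r10_147 r10_144 (nat_lit 0) (nat_lit 0) (nat_lit 0) (nat_lit 0x8017985b4) (nat_lit 536870912),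
  Rx.mk (nat_lit 503) (nat_lit 7) (nat_lit 6) (nat_lit 7) (nat_lit 7) (nat_lit 149) (nat_lit 142) r10_149 r10_142 (nat_lit 0) (nat_lit 0) (nat_lit 0) (nat_lit 0x8017985b4) (nat_lit 536870912)]
noncomputable def e28_29 : List Rx := [
  Rx.mk (nat_lit 59) (nat_lit 3) (nat_lit 7) (nat_lit 0) (nat_lit 3) (nat_lit 157) (nat_lit 140) r10_157 r11_140 (nat_lit 0) (nat_lit 0) (nat_lit 24894793) (nat_lit 0x8000a4c72) (nat_lit 563170405),
  Rx.mk (nat_lit 63) (nat_lit 7) (nat_lit 7) (nat_lit 0) (nat_lit 3) (nat_lit 159) (nat_lit 138) r10_159 r11_138 (nat_lit 0) (nat_lit 0) (nat_lit 24741287) (nat_lit 0x8017985b4) (nat_lit 561612199),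
  Rx.mk (nat_lit 155) (nat_lit 3) (nat_lit 3) (nat_lit 2) (nat_lit 7) (nat_lit 154) (nat_lit 143) r10_154 r11_143 (nat_lit 0) (nat_lit 0) (nat_lit 0) (nat_lit 0x8017985b4) (nat_lit 536870912),
  Rx.mk (nat_lit 187) (nat_lit 3) (nat_lit 7) (nat_lit 2) (nat_lit 7) (nat_lit 158) (nat_lit 141) r10_158 r11_141 (nat_lit 0) (nat_lit 0) (nat_lit 0) (nat_lit 0x8017985b4) (nat_lit 536870912),
  Rx.mk (nat_lit 231) (nat_lit 7) (nat_lit 4) (nat_lit 3) (nat_lit 5) (nat_lit 155) (nat_lit 137) r10_155 r11_137 (nat_lit 0) (nat_lit 24741287) (nat_lit 0) (nat_lit 0x8017985b4) (nat_lit 561612199),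
  Rx.mk (nat_lit 247) (nat_lit 7) (nat_lit 6) (nat_lit 3) (nat_lit 7) (nat_lit 156) (nat_lit 142) r10_156 r11_142 (nat_lit 0) (nat_lit 0) (nat_lit 0) (nat_lit 0x8017985b4) (nat_lit 536870912),
  Rx.mk (nat_lit 255) (nat_lit 7) (nat_lit 7) (nat_lit 3) (nat_lit 7) (nat_lit 160) (nat_lit 139) r10_160 r11_139 (nat_lit 0) (nat_lit 0) (nat_lit 0) (nat_lit 0x8017985b4) (nat_lit 536870912)]
noncomputable def e28_30 : List Rx := [
  Rx.mk (nat_lit 103) (nat_lit 7) (nat_lit 4) (nat_lit 1) (nat_lit 5) (nat_lit 237) (nat_lit 307) r10_237 r5_307 (nat_lit 0) (nat_lit 11477207) (nat_lit 0) (nat_lit 0x7fc2367ba) (nat_lit 553442619),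
  Rx.mk (nat_lit 111) (nat_lit 7) (nat_lit 5) (nat_lit 1) (nat_lit 7) (nat_lit 238) (nat_lit 308) r10_238 r5_308 (nat_lit 0) (nat_lit 0) (nat_lit 0) (nat_lit 0x80b9b4848) (nat_lit 526949812),
  Rx.mk (nat_lit 119) (nat_lit 7) (nat_lit 6) (nat_lit 1) (nat_lit 7) (nat_lit 239) (nat_lit 309) r10_239 r5_309 (nat_lit 0) (nat_lit 0) (nat_lit 0) (nat_lit 0x80b9b154e) (nat_lit 526950562)]
noncomputable def e28_31 : List Rx := [
  Rx.mk (nat_lit 103) (nat_lit 7) (nat_lit 4) (nat_lit 1) (nat_lit 5) (nat_lit 240) (nat_lit 361) r10_240 r11_361 (nat_lit 0) (nat_lit 20709188) (nat_lit 0) (nat_lit 0x804c96cf2) (nat_lit 554327950),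
  Rx.mk (nat_lit 111) (nat_lit 7) (nat_lit 5) (nat_lit 1) (nat_lit 7) (nat_lit 241) (nat_lit 362) r10_241 r11_362 (nat_lit 0) (nat_lit 0) (nat_lit 0) (nat_lit 0x8017985b4) (nat_lit 536870912),
  Rx.mk (nat_lit 119) (nat_lit 7) (nat_lit 6) (nat_lit 1) (nat_lit 7) (nat_lit 242) (nat_lit 363) r10_242 r11_363 (nat_lit 0) (nat_lit 0) (nat_lit 0) (nat_lit 0x8017985b4) (nat_lit 536870912),
  Rx.mk (nat_lit 375) (nat_lit 7) (nat_lit 6) (nat_lit 5) (nat_lit 7) (nat_lit 243) (nat_lit 360) r10_243 r11_360 (nat_lit 0) (nat_lit 0) (nat_lit 0) (nat_lit 0x8017985b4) (nat_lit 536870912)]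
noncomputable def e28_32 : List Rx := [
  Rx.mk (nat_lit 35) (nat_lit 3) (nat_lit 4) (nat_lit 0) (nat_lit 1) (nat_lit 244) (nat_lit 213) r10_244 r6_213 (nat_lit 0) (nat_lit 3437710) (nat_lit 3908311) (nat_lit 0x70b62ad72) (nat_lit 791927083),
  Rx.mk (nat_lit 43) (nat_lit 3) (nat_lit 5) (nat_lit 0) (nat_lit 3) (nat_lit 249) (nat_lit 214) r10_249 r6_214 (nat_lit 0) (nat_lit 0) (nat_lit 18189542) (nat_lit 0x807407840) (nat_lit 549393204),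
  Rx.mk (nat_lit 59) (nat_lit 3) (nat_lit 7) (nat_lit 0) (nat_lit 3) (nat_lit 254) (nat_lit 215) r10_254 r6_215 (nat_lit 0) (nat_lit 0) (nat_lit 8452867) (nat_lit 0x80ffe1c3a) (nat_lit 531055429),
  Rx.mk (nat_lit 99) (nat_lit 3) (nat_lit 4) (nat_lit 1) (nat_lit 5) (nat_lit 245) (nat_lit 216) r10_245 r6_216 (nat_lit 0) (nat_lit 14773968) (nat_lit 0) (nat_lit 0x80be7a56c) (nat_lit 541432730),
  Rx.mk (nat_lit 123) (nat_lit 3) (nat_lit 7) (nat_lit 1) (nat_lit 7) (nat_lit 255) (nat_lit 217) r10_255 r6_217 (nat_lit 0) (nat_lit 0) (nat_lit 0) (nat_lit 0x80d199d14) (nat_lit 525495962),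
  Rx.mk (nat_lit 163) (nat_lit 3) (nat_lit 4) (nat_lit 2) (nat_lit 5) (nat_lit 246) (nat_lit 220) r10_246 r6_220 (nat_lit 0) (nat_lit 14995754) (nat_lit 0) (nat_lit 0x80820fd34) (nat_lit 545312416),
  Rx.mk (nat_lit 171) (nat_lit 3) (nat_lit 5) (nat_lit 2) (nat_lit 7) (nat_lit 250) (nat_lit 221) r10_250 r6_221 (nat_lit 0) (nat_lit 0) (nat_lit 0) (nat_lit 0x8017985b4) (nat_lit 536870912),
  Rx.mk (nat_lit 187) (nat_lit 3) (nat_lit 7) (nat_lit 2) (nat_lit 7) (nat_lit 256) (nat_lit 222) r10_256 r6_222 (nat_lit 0) (nat_lit 0) (nat_lit 0) (nat_lit 0x80d1999d6) (nat_lit 525496012),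
  Rx.mk (nat_lit 227) (nat_lit 3) (nat_lit 4) (nat_lit 3) (nat_lit 5) (nat_lit 247) (nat_lit 218) r10_247 r6_218 (nat_lit 0) (nat_lit 24741287) (nat_lit 0) (nat_lit 0x7f68b2360) (nat_lit 572388699),
  Rx.mk (nat_lit 231) (nat_lit 7) (nat_lit 4) (nat_lit 3) (nat_lit 5) (nat_lit 248) (nat_lit 210) r10_248 r6_210 (nat_lit 0) (nat_lit 9336562) (nat_lit 0) (nat_lit 0x80cea0392) (nat_lit 534941174),
  Rx.mk (nat_lit 235) (nat_lit 3) (nat_lit 5) (nat_lit 3) (nat_lit 7) (nat_lit 251) (nat_lit 219) r10_251 r6_219 (nat_lit 0) (nat_lit 0) (nat_lit 0) (nat_lit 0x8017985b4) (nat_lit 536870912),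
  Rx.mk (nat_lit 239) (nat_lit 7) (nat_lit 5) (nat_lit 3) (nat_lit 7) (nat_lit 252) (nat_lit 211) r10_252 r6_211 (nat_lit 0) (nat_lit 0) (nat_lit 0) (nat_lit 0x80d032dc2) (nat_lit 525585862),
  Rx.mk (nat_lit 247) (nat_lit 7) (nat_lit 6) (nat_lit 3) (nat_lit 7) (nat_lit 253) (nat_lit 212) r10_253 r6_212 (nat_lit 0) (nat_lit 0) (nat_lit 0) (nat_lit 0x80d033132) (nat_lit 525585812)]
noncomputable def e28_33 : List Rx := [
  Rx.mk (nat_lit 59) (nat_lit 3) (nat_lit 7) (nat_lit 0) (nat_lit 3) (nat_lit 215) (nat_lit 134) r10_215 r5_134 (nat_lit 0) (nat_lit 0) (nat_lit 6614420) (nat_lit 0x81f9ff474) (nat_lit 514154582),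
  Rx.mk (nat_lit 187) (nat_lit 3) (nat_lit 7) (nat_lit 2) (nat_lit 7) (nat_lit 216) (nat_lit 139) r10_216 r5_139 (nat_lit 0) (nat_lit 0) (nat_lit 0) (nat_lit 0x80c39fc54) (nat_lit 526340012),
  Rx.mk (nat_lit 227) (nat_lit 3) (nat_lit 4) (nat_lit 3) (nat_lit 5) (nat_lit 212) (nat_lit 135) r10_212 r5_135 (nat_lit 0) (nat_lit 16735369) (nat_lit 0) (nat_lit 0x79b416a78) (nat_lit 656180481),
  Rx.mk (nat_lit 231) (nat_lit 7) (nat_lit 4) (nat_lit 3) (nat_lit 5) (nat_lit 213) (nat_lit 137) r10_213 r5_137 (nat_lit 0) (nat_lit 5865404) (nat_lit 0) (nat_lit 0x7ef7589d0) (nat_lit 560306366),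
  Rx.mk (nat_lit 247) (nat_lit 7) (nat_lit 6) (nat_lit 3) (nat_lit 7) (nat_lit 214) (nat_lit 138) r10_214 r5_138 (nat_lit 0) (nat_lit 0) (nat_lit 0) (nat_lit 0x815de8a72) (nat_lit 517001212),
  Rx.mk (nat_lit 251) (nat_lit 3) (nat_lit 7) (nat_lit 3) (nat_lit 7) (nat_lit 217) (nat_lit 136) r10_217 r5_136 (nat_lit 0) (nat_lit 0) (nat_lit 0) (nat_lit 0x8017985b4) (nat_lit 536870912)]
noncomputable def e28_34 : List Rx := [
  Rx.mk (nat_lit 59) (nat_lit 3) (nat_lit 7) (nat_lit 0) (nat_lit 3) (nat_lit 222) (nat_lit 137) r10_222 r11_137 (nat_lit 0) (nat_lit 0) (nat_lit 24741287) (nat_lit 0x8017985b4) (nat_lit 561612199),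
  Rx.mk (nat_lit 187) (nat_lit 3) (nat_lit 7) (nat_lit 2) (nat_lit 7) (nat_lit 223) (nat_lit 142) r10_223 r11_142 (nat_lit 0) (nat_lit 0) (nat_lit 0) (nat_lit 0x8017985b4) (nat_lit 536870912),
  Rx.mk (nat_lit 227) (nat_lit 3) (nat_lit 4) (nat_lit 3) (nat_lit 5) (nat_lit 218) (nat_lit 138) r10_218 r11_138 (nat_lit 0) (nat_lit 24741287) (nat_lit 0) (nat_lit 0x8017985b4) (nat_lit 561612199),
  Rx.mk (nat_lit 231) (nat_lit 7) (nat_lit 4) (nat_lit 3) (nat_lit 5) (nat_lit 219) (nat_lit 140) r10_219 r11_140 (nat_lit 0) (nat_lit 24894793) (nat_lit 0) (nat_lit 0x8000a4c72) (nat_lit 563170405),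
  Rx.mk (nat_lit 247) (nat_lit 7) (nat_lit 6) (nat_lit 3) (nat_lit 7) (nat_lit 220) (nat_lit 141) r10_220 r11_141 (nat_lit 0) (nat_lit 0) (nat_lit 0) (nat_lit 0x8017985b4) (nat_lit 536870912),
  Rx.mk (nat_lit 251) (nat_lit 3) (nat_lit 7) (nat_lit 3) (nat_lit 7) (nat_lit 224) (nat_lit 139) r10_224 r11_139 (nat_lit 0) (nat_lit 0) (nat_lit 0) (nat_lit 0x8017985b4) (nat_lit 536870912),
  Rx.mk (nat_lit 503) (nat_lit 7) (nat_lit 6) (nat_lit 7) (nat_lit 7) (nat_lit 221) (nat_lit 143) r10_221 r11_143 (nat_lit 0) (nat_lit 0) (nat_lit 0) (nat_lit 0x8017985b4) (nat_lit 536870912)]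
noncomputable def e28_35 : List Rx := [
  Rx.mk (nat_lit 35) (nat_lit 3) (nat_lit 4) (nat_lit 0) (nat_lit 1) (nat_lit 225) (nat_lit 344) r10_225 r6_344 (nat_lit 0) (nat_lit 2476245) (nat_lit 2379676) (nat_lit 0x72757b8ec) (nat_lit 761113833),
  Rx.mk (nat_lit 39) (nat_lit 7) (nat_lit 4) (nat_lit 0) (nat_lit 1) (nat_lit 228) (nat_lit 345) r10_228 r6_345 (nat_lit 0) (nat_lit 2379676) (nat_lit 2476245) (nat_lit 0x72757b8ec) (nat_lit 761113833),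
  Rx.mk (nat_lit 43) (nat_lit 3) (nat_lit 5) (nat_lit 0) (nat_lit 3) (nat_lit 230) (nat_lit 349) r10_230 r6_349 (nat_lit 0) (nat_lit 0) (nat_lit 14712556) (nat_lit 0x80ba6dfaa) (nat_lit 541613868),
  Rx.mk (nat_lit 47) (nat_lit 7) (nat_lit 5) (nat_lit 0) (nat_lit 3) (nat_lit 233) (nat_lit 350) r10_233 r6_350 (nat_lit 0) (nat_lit 0) (nat_lit 11707184) (nat_lit 0x8125d3a2e) (nat_lit 532088296),
  Rx.mk (nat_lit 55) (nat_lit 7) (nat_lit 6) (nat_lit 0) (nat_lit 3) (nat_lit 235) (nat_lit 354) r10_235 r6_354 (nat_lit 0) (nat_lit 0) (nat_lit 11706733) (nat_lit 0x8125d7dc2) (nat_lit 532086845),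
  Rx.mk (nat_lit 99) (nat_lit 3) (nat_lit 4) (nat_lit 1) (nat_lit 5) (nat_lit 226) (nat_lit 346) r10_226 r6_346 (nat_lit 0) (nat_lit 11707184) (nat_lit 0) (nat_lit 0x8125d3a2e) (nat_lit 532088296),
  Rx.mk (nat_lit 103) (nat_lit 7) (nat_lit 4) (nat_lit 1) (nat_lit 5) (nat_lit 229) (nat_lit 347) r10_229 r6_347 (nat_lit 0) (nat_lit 14712556) (nat_lit 0) (nat_lit 0x80ba6dfaa) (nat_lit 541613868),
  Rx.mk (nat_lit 107) (nat_lit 3) (nat_lit 5) (nat_lit 1) (nat_lit 7) (nat_lit 231) (nat_lit 351) r10_231 r6_351 (nat_lit 0) (nat_lit 0) (nat_lit 0) (nat_lit 0x8017985b4) (nat_lit 536870912),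
  Rx.mk (nat_lit 111) (nat_lit 7) (nat_lit 5) (nat_lit 1) (nat_lit 7) (nat_lit 234) (nat_lit 352) r10_234 r6_352 (nat_lit 0) (nat_lit 0) (nat_lit 0) (nat_lit 0x8017985b4) (nat_lit 536870912),
  Rx.mk (nat_lit 119) (nat_lit 7) (nat_lit 6) (nat_lit 1) (nat_lit 7) (nat_lit 236) (nat_lit 355) r10_236 r6_355 (nat_lit 0) (nat_lit 0) (nat_lit 0) (nat_lit 0x8017985b4) (nat_lit 536870912),
  Rx.mk (nat_lit 163) (nat_lit 3) (nat_lit 4) (nat_lit 2) (nat_lit 5) (nat_lit 227) (nat_lit 348) r10_227 r6_348 (nat_lit 0) (nat_lit 11706733) (nat_lit 0) (nat_lit 0x8125d7dc2) (nat_lit 532086845),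
  Rx.mk (nat_lit 171) (nat_lit 3) (nat_lit 5) (nat_lit 2) (nat_lit 7) (nat_lit 232) (nat_lit 353) r10_232 r6_353 (nat_lit 0) (nat_lit 0) (nat_lit 0) (nat_lit 0x8017985b4) (nat_lit 536870912)]
noncomputable def e28_36 : List Rx := [
  Rx.mk (nat_lit 35) (nat_lit 3) (nat_lit 4) (nat_lit 0) (nat_lit 1) (nat_lit 257) (nat_lit 213) r10_257 r12_213 (nat_lit 0) (nat_lit 2436129) (nat_lit 2577418) (nat_lit 0x73aa6288e) (nat_lit 741762309),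
  Rx.mk (nat_lit 39) (nat_lit 7) (nat_lit 4) (nat_lit 0) (nat_lit 1) (nat_lit 260) (nat_lit 221) r10_260 r12_221 (nat_lit 0) (nat_lit 2577418) (nat_lit 2436129) (nat_lit 0x73aa6288e) (nat_lit 741762309),
  Rx.mk (nat_lit 43) (nat_lit 3) (nat_lit 5) (nat_lit 0) (nat_lit 3) (nat_lit 263) (nat_lit 216) r10_263 r12_216 (nat_lit 0) (nat_lit 0) (nat_lit 12157828) (nat_lit 0x8125a3a9a) (nat_lit 532563440),
  Rx.mk (nat_lit 47) (nat_lit 7) (nat_lit 5) (nat_lit 0) (nat_lit 3) (nat_lit 265) (nat_lit 224) r10_265 r12_224 (nat_lit 0) (nat_lit 0) (nat_lit 8688892) (nat_lit 0x823a95ac4) (nat_lit 512418754),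
  Rx.mk (nat_lit 55) (nat_lit 7) (nat_lit 6) (nat_lit 0) (nat_lit 3) (nat_lit 267) (nat_lit 226) r10_267 r12_226 (nat_lit 0) (nat_lit 0) (nat_lit 8688910) (nat_lit 0x823a961a4) (nat_lit 512418672),
  Rx.mk (nat_lit 59) (nat_lit 3) (nat_lit 7) (nat_lit 0) (nat_lit 3) (nat_lit 270) (nat_lit 218) r10_270 r12_218 (nat_lit 0) (nat_lit 0) (nat_lit 6405981) (nat_lit 0x808bbb2fc) (nat_lit 535951843),
  Rx.mk (nat_lit 99) (nat_lit 3) (nat_lit 4) (nat_lit 1) (nat_lit 5) (nat_lit 258) (nat_lit 214) r10_258 r12_214 (nat_lit 0) (nat_lit 8688892) (nat_lit 0) (nat_lit 0x823a95ac4) (nat_lit 512418754),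
  Rx.mk (nat_lit 103) (nat_lit 7) (nat_lit 4) (nat_lit 1) (nat_lit 5) (nat_lit 261) (nat_lit 222) r10_261 r12_222 (nat_lit 0) (nat_lit 12157828) (nat_lit 0) (nat_lit 0x8125a3a9a) (nat_lit 532563440),
  Rx.mk (nat_lit 119) (nat_lit 7) (nat_lit 6) (nat_lit 1) (nat_lit 7) (nat_lit 268) (nat_lit 227) r10_268 r12_227 (nat_lit 0) (nat_lit 0) (nat_lit 0) (nat_lit 0x8017985b4) (nat_lit 536870912),
  Rx.mk (nat_lit 123) (nat_lit 3) (nat_lit 7) (nat_lit 1) (nat_lit 7) (nat_lit 271) (nat_lit 219) r10_271 r12_219 (nat_lit 0) (nat_lit 0) (nat_lit 0) (nat_lit 0x811742e92) (nat_lit 521278712),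
  Rx.mk (nat_lit 163) (nat_lit 3) (nat_lit 4) (nat_lit 2) (nat_lit 5) (nat_lit 259) (nat_lit 215) r10_259 r12_215 (nat_lit 0) (nat_lit 8688910) (nat_lit 0) (nat_lit 0x823a961a4) (nat_lit 512418672),
  Rx.mk (nat_lit 171) (nat_lit 3) (nat_lit 5) (nat_lit 2) (nat_lit 7) (nat_lit 264) (nat_lit 217) r10_264 r12_217 (nat_lit 0) (nat_lit 0) (nat_lit 0) (nat_lit 0x8017985b4) (nat_lit 536870912),
  Rx.mk (nat_lit 187) (nat_lit 3) (nat_lit 7) (nat_lit 2) (nat_lit 7) (nat_lit 272) (nat_lit 220) r10_272 r12_220 (nat_lit 0) (nat_lit 0) (nat_lit 0) (nat_lit 0x8117427e4) (nat_lit 521278812),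
  Rx.mk (nat_lit 231) (nat_lit 7) (nat_lit 4) (nat_lit 3) (nat_lit 5) (nat_lit 262) (nat_lit 223) r10_262 r12_223 (nat_lit 0) (nat_lit 6405981) (nat_lit 0) (nat_lit 0x808bbb2fc) (nat_lit 535951843),
  Rx.mk (nat_lit 239) (nat_lit 7) (nat_lit 5) (nat_lit 3) (nat_lit 7) (nat_lit 266) (nat_lit 225) r10_266 r12_225 (nat_lit 0) (nat_lit 0) (nat_lit 0) (nat_lit 0x811742e92) (nat_lit 521278712),
  Rx.mk (nat_lit 247) (nat_lit 7) (nat_lit 6) (nat_lit 3) (nat_lit 7) (nat_lit 269) (nat_lit 228) r10_269 r12_228 (nat_lit 0) (nat_lit 0) (nat_lit 0) (nat_lit 0x8117427e4) (nat_lit 521278812)]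
noncomputable def e28_37 : List Rx := [
  Rx.mk (nat_lit 40) (nat_lit 0) (nat_lit 5) (nat_lit 0) (nat_lit 2) (nat_lit 281) (nat_lit 195) r10_281 r0_195 (nat_lit 4364993) (nat_lit 0) (nat_lit 2412373) (nat_lit 0x599f905a6) (nat_lit 1164616828),
  Rx.mk (nat_lit 104) (nat_lit 0) (nat_lit 5) (nat_lit 1) (nat_lit 6) (nat_lit 282) (nat_lit 196) r10_282 r0_196 (nat_lit 12102424) (nat_lit 0) (nat_lit 0) (nat_lit 0x79db10b88) (nat_lit 649035436),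
  Rx.mk (nat_lit 136) (nat_lit 0) (nat_lit 1) (nat_lit 2) (nat_lit 6) (nat_lit 279) (nat_lit 198) r10_279 r0_198 (nat_lit 45895857) (nat_lit 0) (nat_lit 0) (nat_lit 0x7fb6ad812) (nat_lit 588199269),
  Rx.mk (nat_lit 139) (nat_lit 3) (nat_lit 1) (nat_lit 2) (nat_lit 7) (nat_lit 280) (nat_lit 199) r10_280 r0_199 (nat_lit 0) (nat_lit 0) (nat_lit 0) (nat_lit 0x809c1612e) (nat_lit 528750462),
  Rx.mk (nat_lit 168) (nat_lit 0) (nat_lit 5) (nat_lit 2) (nat_lit 6) (nat_lit 283) (nat_lit 197) r10_283 r0_197 (nat_lit 70189493) (nat_lit 0) (nat_lit 0) (nat_lit 0x7d33fb286) (nat_lit 652998905)]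
noncomputable def e28_38 : List Rx := [
  Rx.mk (nat_lit 40) (nat_lit 0) (nat_lit 5) (nat_lit 0) (nat_lit 2) (nat_lit 273) (nat_lit 322) r10_273 r0_322 (nat_lit 14038217) (nat_lit 0) (nat_lit 17034488) (nat_lit 0x6f6e3009a) (nat_lit 836450667),
  Rx.mk (nat_lit 41) (nat_lit 1) (nat_lit 5) (nat_lit 0) (nat_lit 3) (nat_lit 276) (nat_lit 323) r10_276 r0_323 (nat_lit 0) (nat_lit 0) (nat_lit 24741287) (nat_lit 0x8017985b4) (nat_lit 561612199),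
  Rx.mk (nat_lit 104) (nat_lit 0) (nat_lit 5) (nat_lit 1) (nat_lit 6) (nat_lit 274) (nat_lit 324) r10_274 r0_324 (nat_lit 24924827) (nat_lit 0) (nat_lit 0) (nat_lit 0x7fc09e13c) (nat_lit 567146289),
  Rx.mk (nat_lit 105) (nat_lit 1) (nat_lit 5) (nat_lit 1) (nat_lit 7) (nat_lit 277) (nat_lit 325) r10_277 r0_325 (nat_lit 0) (nat_lit 0) (nat_lit 0) (nat_lit 0x8017985b4) (nat_lit 536870912),
  Rx.mk (nat_lit 168) (nat_lit 0) (nat_lit 5) (nat_lit 2) (nat_lit 6) (nat_lit 275) (nat_lit 326) r10_275 r0_326 (nat_lit 25781778) (nat_lit 0) (nat_lit 0) (nat_lit 0x7e4c3ec0c) (nat_lit 591158440),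
  Rx.mk (nat_lit 169) (nat_lit 1) (nat_lit 5) (nat_lit 2) (nat_lit 7) (nat_lit 278) (nat_lit 327) r10_278 r0_327 (nat_lit 0) (nat_lit 0) (nat_lit 0) (nat_lit 0x7ffa5b708) (nat_lit 538653612)]
noncomputable def e28_39 : List Rx := [
  Rx.mk (nat_lit 40) (nat_lit 0) (nat_lit 5) (nat_lit 0) (nat_lit 2) (nat_lit 286) (nat_lit 255) r10_286 r7_255 (nat_lit 28712906) (nat_lit 0) (nat_lit 23931749) (nat_lit 0x6a7e66ee6) (nat_lit 937964567),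
  Rx.mk (nat_lit 41) (nat_lit 1) (nat_lit 5) (nat_lit 0) (nat_lit 3) (nat_lit 289) (nat_lit 259) r10_289 r7_259 (nat_lit 0) (nat_lit 0) (nat_lit 26205094) (nat_lit 0x7ff5adb5c) (nat_lit 565151456),
  Rx.mk (nat_lit 104) (nat_lit 0) (nat_lit 5) (nat_lit 1) (nat_lit 6) (nat_lit 287) (nat_lit 256) r10_287 r7_256 (nat_lit 24741287) (nat_lit 0) (nat_lit 0) (nat_lit 0x8017985b4) (nat_lit 561612199),
  Rx.mk (nat_lit 105) (nat_lit 1) (nat_lit 5) (nat_lit 1) (nat_lit 7) (nat_lit 290) (nat_lit 260) r10_290 r7_260 (nat_lit 0) (nat_lit 0) (nat_lit 0) (nat_lit 0x8017985b4) (nat_lit 536870912),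
  Rx.mk (nat_lit 136) (nat_lit 0) (nat_lit 1) (nat_lit 2) (nat_lit 6) (nat_lit 284) (nat_lit 258) r10_284 r7_258 (nat_lit 25393500) (nat_lit 0) (nat_lit 0) (nat_lit 0x7ffadf27e) (nat_lit 564019262),
  Rx.mk (nat_lit 137) (nat_lit 1) (nat_lit 1) (nat_lit 2) (nat_lit 7) (nat_lit 285) (nat_lit 262) r10_285 r7_262 (nat_lit 0) (nat_lit 0) (nat_lit 0) (nat_lit 0x8017985b4) (nat_lit 536870912),
  Rx.mk (nat_lit 168) (nat_lit 0) (nat_lit 5) (nat_lit 2) (nat_lit 6) (nat_lit 288) (nat_lit 257) r10_288 r7_257 (nat_lit 25691165) (nat_lit 0) (nat_lit 0) (nat_lit 0x800112efc) (nat_lit 563939677),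
  Rx.mk (nat_lit 169) (nat_lit 1) (nat_lit 5) (nat_lit 2) (nat_lit 7) (nat_lit 291) (nat_lit 261) r10_291 r7_261 (nat_lit 0) (nat_lit 0) (nat_lit 0) (nat_lit 0x8017985b4) (nat_lit 536870912)]
noncomputable def e28_40 : List Rx := [
  Rx.mk (nat_lit 105) (nat_lit 1) (nat_lit 5) (nat_lit 1) (nat_lit 7) (nat_lit 323) (nat_lit 354) r10_323 r2_354 (nat_lit 0) (nat_lit 0) (nat_lit 0) (nat_lit 0x8017985b4) (nat_lit 536870912),
  Rx.mk (nat_lit 109) (nat_lit 5) (nat_lit 5) (nat_lit 1) (nat_lit 7) (nat_lit 324) (nat_lit 355) r10_324 r2_355 (nat_lit 0) (nat_lit 0) (nat_lit 0) (nat_lit 0x8017985b4) (nat_lit 536870912)]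
noncomputable def e28_41 : List Rx := [
  Rx.mk (nat_lit 105) (nat_lit 1) (nat_lit 5) (nat_lit 1) (nat_lit 7) (nat_lit 329) (nat_lit 317) r10_329 r9_317 (nat_lit 0) (nat_lit 0) (nat_lit 0) (nat_lit 0x8017985b4) (nat_lit 536870912),
  Rx.mk (nat_lit 109) (nat_lit 5) (nat_lit 5) (nat_lit 1) (nat_lit 7) (nat_lit 330) (nat_lit 318) r10_330 r9_318 (nat_lit 0) (nat_lit 0) (nat_lit 0) (nat_lit 0x8017985b4) (nat_lit 536870912)]
noncomputable def e28_42 : List Rx := [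
  Rx.mk (nat_lit 105) (nat_lit 1) (nat_lit 5) (nat_lit 1) (nat_lit 7) (nat_lit 331) (nat_lit 318) r10_331 r9_318 (nat_lit 0) (nat_lit 0) (nat_lit 0) (nat_lit 0x8017985b4) (nat_lit 536870912),
  Rx.mk (nat_lit 109) (nat_lit 5) (nat_lit 5) (nat_lit 1) (nat_lit 7) (nat_lit 332) (nat_lit 317) r10_332 r9_317 (nat_lit 0) (nat_lit 0) (nat_lit 0) (nat_lit 0x8017985b4) (nat_lit 536870912)]
noncomputable def e28_43 : List Rx := [
  Rx.mk (nat_lit 41) (nat_lit 1) (nat_lit 5) (nat_lit 0) (nat_lit 3) (nat_lit 320) (nat_lit 307) r10_320 r1_307 (nat_lit 0) (nat_lit 0) (nat_lit 24741287) (nat_lit 0x8017985b4) (nat_lit 561612199),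
  Rx.mk (nat_lit 105) (nat_lit 1) (nat_lit 5) (nat_lit 1) (nat_lit 7) (nat_lit 321) (nat_lit 308) r10_321 r1_308 (nat_lit 0) (nat_lit 0) (nat_lit 0) (nat_lit 0x8017985b4) (nat_lit 536870912),
  Rx.mk (nat_lit 169) (nat_lit 1) (nat_lit 5) (nat_lit 2) (nat_lit 7) (nat_lit 322) (nat_lit 309) r10_322 r1_309 (nat_lit 0) (nat_lit 0) (nat_lit 0) (nat_lit 0x8017985b4) (nat_lit 536870912)]
noncomputable def e28_44 : List Rx := [
  Rx.mk (nat_lit 41) (nat_lit 1) (nat_lit 5) (nat_lit 0) (nat_lit 3) (nat_lit 326) (nat_lit 194) r10_326 r8_194 (nat_lit 0) (nat_lit 0) (nat_lit 24741287) (nat_lit 0x8017985b4) (nat_lit 561612199),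
  Rx.mk (nat_lit 105) (nat_lit 1) (nat_lit 5) (nat_lit 1) (nat_lit 7) (nat_lit 327) (nat_lit 195) r10_327 r8_195 (nat_lit 0) (nat_lit 0) (nat_lit 0) (nat_lit 0x8017985b4) (nat_lit 536870912),
  Rx.mk (nat_lit 137) (nat_lit 1) (nat_lit 1) (nat_lit 2) (nat_lit 7) (nat_lit 325) (nat_lit 197) r10_325 r8_197 (nat_lit 0) (nat_lit 0) (nat_lit 0) (nat_lit 0x8017985b4) (nat_lit 536870912),
  Rx.mk (nat_lit 169) (nat_lit 1) (nat_lit 5) (nat_lit 2) (nat_lit 7) (nat_lit 328) (nat_lit 196) r10_328 r8_196 (nat_lit 0) (nat_lit 0) (nat_lit 0) (nat_lit 0x8017985b4) (nat_lit 536870912)]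
noncomputable def e28_45 : List Rx := [
  Rx.mk (nat_lit 136) (nat_lit 0) (nat_lit 1) (nat_lit 2) (nat_lit 6) (nat_lit 314) (nat_lit 217) r10_314 r1_217 (nat_lit 25153554) (nat_lit 0) (nat_lit 0) (nat_lit 0x80e8b8eaa) (nat_lit 549278466),
  Rx.mk (nat_lit 138) (nat_lit 2) (nat_lit 1) (nat_lit 2) (nat_lit 7) (nat_lit 315) (nat_lit 219) r10_315 r1_219 (nat_lit 0) (nat_lit 0) (nat_lit 0) (nat_lit 0x81b14ef04) (nat_lit 511970262),
  Rx.mk (nat_lit 139) (nat_lit 3) (nat_lit 1) (nat_lit 2) (nat_lit 7) (nat_lit 316) (nat_lit 218) r10_316 r1_218 (nat_lit 0) (nat_lit 0) (nat_lit 0) (nat_lit 0x8017985b4) (nat_lit 536870912)]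
noncomputable def e28_46 : List Rx := [
  Rx.mk (nat_lit 128) (nat_lit 0) (nat_lit 0) (nat_lit 2) (nat_lit 4) (nat_lit 292) (nat_lit 230) r10_292 r2_230 (nat_lit 10828370) (nat_lit 13507056) (nat_lit 0) (nat_lit 0x67d645c8c) (nat_lit 952582088),
  Rx.mk (nat_lit 130) (nat_lit 2) (nat_lit 0) (nat_lit 2) (nat_lit 5) (nat_lit 293) (nat_lit 235) r10_293 r2_235 (nat_lit 0) (nat_lit 24741287) (nat_lit 0) (nat_lit 0x8017985b4) (nat_lit 561612199),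
  Rx.mk (nat_lit 131) (nat_lit 3) (nat_lit 0) (nat_lit 2) (nat_lit 5) (nat_lit 294) (nat_lit 232) r10_294 r2_232 (nat_lit 0) (nat_lit 26181532) (nat_lit 0) (nat_lit 0x7fe1525fe) (nat_lit 566368444),
  Rx.mk (nat_lit 136) (nat_lit 0) (nat_lit 1) (nat_lit 2) (nat_lit 6) (nat_lit 295) (nat_lit 231) r10_295 r2_231 (nat_lit 24741287) (nat_lit 0) (nat_lit 0) (nat_lit 0x8017985b4) (nat_lit 561612199),
  Rx.mk (nat_lit 138) (nat_lit 2) (nat_lit 1) (nat_lit 2) (nat_lit 7) (nat_lit 296) (nat_lit 236) r10_296 r2_236 (nat_lit 0) (nat_lit 0) (nat_lit 0) (nat_lit 0x8017985b4) (nat_lit 536870912),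
  Rx.mk (nat_lit 139) (nat_lit 3) (nat_lit 1) (nat_lit 2) (nat_lit 7) (nat_lit 297) (nat_lit 233) r10_297 r2_233 (nat_lit 0) (nat_lit 0) (nat_lit 0) (nat_lit 0x8017985b4) (nat_lit 536870912),
  Rx.mk (nat_lit 155) (nat_lit 3) (nat_lit 3) (nat_lit 2) (nat_lit 7) (nat_lit 298) (nat_lit 234) r10_298 r2_234 (nat_lit 0) (nat_lit 0) (nat_lit 0) (nat_lit 0x8017985b4) (nat_lit 536870912)]
noncomputable def e28_47 : List Rx := [
  Rx.mk (nat_lit 136) (nat_lit 0) (nat_lit 1) (nat_lit 2) (nat_lit 6) (nat_lit 317) (nat_lit 355) r10_317 r8_355 (nat_lit 24634759) (nat_lit 0) (nat_lit 0) (nat_lit 0x800b33de6) (nat_lit 562264771),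
  Rx.mk (nat_lit 137) (nat_lit 1) (nat_lit 1) (nat_lit 2) (nat_lit 7) (nat_lit 318) (nat_lit 356) r10_318 r8_356 (nat_lit 0) (nat_lit 0) (nat_lit 0) (nat_lit 0x8017985b4) (nat_lit 536870912),
  Rx.mk (nat_lit 138) (nat_lit 2) (nat_lit 1) (nat_lit 2) (nat_lit 7) (nat_lit 319) (nat_lit 357) r10_319 r8_357 (nat_lit 0) (nat_lit 0) (nat_lit 0) (nat_lit 0x8017985b4) (nat_lit 536870912)]
noncomputable def e28_48 : List Rx := [
  Rx.mk (nat_lit 128) (nat_lit 0) (nat_lit 0) (nat_lit 2) (nat_lit 4) (nat_lit 299) (nat_lit 209) r10_299 r9_209 (nat_lit 34942940) (nat_lit 65106199) (nat_lit 0) (nat_lit 0x66b1feea6) (nat_lit 1046829251),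
  Rx.mk (nat_lit 130) (nat_lit 2) (nat_lit 0) (nat_lit 2) (nat_lit 5) (nat_lit 300) (nat_lit 212) r10_300 r9_212 (nat_lit 0) (nat_lit 24741287) (nat_lit 0) (nat_lit 0x8017985b4) (nat_lit 561612199),
  Rx.mk (nat_lit 136) (nat_lit 0) (nat_lit 1) (nat_lit 2) (nat_lit 6) (nat_lit 301) (nat_lit 210) r10_301 r9_210 (nat_lit 25290688) (nat_lit 0) (nat_lit 0) (nat_lit 0x800987e2a) (nat_lit 563020650),
  Rx.mk (nat_lit 137) (nat_lit 1) (nat_lit 1) (nat_lit 2) (nat_lit 7) (nat_lit 302) (nat_lit 211) r10_302 r9_211 (nat_lit 0) (nat_lit 0) (nat_lit 0) (nat_lit 0x8017985b4) (nat_lit 536870912),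
  Rx.mk (nat_lit 138) (nat_lit 2) (nat_lit 1) (nat_lit 2) (nat_lit 7) (nat_lit 303) (nat_lit 213) r10_303 r9_213 (nat_lit 0) (nat_lit 0) (nat_lit 0) (nat_lit 0x8017985b4) (nat_lit 536870912)]
noncomputable def e28_49 : List Rx := [
  Rx.mk (nat_lit 128) (nat_lit 0) (nat_lit 0) (nat_lit 2) (nat_lit 4) (nat_lit 304) (nat_lit 136) r10_304 r9_136 (nat_lit 28731315) (nat_lit 40997444) (nat_lit 0) (nat_lit 0x62fe769f4) (nat_lit 1076357921),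
  Rx.mk (nat_lit 130) (nat_lit 2) (nat_lit 0) (nat_lit 2) (nat_lit 5) (nat_lit 305) (nat_lit 141) r10_305 r9_141 (nat_lit 0) (nat_lit 24741287) (nat_lit 0) (nat_lit 0x7fcd6a76c) (nat_lit 566141199),
  Rx.mk (nat_lit 131) (nat_lit 3) (nat_lit 0) (nat_lit 2) (nat_lit 5) (nat_lit 307) (nat_lit 138) r10_307 r9_138 (nat_lit 0) (nat_lit 25252468) (nat_lit 0) (nat_lit 0x7fd0be0b2) (nat_lit 566460430),
  Rx.mk (nat_lit 136) (nat_lit 0) (nat_lit 1) (nat_lit 2) (nat_lit 6) (nat_lit 308) (nat_lit 137) r10_308 r9_137 (nat_lit 24741287) (nat_lit 0) (nat_lit 0) (nat_lit 0x8017985b4) (nat_lit 561612199),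
  Rx.mk (nat_lit 138) (nat_lit 2) (nat_lit 1) (nat_lit 2) (nat_lit 7) (nat_lit 309) (nat_lit 142) r10_309 r9_142 (nat_lit 0) (nat_lit 0) (nat_lit 0) (nat_lit 0x8017985b4) (nat_lit 536870912),
  Rx.mk (nat_lit 139) (nat_lit 3) (nat_lit 1) (nat_lit 2) (nat_lit 7) (nat_lit 311) (nat_lit 139) r10_311 r9_139 (nat_lit 0) (nat_lit 0) (nat_lit 0) (nat_lit 0x8017985b4) (nat_lit 536870912),
  Rx.mk (nat_lit 155) (nat_lit 3) (nat_lit 3) (nat_lit 2) (nat_lit 7) (nat_lit 313) (nat_lit 140) r10_313 r9_140 (nat_lit 0) (nat_lit 0) (nat_lit 0) (nat_lit 0x8017985b4) (nat_lit 536870912),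
  Rx.mk (nat_lit 386) (nat_lit 2) (nat_lit 0) (nat_lit 6) (nat_lit 5) (nat_lit 306) (nat_lit 143) r10_306 r9_143 (nat_lit 0) (nat_lit 24741287) (nat_lit 0) (nat_lit 0x7fffebc7c) (nat_lit 563058399),
  Rx.mk (nat_lit 394) (nat_lit 2) (nat_lit 1) (nat_lit 6) (nat_lit 7) (nat_lit 310) (nat_lit 144) r10_310 r9_144 (nat_lit 0) (nat_lit 0) (nat_lit 0) (nat_lit 0x8017985b4) (nat_lit 536870912),
  Rx.mk (nat_lit 402) (nat_lit 2) (nat_lit 2) (nat_lit 6) (nat_lit 7) (nat_lit 312) (nat_lit 145) r10_312 r9_145 (nat_lit 0) (nat_lit 0) (nat_lit 0) (nat_lit 0x8017985b4) (nat_lit 536870912)]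
noncomputable def e28_50 : List Rx := [
  Rx.mk (nat_lit 40) (nat_lit 0) (nat_lit 5) (nat_lit 0) (nat_lit 2) (nat_lit 333) (nat_lit 180) r10_333 r3_180 (nat_lit 167695) (nat_lit 0) (nat_lit 197362) (nat_lit 0x640a65476) (nat_lit 989404669),
  Rx.mk (nat_lit 43) (nat_lit 3) (nat_lit 5) (nat_lit 0) (nat_lit 3) (nat_lit 336) (nat_lit 183) r10_336 r3_183 (nat_lit 0) (nat_lit 0) (nat_lit 1486174) (nat_lit 0x82dc4fb94) (nat_lit 495172786),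
  Rx.mk (nat_lit 104) (nat_lit 0) (nat_lit 5) (nat_lit 1) (nat_lit 6) (nat_lit 334) (nat_lit 181) r10_334 r3_181 (nat_lit 24741287) (nat_lit 0) (nat_lit 0) (nat_lit 0x8017985b4) (nat_lit 561612199),
  Rx.mk (nat_lit 107) (nat_lit 3) (nat_lit 5) (nat_lit 1) (nat_lit 7) (nat_lit 337) (nat_lit 184) r10_337 r3_184 (nat_lit 0) (nat_lit 0) (nat_lit 0) (nat_lit 0x8428b5dde) (nat_lit 474166012),
  Rx.mk (nat_lit 168) (nat_lit 0) (nat_lit 5) (nat_lit 2) (nat_lit 6) (nat_lit 335) (nat_lit 182) r10_335 r3_182 (nat_lit 50053958) (nat_lit 0) (nat_lit 0) (nat_lit 0x7eff903aa) (nat_lit 604233320),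
  Rx.mk (nat_lit 171) (nat_lit 3) (nat_lit 5) (nat_lit 2) (nat_lit 7) (nat_lit 338) (nat_lit 185) r10_338 r3_185 (nat_lit 0) (nat_lit 0) (nat_lit 0) (nat_lit 0x8428a6758) (nat_lit 474169612)]
noncomputable def e28_51 : List Rx := [
  Rx.mk (nat_lit 40) (nat_lit 0) (nat_lit 5) (nat_lit 0) (nat_lit 2) (nat_lit 351) (nat_lit 181) r10_351 r4_181 (nat_lit 12084870) (nat_lit 0) (nat_lit 11415403) (nat_lit 0x6331c3eb0) (nat_lit 1026799885),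
  Rx.mk (nat_lit 43) (nat_lit 3) (nat_lit 5) (nat_lit 0) (nat_lit 3) (nat_lit 354) (nat_lit 184) r10_354 r4_184 (nat_lit 0) (nat_lit 0) (nat_lit 10881583) (nat_lit 0x80aa66698) (nat_lit 538695745),
  Rx.mk (nat_lit 104) (nat_lit 0) (nat_lit 5) (nat_lit 1) (nat_lit 6) (nat_lit 352) (nat_lit 182) r10_352 r4_182 (nat_lit 21073453) (nat_lit 0) (nat_lit 0) (nat_lit 0x8042207e6) (nat_lit 555329265),
  Rx.mk (nat_lit 107) (nat_lit 3) (nat_lit 5) (nat_lit 1) (nat_lit 7) (nat_lit 355) (nat_lit 185) r10_355 r4_185 (nat_lit 0) (nat_lit 0) (nat_lit 0) (nat_lit 0x80a823854) (nat_lit 528019812),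
  Rx.mk (nat_lit 139) (nat_lit 3) (nat_lit 1) (nat_lit 2) (nat_lit 7) (nat_lit 350) (nat_lit 187) r10_350 r4_187 (nat_lit 0) (nat_lit 0) (nat_lit 0) (nat_lit 0x8017985b4) (nat_lit 536870912),
  Rx.mk (nat_lit 168) (nat_lit 0) (nat_lit 5) (nat_lit 2) (nat_lit 6) (nat_lit 353) (nat_lit 183) r10_353 r4_183 (nat_lit 23202415) (nat_lit 0) (nat_lit 0) (nat_lit 0x7faaa218a) (nat_lit 566751477),
  Rx.mk (nat_lit 171) (nat_lit 3) (nat_lit 5) (nat_lit 2) (nat_lit 7) (nat_lit 356) (nat_lit 186) r10_356 r4_186 (nat_lit 0) (nat_lit 0) (nat_lit 0) (nat_lit 0x80a823516) (nat_lit 528019862)]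
noncomputable def e28_52 : List Rx := [
  Rx.mk (nat_lit 40) (nat_lit 0) (nat_lit 5) (nat_lit 0) (nat_lit 2) (nat_lit 369) (nat_lit 197) r10_369 r5_197 (nat_lit 11835146) (nat_lit 0) (nat_lit 4889214) (nat_lit 0x6ab7fa806) (nat_lit 898281722),
  Rx.mk (nat_lit 43) (nat_lit 3) (nat_lit 5) (nat_lit 0) (nat_lit 3) (nat_lit 371) (nat_lit 199) r10_371 r5_199 (nat_lit 0) (nat_lit 0) (nat_lit 5323301) (nat_lit 0x821784ed6) (nat_lit 511046163),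
  Rx.mk (nat_lit 168) (nat_lit 0) (nat_lit 5) (nat_lit 2) (nat_lit 6) (nat_lit 370) (nat_lit 198) r10_370 r5_198 (nat_lit 24741287) (nat_lit 0) (nat_lit 0) (nat_lit 0x7fb2f649e) (nat_lit 567798249),
  Rx.mk (nat_lit 171) (nat_lit 3) (nat_lit 5) (nat_lit 2) (nat_lit 7) (nat_lit 372) (nat_lit 201) r10_372 r5_201 (nat_lit 0) (nat_lit 0) (nat_lit 0) (nat_lit 0x80ff5f960) (nat_lit 522714412),
  Rx.mk (nat_lit 235) (nat_lit 3) (nat_lit 5) (nat_lit 3) (nat_lit 7) (nat_lit 373) (nat_lit 200) r10_373 r5_200 (nat_lit 0) (nat_lit 0) (nat_lit 0) (nat_lit 0x8017985b4) (nat_lit 536870912)]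
noncomputable def e28_53 : List Rx := [
  Rx.mk (nat_lit 40) (nat_lit 0) (nat_lit 5) (nat_lit 0) (nat_lit 2) (nat_lit 339) (nat_lit 355) r10_339 r4_355 (nat_lit 46258346) (nat_lit 0) (nat_lit 35822015) (nat_lit 0x73116d7f0) (nat_lit 828766423),
  Rx.mk (nat_lit 41) (nat_lit 1) (nat_lit 5) (nat_lit 0) (nat_lit 3) (nat_lit 342) (nat_lit 356) r10_342 r4_356 (nat_lit 0) (nat_lit 0) (nat_lit 24741287) (nat_lit 0x801405032) (nat_lit 561834699),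
  Rx.mk (nat_lit 43) (nat_lit 3) (nat_lit 5) (nat_lit 0) (nat_lit 3) (nat_lit 345) (nat_lit 357) r10_345 r4_357 (nat_lit 0) (nat_lit 0) (nat_lit 25246541) (nat_lit 0x7fe66bc2a) (nat_lit 565123853),
  Rx.mk (nat_lit 104) (nat_lit 0) (nat_lit 5) (nat_lit 1) (nat_lit 6) (nat_lit 340) (nat_lit 358) r10_340 r4_358 (nat_lit 24741287) (nat_lit 0) (nat_lit 0) (nat_lit 0x8017985b4) (nat_lit 561612199),
  Rx.mk (nat_lit 105) (nat_lit 1) (nat_lit 5) (nat_lit 1) (nat_lit 7) (nat_lit 343) (nat_lit 359) r10_343 r4_359 (nat_lit 0) (nat_lit 0) (nat_lit 0) (nat_lit 0x8017985b4) (nat_lit 536870912),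
  Rx.mk (nat_lit 107) (nat_lit 3) (nat_lit 5) (nat_lit 1) (nat_lit 7) (nat_lit 346) (nat_lit 360) r10_346 r4_360 (nat_lit 0) (nat_lit 0) (nat_lit 0) (nat_lit 0x8017985b4) (nat_lit 536870912),
  Rx.mk (nat_lit 168) (nat_lit 0) (nat_lit 5) (nat_lit 2) (nat_lit 6) (nat_lit 341) (nat_lit 361) r10_341 r4_361 (nat_lit 28199854) (nat_lit 0) (nat_lit 0) (nat_lit 0x800201570) (nat_lit 566376116),
  Rx.mk (nat_lit 169) (nat_lit 1) (nat_lit 5) (nat_lit 2) (nat_lit 7) (nat_lit 344) (nat_lit 362) r10_344 r4_362 (nat_lit 0) (nat_lit 0) (nat_lit 0) (nat_lit 0x8017985b4) (nat_lit 536870912)]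
noncomputable def e28_54 : List Rx := [
  Rx.mk (nat_lit 40) (nat_lit 0) (nat_lit 5) (nat_lit 0) (nat_lit 2) (nat_lit 357) (nat_lit 198) r10_357 r10_198 (nat_lit 16509364) (nat_lit 0) (nat_lit 16509364) (nat_lit 0x6644d8d22) (nat_lit 986668290),
  Rx.mk (nat_lit 41) (nat_lit 1) (nat_lit 5) (nat_lit 0) (nat_lit 3) (nat_lit 360) (nat_lit 201) r10_360 r10_201 (nat_lit 0) (nat_lit 0) (nat_lit 24741287) (nat_lit 0x8017985b4) (nat_lit 561612199),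
  Rx.mk (nat_lit 43) (nat_lit 3) (nat_lit 5) (nat_lit 0) (nat_lit 3) (nat_lit 363) (nat_lit 204) r10_363 r10_204 (nat_lit 0) (nat_lit 0) (nat_lit 24741287) (nat_lit 0x8017985b4) (nat_lit 561612199),
  Rx.mk (nat_lit 104) (nat_lit 0) (nat_lit 5) (nat_lit 1) (nat_lit 6) (nat_lit 358) (nat_lit 199) r10_358 r10_199 (nat_lit 24741287) (nat_lit 0) (nat_lit 0) (nat_lit 0x8017985b4) (nat_lit 561612199),
  Rx.mk (nat_lit 105) (nat_lit 1) (nat_lit 5) (nat_lit 1) (nat_lit 7) (nat_lit 361) (nat_lit 202) r10_361 r10_202 (nat_lit 0) (nat_lit 0) (nat_lit 0) (nat_lit 0x8017985b4) (nat_lit 536870912),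
  Rx.mk (nat_lit 107) (nat_lit 3) (nat_lit 5) (nat_lit 1) (nat_lit 7) (nat_lit 364) (nat_lit 205) r10_364 r10_205 (nat_lit 0) (nat_lit 0) (nat_lit 0) (nat_lit 0x8017985b4) (nat_lit 536870912),
  Rx.mk (nat_lit 168) (nat_lit 0) (nat_lit 5) (nat_lit 2) (nat_lit 6) (nat_lit 359) (nat_lit 200) r10_359 r10_200 (nat_lit 24741287) (nat_lit 0) (nat_lit 0) (nat_lit 0x8017985b4) (nat_lit 561612199),
  Rx.mk (nat_lit 169) (nat_lit 1) (nat_lit 5) (nat_lit 2) (nat_lit 7) (nat_lit 362) (nat_lit 203) r10_362 r10_203 (nat_lit 0) (nat_lit 0) (nat_lit 0) (nat_lit 0x8017985b4) (nat_lit 536870912)]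
noncomputable def e28_55 : List Rx := [
  Rx.mk (nat_lit 40) (nat_lit 0) (nat_lit 5) (nat_lit 0) (nat_lit 2) (nat_lit 374) (nat_lit 230) r10_374 r11_230 (nat_lit 53187078) (nat_lit 0) (nat_lit 29967916) (nat_lit 0x781c132b8) (nat_lit 748379156),
  Rx.mk (nat_lit 41) (nat_lit 1) (nat_lit 5) (nat_lit 0) (nat_lit 3) (nat_lit 376) (nat_lit 232) r10_376 r11_232 (nat_lit 0) (nat_lit 0) (nat_lit 24741287) (nat_lit 0x8017985b4) (nat_lit 561612199),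
  Rx.mk (nat_lit 43) (nat_lit 3) (nat_lit 5) (nat_lit 0) (nat_lit 3) (nat_lit 378) (nat_lit 234) r10_378 r11_234 (nat_lit 0) (nat_lit 0) (nat_lit 24741287) (nat_lit 0x8017985b4) (nat_lit 561612199),
  Rx.mk (nat_lit 168) (nat_lit 0) (nat_lit 5) (nat_lit 2) (nat_lit 6) (nat_lit 375) (nat_lit 231) r10_375 r11_231 (nat_lit 24741287) (nat_lit 0) (nat_lit 0) (nat_lit 0x8017985b4) (nat_lit 561612199),
  Rx.mk (nat_lit 169) (nat_lit 1) (nat_lit 5) (nat_lit 2) (nat_lit 7) (nat_lit 377) (nat_lit 233) r10_377 r11_233 (nat_lit 0) (nat_lit 0) (nat_lit 0) (nat_lit 0x8017985b4) (nat_lit 536870912),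
  Rx.mk (nat_lit 235) (nat_lit 3) (nat_lit 5) (nat_lit 3) (nat_lit 7) (nat_lit 379) (nat_lit 235) r10_379 r11_235 (nat_lit 0) (nat_lit 0) (nat_lit 0) (nat_lit 0x8017985b4) (nat_lit 536870912)]
noncomputable def e28_56 : List Rx := [
  Rx.mk (nat_lit 43) (nat_lit 3) (nat_lit 5) (nat_lit 0) (nat_lit 3) (nat_lit 347) (nat_lit 307) r10_347 r5_307 (nat_lit 0) (nat_lit 0) (nat_lit 11477207) (nat_lit 0x7fc2367ba) (nat_lit 553442619),
  Rx.mk (nat_lit 107) (nat_lit 3) (nat_lit 5) (nat_lit 1) (nat_lit 7) (nat_lit 348) (nat_lit 308) r10_348 r5_308 (nat_lit 0) (nat_lit 0) (nat_lit 0) (nat_lit 0x80b9b4848) (nat_lit 526949812),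
  Rx.mk (nat_lit 171) (nat_lit 3) (nat_lit 5) (nat_lit 2) (nat_lit 7) (nat_lit 349) (nat_lit 309) r10_349 r5_309 (nat_lit 0) (nat_lit 0) (nat_lit 0) (nat_lit 0x80b9b154e) (nat_lit 526950562)]
noncomputable def e28_57 : List Rx := [
  Rx.mk (nat_lit 43) (nat_lit 3) (nat_lit 5) (nat_lit 0) (nat_lit 3) (nat_lit 366) (nat_lit 361) r10_366 r11_361 (nat_lit 0) (nat_lit 0) (nat_lit 20709188) (nat_lit 0x804c96cf2) (nat_lit 554327950),
  Rx.mk (nat_lit 107) (nat_lit 3) (nat_lit 5) (nat_lit 1) (nat_lit 7) (nat_lit 367) (nat_lit 362) r10_367 r11_362 (nat_lit 0) (nat_lit 0) (nat_lit 0) (nat_lit 0x8017985b4) (nat_lit 536870912),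
  Rx.mk (nat_lit 139) (nat_lit 3) (nat_lit 1) (nat_lit 2) (nat_lit 7) (nat_lit 365) (nat_lit 360) r10_365 r11_360 (nat_lit 0) (nat_lit 0) (nat_lit 0) (nat_lit 0x8017985b4) (nat_lit 536870912),
  Rx.mk (nat_lit 171) (nat_lit 3) (nat_lit 5) (nat_lit 2) (nat_lit 7) (nat_lit 368) (nat_lit 363) r10_368 r11_363 (nat_lit 0) (nat_lit 0) (nat_lit 0) (nat_lit 0x8017985b4) (nat_lit 536870912)]
noncomputable def e28 : List (List Rx) := [e28_0, e28_1, e28_2, e28_3, e28_4, e28_5, e28_6, e28_7, e28_8, e28_9, e28_10, e28_11, e28_12, e28_13, e28_14, e28_15, e28_16, e28_17, e28_18, e28_19, e28_20, e28_21, e28_22, e28_23, e28_24, e28_25, e28_26, e28_27, e28_28, e28_29, e28_30, e28_31, e28_32, e28_33, e28_34, e28_35, e28_36, e28_37, e28_38, e28_39, e28_40, e28_41, e28_42, e28_43, e28_44, e28_45, e28_46, e28_47, e28_48, e28_49, e28_50, e28_51, e28_52, e28_53, e28_54, e28_55, e28_56,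 e28_57]

end Pool.Agent.AKXS_24_34_V1
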