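import Pool.Agent.AKXS_24_34_V1.R0
import Pool.Agent.AKXS_24_34_V1.R1
import Pool.Agent.AKXS_24_34_V1.R2
import Pool.Agent.AKXS_24_34_V1.R3
import Pool.Agent.AKXS_24_34_V1.R4
import Pool.Agent.AKXS_24_34_V1.R5
import Pool.Agent.AKXS_24_34_V1.R6
import Pool.Agent.AKXS_24_34_V1.R7
import Pool.Agent.AKXS_24_34_V1.R8
import Pool.Agent.AKXS_24_34_V1.R9
import Pool.Agent.AKXS_24_34_V1.R10
import Pool.Agent.AKXS_24_34_V1.R11
import Pool.Agent.AKXS_24_34_V1.R12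

set_option autoImplicit false

namespace Pool.Agent.AKXS_24_34_V1

open Pool.Agent.AKX Pool.Agent.AKU

noncomputable def e29_0 : List Rx := [
  Rx.mk (nat_lit 100) (nat_lit 4) (nat_lit 4) (nat_lit 1) (nat_lit 4) (nat_lit 37) (nat_lit 200) r11_37 r0_200 (nat_lit 46723193) (nat_lit 75082556) (nat_lit 0) (nat_lit 0x67eb4628a) (nat_lit 1048737861),
  Rx.mk (nat_lit 108) (nat_lit 4) (nat_lit 5) (nat_lit 1) (nat_lit 6) (nat_lit 38) (nat_lit 201) r11_38 r0_201 (nat_lit 24741287) (nat_lit 0) (nat_lit 0) (nat_lit 0x80790da56) (nat_lit 555628299),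
  Rx.mk (nat_lit 116) (nat_lit 4) (nat_lit 6) (nat_lit 1) (nat_lit 6) (nat_lit 39) (nat_lit 202) r11_39 r0_202 (nat_lit 41103109) (nat_lit 0) (nat_lit 0) (nat_lit 0x7fd7cf8c4) (nat_lit 581741021),
  Rx.mk (nat_lit 118) (nat_lit 6) (nat_lit 6) (nat_lit 1) (nat_lit 7) (nat_lit 40) (nat_lit 203) r11_40 r0_203 (nat_lit 0) (nat_lit 0) (nat_lit 0) (nat_lit 0x820bd8c36) (nat_lit 506517062)]
noncomputable def e29_1 : List Rx := [
  Rx.mk (nat_lit 100) (nat_lit 4) (nat_lit 4) (nat_lit 1) (nat_lit 4) (nat_lit 41) (nat_lit 220) r11_41 r1_220 (nat_lit 132640855) (nat_lit 107908680) (nat_lit 0) (nat_lit 0x75cd0e8fe) (nat_lit 943069347),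
  Rx.mk (nat_lit 108) (nat_lit 4) (nat_lit 5) (nat_lit 1) (nat_lit 6) (nat_lit 42) (nat_lit 221) r11_42 r1_221 (nat_lit 24741287) (nat_lit 0) (nat_lit 0) (nat_lit 0x80394da56) (nat_lit 559537749),
  Rx.mk (nat_lit 116) (nat_lit 4) (nat_lit 6) (nat_lit 1) (nat_lit 6) (nat_lit 43) (nat_lit 222) r11_43 r1_222 (nat_lit 27280081) (nat_lit 0) (nat_lit 0) (nat_lit 0x7ff4c6252) (nat_lit 566171843),
  Rx.mk (nat_lit 118) (nat_lit 6) (nat_lit 6) (nat_lit 1) (nat_lit 7) (nat_lit 44) (nat_lit 223) r11_44 r1_223 (nat_lit 0) (nat_lit 0) (nat_lit 0) (nat_lit 0x814af5f1e) (nat_lit 518142212),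
  Rx.mk (nat_lit 374) (nat_lit 6) (nat_lit 6) (nat_lit 5) (nat_lit 7) (nat_lit 45) (nat_lit 224) r11_45 r1_224 (nat_lit 0) (nat_lit 0) (nat_lit 0) (nat_lit 0x808a832cc) (nat_lit 529822112)]
noncomputable def e29_2 : List Rx := [
  Rx.mk (nat_lit 374) (nat_lit 6) (nat_lit 6) (nat_lit 5) (nat_lit 7) (nat_lit 5) (nat_lit 237) r11_5 r2_237 (nat_lit 0) (nat_lit 0) (nat_lit 0) (nat_lit 0x8017985b4) (nat_lit 536870912)]
noncomputable def e29_3 : List Rx := [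
  Rx.mk (nat_lit 36) (nat_lit 4) (nat_lit 4) (nat_lit 0) (nat_lit 0) (nat_lit 19) (nat_lit 186) r11_19 r3_186 (nat_lit 132111) (nat_lit 122716) (nat_lit 96674) (nat_lit 0x497316d28) (nat_lit 1419374513),
  Rx.mk (nat_lit 39) (nat_lit 7) (nat_lit 4) (nat_lit 0) (nat_lit 1) (nat_lit 22) (nat_lit 194) r11_22 r3_194 (nat_lit 0) (nat_lit 5090553) (nat_lit 4459709) (nat_lit 0x6f5ae93ec) (nat_lit 816096324),
  Rx.mk (nat_lit 44) (nat_lit 4) (nat_lit 5) (nat_lit 0) (nat_lit 2) (nat_lit 25) (nat_lit 189) r11_25 r3_189 (nat_lit 1291523) (nat_lit 0) (nat_lit 3284544) (nat_lit 0x652f21fd4) (nat_lit 975280179),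
  Rx.mk (nat_lit 47) (nat_lit 7) (nat_lit 5) (nat_lit 0) (nat_lit 3) (nat_lit 28) (nat_lit 197) r11_28 r3_197 (nat_lit 0) (nat_lit 0) (nat_lit 13146689) (nat_lit 0x808dd2f86) (nat_lit 542691851),
  Rx.mk (nat_lit 52) (nat_lit 4) (nat_lit 6) (nat_lit 0) (nat_lit 2) (nat_lit 31) (nat_lit 192) r11_31 r3_192 (nat_lit 138609354) (nat_lit 0) (nat_lit 849840) (nat_lit 0x69d7f337a) (nat_lit 1034816656),
  Rx.mk (nat_lit 54) (nat_lit 6) (nat_lit 6) (nat_lit 0) (nat_lit 3) (nat_lit 33) (nat_lit 202) r11_33 r3_202 (nat_lit 0) (nat_lit 0) (nat_lit 22698438) (nat_lit 0x801e644f6) (nat_lit 559143350),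
  Rx.mk (nat_lit 55) (nat_lit 7) (nat_lit 6) (nat_lit 0) (nat_lit 3) (nat_lit 35) (nat_lit 200) r11_35 r3_200 (nat_lit 0) (nat_lit 0) (nat_lit 13744676) (nat_lit 0x808aa0700) (nat_lit 543529688),
  Rx.mk (nat_lit 100) (nat_lit 4) (nat_lit 4) (nat_lit 1) (nat_lit 4) (nat_lit 20) (nat_lit 187) r11_20 r3_187 (nat_lit 18566817) (nat_lit 29295655) (nat_lit 0) (nat_lit 0x6eb4eea14) (nat_lit 865039884),
  Rx.mk (nat_lit 103) (nat_lit 7) (nat_lit 4) (nat_lit 1) (nat_lit 5) (nat_lit 23) (nat_lit 195) r11_23 r3_195 (nat_lit 0) (nat_lit 14431981) (nat_lit 0) (nat_lit 0x80cd30a02) (nat_lit 540176893),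
  Rx.mk (nat_lit 108) (nat_lit 4) (nat_lit 5) (nat_lit 1) (nat_lit 6) (nat_lit 26) (nat_lit 190) r11_26 r3_190 (nat_lit 24741287) (nat_lit 0) (nat_lit 0) (nat_lit 0x8017985b4) (nat_lit 561612199),
  Rx.mk (nat_lit 111) (nat_lit 7) (nat_lit 5) (nat_lit 1) (nat_lit 7) (nat_lit 29) (nat_lit 198) r11_29 r3_198 (nat_lit 0) (nat_lit 0) (nat_lit 0) (nat_lit 0x8017985b4) (nat_lit 536870912),
  Rx.mk (nat_lit 116) (nat_lit 4) (nat_lit 6) (nat_lit 1) (nat_lit 6) (nat_lit 32) (nat_lit 193) r11_32 r3_193 (nat_lit 29915179) (nat_lit 0) (nat_lit 0) (nat_lit 0x7fe911db2) (nat_lit 569577941),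
  Rx.mk (nat_lit 118) (nat_lit 6) (nat_lit 6) (nat_lit 1) (nat_lit 7) (nat_lit 34) (nat_lit 203) r11_34 r3_203 (nat_lit 0) (nat_lit 0) (nat_lit 0) (nat_lit 0x8017985b4) (nat_lit 536870912),
  Rx.mk (nat_lit 119) (nat_lit 7) (nat_lit 6) (nat_lit 1) (nat_lit 7) (nat_lit 36) (nat_lit 201) r11_36 r3_201 (nat_lit 0) (nat_lit 0) (nat_lit 0) (nat_lit 0x8017985b4) (nat_lit 536870912),
  Rx.mk (nat_lit 164) (nat_lit 4) (nat_lit 4) (nat_lit 2) (nat_lit 4) (nat_lit 21) (nat_lit 188) r11_21 r3_188 (nat_lit 41499232) (nat_lit 24848889) (nat_lit 0) (nat_lit 0x75df8e2a4) (nat_lit 767700883),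
  Rx.mk (nat_lit 167) (nat_lit 7) (nat_lit 4) (nat_lit 2) (nat_lit 5) (nat_lit 24) (nat_lit 196) r11_24 r3_196 (nat_lit 0) (nat_lit 10849071) (nat_lit 0) (nat_lit 0x7fc617ece) (nat_lit 552588333),
  Rx.mk (nat_lit 172) (nat_lit 4) (nat_lit 5) (nat_lit 2) (nat_lit 6) (nat_lit 27) (nat_lit 191) r11_27 r3_191 (nat_lit 22959846) (nat_lit 0) (nat_lit 0) (nat_lit 0x7f72d2be2) (nat_lit 569951908),
  Rx.mk (nat_lit 175) (nat_lit 7) (nat_lit 5) (nat_lit 2) (nat_lit 7) (nat_lit 30) (nat_lit 199) r11_30 r3_199 (nat_lit 0) (nat_lit 0) (nat_lit 0) (nat_lit 0x8017985b4) (nat_lit 536870912)]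
noncomputable def e29_4 : List Rx := [
  Rx.mk (nat_lit 100) (nat_lit 4) (nat_lit 4) (nat_lit 1) (nat_lit 4) (nat_lit 46) (nat_lit 188) r11_46 r4_188 (nat_lit 16806885) (nat_lit 33533154) (nat_lit 0) (nat_lit 0x78c402cc6) (nat_lit 704937351),
  Rx.mk (nat_lit 103) (nat_lit 7) (nat_lit 4) (nat_lit 1) (nat_lit 5) (nat_lit 47) (nat_lit 191) r11_47 r4_191 (nat_lit 0) (nat_lit 16749673) (nat_lit 0) (nat_lit 0x8060fd66e) (nat_lit 549095785),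
  Rx.mk (nat_lit 108) (nat_lit 4) (nat_lit 5) (nat_lit 1) (nat_lit 6) (nat_lit 48) (nat_lit 189) r11_48 r4_189 (nat_lit 24741287) (nat_lit 0) (nat_lit 0) (nat_lit 0x8017985b4) (nat_lit 561612199),
  Rx.mk (nat_lit 111) (nat_lit 7) (nat_lit 5) (nat_lit 1) (nat_lit 7) (nat_lit 49) (nat_lit 192) r11_49 r4_192 (nat_lit 0) (nat_lit 0) (nat_lit 0) (nat_lit 0x804ce505a) (nat_lit 533594662),
  Rx.mk (nat_lit 116) (nat_lit 4) (nat_lit 6) (nat_lit 1) (nat_lit 6) (nat_lit 50) (nat_lit 190) r11_50 r4_190 (nat_lit 26071655) (nat_lit 0) (nat_lit 0) (nat_lit 0x7fa9352f2) (nat_lit 569730517),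
  Rx.mk (nat_lit 118) (nat_lit 6) (nat_lit 6) (nat_lit 1) (nat_lit 7) (nat_lit 51) (nat_lit 194) r11_51 r4_194 (nat_lit 0) (nat_lit 0) (nat_lit 0) (nat_lit 0x8017985b4) (nat_lit 536870912),
  Rx.mk (nat_lit 119) (nat_lit 7) (nat_lit 6) (nat_lit 1) (nat_lit 7) (nat_lit 52) (nat_lit 193) r11_52 r4_193 (nat_lit 0) (nat_lit 0) (nat_lit 0) (nat_lit 0x804ce4d1c) (nat_lit 533594712)]
noncomputable def e29_5 : List Rx := [
  Rx.mk (nat_lit 36) (nat_lit 4) (nat_lit 4) (nat_lit 0) (nat_lit 0) (nat_lit 68) (nat_lit 202) r11_68 r5_202 (nat_lit 23484085) (nat_lit 5946457) (nat_lit 4773935) (nat_lit 0x49e63d70c) (nat_lit 1446456039),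
  Rx.mk (nat_lit 39) (nat_lit 7) (nat_lit 4) (nat_lit 0) (nat_lit 1) (nat_lit 72) (nat_lit 212) r11_72 r5_212 (nat_lit 0) (nat_lit 12323810) (nat_lit 8957018) (nat_lit 0x6eeac40b2) (nat_lit 835033290),
  Rx.mk (nat_lit 44) (nat_lit 4) (nat_lit 5) (nat_lit 0) (nat_lit 2) (nat_lit 75) (nat_lit 206) r11_75 r5_206 (nat_lit 41438793) (nat_lit 0) (nat_lit 35682471) (nat_lit 0x752101d04) (nat_lit 790555976),
  Rx.mk (nat_lit 47) (nat_lit 7) (nat_lit 5) (nat_lit 0) (nat_lit 3) (nat_lit 78) (nat_lit 215) r11_78 r5_215 (nat_lit 0) (nat_lit 0) (nat_lit 16307770) (nat_lit 0x8072222be) (nat_lit 547606132),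
  Rx.mk (nat_lit 52) (nat_lit 4) (nat_lit 6) (nat_lit 0) (nat_lit 2) (nat_lit 80) (nat_lit 209) r11_80 r5_209 (nat_lit 163052374) (nat_lit 0) (nat_lit 10516416) (nat_lit 0x79e792546) (nat_lit 809704152),
  Rx.mk (nat_lit 54) (nat_lit 6) (nat_lit 6) (nat_lit 0) (nat_lit 3) (nat_lit 83) (nat_lit 222) r11_83 r5_222 (nat_lit 0) (nat_lit 0) (nat_lit 20811975) (nat_lit 0x7fde627e0) (nat_lit 561177737),
  Rx.mk (nat_lit 55) (nat_lit 7) (nat_lit 6) (nat_lit 0) (nat_lit 3) (nat_lit 86) (nat_lit 220) r11_86 r5_220 (nat_lit 0) (nat_lit 0) (nat_lit 16204149) (nat_lit 0x809309fb8) (nat_lit 545503711),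
  Rx.mk (nat_lit 63) (nat_lit 7) (nat_lit 7) (nat_lit 0) (nat_lit 3) (nat_lit 88) (nat_lit 217) r11_88 r5_217 (nat_lit 0) (nat_lit 0) (nat_lit 24841657) (nat_lit 0x7dc3688d8) (nat_lit 598810569),
  Rx.mk (nat_lit 100) (nat_lit 4) (nat_lit 4) (nat_lit 1) (nat_lit 4) (nat_lit 69) (nat_lit 203) r11_69 r5_203 (nat_lit 55665677) (nat_lit 33768507) (nat_lit 0) (nat_lit 0x7ce62247e) (nat_lit 677311396),
  Rx.mk (nat_lit 103) (nat_lit 7) (nat_lit 4) (nat_lit 1) (nat_lit 5) (nat_lit 73) (nat_lit 213) r11_73 r5_213 (nat_lit 0) (nat_lit 18403732) (nat_lit 0) (nat_lit 0x8068f7d2e) (nat_lit 550276494),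
  Rx.mk (nat_lit 116) (nat_lit 4) (nat_lit 6) (nat_lit 1) (nat_lit 6) (nat_lit 81) (nat_lit 210) r11_81 r5_210 (nat_lit 24741287) (nat_lit 0) (nat_lit 0) (nat_lit 0x8036bdc00) (nat_lit 559695499),
  Rx.mk (nat_lit 118) (nat_lit 6) (nat_lit 6) (nat_lit 1) (nat_lit 7) (nat_lit 84) (nat_lit 223) r11_84 r5_223 (nat_lit 0) (nat_lit 0) (nat_lit 0) (nat_lit 0x8017985b4) (nat_lit 536870912),
  Rx.mk (nat_lit 119) (nat_lit 7) (nat_lit 6) (nat_lit 1) (nat_lit 7) (nat_lit 87) (nat_lit 221) r11_87 r5_221 (nat_lit 0) (nat_lit 0) (nat_lit 0) (nat_lit 0x8017985b4) (nat_lit 536870912),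
  Rx.mk (nat_lit 127) (nat_lit 7) (nat_lit 7) (nat_lit 1) (nat_lit 7) (nat_lit 89) (nat_lit 218) r11_89 r5_218 (nat_lit 0) (nat_lit 0) (nat_lit 0) (nat_lit 0x8017985b4) (nat_lit 536870912),
  Rx.mk (nat_lit 164) (nat_lit 4) (nat_lit 4) (nat_lit 2) (nat_lit 4) (nat_lit 70) (nat_lit 205) r11_70 r5_205 (nat_lit 43048303) (nat_lit 37783563) (nat_lit 0) (nat_lit 0x7dabdf81a) (nat_lit 656267928),
  Rx.mk (nat_lit 167) (nat_lit 7) (nat_lit 4) (nat_lit 2) (nat_lit 5) (nat_lit 74) (nat_lit 214) r11_74 r5_214 (nat_lit 0) (nat_lit 19699007) (nat_lit 0) (nat_lit 0x7fd8785be) (nat_lit 560420169),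
  Rx.mk (nat_lit 172) (nat_lit 4) (nat_lit 5) (nat_lit 2) (nat_lit 6) (nat_lit 76) (nat_lit 208) r11_76 r5_208 (nat_lit 24741287) (nat_lit 0) (nat_lit 0) (nat_lit 0x8017985b4) (nat_lit 561612199),
  Rx.mk (nat_lit 175) (nat_lit 7) (nat_lit 5) (nat_lit 2) (nat_lit 7) (nat_lit 79) (nat_lit 216) r11_79 r5_216 (nat_lit 0) (nat_lit 0) (nat_lit 0) (nat_lit 0x8017985b4) (nat_lit 536870912),
  Rx.mk (nat_lit 191) (nat_lit 7) (nat_lit 7) (nat_lit 2) (nat_lit 7) (nat_lit 90) (nat_lit 219) r11_90 r5_219 (nat_lit 0) (nat_lit 0) (nat_lit 0) (nat_lit 0x8017985b4) (nat_lit 536870912),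
  Rx.mk (nat_lit 228) (nat_lit 4) (nat_lit 4) (nat_lit 3) (nat_lit 4) (nat_lit 71) (nat_lit 204) r11_71 r5_204 (nat_lit 60413237) (nat_lit 36801253) (nat_lit 0) (nat_lit 0x7abb7e684) (nat_lit 720123752),
  Rx.mk (nat_lit 236) (nat_lit 4) (nat_lit 5) (nat_lit 3) (nat_lit 6) (nat_lit 77) (nat_lit 207) r11_77 r5_207 (nat_lit 24741287) (nat_lit 0) (nat_lit 0) (nat_lit 0x8017985b4) (nat_lit 561612199),
  Rx.mk (nat_lit 244) (nat_lit 4) (nat_lit 6) (nat_lit 3) (nat_lit 6) (nat_lit 82) (nat_lit 211) r11_82 r5_211 (nat_lit 25956094) (nat_lit 0) (nat_lit 0) (nat_lit 0x80019bd60) (nat_lit 564158956),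
  Rx.mk (nat_lit 246) (nat_lit 6) (nat_lit 6) (nat_lit 3) (nat_lit 7) (nat_lit 85) (nat_lit 224) r11_85 r5_224 (nat_lit 0) (nat_lit 0) (nat_lit 0) (nat_lit 0x8017985b4) (nat_lit 536870912)]
noncomputable def e29_6 : List Rx := [
  Rx.mk (nat_lit 187) (nat_lit 3) (nat_lit 7) (nat_lit 2) (nat_lit 7) (nat_lit 7) (nat_lit 139) r11_7 r3_139 (nat_lit 0) (nat_lit 0) (nat_lit 0) (nat_lit 0x8f1cadf90) (nat_lit 306718562),
  Rx.mk (nat_lit 502) (nat_lit 6) (nat_lit 6) (nat_lit 7) (nat_lit 7) (nat_lit 6) (nat_lit 140) r11_6 r3_140 (nat_lit 0) (nat_lit 0) (nat_lit 0) (nat_lit 0x884245afc) (nat_lit 411412412)]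
noncomputable def e29_7 : List Rx := [
  Rx.mk (nat_lit 310) (nat_lit 6) (nat_lit 6) (nat_lit 4) (nat_lit 3) (nat_lit 0) (nat_lit 152) r11_0 r0_152 (nat_lit 0) (nat_lit 0) (nat_lit 24142843) (nat_lit 0x7ecf6cf52) (nat_lit 581323155),
  Rx.mk (nat_lit 502) (nat_lit 6) (nat_lit 6) (nat_lit 7) (nat_lit 7) (nat_lit 1) (nat_lit 153) r11_1 r0_153 (nat_lit 0) (nat_lit 0) (nat_lit 0) (nat_lit 0x80194a9fc) (nat_lit 536773062)]
noncomputable def e29_8 : List Rx := [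
  Rx.mk (nat_lit 310) (nat_lit 6) (nat_lit 6) (nat_lit 4) (nat_lit 3) (nat_lit 2) (nat_lit 166) r11_2 r1_166 (nat_lit 0) (nat_lit 0) (nat_lit 24107596) (nat_lit 0x800249f8c) (nat_lit 562289358),
  Rx.mk (nat_lit 374) (nat_lit 6) (nat_lit 6) (nat_lit 5) (nat_lit 7) (nat_lit 3) (nat_lit 167) r11_3 r1_167 (nat_lit 0) (nat_lit 0) (nat_lit 0) (nat_lit 0x8017985b4) (nat_lit 536870912),
  Rx.mk (nat_lit 502) (nat_lit 6) (nat_lit 6) (nat_lit 7) (nat_lit 7) (nat_lit 4) (nat_lit 168) r11_4 r1_168 (nat_lit 0) (nat_lit 0) (nat_lit 0) (nat_lit 0x8017985b4) (nat_lit 536870912)]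
noncomputable def e29_9 : List Rx := [
  Rx.mk (nat_lit 502) (nat_lit 6) (nat_lit 6) (nat_lit 7) (nat_lit 7) (nat_lit 8) (nat_lit 143) r11_8 r4_143 (nat_lit 0) (nat_lit 0) (nat_lit 0) (nat_lit 0x7ff232496) (nat_lit 539166062)]
noncomputable def e29_10 : List Rx := [
  Rx.mk (nat_lit 39) (nat_lit 7) (nat_lit 4) (nat_lit 0) (nat_lit 1) (nat_lit 54) (nat_lit 227) r11_54 r6_227 (nat_lit 0) (nat_lit 8887259) (nat_lit 8232258) (nat_lit 0x752a94a10) (nat_lit 729817329),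
  Rx.mk (nat_lit 47) (nat_lit 7) (nat_lit 5) (nat_lit 0) (nat_lit 3) (nat_lit 58) (nat_lit 230) r11_58 r6_230 (nat_lit 0) (nat_lit 0) (nat_lit 24863851) (nat_lit 0x80051da7e) (nat_lit 562865263),
  Rx.mk (nat_lit 55) (nat_lit 7) (nat_lit 6) (nat_lit 0) (nat_lit 3) (nat_lit 63) (nat_lit 235) r11_63 r6_235 (nat_lit 0) (nat_lit 0) (nat_lit 24741287) (nat_lit 0x8017985b4) (nat_lit 561612199),
  Rx.mk (nat_lit 63) (nat_lit 7) (nat_lit 7) (nat_lit 0) (nat_lit 3) (nat_lit 66) (nat_lit 233) r11_66 r6_233 (nat_lit 0) (nat_lit 0) (nat_lit 24741287) (nat_lit 0x8017985b4) (nat_lit 561612199),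
  Rx.mk (nat_lit 167) (nat_lit 7) (nat_lit 4) (nat_lit 2) (nat_lit 5) (nat_lit 55) (nat_lit 229) r11_55 r6_229 (nat_lit 0) (nat_lit 20819956) (nat_lit 0) (nat_lit 0x80443f36a) (nat_lit 554944468),
  Rx.mk (nat_lit 175) (nat_lit 7) (nat_lit 5) (nat_lit 2) (nat_lit 7) (nat_lit 59) (nat_lit 232) r11_59 r6_232 (nat_lit 0) (nat_lit 0) (nat_lit 0) (nat_lit 0x8017985b4) (nat_lit 536870912),
  Rx.mk (nat_lit 187) (nat_lit 3) (nat_lit 7) (nat_lit 2) (nat_lit 7) (nat_lit 65) (nat_lit 223) r11_65 r6_223 (nat_lit 0) (nat_lit 0) (nat_lit 0) (nat_lit 0x822812b0e) (nat_lit 504804312),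
  Rx.mk (nat_lit 191) (nat_lit 7) (nat_lit 7) (nat_lit 2) (nat_lit 7) (nat_lit 67) (nat_lit 234) r11_67 r6_234 (nat_lit 0) (nat_lit 0) (nat_lit 0) (nat_lit 0x8017985b4) (nat_lit 536870912),
  Rx.mk (nat_lit 228) (nat_lit 4) (nat_lit 4) (nat_lit 3) (nat_lit 4) (nat_lit 53) (nat_lit 224) r11_53 r6_224 (nat_lit 17592133) (nat_lit 11453294) (nat_lit 0) (nat_lit 0x79c89e50e) (nat_lit 667174639),
  Rx.mk (nat_lit 231) (nat_lit 7) (nat_lit 4) (nat_lit 3) (nat_lit 5) (nat_lit 56) (nat_lit 228) r11_56 r6_228 (nat_lit 0) (nat_lit 11833070) (nat_lit 0) (nat_lit 0x80dfff796) (nat_lit 536433782),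
  Rx.mk (nat_lit 236) (nat_lit 4) (nat_lit 5) (nat_lit 3) (nat_lit 6) (nat_lit 57) (nat_lit 225) r11_57 r6_225 (nat_lit 23560195) (nat_lit 0) (nat_lit 0) (nat_lit 0x8006b0be8) (nat_lit 561461107),
  Rx.mk (nat_lit 239) (nat_lit 7) (nat_lit 5) (nat_lit 3) (nat_lit 7) (nat_lit 60) (nat_lit 231) r11_60 r6_231 (nat_lit 0) (nat_lit 0) (nat_lit 0) (nat_lit 0x8017985b4) (nat_lit 536870912),
  Rx.mk (nat_lit 244) (nat_lit 4) (nat_lit 6) (nat_lit 3) (nat_lit 6) (nat_lit 61) (nat_lit 226) r11_61 r6_226 (nat_lit 26850297) (nat_lit 0) (nat_lit 0) (nat_lit 0x80135a3c6) (nat_lit 563945709),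
  Rx.mk (nat_lit 246) (nat_lit 6) (nat_lit 6) (nat_lit 3) (nat_lit 7) (nat_lit 62) (nat_lit 237) r11_62 r6_237 (nat_lit 0) (nat_lit 0) (nat_lit 0) (nat_lit 0x8017985b4) (nat_lit 536870912),
  Rx.mk (nat_lit 247) (nat_lit 7) (nat_lit 6) (nat_lit 3) (nat_lit 7) (nat_lit 64) (nat_lit 236) r11_64 r6_236 (nat_lit 0) (nat_lit 0) (nat_lit 0) (nat_lit 0x8017985b4) (nat_lit 536870912)]
noncomputable def e29_11 : List Rx := [
  Rx.mk (nat_lit 63) (nat_lit 7) (nat_lit 7) (nat_lit 0) (nat_lit 3) (nat_lit 16) (nat_lit 142) r11_16 r5_142 (nat_lit 0) (nat_lit 0) (nat_lit 13610733) (nat_lit 0x7f8c34efa) (nat_lit 558980045),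
  Rx.mk (nat_lit 187) (nat_lit 3) (nat_lit 7) (nat_lit 2) (nat_lit 7) (nat_lit 15) (nat_lit 145) r11_15 r5_145 (nat_lit 0) (nat_lit 0) (nat_lit 0) (nat_lit 0x839723e3e) (nat_lit 482866162),
  Rx.mk (nat_lit 191) (nat_lit 7) (nat_lit 7) (nat_lit 2) (nat_lit 7) (nat_lit 17) (nat_lit 144) r11_17 r5_144 (nat_lit 0) (nat_lit 0) (nat_lit 0) (nat_lit 0x804f3bf3e) (nat_lit 533452962),
  Rx.mk (nat_lit 228) (nat_lit 4) (nat_lit 4) (nat_lit 3) (nat_lit 4) (nat_lit 9) (nat_lit 140) r11_9 r5_140 (nat_lit 674925) (nat_lit 474232) (nat_lit 0) (nat_lit 0x722cb1ea4) (nat_lit 761731069),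
  Rx.mk (nat_lit 231) (nat_lit 7) (nat_lit 4) (nat_lit 3) (nat_lit 5) (nat_lit 10) (nat_lit 141) r11_10 r5_141 (nat_lit 0) (nat_lit 4328604) (nat_lit 0) (nat_lit 0x8397c64a4) (nat_lit 487049866),
  Rx.mk (nat_lit 244) (nat_lit 4) (nat_lit 6) (nat_lit 3) (nat_lit 6) (nat_lit 11) (nat_lit 146) r11_11 r5_146 (nat_lit 9828533) (nat_lit 0) (nat_lit 0) (nat_lit 0x7fdfbd658) (nat_lit 549901095),
  Rx.mk (nat_lit 246) (nat_lit 6) (nat_lit 6) (nat_lit 3) (nat_lit 7) (nat_lit 12) (nat_lit 149) r11_12 r5_149 (nat_lit 0) (nat_lit 0) (nat_lit 0) (nat_lit 0x80700d5c8) (nat_lit 531445012),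
  Rx.mk (nat_lit 247) (nat_lit 7) (nat_lit 6) (nat_lit 3) (nat_lit 7) (nat_lit 14) (nat_lit 147) r11_14 r5_147 (nat_lit 0) (nat_lit 0) (nat_lit 0) (nat_lit 0x81c0f7b72) (nat_lit 511039762),
  Rx.mk (nat_lit 255) (nat_lit 7) (nat_lit 7) (nat_lit 3) (nat_lit 7) (nat_lit 18) (nat_lit 143) r11_18 r5_143 (nat_lit 0) (nat_lit 0) (nat_lit 0) (nat_lit 0x804f350bc) (nat_lit 533454612),
  Rx.mk (nat_lit 502) (nat_lit 6) (nat_lit 6) (nat_lit 7) (nat_lit 7) (nat_lit 13) (nat_lit 148) r11_13 r5_148 (nat_lit 0) (nat_lit 0) (nat_lit 0) (nat_lit 0x8219c55ce) (nat_lit 505691562)]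
noncomputable def e29_12 : List Rx := [
  Rx.mk (nat_lit 36) (nat_lit 4) (nat_lit 4) (nat_lit 0) (nat_lit 0) (nat_lit 165) (nat_lit 342) r11_165 r0_342 (nat_lit 61517721) (nat_lit 27528448) (nat_lit 16543091) (nat_lit 0x56389a70a) (nat_lit 1318729522),
  Rx.mk (nat_lit 37) (nat_lit 5) (nat_lit 4) (nat_lit 0) (nat_lit 1) (nat_lit 168) (nat_lit 343) r11_168 r0_343 (nat_lit 0) (nat_lit 39863545) (nat_lit 97208642) (nat_lit 0x7bb2e4220) (nat_lit 744358799),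
  Rx.mk (nat_lit 44) (nat_lit 4) (nat_lit 5) (nat_lit 0) (nat_lit 2) (nat_lit 171) (nat_lit 344) r11_171 r0_344 (nat_lit 36871294) (nat_lit 0) (nat_lit 84020208) (nat_lit 0x783359b98) (nat_lit 784659514),
  Rx.mk (nat_lit 45) (nat_lit 5) (nat_lit 5) (nat_lit 0) (nat_lit 3) (nat_lit 174) (nat_lit 345) r11_174 r0_345 (nat_lit 0) (nat_lit 0) (nat_lit 66364716) (nat_lit 0x7dacacf72) (nat_lit 641664678),
  Rx.mk (nat_lit 52) (nat_lit 4) (nat_lit 6) (nat_lit 0) (nat_lit 2) (nat_lit 177) (nat_lit 346) r11_177 r0_346 (nat_lit 49484385) (nat_lit 0) (nat_lit 31505454) (nat_lit 0x786492660) (nat_lit 741673001),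
  Rx.mk (nat_lit 53) (nat_lit 5) (nat_lit 6) (nat_lit 0) (nat_lit 3) (nat_lit 179) (nat_lit 347) r11_179 r0_347 (nat_lit 0) (nat_lit 0) (nat_lit 24741287) (nat_lit 0x8017985b4) (nat_lit 561612199),
  Rx.mk (nat_lit 54) (nat_lit 6) (nat_lit 6) (nat_lit 0) (nat_lit 3) (nat_lit 181) (nat_lit 348) r11_181 r0_348 (nat_lit 0) (nat_lit 0) (nat_lit 24977480) (nat_lit 0x7ff4c15ea) (nat_lit 563982842),
  Rx.mk (nat_lit 100) (nat_lit 4) (nat_lit 4) (nat_lit 1) (nat_lit 4) (nat_lit 166) (nat_lit 349) r11_166 r0_349 (nat_lit 43084134) (nat_lit 151143769) (nat_lit 0) (nat_lit 0x7b5af1fae) (nat_lit 807011715),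
  Rx.mk (nat_lit 101) (nat_lit 5) (nat_lit 4) (nat_lit 1) (nat_lit 5) (nat_lit 169) (nat_lit 350) r11_169 r0_350 (nat_lit 0) (nat_lit 24741287) (nat_lit 0) (nat_lit 0x8017985b4) (nat_lit 561612199),
  Rx.mk (nat_lit 108) (nat_lit 4) (nat_lit 5) (nat_lit 1) (nat_lit 6) (nat_lit 172) (nat_lit 351) r11_172 r0_351 (nat_lit 24741287) (nat_lit 0) (nat_lit 0) (nat_lit 0x8017985b4) (nat_lit 561612199),
  Rx.mk (nat_lit 109) (nat_lit 5) (nat_lit 5) (nat_lit 1) (nat_lit 7) (nat_lit 175) (nat_lit 352) r11_175 r0_352 (nat_lit 0) (nat_lit 0) (nat_lit 0) (nat_lit 0x8017985b4) (nat_lit 536870912),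
  Rx.mk (nat_lit 116) (nat_lit 4) (nat_lit 6) (nat_lit 1) (nat_lit 6) (nat_lit 178) (nat_lit 353) r11_178 r0_353 (nat_lit 27043959) (nat_lit 0) (nat_lit 0) (nat_lit 0x7fc599f24) (nat_lit 568952071),
  Rx.mk (nat_lit 117) (nat_lit 5) (nat_lit 6) (nat_lit 1) (nat_lit 7) (nat_lit 180) (nat_lit 354) r11_180 r0_354 (nat_lit 0) (nat_lit 0) (nat_lit 0) (nat_lit 0x8017985b4) (nat_lit 536870912),
  Rx.mk (nat_lit 118) (nat_lit 6) (nat_lit 6) (nat_lit 1) (nat_lit 7) (nat_lit 182) (nat_lit 355) r11_182 r0_355 (nat_lit 0) (nat_lit 0) (nat_lit 0) (nat_lit 0x8017985b4) (nat_lit 536870912),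
  Rx.mk (nat_lit 164) (nat_lit 4) (nat_lit 4) (nat_lit 2) (nat_lit 4) (nat_lit 167) (nat_lit 356) r11_167 r0_356 (nat_lit 40023232) (nat_lit 40023232) (nat_lit 0) (nat_lit 0x7e12b2628) (nat_lit 649033426),
  Rx.mk (nat_lit 165) (nat_lit 5) (nat_lit 4) (nat_lit 2) (nat_lit 5) (nat_lit 170) (nat_lit 357) r11_170 r0_357 (nat_lit 0) (nat_lit 24741287) (nat_lit 0) (nat_lit 0x8017985b4) (nat_lit 561612199),
  Rx.mk (nat_lit 172) (nat_lit 4) (nat_lit 5) (nat_lit 2) (nat_lit 6) (nat_lit 173) (nat_lit 358) r11_173 r0_358 (nat_lit 23550752) (nat_lit 0) (nat_lit 0) (nat_lit 0x804b6b5bc) (nat_lit 557203014),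
  Rx.mk (nat_lit 173) (nat_lit 5) (nat_lit 5) (nat_lit 2) (nat_lit 7) (nat_lit 176) (nat_lit 359) r11_176 r0_359 (nat_lit 0) (nat_lit 0) (nat_lit 0) (nat_lit 0x821f15f74) (nat_lit 505368512)]
noncomputable def e29_13 : List Rx := [
  Rx.mk (nat_lit 100) (nat_lit 4) (nat_lit 4) (nat_lit 1) (nat_lit 4) (nat_lit 212) (nat_lit 263) r11_212 r7_263 (nat_lit 34414543) (nat_lit 107532607) (nat_lit 0) (nat_lit 0x7c21f872e) (nat_lit 742207762),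
  Rx.mk (nat_lit 101) (nat_lit 5) (nat_lit 4) (nat_lit 1) (nat_lit 5) (nat_lit 213) (nat_lit 266) r11_213 r7_266 (nat_lit 0) (nat_lit 24741287) (nat_lit 0) (nat_lit 0x8017985b4) (nat_lit 561612199),
  Rx.mk (nat_lit 108) (nat_lit 4) (nat_lit 5) (nat_lit 1) (nat_lit 6) (nat_lit 214) (nat_lit 264) r11_214 r7_264 (nat_lit 24741287) (nat_lit 0) (nat_lit 0) (nat_lit 0x8017985b4) (nat_lit 561612199),
  Rx.mk (nat_lit 109) (nat_lit 5) (nat_lit 5) (nat_lit 1) (nat_lit 7) (nat_lit 215) (nat_lit 267) r11_215 r7_267 (nat_lit 0) (nat_lit 0) (nat_lit 0) (nat_lit 0x8017985b4) (nat_lit 536870912),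
  Rx.mk (nat_lit 116) (nat_lit 4) (nat_lit 6) (nat_lit 1) (nat_lit 6) (nat_lit 216) (nat_lit 265) r11_216 r7_265 (nat_lit 24741287) (nat_lit 0) (nat_lit 0) (nat_lit 0x8017985b4) (nat_lit 561612199),
  Rx.mk (nat_lit 117) (nat_lit 5) (nat_lit 6) (nat_lit 1) (nat_lit 7) (nat_lit 217) (nat_lit 268) r11_217 r7_268 (nat_lit 0) (nat_lit 0) (nat_lit 0) (nat_lit 0x8017985b4) (nat_lit 536870912),
  Rx.mk (nat_lit 118) (nat_lit 6) (nat_lit 6) (nat_lit 1) (nat_lit 7) (nat_lit 218) (nat_lit 269) r11_218 r7_269 (nat_lit 0) (nat_lit 0) (nat_lit 0) (nat_lit 0x8017985b4) (nat_lit 536870912)]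
noncomputable def e29_14 : List Rx := [
  Rx.mk (nat_lit 37) (nat_lit 5) (nat_lit 4) (nat_lit 0) (nat_lit 1) (nat_lit 183) (nat_lit 316) r11_183 r1_316 (nat_lit 0) (nat_lit 31169867) (nat_lit 115272517) (nat_lit 0x729ca1386) (nat_lit 900542746),
  Rx.mk (nat_lit 45) (nat_lit 5) (nat_lit 5) (nat_lit 0) (nat_lit 3) (nat_lit 186) (nat_lit 317) r11_186 r1_317 (nat_lit 0) (nat_lit 0) (nat_lit 39197522) (nat_lit 0x7db914fa8) (nat_lit 613796734),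
  Rx.mk (nat_lit 53) (nat_lit 5) (nat_lit 6) (nat_lit 0) (nat_lit 3) (nat_lit 189) (nat_lit 318) r11_189 r1_318 (nat_lit 0) (nat_lit 0) (nat_lit 24741287) (nat_lit 0x8017985b4) (nat_lit 561612199),
  Rx.mk (nat_lit 101) (nat_lit 5) (nat_lit 4) (nat_lit 1) (nat_lit 5) (nat_lit 184) (nat_lit 319) r11_184 r1_319 (nat_lit 0) (nat_lit 24741287) (nat_lit 0) (nat_lit 0x8017985b4) (nat_lit 561612199),
  Rx.mk (nat_lit 109) (nat_lit 5) (nat_lit 5) (nat_lit 1) (nat_lit 7) (nat_lit 187) (nat_lit 320) r11_187 r1_320 (nat_lit 0) (nat_lit 0) (nat_lit 0) (nat_lit 0x8017985b4) (nat_lit 536870912),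
  Rx.mk (nat_lit 117) (nat_lit 5) (nat_lit 6) (nat_lit 1) (nat_lit 7) (nat_lit 190) (nat_lit 321) r11_190 r1_321 (nat_lit 0) (nat_lit 0) (nat_lit 0) (nat_lit 0x8017985b4) (nat_lit 536870912),
  Rx.mk (nat_lit 165) (nat_lit 5) (nat_lit 4) (nat_lit 2) (nat_lit 5) (nat_lit 185) (nat_lit 322) r11_185 r1_322 (nat_lit 0) (nat_lit 24741287) (nat_lit 0) (nat_lit 0x8017985b4) (nat_lit 561612199),
  Rx.mk (nat_lit 173) (nat_lit 5) (nat_lit 5) (nat_lit 2) (nat_lit 7) (nat_lit 188) (nat_lit 323) r11_188 r1_323 (nat_lit 0) (nat_lit 0) (nat_lit 0) (nat_lit 0x81759db22) (nat_lit 515567712)]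
noncomputable def e29_15 : List Rx := [
  Rx.mk (nat_lit 101) (nat_lit 5) (nat_lit 4) (nat_lit 1) (nat_lit 5) (nat_lit 219) (nat_lit 198) r11_219 r8_198 (nat_lit 0) (nat_lit 24741287) (nat_lit 0) (nat_lit 0x8017985b4) (nat_lit 561612199),
  Rx.mk (nat_lit 109) (nat_lit 5) (nat_lit 5) (nat_lit 1) (nat_lit 7) (nat_lit 220) (nat_lit 199) r11_220 r8_199 (nat_lit 0) (nat_lit 0) (nat_lit 0) (nat_lit 0x8017985b4) (nat_lit 536870912),
  Rx.mk (nat_lit 117) (nat_lit 5) (nat_lit 6) (nat_lit 1) (nat_lit 7) (nat_lit 221) (nat_lit 200) r11_221 r8_200 (nat_lit 0) (nat_lit 0) (nat_lit 0) (nat_lit 0x8017985b4) (nat_lit 536870912)]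
noncomputable def e29_16 : List Rx := [
  Rx.mk (nat_lit 100) (nat_lit 4) (nat_lit 4) (nat_lit 1) (nat_lit 4) (nat_lit 222) (nat_lit 368) r11_222 r8_368 (nat_lit 49696383) (nat_lit 93109333) (nat_lit 0) (nat_lit 0x7a0dfb9e4) (nat_lit 776624328),
  Rx.mk (nat_lit 101) (nat_lit 5) (nat_lit 4) (nat_lit 1) (nat_lit 5) (nat_lit 223) (nat_lit 369) r11_223 r8_369 (nat_lit 0) (nat_lit 24741287) (nat_lit 0) (nat_lit 0x8017985b4) (nat_lit 561612199),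
  Rx.mk (nat_lit 108) (nat_lit 4) (nat_lit 5) (nat_lit 1) (nat_lit 6) (nat_lit 224) (nat_lit 370) r11_224 r8_370 (nat_lit 24741287) (nat_lit 0) (nat_lit 0) (nat_lit 0x8017985b4) (nat_lit 561612199),
  Rx.mk (nat_lit 109) (nat_lit 5) (nat_lit 5) (nat_lit 1) (nat_lit 7) (nat_lit 225) (nat_lit 371) r11_225 r8_371 (nat_lit 0) (nat_lit 0) (nat_lit 0) (nat_lit 0x8017985b4) (nat_lit 536870912),
  Rx.mk (nat_lit 116) (nat_lit 4) (nat_lit 6) (nat_lit 1) (nat_lit 6) (nat_lit 226) (nat_lit 372) r11_226 r8_372 (nat_lit 24741287) (nat_lit 0) (nat_lit 0) (nat_lit 0x8017985b4) (nat_lit 561612199),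
  Rx.mk (nat_lit 117) (nat_lit 5) (nat_lit 6) (nat_lit 1) (nat_lit 7) (nat_lit 227) (nat_lit 373) r11_227 r8_373 (nat_lit 0) (nat_lit 0) (nat_lit 0) (nat_lit 0x8017985b4) (nat_lit 536870912),
  Rx.mk (nat_lit 118) (nat_lit 6) (nat_lit 6) (nat_lit 1) (nat_lit 7) (nat_lit 228) (nat_lit 374) r11_228 r8_374 (nat_lit 0) (nat_lit 0) (nat_lit 0) (nat_lit 0x8017985b4) (nat_lit 536870912),
  Rx.mk (nat_lit 374) (nat_lit 6) (nat_lit 6) (nat_lit 5) (nat_lit 7) (nat_lit 229) (nat_lit 367) r11_229 r8_367 (nat_lit 0) (nat_lit 0) (nat_lit 0) (nat_lit 0x8017985b4) (nat_lit 536870912)]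
noncomputable def e29_17 : List Rx := [
  Rx.mk (nat_lit 374) (nat_lit 6) (nat_lit 6) (nat_lit 5) (nat_lit 7) (nat_lit 164) (nat_lit 214) r11_164 r9_214 (nat_lit 0) (nat_lit 0) (nat_lit 0) (nat_lit 0x8017985b4) (nat_lit 536870912)]
noncomputable def e29_18 : List Rx := [
  Rx.mk (nat_lit 36) (nat_lit 4) (nat_lit 4) (nat_lit 0) (nat_lit 0) (nat_lit 191) (nat_lit 381) r11_191 r4_381 (nat_lit 15710614) (nat_lit 17952672) (nat_lit 17913539) (nat_lit 0x5f1b5dba2) (nat_lit 1121002137),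
  Rx.mk (nat_lit 37) (nat_lit 5) (nat_lit 4) (nat_lit 0) (nat_lit 1) (nat_lit 194) (nat_lit 382) r11_194 r4_382 (nat_lit 0) (nat_lit 27647826) (nat_lit 34329630) (nat_lit 0x7e54987ea) (nat_lit 626865718),
  Rx.mk (nat_lit 39) (nat_lit 7) (nat_lit 4) (nat_lit 0) (nat_lit 1) (nat_lit 196) (nat_lit 383) r11_196 r4_383 (nat_lit 0) (nat_lit 28646946) (nat_lit 30009416) (nat_lit 0x7b26b540c) (nat_lit 674773074),
  Rx.mk (nat_lit 44) (nat_lit 4) (nat_lit 5) (nat_lit 0) (nat_lit 2) (nat_lit 199) (nat_lit 384) r11_199 r4_384 (nat_lit 27870751) (nat_lit 0) (nat_lit 35726227) (nat_lit 0x779980b0c) (nat_lit 737097740),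
  Rx.mk (nat_lit 45) (nat_lit 5) (nat_lit 5) (nat_lit 0) (nat_lit 3) (nat_lit 202) (nat_lit 385) r11_202 r4_385 (nat_lit 0) (nat_lit 0) (nat_lit 26112240) (nat_lit 0x7f458b346) (nat_lit 575951702),
  Rx.mk (nat_lit 47) (nat_lit 7) (nat_lit 5) (nat_lit 0) (nat_lit 3) (nat_lit 204) (nat_lit 386) r11_204 r4_386 (nat_lit 0) (nat_lit 0) (nat_lit 24741287) (nat_lit 0x8017985b4) (nat_lit 561612199),
  Rx.mk (nat_lit 52) (nat_lit 4) (nat_lit 6) (nat_lit 0) (nat_lit 2) (nat_lit 207) (nat_lit 387) r11_207 r4_387 (nat_lit 29502798) (nat_lit 0) (nat_lit 27912229) (nat_lit 0x78d0f8fca) (nat_lit 711254839),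
  Rx.mk (nat_lit 53) (nat_lit 5) (nat_lit 6) (nat_lit 0) (nat_lit 3) (nat_lit 209) (nat_lit 388) r11_209 r4_388 (nat_lit 0) (nat_lit 0) (nat_lit 24741287) (nat_lit 0x8017985b4) (nat_lit 561612199),
  Rx.mk (nat_lit 54) (nat_lit 6) (nat_lit 6) (nat_lit 0) (nat_lit 3) (nat_lit 210) (nat_lit 389) r11_210 r4_389 (nat_lit 0) (nat_lit 0) (nat_lit 24741287) (nat_lit 0x8017985b4) (nat_lit 561612199),
  Rx.mk (nat_lit 100) (nat_lit 4) (nat_lit 4) (nat_lit 1) (nat_lit 4) (nat_lit 192) (nat_lit 390) r11_192 r4_390 (nat_lit 20049231) (nat_lit 96193341) (nat_lit 0) (nat_lit 0x7b255b444) (nat_lit 732377384),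
  Rx.mk (nat_lit 103) (nat_lit 7) (nat_lit 4) (nat_lit 1) (nat_lit 5) (nat_lit 197) (nat_lit 391) r11_197 r4_391 (nat_lit 0) (nat_lit 30058585) (nat_lit 0) (nat_lit 0x7fbf63a4c) (nat_lit 572343247),
  Rx.mk (nat_lit 108) (nat_lit 4) (nat_lit 5) (nat_lit 1) (nat_lit 6) (nat_lit 200) (nat_lit 392) r11_200 r4_392 (nat_lit 24741287) (nat_lit 0) (nat_lit 0) (nat_lit 0x8017985b4) (nat_lit 561612199),
  Rx.mk (nat_lit 111) (nat_lit 7) (nat_lit 5) (nat_lit 1) (nat_lit 7) (nat_lit 205) (nat_lit 393) r11_205 r4_393 (nat_lit 0) (nat_lit 0) (nat_lit 0) (nat_lit 0x8017985b4) (nat_lit 536870912),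
  Rx.mk (nat_lit 116) (nat_lit 4) (nat_lit 6) (nat_lit 1) (nat_lit 6) (nat_lit 208) (nat_lit 394) r11_208 r4_394 (nat_lit 23934074) (nat_lit 0) (nat_lit 0) (nat_lit 0x7fe6d46d0) (nat_lit 563795286),
  Rx.mk (nat_lit 118) (nat_lit 6) (nat_lit 6) (nat_lit 1) (nat_lit 7) (nat_lit 211) (nat_lit 395) r11_211 r4_395 (nat_lit 0) (nat_lit 0) (nat_lit 0) (nat_lit 0x8017985b4) (nat_lit 536870912),
  Rx.mk (nat_lit 164) (nat_lit 4) (nat_lit 4) (nat_lit 2) (nat_lit 4) (nat_lit 193) (nat_lit 396) r11_193 r4_396 (nat_lit 30793545) (nat_lit 30793545) (nat_lit 0) (nat_lit 0x7da382596) (nat_lit 637575952),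
  Rx.mk (nat_lit 165) (nat_lit 5) (nat_lit 4) (nat_lit 2) (nat_lit 5) (nat_lit 195) (nat_lit 397) r11_195 r4_397 (nat_lit 0) (nat_lit 24741287) (nat_lit 0) (nat_lit 0x8017985b4) (nat_lit 561612199),
  Rx.mk (nat_lit 167) (nat_lit 7) (nat_lit 4) (nat_lit 2) (nat_lit 5) (nat_lit 198) (nat_lit 398) r11_198 r4_398 (nat_lit 0) (nat_lit 24741287) (nat_lit 0) (nat_lit 0x8017985b4) (nat_lit 561612199),
  Rx.mk (nat_lit 172) (nat_lit 4) (nat_lit 5) (nat_lit 2) (nat_lit 6) (nat_lit 201) (nat_lit 399) r11_201 r4_399 (nat_lit 24741287) (nat_lit 0) (nat_lit 0) (nat_lit 0x8017985b4) (nat_lit 561612199),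
  Rx.mk (nat_lit 173) (nat_lit 5) (nat_lit 5) (nat_lit 2) (nat_lit 7) (nat_lit 203) (nat_lit 400) r11_203 r4_400 (nat_lit 0) (nat_lit 0) (nat_lit 0) (nat_lit 0x8017985b4) (nat_lit 536870912),
  Rx.mk (nat_lit 175) (nat_lit 7) (nat_lit 5) (nat_lit 2) (nat_lit 7) (nat_lit 206) (nat_lit 401) r11_206 r4_401 (nat_lit 0) (nat_lit 0) (nat_lit 0) (nat_lit 0x8017985b4) (nat_lit 536870912)]
noncomputable def e29_19 : List Rx := [
  Rx.mk (nat_lit 100) (nat_lit 4) (nat_lit 4) (nat_lit 1) (nat_lit 4) (nat_lit 230) (nat_lit 206) r11_230 r10_206 (nat_lit 29967916) (nat_lit 53187078) (nat_lit 0) (nat_lit 0x781c132b8) (nat_lit 748379156),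
  Rx.mk (nat_lit 103) (nat_lit 7) (nat_lit 4) (nat_lit 1) (nat_lit 5) (nat_lit 231) (nat_lit 209) r11_231 r10_209 (nat_lit 0) (nat_lit 24741287) (nat_lit 0) (nat_lit 0x8017985b4) (nat_lit 561612199),
  Rx.mk (nat_lit 108) (nat_lit 4) (nat_lit 5) (nat_lit 1) (nat_lit 6) (nat_lit 232) (nat_lit 207) r11_232 r10_207 (nat_lit 24741287) (nat_lit 0) (nat_lit 0) (nat_lit 0x8017985b4) (nat_lit 561612199),
  Rx.mk (nat_lit 111) (nat_lit 7) (nat_lit 5) (nat_lit 1) (nat_lit 7) (nat_lit 233) (nat_lit 210) r11_233 r10_210 (nat_lit 0) (nat_lit 0) (nat_lit 0) (nat_lit 0x8017985b4) (nat_lit 536870912),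
  Rx.mk (nat_lit 116) (nat_lit 4) (nat_lit 6) (nat_lit 1) (nat_lit 6) (nat_lit 234) (nat_lit 208) r11_234 r10_208 (nat_lit 24741287) (nat_lit 0) (nat_lit 0) (nat_lit 0x8017985b4) (nat_lit 561612199),
  Rx.mk (nat_lit 118) (nat_lit 6) (nat_lit 6) (nat_lit 1) (nat_lit 7) (nat_lit 235) (nat_lit 211) r11_235 r10_211 (nat_lit 0) (nat_lit 0) (nat_lit 0) (nat_lit 0x8017985b4) (nat_lit 536870912)]
noncomputable def e29_20 : List Rx := [
  Rx.mk (nat_lit 36) (nat_lit 4) (nat_lit 4) (nat_lit 0) (nat_lit 0) (nat_lit 236) (nat_lit 236) r11_236 r11_236 (nat_lit 53843718) (nat_lit 53843718) (nat_lit 32932365) (nat_lit 0x5ad4d46f8) (nat_lit 1279235263),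
  Rx.mk (nat_lit 37) (nat_lit 5) (nat_lit 4) (nat_lit 0) (nat_lit 1) (nat_lit 240) (nat_lit 246) r11_240 r11_246 (nat_lit 0) (nat_lit 50819749) (nat_lit 36022396) (nat_lit 0x7a243af02) (nat_lit 719244457),
  Rx.mk (nat_lit 39) (nat_lit 7) (nat_lit 4) (nat_lit 0) (nat_lit 1) (nat_lit 243) (nat_lit 254) r11_243 r11_254 (nat_lit 0) (nat_lit 37472217) (nat_lit 35875760) (nat_lit 0x774eb43c6) (nat_lit 751561939),
  Rx.mk (nat_lit 44) (nat_lit 4) (nat_lit 5) (nat_lit 0) (nat_lit 2) (nat_lit 246) (nat_lit 240) r11_246 r11_240 (nat_lit 50819749) (nat_lit 0) (nat_lit 36022396) (nat_lit 0x7a243af02) (nat_lit 719244457),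
  Rx.mk (nat_lit 45) (nat_lit 5) (nat_lit 5) (nat_lit 0) (nat_lit 3) (nat_lit 249) (nat_lit 249) r11_249 r11_249 (nat_lit 0) (nat_lit 0) (nat_lit 24842793) (nat_lit 0x7fa573ed4) (nat_lit 568719755),
  Rx.mk (nat_lit 47) (nat_lit 7) (nat_lit 5) (nat_lit 0) (nat_lit 3) (nat_lit 252) (nat_lit 257) r11_252 r11_257 (nat_lit 0) (nat_lit 0) (nat_lit 24741287) (nat_lit 0x8017985b4) (nat_lit 561612199),
  Rx.mk (nat_lit 52) (nat_lit 4) (nat_lit 6) (nat_lit 0) (nat_lit 2) (nat_lit 254) (nat_lit 243) r11_254 r11_243 (nat_lit 37472217) (nat_lit 0) (nat_lit 35875760) (nat_lit 0x774eb43c6) (nat_lit 751561939),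
  Rx.mk (nat_lit 53) (nat_lit 5) (nat_lit 6) (nat_lit 0) (nat_lit 3) (nat_lit 257) (nat_lit 252) r11_257 r11_252 (nat_lit 0) (nat_lit 0) (nat_lit 24741287) (nat_lit 0x8017985b4) (nat_lit 561612199),
  Rx.mk (nat_lit 54) (nat_lit 6) (nat_lit 6) (nat_lit 0) (nat_lit 3) (nat_lit 259) (nat_lit 262) r11_259 r11_262 (nat_lit 0) (nat_lit 0) (nat_lit 24741287) (nat_lit 0x8017985b4) (nat_lit 561612199),
  Rx.mk (nat_lit 63) (nat_lit 7) (nat_lit 7) (nat_lit 0) (nat_lit 3) (nat_lit 262) (nat_lit 259) r11_262 r11_259 (nat_lit 0) (nat_lit 0) (nat_lit 24741287) (nat_lit 0x8017985b4) (nat_lit 561612199),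
  Rx.mk (nat_lit 100) (nat_lit 4) (nat_lit 4) (nat_lit 1) (nat_lit 4) (nat_lit 237) (nat_lit 237) r11_237 r11_237 (nat_lit 49618932) (nat_lit 49618932) (nat_lit 0) (nat_lit 0x7eda874a0) (nat_lit 655708776),
  Rx.mk (nat_lit 103) (nat_lit 7) (nat_lit 4) (nat_lit 1) (nat_lit 5) (nat_lit 244) (nat_lit 255) r11_244 r11_255 (nat_lit 0) (nat_lit 24741287) (nat_lit 0) (nat_lit 0x8017985b4) (nat_lit 561612199),
  Rx.mk (nat_lit 116) (nat_lit 4) (nat_lit 6) (nat_lit 1) (nat_lit 6) (nat_lit 255) (nat_lit 244) r11_255 r11_244 (nat_lit 24741287) (nat_lit 0) (nat_lit 0) (nat_lit 0x8017985b4) (nat_lit 561612199),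
  Rx.mk (nat_lit 118) (nat_lit 6) (nat_lit 6) (nat_lit 1) (nat_lit 7) (nat_lit 260) (nat_lit 263) r11_260 r11_263 (nat_lit 0) (nat_lit 0) (nat_lit 0) (nat_lit 0x8017985b4) (nat_lit 536870912),
  Rx.mk (nat_lit 127) (nat_lit 7) (nat_lit 7) (nat_lit 1) (nat_lit 7) (nat_lit 263) (nat_lit 260) r11_263 r11_260 (nat_lit 0) (nat_lit 0) (nat_lit 0) (nat_lit 0x8017985b4) (nat_lit 536870912),
  Rx.mk (nat_lit 164) (nat_lit 4) (nat_lit 4) (nat_lit 2) (nat_lit 4) (nat_lit 238) (nat_lit 239) r11_238 r11_239 (nat_lit 30414660) (nat_lit 31419554) (nat_lit 0) (nat_lit 0x7dc8ca060) (nat_lit 635354426),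
  Rx.mk (nat_lit 165) (nat_lit 5) (nat_lit 4) (nat_lit 2) (nat_lit 5) (nat_lit 241) (nat_lit 248) r11_241 r11_248 (nat_lit 0) (nat_lit 24741287) (nat_lit 0) (nat_lit 0x8017985b4) (nat_lit 561612199),
  Rx.mk (nat_lit 167) (nat_lit 7) (nat_lit 4) (nat_lit 2) (nat_lit 5) (nat_lit 245) (nat_lit 256) r11_245 r11_256 (nat_lit 0) (nat_lit 24741287) (nat_lit 0) (nat_lit 0x8017985b4) (nat_lit 561612199),
  Rx.mk (nat_lit 172) (nat_lit 4) (nat_lit 5) (nat_lit 2) (nat_lit 6) (nat_lit 247) (nat_lit 242) r11_247 r11_242 (nat_lit 24741287) (nat_lit 0) (nat_lit 0) (nat_lit 0x8017985b4) (nat_lit 561612199),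
  Rx.mk (nat_lit 173) (nat_lit 5) (nat_lit 5) (nat_lit 2) (nat_lit 7) (nat_lit 250) (nat_lit 251) r11_250 r11_251 (nat_lit 0) (nat_lit 0) (nat_lit 0) (nat_lit 0x8017985b4) (nat_lit 536870912),
  Rx.mk (nat_lit 175) (nat_lit 7) (nat_lit 5) (nat_lit 2) (nat_lit 7) (nat_lit 253) (nat_lit 258) r11_253 r11_258 (nat_lit 0) (nat_lit 0) (nat_lit 0) (nat_lit 0x8017985b4) (nat_lit 536870912),
  Rx.mk (nat_lit 191) (nat_lit 7) (nat_lit 7) (nat_lit 2) (nat_lit 7) (nat_lit 264) (nat_lit 261) r11_264 r11_261 (nat_lit 0) (nat_lit 0) (nat_lit 0) (nat_lit 0x8017985b4) (nat_lit 536870912),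
  Rx.mk (nat_lit 228) (nat_lit 4) (nat_lit 4) (nat_lit 3) (nat_lit 4) (nat_lit 239) (nat_lit 238) r11_239 r11_238 (nat_lit 31419554) (nat_lit 30414660) (nat_lit 0) (nat_lit 0x7dc8ca060) (nat_lit 635354426),
  Rx.mk (nat_lit 229) (nat_lit 5) (nat_lit 4) (nat_lit 3) (nat_lit 5) (nat_lit 242) (nat_lit 247) r11_242 r11_247 (nat_lit 0) (nat_lit 24741287) (nat_lit 0) (nat_lit 0x8017985b4) (nat_lit 561612199),
  Rx.mk (nat_lit 236) (nat_lit 4) (nat_lit 5) (nat_lit 3) (nat_lit 6) (nat_lit 248) (nat_lit 241) r11_248 r11_241 (nat_lit 24741287) (nat_lit 0) (nat_lit 0) (nat_lit 0x8017985b4) (nat_lit 561612199),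
  Rx.mk (nat_lit 237) (nat_lit 5) (nat_lit 5) (nat_lit 3) (nat_lit 7) (nat_lit 251) (nat_lit 250) r11_251 r11_250 (nat_lit 0) (nat_lit 0) (nat_lit 0) (nat_lit 0x8017985b4) (nat_lit 536870912),
  Rx.mk (nat_lit 244) (nat_lit 4) (nat_lit 6) (nat_lit 3) (nat_lit 6) (nat_lit 256) (nat_lit 245) r11_256 r11_245 (nat_lit 24741287) (nat_lit 0) (nat_lit 0) (nat_lit 0x8017985b4) (nat_lit 561612199),
  Rx.mk (nat_lit 245) (nat_lit 5) (nat_lit 6) (nat_lit 3) (nat_lit 7) (nat_lit 258) (nat_lit 253) r11_258 r11_253 (nat_lit 0) (nat_lit 0) (nat_lit 0) (nat_lit 0x8017985b4) (nat_lit 536870912),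
  Rx.mk (nat_lit 246) (nat_lit 6) (nat_lit 6) (nat_lit 3) (nat_lit 7) (nat_lit 261) (nat_lit 264) r11_261 r11_264 (nat_lit 0) (nat_lit 0) (nat_lit 0) (nat_lit 0x8017985b4) (nat_lit 536870912)]
noncomputable def e29_21 : List Rx := [
  Rx.mk (nat_lit 342) (nat_lit 6) (nat_lit 2) (nat_lit 5) (nat_lit 7) (nat_lit 123) (nat_lit 147) r11_123 r9_147 (nat_lit 0) (nat_lit 0) (nat_lit 0) (nat_lit 0x8017985b4) (nat_lit 536870912),
  Rx.mk (nat_lit 374) (nat_lit 6) (nat_lit 6) (nat_lit 5) (nat_lit 7) (nat_lit 124) (nat_lit 146) r11_124 r9_146 (nat_lit 0) (nat_lit 0) (nat_lit 0) (nat_lit 0x8017985b4) (nat_lit 536870912)]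
noncomputable def e29_22 : List Rx := [
  Rx.mk (nat_lit 128) (nat_lit 0) (nat_lit 0) (nat_lit 2) (nat_lit 4) (nat_lit 91) (nat_lit 212) r11_91 r0_212 (nat_lit 170327518) (nat_lit 18712504) (nat_lit 0) (nat_lit 0x72fa2386a) (nat_lit 937148384),
  Rx.mk (nat_lit 152) (nat_lit 0) (nat_lit 3) (nat_lit 2) (nat_lit 6) (nat_lit 97) (nat_lit 213) r11_97 r0_213 (nat_lit 153834335) (nat_lit 0) (nat_lit 0) (nat_lit 0x7ce2c9da4) (nat_lit 741924097),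
  Rx.mk (nat_lit 155) (nat_lit 3) (nat_lit 3) (nat_lit 2) (nat_lit 7) (nat_lit 98) (nat_lit 214) r11_98 r0_214 (nat_lit 0) (nat_lit 0) (nat_lit 0) (nat_lit 0x8056e7ad0) (nat_lit 532778862),
  Rx.mk (nat_lit 274) (nat_lit 2) (nat_lit 2) (nat_lit 4) (nat_lit 3) (nat_lit 94) (nat_lit 215) r11_94 r0_215 (nat_lit 0) (nat_lit 0) (nat_lit 14894858) (nat_lit 0x800926332) (nat_lit 552590770),
  Rx.mk (nat_lit 278) (nat_lit 6) (nat_lit 2) (nat_lit 4) (nat_lit 3) (nat_lit 96) (nat_lit 216) r11_96 r0_216 (nat_lit 0) (nat_lit 0) (nat_lit 12688314) (nat_lit 0x803b0d346) (nat_lit 547294026),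
  Rx.mk (nat_lit 310) (nat_lit 6) (nat_lit 6) (nat_lit 4) (nat_lit 3) (nat_lit 99) (nat_lit 217) r11_99 r0_217 (nat_lit 0) (nat_lit 0) (nat_lit 11279401) (nat_lit 0x78e6c8c2e) (nat_lit 663631063),
  Rx.mk (nat_lit 384) (nat_lit 0) (nat_lit 0) (nat_lit 6) (nat_lit 4) (nat_lit 92) (nat_lit 219) r11_92 r0_219 (nat_lit 9949213) (nat_lit 7944298) (nat_lit 0) (nat_lit 0x6fc82cfd0) (nat_lit 817619223),
  Rx.mk (nat_lit 386) (nat_lit 2) (nat_lit 0) (nat_lit 6) (nat_lit 5) (nat_lit 93) (nat_lit 220) r11_93 r0_220 (nat_lit 0) (nat_lit 15086968) (nat_lit 0) (nat_lit 0x80b26ae3e) (nat_lit 542475880),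
  Rx.mk (nat_lit 402) (nat_lit 2) (nat_lit 2) (nat_lit 6) (nat_lit 7) (nat_lit 95) (nat_lit 221) r11_95 r0_221 (nat_lit 0) (nat_lit 0) (nat_lit 0) (nat_lit 0x805e5975a) (nat_lit 532528962),
  Rx.mk (nat_lit 502) (nat_lit 6) (nat_lit 6) (nat_lit 7) (nat_lit 7) (nat_lit 100) (nat_lit 218) r11_100 r0_218 (nat_lit 0) (nat_lit 0) (nat_lit 0) (nat_lit 0x81065e126) (nat_lit 522185862)]
noncomputable def e29_23 : List Rx := [
  Rx.mk (nat_lit 128) (nat_lit 0) (nat_lit 0) (nat_lit 2) (nat_lit 4) (nat_lit 107) (nat_lit 234) r11_107 r1_234 (nat_lit 88719546) (nat_lit 26935402) (nat_lit 0) (nat_lit 0x76bea858e) (nat_lit 802950560),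
  Rx.mk (nat_lit 152) (nat_lit 0) (nat_lit 3) (nat_lit 2) (nat_lit 6) (nat_lit 111) (nat_lit 235) r11_111 r1_235 (nat_lit 25084538) (nat_lit 0) (nat_lit 0) (nat_lit 0x8001d6c6c) (nat_lit 563283450),
  Rx.mk (nat_lit 155) (nat_lit 3) (nat_lit 3) (nat_lit 2) (nat_lit 7) (nat_lit 112) (nat_lit 236) r11_112 r1_236 (nat_lit 0) (nat_lit 0) (nat_lit 0) (nat_lit 0x81471cbfe) (nat_lit 518335312),
  Rx.mk (nat_lit 384) (nat_lit 0) (nat_lit 0) (nat_lit 6) (nat_lit 4) (nat_lit 108) (nat_lit 237) r11_108 r1_237 (nat_lit 51763813) (nat_lit 45330043) (nat_lit 0) (nat_lit 0x7bfdcf3ca) (nat_lit 699634368),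
  Rx.mk (nat_lit 386) (nat_lit 2) (nat_lit 0) (nat_lit 6) (nat_lit 5) (nat_lit 109) (nat_lit 238) r11_109 r1_238 (nat_lit 0) (nat_lit 24741287) (nat_lit 0) (nat_lit 0x8017985b4) (nat_lit 561612199),
  Rx.mk (nat_lit 402) (nat_lit 2) (nat_lit 2) (nat_lit 6) (nat_lit 7) (nat_lit 110) (nat_lit 239) r11_110 r1_239 (nat_lit 0) (nat_lit 0) (nat_lit 0) (nat_lit 0x8017985b4) (nat_lit 536870912)]
noncomputable def e29_24 : List Rx := [
  Rx.mk (nat_lit 152) (nat_lit 0) (nat_lit 3) (nat_lit 2) (nat_lit 6) (nat_lit 131) (nat_lit 205) r11_131 r4_205 (nat_lit 31334360) (nat_lit 0) (nat_lit 0) (nat_lit 0x7f54de2a8) (nat_lit 580083322),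
  Rx.mk (nat_lit 155) (nat_lit 3) (nat_lit 3) (nat_lit 2) (nat_lit 7) (nat_lit 134) (nat_lit 206) r11_134 r4_206 (nat_lit 0) (nat_lit 0) (nat_lit 0) (nat_lit 0x81e84d53c) (nat_lit 508548712),
  Rx.mk (nat_lit 187) (nat_lit 3) (nat_lit 7) (nat_lit 2) (nat_lit 7) (nat_lit 136) (nat_lit 207) r11_136 r4_207 (nat_lit 0) (nat_lit 0) (nat_lit 0) (nat_lit 0x825f8dcd2) (nat_lit 501520162),
  Rx.mk (nat_lit 274) (nat_lit 2) (nat_lit 2) (nat_lit 4) (nat_lit 3) (nat_lit 127) (nat_lit 208) r11_127 r4_208 (nat_lit 0) (nat_lit 0) (nat_lit 12952000) (nat_lit 0x80562ac28) (nat_lit 545915612),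
  Rx.mk (nat_lit 278) (nat_lit 6) (nat_lit 2) (nat_lit 4) (nat_lit 3) (nat_lit 129) (nat_lit 209) r11_129 r4_209 (nat_lit 0) (nat_lit 0) (nat_lit 13063204) (nat_lit 0x7f229ebd0) (nat_lit 564962416),
  Rx.mk (nat_lit 384) (nat_lit 0) (nat_lit 0) (nat_lit 6) (nat_lit 4) (nat_lit 125) (nat_lit 212) r11_125 r4_212 (nat_lit 616962) (nat_lit 514055) (nat_lit 0) (nat_lit 0x69c2df4b6) (nat_lit 897748479),
  Rx.mk (nat_lit 386) (nat_lit 2) (nat_lit 0) (nat_lit 6) (nat_lit 5) (nat_lit 126) (nat_lit 214) r11_126 r4_214 (nat_lit 0) (nat_lit 10106242) (nat_lit 0) (nat_lit 0x8153a01f0) (nat_lit 527714454),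
  Rx.mk (nat_lit 402) (nat_lit 2) (nat_lit 2) (nat_lit 6) (nat_lit 7) (nat_lit 128) (nat_lit 216) r11_128 r4_216 (nat_lit 0) (nat_lit 0) (nat_lit 0) (nat_lit 0x80812fcde) (nat_lit 530394062),
  Rx.mk (nat_lit 408) (nat_lit 0) (nat_lit 3) (nat_lit 6) (nat_lit 6) (nat_lit 132) (nat_lit 213) r11_132 r4_213 (nat_lit 13764592) (nat_lit 0) (nat_lit 0) (nat_lit 0x8088c91ca) (nat_lit 543663854),
  Rx.mk (nat_lit 410) (nat_lit 2) (nat_lit 3) (nat_lit 6) (nat_lit 7) (nat_lit 133) (nat_lit 215) r11_133 r4_215 (nat_lit 0) (nat_lit 0) (nat_lit 0) (nat_lit 0x807403de4) (nat_lit 531198062),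
  Rx.mk (nat_lit 470) (nat_lit 6) (nat_lit 2) (nat_lit 7) (nat_lit 7) (nat_lit 130) (nat_lit 210) r11_130 r4_210 (nat_lit 0) (nat_lit 0) (nat_lit 0) (nat_lit 0x81dd34f24) (nat_lit 509302462),
  Rx.mk (nat_lit 502) (nat_lit 6) (nat_lit 6) (nat_lit 7) (nat_lit 7) (nat_lit 135) (nat_lit 211) r11_135 r4_211 (nat_lit 0) (nat_lit 0) (nat_lit 0) (nat_lit 0x80f168d7a) (nat_lit 523350662)]
noncomputable def e29_25 : List Rx := [
  Rx.mk (nat_lit 274) (nat_lit 2) (nat_lit 2) (nat_lit 4) (nat_lit 3) (nat_lit 102) (nat_lit 202) r11_102 r7_202 (nat_lit 0) (nat_lit 0) (nat_lit 24836041) (nat_lit 0x800a5d2d2) (nat_lit 562522353),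
  Rx.mk (nat_lit 278) (nat_lit 6) (nat_lit 2) (nat_lit 4) (nat_lit 3) (nat_lit 104) (nat_lit 201) r11_104 r7_201 (nat_lit 0) (nat_lit 0) (nat_lit 24741287) (nat_lit 0x8017985b4) (nat_lit 561612199),
  Rx.mk (nat_lit 310) (nat_lit 6) (nat_lit 6) (nat_lit 4) (nat_lit 3) (nat_lit 105) (nat_lit 198) r11_105 r7_198 (nat_lit 0) (nat_lit 0) (nat_lit 22333228) (nat_lit 0x7fea265d6) (nat_lit 561979440),
  Rx.mk (nat_lit 386) (nat_lit 2) (nat_lit 0) (nat_lit 6) (nat_lit 5) (nat_lit 101) (nat_lit 200) r11_101 r7_200 (nat_lit 0) (nat_lit 24741287) (nat_lit 0) (nat_lit 0x8017985b4) (nat_lit 561612199),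
  Rx.mk (nat_lit 402) (nat_lit 2) (nat_lit 2) (nat_lit 6) (nat_lit 7) (nat_lit 103) (nat_lit 203) r11_103 r7_203 (nat_lit 0) (nat_lit 0) (nat_lit 0) (nat_lit 0x8017985b4) (nat_lit 536870912),
  Rx.mk (nat_lit 502) (nat_lit 6) (nat_lit 6) (nat_lit 7) (nat_lit 7) (nat_lit 106) (nat_lit 199) r11_106 r7_199 (nat_lit 0) (nat_lit 0) (nat_lit 0) (nat_lit 0x8017985b4) (nat_lit 536870912)]
noncomputable def e29_26 : List Rx := [
  Rx.mk (nat_lit 386) (nat_lit 2) (nat_lit 0) (nat_lit 6) (nat_lit 5) (nat_lit 113) (nat_lit 157) r11_113 r8_157 (nat_lit 0) (nat_lit 24741287) (nat_lit 0) (nat_lit 0x8017985b4) (nat_lit 561612199),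
  Rx.mk (nat_lit 402) (nat_lit 2) (nat_lit 2) (nat_lit 6) (nat_lit 7) (nat_lit 114) (nat_lit 158) r11_114 r8_158 (nat_lit 0) (nat_lit 0) (nat_lit 0) (nat_lit 0x8017985b4) (nat_lit 536870912)]
noncomputable def e29_27 : List Rx := [
  Rx.mk (nat_lit 274) (nat_lit 2) (nat_lit 2) (nat_lit 4) (nat_lit 3) (nat_lit 115) (nat_lit 206) r11_115 r8_206 (nat_lit 0) (nat_lit 0) (nat_lit 24741287) (nat_lit 0x8017985b4) (nat_lit 561612199),
  Rx.mk (nat_lit 278) (nat_lit 6) (nat_lit 2) (nat_lit 4) (nat_lit 3) (nat_lit 118) (nat_lit 207) r11_118 r8_207 (nat_lit 0) (nat_lit 0) (nat_lit 24741287) (nat_lit 0x8017985b4) (nat_lit 561612199),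
  Rx.mk (nat_lit 310) (nat_lit 6) (nat_lit 6) (nat_lit 4) (nat_lit 3) (nat_lit 120) (nat_lit 208) r11_120 r8_208 (nat_lit 0) (nat_lit 0) (nat_lit 28059580) (nat_lit 0x7f58302f8) (nat_lit 576670492),
  Rx.mk (nat_lit 338) (nat_lit 2) (nat_lit 2) (nat_lit 5) (nat_lit 7) (nat_lit 116) (nat_lit 209) r11_116 r8_209 (nat_lit 0) (nat_lit 0) (nat_lit 0) (nat_lit 0x8017985b4) (nat_lit 536870912),
  Rx.mk (nat_lit 342) (nat_lit 6) (nat_lit 2) (nat_lit 5) (nat_lit 7) (nat_lit 119) (nat_lit 210) r11_119 r8_210 (nat_lit 0) (nat_lit 0) (nat_lit 0) (nat_lit 0x8017985b4) (nat_lit 536870912),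
  Rx.mk (nat_lit 374) (nat_lit 6) (nat_lit 6) (nat_lit 5) (nat_lit 7) (nat_lit 121) (nat_lit 211) r11_121 r8_211 (nat_lit 0) (nat_lit 0) (nat_lit 0) (nat_lit 0x8017985b4) (nat_lit 536870912),
  Rx.mk (nat_lit 402) (nat_lit 2) (nat_lit 2) (nat_lit 6) (nat_lit 7) (nat_lit 117) (nat_lit 213) r11_117 r8_213 (nat_lit 0) (nat_lit 0) (nat_lit 0) (nat_lit 0x8017985b4) (nat_lit 536870912),
  Rx.mk (nat_lit 502) (nat_lit 6) (nat_lit 6) (nat_lit 7) (nat_lit 7) (nat_lit 122) (nat_lit 212) r11_122 r8_212 (nat_lit 0) (nat_lit 0) (nat_lit 0) (nat_lit 0x8017985b4) (nat_lit 536870912)]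
noncomputable def e29_28 : List Rx := [
  Rx.mk (nat_lit 274) (nat_lit 2) (nat_lit 2) (nat_lit 4) (nat_lit 3) (nat_lit 138) (nat_lit 159) r11_138 r10_159 (nat_lit 0) (nat_lit 0) (nat_lit 24741287) (nat_lit 0x8017985b4) (nat_lit 561612199),
  Rx.mk (nat_lit 278) (nat_lit 6) (nat_lit 2) (nat_lit 4) (nat_lit 3) (nat_lit 140) (nat_lit 157) r11_140 r10_157 (nat_lit 0) (nat_lit 0) (nat_lit 24894793) (nat_lit 0x8000a4c72) (nat_lit 563170405),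
  Rx.mk (nat_lit 386) (nat_lit 2) (nat_lit 0) (nat_lit 6) (nat_lit 5) (nat_lit 137) (nat_lit 155) r11_137 r10_155 (nat_lit 0) (nat_lit 24741287) (nat_lit 0) (nat_lit 0x8017985b4) (nat_lit 561612199),
  Rx.mk (nat_lit 402) (nat_lit 2) (nat_lit 2) (nat_lit 6) (nat_lit 7) (nat_lit 139) (nat_lit 160) r11_139 r10_160 (nat_lit 0) (nat_lit 0) (nat_lit 0) (nat_lit 0x8017985b4) (nat_lit 536870912),
  Rx.mk (nat_lit 410) (nat_lit 2) (nat_lit 3) (nat_lit 6) (nat_lit 7) (nat_lit 142) (nat_lit 156) r11_142 r10_156 (nat_lit 0) (nat_lit 0) (nat_lit 0) (nat_lit 0x8017985b4) (nat_lit 536870912),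
  Rx.mk (nat_lit 470) (nat_lit 6) (nat_lit 2) (nat_lit 7) (nat_lit 7) (nat_lit 141) (nat_lit 158) r11_141 r10_158 (nat_lit 0) (nat_lit 0) (nat_lit 0) (nat_lit 0x8017985b4) (nat_lit 536870912),
  Rx.mk (nat_lit 502) (nat_lit 6) (nat_lit 6) (nat_lit 7) (nat_lit 7) (nat_lit 143) (nat_lit 154) r11_143 r10_154 (nat_lit 0) (nat_lit 0) (nat_lit 0) (nat_lit 0x8017985b4) (nat_lit 536870912)]
noncomputable def e29_29 : List Rx := [
  Rx.mk (nat_lit 63) (nat_lit 7) (nat_lit 7) (nat_lit 0) (nat_lit 3) (nat_lit 161) (nat_lit 146) r11_161 r11_146 (nat_lit 0) (nat_lit 0) (nat_lit 22142472) (nat_lit 0x800df71e0) (nat_lit 559592834),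
  Rx.mk (nat_lit 155) (nat_lit 3) (nat_lit 3) (nat_lit 2) (nat_lit 7) (nat_lit 152) (nat_lit 158) r11_152 r11_158 (nat_lit 0) (nat_lit 0) (nat_lit 0) (nat_lit 0x80b7ebb88) (nat_lit 527004212),
  Rx.mk (nat_lit 187) (nat_lit 3) (nat_lit 7) (nat_lit 2) (nat_lit 7) (nat_lit 160) (nat_lit 149) r11_160 r11_149 (nat_lit 0) (nat_lit 0) (nat_lit 0) (nat_lit 0x801359f98) (nat_lit 537129362),
  Rx.mk (nat_lit 191) (nat_lit 7) (nat_lit 7) (nat_lit 2) (nat_lit 7) (nat_lit 162) (nat_lit 148) r11_162 r11_148 (nat_lit 0) (nat_lit 0) (nat_lit 0) (nat_lit 0x8017985b4) (nat_lit 536870912),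
  Rx.mk (nat_lit 228) (nat_lit 4) (nat_lit 4) (nat_lit 3) (nat_lit 4) (nat_lit 154) (nat_lit 144) r11_154 r11_144 (nat_lit 2749576) (nat_lit 2309132) (nat_lit 0) (nat_lit 0x74869b7b0) (nat_lit 727898020),
  Rx.mk (nat_lit 231) (nat_lit 7) (nat_lit 4) (nat_lit 3) (nat_lit 5) (nat_lit 155) (nat_lit 145) r11_155 r11_145 (nat_lit 0) (nat_lit 19246826) (nat_lit 0) (nat_lit 0x8067e6958) (nat_lit 551201238),
  Rx.mk (nat_lit 244) (nat_lit 4) (nat_lit 6) (nat_lit 3) (nat_lit 6) (nat_lit 156) (nat_lit 150) r11_156 r11_150 (nat_lit 22669922) (nat_lit 0) (nat_lit 0) (nat_lit 0x800c22b12) (nat_lit 560231734),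
  Rx.mk (nat_lit 246) (nat_lit 6) (nat_lit 6) (nat_lit 3) (nat_lit 7) (nat_lit 157) (nat_lit 153) r11_157 r11_153 (nat_lit 0) (nat_lit 0) (nat_lit 0) (nat_lit 0x8017985b4) (nat_lit 536870912),
  Rx.mk (nat_lit 247) (nat_lit 7) (nat_lit 6) (nat_lit 3) (nat_lit 7) (nat_lit 159) (nat_lit 151) r11_159 r11_151 (nat_lit 0) (nat_lit 0) (nat_lit 0) (nat_lit 0x8017985b4) (nat_lit 536870912),
  Rx.mk (nat_lit 255) (nat_lit 7) (nat_lit 7) (nat_lit 3) (nat_lit 7) (nat_lit 163) (nat_lit 147) r11_163 r11_147 (nat_lit 0) (nat_lit 0) (nat_lit 0) (nat_lit 0x8017985b4) (nat_lit 536870912),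
  Rx.mk (nat_lit 274) (nat_lit 2) (nat_lit 2) (nat_lit 4) (nat_lit 3) (nat_lit 146) (nat_lit 161) r11_146 r11_161 (nat_lit 0) (nat_lit 0) (nat_lit 22142472) (nat_lit 0x800df71e0) (nat_lit 559592834),
  Rx.mk (nat_lit 384) (nat_lit 0) (nat_lit 0) (nat_lit 6) (nat_lit 4) (nat_lit 144) (nat_lit 154) r11_144 r11_154 (nat_lit 2749576) (nat_lit 2309132) (nat_lit 0) (nat_lit 0x74869b7b0) (nat_lit 727898020),
  Rx.mk (nat_lit 386) (nat_lit 2) (nat_lit 0) (nat_lit 6) (nat_lit 5) (nat_lit 145) (nat_lit 155) r11_145 r11_155 (nat_lit 0) (nat_lit 19246826) (nat_lit 0) (nat_lit 0x8067e6958) (nat_lit 551201238),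
  Rx.mk (nat_lit 402) (nat_lit 2) (nat_lit 2) (nat_lit 6) (nat_lit 7) (nat_lit 147) (nat_lit 163) r11_147 r11_163 (nat_lit 0) (nat_lit 0) (nat_lit 0) (nat_lit 0x8017985b4) (nat_lit 536870912),
  Rx.mk (nat_lit 408) (nat_lit 0) (nat_lit 3) (nat_lit 6) (nat_lit 6) (nat_lit 150) (nat_lit 156) r11_150 r11_156 (nat_lit 22669922) (nat_lit 0) (nat_lit 0) (nat_lit 0x800c22b12) (nat_lit 560231734),
  Rx.mk (nat_lit 410) (nat_lit 2) (nat_lit 3) (nat_lit 6) (nat_lit 7) (nat_lit 151) (nat_lit 159) r11_151 r11_159 (nat_lit 0) (nat_lit 0) (nat_lit 0) (nat_lit 0x8017985b4) (nat_lit 536870912),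
  Rx.mk (nat_lit 411) (nat_lit 3) (nat_lit 3) (nat_lit 6) (nat_lit 7) (nat_lit 153) (nat_lit 157) r11_153 r11_157 (nat_lit 0) (nat_lit 0) (nat_lit 0) (nat_lit 0x8017985b4) (nat_lit 536870912),
  Rx.mk (nat_lit 466) (nat_lit 2) (nat_lit 2) (nat_lit 7) (nat_lit 7) (nat_lit 148) (nat_lit 162) r11_148 r11_162 (nat_lit 0) (nat_lit 0) (nat_lit 0) (nat_lit 0x8017985b4) (nat_lit 536870912),
  Rx.mk (nat_lit 470) (nat_lit 6) (nat_lit 2) (nat_lit 7) (nat_lit 7) (nat_lit 149) (nat_lit 160) r11_149 r11_160 (nat_lit 0) (nat_lit 0) (nat_lit 0) (nat_lit 0x801359f98) (nat_lit 537129362),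
  Rx.mk (nat_lit 502) (nat_lit 6) (nat_lit 6) (nat_lit 7) (nat_lit 7) (nat_lit 158) (nat_lit 152) r11_158 r11_152 (nat_lit 0) (nat_lit 0) (nat_lit 0) (nat_lit 0x80b7ebb88) (nat_lit 527004212)]
noncomputable def e29_30 : List Rx := [
  Rx.mk (nat_lit 39) (nat_lit 7) (nat_lit 4) (nat_lit 0) (nat_lit 1) (nat_lit 273) (nat_lit 316) r11_273 r5_316 (nat_lit 0) (nat_lit 20649739) (nat_lit 21014715) (nat_lit 0x729e8ccc2) (nat_lit 795632066),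
  Rx.mk (nat_lit 47) (nat_lit 7) (nat_lit 5) (nat_lit 0) (nat_lit 3) (nat_lit 276) (nat_lit 317) r11_276 r5_317 (nat_lit 0) (nat_lit 0) (nat_lit 20064994) (nat_lit 0x807284b4e) (nat_lit 551341856),
  Rx.mk (nat_lit 55) (nat_lit 7) (nat_lit 6) (nat_lit 0) (nat_lit 3) (nat_lit 279) (nat_lit 318) r11_279 r5_318 (nat_lit 0) (nat_lit 0) (nat_lit 21930199) (nat_lit 0x8037c1084) (nat_lit 556823461),
  Rx.mk (nat_lit 103) (nat_lit 7) (nat_lit 4) (nat_lit 1) (nat_lit 5) (nat_lit 274) (nat_lit 319) r11_274 r5_319 (nat_lit 0) (nat_lit 24741287) (nat_lit 0) (nat_lit 0x8017985b4) (nat_lit 561612199),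
  Rx.mk (nat_lit 111) (nat_lit 7) (nat_lit 5) (nat_lit 1) (nat_lit 7) (nat_lit 277) (nat_lit 320) r11_277 r5_320 (nat_lit 0) (nat_lit 0) (nat_lit 0) (nat_lit 0x8017985b4) (nat_lit 536870912),
  Rx.mk (nat_lit 119) (nat_lit 7) (nat_lit 6) (nat_lit 1) (nat_lit 7) (nat_lit 280) (nat_lit 321) r11_280 r5_321 (nat_lit 0) (nat_lit 0) (nat_lit 0) (nat_lit 0x8017985b4) (nat_lit 536870912),
  Rx.mk (nat_lit 167) (nat_lit 7) (nat_lit 4) (nat_lit 2) (nat_lit 5) (nat_lit 275) (nat_lit 322) r11_275 r5_322 (nat_lit 0) (nat_lit 24086680) (nat_lit 0) (nat_lit 0x7f9584f64) (nat_lit 568953542),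
  Rx.mk (nat_lit 175) (nat_lit 7) (nat_lit 5) (nat_lit 2) (nat_lit 7) (nat_lit 278) (nat_lit 323) r11_278 r5_323 (nat_lit 0) (nat_lit 0) (nat_lit 0) (nat_lit 0x8017985b4) (nat_lit 536870912)]
noncomputable def e29_31 : List Rx := [
  Rx.mk (nat_lit 103) (nat_lit 7) (nat_lit 4) (nat_lit 1) (nat_lit 5) (nat_lit 281) (nat_lit 368) r11_281 r11_368 (nat_lit 0) (nat_lit 24741287) (nat_lit 0) (nat_lit 0x8017985b4) (nat_lit 561612199),
  Rx.mk (nat_lit 111) (nat_lit 7) (nat_lit 5) (nat_lit 1) (nat_lit 7) (nat_lit 282) (nat_lit 369) r11_282 r11_369 (nat_lit 0) (nat_lit 0) (nat_lit 0) (nat_lit 0x8017985b4) (nat_lit 536870912),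
  Rx.mk (nat_lit 119) (nat_lit 7) (nat_lit 6) (nat_lit 1) (nat_lit 7) (nat_lit 283) (nat_lit 370) r11_283 r11_370 (nat_lit 0) (nat_lit 0) (nat_lit 0) (nat_lit 0x8017985b4) (nat_lit 536870912)]
noncomputable def e29_32 : List Rx := [
  Rx.mk (nat_lit 163) (nat_lit 3) (nat_lit 4) (nat_lit 2) (nat_lit 5) (nat_lit 284) (nat_lit 254) r11_284 r6_254 (nat_lit 0) (nat_lit 4181752) (nat_lit 0) (nat_lit 0x80bce2e16) (nat_lit 530625764),
  Rx.mk (nat_lit 171) (nat_lit 3) (nat_lit 5) (nat_lit 2) (nat_lit 7) (nat_lit 285) (nat_lit 255) r11_285 r6_255 (nat_lit 0) (nat_lit 0) (nat_lit 0) (nat_lit 0x84db9c5a6) (nat_lit 463462512),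
  Rx.mk (nat_lit 187) (nat_lit 3) (nat_lit 7) (nat_lit 2) (nat_lit 7) (nat_lit 286) (nat_lit 256) r11_286 r6_256 (nat_lit 0) (nat_lit 0) (nat_lit 0) (nat_lit 0x8558f78ac) (nat_lit 456022662)]
noncomputable def e29_33 : List Rx := [
  Rx.mk (nat_lit 187) (nat_lit 3) (nat_lit 7) (nat_lit 2) (nat_lit 7) (nat_lit 265) (nat_lit 230) r11_265 r5_230 (nat_lit 0) (nat_lit 0) (nat_lit 0) (nat_lit 0x880aa8a68) (nat_lit 414822412)]
noncomputable def e29_34 : List Rx := []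
noncomputable def e29_35 : List Rx := [
  Rx.mk (nat_lit 39) (nat_lit 7) (nat_lit 4) (nat_lit 0) (nat_lit 1) (nat_lit 267) (nat_lit 356) r11_267 r6_356 (nat_lit 0) (nat_lit 5190488) (nat_lit 5930575) (nat_lit 0x76ef41074) (nat_lit 695185625),
  Rx.mk (nat_lit 47) (nat_lit 7) (nat_lit 5) (nat_lit 0) (nat_lit 3) (nat_lit 270) (nat_lit 359) r11_270 r6_359 (nat_lit 0) (nat_lit 0) (nat_lit 17138393) (nat_lit 0x806f00630) (nat_lit 548606105),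
  Rx.mk (nat_lit 55) (nat_lit 7) (nat_lit 6) (nat_lit 0) (nat_lit 3) (nat_lit 272) (nat_lit 362) r11_272 r6_362 (nat_lit 0) (nat_lit 0) (nat_lit 24741287) (nat_lit 0x8017985b4) (nat_lit 561612199),
  Rx.mk (nat_lit 163) (nat_lit 3) (nat_lit 4) (nat_lit 2) (nat_lit 5) (nat_lit 266) (nat_lit 357) r11_266 r6_357 (nat_lit 0) (nat_lit 4488265) (nat_lit 0) (nat_lit 0x805dc6720) (nat_lit 536687177),
  Rx.mk (nat_lit 167) (nat_lit 7) (nat_lit 4) (nat_lit 2) (nat_lit 5) (nat_lit 268) (nat_lit 358) r11_268 r6_358 (nat_lit 0) (nat_lit 18945663) (nat_lit 0) (nat_lit 0x804f12fb2) (nat_lit 552405325),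
  Rx.mk (nat_lit 171) (nat_lit 3) (nat_lit 5) (nat_lit 2) (nat_lit 7) (nat_lit 269) (nat_lit 360) r11_269 r6_360 (nat_lit 0) (nat_lit 0) (nat_lit 0) (nat_lit 0x84800501c) (nat_lit 468941562),
  Rx.mk (nat_lit 175) (nat_lit 7) (nat_lit 5) (nat_lit 2) (nat_lit 7) (nat_lit 271) (nat_lit 361) r11_271 r6_361 (nat_lit 0) (nat_lit 0) (nat_lit 0) (nat_lit 0x8017985b4) (nat_lit 536870912)]
noncomputable def e29_36 : List Rx := [
  Rx.mk (nat_lit 39) (nat_lit 7) (nat_lit 4) (nat_lit 0) (nat_lit 1) (nat_lit 288) (nat_lit 232) r11_288 r12_232 (nat_lit 0) (nat_lit 4468885) (nat_lit 4803434) (nat_lit 0x77fe54128) (nat_lit 676180381),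
  Rx.mk (nat_lit 47) (nat_lit 7) (nat_lit 5) (nat_lit 0) (nat_lit 3) (nat_lit 292) (nat_lit 235) r11_292 r12_235 (nat_lit 0) (nat_lit 0) (nat_lit 16057116) (nat_lit 0x7fc34d5cc) (nat_lit 558049628),
  Rx.mk (nat_lit 55) (nat_lit 7) (nat_lit 6) (nat_lit 0) (nat_lit 3) (nat_lit 295) (nat_lit 238) r11_295 r12_238 (nat_lit 0) (nat_lit 0) (nat_lit 21075625) (nat_lit 0x804227960) (nat_lit 555330187),
  Rx.mk (nat_lit 163) (nat_lit 3) (nat_lit 4) (nat_lit 2) (nat_lit 5) (nat_lit 287) (nat_lit 229) r11_287 r12_229 (nat_lit 0) (nat_lit 3201067) (nat_lit 0) (nat_lit 0x80c289022) (nat_lit 529188929),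
  Rx.mk (nat_lit 167) (nat_lit 7) (nat_lit 4) (nat_lit 2) (nat_lit 5) (nat_lit 289) (nat_lit 234) r11_289 r12_234 (nat_lit 0) (nat_lit 24820252) (nat_lit 0) (nat_lit 0x800bab5a8) (nat_lit 562420664),
  Rx.mk (nat_lit 171) (nat_lit 3) (nat_lit 5) (nat_lit 2) (nat_lit 7) (nat_lit 291) (nat_lit 230) r11_291 r12_230 (nat_lit 0) (nat_lit 0) (nat_lit 0) (nat_lit 0x8f490b628) (nat_lit 304348712),
  Rx.mk (nat_lit 175) (nat_lit 7) (nat_lit 5) (nat_lit 2) (nat_lit 7) (nat_lit 293) (nat_lit 237) r11_293 r12_237 (nat_lit 0) (nat_lit 0) (nat_lit 0) (nat_lit 0x7ff71c2cc) (nat_lit 538851962),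
  Rx.mk (nat_lit 187) (nat_lit 3) (nat_lit 7) (nat_lit 2) (nat_lit 7) (nat_lit 297) (nat_lit 231) r11_297 r12_231 (nat_lit 0) (nat_lit 0) (nat_lit 0) (nat_lit 0x853b3dfaa) (nat_lit 457742362),
  Rx.mk (nat_lit 231) (nat_lit 7) (nat_lit 4) (nat_lit 3) (nat_lit 5) (nat_lit 290) (nat_lit 233) r11_290 r12_233 (nat_lit 0) (nat_lit 9075693) (nat_lit 0) (nat_lit 0x80cd0b3ba) (nat_lit 534764955),
  Rx.mk (nat_lit 239) (nat_lit 7) (nat_lit 5) (nat_lit 3) (nat_lit 7) (nat_lit 294) (nat_lit 236) r11_294 r12_236 (nat_lit 0) (nat_lit 0) (nat_lit 0) (nat_lit 0x804e46f70) (nat_lit 533487162),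
  Rx.mk (nat_lit 247) (nat_lit 7) (nat_lit 6) (nat_lit 3) (nat_lit 7) (nat_lit 296) (nat_lit 239) r11_296 r12_239 (nat_lit 0) (nat_lit 0) (nat_lit 0) (nat_lit 0x8071a753c) (nat_lit 531344562)]
noncomputable def e29_37 : List Rx := [
  Rx.mk (nat_lit 136) (nat_lit 0) (nat_lit 1) (nat_lit 2) (nat_lit 6) (nat_lit 300) (nat_lit 226) r11_300 r0_226 (nat_lit 12926127) (nat_lit 0) (nat_lit 0) (nat_lit 0x800aea9a2) (nat_lit 550481389),
  Rx.mk (nat_lit 139) (nat_lit 3) (nat_lit 1) (nat_lit 2) (nat_lit 7) (nat_lit 301) (nat_lit 227) r11_301 r0_227 (nat_lit 0) (nat_lit 0) (nat_lit 0) (nat_lit 0x8257094c6) (nat_lit 501926062),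
  Rx.mk (nat_lit 168) (nat_lit 0) (nat_lit 5) (nat_lit 2) (nat_lit 6) (nat_lit 302) (nat_lit 225) r11_302 r0_225 (nat_lit 9444164) (nat_lit 0) (nat_lit 0) (nat_lit 0x7fd819c08) (nat_lit 550012926)]
noncomputable def e29_38 : List Rx := [
  Rx.mk (nat_lit 168) (nat_lit 0) (nat_lit 5) (nat_lit 2) (nat_lit 6) (nat_lit 298) (nat_lit 328) r11_298 r0_328 (nat_lit 19793988) (nat_lit 0) (nat_lit 0) (nat_lit 0x801bf7722) (nat_lit 556379500),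
  Rx.mk (nat_lit 169) (nat_lit 1) (nat_lit 5) (nat_lit 2) (nat_lit 7) (nat_lit 299) (nat_lit 329) r11_299 r0_329 (nat_lit 0) (nat_lit 0) (nat_lit 0) (nat_lit 0x8017985b4) (nat_lit 536870912)]
noncomputable def e29_39 : List Rx := [
  Rx.mk (nat_lit 136) (nat_lit 0) (nat_lit 1) (nat_lit 2) (nat_lit 6) (nat_lit 303) (nat_lit 289) r11_303 r7_289 (nat_lit 24741287) (nat_lit 0) (nat_lit 0) (nat_lit 0x8017985b4) (nat_lit 561612199),
  Rx.mk (nat_lit 137) (nat_lit 1) (nat_lit 1) (nat_lit 2) (nat_lit 7) (nat_lit 304) (nat_lit 291) r11_304 r7_291 (nat_lit 0) (nat_lit 0) (nat_lit 0) (nat_lit 0x8017985b4) (nat_lit 536870912),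
  Rx.mk (nat_lit 139) (nat_lit 3) (nat_lit 1) (nat_lit 2) (nat_lit 7) (nat_lit 305) (nat_lit 292) r11_305 r7_292 (nat_lit 0) (nat_lit 0) (nat_lit 0) (nat_lit 0x8017985b4) (nat_lit 536870912),
  Rx.mk (nat_lit 168) (nat_lit 0) (nat_lit 5) (nat_lit 2) (nat_lit 6) (nat_lit 306) (nat_lit 288) r11_306 r7_288 (nat_lit 19264518) (nat_lit 0) (nat_lit 0) (nat_lit 0x8067c11ee) (nat_lit 551226430),
  Rx.mk (nat_lit 169) (nat_lit 1) (nat_lit 5) (nat_lit 2) (nat_lit 7) (nat_lit 307) (nat_lit 290) r11_307 r7_290 (nat_lit 0) (nat_lit 0) (nat_lit 0) (nat_lit 0x8017985b4) (nat_lit 536870912)]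
noncomputable def e29_40 : List Rx := [
  Rx.mk (nat_lit 45) (nat_lit 5) (nat_lit 5) (nat_lit 0) (nat_lit 3) (nat_lit 340) (nat_lit 356) r11_340 r2_356 (nat_lit 0) (nat_lit 0) (nat_lit 27655321) (nat_lit 0x7fd1d42f8) (nat_lit 568815833),
  Rx.mk (nat_lit 109) (nat_lit 5) (nat_lit 5) (nat_lit 1) (nat_lit 7) (nat_lit 341) (nat_lit 357) r11_341 r2_357 (nat_lit 0) (nat_lit 0) (nat_lit 0) (nat_lit 0x8017985b4) (nat_lit 536870912),
  Rx.mk (nat_lit 169) (nat_lit 1) (nat_lit 5) (nat_lit 2) (nat_lit 7) (nat_lit 339) (nat_lit 358) r11_339 r2_358 (nat_lit 0) (nat_lit 0) (nat_lit 0) (nat_lit 0x8017985b4) (nat_lit 536870912),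
  Rx.mk (nat_lit 173) (nat_lit 5) (nat_lit 5) (nat_lit 2) (nat_lit 7) (nat_lit 342) (nat_lit 359) r11_342 r2_359 (nat_lit 0) (nat_lit 0) (nat_lit 0) (nat_lit 0x8017985b4) (nat_lit 536870912)]
noncomputable def e29_41 : List Rx := [
  Rx.mk (nat_lit 45) (nat_lit 5) (nat_lit 5) (nat_lit 0) (nat_lit 3) (nat_lit 347) (nat_lit 320) r11_347 r9_320 (nat_lit 0) (nat_lit 0) (nat_lit 34238693) (nat_lit 0x7ed4be032) (nat_lit 591026955),
  Rx.mk (nat_lit 109) (nat_lit 5) (nat_lit 5) (nat_lit 1) (nat_lit 7) (nat_lit 348) (nat_lit 321) r11_348 r9_321 (nat_lit 0) (nat_lit 0) (nat_lit 0) (nat_lit 0x8017985b4) (nat_lit 536870912),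
  Rx.mk (nat_lit 137) (nat_lit 1) (nat_lit 1) (nat_lit 2) (nat_lit 7) (nat_lit 345) (nat_lit 319) r11_345 r9_319 (nat_lit 0) (nat_lit 0) (nat_lit 0) (nat_lit 0x8017985b4) (nat_lit 536870912),
  Rx.mk (nat_lit 169) (nat_lit 1) (nat_lit 5) (nat_lit 2) (nat_lit 7) (nat_lit 346) (nat_lit 322) r11_346 r9_322 (nat_lit 0) (nat_lit 0) (nat_lit 0) (nat_lit 0x8017985b4) (nat_lit 536870912),
  Rx.mk (nat_lit 173) (nat_lit 5) (nat_lit 5) (nat_lit 2) (nat_lit 7) (nat_lit 349) (nat_lit 323) r11_349 r9_323 (nat_lit 0) (nat_lit 0) (nat_lit 0) (nat_lit 0x8017985b4) (nat_lit 536870912)]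
noncomputable def e29_42 : List Rx := [
  Rx.mk (nat_lit 109) (nat_lit 5) (nat_lit 5) (nat_lit 1) (nat_lit 7) (nat_lit 350) (nat_lit 327) r11_350 r9_327 (nat_lit 0) (nat_lit 0) (nat_lit 0) (nat_lit 0x8017985b4) (nat_lit 536870912)]
noncomputable def e29_43 : List Rx := [
  Rx.mk (nat_lit 169) (nat_lit 1) (nat_lit 5) (nat_lit 2) (nat_lit 7) (nat_lit 338) (nat_lit 310) r11_338 r1_310 (nat_lit 0) (nat_lit 0) (nat_lit 0) (nat_lit 0x8017985b4) (nat_lit 536870912)]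
noncomputable def e29_44 : List Rx := [
  Rx.mk (nat_lit 137) (nat_lit 1) (nat_lit 1) (nat_lit 2) (nat_lit 7) (nat_lit 343) (nat_lit 220) r11_343 r8_220 (nat_lit 0) (nat_lit 0) (nat_lit 0) (nat_lit 0x8017985b4) (nat_lit 536870912),
  Rx.mk (nat_lit 169) (nat_lit 1) (nat_lit 5) (nat_lit 2) (nat_lit 7) (nat_lit 344) (nat_lit 219) r11_344 r8_219 (nat_lit 0) (nat_lit 0) (nat_lit 0) (nat_lit 0x8017985b4) (nat_lit 536870912)]
noncomputable def e29_45 : List Rx := [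
  Rx.mk (nat_lit 136) (nat_lit 0) (nat_lit 1) (nat_lit 2) (nat_lit 6) (nat_lit 333) (nat_lit 244) r11_333 r1_244 (nat_lit 16971006) (nat_lit 0) (nat_lit 0) (nat_lit 0x8058c13c4) (nat_lit 549817368),
  Rx.mk (nat_lit 139) (nat_lit 3) (nat_lit 1) (nat_lit 2) (nat_lit 7) (nat_lit 334) (nat_lit 245) r11_334 r1_245 (nat_lit 0) (nat_lit 0) (nat_lit 0) (nat_lit 0x814704da6) (nat_lit 518377612)]
noncomputable def e29_46 : List Rx := [
  Rx.mk (nat_lit 128) (nat_lit 0) (nat_lit 0) (nat_lit 2) (nat_lit 4) (nat_lit 308) (nat_lit 260) r11_308 r2_260 (nat_lit 36134950) (nat_lit 25006969) (nat_lit 0) (nat_lit 0x75d2a943a) (nat_lit 763343081),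
  Rx.mk (nat_lit 131) (nat_lit 3) (nat_lit 0) (nat_lit 2) (nat_lit 5) (nat_lit 311) (nat_lit 262) r11_311 r2_262 (nat_lit 0) (nat_lit 24741287) (nat_lit 0) (nat_lit 0x8017985b4) (nat_lit 561612199),
  Rx.mk (nat_lit 136) (nat_lit 0) (nat_lit 1) (nat_lit 2) (nat_lit 6) (nat_lit 312) (nat_lit 261) r11_312 r2_261 (nat_lit 24741287) (nat_lit 0) (nat_lit 0) (nat_lit 0x8017985b4) (nat_lit 561612199),
  Rx.mk (nat_lit 139) (nat_lit 3) (nat_lit 1) (nat_lit 2) (nat_lit 7) (nat_lit 315) (nat_lit 263) r11_315 r2_263 (nat_lit 0) (nat_lit 0) (nat_lit 0) (nat_lit 0x8017985b4) (nat_lit 536870912),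
  Rx.mk (nat_lit 155) (nat_lit 3) (nat_lit 3) (nat_lit 2) (nat_lit 7) (nat_lit 317) (nat_lit 264) r11_317 r2_264 (nat_lit 0) (nat_lit 0) (nat_lit 0) (nat_lit 0x8017985b4) (nat_lit 536870912),
  Rx.mk (nat_lit 384) (nat_lit 0) (nat_lit 0) (nat_lit 6) (nat_lit 4) (nat_lit 309) (nat_lit 258) r11_309 r2_258 (nat_lit 47863837) (nat_lit 33757685) (nat_lit 0) (nat_lit 0x7c693e598) (nat_lit 677403034),
  Rx.mk (nat_lit 386) (nat_lit 2) (nat_lit 0) (nat_lit 6) (nat_lit 5) (nat_lit 310) (nat_lit 265) r11_310 r2_265 (nat_lit 0) (nat_lit 24741287) (nat_lit 0) (nat_lit 0x8017985b4) (nat_lit 561612199),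
  Rx.mk (nat_lit 392) (nat_lit 0) (nat_lit 1) (nat_lit 6) (nat_lit 6) (nat_lit 313) (nat_lit 259) r11_313 r2_259 (nat_lit 24741287) (nat_lit 0) (nat_lit 0) (nat_lit 0x8017985b4) (nat_lit 561612199),
  Rx.mk (nat_lit 394) (nat_lit 2) (nat_lit 1) (nat_lit 6) (nat_lit 7) (nat_lit 314) (nat_lit 266) r11_314 r2_266 (nat_lit 0) (nat_lit 0) (nat_lit 0) (nat_lit 0x8017985b4) (nat_lit 536870912),
  Rx.mk (nat_lit 402) (nat_lit 2) (nat_lit 2) (nat_lit 6) (nat_lit 7) (nat_lit 316) (nat_lit 267) r11_316 r2_267 (nat_lit 0) (nat_lit 0) (nat_lit 0) (nat_lit 0x8017985b4) (nat_lit 536870912)]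
noncomputable def e29_47 : List Rx := [
  Rx.mk (nat_lit 136) (nat_lit 0) (nat_lit 1) (nat_lit 2) (nat_lit 6) (nat_lit 335) (nat_lit 358) r11_335 r8_358 (nat_lit 24741287) (nat_lit 0) (nat_lit 0) (nat_lit 0x8017985b4) (nat_lit 561612199),
  Rx.mk (nat_lit 137) (nat_lit 1) (nat_lit 1) (nat_lit 2) (nat_lit 7) (nat_lit 336) (nat_lit 359) r11_336 r8_359 (nat_lit 0) (nat_lit 0) (nat_lit 0) (nat_lit 0x8017985b4) (nat_lit 536870912),
  Rx.mk (nat_lit 139) (nat_lit 3) (nat_lit 1) (nat_lit 2) (nat_lit 7) (nat_lit 337) (nat_lit 360) r11_337 r8_360 (nat_lit 0) (nat_lit 0) (nat_lit 0) (nat_lit 0x8017985b4) (nat_lit 536870912)]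
noncomputable def e29_48 : List Rx := [
  Rx.mk (nat_lit 128) (nat_lit 0) (nat_lit 0) (nat_lit 2) (nat_lit 4) (nat_lit 318) (nat_lit 231) r11_318 r9_231 (nat_lit 43848106) (nat_lit 43672610) (nat_lit 0) (nat_lit 0x78800f28a) (nat_lit 746426178),
  Rx.mk (nat_lit 131) (nat_lit 3) (nat_lit 0) (nat_lit 2) (nat_lit 5) (nat_lit 321) (nat_lit 235) r11_321 r9_235 (nat_lit 0) (nat_lit 24741287) (nat_lit 0) (nat_lit 0x8017985b4) (nat_lit 561612199),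
  Rx.mk (nat_lit 136) (nat_lit 0) (nat_lit 1) (nat_lit 2) (nat_lit 6) (nat_lit 322) (nat_lit 232) r11_322 r9_232 (nat_lit 24741287) (nat_lit 0) (nat_lit 0) (nat_lit 0x8017985b4) (nat_lit 561612199),
  Rx.mk (nat_lit 137) (nat_lit 1) (nat_lit 1) (nat_lit 2) (nat_lit 7) (nat_lit 324) (nat_lit 234) r11_324 r9_234 (nat_lit 0) (nat_lit 0) (nat_lit 0) (nat_lit 0x8017985b4) (nat_lit 536870912),
  Rx.mk (nat_lit 139) (nat_lit 3) (nat_lit 1) (nat_lit 2) (nat_lit 7) (nat_lit 327) (nat_lit 236) r11_327 r9_236 (nat_lit 0) (nat_lit 0) (nat_lit 0) (nat_lit 0x8017985b4) (nat_lit 536870912),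
  Rx.mk (nat_lit 155) (nat_lit 3) (nat_lit 3) (nat_lit 2) (nat_lit 7) (nat_lit 329) (nat_lit 237) r11_329 r9_237 (nat_lit 0) (nat_lit 0) (nat_lit 0) (nat_lit 0x8017985b4) (nat_lit 536870912),
  Rx.mk (nat_lit 384) (nat_lit 0) (nat_lit 0) (nat_lit 6) (nat_lit 4) (nat_lit 319) (nat_lit 229) r11_319 r9_229 (nat_lit 47287016) (nat_lit 47287016) (nat_lit 0) (nat_lit 0x7cbaf48b0) (nat_lit 685204344),
  Rx.mk (nat_lit 386) (nat_lit 2) (nat_lit 0) (nat_lit 6) (nat_lit 5) (nat_lit 320) (nat_lit 238) r11_320 r9_238 (nat_lit 0) (nat_lit 24741287) (nat_lit 0) (nat_lit 0x8017985b4) (nat_lit 561612199),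
  Rx.mk (nat_lit 392) (nat_lit 0) (nat_lit 1) (nat_lit 6) (nat_lit 6) (nat_lit 323) (nat_lit 230) r11_323 r9_230 (nat_lit 24741287) (nat_lit 0) (nat_lit 0) (nat_lit 0x8017985b4) (nat_lit 561612199),
  Rx.mk (nat_lit 393) (nat_lit 1) (nat_lit 1) (nat_lit 6) (nat_lit 7) (nat_lit 325) (nat_lit 233) r11_325 r9_233 (nat_lit 0) (nat_lit 0) (nat_lit 0) (nat_lit 0x8017985b4) (nat_lit 536870912),
  Rx.mk (nat_lit 394) (nat_lit 2) (nat_lit 1) (nat_lit 6) (nat_lit 7) (nat_lit 326) (nat_lit 239) r11_326 r9_239 (nat_lit 0) (nat_lit 0) (nat_lit 0) (nat_lit 0x8017985b4) (nat_lit 536870912),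
  Rx.mk (nat_lit 402) (nat_lit 2) (nat_lit 2) (nat_lit 6) (nat_lit 7) (nat_lit 328) (nat_lit 240) r11_328 r9_240 (nat_lit 0) (nat_lit 0) (nat_lit 0) (nat_lit 0x8017985b4) (nat_lit 536870912)]
noncomputable def e29_49 : List Rx := [
  Rx.mk (nat_lit 386) (nat_lit 2) (nat_lit 0) (nat_lit 6) (nat_lit 5) (nat_lit 330) (nat_lit 216) r11_330 r9_216 (nat_lit 0) (nat_lit 24741287) (nat_lit 0) (nat_lit 0x8017985b4) (nat_lit 561612199),
  Rx.mk (nat_lit 394) (nat_lit 2) (nat_lit 1) (nat_lit 6) (nat_lit 7) (nat_lit 331) (nat_lit 217) r11_331 r9_217 (nat_lit 0) (nat_lit 0) (nat_lit 0) (nat_lit 0x8017985b4) (nat_lit 536870912),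
  Rx.mk (nat_lit 402) (nat_lit 2) (nat_lit 2) (nat_lit 6) (nat_lit 7) (nat_lit 332) (nat_lit 218) r11_332 r9_218 (nat_lit 0) (nat_lit 0) (nat_lit 0) (nat_lit 0x8017985b4) (nat_lit 536870912)]
noncomputable def e29_50 : List Rx := [
  Rx.mk (nat_lit 168) (nat_lit 0) (nat_lit 5) (nat_lit 2) (nat_lit 6) (nat_lit 351) (nat_lit 225) r11_351 r3_225 (nat_lit 9974206) (nat_lit 0) (nat_lit 0) (nat_lit 0x7a7d1cf58) (nat_lit 636241818),
  Rx.mk (nat_lit 171) (nat_lit 3) (nat_lit 5) (nat_lit 2) (nat_lit 7) (nat_lit 352) (nat_lit 226) r11_352 r3_226 (nat_lit 0) (nat_lit 0) (nat_lit 0) (nat_lit 0x885a32e30) (nat_lit 409617212)]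
noncomputable def e29_51 : List Rx := [
  Rx.mk (nat_lit 139) (nat_lit 3) (nat_lit 1) (nat_lit 2) (nat_lit 7) (nat_lit 357) (nat_lit 228) r11_357 r4_228 (nat_lit 0) (nat_lit 0) (nat_lit 0) (nat_lit 0x850b42e04) (nat_lit 460662012),
  Rx.mk (nat_lit 168) (nat_lit 0) (nat_lit 5) (nat_lit 2) (nat_lit 6) (nat_lit 358) (nat_lit 226) r11_358 r4_226 (nat_lit 11487859) (nat_lit 0) (nat_lit 0) (nat_lit 0x7fe0ccc6a) (nat_lit 551547221),
  Rx.mk (nat_lit 171) (nat_lit 3) (nat_lit 5) (nat_lit 2) (nat_lit 7) (nat_lit 359) (nat_lit 227) r11_359 r4_227 (nat_lit 0) (nat_lit 0) (nat_lit 0) (nat_lit 0x82046c2cc) (nat_lit 506848662)]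
noncomputable def e29_52 : List Rx := [
  Rx.mk (nat_lit 168) (nat_lit 0) (nat_lit 5) (nat_lit 2) (nat_lit 6) (nat_lit 366) (nat_lit 240) r11_366 r5_240 (nat_lit 12925908) (nat_lit 0) (nat_lit 0) (nat_lit 0x804d82ed6) (nat_lit 546213020),
  Rx.mk (nat_lit 171) (nat_lit 3) (nat_lit 5) (nat_lit 2) (nat_lit 7) (nat_lit 367) (nat_lit 241) r11_367 r5_241 (nat_lit 0) (nat_lit 0) (nat_lit 0) (nat_lit 0x834f94230) (nat_lit 487057512)]
noncomputable def e29_53 : List Rx := [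
  Rx.mk (nat_lit 168) (nat_lit 0) (nat_lit 5) (nat_lit 2) (nat_lit 6) (nat_lit 353) (nat_lit 363) r11_353 r4_363 (nat_lit 18792813) (nat_lit 0) (nat_lit 0) (nat_lit 0x7fd5d2af8) (nat_lit 559647725),
  Rx.mk (nat_lit 169) (nat_lit 1) (nat_lit 5) (nat_lit 2) (nat_lit 7) (nat_lit 354) (nat_lit 364) r11_354 r4_364 (nat_lit 0) (nat_lit 0) (nat_lit 0) (nat_lit 0x8047a5cb6) (nat_lit 533919512),
  Rx.mk (nat_lit 171) (nat_lit 3) (nat_lit 5) (nat_lit 2) (nat_lit 7) (nat_lit 355) (nat_lit 365) r11_355 r4_365 (nat_lit 0) (nat_lit 0) (nat_lit 0) (nat_lit 0x8026a1380) (nat_lit 535916512)]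
noncomputable def e29_54 : List Rx := [
  Rx.mk (nat_lit 139) (nat_lit 3) (nat_lit 1) (nat_lit 2) (nat_lit 7) (nat_lit 360) (nat_lit 243) r11_360 r10_243 (nat_lit 0) (nat_lit 0) (nat_lit 0) (nat_lit 0x8017985b4) (nat_lit 536870912),
  Rx.mk (nat_lit 168) (nat_lit 0) (nat_lit 5) (nat_lit 2) (nat_lit 6) (nat_lit 361) (nat_lit 240) r11_361 r10_240 (nat_lit 20709188) (nat_lit 0) (nat_lit 0) (nat_lit 0x804c96cf2) (nat_lit 554327950),
  Rx.mk (nat_lit 169) (nat_lit 1) (nat_lit 5) (nat_lit 2) (nat_lit 7) (nat_lit 362) (nat_lit 241) r11_362 r10_241 (nat_lit 0) (nat_lit 0) (nat_lit 0) (nat_lit 0x8017985b4) (nat_lit 536870912),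
  Rx.mk (nat_lit 171) (nat_lit 3) (nat_lit 5) (nat_lit 2) (nat_lit 7) (nat_lit 363) (nat_lit 242) r11_363 r10_242 (nat_lit 0) (nat_lit 0) (nat_lit 0) (nat_lit 0x8017985b4) (nat_lit 536870912)]
noncomputable def e29_55 : List Rx := [
  Rx.mk (nat_lit 168) (nat_lit 0) (nat_lit 5) (nat_lit 2) (nat_lit 6) (nat_lit 368) (nat_lit 281) r11_368 r11_281 (nat_lit 24741287) (nat_lit 0) (nat_lit 0) (nat_lit 0x8017985b4) (nat_lit 561612199),
  Rx.mk (nat_lit 169) (nat_lit 1) (nat_lit 5) (nat_lit 2) (nat_lit 7) (nat_lit 369) (nat_lit 282) r11_369 r11_282 (nat_lit 0) (nat_lit 0) (nat_lit 0) (nat_lit 0x8017985b4) (nat_lit 536870912),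
  Rx.mk (nat_lit 171) (nat_lit 3) (nat_lit 5) (nat_lit 2) (nat_lit 7) (nat_lit 370) (nat_lit 283) r11_370 r11_283 (nat_lit 0) (nat_lit 0) (nat_lit 0) (nat_lit 0x8017985b4) (nat_lit 536870912)]
noncomputable def e29_56 : List Rx := [
  Rx.mk (nat_lit 171) (nat_lit 3) (nat_lit 5) (nat_lit 2) (nat_lit 7) (nat_lit 356) (nat_lit 310) r11_356 r5_310 (nat_lit 0) (nat_lit 0) (nat_lit 0) (nat_lit 0x81691ae72) (nat_lit 516102862)]
noncomputable def e29_57 : List Rx := [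
  Rx.mk (nat_lit 139) (nat_lit 3) (nat_lit 1) (nat_lit 2) (nat_lit 7) (nat_lit 364) (nat_lit 364) r11_364 r11_364 (nat_lit 0) (nat_lit 0) (nat_lit 0) (nat_lit 0x8017985b4) (nat_lit 536870912),
  Rx.mk (nat_lit 171) (nat_lit 3) (nat_lit 5) (nat_lit 2) (nat_lit 7) (nat_lit 365) (nat_lit 365) r11_365 r11_365 (nat_lit 0) (nat_lit 0) (nat_lit 0) (nat_lit 0x80801aaba) (nat_lit 530459962)]
noncomputable def e29 : List (List Rx) := [e29_0, e29_1, e29_2, e29_3, e29_4, e29_5, e29_6, e29_7, e29_8, e29_9, e29_10, e29_11, e29_12, e29_13, e29_14, e29_15, e29_16, e29_17, e29_18, e29_19, e29_20, e29_21, e29_22, e29_23, e29_24, e29_25, e29_26, e29_27, e29_28, e29_29, e29_30, e29_31, e29_32, e29_33, e29_34, e29_35, e29_36, e29_37, e29_38, e29_39, e29_40, e29_41, e29_42, e29_43, e29_44, e29_45, e29_46, e29_47, e29_48, e29_49, e29_50, e29_51, e29_52, e29_53, e29_54, e29_55, e29_56,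 e29_57]
noncomputable def e30_0 : List Rx := [
  Rx.mk (nat_lit 2) (nat_lit 2) (nat_lit 0) (nat_lit 0) (nat_lit 1) (nat_lit 94) (nat_lit 204) r5_94 r0_204 (nat_lit 0) (nat_lit 538423) (nat_lit 46998) (nat_lit 0x84bca4798) (nat_lit 465237583),
  Rx.mk (nat_lit 6) (nat_lit 6) (nat_lit 0) (nat_lit 0) (nat_lit 1) (nat_lit 95) (nat_lit 209) r5_95 r0_209 (nat_lit 0) (nat_lit 20620) (nat_lit 14014) (nat_lit 0x76e524eec) (nat_lit 684143846),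
  Rx.mk (nat_lit 22) (nat_lit 6) (nat_lit 2) (nat_lit 0) (nat_lit 3) (nat_lit 96) (nat_lit 210) r5_96 r0_210 (nat_lit 0) (nat_lit 0) (nat_lit 6178764) (nat_lit 0x7f794ecf0) (nat_lit 552570776),
  Rx.mk (nat_lit 148) (nat_lit 4) (nat_lit 2) (nat_lit 2) (nat_lit 6) (nat_lit 97) (nat_lit 207) r5_97 r0_207 (nat_lit 10938667) (nat_lit 0) (nat_lit 0) (nat_lit 0x6b03cd2ce) (nat_lit 887781329),
  Rx.mk (nat_lit 150) (nat_lit 6) (nat_lit 2) (nat_lit 2) (nat_lit 7) (nat_lit 98) (nat_lit 211) r5_98 r0_211 (nat_lit 0) (nat_lit 0) (nat_lit 0) (nat_lit 0x8017985b4) (nat_lit 536870912),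
  Rx.mk (nat_lit 180) (nat_lit 4) (nat_lit 6) (nat_lit 2) (nat_lit 6) (nat_lit 99) (nat_lit 208) r5_99 r0_208 (nat_lit 9650169) (nat_lit 0) (nat_lit 0) (nat_lit 0x70202c884) (nat_lit 803847431),
  Rx.mk (nat_lit 194) (nat_lit 2) (nat_lit 0) (nat_lit 3) (nat_lit 5) (nat_lit 100) (nat_lit 205) r5_100 r0_205 (nat_lit 0) (nat_lit 331782363) (nat_lit 0) (nat_lit 0x7cda33514) (nat_lit 920285625),
  Rx.mk (nat_lit 218) (nat_lit 2) (nat_lit 3) (nat_lit 3) (nat_lit 7) (nat_lit 101) (nat_lit 206) r5_101 r0_206 (nat_lit 0) (nat_lit 0) (nat_lit 0) (nat_lit 0x67513425a) (nat_lit 936576412)]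
noncomputable def e30_1 : List Rx := [
  Rx.mk (nat_lit 2) (nat_lit 2) (nat_lit 0) (nat_lit 0) (nat_lit 1) (nat_lit 106) (nat_lit 225) r5_106 r1_225 (nat_lit 0) (nat_lit 183334041) (nat_lit 1138385) (nat_lit 0x858f1770c) (nat_lit 636880238),
  Rx.mk (nat_lit 6) (nat_lit 6) (nat_lit 0) (nat_lit 0) (nat_lit 1) (nat_lit 107) (nat_lit 229) r5_107 r1_229 (nat_lit 0) (nat_lit 5641616) (nat_lit 3281434) (nat_lit 0x6d31d3d56) (nat_lit 850354662),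
  Rx.mk (nat_lit 22) (nat_lit 6) (nat_lit 2) (nat_lit 0) (nat_lit 3) (nat_lit 108) (nat_lit 231) r5_108 r1_231 (nat_lit 0) (nat_lit 0) (nat_lit 13555305) (nat_lit 0x7b2b08126) (nat_lit 629326967),
  Rx.mk (nat_lit 66) (nat_lit 2) (nat_lit 0) (nat_lit 1) (nat_lit 5) (nat_lit 109) (nat_lit 226) r5_109 r1_226 (nat_lit 0) (nat_lit 20365735) (nat_lit 0) (nat_lit 0x82689a0c8) (nat_lit 521307397),
  Rx.mk (nat_lit 70) (nat_lit 6) (nat_lit 0) (nat_lit 1) (nat_lit 5) (nat_lit 110) (nat_lit 230) r5_110 r1_230 (nat_lit 0) (nat_lit 14046649) (nat_lit 0) (nat_lit 0x808591f7a) (nat_lit 544109911),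
  Rx.mk (nat_lit 86) (nat_lit 6) (nat_lit 2) (nat_lit 1) (nat_lit 7) (nat_lit 111) (nat_lit 232) r5_111 r1_232 (nat_lit 0) (nat_lit 0) (nat_lit 0) (nat_lit 0x8017985b4) (nat_lit 536870912),
  Rx.mk (nat_lit 150) (nat_lit 6) (nat_lit 2) (nat_lit 2) (nat_lit 7) (nat_lit 112) (nat_lit 233) r5_112 r1_233 (nat_lit 0) (nat_lit 0) (nat_lit 0) (nat_lit 0x8017985b4) (nat_lit 536870912),
  Rx.mk (nat_lit 194) (nat_lit 2) (nat_lit 0) (nat_lit 3) (nat_lit 5) (nat_lit 113) (nat_lit 227) r5_113 r1_227 (nat_lit 0) (nat_lit 34273461) (nat_lit 0) (nat_lit 0x80eb8917a) (nat_lit 558087723),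
  Rx.mk (nat_lit 218) (nat_lit 2) (nat_lit 3) (nat_lit 3) (nat_lit 7) (nat_lit 114) (nat_lit 228) r5_114 r1_228 (nat_lit 0) (nat_lit 0) (nat_lit 0) (nat_lit 0x80759d768) (nat_lit 530997812)]
noncomputable def e30_2 : List Rx := [
  Rx.mk (nat_lit 66) (nat_lit 2) (nat_lit 0) (nat_lit 1) (nat_lit 5) (nat_lit 258) (nat_lit 238) r5_258 r2_238 (nat_lit 0) (nat_lit 39193482) (nat_lit 0) (nat_lit 0x80a1c8662) (nat_lit 567515444),
  Rx.mk (nat_lit 70) (nat_lit 6) (nat_lit 0) (nat_lit 1) (nat_lit 5) (nat_lit 259) (nat_lit 239) r5_259 r2_239 (nat_lit 0) (nat_lit 20262659) (nat_lit 0) (nat_lit 0x7ffd89060) (nat_lit 558709871),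
  Rx.mk (nat_lit 86) (nat_lit 6) (nat_lit 2) (nat_lit 1) (nat_lit 7) (nat_lit 260) (nat_lit 240) r5_260 r2_240 (nat_lit 0) (nat_lit 0) (nat_lit 0) (nat_lit 0x8017985b4) (nat_lit 536870912)]
noncomputable def e30_3 : List Rx := [
  Rx.mk (nat_lit 22) (nat_lit 6) (nat_lit 2) (nat_lit 0) (nat_lit 3) (nat_lit 16) (nat_lit 212) r5_16 r3_212 (nat_lit 0) (nat_lit 0) (nat_lit 221843) (nat_lit 0x79aa7fb2c) (nat_lit 639578955),
  Rx.mk (nat_lit 148) (nat_lit 4) (nat_lit 2) (nat_lit 2) (nat_lit 6) (nat_lit 17) (nat_lit 207) r5_17 r3_207 (nat_lit 16744) (nat_lit 0) (nat_lit 0) (nat_lit 0x750724bf2) (nat_lit 714320356),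
  Rx.mk (nat_lit 150) (nat_lit 6) (nat_lit 2) (nat_lit 2) (nat_lit 7) (nat_lit 18) (nat_lit 214) r5_18 r3_214 (nat_lit 0) (nat_lit 0) (nat_lit 0) (nat_lit 0x7a87b5e10) (nat_lit 626124662),
  Rx.mk (nat_lit 180) (nat_lit 4) (nat_lit 6) (nat_lit 2) (nat_lit 6) (nat_lit 19) (nat_lit 208) r5_19 r3_208 (nat_lit 189369) (nat_lit 0) (nat_lit 0) (nat_lit 0x726ece4ea) (nat_lit 756498431),
  Rx.mk (nat_lit 183) (nat_lit 7) (nat_lit 6) (nat_lit 2) (nat_lit 7) (nat_lit 20) (nat_lit 209) r5_20 r3_209 (nat_lit 0) (nat_lit 0) (nat_lit 0) (nat_lit 0x8463a3ca2) (nat_lit 470475612),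
  Rx.mk (nat_lit 194) (nat_lit 2) (nat_lit 0) (nat_lit 3) (nat_lit 5) (nat_lit 21) (nat_lit 204) r5_21 r3_204 (nat_lit 0) (nat_lit 10455) (nat_lit 0) (nat_lit 0x8008c36ba) (nat_lit 536361367),
  Rx.mk (nat_lit 198) (nat_lit 6) (nat_lit 0) (nat_lit 3) (nat_lit 5) (nat_lit 22) (nat_lit 211) r5_22 r3_211 (nat_lit 0) (nat_lit 101429) (nat_lit 0) (nat_lit 0x75fc83cd8) (nat_lit 698920341),
  Rx.mk (nat_lit 214) (nat_lit 6) (nat_lit 2) (nat_lit 3) (nat_lit 7) (nat_lit 23) (nat_lit 213) r5_23 r3_213 (nat_lit 0) (nat_lit 0) (nat_lit 0) (nat_lit 0x8fbafdd30) (nat_lit 297369762),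
  Rx.mk (nat_lit 218) (nat_lit 2) (nat_lit 3) (nat_lit 3) (nat_lit 7) (nat_lit 24) (nat_lit 205) r5_24 r3_205 (nat_lit 0) (nat_lit 0) (nat_lit 0) (nat_lit 0x74ad72000) (nat_lit 720619462),
  Rx.mk (nat_lit 439) (nat_lit 7) (nat_lit 6) (nat_lit 6) (nat_lit 7) (nat_lit 25) (nat_lit 210) r5_25 r3_210 (nat_lit 0) (nat_lit 0) (nat_lit 0) (nat_lit 0x6ac4b35b6) (nat_lit 880256562),
  Rx.mk (nat_lit 474) (nat_lit 2) (nat_lit 3) (nat_lit 7) (nat_lit 7) (nat_lit 26) (nat_lit 206) r5_26 r3_206 (nat_lit 0) (nat_lit 0) (nat_lit 0) (nat_lit 0x7f169299a) (nat_lit 552155012)]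
noncomputable def e30_4 : List Rx := [
  Rx.mk (nat_lit 6) (nat_lit 6) (nat_lit 0) (nat_lit 0) (nat_lit 1) (nat_lit 124) (nat_lit 200) r5_124 r4_200 (nat_lit 0) (nat_lit 27807) (nat_lit 19134) (nat_lit 0x6beaf468e) (nat_lit 861670253),
  Rx.mk (nat_lit 22) (nat_lit 6) (nat_lit 2) (nat_lit 0) (nat_lit 3) (nat_lit 125) (nat_lit 202) r5_125 r4_202 (nat_lit 0) (nat_lit 0) (nat_lit 4444174) (nat_lit 0x7f2401202) (nat_lit 556007186),
  Rx.mk (nat_lit 148) (nat_lit 4) (nat_lit 2) (nat_lit 2) (nat_lit 6) (nat_lit 126) (nat_lit 197) r5_126 r4_197 (nat_lit 10127202) (nat_lit 0) (nat_lit 0) (nat_lit 0x78e0d6154) (nat_lit 662850514),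
  Rx.mk (nat_lit 150) (nat_lit 6) (nat_lit 2) (nat_lit 2) (nat_lit 7) (nat_lit 127) (nat_lit 204) r5_127 r4_204 (nat_lit 0) (nat_lit 0) (nat_lit 0) (nat_lit 0x8017985b4) (nat_lit 536870912),
  Rx.mk (nat_lit 180) (nat_lit 4) (nat_lit 6) (nat_lit 2) (nat_lit 6) (nat_lit 128) (nat_lit 198) r5_128 r4_198 (nat_lit 4758833) (nat_lit 0) (nat_lit 0) (nat_lit 0x72642244c) (nat_lit 762218945),
  Rx.mk (nat_lit 183) (nat_lit 7) (nat_lit 6) (nat_lit 2) (nat_lit 7) (nat_lit 129) (nat_lit 199) r5_129 r4_199 (nat_lit 0) (nat_lit 0) (nat_lit 0) (nat_lit 0x7eb750676) (nat_lit 558254112),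
  Rx.mk (nat_lit 194) (nat_lit 2) (nat_lit 0) (nat_lit 3) (nat_lit 5) (nat_lit 130) (nat_lit 195) r5_130 r4_195 (nat_lit 0) (nat_lit 202248689) (nat_lit 0) (nat_lit 0x7fd88729e) (nat_lit 741698201),
  Rx.mk (nat_lit 198) (nat_lit 6) (nat_lit 0) (nat_lit 3) (nat_lit 5) (nat_lit 131) (nat_lit 201) r5_131 r4_201 (nat_lit 0) (nat_lit 11917208) (nat_lit 0) (nat_lit 0x7c8e48028) (nat_lit 605161420),
  Rx.mk (nat_lit 214) (nat_lit 6) (nat_lit 2) (nat_lit 3) (nat_lit 7) (nat_lit 132) (nat_lit 203) r5_132 r4_203 (nat_lit 0) (nat_lit 0) (nat_lit 0) (nat_lit 0x80931c514) (nat_lit 529274562),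
  Rx.mk (nat_lit 218) (nat_lit 2) (nat_lit 3) (nat_lit 3) (nat_lit 7) (nat_lit 133) (nat_lit 196) r5_133 r4_196 (nat_lit 0) (nat_lit 0) (nat_lit 0) (nat_lit 0x7f0ea3518) (nat_lit 553137312)]
noncomputable def e30_5 : List Rx := [
  Rx.mk (nat_lit 194) (nat_lit 2) (nat_lit 0) (nat_lit 3) (nat_lit 5) (nat_lit 225) (nat_lit 225) r5_225 r5_225 (nat_lit 0) (nat_lit 18256872) (nat_lit 0) (nat_lit 0x84be62d6e) (nat_lit 483320184),
  Rx.mk (nat_lit 198) (nat_lit 6) (nat_lit 0) (nat_lit 3) (nat_lit 5) (nat_lit 226) (nat_lit 228) r5_226 r5_228 (nat_lit 0) (nat_lit 5850069) (nat_lit 0) (nat_lit 0x7b79ebb76) (nat_lit 616369131),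
  Rx.mk (nat_lit 214) (nat_lit 6) (nat_lit 2) (nat_lit 3) (nat_lit 7) (nat_lit 227) (nat_lit 229) r5_227 r5_229 (nat_lit 0) (nat_lit 0) (nat_lit 0) (nat_lit 0x7faf46fd8) (nat_lit 542713462),
  Rx.mk (nat_lit 450) (nat_lit 2) (nat_lit 0) (nat_lit 7) (nat_lit 5) (nat_lit 228) (nat_lit 226) r5_228 r5_226 (nat_lit 0) (nat_lit 5850069) (nat_lit 0) (nat_lit 0x7b79ebb76) (nat_lit 616369131),
  Rx.mk (nat_lit 474) (nat_lit 2) (nat_lit 3) (nat_lit 7) (nat_lit 7) (nat_lit 229) (nat_lit 227) r5_229 r5_227 (nat_lit 0) (nat_lit 0) (nat_lit 0) (nat_lit 0x7faf46fd8) (nat_lit 542713462)]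
noncomputable def e30_6 : List Rx := [
  Rx.mk (nat_lit 258) (nat_lit 2) (nat_lit 0) (nat_lit 4) (nat_lit 1) (nat_lit 293) (nat_lit 221) r5_293 r3_221 (nat_lit 0) (nat_lit 2469) (nat_lit 3024) (nat_lit 0x817743936) (nat_lit 514521255),
  Rx.mk (nat_lit 282) (nat_lit 2) (nat_lit 3) (nat_lit 4) (nat_lit 3) (nat_lit 294) (nat_lit 223) r5_294 r3_223 (nat_lit 0) (nat_lit 0) (nat_lit 87664) (nat_lit 0x7ee2d6d0e) (nat_lit 555002326),
  Rx.mk (nat_lit 322) (nat_lit 2) (nat_lit 0) (nat_lit 5) (nat_lit 5) (nat_lit 295) (nat_lit 222) r5_295 r3_222 (nat_lit 0) (nat_lit 331055) (nat_lit 0) (nat_lit 0x7f44b8f22) (nat_lit 549048467),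
  Rx.mk (nat_lit 346) (nat_lit 2) (nat_lit 3) (nat_lit 5) (nat_lit 7) (nat_lit 296) (nat_lit 224) r5_296 r3_224 (nat_lit 0) (nat_lit 0) (nat_lit 0) (nat_lit 0x8cf43f2ea) (nat_lit 339923812)]
noncomputable def e30_7 : List Rx := [
  Rx.mk (nat_lit 322) (nat_lit 2) (nat_lit 0) (nat_lit 5) (nat_lit 5) (nat_lit 255) (nat_lit 224) r5_255 r0_224 (nat_lit 0) (nat_lit 71218835) (nat_lit 0) (nat_lit 0x7ffb5ec54) (nat_lit 608387497)]
noncomputable def e30_8 : List Rx := [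
  Rx.mk (nat_lit 66) (nat_lit 2) (nat_lit 0) (nat_lit 1) (nat_lit 5) (nat_lit 267) (nat_lit 243) r5_267 r1_243 (nat_lit 0) (nat_lit 91702614) (nat_lit 0) (nat_lit 0x80aaf72a6) (nat_lit 619301176),
  Rx.mk (nat_lit 322) (nat_lit 2) (nat_lit 0) (nat_lit 5) (nat_lit 5) (nat_lit 268) (nat_lit 242) r5_268 r1_242 (nat_lit 0) (nat_lit 100423417) (nat_lit 0) (nat_lit 0x83d8b6e82) (nat_lit 579086629)]
noncomputable def e30_9 : List Rx := [
  Rx.mk (nat_lit 322) (nat_lit 2) (nat_lit 0) (nat_lit 5) (nat_lit 5) (nat_lit 305) (nat_lit 224) r5_305 r4_224 (nat_lit 0) (nat_lit 161090066) (nat_lit 0) (nat_lit 0x7fc75d3ec) (nat_lit 701587228),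
  Rx.mk (nat_lit 346) (nat_lit 2) (nat_lit 3) (nat_lit 5) (nat_lit 7) (nat_lit 306) (nat_lit 225) r5_306 r4_225 (nat_lit 0) (nat_lit 0) (nat_lit 0) (nat_lit 0x743a265ec) (nat_lit 727415662)]
noncomputable def e30_10 : List Rx := [
  Rx.mk (nat_lit 282) (nat_lit 2) (nat_lit 3) (nat_lit 4) (nat_lit 3) (nat_lit 242) (nat_lit 239) r5_242 r6_239 (nat_lit 0) (nat_lit 0) (nat_lit 355084) (nat_lit 0x7fdb97272) (nat_lit 539655146),
  Rx.mk (nat_lit 450) (nat_lit 2) (nat_lit 0) (nat_lit 7) (nat_lit 5) (nat_lit 243) (nat_lit 238) r5_243 r6_238 (nat_lit 0) (nat_lit 52534) (nat_lit 0) (nat_lit 0x806957f26) (nat_lit 530664346),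
  Rx.mk (nat_lit 474) (nat_lit 2) (nat_lit 3) (nat_lit 7) (nat_lit 7) (nat_lit 244) (nat_lit 240) r5_244 r6_240 (nat_lit 0) (nat_lit 0) (nat_lit 0) (nat_lit 0x7f639d938) (nat_lit 547371662)]
noncomputable def e30_11 : List Rx := [
  Rx.mk (nat_lit 258) (nat_lit 2) (nat_lit 0) (nat_lit 4) (nat_lit 1) (nat_lit 311) (nat_lit 235) r5_311 r5_235 (nat_lit 0) (nat_lit 256039) (nat_lit 59092) (nat_lit 0x820de74a0) (nat_lit 505885693),
  Rx.mk (nat_lit 282) (nat_lit 2) (nat_lit 3) (nat_lit 4) (nat_lit 3) (nat_lit 312) (nat_lit 238) r5_312 r5_238 (nat_lit 0) (nat_lit 0) (nat_lit 1304446) (nat_lit 0x7fd0f99aa) (nat_lit 541617058),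
  Rx.mk (nat_lit 322) (nat_lit 2) (nat_lit 0) (nat_lit 5) (nat_lit 5) (nat_lit 313) (nat_lit 236) r5_313 r5_236 (nat_lit 0) (nat_lit 84189096) (nat_lit 0) (nat_lit 0x80e5c9802) (nat_lit 608169008),
  Rx.mk (nat_lit 346) (nat_lit 2) (nat_lit 3) (nat_lit 5) (nat_lit 7) (nat_lit 314) (nat_lit 239) r5_314 r5_239 (nat_lit 0) (nat_lit 0) (nat_lit 0) (nat_lit 0x81c0a1d3a) (nat_lit 511016762),
  Rx.mk (nat_lit 450) (nat_lit 2) (nat_lit 0) (nat_lit 7) (nat_lit 5) (nat_lit 315) (nat_lit 237) r5_315 r5_237 (nat_lit 0) (nat_lit 6154533) (nat_lit 0) (nat_lit 0x82d163a50) (nat_lit 500638795)]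
noncomputable def e30_12 : List Rx := [
  Rx.mk (nat_lit 22) (nat_lit 6) (nat_lit 2) (nat_lit 0) (nat_lit 3) (nat_lit 0) (nat_lit 67) r5_0 r0_67 (nat_lit 0) (nat_lit 0) (nat_lit 3027604) (nat_lit 0x6b9390500) (nat_lit 870600266),
  Rx.mk (nat_lit 148) (nat_lit 4) (nat_lit 2) (nat_lit 2) (nat_lit 6) (nat_lit 1) (nat_lit 69) r5_1 r0_69 (nat_lit 3947515) (nat_lit 0) (nat_lit 0) (nat_lit 0x65de79e82) (nat_lit 963893527),
  Rx.mk (nat_lit 150) (nat_lit 6) (nat_lit 2) (nat_lit 2) (nat_lit 7) (nat_lit 2) (nat_lit 70) r5_2 r0_70 (nat_lit 0) (nat_lit 0) (nat_lit 0) (nat_lit 0x7d9d38000) (nat_lit 576358762),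
  Rx.mk (nat_lit 180) (nat_lit 4) (nat_lit 6) (nat_lit 2) (nat_lit 6) (nat_lit 3) (nat_lit 68) r5_3 r0_68 (nat_lit 2967474) (nat_lit 0) (nat_lit 0) (nat_lit 0x6ee61820c) (nat_lit 816847386),
  Rx.mk (nat_lit 436) (nat_lit 4) (nat_lit 6) (nat_lit 6) (nat_lit 6) (nat_lit 4) (nat_lit 65) r5_4 r0_65 (nat_lit 5300773) (nat_lit 0) (nat_lit 0) (nat_lit 0x744841172) (nat_lit 732209835),
  Rx.mk (nat_lit 439) (nat_lit 7) (nat_lit 6) (nat_lit 6) (nat_lit 7) (nat_lit 5) (nat_lit 66) r5_5 r0_66 (nat_lit 0) (nat_lit 0) (nat_lit 0) (nat_lit 0x7e757e964) (nat_lit 562790112)]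
noncomputable def e30_13 : List Rx := [
  Rx.mk (nat_lit 22) (nat_lit 6) (nat_lit 2) (nat_lit 0) (nat_lit 3) (nat_lit 102) (nat_lit 272) r5_102 r7_272 (nat_lit 0) (nat_lit 0) (nat_lit 6601539) (nat_lit 0x821cfef2e) (nat_lit 512046101),
  Rx.mk (nat_lit 148) (nat_lit 4) (nat_lit 2) (nat_lit 2) (nat_lit 6) (nat_lit 103) (nat_lit 270) r5_103 r7_270 (nat_lit 19223735) (nat_lit 0) (nat_lit 0) (nat_lit 0x75d2c1c74) (nat_lit 721395547),
  Rx.mk (nat_lit 150) (nat_lit 6) (nat_lit 2) (nat_lit 2) (nat_lit 7) (nat_lit 104) (nat_lit 273) r5_104 r7_273 (nat_lit 0) (nat_lit 0) (nat_lit 0) (nat_lit 0x8017985b4) (nat_lit 536870912),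
  Rx.mk (nat_lit 180) (nat_lit 4) (nat_lit 6) (nat_lit 2) (nat_lit 6) (nat_lit 105) (nat_lit 271) r5_105 r7_271 (nat_lit 7182949) (nat_lit 0) (nat_lit 0) (nat_lit 0x7cac4e324) (nat_lit 598492961)]
noncomputable def e30_14 : List Rx := [
  Rx.mk (nat_lit 148) (nat_lit 4) (nat_lit 2) (nat_lit 2) (nat_lit 6) (nat_lit 6) (nat_lit 63) r5_6 r1_63 (nat_lit 10795266) (nat_lit 0) (nat_lit 0) (nat_lit 0x6d3a97438) (nat_lit 851857228),
  Rx.mk (nat_lit 149) (nat_lit 5) (nat_lit 2) (nat_lit 2) (nat_lit 7) (nat_lit 7) (nat_lit 64) r5_7 r1_64 (nat_lit 0) (nat_lit 0) (nat_lit 0) (nat_lit 0x8038a520c) (nat_lit 534837962),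
  Rx.mk (nat_lit 150) (nat_lit 6) (nat_lit 2) (nat_lit 2) (nat_lit 7) (nat_lit 8) (nat_lit 65) r5_8 r1_65 (nat_lit 0) (nat_lit 0) (nat_lit 0) (nat_lit 0x8009d4658) (nat_lit 537721562),
  Rx.mk (nat_lit 180) (nat_lit 4) (nat_lit 6) (nat_lit 2) (nat_lit 6) (nat_lit 9) (nat_lit 61) r5_9 r1_61 (nat_lit 3702159) (nat_lit 0) (nat_lit 0) (nat_lit 0x6eab69304) (nat_lit 821330421),
  Rx.mk (nat_lit 181) (nat_lit 5) (nat_lit 6) (nat_lit 2) (nat_lit 7) (nat_lit 10) (nat_lit 62) r5_10 r1_62 (nat_lit 0) (nat_lit 0) (nat_lit 0) (nat_lit 0x8270dea40) (nat_lit 500473562),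
  Rx.mk (nat_lit 436) (nat_lit 4) (nat_lit 6) (nat_lit 6) (nat_lit 6) (nat_lit 11) (nat_lit 58) r5_11 r1_58 (nat_lit 6051545) (nat_lit 0) (nat_lit 0) (nat_lit 0x72f5acc5a) (nat_lit 754383857),
  Rx.mk (nat_lit 437) (nat_lit 5) (nat_lit 6) (nat_lit 6) (nat_lit 7) (nat_lit 12) (nat_lit 59) r5_12 r1_59 (nat_lit 0) (nat_lit 0) (nat_lit 0) (nat_lit 0x814d8e96a) (nat_lit 517942162),
  Rx.mk (nat_lit 439) (nat_lit 7) (nat_lit 6) (nat_lit 6) (nat_lit 7) (nat_lit 13) (nat_lit 60) r5_13 r1_60 (nat_lit 0) (nat_lit 0) (nat_lit 0) (nat_lit 0x7fe62a1bc) (nat_lit 539838662)]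
noncomputable def e30_15 : List Rx := [
  Rx.mk (nat_lit 148) (nat_lit 4) (nat_lit 2) (nat_lit 2) (nat_lit 6) (nat_lit 118) (nat_lit 201) r5_118 r8_201 (nat_lit 25748057) (nat_lit 0) (nat_lit 0) (nat_lit 0x790d284fa) (nat_lit 675764869),
  Rx.mk (nat_lit 149) (nat_lit 5) (nat_lit 2) (nat_lit 2) (nat_lit 7) (nat_lit 119) (nat_lit 203) r5_119 r8_203 (nat_lit 0) (nat_lit 0) (nat_lit 0) (nat_lit 0x8017985b4) (nat_lit 536870912),
  Rx.mk (nat_lit 150) (nat_lit 6) (nat_lit 2) (nat_lit 2) (nat_lit 7) (nat_lit 120) (nat_lit 205) r5_120 r8_205 (nat_lit 0) (nat_lit 0) (nat_lit 0) (nat_lit 0x8017985b4) (nat_lit 536870912),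
  Rx.mk (nat_lit 180) (nat_lit 4) (nat_lit 6) (nat_lit 2) (nat_lit 6) (nat_lit 121) (nat_lit 202) r5_121 r8_202 (nat_lit 10065734) (nat_lit 0) (nat_lit 0) (nat_lit 0x7e9c4689e) (nat_lit 570285946),
  Rx.mk (nat_lit 181) (nat_lit 5) (nat_lit 6) (nat_lit 2) (nat_lit 7) (nat_lit 122) (nat_lit 204) r5_122 r8_204 (nat_lit 0) (nat_lit 0) (nat_lit 0) (nat_lit 0x80d50bd58) (nat_lit 525282062)]
noncomputable def e30_16 : List Rx := [
  Rx.mk (nat_lit 22) (nat_lit 6) (nat_lit 2) (nat_lit 0) (nat_lit 3) (nat_lit 115) (nat_lit 58) r5_115 r8_58 (nat_lit 0) (nat_lit 0) (nat_lit 14303237) (nat_lit 0x7ea35f61c) (nat_lit 574182799),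
  Rx.mk (nat_lit 86) (nat_lit 6) (nat_lit 2) (nat_lit 1) (nat_lit 7) (nat_lit 116) (nat_lit 59) r5_116 r8_59 (nat_lit 0) (nat_lit 0) (nat_lit 0) (nat_lit 0x805c00e40) (nat_lit 532666762),
  Rx.mk (nat_lit 150) (nat_lit 6) (nat_lit 2) (nat_lit 2) (nat_lit 7) (nat_lit 117) (nat_lit 60) r5_117 r8_60 (nat_lit 0) (nat_lit 0) (nat_lit 0) (nat_lit 0x8017985b4) (nat_lit 536870912)]
noncomputable def e30_17 : List Rx := [
  Rx.mk (nat_lit 86) (nat_lit 6) (nat_lit 2) (nat_lit 1) (nat_lit 7) (nat_lit 266) (nat_lit 215) r5_266 r9_215 (nat_lit 0) (nat_lit 0) (nat_lit 0) (nat_lit 0x7fd940442) (nat_lit 540690962)]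
noncomputable def e30_18 : List Rx := [
  Rx.mk (nat_lit 22) (nat_lit 6) (nat_lit 2) (nat_lit 0) (nat_lit 3) (nat_lit 27) (nat_lit 59) r5_27 r4_59 (nat_lit 0) (nat_lit 0) (nat_lit 6174630) (nat_lit 0x7de1761fe) (nat_lit 578007592),
  Rx.mk (nat_lit 148) (nat_lit 4) (nat_lit 2) (nat_lit 2) (nat_lit 6) (nat_lit 28) (nat_lit 63) r5_28 r4_63 (nat_lit 8135991) (nat_lit 0) (nat_lit 0) (nat_lit 0x79057fe38) (nat_lit 658530703),
  Rx.mk (nat_lit 150) (nat_lit 6) (nat_lit 2) (nat_lit 2) (nat_lit 7) (nat_lit 29) (nat_lit 64) r5_29 r4_64 (nat_lit 0) (nat_lit 0) (nat_lit 0) (nat_lit 0x80009fe20) (nat_lit 538237112),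
  Rx.mk (nat_lit 180) (nat_lit 4) (nat_lit 6) (nat_lit 2) (nat_lit 6) (nat_lit 30) (nat_lit 61) r5_30 r4_61 (nat_lit 2696286) (nat_lit 0) (nat_lit 0) (nat_lit 0x7ed2b6d5c) (nat_lit 559201548),
  Rx.mk (nat_lit 183) (nat_lit 7) (nat_lit 6) (nat_lit 2) (nat_lit 7) (nat_lit 31) (nat_lit 62) r5_31 r4_62 (nat_lit 0) (nat_lit 0) (nat_lit 0) (nat_lit 0x80e735e2a) (nat_lit 524112462),
  Rx.mk (nat_lit 214) (nat_lit 6) (nat_lit 2) (nat_lit 3) (nat_lit 7) (nat_lit 32) (nat_lit 60) r5_32 r4_60 (nat_lit 0) (nat_lit 0) (nat_lit 0) (nat_lit 0x80483a47e) (nat_lit 532926012),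
  Rx.mk (nat_lit 439) (nat_lit 7) (nat_lit 6) (nat_lit 6) (nat_lit 7) (nat_lit 33) (nat_lit 58) r5_33 r4_58 (nat_lit 0) (nat_lit 0) (nat_lit 0) (nat_lit 0x7f5b0655e) (nat_lit 548352312)]
noncomputable def e30_19 : List Rx := [
  Rx.mk (nat_lit 22) (nat_lit 6) (nat_lit 2) (nat_lit 0) (nat_lit 3) (nat_lit 134) (nat_lit 215) r5_134 r10_215 (nat_lit 0) (nat_lit 0) (nat_lit 6614420) (nat_lit 0x81f9ff474) (nat_lit 514154582),
  Rx.mk (nat_lit 148) (nat_lit 4) (nat_lit 2) (nat_lit 2) (nat_lit 6) (nat_lit 135) (nat_lit 212) r5_135 r10_212 (nat_lit 16735369) (nat_lit 0) (nat_lit 0) (nat_lit 0x79b416a78) (nat_lit 656180481),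
  Rx.mk (nat_lit 150) (nat_lit 6) (nat_lit 2) (nat_lit 2) (nat_lit 7) (nat_lit 136) (nat_lit 217) r5_136 r10_217 (nat_lit 0) (nat_lit 0) (nat_lit 0) (nat_lit 0x8017985b4) (nat_lit 536870912),
  Rx.mk (nat_lit 180) (nat_lit 4) (nat_lit 6) (nat_lit 2) (nat_lit 6) (nat_lit 137) (nat_lit 213) r5_137 r10_213 (nat_lit 5865404) (nat_lit 0) (nat_lit 0) (nat_lit 0x7ef7589d0) (nat_lit 560306366),
  Rx.mk (nat_lit 183) (nat_lit 7) (nat_lit 6) (nat_lit 2) (nat_lit 7) (nat_lit 138) (nat_lit 214) r5_138 r10_214 (nat_lit 0) (nat_lit 0) (nat_lit 0) (nat_lit 0x815de8a72) (nat_lit 517001212),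
  Rx.mk (nat_lit 214) (nat_lit 6) (nat_lit 2) (nat_lit 3) (nat_lit 7) (nat_lit 139) (nat_lit 216) r5_139 r10_216 (nat_lit 0) (nat_lit 0) (nat_lit 0) (nat_lit 0x80c39fc54) (nat_lit 526340012)]
noncomputable def e30_20 : List Rx := [
  Rx.mk (nat_lit 214) (nat_lit 6) (nat_lit 2) (nat_lit 3) (nat_lit 7) (nat_lit 230) (nat_lit 265) r5_230 r11_265 (nat_lit 0) (nat_lit 0) (nat_lit 0) (nat_lit 0x880aa8a68) (nat_lit 414822412)]
noncomputable def e30_21 : List Rx := [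
  Rx.mk (nat_lit 66) (nat_lit 2) (nat_lit 0) (nat_lit 1) (nat_lit 5) (nat_lit 261) (nat_lit 225) r5_261 r9_225 (nat_lit 0) (nat_lit 29963902) (nat_lit 0) (nat_lit 0x7c0aae942) (nat_lit 631646464),
  Rx.mk (nat_lit 70) (nat_lit 6) (nat_lit 0) (nat_lit 1) (nat_lit 5) (nat_lit 262) (nat_lit 224) r5_262 r9_224 (nat_lit 0) (nat_lit 27922064) (nat_lit 0) (nat_lit 0x7cb09d100) (nat_lit 619170926),
  Rx.mk (nat_lit 74) (nat_lit 2) (nat_lit 1) (nat_lit 1) (nat_lit 7) (nat_lit 263) (nat_lit 227) r5_263 r9_227 (nat_lit 0) (nat_lit 0) (nat_lit 0) (nat_lit 0x8017985b4) (nat_lit 536870912),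
  Rx.mk (nat_lit 78) (nat_lit 6) (nat_lit 1) (nat_lit 1) (nat_lit 7) (nat_lit 264) (nat_lit 226) r5_264 r9_226 (nat_lit 0) (nat_lit 0) (nat_lit 0) (nat_lit 0x8017985b4) (nat_lit 536870912),
  Rx.mk (nat_lit 86) (nat_lit 6) (nat_lit 2) (nat_lit 1) (nat_lit 7) (nat_lit 265) (nat_lit 228) r5_265 r9_228 (nat_lit 0) (nat_lit 0) (nat_lit 0) (nat_lit 0x8017985b4) (nat_lit 536870912)]
noncomputable def e30_22 : List Rx := [
  Rx.mk (nat_lit 266) (nat_lit 2) (nat_lit 1) (nat_lit 4) (nat_lit 3) (nat_lit 252) (nat_lit 315) r5_252 r0_315 (nat_lit 0) (nat_lit 0) (nat_lit 10663228) (nat_lit 0x7da55c5ce) (nat_lit 586217240),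
  Rx.mk (nat_lit 322) (nat_lit 2) (nat_lit 0) (nat_lit 5) (nat_lit 5) (nat_lit 253) (nat_lit 316) r5_253 r0_316 (nat_lit 0) (nat_lit 6936321) (nat_lit 0) (nat_lit 0x7b9f03d96) (nat_lit 615253533),
  Rx.mk (nat_lit 330) (nat_lit 2) (nat_lit 1) (nat_lit 5) (nat_lit 7) (nat_lit 254) (nat_lit 317) r5_254 r0_317 (nat_lit 0) (nat_lit 0) (nat_lit 0) (nat_lit 0x8071fa930) (nat_lit 530954762)]
noncomputable def e30_23 : List Rx := [
  Rx.mk (nat_lit 266) (nat_lit 2) (nat_lit 1) (nat_lit 4) (nat_lit 3) (nat_lit 273) (nat_lit 303) r5_273 r1_303 (nat_lit 0) (nat_lit 0) (nat_lit 15528047) (nat_lit 0x815c32e9e) (nat_lit 532577559),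
  Rx.mk (nat_lit 330) (nat_lit 2) (nat_lit 1) (nat_lit 5) (nat_lit 7) (nat_lit 274) (nat_lit 304) r5_274 r1_304 (nat_lit 0) (nat_lit 0) (nat_lit 0) (nat_lit 0x825a7268a) (nat_lit 501688462)]
noncomputable def e30_24 : List Rx := [
  Rx.mk (nat_lit 258) (nat_lit 2) (nat_lit 0) (nat_lit 4) (nat_lit 1) (nat_lit 297) (nat_lit 343) r5_297 r4_343 (nat_lit 0) (nat_lit 4914536) (nat_lit 8412019) (nat_lit 0x7692903ac) (nat_lit 703204217),
  Rx.mk (nat_lit 266) (nat_lit 2) (nat_lit 1) (nat_lit 4) (nat_lit 3) (nat_lit 298) (nat_lit 344) r5_298 r4_344 (nat_lit 0) (nat_lit 0) (nat_lit 16948508) (nat_lit 0x809c7b0d8) (nat_lit 545627870),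
  Rx.mk (nat_lit 282) (nat_lit 2) (nat_lit 3) (nat_lit 4) (nat_lit 3) (nat_lit 299) (nat_lit 345) r5_299 r4_345 (nat_lit 0) (nat_lit 0) (nat_lit 16388111) (nat_lit 0x805f52918) (nat_lit 548834573),
  Rx.mk (nat_lit 322) (nat_lit 2) (nat_lit 0) (nat_lit 5) (nat_lit 5) (nat_lit 300) (nat_lit 346) r5_300 r4_346 (nat_lit 0) (nat_lit 2837782) (nat_lit 0) (nat_lit 0x88d4b3178) (nat_lit 405532494),
  Rx.mk (nat_lit 330) (nat_lit 2) (nat_lit 1) (nat_lit 5) (nat_lit 7) (nat_lit 301) (nat_lit 347) r5_301 r4_347 (nat_lit 0) (nat_lit 0) (nat_lit 0) (nat_lit 0x8942acc88) (nat_lit 396280012),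
  Rx.mk (nat_lit 346) (nat_lit 2) (nat_lit 3) (nat_lit 5) (nat_lit 7) (nat_lit 302) (nat_lit 348) r5_302 r4_348 (nat_lit 0) (nat_lit 0) (nat_lit 0) (nat_lit 0x816422d98) (nat_lit 516613662)]
noncomputable def e30_25 : List Rx := [
  Rx.mk (nat_lit 322) (nat_lit 2) (nat_lit 0) (nat_lit 5) (nat_lit 5) (nat_lit 256) (nat_lit 286) r5_256 r7_286 (nat_lit 0) (nat_lit 10453794) (nat_lit 0) (nat_lit 0x7f320ae16) (nat_lit 561328856),
  Rx.mk (nat_lit 330) (nat_lit 2) (nat_lit 1) (nat_lit 5) (nat_lit 7) (nat_lit 257) (nat_lit 287) r5_257 r7_287 (nat_lit 0) (nat_lit 0) (nat_lit 0) (nat_lit 0x811261be4) (nat_lit 521565112)]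
noncomputable def e30_26 : List Rx := [
  Rx.mk (nat_lit 330) (nat_lit 2) (nat_lit 1) (nat_lit 5) (nat_lit 7) (nat_lit 285) (nat_lit 218) r5_285 r8_218 (nat_lit 0) (nat_lit 0) (nat_lit 0) (nat_lit 0x815927600) (nat_lit 517280412)]
noncomputable def e30_27 : List Rx := [
  Rx.mk (nat_lit 66) (nat_lit 2) (nat_lit 0) (nat_lit 1) (nat_lit 5) (nat_lit 269) (nat_lit 347) r5_269 r8_347 (nat_lit 0) (nat_lit 26407128) (nat_lit 0) (nat_lit 0x7ed75b9ac) (nat_lit 583090140),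
  Rx.mk (nat_lit 74) (nat_lit 2) (nat_lit 1) (nat_lit 1) (nat_lit 7) (nat_lit 270) (nat_lit 348) r5_270 r8_348 (nat_lit 0) (nat_lit 0) (nat_lit 0) (nat_lit 0x8017985b4) (nat_lit 536870912),
  Rx.mk (nat_lit 322) (nat_lit 2) (nat_lit 0) (nat_lit 5) (nat_lit 5) (nat_lit 271) (nat_lit 349) r5_271 r8_349 (nat_lit 0) (nat_lit 26551209) (nat_lit 0) (nat_lit 0x7f5f75306) (nat_lit 574765171),
  Rx.mk (nat_lit 330) (nat_lit 2) (nat_lit 1) (nat_lit 5) (nat_lit 7) (nat_lit 272) (nat_lit 350) r5_272 r8_350 (nat_lit 0) (nat_lit 0) (nat_lit 0) (nat_lit 0x8017985b4) (nat_lit 536870912)]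
noncomputable def e30_28 : List Rx := [
  Rx.mk (nat_lit 322) (nat_lit 2) (nat_lit 0) (nat_lit 5) (nat_lit 5) (nat_lit 307) (nat_lit 237) r5_307 r10_237 (nat_lit 0) (nat_lit 11477207) (nat_lit 0) (nat_lit 0x7fc2367ba) (nat_lit 553442619),
  Rx.mk (nat_lit 330) (nat_lit 2) (nat_lit 1) (nat_lit 5) (nat_lit 7) (nat_lit 308) (nat_lit 238) r5_308 r10_238 (nat_lit 0) (nat_lit 0) (nat_lit 0) (nat_lit 0x80b9b4848) (nat_lit 526949812),
  Rx.mk (nat_lit 346) (nat_lit 2) (nat_lit 3) (nat_lit 5) (nat_lit 7) (nat_lit 309) (nat_lit 239) r5_309 r10_239 (nat_lit 0) (nat_lit 0) (nat_lit 0) (nat_lit 0x80b9b154e) (nat_lit 526950562)]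
noncomputable def e30_29 : List Rx := [
  Rx.mk (nat_lit 258) (nat_lit 2) (nat_lit 0) (nat_lit 4) (nat_lit 1) (nat_lit 316) (nat_lit 273) r5_316 r11_273 (nat_lit 0) (nat_lit 20649739) (nat_lit 21014715) (nat_lit 0x729e8ccc2) (nat_lit 795632066),
  Rx.mk (nat_lit 266) (nat_lit 2) (nat_lit 1) (nat_lit 4) (nat_lit 3) (nat_lit 317) (nat_lit 276) r5_317 r11_276 (nat_lit 0) (nat_lit 0) (nat_lit 20064994) (nat_lit 0x807284b4e) (nat_lit 551341856),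
  Rx.mk (nat_lit 282) (nat_lit 2) (nat_lit 3) (nat_lit 4) (nat_lit 3) (nat_lit 318) (nat_lit 279) r5_318 r11_279 (nat_lit 0) (nat_lit 0) (nat_lit 21930199) (nat_lit 0x8037c1084) (nat_lit 556823461),
  Rx.mk (nat_lit 322) (nat_lit 2) (nat_lit 0) (nat_lit 5) (nat_lit 5) (nat_lit 319) (nat_lit 274) r5_319 r11_274 (nat_lit 0) (nat_lit 24741287) (nat_lit 0) (nat_lit 0x8017985b4) (nat_lit 561612199),
  Rx.mk (nat_lit 330) (nat_lit 2) (nat_lit 1) (nat_lit 5) (nat_lit 7) (nat_lit 320) (nat_lit 277) r5_320 r11_277 (nat_lit 0) (nat_lit 0) (nat_lit 0) (nat_lit 0x8017985b4) (nat_lit 536870912),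
  Rx.mk (nat_lit 346) (nat_lit 2) (nat_lit 3) (nat_lit 5) (nat_lit 7) (nat_lit 321) (nat_lit 280) r5_321 r11_280 (nat_lit 0) (nat_lit 0) (nat_lit 0) (nat_lit 0x8017985b4) (nat_lit 536870912),
  Rx.mk (nat_lit 450) (nat_lit 2) (nat_lit 0) (nat_lit 7) (nat_lit 5) (nat_lit 322) (nat_lit 275) r5_322 r11_275 (nat_lit 0) (nat_lit 24086680) (nat_lit 0) (nat_lit 0x7f9584f64) (nat_lit 568953542),
  Rx.mk (nat_lit 458) (nat_lit 2) (nat_lit 1) (nat_lit 7) (nat_lit 7) (nat_lit 323) (nat_lit 278) r5_323 r11_278 (nat_lit 0) (nat_lit 0) (nat_lit 0) (nat_lit 0x8017985b4) (nat_lit 536870912)]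
noncomputable def e30_30 : List Rx := [
  Rx.mk (nat_lit 22) (nat_lit 6) (nat_lit 2) (nat_lit 0) (nat_lit 3) (nat_lit 34) (nat_lit 43) r5_34 r5_43 (nat_lit 0) (nat_lit 0) (nat_lit 7782) (nat_lit 0x7fffb2940) (nat_lit 536903144),
  Rx.mk (nat_lit 148) (nat_lit 4) (nat_lit 2) (nat_lit 2) (nat_lit 6) (nat_lit 35) (nat_lit 49) r5_35 r5_49 (nat_lit 60765) (nat_lit 0) (nat_lit 0) (nat_lit 0x613d6daec) (nat_lit 1034367827),
  Rx.mk (nat_lit 150) (nat_lit 6) (nat_lit 2) (nat_lit 2) (nat_lit 7) (nat_lit 36) (nat_lit 51) r5_36 r5_51 (nat_lit 0) (nat_lit 0) (nat_lit 0) (nat_lit 0x7cdc412e8) (nat_lit 588411612),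
  Rx.mk (nat_lit 151) (nat_lit 7) (nat_lit 2) (nat_lit 2) (nat_lit 7) (nat_lit 37) (nat_lit 50) r5_37 r5_50 (nat_lit 0) (nat_lit 0) (nat_lit 0) (nat_lit 0x7bbed4a8a) (nat_lit 606336812),
  Rx.mk (nat_lit 183) (nat_lit 7) (nat_lit 6) (nat_lit 2) (nat_lit 7) (nat_lit 38) (nat_lit 48) r5_38 r5_48 (nat_lit 0) (nat_lit 0) (nat_lit 0) (nat_lit 0x71216a11e) (nat_lit 777371612),
  Rx.mk (nat_lit 198) (nat_lit 6) (nat_lit 0) (nat_lit 3) (nat_lit 5) (nat_lit 39) (nat_lit 44) r5_39 r5_44 (nat_lit 0) (nat_lit 95224) (nat_lit 0) (nat_lit 0x657b91806) (nat_lit 965803786),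
  Rx.mk (nat_lit 214) (nat_lit 6) (nat_lit 2) (nat_lit 3) (nat_lit 7) (nat_lit 40) (nat_lit 47) r5_40 r5_47 (nat_lit 0) (nat_lit 0) (nat_lit 0) (nat_lit 0x9c18cb802) (nat_lit 108391362),
  Rx.mk (nat_lit 218) (nat_lit 2) (nat_lit 3) (nat_lit 3) (nat_lit 7) (nat_lit 41) (nat_lit 46) r5_41 r5_46 (nat_lit 0) (nat_lit 0) (nat_lit 0) (nat_lit 0x69d8ee522) (nat_lit 895187012),
  Rx.mk (nat_lit 222) (nat_lit 6) (nat_lit 3) (nat_lit 3) (nat_lit 7) (nat_lit 42) (nat_lit 45) r5_42 r5_45 (nat_lit 0) (nat_lit 0) (nat_lit 0) (nat_lit 0x84d140d82) (nat_lit 463855312),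
  Rx.mk (nat_lit 315) (nat_lit 3) (nat_lit 7) (nat_lit 4) (nat_lit 3) (nat_lit 43) (nat_lit 34) r5_43 r5_34 (nat_lit 0) (nat_lit 0) (nat_lit 7782) (nat_lit 0x7fffb2940) (nat_lit 536903144),
  Rx.mk (nat_lit 419) (nat_lit 3) (nat_lit 4) (nat_lit 6) (nat_lit 5) (nat_lit 44) (nat_lit 39) r5_44 r5_39 (nat_lit 0) (nat_lit 95224) (nat_lit 0) (nat_lit 0x657b91806) (nat_lit 965803786),
  Rx.mk (nat_lit 435) (nat_lit 3) (nat_lit 6) (nat_lit 6) (nat_lit 7) (nat_lit 45) (nat_lit 42) r5_45 r5_42 (nat_lit 0) (nat_lit 0) (nat_lit 0) (nat_lit 0x84d140d82) (nat_lit 463855312),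
  Rx.mk (nat_lit 439) (nat_lit 7) (nat_lit 6) (nat_lit 6) (nat_lit 7) (nat_lit 46) (nat_lit 41) r5_46 r5_41 (nat_lit 0) (nat_lit 0) (nat_lit 0) (nat_lit 0x69d8ee522) (nat_lit 895187012),
  Rx.mk (nat_lit 443) (nat_lit 3) (nat_lit 7) (nat_lit 6) (nat_lit 7) (nat_lit 47) (nat_lit 40) r5_47 r5_40 (nat_lit 0) (nat_lit 0) (nat_lit 0) (nat_lit 0x9c18cb802) (nat_lit 108391362),
  Rx.mk (nat_lit 474) (nat_lit 2) (nat_lit 3) (nat_lit 7) (nat_lit 7) (nat_lit 48) (nat_lit 38) r5_48 r5_38 (nat_lit 0) (nat_lit 0) (nat_lit 0) (nat_lit 0x71216a11e) (nat_lit 777371612),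
  Rx.mk (nat_lit 504) (nat_lit 0) (nat_lit 7) (nat_lit 7) (nat_lit 6) (nat_lit 49) (nat_lit 35) r5_49 r5_35 (nat_lit 60765) (nat_lit 0) (nat_lit 0) (nat_lit 0x613d6daec) (nat_lit 1034367827),
  Rx.mk (nat_lit 506) (nat_lit 2) (nat_lit 7) (nat_lit 7) (nat_lit 7) (nat_lit 50) (nat_lit 37) r5_50 r5_37 (nat_lit 0) (nat_lit 0) (nat_lit 0) (nat_lit 0x7bbed4a8a) (nat_lit 606336812),
  Rx.mk (nat_lit 507) (nat_lit 3) (nat_lit 7) (nat_lit 7) (nat_lit 7) (nat_lit 51) (nat_lit 36) r5_51 r5_36 (nat_lit 0) (nat_lit 0) (nat_lit 0) (nat_lit 0x7cdc412e8) (nat_lit 588411612)]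
noncomputable def e30_31 : List Rx := [
  Rx.mk (nat_lit 6) (nat_lit 6) (nat_lit 0) (nat_lit 0) (nat_lit 1) (nat_lit 140) (nat_lit 9) r5_140 r11_9 (nat_lit 0) (nat_lit 674925) (nat_lit 474232) (nat_lit 0x722cb1ea4) (nat_lit 761731069),
  Rx.mk (nat_lit 22) (nat_lit 6) (nat_lit 2) (nat_lit 0) (nat_lit 3) (nat_lit 141) (nat_lit 10) r5_141 r11_10 (nat_lit 0) (nat_lit 0) (nat_lit 4328604) (nat_lit 0x8397c64a4) (nat_lit 487049866),
  Rx.mk (nat_lit 148) (nat_lit 4) (nat_lit 2) (nat_lit 2) (nat_lit 6) (nat_lit 142) (nat_lit 16) r5_142 r11_16 (nat_lit 13610733) (nat_lit 0) (nat_lit 0) (nat_lit 0x7f8c34efa) (nat_lit 558980045),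
  Rx.mk (nat_lit 150) (nat_lit 6) (nat_lit 2) (nat_lit 2) (nat_lit 7) (nat_lit 143) (nat_lit 18) r5_143 r11_18 (nat_lit 0) (nat_lit 0) (nat_lit 0) (nat_lit 0x804f350bc) (nat_lit 533454612),
  Rx.mk (nat_lit 151) (nat_lit 7) (nat_lit 2) (nat_lit 2) (nat_lit 7) (nat_lit 144) (nat_lit 17) r5_144 r11_17 (nat_lit 0) (nat_lit 0) (nat_lit 0) (nat_lit 0x804f3bf3e) (nat_lit 533452962),
  Rx.mk (nat_lit 183) (nat_lit 7) (nat_lit 6) (nat_lit 2) (nat_lit 7) (nat_lit 145) (nat_lit 15) r5_145 r11_15 (nat_lit 0) (nat_lit 0) (nat_lit 0) (nat_lit 0x839723e3e) (nat_lit 482866162),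
  Rx.mk (nat_lit 198) (nat_lit 6) (nat_lit 0) (nat_lit 3) (nat_lit 5) (nat_lit 146) (nat_lit 11) r5_146 r11_11 (nat_lit 0) (nat_lit 9828533) (nat_lit 0) (nat_lit 0x7fdfbd658) (nat_lit 549901095),
  Rx.mk (nat_lit 214) (nat_lit 6) (nat_lit 2) (nat_lit 3) (nat_lit 7) (nat_lit 147) (nat_lit 14) r5_147 r11_14 (nat_lit 0) (nat_lit 0) (nat_lit 0) (nat_lit 0x81c0f7b72) (nat_lit 511039762),
  Rx.mk (nat_lit 218) (nat_lit 2) (nat_lit 3) (nat_lit 3) (nat_lit 7) (nat_lit 148) (nat_lit 13) r5_148 r11_13 (nat_lit 0) (nat_lit 0) (nat_lit 0) (nat_lit 0x8219c55ce) (nat_lit 505691562),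
  Rx.mk (nat_lit 222) (nat_lit 6) (nat_lit 3) (nat_lit 3) (nat_lit 7) (nat_lit 149) (nat_lit 12) r5_149 r11_12 (nat_lit 0) (nat_lit 0) (nat_lit 0) (nat_lit 0x80700d5c8) (nat_lit 531445012)]
noncomputable def e30_32 : List Rx := [
  Rx.mk (nat_lit 282) (nat_lit 2) (nat_lit 3) (nat_lit 4) (nat_lit 3) (nat_lit 231) (nat_lit 366) r5_231 r6_366 (nat_lit 0) (nat_lit 0) (nat_lit 64873) (nat_lit 0x800bef67c) (nat_lit 536253635),
  Rx.mk (nat_lit 312) (nat_lit 0) (nat_lit 7) (nat_lit 4) (nat_lit 2) (nat_lit 232) (nat_lit 363) r5_232 r6_363 (nat_lit 1266917) (nat_lit 0) (nat_lit 1379852) (nat_lit 0x7a2fc99c2) (nat_lit 633790631),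
  Rx.mk (nat_lit 314) (nat_lit 2) (nat_lit 7) (nat_lit 4) (nat_lit 3) (nat_lit 233) (nat_lit 365) r5_233 r6_365 (nat_lit 0) (nat_lit 0) (nat_lit 4400993) (nat_lit 0x831fc2ff2) (nat_lit 494248105),
  Rx.mk (nat_lit 440) (nat_lit 0) (nat_lit 7) (nat_lit 6) (nat_lit 6) (nat_lit 234) (nat_lit 364) r5_234 r6_364 (nat_lit 745573) (nat_lit 0) (nat_lit 0) (nat_lit 0x806c92614) (nat_lit 531405435)]
noncomputable def e30_33 : List Rx := [
  Rx.mk (nat_lit 282) (nat_lit 2) (nat_lit 3) (nat_lit 4) (nat_lit 3) (nat_lit 303) (nat_lit 303) r5_303 r5_303 (nat_lit 0) (nat_lit 0) (nat_lit 811576) (nat_lit 0x800e813cc) (nat_lit 537125038),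
  Rx.mk (nat_lit 346) (nat_lit 2) (nat_lit 3) (nat_lit 5) (nat_lit 7) (nat_lit 304) (nat_lit 304) r5_304 r5_304 (nat_lit 0) (nat_lit 0) (nat_lit 0) (nat_lit 0x8142f445a) (nat_lit 518652812)]
noncomputable def e30_34 : List Rx := [
  Rx.mk (nat_lit 346) (nat_lit 2) (nat_lit 3) (nat_lit 5) (nat_lit 7) (nat_lit 310) (nat_lit 356) r5_310 r11_356 (nat_lit 0) (nat_lit 0) (nat_lit 0) (nat_lit 0x81691ae72) (nat_lit 516102862)]
noncomputable def e30_35 : List Rx := [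
  Rx.mk (nat_lit 312) (nat_lit 0) (nat_lit 7) (nat_lit 4) (nat_lit 2) (nat_lit 70) (nat_lit 90) r5_70 r6_90 (nat_lit 151381) (nat_lit 0) (nat_lit 214613) (nat_lit 0x7f84aacac) (nat_lit 545085756),
  Rx.mk (nat_lit 314) (nat_lit 2) (nat_lit 7) (nat_lit 4) (nat_lit 3) (nat_lit 71) (nat_lit 92) r5_71 r6_92 (nat_lit 0) (nat_lit 0) (nat_lit 5517824) (nat_lit 0x80fe04cf0) (nat_lit 528080236),
  Rx.mk (nat_lit 315) (nat_lit 3) (nat_lit 7) (nat_lit 4) (nat_lit 3) (nat_lit 72) (nat_lit 91) r5_72 r6_91 (nat_lit 0) (nat_lit 0) (nat_lit 7478372) (nat_lit 0x7e7bc2848) (nat_lit 569688734),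
  Rx.mk (nat_lit 419) (nat_lit 3) (nat_lit 4) (nat_lit 6) (nat_lit 5) (nat_lit 73) (nat_lit 89) r5_73 r6_89 (nat_lit 0) (nat_lit 6235362) (nat_lit 0) (nat_lit 0x7e4c9eb16) (nat_lit 571302074),
  Rx.mk (nat_lit 435) (nat_lit 3) (nat_lit 6) (nat_lit 6) (nat_lit 7) (nat_lit 74) (nat_lit 97) r5_74 r6_97 (nat_lit 0) (nat_lit 0) (nat_lit 0) (nat_lit 0x7ffe6318e) (nat_lit 538324412),
  Rx.mk (nat_lit 440) (nat_lit 0) (nat_lit 7) (nat_lit 6) (nat_lit 6) (nat_lit 75) (nat_lit 95) r5_75 r6_95 (nat_lit 506970) (nat_lit 0) (nat_lit 0) (nat_lit 0x8036353fa) (nat_lit 534398782),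
  Rx.mk (nat_lit 443) (nat_lit 3) (nat_lit 7) (nat_lit 6) (nat_lit 7) (nat_lit 76) (nat_lit 96) r5_76 r6_96 (nat_lit 0) (nat_lit 0) (nat_lit 0) (nat_lit 0x8de7568e8) (nat_lit 325388962),
  Rx.mk (nat_lit 474) (nat_lit 2) (nat_lit 3) (nat_lit 7) (nat_lit 7) (nat_lit 77) (nat_lit 88) r5_77 r6_88 (nat_lit 0) (nat_lit 0) (nat_lit 0) (nat_lit 0x7adbdb5da) (nat_lit 620253362),
  Rx.mk (nat_lit 504) (nat_lit 0) (nat_lit 7) (nat_lit 7) (nat_lit 6) (nat_lit 78) (nat_lit 93) r5_78 r6_93 (nat_lit 14912566) (nat_lit 0) (nat_lit 0) (nat_lit 0x7ad02e7c8) (nat_lit 636403678),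
  Rx.mk (nat_lit 506) (nat_lit 2) (nat_lit 7) (nat_lit 7) (nat_lit 7) (nat_lit 79) (nat_lit 94) r5_79 r6_94 (nat_lit 0) (nat_lit 0) (nat_lit 0) (nat_lit 0x7df8696ea) (nat_lit 570525862)]
noncomputable def e30_36 : List Rx := [
  Rx.mk (nat_lit 282) (nat_lit 2) (nat_lit 3) (nat_lit 4) (nat_lit 3) (nat_lit 245) (nat_lit 244) r5_245 r12_244 (nat_lit 0) (nat_lit 0) (nat_lit 174098) (nat_lit 0x8023fadac) (nat_lit 534971660),
  Rx.mk (nat_lit 312) (nat_lit 0) (nat_lit 7) (nat_lit 4) (nat_lit 2) (nat_lit 246) (nat_lit 240) r5_246 r12_240 (nat_lit 183720) (nat_lit 0) (nat_lit 257136) (nat_lit 0x78fe81dd4) (nat_lit 650662468),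
  Rx.mk (nat_lit 314) (nat_lit 2) (nat_lit 7) (nat_lit 4) (nat_lit 3) (nat_lit 247) (nat_lit 246) r5_247 r12_246 (nat_lit 0) (nat_lit 0) (nat_lit 3185059) (nat_lit 0x8418ad1da) (nat_lit 478052171),
  Rx.mk (nat_lit 315) (nat_lit 3) (nat_lit 7) (nat_lit 4) (nat_lit 3) (nat_lit 248) (nat_lit 242) r5_248 r12_242 (nat_lit 0) (nat_lit 0) (nat_lit 6750895) (nat_lit 0x78f123c8c) (nat_lit 658355657),
  Rx.mk (nat_lit 440) (nat_lit 0) (nat_lit 7) (nat_lit 6) (nat_lit 6) (nat_lit 249) (nat_lit 241) r5_249 r12_241 (nat_lit 385241) (nat_lit 0) (nat_lit 0) (nat_lit 0x80ae72098) (nat_lit 527020953),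
  Rx.mk (nat_lit 443) (nat_lit 3) (nat_lit 7) (nat_lit 6) (nat_lit 7) (nat_lit 250) (nat_lit 243) r5_250 r12_243 (nat_lit 0) (nat_lit 0) (nat_lit 0) (nat_lit 0x8f2213cf0) (nat_lit 306467812),
  Rx.mk (nat_lit 474) (nat_lit 2) (nat_lit 3) (nat_lit 7) (nat_lit 7) (nat_lit 251) (nat_lit 245) r5_251 r12_245 (nat_lit 0) (nat_lit 0) (nat_lit 0) (nat_lit 0x7a825aed4) (nat_lit 625769862)]
noncomputable def e30_37 : List Rx := [
  Rx.mk (nat_lit 288) (nat_lit 0) (nat_lit 4) (nat_lit 4) (nat_lit 0) (nat_lit 152) (nat_lit 330) r5_152 r0_330 (nat_lit 4295) (nat_lit 4746) (nat_lit 246635775) (nat_lit 0x7ffebcf68) (nat_lit 783597078),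
  Rx.mk (nat_lit 289) (nat_lit 1) (nat_lit 4) (nat_lit 4) (nat_lit 1) (nat_lit 153) (nat_lit 335) r5_153 r0_335 (nat_lit 0) (nat_lit 7966129) (nat_lit 72835185) (nat_lit 0x768dbcfb0) (nat_lit 771020776),
  Rx.mk (nat_lit 290) (nat_lit 2) (nat_lit 4) (nat_lit 4) (nat_lit 1) (nat_lit 154) (nat_lit 340) r5_154 r0_340 (nat_lit 0) (nat_lit 2248887) (nat_lit 43528741) (nat_lit 0x7781485e4) (nat_lit 720358340),
  Rx.mk (nat_lit 296) (nat_lit 0) (nat_lit 5) (nat_lit 4) (nat_lit 2) (nat_lit 155) (nat_lit 331) r5_155 r0_331 (nat_lit 18467620) (nat_lit 0) (nat_lit 12431881) (nat_lit 0x77229ca54) (nat_lit 711720913),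
  Rx.mk (nat_lit 297) (nat_lit 1) (nat_lit 5) (nat_lit 4) (nat_lit 3) (nat_lit 156) (nat_lit 336) r5_156 r0_336 (nat_lit 0) (nat_lit 0) (nat_lit 32356529) (nat_lit 0x7e416a34e) (nat_lit 598396941),
  Rx.mk (nat_lit 298) (nat_lit 2) (nat_lit 5) (nat_lit 4) (nat_lit 3) (nat_lit 157) (nat_lit 341) r5_157 r0_341 (nat_lit 0) (nat_lit 0) (nat_lit 4283816) (nat_lit 0x76dca6428) (nat_lit 689405378),
  Rx.mk (nat_lit 416) (nat_lit 0) (nat_lit 4) (nat_lit 6) (nat_lit 4) (nat_lit 158) (nat_lit 332) r5_158 r0_332 (nat_lit 9515140) (nat_lit 9046091) (nat_lit 0) (nat_lit 0x640679402) (nat_lit 1008402593),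
  Rx.mk (nat_lit 417) (nat_lit 1) (nat_lit 4) (nat_lit 6) (nat_lit 5) (nat_lit 159) (nat_lit 337) r5_159 r0_337 (nat_lit 0) (nat_lit 15727667) (nat_lit 0) (nat_lit 0x785988350) (nat_lit 677032129),
  Rx.mk (nat_lit 424) (nat_lit 0) (nat_lit 5) (nat_lit 6) (nat_lit 6) (nat_lit 160) (nat_lit 333) r5_160 r0_333 (nat_lit 20486354) (nat_lit 0) (nat_lit 0) (nat_lit 0x7e13133ec) (nat_lit 589334166),
  Rx.mk (nat_lit 425) (nat_lit 1) (nat_lit 5) (nat_lit 6) (nat_lit 7) (nat_lit 161) (nat_lit 338) r5_161 r0_338 (nat_lit 0) (nat_lit 0) (nat_lit 0) (nat_lit 0x7f6c75efc) (nat_lit 547366462),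
  Rx.mk (nat_lit 432) (nat_lit 0) (nat_lit 6) (nat_lit 6) (nat_lit 6) (nat_lit 162) (nat_lit 334) r5_162 r0_334 (nat_lit 25423219) (nat_lit 0) (nat_lit 0) (nat_lit 0x71dceb686) (nat_lit 791634281),
  Rx.mk (nat_lit 433) (nat_lit 1) (nat_lit 6) (nat_lit 6) (nat_lit 7) (nat_lit 163) (nat_lit 339) r5_163 r0_339 (nat_lit 0) (nat_lit 0) (nat_lit 0) (nat_lit 0x804d1b93e) (nat_lit 533580312)]
noncomputable def e30_38 : List Rx := [
  Rx.mk (nat_lit 417) (nat_lit 1) (nat_lit 4) (nat_lit 6) (nat_lit 5) (nat_lit 61) (nat_lit 89) r5_61 r0_89 (nat_lit 0) (nat_lit 16868928) (nat_lit 0) (nat_lit 0x770328902) (nat_lit 699634640),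
  Rx.mk (nat_lit 433) (nat_lit 1) (nat_lit 6) (nat_lit 6) (nat_lit 7) (nat_lit 62) (nat_lit 90) r5_62 r0_90 (nat_lit 0) (nat_lit 0) (nat_lit 0) (nat_lit 0x80cf2f8d0) (nat_lit 525470412)]
noncomputable def e30_39 : List Rx := [
  Rx.mk (nat_lit 289) (nat_lit 1) (nat_lit 4) (nat_lit 4) (nat_lit 1) (nat_lit 184) (nat_lit 444) r5_184 r7_444 (nat_lit 0) (nat_lit 5813795) (nat_lit 21504054) (nat_lit 0x686efd894) (nat_lit 945833261),
  Rx.mk (nat_lit 297) (nat_lit 1) (nat_lit 5) (nat_lit 4) (nat_lit 3) (nat_lit 185) (nat_lit 445) r5_185 r7_445 (nat_lit 0) (nat_lit 0) (nat_lit 24741287) (nat_lit 0x7fd363f88) (nat_lit 565797099),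
  Rx.mk (nat_lit 417) (nat_lit 1) (nat_lit 4) (nat_lit 6) (nat_lit 5) (nat_lit 186) (nat_lit 446) r5_186 r7_446 (nat_lit 0) (nat_lit 6741966) (nat_lit 0) (nat_lit 0x7f4734e86) (nat_lit 556141628),
  Rx.mk (nat_lit 425) (nat_lit 1) (nat_lit 5) (nat_lit 6) (nat_lit 7) (nat_lit 187) (nat_lit 447) r5_187 r7_447 (nat_lit 0) (nat_lit 0) (nat_lit 0) (nat_lit 0x812b94fb2) (nat_lit 520035912),
  Rx.mk (nat_lit 433) (nat_lit 1) (nat_lit 6) (nat_lit 6) (nat_lit 7) (nat_lit 188) (nat_lit 448) r5_188 r7_448 (nat_lit 0) (nat_lit 0) (nat_lit 0) (nat_lit 0x8017985b4) (nat_lit 536870912)]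
noncomputable def e30_40 : List Rx := [
  Rx.mk (nat_lit 181) (nat_lit 5) (nat_lit 6) (nat_lit 2) (nat_lit 7) (nat_lit 14) (nat_lit 96) r5_14 r2_96 (nat_lit 0) (nat_lit 0) (nat_lit 0) (nat_lit 0x8017985b4) (nat_lit 536870912),
  Rx.mk (nat_lit 437) (nat_lit 5) (nat_lit 6) (nat_lit 6) (nat_lit 7) (nat_lit 15) (nat_lit 97) r5_15 r2_97 (nat_lit 0) (nat_lit 0) (nat_lit 0) (nat_lit 0x8059dee46) (nat_lit 532797862)]
noncomputable def e30_41 : List Rx := [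
  Rx.mk (nat_lit 181) (nat_lit 5) (nat_lit 6) (nat_lit 2) (nat_lit 7) (nat_lit 150) (nat_lit 63) r5_150 r9_63 (nat_lit 0) (nat_lit 0) (nat_lit 0) (nat_lit 0x8017985b4) (nat_lit 536870912),
  Rx.mk (nat_lit 437) (nat_lit 5) (nat_lit 6) (nat_lit 6) (nat_lit 7) (nat_lit 151) (nat_lit 64) r5_151 r9_64 (nat_lit 0) (nat_lit 0) (nat_lit 0) (nat_lit 0x7ffc47724) (nat_lit 538543512)]
noncomputable def e30_42 : List Rx := [
  Rx.mk (nat_lit 181) (nat_lit 5) (nat_lit 6) (nat_lit 2) (nat_lit 7) (nat_lit 123) (nat_lit 18) r5_123 r9_18 (nat_lit 0) (nat_lit 0) (nat_lit 0) (nat_lit 0x8017985b4) (nat_lit 536870912)]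
noncomputable def e30_43 : List Rx := [
  Rx.mk (nat_lit 417) (nat_lit 1) (nat_lit 4) (nat_lit 6) (nat_lit 5) (nat_lit 63) (nat_lit 91) r5_63 r1_91 (nat_lit 0) (nat_lit 3579826) (nat_lit 0) (nat_lit 0x811e759ee) (nat_lit 524029388),
  Rx.mk (nat_lit 433) (nat_lit 1) (nat_lit 6) (nat_lit 6) (nat_lit 7) (nat_lit 64) (nat_lit 92) r5_64 r1_92 (nat_lit 0) (nat_lit 0) (nat_lit 0) (nat_lit 0x79fc7a418) (nat_lit 634642712),
  Rx.mk (nat_lit 437) (nat_lit 5) (nat_lit 6) (nat_lit 6) (nat_lit 7) (nat_lit 65) (nat_lit 93) r5_65 r1_93 (nat_lit 0) (nat_lit 0) (nat_lit 0) (nat_lit 0x7fd333eb4) (nat_lit 540973512)]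
noncomputable def e30_44 : List Rx := [
  Rx.mk (nat_lit 289) (nat_lit 1) (nat_lit 4) (nat_lit 4) (nat_lit 1) (nat_lit 191) (nat_lit 362) r5_191 r8_362 (nat_lit 0) (nat_lit 13579307) (nat_lit 40282511) (nat_lit 0x676dbd25a) (nat_lit 988710430),
  Rx.mk (nat_lit 297) (nat_lit 1) (nat_lit 5) (nat_lit 4) (nat_lit 3) (nat_lit 192) (nat_lit 363) r5_192 r8_363 (nat_lit 0) (nat_lit 0) (nat_lit 24741287) (nat_lit 0x7fc98e4ea) (nat_lit 566401349),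
  Rx.mk (nat_lit 417) (nat_lit 1) (nat_lit 4) (nat_lit 6) (nat_lit 5) (nat_lit 193) (nat_lit 364) r5_193 r8_364 (nat_lit 0) (nat_lit 26008793) (nat_lit 0) (nat_lit 0x78bef927a) (nat_lit 680926905),
  Rx.mk (nat_lit 425) (nat_lit 1) (nat_lit 5) (nat_lit 6) (nat_lit 7) (nat_lit 194) (nat_lit 365) r5_194 r8_365 (nat_lit 0) (nat_lit 0) (nat_lit 0) (nat_lit 0x8017985b4) (nat_lit 536870912),
  Rx.mk (nat_lit 433) (nat_lit 1) (nat_lit 6) (nat_lit 6) (nat_lit 7) (nat_lit 195) (nat_lit 366) r5_195 r8_366 (nat_lit 0) (nat_lit 0) (nat_lit 0) (nat_lit 0x7f79cc664) (nat_lit 546583312),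
  Rx.mk (nat_lit 437) (nat_lit 5) (nat_lit 6) (nat_lit 6) (nat_lit 7) (nat_lit 196) (nat_lit 361) r5_196 r8_361 (nat_lit 0) (nat_lit 0) (nat_lit 0) (nat_lit 0x8017985b4) (nat_lit 536870912)]
noncomputable def e30_45 : List Rx := [
  Rx.mk (nat_lit 296) (nat_lit 0) (nat_lit 5) (nat_lit 4) (nat_lit 2) (nat_lit 164) (nat_lit 311) r5_164 r1_311 (nat_lit 14978700) (nat_lit 0) (nat_lit 8816353) (nat_lit 0x6ec49af3a) (nat_lit 839845015),
  Rx.mk (nat_lit 297) (nat_lit 1) (nat_lit 5) (nat_lit 4) (nat_lit 3) (nat_lit 165) (nat_lit 313) r5_165 r1_313 (nat_lit 0) (nat_lit 0) (nat_lit 20314026) (nat_lit 0x80db604a6) (nat_lit 545190438),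
  Rx.mk (nat_lit 298) (nat_lit 2) (nat_lit 5) (nat_lit 4) (nat_lit 3) (nat_lit 166) (nat_lit 315) r5_166 r1_315 (nat_lit 0) (nat_lit 0) (nat_lit 6296235) (nat_lit 0x7df201f0a) (nat_lit 577066447),
  Rx.mk (nat_lit 424) (nat_lit 0) (nat_lit 5) (nat_lit 6) (nat_lit 6) (nat_lit 167) (nat_lit 312) r5_167 r1_312 (nat_lit 20400359) (nat_lit 0) (nat_lit 0) (nat_lit 0x8039ecd5e) (nat_lit 555033421),
  Rx.mk (nat_lit 425) (nat_lit 1) (nat_lit 5) (nat_lit 6) (nat_lit 7) (nat_lit 168) (nat_lit 314) r5_168 r1_314 (nat_lit 0) (nat_lit 0) (nat_lit 0) (nat_lit 0x8095f8012) (nat_lit 529083662)]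
noncomputable def e30_46 : List Rx := [
  Rx.mk (nat_lit 266) (nat_lit 2) (nat_lit 1) (nat_lit 4) (nat_lit 3) (nat_lit 275) (nat_lit 367) r5_275 r2_367 (nat_lit 0) (nat_lit 0) (nat_lit 28314395) (nat_lit 0x7f288f256) (nat_lit 579938957),
  Rx.mk (nat_lit 296) (nat_lit 0) (nat_lit 5) (nat_lit 4) (nat_lit 2) (nat_lit 276) (nat_lit 360) r5_276 r2_360 (nat_lit 20559373) (nat_lit 0) (nat_lit 29764725) (nat_lit 0x5846938aa) (nat_lit 1230188910),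
  Rx.mk (nat_lit 297) (nat_lit 1) (nat_lit 5) (nat_lit 4) (nat_lit 3) (nat_lit 277) (nat_lit 363) r5_277 r2_363 (nat_lit 0) (nat_lit 0) (nat_lit 24741287) (nat_lit 0x8017985b4) (nat_lit 561612199),
  Rx.mk (nat_lit 298) (nat_lit 2) (nat_lit 5) (nat_lit 4) (nat_lit 3) (nat_lit 278) (nat_lit 366) r5_278 r2_366 (nat_lit 0) (nat_lit 0) (nat_lit 27157988) (nat_lit 0x7f2b617cc) (nat_lit 578604450),
  Rx.mk (nat_lit 330) (nat_lit 2) (nat_lit 1) (nat_lit 5) (nat_lit 7) (nat_lit 279) (nat_lit 369) r5_279 r2_369 (nat_lit 0) (nat_lit 0) (nat_lit 0) (nat_lit 0x8017985b4) (nat_lit 536870912),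
  Rx.mk (nat_lit 360) (nat_lit 0) (nat_lit 5) (nat_lit 5) (nat_lit 6) (nat_lit 280) (nat_lit 361) r5_280 r2_361 (nat_lit 74305846) (nat_lit 0) (nat_lit 0) (nat_lit 0x6bbe842c0) (nat_lit 939452858),
  Rx.mk (nat_lit 361) (nat_lit 1) (nat_lit 5) (nat_lit 5) (nat_lit 7) (nat_lit 281) (nat_lit 364) r5_281 r2_364 (nat_lit 0) (nat_lit 0) (nat_lit 0) (nat_lit 0x8017985b4) (nat_lit 536870912),
  Rx.mk (nat_lit 362) (nat_lit 2) (nat_lit 5) (nat_lit 5) (nat_lit 7) (nat_lit 282) (nat_lit 368) r5_282 r2_368 (nat_lit 0) (nat_lit 0) (nat_lit 0) (nat_lit 0x8017985b4) (nat_lit 536870912),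
  Rx.mk (nat_lit 424) (nat_lit 0) (nat_lit 5) (nat_lit 6) (nat_lit 6) (nat_lit 283) (nat_lit 362) r5_283 r2_362 (nat_lit 33327253) (nat_lit 0) (nat_lit 0) (nat_lit 0x7f65916c2) (nat_lit 581168965),
  Rx.mk (nat_lit 425) (nat_lit 1) (nat_lit 5) (nat_lit 6) (nat_lit 7) (nat_lit 284) (nat_lit 365) r5_284 r2_365 (nat_lit 0) (nat_lit 0) (nat_lit 0) (nat_lit 0x8017985b4) (nat_lit 536870912)]
noncomputable def e30_47 : List Rx := [
  Rx.mk (nat_lit 297) (nat_lit 1) (nat_lit 5) (nat_lit 4) (nat_lit 3) (nat_lit 189) (nat_lit 74) r5_189 r8_74 (nat_lit 0) (nat_lit 0) (nat_lit 17765140) (nat_lit 0x7ff74602c) (nat_lit 556578502),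
  Rx.mk (nat_lit 425) (nat_lit 1) (nat_lit 5) (nat_lit 6) (nat_lit 7) (nat_lit 190) (nat_lit 75) r5_190 r8_75 (nat_lit 0) (nat_lit 0) (nat_lit 0) (nat_lit 0x80b32653a) (nat_lit 527341762)]
noncomputable def e30_48 : List Rx := [
  Rx.mk (nat_lit 297) (nat_lit 1) (nat_lit 5) (nat_lit 4) (nat_lit 3) (nat_lit 290) (nat_lit 324) r5_290 r9_324 (nat_lit 0) (nat_lit 0) (nat_lit 26942027) (nat_lit 0x7e5860594) (nat_lit 591515239),
  Rx.mk (nat_lit 361) (nat_lit 1) (nat_lit 5) (nat_lit 5) (nat_lit 7) (nat_lit 291) (nat_lit 325) r5_291 r9_325 (nat_lit 0) (nat_lit 0) (nat_lit 0) (nat_lit 0x7ff2ca070) (nat_lit 539127012),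
  Rx.mk (nat_lit 425) (nat_lit 1) (nat_lit 5) (nat_lit 6) (nat_lit 7) (nat_lit 292) (nat_lit 326) r5_292 r9_326 (nat_lit 0) (nat_lit 0) (nat_lit 0) (nat_lit 0x8017985b4) (nat_lit 536870912)]
noncomputable def e30_49 : List Rx := [
  Rx.mk (nat_lit 330) (nat_lit 2) (nat_lit 1) (nat_lit 5) (nat_lit 7) (nat_lit 286) (nat_lit 309) r5_286 r9_309 (nat_lit 0) (nat_lit 0) (nat_lit 0) (nat_lit 0x7ff9dad06) (nat_lit 538691612),
  Rx.mk (nat_lit 360) (nat_lit 0) (nat_lit 5) (nat_lit 5) (nat_lit 6) (nat_lit 287) (nat_lit 307) r5_287 r9_307 (nat_lit 111344299) (nat_lit 0) (nat_lit 0) (nat_lit 0x6b103b6e6) (nat_lit 987492011),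
  Rx.mk (nat_lit 361) (nat_lit 1) (nat_lit 5) (nat_lit 5) (nat_lit 7) (nat_lit 288) (nat_lit 308) r5_288 r9_308 (nat_lit 0) (nat_lit 0) (nat_lit 0) (nat_lit 0x7ff67effe) (nat_lit 538897862),
  Rx.mk (nat_lit 362) (nat_lit 2) (nat_lit 5) (nat_lit 5) (nat_lit 7) (nat_lit 289) (nat_lit 310) r5_289 r9_310 (nat_lit 0) (nat_lit 0) (nat_lit 0) (nat_lit 0x7ff760b48) (nat_lit 538843712)]
noncomputable def e30_50 : List Rx := [
  Rx.mk (nat_lit 312) (nat_lit 0) (nat_lit 7) (nat_lit 4) (nat_lit 2) (nat_lit 52) (nat_lit 333) r5_52 r3_333 (nat_lit 1558) (nat_lit 0) (nat_lit 2749) (nat_lit 0x800757f88) (nat_lit 536440369),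
  Rx.mk (nat_lit 313) (nat_lit 1) (nat_lit 7) (nat_lit 4) (nat_lit 3) (nat_lit 53) (nat_lit 337) r5_53 r3_337 (nat_lit 0) (nat_lit 0) (nat_lit 4617775) (nat_lit 0x7f39a7408) (nat_lit 554334537),
  Rx.mk (nat_lit 314) (nat_lit 2) (nat_lit 7) (nat_lit 4) (nat_lit 3) (nat_lit 54) (nat_lit 341) r5_54 r3_341 (nat_lit 0) (nat_lit 0) (nat_lit 6095527) (nat_lit 0x814491984) (nat_lit 524090139),
  Rx.mk (nat_lit 416) (nat_lit 0) (nat_lit 4) (nat_lit 6) (nat_lit 4) (nat_lit 55) (nat_lit 334) r5_55 r3_334 (nat_lit 3690) (nat_lit 4830) (nat_lit 0) (nat_lit 0x7ffd07a60) (nat_lit 537068682),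
  Rx.mk (nat_lit 417) (nat_lit 1) (nat_lit 4) (nat_lit 6) (nat_lit 5) (nat_lit 56) (nat_lit 338) r5_56 r3_338 (nat_lit 0) (nat_lit 1607337) (nat_lit 0) (nat_lit 0x7673024ae) (nat_lit 693215299),
  Rx.mk (nat_lit 432) (nat_lit 0) (nat_lit 6) (nat_lit 6) (nat_lit 6) (nat_lit 57) (nat_lit 336) r5_57 r3_336 (nat_lit 2939284) (nat_lit 0) (nat_lit 0) (nat_lit 0x760f97a22) (nat_lit 700976746),
  Rx.mk (nat_lit 433) (nat_lit 1) (nat_lit 6) (nat_lit 6) (nat_lit 7) (nat_lit 58) (nat_lit 340) r5_58 r3_340 (nat_lit 0) (nat_lit 0) (nat_lit 0) (nat_lit 0x7e9266ec8) (nat_lit 560921062),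
  Rx.mk (nat_lit 440) (nat_lit 0) (nat_lit 7) (nat_lit 6) (nat_lit 6) (nat_lit 59) (nat_lit 335) r5_59 r3_335 (nat_lit 255679) (nat_lit 0) (nat_lit 0) (nat_lit 0x890dc1b68) (nat_lit 399147191),
  Rx.mk (nat_lit 441) (nat_lit 1) (nat_lit 7) (nat_lit 6) (nat_lit 7) (nat_lit 60) (nat_lit 339) r5_60 r3_339 (nat_lit 0) (nat_lit 0) (nat_lit 0) (nat_lit 0x95e0ba39c) (nat_lit 203775112)]
noncomputable def e30_51 : List Rx := [
  Rx.mk (nat_lit 288) (nat_lit 0) (nat_lit 4) (nat_lit 4) (nat_lit 0) (nat_lit 169) (nat_lit 366) r5_169 r4_366 (nat_lit 1433235) (nat_lit 841617) (nat_lit 2737427) (nat_lit 0x61d7dcea2) (nat_lit 1029758991),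
  Rx.mk (nat_lit 289) (nat_lit 1) (nat_lit 4) (nat_lit 4) (nat_lit 1) (nat_lit 170) (nat_lit 373) r5_170 r4_373 (nat_lit 0) (nat_lit 11320658) (nat_lit 159956814) (nat_lit 0x7afbd0750) (nat_lit 789998334),
  Rx.mk (nat_lit 290) (nat_lit 2) (nat_lit 4) (nat_lit 4) (nat_lit 1) (nat_lit 171) (nat_lit 378) r5_171 r4_378 (nat_lit 0) (nat_lit 24206208) (nat_lit 58076158) (nat_lit 0x78ad82f82) (nat_lit 738299028),
  Rx.mk (nat_lit 296) (nat_lit 0) (nat_lit 5) (nat_lit 4) (nat_lit 2) (nat_lit 172) (nat_lit 367) r5_172 r4_367 (nat_lit 31203347) (nat_lit 0) (nat_lit 38663507) (nat_lit 0x74de6bf62) (nat_lit 787491166),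
  Rx.mk (nat_lit 298) (nat_lit 2) (nat_lit 5) (nat_lit 4) (nat_lit 3) (nat_lit 173) (nat_lit 379) r5_173 r4_379 (nat_lit 0) (nat_lit 0) (nat_lit 24741287) (nat_lit 0x8017985b4) (nat_lit 561612199),
  Rx.mk (nat_lit 312) (nat_lit 0) (nat_lit 7) (nat_lit 4) (nat_lit 2) (nat_lit 174) (nat_lit 368) r5_174 r4_368 (nat_lit 5546147) (nat_lit 0) (nat_lit 174408130) (nat_lit 0x790afe648) (nat_lit 829916089),
  Rx.mk (nat_lit 313) (nat_lit 1) (nat_lit 7) (nat_lit 4) (nat_lit 3) (nat_lit 175) (nat_lit 374) r5_175 r4_374 (nat_lit 0) (nat_lit 0) (nat_lit 141819368) (nat_lit 0x7fe1dc33a) (nat_lit 681820880),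
  Rx.mk (nat_lit 314) (nat_lit 2) (nat_lit 7) (nat_lit 4) (nat_lit 3) (nat_lit 176) (nat_lit 380) r5_176 r4_380 (nat_lit 0) (nat_lit 0) (nat_lit 26164324) (nat_lit 0x80999346a) (nat_lit 555052536),
  Rx.mk (nat_lit 416) (nat_lit 0) (nat_lit 4) (nat_lit 6) (nat_lit 4) (nat_lit 177) (nat_lit 369) r5_177 r4_369 (nat_lit 5283235) (nat_lit 4717590) (nat_lit 0) (nat_lit 0x752a4ab54) (nat_lit 722606187),
  Rx.mk (nat_lit 417) (nat_lit 1) (nat_lit 4) (nat_lit 6) (nat_lit 5) (nat_lit 178) (nat_lit 375) r5_178 r4_375 (nat_lit 0) (nat_lit 10292378) (nat_lit 0) (nat_lit 0x80631e6c8) (nat_lit 542489390),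
  Rx.mk (nat_lit 424) (nat_lit 0) (nat_lit 5) (nat_lit 6) (nat_lit 6) (nat_lit 179) (nat_lit 370) r5_179 r4_370 (nat_lit 12656058) (nat_lit 0) (nat_lit 0) (nat_lit 0x8088cb0ec) (nat_lit 542545370),
  Rx.mk (nat_lit 432) (nat_lit 0) (nat_lit 6) (nat_lit 6) (nat_lit 6) (nat_lit 180) (nat_lit 372) r5_180 r4_372 (nat_lit 26071718) (nat_lit 0) (nat_lit 0) (nat_lit 0x7c450e86c) (nat_lit 624104680),
  Rx.mk (nat_lit 433) (nat_lit 1) (nat_lit 6) (nat_lit 6) (nat_lit 7) (nat_lit 181) (nat_lit 377) r5_181 r4_377 (nat_lit 0) (nat_lit 0) (nat_lit 0) (nat_lit 0x80414fb1e) (nat_lit 534304462),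
  Rx.mk (nat_lit 440) (nat_lit 0) (nat_lit 7) (nat_lit 6) (nat_lit 6) (nat_lit 182) (nat_lit 371) r5_182 r4_371 (nat_lit 11445764) (nat_lit 0) (nat_lit 0) (nat_lit 0x81403787a) (nat_lit 530241476),
  Rx.mk (nat_lit 441) (nat_lit 1) (nat_lit 7) (nat_lit 6) (nat_lit 7) (nat_lit 183) (nat_lit 376) r5_183 r4_376 (nat_lit 0) (nat_lit 0) (nat_lit 0) (nat_lit 0x80cd61346) (nat_lit 525749862)]
noncomputable def e30_52 : List Rx := [
  Rx.mk (nat_lit 312) (nat_lit 0) (nat_lit 7) (nat_lit 4) (nat_lit 2) (nat_lit 235) (nat_lit 311) r5_235 r5_311 (nat_lit 59092) (nat_lit 0) (nat_lit 256039) (nat_lit 0x820de74a0) (nat_lit 505885693),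
  Rx.mk (nat_lit 313) (nat_lit 1) (nat_lit 7) (nat_lit 4) (nat_lit 3) (nat_lit 236) (nat_lit 313) r5_236 r5_313 (nat_lit 0) (nat_lit 0) (nat_lit 84189096) (nat_lit 0x80e5c9802) (nat_lit 608169008),
  Rx.mk (nat_lit 314) (nat_lit 2) (nat_lit 7) (nat_lit 4) (nat_lit 3) (nat_lit 237) (nat_lit 315) r5_237 r5_315 (nat_lit 0) (nat_lit 0) (nat_lit 6154533) (nat_lit 0x82d163a50) (nat_lit 500638795),
  Rx.mk (nat_lit 440) (nat_lit 0) (nat_lit 7) (nat_lit 6) (nat_lit 6) (nat_lit 238) (nat_lit 312) r5_238 r5_312 (nat_lit 1304446) (nat_lit 0) (nat_lit 0) (nat_lit 0x7fd0f99aa) (nat_lit 541617058),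
  Rx.mk (nat_lit 441) (nat_lit 1) (nat_lit 7) (nat_lit 6) (nat_lit 7) (nat_lit 239) (nat_lit 314) r5_239 r5_314 (nat_lit 0) (nat_lit 0) (nat_lit 0) (nat_lit 0x81c0a1d3a) (nat_lit 511016762)]
noncomputable def e30_53 : List Rx := [
  Rx.mk (nat_lit 313) (nat_lit 1) (nat_lit 7) (nat_lit 4) (nat_lit 3) (nat_lit 66) (nat_lit 90) r5_66 r4_90 (nat_lit 0) (nat_lit 0) (nat_lit 9749711) (nat_lit 0x7ffe1e016) (nat_lit 547673873),
  Rx.mk (nat_lit 417) (nat_lit 1) (nat_lit 4) (nat_lit 6) (nat_lit 5) (nat_lit 67) (nat_lit 89) r5_67 r4_89 (nat_lit 0) (nat_lit 10750557) (nat_lit 0) (nat_lit 0x7fd33eeae) (nat_lit 551622569),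
  Rx.mk (nat_lit 433) (nat_lit 1) (nat_lit 6) (nat_lit 6) (nat_lit 7) (nat_lit 68) (nat_lit 92) r5_68 r4_92 (nat_lit 0) (nat_lit 0) (nat_lit 0) (nat_lit 0x7fb528974) (nat_lit 542767312),
  Rx.mk (nat_lit 441) (nat_lit 1) (nat_lit 7) (nat_lit 6) (nat_lit 7) (nat_lit 69) (nat_lit 91) r5_69 r4_91 (nat_lit 0) (nat_lit 0) (nat_lit 0) (nat_lit 0x8121440f8) (nat_lit 520021762)]
noncomputable def e30_54 : List Rx := [
  Rx.mk (nat_lit 289) (nat_lit 1) (nat_lit 4) (nat_lit 4) (nat_lit 1) (nat_lit 197) (nat_lit 369) r5_197 r10_369 (nat_lit 0) (nat_lit 4889214) (nat_lit 11835146) (nat_lit 0x6ab7fa806) (nat_lit 898281722),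
  Rx.mk (nat_lit 313) (nat_lit 1) (nat_lit 7) (nat_lit 4) (nat_lit 3) (nat_lit 198) (nat_lit 370) r5_198 r10_370 (nat_lit 0) (nat_lit 0) (nat_lit 24741287) (nat_lit 0x7fb2f649e) (nat_lit 567798249),
  Rx.mk (nat_lit 417) (nat_lit 1) (nat_lit 4) (nat_lit 6) (nat_lit 5) (nat_lit 199) (nat_lit 371) r5_199 r10_371 (nat_lit 0) (nat_lit 5323301) (nat_lit 0) (nat_lit 0x821784ed6) (nat_lit 511046163),
  Rx.mk (nat_lit 433) (nat_lit 1) (nat_lit 6) (nat_lit 6) (nat_lit 7) (nat_lit 200) (nat_lit 373) r5_200 r10_373 (nat_lit 0) (nat_lit 0) (nat_lit 0) (nat_lit 0x8017985b4) (nat_lit 536870912),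
  Rx.mk (nat_lit 441) (nat_lit 1) (nat_lit 7) (nat_lit 6) (nat_lit 7) (nat_lit 201) (nat_lit 372) r5_201 r10_372 (nat_lit 0) (nat_lit 0) (nat_lit 0) (nat_lit 0x80ff5f960) (nat_lit 522714412)]
noncomputable def e30_55 : List Rx := [
  Rx.mk (nat_lit 313) (nat_lit 1) (nat_lit 7) (nat_lit 4) (nat_lit 3) (nat_lit 240) (nat_lit 366) r5_240 r11_366 (nat_lit 0) (nat_lit 0) (nat_lit 12925908) (nat_lit 0x804d82ed6) (nat_lit 546213020),
  Rx.mk (nat_lit 441) (nat_lit 1) (nat_lit 7) (nat_lit 6) (nat_lit 7) (nat_lit 241) (nat_lit 367) r5_241 r11_367 (nat_lit 0) (nat_lit 0) (nat_lit 0) (nat_lit 0x834f94230) (nat_lit 487057512)]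
noncomputable def e30_56 : List Rx := [
  Rx.mk (nat_lit 312) (nat_lit 0) (nat_lit 7) (nat_lit 4) (nat_lit 2) (nat_lit 80) (nat_lit 83) r5_80 r5_83 (nat_lit 21406) (nat_lit 0) (nat_lit 32434) (nat_lit 0x7df66377e) (nat_lit 569881502),
  Rx.mk (nat_lit 313) (nat_lit 1) (nat_lit 7) (nat_lit 4) (nat_lit 3) (nat_lit 81) (nat_lit 84) r5_81 r5_84 (nat_lit 0) (nat_lit 0) (nat_lit 10427805) (nat_lit 0x7ec01b5f8) (nat_lit 568411717),
  Rx.mk (nat_lit 314) (nat_lit 2) (nat_lit 7) (nat_lit 4) (nat_lit 3) (nat_lit 82) (nat_lit 85) r5_82 r5_85 (nat_lit 0) (nat_lit 0) (nat_lit 4868394) (nat_lit 0x805425f9a) (nat_lit 537655506),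
  Rx.mk (nat_lit 416) (nat_lit 0) (nat_lit 4) (nat_lit 6) (nat_lit 4) (nat_lit 83) (nat_lit 80) r5_83 r5_80 (nat_lit 21406) (nat_lit 32434) (nat_lit 0) (nat_lit 0x7df66377e) (nat_lit 569881502),
  Rx.mk (nat_lit 417) (nat_lit 1) (nat_lit 4) (nat_lit 6) (nat_lit 5) (nat_lit 84) (nat_lit 81) r5_84 r5_81 (nat_lit 0) (nat_lit 10427805) (nat_lit 0) (nat_lit 0x7ec01b5f8) (nat_lit 568411717),
  Rx.mk (nat_lit 419) (nat_lit 3) (nat_lit 4) (nat_lit 6) (nat_lit 5) (nat_lit 85) (nat_lit 82) r5_85 r5_82 (nat_lit 0) (nat_lit 4868394) (nat_lit 0) (nat_lit 0x805425f9a) (nat_lit 537655506),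
  Rx.mk (nat_lit 432) (nat_lit 0) (nat_lit 6) (nat_lit 6) (nat_lit 6) (nat_lit 86) (nat_lit 91) r5_86 r5_91 (nat_lit 4689852) (nat_lit 0) (nat_lit 0) (nat_lit 0x775cace2e) (nat_lit 681805714),
  Rx.mk (nat_lit 433) (nat_lit 1) (nat_lit 6) (nat_lit 6) (nat_lit 7) (nat_lit 87) (nat_lit 92) r5_87 r5_92 (nat_lit 0) (nat_lit 0) (nat_lit 0) (nat_lit 0x7af3eeae6) (nat_lit 619248212),
  Rx.mk (nat_lit 435) (nat_lit 3) (nat_lit 6) (nat_lit 6) (nat_lit 7) (nat_lit 88) (nat_lit 93) r5_88 r5_93 (nat_lit 0) (nat_lit 0) (nat_lit 0) (nat_lit 0x7ff6f362e) (nat_lit 538736412),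
  Rx.mk (nat_lit 440) (nat_lit 0) (nat_lit 7) (nat_lit 6) (nat_lit 6) (nat_lit 89) (nat_lit 89) r5_89 r5_89 (nat_lit 169882) (nat_lit 0) (nat_lit 0) (nat_lit 0x8abe45df8) (nat_lit 373252794),
  Rx.mk (nat_lit 441) (nat_lit 1) (nat_lit 7) (nat_lit 6) (nat_lit 7) (nat_lit 90) (nat_lit 90) r5_90 r5_90 (nat_lit 0) (nat_lit 0) (nat_lit 0) (nat_lit 0x814eaf5e2) (nat_lit 517898262),
  Rx.mk (nat_lit 504) (nat_lit 0) (nat_lit 7) (nat_lit 7) (nat_lit 6) (nat_lit 91) (nat_lit 86) r5_91 r5_86 (nat_lit 4689852) (nat_lit 0) (nat_lit 0) (nat_lit 0x775cace2e) (nat_lit 681805714),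
  Rx.mk (nat_lit 505) (nat_lit 1) (nat_lit 7) (nat_lit 7) (nat_lit 7) (nat_lit 92) (nat_lit 87) r5_92 r5_87 (nat_lit 0) (nat_lit 0) (nat_lit 0) (nat_lit 0x7af3eeae6) (nat_lit 619248212),
  Rx.mk (nat_lit 506) (nat_lit 2) (nat_lit 7) (nat_lit 7) (nat_lit 7) (nat_lit 93) (nat_lit 88) r5_93 r5_88 (nat_lit 0) (nat_lit 0) (nat_lit 0) (nat_lit 0x7ff6f362e) (nat_lit 538736412)]
noncomputable def e30_57 : List Rx := [
  Rx.mk (nat_lit 288) (nat_lit 0) (nat_lit 4) (nat_lit 4) (nat_lit 0) (nat_lit 202) (nat_lit 68) r5_202 r11_68 (nat_lit 4773935) (nat_lit 5946457) (nat_lit 23484085) (nat_lit 0x49e63d70c) (nat_lit 1446456039),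
  Rx.mk (nat_lit 289) (nat_lit 1) (nat_lit 4) (nat_lit 4) (nat_lit 1) (nat_lit 203) (nat_lit 69) r5_203 r11_69 (nat_lit 0) (nat_lit 33768507) (nat_lit 55665677) (nat_lit 0x7ce62247e) (nat_lit 677311396),
  Rx.mk (nat_lit 290) (nat_lit 2) (nat_lit 4) (nat_lit 4) (nat_lit 1) (nat_lit 204) (nat_lit 71) r5_204 r11_71 (nat_lit 0) (nat_lit 36801253) (nat_lit 60413237) (nat_lit 0x7abb7e684) (nat_lit 720123752),
  Rx.mk (nat_lit 291) (nat_lit 3) (nat_lit 4) (nat_lit 4) (nat_lit 1) (nat_lit 205) (nat_lit 70) r5_205 r11_70 (nat_lit 0) (nat_lit 37783563) (nat_lit 43048303) (nat_lit 0x7dabdf81a) (nat_lit 656267928),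
  Rx.mk (nat_lit 296) (nat_lit 0) (nat_lit 5) (nat_lit 4) (nat_lit 2) (nat_lit 206) (nat_lit 75) r5_206 r11_75 (nat_lit 35682471) (nat_lit 0) (nat_lit 41438793) (nat_lit 0x752101d04) (nat_lit 790555976),
  Rx.mk (nat_lit 298) (nat_lit 2) (nat_lit 5) (nat_lit 4) (nat_lit 3) (nat_lit 207) (nat_lit 77) r5_207 r11_77 (nat_lit 0) (nat_lit 0) (nat_lit 24741287) (nat_lit 0x8017985b4) (nat_lit 561612199),
  Rx.mk (nat_lit 299) (nat_lit 3) (nat_lit 5) (nat_lit 4) (nat_lit 3) (nat_lit 208) (nat_lit 76) r5_208 r11_76 (nat_lit 0) (nat_lit 0) (nat_lit 24741287) (nat_lit 0x8017985b4) (nat_lit 561612199),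
  Rx.mk (nat_lit 312) (nat_lit 0) (nat_lit 7) (nat_lit 4) (nat_lit 2) (nat_lit 209) (nat_lit 80) r5_209 r11_80 (nat_lit 10516416) (nat_lit 0) (nat_lit 163052374) (nat_lit 0x79e792546) (nat_lit 809704152),
  Rx.mk (nat_lit 313) (nat_lit 1) (nat_lit 7) (nat_lit 4) (nat_lit 3) (nat_lit 210) (nat_lit 81) r5_210 r11_81 (nat_lit 0) (nat_lit 0) (nat_lit 24741287) (nat_lit 0x8036bdc00) (nat_lit 559695499),
  Rx.mk (nat_lit 314) (nat_lit 2) (nat_lit 7) (nat_lit 4) (nat_lit 3) (nat_lit 211) (nat_lit 82) r5_211 r11_82 (nat_lit 0) (nat_lit 0) (nat_lit 25956094) (nat_lit 0x80019bd60) (nat_lit 564158956),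
  Rx.mk (nat_lit 416) (nat_lit 0) (nat_lit 4) (nat_lit 6) (nat_lit 4) (nat_lit 212) (nat_lit 72) r5_212 r11_72 (nat_lit 8957018) (nat_lit 12323810) (nat_lit 0) (nat_lit 0x6eeac40b2) (nat_lit 835033290),
  Rx.mk (nat_lit 417) (nat_lit 1) (nat_lit 4) (nat_lit 6) (nat_lit 5) (nat_lit 213) (nat_lit 73) r5_213 r11_73 (nat_lit 0) (nat_lit 18403732) (nat_lit 0) (nat_lit 0x8068f7d2e) (nat_lit 550276494),
  Rx.mk (nat_lit 419) (nat_lit 3) (nat_lit 4) (nat_lit 6) (nat_lit 5) (nat_lit 214) (nat_lit 74) r5_214 r11_74 (nat_lit 0) (nat_lit 19699007) (nat_lit 0) (nat_lit 0x7fd8785be) (nat_lit 560420169),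
  Rx.mk (nat_lit 424) (nat_lit 0) (nat_lit 5) (nat_lit 6) (nat_lit 6) (nat_lit 215) (nat_lit 78) r5_215 r11_78 (nat_lit 16307770) (nat_lit 0) (nat_lit 0) (nat_lit 0x8072222be) (nat_lit 547606132),
  Rx.mk (nat_lit 427) (nat_lit 3) (nat_lit 5) (nat_lit 6) (nat_lit 7) (nat_lit 216) (nat_lit 79) r5_216 r11_79 (nat_lit 0) (nat_lit 0) (nat_lit 0) (nat_lit 0x8017985b4) (nat_lit 536870912),
  Rx.mk (nat_lit 432) (nat_lit 0) (nat_lit 6) (nat_lit 6) (nat_lit 6) (nat_lit 217) (nat_lit 88) r5_217 r11_88 (nat_lit 24841657) (nat_lit 0) (nat_lit 0) (nat_lit 0x7dc3688d8) (nat_lit 598810569),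
  Rx.mk (nat_lit 433) (nat_lit 1) (nat_lit 6) (nat_lit 6) (nat_lit 7) (nat_lit 218) (nat_lit 89) r5_218 r11_89 (nat_lit 0) (nat_lit 0) (nat_lit 0) (nat_lit 0x8017985b4) (nat_lit 536870912),
  Rx.mk (nat_lit 435) (nat_lit 3) (nat_lit 6) (nat_lit 6) (nat_lit 7) (nat_lit 219) (nat_lit 90) r5_219 r11_90 (nat_lit 0) (nat_lit 0) (nat_lit 0) (nat_lit 0x8017985b4) (nat_lit 536870912),
  Rx.mk (nat_lit 440) (nat_lit 0) (nat_lit 7) (nat_lit 6) (nat_lit 6) (nat_lit 220) (nat_lit 86) r5_220 r11_86 (nat_lit 16204149) (nat_lit 0) (nat_lit 0) (nat_lit 0x809309fb8) (nat_lit 545503711),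
  Rx.mk (nat_lit 441) (nat_lit 1) (nat_lit 7) (nat_lit 6) (nat_lit 7) (nat_lit 221) (nat_lit 87) r5_221 r11_87 (nat_lit 0) (nat_lit 0) (nat_lit 0) (nat_lit 0x8017985b4) (nat_lit 536870912),
  Rx.mk (nat_lit 504) (nat_lit 0) (nat_lit 7) (nat_lit 7) (nat_lit 6) (nat_lit 222) (nat_lit 83) r5_222 r11_83 (nat_lit 20811975) (nat_lit 0) (nat_lit 0) (nat_lit 0x7fde627e0) (nat_lit 561177737),
  Rx.mk (nat_lit 505) (nat_lit 1) (nat_lit 7) (nat_lit 7) (nat_lit 7) (nat_lit 223) (nat_lit 84) r5_223 r11_84 (nat_lit 0) (nat_lit 0) (nat_lit 0) (nat_lit 0x8017985b4) (nat_lit 536870912),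
  Rx.mk (nat_lit 506) (nat_lit 2) (nat_lit 7) (nat_lit 7) (nat_lit 7) (nat_lit 224) (nat_lit 85) r5_224 r11_85 (nat_lit 0) (nat_lit 0) (nat_lit 0) (nat_lit 0x8017985b4) (nat_lit 536870912)]
noncomputable def e30 : List (List Rx) := [e30_0, e30_1, e30_2, e30_3, e30_4, e30_5, e30_6, e30_7, e30_8, e30_9, e30_10, e30_11, e30_12, e30_13, e30_14, e30_15, e30_16, e30_17, e30_18, e30_19, e30_20, e30_21, e30_22, e30_23, e30_24, e30_25, e30_26, e30_27, e30_28, e30_29, e30_30, e30_31, e30_32, e30_33, e30_34, e30_35, e30_36, e30_37, e30_38, e30_39, e30_40, e30_41, e30_42, e30_43, e30_44, e30_45, e30_46, e30_47, e30_48, e30_49, e30_50, e30_51, e30_52, e30_53, e30_54, e30_55, e30_56, e30_57]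
noncomputable def e31_0 : List Rx := [
  Rx.mk (nat_lit 2) (nat_lit 2) (nat_lit 0) (nat_lit 0) (nat_lit 1) (nat_lit 91) (nat_lit 212) r11_91 r0_212 (nat_lit 0) (nat_lit 170327518) (nat_lit 18712504) (nat_lit 0x72fa2386a) (nat_lit 937148384),
  Rx.mk (nat_lit 6) (nat_lit 6) (nat_lit 0) (nat_lit 0) (nat_lit 1) (nat_lit 92) (nat_lit 219) r11_92 r0_219 (nat_lit 0) (nat_lit 9949213) (nat_lit 7944298) (nat_lit 0x6fc82cfd0) (nat_lit 817619223),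
  Rx.mk (nat_lit 22) (nat_lit 6) (nat_lit 2) (nat_lit 0) (nat_lit 3) (nat_lit 93) (nat_lit 220) r11_93 r0_220 (nat_lit 0) (nat_lit 0) (nat_lit 15086968) (nat_lit 0x80b26ae3e) (nat_lit 542475880),
  Rx.mk (nat_lit 148) (nat_lit 4) (nat_lit 2) (nat_lit 2) (nat_lit 6) (nat_lit 94) (nat_lit 215) r11_94 r0_215 (nat_lit 14894858) (nat_lit 0) (nat_lit 0) (nat_lit 0x800926332) (nat_lit 552590770),
  Rx.mk (nat_lit 150) (nat_lit 6) (nat_lit 2) (nat_lit 2) (nat_lit 7) (nat_lit 95) (nat_lit 221) r11_95 r0_221 (nat_lit 0) (nat_lit 0) (nat_lit 0) (nat_lit 0x805e5975a) (nat_lit 532528962),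
  Rx.mk (nat_lit 180) (nat_lit 4) (nat_lit 6) (nat_lit 2) (nat_lit 6) (nat_lit 96) (nat_lit 216) r11_96 r0_216 (nat_lit 12688314) (nat_lit 0) (nat_lit 0) (nat_lit 0x803b0d346) (nat_lit 547294026),
  Rx.mk (nat_lit 194) (nat_lit 2) (nat_lit 0) (nat_lit 3) (nat_lit 5) (nat_lit 97) (nat_lit 213) r11_97 r0_213 (nat_lit 0) (nat_lit 153834335) (nat_lit 0) (nat_lit 0x7ce2c9da4) (nat_lit 741924097),
  Rx.mk (nat_lit 218) (nat_lit 2) (nat_lit 3) (nat_lit 3) (nat_lit 7) (nat_lit 98) (nat_lit 214) r11_98 r0_214 (nat_lit 0) (nat_lit 0) (nat_lit 0) (nat_lit 0x8056e7ad0) (nat_lit 532778862),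
  Rx.mk (nat_lit 436) (nat_lit 4) (nat_lit 6) (nat_lit 6) (nat_lit 6) (nat_lit 99) (nat_lit 217) r11_99 r0_217 (nat_lit 11279401) (nat_lit 0) (nat_lit 0) (nat_lit 0x78e6c8c2e) (nat_lit 663631063),
  Rx.mk (nat_lit 439) (nat_lit 7) (nat_lit 6) (nat_lit 6) (nat_lit 7) (nat_lit 100) (nat_lit 218) r11_100 r0_218 (nat_lit 0) (nat_lit 0) (nat_lit 0) (nat_lit 0x81065e126) (nat_lit 522185862)]
noncomputable def e31_1 : List Rx := [
  Rx.mk (nat_lit 2) (nat_lit 2) (nat_lit 0) (nat_lit 0) (nat_lit 1) (nat_lit 107) (nat_lit 234) r11_107 r1_234 (nat_lit 0) (nat_lit 88719546) (nat_lit 26935402) (nat_lit 0x76bea858e) (nat_lit 802950560),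
  Rx.mk (nat_lit 6) (nat_lit 6) (nat_lit 0) (nat_lit 0) (nat_lit 1) (nat_lit 108) (nat_lit 237) r11_108 r1_237 (nat_lit 0) (nat_lit 51763813) (nat_lit 45330043) (nat_lit 0x7bfdcf3ca) (nat_lit 699634368),
  Rx.mk (nat_lit 22) (nat_lit 6) (nat_lit 2) (nat_lit 0) (nat_lit 3) (nat_lit 109) (nat_lit 238) r11_109 r1_238 (nat_lit 0) (nat_lit 0) (nat_lit 24741287) (nat_lit 0x8017985b4) (nat_lit 561612199),
  Rx.mk (nat_lit 150) (nat_lit 6) (nat_lit 2) (nat_lit 2) (nat_lit 7) (nat_lit 110) (nat_lit 239) r11_110 r1_239 (nat_lit 0) (nat_lit 0) (nat_lit 0) (nat_lit 0x8017985b4) (nat_lit 536870912),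
  Rx.mk (nat_lit 194) (nat_lit 2) (nat_lit 0) (nat_lit 3) (nat_lit 5) (nat_lit 111) (nat_lit 235) r11_111 r1_235 (nat_lit 0) (nat_lit 25084538) (nat_lit 0) (nat_lit 0x8001d6c6c) (nat_lit 563283450),
  Rx.mk (nat_lit 218) (nat_lit 2) (nat_lit 3) (nat_lit 3) (nat_lit 7) (nat_lit 112) (nat_lit 236) r11_112 r1_236 (nat_lit 0) (nat_lit 0) (nat_lit 0) (nat_lit 0x81471cbfe) (nat_lit 518335312)]
noncomputable def e31_2 : List Rx := [
  Rx.mk (nat_lit 2) (nat_lit 2) (nat_lit 0) (nat_lit 0) (nat_lit 1) (nat_lit 308) (nat_lit 241) r11_308 r2_241 (nat_lit 0) (nat_lit 36134950) (nat_lit 25006969) (nat_lit 0x75d2a943a) (nat_lit 763343081),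
  Rx.mk (nat_lit 6) (nat_lit 6) (nat_lit 0) (nat_lit 0) (nat_lit 1) (nat_lit 309) (nat_lit 246) r11_309 r2_246 (nat_lit 0) (nat_lit 47863837) (nat_lit 33757685) (nat_lit 0x7c693e598) (nat_lit 677403034),
  Rx.mk (nat_lit 22) (nat_lit 6) (nat_lit 2) (nat_lit 0) (nat_lit 3) (nat_lit 310) (nat_lit 248) r11_310 r2_248 (nat_lit 0) (nat_lit 0) (nat_lit 24741287) (nat_lit 0x8017985b4) (nat_lit 561612199),
  Rx.mk (nat_lit 26) (nat_lit 2) (nat_lit 3) (nat_lit 0) (nat_lit 3) (nat_lit 311) (nat_lit 243) r11_311 r2_243 (nat_lit 0) (nat_lit 0) (nat_lit 24741287) (nat_lit 0x8017985b4) (nat_lit 561612199),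
  Rx.mk (nat_lit 66) (nat_lit 2) (nat_lit 0) (nat_lit 1) (nat_lit 5) (nat_lit 312) (nat_lit 242) r11_312 r2_242 (nat_lit 0) (nat_lit 24741287) (nat_lit 0) (nat_lit 0x8017985b4) (nat_lit 561612199),
  Rx.mk (nat_lit 70) (nat_lit 6) (nat_lit 0) (nat_lit 1) (nat_lit 5) (nat_lit 313) (nat_lit 247) r11_313 r2_247 (nat_lit 0) (nat_lit 24741287) (nat_lit 0) (nat_lit 0x8017985b4) (nat_lit 561612199),
  Rx.mk (nat_lit 86) (nat_lit 6) (nat_lit 2) (nat_lit 1) (nat_lit 7) (nat_lit 314) (nat_lit 249) r11_314 r2_249 (nat_lit 0) (nat_lit 0) (nat_lit 0) (nat_lit 0x8017985b4) (nat_lit 536870912),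
  Rx.mk (nat_lit 90) (nat_lit 2) (nat_lit 3) (nat_lit 1) (nat_lit 7) (nat_lit 315) (nat_lit 244) r11_315 r2_244 (nat_lit 0) (nat_lit 0) (nat_lit 0) (nat_lit 0x8017985b4) (nat_lit 536870912),
  Rx.mk (nat_lit 150) (nat_lit 6) (nat_lit 2) (nat_lit 2) (nat_lit 7) (nat_lit 316) (nat_lit 250) r11_316 r2_250 (nat_lit 0) (nat_lit 0) (nat_lit 0) (nat_lit 0x8017985b4) (nat_lit 536870912),
  Rx.mk (nat_lit 218) (nat_lit 2) (nat_lit 3) (nat_lit 3) (nat_lit 7) (nat_lit 317) (nat_lit 245) r11_317 r2_245 (nat_lit 0) (nat_lit 0) (nat_lit 0) (nat_lit 0x8017985b4) (nat_lit 536870912)]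
noncomputable def e31_3 : List Rx := [
  Rx.mk (nat_lit 439) (nat_lit 7) (nat_lit 6) (nat_lit 6) (nat_lit 7) (nat_lit 6) (nat_lit 216) r11_6 r3_216 (nat_lit 0) (nat_lit 0) (nat_lit 0) (nat_lit 0x884245afc) (nat_lit 411412412),
  Rx.mk (nat_lit 474) (nat_lit 2) (nat_lit 3) (nat_lit 7) (nat_lit 7) (nat_lit 7) (nat_lit 215) r11_7 r3_215 (nat_lit 0) (nat_lit 0) (nat_lit 0) (nat_lit 0x8f1cadf90) (nat_lit 306718562)]
noncomputable def e31_4 : List Rx := [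
  Rx.mk (nat_lit 6) (nat_lit 6) (nat_lit 0) (nat_lit 0) (nat_lit 1) (nat_lit 125) (nat_lit 212) r11_125 r4_212 (nat_lit 0) (nat_lit 616962) (nat_lit 514055) (nat_lit 0x69c2df4b6) (nat_lit 897748479),
  Rx.mk (nat_lit 22) (nat_lit 6) (nat_lit 2) (nat_lit 0) (nat_lit 3) (nat_lit 126) (nat_lit 214) r11_126 r4_214 (nat_lit 0) (nat_lit 0) (nat_lit 10106242) (nat_lit 0x8153a01f0) (nat_lit 527714454),
  Rx.mk (nat_lit 148) (nat_lit 4) (nat_lit 2) (nat_lit 2) (nat_lit 6) (nat_lit 127) (nat_lit 208) r11_127 r4_208 (nat_lit 12952000) (nat_lit 0) (nat_lit 0) (nat_lit 0x80562ac28) (nat_lit 545915612),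
  Rx.mk (nat_lit 150) (nat_lit 6) (nat_lit 2) (nat_lit 2) (nat_lit 7) (nat_lit 128) (nat_lit 216) r11_128 r4_216 (nat_lit 0) (nat_lit 0) (nat_lit 0) (nat_lit 0x80812fcde) (nat_lit 530394062),
  Rx.mk (nat_lit 180) (nat_lit 4) (nat_lit 6) (nat_lit 2) (nat_lit 6) (nat_lit 129) (nat_lit 209) r11_129 r4_209 (nat_lit 13063204) (nat_lit 0) (nat_lit 0) (nat_lit 0x7f229ebd0) (nat_lit 564962416),
  Rx.mk (nat_lit 183) (nat_lit 7) (nat_lit 6) (nat_lit 2) (nat_lit 7) (nat_lit 130) (nat_lit 210) r11_130 r4_210 (nat_lit 0) (nat_lit 0) (nat_lit 0) (nat_lit 0x81dd34f24) (nat_lit 509302462),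
  Rx.mk (nat_lit 194) (nat_lit 2) (nat_lit 0) (nat_lit 3) (nat_lit 5) (nat_lit 131) (nat_lit 205) r11_131 r4_205 (nat_lit 0) (nat_lit 31334360) (nat_lit 0) (nat_lit 0x7f54de2a8) (nat_lit 580083322),
  Rx.mk (nat_lit 198) (nat_lit 6) (nat_lit 0) (nat_lit 3) (nat_lit 5) (nat_lit 132) (nat_lit 213) r11_132 r4_213 (nat_lit 0) (nat_lit 13764592) (nat_lit 0) (nat_lit 0x8088c91ca) (nat_lit 543663854),
  Rx.mk (nat_lit 214) (nat_lit 6) (nat_lit 2) (nat_lit 3) (nat_lit 7) (nat_lit 133) (nat_lit 215) r11_133 r4_215 (nat_lit 0) (nat_lit 0) (nat_lit 0) (nat_lit 0x807403de4) (nat_lit 531198062),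
  Rx.mk (nat_lit 218) (nat_lit 2) (nat_lit 3) (nat_lit 3) (nat_lit 7) (nat_lit 134) (nat_lit 206) r11_134 r4_206 (nat_lit 0) (nat_lit 0) (nat_lit 0) (nat_lit 0x81e84d53c) (nat_lit 508548712),
  Rx.mk (nat_lit 439) (nat_lit 7) (nat_lit 6) (nat_lit 6) (nat_lit 7) (nat_lit 135) (nat_lit 211) r11_135 r4_211 (nat_lit 0) (nat_lit 0) (nat_lit 0) (nat_lit 0x80f168d7a) (nat_lit 523350662),
  Rx.mk (nat_lit 474) (nat_lit 2) (nat_lit 3) (nat_lit 7) (nat_lit 7) (nat_lit 136) (nat_lit 207) r11_136 r4_207 (nat_lit 0) (nat_lit 0) (nat_lit 0) (nat_lit 0x825f8dcd2) (nat_lit 501520162)]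
noncomputable def e31_5 : List Rx := [
  Rx.mk (nat_lit 474) (nat_lit 2) (nat_lit 3) (nat_lit 7) (nat_lit 7) (nat_lit 265) (nat_lit 230) r11_265 r5_230 (nat_lit 0) (nat_lit 0) (nat_lit 0) (nat_lit 0x880aa8a68) (nat_lit 414822412)]
noncomputable def e31_6 : List Rx := [
  Rx.mk (nat_lit 322) (nat_lit 2) (nat_lit 0) (nat_lit 5) (nat_lit 5) (nat_lit 351) (nat_lit 225) r11_351 r3_225 (nat_lit 0) (nat_lit 9974206) (nat_lit 0) (nat_lit 0x7a7d1cf58) (nat_lit 636241818),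
  Rx.mk (nat_lit 346) (nat_lit 2) (nat_lit 3) (nat_lit 5) (nat_lit 7) (nat_lit 352) (nat_lit 226) r11_352 r3_226 (nat_lit 0) (nat_lit 0) (nat_lit 0) (nat_lit 0x885a32e30) (nat_lit 409617212)]
noncomputable def e31_7 : List Rx := [
  Rx.mk (nat_lit 66) (nat_lit 2) (nat_lit 0) (nat_lit 1) (nat_lit 5) (nat_lit 300) (nat_lit 226) r11_300 r0_226 (nat_lit 0) (nat_lit 12926127) (nat_lit 0) (nat_lit 0x800aea9a2) (nat_lit 550481389),
  Rx.mk (nat_lit 90) (nat_lit 2) (nat_lit 3) (nat_lit 1) (nat_lit 7) (nat_lit 301) (nat_lit 227) r11_301 r0_227 (nat_lit 0) (nat_lit 0) (nat_lit 0) (nat_lit 0x8257094c6) (nat_lit 501926062),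
  Rx.mk (nat_lit 322) (nat_lit 2) (nat_lit 0) (nat_lit 5) (nat_lit 5) (nat_lit 302) (nat_lit 225) r11_302 r0_225 (nat_lit 0) (nat_lit 9444164) (nat_lit 0) (nat_lit 0x7fd819c08) (nat_lit 550012926)]
noncomputable def e31_8 : List Rx := [
  Rx.mk (nat_lit 66) (nat_lit 2) (nat_lit 0) (nat_lit 1) (nat_lit 5) (nat_lit 333) (nat_lit 244) r11_333 r1_244 (nat_lit 0) (nat_lit 16971006) (nat_lit 0) (nat_lit 0x8058c13c4) (nat_lit 549817368),
  Rx.mk (nat_lit 90) (nat_lit 2) (nat_lit 3) (nat_lit 1) (nat_lit 7) (nat_lit 334) (nat_lit 245) r11_334 r1_245 (nat_lit 0) (nat_lit 0) (nat_lit 0) (nat_lit 0x814704da6) (nat_lit 518377612)]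
noncomputable def e31_9 : List Rx := [
  Rx.mk (nat_lit 90) (nat_lit 2) (nat_lit 3) (nat_lit 1) (nat_lit 7) (nat_lit 357) (nat_lit 228) r11_357 r4_228 (nat_lit 0) (nat_lit 0) (nat_lit 0) (nat_lit 0x850b42e04) (nat_lit 460662012),
  Rx.mk (nat_lit 322) (nat_lit 2) (nat_lit 0) (nat_lit 5) (nat_lit 5) (nat_lit 358) (nat_lit 226) r11_358 r4_226 (nat_lit 0) (nat_lit 11487859) (nat_lit 0) (nat_lit 0x7fe0ccc6a) (nat_lit 551547221),
  Rx.mk (nat_lit 346) (nat_lit 2) (nat_lit 3) (nat_lit 5) (nat_lit 7) (nat_lit 359) (nat_lit 227) r11_359 r4_227 (nat_lit 0) (nat_lit 0) (nat_lit 0) (nat_lit 0x82046c2cc) (nat_lit 506848662)]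
noncomputable def e31_10 : List Rx := [
  Rx.mk (nat_lit 282) (nat_lit 2) (nat_lit 3) (nat_lit 4) (nat_lit 3) (nat_lit 284) (nat_lit 241) r11_284 r6_241 (nat_lit 0) (nat_lit 0) (nat_lit 4181752) (nat_lit 0x80bce2e16) (nat_lit 530625764),
  Rx.mk (nat_lit 346) (nat_lit 2) (nat_lit 3) (nat_lit 5) (nat_lit 7) (nat_lit 285) (nat_lit 242) r11_285 r6_242 (nat_lit 0) (nat_lit 0) (nat_lit 0) (nat_lit 0x84db9c5a6) (nat_lit 463462512),
  Rx.mk (nat_lit 474) (nat_lit 2) (nat_lit 3) (nat_lit 7) (nat_lit 7) (nat_lit 286) (nat_lit 243) r11_286 r6_243 (nat_lit 0) (nat_lit 0) (nat_lit 0) (nat_lit 0x8558f78ac) (nat_lit 456022662)]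
noncomputable def e31_11 : List Rx := [
  Rx.mk (nat_lit 322) (nat_lit 2) (nat_lit 0) (nat_lit 5) (nat_lit 5) (nat_lit 366) (nat_lit 240) r11_366 r5_240 (nat_lit 0) (nat_lit 12925908) (nat_lit 0) (nat_lit 0x804d82ed6) (nat_lit 546213020),
  Rx.mk (nat_lit 346) (nat_lit 2) (nat_lit 3) (nat_lit 5) (nat_lit 7) (nat_lit 367) (nat_lit 241) r11_367 r5_241 (nat_lit 0) (nat_lit 0) (nat_lit 0) (nat_lit 0x834f94230) (nat_lit 487057512)]
noncomputable def e31_12 : List Rx := [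
  Rx.mk (nat_lit 436) (nat_lit 4) (nat_lit 6) (nat_lit 6) (nat_lit 6) (nat_lit 0) (nat_lit 152) r11_0 r0_152 (nat_lit 24142843) (nat_lit 0) (nat_lit 0) (nat_lit 0x7ecf6cf52) (nat_lit 581323155),
  Rx.mk (nat_lit 439) (nat_lit 7) (nat_lit 6) (nat_lit 6) (nat_lit 7) (nat_lit 1) (nat_lit 153) r11_1 r0_153 (nat_lit 0) (nat_lit 0) (nat_lit 0) (nat_lit 0x80194a9fc) (nat_lit 536773062)]
noncomputable def e31_13 : List Rx := [
  Rx.mk (nat_lit 22) (nat_lit 6) (nat_lit 2) (nat_lit 0) (nat_lit 3) (nat_lit 101) (nat_lit 278) r11_101 r7_278 (nat_lit 0) (nat_lit 0) (nat_lit 24741287) (nat_lit 0x8017985b4) (nat_lit 561612199),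
  Rx.mk (nat_lit 148) (nat_lit 4) (nat_lit 2) (nat_lit 2) (nat_lit 6) (nat_lit 102) (nat_lit 274) r11_102 r7_274 (nat_lit 24836041) (nat_lit 0) (nat_lit 0) (nat_lit 0x800a5d2d2) (nat_lit 562522353),
  Rx.mk (nat_lit 150) (nat_lit 6) (nat_lit 2) (nat_lit 2) (nat_lit 7) (nat_lit 103) (nat_lit 279) r11_103 r7_279 (nat_lit 0) (nat_lit 0) (nat_lit 0) (nat_lit 0x8017985b4) (nat_lit 536870912),
  Rx.mk (nat_lit 180) (nat_lit 4) (nat_lit 6) (nat_lit 2) (nat_lit 6) (nat_lit 104) (nat_lit 275) r11_104 r7_275 (nat_lit 24741287) (nat_lit 0) (nat_lit 0) (nat_lit 0x8017985b4) (nat_lit 561612199),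
  Rx.mk (nat_lit 436) (nat_lit 4) (nat_lit 6) (nat_lit 6) (nat_lit 6) (nat_lit 105) (nat_lit 276) r11_105 r7_276 (nat_lit 22333228) (nat_lit 0) (nat_lit 0) (nat_lit 0x7fea265d6) (nat_lit 561979440),
  Rx.mk (nat_lit 439) (nat_lit 7) (nat_lit 6) (nat_lit 6) (nat_lit 7) (nat_lit 106) (nat_lit 277) r11_106 r7_277 (nat_lit 0) (nat_lit 0) (nat_lit 0) (nat_lit 0x8017985b4) (nat_lit 536870912)]
noncomputable def e31_14 : List Rx := [
  Rx.mk (nat_lit 436) (nat_lit 4) (nat_lit 6) (nat_lit 6) (nat_lit 6) (nat_lit 2) (nat_lit 166) r11_2 r1_166 (nat_lit 24107596) (nat_lit 0) (nat_lit 0) (nat_lit 0x800249f8c) (nat_lit 562289358),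
  Rx.mk (nat_lit 437) (nat_lit 5) (nat_lit 6) (nat_lit 6) (nat_lit 7) (nat_lit 3) (nat_lit 167) r11_3 r1_167 (nat_lit 0) (nat_lit 0) (nat_lit 0) (nat_lit 0x8017985b4) (nat_lit 536870912),
  Rx.mk (nat_lit 439) (nat_lit 7) (nat_lit 6) (nat_lit 6) (nat_lit 7) (nat_lit 4) (nat_lit 168) r11_4 r1_168 (nat_lit 0) (nat_lit 0) (nat_lit 0) (nat_lit 0x8017985b4) (nat_lit 536870912)]
noncomputable def e31_15 : List Rx := [
  Rx.mk (nat_lit 148) (nat_lit 4) (nat_lit 2) (nat_lit 2) (nat_lit 6) (nat_lit 115) (nat_lit 206) r11_115 r8_206 (nat_lit 24741287) (nat_lit 0) (nat_lit 0) (nat_lit 0x8017985b4) (nat_lit 561612199),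
  Rx.mk (nat_lit 149) (nat_lit 5) (nat_lit 2) (nat_lit 2) (nat_lit 7) (nat_lit 116) (nat_lit 209) r11_116 r8_209 (nat_lit 0) (nat_lit 0) (nat_lit 0) (nat_lit 0x8017985b4) (nat_lit 536870912),
  Rx.mk (nat_lit 150) (nat_lit 6) (nat_lit 2) (nat_lit 2) (nat_lit 7) (nat_lit 117) (nat_lit 213) r11_117 r8_213 (nat_lit 0) (nat_lit 0) (nat_lit 0) (nat_lit 0x8017985b4) (nat_lit 536870912),
  Rx.mk (nat_lit 180) (nat_lit 4) (nat_lit 6) (nat_lit 2) (nat_lit 6) (nat_lit 118) (nat_lit 207) r11_118 r8_207 (nat_lit 24741287) (nat_lit 0) (nat_lit 0) (nat_lit 0x8017985b4) (nat_lit 561612199),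
  Rx.mk (nat_lit 181) (nat_lit 5) (nat_lit 6) (nat_lit 2) (nat_lit 7) (nat_lit 119) (nat_lit 210) r11_119 r8_210 (nat_lit 0) (nat_lit 0) (nat_lit 0) (nat_lit 0x8017985b4) (nat_lit 536870912),
  Rx.mk (nat_lit 436) (nat_lit 4) (nat_lit 6) (nat_lit 6) (nat_lit 6) (nat_lit 120) (nat_lit 208) r11_120 r8_208 (nat_lit 28059580) (nat_lit 0) (nat_lit 0) (nat_lit 0x7f58302f8) (nat_lit 576670492),
  Rx.mk (nat_lit 437) (nat_lit 5) (nat_lit 6) (nat_lit 6) (nat_lit 7) (nat_lit 121) (nat_lit 211) r11_121 r8_211 (nat_lit 0) (nat_lit 0) (nat_lit 0) (nat_lit 0x8017985b4) (nat_lit 536870912),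
  Rx.mk (nat_lit 439) (nat_lit 7) (nat_lit 6) (nat_lit 6) (nat_lit 7) (nat_lit 122) (nat_lit 212) r11_122 r8_212 (nat_lit 0) (nat_lit 0) (nat_lit 0) (nat_lit 0x8017985b4) (nat_lit 536870912)]
noncomputable def e31_16 : List Rx := [
  Rx.mk (nat_lit 22) (nat_lit 6) (nat_lit 2) (nat_lit 0) (nat_lit 3) (nat_lit 113) (nat_lit 157) r11_113 r8_157 (nat_lit 0) (nat_lit 0) (nat_lit 24741287) (nat_lit 0x8017985b4) (nat_lit 561612199),
  Rx.mk (nat_lit 150) (nat_lit 6) (nat_lit 2) (nat_lit 2) (nat_lit 7) (nat_lit 114) (nat_lit 158) r11_114 r8_158 (nat_lit 0) (nat_lit 0) (nat_lit 0) (nat_lit 0x8017985b4) (nat_lit 536870912)]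
noncomputable def e31_17 : List Rx := [
  Rx.mk (nat_lit 22) (nat_lit 6) (nat_lit 2) (nat_lit 0) (nat_lit 3) (nat_lit 330) (nat_lit 216) r11_330 r9_216 (nat_lit 0) (nat_lit 0) (nat_lit 24741287) (nat_lit 0x8017985b4) (nat_lit 561612199),
  Rx.mk (nat_lit 86) (nat_lit 6) (nat_lit 2) (nat_lit 1) (nat_lit 7) (nat_lit 331) (nat_lit 217) r11_331 r9_217 (nat_lit 0) (nat_lit 0) (nat_lit 0) (nat_lit 0x8017985b4) (nat_lit 536870912),
  Rx.mk (nat_lit 150) (nat_lit 6) (nat_lit 2) (nat_lit 2) (nat_lit 7) (nat_lit 332) (nat_lit 218) r11_332 r9_218 (nat_lit 0) (nat_lit 0) (nat_lit 0) (nat_lit 0x8017985b4) (nat_lit 536870912)]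
noncomputable def e31_18 : List Rx := [
  Rx.mk (nat_lit 439) (nat_lit 7) (nat_lit 6) (nat_lit 6) (nat_lit 7) (nat_lit 8) (nat_lit 143) r11_8 r4_143 (nat_lit 0) (nat_lit 0) (nat_lit 0) (nat_lit 0x7ff232496) (nat_lit 539166062)]
noncomputable def e31_19 : List Rx := [
  Rx.mk (nat_lit 22) (nat_lit 6) (nat_lit 2) (nat_lit 0) (nat_lit 3) (nat_lit 137) (nat_lit 222) r11_137 r10_222 (nat_lit 0) (nat_lit 0) (nat_lit 24741287) (nat_lit 0x8017985b4) (nat_lit 561612199),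
  Rx.mk (nat_lit 148) (nat_lit 4) (nat_lit 2) (nat_lit 2) (nat_lit 6) (nat_lit 138) (nat_lit 218) r11_138 r10_218 (nat_lit 24741287) (nat_lit 0) (nat_lit 0) (nat_lit 0x8017985b4) (nat_lit 561612199),
  Rx.mk (nat_lit 150) (nat_lit 6) (nat_lit 2) (nat_lit 2) (nat_lit 7) (nat_lit 139) (nat_lit 224) r11_139 r10_224 (nat_lit 0) (nat_lit 0) (nat_lit 0) (nat_lit 0x8017985b4) (nat_lit 536870912),
  Rx.mk (nat_lit 180) (nat_lit 4) (nat_lit 6) (nat_lit 2) (nat_lit 6) (nat_lit 140) (nat_lit 219) r11_140 r10_219 (nat_lit 24894793) (nat_lit 0) (nat_lit 0) (nat_lit 0x8000a4c72) (nat_lit 563170405),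
  Rx.mk (nat_lit 183) (nat_lit 7) (nat_lit 6) (nat_lit 2) (nat_lit 7) (nat_lit 141) (nat_lit 220) r11_141 r10_220 (nat_lit 0) (nat_lit 0) (nat_lit 0) (nat_lit 0x8017985b4) (nat_lit 536870912),
  Rx.mk (nat_lit 214) (nat_lit 6) (nat_lit 2) (nat_lit 3) (nat_lit 7) (nat_lit 142) (nat_lit 223) r11_142 r10_223 (nat_lit 0) (nat_lit 0) (nat_lit 0) (nat_lit 0x8017985b4) (nat_lit 536870912),
  Rx.mk (nat_lit 439) (nat_lit 7) (nat_lit 6) (nat_lit 6) (nat_lit 7) (nat_lit 143) (nat_lit 221) r11_143 r10_221 (nat_lit 0) (nat_lit 0) (nat_lit 0) (nat_lit 0x8017985b4) (nat_lit 536870912)]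
noncomputable def e31_20 : List Rx := []
noncomputable def e31_21 : List Rx := [
  Rx.mk (nat_lit 2) (nat_lit 2) (nat_lit 0) (nat_lit 0) (nat_lit 1) (nat_lit 318) (nat_lit 231) r11_318 r9_231 (nat_lit 0) (nat_lit 43848106) (nat_lit 43672610) (nat_lit 0x78800f28a) (nat_lit 746426178),
  Rx.mk (nat_lit 6) (nat_lit 6) (nat_lit 0) (nat_lit 0) (nat_lit 1) (nat_lit 319) (nat_lit 229) r11_319 r9_229 (nat_lit 0) (nat_lit 47287016) (nat_lit 47287016) (nat_lit 0x7cbaf48b0) (nat_lit 685204344),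
  Rx.mk (nat_lit 22) (nat_lit 6) (nat_lit 2) (nat_lit 0) (nat_lit 3) (nat_lit 320) (nat_lit 238) r11_320 r9_238 (nat_lit 0) (nat_lit 0) (nat_lit 24741287) (nat_lit 0x8017985b4) (nat_lit 561612199),
  Rx.mk (nat_lit 26) (nat_lit 2) (nat_lit 3) (nat_lit 0) (nat_lit 3) (nat_lit 321) (nat_lit 235) r11_321 r9_235 (nat_lit 0) (nat_lit 0) (nat_lit 24741287) (nat_lit 0x8017985b4) (nat_lit 561612199),
  Rx.mk (nat_lit 66) (nat_lit 2) (nat_lit 0) (nat_lit 1) (nat_lit 5) (nat_lit 322) (nat_lit 232) r11_322 r9_232 (nat_lit 0) (nat_lit 24741287) (nat_lit 0) (nat_lit 0x8017985b4) (nat_lit 561612199),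
  Rx.mk (nat_lit 70) (nat_lit 6) (nat_lit 0) (nat_lit 1) (nat_lit 5) (nat_lit 323) (nat_lit 230) r11_323 r9_230 (nat_lit 0) (nat_lit 24741287) (nat_lit 0) (nat_lit 0x8017985b4) (nat_lit 561612199),
  Rx.mk (nat_lit 74) (nat_lit 2) (nat_lit 1) (nat_lit 1) (nat_lit 7) (nat_lit 324) (nat_lit 234) r11_324 r9_234 (nat_lit 0) (nat_lit 0) (nat_lit 0) (nat_lit 0x8017985b4) (nat_lit 536870912),
  Rx.mk (nat_lit 78) (nat_lit 6) (nat_lit 1) (nat_lit 1) (nat_lit 7) (nat_lit 325) (nat_lit 233) r11_325 r9_233 (nat_lit 0) (nat_lit 0) (nat_lit 0) (nat_lit 0x8017985b4) (nat_lit 536870912),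
  Rx.mk (nat_lit 86) (nat_lit 6) (nat_lit 2) (nat_lit 1) (nat_lit 7) (nat_lit 326) (nat_lit 239) r11_326 r9_239 (nat_lit 0) (nat_lit 0) (nat_lit 0) (nat_lit 0x8017985b4) (nat_lit 536870912),
  Rx.mk (nat_lit 90) (nat_lit 2) (nat_lit 3) (nat_lit 1) (nat_lit 7) (nat_lit 327) (nat_lit 236) r11_327 r9_236 (nat_lit 0) (nat_lit 0) (nat_lit 0) (nat_lit 0x8017985b4) (nat_lit 536870912),
  Rx.mk (nat_lit 150) (nat_lit 6) (nat_lit 2) (nat_lit 2) (nat_lit 7) (nat_lit 328) (nat_lit 240) r11_328 r9_240 (nat_lit 0) (nat_lit 0) (nat_lit 0) (nat_lit 0x8017985b4) (nat_lit 536870912),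
  Rx.mk (nat_lit 218) (nat_lit 2) (nat_lit 3) (nat_lit 3) (nat_lit 7) (nat_lit 329) (nat_lit 237) r11_329 r9_237 (nat_lit 0) (nat_lit 0) (nat_lit 0) (nat_lit 0x8017985b4) (nat_lit 536870912)]
noncomputable def e31_22 : List Rx := [
  Rx.mk (nat_lit 322) (nat_lit 2) (nat_lit 0) (nat_lit 5) (nat_lit 5) (nat_lit 298) (nat_lit 328) r11_298 r0_328 (nat_lit 0) (nat_lit 19793988) (nat_lit 0) (nat_lit 0x801bf7722) (nat_lit 556379500),
  Rx.mk (nat_lit 330) (nat_lit 2) (nat_lit 1) (nat_lit 5) (nat_lit 7) (nat_lit 299) (nat_lit 329) r11_299 r0_329 (nat_lit 0) (nat_lit 0) (nat_lit 0) (nat_lit 0x8017985b4) (nat_lit 536870912)]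
noncomputable def e31_23 : List Rx := [
  Rx.mk (nat_lit 330) (nat_lit 2) (nat_lit 1) (nat_lit 5) (nat_lit 7) (nat_lit 338) (nat_lit 310) r11_338 r1_310 (nat_lit 0) (nat_lit 0) (nat_lit 0) (nat_lit 0x8017985b4) (nat_lit 536870912)]
noncomputable def e31_24 : List Rx := [
  Rx.mk (nat_lit 322) (nat_lit 2) (nat_lit 0) (nat_lit 5) (nat_lit 5) (nat_lit 353) (nat_lit 363) r11_353 r4_363 (nat_lit 0) (nat_lit 18792813) (nat_lit 0) (nat_lit 0x7fd5d2af8) (nat_lit 559647725),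
  Rx.mk (nat_lit 330) (nat_lit 2) (nat_lit 1) (nat_lit 5) (nat_lit 7) (nat_lit 354) (nat_lit 364) r11_354 r4_364 (nat_lit 0) (nat_lit 0) (nat_lit 0) (nat_lit 0x8047a5cb6) (nat_lit 533919512),
  Rx.mk (nat_lit 346) (nat_lit 2) (nat_lit 3) (nat_lit 5) (nat_lit 7) (nat_lit 355) (nat_lit 365) r11_355 r4_365 (nat_lit 0) (nat_lit 0) (nat_lit 0) (nat_lit 0x8026a1380) (nat_lit 535916512)]
noncomputable def e31_25 : List Rx := [
  Rx.mk (nat_lit 66) (nat_lit 2) (nat_lit 0) (nat_lit 1) (nat_lit 5) (nat_lit 303) (nat_lit 289) r11_303 r7_289 (nat_lit 0) (nat_lit 24741287) (nat_lit 0) (nat_lit 0x8017985b4) (nat_lit 561612199),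
  Rx.mk (nat_lit 74) (nat_lit 2) (nat_lit 1) (nat_lit 1) (nat_lit 7) (nat_lit 304) (nat_lit 291) r11_304 r7_291 (nat_lit 0) (nat_lit 0) (nat_lit 0) (nat_lit 0x8017985b4) (nat_lit 536870912),
  Rx.mk (nat_lit 90) (nat_lit 2) (nat_lit 3) (nat_lit 1) (nat_lit 7) (nat_lit 305) (nat_lit 292) r11_305 r7_292 (nat_lit 0) (nat_lit 0) (nat_lit 0) (nat_lit 0x8017985b4) (nat_lit 536870912),
  Rx.mk (nat_lit 322) (nat_lit 2) (nat_lit 0) (nat_lit 5) (nat_lit 5) (nat_lit 306) (nat_lit 288) r11_306 r7_288 (nat_lit 0) (nat_lit 19264518) (nat_lit 0) (nat_lit 0x8067c11ee) (nat_lit 551226430),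
  Rx.mk (nat_lit 330) (nat_lit 2) (nat_lit 1) (nat_lit 5) (nat_lit 7) (nat_lit 307) (nat_lit 290) r11_307 r7_290 (nat_lit 0) (nat_lit 0) (nat_lit 0) (nat_lit 0x8017985b4) (nat_lit 536870912)]
noncomputable def e31_26 : List Rx := [
  Rx.mk (nat_lit 74) (nat_lit 2) (nat_lit 1) (nat_lit 1) (nat_lit 7) (nat_lit 343) (nat_lit 220) r11_343 r8_220 (nat_lit 0) (nat_lit 0) (nat_lit 0) (nat_lit 0x8017985b4) (nat_lit 536870912),
  Rx.mk (nat_lit 330) (nat_lit 2) (nat_lit 1) (nat_lit 5) (nat_lit 7) (nat_lit 344) (nat_lit 219) r11_344 r8_219 (nat_lit 0) (nat_lit 0) (nat_lit 0) (nat_lit 0x8017985b4) (nat_lit 536870912)]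
noncomputable def e31_27 : List Rx := [
  Rx.mk (nat_lit 66) (nat_lit 2) (nat_lit 0) (nat_lit 1) (nat_lit 5) (nat_lit 335) (nat_lit 358) r11_335 r8_358 (nat_lit 0) (nat_lit 24741287) (nat_lit 0) (nat_lit 0x8017985b4) (nat_lit 561612199),
  Rx.mk (nat_lit 74) (nat_lit 2) (nat_lit 1) (nat_lit 1) (nat_lit 7) (nat_lit 336) (nat_lit 359) r11_336 r8_359 (nat_lit 0) (nat_lit 0) (nat_lit 0) (nat_lit 0x8017985b4) (nat_lit 536870912),
  Rx.mk (nat_lit 90) (nat_lit 2) (nat_lit 3) (nat_lit 1) (nat_lit 7) (nat_lit 337) (nat_lit 360) r11_337 r8_360 (nat_lit 0) (nat_lit 0) (nat_lit 0) (nat_lit 0x8017985b4) (nat_lit 536870912)]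
noncomputable def e31_28 : List Rx := [
  Rx.mk (nat_lit 90) (nat_lit 2) (nat_lit 3) (nat_lit 1) (nat_lit 7) (nat_lit 360) (nat_lit 243) r11_360 r10_243 (nat_lit 0) (nat_lit 0) (nat_lit 0) (nat_lit 0x8017985b4) (nat_lit 536870912),
  Rx.mk (nat_lit 322) (nat_lit 2) (nat_lit 0) (nat_lit 5) (nat_lit 5) (nat_lit 361) (nat_lit 240) r11_361 r10_240 (nat_lit 0) (nat_lit 20709188) (nat_lit 0) (nat_lit 0x804c96cf2) (nat_lit 554327950),
  Rx.mk (nat_lit 330) (nat_lit 2) (nat_lit 1) (nat_lit 5) (nat_lit 7) (nat_lit 362) (nat_lit 241) r11_362 r10_241 (nat_lit 0) (nat_lit 0) (nat_lit 0) (nat_lit 0x8017985b4) (nat_lit 536870912),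
  Rx.mk (nat_lit 346) (nat_lit 2) (nat_lit 3) (nat_lit 5) (nat_lit 7) (nat_lit 363) (nat_lit 242) r11_363 r10_242 (nat_lit 0) (nat_lit 0) (nat_lit 0) (nat_lit 0x8017985b4) (nat_lit 536870912)]
noncomputable def e31_29 : List Rx := [
  Rx.mk (nat_lit 322) (nat_lit 2) (nat_lit 0) (nat_lit 5) (nat_lit 5) (nat_lit 368) (nat_lit 281) r11_368 r11_281 (nat_lit 0) (nat_lit 24741287) (nat_lit 0) (nat_lit 0x8017985b4) (nat_lit 561612199),
  Rx.mk (nat_lit 330) (nat_lit 2) (nat_lit 1) (nat_lit 5) (nat_lit 7) (nat_lit 369) (nat_lit 282) r11_369 r11_282 (nat_lit 0) (nat_lit 0) (nat_lit 0) (nat_lit 0x8017985b4) (nat_lit 536870912),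
  Rx.mk (nat_lit 346) (nat_lit 2) (nat_lit 3) (nat_lit 5) (nat_lit 7) (nat_lit 370) (nat_lit 283) r11_370 r11_283 (nat_lit 0) (nat_lit 0) (nat_lit 0) (nat_lit 0x8017985b4) (nat_lit 536870912)]
noncomputable def e31_30 : List Rx := [
  Rx.mk (nat_lit 291) (nat_lit 3) (nat_lit 4) (nat_lit 4) (nat_lit 1) (nat_lit 9) (nat_lit 140) r11_9 r5_140 (nat_lit 0) (nat_lit 674925) (nat_lit 474232) (nat_lit 0x722cb1ea4) (nat_lit 761731069),
  Rx.mk (nat_lit 315) (nat_lit 3) (nat_lit 7) (nat_lit 4) (nat_lit 3) (nat_lit 10) (nat_lit 141) r11_10 r5_141 (nat_lit 0) (nat_lit 0) (nat_lit 4328604) (nat_lit 0x8397c64a4) (nat_lit 487049866),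
  Rx.mk (nat_lit 419) (nat_lit 3) (nat_lit 4) (nat_lit 6) (nat_lit 5) (nat_lit 11) (nat_lit 146) r11_11 r5_146 (nat_lit 0) (nat_lit 9828533) (nat_lit 0) (nat_lit 0x7fdfbd658) (nat_lit 549901095),
  Rx.mk (nat_lit 435) (nat_lit 3) (nat_lit 6) (nat_lit 6) (nat_lit 7) (nat_lit 12) (nat_lit 149) r11_12 r5_149 (nat_lit 0) (nat_lit 0) (nat_lit 0) (nat_lit 0x80700d5c8) (nat_lit 531445012),
  Rx.mk (nat_lit 439) (nat_lit 7) (nat_lit 6) (nat_lit 6) (nat_lit 7) (nat_lit 13) (nat_lit 148) r11_13 r5_148 (nat_lit 0) (nat_lit 0) (nat_lit 0) (nat_lit 0x8219c55ce) (nat_lit 505691562),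
  Rx.mk (nat_lit 443) (nat_lit 3) (nat_lit 7) (nat_lit 6) (nat_lit 7) (nat_lit 14) (nat_lit 147) r11_14 r5_147 (nat_lit 0) (nat_lit 0) (nat_lit 0) (nat_lit 0x81c0f7b72) (nat_lit 511039762),
  Rx.mk (nat_lit 474) (nat_lit 2) (nat_lit 3) (nat_lit 7) (nat_lit 7) (nat_lit 15) (nat_lit 145) r11_15 r5_145 (nat_lit 0) (nat_lit 0) (nat_lit 0) (nat_lit 0x839723e3e) (nat_lit 482866162),
  Rx.mk (nat_lit 504) (nat_lit 0) (nat_lit 7) (nat_lit 7) (nat_lit 6) (nat_lit 16) (nat_lit 142) r11_16 r5_142 (nat_lit 13610733) (nat_lit 0) (nat_lit 0) (nat_lit 0x7f8c34efa) (nat_lit 558980045),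
  Rx.mk (nat_lit 506) (nat_lit 2) (nat_lit 7) (nat_lit 7) (nat_lit 7) (nat_lit 17) (nat_lit 144) r11_17 r5_144 (nat_lit 0) (nat_lit 0) (nat_lit 0) (nat_lit 0x804f3bf3e) (nat_lit 533452962),
  Rx.mk (nat_lit 507) (nat_lit 3) (nat_lit 7) (nat_lit 7) (nat_lit 7) (nat_lit 18) (nat_lit 143) r11_18 r5_143 (nat_lit 0) (nat_lit 0) (nat_lit 0) (nat_lit 0x804f350bc) (nat_lit 533454612)]
noncomputable def e31_31 : List Rx := [
  Rx.mk (nat_lit 6) (nat_lit 6) (nat_lit 0) (nat_lit 0) (nat_lit 1) (nat_lit 144) (nat_lit 154) r11_144 r11_154 (nat_lit 0) (nat_lit 2749576) (nat_lit 2309132) (nat_lit 0x74869b7b0) (nat_lit 727898020),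
  Rx.mk (nat_lit 22) (nat_lit 6) (nat_lit 2) (nat_lit 0) (nat_lit 3) (nat_lit 145) (nat_lit 155) r11_145 r11_155 (nat_lit 0) (nat_lit 0) (nat_lit 19246826) (nat_lit 0x8067e6958) (nat_lit 551201238),
  Rx.mk (nat_lit 148) (nat_lit 4) (nat_lit 2) (nat_lit 2) (nat_lit 6) (nat_lit 146) (nat_lit 161) r11_146 r11_161 (nat_lit 22142472) (nat_lit 0) (nat_lit 0) (nat_lit 0x800df71e0) (nat_lit 559592834),
  Rx.mk (nat_lit 150) (nat_lit 6) (nat_lit 2) (nat_lit 2) (nat_lit 7) (nat_lit 147) (nat_lit 163) r11_147 r11_163 (nat_lit 0) (nat_lit 0) (nat_lit 0) (nat_lit 0x8017985b4) (nat_lit 536870912),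
  Rx.mk (nat_lit 151) (nat_lit 7) (nat_lit 2) (nat_lit 2) (nat_lit 7) (nat_lit 148) (nat_lit 162) r11_148 r11_162 (nat_lit 0) (nat_lit 0) (nat_lit 0) (nat_lit 0x8017985b4) (nat_lit 536870912),
  Rx.mk (nat_lit 183) (nat_lit 7) (nat_lit 6) (nat_lit 2) (nat_lit 7) (nat_lit 149) (nat_lit 160) r11_149 r11_160 (nat_lit 0) (nat_lit 0) (nat_lit 0) (nat_lit 0x801359f98) (nat_lit 537129362),
  Rx.mk (nat_lit 198) (nat_lit 6) (nat_lit 0) (nat_lit 3) (nat_lit 5) (nat_lit 150) (nat_lit 156) r11_150 r11_156 (nat_lit 0) (nat_lit 22669922) (nat_lit 0) (nat_lit 0x800c22b12) (nat_lit 560231734),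
  Rx.mk (nat_lit 214) (nat_lit 6) (nat_lit 2) (nat_lit 3) (nat_lit 7) (nat_lit 151) (nat_lit 159) r11_151 r11_159 (nat_lit 0) (nat_lit 0) (nat_lit 0) (nat_lit 0x8017985b4) (nat_lit 536870912),
  Rx.mk (nat_lit 218) (nat_lit 2) (nat_lit 3) (nat_lit 3) (nat_lit 7) (nat_lit 152) (nat_lit 158) r11_152 r11_158 (nat_lit 0) (nat_lit 0) (nat_lit 0) (nat_lit 0x80b7ebb88) (nat_lit 527004212),
  Rx.mk (nat_lit 222) (nat_lit 6) (nat_lit 3) (nat_lit 3) (nat_lit 7) (nat_lit 153) (nat_lit 157) r11_153 r11_157 (nat_lit 0) (nat_lit 0) (nat_lit 0) (nat_lit 0x8017985b4) (nat_lit 536870912),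
  Rx.mk (nat_lit 291) (nat_lit 3) (nat_lit 4) (nat_lit 4) (nat_lit 1) (nat_lit 154) (nat_lit 144) r11_154 r11_144 (nat_lit 0) (nat_lit 2749576) (nat_lit 2309132) (nat_lit 0x74869b7b0) (nat_lit 727898020),
  Rx.mk (nat_lit 315) (nat_lit 3) (nat_lit 7) (nat_lit 4) (nat_lit 3) (nat_lit 155) (nat_lit 145) r11_155 r11_145 (nat_lit 0) (nat_lit 0) (nat_lit 19246826) (nat_lit 0x8067e6958) (nat_lit 551201238),
  Rx.mk (nat_lit 419) (nat_lit 3) (nat_lit 4) (nat_lit 6) (nat_lit 5) (nat_lit 156) (nat_lit 150) r11_156 r11_150 (nat_lit 0) (nat_lit 22669922) (nat_lit 0) (nat_lit 0x800c22b12) (nat_lit 560231734),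
  Rx.mk (nat_lit 435) (nat_lit 3) (nat_lit 6) (nat_lit 6) (nat_lit 7) (nat_lit 157) (nat_lit 153) r11_157 r11_153 (nat_lit 0) (nat_lit 0) (nat_lit 0) (nat_lit 0x8017985b4) (nat_lit 536870912),
  Rx.mk (nat_lit 439) (nat_lit 7) (nat_lit 6) (nat_lit 6) (nat_lit 7) (nat_lit 158) (nat_lit 152) r11_158 r11_152 (nat_lit 0) (nat_lit 0) (nat_lit 0) (nat_lit 0x80b7ebb88) (nat_lit 527004212),
  Rx.mk (nat_lit 443) (nat_lit 3) (nat_lit 7) (nat_lit 6) (nat_lit 7) (nat_lit 159) (nat_lit 151) r11_159 r11_151 (nat_lit 0) (nat_lit 0) (nat_lit 0) (nat_lit 0x8017985b4) (nat_lit 536870912),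
  Rx.mk (nat_lit 474) (nat_lit 2) (nat_lit 3) (nat_lit 7) (nat_lit 7) (nat_lit 160) (nat_lit 149) r11_160 r11_149 (nat_lit 0) (nat_lit 0) (nat_lit 0) (nat_lit 0x801359f98) (nat_lit 537129362),
  Rx.mk (nat_lit 504) (nat_lit 0) (nat_lit 7) (nat_lit 7) (nat_lit 6) (nat_lit 161) (nat_lit 146) r11_161 r11_146 (nat_lit 22142472) (nat_lit 0) (nat_lit 0) (nat_lit 0x800df71e0) (nat_lit 559592834),
  Rx.mk (nat_lit 506) (nat_lit 2) (nat_lit 7) (nat_lit 7) (nat_lit 7) (nat_lit 162) (nat_lit 148) r11_162 r11_148 (nat_lit 0) (nat_lit 0) (nat_lit 0) (nat_lit 0x8017985b4) (nat_lit 536870912),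
  Rx.mk (nat_lit 507) (nat_lit 3) (nat_lit 7) (nat_lit 7) (nat_lit 7) (nat_lit 163) (nat_lit 147) r11_163 r11_147 (nat_lit 0) (nat_lit 0) (nat_lit 0) (nat_lit 0x8017985b4) (nat_lit 536870912)]
noncomputable def e31_32 : List Rx := [
  Rx.mk (nat_lit 282) (nat_lit 2) (nat_lit 3) (nat_lit 4) (nat_lit 3) (nat_lit 266) (nat_lit 371) r11_266 r6_371 (nat_lit 0) (nat_lit 0) (nat_lit 4488265) (nat_lit 0x805dc6720) (nat_lit 536687177),
  Rx.mk (nat_lit 312) (nat_lit 0) (nat_lit 7) (nat_lit 4) (nat_lit 2) (nat_lit 267) (nat_lit 367) r11_267 r6_367 (nat_lit 5930575) (nat_lit 0) (nat_lit 5190488) (nat_lit 0x76ef41074) (nat_lit 695185625),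
  Rx.mk (nat_lit 314) (nat_lit 2) (nat_lit 7) (nat_lit 4) (nat_lit 3) (nat_lit 268) (nat_lit 370) r11_268 r6_370 (nat_lit 0) (nat_lit 0) (nat_lit 18945663) (nat_lit 0x804f12fb2) (nat_lit 552405325),
  Rx.mk (nat_lit 346) (nat_lit 2) (nat_lit 3) (nat_lit 5) (nat_lit 7) (nat_lit 269) (nat_lit 373) r11_269 r6_373 (nat_lit 0) (nat_lit 0) (nat_lit 0) (nat_lit 0x84800501c) (nat_lit 468941562),
  Rx.mk (nat_lit 376) (nat_lit 0) (nat_lit 7) (nat_lit 5) (nat_lit 6) (nat_lit 270) (nat_lit 368) r11_270 r6_368 (nat_lit 17138393) (nat_lit 0) (nat_lit 0) (nat_lit 0x806f00630) (nat_lit 548606105),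
  Rx.mk (nat_lit 378) (nat_lit 2) (nat_lit 7) (nat_lit 5) (nat_lit 7) (nat_lit 271) (nat_lit 372) r11_271 r6_372 (nat_lit 0) (nat_lit 0) (nat_lit 0) (nat_lit 0x8017985b4) (nat_lit 536870912),
  Rx.mk (nat_lit 440) (nat_lit 0) (nat_lit 7) (nat_lit 6) (nat_lit 6) (nat_lit 272) (nat_lit 369) r11_272 r6_369 (nat_lit 24741287) (nat_lit 0) (nat_lit 0) (nat_lit 0x8017985b4) (nat_lit 561612199)]
noncomputable def e31_33 : List Rx := [
  Rx.mk (nat_lit 346) (nat_lit 2) (nat_lit 3) (nat_lit 5) (nat_lit 7) (nat_lit 356) (nat_lit 310) r11_356 r5_310 (nat_lit 0) (nat_lit 0) (nat_lit 0) (nat_lit 0x81691ae72) (nat_lit 516102862)]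
noncomputable def e31_34 : List Rx := [
  Rx.mk (nat_lit 90) (nat_lit 2) (nat_lit 3) (nat_lit 1) (nat_lit 7) (nat_lit 364) (nat_lit 364) r11_364 r11_364 (nat_lit 0) (nat_lit 0) (nat_lit 0) (nat_lit 0x8017985b4) (nat_lit 536870912),
  Rx.mk (nat_lit 346) (nat_lit 2) (nat_lit 3) (nat_lit 5) (nat_lit 7) (nat_lit 365) (nat_lit 365) r11_365 r11_365 (nat_lit 0) (nat_lit 0) (nat_lit 0) (nat_lit 0x80801aaba) (nat_lit 530459962)]
noncomputable def e31_35 : List Rx := [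
  Rx.mk (nat_lit 291) (nat_lit 3) (nat_lit 4) (nat_lit 4) (nat_lit 1) (nat_lit 53) (nat_lit 224) r11_53 r6_224 (nat_lit 0) (nat_lit 17592133) (nat_lit 11453294) (nat_lit 0x79c89e50e) (nat_lit 667174639),
  Rx.mk (nat_lit 312) (nat_lit 0) (nat_lit 7) (nat_lit 4) (nat_lit 2) (nat_lit 54) (nat_lit 227) r11_54 r6_227 (nat_lit 8232258) (nat_lit 0) (nat_lit 8887259) (nat_lit 0x752a94a10) (nat_lit 729817329),
  Rx.mk (nat_lit 314) (nat_lit 2) (nat_lit 7) (nat_lit 4) (nat_lit 3) (nat_lit 55) (nat_lit 229) r11_55 r6_229 (nat_lit 0) (nat_lit 0) (nat_lit 20819956) (nat_lit 0x80443f36a) (nat_lit 554944468),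
  Rx.mk (nat_lit 315) (nat_lit 3) (nat_lit 7) (nat_lit 4) (nat_lit 3) (nat_lit 56) (nat_lit 228) r11_56 r6_228 (nat_lit 0) (nat_lit 0) (nat_lit 11833070) (nat_lit 0x80dfff796) (nat_lit 536433782),
  Rx.mk (nat_lit 355) (nat_lit 3) (nat_lit 4) (nat_lit 5) (nat_lit 5) (nat_lit 57) (nat_lit 225) r11_57 r6_225 (nat_lit 0) (nat_lit 23560195) (nat_lit 0) (nat_lit 0x8006b0be8) (nat_lit 561461107),
  Rx.mk (nat_lit 376) (nat_lit 0) (nat_lit 7) (nat_lit 5) (nat_lit 6) (nat_lit 58) (nat_lit 230) r11_58 r6_230 (nat_lit 24863851) (nat_lit 0) (nat_lit 0) (nat_lit 0x80051da7e) (nat_lit 562865263),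
  Rx.mk (nat_lit 378) (nat_lit 2) (nat_lit 7) (nat_lit 5) (nat_lit 7) (nat_lit 59) (nat_lit 232) r11_59 r6_232 (nat_lit 0) (nat_lit 0) (nat_lit 0) (nat_lit 0x8017985b4) (nat_lit 536870912),
  Rx.mk (nat_lit 379) (nat_lit 3) (nat_lit 7) (nat_lit 5) (nat_lit 7) (nat_lit 60) (nat_lit 231) r11_60 r6_231 (nat_lit 0) (nat_lit 0) (nat_lit 0) (nat_lit 0x8017985b4) (nat_lit 536870912),
  Rx.mk (nat_lit 419) (nat_lit 3) (nat_lit 4) (nat_lit 6) (nat_lit 5) (nat_lit 61) (nat_lit 226) r11_61 r6_226 (nat_lit 0) (nat_lit 26850297) (nat_lit 0) (nat_lit 0x80135a3c6) (nat_lit 563945709),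
  Rx.mk (nat_lit 435) (nat_lit 3) (nat_lit 6) (nat_lit 6) (nat_lit 7) (nat_lit 62) (nat_lit 237) r11_62 r6_237 (nat_lit 0) (nat_lit 0) (nat_lit 0) (nat_lit 0x8017985b4) (nat_lit 536870912),
  Rx.mk (nat_lit 440) (nat_lit 0) (nat_lit 7) (nat_lit 6) (nat_lit 6) (nat_lit 63) (nat_lit 235) r11_63 r6_235 (nat_lit 24741287) (nat_lit 0) (nat_lit 0) (nat_lit 0x8017985b4) (nat_lit 561612199),
  Rx.mk (nat_lit 443) (nat_lit 3) (nat_lit 7) (nat_lit 6) (nat_lit 7) (nat_lit 64) (nat_lit 236) r11_64 r6_236 (nat_lit 0) (nat_lit 0) (nat_lit 0) (nat_lit 0x8017985b4) (nat_lit 536870912),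
  Rx.mk (nat_lit 474) (nat_lit 2) (nat_lit 3) (nat_lit 7) (nat_lit 7) (nat_lit 65) (nat_lit 223) r11_65 r6_223 (nat_lit 0) (nat_lit 0) (nat_lit 0) (nat_lit 0x822812b0e) (nat_lit 504804312),
  Rx.mk (nat_lit 504) (nat_lit 0) (nat_lit 7) (nat_lit 7) (nat_lit 6) (nat_lit 66) (nat_lit 233) r11_66 r6_233 (nat_lit 24741287) (nat_lit 0) (nat_lit 0) (nat_lit 0x8017985b4) (nat_lit 561612199),
  Rx.mk (nat_lit 506) (nat_lit 2) (nat_lit 7) (nat_lit 7) (nat_lit 7) (nat_lit 67) (nat_lit 234) r11_67 r6_234 (nat_lit 0) (nat_lit 0) (nat_lit 0) (nat_lit 0x8017985b4) (nat_lit 536870912)]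
noncomputable def e31_36 : List Rx := [
  Rx.mk (nat_lit 282) (nat_lit 2) (nat_lit 3) (nat_lit 4) (nat_lit 3) (nat_lit 287) (nat_lit 253) r11_287 r12_253 (nat_lit 0) (nat_lit 0) (nat_lit 3201067) (nat_lit 0x80c289022) (nat_lit 529188929),
  Rx.mk (nat_lit 312) (nat_lit 0) (nat_lit 7) (nat_lit 4) (nat_lit 2) (nat_lit 288) (nat_lit 247) r11_288 r12_247 (nat_lit 4803434) (nat_lit 0) (nat_lit 4468885) (nat_lit 0x77fe54128) (nat_lit 676180381),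
  Rx.mk (nat_lit 314) (nat_lit 2) (nat_lit 7) (nat_lit 4) (nat_lit 3) (nat_lit 289) (nat_lit 256) r11_289 r12_256 (nat_lit 0) (nat_lit 0) (nat_lit 24820252) (nat_lit 0x800bab5a8) (nat_lit 562420664),
  Rx.mk (nat_lit 315) (nat_lit 3) (nat_lit 7) (nat_lit 4) (nat_lit 3) (nat_lit 290) (nat_lit 250) r11_290 r12_250 (nat_lit 0) (nat_lit 0) (nat_lit 9075693) (nat_lit 0x80cd0b3ba) (nat_lit 534764955),
  Rx.mk (nat_lit 346) (nat_lit 2) (nat_lit 3) (nat_lit 5) (nat_lit 7) (nat_lit 291) (nat_lit 254) r11_291 r12_254 (nat_lit 0) (nat_lit 0) (nat_lit 0) (nat_lit 0x8f490b628) (nat_lit 304348712),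
  Rx.mk (nat_lit 376) (nat_lit 0) (nat_lit 7) (nat_lit 5) (nat_lit 6) (nat_lit 292) (nat_lit 248) r11_292 r12_248 (nat_lit 16057116) (nat_lit 0) (nat_lit 0) (nat_lit 0x7fc34d5cc) (nat_lit 558049628),
  Rx.mk (nat_lit 378) (nat_lit 2) (nat_lit 7) (nat_lit 5) (nat_lit 7) (nat_lit 293) (nat_lit 257) r11_293 r12_257 (nat_lit 0) (nat_lit 0) (nat_lit 0) (nat_lit 0x7ff71c2cc) (nat_lit 538851962),
  Rx.mk (nat_lit 379) (nat_lit 3) (nat_lit 7) (nat_lit 5) (nat_lit 7) (nat_lit 294) (nat_lit 251) r11_294 r12_251 (nat_lit 0) (nat_lit 0) (nat_lit 0) (nat_lit 0x804e46f70) (nat_lit 533487162),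
  Rx.mk (nat_lit 440) (nat_lit 0) (nat_lit 7) (nat_lit 6) (nat_lit 6) (nat_lit 295) (nat_lit 249) r11_295 r12_249 (nat_lit 21075625) (nat_lit 0) (nat_lit 0) (nat_lit 0x804227960) (nat_lit 555330187),
  Rx.mk (nat_lit 443) (nat_lit 3) (nat_lit 7) (nat_lit 6) (nat_lit 7) (nat_lit 296) (nat_lit 252) r11_296 r12_252 (nat_lit 0) (nat_lit 0) (nat_lit 0) (nat_lit 0x8071a753c) (nat_lit 531344562),
  Rx.mk (nat_lit 474) (nat_lit 2) (nat_lit 3) (nat_lit 7) (nat_lit 7) (nat_lit 297) (nat_lit 255) r11_297 r12_255 (nat_lit 0) (nat_lit 0) (nat_lit 0) (nat_lit 0x853b3dfaa) (nat_lit 457742362)]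
noncomputable def e31_37 : List Rx := [
  Rx.mk (nat_lit 288) (nat_lit 0) (nat_lit 4) (nat_lit 4) (nat_lit 0) (nat_lit 165) (nat_lit 342) r11_165 r0_342 (nat_lit 16543091) (nat_lit 61517721) (nat_lit 27528448) (nat_lit 0x56389a70a) (nat_lit 1318729522),
  Rx.mk (nat_lit 289) (nat_lit 1) (nat_lit 4) (nat_lit 4) (nat_lit 1) (nat_lit 166) (nat_lit 349) r11_166 r0_349 (nat_lit 0) (nat_lit 43084134) (nat_lit 151143769) (nat_lit 0x7b5af1fae) (nat_lit 807011715),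
  Rx.mk (nat_lit 290) (nat_lit 2) (nat_lit 4) (nat_lit 4) (nat_lit 1) (nat_lit 167) (nat_lit 356) r11_167 r0_356 (nat_lit 0) (nat_lit 40023232) (nat_lit 40023232) (nat_lit 0x7e12b2628) (nat_lit 649033426),
  Rx.mk (nat_lit 296) (nat_lit 0) (nat_lit 5) (nat_lit 4) (nat_lit 2) (nat_lit 168) (nat_lit 343) r11_168 r0_343 (nat_lit 97208642) (nat_lit 0) (nat_lit 39863545) (nat_lit 0x7bb2e4220) (nat_lit 744358799),
  Rx.mk (nat_lit 297) (nat_lit 1) (nat_lit 5) (nat_lit 4) (nat_lit 3) (nat_lit 169) (nat_lit 350) r11_169 r0_350 (nat_lit 0) (nat_lit 0) (nat_lit 24741287) (nat_lit 0x8017985b4) (nat_lit 561612199),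
  Rx.mk (nat_lit 298) (nat_lit 2) (nat_lit 5) (nat_lit 4) (nat_lit 3) (nat_lit 170) (nat_lit 357) r11_170 r0_357 (nat_lit 0) (nat_lit 0) (nat_lit 24741287) (nat_lit 0x8017985b4) (nat_lit 561612199),
  Rx.mk (nat_lit 352) (nat_lit 0) (nat_lit 4) (nat_lit 5) (nat_lit 4) (nat_lit 171) (nat_lit 344) r11_171 r0_344 (nat_lit 84020208) (nat_lit 36871294) (nat_lit 0) (nat_lit 0x783359b98) (nat_lit 784659514),
  Rx.mk (nat_lit 353) (nat_lit 1) (nat_lit 4) (nat_lit 5) (nat_lit 5) (nat_lit 172) (nat_lit 351) r11_172 r0_351 (nat_lit 0) (nat_lit 24741287) (nat_lit 0) (nat_lit 0x8017985b4) (nat_lit 561612199),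
  Rx.mk (nat_lit 354) (nat_lit 2) (nat_lit 4) (nat_lit 5) (nat_lit 5) (nat_lit 173) (nat_lit 358) r11_173 r0_358 (nat_lit 0) (nat_lit 23550752) (nat_lit 0) (nat_lit 0x804b6b5bc) (nat_lit 557203014),
  Rx.mk (nat_lit 360) (nat_lit 0) (nat_lit 5) (nat_lit 5) (nat_lit 6) (nat_lit 174) (nat_lit 345) r11_174 r0_345 (nat_lit 66364716) (nat_lit 0) (nat_lit 0) (nat_lit 0x7dacacf72) (nat_lit 641664678),
  Rx.mk (nat_lit 361) (nat_lit 1) (nat_lit 5) (nat_lit 5) (nat_lit 7) (nat_lit 175) (nat_lit 352) r11_175 r0_352 (nat_lit 0) (nat_lit 0) (nat_lit 0) (nat_lit 0x8017985b4) (nat_lit 536870912),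
  Rx.mk (nat_lit 362) (nat_lit 2) (nat_lit 5) (nat_lit 5) (nat_lit 7) (nat_lit 176) (nat_lit 359) r11_176 r0_359 (nat_lit 0) (nat_lit 0) (nat_lit 0) (nat_lit 0x821f15f74) (nat_lit 505368512),
  Rx.mk (nat_lit 416) (nat_lit 0) (nat_lit 4) (nat_lit 6) (nat_lit 4) (nat_lit 177) (nat_lit 346) r11_177 r0_346 (nat_lit 31505454) (nat_lit 49484385) (nat_lit 0) (nat_lit 0x786492660) (nat_lit 741673001),
  Rx.mk (nat_lit 417) (nat_lit 1) (nat_lit 4) (nat_lit 6) (nat_lit 5) (nat_lit 178) (nat_lit 353) r11_178 r0_353 (nat_lit 0) (nat_lit 27043959) (nat_lit 0) (nat_lit 0x7fc599f24) (nat_lit 568952071),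
  Rx.mk (nat_lit 424) (nat_lit 0) (nat_lit 5) (nat_lit 6) (nat_lit 6) (nat_lit 179) (nat_lit 347) r11_179 r0_347 (nat_lit 24741287) (nat_lit 0) (nat_lit 0) (nat_lit 0x8017985b4) (nat_lit 561612199),
  Rx.mk (nat_lit 425) (nat_lit 1) (nat_lit 5) (nat_lit 6) (nat_lit 7) (nat_lit 180) (nat_lit 354) r11_180 r0_354 (nat_lit 0) (nat_lit 0) (nat_lit 0) (nat_lit 0x8017985b4) (nat_lit 536870912),
  Rx.mk (nat_lit 432) (nat_lit 0) (nat_lit 6) (nat_lit 6) (nat_lit 6) (nat_lit 181) (nat_lit 348) r11_181 r0_348 (nat_lit 24977480) (nat_lit 0) (nat_lit 0) (nat_lit 0x7ff4c15ea) (nat_lit 563982842),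
  Rx.mk (nat_lit 433) (nat_lit 1) (nat_lit 6) (nat_lit 6) (nat_lit 7) (nat_lit 182) (nat_lit 355) r11_182 r0_355 (nat_lit 0) (nat_lit 0) (nat_lit 0) (nat_lit 0x8017985b4) (nat_lit 536870912)]
noncomputable def e31_38 : List Rx := [
  Rx.mk (nat_lit 289) (nat_lit 1) (nat_lit 4) (nat_lit 4) (nat_lit 1) (nat_lit 37) (nat_lit 200) r11_37 r0_200 (nat_lit 0) (nat_lit 46723193) (nat_lit 75082556) (nat_lit 0x67eb4628a) (nat_lit 1048737861),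
  Rx.mk (nat_lit 353) (nat_lit 1) (nat_lit 4) (nat_lit 5) (nat_lit 5) (nat_lit 38) (nat_lit 201) r11_38 r0_201 (nat_lit 0) (nat_lit 24741287) (nat_lit 0) (nat_lit 0x80790da56) (nat_lit 555628299),
  Rx.mk (nat_lit 417) (nat_lit 1) (nat_lit 4) (nat_lit 6) (nat_lit 5) (nat_lit 39) (nat_lit 202) r11_39 r0_202 (nat_lit 0) (nat_lit 41103109) (nat_lit 0) (nat_lit 0x7fd7cf8c4) (nat_lit 581741021),
  Rx.mk (nat_lit 433) (nat_lit 1) (nat_lit 6) (nat_lit 6) (nat_lit 7) (nat_lit 40) (nat_lit 203) r11_40 r0_203 (nat_lit 0) (nat_lit 0) (nat_lit 0) (nat_lit 0x820bd8c36) (nat_lit 506517062)]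
noncomputable def e31_39 : List Rx := [
  Rx.mk (nat_lit 289) (nat_lit 1) (nat_lit 4) (nat_lit 4) (nat_lit 1) (nat_lit 212) (nat_lit 449) r11_212 r7_449 (nat_lit 0) (nat_lit 34414543) (nat_lit 107532607) (nat_lit 0x7c21f872e) (nat_lit 742207762),
  Rx.mk (nat_lit 297) (nat_lit 1) (nat_lit 5) (nat_lit 4) (nat_lit 3) (nat_lit 213) (nat_lit 450) r11_213 r7_450 (nat_lit 0) (nat_lit 0) (nat_lit 24741287) (nat_lit 0x8017985b4) (nat_lit 561612199),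
  Rx.mk (nat_lit 353) (nat_lit 1) (nat_lit 4) (nat_lit 5) (nat_lit 5) (nat_lit 214) (nat_lit 451) r11_214 r7_451 (nat_lit 0) (nat_lit 24741287) (nat_lit 0) (nat_lit 0x8017985b4) (nat_lit 561612199),
  Rx.mk (nat_lit 361) (nat_lit 1) (nat_lit 5) (nat_lit 5) (nat_lit 7) (nat_lit 215) (nat_lit 452) r11_215 r7_452 (nat_lit 0) (nat_lit 0) (nat_lit 0) (nat_lit 0x8017985b4) (nat_lit 536870912),
  Rx.mk (nat_lit 417) (nat_lit 1) (nat_lit 4) (nat_lit 6) (nat_lit 5) (nat_lit 216) (nat_lit 453) r11_216 r7_453 (nat_lit 0) (nat_lit 24741287) (nat_lit 0) (nat_lit 0x8017985b4) (nat_lit 561612199),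
  Rx.mk (nat_lit 425) (nat_lit 1) (nat_lit 5) (nat_lit 6) (nat_lit 7) (nat_lit 217) (nat_lit 454) r11_217 r7_454 (nat_lit 0) (nat_lit 0) (nat_lit 0) (nat_lit 0x8017985b4) (nat_lit 536870912),
  Rx.mk (nat_lit 433) (nat_lit 1) (nat_lit 6) (nat_lit 6) (nat_lit 7) (nat_lit 218) (nat_lit 455) r11_218 r7_455 (nat_lit 0) (nat_lit 0) (nat_lit 0) (nat_lit 0x8017985b4) (nat_lit 536870912)]
noncomputable def e31_40 : List Rx := [
  Rx.mk (nat_lit 437) (nat_lit 5) (nat_lit 6) (nat_lit 6) (nat_lit 7) (nat_lit 5) (nat_lit 237) r11_5 r2_237 (nat_lit 0) (nat_lit 0) (nat_lit 0) (nat_lit 0x8017985b4) (nat_lit 536870912)]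
noncomputable def e31_41 : List Rx := [
  Rx.mk (nat_lit 437) (nat_lit 5) (nat_lit 6) (nat_lit 6) (nat_lit 7) (nat_lit 164) (nat_lit 214) r11_164 r9_214 (nat_lit 0) (nat_lit 0) (nat_lit 0) (nat_lit 0x8017985b4) (nat_lit 536870912)]
noncomputable def e31_42 : List Rx := [
  Rx.mk (nat_lit 181) (nat_lit 5) (nat_lit 6) (nat_lit 2) (nat_lit 7) (nat_lit 123) (nat_lit 147) r11_123 r9_147 (nat_lit 0) (nat_lit 0) (nat_lit 0) (nat_lit 0x8017985b4) (nat_lit 536870912),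
  Rx.mk (nat_lit 437) (nat_lit 5) (nat_lit 6) (nat_lit 6) (nat_lit 7) (nat_lit 124) (nat_lit 146) r11_124 r9_146 (nat_lit 0) (nat_lit 0) (nat_lit 0) (nat_lit 0x8017985b4) (nat_lit 536870912)]
noncomputable def e31_43 : List Rx := [
  Rx.mk (nat_lit 289) (nat_lit 1) (nat_lit 4) (nat_lit 4) (nat_lit 1) (nat_lit 41) (nat_lit 220) r11_41 r1_220 (nat_lit 0) (nat_lit 132640855) (nat_lit 107908680) (nat_lit 0x75cd0e8fe) (nat_lit 943069347),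
  Rx.mk (nat_lit 353) (nat_lit 1) (nat_lit 4) (nat_lit 5) (nat_lit 5) (nat_lit 42) (nat_lit 221) r11_42 r1_221 (nat_lit 0) (nat_lit 24741287) (nat_lit 0) (nat_lit 0x80394da56) (nat_lit 559537749),
  Rx.mk (nat_lit 417) (nat_lit 1) (nat_lit 4) (nat_lit 6) (nat_lit 5) (nat_lit 43) (nat_lit 222) r11_43 r1_222 (nat_lit 0) (nat_lit 27280081) (nat_lit 0) (nat_lit 0x7ff4c6252) (nat_lit 566171843),
  Rx.mk (nat_lit 433) (nat_lit 1) (nat_lit 6) (nat_lit 6) (nat_lit 7) (nat_lit 44) (nat_lit 223) r11_44 r1_223 (nat_lit 0) (nat_lit 0) (nat_lit 0) (nat_lit 0x814af5f1e) (nat_lit 518142212),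
  Rx.mk (nat_lit 437) (nat_lit 5) (nat_lit 6) (nat_lit 6) (nat_lit 7) (nat_lit 45) (nat_lit 224) r11_45 r1_224 (nat_lit 0) (nat_lit 0) (nat_lit 0) (nat_lit 0x808a832cc) (nat_lit 529822112)]
noncomputable def e31_44 : List Rx := [
  Rx.mk (nat_lit 289) (nat_lit 1) (nat_lit 4) (nat_lit 4) (nat_lit 1) (nat_lit 222) (nat_lit 368) r11_222 r8_368 (nat_lit 0) (nat_lit 49696383) (nat_lit 93109333) (nat_lit 0x7a0dfb9e4) (nat_lit 776624328),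
  Rx.mk (nat_lit 297) (nat_lit 1) (nat_lit 5) (nat_lit 4) (nat_lit 3) (nat_lit 223) (nat_lit 369) r11_223 r8_369 (nat_lit 0) (nat_lit 0) (nat_lit 24741287) (nat_lit 0x8017985b4) (nat_lit 561612199),
  Rx.mk (nat_lit 353) (nat_lit 1) (nat_lit 4) (nat_lit 5) (nat_lit 5) (nat_lit 224) (nat_lit 370) r11_224 r8_370 (nat_lit 0) (nat_lit 24741287) (nat_lit 0) (nat_lit 0x8017985b4) (nat_lit 561612199),
  Rx.mk (nat_lit 361) (nat_lit 1) (nat_lit 5) (nat_lit 5) (nat_lit 7) (nat_lit 225) (nat_lit 371) r11_225 r8_371 (nat_lit 0) (nat_lit 0) (nat_lit 0) (nat_lit 0x8017985b4) (nat_lit 536870912),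
  Rx.mk (nat_lit 417) (nat_lit 1) (nat_lit 4) (nat_lit 6) (nat_lit 5) (nat_lit 226) (nat_lit 372) r11_226 r8_372 (nat_lit 0) (nat_lit 24741287) (nat_lit 0) (nat_lit 0x8017985b4) (nat_lit 561612199),
  Rx.mk (nat_lit 425) (nat_lit 1) (nat_lit 5) (nat_lit 6) (nat_lit 7) (nat_lit 227) (nat_lit 373) r11_227 r8_373 (nat_lit 0) (nat_lit 0) (nat_lit 0) (nat_lit 0x8017985b4) (nat_lit 536870912),
  Rx.mk (nat_lit 433) (nat_lit 1) (nat_lit 6) (nat_lit 6) (nat_lit 7) (nat_lit 228) (nat_lit 374) r11_228 r8_374 (nat_lit 0) (nat_lit 0) (nat_lit 0) (nat_lit 0x8017985b4) (nat_lit 536870912),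
  Rx.mk (nat_lit 437) (nat_lit 5) (nat_lit 6) (nat_lit 6) (nat_lit 7) (nat_lit 229) (nat_lit 367) r11_229 r8_367 (nat_lit 0) (nat_lit 0) (nat_lit 0) (nat_lit 0x8017985b4) (nat_lit 536870912)]
noncomputable def e31_45 : List Rx := [
  Rx.mk (nat_lit 296) (nat_lit 0) (nat_lit 5) (nat_lit 4) (nat_lit 2) (nat_lit 183) (nat_lit 316) r11_183 r1_316 (nat_lit 115272517) (nat_lit 0) (nat_lit 31169867) (nat_lit 0x729ca1386) (nat_lit 900542746),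
  Rx.mk (nat_lit 297) (nat_lit 1) (nat_lit 5) (nat_lit 4) (nat_lit 3) (nat_lit 184) (nat_lit 319) r11_184 r1_319 (nat_lit 0) (nat_lit 0) (nat_lit 24741287) (nat_lit 0x8017985b4) (nat_lit 561612199),
  Rx.mk (nat_lit 298) (nat_lit 2) (nat_lit 5) (nat_lit 4) (nat_lit 3) (nat_lit 185) (nat_lit 322) r11_185 r1_322 (nat_lit 0) (nat_lit 0) (nat_lit 24741287) (nat_lit 0x8017985b4) (nat_lit 561612199),
  Rx.mk (nat_lit 360) (nat_lit 0) (nat_lit 5) (nat_lit 5) (nat_lit 6) (nat_lit 186) (nat_lit 317) r11_186 r1_317 (nat_lit 39197522) (nat_lit 0) (nat_lit 0) (nat_lit 0x7db914fa8) (nat_lit 613796734),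
  Rx.mk (nat_lit 361) (nat_lit 1) (nat_lit 5) (nat_lit 5) (nat_lit 7) (nat_lit 187) (nat_lit 320) r11_187 r1_320 (nat_lit 0) (nat_lit 0) (nat_lit 0) (nat_lit 0x8017985b4) (nat_lit 536870912),
  Rx.mk (nat_lit 362) (nat_lit 2) (nat_lit 5) (nat_lit 5) (nat_lit 7) (nat_lit 188) (nat_lit 323) r11_188 r1_323 (nat_lit 0) (nat_lit 0) (nat_lit 0) (nat_lit 0x81759db22) (nat_lit 515567712),
  Rx.mk (nat_lit 424) (nat_lit 0) (nat_lit 5) (nat_lit 6) (nat_lit 6) (nat_lit 189) (nat_lit 318) r11_189 r1_318 (nat_lit 24741287) (nat_lit 0) (nat_lit 0) (nat_lit 0x8017985b4) (nat_lit 561612199),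
  Rx.mk (nat_lit 425) (nat_lit 1) (nat_lit 5) (nat_lit 6) (nat_lit 7) (nat_lit 190) (nat_lit 321) r11_190 r1_321 (nat_lit 0) (nat_lit 0) (nat_lit 0) (nat_lit 0x8017985b4) (nat_lit 536870912)]
noncomputable def e31_46 : List Rx := [
  Rx.mk (nat_lit 330) (nat_lit 2) (nat_lit 1) (nat_lit 5) (nat_lit 7) (nat_lit 339) (nat_lit 373) r11_339 r2_373 (nat_lit 0) (nat_lit 0) (nat_lit 0) (nat_lit 0x8017985b4) (nat_lit 536870912),
  Rx.mk (nat_lit 360) (nat_lit 0) (nat_lit 5) (nat_lit 5) (nat_lit 6) (nat_lit 340) (nat_lit 370) r11_340 r2_370 (nat_lit 27655321) (nat_lit 0) (nat_lit 0) (nat_lit 0x7fd1d42f8) (nat_lit 568815833),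
  Rx.mk (nat_lit 361) (nat_lit 1) (nat_lit 5) (nat_lit 5) (nat_lit 7) (nat_lit 341) (nat_lit 371) r11_341 r2_371 (nat_lit 0) (nat_lit 0) (nat_lit 0) (nat_lit 0x8017985b4) (nat_lit 536870912),
  Rx.mk (nat_lit 362) (nat_lit 2) (nat_lit 5) (nat_lit 5) (nat_lit 7) (nat_lit 342) (nat_lit 372) r11_342 r2_372 (nat_lit 0) (nat_lit 0) (nat_lit 0) (nat_lit 0x8017985b4) (nat_lit 536870912)]
noncomputable def e31_47 : List Rx := [
  Rx.mk (nat_lit 297) (nat_lit 1) (nat_lit 5) (nat_lit 4) (nat_lit 3) (nat_lit 219) (nat_lit 198) r11_219 r8_198 (nat_lit 0) (nat_lit 0) (nat_lit 24741287) (nat_lit 0x8017985b4) (nat_lit 561612199),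
  Rx.mk (nat_lit 361) (nat_lit 1) (nat_lit 5) (nat_lit 5) (nat_lit 7) (nat_lit 220) (nat_lit 199) r11_220 r8_199 (nat_lit 0) (nat_lit 0) (nat_lit 0) (nat_lit 0x8017985b4) (nat_lit 536870912),
  Rx.mk (nat_lit 425) (nat_lit 1) (nat_lit 5) (nat_lit 6) (nat_lit 7) (nat_lit 221) (nat_lit 200) r11_221 r8_200 (nat_lit 0) (nat_lit 0) (nat_lit 0) (nat_lit 0x8017985b4) (nat_lit 536870912)]
noncomputable def e31_48 : List Rx := [
  Rx.mk (nat_lit 361) (nat_lit 1) (nat_lit 5) (nat_lit 5) (nat_lit 7) (nat_lit 350) (nat_lit 327) r11_350 r9_327 (nat_lit 0) (nat_lit 0) (nat_lit 0) (nat_lit 0x8017985b4) (nat_lit 536870912)]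
noncomputable def e31_49 : List Rx := [
  Rx.mk (nat_lit 74) (nat_lit 2) (nat_lit 1) (nat_lit 1) (nat_lit 7) (nat_lit 345) (nat_lit 319) r11_345 r9_319 (nat_lit 0) (nat_lit 0) (nat_lit 0) (nat_lit 0x8017985b4) (nat_lit 536870912),
  Rx.mk (nat_lit 330) (nat_lit 2) (nat_lit 1) (nat_lit 5) (nat_lit 7) (nat_lit 346) (nat_lit 322) r11_346 r9_322 (nat_lit 0) (nat_lit 0) (nat_lit 0) (nat_lit 0x8017985b4) (nat_lit 536870912),
  Rx.mk (nat_lit 360) (nat_lit 0) (nat_lit 5) (nat_lit 5) (nat_lit 6) (nat_lit 347) (nat_lit 320) r11_347 r9_320 (nat_lit 34238693) (nat_lit 0) (nat_lit 0) (nat_lit 0x7ed4be032) (nat_lit 591026955),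
  Rx.mk (nat_lit 361) (nat_lit 1) (nat_lit 5) (nat_lit 5) (nat_lit 7) (nat_lit 348) (nat_lit 321) r11_348 r9_321 (nat_lit 0) (nat_lit 0) (nat_lit 0) (nat_lit 0x8017985b4) (nat_lit 536870912),
  Rx.mk (nat_lit 362) (nat_lit 2) (nat_lit 5) (nat_lit 5) (nat_lit 7) (nat_lit 349) (nat_lit 323) r11_349 r9_323 (nat_lit 0) (nat_lit 0) (nat_lit 0) (nat_lit 0x8017985b4) (nat_lit 536870912)]
noncomputable def e31_50 : List Rx := [
  Rx.mk (nat_lit 288) (nat_lit 0) (nat_lit 4) (nat_lit 4) (nat_lit 0) (nat_lit 19) (nat_lit 342) r11_19 r3_342 (nat_lit 96674) (nat_lit 132111) (nat_lit 122716) (nat_lit 0x497316d28) (nat_lit 1419374513),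
  Rx.mk (nat_lit 289) (nat_lit 1) (nat_lit 4) (nat_lit 4) (nat_lit 1) (nat_lit 20) (nat_lit 349) r11_20 r3_349 (nat_lit 0) (nat_lit 18566817) (nat_lit 29295655) (nat_lit 0x6eb4eea14) (nat_lit 865039884),
  Rx.mk (nat_lit 290) (nat_lit 2) (nat_lit 4) (nat_lit 4) (nat_lit 1) (nat_lit 21) (nat_lit 356) r11_21 r3_356 (nat_lit 0) (nat_lit 41499232) (nat_lit 24848889) (nat_lit 0x75df8e2a4) (nat_lit 767700883),
  Rx.mk (nat_lit 312) (nat_lit 0) (nat_lit 7) (nat_lit 4) (nat_lit 2) (nat_lit 22) (nat_lit 343) r11_22 r3_343 (nat_lit 4459709) (nat_lit 0) (nat_lit 5090553) (nat_lit 0x6f5ae93ec) (nat_lit 816096324),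
  Rx.mk (nat_lit 313) (nat_lit 1) (nat_lit 7) (nat_lit 4) (nat_lit 3) (nat_lit 23) (nat_lit 350) r11_23 r3_350 (nat_lit 0) (nat_lit 0) (nat_lit 14431981) (nat_lit 0x80cd30a02) (nat_lit 540176893),
  Rx.mk (nat_lit 314) (nat_lit 2) (nat_lit 7) (nat_lit 4) (nat_lit 3) (nat_lit 24) (nat_lit 357) r11_24 r3_357 (nat_lit 0) (nat_lit 0) (nat_lit 10849071) (nat_lit 0x7fc617ece) (nat_lit 552588333),
  Rx.mk (nat_lit 352) (nat_lit 0) (nat_lit 4) (nat_lit 5) (nat_lit 4) (nat_lit 25) (nat_lit 344) r11_25 r3_344 (nat_lit 3284544) (nat_lit 1291523) (nat_lit 0) (nat_lit 0x652f21fd4) (nat_lit 975280179),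
  Rx.mk (nat_lit 353) (nat_lit 1) (nat_lit 4) (nat_lit 5) (nat_lit 5) (nat_lit 26) (nat_lit 351) r11_26 r3_351 (nat_lit 0) (nat_lit 24741287) (nat_lit 0) (nat_lit 0x8017985b4) (nat_lit 561612199),
  Rx.mk (nat_lit 354) (nat_lit 2) (nat_lit 4) (nat_lit 5) (nat_lit 5) (nat_lit 27) (nat_lit 358) r11_27 r3_358 (nat_lit 0) (nat_lit 22959846) (nat_lit 0) (nat_lit 0x7f72d2be2) (nat_lit 569951908),
  Rx.mk (nat_lit 376) (nat_lit 0) (nat_lit 7) (nat_lit 5) (nat_lit 6) (nat_lit 28) (nat_lit 345) r11_28 r3_345 (nat_lit 13146689) (nat_lit 0) (nat_lit 0) (nat_lit 0x808dd2f86) (nat_lit 542691851),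
  Rx.mk (nat_lit 377) (nat_lit 1) (nat_lit 7) (nat_lit 5) (nat_lit 7) (nat_lit 29) (nat_lit 352) r11_29 r3_352 (nat_lit 0) (nat_lit 0) (nat_lit 0) (nat_lit 0x8017985b4) (nat_lit 536870912),
  Rx.mk (nat_lit 378) (nat_lit 2) (nat_lit 7) (nat_lit 5) (nat_lit 7) (nat_lit 30) (nat_lit 359) r11_30 r3_359 (nat_lit 0) (nat_lit 0) (nat_lit 0) (nat_lit 0x8017985b4) (nat_lit 536870912),
  Rx.mk (nat_lit 416) (nat_lit 0) (nat_lit 4) (nat_lit 6) (nat_lit 4) (nat_lit 31) (nat_lit 346) r11_31 r3_346 (nat_lit 849840) (nat_lit 138609354) (nat_lit 0) (nat_lit 0x69d7f337a) (nat_lit 1034816656),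
  Rx.mk (nat_lit 417) (nat_lit 1) (nat_lit 4) (nat_lit 6) (nat_lit 5) (nat_lit 32) (nat_lit 353) r11_32 r3_353 (nat_lit 0) (nat_lit 29915179) (nat_lit 0) (nat_lit 0x7fe911db2) (nat_lit 569577941),
  Rx.mk (nat_lit 432) (nat_lit 0) (nat_lit 6) (nat_lit 6) (nat_lit 6) (nat_lit 33) (nat_lit 348) r11_33 r3_348 (nat_lit 22698438) (nat_lit 0) (nat_lit 0) (nat_lit 0x801e644f6) (nat_lit 559143350),
  Rx.mk (nat_lit 433) (nat_lit 1) (nat_lit 6) (nat_lit 6) (nat_lit 7) (nat_lit 34) (nat_lit 355) r11_34 r3_355 (nat_lit 0) (nat_lit 0) (nat_lit 0) (nat_lit 0x8017985b4) (nat_lit 536870912),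
  Rx.mk (nat_lit 440) (nat_lit 0) (nat_lit 7) (nat_lit 6) (nat_lit 6) (nat_lit 35) (nat_lit 347) r11_35 r3_347 (nat_lit 13744676) (nat_lit 0) (nat_lit 0) (nat_lit 0x808aa0700) (nat_lit 543529688),
  Rx.mk (nat_lit 441) (nat_lit 1) (nat_lit 7) (nat_lit 6) (nat_lit 7) (nat_lit 36) (nat_lit 354) r11_36 r3_354 (nat_lit 0) (nat_lit 0) (nat_lit 0) (nat_lit 0x8017985b4) (nat_lit 536870912)]
noncomputable def e31_51 : List Rx := [
  Rx.mk (nat_lit 288) (nat_lit 0) (nat_lit 4) (nat_lit 4) (nat_lit 0) (nat_lit 191) (nat_lit 381) r11_191 r4_381 (nat_lit 17913539) (nat_lit 15710614) (nat_lit 17952672) (nat_lit 0x5f1b5dba2) (nat_lit 1121002137),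
  Rx.mk (nat_lit 289) (nat_lit 1) (nat_lit 4) (nat_lit 4) (nat_lit 1) (nat_lit 192) (nat_lit 390) r11_192 r4_390 (nat_lit 0) (nat_lit 20049231) (nat_lit 96193341) (nat_lit 0x7b255b444) (nat_lit 732377384),
  Rx.mk (nat_lit 290) (nat_lit 2) (nat_lit 4) (nat_lit 4) (nat_lit 1) (nat_lit 193) (nat_lit 396) r11_193 r4_396 (nat_lit 0) (nat_lit 30793545) (nat_lit 30793545) (nat_lit 0x7da382596) (nat_lit 637575952),
  Rx.mk (nat_lit 296) (nat_lit 0) (nat_lit 5) (nat_lit 4) (nat_lit 2) (nat_lit 194) (nat_lit 382) r11_194 r4_382 (nat_lit 34329630) (nat_lit 0) (nat_lit 27647826) (nat_lit 0x7e54987ea) (nat_lit 626865718),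
  Rx.mk (nat_lit 298) (nat_lit 2) (nat_lit 5) (nat_lit 4) (nat_lit 3) (nat_lit 195) (nat_lit 397) r11_195 r4_397 (nat_lit 0) (nat_lit 0) (nat_lit 24741287) (nat_lit 0x8017985b4) (nat_lit 561612199),
  Rx.mk (nat_lit 312) (nat_lit 0) (nat_lit 7) (nat_lit 4) (nat_lit 2) (nat_lit 196) (nat_lit 383) r11_196 r4_383 (nat_lit 30009416) (nat_lit 0) (nat_lit 28646946) (nat_lit 0x7b26b540c) (nat_lit 674773074),
  Rx.mk (nat_lit 313) (nat_lit 1) (nat_lit 7) (nat_lit 4) (nat_lit 3) (nat_lit 197) (nat_lit 391) r11_197 r4_391 (nat_lit 0) (nat_lit 0) (nat_lit 30058585) (nat_lit 0x7fbf63a4c) (nat_lit 572343247),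
  Rx.mk (nat_lit 314) (nat_lit 2) (nat_lit 7) (nat_lit 4) (nat_lit 3) (nat_lit 198) (nat_lit 398) r11_198 r4_398 (nat_lit 0) (nat_lit 0) (nat_lit 24741287) (nat_lit 0x8017985b4) (nat_lit 561612199),
  Rx.mk (nat_lit 352) (nat_lit 0) (nat_lit 4) (nat_lit 5) (nat_lit 4) (nat_lit 199) (nat_lit 384) r11_199 r4_384 (nat_lit 35726227) (nat_lit 27870751) (nat_lit 0) (nat_lit 0x779980b0c) (nat_lit 737097740),
  Rx.mk (nat_lit 353) (nat_lit 1) (nat_lit 4) (nat_lit 5) (nat_lit 5) (nat_lit 200) (nat_lit 392) r11_200 r4_392 (nat_lit 0) (nat_lit 24741287) (nat_lit 0) (nat_lit 0x8017985b4) (nat_lit 561612199),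
  Rx.mk (nat_lit 354) (nat_lit 2) (nat_lit 4) (nat_lit 5) (nat_lit 5) (nat_lit 201) (nat_lit 399) r11_201 r4_399 (nat_lit 0) (nat_lit 24741287) (nat_lit 0) (nat_lit 0x8017985b4) (nat_lit 561612199),
  Rx.mk (nat_lit 360) (nat_lit 0) (nat_lit 5) (nat_lit 5) (nat_lit 6) (nat_lit 202) (nat_lit 385) r11_202 r4_385 (nat_lit 26112240) (nat_lit 0) (nat_lit 0) (nat_lit 0x7f458b346) (nat_lit 575951702),
  Rx.mk (nat_lit 362) (nat_lit 2) (nat_lit 5) (nat_lit 5) (nat_lit 7) (nat_lit 203) (nat_lit 400) r11_203 r4_400 (nat_lit 0) (nat_lit 0) (nat_lit 0) (nat_lit 0x8017985b4) (nat_lit 536870912),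
  Rx.mk (nat_lit 376) (nat_lit 0) (nat_lit 7) (nat_lit 5) (nat_lit 6) (nat_lit 204) (nat_lit 386) r11_204 r4_386 (nat_lit 24741287) (nat_lit 0) (nat_lit 0) (nat_lit 0x8017985b4) (nat_lit 561612199),
  Rx.mk (nat_lit 377) (nat_lit 1) (nat_lit 7) (nat_lit 5) (nat_lit 7) (nat_lit 205) (nat_lit 393) r11_205 r4_393 (nat_lit 0) (nat_lit 0) (nat_lit 0) (nat_lit 0x8017985b4) (nat_lit 536870912),
  Rx.mk (nat_lit 378) (nat_lit 2) (nat_lit 7) (nat_lit 5) (nat_lit 7) (nat_lit 206) (nat_lit 401) r11_206 r4_401 (nat_lit 0) (nat_lit 0) (nat_lit 0) (nat_lit 0x8017985b4) (nat_lit 536870912),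
  Rx.mk (nat_lit 416) (nat_lit 0) (nat_lit 4) (nat_lit 6) (nat_lit 4) (nat_lit 207) (nat_lit 387) r11_207 r4_387 (nat_lit 27912229) (nat_lit 29502798) (nat_lit 0) (nat_lit 0x78d0f8fca) (nat_lit 711254839),
  Rx.mk (nat_lit 417) (nat_lit 1) (nat_lit 4) (nat_lit 6) (nat_lit 5) (nat_lit 208) (nat_lit 394) r11_208 r4_394 (nat_lit 0) (nat_lit 23934074) (nat_lit 0) (nat_lit 0x7fe6d46d0) (nat_lit 563795286),
  Rx.mk (nat_lit 424) (nat_lit 0) (nat_lit 5) (nat_lit 6) (nat_lit 6) (nat_lit 209) (nat_lit 388) r11_209 r4_388 (nat_lit 24741287) (nat_lit 0) (nat_lit 0) (nat_lit 0x8017985b4) (nat_lit 561612199),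
  Rx.mk (nat_lit 432) (nat_lit 0) (nat_lit 6) (nat_lit 6) (nat_lit 6) (nat_lit 210) (nat_lit 389) r11_210 r4_389 (nat_lit 24741287) (nat_lit 0) (nat_lit 0) (nat_lit 0x8017985b4) (nat_lit 561612199),
  Rx.mk (nat_lit 433) (nat_lit 1) (nat_lit 6) (nat_lit 6) (nat_lit 7) (nat_lit 211) (nat_lit 395) r11_211 r4_395 (nat_lit 0) (nat_lit 0) (nat_lit 0) (nat_lit 0x8017985b4) (nat_lit 536870912)]
noncomputable def e31_52 : List Rx := [
  Rx.mk (nat_lit 312) (nat_lit 0) (nat_lit 7) (nat_lit 4) (nat_lit 2) (nat_lit 273) (nat_lit 316) r11_273 r5_316 (nat_lit 21014715) (nat_lit 0) (nat_lit 20649739) (nat_lit 0x729e8ccc2) (nat_lit 795632066),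
  Rx.mk (nat_lit 313) (nat_lit 1) (nat_lit 7) (nat_lit 4) (nat_lit 3) (nat_lit 274) (nat_lit 319) r11_274 r5_319 (nat_lit 0) (nat_lit 0) (nat_lit 24741287) (nat_lit 0x8017985b4) (nat_lit 561612199),
  Rx.mk (nat_lit 314) (nat_lit 2) (nat_lit 7) (nat_lit 4) (nat_lit 3) (nat_lit 275) (nat_lit 322) r11_275 r5_322 (nat_lit 0) (nat_lit 0) (nat_lit 24086680) (nat_lit 0x7f9584f64) (nat_lit 568953542),
  Rx.mk (nat_lit 376) (nat_lit 0) (nat_lit 7) (nat_lit 5) (nat_lit 6) (nat_lit 276) (nat_lit 317) r11_276 r5_317 (nat_lit 20064994) (nat_lit 0) (nat_lit 0) (nat_lit 0x807284b4e) (nat_lit 551341856),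
  Rx.mk (nat_lit 377) (nat_lit 1) (nat_lit 7) (nat_lit 5) (nat_lit 7) (nat_lit 277) (nat_lit 320) r11_277 r5_320 (nat_lit 0) (nat_lit 0) (nat_lit 0) (nat_lit 0x8017985b4) (nat_lit 536870912),
  Rx.mk (nat_lit 378) (nat_lit 2) (nat_lit 7) (nat_lit 5) (nat_lit 7) (nat_lit 278) (nat_lit 323) r11_278 r5_323 (nat_lit 0) (nat_lit 0) (nat_lit 0) (nat_lit 0x8017985b4) (nat_lit 536870912),
  Rx.mk (nat_lit 440) (nat_lit 0) (nat_lit 7) (nat_lit 6) (nat_lit 6) (nat_lit 279) (nat_lit 318) r11_279 r5_318 (nat_lit 21930199) (nat_lit 0) (nat_lit 0) (nat_lit 0x8037c1084) (nat_lit 556823461),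
  Rx.mk (nat_lit 441) (nat_lit 1) (nat_lit 7) (nat_lit 6) (nat_lit 7) (nat_lit 280) (nat_lit 321) r11_280 r5_321 (nat_lit 0) (nat_lit 0) (nat_lit 0) (nat_lit 0x8017985b4) (nat_lit 536870912)]
noncomputable def e31_53 : List Rx := [
  Rx.mk (nat_lit 289) (nat_lit 1) (nat_lit 4) (nat_lit 4) (nat_lit 1) (nat_lit 46) (nat_lit 188) r11_46 r4_188 (nat_lit 0) (nat_lit 16806885) (nat_lit 33533154) (nat_lit 0x78c402cc6) (nat_lit 704937351),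
  Rx.mk (nat_lit 313) (nat_lit 1) (nat_lit 7) (nat_lit 4) (nat_lit 3) (nat_lit 47) (nat_lit 191) r11_47 r4_191 (nat_lit 0) (nat_lit 0) (nat_lit 16749673) (nat_lit 0x8060fd66e) (nat_lit 549095785),
  Rx.mk (nat_lit 353) (nat_lit 1) (nat_lit 4) (nat_lit 5) (nat_lit 5) (nat_lit 48) (nat_lit 189) r11_48 r4_189 (nat_lit 0) (nat_lit 24741287) (nat_lit 0) (nat_lit 0x8017985b4) (nat_lit 561612199),
  Rx.mk (nat_lit 377) (nat_lit 1) (nat_lit 7) (nat_lit 5) (nat_lit 7) (nat_lit 49) (nat_lit 192) r11_49 r4_192 (nat_lit 0) (nat_lit 0) (nat_lit 0) (nat_lit 0x804ce505a) (nat_lit 533594662),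
  Rx.mk (nat_lit 417) (nat_lit 1) (nat_lit 4) (nat_lit 6) (nat_lit 5) (nat_lit 50) (nat_lit 190) r11_50 r4_190 (nat_lit 0) (nat_lit 26071655) (nat_lit 0) (nat_lit 0x7fa9352f2) (nat_lit 569730517),
  Rx.mk (nat_lit 433) (nat_lit 1) (nat_lit 6) (nat_lit 6) (nat_lit 7) (nat_lit 51) (nat_lit 194) r11_51 r4_194 (nat_lit 0) (nat_lit 0) (nat_lit 0) (nat_lit 0x8017985b4) (nat_lit 536870912),
  Rx.mk (nat_lit 441) (nat_lit 1) (nat_lit 7) (nat_lit 6) (nat_lit 7) (nat_lit 52) (nat_lit 193) r11_52 r4_193 (nat_lit 0) (nat_lit 0) (nat_lit 0) (nat_lit 0x804ce4d1c) (nat_lit 533594712)]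
noncomputable def e31_54 : List Rx := [
  Rx.mk (nat_lit 289) (nat_lit 1) (nat_lit 4) (nat_lit 4) (nat_lit 1) (nat_lit 230) (nat_lit 374) r11_230 r10_374 (nat_lit 0) (nat_lit 29967916) (nat_lit 53187078) (nat_lit 0x781c132b8) (nat_lit 748379156),
  Rx.mk (nat_lit 313) (nat_lit 1) (nat_lit 7) (nat_lit 4) (nat_lit 3) (nat_lit 231) (nat_lit 375) r11_231 r10_375 (nat_lit 0) (nat_lit 0) (nat_lit 24741287) (nat_lit 0x8017985b4) (nat_lit 561612199),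
  Rx.mk (nat_lit 353) (nat_lit 1) (nat_lit 4) (nat_lit 5) (nat_lit 5) (nat_lit 232) (nat_lit 376) r11_232 r10_376 (nat_lit 0) (nat_lit 24741287) (nat_lit 0) (nat_lit 0x8017985b4) (nat_lit 561612199),
  Rx.mk (nat_lit 377) (nat_lit 1) (nat_lit 7) (nat_lit 5) (nat_lit 7) (nat_lit 233) (nat_lit 377) r11_233 r10_377 (nat_lit 0) (nat_lit 0) (nat_lit 0) (nat_lit 0x8017985b4) (nat_lit 536870912),
  Rx.mk (nat_lit 417) (nat_lit 1) (nat_lit 4) (nat_lit 6) (nat_lit 5) (nat_lit 234) (nat_lit 378) r11_234 r10_378 (nat_lit 0) (nat_lit 24741287) (nat_lit 0) (nat_lit 0x8017985b4) (nat_lit 561612199),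
  Rx.mk (nat_lit 433) (nat_lit 1) (nat_lit 6) (nat_lit 6) (nat_lit 7) (nat_lit 235) (nat_lit 379) r11_235 r10_379 (nat_lit 0) (nat_lit 0) (nat_lit 0) (nat_lit 0x8017985b4) (nat_lit 536870912)]
noncomputable def e31_55 : List Rx := [
  Rx.mk (nat_lit 313) (nat_lit 1) (nat_lit 7) (nat_lit 4) (nat_lit 3) (nat_lit 281) (nat_lit 368) r11_281 r11_368 (nat_lit 0) (nat_lit 0) (nat_lit 24741287) (nat_lit 0x8017985b4) (nat_lit 561612199),
  Rx.mk (nat_lit 377) (nat_lit 1) (nat_lit 7) (nat_lit 5) (nat_lit 7) (nat_lit 282) (nat_lit 369) r11_282 r11_369 (nat_lit 0) (nat_lit 0) (nat_lit 0) (nat_lit 0x8017985b4) (nat_lit 536870912),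
  Rx.mk (nat_lit 441) (nat_lit 1) (nat_lit 7) (nat_lit 6) (nat_lit 7) (nat_lit 283) (nat_lit 370) r11_283 r11_370 (nat_lit 0) (nat_lit 0) (nat_lit 0) (nat_lit 0x8017985b4) (nat_lit 536870912)]
noncomputable def e31_56 : List Rx := [
  Rx.mk (nat_lit 288) (nat_lit 0) (nat_lit 4) (nat_lit 4) (nat_lit 0) (nat_lit 68) (nat_lit 202) r11_68 r5_202 (nat_lit 4773935) (nat_lit 23484085) (nat_lit 5946457) (nat_lit 0x49e63d70c) (nat_lit 1446456039),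
  Rx.mk (nat_lit 289) (nat_lit 1) (nat_lit 4) (nat_lit 4) (nat_lit 1) (nat_lit 69) (nat_lit 203) r11_69 r5_203 (nat_lit 0) (nat_lit 55665677) (nat_lit 33768507) (nat_lit 0x7ce62247e) (nat_lit 677311396),
  Rx.mk (nat_lit 290) (nat_lit 2) (nat_lit 4) (nat_lit 4) (nat_lit 1) (nat_lit 70) (nat_lit 205) r11_70 r5_205 (nat_lit 0) (nat_lit 43048303) (nat_lit 37783563) (nat_lit 0x7dabdf81a) (nat_lit 656267928),
  Rx.mk (nat_lit 291) (nat_lit 3) (nat_lit 4) (nat_lit 4) (nat_lit 1) (nat_lit 71) (nat_lit 204) r11_71 r5_204 (nat_lit 0) (nat_lit 60413237) (nat_lit 36801253) (nat_lit 0x7abb7e684) (nat_lit 720123752),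
  Rx.mk (nat_lit 312) (nat_lit 0) (nat_lit 7) (nat_lit 4) (nat_lit 2) (nat_lit 72) (nat_lit 212) r11_72 r5_212 (nat_lit 8957018) (nat_lit 0) (nat_lit 12323810) (nat_lit 0x6eeac40b2) (nat_lit 835033290),
  Rx.mk (nat_lit 313) (nat_lit 1) (nat_lit 7) (nat_lit 4) (nat_lit 3) (nat_lit 73) (nat_lit 213) r11_73 r5_213 (nat_lit 0) (nat_lit 0) (nat_lit 18403732) (nat_lit 0x8068f7d2e) (nat_lit 550276494),
  Rx.mk (nat_lit 314) (nat_lit 2) (nat_lit 7) (nat_lit 4) (nat_lit 3) (nat_lit 74) (nat_lit 214) r11_74 r5_214 (nat_lit 0) (nat_lit 0) (nat_lit 19699007) (nat_lit 0x7fd8785be) (nat_lit 560420169),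
  Rx.mk (nat_lit 352) (nat_lit 0) (nat_lit 4) (nat_lit 5) (nat_lit 4) (nat_lit 75) (nat_lit 206) r11_75 r5_206 (nat_lit 35682471) (nat_lit 41438793) (nat_lit 0) (nat_lit 0x752101d04) (nat_lit 790555976),
  Rx.mk (nat_lit 354) (nat_lit 2) (nat_lit 4) (nat_lit 5) (nat_lit 5) (nat_lit 76) (nat_lit 208) r11_76 r5_208 (nat_lit 0) (nat_lit 24741287) (nat_lit 0) (nat_lit 0x8017985b4) (nat_lit 561612199),
  Rx.mk (nat_lit 355) (nat_lit 3) (nat_lit 4) (nat_lit 5) (nat_lit 5) (nat_lit 77) (nat_lit 207) r11_77 r5_207 (nat_lit 0) (nat_lit 24741287) (nat_lit 0) (nat_lit 0x8017985b4) (nat_lit 561612199),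
  Rx.mk (nat_lit 376) (nat_lit 0) (nat_lit 7) (nat_lit 5) (nat_lit 6) (nat_lit 78) (nat_lit 215) r11_78 r5_215 (nat_lit 16307770) (nat_lit 0) (nat_lit 0) (nat_lit 0x8072222be) (nat_lit 547606132),
  Rx.mk (nat_lit 378) (nat_lit 2) (nat_lit 7) (nat_lit 5) (nat_lit 7) (nat_lit 79) (nat_lit 216) r11_79 r5_216 (nat_lit 0) (nat_lit 0) (nat_lit 0) (nat_lit 0x8017985b4) (nat_lit 536870912),
  Rx.mk (nat_lit 416) (nat_lit 0) (nat_lit 4) (nat_lit 6) (nat_lit 4) (nat_lit 80) (nat_lit 209) r11_80 r5_209 (nat_lit 10516416) (nat_lit 163052374) (nat_lit 0) (nat_lit 0x79e792546) (nat_lit 809704152),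
  Rx.mk (nat_lit 417) (nat_lit 1) (nat_lit 4) (nat_lit 6) (nat_lit 5) (nat_lit 81) (nat_lit 210) r11_81 r5_210 (nat_lit 0) (nat_lit 24741287) (nat_lit 0) (nat_lit 0x8036bdc00) (nat_lit 559695499),
  Rx.mk (nat_lit 419) (nat_lit 3) (nat_lit 4) (nat_lit 6) (nat_lit 5) (nat_lit 82) (nat_lit 211) r11_82 r5_211 (nat_lit 0) (nat_lit 25956094) (nat_lit 0) (nat_lit 0x80019bd60) (nat_lit 564158956),
  Rx.mk (nat_lit 432) (nat_lit 0) (nat_lit 6) (nat_lit 6) (nat_lit 6) (nat_lit 83) (nat_lit 222) r11_83 r5_222 (nat_lit 20811975) (nat_lit 0) (nat_lit 0) (nat_lit 0x7fde627e0) (nat_lit 561177737),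
  Rx.mk (nat_lit 433) (nat_lit 1) (nat_lit 6) (nat_lit 6) (nat_lit 7) (nat_lit 84) (nat_lit 223) r11_84 r5_223 (nat_lit 0) (nat_lit 0) (nat_lit 0) (nat_lit 0x8017985b4) (nat_lit 536870912),
  Rx.mk (nat_lit 435) (nat_lit 3) (nat_lit 6) (nat_lit 6) (nat_lit 7) (nat_lit 85) (nat_lit 224) r11_85 r5_224 (nat_lit 0) (nat_lit 0) (nat_lit 0) (nat_lit 0x8017985b4) (nat_lit 536870912),
  Rx.mk (nat_lit 440) (nat_lit 0) (nat_lit 7) (nat_lit 6) (nat_lit 6) (nat_lit 86) (nat_lit 220) r11_86 r5_220 (nat_lit 16204149) (nat_lit 0) (nat_lit 0) (nat_lit 0x809309fb8) (nat_lit 545503711),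
  Rx.mk (nat_lit 441) (nat_lit 1) (nat_lit 7) (nat_lit 6) (nat_lit 7) (nat_lit 87) (nat_lit 221) r11_87 r5_221 (nat_lit 0) (nat_lit 0) (nat_lit 0) (nat_lit 0x8017985b4) (nat_lit 536870912),
  Rx.mk (nat_lit 504) (nat_lit 0) (nat_lit 7) (nat_lit 7) (nat_lit 6) (nat_lit 88) (nat_lit 217) r11_88 r5_217 (nat_lit 24841657) (nat_lit 0) (nat_lit 0) (nat_lit 0x7dc3688d8) (nat_lit 598810569),
  Rx.mk (nat_lit 505) (nat_lit 1) (nat_lit 7) (nat_lit 7) (nat_lit 7) (nat_lit 89) (nat_lit 218) r11_89 r5_218 (nat_lit 0) (nat_lit 0) (nat_lit 0) (nat_lit 0x8017985b4) (nat_lit 536870912),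
  Rx.mk (nat_lit 506) (nat_lit 2) (nat_lit 7) (nat_lit 7) (nat_lit 7) (nat_lit 90) (nat_lit 219) r11_90 r5_219 (nat_lit 0) (nat_lit 0) (nat_lit 0) (nat_lit 0x8017985b4) (nat_lit 536870912)]
noncomputable def e31_57 : List Rx := [
  Rx.mk (nat_lit 288) (nat_lit 0) (nat_lit 4) (nat_lit 4) (nat_lit 0) (nat_lit 236) (nat_lit 236) r11_236 r11_236 (nat_lit 32932365) (nat_lit 53843718) (nat_lit 53843718) (nat_lit 0x5ad4d46f8) (nat_lit 1279235263),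
  Rx.mk (nat_lit 289) (nat_lit 1) (nat_lit 4) (nat_lit 4) (nat_lit 1) (nat_lit 237) (nat_lit 237) r11_237 r11_237 (nat_lit 0) (nat_lit 49618932) (nat_lit 49618932) (nat_lit 0x7eda874a0) (nat_lit 655708776),
  Rx.mk (nat_lit 290) (nat_lit 2) (nat_lit 4) (nat_lit 4) (nat_lit 1) (nat_lit 238) (nat_lit 239) r11_238 r11_239 (nat_lit 0) (nat_lit 30414660) (nat_lit 31419554) (nat_lit 0x7dc8ca060) (nat_lit 635354426),
  Rx.mk (nat_lit 291) (nat_lit 3) (nat_lit 4) (nat_lit 4) (nat_lit 1) (nat_lit 239) (nat_lit 238) r11_239 r11_238 (nat_lit 0) (nat_lit 31419554) (nat_lit 30414660) (nat_lit 0x7dc8ca060) (nat_lit 635354426),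
  Rx.mk (nat_lit 296) (nat_lit 0) (nat_lit 5) (nat_lit 4) (nat_lit 2) (nat_lit 240) (nat_lit 246) r11_240 r11_246 (nat_lit 36022396) (nat_lit 0) (nat_lit 50819749) (nat_lit 0x7a243af02) (nat_lit 719244457),
  Rx.mk (nat_lit 298) (nat_lit 2) (nat_lit 5) (nat_lit 4) (nat_lit 3) (nat_lit 241) (nat_lit 248) r11_241 r11_248 (nat_lit 0) (nat_lit 0) (nat_lit 24741287) (nat_lit 0x8017985b4) (nat_lit 561612199),
  Rx.mk (nat_lit 299) (nat_lit 3) (nat_lit 5) (nat_lit 4) (nat_lit 3) (nat_lit 242) (nat_lit 247) r11_242 r11_247 (nat_lit 0) (nat_lit 0) (nat_lit 24741287) (nat_lit 0x8017985b4) (nat_lit 561612199),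
  Rx.mk (nat_lit 312) (nat_lit 0) (nat_lit 7) (nat_lit 4) (nat_lit 2) (nat_lit 243) (nat_lit 254) r11_243 r11_254 (nat_lit 35875760) (nat_lit 0) (nat_lit 37472217) (nat_lit 0x774eb43c6) (nat_lit 751561939),
  Rx.mk (nat_lit 313) (nat_lit 1) (nat_lit 7) (nat_lit 4) (nat_lit 3) (nat_lit 244) (nat_lit 255) r11_244 r11_255 (nat_lit 0) (nat_lit 0) (nat_lit 24741287) (nat_lit 0x8017985b4) (nat_lit 561612199),
  Rx.mk (nat_lit 314) (nat_lit 2) (nat_lit 7) (nat_lit 4) (nat_lit 3) (nat_lit 245) (nat_lit 256) r11_245 r11_256 (nat_lit 0) (nat_lit 0) (nat_lit 24741287) (nat_lit 0x8017985b4) (nat_lit 561612199),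
  Rx.mk (nat_lit 352) (nat_lit 0) (nat_lit 4) (nat_lit 5) (nat_lit 4) (nat_lit 246) (nat_lit 240) r11_246 r11_240 (nat_lit 36022396) (nat_lit 50819749) (nat_lit 0) (nat_lit 0x7a243af02) (nat_lit 719244457),
  Rx.mk (nat_lit 354) (nat_lit 2) (nat_lit 4) (nat_lit 5) (nat_lit 5) (nat_lit 247) (nat_lit 242) r11_247 r11_242 (nat_lit 0) (nat_lit 24741287) (nat_lit 0) (nat_lit 0x8017985b4) (nat_lit 561612199),
  Rx.mk (nat_lit 355) (nat_lit 3) (nat_lit 4) (nat_lit 5) (nat_lit 5) (nat_lit 248) (nat_lit 241) r11_248 r11_241 (nat_lit 0) (nat_lit 24741287) (nat_lit 0) (nat_lit 0x8017985b4) (nat_lit 561612199),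
  Rx.mk (nat_lit 360) (nat_lit 0) (nat_lit 5) (nat_lit 5) (nat_lit 6) (nat_lit 249) (nat_lit 249) r11_249 r11_249 (nat_lit 24842793) (nat_lit 0) (nat_lit 0) (nat_lit 0x7fa573ed4) (nat_lit 568719755),
  Rx.mk (nat_lit 362) (nat_lit 2) (nat_lit 5) (nat_lit 5) (nat_lit 7) (nat_lit 250) (nat_lit 251) r11_250 r11_251 (nat_lit 0) (nat_lit 0) (nat_lit 0) (nat_lit 0x8017985b4) (nat_lit 536870912),
  Rx.mk (nat_lit 363) (nat_lit 3) (nat_lit 5) (nat_lit 5) (nat_lit 7) (nat_lit 251) (nat_lit 250) r11_251 r11_250 (nat_lit 0) (nat_lit 0) (nat_lit 0) (nat_lit 0x8017985b4) (nat_lit 536870912),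
  Rx.mk (nat_lit 376) (nat_lit 0) (nat_lit 7) (nat_lit 5) (nat_lit 6) (nat_lit 252) (nat_lit 257) r11_252 r11_257 (nat_lit 24741287) (nat_lit 0) (nat_lit 0) (nat_lit 0x8017985b4) (nat_lit 561612199),
  Rx.mk (nat_lit 378) (nat_lit 2) (nat_lit 7) (nat_lit 5) (nat_lit 7) (nat_lit 253) (nat_lit 258) r11_253 r11_258 (nat_lit 0) (nat_lit 0) (nat_lit 0) (nat_lit 0x8017985b4) (nat_lit 536870912),
  Rx.mk (nat_lit 416) (nat_lit 0) (nat_lit 4) (nat_lit 6) (nat_lit 4) (nat_lit 254) (nat_lit 243) r11_254 r11_243 (nat_lit 35875760) (nat_lit 37472217) (nat_lit 0) (nat_lit 0x774eb43c6) (nat_lit 751561939),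
  Rx.mk (nat_lit 417) (nat_lit 1) (nat_lit 4) (nat_lit 6) (nat_lit 5) (nat_lit 255) (nat_lit 244) r11_255 r11_244 (nat_lit 0) (nat_lit 24741287) (nat_lit 0) (nat_lit 0x8017985b4) (nat_lit 561612199),
  Rx.mk (nat_lit 419) (nat_lit 3) (nat_lit 4) (nat_lit 6) (nat_lit 5) (nat_lit 256) (nat_lit 245) r11_256 r11_245 (nat_lit 0) (nat_lit 24741287) (nat_lit 0) (nat_lit 0x8017985b4) (nat_lit 561612199),
  Rx.mk (nat_lit 424) (nat_lit 0) (nat_lit 5) (nat_lit 6) (nat_lit 6) (nat_lit 257) (nat_lit 252) r11_257 r11_252 (nat_lit 24741287) (nat_lit 0) (nat_lit 0) (nat_lit 0x8017985b4) (nat_lit 561612199),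
  Rx.mk (nat_lit 427) (nat_lit 3) (nat_lit 5) (nat_lit 6) (nat_lit 7) (nat_lit 258) (nat_lit 253) r11_258 r11_253 (nat_lit 0) (nat_lit 0) (nat_lit 0) (nat_lit 0x8017985b4) (nat_lit 536870912),
  Rx.mk (nat_lit 432) (nat_lit 0) (nat_lit 6) (nat_lit 6) (nat_lit 6) (nat_lit 259) (nat_lit 262) r11_259 r11_262 (nat_lit 24741287) (nat_lit 0) (nat_lit 0) (nat_lit 0x8017985b4) (nat_lit 561612199),
  Rx.mk (nat_lit 433) (nat_lit 1) (nat_lit 6) (nat_lit 6) (nat_lit 7) (nat_lit 260) (nat_lit 263) r11_260 r11_263 (nat_lit 0) (nat_lit 0) (nat_lit 0) (nat_lit 0x8017985b4) (nat_lit 536870912),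
  Rx.mk (nat_lit 435) (nat_lit 3) (nat_lit 6) (nat_lit 6) (nat_lit 7) (nat_lit 261) (nat_lit 264) r11_261 r11_264 (nat_lit 0) (nat_lit 0) (nat_lit 0) (nat_lit 0x8017985b4) (nat_lit 536870912),
  Rx.mk (nat_lit 504) (nat_lit 0) (nat_lit 7) (nat_lit 7) (nat_lit 6) (nat_lit 262) (nat_lit 259) r11_262 r11_259 (nat_lit 24741287) (nat_lit 0) (nat_lit 0) (nat_lit 0x8017985b4) (nat_lit 561612199),
  Rx.mk (nat_lit 505) (nat_lit 1) (nat_lit 7) (nat_lit 7) (nat_lit 7) (nat_lit 263) (nat_lit 260) r11_263 r11_260 (nat_lit 0) (nat_lit 0) (nat_lit 0) (nat_lit 0x8017985b4) (nat_lit 536870912),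
  Rx.mk (nat_lit 506) (nat_lit 2) (nat_lit 7) (nat_lit 7) (nat_lit 7) (nat_lit 264) (nat_lit 261) r11_264 r11_261 (nat_lit 0) (nat_lit 0) (nat_lit 0) (nat_lit 0x8017985b4) (nat_lit 536870912)]
noncomputable def e31 : List (List Rx) := [e31_0, e31_1, e31_2, e31_3, e31_4, e31_5, e31_6, e31_7, e31_8, e31_9, e31_10, e31_11, e31_12, e31_13, e31_14, e31_15, e31_16, e31_17, e31_18, e31_19, e31_20, e31_21, e31_22, e31_23, e31_24, e31_25, e31_26, e31_27, e31_28, e31_29, e31_30, e31_31, e31_32, e31_33, e31_34, e31_35, e31_36, e31_37, e31_38, e31_39, e31_40, e31_41, e31_42, e31_43, e31_44, e31_45, e31_46, e31_47, e31_48, e31_49, e31_50, e31_51, e31_52, e31_53, e31_54, e31_55, e31_56, e31_57]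
noncomputable def e32_0 : List Rx := [
  Rx.mk (nat_lit 84) (nat_lit 4) (nat_lit 2) (nat_lit 1) (nat_lit 6) (nat_lit 276) (nat_lit 222) r6_276 r0_222 (nat_lit 52275) (nat_lit 0) (nat_lit 0) (nat_lit 0x8149ad206) (nat_lit 517293887),
  Rx.mk (nat_lit 116) (nat_lit 4) (nat_lit 6) (nat_lit 1) (nat_lit 6) (nat_lit 277) (nat_lit 223) r6_277 r0_223 (nat_lit 15883932) (nat_lit 0) (nat_lit 0) (nat_lit 0x7b9d7068c) (nat_lit 624376294)]
noncomputable def e32_1 : List Rx := [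
  Rx.mk (nat_lit 84) (nat_lit 4) (nat_lit 2) (nat_lit 1) (nat_lit 6) (nat_lit 304) (nat_lit 240) r6_304 r1_240 (nat_lit 861113) (nat_lit 0) (nat_lit 0) (nat_lit 0x81f140aa4) (nat_lit 508285625),
  Rx.mk (nat_lit 116) (nat_lit 4) (nat_lit 6) (nat_lit 1) (nat_lit 6) (nat_lit 305) (nat_lit 241) r6_305 r1_241 (nat_lit 15511582) (nat_lit 0) (nat_lit 0) (nat_lit 0x81bcd1ade) (nat_lit 526733344)]
noncomputable def e32_2 : List Rx := [
  Rx.mk (nat_lit 84) (nat_lit 4) (nat_lit 2) (nat_lit 1) (nat_lit 6) (nat_lit 306) (nat_lit 251) r6_306 r2_251 (nat_lit 37541131) (nat_lit 0) (nat_lit 0) (nat_lit 0x7f337957c) (nat_lit 588490643),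
  Rx.mk (nat_lit 326) (nat_lit 6) (nat_lit 0) (nat_lit 5) (nat_lit 5) (nat_lit 308) (nat_lit 253) r6_308 r2_253 (nat_lit 0) (nat_lit 32877958) (nat_lit 0) (nat_lit 0x7f6f4bf78) (nat_lit 580120470),
  Rx.mk (nat_lit 340) (nat_lit 4) (nat_lit 2) (nat_lit 5) (nat_lit 6) (nat_lit 307) (nat_lit 252) r6_307 r2_252 (nat_lit 25088397) (nat_lit 0) (nat_lit 0) (nat_lit 0x7fe4f918a) (nat_lit 565068109),
  Rx.mk (nat_lit 342) (nat_lit 6) (nat_lit 2) (nat_lit 5) (nat_lit 7) (nat_lit 309) (nat_lit 254) r6_309 r2_254 (nat_lit 0) (nat_lit 0) (nat_lit 0) (nat_lit 0x8017985b4) (nat_lit 536870912)]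
noncomputable def e32_3 : List Rx := [
  Rx.mk (nat_lit 20) (nat_lit 4) (nat_lit 2) (nat_lit 0) (nat_lit 2) (nat_lit 322) (nat_lit 217) r6_322 r3_217 (nat_lit 6389) (nat_lit 0) (nat_lit 7883) (nat_lit 0x7fff97bfe) (nat_lit 536915534),
  Rx.mk (nat_lit 52) (nat_lit 4) (nat_lit 6) (nat_lit 0) (nat_lit 2) (nat_lit 323) (nat_lit 219) r6_323 r3_219 (nat_lit 7883) (nat_lit 0) (nat_lit 6389) (nat_lit 0x7fff97bfe) (nat_lit 536915534),
  Rx.mk (nat_lit 55) (nat_lit 7) (nat_lit 6) (nat_lit 0) (nat_lit 3) (nat_lit 325) (nat_lit 220) r6_325 r3_220 (nat_lit 0) (nat_lit 0) (nat_lit 62040) (nat_lit 0x7ffb1f284) (nat_lit 537273802),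
  Rx.mk (nat_lit 212) (nat_lit 4) (nat_lit 2) (nat_lit 3) (nat_lit 6) (nat_lit 324) (nat_lit 218) r6_324 r3_218 (nat_lit 62040) (nat_lit 0) (nat_lit 0) (nat_lit 0x7ffb1f284) (nat_lit 537273802)]
noncomputable def e32_4 : List Rx := [
  Rx.mk (nat_lit 20) (nat_lit 4) (nat_lit 2) (nat_lit 0) (nat_lit 2) (nat_lit 326) (nat_lit 217) r6_326 r4_217 (nat_lit 164206) (nat_lit 0) (nat_lit 129197) (nat_lit 0x795e5323a) (nat_lit 644442165),
  Rx.mk (nat_lit 52) (nat_lit 4) (nat_lit 6) (nat_lit 0) (nat_lit 2) (nat_lit 327) (nat_lit 220) r6_327 r4_220 (nat_lit 4357312) (nat_lit 0) (nat_lit 3315579) (nat_lit 0x66141debc) (nat_lit 964156353),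
  Rx.mk (nat_lit 55) (nat_lit 7) (nat_lit 6) (nat_lit 0) (nat_lit 3) (nat_lit 331) (nat_lit 222) r6_331 r4_222 (nat_lit 0) (nat_lit 0) (nat_lit 79150) (nat_lit 0x53f546c4e) (nat_lit 1249167362),
  Rx.mk (nat_lit 84) (nat_lit 4) (nat_lit 2) (nat_lit 1) (nat_lit 6) (nat_lit 328) (nat_lit 218) r6_328 r4_218 (nat_lit 12015582) (nat_lit 0) (nat_lit 0) (nat_lit 0x8043b9b16) (nat_lit 546056094),
  Rx.mk (nat_lit 116) (nat_lit 4) (nat_lit 6) (nat_lit 1) (nat_lit 6) (nat_lit 329) (nat_lit 221) r6_329 r4_221 (nat_lit 9659627) (nat_lit 0) (nat_lit 0) (nat_lit 0x7fc83bdd6) (nat_lit 551234539),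
  Rx.mk (nat_lit 119) (nat_lit 7) (nat_lit 6) (nat_lit 1) (nat_lit 7) (nat_lit 332) (nat_lit 223) r6_332 r4_223 (nat_lit 0) (nat_lit 0) (nat_lit 0) (nat_lit 0x801c163de) (nat_lit 536140862),
  Rx.mk (nat_lit 212) (nat_lit 4) (nat_lit 2) (nat_lit 3) (nat_lit 6) (nat_lit 330) (nat_lit 219) r6_330 r4_219 (nat_lit 14660822) (nat_lit 0) (nat_lit 0) (nat_lit 0x80a2e9ac8) (nat_lit 542985584)]
noncomputable def e32_5 : List Rx := [
  Rx.mk (nat_lit 52) (nat_lit 4) (nat_lit 6) (nat_lit 0) (nat_lit 2) (nat_lit 333) (nat_lit 232) r6_333 r5_232 (nat_lit 1379852) (nat_lit 0) (nat_lit 1266917) (nat_lit 0x7a2fc99c2) (nat_lit 633790631),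
  Rx.mk (nat_lit 55) (nat_lit 7) (nat_lit 6) (nat_lit 0) (nat_lit 3) (nat_lit 336) (nat_lit 234) r6_336 r5_234 (nat_lit 0) (nat_lit 0) (nat_lit 745573) (nat_lit 0x806c92614) (nat_lit 531405435),
  Rx.mk (nat_lit 212) (nat_lit 4) (nat_lit 2) (nat_lit 3) (nat_lit 6) (nat_lit 334) (nat_lit 231) r6_334 r5_231 (nat_lit 64873) (nat_lit 0) (nat_lit 0) (nat_lit 0x800bef67c) (nat_lit 536253635),
  Rx.mk (nat_lit 244) (nat_lit 4) (nat_lit 6) (nat_lit 3) (nat_lit 6) (nat_lit 335) (nat_lit 233) r6_335 r5_233 (nat_lit 4400993) (nat_lit 0) (nat_lit 0) (nat_lit 0x831fc2ff2) (nat_lit 494248105)]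
noncomputable def e32_6 : List Rx := [
  Rx.mk (nat_lit 262) (nat_lit 6) (nat_lit 0) (nat_lit 4) (nat_lit 1) (nat_lit 44) (nat_lit 227) r6_44 r3_227 (nat_lit 0) (nat_lit 2940) (nat_lit 3671) (nat_lit 0x7fffa9322) (nat_lit 536901023),
  Rx.mk (nat_lit 278) (nat_lit 6) (nat_lit 2) (nat_lit 4) (nat_lit 3) (nat_lit 45) (nat_lit 233) r6_45 r3_233 (nat_lit 0) (nat_lit 0) (nat_lit 2875897) (nat_lit 0x717aba4b2) (nat_lit 774887159),
  Rx.mk (nat_lit 386) (nat_lit 2) (nat_lit 0) (nat_lit 6) (nat_lit 5) (nat_lit 41) (nat_lit 230) r6_41 r3_230 (nat_lit 0) (nat_lit 1281031) (nat_lit 0) (nat_lit 0x74900bd36) (nat_lit 723321843),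
  Rx.mk (nat_lit 390) (nat_lit 6) (nat_lit 0) (nat_lit 6) (nat_lit 5) (nat_lit 46) (nat_lit 229) r6_46 r3_229 (nat_lit 0) (nat_lit 6608634) (nat_lit 0) (nat_lit 0x74406e594) (nat_lit 733974246),
  Rx.mk (nat_lit 410) (nat_lit 2) (nat_lit 3) (nat_lit 6) (nat_lit 7) (nat_lit 42) (nat_lit 231) r6_42 r3_231 (nat_lit 0) (nat_lit 0) (nat_lit 0) (nat_lit 0x82a884a62) (nat_lit 496785062),
  Rx.mk (nat_lit 454) (nat_lit 6) (nat_lit 0) (nat_lit 7) (nat_lit 5) (nat_lit 47) (nat_lit 228) r6_47 r3_228 (nat_lit 0) (nat_lit 201864) (nat_lit 0) (nat_lit 0x7fa9eb5e8) (nat_lit 542596676),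
  Rx.mk (nat_lit 468) (nat_lit 4) (nat_lit 2) (nat_lit 7) (nat_lit 6) (nat_lit 43) (nat_lit 232) r6_43 r3_232 (nat_lit 320985) (nat_lit 0) (nat_lit 0) (nat_lit 0x7f1636122) (nat_lit 552018747),
  Rx.mk (nat_lit 470) (nat_lit 6) (nat_lit 2) (nat_lit 7) (nat_lit 7) (nat_lit 48) (nat_lit 234) r6_48 r3_234 (nat_lit 0) (nat_lit 0) (nat_lit 0) (nat_lit 0x85801fec0) (nat_lit 453525812)]
noncomputable def e32_7 : List Rx := [
  Rx.mk (nat_lit 262) (nat_lit 6) (nat_lit 0) (nat_lit 4) (nat_lit 1) (nat_lit 173) (nat_lit 228) r6_173 r0_228 (nat_lit 0) (nat_lit 549304) (nat_lit 476596) (nat_lit 0x63aaea0f0) (nat_lit 996170062),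
  Rx.mk (nat_lit 276) (nat_lit 4) (nat_lit 2) (nat_lit 4) (nat_lit 2) (nat_lit 171) (nat_lit 232) r6_171 r0_232 (nat_lit 961472) (nat_lit 0) (nat_lit 853516) (nat_lit 0x7527736a6) (nat_lit 714260500),
  Rx.mk (nat_lit 278) (nat_lit 6) (nat_lit 2) (nat_lit 4) (nat_lit 3) (nat_lit 174) (nat_lit 234) r6_174 r0_234 (nat_lit 0) (nat_lit 0) (nat_lit 11464009) (nat_lit 0x7fcd39b80) (nat_lit 552812521),
  Rx.mk (nat_lit 326) (nat_lit 6) (nat_lit 0) (nat_lit 5) (nat_lit 5) (nat_lit 175) (nat_lit 229) r6_175 r0_229 (nat_lit 0) (nat_lit 2611205) (nat_lit 0) (nat_lit 0x83a05514c) (nat_lit 484513917),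
  Rx.mk (nat_lit 340) (nat_lit 4) (nat_lit 2) (nat_lit 5) (nat_lit 6) (nat_lit 172) (nat_lit 233) r6_172 r0_233 (nat_lit 727303) (nat_lit 0) (nat_lit 0) (nat_lit 0x864e745a0) (nat_lit 441614815),
  Rx.mk (nat_lit 342) (nat_lit 6) (nat_lit 2) (nat_lit 5) (nat_lit 7) (nat_lit 176) (nat_lit 235) r6_176 r0_235 (nat_lit 0) (nat_lit 0) (nat_lit 0) (nat_lit 0x86cc8ff0c) (nat_lit 433849212),
  Rx.mk (nat_lit 386) (nat_lit 2) (nat_lit 0) (nat_lit 6) (nat_lit 5) (nat_lit 170) (nat_lit 231) r6_170 r0_231 (nat_lit 0) (nat_lit 7518208) (nat_lit 0) (nat_lit 0x737802416) (nat_lit 747659820),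
  Rx.mk (nat_lit 390) (nat_lit 6) (nat_lit 0) (nat_lit 6) (nat_lit 5) (nat_lit 177) (nat_lit 230) r6_177 r0_230 (nat_lit 0) (nat_lit 14019292) (nat_lit 0) (nat_lit 0x774820d34) (nat_lit 692574004)]
noncomputable def e32_8 : List Rx := [
  Rx.mk (nat_lit 326) (nat_lit 6) (nat_lit 0) (nat_lit 5) (nat_lit 5) (nat_lit 179) (nat_lit 246) r6_179 r1_246 (nat_lit 0) (nat_lit 4579048) (nat_lit 0) (nat_lit 0x829e4386e) (nat_lit 502034860),
  Rx.mk (nat_lit 340) (nat_lit 4) (nat_lit 2) (nat_lit 5) (nat_lit 6) (nat_lit 178) (nat_lit 247) r6_178 r1_247 (nat_lit 2146916) (nat_lit 0) (nat_lit 0) (nat_lit 0x832861f50) (nat_lit 491234428),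
  Rx.mk (nat_lit 342) (nat_lit 6) (nat_lit 2) (nat_lit 5) (nat_lit 7) (nat_lit 180) (nat_lit 248) r6_180 r1_248 (nat_lit 0) (nat_lit 0) (nat_lit 0) (nat_lit 0x80c3cc614) (nat_lit 526329562)]
noncomputable def e32_9 : List Rx := [
  Rx.mk (nat_lit 262) (nat_lit 6) (nat_lit 0) (nat_lit 4) (nat_lit 1) (nat_lit 186) (nat_lit 229) r6_186 r4_229 (nat_lit 0) (nat_lit 185097) (nat_lit 150896) (nat_lit 0x7474055ce) (nat_lit 723972805),
  Rx.mk (nat_lit 276) (nat_lit 4) (nat_lit 2) (nat_lit 4) (nat_lit 2) (nat_lit 183) (nat_lit 235) r6_183 r4_235 (nat_lit 102847) (nat_lit 0) (nat_lit 72450) (nat_lit 0x74c49e314) (nat_lit 718702409),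
  Rx.mk (nat_lit 278) (nat_lit 6) (nat_lit 2) (nat_lit 4) (nat_lit 3) (nat_lit 187) (nat_lit 238) r6_187 r4_238 (nat_lit 0) (nat_lit 0) (nat_lit 8507115) (nat_lit 0x7fe98ff5a) (nat_lit 548034927),
  Rx.mk (nat_lit 326) (nat_lit 6) (nat_lit 0) (nat_lit 5) (nat_lit 5) (nat_lit 188) (nat_lit 230) r6_188 r4_230 (nat_lit 0) (nat_lit 15201900) (nat_lit 0) (nat_lit 0x80b22620c) (nat_lit 542613312),
  Rx.mk (nat_lit 340) (nat_lit 4) (nat_lit 2) (nat_lit 5) (nat_lit 6) (nat_lit 184) (nat_lit 236) r6_184 r4_236 (nat_lit 17803608) (nat_lit 0) (nat_lit 0) (nat_lit 0x8030df784) (nat_lit 553092470),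
  Rx.mk (nat_lit 342) (nat_lit 6) (nat_lit 2) (nat_lit 5) (nat_lit 7) (nat_lit 189) (nat_lit 239) r6_189 r4_239 (nat_lit 0) (nat_lit 0) (nat_lit 0) (nat_lit 0x80ad718e2) (nat_lit 527694462),
  Rx.mk (nat_lit 386) (nat_lit 2) (nat_lit 0) (nat_lit 6) (nat_lit 5) (nat_lit 181) (nat_lit 233) r6_181 r4_233 (nat_lit 0) (nat_lit 11623710) (nat_lit 0) (nat_lit 0x7bf31a790) (nat_lit 614749172),
  Rx.mk (nat_lit 390) (nat_lit 6) (nat_lit 0) (nat_lit 6) (nat_lit 5) (nat_lit 190) (nat_lit 232) r6_190 r4_232 (nat_lit 0) (nat_lit 14591992) (nat_lit 0) (nat_lit 0x7ffde2a5c) (nat_lit 552972954),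
  Rx.mk (nat_lit 410) (nat_lit 2) (nat_lit 3) (nat_lit 6) (nat_lit 7) (nat_lit 182) (nat_lit 234) r6_182 r4_234 (nat_lit 0) (nat_lit 0) (nat_lit 0) (nat_lit 0x81ec02330) (nat_lit 508336162),
  Rx.mk (nat_lit 454) (nat_lit 6) (nat_lit 0) (nat_lit 7) (nat_lit 5) (nat_lit 191) (nat_lit 231) r6_191 r4_231 (nat_lit 0) (nat_lit 15888000) (nat_lit 0) (nat_lit 0x80a2446e0) (nat_lit 544269162),
  Rx.mk (nat_lit 468) (nat_lit 4) (nat_lit 2) (nat_lit 7) (nat_lit 6) (nat_lit 185) (nat_lit 237) r6_185 r4_237 (nat_lit 14470459) (nat_lit 0) (nat_lit 0) (nat_lit 0x7f6a8c884) (nat_lit 561862921),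
  Rx.mk (nat_lit 470) (nat_lit 6) (nat_lit 2) (nat_lit 7) (nat_lit 7) (nat_lit 192) (nat_lit 240) r6_192 r4_240 (nat_lit 0) (nat_lit 0) (nat_lit 0) (nat_lit 0x80ad718e2) (nat_lit 527694462)]
noncomputable def e32_10 : List Rx := [
  Rx.mk (nat_lit 55) (nat_lit 7) (nat_lit 6) (nat_lit 0) (nat_lit 3) (nat_lit 249) (nat_lit 247) r6_249 r6_247 (nat_lit 0) (nat_lit 0) (nat_lit 444414) (nat_lit 0x7fdf18cb6) (nat_lit 539578826),
  Rx.mk (nat_lit 212) (nat_lit 4) (nat_lit 2) (nat_lit 3) (nat_lit 6) (nat_lit 244) (nat_lit 244) r6_244 r6_244 (nat_lit 646033) (nat_lit 0) (nat_lit 0) (nat_lit 0x7f96cb490) (nat_lit 544399195),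
  Rx.mk (nat_lit 244) (nat_lit 4) (nat_lit 6) (nat_lit 3) (nat_lit 6) (nat_lit 245) (nat_lit 246) r6_245 r6_246 (nat_lit 4142685) (nat_lit 0) (nat_lit 0) (nat_lit 0x7fb361866) (nat_lit 546673497),
  Rx.mk (nat_lit 247) (nat_lit 7) (nat_lit 6) (nat_lit 3) (nat_lit 7) (nat_lit 250) (nat_lit 248) r6_250 r6_248 (nat_lit 0) (nat_lit 0) (nat_lit 0) (nat_lit 0x8541a12d4) (nat_lit 457207412),
  Rx.mk (nat_lit 454) (nat_lit 6) (nat_lit 0) (nat_lit 7) (nat_lit 5) (nat_lit 247) (nat_lit 249) r6_247 r6_249 (nat_lit 0) (nat_lit 444414) (nat_lit 0) (nat_lit 0x7fdf18cb6) (nat_lit 539578826),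
  Rx.mk (nat_lit 468) (nat_lit 4) (nat_lit 2) (nat_lit 7) (nat_lit 6) (nat_lit 246) (nat_lit 245) r6_246 r6_245 (nat_lit 4142685) (nat_lit 0) (nat_lit 0) (nat_lit 0x7fb361866) (nat_lit 546673497),
  Rx.mk (nat_lit 470) (nat_lit 6) (nat_lit 2) (nat_lit 7) (nat_lit 7) (nat_lit 248) (nat_lit 250) r6_248 r6_250 (nat_lit 0) (nat_lit 0) (nat_lit 0) (nat_lit 0x8541a12d4) (nat_lit 457207412)]
noncomputable def e32_11 : List Rx := [
  Rx.mk (nat_lit 454) (nat_lit 6) (nat_lit 0) (nat_lit 7) (nat_lit 5) (nat_lit 252) (nat_lit 242) r6_252 r5_242 (nat_lit 0) (nat_lit 355084) (nat_lit 0) (nat_lit 0x7fdb97272) (nat_lit 539655146),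
  Rx.mk (nat_lit 468) (nat_lit 4) (nat_lit 2) (nat_lit 7) (nat_lit 6) (nat_lit 251) (nat_lit 243) r6_251 r5_243 (nat_lit 52534) (nat_lit 0) (nat_lit 0) (nat_lit 0x806957f26) (nat_lit 530664346),
  Rx.mk (nat_lit 470) (nat_lit 6) (nat_lit 2) (nat_lit 7) (nat_lit 7) (nat_lit 253) (nat_lit 244) r6_253 r5_244 (nat_lit 0) (nat_lit 0) (nat_lit 0) (nat_lit 0x7f639d938) (nat_lit 547371662)]
noncomputable def e32_12 : List Rx := [
  Rx.mk (nat_lit 21) (nat_lit 5) (nat_lit 2) (nat_lit 0) (nat_lit 3) (nat_lit 278) (nat_lit 223) r6_278 r0_223 (nat_lit 0) (nat_lit 0) (nat_lit 15883932) (nat_lit 0x7b9d7068c) (nat_lit 624376294),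
  Rx.mk (nat_lit 53) (nat_lit 5) (nat_lit 6) (nat_lit 0) (nat_lit 3) (nat_lit 279) (nat_lit 222) r6_279 r0_222 (nat_lit 0) (nat_lit 0) (nat_lit 52275) (nat_lit 0x8149ad206) (nat_lit 517293887)]
noncomputable def e32_13 : List Rx := [
  Rx.mk (nat_lit 21) (nat_lit 5) (nat_lit 2) (nat_lit 0) (nat_lit 3) (nat_lit 282) (nat_lit 282) r6_282 r7_282 (nat_lit 0) (nat_lit 0) (nat_lit 10459655) (nat_lit 0x80ee2cb7a) (nat_lit 534173067),
  Rx.mk (nat_lit 53) (nat_lit 5) (nat_lit 6) (nat_lit 0) (nat_lit 3) (nat_lit 283) (nat_lit 284) r6_283 r7_284 (nat_lit 0) (nat_lit 0) (nat_lit 8941730) (nat_lit 0x81ee95fca) (nat_lit 517221742),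
  Rx.mk (nat_lit 84) (nat_lit 4) (nat_lit 2) (nat_lit 1) (nat_lit 6) (nat_lit 280) (nat_lit 280) r6_280 r7_280 (nat_lit 8941730) (nat_lit 0) (nat_lit 0) (nat_lit 0x81ee95fca) (nat_lit 517221742),
  Rx.mk (nat_lit 85) (nat_lit 5) (nat_lit 2) (nat_lit 1) (nat_lit 7) (nat_lit 284) (nat_lit 283) r6_284 r7_283 (nat_lit 0) (nat_lit 0) (nat_lit 0) (nat_lit 0x80830e500) (nat_lit 530283612),
  Rx.mk (nat_lit 116) (nat_lit 4) (nat_lit 6) (nat_lit 1) (nat_lit 6) (nat_lit 281) (nat_lit 281) r6_281 r7_281 (nat_lit 10459655) (nat_lit 0) (nat_lit 0) (nat_lit 0x80ee2cb7a) (nat_lit 534173067),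
  Rx.mk (nat_lit 117) (nat_lit 5) (nat_lit 6) (nat_lit 1) (nat_lit 7) (nat_lit 285) (nat_lit 285) r6_285 r7_285 (nat_lit 0) (nat_lit 0) (nat_lit 0) (nat_lit 0x80830e500) (nat_lit 530283612)]
noncomputable def e32_14 : List Rx := [
  Rx.mk (nat_lit 21) (nat_lit 5) (nat_lit 2) (nat_lit 0) (nat_lit 3) (nat_lit 298) (nat_lit 241) r6_298 r1_241 (nat_lit 0) (nat_lit 0) (nat_lit 15511582) (nat_lit 0x81bcd1ade) (nat_lit 526733344),
  Rx.mk (nat_lit 53) (nat_lit 5) (nat_lit 6) (nat_lit 0) (nat_lit 3) (nat_lit 299) (nat_lit 240) r6_299 r1_240 (nat_lit 0) (nat_lit 0) (nat_lit 861113) (nat_lit 0x81f140aa4) (nat_lit 508285625)]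
noncomputable def e32_15 : List Rx := [
  Rx.mk (nat_lit 21) (nat_lit 5) (nat_lit 2) (nat_lit 0) (nat_lit 3) (nat_lit 300) (nat_lit 214) r6_300 r8_214 (nat_lit 0) (nat_lit 0) (nat_lit 24741287) (nat_lit 0x8017985b4) (nat_lit 561612199),
  Rx.mk (nat_lit 53) (nat_lit 5) (nat_lit 6) (nat_lit 0) (nat_lit 3) (nat_lit 301) (nat_lit 216) r6_301 r8_216 (nat_lit 0) (nat_lit 0) (nat_lit 11102784) (nat_lit 0x80e83c530) (nat_lit 535184746),
  Rx.mk (nat_lit 85) (nat_lit 5) (nat_lit 2) (nat_lit 1) (nat_lit 7) (nat_lit 302) (nat_lit 215) r6_302 r8_215 (nat_lit 0) (nat_lit 0) (nat_lit 0) (nat_lit 0x8017985b4) (nat_lit 536870912),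
  Rx.mk (nat_lit 117) (nat_lit 5) (nat_lit 6) (nat_lit 1) (nat_lit 7) (nat_lit 303) (nat_lit 217) r6_303 r8_217 (nat_lit 0) (nat_lit 0) (nat_lit 0) (nat_lit 0x8017985b4) (nat_lit 536870912)]
noncomputable def e32_16 : List Rx := [
  Rx.mk (nat_lit 84) (nat_lit 4) (nat_lit 2) (nat_lit 1) (nat_lit 6) (nat_lit 310) (nat_lit 216) r6_310 r8_216 (nat_lit 11102784) (nat_lit 0) (nat_lit 0) (nat_lit 0x80e83c530) (nat_lit 535184746),
  Rx.mk (nat_lit 85) (nat_lit 5) (nat_lit 2) (nat_lit 1) (nat_lit 7) (nat_lit 312) (nat_lit 217) r6_312 r8_217 (nat_lit 0) (nat_lit 0) (nat_lit 0) (nat_lit 0x8017985b4) (nat_lit 536870912),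
  Rx.mk (nat_lit 116) (nat_lit 4) (nat_lit 6) (nat_lit 1) (nat_lit 6) (nat_lit 311) (nat_lit 214) r6_311 r8_214 (nat_lit 24741287) (nat_lit 0) (nat_lit 0) (nat_lit 0x8017985b4) (nat_lit 561612199),
  Rx.mk (nat_lit 117) (nat_lit 5) (nat_lit 6) (nat_lit 1) (nat_lit 7) (nat_lit 313) (nat_lit 215) r6_313 r8_215 (nat_lit 0) (nat_lit 0) (nat_lit 0) (nat_lit 0x8017985b4) (nat_lit 536870912)]
noncomputable def e32_17 : List Rx := [
  Rx.mk (nat_lit 84) (nat_lit 4) (nat_lit 2) (nat_lit 1) (nat_lit 6) (nat_lit 314) (nat_lit 219) r6_314 r9_219 (nat_lit 24741287) (nat_lit 0) (nat_lit 0) (nat_lit 0x7fbf624bc) (nat_lit 567020899),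
  Rx.mk (nat_lit 85) (nat_lit 5) (nat_lit 2) (nat_lit 1) (nat_lit 7) (nat_lit 316) (nat_lit 221) r6_316 r9_221 (nat_lit 0) (nat_lit 0) (nat_lit 0) (nat_lit 0x8017985b4) (nat_lit 536870912),
  Rx.mk (nat_lit 340) (nat_lit 4) (nat_lit 2) (nat_lit 5) (nat_lit 6) (nat_lit 315) (nat_lit 220) r6_315 r9_220 (nat_lit 25547425) (nat_lit 0) (nat_lit 0) (nat_lit 0x7ed7c15fe) (nat_lit 582171937),
  Rx.mk (nat_lit 341) (nat_lit 5) (nat_lit 2) (nat_lit 5) (nat_lit 7) (nat_lit 317) (nat_lit 222) r6_317 r9_222 (nat_lit 0) (nat_lit 0) (nat_lit 0) (nat_lit 0x8017985b4) (nat_lit 536870912),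
  Rx.mk (nat_lit 342) (nat_lit 6) (nat_lit 2) (nat_lit 5) (nat_lit 7) (nat_lit 318) (nat_lit 223) r6_318 r9_223 (nat_lit 0) (nat_lit 0) (nat_lit 0) (nat_lit 0x8017985b4) (nat_lit 536870912)]
noncomputable def e32_18 : List Rx := [
  Rx.mk (nat_lit 20) (nat_lit 4) (nat_lit 2) (nat_lit 0) (nat_lit 2) (nat_lit 337) (nat_lit 220) r6_337 r4_220 (nat_lit 3315579) (nat_lit 0) (nat_lit 4357312) (nat_lit 0x66141debc) (nat_lit 964156353),
  Rx.mk (nat_lit 21) (nat_lit 5) (nat_lit 2) (nat_lit 0) (nat_lit 3) (nat_lit 340) (nat_lit 221) r6_340 r4_221 (nat_lit 0) (nat_lit 0) (nat_lit 9659627) (nat_lit 0x7fc83bdd6) (nat_lit 551234539),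
  Rx.mk (nat_lit 52) (nat_lit 4) (nat_lit 6) (nat_lit 0) (nat_lit 2) (nat_lit 338) (nat_lit 217) r6_338 r4_217 (nat_lit 129197) (nat_lit 0) (nat_lit 164206) (nat_lit 0x795e5323a) (nat_lit 644442165),
  Rx.mk (nat_lit 53) (nat_lit 5) (nat_lit 6) (nat_lit 0) (nat_lit 3) (nat_lit 341) (nat_lit 218) r6_341 r4_218 (nat_lit 0) (nat_lit 0) (nat_lit 12015582) (nat_lit 0x8043b9b16) (nat_lit 546056094),
  Rx.mk (nat_lit 55) (nat_lit 7) (nat_lit 6) (nat_lit 0) (nat_lit 3) (nat_lit 343) (nat_lit 219) r6_343 r4_219 (nat_lit 0) (nat_lit 0) (nat_lit 14660822) (nat_lit 0x80a2e9ac8) (nat_lit 542985584),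
  Rx.mk (nat_lit 212) (nat_lit 4) (nat_lit 2) (nat_lit 3) (nat_lit 6) (nat_lit 339) (nat_lit 222) r6_339 r4_222 (nat_lit 79150) (nat_lit 0) (nat_lit 0) (nat_lit 0x53f546c4e) (nat_lit 1249167362),
  Rx.mk (nat_lit 213) (nat_lit 5) (nat_lit 2) (nat_lit 3) (nat_lit 7) (nat_lit 342) (nat_lit 223) r6_342 r4_223 (nat_lit 0) (nat_lit 0) (nat_lit 0) (nat_lit 0x801c163de) (nat_lit 536140862)]
noncomputable def e32_19 : List Rx := [
  Rx.mk (nat_lit 20) (nat_lit 4) (nat_lit 2) (nat_lit 0) (nat_lit 2) (nat_lit 344) (nat_lit 225) r6_344 r10_225 (nat_lit 2476245) (nat_lit 0) (nat_lit 2379676) (nat_lit 0x72757b8ec) (nat_lit 761113833),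
  Rx.mk (nat_lit 21) (nat_lit 5) (nat_lit 2) (nat_lit 0) (nat_lit 3) (nat_lit 349) (nat_lit 230) r6_349 r10_230 (nat_lit 0) (nat_lit 0) (nat_lit 14712556) (nat_lit 0x80ba6dfaa) (nat_lit 541613868),
  Rx.mk (nat_lit 52) (nat_lit 4) (nat_lit 6) (nat_lit 0) (nat_lit 2) (nat_lit 345) (nat_lit 228) r6_345 r10_228 (nat_lit 2379676) (nat_lit 0) (nat_lit 2476245) (nat_lit 0x72757b8ec) (nat_lit 761113833),
  Rx.mk (nat_lit 53) (nat_lit 5) (nat_lit 6) (nat_lit 0) (nat_lit 3) (nat_lit 350) (nat_lit 233) r6_350 r10_233 (nat_lit 0) (nat_lit 0) (nat_lit 11707184) (nat_lit 0x8125d3a2e) (nat_lit 532088296),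
  Rx.mk (nat_lit 55) (nat_lit 7) (nat_lit 6) (nat_lit 0) (nat_lit 3) (nat_lit 354) (nat_lit 235) r6_354 r10_235 (nat_lit 0) (nat_lit 0) (nat_lit 11706733) (nat_lit 0x8125d7dc2) (nat_lit 532086845),
  Rx.mk (nat_lit 84) (nat_lit 4) (nat_lit 2) (nat_lit 1) (nat_lit 6) (nat_lit 346) (nat_lit 226) r6_346 r10_226 (nat_lit 11707184) (nat_lit 0) (nat_lit 0) (nat_lit 0x8125d3a2e) (nat_lit 532088296),
  Rx.mk (nat_lit 85) (nat_lit 5) (nat_lit 2) (nat_lit 1) (nat_lit 7) (nat_lit 351) (nat_lit 231) r6_351 r10_231 (nat_lit 0) (nat_lit 0) (nat_lit 0) (nat_lit 0x8017985b4) (nat_lit 536870912),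
  Rx.mk (nat_lit 116) (nat_lit 4) (nat_lit 6) (nat_lit 1) (nat_lit 6) (nat_lit 347) (nat_lit 229) r6_347 r10_229 (nat_lit 14712556) (nat_lit 0) (nat_lit 0) (nat_lit 0x80ba6dfaa) (nat_lit 541613868),
  Rx.mk (nat_lit 117) (nat_lit 5) (nat_lit 6) (nat_lit 1) (nat_lit 7) (nat_lit 352) (nat_lit 234) r6_352 r10_234 (nat_lit 0) (nat_lit 0) (nat_lit 0) (nat_lit 0x8017985b4) (nat_lit 536870912),
  Rx.mk (nat_lit 119) (nat_lit 7) (nat_lit 6) (nat_lit 1) (nat_lit 7) (nat_lit 355) (nat_lit 236) r6_355 r10_236 (nat_lit 0) (nat_lit 0) (nat_lit 0) (nat_lit 0x8017985b4) (nat_lit 536870912),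
  Rx.mk (nat_lit 212) (nat_lit 4) (nat_lit 2) (nat_lit 3) (nat_lit 6) (nat_lit 348) (nat_lit 227) r6_348 r10_227 (nat_lit 11706733) (nat_lit 0) (nat_lit 0) (nat_lit 0x8125d7dc2) (nat_lit 532086845),
  Rx.mk (nat_lit 213) (nat_lit 5) (nat_lit 2) (nat_lit 3) (nat_lit 7) (nat_lit 353) (nat_lit 232) r6_353 r10_232 (nat_lit 0) (nat_lit 0) (nat_lit 0) (nat_lit 0x8017985b4) (nat_lit 536870912)]
noncomputable def e32_20 : List Rx := [
  Rx.mk (nat_lit 52) (nat_lit 4) (nat_lit 6) (nat_lit 0) (nat_lit 2) (nat_lit 356) (nat_lit 267) r6_356 r11_267 (nat_lit 5190488) (nat_lit 0) (nat_lit 5930575) (nat_lit 0x76ef41074) (nat_lit 695185625),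
  Rx.mk (nat_lit 53) (nat_lit 5) (nat_lit 6) (nat_lit 0) (nat_lit 3) (nat_lit 359) (nat_lit 270) r6_359 r11_270 (nat_lit 0) (nat_lit 0) (nat_lit 17138393) (nat_lit 0x806f00630) (nat_lit 548606105),
  Rx.mk (nat_lit 55) (nat_lit 7) (nat_lit 6) (nat_lit 0) (nat_lit 3) (nat_lit 362) (nat_lit 272) r6_362 r11_272 (nat_lit 0) (nat_lit 0) (nat_lit 24741287) (nat_lit 0x8017985b4) (nat_lit 561612199),
  Rx.mk (nat_lit 212) (nat_lit 4) (nat_lit 2) (nat_lit 3) (nat_lit 6) (nat_lit 357) (nat_lit 266) r6_357 r11_266 (nat_lit 4488265) (nat_lit 0) (nat_lit 0) (nat_lit 0x805dc6720) (nat_lit 536687177),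
  Rx.mk (nat_lit 213) (nat_lit 5) (nat_lit 2) (nat_lit 3) (nat_lit 7) (nat_lit 360) (nat_lit 269) r6_360 r11_269 (nat_lit 0) (nat_lit 0) (nat_lit 0) (nat_lit 0x84800501c) (nat_lit 468941562),
  Rx.mk (nat_lit 244) (nat_lit 4) (nat_lit 6) (nat_lit 3) (nat_lit 6) (nat_lit 358) (nat_lit 268) r6_358 r11_268 (nat_lit 18945663) (nat_lit 0) (nat_lit 0) (nat_lit 0x804f12fb2) (nat_lit 552405325),
  Rx.mk (nat_lit 245) (nat_lit 5) (nat_lit 6) (nat_lit 3) (nat_lit 7) (nat_lit 361) (nat_lit 271) r6_361 r11_271 (nat_lit 0) (nat_lit 0) (nat_lit 0) (nat_lit 0x8017985b4) (nat_lit 536870912)]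
noncomputable def e32_21 : List Rx := [
  Rx.mk (nat_lit 326) (nat_lit 6) (nat_lit 0) (nat_lit 5) (nat_lit 5) (nat_lit 319) (nat_lit 241) r6_319 r9_241 (nat_lit 0) (nat_lit 25123569) (nat_lit 0) (nat_lit 0x7f345289a) (nat_lit 575983031),
  Rx.mk (nat_lit 334) (nat_lit 6) (nat_lit 1) (nat_lit 5) (nat_lit 7) (nat_lit 320) (nat_lit 242) r6_320 r9_242 (nat_lit 0) (nat_lit 0) (nat_lit 0) (nat_lit 0x8017985b4) (nat_lit 536870912),
  Rx.mk (nat_lit 342) (nat_lit 6) (nat_lit 2) (nat_lit 5) (nat_lit 7) (nat_lit 321) (nat_lit 243) r6_321 r9_243 (nat_lit 0) (nat_lit 0) (nat_lit 0) (nat_lit 0x8017985b4) (nat_lit 536870912)]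
noncomputable def e32_22 : List Rx := [
  Rx.mk (nat_lit 262) (nat_lit 6) (nat_lit 0) (nat_lit 4) (nat_lit 1) (nat_lit 51) (nat_lit 82) r6_51 r0_82 (nat_lit 0) (nat_lit 1834824) (nat_lit 2752324) (nat_lit 0x5acd8ab40) (nat_lit 1143327010),
  Rx.mk (nat_lit 270) (nat_lit 6) (nat_lit 1) (nat_lit 4) (nat_lit 3) (nat_lit 52) (nat_lit 83) r6_52 r0_83 (nat_lit 0) (nat_lit 0) (nat_lit 13075147) (nat_lit 0x78e3d9b80) (nat_lit 665603759),
  Rx.mk (nat_lit 278) (nat_lit 6) (nat_lit 2) (nat_lit 4) (nat_lit 3) (nat_lit 53) (nat_lit 84) r6_53 r0_84 (nat_lit 0) (nat_lit 0) (nat_lit 9488112) (nat_lit 0x7869953b0) (nat_lit 669747474),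
  Rx.mk (nat_lit 386) (nat_lit 2) (nat_lit 0) (nat_lit 6) (nat_lit 5) (nat_lit 49) (nat_lit 85) r6_49 r0_85 (nat_lit 0) (nat_lit 4982960) (nat_lit 0) (nat_lit 0x7f97fd5b6) (nat_lit 549398922),
  Rx.mk (nat_lit 390) (nat_lit 6) (nat_lit 0) (nat_lit 6) (nat_lit 5) (nat_lit 54) (nat_lit 87) r6_54 r0_87 (nat_lit 0) (nat_lit 18629772) (nat_lit 0) (nat_lit 0x7b316cfbc) (nat_lit 634046784),
  Rx.mk (nat_lit 394) (nat_lit 2) (nat_lit 1) (nat_lit 6) (nat_lit 7) (nat_lit 50) (nat_lit 86) r6_50 r0_86 (nat_lit 0) (nat_lit 0) (nat_lit 0) (nat_lit 0x8ecace6ac) (nat_lit 311796962),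
  Rx.mk (nat_lit 398) (nat_lit 6) (nat_lit 1) (nat_lit 6) (nat_lit 7) (nat_lit 55) (nat_lit 88) r6_55 r0_88 (nat_lit 0) (nat_lit 0) (nat_lit 0) (nat_lit 0x8116bf43e) (nat_lit 521295912)]
noncomputable def e32_23 : List Rx := [
  Rx.mk (nat_lit 270) (nat_lit 6) (nat_lit 1) (nat_lit 4) (nat_lit 3) (nat_lit 57) (nat_lit 88) r6_57 r1_88 (nat_lit 0) (nat_lit 0) (nat_lit 14248724) (nat_lit 0x80a26753c) (nat_lit 542542486),
  Rx.mk (nat_lit 394) (nat_lit 2) (nat_lit 1) (nat_lit 6) (nat_lit 7) (nat_lit 56) (nat_lit 89) r6_56 r1_89 (nat_lit 0) (nat_lit 0) (nat_lit 0) (nat_lit 0x8954d7890) (nat_lit 395152462),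
  Rx.mk (nat_lit 398) (nat_lit 6) (nat_lit 1) (nat_lit 6) (nat_lit 7) (nat_lit 58) (nat_lit 90) r6_58 r1_90 (nat_lit 0) (nat_lit 0) (nat_lit 0) (nat_lit 0x80add07a2) (nat_lit 527662962)]
noncomputable def e32_24 : List Rx := [
  Rx.mk (nat_lit 262) (nat_lit 6) (nat_lit 0) (nat_lit 4) (nat_lit 1) (nat_lit 62) (nat_lit 78) r6_62 r4_78 (nat_lit 0) (nat_lit 2670845) (nat_lit 3814909) (nat_lit 0x6861eb944) (nat_lit 925706566),
  Rx.mk (nat_lit 270) (nat_lit 6) (nat_lit 1) (nat_lit 4) (nat_lit 3) (nat_lit 63) (nat_lit 79) r6_63 r4_79 (nat_lit 0) (nat_lit 0) (nat_lit 9313182) (nat_lit 0x8051e9268) (nat_lit 542445944),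
  Rx.mk (nat_lit 278) (nat_lit 6) (nat_lit 2) (nat_lit 4) (nat_lit 3) (nat_lit 64) (nat_lit 80) r6_64 r4_80 (nat_lit 0) (nat_lit 0) (nat_lit 10422876) (nat_lit 0x7e366a3fe) (nat_lit 577077388),
  Rx.mk (nat_lit 386) (nat_lit 2) (nat_lit 0) (nat_lit 6) (nat_lit 5) (nat_lit 59) (nat_lit 84) r6_59 r4_84 (nat_lit 0) (nat_lit 5828454) (nat_lit 0) (nat_lit 0x7fc27fd8e) (nat_lit 547632616),
  Rx.mk (nat_lit 390) (nat_lit 6) (nat_lit 0) (nat_lit 6) (nat_lit 5) (nat_lit 65) (nat_lit 87) r6_65 r4_87 (nat_lit 0) (nat_lit 9821827) (nat_lit 0) (nat_lit 0x7fc4fda48) (nat_lit 551627389),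
  Rx.mk (nat_lit 394) (nat_lit 2) (nat_lit 1) (nat_lit 6) (nat_lit 7) (nat_lit 60) (nat_lit 85) r6_60 r4_85 (nat_lit 0) (nat_lit 0) (nat_lit 0) (nat_lit 0x80fddf1bc) (nat_lit 522806362),
  Rx.mk (nat_lit 398) (nat_lit 6) (nat_lit 1) (nat_lit 6) (nat_lit 7) (nat_lit 66) (nat_lit 88) r6_66 r4_88 (nat_lit 0) (nat_lit 0) (nat_lit 0) (nat_lit 0x8046420c2) (nat_lit 534001662),
  Rx.mk (nat_lit 410) (nat_lit 2) (nat_lit 3) (nat_lit 6) (nat_lit 7) (nat_lit 61) (nat_lit 86) r6_61 r4_86 (nat_lit 0) (nat_lit 0) (nat_lit 0) (nat_lit 0x80efb1ee6) (nat_lit 523668462),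
  Rx.mk (nat_lit 454) (nat_lit 6) (nat_lit 0) (nat_lit 7) (nat_lit 5) (nat_lit 67) (nat_lit 81) r6_67 r4_81 (nat_lit 0) (nat_lit 136651) (nat_lit 0) (nat_lit 0x6297d7fc2) (nat_lit 1012582363),
  Rx.mk (nat_lit 462) (nat_lit 6) (nat_lit 1) (nat_lit 7) (nat_lit 7) (nat_lit 68) (nat_lit 82) r6_68 r4_82 (nat_lit 0) (nat_lit 0) (nat_lit 0) (nat_lit 0x80f6273ca) (nat_lit 522994062),
  Rx.mk (nat_lit 470) (nat_lit 6) (nat_lit 2) (nat_lit 7) (nat_lit 7) (nat_lit 69) (nat_lit 83) r6_69 r4_83 (nat_lit 0) (nat_lit 0) (nat_lit 0) (nat_lit 0x80d433d36) (nat_lit 525049262)]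
noncomputable def e32_25 : List Rx := [
  Rx.mk (nat_lit 262) (nat_lit 6) (nat_lit 0) (nat_lit 4) (nat_lit 1) (nat_lit 195) (nat_lit 293) r6_195 r7_293 (nat_lit 0) (nat_lit 3103288) (nat_lit 3417910) (nat_lit 0x6f0f18210) (nat_lit 817792160),
  Rx.mk (nat_lit 270) (nat_lit 6) (nat_lit 1) (nat_lit 4) (nat_lit 3) (nat_lit 196) (nat_lit 297) r6_196 r7_297 (nat_lit 0) (nat_lit 0) (nat_lit 12588522) (nat_lit 0x8109aaa8c) (nat_lit 534683584),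
  Rx.mk (nat_lit 278) (nat_lit 6) (nat_lit 2) (nat_lit 4) (nat_lit 3) (nat_lit 197) (nat_lit 301) r6_197 r7_301 (nat_lit 0) (nat_lit 0) (nat_lit 9429526) (nat_lit 0x80843ba90) (nat_lit 539527188),
  Rx.mk (nat_lit 326) (nat_lit 6) (nat_lit 0) (nat_lit 5) (nat_lit 5) (nat_lit 198) (nat_lit 294) r6_198 r7_294 (nat_lit 0) (nat_lit 10382740) (nat_lit 0) (nat_lit 0x817f374a8) (nat_lit 525372102),
  Rx.mk (nat_lit 334) (nat_lit 6) (nat_lit 1) (nat_lit 5) (nat_lit 7) (nat_lit 199) (nat_lit 298) r6_199 r7_298 (nat_lit 0) (nat_lit 0) (nat_lit 0) (nat_lit 0x806259ae4) (nat_lit 532286612),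
  Rx.mk (nat_lit 342) (nat_lit 6) (nat_lit 2) (nat_lit 5) (nat_lit 7) (nat_lit 200) (nat_lit 302) r6_200 r7_302 (nat_lit 0) (nat_lit 0) (nat_lit 0) (nat_lit 0x80e84372c) (nat_lit 524123412),
  Rx.mk (nat_lit 386) (nat_lit 2) (nat_lit 0) (nat_lit 6) (nat_lit 5) (nat_lit 193) (nat_lit 296) r6_193 r7_296 (nat_lit 0) (nat_lit 8290090) (nat_lit 0) (nat_lit 0x80c4482e6) (nat_lit 534483002),
  Rx.mk (nat_lit 390) (nat_lit 6) (nat_lit 0) (nat_lit 6) (nat_lit 5) (nat_lit 201) (nat_lit 295) r6_201 r7_295 (nat_lit 0) (nat_lit 24741287) (nat_lit 0) (nat_lit 0x7f4e81a9a) (nat_lit 574017999),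
  Rx.mk (nat_lit 394) (nat_lit 2) (nat_lit 1) (nat_lit 6) (nat_lit 7) (nat_lit 194) (nat_lit 300) r6_194 r7_300 (nat_lit 0) (nat_lit 0) (nat_lit 0) (nat_lit 0x810efde94) (nat_lit 521774762),
  Rx.mk (nat_lit 398) (nat_lit 6) (nat_lit 1) (nat_lit 6) (nat_lit 7) (nat_lit 202) (nat_lit 299) r6_202 r7_299 (nat_lit 0) (nat_lit 0) (nat_lit 0) (nat_lit 0x8017985b4) (nat_lit 536870912)]
noncomputable def e32_26 : List Rx := [
  Rx.mk (nat_lit 270) (nat_lit 6) (nat_lit 1) (nat_lit 4) (nat_lit 3) (nat_lit 207) (nat_lit 221) r6_207 r8_221 (nat_lit 0) (nat_lit 0) (nat_lit 24741287) (nat_lit 0x8017985b4) (nat_lit 561612199),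
  Rx.mk (nat_lit 334) (nat_lit 6) (nat_lit 1) (nat_lit 5) (nat_lit 7) (nat_lit 208) (nat_lit 222) r6_208 r8_222 (nat_lit 0) (nat_lit 0) (nat_lit 0) (nat_lit 0x8017985b4) (nat_lit 536870912),
  Rx.mk (nat_lit 394) (nat_lit 2) (nat_lit 1) (nat_lit 6) (nat_lit 7) (nat_lit 206) (nat_lit 224) r6_206 r8_224 (nat_lit 0) (nat_lit 0) (nat_lit 0) (nat_lit 0x805730f46) (nat_lit 532963862),
  Rx.mk (nat_lit 398) (nat_lit 6) (nat_lit 1) (nat_lit 6) (nat_lit 7) (nat_lit 209) (nat_lit 223) r6_209 r8_223 (nat_lit 0) (nat_lit 0) (nat_lit 0) (nat_lit 0x8017985b4) (nat_lit 536870912)]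
noncomputable def e32_27 : List Rx := [
  Rx.mk (nat_lit 326) (nat_lit 6) (nat_lit 0) (nat_lit 5) (nat_lit 5) (nat_lit 203) (nat_lit 71) r6_203 r8_71 (nat_lit 0) (nat_lit 11276317) (nat_lit 0) (nat_lit 0x80f41308e) (nat_lit 534645879),
  Rx.mk (nat_lit 334) (nat_lit 6) (nat_lit 1) (nat_lit 5) (nat_lit 7) (nat_lit 204) (nat_lit 72) r6_204 r8_72 (nat_lit 0) (nat_lit 0) (nat_lit 0) (nat_lit 0x8017985b4) (nat_lit 536870912),
  Rx.mk (nat_lit 342) (nat_lit 6) (nat_lit 2) (nat_lit 5) (nat_lit 7) (nat_lit 205) (nat_lit 73) r6_205 r8_73 (nat_lit 0) (nat_lit 0) (nat_lit 0) (nat_lit 0x80607f5fc) (nat_lit 532392712)]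
noncomputable def e32_28 : List Rx := [
  Rx.mk (nat_lit 262) (nat_lit 6) (nat_lit 0) (nat_lit 4) (nat_lit 1) (nat_lit 213) (nat_lit 244) r6_213 r10_244 (nat_lit 0) (nat_lit 3437710) (nat_lit 3908311) (nat_lit 0x70b62ad72) (nat_lit 791927083),
  Rx.mk (nat_lit 270) (nat_lit 6) (nat_lit 1) (nat_lit 4) (nat_lit 3) (nat_lit 214) (nat_lit 249) r6_214 r10_249 (nat_lit 0) (nat_lit 0) (nat_lit 18189542) (nat_lit 0x807407840) (nat_lit 549393204),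
  Rx.mk (nat_lit 278) (nat_lit 6) (nat_lit 2) (nat_lit 4) (nat_lit 3) (nat_lit 215) (nat_lit 254) r6_215 r10_254 (nat_lit 0) (nat_lit 0) (nat_lit 8452867) (nat_lit 0x80ffe1c3a) (nat_lit 531055429),
  Rx.mk (nat_lit 326) (nat_lit 6) (nat_lit 0) (nat_lit 5) (nat_lit 5) (nat_lit 216) (nat_lit 245) r6_216 r10_245 (nat_lit 0) (nat_lit 14773968) (nat_lit 0) (nat_lit 0x80be7a56c) (nat_lit 541432730),
  Rx.mk (nat_lit 342) (nat_lit 6) (nat_lit 2) (nat_lit 5) (nat_lit 7) (nat_lit 217) (nat_lit 255) r6_217 r10_255 (nat_lit 0) (nat_lit 0) (nat_lit 0) (nat_lit 0x80d199d14) (nat_lit 525495962),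
  Rx.mk (nat_lit 386) (nat_lit 2) (nat_lit 0) (nat_lit 6) (nat_lit 5) (nat_lit 210) (nat_lit 248) r6_210 r10_248 (nat_lit 0) (nat_lit 9336562) (nat_lit 0) (nat_lit 0x80cea0392) (nat_lit 534941174),
  Rx.mk (nat_lit 390) (nat_lit 6) (nat_lit 0) (nat_lit 6) (nat_lit 5) (nat_lit 218) (nat_lit 247) r6_218 r10_247 (nat_lit 0) (nat_lit 24741287) (nat_lit 0) (nat_lit 0x7f68b2360) (nat_lit 572388699),
  Rx.mk (nat_lit 394) (nat_lit 2) (nat_lit 1) (nat_lit 6) (nat_lit 7) (nat_lit 211) (nat_lit 252) r6_211 r10_252 (nat_lit 0) (nat_lit 0) (nat_lit 0) (nat_lit 0x80d032dc2) (nat_lit 525585862),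
  Rx.mk (nat_lit 398) (nat_lit 6) (nat_lit 1) (nat_lit 6) (nat_lit 7) (nat_lit 219) (nat_lit 251) r6_219 r10_251 (nat_lit 0) (nat_lit 0) (nat_lit 0) (nat_lit 0x8017985b4) (nat_lit 536870912),
  Rx.mk (nat_lit 410) (nat_lit 2) (nat_lit 3) (nat_lit 6) (nat_lit 7) (nat_lit 212) (nat_lit 253) r6_212 r10_253 (nat_lit 0) (nat_lit 0) (nat_lit 0) (nat_lit 0x80d033132) (nat_lit 525585812),
  Rx.mk (nat_lit 454) (nat_lit 6) (nat_lit 0) (nat_lit 7) (nat_lit 5) (nat_lit 220) (nat_lit 246) r6_220 r10_246 (nat_lit 0) (nat_lit 14995754) (nat_lit 0) (nat_lit 0x80820fd34) (nat_lit 545312416),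
  Rx.mk (nat_lit 462) (nat_lit 6) (nat_lit 1) (nat_lit 7) (nat_lit 7) (nat_lit 221) (nat_lit 250) r6_221 r10_250 (nat_lit 0) (nat_lit 0) (nat_lit 0) (nat_lit 0x8017985b4) (nat_lit 536870912),
  Rx.mk (nat_lit 470) (nat_lit 6) (nat_lit 2) (nat_lit 7) (nat_lit 7) (nat_lit 222) (nat_lit 256) r6_222 r10_256 (nat_lit 0) (nat_lit 0) (nat_lit 0) (nat_lit 0x80d1999d6) (nat_lit 525496012)]
noncomputable def e32_29 : List Rx := [
  Rx.mk (nat_lit 454) (nat_lit 6) (nat_lit 0) (nat_lit 7) (nat_lit 5) (nat_lit 254) (nat_lit 284) r6_254 r11_284 (nat_lit 0) (nat_lit 4181752) (nat_lit 0) (nat_lit 0x80bce2e16) (nat_lit 530625764),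
  Rx.mk (nat_lit 462) (nat_lit 6) (nat_lit 1) (nat_lit 7) (nat_lit 7) (nat_lit 255) (nat_lit 285) r6_255 r11_285 (nat_lit 0) (nat_lit 0) (nat_lit 0) (nat_lit 0x84db9c5a6) (nat_lit 463462512),
  Rx.mk (nat_lit 470) (nat_lit 6) (nat_lit 2) (nat_lit 7) (nat_lit 7) (nat_lit 256) (nat_lit 286) r6_256 r11_286 (nat_lit 0) (nat_lit 0) (nat_lit 0) (nat_lit 0x8558f78ac) (nat_lit 456022662)]
noncomputable def e32_30 : List Rx := [
  Rx.mk (nat_lit 20) (nat_lit 4) (nat_lit 2) (nat_lit 0) (nat_lit 2) (nat_lit 363) (nat_lit 232) r6_363 r5_232 (nat_lit 1266917) (nat_lit 0) (nat_lit 1379852) (nat_lit 0x7a2fc99c2) (nat_lit 633790631),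
  Rx.mk (nat_lit 23) (nat_lit 7) (nat_lit 2) (nat_lit 0) (nat_lit 3) (nat_lit 365) (nat_lit 233) r6_365 r5_233 (nat_lit 0) (nat_lit 0) (nat_lit 4400993) (nat_lit 0x831fc2ff2) (nat_lit 494248105),
  Rx.mk (nat_lit 55) (nat_lit 7) (nat_lit 6) (nat_lit 0) (nat_lit 3) (nat_lit 366) (nat_lit 231) r6_366 r5_231 (nat_lit 0) (nat_lit 0) (nat_lit 64873) (nat_lit 0x800bef67c) (nat_lit 536253635),
  Rx.mk (nat_lit 212) (nat_lit 4) (nat_lit 2) (nat_lit 3) (nat_lit 6) (nat_lit 364) (nat_lit 234) r6_364 r5_234 (nat_lit 745573) (nat_lit 0) (nat_lit 0) (nat_lit 0x806c92614) (nat_lit 531405435)]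
noncomputable def e32_31 : List Rx := [
  Rx.mk (nat_lit 20) (nat_lit 4) (nat_lit 2) (nat_lit 0) (nat_lit 2) (nat_lit 367) (nat_lit 267) r6_367 r11_267 (nat_lit 5930575) (nat_lit 0) (nat_lit 5190488) (nat_lit 0x76ef41074) (nat_lit 695185625),
  Rx.mk (nat_lit 23) (nat_lit 7) (nat_lit 2) (nat_lit 0) (nat_lit 3) (nat_lit 370) (nat_lit 268) r6_370 r11_268 (nat_lit 0) (nat_lit 0) (nat_lit 18945663) (nat_lit 0x804f12fb2) (nat_lit 552405325),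
  Rx.mk (nat_lit 55) (nat_lit 7) (nat_lit 6) (nat_lit 0) (nat_lit 3) (nat_lit 371) (nat_lit 266) r6_371 r11_266 (nat_lit 0) (nat_lit 0) (nat_lit 4488265) (nat_lit 0x805dc6720) (nat_lit 536687177),
  Rx.mk (nat_lit 84) (nat_lit 4) (nat_lit 2) (nat_lit 1) (nat_lit 6) (nat_lit 368) (nat_lit 270) r6_368 r11_270 (nat_lit 17138393) (nat_lit 0) (nat_lit 0) (nat_lit 0x806f00630) (nat_lit 548606105),
  Rx.mk (nat_lit 87) (nat_lit 7) (nat_lit 2) (nat_lit 1) (nat_lit 7) (nat_lit 372) (nat_lit 271) r6_372 r11_271 (nat_lit 0) (nat_lit 0) (nat_lit 0) (nat_lit 0x8017985b4) (nat_lit 536870912),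
  Rx.mk (nat_lit 119) (nat_lit 7) (nat_lit 6) (nat_lit 1) (nat_lit 7) (nat_lit 373) (nat_lit 269) r6_373 r11_269 (nat_lit 0) (nat_lit 0) (nat_lit 0) (nat_lit 0x84800501c) (nat_lit 468941562),
  Rx.mk (nat_lit 212) (nat_lit 4) (nat_lit 2) (nat_lit 3) (nat_lit 6) (nat_lit 369) (nat_lit 272) r6_369 r11_272 (nat_lit 24741287) (nat_lit 0) (nat_lit 0) (nat_lit 0x8017985b4) (nat_lit 561612199)]
noncomputable def e32_32 : List Rx := [
  Rx.mk (nat_lit 51) (nat_lit 3) (nat_lit 6) (nat_lit 0) (nat_lit 3) (nat_lit 74) (nat_lit 80) r6_74 r6_80 (nat_lit 0) (nat_lit 0) (nat_lit 76275) (nat_lit 0x800fab450) (nat_lit 536056587),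
  Rx.mk (nat_lit 163) (nat_lit 3) (nat_lit 4) (nat_lit 2) (nat_lit 5) (nat_lit 75) (nat_lit 82) r6_75 r6_82 (nat_lit 0) (nat_lit 152124) (nat_lit 0) (nat_lit 0x7f97972ac) (nat_lit 543671286),
  Rx.mk (nat_lit 179) (nat_lit 3) (nat_lit 6) (nat_lit 2) (nat_lit 7) (nat_lit 76) (nat_lit 84) r6_76 r6_84 (nat_lit 0) (nat_lit 0) (nat_lit 0) (nat_lit 0x803a62b4e) (nat_lit 533579562),
  Rx.mk (nat_lit 184) (nat_lit 0) (nat_lit 7) (nat_lit 2) (nat_lit 6) (nat_lit 70) (nat_lit 79) r6_70 r6_79 (nat_lit 76275) (nat_lit 0) (nat_lit 0) (nat_lit 0x800fab450) (nat_lit 536056587),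
  Rx.mk (nat_lit 186) (nat_lit 2) (nat_lit 7) (nat_lit 2) (nat_lit 7) (nat_lit 71) (nat_lit 87) r6_71 r6_87 (nat_lit 0) (nat_lit 0) (nat_lit 0) (nat_lit 0x730ac3224) (nat_lit 747014662),
  Rx.mk (nat_lit 187) (nat_lit 3) (nat_lit 7) (nat_lit 2) (nat_lit 7) (nat_lit 77) (nat_lit 83) r6_77 r6_83 (nat_lit 0) (nat_lit 0) (nat_lit 0) (nat_lit 0x803a62b4e) (nat_lit 533579562),
  Rx.mk (nat_lit 215) (nat_lit 7) (nat_lit 2) (nat_lit 3) (nat_lit 7) (nat_lit 85) (nat_lit 73) r6_85 r6_73 (nat_lit 0) (nat_lit 0) (nat_lit 0) (nat_lit 0x7fccb13b6) (nat_lit 540272512),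
  Rx.mk (nat_lit 243) (nat_lit 3) (nat_lit 6) (nat_lit 3) (nat_lit 7) (nat_lit 78) (nat_lit 81) r6_78 r6_81 (nat_lit 0) (nat_lit 0) (nat_lit 0) (nat_lit 0x730ac3224) (nat_lit 747014662),
  Rx.mk (nat_lit 247) (nat_lit 7) (nat_lit 6) (nat_lit 3) (nat_lit 7) (nat_lit 86) (nat_lit 72) r6_86 r6_72 (nat_lit 0) (nat_lit 0) (nat_lit 0) (nat_lit 0x7fccb13b6) (nat_lit 540272512),
  Rx.mk (nat_lit 286) (nat_lit 6) (nat_lit 3) (nat_lit 4) (nat_lit 3) (nat_lit 80) (nat_lit 74) r6_80 r6_74 (nat_lit 0) (nat_lit 0) (nat_lit 76275) (nat_lit 0x800fab450) (nat_lit 536056587),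
  Rx.mk (nat_lit 410) (nat_lit 2) (nat_lit 3) (nat_lit 6) (nat_lit 7) (nat_lit 72) (nat_lit 86) r6_72 r6_86 (nat_lit 0) (nat_lit 0) (nat_lit 0) (nat_lit 0x7fccb13b6) (nat_lit 540272512),
  Rx.mk (nat_lit 414) (nat_lit 6) (nat_lit 3) (nat_lit 6) (nat_lit 7) (nat_lit 81) (nat_lit 78) r6_81 r6_78 (nat_lit 0) (nat_lit 0) (nat_lit 0) (nat_lit 0x730ac3224) (nat_lit 747014662),
  Rx.mk (nat_lit 442) (nat_lit 2) (nat_lit 7) (nat_lit 6) (nat_lit 7) (nat_lit 73) (nat_lit 85) r6_73 r6_85 (nat_lit 0) (nat_lit 0) (nat_lit 0) (nat_lit 0x7fccb13b6) (nat_lit 540272512),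
  Rx.mk (nat_lit 454) (nat_lit 6) (nat_lit 0) (nat_lit 7) (nat_lit 5) (nat_lit 82) (nat_lit 75) r6_82 r6_75 (nat_lit 0) (nat_lit 152124) (nat_lit 0) (nat_lit 0x7f97972ac) (nat_lit 543671286),
  Rx.mk (nat_lit 468) (nat_lit 4) (nat_lit 2) (nat_lit 7) (nat_lit 6) (nat_lit 79) (nat_lit 70) r6_79 r6_70 (nat_lit 76275) (nat_lit 0) (nat_lit 0) (nat_lit 0x800fab450) (nat_lit 536056587),
  Rx.mk (nat_lit 470) (nat_lit 6) (nat_lit 2) (nat_lit 7) (nat_lit 7) (nat_lit 83) (nat_lit 77) r6_83 r6_77 (nat_lit 0) (nat_lit 0) (nat_lit 0) (nat_lit 0x803a62b4e) (nat_lit 533579562),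
  Rx.mk (nat_lit 471) (nat_lit 7) (nat_lit 2) (nat_lit 7) (nat_lit 7) (nat_lit 87) (nat_lit 71) r6_87 r6_71 (nat_lit 0) (nat_lit 0) (nat_lit 0) (nat_lit 0x730ac3224) (nat_lit 747014662),
  Rx.mk (nat_lit 478) (nat_lit 6) (nat_lit 3) (nat_lit 7) (nat_lit 7) (nat_lit 84) (nat_lit 76) r6_84 r6_76 (nat_lit 0) (nat_lit 0) (nat_lit 0) (nat_lit 0x803a62b4e) (nat_lit 533579562)]
noncomputable def e32_33 : List Rx := [
  Rx.mk (nat_lit 262) (nat_lit 6) (nat_lit 0) (nat_lit 4) (nat_lit 1) (nat_lit 90) (nat_lit 70) r6_90 r5_70 (nat_lit 0) (nat_lit 151381) (nat_lit 214613) (nat_lit 0x7f84aacac) (nat_lit 545085756),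
  Rx.mk (nat_lit 278) (nat_lit 6) (nat_lit 2) (nat_lit 4) (nat_lit 3) (nat_lit 91) (nat_lit 72) r6_91 r5_72 (nat_lit 0) (nat_lit 0) (nat_lit 7478372) (nat_lit 0x7e7bc2848) (nat_lit 569688734),
  Rx.mk (nat_lit 286) (nat_lit 6) (nat_lit 3) (nat_lit 4) (nat_lit 3) (nat_lit 92) (nat_lit 71) r6_92 r5_71 (nat_lit 0) (nat_lit 0) (nat_lit 5517824) (nat_lit 0x80fe04cf0) (nat_lit 528080236),
  Rx.mk (nat_lit 390) (nat_lit 6) (nat_lit 0) (nat_lit 6) (nat_lit 5) (nat_lit 93) (nat_lit 78) r6_93 r5_78 (nat_lit 0) (nat_lit 14912566) (nat_lit 0) (nat_lit 0x7ad02e7c8) (nat_lit 636403678),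
  Rx.mk (nat_lit 410) (nat_lit 2) (nat_lit 3) (nat_lit 6) (nat_lit 7) (nat_lit 88) (nat_lit 77) r6_88 r5_77 (nat_lit 0) (nat_lit 0) (nat_lit 0) (nat_lit 0x7adbdb5da) (nat_lit 620253362),
  Rx.mk (nat_lit 414) (nat_lit 6) (nat_lit 3) (nat_lit 6) (nat_lit 7) (nat_lit 94) (nat_lit 79) r6_94 r5_79 (nat_lit 0) (nat_lit 0) (nat_lit 0) (nat_lit 0x7df8696ea) (nat_lit 570525862),
  Rx.mk (nat_lit 454) (nat_lit 6) (nat_lit 0) (nat_lit 7) (nat_lit 5) (nat_lit 95) (nat_lit 75) r6_95 r5_75 (nat_lit 0) (nat_lit 506970) (nat_lit 0) (nat_lit 0x8036353fa) (nat_lit 534398782),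
  Rx.mk (nat_lit 468) (nat_lit 4) (nat_lit 2) (nat_lit 7) (nat_lit 6) (nat_lit 89) (nat_lit 73) r6_89 r5_73 (nat_lit 6235362) (nat_lit 0) (nat_lit 0) (nat_lit 0x7e4c9eb16) (nat_lit 571302074),
  Rx.mk (nat_lit 470) (nat_lit 6) (nat_lit 2) (nat_lit 7) (nat_lit 7) (nat_lit 96) (nat_lit 76) r6_96 r5_76 (nat_lit 0) (nat_lit 0) (nat_lit 0) (nat_lit 0x8de7568e8) (nat_lit 325388962),
  Rx.mk (nat_lit 471) (nat_lit 7) (nat_lit 2) (nat_lit 7) (nat_lit 7) (nat_lit 97) (nat_lit 74) r6_97 r5_74 (nat_lit 0) (nat_lit 0) (nat_lit 0) (nat_lit 0x7ffe6318e) (nat_lit 538324412)]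
noncomputable def e32_34 : List Rx := [
  Rx.mk (nat_lit 262) (nat_lit 6) (nat_lit 0) (nat_lit 4) (nat_lit 1) (nat_lit 227) (nat_lit 54) r6_227 r11_54 (nat_lit 0) (nat_lit 8232258) (nat_lit 8887259) (nat_lit 0x752a94a10) (nat_lit 729817329),
  Rx.mk (nat_lit 276) (nat_lit 4) (nat_lit 2) (nat_lit 4) (nat_lit 2) (nat_lit 224) (nat_lit 53) r6_224 r11_53 (nat_lit 17592133) (nat_lit 0) (nat_lit 11453294) (nat_lit 0x79c89e50e) (nat_lit 667174639),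
  Rx.mk (nat_lit 278) (nat_lit 6) (nat_lit 2) (nat_lit 4) (nat_lit 3) (nat_lit 228) (nat_lit 56) r6_228 r11_56 (nat_lit 0) (nat_lit 0) (nat_lit 11833070) (nat_lit 0x80dfff796) (nat_lit 536433782),
  Rx.mk (nat_lit 286) (nat_lit 6) (nat_lit 3) (nat_lit 4) (nat_lit 3) (nat_lit 229) (nat_lit 55) r6_229 r11_55 (nat_lit 0) (nat_lit 0) (nat_lit 20819956) (nat_lit 0x80443f36a) (nat_lit 554944468),
  Rx.mk (nat_lit 326) (nat_lit 6) (nat_lit 0) (nat_lit 5) (nat_lit 5) (nat_lit 230) (nat_lit 58) r6_230 r11_58 (nat_lit 0) (nat_lit 24863851) (nat_lit 0) (nat_lit 0x80051da7e) (nat_lit 562865263),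
  Rx.mk (nat_lit 340) (nat_lit 4) (nat_lit 2) (nat_lit 5) (nat_lit 6) (nat_lit 225) (nat_lit 57) r6_225 r11_57 (nat_lit 23560195) (nat_lit 0) (nat_lit 0) (nat_lit 0x8006b0be8) (nat_lit 561461107),
  Rx.mk (nat_lit 342) (nat_lit 6) (nat_lit 2) (nat_lit 5) (nat_lit 7) (nat_lit 231) (nat_lit 60) r6_231 r11_60 (nat_lit 0) (nat_lit 0) (nat_lit 0) (nat_lit 0x8017985b4) (nat_lit 536870912),
  Rx.mk (nat_lit 350) (nat_lit 6) (nat_lit 3) (nat_lit 5) (nat_lit 7) (nat_lit 232) (nat_lit 59) r6_232 r11_59 (nat_lit 0) (nat_lit 0) (nat_lit 0) (nat_lit 0x8017985b4) (nat_lit 536870912),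
  Rx.mk (nat_lit 390) (nat_lit 6) (nat_lit 0) (nat_lit 6) (nat_lit 5) (nat_lit 233) (nat_lit 66) r6_233 r11_66 (nat_lit 0) (nat_lit 24741287) (nat_lit 0) (nat_lit 0x8017985b4) (nat_lit 561612199),
  Rx.mk (nat_lit 410) (nat_lit 2) (nat_lit 3) (nat_lit 6) (nat_lit 7) (nat_lit 223) (nat_lit 65) r6_223 r11_65 (nat_lit 0) (nat_lit 0) (nat_lit 0) (nat_lit 0x822812b0e) (nat_lit 504804312),
  Rx.mk (nat_lit 414) (nat_lit 6) (nat_lit 3) (nat_lit 6) (nat_lit 7) (nat_lit 234) (nat_lit 67) r6_234 r11_67 (nat_lit 0) (nat_lit 0) (nat_lit 0) (nat_lit 0x8017985b4) (nat_lit 536870912),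
  Rx.mk (nat_lit 454) (nat_lit 6) (nat_lit 0) (nat_lit 7) (nat_lit 5) (nat_lit 235) (nat_lit 63) r6_235 r11_63 (nat_lit 0) (nat_lit 24741287) (nat_lit 0) (nat_lit 0x8017985b4) (nat_lit 561612199),
  Rx.mk (nat_lit 468) (nat_lit 4) (nat_lit 2) (nat_lit 7) (nat_lit 6) (nat_lit 226) (nat_lit 61) r6_226 r11_61 (nat_lit 26850297) (nat_lit 0) (nat_lit 0) (nat_lit 0x80135a3c6) (nat_lit 563945709),
  Rx.mk (nat_lit 470) (nat_lit 6) (nat_lit 2) (nat_lit 7) (nat_lit 7) (nat_lit 236) (nat_lit 64) r6_236 r11_64 (nat_lit 0) (nat_lit 0) (nat_lit 0) (nat_lit 0x8017985b4) (nat_lit 536870912),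
  Rx.mk (nat_lit 471) (nat_lit 7) (nat_lit 2) (nat_lit 7) (nat_lit 7) (nat_lit 237) (nat_lit 62) r6_237 r11_62 (nat_lit 0) (nat_lit 0) (nat_lit 0) (nat_lit 0x8017985b4) (nat_lit 536870912)]
noncomputable def e32_35 : List Rx := [
  Rx.mk (nat_lit 23) (nat_lit 7) (nat_lit 2) (nat_lit 0) (nat_lit 3) (nat_lit 261) (nat_lit 257) r6_261 r6_257 (nat_lit 0) (nat_lit 0) (nat_lit 4142685) (nat_lit 0x7fb361866) (nat_lit 546673497),
  Rx.mk (nat_lit 51) (nat_lit 3) (nat_lit 6) (nat_lit 0) (nat_lit 3) (nat_lit 257) (nat_lit 261) r6_257 r6_261 (nat_lit 0) (nat_lit 0) (nat_lit 4142685) (nat_lit 0x7fb361866) (nat_lit 546673497),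
  Rx.mk (nat_lit 55) (nat_lit 7) (nat_lit 6) (nat_lit 0) (nat_lit 3) (nat_lit 262) (nat_lit 262) r6_262 r6_262 (nat_lit 0) (nat_lit 0) (nat_lit 646033) (nat_lit 0x7f96cb490) (nat_lit 544399195),
  Rx.mk (nat_lit 163) (nat_lit 3) (nat_lit 4) (nat_lit 2) (nat_lit 5) (nat_lit 258) (nat_lit 260) r6_258 r6_260 (nat_lit 0) (nat_lit 444414) (nat_lit 0) (nat_lit 0x7fdf18cb6) (nat_lit 539578826),
  Rx.mk (nat_lit 179) (nat_lit 3) (nat_lit 6) (nat_lit 2) (nat_lit 7) (nat_lit 259) (nat_lit 263) r6_259 r6_263 (nat_lit 0) (nat_lit 0) (nat_lit 0) (nat_lit 0x8541a12d4) (nat_lit 457207412),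
  Rx.mk (nat_lit 212) (nat_lit 4) (nat_lit 2) (nat_lit 3) (nat_lit 6) (nat_lit 260) (nat_lit 258) r6_260 r6_258 (nat_lit 444414) (nat_lit 0) (nat_lit 0) (nat_lit 0x7fdf18cb6) (nat_lit 539578826),
  Rx.mk (nat_lit 215) (nat_lit 7) (nat_lit 2) (nat_lit 3) (nat_lit 7) (nat_lit 263) (nat_lit 259) r6_263 r6_259 (nat_lit 0) (nat_lit 0) (nat_lit 0) (nat_lit 0x8541a12d4) (nat_lit 457207412)]
noncomputable def e32_36 : List Rx := [
  Rx.mk (nat_lit 51) (nat_lit 3) (nat_lit 6) (nat_lit 0) (nat_lit 3) (nat_lit 264) (nat_lit 260) r6_264 r12_260 (nat_lit 0) (nat_lit 0) (nat_lit 580263) (nat_lit 0x7f28ad08a) (nat_lit 551200875),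
  Rx.mk (nat_lit 55) (nat_lit 7) (nat_lit 6) (nat_lit 0) (nat_lit 3) (nat_lit 273) (nat_lit 265) r6_273 r12_265 (nat_lit 0) (nat_lit 0) (nat_lit 136696) (nat_lit 0x7fdc594a8) (nat_lit 539308358),
  Rx.mk (nat_lit 163) (nat_lit 3) (nat_lit 4) (nat_lit 2) (nat_lit 5) (nat_lit 265) (nat_lit 258) r6_265 r12_258 (nat_lit 0) (nat_lit 553755) (nat_lit 0) (nat_lit 0x7fb8fc4c4) (nat_lit 542151267),
  Rx.mk (nat_lit 179) (nat_lit 3) (nat_lit 6) (nat_lit 2) (nat_lit 7) (nat_lit 266) (nat_lit 261) r6_266 r12_261 (nat_lit 0) (nat_lit 0) (nat_lit 0) (nat_lit 0x83d678a8a) (nat_lit 478658912),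
  Rx.mk (nat_lit 187) (nat_lit 3) (nat_lit 7) (nat_lit 2) (nat_lit 7) (nat_lit 267) (nat_lit 259) r6_267 r12_259 (nat_lit 0) (nat_lit 0) (nat_lit 0) (nat_lit 0x82c9245f6) (nat_lit 494708962),
  Rx.mk (nat_lit 212) (nat_lit 4) (nat_lit 2) (nat_lit 3) (nat_lit 6) (nat_lit 268) (nat_lit 262) r6_268 r12_262 (nat_lit 136696) (nat_lit 0) (nat_lit 0) (nat_lit 0x7fdc594a8) (nat_lit 539308358),
  Rx.mk (nat_lit 215) (nat_lit 7) (nat_lit 2) (nat_lit 3) (nat_lit 7) (nat_lit 274) (nat_lit 264) r6_274 r12_264 (nat_lit 0) (nat_lit 0) (nat_lit 0) (nat_lit 0x8008848c0) (nat_lit 536614962),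
  Rx.mk (nat_lit 247) (nat_lit 7) (nat_lit 6) (nat_lit 3) (nat_lit 7) (nat_lit 275) (nat_lit 266) r6_275 r12_266 (nat_lit 0) (nat_lit 0) (nat_lit 0) (nat_lit 0x8008848c0) (nat_lit 536614962),
  Rx.mk (nat_lit 454) (nat_lit 6) (nat_lit 0) (nat_lit 7) (nat_lit 5) (nat_lit 270) (nat_lit 267) r6_270 r12_267 (nat_lit 0) (nat_lit 553755) (nat_lit 0) (nat_lit 0x7fb8fc4c4) (nat_lit 542151267),
  Rx.mk (nat_lit 468) (nat_lit 4) (nat_lit 2) (nat_lit 7) (nat_lit 6) (nat_lit 269) (nat_lit 263) r6_269 r12_263 (nat_lit 580263) (nat_lit 0) (nat_lit 0) (nat_lit 0x7f28ad08a) (nat_lit 551200875),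
  Rx.mk (nat_lit 470) (nat_lit 6) (nat_lit 2) (nat_lit 7) (nat_lit 7) (nat_lit 271) (nat_lit 269) r6_271 r12_269 (nat_lit 0) (nat_lit 0) (nat_lit 0) (nat_lit 0x83d678a8a) (nat_lit 478658912),
  Rx.mk (nat_lit 478) (nat_lit 6) (nat_lit 3) (nat_lit 7) (nat_lit 7) (nat_lit 272) (nat_lit 268) r6_272 r12_268 (nat_lit 0) (nat_lit 0) (nat_lit 0) (nat_lit 0x82c9245f6) (nat_lit 494708962)]
noncomputable def e32_37 : List Rx := [
  Rx.mk (nat_lit 160) (nat_lit 0) (nat_lit 4) (nat_lit 2) (nat_lit 4) (nat_lit 0) (nat_lit 82) r6_0 r0_82 (nat_lit 2752324) (nat_lit 1834824) (nat_lit 0) (nat_lit 0x5acd8ab40) (nat_lit 1143327010),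
  Rx.mk (nat_lit 162) (nat_lit 2) (nat_lit 4) (nat_lit 2) (nat_lit 5) (nat_lit 3) (nat_lit 87) r6_3 r0_87 (nat_lit 0) (nat_lit 18629772) (nat_lit 0) (nat_lit 0x7b316cfbc) (nat_lit 634046784),
  Rx.mk (nat_lit 168) (nat_lit 0) (nat_lit 5) (nat_lit 2) (nat_lit 6) (nat_lit 1) (nat_lit 83) r6_1 r0_83 (nat_lit 13075147) (nat_lit 0) (nat_lit 0) (nat_lit 0x78e3d9b80) (nat_lit 665603759),
  Rx.mk (nat_lit 170) (nat_lit 2) (nat_lit 5) (nat_lit 2) (nat_lit 7) (nat_lit 4) (nat_lit 88) r6_4 r0_88 (nat_lit 0) (nat_lit 0) (nat_lit 0) (nat_lit 0x8116bf43e) (nat_lit 521295912),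
  Rx.mk (nat_lit 176) (nat_lit 0) (nat_lit 6) (nat_lit 2) (nat_lit 6) (nat_lit 2) (nat_lit 84) r6_2 r0_84 (nat_lit 9488112) (nat_lit 0) (nat_lit 0) (nat_lit 0x7869953b0) (nat_lit 669747474),
  Rx.mk (nat_lit 418) (nat_lit 2) (nat_lit 4) (nat_lit 6) (nat_lit 5) (nat_lit 5) (nat_lit 85) r6_5 r0_85 (nat_lit 0) (nat_lit 4982960) (nat_lit 0) (nat_lit 0x7f97fd5b6) (nat_lit 549398922),
  Rx.mk (nat_lit 426) (nat_lit 2) (nat_lit 5) (nat_lit 6) (nat_lit 7) (nat_lit 6) (nat_lit 86) r6_6 r0_86 (nat_lit 0) (nat_lit 0) (nat_lit 0) (nat_lit 0x8ecace6ac) (nat_lit 311796962)]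
noncomputable def e32_38 : List Rx := [
  Rx.mk (nat_lit 48) (nat_lit 0) (nat_lit 6) (nat_lit 0) (nat_lit 2) (nat_lit 98) (nat_lit 232) r6_98 r0_232 (nat_lit 853516) (nat_lit 0) (nat_lit 961472) (nat_lit 0x7527736a6) (nat_lit 714260500),
  Rx.mk (nat_lit 49) (nat_lit 1) (nat_lit 6) (nat_lit 0) (nat_lit 3) (nat_lit 101) (nat_lit 233) r6_101 r0_233 (nat_lit 0) (nat_lit 0) (nat_lit 727303) (nat_lit 0x864e745a0) (nat_lit 441614815),
  Rx.mk (nat_lit 160) (nat_lit 0) (nat_lit 4) (nat_lit 2) (nat_lit 4) (nat_lit 99) (nat_lit 228) r6_99 r0_228 (nat_lit 476596) (nat_lit 549304) (nat_lit 0) (nat_lit 0x63aaea0f0) (nat_lit 996170062),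
  Rx.mk (nat_lit 161) (nat_lit 1) (nat_lit 4) (nat_lit 2) (nat_lit 5) (nat_lit 102) (nat_lit 229) r6_102 r0_229 (nat_lit 0) (nat_lit 2611205) (nat_lit 0) (nat_lit 0x83a05514c) (nat_lit 484513917),
  Rx.mk (nat_lit 162) (nat_lit 2) (nat_lit 4) (nat_lit 2) (nat_lit 5) (nat_lit 104) (nat_lit 230) r6_104 r0_230 (nat_lit 0) (nat_lit 14019292) (nat_lit 0) (nat_lit 0x774820d34) (nat_lit 692574004),
  Rx.mk (nat_lit 176) (nat_lit 0) (nat_lit 6) (nat_lit 2) (nat_lit 6) (nat_lit 100) (nat_lit 234) r6_100 r0_234 (nat_lit 11464009) (nat_lit 0) (nat_lit 0) (nat_lit 0x7fcd39b80) (nat_lit 552812521),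
  Rx.mk (nat_lit 177) (nat_lit 1) (nat_lit 6) (nat_lit 2) (nat_lit 7) (nat_lit 103) (nat_lit 235) r6_103 r0_235 (nat_lit 0) (nat_lit 0) (nat_lit 0) (nat_lit 0x86cc8ff0c) (nat_lit 433849212),
  Rx.mk (nat_lit 418) (nat_lit 2) (nat_lit 4) (nat_lit 6) (nat_lit 5) (nat_lit 105) (nat_lit 231) r6_105 r0_231 (nat_lit 0) (nat_lit 7518208) (nat_lit 0) (nat_lit 0x737802416) (nat_lit 747659820)]
noncomputable def e32_39 : List Rx := [
  Rx.mk (nat_lit 160) (nat_lit 0) (nat_lit 4) (nat_lit 2) (nat_lit 4) (nat_lit 106) (nat_lit 78) r6_106 r7_78 (nat_lit 3417910) (nat_lit 3103288) (nat_lit 0) (nat_lit 0x6f0f18210) (nat_lit 817792160),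
  Rx.mk (nat_lit 161) (nat_lit 1) (nat_lit 4) (nat_lit 2) (nat_lit 5) (nat_lit 109) (nat_lit 81) r6_109 r7_81 (nat_lit 0) (nat_lit 10382740) (nat_lit 0) (nat_lit 0x817f374a8) (nat_lit 525372102),
  Rx.mk (nat_lit 162) (nat_lit 2) (nat_lit 4) (nat_lit 2) (nat_lit 5) (nat_lit 112) (nat_lit 86) r6_112 r7_86 (nat_lit 0) (nat_lit 24741287) (nat_lit 0) (nat_lit 0x7f4e81a9a) (nat_lit 574017999),
  Rx.mk (nat_lit 168) (nat_lit 0) (nat_lit 5) (nat_lit 2) (nat_lit 6) (nat_lit 107) (nat_lit 79) r6_107 r7_79 (nat_lit 12588522) (nat_lit 0) (nat_lit 0) (nat_lit 0x8109aaa8c) (nat_lit 534683584),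
  Rx.mk (nat_lit 169) (nat_lit 1) (nat_lit 5) (nat_lit 2) (nat_lit 7) (nat_lit 110) (nat_lit 82) r6_110 r7_82 (nat_lit 0) (nat_lit 0) (nat_lit 0) (nat_lit 0x806259ae4) (nat_lit 532286612),
  Rx.mk (nat_lit 170) (nat_lit 2) (nat_lit 5) (nat_lit 2) (nat_lit 7) (nat_lit 113) (nat_lit 87) r6_113 r7_87 (nat_lit 0) (nat_lit 0) (nat_lit 0) (nat_lit 0x8017985b4) (nat_lit 536870912),
  Rx.mk (nat_lit 176) (nat_lit 0) (nat_lit 6) (nat_lit 2) (nat_lit 6) (nat_lit 108) (nat_lit 80) r6_108 r7_80 (nat_lit 9429526) (nat_lit 0) (nat_lit 0) (nat_lit 0x80843ba90) (nat_lit 539527188),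
  Rx.mk (nat_lit 177) (nat_lit 1) (nat_lit 6) (nat_lit 2) (nat_lit 7) (nat_lit 111) (nat_lit 83) r6_111 r7_83 (nat_lit 0) (nat_lit 0) (nat_lit 0) (nat_lit 0x80e84372c) (nat_lit 524123412),
  Rx.mk (nat_lit 418) (nat_lit 2) (nat_lit 4) (nat_lit 6) (nat_lit 5) (nat_lit 114) (nat_lit 84) r6_114 r7_84 (nat_lit 0) (nat_lit 8290090) (nat_lit 0) (nat_lit 0x80c4482e6) (nat_lit 534483002),
  Rx.mk (nat_lit 426) (nat_lit 2) (nat_lit 5) (nat_lit 6) (nat_lit 7) (nat_lit 115) (nat_lit 85) r6_115 r7_85 (nat_lit 0) (nat_lit 0) (nat_lit 0) (nat_lit 0x810efde94) (nat_lit 521774762)]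
noncomputable def e32_40 : List Rx := [
  Rx.mk (nat_lit 49) (nat_lit 1) (nat_lit 6) (nat_lit 0) (nat_lit 3) (nat_lit 286) (nat_lit 269) r6_286 r2_269 (nat_lit 0) (nat_lit 0) (nat_lit 25088397) (nat_lit 0x7fe4f918a) (nat_lit 565068109),
  Rx.mk (nat_lit 53) (nat_lit 5) (nat_lit 6) (nat_lit 0) (nat_lit 3) (nat_lit 289) (nat_lit 270) r6_289 r2_270 (nat_lit 0) (nat_lit 0) (nat_lit 37541131) (nat_lit 0x7f337957c) (nat_lit 588490643),
  Rx.mk (nat_lit 161) (nat_lit 1) (nat_lit 4) (nat_lit 2) (nat_lit 5) (nat_lit 287) (nat_lit 268) r6_287 r2_268 (nat_lit 0) (nat_lit 32877958) (nat_lit 0) (nat_lit 0x7f6f4bf78) (nat_lit 580120470),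
  Rx.mk (nat_lit 177) (nat_lit 1) (nat_lit 6) (nat_lit 2) (nat_lit 7) (nat_lit 288) (nat_lit 271) r6_288 r2_271 (nat_lit 0) (nat_lit 0) (nat_lit 0) (nat_lit 0x8017985b4) (nat_lit 536870912)]
noncomputable def e32_41 : List Rx := [
  Rx.mk (nat_lit 161) (nat_lit 1) (nat_lit 4) (nat_lit 2) (nat_lit 5) (nat_lit 295) (nat_lit 241) r6_295 r9_241 (nat_lit 0) (nat_lit 25123569) (nat_lit 0) (nat_lit 0x7f345289a) (nat_lit 575983031),
  Rx.mk (nat_lit 169) (nat_lit 1) (nat_lit 5) (nat_lit 2) (nat_lit 7) (nat_lit 296) (nat_lit 242) r6_296 r9_242 (nat_lit 0) (nat_lit 0) (nat_lit 0) (nat_lit 0x8017985b4) (nat_lit 536870912),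
  Rx.mk (nat_lit 177) (nat_lit 1) (nat_lit 6) (nat_lit 2) (nat_lit 7) (nat_lit 297) (nat_lit 243) r6_297 r9_243 (nat_lit 0) (nat_lit 0) (nat_lit 0) (nat_lit 0x8017985b4) (nat_lit 536870912)]
noncomputable def e32_42 : List Rx := [
  Rx.mk (nat_lit 49) (nat_lit 1) (nat_lit 6) (nat_lit 0) (nat_lit 3) (nat_lit 290) (nat_lit 220) r6_290 r9_220 (nat_lit 0) (nat_lit 0) (nat_lit 25547425) (nat_lit 0x7ed7c15fe) (nat_lit 582171937),
  Rx.mk (nat_lit 53) (nat_lit 5) (nat_lit 6) (nat_lit 0) (nat_lit 3) (nat_lit 293) (nat_lit 219) r6_293 r9_219 (nat_lit 0) (nat_lit 0) (nat_lit 24741287) (nat_lit 0x7fbf624bc) (nat_lit 567020899),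
  Rx.mk (nat_lit 113) (nat_lit 1) (nat_lit 6) (nat_lit 1) (nat_lit 7) (nat_lit 291) (nat_lit 222) r6_291 r9_222 (nat_lit 0) (nat_lit 0) (nat_lit 0) (nat_lit 0x8017985b4) (nat_lit 536870912),
  Rx.mk (nat_lit 117) (nat_lit 5) (nat_lit 6) (nat_lit 1) (nat_lit 7) (nat_lit 294) (nat_lit 221) r6_294 r9_221 (nat_lit 0) (nat_lit 0) (nat_lit 0) (nat_lit 0x8017985b4) (nat_lit 536870912),
  Rx.mk (nat_lit 177) (nat_lit 1) (nat_lit 6) (nat_lit 2) (nat_lit 7) (nat_lit 292) (nat_lit 223) r6_292 r9_223 (nat_lit 0) (nat_lit 0) (nat_lit 0) (nat_lit 0x8017985b4) (nat_lit 536870912)]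
noncomputable def e32_43 : List Rx := [
  Rx.mk (nat_lit 49) (nat_lit 1) (nat_lit 6) (nat_lit 0) (nat_lit 3) (nat_lit 116) (nat_lit 247) r6_116 r1_247 (nat_lit 0) (nat_lit 0) (nat_lit 2146916) (nat_lit 0x832861f50) (nat_lit 491234428),
  Rx.mk (nat_lit 161) (nat_lit 1) (nat_lit 4) (nat_lit 2) (nat_lit 5) (nat_lit 117) (nat_lit 246) r6_117 r1_246 (nat_lit 0) (nat_lit 4579048) (nat_lit 0) (nat_lit 0x829e4386e) (nat_lit 502034860),
  Rx.mk (nat_lit 177) (nat_lit 1) (nat_lit 6) (nat_lit 2) (nat_lit 7) (nat_lit 118) (nat_lit 248) r6_118 r1_248 (nat_lit 0) (nat_lit 0) (nat_lit 0) (nat_lit 0x80c3cc614) (nat_lit 526329562)]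
noncomputable def e32_44 : List Rx := [
  Rx.mk (nat_lit 161) (nat_lit 1) (nat_lit 4) (nat_lit 2) (nat_lit 5) (nat_lit 119) (nat_lit 71) r6_119 r8_71 (nat_lit 0) (nat_lit 11276317) (nat_lit 0) (nat_lit 0x80f41308e) (nat_lit 534645879),
  Rx.mk (nat_lit 169) (nat_lit 1) (nat_lit 5) (nat_lit 2) (nat_lit 7) (nat_lit 120) (nat_lit 72) r6_120 r8_72 (nat_lit 0) (nat_lit 0) (nat_lit 0) (nat_lit 0x8017985b4) (nat_lit 536870912),
  Rx.mk (nat_lit 177) (nat_lit 1) (nat_lit 6) (nat_lit 2) (nat_lit 7) (nat_lit 121) (nat_lit 73) r6_121 r8_73 (nat_lit 0) (nat_lit 0) (nat_lit 0) (nat_lit 0x80607f5fc) (nat_lit 532392712)]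
noncomputable def e32_45 : List Rx := [
  Rx.mk (nat_lit 168) (nat_lit 0) (nat_lit 5) (nat_lit 2) (nat_lit 6) (nat_lit 7) (nat_lit 88) r6_7 r1_88 (nat_lit 14248724) (nat_lit 0) (nat_lit 0) (nat_lit 0x80a26753c) (nat_lit 542542486),
  Rx.mk (nat_lit 170) (nat_lit 2) (nat_lit 5) (nat_lit 2) (nat_lit 7) (nat_lit 8) (nat_lit 90) r6_8 r1_90 (nat_lit 0) (nat_lit 0) (nat_lit 0) (nat_lit 0x80add07a2) (nat_lit 527662962),
  Rx.mk (nat_lit 426) (nat_lit 2) (nat_lit 5) (nat_lit 6) (nat_lit 7) (nat_lit 9) (nat_lit 89) r6_9 r1_89 (nat_lit 0) (nat_lit 0) (nat_lit 0) (nat_lit 0x8954d7890) (nat_lit 395152462)]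
noncomputable def e32_46 : List Rx := [
  Rx.mk (nat_lit 394) (nat_lit 2) (nat_lit 1) (nat_lit 6) (nat_lit 7) (nat_lit 10) (nat_lit 95) r6_10 r2_95 (nat_lit 0) (nat_lit 0) (nat_lit 0) (nat_lit 0x8017985b4) (nat_lit 536870912),
  Rx.mk (nat_lit 426) (nat_lit 2) (nat_lit 5) (nat_lit 6) (nat_lit 7) (nat_lit 11) (nat_lit 94) r6_11 r2_94 (nat_lit 0) (nat_lit 0) (nat_lit 0) (nat_lit 0x8017985b4) (nat_lit 536870912)]
noncomputable def e32_47 : List Rx := [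
  Rx.mk (nat_lit 168) (nat_lit 0) (nat_lit 5) (nat_lit 2) (nat_lit 6) (nat_lit 122) (nat_lit 221) r6_122 r8_221 (nat_lit 24741287) (nat_lit 0) (nat_lit 0) (nat_lit 0x8017985b4) (nat_lit 561612199),
  Rx.mk (nat_lit 169) (nat_lit 1) (nat_lit 5) (nat_lit 2) (nat_lit 7) (nat_lit 123) (nat_lit 222) r6_123 r8_222 (nat_lit 0) (nat_lit 0) (nat_lit 0) (nat_lit 0x8017985b4) (nat_lit 536870912),
  Rx.mk (nat_lit 170) (nat_lit 2) (nat_lit 5) (nat_lit 2) (nat_lit 7) (nat_lit 124) (nat_lit 223) r6_124 r8_223 (nat_lit 0) (nat_lit 0) (nat_lit 0) (nat_lit 0x8017985b4) (nat_lit 536870912),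
  Rx.mk (nat_lit 426) (nat_lit 2) (nat_lit 5) (nat_lit 6) (nat_lit 7) (nat_lit 125) (nat_lit 224) r6_125 r8_224 (nat_lit 0) (nat_lit 0) (nat_lit 0) (nat_lit 0x805730f46) (nat_lit 532963862)]
noncomputable def e32_48 : List Rx := [
  Rx.mk (nat_lit 394) (nat_lit 2) (nat_lit 1) (nat_lit 6) (nat_lit 7) (nat_lit 126) (nat_lit 62) r6_126 r9_62 (nat_lit 0) (nat_lit 0) (nat_lit 0) (nat_lit 0x8017985b4) (nat_lit 536870912),
  Rx.mk (nat_lit 426) (nat_lit 2) (nat_lit 5) (nat_lit 6) (nat_lit 7) (nat_lit 127) (nat_lit 61) r6_127 r9_61 (nat_lit 0) (nat_lit 0) (nat_lit 0) (nat_lit 0x8017985b4) (nat_lit 536870912)]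
noncomputable def e32_49 : List Rx := [
  Rx.mk (nat_lit 394) (nat_lit 2) (nat_lit 1) (nat_lit 6) (nat_lit 7) (nat_lit 168) (nat_lit 61) r6_168 r9_61 (nat_lit 0) (nat_lit 0) (nat_lit 0) (nat_lit 0x8017985b4) (nat_lit 536870912),
  Rx.mk (nat_lit 426) (nat_lit 2) (nat_lit 5) (nat_lit 6) (nat_lit 7) (nat_lit 169) (nat_lit 62) r6_169 r9_62 (nat_lit 0) (nat_lit 0) (nat_lit 0) (nat_lit 0x8017985b4) (nat_lit 536870912)]
noncomputable def e32_50 : List Rx := [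
  Rx.mk (nat_lit 51) (nat_lit 3) (nat_lit 6) (nat_lit 0) (nat_lit 3) (nat_lit 17) (nat_lit 76) r6_17 r3_76 (nat_lit 0) (nat_lit 0) (nat_lit 320985) (nat_lit 0x7f1636122) (nat_lit 552018747),
  Rx.mk (nat_lit 160) (nat_lit 0) (nat_lit 4) (nat_lit 2) (nat_lit 4) (nat_lit 12) (nat_lit 74) r6_12 r3_74 (nat_lit 3671) (nat_lit 2940) (nat_lit 0) (nat_lit 0x7fffa9322) (nat_lit 536901023),
  Rx.mk (nat_lit 162) (nat_lit 2) (nat_lit 4) (nat_lit 2) (nat_lit 5) (nat_lit 14) (nat_lit 81) r6_14 r3_81 (nat_lit 0) (nat_lit 6608634) (nat_lit 0) (nat_lit 0x74406e594) (nat_lit 733974246),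
  Rx.mk (nat_lit 163) (nat_lit 3) (nat_lit 4) (nat_lit 2) (nat_lit 5) (nat_lit 18) (nat_lit 77) r6_18 r3_77 (nat_lit 0) (nat_lit 201864) (nat_lit 0) (nat_lit 0x7fa9eb5e8) (nat_lit 542596676),
  Rx.mk (nat_lit 176) (nat_lit 0) (nat_lit 6) (nat_lit 2) (nat_lit 6) (nat_lit 13) (nat_lit 75) r6_13 r3_75 (nat_lit 2875897) (nat_lit 0) (nat_lit 0) (nat_lit 0x717aba4b2) (nat_lit 774887159),
  Rx.mk (nat_lit 179) (nat_lit 3) (nat_lit 6) (nat_lit 2) (nat_lit 7) (nat_lit 19) (nat_lit 78) r6_19 r3_78 (nat_lit 0) (nat_lit 0) (nat_lit 0) (nat_lit 0x85801fec0) (nat_lit 453525812),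
  Rx.mk (nat_lit 418) (nat_lit 2) (nat_lit 4) (nat_lit 6) (nat_lit 5) (nat_lit 15) (nat_lit 79) r6_15 r3_79 (nat_lit 0) (nat_lit 1281031) (nat_lit 0) (nat_lit 0x74900bd36) (nat_lit 723321843),
  Rx.mk (nat_lit 442) (nat_lit 2) (nat_lit 7) (nat_lit 6) (nat_lit 7) (nat_lit 16) (nat_lit 80) r6_16 r3_80 (nat_lit 0) (nat_lit 0) (nat_lit 0) (nat_lit 0x82a884a62) (nat_lit 496785062)]
noncomputable def e32_51 : List Rx := [
  Rx.mk (nat_lit 160) (nat_lit 0) (nat_lit 4) (nat_lit 2) (nat_lit 4) (nat_lit 20) (nat_lit 78) r6_20 r4_78 (nat_lit 3814909) (nat_lit 2670845) (nat_lit 0) (nat_lit 0x6861eb944) (nat_lit 925706566),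
  Rx.mk (nat_lit 162) (nat_lit 2) (nat_lit 4) (nat_lit 2) (nat_lit 5) (nat_lit 23) (nat_lit 87) r6_23 r4_87 (nat_lit 0) (nat_lit 9821827) (nat_lit 0) (nat_lit 0x7fc4fda48) (nat_lit 551627389),
  Rx.mk (nat_lit 163) (nat_lit 3) (nat_lit 4) (nat_lit 2) (nat_lit 5) (nat_lit 28) (nat_lit 81) r6_28 r4_81 (nat_lit 0) (nat_lit 136651) (nat_lit 0) (nat_lit 0x6297d7fc2) (nat_lit 1012582363),
  Rx.mk (nat_lit 168) (nat_lit 0) (nat_lit 5) (nat_lit 2) (nat_lit 6) (nat_lit 21) (nat_lit 79) r6_21 r4_79 (nat_lit 9313182) (nat_lit 0) (nat_lit 0) (nat_lit 0x8051e9268) (nat_lit 542445944),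
  Rx.mk (nat_lit 170) (nat_lit 2) (nat_lit 5) (nat_lit 2) (nat_lit 7) (nat_lit 24) (nat_lit 88) r6_24 r4_88 (nat_lit 0) (nat_lit 0) (nat_lit 0) (nat_lit 0x8046420c2) (nat_lit 534001662),
  Rx.mk (nat_lit 171) (nat_lit 3) (nat_lit 5) (nat_lit 2) (nat_lit 7) (nat_lit 29) (nat_lit 82) r6_29 r4_82 (nat_lit 0) (nat_lit 0) (nat_lit 0) (nat_lit 0x80f6273ca) (nat_lit 522994062),
  Rx.mk (nat_lit 176) (nat_lit 0) (nat_lit 6) (nat_lit 2) (nat_lit 6) (nat_lit 22) (nat_lit 80) r6_22 r4_80 (nat_lit 10422876) (nat_lit 0) (nat_lit 0) (nat_lit 0x7e366a3fe) (nat_lit 577077388),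
  Rx.mk (nat_lit 179) (nat_lit 3) (nat_lit 6) (nat_lit 2) (nat_lit 7) (nat_lit 30) (nat_lit 83) r6_30 r4_83 (nat_lit 0) (nat_lit 0) (nat_lit 0) (nat_lit 0x80d433d36) (nat_lit 525049262),
  Rx.mk (nat_lit 418) (nat_lit 2) (nat_lit 4) (nat_lit 6) (nat_lit 5) (nat_lit 25) (nat_lit 84) r6_25 r4_84 (nat_lit 0) (nat_lit 5828454) (nat_lit 0) (nat_lit 0x7fc27fd8e) (nat_lit 547632616),
  Rx.mk (nat_lit 426) (nat_lit 2) (nat_lit 5) (nat_lit 6) (nat_lit 7) (nat_lit 26) (nat_lit 85) r6_26 r4_85 (nat_lit 0) (nat_lit 0) (nat_lit 0) (nat_lit 0x80fddf1bc) (nat_lit 522806362),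
  Rx.mk (nat_lit 442) (nat_lit 2) (nat_lit 7) (nat_lit 6) (nat_lit 7) (nat_lit 27) (nat_lit 86) r6_27 r4_86 (nat_lit 0) (nat_lit 0) (nat_lit 0) (nat_lit 0x80efb1ee6) (nat_lit 523668462)]
noncomputable def e32_52 : List Rx := [
  Rx.mk (nat_lit 51) (nat_lit 3) (nat_lit 6) (nat_lit 0) (nat_lit 3) (nat_lit 37) (nat_lit 73) r6_37 r5_73 (nat_lit 0) (nat_lit 0) (nat_lit 6235362) (nat_lit 0x7e4c9eb16) (nat_lit 571302074),
  Rx.mk (nat_lit 160) (nat_lit 0) (nat_lit 4) (nat_lit 2) (nat_lit 4) (nat_lit 31) (nat_lit 70) r6_31 r5_70 (nat_lit 214613) (nat_lit 151381) (nat_lit 0) (nat_lit 0x7f84aacac) (nat_lit 545085756),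
  Rx.mk (nat_lit 162) (nat_lit 2) (nat_lit 4) (nat_lit 2) (nat_lit 5) (nat_lit 34) (nat_lit 78) r6_34 r5_78 (nat_lit 0) (nat_lit 14912566) (nat_lit 0) (nat_lit 0x7ad02e7c8) (nat_lit 636403678),
  Rx.mk (nat_lit 163) (nat_lit 3) (nat_lit 4) (nat_lit 2) (nat_lit 5) (nat_lit 38) (nat_lit 75) r6_38 r5_75 (nat_lit 0) (nat_lit 506970) (nat_lit 0) (nat_lit 0x8036353fa) (nat_lit 534398782),
  Rx.mk (nat_lit 176) (nat_lit 0) (nat_lit 6) (nat_lit 2) (nat_lit 6) (nat_lit 32) (nat_lit 72) r6_32 r5_72 (nat_lit 7478372) (nat_lit 0) (nat_lit 0) (nat_lit 0x7e7bc2848) (nat_lit 569688734),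
  Rx.mk (nat_lit 179) (nat_lit 3) (nat_lit 6) (nat_lit 2) (nat_lit 7) (nat_lit 39) (nat_lit 76) r6_39 r5_76 (nat_lit 0) (nat_lit 0) (nat_lit 0) (nat_lit 0x8de7568e8) (nat_lit 325388962),
  Rx.mk (nat_lit 184) (nat_lit 0) (nat_lit 7) (nat_lit 2) (nat_lit 6) (nat_lit 33) (nat_lit 71) r6_33 r5_71 (nat_lit 5517824) (nat_lit 0) (nat_lit 0) (nat_lit 0x80fe04cf0) (nat_lit 528080236),
  Rx.mk (nat_lit 186) (nat_lit 2) (nat_lit 7) (nat_lit 2) (nat_lit 7) (nat_lit 35) (nat_lit 79) r6_35 r5_79 (nat_lit 0) (nat_lit 0) (nat_lit 0) (nat_lit 0x7df8696ea) (nat_lit 570525862),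
  Rx.mk (nat_lit 243) (nat_lit 3) (nat_lit 6) (nat_lit 3) (nat_lit 7) (nat_lit 40) (nat_lit 74) r6_40 r5_74 (nat_lit 0) (nat_lit 0) (nat_lit 0) (nat_lit 0x7ffe6318e) (nat_lit 538324412),
  Rx.mk (nat_lit 442) (nat_lit 2) (nat_lit 7) (nat_lit 6) (nat_lit 7) (nat_lit 36) (nat_lit 77) r6_36 r5_77 (nat_lit 0) (nat_lit 0) (nat_lit 0) (nat_lit 0x7adbdb5da) (nat_lit 620253362)]
noncomputable def e32_53 : List Rx := [
  Rx.mk (nat_lit 48) (nat_lit 0) (nat_lit 6) (nat_lit 0) (nat_lit 2) (nat_lit 128) (nat_lit 235) r6_128 r4_235 (nat_lit 72450) (nat_lit 0) (nat_lit 102847) (nat_lit 0x74c49e314) (nat_lit 718702409),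
  Rx.mk (nat_lit 49) (nat_lit 1) (nat_lit 6) (nat_lit 0) (nat_lit 3) (nat_lit 131) (nat_lit 236) r6_131 r4_236 (nat_lit 0) (nat_lit 0) (nat_lit 17803608) (nat_lit 0x8030df784) (nat_lit 553092470),
  Rx.mk (nat_lit 51) (nat_lit 3) (nat_lit 6) (nat_lit 0) (nat_lit 3) (nat_lit 137) (nat_lit 237) r6_137 r4_237 (nat_lit 0) (nat_lit 0) (nat_lit 14470459) (nat_lit 0x7f6a8c884) (nat_lit 561862921),
  Rx.mk (nat_lit 160) (nat_lit 0) (nat_lit 4) (nat_lit 2) (nat_lit 4) (nat_lit 129) (nat_lit 229) r6_129 r4_229 (nat_lit 150896) (nat_lit 185097) (nat_lit 0) (nat_lit 0x7474055ce) (nat_lit 723972805),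
  Rx.mk (nat_lit 161) (nat_lit 1) (nat_lit 4) (nat_lit 2) (nat_lit 5) (nat_lit 132) (nat_lit 230) r6_132 r4_230 (nat_lit 0) (nat_lit 15201900) (nat_lit 0) (nat_lit 0x80b22620c) (nat_lit 542613312),
  Rx.mk (nat_lit 162) (nat_lit 2) (nat_lit 4) (nat_lit 2) (nat_lit 5) (nat_lit 134) (nat_lit 232) r6_134 r4_232 (nat_lit 0) (nat_lit 14591992) (nat_lit 0) (nat_lit 0x7ffde2a5c) (nat_lit 552972954),
  Rx.mk (nat_lit 163) (nat_lit 3) (nat_lit 4) (nat_lit 2) (nat_lit 5) (nat_lit 138) (nat_lit 231) r6_138 r4_231 (nat_lit 0) (nat_lit 15888000) (nat_lit 0) (nat_lit 0x80a2446e0) (nat_lit 544269162),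
  Rx.mk (nat_lit 176) (nat_lit 0) (nat_lit 6) (nat_lit 2) (nat_lit 6) (nat_lit 130) (nat_lit 238) r6_130 r4_238 (nat_lit 8507115) (nat_lit 0) (nat_lit 0) (nat_lit 0x7fe98ff5a) (nat_lit 548034927),
  Rx.mk (nat_lit 177) (nat_lit 1) (nat_lit 6) (nat_lit 2) (nat_lit 7) (nat_lit 133) (nat_lit 239) r6_133 r4_239 (nat_lit 0) (nat_lit 0) (nat_lit 0) (nat_lit 0x80ad718e2) (nat_lit 527694462),
  Rx.mk (nat_lit 179) (nat_lit 3) (nat_lit 6) (nat_lit 2) (nat_lit 7) (nat_lit 139) (nat_lit 240) r6_139 r4_240 (nat_lit 0) (nat_lit 0) (nat_lit 0) (nat_lit 0x80ad718e2) (nat_lit 527694462),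
  Rx.mk (nat_lit 418) (nat_lit 2) (nat_lit 4) (nat_lit 6) (nat_lit 5) (nat_lit 135) (nat_lit 233) r6_135 r4_233 (nat_lit 0) (nat_lit 11623710) (nat_lit 0) (nat_lit 0x7bf31a790) (nat_lit 614749172),
  Rx.mk (nat_lit 442) (nat_lit 2) (nat_lit 7) (nat_lit 6) (nat_lit 7) (nat_lit 136) (nat_lit 234) r6_136 r4_234 (nat_lit 0) (nat_lit 0) (nat_lit 0) (nat_lit 0x81ec02330) (nat_lit 508336162)]
noncomputable def e32_54 : List Rx := [
  Rx.mk (nat_lit 160) (nat_lit 0) (nat_lit 4) (nat_lit 2) (nat_lit 4) (nat_lit 140) (nat_lit 59) r6_140 r10_59 (nat_lit 3908311) (nat_lit 3437710) (nat_lit 0) (nat_lit 0x70b62ad72) (nat_lit 791927083),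
  Rx.mk (nat_lit 161) (nat_lit 1) (nat_lit 4) (nat_lit 2) (nat_lit 5) (nat_lit 143) (nat_lit 62) r6_143 r10_62 (nat_lit 0) (nat_lit 14773968) (nat_lit 0) (nat_lit 0x80be7a56c) (nat_lit 541432730),
  Rx.mk (nat_lit 162) (nat_lit 2) (nat_lit 4) (nat_lit 2) (nat_lit 5) (nat_lit 145) (nat_lit 70) r6_145 r10_70 (nat_lit 0) (nat_lit 24741287) (nat_lit 0) (nat_lit 0x7f68b2360) (nat_lit 572388699),
  Rx.mk (nat_lit 163) (nat_lit 3) (nat_lit 4) (nat_lit 2) (nat_lit 5) (nat_lit 150) (nat_lit 64) r6_150 r10_64 (nat_lit 0) (nat_lit 14995754) (nat_lit 0) (nat_lit 0x80820fd34) (nat_lit 545312416),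
  Rx.mk (nat_lit 168) (nat_lit 0) (nat_lit 5) (nat_lit 2) (nat_lit 6) (nat_lit 141) (nat_lit 60) r6_141 r10_60 (nat_lit 18189542) (nat_lit 0) (nat_lit 0) (nat_lit 0x807407840) (nat_lit 549393204),
  Rx.mk (nat_lit 170) (nat_lit 2) (nat_lit 5) (nat_lit 2) (nat_lit 7) (nat_lit 146) (nat_lit 71) r6_146 r10_71 (nat_lit 0) (nat_lit 0) (nat_lit 0) (nat_lit 0x8017985b4) (nat_lit 536870912),
  Rx.mk (nat_lit 171) (nat_lit 3) (nat_lit 5) (nat_lit 2) (nat_lit 7) (nat_lit 151) (nat_lit 65) r6_151 r10_65 (nat_lit 0) (nat_lit 0) (nat_lit 0) (nat_lit 0x8017985b4) (nat_lit 536870912),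
  Rx.mk (nat_lit 176) (nat_lit 0) (nat_lit 6) (nat_lit 2) (nat_lit 6) (nat_lit 142) (nat_lit 61) r6_142 r10_61 (nat_lit 8452867) (nat_lit 0) (nat_lit 0) (nat_lit 0x80ffe1c3a) (nat_lit 531055429),
  Rx.mk (nat_lit 177) (nat_lit 1) (nat_lit 6) (nat_lit 2) (nat_lit 7) (nat_lit 144) (nat_lit 63) r6_144 r10_63 (nat_lit 0) (nat_lit 0) (nat_lit 0) (nat_lit 0x80d199d14) (nat_lit 525495962),
  Rx.mk (nat_lit 179) (nat_lit 3) (nat_lit 6) (nat_lit 2) (nat_lit 7) (nat_lit 152) (nat_lit 66) r6_152 r10_66 (nat_lit 0) (nat_lit 0) (nat_lit 0) (nat_lit 0x80d1999d6) (nat_lit 525496012),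
  Rx.mk (nat_lit 418) (nat_lit 2) (nat_lit 4) (nat_lit 6) (nat_lit 5) (nat_lit 147) (nat_lit 67) r6_147 r10_67 (nat_lit 0) (nat_lit 9336562) (nat_lit 0) (nat_lit 0x80cea0392) (nat_lit 534941174),
  Rx.mk (nat_lit 426) (nat_lit 2) (nat_lit 5) (nat_lit 6) (nat_lit 7) (nat_lit 148) (nat_lit 68) r6_148 r10_68 (nat_lit 0) (nat_lit 0) (nat_lit 0) (nat_lit 0x80d032dc2) (nat_lit 525585862),
  Rx.mk (nat_lit 442) (nat_lit 2) (nat_lit 7) (nat_lit 6) (nat_lit 7) (nat_lit 149) (nat_lit 69) r6_149 r10_69 (nat_lit 0) (nat_lit 0) (nat_lit 0) (nat_lit 0x80d033132) (nat_lit 525585812)]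
noncomputable def e32_55 : List Rx := [
  Rx.mk (nat_lit 48) (nat_lit 0) (nat_lit 6) (nat_lit 0) (nat_lit 2) (nat_lit 153) (nat_lit 53) r6_153 r11_53 (nat_lit 11453294) (nat_lit 0) (nat_lit 17592133) (nat_lit 0x79c89e50e) (nat_lit 667174639),
  Rx.mk (nat_lit 49) (nat_lit 1) (nat_lit 6) (nat_lit 0) (nat_lit 3) (nat_lit 157) (nat_lit 57) r6_157 r11_57 (nat_lit 0) (nat_lit 0) (nat_lit 23560195) (nat_lit 0x8006b0be8) (nat_lit 561461107),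
  Rx.mk (nat_lit 51) (nat_lit 3) (nat_lit 6) (nat_lit 0) (nat_lit 3) (nat_lit 164) (nat_lit 61) r6_164 r11_61 (nat_lit 0) (nat_lit 0) (nat_lit 26850297) (nat_lit 0x80135a3c6) (nat_lit 563945709),
  Rx.mk (nat_lit 160) (nat_lit 0) (nat_lit 4) (nat_lit 2) (nat_lit 4) (nat_lit 154) (nat_lit 54) r6_154 r11_54 (nat_lit 8887259) (nat_lit 8232258) (nat_lit 0) (nat_lit 0x752a94a10) (nat_lit 729817329),
  Rx.mk (nat_lit 161) (nat_lit 1) (nat_lit 4) (nat_lit 2) (nat_lit 5) (nat_lit 158) (nat_lit 58) r6_158 r11_58 (nat_lit 0) (nat_lit 24863851) (nat_lit 0) (nat_lit 0x80051da7e) (nat_lit 562865263),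
  Rx.mk (nat_lit 162) (nat_lit 2) (nat_lit 4) (nat_lit 2) (nat_lit 5) (nat_lit 161) (nat_lit 66) r6_161 r11_66 (nat_lit 0) (nat_lit 24741287) (nat_lit 0) (nat_lit 0x8017985b4) (nat_lit 561612199),
  Rx.mk (nat_lit 163) (nat_lit 3) (nat_lit 4) (nat_lit 2) (nat_lit 5) (nat_lit 165) (nat_lit 63) r6_165 r11_63 (nat_lit 0) (nat_lit 24741287) (nat_lit 0) (nat_lit 0x8017985b4) (nat_lit 561612199),
  Rx.mk (nat_lit 176) (nat_lit 0) (nat_lit 6) (nat_lit 2) (nat_lit 6) (nat_lit 155) (nat_lit 56) r6_155 r11_56 (nat_lit 11833070) (nat_lit 0) (nat_lit 0) (nat_lit 0x80dfff796) (nat_lit 536433782),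
  Rx.mk (nat_lit 177) (nat_lit 1) (nat_lit 6) (nat_lit 2) (nat_lit 7) (nat_lit 159) (nat_lit 60) r6_159 r11_60 (nat_lit 0) (nat_lit 0) (nat_lit 0) (nat_lit 0x8017985b4) (nat_lit 536870912),
  Rx.mk (nat_lit 179) (nat_lit 3) (nat_lit 6) (nat_lit 2) (nat_lit 7) (nat_lit 166) (nat_lit 64) r6_166 r11_64 (nat_lit 0) (nat_lit 0) (nat_lit 0) (nat_lit 0x8017985b4) (nat_lit 536870912),
  Rx.mk (nat_lit 184) (nat_lit 0) (nat_lit 7) (nat_lit 2) (nat_lit 6) (nat_lit 156) (nat_lit 55) r6_156 r11_55 (nat_lit 20819956) (nat_lit 0) (nat_lit 0) (nat_lit 0x80443f36a) (nat_lit 554944468),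
  Rx.mk (nat_lit 185) (nat_lit 1) (nat_lit 7) (nat_lit 2) (nat_lit 7) (nat_lit 160) (nat_lit 59) r6_160 r11_59 (nat_lit 0) (nat_lit 0) (nat_lit 0) (nat_lit 0x8017985b4) (nat_lit 536870912),
  Rx.mk (nat_lit 186) (nat_lit 2) (nat_lit 7) (nat_lit 2) (nat_lit 7) (nat_lit 162) (nat_lit 67) r6_162 r11_67 (nat_lit 0) (nat_lit 0) (nat_lit 0) (nat_lit 0x8017985b4) (nat_lit 536870912),
  Rx.mk (nat_lit 243) (nat_lit 3) (nat_lit 6) (nat_lit 3) (nat_lit 7) (nat_lit 167) (nat_lit 62) r6_167 r11_62 (nat_lit 0) (nat_lit 0) (nat_lit 0) (nat_lit 0x8017985b4) (nat_lit 536870912),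
  Rx.mk (nat_lit 442) (nat_lit 2) (nat_lit 7) (nat_lit 6) (nat_lit 7) (nat_lit 163) (nat_lit 65) r6_163 r11_65 (nat_lit 0) (nat_lit 0) (nat_lit 0) (nat_lit 0x822812b0e) (nat_lit 504804312)]
noncomputable def e32_56 : List Rx := [
  Rx.mk (nat_lit 51) (nat_lit 3) (nat_lit 6) (nat_lit 0) (nat_lit 3) (nat_lit 238) (nat_lit 243) r6_238 r5_243 (nat_lit 0) (nat_lit 0) (nat_lit 52534) (nat_lit 0x806957f26) (nat_lit 530664346),
  Rx.mk (nat_lit 163) (nat_lit 3) (nat_lit 4) (nat_lit 2) (nat_lit 5) (nat_lit 239) (nat_lit 242) r6_239 r5_242 (nat_lit 0) (nat_lit 355084) (nat_lit 0) (nat_lit 0x7fdb97272) (nat_lit 539655146),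
  Rx.mk (nat_lit 179) (nat_lit 3) (nat_lit 6) (nat_lit 2) (nat_lit 7) (nat_lit 240) (nat_lit 244) r6_240 r5_244 (nat_lit 0) (nat_lit 0) (nat_lit 0) (nat_lit 0x7f639d938) (nat_lit 547371662)]
noncomputable def e32_57 : List Rx := [
  Rx.mk (nat_lit 163) (nat_lit 3) (nat_lit 4) (nat_lit 2) (nat_lit 5) (nat_lit 241) (nat_lit 284) r6_241 r11_284 (nat_lit 0) (nat_lit 4181752) (nat_lit 0) (nat_lit 0x80bce2e16) (nat_lit 530625764),
  Rx.mk (nat_lit 171) (nat_lit 3) (nat_lit 5) (nat_lit 2) (nat_lit 7) (nat_lit 242) (nat_lit 285) r6_242 r11_285 (nat_lit 0) (nat_lit 0) (nat_lit 0) (nat_lit 0x84db9c5a6) (nat_lit 463462512),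
  Rx.mk (nat_lit 179) (nat_lit 3) (nat_lit 6) (nat_lit 2) (nat_lit 7) (nat_lit 243) (nat_lit 286) r6_243 r11_286 (nat_lit 0) (nat_lit 0) (nat_lit 0) (nat_lit 0x8558f78ac) (nat_lit 456022662)]
noncomputable def e32 : List (List Rx) := [e32_0, e32_1, e32_2, e32_3, e32_4, e32_5, e32_6, e32_7, e32_8, e32_9, e32_10, e32_11, e32_12, e32_13, e32_14, e32_15, e32_16, e32_17, e32_18, e32_19, e32_20, e32_21, e32_22, e32_23, e32_24, e32_25, e32_26, e32_27, e32_28, e32_29, e32_30, e32_31, e32_32, e32_33, e32_34, e32_35, e32_36, e32_37, e32_38, e32_39, e32_40, e32_41, e32_42, e32_43, e32_44, e32_45, e32_46, e32_47, e32_48, e32_49, e32_50, e32_51, e32_52, e32_53, e32_54, e32_55, e32_56, e32_57]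
noncomputable def e33_0 : List Rx := [
  Rx.mk (nat_lit 116) (nat_lit 4) (nat_lit 6) (nat_lit 1) (nat_lit 6) (nat_lit 255) (nat_lit 224) r5_255 r0_224 (nat_lit 71218835) (nat_lit 0) (nat_lit 0) (nat_lit 0x7ffb5ec54) (nat_lit 608387497)]
noncomputable def e33_1 : List Rx := [
  Rx.mk (nat_lit 116) (nat_lit 4) (nat_lit 6) (nat_lit 1) (nat_lit 6) (nat_lit 268) (nat_lit 242) r5_268 r1_242 (nat_lit 100423417) (nat_lit 0) (nat_lit 0) (nat_lit 0x83d8b6e82) (nat_lit 579086629),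
  Rx.mk (nat_lit 372) (nat_lit 4) (nat_lit 6) (nat_lit 5) (nat_lit 6) (nat_lit 267) (nat_lit 243) r5_267 r1_243 (nat_lit 91702614) (nat_lit 0) (nat_lit 0) (nat_lit 0x80aaf72a6) (nat_lit 619301176)]
noncomputable def e33_2 : List Rx := [
  Rx.mk (nat_lit 340) (nat_lit 4) (nat_lit 2) (nat_lit 5) (nat_lit 6) (nat_lit 259) (nat_lit 255) r5_259 r2_255 (nat_lit 20262659) (nat_lit 0) (nat_lit 0) (nat_lit 0x7ffd89060) (nat_lit 558709871),
  Rx.mk (nat_lit 342) (nat_lit 6) (nat_lit 2) (nat_lit 5) (nat_lit 7) (nat_lit 260) (nat_lit 257) r5_260 r2_257 (nat_lit 0) (nat_lit 0) (nat_lit 0) (nat_lit 0x8017985b4) (nat_lit 536870912),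
  Rx.mk (nat_lit 372) (nat_lit 4) (nat_lit 6) (nat_lit 5) (nat_lit 6) (nat_lit 258) (nat_lit 256) r5_258 r2_256 (nat_lit 39193482) (nat_lit 0) (nat_lit 0) (nat_lit 0x80a1c8662) (nat_lit 567515444)]
noncomputable def e33_3 : List Rx := [
  Rx.mk (nat_lit 52) (nat_lit 4) (nat_lit 6) (nat_lit 0) (nat_lit 2) (nat_lit 293) (nat_lit 221) r5_293 r3_221 (nat_lit 2469) (nat_lit 0) (nat_lit 3024) (nat_lit 0x817743936) (nat_lit 514521255),
  Rx.mk (nat_lit 55) (nat_lit 7) (nat_lit 6) (nat_lit 0) (nat_lit 3) (nat_lit 294) (nat_lit 223) r5_294 r3_223 (nat_lit 0) (nat_lit 0) (nat_lit 87664) (nat_lit 0x7ee2d6d0e) (nat_lit 555002326),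
  Rx.mk (nat_lit 116) (nat_lit 4) (nat_lit 6) (nat_lit 1) (nat_lit 6) (nat_lit 295) (nat_lit 222) r5_295 r3_222 (nat_lit 331055) (nat_lit 0) (nat_lit 0) (nat_lit 0x7f44b8f22) (nat_lit 549048467),
  Rx.mk (nat_lit 119) (nat_lit 7) (nat_lit 6) (nat_lit 1) (nat_lit 7) (nat_lit 296) (nat_lit 224) r5_296 r3_224 (nat_lit 0) (nat_lit 0) (nat_lit 0) (nat_lit 0x8cf43f2ea) (nat_lit 339923812)]
noncomputable def e33_4 : List Rx := [
  Rx.mk (nat_lit 116) (nat_lit 4) (nat_lit 6) (nat_lit 1) (nat_lit 6) (nat_lit 305) (nat_lit 224) r5_305 r4_224 (nat_lit 161090066) (nat_lit 0) (nat_lit 0) (nat_lit 0x7fc75d3ec) (nat_lit 701587228),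
  Rx.mk (nat_lit 119) (nat_lit 7) (nat_lit 6) (nat_lit 1) (nat_lit 7) (nat_lit 306) (nat_lit 225) r5_306 r4_225 (nat_lit 0) (nat_lit 0) (nat_lit 0) (nat_lit 0x743a265ec) (nat_lit 727415662)]
noncomputable def e33_5 : List Rx := [
  Rx.mk (nat_lit 52) (nat_lit 4) (nat_lit 6) (nat_lit 0) (nat_lit 2) (nat_lit 311) (nat_lit 235) r5_311 r5_235 (nat_lit 256039) (nat_lit 0) (nat_lit 59092) (nat_lit 0x820de74a0) (nat_lit 505885693),
  Rx.mk (nat_lit 55) (nat_lit 7) (nat_lit 6) (nat_lit 0) (nat_lit 3) (nat_lit 312) (nat_lit 238) r5_312 r5_238 (nat_lit 0) (nat_lit 0) (nat_lit 1304446) (nat_lit 0x7fd0f99aa) (nat_lit 541617058),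
  Rx.mk (nat_lit 116) (nat_lit 4) (nat_lit 6) (nat_lit 1) (nat_lit 6) (nat_lit 313) (nat_lit 236) r5_313 r5_236 (nat_lit 84189096) (nat_lit 0) (nat_lit 0) (nat_lit 0x80e5c9802) (nat_lit 608169008),
  Rx.mk (nat_lit 119) (nat_lit 7) (nat_lit 6) (nat_lit 1) (nat_lit 7) (nat_lit 314) (nat_lit 239) r5_314 r5_239 (nat_lit 0) (nat_lit 0) (nat_lit 0) (nat_lit 0x81c0a1d3a) (nat_lit 511016762),
  Rx.mk (nat_lit 244) (nat_lit 4) (nat_lit 6) (nat_lit 3) (nat_lit 6) (nat_lit 315) (nat_lit 237) r5_315 r5_237 (nat_lit 6154533) (nat_lit 0) (nat_lit 0) (nat_lit 0x82d163a50) (nat_lit 500638795)]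
noncomputable def e33_6 : List Rx := [
  Rx.mk (nat_lit 154) (nat_lit 2) (nat_lit 3) (nat_lit 2) (nat_lit 7) (nat_lit 25) (nat_lit 210) r5_25 r3_210 (nat_lit 0) (nat_lit 0) (nat_lit 0) (nat_lit 0x6ac4b35b6) (nat_lit 880256562),
  Rx.mk (nat_lit 247) (nat_lit 7) (nat_lit 6) (nat_lit 3) (nat_lit 7) (nat_lit 26) (nat_lit 206) r5_26 r3_206 (nat_lit 0) (nat_lit 0) (nat_lit 0) (nat_lit 0x7f169299a) (nat_lit 552155012),
  Rx.mk (nat_lit 278) (nat_lit 6) (nat_lit 2) (nat_lit 4) (nat_lit 3) (nat_lit 16) (nat_lit 212) r5_16 r3_212 (nat_lit 0) (nat_lit 0) (nat_lit 221843) (nat_lit 0x79aa7fb2c) (nat_lit 639578955),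
  Rx.mk (nat_lit 386) (nat_lit 2) (nat_lit 0) (nat_lit 6) (nat_lit 5) (nat_lit 19) (nat_lit 208) r5_19 r3_208 (nat_lit 0) (nat_lit 189369) (nat_lit 0) (nat_lit 0x726ece4ea) (nat_lit 756498431),
  Rx.mk (nat_lit 390) (nat_lit 6) (nat_lit 0) (nat_lit 6) (nat_lit 5) (nat_lit 17) (nat_lit 207) r5_17 r3_207 (nat_lit 0) (nat_lit 16744) (nat_lit 0) (nat_lit 0x750724bf2) (nat_lit 714320356),
  Rx.mk (nat_lit 406) (nat_lit 6) (nat_lit 2) (nat_lit 6) (nat_lit 7) (nat_lit 18) (nat_lit 214) r5_18 r3_214 (nat_lit 0) (nat_lit 0) (nat_lit 0) (nat_lit 0x7a87b5e10) (nat_lit 626124662),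
  Rx.mk (nat_lit 410) (nat_lit 2) (nat_lit 3) (nat_lit 6) (nat_lit 7) (nat_lit 20) (nat_lit 209) r5_20 r3_209 (nat_lit 0) (nat_lit 0) (nat_lit 0) (nat_lit 0x8463a3ca2) (nat_lit 470475612),
  Rx.mk (nat_lit 468) (nat_lit 4) (nat_lit 2) (nat_lit 7) (nat_lit 6) (nat_lit 22) (nat_lit 211) r5_22 r3_211 (nat_lit 101429) (nat_lit 0) (nat_lit 0) (nat_lit 0x75fc83cd8) (nat_lit 698920341),
  Rx.mk (nat_lit 470) (nat_lit 6) (nat_lit 2) (nat_lit 7) (nat_lit 7) (nat_lit 23) (nat_lit 213) r5_23 r3_213 (nat_lit 0) (nat_lit 0) (nat_lit 0) (nat_lit 0x8fbafdd30) (nat_lit 297369762),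
  Rx.mk (nat_lit 500) (nat_lit 4) (nat_lit 6) (nat_lit 7) (nat_lit 6) (nat_lit 21) (nat_lit 204) r5_21 r3_204 (nat_lit 10455) (nat_lit 0) (nat_lit 0) (nat_lit 0x8008c36ba) (nat_lit 536361367),
  Rx.mk (nat_lit 503) (nat_lit 7) (nat_lit 6) (nat_lit 7) (nat_lit 7) (nat_lit 24) (nat_lit 205) r5_24 r3_205 (nat_lit 0) (nat_lit 0) (nat_lit 0) (nat_lit 0x74ad72000) (nat_lit 720619462)]
noncomputable def e33_7 : List Rx := [
  Rx.mk (nat_lit 276) (nat_lit 4) (nat_lit 2) (nat_lit 4) (nat_lit 2) (nat_lit 95) (nat_lit 209) r5_95 r0_209 (nat_lit 20620) (nat_lit 0) (nat_lit 14014) (nat_lit 0x76e524eec) (nat_lit 684143846),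
  Rx.mk (nat_lit 278) (nat_lit 6) (nat_lit 2) (nat_lit 4) (nat_lit 3) (nat_lit 96) (nat_lit 210) r5_96 r0_210 (nat_lit 0) (nat_lit 0) (nat_lit 6178764) (nat_lit 0x7f794ecf0) (nat_lit 552570776),
  Rx.mk (nat_lit 308) (nat_lit 4) (nat_lit 6) (nat_lit 4) (nat_lit 2) (nat_lit 94) (nat_lit 204) r5_94 r0_204 (nat_lit 538423) (nat_lit 0) (nat_lit 46998) (nat_lit 0x84bca4798) (nat_lit 465237583),
  Rx.mk (nat_lit 386) (nat_lit 2) (nat_lit 0) (nat_lit 6) (nat_lit 5) (nat_lit 99) (nat_lit 208) r5_99 r0_208 (nat_lit 0) (nat_lit 9650169) (nat_lit 0) (nat_lit 0x70202c884) (nat_lit 803847431),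
  Rx.mk (nat_lit 390) (nat_lit 6) (nat_lit 0) (nat_lit 6) (nat_lit 5) (nat_lit 97) (nat_lit 207) r5_97 r0_207 (nat_lit 0) (nat_lit 10938667) (nat_lit 0) (nat_lit 0x6b03cd2ce) (nat_lit 887781329),
  Rx.mk (nat_lit 406) (nat_lit 6) (nat_lit 2) (nat_lit 6) (nat_lit 7) (nat_lit 98) (nat_lit 211) r5_98 r0_211 (nat_lit 0) (nat_lit 0) (nat_lit 0) (nat_lit 0x8017985b4) (nat_lit 536870912),
  Rx.mk (nat_lit 500) (nat_lit 4) (nat_lit 6) (nat_lit 7) (nat_lit 6) (nat_lit 100) (nat_lit 205) r5_100 r0_205 (nat_lit 331782363) (nat_lit 0) (nat_lit 0) (nat_lit 0x7cda33514) (nat_lit 920285625),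
  Rx.mk (nat_lit 503) (nat_lit 7) (nat_lit 6) (nat_lit 7) (nat_lit 7) (nat_lit 101) (nat_lit 206) r5_101 r0_206 (nat_lit 0) (nat_lit 0) (nat_lit 0) (nat_lit 0x67513425a) (nat_lit 936576412)]
noncomputable def e33_8 : List Rx := [
  Rx.mk (nat_lit 276) (nat_lit 4) (nat_lit 2) (nat_lit 4) (nat_lit 2) (nat_lit 107) (nat_lit 229) r5_107 r1_229 (nat_lit 5641616) (nat_lit 0) (nat_lit 3281434) (nat_lit 0x6d31d3d56) (nat_lit 850354662),
  Rx.mk (nat_lit 278) (nat_lit 6) (nat_lit 2) (nat_lit 4) (nat_lit 3) (nat_lit 108) (nat_lit 231) r5_108 r1_231 (nat_lit 0) (nat_lit 0) (nat_lit 13555305) (nat_lit 0x7b2b08126) (nat_lit 629326967),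
  Rx.mk (nat_lit 308) (nat_lit 4) (nat_lit 6) (nat_lit 4) (nat_lit 2) (nat_lit 106) (nat_lit 225) r5_106 r1_225 (nat_lit 183334041) (nat_lit 0) (nat_lit 1138385) (nat_lit 0x858f1770c) (nat_lit 636880238),
  Rx.mk (nat_lit 340) (nat_lit 4) (nat_lit 2) (nat_lit 5) (nat_lit 6) (nat_lit 110) (nat_lit 230) r5_110 r1_230 (nat_lit 14046649) (nat_lit 0) (nat_lit 0) (nat_lit 0x808591f7a) (nat_lit 544109911),
  Rx.mk (nat_lit 342) (nat_lit 6) (nat_lit 2) (nat_lit 5) (nat_lit 7) (nat_lit 111) (nat_lit 232) r5_111 r1_232 (nat_lit 0) (nat_lit 0) (nat_lit 0) (nat_lit 0x8017985b4) (nat_lit 536870912),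
  Rx.mk (nat_lit 372) (nat_lit 4) (nat_lit 6) (nat_lit 5) (nat_lit 6) (nat_lit 109) (nat_lit 226) r5_109 r1_226 (nat_lit 20365735) (nat_lit 0) (nat_lit 0) (nat_lit 0x82689a0c8) (nat_lit 521307397),
  Rx.mk (nat_lit 406) (nat_lit 6) (nat_lit 2) (nat_lit 6) (nat_lit 7) (nat_lit 112) (nat_lit 233) r5_112 r1_233 (nat_lit 0) (nat_lit 0) (nat_lit 0) (nat_lit 0x8017985b4) (nat_lit 536870912),
  Rx.mk (nat_lit 500) (nat_lit 4) (nat_lit 6) (nat_lit 7) (nat_lit 6) (nat_lit 113) (nat_lit 227) r5_113 r1_227 (nat_lit 34273461) (nat_lit 0) (nat_lit 0) (nat_lit 0x80eb8917a) (nat_lit 558087723),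
  Rx.mk (nat_lit 503) (nat_lit 7) (nat_lit 6) (nat_lit 7) (nat_lit 7) (nat_lit 114) (nat_lit 228) r5_114 r1_228 (nat_lit 0) (nat_lit 0) (nat_lit 0) (nat_lit 0x80759d768) (nat_lit 530997812)]
noncomputable def e33_9 : List Rx := [
  Rx.mk (nat_lit 276) (nat_lit 4) (nat_lit 2) (nat_lit 4) (nat_lit 2) (nat_lit 124) (nat_lit 200) r5_124 r4_200 (nat_lit 27807) (nat_lit 0) (nat_lit 19134) (nat_lit 0x6beaf468e) (nat_lit 861670253),
  Rx.mk (nat_lit 278) (nat_lit 6) (nat_lit 2) (nat_lit 4) (nat_lit 3) (nat_lit 125) (nat_lit 202) r5_125 r4_202 (nat_lit 0) (nat_lit 0) (nat_lit 4444174) (nat_lit 0x7f2401202) (nat_lit 556007186),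
  Rx.mk (nat_lit 386) (nat_lit 2) (nat_lit 0) (nat_lit 6) (nat_lit 5) (nat_lit 128) (nat_lit 198) r5_128 r4_198 (nat_lit 0) (nat_lit 4758833) (nat_lit 0) (nat_lit 0x72642244c) (nat_lit 762218945),
  Rx.mk (nat_lit 390) (nat_lit 6) (nat_lit 0) (nat_lit 6) (nat_lit 5) (nat_lit 126) (nat_lit 197) r5_126 r4_197 (nat_lit 0) (nat_lit 10127202) (nat_lit 0) (nat_lit 0x78e0d6154) (nat_lit 662850514),
  Rx.mk (nat_lit 406) (nat_lit 6) (nat_lit 2) (nat_lit 6) (nat_lit 7) (nat_lit 127) (nat_lit 204) r5_127 r4_204 (nat_lit 0) (nat_lit 0) (nat_lit 0) (nat_lit 0x8017985b4) (nat_lit 536870912),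
  Rx.mk (nat_lit 410) (nat_lit 2) (nat_lit 3) (nat_lit 6) (nat_lit 7) (nat_lit 129) (nat_lit 199) r5_129 r4_199 (nat_lit 0) (nat_lit 0) (nat_lit 0) (nat_lit 0x7eb750676) (nat_lit 558254112),
  Rx.mk (nat_lit 468) (nat_lit 4) (nat_lit 2) (nat_lit 7) (nat_lit 6) (nat_lit 131) (nat_lit 201) r5_131 r4_201 (nat_lit 11917208) (nat_lit 0) (nat_lit 0) (nat_lit 0x7c8e48028) (nat_lit 605161420),
  Rx.mk (nat_lit 470) (nat_lit 6) (nat_lit 2) (nat_lit 7) (nat_lit 7) (nat_lit 132) (nat_lit 203) r5_132 r4_203 (nat_lit 0) (nat_lit 0) (nat_lit 0) (nat_lit 0x80931c514) (nat_lit 529274562),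
  Rx.mk (nat_lit 500) (nat_lit 4) (nat_lit 6) (nat_lit 7) (nat_lit 6) (nat_lit 130) (nat_lit 195) r5_130 r4_195 (nat_lit 202248689) (nat_lit 0) (nat_lit 0) (nat_lit 0x7fd88729e) (nat_lit 741698201),
  Rx.mk (nat_lit 503) (nat_lit 7) (nat_lit 6) (nat_lit 7) (nat_lit 7) (nat_lit 133) (nat_lit 196) r5_133 r4_196 (nat_lit 0) (nat_lit 0) (nat_lit 0) (nat_lit 0x7f0ea3518) (nat_lit 553137312)]
noncomputable def e33_10 : List Rx := [
  Rx.mk (nat_lit 55) (nat_lit 7) (nat_lit 6) (nat_lit 0) (nat_lit 3) (nat_lit 242) (nat_lit 252) r5_242 r6_252 (nat_lit 0) (nat_lit 0) (nat_lit 355084) (nat_lit 0x7fdb97272) (nat_lit 539655146),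
  Rx.mk (nat_lit 244) (nat_lit 4) (nat_lit 6) (nat_lit 3) (nat_lit 6) (nat_lit 243) (nat_lit 251) r5_243 r6_251 (nat_lit 52534) (nat_lit 0) (nat_lit 0) (nat_lit 0x806957f26) (nat_lit 530664346),
  Rx.mk (nat_lit 247) (nat_lit 7) (nat_lit 6) (nat_lit 3) (nat_lit 7) (nat_lit 244) (nat_lit 253) r5_244 r6_253 (nat_lit 0) (nat_lit 0) (nat_lit 0) (nat_lit 0x7f639d938) (nat_lit 547371662)]
noncomputable def e33_11 : List Rx := [
  Rx.mk (nat_lit 244) (nat_lit 4) (nat_lit 6) (nat_lit 3) (nat_lit 6) (nat_lit 228) (nat_lit 226) r5_228 r5_226 (nat_lit 5850069) (nat_lit 0) (nat_lit 0) (nat_lit 0x7b79ebb76) (nat_lit 616369131),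
  Rx.mk (nat_lit 247) (nat_lit 7) (nat_lit 6) (nat_lit 3) (nat_lit 7) (nat_lit 229) (nat_lit 227) r5_229 r5_227 (nat_lit 0) (nat_lit 0) (nat_lit 0) (nat_lit 0x7faf46fd8) (nat_lit 542713462),
  Rx.mk (nat_lit 468) (nat_lit 4) (nat_lit 2) (nat_lit 7) (nat_lit 6) (nat_lit 226) (nat_lit 228) r5_226 r5_228 (nat_lit 5850069) (nat_lit 0) (nat_lit 0) (nat_lit 0x7b79ebb76) (nat_lit 616369131),
  Rx.mk (nat_lit 470) (nat_lit 6) (nat_lit 2) (nat_lit 7) (nat_lit 7) (nat_lit 227) (nat_lit 229) r5_227 r5_229 (nat_lit 0) (nat_lit 0) (nat_lit 0) (nat_lit 0x7faf46fd8) (nat_lit 542713462),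
  Rx.mk (nat_lit 500) (nat_lit 4) (nat_lit 6) (nat_lit 7) (nat_lit 6) (nat_lit 225) (nat_lit 225) r5_225 r5_225 (nat_lit 18256872) (nat_lit 0) (nat_lit 0) (nat_lit 0x84be62d6e) (nat_lit 483320184)]
noncomputable def e33_12 : List Rx := [
  Rx.mk (nat_lit 53) (nat_lit 5) (nat_lit 6) (nat_lit 0) (nat_lit 3) (nat_lit 252) (nat_lit 315) r5_252 r0_315 (nat_lit 0) (nat_lit 0) (nat_lit 10663228) (nat_lit 0x7da55c5ce) (nat_lit 586217240),
  Rx.mk (nat_lit 116) (nat_lit 4) (nat_lit 6) (nat_lit 1) (nat_lit 6) (nat_lit 253) (nat_lit 316) r5_253 r0_316 (nat_lit 6936321) (nat_lit 0) (nat_lit 0) (nat_lit 0x7b9f03d96) (nat_lit 615253533),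
  Rx.mk (nat_lit 117) (nat_lit 5) (nat_lit 6) (nat_lit 1) (nat_lit 7) (nat_lit 254) (nat_lit 317) r5_254 r0_317 (nat_lit 0) (nat_lit 0) (nat_lit 0) (nat_lit 0x8071fa930) (nat_lit 530954762)]
noncomputable def e33_13 : List Rx := [
  Rx.mk (nat_lit 116) (nat_lit 4) (nat_lit 6) (nat_lit 1) (nat_lit 6) (nat_lit 256) (nat_lit 286) r5_256 r7_286 (nat_lit 10453794) (nat_lit 0) (nat_lit 0) (nat_lit 0x7f320ae16) (nat_lit 561328856),
  Rx.mk (nat_lit 117) (nat_lit 5) (nat_lit 6) (nat_lit 1) (nat_lit 7) (nat_lit 257) (nat_lit 287) r5_257 r7_287 (nat_lit 0) (nat_lit 0) (nat_lit 0) (nat_lit 0x811261be4) (nat_lit 521565112)]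
noncomputable def e33_14 : List Rx := [
  Rx.mk (nat_lit 53) (nat_lit 5) (nat_lit 6) (nat_lit 0) (nat_lit 3) (nat_lit 273) (nat_lit 303) r5_273 r1_303 (nat_lit 0) (nat_lit 0) (nat_lit 15528047) (nat_lit 0x815c32e9e) (nat_lit 532577559),
  Rx.mk (nat_lit 117) (nat_lit 5) (nat_lit 6) (nat_lit 1) (nat_lit 7) (nat_lit 274) (nat_lit 304) r5_274 r1_304 (nat_lit 0) (nat_lit 0) (nat_lit 0) (nat_lit 0x825a7268a) (nat_lit 501688462)]
noncomputable def e33_15 : List Rx := [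
  Rx.mk (nat_lit 117) (nat_lit 5) (nat_lit 6) (nat_lit 1) (nat_lit 7) (nat_lit 285) (nat_lit 218) r5_285 r8_218 (nat_lit 0) (nat_lit 0) (nat_lit 0) (nat_lit 0x815927600) (nat_lit 517280412)]
noncomputable def e33_16 : List Rx := [
  Rx.mk (nat_lit 116) (nat_lit 4) (nat_lit 6) (nat_lit 1) (nat_lit 6) (nat_lit 271) (nat_lit 349) r5_271 r8_349 (nat_lit 26551209) (nat_lit 0) (nat_lit 0) (nat_lit 0x7f5f75306) (nat_lit 574765171),
  Rx.mk (nat_lit 117) (nat_lit 5) (nat_lit 6) (nat_lit 1) (nat_lit 7) (nat_lit 272) (nat_lit 350) r5_272 r8_350 (nat_lit 0) (nat_lit 0) (nat_lit 0) (nat_lit 0x8017985b4) (nat_lit 536870912),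
  Rx.mk (nat_lit 372) (nat_lit 4) (nat_lit 6) (nat_lit 5) (nat_lit 6) (nat_lit 269) (nat_lit 347) r5_269 r8_347 (nat_lit 26407128) (nat_lit 0) (nat_lit 0) (nat_lit 0x7ed75b9ac) (nat_lit 583090140),
  Rx.mk (nat_lit 373) (nat_lit 5) (nat_lit 6) (nat_lit 5) (nat_lit 7) (nat_lit 270) (nat_lit 348) r5_270 r8_348 (nat_lit 0) (nat_lit 0) (nat_lit 0) (nat_lit 0x8017985b4) (nat_lit 536870912)]
noncomputable def e33_17 : List Rx := [
  Rx.mk (nat_lit 340) (nat_lit 4) (nat_lit 2) (nat_lit 5) (nat_lit 6) (nat_lit 262) (nat_lit 224) r5_262 r9_224 (nat_lit 27922064) (nat_lit 0) (nat_lit 0) (nat_lit 0x7cb09d100) (nat_lit 619170926),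
  Rx.mk (nat_lit 341) (nat_lit 5) (nat_lit 2) (nat_lit 5) (nat_lit 7) (nat_lit 264) (nat_lit 226) r5_264 r9_226 (nat_lit 0) (nat_lit 0) (nat_lit 0) (nat_lit 0x8017985b4) (nat_lit 536870912),
  Rx.mk (nat_lit 342) (nat_lit 6) (nat_lit 2) (nat_lit 5) (nat_lit 7) (nat_lit 265) (nat_lit 228) r5_265 r9_228 (nat_lit 0) (nat_lit 0) (nat_lit 0) (nat_lit 0x8017985b4) (nat_lit 536870912),
  Rx.mk (nat_lit 372) (nat_lit 4) (nat_lit 6) (nat_lit 5) (nat_lit 6) (nat_lit 261) (nat_lit 225) r5_261 r9_225 (nat_lit 29963902) (nat_lit 0) (nat_lit 0) (nat_lit 0x7c0aae942) (nat_lit 631646464),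
  Rx.mk (nat_lit 373) (nat_lit 5) (nat_lit 6) (nat_lit 5) (nat_lit 7) (nat_lit 263) (nat_lit 227) r5_263 r9_227 (nat_lit 0) (nat_lit 0) (nat_lit 0) (nat_lit 0x8017985b4) (nat_lit 536870912)]
noncomputable def e33_18 : List Rx := [
  Rx.mk (nat_lit 52) (nat_lit 4) (nat_lit 6) (nat_lit 0) (nat_lit 2) (nat_lit 297) (nat_lit 343) r5_297 r4_343 (nat_lit 4914536) (nat_lit 0) (nat_lit 8412019) (nat_lit 0x7692903ac) (nat_lit 703204217),
  Rx.mk (nat_lit 53) (nat_lit 5) (nat_lit 6) (nat_lit 0) (nat_lit 3) (nat_lit 298) (nat_lit 344) r5_298 r4_344 (nat_lit 0) (nat_lit 0) (nat_lit 16948508) (nat_lit 0x809c7b0d8) (nat_lit 545627870),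
  Rx.mk (nat_lit 55) (nat_lit 7) (nat_lit 6) (nat_lit 0) (nat_lit 3) (nat_lit 299) (nat_lit 345) r5_299 r4_345 (nat_lit 0) (nat_lit 0) (nat_lit 16388111) (nat_lit 0x805f52918) (nat_lit 548834573),
  Rx.mk (nat_lit 116) (nat_lit 4) (nat_lit 6) (nat_lit 1) (nat_lit 6) (nat_lit 300) (nat_lit 346) r5_300 r4_346 (nat_lit 2837782) (nat_lit 0) (nat_lit 0) (nat_lit 0x88d4b3178) (nat_lit 405532494),
  Rx.mk (nat_lit 117) (nat_lit 5) (nat_lit 6) (nat_lit 1) (nat_lit 7) (nat_lit 301) (nat_lit 347) r5_301 r4_347 (nat_lit 0) (nat_lit 0) (nat_lit 0) (nat_lit 0x8942acc88) (nat_lit 396280012),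
  Rx.mk (nat_lit 119) (nat_lit 7) (nat_lit 6) (nat_lit 1) (nat_lit 7) (nat_lit 302) (nat_lit 348) r5_302 r4_348 (nat_lit 0) (nat_lit 0) (nat_lit 0) (nat_lit 0x816422d98) (nat_lit 516613662)]
noncomputable def e33_19 : List Rx := [
  Rx.mk (nat_lit 116) (nat_lit 4) (nat_lit 6) (nat_lit 1) (nat_lit 6) (nat_lit 307) (nat_lit 237) r5_307 r10_237 (nat_lit 11477207) (nat_lit 0) (nat_lit 0) (nat_lit 0x7fc2367ba) (nat_lit 553442619),
  Rx.mk (nat_lit 117) (nat_lit 5) (nat_lit 6) (nat_lit 1) (nat_lit 7) (nat_lit 308) (nat_lit 238) r5_308 r10_238 (nat_lit 0) (nat_lit 0) (nat_lit 0) (nat_lit 0x80b9b4848) (nat_lit 526949812),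
  Rx.mk (nat_lit 119) (nat_lit 7) (nat_lit 6) (nat_lit 1) (nat_lit 7) (nat_lit 309) (nat_lit 239) r5_309 r10_239 (nat_lit 0) (nat_lit 0) (nat_lit 0) (nat_lit 0x80b9b154e) (nat_lit 526950562)]
noncomputable def e33_20 : List Rx := [
  Rx.mk (nat_lit 52) (nat_lit 4) (nat_lit 6) (nat_lit 0) (nat_lit 2) (nat_lit 316) (nat_lit 273) r5_316 r11_273 (nat_lit 20649739) (nat_lit 0) (nat_lit 21014715) (nat_lit 0x729e8ccc2) (nat_lit 795632066),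
  Rx.mk (nat_lit 53) (nat_lit 5) (nat_lit 6) (nat_lit 0) (nat_lit 3) (nat_lit 317) (nat_lit 276) r5_317 r11_276 (nat_lit 0) (nat_lit 0) (nat_lit 20064994) (nat_lit 0x807284b4e) (nat_lit 551341856),
  Rx.mk (nat_lit 55) (nat_lit 7) (nat_lit 6) (nat_lit 0) (nat_lit 3) (nat_lit 318) (nat_lit 279) r5_318 r11_279 (nat_lit 0) (nat_lit 0) (nat_lit 21930199) (nat_lit 0x8037c1084) (nat_lit 556823461),
  Rx.mk (nat_lit 116) (nat_lit 4) (nat_lit 6) (nat_lit 1) (nat_lit 6) (nat_lit 319) (nat_lit 274) r5_319 r11_274 (nat_lit 24741287) (nat_lit 0) (nat_lit 0) (nat_lit 0x8017985b4) (nat_lit 561612199),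
  Rx.mk (nat_lit 117) (nat_lit 5) (nat_lit 6) (nat_lit 1) (nat_lit 7) (nat_lit 320) (nat_lit 277) r5_320 r11_277 (nat_lit 0) (nat_lit 0) (nat_lit 0) (nat_lit 0x8017985b4) (nat_lit 536870912),
  Rx.mk (nat_lit 119) (nat_lit 7) (nat_lit 6) (nat_lit 1) (nat_lit 7) (nat_lit 321) (nat_lit 280) r5_321 r11_280 (nat_lit 0) (nat_lit 0) (nat_lit 0) (nat_lit 0x8017985b4) (nat_lit 536870912),
  Rx.mk (nat_lit 244) (nat_lit 4) (nat_lit 6) (nat_lit 3) (nat_lit 6) (nat_lit 322) (nat_lit 275) r5_322 r11_275 (nat_lit 24086680) (nat_lit 0) (nat_lit 0) (nat_lit 0x7f9584f64) (nat_lit 568953542),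
  Rx.mk (nat_lit 245) (nat_lit 5) (nat_lit 6) (nat_lit 3) (nat_lit 7) (nat_lit 323) (nat_lit 278) r5_323 r11_278 (nat_lit 0) (nat_lit 0) (nat_lit 0) (nat_lit 0x8017985b4) (nat_lit 536870912)]
noncomputable def e33_21 : List Rx := [
  Rx.mk (nat_lit 342) (nat_lit 6) (nat_lit 2) (nat_lit 5) (nat_lit 7) (nat_lit 266) (nat_lit 215) r5_266 r9_215 (nat_lit 0) (nat_lit 0) (nat_lit 0) (nat_lit 0x7fd940442) (nat_lit 540690962)]
noncomputable def e33_22 : List Rx := [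
  Rx.mk (nat_lit 130) (nat_lit 2) (nat_lit 0) (nat_lit 2) (nat_lit 5) (nat_lit 4) (nat_lit 65) r5_4 r0_65 (nat_lit 0) (nat_lit 5300773) (nat_lit 0) (nat_lit 0x744841172) (nat_lit 732209835),
  Rx.mk (nat_lit 154) (nat_lit 2) (nat_lit 3) (nat_lit 2) (nat_lit 7) (nat_lit 5) (nat_lit 66) r5_5 r0_66 (nat_lit 0) (nat_lit 0) (nat_lit 0) (nat_lit 0x7e757e964) (nat_lit 562790112),
  Rx.mk (nat_lit 278) (nat_lit 6) (nat_lit 2) (nat_lit 4) (nat_lit 3) (nat_lit 0) (nat_lit 67) r5_0 r0_67 (nat_lit 0) (nat_lit 0) (nat_lit 3027604) (nat_lit 0x6b9390500) (nat_lit 870600266),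
  Rx.mk (nat_lit 386) (nat_lit 2) (nat_lit 0) (nat_lit 6) (nat_lit 5) (nat_lit 3) (nat_lit 68) r5_3 r0_68 (nat_lit 0) (nat_lit 2967474) (nat_lit 0) (nat_lit 0x6ee61820c) (nat_lit 816847386),
  Rx.mk (nat_lit 390) (nat_lit 6) (nat_lit 0) (nat_lit 6) (nat_lit 5) (nat_lit 1) (nat_lit 69) r5_1 r0_69 (nat_lit 0) (nat_lit 3947515) (nat_lit 0) (nat_lit 0x65de79e82) (nat_lit 963893527),
  Rx.mk (nat_lit 406) (nat_lit 6) (nat_lit 2) (nat_lit 6) (nat_lit 7) (nat_lit 2) (nat_lit 70) r5_2 r0_70 (nat_lit 0) (nat_lit 0) (nat_lit 0) (nat_lit 0x7d9d38000) (nat_lit 576358762)]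
noncomputable def e33_23 : List Rx := [
  Rx.mk (nat_lit 130) (nat_lit 2) (nat_lit 0) (nat_lit 2) (nat_lit 5) (nat_lit 11) (nat_lit 58) r5_11 r1_58 (nat_lit 0) (nat_lit 6051545) (nat_lit 0) (nat_lit 0x72f5acc5a) (nat_lit 754383857),
  Rx.mk (nat_lit 138) (nat_lit 2) (nat_lit 1) (nat_lit 2) (nat_lit 7) (nat_lit 12) (nat_lit 59) r5_12 r1_59 (nat_lit 0) (nat_lit 0) (nat_lit 0) (nat_lit 0x814d8e96a) (nat_lit 517942162),
  Rx.mk (nat_lit 154) (nat_lit 2) (nat_lit 3) (nat_lit 2) (nat_lit 7) (nat_lit 13) (nat_lit 60) r5_13 r1_60 (nat_lit 0) (nat_lit 0) (nat_lit 0) (nat_lit 0x7fe62a1bc) (nat_lit 539838662),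
  Rx.mk (nat_lit 386) (nat_lit 2) (nat_lit 0) (nat_lit 6) (nat_lit 5) (nat_lit 9) (nat_lit 61) r5_9 r1_61 (nat_lit 0) (nat_lit 3702159) (nat_lit 0) (nat_lit 0x6eab69304) (nat_lit 821330421),
  Rx.mk (nat_lit 390) (nat_lit 6) (nat_lit 0) (nat_lit 6) (nat_lit 5) (nat_lit 6) (nat_lit 63) r5_6 r1_63 (nat_lit 0) (nat_lit 10795266) (nat_lit 0) (nat_lit 0x6d3a97438) (nat_lit 851857228),
  Rx.mk (nat_lit 394) (nat_lit 2) (nat_lit 1) (nat_lit 6) (nat_lit 7) (nat_lit 10) (nat_lit 62) r5_10 r1_62 (nat_lit 0) (nat_lit 0) (nat_lit 0) (nat_lit 0x8270dea40) (nat_lit 500473562),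
  Rx.mk (nat_lit 398) (nat_lit 6) (nat_lit 1) (nat_lit 6) (nat_lit 7) (nat_lit 7) (nat_lit 64) r5_7 r1_64 (nat_lit 0) (nat_lit 0) (nat_lit 0) (nat_lit 0x8038a520c) (nat_lit 534837962),
  Rx.mk (nat_lit 406) (nat_lit 6) (nat_lit 2) (nat_lit 6) (nat_lit 7) (nat_lit 8) (nat_lit 65) r5_8 r1_65 (nat_lit 0) (nat_lit 0) (nat_lit 0) (nat_lit 0x8009d4658) (nat_lit 537721562)]
noncomputable def e33_24 : List Rx := [
  Rx.mk (nat_lit 154) (nat_lit 2) (nat_lit 3) (nat_lit 2) (nat_lit 7) (nat_lit 33) (nat_lit 58) r5_33 r4_58 (nat_lit 0) (nat_lit 0) (nat_lit 0) (nat_lit 0x7f5b0655e) (nat_lit 548352312),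
  Rx.mk (nat_lit 278) (nat_lit 6) (nat_lit 2) (nat_lit 4) (nat_lit 3) (nat_lit 27) (nat_lit 59) r5_27 r4_59 (nat_lit 0) (nat_lit 0) (nat_lit 6174630) (nat_lit 0x7de1761fe) (nat_lit 578007592),
  Rx.mk (nat_lit 386) (nat_lit 2) (nat_lit 0) (nat_lit 6) (nat_lit 5) (nat_lit 30) (nat_lit 61) r5_30 r4_61 (nat_lit 0) (nat_lit 2696286) (nat_lit 0) (nat_lit 0x7ed2b6d5c) (nat_lit 559201548),
  Rx.mk (nat_lit 390) (nat_lit 6) (nat_lit 0) (nat_lit 6) (nat_lit 5) (nat_lit 28) (nat_lit 63) r5_28 r4_63 (nat_lit 0) (nat_lit 8135991) (nat_lit 0) (nat_lit 0x79057fe38) (nat_lit 658530703),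
  Rx.mk (nat_lit 406) (nat_lit 6) (nat_lit 2) (nat_lit 6) (nat_lit 7) (nat_lit 29) (nat_lit 64) r5_29 r4_64 (nat_lit 0) (nat_lit 0) (nat_lit 0) (nat_lit 0x80009fe20) (nat_lit 538237112),
  Rx.mk (nat_lit 410) (nat_lit 2) (nat_lit 3) (nat_lit 6) (nat_lit 7) (nat_lit 31) (nat_lit 62) r5_31 r4_62 (nat_lit 0) (nat_lit 0) (nat_lit 0) (nat_lit 0x80e735e2a) (nat_lit 524112462),
  Rx.mk (nat_lit 470) (nat_lit 6) (nat_lit 2) (nat_lit 7) (nat_lit 7) (nat_lit 32) (nat_lit 60) r5_32 r4_60 (nat_lit 0) (nat_lit 0) (nat_lit 0) (nat_lit 0x80483a47e) (nat_lit 532926012)]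
noncomputable def e33_25 : List Rx := [
  Rx.mk (nat_lit 278) (nat_lit 6) (nat_lit 2) (nat_lit 4) (nat_lit 3) (nat_lit 102) (nat_lit 272) r5_102 r7_272 (nat_lit 0) (nat_lit 0) (nat_lit 6601539) (nat_lit 0x821cfef2e) (nat_lit 512046101),
  Rx.mk (nat_lit 386) (nat_lit 2) (nat_lit 0) (nat_lit 6) (nat_lit 5) (nat_lit 105) (nat_lit 271) r5_105 r7_271 (nat_lit 0) (nat_lit 7182949) (nat_lit 0) (nat_lit 0x7cac4e324) (nat_lit 598492961),
  Rx.mk (nat_lit 390) (nat_lit 6) (nat_lit 0) (nat_lit 6) (nat_lit 5) (nat_lit 103) (nat_lit 270) r5_103 r7_270 (nat_lit 0) (nat_lit 19223735) (nat_lit 0) (nat_lit 0x75d2c1c74) (nat_lit 721395547),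
  Rx.mk (nat_lit 406) (nat_lit 6) (nat_lit 2) (nat_lit 6) (nat_lit 7) (nat_lit 104) (nat_lit 273) r5_104 r7_273 (nat_lit 0) (nat_lit 0) (nat_lit 0) (nat_lit 0x8017985b4) (nat_lit 536870912)]
noncomputable def e33_26 : List Rx := [
  Rx.mk (nat_lit 386) (nat_lit 2) (nat_lit 0) (nat_lit 6) (nat_lit 5) (nat_lit 121) (nat_lit 202) r5_121 r8_202 (nat_lit 0) (nat_lit 10065734) (nat_lit 0) (nat_lit 0x7e9c4689e) (nat_lit 570285946),
  Rx.mk (nat_lit 390) (nat_lit 6) (nat_lit 0) (nat_lit 6) (nat_lit 5) (nat_lit 118) (nat_lit 201) r5_118 r8_201 (nat_lit 0) (nat_lit 25748057) (nat_lit 0) (nat_lit 0x790d284fa) (nat_lit 675764869),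
  Rx.mk (nat_lit 394) (nat_lit 2) (nat_lit 1) (nat_lit 6) (nat_lit 7) (nat_lit 122) (nat_lit 204) r5_122 r8_204 (nat_lit 0) (nat_lit 0) (nat_lit 0) (nat_lit 0x80d50bd58) (nat_lit 525282062),
  Rx.mk (nat_lit 398) (nat_lit 6) (nat_lit 1) (nat_lit 6) (nat_lit 7) (nat_lit 119) (nat_lit 203) r5_119 r8_203 (nat_lit 0) (nat_lit 0) (nat_lit 0) (nat_lit 0x8017985b4) (nat_lit 536870912),
  Rx.mk (nat_lit 406) (nat_lit 6) (nat_lit 2) (nat_lit 6) (nat_lit 7) (nat_lit 120) (nat_lit 205) r5_120 r8_205 (nat_lit 0) (nat_lit 0) (nat_lit 0) (nat_lit 0x8017985b4) (nat_lit 536870912)]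
noncomputable def e33_27 : List Rx := [
  Rx.mk (nat_lit 278) (nat_lit 6) (nat_lit 2) (nat_lit 4) (nat_lit 3) (nat_lit 115) (nat_lit 58) r5_115 r8_58 (nat_lit 0) (nat_lit 0) (nat_lit 14303237) (nat_lit 0x7ea35f61c) (nat_lit 574182799),
  Rx.mk (nat_lit 342) (nat_lit 6) (nat_lit 2) (nat_lit 5) (nat_lit 7) (nat_lit 116) (nat_lit 59) r5_116 r8_59 (nat_lit 0) (nat_lit 0) (nat_lit 0) (nat_lit 0x805c00e40) (nat_lit 532666762),
  Rx.mk (nat_lit 406) (nat_lit 6) (nat_lit 2) (nat_lit 6) (nat_lit 7) (nat_lit 117) (nat_lit 60) r5_117 r8_60 (nat_lit 0) (nat_lit 0) (nat_lit 0) (nat_lit 0x8017985b4) (nat_lit 536870912)]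
noncomputable def e33_28 : List Rx := [
  Rx.mk (nat_lit 278) (nat_lit 6) (nat_lit 2) (nat_lit 4) (nat_lit 3) (nat_lit 134) (nat_lit 215) r5_134 r10_215 (nat_lit 0) (nat_lit 0) (nat_lit 6614420) (nat_lit 0x81f9ff474) (nat_lit 514154582),
  Rx.mk (nat_lit 386) (nat_lit 2) (nat_lit 0) (nat_lit 6) (nat_lit 5) (nat_lit 137) (nat_lit 213) r5_137 r10_213 (nat_lit 0) (nat_lit 5865404) (nat_lit 0) (nat_lit 0x7ef7589d0) (nat_lit 560306366),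
  Rx.mk (nat_lit 390) (nat_lit 6) (nat_lit 0) (nat_lit 6) (nat_lit 5) (nat_lit 135) (nat_lit 212) r5_135 r10_212 (nat_lit 0) (nat_lit 16735369) (nat_lit 0) (nat_lit 0x79b416a78) (nat_lit 656180481),
  Rx.mk (nat_lit 406) (nat_lit 6) (nat_lit 2) (nat_lit 6) (nat_lit 7) (nat_lit 136) (nat_lit 217) r5_136 r10_217 (nat_lit 0) (nat_lit 0) (nat_lit 0) (nat_lit 0x8017985b4) (nat_lit 536870912),
  Rx.mk (nat_lit 410) (nat_lit 2) (nat_lit 3) (nat_lit 6) (nat_lit 7) (nat_lit 138) (nat_lit 214) r5_138 r10_214 (nat_lit 0) (nat_lit 0) (nat_lit 0) (nat_lit 0x815de8a72) (nat_lit 517001212),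
  Rx.mk (nat_lit 470) (nat_lit 6) (nat_lit 2) (nat_lit 7) (nat_lit 7) (nat_lit 139) (nat_lit 216) r5_139 r10_216 (nat_lit 0) (nat_lit 0) (nat_lit 0) (nat_lit 0x80c39fc54) (nat_lit 526340012)]
noncomputable def e33_29 : List Rx := [
  Rx.mk (nat_lit 470) (nat_lit 6) (nat_lit 2) (nat_lit 7) (nat_lit 7) (nat_lit 230) (nat_lit 265) r5_230 r11_265 (nat_lit 0) (nat_lit 0) (nat_lit 0) (nat_lit 0x880aa8a68) (nat_lit 414822412)]
noncomputable def e33_30 : List Rx := [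
  Rx.mk (nat_lit 55) (nat_lit 7) (nat_lit 6) (nat_lit 0) (nat_lit 3) (nat_lit 303) (nat_lit 303) r5_303 r5_303 (nat_lit 0) (nat_lit 0) (nat_lit 811576) (nat_lit 0x800e813cc) (nat_lit 537125038),
  Rx.mk (nat_lit 119) (nat_lit 7) (nat_lit 6) (nat_lit 1) (nat_lit 7) (nat_lit 304) (nat_lit 304) r5_304 r5_304 (nat_lit 0) (nat_lit 0) (nat_lit 0) (nat_lit 0x8142f445a) (nat_lit 518652812)]
noncomputable def e33_31 : List Rx := [
  Rx.mk (nat_lit 119) (nat_lit 7) (nat_lit 6) (nat_lit 1) (nat_lit 7) (nat_lit 310) (nat_lit 356) r5_310 r11_356 (nat_lit 0) (nat_lit 0) (nat_lit 0) (nat_lit 0x81691ae72) (nat_lit 516102862)]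
noncomputable def e33_32 : List Rx := [
  Rx.mk (nat_lit 35) (nat_lit 3) (nat_lit 4) (nat_lit 0) (nat_lit 1) (nat_lit 70) (nat_lit 90) r5_70 r6_90 (nat_lit 0) (nat_lit 151381) (nat_lit 214613) (nat_lit 0x7f84aacac) (nat_lit 545085756),
  Rx.mk (nat_lit 51) (nat_lit 3) (nat_lit 6) (nat_lit 0) (nat_lit 3) (nat_lit 71) (nat_lit 92) r5_71 r6_92 (nat_lit 0) (nat_lit 0) (nat_lit 5517824) (nat_lit 0x80fe04cf0) (nat_lit 528080236),
  Rx.mk (nat_lit 59) (nat_lit 3) (nat_lit 7) (nat_lit 0) (nat_lit 3) (nat_lit 72) (nat_lit 91) r5_72 r6_91 (nat_lit 0) (nat_lit 0) (nat_lit 7478372) (nat_lit 0x7e7bc2848) (nat_lit 569688734),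
  Rx.mk (nat_lit 163) (nat_lit 3) (nat_lit 4) (nat_lit 2) (nat_lit 5) (nat_lit 75) (nat_lit 95) r5_75 r6_95 (nat_lit 0) (nat_lit 506970) (nat_lit 0) (nat_lit 0x8036353fa) (nat_lit 534398782),
  Rx.mk (nat_lit 184) (nat_lit 0) (nat_lit 7) (nat_lit 2) (nat_lit 6) (nat_lit 73) (nat_lit 89) r5_73 r6_89 (nat_lit 6235362) (nat_lit 0) (nat_lit 0) (nat_lit 0x7e4c9eb16) (nat_lit 571302074),
  Rx.mk (nat_lit 186) (nat_lit 2) (nat_lit 7) (nat_lit 2) (nat_lit 7) (nat_lit 74) (nat_lit 97) r5_74 r6_97 (nat_lit 0) (nat_lit 0) (nat_lit 0) (nat_lit 0x7ffe6318e) (nat_lit 538324412),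
  Rx.mk (nat_lit 187) (nat_lit 3) (nat_lit 7) (nat_lit 2) (nat_lit 7) (nat_lit 76) (nat_lit 96) r5_76 r6_96 (nat_lit 0) (nat_lit 0) (nat_lit 0) (nat_lit 0x8de7568e8) (nat_lit 325388962),
  Rx.mk (nat_lit 227) (nat_lit 3) (nat_lit 4) (nat_lit 3) (nat_lit 5) (nat_lit 78) (nat_lit 93) r5_78 r6_93 (nat_lit 0) (nat_lit 14912566) (nat_lit 0) (nat_lit 0x7ad02e7c8) (nat_lit 636403678),
  Rx.mk (nat_lit 243) (nat_lit 3) (nat_lit 6) (nat_lit 3) (nat_lit 7) (nat_lit 79) (nat_lit 94) r5_79 r6_94 (nat_lit 0) (nat_lit 0) (nat_lit 0) (nat_lit 0x7df8696ea) (nat_lit 570525862),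
  Rx.mk (nat_lit 247) (nat_lit 7) (nat_lit 6) (nat_lit 3) (nat_lit 7) (nat_lit 77) (nat_lit 88) r5_77 r6_88 (nat_lit 0) (nat_lit 0) (nat_lit 0) (nat_lit 0x7adbdb5da) (nat_lit 620253362)]
noncomputable def e33_33 : List Rx := [
  Rx.mk (nat_lit 59) (nat_lit 3) (nat_lit 7) (nat_lit 0) (nat_lit 3) (nat_lit 43) (nat_lit 34) r5_43 r5_34 (nat_lit 0) (nat_lit 0) (nat_lit 7782) (nat_lit 0x7fffb2940) (nat_lit 536903144),
  Rx.mk (nat_lit 154) (nat_lit 2) (nat_lit 3) (nat_lit 2) (nat_lit 7) (nat_lit 46) (nat_lit 41) r5_46 r5_41 (nat_lit 0) (nat_lit 0) (nat_lit 0) (nat_lit 0x69d8ee522) (nat_lit 895187012),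
  Rx.mk (nat_lit 184) (nat_lit 0) (nat_lit 7) (nat_lit 2) (nat_lit 6) (nat_lit 44) (nat_lit 39) r5_44 r5_39 (nat_lit 95224) (nat_lit 0) (nat_lit 0) (nat_lit 0x657b91806) (nat_lit 965803786),
  Rx.mk (nat_lit 186) (nat_lit 2) (nat_lit 7) (nat_lit 2) (nat_lit 7) (nat_lit 45) (nat_lit 42) r5_45 r5_42 (nat_lit 0) (nat_lit 0) (nat_lit 0) (nat_lit 0x84d140d82) (nat_lit 463855312),
  Rx.mk (nat_lit 187) (nat_lit 3) (nat_lit 7) (nat_lit 2) (nat_lit 7) (nat_lit 47) (nat_lit 40) r5_47 r5_40 (nat_lit 0) (nat_lit 0) (nat_lit 0) (nat_lit 0x9c18cb802) (nat_lit 108391362),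
  Rx.mk (nat_lit 227) (nat_lit 3) (nat_lit 4) (nat_lit 3) (nat_lit 5) (nat_lit 49) (nat_lit 35) r5_49 r5_35 (nat_lit 0) (nat_lit 60765) (nat_lit 0) (nat_lit 0x613d6daec) (nat_lit 1034367827),
  Rx.mk (nat_lit 243) (nat_lit 3) (nat_lit 6) (nat_lit 3) (nat_lit 7) (nat_lit 50) (nat_lit 37) r5_50 r5_37 (nat_lit 0) (nat_lit 0) (nat_lit 0) (nat_lit 0x7bbed4a8a) (nat_lit 606336812),
  Rx.mk (nat_lit 247) (nat_lit 7) (nat_lit 6) (nat_lit 3) (nat_lit 7) (nat_lit 48) (nat_lit 38) r5_48 r5_38 (nat_lit 0) (nat_lit 0) (nat_lit 0) (nat_lit 0x71216a11e) (nat_lit 777371612),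
  Rx.mk (nat_lit 251) (nat_lit 3) (nat_lit 7) (nat_lit 3) (nat_lit 7) (nat_lit 51) (nat_lit 36) r5_51 r5_36 (nat_lit 0) (nat_lit 0) (nat_lit 0) (nat_lit 0x7cdc412e8) (nat_lit 588411612),
  Rx.mk (nat_lit 278) (nat_lit 6) (nat_lit 2) (nat_lit 4) (nat_lit 3) (nat_lit 34) (nat_lit 43) r5_34 r5_43 (nat_lit 0) (nat_lit 0) (nat_lit 7782) (nat_lit 0x7fffb2940) (nat_lit 536903144),
  Rx.mk (nat_lit 390) (nat_lit 6) (nat_lit 0) (nat_lit 6) (nat_lit 5) (nat_lit 35) (nat_lit 49) r5_35 r5_49 (nat_lit 0) (nat_lit 60765) (nat_lit 0) (nat_lit 0x613d6daec) (nat_lit 1034367827),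
  Rx.mk (nat_lit 406) (nat_lit 6) (nat_lit 2) (nat_lit 6) (nat_lit 7) (nat_lit 36) (nat_lit 51) r5_36 r5_51 (nat_lit 0) (nat_lit 0) (nat_lit 0) (nat_lit 0x7cdc412e8) (nat_lit 588411612),
  Rx.mk (nat_lit 410) (nat_lit 2) (nat_lit 3) (nat_lit 6) (nat_lit 7) (nat_lit 38) (nat_lit 48) r5_38 r5_48 (nat_lit 0) (nat_lit 0) (nat_lit 0) (nat_lit 0x71216a11e) (nat_lit 777371612),
  Rx.mk (nat_lit 414) (nat_lit 6) (nat_lit 3) (nat_lit 6) (nat_lit 7) (nat_lit 37) (nat_lit 50) r5_37 r5_50 (nat_lit 0) (nat_lit 0) (nat_lit 0) (nat_lit 0x7bbed4a8a) (nat_lit 606336812),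
  Rx.mk (nat_lit 468) (nat_lit 4) (nat_lit 2) (nat_lit 7) (nat_lit 6) (nat_lit 39) (nat_lit 44) r5_39 r5_44 (nat_lit 95224) (nat_lit 0) (nat_lit 0) (nat_lit 0x657b91806) (nat_lit 965803786),
  Rx.mk (nat_lit 470) (nat_lit 6) (nat_lit 2) (nat_lit 7) (nat_lit 7) (nat_lit 40) (nat_lit 47) r5_40 r5_47 (nat_lit 0) (nat_lit 0) (nat_lit 0) (nat_lit 0x9c18cb802) (nat_lit 108391362),
  Rx.mk (nat_lit 471) (nat_lit 7) (nat_lit 2) (nat_lit 7) (nat_lit 7) (nat_lit 42) (nat_lit 45) r5_42 r5_45 (nat_lit 0) (nat_lit 0) (nat_lit 0) (nat_lit 0x84d140d82) (nat_lit 463855312),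
  Rx.mk (nat_lit 503) (nat_lit 7) (nat_lit 6) (nat_lit 7) (nat_lit 7) (nat_lit 41) (nat_lit 46) r5_41 r5_46 (nat_lit 0) (nat_lit 0) (nat_lit 0) (nat_lit 0x69d8ee522) (nat_lit 895187012)]
noncomputable def e33_34 : List Rx := [
  Rx.mk (nat_lit 276) (nat_lit 4) (nat_lit 2) (nat_lit 4) (nat_lit 2) (nat_lit 140) (nat_lit 9) r5_140 r11_9 (nat_lit 674925) (nat_lit 0) (nat_lit 474232) (nat_lit 0x722cb1ea4) (nat_lit 761731069),
  Rx.mk (nat_lit 278) (nat_lit 6) (nat_lit 2) (nat_lit 4) (nat_lit 3) (nat_lit 141) (nat_lit 10) r5_141 r11_10 (nat_lit 0) (nat_lit 0) (nat_lit 4328604) (nat_lit 0x8397c64a4) (nat_lit 487049866),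
  Rx.mk (nat_lit 390) (nat_lit 6) (nat_lit 0) (nat_lit 6) (nat_lit 5) (nat_lit 142) (nat_lit 16) r5_142 r11_16 (nat_lit 0) (nat_lit 13610733) (nat_lit 0) (nat_lit 0x7f8c34efa) (nat_lit 558980045),
  Rx.mk (nat_lit 406) (nat_lit 6) (nat_lit 2) (nat_lit 6) (nat_lit 7) (nat_lit 143) (nat_lit 18) r5_143 r11_18 (nat_lit 0) (nat_lit 0) (nat_lit 0) (nat_lit 0x804f350bc) (nat_lit 533454612),
  Rx.mk (nat_lit 410) (nat_lit 2) (nat_lit 3) (nat_lit 6) (nat_lit 7) (nat_lit 145) (nat_lit 15) r5_145 r11_15 (nat_lit 0) (nat_lit 0) (nat_lit 0) (nat_lit 0x839723e3e) (nat_lit 482866162),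
  Rx.mk (nat_lit 414) (nat_lit 6) (nat_lit 3) (nat_lit 6) (nat_lit 7) (nat_lit 144) (nat_lit 17) r5_144 r11_17 (nat_lit 0) (nat_lit 0) (nat_lit 0) (nat_lit 0x804f3bf3e) (nat_lit 533452962),
  Rx.mk (nat_lit 468) (nat_lit 4) (nat_lit 2) (nat_lit 7) (nat_lit 6) (nat_lit 146) (nat_lit 11) r5_146 r11_11 (nat_lit 9828533) (nat_lit 0) (nat_lit 0) (nat_lit 0x7fdfbd658) (nat_lit 549901095),
  Rx.mk (nat_lit 470) (nat_lit 6) (nat_lit 2) (nat_lit 7) (nat_lit 7) (nat_lit 147) (nat_lit 14) r5_147 r11_14 (nat_lit 0) (nat_lit 0) (nat_lit 0) (nat_lit 0x81c0f7b72) (nat_lit 511039762),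
  Rx.mk (nat_lit 471) (nat_lit 7) (nat_lit 2) (nat_lit 7) (nat_lit 7) (nat_lit 149) (nat_lit 12) r5_149 r11_12 (nat_lit 0) (nat_lit 0) (nat_lit 0) (nat_lit 0x80700d5c8) (nat_lit 531445012),
  Rx.mk (nat_lit 503) (nat_lit 7) (nat_lit 6) (nat_lit 7) (nat_lit 7) (nat_lit 148) (nat_lit 13) r5_148 r11_13 (nat_lit 0) (nat_lit 0) (nat_lit 0) (nat_lit 0x8219c55ce) (nat_lit 505691562)]
noncomputable def e33_35 : List Rx := [
  Rx.mk (nat_lit 35) (nat_lit 3) (nat_lit 4) (nat_lit 0) (nat_lit 1) (nat_lit 232) (nat_lit 363) r5_232 r6_363 (nat_lit 0) (nat_lit 1266917) (nat_lit 1379852) (nat_lit 0x7a2fc99c2) (nat_lit 633790631),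
  Rx.mk (nat_lit 51) (nat_lit 3) (nat_lit 6) (nat_lit 0) (nat_lit 3) (nat_lit 233) (nat_lit 365) r5_233 r6_365 (nat_lit 0) (nat_lit 0) (nat_lit 4400993) (nat_lit 0x831fc2ff2) (nat_lit 494248105),
  Rx.mk (nat_lit 55) (nat_lit 7) (nat_lit 6) (nat_lit 0) (nat_lit 3) (nat_lit 231) (nat_lit 366) r5_231 r6_366 (nat_lit 0) (nat_lit 0) (nat_lit 64873) (nat_lit 0x800bef67c) (nat_lit 536253635),
  Rx.mk (nat_lit 163) (nat_lit 3) (nat_lit 4) (nat_lit 2) (nat_lit 5) (nat_lit 234) (nat_lit 364) r5_234 r6_364 (nat_lit 0) (nat_lit 745573) (nat_lit 0) (nat_lit 0x806c92614) (nat_lit 531405435)]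
noncomputable def e33_36 : List Rx := [
  Rx.mk (nat_lit 35) (nat_lit 3) (nat_lit 4) (nat_lit 0) (nat_lit 1) (nat_lit 246) (nat_lit 270) r5_246 r12_270 (nat_lit 0) (nat_lit 183720) (nat_lit 257136) (nat_lit 0x78fe81dd4) (nat_lit 650662468),
  Rx.mk (nat_lit 51) (nat_lit 3) (nat_lit 6) (nat_lit 0) (nat_lit 3) (nat_lit 247) (nat_lit 274) r5_247 r12_274 (nat_lit 0) (nat_lit 0) (nat_lit 3185059) (nat_lit 0x8418ad1da) (nat_lit 478052171),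
  Rx.mk (nat_lit 55) (nat_lit 7) (nat_lit 6) (nat_lit 0) (nat_lit 3) (nat_lit 245) (nat_lit 275) r5_245 r12_275 (nat_lit 0) (nat_lit 0) (nat_lit 174098) (nat_lit 0x8023fadac) (nat_lit 534971660),
  Rx.mk (nat_lit 59) (nat_lit 3) (nat_lit 7) (nat_lit 0) (nat_lit 3) (nat_lit 248) (nat_lit 272) r5_248 r12_272 (nat_lit 0) (nat_lit 0) (nat_lit 6750895) (nat_lit 0x78f123c8c) (nat_lit 658355657),
  Rx.mk (nat_lit 163) (nat_lit 3) (nat_lit 4) (nat_lit 2) (nat_lit 5) (nat_lit 249) (nat_lit 271) r5_249 r12_271 (nat_lit 0) (nat_lit 385241) (nat_lit 0) (nat_lit 0x80ae72098) (nat_lit 527020953),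
  Rx.mk (nat_lit 187) (nat_lit 3) (nat_lit 7) (nat_lit 2) (nat_lit 7) (nat_lit 250) (nat_lit 273) r5_250 r12_273 (nat_lit 0) (nat_lit 0) (nat_lit 0) (nat_lit 0x8f2213cf0) (nat_lit 306467812),
  Rx.mk (nat_lit 247) (nat_lit 7) (nat_lit 6) (nat_lit 3) (nat_lit 7) (nat_lit 251) (nat_lit 276) r5_251 r12_276 (nat_lit 0) (nat_lit 0) (nat_lit 0) (nat_lit 0x7a825aed4) (nat_lit 625769862)]
noncomputable def e33_37 : List Rx := [
  Rx.mk (nat_lit 168) (nat_lit 0) (nat_lit 5) (nat_lit 2) (nat_lit 6) (nat_lit 61) (nat_lit 89) r5_61 r0_89 (nat_lit 16868928) (nat_lit 0) (nat_lit 0) (nat_lit 0x770328902) (nat_lit 699634640),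
  Rx.mk (nat_lit 170) (nat_lit 2) (nat_lit 5) (nat_lit 2) (nat_lit 7) (nat_lit 62) (nat_lit 90) r5_62 r0_90 (nat_lit 0) (nat_lit 0) (nat_lit 0) (nat_lit 0x80cf2f8d0) (nat_lit 525470412)]
noncomputable def e33_38 : List Rx := [
  Rx.mk (nat_lit 32) (nat_lit 0) (nat_lit 4) (nat_lit 0) (nat_lit 0) (nat_lit 152) (nat_lit 330) r5_152 r0_330 (nat_lit 4746) (nat_lit 4295) (nat_lit 246635775) (nat_lit 0x7ffebcf68) (nat_lit 783597078),
  Rx.mk (nat_lit 33) (nat_lit 1) (nat_lit 4) (nat_lit 0) (nat_lit 1) (nat_lit 155) (nat_lit 331) r5_155 r0_331 (nat_lit 0) (nat_lit 18467620) (nat_lit 12431881) (nat_lit 0x77229ca54) (nat_lit 711720913),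
  Rx.mk (nat_lit 40) (nat_lit 0) (nat_lit 5) (nat_lit 0) (nat_lit 2) (nat_lit 153) (nat_lit 335) r5_153 r0_335 (nat_lit 7966129) (nat_lit 0) (nat_lit 72835185) (nat_lit 0x768dbcfb0) (nat_lit 771020776),
  Rx.mk (nat_lit 41) (nat_lit 1) (nat_lit 5) (nat_lit 0) (nat_lit 3) (nat_lit 156) (nat_lit 336) r5_156 r0_336 (nat_lit 0) (nat_lit 0) (nat_lit 32356529) (nat_lit 0x7e416a34e) (nat_lit 598396941),
  Rx.mk (nat_lit 48) (nat_lit 0) (nat_lit 6) (nat_lit 0) (nat_lit 2) (nat_lit 154) (nat_lit 340) r5_154 r0_340 (nat_lit 2248887) (nat_lit 0) (nat_lit 43528741) (nat_lit 0x7781485e4) (nat_lit 720358340),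
  Rx.mk (nat_lit 49) (nat_lit 1) (nat_lit 6) (nat_lit 0) (nat_lit 3) (nat_lit 157) (nat_lit 341) r5_157 r0_341 (nat_lit 0) (nat_lit 0) (nat_lit 4283816) (nat_lit 0x76dca6428) (nat_lit 689405378),
  Rx.mk (nat_lit 160) (nat_lit 0) (nat_lit 4) (nat_lit 2) (nat_lit 4) (nat_lit 158) (nat_lit 332) r5_158 r0_332 (nat_lit 9046091) (nat_lit 9515140) (nat_lit 0) (nat_lit 0x640679402) (nat_lit 1008402593),
  Rx.mk (nat_lit 161) (nat_lit 1) (nat_lit 4) (nat_lit 2) (nat_lit 5) (nat_lit 160) (nat_lit 333) r5_160 r0_333 (nat_lit 0) (nat_lit 20486354) (nat_lit 0) (nat_lit 0x7e13133ec) (nat_lit 589334166),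
  Rx.mk (nat_lit 162) (nat_lit 2) (nat_lit 4) (nat_lit 2) (nat_lit 5) (nat_lit 162) (nat_lit 334) r5_162 r0_334 (nat_lit 0) (nat_lit 25423219) (nat_lit 0) (nat_lit 0x71dceb686) (nat_lit 791634281),
  Rx.mk (nat_lit 168) (nat_lit 0) (nat_lit 5) (nat_lit 2) (nat_lit 6) (nat_lit 159) (nat_lit 337) r5_159 r0_337 (nat_lit 15727667) (nat_lit 0) (nat_lit 0) (nat_lit 0x785988350) (nat_lit 677032129),
  Rx.mk (nat_lit 169) (nat_lit 1) (nat_lit 5) (nat_lit 2) (nat_lit 7) (nat_lit 161) (nat_lit 338) r5_161 r0_338 (nat_lit 0) (nat_lit 0) (nat_lit 0) (nat_lit 0x7f6c75efc) (nat_lit 547366462),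
  Rx.mk (nat_lit 170) (nat_lit 2) (nat_lit 5) (nat_lit 2) (nat_lit 7) (nat_lit 163) (nat_lit 339) r5_163 r0_339 (nat_lit 0) (nat_lit 0) (nat_lit 0) (nat_lit 0x804d1b93e) (nat_lit 533580312)]
noncomputable def e33_39 : List Rx := [
  Rx.mk (nat_lit 40) (nat_lit 0) (nat_lit 5) (nat_lit 0) (nat_lit 2) (nat_lit 184) (nat_lit 88) r5_184 r7_88 (nat_lit 5813795) (nat_lit 0) (nat_lit 21504054) (nat_lit 0x686efd894) (nat_lit 945833261),
  Rx.mk (nat_lit 41) (nat_lit 1) (nat_lit 5) (nat_lit 0) (nat_lit 3) (nat_lit 185) (nat_lit 90) r5_185 r7_90 (nat_lit 0) (nat_lit 0) (nat_lit 24741287) (nat_lit 0x7fd363f88) (nat_lit 565797099),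
  Rx.mk (nat_lit 168) (nat_lit 0) (nat_lit 5) (nat_lit 2) (nat_lit 6) (nat_lit 186) (nat_lit 89) r5_186 r7_89 (nat_lit 6741966) (nat_lit 0) (nat_lit 0) (nat_lit 0x7f4734e86) (nat_lit 556141628),
  Rx.mk (nat_lit 169) (nat_lit 1) (nat_lit 5) (nat_lit 2) (nat_lit 7) (nat_lit 187) (nat_lit 91) r5_187 r7_91 (nat_lit 0) (nat_lit 0) (nat_lit 0) (nat_lit 0x812b94fb2) (nat_lit 520035912),
  Rx.mk (nat_lit 170) (nat_lit 2) (nat_lit 5) (nat_lit 2) (nat_lit 7) (nat_lit 188) (nat_lit 92) r5_188 r7_92 (nat_lit 0) (nat_lit 0) (nat_lit 0) (nat_lit 0x8017985b4) (nat_lit 536870912)]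
noncomputable def e33_40 : List Rx := [
  Rx.mk (nat_lit 33) (nat_lit 1) (nat_lit 4) (nat_lit 0) (nat_lit 1) (nat_lit 276) (nat_lit 360) r5_276 r2_360 (nat_lit 0) (nat_lit 20559373) (nat_lit 29764725) (nat_lit 0x5846938aa) (nat_lit 1230188910),
  Rx.mk (nat_lit 41) (nat_lit 1) (nat_lit 5) (nat_lit 0) (nat_lit 3) (nat_lit 277) (nat_lit 363) r5_277 r2_363 (nat_lit 0) (nat_lit 0) (nat_lit 24741287) (nat_lit 0x8017985b4) (nat_lit 561612199),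
  Rx.mk (nat_lit 49) (nat_lit 1) (nat_lit 6) (nat_lit 0) (nat_lit 3) (nat_lit 278) (nat_lit 366) r5_278 r2_366 (nat_lit 0) (nat_lit 0) (nat_lit 27157988) (nat_lit 0x7f2b617cc) (nat_lit 578604450),
  Rx.mk (nat_lit 53) (nat_lit 5) (nat_lit 6) (nat_lit 0) (nat_lit 3) (nat_lit 275) (nat_lit 367) r5_275 r2_367 (nat_lit 0) (nat_lit 0) (nat_lit 28314395) (nat_lit 0x7f288f256) (nat_lit 579938957),
  Rx.mk (nat_lit 97) (nat_lit 1) (nat_lit 4) (nat_lit 1) (nat_lit 5) (nat_lit 280) (nat_lit 361) r5_280 r2_361 (nat_lit 0) (nat_lit 74305846) (nat_lit 0) (nat_lit 0x6bbe842c0) (nat_lit 939452858),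
  Rx.mk (nat_lit 105) (nat_lit 1) (nat_lit 5) (nat_lit 1) (nat_lit 7) (nat_lit 281) (nat_lit 364) r5_281 r2_364 (nat_lit 0) (nat_lit 0) (nat_lit 0) (nat_lit 0x8017985b4) (nat_lit 536870912),
  Rx.mk (nat_lit 113) (nat_lit 1) (nat_lit 6) (nat_lit 1) (nat_lit 7) (nat_lit 282) (nat_lit 368) r5_282 r2_368 (nat_lit 0) (nat_lit 0) (nat_lit 0) (nat_lit 0x8017985b4) (nat_lit 536870912),
  Rx.mk (nat_lit 117) (nat_lit 5) (nat_lit 6) (nat_lit 1) (nat_lit 7) (nat_lit 279) (nat_lit 369) r5_279 r2_369 (nat_lit 0) (nat_lit 0) (nat_lit 0) (nat_lit 0x8017985b4) (nat_lit 536870912),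
  Rx.mk (nat_lit 161) (nat_lit 1) (nat_lit 4) (nat_lit 2) (nat_lit 5) (nat_lit 283) (nat_lit 362) r5_283 r2_362 (nat_lit 0) (nat_lit 33327253) (nat_lit 0) (nat_lit 0x7f65916c2) (nat_lit 581168965),
  Rx.mk (nat_lit 169) (nat_lit 1) (nat_lit 5) (nat_lit 2) (nat_lit 7) (nat_lit 284) (nat_lit 365) r5_284 r2_365 (nat_lit 0) (nat_lit 0) (nat_lit 0) (nat_lit 0x8017985b4) (nat_lit 536870912)]
noncomputable def e33_41 : List Rx := [
  Rx.mk (nat_lit 41) (nat_lit 1) (nat_lit 5) (nat_lit 0) (nat_lit 3) (nat_lit 290) (nat_lit 324) r5_290 r9_324 (nat_lit 0) (nat_lit 0) (nat_lit 26942027) (nat_lit 0x7e5860594) (nat_lit 591515239),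
  Rx.mk (nat_lit 105) (nat_lit 1) (nat_lit 5) (nat_lit 1) (nat_lit 7) (nat_lit 291) (nat_lit 325) r5_291 r9_325 (nat_lit 0) (nat_lit 0) (nat_lit 0) (nat_lit 0x7ff2ca070) (nat_lit 539127012),
  Rx.mk (nat_lit 169) (nat_lit 1) (nat_lit 5) (nat_lit 2) (nat_lit 7) (nat_lit 292) (nat_lit 326) r5_292 r9_326 (nat_lit 0) (nat_lit 0) (nat_lit 0) (nat_lit 0x8017985b4) (nat_lit 536870912)]
noncomputable def e33_42 : List Rx := [
  Rx.mk (nat_lit 97) (nat_lit 1) (nat_lit 4) (nat_lit 1) (nat_lit 5) (nat_lit 287) (nat_lit 307) r5_287 r9_307 (nat_lit 0) (nat_lit 111344299) (nat_lit 0) (nat_lit 0x6b103b6e6) (nat_lit 987492011),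
  Rx.mk (nat_lit 105) (nat_lit 1) (nat_lit 5) (nat_lit 1) (nat_lit 7) (nat_lit 288) (nat_lit 308) r5_288 r9_308 (nat_lit 0) (nat_lit 0) (nat_lit 0) (nat_lit 0x7ff67effe) (nat_lit 538897862),
  Rx.mk (nat_lit 113) (nat_lit 1) (nat_lit 6) (nat_lit 1) (nat_lit 7) (nat_lit 289) (nat_lit 310) r5_289 r9_310 (nat_lit 0) (nat_lit 0) (nat_lit 0) (nat_lit 0x7ff760b48) (nat_lit 538843712),
  Rx.mk (nat_lit 117) (nat_lit 5) (nat_lit 6) (nat_lit 1) (nat_lit 7) (nat_lit 286) (nat_lit 309) r5_286 r9_309 (nat_lit 0) (nat_lit 0) (nat_lit 0) (nat_lit 0x7ff9dad06) (nat_lit 538691612)]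
noncomputable def e33_43 : List Rx := [
  Rx.mk (nat_lit 33) (nat_lit 1) (nat_lit 4) (nat_lit 0) (nat_lit 1) (nat_lit 164) (nat_lit 311) r5_164 r1_311 (nat_lit 0) (nat_lit 14978700) (nat_lit 8816353) (nat_lit 0x6ec49af3a) (nat_lit 839845015),
  Rx.mk (nat_lit 41) (nat_lit 1) (nat_lit 5) (nat_lit 0) (nat_lit 3) (nat_lit 165) (nat_lit 313) r5_165 r1_313 (nat_lit 0) (nat_lit 0) (nat_lit 20314026) (nat_lit 0x80db604a6) (nat_lit 545190438),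
  Rx.mk (nat_lit 49) (nat_lit 1) (nat_lit 6) (nat_lit 0) (nat_lit 3) (nat_lit 166) (nat_lit 315) r5_166 r1_315 (nat_lit 0) (nat_lit 0) (nat_lit 6296235) (nat_lit 0x7df201f0a) (nat_lit 577066447),
  Rx.mk (nat_lit 161) (nat_lit 1) (nat_lit 4) (nat_lit 2) (nat_lit 5) (nat_lit 167) (nat_lit 312) r5_167 r1_312 (nat_lit 0) (nat_lit 20400359) (nat_lit 0) (nat_lit 0x8039ecd5e) (nat_lit 555033421),
  Rx.mk (nat_lit 169) (nat_lit 1) (nat_lit 5) (nat_lit 2) (nat_lit 7) (nat_lit 168) (nat_lit 314) r5_168 r1_314 (nat_lit 0) (nat_lit 0) (nat_lit 0) (nat_lit 0x8095f8012) (nat_lit 529083662)]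
noncomputable def e33_44 : List Rx := [
  Rx.mk (nat_lit 41) (nat_lit 1) (nat_lit 5) (nat_lit 0) (nat_lit 3) (nat_lit 189) (nat_lit 74) r5_189 r8_74 (nat_lit 0) (nat_lit 0) (nat_lit 17765140) (nat_lit 0x7ff74602c) (nat_lit 556578502),
  Rx.mk (nat_lit 169) (nat_lit 1) (nat_lit 5) (nat_lit 2) (nat_lit 7) (nat_lit 190) (nat_lit 75) r5_190 r8_75 (nat_lit 0) (nat_lit 0) (nat_lit 0) (nat_lit 0x80b32653a) (nat_lit 527341762)]
noncomputable def e33_45 : List Rx := [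
  Rx.mk (nat_lit 138) (nat_lit 2) (nat_lit 1) (nat_lit 2) (nat_lit 7) (nat_lit 65) (nat_lit 93) r5_65 r1_93 (nat_lit 0) (nat_lit 0) (nat_lit 0) (nat_lit 0x7fd333eb4) (nat_lit 540973512),
  Rx.mk (nat_lit 168) (nat_lit 0) (nat_lit 5) (nat_lit 2) (nat_lit 6) (nat_lit 63) (nat_lit 91) r5_63 r1_91 (nat_lit 3579826) (nat_lit 0) (nat_lit 0) (nat_lit 0x811e759ee) (nat_lit 524029388),
  Rx.mk (nat_lit 170) (nat_lit 2) (nat_lit 5) (nat_lit 2) (nat_lit 7) (nat_lit 64) (nat_lit 92) r5_64 r1_92 (nat_lit 0) (nat_lit 0) (nat_lit 0) (nat_lit 0x79fc7a418) (nat_lit 634642712)]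
noncomputable def e33_46 : List Rx := [
  Rx.mk (nat_lit 138) (nat_lit 2) (nat_lit 1) (nat_lit 2) (nat_lit 7) (nat_lit 15) (nat_lit 97) r5_15 r2_97 (nat_lit 0) (nat_lit 0) (nat_lit 0) (nat_lit 0x8059dee46) (nat_lit 532797862),
  Rx.mk (nat_lit 394) (nat_lit 2) (nat_lit 1) (nat_lit 6) (nat_lit 7) (nat_lit 14) (nat_lit 96) r5_14 r2_96 (nat_lit 0) (nat_lit 0) (nat_lit 0) (nat_lit 0x8017985b4) (nat_lit 536870912)]
noncomputable def e33_47 : List Rx := [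
  Rx.mk (nat_lit 40) (nat_lit 0) (nat_lit 5) (nat_lit 0) (nat_lit 2) (nat_lit 191) (nat_lit 362) r5_191 r8_362 (nat_lit 13579307) (nat_lit 0) (nat_lit 40282511) (nat_lit 0x676dbd25a) (nat_lit 988710430),
  Rx.mk (nat_lit 41) (nat_lit 1) (nat_lit 5) (nat_lit 0) (nat_lit 3) (nat_lit 192) (nat_lit 363) r5_192 r8_363 (nat_lit 0) (nat_lit 0) (nat_lit 24741287) (nat_lit 0x7fc98e4ea) (nat_lit 566401349),
  Rx.mk (nat_lit 138) (nat_lit 2) (nat_lit 1) (nat_lit 2) (nat_lit 7) (nat_lit 196) (nat_lit 361) r5_196 r8_361 (nat_lit 0) (nat_lit 0) (nat_lit 0) (nat_lit 0x8017985b4) (nat_lit 536870912),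
  Rx.mk (nat_lit 168) (nat_lit 0) (nat_lit 5) (nat_lit 2) (nat_lit 6) (nat_lit 193) (nat_lit 364) r5_193 r8_364 (nat_lit 26008793) (nat_lit 0) (nat_lit 0) (nat_lit 0x78bef927a) (nat_lit 680926905),
  Rx.mk (nat_lit 169) (nat_lit 1) (nat_lit 5) (nat_lit 2) (nat_lit 7) (nat_lit 194) (nat_lit 365) r5_194 r8_365 (nat_lit 0) (nat_lit 0) (nat_lit 0) (nat_lit 0x8017985b4) (nat_lit 536870912),
  Rx.mk (nat_lit 170) (nat_lit 2) (nat_lit 5) (nat_lit 2) (nat_lit 7) (nat_lit 195) (nat_lit 366) r5_195 r8_366 (nat_lit 0) (nat_lit 0) (nat_lit 0) (nat_lit 0x7f79cc664) (nat_lit 546583312)]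
noncomputable def e33_48 : List Rx := [
  Rx.mk (nat_lit 138) (nat_lit 2) (nat_lit 1) (nat_lit 2) (nat_lit 7) (nat_lit 151) (nat_lit 64) r5_151 r9_64 (nat_lit 0) (nat_lit 0) (nat_lit 0) (nat_lit 0x7ffc47724) (nat_lit 538543512),
  Rx.mk (nat_lit 394) (nat_lit 2) (nat_lit 1) (nat_lit 6) (nat_lit 7) (nat_lit 150) (nat_lit 63) r5_150 r9_63 (nat_lit 0) (nat_lit 0) (nat_lit 0) (nat_lit 0x8017985b4) (nat_lit 536870912)]
noncomputable def e33_49 : List Rx := [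
  Rx.mk (nat_lit 394) (nat_lit 2) (nat_lit 1) (nat_lit 6) (nat_lit 7) (nat_lit 123) (nat_lit 18) r5_123 r9_18 (nat_lit 0) (nat_lit 0) (nat_lit 0) (nat_lit 0x8017985b4) (nat_lit 536870912)]
noncomputable def e33_50 : List Rx := [
  Rx.mk (nat_lit 35) (nat_lit 3) (nat_lit 4) (nat_lit 0) (nat_lit 1) (nat_lit 52) (nat_lit 84) r5_52 r3_84 (nat_lit 0) (nat_lit 1558) (nat_lit 2749) (nat_lit 0x800757f88) (nat_lit 536440369),
  Rx.mk (nat_lit 43) (nat_lit 3) (nat_lit 5) (nat_lit 0) (nat_lit 3) (nat_lit 53) (nat_lit 85) r5_53 r3_85 (nat_lit 0) (nat_lit 0) (nat_lit 4617775) (nat_lit 0x7f39a7408) (nat_lit 554334537),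
  Rx.mk (nat_lit 51) (nat_lit 3) (nat_lit 6) (nat_lit 0) (nat_lit 3) (nat_lit 54) (nat_lit 86) r5_54 r3_86 (nat_lit 0) (nat_lit 0) (nat_lit 6095527) (nat_lit 0x814491984) (nat_lit 524090139),
  Rx.mk (nat_lit 160) (nat_lit 0) (nat_lit 4) (nat_lit 2) (nat_lit 4) (nat_lit 55) (nat_lit 82) r5_55 r3_82 (nat_lit 4830) (nat_lit 3690) (nat_lit 0) (nat_lit 0x7ffd07a60) (nat_lit 537068682),
  Rx.mk (nat_lit 162) (nat_lit 2) (nat_lit 4) (nat_lit 2) (nat_lit 5) (nat_lit 57) (nat_lit 89) r5_57 r3_89 (nat_lit 0) (nat_lit 2939284) (nat_lit 0) (nat_lit 0x760f97a22) (nat_lit 700976746),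
  Rx.mk (nat_lit 163) (nat_lit 3) (nat_lit 4) (nat_lit 2) (nat_lit 5) (nat_lit 59) (nat_lit 87) r5_59 r3_87 (nat_lit 0) (nat_lit 255679) (nat_lit 0) (nat_lit 0x890dc1b68) (nat_lit 399147191),
  Rx.mk (nat_lit 168) (nat_lit 0) (nat_lit 5) (nat_lit 2) (nat_lit 6) (nat_lit 56) (nat_lit 83) r5_56 r3_83 (nat_lit 1607337) (nat_lit 0) (nat_lit 0) (nat_lit 0x7673024ae) (nat_lit 693215299),
  Rx.mk (nat_lit 170) (nat_lit 2) (nat_lit 5) (nat_lit 2) (nat_lit 7) (nat_lit 58) (nat_lit 90) r5_58 r3_90 (nat_lit 0) (nat_lit 0) (nat_lit 0) (nat_lit 0x7e9266ec8) (nat_lit 560921062),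
  Rx.mk (nat_lit 171) (nat_lit 3) (nat_lit 5) (nat_lit 2) (nat_lit 7) (nat_lit 60) (nat_lit 88) r5_60 r3_88 (nat_lit 0) (nat_lit 0) (nat_lit 0) (nat_lit 0x95e0ba39c) (nat_lit 203775112)]
noncomputable def e33_51 : List Rx := [
  Rx.mk (nat_lit 43) (nat_lit 3) (nat_lit 5) (nat_lit 0) (nat_lit 3) (nat_lit 66) (nat_lit 90) r5_66 r4_90 (nat_lit 0) (nat_lit 0) (nat_lit 9749711) (nat_lit 0x7ffe1e016) (nat_lit 547673873),
  Rx.mk (nat_lit 168) (nat_lit 0) (nat_lit 5) (nat_lit 2) (nat_lit 6) (nat_lit 67) (nat_lit 89) r5_67 r4_89 (nat_lit 10750557) (nat_lit 0) (nat_lit 0) (nat_lit 0x7fd33eeae) (nat_lit 551622569),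
  Rx.mk (nat_lit 170) (nat_lit 2) (nat_lit 5) (nat_lit 2) (nat_lit 7) (nat_lit 68) (nat_lit 92) r5_68 r4_92 (nat_lit 0) (nat_lit 0) (nat_lit 0) (nat_lit 0x7fb528974) (nat_lit 542767312),
  Rx.mk (nat_lit 171) (nat_lit 3) (nat_lit 5) (nat_lit 2) (nat_lit 7) (nat_lit 69) (nat_lit 91) r5_69 r4_91 (nat_lit 0) (nat_lit 0) (nat_lit 0) (nat_lit 0x8121440f8) (nat_lit 520021762)]
noncomputable def e33_52 : List Rx := [
  Rx.mk (nat_lit 35) (nat_lit 3) (nat_lit 4) (nat_lit 0) (nat_lit 1) (nat_lit 80) (nat_lit 83) r5_80 r5_83 (nat_lit 0) (nat_lit 21406) (nat_lit 32434) (nat_lit 0x7df66377e) (nat_lit 569881502),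
  Rx.mk (nat_lit 43) (nat_lit 3) (nat_lit 5) (nat_lit 0) (nat_lit 3) (nat_lit 81) (nat_lit 84) r5_81 r5_84 (nat_lit 0) (nat_lit 0) (nat_lit 10427805) (nat_lit 0x7ec01b5f8) (nat_lit 568411717),
  Rx.mk (nat_lit 51) (nat_lit 3) (nat_lit 6) (nat_lit 0) (nat_lit 3) (nat_lit 82) (nat_lit 85) r5_82 r5_85 (nat_lit 0) (nat_lit 0) (nat_lit 4868394) (nat_lit 0x805425f9a) (nat_lit 537655506),
  Rx.mk (nat_lit 160) (nat_lit 0) (nat_lit 4) (nat_lit 2) (nat_lit 4) (nat_lit 83) (nat_lit 80) r5_83 r5_80 (nat_lit 32434) (nat_lit 21406) (nat_lit 0) (nat_lit 0x7df66377e) (nat_lit 569881502),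
  Rx.mk (nat_lit 162) (nat_lit 2) (nat_lit 4) (nat_lit 2) (nat_lit 5) (nat_lit 86) (nat_lit 91) r5_86 r5_91 (nat_lit 0) (nat_lit 4689852) (nat_lit 0) (nat_lit 0x775cace2e) (nat_lit 681805714),
  Rx.mk (nat_lit 163) (nat_lit 3) (nat_lit 4) (nat_lit 2) (nat_lit 5) (nat_lit 89) (nat_lit 89) r5_89 r5_89 (nat_lit 0) (nat_lit 169882) (nat_lit 0) (nat_lit 0x8abe45df8) (nat_lit 373252794),
  Rx.mk (nat_lit 168) (nat_lit 0) (nat_lit 5) (nat_lit 2) (nat_lit 6) (nat_lit 84) (nat_lit 81) r5_84 r5_81 (nat_lit 10427805) (nat_lit 0) (nat_lit 0) (nat_lit 0x7ec01b5f8) (nat_lit 568411717),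
  Rx.mk (nat_lit 170) (nat_lit 2) (nat_lit 5) (nat_lit 2) (nat_lit 7) (nat_lit 87) (nat_lit 92) r5_87 r5_92 (nat_lit 0) (nat_lit 0) (nat_lit 0) (nat_lit 0x7af3eeae6) (nat_lit 619248212),
  Rx.mk (nat_lit 171) (nat_lit 3) (nat_lit 5) (nat_lit 2) (nat_lit 7) (nat_lit 90) (nat_lit 90) r5_90 r5_90 (nat_lit 0) (nat_lit 0) (nat_lit 0) (nat_lit 0x814eaf5e2) (nat_lit 517898262),
  Rx.mk (nat_lit 184) (nat_lit 0) (nat_lit 7) (nat_lit 2) (nat_lit 6) (nat_lit 85) (nat_lit 82) r5_85 r5_82 (nat_lit 4868394) (nat_lit 0) (nat_lit 0) (nat_lit 0x805425f9a) (nat_lit 537655506),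
  Rx.mk (nat_lit 186) (nat_lit 2) (nat_lit 7) (nat_lit 2) (nat_lit 7) (nat_lit 88) (nat_lit 93) r5_88 r5_93 (nat_lit 0) (nat_lit 0) (nat_lit 0) (nat_lit 0x7ff6f362e) (nat_lit 538736412),
  Rx.mk (nat_lit 227) (nat_lit 3) (nat_lit 4) (nat_lit 3) (nat_lit 5) (nat_lit 91) (nat_lit 86) r5_91 r5_86 (nat_lit 0) (nat_lit 4689852) (nat_lit 0) (nat_lit 0x775cace2e) (nat_lit 681805714),
  Rx.mk (nat_lit 235) (nat_lit 3) (nat_lit 5) (nat_lit 3) (nat_lit 7) (nat_lit 92) (nat_lit 87) r5_92 r5_87 (nat_lit 0) (nat_lit 0) (nat_lit 0) (nat_lit 0x7af3eeae6) (nat_lit 619248212),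
  Rx.mk (nat_lit 243) (nat_lit 3) (nat_lit 6) (nat_lit 3) (nat_lit 7) (nat_lit 93) (nat_lit 88) r5_93 r5_88 (nat_lit 0) (nat_lit 0) (nat_lit 0) (nat_lit 0x7ff6f362e) (nat_lit 538736412)]
noncomputable def e33_53 : List Rx := [
  Rx.mk (nat_lit 32) (nat_lit 0) (nat_lit 4) (nat_lit 0) (nat_lit 0) (nat_lit 169) (nat_lit 366) r5_169 r4_366 (nat_lit 841617) (nat_lit 1433235) (nat_lit 2737427) (nat_lit 0x61d7dcea2) (nat_lit 1029758991),
  Rx.mk (nat_lit 33) (nat_lit 1) (nat_lit 4) (nat_lit 0) (nat_lit 1) (nat_lit 172) (nat_lit 367) r5_172 r4_367 (nat_lit 0) (nat_lit 31203347) (nat_lit 38663507) (nat_lit 0x74de6bf62) (nat_lit 787491166),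
  Rx.mk (nat_lit 35) (nat_lit 3) (nat_lit 4) (nat_lit 0) (nat_lit 1) (nat_lit 174) (nat_lit 368) r5_174 r4_368 (nat_lit 0) (nat_lit 5546147) (nat_lit 174408130) (nat_lit 0x790afe648) (nat_lit 829916089),
  Rx.mk (nat_lit 40) (nat_lit 0) (nat_lit 5) (nat_lit 0) (nat_lit 2) (nat_lit 170) (nat_lit 373) r5_170 r4_373 (nat_lit 11320658) (nat_lit 0) (nat_lit 159956814) (nat_lit 0x7afbd0750) (nat_lit 789998334),
  Rx.mk (nat_lit 43) (nat_lit 3) (nat_lit 5) (nat_lit 0) (nat_lit 3) (nat_lit 175) (nat_lit 374) r5_175 r4_374 (nat_lit 0) (nat_lit 0) (nat_lit 141819368) (nat_lit 0x7fe1dc33a) (nat_lit 681820880),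
  Rx.mk (nat_lit 48) (nat_lit 0) (nat_lit 6) (nat_lit 0) (nat_lit 2) (nat_lit 171) (nat_lit 378) r5_171 r4_378 (nat_lit 24206208) (nat_lit 0) (nat_lit 58076158) (nat_lit 0x78ad82f82) (nat_lit 738299028),
  Rx.mk (nat_lit 49) (nat_lit 1) (nat_lit 6) (nat_lit 0) (nat_lit 3) (nat_lit 173) (nat_lit 379) r5_173 r4_379 (nat_lit 0) (nat_lit 0) (nat_lit 24741287) (nat_lit 0x8017985b4) (nat_lit 561612199),
  Rx.mk (nat_lit 51) (nat_lit 3) (nat_lit 6) (nat_lit 0) (nat_lit 3) (nat_lit 176) (nat_lit 380) r5_176 r4_380 (nat_lit 0) (nat_lit 0) (nat_lit 26164324) (nat_lit 0x80999346a) (nat_lit 555052536),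
  Rx.mk (nat_lit 160) (nat_lit 0) (nat_lit 4) (nat_lit 2) (nat_lit 4) (nat_lit 177) (nat_lit 369) r5_177 r4_369 (nat_lit 4717590) (nat_lit 5283235) (nat_lit 0) (nat_lit 0x752a4ab54) (nat_lit 722606187),
  Rx.mk (nat_lit 161) (nat_lit 1) (nat_lit 4) (nat_lit 2) (nat_lit 5) (nat_lit 179) (nat_lit 370) r5_179 r4_370 (nat_lit 0) (nat_lit 12656058) (nat_lit 0) (nat_lit 0x8088cb0ec) (nat_lit 542545370),
  Rx.mk (nat_lit 162) (nat_lit 2) (nat_lit 4) (nat_lit 2) (nat_lit 5) (nat_lit 180) (nat_lit 372) r5_180 r4_372 (nat_lit 0) (nat_lit 26071718) (nat_lit 0) (nat_lit 0x7c450e86c) (nat_lit 624104680),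
  Rx.mk (nat_lit 163) (nat_lit 3) (nat_lit 4) (nat_lit 2) (nat_lit 5) (nat_lit 182) (nat_lit 371) r5_182 r4_371 (nat_lit 0) (nat_lit 11445764) (nat_lit 0) (nat_lit 0x81403787a) (nat_lit 530241476),
  Rx.mk (nat_lit 168) (nat_lit 0) (nat_lit 5) (nat_lit 2) (nat_lit 6) (nat_lit 178) (nat_lit 375) r5_178 r4_375 (nat_lit 10292378) (nat_lit 0) (nat_lit 0) (nat_lit 0x80631e6c8) (nat_lit 542489390),
  Rx.mk (nat_lit 170) (nat_lit 2) (nat_lit 5) (nat_lit 2) (nat_lit 7) (nat_lit 181) (nat_lit 377) r5_181 r4_377 (nat_lit 0) (nat_lit 0) (nat_lit 0) (nat_lit 0x80414fb1e) (nat_lit 534304462),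
  Rx.mk (nat_lit 171) (nat_lit 3) (nat_lit 5) (nat_lit 2) (nat_lit 7) (nat_lit 183) (nat_lit 376) r5_183 r4_376 (nat_lit 0) (nat_lit 0) (nat_lit 0) (nat_lit 0x80cd61346) (nat_lit 525749862)]
noncomputable def e33_54 : List Rx := [
  Rx.mk (nat_lit 40) (nat_lit 0) (nat_lit 5) (nat_lit 0) (nat_lit 2) (nat_lit 197) (nat_lit 72) r5_197 r10_72 (nat_lit 4889214) (nat_lit 0) (nat_lit 11835146) (nat_lit 0x6ab7fa806) (nat_lit 898281722),
  Rx.mk (nat_lit 43) (nat_lit 3) (nat_lit 5) (nat_lit 0) (nat_lit 3) (nat_lit 198) (nat_lit 74) r5_198 r10_74 (nat_lit 0) (nat_lit 0) (nat_lit 24741287) (nat_lit 0x7fb2f649e) (nat_lit 567798249),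
  Rx.mk (nat_lit 168) (nat_lit 0) (nat_lit 5) (nat_lit 2) (nat_lit 6) (nat_lit 199) (nat_lit 73) r5_199 r10_73 (nat_lit 5323301) (nat_lit 0) (nat_lit 0) (nat_lit 0x821784ed6) (nat_lit 511046163),
  Rx.mk (nat_lit 170) (nat_lit 2) (nat_lit 5) (nat_lit 2) (nat_lit 7) (nat_lit 200) (nat_lit 76) r5_200 r10_76 (nat_lit 0) (nat_lit 0) (nat_lit 0) (nat_lit 0x8017985b4) (nat_lit 536870912),
  Rx.mk (nat_lit 171) (nat_lit 3) (nat_lit 5) (nat_lit 2) (nat_lit 7) (nat_lit 201) (nat_lit 75) r5_201 r10_75 (nat_lit 0) (nat_lit 0) (nat_lit 0) (nat_lit 0x80ff5f960) (nat_lit 522714412)]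
noncomputable def e33_55 : List Rx := [
  Rx.mk (nat_lit 32) (nat_lit 0) (nat_lit 4) (nat_lit 0) (nat_lit 0) (nat_lit 202) (nat_lit 68) r5_202 r11_68 (nat_lit 5946457) (nat_lit 4773935) (nat_lit 23484085) (nat_lit 0x49e63d70c) (nat_lit 1446456039),
  Rx.mk (nat_lit 33) (nat_lit 1) (nat_lit 4) (nat_lit 0) (nat_lit 1) (nat_lit 206) (nat_lit 75) r5_206 r11_75 (nat_lit 0) (nat_lit 35682471) (nat_lit 41438793) (nat_lit 0x752101d04) (nat_lit 790555976),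
  Rx.mk (nat_lit 35) (nat_lit 3) (nat_lit 4) (nat_lit 0) (nat_lit 1) (nat_lit 209) (nat_lit 80) r5_209 r11_80 (nat_lit 0) (nat_lit 10516416) (nat_lit 163052374) (nat_lit 0x79e792546) (nat_lit 809704152),
  Rx.mk (nat_lit 40) (nat_lit 0) (nat_lit 5) (nat_lit 0) (nat_lit 2) (nat_lit 203) (nat_lit 69) r5_203 r11_69 (nat_lit 33768507) (nat_lit 0) (nat_lit 55665677) (nat_lit 0x7ce62247e) (nat_lit 677311396),
  Rx.mk (nat_lit 43) (nat_lit 3) (nat_lit 5) (nat_lit 0) (nat_lit 3) (nat_lit 210) (nat_lit 81) r5_210 r11_81 (nat_lit 0) (nat_lit 0) (nat_lit 24741287) (nat_lit 0x8036bdc00) (nat_lit 559695499),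
  Rx.mk (nat_lit 48) (nat_lit 0) (nat_lit 6) (nat_lit 0) (nat_lit 2) (nat_lit 204) (nat_lit 71) r5_204 r11_71 (nat_lit 36801253) (nat_lit 0) (nat_lit 60413237) (nat_lit 0x7abb7e684) (nat_lit 720123752),
  Rx.mk (nat_lit 49) (nat_lit 1) (nat_lit 6) (nat_lit 0) (nat_lit 3) (nat_lit 207) (nat_lit 77) r5_207 r11_77 (nat_lit 0) (nat_lit 0) (nat_lit 24741287) (nat_lit 0x8017985b4) (nat_lit 561612199),
  Rx.mk (nat_lit 51) (nat_lit 3) (nat_lit 6) (nat_lit 0) (nat_lit 3) (nat_lit 211) (nat_lit 82) r5_211 r11_82 (nat_lit 0) (nat_lit 0) (nat_lit 25956094) (nat_lit 0x80019bd60) (nat_lit 564158956),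
  Rx.mk (nat_lit 56) (nat_lit 0) (nat_lit 7) (nat_lit 0) (nat_lit 2) (nat_lit 205) (nat_lit 70) r5_205 r11_70 (nat_lit 37783563) (nat_lit 0) (nat_lit 43048303) (nat_lit 0x7dabdf81a) (nat_lit 656267928),
  Rx.mk (nat_lit 57) (nat_lit 1) (nat_lit 7) (nat_lit 0) (nat_lit 3) (nat_lit 208) (nat_lit 76) r5_208 r11_76 (nat_lit 0) (nat_lit 0) (nat_lit 24741287) (nat_lit 0x8017985b4) (nat_lit 561612199),
  Rx.mk (nat_lit 160) (nat_lit 0) (nat_lit 4) (nat_lit 2) (nat_lit 4) (nat_lit 212) (nat_lit 72) r5_212 r11_72 (nat_lit 12323810) (nat_lit 8957018) (nat_lit 0) (nat_lit 0x6eeac40b2) (nat_lit 835033290),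
  Rx.mk (nat_lit 161) (nat_lit 1) (nat_lit 4) (nat_lit 2) (nat_lit 5) (nat_lit 215) (nat_lit 78) r5_215 r11_78 (nat_lit 0) (nat_lit 16307770) (nat_lit 0) (nat_lit 0x8072222be) (nat_lit 547606132),
  Rx.mk (nat_lit 162) (nat_lit 2) (nat_lit 4) (nat_lit 2) (nat_lit 5) (nat_lit 217) (nat_lit 88) r5_217 r11_88 (nat_lit 0) (nat_lit 24841657) (nat_lit 0) (nat_lit 0x7dc3688d8) (nat_lit 598810569),
  Rx.mk (nat_lit 163) (nat_lit 3) (nat_lit 4) (nat_lit 2) (nat_lit 5) (nat_lit 220) (nat_lit 86) r5_220 r11_86 (nat_lit 0) (nat_lit 16204149) (nat_lit 0) (nat_lit 0x809309fb8) (nat_lit 545503711),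
  Rx.mk (nat_lit 168) (nat_lit 0) (nat_lit 5) (nat_lit 2) (nat_lit 6) (nat_lit 213) (nat_lit 73) r5_213 r11_73 (nat_lit 18403732) (nat_lit 0) (nat_lit 0) (nat_lit 0x8068f7d2e) (nat_lit 550276494),
  Rx.mk (nat_lit 170) (nat_lit 2) (nat_lit 5) (nat_lit 2) (nat_lit 7) (nat_lit 218) (nat_lit 89) r5_218 r11_89 (nat_lit 0) (nat_lit 0) (nat_lit 0) (nat_lit 0x8017985b4) (nat_lit 536870912),
  Rx.mk (nat_lit 171) (nat_lit 3) (nat_lit 5) (nat_lit 2) (nat_lit 7) (nat_lit 221) (nat_lit 87) r5_221 r11_87 (nat_lit 0) (nat_lit 0) (nat_lit 0) (nat_lit 0x8017985b4) (nat_lit 536870912),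
  Rx.mk (nat_lit 184) (nat_lit 0) (nat_lit 7) (nat_lit 2) (nat_lit 6) (nat_lit 214) (nat_lit 74) r5_214 r11_74 (nat_lit 19699007) (nat_lit 0) (nat_lit 0) (nat_lit 0x7fd8785be) (nat_lit 560420169),
  Rx.mk (nat_lit 185) (nat_lit 1) (nat_lit 7) (nat_lit 2) (nat_lit 7) (nat_lit 216) (nat_lit 79) r5_216 r11_79 (nat_lit 0) (nat_lit 0) (nat_lit 0) (nat_lit 0x8017985b4) (nat_lit 536870912),
  Rx.mk (nat_lit 186) (nat_lit 2) (nat_lit 7) (nat_lit 2) (nat_lit 7) (nat_lit 219) (nat_lit 90) r5_219 r11_90 (nat_lit 0) (nat_lit 0) (nat_lit 0) (nat_lit 0x8017985b4) (nat_lit 536870912),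
  Rx.mk (nat_lit 227) (nat_lit 3) (nat_lit 4) (nat_lit 3) (nat_lit 5) (nat_lit 222) (nat_lit 83) r5_222 r11_83 (nat_lit 0) (nat_lit 20811975) (nat_lit 0) (nat_lit 0x7fde627e0) (nat_lit 561177737),
  Rx.mk (nat_lit 235) (nat_lit 3) (nat_lit 5) (nat_lit 3) (nat_lit 7) (nat_lit 223) (nat_lit 84) r5_223 r11_84 (nat_lit 0) (nat_lit 0) (nat_lit 0) (nat_lit 0x8017985b4) (nat_lit 536870912),
  Rx.mk (nat_lit 243) (nat_lit 3) (nat_lit 6) (nat_lit 3) (nat_lit 7) (nat_lit 224) (nat_lit 85) r5_224 r11_85 (nat_lit 0) (nat_lit 0) (nat_lit 0) (nat_lit 0x8017985b4) (nat_lit 536870912)]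
noncomputable def e33_56 : List Rx := [
  Rx.mk (nat_lit 35) (nat_lit 3) (nat_lit 4) (nat_lit 0) (nat_lit 1) (nat_lit 235) (nat_lit 311) r5_235 r5_311 (nat_lit 0) (nat_lit 59092) (nat_lit 256039) (nat_lit 0x820de74a0) (nat_lit 505885693),
  Rx.mk (nat_lit 43) (nat_lit 3) (nat_lit 5) (nat_lit 0) (nat_lit 3) (nat_lit 236) (nat_lit 313) r5_236 r5_313 (nat_lit 0) (nat_lit 0) (nat_lit 84189096) (nat_lit 0x80e5c9802) (nat_lit 608169008),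
  Rx.mk (nat_lit 51) (nat_lit 3) (nat_lit 6) (nat_lit 0) (nat_lit 3) (nat_lit 237) (nat_lit 315) r5_237 r5_315 (nat_lit 0) (nat_lit 0) (nat_lit 6154533) (nat_lit 0x82d163a50) (nat_lit 500638795),
  Rx.mk (nat_lit 163) (nat_lit 3) (nat_lit 4) (nat_lit 2) (nat_lit 5) (nat_lit 238) (nat_lit 312) r5_238 r5_312 (nat_lit 0) (nat_lit 1304446) (nat_lit 0) (nat_lit 0x7fd0f99aa) (nat_lit 541617058),
  Rx.mk (nat_lit 171) (nat_lit 3) (nat_lit 5) (nat_lit 2) (nat_lit 7) (nat_lit 239) (nat_lit 314) r5_239 r5_314 (nat_lit 0) (nat_lit 0) (nat_lit 0) (nat_lit 0x81c0a1d3a) (nat_lit 511016762)]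
noncomputable def e33_57 : List Rx := [
  Rx.mk (nat_lit 43) (nat_lit 3) (nat_lit 5) (nat_lit 0) (nat_lit 3) (nat_lit 240) (nat_lit 366) r5_240 r11_366 (nat_lit 0) (nat_lit 0) (nat_lit 12925908) (nat_lit 0x804d82ed6) (nat_lit 546213020),
  Rx.mk (nat_lit 171) (nat_lit 3) (nat_lit 5) (nat_lit 2) (nat_lit 7) (nat_lit 241) (nat_lit 367) r5_241 r11_367 (nat_lit 0) (nat_lit 0) (nat_lit 0) (nat_lit 0x834f94230) (nat_lit 487057512)]
noncomputable def e33 : List (List Rx) := [e33_0, e33_1, e33_2, e33_3, e33_4, e33_5, e33_6, e33_7, e33_8, e33_9, e33_10, e33_11, e33_12, e33_13, e33_14, e33_15, e33_16, e33_17, e33_18, e33_19, e33_20, e33_21, e33_22, e33_23, e33_24, e33_25, e33_26, e33_27, e33_28, e33_29, e33_30, e33_31, e33_32, e33_33, e33_34, e33_35, e33_36, e33_37, e33_38, e33_39, e33_40, e33_41, e33_42, e33_43, e33_44, e33_45, e33_46, e33_47, e33_48, e33_49, e33_50,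 e33_51, e33_52, e33_53, e33_54, e33_55, e33_56, e33_57]
noncomputable def e34_0 : List Rx := [
  Rx.mk (nat_lit 116) (nat_lit 4) (nat_lit 6) (nat_lit 1) (nat_lit 6) (nat_lit 302) (nat_lit 225) r11_302 r0_225 (nat_lit 9444164) (nat_lit 0) (nat_lit 0) (nat_lit 0x7fd819c08) (nat_lit 550012926),
  Rx.mk (nat_lit 372) (nat_lit 4) (nat_lit 6) (nat_lit 5) (nat_lit 6) (nat_lit 300) (nat_lit 226) r11_300 r0_226 (nat_lit 12926127) (nat_lit 0) (nat_lit 0) (nat_lit 0x800aea9a2) (nat_lit 550481389),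
  Rx.mk (nat_lit 375) (nat_lit 7) (nat_lit 6) (nat_lit 5) (nat_lit 7) (nat_lit 301) (nat_lit 227) r11_301 r0_227 (nat_lit 0) (nat_lit 0) (nat_lit 0) (nat_lit 0x8257094c6) (nat_lit 501926062)]
noncomputable def e34_1 : List Rx := [
  Rx.mk (nat_lit 372) (nat_lit 4) (nat_lit 6) (nat_lit 5) (nat_lit 6) (nat_lit 333) (nat_lit 244) r11_333 r1_244 (nat_lit 16971006) (nat_lit 0) (nat_lit 0) (nat_lit 0x8058c13c4) (nat_lit 549817368),
  Rx.mk (nat_lit 375) (nat_lit 7) (nat_lit 6) (nat_lit 5) (nat_lit 7) (nat_lit 334) (nat_lit 245) r11_334 r1_245 (nat_lit 0) (nat_lit 0) (nat_lit 0) (nat_lit 0x814704da6) (nat_lit 518377612)]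
noncomputable def e34_2 : List Rx := [
  Rx.mk (nat_lit 276) (nat_lit 4) (nat_lit 2) (nat_lit 4) (nat_lit 2) (nat_lit 309) (nat_lit 258) r11_309 r2_258 (nat_lit 47863837) (nat_lit 0) (nat_lit 33757685) (nat_lit 0x7c693e598) (nat_lit 677403034),
  Rx.mk (nat_lit 278) (nat_lit 6) (nat_lit 2) (nat_lit 4) (nat_lit 3) (nat_lit 310) (nat_lit 265) r11_310 r2_265 (nat_lit 0) (nat_lit 0) (nat_lit 24741287) (nat_lit 0x8017985b4) (nat_lit 561612199),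
  Rx.mk (nat_lit 308) (nat_lit 4) (nat_lit 6) (nat_lit 4) (nat_lit 2) (nat_lit 308) (nat_lit 260) r11_308 r2_260 (nat_lit 36134950) (nat_lit 0) (nat_lit 25006969) (nat_lit 0x75d2a943a) (nat_lit 763343081),
  Rx.mk (nat_lit 311) (nat_lit 7) (nat_lit 6) (nat_lit 4) (nat_lit 3) (nat_lit 311) (nat_lit 262) r11_311 r2_262 (nat_lit 0) (nat_lit 0) (nat_lit 24741287) (nat_lit 0x8017985b4) (nat_lit 561612199),
  Rx.mk (nat_lit 340) (nat_lit 4) (nat_lit 2) (nat_lit 5) (nat_lit 6) (nat_lit 313) (nat_lit 259) r11_313 r2_259 (nat_lit 24741287) (nat_lit 0) (nat_lit 0) (nat_lit 0x8017985b4) (nat_lit 561612199),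
  Rx.mk (nat_lit 342) (nat_lit 6) (nat_lit 2) (nat_lit 5) (nat_lit 7) (nat_lit 314) (nat_lit 266) r11_314 r2_266 (nat_lit 0) (nat_lit 0) (nat_lit 0) (nat_lit 0x8017985b4) (nat_lit 536870912),
  Rx.mk (nat_lit 372) (nat_lit 4) (nat_lit 6) (nat_lit 5) (nat_lit 6) (nat_lit 312) (nat_lit 261) r11_312 r2_261 (nat_lit 24741287) (nat_lit 0) (nat_lit 0) (nat_lit 0x8017985b4) (nat_lit 561612199),
  Rx.mk (nat_lit 375) (nat_lit 7) (nat_lit 6) (nat_lit 5) (nat_lit 7) (nat_lit 315) (nat_lit 263) r11_315 r2_263 (nat_lit 0) (nat_lit 0) (nat_lit 0) (nat_lit 0x8017985b4) (nat_lit 536870912),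
  Rx.mk (nat_lit 406) (nat_lit 6) (nat_lit 2) (nat_lit 6) (nat_lit 7) (nat_lit 316) (nat_lit 267) r11_316 r2_267 (nat_lit 0) (nat_lit 0) (nat_lit 0) (nat_lit 0x8017985b4) (nat_lit 536870912),
  Rx.mk (nat_lit 503) (nat_lit 7) (nat_lit 6) (nat_lit 7) (nat_lit 7) (nat_lit 317) (nat_lit 264) r11_317 r2_264 (nat_lit 0) (nat_lit 0) (nat_lit 0) (nat_lit 0x8017985b4) (nat_lit 536870912)]
noncomputable def e34_3 : List Rx := [
  Rx.mk (nat_lit 116) (nat_lit 4) (nat_lit 6) (nat_lit 1) (nat_lit 6) (nat_lit 351) (nat_lit 225) r11_351 r3_225 (nat_lit 9974206) (nat_lit 0) (nat_lit 0) (nat_lit 0x7a7d1cf58) (nat_lit 636241818),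
  Rx.mk (nat_lit 119) (nat_lit 7) (nat_lit 6) (nat_lit 1) (nat_lit 7) (nat_lit 352) (nat_lit 226) r11_352 r3_226 (nat_lit 0) (nat_lit 0) (nat_lit 0) (nat_lit 0x885a32e30) (nat_lit 409617212)]
noncomputable def e34_4 : List Rx := [
  Rx.mk (nat_lit 116) (nat_lit 4) (nat_lit 6) (nat_lit 1) (nat_lit 6) (nat_lit 358) (nat_lit 226) r11_358 r4_226 (nat_lit 11487859) (nat_lit 0) (nat_lit 0) (nat_lit 0x7fe0ccc6a) (nat_lit 551547221),
  Rx.mk (nat_lit 119) (nat_lit 7) (nat_lit 6) (nat_lit 1) (nat_lit 7) (nat_lit 359) (nat_lit 227) r11_359 r4_227 (nat_lit 0) (nat_lit 0) (nat_lit 0) (nat_lit 0x82046c2cc) (nat_lit 506848662),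
  Rx.mk (nat_lit 375) (nat_lit 7) (nat_lit 6) (nat_lit 5) (nat_lit 7) (nat_lit 357) (nat_lit 228) r11_357 r4_228 (nat_lit 0) (nat_lit 0) (nat_lit 0) (nat_lit 0x850b42e04) (nat_lit 460662012)]
noncomputable def e34_5 : List Rx := [
  Rx.mk (nat_lit 116) (nat_lit 4) (nat_lit 6) (nat_lit 1) (nat_lit 6) (nat_lit 366) (nat_lit 240) r11_366 r5_240 (nat_lit 12925908) (nat_lit 0) (nat_lit 0) (nat_lit 0x804d82ed6) (nat_lit 546213020),
  Rx.mk (nat_lit 119) (nat_lit 7) (nat_lit 6) (nat_lit 1) (nat_lit 7) (nat_lit 367) (nat_lit 241) r11_367 r5_241 (nat_lit 0) (nat_lit 0) (nat_lit 0) (nat_lit 0x834f94230) (nat_lit 487057512)]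
noncomputable def e34_6 : List Rx := [
  Rx.mk (nat_lit 154) (nat_lit 2) (nat_lit 3) (nat_lit 2) (nat_lit 7) (nat_lit 6) (nat_lit 216) r11_6 r3_216 (nat_lit 0) (nat_lit 0) (nat_lit 0) (nat_lit 0x884245afc) (nat_lit 411412412),
  Rx.mk (nat_lit 247) (nat_lit 7) (nat_lit 6) (nat_lit 3) (nat_lit 7) (nat_lit 7) (nat_lit 215) r11_7 r3_215 (nat_lit 0) (nat_lit 0) (nat_lit 0) (nat_lit 0x8f1cadf90) (nat_lit 306718562)]
noncomputable def e34_7 : List Rx := [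
  Rx.mk (nat_lit 130) (nat_lit 2) (nat_lit 0) (nat_lit 2) (nat_lit 5) (nat_lit 99) (nat_lit 217) r11_99 r0_217 (nat_lit 0) (nat_lit 11279401) (nat_lit 0) (nat_lit 0x78e6c8c2e) (nat_lit 663631063),
  Rx.mk (nat_lit 154) (nat_lit 2) (nat_lit 3) (nat_lit 2) (nat_lit 7) (nat_lit 100) (nat_lit 218) r11_100 r0_218 (nat_lit 0) (nat_lit 0) (nat_lit 0) (nat_lit 0x81065e126) (nat_lit 522185862),
  Rx.mk (nat_lit 276) (nat_lit 4) (nat_lit 2) (nat_lit 4) (nat_lit 2) (nat_lit 92) (nat_lit 219) r11_92 r0_219 (nat_lit 9949213) (nat_lit 0) (nat_lit 7944298) (nat_lit 0x6fc82cfd0) (nat_lit 817619223),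
  Rx.mk (nat_lit 278) (nat_lit 6) (nat_lit 2) (nat_lit 4) (nat_lit 3) (nat_lit 93) (nat_lit 220) r11_93 r0_220 (nat_lit 0) (nat_lit 0) (nat_lit 15086968) (nat_lit 0x80b26ae3e) (nat_lit 542475880),
  Rx.mk (nat_lit 308) (nat_lit 4) (nat_lit 6) (nat_lit 4) (nat_lit 2) (nat_lit 91) (nat_lit 212) r11_91 r0_212 (nat_lit 170327518) (nat_lit 0) (nat_lit 18712504) (nat_lit 0x72fa2386a) (nat_lit 937148384),
  Rx.mk (nat_lit 386) (nat_lit 2) (nat_lit 0) (nat_lit 6) (nat_lit 5) (nat_lit 96) (nat_lit 216) r11_96 r0_216 (nat_lit 0) (nat_lit 12688314) (nat_lit 0) (nat_lit 0x803b0d346) (nat_lit 547294026),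
  Rx.mk (nat_lit 390) (nat_lit 6) (nat_lit 0) (nat_lit 6) (nat_lit 5) (nat_lit 94) (nat_lit 215) r11_94 r0_215 (nat_lit 0) (nat_lit 14894858) (nat_lit 0) (nat_lit 0x800926332) (nat_lit 552590770),
  Rx.mk (nat_lit 406) (nat_lit 6) (nat_lit 2) (nat_lit 6) (nat_lit 7) (nat_lit 95) (nat_lit 221) r11_95 r0_221 (nat_lit 0) (nat_lit 0) (nat_lit 0) (nat_lit 0x805e5975a) (nat_lit 532528962),
  Rx.mk (nat_lit 500) (nat_lit 4) (nat_lit 6) (nat_lit 7) (nat_lit 6) (nat_lit 97) (nat_lit 213) r11_97 r0_213 (nat_lit 153834335) (nat_lit 0) (nat_lit 0) (nat_lit 0x7ce2c9da4) (nat_lit 741924097),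
  Rx.mk (nat_lit 503) (nat_lit 7) (nat_lit 6) (nat_lit 7) (nat_lit 7) (nat_lit 98) (nat_lit 214) r11_98 r0_214 (nat_lit 0) (nat_lit 0) (nat_lit 0) (nat_lit 0x8056e7ad0) (nat_lit 532778862)]
noncomputable def e34_8 : List Rx := [
  Rx.mk (nat_lit 276) (nat_lit 4) (nat_lit 2) (nat_lit 4) (nat_lit 2) (nat_lit 108) (nat_lit 237) r11_108 r1_237 (nat_lit 51763813) (nat_lit 0) (nat_lit 45330043) (nat_lit 0x7bfdcf3ca) (nat_lit 699634368),
  Rx.mk (nat_lit 278) (nat_lit 6) (nat_lit 2) (nat_lit 4) (nat_lit 3) (nat_lit 109) (nat_lit 238) r11_109 r1_238 (nat_lit 0) (nat_lit 0) (nat_lit 24741287) (nat_lit 0x8017985b4) (nat_lit 561612199),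
  Rx.mk (nat_lit 308) (nat_lit 4) (nat_lit 6) (nat_lit 4) (nat_lit 2) (nat_lit 107) (nat_lit 234) r11_107 r1_234 (nat_lit 88719546) (nat_lit 0) (nat_lit 26935402) (nat_lit 0x76bea858e) (nat_lit 802950560),
  Rx.mk (nat_lit 406) (nat_lit 6) (nat_lit 2) (nat_lit 6) (nat_lit 7) (nat_lit 110) (nat_lit 239) r11_110 r1_239 (nat_lit 0) (nat_lit 0) (nat_lit 0) (nat_lit 0x8017985b4) (nat_lit 536870912),
  Rx.mk (nat_lit 500) (nat_lit 4) (nat_lit 6) (nat_lit 7) (nat_lit 6) (nat_lit 111) (nat_lit 235) r11_111 r1_235 (nat_lit 25084538) (nat_lit 0) (nat_lit 0) (nat_lit 0x8001d6c6c) (nat_lit 563283450),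
  Rx.mk (nat_lit 503) (nat_lit 7) (nat_lit 6) (nat_lit 7) (nat_lit 7) (nat_lit 112) (nat_lit 236) r11_112 r1_236 (nat_lit 0) (nat_lit 0) (nat_lit 0) (nat_lit 0x81471cbfe) (nat_lit 518335312)]
noncomputable def e34_9 : List Rx := [
  Rx.mk (nat_lit 154) (nat_lit 2) (nat_lit 3) (nat_lit 2) (nat_lit 7) (nat_lit 135) (nat_lit 211) r11_135 r4_211 (nat_lit 0) (nat_lit 0) (nat_lit 0) (nat_lit 0x80f168d7a) (nat_lit 523350662),
  Rx.mk (nat_lit 247) (nat_lit 7) (nat_lit 6) (nat_lit 3) (nat_lit 7) (nat_lit 136) (nat_lit 207) r11_136 r4_207 (nat_lit 0) (nat_lit 0) (nat_lit 0) (nat_lit 0x825f8dcd2) (nat_lit 501520162),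
  Rx.mk (nat_lit 276) (nat_lit 4) (nat_lit 2) (nat_lit 4) (nat_lit 2) (nat_lit 125) (nat_lit 212) r11_125 r4_212 (nat_lit 616962) (nat_lit 0) (nat_lit 514055) (nat_lit 0x69c2df4b6) (nat_lit 897748479),
  Rx.mk (nat_lit 278) (nat_lit 6) (nat_lit 2) (nat_lit 4) (nat_lit 3) (nat_lit 126) (nat_lit 214) r11_126 r4_214 (nat_lit 0) (nat_lit 0) (nat_lit 10106242) (nat_lit 0x8153a01f0) (nat_lit 527714454),
  Rx.mk (nat_lit 386) (nat_lit 2) (nat_lit 0) (nat_lit 6) (nat_lit 5) (nat_lit 129) (nat_lit 209) r11_129 r4_209 (nat_lit 0) (nat_lit 13063204) (nat_lit 0) (nat_lit 0x7f229ebd0) (nat_lit 564962416),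
  Rx.mk (nat_lit 390) (nat_lit 6) (nat_lit 0) (nat_lit 6) (nat_lit 5) (nat_lit 127) (nat_lit 208) r11_127 r4_208 (nat_lit 0) (nat_lit 12952000) (nat_lit 0) (nat_lit 0x80562ac28) (nat_lit 545915612),
  Rx.mk (nat_lit 406) (nat_lit 6) (nat_lit 2) (nat_lit 6) (nat_lit 7) (nat_lit 128) (nat_lit 216) r11_128 r4_216 (nat_lit 0) (nat_lit 0) (nat_lit 0) (nat_lit 0x80812fcde) (nat_lit 530394062),
  Rx.mk (nat_lit 410) (nat_lit 2) (nat_lit 3) (nat_lit 6) (nat_lit 7) (nat_lit 130) (nat_lit 210) r11_130 r4_210 (nat_lit 0) (nat_lit 0) (nat_lit 0) (nat_lit 0x81dd34f24) (nat_lit 509302462),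
  Rx.mk (nat_lit 468) (nat_lit 4) (nat_lit 2) (nat_lit 7) (nat_lit 6) (nat_lit 132) (nat_lit 213) r11_132 r4_213 (nat_lit 13764592) (nat_lit 0) (nat_lit 0) (nat_lit 0x8088c91ca) (nat_lit 543663854),
  Rx.mk (nat_lit 470) (nat_lit 6) (nat_lit 2) (nat_lit 7) (nat_lit 7) (nat_lit 133) (nat_lit 215) r11_133 r4_215 (nat_lit 0) (nat_lit 0) (nat_lit 0) (nat_lit 0x807403de4) (nat_lit 531198062),
  Rx.mk (nat_lit 500) (nat_lit 4) (nat_lit 6) (nat_lit 7) (nat_lit 6) (nat_lit 131) (nat_lit 205) r11_131 r4_205 (nat_lit 31334360) (nat_lit 0) (nat_lit 0) (nat_lit 0x7f54de2a8) (nat_lit 580083322),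
  Rx.mk (nat_lit 503) (nat_lit 7) (nat_lit 6) (nat_lit 7) (nat_lit 7) (nat_lit 134) (nat_lit 206) r11_134 r4_206 (nat_lit 0) (nat_lit 0) (nat_lit 0) (nat_lit 0x81e84d53c) (nat_lit 508548712)]
noncomputable def e34_10 : List Rx := [
  Rx.mk (nat_lit 55) (nat_lit 7) (nat_lit 6) (nat_lit 0) (nat_lit 3) (nat_lit 284) (nat_lit 254) r11_284 r6_254 (nat_lit 0) (nat_lit 0) (nat_lit 4181752) (nat_lit 0x80bce2e16) (nat_lit 530625764),
  Rx.mk (nat_lit 119) (nat_lit 7) (nat_lit 6) (nat_lit 1) (nat_lit 7) (nat_lit 285) (nat_lit 255) r11_285 r6_255 (nat_lit 0) (nat_lit 0) (nat_lit 0) (nat_lit 0x84db9c5a6) (nat_lit 463462512),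
  Rx.mk (nat_lit 247) (nat_lit 7) (nat_lit 6) (nat_lit 3) (nat_lit 7) (nat_lit 286) (nat_lit 256) r11_286 r6_256 (nat_lit 0) (nat_lit 0) (nat_lit 0) (nat_lit 0x8558f78ac) (nat_lit 456022662)]
noncomputable def e34_11 : List Rx := [
  Rx.mk (nat_lit 247) (nat_lit 7) (nat_lit 6) (nat_lit 3) (nat_lit 7) (nat_lit 265) (nat_lit 230) r11_265 r5_230 (nat_lit 0) (nat_lit 0) (nat_lit 0) (nat_lit 0x880aa8a68) (nat_lit 414822412)]
noncomputable def e34_12 : List Rx := [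
  Rx.mk (nat_lit 116) (nat_lit 4) (nat_lit 6) (nat_lit 1) (nat_lit 6) (nat_lit 298) (nat_lit 328) r11_298 r0_328 (nat_lit 19793988) (nat_lit 0) (nat_lit 0) (nat_lit 0x801bf7722) (nat_lit 556379500),
  Rx.mk (nat_lit 117) (nat_lit 5) (nat_lit 6) (nat_lit 1) (nat_lit 7) (nat_lit 299) (nat_lit 329) r11_299 r0_329 (nat_lit 0) (nat_lit 0) (nat_lit 0) (nat_lit 0x8017985b4) (nat_lit 536870912)]
noncomputable def e34_13 : List Rx := [
  Rx.mk (nat_lit 116) (nat_lit 4) (nat_lit 6) (nat_lit 1) (nat_lit 6) (nat_lit 306) (nat_lit 288) r11_306 r7_288 (nat_lit 19264518) (nat_lit 0) (nat_lit 0) (nat_lit 0x8067c11ee) (nat_lit 551226430),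
  Rx.mk (nat_lit 117) (nat_lit 5) (nat_lit 6) (nat_lit 1) (nat_lit 7) (nat_lit 307) (nat_lit 290) r11_307 r7_290 (nat_lit 0) (nat_lit 0) (nat_lit 0) (nat_lit 0x8017985b4) (nat_lit 536870912),
  Rx.mk (nat_lit 372) (nat_lit 4) (nat_lit 6) (nat_lit 5) (nat_lit 6) (nat_lit 303) (nat_lit 289) r11_303 r7_289 (nat_lit 24741287) (nat_lit 0) (nat_lit 0) (nat_lit 0x8017985b4) (nat_lit 561612199),
  Rx.mk (nat_lit 373) (nat_lit 5) (nat_lit 6) (nat_lit 5) (nat_lit 7) (nat_lit 304) (nat_lit 291) r11_304 r7_291 (nat_lit 0) (nat_lit 0) (nat_lit 0) (nat_lit 0x8017985b4) (nat_lit 536870912),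
  Rx.mk (nat_lit 375) (nat_lit 7) (nat_lit 6) (nat_lit 5) (nat_lit 7) (nat_lit 305) (nat_lit 292) r11_305 r7_292 (nat_lit 0) (nat_lit 0) (nat_lit 0) (nat_lit 0x8017985b4) (nat_lit 536870912)]
noncomputable def e34_14 : List Rx := [
  Rx.mk (nat_lit 117) (nat_lit 5) (nat_lit 6) (nat_lit 1) (nat_lit 7) (nat_lit 338) (nat_lit 310) r11_338 r1_310 (nat_lit 0) (nat_lit 0) (nat_lit 0) (nat_lit 0x8017985b4) (nat_lit 536870912)]
noncomputable def e34_15 : List Rx := [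
  Rx.mk (nat_lit 117) (nat_lit 5) (nat_lit 6) (nat_lit 1) (nat_lit 7) (nat_lit 344) (nat_lit 219) r11_344 r8_219 (nat_lit 0) (nat_lit 0) (nat_lit 0) (nat_lit 0x8017985b4) (nat_lit 536870912),
  Rx.mk (nat_lit 373) (nat_lit 5) (nat_lit 6) (nat_lit 5) (nat_lit 7) (nat_lit 343) (nat_lit 220) r11_343 r8_220 (nat_lit 0) (nat_lit 0) (nat_lit 0) (nat_lit 0x8017985b4) (nat_lit 536870912)]
noncomputable def e34_16 : List Rx := [
  Rx.mk (nat_lit 372) (nat_lit 4) (nat_lit 6) (nat_lit 5) (nat_lit 6) (nat_lit 335) (nat_lit 358) r11_335 r8_358 (nat_lit 24741287) (nat_lit 0) (nat_lit 0) (nat_lit 0x8017985b4) (nat_lit 561612199),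
  Rx.mk (nat_lit 373) (nat_lit 5) (nat_lit 6) (nat_lit 5) (nat_lit 7) (nat_lit 336) (nat_lit 359) r11_336 r8_359 (nat_lit 0) (nat_lit 0) (nat_lit 0) (nat_lit 0x8017985b4) (nat_lit 536870912),
  Rx.mk (nat_lit 375) (nat_lit 7) (nat_lit 6) (nat_lit 5) (nat_lit 7) (nat_lit 337) (nat_lit 360) r11_337 r8_360 (nat_lit 0) (nat_lit 0) (nat_lit 0) (nat_lit 0x8017985b4) (nat_lit 536870912)]
noncomputable def e34_17 : List Rx := [
  Rx.mk (nat_lit 276) (nat_lit 4) (nat_lit 2) (nat_lit 4) (nat_lit 2) (nat_lit 319) (nat_lit 229) r11_319 r9_229 (nat_lit 47287016) (nat_lit 0) (nat_lit 47287016) (nat_lit 0x7cbaf48b0) (nat_lit 685204344),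
  Rx.mk (nat_lit 278) (nat_lit 6) (nat_lit 2) (nat_lit 4) (nat_lit 3) (nat_lit 320) (nat_lit 238) r11_320 r9_238 (nat_lit 0) (nat_lit 0) (nat_lit 24741287) (nat_lit 0x8017985b4) (nat_lit 561612199),
  Rx.mk (nat_lit 308) (nat_lit 4) (nat_lit 6) (nat_lit 4) (nat_lit 2) (nat_lit 318) (nat_lit 231) r11_318 r9_231 (nat_lit 43848106) (nat_lit 0) (nat_lit 43672610) (nat_lit 0x78800f28a) (nat_lit 746426178),
  Rx.mk (nat_lit 311) (nat_lit 7) (nat_lit 6) (nat_lit 4) (nat_lit 3) (nat_lit 321) (nat_lit 235) r11_321 r9_235 (nat_lit 0) (nat_lit 0) (nat_lit 24741287) (nat_lit 0x8017985b4) (nat_lit 561612199),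
  Rx.mk (nat_lit 340) (nat_lit 4) (nat_lit 2) (nat_lit 5) (nat_lit 6) (nat_lit 323) (nat_lit 230) r11_323 r9_230 (nat_lit 24741287) (nat_lit 0) (nat_lit 0) (nat_lit 0x8017985b4) (nat_lit 561612199),
  Rx.mk (nat_lit 341) (nat_lit 5) (nat_lit 2) (nat_lit 5) (nat_lit 7) (nat_lit 325) (nat_lit 233) r11_325 r9_233 (nat_lit 0) (nat_lit 0) (nat_lit 0) (nat_lit 0x8017985b4) (nat_lit 536870912),
  Rx.mk (nat_lit 342) (nat_lit 6) (nat_lit 2) (nat_lit 5) (nat_lit 7) (nat_lit 326) (nat_lit 239) r11_326 r9_239 (nat_lit 0) (nat_lit 0) (nat_lit 0) (nat_lit 0x8017985b4) (nat_lit 536870912),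
  Rx.mk (nat_lit 372) (nat_lit 4) (nat_lit 6) (nat_lit 5) (nat_lit 6) (nat_lit 322) (nat_lit 232) r11_322 r9_232 (nat_lit 24741287) (nat_lit 0) (nat_lit 0) (nat_lit 0x8017985b4) (nat_lit 561612199),
  Rx.mk (nat_lit 373) (nat_lit 5) (nat_lit 6) (nat_lit 5) (nat_lit 7) (nat_lit 324) (nat_lit 234) r11_324 r9_234 (nat_lit 0) (nat_lit 0) (nat_lit 0) (nat_lit 0x8017985b4) (nat_lit 536870912),
  Rx.mk (nat_lit 375) (nat_lit 7) (nat_lit 6) (nat_lit 5) (nat_lit 7) (nat_lit 327) (nat_lit 236) r11_327 r9_236 (nat_lit 0) (nat_lit 0) (nat_lit 0) (nat_lit 0x8017985b4) (nat_lit 536870912),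
  Rx.mk (nat_lit 406) (nat_lit 6) (nat_lit 2) (nat_lit 6) (nat_lit 7) (nat_lit 328) (nat_lit 240) r11_328 r9_240 (nat_lit 0) (nat_lit 0) (nat_lit 0) (nat_lit 0x8017985b4) (nat_lit 536870912),
  Rx.mk (nat_lit 503) (nat_lit 7) (nat_lit 6) (nat_lit 7) (nat_lit 7) (nat_lit 329) (nat_lit 237) r11_329 r9_237 (nat_lit 0) (nat_lit 0) (nat_lit 0) (nat_lit 0x8017985b4) (nat_lit 536870912)]
noncomputable def e34_18 : List Rx := [
  Rx.mk (nat_lit 116) (nat_lit 4) (nat_lit 6) (nat_lit 1) (nat_lit 6) (nat_lit 353) (nat_lit 363) r11_353 r4_363 (nat_lit 18792813) (nat_lit 0) (nat_lit 0) (nat_lit 0x7fd5d2af8) (nat_lit 559647725),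
  Rx.mk (nat_lit 117) (nat_lit 5) (nat_lit 6) (nat_lit 1) (nat_lit 7) (nat_lit 354) (nat_lit 364) r11_354 r4_364 (nat_lit 0) (nat_lit 0) (nat_lit 0) (nat_lit 0x8047a5cb6) (nat_lit 533919512),
  Rx.mk (nat_lit 119) (nat_lit 7) (nat_lit 6) (nat_lit 1) (nat_lit 7) (nat_lit 355) (nat_lit 365) r11_355 r4_365 (nat_lit 0) (nat_lit 0) (nat_lit 0) (nat_lit 0x8026a1380) (nat_lit 535916512)]
noncomputable def e34_19 : List Rx := [
  Rx.mk (nat_lit 116) (nat_lit 4) (nat_lit 6) (nat_lit 1) (nat_lit 6) (nat_lit 361) (nat_lit 240) r11_361 r10_240 (nat_lit 20709188) (nat_lit 0) (nat_lit 0) (nat_lit 0x804c96cf2) (nat_lit 554327950),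
  Rx.mk (nat_lit 117) (nat_lit 5) (nat_lit 6) (nat_lit 1) (nat_lit 7) (nat_lit 362) (nat_lit 241) r11_362 r10_241 (nat_lit 0) (nat_lit 0) (nat_lit 0) (nat_lit 0x8017985b4) (nat_lit 536870912),
  Rx.mk (nat_lit 119) (nat_lit 7) (nat_lit 6) (nat_lit 1) (nat_lit 7) (nat_lit 363) (nat_lit 242) r11_363 r10_242 (nat_lit 0) (nat_lit 0) (nat_lit 0) (nat_lit 0x8017985b4) (nat_lit 536870912),
  Rx.mk (nat_lit 375) (nat_lit 7) (nat_lit 6) (nat_lit 5) (nat_lit 7) (nat_lit 360) (nat_lit 243) r11_360 r10_243 (nat_lit 0) (nat_lit 0) (nat_lit 0) (nat_lit 0x8017985b4) (nat_lit 536870912)]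
noncomputable def e34_20 : List Rx := [
  Rx.mk (nat_lit 116) (nat_lit 4) (nat_lit 6) (nat_lit 1) (nat_lit 6) (nat_lit 368) (nat_lit 281) r11_368 r11_281 (nat_lit 24741287) (nat_lit 0) (nat_lit 0) (nat_lit 0x8017985b4) (nat_lit 561612199),
  Rx.mk (nat_lit 117) (nat_lit 5) (nat_lit 6) (nat_lit 1) (nat_lit 7) (nat_lit 369) (nat_lit 282) r11_369 r11_282 (nat_lit 0) (nat_lit 0) (nat_lit 0) (nat_lit 0x8017985b4) (nat_lit 536870912),
  Rx.mk (nat_lit 119) (nat_lit 7) (nat_lit 6) (nat_lit 1) (nat_lit 7) (nat_lit 370) (nat_lit 283) r11_370 r11_283 (nat_lit 0) (nat_lit 0) (nat_lit 0) (nat_lit 0x8017985b4) (nat_lit 536870912)]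
noncomputable def e34_21 : List Rx := [
  Rx.mk (nat_lit 278) (nat_lit 6) (nat_lit 2) (nat_lit 4) (nat_lit 3) (nat_lit 330) (nat_lit 216) r11_330 r9_216 (nat_lit 0) (nat_lit 0) (nat_lit 24741287) (nat_lit 0x8017985b4) (nat_lit 561612199),
  Rx.mk (nat_lit 342) (nat_lit 6) (nat_lit 2) (nat_lit 5) (nat_lit 7) (nat_lit 331) (nat_lit 217) r11_331 r9_217 (nat_lit 0) (nat_lit 0) (nat_lit 0) (nat_lit 0x8017985b4) (nat_lit 536870912),
  Rx.mk (nat_lit 406) (nat_lit 6) (nat_lit 2) (nat_lit 6) (nat_lit 7) (nat_lit 332) (nat_lit 218) r11_332 r9_218 (nat_lit 0) (nat_lit 0) (nat_lit 0) (nat_lit 0x8017985b4) (nat_lit 536870912)]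
noncomputable def e34_22 : List Rx := [
  Rx.mk (nat_lit 130) (nat_lit 2) (nat_lit 0) (nat_lit 2) (nat_lit 5) (nat_lit 0) (nat_lit 152) r11_0 r0_152 (nat_lit 0) (nat_lit 24142843) (nat_lit 0) (nat_lit 0x7ecf6cf52) (nat_lit 581323155),
  Rx.mk (nat_lit 154) (nat_lit 2) (nat_lit 3) (nat_lit 2) (nat_lit 7) (nat_lit 1) (nat_lit 153) r11_1 r0_153 (nat_lit 0) (nat_lit 0) (nat_lit 0) (nat_lit 0x80194a9fc) (nat_lit 536773062)]
noncomputable def e34_23 : List Rx := [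
  Rx.mk (nat_lit 130) (nat_lit 2) (nat_lit 0) (nat_lit 2) (nat_lit 5) (nat_lit 2) (nat_lit 166) r11_2 r1_166 (nat_lit 0) (nat_lit 24107596) (nat_lit 0) (nat_lit 0x800249f8c) (nat_lit 562289358),
  Rx.mk (nat_lit 138) (nat_lit 2) (nat_lit 1) (nat_lit 2) (nat_lit 7) (nat_lit 3) (nat_lit 167) r11_3 r1_167 (nat_lit 0) (nat_lit 0) (nat_lit 0) (nat_lit 0x8017985b4) (nat_lit 536870912),
  Rx.mk (nat_lit 154) (nat_lit 2) (nat_lit 3) (nat_lit 2) (nat_lit 7) (nat_lit 4) (nat_lit 168) r11_4 r1_168 (nat_lit 0) (nat_lit 0) (nat_lit 0) (nat_lit 0x8017985b4) (nat_lit 536870912)]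
noncomputable def e34_24 : List Rx := [
  Rx.mk (nat_lit 154) (nat_lit 2) (nat_lit 3) (nat_lit 2) (nat_lit 7) (nat_lit 8) (nat_lit 143) r11_8 r4_143 (nat_lit 0) (nat_lit 0) (nat_lit 0) (nat_lit 0x7ff232496) (nat_lit 539166062)]
noncomputable def e34_25 : List Rx := [
  Rx.mk (nat_lit 130) (nat_lit 2) (nat_lit 0) (nat_lit 2) (nat_lit 5) (nat_lit 105) (nat_lit 276) r11_105 r7_276 (nat_lit 0) (nat_lit 22333228) (nat_lit 0) (nat_lit 0x7fea265d6) (nat_lit 561979440),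
  Rx.mk (nat_lit 154) (nat_lit 2) (nat_lit 3) (nat_lit 2) (nat_lit 7) (nat_lit 106) (nat_lit 277) r11_106 r7_277 (nat_lit 0) (nat_lit 0) (nat_lit 0) (nat_lit 0x8017985b4) (nat_lit 536870912),
  Rx.mk (nat_lit 278) (nat_lit 6) (nat_lit 2) (nat_lit 4) (nat_lit 3) (nat_lit 101) (nat_lit 278) r11_101 r7_278 (nat_lit 0) (nat_lit 0) (nat_lit 24741287) (nat_lit 0x8017985b4) (nat_lit 561612199),
  Rx.mk (nat_lit 386) (nat_lit 2) (nat_lit 0) (nat_lit 6) (nat_lit 5) (nat_lit 104) (nat_lit 275) r11_104 r7_275 (nat_lit 0) (nat_lit 24741287) (nat_lit 0) (nat_lit 0x8017985b4) (nat_lit 561612199),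
  Rx.mk (nat_lit 390) (nat_lit 6) (nat_lit 0) (nat_lit 6) (nat_lit 5) (nat_lit 102) (nat_lit 274) r11_102 r7_274 (nat_lit 0) (nat_lit 24836041) (nat_lit 0) (nat_lit 0x800a5d2d2) (nat_lit 562522353),
  Rx.mk (nat_lit 406) (nat_lit 6) (nat_lit 2) (nat_lit 6) (nat_lit 7) (nat_lit 103) (nat_lit 279) r11_103 r7_279 (nat_lit 0) (nat_lit 0) (nat_lit 0) (nat_lit 0x8017985b4) (nat_lit 536870912)]
noncomputable def e34_26 : List Rx := [
  Rx.mk (nat_lit 130) (nat_lit 2) (nat_lit 0) (nat_lit 2) (nat_lit 5) (nat_lit 120) (nat_lit 208) r11_120 r8_208 (nat_lit 0) (nat_lit 28059580) (nat_lit 0) (nat_lit 0x7f58302f8) (nat_lit 576670492),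
  Rx.mk (nat_lit 138) (nat_lit 2) (nat_lit 1) (nat_lit 2) (nat_lit 7) (nat_lit 121) (nat_lit 211) r11_121 r8_211 (nat_lit 0) (nat_lit 0) (nat_lit 0) (nat_lit 0x8017985b4) (nat_lit 536870912),
  Rx.mk (nat_lit 154) (nat_lit 2) (nat_lit 3) (nat_lit 2) (nat_lit 7) (nat_lit 122) (nat_lit 212) r11_122 r8_212 (nat_lit 0) (nat_lit 0) (nat_lit 0) (nat_lit 0x8017985b4) (nat_lit 536870912),
  Rx.mk (nat_lit 386) (nat_lit 2) (nat_lit 0) (nat_lit 6) (nat_lit 5) (nat_lit 118) (nat_lit 207) r11_118 r8_207 (nat_lit 0) (nat_lit 24741287) (nat_lit 0) (nat_lit 0x8017985b4) (nat_lit 561612199),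
  Rx.mk (nat_lit 390) (nat_lit 6) (nat_lit 0) (nat_lit 6) (nat_lit 5) (nat_lit 115) (nat_lit 206) r11_115 r8_206 (nat_lit 0) (nat_lit 24741287) (nat_lit 0) (nat_lit 0x8017985b4) (nat_lit 561612199),
  Rx.mk (nat_lit 394) (nat_lit 2) (nat_lit 1) (nat_lit 6) (nat_lit 7) (nat_lit 119) (nat_lit 210) r11_119 r8_210 (nat_lit 0) (nat_lit 0) (nat_lit 0) (nat_lit 0x8017985b4) (nat_lit 536870912),
  Rx.mk (nat_lit 398) (nat_lit 6) (nat_lit 1) (nat_lit 6) (nat_lit 7) (nat_lit 116) (nat_lit 209) r11_116 r8_209 (nat_lit 0) (nat_lit 0) (nat_lit 0) (nat_lit 0x8017985b4) (nat_lit 536870912),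
  Rx.mk (nat_lit 406) (nat_lit 6) (nat_lit 2) (nat_lit 6) (nat_lit 7) (nat_lit 117) (nat_lit 213) r11_117 r8_213 (nat_lit 0) (nat_lit 0) (nat_lit 0) (nat_lit 0x8017985b4) (nat_lit 536870912)]
noncomputable def e34_27 : List Rx := [
  Rx.mk (nat_lit 278) (nat_lit 6) (nat_lit 2) (nat_lit 4) (nat_lit 3) (nat_lit 113) (nat_lit 157) r11_113 r8_157 (nat_lit 0) (nat_lit 0) (nat_lit 24741287) (nat_lit 0x8017985b4) (nat_lit 561612199),
  Rx.mk (nat_lit 406) (nat_lit 6) (nat_lit 2) (nat_lit 6) (nat_lit 7) (nat_lit 114) (nat_lit 158) r11_114 r8_158 (nat_lit 0) (nat_lit 0) (nat_lit 0) (nat_lit 0x8017985b4) (nat_lit 536870912)]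
noncomputable def e34_28 : List Rx := [
  Rx.mk (nat_lit 154) (nat_lit 2) (nat_lit 3) (nat_lit 2) (nat_lit 7) (nat_lit 143) (nat_lit 221) r11_143 r10_221 (nat_lit 0) (nat_lit 0) (nat_lit 0) (nat_lit 0x8017985b4) (nat_lit 536870912),
  Rx.mk (nat_lit 278) (nat_lit 6) (nat_lit 2) (nat_lit 4) (nat_lit 3) (nat_lit 137) (nat_lit 222) r11_137 r10_222 (nat_lit 0) (nat_lit 0) (nat_lit 24741287) (nat_lit 0x8017985b4) (nat_lit 561612199),
  Rx.mk (nat_lit 386) (nat_lit 2) (nat_lit 0) (nat_lit 6) (nat_lit 5) (nat_lit 140) (nat_lit 219) r11_140 r10_219 (nat_lit 0) (nat_lit 24894793) (nat_lit 0) (nat_lit 0x8000a4c72) (nat_lit 563170405),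
  Rx.mk (nat_lit 390) (nat_lit 6) (nat_lit 0) (nat_lit 6) (nat_lit 5) (nat_lit 138) (nat_lit 218) r11_138 r10_218 (nat_lit 0) (nat_lit 24741287) (nat_lit 0) (nat_lit 0x8017985b4) (nat_lit 561612199),
  Rx.mk (nat_lit 406) (nat_lit 6) (nat_lit 2) (nat_lit 6) (nat_lit 7) (nat_lit 139) (nat_lit 224) r11_139 r10_224 (nat_lit 0) (nat_lit 0) (nat_lit 0) (nat_lit 0x8017985b4) (nat_lit 536870912),
  Rx.mk (nat_lit 410) (nat_lit 2) (nat_lit 3) (nat_lit 6) (nat_lit 7) (nat_lit 141) (nat_lit 220) r11_141 r10_220 (nat_lit 0) (nat_lit 0) (nat_lit 0) (nat_lit 0x8017985b4) (nat_lit 536870912),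
  Rx.mk (nat_lit 470) (nat_lit 6) (nat_lit 2) (nat_lit 7) (nat_lit 7) (nat_lit 142) (nat_lit 223) r11_142 r10_223 (nat_lit 0) (nat_lit 0) (nat_lit 0) (nat_lit 0x8017985b4) (nat_lit 536870912)]
noncomputable def e34_29 : List Rx := []
noncomputable def e34_30 : List Rx := [
  Rx.mk (nat_lit 119) (nat_lit 7) (nat_lit 6) (nat_lit 1) (nat_lit 7) (nat_lit 356) (nat_lit 310) r11_356 r5_310 (nat_lit 0) (nat_lit 0) (nat_lit 0) (nat_lit 0x81691ae72) (nat_lit 516102862)]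
noncomputable def e34_31 : List Rx := [
  Rx.mk (nat_lit 119) (nat_lit 7) (nat_lit 6) (nat_lit 1) (nat_lit 7) (nat_lit 365) (nat_lit 365) r11_365 r11_365 (nat_lit 0) (nat_lit 0) (nat_lit 0) (nat_lit 0x80801aaba) (nat_lit 530459962),
  Rx.mk (nat_lit 375) (nat_lit 7) (nat_lit 6) (nat_lit 5) (nat_lit 7) (nat_lit 364) (nat_lit 364) r11_364 r11_364 (nat_lit 0) (nat_lit 0) (nat_lit 0) (nat_lit 0x8017985b4) (nat_lit 536870912)]
noncomputable def e34_32 : List Rx := [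
  Rx.mk (nat_lit 35) (nat_lit 3) (nat_lit 4) (nat_lit 0) (nat_lit 1) (nat_lit 54) (nat_lit 227) r11_54 r6_227 (nat_lit 0) (nat_lit 8232258) (nat_lit 8887259) (nat_lit 0x752a94a10) (nat_lit 729817329),
  Rx.mk (nat_lit 51) (nat_lit 3) (nat_lit 6) (nat_lit 0) (nat_lit 3) (nat_lit 55) (nat_lit 229) r11_55 r6_229 (nat_lit 0) (nat_lit 0) (nat_lit 20819956) (nat_lit 0x80443f36a) (nat_lit 554944468),
  Rx.mk (nat_lit 56) (nat_lit 0) (nat_lit 7) (nat_lit 0) (nat_lit 2) (nat_lit 53) (nat_lit 224) r11_53 r6_224 (nat_lit 17592133) (nat_lit 0) (nat_lit 11453294) (nat_lit 0x79c89e50e) (nat_lit 667174639),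
  Rx.mk (nat_lit 59) (nat_lit 3) (nat_lit 7) (nat_lit 0) (nat_lit 3) (nat_lit 56) (nat_lit 228) r11_56 r6_228 (nat_lit 0) (nat_lit 0) (nat_lit 11833070) (nat_lit 0x80dfff796) (nat_lit 536433782),
  Rx.mk (nat_lit 99) (nat_lit 3) (nat_lit 4) (nat_lit 1) (nat_lit 5) (nat_lit 58) (nat_lit 230) r11_58 r6_230 (nat_lit 0) (nat_lit 24863851) (nat_lit 0) (nat_lit 0x80051da7e) (nat_lit 562865263),
  Rx.mk (nat_lit 115) (nat_lit 3) (nat_lit 6) (nat_lit 1) (nat_lit 7) (nat_lit 59) (nat_lit 232) r11_59 r6_232 (nat_lit 0) (nat_lit 0) (nat_lit 0) (nat_lit 0x8017985b4) (nat_lit 536870912),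
  Rx.mk (nat_lit 120) (nat_lit 0) (nat_lit 7) (nat_lit 1) (nat_lit 6) (nat_lit 57) (nat_lit 225) r11_57 r6_225 (nat_lit 23560195) (nat_lit 0) (nat_lit 0) (nat_lit 0x8006b0be8) (nat_lit 561461107),
  Rx.mk (nat_lit 123) (nat_lit 3) (nat_lit 7) (nat_lit 1) (nat_lit 7) (nat_lit 60) (nat_lit 231) r11_60 r6_231 (nat_lit 0) (nat_lit 0) (nat_lit 0) (nat_lit 0x8017985b4) (nat_lit 536870912),
  Rx.mk (nat_lit 163) (nat_lit 3) (nat_lit 4) (nat_lit 2) (nat_lit 5) (nat_lit 63) (nat_lit 235) r11_63 r6_235 (nat_lit 0) (nat_lit 24741287) (nat_lit 0) (nat_lit 0x8017985b4) (nat_lit 561612199),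
  Rx.mk (nat_lit 184) (nat_lit 0) (nat_lit 7) (nat_lit 2) (nat_lit 6) (nat_lit 61) (nat_lit 226) r11_61 r6_226 (nat_lit 26850297) (nat_lit 0) (nat_lit 0) (nat_lit 0x80135a3c6) (nat_lit 563945709),
  Rx.mk (nat_lit 186) (nat_lit 2) (nat_lit 7) (nat_lit 2) (nat_lit 7) (nat_lit 62) (nat_lit 237) r11_62 r6_237 (nat_lit 0) (nat_lit 0) (nat_lit 0) (nat_lit 0x8017985b4) (nat_lit 536870912),
  Rx.mk (nat_lit 187) (nat_lit 3) (nat_lit 7) (nat_lit 2) (nat_lit 7) (nat_lit 64) (nat_lit 236) r11_64 r6_236 (nat_lit 0) (nat_lit 0) (nat_lit 0) (nat_lit 0x8017985b4) (nat_lit 536870912),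
  Rx.mk (nat_lit 227) (nat_lit 3) (nat_lit 4) (nat_lit 3) (nat_lit 5) (nat_lit 66) (nat_lit 233) r11_66 r6_233 (nat_lit 0) (nat_lit 24741287) (nat_lit 0) (nat_lit 0x8017985b4) (nat_lit 561612199),
  Rx.mk (nat_lit 243) (nat_lit 3) (nat_lit 6) (nat_lit 3) (nat_lit 7) (nat_lit 67) (nat_lit 234) r11_67 r6_234 (nat_lit 0) (nat_lit 0) (nat_lit 0) (nat_lit 0x8017985b4) (nat_lit 536870912),
  Rx.mk (nat_lit 247) (nat_lit 7) (nat_lit 6) (nat_lit 3) (nat_lit 7) (nat_lit 65) (nat_lit 223) r11_65 r6_223 (nat_lit 0) (nat_lit 0) (nat_lit 0) (nat_lit 0x822812b0e) (nat_lit 504804312)]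
noncomputable def e34_33 : List Rx := [
  Rx.mk (nat_lit 56) (nat_lit 0) (nat_lit 7) (nat_lit 0) (nat_lit 2) (nat_lit 9) (nat_lit 140) r11_9 r5_140 (nat_lit 674925) (nat_lit 0) (nat_lit 474232) (nat_lit 0x722cb1ea4) (nat_lit 761731069),
  Rx.mk (nat_lit 59) (nat_lit 3) (nat_lit 7) (nat_lit 0) (nat_lit 3) (nat_lit 10) (nat_lit 141) r11_10 r5_141 (nat_lit 0) (nat_lit 0) (nat_lit 4328604) (nat_lit 0x8397c64a4) (nat_lit 487049866),
  Rx.mk (nat_lit 154) (nat_lit 2) (nat_lit 3) (nat_lit 2) (nat_lit 7) (nat_lit 13) (nat_lit 148) r11_13 r5_148 (nat_lit 0) (nat_lit 0) (nat_lit 0) (nat_lit 0x8219c55ce) (nat_lit 505691562),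
  Rx.mk (nat_lit 184) (nat_lit 0) (nat_lit 7) (nat_lit 2) (nat_lit 6) (nat_lit 11) (nat_lit 146) r11_11 r5_146 (nat_lit 9828533) (nat_lit 0) (nat_lit 0) (nat_lit 0x7fdfbd658) (nat_lit 549901095),
  Rx.mk (nat_lit 186) (nat_lit 2) (nat_lit 7) (nat_lit 2) (nat_lit 7) (nat_lit 12) (nat_lit 149) r11_12 r5_149 (nat_lit 0) (nat_lit 0) (nat_lit 0) (nat_lit 0x80700d5c8) (nat_lit 531445012),
  Rx.mk (nat_lit 187) (nat_lit 3) (nat_lit 7) (nat_lit 2) (nat_lit 7) (nat_lit 14) (nat_lit 147) r11_14 r5_147 (nat_lit 0) (nat_lit 0) (nat_lit 0) (nat_lit 0x81c0f7b72) (nat_lit 511039762),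
  Rx.mk (nat_lit 227) (nat_lit 3) (nat_lit 4) (nat_lit 3) (nat_lit 5) (nat_lit 16) (nat_lit 142) r11_16 r5_142 (nat_lit 0) (nat_lit 13610733) (nat_lit 0) (nat_lit 0x7f8c34efa) (nat_lit 558980045),
  Rx.mk (nat_lit 243) (nat_lit 3) (nat_lit 6) (nat_lit 3) (nat_lit 7) (nat_lit 17) (nat_lit 144) r11_17 r5_144 (nat_lit 0) (nat_lit 0) (nat_lit 0) (nat_lit 0x804f3bf3e) (nat_lit 533452962),
  Rx.mk (nat_lit 247) (nat_lit 7) (nat_lit 6) (nat_lit 3) (nat_lit 7) (nat_lit 15) (nat_lit 145) r11_15 r5_145 (nat_lit 0) (nat_lit 0) (nat_lit 0) (nat_lit 0x839723e3e) (nat_lit 482866162),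
  Rx.mk (nat_lit 251) (nat_lit 3) (nat_lit 7) (nat_lit 3) (nat_lit 7) (nat_lit 18) (nat_lit 143) r11_18 r5_143 (nat_lit 0) (nat_lit 0) (nat_lit 0) (nat_lit 0x804f350bc) (nat_lit 533454612)]
noncomputable def e34_34 : List Rx := [
  Rx.mk (nat_lit 56) (nat_lit 0) (nat_lit 7) (nat_lit 0) (nat_lit 2) (nat_lit 154) (nat_lit 144) r11_154 r11_144 (nat_lit 2749576) (nat_lit 0) (nat_lit 2309132) (nat_lit 0x74869b7b0) (nat_lit 727898020),
  Rx.mk (nat_lit 59) (nat_lit 3) (nat_lit 7) (nat_lit 0) (nat_lit 3) (nat_lit 155) (nat_lit 145) r11_155 r11_145 (nat_lit 0) (nat_lit 0) (nat_lit 19246826) (nat_lit 0x8067e6958) (nat_lit 551201238),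
  Rx.mk (nat_lit 154) (nat_lit 2) (nat_lit 3) (nat_lit 2) (nat_lit 7) (nat_lit 158) (nat_lit 152) r11_158 r11_152 (nat_lit 0) (nat_lit 0) (nat_lit 0) (nat_lit 0x80b7ebb88) (nat_lit 527004212),
  Rx.mk (nat_lit 184) (nat_lit 0) (nat_lit 7) (nat_lit 2) (nat_lit 6) (nat_lit 156) (nat_lit 150) r11_156 r11_150 (nat_lit 22669922) (nat_lit 0) (nat_lit 0) (nat_lit 0x800c22b12) (nat_lit 560231734),
  Rx.mk (nat_lit 186) (nat_lit 2) (nat_lit 7) (nat_lit 2) (nat_lit 7) (nat_lit 157) (nat_lit 153) r11_157 r11_153 (nat_lit 0) (nat_lit 0) (nat_lit 0) (nat_lit 0x8017985b4) (nat_lit 536870912),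
  Rx.mk (nat_lit 187) (nat_lit 3) (nat_lit 7) (nat_lit 2) (nat_lit 7) (nat_lit 159) (nat_lit 151) r11_159 r11_151 (nat_lit 0) (nat_lit 0) (nat_lit 0) (nat_lit 0x8017985b4) (nat_lit 536870912),
  Rx.mk (nat_lit 227) (nat_lit 3) (nat_lit 4) (nat_lit 3) (nat_lit 5) (nat_lit 161) (nat_lit 146) r11_161 r11_146 (nat_lit 0) (nat_lit 22142472) (nat_lit 0) (nat_lit 0x800df71e0) (nat_lit 559592834),
  Rx.mk (nat_lit 243) (nat_lit 3) (nat_lit 6) (nat_lit 3) (nat_lit 7) (nat_lit 162) (nat_lit 148) r11_162 r11_148 (nat_lit 0) (nat_lit 0) (nat_lit 0) (nat_lit 0x8017985b4) (nat_lit 536870912),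
  Rx.mk (nat_lit 247) (nat_lit 7) (nat_lit 6) (nat_lit 3) (nat_lit 7) (nat_lit 160) (nat_lit 149) r11_160 r11_149 (nat_lit 0) (nat_lit 0) (nat_lit 0) (nat_lit 0x801359f98) (nat_lit 537129362),
  Rx.mk (nat_lit 251) (nat_lit 3) (nat_lit 7) (nat_lit 3) (nat_lit 7) (nat_lit 163) (nat_lit 147) r11_163 r11_147 (nat_lit 0) (nat_lit 0) (nat_lit 0) (nat_lit 0x8017985b4) (nat_lit 536870912),
  Rx.mk (nat_lit 276) (nat_lit 4) (nat_lit 2) (nat_lit 4) (nat_lit 2) (nat_lit 144) (nat_lit 154) r11_144 r11_154 (nat_lit 2749576) (nat_lit 0) (nat_lit 2309132) (nat_lit 0x74869b7b0) (nat_lit 727898020),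
  Rx.mk (nat_lit 278) (nat_lit 6) (nat_lit 2) (nat_lit 4) (nat_lit 3) (nat_lit 145) (nat_lit 155) r11_145 r11_155 (nat_lit 0) (nat_lit 0) (nat_lit 19246826) (nat_lit 0x8067e6958) (nat_lit 551201238),
  Rx.mk (nat_lit 390) (nat_lit 6) (nat_lit 0) (nat_lit 6) (nat_lit 5) (nat_lit 146) (nat_lit 161) r11_146 r11_161 (nat_lit 0) (nat_lit 22142472) (nat_lit 0) (nat_lit 0x800df71e0) (nat_lit 559592834),
  Rx.mk (nat_lit 406) (nat_lit 6) (nat_lit 2) (nat_lit 6) (nat_lit 7) (nat_lit 147) (nat_lit 163) r11_147 r11_163 (nat_lit 0) (nat_lit 0) (nat_lit 0) (nat_lit 0x8017985b4) (nat_lit 536870912),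
  Rx.mk (nat_lit 410) (nat_lit 2) (nat_lit 3) (nat_lit 6) (nat_lit 7) (nat_lit 149) (nat_lit 160) r11_149 r11_160 (nat_lit 0) (nat_lit 0) (nat_lit 0) (nat_lit 0x801359f98) (nat_lit 537129362),
  Rx.mk (nat_lit 414) (nat_lit 6) (nat_lit 3) (nat_lit 6) (nat_lit 7) (nat_lit 148) (nat_lit 162) r11_148 r11_162 (nat_lit 0) (nat_lit 0) (nat_lit 0) (nat_lit 0x8017985b4) (nat_lit 536870912),
  Rx.mk (nat_lit 468) (nat_lit 4) (nat_lit 2) (nat_lit 7) (nat_lit 6) (nat_lit 150) (nat_lit 156) r11_150 r11_156 (nat_lit 22669922) (nat_lit 0) (nat_lit 0) (nat_lit 0x800c22b12) (nat_lit 560231734),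
  Rx.mk (nat_lit 470) (nat_lit 6) (nat_lit 2) (nat_lit 7) (nat_lit 7) (nat_lit 151) (nat_lit 159) r11_151 r11_159 (nat_lit 0) (nat_lit 0) (nat_lit 0) (nat_lit 0x8017985b4) (nat_lit 536870912),
  Rx.mk (nat_lit 471) (nat_lit 7) (nat_lit 2) (nat_lit 7) (nat_lit 7) (nat_lit 153) (nat_lit 157) r11_153 r11_157 (nat_lit 0) (nat_lit 0) (nat_lit 0) (nat_lit 0x8017985b4) (nat_lit 536870912),
  Rx.mk (nat_lit 503) (nat_lit 7) (nat_lit 6) (nat_lit 7) (nat_lit 7) (nat_lit 152) (nat_lit 158) r11_152 r11_158 (nat_lit 0) (nat_lit 0) (nat_lit 0) (nat_lit 0x80b7ebb88) (nat_lit 527004212)]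
noncomputable def e34_35 : List Rx := [
  Rx.mk (nat_lit 35) (nat_lit 3) (nat_lit 4) (nat_lit 0) (nat_lit 1) (nat_lit 267) (nat_lit 367) r11_267 r6_367 (nat_lit 0) (nat_lit 5930575) (nat_lit 5190488) (nat_lit 0x76ef41074) (nat_lit 695185625),
  Rx.mk (nat_lit 51) (nat_lit 3) (nat_lit 6) (nat_lit 0) (nat_lit 3) (nat_lit 268) (nat_lit 370) r11_268 r6_370 (nat_lit 0) (nat_lit 0) (nat_lit 18945663) (nat_lit 0x804f12fb2) (nat_lit 552405325),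
  Rx.mk (nat_lit 55) (nat_lit 7) (nat_lit 6) (nat_lit 0) (nat_lit 3) (nat_lit 266) (nat_lit 371) r11_266 r6_371 (nat_lit 0) (nat_lit 0) (nat_lit 4488265) (nat_lit 0x805dc6720) (nat_lit 536687177),
  Rx.mk (nat_lit 99) (nat_lit 3) (nat_lit 4) (nat_lit 1) (nat_lit 5) (nat_lit 270) (nat_lit 368) r11_270 r6_368 (nat_lit 0) (nat_lit 17138393) (nat_lit 0) (nat_lit 0x806f00630) (nat_lit 548606105),
  Rx.mk (nat_lit 115) (nat_lit 3) (nat_lit 6) (nat_lit 1) (nat_lit 7) (nat_lit 271) (nat_lit 372) r11_271 r6_372 (nat_lit 0) (nat_lit 0) (nat_lit 0) (nat_lit 0x8017985b4) (nat_lit 536870912),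
  Rx.mk (nat_lit 119) (nat_lit 7) (nat_lit 6) (nat_lit 1) (nat_lit 7) (nat_lit 269) (nat_lit 373) r11_269 r6_373 (nat_lit 0) (nat_lit 0) (nat_lit 0) (nat_lit 0x84800501c) (nat_lit 468941562),
  Rx.mk (nat_lit 163) (nat_lit 3) (nat_lit 4) (nat_lit 2) (nat_lit 5) (nat_lit 272) (nat_lit 369) r11_272 r6_369 (nat_lit 0) (nat_lit 24741287) (nat_lit 0) (nat_lit 0x8017985b4) (nat_lit 561612199)]
noncomputable def e34_36 : List Rx := [
  Rx.mk (nat_lit 35) (nat_lit 3) (nat_lit 4) (nat_lit 0) (nat_lit 1) (nat_lit 288) (nat_lit 277) r11_288 r12_277 (nat_lit 0) (nat_lit 4803434) (nat_lit 4468885) (nat_lit 0x77fe54128) (nat_lit 676180381),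
  Rx.mk (nat_lit 51) (nat_lit 3) (nat_lit 6) (nat_lit 0) (nat_lit 3) (nat_lit 289) (nat_lit 283) r11_289 r12_283 (nat_lit 0) (nat_lit 0) (nat_lit 24820252) (nat_lit 0x800bab5a8) (nat_lit 562420664),
  Rx.mk (nat_lit 55) (nat_lit 7) (nat_lit 6) (nat_lit 0) (nat_lit 3) (nat_lit 287) (nat_lit 285) r11_287 r12_285 (nat_lit 0) (nat_lit 0) (nat_lit 3201067) (nat_lit 0x80c289022) (nat_lit 529188929),
  Rx.mk (nat_lit 59) (nat_lit 3) (nat_lit 7) (nat_lit 0) (nat_lit 3) (nat_lit 290) (nat_lit 280) r11_290 r12_280 (nat_lit 0) (nat_lit 0) (nat_lit 9075693) (nat_lit 0x80cd0b3ba) (nat_lit 534764955),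
  Rx.mk (nat_lit 99) (nat_lit 3) (nat_lit 4) (nat_lit 1) (nat_lit 5) (nat_lit 292) (nat_lit 278) r11_292 r12_278 (nat_lit 0) (nat_lit 16057116) (nat_lit 0) (nat_lit 0x7fc34d5cc) (nat_lit 558049628),
  Rx.mk (nat_lit 115) (nat_lit 3) (nat_lit 6) (nat_lit 1) (nat_lit 7) (nat_lit 293) (nat_lit 284) r11_293 r12_284 (nat_lit 0) (nat_lit 0) (nat_lit 0) (nat_lit 0x7ff71c2cc) (nat_lit 538851962),
  Rx.mk (nat_lit 119) (nat_lit 7) (nat_lit 6) (nat_lit 1) (nat_lit 7) (nat_lit 291) (nat_lit 286) r11_291 r12_286 (nat_lit 0) (nat_lit 0) (nat_lit 0) (nat_lit 0x8f490b628) (nat_lit 304348712),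
  Rx.mk (nat_lit 123) (nat_lit 3) (nat_lit 7) (nat_lit 1) (nat_lit 7) (nat_lit 294) (nat_lit 281) r11_294 r12_281 (nat_lit 0) (nat_lit 0) (nat_lit 0) (nat_lit 0x804e46f70) (nat_lit 533487162),
  Rx.mk (nat_lit 163) (nat_lit 3) (nat_lit 4) (nat_lit 2) (nat_lit 5) (nat_lit 295) (nat_lit 279) r11_295 r12_279 (nat_lit 0) (nat_lit 21075625) (nat_lit 0) (nat_lit 0x804227960) (nat_lit 555330187),
  Rx.mk (nat_lit 187) (nat_lit 3) (nat_lit 7) (nat_lit 2) (nat_lit 7) (nat_lit 296) (nat_lit 282) r11_296 r12_282 (nat_lit 0) (nat_lit 0) (nat_lit 0) (nat_lit 0x8071a753c) (nat_lit 531344562),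
  Rx.mk (nat_lit 247) (nat_lit 7) (nat_lit 6) (nat_lit 3) (nat_lit 7) (nat_lit 297) (nat_lit 287) r11_297 r12_287 (nat_lit 0) (nat_lit 0) (nat_lit 0) (nat_lit 0x853b3dfaa) (nat_lit 457742362)]
noncomputable def e34_37 : List Rx := [
  Rx.mk (nat_lit 40) (nat_lit 0) (nat_lit 5) (nat_lit 0) (nat_lit 2) (nat_lit 37) (nat_lit 200) r11_37 r0_200 (nat_lit 46723193) (nat_lit 0) (nat_lit 75082556) (nat_lit 0x67eb4628a) (nat_lit 1048737861),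
  Rx.mk (nat_lit 104) (nat_lit 0) (nat_lit 5) (nat_lit 1) (nat_lit 6) (nat_lit 38) (nat_lit 201) r11_38 r0_201 (nat_lit 24741287) (nat_lit 0) (nat_lit 0) (nat_lit 0x80790da56) (nat_lit 555628299),
  Rx.mk (nat_lit 168) (nat_lit 0) (nat_lit 5) (nat_lit 2) (nat_lit 6) (nat_lit 39) (nat_lit 202) r11_39 r0_202 (nat_lit 41103109) (nat_lit 0) (nat_lit 0) (nat_lit 0x7fd7cf8c4) (nat_lit 581741021),
  Rx.mk (nat_lit 170) (nat_lit 2) (nat_lit 5) (nat_lit 2) (nat_lit 7) (nat_lit 40) (nat_lit 203) r11_40 r0_203 (nat_lit 0) (nat_lit 0) (nat_lit 0) (nat_lit 0x820bd8c36) (nat_lit 506517062)]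
noncomputable def e34_38 : List Rx := [
  Rx.mk (nat_lit 32) (nat_lit 0) (nat_lit 4) (nat_lit 0) (nat_lit 0) (nat_lit 165) (nat_lit 342) r11_165 r0_342 (nat_lit 61517721) (nat_lit 16543091) (nat_lit 27528448) (nat_lit 0x56389a70a) (nat_lit 1318729522),
  Rx.mk (nat_lit 33) (nat_lit 1) (nat_lit 4) (nat_lit 0) (nat_lit 1) (nat_lit 168) (nat_lit 343) r11_168 r0_343 (nat_lit 0) (nat_lit 97208642) (nat_lit 39863545) (nat_lit 0x7bb2e4220) (nat_lit 744358799),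
  Rx.mk (nat_lit 40) (nat_lit 0) (nat_lit 5) (nat_lit 0) (nat_lit 2) (nat_lit 166) (nat_lit 349) r11_166 r0_349 (nat_lit 43084134) (nat_lit 0) (nat_lit 151143769) (nat_lit 0x7b5af1fae) (nat_lit 807011715),
  Rx.mk (nat_lit 41) (nat_lit 1) (nat_lit 5) (nat_lit 0) (nat_lit 3) (nat_lit 169) (nat_lit 350) r11_169 r0_350 (nat_lit 0) (nat_lit 0) (nat_lit 24741287) (nat_lit 0x8017985b4) (nat_lit 561612199),
  Rx.mk (nat_lit 48) (nat_lit 0) (nat_lit 6) (nat_lit 0) (nat_lit 2) (nat_lit 167) (nat_lit 356) r11_167 r0_356 (nat_lit 40023232) (nat_lit 0) (nat_lit 40023232) (nat_lit 0x7e12b2628) (nat_lit 649033426),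
  Rx.mk (nat_lit 49) (nat_lit 1) (nat_lit 6) (nat_lit 0) (nat_lit 3) (nat_lit 170) (nat_lit 357) r11_170 r0_357 (nat_lit 0) (nat_lit 0) (nat_lit 24741287) (nat_lit 0x8017985b4) (nat_lit 561612199),
  Rx.mk (nat_lit 96) (nat_lit 0) (nat_lit 4) (nat_lit 1) (nat_lit 4) (nat_lit 171) (nat_lit 344) r11_171 r0_344 (nat_lit 36871294) (nat_lit 84020208) (nat_lit 0) (nat_lit 0x783359b98) (nat_lit 784659514),
  Rx.mk (nat_lit 97) (nat_lit 1) (nat_lit 4) (nat_lit 1) (nat_lit 5) (nat_lit 174) (nat_lit 345) r11_174 r0_345 (nat_lit 0) (nat_lit 66364716) (nat_lit 0) (nat_lit 0x7dacacf72) (nat_lit 641664678),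
  Rx.mk (nat_lit 104) (nat_lit 0) (nat_lit 5) (nat_lit 1) (nat_lit 6) (nat_lit 172) (nat_lit 351) r11_172 r0_351 (nat_lit 24741287) (nat_lit 0) (nat_lit 0) (nat_lit 0x8017985b4) (nat_lit 561612199),
  Rx.mk (nat_lit 105) (nat_lit 1) (nat_lit 5) (nat_lit 1) (nat_lit 7) (nat_lit 175) (nat_lit 352) r11_175 r0_352 (nat_lit 0) (nat_lit 0) (nat_lit 0) (nat_lit 0x8017985b4) (nat_lit 536870912),
  Rx.mk (nat_lit 112) (nat_lit 0) (nat_lit 6) (nat_lit 1) (nat_lit 6) (nat_lit 173) (nat_lit 358) r11_173 r0_358 (nat_lit 23550752) (nat_lit 0) (nat_lit 0) (nat_lit 0x804b6b5bc) (nat_lit 557203014),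
  Rx.mk (nat_lit 113) (nat_lit 1) (nat_lit 6) (nat_lit 1) (nat_lit 7) (nat_lit 176) (nat_lit 359) r11_176 r0_359 (nat_lit 0) (nat_lit 0) (nat_lit 0) (nat_lit 0x821f15f74) (nat_lit 505368512),
  Rx.mk (nat_lit 160) (nat_lit 0) (nat_lit 4) (nat_lit 2) (nat_lit 4) (nat_lit 177) (nat_lit 346) r11_177 r0_346 (nat_lit 49484385) (nat_lit 31505454) (nat_lit 0) (nat_lit 0x786492660) (nat_lit 741673001),
  Rx.mk (nat_lit 161) (nat_lit 1) (nat_lit 4) (nat_lit 2) (nat_lit 5) (nat_lit 179) (nat_lit 347) r11_179 r0_347 (nat_lit 0) (nat_lit 24741287) (nat_lit 0) (nat_lit 0x8017985b4) (nat_lit 561612199),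
  Rx.mk (nat_lit 162) (nat_lit 2) (nat_lit 4) (nat_lit 2) (nat_lit 5) (nat_lit 181) (nat_lit 348) r11_181 r0_348 (nat_lit 0) (nat_lit 24977480) (nat_lit 0) (nat_lit 0x7ff4c15ea) (nat_lit 563982842),
  Rx.mk (nat_lit 168) (nat_lit 0) (nat_lit 5) (nat_lit 2) (nat_lit 6) (nat_lit 178) (nat_lit 353) r11_178 r0_353 (nat_lit 27043959) (nat_lit 0) (nat_lit 0) (nat_lit 0x7fc599f24) (nat_lit 568952071),
  Rx.mk (nat_lit 169) (nat_lit 1) (nat_lit 5) (nat_lit 2) (nat_lit 7) (nat_lit 180) (nat_lit 354) r11_180 r0_354 (nat_lit 0) (nat_lit 0) (nat_lit 0) (nat_lit 0x8017985b4) (nat_lit 536870912),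
  Rx.mk (nat_lit 170) (nat_lit 2) (nat_lit 5) (nat_lit 2) (nat_lit 7) (nat_lit 182) (nat_lit 355) r11_182 r0_355 (nat_lit 0) (nat_lit 0) (nat_lit 0) (nat_lit 0x8017985b4) (nat_lit 536870912)]
noncomputable def e34_39 : List Rx := [
  Rx.mk (nat_lit 40) (nat_lit 0) (nat_lit 5) (nat_lit 0) (nat_lit 2) (nat_lit 212) (nat_lit 263) r11_212 r7_263 (nat_lit 34414543) (nat_lit 0) (nat_lit 107532607) (nat_lit 0x7c21f872e) (nat_lit 742207762),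
  Rx.mk (nat_lit 41) (nat_lit 1) (nat_lit 5) (nat_lit 0) (nat_lit 3) (nat_lit 213) (nat_lit 266) r11_213 r7_266 (nat_lit 0) (nat_lit 0) (nat_lit 24741287) (nat_lit 0x8017985b4) (nat_lit 561612199),
  Rx.mk (nat_lit 104) (nat_lit 0) (nat_lit 5) (nat_lit 1) (nat_lit 6) (nat_lit 214) (nat_lit 264) r11_214 r7_264 (nat_lit 24741287) (nat_lit 0) (nat_lit 0) (nat_lit 0x8017985b4) (nat_lit 561612199),
  Rx.mk (nat_lit 105) (nat_lit 1) (nat_lit 5) (nat_lit 1) (nat_lit 7) (nat_lit 215) (nat_lit 267) r11_215 r7_267 (nat_lit 0) (nat_lit 0) (nat_lit 0) (nat_lit 0x8017985b4) (nat_lit 536870912),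
  Rx.mk (nat_lit 168) (nat_lit 0) (nat_lit 5) (nat_lit 2) (nat_lit 6) (nat_lit 216) (nat_lit 265) r11_216 r7_265 (nat_lit 24741287) (nat_lit 0) (nat_lit 0) (nat_lit 0x8017985b4) (nat_lit 561612199),
  Rx.mk (nat_lit 169) (nat_lit 1) (nat_lit 5) (nat_lit 2) (nat_lit 7) (nat_lit 217) (nat_lit 268) r11_217 r7_268 (nat_lit 0) (nat_lit 0) (nat_lit 0) (nat_lit 0x8017985b4) (nat_lit 536870912),
  Rx.mk (nat_lit 170) (nat_lit 2) (nat_lit 5) (nat_lit 2) (nat_lit 7) (nat_lit 218) (nat_lit 269) r11_218 r7_269 (nat_lit 0) (nat_lit 0) (nat_lit 0) (nat_lit 0x8017985b4) (nat_lit 536870912)]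
noncomputable def e34_40 : List Rx := [
  Rx.mk (nat_lit 97) (nat_lit 1) (nat_lit 4) (nat_lit 1) (nat_lit 5) (nat_lit 340) (nat_lit 370) r11_340 r2_370 (nat_lit 0) (nat_lit 27655321) (nat_lit 0) (nat_lit 0x7fd1d42f8) (nat_lit 568815833),
  Rx.mk (nat_lit 105) (nat_lit 1) (nat_lit 5) (nat_lit 1) (nat_lit 7) (nat_lit 341) (nat_lit 371) r11_341 r2_371 (nat_lit 0) (nat_lit 0) (nat_lit 0) (nat_lit 0x8017985b4) (nat_lit 536870912),
  Rx.mk (nat_lit 113) (nat_lit 1) (nat_lit 6) (nat_lit 1) (nat_lit 7) (nat_lit 342) (nat_lit 372) r11_342 r2_372 (nat_lit 0) (nat_lit 0) (nat_lit 0) (nat_lit 0x8017985b4) (nat_lit 536870912),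
  Rx.mk (nat_lit 117) (nat_lit 5) (nat_lit 6) (nat_lit 1) (nat_lit 7) (nat_lit 339) (nat_lit 373) r11_339 r2_373 (nat_lit 0) (nat_lit 0) (nat_lit 0) (nat_lit 0x8017985b4) (nat_lit 536870912)]
noncomputable def e34_41 : List Rx := [
  Rx.mk (nat_lit 105) (nat_lit 1) (nat_lit 5) (nat_lit 1) (nat_lit 7) (nat_lit 350) (nat_lit 327) r11_350 r9_327 (nat_lit 0) (nat_lit 0) (nat_lit 0) (nat_lit 0x8017985b4) (nat_lit 536870912)]
noncomputable def e34_42 : List Rx := [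
  Rx.mk (nat_lit 97) (nat_lit 1) (nat_lit 4) (nat_lit 1) (nat_lit 5) (nat_lit 347) (nat_lit 320) r11_347 r9_320 (nat_lit 0) (nat_lit 34238693) (nat_lit 0) (nat_lit 0x7ed4be032) (nat_lit 591026955),
  Rx.mk (nat_lit 105) (nat_lit 1) (nat_lit 5) (nat_lit 1) (nat_lit 7) (nat_lit 348) (nat_lit 321) r11_348 r9_321 (nat_lit 0) (nat_lit 0) (nat_lit 0) (nat_lit 0x8017985b4) (nat_lit 536870912),
  Rx.mk (nat_lit 113) (nat_lit 1) (nat_lit 6) (nat_lit 1) (nat_lit 7) (nat_lit 349) (nat_lit 323) r11_349 r9_323 (nat_lit 0) (nat_lit 0) (nat_lit 0) (nat_lit 0x8017985b4) (nat_lit 536870912),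
  Rx.mk (nat_lit 117) (nat_lit 5) (nat_lit 6) (nat_lit 1) (nat_lit 7) (nat_lit 346) (nat_lit 322) r11_346 r9_322 (nat_lit 0) (nat_lit 0) (nat_lit 0) (nat_lit 0x8017985b4) (nat_lit 536870912),
  Rx.mk (nat_lit 373) (nat_lit 5) (nat_lit 6) (nat_lit 5) (nat_lit 7) (nat_lit 345) (nat_lit 319) r11_345 r9_319 (nat_lit 0) (nat_lit 0) (nat_lit 0) (nat_lit 0x8017985b4) (nat_lit 536870912)]
noncomputable def e34_43 : List Rx := [
  Rx.mk (nat_lit 33) (nat_lit 1) (nat_lit 4) (nat_lit 0) (nat_lit 1) (nat_lit 183) (nat_lit 316) r11_183 r1_316 (nat_lit 0) (nat_lit 115272517) (nat_lit 31169867) (nat_lit 0x729ca1386) (nat_lit 900542746),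
  Rx.mk (nat_lit 41) (nat_lit 1) (nat_lit 5) (nat_lit 0) (nat_lit 3) (nat_lit 184) (nat_lit 319) r11_184 r1_319 (nat_lit 0) (nat_lit 0) (nat_lit 24741287) (nat_lit 0x8017985b4) (nat_lit 561612199),
  Rx.mk (nat_lit 49) (nat_lit 1) (nat_lit 6) (nat_lit 0) (nat_lit 3) (nat_lit 185) (nat_lit 322) r11_185 r1_322 (nat_lit 0) (nat_lit 0) (nat_lit 24741287) (nat_lit 0x8017985b4) (nat_lit 561612199),
  Rx.mk (nat_lit 97) (nat_lit 1) (nat_lit 4) (nat_lit 1) (nat_lit 5) (nat_lit 186) (nat_lit 317) r11_186 r1_317 (nat_lit 0) (nat_lit 39197522) (nat_lit 0) (nat_lit 0x7db914fa8) (nat_lit 613796734),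
  Rx.mk (nat_lit 105) (nat_lit 1) (nat_lit 5) (nat_lit 1) (nat_lit 7) (nat_lit 187) (nat_lit 320) r11_187 r1_320 (nat_lit 0) (nat_lit 0) (nat_lit 0) (nat_lit 0x8017985b4) (nat_lit 536870912),
  Rx.mk (nat_lit 113) (nat_lit 1) (nat_lit 6) (nat_lit 1) (nat_lit 7) (nat_lit 188) (nat_lit 323) r11_188 r1_323 (nat_lit 0) (nat_lit 0) (nat_lit 0) (nat_lit 0x81759db22) (nat_lit 515567712),
  Rx.mk (nat_lit 161) (nat_lit 1) (nat_lit 4) (nat_lit 2) (nat_lit 5) (nat_lit 189) (nat_lit 318) r11_189 r1_318 (nat_lit 0) (nat_lit 24741287) (nat_lit 0) (nat_lit 0x8017985b4) (nat_lit 561612199),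
  Rx.mk (nat_lit 169) (nat_lit 1) (nat_lit 5) (nat_lit 2) (nat_lit 7) (nat_lit 190) (nat_lit 321) r11_190 r1_321 (nat_lit 0) (nat_lit 0) (nat_lit 0) (nat_lit 0x8017985b4) (nat_lit 536870912)]
noncomputable def e34_44 : List Rx := [
  Rx.mk (nat_lit 41) (nat_lit 1) (nat_lit 5) (nat_lit 0) (nat_lit 3) (nat_lit 219) (nat_lit 198) r11_219 r8_198 (nat_lit 0) (nat_lit 0) (nat_lit 24741287) (nat_lit 0x8017985b4) (nat_lit 561612199),
  Rx.mk (nat_lit 105) (nat_lit 1) (nat_lit 5) (nat_lit 1) (nat_lit 7) (nat_lit 220) (nat_lit 199) r11_220 r8_199 (nat_lit 0) (nat_lit 0) (nat_lit 0) (nat_lit 0x8017985b4) (nat_lit 536870912),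
  Rx.mk (nat_lit 169) (nat_lit 1) (nat_lit 5) (nat_lit 2) (nat_lit 7) (nat_lit 221) (nat_lit 200) r11_221 r8_200 (nat_lit 0) (nat_lit 0) (nat_lit 0) (nat_lit 0x8017985b4) (nat_lit 536870912)]
noncomputable def e34_45 : List Rx := [
  Rx.mk (nat_lit 40) (nat_lit 0) (nat_lit 5) (nat_lit 0) (nat_lit 2) (nat_lit 41) (nat_lit 220) r11_41 r1_220 (nat_lit 132640855) (nat_lit 0) (nat_lit 107908680) (nat_lit 0x75cd0e8fe) (nat_lit 943069347),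
  Rx.mk (nat_lit 104) (nat_lit 0) (nat_lit 5) (nat_lit 1) (nat_lit 6) (nat_lit 42) (nat_lit 221) r11_42 r1_221 (nat_lit 24741287) (nat_lit 0) (nat_lit 0) (nat_lit 0x80394da56) (nat_lit 559537749),
  Rx.mk (nat_lit 138) (nat_lit 2) (nat_lit 1) (nat_lit 2) (nat_lit 7) (nat_lit 45) (nat_lit 224) r11_45 r1_224 (nat_lit 0) (nat_lit 0) (nat_lit 0) (nat_lit 0x808a832cc) (nat_lit 529822112),
  Rx.mk (nat_lit 168) (nat_lit 0) (nat_lit 5) (nat_lit 2) (nat_lit 6) (nat_lit 43) (nat_lit 222) r11_43 r1_222 (nat_lit 27280081) (nat_lit 0) (nat_lit 0) (nat_lit 0x7ff4c6252) (nat_lit 566171843),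
  Rx.mk (nat_lit 170) (nat_lit 2) (nat_lit 5) (nat_lit 2) (nat_lit 7) (nat_lit 44) (nat_lit 223) r11_44 r1_223 (nat_lit 0) (nat_lit 0) (nat_lit 0) (nat_lit 0x814af5f1e) (nat_lit 518142212)]
noncomputable def e34_46 : List Rx := [
  Rx.mk (nat_lit 138) (nat_lit 2) (nat_lit 1) (nat_lit 2) (nat_lit 7) (nat_lit 5) (nat_lit 237) r11_5 r2_237 (nat_lit 0) (nat_lit 0) (nat_lit 0) (nat_lit 0x8017985b4) (nat_lit 536870912)]
noncomputable def e34_47 : List Rx := [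
  Rx.mk (nat_lit 40) (nat_lit 0) (nat_lit 5) (nat_lit 0) (nat_lit 2) (nat_lit 222) (nat_lit 368) r11_222 r8_368 (nat_lit 49696383) (nat_lit 0) (nat_lit 93109333) (nat_lit 0x7a0dfb9e4) (nat_lit 776624328),
  Rx.mk (nat_lit 41) (nat_lit 1) (nat_lit 5) (nat_lit 0) (nat_lit 3) (nat_lit 223) (nat_lit 369) r11_223 r8_369 (nat_lit 0) (nat_lit 0) (nat_lit 24741287) (nat_lit 0x8017985b4) (nat_lit 561612199),
  Rx.mk (nat_lit 104) (nat_lit 0) (nat_lit 5) (nat_lit 1) (nat_lit 6) (nat_lit 224) (nat_lit 370) r11_224 r8_370 (nat_lit 24741287) (nat_lit 0) (nat_lit 0) (nat_lit 0x8017985b4) (nat_lit 561612199),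
  Rx.mk (nat_lit 105) (nat_lit 1) (nat_lit 5) (nat_lit 1) (nat_lit 7) (nat_lit 225) (nat_lit 371) r11_225 r8_371 (nat_lit 0) (nat_lit 0) (nat_lit 0) (nat_lit 0x8017985b4) (nat_lit 536870912),
  Rx.mk (nat_lit 138) (nat_lit 2) (nat_lit 1) (nat_lit 2) (nat_lit 7) (nat_lit 229) (nat_lit 367) r11_229 r8_367 (nat_lit 0) (nat_lit 0) (nat_lit 0) (nat_lit 0x8017985b4) (nat_lit 536870912),
  Rx.mk (nat_lit 168) (nat_lit 0) (nat_lit 5) (nat_lit 2) (nat_lit 6) (nat_lit 226) (nat_lit 372) r11_226 r8_372 (nat_lit 24741287) (nat_lit 0) (nat_lit 0) (nat_lit 0x8017985b4) (nat_lit 561612199),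
  Rx.mk (nat_lit 169) (nat_lit 1) (nat_lit 5) (nat_lit 2) (nat_lit 7) (nat_lit 227) (nat_lit 373) r11_227 r8_373 (nat_lit 0) (nat_lit 0) (nat_lit 0) (nat_lit 0x8017985b4) (nat_lit 536870912),
  Rx.mk (nat_lit 170) (nat_lit 2) (nat_lit 5) (nat_lit 2) (nat_lit 7) (nat_lit 228) (nat_lit 374) r11_228 r8_374 (nat_lit 0) (nat_lit 0) (nat_lit 0) (nat_lit 0x8017985b4) (nat_lit 536870912)]
noncomputable def e34_48 : List Rx := [
  Rx.mk (nat_lit 138) (nat_lit 2) (nat_lit 1) (nat_lit 2) (nat_lit 7) (nat_lit 164) (nat_lit 214) r11_164 r9_214 (nat_lit 0) (nat_lit 0) (nat_lit 0) (nat_lit 0x8017985b4) (nat_lit 536870912)]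
noncomputable def e34_49 : List Rx := [
  Rx.mk (nat_lit 138) (nat_lit 2) (nat_lit 1) (nat_lit 2) (nat_lit 7) (nat_lit 124) (nat_lit 146) r11_124 r9_146 (nat_lit 0) (nat_lit 0) (nat_lit 0) (nat_lit 0x8017985b4) (nat_lit 536870912),
  Rx.mk (nat_lit 394) (nat_lit 2) (nat_lit 1) (nat_lit 6) (nat_lit 7) (nat_lit 123) (nat_lit 147) r11_123 r9_147 (nat_lit 0) (nat_lit 0) (nat_lit 0) (nat_lit 0x8017985b4) (nat_lit 536870912)]
noncomputable def e34_50 : List Rx := [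
  Rx.mk (nat_lit 32) (nat_lit 0) (nat_lit 4) (nat_lit 0) (nat_lit 0) (nat_lit 19) (nat_lit 186) r11_19 r3_186 (nat_lit 132111) (nat_lit 96674) (nat_lit 122716) (nat_lit 0x497316d28) (nat_lit 1419374513),
  Rx.mk (nat_lit 35) (nat_lit 3) (nat_lit 4) (nat_lit 0) (nat_lit 1) (nat_lit 22) (nat_lit 194) r11_22 r3_194 (nat_lit 0) (nat_lit 4459709) (nat_lit 5090553) (nat_lit 0x6f5ae93ec) (nat_lit 816096324),
  Rx.mk (nat_lit 40) (nat_lit 0) (nat_lit 5) (nat_lit 0) (nat_lit 2) (nat_lit 20) (nat_lit 187) r11_20 r3_187 (nat_lit 18566817) (nat_lit 0) (nat_lit 29295655) (nat_lit 0x6eb4eea14) (nat_lit 865039884),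
  Rx.mk (nat_lit 43) (nat_lit 3) (nat_lit 5) (nat_lit 0) (nat_lit 3) (nat_lit 23) (nat_lit 195) r11_23 r3_195 (nat_lit 0) (nat_lit 0) (nat_lit 14431981) (nat_lit 0x80cd30a02) (nat_lit 540176893),
  Rx.mk (nat_lit 48) (nat_lit 0) (nat_lit 6) (nat_lit 0) (nat_lit 2) (nat_lit 21) (nat_lit 188) r11_21 r3_188 (nat_lit 41499232) (nat_lit 0) (nat_lit 24848889) (nat_lit 0x75df8e2a4) (nat_lit 767700883),
  Rx.mk (nat_lit 51) (nat_lit 3) (nat_lit 6) (nat_lit 0) (nat_lit 3) (nat_lit 24) (nat_lit 196) r11_24 r3_196 (nat_lit 0) (nat_lit 0) (nat_lit 10849071) (nat_lit 0x7fc617ece) (nat_lit 552588333),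
  Rx.mk (nat_lit 96) (nat_lit 0) (nat_lit 4) (nat_lit 1) (nat_lit 4) (nat_lit 25) (nat_lit 189) r11_25 r3_189 (nat_lit 1291523) (nat_lit 3284544) (nat_lit 0) (nat_lit 0x652f21fd4) (nat_lit 975280179),
  Rx.mk (nat_lit 99) (nat_lit 3) (nat_lit 4) (nat_lit 1) (nat_lit 5) (nat_lit 28) (nat_lit 197) r11_28 r3_197 (nat_lit 0) (nat_lit 13146689) (nat_lit 0) (nat_lit 0x808dd2f86) (nat_lit 542691851),
  Rx.mk (nat_lit 104) (nat_lit 0) (nat_lit 5) (nat_lit 1) (nat_lit 6) (nat_lit 26) (nat_lit 190) r11_26 r3_190 (nat_lit 24741287) (nat_lit 0) (nat_lit 0) (nat_lit 0x8017985b4) (nat_lit 561612199),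
  Rx.mk (nat_lit 107) (nat_lit 3) (nat_lit 5) (nat_lit 1) (nat_lit 7) (nat_lit 29) (nat_lit 198) r11_29 r3_198 (nat_lit 0) (nat_lit 0) (nat_lit 0) (nat_lit 0x8017985b4) (nat_lit 536870912),
  Rx.mk (nat_lit 112) (nat_lit 0) (nat_lit 6) (nat_lit 1) (nat_lit 6) (nat_lit 27) (nat_lit 191) r11_27 r3_191 (nat_lit 22959846) (nat_lit 0) (nat_lit 0) (nat_lit 0x7f72d2be2) (nat_lit 569951908),
  Rx.mk (nat_lit 115) (nat_lit 3) (nat_lit 6) (nat_lit 1) (nat_lit 7) (nat_lit 30) (nat_lit 199) r11_30 r3_199 (nat_lit 0) (nat_lit 0) (nat_lit 0) (nat_lit 0x8017985b4) (nat_lit 536870912),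
  Rx.mk (nat_lit 160) (nat_lit 0) (nat_lit 4) (nat_lit 2) (nat_lit 4) (nat_lit 31) (nat_lit 192) r11_31 r3_192 (nat_lit 138609354) (nat_lit 849840) (nat_lit 0) (nat_lit 0x69d7f337a) (nat_lit 1034816656),
  Rx.mk (nat_lit 162) (nat_lit 2) (nat_lit 4) (nat_lit 2) (nat_lit 5) (nat_lit 33) (nat_lit 202) r11_33 r3_202 (nat_lit 0) (nat_lit 22698438) (nat_lit 0) (nat_lit 0x801e644f6) (nat_lit 559143350),
  Rx.mk (nat_lit 163) (nat_lit 3) (nat_lit 4) (nat_lit 2) (nat_lit 5) (nat_lit 35) (nat_lit 200) r11_35 r3_200 (nat_lit 0) (nat_lit 13744676) (nat_lit 0) (nat_lit 0x808aa0700) (nat_lit 543529688),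
  Rx.mk (nat_lit 168) (nat_lit 0) (nat_lit 5) (nat_lit 2) (nat_lit 6) (nat_lit 32) (nat_lit 193) r11_32 r3_193 (nat_lit 29915179) (nat_lit 0) (nat_lit 0) (nat_lit 0x7fe911db2) (nat_lit 569577941),
  Rx.mk (nat_lit 170) (nat_lit 2) (nat_lit 5) (nat_lit 2) (nat_lit 7) (nat_lit 34) (nat_lit 203) r11_34 r3_203 (nat_lit 0) (nat_lit 0) (nat_lit 0) (nat_lit 0x8017985b4) (nat_lit 536870912),
  Rx.mk (nat_lit 171) (nat_lit 3) (nat_lit 5) (nat_lit 2) (nat_lit 7) (nat_lit 36) (nat_lit 201) r11_36 r3_201 (nat_lit 0) (nat_lit 0) (nat_lit 0) (nat_lit 0x8017985b4) (nat_lit 536870912)]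
noncomputable def e34_51 : List Rx := [
  Rx.mk (nat_lit 40) (nat_lit 0) (nat_lit 5) (nat_lit 0) (nat_lit 2) (nat_lit 46) (nat_lit 188) r11_46 r4_188 (nat_lit 16806885) (nat_lit 0) (nat_lit 33533154) (nat_lit 0x78c402cc6) (nat_lit 704937351),
  Rx.mk (nat_lit 43) (nat_lit 3) (nat_lit 5) (nat_lit 0) (nat_lit 3) (nat_lit 47) (nat_lit 191) r11_47 r4_191 (nat_lit 0) (nat_lit 0) (nat_lit 16749673) (nat_lit 0x8060fd66e) (nat_lit 549095785),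
  Rx.mk (nat_lit 104) (nat_lit 0) (nat_lit 5) (nat_lit 1) (nat_lit 6) (nat_lit 48) (nat_lit 189) r11_48 r4_189 (nat_lit 24741287) (nat_lit 0) (nat_lit 0) (nat_lit 0x8017985b4) (nat_lit 561612199),
  Rx.mk (nat_lit 107) (nat_lit 3) (nat_lit 5) (nat_lit 1) (nat_lit 7) (nat_lit 49) (nat_lit 192) r11_49 r4_192 (nat_lit 0) (nat_lit 0) (nat_lit 0) (nat_lit 0x804ce505a) (nat_lit 533594662),
  Rx.mk (nat_lit 168) (nat_lit 0) (nat_lit 5) (nat_lit 2) (nat_lit 6) (nat_lit 50) (nat_lit 190) r11_50 r4_190 (nat_lit 26071655) (nat_lit 0) (nat_lit 0) (nat_lit 0x7fa9352f2) (nat_lit 569730517),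
  Rx.mk (nat_lit 170) (nat_lit 2) (nat_lit 5) (nat_lit 2) (nat_lit 7) (nat_lit 51) (nat_lit 194) r11_51 r4_194 (nat_lit 0) (nat_lit 0) (nat_lit 0) (nat_lit 0x8017985b4) (nat_lit 536870912),
  Rx.mk (nat_lit 171) (nat_lit 3) (nat_lit 5) (nat_lit 2) (nat_lit 7) (nat_lit 52) (nat_lit 193) r11_52 r4_193 (nat_lit 0) (nat_lit 0) (nat_lit 0) (nat_lit 0x804ce4d1c) (nat_lit 533594712)]
noncomputable def e34_52 : List Rx := [
  Rx.mk (nat_lit 32) (nat_lit 0) (nat_lit 4) (nat_lit 0) (nat_lit 0) (nat_lit 68) (nat_lit 202) r11_68 r5_202 (nat_lit 23484085) (nat_lit 4773935) (nat_lit 5946457) (nat_lit 0x49e63d70c) (nat_lit 1446456039),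
  Rx.mk (nat_lit 35) (nat_lit 3) (nat_lit 4) (nat_lit 0) (nat_lit 1) (nat_lit 72) (nat_lit 212) r11_72 r5_212 (nat_lit 0) (nat_lit 8957018) (nat_lit 12323810) (nat_lit 0x6eeac40b2) (nat_lit 835033290),
  Rx.mk (nat_lit 40) (nat_lit 0) (nat_lit 5) (nat_lit 0) (nat_lit 2) (nat_lit 69) (nat_lit 203) r11_69 r5_203 (nat_lit 55665677) (nat_lit 0) (nat_lit 33768507) (nat_lit 0x7ce62247e) (nat_lit 677311396),
  Rx.mk (nat_lit 43) (nat_lit 3) (nat_lit 5) (nat_lit 0) (nat_lit 3) (nat_lit 73) (nat_lit 213) r11_73 r5_213 (nat_lit 0) (nat_lit 0) (nat_lit 18403732) (nat_lit 0x8068f7d2e) (nat_lit 550276494),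
  Rx.mk (nat_lit 48) (nat_lit 0) (nat_lit 6) (nat_lit 0) (nat_lit 2) (nat_lit 70) (nat_lit 205) r11_70 r5_205 (nat_lit 43048303) (nat_lit 0) (nat_lit 37783563) (nat_lit 0x7dabdf81a) (nat_lit 656267928),
  Rx.mk (nat_lit 51) (nat_lit 3) (nat_lit 6) (nat_lit 0) (nat_lit 3) (nat_lit 74) (nat_lit 214) r11_74 r5_214 (nat_lit 0) (nat_lit 0) (nat_lit 19699007) (nat_lit 0x7fd8785be) (nat_lit 560420169),
  Rx.mk (nat_lit 56) (nat_lit 0) (nat_lit 7) (nat_lit 0) (nat_lit 2) (nat_lit 71) (nat_lit 204) r11_71 r5_204 (nat_lit 60413237) (nat_lit 0) (nat_lit 36801253) (nat_lit 0x7abb7e684) (nat_lit 720123752),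
  Rx.mk (nat_lit 96) (nat_lit 0) (nat_lit 4) (nat_lit 1) (nat_lit 4) (nat_lit 75) (nat_lit 206) r11_75 r5_206 (nat_lit 41438793) (nat_lit 35682471) (nat_lit 0) (nat_lit 0x752101d04) (nat_lit 790555976),
  Rx.mk (nat_lit 99) (nat_lit 3) (nat_lit 4) (nat_lit 1) (nat_lit 5) (nat_lit 78) (nat_lit 215) r11_78 r5_215 (nat_lit 0) (nat_lit 16307770) (nat_lit 0) (nat_lit 0x8072222be) (nat_lit 547606132),
  Rx.mk (nat_lit 112) (nat_lit 0) (nat_lit 6) (nat_lit 1) (nat_lit 6) (nat_lit 76) (nat_lit 208) r11_76 r5_208 (nat_lit 24741287) (nat_lit 0) (nat_lit 0) (nat_lit 0x8017985b4) (nat_lit 561612199),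
  Rx.mk (nat_lit 115) (nat_lit 3) (nat_lit 6) (nat_lit 1) (nat_lit 7) (nat_lit 79) (nat_lit 216) r11_79 r5_216 (nat_lit 0) (nat_lit 0) (nat_lit 0) (nat_lit 0x8017985b4) (nat_lit 536870912),
  Rx.mk (nat_lit 120) (nat_lit 0) (nat_lit 7) (nat_lit 1) (nat_lit 6) (nat_lit 77) (nat_lit 207) r11_77 r5_207 (nat_lit 24741287) (nat_lit 0) (nat_lit 0) (nat_lit 0x8017985b4) (nat_lit 561612199),
  Rx.mk (nat_lit 160) (nat_lit 0) (nat_lit 4) (nat_lit 2) (nat_lit 4) (nat_lit 80) (nat_lit 209) r11_80 r5_209 (nat_lit 163052374) (nat_lit 10516416) (nat_lit 0) (nat_lit 0x79e792546) (nat_lit 809704152),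
  Rx.mk (nat_lit 162) (nat_lit 2) (nat_lit 4) (nat_lit 2) (nat_lit 5) (nat_lit 83) (nat_lit 222) r11_83 r5_222 (nat_lit 0) (nat_lit 20811975) (nat_lit 0) (nat_lit 0x7fde627e0) (nat_lit 561177737),
  Rx.mk (nat_lit 163) (nat_lit 3) (nat_lit 4) (nat_lit 2) (nat_lit 5) (nat_lit 86) (nat_lit 220) r11_86 r5_220 (nat_lit 0) (nat_lit 16204149) (nat_lit 0) (nat_lit 0x809309fb8) (nat_lit 545503711),
  Rx.mk (nat_lit 168) (nat_lit 0) (nat_lit 5) (nat_lit 2) (nat_lit 6) (nat_lit 81) (nat_lit 210) r11_81 r5_210 (nat_lit 24741287) (nat_lit 0) (nat_lit 0) (nat_lit 0x8036bdc00) (nat_lit 559695499),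
  Rx.mk (nat_lit 170) (nat_lit 2) (nat_lit 5) (nat_lit 2) (nat_lit 7) (nat_lit 84) (nat_lit 223) r11_84 r5_223 (nat_lit 0) (nat_lit 0) (nat_lit 0) (nat_lit 0x8017985b4) (nat_lit 536870912),
  Rx.mk (nat_lit 171) (nat_lit 3) (nat_lit 5) (nat_lit 2) (nat_lit 7) (nat_lit 87) (nat_lit 221) r11_87 r5_221 (nat_lit 0) (nat_lit 0) (nat_lit 0) (nat_lit 0x8017985b4) (nat_lit 536870912),
  Rx.mk (nat_lit 184) (nat_lit 0) (nat_lit 7) (nat_lit 2) (nat_lit 6) (nat_lit 82) (nat_lit 211) r11_82 r5_211 (nat_lit 25956094) (nat_lit 0) (nat_lit 0) (nat_lit 0x80019bd60) (nat_lit 564158956),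
  Rx.mk (nat_lit 186) (nat_lit 2) (nat_lit 7) (nat_lit 2) (nat_lit 7) (nat_lit 85) (nat_lit 224) r11_85 r5_224 (nat_lit 0) (nat_lit 0) (nat_lit 0) (nat_lit 0x8017985b4) (nat_lit 536870912),
  Rx.mk (nat_lit 227) (nat_lit 3) (nat_lit 4) (nat_lit 3) (nat_lit 5) (nat_lit 88) (nat_lit 217) r11_88 r5_217 (nat_lit 0) (nat_lit 24841657) (nat_lit 0) (nat_lit 0x7dc3688d8) (nat_lit 598810569),
  Rx.mk (nat_lit 235) (nat_lit 3) (nat_lit 5) (nat_lit 3) (nat_lit 7) (nat_lit 89) (nat_lit 218) r11_89 r5_218 (nat_lit 0) (nat_lit 0) (nat_lit 0) (nat_lit 0x8017985b4) (nat_lit 536870912),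
  Rx.mk (nat_lit 243) (nat_lit 3) (nat_lit 6) (nat_lit 3) (nat_lit 7) (nat_lit 90) (nat_lit 219) r11_90 r5_219 (nat_lit 0) (nat_lit 0) (nat_lit 0) (nat_lit 0x8017985b4) (nat_lit 536870912)]
noncomputable def e34_53 : List Rx := [
  Rx.mk (nat_lit 32) (nat_lit 0) (nat_lit 4) (nat_lit 0) (nat_lit 0) (nat_lit 191) (nat_lit 381) r11_191 r4_381 (nat_lit 15710614) (nat_lit 17913539) (nat_lit 17952672) (nat_lit 0x5f1b5dba2) (nat_lit 1121002137),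
  Rx.mk (nat_lit 33) (nat_lit 1) (nat_lit 4) (nat_lit 0) (nat_lit 1) (nat_lit 194) (nat_lit 382) r11_194 r4_382 (nat_lit 0) (nat_lit 34329630) (nat_lit 27647826) (nat_lit 0x7e54987ea) (nat_lit 626865718),
  Rx.mk (nat_lit 35) (nat_lit 3) (nat_lit 4) (nat_lit 0) (nat_lit 1) (nat_lit 196) (nat_lit 383) r11_196 r4_383 (nat_lit 0) (nat_lit 30009416) (nat_lit 28646946) (nat_lit 0x7b26b540c) (nat_lit 674773074),
  Rx.mk (nat_lit 40) (nat_lit 0) (nat_lit 5) (nat_lit 0) (nat_lit 2) (nat_lit 192) (nat_lit 390) r11_192 r4_390 (nat_lit 20049231) (nat_lit 0) (nat_lit 96193341) (nat_lit 0x7b255b444) (nat_lit 732377384),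
  Rx.mk (nat_lit 43) (nat_lit 3) (nat_lit 5) (nat_lit 0) (nat_lit 3) (nat_lit 197) (nat_lit 391) r11_197 r4_391 (nat_lit 0) (nat_lit 0) (nat_lit 30058585) (nat_lit 0x7fbf63a4c) (nat_lit 572343247),
  Rx.mk (nat_lit 48) (nat_lit 0) (nat_lit 6) (nat_lit 0) (nat_lit 2) (nat_lit 193) (nat_lit 396) r11_193 r4_396 (nat_lit 30793545) (nat_lit 0) (nat_lit 30793545) (nat_lit 0x7da382596) (nat_lit 637575952),
  Rx.mk (nat_lit 49) (nat_lit 1) (nat_lit 6) (nat_lit 0) (nat_lit 3) (nat_lit 195) (nat_lit 397) r11_195 r4_397 (nat_lit 0) (nat_lit 0) (nat_lit 24741287) (nat_lit 0x8017985b4) (nat_lit 561612199),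
  Rx.mk (nat_lit 51) (nat_lit 3) (nat_lit 6) (nat_lit 0) (nat_lit 3) (nat_lit 198) (nat_lit 398) r11_198 r4_398 (nat_lit 0) (nat_lit 0) (nat_lit 24741287) (nat_lit 0x8017985b4) (nat_lit 561612199),
  Rx.mk (nat_lit 96) (nat_lit 0) (nat_lit 4) (nat_lit 1) (nat_lit 4) (nat_lit 199) (nat_lit 384) r11_199 r4_384 (nat_lit 27870751) (nat_lit 35726227) (nat_lit 0) (nat_lit 0x779980b0c) (nat_lit 737097740),
  Rx.mk (nat_lit 97) (nat_lit 1) (nat_lit 4) (nat_lit 1) (nat_lit 5) (nat_lit 202) (nat_lit 385) r11_202 r4_385 (nat_lit 0) (nat_lit 26112240) (nat_lit 0) (nat_lit 0x7f458b346) (nat_lit 575951702),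
  Rx.mk (nat_lit 99) (nat_lit 3) (nat_lit 4) (nat_lit 1) (nat_lit 5) (nat_lit 204) (nat_lit 386) r11_204 r4_386 (nat_lit 0) (nat_lit 24741287) (nat_lit 0) (nat_lit 0x8017985b4) (nat_lit 561612199),
  Rx.mk (nat_lit 104) (nat_lit 0) (nat_lit 5) (nat_lit 1) (nat_lit 6) (nat_lit 200) (nat_lit 392) r11_200 r4_392 (nat_lit 24741287) (nat_lit 0) (nat_lit 0) (nat_lit 0x8017985b4) (nat_lit 561612199),
  Rx.mk (nat_lit 107) (nat_lit 3) (nat_lit 5) (nat_lit 1) (nat_lit 7) (nat_lit 205) (nat_lit 393) r11_205 r4_393 (nat_lit 0) (nat_lit 0) (nat_lit 0) (nat_lit 0x8017985b4) (nat_lit 536870912),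
  Rx.mk (nat_lit 112) (nat_lit 0) (nat_lit 6) (nat_lit 1) (nat_lit 6) (nat_lit 201) (nat_lit 399) r11_201 r4_399 (nat_lit 24741287) (nat_lit 0) (nat_lit 0) (nat_lit 0x8017985b4) (nat_lit 561612199),
  Rx.mk (nat_lit 113) (nat_lit 1) (nat_lit 6) (nat_lit 1) (nat_lit 7) (nat_lit 203) (nat_lit 400) r11_203 r4_400 (nat_lit 0) (nat_lit 0) (nat_lit 0) (nat_lit 0x8017985b4) (nat_lit 536870912),
  Rx.mk (nat_lit 115) (nat_lit 3) (nat_lit 6) (nat_lit 1) (nat_lit 7) (nat_lit 206) (nat_lit 401) r11_206 r4_401 (nat_lit 0) (nat_lit 0) (nat_lit 0) (nat_lit 0x8017985b4) (nat_lit 536870912),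
  Rx.mk (nat_lit 160) (nat_lit 0) (nat_lit 4) (nat_lit 2) (nat_lit 4) (nat_lit 207) (nat_lit 387) r11_207 r4_387 (nat_lit 29502798) (nat_lit 27912229) (nat_lit 0) (nat_lit 0x78d0f8fca) (nat_lit 711254839),
  Rx.mk (nat_lit 161) (nat_lit 1) (nat_lit 4) (nat_lit 2) (nat_lit 5) (nat_lit 209) (nat_lit 388) r11_209 r4_388 (nat_lit 0) (nat_lit 24741287) (nat_lit 0) (nat_lit 0x8017985b4) (nat_lit 561612199),
  Rx.mk (nat_lit 162) (nat_lit 2) (nat_lit 4) (nat_lit 2) (nat_lit 5) (nat_lit 210) (nat_lit 389) r11_210 r4_389 (nat_lit 0) (nat_lit 24741287) (nat_lit 0) (nat_lit 0x8017985b4) (nat_lit 561612199),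
  Rx.mk (nat_lit 168) (nat_lit 0) (nat_lit 5) (nat_lit 2) (nat_lit 6) (nat_lit 208) (nat_lit 394) r11_208 r4_394 (nat_lit 23934074) (nat_lit 0) (nat_lit 0) (nat_lit 0x7fe6d46d0) (nat_lit 563795286),
  Rx.mk (nat_lit 170) (nat_lit 2) (nat_lit 5) (nat_lit 2) (nat_lit 7) (nat_lit 211) (nat_lit 395) r11_211 r4_395 (nat_lit 0) (nat_lit 0) (nat_lit 0) (nat_lit 0x8017985b4) (nat_lit 536870912)]
noncomputable def e34_54 : List Rx := [
  Rx.mk (nat_lit 40) (nat_lit 0) (nat_lit 5) (nat_lit 0) (nat_lit 2) (nat_lit 230) (nat_lit 206) r11_230 r10_206 (nat_lit 29967916) (nat_lit 0) (nat_lit 53187078) (nat_lit 0x781c132b8) (nat_lit 748379156),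
  Rx.mk (nat_lit 43) (nat_lit 3) (nat_lit 5) (nat_lit 0) (nat_lit 3) (nat_lit 231) (nat_lit 209) r11_231 r10_209 (nat_lit 0) (nat_lit 0) (nat_lit 24741287) (nat_lit 0x8017985b4) (nat_lit 561612199),
  Rx.mk (nat_lit 104) (nat_lit 0) (nat_lit 5) (nat_lit 1) (nat_lit 6) (nat_lit 232) (nat_lit 207) r11_232 r10_207 (nat_lit 24741287) (nat_lit 0) (nat_lit 0) (nat_lit 0x8017985b4) (nat_lit 561612199),
  Rx.mk (nat_lit 107) (nat_lit 3) (nat_lit 5) (nat_lit 1) (nat_lit 7) (nat_lit 233) (nat_lit 210) r11_233 r10_210 (nat_lit 0) (nat_lit 0) (nat_lit 0) (nat_lit 0x8017985b4) (nat_lit 536870912),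
  Rx.mk (nat_lit 168) (nat_lit 0) (nat_lit 5) (nat_lit 2) (nat_lit 6) (nat_lit 234) (nat_lit 208) r11_234 r10_208 (nat_lit 24741287) (nat_lit 0) (nat_lit 0) (nat_lit 0x8017985b4) (nat_lit 561612199),
  Rx.mk (nat_lit 170) (nat_lit 2) (nat_lit 5) (nat_lit 2) (nat_lit 7) (nat_lit 235) (nat_lit 211) r11_235 r10_211 (nat_lit 0) (nat_lit 0) (nat_lit 0) (nat_lit 0x8017985b4) (nat_lit 536870912)]
noncomputable def e34_55 : List Rx := [
  Rx.mk (nat_lit 32) (nat_lit 0) (nat_lit 4) (nat_lit 0) (nat_lit 0) (nat_lit 236) (nat_lit 236) r11_236 r11_236 (nat_lit 53843718) (nat_lit 32932365) (nat_lit 53843718) (nat_lit 0x5ad4d46f8) (nat_lit 1279235263),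
  Rx.mk (nat_lit 33) (nat_lit 1) (nat_lit 4) (nat_lit 0) (nat_lit 1) (nat_lit 240) (nat_lit 246) r11_240 r11_246 (nat_lit 0) (nat_lit 36022396) (nat_lit 50819749) (nat_lit 0x7a243af02) (nat_lit 719244457),
  Rx.mk (nat_lit 35) (nat_lit 3) (nat_lit 4) (nat_lit 0) (nat_lit 1) (nat_lit 243) (nat_lit 254) r11_243 r11_254 (nat_lit 0) (nat_lit 35875760) (nat_lit 37472217) (nat_lit 0x774eb43c6) (nat_lit 751561939),
  Rx.mk (nat_lit 40) (nat_lit 0) (nat_lit 5) (nat_lit 0) (nat_lit 2) (nat_lit 237) (nat_lit 237) r11_237 r11_237 (nat_lit 49618932) (nat_lit 0) (nat_lit 49618932) (nat_lit 0x7eda874a0) (nat_lit 655708776),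
  Rx.mk (nat_lit 43) (nat_lit 3) (nat_lit 5) (nat_lit 0) (nat_lit 3) (nat_lit 244) (nat_lit 255) r11_244 r11_255 (nat_lit 0) (nat_lit 0) (nat_lit 24741287) (nat_lit 0x8017985b4) (nat_lit 561612199),
  Rx.mk (nat_lit 48) (nat_lit 0) (nat_lit 6) (nat_lit 0) (nat_lit 2) (nat_lit 238) (nat_lit 239) r11_238 r11_239 (nat_lit 30414660) (nat_lit 0) (nat_lit 31419554) (nat_lit 0x7dc8ca060) (nat_lit 635354426),
  Rx.mk (nat_lit 49) (nat_lit 1) (nat_lit 6) (nat_lit 0) (nat_lit 3) (nat_lit 241) (nat_lit 248) r11_241 r11_248 (nat_lit 0) (nat_lit 0) (nat_lit 24741287) (nat_lit 0x8017985b4) (nat_lit 561612199),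
  Rx.mk (nat_lit 51) (nat_lit 3) (nat_lit 6) (nat_lit 0) (nat_lit 3) (nat_lit 245) (nat_lit 256) r11_245 r11_256 (nat_lit 0) (nat_lit 0) (nat_lit 24741287) (nat_lit 0x8017985b4) (nat_lit 561612199),
  Rx.mk (nat_lit 56) (nat_lit 0) (nat_lit 7) (nat_lit 0) (nat_lit 2) (nat_lit 239) (nat_lit 238) r11_239 r11_238 (nat_lit 31419554) (nat_lit 0) (nat_lit 30414660) (nat_lit 0x7dc8ca060) (nat_lit 635354426),
  Rx.mk (nat_lit 57) (nat_lit 1) (nat_lit 7) (nat_lit 0) (nat_lit 3) (nat_lit 242) (nat_lit 247) r11_242 r11_247 (nat_lit 0) (nat_lit 0) (nat_lit 24741287) (nat_lit 0x8017985b4) (nat_lit 561612199),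
  Rx.mk (nat_lit 96) (nat_lit 0) (nat_lit 4) (nat_lit 1) (nat_lit 4) (nat_lit 246) (nat_lit 240) r11_246 r11_240 (nat_lit 50819749) (nat_lit 36022396) (nat_lit 0) (nat_lit 0x7a243af02) (nat_lit 719244457),
  Rx.mk (nat_lit 97) (nat_lit 1) (nat_lit 4) (nat_lit 1) (nat_lit 5) (nat_lit 249) (nat_lit 249) r11_249 r11_249 (nat_lit 0) (nat_lit 24842793) (nat_lit 0) (nat_lit 0x7fa573ed4) (nat_lit 568719755),
  Rx.mk (nat_lit 99) (nat_lit 3) (nat_lit 4) (nat_lit 1) (nat_lit 5) (nat_lit 252) (nat_lit 257) r11_252 r11_257 (nat_lit 0) (nat_lit 24741287) (nat_lit 0) (nat_lit 0x8017985b4) (nat_lit 561612199),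
  Rx.mk (nat_lit 112) (nat_lit 0) (nat_lit 6) (nat_lit 1) (nat_lit 6) (nat_lit 247) (nat_lit 242) r11_247 r11_242 (nat_lit 24741287) (nat_lit 0) (nat_lit 0) (nat_lit 0x8017985b4) (nat_lit 561612199),
  Rx.mk (nat_lit 113) (nat_lit 1) (nat_lit 6) (nat_lit 1) (nat_lit 7) (nat_lit 250) (nat_lit 251) r11_250 r11_251 (nat_lit 0) (nat_lit 0) (nat_lit 0) (nat_lit 0x8017985b4) (nat_lit 536870912),
  Rx.mk (nat_lit 115) (nat_lit 3) (nat_lit 6) (nat_lit 1) (nat_lit 7) (nat_lit 253) (nat_lit 258) r11_253 r11_258 (nat_lit 0) (nat_lit 0) (nat_lit 0) (nat_lit 0x8017985b4) (nat_lit 536870912),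
  Rx.mk (nat_lit 120) (nat_lit 0) (nat_lit 7) (nat_lit 1) (nat_lit 6) (nat_lit 248) (nat_lit 241) r11_248 r11_241 (nat_lit 24741287) (nat_lit 0) (nat_lit 0) (nat_lit 0x8017985b4) (nat_lit 561612199),
  Rx.mk (nat_lit 121) (nat_lit 1) (nat_lit 7) (nat_lit 1) (nat_lit 7) (nat_lit 251) (nat_lit 250) r11_251 r11_250 (nat_lit 0) (nat_lit 0) (nat_lit 0) (nat_lit 0x8017985b4) (nat_lit 536870912),
  Rx.mk (nat_lit 160) (nat_lit 0) (nat_lit 4) (nat_lit 2) (nat_lit 4) (nat_lit 254) (nat_lit 243) r11_254 r11_243 (nat_lit 37472217) (nat_lit 35875760) (nat_lit 0) (nat_lit 0x774eb43c6) (nat_lit 751561939),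
  Rx.mk (nat_lit 161) (nat_lit 1) (nat_lit 4) (nat_lit 2) (nat_lit 5) (nat_lit 257) (nat_lit 252) r11_257 r11_252 (nat_lit 0) (nat_lit 24741287) (nat_lit 0) (nat_lit 0x8017985b4) (nat_lit 561612199),
  Rx.mk (nat_lit 162) (nat_lit 2) (nat_lit 4) (nat_lit 2) (nat_lit 5) (nat_lit 259) (nat_lit 262) r11_259 r11_262 (nat_lit 0) (nat_lit 24741287) (nat_lit 0) (nat_lit 0x8017985b4) (nat_lit 561612199),
  Rx.mk (nat_lit 168) (nat_lit 0) (nat_lit 5) (nat_lit 2) (nat_lit 6) (nat_lit 255) (nat_lit 244) r11_255 r11_244 (nat_lit 24741287) (nat_lit 0) (nat_lit 0) (nat_lit 0x8017985b4) (nat_lit 561612199),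
  Rx.mk (nat_lit 170) (nat_lit 2) (nat_lit 5) (nat_lit 2) (nat_lit 7) (nat_lit 260) (nat_lit 263) r11_260 r11_263 (nat_lit 0) (nat_lit 0) (nat_lit 0) (nat_lit 0x8017985b4) (nat_lit 536870912),
  Rx.mk (nat_lit 184) (nat_lit 0) (nat_lit 7) (nat_lit 2) (nat_lit 6) (nat_lit 256) (nat_lit 245) r11_256 r11_245 (nat_lit 24741287) (nat_lit 0) (nat_lit 0) (nat_lit 0x8017985b4) (nat_lit 561612199),
  Rx.mk (nat_lit 185) (nat_lit 1) (nat_lit 7) (nat_lit 2) (nat_lit 7) (nat_lit 258) (nat_lit 253) r11_258 r11_253 (nat_lit 0) (nat_lit 0) (nat_lit 0) (nat_lit 0x8017985b4) (nat_lit 536870912),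
  Rx.mk (nat_lit 186) (nat_lit 2) (nat_lit 7) (nat_lit 2) (nat_lit 7) (nat_lit 261) (nat_lit 264) r11_261 r11_264 (nat_lit 0) (nat_lit 0) (nat_lit 0) (nat_lit 0x8017985b4) (nat_lit 536870912),
  Rx.mk (nat_lit 227) (nat_lit 3) (nat_lit 4) (nat_lit 3) (nat_lit 5) (nat_lit 262) (nat_lit 259) r11_262 r11_259 (nat_lit 0) (nat_lit 24741287) (nat_lit 0) (nat_lit 0x8017985b4) (nat_lit 561612199),
  Rx.mk (nat_lit 235) (nat_lit 3) (nat_lit 5) (nat_lit 3) (nat_lit 7) (nat_lit 263) (nat_lit 260) r11_263 r11_260 (nat_lit 0) (nat_lit 0) (nat_lit 0) (nat_lit 0x8017985b4) (nat_lit 536870912),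
  Rx.mk (nat_lit 243) (nat_lit 3) (nat_lit 6) (nat_lit 3) (nat_lit 7) (nat_lit 264) (nat_lit 261) r11_264 r11_261 (nat_lit 0) (nat_lit 0) (nat_lit 0) (nat_lit 0x8017985b4) (nat_lit 536870912)]
noncomputable def e34_56 : List Rx := [
  Rx.mk (nat_lit 35) (nat_lit 3) (nat_lit 4) (nat_lit 0) (nat_lit 1) (nat_lit 273) (nat_lit 316) r11_273 r5_316 (nat_lit 0) (nat_lit 21014715) (nat_lit 20649739) (nat_lit 0x729e8ccc2) (nat_lit 795632066),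
  Rx.mk (nat_lit 43) (nat_lit 3) (nat_lit 5) (nat_lit 0) (nat_lit 3) (nat_lit 274) (nat_lit 319) r11_274 r5_319 (nat_lit 0) (nat_lit 0) (nat_lit 24741287) (nat_lit 0x8017985b4) (nat_lit 561612199),
  Rx.mk (nat_lit 51) (nat_lit 3) (nat_lit 6) (nat_lit 0) (nat_lit 3) (nat_lit 275) (nat_lit 322) r11_275 r5_322 (nat_lit 0) (nat_lit 0) (nat_lit 24086680) (nat_lit 0x7f9584f64) (nat_lit 568953542),
  Rx.mk (nat_lit 99) (nat_lit 3) (nat_lit 4) (nat_lit 1) (nat_lit 5) (nat_lit 276) (nat_lit 317) r11_276 r5_317 (nat_lit 0) (nat_lit 20064994) (nat_lit 0) (nat_lit 0x807284b4e) (nat_lit 551341856),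
  Rx.mk (nat_lit 107) (nat_lit 3) (nat_lit 5) (nat_lit 1) (nat_lit 7) (nat_lit 277) (nat_lit 320) r11_277 r5_320 (nat_lit 0) (nat_lit 0) (nat_lit 0) (nat_lit 0x8017985b4) (nat_lit 536870912),
  Rx.mk (nat_lit 115) (nat_lit 3) (nat_lit 6) (nat_lit 1) (nat_lit 7) (nat_lit 278) (nat_lit 323) r11_278 r5_323 (nat_lit 0) (nat_lit 0) (nat_lit 0) (nat_lit 0x8017985b4) (nat_lit 536870912),
  Rx.mk (nat_lit 163) (nat_lit 3) (nat_lit 4) (nat_lit 2) (nat_lit 5) (nat_lit 279) (nat_lit 318) r11_279 r5_318 (nat_lit 0) (nat_lit 21930199) (nat_lit 0) (nat_lit 0x8037c1084) (nat_lit 556823461),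
  Rx.mk (nat_lit 171) (nat_lit 3) (nat_lit 5) (nat_lit 2) (nat_lit 7) (nat_lit 280) (nat_lit 321) r11_280 r5_321 (nat_lit 0) (nat_lit 0) (nat_lit 0) (nat_lit 0x8017985b4) (nat_lit 536870912)]
noncomputable def e34_57 : List Rx := [
  Rx.mk (nat_lit 43) (nat_lit 3) (nat_lit 5) (nat_lit 0) (nat_lit 3) (nat_lit 281) (nat_lit 368) r11_281 r11_368 (nat_lit 0) (nat_lit 0) (nat_lit 24741287) (nat_lit 0x8017985b4) (nat_lit 561612199),
  Rx.mk (nat_lit 107) (nat_lit 3) (nat_lit 5) (nat_lit 1) (nat_lit 7) (nat_lit 282) (nat_lit 369) r11_282 r11_369 (nat_lit 0) (nat_lit 0) (nat_lit 0) (nat_lit 0x8017985b4) (nat_lit 536870912),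
  Rx.mk (nat_lit 171) (nat_lit 3) (nat_lit 5) (nat_lit 2) (nat_lit 7) (nat_lit 283) (nat_lit 370) r11_283 r11_370 (nat_lit 0) (nat_lit 0) (nat_lit 0) (nat_lit 0x8017985b4) (nat_lit 536870912)]
noncomputable def e34 : List (List Rx) := [e34_0, e34_1, e34_2, e34_3, e34_4, e34_5, e34_6, e34_7, e34_8, e34_9, e34_10, e34_11, e34_12, e34_13, e34_14, e34_15, e34_16, e34_17, e34_18, e34_19, e34_20, e34_21, e34_22, e34_23, e34_24, e34_25, e34_26, e34_27, e34_28, e34_29, e34_30, e34_31, e34_32, e34_33, e34_34, e34_35, e34_36, e34_37, e34_38, e34_39, e34_40, e34_41, e34_42, e34_43, e34_44, e34_45, e34_46, e34_47, e34_48, e34_49, e34_50, e34_51, e34_52, e34_53, e34_54, e34_55, e34_56, e34_57]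

end Pool.Agent.AKXS_24_34_V1
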