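import Pool.Agent.AKXS_24_34_V1.R0
import Pool.Agent.AKXS_24_34_V1.R1
import Pool.Agent.AKXS_24_34_V1.R2
import Pool.Agent.AKXS_24_34_V1.R3
import Pool.Agent.AKXS_24_34_V1.R4
import Pool.Agent.AKXS_24_34_V1.R5
import Pool.Agent.AKXS_24_34_V1.R6
import Pool.Agent.AKXS_24_34_V1.R7
import Pool.Agent.AKXS_24_34_V1.R8
import Pool.Agent.AKXS_24_34_V1.R9
import Pool.Agent.AKXS_24_34_V1.R10
import Pool.Agent.AKXS_24_34_V1.R11
import Pool.Agent.AKXS_24_34_V1.R12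

set_option autoImplicit false

namespace Pool.Agent.AKXS_24_34_V1

open Pool.Agent.AKX Pool.Agent.AKU

noncomputable def e35_0 : List Rx := [
  Rx.mk (nat_lit 6) (nat_lit 6) (nat_lit 0) (nat_lit 0) (nat_lit 1) (nat_lit 171) (nat_lit 232) r6_171 r0_232 (nat_lit 0) (nat_lit 961472) (nat_lit 853516) (nat_lit 0x7527736a6) (nat_lit 714260500),
  Rx.mk (nat_lit 20) (nat_lit 4) (nat_lit 2) (nat_lit 0) (nat_lit 2) (nat_lit 173) (nat_lit 228) r6_173 r0_228 (nat_lit 549304) (nat_lit 0) (nat_lit 476596) (nat_lit 0x63aaea0f0) (nat_lit 996170062),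
  Rx.mk (nat_lit 22) (nat_lit 6) (nat_lit 2) (nat_lit 0) (nat_lit 3) (nat_lit 174) (nat_lit 234) r6_174 r0_234 (nat_lit 0) (nat_lit 0) (nat_lit 11464009) (nat_lit 0x7fcd39b80) (nat_lit 552812521),
  Rx.mk (nat_lit 70) (nat_lit 6) (nat_lit 0) (nat_lit 1) (nat_lit 5) (nat_lit 172) (nat_lit 233) r6_172 r0_233 (nat_lit 0) (nat_lit 727303) (nat_lit 0) (nat_lit 0x864e745a0) (nat_lit 441614815),
  Rx.mk (nat_lit 84) (nat_lit 4) (nat_lit 2) (nat_lit 1) (nat_lit 6) (nat_lit 175) (nat_lit 229) r6_175 r0_229 (nat_lit 2611205) (nat_lit 0) (nat_lit 0) (nat_lit 0x83a05514c) (nat_lit 484513917),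
  Rx.mk (nat_lit 86) (nat_lit 6) (nat_lit 2) (nat_lit 1) (nat_lit 7) (nat_lit 176) (nat_lit 235) r6_176 r0_235 (nat_lit 0) (nat_lit 0) (nat_lit 0) (nat_lit 0x86cc8ff0c) (nat_lit 433849212),
  Rx.mk (nat_lit 148) (nat_lit 4) (nat_lit 2) (nat_lit 2) (nat_lit 6) (nat_lit 177) (nat_lit 230) r6_177 r0_230 (nat_lit 14019292) (nat_lit 0) (nat_lit 0) (nat_lit 0x774820d34) (nat_lit 692574004),
  Rx.mk (nat_lit 180) (nat_lit 4) (nat_lit 6) (nat_lit 2) (nat_lit 6) (nat_lit 170) (nat_lit 231) r6_170 r0_231 (nat_lit 7518208) (nat_lit 0) (nat_lit 0) (nat_lit 0x737802416) (nat_lit 747659820)]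
noncomputable def e35_1 : List Rx := [
  Rx.mk (nat_lit 70) (nat_lit 6) (nat_lit 0) (nat_lit 1) (nat_lit 5) (nat_lit 178) (nat_lit 247) r6_178 r1_247 (nat_lit 0) (nat_lit 2146916) (nat_lit 0) (nat_lit 0x832861f50) (nat_lit 491234428),
  Rx.mk (nat_lit 84) (nat_lit 4) (nat_lit 2) (nat_lit 1) (nat_lit 6) (nat_lit 179) (nat_lit 246) r6_179 r1_246 (nat_lit 4579048) (nat_lit 0) (nat_lit 0) (nat_lit 0x829e4386e) (nat_lit 502034860),
  Rx.mk (nat_lit 86) (nat_lit 6) (nat_lit 2) (nat_lit 1) (nat_lit 7) (nat_lit 180) (nat_lit 248) r6_180 r1_248 (nat_lit 0) (nat_lit 0) (nat_lit 0) (nat_lit 0x80c3cc614) (nat_lit 526329562)]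
noncomputable def e35_2 : List Rx := [
  Rx.mk (nat_lit 70) (nat_lit 6) (nat_lit 0) (nat_lit 1) (nat_lit 5) (nat_lit 307) (nat_lit 269) r6_307 r2_269 (nat_lit 0) (nat_lit 25088397) (nat_lit 0) (nat_lit 0x7fe4f918a) (nat_lit 565068109),
  Rx.mk (nat_lit 84) (nat_lit 4) (nat_lit 2) (nat_lit 1) (nat_lit 6) (nat_lit 308) (nat_lit 268) r6_308 r2_268 (nat_lit 32877958) (nat_lit 0) (nat_lit 0) (nat_lit 0x7f6f4bf78) (nat_lit 580120470),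
  Rx.mk (nat_lit 86) (nat_lit 6) (nat_lit 2) (nat_lit 1) (nat_lit 7) (nat_lit 309) (nat_lit 271) r6_309 r2_271 (nat_lit 0) (nat_lit 0) (nat_lit 0) (nat_lit 0x8017985b4) (nat_lit 536870912),
  Rx.mk (nat_lit 326) (nat_lit 6) (nat_lit 0) (nat_lit 5) (nat_lit 5) (nat_lit 306) (nat_lit 270) r6_306 r2_270 (nat_lit 0) (nat_lit 37541131) (nat_lit 0) (nat_lit 0x7f337957c) (nat_lit 588490643)]
noncomputable def e35_3 : List Rx := [
  Rx.mk (nat_lit 20) (nat_lit 4) (nat_lit 2) (nat_lit 0) (nat_lit 2) (nat_lit 44) (nat_lit 227) r6_44 r3_227 (nat_lit 2940) (nat_lit 0) (nat_lit 3671) (nat_lit 0x7fffa9322) (nat_lit 536901023),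
  Rx.mk (nat_lit 22) (nat_lit 6) (nat_lit 2) (nat_lit 0) (nat_lit 3) (nat_lit 45) (nat_lit 233) r6_45 r3_233 (nat_lit 0) (nat_lit 0) (nat_lit 2875897) (nat_lit 0x717aba4b2) (nat_lit 774887159),
  Rx.mk (nat_lit 148) (nat_lit 4) (nat_lit 2) (nat_lit 2) (nat_lit 6) (nat_lit 46) (nat_lit 229) r6_46 r3_229 (nat_lit 6608634) (nat_lit 0) (nat_lit 0) (nat_lit 0x74406e594) (nat_lit 733974246),
  Rx.mk (nat_lit 180) (nat_lit 4) (nat_lit 6) (nat_lit 2) (nat_lit 6) (nat_lit 41) (nat_lit 230) r6_41 r3_230 (nat_lit 1281031) (nat_lit 0) (nat_lit 0) (nat_lit 0x74900bd36) (nat_lit 723321843),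
  Rx.mk (nat_lit 183) (nat_lit 7) (nat_lit 6) (nat_lit 2) (nat_lit 7) (nat_lit 42) (nat_lit 231) r6_42 r3_231 (nat_lit 0) (nat_lit 0) (nat_lit 0) (nat_lit 0x82a884a62) (nat_lit 496785062),
  Rx.mk (nat_lit 198) (nat_lit 6) (nat_lit 0) (nat_lit 3) (nat_lit 5) (nat_lit 43) (nat_lit 232) r6_43 r3_232 (nat_lit 0) (nat_lit 320985) (nat_lit 0) (nat_lit 0x7f1636122) (nat_lit 552018747),
  Rx.mk (nat_lit 212) (nat_lit 4) (nat_lit 2) (nat_lit 3) (nat_lit 6) (nat_lit 47) (nat_lit 228) r6_47 r3_228 (nat_lit 201864) (nat_lit 0) (nat_lit 0) (nat_lit 0x7fa9eb5e8) (nat_lit 542596676),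
  Rx.mk (nat_lit 214) (nat_lit 6) (nat_lit 2) (nat_lit 3) (nat_lit 7) (nat_lit 48) (nat_lit 234) r6_48 r3_234 (nat_lit 0) (nat_lit 0) (nat_lit 0) (nat_lit 0x85801fec0) (nat_lit 453525812)]
noncomputable def e35_4 : List Rx := [
  Rx.mk (nat_lit 6) (nat_lit 6) (nat_lit 0) (nat_lit 0) (nat_lit 1) (nat_lit 183) (nat_lit 235) r6_183 r4_235 (nat_lit 0) (nat_lit 102847) (nat_lit 72450) (nat_lit 0x74c49e314) (nat_lit 718702409),
  Rx.mk (nat_lit 20) (nat_lit 4) (nat_lit 2) (nat_lit 0) (nat_lit 2) (nat_lit 186) (nat_lit 229) r6_186 r4_229 (nat_lit 185097) (nat_lit 0) (nat_lit 150896) (nat_lit 0x7474055ce) (nat_lit 723972805),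
  Rx.mk (nat_lit 22) (nat_lit 6) (nat_lit 2) (nat_lit 0) (nat_lit 3) (nat_lit 187) (nat_lit 238) r6_187 r4_238 (nat_lit 0) (nat_lit 0) (nat_lit 8507115) (nat_lit 0x7fe98ff5a) (nat_lit 548034927),
  Rx.mk (nat_lit 70) (nat_lit 6) (nat_lit 0) (nat_lit 1) (nat_lit 5) (nat_lit 184) (nat_lit 236) r6_184 r4_236 (nat_lit 0) (nat_lit 17803608) (nat_lit 0) (nat_lit 0x8030df784) (nat_lit 553092470),
  Rx.mk (nat_lit 84) (nat_lit 4) (nat_lit 2) (nat_lit 1) (nat_lit 6) (nat_lit 188) (nat_lit 230) r6_188 r4_230 (nat_lit 15201900) (nat_lit 0) (nat_lit 0) (nat_lit 0x80b22620c) (nat_lit 542613312),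
  Rx.mk (nat_lit 86) (nat_lit 6) (nat_lit 2) (nat_lit 1) (nat_lit 7) (nat_lit 189) (nat_lit 239) r6_189 r4_239 (nat_lit 0) (nat_lit 0) (nat_lit 0) (nat_lit 0x80ad718e2) (nat_lit 527694462),
  Rx.mk (nat_lit 148) (nat_lit 4) (nat_lit 2) (nat_lit 2) (nat_lit 6) (nat_lit 190) (nat_lit 232) r6_190 r4_232 (nat_lit 14591992) (nat_lit 0) (nat_lit 0) (nat_lit 0x7ffde2a5c) (nat_lit 552972954),
  Rx.mk (nat_lit 180) (nat_lit 4) (nat_lit 6) (nat_lit 2) (nat_lit 6) (nat_lit 181) (nat_lit 233) r6_181 r4_233 (nat_lit 11623710) (nat_lit 0) (nat_lit 0) (nat_lit 0x7bf31a790) (nat_lit 614749172),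
  Rx.mk (nat_lit 183) (nat_lit 7) (nat_lit 6) (nat_lit 2) (nat_lit 7) (nat_lit 182) (nat_lit 234) r6_182 r4_234 (nat_lit 0) (nat_lit 0) (nat_lit 0) (nat_lit 0x81ec02330) (nat_lit 508336162),
  Rx.mk (nat_lit 198) (nat_lit 6) (nat_lit 0) (nat_lit 3) (nat_lit 5) (nat_lit 185) (nat_lit 237) r6_185 r4_237 (nat_lit 0) (nat_lit 14470459) (nat_lit 0) (nat_lit 0x7f6a8c884) (nat_lit 561862921),
  Rx.mk (nat_lit 212) (nat_lit 4) (nat_lit 2) (nat_lit 3) (nat_lit 6) (nat_lit 191) (nat_lit 231) r6_191 r4_231 (nat_lit 15888000) (nat_lit 0) (nat_lit 0) (nat_lit 0x80a2446e0) (nat_lit 544269162),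
  Rx.mk (nat_lit 214) (nat_lit 6) (nat_lit 2) (nat_lit 3) (nat_lit 7) (nat_lit 192) (nat_lit 240) r6_192 r4_240 (nat_lit 0) (nat_lit 0) (nat_lit 0) (nat_lit 0x80ad718e2) (nat_lit 527694462)]
noncomputable def e35_5 : List Rx := [
  Rx.mk (nat_lit 198) (nat_lit 6) (nat_lit 0) (nat_lit 3) (nat_lit 5) (nat_lit 251) (nat_lit 243) r6_251 r5_243 (nat_lit 0) (nat_lit 52534) (nat_lit 0) (nat_lit 0x806957f26) (nat_lit 530664346),
  Rx.mk (nat_lit 212) (nat_lit 4) (nat_lit 2) (nat_lit 3) (nat_lit 6) (nat_lit 252) (nat_lit 242) r6_252 r5_242 (nat_lit 355084) (nat_lit 0) (nat_lit 0) (nat_lit 0x7fdb97272) (nat_lit 539655146),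
  Rx.mk (nat_lit 214) (nat_lit 6) (nat_lit 2) (nat_lit 3) (nat_lit 7) (nat_lit 253) (nat_lit 244) r6_253 r5_244 (nat_lit 0) (nat_lit 0) (nat_lit 0) (nat_lit 0x7f639d938) (nat_lit 547371662)]
noncomputable def e35_6 : List Rx := [
  Rx.mk (nat_lit 258) (nat_lit 2) (nat_lit 0) (nat_lit 4) (nat_lit 1) (nat_lit 323) (nat_lit 219) r6_323 r3_219 (nat_lit 0) (nat_lit 7883) (nat_lit 6389) (nat_lit 0x7fff97bfe) (nat_lit 536915534),
  Rx.mk (nat_lit 262) (nat_lit 6) (nat_lit 0) (nat_lit 4) (nat_lit 1) (nat_lit 322) (nat_lit 217) r6_322 r3_217 (nat_lit 0) (nat_lit 6389) (nat_lit 7883) (nat_lit 0x7fff97bfe) (nat_lit 536915534),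
  Rx.mk (nat_lit 282) (nat_lit 2) (nat_lit 3) (nat_lit 4) (nat_lit 3) (nat_lit 325) (nat_lit 220) r6_325 r3_220 (nat_lit 0) (nat_lit 0) (nat_lit 62040) (nat_lit 0x7ffb1f284) (nat_lit 537273802),
  Rx.mk (nat_lit 454) (nat_lit 6) (nat_lit 0) (nat_lit 7) (nat_lit 5) (nat_lit 324) (nat_lit 218) r6_324 r3_218 (nat_lit 0) (nat_lit 62040) (nat_lit 0) (nat_lit 0x7ffb1f284) (nat_lit 537273802)]
noncomputable def e35_7 : List Rx := [
  Rx.mk (nat_lit 322) (nat_lit 2) (nat_lit 0) (nat_lit 5) (nat_lit 5) (nat_lit 277) (nat_lit 223) r6_277 r0_223 (nat_lit 0) (nat_lit 15883932) (nat_lit 0) (nat_lit 0x7b9d7068c) (nat_lit 624376294),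
  Rx.mk (nat_lit 326) (nat_lit 6) (nat_lit 0) (nat_lit 5) (nat_lit 5) (nat_lit 276) (nat_lit 222) r6_276 r0_222 (nat_lit 0) (nat_lit 52275) (nat_lit 0) (nat_lit 0x8149ad206) (nat_lit 517293887)]
noncomputable def e35_8 : List Rx := [
  Rx.mk (nat_lit 322) (nat_lit 2) (nat_lit 0) (nat_lit 5) (nat_lit 5) (nat_lit 305) (nat_lit 241) r6_305 r1_241 (nat_lit 0) (nat_lit 15511582) (nat_lit 0) (nat_lit 0x81bcd1ade) (nat_lit 526733344),
  Rx.mk (nat_lit 326) (nat_lit 6) (nat_lit 0) (nat_lit 5) (nat_lit 5) (nat_lit 304) (nat_lit 240) r6_304 r1_240 (nat_lit 0) (nat_lit 861113) (nat_lit 0) (nat_lit 0x81f140aa4) (nat_lit 508285625)]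
noncomputable def e35_9 : List Rx := [
  Rx.mk (nat_lit 258) (nat_lit 2) (nat_lit 0) (nat_lit 4) (nat_lit 1) (nat_lit 327) (nat_lit 220) r6_327 r4_220 (nat_lit 0) (nat_lit 4357312) (nat_lit 3315579) (nat_lit 0x66141debc) (nat_lit 964156353),
  Rx.mk (nat_lit 262) (nat_lit 6) (nat_lit 0) (nat_lit 4) (nat_lit 1) (nat_lit 326) (nat_lit 217) r6_326 r4_217 (nat_lit 0) (nat_lit 164206) (nat_lit 129197) (nat_lit 0x795e5323a) (nat_lit 644442165),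
  Rx.mk (nat_lit 282) (nat_lit 2) (nat_lit 3) (nat_lit 4) (nat_lit 3) (nat_lit 331) (nat_lit 222) r6_331 r4_222 (nat_lit 0) (nat_lit 0) (nat_lit 79150) (nat_lit 0x53f546c4e) (nat_lit 1249167362),
  Rx.mk (nat_lit 322) (nat_lit 2) (nat_lit 0) (nat_lit 5) (nat_lit 5) (nat_lit 329) (nat_lit 221) r6_329 r4_221 (nat_lit 0) (nat_lit 9659627) (nat_lit 0) (nat_lit 0x7fc83bdd6) (nat_lit 551234539),
  Rx.mk (nat_lit 326) (nat_lit 6) (nat_lit 0) (nat_lit 5) (nat_lit 5) (nat_lit 328) (nat_lit 218) r6_328 r4_218 (nat_lit 0) (nat_lit 12015582) (nat_lit 0) (nat_lit 0x8043b9b16) (nat_lit 546056094),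
  Rx.mk (nat_lit 346) (nat_lit 2) (nat_lit 3) (nat_lit 5) (nat_lit 7) (nat_lit 332) (nat_lit 223) r6_332 r4_223 (nat_lit 0) (nat_lit 0) (nat_lit 0) (nat_lit 0x801c163de) (nat_lit 536140862),
  Rx.mk (nat_lit 454) (nat_lit 6) (nat_lit 0) (nat_lit 7) (nat_lit 5) (nat_lit 330) (nat_lit 219) r6_330 r4_219 (nat_lit 0) (nat_lit 14660822) (nat_lit 0) (nat_lit 0x80a2e9ac8) (nat_lit 542985584)]
noncomputable def e35_10 : List Rx := [
  Rx.mk (nat_lit 198) (nat_lit 6) (nat_lit 0) (nat_lit 3) (nat_lit 5) (nat_lit 246) (nat_lit 261) r6_246 r6_261 (nat_lit 0) (nat_lit 4142685) (nat_lit 0) (nat_lit 0x7fb361866) (nat_lit 546673497),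
  Rx.mk (nat_lit 212) (nat_lit 4) (nat_lit 2) (nat_lit 3) (nat_lit 6) (nat_lit 247) (nat_lit 260) r6_247 r6_260 (nat_lit 444414) (nat_lit 0) (nat_lit 0) (nat_lit 0x7fdf18cb6) (nat_lit 539578826),
  Rx.mk (nat_lit 214) (nat_lit 6) (nat_lit 2) (nat_lit 3) (nat_lit 7) (nat_lit 248) (nat_lit 263) r6_248 r6_263 (nat_lit 0) (nat_lit 0) (nat_lit 0) (nat_lit 0x8541a12d4) (nat_lit 457207412),
  Rx.mk (nat_lit 282) (nat_lit 2) (nat_lit 3) (nat_lit 4) (nat_lit 3) (nat_lit 249) (nat_lit 258) r6_249 r6_258 (nat_lit 0) (nat_lit 0) (nat_lit 444414) (nat_lit 0x7fdf18cb6) (nat_lit 539578826),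
  Rx.mk (nat_lit 450) (nat_lit 2) (nat_lit 0) (nat_lit 7) (nat_lit 5) (nat_lit 245) (nat_lit 257) r6_245 r6_257 (nat_lit 0) (nat_lit 4142685) (nat_lit 0) (nat_lit 0x7fb361866) (nat_lit 546673497),
  Rx.mk (nat_lit 454) (nat_lit 6) (nat_lit 0) (nat_lit 7) (nat_lit 5) (nat_lit 244) (nat_lit 262) r6_244 r6_262 (nat_lit 0) (nat_lit 646033) (nat_lit 0) (nat_lit 0x7f96cb490) (nat_lit 544399195),
  Rx.mk (nat_lit 474) (nat_lit 2) (nat_lit 3) (nat_lit 7) (nat_lit 7) (nat_lit 250) (nat_lit 259) r6_250 r6_259 (nat_lit 0) (nat_lit 0) (nat_lit 0) (nat_lit 0x8541a12d4) (nat_lit 457207412)]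
noncomputable def e35_11 : List Rx := [
  Rx.mk (nat_lit 258) (nat_lit 2) (nat_lit 0) (nat_lit 4) (nat_lit 1) (nat_lit 333) (nat_lit 232) r6_333 r5_232 (nat_lit 0) (nat_lit 1379852) (nat_lit 1266917) (nat_lit 0x7a2fc99c2) (nat_lit 633790631),
  Rx.mk (nat_lit 282) (nat_lit 2) (nat_lit 3) (nat_lit 4) (nat_lit 3) (nat_lit 336) (nat_lit 234) r6_336 r5_234 (nat_lit 0) (nat_lit 0) (nat_lit 745573) (nat_lit 0x806c92614) (nat_lit 531405435),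
  Rx.mk (nat_lit 450) (nat_lit 2) (nat_lit 0) (nat_lit 7) (nat_lit 5) (nat_lit 335) (nat_lit 233) r6_335 r5_233 (nat_lit 0) (nat_lit 4400993) (nat_lit 0) (nat_lit 0x831fc2ff2) (nat_lit 494248105),
  Rx.mk (nat_lit 454) (nat_lit 6) (nat_lit 0) (nat_lit 7) (nat_lit 5) (nat_lit 334) (nat_lit 231) r6_334 r5_231 (nat_lit 0) (nat_lit 64873) (nat_lit 0) (nat_lit 0x800bef67c) (nat_lit 536253635)]
noncomputable def e35_12 : List Rx := [
  Rx.mk (nat_lit 20) (nat_lit 4) (nat_lit 2) (nat_lit 0) (nat_lit 2) (nat_lit 51) (nat_lit 82) r6_51 r0_82 (nat_lit 1834824) (nat_lit 0) (nat_lit 2752324) (nat_lit 0x5acd8ab40) (nat_lit 1143327010),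
  Rx.mk (nat_lit 21) (nat_lit 5) (nat_lit 2) (nat_lit 0) (nat_lit 3) (nat_lit 52) (nat_lit 83) r6_52 r0_83 (nat_lit 0) (nat_lit 0) (nat_lit 13075147) (nat_lit 0x78e3d9b80) (nat_lit 665603759),
  Rx.mk (nat_lit 22) (nat_lit 6) (nat_lit 2) (nat_lit 0) (nat_lit 3) (nat_lit 53) (nat_lit 84) r6_53 r0_84 (nat_lit 0) (nat_lit 0) (nat_lit 9488112) (nat_lit 0x7869953b0) (nat_lit 669747474),
  Rx.mk (nat_lit 148) (nat_lit 4) (nat_lit 2) (nat_lit 2) (nat_lit 6) (nat_lit 54) (nat_lit 87) r6_54 r0_87 (nat_lit 18629772) (nat_lit 0) (nat_lit 0) (nat_lit 0x7b316cfbc) (nat_lit 634046784),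
  Rx.mk (nat_lit 149) (nat_lit 5) (nat_lit 2) (nat_lit 2) (nat_lit 7) (nat_lit 55) (nat_lit 88) r6_55 r0_88 (nat_lit 0) (nat_lit 0) (nat_lit 0) (nat_lit 0x8116bf43e) (nat_lit 521295912),
  Rx.mk (nat_lit 180) (nat_lit 4) (nat_lit 6) (nat_lit 2) (nat_lit 6) (nat_lit 49) (nat_lit 85) r6_49 r0_85 (nat_lit 4982960) (nat_lit 0) (nat_lit 0) (nat_lit 0x7f97fd5b6) (nat_lit 549398922),
  Rx.mk (nat_lit 181) (nat_lit 5) (nat_lit 6) (nat_lit 2) (nat_lit 7) (nat_lit 50) (nat_lit 86) r6_50 r0_86 (nat_lit 0) (nat_lit 0) (nat_lit 0) (nat_lit 0x8ecace6ac) (nat_lit 311796962)]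
noncomputable def e35_13 : List Rx := [
  Rx.mk (nat_lit 20) (nat_lit 4) (nat_lit 2) (nat_lit 0) (nat_lit 2) (nat_lit 195) (nat_lit 293) r6_195 r7_293 (nat_lit 3103288) (nat_lit 0) (nat_lit 3417910) (nat_lit 0x6f0f18210) (nat_lit 817792160),
  Rx.mk (nat_lit 21) (nat_lit 5) (nat_lit 2) (nat_lit 0) (nat_lit 3) (nat_lit 196) (nat_lit 297) r6_196 r7_297 (nat_lit 0) (nat_lit 0) (nat_lit 12588522) (nat_lit 0x8109aaa8c) (nat_lit 534683584),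
  Rx.mk (nat_lit 22) (nat_lit 6) (nat_lit 2) (nat_lit 0) (nat_lit 3) (nat_lit 197) (nat_lit 301) r6_197 r7_301 (nat_lit 0) (nat_lit 0) (nat_lit 9429526) (nat_lit 0x80843ba90) (nat_lit 539527188),
  Rx.mk (nat_lit 84) (nat_lit 4) (nat_lit 2) (nat_lit 1) (nat_lit 6) (nat_lit 198) (nat_lit 294) r6_198 r7_294 (nat_lit 10382740) (nat_lit 0) (nat_lit 0) (nat_lit 0x817f374a8) (nat_lit 525372102),
  Rx.mk (nat_lit 85) (nat_lit 5) (nat_lit 2) (nat_lit 1) (nat_lit 7) (nat_lit 199) (nat_lit 298) r6_199 r7_298 (nat_lit 0) (nat_lit 0) (nat_lit 0) (nat_lit 0x806259ae4) (nat_lit 532286612),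
  Rx.mk (nat_lit 86) (nat_lit 6) (nat_lit 2) (nat_lit 1) (nat_lit 7) (nat_lit 200) (nat_lit 302) r6_200 r7_302 (nat_lit 0) (nat_lit 0) (nat_lit 0) (nat_lit 0x80e84372c) (nat_lit 524123412),
  Rx.mk (nat_lit 148) (nat_lit 4) (nat_lit 2) (nat_lit 2) (nat_lit 6) (nat_lit 201) (nat_lit 295) r6_201 r7_295 (nat_lit 24741287) (nat_lit 0) (nat_lit 0) (nat_lit 0x7f4e81a9a) (nat_lit 574017999),
  Rx.mk (nat_lit 149) (nat_lit 5) (nat_lit 2) (nat_lit 2) (nat_lit 7) (nat_lit 202) (nat_lit 299) r6_202 r7_299 (nat_lit 0) (nat_lit 0) (nat_lit 0) (nat_lit 0x8017985b4) (nat_lit 536870912),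
  Rx.mk (nat_lit 180) (nat_lit 4) (nat_lit 6) (nat_lit 2) (nat_lit 6) (nat_lit 193) (nat_lit 296) r6_193 r7_296 (nat_lit 8290090) (nat_lit 0) (nat_lit 0) (nat_lit 0x80c4482e6) (nat_lit 534483002),
  Rx.mk (nat_lit 181) (nat_lit 5) (nat_lit 6) (nat_lit 2) (nat_lit 7) (nat_lit 194) (nat_lit 300) r6_194 r7_300 (nat_lit 0) (nat_lit 0) (nat_lit 0) (nat_lit 0x810efde94) (nat_lit 521774762)]
noncomputable def e35_14 : List Rx := [
  Rx.mk (nat_lit 21) (nat_lit 5) (nat_lit 2) (nat_lit 0) (nat_lit 3) (nat_lit 57) (nat_lit 88) r6_57 r1_88 (nat_lit 0) (nat_lit 0) (nat_lit 14248724) (nat_lit 0x80a26753c) (nat_lit 542542486),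
  Rx.mk (nat_lit 149) (nat_lit 5) (nat_lit 2) (nat_lit 2) (nat_lit 7) (nat_lit 58) (nat_lit 90) r6_58 r1_90 (nat_lit 0) (nat_lit 0) (nat_lit 0) (nat_lit 0x80add07a2) (nat_lit 527662962),
  Rx.mk (nat_lit 181) (nat_lit 5) (nat_lit 6) (nat_lit 2) (nat_lit 7) (nat_lit 56) (nat_lit 89) r6_56 r1_89 (nat_lit 0) (nat_lit 0) (nat_lit 0) (nat_lit 0x8954d7890) (nat_lit 395152462)]
noncomputable def e35_15 : List Rx := [
  Rx.mk (nat_lit 21) (nat_lit 5) (nat_lit 2) (nat_lit 0) (nat_lit 3) (nat_lit 207) (nat_lit 221) r6_207 r8_221 (nat_lit 0) (nat_lit 0) (nat_lit 24741287) (nat_lit 0x8017985b4) (nat_lit 561612199),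
  Rx.mk (nat_lit 85) (nat_lit 5) (nat_lit 2) (nat_lit 1) (nat_lit 7) (nat_lit 208) (nat_lit 222) r6_208 r8_222 (nat_lit 0) (nat_lit 0) (nat_lit 0) (nat_lit 0x8017985b4) (nat_lit 536870912),
  Rx.mk (nat_lit 149) (nat_lit 5) (nat_lit 2) (nat_lit 2) (nat_lit 7) (nat_lit 209) (nat_lit 223) r6_209 r8_223 (nat_lit 0) (nat_lit 0) (nat_lit 0) (nat_lit 0x8017985b4) (nat_lit 536870912),
  Rx.mk (nat_lit 181) (nat_lit 5) (nat_lit 6) (nat_lit 2) (nat_lit 7) (nat_lit 206) (nat_lit 224) r6_206 r8_224 (nat_lit 0) (nat_lit 0) (nat_lit 0) (nat_lit 0x805730f46) (nat_lit 532963862)]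
noncomputable def e35_16 : List Rx := [
  Rx.mk (nat_lit 84) (nat_lit 4) (nat_lit 2) (nat_lit 1) (nat_lit 6) (nat_lit 203) (nat_lit 71) r6_203 r8_71 (nat_lit 11276317) (nat_lit 0) (nat_lit 0) (nat_lit 0x80f41308e) (nat_lit 534645879),
  Rx.mk (nat_lit 85) (nat_lit 5) (nat_lit 2) (nat_lit 1) (nat_lit 7) (nat_lit 204) (nat_lit 72) r6_204 r8_72 (nat_lit 0) (nat_lit 0) (nat_lit 0) (nat_lit 0x8017985b4) (nat_lit 536870912),
  Rx.mk (nat_lit 86) (nat_lit 6) (nat_lit 2) (nat_lit 1) (nat_lit 7) (nat_lit 205) (nat_lit 73) r6_205 r8_73 (nat_lit 0) (nat_lit 0) (nat_lit 0) (nat_lit 0x80607f5fc) (nat_lit 532392712)]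
noncomputable def e35_17 : List Rx := [
  Rx.mk (nat_lit 84) (nat_lit 4) (nat_lit 2) (nat_lit 1) (nat_lit 6) (nat_lit 319) (nat_lit 241) r6_319 r9_241 (nat_lit 25123569) (nat_lit 0) (nat_lit 0) (nat_lit 0x7f345289a) (nat_lit 575983031),
  Rx.mk (nat_lit 85) (nat_lit 5) (nat_lit 2) (nat_lit 1) (nat_lit 7) (nat_lit 320) (nat_lit 242) r6_320 r9_242 (nat_lit 0) (nat_lit 0) (nat_lit 0) (nat_lit 0x8017985b4) (nat_lit 536870912),
  Rx.mk (nat_lit 86) (nat_lit 6) (nat_lit 2) (nat_lit 1) (nat_lit 7) (nat_lit 321) (nat_lit 243) r6_321 r9_243 (nat_lit 0) (nat_lit 0) (nat_lit 0) (nat_lit 0x8017985b4) (nat_lit 536870912)]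
noncomputable def e35_18 : List Rx := [
  Rx.mk (nat_lit 20) (nat_lit 4) (nat_lit 2) (nat_lit 0) (nat_lit 2) (nat_lit 62) (nat_lit 78) r6_62 r4_78 (nat_lit 2670845) (nat_lit 0) (nat_lit 3814909) (nat_lit 0x6861eb944) (nat_lit 925706566),
  Rx.mk (nat_lit 21) (nat_lit 5) (nat_lit 2) (nat_lit 0) (nat_lit 3) (nat_lit 63) (nat_lit 79) r6_63 r4_79 (nat_lit 0) (nat_lit 0) (nat_lit 9313182) (nat_lit 0x8051e9268) (nat_lit 542445944),
  Rx.mk (nat_lit 22) (nat_lit 6) (nat_lit 2) (nat_lit 0) (nat_lit 3) (nat_lit 64) (nat_lit 80) r6_64 r4_80 (nat_lit 0) (nat_lit 0) (nat_lit 10422876) (nat_lit 0x7e366a3fe) (nat_lit 577077388),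
  Rx.mk (nat_lit 148) (nat_lit 4) (nat_lit 2) (nat_lit 2) (nat_lit 6) (nat_lit 65) (nat_lit 87) r6_65 r4_87 (nat_lit 9821827) (nat_lit 0) (nat_lit 0) (nat_lit 0x7fc4fda48) (nat_lit 551627389),
  Rx.mk (nat_lit 149) (nat_lit 5) (nat_lit 2) (nat_lit 2) (nat_lit 7) (nat_lit 66) (nat_lit 88) r6_66 r4_88 (nat_lit 0) (nat_lit 0) (nat_lit 0) (nat_lit 0x8046420c2) (nat_lit 534001662),
  Rx.mk (nat_lit 180) (nat_lit 4) (nat_lit 6) (nat_lit 2) (nat_lit 6) (nat_lit 59) (nat_lit 84) r6_59 r4_84 (nat_lit 5828454) (nat_lit 0) (nat_lit 0) (nat_lit 0x7fc27fd8e) (nat_lit 547632616),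
  Rx.mk (nat_lit 181) (nat_lit 5) (nat_lit 6) (nat_lit 2) (nat_lit 7) (nat_lit 60) (nat_lit 85) r6_60 r4_85 (nat_lit 0) (nat_lit 0) (nat_lit 0) (nat_lit 0x80fddf1bc) (nat_lit 522806362),
  Rx.mk (nat_lit 183) (nat_lit 7) (nat_lit 6) (nat_lit 2) (nat_lit 7) (nat_lit 61) (nat_lit 86) r6_61 r4_86 (nat_lit 0) (nat_lit 0) (nat_lit 0) (nat_lit 0x80efb1ee6) (nat_lit 523668462),
  Rx.mk (nat_lit 212) (nat_lit 4) (nat_lit 2) (nat_lit 3) (nat_lit 6) (nat_lit 67) (nat_lit 81) r6_67 r4_81 (nat_lit 136651) (nat_lit 0) (nat_lit 0) (nat_lit 0x6297d7fc2) (nat_lit 1012582363),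
  Rx.mk (nat_lit 213) (nat_lit 5) (nat_lit 2) (nat_lit 3) (nat_lit 7) (nat_lit 68) (nat_lit 82) r6_68 r4_82 (nat_lit 0) (nat_lit 0) (nat_lit 0) (nat_lit 0x80f6273ca) (nat_lit 522994062),
  Rx.mk (nat_lit 214) (nat_lit 6) (nat_lit 2) (nat_lit 3) (nat_lit 7) (nat_lit 69) (nat_lit 83) r6_69 r4_83 (nat_lit 0) (nat_lit 0) (nat_lit 0) (nat_lit 0x80d433d36) (nat_lit 525049262)]
noncomputable def e35_19 : List Rx := [
  Rx.mk (nat_lit 20) (nat_lit 4) (nat_lit 2) (nat_lit 0) (nat_lit 2) (nat_lit 213) (nat_lit 244) r6_213 r10_244 (nat_lit 3437710) (nat_lit 0) (nat_lit 3908311) (nat_lit 0x70b62ad72) (nat_lit 791927083),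
  Rx.mk (nat_lit 21) (nat_lit 5) (nat_lit 2) (nat_lit 0) (nat_lit 3) (nat_lit 214) (nat_lit 249) r6_214 r10_249 (nat_lit 0) (nat_lit 0) (nat_lit 18189542) (nat_lit 0x807407840) (nat_lit 549393204),
  Rx.mk (nat_lit 22) (nat_lit 6) (nat_lit 2) (nat_lit 0) (nat_lit 3) (nat_lit 215) (nat_lit 254) r6_215 r10_254 (nat_lit 0) (nat_lit 0) (nat_lit 8452867) (nat_lit 0x80ffe1c3a) (nat_lit 531055429),
  Rx.mk (nat_lit 84) (nat_lit 4) (nat_lit 2) (nat_lit 1) (nat_lit 6) (nat_lit 216) (nat_lit 245) r6_216 r10_245 (nat_lit 14773968) (nat_lit 0) (nat_lit 0) (nat_lit 0x80be7a56c) (nat_lit 541432730),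
  Rx.mk (nat_lit 86) (nat_lit 6) (nat_lit 2) (nat_lit 1) (nat_lit 7) (nat_lit 217) (nat_lit 255) r6_217 r10_255 (nat_lit 0) (nat_lit 0) (nat_lit 0) (nat_lit 0x80d199d14) (nat_lit 525495962),
  Rx.mk (nat_lit 148) (nat_lit 4) (nat_lit 2) (nat_lit 2) (nat_lit 6) (nat_lit 218) (nat_lit 247) r6_218 r10_247 (nat_lit 24741287) (nat_lit 0) (nat_lit 0) (nat_lit 0x7f68b2360) (nat_lit 572388699),
  Rx.mk (nat_lit 149) (nat_lit 5) (nat_lit 2) (nat_lit 2) (nat_lit 7) (nat_lit 219) (nat_lit 251) r6_219 r10_251 (nat_lit 0) (nat_lit 0) (nat_lit 0) (nat_lit 0x8017985b4) (nat_lit 536870912),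
  Rx.mk (nat_lit 180) (nat_lit 4) (nat_lit 6) (nat_lit 2) (nat_lit 6) (nat_lit 210) (nat_lit 248) r6_210 r10_248 (nat_lit 9336562) (nat_lit 0) (nat_lit 0) (nat_lit 0x80cea0392) (nat_lit 534941174),
  Rx.mk (nat_lit 181) (nat_lit 5) (nat_lit 6) (nat_lit 2) (nat_lit 7) (nat_lit 211) (nat_lit 252) r6_211 r10_252 (nat_lit 0) (nat_lit 0) (nat_lit 0) (nat_lit 0x80d032dc2) (nat_lit 525585862),
  Rx.mk (nat_lit 183) (nat_lit 7) (nat_lit 6) (nat_lit 2) (nat_lit 7) (nat_lit 212) (nat_lit 253) r6_212 r10_253 (nat_lit 0) (nat_lit 0) (nat_lit 0) (nat_lit 0x80d033132) (nat_lit 525585812),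
  Rx.mk (nat_lit 212) (nat_lit 4) (nat_lit 2) (nat_lit 3) (nat_lit 6) (nat_lit 220) (nat_lit 246) r6_220 r10_246 (nat_lit 14995754) (nat_lit 0) (nat_lit 0) (nat_lit 0x80820fd34) (nat_lit 545312416),
  Rx.mk (nat_lit 213) (nat_lit 5) (nat_lit 2) (nat_lit 3) (nat_lit 7) (nat_lit 221) (nat_lit 250) r6_221 r10_250 (nat_lit 0) (nat_lit 0) (nat_lit 0) (nat_lit 0x8017985b4) (nat_lit 536870912),
  Rx.mk (nat_lit 214) (nat_lit 6) (nat_lit 2) (nat_lit 3) (nat_lit 7) (nat_lit 222) (nat_lit 256) r6_222 r10_256 (nat_lit 0) (nat_lit 0) (nat_lit 0) (nat_lit 0x80d1999d6) (nat_lit 525496012)]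
noncomputable def e35_20 : List Rx := [
  Rx.mk (nat_lit 212) (nat_lit 4) (nat_lit 2) (nat_lit 3) (nat_lit 6) (nat_lit 254) (nat_lit 284) r6_254 r11_284 (nat_lit 4181752) (nat_lit 0) (nat_lit 0) (nat_lit 0x80bce2e16) (nat_lit 530625764),
  Rx.mk (nat_lit 213) (nat_lit 5) (nat_lit 2) (nat_lit 3) (nat_lit 7) (nat_lit 255) (nat_lit 285) r6_255 r11_285 (nat_lit 0) (nat_lit 0) (nat_lit 0) (nat_lit 0x84db9c5a6) (nat_lit 463462512),
  Rx.mk (nat_lit 214) (nat_lit 6) (nat_lit 2) (nat_lit 3) (nat_lit 7) (nat_lit 256) (nat_lit 286) r6_256 r11_286 (nat_lit 0) (nat_lit 0) (nat_lit 0) (nat_lit 0x8558f78ac) (nat_lit 456022662)]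
noncomputable def e35_21 : List Rx := [
  Rx.mk (nat_lit 70) (nat_lit 6) (nat_lit 0) (nat_lit 1) (nat_lit 5) (nat_lit 315) (nat_lit 220) r6_315 r9_220 (nat_lit 0) (nat_lit 25547425) (nat_lit 0) (nat_lit 0x7ed7c15fe) (nat_lit 582171937),
  Rx.mk (nat_lit 78) (nat_lit 6) (nat_lit 1) (nat_lit 1) (nat_lit 7) (nat_lit 317) (nat_lit 222) r6_317 r9_222 (nat_lit 0) (nat_lit 0) (nat_lit 0) (nat_lit 0x8017985b4) (nat_lit 536870912),
  Rx.mk (nat_lit 86) (nat_lit 6) (nat_lit 2) (nat_lit 1) (nat_lit 7) (nat_lit 318) (nat_lit 223) r6_318 r9_223 (nat_lit 0) (nat_lit 0) (nat_lit 0) (nat_lit 0x8017985b4) (nat_lit 536870912),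
  Rx.mk (nat_lit 326) (nat_lit 6) (nat_lit 0) (nat_lit 5) (nat_lit 5) (nat_lit 314) (nat_lit 219) r6_314 r9_219 (nat_lit 0) (nat_lit 24741287) (nat_lit 0) (nat_lit 0x7fbf624bc) (nat_lit 567020899),
  Rx.mk (nat_lit 334) (nat_lit 6) (nat_lit 1) (nat_lit 5) (nat_lit 7) (nat_lit 316) (nat_lit 221) r6_316 r9_221 (nat_lit 0) (nat_lit 0) (nat_lit 0) (nat_lit 0x8017985b4) (nat_lit 536870912)]
noncomputable def e35_22 : List Rx := [
  Rx.mk (nat_lit 266) (nat_lit 2) (nat_lit 1) (nat_lit 4) (nat_lit 3) (nat_lit 279) (nat_lit 222) r6_279 r0_222 (nat_lit 0) (nat_lit 0) (nat_lit 52275) (nat_lit 0x8149ad206) (nat_lit 517293887),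
  Rx.mk (nat_lit 270) (nat_lit 6) (nat_lit 1) (nat_lit 4) (nat_lit 3) (nat_lit 278) (nat_lit 223) r6_278 r0_223 (nat_lit 0) (nat_lit 0) (nat_lit 15883932) (nat_lit 0x7b9d7068c) (nat_lit 624376294)]
noncomputable def e35_23 : List Rx := [
  Rx.mk (nat_lit 266) (nat_lit 2) (nat_lit 1) (nat_lit 4) (nat_lit 3) (nat_lit 299) (nat_lit 240) r6_299 r1_240 (nat_lit 0) (nat_lit 0) (nat_lit 861113) (nat_lit 0x81f140aa4) (nat_lit 508285625),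
  Rx.mk (nat_lit 270) (nat_lit 6) (nat_lit 1) (nat_lit 4) (nat_lit 3) (nat_lit 298) (nat_lit 241) r6_298 r1_241 (nat_lit 0) (nat_lit 0) (nat_lit 15511582) (nat_lit 0x81bcd1ade) (nat_lit 526733344)]
noncomputable def e35_24 : List Rx := [
  Rx.mk (nat_lit 258) (nat_lit 2) (nat_lit 0) (nat_lit 4) (nat_lit 1) (nat_lit 338) (nat_lit 217) r6_338 r4_217 (nat_lit 0) (nat_lit 129197) (nat_lit 164206) (nat_lit 0x795e5323a) (nat_lit 644442165),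
  Rx.mk (nat_lit 262) (nat_lit 6) (nat_lit 0) (nat_lit 4) (nat_lit 1) (nat_lit 337) (nat_lit 220) r6_337 r4_220 (nat_lit 0) (nat_lit 3315579) (nat_lit 4357312) (nat_lit 0x66141debc) (nat_lit 964156353),
  Rx.mk (nat_lit 266) (nat_lit 2) (nat_lit 1) (nat_lit 4) (nat_lit 3) (nat_lit 341) (nat_lit 218) r6_341 r4_218 (nat_lit 0) (nat_lit 0) (nat_lit 12015582) (nat_lit 0x8043b9b16) (nat_lit 546056094),
  Rx.mk (nat_lit 270) (nat_lit 6) (nat_lit 1) (nat_lit 4) (nat_lit 3) (nat_lit 340) (nat_lit 221) r6_340 r4_221 (nat_lit 0) (nat_lit 0) (nat_lit 9659627) (nat_lit 0x7fc83bdd6) (nat_lit 551234539),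
  Rx.mk (nat_lit 282) (nat_lit 2) (nat_lit 3) (nat_lit 4) (nat_lit 3) (nat_lit 343) (nat_lit 219) r6_343 r4_219 (nat_lit 0) (nat_lit 0) (nat_lit 14660822) (nat_lit 0x80a2e9ac8) (nat_lit 542985584),
  Rx.mk (nat_lit 454) (nat_lit 6) (nat_lit 0) (nat_lit 7) (nat_lit 5) (nat_lit 339) (nat_lit 222) r6_339 r4_222 (nat_lit 0) (nat_lit 79150) (nat_lit 0) (nat_lit 0x53f546c4e) (nat_lit 1249167362),
  Rx.mk (nat_lit 462) (nat_lit 6) (nat_lit 1) (nat_lit 7) (nat_lit 7) (nat_lit 342) (nat_lit 223) r6_342 r4_223 (nat_lit 0) (nat_lit 0) (nat_lit 0) (nat_lit 0x801c163de) (nat_lit 536140862)]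
noncomputable def e35_25 : List Rx := [
  Rx.mk (nat_lit 266) (nat_lit 2) (nat_lit 1) (nat_lit 4) (nat_lit 3) (nat_lit 283) (nat_lit 284) r6_283 r7_284 (nat_lit 0) (nat_lit 0) (nat_lit 8941730) (nat_lit 0x81ee95fca) (nat_lit 517221742),
  Rx.mk (nat_lit 270) (nat_lit 6) (nat_lit 1) (nat_lit 4) (nat_lit 3) (nat_lit 282) (nat_lit 282) r6_282 r7_282 (nat_lit 0) (nat_lit 0) (nat_lit 10459655) (nat_lit 0x80ee2cb7a) (nat_lit 534173067),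
  Rx.mk (nat_lit 322) (nat_lit 2) (nat_lit 0) (nat_lit 5) (nat_lit 5) (nat_lit 281) (nat_lit 281) r6_281 r7_281 (nat_lit 0) (nat_lit 10459655) (nat_lit 0) (nat_lit 0x80ee2cb7a) (nat_lit 534173067),
  Rx.mk (nat_lit 326) (nat_lit 6) (nat_lit 0) (nat_lit 5) (nat_lit 5) (nat_lit 280) (nat_lit 280) r6_280 r7_280 (nat_lit 0) (nat_lit 8941730) (nat_lit 0) (nat_lit 0x81ee95fca) (nat_lit 517221742),
  Rx.mk (nat_lit 330) (nat_lit 2) (nat_lit 1) (nat_lit 5) (nat_lit 7) (nat_lit 285) (nat_lit 285) r6_285 r7_285 (nat_lit 0) (nat_lit 0) (nat_lit 0) (nat_lit 0x80830e500) (nat_lit 530283612),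
  Rx.mk (nat_lit 334) (nat_lit 6) (nat_lit 1) (nat_lit 5) (nat_lit 7) (nat_lit 284) (nat_lit 283) r6_284 r7_283 (nat_lit 0) (nat_lit 0) (nat_lit 0) (nat_lit 0x80830e500) (nat_lit 530283612)]
noncomputable def e35_26 : List Rx := [
  Rx.mk (nat_lit 266) (nat_lit 2) (nat_lit 1) (nat_lit 4) (nat_lit 3) (nat_lit 301) (nat_lit 216) r6_301 r8_216 (nat_lit 0) (nat_lit 0) (nat_lit 11102784) (nat_lit 0x80e83c530) (nat_lit 535184746),
  Rx.mk (nat_lit 270) (nat_lit 6) (nat_lit 1) (nat_lit 4) (nat_lit 3) (nat_lit 300) (nat_lit 214) r6_300 r8_214 (nat_lit 0) (nat_lit 0) (nat_lit 24741287) (nat_lit 0x8017985b4) (nat_lit 561612199),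
  Rx.mk (nat_lit 330) (nat_lit 2) (nat_lit 1) (nat_lit 5) (nat_lit 7) (nat_lit 303) (nat_lit 217) r6_303 r8_217 (nat_lit 0) (nat_lit 0) (nat_lit 0) (nat_lit 0x8017985b4) (nat_lit 536870912),
  Rx.mk (nat_lit 334) (nat_lit 6) (nat_lit 1) (nat_lit 5) (nat_lit 7) (nat_lit 302) (nat_lit 215) r6_302 r8_215 (nat_lit 0) (nat_lit 0) (nat_lit 0) (nat_lit 0x8017985b4) (nat_lit 536870912)]
noncomputable def e35_27 : List Rx := [
  Rx.mk (nat_lit 322) (nat_lit 2) (nat_lit 0) (nat_lit 5) (nat_lit 5) (nat_lit 311) (nat_lit 214) r6_311 r8_214 (nat_lit 0) (nat_lit 24741287) (nat_lit 0) (nat_lit 0x8017985b4) (nat_lit 561612199),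
  Rx.mk (nat_lit 326) (nat_lit 6) (nat_lit 0) (nat_lit 5) (nat_lit 5) (nat_lit 310) (nat_lit 216) r6_310 r8_216 (nat_lit 0) (nat_lit 11102784) (nat_lit 0) (nat_lit 0x80e83c530) (nat_lit 535184746),
  Rx.mk (nat_lit 330) (nat_lit 2) (nat_lit 1) (nat_lit 5) (nat_lit 7) (nat_lit 313) (nat_lit 215) r6_313 r8_215 (nat_lit 0) (nat_lit 0) (nat_lit 0) (nat_lit 0x8017985b4) (nat_lit 536870912),
  Rx.mk (nat_lit 334) (nat_lit 6) (nat_lit 1) (nat_lit 5) (nat_lit 7) (nat_lit 312) (nat_lit 217) r6_312 r8_217 (nat_lit 0) (nat_lit 0) (nat_lit 0) (nat_lit 0x8017985b4) (nat_lit 536870912)]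
noncomputable def e35_28 : List Rx := [
  Rx.mk (nat_lit 258) (nat_lit 2) (nat_lit 0) (nat_lit 4) (nat_lit 1) (nat_lit 345) (nat_lit 228) r6_345 r10_228 (nat_lit 0) (nat_lit 2379676) (nat_lit 2476245) (nat_lit 0x72757b8ec) (nat_lit 761113833),
  Rx.mk (nat_lit 262) (nat_lit 6) (nat_lit 0) (nat_lit 4) (nat_lit 1) (nat_lit 344) (nat_lit 225) r6_344 r10_225 (nat_lit 0) (nat_lit 2476245) (nat_lit 2379676) (nat_lit 0x72757b8ec) (nat_lit 761113833),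
  Rx.mk (nat_lit 266) (nat_lit 2) (nat_lit 1) (nat_lit 4) (nat_lit 3) (nat_lit 350) (nat_lit 233) r6_350 r10_233 (nat_lit 0) (nat_lit 0) (nat_lit 11707184) (nat_lit 0x8125d3a2e) (nat_lit 532088296),
  Rx.mk (nat_lit 270) (nat_lit 6) (nat_lit 1) (nat_lit 4) (nat_lit 3) (nat_lit 349) (nat_lit 230) r6_349 r10_230 (nat_lit 0) (nat_lit 0) (nat_lit 14712556) (nat_lit 0x80ba6dfaa) (nat_lit 541613868),
  Rx.mk (nat_lit 282) (nat_lit 2) (nat_lit 3) (nat_lit 4) (nat_lit 3) (nat_lit 354) (nat_lit 235) r6_354 r10_235 (nat_lit 0) (nat_lit 0) (nat_lit 11706733) (nat_lit 0x8125d7dc2) (nat_lit 532086845),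
  Rx.mk (nat_lit 322) (nat_lit 2) (nat_lit 0) (nat_lit 5) (nat_lit 5) (nat_lit 347) (nat_lit 229) r6_347 r10_229 (nat_lit 0) (nat_lit 14712556) (nat_lit 0) (nat_lit 0x80ba6dfaa) (nat_lit 541613868),
  Rx.mk (nat_lit 326) (nat_lit 6) (nat_lit 0) (nat_lit 5) (nat_lit 5) (nat_lit 346) (nat_lit 226) r6_346 r10_226 (nat_lit 0) (nat_lit 11707184) (nat_lit 0) (nat_lit 0x8125d3a2e) (nat_lit 532088296),
  Rx.mk (nat_lit 330) (nat_lit 2) (nat_lit 1) (nat_lit 5) (nat_lit 7) (nat_lit 352) (nat_lit 234) r6_352 r10_234 (nat_lit 0) (nat_lit 0) (nat_lit 0) (nat_lit 0x8017985b4) (nat_lit 536870912),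
  Rx.mk (nat_lit 334) (nat_lit 6) (nat_lit 1) (nat_lit 5) (nat_lit 7) (nat_lit 351) (nat_lit 231) r6_351 r10_231 (nat_lit 0) (nat_lit 0) (nat_lit 0) (nat_lit 0x8017985b4) (nat_lit 536870912),
  Rx.mk (nat_lit 346) (nat_lit 2) (nat_lit 3) (nat_lit 5) (nat_lit 7) (nat_lit 355) (nat_lit 236) r6_355 r10_236 (nat_lit 0) (nat_lit 0) (nat_lit 0) (nat_lit 0x8017985b4) (nat_lit 536870912),
  Rx.mk (nat_lit 454) (nat_lit 6) (nat_lit 0) (nat_lit 7) (nat_lit 5) (nat_lit 348) (nat_lit 227) r6_348 r10_227 (nat_lit 0) (nat_lit 11706733) (nat_lit 0) (nat_lit 0x8125d7dc2) (nat_lit 532086845),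
  Rx.mk (nat_lit 462) (nat_lit 6) (nat_lit 1) (nat_lit 7) (nat_lit 7) (nat_lit 353) (nat_lit 232) r6_353 r10_232 (nat_lit 0) (nat_lit 0) (nat_lit 0) (nat_lit 0x8017985b4) (nat_lit 536870912)]
noncomputable def e35_29 : List Rx := [
  Rx.mk (nat_lit 258) (nat_lit 2) (nat_lit 0) (nat_lit 4) (nat_lit 1) (nat_lit 356) (nat_lit 267) r6_356 r11_267 (nat_lit 0) (nat_lit 5190488) (nat_lit 5930575) (nat_lit 0x76ef41074) (nat_lit 695185625),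
  Rx.mk (nat_lit 266) (nat_lit 2) (nat_lit 1) (nat_lit 4) (nat_lit 3) (nat_lit 359) (nat_lit 270) r6_359 r11_270 (nat_lit 0) (nat_lit 0) (nat_lit 17138393) (nat_lit 0x806f00630) (nat_lit 548606105),
  Rx.mk (nat_lit 282) (nat_lit 2) (nat_lit 3) (nat_lit 4) (nat_lit 3) (nat_lit 362) (nat_lit 272) r6_362 r11_272 (nat_lit 0) (nat_lit 0) (nat_lit 24741287) (nat_lit 0x8017985b4) (nat_lit 561612199),
  Rx.mk (nat_lit 450) (nat_lit 2) (nat_lit 0) (nat_lit 7) (nat_lit 5) (nat_lit 358) (nat_lit 268) r6_358 r11_268 (nat_lit 0) (nat_lit 18945663) (nat_lit 0) (nat_lit 0x804f12fb2) (nat_lit 552405325),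
  Rx.mk (nat_lit 454) (nat_lit 6) (nat_lit 0) (nat_lit 7) (nat_lit 5) (nat_lit 357) (nat_lit 266) r6_357 r11_266 (nat_lit 0) (nat_lit 4488265) (nat_lit 0) (nat_lit 0x805dc6720) (nat_lit 536687177),
  Rx.mk (nat_lit 458) (nat_lit 2) (nat_lit 1) (nat_lit 7) (nat_lit 7) (nat_lit 361) (nat_lit 271) r6_361 r11_271 (nat_lit 0) (nat_lit 0) (nat_lit 0) (nat_lit 0x8017985b4) (nat_lit 536870912),
  Rx.mk (nat_lit 462) (nat_lit 6) (nat_lit 1) (nat_lit 7) (nat_lit 7) (nat_lit 360) (nat_lit 269) r6_360 r11_269 (nat_lit 0) (nat_lit 0) (nat_lit 0) (nat_lit 0x84800501c) (nat_lit 468941562)]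
noncomputable def e35_30 : List Rx := [
  Rx.mk (nat_lit 20) (nat_lit 4) (nat_lit 2) (nat_lit 0) (nat_lit 2) (nat_lit 90) (nat_lit 70) r6_90 r5_70 (nat_lit 151381) (nat_lit 0) (nat_lit 214613) (nat_lit 0x7f84aacac) (nat_lit 545085756),
  Rx.mk (nat_lit 22) (nat_lit 6) (nat_lit 2) (nat_lit 0) (nat_lit 3) (nat_lit 91) (nat_lit 72) r6_91 r5_72 (nat_lit 0) (nat_lit 0) (nat_lit 7478372) (nat_lit 0x7e7bc2848) (nat_lit 569688734),
  Rx.mk (nat_lit 23) (nat_lit 7) (nat_lit 2) (nat_lit 0) (nat_lit 3) (nat_lit 92) (nat_lit 71) r6_92 r5_71 (nat_lit 0) (nat_lit 0) (nat_lit 5517824) (nat_lit 0x80fe04cf0) (nat_lit 528080236),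
  Rx.mk (nat_lit 148) (nat_lit 4) (nat_lit 2) (nat_lit 2) (nat_lit 6) (nat_lit 93) (nat_lit 78) r6_93 r5_78 (nat_lit 14912566) (nat_lit 0) (nat_lit 0) (nat_lit 0x7ad02e7c8) (nat_lit 636403678),
  Rx.mk (nat_lit 151) (nat_lit 7) (nat_lit 2) (nat_lit 2) (nat_lit 7) (nat_lit 94) (nat_lit 79) r6_94 r5_79 (nat_lit 0) (nat_lit 0) (nat_lit 0) (nat_lit 0x7df8696ea) (nat_lit 570525862),
  Rx.mk (nat_lit 183) (nat_lit 7) (nat_lit 6) (nat_lit 2) (nat_lit 7) (nat_lit 88) (nat_lit 77) r6_88 r5_77 (nat_lit 0) (nat_lit 0) (nat_lit 0) (nat_lit 0x7adbdb5da) (nat_lit 620253362),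
  Rx.mk (nat_lit 198) (nat_lit 6) (nat_lit 0) (nat_lit 3) (nat_lit 5) (nat_lit 89) (nat_lit 73) r6_89 r5_73 (nat_lit 0) (nat_lit 6235362) (nat_lit 0) (nat_lit 0x7e4c9eb16) (nat_lit 571302074),
  Rx.mk (nat_lit 212) (nat_lit 4) (nat_lit 2) (nat_lit 3) (nat_lit 6) (nat_lit 95) (nat_lit 75) r6_95 r5_75 (nat_lit 506970) (nat_lit 0) (nat_lit 0) (nat_lit 0x8036353fa) (nat_lit 534398782),
  Rx.mk (nat_lit 214) (nat_lit 6) (nat_lit 2) (nat_lit 3) (nat_lit 7) (nat_lit 96) (nat_lit 76) r6_96 r5_76 (nat_lit 0) (nat_lit 0) (nat_lit 0) (nat_lit 0x8de7568e8) (nat_lit 325388962),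
  Rx.mk (nat_lit 222) (nat_lit 6) (nat_lit 3) (nat_lit 3) (nat_lit 7) (nat_lit 97) (nat_lit 74) r6_97 r5_74 (nat_lit 0) (nat_lit 0) (nat_lit 0) (nat_lit 0x7ffe6318e) (nat_lit 538324412)]
noncomputable def e35_31 : List Rx := [
  Rx.mk (nat_lit 6) (nat_lit 6) (nat_lit 0) (nat_lit 0) (nat_lit 1) (nat_lit 224) (nat_lit 53) r6_224 r11_53 (nat_lit 0) (nat_lit 17592133) (nat_lit 11453294) (nat_lit 0x79c89e50e) (nat_lit 667174639),
  Rx.mk (nat_lit 20) (nat_lit 4) (nat_lit 2) (nat_lit 0) (nat_lit 2) (nat_lit 227) (nat_lit 54) r6_227 r11_54 (nat_lit 8232258) (nat_lit 0) (nat_lit 8887259) (nat_lit 0x752a94a10) (nat_lit 729817329),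
  Rx.mk (nat_lit 22) (nat_lit 6) (nat_lit 2) (nat_lit 0) (nat_lit 3) (nat_lit 228) (nat_lit 56) r6_228 r11_56 (nat_lit 0) (nat_lit 0) (nat_lit 11833070) (nat_lit 0x80dfff796) (nat_lit 536433782),
  Rx.mk (nat_lit 23) (nat_lit 7) (nat_lit 2) (nat_lit 0) (nat_lit 3) (nat_lit 229) (nat_lit 55) r6_229 r11_55 (nat_lit 0) (nat_lit 0) (nat_lit 20819956) (nat_lit 0x80443f36a) (nat_lit 554944468),
  Rx.mk (nat_lit 70) (nat_lit 6) (nat_lit 0) (nat_lit 1) (nat_lit 5) (nat_lit 225) (nat_lit 57) r6_225 r11_57 (nat_lit 0) (nat_lit 23560195) (nat_lit 0) (nat_lit 0x8006b0be8) (nat_lit 561461107),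
  Rx.mk (nat_lit 84) (nat_lit 4) (nat_lit 2) (nat_lit 1) (nat_lit 6) (nat_lit 230) (nat_lit 58) r6_230 r11_58 (nat_lit 24863851) (nat_lit 0) (nat_lit 0) (nat_lit 0x80051da7e) (nat_lit 562865263),
  Rx.mk (nat_lit 86) (nat_lit 6) (nat_lit 2) (nat_lit 1) (nat_lit 7) (nat_lit 231) (nat_lit 60) r6_231 r11_60 (nat_lit 0) (nat_lit 0) (nat_lit 0) (nat_lit 0x8017985b4) (nat_lit 536870912),
  Rx.mk (nat_lit 87) (nat_lit 7) (nat_lit 2) (nat_lit 1) (nat_lit 7) (nat_lit 232) (nat_lit 59) r6_232 r11_59 (nat_lit 0) (nat_lit 0) (nat_lit 0) (nat_lit 0x8017985b4) (nat_lit 536870912),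
  Rx.mk (nat_lit 148) (nat_lit 4) (nat_lit 2) (nat_lit 2) (nat_lit 6) (nat_lit 233) (nat_lit 66) r6_233 r11_66 (nat_lit 24741287) (nat_lit 0) (nat_lit 0) (nat_lit 0x8017985b4) (nat_lit 561612199),
  Rx.mk (nat_lit 151) (nat_lit 7) (nat_lit 2) (nat_lit 2) (nat_lit 7) (nat_lit 234) (nat_lit 67) r6_234 r11_67 (nat_lit 0) (nat_lit 0) (nat_lit 0) (nat_lit 0x8017985b4) (nat_lit 536870912),
  Rx.mk (nat_lit 183) (nat_lit 7) (nat_lit 6) (nat_lit 2) (nat_lit 7) (nat_lit 223) (nat_lit 65) r6_223 r11_65 (nat_lit 0) (nat_lit 0) (nat_lit 0) (nat_lit 0x822812b0e) (nat_lit 504804312),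
  Rx.mk (nat_lit 198) (nat_lit 6) (nat_lit 0) (nat_lit 3) (nat_lit 5) (nat_lit 226) (nat_lit 61) r6_226 r11_61 (nat_lit 0) (nat_lit 26850297) (nat_lit 0) (nat_lit 0x80135a3c6) (nat_lit 563945709),
  Rx.mk (nat_lit 212) (nat_lit 4) (nat_lit 2) (nat_lit 3) (nat_lit 6) (nat_lit 235) (nat_lit 63) r6_235 r11_63 (nat_lit 24741287) (nat_lit 0) (nat_lit 0) (nat_lit 0x8017985b4) (nat_lit 561612199),
  Rx.mk (nat_lit 214) (nat_lit 6) (nat_lit 2) (nat_lit 3) (nat_lit 7) (nat_lit 236) (nat_lit 64) r6_236 r11_64 (nat_lit 0) (nat_lit 0) (nat_lit 0) (nat_lit 0x8017985b4) (nat_lit 536870912),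
  Rx.mk (nat_lit 222) (nat_lit 6) (nat_lit 3) (nat_lit 3) (nat_lit 7) (nat_lit 237) (nat_lit 62) r6_237 r11_62 (nat_lit 0) (nat_lit 0) (nat_lit 0) (nat_lit 0x8017985b4) (nat_lit 536870912)]
noncomputable def e35_32 : List Rx := [
  Rx.mk (nat_lit 282) (nat_lit 2) (nat_lit 3) (nat_lit 4) (nat_lit 3) (nat_lit 262) (nat_lit 262) r6_262 r6_262 (nat_lit 0) (nat_lit 0) (nat_lit 646033) (nat_lit 0x7f96cb490) (nat_lit 544399195),
  Rx.mk (nat_lit 286) (nat_lit 6) (nat_lit 3) (nat_lit 4) (nat_lit 3) (nat_lit 261) (nat_lit 257) r6_261 r6_257 (nat_lit 0) (nat_lit 0) (nat_lit 4142685) (nat_lit 0x7fb361866) (nat_lit 546673497),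
  Rx.mk (nat_lit 314) (nat_lit 2) (nat_lit 7) (nat_lit 4) (nat_lit 3) (nat_lit 257) (nat_lit 261) r6_257 r6_261 (nat_lit 0) (nat_lit 0) (nat_lit 4142685) (nat_lit 0x7fb361866) (nat_lit 546673497),
  Rx.mk (nat_lit 440) (nat_lit 0) (nat_lit 7) (nat_lit 6) (nat_lit 6) (nat_lit 258) (nat_lit 260) r6_258 r6_260 (nat_lit 444414) (nat_lit 0) (nat_lit 0) (nat_lit 0x7fdf18cb6) (nat_lit 539578826),
  Rx.mk (nat_lit 442) (nat_lit 2) (nat_lit 7) (nat_lit 6) (nat_lit 7) (nat_lit 259) (nat_lit 263) r6_259 r6_263 (nat_lit 0) (nat_lit 0) (nat_lit 0) (nat_lit 0x8541a12d4) (nat_lit 457207412),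
  Rx.mk (nat_lit 454) (nat_lit 6) (nat_lit 0) (nat_lit 7) (nat_lit 5) (nat_lit 260) (nat_lit 258) r6_260 r6_258 (nat_lit 0) (nat_lit 444414) (nat_lit 0) (nat_lit 0x7fdf18cb6) (nat_lit 539578826),
  Rx.mk (nat_lit 478) (nat_lit 6) (nat_lit 3) (nat_lit 7) (nat_lit 7) (nat_lit 263) (nat_lit 259) r6_263 r6_259 (nat_lit 0) (nat_lit 0) (nat_lit 0) (nat_lit 0x8541a12d4) (nat_lit 457207412)]
noncomputable def e35_33 : List Rx := [
  Rx.mk (nat_lit 262) (nat_lit 6) (nat_lit 0) (nat_lit 4) (nat_lit 1) (nat_lit 363) (nat_lit 232) r6_363 r5_232 (nat_lit 0) (nat_lit 1266917) (nat_lit 1379852) (nat_lit 0x7a2fc99c2) (nat_lit 633790631),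
  Rx.mk (nat_lit 282) (nat_lit 2) (nat_lit 3) (nat_lit 4) (nat_lit 3) (nat_lit 366) (nat_lit 231) r6_366 r5_231 (nat_lit 0) (nat_lit 0) (nat_lit 64873) (nat_lit 0x800bef67c) (nat_lit 536253635),
  Rx.mk (nat_lit 286) (nat_lit 6) (nat_lit 3) (nat_lit 4) (nat_lit 3) (nat_lit 365) (nat_lit 233) r6_365 r5_233 (nat_lit 0) (nat_lit 0) (nat_lit 4400993) (nat_lit 0x831fc2ff2) (nat_lit 494248105),
  Rx.mk (nat_lit 454) (nat_lit 6) (nat_lit 0) (nat_lit 7) (nat_lit 5) (nat_lit 364) (nat_lit 234) r6_364 r5_234 (nat_lit 0) (nat_lit 745573) (nat_lit 0) (nat_lit 0x806c92614) (nat_lit 531405435)]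
noncomputable def e35_34 : List Rx := [
  Rx.mk (nat_lit 262) (nat_lit 6) (nat_lit 0) (nat_lit 4) (nat_lit 1) (nat_lit 367) (nat_lit 267) r6_367 r11_267 (nat_lit 0) (nat_lit 5930575) (nat_lit 5190488) (nat_lit 0x76ef41074) (nat_lit 695185625),
  Rx.mk (nat_lit 282) (nat_lit 2) (nat_lit 3) (nat_lit 4) (nat_lit 3) (nat_lit 371) (nat_lit 266) r6_371 r11_266 (nat_lit 0) (nat_lit 0) (nat_lit 4488265) (nat_lit 0x805dc6720) (nat_lit 536687177),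
  Rx.mk (nat_lit 286) (nat_lit 6) (nat_lit 3) (nat_lit 4) (nat_lit 3) (nat_lit 370) (nat_lit 268) r6_370 r11_268 (nat_lit 0) (nat_lit 0) (nat_lit 18945663) (nat_lit 0x804f12fb2) (nat_lit 552405325),
  Rx.mk (nat_lit 326) (nat_lit 6) (nat_lit 0) (nat_lit 5) (nat_lit 5) (nat_lit 368) (nat_lit 270) r6_368 r11_270 (nat_lit 0) (nat_lit 17138393) (nat_lit 0) (nat_lit 0x806f00630) (nat_lit 548606105),
  Rx.mk (nat_lit 346) (nat_lit 2) (nat_lit 3) (nat_lit 5) (nat_lit 7) (nat_lit 373) (nat_lit 269) r6_373 r11_269 (nat_lit 0) (nat_lit 0) (nat_lit 0) (nat_lit 0x84800501c) (nat_lit 468941562),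
  Rx.mk (nat_lit 350) (nat_lit 6) (nat_lit 3) (nat_lit 5) (nat_lit 7) (nat_lit 372) (nat_lit 271) r6_372 r11_271 (nat_lit 0) (nat_lit 0) (nat_lit 0) (nat_lit 0x8017985b4) (nat_lit 536870912),
  Rx.mk (nat_lit 454) (nat_lit 6) (nat_lit 0) (nat_lit 7) (nat_lit 5) (nat_lit 369) (nat_lit 272) r6_369 r11_272 (nat_lit 0) (nat_lit 24741287) (nat_lit 0) (nat_lit 0x8017985b4) (nat_lit 561612199)]
noncomputable def e35_35 : List Rx := [
  Rx.mk (nat_lit 23) (nat_lit 7) (nat_lit 2) (nat_lit 0) (nat_lit 3) (nat_lit 80) (nat_lit 74) r6_80 r6_74 (nat_lit 0) (nat_lit 0) (nat_lit 76275) (nat_lit 0x800fab450) (nat_lit 536056587),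
  Rx.mk (nat_lit 151) (nat_lit 7) (nat_lit 2) (nat_lit 2) (nat_lit 7) (nat_lit 81) (nat_lit 78) r6_81 r6_78 (nat_lit 0) (nat_lit 0) (nat_lit 0) (nat_lit 0x730ac3224) (nat_lit 747014662),
  Rx.mk (nat_lit 179) (nat_lit 3) (nat_lit 6) (nat_lit 2) (nat_lit 7) (nat_lit 73) (nat_lit 85) r6_73 r6_85 (nat_lit 0) (nat_lit 0) (nat_lit 0) (nat_lit 0x7fccb13b6) (nat_lit 540272512),
  Rx.mk (nat_lit 183) (nat_lit 7) (nat_lit 6) (nat_lit 2) (nat_lit 7) (nat_lit 72) (nat_lit 86) r6_72 r6_86 (nat_lit 0) (nat_lit 0) (nat_lit 0) (nat_lit 0x7fccb13b6) (nat_lit 540272512),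
  Rx.mk (nat_lit 198) (nat_lit 6) (nat_lit 0) (nat_lit 3) (nat_lit 5) (nat_lit 79) (nat_lit 70) r6_79 r6_70 (nat_lit 0) (nat_lit 76275) (nat_lit 0) (nat_lit 0x800fab450) (nat_lit 536056587),
  Rx.mk (nat_lit 212) (nat_lit 4) (nat_lit 2) (nat_lit 3) (nat_lit 6) (nat_lit 82) (nat_lit 75) r6_82 r6_75 (nat_lit 152124) (nat_lit 0) (nat_lit 0) (nat_lit 0x7f97972ac) (nat_lit 543671286),
  Rx.mk (nat_lit 214) (nat_lit 6) (nat_lit 2) (nat_lit 3) (nat_lit 7) (nat_lit 83) (nat_lit 77) r6_83 r6_77 (nat_lit 0) (nat_lit 0) (nat_lit 0) (nat_lit 0x803a62b4e) (nat_lit 533579562),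
  Rx.mk (nat_lit 215) (nat_lit 7) (nat_lit 2) (nat_lit 3) (nat_lit 7) (nat_lit 84) (nat_lit 76) r6_84 r6_76 (nat_lit 0) (nat_lit 0) (nat_lit 0) (nat_lit 0x803a62b4e) (nat_lit 533579562),
  Rx.mk (nat_lit 222) (nat_lit 6) (nat_lit 3) (nat_lit 3) (nat_lit 7) (nat_lit 87) (nat_lit 71) r6_87 r6_71 (nat_lit 0) (nat_lit 0) (nat_lit 0) (nat_lit 0x730ac3224) (nat_lit 747014662),
  Rx.mk (nat_lit 314) (nat_lit 2) (nat_lit 7) (nat_lit 4) (nat_lit 3) (nat_lit 74) (nat_lit 80) r6_74 r6_80 (nat_lit 0) (nat_lit 0) (nat_lit 76275) (nat_lit 0x800fab450) (nat_lit 536056587),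
  Rx.mk (nat_lit 419) (nat_lit 3) (nat_lit 4) (nat_lit 6) (nat_lit 5) (nat_lit 70) (nat_lit 79) r6_70 r6_79 (nat_lit 0) (nat_lit 76275) (nat_lit 0) (nat_lit 0x800fab450) (nat_lit 536056587),
  Rx.mk (nat_lit 435) (nat_lit 3) (nat_lit 6) (nat_lit 6) (nat_lit 7) (nat_lit 71) (nat_lit 87) r6_71 r6_87 (nat_lit 0) (nat_lit 0) (nat_lit 0) (nat_lit 0x730ac3224) (nat_lit 747014662),
  Rx.mk (nat_lit 440) (nat_lit 0) (nat_lit 7) (nat_lit 6) (nat_lit 6) (nat_lit 75) (nat_lit 82) r6_75 r6_82 (nat_lit 152124) (nat_lit 0) (nat_lit 0) (nat_lit 0x7f97972ac) (nat_lit 543671286),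
  Rx.mk (nat_lit 442) (nat_lit 2) (nat_lit 7) (nat_lit 6) (nat_lit 7) (nat_lit 76) (nat_lit 84) r6_76 r6_84 (nat_lit 0) (nat_lit 0) (nat_lit 0) (nat_lit 0x803a62b4e) (nat_lit 533579562),
  Rx.mk (nat_lit 443) (nat_lit 3) (nat_lit 7) (nat_lit 6) (nat_lit 7) (nat_lit 77) (nat_lit 83) r6_77 r6_83 (nat_lit 0) (nat_lit 0) (nat_lit 0) (nat_lit 0x803a62b4e) (nat_lit 533579562),
  Rx.mk (nat_lit 474) (nat_lit 2) (nat_lit 3) (nat_lit 7) (nat_lit 7) (nat_lit 86) (nat_lit 72) r6_86 r6_72 (nat_lit 0) (nat_lit 0) (nat_lit 0) (nat_lit 0x7fccb13b6) (nat_lit 540272512),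
  Rx.mk (nat_lit 478) (nat_lit 6) (nat_lit 3) (nat_lit 7) (nat_lit 7) (nat_lit 85) (nat_lit 73) r6_85 r6_73 (nat_lit 0) (nat_lit 0) (nat_lit 0) (nat_lit 0x7fccb13b6) (nat_lit 540272512),
  Rx.mk (nat_lit 506) (nat_lit 2) (nat_lit 7) (nat_lit 7) (nat_lit 7) (nat_lit 78) (nat_lit 81) r6_78 r6_81 (nat_lit 0) (nat_lit 0) (nat_lit 0) (nat_lit 0x730ac3224) (nat_lit 747014662)]
noncomputable def e35_36 : List Rx := [
  Rx.mk (nat_lit 198) (nat_lit 6) (nat_lit 0) (nat_lit 3) (nat_lit 5) (nat_lit 269) (nat_lit 296) r6_269 r12_296 (nat_lit 0) (nat_lit 580263) (nat_lit 0) (nat_lit 0x7f28ad08a) (nat_lit 551200875),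
  Rx.mk (nat_lit 212) (nat_lit 4) (nat_lit 2) (nat_lit 3) (nat_lit 6) (nat_lit 270) (nat_lit 294) r6_270 r12_294 (nat_lit 553755) (nat_lit 0) (nat_lit 0) (nat_lit 0x7fb8fc4c4) (nat_lit 542151267),
  Rx.mk (nat_lit 214) (nat_lit 6) (nat_lit 2) (nat_lit 3) (nat_lit 7) (nat_lit 271) (nat_lit 299) r6_271 r12_299 (nat_lit 0) (nat_lit 0) (nat_lit 0) (nat_lit 0x83d678a8a) (nat_lit 478658912),
  Rx.mk (nat_lit 215) (nat_lit 7) (nat_lit 2) (nat_lit 3) (nat_lit 7) (nat_lit 272) (nat_lit 295) r6_272 r12_295 (nat_lit 0) (nat_lit 0) (nat_lit 0) (nat_lit 0x82c9245f6) (nat_lit 494708962),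
  Rx.mk (nat_lit 282) (nat_lit 2) (nat_lit 3) (nat_lit 4) (nat_lit 3) (nat_lit 273) (nat_lit 290) r6_273 r12_290 (nat_lit 0) (nat_lit 0) (nat_lit 136696) (nat_lit 0x7fdc594a8) (nat_lit 539308358),
  Rx.mk (nat_lit 314) (nat_lit 2) (nat_lit 7) (nat_lit 4) (nat_lit 3) (nat_lit 264) (nat_lit 292) r6_264 r12_292 (nat_lit 0) (nat_lit 0) (nat_lit 580263) (nat_lit 0x7f28ad08a) (nat_lit 551200875),
  Rx.mk (nat_lit 440) (nat_lit 0) (nat_lit 7) (nat_lit 6) (nat_lit 6) (nat_lit 265) (nat_lit 288) r6_265 r12_288 (nat_lit 553755) (nat_lit 0) (nat_lit 0) (nat_lit 0x7fb8fc4c4) (nat_lit 542151267),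
  Rx.mk (nat_lit 442) (nat_lit 2) (nat_lit 7) (nat_lit 6) (nat_lit 7) (nat_lit 266) (nat_lit 293) r6_266 r12_293 (nat_lit 0) (nat_lit 0) (nat_lit 0) (nat_lit 0x83d678a8a) (nat_lit 478658912),
  Rx.mk (nat_lit 443) (nat_lit 3) (nat_lit 7) (nat_lit 6) (nat_lit 7) (nat_lit 267) (nat_lit 289) r6_267 r12_289 (nat_lit 0) (nat_lit 0) (nat_lit 0) (nat_lit 0x82c9245f6) (nat_lit 494708962),
  Rx.mk (nat_lit 454) (nat_lit 6) (nat_lit 0) (nat_lit 7) (nat_lit 5) (nat_lit 268) (nat_lit 297) r6_268 r12_297 (nat_lit 0) (nat_lit 136696) (nat_lit 0) (nat_lit 0x7fdc594a8) (nat_lit 539308358),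
  Rx.mk (nat_lit 474) (nat_lit 2) (nat_lit 3) (nat_lit 7) (nat_lit 7) (nat_lit 275) (nat_lit 291) r6_275 r12_291 (nat_lit 0) (nat_lit 0) (nat_lit 0) (nat_lit 0x8008848c0) (nat_lit 536614962),
  Rx.mk (nat_lit 478) (nat_lit 6) (nat_lit 3) (nat_lit 7) (nat_lit 7) (nat_lit 274) (nat_lit 298) r6_274 r12_298 (nat_lit 0) (nat_lit 0) (nat_lit 0) (nat_lit 0x8008848c0) (nat_lit 536614962)]
noncomputable def e35_37 : List Rx := [
  Rx.mk (nat_lit 176) (nat_lit 0) (nat_lit 6) (nat_lit 2) (nat_lit 6) (nat_lit 105) (nat_lit 231) r6_105 r0_231 (nat_lit 7518208) (nat_lit 0) (nat_lit 0) (nat_lit 0x737802416) (nat_lit 747659820),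
  Rx.mk (nat_lit 290) (nat_lit 2) (nat_lit 4) (nat_lit 4) (nat_lit 1) (nat_lit 98) (nat_lit 232) r6_98 r0_232 (nat_lit 0) (nat_lit 853516) (nat_lit 961472) (nat_lit 0x7527736a6) (nat_lit 714260500),
  Rx.mk (nat_lit 298) (nat_lit 2) (nat_lit 5) (nat_lit 4) (nat_lit 3) (nat_lit 101) (nat_lit 233) r6_101 r0_233 (nat_lit 0) (nat_lit 0) (nat_lit 727303) (nat_lit 0x864e745a0) (nat_lit 441614815),
  Rx.mk (nat_lit 416) (nat_lit 0) (nat_lit 4) (nat_lit 6) (nat_lit 4) (nat_lit 99) (nat_lit 228) r6_99 r0_228 (nat_lit 549304) (nat_lit 476596) (nat_lit 0) (nat_lit 0x63aaea0f0) (nat_lit 996170062),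
  Rx.mk (nat_lit 418) (nat_lit 2) (nat_lit 4) (nat_lit 6) (nat_lit 5) (nat_lit 100) (nat_lit 234) r6_100 r0_234 (nat_lit 0) (nat_lit 11464009) (nat_lit 0) (nat_lit 0x7fcd39b80) (nat_lit 552812521),
  Rx.mk (nat_lit 424) (nat_lit 0) (nat_lit 5) (nat_lit 6) (nat_lit 6) (nat_lit 102) (nat_lit 229) r6_102 r0_229 (nat_lit 2611205) (nat_lit 0) (nat_lit 0) (nat_lit 0x83a05514c) (nat_lit 484513917),
  Rx.mk (nat_lit 426) (nat_lit 2) (nat_lit 5) (nat_lit 6) (nat_lit 7) (nat_lit 103) (nat_lit 235) r6_103 r0_235 (nat_lit 0) (nat_lit 0) (nat_lit 0) (nat_lit 0x86cc8ff0c) (nat_lit 433849212),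
  Rx.mk (nat_lit 432) (nat_lit 0) (nat_lit 6) (nat_lit 6) (nat_lit 6) (nat_lit 104) (nat_lit 230) r6_104 r0_230 (nat_lit 14019292) (nat_lit 0) (nat_lit 0) (nat_lit 0x774820d34) (nat_lit 692574004)]
noncomputable def e35_38 : List Rx := [
  Rx.mk (nat_lit 176) (nat_lit 0) (nat_lit 6) (nat_lit 2) (nat_lit 6) (nat_lit 5) (nat_lit 85) r6_5 r0_85 (nat_lit 4982960) (nat_lit 0) (nat_lit 0) (nat_lit 0x7f97fd5b6) (nat_lit 549398922),
  Rx.mk (nat_lit 177) (nat_lit 1) (nat_lit 6) (nat_lit 2) (nat_lit 7) (nat_lit 6) (nat_lit 86) r6_6 r0_86 (nat_lit 0) (nat_lit 0) (nat_lit 0) (nat_lit 0x8ecace6ac) (nat_lit 311796962),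
  Rx.mk (nat_lit 416) (nat_lit 0) (nat_lit 4) (nat_lit 6) (nat_lit 4) (nat_lit 0) (nat_lit 82) r6_0 r0_82 (nat_lit 1834824) (nat_lit 2752324) (nat_lit 0) (nat_lit 0x5acd8ab40) (nat_lit 1143327010),
  Rx.mk (nat_lit 417) (nat_lit 1) (nat_lit 4) (nat_lit 6) (nat_lit 5) (nat_lit 1) (nat_lit 83) r6_1 r0_83 (nat_lit 0) (nat_lit 13075147) (nat_lit 0) (nat_lit 0x78e3d9b80) (nat_lit 665603759),
  Rx.mk (nat_lit 418) (nat_lit 2) (nat_lit 4) (nat_lit 6) (nat_lit 5) (nat_lit 2) (nat_lit 84) r6_2 r0_84 (nat_lit 0) (nat_lit 9488112) (nat_lit 0) (nat_lit 0x7869953b0) (nat_lit 669747474),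
  Rx.mk (nat_lit 432) (nat_lit 0) (nat_lit 6) (nat_lit 6) (nat_lit 6) (nat_lit 3) (nat_lit 87) r6_3 r0_87 (nat_lit 18629772) (nat_lit 0) (nat_lit 0) (nat_lit 0x7b316cfbc) (nat_lit 634046784),
  Rx.mk (nat_lit 433) (nat_lit 1) (nat_lit 6) (nat_lit 6) (nat_lit 7) (nat_lit 4) (nat_lit 88) r6_4 r0_88 (nat_lit 0) (nat_lit 0) (nat_lit 0) (nat_lit 0x8116bf43e) (nat_lit 521295912)]
noncomputable def e35_39 : List Rx := [
  Rx.mk (nat_lit 176) (nat_lit 0) (nat_lit 6) (nat_lit 2) (nat_lit 6) (nat_lit 114) (nat_lit 296) r6_114 r7_296 (nat_lit 8290090) (nat_lit 0) (nat_lit 0) (nat_lit 0x80c4482e6) (nat_lit 534483002),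
  Rx.mk (nat_lit 177) (nat_lit 1) (nat_lit 6) (nat_lit 2) (nat_lit 7) (nat_lit 115) (nat_lit 300) r6_115 r7_300 (nat_lit 0) (nat_lit 0) (nat_lit 0) (nat_lit 0x810efde94) (nat_lit 521774762),
  Rx.mk (nat_lit 416) (nat_lit 0) (nat_lit 4) (nat_lit 6) (nat_lit 4) (nat_lit 106) (nat_lit 293) r6_106 r7_293 (nat_lit 3103288) (nat_lit 3417910) (nat_lit 0) (nat_lit 0x6f0f18210) (nat_lit 817792160),
  Rx.mk (nat_lit 417) (nat_lit 1) (nat_lit 4) (nat_lit 6) (nat_lit 5) (nat_lit 107) (nat_lit 297) r6_107 r7_297 (nat_lit 0) (nat_lit 12588522) (nat_lit 0) (nat_lit 0x8109aaa8c) (nat_lit 534683584),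
  Rx.mk (nat_lit 418) (nat_lit 2) (nat_lit 4) (nat_lit 6) (nat_lit 5) (nat_lit 108) (nat_lit 301) r6_108 r7_301 (nat_lit 0) (nat_lit 9429526) (nat_lit 0) (nat_lit 0x80843ba90) (nat_lit 539527188),
  Rx.mk (nat_lit 424) (nat_lit 0) (nat_lit 5) (nat_lit 6) (nat_lit 6) (nat_lit 109) (nat_lit 294) r6_109 r7_294 (nat_lit 10382740) (nat_lit 0) (nat_lit 0) (nat_lit 0x817f374a8) (nat_lit 525372102),
  Rx.mk (nat_lit 425) (nat_lit 1) (nat_lit 5) (nat_lit 6) (nat_lit 7) (nat_lit 110) (nat_lit 298) r6_110 r7_298 (nat_lit 0) (nat_lit 0) (nat_lit 0) (nat_lit 0x806259ae4) (nat_lit 532286612),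
  Rx.mk (nat_lit 426) (nat_lit 2) (nat_lit 5) (nat_lit 6) (nat_lit 7) (nat_lit 111) (nat_lit 302) r6_111 r7_302 (nat_lit 0) (nat_lit 0) (nat_lit 0) (nat_lit 0x80e84372c) (nat_lit 524123412),
  Rx.mk (nat_lit 432) (nat_lit 0) (nat_lit 6) (nat_lit 6) (nat_lit 6) (nat_lit 112) (nat_lit 295) r6_112 r7_295 (nat_lit 24741287) (nat_lit 0) (nat_lit 0) (nat_lit 0x7f4e81a9a) (nat_lit 574017999),
  Rx.mk (nat_lit 433) (nat_lit 1) (nat_lit 6) (nat_lit 6) (nat_lit 7) (nat_lit 113) (nat_lit 299) r6_113 r7_299 (nat_lit 0) (nat_lit 0) (nat_lit 0) (nat_lit 0x8017985b4) (nat_lit 536870912)]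
noncomputable def e35_40 : List Rx := [
  Rx.mk (nat_lit 177) (nat_lit 1) (nat_lit 6) (nat_lit 2) (nat_lit 7) (nat_lit 11) (nat_lit 94) r6_11 r2_94 (nat_lit 0) (nat_lit 0) (nat_lit 0) (nat_lit 0x8017985b4) (nat_lit 536870912),
  Rx.mk (nat_lit 181) (nat_lit 5) (nat_lit 6) (nat_lit 2) (nat_lit 7) (nat_lit 10) (nat_lit 95) r6_10 r2_95 (nat_lit 0) (nat_lit 0) (nat_lit 0) (nat_lit 0x8017985b4) (nat_lit 536870912)]
noncomputable def e35_41 : List Rx := [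
  Rx.mk (nat_lit 177) (nat_lit 1) (nat_lit 6) (nat_lit 2) (nat_lit 7) (nat_lit 127) (nat_lit 61) r6_127 r9_61 (nat_lit 0) (nat_lit 0) (nat_lit 0) (nat_lit 0x8017985b4) (nat_lit 536870912),
  Rx.mk (nat_lit 181) (nat_lit 5) (nat_lit 6) (nat_lit 2) (nat_lit 7) (nat_lit 126) (nat_lit 62) r6_126 r9_62 (nat_lit 0) (nat_lit 0) (nat_lit 0) (nat_lit 0x8017985b4) (nat_lit 536870912)]
noncomputable def e35_42 : List Rx := [
  Rx.mk (nat_lit 177) (nat_lit 1) (nat_lit 6) (nat_lit 2) (nat_lit 7) (nat_lit 169) (nat_lit 62) r6_169 r9_62 (nat_lit 0) (nat_lit 0) (nat_lit 0) (nat_lit 0x8017985b4) (nat_lit 536870912),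
  Rx.mk (nat_lit 181) (nat_lit 5) (nat_lit 6) (nat_lit 2) (nat_lit 7) (nat_lit 168) (nat_lit 61) r6_168 r9_61 (nat_lit 0) (nat_lit 0) (nat_lit 0) (nat_lit 0x8017985b4) (nat_lit 536870912)]
noncomputable def e35_43 : List Rx := [
  Rx.mk (nat_lit 177) (nat_lit 1) (nat_lit 6) (nat_lit 2) (nat_lit 7) (nat_lit 9) (nat_lit 89) r6_9 r1_89 (nat_lit 0) (nat_lit 0) (nat_lit 0) (nat_lit 0x8954d7890) (nat_lit 395152462),
  Rx.mk (nat_lit 417) (nat_lit 1) (nat_lit 4) (nat_lit 6) (nat_lit 5) (nat_lit 7) (nat_lit 88) r6_7 r1_88 (nat_lit 0) (nat_lit 14248724) (nat_lit 0) (nat_lit 0x80a26753c) (nat_lit 542542486),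
  Rx.mk (nat_lit 433) (nat_lit 1) (nat_lit 6) (nat_lit 6) (nat_lit 7) (nat_lit 8) (nat_lit 90) r6_8 r1_90 (nat_lit 0) (nat_lit 0) (nat_lit 0) (nat_lit 0x80add07a2) (nat_lit 527662962)]
noncomputable def e35_44 : List Rx := [
  Rx.mk (nat_lit 177) (nat_lit 1) (nat_lit 6) (nat_lit 2) (nat_lit 7) (nat_lit 125) (nat_lit 224) r6_125 r8_224 (nat_lit 0) (nat_lit 0) (nat_lit 0) (nat_lit 0x805730f46) (nat_lit 532963862),
  Rx.mk (nat_lit 417) (nat_lit 1) (nat_lit 4) (nat_lit 6) (nat_lit 5) (nat_lit 122) (nat_lit 221) r6_122 r8_221 (nat_lit 0) (nat_lit 24741287) (nat_lit 0) (nat_lit 0x8017985b4) (nat_lit 561612199),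
  Rx.mk (nat_lit 425) (nat_lit 1) (nat_lit 5) (nat_lit 6) (nat_lit 7) (nat_lit 123) (nat_lit 222) r6_123 r8_222 (nat_lit 0) (nat_lit 0) (nat_lit 0) (nat_lit 0x8017985b4) (nat_lit 536870912),
  Rx.mk (nat_lit 433) (nat_lit 1) (nat_lit 6) (nat_lit 6) (nat_lit 7) (nat_lit 124) (nat_lit 223) r6_124 r8_223 (nat_lit 0) (nat_lit 0) (nat_lit 0) (nat_lit 0x8017985b4) (nat_lit 536870912)]
noncomputable def e35_45 : List Rx := [
  Rx.mk (nat_lit 298) (nat_lit 2) (nat_lit 5) (nat_lit 4) (nat_lit 3) (nat_lit 116) (nat_lit 247) r6_116 r1_247 (nat_lit 0) (nat_lit 0) (nat_lit 2146916) (nat_lit 0x832861f50) (nat_lit 491234428),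
  Rx.mk (nat_lit 424) (nat_lit 0) (nat_lit 5) (nat_lit 6) (nat_lit 6) (nat_lit 117) (nat_lit 246) r6_117 r1_246 (nat_lit 4579048) (nat_lit 0) (nat_lit 0) (nat_lit 0x829e4386e) (nat_lit 502034860),
  Rx.mk (nat_lit 426) (nat_lit 2) (nat_lit 5) (nat_lit 6) (nat_lit 7) (nat_lit 118) (nat_lit 248) r6_118 r1_248 (nat_lit 0) (nat_lit 0) (nat_lit 0) (nat_lit 0x80c3cc614) (nat_lit 526329562)]
noncomputable def e35_46 : List Rx := [
  Rx.mk (nat_lit 266) (nat_lit 2) (nat_lit 1) (nat_lit 4) (nat_lit 3) (nat_lit 289) (nat_lit 270) r6_289 r2_270 (nat_lit 0) (nat_lit 0) (nat_lit 37541131) (nat_lit 0x7f337957c) (nat_lit 588490643),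
  Rx.mk (nat_lit 298) (nat_lit 2) (nat_lit 5) (nat_lit 4) (nat_lit 3) (nat_lit 286) (nat_lit 269) r6_286 r2_269 (nat_lit 0) (nat_lit 0) (nat_lit 25088397) (nat_lit 0x7fe4f918a) (nat_lit 565068109),
  Rx.mk (nat_lit 424) (nat_lit 0) (nat_lit 5) (nat_lit 6) (nat_lit 6) (nat_lit 287) (nat_lit 268) r6_287 r2_268 (nat_lit 32877958) (nat_lit 0) (nat_lit 0) (nat_lit 0x7f6f4bf78) (nat_lit 580120470),
  Rx.mk (nat_lit 426) (nat_lit 2) (nat_lit 5) (nat_lit 6) (nat_lit 7) (nat_lit 288) (nat_lit 271) r6_288 r2_271 (nat_lit 0) (nat_lit 0) (nat_lit 0) (nat_lit 0x8017985b4) (nat_lit 536870912)]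
noncomputable def e35_47 : List Rx := [
  Rx.mk (nat_lit 424) (nat_lit 0) (nat_lit 5) (nat_lit 6) (nat_lit 6) (nat_lit 119) (nat_lit 71) r6_119 r8_71 (nat_lit 11276317) (nat_lit 0) (nat_lit 0) (nat_lit 0x80f41308e) (nat_lit 534645879),
  Rx.mk (nat_lit 425) (nat_lit 1) (nat_lit 5) (nat_lit 6) (nat_lit 7) (nat_lit 120) (nat_lit 72) r6_120 r8_72 (nat_lit 0) (nat_lit 0) (nat_lit 0) (nat_lit 0x8017985b4) (nat_lit 536870912),
  Rx.mk (nat_lit 426) (nat_lit 2) (nat_lit 5) (nat_lit 6) (nat_lit 7) (nat_lit 121) (nat_lit 73) r6_121 r8_73 (nat_lit 0) (nat_lit 0) (nat_lit 0) (nat_lit 0x80607f5fc) (nat_lit 532392712)]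
noncomputable def e35_48 : List Rx := [
  Rx.mk (nat_lit 424) (nat_lit 0) (nat_lit 5) (nat_lit 6) (nat_lit 6) (nat_lit 295) (nat_lit 241) r6_295 r9_241 (nat_lit 25123569) (nat_lit 0) (nat_lit 0) (nat_lit 0x7f345289a) (nat_lit 575983031),
  Rx.mk (nat_lit 425) (nat_lit 1) (nat_lit 5) (nat_lit 6) (nat_lit 7) (nat_lit 296) (nat_lit 242) r6_296 r9_242 (nat_lit 0) (nat_lit 0) (nat_lit 0) (nat_lit 0x8017985b4) (nat_lit 536870912),
  Rx.mk (nat_lit 426) (nat_lit 2) (nat_lit 5) (nat_lit 6) (nat_lit 7) (nat_lit 297) (nat_lit 243) r6_297 r9_243 (nat_lit 0) (nat_lit 0) (nat_lit 0) (nat_lit 0x8017985b4) (nat_lit 536870912)]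
noncomputable def e35_49 : List Rx := [
  Rx.mk (nat_lit 266) (nat_lit 2) (nat_lit 1) (nat_lit 4) (nat_lit 3) (nat_lit 293) (nat_lit 219) r6_293 r9_219 (nat_lit 0) (nat_lit 0) (nat_lit 24741287) (nat_lit 0x7fbf624bc) (nat_lit 567020899),
  Rx.mk (nat_lit 298) (nat_lit 2) (nat_lit 5) (nat_lit 4) (nat_lit 3) (nat_lit 290) (nat_lit 220) r6_290 r9_220 (nat_lit 0) (nat_lit 0) (nat_lit 25547425) (nat_lit 0x7ed7c15fe) (nat_lit 582171937),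
  Rx.mk (nat_lit 330) (nat_lit 2) (nat_lit 1) (nat_lit 5) (nat_lit 7) (nat_lit 294) (nat_lit 221) r6_294 r9_221 (nat_lit 0) (nat_lit 0) (nat_lit 0) (nat_lit 0x8017985b4) (nat_lit 536870912),
  Rx.mk (nat_lit 362) (nat_lit 2) (nat_lit 5) (nat_lit 5) (nat_lit 7) (nat_lit 291) (nat_lit 222) r6_291 r9_222 (nat_lit 0) (nat_lit 0) (nat_lit 0) (nat_lit 0x8017985b4) (nat_lit 536870912),
  Rx.mk (nat_lit 426) (nat_lit 2) (nat_lit 5) (nat_lit 6) (nat_lit 7) (nat_lit 292) (nat_lit 223) r6_292 r9_223 (nat_lit 0) (nat_lit 0) (nat_lit 0) (nat_lit 0x8017985b4) (nat_lit 536870912)]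
noncomputable def e35_50 : List Rx := [
  Rx.mk (nat_lit 176) (nat_lit 0) (nat_lit 6) (nat_lit 2) (nat_lit 6) (nat_lit 15) (nat_lit 230) r6_15 r3_230 (nat_lit 1281031) (nat_lit 0) (nat_lit 0) (nat_lit 0x74900bd36) (nat_lit 723321843),
  Rx.mk (nat_lit 179) (nat_lit 3) (nat_lit 6) (nat_lit 2) (nat_lit 7) (nat_lit 16) (nat_lit 231) r6_16 r3_231 (nat_lit 0) (nat_lit 0) (nat_lit 0) (nat_lit 0x82a884a62) (nat_lit 496785062),
  Rx.mk (nat_lit 314) (nat_lit 2) (nat_lit 7) (nat_lit 4) (nat_lit 3) (nat_lit 17) (nat_lit 232) r6_17 r3_232 (nat_lit 0) (nat_lit 0) (nat_lit 320985) (nat_lit 0x7f1636122) (nat_lit 552018747),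
  Rx.mk (nat_lit 416) (nat_lit 0) (nat_lit 4) (nat_lit 6) (nat_lit 4) (nat_lit 12) (nat_lit 227) r6_12 r3_227 (nat_lit 2940) (nat_lit 3671) (nat_lit 0) (nat_lit 0x7fffa9322) (nat_lit 536901023),
  Rx.mk (nat_lit 418) (nat_lit 2) (nat_lit 4) (nat_lit 6) (nat_lit 5) (nat_lit 13) (nat_lit 233) r6_13 r3_233 (nat_lit 0) (nat_lit 2875897) (nat_lit 0) (nat_lit 0x717aba4b2) (nat_lit 774887159),
  Rx.mk (nat_lit 432) (nat_lit 0) (nat_lit 6) (nat_lit 6) (nat_lit 6) (nat_lit 14) (nat_lit 229) r6_14 r3_229 (nat_lit 6608634) (nat_lit 0) (nat_lit 0) (nat_lit 0x74406e594) (nat_lit 733974246),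
  Rx.mk (nat_lit 440) (nat_lit 0) (nat_lit 7) (nat_lit 6) (nat_lit 6) (nat_lit 18) (nat_lit 228) r6_18 r3_228 (nat_lit 201864) (nat_lit 0) (nat_lit 0) (nat_lit 0x7fa9eb5e8) (nat_lit 542596676),
  Rx.mk (nat_lit 442) (nat_lit 2) (nat_lit 7) (nat_lit 6) (nat_lit 7) (nat_lit 19) (nat_lit 234) r6_19 r3_234 (nat_lit 0) (nat_lit 0) (nat_lit 0) (nat_lit 0x85801fec0) (nat_lit 453525812)]
noncomputable def e35_51 : List Rx := [
  Rx.mk (nat_lit 176) (nat_lit 0) (nat_lit 6) (nat_lit 2) (nat_lit 6) (nat_lit 135) (nat_lit 233) r6_135 r4_233 (nat_lit 11623710) (nat_lit 0) (nat_lit 0) (nat_lit 0x7bf31a790) (nat_lit 614749172),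
  Rx.mk (nat_lit 179) (nat_lit 3) (nat_lit 6) (nat_lit 2) (nat_lit 7) (nat_lit 136) (nat_lit 234) r6_136 r4_234 (nat_lit 0) (nat_lit 0) (nat_lit 0) (nat_lit 0x81ec02330) (nat_lit 508336162),
  Rx.mk (nat_lit 290) (nat_lit 2) (nat_lit 4) (nat_lit 4) (nat_lit 1) (nat_lit 128) (nat_lit 235) r6_128 r4_235 (nat_lit 0) (nat_lit 72450) (nat_lit 102847) (nat_lit 0x74c49e314) (nat_lit 718702409),
  Rx.mk (nat_lit 298) (nat_lit 2) (nat_lit 5) (nat_lit 4) (nat_lit 3) (nat_lit 131) (nat_lit 236) r6_131 r4_236 (nat_lit 0) (nat_lit 0) (nat_lit 17803608) (nat_lit 0x8030df784) (nat_lit 553092470),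
  Rx.mk (nat_lit 314) (nat_lit 2) (nat_lit 7) (nat_lit 4) (nat_lit 3) (nat_lit 137) (nat_lit 237) r6_137 r4_237 (nat_lit 0) (nat_lit 0) (nat_lit 14470459) (nat_lit 0x7f6a8c884) (nat_lit 561862921),
  Rx.mk (nat_lit 416) (nat_lit 0) (nat_lit 4) (nat_lit 6) (nat_lit 4) (nat_lit 129) (nat_lit 229) r6_129 r4_229 (nat_lit 185097) (nat_lit 150896) (nat_lit 0) (nat_lit 0x7474055ce) (nat_lit 723972805),
  Rx.mk (nat_lit 418) (nat_lit 2) (nat_lit 4) (nat_lit 6) (nat_lit 5) (nat_lit 130) (nat_lit 238) r6_130 r4_238 (nat_lit 0) (nat_lit 8507115) (nat_lit 0) (nat_lit 0x7fe98ff5a) (nat_lit 548034927),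
  Rx.mk (nat_lit 424) (nat_lit 0) (nat_lit 5) (nat_lit 6) (nat_lit 6) (nat_lit 132) (nat_lit 230) r6_132 r4_230 (nat_lit 15201900) (nat_lit 0) (nat_lit 0) (nat_lit 0x80b22620c) (nat_lit 542613312),
  Rx.mk (nat_lit 426) (nat_lit 2) (nat_lit 5) (nat_lit 6) (nat_lit 7) (nat_lit 133) (nat_lit 239) r6_133 r4_239 (nat_lit 0) (nat_lit 0) (nat_lit 0) (nat_lit 0x80ad718e2) (nat_lit 527694462),
  Rx.mk (nat_lit 432) (nat_lit 0) (nat_lit 6) (nat_lit 6) (nat_lit 6) (nat_lit 134) (nat_lit 232) r6_134 r4_232 (nat_lit 14591992) (nat_lit 0) (nat_lit 0) (nat_lit 0x7ffde2a5c) (nat_lit 552972954),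
  Rx.mk (nat_lit 440) (nat_lit 0) (nat_lit 7) (nat_lit 6) (nat_lit 6) (nat_lit 138) (nat_lit 231) r6_138 r4_231 (nat_lit 15888000) (nat_lit 0) (nat_lit 0) (nat_lit 0x80a2446e0) (nat_lit 544269162),
  Rx.mk (nat_lit 442) (nat_lit 2) (nat_lit 7) (nat_lit 6) (nat_lit 7) (nat_lit 139) (nat_lit 240) r6_139 r4_240 (nat_lit 0) (nat_lit 0) (nat_lit 0) (nat_lit 0x80ad718e2) (nat_lit 527694462)]
noncomputable def e35_52 : List Rx := [
  Rx.mk (nat_lit 314) (nat_lit 2) (nat_lit 7) (nat_lit 4) (nat_lit 3) (nat_lit 238) (nat_lit 243) r6_238 r5_243 (nat_lit 0) (nat_lit 0) (nat_lit 52534) (nat_lit 0x806957f26) (nat_lit 530664346),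
  Rx.mk (nat_lit 440) (nat_lit 0) (nat_lit 7) (nat_lit 6) (nat_lit 6) (nat_lit 239) (nat_lit 242) r6_239 r5_242 (nat_lit 355084) (nat_lit 0) (nat_lit 0) (nat_lit 0x7fdb97272) (nat_lit 539655146),
  Rx.mk (nat_lit 442) (nat_lit 2) (nat_lit 7) (nat_lit 6) (nat_lit 7) (nat_lit 240) (nat_lit 244) r6_240 r5_244 (nat_lit 0) (nat_lit 0) (nat_lit 0) (nat_lit 0x7f639d938) (nat_lit 547371662)]
noncomputable def e35_53 : List Rx := [
  Rx.mk (nat_lit 176) (nat_lit 0) (nat_lit 6) (nat_lit 2) (nat_lit 6) (nat_lit 25) (nat_lit 84) r6_25 r4_84 (nat_lit 5828454) (nat_lit 0) (nat_lit 0) (nat_lit 0x7fc27fd8e) (nat_lit 547632616),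
  Rx.mk (nat_lit 177) (nat_lit 1) (nat_lit 6) (nat_lit 2) (nat_lit 7) (nat_lit 26) (nat_lit 85) r6_26 r4_85 (nat_lit 0) (nat_lit 0) (nat_lit 0) (nat_lit 0x80fddf1bc) (nat_lit 522806362),
  Rx.mk (nat_lit 179) (nat_lit 3) (nat_lit 6) (nat_lit 2) (nat_lit 7) (nat_lit 27) (nat_lit 86) r6_27 r4_86 (nat_lit 0) (nat_lit 0) (nat_lit 0) (nat_lit 0x80efb1ee6) (nat_lit 523668462),
  Rx.mk (nat_lit 416) (nat_lit 0) (nat_lit 4) (nat_lit 6) (nat_lit 4) (nat_lit 20) (nat_lit 78) r6_20 r4_78 (nat_lit 2670845) (nat_lit 3814909) (nat_lit 0) (nat_lit 0x6861eb944) (nat_lit 925706566),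
  Rx.mk (nat_lit 417) (nat_lit 1) (nat_lit 4) (nat_lit 6) (nat_lit 5) (nat_lit 21) (nat_lit 79) r6_21 r4_79 (nat_lit 0) (nat_lit 9313182) (nat_lit 0) (nat_lit 0x8051e9268) (nat_lit 542445944),
  Rx.mk (nat_lit 418) (nat_lit 2) (nat_lit 4) (nat_lit 6) (nat_lit 5) (nat_lit 22) (nat_lit 80) r6_22 r4_80 (nat_lit 0) (nat_lit 10422876) (nat_lit 0) (nat_lit 0x7e366a3fe) (nat_lit 577077388),
  Rx.mk (nat_lit 432) (nat_lit 0) (nat_lit 6) (nat_lit 6) (nat_lit 6) (nat_lit 23) (nat_lit 87) r6_23 r4_87 (nat_lit 9821827) (nat_lit 0) (nat_lit 0) (nat_lit 0x7fc4fda48) (nat_lit 551627389),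
  Rx.mk (nat_lit 433) (nat_lit 1) (nat_lit 6) (nat_lit 6) (nat_lit 7) (nat_lit 24) (nat_lit 88) r6_24 r4_88 (nat_lit 0) (nat_lit 0) (nat_lit 0) (nat_lit 0x8046420c2) (nat_lit 534001662),
  Rx.mk (nat_lit 440) (nat_lit 0) (nat_lit 7) (nat_lit 6) (nat_lit 6) (nat_lit 28) (nat_lit 81) r6_28 r4_81 (nat_lit 136651) (nat_lit 0) (nat_lit 0) (nat_lit 0x6297d7fc2) (nat_lit 1012582363),
  Rx.mk (nat_lit 441) (nat_lit 1) (nat_lit 7) (nat_lit 6) (nat_lit 7) (nat_lit 29) (nat_lit 82) r6_29 r4_82 (nat_lit 0) (nat_lit 0) (nat_lit 0) (nat_lit 0x80f6273ca) (nat_lit 522994062),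
  Rx.mk (nat_lit 442) (nat_lit 2) (nat_lit 7) (nat_lit 6) (nat_lit 7) (nat_lit 30) (nat_lit 83) r6_30 r4_83 (nat_lit 0) (nat_lit 0) (nat_lit 0) (nat_lit 0x80d433d36) (nat_lit 525049262)]
noncomputable def e35_54 : List Rx := [
  Rx.mk (nat_lit 176) (nat_lit 0) (nat_lit 6) (nat_lit 2) (nat_lit 6) (nat_lit 147) (nat_lit 248) r6_147 r10_248 (nat_lit 9336562) (nat_lit 0) (nat_lit 0) (nat_lit 0x80cea0392) (nat_lit 534941174),
  Rx.mk (nat_lit 177) (nat_lit 1) (nat_lit 6) (nat_lit 2) (nat_lit 7) (nat_lit 148) (nat_lit 252) r6_148 r10_252 (nat_lit 0) (nat_lit 0) (nat_lit 0) (nat_lit 0x80d032dc2) (nat_lit 525585862),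
  Rx.mk (nat_lit 179) (nat_lit 3) (nat_lit 6) (nat_lit 2) (nat_lit 7) (nat_lit 149) (nat_lit 253) r6_149 r10_253 (nat_lit 0) (nat_lit 0) (nat_lit 0) (nat_lit 0x80d033132) (nat_lit 525585812),
  Rx.mk (nat_lit 416) (nat_lit 0) (nat_lit 4) (nat_lit 6) (nat_lit 4) (nat_lit 140) (nat_lit 244) r6_140 r10_244 (nat_lit 3437710) (nat_lit 3908311) (nat_lit 0) (nat_lit 0x70b62ad72) (nat_lit 791927083),
  Rx.mk (nat_lit 417) (nat_lit 1) (nat_lit 4) (nat_lit 6) (nat_lit 5) (nat_lit 141) (nat_lit 249) r6_141 r10_249 (nat_lit 0) (nat_lit 18189542) (nat_lit 0) (nat_lit 0x807407840) (nat_lit 549393204),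
  Rx.mk (nat_lit 418) (nat_lit 2) (nat_lit 4) (nat_lit 6) (nat_lit 5) (nat_lit 142) (nat_lit 254) r6_142 r10_254 (nat_lit 0) (nat_lit 8452867) (nat_lit 0) (nat_lit 0x80ffe1c3a) (nat_lit 531055429),
  Rx.mk (nat_lit 424) (nat_lit 0) (nat_lit 5) (nat_lit 6) (nat_lit 6) (nat_lit 143) (nat_lit 245) r6_143 r10_245 (nat_lit 14773968) (nat_lit 0) (nat_lit 0) (nat_lit 0x80be7a56c) (nat_lit 541432730),
  Rx.mk (nat_lit 426) (nat_lit 2) (nat_lit 5) (nat_lit 6) (nat_lit 7) (nat_lit 144) (nat_lit 255) r6_144 r10_255 (nat_lit 0) (nat_lit 0) (nat_lit 0) (nat_lit 0x80d199d14) (nat_lit 525495962),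
  Rx.mk (nat_lit 432) (nat_lit 0) (nat_lit 6) (nat_lit 6) (nat_lit 6) (nat_lit 145) (nat_lit 247) r6_145 r10_247 (nat_lit 24741287) (nat_lit 0) (nat_lit 0) (nat_lit 0x7f68b2360) (nat_lit 572388699),
  Rx.mk (nat_lit 433) (nat_lit 1) (nat_lit 6) (nat_lit 6) (nat_lit 7) (nat_lit 146) (nat_lit 251) r6_146 r10_251 (nat_lit 0) (nat_lit 0) (nat_lit 0) (nat_lit 0x8017985b4) (nat_lit 536870912),
  Rx.mk (nat_lit 440) (nat_lit 0) (nat_lit 7) (nat_lit 6) (nat_lit 6) (nat_lit 150) (nat_lit 246) r6_150 r10_246 (nat_lit 14995754) (nat_lit 0) (nat_lit 0) (nat_lit 0x80820fd34) (nat_lit 545312416),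
  Rx.mk (nat_lit 441) (nat_lit 1) (nat_lit 7) (nat_lit 6) (nat_lit 7) (nat_lit 151) (nat_lit 250) r6_151 r10_250 (nat_lit 0) (nat_lit 0) (nat_lit 0) (nat_lit 0x8017985b4) (nat_lit 536870912),
  Rx.mk (nat_lit 442) (nat_lit 2) (nat_lit 7) (nat_lit 6) (nat_lit 7) (nat_lit 152) (nat_lit 256) r6_152 r10_256 (nat_lit 0) (nat_lit 0) (nat_lit 0) (nat_lit 0x80d1999d6) (nat_lit 525496012)]
noncomputable def e35_55 : List Rx := [
  Rx.mk (nat_lit 440) (nat_lit 0) (nat_lit 7) (nat_lit 6) (nat_lit 6) (nat_lit 241) (nat_lit 284) r6_241 r11_284 (nat_lit 4181752) (nat_lit 0) (nat_lit 0) (nat_lit 0x80bce2e16) (nat_lit 530625764),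
  Rx.mk (nat_lit 441) (nat_lit 1) (nat_lit 7) (nat_lit 6) (nat_lit 7) (nat_lit 242) (nat_lit 285) r6_242 r11_285 (nat_lit 0) (nat_lit 0) (nat_lit 0) (nat_lit 0x84db9c5a6) (nat_lit 463462512),
  Rx.mk (nat_lit 442) (nat_lit 2) (nat_lit 7) (nat_lit 6) (nat_lit 7) (nat_lit 243) (nat_lit 286) r6_243 r11_286 (nat_lit 0) (nat_lit 0) (nat_lit 0) (nat_lit 0x8558f78ac) (nat_lit 456022662)]
noncomputable def e35_56 : List Rx := [
  Rx.mk (nat_lit 179) (nat_lit 3) (nat_lit 6) (nat_lit 2) (nat_lit 7) (nat_lit 36) (nat_lit 77) r6_36 r5_77 (nat_lit 0) (nat_lit 0) (nat_lit 0) (nat_lit 0x7adbdb5da) (nat_lit 620253362),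
  Rx.mk (nat_lit 314) (nat_lit 2) (nat_lit 7) (nat_lit 4) (nat_lit 3) (nat_lit 37) (nat_lit 73) r6_37 r5_73 (nat_lit 0) (nat_lit 0) (nat_lit 6235362) (nat_lit 0x7e4c9eb16) (nat_lit 571302074),
  Rx.mk (nat_lit 416) (nat_lit 0) (nat_lit 4) (nat_lit 6) (nat_lit 4) (nat_lit 31) (nat_lit 70) r6_31 r5_70 (nat_lit 151381) (nat_lit 214613) (nat_lit 0) (nat_lit 0x7f84aacac) (nat_lit 545085756),
  Rx.mk (nat_lit 418) (nat_lit 2) (nat_lit 4) (nat_lit 6) (nat_lit 5) (nat_lit 32) (nat_lit 72) r6_32 r5_72 (nat_lit 0) (nat_lit 7478372) (nat_lit 0) (nat_lit 0x7e7bc2848) (nat_lit 569688734),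
  Rx.mk (nat_lit 419) (nat_lit 3) (nat_lit 4) (nat_lit 6) (nat_lit 5) (nat_lit 33) (nat_lit 71) r6_33 r5_71 (nat_lit 0) (nat_lit 5517824) (nat_lit 0) (nat_lit 0x80fe04cf0) (nat_lit 528080236),
  Rx.mk (nat_lit 432) (nat_lit 0) (nat_lit 6) (nat_lit 6) (nat_lit 6) (nat_lit 34) (nat_lit 78) r6_34 r5_78 (nat_lit 14912566) (nat_lit 0) (nat_lit 0) (nat_lit 0x7ad02e7c8) (nat_lit 636403678),
  Rx.mk (nat_lit 435) (nat_lit 3) (nat_lit 6) (nat_lit 6) (nat_lit 7) (nat_lit 35) (nat_lit 79) r6_35 r5_79 (nat_lit 0) (nat_lit 0) (nat_lit 0) (nat_lit 0x7df8696ea) (nat_lit 570525862),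
  Rx.mk (nat_lit 440) (nat_lit 0) (nat_lit 7) (nat_lit 6) (nat_lit 6) (nat_lit 38) (nat_lit 75) r6_38 r5_75 (nat_lit 506970) (nat_lit 0) (nat_lit 0) (nat_lit 0x8036353fa) (nat_lit 534398782),
  Rx.mk (nat_lit 442) (nat_lit 2) (nat_lit 7) (nat_lit 6) (nat_lit 7) (nat_lit 39) (nat_lit 76) r6_39 r5_76 (nat_lit 0) (nat_lit 0) (nat_lit 0) (nat_lit 0x8de7568e8) (nat_lit 325388962),
  Rx.mk (nat_lit 506) (nat_lit 2) (nat_lit 7) (nat_lit 7) (nat_lit 7) (nat_lit 40) (nat_lit 74) r6_40 r5_74 (nat_lit 0) (nat_lit 0) (nat_lit 0) (nat_lit 0x7ffe6318e) (nat_lit 538324412)]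
noncomputable def e35_57 : List Rx := [
  Rx.mk (nat_lit 179) (nat_lit 3) (nat_lit 6) (nat_lit 2) (nat_lit 7) (nat_lit 163) (nat_lit 65) r6_163 r11_65 (nat_lit 0) (nat_lit 0) (nat_lit 0) (nat_lit 0x822812b0e) (nat_lit 504804312),
  Rx.mk (nat_lit 290) (nat_lit 2) (nat_lit 4) (nat_lit 4) (nat_lit 1) (nat_lit 153) (nat_lit 53) r6_153 r11_53 (nat_lit 0) (nat_lit 11453294) (nat_lit 17592133) (nat_lit 0x79c89e50e) (nat_lit 667174639),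
  Rx.mk (nat_lit 298) (nat_lit 2) (nat_lit 5) (nat_lit 4) (nat_lit 3) (nat_lit 157) (nat_lit 57) r6_157 r11_57 (nat_lit 0) (nat_lit 0) (nat_lit 23560195) (nat_lit 0x8006b0be8) (nat_lit 561461107),
  Rx.mk (nat_lit 314) (nat_lit 2) (nat_lit 7) (nat_lit 4) (nat_lit 3) (nat_lit 164) (nat_lit 61) r6_164 r11_61 (nat_lit 0) (nat_lit 0) (nat_lit 26850297) (nat_lit 0x80135a3c6) (nat_lit 563945709),
  Rx.mk (nat_lit 416) (nat_lit 0) (nat_lit 4) (nat_lit 6) (nat_lit 4) (nat_lit 154) (nat_lit 54) r6_154 r11_54 (nat_lit 8232258) (nat_lit 8887259) (nat_lit 0) (nat_lit 0x752a94a10) (nat_lit 729817329),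
  Rx.mk (nat_lit 418) (nat_lit 2) (nat_lit 4) (nat_lit 6) (nat_lit 5) (nat_lit 155) (nat_lit 56) r6_155 r11_56 (nat_lit 0) (nat_lit 11833070) (nat_lit 0) (nat_lit 0x80dfff796) (nat_lit 536433782),
  Rx.mk (nat_lit 419) (nat_lit 3) (nat_lit 4) (nat_lit 6) (nat_lit 5) (nat_lit 156) (nat_lit 55) r6_156 r11_55 (nat_lit 0) (nat_lit 20819956) (nat_lit 0) (nat_lit 0x80443f36a) (nat_lit 554944468),
  Rx.mk (nat_lit 424) (nat_lit 0) (nat_lit 5) (nat_lit 6) (nat_lit 6) (nat_lit 158) (nat_lit 58) r6_158 r11_58 (nat_lit 24863851) (nat_lit 0) (nat_lit 0) (nat_lit 0x80051da7e) (nat_lit 562865263),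
  Rx.mk (nat_lit 426) (nat_lit 2) (nat_lit 5) (nat_lit 6) (nat_lit 7) (nat_lit 159) (nat_lit 60) r6_159 r11_60 (nat_lit 0) (nat_lit 0) (nat_lit 0) (nat_lit 0x8017985b4) (nat_lit 536870912),
  Rx.mk (nat_lit 427) (nat_lit 3) (nat_lit 5) (nat_lit 6) (nat_lit 7) (nat_lit 160) (nat_lit 59) r6_160 r11_59 (nat_lit 0) (nat_lit 0) (nat_lit 0) (nat_lit 0x8017985b4) (nat_lit 536870912),
  Rx.mk (nat_lit 432) (nat_lit 0) (nat_lit 6) (nat_lit 6) (nat_lit 6) (nat_lit 161) (nat_lit 66) r6_161 r11_66 (nat_lit 24741287) (nat_lit 0) (nat_lit 0) (nat_lit 0x8017985b4) (nat_lit 561612199),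
  Rx.mk (nat_lit 435) (nat_lit 3) (nat_lit 6) (nat_lit 6) (nat_lit 7) (nat_lit 162) (nat_lit 67) r6_162 r11_67 (nat_lit 0) (nat_lit 0) (nat_lit 0) (nat_lit 0x8017985b4) (nat_lit 536870912),
  Rx.mk (nat_lit 440) (nat_lit 0) (nat_lit 7) (nat_lit 6) (nat_lit 6) (nat_lit 165) (nat_lit 63) r6_165 r11_63 (nat_lit 24741287) (nat_lit 0) (nat_lit 0) (nat_lit 0x8017985b4) (nat_lit 561612199),
  Rx.mk (nat_lit 442) (nat_lit 2) (nat_lit 7) (nat_lit 6) (nat_lit 7) (nat_lit 166) (nat_lit 64) r6_166 r11_64 (nat_lit 0) (nat_lit 0) (nat_lit 0) (nat_lit 0x8017985b4) (nat_lit 536870912),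
  Rx.mk (nat_lit 506) (nat_lit 2) (nat_lit 7) (nat_lit 7) (nat_lit 7) (nat_lit 167) (nat_lit 62) r6_167 r11_62 (nat_lit 0) (nat_lit 0) (nat_lit 0) (nat_lit 0x8017985b4) (nat_lit 536870912)]
noncomputable def e35 : List (List Rx) := [e35_0, e35_1, e35_2, e35_3, e35_4, e35_5, e35_6, e35_7, e35_8, e35_9, e35_10, e35_11, e35_12, e35_13, e35_14, e35_15, e35_16, e35_17, e35_18, e35_19, e35_20, e35_21, e35_22, e35_23, e35_24, e35_25, e35_26, e35_27, e35_28, e35_29, e35_30, e35_31, e35_32, e35_33, e35_34, e35_35, e35_36, e35_37, e35_38, e35_39, e35_40, e35_41, e35_42, e35_43, e35_44, e35_45, e35_46, e35_47, e35_48, e35_49, e35_50, e35_51, e35_52, e35_53, e35_54, e35_55, e35_56, e35_57]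
noncomputable def e36_0 : List Rx := [
  Rx.mk (nat_lit 20) (nat_lit 4) (nat_lit 2) (nat_lit 0) (nat_lit 2) (nat_lit 3) (nat_lit 236) r12_3 r0_236 (nat_lit 483498) (nat_lit 0) (nat_lit 337141) (nat_lit 0x69bd8207c) (nat_lit 897741001),
  Rx.mk (nat_lit 22) (nat_lit 6) (nat_lit 2) (nat_lit 0) (nat_lit 3) (nat_lit 5) (nat_lit 241) r12_5 r0_241 (nat_lit 0) (nat_lit 0) (nat_lit 7132573) (nat_lit 0x7f5e76888) (nat_lit 555234485),
  Rx.mk (nat_lit 52) (nat_lit 4) (nat_lit 6) (nat_lit 0) (nat_lit 2) (nat_lit 0) (nat_lit 238) r12_0 r0_238 (nat_lit 1147203) (nat_lit 0) (nat_lit 939367) (nat_lit 0x56a34f6d6) (nat_lit 1208040532),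
  Rx.mk (nat_lit 84) (nat_lit 4) (nat_lit 2) (nat_lit 1) (nat_lit 6) (nat_lit 4) (nat_lit 237) r12_4 r0_237 (nat_lit 110144) (nat_lit 0) (nat_lit 0) (nat_lit 0x82822bbe0) (nat_lit 498750706),
  Rx.mk (nat_lit 86) (nat_lit 6) (nat_lit 2) (nat_lit 1) (nat_lit 7) (nat_lit 6) (nat_lit 242) r12_6 r0_242 (nat_lit 0) (nat_lit 0) (nat_lit 0) (nat_lit 0x91ea2ede6) (nat_lit 264130312),
  Rx.mk (nat_lit 116) (nat_lit 4) (nat_lit 6) (nat_lit 1) (nat_lit 6) (nat_lit 1) (nat_lit 239) r12_1 r0_239 (nat_lit 17412885) (nat_lit 0) (nat_lit 0) (nat_lit 0x6e9844ff8) (nat_lit 836304197),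
  Rx.mk (nat_lit 180) (nat_lit 4) (nat_lit 6) (nat_lit 2) (nat_lit 6) (nat_lit 2) (nat_lit 240) r12_2 r0_240 (nat_lit 5034045) (nat_lit 0) (nat_lit 0) (nat_lit 0x6bcc7805c) (nat_lit 869121807)]
noncomputable def e36_1 : List Rx := [
  Rx.mk (nat_lit 84) (nat_lit 4) (nat_lit 2) (nat_lit 1) (nat_lit 6) (nat_lit 8) (nat_lit 249) r12_8 r1_249 (nat_lit 188525) (nat_lit 0) (nat_lit 0) (nat_lit 0x82e82ffae) (nat_lit 492764987),
  Rx.mk (nat_lit 86) (nat_lit 6) (nat_lit 2) (nat_lit 1) (nat_lit 7) (nat_lit 9) (nat_lit 251) r12_9 r1_251 (nat_lit 0) (nat_lit 0) (nat_lit 0) (nat_lit 0x8ee42ae52) (nat_lit 310307562),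
  Rx.mk (nat_lit 116) (nat_lit 4) (nat_lit 6) (nat_lit 1) (nat_lit 6) (nat_lit 7) (nat_lit 250) r12_7 r1_250 (nat_lit 20432270) (nat_lit 0) (nat_lit 0) (nat_lit 0x807054a04) (nat_lit 551662282)]
noncomputable def e36_2 : List Rx := [
  Rx.mk (nat_lit 84) (nat_lit 4) (nat_lit 2) (nat_lit 1) (nat_lit 6) (nat_lit 10) (nat_lit 272) r12_10 r2_272 (nat_lit 66894744) (nat_lit 0) (nat_lit 0) (nat_lit 0x7c6702fd6) (nat_lit 662791156),
  Rx.mk (nat_lit 86) (nat_lit 6) (nat_lit 2) (nat_lit 1) (nat_lit 7) (nat_lit 13) (nat_lit 274) r12_13 r2_274 (nat_lit 0) (nat_lit 0) (nat_lit 0) (nat_lit 0x8017985b4) (nat_lit 536870912),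
  Rx.mk (nat_lit 326) (nat_lit 6) (nat_lit 0) (nat_lit 5) (nat_lit 5) (nat_lit 11) (nat_lit 273) r12_11 r2_273 (nat_lit 0) (nat_lit 66894744) (nat_lit 0) (nat_lit 0x7c6702fd6) (nat_lit 662791156),
  Rx.mk (nat_lit 342) (nat_lit 6) (nat_lit 2) (nat_lit 5) (nat_lit 7) (nat_lit 12) (nat_lit 275) r12_12 r2_275 (nat_lit 0) (nat_lit 0) (nat_lit 0) (nat_lit 0x8017985b4) (nat_lit 536870912)]
noncomputable def e36_3 : List Rx := [
  Rx.mk (nat_lit 20) (nat_lit 4) (nat_lit 2) (nat_lit 0) (nat_lit 2) (nat_lit 16) (nat_lit 235) r12_16 r3_235 (nat_lit 4214) (nat_lit 0) (nat_lit 5003) (nat_lit 0x7fff1ac3a) (nat_lit 536938379),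
  Rx.mk (nat_lit 22) (nat_lit 6) (nat_lit 2) (nat_lit 0) (nat_lit 3) (nat_lit 18) (nat_lit 241) r12_18 r3_241 (nat_lit 0) (nat_lit 0) (nat_lit 475299) (nat_lit 0x6da4f8700) (nat_lit 834267961),
  Rx.mk (nat_lit 52) (nat_lit 4) (nat_lit 6) (nat_lit 0) (nat_lit 2) (nat_lit 14) (nat_lit 237) r12_14 r3_237 (nat_lit 5003) (nat_lit 0) (nat_lit 4214) (nat_lit 0x7fff1ac3a) (nat_lit 536938379),
  Rx.mk (nat_lit 55) (nat_lit 7) (nat_lit 6) (nat_lit 0) (nat_lit 3) (nat_lit 20) (nat_lit 239) r12_20 r3_239 (nat_lit 0) (nat_lit 0) (nat_lit 80128) (nat_lit 0x7ffce7580) (nat_lit 537198240),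
  Rx.mk (nat_lit 180) (nat_lit 4) (nat_lit 6) (nat_lit 2) (nat_lit 6) (nat_lit 15) (nat_lit 238) r12_15 r3_238 (nat_lit 475299) (nat_lit 0) (nat_lit 0) (nat_lit 0x6da4f8700) (nat_lit 834267961),
  Rx.mk (nat_lit 183) (nat_lit 7) (nat_lit 6) (nat_lit 2) (nat_lit 7) (nat_lit 21) (nat_lit 240) r12_21 r3_240 (nat_lit 0) (nat_lit 0) (nat_lit 0) (nat_lit 0x8380378ba) (nat_lit 483854562),
  Rx.mk (nat_lit 212) (nat_lit 4) (nat_lit 2) (nat_lit 3) (nat_lit 6) (nat_lit 17) (nat_lit 236) r12_17 r3_236 (nat_lit 80128) (nat_lit 0) (nat_lit 0) (nat_lit 0x7ffce7580) (nat_lit 537198240),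
  Rx.mk (nat_lit 214) (nat_lit 6) (nat_lit 2) (nat_lit 3) (nat_lit 7) (nat_lit 19) (nat_lit 242) r12_19 r3_242 (nat_lit 0) (nat_lit 0) (nat_lit 0) (nat_lit 0x8380378ba) (nat_lit 483854562)]
noncomputable def e36_4 : List Rx := [
  Rx.mk (nat_lit 20) (nat_lit 4) (nat_lit 2) (nat_lit 0) (nat_lit 2) (nat_lit 25) (nat_lit 241) r12_25 r4_241 (nat_lit 58690) (nat_lit 0) (nat_lit 41553) (nat_lit 0x7b312194a) (nat_lit 614735255),
  Rx.mk (nat_lit 22) (nat_lit 6) (nat_lit 2) (nat_lit 0) (nat_lit 3) (nat_lit 28) (nat_lit 250) r12_28 r4_250 (nat_lit 0) (nat_lit 0) (nat_lit 4688491) (nat_lit 0x7f006038e) (nat_lit 558460953),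
  Rx.mk (nat_lit 52) (nat_lit 4) (nat_lit 6) (nat_lit 0) (nat_lit 2) (nat_lit 22) (nat_lit 244) r12_22 r4_244 (nat_lit 2631942) (nat_lit 0) (nat_lit 1714766) (nat_lit 0x6423137c0) (nat_lit 992114620),
  Rx.mk (nat_lit 55) (nat_lit 7) (nat_lit 6) (nat_lit 0) (nat_lit 3) (nat_lit 31) (nat_lit 247) r12_31 r4_247 (nat_lit 0) (nat_lit 0) (nat_lit 99316) (nat_lit 0x5a569f38c) (nat_lit 1146020178),
  Rx.mk (nat_lit 84) (nat_lit 4) (nat_lit 2) (nat_lit 1) (nat_lit 6) (nat_lit 26) (nat_lit 242) r12_26 r4_242 (nat_lit 8369781) (nat_lit 0) (nat_lit 0) (nat_lit 0x7f5bb069e) (nat_lit 556643943),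
  Rx.mk (nat_lit 86) (nat_lit 6) (nat_lit 2) (nat_lit 1) (nat_lit 7) (nat_lit 29) (nat_lit 251) r12_29 r4_251 (nat_lit 0) (nat_lit 0) (nat_lit 0) (nat_lit 0x80a484a0e) (nat_lit 528215812),
  Rx.mk (nat_lit 116) (nat_lit 4) (nat_lit 6) (nat_lit 1) (nat_lit 6) (nat_lit 23) (nat_lit 245) r12_23 r4_245 (nat_lit 9667445) (nat_lit 0) (nat_lit 0) (nat_lit 0x7e44f4f8c) (nat_lit 575356507),
  Rx.mk (nat_lit 119) (nat_lit 7) (nat_lit 6) (nat_lit 1) (nat_lit 7) (nat_lit 32) (nat_lit 248) r12_32 r4_248 (nat_lit 0) (nat_lit 0) (nat_lit 0) (nat_lit 0x7feb6c558) (nat_lit 539045512),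
  Rx.mk (nat_lit 180) (nat_lit 4) (nat_lit 6) (nat_lit 2) (nat_lit 6) (nat_lit 24) (nat_lit 246) r12_24 r4_246 (nat_lit 10567436) (nat_lit 0) (nat_lit 0) (nat_lit 0x755c3f9fc) (nat_lit 720133798),
  Rx.mk (nat_lit 183) (nat_lit 7) (nat_lit 6) (nat_lit 2) (nat_lit 7) (nat_lit 33) (nat_lit 249) r12_33 r4_249 (nat_lit 0) (nat_lit 0) (nat_lit 0) (nat_lit 0x7f2695054) (nat_lit 551109212),
  Rx.mk (nat_lit 212) (nat_lit 4) (nat_lit 2) (nat_lit 3) (nat_lit 6) (nat_lit 27) (nat_lit 243) r12_27 r4_243 (nat_lit 12827212) (nat_lit 0) (nat_lit 0) (nat_lit 0x80d8b15d4) (nat_lit 537881374),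
  Rx.mk (nat_lit 214) (nat_lit 6) (nat_lit 2) (nat_lit 3) (nat_lit 7) (nat_lit 30) (nat_lit 252) r12_30 r4_252 (nat_lit 0) (nat_lit 0) (nat_lit 0) (nat_lit 0x80c5a12f0) (nat_lit 526217362)]
noncomputable def e36_5 : List Rx := [
  Rx.mk (nat_lit 52) (nat_lit 4) (nat_lit 6) (nat_lit 0) (nat_lit 2) (nat_lit 34) (nat_lit 246) r12_34 r5_246 (nat_lit 257136) (nat_lit 0) (nat_lit 183720) (nat_lit 0x78fe81dd4) (nat_lit 650662468),
  Rx.mk (nat_lit 55) (nat_lit 7) (nat_lit 6) (nat_lit 0) (nat_lit 3) (nat_lit 39) (nat_lit 249) r12_39 r5_249 (nat_lit 0) (nat_lit 0) (nat_lit 385241) (nat_lit 0x80ae72098) (nat_lit 527020953),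
  Rx.mk (nat_lit 180) (nat_lit 4) (nat_lit 6) (nat_lit 2) (nat_lit 6) (nat_lit 35) (nat_lit 248) r12_35 r5_248 (nat_lit 6750895) (nat_lit 0) (nat_lit 0) (nat_lit 0x78f123c8c) (nat_lit 658355657),
  Rx.mk (nat_lit 183) (nat_lit 7) (nat_lit 6) (nat_lit 2) (nat_lit 7) (nat_lit 40) (nat_lit 250) r12_40 r5_250 (nat_lit 0) (nat_lit 0) (nat_lit 0) (nat_lit 0x8f2213cf0) (nat_lit 306467812),
  Rx.mk (nat_lit 212) (nat_lit 4) (nat_lit 2) (nat_lit 3) (nat_lit 6) (nat_lit 37) (nat_lit 245) r12_37 r5_245 (nat_lit 174098) (nat_lit 0) (nat_lit 0) (nat_lit 0x8023fadac) (nat_lit 534971660),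
  Rx.mk (nat_lit 214) (nat_lit 6) (nat_lit 2) (nat_lit 3) (nat_lit 7) (nat_lit 38) (nat_lit 251) r12_38 r5_251 (nat_lit 0) (nat_lit 0) (nat_lit 0) (nat_lit 0x7a825aed4) (nat_lit 625769862),
  Rx.mk (nat_lit 244) (nat_lit 4) (nat_lit 6) (nat_lit 3) (nat_lit 6) (nat_lit 36) (nat_lit 247) r12_36 r5_247 (nat_lit 3185059) (nat_lit 0) (nat_lit 0) (nat_lit 0x8418ad1da) (nat_lit 478052171)]
noncomputable def e36_6 : List Rx := [
  Rx.mk (nat_lit 258) (nat_lit 2) (nat_lit 0) (nat_lit 4) (nat_lit 1) (nat_lit 45) (nat_lit 237) r12_45 r3_237 (nat_lit 0) (nat_lit 5003) (nat_lit 4214) (nat_lit 0x7fff1ac3a) (nat_lit 536938379),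
  Rx.mk (nat_lit 262) (nat_lit 6) (nat_lit 0) (nat_lit 4) (nat_lit 1) (nat_lit 41) (nat_lit 235) r12_41 r3_235 (nat_lit 0) (nat_lit 4214) (nat_lit 5003) (nat_lit 0x7fff1ac3a) (nat_lit 536938379),
  Rx.mk (nat_lit 278) (nat_lit 6) (nat_lit 2) (nat_lit 4) (nat_lit 3) (nat_lit 43) (nat_lit 241) r12_43 r3_241 (nat_lit 0) (nat_lit 0) (nat_lit 475299) (nat_lit 0x6da4f8700) (nat_lit 834267961),
  Rx.mk (nat_lit 282) (nat_lit 2) (nat_lit 3) (nat_lit 4) (nat_lit 3) (nat_lit 47) (nat_lit 239) r12_47 r3_239 (nat_lit 0) (nat_lit 0) (nat_lit 80128) (nat_lit 0x7ffce7580) (nat_lit 537198240),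
  Rx.mk (nat_lit 386) (nat_lit 2) (nat_lit 0) (nat_lit 6) (nat_lit 5) (nat_lit 46) (nat_lit 238) r12_46 r3_238 (nat_lit 0) (nat_lit 475299) (nat_lit 0) (nat_lit 0x6da4f8700) (nat_lit 834267961),
  Rx.mk (nat_lit 410) (nat_lit 2) (nat_lit 3) (nat_lit 6) (nat_lit 7) (nat_lit 48) (nat_lit 240) r12_48 r3_240 (nat_lit 0) (nat_lit 0) (nat_lit 0) (nat_lit 0x8380378ba) (nat_lit 483854562),
  Rx.mk (nat_lit 454) (nat_lit 6) (nat_lit 0) (nat_lit 7) (nat_lit 5) (nat_lit 42) (nat_lit 236) r12_42 r3_236 (nat_lit 0) (nat_lit 80128) (nat_lit 0) (nat_lit 0x7ffce7580) (nat_lit 537198240),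
  Rx.mk (nat_lit 470) (nat_lit 6) (nat_lit 2) (nat_lit 7) (nat_lit 7) (nat_lit 44) (nat_lit 242) r12_44 r3_242 (nat_lit 0) (nat_lit 0) (nat_lit 0) (nat_lit 0x8380378ba) (nat_lit 483854562)]
noncomputable def e36_7 : List Rx := [
  Rx.mk (nat_lit 258) (nat_lit 2) (nat_lit 0) (nat_lit 4) (nat_lit 1) (nat_lit 53) (nat_lit 238) r12_53 r0_238 (nat_lit 0) (nat_lit 1147203) (nat_lit 939367) (nat_lit 0x56a34f6d6) (nat_lit 1208040532),
  Rx.mk (nat_lit 262) (nat_lit 6) (nat_lit 0) (nat_lit 4) (nat_lit 1) (nat_lit 49) (nat_lit 236) r12_49 r0_236 (nat_lit 0) (nat_lit 483498) (nat_lit 337141) (nat_lit 0x69bd8207c) (nat_lit 897741001),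
  Rx.mk (nat_lit 278) (nat_lit 6) (nat_lit 2) (nat_lit 4) (nat_lit 3) (nat_lit 51) (nat_lit 241) r12_51 r0_241 (nat_lit 0) (nat_lit 0) (nat_lit 7132573) (nat_lit 0x7f5e76888) (nat_lit 555234485),
  Rx.mk (nat_lit 322) (nat_lit 2) (nat_lit 0) (nat_lit 5) (nat_lit 5) (nat_lit 54) (nat_lit 239) r12_54 r0_239 (nat_lit 0) (nat_lit 17412885) (nat_lit 0) (nat_lit 0x6e9844ff8) (nat_lit 836304197),
  Rx.mk (nat_lit 326) (nat_lit 6) (nat_lit 0) (nat_lit 5) (nat_lit 5) (nat_lit 50) (nat_lit 237) r12_50 r0_237 (nat_lit 0) (nat_lit 110144) (nat_lit 0) (nat_lit 0x82822bbe0) (nat_lit 498750706),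
  Rx.mk (nat_lit 342) (nat_lit 6) (nat_lit 2) (nat_lit 5) (nat_lit 7) (nat_lit 52) (nat_lit 242) r12_52 r0_242 (nat_lit 0) (nat_lit 0) (nat_lit 0) (nat_lit 0x91ea2ede6) (nat_lit 264130312),
  Rx.mk (nat_lit 386) (nat_lit 2) (nat_lit 0) (nat_lit 6) (nat_lit 5) (nat_lit 55) (nat_lit 240) r12_55 r0_240 (nat_lit 0) (nat_lit 5034045) (nat_lit 0) (nat_lit 0x6bcc7805c) (nat_lit 869121807)]
noncomputable def e36_8 : List Rx := [
  Rx.mk (nat_lit 322) (nat_lit 2) (nat_lit 0) (nat_lit 5) (nat_lit 5) (nat_lit 58) (nat_lit 250) r12_58 r1_250 (nat_lit 0) (nat_lit 20432270) (nat_lit 0) (nat_lit 0x807054a04) (nat_lit 551662282),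
  Rx.mk (nat_lit 326) (nat_lit 6) (nat_lit 0) (nat_lit 5) (nat_lit 5) (nat_lit 56) (nat_lit 249) r12_56 r1_249 (nat_lit 0) (nat_lit 188525) (nat_lit 0) (nat_lit 0x82e82ffae) (nat_lit 492764987),
  Rx.mk (nat_lit 342) (nat_lit 6) (nat_lit 2) (nat_lit 5) (nat_lit 7) (nat_lit 57) (nat_lit 251) r12_57 r1_251 (nat_lit 0) (nat_lit 0) (nat_lit 0) (nat_lit 0x8ee42ae52) (nat_lit 310307562)]
noncomputable def e36_9 : List Rx := [
  Rx.mk (nat_lit 258) (nat_lit 2) (nat_lit 0) (nat_lit 4) (nat_lit 1) (nat_lit 65) (nat_lit 244) r12_65 r4_244 (nat_lit 0) (nat_lit 2631942) (nat_lit 1714766) (nat_lit 0x6423137c0) (nat_lit 992114620),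
  Rx.mk (nat_lit 262) (nat_lit 6) (nat_lit 0) (nat_lit 4) (nat_lit 1) (nat_lit 59) (nat_lit 241) r12_59 r4_241 (nat_lit 0) (nat_lit 58690) (nat_lit 41553) (nat_lit 0x7b312194a) (nat_lit 614735255),
  Rx.mk (nat_lit 278) (nat_lit 6) (nat_lit 2) (nat_lit 4) (nat_lit 3) (nat_lit 62) (nat_lit 250) r12_62 r4_250 (nat_lit 0) (nat_lit 0) (nat_lit 4688491) (nat_lit 0x7f006038e) (nat_lit 558460953),
  Rx.mk (nat_lit 282) (nat_lit 2) (nat_lit 3) (nat_lit 4) (nat_lit 3) (nat_lit 68) (nat_lit 247) r12_68 r4_247 (nat_lit 0) (nat_lit 0) (nat_lit 99316) (nat_lit 0x5a569f38c) (nat_lit 1146020178),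
  Rx.mk (nat_lit 322) (nat_lit 2) (nat_lit 0) (nat_lit 5) (nat_lit 5) (nat_lit 66) (nat_lit 245) r12_66 r4_245 (nat_lit 0) (nat_lit 9667445) (nat_lit 0) (nat_lit 0x7e44f4f8c) (nat_lit 575356507),
  Rx.mk (nat_lit 326) (nat_lit 6) (nat_lit 0) (nat_lit 5) (nat_lit 5) (nat_lit 60) (nat_lit 242) r12_60 r4_242 (nat_lit 0) (nat_lit 8369781) (nat_lit 0) (nat_lit 0x7f5bb069e) (nat_lit 556643943),
  Rx.mk (nat_lit 342) (nat_lit 6) (nat_lit 2) (nat_lit 5) (nat_lit 7) (nat_lit 63) (nat_lit 251) r12_63 r4_251 (nat_lit 0) (nat_lit 0) (nat_lit 0) (nat_lit 0x80a484a0e) (nat_lit 528215812),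
  Rx.mk (nat_lit 346) (nat_lit 2) (nat_lit 3) (nat_lit 5) (nat_lit 7) (nat_lit 69) (nat_lit 248) r12_69 r4_248 (nat_lit 0) (nat_lit 0) (nat_lit 0) (nat_lit 0x7feb6c558) (nat_lit 539045512),
  Rx.mk (nat_lit 386) (nat_lit 2) (nat_lit 0) (nat_lit 6) (nat_lit 5) (nat_lit 67) (nat_lit 246) r12_67 r4_246 (nat_lit 0) (nat_lit 10567436) (nat_lit 0) (nat_lit 0x755c3f9fc) (nat_lit 720133798),
  Rx.mk (nat_lit 410) (nat_lit 2) (nat_lit 3) (nat_lit 6) (nat_lit 7) (nat_lit 70) (nat_lit 249) r12_70 r4_249 (nat_lit 0) (nat_lit 0) (nat_lit 0) (nat_lit 0x7f2695054) (nat_lit 551109212),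
  Rx.mk (nat_lit 454) (nat_lit 6) (nat_lit 0) (nat_lit 7) (nat_lit 5) (nat_lit 61) (nat_lit 243) r12_61 r4_243 (nat_lit 0) (nat_lit 12827212) (nat_lit 0) (nat_lit 0x80d8b15d4) (nat_lit 537881374),
  Rx.mk (nat_lit 470) (nat_lit 6) (nat_lit 2) (nat_lit 7) (nat_lit 7) (nat_lit 64) (nat_lit 252) r12_64 r4_252 (nat_lit 0) (nat_lit 0) (nat_lit 0) (nat_lit 0x80c5a12f0) (nat_lit 526217362)]
noncomputable def e36_10 : List Rx := [
  Rx.mk (nat_lit 55) (nat_lit 7) (nat_lit 6) (nat_lit 0) (nat_lit 3) (nat_lit 76) (nat_lit 270) r12_76 r6_270 (nat_lit 0) (nat_lit 0) (nat_lit 553755) (nat_lit 0x7fb8fc4c4) (nat_lit 542151267),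
  Rx.mk (nat_lit 183) (nat_lit 7) (nat_lit 6) (nat_lit 2) (nat_lit 7) (nat_lit 77) (nat_lit 272) r12_77 r6_272 (nat_lit 0) (nat_lit 0) (nat_lit 0) (nat_lit 0x82c9245f6) (nat_lit 494708962),
  Rx.mk (nat_lit 212) (nat_lit 4) (nat_lit 2) (nat_lit 3) (nat_lit 6) (nat_lit 72) (nat_lit 268) r12_72 r6_268 (nat_lit 136696) (nat_lit 0) (nat_lit 0) (nat_lit 0x7fdc594a8) (nat_lit 539308358),
  Rx.mk (nat_lit 214) (nat_lit 6) (nat_lit 2) (nat_lit 3) (nat_lit 7) (nat_lit 75) (nat_lit 274) r12_75 r6_274 (nat_lit 0) (nat_lit 0) (nat_lit 0) (nat_lit 0x8008848c0) (nat_lit 536614962),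
  Rx.mk (nat_lit 244) (nat_lit 4) (nat_lit 6) (nat_lit 3) (nat_lit 6) (nat_lit 71) (nat_lit 269) r12_71 r6_269 (nat_lit 580263) (nat_lit 0) (nat_lit 0) (nat_lit 0x7f28ad08a) (nat_lit 551200875),
  Rx.mk (nat_lit 247) (nat_lit 7) (nat_lit 6) (nat_lit 3) (nat_lit 7) (nat_lit 78) (nat_lit 271) r12_78 r6_271 (nat_lit 0) (nat_lit 0) (nat_lit 0) (nat_lit 0x83d678a8a) (nat_lit 478658912),
  Rx.mk (nat_lit 282) (nat_lit 2) (nat_lit 3) (nat_lit 4) (nat_lit 3) (nat_lit 80) (nat_lit 265) r12_80 r6_265 (nat_lit 0) (nat_lit 0) (nat_lit 553755) (nat_lit 0x7fb8fc4c4) (nat_lit 542151267),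
  Rx.mk (nat_lit 410) (nat_lit 2) (nat_lit 3) (nat_lit 6) (nat_lit 7) (nat_lit 81) (nat_lit 267) r12_81 r6_267 (nat_lit 0) (nat_lit 0) (nat_lit 0) (nat_lit 0x82c9245f6) (nat_lit 494708962),
  Rx.mk (nat_lit 450) (nat_lit 2) (nat_lit 0) (nat_lit 7) (nat_lit 5) (nat_lit 79) (nat_lit 264) r12_79 r6_264 (nat_lit 0) (nat_lit 580263) (nat_lit 0) (nat_lit 0x7f28ad08a) (nat_lit 551200875),
  Rx.mk (nat_lit 454) (nat_lit 6) (nat_lit 0) (nat_lit 7) (nat_lit 5) (nat_lit 73) (nat_lit 273) r12_73 r6_273 (nat_lit 0) (nat_lit 136696) (nat_lit 0) (nat_lit 0x7fdc594a8) (nat_lit 539308358),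
  Rx.mk (nat_lit 470) (nat_lit 6) (nat_lit 2) (nat_lit 7) (nat_lit 7) (nat_lit 74) (nat_lit 275) r12_74 r6_275 (nat_lit 0) (nat_lit 0) (nat_lit 0) (nat_lit 0x8008848c0) (nat_lit 536614962),
  Rx.mk (nat_lit 474) (nat_lit 2) (nat_lit 3) (nat_lit 7) (nat_lit 7) (nat_lit 82) (nat_lit 266) r12_82 r6_266 (nat_lit 0) (nat_lit 0) (nat_lit 0) (nat_lit 0x83d678a8a) (nat_lit 478658912)]
noncomputable def e36_11 : List Rx := [
  Rx.mk (nat_lit 258) (nat_lit 2) (nat_lit 0) (nat_lit 4) (nat_lit 1) (nat_lit 85) (nat_lit 246) r12_85 r5_246 (nat_lit 0) (nat_lit 257136) (nat_lit 183720) (nat_lit 0x78fe81dd4) (nat_lit 650662468),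
  Rx.mk (nat_lit 282) (nat_lit 2) (nat_lit 3) (nat_lit 4) (nat_lit 3) (nat_lit 88) (nat_lit 249) r12_88 r5_249 (nat_lit 0) (nat_lit 0) (nat_lit 385241) (nat_lit 0x80ae72098) (nat_lit 527020953),
  Rx.mk (nat_lit 386) (nat_lit 2) (nat_lit 0) (nat_lit 6) (nat_lit 5) (nat_lit 86) (nat_lit 248) r12_86 r5_248 (nat_lit 0) (nat_lit 6750895) (nat_lit 0) (nat_lit 0x78f123c8c) (nat_lit 658355657),
  Rx.mk (nat_lit 410) (nat_lit 2) (nat_lit 3) (nat_lit 6) (nat_lit 7) (nat_lit 89) (nat_lit 250) r12_89 r5_250 (nat_lit 0) (nat_lit 0) (nat_lit 0) (nat_lit 0x8f2213cf0) (nat_lit 306467812),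
  Rx.mk (nat_lit 450) (nat_lit 2) (nat_lit 0) (nat_lit 7) (nat_lit 5) (nat_lit 87) (nat_lit 247) r12_87 r5_247 (nat_lit 0) (nat_lit 3185059) (nat_lit 0) (nat_lit 0x8418ad1da) (nat_lit 478052171),
  Rx.mk (nat_lit 454) (nat_lit 6) (nat_lit 0) (nat_lit 7) (nat_lit 5) (nat_lit 83) (nat_lit 245) r12_83 r5_245 (nat_lit 0) (nat_lit 174098) (nat_lit 0) (nat_lit 0x8023fadac) (nat_lit 534971660),
  Rx.mk (nat_lit 470) (nat_lit 6) (nat_lit 2) (nat_lit 7) (nat_lit 7) (nat_lit 84) (nat_lit 251) r12_84 r5_251 (nat_lit 0) (nat_lit 0) (nat_lit 0) (nat_lit 0x7a825aed4) (nat_lit 625769862)]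
noncomputable def e36_12 : List Rx := [
  Rx.mk (nat_lit 20) (nat_lit 4) (nat_lit 2) (nat_lit 0) (nat_lit 2) (nat_lit 92) (nat_lit 238) r12_92 r0_238 (nat_lit 939367) (nat_lit 0) (nat_lit 1147203) (nat_lit 0x56a34f6d6) (nat_lit 1208040532),
  Rx.mk (nat_lit 21) (nat_lit 5) (nat_lit 2) (nat_lit 0) (nat_lit 3) (nat_lit 95) (nat_lit 239) r12_95 r0_239 (nat_lit 0) (nat_lit 0) (nat_lit 17412885) (nat_lit 0x6e9844ff8) (nat_lit 836304197),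
  Rx.mk (nat_lit 22) (nat_lit 6) (nat_lit 2) (nat_lit 0) (nat_lit 3) (nat_lit 96) (nat_lit 240) r12_96 r0_240 (nat_lit 0) (nat_lit 0) (nat_lit 5034045) (nat_lit 0x6bcc7805c) (nat_lit 869121807),
  Rx.mk (nat_lit 52) (nat_lit 4) (nat_lit 6) (nat_lit 0) (nat_lit 2) (nat_lit 90) (nat_lit 236) r12_90 r0_236 (nat_lit 337141) (nat_lit 0) (nat_lit 483498) (nat_lit 0x69bd8207c) (nat_lit 897741001),
  Rx.mk (nat_lit 53) (nat_lit 5) (nat_lit 6) (nat_lit 0) (nat_lit 3) (nat_lit 93) (nat_lit 237) r12_93 r0_237 (nat_lit 0) (nat_lit 0) (nat_lit 110144) (nat_lit 0x82822bbe0) (nat_lit 498750706),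
  Rx.mk (nat_lit 180) (nat_lit 4) (nat_lit 6) (nat_lit 2) (nat_lit 6) (nat_lit 91) (nat_lit 241) r12_91 r0_241 (nat_lit 7132573) (nat_lit 0) (nat_lit 0) (nat_lit 0x7f5e76888) (nat_lit 555234485),
  Rx.mk (nat_lit 181) (nat_lit 5) (nat_lit 6) (nat_lit 2) (nat_lit 7) (nat_lit 94) (nat_lit 242) r12_94 r0_242 (nat_lit 0) (nat_lit 0) (nat_lit 0) (nat_lit 0x91ea2ede6) (nat_lit 264130312)]
noncomputable def e36_13 : List Rx := [
  Rx.mk (nat_lit 20) (nat_lit 4) (nat_lit 2) (nat_lit 0) (nat_lit 2) (nat_lit 100) (nat_lit 303) r12_100 r7_303 (nat_lit 1948491) (nat_lit 0) (nat_lit 2071523) (nat_lit 0x725343702) (nat_lit 762393676),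
  Rx.mk (nat_lit 21) (nat_lit 5) (nat_lit 2) (nat_lit 0) (nat_lit 3) (nat_lit 105) (nat_lit 308) r12_105 r7_308 (nat_lit 0) (nat_lit 0) (nat_lit 8527156) (nat_lit 0x81695c1f6) (nat_lit 524761868),
  Rx.mk (nat_lit 22) (nat_lit 6) (nat_lit 2) (nat_lit 0) (nat_lit 3) (nat_lit 107) (nat_lit 313) r12_107 r7_313 (nat_lit 0) (nat_lit 0) (nat_lit 6800525) (nat_lit 0x808257a3a) (nat_lit 536924437),
  Rx.mk (nat_lit 52) (nat_lit 4) (nat_lit 6) (nat_lit 0) (nat_lit 2) (nat_lit 97) (nat_lit 305) r12_97 r7_305 (nat_lit 2071523) (nat_lit 0) (nat_lit 1948491) (nat_lit 0x725343702) (nat_lit 762393676),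
  Rx.mk (nat_lit 53) (nat_lit 5) (nat_lit 6) (nat_lit 0) (nat_lit 3) (nat_lit 102) (nat_lit 310) r12_102 r7_310 (nat_lit 0) (nat_lit 0) (nat_lit 6531868) (nat_lit 0x84ddc88ac) (nat_lit 469895630),
  Rx.mk (nat_lit 84) (nat_lit 4) (nat_lit 2) (nat_lit 1) (nat_lit 6) (nat_lit 101) (nat_lit 304) r12_101 r7_304 (nat_lit 6531868) (nat_lit 0) (nat_lit 0) (nat_lit 0x84ddc88ac) (nat_lit 469895630),
  Rx.mk (nat_lit 85) (nat_lit 5) (nat_lit 2) (nat_lit 1) (nat_lit 7) (nat_lit 106) (nat_lit 309) r12_106 r7_309 (nat_lit 0) (nat_lit 0) (nat_lit 0) (nat_lit 0x80a647396) (nat_lit 528139662),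
  Rx.mk (nat_lit 86) (nat_lit 6) (nat_lit 2) (nat_lit 1) (nat_lit 7) (nat_lit 108) (nat_lit 314) r12_108 r7_314 (nat_lit 0) (nat_lit 0) (nat_lit 0) (nat_lit 0x8167097d2) (nat_lit 516457412),
  Rx.mk (nat_lit 116) (nat_lit 4) (nat_lit 6) (nat_lit 1) (nat_lit 6) (nat_lit 98) (nat_lit 306) r12_98 r7_306 (nat_lit 8527156) (nat_lit 0) (nat_lit 0) (nat_lit 0x81695c1f6) (nat_lit 524761868),
  Rx.mk (nat_lit 117) (nat_lit 5) (nat_lit 6) (nat_lit 1) (nat_lit 7) (nat_lit 103) (nat_lit 311) r12_103 r7_311 (nat_lit 0) (nat_lit 0) (nat_lit 0) (nat_lit 0x80a647396) (nat_lit 528139662),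
  Rx.mk (nat_lit 180) (nat_lit 4) (nat_lit 6) (nat_lit 2) (nat_lit 6) (nat_lit 99) (nat_lit 307) r12_99 r7_307 (nat_lit 6800525) (nat_lit 0) (nat_lit 0) (nat_lit 0x808257a3a) (nat_lit 536924437),
  Rx.mk (nat_lit 181) (nat_lit 5) (nat_lit 6) (nat_lit 2) (nat_lit 7) (nat_lit 104) (nat_lit 312) r12_104 r7_312 (nat_lit 0) (nat_lit 0) (nat_lit 0) (nat_lit 0x8167097d2) (nat_lit 516457412)]
noncomputable def e36_14 : List Rx := [
  Rx.mk (nat_lit 21) (nat_lit 5) (nat_lit 2) (nat_lit 0) (nat_lit 3) (nat_lit 111) (nat_lit 250) r12_111 r1_250 (nat_lit 0) (nat_lit 0) (nat_lit 20432270) (nat_lit 0x807054a04) (nat_lit 551662282),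
  Rx.mk (nat_lit 53) (nat_lit 5) (nat_lit 6) (nat_lit 0) (nat_lit 3) (nat_lit 109) (nat_lit 249) r12_109 r1_249 (nat_lit 0) (nat_lit 0) (nat_lit 188525) (nat_lit 0x82e82ffae) (nat_lit 492764987),
  Rx.mk (nat_lit 181) (nat_lit 5) (nat_lit 6) (nat_lit 2) (nat_lit 7) (nat_lit 110) (nat_lit 251) r12_110 r1_251 (nat_lit 0) (nat_lit 0) (nat_lit 0) (nat_lit 0x8ee42ae52) (nat_lit 310307562)]
noncomputable def e36_15 : List Rx := [
  Rx.mk (nat_lit 21) (nat_lit 5) (nat_lit 2) (nat_lit 0) (nat_lit 3) (nat_lit 115) (nat_lit 225) r12_115 r8_225 (nat_lit 0) (nat_lit 0) (nat_lit 25796827) (nat_lit 0x7fa80b20a) (nat_lit 569524589),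
  Rx.mk (nat_lit 53) (nat_lit 5) (nat_lit 6) (nat_lit 0) (nat_lit 3) (nat_lit 112) (nat_lit 227) r12_112 r8_227 (nat_lit 0) (nat_lit 0) (nat_lit 8954591) (nat_lit 0x8144dd5dc) (nat_lit 527420603),
  Rx.mk (nat_lit 85) (nat_lit 5) (nat_lit 2) (nat_lit 1) (nat_lit 7) (nat_lit 116) (nat_lit 226) r12_116 r8_226 (nat_lit 0) (nat_lit 0) (nat_lit 0) (nat_lit 0x8017985b4) (nat_lit 536870912),
  Rx.mk (nat_lit 117) (nat_lit 5) (nat_lit 6) (nat_lit 1) (nat_lit 7) (nat_lit 113) (nat_lit 228) r12_113 r8_228 (nat_lit 0) (nat_lit 0) (nat_lit 0) (nat_lit 0x8017985b4) (nat_lit 536870912),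
  Rx.mk (nat_lit 181) (nat_lit 5) (nat_lit 6) (nat_lit 2) (nat_lit 7) (nat_lit 114) (nat_lit 229) r12_114 r8_229 (nat_lit 0) (nat_lit 0) (nat_lit 0) (nat_lit 0x8017985b4) (nat_lit 536870912)]
noncomputable def e36_16 : List Rx := [
  Rx.mk (nat_lit 84) (nat_lit 4) (nat_lit 2) (nat_lit 1) (nat_lit 6) (nat_lit 118) (nat_lit 227) r12_118 r8_227 (nat_lit 8954591) (nat_lit 0) (nat_lit 0) (nat_lit 0x8144dd5dc) (nat_lit 527420603),
  Rx.mk (nat_lit 85) (nat_lit 5) (nat_lit 2) (nat_lit 1) (nat_lit 7) (nat_lit 120) (nat_lit 228) r12_120 r8_228 (nat_lit 0) (nat_lit 0) (nat_lit 0) (nat_lit 0x8017985b4) (nat_lit 536870912),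
  Rx.mk (nat_lit 86) (nat_lit 6) (nat_lit 2) (nat_lit 1) (nat_lit 7) (nat_lit 121) (nat_lit 229) r12_121 r8_229 (nat_lit 0) (nat_lit 0) (nat_lit 0) (nat_lit 0x8017985b4) (nat_lit 536870912),
  Rx.mk (nat_lit 116) (nat_lit 4) (nat_lit 6) (nat_lit 1) (nat_lit 6) (nat_lit 117) (nat_lit 225) r12_117 r8_225 (nat_lit 25796827) (nat_lit 0) (nat_lit 0) (nat_lit 0x7fa80b20a) (nat_lit 569524589),
  Rx.mk (nat_lit 117) (nat_lit 5) (nat_lit 6) (nat_lit 1) (nat_lit 7) (nat_lit 119) (nat_lit 226) r12_119 r8_226 (nat_lit 0) (nat_lit 0) (nat_lit 0) (nat_lit 0x8017985b4) (nat_lit 536870912)]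
noncomputable def e36_17 : List Rx := [
  Rx.mk (nat_lit 84) (nat_lit 4) (nat_lit 2) (nat_lit 1) (nat_lit 6) (nat_lit 122) (nat_lit 244) r12_122 r9_244 (nat_lit 25288573) (nat_lit 0) (nat_lit 0) (nat_lit 0x7f59c63d8) (nat_lit 573834985),
  Rx.mk (nat_lit 85) (nat_lit 5) (nat_lit 2) (nat_lit 1) (nat_lit 7) (nat_lit 123) (nat_lit 245) r12_123 r9_245 (nat_lit 0) (nat_lit 0) (nat_lit 0) (nat_lit 0x8017985b4) (nat_lit 536870912),
  Rx.mk (nat_lit 86) (nat_lit 6) (nat_lit 2) (nat_lit 1) (nat_lit 7) (nat_lit 125) (nat_lit 246) r12_125 r9_246 (nat_lit 0) (nat_lit 0) (nat_lit 0) (nat_lit 0x8017985b4) (nat_lit 536870912),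
  Rx.mk (nat_lit 342) (nat_lit 6) (nat_lit 2) (nat_lit 5) (nat_lit 7) (nat_lit 124) (nat_lit 247) r12_124 r9_247 (nat_lit 0) (nat_lit 0) (nat_lit 0) (nat_lit 0x8017985b4) (nat_lit 536870912)]
noncomputable def e36_18 : List Rx := [
  Rx.mk (nat_lit 20) (nat_lit 4) (nat_lit 2) (nat_lit 0) (nat_lit 2) (nat_lit 128) (nat_lit 244) r12_128 r4_244 (nat_lit 1714766) (nat_lit 0) (nat_lit 2631942) (nat_lit 0x6423137c0) (nat_lit 992114620),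
  Rx.mk (nat_lit 21) (nat_lit 5) (nat_lit 2) (nat_lit 0) (nat_lit 3) (nat_lit 132) (nat_lit 245) r12_132 r4_245 (nat_lit 0) (nat_lit 0) (nat_lit 9667445) (nat_lit 0x7e44f4f8c) (nat_lit 575356507),
  Rx.mk (nat_lit 22) (nat_lit 6) (nat_lit 2) (nat_lit 0) (nat_lit 3) (nat_lit 134) (nat_lit 246) r12_134 r4_246 (nat_lit 0) (nat_lit 0) (nat_lit 10567436) (nat_lit 0x755c3f9fc) (nat_lit 720133798),
  Rx.mk (nat_lit 52) (nat_lit 4) (nat_lit 6) (nat_lit 0) (nat_lit 2) (nat_lit 126) (nat_lit 241) r12_126 r4_241 (nat_lit 41553) (nat_lit 0) (nat_lit 58690) (nat_lit 0x7b312194a) (nat_lit 614735255),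
  Rx.mk (nat_lit 53) (nat_lit 5) (nat_lit 6) (nat_lit 0) (nat_lit 3) (nat_lit 130) (nat_lit 242) r12_130 r4_242 (nat_lit 0) (nat_lit 0) (nat_lit 8369781) (nat_lit 0x7f5bb069e) (nat_lit 556643943),
  Rx.mk (nat_lit 55) (nat_lit 7) (nat_lit 6) (nat_lit 0) (nat_lit 3) (nat_lit 136) (nat_lit 243) r12_136 r4_243 (nat_lit 0) (nat_lit 0) (nat_lit 12827212) (nat_lit 0x80d8b15d4) (nat_lit 537881374),
  Rx.mk (nat_lit 180) (nat_lit 4) (nat_lit 6) (nat_lit 2) (nat_lit 6) (nat_lit 127) (nat_lit 250) r12_127 r4_250 (nat_lit 4688491) (nat_lit 0) (nat_lit 0) (nat_lit 0x7f006038e) (nat_lit 558460953),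
  Rx.mk (nat_lit 181) (nat_lit 5) (nat_lit 6) (nat_lit 2) (nat_lit 7) (nat_lit 131) (nat_lit 251) r12_131 r4_251 (nat_lit 0) (nat_lit 0) (nat_lit 0) (nat_lit 0x80a484a0e) (nat_lit 528215812),
  Rx.mk (nat_lit 183) (nat_lit 7) (nat_lit 6) (nat_lit 2) (nat_lit 7) (nat_lit 137) (nat_lit 252) r12_137 r4_252 (nat_lit 0) (nat_lit 0) (nat_lit 0) (nat_lit 0x80c5a12f0) (nat_lit 526217362),
  Rx.mk (nat_lit 212) (nat_lit 4) (nat_lit 2) (nat_lit 3) (nat_lit 6) (nat_lit 129) (nat_lit 247) r12_129 r4_247 (nat_lit 99316) (nat_lit 0) (nat_lit 0) (nat_lit 0x5a569f38c) (nat_lit 1146020178),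
  Rx.mk (nat_lit 213) (nat_lit 5) (nat_lit 2) (nat_lit 3) (nat_lit 7) (nat_lit 133) (nat_lit 248) r12_133 r4_248 (nat_lit 0) (nat_lit 0) (nat_lit 0) (nat_lit 0x7feb6c558) (nat_lit 539045512),
  Rx.mk (nat_lit 214) (nat_lit 6) (nat_lit 2) (nat_lit 3) (nat_lit 7) (nat_lit 135) (nat_lit 249) r12_135 r4_249 (nat_lit 0) (nat_lit 0) (nat_lit 0) (nat_lit 0x7f2695054) (nat_lit 551109212)]
noncomputable def e36_19 : List Rx := [
  Rx.mk (nat_lit 20) (nat_lit 4) (nat_lit 2) (nat_lit 0) (nat_lit 2) (nat_lit 141) (nat_lit 257) r12_141 r10_257 (nat_lit 2436129) (nat_lit 0) (nat_lit 2577418) (nat_lit 0x73aa6288e) (nat_lit 741762309),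
  Rx.mk (nat_lit 21) (nat_lit 5) (nat_lit 2) (nat_lit 0) (nat_lit 3) (nat_lit 146) (nat_lit 263) r12_146 r10_263 (nat_lit 0) (nat_lit 0) (nat_lit 12157828) (nat_lit 0x8125a3a9a) (nat_lit 532563440),
  Rx.mk (nat_lit 22) (nat_lit 6) (nat_lit 2) (nat_lit 0) (nat_lit 3) (nat_lit 148) (nat_lit 270) r12_148 r10_270 (nat_lit 0) (nat_lit 0) (nat_lit 6405981) (nat_lit 0x808bbb2fc) (nat_lit 535951843),
  Rx.mk (nat_lit 52) (nat_lit 4) (nat_lit 6) (nat_lit 0) (nat_lit 2) (nat_lit 138) (nat_lit 260) r12_138 r10_260 (nat_lit 2577418) (nat_lit 0) (nat_lit 2436129) (nat_lit 0x73aa6288e) (nat_lit 741762309),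
  Rx.mk (nat_lit 53) (nat_lit 5) (nat_lit 6) (nat_lit 0) (nat_lit 3) (nat_lit 144) (nat_lit 265) r12_144 r10_265 (nat_lit 0) (nat_lit 0) (nat_lit 8688892) (nat_lit 0x823a95ac4) (nat_lit 512418754),
  Rx.mk (nat_lit 55) (nat_lit 7) (nat_lit 6) (nat_lit 0) (nat_lit 3) (nat_lit 151) (nat_lit 267) r12_151 r10_267 (nat_lit 0) (nat_lit 0) (nat_lit 8688910) (nat_lit 0x823a961a4) (nat_lit 512418672),
  Rx.mk (nat_lit 84) (nat_lit 4) (nat_lit 2) (nat_lit 1) (nat_lit 6) (nat_lit 142) (nat_lit 258) r12_142 r10_258 (nat_lit 8688892) (nat_lit 0) (nat_lit 0) (nat_lit 0x823a95ac4) (nat_lit 512418754),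
  Rx.mk (nat_lit 86) (nat_lit 6) (nat_lit 2) (nat_lit 1) (nat_lit 7) (nat_lit 149) (nat_lit 271) r12_149 r10_271 (nat_lit 0) (nat_lit 0) (nat_lit 0) (nat_lit 0x811742e92) (nat_lit 521278712),
  Rx.mk (nat_lit 116) (nat_lit 4) (nat_lit 6) (nat_lit 1) (nat_lit 6) (nat_lit 139) (nat_lit 261) r12_139 r10_261 (nat_lit 12157828) (nat_lit 0) (nat_lit 0) (nat_lit 0x8125a3a9a) (nat_lit 532563440),
  Rx.mk (nat_lit 119) (nat_lit 7) (nat_lit 6) (nat_lit 1) (nat_lit 7) (nat_lit 152) (nat_lit 268) r12_152 r10_268 (nat_lit 0) (nat_lit 0) (nat_lit 0) (nat_lit 0x8017985b4) (nat_lit 536870912),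
  Rx.mk (nat_lit 180) (nat_lit 4) (nat_lit 6) (nat_lit 2) (nat_lit 6) (nat_lit 140) (nat_lit 262) r12_140 r10_262 (nat_lit 6405981) (nat_lit 0) (nat_lit 0) (nat_lit 0x808bbb2fc) (nat_lit 535951843),
  Rx.mk (nat_lit 181) (nat_lit 5) (nat_lit 6) (nat_lit 2) (nat_lit 7) (nat_lit 145) (nat_lit 266) r12_145 r10_266 (nat_lit 0) (nat_lit 0) (nat_lit 0) (nat_lit 0x811742e92) (nat_lit 521278712),
  Rx.mk (nat_lit 183) (nat_lit 7) (nat_lit 6) (nat_lit 2) (nat_lit 7) (nat_lit 153) (nat_lit 269) r12_153 r10_269 (nat_lit 0) (nat_lit 0) (nat_lit 0) (nat_lit 0x8117427e4) (nat_lit 521278812),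
  Rx.mk (nat_lit 212) (nat_lit 4) (nat_lit 2) (nat_lit 3) (nat_lit 6) (nat_lit 143) (nat_lit 259) r12_143 r10_259 (nat_lit 8688910) (nat_lit 0) (nat_lit 0) (nat_lit 0x823a961a4) (nat_lit 512418672),
  Rx.mk (nat_lit 213) (nat_lit 5) (nat_lit 2) (nat_lit 3) (nat_lit 7) (nat_lit 147) (nat_lit 264) r12_147 r10_264 (nat_lit 0) (nat_lit 0) (nat_lit 0) (nat_lit 0x8017985b4) (nat_lit 536870912),
  Rx.mk (nat_lit 214) (nat_lit 6) (nat_lit 2) (nat_lit 3) (nat_lit 7) (nat_lit 150) (nat_lit 272) r12_150 r10_272 (nat_lit 0) (nat_lit 0) (nat_lit 0) (nat_lit 0x8117427e4) (nat_lit 521278812)]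
noncomputable def e36_20 : List Rx := [
  Rx.mk (nat_lit 52) (nat_lit 4) (nat_lit 6) (nat_lit 0) (nat_lit 2) (nat_lit 154) (nat_lit 288) r12_154 r11_288 (nat_lit 4468885) (nat_lit 0) (nat_lit 4803434) (nat_lit 0x77fe54128) (nat_lit 676180381),
  Rx.mk (nat_lit 53) (nat_lit 5) (nat_lit 6) (nat_lit 0) (nat_lit 3) (nat_lit 158) (nat_lit 292) r12_158 r11_292 (nat_lit 0) (nat_lit 0) (nat_lit 16057116) (nat_lit 0x7fc34d5cc) (nat_lit 558049628),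
  Rx.mk (nat_lit 55) (nat_lit 7) (nat_lit 6) (nat_lit 0) (nat_lit 3) (nat_lit 163) (nat_lit 295) r12_163 r11_295 (nat_lit 0) (nat_lit 0) (nat_lit 21075625) (nat_lit 0x804227960) (nat_lit 555330187),
  Rx.mk (nat_lit 180) (nat_lit 4) (nat_lit 6) (nat_lit 2) (nat_lit 6) (nat_lit 155) (nat_lit 290) r12_155 r11_290 (nat_lit 9075693) (nat_lit 0) (nat_lit 0) (nat_lit 0x80cd0b3ba) (nat_lit 534764955),
  Rx.mk (nat_lit 181) (nat_lit 5) (nat_lit 6) (nat_lit 2) (nat_lit 7) (nat_lit 159) (nat_lit 294) r12_159 r11_294 (nat_lit 0) (nat_lit 0) (nat_lit 0) (nat_lit 0x804e46f70) (nat_lit 533487162),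
  Rx.mk (nat_lit 183) (nat_lit 7) (nat_lit 6) (nat_lit 2) (nat_lit 7) (nat_lit 164) (nat_lit 296) r12_164 r11_296 (nat_lit 0) (nat_lit 0) (nat_lit 0) (nat_lit 0x8071a753c) (nat_lit 531344562),
  Rx.mk (nat_lit 212) (nat_lit 4) (nat_lit 2) (nat_lit 3) (nat_lit 6) (nat_lit 157) (nat_lit 287) r12_157 r11_287 (nat_lit 3201067) (nat_lit 0) (nat_lit 0) (nat_lit 0x80c289022) (nat_lit 529188929),
  Rx.mk (nat_lit 213) (nat_lit 5) (nat_lit 2) (nat_lit 3) (nat_lit 7) (nat_lit 161) (nat_lit 291) r12_161 r11_291 (nat_lit 0) (nat_lit 0) (nat_lit 0) (nat_lit 0x8f490b628) (nat_lit 304348712),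
  Rx.mk (nat_lit 214) (nat_lit 6) (nat_lit 2) (nat_lit 3) (nat_lit 7) (nat_lit 162) (nat_lit 297) r12_162 r11_297 (nat_lit 0) (nat_lit 0) (nat_lit 0) (nat_lit 0x853b3dfaa) (nat_lit 457742362),
  Rx.mk (nat_lit 244) (nat_lit 4) (nat_lit 6) (nat_lit 3) (nat_lit 6) (nat_lit 156) (nat_lit 289) r12_156 r11_289 (nat_lit 24820252) (nat_lit 0) (nat_lit 0) (nat_lit 0x800bab5a8) (nat_lit 562420664),
  Rx.mk (nat_lit 245) (nat_lit 5) (nat_lit 6) (nat_lit 3) (nat_lit 7) (nat_lit 160) (nat_lit 293) r12_160 r11_293 (nat_lit 0) (nat_lit 0) (nat_lit 0) (nat_lit 0x7ff71c2cc) (nat_lit 538851962)]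
noncomputable def e36_21 : List Rx := [
  Rx.mk (nat_lit 86) (nat_lit 6) (nat_lit 2) (nat_lit 1) (nat_lit 7) (nat_lit 168) (nat_lit 247) r12_168 r9_247 (nat_lit 0) (nat_lit 0) (nat_lit 0) (nat_lit 0x8017985b4) (nat_lit 536870912),
  Rx.mk (nat_lit 326) (nat_lit 6) (nat_lit 0) (nat_lit 5) (nat_lit 5) (nat_lit 165) (nat_lit 244) r12_165 r9_244 (nat_lit 0) (nat_lit 25288573) (nat_lit 0) (nat_lit 0x7f59c63d8) (nat_lit 573834985),
  Rx.mk (nat_lit 334) (nat_lit 6) (nat_lit 1) (nat_lit 5) (nat_lit 7) (nat_lit 166) (nat_lit 245) r12_166 r9_245 (nat_lit 0) (nat_lit 0) (nat_lit 0) (nat_lit 0x8017985b4) (nat_lit 536870912),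
  Rx.mk (nat_lit 342) (nat_lit 6) (nat_lit 2) (nat_lit 5) (nat_lit 7) (nat_lit 167) (nat_lit 246) r12_167 r9_246 (nat_lit 0) (nat_lit 0) (nat_lit 0) (nat_lit 0x8017985b4) (nat_lit 536870912)]
noncomputable def e36_22 : List Rx := [
  Rx.mk (nat_lit 258) (nat_lit 2) (nat_lit 0) (nat_lit 4) (nat_lit 1) (nat_lit 172) (nat_lit 236) r12_172 r0_236 (nat_lit 0) (nat_lit 337141) (nat_lit 483498) (nat_lit 0x69bd8207c) (nat_lit 897741001),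
  Rx.mk (nat_lit 262) (nat_lit 6) (nat_lit 0) (nat_lit 4) (nat_lit 1) (nat_lit 169) (nat_lit 238) r12_169 r0_238 (nat_lit 0) (nat_lit 939367) (nat_lit 1147203) (nat_lit 0x56a34f6d6) (nat_lit 1208040532),
  Rx.mk (nat_lit 266) (nat_lit 2) (nat_lit 1) (nat_lit 4) (nat_lit 3) (nat_lit 174) (nat_lit 237) r12_174 r0_237 (nat_lit 0) (nat_lit 0) (nat_lit 110144) (nat_lit 0x82822bbe0) (nat_lit 498750706),
  Rx.mk (nat_lit 270) (nat_lit 6) (nat_lit 1) (nat_lit 4) (nat_lit 3) (nat_lit 170) (nat_lit 239) r12_170 r0_239 (nat_lit 0) (nat_lit 0) (nat_lit 17412885) (nat_lit 0x6e9844ff8) (nat_lit 836304197),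
  Rx.mk (nat_lit 278) (nat_lit 6) (nat_lit 2) (nat_lit 4) (nat_lit 3) (nat_lit 171) (nat_lit 240) r12_171 r0_240 (nat_lit 0) (nat_lit 0) (nat_lit 5034045) (nat_lit 0x6bcc7805c) (nat_lit 869121807),
  Rx.mk (nat_lit 386) (nat_lit 2) (nat_lit 0) (nat_lit 6) (nat_lit 5) (nat_lit 173) (nat_lit 241) r12_173 r0_241 (nat_lit 0) (nat_lit 7132573) (nat_lit 0) (nat_lit 0x7f5e76888) (nat_lit 555234485),
  Rx.mk (nat_lit 394) (nat_lit 2) (nat_lit 1) (nat_lit 6) (nat_lit 7) (nat_lit 175) (nat_lit 242) r12_175 r0_242 (nat_lit 0) (nat_lit 0) (nat_lit 0) (nat_lit 0x91ea2ede6) (nat_lit 264130312)]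
noncomputable def e36_23 : List Rx := [
  Rx.mk (nat_lit 266) (nat_lit 2) (nat_lit 1) (nat_lit 4) (nat_lit 3) (nat_lit 177) (nat_lit 249) r12_177 r1_249 (nat_lit 0) (nat_lit 0) (nat_lit 188525) (nat_lit 0x82e82ffae) (nat_lit 492764987),
  Rx.mk (nat_lit 270) (nat_lit 6) (nat_lit 1) (nat_lit 4) (nat_lit 3) (nat_lit 176) (nat_lit 250) r12_176 r1_250 (nat_lit 0) (nat_lit 0) (nat_lit 20432270) (nat_lit 0x807054a04) (nat_lit 551662282),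
  Rx.mk (nat_lit 394) (nat_lit 2) (nat_lit 1) (nat_lit 6) (nat_lit 7) (nat_lit 178) (nat_lit 251) r12_178 r1_251 (nat_lit 0) (nat_lit 0) (nat_lit 0) (nat_lit 0x8ee42ae52) (nat_lit 310307562)]
noncomputable def e36_24 : List Rx := [
  Rx.mk (nat_lit 258) (nat_lit 2) (nat_lit 0) (nat_lit 4) (nat_lit 1) (nat_lit 185) (nat_lit 241) r12_185 r4_241 (nat_lit 0) (nat_lit 41553) (nat_lit 58690) (nat_lit 0x7b312194a) (nat_lit 614735255),
  Rx.mk (nat_lit 262) (nat_lit 6) (nat_lit 0) (nat_lit 4) (nat_lit 1) (nat_lit 179) (nat_lit 244) r12_179 r4_244 (nat_lit 0) (nat_lit 1714766) (nat_lit 2631942) (nat_lit 0x6423137c0) (nat_lit 992114620),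
  Rx.mk (nat_lit 266) (nat_lit 2) (nat_lit 1) (nat_lit 4) (nat_lit 3) (nat_lit 187) (nat_lit 242) r12_187 r4_242 (nat_lit 0) (nat_lit 0) (nat_lit 8369781) (nat_lit 0x7f5bb069e) (nat_lit 556643943),
  Rx.mk (nat_lit 270) (nat_lit 6) (nat_lit 1) (nat_lit 4) (nat_lit 3) (nat_lit 181) (nat_lit 245) r12_181 r4_245 (nat_lit 0) (nat_lit 0) (nat_lit 9667445) (nat_lit 0x7e44f4f8c) (nat_lit 575356507),
  Rx.mk (nat_lit 278) (nat_lit 6) (nat_lit 2) (nat_lit 4) (nat_lit 3) (nat_lit 183) (nat_lit 246) r12_183 r4_246 (nat_lit 0) (nat_lit 0) (nat_lit 10567436) (nat_lit 0x755c3f9fc) (nat_lit 720133798),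
  Rx.mk (nat_lit 282) (nat_lit 2) (nat_lit 3) (nat_lit 4) (nat_lit 3) (nat_lit 189) (nat_lit 243) r12_189 r4_243 (nat_lit 0) (nat_lit 0) (nat_lit 12827212) (nat_lit 0x80d8b15d4) (nat_lit 537881374),
  Rx.mk (nat_lit 386) (nat_lit 2) (nat_lit 0) (nat_lit 6) (nat_lit 5) (nat_lit 186) (nat_lit 250) r12_186 r4_250 (nat_lit 0) (nat_lit 4688491) (nat_lit 0) (nat_lit 0x7f006038e) (nat_lit 558460953),
  Rx.mk (nat_lit 394) (nat_lit 2) (nat_lit 1) (nat_lit 6) (nat_lit 7) (nat_lit 188) (nat_lit 251) r12_188 r4_251 (nat_lit 0) (nat_lit 0) (nat_lit 0) (nat_lit 0x80a484a0e) (nat_lit 528215812),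
  Rx.mk (nat_lit 410) (nat_lit 2) (nat_lit 3) (nat_lit 6) (nat_lit 7) (nat_lit 190) (nat_lit 252) r12_190 r4_252 (nat_lit 0) (nat_lit 0) (nat_lit 0) (nat_lit 0x80c5a12f0) (nat_lit 526217362),
  Rx.mk (nat_lit 454) (nat_lit 6) (nat_lit 0) (nat_lit 7) (nat_lit 5) (nat_lit 180) (nat_lit 247) r12_180 r4_247 (nat_lit 0) (nat_lit 99316) (nat_lit 0) (nat_lit 0x5a569f38c) (nat_lit 1146020178),
  Rx.mk (nat_lit 462) (nat_lit 6) (nat_lit 1) (nat_lit 7) (nat_lit 7) (nat_lit 182) (nat_lit 248) r12_182 r4_248 (nat_lit 0) (nat_lit 0) (nat_lit 0) (nat_lit 0x7feb6c558) (nat_lit 539045512),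
  Rx.mk (nat_lit 470) (nat_lit 6) (nat_lit 2) (nat_lit 7) (nat_lit 7) (nat_lit 184) (nat_lit 249) r12_184 r4_249 (nat_lit 0) (nat_lit 0) (nat_lit 0) (nat_lit 0x7f2695054) (nat_lit 551109212)]
noncomputable def e36_25 : List Rx := [
  Rx.mk (nat_lit 258) (nat_lit 2) (nat_lit 0) (nat_lit 4) (nat_lit 1) (nat_lit 197) (nat_lit 305) r12_197 r7_305 (nat_lit 0) (nat_lit 2071523) (nat_lit 1948491) (nat_lit 0x725343702) (nat_lit 762393676),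
  Rx.mk (nat_lit 262) (nat_lit 6) (nat_lit 0) (nat_lit 4) (nat_lit 1) (nat_lit 191) (nat_lit 303) r12_191 r7_303 (nat_lit 0) (nat_lit 1948491) (nat_lit 2071523) (nat_lit 0x725343702) (nat_lit 762393676),
  Rx.mk (nat_lit 266) (nat_lit 2) (nat_lit 1) (nat_lit 4) (nat_lit 3) (nat_lit 200) (nat_lit 310) r12_200 r7_310 (nat_lit 0) (nat_lit 0) (nat_lit 6531868) (nat_lit 0x84ddc88ac) (nat_lit 469895630),
  Rx.mk (nat_lit 270) (nat_lit 6) (nat_lit 1) (nat_lit 4) (nat_lit 3) (nat_lit 193) (nat_lit 308) r12_193 r7_308 (nat_lit 0) (nat_lit 0) (nat_lit 8527156) (nat_lit 0x81695c1f6) (nat_lit 524761868),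
  Rx.mk (nat_lit 278) (nat_lit 6) (nat_lit 2) (nat_lit 4) (nat_lit 3) (nat_lit 195) (nat_lit 313) r12_195 r7_313 (nat_lit 0) (nat_lit 0) (nat_lit 6800525) (nat_lit 0x808257a3a) (nat_lit 536924437),
  Rx.mk (nat_lit 322) (nat_lit 2) (nat_lit 0) (nat_lit 5) (nat_lit 5) (nat_lit 198) (nat_lit 306) r12_198 r7_306 (nat_lit 0) (nat_lit 8527156) (nat_lit 0) (nat_lit 0x81695c1f6) (nat_lit 524761868),
  Rx.mk (nat_lit 326) (nat_lit 6) (nat_lit 0) (nat_lit 5) (nat_lit 5) (nat_lit 192) (nat_lit 304) r12_192 r7_304 (nat_lit 0) (nat_lit 6531868) (nat_lit 0) (nat_lit 0x84ddc88ac) (nat_lit 469895630),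
  Rx.mk (nat_lit 330) (nat_lit 2) (nat_lit 1) (nat_lit 5) (nat_lit 7) (nat_lit 201) (nat_lit 311) r12_201 r7_311 (nat_lit 0) (nat_lit 0) (nat_lit 0) (nat_lit 0x80a647396) (nat_lit 528139662),
  Rx.mk (nat_lit 334) (nat_lit 6) (nat_lit 1) (nat_lit 5) (nat_lit 7) (nat_lit 194) (nat_lit 309) r12_194 r7_309 (nat_lit 0) (nat_lit 0) (nat_lit 0) (nat_lit 0x80a647396) (nat_lit 528139662),
  Rx.mk (nat_lit 342) (nat_lit 6) (nat_lit 2) (nat_lit 5) (nat_lit 7) (nat_lit 196) (nat_lit 314) r12_196 r7_314 (nat_lit 0) (nat_lit 0) (nat_lit 0) (nat_lit 0x8167097d2) (nat_lit 516457412),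
  Rx.mk (nat_lit 386) (nat_lit 2) (nat_lit 0) (nat_lit 6) (nat_lit 5) (nat_lit 199) (nat_lit 307) r12_199 r7_307 (nat_lit 0) (nat_lit 6800525) (nat_lit 0) (nat_lit 0x808257a3a) (nat_lit 536924437),
  Rx.mk (nat_lit 394) (nat_lit 2) (nat_lit 1) (nat_lit 6) (nat_lit 7) (nat_lit 202) (nat_lit 312) r12_202 r7_312 (nat_lit 0) (nat_lit 0) (nat_lit 0) (nat_lit 0x8167097d2) (nat_lit 516457412)]
noncomputable def e36_26 : List Rx := [
  Rx.mk (nat_lit 266) (nat_lit 2) (nat_lit 1) (nat_lit 4) (nat_lit 3) (nat_lit 205) (nat_lit 227) r12_205 r8_227 (nat_lit 0) (nat_lit 0) (nat_lit 8954591) (nat_lit 0x8144dd5dc) (nat_lit 527420603),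
  Rx.mk (nat_lit 270) (nat_lit 6) (nat_lit 1) (nat_lit 4) (nat_lit 3) (nat_lit 203) (nat_lit 225) r12_203 r8_225 (nat_lit 0) (nat_lit 0) (nat_lit 25796827) (nat_lit 0x7fa80b20a) (nat_lit 569524589),
  Rx.mk (nat_lit 330) (nat_lit 2) (nat_lit 1) (nat_lit 5) (nat_lit 7) (nat_lit 206) (nat_lit 228) r12_206 r8_228 (nat_lit 0) (nat_lit 0) (nat_lit 0) (nat_lit 0x8017985b4) (nat_lit 536870912),
  Rx.mk (nat_lit 334) (nat_lit 6) (nat_lit 1) (nat_lit 5) (nat_lit 7) (nat_lit 204) (nat_lit 226) r12_204 r8_226 (nat_lit 0) (nat_lit 0) (nat_lit 0) (nat_lit 0x8017985b4) (nat_lit 536870912),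
  Rx.mk (nat_lit 394) (nat_lit 2) (nat_lit 1) (nat_lit 6) (nat_lit 7) (nat_lit 207) (nat_lit 229) r12_207 r8_229 (nat_lit 0) (nat_lit 0) (nat_lit 0) (nat_lit 0x8017985b4) (nat_lit 536870912)]
noncomputable def e36_27 : List Rx := [
  Rx.mk (nat_lit 322) (nat_lit 2) (nat_lit 0) (nat_lit 5) (nat_lit 5) (nat_lit 211) (nat_lit 225) r12_211 r8_225 (nat_lit 0) (nat_lit 25796827) (nat_lit 0) (nat_lit 0x7fa80b20a) (nat_lit 569524589),
  Rx.mk (nat_lit 326) (nat_lit 6) (nat_lit 0) (nat_lit 5) (nat_lit 5) (nat_lit 208) (nat_lit 227) r12_208 r8_227 (nat_lit 0) (nat_lit 8954591) (nat_lit 0) (nat_lit 0x8144dd5dc) (nat_lit 527420603),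
  Rx.mk (nat_lit 330) (nat_lit 2) (nat_lit 1) (nat_lit 5) (nat_lit 7) (nat_lit 212) (nat_lit 226) r12_212 r8_226 (nat_lit 0) (nat_lit 0) (nat_lit 0) (nat_lit 0x8017985b4) (nat_lit 536870912),
  Rx.mk (nat_lit 334) (nat_lit 6) (nat_lit 1) (nat_lit 5) (nat_lit 7) (nat_lit 209) (nat_lit 228) r12_209 r8_228 (nat_lit 0) (nat_lit 0) (nat_lit 0) (nat_lit 0x8017985b4) (nat_lit 536870912),
  Rx.mk (nat_lit 342) (nat_lit 6) (nat_lit 2) (nat_lit 5) (nat_lit 7) (nat_lit 210) (nat_lit 229) r12_210 r8_229 (nat_lit 0) (nat_lit 0) (nat_lit 0) (nat_lit 0x8017985b4) (nat_lit 536870912)]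
noncomputable def e36_28 : List Rx := [
  Rx.mk (nat_lit 258) (nat_lit 2) (nat_lit 0) (nat_lit 4) (nat_lit 1) (nat_lit 221) (nat_lit 260) r12_221 r10_260 (nat_lit 0) (nat_lit 2577418) (nat_lit 2436129) (nat_lit 0x73aa6288e) (nat_lit 741762309),
  Rx.mk (nat_lit 262) (nat_lit 6) (nat_lit 0) (nat_lit 4) (nat_lit 1) (nat_lit 213) (nat_lit 257) r12_213 r10_257 (nat_lit 0) (nat_lit 2436129) (nat_lit 2577418) (nat_lit 0x73aa6288e) (nat_lit 741762309),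
  Rx.mk (nat_lit 266) (nat_lit 2) (nat_lit 1) (nat_lit 4) (nat_lit 3) (nat_lit 224) (nat_lit 265) r12_224 r10_265 (nat_lit 0) (nat_lit 0) (nat_lit 8688892) (nat_lit 0x823a95ac4) (nat_lit 512418754),
  Rx.mk (nat_lit 270) (nat_lit 6) (nat_lit 1) (nat_lit 4) (nat_lit 3) (nat_lit 216) (nat_lit 263) r12_216 r10_263 (nat_lit 0) (nat_lit 0) (nat_lit 12157828) (nat_lit 0x8125a3a9a) (nat_lit 532563440),
  Rx.mk (nat_lit 278) (nat_lit 6) (nat_lit 2) (nat_lit 4) (nat_lit 3) (nat_lit 218) (nat_lit 270) r12_218 r10_270 (nat_lit 0) (nat_lit 0) (nat_lit 6405981) (nat_lit 0x808bbb2fc) (nat_lit 535951843),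
  Rx.mk (nat_lit 282) (nat_lit 2) (nat_lit 3) (nat_lit 4) (nat_lit 3) (nat_lit 226) (nat_lit 267) r12_226 r10_267 (nat_lit 0) (nat_lit 0) (nat_lit 8688910) (nat_lit 0x823a961a4) (nat_lit 512418672),
  Rx.mk (nat_lit 322) (nat_lit 2) (nat_lit 0) (nat_lit 5) (nat_lit 5) (nat_lit 222) (nat_lit 261) r12_222 r10_261 (nat_lit 0) (nat_lit 12157828) (nat_lit 0) (nat_lit 0x8125a3a9a) (nat_lit 532563440),
  Rx.mk (nat_lit 326) (nat_lit 6) (nat_lit 0) (nat_lit 5) (nat_lit 5) (nat_lit 214) (nat_lit 258) r12_214 r10_258 (nat_lit 0) (nat_lit 8688892) (nat_lit 0) (nat_lit 0x823a95ac4) (nat_lit 512418754),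
  Rx.mk (nat_lit 342) (nat_lit 6) (nat_lit 2) (nat_lit 5) (nat_lit 7) (nat_lit 219) (nat_lit 271) r12_219 r10_271 (nat_lit 0) (nat_lit 0) (nat_lit 0) (nat_lit 0x811742e92) (nat_lit 521278712),
  Rx.mk (nat_lit 346) (nat_lit 2) (nat_lit 3) (nat_lit 5) (nat_lit 7) (nat_lit 227) (nat_lit 268) r12_227 r10_268 (nat_lit 0) (nat_lit 0) (nat_lit 0) (nat_lit 0x8017985b4) (nat_lit 536870912),
  Rx.mk (nat_lit 386) (nat_lit 2) (nat_lit 0) (nat_lit 6) (nat_lit 5) (nat_lit 223) (nat_lit 262) r12_223 r10_262 (nat_lit 0) (nat_lit 6405981) (nat_lit 0) (nat_lit 0x808bbb2fc) (nat_lit 535951843),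
  Rx.mk (nat_lit 394) (nat_lit 2) (nat_lit 1) (nat_lit 6) (nat_lit 7) (nat_lit 225) (nat_lit 266) r12_225 r10_266 (nat_lit 0) (nat_lit 0) (nat_lit 0) (nat_lit 0x811742e92) (nat_lit 521278712),
  Rx.mk (nat_lit 410) (nat_lit 2) (nat_lit 3) (nat_lit 6) (nat_lit 7) (nat_lit 228) (nat_lit 269) r12_228 r10_269 (nat_lit 0) (nat_lit 0) (nat_lit 0) (nat_lit 0x8117427e4) (nat_lit 521278812),
  Rx.mk (nat_lit 454) (nat_lit 6) (nat_lit 0) (nat_lit 7) (nat_lit 5) (nat_lit 215) (nat_lit 259) r12_215 r10_259 (nat_lit 0) (nat_lit 8688910) (nat_lit 0) (nat_lit 0x823a961a4) (nat_lit 512418672),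
  Rx.mk (nat_lit 462) (nat_lit 6) (nat_lit 1) (nat_lit 7) (nat_lit 7) (nat_lit 217) (nat_lit 264) r12_217 r10_264 (nat_lit 0) (nat_lit 0) (nat_lit 0) (nat_lit 0x8017985b4) (nat_lit 536870912),
  Rx.mk (nat_lit 470) (nat_lit 6) (nat_lit 2) (nat_lit 7) (nat_lit 7) (nat_lit 220) (nat_lit 272) r12_220 r10_272 (nat_lit 0) (nat_lit 0) (nat_lit 0) (nat_lit 0x8117427e4) (nat_lit 521278812)]
noncomputable def e36_29 : List Rx := [
  Rx.mk (nat_lit 258) (nat_lit 2) (nat_lit 0) (nat_lit 4) (nat_lit 1) (nat_lit 232) (nat_lit 288) r12_232 r11_288 (nat_lit 0) (nat_lit 4468885) (nat_lit 4803434) (nat_lit 0x77fe54128) (nat_lit 676180381),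
  Rx.mk (nat_lit 266) (nat_lit 2) (nat_lit 1) (nat_lit 4) (nat_lit 3) (nat_lit 235) (nat_lit 292) r12_235 r11_292 (nat_lit 0) (nat_lit 0) (nat_lit 16057116) (nat_lit 0x7fc34d5cc) (nat_lit 558049628),
  Rx.mk (nat_lit 282) (nat_lit 2) (nat_lit 3) (nat_lit 4) (nat_lit 3) (nat_lit 238) (nat_lit 295) r12_238 r11_295 (nat_lit 0) (nat_lit 0) (nat_lit 21075625) (nat_lit 0x804227960) (nat_lit 555330187),
  Rx.mk (nat_lit 386) (nat_lit 2) (nat_lit 0) (nat_lit 6) (nat_lit 5) (nat_lit 233) (nat_lit 290) r12_233 r11_290 (nat_lit 0) (nat_lit 9075693) (nat_lit 0) (nat_lit 0x80cd0b3ba) (nat_lit 534764955),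
  Rx.mk (nat_lit 394) (nat_lit 2) (nat_lit 1) (nat_lit 6) (nat_lit 7) (nat_lit 236) (nat_lit 294) r12_236 r11_294 (nat_lit 0) (nat_lit 0) (nat_lit 0) (nat_lit 0x804e46f70) (nat_lit 533487162),
  Rx.mk (nat_lit 410) (nat_lit 2) (nat_lit 3) (nat_lit 6) (nat_lit 7) (nat_lit 239) (nat_lit 296) r12_239 r11_296 (nat_lit 0) (nat_lit 0) (nat_lit 0) (nat_lit 0x8071a753c) (nat_lit 531344562),
  Rx.mk (nat_lit 450) (nat_lit 2) (nat_lit 0) (nat_lit 7) (nat_lit 5) (nat_lit 234) (nat_lit 289) r12_234 r11_289 (nat_lit 0) (nat_lit 24820252) (nat_lit 0) (nat_lit 0x800bab5a8) (nat_lit 562420664),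
  Rx.mk (nat_lit 454) (nat_lit 6) (nat_lit 0) (nat_lit 7) (nat_lit 5) (nat_lit 229) (nat_lit 287) r12_229 r11_287 (nat_lit 0) (nat_lit 3201067) (nat_lit 0) (nat_lit 0x80c289022) (nat_lit 529188929),
  Rx.mk (nat_lit 458) (nat_lit 2) (nat_lit 1) (nat_lit 7) (nat_lit 7) (nat_lit 237) (nat_lit 293) r12_237 r11_293 (nat_lit 0) (nat_lit 0) (nat_lit 0) (nat_lit 0x7ff71c2cc) (nat_lit 538851962),
  Rx.mk (nat_lit 462) (nat_lit 6) (nat_lit 1) (nat_lit 7) (nat_lit 7) (nat_lit 230) (nat_lit 291) r12_230 r11_291 (nat_lit 0) (nat_lit 0) (nat_lit 0) (nat_lit 0x8f490b628) (nat_lit 304348712),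
  Rx.mk (nat_lit 470) (nat_lit 6) (nat_lit 2) (nat_lit 7) (nat_lit 7) (nat_lit 231) (nat_lit 297) r12_231 r11_297 (nat_lit 0) (nat_lit 0) (nat_lit 0) (nat_lit 0x853b3dfaa) (nat_lit 457742362)]
noncomputable def e36_30 : List Rx := [
  Rx.mk (nat_lit 20) (nat_lit 4) (nat_lit 2) (nat_lit 0) (nat_lit 2) (nat_lit 240) (nat_lit 246) r12_240 r5_246 (nat_lit 183720) (nat_lit 0) (nat_lit 257136) (nat_lit 0x78fe81dd4) (nat_lit 650662468),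
  Rx.mk (nat_lit 22) (nat_lit 6) (nat_lit 2) (nat_lit 0) (nat_lit 3) (nat_lit 242) (nat_lit 248) r12_242 r5_248 (nat_lit 0) (nat_lit 0) (nat_lit 6750895) (nat_lit 0x78f123c8c) (nat_lit 658355657),
  Rx.mk (nat_lit 23) (nat_lit 7) (nat_lit 2) (nat_lit 0) (nat_lit 3) (nat_lit 246) (nat_lit 247) r12_246 r5_247 (nat_lit 0) (nat_lit 0) (nat_lit 3185059) (nat_lit 0x8418ad1da) (nat_lit 478052171),
  Rx.mk (nat_lit 55) (nat_lit 7) (nat_lit 6) (nat_lit 0) (nat_lit 3) (nat_lit 244) (nat_lit 245) r12_244 r5_245 (nat_lit 0) (nat_lit 0) (nat_lit 174098) (nat_lit 0x8023fadac) (nat_lit 534971660),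
  Rx.mk (nat_lit 183) (nat_lit 7) (nat_lit 6) (nat_lit 2) (nat_lit 7) (nat_lit 245) (nat_lit 251) r12_245 r5_251 (nat_lit 0) (nat_lit 0) (nat_lit 0) (nat_lit 0x7a825aed4) (nat_lit 625769862),
  Rx.mk (nat_lit 212) (nat_lit 4) (nat_lit 2) (nat_lit 3) (nat_lit 6) (nat_lit 241) (nat_lit 249) r12_241 r5_249 (nat_lit 385241) (nat_lit 0) (nat_lit 0) (nat_lit 0x80ae72098) (nat_lit 527020953),
  Rx.mk (nat_lit 214) (nat_lit 6) (nat_lit 2) (nat_lit 3) (nat_lit 7) (nat_lit 243) (nat_lit 250) r12_243 r5_250 (nat_lit 0) (nat_lit 0) (nat_lit 0) (nat_lit 0x8f2213cf0) (nat_lit 306467812)]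
noncomputable def e36_31 : List Rx := [
  Rx.mk (nat_lit 20) (nat_lit 4) (nat_lit 2) (nat_lit 0) (nat_lit 2) (nat_lit 247) (nat_lit 288) r12_247 r11_288 (nat_lit 4803434) (nat_lit 0) (nat_lit 4468885) (nat_lit 0x77fe54128) (nat_lit 676180381),
  Rx.mk (nat_lit 22) (nat_lit 6) (nat_lit 2) (nat_lit 0) (nat_lit 3) (nat_lit 250) (nat_lit 290) r12_250 r11_290 (nat_lit 0) (nat_lit 0) (nat_lit 9075693) (nat_lit 0x80cd0b3ba) (nat_lit 534764955),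
  Rx.mk (nat_lit 23) (nat_lit 7) (nat_lit 2) (nat_lit 0) (nat_lit 3) (nat_lit 256) (nat_lit 289) r12_256 r11_289 (nat_lit 0) (nat_lit 0) (nat_lit 24820252) (nat_lit 0x800bab5a8) (nat_lit 562420664),
  Rx.mk (nat_lit 55) (nat_lit 7) (nat_lit 6) (nat_lit 0) (nat_lit 3) (nat_lit 253) (nat_lit 287) r12_253 r11_287 (nat_lit 0) (nat_lit 0) (nat_lit 3201067) (nat_lit 0x80c289022) (nat_lit 529188929),
  Rx.mk (nat_lit 84) (nat_lit 4) (nat_lit 2) (nat_lit 1) (nat_lit 6) (nat_lit 248) (nat_lit 292) r12_248 r11_292 (nat_lit 16057116) (nat_lit 0) (nat_lit 0) (nat_lit 0x7fc34d5cc) (nat_lit 558049628),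
  Rx.mk (nat_lit 86) (nat_lit 6) (nat_lit 2) (nat_lit 1) (nat_lit 7) (nat_lit 251) (nat_lit 294) r12_251 r11_294 (nat_lit 0) (nat_lit 0) (nat_lit 0) (nat_lit 0x804e46f70) (nat_lit 533487162),
  Rx.mk (nat_lit 87) (nat_lit 7) (nat_lit 2) (nat_lit 1) (nat_lit 7) (nat_lit 257) (nat_lit 293) r12_257 r11_293 (nat_lit 0) (nat_lit 0) (nat_lit 0) (nat_lit 0x7ff71c2cc) (nat_lit 538851962),
  Rx.mk (nat_lit 119) (nat_lit 7) (nat_lit 6) (nat_lit 1) (nat_lit 7) (nat_lit 254) (nat_lit 291) r12_254 r11_291 (nat_lit 0) (nat_lit 0) (nat_lit 0) (nat_lit 0x8f490b628) (nat_lit 304348712),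
  Rx.mk (nat_lit 183) (nat_lit 7) (nat_lit 6) (nat_lit 2) (nat_lit 7) (nat_lit 255) (nat_lit 297) r12_255 r11_297 (nat_lit 0) (nat_lit 0) (nat_lit 0) (nat_lit 0x853b3dfaa) (nat_lit 457742362),
  Rx.mk (nat_lit 212) (nat_lit 4) (nat_lit 2) (nat_lit 3) (nat_lit 6) (nat_lit 249) (nat_lit 295) r12_249 r11_295 (nat_lit 21075625) (nat_lit 0) (nat_lit 0) (nat_lit 0x804227960) (nat_lit 555330187),
  Rx.mk (nat_lit 214) (nat_lit 6) (nat_lit 2) (nat_lit 3) (nat_lit 7) (nat_lit 252) (nat_lit 296) r12_252 r11_296 (nat_lit 0) (nat_lit 0) (nat_lit 0) (nat_lit 0x8071a753c) (nat_lit 531344562)]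
noncomputable def e36_32 : List Rx := [
  Rx.mk (nat_lit 163) (nat_lit 3) (nat_lit 4) (nat_lit 2) (nat_lit 5) (nat_lit 267) (nat_lit 270) r12_267 r6_270 (nat_lit 0) (nat_lit 553755) (nat_lit 0) (nat_lit 0x7fb8fc4c4) (nat_lit 542151267),
  Rx.mk (nat_lit 179) (nat_lit 3) (nat_lit 6) (nat_lit 2) (nat_lit 7) (nat_lit 268) (nat_lit 272) r12_268 r6_272 (nat_lit 0) (nat_lit 0) (nat_lit 0) (nat_lit 0x82c9245f6) (nat_lit 494708962),
  Rx.mk (nat_lit 184) (nat_lit 0) (nat_lit 7) (nat_lit 2) (nat_lit 6) (nat_lit 263) (nat_lit 269) r12_263 r6_269 (nat_lit 580263) (nat_lit 0) (nat_lit 0) (nat_lit 0x7f28ad08a) (nat_lit 551200875),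
  Rx.mk (nat_lit 187) (nat_lit 3) (nat_lit 7) (nat_lit 2) (nat_lit 7) (nat_lit 269) (nat_lit 271) r12_269 r6_271 (nat_lit 0) (nat_lit 0) (nat_lit 0) (nat_lit 0x83d678a8a) (nat_lit 478658912),
  Rx.mk (nat_lit 282) (nat_lit 2) (nat_lit 3) (nat_lit 4) (nat_lit 3) (nat_lit 265) (nat_lit 273) r12_265 r6_273 (nat_lit 0) (nat_lit 0) (nat_lit 136696) (nat_lit 0x7fdc594a8) (nat_lit 539308358),
  Rx.mk (nat_lit 286) (nat_lit 6) (nat_lit 3) (nat_lit 4) (nat_lit 3) (nat_lit 260) (nat_lit 264) r12_260 r6_264 (nat_lit 0) (nat_lit 0) (nat_lit 580263) (nat_lit 0x7f28ad08a) (nat_lit 551200875),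
  Rx.mk (nat_lit 410) (nat_lit 2) (nat_lit 3) (nat_lit 6) (nat_lit 7) (nat_lit 266) (nat_lit 275) r12_266 r6_275 (nat_lit 0) (nat_lit 0) (nat_lit 0) (nat_lit 0x8008848c0) (nat_lit 536614962),
  Rx.mk (nat_lit 440) (nat_lit 0) (nat_lit 7) (nat_lit 6) (nat_lit 6) (nat_lit 262) (nat_lit 268) r12_262 r6_268 (nat_lit 136696) (nat_lit 0) (nat_lit 0) (nat_lit 0x7fdc594a8) (nat_lit 539308358),
  Rx.mk (nat_lit 442) (nat_lit 2) (nat_lit 7) (nat_lit 6) (nat_lit 7) (nat_lit 264) (nat_lit 274) r12_264 r6_274 (nat_lit 0) (nat_lit 0) (nat_lit 0) (nat_lit 0x8008848c0) (nat_lit 536614962),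
  Rx.mk (nat_lit 454) (nat_lit 6) (nat_lit 0) (nat_lit 7) (nat_lit 5) (nat_lit 258) (nat_lit 265) r12_258 r6_265 (nat_lit 0) (nat_lit 553755) (nat_lit 0) (nat_lit 0x7fb8fc4c4) (nat_lit 542151267),
  Rx.mk (nat_lit 470) (nat_lit 6) (nat_lit 2) (nat_lit 7) (nat_lit 7) (nat_lit 259) (nat_lit 267) r12_259 r6_267 (nat_lit 0) (nat_lit 0) (nat_lit 0) (nat_lit 0x82c9245f6) (nat_lit 494708962),
  Rx.mk (nat_lit 478) (nat_lit 6) (nat_lit 3) (nat_lit 7) (nat_lit 7) (nat_lit 261) (nat_lit 266) r12_261 r6_266 (nat_lit 0) (nat_lit 0) (nat_lit 0) (nat_lit 0x83d678a8a) (nat_lit 478658912)]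
noncomputable def e36_33 : List Rx := [
  Rx.mk (nat_lit 262) (nat_lit 6) (nat_lit 0) (nat_lit 4) (nat_lit 1) (nat_lit 270) (nat_lit 246) r12_270 r5_246 (nat_lit 0) (nat_lit 183720) (nat_lit 257136) (nat_lit 0x78fe81dd4) (nat_lit 650662468),
  Rx.mk (nat_lit 278) (nat_lit 6) (nat_lit 2) (nat_lit 4) (nat_lit 3) (nat_lit 272) (nat_lit 248) r12_272 r5_248 (nat_lit 0) (nat_lit 0) (nat_lit 6750895) (nat_lit 0x78f123c8c) (nat_lit 658355657),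
  Rx.mk (nat_lit 282) (nat_lit 2) (nat_lit 3) (nat_lit 4) (nat_lit 3) (nat_lit 275) (nat_lit 245) r12_275 r5_245 (nat_lit 0) (nat_lit 0) (nat_lit 174098) (nat_lit 0x8023fadac) (nat_lit 534971660),
  Rx.mk (nat_lit 286) (nat_lit 6) (nat_lit 3) (nat_lit 4) (nat_lit 3) (nat_lit 274) (nat_lit 247) r12_274 r5_247 (nat_lit 0) (nat_lit 0) (nat_lit 3185059) (nat_lit 0x8418ad1da) (nat_lit 478052171),
  Rx.mk (nat_lit 410) (nat_lit 2) (nat_lit 3) (nat_lit 6) (nat_lit 7) (nat_lit 276) (nat_lit 251) r12_276 r5_251 (nat_lit 0) (nat_lit 0) (nat_lit 0) (nat_lit 0x7a825aed4) (nat_lit 625769862),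
  Rx.mk (nat_lit 454) (nat_lit 6) (nat_lit 0) (nat_lit 7) (nat_lit 5) (nat_lit 271) (nat_lit 249) r12_271 r5_249 (nat_lit 0) (nat_lit 385241) (nat_lit 0) (nat_lit 0x80ae72098) (nat_lit 527020953),
  Rx.mk (nat_lit 470) (nat_lit 6) (nat_lit 2) (nat_lit 7) (nat_lit 7) (nat_lit 273) (nat_lit 250) r12_273 r5_250 (nat_lit 0) (nat_lit 0) (nat_lit 0) (nat_lit 0x8f2213cf0) (nat_lit 306467812)]
noncomputable def e36_34 : List Rx := [
  Rx.mk (nat_lit 262) (nat_lit 6) (nat_lit 0) (nat_lit 4) (nat_lit 1) (nat_lit 277) (nat_lit 288) r12_277 r11_288 (nat_lit 0) (nat_lit 4803434) (nat_lit 4468885) (nat_lit 0x77fe54128) (nat_lit 676180381),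
  Rx.mk (nat_lit 278) (nat_lit 6) (nat_lit 2) (nat_lit 4) (nat_lit 3) (nat_lit 280) (nat_lit 290) r12_280 r11_290 (nat_lit 0) (nat_lit 0) (nat_lit 9075693) (nat_lit 0x80cd0b3ba) (nat_lit 534764955),
  Rx.mk (nat_lit 282) (nat_lit 2) (nat_lit 3) (nat_lit 4) (nat_lit 3) (nat_lit 285) (nat_lit 287) r12_285 r11_287 (nat_lit 0) (nat_lit 0) (nat_lit 3201067) (nat_lit 0x80c289022) (nat_lit 529188929),
  Rx.mk (nat_lit 286) (nat_lit 6) (nat_lit 3) (nat_lit 4) (nat_lit 3) (nat_lit 283) (nat_lit 289) r12_283 r11_289 (nat_lit 0) (nat_lit 0) (nat_lit 24820252) (nat_lit 0x800bab5a8) (nat_lit 562420664),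
  Rx.mk (nat_lit 326) (nat_lit 6) (nat_lit 0) (nat_lit 5) (nat_lit 5) (nat_lit 278) (nat_lit 292) r12_278 r11_292 (nat_lit 0) (nat_lit 16057116) (nat_lit 0) (nat_lit 0x7fc34d5cc) (nat_lit 558049628),
  Rx.mk (nat_lit 342) (nat_lit 6) (nat_lit 2) (nat_lit 5) (nat_lit 7) (nat_lit 281) (nat_lit 294) r12_281 r11_294 (nat_lit 0) (nat_lit 0) (nat_lit 0) (nat_lit 0x804e46f70) (nat_lit 533487162),
  Rx.mk (nat_lit 346) (nat_lit 2) (nat_lit 3) (nat_lit 5) (nat_lit 7) (nat_lit 286) (nat_lit 291) r12_286 r11_291 (nat_lit 0) (nat_lit 0) (nat_lit 0) (nat_lit 0x8f490b628) (nat_lit 304348712),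
  Rx.mk (nat_lit 350) (nat_lit 6) (nat_lit 3) (nat_lit 5) (nat_lit 7) (nat_lit 284) (nat_lit 293) r12_284 r11_293 (nat_lit 0) (nat_lit 0) (nat_lit 0) (nat_lit 0x7ff71c2cc) (nat_lit 538851962),
  Rx.mk (nat_lit 410) (nat_lit 2) (nat_lit 3) (nat_lit 6) (nat_lit 7) (nat_lit 287) (nat_lit 297) r12_287 r11_297 (nat_lit 0) (nat_lit 0) (nat_lit 0) (nat_lit 0x853b3dfaa) (nat_lit 457742362),
  Rx.mk (nat_lit 454) (nat_lit 6) (nat_lit 0) (nat_lit 7) (nat_lit 5) (nat_lit 279) (nat_lit 295) r12_279 r11_295 (nat_lit 0) (nat_lit 21075625) (nat_lit 0) (nat_lit 0x804227960) (nat_lit 555330187),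
  Rx.mk (nat_lit 470) (nat_lit 6) (nat_lit 2) (nat_lit 7) (nat_lit 7) (nat_lit 282) (nat_lit 296) r12_282 r11_296 (nat_lit 0) (nat_lit 0) (nat_lit 0) (nat_lit 0x8071a753c) (nat_lit 531344562)]
noncomputable def e36_35 : List Rx := [
  Rx.mk (nat_lit 23) (nat_lit 7) (nat_lit 2) (nat_lit 0) (nat_lit 3) (nat_lit 292) (nat_lit 264) r12_292 r6_264 (nat_lit 0) (nat_lit 0) (nat_lit 580263) (nat_lit 0x7f28ad08a) (nat_lit 551200875),
  Rx.mk (nat_lit 55) (nat_lit 7) (nat_lit 6) (nat_lit 0) (nat_lit 3) (nat_lit 290) (nat_lit 273) r12_290 r6_273 (nat_lit 0) (nat_lit 0) (nat_lit 136696) (nat_lit 0x7fdc594a8) (nat_lit 539308358),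
  Rx.mk (nat_lit 163) (nat_lit 3) (nat_lit 4) (nat_lit 2) (nat_lit 5) (nat_lit 297) (nat_lit 268) r12_297 r6_268 (nat_lit 0) (nat_lit 136696) (nat_lit 0) (nat_lit 0x7fdc594a8) (nat_lit 539308358),
  Rx.mk (nat_lit 179) (nat_lit 3) (nat_lit 6) (nat_lit 2) (nat_lit 7) (nat_lit 298) (nat_lit 274) r12_298 r6_274 (nat_lit 0) (nat_lit 0) (nat_lit 0) (nat_lit 0x8008848c0) (nat_lit 536614962),
  Rx.mk (nat_lit 183) (nat_lit 7) (nat_lit 6) (nat_lit 2) (nat_lit 7) (nat_lit 291) (nat_lit 275) r12_291 r6_275 (nat_lit 0) (nat_lit 0) (nat_lit 0) (nat_lit 0x8008848c0) (nat_lit 536614962),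
  Rx.mk (nat_lit 212) (nat_lit 4) (nat_lit 2) (nat_lit 3) (nat_lit 6) (nat_lit 288) (nat_lit 265) r12_288 r6_265 (nat_lit 553755) (nat_lit 0) (nat_lit 0) (nat_lit 0x7fb8fc4c4) (nat_lit 542151267),
  Rx.mk (nat_lit 214) (nat_lit 6) (nat_lit 2) (nat_lit 3) (nat_lit 7) (nat_lit 289) (nat_lit 267) r12_289 r6_267 (nat_lit 0) (nat_lit 0) (nat_lit 0) (nat_lit 0x82c9245f6) (nat_lit 494708962),
  Rx.mk (nat_lit 215) (nat_lit 7) (nat_lit 2) (nat_lit 3) (nat_lit 7) (nat_lit 293) (nat_lit 266) r12_293 r6_266 (nat_lit 0) (nat_lit 0) (nat_lit 0) (nat_lit 0x83d678a8a) (nat_lit 478658912),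
  Rx.mk (nat_lit 419) (nat_lit 3) (nat_lit 4) (nat_lit 6) (nat_lit 5) (nat_lit 296) (nat_lit 269) r12_296 r6_269 (nat_lit 0) (nat_lit 580263) (nat_lit 0) (nat_lit 0x7f28ad08a) (nat_lit 551200875),
  Rx.mk (nat_lit 440) (nat_lit 0) (nat_lit 7) (nat_lit 6) (nat_lit 6) (nat_lit 294) (nat_lit 270) r12_294 r6_270 (nat_lit 553755) (nat_lit 0) (nat_lit 0) (nat_lit 0x7fb8fc4c4) (nat_lit 542151267),
  Rx.mk (nat_lit 442) (nat_lit 2) (nat_lit 7) (nat_lit 6) (nat_lit 7) (nat_lit 295) (nat_lit 272) r12_295 r6_272 (nat_lit 0) (nat_lit 0) (nat_lit 0) (nat_lit 0x82c9245f6) (nat_lit 494708962),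
  Rx.mk (nat_lit 443) (nat_lit 3) (nat_lit 7) (nat_lit 6) (nat_lit 7) (nat_lit 299) (nat_lit 271) r12_299 r6_271 (nat_lit 0) (nat_lit 0) (nat_lit 0) (nat_lit 0x83d678a8a) (nat_lit 478658912)]
noncomputable def e36_36 : List Rx := [
  Rx.mk (nat_lit 55) (nat_lit 7) (nat_lit 6) (nat_lit 0) (nat_lit 3) (nat_lit 305) (nat_lit 311) r12_305 r12_311 (nat_lit 0) (nat_lit 0) (nat_lit 90521) (nat_lit 0x7f51d3f72) (nat_lit 547992583),
  Rx.mk (nat_lit 163) (nat_lit 3) (nat_lit 4) (nat_lit 2) (nat_lit 5) (nat_lit 314) (nat_lit 301) r12_314 r12_301 (nat_lit 0) (nat_lit 90521) (nat_lit 0) (nat_lit 0x7f51d3f72) (nat_lit 547992583),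
  Rx.mk (nat_lit 179) (nat_lit 3) (nat_lit 6) (nat_lit 2) (nat_lit 7) (nat_lit 315) (nat_lit 304) r12_315 r12_304 (nat_lit 0) (nat_lit 0) (nat_lit 0) (nat_lit 0x800af2698) (nat_lit 536320362),
  Rx.mk (nat_lit 183) (nat_lit 7) (nat_lit 6) (nat_lit 2) (nat_lit 7) (nat_lit 306) (nat_lit 313) r12_306 r12_313 (nat_lit 0) (nat_lit 0) (nat_lit 0) (nat_lit 0x800af2698) (nat_lit 536320362),
  Rx.mk (nat_lit 187) (nat_lit 3) (nat_lit 7) (nat_lit 2) (nat_lit 7) (nat_lit 317) (nat_lit 302) r12_317 r12_302 (nat_lit 0) (nat_lit 0) (nat_lit 0) (nat_lit 0x800af2698) (nat_lit 536320362),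
  Rx.mk (nat_lit 212) (nat_lit 4) (nat_lit 2) (nat_lit 3) (nat_lit 6) (nat_lit 300) (nat_lit 309) r12_300 r12_309 (nat_lit 90521) (nat_lit 0) (nat_lit 0) (nat_lit 0x7f51d3f72) (nat_lit 547992583),
  Rx.mk (nat_lit 214) (nat_lit 6) (nat_lit 2) (nat_lit 3) (nat_lit 7) (nat_lit 303) (nat_lit 316) r12_303 r12_316 (nat_lit 0) (nat_lit 0) (nat_lit 0) (nat_lit 0x800af2698) (nat_lit 536320362),
  Rx.mk (nat_lit 215) (nat_lit 7) (nat_lit 2) (nat_lit 3) (nat_lit 7) (nat_lit 308) (nat_lit 310) r12_308 r12_310 (nat_lit 0) (nat_lit 0) (nat_lit 0) (nat_lit 0x800af2698) (nat_lit 536320362),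
  Rx.mk (nat_lit 247) (nat_lit 7) (nat_lit 6) (nat_lit 3) (nat_lit 7) (nat_lit 307) (nat_lit 312) r12_307 r12_312 (nat_lit 0) (nat_lit 0) (nat_lit 0) (nat_lit 0x800af2698) (nat_lit 536320362),
  Rx.mk (nat_lit 282) (nat_lit 2) (nat_lit 3) (nat_lit 4) (nat_lit 3) (nat_lit 311) (nat_lit 305) r12_311 r12_305 (nat_lit 0) (nat_lit 0) (nat_lit 90521) (nat_lit 0x7f51d3f72) (nat_lit 547992583),
  Rx.mk (nat_lit 410) (nat_lit 2) (nat_lit 3) (nat_lit 6) (nat_lit 7) (nat_lit 312) (nat_lit 307) r12_312 r12_307 (nat_lit 0) (nat_lit 0) (nat_lit 0) (nat_lit 0x800af2698) (nat_lit 536320362),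
  Rx.mk (nat_lit 440) (nat_lit 0) (nat_lit 7) (nat_lit 6) (nat_lit 6) (nat_lit 309) (nat_lit 300) r12_309 r12_300 (nat_lit 90521) (nat_lit 0) (nat_lit 0) (nat_lit 0x7f51d3f72) (nat_lit 547992583),
  Rx.mk (nat_lit 442) (nat_lit 2) (nat_lit 7) (nat_lit 6) (nat_lit 7) (nat_lit 310) (nat_lit 308) r12_310 r12_308 (nat_lit 0) (nat_lit 0) (nat_lit 0) (nat_lit 0x800af2698) (nat_lit 536320362),
  Rx.mk (nat_lit 443) (nat_lit 3) (nat_lit 7) (nat_lit 6) (nat_lit 7) (nat_lit 316) (nat_lit 303) r12_316 r12_303 (nat_lit 0) (nat_lit 0) (nat_lit 0) (nat_lit 0x800af2698) (nat_lit 536320362),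
  Rx.mk (nat_lit 454) (nat_lit 6) (nat_lit 0) (nat_lit 7) (nat_lit 5) (nat_lit 301) (nat_lit 314) r12_301 r12_314 (nat_lit 0) (nat_lit 90521) (nat_lit 0) (nat_lit 0x7f51d3f72) (nat_lit 547992583),
  Rx.mk (nat_lit 470) (nat_lit 6) (nat_lit 2) (nat_lit 7) (nat_lit 7) (nat_lit 302) (nat_lit 317) r12_302 r12_317 (nat_lit 0) (nat_lit 0) (nat_lit 0) (nat_lit 0x800af2698) (nat_lit 536320362),
  Rx.mk (nat_lit 474) (nat_lit 2) (nat_lit 3) (nat_lit 7) (nat_lit 7) (nat_lit 313) (nat_lit 306) r12_313 r12_306 (nat_lit 0) (nat_lit 0) (nat_lit 0) (nat_lit 0x800af2698) (nat_lit 536320362),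
  Rx.mk (nat_lit 478) (nat_lit 6) (nat_lit 3) (nat_lit 7) (nat_lit 7) (nat_lit 304) (nat_lit 315) r12_304 r12_315 (nat_lit 0) (nat_lit 0) (nat_lit 0) (nat_lit 0x800af2698) (nat_lit 536320362)]
noncomputable def e36_37 : List Rx := [
  Rx.mk (nat_lit 160) (nat_lit 0) (nat_lit 4) (nat_lit 2) (nat_lit 4) (nat_lit 319) (nat_lit 238) r12_319 r0_238 (nat_lit 1147203) (nat_lit 939367) (nat_lit 0) (nat_lit 0x56a34f6d6) (nat_lit 1208040532),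
  Rx.mk (nat_lit 168) (nat_lit 0) (nat_lit 5) (nat_lit 2) (nat_lit 6) (nat_lit 321) (nat_lit 239) r12_321 r0_239 (nat_lit 17412885) (nat_lit 0) (nat_lit 0) (nat_lit 0x6e9844ff8) (nat_lit 836304197),
  Rx.mk (nat_lit 176) (nat_lit 0) (nat_lit 6) (nat_lit 2) (nat_lit 6) (nat_lit 322) (nat_lit 240) r12_322 r0_240 (nat_lit 5034045) (nat_lit 0) (nat_lit 0) (nat_lit 0x6bcc7805c) (nat_lit 869121807),
  Rx.mk (nat_lit 416) (nat_lit 0) (nat_lit 4) (nat_lit 6) (nat_lit 4) (nat_lit 318) (nat_lit 236) r12_318 r0_236 (nat_lit 483498) (nat_lit 337141) (nat_lit 0) (nat_lit 0x69bd8207c) (nat_lit 897741001),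
  Rx.mk (nat_lit 418) (nat_lit 2) (nat_lit 4) (nat_lit 6) (nat_lit 5) (nat_lit 323) (nat_lit 241) r12_323 r0_241 (nat_lit 0) (nat_lit 7132573) (nat_lit 0) (nat_lit 0x7f5e76888) (nat_lit 555234485),
  Rx.mk (nat_lit 424) (nat_lit 0) (nat_lit 5) (nat_lit 6) (nat_lit 6) (nat_lit 320) (nat_lit 237) r12_320 r0_237 (nat_lit 110144) (nat_lit 0) (nat_lit 0) (nat_lit 0x82822bbe0) (nat_lit 498750706),
  Rx.mk (nat_lit 426) (nat_lit 2) (nat_lit 5) (nat_lit 6) (nat_lit 7) (nat_lit 324) (nat_lit 242) r12_324 r0_242 (nat_lit 0) (nat_lit 0) (nat_lit 0) (nat_lit 0x91ea2ede6) (nat_lit 264130312)]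
noncomputable def e36_38 : List Rx := [
  Rx.mk (nat_lit 160) (nat_lit 0) (nat_lit 4) (nat_lit 2) (nat_lit 4) (nat_lit 326) (nat_lit 236) r12_326 r0_236 (nat_lit 337141) (nat_lit 483498) (nat_lit 0) (nat_lit 0x69bd8207c) (nat_lit 897741001),
  Rx.mk (nat_lit 161) (nat_lit 1) (nat_lit 4) (nat_lit 2) (nat_lit 5) (nat_lit 329) (nat_lit 237) r12_329 r0_237 (nat_lit 0) (nat_lit 110144) (nat_lit 0) (nat_lit 0x82822bbe0) (nat_lit 498750706),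
  Rx.mk (nat_lit 176) (nat_lit 0) (nat_lit 6) (nat_lit 2) (nat_lit 6) (nat_lit 327) (nat_lit 241) r12_327 r0_241 (nat_lit 7132573) (nat_lit 0) (nat_lit 0) (nat_lit 0x7f5e76888) (nat_lit 555234485),
  Rx.mk (nat_lit 177) (nat_lit 1) (nat_lit 6) (nat_lit 2) (nat_lit 7) (nat_lit 330) (nat_lit 242) r12_330 r0_242 (nat_lit 0) (nat_lit 0) (nat_lit 0) (nat_lit 0x91ea2ede6) (nat_lit 264130312),
  Rx.mk (nat_lit 416) (nat_lit 0) (nat_lit 4) (nat_lit 6) (nat_lit 4) (nat_lit 325) (nat_lit 238) r12_325 r0_238 (nat_lit 939367) (nat_lit 1147203) (nat_lit 0) (nat_lit 0x56a34f6d6) (nat_lit 1208040532),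
  Rx.mk (nat_lit 417) (nat_lit 1) (nat_lit 4) (nat_lit 6) (nat_lit 5) (nat_lit 328) (nat_lit 239) r12_328 r0_239 (nat_lit 0) (nat_lit 17412885) (nat_lit 0) (nat_lit 0x6e9844ff8) (nat_lit 836304197),
  Rx.mk (nat_lit 418) (nat_lit 2) (nat_lit 4) (nat_lit 6) (nat_lit 5) (nat_lit 331) (nat_lit 240) r12_331 r0_240 (nat_lit 0) (nat_lit 5034045) (nat_lit 0) (nat_lit 0x6bcc7805c) (nat_lit 869121807)]
noncomputable def e36_39 : List Rx := [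
  Rx.mk (nat_lit 160) (nat_lit 0) (nat_lit 4) (nat_lit 2) (nat_lit 4) (nat_lit 333) (nat_lit 305) r12_333 r7_305 (nat_lit 2071523) (nat_lit 1948491) (nat_lit 0) (nat_lit 0x725343702) (nat_lit 762393676),
  Rx.mk (nat_lit 161) (nat_lit 1) (nat_lit 4) (nat_lit 2) (nat_lit 5) (nat_lit 338) (nat_lit 310) r12_338 r7_310 (nat_lit 0) (nat_lit 6531868) (nat_lit 0) (nat_lit 0x84ddc88ac) (nat_lit 469895630),
  Rx.mk (nat_lit 168) (nat_lit 0) (nat_lit 5) (nat_lit 2) (nat_lit 6) (nat_lit 335) (nat_lit 306) r12_335 r7_306 (nat_lit 8527156) (nat_lit 0) (nat_lit 0) (nat_lit 0x81695c1f6) (nat_lit 524761868),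
  Rx.mk (nat_lit 169) (nat_lit 1) (nat_lit 5) (nat_lit 2) (nat_lit 7) (nat_lit 340) (nat_lit 311) r12_340 r7_311 (nat_lit 0) (nat_lit 0) (nat_lit 0) (nat_lit 0x80a647396) (nat_lit 528139662),
  Rx.mk (nat_lit 176) (nat_lit 0) (nat_lit 6) (nat_lit 2) (nat_lit 6) (nat_lit 336) (nat_lit 307) r12_336 r7_307 (nat_lit 6800525) (nat_lit 0) (nat_lit 0) (nat_lit 0x808257a3a) (nat_lit 536924437),
  Rx.mk (nat_lit 177) (nat_lit 1) (nat_lit 6) (nat_lit 2) (nat_lit 7) (nat_lit 341) (nat_lit 312) r12_341 r7_312 (nat_lit 0) (nat_lit 0) (nat_lit 0) (nat_lit 0x8167097d2) (nat_lit 516457412),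
  Rx.mk (nat_lit 416) (nat_lit 0) (nat_lit 4) (nat_lit 6) (nat_lit 4) (nat_lit 332) (nat_lit 303) r12_332 r7_303 (nat_lit 1948491) (nat_lit 2071523) (nat_lit 0) (nat_lit 0x725343702) (nat_lit 762393676),
  Rx.mk (nat_lit 417) (nat_lit 1) (nat_lit 4) (nat_lit 6) (nat_lit 5) (nat_lit 337) (nat_lit 308) r12_337 r7_308 (nat_lit 0) (nat_lit 8527156) (nat_lit 0) (nat_lit 0x81695c1f6) (nat_lit 524761868),
  Rx.mk (nat_lit 418) (nat_lit 2) (nat_lit 4) (nat_lit 6) (nat_lit 5) (nat_lit 342) (nat_lit 313) r12_342 r7_313 (nat_lit 0) (nat_lit 6800525) (nat_lit 0) (nat_lit 0x808257a3a) (nat_lit 536924437),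
  Rx.mk (nat_lit 424) (nat_lit 0) (nat_lit 5) (nat_lit 6) (nat_lit 6) (nat_lit 334) (nat_lit 304) r12_334 r7_304 (nat_lit 6531868) (nat_lit 0) (nat_lit 0) (nat_lit 0x84ddc88ac) (nat_lit 469895630),
  Rx.mk (nat_lit 425) (nat_lit 1) (nat_lit 5) (nat_lit 6) (nat_lit 7) (nat_lit 339) (nat_lit 309) r12_339 r7_309 (nat_lit 0) (nat_lit 0) (nat_lit 0) (nat_lit 0x80a647396) (nat_lit 528139662),
  Rx.mk (nat_lit 426) (nat_lit 2) (nat_lit 5) (nat_lit 6) (nat_lit 7) (nat_lit 343) (nat_lit 314) r12_343 r7_314 (nat_lit 0) (nat_lit 0) (nat_lit 0) (nat_lit 0x8167097d2) (nat_lit 516457412)]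
noncomputable def e36_40 : List Rx := [
  Rx.mk (nat_lit 53) (nat_lit 5) (nat_lit 6) (nat_lit 0) (nat_lit 3) (nat_lit 344) (nat_lit 273) r12_344 r2_273 (nat_lit 0) (nat_lit 0) (nat_lit 66894744) (nat_lit 0x7c6702fd6) (nat_lit 662791156),
  Rx.mk (nat_lit 161) (nat_lit 1) (nat_lit 4) (nat_lit 2) (nat_lit 5) (nat_lit 346) (nat_lit 272) r12_346 r2_272 (nat_lit 0) (nat_lit 66894744) (nat_lit 0) (nat_lit 0x7c6702fd6) (nat_lit 662791156),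
  Rx.mk (nat_lit 177) (nat_lit 1) (nat_lit 6) (nat_lit 2) (nat_lit 7) (nat_lit 347) (nat_lit 274) r12_347 r2_274 (nat_lit 0) (nat_lit 0) (nat_lit 0) (nat_lit 0x8017985b4) (nat_lit 536870912),
  Rx.mk (nat_lit 181) (nat_lit 5) (nat_lit 6) (nat_lit 2) (nat_lit 7) (nat_lit 345) (nat_lit 275) r12_345 r2_275 (nat_lit 0) (nat_lit 0) (nat_lit 0) (nat_lit 0x8017985b4) (nat_lit 536870912)]
noncomputable def e36_41 : List Rx := [
  Rx.mk (nat_lit 161) (nat_lit 1) (nat_lit 4) (nat_lit 2) (nat_lit 5) (nat_lit 349) (nat_lit 244) r12_349 r9_244 (nat_lit 0) (nat_lit 25288573) (nat_lit 0) (nat_lit 0x7f59c63d8) (nat_lit 573834985),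
  Rx.mk (nat_lit 169) (nat_lit 1) (nat_lit 5) (nat_lit 2) (nat_lit 7) (nat_lit 350) (nat_lit 245) r12_350 r9_245 (nat_lit 0) (nat_lit 0) (nat_lit 0) (nat_lit 0x8017985b4) (nat_lit 536870912),
  Rx.mk (nat_lit 177) (nat_lit 1) (nat_lit 6) (nat_lit 2) (nat_lit 7) (nat_lit 351) (nat_lit 246) r12_351 r9_246 (nat_lit 0) (nat_lit 0) (nat_lit 0) (nat_lit 0x8017985b4) (nat_lit 536870912),
  Rx.mk (nat_lit 181) (nat_lit 5) (nat_lit 6) (nat_lit 2) (nat_lit 7) (nat_lit 348) (nat_lit 247) r12_348 r9_247 (nat_lit 0) (nat_lit 0) (nat_lit 0) (nat_lit 0x8017985b4) (nat_lit 536870912)]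
noncomputable def e36_42 : List Rx := [
  Rx.mk (nat_lit 53) (nat_lit 5) (nat_lit 6) (nat_lit 0) (nat_lit 3) (nat_lit 352) (nat_lit 244) r12_352 r9_244 (nat_lit 0) (nat_lit 0) (nat_lit 25288573) (nat_lit 0x7f59c63d8) (nat_lit 573834985),
  Rx.mk (nat_lit 117) (nat_lit 5) (nat_lit 6) (nat_lit 1) (nat_lit 7) (nat_lit 353) (nat_lit 245) r12_353 r9_245 (nat_lit 0) (nat_lit 0) (nat_lit 0) (nat_lit 0x8017985b4) (nat_lit 536870912),
  Rx.mk (nat_lit 177) (nat_lit 1) (nat_lit 6) (nat_lit 2) (nat_lit 7) (nat_lit 355) (nat_lit 247) r12_355 r9_247 (nat_lit 0) (nat_lit 0) (nat_lit 0) (nat_lit 0x8017985b4) (nat_lit 536870912),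
  Rx.mk (nat_lit 181) (nat_lit 5) (nat_lit 6) (nat_lit 2) (nat_lit 7) (nat_lit 354) (nat_lit 246) r12_354 r9_246 (nat_lit 0) (nat_lit 0) (nat_lit 0) (nat_lit 0x8017985b4) (nat_lit 536870912)]
noncomputable def e36_43 : List Rx := [
  Rx.mk (nat_lit 161) (nat_lit 1) (nat_lit 4) (nat_lit 2) (nat_lit 5) (nat_lit 357) (nat_lit 249) r12_357 r1_249 (nat_lit 0) (nat_lit 188525) (nat_lit 0) (nat_lit 0x82e82ffae) (nat_lit 492764987),
  Rx.mk (nat_lit 177) (nat_lit 1) (nat_lit 6) (nat_lit 2) (nat_lit 7) (nat_lit 358) (nat_lit 251) r12_358 r1_251 (nat_lit 0) (nat_lit 0) (nat_lit 0) (nat_lit 0x8ee42ae52) (nat_lit 310307562),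
  Rx.mk (nat_lit 417) (nat_lit 1) (nat_lit 4) (nat_lit 6) (nat_lit 5) (nat_lit 356) (nat_lit 250) r12_356 r1_250 (nat_lit 0) (nat_lit 20432270) (nat_lit 0) (nat_lit 0x807054a04) (nat_lit 551662282)]
noncomputable def e36_44 : List Rx := [
  Rx.mk (nat_lit 161) (nat_lit 1) (nat_lit 4) (nat_lit 2) (nat_lit 5) (nat_lit 360) (nat_lit 227) r12_360 r8_227 (nat_lit 0) (nat_lit 8954591) (nat_lit 0) (nat_lit 0x8144dd5dc) (nat_lit 527420603),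
  Rx.mk (nat_lit 169) (nat_lit 1) (nat_lit 5) (nat_lit 2) (nat_lit 7) (nat_lit 362) (nat_lit 228) r12_362 r8_228 (nat_lit 0) (nat_lit 0) (nat_lit 0) (nat_lit 0x8017985b4) (nat_lit 536870912),
  Rx.mk (nat_lit 177) (nat_lit 1) (nat_lit 6) (nat_lit 2) (nat_lit 7) (nat_lit 363) (nat_lit 229) r12_363 r8_229 (nat_lit 0) (nat_lit 0) (nat_lit 0) (nat_lit 0x8017985b4) (nat_lit 536870912),
  Rx.mk (nat_lit 417) (nat_lit 1) (nat_lit 4) (nat_lit 6) (nat_lit 5) (nat_lit 359) (nat_lit 225) r12_359 r8_225 (nat_lit 0) (nat_lit 25796827) (nat_lit 0) (nat_lit 0x7fa80b20a) (nat_lit 569524589),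
  Rx.mk (nat_lit 425) (nat_lit 1) (nat_lit 5) (nat_lit 6) (nat_lit 7) (nat_lit 361) (nat_lit 226) r12_361 r8_226 (nat_lit 0) (nat_lit 0) (nat_lit 0) (nat_lit 0x8017985b4) (nat_lit 536870912)]
noncomputable def e36_45 : List Rx := [
  Rx.mk (nat_lit 168) (nat_lit 0) (nat_lit 5) (nat_lit 2) (nat_lit 6) (nat_lit 365) (nat_lit 250) r12_365 r1_250 (nat_lit 20432270) (nat_lit 0) (nat_lit 0) (nat_lit 0x807054a04) (nat_lit 551662282),
  Rx.mk (nat_lit 424) (nat_lit 0) (nat_lit 5) (nat_lit 6) (nat_lit 6) (nat_lit 364) (nat_lit 249) r12_364 r1_249 (nat_lit 188525) (nat_lit 0) (nat_lit 0) (nat_lit 0x82e82ffae) (nat_lit 492764987),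
  Rx.mk (nat_lit 426) (nat_lit 2) (nat_lit 5) (nat_lit 6) (nat_lit 7) (nat_lit 366) (nat_lit 251) r12_366 r1_251 (nat_lit 0) (nat_lit 0) (nat_lit 0) (nat_lit 0x8ee42ae52) (nat_lit 310307562)]
noncomputable def e36_46 : List Rx := [
  Rx.mk (nat_lit 266) (nat_lit 2) (nat_lit 1) (nat_lit 4) (nat_lit 3) (nat_lit 369) (nat_lit 273) r12_369 r2_273 (nat_lit 0) (nat_lit 0) (nat_lit 66894744) (nat_lit 0x7c6702fd6) (nat_lit 662791156),
  Rx.mk (nat_lit 394) (nat_lit 2) (nat_lit 1) (nat_lit 6) (nat_lit 7) (nat_lit 370) (nat_lit 275) r12_370 r2_275 (nat_lit 0) (nat_lit 0) (nat_lit 0) (nat_lit 0x8017985b4) (nat_lit 536870912),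
  Rx.mk (nat_lit 424) (nat_lit 0) (nat_lit 5) (nat_lit 6) (nat_lit 6) (nat_lit 367) (nat_lit 272) r12_367 r2_272 (nat_lit 66894744) (nat_lit 0) (nat_lit 0) (nat_lit 0x7c6702fd6) (nat_lit 662791156),
  Rx.mk (nat_lit 426) (nat_lit 2) (nat_lit 5) (nat_lit 6) (nat_lit 7) (nat_lit 368) (nat_lit 274) r12_368 r2_274 (nat_lit 0) (nat_lit 0) (nat_lit 0) (nat_lit 0x8017985b4) (nat_lit 536870912)]
noncomputable def e36_47 : List Rx := [
  Rx.mk (nat_lit 168) (nat_lit 0) (nat_lit 5) (nat_lit 2) (nat_lit 6) (nat_lit 372) (nat_lit 225) r12_372 r8_225 (nat_lit 25796827) (nat_lit 0) (nat_lit 0) (nat_lit 0x7fa80b20a) (nat_lit 569524589),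
  Rx.mk (nat_lit 169) (nat_lit 1) (nat_lit 5) (nat_lit 2) (nat_lit 7) (nat_lit 374) (nat_lit 226) r12_374 r8_226 (nat_lit 0) (nat_lit 0) (nat_lit 0) (nat_lit 0x8017985b4) (nat_lit 536870912),
  Rx.mk (nat_lit 424) (nat_lit 0) (nat_lit 5) (nat_lit 6) (nat_lit 6) (nat_lit 371) (nat_lit 227) r12_371 r8_227 (nat_lit 8954591) (nat_lit 0) (nat_lit 0) (nat_lit 0x8144dd5dc) (nat_lit 527420603),
  Rx.mk (nat_lit 425) (nat_lit 1) (nat_lit 5) (nat_lit 6) (nat_lit 7) (nat_lit 373) (nat_lit 228) r12_373 r8_228 (nat_lit 0) (nat_lit 0) (nat_lit 0) (nat_lit 0x8017985b4) (nat_lit 536870912),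
  Rx.mk (nat_lit 426) (nat_lit 2) (nat_lit 5) (nat_lit 6) (nat_lit 7) (nat_lit 375) (nat_lit 229) r12_375 r8_229 (nat_lit 0) (nat_lit 0) (nat_lit 0) (nat_lit 0x8017985b4) (nat_lit 536870912)]
noncomputable def e36_48 : List Rx := [
  Rx.mk (nat_lit 394) (nat_lit 2) (nat_lit 1) (nat_lit 6) (nat_lit 7) (nat_lit 379) (nat_lit 247) r12_379 r9_247 (nat_lit 0) (nat_lit 0) (nat_lit 0) (nat_lit 0x8017985b4) (nat_lit 536870912),
  Rx.mk (nat_lit 424) (nat_lit 0) (nat_lit 5) (nat_lit 6) (nat_lit 6) (nat_lit 376) (nat_lit 244) r12_376 r9_244 (nat_lit 25288573) (nat_lit 0) (nat_lit 0) (nat_lit 0x7f59c63d8) (nat_lit 573834985),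
  Rx.mk (nat_lit 425) (nat_lit 1) (nat_lit 5) (nat_lit 6) (nat_lit 7) (nat_lit 377) (nat_lit 245) r12_377 r9_245 (nat_lit 0) (nat_lit 0) (nat_lit 0) (nat_lit 0x8017985b4) (nat_lit 536870912),
  Rx.mk (nat_lit 426) (nat_lit 2) (nat_lit 5) (nat_lit 6) (nat_lit 7) (nat_lit 378) (nat_lit 246) r12_378 r9_246 (nat_lit 0) (nat_lit 0) (nat_lit 0) (nat_lit 0x8017985b4) (nat_lit 536870912)]
noncomputable def e36_49 : List Rx := [
  Rx.mk (nat_lit 266) (nat_lit 2) (nat_lit 1) (nat_lit 4) (nat_lit 3) (nat_lit 381) (nat_lit 244) r12_381 r9_244 (nat_lit 0) (nat_lit 0) (nat_lit 25288573) (nat_lit 0x7f59c63d8) (nat_lit 573834985),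
  Rx.mk (nat_lit 330) (nat_lit 2) (nat_lit 1) (nat_lit 5) (nat_lit 7) (nat_lit 382) (nat_lit 245) r12_382 r9_245 (nat_lit 0) (nat_lit 0) (nat_lit 0) (nat_lit 0x8017985b4) (nat_lit 536870912),
  Rx.mk (nat_lit 394) (nat_lit 2) (nat_lit 1) (nat_lit 6) (nat_lit 7) (nat_lit 383) (nat_lit 246) r12_383 r9_246 (nat_lit 0) (nat_lit 0) (nat_lit 0) (nat_lit 0x8017985b4) (nat_lit 536870912),
  Rx.mk (nat_lit 426) (nat_lit 2) (nat_lit 5) (nat_lit 6) (nat_lit 7) (nat_lit 380) (nat_lit 247) r12_380 r9_247 (nat_lit 0) (nat_lit 0) (nat_lit 0) (nat_lit 0x8017985b4) (nat_lit 536870912)]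
noncomputable def e36_50 : List Rx := [
  Rx.mk (nat_lit 160) (nat_lit 0) (nat_lit 4) (nat_lit 2) (nat_lit 4) (nat_lit 385) (nat_lit 237) r12_385 r3_237 (nat_lit 5003) (nat_lit 4214) (nat_lit 0) (nat_lit 0x7fff1ac3a) (nat_lit 536938379),
  Rx.mk (nat_lit 163) (nat_lit 3) (nat_lit 4) (nat_lit 2) (nat_lit 5) (nat_lit 390) (nat_lit 239) r12_390 r3_239 (nat_lit 0) (nat_lit 80128) (nat_lit 0) (nat_lit 0x7ffce7580) (nat_lit 537198240),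
  Rx.mk (nat_lit 176) (nat_lit 0) (nat_lit 6) (nat_lit 2) (nat_lit 6) (nat_lit 386) (nat_lit 238) r12_386 r3_238 (nat_lit 475299) (nat_lit 0) (nat_lit 0) (nat_lit 0x6da4f8700) (nat_lit 834267961),
  Rx.mk (nat_lit 179) (nat_lit 3) (nat_lit 6) (nat_lit 2) (nat_lit 7) (nat_lit 391) (nat_lit 240) r12_391 r3_240 (nat_lit 0) (nat_lit 0) (nat_lit 0) (nat_lit 0x8380378ba) (nat_lit 483854562),
  Rx.mk (nat_lit 416) (nat_lit 0) (nat_lit 4) (nat_lit 6) (nat_lit 4) (nat_lit 384) (nat_lit 235) r12_384 r3_235 (nat_lit 4214) (nat_lit 5003) (nat_lit 0) (nat_lit 0x7fff1ac3a) (nat_lit 536938379),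
  Rx.mk (nat_lit 418) (nat_lit 2) (nat_lit 4) (nat_lit 6) (nat_lit 5) (nat_lit 388) (nat_lit 241) r12_388 r3_241 (nat_lit 0) (nat_lit 475299) (nat_lit 0) (nat_lit 0x6da4f8700) (nat_lit 834267961),
  Rx.mk (nat_lit 440) (nat_lit 0) (nat_lit 7) (nat_lit 6) (nat_lit 6) (nat_lit 387) (nat_lit 236) r12_387 r3_236 (nat_lit 80128) (nat_lit 0) (nat_lit 0) (nat_lit 0x7ffce7580) (nat_lit 537198240),
  Rx.mk (nat_lit 442) (nat_lit 2) (nat_lit 7) (nat_lit 6) (nat_lit 7) (nat_lit 389) (nat_lit 242) r12_389 r3_242 (nat_lit 0) (nat_lit 0) (nat_lit 0) (nat_lit 0x8380378ba) (nat_lit 483854562)]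
noncomputable def e36_51 : List Rx := [
  Rx.mk (nat_lit 160) (nat_lit 0) (nat_lit 4) (nat_lit 2) (nat_lit 4) (nat_lit 393) (nat_lit 244) r12_393 r4_244 (nat_lit 2631942) (nat_lit 1714766) (nat_lit 0) (nat_lit 0x6423137c0) (nat_lit 992114620),
  Rx.mk (nat_lit 163) (nat_lit 3) (nat_lit 4) (nat_lit 2) (nat_lit 5) (nat_lit 401) (nat_lit 247) r12_401 r4_247 (nat_lit 0) (nat_lit 99316) (nat_lit 0) (nat_lit 0x5a569f38c) (nat_lit 1146020178),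
  Rx.mk (nat_lit 168) (nat_lit 0) (nat_lit 5) (nat_lit 2) (nat_lit 6) (nat_lit 395) (nat_lit 245) r12_395 r4_245 (nat_lit 9667445) (nat_lit 0) (nat_lit 0) (nat_lit 0x7e44f4f8c) (nat_lit 575356507),
  Rx.mk (nat_lit 171) (nat_lit 3) (nat_lit 5) (nat_lit 2) (nat_lit 7) (nat_lit 402) (nat_lit 248) r12_402 r4_248 (nat_lit 0) (nat_lit 0) (nat_lit 0) (nat_lit 0x7feb6c558) (nat_lit 539045512),
  Rx.mk (nat_lit 176) (nat_lit 0) (nat_lit 6) (nat_lit 2) (nat_lit 6) (nat_lit 396) (nat_lit 246) r12_396 r4_246 (nat_lit 10567436) (nat_lit 0) (nat_lit 0) (nat_lit 0x755c3f9fc) (nat_lit 720133798),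
  Rx.mk (nat_lit 179) (nat_lit 3) (nat_lit 6) (nat_lit 2) (nat_lit 7) (nat_lit 403) (nat_lit 249) r12_403 r4_249 (nat_lit 0) (nat_lit 0) (nat_lit 0) (nat_lit 0x7f2695054) (nat_lit 551109212),
  Rx.mk (nat_lit 416) (nat_lit 0) (nat_lit 4) (nat_lit 6) (nat_lit 4) (nat_lit 392) (nat_lit 241) r12_392 r4_241 (nat_lit 58690) (nat_lit 41553) (nat_lit 0) (nat_lit 0x7b312194a) (nat_lit 614735255),
  Rx.mk (nat_lit 418) (nat_lit 2) (nat_lit 4) (nat_lit 6) (nat_lit 5) (nat_lit 398) (nat_lit 250) r12_398 r4_250 (nat_lit 0) (nat_lit 4688491) (nat_lit 0) (nat_lit 0x7f006038e) (nat_lit 558460953),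
  Rx.mk (nat_lit 424) (nat_lit 0) (nat_lit 5) (nat_lit 6) (nat_lit 6) (nat_lit 394) (nat_lit 242) r12_394 r4_242 (nat_lit 8369781) (nat_lit 0) (nat_lit 0) (nat_lit 0x7f5bb069e) (nat_lit 556643943),
  Rx.mk (nat_lit 426) (nat_lit 2) (nat_lit 5) (nat_lit 6) (nat_lit 7) (nat_lit 399) (nat_lit 251) r12_399 r4_251 (nat_lit 0) (nat_lit 0) (nat_lit 0) (nat_lit 0x80a484a0e) (nat_lit 528215812),
  Rx.mk (nat_lit 440) (nat_lit 0) (nat_lit 7) (nat_lit 6) (nat_lit 6) (nat_lit 397) (nat_lit 243) r12_397 r4_243 (nat_lit 12827212) (nat_lit 0) (nat_lit 0) (nat_lit 0x80d8b15d4) (nat_lit 537881374),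
  Rx.mk (nat_lit 442) (nat_lit 2) (nat_lit 7) (nat_lit 6) (nat_lit 7) (nat_lit 400) (nat_lit 252) r12_400 r4_252 (nat_lit 0) (nat_lit 0) (nat_lit 0) (nat_lit 0x80c5a12f0) (nat_lit 526217362)]
noncomputable def e36_52 : List Rx := [
  Rx.mk (nat_lit 160) (nat_lit 0) (nat_lit 4) (nat_lit 2) (nat_lit 4) (nat_lit 404) (nat_lit 246) r12_404 r5_246 (nat_lit 257136) (nat_lit 183720) (nat_lit 0) (nat_lit 0x78fe81dd4) (nat_lit 650662468),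
  Rx.mk (nat_lit 163) (nat_lit 3) (nat_lit 4) (nat_lit 2) (nat_lit 5) (nat_lit 409) (nat_lit 249) r12_409 r5_249 (nat_lit 0) (nat_lit 385241) (nat_lit 0) (nat_lit 0x80ae72098) (nat_lit 527020953),
  Rx.mk (nat_lit 176) (nat_lit 0) (nat_lit 6) (nat_lit 2) (nat_lit 6) (nat_lit 405) (nat_lit 248) r12_405 r5_248 (nat_lit 6750895) (nat_lit 0) (nat_lit 0) (nat_lit 0x78f123c8c) (nat_lit 658355657),
  Rx.mk (nat_lit 179) (nat_lit 3) (nat_lit 6) (nat_lit 2) (nat_lit 7) (nat_lit 410) (nat_lit 250) r12_410 r5_250 (nat_lit 0) (nat_lit 0) (nat_lit 0) (nat_lit 0x8f2213cf0) (nat_lit 306467812),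
  Rx.mk (nat_lit 184) (nat_lit 0) (nat_lit 7) (nat_lit 2) (nat_lit 6) (nat_lit 407) (nat_lit 247) r12_407 r5_247 (nat_lit 3185059) (nat_lit 0) (nat_lit 0) (nat_lit 0x8418ad1da) (nat_lit 478052171),
  Rx.mk (nat_lit 440) (nat_lit 0) (nat_lit 7) (nat_lit 6) (nat_lit 6) (nat_lit 406) (nat_lit 245) r12_406 r5_245 (nat_lit 174098) (nat_lit 0) (nat_lit 0) (nat_lit 0x8023fadac) (nat_lit 534971660),
  Rx.mk (nat_lit 442) (nat_lit 2) (nat_lit 7) (nat_lit 6) (nat_lit 7) (nat_lit 408) (nat_lit 251) r12_408 r5_251 (nat_lit 0) (nat_lit 0) (nat_lit 0) (nat_lit 0x7a825aed4) (nat_lit 625769862)]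
noncomputable def e36_53 : List Rx := [
  Rx.mk (nat_lit 160) (nat_lit 0) (nat_lit 4) (nat_lit 2) (nat_lit 4) (nat_lit 412) (nat_lit 241) r12_412 r4_241 (nat_lit 41553) (nat_lit 58690) (nat_lit 0) (nat_lit 0x7b312194a) (nat_lit 614735255),
  Rx.mk (nat_lit 161) (nat_lit 1) (nat_lit 4) (nat_lit 2) (nat_lit 5) (nat_lit 416) (nat_lit 242) r12_416 r4_242 (nat_lit 0) (nat_lit 8369781) (nat_lit 0) (nat_lit 0x7f5bb069e) (nat_lit 556643943),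
  Rx.mk (nat_lit 163) (nat_lit 3) (nat_lit 4) (nat_lit 2) (nat_lit 5) (nat_lit 421) (nat_lit 243) r12_421 r4_243 (nat_lit 0) (nat_lit 12827212) (nat_lit 0) (nat_lit 0x80d8b15d4) (nat_lit 537881374),
  Rx.mk (nat_lit 176) (nat_lit 0) (nat_lit 6) (nat_lit 2) (nat_lit 6) (nat_lit 413) (nat_lit 250) r12_413 r4_250 (nat_lit 4688491) (nat_lit 0) (nat_lit 0) (nat_lit 0x7f006038e) (nat_lit 558460953),
  Rx.mk (nat_lit 177) (nat_lit 1) (nat_lit 6) (nat_lit 2) (nat_lit 7) (nat_lit 417) (nat_lit 251) r12_417 r4_251 (nat_lit 0) (nat_lit 0) (nat_lit 0) (nat_lit 0x80a484a0e) (nat_lit 528215812),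
  Rx.mk (nat_lit 179) (nat_lit 3) (nat_lit 6) (nat_lit 2) (nat_lit 7) (nat_lit 422) (nat_lit 252) r12_422 r4_252 (nat_lit 0) (nat_lit 0) (nat_lit 0) (nat_lit 0x80c5a12f0) (nat_lit 526217362),
  Rx.mk (nat_lit 416) (nat_lit 0) (nat_lit 4) (nat_lit 6) (nat_lit 4) (nat_lit 411) (nat_lit 244) r12_411 r4_244 (nat_lit 1714766) (nat_lit 2631942) (nat_lit 0) (nat_lit 0x6423137c0) (nat_lit 992114620),
  Rx.mk (nat_lit 417) (nat_lit 1) (nat_lit 4) (nat_lit 6) (nat_lit 5) (nat_lit 415) (nat_lit 245) r12_415 r4_245 (nat_lit 0) (nat_lit 9667445) (nat_lit 0) (nat_lit 0x7e44f4f8c) (nat_lit 575356507),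
  Rx.mk (nat_lit 418) (nat_lit 2) (nat_lit 4) (nat_lit 6) (nat_lit 5) (nat_lit 419) (nat_lit 246) r12_419 r4_246 (nat_lit 0) (nat_lit 10567436) (nat_lit 0) (nat_lit 0x755c3f9fc) (nat_lit 720133798),
  Rx.mk (nat_lit 440) (nat_lit 0) (nat_lit 7) (nat_lit 6) (nat_lit 6) (nat_lit 414) (nat_lit 247) r12_414 r4_247 (nat_lit 99316) (nat_lit 0) (nat_lit 0) (nat_lit 0x5a569f38c) (nat_lit 1146020178),
  Rx.mk (nat_lit 441) (nat_lit 1) (nat_lit 7) (nat_lit 6) (nat_lit 7) (nat_lit 418) (nat_lit 248) r12_418 r4_248 (nat_lit 0) (nat_lit 0) (nat_lit 0) (nat_lit 0x7feb6c558) (nat_lit 539045512),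
  Rx.mk (nat_lit 442) (nat_lit 2) (nat_lit 7) (nat_lit 6) (nat_lit 7) (nat_lit 420) (nat_lit 249) r12_420 r4_249 (nat_lit 0) (nat_lit 0) (nat_lit 0) (nat_lit 0x7f2695054) (nat_lit 551109212)]
noncomputable def e36_54 : List Rx := [
  Rx.mk (nat_lit 160) (nat_lit 0) (nat_lit 4) (nat_lit 2) (nat_lit 4) (nat_lit 424) (nat_lit 260) r12_424 r10_260 (nat_lit 2577418) (nat_lit 2436129) (nat_lit 0) (nat_lit 0x73aa6288e) (nat_lit 741762309),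
  Rx.mk (nat_lit 161) (nat_lit 1) (nat_lit 4) (nat_lit 2) (nat_lit 5) (nat_lit 430) (nat_lit 265) r12_430 r10_265 (nat_lit 0) (nat_lit 8688892) (nat_lit 0) (nat_lit 0x823a95ac4) (nat_lit 512418754),
  Rx.mk (nat_lit 163) (nat_lit 3) (nat_lit 4) (nat_lit 2) (nat_lit 5) (nat_lit 436) (nat_lit 267) r12_436 r10_267 (nat_lit 0) (nat_lit 8688910) (nat_lit 0) (nat_lit 0x823a961a4) (nat_lit 512418672),
  Rx.mk (nat_lit 168) (nat_lit 0) (nat_lit 5) (nat_lit 2) (nat_lit 6) (nat_lit 426) (nat_lit 261) r12_426 r10_261 (nat_lit 12157828) (nat_lit 0) (nat_lit 0) (nat_lit 0x8125a3a9a) (nat_lit 532563440),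
  Rx.mk (nat_lit 171) (nat_lit 3) (nat_lit 5) (nat_lit 2) (nat_lit 7) (nat_lit 437) (nat_lit 268) r12_437 r10_268 (nat_lit 0) (nat_lit 0) (nat_lit 0) (nat_lit 0x8017985b4) (nat_lit 536870912),
  Rx.mk (nat_lit 176) (nat_lit 0) (nat_lit 6) (nat_lit 2) (nat_lit 6) (nat_lit 427) (nat_lit 262) r12_427 r10_262 (nat_lit 6405981) (nat_lit 0) (nat_lit 0) (nat_lit 0x808bbb2fc) (nat_lit 535951843),
  Rx.mk (nat_lit 177) (nat_lit 1) (nat_lit 6) (nat_lit 2) (nat_lit 7) (nat_lit 431) (nat_lit 266) r12_431 r10_266 (nat_lit 0) (nat_lit 0) (nat_lit 0) (nat_lit 0x811742e92) (nat_lit 521278712),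
  Rx.mk (nat_lit 179) (nat_lit 3) (nat_lit 6) (nat_lit 2) (nat_lit 7) (nat_lit 438) (nat_lit 269) r12_438 r10_269 (nat_lit 0) (nat_lit 0) (nat_lit 0) (nat_lit 0x8117427e4) (nat_lit 521278812),
  Rx.mk (nat_lit 416) (nat_lit 0) (nat_lit 4) (nat_lit 6) (nat_lit 4) (nat_lit 423) (nat_lit 257) r12_423 r10_257 (nat_lit 2436129) (nat_lit 2577418) (nat_lit 0) (nat_lit 0x73aa6288e) (nat_lit 741762309),
  Rx.mk (nat_lit 417) (nat_lit 1) (nat_lit 4) (nat_lit 6) (nat_lit 5) (nat_lit 429) (nat_lit 263) r12_429 r10_263 (nat_lit 0) (nat_lit 12157828) (nat_lit 0) (nat_lit 0x8125a3a9a) (nat_lit 532563440),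
  Rx.mk (nat_lit 418) (nat_lit 2) (nat_lit 4) (nat_lit 6) (nat_lit 5) (nat_lit 433) (nat_lit 270) r12_433 r10_270 (nat_lit 0) (nat_lit 6405981) (nat_lit 0) (nat_lit 0x808bbb2fc) (nat_lit 535951843),
  Rx.mk (nat_lit 424) (nat_lit 0) (nat_lit 5) (nat_lit 6) (nat_lit 6) (nat_lit 425) (nat_lit 258) r12_425 r10_258 (nat_lit 8688892) (nat_lit 0) (nat_lit 0) (nat_lit 0x823a95ac4) (nat_lit 512418754),
  Rx.mk (nat_lit 426) (nat_lit 2) (nat_lit 5) (nat_lit 6) (nat_lit 7) (nat_lit 434) (nat_lit 271) r12_434 r10_271 (nat_lit 0) (nat_lit 0) (nat_lit 0) (nat_lit 0x811742e92) (nat_lit 521278712),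
  Rx.mk (nat_lit 440) (nat_lit 0) (nat_lit 7) (nat_lit 6) (nat_lit 6) (nat_lit 428) (nat_lit 259) r12_428 r10_259 (nat_lit 8688910) (nat_lit 0) (nat_lit 0) (nat_lit 0x823a961a4) (nat_lit 512418672),
  Rx.mk (nat_lit 441) (nat_lit 1) (nat_lit 7) (nat_lit 6) (nat_lit 7) (nat_lit 432) (nat_lit 264) r12_432 r10_264 (nat_lit 0) (nat_lit 0) (nat_lit 0) (nat_lit 0x8017985b4) (nat_lit 536870912),
  Rx.mk (nat_lit 442) (nat_lit 2) (nat_lit 7) (nat_lit 6) (nat_lit 7) (nat_lit 435) (nat_lit 272) r12_435 r10_272 (nat_lit 0) (nat_lit 0) (nat_lit 0) (nat_lit 0x8117427e4) (nat_lit 521278812)]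
noncomputable def e36_55 : List Rx := [
  Rx.mk (nat_lit 160) (nat_lit 0) (nat_lit 4) (nat_lit 2) (nat_lit 4) (nat_lit 439) (nat_lit 288) r12_439 r11_288 (nat_lit 4468885) (nat_lit 4803434) (nat_lit 0) (nat_lit 0x77fe54128) (nat_lit 676180381),
  Rx.mk (nat_lit 161) (nat_lit 1) (nat_lit 4) (nat_lit 2) (nat_lit 5) (nat_lit 443) (nat_lit 292) r12_443 r11_292 (nat_lit 0) (nat_lit 16057116) (nat_lit 0) (nat_lit 0x7fc34d5cc) (nat_lit 558049628),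
  Rx.mk (nat_lit 163) (nat_lit 3) (nat_lit 4) (nat_lit 2) (nat_lit 5) (nat_lit 448) (nat_lit 295) r12_448 r11_295 (nat_lit 0) (nat_lit 21075625) (nat_lit 0) (nat_lit 0x804227960) (nat_lit 555330187),
  Rx.mk (nat_lit 176) (nat_lit 0) (nat_lit 6) (nat_lit 2) (nat_lit 6) (nat_lit 440) (nat_lit 290) r12_440 r11_290 (nat_lit 9075693) (nat_lit 0) (nat_lit 0) (nat_lit 0x80cd0b3ba) (nat_lit 534764955),
  Rx.mk (nat_lit 177) (nat_lit 1) (nat_lit 6) (nat_lit 2) (nat_lit 7) (nat_lit 444) (nat_lit 294) r12_444 r11_294 (nat_lit 0) (nat_lit 0) (nat_lit 0) (nat_lit 0x804e46f70) (nat_lit 533487162),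
  Rx.mk (nat_lit 179) (nat_lit 3) (nat_lit 6) (nat_lit 2) (nat_lit 7) (nat_lit 449) (nat_lit 296) r12_449 r11_296 (nat_lit 0) (nat_lit 0) (nat_lit 0) (nat_lit 0x8071a753c) (nat_lit 531344562),
  Rx.mk (nat_lit 184) (nat_lit 0) (nat_lit 7) (nat_lit 2) (nat_lit 6) (nat_lit 442) (nat_lit 289) r12_442 r11_289 (nat_lit 24820252) (nat_lit 0) (nat_lit 0) (nat_lit 0x800bab5a8) (nat_lit 562420664),
  Rx.mk (nat_lit 185) (nat_lit 1) (nat_lit 7) (nat_lit 2) (nat_lit 7) (nat_lit 446) (nat_lit 293) r12_446 r11_293 (nat_lit 0) (nat_lit 0) (nat_lit 0) (nat_lit 0x7ff71c2cc) (nat_lit 538851962),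
  Rx.mk (nat_lit 440) (nat_lit 0) (nat_lit 7) (nat_lit 6) (nat_lit 6) (nat_lit 441) (nat_lit 287) r12_441 r11_287 (nat_lit 3201067) (nat_lit 0) (nat_lit 0) (nat_lit 0x80c289022) (nat_lit 529188929),
  Rx.mk (nat_lit 441) (nat_lit 1) (nat_lit 7) (nat_lit 6) (nat_lit 7) (nat_lit 445) (nat_lit 291) r12_445 r11_291 (nat_lit 0) (nat_lit 0) (nat_lit 0) (nat_lit 0x8f490b628) (nat_lit 304348712),
  Rx.mk (nat_lit 442) (nat_lit 2) (nat_lit 7) (nat_lit 6) (nat_lit 7) (nat_lit 447) (nat_lit 297) r12_447 r11_297 (nat_lit 0) (nat_lit 0) (nat_lit 0) (nat_lit 0x853b3dfaa) (nat_lit 457742362)]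
noncomputable def e36_56 : List Rx := [
  Rx.mk (nat_lit 163) (nat_lit 3) (nat_lit 4) (nat_lit 2) (nat_lit 5) (nat_lit 455) (nat_lit 245) r12_455 r5_245 (nat_lit 0) (nat_lit 174098) (nat_lit 0) (nat_lit 0x8023fadac) (nat_lit 534971660),
  Rx.mk (nat_lit 179) (nat_lit 3) (nat_lit 6) (nat_lit 2) (nat_lit 7) (nat_lit 456) (nat_lit 251) r12_456 r5_251 (nat_lit 0) (nat_lit 0) (nat_lit 0) (nat_lit 0x7a825aed4) (nat_lit 625769862),
  Rx.mk (nat_lit 416) (nat_lit 0) (nat_lit 4) (nat_lit 6) (nat_lit 4) (nat_lit 450) (nat_lit 246) r12_450 r5_246 (nat_lit 183720) (nat_lit 257136) (nat_lit 0) (nat_lit 0x78fe81dd4) (nat_lit 650662468),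
  Rx.mk (nat_lit 418) (nat_lit 2) (nat_lit 4) (nat_lit 6) (nat_lit 5) (nat_lit 452) (nat_lit 248) r12_452 r5_248 (nat_lit 0) (nat_lit 6750895) (nat_lit 0) (nat_lit 0x78f123c8c) (nat_lit 658355657),
  Rx.mk (nat_lit 419) (nat_lit 3) (nat_lit 4) (nat_lit 6) (nat_lit 5) (nat_lit 454) (nat_lit 247) r12_454 r5_247 (nat_lit 0) (nat_lit 3185059) (nat_lit 0) (nat_lit 0x8418ad1da) (nat_lit 478052171),
  Rx.mk (nat_lit 440) (nat_lit 0) (nat_lit 7) (nat_lit 6) (nat_lit 6) (nat_lit 451) (nat_lit 249) r12_451 r5_249 (nat_lit 385241) (nat_lit 0) (nat_lit 0) (nat_lit 0x80ae72098) (nat_lit 527020953),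
  Rx.mk (nat_lit 442) (nat_lit 2) (nat_lit 7) (nat_lit 6) (nat_lit 7) (nat_lit 453) (nat_lit 250) r12_453 r5_250 (nat_lit 0) (nat_lit 0) (nat_lit 0) (nat_lit 0x8f2213cf0) (nat_lit 306467812)]
noncomputable def e36_57 : List Rx := [
  Rx.mk (nat_lit 163) (nat_lit 3) (nat_lit 4) (nat_lit 2) (nat_lit 5) (nat_lit 464) (nat_lit 287) r12_464 r11_287 (nat_lit 0) (nat_lit 3201067) (nat_lit 0) (nat_lit 0x80c289022) (nat_lit 529188929),
  Rx.mk (nat_lit 171) (nat_lit 3) (nat_lit 5) (nat_lit 2) (nat_lit 7) (nat_lit 466) (nat_lit 291) r12_466 r11_291 (nat_lit 0) (nat_lit 0) (nat_lit 0) (nat_lit 0x8f490b628) (nat_lit 304348712),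
  Rx.mk (nat_lit 179) (nat_lit 3) (nat_lit 6) (nat_lit 2) (nat_lit 7) (nat_lit 467) (nat_lit 297) r12_467 r11_297 (nat_lit 0) (nat_lit 0) (nat_lit 0) (nat_lit 0x853b3dfaa) (nat_lit 457742362),
  Rx.mk (nat_lit 416) (nat_lit 0) (nat_lit 4) (nat_lit 6) (nat_lit 4) (nat_lit 457) (nat_lit 288) r12_457 r11_288 (nat_lit 4803434) (nat_lit 4468885) (nat_lit 0) (nat_lit 0x77fe54128) (nat_lit 676180381),
  Rx.mk (nat_lit 418) (nat_lit 2) (nat_lit 4) (nat_lit 6) (nat_lit 5) (nat_lit 460) (nat_lit 290) r12_460 r11_290 (nat_lit 0) (nat_lit 9075693) (nat_lit 0) (nat_lit 0x80cd0b3ba) (nat_lit 534764955),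
  Rx.mk (nat_lit 419) (nat_lit 3) (nat_lit 4) (nat_lit 6) (nat_lit 5) (nat_lit 463) (nat_lit 289) r12_463 r11_289 (nat_lit 0) (nat_lit 24820252) (nat_lit 0) (nat_lit 0x800bab5a8) (nat_lit 562420664),
  Rx.mk (nat_lit 424) (nat_lit 0) (nat_lit 5) (nat_lit 6) (nat_lit 6) (nat_lit 458) (nat_lit 292) r12_458 r11_292 (nat_lit 16057116) (nat_lit 0) (nat_lit 0) (nat_lit 0x7fc34d5cc) (nat_lit 558049628),
  Rx.mk (nat_lit 426) (nat_lit 2) (nat_lit 5) (nat_lit 6) (nat_lit 7) (nat_lit 461) (nat_lit 294) r12_461 r11_294 (nat_lit 0) (nat_lit 0) (nat_lit 0) (nat_lit 0x804e46f70) (nat_lit 533487162),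
  Rx.mk (nat_lit 427) (nat_lit 3) (nat_lit 5) (nat_lit 6) (nat_lit 7) (nat_lit 465) (nat_lit 293) r12_465 r11_293 (nat_lit 0) (nat_lit 0) (nat_lit 0) (nat_lit 0x7ff71c2cc) (nat_lit 538851962),
  Rx.mk (nat_lit 440) (nat_lit 0) (nat_lit 7) (nat_lit 6) (nat_lit 6) (nat_lit 459) (nat_lit 295) r12_459 r11_295 (nat_lit 21075625) (nat_lit 0) (nat_lit 0) (nat_lit 0x804227960) (nat_lit 555330187),
  Rx.mk (nat_lit 442) (nat_lit 2) (nat_lit 7) (nat_lit 6) (nat_lit 7) (nat_lit 462) (nat_lit 296) r12_462 r11_296 (nat_lit 0) (nat_lit 0) (nat_lit 0) (nat_lit 0x8071a753c) (nat_lit 531344562)]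
noncomputable def e36 : List (List Rx) := [e36_0, e36_1, e36_2, e36_3, e36_4, e36_5, e36_6, e36_7, e36_8, e36_9, e36_10, e36_11, e36_12, e36_13, e36_14, e36_15, e36_16, e36_17, e36_18, e36_19, e36_20, e36_21, e36_22, e36_23, e36_24, e36_25, e36_26, e36_27, e36_28, e36_29, e36_30, e36_31, e36_32, e36_33, e36_34, e36_35, e36_36, e36_37, e36_38, e36_39, e36_40, e36_41, e36_42, e36_43, e36_44, e36_45, e36_46, e36_47, e36_48, e36_49, e36_50, e36_51, e36_52, e36_53, e36_54, e36_55, e36_56, e36_57]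
noncomputable def e37_0 : List Rx := [
  Rx.mk (nat_lit 5) (nat_lit 5) (nat_lit 0) (nat_lit 0) (nat_lit 1) (nat_lit 244) (nat_lit 244) r0_244 r0_244 (nat_lit 0) (nat_lit 88358360) (nat_lit 88358360) (nat_lit 0x68d4a3a72) (nat_lit 1088870982),
  Rx.mk (nat_lit 13) (nat_lit 5) (nat_lit 1) (nat_lit 0) (nat_lit 3) (nat_lit 245) (nat_lit 246) r0_245 r0_246 (nat_lit 0) (nat_lit 0) (nat_lit 25767150) (nat_lit 0x782fa05e2) (nat_lit 689732912),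
  Rx.mk (nat_lit 69) (nat_lit 5) (nat_lit 0) (nat_lit 1) (nat_lit 5) (nat_lit 246) (nat_lit 245) r0_246 r0_245 (nat_lit 0) (nat_lit 25767150) (nat_lit 0) (nat_lit 0x782fa05e2) (nat_lit 689732912),
  Rx.mk (nat_lit 76) (nat_lit 4) (nat_lit 1) (nat_lit 1) (nat_lit 6) (nat_lit 243) (nat_lit 243) r0_243 r0_243 (nat_lit 375356366) (nat_lit 0) (nat_lit 0) (nat_lit 0x7fff94e4a) (nat_lit 912268878),
  Rx.mk (nat_lit 77) (nat_lit 5) (nat_lit 1) (nat_lit 1) (nat_lit 7) (nat_lit 247) (nat_lit 247) r0_247 r0_247 (nat_lit 0) (nat_lit 0) (nat_lit 0) (nat_lit 0x7f946ba74) (nat_lit 544898012)]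
noncomputable def e37_1 : List Rx := [
  Rx.mk (nat_lit 69) (nat_lit 5) (nat_lit 0) (nat_lit 1) (nat_lit 5) (nat_lit 283) (nat_lit 253) r0_283 r1_253 (nat_lit 0) (nat_lit 24741287) (nat_lit 0) (nat_lit 0x7fb668af0) (nat_lit 567576349),
  Rx.mk (nat_lit 76) (nat_lit 4) (nat_lit 1) (nat_lit 1) (nat_lit 6) (nat_lit 282) (nat_lit 252) r0_282 r1_252 (nat_lit 585345170) (nat_lit 0) (nat_lit 0) (nat_lit 0x801301b72) (nat_lit 1121100632),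
  Rx.mk (nat_lit 77) (nat_lit 5) (nat_lit 1) (nat_lit 1) (nat_lit 7) (nat_lit 284) (nat_lit 254) r0_284 r1_254 (nat_lit 0) (nat_lit 0) (nat_lit 0) (nat_lit 0x7fcf556ee) (nat_lit 541249062)]
noncomputable def e37_2 : List Rx := [
  Rx.mk (nat_lit 76) (nat_lit 4) (nat_lit 1) (nat_lit 1) (nat_lit 6) (nat_lit 285) (nat_lit 276) r0_285 r2_276 (nat_lit 65725081) (nat_lit 0) (nat_lit 0) (nat_lit 0x7b4d9ae64) (nat_lit 679298593),
  Rx.mk (nat_lit 77) (nat_lit 5) (nat_lit 1) (nat_lit 1) (nat_lit 7) (nat_lit 287) (nat_lit 278) r0_287 r2_278 (nat_lit 0) (nat_lit 0) (nat_lit 0) (nat_lit 0x8017985b4) (nat_lit 536870912),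
  Rx.mk (nat_lit 332) (nat_lit 4) (nat_lit 1) (nat_lit 5) (nat_lit 6) (nat_lit 286) (nat_lit 277) r0_286 r2_277 (nat_lit 29130114) (nat_lit 0) (nat_lit 0) (nat_lit 0x7eda42850) (nat_lit 585601326),
  Rx.mk (nat_lit 333) (nat_lit 5) (nat_lit 1) (nat_lit 5) (nat_lit 7) (nat_lit 288) (nat_lit 279) r0_288 r2_279 (nat_lit 0) (nat_lit 0) (nat_lit 0) (nat_lit 0x8017985b4) (nat_lit 536870912)]
noncomputable def e37_3 : List Rx := [
  Rx.mk (nat_lit 5) (nat_lit 5) (nat_lit 0) (nat_lit 0) (nat_lit 1) (nat_lit 302) (nat_lit 245) r0_302 r3_245 (nat_lit 0) (nat_lit 5862) (nat_lit 13151) (nat_lit 0x7a31628ba) (nat_lit 630796625),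
  Rx.mk (nat_lit 12) (nat_lit 4) (nat_lit 1) (nat_lit 0) (nat_lit 2) (nat_lit 300) (nat_lit 243) r0_300 r3_243 (nat_lit 3234) (nat_lit 0) (nat_lit 1823) (nat_lit 0x7fffe0034) (nat_lit 536886669),
  Rx.mk (nat_lit 13) (nat_lit 5) (nat_lit 1) (nat_lit 0) (nat_lit 3) (nat_lit 303) (nat_lit 247) r0_303 r3_247 (nat_lit 0) (nat_lit 0) (nat_lit 2227735) (nat_lit 0x7cd025f7c) (nat_lit 590865397),
  Rx.mk (nat_lit 197) (nat_lit 5) (nat_lit 0) (nat_lit 3) (nat_lit 5) (nat_lit 304) (nat_lit 246) r0_304 r3_246 (nat_lit 0) (nat_lit 1966223) (nat_lit 0) (nat_lit 0x7a0eec8a8) (nat_lit 635246135),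
  Rx.mk (nat_lit 204) (nat_lit 4) (nat_lit 1) (nat_lit 3) (nat_lit 6) (nat_lit 301) (nat_lit 244) r0_301 r3_244 (nat_lit 5037900) (nat_lit 0) (nat_lit 0) (nat_lit 0x7d56b4566) (nat_lit 585373512),
  Rx.mk (nat_lit 205) (nat_lit 5) (nat_lit 1) (nat_lit 3) (nat_lit 7) (nat_lit 305) (nat_lit 248) r0_305 r3_248 (nat_lit 0) (nat_lit 0) (nat_lit 0) (nat_lit 0x81fa69626) (nat_lit 507231062)]
noncomputable def e37_4 : List Rx := [
  Rx.mk (nat_lit 5) (nat_lit 5) (nat_lit 0) (nat_lit 0) (nat_lit 1) (nat_lit 309) (nat_lit 256) r0_309 r4_256 (nat_lit 0) (nat_lit 19670024) (nat_lit 33909295) (nat_lit 0x680c7e7d6) (nat_lit 978281281),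
  Rx.mk (nat_lit 12) (nat_lit 4) (nat_lit 1) (nat_lit 0) (nat_lit 2) (nat_lit 306) (nat_lit 253) r0_306 r4_253 (nat_lit 44700456) (nat_lit 0) (nat_lit 9185379) (nat_lit 0x69c6a03b6) (nat_lit 950753297),
  Rx.mk (nat_lit 13) (nat_lit 5) (nat_lit 1) (nat_lit 0) (nat_lit 3) (nat_lit 310) (nat_lit 259) r0_310 r4_259 (nat_lit 0) (nat_lit 0) (nat_lit 25313016) (nat_lit 0x7f09601dc) (nat_lit 578840728),
  Rx.mk (nat_lit 69) (nat_lit 5) (nat_lit 0) (nat_lit 1) (nat_lit 5) (nat_lit 311) (nat_lit 257) r0_311 r4_257 (nat_lit 0) (nat_lit 27415859) (nat_lit 0) (nat_lit 0x8000d8c2a) (nat_lit 565665771),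
  Rx.mk (nat_lit 76) (nat_lit 4) (nat_lit 1) (nat_lit 1) (nat_lit 6) (nat_lit 307) (nat_lit 254) r0_307 r4_254 (nat_lit 190947877) (nat_lit 0) (nat_lit 0) (nat_lit 0x781662364) (nat_lit 856023289),
  Rx.mk (nat_lit 77) (nat_lit 5) (nat_lit 1) (nat_lit 1) (nat_lit 7) (nat_lit 312) (nat_lit 260) r0_312 r4_260 (nat_lit 0) (nat_lit 0) (nat_lit 0) (nat_lit 0x80abe37c8) (nat_lit 527783112),
  Rx.mk (nat_lit 197) (nat_lit 5) (nat_lit 0) (nat_lit 3) (nat_lit 5) (nat_lit 313) (nat_lit 258) r0_313 r4_258 (nat_lit 0) (nat_lit 29629750) (nat_lit 0) (nat_lit 0x7db4131bc) (nat_lit 604586362),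
  Rx.mk (nat_lit 204) (nat_lit 4) (nat_lit 1) (nat_lit 3) (nat_lit 6) (nat_lit 308) (nat_lit 255) r0_308 r4_255 (nat_lit 34510458) (nat_lit 0) (nat_lit 0) (nat_lit 0x7fea14354) (nat_lit 574129370),
  Rx.mk (nat_lit 205) (nat_lit 5) (nat_lit 1) (nat_lit 3) (nat_lit 7) (nat_lit 314) (nat_lit 261) r0_314 r4_261 (nat_lit 0) (nat_lit 0) (nat_lit 0) (nat_lit 0x8024ca73c) (nat_lit 536043112)]
noncomputable def e37_5 : List Rx := [
  Rx.mk (nat_lit 197) (nat_lit 5) (nat_lit 0) (nat_lit 3) (nat_lit 5) (nat_lit 316) (nat_lit 253) r0_316 r5_253 (nat_lit 0) (nat_lit 6936321) (nat_lit 0) (nat_lit 0x7b9f03d96) (nat_lit 615253533),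
  Rx.mk (nat_lit 204) (nat_lit 4) (nat_lit 1) (nat_lit 3) (nat_lit 6) (nat_lit 315) (nat_lit 252) r0_315 r5_252 (nat_lit 10663228) (nat_lit 0) (nat_lit 0) (nat_lit 0x7da55c5ce) (nat_lit 586217240),
  Rx.mk (nat_lit 205) (nat_lit 5) (nat_lit 1) (nat_lit 3) (nat_lit 7) (nat_lit 317) (nat_lit 254) r0_317 r5_254 (nat_lit 0) (nat_lit 0) (nat_lit 0) (nat_lit 0x8071fa930) (nat_lit 530954762)]
noncomputable def e37_6 : List Rx := [
  Rx.mk (nat_lit 460) (nat_lit 4) (nat_lit 1) (nat_lit 7) (nat_lit 6) (nat_lit 71) (nat_lit 249) r0_71 r3_249 (nat_lit 2928) (nat_lit 0) (nat_lit 0) (nat_lit 0x806d30ec2) (nat_lit 530370140)]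
noncomputable def e37_7 : List Rx := [
  Rx.mk (nat_lit 268) (nat_lit 4) (nat_lit 1) (nat_lit 4) (nat_lit 2) (nat_lit 171) (nat_lit 248) r0_171 r0_248 (nat_lit 1057520207) (nat_lit 0) (nat_lit 19628) (nat_lit 0x8001a79da) (nat_lit 1594326447),
  Rx.mk (nat_lit 332) (nat_lit 4) (nat_lit 1) (nat_lit 5) (nat_lit 6) (nat_lit 172) (nat_lit 249) r0_172 r0_249 (nat_lit 495476102) (nat_lit 0) (nat_lit 0) (nat_lit 0x7bfc24796) (nat_lit 1097908564)]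
noncomputable def e37_8 : List Rx := [
  Rx.mk (nat_lit 332) (nat_lit 4) (nat_lit 1) (nat_lit 5) (nat_lit 6) (nat_lit 173) (nat_lit 255) r0_173 r1_255 (nat_lit 106862022) (nat_lit 0) (nat_lit 0) (nat_lit 0x7ee0fa15c) (nat_lit 662779834)]
noncomputable def e37_9 : List Rx := [
  Rx.mk (nat_lit 268) (nat_lit 4) (nat_lit 1) (nat_lit 4) (nat_lit 2) (nat_lit 174) (nat_lit 262) r0_174 r4_262 (nat_lit 200714257) (nat_lit 0) (nat_lit 1751344) (nat_lit 0x5c0ff7e00) (nat_lit 1320763563),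
  Rx.mk (nat_lit 332) (nat_lit 4) (nat_lit 1) (nat_lit 5) (nat_lit 6) (nat_lit 175) (nat_lit 263) r0_175 r4_263 (nat_lit 51975942) (nat_lit 0) (nat_lit 0) (nat_lit 0x79cafc27e) (nat_lit 689883204),
  Rx.mk (nat_lit 460) (nat_lit 4) (nat_lit 1) (nat_lit 7) (nat_lit 6) (nat_lit 176) (nat_lit 264) r0_176 r4_264 (nat_lit 441859640) (nat_lit 0) (nat_lit 0) (nat_lit 0x75873a166) (nat_lit 1148413852)]
noncomputable def e37_10 : List Rx := [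
  Rx.mk (nat_lit 204) (nat_lit 4) (nat_lit 1) (nat_lit 3) (nat_lit 6) (nat_lit 222) (nat_lit 276) r0_222 r6_276 (nat_lit 52275) (nat_lit 0) (nat_lit 0) (nat_lit 0x8149ad206) (nat_lit 517293887),
  Rx.mk (nat_lit 460) (nat_lit 4) (nat_lit 1) (nat_lit 7) (nat_lit 6) (nat_lit 223) (nat_lit 277) r0_223 r6_277 (nat_lit 15883932) (nat_lit 0) (nat_lit 0) (nat_lit 0x7b9d7068c) (nat_lit 624376294)]
noncomputable def e37_11 : List Rx := [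
  Rx.mk (nat_lit 460) (nat_lit 4) (nat_lit 1) (nat_lit 7) (nat_lit 6) (nat_lit 224) (nat_lit 255) r0_224 r5_255 (nat_lit 71218835) (nat_lit 0) (nat_lit 0) (nat_lit 0x7ffb5ec54) (nat_lit 608387497)]
noncomputable def e37_12 : List Rx := [
  Rx.mk (nat_lit 5) (nat_lit 5) (nat_lit 0) (nat_lit 0) (nat_lit 1) (nat_lit 248) (nat_lit 171) r0_248 r0_171 (nat_lit 0) (nat_lit 19628) (nat_lit 1057520207) (nat_lit 0x8001a79da) (nat_lit 1594326447),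
  Rx.mk (nat_lit 13) (nat_lit 5) (nat_lit 1) (nat_lit 0) (nat_lit 3) (nat_lit 249) (nat_lit 172) r0_249 r0_172 (nat_lit 0) (nat_lit 0) (nat_lit 495476102) (nat_lit 0x7bfc24796) (nat_lit 1097908564)]
noncomputable def e37_13 : List Rx := [
  Rx.mk (nat_lit 5) (nat_lit 5) (nat_lit 0) (nat_lit 0) (nat_lit 1) (nat_lit 250) (nat_lit 315) r0_250 r7_315 (nat_lit 0) (nat_lit 18636919) (nat_lit 24992992) (nat_lit 0x67a63621c) (nat_lit 974858673),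
  Rx.mk (nat_lit 13) (nat_lit 5) (nat_lit 1) (nat_lit 0) (nat_lit 3) (nat_lit 251) (nat_lit 317) r0_251 r7_317 (nat_lit 0) (nat_lit 0) (nat_lit 25925090) (nat_lit 0x7f7ee0aba) (nat_lit 572200552),
  Rx.mk (nat_lit 69) (nat_lit 5) (nat_lit 0) (nat_lit 1) (nat_lit 5) (nat_lit 252) (nat_lit 316) r0_252 r7_316 (nat_lit 0) (nat_lit 26788272) (nat_lit 0) (nat_lit 0x7afd29426) (nat_lit 645521784),
  Rx.mk (nat_lit 77) (nat_lit 5) (nat_lit 1) (nat_lit 1) (nat_lit 7) (nat_lit 253) (nat_lit 318) r0_253 r7_318 (nat_lit 0) (nat_lit 0) (nat_lit 0) (nat_lit 0x80170d2ac) (nat_lit 536874862)]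
noncomputable def e37_14 : List Rx := [
  Rx.mk (nat_lit 1) (nat_lit 1) (nat_lit 0) (nat_lit 0) (nat_lit 1) (nat_lit 265) (nat_lit 180) r0_265 r1_180 (nat_lit 0) (nat_lit 14461079) (nat_lit 67542365) (nat_lit 0x5cc089d90) (nat_lit 1189508356),
  Rx.mk (nat_lit 5) (nat_lit 5) (nat_lit 0) (nat_lit 0) (nat_lit 1) (nat_lit 269) (nat_lit 179) r0_269 r1_179 (nat_lit 0) (nat_lit 62636) (nat_lit 1205034172) (nat_lit 0x802a2cad6) (nat_lit 1739481320),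
  Rx.mk (nat_lit 9) (nat_lit 1) (nat_lit 1) (nat_lit 0) (nat_lit 3) (nat_lit 266) (nat_lit 182) r0_266 r1_182 (nat_lit 0) (nat_lit 0) (nat_lit 30433232) (nat_lit 0x7d7bf805c) (nat_lit 608923094),
  Rx.mk (nat_lit 13) (nat_lit 5) (nat_lit 1) (nat_lit 0) (nat_lit 3) (nat_lit 270) (nat_lit 181) r0_270 r1_181 (nat_lit 0) (nat_lit 0) (nat_lit 72480076) (nat_lit 0x7991dfe78) (nat_lit 713984088),
  Rx.mk (nat_lit 17) (nat_lit 1) (nat_lit 2) (nat_lit 0) (nat_lit 3) (nat_lit 267) (nat_lit 183) r0_267 r1_183 (nat_lit 0) (nat_lit 0) (nat_lit 99141069) (nat_lit 0x7f0a1588e) (nat_lit 652491131),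
  Rx.mk (nat_lit 145) (nat_lit 1) (nat_lit 2) (nat_lit 2) (nat_lit 7) (nat_lit 268) (nat_lit 184) r0_268 r1_184 (nat_lit 0) (nat_lit 0) (nat_lit 0) (nat_lit 0x7c86d8338) (nat_lit 593842712)]
noncomputable def e37_15 : List Rx := [
  Rx.mk (nat_lit 1) (nat_lit 1) (nat_lit 0) (nat_lit 0) (nat_lit 1) (nat_lit 271) (nat_lit 230) r0_271 r8_230 (nat_lit 0) (nat_lit 75450971) (nat_lit 75494649) (nat_lit 0x5a61765d0) (nat_lit 1296858182),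
  Rx.mk (nat_lit 5) (nat_lit 5) (nat_lit 0) (nat_lit 0) (nat_lit 1) (nat_lit 278) (nat_lit 237) r0_278 r8_237 (nat_lit 0) (nat_lit 11187286) (nat_lit 22445376) (nat_lit 0x611b170e2) (nat_lit 1070645824),
  Rx.mk (nat_lit 9) (nat_lit 1) (nat_lit 1) (nat_lit 0) (nat_lit 3) (nat_lit 272) (nat_lit 232) r0_272 r8_232 (nat_lit 0) (nat_lit 0) (nat_lit 36993222) (nat_lit 0x7df6aaa0c) (nat_lit 607751434),
  Rx.mk (nat_lit 13) (nat_lit 5) (nat_lit 1) (nat_lit 0) (nat_lit 3) (nat_lit 279) (nat_lit 239) r0_279 r8_239 (nat_lit 0) (nat_lit 0) (nat_lit 24741287) (nat_lit 0x7faf81db8) (nat_lit 567993049),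
  Rx.mk (nat_lit 17) (nat_lit 1) (nat_lit 2) (nat_lit 0) (nat_lit 3) (nat_lit 273) (nat_lit 234) r0_273 r8_234 (nat_lit 0) (nat_lit 0) (nat_lit 25972273) (nat_lit 0x7eb8e4744) (nat_lit 584573485),
  Rx.mk (nat_lit 65) (nat_lit 1) (nat_lit 0) (nat_lit 1) (nat_lit 5) (nat_lit 274) (nat_lit 231) r0_274 r8_231 (nat_lit 0) (nat_lit 30314307) (nat_lit 0) (nat_lit 0x6f3513136) (nat_lit 839472119),
  Rx.mk (nat_lit 69) (nat_lit 5) (nat_lit 0) (nat_lit 1) (nat_lit 5) (nat_lit 280) (nat_lit 238) r0_280 r8_238 (nat_lit 0) (nat_lit 25163350) (nat_lit 0) (nat_lit 0x75f165a36) (nat_lit 725421662),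
  Rx.mk (nat_lit 73) (nat_lit 1) (nat_lit 1) (nat_lit 1) (nat_lit 7) (nat_lit 275) (nat_lit 233) r0_275 r8_233 (nat_lit 0) (nat_lit 0) (nat_lit 0) (nat_lit 0x7f69ccc6e) (nat_lit 547574012),
  Rx.mk (nat_lit 77) (nat_lit 5) (nat_lit 1) (nat_lit 1) (nat_lit 7) (nat_lit 281) (nat_lit 240) r0_281 r8_240 (nat_lit 0) (nat_lit 0) (nat_lit 0) (nat_lit 0x80027a268) (nat_lit 538140112),
  Rx.mk (nat_lit 81) (nat_lit 1) (nat_lit 2) (nat_lit 1) (nat_lit 7) (nat_lit 276) (nat_lit 235) r0_276 r8_235 (nat_lit 0) (nat_lit 0) (nat_lit 0) (nat_lit 0x8017985b4) (nat_lit 536870912),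
  Rx.mk (nat_lit 145) (nat_lit 1) (nat_lit 2) (nat_lit 2) (nat_lit 7) (nat_lit 277) (nat_lit 236) r0_277 r8_236 (nat_lit 0) (nat_lit 0) (nat_lit 0) (nat_lit 0x8010a6c4c) (nat_lit 537295162)]
noncomputable def e37_16 : List Rx := [
  Rx.mk (nat_lit 69) (nat_lit 5) (nat_lit 0) (nat_lit 1) (nat_lit 5) (nat_lit 289) (nat_lit 178) r0_289 r8_178 (nat_lit 0) (nat_lit 25058333) (nat_lit 0) (nat_lit 0x74a9cadf8) (nat_lit 746005345),
  Rx.mk (nat_lit 77) (nat_lit 5) (nat_lit 1) (nat_lit 1) (nat_lit 7) (nat_lit 290) (nat_lit 179) r0_290 r8_179 (nat_lit 0) (nat_lit 0) (nat_lit 0) (nat_lit 0x7ffa6b34c) (nat_lit 538657562)]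
noncomputable def e37_17 : List Rx := [
  Rx.mk (nat_lit 77) (nat_lit 5) (nat_lit 1) (nat_lit 1) (nat_lit 7) (nat_lit 291) (nat_lit 248) r0_291 r9_248 (nat_lit 0) (nat_lit 0) (nat_lit 0) (nat_lit 0x7f706cec0) (nat_lit 547165662),
  Rx.mk (nat_lit 333) (nat_lit 5) (nat_lit 1) (nat_lit 5) (nat_lit 7) (nat_lit 292) (nat_lit 249) r0_292 r9_249 (nat_lit 0) (nat_lit 0) (nat_lit 0) (nat_lit 0x7fa7f11e8) (nat_lit 543731812)]
noncomputable def e37_18 : List Rx := [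
  Rx.mk (nat_lit 5) (nat_lit 5) (nat_lit 0) (nat_lit 0) (nat_lit 1) (nat_lit 318) (nat_lit 155) r0_318 r4_155 (nat_lit 0) (nat_lit 2195696) (nat_lit 125045575) (nat_lit 0x6ae14ea2c) (nat_lit 1005937833),
  Rx.mk (nat_lit 13) (nat_lit 5) (nat_lit 1) (nat_lit 0) (nat_lit 3) (nat_lit 319) (nat_lit 156) r0_319 r4_156 (nat_lit 0) (nat_lit 0) (nat_lit 25377028) (nat_lit 0x7f22d5c02) (nat_lit 577258190),
  Rx.mk (nat_lit 197) (nat_lit 5) (nat_lit 0) (nat_lit 3) (nat_lit 5) (nat_lit 320) (nat_lit 157) r0_320 r4_157 (nat_lit 0) (nat_lit 9212328) (nat_lit 0) (nat_lit 0x785000486) (nat_lit 671079090),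
  Rx.mk (nat_lit 205) (nat_lit 5) (nat_lit 1) (nat_lit 3) (nat_lit 7) (nat_lit 321) (nat_lit 158) r0_321 r4_158 (nat_lit 0) (nat_lit 0) (nat_lit 0) (nat_lit 0x80b12ecdc) (nat_lit 527417312)]
noncomputable def e37_19 : List Rx := [
  Rx.mk (nat_lit 5) (nat_lit 5) (nat_lit 0) (nat_lit 0) (nat_lit 1) (nat_lit 322) (nat_lit 273) r0_322 r10_273 (nat_lit 0) (nat_lit 14038217) (nat_lit 17034488) (nat_lit 0x6f6e3009a) (nat_lit 836450667),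
  Rx.mk (nat_lit 13) (nat_lit 5) (nat_lit 1) (nat_lit 0) (nat_lit 3) (nat_lit 323) (nat_lit 276) r0_323 r10_276 (nat_lit 0) (nat_lit 0) (nat_lit 24741287) (nat_lit 0x8017985b4) (nat_lit 561612199),
  Rx.mk (nat_lit 69) (nat_lit 5) (nat_lit 0) (nat_lit 1) (nat_lit 5) (nat_lit 324) (nat_lit 274) r0_324 r10_274 (nat_lit 0) (nat_lit 24924827) (nat_lit 0) (nat_lit 0x7fc09e13c) (nat_lit 567146289),
  Rx.mk (nat_lit 77) (nat_lit 5) (nat_lit 1) (nat_lit 1) (nat_lit 7) (nat_lit 325) (nat_lit 277) r0_325 r10_277 (nat_lit 0) (nat_lit 0) (nat_lit 0) (nat_lit 0x8017985b4) (nat_lit 536870912),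
  Rx.mk (nat_lit 197) (nat_lit 5) (nat_lit 0) (nat_lit 3) (nat_lit 5) (nat_lit 326) (nat_lit 275) r0_326 r10_275 (nat_lit 0) (nat_lit 25781778) (nat_lit 0) (nat_lit 0x7e4c3ec0c) (nat_lit 591158440),
  Rx.mk (nat_lit 205) (nat_lit 5) (nat_lit 1) (nat_lit 3) (nat_lit 7) (nat_lit 327) (nat_lit 278) r0_327 r10_278 (nat_lit 0) (nat_lit 0) (nat_lit 0) (nat_lit 0x7ffa5b708) (nat_lit 538653612)]
noncomputable def e37_20 : List Rx := [
  Rx.mk (nat_lit 197) (nat_lit 5) (nat_lit 0) (nat_lit 3) (nat_lit 5) (nat_lit 328) (nat_lit 298) r0_328 r11_298 (nat_lit 0) (nat_lit 19793988) (nat_lit 0) (nat_lit 0x801bf7722) (nat_lit 556379500),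
  Rx.mk (nat_lit 205) (nat_lit 5) (nat_lit 1) (nat_lit 3) (nat_lit 7) (nat_lit 329) (nat_lit 299) r0_329 r11_299 (nat_lit 0) (nat_lit 0) (nat_lit 0) (nat_lit 0x8017985b4) (nat_lit 536870912)]
noncomputable def e37_21 : List Rx := [
  Rx.mk (nat_lit 76) (nat_lit 4) (nat_lit 1) (nat_lit 1) (nat_lit 6) (nat_lit 293) (nat_lit 254) r0_293 r9_254 (nat_lit 27880557) (nat_lit 0) (nat_lit 0) (nat_lit 0x735c96bb4) (nat_lit 769863869),
  Rx.mk (nat_lit 77) (nat_lit 5) (nat_lit 1) (nat_lit 1) (nat_lit 7) (nat_lit 296) (nat_lit 256) r0_296 r9_256 (nat_lit 0) (nat_lit 0) (nat_lit 0) (nat_lit 0x7ff5e805e) (nat_lit 538935112),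
  Rx.mk (nat_lit 332) (nat_lit 4) (nat_lit 1) (nat_lit 5) (nat_lit 6) (nat_lit 294) (nat_lit 253) r0_294 r9_253 (nat_lit 27813133) (nat_lit 0) (nat_lit 0) (nat_lit 0x7ac35ec14) (nat_lit 650184545),
  Rx.mk (nat_lit 333) (nat_lit 5) (nat_lit 1) (nat_lit 5) (nat_lit 7) (nat_lit 297) (nat_lit 255) r0_297 r9_255 (nat_lit 0) (nat_lit 0) (nat_lit 0) (nat_lit 0x7fe5db210) (nat_lit 539920162),
  Rx.mk (nat_lit 364) (nat_lit 4) (nat_lit 5) (nat_lit 5) (nat_lit 6) (nat_lit 295) (nat_lit 250) r0_295 r9_250 (nat_lit 25628035) (nat_lit 0) (nat_lit 0) (nat_lit 0x7c71b8854) (nat_lit 620861597),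
  Rx.mk (nat_lit 365) (nat_lit 5) (nat_lit 5) (nat_lit 5) (nat_lit 7) (nat_lit 298) (nat_lit 251) r0_298 r9_251 (nat_lit 0) (nat_lit 0) (nat_lit 0) (nat_lit 0x7fa3dbc34) (nat_lit 543982362),
  Rx.mk (nat_lit 366) (nat_lit 6) (nat_lit 5) (nat_lit 5) (nat_lit 7) (nat_lit 299) (nat_lit 252) r0_299 r9_252 (nat_lit 0) (nat_lit 0) (nat_lit 0) (nat_lit 0x7fed20192) (nat_lit 539467362)]
noncomputable def e37_22 : List Rx := [
  Rx.mk (nat_lit 302) (nat_lit 6) (nat_lit 5) (nat_lit 4) (nat_lit 3) (nat_lit 73) (nat_lit 72) r0_73 r0_72 (nat_lit 0) (nat_lit 0) (nat_lit 11196067) (nat_lit 0x781247b62) (nat_lit 676967229),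
  Rx.mk (nat_lit 492) (nat_lit 4) (nat_lit 5) (nat_lit 7) (nat_lit 6) (nat_lit 72) (nat_lit 73) r0_72 r0_73 (nat_lit 11196067) (nat_lit 0) (nat_lit 0) (nat_lit 0x781247b62) (nat_lit 676967229),
  Rx.mk (nat_lit 494) (nat_lit 6) (nat_lit 5) (nat_lit 7) (nat_lit 7) (nat_lit 74) (nat_lit 74) r0_74 r0_74 (nat_lit 0) (nat_lit 0) (nat_lit 0) (nat_lit 0x7ff019722) (nat_lit 539153312)]
noncomputable def e37_23 : List Rx := [
  Rx.mk (nat_lit 302) (nat_lit 6) (nat_lit 5) (nat_lit 4) (nat_lit 3) (nat_lit 76) (nat_lit 69) r0_76 r1_69 (nat_lit 0) (nat_lit 0) (nat_lit 21882932) (nat_lit 0x7e18dc364) (nat_lit 590459594),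
  Rx.mk (nat_lit 430) (nat_lit 6) (nat_lit 5) (nat_lit 6) (nat_lit 7) (nat_lit 77) (nat_lit 72) r0_77 r1_72 (nat_lit 0) (nat_lit 0) (nat_lit 0) (nat_lit 0x8008dd830) (nat_lit 537772712),
  Rx.mk (nat_lit 492) (nat_lit 4) (nat_lit 5) (nat_lit 7) (nat_lit 6) (nat_lit 75) (nat_lit 70) r0_75 r1_70 (nat_lit 11807158) (nat_lit 0) (nat_lit 0) (nat_lit 0x7ffe24146) (nat_lit 550115770),
  Rx.mk (nat_lit 494) (nat_lit 6) (nat_lit 5) (nat_lit 7) (nat_lit 7) (nat_lit 78) (nat_lit 71) r0_78 r1_71 (nat_lit 0) (nat_lit 0) (nat_lit 0) (nat_lit 0x8272ee83a) (nat_lit 500330612)]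
noncomputable def e37_24 : List Rx := [
  Rx.mk (nat_lit 460) (nat_lit 4) (nat_lit 1) (nat_lit 7) (nat_lit 6) (nat_lit 79) (nat_lit 68) r0_79 r4_68 (nat_lit 6167468) (nat_lit 0) (nat_lit 0) (nat_lit 0x5e86efab0) (nat_lit 1084789780),
  Rx.mk (nat_lit 492) (nat_lit 4) (nat_lit 5) (nat_lit 7) (nat_lit 6) (nat_lit 80) (nat_lit 69) r0_80 r4_69 (nat_lit 13011950) (nat_lit 0) (nat_lit 0) (nat_lit 0x7c2e5800a) (nat_lit 612357812),
  Rx.mk (nat_lit 494) (nat_lit 6) (nat_lit 5) (nat_lit 7) (nat_lit 7) (nat_lit 81) (nat_lit 70) r0_81 r4_70 (nat_lit 0) (nat_lit 0) (nat_lit 0) (nat_lit 0x7f12b28fc) (nat_lit 552544162)]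
noncomputable def e37_25 : List Rx := [
  Rx.mk (nat_lit 268) (nat_lit 4) (nat_lit 1) (nat_lit 4) (nat_lit 2) (nat_lit 177) (nat_lit 325) r0_177 r7_325 (nat_lit 7378942) (nat_lit 0) (nat_lit 3400781) (nat_lit 0x545558bfa) (nat_lit 1254182035),
  Rx.mk (nat_lit 300) (nat_lit 4) (nat_lit 5) (nat_lit 4) (nat_lit 2) (nat_lit 178) (nat_lit 319) r0_178 r7_319 (nat_lit 10270932) (nat_lit 0) (nat_lit 5394699) (nat_lit 0x5fa366a58) (nat_lit 1076368243),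
  Rx.mk (nat_lit 302) (nat_lit 6) (nat_lit 5) (nat_lit 4) (nat_lit 3) (nat_lit 182) (nat_lit 322) r0_182 r7_322 (nat_lit 0) (nat_lit 0) (nat_lit 7741900) (nat_lit 0x80bec9efa) (nat_lit 534261362),
  Rx.mk (nat_lit 332) (nat_lit 4) (nat_lit 1) (nat_lit 5) (nat_lit 6) (nat_lit 179) (nat_lit 326) r0_179 r7_326 (nat_lit 10961872) (nat_lit 0) (nat_lit 0) (nat_lit 0x71abf8114) (nat_lit 780182384),
  Rx.mk (nat_lit 364) (nat_lit 4) (nat_lit 5) (nat_lit 5) (nat_lit 6) (nat_lit 180) (nat_lit 320) r0_180 r7_320 (nat_lit 23289893) (nat_lit 0) (nat_lit 0) (nat_lit 0x7d8545704) (nat_lit 601157455),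
  Rx.mk (nat_lit 366) (nat_lit 6) (nat_lit 5) (nat_lit 5) (nat_lit 7) (nat_lit 183) (nat_lit 323) r0_183 r7_323 (nat_lit 0) (nat_lit 0) (nat_lit 0) (nat_lit 0x80877ffc6) (nat_lit 529984012),
  Rx.mk (nat_lit 492) (nat_lit 4) (nat_lit 5) (nat_lit 7) (nat_lit 6) (nat_lit 181) (nat_lit 321) r0_181 r7_321 (nat_lit 39572657) (nat_lit 0) (nat_lit 0) (nat_lit 0x7fce955ba) (nat_lit 580469619),
  Rx.mk (nat_lit 494) (nat_lit 6) (nat_lit 5) (nat_lit 7) (nat_lit 7) (nat_lit 184) (nat_lit 324) r0_184 r7_324 (nat_lit 0) (nat_lit 0) (nat_lit 0) (nat_lit 0x80b89b4d4) (nat_lit 527012662)]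
noncomputable def e37_26 : List Rx := [
  Rx.mk (nat_lit 300) (nat_lit 4) (nat_lit 5) (nat_lit 4) (nat_lit 2) (nat_lit 188) (nat_lit 241) r0_188 r8_241 (nat_lit 24251954) (nat_lit 0) (nat_lit 19008238) (nat_lit 0x59ee2d664) (nat_lit 1196415754),
  Rx.mk (nat_lit 302) (nat_lit 6) (nat_lit 5) (nat_lit 4) (nat_lit 3) (nat_lit 191) (nat_lit 244) r0_191 r8_244 (nat_lit 0) (nat_lit 0) (nat_lit 20123998) (nat_lit 0x7c1a22dec) (nat_lit 620862110),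
  Rx.mk (nat_lit 364) (nat_lit 4) (nat_lit 5) (nat_lit 5) (nat_lit 6) (nat_lit 189) (nat_lit 242) r0_189 r8_242 (nat_lit 26165794) (nat_lit 0) (nat_lit 0) (nat_lit 0x7b3e3e45c) (nat_lit 640781706),
  Rx.mk (nat_lit 366) (nat_lit 6) (nat_lit 5) (nat_lit 5) (nat_lit 7) (nat_lit 192) (nat_lit 245) r0_192 r8_245 (nat_lit 0) (nat_lit 0) (nat_lit 0) (nat_lit 0x8005f486c) (nat_lit 537949312),
  Rx.mk (nat_lit 430) (nat_lit 6) (nat_lit 5) (nat_lit 6) (nat_lit 7) (nat_lit 193) (nat_lit 247) r0_193 r8_247 (nat_lit 0) (nat_lit 0) (nat_lit 0) (nat_lit 0x8017985b4) (nat_lit 536870912),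
  Rx.mk (nat_lit 492) (nat_lit 4) (nat_lit 5) (nat_lit 7) (nat_lit 6) (nat_lit 190) (nat_lit 243) r0_190 r8_243 (nat_lit 32293832) (nat_lit 0) (nat_lit 0) (nat_lit 0x808393b6a) (nat_lit 562478594),
  Rx.mk (nat_lit 494) (nat_lit 6) (nat_lit 5) (nat_lit 7) (nat_lit 7) (nat_lit 194) (nat_lit 246) r0_194 r8_246 (nat_lit 0) (nat_lit 0) (nat_lit 0) (nat_lit 0x8017985b4) (nat_lit 536870912)]
noncomputable def e37_27 : List Rx := [
  Rx.mk (nat_lit 332) (nat_lit 4) (nat_lit 1) (nat_lit 5) (nat_lit 6) (nat_lit 185) (nat_lit 63) r0_185 r8_63 (nat_lit 17259595) (nat_lit 0) (nat_lit 0) (nat_lit 0x7bf63ab82) (nat_lit 620224207),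
  Rx.mk (nat_lit 364) (nat_lit 4) (nat_lit 5) (nat_lit 5) (nat_lit 6) (nat_lit 186) (nat_lit 64) r0_186 r8_64 (nat_lit 26500941) (nat_lit 0) (nat_lit 0) (nat_lit 0x7c9c5d064) (nat_lit 619045003),
  Rx.mk (nat_lit 366) (nat_lit 6) (nat_lit 5) (nat_lit 5) (nat_lit 7) (nat_lit 187) (nat_lit 65) r0_187 r8_65 (nat_lit 0) (nat_lit 0) (nat_lit 0) (nat_lit 0x802f4e852) (nat_lit 535398012)]
noncomputable def e37_28 : List Rx := [
  Rx.mk (nat_lit 268) (nat_lit 4) (nat_lit 1) (nat_lit 4) (nat_lit 2) (nat_lit 195) (nat_lit 281) r0_195 r10_281 (nat_lit 4364993) (nat_lit 0) (nat_lit 2412373) (nat_lit 0x599f905a6) (nat_lit 1164616828),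
  Rx.mk (nat_lit 332) (nat_lit 4) (nat_lit 1) (nat_lit 5) (nat_lit 6) (nat_lit 196) (nat_lit 282) r0_196 r10_282 (nat_lit 12102424) (nat_lit 0) (nat_lit 0) (nat_lit 0x79db10b88) (nat_lit 649035436),
  Rx.mk (nat_lit 460) (nat_lit 4) (nat_lit 1) (nat_lit 7) (nat_lit 6) (nat_lit 197) (nat_lit 283) r0_197 r10_283 (nat_lit 70189493) (nat_lit 0) (nat_lit 0) (nat_lit 0x7d33fb286) (nat_lit 652998905),
  Rx.mk (nat_lit 492) (nat_lit 4) (nat_lit 5) (nat_lit 7) (nat_lit 6) (nat_lit 198) (nat_lit 279) r0_198 r10_279 (nat_lit 45895857) (nat_lit 0) (nat_lit 0) (nat_lit 0x7fb6ad812) (nat_lit 588199269),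
  Rx.mk (nat_lit 494) (nat_lit 6) (nat_lit 5) (nat_lit 7) (nat_lit 7) (nat_lit 199) (nat_lit 280) r0_199 r10_280 (nat_lit 0) (nat_lit 0) (nat_lit 0) (nat_lit 0x809c1612e) (nat_lit 528750462)]
noncomputable def e37_29 : List Rx := [
  Rx.mk (nat_lit 460) (nat_lit 4) (nat_lit 1) (nat_lit 7) (nat_lit 6) (nat_lit 225) (nat_lit 302) r0_225 r11_302 (nat_lit 9444164) (nat_lit 0) (nat_lit 0) (nat_lit 0x7fd819c08) (nat_lit 550012926),
  Rx.mk (nat_lit 492) (nat_lit 4) (nat_lit 5) (nat_lit 7) (nat_lit 6) (nat_lit 226) (nat_lit 300) r0_226 r11_300 (nat_lit 12926127) (nat_lit 0) (nat_lit 0) (nat_lit 0x800aea9a2) (nat_lit 550481389),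
  Rx.mk (nat_lit 494) (nat_lit 6) (nat_lit 5) (nat_lit 7) (nat_lit 7) (nat_lit 227) (nat_lit 301) r0_227 r11_301 (nat_lit 0) (nat_lit 0) (nat_lit 0) (nat_lit 0x8257094c6) (nat_lit 501926062)]
noncomputable def e37_30 : List Rx := [
  Rx.mk (nat_lit 4) (nat_lit 4) (nat_lit 0) (nat_lit 0) (nat_lit 0) (nat_lit 330) (nat_lit 152) r0_330 r5_152 (nat_lit 4295) (nat_lit 4746) (nat_lit 246635775) (nat_lit 0x7ffebcf68) (nat_lit 783597078),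
  Rx.mk (nat_lit 5) (nat_lit 5) (nat_lit 0) (nat_lit 0) (nat_lit 1) (nat_lit 335) (nat_lit 153) r0_335 r5_153 (nat_lit 0) (nat_lit 7966129) (nat_lit 72835185) (nat_lit 0x768dbcfb0) (nat_lit 771020776),
  Rx.mk (nat_lit 7) (nat_lit 7) (nat_lit 0) (nat_lit 0) (nat_lit 1) (nat_lit 340) (nat_lit 154) r0_340 r5_154 (nat_lit 0) (nat_lit 2248887) (nat_lit 43528741) (nat_lit 0x7781485e4) (nat_lit 720358340),
  Rx.mk (nat_lit 12) (nat_lit 4) (nat_lit 1) (nat_lit 0) (nat_lit 2) (nat_lit 331) (nat_lit 155) r0_331 r5_155 (nat_lit 18467620) (nat_lit 0) (nat_lit 12431881) (nat_lit 0x77229ca54) (nat_lit 711720913),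
  Rx.mk (nat_lit 13) (nat_lit 5) (nat_lit 1) (nat_lit 0) (nat_lit 3) (nat_lit 336) (nat_lit 156) r0_336 r5_156 (nat_lit 0) (nat_lit 0) (nat_lit 32356529) (nat_lit 0x7e416a34e) (nat_lit 598396941),
  Rx.mk (nat_lit 15) (nat_lit 7) (nat_lit 1) (nat_lit 0) (nat_lit 3) (nat_lit 341) (nat_lit 157) r0_341 r5_157 (nat_lit 0) (nat_lit 0) (nat_lit 4283816) (nat_lit 0x76dca6428) (nat_lit 689405378),
  Rx.mk (nat_lit 196) (nat_lit 4) (nat_lit 0) (nat_lit 3) (nat_lit 4) (nat_lit 332) (nat_lit 158) r0_332 r5_158 (nat_lit 9515140) (nat_lit 9046091) (nat_lit 0) (nat_lit 0x640679402) (nat_lit 1008402593),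
  Rx.mk (nat_lit 197) (nat_lit 5) (nat_lit 0) (nat_lit 3) (nat_lit 5) (nat_lit 337) (nat_lit 159) r0_337 r5_159 (nat_lit 0) (nat_lit 15727667) (nat_lit 0) (nat_lit 0x785988350) (nat_lit 677032129),
  Rx.mk (nat_lit 204) (nat_lit 4) (nat_lit 1) (nat_lit 3) (nat_lit 6) (nat_lit 333) (nat_lit 160) r0_333 r5_160 (nat_lit 20486354) (nat_lit 0) (nat_lit 0) (nat_lit 0x7e13133ec) (nat_lit 589334166),
  Rx.mk (nat_lit 205) (nat_lit 5) (nat_lit 1) (nat_lit 3) (nat_lit 7) (nat_lit 338) (nat_lit 161) r0_338 r5_161 (nat_lit 0) (nat_lit 0) (nat_lit 0) (nat_lit 0x7f6c75efc) (nat_lit 547366462),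
  Rx.mk (nat_lit 220) (nat_lit 4) (nat_lit 3) (nat_lit 3) (nat_lit 6) (nat_lit 334) (nat_lit 162) r0_334 r5_162 (nat_lit 25423219) (nat_lit 0) (nat_lit 0) (nat_lit 0x71dceb686) (nat_lit 791634281),
  Rx.mk (nat_lit 221) (nat_lit 5) (nat_lit 3) (nat_lit 3) (nat_lit 7) (nat_lit 339) (nat_lit 163) r0_339 r5_163 (nat_lit 0) (nat_lit 0) (nat_lit 0) (nat_lit 0x804d1b93e) (nat_lit 533580312)]
noncomputable def e37_31 : List Rx := [
  Rx.mk (nat_lit 4) (nat_lit 4) (nat_lit 0) (nat_lit 0) (nat_lit 0) (nat_lit 342) (nat_lit 165) r0_342 r11_165 (nat_lit 16543091) (nat_lit 61517721) (nat_lit 27528448) (nat_lit 0x56389a70a) (nat_lit 1318729522),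
  Rx.mk (nat_lit 5) (nat_lit 5) (nat_lit 0) (nat_lit 0) (nat_lit 1) (nat_lit 349) (nat_lit 166) r0_349 r11_166 (nat_lit 0) (nat_lit 43084134) (nat_lit 151143769) (nat_lit 0x7b5af1fae) (nat_lit 807011715),
  Rx.mk (nat_lit 7) (nat_lit 7) (nat_lit 0) (nat_lit 0) (nat_lit 1) (nat_lit 356) (nat_lit 167) r0_356 r11_167 (nat_lit 0) (nat_lit 40023232) (nat_lit 40023232) (nat_lit 0x7e12b2628) (nat_lit 649033426),
  Rx.mk (nat_lit 12) (nat_lit 4) (nat_lit 1) (nat_lit 0) (nat_lit 2) (nat_lit 343) (nat_lit 168) r0_343 r11_168 (nat_lit 97208642) (nat_lit 0) (nat_lit 39863545) (nat_lit 0x7bb2e4220) (nat_lit 744358799),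
  Rx.mk (nat_lit 13) (nat_lit 5) (nat_lit 1) (nat_lit 0) (nat_lit 3) (nat_lit 350) (nat_lit 169) r0_350 r11_169 (nat_lit 0) (nat_lit 0) (nat_lit 24741287) (nat_lit 0x8017985b4) (nat_lit 561612199),
  Rx.mk (nat_lit 15) (nat_lit 7) (nat_lit 1) (nat_lit 0) (nat_lit 3) (nat_lit 357) (nat_lit 170) r0_357 r11_170 (nat_lit 0) (nat_lit 0) (nat_lit 24741287) (nat_lit 0x8017985b4) (nat_lit 561612199),
  Rx.mk (nat_lit 68) (nat_lit 4) (nat_lit 0) (nat_lit 1) (nat_lit 4) (nat_lit 344) (nat_lit 171) r0_344 r11_171 (nat_lit 84020208) (nat_lit 36871294) (nat_lit 0) (nat_lit 0x783359b98) (nat_lit 784659514),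
  Rx.mk (nat_lit 69) (nat_lit 5) (nat_lit 0) (nat_lit 1) (nat_lit 5) (nat_lit 351) (nat_lit 172) r0_351 r11_172 (nat_lit 0) (nat_lit 24741287) (nat_lit 0) (nat_lit 0x8017985b4) (nat_lit 561612199),
  Rx.mk (nat_lit 71) (nat_lit 7) (nat_lit 0) (nat_lit 1) (nat_lit 5) (nat_lit 358) (nat_lit 173) r0_358 r11_173 (nat_lit 0) (nat_lit 23550752) (nat_lit 0) (nat_lit 0x804b6b5bc) (nat_lit 557203014),
  Rx.mk (nat_lit 76) (nat_lit 4) (nat_lit 1) (nat_lit 1) (nat_lit 6) (nat_lit 345) (nat_lit 174) r0_345 r11_174 (nat_lit 66364716) (nat_lit 0) (nat_lit 0) (nat_lit 0x7dacacf72) (nat_lit 641664678),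
  Rx.mk (nat_lit 77) (nat_lit 5) (nat_lit 1) (nat_lit 1) (nat_lit 7) (nat_lit 352) (nat_lit 175) r0_352 r11_175 (nat_lit 0) (nat_lit 0) (nat_lit 0) (nat_lit 0x8017985b4) (nat_lit 536870912),
  Rx.mk (nat_lit 79) (nat_lit 7) (nat_lit 1) (nat_lit 1) (nat_lit 7) (nat_lit 359) (nat_lit 176) r0_359 r11_176 (nat_lit 0) (nat_lit 0) (nat_lit 0) (nat_lit 0x821f15f74) (nat_lit 505368512),
  Rx.mk (nat_lit 196) (nat_lit 4) (nat_lit 0) (nat_lit 3) (nat_lit 4) (nat_lit 346) (nat_lit 177) r0_346 r11_177 (nat_lit 31505454) (nat_lit 49484385) (nat_lit 0) (nat_lit 0x786492660) (nat_lit 741673001),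
  Rx.mk (nat_lit 197) (nat_lit 5) (nat_lit 0) (nat_lit 3) (nat_lit 5) (nat_lit 353) (nat_lit 178) r0_353 r11_178 (nat_lit 0) (nat_lit 27043959) (nat_lit 0) (nat_lit 0x7fc599f24) (nat_lit 568952071),
  Rx.mk (nat_lit 204) (nat_lit 4) (nat_lit 1) (nat_lit 3) (nat_lit 6) (nat_lit 347) (nat_lit 179) r0_347 r11_179 (nat_lit 24741287) (nat_lit 0) (nat_lit 0) (nat_lit 0x8017985b4) (nat_lit 561612199),
  Rx.mk (nat_lit 205) (nat_lit 5) (nat_lit 1) (nat_lit 3) (nat_lit 7) (nat_lit 354) (nat_lit 180) r0_354 r11_180 (nat_lit 0) (nat_lit 0) (nat_lit 0) (nat_lit 0x8017985b4) (nat_lit 536870912),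
  Rx.mk (nat_lit 220) (nat_lit 4) (nat_lit 3) (nat_lit 3) (nat_lit 6) (nat_lit 348) (nat_lit 181) r0_348 r11_181 (nat_lit 24977480) (nat_lit 0) (nat_lit 0) (nat_lit 0x7ff4c15ea) (nat_lit 563982842),
  Rx.mk (nat_lit 221) (nat_lit 5) (nat_lit 3) (nat_lit 3) (nat_lit 7) (nat_lit 355) (nat_lit 182) r0_355 r11_182 (nat_lit 0) (nat_lit 0) (nat_lit 0) (nat_lit 0x8017985b4) (nat_lit 536870912)]
noncomputable def e37_32 : List Rx := [
  Rx.mk (nat_lit 199) (nat_lit 7) (nat_lit 0) (nat_lit 3) (nat_lit 5) (nat_lit 85) (nat_lit 5) r0_85 r6_5 (nat_lit 0) (nat_lit 4982960) (nat_lit 0) (nat_lit 0x7f97fd5b6) (nat_lit 549398922),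
  Rx.mk (nat_lit 207) (nat_lit 7) (nat_lit 1) (nat_lit 3) (nat_lit 7) (nat_lit 86) (nat_lit 6) r0_86 r6_6 (nat_lit 0) (nat_lit 0) (nat_lit 0) (nat_lit 0x8ecace6ac) (nat_lit 311796962),
  Rx.mk (nat_lit 452) (nat_lit 4) (nat_lit 0) (nat_lit 7) (nat_lit 4) (nat_lit 82) (nat_lit 0) r0_82 r6_0 (nat_lit 2752324) (nat_lit 1834824) (nat_lit 0) (nat_lit 0x5acd8ab40) (nat_lit 1143327010),
  Rx.mk (nat_lit 455) (nat_lit 7) (nat_lit 0) (nat_lit 7) (nat_lit 5) (nat_lit 87) (nat_lit 3) r0_87 r6_3 (nat_lit 0) (nat_lit 18629772) (nat_lit 0) (nat_lit 0x7b316cfbc) (nat_lit 634046784),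
  Rx.mk (nat_lit 460) (nat_lit 4) (nat_lit 1) (nat_lit 7) (nat_lit 6) (nat_lit 83) (nat_lit 1) r0_83 r6_1 (nat_lit 13075147) (nat_lit 0) (nat_lit 0) (nat_lit 0x78e3d9b80) (nat_lit 665603759),
  Rx.mk (nat_lit 463) (nat_lit 7) (nat_lit 1) (nat_lit 7) (nat_lit 7) (nat_lit 88) (nat_lit 4) r0_88 r6_4 (nat_lit 0) (nat_lit 0) (nat_lit 0) (nat_lit 0x8116bf43e) (nat_lit 521295912),
  Rx.mk (nat_lit 476) (nat_lit 4) (nat_lit 3) (nat_lit 7) (nat_lit 6) (nat_lit 84) (nat_lit 2) r0_84 r6_2 (nat_lit 9488112) (nat_lit 0) (nat_lit 0) (nat_lit 0x7869953b0) (nat_lit 669747474)]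
noncomputable def e37_33 : List Rx := [
  Rx.mk (nat_lit 460) (nat_lit 4) (nat_lit 1) (nat_lit 7) (nat_lit 6) (nat_lit 89) (nat_lit 61) r0_89 r5_61 (nat_lit 16868928) (nat_lit 0) (nat_lit 0) (nat_lit 0x770328902) (nat_lit 699634640),
  Rx.mk (nat_lit 463) (nat_lit 7) (nat_lit 1) (nat_lit 7) (nat_lit 7) (nat_lit 90) (nat_lit 62) r0_90 r5_62 (nat_lit 0) (nat_lit 0) (nat_lit 0) (nat_lit 0x80cf2f8d0) (nat_lit 525470412)]
noncomputable def e37_34 : List Rx := [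
  Rx.mk (nat_lit 268) (nat_lit 4) (nat_lit 1) (nat_lit 4) (nat_lit 2) (nat_lit 200) (nat_lit 37) r0_200 r11_37 (nat_lit 46723193) (nat_lit 0) (nat_lit 75082556) (nat_lit 0x67eb4628a) (nat_lit 1048737861),
  Rx.mk (nat_lit 332) (nat_lit 4) (nat_lit 1) (nat_lit 5) (nat_lit 6) (nat_lit 201) (nat_lit 38) r0_201 r11_38 (nat_lit 24741287) (nat_lit 0) (nat_lit 0) (nat_lit 0x80790da56) (nat_lit 555628299),
  Rx.mk (nat_lit 460) (nat_lit 4) (nat_lit 1) (nat_lit 7) (nat_lit 6) (nat_lit 202) (nat_lit 39) r0_202 r11_39 (nat_lit 41103109) (nat_lit 0) (nat_lit 0) (nat_lit 0x7fd7cf8c4) (nat_lit 581741021),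
  Rx.mk (nat_lit 463) (nat_lit 7) (nat_lit 1) (nat_lit 7) (nat_lit 7) (nat_lit 203) (nat_lit 40) r0_203 r11_40 (nat_lit 0) (nat_lit 0) (nat_lit 0) (nat_lit 0x820bd8c36) (nat_lit 506517062)]
noncomputable def e37_35 : List Rx := [
  Rx.mk (nat_lit 7) (nat_lit 7) (nat_lit 0) (nat_lit 0) (nat_lit 1) (nat_lit 232) (nat_lit 98) r0_232 r6_98 (nat_lit 0) (nat_lit 853516) (nat_lit 961472) (nat_lit 0x7527736a6) (nat_lit 714260500),
  Rx.mk (nat_lit 15) (nat_lit 7) (nat_lit 1) (nat_lit 0) (nat_lit 3) (nat_lit 233) (nat_lit 101) r0_233 r6_101 (nat_lit 0) (nat_lit 0) (nat_lit 727303) (nat_lit 0x864e745a0) (nat_lit 441614815),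
  Rx.mk (nat_lit 196) (nat_lit 4) (nat_lit 0) (nat_lit 3) (nat_lit 4) (nat_lit 228) (nat_lit 99) r0_228 r6_99 (nat_lit 549304) (nat_lit 476596) (nat_lit 0) (nat_lit 0x63aaea0f0) (nat_lit 996170062),
  Rx.mk (nat_lit 199) (nat_lit 7) (nat_lit 0) (nat_lit 3) (nat_lit 5) (nat_lit 234) (nat_lit 100) r0_234 r6_100 (nat_lit 0) (nat_lit 11464009) (nat_lit 0) (nat_lit 0x7fcd39b80) (nat_lit 552812521),
  Rx.mk (nat_lit 204) (nat_lit 4) (nat_lit 1) (nat_lit 3) (nat_lit 6) (nat_lit 229) (nat_lit 102) r0_229 r6_102 (nat_lit 2611205) (nat_lit 0) (nat_lit 0) (nat_lit 0x83a05514c) (nat_lit 484513917),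
  Rx.mk (nat_lit 207) (nat_lit 7) (nat_lit 1) (nat_lit 3) (nat_lit 7) (nat_lit 235) (nat_lit 103) r0_235 r6_103 (nat_lit 0) (nat_lit 0) (nat_lit 0) (nat_lit 0x86cc8ff0c) (nat_lit 433849212),
  Rx.mk (nat_lit 220) (nat_lit 4) (nat_lit 3) (nat_lit 3) (nat_lit 6) (nat_lit 230) (nat_lit 104) r0_230 r6_104 (nat_lit 14019292) (nat_lit 0) (nat_lit 0) (nat_lit 0x774820d34) (nat_lit 692574004),
  Rx.mk (nat_lit 476) (nat_lit 4) (nat_lit 3) (nat_lit 7) (nat_lit 6) (nat_lit 231) (nat_lit 105) r0_231 r6_105 (nat_lit 7518208) (nat_lit 0) (nat_lit 0) (nat_lit 0x737802416) (nat_lit 747659820)]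
noncomputable def e37_36 : List Rx := [
  Rx.mk (nat_lit 196) (nat_lit 4) (nat_lit 0) (nat_lit 3) (nat_lit 4) (nat_lit 236) (nat_lit 318) r0_236 r12_318 (nat_lit 483498) (nat_lit 337141) (nat_lit 0) (nat_lit 0x69bd8207c) (nat_lit 897741001),
  Rx.mk (nat_lit 199) (nat_lit 7) (nat_lit 0) (nat_lit 3) (nat_lit 5) (nat_lit 241) (nat_lit 323) r0_241 r12_323 (nat_lit 0) (nat_lit 7132573) (nat_lit 0) (nat_lit 0x7f5e76888) (nat_lit 555234485),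
  Rx.mk (nat_lit 204) (nat_lit 4) (nat_lit 1) (nat_lit 3) (nat_lit 6) (nat_lit 237) (nat_lit 320) r0_237 r12_320 (nat_lit 110144) (nat_lit 0) (nat_lit 0) (nat_lit 0x82822bbe0) (nat_lit 498750706),
  Rx.mk (nat_lit 207) (nat_lit 7) (nat_lit 1) (nat_lit 3) (nat_lit 7) (nat_lit 242) (nat_lit 324) r0_242 r12_324 (nat_lit 0) (nat_lit 0) (nat_lit 0) (nat_lit 0x91ea2ede6) (nat_lit 264130312),
  Rx.mk (nat_lit 452) (nat_lit 4) (nat_lit 0) (nat_lit 7) (nat_lit 4) (nat_lit 238) (nat_lit 319) r0_238 r12_319 (nat_lit 1147203) (nat_lit 939367) (nat_lit 0) (nat_lit 0x56a34f6d6) (nat_lit 1208040532),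
  Rx.mk (nat_lit 460) (nat_lit 4) (nat_lit 1) (nat_lit 7) (nat_lit 6) (nat_lit 239) (nat_lit 321) r0_239 r12_321 (nat_lit 17412885) (nat_lit 0) (nat_lit 0) (nat_lit 0x6e9844ff8) (nat_lit 836304197),
  Rx.mk (nat_lit 476) (nat_lit 4) (nat_lit 3) (nat_lit 7) (nat_lit 6) (nat_lit 240) (nat_lit 322) r0_240 r12_322 (nat_lit 5034045) (nat_lit 0) (nat_lit 0) (nat_lit 0x6bcc7805c) (nat_lit 869121807)]
noncomputable def e37_37 : List Rx := [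
  Rx.mk (nat_lit 3) (nat_lit 3) (nat_lit 0) (nat_lit 0) (nat_lit 1) (nat_lit 4) (nat_lit 11) r0_4 r0_11 (nat_lit 0) (nat_lit 5108) (nat_lit 6426) (nat_lit 0x7ff90f05c) (nat_lit 537322946),
  Rx.mk (nat_lit 19) (nat_lit 3) (nat_lit 2) (nat_lit 0) (nat_lit 3) (nat_lit 5) (nat_lit 12) r0_5 r0_12 (nat_lit 0) (nat_lit 0) (nat_lit 11895286) (nat_lit 0x6f9864d16) (nat_lit 814611698),
  Rx.mk (nat_lit 144) (nat_lit 0) (nat_lit 2) (nat_lit 2) (nat_lit 6) (nat_lit 0) (nat_lit 10) r0_0 r0_10 (nat_lit 80316) (nat_lit 0) (nat_lit 0) (nat_lit 0x5509d2c2a) (nat_lit 1231694478),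
  Rx.mk (nat_lit 146) (nat_lit 2) (nat_lit 2) (nat_lit 2) (nat_lit 7) (nat_lit 1) (nat_lit 19) r0_1 r0_19 (nat_lit 0) (nat_lit 0) (nat_lit 0) (nat_lit 0x74e6e15d4) (nat_lit 716955412),
  Rx.mk (nat_lit 147) (nat_lit 3) (nat_lit 2) (nat_lit 2) (nat_lit 7) (nat_lit 6) (nat_lit 16) r0_6 r0_16 (nat_lit 0) (nat_lit 0) (nat_lit 0) (nat_lit 0x7fe5259ba) (nat_lit 538574762),
  Rx.mk (nat_lit 178) (nat_lit 2) (nat_lit 6) (nat_lit 2) (nat_lit 7) (nat_lit 2) (nat_lit 18) r0_2 r0_18 (nat_lit 0) (nat_lit 0) (nat_lit 0) (nat_lit 0x7e64f42d8) (nat_lit 563774762),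
  Rx.mk (nat_lit 195) (nat_lit 3) (nat_lit 0) (nat_lit 3) (nat_lit 5) (nat_lit 7) (nat_lit 13) r0_7 r0_13 (nat_lit 0) (nat_lit 22473) (nat_lit 0) (nat_lit 0x842299b94) (nat_lit 473842535),
  Rx.mk (nat_lit 211) (nat_lit 3) (nat_lit 2) (nat_lit 3) (nat_lit 7) (nat_lit 8) (nat_lit 15) r0_8 r0_15 (nat_lit 0) (nat_lit 0) (nat_lit 0) (nat_lit 0x7d18c92ba) (nat_lit 584629662),
  Rx.mk (nat_lit 219) (nat_lit 3) (nat_lit 3) (nat_lit 3) (nat_lit 7) (nat_lit 9) (nat_lit 14) r0_9 r0_14 (nat_lit 0) (nat_lit 0) (nat_lit 0) (nat_lit 0x7d7548f40) (nat_lit 578841012),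
  Rx.mk (nat_lit 223) (nat_lit 7) (nat_lit 3) (nat_lit 3) (nat_lit 7) (nat_lit 17) (nat_lit 3) r0_17 r0_3 (nat_lit 0) (nat_lit 0) (nat_lit 0) (nat_lit 0x7e8dbb8b0) (nat_lit 561242362),
  Rx.mk (nat_lit 294) (nat_lit 6) (nat_lit 4) (nat_lit 4) (nat_lit 1) (nat_lit 11) (nat_lit 4) r0_11 r0_4 (nat_lit 0) (nat_lit 5108) (nat_lit 6426) (nat_lit 0x7ff90f05c) (nat_lit 537322946),
  Rx.mk (nat_lit 318) (nat_lit 6) (nat_lit 7) (nat_lit 4) (nat_lit 3) (nat_lit 12) (nat_lit 5) r0_12 r0_5 (nat_lit 0) (nat_lit 0) (nat_lit 11895286) (nat_lit 0x6f9864d16) (nat_lit 814611698),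
  Rx.mk (nat_lit 422) (nat_lit 6) (nat_lit 4) (nat_lit 6) (nat_lit 5) (nat_lit 13) (nat_lit 7) r0_13 r0_7 (nat_lit 0) (nat_lit 22473) (nat_lit 0) (nat_lit 0x842299b94) (nat_lit 473842535),
  Rx.mk (nat_lit 434) (nat_lit 2) (nat_lit 6) (nat_lit 6) (nat_lit 7) (nat_lit 3) (nat_lit 17) r0_3 r0_17 (nat_lit 0) (nat_lit 0) (nat_lit 0) (nat_lit 0x7e8dbb8b0) (nat_lit 561242362),
  Rx.mk (nat_lit 438) (nat_lit 6) (nat_lit 6) (nat_lit 6) (nat_lit 7) (nat_lit 14) (nat_lit 9) r0_14 r0_9 (nat_lit 0) (nat_lit 0) (nat_lit 0) (nat_lit 0x7d7548f40) (nat_lit 578841012),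
  Rx.mk (nat_lit 446) (nat_lit 6) (nat_lit 7) (nat_lit 6) (nat_lit 7) (nat_lit 15) (nat_lit 8) r0_15 r0_8 (nat_lit 0) (nat_lit 0) (nat_lit 0) (nat_lit 0x7d18c92ba) (nat_lit 584629662),
  Rx.mk (nat_lit 479) (nat_lit 7) (nat_lit 3) (nat_lit 7) (nat_lit 7) (nat_lit 18) (nat_lit 2) r0_18 r0_2 (nat_lit 0) (nat_lit 0) (nat_lit 0) (nat_lit 0x7e64f42d8) (nat_lit 563774762),
  Rx.mk (nat_lit 508) (nat_lit 4) (nat_lit 7) (nat_lit 7) (nat_lit 6) (nat_lit 10) (nat_lit 0) r0_10 r0_0 (nat_lit 80316) (nat_lit 0) (nat_lit 0) (nat_lit 0x5509d2c2a) (nat_lit 1231694478),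
  Rx.mk (nat_lit 510) (nat_lit 6) (nat_lit 7) (nat_lit 7) (nat_lit 7) (nat_lit 16) (nat_lit 6) r0_16 r0_6 (nat_lit 0) (nat_lit 0) (nat_lit 0) (nat_lit 0x7fe5259ba) (nat_lit 538574762),
  Rx.mk (nat_lit 511) (nat_lit 7) (nat_lit 7) (nat_lit 7) (nat_lit 7) (nat_lit 19) (nat_lit 1) r0_19 r0_1 (nat_lit 0) (nat_lit 0) (nat_lit 0) (nat_lit 0x74e6e15d4) (nat_lit 716955412)]
noncomputable def e37_38 : List Rx := [
  Rx.mk (nat_lit 3) (nat_lit 3) (nat_lit 0) (nat_lit 0) (nat_lit 1) (nat_lit 94) (nat_lit 91) r0_94 r0_91 (nat_lit 0) (nat_lit 13764543) (nat_lit 319672734) (nat_lit 0x6b0dbb5b0) (nat_lit 1209624489),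
  Rx.mk (nat_lit 16) (nat_lit 0) (nat_lit 2) (nat_lit 0) (nat_lit 2) (nat_lit 91) (nat_lit 94) r0_91 r0_94 (nat_lit 13764543) (nat_lit 0) (nat_lit 319672734) (nat_lit 0x6b0dbb5b0) (nat_lit 1209624489),
  Rx.mk (nat_lit 19) (nat_lit 3) (nat_lit 2) (nat_lit 0) (nat_lit 3) (nat_lit 95) (nat_lit 95) r0_95 r0_95 (nat_lit 0) (nat_lit 0) (nat_lit 160205457) (nat_lit 0x7ec91cf3a) (nat_lit 717699119),
  Rx.mk (nat_lit 144) (nat_lit 0) (nat_lit 2) (nat_lit 2) (nat_lit 6) (nat_lit 92) (nat_lit 97) r0_92 r0_97 (nat_lit 32418381) (nat_lit 0) (nat_lit 0) (nat_lit 0x72161d882) (nat_lit 795028793),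
  Rx.mk (nat_lit 146) (nat_lit 2) (nat_lit 2) (nat_lit 2) (nat_lit 7) (nat_lit 93) (nat_lit 99) r0_93 r0_99 (nat_lit 0) (nat_lit 0) (nat_lit 0) (nat_lit 0x7fe1fc96e) (nat_lit 540154912),
  Rx.mk (nat_lit 147) (nat_lit 3) (nat_lit 2) (nat_lit 2) (nat_lit 7) (nat_lit 96) (nat_lit 98) r0_96 r0_98 (nat_lit 0) (nat_lit 0) (nat_lit 0) (nat_lit 0x7f9c9f8d0) (nat_lit 544444712),
  Rx.mk (nat_lit 195) (nat_lit 3) (nat_lit 0) (nat_lit 3) (nat_lit 5) (nat_lit 97) (nat_lit 92) r0_97 r0_92 (nat_lit 0) (nat_lit 32418381) (nat_lit 0) (nat_lit 0x72161d882) (nat_lit 795028793),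
  Rx.mk (nat_lit 211) (nat_lit 3) (nat_lit 2) (nat_lit 3) (nat_lit 7) (nat_lit 98) (nat_lit 96) r0_98 r0_96 (nat_lit 0) (nat_lit 0) (nat_lit 0) (nat_lit 0x7f9c9f8d0) (nat_lit 544444712),
  Rx.mk (nat_lit 219) (nat_lit 3) (nat_lit 3) (nat_lit 3) (nat_lit 7) (nat_lit 99) (nat_lit 93) r0_99 r0_93 (nat_lit 0) (nat_lit 0) (nat_lit 0) (nat_lit 0x7fe1fc96e) (nat_lit 540154912)]
noncomputable def e37_39 : List Rx := [
  Rx.mk (nat_lit 3) (nat_lit 3) (nat_lit 0) (nat_lit 0) (nat_lit 1) (nat_lit 105) (nat_lit 2) r0_105 r7_2 (nat_lit 0) (nat_lit 4536926) (nat_lit 9373510) (nat_lit 0x680227486) (nat_lit 939230248),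
  Rx.mk (nat_lit 16) (nat_lit 0) (nat_lit 2) (nat_lit 0) (nat_lit 2) (nat_lit 100) (nat_lit 0) r0_100 r7_0 (nat_lit 31904360) (nat_lit 0) (nat_lit 46745449) (nat_lit 0x5c2702b54) (nat_lit 1195869321),
  Rx.mk (nat_lit 19) (nat_lit 3) (nat_lit 2) (nat_lit 0) (nat_lit 3) (nat_lit 106) (nat_lit 3) r0_106 r7_3 (nat_lit 0) (nat_lit 0) (nat_lit 73862049) (nat_lit 0x7d468cf26) (nat_lit 655662261),
  Rx.mk (nat_lit 144) (nat_lit 0) (nat_lit 2) (nat_lit 2) (nat_lit 6) (nat_lit 101) (nat_lit 1) r0_101 r7_1 (nat_lit 15260325) (nat_lit 0) (nat_lit 0) (nat_lit 0x6e0d6284a) (nat_lit 843049387),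
  Rx.mk (nat_lit 146) (nat_lit 2) (nat_lit 2) (nat_lit 2) (nat_lit 7) (nat_lit 102) (nat_lit 10) r0_102 r7_10 (nat_lit 0) (nat_lit 0) (nat_lit 0) (nat_lit 0x7dc623460) (nat_lit 573811562),
  Rx.mk (nat_lit 147) (nat_lit 3) (nat_lit 2) (nat_lit 2) (nat_lit 7) (nat_lit 107) (nat_lit 7) r0_107 r7_7 (nat_lit 0) (nat_lit 0) (nat_lit 0) (nat_lit 0x7fdfab7e6) (nat_lit 540283862),
  Rx.mk (nat_lit 178) (nat_lit 2) (nat_lit 6) (nat_lit 2) (nat_lit 7) (nat_lit 103) (nat_lit 9) r0_103 r7_9 (nat_lit 0) (nat_lit 0) (nat_lit 0) (nat_lit 0x8017985b4) (nat_lit 536870912),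
  Rx.mk (nat_lit 195) (nat_lit 3) (nat_lit 0) (nat_lit 3) (nat_lit 5) (nat_lit 108) (nat_lit 4) r0_108 r7_4 (nat_lit 0) (nat_lit 24727622) (nat_lit 0) (nat_lit 0x7be4cbc66) (nat_lit 628839434),
  Rx.mk (nat_lit 211) (nat_lit 3) (nat_lit 2) (nat_lit 3) (nat_lit 7) (nat_lit 109) (nat_lit 6) r0_109 r7_6 (nat_lit 0) (nat_lit 0) (nat_lit 0) (nat_lit 0x7ff31a048) (nat_lit 539113112),
  Rx.mk (nat_lit 219) (nat_lit 3) (nat_lit 3) (nat_lit 3) (nat_lit 7) (nat_lit 110) (nat_lit 5) r0_110 r7_5 (nat_lit 0) (nat_lit 0) (nat_lit 0) (nat_lit 0x8017985b4) (nat_lit 536870912),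
  Rx.mk (nat_lit 434) (nat_lit 2) (nat_lit 6) (nat_lit 6) (nat_lit 7) (nat_lit 104) (nat_lit 8) r0_104 r7_8 (nat_lit 0) (nat_lit 0) (nat_lit 0) (nat_lit 0x7ffe471c8) (nat_lit 538421712)]
noncomputable def e37_40 : List Rx := [
  Rx.mk (nat_lit 1) (nat_lit 1) (nat_lit 0) (nat_lit 0) (nat_lit 1) (nat_lit 254) (nat_lit 98) r0_254 r2_98 (nat_lit 0) (nat_lit 32319873) (nat_lit 169414750) (nat_lit 0x5d7f70754) (nat_lit 1297226585),
  Rx.mk (nat_lit 17) (nat_lit 1) (nat_lit 2) (nat_lit 0) (nat_lit 3) (nat_lit 255) (nat_lit 99) r0_255 r2_99 (nat_lit 0) (nat_lit 0) (nat_lit 31094968) (nat_lit 0x7d34113e2) (nat_lit 614066280),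
  Rx.mk (nat_lit 145) (nat_lit 1) (nat_lit 2) (nat_lit 2) (nat_lit 7) (nat_lit 256) (nat_lit 100) r0_256 r2_100 (nat_lit 0) (nat_lit 0) (nat_lit 0) (nat_lit 0x8017985b4) (nat_lit 536870912)]
noncomputable def e37_41 : List Rx := [
  Rx.mk (nat_lit 1) (nat_lit 1) (nat_lit 0) (nat_lit 0) (nat_lit 1) (nat_lit 262) (nat_lit 65) r0_262 r9_65 (nat_lit 0) (nat_lit 35271211) (nat_lit 111519439) (nat_lit 0x580e92528) (nat_lit 1330276712),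
  Rx.mk (nat_lit 17) (nat_lit 1) (nat_lit 2) (nat_lit 0) (nat_lit 3) (nat_lit 263) (nat_lit 66) r0_263 r9_66 (nat_lit 0) (nat_lit 0) (nat_lit 42181634) (nat_lit 0x7bc61b1a4) (nat_lit 648220246),
  Rx.mk (nat_lit 145) (nat_lit 1) (nat_lit 2) (nat_lit 2) (nat_lit 7) (nat_lit 264) (nat_lit 67) r0_264 r9_67 (nat_lit 0) (nat_lit 0) (nat_lit 0) (nat_lit 0x7fcef5a96) (nat_lit 541322112)]
noncomputable def e37_42 : List Rx := [
  Rx.mk (nat_lit 1) (nat_lit 1) (nat_lit 0) (nat_lit 0) (nat_lit 1) (nat_lit 257) (nat_lit 155) r0_257 r9_155 (nat_lit 0) (nat_lit 49590700) (nat_lit 41159980) (nat_lit 0x50d4cab80) (nat_lit 1391082492),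
  Rx.mk (nat_lit 17) (nat_lit 1) (nat_lit 2) (nat_lit 0) (nat_lit 3) (nat_lit 258) (nat_lit 156) r0_258 r9_156 (nat_lit 0) (nat_lit 0) (nat_lit 30127539) (nat_lit 0x7a85fc8e4) (nat_lit 656361051),
  Rx.mk (nat_lit 65) (nat_lit 1) (nat_lit 0) (nat_lit 1) (nat_lit 5) (nat_lit 259) (nat_lit 157) r0_259 r9_157 (nat_lit 0) (nat_lit 28301978) (nat_lit 0) (nat_lit 0x71f06598c) (nat_lit 793284240),
  Rx.mk (nat_lit 81) (nat_lit 1) (nat_lit 2) (nat_lit 1) (nat_lit 7) (nat_lit 260) (nat_lit 158) r0_260 r9_158 (nat_lit 0) (nat_lit 0) (nat_lit 0) (nat_lit 0x7fffa9a3e) (nat_lit 538336962),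
  Rx.mk (nat_lit 145) (nat_lit 1) (nat_lit 2) (nat_lit 2) (nat_lit 7) (nat_lit 261) (nat_lit 159) r0_261 r9_159 (nat_lit 0) (nat_lit 0) (nat_lit 0) (nat_lit 0x800dc4ccc) (nat_lit 537471612)]
noncomputable def e37_43 : List Rx := [
  Rx.mk (nat_lit 0) (nat_lit 0) (nat_lit 0) (nat_lit 0) (nat_lit 0) (nat_lit 111) (nat_lit 94) r0_111 r1_94 (nat_lit 15478) (nat_lit 15924) (nat_lit 704331784) (nat_lit 0x7ffceaa5a) (nat_lit 1241434748),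
  Rx.mk (nat_lit 1) (nat_lit 1) (nat_lit 0) (nat_lit 0) (nat_lit 1) (nat_lit 114) (nat_lit 95) r0_114 r1_95 (nat_lit 0) (nat_lit 17923102) (nat_lit 301314432) (nat_lit 0x7b08f77e4) (nat_lit 937110096),
  Rx.mk (nat_lit 3) (nat_lit 3) (nat_lit 0) (nat_lit 0) (nat_lit 1) (nat_lit 118) (nat_lit 96) r0_118 r1_96 (nat_lit 0) (nat_lit 49509170) (nat_lit 236637976) (nat_lit 0x7c1ee06fe) (nat_lit 886572308),
  Rx.mk (nat_lit 16) (nat_lit 0) (nat_lit 2) (nat_lit 0) (nat_lit 2) (nat_lit 112) (nat_lit 99) r0_112 r1_99 (nat_lit 15900944) (nat_lit 0) (nat_lit 330891680) (nat_lit 0x77bef9212) (nat_lit 1017846086),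
  Rx.mk (nat_lit 17) (nat_lit 1) (nat_lit 2) (nat_lit 0) (nat_lit 3) (nat_lit 115) (nat_lit 100) r0_115 r1_100 (nat_lit 0) (nat_lit 0) (nat_lit 40000838) (nat_lit 0x7f4fca046) (nat_lit 589164150),
  Rx.mk (nat_lit 19) (nat_lit 3) (nat_lit 2) (nat_lit 0) (nat_lit 3) (nat_lit 119) (nat_lit 101) r0_119 r1_101 (nat_lit 0) (nat_lit 0) (nat_lit 43159532) (nat_lit 0x7fa01c38c) (nat_lit 587329944),
  Rx.mk (nat_lit 144) (nat_lit 0) (nat_lit 2) (nat_lit 2) (nat_lit 6) (nat_lit 113) (nat_lit 103) r0_113 r1_103 (nat_lit 24548730) (nat_lit 0) (nat_lit 0) (nat_lit 0x78780d94c) (nat_lit 683979642),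
  Rx.mk (nat_lit 145) (nat_lit 1) (nat_lit 2) (nat_lit 2) (nat_lit 7) (nat_lit 116) (nat_lit 104) r0_116 r1_104 (nat_lit 0) (nat_lit 0) (nat_lit 0) (nat_lit 0x8008586c6) (nat_lit 537803512),
  Rx.mk (nat_lit 146) (nat_lit 2) (nat_lit 2) (nat_lit 2) (nat_lit 7) (nat_lit 117) (nat_lit 106) r0_117 r1_106 (nat_lit 0) (nat_lit 0) (nat_lit 0) (nat_lit 0x8008e1958) (nat_lit 537770662),
  Rx.mk (nat_lit 147) (nat_lit 3) (nat_lit 2) (nat_lit 2) (nat_lit 7) (nat_lit 120) (nat_lit 105) r0_120 r1_105 (nat_lit 0) (nat_lit 0) (nat_lit 0) (nat_lit 0x8017985b4) (nat_lit 536870912),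
  Rx.mk (nat_lit 195) (nat_lit 3) (nat_lit 0) (nat_lit 3) (nat_lit 5) (nat_lit 121) (nat_lit 97) r0_121 r1_97 (nat_lit 0) (nat_lit 26465750) (nat_lit 0) (nat_lit 0x7f8d66de6) (nat_lit 571814812),
  Rx.mk (nat_lit 211) (nat_lit 3) (nat_lit 2) (nat_lit 3) (nat_lit 7) (nat_lit 122) (nat_lit 102) r0_122 r1_102 (nat_lit 0) (nat_lit 0) (nat_lit 0) (nat_lit 0x8017985b4) (nat_lit 536870912),
  Rx.mk (nat_lit 219) (nat_lit 3) (nat_lit 3) (nat_lit 3) (nat_lit 7) (nat_lit 123) (nat_lit 98) r0_123 r1_98 (nat_lit 0) (nat_lit 0) (nat_lit 0) (nat_lit 0x8017985b4) (nat_lit 536870912)]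
noncomputable def e37_44 : List Rx := [
  Rx.mk (nat_lit 0) (nat_lit 0) (nat_lit 0) (nat_lit 0) (nat_lit 0) (nat_lit 124) (nat_lit 0) r0_124 r8_0 (nat_lit 7939868) (nat_lit 11031913) (nat_lit 37018604) (nat_lit 0x2f3402ffc) (nat_lit 1899960047),
  Rx.mk (nat_lit 1) (nat_lit 1) (nat_lit 0) (nat_lit 0) (nat_lit 1) (nat_lit 127) (nat_lit 3) r0_127 r8_3 (nat_lit 0) (nat_lit 32206150) (nat_lit 82416712) (nat_lit 0x66c0ffdc4) (nat_lit 1060452374),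
  Rx.mk (nat_lit 3) (nat_lit 3) (nat_lit 0) (nat_lit 0) (nat_lit 1) (nat_lit 133) (nat_lit 6) r0_133 r8_6 (nat_lit 0) (nat_lit 35479035) (nat_lit 54286075) (nat_lit 0x62e45b6c8) (nat_lit 1098022322),
  Rx.mk (nat_lit 16) (nat_lit 0) (nat_lit 2) (nat_lit 0) (nat_lit 2) (nat_lit 125) (nat_lit 1) r0_125 r8_1 (nat_lit 26421063) (nat_lit 0) (nat_lit 43759254) (nat_lit 0x5ccc534e6) (nat_lit 1176984379),
  Rx.mk (nat_lit 17) (nat_lit 1) (nat_lit 2) (nat_lit 0) (nat_lit 3) (nat_lit 128) (nat_lit 4) r0_128 r8_4 (nat_lit 0) (nat_lit 0) (nat_lit 28052384) (nat_lit 0x7ecc55e04) (nat_lit 585422396),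
  Rx.mk (nat_lit 19) (nat_lit 3) (nat_lit 2) (nat_lit 0) (nat_lit 3) (nat_lit 134) (nat_lit 7) r0_134 r8_7 (nat_lit 0) (nat_lit 0) (nat_lit 28597756) (nat_lit 0x7fab4f40c) (nat_lit 572118568),
  Rx.mk (nat_lit 144) (nat_lit 0) (nat_lit 2) (nat_lit 2) (nat_lit 6) (nat_lit 126) (nat_lit 2) r0_126 r8_2 (nat_lit 19040660) (nat_lit 0) (nat_lit 0) (nat_lit 0x6f984888c) (nat_lit 821904322),
  Rx.mk (nat_lit 145) (nat_lit 1) (nat_lit 2) (nat_lit 2) (nat_lit 7) (nat_lit 129) (nat_lit 5) r0_129 r8_5 (nat_lit 0) (nat_lit 0) (nat_lit 0) (nat_lit 0x7feae9d88) (nat_lit 539601062),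
  Rx.mk (nat_lit 146) (nat_lit 2) (nat_lit 2) (nat_lit 2) (nat_lit 7) (nat_lit 130) (nat_lit 14) r0_130 r8_14 (nat_lit 0) (nat_lit 0) (nat_lit 0) (nat_lit 0x7fa4b61a4) (nat_lit 543932912),
  Rx.mk (nat_lit 147) (nat_lit 3) (nat_lit 2) (nat_lit 2) (nat_lit 7) (nat_lit 135) (nat_lit 11) r0_135 r8_11 (nat_lit 0) (nat_lit 0) (nat_lit 0) (nat_lit 0x7ffc6e694) (nat_lit 538526762),
  Rx.mk (nat_lit 178) (nat_lit 2) (nat_lit 6) (nat_lit 2) (nat_lit 7) (nat_lit 131) (nat_lit 13) r0_131 r8_13 (nat_lit 0) (nat_lit 0) (nat_lit 0) (nat_lit 0x8017985b4) (nat_lit 536870912),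
  Rx.mk (nat_lit 195) (nat_lit 3) (nat_lit 0) (nat_lit 3) (nat_lit 5) (nat_lit 136) (nat_lit 8) r0_136 r8_8 (nat_lit 0) (nat_lit 31117367) (nat_lit 0) (nat_lit 0x7e047cca2) (nat_lit 600994729),
  Rx.mk (nat_lit 211) (nat_lit 3) (nat_lit 2) (nat_lit 3) (nat_lit 7) (nat_lit 137) (nat_lit 10) r0_137 r8_10 (nat_lit 0) (nat_lit 0) (nat_lit 0) (nat_lit 0x8017985b4) (nat_lit 536870912),
  Rx.mk (nat_lit 219) (nat_lit 3) (nat_lit 3) (nat_lit 3) (nat_lit 7) (nat_lit 138) (nat_lit 9) r0_138 r8_9 (nat_lit 0) (nat_lit 0) (nat_lit 0) (nat_lit 0x8017985b4) (nat_lit 536870912),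
  Rx.mk (nat_lit 434) (nat_lit 2) (nat_lit 6) (nat_lit 6) (nat_lit 7) (nat_lit 132) (nat_lit 12) r0_132 r8_12 (nat_lit 0) (nat_lit 0) (nat_lit 0) (nat_lit 0x8017985b4) (nat_lit 536870912)]
noncomputable def e37_45 : List Rx := [
  Rx.mk (nat_lit 178) (nat_lit 2) (nat_lit 6) (nat_lit 2) (nat_lit 7) (nat_lit 20) (nat_lit 9) r0_20 r1_9 (nat_lit 0) (nat_lit 0) (nat_lit 0) (nat_lit 0x802da032a) (nat_lit 535514012),
  Rx.mk (nat_lit 294) (nat_lit 6) (nat_lit 4) (nat_lit 4) (nat_lit 1) (nat_lit 23) (nat_lit 2) r0_23 r1_2 (nat_lit 0) (nat_lit 3151689) (nat_lit 5604383) (nat_lit 0x6d7564e26) (nat_lit 845928484),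
  Rx.mk (nat_lit 318) (nat_lit 6) (nat_lit 7) (nat_lit 4) (nat_lit 3) (nat_lit 24) (nat_lit 3) r0_24 r1_3 (nat_lit 0) (nat_lit 0) (nat_lit 22794505) (nat_lit 0x7f395dd58) (nat_lit 573339467),
  Rx.mk (nat_lit 422) (nat_lit 6) (nat_lit 4) (nat_lit 6) (nat_lit 5) (nat_lit 25) (nat_lit 5) r0_25 r1_5 (nat_lit 0) (nat_lit 8756247) (nat_lit 0) (nat_lit 0x7bbb71c80) (nat_lit 615374609),
  Rx.mk (nat_lit 434) (nat_lit 2) (nat_lit 6) (nat_lit 6) (nat_lit 7) (nat_lit 21) (nat_lit 8) r0_21 r1_8 (nat_lit 0) (nat_lit 0) (nat_lit 0) (nat_lit 0x807414446) (nat_lit 531187112),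
  Rx.mk (nat_lit 438) (nat_lit 6) (nat_lit 6) (nat_lit 6) (nat_lit 7) (nat_lit 26) (nat_lit 7) r0_26 r1_7 (nat_lit 0) (nat_lit 0) (nat_lit 0) (nat_lit 0x801bfa5bc) (nat_lit 536589212),
  Rx.mk (nat_lit 446) (nat_lit 6) (nat_lit 7) (nat_lit 6) (nat_lit 7) (nat_lit 27) (nat_lit 6) r0_27 r1_6 (nat_lit 0) (nat_lit 0) (nat_lit 0) (nat_lit 0x80362d196) (nat_lit 534989612),
  Rx.mk (nat_lit 508) (nat_lit 4) (nat_lit 7) (nat_lit 7) (nat_lit 6) (nat_lit 22) (nat_lit 0) r0_22 r1_0 (nat_lit 23596477) (nat_lit 0) (nat_lit 0) (nat_lit 0x69c6e3bc0) (nat_lit 920472039),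
  Rx.mk (nat_lit 510) (nat_lit 6) (nat_lit 7) (nat_lit 7) (nat_lit 7) (nat_lit 28) (nat_lit 4) r0_28 r1_4 (nat_lit 0) (nat_lit 0) (nat_lit 0) (nat_lit 0x87136526a) (nat_lit 429577662),
  Rx.mk (nat_lit 511) (nat_lit 7) (nat_lit 7) (nat_lit 7) (nat_lit 7) (nat_lit 29) (nat_lit 1) r0_29 r1_1 (nat_lit 0) (nat_lit 0) (nat_lit 0) (nat_lit 0x807eeb3e2) (nat_lit 530392612)]
noncomputable def e37_46 : List Rx := [
  Rx.mk (nat_lit 294) (nat_lit 6) (nat_lit 4) (nat_lit 4) (nat_lit 1) (nat_lit 34) (nat_lit 4) r0_34 r2_4 (nat_lit 0) (nat_lit 4998249) (nat_lit 13136814) (nat_lit 0x5b905ca06) (nat_lit 1144741775),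
  Rx.mk (nat_lit 302) (nat_lit 6) (nat_lit 5) (nat_lit 4) (nat_lit 3) (nat_lit 35) (nat_lit 5) r0_35 r2_5 (nat_lit 0) (nat_lit 0) (nat_lit 28341495) (nat_lit 0x7c3b84864) (nat_lit 626988107),
  Rx.mk (nat_lit 422) (nat_lit 6) (nat_lit 4) (nat_lit 6) (nat_lit 5) (nat_lit 36) (nat_lit 9) r0_36 r2_9 (nat_lit 0) (nat_lit 21507758) (nat_lit 0) (nat_lit 0x7d43469ac) (nat_lit 603533220),
  Rx.mk (nat_lit 430) (nat_lit 6) (nat_lit 5) (nat_lit 6) (nat_lit 7) (nat_lit 37) (nat_lit 10) r0_37 r2_10 (nat_lit 0) (nat_lit 0) (nat_lit 0) (nat_lit 0x8017985b4) (nat_lit 536870912),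
  Rx.mk (nat_lit 434) (nat_lit 2) (nat_lit 6) (nat_lit 6) (nat_lit 7) (nat_lit 30) (nat_lit 12) r0_30 r2_12 (nat_lit 0) (nat_lit 0) (nat_lit 0) (nat_lit 0x7ff838a16) (nat_lit 538790162),
  Rx.mk (nat_lit 438) (nat_lit 6) (nat_lit 6) (nat_lit 6) (nat_lit 7) (nat_lit 38) (nat_lit 11) r0_38 r2_11 (nat_lit 0) (nat_lit 0) (nat_lit 0) (nat_lit 0x7ffabadac) (nat_lit 538636162),
  Rx.mk (nat_lit 484) (nat_lit 4) (nat_lit 4) (nat_lit 7) (nat_lit 4) (nat_lit 31) (nat_lit 0) r0_31 r2_0 (nat_lit 6423183) (nat_lit 5596514) (nat_lit 0) (nat_lit 0x5ddaed8d4) (nat_lit 1101594159),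
  Rx.mk (nat_lit 486) (nat_lit 6) (nat_lit 4) (nat_lit 7) (nat_lit 5) (nat_lit 39) (nat_lit 6) r0_39 r2_6 (nat_lit 0) (nat_lit 5674149) (nat_lit 0) (nat_lit 0x7eaf25780) (nat_lit 564630711),
  Rx.mk (nat_lit 492) (nat_lit 4) (nat_lit 5) (nat_lit 7) (nat_lit 6) (nat_lit 32) (nat_lit 1) r0_32 r2_1 (nat_lit 15050003) (nat_lit 0) (nat_lit 0) (nat_lit 0x808182fe2) (nat_lit 545392665),
  Rx.mk (nat_lit 494) (nat_lit 6) (nat_lit 5) (nat_lit 7) (nat_lit 7) (nat_lit 40) (nat_lit 7) r0_40 r2_7 (nat_lit 0) (nat_lit 0) (nat_lit 0) (nat_lit 0x816b1f196) (nat_lit 516210712),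
  Rx.mk (nat_lit 508) (nat_lit 4) (nat_lit 7) (nat_lit 7) (nat_lit 6) (nat_lit 33) (nat_lit 2) r0_33 r2_2 (nat_lit 26786742) (nat_lit 0) (nat_lit 0) (nat_lit 0x7e49fc304) (nat_lit 592261154),
  Rx.mk (nat_lit 510) (nat_lit 6) (nat_lit 7) (nat_lit 7) (nat_lit 7) (nat_lit 41) (nat_lit 8) r0_41 r2_8 (nat_lit 0) (nat_lit 0) (nat_lit 0) (nat_lit 0x81560cc68) (nat_lit 517481712),
  Rx.mk (nat_lit 511) (nat_lit 7) (nat_lit 7) (nat_lit 7) (nat_lit 7) (nat_lit 42) (nat_lit 3) r0_42 r2_3 (nat_lit 0) (nat_lit 0) (nat_lit 0) (nat_lit 0x8017985b4) (nat_lit 536870912)]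
noncomputable def e37_47 : List Rx := [
  Rx.mk (nat_lit 178) (nat_lit 2) (nat_lit 6) (nat_lit 2) (nat_lit 7) (nat_lit 139) (nat_lit 76) r0_139 r8_76 (nat_lit 0) (nat_lit 0) (nat_lit 0) (nat_lit 0x8017985b4) (nat_lit 536870912),
  Rx.mk (nat_lit 434) (nat_lit 2) (nat_lit 6) (nat_lit 6) (nat_lit 7) (nat_lit 140) (nat_lit 77) r0_140 r8_77 (nat_lit 0) (nat_lit 0) (nat_lit 0) (nat_lit 0x8017985b4) (nat_lit 536870912)]
noncomputable def e37_48 : List Rx := [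
  Rx.mk (nat_lit 434) (nat_lit 2) (nat_lit 6) (nat_lit 6) (nat_lit 7) (nat_lit 141) (nat_lit 0) r0_141 r9_0 (nat_lit 0) (nat_lit 0) (nat_lit 0) (nat_lit 0x7fe34c40e) (nat_lit 540076362)]
noncomputable def e37_49 : List Rx := [
  Rx.mk (nat_lit 292) (nat_lit 4) (nat_lit 4) (nat_lit 4) (nat_lit 0) (nat_lit 155) (nat_lit 23) r0_155 r9_23 (nat_lit 20103060) (nat_lit 11766479) (nat_lit 17383342) (nat_lit 0x26bb582ee) (nat_lit 2030296093),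
  Rx.mk (nat_lit 294) (nat_lit 6) (nat_lit 4) (nat_lit 4) (nat_lit 1) (nat_lit 161) (nat_lit 25) r0_161 r9_25 (nat_lit 0) (nat_lit 15320849) (nat_lit 15232789) (nat_lit 0x58679699e) (nat_lit 1208372050),
  Rx.mk (nat_lit 300) (nat_lit 4) (nat_lit 5) (nat_lit 4) (nat_lit 2) (nat_lit 156) (nat_lit 24) r0_156 r9_24 (nat_lit 21454755) (nat_lit 0) (nat_lit 21246965) (nat_lit 0x536054f6e) (nat_lit 1301860482),
  Rx.mk (nat_lit 302) (nat_lit 6) (nat_lit 5) (nat_lit 4) (nat_lit 3) (nat_lit 162) (nat_lit 26) r0_162 r9_26 (nat_lit 0) (nat_lit 0) (nat_lit 24075478) (nat_lit 0x769019b32) (nat_lit 714298390),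
  Rx.mk (nat_lit 364) (nat_lit 4) (nat_lit 5) (nat_lit 5) (nat_lit 6) (nat_lit 157) (nat_lit 27) r0_157 r9_27 (nat_lit 27681734) (nat_lit 0) (nat_lit 0) (nat_lit 0x7735d76f0) (nat_lit 707450746),
  Rx.mk (nat_lit 366) (nat_lit 6) (nat_lit 5) (nat_lit 5) (nat_lit 7) (nat_lit 163) (nat_lit 28) r0_163 r9_28 (nat_lit 0) (nat_lit 0) (nat_lit 0) (nat_lit 0x7feb1ffb4) (nat_lit 539592162),
  Rx.mk (nat_lit 422) (nat_lit 6) (nat_lit 4) (nat_lit 6) (nat_lit 5) (nat_lit 164) (nat_lit 37) r0_164 r9_37 (nat_lit 0) (nat_lit 24266921) (nat_lit 0) (nat_lit 0x771d50316) (nat_lit 705582633),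
  Rx.mk (nat_lit 430) (nat_lit 6) (nat_lit 5) (nat_lit 6) (nat_lit 7) (nat_lit 165) (nat_lit 38) r0_165 r9_38 (nat_lit 0) (nat_lit 0) (nat_lit 0) (nat_lit 0x7fee77a72) (nat_lit 539388362),
  Rx.mk (nat_lit 434) (nat_lit 2) (nat_lit 6) (nat_lit 6) (nat_lit 7) (nat_lit 154) (nat_lit 36) r0_154 r9_36 (nat_lit 0) (nat_lit 0) (nat_lit 0) (nat_lit 0x8017985b4) (nat_lit 536870912),
  Rx.mk (nat_lit 438) (nat_lit 6) (nat_lit 6) (nat_lit 6) (nat_lit 7) (nat_lit 166) (nat_lit 39) r0_166 r9_39 (nat_lit 0) (nat_lit 0) (nat_lit 0) (nat_lit 0x8002decd6) (nat_lit 538139162),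
  Rx.mk (nat_lit 484) (nat_lit 4) (nat_lit 4) (nat_lit 7) (nat_lit 4) (nat_lit 158) (nat_lit 29) r0_158 r9_29 (nat_lit 96643738) (nat_lit 19805728) (nat_lit 0) (nat_lit 0x57dc9e896) (nat_lit 1303076978),
  Rx.mk (nat_lit 486) (nat_lit 6) (nat_lit 4) (nat_lit 7) (nat_lit 5) (nat_lit 167) (nat_lit 33) r0_167 r9_33 (nat_lit 0) (nat_lit 23123952) (nat_lit 0) (nat_lit 0x800002f3a) (nat_lit 561432214),
  Rx.mk (nat_lit 492) (nat_lit 4) (nat_lit 5) (nat_lit 7) (nat_lit 6) (nat_lit 159) (nat_lit 30) r0_159 r9_30 (nat_lit 39103353) (nat_lit 0) (nat_lit 0) (nat_lit 0x7f0bc5f80) (nat_lit 592509415),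
  Rx.mk (nat_lit 494) (nat_lit 6) (nat_lit 5) (nat_lit 7) (nat_lit 7) (nat_lit 168) (nat_lit 34) r0_168 r9_34 (nat_lit 0) (nat_lit 0) (nat_lit 0) (nat_lit 0x8017985b4) (nat_lit 536870912),
  Rx.mk (nat_lit 508) (nat_lit 4) (nat_lit 7) (nat_lit 7) (nat_lit 6) (nat_lit 160) (nat_lit 31) r0_160 r9_31 (nat_lit 140602240) (nat_lit 0) (nat_lit 0) (nat_lit 0x7cdd650c0) (nat_lit 729034802),
  Rx.mk (nat_lit 510) (nat_lit 6) (nat_lit 7) (nat_lit 7) (nat_lit 7) (nat_lit 169) (nat_lit 35) r0_169 r9_35 (nat_lit 0) (nat_lit 0) (nat_lit 0) (nat_lit 0x8017985b4) (nat_lit 536870912),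
  Rx.mk (nat_lit 511) (nat_lit 7) (nat_lit 7) (nat_lit 7) (nat_lit 7) (nat_lit 170) (nat_lit 32) r0_170 r9_32 (nat_lit 0) (nat_lit 0) (nat_lit 0) (nat_lit 0x7fec37154) (nat_lit 539516912)]
noncomputable def e37_50 : List Rx := [
  Rx.mk (nat_lit 3) (nat_lit 3) (nat_lit 0) (nat_lit 0) (nat_lit 1) (nat_lit 43) (nat_lit 4) r0_43 r3_4 (nat_lit 0) (nat_lit 966) (nat_lit 2481) (nat_lit 0x82288f6ae) (nat_lit 503955459),
  Rx.mk (nat_lit 19) (nat_lit 3) (nat_lit 2) (nat_lit 0) (nat_lit 3) (nat_lit 44) (nat_lit 5) r0_44 r3_5 (nat_lit 0) (nat_lit 0) (nat_lit 7927509) (nat_lit 0x72604c6ec) (nat_lit 765358121),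
  Rx.mk (nat_lit 147) (nat_lit 3) (nat_lit 2) (nat_lit 2) (nat_lit 7) (nat_lit 45) (nat_lit 8) r0_45 r3_8 (nat_lit 0) (nat_lit 0) (nat_lit 0) (nat_lit 0x789a9bc84) (nat_lit 657134512),
  Rx.mk (nat_lit 195) (nat_lit 3) (nat_lit 0) (nat_lit 3) (nat_lit 5) (nat_lit 46) (nat_lit 6) r0_46 r3_6 (nat_lit 0) (nat_lit 1916670) (nat_lit 0) (nat_lit 0x7bfb383c8) (nat_lit 604200682),
  Rx.mk (nat_lit 199) (nat_lit 7) (nat_lit 0) (nat_lit 3) (nat_lit 5) (nat_lit 49) (nat_lit 2) r0_49 r3_2 (nat_lit 0) (nat_lit 12614) (nat_lit 0) (nat_lit 0x7ff74418c) (nat_lit 537440126),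
  Rx.mk (nat_lit 211) (nat_lit 3) (nat_lit 2) (nat_lit 3) (nat_lit 7) (nat_lit 47) (nat_lit 7) r0_47 r3_7 (nat_lit 0) (nat_lit 0) (nat_lit 0) (nat_lit 0x7c1fb6a38) (nat_lit 600372212),
  Rx.mk (nat_lit 223) (nat_lit 7) (nat_lit 3) (nat_lit 3) (nat_lit 7) (nat_lit 50) (nat_lit 3) r0_50 r3_3 (nat_lit 0) (nat_lit 0) (nat_lit 0) (nat_lit 0x803739724) (nat_lit 534831362),
  Rx.mk (nat_lit 476) (nat_lit 4) (nat_lit 3) (nat_lit 7) (nat_lit 6) (nat_lit 48) (nat_lit 0) r0_48 r3_0 (nat_lit 48839) (nat_lit 0) (nat_lit 0) (nat_lit 0x6e7903e32) (nat_lit 820364901),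
  Rx.mk (nat_lit 479) (nat_lit 7) (nat_lit 3) (nat_lit 7) (nat_lit 7) (nat_lit 51) (nat_lit 1) r0_51 r3_1 (nat_lit 0) (nat_lit 0) (nat_lit 0) (nat_lit 0x7f14b983a) (nat_lit 552804862)]
noncomputable def e37_51 : List Rx := [
  Rx.mk (nat_lit 3) (nat_lit 3) (nat_lit 0) (nat_lit 0) (nat_lit 1) (nat_lit 52) (nat_lit 8) r0_52 r4_8 (nat_lit 0) (nat_lit 6694296) (nat_lit 22112455) (nat_lit 0x63f406554) (nat_lit 1019765813),
  Rx.mk (nat_lit 19) (nat_lit 3) (nat_lit 2) (nat_lit 0) (nat_lit 3) (nat_lit 53) (nat_lit 9) r0_53 r4_9 (nat_lit 0) (nat_lit 0) (nat_lit 74749020) (nat_lit 0x751698fde) (nat_lit 788742832),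
  Rx.mk (nat_lit 147) (nat_lit 3) (nat_lit 2) (nat_lit 2) (nat_lit 7) (nat_lit 54) (nat_lit 12) r0_54 r4_12 (nat_lit 0) (nat_lit 0) (nat_lit 0) (nat_lit 0x76aa13858) (nat_lit 688374962),
  Rx.mk (nat_lit 195) (nat_lit 3) (nat_lit 0) (nat_lit 3) (nat_lit 5) (nat_lit 55) (nat_lit 10) r0_55 r4_10 (nat_lit 0) (nat_lit 12464414) (nat_lit 0) (nat_lit 0x7d1fc1338) (nat_lit 596680676),
  Rx.mk (nat_lit 199) (nat_lit 7) (nat_lit 0) (nat_lit 3) (nat_lit 5) (nat_lit 62) (nat_lit 3) r0_62 r4_3 (nat_lit 0) (nat_lit 11579015) (nat_lit 0) (nat_lit 0x7fd79e04e) (nat_lit 552249627),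
  Rx.mk (nat_lit 211) (nat_lit 3) (nat_lit 2) (nat_lit 3) (nat_lit 7) (nat_lit 56) (nat_lit 11) r0_56 r4_11 (nat_lit 0) (nat_lit 0) (nat_lit 0) (nat_lit 0x8071443a6) (nat_lit 531356412),
  Rx.mk (nat_lit 223) (nat_lit 7) (nat_lit 3) (nat_lit 3) (nat_lit 7) (nat_lit 63) (nat_lit 4) r0_63 r4_4 (nat_lit 0) (nat_lit 0) (nat_lit 0) (nat_lit 0x804ed3af6) (nat_lit 533452762),
  Rx.mk (nat_lit 318) (nat_lit 6) (nat_lit 7) (nat_lit 4) (nat_lit 3) (nat_lit 59) (nat_lit 5) r0_59 r4_5 (nat_lit 0) (nat_lit 0) (nat_lit 82674763) (nat_lit 0x7746f3588) (nat_lit 761260075),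
  Rx.mk (nat_lit 446) (nat_lit 6) (nat_lit 7) (nat_lit 6) (nat_lit 7) (nat_lit 60) (nat_lit 7) r0_60 r4_7 (nat_lit 0) (nat_lit 0) (nat_lit 0) (nat_lit 0x7f7512f6a) (nat_lit 546825312),
  Rx.mk (nat_lit 476) (nat_lit 4) (nat_lit 3) (nat_lit 7) (nat_lit 6) (nat_lit 57) (nat_lit 1) r0_57 r4_1 (nat_lit 13925368) (nat_lit 0) (nat_lit 0) (nat_lit 0x7d011df30) (nat_lit 600028230),
  Rx.mk (nat_lit 479) (nat_lit 7) (nat_lit 3) (nat_lit 7) (nat_lit 7) (nat_lit 64) (nat_lit 2) r0_64 r4_2 (nat_lit 0) (nat_lit 0) (nat_lit 0) (nat_lit 0x80a6ddf44) (nat_lit 528084262),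
  Rx.mk (nat_lit 508) (nat_lit 4) (nat_lit 7) (nat_lit 7) (nat_lit 6) (nat_lit 58) (nat_lit 0) r0_58 r4_0 (nat_lit 5660977) (nat_lit 0) (nat_lit 0) (nat_lit 0x6025939b8) (nat_lit 1058125439),
  Rx.mk (nat_lit 510) (nat_lit 6) (nat_lit 7) (nat_lit 7) (nat_lit 7) (nat_lit 61) (nat_lit 6) r0_61 r4_6 (nat_lit 0) (nat_lit 0) (nat_lit 0) (nat_lit 0x7f2c10cae) (nat_lit 551161962)]
noncomputable def e37_52 : List Rx := [
  Rx.mk (nat_lit 195) (nat_lit 3) (nat_lit 0) (nat_lit 3) (nat_lit 5) (nat_lit 65) (nat_lit 4) r0_65 r5_4 (nat_lit 0) (nat_lit 5300773) (nat_lit 0) (nat_lit 0x744841172) (nat_lit 732209835),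
  Rx.mk (nat_lit 199) (nat_lit 7) (nat_lit 0) (nat_lit 3) (nat_lit 5) (nat_lit 68) (nat_lit 3) r0_68 r5_3 (nat_lit 0) (nat_lit 2967474) (nat_lit 0) (nat_lit 0x6ee61820c) (nat_lit 816847386),
  Rx.mk (nat_lit 211) (nat_lit 3) (nat_lit 2) (nat_lit 3) (nat_lit 7) (nat_lit 66) (nat_lit 5) r0_66 r5_5 (nat_lit 0) (nat_lit 0) (nat_lit 0) (nat_lit 0x7e757e964) (nat_lit 562790112),
  Rx.mk (nat_lit 455) (nat_lit 7) (nat_lit 0) (nat_lit 7) (nat_lit 5) (nat_lit 69) (nat_lit 1) r0_69 r5_1 (nat_lit 0) (nat_lit 3947515) (nat_lit 0) (nat_lit 0x65de79e82) (nat_lit 963893527),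
  Rx.mk (nat_lit 476) (nat_lit 4) (nat_lit 3) (nat_lit 7) (nat_lit 6) (nat_lit 67) (nat_lit 0) r0_67 r5_0 (nat_lit 3027604) (nat_lit 0) (nat_lit 0) (nat_lit 0x6b9390500) (nat_lit 870600266),
  Rx.mk (nat_lit 479) (nat_lit 7) (nat_lit 3) (nat_lit 7) (nat_lit 7) (nat_lit 70) (nat_lit 2) r0_70 r5_2 (nat_lit 0) (nat_lit 0) (nat_lit 0) (nat_lit 0x7d9d38000) (nat_lit 576358762)]
noncomputable def e37_53 : List Rx := [
  Rx.mk (nat_lit 3) (nat_lit 3) (nat_lit 0) (nat_lit 0) (nat_lit 1) (nat_lit 142) (nat_lit 93) r0_142 r4_93 (nat_lit 0) (nat_lit 1138602) (nat_lit 206617785) (nat_lit 0x685ba0238) (nat_lit 1127160549),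
  Rx.mk (nat_lit 19) (nat_lit 3) (nat_lit 2) (nat_lit 0) (nat_lit 3) (nat_lit 143) (nat_lit 95) r0_143 r4_95 (nat_lit 0) (nat_lit 0) (nat_lit 128366738) (nat_lit 0x7fb918d0e) (nat_lit 670781900),
  Rx.mk (nat_lit 147) (nat_lit 3) (nat_lit 2) (nat_lit 2) (nat_lit 7) (nat_lit 144) (nat_lit 97) r0_144 r4_97 (nat_lit 0) (nat_lit 0) (nat_lit 0) (nat_lit 0x7fd67623e) (nat_lit 540864312),
  Rx.mk (nat_lit 195) (nat_lit 3) (nat_lit 0) (nat_lit 3) (nat_lit 5) (nat_lit 145) (nat_lit 94) r0_145 r4_94 (nat_lit 0) (nat_lit 15006223) (nat_lit 0) (nat_lit 0x7cc837842) (nat_lit 604752435),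
  Rx.mk (nat_lit 211) (nat_lit 3) (nat_lit 2) (nat_lit 3) (nat_lit 7) (nat_lit 146) (nat_lit 96) r0_146 r4_96 (nat_lit 0) (nat_lit 0) (nat_lit 0) (nat_lit 0x801c7c06c) (nat_lit 536515262)]
noncomputable def e37_54 : List Rx := [
  Rx.mk (nat_lit 3) (nat_lit 3) (nat_lit 0) (nat_lit 0) (nat_lit 1) (nat_lit 147) (nat_lit 0) r0_147 r10_0 (nat_lit 0) (nat_lit 2583088) (nat_lit 5072318) (nat_lit 0x6af50b056) (nat_lit 885195018),
  Rx.mk (nat_lit 19) (nat_lit 3) (nat_lit 2) (nat_lit 0) (nat_lit 3) (nat_lit 148) (nat_lit 1) r0_148 r10_1 (nat_lit 0) (nat_lit 0) (nat_lit 61676723) (nat_lit 0x7d6a0fc8c) (nat_lit 641243735),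
  Rx.mk (nat_lit 147) (nat_lit 3) (nat_lit 2) (nat_lit 2) (nat_lit 7) (nat_lit 149) (nat_lit 4) r0_149 r10_4 (nat_lit 0) (nat_lit 0) (nat_lit 0) (nat_lit 0x7fef30450) (nat_lit 539335212),
  Rx.mk (nat_lit 195) (nat_lit 3) (nat_lit 0) (nat_lit 3) (nat_lit 5) (nat_lit 150) (nat_lit 2) r0_150 r10_2 (nat_lit 0) (nat_lit 21612680) (nat_lit 0) (nat_lit 0x79ca6153a) (nat_lit 659669742),
  Rx.mk (nat_lit 211) (nat_lit 3) (nat_lit 2) (nat_lit 3) (nat_lit 7) (nat_lit 151) (nat_lit 3) r0_151 r10_3 (nat_lit 0) (nat_lit 0) (nat_lit 0) (nat_lit 0x7fba6e0c8) (nat_lit 542601512)]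
noncomputable def e37_55 : List Rx := [
  Rx.mk (nat_lit 195) (nat_lit 3) (nat_lit 0) (nat_lit 3) (nat_lit 5) (nat_lit 152) (nat_lit 0) r0_152 r11_0 (nat_lit 0) (nat_lit 24142843) (nat_lit 0) (nat_lit 0x7ecf6cf52) (nat_lit 581323155),
  Rx.mk (nat_lit 211) (nat_lit 3) (nat_lit 2) (nat_lit 3) (nat_lit 7) (nat_lit 153) (nat_lit 1) r0_153 r11_1 (nat_lit 0) (nat_lit 0) (nat_lit 0) (nat_lit 0x80194a9fc) (nat_lit 536773062)]
noncomputable def e37_56 : List Rx := [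
  Rx.mk (nat_lit 3) (nat_lit 3) (nat_lit 0) (nat_lit 0) (nat_lit 1) (nat_lit 204) (nat_lit 94) r0_204 r5_94 (nat_lit 0) (nat_lit 46998) (nat_lit 538423) (nat_lit 0x84bca4798) (nat_lit 465237583),
  Rx.mk (nat_lit 7) (nat_lit 7) (nat_lit 0) (nat_lit 0) (nat_lit 1) (nat_lit 209) (nat_lit 95) r0_209 r5_95 (nat_lit 0) (nat_lit 14014) (nat_lit 20620) (nat_lit 0x76e524eec) (nat_lit 684143846),
  Rx.mk (nat_lit 19) (nat_lit 3) (nat_lit 2) (nat_lit 0) (nat_lit 3) (nat_lit 205) (nat_lit 100) r0_205 r5_100 (nat_lit 0) (nat_lit 0) (nat_lit 331782363) (nat_lit 0x7cda33514) (nat_lit 920285625),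
  Rx.mk (nat_lit 147) (nat_lit 3) (nat_lit 2) (nat_lit 2) (nat_lit 7) (nat_lit 206) (nat_lit 101) r0_206 r5_101 (nat_lit 0) (nat_lit 0) (nat_lit 0) (nat_lit 0x67513425a) (nat_lit 936576412),
  Rx.mk (nat_lit 199) (nat_lit 7) (nat_lit 0) (nat_lit 3) (nat_lit 5) (nat_lit 210) (nat_lit 96) r0_210 r5_96 (nat_lit 0) (nat_lit 6178764) (nat_lit 0) (nat_lit 0x7f794ecf0) (nat_lit 552570776),
  Rx.mk (nat_lit 220) (nat_lit 4) (nat_lit 3) (nat_lit 3) (nat_lit 6) (nat_lit 207) (nat_lit 97) r0_207 r5_97 (nat_lit 10938667) (nat_lit 0) (nat_lit 0) (nat_lit 0x6b03cd2ce) (nat_lit 887781329),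
  Rx.mk (nat_lit 223) (nat_lit 7) (nat_lit 3) (nat_lit 3) (nat_lit 7) (nat_lit 211) (nat_lit 98) r0_211 r5_98 (nat_lit 0) (nat_lit 0) (nat_lit 0) (nat_lit 0x8017985b4) (nat_lit 536870912),
  Rx.mk (nat_lit 476) (nat_lit 4) (nat_lit 3) (nat_lit 7) (nat_lit 6) (nat_lit 208) (nat_lit 99) r0_208 r5_99 (nat_lit 9650169) (nat_lit 0) (nat_lit 0) (nat_lit 0x70202c884) (nat_lit 803847431)]
noncomputable def e37_57 : List Rx := [
  Rx.mk (nat_lit 3) (nat_lit 3) (nat_lit 0) (nat_lit 0) (nat_lit 1) (nat_lit 212) (nat_lit 91) r0_212 r11_91 (nat_lit 0) (nat_lit 18712504) (nat_lit 170327518) (nat_lit 0x72fa2386a) (nat_lit 937148384),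
  Rx.mk (nat_lit 7) (nat_lit 7) (nat_lit 0) (nat_lit 0) (nat_lit 1) (nat_lit 219) (nat_lit 92) r0_219 r11_92 (nat_lit 0) (nat_lit 7944298) (nat_lit 9949213) (nat_lit 0x6fc82cfd0) (nat_lit 817619223),
  Rx.mk (nat_lit 19) (nat_lit 3) (nat_lit 2) (nat_lit 0) (nat_lit 3) (nat_lit 213) (nat_lit 97) r0_213 r11_97 (nat_lit 0) (nat_lit 0) (nat_lit 153834335) (nat_lit 0x7ce2c9da4) (nat_lit 741924097),
  Rx.mk (nat_lit 147) (nat_lit 3) (nat_lit 2) (nat_lit 2) (nat_lit 7) (nat_lit 214) (nat_lit 98) r0_214 r11_98 (nat_lit 0) (nat_lit 0) (nat_lit 0) (nat_lit 0x8056e7ad0) (nat_lit 532778862),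
  Rx.mk (nat_lit 199) (nat_lit 7) (nat_lit 0) (nat_lit 3) (nat_lit 5) (nat_lit 220) (nat_lit 93) r0_220 r11_93 (nat_lit 0) (nat_lit 15086968) (nat_lit 0) (nat_lit 0x80b26ae3e) (nat_lit 542475880),
  Rx.mk (nat_lit 220) (nat_lit 4) (nat_lit 3) (nat_lit 3) (nat_lit 6) (nat_lit 215) (nat_lit 94) r0_215 r11_94 (nat_lit 14894858) (nat_lit 0) (nat_lit 0) (nat_lit 0x800926332) (nat_lit 552590770),
  Rx.mk (nat_lit 223) (nat_lit 7) (nat_lit 3) (nat_lit 3) (nat_lit 7) (nat_lit 221) (nat_lit 95) r0_221 r11_95 (nat_lit 0) (nat_lit 0) (nat_lit 0) (nat_lit 0x805e5975a) (nat_lit 532528962),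
  Rx.mk (nat_lit 476) (nat_lit 4) (nat_lit 3) (nat_lit 7) (nat_lit 6) (nat_lit 216) (nat_lit 96) r0_216 r11_96 (nat_lit 12688314) (nat_lit 0) (nat_lit 0) (nat_lit 0x803b0d346) (nat_lit 547294026),
  Rx.mk (nat_lit 508) (nat_lit 4) (nat_lit 7) (nat_lit 7) (nat_lit 6) (nat_lit 217) (nat_lit 99) r0_217 r11_99 (nat_lit 11279401) (nat_lit 0) (nat_lit 0) (nat_lit 0x78e6c8c2e) (nat_lit 663631063),
  Rx.mk (nat_lit 510) (nat_lit 6) (nat_lit 7) (nat_lit 7) (nat_lit 7) (nat_lit 218) (nat_lit 100) r0_218 r11_100 (nat_lit 0) (nat_lit 0) (nat_lit 0) (nat_lit 0x81065e126) (nat_lit 522185862)]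
noncomputable def e37 : List (List Rx) := [e37_0, e37_1, e37_2, e37_3, e37_4, e37_5, e37_6, e37_7, e37_8, e37_9, e37_10, e37_11, e37_12, e37_13, e37_14, e37_15, e37_16, e37_17, e37_18, e37_19, e37_20, e37_21, e37_22, e37_23, e37_24, e37_25, e37_26, e37_27, e37_28, e37_29, e37_30, e37_31, e37_32, e37_33, e37_34, e37_35, e37_36, e37_37, e37_38, e37_39, e37_40, e37_41, e37_42, e37_43, e37_44, e37_45, e37_46, e37_47, e37_48, e37_49, e37_50, e37_51, e37_52, e37_53, e37_54, e37_55, e37_56, e37_57]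
noncomputable def e38_0 : List Rx := [
  Rx.mk (nat_lit 5) (nat_lit 5) (nat_lit 0) (nat_lit 0) (nat_lit 1) (nat_lit 171) (nat_lit 248) r0_171 r0_248 (nat_lit 0) (nat_lit 1057520207) (nat_lit 19628) (nat_lit 0x8001a79da) (nat_lit 1594326447),
  Rx.mk (nat_lit 69) (nat_lit 5) (nat_lit 0) (nat_lit 1) (nat_lit 5) (nat_lit 172) (nat_lit 249) r0_172 r0_249 (nat_lit 0) (nat_lit 495476102) (nat_lit 0) (nat_lit 0x7bfc24796) (nat_lit 1097908564)]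
noncomputable def e38_1 : List Rx := [
  Rx.mk (nat_lit 69) (nat_lit 5) (nat_lit 0) (nat_lit 1) (nat_lit 5) (nat_lit 173) (nat_lit 255) r0_173 r1_255 (nat_lit 0) (nat_lit 106862022) (nat_lit 0) (nat_lit 0x7ee0fa15c) (nat_lit 662779834)]
noncomputable def e38_2 : List Rx := [
  Rx.mk (nat_lit 69) (nat_lit 5) (nat_lit 0) (nat_lit 1) (nat_lit 5) (nat_lit 286) (nat_lit 280) r0_286 r2_280 (nat_lit 0) (nat_lit 29130114) (nat_lit 0) (nat_lit 0x7eda42850) (nat_lit 585601326),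
  Rx.mk (nat_lit 77) (nat_lit 5) (nat_lit 1) (nat_lit 1) (nat_lit 7) (nat_lit 288) (nat_lit 282) r0_288 r2_282 (nat_lit 0) (nat_lit 0) (nat_lit 0) (nat_lit 0x8017985b4) (nat_lit 536870912),
  Rx.mk (nat_lit 325) (nat_lit 5) (nat_lit 0) (nat_lit 5) (nat_lit 5) (nat_lit 285) (nat_lit 281) r0_285 r2_281 (nat_lit 0) (nat_lit 65725081) (nat_lit 0) (nat_lit 0x7b4d9ae64) (nat_lit 679298593),
  Rx.mk (nat_lit 333) (nat_lit 5) (nat_lit 1) (nat_lit 5) (nat_lit 7) (nat_lit 287) (nat_lit 283) r0_287 r2_283 (nat_lit 0) (nat_lit 0) (nat_lit 0) (nat_lit 0x8017985b4) (nat_lit 536870912)]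
noncomputable def e38_3 : List Rx := [
  Rx.mk (nat_lit 197) (nat_lit 5) (nat_lit 0) (nat_lit 3) (nat_lit 5) (nat_lit 71) (nat_lit 249) r0_71 r3_249 (nat_lit 0) (nat_lit 2928) (nat_lit 0) (nat_lit 0x806d30ec2) (nat_lit 530370140)]
noncomputable def e38_4 : List Rx := [
  Rx.mk (nat_lit 5) (nat_lit 5) (nat_lit 0) (nat_lit 0) (nat_lit 1) (nat_lit 174) (nat_lit 262) r0_174 r4_262 (nat_lit 0) (nat_lit 200714257) (nat_lit 1751344) (nat_lit 0x5c0ff7e00) (nat_lit 1320763563),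
  Rx.mk (nat_lit 69) (nat_lit 5) (nat_lit 0) (nat_lit 1) (nat_lit 5) (nat_lit 175) (nat_lit 263) r0_175 r4_263 (nat_lit 0) (nat_lit 51975942) (nat_lit 0) (nat_lit 0x79cafc27e) (nat_lit 689883204),
  Rx.mk (nat_lit 197) (nat_lit 5) (nat_lit 0) (nat_lit 3) (nat_lit 5) (nat_lit 176) (nat_lit 264) r0_176 r4_264 (nat_lit 0) (nat_lit 441859640) (nat_lit 0) (nat_lit 0x75873a166) (nat_lit 1148413852)]
noncomputable def e38_5 : List Rx := [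
  Rx.mk (nat_lit 197) (nat_lit 5) (nat_lit 0) (nat_lit 3) (nat_lit 5) (nat_lit 224) (nat_lit 255) r0_224 r5_255 (nat_lit 0) (nat_lit 71218835) (nat_lit 0) (nat_lit 0x7ffb5ec54) (nat_lit 608387497)]
noncomputable def e38_6 : List Rx := [
  Rx.mk (nat_lit 261) (nat_lit 5) (nat_lit 0) (nat_lit 4) (nat_lit 1) (nat_lit 300) (nat_lit 243) r0_300 r3_243 (nat_lit 0) (nat_lit 3234) (nat_lit 1823) (nat_lit 0x7fffe0034) (nat_lit 536886669),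
  Rx.mk (nat_lit 268) (nat_lit 4) (nat_lit 1) (nat_lit 4) (nat_lit 2) (nat_lit 302) (nat_lit 245) r0_302 r3_245 (nat_lit 5862) (nat_lit 0) (nat_lit 13151) (nat_lit 0x7a31628ba) (nat_lit 630796625),
  Rx.mk (nat_lit 269) (nat_lit 5) (nat_lit 1) (nat_lit 4) (nat_lit 3) (nat_lit 303) (nat_lit 247) r0_303 r3_247 (nat_lit 0) (nat_lit 0) (nat_lit 2227735) (nat_lit 0x7cd025f7c) (nat_lit 590865397),
  Rx.mk (nat_lit 453) (nat_lit 5) (nat_lit 0) (nat_lit 7) (nat_lit 5) (nat_lit 301) (nat_lit 244) r0_301 r3_244 (nat_lit 0) (nat_lit 5037900) (nat_lit 0) (nat_lit 0x7d56b4566) (nat_lit 585373512),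
  Rx.mk (nat_lit 460) (nat_lit 4) (nat_lit 1) (nat_lit 7) (nat_lit 6) (nat_lit 304) (nat_lit 246) r0_304 r3_246 (nat_lit 1966223) (nat_lit 0) (nat_lit 0) (nat_lit 0x7a0eec8a8) (nat_lit 635246135),
  Rx.mk (nat_lit 461) (nat_lit 5) (nat_lit 1) (nat_lit 7) (nat_lit 7) (nat_lit 305) (nat_lit 248) r0_305 r3_248 (nat_lit 0) (nat_lit 0) (nat_lit 0) (nat_lit 0x81fa69626) (nat_lit 507231062)]
noncomputable def e38_7 : List Rx := [
  Rx.mk (nat_lit 268) (nat_lit 4) (nat_lit 1) (nat_lit 4) (nat_lit 2) (nat_lit 244) (nat_lit 244) r0_244 r0_244 (nat_lit 88358360) (nat_lit 0) (nat_lit 88358360) (nat_lit 0x68d4a3a72) (nat_lit 1088870982),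
  Rx.mk (nat_lit 269) (nat_lit 5) (nat_lit 1) (nat_lit 4) (nat_lit 3) (nat_lit 245) (nat_lit 246) r0_245 r0_246 (nat_lit 0) (nat_lit 0) (nat_lit 25767150) (nat_lit 0x782fa05e2) (nat_lit 689732912),
  Rx.mk (nat_lit 325) (nat_lit 5) (nat_lit 0) (nat_lit 5) (nat_lit 5) (nat_lit 243) (nat_lit 243) r0_243 r0_243 (nat_lit 0) (nat_lit 375356366) (nat_lit 0) (nat_lit 0x7fff94e4a) (nat_lit 912268878),
  Rx.mk (nat_lit 332) (nat_lit 4) (nat_lit 1) (nat_lit 5) (nat_lit 6) (nat_lit 246) (nat_lit 245) r0_246 r0_245 (nat_lit 25767150) (nat_lit 0) (nat_lit 0) (nat_lit 0x782fa05e2) (nat_lit 689732912),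
  Rx.mk (nat_lit 333) (nat_lit 5) (nat_lit 1) (nat_lit 5) (nat_lit 7) (nat_lit 247) (nat_lit 247) r0_247 r0_247 (nat_lit 0) (nat_lit 0) (nat_lit 0) (nat_lit 0x7f946ba74) (nat_lit 544898012)]
noncomputable def e38_8 : List Rx := [
  Rx.mk (nat_lit 325) (nat_lit 5) (nat_lit 0) (nat_lit 5) (nat_lit 5) (nat_lit 282) (nat_lit 252) r0_282 r1_252 (nat_lit 0) (nat_lit 585345170) (nat_lit 0) (nat_lit 0x801301b72) (nat_lit 1121100632),
  Rx.mk (nat_lit 332) (nat_lit 4) (nat_lit 1) (nat_lit 5) (nat_lit 6) (nat_lit 283) (nat_lit 253) r0_283 r1_253 (nat_lit 24741287) (nat_lit 0) (nat_lit 0) (nat_lit 0x7fb668af0) (nat_lit 567576349),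
  Rx.mk (nat_lit 333) (nat_lit 5) (nat_lit 1) (nat_lit 5) (nat_lit 7) (nat_lit 284) (nat_lit 254) r0_284 r1_254 (nat_lit 0) (nat_lit 0) (nat_lit 0) (nat_lit 0x7fcf556ee) (nat_lit 541249062)]
noncomputable def e38_9 : List Rx := [
  Rx.mk (nat_lit 261) (nat_lit 5) (nat_lit 0) (nat_lit 4) (nat_lit 1) (nat_lit 306) (nat_lit 253) r0_306 r4_253 (nat_lit 0) (nat_lit 44700456) (nat_lit 9185379) (nat_lit 0x69c6a03b6) (nat_lit 950753297),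
  Rx.mk (nat_lit 268) (nat_lit 4) (nat_lit 1) (nat_lit 4) (nat_lit 2) (nat_lit 309) (nat_lit 256) r0_309 r4_256 (nat_lit 19670024) (nat_lit 0) (nat_lit 33909295) (nat_lit 0x680c7e7d6) (nat_lit 978281281),
  Rx.mk (nat_lit 269) (nat_lit 5) (nat_lit 1) (nat_lit 4) (nat_lit 3) (nat_lit 310) (nat_lit 259) r0_310 r4_259 (nat_lit 0) (nat_lit 0) (nat_lit 25313016) (nat_lit 0x7f09601dc) (nat_lit 578840728),
  Rx.mk (nat_lit 325) (nat_lit 5) (nat_lit 0) (nat_lit 5) (nat_lit 5) (nat_lit 307) (nat_lit 254) r0_307 r4_254 (nat_lit 0) (nat_lit 190947877) (nat_lit 0) (nat_lit 0x781662364) (nat_lit 856023289),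
  Rx.mk (nat_lit 332) (nat_lit 4) (nat_lit 1) (nat_lit 5) (nat_lit 6) (nat_lit 311) (nat_lit 257) r0_311 r4_257 (nat_lit 27415859) (nat_lit 0) (nat_lit 0) (nat_lit 0x8000d8c2a) (nat_lit 565665771),
  Rx.mk (nat_lit 333) (nat_lit 5) (nat_lit 1) (nat_lit 5) (nat_lit 7) (nat_lit 312) (nat_lit 260) r0_312 r4_260 (nat_lit 0) (nat_lit 0) (nat_lit 0) (nat_lit 0x80abe37c8) (nat_lit 527783112),
  Rx.mk (nat_lit 453) (nat_lit 5) (nat_lit 0) (nat_lit 7) (nat_lit 5) (nat_lit 308) (nat_lit 255) r0_308 r4_255 (nat_lit 0) (nat_lit 34510458) (nat_lit 0) (nat_lit 0x7fea14354) (nat_lit 574129370),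
  Rx.mk (nat_lit 460) (nat_lit 4) (nat_lit 1) (nat_lit 7) (nat_lit 6) (nat_lit 313) (nat_lit 258) r0_313 r4_258 (nat_lit 29629750) (nat_lit 0) (nat_lit 0) (nat_lit 0x7db4131bc) (nat_lit 604586362),
  Rx.mk (nat_lit 461) (nat_lit 5) (nat_lit 1) (nat_lit 7) (nat_lit 7) (nat_lit 314) (nat_lit 261) r0_314 r4_261 (nat_lit 0) (nat_lit 0) (nat_lit 0) (nat_lit 0x8024ca73c) (nat_lit 536043112)]
noncomputable def e38_10 : List Rx := [
  Rx.mk (nat_lit 197) (nat_lit 5) (nat_lit 0) (nat_lit 3) (nat_lit 5) (nat_lit 223) (nat_lit 278) r0_223 r6_278 (nat_lit 0) (nat_lit 15883932) (nat_lit 0) (nat_lit 0x7b9d7068c) (nat_lit 624376294),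
  Rx.mk (nat_lit 453) (nat_lit 5) (nat_lit 0) (nat_lit 7) (nat_lit 5) (nat_lit 222) (nat_lit 279) r0_222 r6_279 (nat_lit 0) (nat_lit 52275) (nat_lit 0) (nat_lit 0x8149ad206) (nat_lit 517293887)]
noncomputable def e38_11 : List Rx := [
  Rx.mk (nat_lit 453) (nat_lit 5) (nat_lit 0) (nat_lit 7) (nat_lit 5) (nat_lit 315) (nat_lit 252) r0_315 r5_252 (nat_lit 0) (nat_lit 10663228) (nat_lit 0) (nat_lit 0x7da55c5ce) (nat_lit 586217240),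
  Rx.mk (nat_lit 460) (nat_lit 4) (nat_lit 1) (nat_lit 7) (nat_lit 6) (nat_lit 316) (nat_lit 253) r0_316 r5_253 (nat_lit 6936321) (nat_lit 0) (nat_lit 0) (nat_lit 0x7b9f03d96) (nat_lit 615253533),
  Rx.mk (nat_lit 461) (nat_lit 5) (nat_lit 1) (nat_lit 7) (nat_lit 7) (nat_lit 317) (nat_lit 254) r0_317 r5_254 (nat_lit 0) (nat_lit 0) (nat_lit 0) (nat_lit 0x8071fa930) (nat_lit 530954762)]
noncomputable def e38_12 : List Rx := [
  Rx.mk (nat_lit 17) (nat_lit 1) (nat_lit 2) (nat_lit 0) (nat_lit 3) (nat_lit 73) (nat_lit 72) r0_73 r0_72 (nat_lit 0) (nat_lit 0) (nat_lit 11196067) (nat_lit 0x781247b62) (nat_lit 676967229),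
  Rx.mk (nat_lit 193) (nat_lit 1) (nat_lit 0) (nat_lit 3) (nat_lit 5) (nat_lit 72) (nat_lit 73) r0_72 r0_73 (nat_lit 0) (nat_lit 11196067) (nat_lit 0) (nat_lit 0x781247b62) (nat_lit 676967229),
  Rx.mk (nat_lit 209) (nat_lit 1) (nat_lit 2) (nat_lit 3) (nat_lit 7) (nat_lit 74) (nat_lit 74) r0_74 r0_74 (nat_lit 0) (nat_lit 0) (nat_lit 0) (nat_lit 0x7ff019722) (nat_lit 539153312)]
noncomputable def e38_13 : List Rx := [
  Rx.mk (nat_lit 1) (nat_lit 1) (nat_lit 0) (nat_lit 0) (nat_lit 1) (nat_lit 178) (nat_lit 319) r0_178 r7_319 (nat_lit 0) (nat_lit 10270932) (nat_lit 5394699) (nat_lit 0x5fa366a58) (nat_lit 1076368243),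
  Rx.mk (nat_lit 5) (nat_lit 5) (nat_lit 0) (nat_lit 0) (nat_lit 1) (nat_lit 177) (nat_lit 325) r0_177 r7_325 (nat_lit 0) (nat_lit 7378942) (nat_lit 3400781) (nat_lit 0x545558bfa) (nat_lit 1254182035),
  Rx.mk (nat_lit 17) (nat_lit 1) (nat_lit 2) (nat_lit 0) (nat_lit 3) (nat_lit 182) (nat_lit 322) r0_182 r7_322 (nat_lit 0) (nat_lit 0) (nat_lit 7741900) (nat_lit 0x80bec9efa) (nat_lit 534261362),
  Rx.mk (nat_lit 65) (nat_lit 1) (nat_lit 0) (nat_lit 1) (nat_lit 5) (nat_lit 180) (nat_lit 320) r0_180 r7_320 (nat_lit 0) (nat_lit 23289893) (nat_lit 0) (nat_lit 0x7d8545704) (nat_lit 601157455),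
  Rx.mk (nat_lit 69) (nat_lit 5) (nat_lit 0) (nat_lit 1) (nat_lit 5) (nat_lit 179) (nat_lit 326) r0_179 r7_326 (nat_lit 0) (nat_lit 10961872) (nat_lit 0) (nat_lit 0x71abf8114) (nat_lit 780182384),
  Rx.mk (nat_lit 81) (nat_lit 1) (nat_lit 2) (nat_lit 1) (nat_lit 7) (nat_lit 183) (nat_lit 323) r0_183 r7_323 (nat_lit 0) (nat_lit 0) (nat_lit 0) (nat_lit 0x80877ffc6) (nat_lit 529984012),
  Rx.mk (nat_lit 193) (nat_lit 1) (nat_lit 0) (nat_lit 3) (nat_lit 5) (nat_lit 181) (nat_lit 321) r0_181 r7_321 (nat_lit 0) (nat_lit 39572657) (nat_lit 0) (nat_lit 0x7fce955ba) (nat_lit 580469619),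
  Rx.mk (nat_lit 209) (nat_lit 1) (nat_lit 2) (nat_lit 3) (nat_lit 7) (nat_lit 184) (nat_lit 324) r0_184 r7_324 (nat_lit 0) (nat_lit 0) (nat_lit 0) (nat_lit 0x80b89b4d4) (nat_lit 527012662)]
noncomputable def e38_14 : List Rx := [
  Rx.mk (nat_lit 17) (nat_lit 1) (nat_lit 2) (nat_lit 0) (nat_lit 3) (nat_lit 76) (nat_lit 69) r0_76 r1_69 (nat_lit 0) (nat_lit 0) (nat_lit 21882932) (nat_lit 0x7e18dc364) (nat_lit 590459594),
  Rx.mk (nat_lit 145) (nat_lit 1) (nat_lit 2) (nat_lit 2) (nat_lit 7) (nat_lit 77) (nat_lit 72) r0_77 r1_72 (nat_lit 0) (nat_lit 0) (nat_lit 0) (nat_lit 0x8008dd830) (nat_lit 537772712),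
  Rx.mk (nat_lit 193) (nat_lit 1) (nat_lit 0) (nat_lit 3) (nat_lit 5) (nat_lit 75) (nat_lit 70) r0_75 r1_70 (nat_lit 0) (nat_lit 11807158) (nat_lit 0) (nat_lit 0x7ffe24146) (nat_lit 550115770),
  Rx.mk (nat_lit 209) (nat_lit 1) (nat_lit 2) (nat_lit 3) (nat_lit 7) (nat_lit 78) (nat_lit 71) r0_78 r1_71 (nat_lit 0) (nat_lit 0) (nat_lit 0) (nat_lit 0x8272ee83a) (nat_lit 500330612)]
noncomputable def e38_15 : List Rx := [
  Rx.mk (nat_lit 1) (nat_lit 1) (nat_lit 0) (nat_lit 0) (nat_lit 1) (nat_lit 188) (nat_lit 241) r0_188 r8_241 (nat_lit 0) (nat_lit 24251954) (nat_lit 19008238) (nat_lit 0x59ee2d664) (nat_lit 1196415754),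
  Rx.mk (nat_lit 17) (nat_lit 1) (nat_lit 2) (nat_lit 0) (nat_lit 3) (nat_lit 191) (nat_lit 244) r0_191 r8_244 (nat_lit 0) (nat_lit 0) (nat_lit 20123998) (nat_lit 0x7c1a22dec) (nat_lit 620862110),
  Rx.mk (nat_lit 65) (nat_lit 1) (nat_lit 0) (nat_lit 1) (nat_lit 5) (nat_lit 189) (nat_lit 242) r0_189 r8_242 (nat_lit 0) (nat_lit 26165794) (nat_lit 0) (nat_lit 0x7b3e3e45c) (nat_lit 640781706),
  Rx.mk (nat_lit 81) (nat_lit 1) (nat_lit 2) (nat_lit 1) (nat_lit 7) (nat_lit 192) (nat_lit 245) r0_192 r8_245 (nat_lit 0) (nat_lit 0) (nat_lit 0) (nat_lit 0x8005f486c) (nat_lit 537949312),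
  Rx.mk (nat_lit 145) (nat_lit 1) (nat_lit 2) (nat_lit 2) (nat_lit 7) (nat_lit 193) (nat_lit 247) r0_193 r8_247 (nat_lit 0) (nat_lit 0) (nat_lit 0) (nat_lit 0x8017985b4) (nat_lit 536870912),
  Rx.mk (nat_lit 193) (nat_lit 1) (nat_lit 0) (nat_lit 3) (nat_lit 5) (nat_lit 190) (nat_lit 243) r0_190 r8_243 (nat_lit 0) (nat_lit 32293832) (nat_lit 0) (nat_lit 0x808393b6a) (nat_lit 562478594),
  Rx.mk (nat_lit 209) (nat_lit 1) (nat_lit 2) (nat_lit 3) (nat_lit 7) (nat_lit 194) (nat_lit 246) r0_194 r8_246 (nat_lit 0) (nat_lit 0) (nat_lit 0) (nat_lit 0x8017985b4) (nat_lit 536870912)]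
noncomputable def e38_16 : List Rx := [
  Rx.mk (nat_lit 65) (nat_lit 1) (nat_lit 0) (nat_lit 1) (nat_lit 5) (nat_lit 186) (nat_lit 64) r0_186 r8_64 (nat_lit 0) (nat_lit 26500941) (nat_lit 0) (nat_lit 0x7c9c5d064) (nat_lit 619045003),
  Rx.mk (nat_lit 69) (nat_lit 5) (nat_lit 0) (nat_lit 1) (nat_lit 5) (nat_lit 185) (nat_lit 63) r0_185 r8_63 (nat_lit 0) (nat_lit 17259595) (nat_lit 0) (nat_lit 0x7bf63ab82) (nat_lit 620224207),
  Rx.mk (nat_lit 81) (nat_lit 1) (nat_lit 2) (nat_lit 1) (nat_lit 7) (nat_lit 187) (nat_lit 65) r0_187 r8_65 (nat_lit 0) (nat_lit 0) (nat_lit 0) (nat_lit 0x802f4e852) (nat_lit 535398012)]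
noncomputable def e38_17 : List Rx := [
  Rx.mk (nat_lit 65) (nat_lit 1) (nat_lit 0) (nat_lit 1) (nat_lit 5) (nat_lit 295) (nat_lit 250) r0_295 r9_250 (nat_lit 0) (nat_lit 25628035) (nat_lit 0) (nat_lit 0x7c71b8854) (nat_lit 620861597),
  Rx.mk (nat_lit 69) (nat_lit 5) (nat_lit 0) (nat_lit 1) (nat_lit 5) (nat_lit 294) (nat_lit 253) r0_294 r9_253 (nat_lit 0) (nat_lit 27813133) (nat_lit 0) (nat_lit 0x7ac35ec14) (nat_lit 650184545),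
  Rx.mk (nat_lit 73) (nat_lit 1) (nat_lit 1) (nat_lit 1) (nat_lit 7) (nat_lit 298) (nat_lit 251) r0_298 r9_251 (nat_lit 0) (nat_lit 0) (nat_lit 0) (nat_lit 0x7fa3dbc34) (nat_lit 543982362),
  Rx.mk (nat_lit 77) (nat_lit 5) (nat_lit 1) (nat_lit 1) (nat_lit 7) (nat_lit 297) (nat_lit 255) r0_297 r9_255 (nat_lit 0) (nat_lit 0) (nat_lit 0) (nat_lit 0x7fe5db210) (nat_lit 539920162),
  Rx.mk (nat_lit 81) (nat_lit 1) (nat_lit 2) (nat_lit 1) (nat_lit 7) (nat_lit 299) (nat_lit 252) r0_299 r9_252 (nat_lit 0) (nat_lit 0) (nat_lit 0) (nat_lit 0x7fed20192) (nat_lit 539467362),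
  Rx.mk (nat_lit 325) (nat_lit 5) (nat_lit 0) (nat_lit 5) (nat_lit 5) (nat_lit 293) (nat_lit 254) r0_293 r9_254 (nat_lit 0) (nat_lit 27880557) (nat_lit 0) (nat_lit 0x735c96bb4) (nat_lit 769863869),
  Rx.mk (nat_lit 333) (nat_lit 5) (nat_lit 1) (nat_lit 5) (nat_lit 7) (nat_lit 296) (nat_lit 256) r0_296 r9_256 (nat_lit 0) (nat_lit 0) (nat_lit 0) (nat_lit 0x7ff5e805e) (nat_lit 538935112)]
noncomputable def e38_18 : List Rx := [
  Rx.mk (nat_lit 193) (nat_lit 1) (nat_lit 0) (nat_lit 3) (nat_lit 5) (nat_lit 80) (nat_lit 69) r0_80 r4_69 (nat_lit 0) (nat_lit 13011950) (nat_lit 0) (nat_lit 0x7c2e5800a) (nat_lit 612357812),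
  Rx.mk (nat_lit 197) (nat_lit 5) (nat_lit 0) (nat_lit 3) (nat_lit 5) (nat_lit 79) (nat_lit 68) r0_79 r4_68 (nat_lit 0) (nat_lit 6167468) (nat_lit 0) (nat_lit 0x5e86efab0) (nat_lit 1084789780),
  Rx.mk (nat_lit 209) (nat_lit 1) (nat_lit 2) (nat_lit 3) (nat_lit 7) (nat_lit 81) (nat_lit 70) r0_81 r4_70 (nat_lit 0) (nat_lit 0) (nat_lit 0) (nat_lit 0x7f12b28fc) (nat_lit 552544162)]
noncomputable def e38_19 : List Rx := [
  Rx.mk (nat_lit 5) (nat_lit 5) (nat_lit 0) (nat_lit 0) (nat_lit 1) (nat_lit 195) (nat_lit 281) r0_195 r10_281 (nat_lit 0) (nat_lit 4364993) (nat_lit 2412373) (nat_lit 0x599f905a6) (nat_lit 1164616828),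
  Rx.mk (nat_lit 69) (nat_lit 5) (nat_lit 0) (nat_lit 1) (nat_lit 5) (nat_lit 196) (nat_lit 282) r0_196 r10_282 (nat_lit 0) (nat_lit 12102424) (nat_lit 0) (nat_lit 0x79db10b88) (nat_lit 649035436),
  Rx.mk (nat_lit 193) (nat_lit 1) (nat_lit 0) (nat_lit 3) (nat_lit 5) (nat_lit 198) (nat_lit 279) r0_198 r10_279 (nat_lit 0) (nat_lit 45895857) (nat_lit 0) (nat_lit 0x7fb6ad812) (nat_lit 588199269),
  Rx.mk (nat_lit 197) (nat_lit 5) (nat_lit 0) (nat_lit 3) (nat_lit 5) (nat_lit 197) (nat_lit 283) r0_197 r10_283 (nat_lit 0) (nat_lit 70189493) (nat_lit 0) (nat_lit 0x7d33fb286) (nat_lit 652998905),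
  Rx.mk (nat_lit 209) (nat_lit 1) (nat_lit 2) (nat_lit 3) (nat_lit 7) (nat_lit 199) (nat_lit 280) r0_199 r10_280 (nat_lit 0) (nat_lit 0) (nat_lit 0) (nat_lit 0x809c1612e) (nat_lit 528750462)]
noncomputable def e38_20 : List Rx := [
  Rx.mk (nat_lit 193) (nat_lit 1) (nat_lit 0) (nat_lit 3) (nat_lit 5) (nat_lit 226) (nat_lit 300) r0_226 r11_300 (nat_lit 0) (nat_lit 12926127) (nat_lit 0) (nat_lit 0x800aea9a2) (nat_lit 550481389),
  Rx.mk (nat_lit 197) (nat_lit 5) (nat_lit 0) (nat_lit 3) (nat_lit 5) (nat_lit 225) (nat_lit 302) r0_225 r11_302 (nat_lit 0) (nat_lit 9444164) (nat_lit 0) (nat_lit 0x7fd819c08) (nat_lit 550012926),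
  Rx.mk (nat_lit 209) (nat_lit 1) (nat_lit 2) (nat_lit 3) (nat_lit 7) (nat_lit 227) (nat_lit 301) r0_227 r11_301 (nat_lit 0) (nat_lit 0) (nat_lit 0) (nat_lit 0x8257094c6) (nat_lit 501926062)]
noncomputable def e38_21 : List Rx := [
  Rx.mk (nat_lit 77) (nat_lit 5) (nat_lit 1) (nat_lit 1) (nat_lit 7) (nat_lit 292) (nat_lit 249) r0_292 r9_249 (nat_lit 0) (nat_lit 0) (nat_lit 0) (nat_lit 0x7fa7f11e8) (nat_lit 543731812),
  Rx.mk (nat_lit 333) (nat_lit 5) (nat_lit 1) (nat_lit 5) (nat_lit 7) (nat_lit 291) (nat_lit 248) r0_291 r9_248 (nat_lit 0) (nat_lit 0) (nat_lit 0) (nat_lit 0x7f706cec0) (nat_lit 547165662)]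
noncomputable def e38_22 : List Rx := [
  Rx.mk (nat_lit 268) (nat_lit 4) (nat_lit 1) (nat_lit 4) (nat_lit 2) (nat_lit 248) (nat_lit 171) r0_248 r0_171 (nat_lit 19628) (nat_lit 0) (nat_lit 1057520207) (nat_lit 0x8001a79da) (nat_lit 1594326447),
  Rx.mk (nat_lit 269) (nat_lit 5) (nat_lit 1) (nat_lit 4) (nat_lit 3) (nat_lit 249) (nat_lit 172) r0_249 r0_172 (nat_lit 0) (nat_lit 0) (nat_lit 495476102) (nat_lit 0x7bfc24796) (nat_lit 1097908564)]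
noncomputable def e38_23 : List Rx := [
  Rx.mk (nat_lit 268) (nat_lit 4) (nat_lit 1) (nat_lit 4) (nat_lit 2) (nat_lit 269) (nat_lit 179) r0_269 r1_179 (nat_lit 62636) (nat_lit 0) (nat_lit 1205034172) (nat_lit 0x802a2cad6) (nat_lit 1739481320),
  Rx.mk (nat_lit 269) (nat_lit 5) (nat_lit 1) (nat_lit 4) (nat_lit 3) (nat_lit 270) (nat_lit 181) r0_270 r1_181 (nat_lit 0) (nat_lit 0) (nat_lit 72480076) (nat_lit 0x7991dfe78) (nat_lit 713984088),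
  Rx.mk (nat_lit 300) (nat_lit 4) (nat_lit 5) (nat_lit 4) (nat_lit 2) (nat_lit 265) (nat_lit 180) r0_265 r1_180 (nat_lit 14461079) (nat_lit 0) (nat_lit 67542365) (nat_lit 0x5cc089d90) (nat_lit 1189508356),
  Rx.mk (nat_lit 301) (nat_lit 5) (nat_lit 5) (nat_lit 4) (nat_lit 3) (nat_lit 266) (nat_lit 182) r0_266 r1_182 (nat_lit 0) (nat_lit 0) (nat_lit 30433232) (nat_lit 0x7d7bf805c) (nat_lit 608923094),
  Rx.mk (nat_lit 302) (nat_lit 6) (nat_lit 5) (nat_lit 4) (nat_lit 3) (nat_lit 267) (nat_lit 183) r0_267 r1_183 (nat_lit 0) (nat_lit 0) (nat_lit 99141069) (nat_lit 0x7f0a1588e) (nat_lit 652491131),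
  Rx.mk (nat_lit 430) (nat_lit 6) (nat_lit 5) (nat_lit 6) (nat_lit 7) (nat_lit 268) (nat_lit 184) r0_268 r1_184 (nat_lit 0) (nat_lit 0) (nat_lit 0) (nat_lit 0x7c86d8338) (nat_lit 593842712)]
noncomputable def e38_24 : List Rx := [
  Rx.mk (nat_lit 268) (nat_lit 4) (nat_lit 1) (nat_lit 4) (nat_lit 2) (nat_lit 318) (nat_lit 155) r0_318 r4_155 (nat_lit 2195696) (nat_lit 0) (nat_lit 125045575) (nat_lit 0x6ae14ea2c) (nat_lit 1005937833),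
  Rx.mk (nat_lit 269) (nat_lit 5) (nat_lit 1) (nat_lit 4) (nat_lit 3) (nat_lit 319) (nat_lit 156) r0_319 r4_156 (nat_lit 0) (nat_lit 0) (nat_lit 25377028) (nat_lit 0x7f22d5c02) (nat_lit 577258190),
  Rx.mk (nat_lit 460) (nat_lit 4) (nat_lit 1) (nat_lit 7) (nat_lit 6) (nat_lit 320) (nat_lit 157) r0_320 r4_157 (nat_lit 9212328) (nat_lit 0) (nat_lit 0) (nat_lit 0x785000486) (nat_lit 671079090),
  Rx.mk (nat_lit 461) (nat_lit 5) (nat_lit 1) (nat_lit 7) (nat_lit 7) (nat_lit 321) (nat_lit 158) r0_321 r4_158 (nat_lit 0) (nat_lit 0) (nat_lit 0) (nat_lit 0x80b12ecdc) (nat_lit 527417312)]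
noncomputable def e38_25 : List Rx := [
  Rx.mk (nat_lit 268) (nat_lit 4) (nat_lit 1) (nat_lit 4) (nat_lit 2) (nat_lit 250) (nat_lit 315) r0_250 r7_315 (nat_lit 18636919) (nat_lit 0) (nat_lit 24992992) (nat_lit 0x67a63621c) (nat_lit 974858673),
  Rx.mk (nat_lit 269) (nat_lit 5) (nat_lit 1) (nat_lit 4) (nat_lit 3) (nat_lit 251) (nat_lit 317) r0_251 r7_317 (nat_lit 0) (nat_lit 0) (nat_lit 25925090) (nat_lit 0x7f7ee0aba) (nat_lit 572200552),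
  Rx.mk (nat_lit 332) (nat_lit 4) (nat_lit 1) (nat_lit 5) (nat_lit 6) (nat_lit 252) (nat_lit 316) r0_252 r7_316 (nat_lit 26788272) (nat_lit 0) (nat_lit 0) (nat_lit 0x7afd29426) (nat_lit 645521784),
  Rx.mk (nat_lit 333) (nat_lit 5) (nat_lit 1) (nat_lit 5) (nat_lit 7) (nat_lit 253) (nat_lit 318) r0_253 r7_318 (nat_lit 0) (nat_lit 0) (nat_lit 0) (nat_lit 0x80170d2ac) (nat_lit 536874862)]
noncomputable def e38_26 : List Rx := [
  Rx.mk (nat_lit 268) (nat_lit 4) (nat_lit 1) (nat_lit 4) (nat_lit 2) (nat_lit 278) (nat_lit 237) r0_278 r8_237 (nat_lit 11187286) (nat_lit 0) (nat_lit 22445376) (nat_lit 0x611b170e2) (nat_lit 1070645824),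
  Rx.mk (nat_lit 269) (nat_lit 5) (nat_lit 1) (nat_lit 4) (nat_lit 3) (nat_lit 279) (nat_lit 239) r0_279 r8_239 (nat_lit 0) (nat_lit 0) (nat_lit 24741287) (nat_lit 0x7faf81db8) (nat_lit 567993049),
  Rx.mk (nat_lit 300) (nat_lit 4) (nat_lit 5) (nat_lit 4) (nat_lit 2) (nat_lit 271) (nat_lit 230) r0_271 r8_230 (nat_lit 75450971) (nat_lit 0) (nat_lit 75494649) (nat_lit 0x5a61765d0) (nat_lit 1296858182),
  Rx.mk (nat_lit 301) (nat_lit 5) (nat_lit 5) (nat_lit 4) (nat_lit 3) (nat_lit 272) (nat_lit 232) r0_272 r8_232 (nat_lit 0) (nat_lit 0) (nat_lit 36993222) (nat_lit 0x7df6aaa0c) (nat_lit 607751434),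
  Rx.mk (nat_lit 302) (nat_lit 6) (nat_lit 5) (nat_lit 4) (nat_lit 3) (nat_lit 273) (nat_lit 234) r0_273 r8_234 (nat_lit 0) (nat_lit 0) (nat_lit 25972273) (nat_lit 0x7eb8e4744) (nat_lit 584573485),
  Rx.mk (nat_lit 332) (nat_lit 4) (nat_lit 1) (nat_lit 5) (nat_lit 6) (nat_lit 280) (nat_lit 238) r0_280 r8_238 (nat_lit 25163350) (nat_lit 0) (nat_lit 0) (nat_lit 0x75f165a36) (nat_lit 725421662),
  Rx.mk (nat_lit 333) (nat_lit 5) (nat_lit 1) (nat_lit 5) (nat_lit 7) (nat_lit 281) (nat_lit 240) r0_281 r8_240 (nat_lit 0) (nat_lit 0) (nat_lit 0) (nat_lit 0x80027a268) (nat_lit 538140112),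
  Rx.mk (nat_lit 364) (nat_lit 4) (nat_lit 5) (nat_lit 5) (nat_lit 6) (nat_lit 274) (nat_lit 231) r0_274 r8_231 (nat_lit 30314307) (nat_lit 0) (nat_lit 0) (nat_lit 0x6f3513136) (nat_lit 839472119),
  Rx.mk (nat_lit 365) (nat_lit 5) (nat_lit 5) (nat_lit 5) (nat_lit 7) (nat_lit 275) (nat_lit 233) r0_275 r8_233 (nat_lit 0) (nat_lit 0) (nat_lit 0) (nat_lit 0x7f69ccc6e) (nat_lit 547574012),
  Rx.mk (nat_lit 366) (nat_lit 6) (nat_lit 5) (nat_lit 5) (nat_lit 7) (nat_lit 276) (nat_lit 235) r0_276 r8_235 (nat_lit 0) (nat_lit 0) (nat_lit 0) (nat_lit 0x8017985b4) (nat_lit 536870912),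
  Rx.mk (nat_lit 430) (nat_lit 6) (nat_lit 5) (nat_lit 6) (nat_lit 7) (nat_lit 277) (nat_lit 236) r0_277 r8_236 (nat_lit 0) (nat_lit 0) (nat_lit 0) (nat_lit 0x8010a6c4c) (nat_lit 537295162)]
noncomputable def e38_27 : List Rx := [
  Rx.mk (nat_lit 332) (nat_lit 4) (nat_lit 1) (nat_lit 5) (nat_lit 6) (nat_lit 289) (nat_lit 178) r0_289 r8_178 (nat_lit 25058333) (nat_lit 0) (nat_lit 0) (nat_lit 0x74a9cadf8) (nat_lit 746005345),
  Rx.mk (nat_lit 333) (nat_lit 5) (nat_lit 1) (nat_lit 5) (nat_lit 7) (nat_lit 290) (nat_lit 179) r0_290 r8_179 (nat_lit 0) (nat_lit 0) (nat_lit 0) (nat_lit 0x7ffa6b34c) (nat_lit 538657562)]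
noncomputable def e38_28 : List Rx := [
  Rx.mk (nat_lit 268) (nat_lit 4) (nat_lit 1) (nat_lit 4) (nat_lit 2) (nat_lit 322) (nat_lit 273) r0_322 r10_273 (nat_lit 14038217) (nat_lit 0) (nat_lit 17034488) (nat_lit 0x6f6e3009a) (nat_lit 836450667),
  Rx.mk (nat_lit 269) (nat_lit 5) (nat_lit 1) (nat_lit 4) (nat_lit 3) (nat_lit 323) (nat_lit 276) r0_323 r10_276 (nat_lit 0) (nat_lit 0) (nat_lit 24741287) (nat_lit 0x8017985b4) (nat_lit 561612199),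
  Rx.mk (nat_lit 332) (nat_lit 4) (nat_lit 1) (nat_lit 5) (nat_lit 6) (nat_lit 324) (nat_lit 274) r0_324 r10_274 (nat_lit 24924827) (nat_lit 0) (nat_lit 0) (nat_lit 0x7fc09e13c) (nat_lit 567146289),
  Rx.mk (nat_lit 333) (nat_lit 5) (nat_lit 1) (nat_lit 5) (nat_lit 7) (nat_lit 325) (nat_lit 277) r0_325 r10_277 (nat_lit 0) (nat_lit 0) (nat_lit 0) (nat_lit 0x8017985b4) (nat_lit 536870912),
  Rx.mk (nat_lit 460) (nat_lit 4) (nat_lit 1) (nat_lit 7) (nat_lit 6) (nat_lit 326) (nat_lit 275) r0_326 r10_275 (nat_lit 25781778) (nat_lit 0) (nat_lit 0) (nat_lit 0x7e4c3ec0c) (nat_lit 591158440),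
  Rx.mk (nat_lit 461) (nat_lit 5) (nat_lit 1) (nat_lit 7) (nat_lit 7) (nat_lit 327) (nat_lit 278) r0_327 r10_278 (nat_lit 0) (nat_lit 0) (nat_lit 0) (nat_lit 0x7ffa5b708) (nat_lit 538653612)]
noncomputable def e38_29 : List Rx := [
  Rx.mk (nat_lit 460) (nat_lit 4) (nat_lit 1) (nat_lit 7) (nat_lit 6) (nat_lit 328) (nat_lit 298) r0_328 r11_298 (nat_lit 19793988) (nat_lit 0) (nat_lit 0) (nat_lit 0x801bf7722) (nat_lit 556379500),
  Rx.mk (nat_lit 461) (nat_lit 5) (nat_lit 1) (nat_lit 7) (nat_lit 7) (nat_lit 329) (nat_lit 299) r0_329 r11_299 (nat_lit 0) (nat_lit 0) (nat_lit 0) (nat_lit 0x8017985b4) (nat_lit 536870912)]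
noncomputable def e38_30 : List Rx := [
  Rx.mk (nat_lit 197) (nat_lit 5) (nat_lit 0) (nat_lit 3) (nat_lit 5) (nat_lit 89) (nat_lit 61) r0_89 r5_61 (nat_lit 0) (nat_lit 16868928) (nat_lit 0) (nat_lit 0x770328902) (nat_lit 699634640),
  Rx.mk (nat_lit 221) (nat_lit 5) (nat_lit 3) (nat_lit 3) (nat_lit 7) (nat_lit 90) (nat_lit 62) r0_90 r5_62 (nat_lit 0) (nat_lit 0) (nat_lit 0) (nat_lit 0x80cf2f8d0) (nat_lit 525470412)]
noncomputable def e38_31 : List Rx := [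
  Rx.mk (nat_lit 5) (nat_lit 5) (nat_lit 0) (nat_lit 0) (nat_lit 1) (nat_lit 200) (nat_lit 37) r0_200 r11_37 (nat_lit 0) (nat_lit 46723193) (nat_lit 75082556) (nat_lit 0x67eb4628a) (nat_lit 1048737861),
  Rx.mk (nat_lit 69) (nat_lit 5) (nat_lit 0) (nat_lit 1) (nat_lit 5) (nat_lit 201) (nat_lit 38) r0_201 r11_38 (nat_lit 0) (nat_lit 24741287) (nat_lit 0) (nat_lit 0x80790da56) (nat_lit 555628299),
  Rx.mk (nat_lit 197) (nat_lit 5) (nat_lit 0) (nat_lit 3) (nat_lit 5) (nat_lit 202) (nat_lit 39) r0_202 r11_39 (nat_lit 0) (nat_lit 41103109) (nat_lit 0) (nat_lit 0x7fd7cf8c4) (nat_lit 581741021),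
  Rx.mk (nat_lit 221) (nat_lit 5) (nat_lit 3) (nat_lit 3) (nat_lit 7) (nat_lit 203) (nat_lit 40) r0_203 r11_40 (nat_lit 0) (nat_lit 0) (nat_lit 0) (nat_lit 0x820bd8c36) (nat_lit 506517062)]
noncomputable def e38_32 : List Rx := [
  Rx.mk (nat_lit 199) (nat_lit 7) (nat_lit 0) (nat_lit 3) (nat_lit 5) (nat_lit 231) (nat_lit 105) r0_231 r6_105 (nat_lit 0) (nat_lit 7518208) (nat_lit 0) (nat_lit 0x737802416) (nat_lit 747659820),
  Rx.mk (nat_lit 284) (nat_lit 4) (nat_lit 3) (nat_lit 4) (nat_lit 2) (nat_lit 232) (nat_lit 98) r0_232 r6_98 (nat_lit 853516) (nat_lit 0) (nat_lit 961472) (nat_lit 0x7527736a6) (nat_lit 714260500),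
  Rx.mk (nat_lit 285) (nat_lit 5) (nat_lit 3) (nat_lit 4) (nat_lit 3) (nat_lit 233) (nat_lit 101) r0_233 r6_101 (nat_lit 0) (nat_lit 0) (nat_lit 727303) (nat_lit 0x864e745a0) (nat_lit 441614815),
  Rx.mk (nat_lit 452) (nat_lit 4) (nat_lit 0) (nat_lit 7) (nat_lit 4) (nat_lit 228) (nat_lit 99) r0_228 r6_99 (nat_lit 476596) (nat_lit 549304) (nat_lit 0) (nat_lit 0x63aaea0f0) (nat_lit 996170062),
  Rx.mk (nat_lit 453) (nat_lit 5) (nat_lit 0) (nat_lit 7) (nat_lit 5) (nat_lit 229) (nat_lit 102) r0_229 r6_102 (nat_lit 0) (nat_lit 2611205) (nat_lit 0) (nat_lit 0x83a05514c) (nat_lit 484513917),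
  Rx.mk (nat_lit 455) (nat_lit 7) (nat_lit 0) (nat_lit 7) (nat_lit 5) (nat_lit 230) (nat_lit 104) r0_230 r6_104 (nat_lit 0) (nat_lit 14019292) (nat_lit 0) (nat_lit 0x774820d34) (nat_lit 692574004),
  Rx.mk (nat_lit 476) (nat_lit 4) (nat_lit 3) (nat_lit 7) (nat_lit 6) (nat_lit 234) (nat_lit 100) r0_234 r6_100 (nat_lit 11464009) (nat_lit 0) (nat_lit 0) (nat_lit 0x7fcd39b80) (nat_lit 552812521),
  Rx.mk (nat_lit 477) (nat_lit 5) (nat_lit 3) (nat_lit 7) (nat_lit 7) (nat_lit 235) (nat_lit 103) r0_235 r6_103 (nat_lit 0) (nat_lit 0) (nat_lit 0) (nat_lit 0x86cc8ff0c) (nat_lit 433849212)]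
noncomputable def e38_33 : List Rx := [
  Rx.mk (nat_lit 260) (nat_lit 4) (nat_lit 0) (nat_lit 4) (nat_lit 0) (nat_lit 330) (nat_lit 152) r0_330 r5_152 (nat_lit 4746) (nat_lit 4295) (nat_lit 246635775) (nat_lit 0x7ffebcf68) (nat_lit 783597078),
  Rx.mk (nat_lit 261) (nat_lit 5) (nat_lit 0) (nat_lit 4) (nat_lit 1) (nat_lit 331) (nat_lit 155) r0_331 r5_155 (nat_lit 0) (nat_lit 18467620) (nat_lit 12431881) (nat_lit 0x77229ca54) (nat_lit 711720913),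
  Rx.mk (nat_lit 268) (nat_lit 4) (nat_lit 1) (nat_lit 4) (nat_lit 2) (nat_lit 335) (nat_lit 153) r0_335 r5_153 (nat_lit 7966129) (nat_lit 0) (nat_lit 72835185) (nat_lit 0x768dbcfb0) (nat_lit 771020776),
  Rx.mk (nat_lit 269) (nat_lit 5) (nat_lit 1) (nat_lit 4) (nat_lit 3) (nat_lit 336) (nat_lit 156) r0_336 r5_156 (nat_lit 0) (nat_lit 0) (nat_lit 32356529) (nat_lit 0x7e416a34e) (nat_lit 598396941),
  Rx.mk (nat_lit 284) (nat_lit 4) (nat_lit 3) (nat_lit 4) (nat_lit 2) (nat_lit 340) (nat_lit 154) r0_340 r5_154 (nat_lit 2248887) (nat_lit 0) (nat_lit 43528741) (nat_lit 0x7781485e4) (nat_lit 720358340),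
  Rx.mk (nat_lit 285) (nat_lit 5) (nat_lit 3) (nat_lit 4) (nat_lit 3) (nat_lit 341) (nat_lit 157) r0_341 r5_157 (nat_lit 0) (nat_lit 0) (nat_lit 4283816) (nat_lit 0x76dca6428) (nat_lit 689405378),
  Rx.mk (nat_lit 452) (nat_lit 4) (nat_lit 0) (nat_lit 7) (nat_lit 4) (nat_lit 332) (nat_lit 158) r0_332 r5_158 (nat_lit 9046091) (nat_lit 9515140) (nat_lit 0) (nat_lit 0x640679402) (nat_lit 1008402593),
  Rx.mk (nat_lit 453) (nat_lit 5) (nat_lit 0) (nat_lit 7) (nat_lit 5) (nat_lit 333) (nat_lit 160) r0_333 r5_160 (nat_lit 0) (nat_lit 20486354) (nat_lit 0) (nat_lit 0x7e13133ec) (nat_lit 589334166),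
  Rx.mk (nat_lit 455) (nat_lit 7) (nat_lit 0) (nat_lit 7) (nat_lit 5) (nat_lit 334) (nat_lit 162) r0_334 r5_162 (nat_lit 0) (nat_lit 25423219) (nat_lit 0) (nat_lit 0x71dceb686) (nat_lit 791634281),
  Rx.mk (nat_lit 460) (nat_lit 4) (nat_lit 1) (nat_lit 7) (nat_lit 6) (nat_lit 337) (nat_lit 159) r0_337 r5_159 (nat_lit 15727667) (nat_lit 0) (nat_lit 0) (nat_lit 0x785988350) (nat_lit 677032129),
  Rx.mk (nat_lit 461) (nat_lit 5) (nat_lit 1) (nat_lit 7) (nat_lit 7) (nat_lit 338) (nat_lit 161) r0_338 r5_161 (nat_lit 0) (nat_lit 0) (nat_lit 0) (nat_lit 0x7f6c75efc) (nat_lit 547366462),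
  Rx.mk (nat_lit 463) (nat_lit 7) (nat_lit 1) (nat_lit 7) (nat_lit 7) (nat_lit 339) (nat_lit 163) r0_339 r5_163 (nat_lit 0) (nat_lit 0) (nat_lit 0) (nat_lit 0x804d1b93e) (nat_lit 533580312)]
noncomputable def e38_34 : List Rx := [
  Rx.mk (nat_lit 260) (nat_lit 4) (nat_lit 0) (nat_lit 4) (nat_lit 0) (nat_lit 342) (nat_lit 165) r0_342 r11_165 (nat_lit 61517721) (nat_lit 16543091) (nat_lit 27528448) (nat_lit 0x56389a70a) (nat_lit 1318729522),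
  Rx.mk (nat_lit 261) (nat_lit 5) (nat_lit 0) (nat_lit 4) (nat_lit 1) (nat_lit 343) (nat_lit 168) r0_343 r11_168 (nat_lit 0) (nat_lit 97208642) (nat_lit 39863545) (nat_lit 0x7bb2e4220) (nat_lit 744358799),
  Rx.mk (nat_lit 268) (nat_lit 4) (nat_lit 1) (nat_lit 4) (nat_lit 2) (nat_lit 349) (nat_lit 166) r0_349 r11_166 (nat_lit 43084134) (nat_lit 0) (nat_lit 151143769) (nat_lit 0x7b5af1fae) (nat_lit 807011715),
  Rx.mk (nat_lit 269) (nat_lit 5) (nat_lit 1) (nat_lit 4) (nat_lit 3) (nat_lit 350) (nat_lit 169) r0_350 r11_169 (nat_lit 0) (nat_lit 0) (nat_lit 24741287) (nat_lit 0x8017985b4) (nat_lit 561612199),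
  Rx.mk (nat_lit 284) (nat_lit 4) (nat_lit 3) (nat_lit 4) (nat_lit 2) (nat_lit 356) (nat_lit 167) r0_356 r11_167 (nat_lit 40023232) (nat_lit 0) (nat_lit 40023232) (nat_lit 0x7e12b2628) (nat_lit 649033426),
  Rx.mk (nat_lit 285) (nat_lit 5) (nat_lit 3) (nat_lit 4) (nat_lit 3) (nat_lit 357) (nat_lit 170) r0_357 r11_170 (nat_lit 0) (nat_lit 0) (nat_lit 24741287) (nat_lit 0x8017985b4) (nat_lit 561612199),
  Rx.mk (nat_lit 324) (nat_lit 4) (nat_lit 0) (nat_lit 5) (nat_lit 4) (nat_lit 344) (nat_lit 171) r0_344 r11_171 (nat_lit 36871294) (nat_lit 84020208) (nat_lit 0) (nat_lit 0x783359b98) (nat_lit 784659514),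
  Rx.mk (nat_lit 325) (nat_lit 5) (nat_lit 0) (nat_lit 5) (nat_lit 5) (nat_lit 345) (nat_lit 174) r0_345 r11_174 (nat_lit 0) (nat_lit 66364716) (nat_lit 0) (nat_lit 0x7dacacf72) (nat_lit 641664678),
  Rx.mk (nat_lit 332) (nat_lit 4) (nat_lit 1) (nat_lit 5) (nat_lit 6) (nat_lit 351) (nat_lit 172) r0_351 r11_172 (nat_lit 24741287) (nat_lit 0) (nat_lit 0) (nat_lit 0x8017985b4) (nat_lit 561612199),
  Rx.mk (nat_lit 333) (nat_lit 5) (nat_lit 1) (nat_lit 5) (nat_lit 7) (nat_lit 352) (nat_lit 175) r0_352 r11_175 (nat_lit 0) (nat_lit 0) (nat_lit 0) (nat_lit 0x8017985b4) (nat_lit 536870912),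
  Rx.mk (nat_lit 348) (nat_lit 4) (nat_lit 3) (nat_lit 5) (nat_lit 6) (nat_lit 358) (nat_lit 173) r0_358 r11_173 (nat_lit 23550752) (nat_lit 0) (nat_lit 0) (nat_lit 0x804b6b5bc) (nat_lit 557203014),
  Rx.mk (nat_lit 349) (nat_lit 5) (nat_lit 3) (nat_lit 5) (nat_lit 7) (nat_lit 359) (nat_lit 176) r0_359 r11_176 (nat_lit 0) (nat_lit 0) (nat_lit 0) (nat_lit 0x821f15f74) (nat_lit 505368512),
  Rx.mk (nat_lit 452) (nat_lit 4) (nat_lit 0) (nat_lit 7) (nat_lit 4) (nat_lit 346) (nat_lit 177) r0_346 r11_177 (nat_lit 49484385) (nat_lit 31505454) (nat_lit 0) (nat_lit 0x786492660) (nat_lit 741673001),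
  Rx.mk (nat_lit 453) (nat_lit 5) (nat_lit 0) (nat_lit 7) (nat_lit 5) (nat_lit 347) (nat_lit 179) r0_347 r11_179 (nat_lit 0) (nat_lit 24741287) (nat_lit 0) (nat_lit 0x8017985b4) (nat_lit 561612199),
  Rx.mk (nat_lit 455) (nat_lit 7) (nat_lit 0) (nat_lit 7) (nat_lit 5) (nat_lit 348) (nat_lit 181) r0_348 r11_181 (nat_lit 0) (nat_lit 24977480) (nat_lit 0) (nat_lit 0x7ff4c15ea) (nat_lit 563982842),
  Rx.mk (nat_lit 460) (nat_lit 4) (nat_lit 1) (nat_lit 7) (nat_lit 6) (nat_lit 353) (nat_lit 178) r0_353 r11_178 (nat_lit 27043959) (nat_lit 0) (nat_lit 0) (nat_lit 0x7fc599f24) (nat_lit 568952071),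
  Rx.mk (nat_lit 461) (nat_lit 5) (nat_lit 1) (nat_lit 7) (nat_lit 7) (nat_lit 354) (nat_lit 180) r0_354 r11_180 (nat_lit 0) (nat_lit 0) (nat_lit 0) (nat_lit 0x8017985b4) (nat_lit 536870912),
  Rx.mk (nat_lit 463) (nat_lit 7) (nat_lit 1) (nat_lit 7) (nat_lit 7) (nat_lit 355) (nat_lit 182) r0_355 r11_182 (nat_lit 0) (nat_lit 0) (nat_lit 0) (nat_lit 0x8017985b4) (nat_lit 536870912)]
noncomputable def e38_35 : List Rx := [
  Rx.mk (nat_lit 196) (nat_lit 4) (nat_lit 0) (nat_lit 3) (nat_lit 4) (nat_lit 82) (nat_lit 0) r0_82 r6_0 (nat_lit 1834824) (nat_lit 2752324) (nat_lit 0) (nat_lit 0x5acd8ab40) (nat_lit 1143327010),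
  Rx.mk (nat_lit 197) (nat_lit 5) (nat_lit 0) (nat_lit 3) (nat_lit 5) (nat_lit 83) (nat_lit 1) r0_83 r6_1 (nat_lit 0) (nat_lit 13075147) (nat_lit 0) (nat_lit 0x78e3d9b80) (nat_lit 665603759),
  Rx.mk (nat_lit 199) (nat_lit 7) (nat_lit 0) (nat_lit 3) (nat_lit 5) (nat_lit 84) (nat_lit 2) r0_84 r6_2 (nat_lit 0) (nat_lit 9488112) (nat_lit 0) (nat_lit 0x7869953b0) (nat_lit 669747474),
  Rx.mk (nat_lit 220) (nat_lit 4) (nat_lit 3) (nat_lit 3) (nat_lit 6) (nat_lit 87) (nat_lit 3) r0_87 r6_3 (nat_lit 18629772) (nat_lit 0) (nat_lit 0) (nat_lit 0x7b316cfbc) (nat_lit 634046784),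
  Rx.mk (nat_lit 221) (nat_lit 5) (nat_lit 3) (nat_lit 3) (nat_lit 7) (nat_lit 88) (nat_lit 4) r0_88 r6_4 (nat_lit 0) (nat_lit 0) (nat_lit 0) (nat_lit 0x8116bf43e) (nat_lit 521295912),
  Rx.mk (nat_lit 476) (nat_lit 4) (nat_lit 3) (nat_lit 7) (nat_lit 6) (nat_lit 85) (nat_lit 5) r0_85 r6_5 (nat_lit 4982960) (nat_lit 0) (nat_lit 0) (nat_lit 0x7f97fd5b6) (nat_lit 549398922),
  Rx.mk (nat_lit 477) (nat_lit 5) (nat_lit 3) (nat_lit 7) (nat_lit 7) (nat_lit 86) (nat_lit 6) r0_86 r6_6 (nat_lit 0) (nat_lit 0) (nat_lit 0) (nat_lit 0x8ecace6ac) (nat_lit 311796962)]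
noncomputable def e38_36 : List Rx := [
  Rx.mk (nat_lit 196) (nat_lit 4) (nat_lit 0) (nat_lit 3) (nat_lit 4) (nat_lit 238) (nat_lit 325) r0_238 r12_325 (nat_lit 939367) (nat_lit 1147203) (nat_lit 0) (nat_lit 0x56a34f6d6) (nat_lit 1208040532),
  Rx.mk (nat_lit 197) (nat_lit 5) (nat_lit 0) (nat_lit 3) (nat_lit 5) (nat_lit 239) (nat_lit 328) r0_239 r12_328 (nat_lit 0) (nat_lit 17412885) (nat_lit 0) (nat_lit 0x6e9844ff8) (nat_lit 836304197),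
  Rx.mk (nat_lit 199) (nat_lit 7) (nat_lit 0) (nat_lit 3) (nat_lit 5) (nat_lit 240) (nat_lit 331) r0_240 r12_331 (nat_lit 0) (nat_lit 5034045) (nat_lit 0) (nat_lit 0x6bcc7805c) (nat_lit 869121807),
  Rx.mk (nat_lit 452) (nat_lit 4) (nat_lit 0) (nat_lit 7) (nat_lit 4) (nat_lit 236) (nat_lit 326) r0_236 r12_326 (nat_lit 337141) (nat_lit 483498) (nat_lit 0) (nat_lit 0x69bd8207c) (nat_lit 897741001),
  Rx.mk (nat_lit 453) (nat_lit 5) (nat_lit 0) (nat_lit 7) (nat_lit 5) (nat_lit 237) (nat_lit 329) r0_237 r12_329 (nat_lit 0) (nat_lit 110144) (nat_lit 0) (nat_lit 0x82822bbe0) (nat_lit 498750706),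
  Rx.mk (nat_lit 476) (nat_lit 4) (nat_lit 3) (nat_lit 7) (nat_lit 6) (nat_lit 241) (nat_lit 327) r0_241 r12_327 (nat_lit 7132573) (nat_lit 0) (nat_lit 0) (nat_lit 0x7f5e76888) (nat_lit 555234485),
  Rx.mk (nat_lit 477) (nat_lit 5) (nat_lit 3) (nat_lit 7) (nat_lit 7) (nat_lit 242) (nat_lit 330) r0_242 r12_330 (nat_lit 0) (nat_lit 0) (nat_lit 0) (nat_lit 0x91ea2ede6) (nat_lit 264130312)]
noncomputable def e38_37 : List Rx := [
  Rx.mk (nat_lit 294) (nat_lit 6) (nat_lit 4) (nat_lit 4) (nat_lit 1) (nat_lit 91) (nat_lit 94) r0_91 r0_94 (nat_lit 0) (nat_lit 13764543) (nat_lit 319672734) (nat_lit 0x6b0dbb5b0) (nat_lit 1209624489),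
  Rx.mk (nat_lit 316) (nat_lit 4) (nat_lit 7) (nat_lit 4) (nat_lit 2) (nat_lit 94) (nat_lit 91) r0_94 r0_91 (nat_lit 13764543) (nat_lit 0) (nat_lit 319672734) (nat_lit 0x6b0dbb5b0) (nat_lit 1209624489),
  Rx.mk (nat_lit 318) (nat_lit 6) (nat_lit 7) (nat_lit 4) (nat_lit 3) (nat_lit 95) (nat_lit 95) r0_95 r0_95 (nat_lit 0) (nat_lit 0) (nat_lit 160205457) (nat_lit 0x7ec91cf3a) (nat_lit 717699119),
  Rx.mk (nat_lit 422) (nat_lit 6) (nat_lit 4) (nat_lit 6) (nat_lit 5) (nat_lit 92) (nat_lit 97) r0_92 r0_97 (nat_lit 0) (nat_lit 32418381) (nat_lit 0) (nat_lit 0x72161d882) (nat_lit 795028793),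
  Rx.mk (nat_lit 438) (nat_lit 6) (nat_lit 6) (nat_lit 6) (nat_lit 7) (nat_lit 93) (nat_lit 99) r0_93 r0_99 (nat_lit 0) (nat_lit 0) (nat_lit 0) (nat_lit 0x7fe1fc96e) (nat_lit 540154912),
  Rx.mk (nat_lit 446) (nat_lit 6) (nat_lit 7) (nat_lit 6) (nat_lit 7) (nat_lit 96) (nat_lit 98) r0_96 r0_98 (nat_lit 0) (nat_lit 0) (nat_lit 0) (nat_lit 0x7f9c9f8d0) (nat_lit 544444712),
  Rx.mk (nat_lit 508) (nat_lit 4) (nat_lit 7) (nat_lit 7) (nat_lit 6) (nat_lit 97) (nat_lit 92) r0_97 r0_92 (nat_lit 32418381) (nat_lit 0) (nat_lit 0) (nat_lit 0x72161d882) (nat_lit 795028793),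
  Rx.mk (nat_lit 510) (nat_lit 6) (nat_lit 7) (nat_lit 7) (nat_lit 7) (nat_lit 98) (nat_lit 96) r0_98 r0_96 (nat_lit 0) (nat_lit 0) (nat_lit 0) (nat_lit 0x7f9c9f8d0) (nat_lit 544444712),
  Rx.mk (nat_lit 511) (nat_lit 7) (nat_lit 7) (nat_lit 7) (nat_lit 7) (nat_lit 99) (nat_lit 93) r0_99 r0_93 (nat_lit 0) (nat_lit 0) (nat_lit 0) (nat_lit 0x7fe1fc96e) (nat_lit 540154912)]
noncomputable def e38_38 : List Rx := [
  Rx.mk (nat_lit 16) (nat_lit 0) (nat_lit 2) (nat_lit 0) (nat_lit 2) (nat_lit 11) (nat_lit 4) r0_11 r0_4 (nat_lit 5108) (nat_lit 0) (nat_lit 6426) (nat_lit 0x7ff90f05c) (nat_lit 537322946),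
  Rx.mk (nat_lit 19) (nat_lit 3) (nat_lit 2) (nat_lit 0) (nat_lit 3) (nat_lit 12) (nat_lit 5) r0_12 r0_5 (nat_lit 0) (nat_lit 0) (nat_lit 11895286) (nat_lit 0x6f9864d16) (nat_lit 814611698),
  Rx.mk (nat_lit 144) (nat_lit 0) (nat_lit 2) (nat_lit 2) (nat_lit 6) (nat_lit 13) (nat_lit 7) r0_13 r0_7 (nat_lit 22473) (nat_lit 0) (nat_lit 0) (nat_lit 0x842299b94) (nat_lit 473842535),
  Rx.mk (nat_lit 146) (nat_lit 2) (nat_lit 2) (nat_lit 2) (nat_lit 7) (nat_lit 14) (nat_lit 9) r0_14 r0_9 (nat_lit 0) (nat_lit 0) (nat_lit 0) (nat_lit 0x7d7548f40) (nat_lit 578841012),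
  Rx.mk (nat_lit 147) (nat_lit 3) (nat_lit 2) (nat_lit 2) (nat_lit 7) (nat_lit 15) (nat_lit 8) r0_15 r0_8 (nat_lit 0) (nat_lit 0) (nat_lit 0) (nat_lit 0x7d18c92ba) (nat_lit 584629662),
  Rx.mk (nat_lit 178) (nat_lit 2) (nat_lit 6) (nat_lit 2) (nat_lit 7) (nat_lit 3) (nat_lit 17) r0_3 r0_17 (nat_lit 0) (nat_lit 0) (nat_lit 0) (nat_lit 0x7e8dbb8b0) (nat_lit 561242362),
  Rx.mk (nat_lit 195) (nat_lit 3) (nat_lit 0) (nat_lit 3) (nat_lit 5) (nat_lit 10) (nat_lit 0) r0_10 r0_0 (nat_lit 0) (nat_lit 80316) (nat_lit 0) (nat_lit 0x5509d2c2a) (nat_lit 1231694478),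
  Rx.mk (nat_lit 211) (nat_lit 3) (nat_lit 2) (nat_lit 3) (nat_lit 7) (nat_lit 16) (nat_lit 6) r0_16 r0_6 (nat_lit 0) (nat_lit 0) (nat_lit 0) (nat_lit 0x7fe5259ba) (nat_lit 538574762),
  Rx.mk (nat_lit 219) (nat_lit 3) (nat_lit 3) (nat_lit 3) (nat_lit 7) (nat_lit 19) (nat_lit 1) r0_19 r0_1 (nat_lit 0) (nat_lit 0) (nat_lit 0) (nat_lit 0x74e6e15d4) (nat_lit 716955412),
  Rx.mk (nat_lit 223) (nat_lit 7) (nat_lit 3) (nat_lit 3) (nat_lit 7) (nat_lit 18) (nat_lit 2) r0_18 r0_2 (nat_lit 0) (nat_lit 0) (nat_lit 0) (nat_lit 0x7e64f42d8) (nat_lit 563774762),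
  Rx.mk (nat_lit 316) (nat_lit 4) (nat_lit 7) (nat_lit 4) (nat_lit 2) (nat_lit 4) (nat_lit 11) r0_4 r0_11 (nat_lit 5108) (nat_lit 0) (nat_lit 6426) (nat_lit 0x7ff90f05c) (nat_lit 537322946),
  Rx.mk (nat_lit 318) (nat_lit 6) (nat_lit 7) (nat_lit 4) (nat_lit 3) (nat_lit 5) (nat_lit 12) r0_5 r0_12 (nat_lit 0) (nat_lit 0) (nat_lit 11895286) (nat_lit 0x6f9864d16) (nat_lit 814611698),
  Rx.mk (nat_lit 422) (nat_lit 6) (nat_lit 4) (nat_lit 6) (nat_lit 5) (nat_lit 0) (nat_lit 10) r0_0 r0_10 (nat_lit 0) (nat_lit 80316) (nat_lit 0) (nat_lit 0x5509d2c2a) (nat_lit 1231694478),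
  Rx.mk (nat_lit 434) (nat_lit 2) (nat_lit 6) (nat_lit 6) (nat_lit 7) (nat_lit 2) (nat_lit 18) r0_2 r0_18 (nat_lit 0) (nat_lit 0) (nat_lit 0) (nat_lit 0x7e64f42d8) (nat_lit 563774762),
  Rx.mk (nat_lit 438) (nat_lit 6) (nat_lit 6) (nat_lit 6) (nat_lit 7) (nat_lit 1) (nat_lit 19) r0_1 r0_19 (nat_lit 0) (nat_lit 0) (nat_lit 0) (nat_lit 0x74e6e15d4) (nat_lit 716955412),
  Rx.mk (nat_lit 446) (nat_lit 6) (nat_lit 7) (nat_lit 6) (nat_lit 7) (nat_lit 6) (nat_lit 16) r0_6 r0_16 (nat_lit 0) (nat_lit 0) (nat_lit 0) (nat_lit 0x7fe5259ba) (nat_lit 538574762),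
  Rx.mk (nat_lit 479) (nat_lit 7) (nat_lit 3) (nat_lit 7) (nat_lit 7) (nat_lit 17) (nat_lit 3) r0_17 r0_3 (nat_lit 0) (nat_lit 0) (nat_lit 0) (nat_lit 0x7e8dbb8b0) (nat_lit 561242362),
  Rx.mk (nat_lit 508) (nat_lit 4) (nat_lit 7) (nat_lit 7) (nat_lit 6) (nat_lit 7) (nat_lit 13) r0_7 r0_13 (nat_lit 22473) (nat_lit 0) (nat_lit 0) (nat_lit 0x842299b94) (nat_lit 473842535),
  Rx.mk (nat_lit 510) (nat_lit 6) (nat_lit 7) (nat_lit 7) (nat_lit 7) (nat_lit 8) (nat_lit 15) r0_8 r0_15 (nat_lit 0) (nat_lit 0) (nat_lit 0) (nat_lit 0x7d18c92ba) (nat_lit 584629662),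
  Rx.mk (nat_lit 511) (nat_lit 7) (nat_lit 7) (nat_lit 7) (nat_lit 7) (nat_lit 9) (nat_lit 14) r0_9 r0_14 (nat_lit 0) (nat_lit 0) (nat_lit 0) (nat_lit 0x7d7548f40) (nat_lit 578841012)]
noncomputable def e38_39 : List Rx := [
  Rx.mk (nat_lit 178) (nat_lit 2) (nat_lit 6) (nat_lit 2) (nat_lit 7) (nat_lit 104) (nat_lit 103) r0_104 r7_103 (nat_lit 0) (nat_lit 0) (nat_lit 0) (nat_lit 0x7ffe471c8) (nat_lit 538421712),
  Rx.mk (nat_lit 294) (nat_lit 6) (nat_lit 4) (nat_lit 4) (nat_lit 1) (nat_lit 100) (nat_lit 96) r0_100 r7_96 (nat_lit 0) (nat_lit 31904360) (nat_lit 46745449) (nat_lit 0x5c2702b54) (nat_lit 1195869321),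
  Rx.mk (nat_lit 316) (nat_lit 4) (nat_lit 7) (nat_lit 4) (nat_lit 2) (nat_lit 105) (nat_lit 93) r0_105 r7_93 (nat_lit 4536926) (nat_lit 0) (nat_lit 9373510) (nat_lit 0x680227486) (nat_lit 939230248),
  Rx.mk (nat_lit 318) (nat_lit 6) (nat_lit 7) (nat_lit 4) (nat_lit 3) (nat_lit 106) (nat_lit 97) r0_106 r7_97 (nat_lit 0) (nat_lit 0) (nat_lit 73862049) (nat_lit 0x7d468cf26) (nat_lit 655662261),
  Rx.mk (nat_lit 422) (nat_lit 6) (nat_lit 4) (nat_lit 6) (nat_lit 5) (nat_lit 101) (nat_lit 99) r0_101 r7_99 (nat_lit 0) (nat_lit 15260325) (nat_lit 0) (nat_lit 0x6e0d6284a) (nat_lit 843049387),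
  Rx.mk (nat_lit 434) (nat_lit 2) (nat_lit 6) (nat_lit 6) (nat_lit 7) (nat_lit 103) (nat_lit 102) r0_103 r7_102 (nat_lit 0) (nat_lit 0) (nat_lit 0) (nat_lit 0x8017985b4) (nat_lit 536870912),
  Rx.mk (nat_lit 438) (nat_lit 6) (nat_lit 6) (nat_lit 6) (nat_lit 7) (nat_lit 102) (nat_lit 101) r0_102 r7_101 (nat_lit 0) (nat_lit 0) (nat_lit 0) (nat_lit 0x7dc623460) (nat_lit 573811562),
  Rx.mk (nat_lit 446) (nat_lit 6) (nat_lit 7) (nat_lit 6) (nat_lit 7) (nat_lit 107) (nat_lit 100) r0_107 r7_100 (nat_lit 0) (nat_lit 0) (nat_lit 0) (nat_lit 0x7fdfab7e6) (nat_lit 540283862),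
  Rx.mk (nat_lit 508) (nat_lit 4) (nat_lit 7) (nat_lit 7) (nat_lit 6) (nat_lit 108) (nat_lit 94) r0_108 r7_94 (nat_lit 24727622) (nat_lit 0) (nat_lit 0) (nat_lit 0x7be4cbc66) (nat_lit 628839434),
  Rx.mk (nat_lit 510) (nat_lit 6) (nat_lit 7) (nat_lit 7) (nat_lit 7) (nat_lit 109) (nat_lit 98) r0_109 r7_98 (nat_lit 0) (nat_lit 0) (nat_lit 0) (nat_lit 0x7ff31a048) (nat_lit 539113112),
  Rx.mk (nat_lit 511) (nat_lit 7) (nat_lit 7) (nat_lit 7) (nat_lit 7) (nat_lit 110) (nat_lit 95) r0_110 r7_95 (nat_lit 0) (nat_lit 0) (nat_lit 0) (nat_lit 0x8017985b4) (nat_lit 536870912)]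
noncomputable def e38_40 : List Rx := [
  Rx.mk (nat_lit 16) (nat_lit 0) (nat_lit 2) (nat_lit 0) (nat_lit 2) (nat_lit 34) (nat_lit 4) r0_34 r2_4 (nat_lit 4998249) (nat_lit 0) (nat_lit 13136814) (nat_lit 0x5b905ca06) (nat_lit 1144741775),
  Rx.mk (nat_lit 17) (nat_lit 1) (nat_lit 2) (nat_lit 0) (nat_lit 3) (nat_lit 35) (nat_lit 5) r0_35 r2_5 (nat_lit 0) (nat_lit 0) (nat_lit 28341495) (nat_lit 0x7c3b84864) (nat_lit 626988107),
  Rx.mk (nat_lit 144) (nat_lit 0) (nat_lit 2) (nat_lit 2) (nat_lit 6) (nat_lit 36) (nat_lit 9) r0_36 r2_9 (nat_lit 21507758) (nat_lit 0) (nat_lit 0) (nat_lit 0x7d43469ac) (nat_lit 603533220),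
  Rx.mk (nat_lit 145) (nat_lit 1) (nat_lit 2) (nat_lit 2) (nat_lit 7) (nat_lit 37) (nat_lit 10) r0_37 r2_10 (nat_lit 0) (nat_lit 0) (nat_lit 0) (nat_lit 0x8017985b4) (nat_lit 536870912),
  Rx.mk (nat_lit 146) (nat_lit 2) (nat_lit 2) (nat_lit 2) (nat_lit 7) (nat_lit 38) (nat_lit 11) r0_38 r2_11 (nat_lit 0) (nat_lit 0) (nat_lit 0) (nat_lit 0x7ffabadac) (nat_lit 538636162),
  Rx.mk (nat_lit 178) (nat_lit 2) (nat_lit 6) (nat_lit 2) (nat_lit 7) (nat_lit 30) (nat_lit 12) r0_30 r2_12 (nat_lit 0) (nat_lit 0) (nat_lit 0) (nat_lit 0x7ff838a16) (nat_lit 538790162),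
  Rx.mk (nat_lit 192) (nat_lit 0) (nat_lit 0) (nat_lit 3) (nat_lit 4) (nat_lit 31) (nat_lit 0) r0_31 r2_0 (nat_lit 5596514) (nat_lit 6423183) (nat_lit 0) (nat_lit 0x5ddaed8d4) (nat_lit 1101594159),
  Rx.mk (nat_lit 193) (nat_lit 1) (nat_lit 0) (nat_lit 3) (nat_lit 5) (nat_lit 32) (nat_lit 1) r0_32 r2_1 (nat_lit 0) (nat_lit 15050003) (nat_lit 0) (nat_lit 0x808182fe2) (nat_lit 545392665),
  Rx.mk (nat_lit 195) (nat_lit 3) (nat_lit 0) (nat_lit 3) (nat_lit 5) (nat_lit 33) (nat_lit 2) r0_33 r2_2 (nat_lit 0) (nat_lit 26786742) (nat_lit 0) (nat_lit 0x7e49fc304) (nat_lit 592261154),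
  Rx.mk (nat_lit 208) (nat_lit 0) (nat_lit 2) (nat_lit 3) (nat_lit 6) (nat_lit 39) (nat_lit 6) r0_39 r2_6 (nat_lit 5674149) (nat_lit 0) (nat_lit 0) (nat_lit 0x7eaf25780) (nat_lit 564630711),
  Rx.mk (nat_lit 209) (nat_lit 1) (nat_lit 2) (nat_lit 3) (nat_lit 7) (nat_lit 40) (nat_lit 7) r0_40 r2_7 (nat_lit 0) (nat_lit 0) (nat_lit 0) (nat_lit 0x816b1f196) (nat_lit 516210712),
  Rx.mk (nat_lit 211) (nat_lit 3) (nat_lit 2) (nat_lit 3) (nat_lit 7) (nat_lit 41) (nat_lit 8) r0_41 r2_8 (nat_lit 0) (nat_lit 0) (nat_lit 0) (nat_lit 0x81560cc68) (nat_lit 517481712),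
  Rx.mk (nat_lit 219) (nat_lit 3) (nat_lit 3) (nat_lit 3) (nat_lit 7) (nat_lit 42) (nat_lit 3) r0_42 r2_3 (nat_lit 0) (nat_lit 0) (nat_lit 0) (nat_lit 0x8017985b4) (nat_lit 536870912)]
noncomputable def e38_41 : List Rx := [
  Rx.mk (nat_lit 178) (nat_lit 2) (nat_lit 6) (nat_lit 2) (nat_lit 7) (nat_lit 141) (nat_lit 0) r0_141 r9_0 (nat_lit 0) (nat_lit 0) (nat_lit 0) (nat_lit 0x7fe34c40e) (nat_lit 540076362)]
noncomputable def e38_42 : List Rx := [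
  Rx.mk (nat_lit 0) (nat_lit 0) (nat_lit 0) (nat_lit 0) (nat_lit 0) (nat_lit 155) (nat_lit 23) r0_155 r9_23 (nat_lit 11766479) (nat_lit 20103060) (nat_lit 17383342) (nat_lit 0x26bb582ee) (nat_lit 2030296093),
  Rx.mk (nat_lit 1) (nat_lit 1) (nat_lit 0) (nat_lit 0) (nat_lit 1) (nat_lit 156) (nat_lit 24) r0_156 r9_24 (nat_lit 0) (nat_lit 21454755) (nat_lit 21246965) (nat_lit 0x536054f6e) (nat_lit 1301860482),
  Rx.mk (nat_lit 16) (nat_lit 0) (nat_lit 2) (nat_lit 0) (nat_lit 2) (nat_lit 161) (nat_lit 25) r0_161 r9_25 (nat_lit 15320849) (nat_lit 0) (nat_lit 15232789) (nat_lit 0x58679699e) (nat_lit 1208372050),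
  Rx.mk (nat_lit 17) (nat_lit 1) (nat_lit 2) (nat_lit 0) (nat_lit 3) (nat_lit 162) (nat_lit 26) r0_162 r9_26 (nat_lit 0) (nat_lit 0) (nat_lit 24075478) (nat_lit 0x769019b32) (nat_lit 714298390),
  Rx.mk (nat_lit 65) (nat_lit 1) (nat_lit 0) (nat_lit 1) (nat_lit 5) (nat_lit 157) (nat_lit 27) r0_157 r9_27 (nat_lit 0) (nat_lit 27681734) (nat_lit 0) (nat_lit 0x7735d76f0) (nat_lit 707450746),
  Rx.mk (nat_lit 81) (nat_lit 1) (nat_lit 2) (nat_lit 1) (nat_lit 7) (nat_lit 163) (nat_lit 28) r0_163 r9_28 (nat_lit 0) (nat_lit 0) (nat_lit 0) (nat_lit 0x7feb1ffb4) (nat_lit 539592162),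
  Rx.mk (nat_lit 144) (nat_lit 0) (nat_lit 2) (nat_lit 2) (nat_lit 6) (nat_lit 164) (nat_lit 37) r0_164 r9_37 (nat_lit 24266921) (nat_lit 0) (nat_lit 0) (nat_lit 0x771d50316) (nat_lit 705582633),
  Rx.mk (nat_lit 145) (nat_lit 1) (nat_lit 2) (nat_lit 2) (nat_lit 7) (nat_lit 165) (nat_lit 38) r0_165 r9_38 (nat_lit 0) (nat_lit 0) (nat_lit 0) (nat_lit 0x7fee77a72) (nat_lit 539388362),
  Rx.mk (nat_lit 146) (nat_lit 2) (nat_lit 2) (nat_lit 2) (nat_lit 7) (nat_lit 166) (nat_lit 39) r0_166 r9_39 (nat_lit 0) (nat_lit 0) (nat_lit 0) (nat_lit 0x8002decd6) (nat_lit 538139162),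
  Rx.mk (nat_lit 178) (nat_lit 2) (nat_lit 6) (nat_lit 2) (nat_lit 7) (nat_lit 154) (nat_lit 36) r0_154 r9_36 (nat_lit 0) (nat_lit 0) (nat_lit 0) (nat_lit 0x8017985b4) (nat_lit 536870912),
  Rx.mk (nat_lit 192) (nat_lit 0) (nat_lit 0) (nat_lit 3) (nat_lit 4) (nat_lit 158) (nat_lit 29) r0_158 r9_29 (nat_lit 19805728) (nat_lit 96643738) (nat_lit 0) (nat_lit 0x57dc9e896) (nat_lit 1303076978),
  Rx.mk (nat_lit 193) (nat_lit 1) (nat_lit 0) (nat_lit 3) (nat_lit 5) (nat_lit 159) (nat_lit 30) r0_159 r9_30 (nat_lit 0) (nat_lit 39103353) (nat_lit 0) (nat_lit 0x7f0bc5f80) (nat_lit 592509415),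
  Rx.mk (nat_lit 195) (nat_lit 3) (nat_lit 0) (nat_lit 3) (nat_lit 5) (nat_lit 160) (nat_lit 31) r0_160 r9_31 (nat_lit 0) (nat_lit 140602240) (nat_lit 0) (nat_lit 0x7cdd650c0) (nat_lit 729034802),
  Rx.mk (nat_lit 208) (nat_lit 0) (nat_lit 2) (nat_lit 3) (nat_lit 6) (nat_lit 167) (nat_lit 33) r0_167 r9_33 (nat_lit 23123952) (nat_lit 0) (nat_lit 0) (nat_lit 0x800002f3a) (nat_lit 561432214),
  Rx.mk (nat_lit 209) (nat_lit 1) (nat_lit 2) (nat_lit 3) (nat_lit 7) (nat_lit 168) (nat_lit 34) r0_168 r9_34 (nat_lit 0) (nat_lit 0) (nat_lit 0) (nat_lit 0x8017985b4) (nat_lit 536870912),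
  Rx.mk (nat_lit 211) (nat_lit 3) (nat_lit 2) (nat_lit 3) (nat_lit 7) (nat_lit 169) (nat_lit 35) r0_169 r9_35 (nat_lit 0) (nat_lit 0) (nat_lit 0) (nat_lit 0x8017985b4) (nat_lit 536870912),
  Rx.mk (nat_lit 219) (nat_lit 3) (nat_lit 3) (nat_lit 3) (nat_lit 7) (nat_lit 170) (nat_lit 32) r0_170 r9_32 (nat_lit 0) (nat_lit 0) (nat_lit 0) (nat_lit 0x7fec37154) (nat_lit 539516912)]
noncomputable def e38_43 : List Rx := [
  Rx.mk (nat_lit 16) (nat_lit 0) (nat_lit 2) (nat_lit 0) (nat_lit 2) (nat_lit 23) (nat_lit 2) r0_23 r1_2 (nat_lit 3151689) (nat_lit 0) (nat_lit 5604383) (nat_lit 0x6d7564e26) (nat_lit 845928484),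
  Rx.mk (nat_lit 19) (nat_lit 3) (nat_lit 2) (nat_lit 0) (nat_lit 3) (nat_lit 24) (nat_lit 3) r0_24 r1_3 (nat_lit 0) (nat_lit 0) (nat_lit 22794505) (nat_lit 0x7f395dd58) (nat_lit 573339467),
  Rx.mk (nat_lit 144) (nat_lit 0) (nat_lit 2) (nat_lit 2) (nat_lit 6) (nat_lit 25) (nat_lit 5) r0_25 r1_5 (nat_lit 8756247) (nat_lit 0) (nat_lit 0) (nat_lit 0x7bbb71c80) (nat_lit 615374609),
  Rx.mk (nat_lit 146) (nat_lit 2) (nat_lit 2) (nat_lit 2) (nat_lit 7) (nat_lit 26) (nat_lit 7) r0_26 r1_7 (nat_lit 0) (nat_lit 0) (nat_lit 0) (nat_lit 0x801bfa5bc) (nat_lit 536589212),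
  Rx.mk (nat_lit 147) (nat_lit 3) (nat_lit 2) (nat_lit 2) (nat_lit 7) (nat_lit 27) (nat_lit 6) r0_27 r1_6 (nat_lit 0) (nat_lit 0) (nat_lit 0) (nat_lit 0x80362d196) (nat_lit 534989612),
  Rx.mk (nat_lit 178) (nat_lit 2) (nat_lit 6) (nat_lit 2) (nat_lit 7) (nat_lit 21) (nat_lit 8) r0_21 r1_8 (nat_lit 0) (nat_lit 0) (nat_lit 0) (nat_lit 0x807414446) (nat_lit 531187112),
  Rx.mk (nat_lit 195) (nat_lit 3) (nat_lit 0) (nat_lit 3) (nat_lit 5) (nat_lit 22) (nat_lit 0) r0_22 r1_0 (nat_lit 0) (nat_lit 23596477) (nat_lit 0) (nat_lit 0x69c6e3bc0) (nat_lit 920472039),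
  Rx.mk (nat_lit 211) (nat_lit 3) (nat_lit 2) (nat_lit 3) (nat_lit 7) (nat_lit 28) (nat_lit 4) r0_28 r1_4 (nat_lit 0) (nat_lit 0) (nat_lit 0) (nat_lit 0x87136526a) (nat_lit 429577662),
  Rx.mk (nat_lit 219) (nat_lit 3) (nat_lit 3) (nat_lit 3) (nat_lit 7) (nat_lit 29) (nat_lit 1) r0_29 r1_1 (nat_lit 0) (nat_lit 0) (nat_lit 0) (nat_lit 0x807eeb3e2) (nat_lit 530392612),
  Rx.mk (nat_lit 434) (nat_lit 2) (nat_lit 6) (nat_lit 6) (nat_lit 7) (nat_lit 20) (nat_lit 9) r0_20 r1_9 (nat_lit 0) (nat_lit 0) (nat_lit 0) (nat_lit 0x802da032a) (nat_lit 535514012)]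
noncomputable def e38_44 : List Rx := [
  Rx.mk (nat_lit 178) (nat_lit 2) (nat_lit 6) (nat_lit 2) (nat_lit 7) (nat_lit 140) (nat_lit 77) r0_140 r8_77 (nat_lit 0) (nat_lit 0) (nat_lit 0) (nat_lit 0x8017985b4) (nat_lit 536870912),
  Rx.mk (nat_lit 434) (nat_lit 2) (nat_lit 6) (nat_lit 6) (nat_lit 7) (nat_lit 139) (nat_lit 76) r0_139 r8_76 (nat_lit 0) (nat_lit 0) (nat_lit 0) (nat_lit 0x8017985b4) (nat_lit 536870912)]
noncomputable def e38_45 : List Rx := [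
  Rx.mk (nat_lit 292) (nat_lit 4) (nat_lit 4) (nat_lit 4) (nat_lit 0) (nat_lit 111) (nat_lit 94) r0_111 r1_94 (nat_lit 15924) (nat_lit 15478) (nat_lit 704331784) (nat_lit 0x7ffceaa5a) (nat_lit 1241434748),
  Rx.mk (nat_lit 294) (nat_lit 6) (nat_lit 4) (nat_lit 4) (nat_lit 1) (nat_lit 112) (nat_lit 99) r0_112 r1_99 (nat_lit 0) (nat_lit 15900944) (nat_lit 330891680) (nat_lit 0x77bef9212) (nat_lit 1017846086),
  Rx.mk (nat_lit 300) (nat_lit 4) (nat_lit 5) (nat_lit 4) (nat_lit 2) (nat_lit 114) (nat_lit 95) r0_114 r1_95 (nat_lit 17923102) (nat_lit 0) (nat_lit 301314432) (nat_lit 0x7b08f77e4) (nat_lit 937110096),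
  Rx.mk (nat_lit 302) (nat_lit 6) (nat_lit 5) (nat_lit 4) (nat_lit 3) (nat_lit 115) (nat_lit 100) r0_115 r1_100 (nat_lit 0) (nat_lit 0) (nat_lit 40000838) (nat_lit 0x7f4fca046) (nat_lit 589164150),
  Rx.mk (nat_lit 316) (nat_lit 4) (nat_lit 7) (nat_lit 4) (nat_lit 2) (nat_lit 118) (nat_lit 96) r0_118 r1_96 (nat_lit 49509170) (nat_lit 0) (nat_lit 236637976) (nat_lit 0x7c1ee06fe) (nat_lit 886572308),
  Rx.mk (nat_lit 318) (nat_lit 6) (nat_lit 7) (nat_lit 4) (nat_lit 3) (nat_lit 119) (nat_lit 101) r0_119 r1_101 (nat_lit 0) (nat_lit 0) (nat_lit 43159532) (nat_lit 0x7fa01c38c) (nat_lit 587329944),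
  Rx.mk (nat_lit 422) (nat_lit 6) (nat_lit 4) (nat_lit 6) (nat_lit 5) (nat_lit 113) (nat_lit 103) r0_113 r1_103 (nat_lit 0) (nat_lit 24548730) (nat_lit 0) (nat_lit 0x78780d94c) (nat_lit 683979642),
  Rx.mk (nat_lit 430) (nat_lit 6) (nat_lit 5) (nat_lit 6) (nat_lit 7) (nat_lit 116) (nat_lit 104) r0_116 r1_104 (nat_lit 0) (nat_lit 0) (nat_lit 0) (nat_lit 0x8008586c6) (nat_lit 537803512),
  Rx.mk (nat_lit 438) (nat_lit 6) (nat_lit 6) (nat_lit 6) (nat_lit 7) (nat_lit 117) (nat_lit 106) r0_117 r1_106 (nat_lit 0) (nat_lit 0) (nat_lit 0) (nat_lit 0x8008e1958) (nat_lit 537770662),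
  Rx.mk (nat_lit 446) (nat_lit 6) (nat_lit 7) (nat_lit 6) (nat_lit 7) (nat_lit 120) (nat_lit 105) r0_120 r1_105 (nat_lit 0) (nat_lit 0) (nat_lit 0) (nat_lit 0x8017985b4) (nat_lit 536870912),
  Rx.mk (nat_lit 508) (nat_lit 4) (nat_lit 7) (nat_lit 7) (nat_lit 6) (nat_lit 121) (nat_lit 97) r0_121 r1_97 (nat_lit 26465750) (nat_lit 0) (nat_lit 0) (nat_lit 0x7f8d66de6) (nat_lit 571814812),
  Rx.mk (nat_lit 510) (nat_lit 6) (nat_lit 7) (nat_lit 7) (nat_lit 7) (nat_lit 122) (nat_lit 102) r0_122 r1_102 (nat_lit 0) (nat_lit 0) (nat_lit 0) (nat_lit 0x8017985b4) (nat_lit 536870912),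
  Rx.mk (nat_lit 511) (nat_lit 7) (nat_lit 7) (nat_lit 7) (nat_lit 7) (nat_lit 123) (nat_lit 98) r0_123 r1_98 (nat_lit 0) (nat_lit 0) (nat_lit 0) (nat_lit 0x8017985b4) (nat_lit 536870912)]
noncomputable def e38_46 : List Rx := [
  Rx.mk (nat_lit 300) (nat_lit 4) (nat_lit 5) (nat_lit 4) (nat_lit 2) (nat_lit 254) (nat_lit 98) r0_254 r2_98 (nat_lit 32319873) (nat_lit 0) (nat_lit 169414750) (nat_lit 0x5d7f70754) (nat_lit 1297226585),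
  Rx.mk (nat_lit 302) (nat_lit 6) (nat_lit 5) (nat_lit 4) (nat_lit 3) (nat_lit 255) (nat_lit 99) r0_255 r2_99 (nat_lit 0) (nat_lit 0) (nat_lit 31094968) (nat_lit 0x7d34113e2) (nat_lit 614066280),
  Rx.mk (nat_lit 430) (nat_lit 6) (nat_lit 5) (nat_lit 6) (nat_lit 7) (nat_lit 256) (nat_lit 100) r0_256 r2_100 (nat_lit 0) (nat_lit 0) (nat_lit 0) (nat_lit 0x8017985b4) (nat_lit 536870912)]
noncomputable def e38_47 : List Rx := [
  Rx.mk (nat_lit 178) (nat_lit 2) (nat_lit 6) (nat_lit 2) (nat_lit 7) (nat_lit 132) (nat_lit 12) r0_132 r8_12 (nat_lit 0) (nat_lit 0) (nat_lit 0) (nat_lit 0x8017985b4) (nat_lit 536870912),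
  Rx.mk (nat_lit 292) (nat_lit 4) (nat_lit 4) (nat_lit 4) (nat_lit 0) (nat_lit 124) (nat_lit 0) r0_124 r8_0 (nat_lit 11031913) (nat_lit 7939868) (nat_lit 37018604) (nat_lit 0x2f3402ffc) (nat_lit 1899960047),
  Rx.mk (nat_lit 294) (nat_lit 6) (nat_lit 4) (nat_lit 4) (nat_lit 1) (nat_lit 125) (nat_lit 1) r0_125 r8_1 (nat_lit 0) (nat_lit 26421063) (nat_lit 43759254) (nat_lit 0x5ccc534e6) (nat_lit 1176984379),
  Rx.mk (nat_lit 300) (nat_lit 4) (nat_lit 5) (nat_lit 4) (nat_lit 2) (nat_lit 127) (nat_lit 3) r0_127 r8_3 (nat_lit 32206150) (nat_lit 0) (nat_lit 82416712) (nat_lit 0x66c0ffdc4) (nat_lit 1060452374),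
  Rx.mk (nat_lit 302) (nat_lit 6) (nat_lit 5) (nat_lit 4) (nat_lit 3) (nat_lit 128) (nat_lit 4) r0_128 r8_4 (nat_lit 0) (nat_lit 0) (nat_lit 28052384) (nat_lit 0x7ecc55e04) (nat_lit 585422396),
  Rx.mk (nat_lit 316) (nat_lit 4) (nat_lit 7) (nat_lit 4) (nat_lit 2) (nat_lit 133) (nat_lit 6) r0_133 r8_6 (nat_lit 35479035) (nat_lit 0) (nat_lit 54286075) (nat_lit 0x62e45b6c8) (nat_lit 1098022322),
  Rx.mk (nat_lit 318) (nat_lit 6) (nat_lit 7) (nat_lit 4) (nat_lit 3) (nat_lit 134) (nat_lit 7) r0_134 r8_7 (nat_lit 0) (nat_lit 0) (nat_lit 28597756) (nat_lit 0x7fab4f40c) (nat_lit 572118568),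
  Rx.mk (nat_lit 422) (nat_lit 6) (nat_lit 4) (nat_lit 6) (nat_lit 5) (nat_lit 126) (nat_lit 2) r0_126 r8_2 (nat_lit 0) (nat_lit 19040660) (nat_lit 0) (nat_lit 0x6f984888c) (nat_lit 821904322),
  Rx.mk (nat_lit 430) (nat_lit 6) (nat_lit 5) (nat_lit 6) (nat_lit 7) (nat_lit 129) (nat_lit 5) r0_129 r8_5 (nat_lit 0) (nat_lit 0) (nat_lit 0) (nat_lit 0x7feae9d88) (nat_lit 539601062),
  Rx.mk (nat_lit 434) (nat_lit 2) (nat_lit 6) (nat_lit 6) (nat_lit 7) (nat_lit 131) (nat_lit 13) r0_131 r8_13 (nat_lit 0) (nat_lit 0) (nat_lit 0) (nat_lit 0x8017985b4) (nat_lit 536870912),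
  Rx.mk (nat_lit 438) (nat_lit 6) (nat_lit 6) (nat_lit 6) (nat_lit 7) (nat_lit 130) (nat_lit 14) r0_130 r8_14 (nat_lit 0) (nat_lit 0) (nat_lit 0) (nat_lit 0x7fa4b61a4) (nat_lit 543932912),
  Rx.mk (nat_lit 446) (nat_lit 6) (nat_lit 7) (nat_lit 6) (nat_lit 7) (nat_lit 135) (nat_lit 11) r0_135 r8_11 (nat_lit 0) (nat_lit 0) (nat_lit 0) (nat_lit 0x7ffc6e694) (nat_lit 538526762),
  Rx.mk (nat_lit 508) (nat_lit 4) (nat_lit 7) (nat_lit 7) (nat_lit 6) (nat_lit 136) (nat_lit 8) r0_136 r8_8 (nat_lit 31117367) (nat_lit 0) (nat_lit 0) (nat_lit 0x7e047cca2) (nat_lit 600994729),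
  Rx.mk (nat_lit 510) (nat_lit 6) (nat_lit 7) (nat_lit 7) (nat_lit 7) (nat_lit 137) (nat_lit 10) r0_137 r8_10 (nat_lit 0) (nat_lit 0) (nat_lit 0) (nat_lit 0x8017985b4) (nat_lit 536870912),
  Rx.mk (nat_lit 511) (nat_lit 7) (nat_lit 7) (nat_lit 7) (nat_lit 7) (nat_lit 138) (nat_lit 9) r0_138 r8_9 (nat_lit 0) (nat_lit 0) (nat_lit 0) (nat_lit 0x8017985b4) (nat_lit 536870912)]
noncomputable def e38_48 : List Rx := [
  Rx.mk (nat_lit 300) (nat_lit 4) (nat_lit 5) (nat_lit 4) (nat_lit 2) (nat_lit 262) (nat_lit 65) r0_262 r9_65 (nat_lit 35271211) (nat_lit 0) (nat_lit 111519439) (nat_lit 0x580e92528) (nat_lit 1330276712),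
  Rx.mk (nat_lit 302) (nat_lit 6) (nat_lit 5) (nat_lit 4) (nat_lit 3) (nat_lit 263) (nat_lit 66) r0_263 r9_66 (nat_lit 0) (nat_lit 0) (nat_lit 42181634) (nat_lit 0x7bc61b1a4) (nat_lit 648220246),
  Rx.mk (nat_lit 430) (nat_lit 6) (nat_lit 5) (nat_lit 6) (nat_lit 7) (nat_lit 264) (nat_lit 67) r0_264 r9_67 (nat_lit 0) (nat_lit 0) (nat_lit 0) (nat_lit 0x7fcef5a96) (nat_lit 541322112)]
noncomputable def e38_49 : List Rx := [
  Rx.mk (nat_lit 300) (nat_lit 4) (nat_lit 5) (nat_lit 4) (nat_lit 2) (nat_lit 257) (nat_lit 155) r0_257 r9_155 (nat_lit 49590700) (nat_lit 0) (nat_lit 41159980) (nat_lit 0x50d4cab80) (nat_lit 1391082492),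
  Rx.mk (nat_lit 302) (nat_lit 6) (nat_lit 5) (nat_lit 4) (nat_lit 3) (nat_lit 258) (nat_lit 156) r0_258 r9_156 (nat_lit 0) (nat_lit 0) (nat_lit 30127539) (nat_lit 0x7a85fc8e4) (nat_lit 656361051),
  Rx.mk (nat_lit 364) (nat_lit 4) (nat_lit 5) (nat_lit 5) (nat_lit 6) (nat_lit 259) (nat_lit 157) r0_259 r9_157 (nat_lit 28301978) (nat_lit 0) (nat_lit 0) (nat_lit 0x71f06598c) (nat_lit 793284240),
  Rx.mk (nat_lit 366) (nat_lit 6) (nat_lit 5) (nat_lit 5) (nat_lit 7) (nat_lit 260) (nat_lit 158) r0_260 r9_158 (nat_lit 0) (nat_lit 0) (nat_lit 0) (nat_lit 0x7fffa9a3e) (nat_lit 538336962),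
  Rx.mk (nat_lit 430) (nat_lit 6) (nat_lit 5) (nat_lit 6) (nat_lit 7) (nat_lit 261) (nat_lit 159) r0_261 r9_159 (nat_lit 0) (nat_lit 0) (nat_lit 0) (nat_lit 0x800dc4ccc) (nat_lit 537471612)]
noncomputable def e38_50 : List Rx := [
  Rx.mk (nat_lit 199) (nat_lit 7) (nat_lit 0) (nat_lit 3) (nat_lit 5) (nat_lit 48) (nat_lit 95) r0_48 r3_95 (nat_lit 0) (nat_lit 48839) (nat_lit 0) (nat_lit 0x6e7903e32) (nat_lit 820364901),
  Rx.mk (nat_lit 223) (nat_lit 7) (nat_lit 3) (nat_lit 3) (nat_lit 7) (nat_lit 51) (nat_lit 96) r0_51 r3_96 (nat_lit 0) (nat_lit 0) (nat_lit 0) (nat_lit 0x7f14b983a) (nat_lit 552804862),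
  Rx.mk (nat_lit 316) (nat_lit 4) (nat_lit 7) (nat_lit 4) (nat_lit 2) (nat_lit 43) (nat_lit 91) r0_43 r3_91 (nat_lit 966) (nat_lit 0) (nat_lit 2481) (nat_lit 0x82288f6ae) (nat_lit 503955459),
  Rx.mk (nat_lit 318) (nat_lit 6) (nat_lit 7) (nat_lit 4) (nat_lit 3) (nat_lit 44) (nat_lit 97) r0_44 r3_97 (nat_lit 0) (nat_lit 0) (nat_lit 7927509) (nat_lit 0x72604c6ec) (nat_lit 765358121),
  Rx.mk (nat_lit 446) (nat_lit 6) (nat_lit 7) (nat_lit 6) (nat_lit 7) (nat_lit 45) (nat_lit 99) r0_45 r3_99 (nat_lit 0) (nat_lit 0) (nat_lit 0) (nat_lit 0x789a9bc84) (nat_lit 657134512),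
  Rx.mk (nat_lit 476) (nat_lit 4) (nat_lit 3) (nat_lit 7) (nat_lit 6) (nat_lit 49) (nat_lit 93) r0_49 r3_93 (nat_lit 12614) (nat_lit 0) (nat_lit 0) (nat_lit 0x7ff74418c) (nat_lit 537440126),
  Rx.mk (nat_lit 479) (nat_lit 7) (nat_lit 3) (nat_lit 7) (nat_lit 7) (nat_lit 50) (nat_lit 94) r0_50 r3_94 (nat_lit 0) (nat_lit 0) (nat_lit 0) (nat_lit 0x803739724) (nat_lit 534831362),
  Rx.mk (nat_lit 508) (nat_lit 4) (nat_lit 7) (nat_lit 7) (nat_lit 6) (nat_lit 46) (nat_lit 92) r0_46 r3_92 (nat_lit 1916670) (nat_lit 0) (nat_lit 0) (nat_lit 0x7bfb383c8) (nat_lit 604200682),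
  Rx.mk (nat_lit 510) (nat_lit 6) (nat_lit 7) (nat_lit 7) (nat_lit 7) (nat_lit 47) (nat_lit 98) r0_47 r3_98 (nat_lit 0) (nat_lit 0) (nat_lit 0) (nat_lit 0x7c1fb6a38) (nat_lit 600372212)]
noncomputable def e38_51 : List Rx := [
  Rx.mk (nat_lit 316) (nat_lit 4) (nat_lit 7) (nat_lit 4) (nat_lit 2) (nat_lit 142) (nat_lit 93) r0_142 r4_93 (nat_lit 1138602) (nat_lit 0) (nat_lit 206617785) (nat_lit 0x685ba0238) (nat_lit 1127160549),
  Rx.mk (nat_lit 318) (nat_lit 6) (nat_lit 7) (nat_lit 4) (nat_lit 3) (nat_lit 143) (nat_lit 95) r0_143 r4_95 (nat_lit 0) (nat_lit 0) (nat_lit 128366738) (nat_lit 0x7fb918d0e) (nat_lit 670781900),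
  Rx.mk (nat_lit 446) (nat_lit 6) (nat_lit 7) (nat_lit 6) (nat_lit 7) (nat_lit 144) (nat_lit 97) r0_144 r4_97 (nat_lit 0) (nat_lit 0) (nat_lit 0) (nat_lit 0x7fd67623e) (nat_lit 540864312),
  Rx.mk (nat_lit 508) (nat_lit 4) (nat_lit 7) (nat_lit 7) (nat_lit 6) (nat_lit 145) (nat_lit 94) r0_145 r4_94 (nat_lit 15006223) (nat_lit 0) (nat_lit 0) (nat_lit 0x7cc837842) (nat_lit 604752435),
  Rx.mk (nat_lit 510) (nat_lit 6) (nat_lit 7) (nat_lit 7) (nat_lit 7) (nat_lit 146) (nat_lit 96) r0_146 r4_96 (nat_lit 0) (nat_lit 0) (nat_lit 0) (nat_lit 0x801c7c06c) (nat_lit 536515262)]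
noncomputable def e38_52 : List Rx := [
  Rx.mk (nat_lit 199) (nat_lit 7) (nat_lit 0) (nat_lit 3) (nat_lit 5) (nat_lit 208) (nat_lit 99) r0_208 r5_99 (nat_lit 0) (nat_lit 9650169) (nat_lit 0) (nat_lit 0x70202c884) (nat_lit 803847431),
  Rx.mk (nat_lit 284) (nat_lit 4) (nat_lit 3) (nat_lit 4) (nat_lit 2) (nat_lit 209) (nat_lit 95) r0_209 r5_95 (nat_lit 14014) (nat_lit 0) (nat_lit 20620) (nat_lit 0x76e524eec) (nat_lit 684143846),
  Rx.mk (nat_lit 316) (nat_lit 4) (nat_lit 7) (nat_lit 4) (nat_lit 2) (nat_lit 204) (nat_lit 94) r0_204 r5_94 (nat_lit 46998) (nat_lit 0) (nat_lit 538423) (nat_lit 0x84bca4798) (nat_lit 465237583),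
  Rx.mk (nat_lit 318) (nat_lit 6) (nat_lit 7) (nat_lit 4) (nat_lit 3) (nat_lit 205) (nat_lit 100) r0_205 r5_100 (nat_lit 0) (nat_lit 0) (nat_lit 331782363) (nat_lit 0x7cda33514) (nat_lit 920285625),
  Rx.mk (nat_lit 446) (nat_lit 6) (nat_lit 7) (nat_lit 6) (nat_lit 7) (nat_lit 206) (nat_lit 101) r0_206 r5_101 (nat_lit 0) (nat_lit 0) (nat_lit 0) (nat_lit 0x67513425a) (nat_lit 936576412),
  Rx.mk (nat_lit 455) (nat_lit 7) (nat_lit 0) (nat_lit 7) (nat_lit 5) (nat_lit 207) (nat_lit 97) r0_207 r5_97 (nat_lit 0) (nat_lit 10938667) (nat_lit 0) (nat_lit 0x6b03cd2ce) (nat_lit 887781329),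
  Rx.mk (nat_lit 476) (nat_lit 4) (nat_lit 3) (nat_lit 7) (nat_lit 6) (nat_lit 210) (nat_lit 96) r0_210 r5_96 (nat_lit 6178764) (nat_lit 0) (nat_lit 0) (nat_lit 0x7f794ecf0) (nat_lit 552570776),
  Rx.mk (nat_lit 479) (nat_lit 7) (nat_lit 3) (nat_lit 7) (nat_lit 7) (nat_lit 211) (nat_lit 98) r0_211 r5_98 (nat_lit 0) (nat_lit 0) (nat_lit 0) (nat_lit 0x8017985b4) (nat_lit 536870912)]
noncomputable def e38_53 : List Rx := [
  Rx.mk (nat_lit 19) (nat_lit 3) (nat_lit 2) (nat_lit 0) (nat_lit 3) (nat_lit 59) (nat_lit 5) r0_59 r4_5 (nat_lit 0) (nat_lit 0) (nat_lit 82674763) (nat_lit 0x7746f3588) (nat_lit 761260075),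
  Rx.mk (nat_lit 147) (nat_lit 3) (nat_lit 2) (nat_lit 2) (nat_lit 7) (nat_lit 60) (nat_lit 7) r0_60 r4_7 (nat_lit 0) (nat_lit 0) (nat_lit 0) (nat_lit 0x7f7512f6a) (nat_lit 546825312),
  Rx.mk (nat_lit 195) (nat_lit 3) (nat_lit 0) (nat_lit 3) (nat_lit 5) (nat_lit 58) (nat_lit 0) r0_58 r4_0 (nat_lit 0) (nat_lit 5660977) (nat_lit 0) (nat_lit 0x6025939b8) (nat_lit 1058125439),
  Rx.mk (nat_lit 199) (nat_lit 7) (nat_lit 0) (nat_lit 3) (nat_lit 5) (nat_lit 57) (nat_lit 1) r0_57 r4_1 (nat_lit 0) (nat_lit 13925368) (nat_lit 0) (nat_lit 0x7d011df30) (nat_lit 600028230),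
  Rx.mk (nat_lit 211) (nat_lit 3) (nat_lit 2) (nat_lit 3) (nat_lit 7) (nat_lit 61) (nat_lit 6) r0_61 r4_6 (nat_lit 0) (nat_lit 0) (nat_lit 0) (nat_lit 0x7f2c10cae) (nat_lit 551161962),
  Rx.mk (nat_lit 223) (nat_lit 7) (nat_lit 3) (nat_lit 3) (nat_lit 7) (nat_lit 64) (nat_lit 2) r0_64 r4_2 (nat_lit 0) (nat_lit 0) (nat_lit 0) (nat_lit 0x80a6ddf44) (nat_lit 528084262),
  Rx.mk (nat_lit 316) (nat_lit 4) (nat_lit 7) (nat_lit 4) (nat_lit 2) (nat_lit 52) (nat_lit 8) r0_52 r4_8 (nat_lit 6694296) (nat_lit 0) (nat_lit 22112455) (nat_lit 0x63f406554) (nat_lit 1019765813),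
  Rx.mk (nat_lit 318) (nat_lit 6) (nat_lit 7) (nat_lit 4) (nat_lit 3) (nat_lit 53) (nat_lit 9) r0_53 r4_9 (nat_lit 0) (nat_lit 0) (nat_lit 74749020) (nat_lit 0x751698fde) (nat_lit 788742832),
  Rx.mk (nat_lit 446) (nat_lit 6) (nat_lit 7) (nat_lit 6) (nat_lit 7) (nat_lit 54) (nat_lit 12) r0_54 r4_12 (nat_lit 0) (nat_lit 0) (nat_lit 0) (nat_lit 0x76aa13858) (nat_lit 688374962),
  Rx.mk (nat_lit 476) (nat_lit 4) (nat_lit 3) (nat_lit 7) (nat_lit 6) (nat_lit 62) (nat_lit 3) r0_62 r4_3 (nat_lit 11579015) (nat_lit 0) (nat_lit 0) (nat_lit 0x7fd79e04e) (nat_lit 552249627),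
  Rx.mk (nat_lit 479) (nat_lit 7) (nat_lit 3) (nat_lit 7) (nat_lit 7) (nat_lit 63) (nat_lit 4) r0_63 r4_4 (nat_lit 0) (nat_lit 0) (nat_lit 0) (nat_lit 0x804ed3af6) (nat_lit 533452762),
  Rx.mk (nat_lit 508) (nat_lit 4) (nat_lit 7) (nat_lit 7) (nat_lit 6) (nat_lit 55) (nat_lit 10) r0_55 r4_10 (nat_lit 12464414) (nat_lit 0) (nat_lit 0) (nat_lit 0x7d1fc1338) (nat_lit 596680676),
  Rx.mk (nat_lit 510) (nat_lit 6) (nat_lit 7) (nat_lit 7) (nat_lit 7) (nat_lit 56) (nat_lit 11) r0_56 r4_11 (nat_lit 0) (nat_lit 0) (nat_lit 0) (nat_lit 0x8071443a6) (nat_lit 531356412)]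
noncomputable def e38_54 : List Rx := [
  Rx.mk (nat_lit 316) (nat_lit 4) (nat_lit 7) (nat_lit 4) (nat_lit 2) (nat_lit 147) (nat_lit 77) r0_147 r10_77 (nat_lit 2583088) (nat_lit 0) (nat_lit 5072318) (nat_lit 0x6af50b056) (nat_lit 885195018),
  Rx.mk (nat_lit 318) (nat_lit 6) (nat_lit 7) (nat_lit 4) (nat_lit 3) (nat_lit 148) (nat_lit 79) r0_148 r10_79 (nat_lit 0) (nat_lit 0) (nat_lit 61676723) (nat_lit 0x7d6a0fc8c) (nat_lit 641243735),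
  Rx.mk (nat_lit 446) (nat_lit 6) (nat_lit 7) (nat_lit 6) (nat_lit 7) (nat_lit 149) (nat_lit 81) r0_149 r10_81 (nat_lit 0) (nat_lit 0) (nat_lit 0) (nat_lit 0x7fef30450) (nat_lit 539335212),
  Rx.mk (nat_lit 508) (nat_lit 4) (nat_lit 7) (nat_lit 7) (nat_lit 6) (nat_lit 150) (nat_lit 78) r0_150 r10_78 (nat_lit 21612680) (nat_lit 0) (nat_lit 0) (nat_lit 0x79ca6153a) (nat_lit 659669742),
  Rx.mk (nat_lit 510) (nat_lit 6) (nat_lit 7) (nat_lit 7) (nat_lit 7) (nat_lit 151) (nat_lit 80) r0_151 r10_80 (nat_lit 0) (nat_lit 0) (nat_lit 0) (nat_lit 0x7fba6e0c8) (nat_lit 542601512)]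
noncomputable def e38_55 : List Rx := [
  Rx.mk (nat_lit 195) (nat_lit 3) (nat_lit 0) (nat_lit 3) (nat_lit 5) (nat_lit 217) (nat_lit 99) r0_217 r11_99 (nat_lit 0) (nat_lit 11279401) (nat_lit 0) (nat_lit 0x78e6c8c2e) (nat_lit 663631063),
  Rx.mk (nat_lit 199) (nat_lit 7) (nat_lit 0) (nat_lit 3) (nat_lit 5) (nat_lit 216) (nat_lit 96) r0_216 r11_96 (nat_lit 0) (nat_lit 12688314) (nat_lit 0) (nat_lit 0x803b0d346) (nat_lit 547294026),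
  Rx.mk (nat_lit 211) (nat_lit 3) (nat_lit 2) (nat_lit 3) (nat_lit 7) (nat_lit 218) (nat_lit 100) r0_218 r11_100 (nat_lit 0) (nat_lit 0) (nat_lit 0) (nat_lit 0x81065e126) (nat_lit 522185862),
  Rx.mk (nat_lit 284) (nat_lit 4) (nat_lit 3) (nat_lit 4) (nat_lit 2) (nat_lit 219) (nat_lit 92) r0_219 r11_92 (nat_lit 7944298) (nat_lit 0) (nat_lit 9949213) (nat_lit 0x6fc82cfd0) (nat_lit 817619223),
  Rx.mk (nat_lit 316) (nat_lit 4) (nat_lit 7) (nat_lit 4) (nat_lit 2) (nat_lit 212) (nat_lit 91) r0_212 r11_91 (nat_lit 18712504) (nat_lit 0) (nat_lit 170327518) (nat_lit 0x72fa2386a) (nat_lit 937148384),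
  Rx.mk (nat_lit 318) (nat_lit 6) (nat_lit 7) (nat_lit 4) (nat_lit 3) (nat_lit 213) (nat_lit 97) r0_213 r11_97 (nat_lit 0) (nat_lit 0) (nat_lit 153834335) (nat_lit 0x7ce2c9da4) (nat_lit 741924097),
  Rx.mk (nat_lit 446) (nat_lit 6) (nat_lit 7) (nat_lit 6) (nat_lit 7) (nat_lit 214) (nat_lit 98) r0_214 r11_98 (nat_lit 0) (nat_lit 0) (nat_lit 0) (nat_lit 0x8056e7ad0) (nat_lit 532778862),
  Rx.mk (nat_lit 455) (nat_lit 7) (nat_lit 0) (nat_lit 7) (nat_lit 5) (nat_lit 215) (nat_lit 94) r0_215 r11_94 (nat_lit 0) (nat_lit 14894858) (nat_lit 0) (nat_lit 0x800926332) (nat_lit 552590770),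
  Rx.mk (nat_lit 476) (nat_lit 4) (nat_lit 3) (nat_lit 7) (nat_lit 6) (nat_lit 220) (nat_lit 93) r0_220 r11_93 (nat_lit 15086968) (nat_lit 0) (nat_lit 0) (nat_lit 0x80b26ae3e) (nat_lit 542475880),
  Rx.mk (nat_lit 479) (nat_lit 7) (nat_lit 3) (nat_lit 7) (nat_lit 7) (nat_lit 221) (nat_lit 95) r0_221 r11_95 (nat_lit 0) (nat_lit 0) (nat_lit 0) (nat_lit 0x805e5975a) (nat_lit 532528962)]
noncomputable def e38_56 : List Rx := [
  Rx.mk (nat_lit 199) (nat_lit 7) (nat_lit 0) (nat_lit 3) (nat_lit 5) (nat_lit 67) (nat_lit 0) r0_67 r5_0 (nat_lit 0) (nat_lit 3027604) (nat_lit 0) (nat_lit 0x6b9390500) (nat_lit 870600266),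
  Rx.mk (nat_lit 220) (nat_lit 4) (nat_lit 3) (nat_lit 3) (nat_lit 6) (nat_lit 69) (nat_lit 1) r0_69 r5_1 (nat_lit 3947515) (nat_lit 0) (nat_lit 0) (nat_lit 0x65de79e82) (nat_lit 963893527),
  Rx.mk (nat_lit 223) (nat_lit 7) (nat_lit 3) (nat_lit 3) (nat_lit 7) (nat_lit 70) (nat_lit 2) r0_70 r5_2 (nat_lit 0) (nat_lit 0) (nat_lit 0) (nat_lit 0x7d9d38000) (nat_lit 576358762),
  Rx.mk (nat_lit 476) (nat_lit 4) (nat_lit 3) (nat_lit 7) (nat_lit 6) (nat_lit 68) (nat_lit 3) r0_68 r5_3 (nat_lit 2967474) (nat_lit 0) (nat_lit 0) (nat_lit 0x6ee61820c) (nat_lit 816847386),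
  Rx.mk (nat_lit 508) (nat_lit 4) (nat_lit 7) (nat_lit 7) (nat_lit 6) (nat_lit 65) (nat_lit 4) r0_65 r5_4 (nat_lit 5300773) (nat_lit 0) (nat_lit 0) (nat_lit 0x744841172) (nat_lit 732209835),
  Rx.mk (nat_lit 510) (nat_lit 6) (nat_lit 7) (nat_lit 7) (nat_lit 7) (nat_lit 66) (nat_lit 5) r0_66 r5_5 (nat_lit 0) (nat_lit 0) (nat_lit 0) (nat_lit 0x7e757e964) (nat_lit 562790112)]
noncomputable def e38_57 : List Rx := [
  Rx.mk (nat_lit 508) (nat_lit 4) (nat_lit 7) (nat_lit 7) (nat_lit 6) (nat_lit 152) (nat_lit 0) r0_152 r11_0 (nat_lit 24142843) (nat_lit 0) (nat_lit 0) (nat_lit 0x7ecf6cf52) (nat_lit 581323155),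
  Rx.mk (nat_lit 510) (nat_lit 6) (nat_lit 7) (nat_lit 7) (nat_lit 7) (nat_lit 153) (nat_lit 1) r0_153 r11_1 (nat_lit 0) (nat_lit 0) (nat_lit 0) (nat_lit 0x80194a9fc) (nat_lit 536773062)]
noncomputable def e38 : List (List Rx) := [e38_0, e38_1, e38_2, e38_3, e38_4, e38_5, e38_6, e38_7, e38_8, e38_9, e38_10, e38_11, e38_12, e38_13, e38_14, e38_15, e38_16, e38_17, e38_18, e38_19, e38_20, e38_21, e38_22, e38_23, e38_24, e38_25, e38_26, e38_27, e38_28, e38_29, e38_30, e38_31, e38_32, e38_33, e38_34, e38_35, e38_36, e38_37, e38_38, e38_39, e38_40, e38_41, e38_42, e38_43, e38_44, e38_45, e38_46, e38_47, e38_48, e38_49, e38_50, e38_51, e38_52, e38_53, e38_54, e38_55, e38_56, e38_57]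
noncomputable def e39_0 : List Rx := [
  Rx.mk (nat_lit 5) (nat_lit 5) (nat_lit 0) (nat_lit 0) (nat_lit 1) (nat_lit 315) (nat_lit 250) r7_315 r0_250 (nat_lit 0) (nat_lit 24992992) (nat_lit 18636919) (nat_lit 0x67a63621c) (nat_lit 974858673),
  Rx.mk (nat_lit 13) (nat_lit 5) (nat_lit 1) (nat_lit 0) (nat_lit 3) (nat_lit 316) (nat_lit 252) r7_316 r0_252 (nat_lit 0) (nat_lit 0) (nat_lit 26788272) (nat_lit 0x7afd29426) (nat_lit 645521784),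
  Rx.mk (nat_lit 69) (nat_lit 5) (nat_lit 0) (nat_lit 1) (nat_lit 5) (nat_lit 317) (nat_lit 251) r7_317 r0_251 (nat_lit 0) (nat_lit 25925090) (nat_lit 0) (nat_lit 0x7f7ee0aba) (nat_lit 572200552),
  Rx.mk (nat_lit 77) (nat_lit 5) (nat_lit 1) (nat_lit 1) (nat_lit 7) (nat_lit 318) (nat_lit 253) r7_318 r0_253 (nat_lit 0) (nat_lit 0) (nat_lit 0) (nat_lit 0x80170d2ac) (nat_lit 536874862)]
noncomputable def e39_1 : List Rx := [
  Rx.mk (nat_lit 69) (nat_lit 5) (nat_lit 0) (nat_lit 1) (nat_lit 5) (nat_lit 397) (nat_lit 256) r7_397 r1_256 (nat_lit 0) (nat_lit 24741287) (nat_lit 0) (nat_lit 0x8017985b4) (nat_lit 561612199),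
  Rx.mk (nat_lit 77) (nat_lit 5) (nat_lit 1) (nat_lit 1) (nat_lit 7) (nat_lit 398) (nat_lit 257) r7_398 r1_257 (nat_lit 0) (nat_lit 0) (nat_lit 0) (nat_lit 0x8017985b4) (nat_lit 536870912)]
noncomputable def e39_2 : List Rx := [
  Rx.mk (nat_lit 77) (nat_lit 5) (nat_lit 1) (nat_lit 1) (nat_lit 7) (nat_lit 399) (nat_lit 284) r7_399 r2_284 (nat_lit 0) (nat_lit 0) (nat_lit 0) (nat_lit 0x8017985b4) (nat_lit 536870912),
  Rx.mk (nat_lit 333) (nat_lit 5) (nat_lit 1) (nat_lit 5) (nat_lit 7) (nat_lit 400) (nat_lit 285) r7_400 r2_285 (nat_lit 0) (nat_lit 0) (nat_lit 0) (nat_lit 0x8017985b4) (nat_lit 536870912)]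
noncomputable def e39_3 : List Rx := [
  Rx.mk (nat_lit 5) (nat_lit 5) (nat_lit 0) (nat_lit 0) (nat_lit 1) (nat_lit 412) (nat_lit 250) r7_412 r3_250 (nat_lit 0) (nat_lit 187444) (nat_lit 161216) (nat_lit 0x65b3d3f7a) (nat_lit 962509472),
  Rx.mk (nat_lit 13) (nat_lit 5) (nat_lit 1) (nat_lit 0) (nat_lit 3) (nat_lit 413) (nat_lit 252) r7_413 r3_252 (nat_lit 0) (nat_lit 0) (nat_lit 20900457) (nat_lit 0x7888ef68e) (nat_lit 679216269),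
  Rx.mk (nat_lit 197) (nat_lit 5) (nat_lit 0) (nat_lit 3) (nat_lit 5) (nat_lit 414) (nat_lit 251) r7_414 r3_251 (nat_lit 0) (nat_lit 1062796) (nat_lit 0) (nat_lit 0x7d66ce370) (nat_lit 580163308),
  Rx.mk (nat_lit 205) (nat_lit 5) (nat_lit 1) (nat_lit 3) (nat_lit 7) (nat_lit 415) (nat_lit 253) r7_415 r3_253 (nat_lit 0) (nat_lit 0) (nat_lit 0) (nat_lit 0x82218c4a6) (nat_lit 505206912)]
noncomputable def e39_4 : List Rx := [
  Rx.mk (nat_lit 5) (nat_lit 5) (nat_lit 0) (nat_lit 0) (nat_lit 1) (nat_lit 416) (nat_lit 265) r7_416 r4_265 (nat_lit 0) (nat_lit 26363677) (nat_lit 51960859) (nat_lit 0x6eea423dc) (nat_lit 892140698),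
  Rx.mk (nat_lit 13) (nat_lit 5) (nat_lit 1) (nat_lit 0) (nat_lit 3) (nat_lit 417) (nat_lit 268) r7_417 r4_268 (nat_lit 0) (nat_lit 0) (nat_lit 24741287) (nat_lit 0x8017985b4) (nat_lit 561612199),
  Rx.mk (nat_lit 69) (nat_lit 5) (nat_lit 0) (nat_lit 1) (nat_lit 5) (nat_lit 418) (nat_lit 266) r7_418 r4_266 (nat_lit 0) (nat_lit 24741287) (nat_lit 0) (nat_lit 0x8017985b4) (nat_lit 561612199),
  Rx.mk (nat_lit 77) (nat_lit 5) (nat_lit 1) (nat_lit 1) (nat_lit 7) (nat_lit 419) (nat_lit 269) r7_419 r4_269 (nat_lit 0) (nat_lit 0) (nat_lit 0) (nat_lit 0x8017985b4) (nat_lit 536870912),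
  Rx.mk (nat_lit 197) (nat_lit 5) (nat_lit 0) (nat_lit 3) (nat_lit 5) (nat_lit 420) (nat_lit 267) r7_420 r4_267 (nat_lit 0) (nat_lit 28981807) (nat_lit 0) (nat_lit 0x7fc4d7cda) (nat_lit 570932769),
  Rx.mk (nat_lit 205) (nat_lit 5) (nat_lit 1) (nat_lit 3) (nat_lit 7) (nat_lit 421) (nat_lit 270) r7_421 r4_270 (nat_lit 0) (nat_lit 0) (nat_lit 0) (nat_lit 0x8017985b4) (nat_lit 536870912)]
noncomputable def e39_5 : List Rx := [
  Rx.mk (nat_lit 197) (nat_lit 5) (nat_lit 0) (nat_lit 3) (nat_lit 5) (nat_lit 422) (nat_lit 256) r7_422 r5_256 (nat_lit 0) (nat_lit 10453794) (nat_lit 0) (nat_lit 0x7f320ae16) (nat_lit 561328856),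
  Rx.mk (nat_lit 205) (nat_lit 5) (nat_lit 1) (nat_lit 3) (nat_lit 7) (nat_lit 423) (nat_lit 257) r7_423 r5_257 (nat_lit 0) (nat_lit 0) (nat_lit 0) (nat_lit 0x811261be4) (nat_lit 521565112)]
noncomputable def e39_6 : List Rx := [
  Rx.mk (nat_lit 268) (nat_lit 4) (nat_lit 1) (nat_lit 4) (nat_lit 2) (nat_lit 52) (nat_lit 250) r7_52 r3_250 (nat_lit 187444) (nat_lit 0) (nat_lit 161216) (nat_lit 0x65b3d3f7a) (nat_lit 962509472),
  Rx.mk (nat_lit 269) (nat_lit 5) (nat_lit 1) (nat_lit 4) (nat_lit 3) (nat_lit 54) (nat_lit 252) r7_54 r3_252 (nat_lit 0) (nat_lit 0) (nat_lit 20900457) (nat_lit 0x7888ef68e) (nat_lit 679216269),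
  Rx.mk (nat_lit 460) (nat_lit 4) (nat_lit 1) (nat_lit 7) (nat_lit 6) (nat_lit 53) (nat_lit 251) r7_53 r3_251 (nat_lit 1062796) (nat_lit 0) (nat_lit 0) (nat_lit 0x7d66ce370) (nat_lit 580163308),
  Rx.mk (nat_lit 461) (nat_lit 5) (nat_lit 1) (nat_lit 7) (nat_lit 7) (nat_lit 55) (nat_lit 253) r7_55 r3_253 (nat_lit 0) (nat_lit 0) (nat_lit 0) (nat_lit 0x82218c4a6) (nat_lit 505206912)]
noncomputable def e39_7 : List Rx := [
  Rx.mk (nat_lit 268) (nat_lit 4) (nat_lit 1) (nat_lit 4) (nat_lit 2) (nat_lit 217) (nat_lit 250) r7_217 r0_250 (nat_lit 24992992) (nat_lit 0) (nat_lit 18636919) (nat_lit 0x67a63621c) (nat_lit 974858673),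
  Rx.mk (nat_lit 269) (nat_lit 5) (nat_lit 1) (nat_lit 4) (nat_lit 3) (nat_lit 219) (nat_lit 252) r7_219 r0_252 (nat_lit 0) (nat_lit 0) (nat_lit 26788272) (nat_lit 0x7afd29426) (nat_lit 645521784),
  Rx.mk (nat_lit 332) (nat_lit 4) (nat_lit 1) (nat_lit 5) (nat_lit 6) (nat_lit 218) (nat_lit 251) r7_218 r0_251 (nat_lit 25925090) (nat_lit 0) (nat_lit 0) (nat_lit 0x7f7ee0aba) (nat_lit 572200552),
  Rx.mk (nat_lit 333) (nat_lit 5) (nat_lit 1) (nat_lit 5) (nat_lit 7) (nat_lit 220) (nat_lit 253) r7_220 r0_253 (nat_lit 0) (nat_lit 0) (nat_lit 0) (nat_lit 0x80170d2ac) (nat_lit 536874862)]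
noncomputable def e39_8 : List Rx := [
  Rx.mk (nat_lit 332) (nat_lit 4) (nat_lit 1) (nat_lit 5) (nat_lit 6) (nat_lit 221) (nat_lit 256) r7_221 r1_256 (nat_lit 24741287) (nat_lit 0) (nat_lit 0) (nat_lit 0x8017985b4) (nat_lit 561612199),
  Rx.mk (nat_lit 333) (nat_lit 5) (nat_lit 1) (nat_lit 5) (nat_lit 7) (nat_lit 222) (nat_lit 257) r7_222 r1_257 (nat_lit 0) (nat_lit 0) (nat_lit 0) (nat_lit 0x8017985b4) (nat_lit 536870912)]
noncomputable def e39_9 : List Rx := [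
  Rx.mk (nat_lit 268) (nat_lit 4) (nat_lit 1) (nat_lit 4) (nat_lit 2) (nat_lit 223) (nat_lit 265) r7_223 r4_265 (nat_lit 26363677) (nat_lit 0) (nat_lit 51960859) (nat_lit 0x6eea423dc) (nat_lit 892140698),
  Rx.mk (nat_lit 269) (nat_lit 5) (nat_lit 1) (nat_lit 4) (nat_lit 3) (nat_lit 226) (nat_lit 268) r7_226 r4_268 (nat_lit 0) (nat_lit 0) (nat_lit 24741287) (nat_lit 0x8017985b4) (nat_lit 561612199),
  Rx.mk (nat_lit 332) (nat_lit 4) (nat_lit 1) (nat_lit 5) (nat_lit 6) (nat_lit 224) (nat_lit 266) r7_224 r4_266 (nat_lit 24741287) (nat_lit 0) (nat_lit 0) (nat_lit 0x8017985b4) (nat_lit 561612199),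
  Rx.mk (nat_lit 333) (nat_lit 5) (nat_lit 1) (nat_lit 5) (nat_lit 7) (nat_lit 227) (nat_lit 269) r7_227 r4_269 (nat_lit 0) (nat_lit 0) (nat_lit 0) (nat_lit 0x8017985b4) (nat_lit 536870912),
  Rx.mk (nat_lit 460) (nat_lit 4) (nat_lit 1) (nat_lit 7) (nat_lit 6) (nat_lit 225) (nat_lit 267) r7_225 r4_267 (nat_lit 28981807) (nat_lit 0) (nat_lit 0) (nat_lit 0x7fc4d7cda) (nat_lit 570932769),
  Rx.mk (nat_lit 461) (nat_lit 5) (nat_lit 1) (nat_lit 7) (nat_lit 7) (nat_lit 228) (nat_lit 270) r7_228 r4_270 (nat_lit 0) (nat_lit 0) (nat_lit 0) (nat_lit 0x8017985b4) (nat_lit 536870912)]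
noncomputable def e39_10 : List Rx := [
  Rx.mk (nat_lit 197) (nat_lit 5) (nat_lit 0) (nat_lit 3) (nat_lit 5) (nat_lit 282) (nat_lit 282) r7_282 r6_282 (nat_lit 0) (nat_lit 10459655) (nat_lit 0) (nat_lit 0x80ee2cb7a) (nat_lit 534173067),
  Rx.mk (nat_lit 204) (nat_lit 4) (nat_lit 1) (nat_lit 3) (nat_lit 6) (nat_lit 280) (nat_lit 280) r7_280 r6_280 (nat_lit 8941730) (nat_lit 0) (nat_lit 0) (nat_lit 0x81ee95fca) (nat_lit 517221742),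
  Rx.mk (nat_lit 205) (nat_lit 5) (nat_lit 1) (nat_lit 3) (nat_lit 7) (nat_lit 283) (nat_lit 284) r7_283 r6_284 (nat_lit 0) (nat_lit 0) (nat_lit 0) (nat_lit 0x80830e500) (nat_lit 530283612),
  Rx.mk (nat_lit 453) (nat_lit 5) (nat_lit 0) (nat_lit 7) (nat_lit 5) (nat_lit 284) (nat_lit 283) r7_284 r6_283 (nat_lit 0) (nat_lit 8941730) (nat_lit 0) (nat_lit 0x81ee95fca) (nat_lit 517221742),
  Rx.mk (nat_lit 460) (nat_lit 4) (nat_lit 1) (nat_lit 7) (nat_lit 6) (nat_lit 281) (nat_lit 281) r7_281 r6_281 (nat_lit 10459655) (nat_lit 0) (nat_lit 0) (nat_lit 0x80ee2cb7a) (nat_lit 534173067),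
  Rx.mk (nat_lit 461) (nat_lit 5) (nat_lit 1) (nat_lit 7) (nat_lit 7) (nat_lit 285) (nat_lit 285) r7_285 r6_285 (nat_lit 0) (nat_lit 0) (nat_lit 0) (nat_lit 0x80830e500) (nat_lit 530283612)]
noncomputable def e39_11 : List Rx := [
  Rx.mk (nat_lit 460) (nat_lit 4) (nat_lit 1) (nat_lit 7) (nat_lit 6) (nat_lit 286) (nat_lit 256) r7_286 r5_256 (nat_lit 10453794) (nat_lit 0) (nat_lit 0) (nat_lit 0x7f320ae16) (nat_lit 561328856),
  Rx.mk (nat_lit 461) (nat_lit 5) (nat_lit 1) (nat_lit 7) (nat_lit 7) (nat_lit 287) (nat_lit 257) r7_287 r5_257 (nat_lit 0) (nat_lit 0) (nat_lit 0) (nat_lit 0x811261be4) (nat_lit 521565112)]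
noncomputable def e39_12 : List Rx := [
  Rx.mk (nat_lit 1) (nat_lit 1) (nat_lit 0) (nat_lit 0) (nat_lit 1) (nat_lit 319) (nat_lit 178) r7_319 r0_178 (nat_lit 0) (nat_lit 5394699) (nat_lit 10270932) (nat_lit 0x5fa366a58) (nat_lit 1076368243),
  Rx.mk (nat_lit 5) (nat_lit 5) (nat_lit 0) (nat_lit 0) (nat_lit 1) (nat_lit 325) (nat_lit 177) r7_325 r0_177 (nat_lit 0) (nat_lit 3400781) (nat_lit 7378942) (nat_lit 0x545558bfa) (nat_lit 1254182035),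
  Rx.mk (nat_lit 9) (nat_lit 1) (nat_lit 1) (nat_lit 0) (nat_lit 3) (nat_lit 320) (nat_lit 180) r7_320 r0_180 (nat_lit 0) (nat_lit 0) (nat_lit 23289893) (nat_lit 0x7d8545704) (nat_lit 601157455),
  Rx.mk (nat_lit 13) (nat_lit 5) (nat_lit 1) (nat_lit 0) (nat_lit 3) (nat_lit 326) (nat_lit 179) r7_326 r0_179 (nat_lit 0) (nat_lit 0) (nat_lit 10961872) (nat_lit 0x71abf8114) (nat_lit 780182384),
  Rx.mk (nat_lit 17) (nat_lit 1) (nat_lit 2) (nat_lit 0) (nat_lit 3) (nat_lit 321) (nat_lit 181) r7_321 r0_181 (nat_lit 0) (nat_lit 0) (nat_lit 39572657) (nat_lit 0x7fce955ba) (nat_lit 580469619),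
  Rx.mk (nat_lit 193) (nat_lit 1) (nat_lit 0) (nat_lit 3) (nat_lit 5) (nat_lit 322) (nat_lit 182) r7_322 r0_182 (nat_lit 0) (nat_lit 7741900) (nat_lit 0) (nat_lit 0x80bec9efa) (nat_lit 534261362),
  Rx.mk (nat_lit 201) (nat_lit 1) (nat_lit 1) (nat_lit 3) (nat_lit 7) (nat_lit 323) (nat_lit 183) r7_323 r0_183 (nat_lit 0) (nat_lit 0) (nat_lit 0) (nat_lit 0x80877ffc6) (nat_lit 529984012),
  Rx.mk (nat_lit 209) (nat_lit 1) (nat_lit 2) (nat_lit 3) (nat_lit 7) (nat_lit 324) (nat_lit 184) r7_324 r0_184 (nat_lit 0) (nat_lit 0) (nat_lit 0) (nat_lit 0x80b89b4d4) (nat_lit 527012662)]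
noncomputable def e39_13 : List Rx := [
  Rx.mk (nat_lit 1) (nat_lit 1) (nat_lit 0) (nat_lit 0) (nat_lit 1) (nat_lit 327) (nat_lit 327) r7_327 r7_327 (nat_lit 0) (nat_lit 93243893) (nat_lit 93243893) (nat_lit 0x6bd582bac) (nat_lit 1050182148),
  Rx.mk (nat_lit 5) (nat_lit 5) (nat_lit 0) (nat_lit 0) (nat_lit 1) (nat_lit 335) (nat_lit 335) r7_335 r7_335 (nat_lit 0) (nat_lit 32713036) (nat_lit 32713036) (nat_lit 0x69d5f62d4) (nat_lit 961393834),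
  Rx.mk (nat_lit 9) (nat_lit 1) (nat_lit 1) (nat_lit 0) (nat_lit 3) (nat_lit 328) (nat_lit 330) r7_328 r7_330 (nat_lit 0) (nat_lit 0) (nat_lit 26241675) (nat_lit 0x7fe63006c) (nat_lit 566139187),
  Rx.mk (nat_lit 13) (nat_lit 5) (nat_lit 1) (nat_lit 0) (nat_lit 3) (nat_lit 336) (nat_lit 337) r7_336 r7_337 (nat_lit 0) (nat_lit 0) (nat_lit 24741287) (nat_lit 0x8017985b4) (nat_lit 561612199),
  Rx.mk (nat_lit 17) (nat_lit 1) (nat_lit 2) (nat_lit 0) (nat_lit 3) (nat_lit 329) (nat_lit 333) r7_329 r7_333 (nat_lit 0) (nat_lit 0) (nat_lit 25127303) (nat_lit 0x800ee0d22) (nat_lit 562531915),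
  Rx.mk (nat_lit 65) (nat_lit 1) (nat_lit 0) (nat_lit 1) (nat_lit 5) (nat_lit 330) (nat_lit 328) r7_330 r7_328 (nat_lit 0) (nat_lit 26241675) (nat_lit 0) (nat_lit 0x7fe63006c) (nat_lit 566139187),
  Rx.mk (nat_lit 69) (nat_lit 5) (nat_lit 0) (nat_lit 1) (nat_lit 5) (nat_lit 337) (nat_lit 336) r7_337 r7_336 (nat_lit 0) (nat_lit 24741287) (nat_lit 0) (nat_lit 0x8017985b4) (nat_lit 561612199),
  Rx.mk (nat_lit 73) (nat_lit 1) (nat_lit 1) (nat_lit 1) (nat_lit 7) (nat_lit 331) (nat_lit 331) r7_331 r7_331 (nat_lit 0) (nat_lit 0) (nat_lit 0) (nat_lit 0x8017985b4) (nat_lit 536870912),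
  Rx.mk (nat_lit 77) (nat_lit 5) (nat_lit 1) (nat_lit 1) (nat_lit 7) (nat_lit 338) (nat_lit 338) r7_338 r7_338 (nat_lit 0) (nat_lit 0) (nat_lit 0) (nat_lit 0x8017985b4) (nat_lit 536870912),
  Rx.mk (nat_lit 81) (nat_lit 1) (nat_lit 2) (nat_lit 1) (nat_lit 7) (nat_lit 332) (nat_lit 334) r7_332 r7_334 (nat_lit 0) (nat_lit 0) (nat_lit 0) (nat_lit 0x8017985b4) (nat_lit 536870912),
  Rx.mk (nat_lit 193) (nat_lit 1) (nat_lit 0) (nat_lit 3) (nat_lit 5) (nat_lit 333) (nat_lit 329) r7_333 r7_329 (nat_lit 0) (nat_lit 25127303) (nat_lit 0) (nat_lit 0x800ee0d22) (nat_lit 562531915),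
  Rx.mk (nat_lit 201) (nat_lit 1) (nat_lit 1) (nat_lit 3) (nat_lit 7) (nat_lit 334) (nat_lit 332) r7_334 r7_332 (nat_lit 0) (nat_lit 0) (nat_lit 0) (nat_lit 0x8017985b4) (nat_lit 536870912)]
noncomputable def e39_14 : List Rx := [
  Rx.mk (nat_lit 1) (nat_lit 1) (nat_lit 0) (nat_lit 0) (nat_lit 1) (nat_lit 381) (nat_lit 192) r7_381 r1_192 (nat_lit 0) (nat_lit 16757287) (nat_lit 25112477) (nat_lit 0x6c3762d4a) (nat_lit 899304226),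
  Rx.mk (nat_lit 9) (nat_lit 1) (nat_lit 1) (nat_lit 0) (nat_lit 3) (nat_lit 382) (nat_lit 193) r7_382 r1_193 (nat_lit 0) (nat_lit 0) (nat_lit 25314926) (nat_lit 0x7f9e34eca) (nat_lit 569620288),
  Rx.mk (nat_lit 17) (nat_lit 1) (nat_lit 2) (nat_lit 0) (nat_lit 3) (nat_lit 383) (nat_lit 194) r7_383 r1_194 (nat_lit 0) (nat_lit 0) (nat_lit 30395325) (nat_lit 0x809096c2c) (nat_lit 559824137),
  Rx.mk (nat_lit 145) (nat_lit 1) (nat_lit 2) (nat_lit 2) (nat_lit 7) (nat_lit 384) (nat_lit 198) r7_384 r1_198 (nat_lit 0) (nat_lit 0) (nat_lit 0) (nat_lit 0x8018dbc28) (nat_lit 536671062),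
  Rx.mk (nat_lit 193) (nat_lit 1) (nat_lit 0) (nat_lit 3) (nat_lit 5) (nat_lit 385) (nat_lit 195) r7_385 r1_195 (nat_lit 0) (nat_lit 19851321) (nat_lit 0) (nat_lit 0x80224bf92) (nat_lit 556043533),
  Rx.mk (nat_lit 201) (nat_lit 1) (nat_lit 1) (nat_lit 3) (nat_lit 7) (nat_lit 386) (nat_lit 196) r7_386 r1_196 (nat_lit 0) (nat_lit 0) (nat_lit 0) (nat_lit 0x8017985b4) (nat_lit 536870912),
  Rx.mk (nat_lit 209) (nat_lit 1) (nat_lit 2) (nat_lit 3) (nat_lit 7) (nat_lit 387) (nat_lit 197) r7_387 r1_197 (nat_lit 0) (nat_lit 0) (nat_lit 0) (nat_lit 0x8017985b4) (nat_lit 536870912)]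
noncomputable def e39_15 : List Rx := [
  Rx.mk (nat_lit 1) (nat_lit 1) (nat_lit 0) (nat_lit 0) (nat_lit 1) (nat_lit 388) (nat_lit 248) r7_388 r8_248 (nat_lit 0) (nat_lit 54887331) (nat_lit 69413824) (nat_lit 0x65c8453d2) (nat_lit 1085844417),
  Rx.mk (nat_lit 9) (nat_lit 1) (nat_lit 1) (nat_lit 0) (nat_lit 3) (nat_lit 389) (nat_lit 251) r7_389 r8_251 (nat_lit 0) (nat_lit 0) (nat_lit 25521481) (nat_lit 0x8004c69ea) (nat_lit 563543143),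
  Rx.mk (nat_lit 17) (nat_lit 1) (nat_lit 2) (nat_lit 0) (nat_lit 3) (nat_lit 390) (nat_lit 254) r7_390 r8_254 (nat_lit 0) (nat_lit 0) (nat_lit 24625619) (nat_lit 0x800a04d3a) (nat_lit 562328731),
  Rx.mk (nat_lit 65) (nat_lit 1) (nat_lit 0) (nat_lit 1) (nat_lit 5) (nat_lit 391) (nat_lit 249) r7_391 r8_249 (nat_lit 0) (nat_lit 25009292) (nat_lit 0) (nat_lit 0x8011540e0) (nat_lit 562263654),
  Rx.mk (nat_lit 73) (nat_lit 1) (nat_lit 1) (nat_lit 1) (nat_lit 7) (nat_lit 392) (nat_lit 252) r7_392 r8_252 (nat_lit 0) (nat_lit 0) (nat_lit 0) (nat_lit 0x8017985b4) (nat_lit 536870912),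
  Rx.mk (nat_lit 81) (nat_lit 1) (nat_lit 2) (nat_lit 1) (nat_lit 7) (nat_lit 393) (nat_lit 255) r7_393 r8_255 (nat_lit 0) (nat_lit 0) (nat_lit 0) (nat_lit 0x8017985b4) (nat_lit 536870912),
  Rx.mk (nat_lit 145) (nat_lit 1) (nat_lit 2) (nat_lit 2) (nat_lit 7) (nat_lit 394) (nat_lit 256) r7_394 r8_256 (nat_lit 0) (nat_lit 0) (nat_lit 0) (nat_lit 0x8017985b4) (nat_lit 536870912),
  Rx.mk (nat_lit 193) (nat_lit 1) (nat_lit 0) (nat_lit 3) (nat_lit 5) (nat_lit 395) (nat_lit 250) r7_395 r8_250 (nat_lit 0) (nat_lit 24741287) (nat_lit 0) (nat_lit 0x8017985b4) (nat_lit 561612199),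
  Rx.mk (nat_lit 201) (nat_lit 1) (nat_lit 1) (nat_lit 3) (nat_lit 7) (nat_lit 396) (nat_lit 253) r7_396 r8_253 (nat_lit 0) (nat_lit 0) (nat_lit 0) (nat_lit 0x8017985b4) (nat_lit 536870912)]
noncomputable def e39_16 : List Rx := [
  Rx.mk (nat_lit 65) (nat_lit 1) (nat_lit 0) (nat_lit 1) (nat_lit 5) (nat_lit 401) (nat_lit 185) r7_401 r8_185 (nat_lit 0) (nat_lit 25158612) (nat_lit 0) (nat_lit 0x7ffdc5b5a) (nat_lit 563608374),
  Rx.mk (nat_lit 69) (nat_lit 5) (nat_lit 0) (nat_lit 1) (nat_lit 5) (nat_lit 404) (nat_lit 184) r7_404 r8_184 (nat_lit 0) (nat_lit 24741287) (nat_lit 0) (nat_lit 0x8017985b4) (nat_lit 561612199),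
  Rx.mk (nat_lit 73) (nat_lit 1) (nat_lit 1) (nat_lit 1) (nat_lit 7) (nat_lit 402) (nat_lit 187) r7_402 r8_187 (nat_lit 0) (nat_lit 0) (nat_lit 0) (nat_lit 0x8017985b4) (nat_lit 536870912),
  Rx.mk (nat_lit 77) (nat_lit 5) (nat_lit 1) (nat_lit 1) (nat_lit 7) (nat_lit 405) (nat_lit 186) r7_405 r8_186 (nat_lit 0) (nat_lit 0) (nat_lit 0) (nat_lit 0x8017985b4) (nat_lit 536870912),
  Rx.mk (nat_lit 81) (nat_lit 1) (nat_lit 2) (nat_lit 1) (nat_lit 7) (nat_lit 403) (nat_lit 188) r7_403 r8_188 (nat_lit 0) (nat_lit 0) (nat_lit 0) (nat_lit 0x8017985b4) (nat_lit 536870912)]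
noncomputable def e39_17 : List Rx := [
  Rx.mk (nat_lit 73) (nat_lit 1) (nat_lit 1) (nat_lit 1) (nat_lit 7) (nat_lit 406) (nat_lit 257) r7_406 r9_257 (nat_lit 0) (nat_lit 0) (nat_lit 0) (nat_lit 0x8017985b4) (nat_lit 536870912),
  Rx.mk (nat_lit 77) (nat_lit 5) (nat_lit 1) (nat_lit 1) (nat_lit 7) (nat_lit 407) (nat_lit 258) r7_407 r9_258 (nat_lit 0) (nat_lit 0) (nat_lit 0) (nat_lit 0x8017985b4) (nat_lit 536870912),
  Rx.mk (nat_lit 333) (nat_lit 5) (nat_lit 1) (nat_lit 5) (nat_lit 7) (nat_lit 408) (nat_lit 259) r7_408 r9_259 (nat_lit 0) (nat_lit 0) (nat_lit 0) (nat_lit 0x8017985b4) (nat_lit 536870912)]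
noncomputable def e39_18 : List Rx := [
  Rx.mk (nat_lit 5) (nat_lit 5) (nat_lit 0) (nat_lit 0) (nat_lit 1) (nat_lit 427) (nat_lit 167) r7_427 r4_167 (nat_lit 0) (nat_lit 22125450) (nat_lit 19907554) (nat_lit 0x63a785950) (nat_lit 1037930216),
  Rx.mk (nat_lit 13) (nat_lit 5) (nat_lit 1) (nat_lit 0) (nat_lit 3) (nat_lit 428) (nat_lit 168) r7_428 r4_168 (nat_lit 0) (nat_lit 0) (nat_lit 19814278) (nat_lit 0x7ff710a44) (nat_lit 558656140),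
  Rx.mk (nat_lit 193) (nat_lit 1) (nat_lit 0) (nat_lit 3) (nat_lit 5) (nat_lit 424) (nat_lit 170) r7_424 r4_170 (nat_lit 0) (nat_lit 15079429) (nat_lit 0) (nat_lit 0x80b288b5a) (nat_lit 542464441),
  Rx.mk (nat_lit 197) (nat_lit 5) (nat_lit 0) (nat_lit 3) (nat_lit 5) (nat_lit 429) (nat_lit 169) r7_429 r4_169 (nat_lit 0) (nat_lit 9466543) (nat_lit 0) (nat_lit 0x7fa3c1d3e) (nat_lit 553281955),
  Rx.mk (nat_lit 201) (nat_lit 1) (nat_lit 1) (nat_lit 3) (nat_lit 7) (nat_lit 425) (nat_lit 172) r7_425 r4_172 (nat_lit 0) (nat_lit 0) (nat_lit 0) (nat_lit 0x8047400be) (nat_lit 533941862),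
  Rx.mk (nat_lit 205) (nat_lit 5) (nat_lit 1) (nat_lit 3) (nat_lit 7) (nat_lit 430) (nat_lit 171) r7_430 r4_171 (nat_lit 0) (nat_lit 0) (nat_lit 0) (nat_lit 0x80e5a0ace) (nat_lit 524283362),
  Rx.mk (nat_lit 209) (nat_lit 1) (nat_lit 2) (nat_lit 3) (nat_lit 7) (nat_lit 426) (nat_lit 173) r7_426 r4_173 (nat_lit 0) (nat_lit 0) (nat_lit 0) (nat_lit 0x804741ba8) (nat_lit 533941462)]
noncomputable def e39_19 : List Rx := [
  Rx.mk (nat_lit 5) (nat_lit 5) (nat_lit 0) (nat_lit 0) (nat_lit 1) (nat_lit 433) (nat_lit 286) r7_433 r10_286 (nat_lit 0) (nat_lit 28712906) (nat_lit 23931749) (nat_lit 0x6a7e66ee6) (nat_lit 937964567),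
  Rx.mk (nat_lit 13) (nat_lit 5) (nat_lit 1) (nat_lit 0) (nat_lit 3) (nat_lit 434) (nat_lit 289) r7_434 r10_289 (nat_lit 0) (nat_lit 0) (nat_lit 26205094) (nat_lit 0x7ff5adb5c) (nat_lit 565151456),
  Rx.mk (nat_lit 69) (nat_lit 5) (nat_lit 0) (nat_lit 1) (nat_lit 5) (nat_lit 435) (nat_lit 287) r7_435 r10_287 (nat_lit 0) (nat_lit 24741287) (nat_lit 0) (nat_lit 0x8017985b4) (nat_lit 561612199),
  Rx.mk (nat_lit 77) (nat_lit 5) (nat_lit 1) (nat_lit 1) (nat_lit 7) (nat_lit 436) (nat_lit 290) r7_436 r10_290 (nat_lit 0) (nat_lit 0) (nat_lit 0) (nat_lit 0x8017985b4) (nat_lit 536870912),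
  Rx.mk (nat_lit 193) (nat_lit 1) (nat_lit 0) (nat_lit 3) (nat_lit 5) (nat_lit 431) (nat_lit 284) r7_431 r10_284 (nat_lit 0) (nat_lit 25393500) (nat_lit 0) (nat_lit 0x7ffadf27e) (nat_lit 564019262),
  Rx.mk (nat_lit 197) (nat_lit 5) (nat_lit 0) (nat_lit 3) (nat_lit 5) (nat_lit 437) (nat_lit 288) r7_437 r10_288 (nat_lit 0) (nat_lit 25691165) (nat_lit 0) (nat_lit 0x800112efc) (nat_lit 563939677),
  Rx.mk (nat_lit 201) (nat_lit 1) (nat_lit 1) (nat_lit 3) (nat_lit 7) (nat_lit 432) (nat_lit 285) r7_432 r10_285 (nat_lit 0) (nat_lit 0) (nat_lit 0) (nat_lit 0x8017985b4) (nat_lit 536870912),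
  Rx.mk (nat_lit 205) (nat_lit 5) (nat_lit 1) (nat_lit 3) (nat_lit 7) (nat_lit 438) (nat_lit 291) r7_438 r10_291 (nat_lit 0) (nat_lit 0) (nat_lit 0) (nat_lit 0x8017985b4) (nat_lit 536870912)]
noncomputable def e39_20 : List Rx := [
  Rx.mk (nat_lit 193) (nat_lit 1) (nat_lit 0) (nat_lit 3) (nat_lit 5) (nat_lit 439) (nat_lit 303) r7_439 r11_303 (nat_lit 0) (nat_lit 24741287) (nat_lit 0) (nat_lit 0x8017985b4) (nat_lit 561612199),
  Rx.mk (nat_lit 197) (nat_lit 5) (nat_lit 0) (nat_lit 3) (nat_lit 5) (nat_lit 442) (nat_lit 306) r7_442 r11_306 (nat_lit 0) (nat_lit 19264518) (nat_lit 0) (nat_lit 0x8067c11ee) (nat_lit 551226430),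
  Rx.mk (nat_lit 201) (nat_lit 1) (nat_lit 1) (nat_lit 3) (nat_lit 7) (nat_lit 440) (nat_lit 304) r7_440 r11_304 (nat_lit 0) (nat_lit 0) (nat_lit 0) (nat_lit 0x8017985b4) (nat_lit 536870912),
  Rx.mk (nat_lit 205) (nat_lit 5) (nat_lit 1) (nat_lit 3) (nat_lit 7) (nat_lit 443) (nat_lit 307) r7_443 r11_307 (nat_lit 0) (nat_lit 0) (nat_lit 0) (nat_lit 0x8017985b4) (nat_lit 536870912),
  Rx.mk (nat_lit 209) (nat_lit 1) (nat_lit 2) (nat_lit 3) (nat_lit 7) (nat_lit 441) (nat_lit 305) r7_441 r11_305 (nat_lit 0) (nat_lit 0) (nat_lit 0) (nat_lit 0x8017985b4) (nat_lit 536870912)]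
noncomputable def e39_21 : List Rx := [
  Rx.mk (nat_lit 77) (nat_lit 5) (nat_lit 1) (nat_lit 1) (nat_lit 7) (nat_lit 409) (nat_lit 259) r7_409 r9_259 (nat_lit 0) (nat_lit 0) (nat_lit 0) (nat_lit 0x8017985b4) (nat_lit 536870912),
  Rx.mk (nat_lit 333) (nat_lit 5) (nat_lit 1) (nat_lit 5) (nat_lit 7) (nat_lit 410) (nat_lit 258) r7_410 r9_258 (nat_lit 0) (nat_lit 0) (nat_lit 0) (nat_lit 0x8017985b4) (nat_lit 536870912),
  Rx.mk (nat_lit 365) (nat_lit 5) (nat_lit 5) (nat_lit 5) (nat_lit 7) (nat_lit 411) (nat_lit 257) r7_411 r9_257 (nat_lit 0) (nat_lit 0) (nat_lit 0) (nat_lit 0x8017985b4) (nat_lit 536870912)]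
noncomputable def e39_22 : List Rx := [
  Rx.mk (nat_lit 268) (nat_lit 4) (nat_lit 1) (nat_lit 4) (nat_lit 2) (nat_lit 56) (nat_lit 177) r7_56 r0_177 (nat_lit 3400781) (nat_lit 0) (nat_lit 7378942) (nat_lit 0x545558bfa) (nat_lit 1254182035),
  Rx.mk (nat_lit 269) (nat_lit 5) (nat_lit 1) (nat_lit 4) (nat_lit 3) (nat_lit 59) (nat_lit 179) r7_59 r0_179 (nat_lit 0) (nat_lit 0) (nat_lit 10961872) (nat_lit 0x71abf8114) (nat_lit 780182384),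
  Rx.mk (nat_lit 300) (nat_lit 4) (nat_lit 5) (nat_lit 4) (nat_lit 2) (nat_lit 57) (nat_lit 178) r7_57 r0_178 (nat_lit 5394699) (nat_lit 0) (nat_lit 10270932) (nat_lit 0x5fa366a58) (nat_lit 1076368243),
  Rx.mk (nat_lit 301) (nat_lit 5) (nat_lit 5) (nat_lit 4) (nat_lit 3) (nat_lit 60) (nat_lit 180) r7_60 r0_180 (nat_lit 0) (nat_lit 0) (nat_lit 23289893) (nat_lit 0x7d8545704) (nat_lit 601157455),
  Rx.mk (nat_lit 302) (nat_lit 6) (nat_lit 5) (nat_lit 4) (nat_lit 3) (nat_lit 62) (nat_lit 181) r7_62 r0_181 (nat_lit 0) (nat_lit 0) (nat_lit 39572657) (nat_lit 0x7fce955ba) (nat_lit 580469619),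
  Rx.mk (nat_lit 492) (nat_lit 4) (nat_lit 5) (nat_lit 7) (nat_lit 6) (nat_lit 58) (nat_lit 182) r7_58 r0_182 (nat_lit 7741900) (nat_lit 0) (nat_lit 0) (nat_lit 0x80bec9efa) (nat_lit 534261362),
  Rx.mk (nat_lit 493) (nat_lit 5) (nat_lit 5) (nat_lit 7) (nat_lit 7) (nat_lit 61) (nat_lit 183) r7_61 r0_183 (nat_lit 0) (nat_lit 0) (nat_lit 0) (nat_lit 0x80877ffc6) (nat_lit 529984012),
  Rx.mk (nat_lit 494) (nat_lit 6) (nat_lit 5) (nat_lit 7) (nat_lit 7) (nat_lit 63) (nat_lit 184) r7_63 r0_184 (nat_lit 0) (nat_lit 0) (nat_lit 0) (nat_lit 0x80b89b4d4) (nat_lit 527012662)]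
noncomputable def e39_23 : List Rx := [
  Rx.mk (nat_lit 300) (nat_lit 4) (nat_lit 5) (nat_lit 4) (nat_lit 2) (nat_lit 64) (nat_lit 192) r7_64 r1_192 (nat_lit 16757287) (nat_lit 0) (nat_lit 25112477) (nat_lit 0x6c3762d4a) (nat_lit 899304226),
  Rx.mk (nat_lit 301) (nat_lit 5) (nat_lit 5) (nat_lit 4) (nat_lit 3) (nat_lit 66) (nat_lit 193) r7_66 r1_193 (nat_lit 0) (nat_lit 0) (nat_lit 25314926) (nat_lit 0x7f9e34eca) (nat_lit 569620288),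
  Rx.mk (nat_lit 302) (nat_lit 6) (nat_lit 5) (nat_lit 4) (nat_lit 3) (nat_lit 68) (nat_lit 194) r7_68 r1_194 (nat_lit 0) (nat_lit 0) (nat_lit 30395325) (nat_lit 0x809096c2c) (nat_lit 559824137),
  Rx.mk (nat_lit 430) (nat_lit 6) (nat_lit 5) (nat_lit 6) (nat_lit 7) (nat_lit 69) (nat_lit 198) r7_69 r1_198 (nat_lit 0) (nat_lit 0) (nat_lit 0) (nat_lit 0x8018dbc28) (nat_lit 536671062),
  Rx.mk (nat_lit 492) (nat_lit 4) (nat_lit 5) (nat_lit 7) (nat_lit 6) (nat_lit 65) (nat_lit 195) r7_65 r1_195 (nat_lit 19851321) (nat_lit 0) (nat_lit 0) (nat_lit 0x80224bf92) (nat_lit 556043533),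
  Rx.mk (nat_lit 493) (nat_lit 5) (nat_lit 5) (nat_lit 7) (nat_lit 7) (nat_lit 67) (nat_lit 196) r7_67 r1_196 (nat_lit 0) (nat_lit 0) (nat_lit 0) (nat_lit 0x8017985b4) (nat_lit 536870912),
  Rx.mk (nat_lit 494) (nat_lit 6) (nat_lit 5) (nat_lit 7) (nat_lit 7) (nat_lit 70) (nat_lit 197) r7_70 r1_197 (nat_lit 0) (nat_lit 0) (nat_lit 0) (nat_lit 0x8017985b4) (nat_lit 536870912)]
noncomputable def e39_24 : List Rx := [
  Rx.mk (nat_lit 268) (nat_lit 4) (nat_lit 1) (nat_lit 4) (nat_lit 2) (nat_lit 71) (nat_lit 167) r7_71 r4_167 (nat_lit 22125450) (nat_lit 0) (nat_lit 19907554) (nat_lit 0x63a785950) (nat_lit 1037930216),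
  Rx.mk (nat_lit 269) (nat_lit 5) (nat_lit 1) (nat_lit 4) (nat_lit 3) (nat_lit 74) (nat_lit 168) r7_74 r4_168 (nat_lit 0) (nat_lit 0) (nat_lit 19814278) (nat_lit 0x7ff710a44) (nat_lit 558656140),
  Rx.mk (nat_lit 460) (nat_lit 4) (nat_lit 1) (nat_lit 7) (nat_lit 6) (nat_lit 72) (nat_lit 169) r7_72 r4_169 (nat_lit 9466543) (nat_lit 0) (nat_lit 0) (nat_lit 0x7fa3c1d3e) (nat_lit 553281955),
  Rx.mk (nat_lit 461) (nat_lit 5) (nat_lit 1) (nat_lit 7) (nat_lit 7) (nat_lit 75) (nat_lit 171) r7_75 r4_171 (nat_lit 0) (nat_lit 0) (nat_lit 0) (nat_lit 0x80e5a0ace) (nat_lit 524283362),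
  Rx.mk (nat_lit 492) (nat_lit 4) (nat_lit 5) (nat_lit 7) (nat_lit 6) (nat_lit 73) (nat_lit 170) r7_73 r4_170 (nat_lit 15079429) (nat_lit 0) (nat_lit 0) (nat_lit 0x80b288b5a) (nat_lit 542464441),
  Rx.mk (nat_lit 493) (nat_lit 5) (nat_lit 5) (nat_lit 7) (nat_lit 7) (nat_lit 76) (nat_lit 172) r7_76 r4_172 (nat_lit 0) (nat_lit 0) (nat_lit 0) (nat_lit 0x8047400be) (nat_lit 533941862),
  Rx.mk (nat_lit 494) (nat_lit 6) (nat_lit 5) (nat_lit 7) (nat_lit 7) (nat_lit 77) (nat_lit 173) r7_77 r4_173 (nat_lit 0) (nat_lit 0) (nat_lit 0) (nat_lit 0x804741ba8) (nat_lit 533941462)]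
noncomputable def e39_25 : List Rx := [
  Rx.mk (nat_lit 268) (nat_lit 4) (nat_lit 1) (nat_lit 4) (nat_lit 2) (nat_lit 229) (nat_lit 335) r7_229 r7_335 (nat_lit 32713036) (nat_lit 0) (nat_lit 32713036) (nat_lit 0x69d5f62d4) (nat_lit 961393834),
  Rx.mk (nat_lit 269) (nat_lit 5) (nat_lit 1) (nat_lit 4) (nat_lit 3) (nat_lit 234) (nat_lit 337) r7_234 r7_337 (nat_lit 0) (nat_lit 0) (nat_lit 24741287) (nat_lit 0x8017985b4) (nat_lit 561612199),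
  Rx.mk (nat_lit 300) (nat_lit 4) (nat_lit 5) (nat_lit 4) (nat_lit 2) (nat_lit 230) (nat_lit 327) r7_230 r7_327 (nat_lit 93243893) (nat_lit 0) (nat_lit 93243893) (nat_lit 0x6bd582bac) (nat_lit 1050182148),
  Rx.mk (nat_lit 301) (nat_lit 5) (nat_lit 5) (nat_lit 4) (nat_lit 3) (nat_lit 235) (nat_lit 330) r7_235 r7_330 (nat_lit 0) (nat_lit 0) (nat_lit 26241675) (nat_lit 0x7fe63006c) (nat_lit 566139187),
  Rx.mk (nat_lit 302) (nat_lit 6) (nat_lit 5) (nat_lit 4) (nat_lit 3) (nat_lit 239) (nat_lit 333) r7_239 r7_333 (nat_lit 0) (nat_lit 0) (nat_lit 25127303) (nat_lit 0x800ee0d22) (nat_lit 562531915),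
  Rx.mk (nat_lit 332) (nat_lit 4) (nat_lit 1) (nat_lit 5) (nat_lit 6) (nat_lit 231) (nat_lit 336) r7_231 r7_336 (nat_lit 24741287) (nat_lit 0) (nat_lit 0) (nat_lit 0x8017985b4) (nat_lit 561612199),
  Rx.mk (nat_lit 333) (nat_lit 5) (nat_lit 1) (nat_lit 5) (nat_lit 7) (nat_lit 236) (nat_lit 338) r7_236 r7_338 (nat_lit 0) (nat_lit 0) (nat_lit 0) (nat_lit 0x8017985b4) (nat_lit 536870912),
  Rx.mk (nat_lit 364) (nat_lit 4) (nat_lit 5) (nat_lit 5) (nat_lit 6) (nat_lit 232) (nat_lit 328) r7_232 r7_328 (nat_lit 26241675) (nat_lit 0) (nat_lit 0) (nat_lit 0x7fe63006c) (nat_lit 566139187),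
  Rx.mk (nat_lit 365) (nat_lit 5) (nat_lit 5) (nat_lit 5) (nat_lit 7) (nat_lit 237) (nat_lit 331) r7_237 r7_331 (nat_lit 0) (nat_lit 0) (nat_lit 0) (nat_lit 0x8017985b4) (nat_lit 536870912),
  Rx.mk (nat_lit 366) (nat_lit 6) (nat_lit 5) (nat_lit 5) (nat_lit 7) (nat_lit 240) (nat_lit 334) r7_240 r7_334 (nat_lit 0) (nat_lit 0) (nat_lit 0) (nat_lit 0x8017985b4) (nat_lit 536870912),
  Rx.mk (nat_lit 492) (nat_lit 4) (nat_lit 5) (nat_lit 7) (nat_lit 6) (nat_lit 233) (nat_lit 329) r7_233 r7_329 (nat_lit 25127303) (nat_lit 0) (nat_lit 0) (nat_lit 0x800ee0d22) (nat_lit 562531915),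
  Rx.mk (nat_lit 493) (nat_lit 5) (nat_lit 5) (nat_lit 7) (nat_lit 7) (nat_lit 238) (nat_lit 332) r7_238 r7_332 (nat_lit 0) (nat_lit 0) (nat_lit 0) (nat_lit 0x8017985b4) (nat_lit 536870912)]
noncomputable def e39_26 : List Rx := [
  Rx.mk (nat_lit 300) (nat_lit 4) (nat_lit 5) (nat_lit 4) (nat_lit 2) (nat_lit 246) (nat_lit 248) r7_246 r8_248 (nat_lit 54887331) (nat_lit 0) (nat_lit 69413824) (nat_lit 0x65c8453d2) (nat_lit 1085844417),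
  Rx.mk (nat_lit 301) (nat_lit 5) (nat_lit 5) (nat_lit 4) (nat_lit 3) (nat_lit 249) (nat_lit 251) r7_249 r8_251 (nat_lit 0) (nat_lit 0) (nat_lit 25521481) (nat_lit 0x8004c69ea) (nat_lit 563543143),
  Rx.mk (nat_lit 302) (nat_lit 6) (nat_lit 5) (nat_lit 4) (nat_lit 3) (nat_lit 252) (nat_lit 254) r7_252 r8_254 (nat_lit 0) (nat_lit 0) (nat_lit 24625619) (nat_lit 0x800a04d3a) (nat_lit 562328731),
  Rx.mk (nat_lit 364) (nat_lit 4) (nat_lit 5) (nat_lit 5) (nat_lit 6) (nat_lit 247) (nat_lit 249) r7_247 r8_249 (nat_lit 25009292) (nat_lit 0) (nat_lit 0) (nat_lit 0x8011540e0) (nat_lit 562263654),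
  Rx.mk (nat_lit 365) (nat_lit 5) (nat_lit 5) (nat_lit 5) (nat_lit 7) (nat_lit 250) (nat_lit 252) r7_250 r8_252 (nat_lit 0) (nat_lit 0) (nat_lit 0) (nat_lit 0x8017985b4) (nat_lit 536870912),
  Rx.mk (nat_lit 366) (nat_lit 6) (nat_lit 5) (nat_lit 5) (nat_lit 7) (nat_lit 253) (nat_lit 255) r7_253 r8_255 (nat_lit 0) (nat_lit 0) (nat_lit 0) (nat_lit 0x8017985b4) (nat_lit 536870912),
  Rx.mk (nat_lit 430) (nat_lit 6) (nat_lit 5) (nat_lit 6) (nat_lit 7) (nat_lit 254) (nat_lit 256) r7_254 r8_256 (nat_lit 0) (nat_lit 0) (nat_lit 0) (nat_lit 0x8017985b4) (nat_lit 536870912),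
  Rx.mk (nat_lit 492) (nat_lit 4) (nat_lit 5) (nat_lit 7) (nat_lit 6) (nat_lit 248) (nat_lit 250) r7_248 r8_250 (nat_lit 24741287) (nat_lit 0) (nat_lit 0) (nat_lit 0x8017985b4) (nat_lit 561612199),
  Rx.mk (nat_lit 493) (nat_lit 5) (nat_lit 5) (nat_lit 7) (nat_lit 7) (nat_lit 251) (nat_lit 253) r7_251 r8_253 (nat_lit 0) (nat_lit 0) (nat_lit 0) (nat_lit 0x8017985b4) (nat_lit 536870912)]
noncomputable def e39_27 : List Rx := [
  Rx.mk (nat_lit 332) (nat_lit 4) (nat_lit 1) (nat_lit 5) (nat_lit 6) (nat_lit 241) (nat_lit 184) r7_241 r8_184 (nat_lit 24741287) (nat_lit 0) (nat_lit 0) (nat_lit 0x8017985b4) (nat_lit 561612199),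
  Rx.mk (nat_lit 333) (nat_lit 5) (nat_lit 1) (nat_lit 5) (nat_lit 7) (nat_lit 243) (nat_lit 186) r7_243 r8_186 (nat_lit 0) (nat_lit 0) (nat_lit 0) (nat_lit 0x8017985b4) (nat_lit 536870912),
  Rx.mk (nat_lit 364) (nat_lit 4) (nat_lit 5) (nat_lit 5) (nat_lit 6) (nat_lit 242) (nat_lit 185) r7_242 r8_185 (nat_lit 25158612) (nat_lit 0) (nat_lit 0) (nat_lit 0x7ffdc5b5a) (nat_lit 563608374),
  Rx.mk (nat_lit 365) (nat_lit 5) (nat_lit 5) (nat_lit 5) (nat_lit 7) (nat_lit 244) (nat_lit 187) r7_244 r8_187 (nat_lit 0) (nat_lit 0) (nat_lit 0) (nat_lit 0x8017985b4) (nat_lit 536870912),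
  Rx.mk (nat_lit 366) (nat_lit 6) (nat_lit 5) (nat_lit 5) (nat_lit 7) (nat_lit 245) (nat_lit 188) r7_245 r8_188 (nat_lit 0) (nat_lit 0) (nat_lit 0) (nat_lit 0x8017985b4) (nat_lit 536870912)]
noncomputable def e39_28 : List Rx := [
  Rx.mk (nat_lit 268) (nat_lit 4) (nat_lit 1) (nat_lit 4) (nat_lit 2) (nat_lit 255) (nat_lit 286) r7_255 r10_286 (nat_lit 28712906) (nat_lit 0) (nat_lit 23931749) (nat_lit 0x6a7e66ee6) (nat_lit 937964567),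
  Rx.mk (nat_lit 269) (nat_lit 5) (nat_lit 1) (nat_lit 4) (nat_lit 3) (nat_lit 259) (nat_lit 289) r7_259 r10_289 (nat_lit 0) (nat_lit 0) (nat_lit 26205094) (nat_lit 0x7ff5adb5c) (nat_lit 565151456),
  Rx.mk (nat_lit 332) (nat_lit 4) (nat_lit 1) (nat_lit 5) (nat_lit 6) (nat_lit 256) (nat_lit 287) r7_256 r10_287 (nat_lit 24741287) (nat_lit 0) (nat_lit 0) (nat_lit 0x8017985b4) (nat_lit 561612199),
  Rx.mk (nat_lit 333) (nat_lit 5) (nat_lit 1) (nat_lit 5) (nat_lit 7) (nat_lit 260) (nat_lit 290) r7_260 r10_290 (nat_lit 0) (nat_lit 0) (nat_lit 0) (nat_lit 0x8017985b4) (nat_lit 536870912),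
  Rx.mk (nat_lit 460) (nat_lit 4) (nat_lit 1) (nat_lit 7) (nat_lit 6) (nat_lit 257) (nat_lit 288) r7_257 r10_288 (nat_lit 25691165) (nat_lit 0) (nat_lit 0) (nat_lit 0x800112efc) (nat_lit 563939677),
  Rx.mk (nat_lit 461) (nat_lit 5) (nat_lit 1) (nat_lit 7) (nat_lit 7) (nat_lit 261) (nat_lit 291) r7_261 r10_291 (nat_lit 0) (nat_lit 0) (nat_lit 0) (nat_lit 0x8017985b4) (nat_lit 536870912),
  Rx.mk (nat_lit 492) (nat_lit 4) (nat_lit 5) (nat_lit 7) (nat_lit 6) (nat_lit 258) (nat_lit 284) r7_258 r10_284 (nat_lit 25393500) (nat_lit 0) (nat_lit 0) (nat_lit 0x7ffadf27e) (nat_lit 564019262),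
  Rx.mk (nat_lit 493) (nat_lit 5) (nat_lit 5) (nat_lit 7) (nat_lit 7) (nat_lit 262) (nat_lit 285) r7_262 r10_285 (nat_lit 0) (nat_lit 0) (nat_lit 0) (nat_lit 0x8017985b4) (nat_lit 536870912)]
noncomputable def e39_29 : List Rx := [
  Rx.mk (nat_lit 460) (nat_lit 4) (nat_lit 1) (nat_lit 7) (nat_lit 6) (nat_lit 288) (nat_lit 306) r7_288 r11_306 (nat_lit 19264518) (nat_lit 0) (nat_lit 0) (nat_lit 0x8067c11ee) (nat_lit 551226430),
  Rx.mk (nat_lit 461) (nat_lit 5) (nat_lit 1) (nat_lit 7) (nat_lit 7) (nat_lit 290) (nat_lit 307) r7_290 r11_307 (nat_lit 0) (nat_lit 0) (nat_lit 0) (nat_lit 0x8017985b4) (nat_lit 536870912),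
  Rx.mk (nat_lit 492) (nat_lit 4) (nat_lit 5) (nat_lit 7) (nat_lit 6) (nat_lit 289) (nat_lit 303) r7_289 r11_303 (nat_lit 24741287) (nat_lit 0) (nat_lit 0) (nat_lit 0x8017985b4) (nat_lit 561612199),
  Rx.mk (nat_lit 493) (nat_lit 5) (nat_lit 5) (nat_lit 7) (nat_lit 7) (nat_lit 291) (nat_lit 304) r7_291 r11_304 (nat_lit 0) (nat_lit 0) (nat_lit 0) (nat_lit 0x8017985b4) (nat_lit 536870912),
  Rx.mk (nat_lit 494) (nat_lit 6) (nat_lit 5) (nat_lit 7) (nat_lit 7) (nat_lit 292) (nat_lit 305) r7_292 r11_305 (nat_lit 0) (nat_lit 0) (nat_lit 0) (nat_lit 0x8017985b4) (nat_lit 536870912)]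
noncomputable def e39_30 : List Rx := [
  Rx.mk (nat_lit 5) (nat_lit 5) (nat_lit 0) (nat_lit 0) (nat_lit 1) (nat_lit 444) (nat_lit 184) r7_444 r5_184 (nat_lit 0) (nat_lit 5813795) (nat_lit 21504054) (nat_lit 0x686efd894) (nat_lit 945833261),
  Rx.mk (nat_lit 13) (nat_lit 5) (nat_lit 1) (nat_lit 0) (nat_lit 3) (nat_lit 445) (nat_lit 185) r7_445 r5_185 (nat_lit 0) (nat_lit 0) (nat_lit 24741287) (nat_lit 0x7fd363f88) (nat_lit 565797099),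
  Rx.mk (nat_lit 197) (nat_lit 5) (nat_lit 0) (nat_lit 3) (nat_lit 5) (nat_lit 446) (nat_lit 186) r7_446 r5_186 (nat_lit 0) (nat_lit 6741966) (nat_lit 0) (nat_lit 0x7f4734e86) (nat_lit 556141628),
  Rx.mk (nat_lit 205) (nat_lit 5) (nat_lit 1) (nat_lit 3) (nat_lit 7) (nat_lit 447) (nat_lit 187) r7_447 r5_187 (nat_lit 0) (nat_lit 0) (nat_lit 0) (nat_lit 0x812b94fb2) (nat_lit 520035912),
  Rx.mk (nat_lit 221) (nat_lit 5) (nat_lit 3) (nat_lit 3) (nat_lit 7) (nat_lit 448) (nat_lit 188) r7_448 r5_188 (nat_lit 0) (nat_lit 0) (nat_lit 0) (nat_lit 0x8017985b4) (nat_lit 536870912)]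
noncomputable def e39_31 : List Rx := [
  Rx.mk (nat_lit 5) (nat_lit 5) (nat_lit 0) (nat_lit 0) (nat_lit 1) (nat_lit 449) (nat_lit 212) r7_449 r11_212 (nat_lit 0) (nat_lit 34414543) (nat_lit 107532607) (nat_lit 0x7c21f872e) (nat_lit 742207762),
  Rx.mk (nat_lit 13) (nat_lit 5) (nat_lit 1) (nat_lit 0) (nat_lit 3) (nat_lit 450) (nat_lit 213) r7_450 r11_213 (nat_lit 0) (nat_lit 0) (nat_lit 24741287) (nat_lit 0x8017985b4) (nat_lit 561612199),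
  Rx.mk (nat_lit 69) (nat_lit 5) (nat_lit 0) (nat_lit 1) (nat_lit 5) (nat_lit 451) (nat_lit 214) r7_451 r11_214 (nat_lit 0) (nat_lit 24741287) (nat_lit 0) (nat_lit 0x8017985b4) (nat_lit 561612199),
  Rx.mk (nat_lit 77) (nat_lit 5) (nat_lit 1) (nat_lit 1) (nat_lit 7) (nat_lit 452) (nat_lit 215) r7_452 r11_215 (nat_lit 0) (nat_lit 0) (nat_lit 0) (nat_lit 0x8017985b4) (nat_lit 536870912),
  Rx.mk (nat_lit 197) (nat_lit 5) (nat_lit 0) (nat_lit 3) (nat_lit 5) (nat_lit 453) (nat_lit 216) r7_453 r11_216 (nat_lit 0) (nat_lit 24741287) (nat_lit 0) (nat_lit 0x8017985b4) (nat_lit 561612199),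
  Rx.mk (nat_lit 205) (nat_lit 5) (nat_lit 1) (nat_lit 3) (nat_lit 7) (nat_lit 454) (nat_lit 217) r7_454 r11_217 (nat_lit 0) (nat_lit 0) (nat_lit 0) (nat_lit 0x8017985b4) (nat_lit 536870912),
  Rx.mk (nat_lit 221) (nat_lit 5) (nat_lit 3) (nat_lit 3) (nat_lit 7) (nat_lit 455) (nat_lit 218) r7_455 r11_218 (nat_lit 0) (nat_lit 0) (nat_lit 0) (nat_lit 0x8017985b4) (nat_lit 536870912)]
noncomputable def e39_32 : List Rx := [
  Rx.mk (nat_lit 199) (nat_lit 7) (nat_lit 0) (nat_lit 3) (nat_lit 5) (nat_lit 84) (nat_lit 114) r7_84 r6_114 (nat_lit 0) (nat_lit 8290090) (nat_lit 0) (nat_lit 0x80c4482e6) (nat_lit 534483002),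
  Rx.mk (nat_lit 207) (nat_lit 7) (nat_lit 1) (nat_lit 3) (nat_lit 7) (nat_lit 85) (nat_lit 115) r7_85 r6_115 (nat_lit 0) (nat_lit 0) (nat_lit 0) (nat_lit 0x810efde94) (nat_lit 521774762),
  Rx.mk (nat_lit 452) (nat_lit 4) (nat_lit 0) (nat_lit 7) (nat_lit 4) (nat_lit 78) (nat_lit 106) r7_78 r6_106 (nat_lit 3417910) (nat_lit 3103288) (nat_lit 0) (nat_lit 0x6f0f18210) (nat_lit 817792160),
  Rx.mk (nat_lit 453) (nat_lit 5) (nat_lit 0) (nat_lit 7) (nat_lit 5) (nat_lit 81) (nat_lit 109) r7_81 r6_109 (nat_lit 0) (nat_lit 10382740) (nat_lit 0) (nat_lit 0x817f374a8) (nat_lit 525372102),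
  Rx.mk (nat_lit 455) (nat_lit 7) (nat_lit 0) (nat_lit 7) (nat_lit 5) (nat_lit 86) (nat_lit 112) r7_86 r6_112 (nat_lit 0) (nat_lit 24741287) (nat_lit 0) (nat_lit 0x7f4e81a9a) (nat_lit 574017999),
  Rx.mk (nat_lit 460) (nat_lit 4) (nat_lit 1) (nat_lit 7) (nat_lit 6) (nat_lit 79) (nat_lit 107) r7_79 r6_107 (nat_lit 12588522) (nat_lit 0) (nat_lit 0) (nat_lit 0x8109aaa8c) (nat_lit 534683584),
  Rx.mk (nat_lit 461) (nat_lit 5) (nat_lit 1) (nat_lit 7) (nat_lit 7) (nat_lit 82) (nat_lit 110) r7_82 r6_110 (nat_lit 0) (nat_lit 0) (nat_lit 0) (nat_lit 0x806259ae4) (nat_lit 532286612),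
  Rx.mk (nat_lit 463) (nat_lit 7) (nat_lit 1) (nat_lit 7) (nat_lit 7) (nat_lit 87) (nat_lit 113) r7_87 r6_113 (nat_lit 0) (nat_lit 0) (nat_lit 0) (nat_lit 0x8017985b4) (nat_lit 536870912),
  Rx.mk (nat_lit 476) (nat_lit 4) (nat_lit 3) (nat_lit 7) (nat_lit 6) (nat_lit 80) (nat_lit 108) r7_80 r6_108 (nat_lit 9429526) (nat_lit 0) (nat_lit 0) (nat_lit 0x80843ba90) (nat_lit 539527188),
  Rx.mk (nat_lit 477) (nat_lit 5) (nat_lit 3) (nat_lit 7) (nat_lit 7) (nat_lit 83) (nat_lit 111) r7_83 r6_111 (nat_lit 0) (nat_lit 0) (nat_lit 0) (nat_lit 0x80e84372c) (nat_lit 524123412)]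
noncomputable def e39_33 : List Rx := [
  Rx.mk (nat_lit 268) (nat_lit 4) (nat_lit 1) (nat_lit 4) (nat_lit 2) (nat_lit 88) (nat_lit 184) r7_88 r5_184 (nat_lit 5813795) (nat_lit 0) (nat_lit 21504054) (nat_lit 0x686efd894) (nat_lit 945833261),
  Rx.mk (nat_lit 269) (nat_lit 5) (nat_lit 1) (nat_lit 4) (nat_lit 3) (nat_lit 90) (nat_lit 185) r7_90 r5_185 (nat_lit 0) (nat_lit 0) (nat_lit 24741287) (nat_lit 0x7fd363f88) (nat_lit 565797099),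
  Rx.mk (nat_lit 460) (nat_lit 4) (nat_lit 1) (nat_lit 7) (nat_lit 6) (nat_lit 89) (nat_lit 186) r7_89 r5_186 (nat_lit 6741966) (nat_lit 0) (nat_lit 0) (nat_lit 0x7f4734e86) (nat_lit 556141628),
  Rx.mk (nat_lit 461) (nat_lit 5) (nat_lit 1) (nat_lit 7) (nat_lit 7) (nat_lit 91) (nat_lit 187) r7_91 r5_187 (nat_lit 0) (nat_lit 0) (nat_lit 0) (nat_lit 0x812b94fb2) (nat_lit 520035912),
  Rx.mk (nat_lit 463) (nat_lit 7) (nat_lit 1) (nat_lit 7) (nat_lit 7) (nat_lit 92) (nat_lit 188) r7_92 r5_188 (nat_lit 0) (nat_lit 0) (nat_lit 0) (nat_lit 0x8017985b4) (nat_lit 536870912)]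
noncomputable def e39_34 : List Rx := [
  Rx.mk (nat_lit 268) (nat_lit 4) (nat_lit 1) (nat_lit 4) (nat_lit 2) (nat_lit 263) (nat_lit 212) r7_263 r11_212 (nat_lit 34414543) (nat_lit 0) (nat_lit 107532607) (nat_lit 0x7c21f872e) (nat_lit 742207762),
  Rx.mk (nat_lit 269) (nat_lit 5) (nat_lit 1) (nat_lit 4) (nat_lit 3) (nat_lit 266) (nat_lit 213) r7_266 r11_213 (nat_lit 0) (nat_lit 0) (nat_lit 24741287) (nat_lit 0x8017985b4) (nat_lit 561612199),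
  Rx.mk (nat_lit 332) (nat_lit 4) (nat_lit 1) (nat_lit 5) (nat_lit 6) (nat_lit 264) (nat_lit 214) r7_264 r11_214 (nat_lit 24741287) (nat_lit 0) (nat_lit 0) (nat_lit 0x8017985b4) (nat_lit 561612199),
  Rx.mk (nat_lit 333) (nat_lit 5) (nat_lit 1) (nat_lit 5) (nat_lit 7) (nat_lit 267) (nat_lit 215) r7_267 r11_215 (nat_lit 0) (nat_lit 0) (nat_lit 0) (nat_lit 0x8017985b4) (nat_lit 536870912),
  Rx.mk (nat_lit 460) (nat_lit 4) (nat_lit 1) (nat_lit 7) (nat_lit 6) (nat_lit 265) (nat_lit 216) r7_265 r11_216 (nat_lit 24741287) (nat_lit 0) (nat_lit 0) (nat_lit 0x8017985b4) (nat_lit 561612199),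
  Rx.mk (nat_lit 461) (nat_lit 5) (nat_lit 1) (nat_lit 7) (nat_lit 7) (nat_lit 268) (nat_lit 217) r7_268 r11_217 (nat_lit 0) (nat_lit 0) (nat_lit 0) (nat_lit 0x8017985b4) (nat_lit 536870912),
  Rx.mk (nat_lit 463) (nat_lit 7) (nat_lit 1) (nat_lit 7) (nat_lit 7) (nat_lit 269) (nat_lit 218) r7_269 r11_218 (nat_lit 0) (nat_lit 0) (nat_lit 0) (nat_lit 0x8017985b4) (nat_lit 536870912)]
noncomputable def e39_35 : List Rx := [
  Rx.mk (nat_lit 196) (nat_lit 4) (nat_lit 0) (nat_lit 3) (nat_lit 4) (nat_lit 293) (nat_lit 106) r7_293 r6_106 (nat_lit 3103288) (nat_lit 3417910) (nat_lit 0) (nat_lit 0x6f0f18210) (nat_lit 817792160),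
  Rx.mk (nat_lit 197) (nat_lit 5) (nat_lit 0) (nat_lit 3) (nat_lit 5) (nat_lit 297) (nat_lit 107) r7_297 r6_107 (nat_lit 0) (nat_lit 12588522) (nat_lit 0) (nat_lit 0x8109aaa8c) (nat_lit 534683584),
  Rx.mk (nat_lit 199) (nat_lit 7) (nat_lit 0) (nat_lit 3) (nat_lit 5) (nat_lit 301) (nat_lit 108) r7_301 r6_108 (nat_lit 0) (nat_lit 9429526) (nat_lit 0) (nat_lit 0x80843ba90) (nat_lit 539527188),
  Rx.mk (nat_lit 204) (nat_lit 4) (nat_lit 1) (nat_lit 3) (nat_lit 6) (nat_lit 294) (nat_lit 109) r7_294 r6_109 (nat_lit 10382740) (nat_lit 0) (nat_lit 0) (nat_lit 0x817f374a8) (nat_lit 525372102),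
  Rx.mk (nat_lit 205) (nat_lit 5) (nat_lit 1) (nat_lit 3) (nat_lit 7) (nat_lit 298) (nat_lit 110) r7_298 r6_110 (nat_lit 0) (nat_lit 0) (nat_lit 0) (nat_lit 0x806259ae4) (nat_lit 532286612),
  Rx.mk (nat_lit 207) (nat_lit 7) (nat_lit 1) (nat_lit 3) (nat_lit 7) (nat_lit 302) (nat_lit 111) r7_302 r6_111 (nat_lit 0) (nat_lit 0) (nat_lit 0) (nat_lit 0x80e84372c) (nat_lit 524123412),
  Rx.mk (nat_lit 220) (nat_lit 4) (nat_lit 3) (nat_lit 3) (nat_lit 6) (nat_lit 295) (nat_lit 112) r7_295 r6_112 (nat_lit 24741287) (nat_lit 0) (nat_lit 0) (nat_lit 0x7f4e81a9a) (nat_lit 574017999),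
  Rx.mk (nat_lit 221) (nat_lit 5) (nat_lit 3) (nat_lit 3) (nat_lit 7) (nat_lit 299) (nat_lit 113) r7_299 r6_113 (nat_lit 0) (nat_lit 0) (nat_lit 0) (nat_lit 0x8017985b4) (nat_lit 536870912),
  Rx.mk (nat_lit 476) (nat_lit 4) (nat_lit 3) (nat_lit 7) (nat_lit 6) (nat_lit 296) (nat_lit 114) r7_296 r6_114 (nat_lit 8290090) (nat_lit 0) (nat_lit 0) (nat_lit 0x80c4482e6) (nat_lit 534483002),
  Rx.mk (nat_lit 477) (nat_lit 5) (nat_lit 3) (nat_lit 7) (nat_lit 7) (nat_lit 300) (nat_lit 115) r7_300 r6_115 (nat_lit 0) (nat_lit 0) (nat_lit 0) (nat_lit 0x810efde94) (nat_lit 521774762)]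
noncomputable def e39_36 : List Rx := [
  Rx.mk (nat_lit 196) (nat_lit 4) (nat_lit 0) (nat_lit 3) (nat_lit 4) (nat_lit 303) (nat_lit 332) r7_303 r12_332 (nat_lit 1948491) (nat_lit 2071523) (nat_lit 0) (nat_lit 0x725343702) (nat_lit 762393676),
  Rx.mk (nat_lit 197) (nat_lit 5) (nat_lit 0) (nat_lit 3) (nat_lit 5) (nat_lit 308) (nat_lit 337) r7_308 r12_337 (nat_lit 0) (nat_lit 8527156) (nat_lit 0) (nat_lit 0x81695c1f6) (nat_lit 524761868),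
  Rx.mk (nat_lit 199) (nat_lit 7) (nat_lit 0) (nat_lit 3) (nat_lit 5) (nat_lit 313) (nat_lit 342) r7_313 r12_342 (nat_lit 0) (nat_lit 6800525) (nat_lit 0) (nat_lit 0x808257a3a) (nat_lit 536924437),
  Rx.mk (nat_lit 204) (nat_lit 4) (nat_lit 1) (nat_lit 3) (nat_lit 6) (nat_lit 304) (nat_lit 334) r7_304 r12_334 (nat_lit 6531868) (nat_lit 0) (nat_lit 0) (nat_lit 0x84ddc88ac) (nat_lit 469895630),
  Rx.mk (nat_lit 205) (nat_lit 5) (nat_lit 1) (nat_lit 3) (nat_lit 7) (nat_lit 309) (nat_lit 339) r7_309 r12_339 (nat_lit 0) (nat_lit 0) (nat_lit 0) (nat_lit 0x80a647396) (nat_lit 528139662),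
  Rx.mk (nat_lit 207) (nat_lit 7) (nat_lit 1) (nat_lit 3) (nat_lit 7) (nat_lit 314) (nat_lit 343) r7_314 r12_343 (nat_lit 0) (nat_lit 0) (nat_lit 0) (nat_lit 0x8167097d2) (nat_lit 516457412),
  Rx.mk (nat_lit 452) (nat_lit 4) (nat_lit 0) (nat_lit 7) (nat_lit 4) (nat_lit 305) (nat_lit 333) r7_305 r12_333 (nat_lit 2071523) (nat_lit 1948491) (nat_lit 0) (nat_lit 0x725343702) (nat_lit 762393676),
  Rx.mk (nat_lit 453) (nat_lit 5) (nat_lit 0) (nat_lit 7) (nat_lit 5) (nat_lit 310) (nat_lit 338) r7_310 r12_338 (nat_lit 0) (nat_lit 6531868) (nat_lit 0) (nat_lit 0x84ddc88ac) (nat_lit 469895630),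
  Rx.mk (nat_lit 460) (nat_lit 4) (nat_lit 1) (nat_lit 7) (nat_lit 6) (nat_lit 306) (nat_lit 335) r7_306 r12_335 (nat_lit 8527156) (nat_lit 0) (nat_lit 0) (nat_lit 0x81695c1f6) (nat_lit 524761868),
  Rx.mk (nat_lit 461) (nat_lit 5) (nat_lit 1) (nat_lit 7) (nat_lit 7) (nat_lit 311) (nat_lit 340) r7_311 r12_340 (nat_lit 0) (nat_lit 0) (nat_lit 0) (nat_lit 0x80a647396) (nat_lit 528139662),
  Rx.mk (nat_lit 476) (nat_lit 4) (nat_lit 3) (nat_lit 7) (nat_lit 6) (nat_lit 307) (nat_lit 336) r7_307 r12_336 (nat_lit 6800525) (nat_lit 0) (nat_lit 0) (nat_lit 0x808257a3a) (nat_lit 536924437),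
  Rx.mk (nat_lit 477) (nat_lit 5) (nat_lit 3) (nat_lit 7) (nat_lit 7) (nat_lit 312) (nat_lit 341) r7_312 r12_341 (nat_lit 0) (nat_lit 0) (nat_lit 0) (nat_lit 0x8167097d2) (nat_lit 516457412)]
noncomputable def e39_37 : List Rx := [
  Rx.mk (nat_lit 223) (nat_lit 7) (nat_lit 3) (nat_lit 3) (nat_lit 7) (nat_lit 8) (nat_lit 104) r7_8 r0_104 (nat_lit 0) (nat_lit 0) (nat_lit 0) (nat_lit 0x7ffe471c8) (nat_lit 538421712),
  Rx.mk (nat_lit 294) (nat_lit 6) (nat_lit 4) (nat_lit 4) (nat_lit 1) (nat_lit 2) (nat_lit 105) r7_2 r0_105 (nat_lit 0) (nat_lit 4536926) (nat_lit 9373510) (nat_lit 0x680227486) (nat_lit 939230248),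
  Rx.mk (nat_lit 316) (nat_lit 4) (nat_lit 7) (nat_lit 4) (nat_lit 2) (nat_lit 0) (nat_lit 100) r7_0 r0_100 (nat_lit 31904360) (nat_lit 0) (nat_lit 46745449) (nat_lit 0x5c2702b54) (nat_lit 1195869321),
  Rx.mk (nat_lit 318) (nat_lit 6) (nat_lit 7) (nat_lit 4) (nat_lit 3) (nat_lit 3) (nat_lit 106) r7_3 r0_106 (nat_lit 0) (nat_lit 0) (nat_lit 73862049) (nat_lit 0x7d468cf26) (nat_lit 655662261),
  Rx.mk (nat_lit 422) (nat_lit 6) (nat_lit 4) (nat_lit 6) (nat_lit 5) (nat_lit 4) (nat_lit 108) r7_4 r0_108 (nat_lit 0) (nat_lit 24727622) (nat_lit 0) (nat_lit 0x7be4cbc66) (nat_lit 628839434),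
  Rx.mk (nat_lit 438) (nat_lit 6) (nat_lit 6) (nat_lit 6) (nat_lit 7) (nat_lit 5) (nat_lit 110) r7_5 r0_110 (nat_lit 0) (nat_lit 0) (nat_lit 0) (nat_lit 0x8017985b4) (nat_lit 536870912),
  Rx.mk (nat_lit 446) (nat_lit 6) (nat_lit 7) (nat_lit 6) (nat_lit 7) (nat_lit 6) (nat_lit 109) r7_6 r0_109 (nat_lit 0) (nat_lit 0) (nat_lit 0) (nat_lit 0x7ff31a048) (nat_lit 539113112),
  Rx.mk (nat_lit 479) (nat_lit 7) (nat_lit 3) (nat_lit 7) (nat_lit 7) (nat_lit 9) (nat_lit 103) r7_9 r0_103 (nat_lit 0) (nat_lit 0) (nat_lit 0) (nat_lit 0x8017985b4) (nat_lit 536870912),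
  Rx.mk (nat_lit 508) (nat_lit 4) (nat_lit 7) (nat_lit 7) (nat_lit 6) (nat_lit 1) (nat_lit 101) r7_1 r0_101 (nat_lit 15260325) (nat_lit 0) (nat_lit 0) (nat_lit 0x6e0d6284a) (nat_lit 843049387),
  Rx.mk (nat_lit 510) (nat_lit 6) (nat_lit 7) (nat_lit 7) (nat_lit 7) (nat_lit 7) (nat_lit 107) r7_7 r0_107 (nat_lit 0) (nat_lit 0) (nat_lit 0) (nat_lit 0x7fdfab7e6) (nat_lit 540283862),
  Rx.mk (nat_lit 511) (nat_lit 7) (nat_lit 7) (nat_lit 7) (nat_lit 7) (nat_lit 10) (nat_lit 102) r7_10 r0_102 (nat_lit 0) (nat_lit 0) (nat_lit 0) (nat_lit 0x7dc623460) (nat_lit 573811562)]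
noncomputable def e39_38 : List Rx := [
  Rx.mk (nat_lit 3) (nat_lit 3) (nat_lit 0) (nat_lit 0) (nat_lit 1) (nat_lit 96) (nat_lit 100) r7_96 r0_100 (nat_lit 0) (nat_lit 31904360) (nat_lit 46745449) (nat_lit 0x5c2702b54) (nat_lit 1195869321),
  Rx.mk (nat_lit 16) (nat_lit 0) (nat_lit 2) (nat_lit 0) (nat_lit 2) (nat_lit 93) (nat_lit 105) r7_93 r0_105 (nat_lit 4536926) (nat_lit 0) (nat_lit 9373510) (nat_lit 0x680227486) (nat_lit 939230248),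
  Rx.mk (nat_lit 19) (nat_lit 3) (nat_lit 2) (nat_lit 0) (nat_lit 3) (nat_lit 97) (nat_lit 106) r7_97 r0_106 (nat_lit 0) (nat_lit 0) (nat_lit 73862049) (nat_lit 0x7d468cf26) (nat_lit 655662261),
  Rx.mk (nat_lit 144) (nat_lit 0) (nat_lit 2) (nat_lit 2) (nat_lit 6) (nat_lit 94) (nat_lit 108) r7_94 r0_108 (nat_lit 24727622) (nat_lit 0) (nat_lit 0) (nat_lit 0x7be4cbc66) (nat_lit 628839434),
  Rx.mk (nat_lit 146) (nat_lit 2) (nat_lit 2) (nat_lit 2) (nat_lit 7) (nat_lit 95) (nat_lit 110) r7_95 r0_110 (nat_lit 0) (nat_lit 0) (nat_lit 0) (nat_lit 0x8017985b4) (nat_lit 536870912),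
  Rx.mk (nat_lit 147) (nat_lit 3) (nat_lit 2) (nat_lit 2) (nat_lit 7) (nat_lit 98) (nat_lit 109) r7_98 r0_109 (nat_lit 0) (nat_lit 0) (nat_lit 0) (nat_lit 0x7ff31a048) (nat_lit 539113112),
  Rx.mk (nat_lit 195) (nat_lit 3) (nat_lit 0) (nat_lit 3) (nat_lit 5) (nat_lit 99) (nat_lit 101) r7_99 r0_101 (nat_lit 0) (nat_lit 15260325) (nat_lit 0) (nat_lit 0x6e0d6284a) (nat_lit 843049387),
  Rx.mk (nat_lit 211) (nat_lit 3) (nat_lit 2) (nat_lit 3) (nat_lit 7) (nat_lit 100) (nat_lit 107) r7_100 r0_107 (nat_lit 0) (nat_lit 0) (nat_lit 0) (nat_lit 0x7fdfab7e6) (nat_lit 540283862),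
  Rx.mk (nat_lit 219) (nat_lit 3) (nat_lit 3) (nat_lit 3) (nat_lit 7) (nat_lit 101) (nat_lit 102) r7_101 r0_102 (nat_lit 0) (nat_lit 0) (nat_lit 0) (nat_lit 0x7dc623460) (nat_lit 573811562),
  Rx.mk (nat_lit 223) (nat_lit 7) (nat_lit 3) (nat_lit 3) (nat_lit 7) (nat_lit 102) (nat_lit 103) r7_102 r0_103 (nat_lit 0) (nat_lit 0) (nat_lit 0) (nat_lit 0x8017985b4) (nat_lit 536870912),
  Rx.mk (nat_lit 479) (nat_lit 7) (nat_lit 3) (nat_lit 7) (nat_lit 7) (nat_lit 103) (nat_lit 104) r7_103 r0_104 (nat_lit 0) (nat_lit 0) (nat_lit 0) (nat_lit 0x7ffe471c8) (nat_lit 538421712)]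
noncomputable def e39_39 : List Rx := [
  Rx.mk (nat_lit 3) (nat_lit 3) (nat_lit 0) (nat_lit 0) (nat_lit 1) (nat_lit 109) (nat_lit 117) r7_109 r7_117 (nat_lit 0) (nat_lit 1892156) (nat_lit 2171094) (nat_lit 0x66d673f48) (nat_lit 948189812),
  Rx.mk (nat_lit 16) (nat_lit 0) (nat_lit 2) (nat_lit 0) (nat_lit 2) (nat_lit 104) (nat_lit 115) r7_104 r7_115 (nat_lit 1892156) (nat_lit 0) (nat_lit 2171094) (nat_lit 0x66d673f48) (nat_lit 948189812),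
  Rx.mk (nat_lit 19) (nat_lit 3) (nat_lit 2) (nat_lit 0) (nat_lit 3) (nat_lit 110) (nat_lit 118) r7_110 r7_118 (nat_lit 0) (nat_lit 0) (nat_lit 27248611) (nat_lit 0x7eb81e31e) (nat_lit 585867273),
  Rx.mk (nat_lit 144) (nat_lit 0) (nat_lit 2) (nat_lit 2) (nat_lit 6) (nat_lit 105) (nat_lit 116) r7_105 r7_116 (nat_lit 20653400) (nat_lit 0) (nat_lit 0) (nat_lit 0x7eba33c62) (nat_lit 579149912),
  Rx.mk (nat_lit 146) (nat_lit 2) (nat_lit 2) (nat_lit 2) (nat_lit 7) (nat_lit 106) (nat_lit 125) r7_106 r7_125 (nat_lit 0) (nat_lit 0) (nat_lit 0) (nat_lit 0x8017985b4) (nat_lit 536870912),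
  Rx.mk (nat_lit 147) (nat_lit 3) (nat_lit 2) (nat_lit 2) (nat_lit 7) (nat_lit 111) (nat_lit 122) r7_111 r7_122 (nat_lit 0) (nat_lit 0) (nat_lit 0) (nat_lit 0x8017985b4) (nat_lit 536870912),
  Rx.mk (nat_lit 178) (nat_lit 2) (nat_lit 6) (nat_lit 2) (nat_lit 7) (nat_lit 107) (nat_lit 124) r7_107 r7_124 (nat_lit 0) (nat_lit 0) (nat_lit 0) (nat_lit 0x8017985b4) (nat_lit 536870912),
  Rx.mk (nat_lit 195) (nat_lit 3) (nat_lit 0) (nat_lit 3) (nat_lit 5) (nat_lit 112) (nat_lit 119) r7_112 r7_119 (nat_lit 0) (nat_lit 20653400) (nat_lit 0) (nat_lit 0x7eba33c62) (nat_lit 579149912),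
  Rx.mk (nat_lit 211) (nat_lit 3) (nat_lit 2) (nat_lit 3) (nat_lit 7) (nat_lit 113) (nat_lit 121) r7_113 r7_121 (nat_lit 0) (nat_lit 0) (nat_lit 0) (nat_lit 0x8017985b4) (nat_lit 536870912),
  Rx.mk (nat_lit 219) (nat_lit 3) (nat_lit 3) (nat_lit 3) (nat_lit 7) (nat_lit 114) (nat_lit 120) r7_114 r7_120 (nat_lit 0) (nat_lit 0) (nat_lit 0) (nat_lit 0x8017985b4) (nat_lit 536870912),
  Rx.mk (nat_lit 223) (nat_lit 7) (nat_lit 3) (nat_lit 3) (nat_lit 7) (nat_lit 123) (nat_lit 108) r7_123 r7_108 (nat_lit 0) (nat_lit 0) (nat_lit 0) (nat_lit 0x8017985b4) (nat_lit 536870912),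
  Rx.mk (nat_lit 294) (nat_lit 6) (nat_lit 4) (nat_lit 4) (nat_lit 1) (nat_lit 117) (nat_lit 109) r7_117 r7_109 (nat_lit 0) (nat_lit 1892156) (nat_lit 2171094) (nat_lit 0x66d673f48) (nat_lit 948189812),
  Rx.mk (nat_lit 316) (nat_lit 4) (nat_lit 7) (nat_lit 4) (nat_lit 2) (nat_lit 115) (nat_lit 104) r7_115 r7_104 (nat_lit 1892156) (nat_lit 0) (nat_lit 2171094) (nat_lit 0x66d673f48) (nat_lit 948189812),
  Rx.mk (nat_lit 318) (nat_lit 6) (nat_lit 7) (nat_lit 4) (nat_lit 3) (nat_lit 118) (nat_lit 110) r7_118 r7_110 (nat_lit 0) (nat_lit 0) (nat_lit 27248611) (nat_lit 0x7eb81e31e) (nat_lit 585867273),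
  Rx.mk (nat_lit 422) (nat_lit 6) (nat_lit 4) (nat_lit 6) (nat_lit 5) (nat_lit 119) (nat_lit 112) r7_119 r7_112 (nat_lit 0) (nat_lit 20653400) (nat_lit 0) (nat_lit 0x7eba33c62) (nat_lit 579149912),
  Rx.mk (nat_lit 434) (nat_lit 2) (nat_lit 6) (nat_lit 6) (nat_lit 7) (nat_lit 108) (nat_lit 123) r7_108 r7_123 (nat_lit 0) (nat_lit 0) (nat_lit 0) (nat_lit 0x8017985b4) (nat_lit 536870912),
  Rx.mk (nat_lit 438) (nat_lit 6) (nat_lit 6) (nat_lit 6) (nat_lit 7) (nat_lit 120) (nat_lit 114) r7_120 r7_114 (nat_lit 0) (nat_lit 0) (nat_lit 0) (nat_lit 0x8017985b4) (nat_lit 536870912),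
  Rx.mk (nat_lit 446) (nat_lit 6) (nat_lit 7) (nat_lit 6) (nat_lit 7) (nat_lit 121) (nat_lit 113) r7_121 r7_113 (nat_lit 0) (nat_lit 0) (nat_lit 0) (nat_lit 0x8017985b4) (nat_lit 536870912),
  Rx.mk (nat_lit 479) (nat_lit 7) (nat_lit 3) (nat_lit 7) (nat_lit 7) (nat_lit 124) (nat_lit 107) r7_124 r7_107 (nat_lit 0) (nat_lit 0) (nat_lit 0) (nat_lit 0x8017985b4) (nat_lit 536870912),
  Rx.mk (nat_lit 508) (nat_lit 4) (nat_lit 7) (nat_lit 7) (nat_lit 6) (nat_lit 116) (nat_lit 105) r7_116 r7_105 (nat_lit 20653400) (nat_lit 0) (nat_lit 0) (nat_lit 0x7eba33c62) (nat_lit 579149912),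
  Rx.mk (nat_lit 510) (nat_lit 6) (nat_lit 7) (nat_lit 7) (nat_lit 7) (nat_lit 122) (nat_lit 111) r7_122 r7_111 (nat_lit 0) (nat_lit 0) (nat_lit 0) (nat_lit 0x8017985b4) (nat_lit 536870912),
  Rx.mk (nat_lit 511) (nat_lit 7) (nat_lit 7) (nat_lit 7) (nat_lit 7) (nat_lit 125) (nat_lit 106) r7_125 r7_106 (nat_lit 0) (nat_lit 0) (nat_lit 0) (nat_lit 0x8017985b4) (nat_lit 536870912)]
noncomputable def e39_40 : List Rx := [
  Rx.mk (nat_lit 0) (nat_lit 0) (nat_lit 0) (nat_lit 0) (nat_lit 0) (nat_lit 339) (nat_lit 101) r7_339 r2_101 (nat_lit 2611593) (nat_lit 2362318) (nat_lit 3422726) (nat_lit 0x3ce06297a) (nat_lit 1631121799),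
  Rx.mk (nat_lit 1) (nat_lit 1) (nat_lit 0) (nat_lit 0) (nat_lit 1) (nat_lit 344) (nat_lit 102) r7_344 r2_102 (nat_lit 0) (nat_lit 33242310) (nat_lit 55381709) (nat_lit 0x6310bfaca) (nat_lit 1094102531),
  Rx.mk (nat_lit 16) (nat_lit 0) (nat_lit 2) (nat_lit 0) (nat_lit 2) (nat_lit 340) (nat_lit 107) r7_340 r2_107 (nat_lit 17983786) (nat_lit 0) (nat_lit 15429794) (nat_lit 0x642450a34) (nat_lit 1021437892),
  Rx.mk (nat_lit 17) (nat_lit 1) (nat_lit 2) (nat_lit 0) (nat_lit 3) (nat_lit 345) (nat_lit 108) r7_345 r2_108 (nat_lit 0) (nat_lit 0) (nat_lit 24741287) (nat_lit 0x800c30b36) (nat_lit 562309299),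
  Rx.mk (nat_lit 144) (nat_lit 0) (nat_lit 2) (nat_lit 2) (nat_lit 6) (nat_lit 341) (nat_lit 112) r7_341 r2_112 (nat_lit 24741287) (nat_lit 0) (nat_lit 0) (nat_lit 0x7ffac5806) (nat_lit 563378349),
  Rx.mk (nat_lit 145) (nat_lit 1) (nat_lit 2) (nat_lit 2) (nat_lit 7) (nat_lit 346) (nat_lit 113) r7_346 r2_113 (nat_lit 0) (nat_lit 0) (nat_lit 0) (nat_lit 0x8017985b4) (nat_lit 536870912),
  Rx.mk (nat_lit 146) (nat_lit 2) (nat_lit 2) (nat_lit 2) (nat_lit 7) (nat_lit 349) (nat_lit 114) r7_349 r2_114 (nat_lit 0) (nat_lit 0) (nat_lit 0) (nat_lit 0x8017985b4) (nat_lit 536870912),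
  Rx.mk (nat_lit 192) (nat_lit 0) (nat_lit 0) (nat_lit 3) (nat_lit 4) (nat_lit 342) (nat_lit 103) r7_342 r2_103 (nat_lit 15431888) (nat_lit 12919491) (nat_lit 0) (nat_lit 0x6872d6740) (nat_lit 946738841),
  Rx.mk (nat_lit 193) (nat_lit 1) (nat_lit 0) (nat_lit 3) (nat_lit 5) (nat_lit 347) (nat_lit 104) r7_347 r2_104 (nat_lit 0) (nat_lit 25208910) (nat_lit 0) (nat_lit 0x800becfd0) (nat_lit 562792922),
  Rx.mk (nat_lit 195) (nat_lit 3) (nat_lit 0) (nat_lit 3) (nat_lit 5) (nat_lit 350) (nat_lit 105) r7_350 r2_105 (nat_lit 0) (nat_lit 24741287) (nat_lit 0) (nat_lit 0x800c2469c) (nat_lit 562313099),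
  Rx.mk (nat_lit 208) (nat_lit 0) (nat_lit 2) (nat_lit 3) (nat_lit 6) (nat_lit 343) (nat_lit 109) r7_343 r2_109 (nat_lit 24741287) (nat_lit 0) (nat_lit 0) (nat_lit 0x800bf9d8e) (nat_lit 562322849),
  Rx.mk (nat_lit 209) (nat_lit 1) (nat_lit 2) (nat_lit 3) (nat_lit 7) (nat_lit 348) (nat_lit 110) r7_348 r2_110 (nat_lit 0) (nat_lit 0) (nat_lit 0) (nat_lit 0x8017985b4) (nat_lit 536870912),
  Rx.mk (nat_lit 211) (nat_lit 3) (nat_lit 2) (nat_lit 3) (nat_lit 7) (nat_lit 351) (nat_lit 111) r7_351 r2_111 (nat_lit 0) (nat_lit 0) (nat_lit 0) (nat_lit 0x8017985b4) (nat_lit 536870912),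
  Rx.mk (nat_lit 219) (nat_lit 3) (nat_lit 3) (nat_lit 3) (nat_lit 7) (nat_lit 352) (nat_lit 106) r7_352 r2_106 (nat_lit 0) (nat_lit 0) (nat_lit 0) (nat_lit 0x8017985b4) (nat_lit 536870912)]
noncomputable def e39_41 : List Rx := [
  Rx.mk (nat_lit 0) (nat_lit 0) (nat_lit 0) (nat_lit 0) (nat_lit 0) (nat_lit 366) (nat_lit 68) r7_366 r9_68 (nat_lit 12221267) (nat_lit 12174851) (nat_lit 53728367) (nat_lit 0x38c2f41c6) (nat_lit 1767626247),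
  Rx.mk (nat_lit 1) (nat_lit 1) (nat_lit 0) (nat_lit 0) (nat_lit 1) (nat_lit 371) (nat_lit 69) r7_371 r9_69 (nat_lit 0) (nat_lit 28898569) (nat_lit 49319051) (nat_lit 0x6539461d6) (nat_lit 1048798182),
  Rx.mk (nat_lit 16) (nat_lit 0) (nat_lit 2) (nat_lit 0) (nat_lit 2) (nat_lit 367) (nat_lit 74) r7_367 r9_74 (nat_lit 27374180) (nat_lit 0) (nat_lit 24913710) (nat_lit 0x629c47274) (nat_lit 1065121602),
  Rx.mk (nat_lit 17) (nat_lit 1) (nat_lit 2) (nat_lit 0) (nat_lit 3) (nat_lit 372) (nat_lit 75) r7_372 r9_75 (nat_lit 0) (nat_lit 0) (nat_lit 24624079) (nat_lit 0x8009fe8fe) (nat_lit 562326791),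
  Rx.mk (nat_lit 144) (nat_lit 0) (nat_lit 2) (nat_lit 2) (nat_lit 6) (nat_lit 368) (nat_lit 79) r7_368 r9_79 (nat_lit 24741287) (nat_lit 0) (nat_lit 0) (nat_lit 0x7fe3cd14e) (nat_lit 564781099),
  Rx.mk (nat_lit 145) (nat_lit 1) (nat_lit 2) (nat_lit 2) (nat_lit 7) (nat_lit 373) (nat_lit 80) r7_373 r9_80 (nat_lit 0) (nat_lit 0) (nat_lit 0) (nat_lit 0x8017985b4) (nat_lit 536870912),
  Rx.mk (nat_lit 146) (nat_lit 2) (nat_lit 2) (nat_lit 2) (nat_lit 7) (nat_lit 376) (nat_lit 81) r7_376 r9_81 (nat_lit 0) (nat_lit 0) (nat_lit 0) (nat_lit 0x8017985b4) (nat_lit 536870912),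
  Rx.mk (nat_lit 178) (nat_lit 2) (nat_lit 6) (nat_lit 2) (nat_lit 7) (nat_lit 377) (nat_lit 82) r7_377 r9_82 (nat_lit 0) (nat_lit 0) (nat_lit 0) (nat_lit 0x8017985b4) (nat_lit 536870912),
  Rx.mk (nat_lit 192) (nat_lit 0) (nat_lit 0) (nat_lit 3) (nat_lit 4) (nat_lit 369) (nat_lit 70) r7_369 r9_70 (nat_lit 25388524) (nat_lit 23888514) (nat_lit 0) (nat_lit 0x66b5a08de) (nat_lit 995832150),
  Rx.mk (nat_lit 193) (nat_lit 1) (nat_lit 0) (nat_lit 3) (nat_lit 5) (nat_lit 374) (nat_lit 71) r7_374 r9_71 (nat_lit 0) (nat_lit 24741287) (nat_lit 0) (nat_lit 0x7fff7117a) (nat_lit 563091449),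
  Rx.mk (nat_lit 195) (nat_lit 3) (nat_lit 0) (nat_lit 3) (nat_lit 5) (nat_lit 378) (nat_lit 72) r7_378 r9_72 (nat_lit 0) (nat_lit 24741287) (nat_lit 0) (nat_lit 0x800788c14) (nat_lit 562595399),
  Rx.mk (nat_lit 208) (nat_lit 0) (nat_lit 2) (nat_lit 3) (nat_lit 6) (nat_lit 370) (nat_lit 76) r7_370 r9_76 (nat_lit 24741287) (nat_lit 0) (nat_lit 0) (nat_lit 0x80064b5b8) (nat_lit 562671499),
  Rx.mk (nat_lit 209) (nat_lit 1) (nat_lit 2) (nat_lit 3) (nat_lit 7) (nat_lit 375) (nat_lit 77) r7_375 r9_77 (nat_lit 0) (nat_lit 0) (nat_lit 0) (nat_lit 0x8017985b4) (nat_lit 536870912),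
  Rx.mk (nat_lit 211) (nat_lit 3) (nat_lit 2) (nat_lit 3) (nat_lit 7) (nat_lit 379) (nat_lit 78) r7_379 r9_78 (nat_lit 0) (nat_lit 0) (nat_lit 0) (nat_lit 0x8017985b4) (nat_lit 536870912),
  Rx.mk (nat_lit 219) (nat_lit 3) (nat_lit 3) (nat_lit 3) (nat_lit 7) (nat_lit 380) (nat_lit 73) r7_380 r9_73 (nat_lit 0) (nat_lit 0) (nat_lit 0) (nat_lit 0x8017985b4) (nat_lit 536870912)]
noncomputable def e39_42 : List Rx := [
  Rx.mk (nat_lit 0) (nat_lit 0) (nat_lit 0) (nat_lit 0) (nat_lit 0) (nat_lit 353) (nat_lit 170) r7_353 r9_170 (nat_lit 13837945) (nat_lit 19525038) (nat_lit 25638298) (nat_lit 0x3a3a221ac) (nat_lit 1724813643),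
  Rx.mk (nat_lit 1) (nat_lit 1) (nat_lit 0) (nat_lit 0) (nat_lit 1) (nat_lit 357) (nat_lit 171) r7_357 r9_171 (nat_lit 0) (nat_lit 35325188) (nat_lit 50988633) (nat_lit 0x657b86a96) (nat_lit 1052706133),
  Rx.mk (nat_lit 16) (nat_lit 0) (nat_lit 2) (nat_lit 0) (nat_lit 2) (nat_lit 354) (nat_lit 172) r7_354 r9_172 (nat_lit 38278625) (nat_lit 0) (nat_lit 30361877) (nat_lit 0x697120ad0) (nat_lit 971010514),
  Rx.mk (nat_lit 17) (nat_lit 1) (nat_lit 2) (nat_lit 0) (nat_lit 3) (nat_lit 358) (nat_lit 173) r7_358 r9_173 (nat_lit 0) (nat_lit 0) (nat_lit 24741287) (nat_lit 0x800c2759a) (nat_lit 562311049),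
  Rx.mk (nat_lit 65) (nat_lit 1) (nat_lit 0) (nat_lit 1) (nat_lit 5) (nat_lit 359) (nat_lit 174) r7_359 r9_174 (nat_lit 0) (nat_lit 24741287) (nat_lit 0) (nat_lit 0x8017985b4) (nat_lit 561612199),
  Rx.mk (nat_lit 81) (nat_lit 1) (nat_lit 2) (nat_lit 1) (nat_lit 7) (nat_lit 360) (nat_lit 175) r7_360 r9_175 (nat_lit 0) (nat_lit 0) (nat_lit 0) (nat_lit 0x8017985b4) (nat_lit 536870912),
  Rx.mk (nat_lit 144) (nat_lit 0) (nat_lit 2) (nat_lit 2) (nat_lit 6) (nat_lit 355) (nat_lit 180) r7_355 r9_180 (nat_lit 24741287) (nat_lit 0) (nat_lit 0) (nat_lit 0x8017985b4) (nat_lit 561612199),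
  Rx.mk (nat_lit 145) (nat_lit 1) (nat_lit 2) (nat_lit 2) (nat_lit 7) (nat_lit 361) (nat_lit 181) r7_361 r9_181 (nat_lit 0) (nat_lit 0) (nat_lit 0) (nat_lit 0x8017985b4) (nat_lit 536870912),
  Rx.mk (nat_lit 146) (nat_lit 2) (nat_lit 2) (nat_lit 2) (nat_lit 7) (nat_lit 363) (nat_lit 182) r7_363 r9_182 (nat_lit 0) (nat_lit 0) (nat_lit 0) (nat_lit 0x8017985b4) (nat_lit 536870912),
  Rx.mk (nat_lit 192) (nat_lit 0) (nat_lit 0) (nat_lit 3) (nat_lit 4) (nat_lit 356) (nat_lit 176) r7_356 r9_176 (nat_lit 30412328) (nat_lit 22236043) (nat_lit 0) (nat_lit 0x6db23206a) (nat_lit 886234833),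
  Rx.mk (nat_lit 193) (nat_lit 1) (nat_lit 0) (nat_lit 3) (nat_lit 5) (nat_lit 362) (nat_lit 177) r7_362 r9_177 (nat_lit 0) (nat_lit 24741287) (nat_lit 0) (nat_lit 0x8017985b4) (nat_lit 561612199),
  Rx.mk (nat_lit 195) (nat_lit 3) (nat_lit 0) (nat_lit 3) (nat_lit 5) (nat_lit 364) (nat_lit 178) r7_364 r9_178 (nat_lit 0) (nat_lit 24741287) (nat_lit 0) (nat_lit 0x8017985b4) (nat_lit 561612199),
  Rx.mk (nat_lit 219) (nat_lit 3) (nat_lit 3) (nat_lit 3) (nat_lit 7) (nat_lit 365) (nat_lit 179) r7_365 r9_179 (nat_lit 0) (nat_lit 0) (nat_lit 0) (nat_lit 0x8017985b4) (nat_lit 536870912)]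
noncomputable def e39_43 : List Rx := [
  Rx.mk (nat_lit 0) (nat_lit 0) (nat_lit 0) (nat_lit 0) (nat_lit 0) (nat_lit 126) (nat_lit 107) r7_126 r1_107 (nat_lit 6392816) (nat_lit 5821095) (nat_lit 43642432) (nat_lit 0x44a1c92b0) (nat_lit 1553277655),
  Rx.mk (nat_lit 3) (nat_lit 3) (nat_lit 0) (nat_lit 0) (nat_lit 1) (nat_lit 130) (nat_lit 108) r7_130 r1_108 (nat_lit 0) (nat_lit 35130887) (nat_lit 78119258) (nat_lit 0x6d4852dd4) (nat_lit 953515857),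
  Rx.mk (nat_lit 16) (nat_lit 0) (nat_lit 2) (nat_lit 0) (nat_lit 2) (nat_lit 127) (nat_lit 111) r7_127 r1_111 (nat_lit 15973405) (nat_lit 0) (nat_lit 24461115) (nat_lit 0x6bcc10498) (nat_lit 904689032),
  Rx.mk (nat_lit 19) (nat_lit 3) (nat_lit 2) (nat_lit 0) (nat_lit 3) (nat_lit 131) (nat_lit 112) r7_131 r1_112 (nat_lit 0) (nat_lit 0) (nat_lit 24618950) (nat_lit 0x80095eab6) (nat_lit 562360112),
  Rx.mk (nat_lit 144) (nat_lit 0) (nat_lit 2) (nat_lit 2) (nat_lit 6) (nat_lit 128) (nat_lit 114) r7_128 r1_114 (nat_lit 16486043) (nat_lit 0) (nat_lit 0) (nat_lit 0x7aed483a4) (nat_lit 636147005),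
  Rx.mk (nat_lit 146) (nat_lit 2) (nat_lit 2) (nat_lit 2) (nat_lit 7) (nat_lit 129) (nat_lit 116) r7_129 r1_116 (nat_lit 0) (nat_lit 0) (nat_lit 0) (nat_lit 0x8017985b4) (nat_lit 536870912),
  Rx.mk (nat_lit 147) (nat_lit 3) (nat_lit 2) (nat_lit 2) (nat_lit 7) (nat_lit 132) (nat_lit 115) r7_132 r1_115 (nat_lit 0) (nat_lit 0) (nat_lit 0) (nat_lit 0x8017985b4) (nat_lit 536870912),
  Rx.mk (nat_lit 195) (nat_lit 3) (nat_lit 0) (nat_lit 3) (nat_lit 5) (nat_lit 133) (nat_lit 109) r7_133 r1_109 (nat_lit 0) (nat_lit 21790589) (nat_lit 0) (nat_lit 0x7f1945f52) (nat_lit 574322851),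
  Rx.mk (nat_lit 211) (nat_lit 3) (nat_lit 2) (nat_lit 3) (nat_lit 7) (nat_lit 134) (nat_lit 113) r7_134 r1_113 (nat_lit 0) (nat_lit 0) (nat_lit 0) (nat_lit 0x80538fe0a) (nat_lit 533186112),
  Rx.mk (nat_lit 219) (nat_lit 3) (nat_lit 3) (nat_lit 3) (nat_lit 7) (nat_lit 135) (nat_lit 110) r7_135 r1_110 (nat_lit 0) (nat_lit 0) (nat_lit 0) (nat_lit 0x8017985b4) (nat_lit 536870912)]
noncomputable def e39_44 : List Rx := [
  Rx.mk (nat_lit 0) (nat_lit 0) (nat_lit 0) (nat_lit 0) (nat_lit 0) (nat_lit 136) (nat_lit 78) r7_136 r8_78 (nat_lit 8960456) (nat_lit 8497828) (nat_lit 26185611) (nat_lit 0x362c7667e) (nat_lit 1774947907),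
  Rx.mk (nat_lit 3) (nat_lit 3) (nat_lit 0) (nat_lit 0) (nat_lit 1) (nat_lit 142) (nat_lit 81) r7_142 r8_81 (nat_lit 0) (nat_lit 14186136) (nat_lit 13633279) (nat_lit 0x6517ac3fe) (nat_lit 1000476627),
  Rx.mk (nat_lit 16) (nat_lit 0) (nat_lit 2) (nat_lit 0) (nat_lit 2) (nat_lit 137) (nat_lit 79) r7_137 r8_79 (nat_lit 24616168) (nat_lit 0) (nat_lit 24651851) (nat_lit 0x5ff890ccc) (nat_lit 1104782931),
  Rx.mk (nat_lit 19) (nat_lit 3) (nat_lit 2) (nat_lit 0) (nat_lit 3) (nat_lit 143) (nat_lit 82) r7_143 r8_82 (nat_lit 0) (nat_lit 0) (nat_lit 24741287) (nat_lit 0x7fe8e8d90) (nat_lit 564464999),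
  Rx.mk (nat_lit 144) (nat_lit 0) (nat_lit 2) (nat_lit 2) (nat_lit 6) (nat_lit 138) (nat_lit 80) r7_138 r8_80 (nat_lit 24741287) (nat_lit 0) (nat_lit 0) (nat_lit 0x7ff6824a6) (nat_lit 563637099),
  Rx.mk (nat_lit 146) (nat_lit 2) (nat_lit 2) (nat_lit 2) (nat_lit 7) (nat_lit 139) (nat_lit 89) r7_139 r8_89 (nat_lit 0) (nat_lit 0) (nat_lit 0) (nat_lit 0x8017985b4) (nat_lit 536870912),
  Rx.mk (nat_lit 147) (nat_lit 3) (nat_lit 2) (nat_lit 2) (nat_lit 7) (nat_lit 144) (nat_lit 86) r7_144 r8_86 (nat_lit 0) (nat_lit 0) (nat_lit 0) (nat_lit 0x8017985b4) (nat_lit 536870912),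
  Rx.mk (nat_lit 178) (nat_lit 2) (nat_lit 6) (nat_lit 2) (nat_lit 7) (nat_lit 140) (nat_lit 88) r7_140 r8_88 (nat_lit 0) (nat_lit 0) (nat_lit 0) (nat_lit 0x8017985b4) (nat_lit 536870912),
  Rx.mk (nat_lit 195) (nat_lit 3) (nat_lit 0) (nat_lit 3) (nat_lit 5) (nat_lit 145) (nat_lit 83) r7_145 r8_83 (nat_lit 0) (nat_lit 24741287) (nat_lit 0) (nat_lit 0x7fe1901b0) (nat_lit 564922449),
  Rx.mk (nat_lit 211) (nat_lit 3) (nat_lit 2) (nat_lit 3) (nat_lit 7) (nat_lit 146) (nat_lit 85) r7_146 r8_85 (nat_lit 0) (nat_lit 0) (nat_lit 0) (nat_lit 0x8017985b4) (nat_lit 536870912),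
  Rx.mk (nat_lit 219) (nat_lit 3) (nat_lit 3) (nat_lit 3) (nat_lit 7) (nat_lit 147) (nat_lit 84) r7_147 r8_84 (nat_lit 0) (nat_lit 0) (nat_lit 0) (nat_lit 0x8017985b4) (nat_lit 536870912),
  Rx.mk (nat_lit 434) (nat_lit 2) (nat_lit 6) (nat_lit 6) (nat_lit 7) (nat_lit 141) (nat_lit 87) r7_141 r8_87 (nat_lit 0) (nat_lit 0) (nat_lit 0) (nat_lit 0x8017985b4) (nat_lit 536870912)]
noncomputable def e39_45 : List Rx := [
  Rx.mk (nat_lit 292) (nat_lit 4) (nat_lit 4) (nat_lit 4) (nat_lit 0) (nat_lit 11) (nat_lit 107) r7_11 r1_107 (nat_lit 5821095) (nat_lit 6392816) (nat_lit 43642432) (nat_lit 0x44a1c92b0) (nat_lit 1553277655),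
  Rx.mk (nat_lit 294) (nat_lit 6) (nat_lit 4) (nat_lit 4) (nat_lit 1) (nat_lit 14) (nat_lit 111) r7_14 r1_111 (nat_lit 0) (nat_lit 15973405) (nat_lit 24461115) (nat_lit 0x6bcc10498) (nat_lit 904689032),
  Rx.mk (nat_lit 316) (nat_lit 4) (nat_lit 7) (nat_lit 4) (nat_lit 2) (nat_lit 12) (nat_lit 108) r7_12 r1_108 (nat_lit 35130887) (nat_lit 0) (nat_lit 78119258) (nat_lit 0x6d4852dd4) (nat_lit 953515857),
  Rx.mk (nat_lit 318) (nat_lit 6) (nat_lit 7) (nat_lit 4) (nat_lit 3) (nat_lit 15) (nat_lit 112) r7_15 r1_112 (nat_lit 0) (nat_lit 0) (nat_lit 24618950) (nat_lit 0x80095eab6) (nat_lit 562360112),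
  Rx.mk (nat_lit 422) (nat_lit 6) (nat_lit 4) (nat_lit 6) (nat_lit 5) (nat_lit 16) (nat_lit 114) r7_16 r1_114 (nat_lit 0) (nat_lit 16486043) (nat_lit 0) (nat_lit 0x7aed483a4) (nat_lit 636147005),
  Rx.mk (nat_lit 438) (nat_lit 6) (nat_lit 6) (nat_lit 6) (nat_lit 7) (nat_lit 17) (nat_lit 116) r7_17 r1_116 (nat_lit 0) (nat_lit 0) (nat_lit 0) (nat_lit 0x8017985b4) (nat_lit 536870912),
  Rx.mk (nat_lit 446) (nat_lit 6) (nat_lit 7) (nat_lit 6) (nat_lit 7) (nat_lit 18) (nat_lit 115) r7_18 r1_115 (nat_lit 0) (nat_lit 0) (nat_lit 0) (nat_lit 0x8017985b4) (nat_lit 536870912),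
  Rx.mk (nat_lit 508) (nat_lit 4) (nat_lit 7) (nat_lit 7) (nat_lit 6) (nat_lit 13) (nat_lit 109) r7_13 r1_109 (nat_lit 21790589) (nat_lit 0) (nat_lit 0) (nat_lit 0x7f1945f52) (nat_lit 574322851),
  Rx.mk (nat_lit 510) (nat_lit 6) (nat_lit 7) (nat_lit 7) (nat_lit 7) (nat_lit 19) (nat_lit 113) r7_19 r1_113 (nat_lit 0) (nat_lit 0) (nat_lit 0) (nat_lit 0x80538fe0a) (nat_lit 533186112),
  Rx.mk (nat_lit 511) (nat_lit 7) (nat_lit 7) (nat_lit 7) (nat_lit 7) (nat_lit 20) (nat_lit 110) r7_20 r1_110 (nat_lit 0) (nat_lit 0) (nat_lit 0) (nat_lit 0x8017985b4) (nat_lit 536870912)]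
noncomputable def e39_46 : List Rx := [
  Rx.mk (nat_lit 292) (nat_lit 4) (nat_lit 4) (nat_lit 4) (nat_lit 0) (nat_lit 21) (nat_lit 101) r7_21 r2_101 (nat_lit 2362318) (nat_lit 2611593) (nat_lit 3422726) (nat_lit 0x3ce06297a) (nat_lit 1631121799),
  Rx.mk (nat_lit 294) (nat_lit 6) (nat_lit 4) (nat_lit 4) (nat_lit 1) (nat_lit 26) (nat_lit 107) r7_26 r2_107 (nat_lit 0) (nat_lit 17983786) (nat_lit 15429794) (nat_lit 0x642450a34) (nat_lit 1021437892),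
  Rx.mk (nat_lit 300) (nat_lit 4) (nat_lit 5) (nat_lit 4) (nat_lit 2) (nat_lit 22) (nat_lit 102) r7_22 r2_102 (nat_lit 33242310) (nat_lit 0) (nat_lit 55381709) (nat_lit 0x6310bfaca) (nat_lit 1094102531),
  Rx.mk (nat_lit 302) (nat_lit 6) (nat_lit 5) (nat_lit 4) (nat_lit 3) (nat_lit 27) (nat_lit 108) r7_27 r2_108 (nat_lit 0) (nat_lit 0) (nat_lit 24741287) (nat_lit 0x800c30b36) (nat_lit 562309299),
  Rx.mk (nat_lit 422) (nat_lit 6) (nat_lit 4) (nat_lit 6) (nat_lit 5) (nat_lit 28) (nat_lit 112) r7_28 r2_112 (nat_lit 0) (nat_lit 24741287) (nat_lit 0) (nat_lit 0x7ffac5806) (nat_lit 563378349),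
  Rx.mk (nat_lit 430) (nat_lit 6) (nat_lit 5) (nat_lit 6) (nat_lit 7) (nat_lit 29) (nat_lit 113) r7_29 r2_113 (nat_lit 0) (nat_lit 0) (nat_lit 0) (nat_lit 0x8017985b4) (nat_lit 536870912),
  Rx.mk (nat_lit 438) (nat_lit 6) (nat_lit 6) (nat_lit 6) (nat_lit 7) (nat_lit 30) (nat_lit 114) r7_30 r2_114 (nat_lit 0) (nat_lit 0) (nat_lit 0) (nat_lit 0x8017985b4) (nat_lit 536870912),
  Rx.mk (nat_lit 484) (nat_lit 4) (nat_lit 4) (nat_lit 7) (nat_lit 4) (nat_lit 23) (nat_lit 103) r7_23 r2_103 (nat_lit 12919491) (nat_lit 15431888) (nat_lit 0) (nat_lit 0x6872d6740) (nat_lit 946738841),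
  Rx.mk (nat_lit 486) (nat_lit 6) (nat_lit 4) (nat_lit 7) (nat_lit 5) (nat_lit 31) (nat_lit 109) r7_31 r2_109 (nat_lit 0) (nat_lit 24741287) (nat_lit 0) (nat_lit 0x800bf9d8e) (nat_lit 562322849),
  Rx.mk (nat_lit 492) (nat_lit 4) (nat_lit 5) (nat_lit 7) (nat_lit 6) (nat_lit 24) (nat_lit 104) r7_24 r2_104 (nat_lit 25208910) (nat_lit 0) (nat_lit 0) (nat_lit 0x800becfd0) (nat_lit 562792922),
  Rx.mk (nat_lit 494) (nat_lit 6) (nat_lit 5) (nat_lit 7) (nat_lit 7) (nat_lit 32) (nat_lit 110) r7_32 r2_110 (nat_lit 0) (nat_lit 0) (nat_lit 0) (nat_lit 0x8017985b4) (nat_lit 536870912),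
  Rx.mk (nat_lit 508) (nat_lit 4) (nat_lit 7) (nat_lit 7) (nat_lit 6) (nat_lit 25) (nat_lit 105) r7_25 r2_105 (nat_lit 24741287) (nat_lit 0) (nat_lit 0) (nat_lit 0x800c2469c) (nat_lit 562313099),
  Rx.mk (nat_lit 510) (nat_lit 6) (nat_lit 7) (nat_lit 7) (nat_lit 7) (nat_lit 33) (nat_lit 111) r7_33 r2_111 (nat_lit 0) (nat_lit 0) (nat_lit 0) (nat_lit 0x8017985b4) (nat_lit 536870912),
  Rx.mk (nat_lit 511) (nat_lit 7) (nat_lit 7) (nat_lit 7) (nat_lit 7) (nat_lit 34) (nat_lit 106) r7_34 r2_106 (nat_lit 0) (nat_lit 0) (nat_lit 0) (nat_lit 0x8017985b4) (nat_lit 536870912)]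
noncomputable def e39_47 : List Rx := [
  Rx.mk (nat_lit 178) (nat_lit 2) (nat_lit 6) (nat_lit 2) (nat_lit 7) (nat_lit 148) (nat_lit 87) r7_148 r8_87 (nat_lit 0) (nat_lit 0) (nat_lit 0) (nat_lit 0x8017985b4) (nat_lit 536870912),
  Rx.mk (nat_lit 292) (nat_lit 4) (nat_lit 4) (nat_lit 4) (nat_lit 0) (nat_lit 150) (nat_lit 78) r7_150 r8_78 (nat_lit 8497828) (nat_lit 8960456) (nat_lit 26185611) (nat_lit 0x362c7667e) (nat_lit 1774947907),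
  Rx.mk (nat_lit 294) (nat_lit 6) (nat_lit 4) (nat_lit 4) (nat_lit 1) (nat_lit 153) (nat_lit 79) r7_153 r8_79 (nat_lit 0) (nat_lit 24616168) (nat_lit 24651851) (nat_lit 0x5ff890ccc) (nat_lit 1104782931),
  Rx.mk (nat_lit 316) (nat_lit 4) (nat_lit 7) (nat_lit 4) (nat_lit 2) (nat_lit 151) (nat_lit 81) r7_151 r8_81 (nat_lit 14186136) (nat_lit 0) (nat_lit 13633279) (nat_lit 0x6517ac3fe) (nat_lit 1000476627),
  Rx.mk (nat_lit 318) (nat_lit 6) (nat_lit 7) (nat_lit 4) (nat_lit 3) (nat_lit 154) (nat_lit 82) r7_154 r8_82 (nat_lit 0) (nat_lit 0) (nat_lit 24741287) (nat_lit 0x7fe8e8d90) (nat_lit 564464999),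
  Rx.mk (nat_lit 422) (nat_lit 6) (nat_lit 4) (nat_lit 6) (nat_lit 5) (nat_lit 155) (nat_lit 80) r7_155 r8_80 (nat_lit 0) (nat_lit 24741287) (nat_lit 0) (nat_lit 0x7ff6824a6) (nat_lit 563637099),
  Rx.mk (nat_lit 434) (nat_lit 2) (nat_lit 6) (nat_lit 6) (nat_lit 7) (nat_lit 149) (nat_lit 88) r7_149 r8_88 (nat_lit 0) (nat_lit 0) (nat_lit 0) (nat_lit 0x8017985b4) (nat_lit 536870912),
  Rx.mk (nat_lit 438) (nat_lit 6) (nat_lit 6) (nat_lit 6) (nat_lit 7) (nat_lit 156) (nat_lit 89) r7_156 r8_89 (nat_lit 0) (nat_lit 0) (nat_lit 0) (nat_lit 0x8017985b4) (nat_lit 536870912),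
  Rx.mk (nat_lit 446) (nat_lit 6) (nat_lit 7) (nat_lit 6) (nat_lit 7) (nat_lit 157) (nat_lit 86) r7_157 r8_86 (nat_lit 0) (nat_lit 0) (nat_lit 0) (nat_lit 0x8017985b4) (nat_lit 536870912),
  Rx.mk (nat_lit 508) (nat_lit 4) (nat_lit 7) (nat_lit 7) (nat_lit 6) (nat_lit 152) (nat_lit 83) r7_152 r8_83 (nat_lit 24741287) (nat_lit 0) (nat_lit 0) (nat_lit 0x7fe1901b0) (nat_lit 564922449),
  Rx.mk (nat_lit 510) (nat_lit 6) (nat_lit 7) (nat_lit 7) (nat_lit 7) (nat_lit 158) (nat_lit 85) r7_158 r8_85 (nat_lit 0) (nat_lit 0) (nat_lit 0) (nat_lit 0x8017985b4) (nat_lit 536870912),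
  Rx.mk (nat_lit 511) (nat_lit 7) (nat_lit 7) (nat_lit 7) (nat_lit 7) (nat_lit 159) (nat_lit 84) r7_159 r8_84 (nat_lit 0) (nat_lit 0) (nat_lit 0) (nat_lit 0x8017985b4) (nat_lit 536870912)]
noncomputable def e39_48 : List Rx := [
  Rx.mk (nat_lit 292) (nat_lit 4) (nat_lit 4) (nat_lit 4) (nat_lit 0) (nat_lit 161) (nat_lit 68) r7_161 r9_68 (nat_lit 12174851) (nat_lit 12221267) (nat_lit 53728367) (nat_lit 0x38c2f41c6) (nat_lit 1767626247),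
  Rx.mk (nat_lit 294) (nat_lit 6) (nat_lit 4) (nat_lit 4) (nat_lit 1) (nat_lit 166) (nat_lit 74) r7_166 r9_74 (nat_lit 0) (nat_lit 27374180) (nat_lit 24913710) (nat_lit 0x629c47274) (nat_lit 1065121602),
  Rx.mk (nat_lit 300) (nat_lit 4) (nat_lit 5) (nat_lit 4) (nat_lit 2) (nat_lit 162) (nat_lit 69) r7_162 r9_69 (nat_lit 28898569) (nat_lit 0) (nat_lit 49319051) (nat_lit 0x6539461d6) (nat_lit 1048798182),
  Rx.mk (nat_lit 302) (nat_lit 6) (nat_lit 5) (nat_lit 4) (nat_lit 3) (nat_lit 167) (nat_lit 75) r7_167 r9_75 (nat_lit 0) (nat_lit 0) (nat_lit 24624079) (nat_lit 0x8009fe8fe) (nat_lit 562326791),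
  Rx.mk (nat_lit 422) (nat_lit 6) (nat_lit 4) (nat_lit 6) (nat_lit 5) (nat_lit 168) (nat_lit 79) r7_168 r9_79 (nat_lit 0) (nat_lit 24741287) (nat_lit 0) (nat_lit 0x7fe3cd14e) (nat_lit 564781099),
  Rx.mk (nat_lit 430) (nat_lit 6) (nat_lit 5) (nat_lit 6) (nat_lit 7) (nat_lit 169) (nat_lit 80) r7_169 r9_80 (nat_lit 0) (nat_lit 0) (nat_lit 0) (nat_lit 0x8017985b4) (nat_lit 536870912),
  Rx.mk (nat_lit 434) (nat_lit 2) (nat_lit 6) (nat_lit 6) (nat_lit 7) (nat_lit 160) (nat_lit 82) r7_160 r9_82 (nat_lit 0) (nat_lit 0) (nat_lit 0) (nat_lit 0x8017985b4) (nat_lit 536870912),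
  Rx.mk (nat_lit 438) (nat_lit 6) (nat_lit 6) (nat_lit 6) (nat_lit 7) (nat_lit 170) (nat_lit 81) r7_170 r9_81 (nat_lit 0) (nat_lit 0) (nat_lit 0) (nat_lit 0x8017985b4) (nat_lit 536870912),
  Rx.mk (nat_lit 484) (nat_lit 4) (nat_lit 4) (nat_lit 7) (nat_lit 4) (nat_lit 163) (nat_lit 70) r7_163 r9_70 (nat_lit 23888514) (nat_lit 25388524) (nat_lit 0) (nat_lit 0x66b5a08de) (nat_lit 995832150),
  Rx.mk (nat_lit 486) (nat_lit 6) (nat_lit 4) (nat_lit 7) (nat_lit 5) (nat_lit 171) (nat_lit 76) r7_171 r9_76 (nat_lit 0) (nat_lit 24741287) (nat_lit 0) (nat_lit 0x80064b5b8) (nat_lit 562671499),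
  Rx.mk (nat_lit 492) (nat_lit 4) (nat_lit 5) (nat_lit 7) (nat_lit 6) (nat_lit 164) (nat_lit 71) r7_164 r9_71 (nat_lit 24741287) (nat_lit 0) (nat_lit 0) (nat_lit 0x7fff7117a) (nat_lit 563091449),
  Rx.mk (nat_lit 494) (nat_lit 6) (nat_lit 5) (nat_lit 7) (nat_lit 7) (nat_lit 172) (nat_lit 77) r7_172 r9_77 (nat_lit 0) (nat_lit 0) (nat_lit 0) (nat_lit 0x8017985b4) (nat_lit 536870912),
  Rx.mk (nat_lit 508) (nat_lit 4) (nat_lit 7) (nat_lit 7) (nat_lit 6) (nat_lit 165) (nat_lit 72) r7_165 r9_72 (nat_lit 24741287) (nat_lit 0) (nat_lit 0) (nat_lit 0x800788c14) (nat_lit 562595399),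
  Rx.mk (nat_lit 510) (nat_lit 6) (nat_lit 7) (nat_lit 7) (nat_lit 7) (nat_lit 173) (nat_lit 78) r7_173 r9_78 (nat_lit 0) (nat_lit 0) (nat_lit 0) (nat_lit 0x8017985b4) (nat_lit 536870912),
  Rx.mk (nat_lit 511) (nat_lit 7) (nat_lit 7) (nat_lit 7) (nat_lit 7) (nat_lit 174) (nat_lit 73) r7_174 r9_73 (nat_lit 0) (nat_lit 0) (nat_lit 0) (nat_lit 0x8017985b4) (nat_lit 536870912)]
noncomputable def e39_49 : List Rx := [
  Rx.mk (nat_lit 292) (nat_lit 4) (nat_lit 4) (nat_lit 4) (nat_lit 0) (nat_lit 204) (nat_lit 170) r7_204 r9_170 (nat_lit 19525038) (nat_lit 13837945) (nat_lit 25638298) (nat_lit 0x3a3a221ac) (nat_lit 1724813643),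
  Rx.mk (nat_lit 294) (nat_lit 6) (nat_lit 4) (nat_lit 4) (nat_lit 1) (nat_lit 210) (nat_lit 172) r7_210 r9_172 (nat_lit 0) (nat_lit 38278625) (nat_lit 30361877) (nat_lit 0x697120ad0) (nat_lit 971010514),
  Rx.mk (nat_lit 300) (nat_lit 4) (nat_lit 5) (nat_lit 4) (nat_lit 2) (nat_lit 205) (nat_lit 171) r7_205 r9_171 (nat_lit 35325188) (nat_lit 0) (nat_lit 50988633) (nat_lit 0x657b86a96) (nat_lit 1052706133),
  Rx.mk (nat_lit 302) (nat_lit 6) (nat_lit 5) (nat_lit 4) (nat_lit 3) (nat_lit 211) (nat_lit 173) r7_211 r9_173 (nat_lit 0) (nat_lit 0) (nat_lit 24741287) (nat_lit 0x800c2759a) (nat_lit 562311049),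
  Rx.mk (nat_lit 364) (nat_lit 4) (nat_lit 5) (nat_lit 5) (nat_lit 6) (nat_lit 206) (nat_lit 174) r7_206 r9_174 (nat_lit 24741287) (nat_lit 0) (nat_lit 0) (nat_lit 0x8017985b4) (nat_lit 561612199),
  Rx.mk (nat_lit 366) (nat_lit 6) (nat_lit 5) (nat_lit 5) (nat_lit 7) (nat_lit 212) (nat_lit 175) r7_212 r9_175 (nat_lit 0) (nat_lit 0) (nat_lit 0) (nat_lit 0x8017985b4) (nat_lit 536870912),
  Rx.mk (nat_lit 422) (nat_lit 6) (nat_lit 4) (nat_lit 6) (nat_lit 5) (nat_lit 213) (nat_lit 180) r7_213 r9_180 (nat_lit 0) (nat_lit 24741287) (nat_lit 0) (nat_lit 0x8017985b4) (nat_lit 561612199),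
  Rx.mk (nat_lit 430) (nat_lit 6) (nat_lit 5) (nat_lit 6) (nat_lit 7) (nat_lit 214) (nat_lit 181) r7_214 r9_181 (nat_lit 0) (nat_lit 0) (nat_lit 0) (nat_lit 0x8017985b4) (nat_lit 536870912),
  Rx.mk (nat_lit 438) (nat_lit 6) (nat_lit 6) (nat_lit 6) (nat_lit 7) (nat_lit 215) (nat_lit 182) r7_215 r9_182 (nat_lit 0) (nat_lit 0) (nat_lit 0) (nat_lit 0x8017985b4) (nat_lit 536870912),
  Rx.mk (nat_lit 484) (nat_lit 4) (nat_lit 4) (nat_lit 7) (nat_lit 4) (nat_lit 207) (nat_lit 176) r7_207 r9_176 (nat_lit 22236043) (nat_lit 30412328) (nat_lit 0) (nat_lit 0x6db23206a) (nat_lit 886234833),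
  Rx.mk (nat_lit 492) (nat_lit 4) (nat_lit 5) (nat_lit 7) (nat_lit 6) (nat_lit 208) (nat_lit 177) r7_208 r9_177 (nat_lit 24741287) (nat_lit 0) (nat_lit 0) (nat_lit 0x8017985b4) (nat_lit 561612199),
  Rx.mk (nat_lit 508) (nat_lit 4) (nat_lit 7) (nat_lit 7) (nat_lit 6) (nat_lit 209) (nat_lit 178) r7_209 r9_178 (nat_lit 24741287) (nat_lit 0) (nat_lit 0) (nat_lit 0x8017985b4) (nat_lit 561612199),
  Rx.mk (nat_lit 511) (nat_lit 7) (nat_lit 7) (nat_lit 7) (nat_lit 7) (nat_lit 216) (nat_lit 179) r7_216 r9_179 (nat_lit 0) (nat_lit 0) (nat_lit 0) (nat_lit 0x8017985b4) (nat_lit 536870912)]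
noncomputable def e39_50 : List Rx := [
  Rx.mk (nat_lit 199) (nat_lit 7) (nat_lit 0) (nat_lit 3) (nat_lit 5) (nat_lit 36) (nat_lit 102) r7_36 r3_102 (nat_lit 0) (nat_lit 365028) (nat_lit 0) (nat_lit 0x82b316502) (nat_lit 496255090),
  Rx.mk (nat_lit 223) (nat_lit 7) (nat_lit 3) (nat_lit 3) (nat_lit 7) (nat_lit 37) (nat_lit 103) r7_37 r3_103 (nat_lit 0) (nat_lit 0) (nat_lit 0) (nat_lit 0x7f95fdf2c) (nat_lit 544861262),
  Rx.mk (nat_lit 476) (nat_lit 4) (nat_lit 3) (nat_lit 7) (nat_lit 6) (nat_lit 35) (nat_lit 100) r7_35 r3_100 (nat_lit 365028) (nat_lit 0) (nat_lit 0) (nat_lit 0x82b316502) (nat_lit 496255090),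
  Rx.mk (nat_lit 479) (nat_lit 7) (nat_lit 3) (nat_lit 7) (nat_lit 7) (nat_lit 38) (nat_lit 101) r7_38 r3_101 (nat_lit 0) (nat_lit 0) (nat_lit 0) (nat_lit 0x7f95fdf2c) (nat_lit 544861262)]
noncomputable def e39_51 : List Rx := [
  Rx.mk (nat_lit 199) (nat_lit 7) (nat_lit 0) (nat_lit 3) (nat_lit 5) (nat_lit 45) (nat_lit 102) r7_45 r4_102 (nat_lit 0) (nat_lit 15103995) (nat_lit 0) (nat_lit 0x808086120) (nat_lit 545531857),
  Rx.mk (nat_lit 223) (nat_lit 7) (nat_lit 3) (nat_lit 3) (nat_lit 7) (nat_lit 46) (nat_lit 103) r7_46 r4_103 (nat_lit 0) (nat_lit 0) (nat_lit 0) (nat_lit 0x8017985b4) (nat_lit 536870912),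
  Rx.mk (nat_lit 316) (nat_lit 4) (nat_lit 7) (nat_lit 4) (nat_lit 2) (nat_lit 39) (nat_lit 98) r7_39 r4_98 (nat_lit 11303237) (nat_lit 0) (nat_lit 21615915) (nat_lit 0x68ed8d4d4) (nat_lit 943524414),
  Rx.mk (nat_lit 318) (nat_lit 6) (nat_lit 7) (nat_lit 4) (nat_lit 3) (nat_lit 42) (nat_lit 104) r7_42 r4_104 (nat_lit 0) (nat_lit 0) (nat_lit 32199586) (nat_lit 0x7deebd290) (nat_lit 603434298),
  Rx.mk (nat_lit 446) (nat_lit 6) (nat_lit 7) (nat_lit 6) (nat_lit 7) (nat_lit 43) (nat_lit 106) r7_43 r4_106 (nat_lit 0) (nat_lit 0) (nat_lit 0) (nat_lit 0x8017985b4) (nat_lit 536870912),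
  Rx.mk (nat_lit 476) (nat_lit 4) (nat_lit 3) (nat_lit 7) (nat_lit 6) (nat_lit 40) (nat_lit 100) r7_40 r4_100 (nat_lit 17421724) (nat_lit 0) (nat_lit 0) (nat_lit 0x804c6a3e6) (nat_lit 551019636),
  Rx.mk (nat_lit 479) (nat_lit 7) (nat_lit 3) (nat_lit 7) (nat_lit 7) (nat_lit 47) (nat_lit 101) r7_47 r4_101 (nat_lit 0) (nat_lit 0) (nat_lit 0) (nat_lit 0x8017985b4) (nat_lit 536870912),
  Rx.mk (nat_lit 508) (nat_lit 4) (nat_lit 7) (nat_lit 7) (nat_lit 6) (nat_lit 41) (nat_lit 99) r7_41 r4_99 (nat_lit 10576130) (nat_lit 0) (nat_lit 0) (nat_lit 0x7fd267c38) (nat_lit 551565342),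
  Rx.mk (nat_lit 510) (nat_lit 6) (nat_lit 7) (nat_lit 7) (nat_lit 7) (nat_lit 44) (nat_lit 105) r7_44 r4_105 (nat_lit 0) (nat_lit 0) (nat_lit 0) (nat_lit 0x80d93c616) (nat_lit 525035062)]
noncomputable def e39_52 : List Rx := [
  Rx.mk (nat_lit 199) (nat_lit 7) (nat_lit 0) (nat_lit 3) (nat_lit 5) (nat_lit 49) (nat_lit 105) r7_49 r5_105 (nat_lit 0) (nat_lit 7182949) (nat_lit 0) (nat_lit 0x7cac4e324) (nat_lit 598492961),
  Rx.mk (nat_lit 455) (nat_lit 7) (nat_lit 0) (nat_lit 7) (nat_lit 5) (nat_lit 50) (nat_lit 103) r7_50 r5_103 (nat_lit 0) (nat_lit 19223735) (nat_lit 0) (nat_lit 0x75d2c1c74) (nat_lit 721395547),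
  Rx.mk (nat_lit 476) (nat_lit 4) (nat_lit 3) (nat_lit 7) (nat_lit 6) (nat_lit 48) (nat_lit 102) r7_48 r5_102 (nat_lit 6601539) (nat_lit 0) (nat_lit 0) (nat_lit 0x821cfef2e) (nat_lit 512046101),
  Rx.mk (nat_lit 479) (nat_lit 7) (nat_lit 3) (nat_lit 7) (nat_lit 7) (nat_lit 51) (nat_lit 104) r7_51 r5_104 (nat_lit 0) (nat_lit 0) (nat_lit 0) (nat_lit 0x8017985b4) (nat_lit 536870912)]
noncomputable def e39_53 : List Rx := [
  Rx.mk (nat_lit 3) (nat_lit 3) (nat_lit 0) (nat_lit 0) (nat_lit 1) (nat_lit 175) (nat_lit 98) r7_175 r4_98 (nat_lit 0) (nat_lit 11303237) (nat_lit 21615915) (nat_lit 0x68ed8d4d4) (nat_lit 943524414),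
  Rx.mk (nat_lit 19) (nat_lit 3) (nat_lit 2) (nat_lit 0) (nat_lit 3) (nat_lit 176) (nat_lit 104) r7_176 r4_104 (nat_lit 0) (nat_lit 0) (nat_lit 32199586) (nat_lit 0x7deebd290) (nat_lit 603434298),
  Rx.mk (nat_lit 147) (nat_lit 3) (nat_lit 2) (nat_lit 2) (nat_lit 7) (nat_lit 177) (nat_lit 106) r7_177 r4_106 (nat_lit 0) (nat_lit 0) (nat_lit 0) (nat_lit 0x8017985b4) (nat_lit 536870912),
  Rx.mk (nat_lit 195) (nat_lit 3) (nat_lit 0) (nat_lit 3) (nat_lit 5) (nat_lit 178) (nat_lit 99) r7_178 r4_99 (nat_lit 0) (nat_lit 10576130) (nat_lit 0) (nat_lit 0x7fd267c38) (nat_lit 551565342),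
  Rx.mk (nat_lit 199) (nat_lit 7) (nat_lit 0) (nat_lit 3) (nat_lit 5) (nat_lit 181) (nat_lit 100) r7_181 r4_100 (nat_lit 0) (nat_lit 17421724) (nat_lit 0) (nat_lit 0x804c6a3e6) (nat_lit 551019636),
  Rx.mk (nat_lit 211) (nat_lit 3) (nat_lit 2) (nat_lit 3) (nat_lit 7) (nat_lit 179) (nat_lit 105) r7_179 r4_105 (nat_lit 0) (nat_lit 0) (nat_lit 0) (nat_lit 0x80d93c616) (nat_lit 525035062),
  Rx.mk (nat_lit 223) (nat_lit 7) (nat_lit 3) (nat_lit 3) (nat_lit 7) (nat_lit 182) (nat_lit 101) r7_182 r4_101 (nat_lit 0) (nat_lit 0) (nat_lit 0) (nat_lit 0x8017985b4) (nat_lit 536870912),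
  Rx.mk (nat_lit 476) (nat_lit 4) (nat_lit 3) (nat_lit 7) (nat_lit 6) (nat_lit 180) (nat_lit 102) r7_180 r4_102 (nat_lit 15103995) (nat_lit 0) (nat_lit 0) (nat_lit 0x808086120) (nat_lit 545531857),
  Rx.mk (nat_lit 479) (nat_lit 7) (nat_lit 3) (nat_lit 7) (nat_lit 7) (nat_lit 183) (nat_lit 103) r7_183 r4_103 (nat_lit 0) (nat_lit 0) (nat_lit 0) (nat_lit 0x8017985b4) (nat_lit 536870912)]
noncomputable def e39_54 : List Rx := [
  Rx.mk (nat_lit 3) (nat_lit 3) (nat_lit 0) (nat_lit 0) (nat_lit 1) (nat_lit 184) (nat_lit 91) r7_184 r10_91 (nat_lit 0) (nat_lit 2041025) (nat_lit 2494455) (nat_lit 0x6a9b34cd0) (nat_lit 887706942),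
  Rx.mk (nat_lit 19) (nat_lit 3) (nat_lit 2) (nat_lit 0) (nat_lit 3) (nat_lit 185) (nat_lit 92) r7_185 r10_92 (nat_lit 0) (nat_lit 0) (nat_lit 24741287) (nat_lit 0x8017985b4) (nat_lit 561612199),
  Rx.mk (nat_lit 147) (nat_lit 3) (nat_lit 2) (nat_lit 2) (nat_lit 7) (nat_lit 186) (nat_lit 95) r7_186 r10_95 (nat_lit 0) (nat_lit 0) (nat_lit 0) (nat_lit 0x8017985b4) (nat_lit 536870912),
  Rx.mk (nat_lit 195) (nat_lit 3) (nat_lit 0) (nat_lit 3) (nat_lit 5) (nat_lit 187) (nat_lit 93) r7_187 r10_93 (nat_lit 0) (nat_lit 21221230) (nat_lit 0) (nat_lit 0x7ffecc166) (nat_lit 559591742),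
  Rx.mk (nat_lit 199) (nat_lit 7) (nat_lit 0) (nat_lit 3) (nat_lit 5) (nat_lit 195) (nat_lit 86) r7_195 r10_86 (nat_lit 0) (nat_lit 24741287) (nat_lit 0) (nat_lit 0x7fd76a0e6) (nat_lit 565534799),
  Rx.mk (nat_lit 211) (nat_lit 3) (nat_lit 2) (nat_lit 3) (nat_lit 7) (nat_lit 188) (nat_lit 94) r7_188 r10_94 (nat_lit 0) (nat_lit 0) (nat_lit 0) (nat_lit 0x8017985b4) (nat_lit 536870912),
  Rx.mk (nat_lit 223) (nat_lit 7) (nat_lit 3) (nat_lit 3) (nat_lit 7) (nat_lit 196) (nat_lit 87) r7_196 r10_87 (nat_lit 0) (nat_lit 0) (nat_lit 0) (nat_lit 0x8017985b4) (nat_lit 536870912),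
  Rx.mk (nat_lit 316) (nat_lit 4) (nat_lit 7) (nat_lit 4) (nat_lit 2) (nat_lit 189) (nat_lit 82) r7_189 r10_82 (nat_lit 2041025) (nat_lit 0) (nat_lit 2494455) (nat_lit 0x6a9b34cd0) (nat_lit 887706942),
  Rx.mk (nat_lit 318) (nat_lit 6) (nat_lit 7) (nat_lit 4) (nat_lit 3) (nat_lit 192) (nat_lit 88) r7_192 r10_88 (nat_lit 0) (nat_lit 0) (nat_lit 24741287) (nat_lit 0x8017985b4) (nat_lit 561612199),
  Rx.mk (nat_lit 446) (nat_lit 6) (nat_lit 7) (nat_lit 6) (nat_lit 7) (nat_lit 193) (nat_lit 90) r7_193 r10_90 (nat_lit 0) (nat_lit 0) (nat_lit 0) (nat_lit 0x8017985b4) (nat_lit 536870912),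
  Rx.mk (nat_lit 476) (nat_lit 4) (nat_lit 3) (nat_lit 7) (nat_lit 6) (nat_lit 190) (nat_lit 84) r7_190 r10_84 (nat_lit 24741287) (nat_lit 0) (nat_lit 0) (nat_lit 0x7fd76a0e6) (nat_lit 565534799),
  Rx.mk (nat_lit 479) (nat_lit 7) (nat_lit 3) (nat_lit 7) (nat_lit 7) (nat_lit 197) (nat_lit 85) r7_197 r10_85 (nat_lit 0) (nat_lit 0) (nat_lit 0) (nat_lit 0x8017985b4) (nat_lit 536870912),
  Rx.mk (nat_lit 508) (nat_lit 4) (nat_lit 7) (nat_lit 7) (nat_lit 6) (nat_lit 191) (nat_lit 83) r7_191 r10_83 (nat_lit 21221230) (nat_lit 0) (nat_lit 0) (nat_lit 0x7ffecc166) (nat_lit 559591742),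
  Rx.mk (nat_lit 510) (nat_lit 6) (nat_lit 7) (nat_lit 7) (nat_lit 7) (nat_lit 194) (nat_lit 89) r7_194 r10_89 (nat_lit 0) (nat_lit 0) (nat_lit 0) (nat_lit 0x8017985b4) (nat_lit 536870912)]
noncomputable def e39_55 : List Rx := [
  Rx.mk (nat_lit 195) (nat_lit 3) (nat_lit 0) (nat_lit 3) (nat_lit 5) (nat_lit 198) (nat_lit 105) r7_198 r11_105 (nat_lit 0) (nat_lit 22333228) (nat_lit 0) (nat_lit 0x7fea265d6) (nat_lit 561979440),
  Rx.mk (nat_lit 199) (nat_lit 7) (nat_lit 0) (nat_lit 3) (nat_lit 5) (nat_lit 201) (nat_lit 104) r7_201 r11_104 (nat_lit 0) (nat_lit 24741287) (nat_lit 0) (nat_lit 0x8017985b4) (nat_lit 561612199),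
  Rx.mk (nat_lit 211) (nat_lit 3) (nat_lit 2) (nat_lit 3) (nat_lit 7) (nat_lit 199) (nat_lit 106) r7_199 r11_106 (nat_lit 0) (nat_lit 0) (nat_lit 0) (nat_lit 0x8017985b4) (nat_lit 536870912),
  Rx.mk (nat_lit 455) (nat_lit 7) (nat_lit 0) (nat_lit 7) (nat_lit 5) (nat_lit 202) (nat_lit 102) r7_202 r11_102 (nat_lit 0) (nat_lit 24836041) (nat_lit 0) (nat_lit 0x800a5d2d2) (nat_lit 562522353),
  Rx.mk (nat_lit 476) (nat_lit 4) (nat_lit 3) (nat_lit 7) (nat_lit 6) (nat_lit 200) (nat_lit 101) r7_200 r11_101 (nat_lit 24741287) (nat_lit 0) (nat_lit 0) (nat_lit 0x8017985b4) (nat_lit 561612199),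
  Rx.mk (nat_lit 479) (nat_lit 7) (nat_lit 3) (nat_lit 7) (nat_lit 7) (nat_lit 203) (nat_lit 103) r7_203 r11_103 (nat_lit 0) (nat_lit 0) (nat_lit 0) (nat_lit 0x8017985b4) (nat_lit 536870912)]
noncomputable def e39_56 : List Rx := [
  Rx.mk (nat_lit 199) (nat_lit 7) (nat_lit 0) (nat_lit 3) (nat_lit 5) (nat_lit 272) (nat_lit 102) r7_272 r5_102 (nat_lit 0) (nat_lit 6601539) (nat_lit 0) (nat_lit 0x821cfef2e) (nat_lit 512046101),
  Rx.mk (nat_lit 220) (nat_lit 4) (nat_lit 3) (nat_lit 3) (nat_lit 6) (nat_lit 270) (nat_lit 103) r7_270 r5_103 (nat_lit 19223735) (nat_lit 0) (nat_lit 0) (nat_lit 0x75d2c1c74) (nat_lit 721395547),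
  Rx.mk (nat_lit 223) (nat_lit 7) (nat_lit 3) (nat_lit 3) (nat_lit 7) (nat_lit 273) (nat_lit 104) r7_273 r5_104 (nat_lit 0) (nat_lit 0) (nat_lit 0) (nat_lit 0x8017985b4) (nat_lit 536870912),
  Rx.mk (nat_lit 476) (nat_lit 4) (nat_lit 3) (nat_lit 7) (nat_lit 6) (nat_lit 271) (nat_lit 105) r7_271 r5_105 (nat_lit 7182949) (nat_lit 0) (nat_lit 0) (nat_lit 0x7cac4e324) (nat_lit 598492961)]
noncomputable def e39_57 : List Rx := [
  Rx.mk (nat_lit 199) (nat_lit 7) (nat_lit 0) (nat_lit 3) (nat_lit 5) (nat_lit 278) (nat_lit 101) r7_278 r11_101 (nat_lit 0) (nat_lit 24741287) (nat_lit 0) (nat_lit 0x8017985b4) (nat_lit 561612199),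
  Rx.mk (nat_lit 220) (nat_lit 4) (nat_lit 3) (nat_lit 3) (nat_lit 6) (nat_lit 274) (nat_lit 102) r7_274 r11_102 (nat_lit 24836041) (nat_lit 0) (nat_lit 0) (nat_lit 0x800a5d2d2) (nat_lit 562522353),
  Rx.mk (nat_lit 223) (nat_lit 7) (nat_lit 3) (nat_lit 3) (nat_lit 7) (nat_lit 279) (nat_lit 103) r7_279 r11_103 (nat_lit 0) (nat_lit 0) (nat_lit 0) (nat_lit 0x8017985b4) (nat_lit 536870912),
  Rx.mk (nat_lit 476) (nat_lit 4) (nat_lit 3) (nat_lit 7) (nat_lit 6) (nat_lit 275) (nat_lit 104) r7_275 r11_104 (nat_lit 24741287) (nat_lit 0) (nat_lit 0) (nat_lit 0x8017985b4) (nat_lit 561612199),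
  Rx.mk (nat_lit 508) (nat_lit 4) (nat_lit 7) (nat_lit 7) (nat_lit 6) (nat_lit 276) (nat_lit 105) r7_276 r11_105 (nat_lit 22333228) (nat_lit 0) (nat_lit 0) (nat_lit 0x7fea265d6) (nat_lit 561979440),
  Rx.mk (nat_lit 510) (nat_lit 6) (nat_lit 7) (nat_lit 7) (nat_lit 7) (nat_lit 277) (nat_lit 106) r7_277 r11_106 (nat_lit 0) (nat_lit 0) (nat_lit 0) (nat_lit 0x8017985b4) (nat_lit 536870912)]
noncomputable def e39 : List (List Rx) := [e39_0, e39_1, e39_2, e39_3, e39_4, e39_5, e39_6, e39_7, e39_8, e39_9, e39_10, e39_11, e39_12, e39_13, e39_14, e39_15, e39_16, e39_17, e39_18, e39_19, e39_20, e39_21, e39_22, e39_23, e39_24, e39_25, e39_26, e39_27, e39_28, e39_29, e39_30, e39_31, e39_32, e39_33, e39_34, e39_35, e39_36, e39_37, e39_38, e39_39, e39_40, e39_41, e39_42, e39_43, e39_44, e39_45, e39_46, e39_47, e39_48, e39_49, e39_50, e39_51, e39_52, e39_53, e39_54, e39_55,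 e39_56, e39_57]
noncomputable def e40_0 : List Rx := [
  Rx.mk (nat_lit 1) (nat_lit 1) (nat_lit 0) (nat_lit 0) (nat_lit 1) (nat_lit 180) (nat_lit 254) r2_180 r0_254 (nat_lit 0) (nat_lit 169414750) (nat_lit 32319873) (nat_lit 0x5d7f70754) (nat_lit 1297226585),
  Rx.mk (nat_lit 193) (nat_lit 1) (nat_lit 0) (nat_lit 3) (nat_lit 5) (nat_lit 181) (nat_lit 255) r2_181 r0_255 (nat_lit 0) (nat_lit 31094968) (nat_lit 0) (nat_lit 0x7d34113e2) (nat_lit 614066280),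
  Rx.mk (nat_lit 217) (nat_lit 1) (nat_lit 3) (nat_lit 3) (nat_lit 7) (nat_lit 182) (nat_lit 256) r2_182 r0_256 (nat_lit 0) (nat_lit 0) (nat_lit 0) (nat_lit 0x8017985b4) (nat_lit 536870912)]
noncomputable def e40_1 : List Rx := [
  Rx.mk (nat_lit 1) (nat_lit 1) (nat_lit 0) (nat_lit 0) (nat_lit 1) (nat_lit 183) (nat_lit 258) r2_183 r1_258 (nat_lit 0) (nat_lit 69955890) (nat_lit 62162713) (nat_lit 0x67d3cb8d0) (nat_lit 1060595215),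
  Rx.mk (nat_lit 65) (nat_lit 1) (nat_lit 0) (nat_lit 1) (nat_lit 5) (nat_lit 184) (nat_lit 259) r2_184 r1_259 (nat_lit 0) (nat_lit 24741287) (nat_lit 0) (nat_lit 0x8017985b4) (nat_lit 561612199),
  Rx.mk (nat_lit 193) (nat_lit 1) (nat_lit 0) (nat_lit 3) (nat_lit 5) (nat_lit 185) (nat_lit 260) r2_185 r1_260 (nat_lit 0) (nat_lit 25157357) (nat_lit 0) (nat_lit 0x800ccd3b4) (nat_lit 562687369),
  Rx.mk (nat_lit 217) (nat_lit 1) (nat_lit 3) (nat_lit 3) (nat_lit 7) (nat_lit 186) (nat_lit 261) r2_186 r1_261 (nat_lit 0) (nat_lit 0) (nat_lit 0) (nat_lit 0x8017985b4) (nat_lit 536870912)]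
noncomputable def e40_2 : List Rx := [
  Rx.mk (nat_lit 65) (nat_lit 1) (nat_lit 0) (nat_lit 1) (nat_lit 5) (nat_lit 310) (nat_lit 286) r2_310 r2_286 (nat_lit 0) (nat_lit 25705717) (nat_lit 0) (nat_lit 0x7fdb54706) (nat_lit 566263129),
  Rx.mk (nat_lit 73) (nat_lit 1) (nat_lit 1) (nat_lit 1) (nat_lit 7) (nat_lit 311) (nat_lit 287) r2_311 r2_287 (nat_lit 0) (nat_lit 0) (nat_lit 0) (nat_lit 0x8017985b4) (nat_lit 536870912)]
noncomputable def e40_3 : List Rx := [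
  Rx.mk (nat_lit 193) (nat_lit 1) (nat_lit 0) (nat_lit 3) (nat_lit 5) (nat_lit 59) (nat_lit 254) r2_59 r3_254 (nat_lit 0) (nat_lit 1368375) (nat_lit 0) (nat_lit 0x80b22cd14) (nat_lit 527945287),
  Rx.mk (nat_lit 217) (nat_lit 1) (nat_lit 3) (nat_lit 3) (nat_lit 7) (nat_lit 61) (nat_lit 255) r2_61 r3_255 (nat_lit 0) (nat_lit 0) (nat_lit 0) (nat_lit 0x842b28ae4) (nat_lit 474011712),
  Rx.mk (nat_lit 473) (nat_lit 1) (nat_lit 3) (nat_lit 7) (nat_lit 7) (nat_lit 60) (nat_lit 256) r2_60 r3_256 (nat_lit 0) (nat_lit 0) (nat_lit 0) (nat_lit 0x8616d9e60) (nat_lit 444661462)]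
noncomputable def e40_4 : List Rx := [
  Rx.mk (nat_lit 193) (nat_lit 1) (nat_lit 0) (nat_lit 3) (nat_lit 5) (nat_lit 187) (nat_lit 271) r2_187 r4_271 (nat_lit 0) (nat_lit 24741287) (nat_lit 0) (nat_lit 0x8017985b4) (nat_lit 561612199),
  Rx.mk (nat_lit 217) (nat_lit 1) (nat_lit 3) (nat_lit 3) (nat_lit 7) (nat_lit 188) (nat_lit 272) r2_188 r4_272 (nat_lit 0) (nat_lit 0) (nat_lit 0) (nat_lit 0x8017985b4) (nat_lit 536870912)]
noncomputable def e40_5 : List Rx := [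
  Rx.mk (nat_lit 193) (nat_lit 1) (nat_lit 0) (nat_lit 3) (nat_lit 5) (nat_lit 256) (nat_lit 258) r2_256 r5_258 (nat_lit 0) (nat_lit 39193482) (nat_lit 0) (nat_lit 0x80a1c8662) (nat_lit 567515444),
  Rx.mk (nat_lit 449) (nat_lit 1) (nat_lit 0) (nat_lit 7) (nat_lit 5) (nat_lit 255) (nat_lit 259) r2_255 r5_259 (nat_lit 0) (nat_lit 20262659) (nat_lit 0) (nat_lit 0x7ffd89060) (nat_lit 558709871),
  Rx.mk (nat_lit 473) (nat_lit 1) (nat_lit 3) (nat_lit 7) (nat_lit 7) (nat_lit 257) (nat_lit 260) r2_257 r5_260 (nat_lit 0) (nat_lit 0) (nat_lit 0) (nat_lit 0x8017985b4) (nat_lit 536870912)]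
noncomputable def e40_6 : List Rx := [
  Rx.mk (nat_lit 257) (nat_lit 1) (nat_lit 0) (nat_lit 4) (nat_lit 1) (nat_lit 323) (nat_lit 279) r2_323 r3_279 (nat_lit 0) (nat_lit 870846) (nat_lit 625176) (nat_lit 0x6220ea3a6) (nat_lit 1021510934),
  Rx.mk (nat_lit 261) (nat_lit 5) (nat_lit 0) (nat_lit 4) (nat_lit 1) (nat_lit 322) (nat_lit 276) r2_322 r3_276 (nat_lit 0) (nat_lit 625176) (nat_lit 870846) (nat_lit 0x6220ea3a6) (nat_lit 1021510934),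
  Rx.mk (nat_lit 265) (nat_lit 1) (nat_lit 1) (nat_lit 4) (nat_lit 3) (nat_lit 328) (nat_lit 284) r2_328 r3_284 (nat_lit 0) (nat_lit 0) (nat_lit 16366906) (nat_lit 0x6fe51c4c4) (nat_lit 814305468),
  Rx.mk (nat_lit 269) (nat_lit 5) (nat_lit 1) (nat_lit 4) (nat_lit 3) (nat_lit 327) (nat_lit 281) r2_327 r3_281 (nat_lit 0) (nat_lit 0) (nat_lit 29104789) (nat_lit 0x7433cc070) (nat_lit 757442951),
  Rx.mk (nat_lit 281) (nat_lit 1) (nat_lit 3) (nat_lit 4) (nat_lit 3) (nat_lit 332) (nat_lit 286) r2_332 r3_286 (nat_lit 0) (nat_lit 0) (nat_lit 27621288) (nat_lit 0x7e6a285a6) (nat_lit 591112650),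
  Rx.mk (nat_lit 321) (nat_lit 1) (nat_lit 0) (nat_lit 5) (nat_lit 5) (nat_lit 325) (nat_lit 280) r2_325 r3_280 (nat_lit 0) (nat_lit 29104789) (nat_lit 0) (nat_lit 0x7433cc070) (nat_lit 757442951),
  Rx.mk (nat_lit 325) (nat_lit 5) (nat_lit 0) (nat_lit 5) (nat_lit 5) (nat_lit 324) (nat_lit 277) r2_324 r3_277 (nat_lit 0) (nat_lit 16366906) (nat_lit 0) (nat_lit 0x6fe51c4c4) (nat_lit 814305468),
  Rx.mk (nat_lit 329) (nat_lit 1) (nat_lit 1) (nat_lit 5) (nat_lit 7) (nat_lit 330) (nat_lit 285) r2_330 r3_285 (nat_lit 0) (nat_lit 0) (nat_lit 0) (nat_lit 0x8017985b4) (nat_lit 536870912),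
  Rx.mk (nat_lit 333) (nat_lit 5) (nat_lit 1) (nat_lit 5) (nat_lit 7) (nat_lit 329) (nat_lit 282) r2_329 r3_282 (nat_lit 0) (nat_lit 0) (nat_lit 0) (nat_lit 0x8017985b4) (nat_lit 536870912),
  Rx.mk (nat_lit 345) (nat_lit 1) (nat_lit 3) (nat_lit 5) (nat_lit 7) (nat_lit 333) (nat_lit 287) r2_333 r3_287 (nat_lit 0) (nat_lit 0) (nat_lit 0) (nat_lit 0x80395644e) (nat_lit 534801512),
  Rx.mk (nat_lit 453) (nat_lit 5) (nat_lit 0) (nat_lit 7) (nat_lit 5) (nat_lit 326) (nat_lit 278) r2_326 r3_278 (nat_lit 0) (nat_lit 27621288) (nat_lit 0) (nat_lit 0x7e6a285a6) (nat_lit 591112650),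
  Rx.mk (nat_lit 461) (nat_lit 5) (nat_lit 1) (nat_lit 7) (nat_lit 7) (nat_lit 331) (nat_lit 283) r2_331 r3_283 (nat_lit 0) (nat_lit 0) (nat_lit 0) (nat_lit 0x80395644e) (nat_lit 534801512)]
noncomputable def e40_7 : List Rx := [
  Rx.mk (nat_lit 321) (nat_lit 1) (nat_lit 0) (nat_lit 5) (nat_lit 5) (nat_lit 277) (nat_lit 286) r2_277 r0_286 (nat_lit 0) (nat_lit 29130114) (nat_lit 0) (nat_lit 0x7eda42850) (nat_lit 585601326),
  Rx.mk (nat_lit 325) (nat_lit 5) (nat_lit 0) (nat_lit 5) (nat_lit 5) (nat_lit 276) (nat_lit 285) r2_276 r0_285 (nat_lit 0) (nat_lit 65725081) (nat_lit 0) (nat_lit 0x7b4d9ae64) (nat_lit 679298593),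
  Rx.mk (nat_lit 329) (nat_lit 1) (nat_lit 1) (nat_lit 5) (nat_lit 7) (nat_lit 279) (nat_lit 288) r2_279 r0_288 (nat_lit 0) (nat_lit 0) (nat_lit 0) (nat_lit 0x8017985b4) (nat_lit 536870912),
  Rx.mk (nat_lit 333) (nat_lit 5) (nat_lit 1) (nat_lit 5) (nat_lit 7) (nat_lit 278) (nat_lit 287) r2_278 r0_287 (nat_lit 0) (nat_lit 0) (nat_lit 0) (nat_lit 0x8017985b4) (nat_lit 536870912)]
noncomputable def e40_8 : List Rx := [
  Rx.mk (nat_lit 65) (nat_lit 1) (nat_lit 0) (nat_lit 1) (nat_lit 5) (nat_lit 306) (nat_lit 282) r2_306 r1_282 (nat_lit 0) (nat_lit 24741287) (nat_lit 0) (nat_lit 0x8017985b4) (nat_lit 561612199),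
  Rx.mk (nat_lit 73) (nat_lit 1) (nat_lit 1) (nat_lit 1) (nat_lit 7) (nat_lit 309) (nat_lit 285) r2_309 r1_285 (nat_lit 0) (nat_lit 0) (nat_lit 0) (nat_lit 0x8017985b4) (nat_lit 536870912),
  Rx.mk (nat_lit 321) (nat_lit 1) (nat_lit 0) (nat_lit 5) (nat_lit 5) (nat_lit 305) (nat_lit 281) r2_305 r1_281 (nat_lit 0) (nat_lit 24741287) (nat_lit 0) (nat_lit 0x80411f176) (nat_lit 559058049),
  Rx.mk (nat_lit 325) (nat_lit 5) (nat_lit 0) (nat_lit 5) (nat_lit 5) (nat_lit 304) (nat_lit 280) r2_304 r1_280 (nat_lit 0) (nat_lit 34697810) (nat_lit 0) (nat_lit 0x7fda33674) (nat_lit 575291622),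
  Rx.mk (nat_lit 329) (nat_lit 1) (nat_lit 1) (nat_lit 5) (nat_lit 7) (nat_lit 308) (nat_lit 284) r2_308 r1_284 (nat_lit 0) (nat_lit 0) (nat_lit 0) (nat_lit 0x8017985b4) (nat_lit 536870912),
  Rx.mk (nat_lit 333) (nat_lit 5) (nat_lit 1) (nat_lit 5) (nat_lit 7) (nat_lit 307) (nat_lit 283) r2_307 r1_283 (nat_lit 0) (nat_lit 0) (nat_lit 0) (nat_lit 0x8017985b4) (nat_lit 536870912)]
noncomputable def e40_9 : List Rx := [
  Rx.mk (nat_lit 321) (nat_lit 1) (nat_lit 0) (nat_lit 5) (nat_lit 5) (nat_lit 335) (nat_lit 300) r2_335 r4_300 (nat_lit 0) (nat_lit 24741287) (nat_lit 0) (nat_lit 0x7fcaef88e) (nat_lit 566317649),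
  Rx.mk (nat_lit 325) (nat_lit 5) (nat_lit 0) (nat_lit 5) (nat_lit 5) (nat_lit 334) (nat_lit 299) r2_334 r4_299 (nat_lit 0) (nat_lit 42912160) (nat_lit 0) (nat_lit 0x7cc9d2418) (nat_lit 632560472),
  Rx.mk (nat_lit 329) (nat_lit 1) (nat_lit 1) (nat_lit 5) (nat_lit 7) (nat_lit 337) (nat_lit 302) r2_337 r4_302 (nat_lit 0) (nat_lit 0) (nat_lit 0) (nat_lit 0x8017985b4) (nat_lit 536870912),
  Rx.mk (nat_lit 333) (nat_lit 5) (nat_lit 1) (nat_lit 5) (nat_lit 7) (nat_lit 336) (nat_lit 301) r2_336 r4_301 (nat_lit 0) (nat_lit 0) (nat_lit 0) (nat_lit 0x8017985b4) (nat_lit 536870912),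
  Rx.mk (nat_lit 345) (nat_lit 1) (nat_lit 3) (nat_lit 5) (nat_lit 7) (nat_lit 338) (nat_lit 303) r2_338 r4_303 (nat_lit 0) (nat_lit 0) (nat_lit 0) (nat_lit 0x8017985b4) (nat_lit 536870912)]
noncomputable def e40_10 : List Rx := [
  Rx.mk (nat_lit 281) (nat_lit 1) (nat_lit 3) (nat_lit 4) (nat_lit 3) (nat_lit 253) (nat_lit 287) r2_253 r6_287 (nat_lit 0) (nat_lit 0) (nat_lit 32877958) (nat_lit 0x7f6f4bf78) (nat_lit 580120470),
  Rx.mk (nat_lit 449) (nat_lit 1) (nat_lit 0) (nat_lit 7) (nat_lit 5) (nat_lit 252) (nat_lit 286) r2_252 r6_286 (nat_lit 0) (nat_lit 25088397) (nat_lit 0) (nat_lit 0x7fe4f918a) (nat_lit 565068109),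
  Rx.mk (nat_lit 453) (nat_lit 5) (nat_lit 0) (nat_lit 7) (nat_lit 5) (nat_lit 251) (nat_lit 289) r2_251 r6_289 (nat_lit 0) (nat_lit 37541131) (nat_lit 0) (nat_lit 0x7f337957c) (nat_lit 588490643),
  Rx.mk (nat_lit 473) (nat_lit 1) (nat_lit 3) (nat_lit 7) (nat_lit 7) (nat_lit 254) (nat_lit 288) r2_254 r6_288 (nat_lit 0) (nat_lit 0) (nat_lit 0) (nat_lit 0x8017985b4) (nat_lit 536870912)]
noncomputable def e40_11 : List Rx := [
  Rx.mk (nat_lit 257) (nat_lit 1) (nat_lit 0) (nat_lit 4) (nat_lit 1) (nat_lit 339) (nat_lit 276) r2_339 r5_276 (nat_lit 0) (nat_lit 29764725) (nat_lit 20559373) (nat_lit 0x5846938aa) (nat_lit 1230188910),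
  Rx.mk (nat_lit 265) (nat_lit 1) (nat_lit 1) (nat_lit 4) (nat_lit 3) (nat_lit 343) (nat_lit 280) r2_343 r5_280 (nat_lit 0) (nat_lit 0) (nat_lit 74305846) (nat_lit 0x6bbe842c0) (nat_lit 939452858),
  Rx.mk (nat_lit 281) (nat_lit 1) (nat_lit 3) (nat_lit 4) (nat_lit 3) (nat_lit 347) (nat_lit 283) r2_347 r5_283 (nat_lit 0) (nat_lit 0) (nat_lit 33327253) (nat_lit 0x7f65916c2) (nat_lit 581168965),
  Rx.mk (nat_lit 321) (nat_lit 1) (nat_lit 0) (nat_lit 5) (nat_lit 5) (nat_lit 340) (nat_lit 277) r2_340 r5_277 (nat_lit 0) (nat_lit 24741287) (nat_lit 0) (nat_lit 0x8017985b4) (nat_lit 561612199),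
  Rx.mk (nat_lit 329) (nat_lit 1) (nat_lit 1) (nat_lit 5) (nat_lit 7) (nat_lit 344) (nat_lit 281) r2_344 r5_281 (nat_lit 0) (nat_lit 0) (nat_lit 0) (nat_lit 0x8017985b4) (nat_lit 536870912),
  Rx.mk (nat_lit 345) (nat_lit 1) (nat_lit 3) (nat_lit 5) (nat_lit 7) (nat_lit 348) (nat_lit 284) r2_348 r5_284 (nat_lit 0) (nat_lit 0) (nat_lit 0) (nat_lit 0x8017985b4) (nat_lit 536870912),
  Rx.mk (nat_lit 449) (nat_lit 1) (nat_lit 0) (nat_lit 7) (nat_lit 5) (nat_lit 342) (nat_lit 278) r2_342 r5_278 (nat_lit 0) (nat_lit 27157988) (nat_lit 0) (nat_lit 0x7f2b617cc) (nat_lit 578604450),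
  Rx.mk (nat_lit 453) (nat_lit 5) (nat_lit 0) (nat_lit 7) (nat_lit 5) (nat_lit 341) (nat_lit 275) r2_341 r5_275 (nat_lit 0) (nat_lit 28314395) (nat_lit 0) (nat_lit 0x7f288f256) (nat_lit 579938957),
  Rx.mk (nat_lit 457) (nat_lit 1) (nat_lit 1) (nat_lit 7) (nat_lit 7) (nat_lit 346) (nat_lit 282) r2_346 r5_282 (nat_lit 0) (nat_lit 0) (nat_lit 0) (nat_lit 0x8017985b4) (nat_lit 536870912),
  Rx.mk (nat_lit 461) (nat_lit 5) (nat_lit 1) (nat_lit 7) (nat_lit 7) (nat_lit 345) (nat_lit 279) r2_345 r5_279 (nat_lit 0) (nat_lit 0) (nat_lit 0) (nat_lit 0x8017985b4) (nat_lit 536870912)]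
noncomputable def e40_12 : List Rx := [
  Rx.mk (nat_lit 16) (nat_lit 0) (nat_lit 2) (nat_lit 0) (nat_lit 2) (nat_lit 64) (nat_lit 31) r2_64 r0_31 (nat_lit 5596514) (nat_lit 0) (nat_lit 6423183) (nat_lit 0x5ddaed8d4) (nat_lit 1101594159),
  Rx.mk (nat_lit 17) (nat_lit 1) (nat_lit 2) (nat_lit 0) (nat_lit 3) (nat_lit 65) (nat_lit 32) r2_65 r0_32 (nat_lit 0) (nat_lit 0) (nat_lit 15050003) (nat_lit 0x808182fe2) (nat_lit 545392665),
  Rx.mk (nat_lit 18) (nat_lit 2) (nat_lit 2) (nat_lit 0) (nat_lit 3) (nat_lit 66) (nat_lit 33) r2_66 r0_33 (nat_lit 0) (nat_lit 0) (nat_lit 26786742) (nat_lit 0x7e49fc304) (nat_lit 592261154),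
  Rx.mk (nat_lit 146) (nat_lit 2) (nat_lit 2) (nat_lit 2) (nat_lit 7) (nat_lit 67) (nat_lit 42) r2_67 r0_42 (nat_lit 0) (nat_lit 0) (nat_lit 0) (nat_lit 0x8017985b4) (nat_lit 536870912),
  Rx.mk (nat_lit 192) (nat_lit 0) (nat_lit 0) (nat_lit 3) (nat_lit 4) (nat_lit 62) (nat_lit 34) r2_62 r0_34 (nat_lit 4998249) (nat_lit 13136814) (nat_lit 0) (nat_lit 0x5b905ca06) (nat_lit 1144741775),
  Rx.mk (nat_lit 193) (nat_lit 1) (nat_lit 0) (nat_lit 3) (nat_lit 5) (nat_lit 63) (nat_lit 35) r2_63 r0_35 (nat_lit 0) (nat_lit 28341495) (nat_lit 0) (nat_lit 0x7c3b84864) (nat_lit 626988107),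
  Rx.mk (nat_lit 208) (nat_lit 0) (nat_lit 2) (nat_lit 3) (nat_lit 6) (nat_lit 68) (nat_lit 39) r2_68 r0_39 (nat_lit 5674149) (nat_lit 0) (nat_lit 0) (nat_lit 0x7eaf25780) (nat_lit 564630711),
  Rx.mk (nat_lit 209) (nat_lit 1) (nat_lit 2) (nat_lit 3) (nat_lit 7) (nat_lit 69) (nat_lit 40) r2_69 r0_40 (nat_lit 0) (nat_lit 0) (nat_lit 0) (nat_lit 0x816b1f196) (nat_lit 516210712),
  Rx.mk (nat_lit 210) (nat_lit 2) (nat_lit 2) (nat_lit 3) (nat_lit 7) (nat_lit 70) (nat_lit 41) r2_70 r0_41 (nat_lit 0) (nat_lit 0) (nat_lit 0) (nat_lit 0x81560cc68) (nat_lit 517481712),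
  Rx.mk (nat_lit 216) (nat_lit 0) (nat_lit 3) (nat_lit 3) (nat_lit 6) (nat_lit 72) (nat_lit 36) r2_72 r0_36 (nat_lit 21507758) (nat_lit 0) (nat_lit 0) (nat_lit 0x7d43469ac) (nat_lit 603533220),
  Rx.mk (nat_lit 217) (nat_lit 1) (nat_lit 3) (nat_lit 3) (nat_lit 7) (nat_lit 73) (nat_lit 37) r2_73 r0_37 (nat_lit 0) (nat_lit 0) (nat_lit 0) (nat_lit 0x8017985b4) (nat_lit 536870912),
  Rx.mk (nat_lit 219) (nat_lit 3) (nat_lit 3) (nat_lit 3) (nat_lit 7) (nat_lit 74) (nat_lit 38) r2_74 r0_38 (nat_lit 0) (nat_lit 0) (nat_lit 0) (nat_lit 0x7ffabadac) (nat_lit 538636162),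
  Rx.mk (nat_lit 475) (nat_lit 3) (nat_lit 3) (nat_lit 7) (nat_lit 7) (nat_lit 71) (nat_lit 30) r2_71 r0_30 (nat_lit 0) (nat_lit 0) (nat_lit 0) (nat_lit 0x7ff838a16) (nat_lit 538790162)]
noncomputable def e40_13 : List Rx := [
  Rx.mk (nat_lit 0) (nat_lit 0) (nat_lit 0) (nat_lit 0) (nat_lit 0) (nat_lit 189) (nat_lit 339) r2_189 r7_339 (nat_lit 2611593) (nat_lit 3422726) (nat_lit 2362318) (nat_lit 0x3ce06297a) (nat_lit 1631121799),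
  Rx.mk (nat_lit 1) (nat_lit 1) (nat_lit 0) (nat_lit 0) (nat_lit 1) (nat_lit 190) (nat_lit 344) r2_190 r7_344 (nat_lit 0) (nat_lit 55381709) (nat_lit 33242310) (nat_lit 0x6310bfaca) (nat_lit 1094102531),
  Rx.mk (nat_lit 16) (nat_lit 0) (nat_lit 2) (nat_lit 0) (nat_lit 2) (nat_lit 193) (nat_lit 342) r2_193 r7_342 (nat_lit 15431888) (nat_lit 0) (nat_lit 12919491) (nat_lit 0x6872d6740) (nat_lit 946738841),
  Rx.mk (nat_lit 17) (nat_lit 1) (nat_lit 2) (nat_lit 0) (nat_lit 3) (nat_lit 194) (nat_lit 347) r2_194 r7_347 (nat_lit 0) (nat_lit 0) (nat_lit 25208910) (nat_lit 0x800becfd0) (nat_lit 562792922),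
  Rx.mk (nat_lit 18) (nat_lit 2) (nat_lit 2) (nat_lit 0) (nat_lit 3) (nat_lit 195) (nat_lit 350) r2_195 r7_350 (nat_lit 0) (nat_lit 0) (nat_lit 24741287) (nat_lit 0x800c2469c) (nat_lit 562313099),
  Rx.mk (nat_lit 146) (nat_lit 2) (nat_lit 2) (nat_lit 2) (nat_lit 7) (nat_lit 196) (nat_lit 352) r2_196 r7_352 (nat_lit 0) (nat_lit 0) (nat_lit 0) (nat_lit 0x8017985b4) (nat_lit 536870912),
  Rx.mk (nat_lit 192) (nat_lit 0) (nat_lit 0) (nat_lit 3) (nat_lit 4) (nat_lit 191) (nat_lit 340) r2_191 r7_340 (nat_lit 17983786) (nat_lit 15429794) (nat_lit 0) (nat_lit 0x642450a34) (nat_lit 1021437892),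
  Rx.mk (nat_lit 193) (nat_lit 1) (nat_lit 0) (nat_lit 3) (nat_lit 5) (nat_lit 192) (nat_lit 345) r2_192 r7_345 (nat_lit 0) (nat_lit 24741287) (nat_lit 0) (nat_lit 0x800c30b36) (nat_lit 562309299),
  Rx.mk (nat_lit 208) (nat_lit 0) (nat_lit 2) (nat_lit 3) (nat_lit 6) (nat_lit 197) (nat_lit 343) r2_197 r7_343 (nat_lit 24741287) (nat_lit 0) (nat_lit 0) (nat_lit 0x800bf9d8e) (nat_lit 562322849),
  Rx.mk (nat_lit 209) (nat_lit 1) (nat_lit 2) (nat_lit 3) (nat_lit 7) (nat_lit 198) (nat_lit 348) r2_198 r7_348 (nat_lit 0) (nat_lit 0) (nat_lit 0) (nat_lit 0x8017985b4) (nat_lit 536870912),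
  Rx.mk (nat_lit 210) (nat_lit 2) (nat_lit 2) (nat_lit 3) (nat_lit 7) (nat_lit 199) (nat_lit 351) r2_199 r7_351 (nat_lit 0) (nat_lit 0) (nat_lit 0) (nat_lit 0x8017985b4) (nat_lit 536870912),
  Rx.mk (nat_lit 216) (nat_lit 0) (nat_lit 3) (nat_lit 3) (nat_lit 6) (nat_lit 200) (nat_lit 341) r2_200 r7_341 (nat_lit 24741287) (nat_lit 0) (nat_lit 0) (nat_lit 0x7ffac5806) (nat_lit 563378349),
  Rx.mk (nat_lit 217) (nat_lit 1) (nat_lit 3) (nat_lit 3) (nat_lit 7) (nat_lit 201) (nat_lit 346) r2_201 r7_346 (nat_lit 0) (nat_lit 0) (nat_lit 0) (nat_lit 0x8017985b4) (nat_lit 536870912),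
  Rx.mk (nat_lit 219) (nat_lit 3) (nat_lit 3) (nat_lit 3) (nat_lit 7) (nat_lit 202) (nat_lit 349) r2_202 r7_349 (nat_lit 0) (nat_lit 0) (nat_lit 0) (nat_lit 0x8017985b4) (nat_lit 536870912)]
noncomputable def e40_14 : List Rx := [
  Rx.mk (nat_lit 16) (nat_lit 0) (nat_lit 2) (nat_lit 0) (nat_lit 2) (nat_lit 76) (nat_lit 31) r2_76 r1_31 (nat_lit 19918432) (nat_lit 0) (nat_lit 28114446) (nat_lit 0x712066600) (nat_lit 826141340),
  Rx.mk (nat_lit 18) (nat_lit 2) (nat_lit 2) (nat_lit 0) (nat_lit 3) (nat_lit 77) (nat_lit 32) r2_77 r1_32 (nat_lit 0) (nat_lit 0) (nat_lit 35404402) (nat_lit 0x7ebadf3d2) (nat_lit 593887464),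
  Rx.mk (nat_lit 146) (nat_lit 2) (nat_lit 2) (nat_lit 2) (nat_lit 7) (nat_lit 78) (nat_lit 38) r2_78 r1_38 (nat_lit 0) (nat_lit 0) (nat_lit 0) (nat_lit 0x8017985b4) (nat_lit 536870912),
  Rx.mk (nat_lit 192) (nat_lit 0) (nat_lit 0) (nat_lit 3) (nat_lit 4) (nat_lit 75) (nat_lit 33) r2_75 r1_33 (nat_lit 23439880) (nat_lit 29030061) (nat_lit 0) (nat_lit 0x6ea7937fc) (nat_lit 870542453),
  Rx.mk (nat_lit 208) (nat_lit 0) (nat_lit 2) (nat_lit 3) (nat_lit 6) (nat_lit 79) (nat_lit 36) r2_79 r1_36 (nat_lit 12320371) (nat_lit 0) (nat_lit 0) (nat_lit 0x80de8e3da) (nat_lit 537025133),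
  Rx.mk (nat_lit 210) (nat_lit 2) (nat_lit 2) (nat_lit 3) (nat_lit 7) (nat_lit 80) (nat_lit 37) r2_80 r1_37 (nat_lit 0) (nat_lit 0) (nat_lit 0) (nat_lit 0x804b9beec) (nat_lit 533672912),
  Rx.mk (nat_lit 216) (nat_lit 0) (nat_lit 3) (nat_lit 3) (nat_lit 6) (nat_lit 82) (nat_lit 34) r2_82 r1_34 (nat_lit 24741287) (nat_lit 0) (nat_lit 0) (nat_lit 0x800662966) (nat_lit 562664999),
  Rx.mk (nat_lit 219) (nat_lit 3) (nat_lit 3) (nat_lit 3) (nat_lit 7) (nat_lit 83) (nat_lit 35) r2_83 r1_35 (nat_lit 0) (nat_lit 0) (nat_lit 0) (nat_lit 0x8017985b4) (nat_lit 536870912),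
  Rx.mk (nat_lit 475) (nat_lit 3) (nat_lit 3) (nat_lit 7) (nat_lit 7) (nat_lit 81) (nat_lit 30) r2_81 r1_30 (nat_lit 0) (nat_lit 0) (nat_lit 0) (nat_lit 0x8017985b4) (nat_lit 536870912)]
noncomputable def e40_15 : List Rx := [
  Rx.mk (nat_lit 0) (nat_lit 0) (nat_lit 0) (nat_lit 0) (nat_lit 0) (nat_lit 221) (nat_lit 257) r2_221 r8_257 (nat_lit 8042902) (nat_lit 9703689) (nat_lit 7956767) (nat_lit 0x3b91a0bee) (nat_lit 1669754570),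
  Rx.mk (nat_lit 16) (nat_lit 0) (nat_lit 2) (nat_lit 0) (nat_lit 2) (nat_lit 223) (nat_lit 260) r2_223 r8_260 (nat_lit 26855489) (nat_lit 0) (nat_lit 23014465) (nat_lit 0x65ff1eed0) (nat_lit 1007952966),
  Rx.mk (nat_lit 18) (nat_lit 2) (nat_lit 2) (nat_lit 0) (nat_lit 3) (nat_lit 224) (nat_lit 263) r2_224 r8_263 (nat_lit 0) (nat_lit 0) (nat_lit 24741287) (nat_lit 0x8005746a8) (nat_lit 562722999),
  Rx.mk (nat_lit 146) (nat_lit 2) (nat_lit 2) (nat_lit 2) (nat_lit 7) (nat_lit 225) (nat_lit 265) r2_225 r8_265 (nat_lit 0) (nat_lit 0) (nat_lit 0) (nat_lit 0x8017985b4) (nat_lit 536870912),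
  Rx.mk (nat_lit 192) (nat_lit 0) (nat_lit 0) (nat_lit 3) (nat_lit 4) (nat_lit 222) (nat_lit 258) r2_222 r8_258 (nat_lit 26195638) (nat_lit 23096430) (nat_lit 0) (nat_lit 0x64c1b892a) (nat_lit 1027421630),
  Rx.mk (nat_lit 208) (nat_lit 0) (nat_lit 2) (nat_lit 3) (nat_lit 6) (nat_lit 226) (nat_lit 261) r2_226 r8_261 (nat_lit 25403330) (nat_lit 0) (nat_lit 0) (nat_lit 0x7ff0757d4) (nat_lit 564659792),
  Rx.mk (nat_lit 210) (nat_lit 2) (nat_lit 2) (nat_lit 3) (nat_lit 7) (nat_lit 227) (nat_lit 264) r2_227 r8_264 (nat_lit 0) (nat_lit 0) (nat_lit 0) (nat_lit 0x8017985b4) (nat_lit 536870912),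
  Rx.mk (nat_lit 216) (nat_lit 0) (nat_lit 3) (nat_lit 3) (nat_lit 6) (nat_lit 228) (nat_lit 259) r2_228 r8_259 (nat_lit 24741287) (nat_lit 0) (nat_lit 0) (nat_lit 0x8017985b4) (nat_lit 561612199),
  Rx.mk (nat_lit 219) (nat_lit 3) (nat_lit 3) (nat_lit 3) (nat_lit 7) (nat_lit 229) (nat_lit 262) r2_229 r8_262 (nat_lit 0) (nat_lit 0) (nat_lit 0) (nat_lit 0x8017985b4) (nat_lit 536870912)]
noncomputable def e40_16 : List Rx := [
  Rx.mk (nat_lit 0) (nat_lit 0) (nat_lit 0) (nat_lit 0) (nat_lit 0) (nat_lit 203) (nat_lit 25) r2_203 r8_25 (nat_lit 5186153) (nat_lit 12331261) (nat_lit 4963972) (nat_lit 0x3d9490d48) (nat_lit 1633943848),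
  Rx.mk (nat_lit 1) (nat_lit 1) (nat_lit 0) (nat_lit 0) (nat_lit 1) (nat_lit 204) (nat_lit 26) r2_204 r8_26 (nat_lit 0) (nat_lit 52104926) (nat_lit 34582474) (nat_lit 0x6328cac00) (nat_lit 1090646762),
  Rx.mk (nat_lit 16) (nat_lit 0) (nat_lit 2) (nat_lit 0) (nat_lit 2) (nat_lit 209) (nat_lit 27) r2_209 r8_27 (nat_lit 24833065) (nat_lit 0) (nat_lit 21402582) (nat_lit 0x6b091ef98) (nat_lit 922817759),
  Rx.mk (nat_lit 17) (nat_lit 1) (nat_lit 2) (nat_lit 0) (nat_lit 3) (nat_lit 210) (nat_lit 28) r2_210 r8_28 (nat_lit 0) (nat_lit 0) (nat_lit 24741287) (nat_lit 0x8017985b4) (nat_lit 561612199),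
  Rx.mk (nat_lit 18) (nat_lit 2) (nat_lit 2) (nat_lit 0) (nat_lit 3) (nat_lit 211) (nat_lit 29) r2_211 r8_29 (nat_lit 0) (nat_lit 0) (nat_lit 24741287) (nat_lit 0x7fd79296a) (nat_lit 565539099),
  Rx.mk (nat_lit 64) (nat_lit 0) (nat_lit 0) (nat_lit 1) (nat_lit 4) (nat_lit 205) (nat_lit 30) r2_205 r8_30 (nat_lit 57149300) (nat_lit 36724435) (nat_lit 0) (nat_lit 0x6701206b0) (nat_lit 1035651797),
  Rx.mk (nat_lit 65) (nat_lit 1) (nat_lit 0) (nat_lit 1) (nat_lit 5) (nat_lit 206) (nat_lit 31) r2_206 r8_31 (nat_lit 0) (nat_lit 25055876) (nat_lit 0) (nat_lit 0x7fce11080) (nat_lit 566426188),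
  Rx.mk (nat_lit 80) (nat_lit 0) (nat_lit 2) (nat_lit 1) (nat_lit 6) (nat_lit 212) (nat_lit 32) r2_212 r8_32 (nat_lit 24741287) (nat_lit 0) (nat_lit 0) (nat_lit 0x8017985b4) (nat_lit 561612199),
  Rx.mk (nat_lit 81) (nat_lit 1) (nat_lit 2) (nat_lit 1) (nat_lit 7) (nat_lit 213) (nat_lit 33) r2_213 r8_33 (nat_lit 0) (nat_lit 0) (nat_lit 0) (nat_lit 0x8017985b4) (nat_lit 536870912),
  Rx.mk (nat_lit 82) (nat_lit 2) (nat_lit 2) (nat_lit 1) (nat_lit 7) (nat_lit 214) (nat_lit 34) r2_214 r8_34 (nat_lit 0) (nat_lit 0) (nat_lit 0) (nat_lit 0x8017985b4) (nat_lit 536870912),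
  Rx.mk (nat_lit 146) (nat_lit 2) (nat_lit 2) (nat_lit 2) (nat_lit 7) (nat_lit 215) (nat_lit 42) r2_215 r8_42 (nat_lit 0) (nat_lit 0) (nat_lit 0) (nat_lit 0x8017985b4) (nat_lit 536870912),
  Rx.mk (nat_lit 192) (nat_lit 0) (nat_lit 0) (nat_lit 3) (nat_lit 4) (nat_lit 207) (nat_lit 35) r2_207 r8_35 (nat_lit 26542101) (nat_lit 20092839) (nat_lit 0) (nat_lit 0x6a8be4910) (nat_lit 931123202),
  Rx.mk (nat_lit 193) (nat_lit 1) (nat_lit 0) (nat_lit 3) (nat_lit 5) (nat_lit 208) (nat_lit 36) r2_208 r8_36 (nat_lit 0) (nat_lit 25669145) (nat_lit 0) (nat_lit 0x80014139c) (nat_lit 563906157),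
  Rx.mk (nat_lit 208) (nat_lit 0) (nat_lit 2) (nat_lit 3) (nat_lit 6) (nat_lit 216) (nat_lit 40) r2_216 r8_40 (nat_lit 24741287) (nat_lit 0) (nat_lit 0) (nat_lit 0x7ff611878) (nat_lit 563663549),
  Rx.mk (nat_lit 209) (nat_lit 1) (nat_lit 2) (nat_lit 3) (nat_lit 7) (nat_lit 217) (nat_lit 41) r2_217 r8_41 (nat_lit 0) (nat_lit 0) (nat_lit 0) (nat_lit 0x8017985b4) (nat_lit 536870912),
  Rx.mk (nat_lit 216) (nat_lit 0) (nat_lit 3) (nat_lit 3) (nat_lit 6) (nat_lit 218) (nat_lit 37) r2_218 r8_37 (nat_lit 24741287) (nat_lit 0) (nat_lit 0) (nat_lit 0x8017985b4) (nat_lit 561612199),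
  Rx.mk (nat_lit 217) (nat_lit 1) (nat_lit 3) (nat_lit 3) (nat_lit 7) (nat_lit 219) (nat_lit 38) r2_219 r8_38 (nat_lit 0) (nat_lit 0) (nat_lit 0) (nat_lit 0x8017985b4) (nat_lit 536870912),
  Rx.mk (nat_lit 219) (nat_lit 3) (nat_lit 3) (nat_lit 3) (nat_lit 7) (nat_lit 220) (nat_lit 39) r2_220 r8_39 (nat_lit 0) (nat_lit 0) (nat_lit 0) (nat_lit 0x8017985b4) (nat_lit 536870912)]
noncomputable def e40_17 : List Rx := [
  Rx.mk (nat_lit 64) (nat_lit 0) (nat_lit 0) (nat_lit 1) (nat_lit 4) (nat_lit 316) (nat_lit 260) r2_316 r9_260 (nat_lit 67893355) (nat_lit 40876841) (nat_lit 0) (nat_lit 0x6a127e06c) (nat_lit 1000948958),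
  Rx.mk (nat_lit 65) (nat_lit 1) (nat_lit 0) (nat_lit 1) (nat_lit 5) (nat_lit 317) (nat_lit 262) r2_317 r9_262 (nat_lit 0) (nat_lit 24603401) (nat_lit 0) (nat_lit 0x8007974d0) (nat_lit 562452963),
  Rx.mk (nat_lit 73) (nat_lit 1) (nat_lit 1) (nat_lit 1) (nat_lit 7) (nat_lit 318) (nat_lit 263) r2_318 r9_263 (nat_lit 0) (nat_lit 0) (nat_lit 0) (nat_lit 0x8017985b4) (nat_lit 536870912),
  Rx.mk (nat_lit 80) (nat_lit 0) (nat_lit 2) (nat_lit 1) (nat_lit 6) (nat_lit 319) (nat_lit 261) r2_319 r9_261 (nat_lit 24741287) (nat_lit 0) (nat_lit 0) (nat_lit 0x8017985b4) (nat_lit 561612199),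
  Rx.mk (nat_lit 81) (nat_lit 1) (nat_lit 2) (nat_lit 1) (nat_lit 7) (nat_lit 320) (nat_lit 264) r2_320 r9_264 (nat_lit 0) (nat_lit 0) (nat_lit 0) (nat_lit 0x8017985b4) (nat_lit 536870912),
  Rx.mk (nat_lit 82) (nat_lit 2) (nat_lit 2) (nat_lit 1) (nat_lit 7) (nat_lit 321) (nat_lit 265) r2_321 r9_265 (nat_lit 0) (nat_lit 0) (nat_lit 0) (nat_lit 0x8017985b4) (nat_lit 536870912)]
noncomputable def e40_18 : List Rx := [
  Rx.mk (nat_lit 192) (nat_lit 0) (nat_lit 0) (nat_lit 3) (nat_lit 4) (nat_lit 84) (nat_lit 24) r2_84 r4_24 (nat_lit 4698401) (nat_lit 8468611) (nat_lit 0) (nat_lit 0x6f73fce92) (nat_lit 818155574),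
  Rx.mk (nat_lit 193) (nat_lit 1) (nat_lit 0) (nat_lit 3) (nat_lit 5) (nat_lit 85) (nat_lit 25) r2_85 r4_25 (nat_lit 0) (nat_lit 26453388) (nat_lit 0) (nat_lit 0x802d4deae) (nat_lit 561974850),
  Rx.mk (nat_lit 208) (nat_lit 0) (nat_lit 2) (nat_lit 3) (nat_lit 6) (nat_lit 86) (nat_lit 28) r2_86 r4_28 (nat_lit 4236250) (nat_lit 0) (nat_lit 0) (nat_lit 0x81374ce9a) (nat_lit 523350712),
  Rx.mk (nat_lit 209) (nat_lit 1) (nat_lit 2) (nat_lit 3) (nat_lit 7) (nat_lit 87) (nat_lit 29) r2_87 r4_29 (nat_lit 0) (nat_lit 0) (nat_lit 0) (nat_lit 0x817902fd8) (nat_lit 515379662),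
  Rx.mk (nat_lit 210) (nat_lit 2) (nat_lit 2) (nat_lit 3) (nat_lit 7) (nat_lit 88) (nat_lit 30) r2_88 r4_30 (nat_lit 0) (nat_lit 0) (nat_lit 0) (nat_lit 0x8173c4f94) (nat_lit 515699662),
  Rx.mk (nat_lit 216) (nat_lit 0) (nat_lit 3) (nat_lit 3) (nat_lit 6) (nat_lit 92) (nat_lit 26) r2_92 r4_26 (nat_lit 18137495) (nat_lit 0) (nat_lit 0) (nat_lit 0x807289324) (nat_lit 549428707),
  Rx.mk (nat_lit 217) (nat_lit 1) (nat_lit 3) (nat_lit 3) (nat_lit 7) (nat_lit 93) (nat_lit 27) r2_93 r4_27 (nat_lit 0) (nat_lit 0) (nat_lit 0) (nat_lit 0x8017985b4) (nat_lit 536870912),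
  Rx.mk (nat_lit 472) (nat_lit 0) (nat_lit 3) (nat_lit 7) (nat_lit 6) (nat_lit 89) (nat_lit 21) r2_89 r4_21 (nat_lit 16949147) (nat_lit 0) (nat_lit 0) (nat_lit 0x80890f31e) (nat_lit 546864309),
  Rx.mk (nat_lit 473) (nat_lit 1) (nat_lit 3) (nat_lit 7) (nat_lit 7) (nat_lit 90) (nat_lit 22) r2_90 r4_22 (nat_lit 0) (nat_lit 0) (nat_lit 0) (nat_lit 0x8017985b4) (nat_lit 536870912),
  Rx.mk (nat_lit 475) (nat_lit 3) (nat_lit 3) (nat_lit 7) (nat_lit 7) (nat_lit 91) (nat_lit 23) r2_91 r4_23 (nat_lit 0) (nat_lit 0) (nat_lit 0) (nat_lit 0x8017985b4) (nat_lit 536870912)]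
noncomputable def e40_19 : List Rx := [
  Rx.mk (nat_lit 192) (nat_lit 0) (nat_lit 0) (nat_lit 3) (nat_lit 4) (nat_lit 230) (nat_lit 292) r2_230 r10_292 (nat_lit 13507056) (nat_lit 10828370) (nat_lit 0) (nat_lit 0x67d645c8c) (nat_lit 952582088),
  Rx.mk (nat_lit 193) (nat_lit 1) (nat_lit 0) (nat_lit 3) (nat_lit 5) (nat_lit 231) (nat_lit 295) r2_231 r10_295 (nat_lit 0) (nat_lit 24741287) (nat_lit 0) (nat_lit 0x8017985b4) (nat_lit 561612199),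
  Rx.mk (nat_lit 208) (nat_lit 0) (nat_lit 2) (nat_lit 3) (nat_lit 6) (nat_lit 232) (nat_lit 294) r2_232 r10_294 (nat_lit 26181532) (nat_lit 0) (nat_lit 0) (nat_lit 0x7fe1525fe) (nat_lit 566368444),
  Rx.mk (nat_lit 209) (nat_lit 1) (nat_lit 2) (nat_lit 3) (nat_lit 7) (nat_lit 233) (nat_lit 297) r2_233 r10_297 (nat_lit 0) (nat_lit 0) (nat_lit 0) (nat_lit 0x8017985b4) (nat_lit 536870912),
  Rx.mk (nat_lit 210) (nat_lit 2) (nat_lit 2) (nat_lit 3) (nat_lit 7) (nat_lit 234) (nat_lit 298) r2_234 r10_298 (nat_lit 0) (nat_lit 0) (nat_lit 0) (nat_lit 0x8017985b4) (nat_lit 536870912),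
  Rx.mk (nat_lit 216) (nat_lit 0) (nat_lit 3) (nat_lit 3) (nat_lit 6) (nat_lit 235) (nat_lit 293) r2_235 r10_293 (nat_lit 24741287) (nat_lit 0) (nat_lit 0) (nat_lit 0x8017985b4) (nat_lit 561612199),
  Rx.mk (nat_lit 217) (nat_lit 1) (nat_lit 3) (nat_lit 3) (nat_lit 7) (nat_lit 236) (nat_lit 296) r2_236 r10_296 (nat_lit 0) (nat_lit 0) (nat_lit 0) (nat_lit 0x8017985b4) (nat_lit 536870912)]
noncomputable def e40_20 : List Rx := [
  Rx.mk (nat_lit 192) (nat_lit 0) (nat_lit 0) (nat_lit 3) (nat_lit 4) (nat_lit 260) (nat_lit 308) r2_260 r11_308 (nat_lit 25006969) (nat_lit 36134950) (nat_lit 0) (nat_lit 0x75d2a943a) (nat_lit 763343081),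
  Rx.mk (nat_lit 193) (nat_lit 1) (nat_lit 0) (nat_lit 3) (nat_lit 5) (nat_lit 261) (nat_lit 312) r2_261 r11_312 (nat_lit 0) (nat_lit 24741287) (nat_lit 0) (nat_lit 0x8017985b4) (nat_lit 561612199),
  Rx.mk (nat_lit 208) (nat_lit 0) (nat_lit 2) (nat_lit 3) (nat_lit 6) (nat_lit 262) (nat_lit 311) r2_262 r11_311 (nat_lit 24741287) (nat_lit 0) (nat_lit 0) (nat_lit 0x8017985b4) (nat_lit 561612199),
  Rx.mk (nat_lit 209) (nat_lit 1) (nat_lit 2) (nat_lit 3) (nat_lit 7) (nat_lit 263) (nat_lit 315) r2_263 r11_315 (nat_lit 0) (nat_lit 0) (nat_lit 0) (nat_lit 0x8017985b4) (nat_lit 536870912),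
  Rx.mk (nat_lit 210) (nat_lit 2) (nat_lit 2) (nat_lit 3) (nat_lit 7) (nat_lit 264) (nat_lit 317) r2_264 r11_317 (nat_lit 0) (nat_lit 0) (nat_lit 0) (nat_lit 0x8017985b4) (nat_lit 536870912),
  Rx.mk (nat_lit 448) (nat_lit 0) (nat_lit 0) (nat_lit 7) (nat_lit 4) (nat_lit 258) (nat_lit 309) r2_258 r11_309 (nat_lit 33757685) (nat_lit 47863837) (nat_lit 0) (nat_lit 0x7c693e598) (nat_lit 677403034),
  Rx.mk (nat_lit 449) (nat_lit 1) (nat_lit 0) (nat_lit 7) (nat_lit 5) (nat_lit 259) (nat_lit 313) r2_259 r11_313 (nat_lit 0) (nat_lit 24741287) (nat_lit 0) (nat_lit 0x8017985b4) (nat_lit 561612199),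
  Rx.mk (nat_lit 472) (nat_lit 0) (nat_lit 3) (nat_lit 7) (nat_lit 6) (nat_lit 265) (nat_lit 310) r2_265 r11_310 (nat_lit 24741287) (nat_lit 0) (nat_lit 0) (nat_lit 0x8017985b4) (nat_lit 561612199),
  Rx.mk (nat_lit 473) (nat_lit 1) (nat_lit 3) (nat_lit 7) (nat_lit 7) (nat_lit 266) (nat_lit 314) r2_266 r11_314 (nat_lit 0) (nat_lit 0) (nat_lit 0) (nat_lit 0x8017985b4) (nat_lit 536870912),
  Rx.mk (nat_lit 475) (nat_lit 3) (nat_lit 3) (nat_lit 7) (nat_lit 7) (nat_lit 267) (nat_lit 316) r2_267 r11_316 (nat_lit 0) (nat_lit 0) (nat_lit 0) (nat_lit 0x8017985b4) (nat_lit 536870912)]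
noncomputable def e40_21 : List Rx := [
  Rx.mk (nat_lit 73) (nat_lit 1) (nat_lit 1) (nat_lit 1) (nat_lit 7) (nat_lit 315) (nat_lit 293) r2_315 r9_293 (nat_lit 0) (nat_lit 0) (nat_lit 0) (nat_lit 0x8017985b4) (nat_lit 536870912)]
noncomputable def e40_22 : List Rx := [
  Rx.mk (nat_lit 265) (nat_lit 1) (nat_lit 1) (nat_lit 4) (nat_lit 3) (nat_lit 281) (nat_lit 285) r2_281 r0_285 (nat_lit 0) (nat_lit 0) (nat_lit 65725081) (nat_lit 0x7b4d9ae64) (nat_lit 679298593),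
  Rx.mk (nat_lit 269) (nat_lit 5) (nat_lit 1) (nat_lit 4) (nat_lit 3) (nat_lit 280) (nat_lit 286) r2_280 r0_286 (nat_lit 0) (nat_lit 0) (nat_lit 29130114) (nat_lit 0x7eda42850) (nat_lit 585601326),
  Rx.mk (nat_lit 329) (nat_lit 1) (nat_lit 1) (nat_lit 5) (nat_lit 7) (nat_lit 283) (nat_lit 287) r2_283 r0_287 (nat_lit 0) (nat_lit 0) (nat_lit 0) (nat_lit 0x8017985b4) (nat_lit 536870912),
  Rx.mk (nat_lit 333) (nat_lit 5) (nat_lit 1) (nat_lit 5) (nat_lit 7) (nat_lit 282) (nat_lit 288) r2_282 r0_288 (nat_lit 0) (nat_lit 0) (nat_lit 0) (nat_lit 0x8017985b4) (nat_lit 536870912)]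
noncomputable def e40_23 : List Rx := [
  Rx.mk (nat_lit 265) (nat_lit 1) (nat_lit 1) (nat_lit 4) (nat_lit 3) (nat_lit 298) (nat_lit 280) r2_298 r1_280 (nat_lit 0) (nat_lit 0) (nat_lit 34697810) (nat_lit 0x7fda33674) (nat_lit 575291622),
  Rx.mk (nat_lit 269) (nat_lit 5) (nat_lit 1) (nat_lit 4) (nat_lit 3) (nat_lit 297) (nat_lit 281) r2_297 r1_281 (nat_lit 0) (nat_lit 0) (nat_lit 24741287) (nat_lit 0x80411f176) (nat_lit 559058049),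
  Rx.mk (nat_lit 301) (nat_lit 5) (nat_lit 5) (nat_lit 4) (nat_lit 3) (nat_lit 295) (nat_lit 282) r2_295 r1_282 (nat_lit 0) (nat_lit 0) (nat_lit 24741287) (nat_lit 0x8017985b4) (nat_lit 561612199),
  Rx.mk (nat_lit 329) (nat_lit 1) (nat_lit 1) (nat_lit 5) (nat_lit 7) (nat_lit 300) (nat_lit 283) r2_300 r1_283 (nat_lit 0) (nat_lit 0) (nat_lit 0) (nat_lit 0x8017985b4) (nat_lit 536870912),
  Rx.mk (nat_lit 333) (nat_lit 5) (nat_lit 1) (nat_lit 5) (nat_lit 7) (nat_lit 299) (nat_lit 284) r2_299 r1_284 (nat_lit 0) (nat_lit 0) (nat_lit 0) (nat_lit 0x8017985b4) (nat_lit 536870912),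
  Rx.mk (nat_lit 365) (nat_lit 5) (nat_lit 5) (nat_lit 5) (nat_lit 7) (nat_lit 296) (nat_lit 285) r2_296 r1_285 (nat_lit 0) (nat_lit 0) (nat_lit 0) (nat_lit 0x8017985b4) (nat_lit 536870912)]
noncomputable def e40_24 : List Rx := [
  Rx.mk (nat_lit 265) (nat_lit 1) (nat_lit 1) (nat_lit 4) (nat_lit 3) (nat_lit 350) (nat_lit 299) r2_350 r4_299 (nat_lit 0) (nat_lit 0) (nat_lit 42912160) (nat_lit 0x7cc9d2418) (nat_lit 632560472),
  Rx.mk (nat_lit 269) (nat_lit 5) (nat_lit 1) (nat_lit 4) (nat_lit 3) (nat_lit 349) (nat_lit 300) r2_349 r4_300 (nat_lit 0) (nat_lit 0) (nat_lit 24741287) (nat_lit 0x7fcaef88e) (nat_lit 566317649),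
  Rx.mk (nat_lit 329) (nat_lit 1) (nat_lit 1) (nat_lit 5) (nat_lit 7) (nat_lit 352) (nat_lit 301) r2_352 r4_301 (nat_lit 0) (nat_lit 0) (nat_lit 0) (nat_lit 0x8017985b4) (nat_lit 536870912),
  Rx.mk (nat_lit 333) (nat_lit 5) (nat_lit 1) (nat_lit 5) (nat_lit 7) (nat_lit 351) (nat_lit 302) r2_351 r4_302 (nat_lit 0) (nat_lit 0) (nat_lit 0) (nat_lit 0x8017985b4) (nat_lit 536870912),
  Rx.mk (nat_lit 461) (nat_lit 5) (nat_lit 1) (nat_lit 7) (nat_lit 7) (nat_lit 353) (nat_lit 303) r2_353 r4_303 (nat_lit 0) (nat_lit 0) (nat_lit 0) (nat_lit 0x8017985b4) (nat_lit 536870912)]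
noncomputable def e40_25 : List Rx := [
  Rx.mk (nat_lit 329) (nat_lit 1) (nat_lit 1) (nat_lit 5) (nat_lit 7) (nat_lit 285) (nat_lit 400) r2_285 r7_400 (nat_lit 0) (nat_lit 0) (nat_lit 0) (nat_lit 0x8017985b4) (nat_lit 536870912),
  Rx.mk (nat_lit 333) (nat_lit 5) (nat_lit 1) (nat_lit 5) (nat_lit 7) (nat_lit 284) (nat_lit 399) r2_284 r7_399 (nat_lit 0) (nat_lit 0) (nat_lit 0) (nat_lit 0x8017985b4) (nat_lit 536870912)]
noncomputable def e40_26 : List Rx := [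
  Rx.mk (nat_lit 329) (nat_lit 1) (nat_lit 1) (nat_lit 5) (nat_lit 7) (nat_lit 303) (nat_lit 322) r2_303 r8_322 (nat_lit 0) (nat_lit 0) (nat_lit 0) (nat_lit 0x8017985b4) (nat_lit 536870912),
  Rx.mk (nat_lit 333) (nat_lit 5) (nat_lit 1) (nat_lit 5) (nat_lit 7) (nat_lit 302) (nat_lit 321) r2_302 r8_321 (nat_lit 0) (nat_lit 0) (nat_lit 0) (nat_lit 0x8017985b4) (nat_lit 536870912),
  Rx.mk (nat_lit 365) (nat_lit 5) (nat_lit 5) (nat_lit 5) (nat_lit 7) (nat_lit 301) (nat_lit 320) r2_301 r8_320 (nat_lit 0) (nat_lit 0) (nat_lit 0) (nat_lit 0x8017985b4) (nat_lit 536870912)]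
noncomputable def e40_27 : List Rx := [
  Rx.mk (nat_lit 73) (nat_lit 1) (nat_lit 1) (nat_lit 1) (nat_lit 7) (nat_lit 314) (nat_lit 320) r2_314 r8_320 (nat_lit 0) (nat_lit 0) (nat_lit 0) (nat_lit 0x8017985b4) (nat_lit 536870912),
  Rx.mk (nat_lit 329) (nat_lit 1) (nat_lit 1) (nat_lit 5) (nat_lit 7) (nat_lit 313) (nat_lit 321) r2_313 r8_321 (nat_lit 0) (nat_lit 0) (nat_lit 0) (nat_lit 0x8017985b4) (nat_lit 536870912),
  Rx.mk (nat_lit 333) (nat_lit 5) (nat_lit 1) (nat_lit 5) (nat_lit 7) (nat_lit 312) (nat_lit 322) r2_312 r8_322 (nat_lit 0) (nat_lit 0) (nat_lit 0) (nat_lit 0x8017985b4) (nat_lit 536870912)]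
noncomputable def e40_28 : List Rx := [
  Rx.mk (nat_lit 329) (nat_lit 1) (nat_lit 1) (nat_lit 5) (nat_lit 7) (nat_lit 355) (nat_lit 324) r2_355 r10_324 (nat_lit 0) (nat_lit 0) (nat_lit 0) (nat_lit 0x8017985b4) (nat_lit 536870912),
  Rx.mk (nat_lit 333) (nat_lit 5) (nat_lit 1) (nat_lit 5) (nat_lit 7) (nat_lit 354) (nat_lit 323) r2_354 r10_323 (nat_lit 0) (nat_lit 0) (nat_lit 0) (nat_lit 0x8017985b4) (nat_lit 536870912)]
noncomputable def e40_29 : List Rx := [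
  Rx.mk (nat_lit 265) (nat_lit 1) (nat_lit 1) (nat_lit 4) (nat_lit 3) (nat_lit 356) (nat_lit 340) r2_356 r11_340 (nat_lit 0) (nat_lit 0) (nat_lit 27655321) (nat_lit 0x7fd1d42f8) (nat_lit 568815833),
  Rx.mk (nat_lit 329) (nat_lit 1) (nat_lit 1) (nat_lit 5) (nat_lit 7) (nat_lit 357) (nat_lit 341) r2_357 r11_341 (nat_lit 0) (nat_lit 0) (nat_lit 0) (nat_lit 0x8017985b4) (nat_lit 536870912),
  Rx.mk (nat_lit 457) (nat_lit 1) (nat_lit 1) (nat_lit 7) (nat_lit 7) (nat_lit 359) (nat_lit 342) r2_359 r11_342 (nat_lit 0) (nat_lit 0) (nat_lit 0) (nat_lit 0x8017985b4) (nat_lit 536870912),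
  Rx.mk (nat_lit 461) (nat_lit 5) (nat_lit 1) (nat_lit 7) (nat_lit 7) (nat_lit 358) (nat_lit 339) r2_358 r11_339 (nat_lit 0) (nat_lit 0) (nat_lit 0) (nat_lit 0x8017985b4) (nat_lit 536870912)]
noncomputable def e40_30 : List Rx := [
  Rx.mk (nat_lit 217) (nat_lit 1) (nat_lit 3) (nat_lit 3) (nat_lit 7) (nat_lit 97) (nat_lit 15) r2_97 r5_15 (nat_lit 0) (nat_lit 0) (nat_lit 0) (nat_lit 0x8059dee46) (nat_lit 532797862),
  Rx.mk (nat_lit 473) (nat_lit 1) (nat_lit 3) (nat_lit 7) (nat_lit 7) (nat_lit 96) (nat_lit 14) r2_96 r5_14 (nat_lit 0) (nat_lit 0) (nat_lit 0) (nat_lit 0x8017985b4) (nat_lit 536870912)]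
noncomputable def e40_31 : List Rx := [
  Rx.mk (nat_lit 217) (nat_lit 1) (nat_lit 3) (nat_lit 3) (nat_lit 7) (nat_lit 237) (nat_lit 5) r2_237 r11_5 (nat_lit 0) (nat_lit 0) (nat_lit 0) (nat_lit 0x8017985b4) (nat_lit 536870912)]
noncomputable def e40_32 : List Rx := [
  Rx.mk (nat_lit 281) (nat_lit 1) (nat_lit 3) (nat_lit 4) (nat_lit 3) (nat_lit 270) (nat_lit 289) r2_270 r6_289 (nat_lit 0) (nat_lit 0) (nat_lit 37541131) (nat_lit 0x7f337957c) (nat_lit 588490643),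
  Rx.mk (nat_lit 285) (nat_lit 5) (nat_lit 3) (nat_lit 4) (nat_lit 3) (nat_lit 269) (nat_lit 286) r2_269 r6_286 (nat_lit 0) (nat_lit 0) (nat_lit 25088397) (nat_lit 0x7fe4f918a) (nat_lit 565068109),
  Rx.mk (nat_lit 453) (nat_lit 5) (nat_lit 0) (nat_lit 7) (nat_lit 5) (nat_lit 268) (nat_lit 287) r2_268 r6_287 (nat_lit 0) (nat_lit 32877958) (nat_lit 0) (nat_lit 0x7f6f4bf78) (nat_lit 580120470),
  Rx.mk (nat_lit 477) (nat_lit 5) (nat_lit 3) (nat_lit 7) (nat_lit 7) (nat_lit 271) (nat_lit 288) r2_271 r6_288 (nat_lit 0) (nat_lit 0) (nat_lit 0) (nat_lit 0x8017985b4) (nat_lit 536870912)]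
noncomputable def e40_33 : List Rx := [
  Rx.mk (nat_lit 261) (nat_lit 5) (nat_lit 0) (nat_lit 4) (nat_lit 1) (nat_lit 360) (nat_lit 276) r2_360 r5_276 (nat_lit 0) (nat_lit 20559373) (nat_lit 29764725) (nat_lit 0x5846938aa) (nat_lit 1230188910),
  Rx.mk (nat_lit 269) (nat_lit 5) (nat_lit 1) (nat_lit 4) (nat_lit 3) (nat_lit 363) (nat_lit 277) r2_363 r5_277 (nat_lit 0) (nat_lit 0) (nat_lit 24741287) (nat_lit 0x8017985b4) (nat_lit 561612199),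
  Rx.mk (nat_lit 281) (nat_lit 1) (nat_lit 3) (nat_lit 4) (nat_lit 3) (nat_lit 367) (nat_lit 275) r2_367 r5_275 (nat_lit 0) (nat_lit 0) (nat_lit 28314395) (nat_lit 0x7f288f256) (nat_lit 579938957),
  Rx.mk (nat_lit 285) (nat_lit 5) (nat_lit 3) (nat_lit 4) (nat_lit 3) (nat_lit 366) (nat_lit 278) r2_366 r5_278 (nat_lit 0) (nat_lit 0) (nat_lit 27157988) (nat_lit 0x7f2b617cc) (nat_lit 578604450),
  Rx.mk (nat_lit 325) (nat_lit 5) (nat_lit 0) (nat_lit 5) (nat_lit 5) (nat_lit 361) (nat_lit 280) r2_361 r5_280 (nat_lit 0) (nat_lit 74305846) (nat_lit 0) (nat_lit 0x6bbe842c0) (nat_lit 939452858),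
  Rx.mk (nat_lit 333) (nat_lit 5) (nat_lit 1) (nat_lit 5) (nat_lit 7) (nat_lit 364) (nat_lit 281) r2_364 r5_281 (nat_lit 0) (nat_lit 0) (nat_lit 0) (nat_lit 0x8017985b4) (nat_lit 536870912),
  Rx.mk (nat_lit 345) (nat_lit 1) (nat_lit 3) (nat_lit 5) (nat_lit 7) (nat_lit 369) (nat_lit 279) r2_369 r5_279 (nat_lit 0) (nat_lit 0) (nat_lit 0) (nat_lit 0x8017985b4) (nat_lit 536870912),
  Rx.mk (nat_lit 349) (nat_lit 5) (nat_lit 3) (nat_lit 5) (nat_lit 7) (nat_lit 368) (nat_lit 282) r2_368 r5_282 (nat_lit 0) (nat_lit 0) (nat_lit 0) (nat_lit 0x8017985b4) (nat_lit 536870912),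
  Rx.mk (nat_lit 453) (nat_lit 5) (nat_lit 0) (nat_lit 7) (nat_lit 5) (nat_lit 362) (nat_lit 283) r2_362 r5_283 (nat_lit 0) (nat_lit 33327253) (nat_lit 0) (nat_lit 0x7f65916c2) (nat_lit 581168965),
  Rx.mk (nat_lit 461) (nat_lit 5) (nat_lit 1) (nat_lit 7) (nat_lit 7) (nat_lit 365) (nat_lit 284) r2_365 r5_284 (nat_lit 0) (nat_lit 0) (nat_lit 0) (nat_lit 0x8017985b4) (nat_lit 536870912)]
noncomputable def e40_34 : List Rx := [
  Rx.mk (nat_lit 325) (nat_lit 5) (nat_lit 0) (nat_lit 5) (nat_lit 5) (nat_lit 370) (nat_lit 340) r2_370 r11_340 (nat_lit 0) (nat_lit 27655321) (nat_lit 0) (nat_lit 0x7fd1d42f8) (nat_lit 568815833),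
  Rx.mk (nat_lit 333) (nat_lit 5) (nat_lit 1) (nat_lit 5) (nat_lit 7) (nat_lit 371) (nat_lit 341) r2_371 r11_341 (nat_lit 0) (nat_lit 0) (nat_lit 0) (nat_lit 0x8017985b4) (nat_lit 536870912),
  Rx.mk (nat_lit 345) (nat_lit 1) (nat_lit 3) (nat_lit 5) (nat_lit 7) (nat_lit 373) (nat_lit 339) r2_373 r11_339 (nat_lit 0) (nat_lit 0) (nat_lit 0) (nat_lit 0x8017985b4) (nat_lit 536870912),
  Rx.mk (nat_lit 349) (nat_lit 5) (nat_lit 3) (nat_lit 5) (nat_lit 7) (nat_lit 372) (nat_lit 342) r2_372 r11_342 (nat_lit 0) (nat_lit 0) (nat_lit 0) (nat_lit 0x8017985b4) (nat_lit 536870912)]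
noncomputable def e40_35 : List Rx := [
  Rx.mk (nat_lit 473) (nat_lit 1) (nat_lit 3) (nat_lit 7) (nat_lit 7) (nat_lit 95) (nat_lit 10) r2_95 r6_10 (nat_lit 0) (nat_lit 0) (nat_lit 0) (nat_lit 0x8017985b4) (nat_lit 536870912),
  Rx.mk (nat_lit 477) (nat_lit 5) (nat_lit 3) (nat_lit 7) (nat_lit 7) (nat_lit 94) (nat_lit 11) r2_94 r6_11 (nat_lit 0) (nat_lit 0) (nat_lit 0) (nat_lit 0x8017985b4) (nat_lit 536870912)]
noncomputable def e40_36 : List Rx := [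
  Rx.mk (nat_lit 281) (nat_lit 1) (nat_lit 3) (nat_lit 4) (nat_lit 3) (nat_lit 273) (nat_lit 344) r2_273 r12_344 (nat_lit 0) (nat_lit 0) (nat_lit 66894744) (nat_lit 0x7c6702fd6) (nat_lit 662791156),
  Rx.mk (nat_lit 453) (nat_lit 5) (nat_lit 0) (nat_lit 7) (nat_lit 5) (nat_lit 272) (nat_lit 346) r2_272 r12_346 (nat_lit 0) (nat_lit 66894744) (nat_lit 0) (nat_lit 0x7c6702fd6) (nat_lit 662791156),
  Rx.mk (nat_lit 473) (nat_lit 1) (nat_lit 3) (nat_lit 7) (nat_lit 7) (nat_lit 275) (nat_lit 345) r2_275 r12_345 (nat_lit 0) (nat_lit 0) (nat_lit 0) (nat_lit 0x8017985b4) (nat_lit 536870912),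
  Rx.mk (nat_lit 477) (nat_lit 5) (nat_lit 3) (nat_lit 7) (nat_lit 7) (nat_lit 274) (nat_lit 347) r2_274 r12_347 (nat_lit 0) (nat_lit 0) (nat_lit 0) (nat_lit 0x8017985b4) (nat_lit 536870912)]
noncomputable def e40_37 : List Rx := [
  Rx.mk (nat_lit 293) (nat_lit 5) (nat_lit 4) (nat_lit 4) (nat_lit 1) (nat_lit 98) (nat_lit 254) r2_98 r0_254 (nat_lit 0) (nat_lit 32319873) (nat_lit 169414750) (nat_lit 0x5d7f70754) (nat_lit 1297226585),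
  Rx.mk (nat_lit 317) (nat_lit 5) (nat_lit 7) (nat_lit 4) (nat_lit 3) (nat_lit 99) (nat_lit 255) r2_99 r0_255 (nat_lit 0) (nat_lit 0) (nat_lit 31094968) (nat_lit 0x7d34113e2) (nat_lit 614066280),
  Rx.mk (nat_lit 509) (nat_lit 5) (nat_lit 7) (nat_lit 7) (nat_lit 7) (nat_lit 100) (nat_lit 256) r2_100 r0_256 (nat_lit 0) (nat_lit 0) (nat_lit 0) (nat_lit 0x8017985b4) (nat_lit 536870912)]
noncomputable def e40_38 : List Rx := [
  Rx.mk (nat_lit 316) (nat_lit 4) (nat_lit 7) (nat_lit 4) (nat_lit 2) (nat_lit 4) (nat_lit 34) r2_4 r0_34 (nat_lit 4998249) (nat_lit 0) (nat_lit 13136814) (nat_lit 0x5b905ca06) (nat_lit 1144741775),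
  Rx.mk (nat_lit 317) (nat_lit 5) (nat_lit 7) (nat_lit 4) (nat_lit 3) (nat_lit 5) (nat_lit 35) r2_5 r0_35 (nat_lit 0) (nat_lit 0) (nat_lit 28341495) (nat_lit 0x7c3b84864) (nat_lit 626988107),
  Rx.mk (nat_lit 420) (nat_lit 4) (nat_lit 4) (nat_lit 6) (nat_lit 4) (nat_lit 0) (nat_lit 31) r2_0 r0_31 (nat_lit 5596514) (nat_lit 6423183) (nat_lit 0) (nat_lit 0x5ddaed8d4) (nat_lit 1101594159),
  Rx.mk (nat_lit 421) (nat_lit 5) (nat_lit 4) (nat_lit 6) (nat_lit 5) (nat_lit 1) (nat_lit 32) r2_1 r0_32 (nat_lit 0) (nat_lit 15050003) (nat_lit 0) (nat_lit 0x808182fe2) (nat_lit 545392665),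
  Rx.mk (nat_lit 422) (nat_lit 6) (nat_lit 4) (nat_lit 6) (nat_lit 5) (nat_lit 2) (nat_lit 33) r2_2 r0_33 (nat_lit 0) (nat_lit 26786742) (nat_lit 0) (nat_lit 0x7e49fc304) (nat_lit 592261154),
  Rx.mk (nat_lit 438) (nat_lit 6) (nat_lit 6) (nat_lit 6) (nat_lit 7) (nat_lit 3) (nat_lit 42) r2_3 r0_42 (nat_lit 0) (nat_lit 0) (nat_lit 0) (nat_lit 0x8017985b4) (nat_lit 536870912),
  Rx.mk (nat_lit 444) (nat_lit 4) (nat_lit 7) (nat_lit 6) (nat_lit 6) (nat_lit 6) (nat_lit 39) r2_6 r0_39 (nat_lit 5674149) (nat_lit 0) (nat_lit 0) (nat_lit 0x7eaf25780) (nat_lit 564630711),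
  Rx.mk (nat_lit 445) (nat_lit 5) (nat_lit 7) (nat_lit 6) (nat_lit 7) (nat_lit 7) (nat_lit 40) r2_7 r0_40 (nat_lit 0) (nat_lit 0) (nat_lit 0) (nat_lit 0x816b1f196) (nat_lit 516210712),
  Rx.mk (nat_lit 446) (nat_lit 6) (nat_lit 7) (nat_lit 6) (nat_lit 7) (nat_lit 8) (nat_lit 41) r2_8 r0_41 (nat_lit 0) (nat_lit 0) (nat_lit 0) (nat_lit 0x81560cc68) (nat_lit 517481712),
  Rx.mk (nat_lit 479) (nat_lit 7) (nat_lit 3) (nat_lit 7) (nat_lit 7) (nat_lit 12) (nat_lit 30) r2_12 r0_30 (nat_lit 0) (nat_lit 0) (nat_lit 0) (nat_lit 0x7ff838a16) (nat_lit 538790162),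
  Rx.mk (nat_lit 508) (nat_lit 4) (nat_lit 7) (nat_lit 7) (nat_lit 6) (nat_lit 9) (nat_lit 36) r2_9 r0_36 (nat_lit 21507758) (nat_lit 0) (nat_lit 0) (nat_lit 0x7d43469ac) (nat_lit 603533220),
  Rx.mk (nat_lit 509) (nat_lit 5) (nat_lit 7) (nat_lit 7) (nat_lit 7) (nat_lit 10) (nat_lit 37) r2_10 r0_37 (nat_lit 0) (nat_lit 0) (nat_lit 0) (nat_lit 0x8017985b4) (nat_lit 536870912),
  Rx.mk (nat_lit 511) (nat_lit 7) (nat_lit 7) (nat_lit 7) (nat_lit 7) (nat_lit 11) (nat_lit 38) r2_11 r0_38 (nat_lit 0) (nat_lit 0) (nat_lit 0) (nat_lit 0x7ffabadac) (nat_lit 538636162)]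
noncomputable def e40_39 : List Rx := [
  Rx.mk (nat_lit 292) (nat_lit 4) (nat_lit 4) (nat_lit 4) (nat_lit 0) (nat_lit 101) (nat_lit 339) r2_101 r7_339 (nat_lit 2611593) (nat_lit 2362318) (nat_lit 3422726) (nat_lit 0x3ce06297a) (nat_lit 1631121799),
  Rx.mk (nat_lit 293) (nat_lit 5) (nat_lit 4) (nat_lit 4) (nat_lit 1) (nat_lit 102) (nat_lit 344) r2_102 r7_344 (nat_lit 0) (nat_lit 33242310) (nat_lit 55381709) (nat_lit 0x6310bfaca) (nat_lit 1094102531),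
  Rx.mk (nat_lit 316) (nat_lit 4) (nat_lit 7) (nat_lit 4) (nat_lit 2) (nat_lit 107) (nat_lit 340) r2_107 r7_340 (nat_lit 17983786) (nat_lit 0) (nat_lit 15429794) (nat_lit 0x642450a34) (nat_lit 1021437892),
  Rx.mk (nat_lit 317) (nat_lit 5) (nat_lit 7) (nat_lit 4) (nat_lit 3) (nat_lit 108) (nat_lit 345) r2_108 r7_345 (nat_lit 0) (nat_lit 0) (nat_lit 24741287) (nat_lit 0x800c30b36) (nat_lit 562309299),
  Rx.mk (nat_lit 420) (nat_lit 4) (nat_lit 4) (nat_lit 6) (nat_lit 4) (nat_lit 103) (nat_lit 342) r2_103 r7_342 (nat_lit 15431888) (nat_lit 12919491) (nat_lit 0) (nat_lit 0x6872d6740) (nat_lit 946738841),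
  Rx.mk (nat_lit 421) (nat_lit 5) (nat_lit 4) (nat_lit 6) (nat_lit 5) (nat_lit 104) (nat_lit 347) r2_104 r7_347 (nat_lit 0) (nat_lit 25208910) (nat_lit 0) (nat_lit 0x800becfd0) (nat_lit 562792922),
  Rx.mk (nat_lit 422) (nat_lit 6) (nat_lit 4) (nat_lit 6) (nat_lit 5) (nat_lit 105) (nat_lit 350) r2_105 r7_350 (nat_lit 0) (nat_lit 24741287) (nat_lit 0) (nat_lit 0x800c2469c) (nat_lit 562313099),
  Rx.mk (nat_lit 438) (nat_lit 6) (nat_lit 6) (nat_lit 6) (nat_lit 7) (nat_lit 106) (nat_lit 352) r2_106 r7_352 (nat_lit 0) (nat_lit 0) (nat_lit 0) (nat_lit 0x8017985b4) (nat_lit 536870912),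
  Rx.mk (nat_lit 444) (nat_lit 4) (nat_lit 7) (nat_lit 6) (nat_lit 6) (nat_lit 109) (nat_lit 343) r2_109 r7_343 (nat_lit 24741287) (nat_lit 0) (nat_lit 0) (nat_lit 0x800bf9d8e) (nat_lit 562322849),
  Rx.mk (nat_lit 445) (nat_lit 5) (nat_lit 7) (nat_lit 6) (nat_lit 7) (nat_lit 110) (nat_lit 348) r2_110 r7_348 (nat_lit 0) (nat_lit 0) (nat_lit 0) (nat_lit 0x8017985b4) (nat_lit 536870912),
  Rx.mk (nat_lit 446) (nat_lit 6) (nat_lit 7) (nat_lit 6) (nat_lit 7) (nat_lit 111) (nat_lit 351) r2_111 r7_351 (nat_lit 0) (nat_lit 0) (nat_lit 0) (nat_lit 0x8017985b4) (nat_lit 536870912),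
  Rx.mk (nat_lit 508) (nat_lit 4) (nat_lit 7) (nat_lit 7) (nat_lit 6) (nat_lit 112) (nat_lit 341) r2_112 r7_341 (nat_lit 24741287) (nat_lit 0) (nat_lit 0) (nat_lit 0x7ffac5806) (nat_lit 563378349),
  Rx.mk (nat_lit 509) (nat_lit 5) (nat_lit 7) (nat_lit 7) (nat_lit 7) (nat_lit 113) (nat_lit 346) r2_113 r7_346 (nat_lit 0) (nat_lit 0) (nat_lit 0) (nat_lit 0x8017985b4) (nat_lit 536870912),
  Rx.mk (nat_lit 511) (nat_lit 7) (nat_lit 7) (nat_lit 7) (nat_lit 7) (nat_lit 114) (nat_lit 349) r2_114 r7_349 (nat_lit 0) (nat_lit 0) (nat_lit 0) (nat_lit 0x8017985b4) (nat_lit 536870912)]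
noncomputable def e40_40 : List Rx := [
  Rx.mk (nat_lit 16) (nat_lit 0) (nat_lit 2) (nat_lit 0) (nat_lit 2) (nat_lit 35) (nat_lit 27) r2_35 r2_27 (nat_lit 4020011) (nat_lit 0) (nat_lit 3084797) (nat_lit 0x650356828) (nat_lit 980891370),
  Rx.mk (nat_lit 18) (nat_lit 2) (nat_lit 2) (nat_lit 0) (nat_lit 3) (nat_lit 36) (nat_lit 28) r2_36 r2_28 (nat_lit 0) (nat_lit 0) (nat_lit 22227061) (nat_lit 0x7ee2f20a4) (nat_lit 578174373),
  Rx.mk (nat_lit 146) (nat_lit 2) (nat_lit 2) (nat_lit 2) (nat_lit 7) (nat_lit 37) (nat_lit 32) r2_37 r2_32 (nat_lit 0) (nat_lit 0) (nat_lit 0) (nat_lit 0x8017985b4) (nat_lit 536870912),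
  Rx.mk (nat_lit 178) (nat_lit 2) (nat_lit 6) (nat_lit 2) (nat_lit 7) (nat_lit 26) (nat_lit 41) r2_26 r2_41 (nat_lit 0) (nat_lit 0) (nat_lit 0) (nat_lit 0x8017985b4) (nat_lit 536870912),
  Rx.mk (nat_lit 182) (nat_lit 6) (nat_lit 6) (nat_lit 2) (nat_lit 7) (nat_lit 25) (nat_lit 42) r2_25 r2_42 (nat_lit 0) (nat_lit 0) (nat_lit 0) (nat_lit 0x8017985b4) (nat_lit 536870912),
  Rx.mk (nat_lit 192) (nat_lit 0) (nat_lit 0) (nat_lit 3) (nat_lit 4) (nat_lit 33) (nat_lit 22) r2_33 r2_22 (nat_lit 4020011) (nat_lit 3084797) (nat_lit 0) (nat_lit 0x650356828) (nat_lit 980891370),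
  Rx.mk (nat_lit 195) (nat_lit 3) (nat_lit 0) (nat_lit 3) (nat_lit 5) (nat_lit 34) (nat_lit 23) r2_34 r2_23 (nat_lit 0) (nat_lit 22227061) (nat_lit 0) (nat_lit 0x7ee2f20a4) (nat_lit 578174373),
  Rx.mk (nat_lit 208) (nat_lit 0) (nat_lit 2) (nat_lit 3) (nat_lit 6) (nat_lit 38) (nat_lit 29) r2_38 r2_29 (nat_lit 21936150) (nat_lit 0) (nat_lit 0) (nat_lit 0x7ff388afc) (nat_lit 561031262),
  Rx.mk (nat_lit 210) (nat_lit 2) (nat_lit 2) (nat_lit 3) (nat_lit 7) (nat_lit 39) (nat_lit 31) r2_39 r2_31 (nat_lit 0) (nat_lit 0) (nat_lit 0) (nat_lit 0x8017985b4) (nat_lit 536870912),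
  Rx.mk (nat_lit 211) (nat_lit 3) (nat_lit 2) (nat_lit 3) (nat_lit 7) (nat_lit 40) (nat_lit 30) r2_40 r2_30 (nat_lit 0) (nat_lit 0) (nat_lit 0) (nat_lit 0x8017985b4) (nat_lit 536870912),
  Rx.mk (nat_lit 219) (nat_lit 3) (nat_lit 3) (nat_lit 3) (nat_lit 7) (nat_lit 43) (nat_lit 24) r2_43 r2_24 (nat_lit 0) (nat_lit 0) (nat_lit 0) (nat_lit 0x8017985b4) (nat_lit 536870912),
  Rx.mk (nat_lit 316) (nat_lit 4) (nat_lit 7) (nat_lit 4) (nat_lit 2) (nat_lit 27) (nat_lit 35) r2_27 r2_35 (nat_lit 4020011) (nat_lit 0) (nat_lit 3084797) (nat_lit 0x650356828) (nat_lit 980891370),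
  Rx.mk (nat_lit 319) (nat_lit 7) (nat_lit 7) (nat_lit 4) (nat_lit 3) (nat_lit 28) (nat_lit 36) r2_28 r2_36 (nat_lit 0) (nat_lit 0) (nat_lit 22227061) (nat_lit 0x7ee2f20a4) (nat_lit 578174373),
  Rx.mk (nat_lit 420) (nat_lit 4) (nat_lit 4) (nat_lit 6) (nat_lit 4) (nat_lit 22) (nat_lit 33) r2_22 r2_33 (nat_lit 4020011) (nat_lit 3084797) (nat_lit 0) (nat_lit 0x650356828) (nat_lit 980891370),
  Rx.mk (nat_lit 422) (nat_lit 6) (nat_lit 4) (nat_lit 6) (nat_lit 5) (nat_lit 23) (nat_lit 34) r2_23 r2_34 (nat_lit 0) (nat_lit 22227061) (nat_lit 0) (nat_lit 0x7ee2f20a4) (nat_lit 578174373),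
  Rx.mk (nat_lit 438) (nat_lit 6) (nat_lit 6) (nat_lit 6) (nat_lit 7) (nat_lit 24) (nat_lit 43) r2_24 r2_43 (nat_lit 0) (nat_lit 0) (nat_lit 0) (nat_lit 0x8017985b4) (nat_lit 536870912),
  Rx.mk (nat_lit 444) (nat_lit 4) (nat_lit 7) (nat_lit 6) (nat_lit 6) (nat_lit 29) (nat_lit 38) r2_29 r2_38 (nat_lit 21936150) (nat_lit 0) (nat_lit 0) (nat_lit 0x7ff388afc) (nat_lit 561031262),
  Rx.mk (nat_lit 446) (nat_lit 6) (nat_lit 7) (nat_lit 6) (nat_lit 7) (nat_lit 30) (nat_lit 40) r2_30 r2_40 (nat_lit 0) (nat_lit 0) (nat_lit 0) (nat_lit 0x8017985b4) (nat_lit 536870912),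
  Rx.mk (nat_lit 447) (nat_lit 7) (nat_lit 7) (nat_lit 6) (nat_lit 7) (nat_lit 31) (nat_lit 39) r2_31 r2_39 (nat_lit 0) (nat_lit 0) (nat_lit 0) (nat_lit 0x8017985b4) (nat_lit 536870912),
  Rx.mk (nat_lit 475) (nat_lit 3) (nat_lit 3) (nat_lit 7) (nat_lit 7) (nat_lit 42) (nat_lit 25) r2_42 r2_25 (nat_lit 0) (nat_lit 0) (nat_lit 0) (nat_lit 0x8017985b4) (nat_lit 536870912),
  Rx.mk (nat_lit 479) (nat_lit 7) (nat_lit 3) (nat_lit 7) (nat_lit 7) (nat_lit 41) (nat_lit 26) r2_41 r2_26 (nat_lit 0) (nat_lit 0) (nat_lit 0) (nat_lit 0x8017985b4) (nat_lit 536870912),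
  Rx.mk (nat_lit 511) (nat_lit 7) (nat_lit 7) (nat_lit 7) (nat_lit 7) (nat_lit 32) (nat_lit 37) r2_32 r2_37 (nat_lit 0) (nat_lit 0) (nat_lit 0) (nat_lit 0x8017985b4) (nat_lit 536870912)]
noncomputable def e40_41 : List Rx := [
  Rx.mk (nat_lit 178) (nat_lit 2) (nat_lit 6) (nat_lit 2) (nat_lit 7) (nat_lit 151) (nat_lit 11) r2_151 r9_11 (nat_lit 0) (nat_lit 0) (nat_lit 0) (nat_lit 0x8017985b4) (nat_lit 536870912),
  Rx.mk (nat_lit 182) (nat_lit 6) (nat_lit 6) (nat_lit 2) (nat_lit 7) (nat_lit 150) (nat_lit 12) r2_150 r9_12 (nat_lit 0) (nat_lit 0) (nat_lit 0) (nat_lit 0x8017985b4) (nat_lit 536870912),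
  Rx.mk (nat_lit 292) (nat_lit 4) (nat_lit 4) (nat_lit 4) (nat_lit 0) (nat_lit 146) (nat_lit 2) r2_146 r9_2 (nat_lit 9380650) (nat_lit 10208836) (nat_lit 12054409) (nat_lit 0x4191c7aea) (nat_lit 1578696407),
  Rx.mk (nat_lit 316) (nat_lit 4) (nat_lit 7) (nat_lit 4) (nat_lit 2) (nat_lit 152) (nat_lit 5) r2_152 r9_5 (nat_lit 28184396) (nat_lit 0) (nat_lit 19348784) (nat_lit 0x6737e5402) (nat_lit 985858192),
  Rx.mk (nat_lit 319) (nat_lit 7) (nat_lit 7) (nat_lit 4) (nat_lit 3) (nat_lit 153) (nat_lit 6) r2_153 r9_6 (nat_lit 0) (nat_lit 0) (nat_lit 23881749) (nat_lit 0x7ffacd09c) (nat_lit 562515361),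
  Rx.mk (nat_lit 420) (nat_lit 4) (nat_lit 4) (nat_lit 6) (nat_lit 4) (nat_lit 147) (nat_lit 3) r2_147 r9_3 (nat_lit 27923274) (nat_lit 18448465) (nat_lit 0) (nat_lit 0x696412f82) (nat_lit 949568801),
  Rx.mk (nat_lit 422) (nat_lit 6) (nat_lit 4) (nat_lit 6) (nat_lit 5) (nat_lit 148) (nat_lit 4) r2_148 r9_4 (nat_lit 0) (nat_lit 24741287) (nat_lit 0) (nat_lit 0x7f9cd5ee4) (nat_lit 569152349),
  Rx.mk (nat_lit 438) (nat_lit 6) (nat_lit 6) (nat_lit 6) (nat_lit 7) (nat_lit 149) (nat_lit 13) r2_149 r9_13 (nat_lit 0) (nat_lit 0) (nat_lit 0) (nat_lit 0x8017985b4) (nat_lit 536870912),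
  Rx.mk (nat_lit 444) (nat_lit 4) (nat_lit 7) (nat_lit 6) (nat_lit 6) (nat_lit 154) (nat_lit 8) r2_154 r9_8 (nat_lit 24741287) (nat_lit 0) (nat_lit 0) (nat_lit 0x800e5e7c8) (nat_lit 562175649),
  Rx.mk (nat_lit 446) (nat_lit 6) (nat_lit 7) (nat_lit 6) (nat_lit 7) (nat_lit 155) (nat_lit 10) r2_155 r9_10 (nat_lit 0) (nat_lit 0) (nat_lit 0) (nat_lit 0x8017985b4) (nat_lit 536870912),
  Rx.mk (nat_lit 447) (nat_lit 7) (nat_lit 7) (nat_lit 6) (nat_lit 7) (nat_lit 156) (nat_lit 9) r2_156 r9_9 (nat_lit 0) (nat_lit 0) (nat_lit 0) (nat_lit 0x8017985b4) (nat_lit 536870912),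
  Rx.mk (nat_lit 511) (nat_lit 7) (nat_lit 7) (nat_lit 7) (nat_lit 7) (nat_lit 157) (nat_lit 7) r2_157 r9_7 (nat_lit 0) (nat_lit 0) (nat_lit 0) (nat_lit 0x8017985b4) (nat_lit 536870912)]
noncomputable def e40_42 : List Rx := [
  Rx.mk (nat_lit 0) (nat_lit 0) (nat_lit 0) (nat_lit 0) (nat_lit 0) (nat_lit 170) (nat_lit 2) r2_170 r9_2 (nat_lit 9380650) (nat_lit 12054409) (nat_lit 10208836) (nat_lit 0x4191c7aea) (nat_lit 1578696407),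
  Rx.mk (nat_lit 16) (nat_lit 0) (nat_lit 2) (nat_lit 0) (nat_lit 2) (nat_lit 173) (nat_lit 3) r2_173 r9_3 (nat_lit 27923274) (nat_lit 0) (nat_lit 18448465) (nat_lit 0x696412f82) (nat_lit 949568801),
  Rx.mk (nat_lit 18) (nat_lit 2) (nat_lit 2) (nat_lit 0) (nat_lit 3) (nat_lit 174) (nat_lit 4) r2_174 r9_4 (nat_lit 0) (nat_lit 0) (nat_lit 24741287) (nat_lit 0x7f9cd5ee4) (nat_lit 569152349),
  Rx.mk (nat_lit 146) (nat_lit 2) (nat_lit 2) (nat_lit 2) (nat_lit 7) (nat_lit 175) (nat_lit 13) r2_175 r9_13 (nat_lit 0) (nat_lit 0) (nat_lit 0) (nat_lit 0x8017985b4) (nat_lit 536870912),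
  Rx.mk (nat_lit 178) (nat_lit 2) (nat_lit 6) (nat_lit 2) (nat_lit 7) (nat_lit 169) (nat_lit 12) r2_169 r9_12 (nat_lit 0) (nat_lit 0) (nat_lit 0) (nat_lit 0x8017985b4) (nat_lit 536870912),
  Rx.mk (nat_lit 182) (nat_lit 6) (nat_lit 6) (nat_lit 2) (nat_lit 7) (nat_lit 168) (nat_lit 11) r2_168 r9_11 (nat_lit 0) (nat_lit 0) (nat_lit 0) (nat_lit 0x8017985b4) (nat_lit 536870912),
  Rx.mk (nat_lit 192) (nat_lit 0) (nat_lit 0) (nat_lit 3) (nat_lit 4) (nat_lit 171) (nat_lit 5) r2_171 r9_5 (nat_lit 28184396) (nat_lit 19348784) (nat_lit 0) (nat_lit 0x6737e5402) (nat_lit 985858192),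
  Rx.mk (nat_lit 195) (nat_lit 3) (nat_lit 0) (nat_lit 3) (nat_lit 5) (nat_lit 172) (nat_lit 6) r2_172 r9_6 (nat_lit 0) (nat_lit 23881749) (nat_lit 0) (nat_lit 0x7ffacd09c) (nat_lit 562515361),
  Rx.mk (nat_lit 208) (nat_lit 0) (nat_lit 2) (nat_lit 3) (nat_lit 6) (nat_lit 176) (nat_lit 8) r2_176 r9_8 (nat_lit 24741287) (nat_lit 0) (nat_lit 0) (nat_lit 0x800e5e7c8) (nat_lit 562175649),
  Rx.mk (nat_lit 210) (nat_lit 2) (nat_lit 2) (nat_lit 3) (nat_lit 7) (nat_lit 177) (nat_lit 10) r2_177 r9_10 (nat_lit 0) (nat_lit 0) (nat_lit 0) (nat_lit 0x8017985b4) (nat_lit 536870912),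
  Rx.mk (nat_lit 211) (nat_lit 3) (nat_lit 2) (nat_lit 3) (nat_lit 7) (nat_lit 178) (nat_lit 9) r2_178 r9_9 (nat_lit 0) (nat_lit 0) (nat_lit 0) (nat_lit 0x8017985b4) (nat_lit 536870912),
  Rx.mk (nat_lit 219) (nat_lit 3) (nat_lit 3) (nat_lit 3) (nat_lit 7) (nat_lit 179) (nat_lit 7) r2_179 r9_7 (nat_lit 0) (nat_lit 0) (nat_lit 0) (nat_lit 0x8017985b4) (nat_lit 536870912)]
noncomputable def e40_43 : List Rx := [
  Rx.mk (nat_lit 316) (nat_lit 4) (nat_lit 7) (nat_lit 4) (nat_lit 2) (nat_lit 16) (nat_lit 33) r2_16 r1_33 (nat_lit 23439880) (nat_lit 0) (nat_lit 29030061) (nat_lit 0x6ea7937fc) (nat_lit 870542453),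
  Rx.mk (nat_lit 420) (nat_lit 4) (nat_lit 4) (nat_lit 6) (nat_lit 4) (nat_lit 13) (nat_lit 31) r2_13 r1_31 (nat_lit 19918432) (nat_lit 28114446) (nat_lit 0) (nat_lit 0x712066600) (nat_lit 826141340),
  Rx.mk (nat_lit 422) (nat_lit 6) (nat_lit 4) (nat_lit 6) (nat_lit 5) (nat_lit 14) (nat_lit 32) r2_14 r1_32 (nat_lit 0) (nat_lit 35404402) (nat_lit 0) (nat_lit 0x7ebadf3d2) (nat_lit 593887464),
  Rx.mk (nat_lit 438) (nat_lit 6) (nat_lit 6) (nat_lit 6) (nat_lit 7) (nat_lit 15) (nat_lit 38) r2_15 r1_38 (nat_lit 0) (nat_lit 0) (nat_lit 0) (nat_lit 0x8017985b4) (nat_lit 536870912),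
  Rx.mk (nat_lit 444) (nat_lit 4) (nat_lit 7) (nat_lit 6) (nat_lit 6) (nat_lit 17) (nat_lit 36) r2_17 r1_36 (nat_lit 12320371) (nat_lit 0) (nat_lit 0) (nat_lit 0x80de8e3da) (nat_lit 537025133),
  Rx.mk (nat_lit 446) (nat_lit 6) (nat_lit 7) (nat_lit 6) (nat_lit 7) (nat_lit 18) (nat_lit 37) r2_18 r1_37 (nat_lit 0) (nat_lit 0) (nat_lit 0) (nat_lit 0x804b9beec) (nat_lit 533672912),
  Rx.mk (nat_lit 479) (nat_lit 7) (nat_lit 3) (nat_lit 7) (nat_lit 7) (nat_lit 21) (nat_lit 30) r2_21 r1_30 (nat_lit 0) (nat_lit 0) (nat_lit 0) (nat_lit 0x8017985b4) (nat_lit 536870912),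
  Rx.mk (nat_lit 508) (nat_lit 4) (nat_lit 7) (nat_lit 7) (nat_lit 6) (nat_lit 19) (nat_lit 34) r2_19 r1_34 (nat_lit 24741287) (nat_lit 0) (nat_lit 0) (nat_lit 0x800662966) (nat_lit 562664999),
  Rx.mk (nat_lit 511) (nat_lit 7) (nat_lit 7) (nat_lit 7) (nat_lit 7) (nat_lit 20) (nat_lit 35) r2_20 r1_35 (nat_lit 0) (nat_lit 0) (nat_lit 0) (nat_lit 0x8017985b4) (nat_lit 536870912)]
noncomputable def e40_44 : List Rx := [
  Rx.mk (nat_lit 292) (nat_lit 4) (nat_lit 4) (nat_lit 4) (nat_lit 0) (nat_lit 137) (nat_lit 257) r2_137 r8_257 (nat_lit 8042902) (nat_lit 7956767) (nat_lit 9703689) (nat_lit 0x3b91a0bee) (nat_lit 1669754570),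
  Rx.mk (nat_lit 316) (nat_lit 4) (nat_lit 7) (nat_lit 4) (nat_lit 2) (nat_lit 141) (nat_lit 258) r2_141 r8_258 (nat_lit 26195638) (nat_lit 0) (nat_lit 23096430) (nat_lit 0x64c1b892a) (nat_lit 1027421630),
  Rx.mk (nat_lit 420) (nat_lit 4) (nat_lit 4) (nat_lit 6) (nat_lit 4) (nat_lit 138) (nat_lit 260) r2_138 r8_260 (nat_lit 26855489) (nat_lit 23014465) (nat_lit 0) (nat_lit 0x65ff1eed0) (nat_lit 1007952966),
  Rx.mk (nat_lit 422) (nat_lit 6) (nat_lit 4) (nat_lit 6) (nat_lit 5) (nat_lit 139) (nat_lit 263) r2_139 r8_263 (nat_lit 0) (nat_lit 24741287) (nat_lit 0) (nat_lit 0x8005746a8) (nat_lit 562722999),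
  Rx.mk (nat_lit 438) (nat_lit 6) (nat_lit 6) (nat_lit 6) (nat_lit 7) (nat_lit 140) (nat_lit 265) r2_140 r8_265 (nat_lit 0) (nat_lit 0) (nat_lit 0) (nat_lit 0x8017985b4) (nat_lit 536870912),
  Rx.mk (nat_lit 444) (nat_lit 4) (nat_lit 7) (nat_lit 6) (nat_lit 6) (nat_lit 142) (nat_lit 261) r2_142 r8_261 (nat_lit 25403330) (nat_lit 0) (nat_lit 0) (nat_lit 0x7ff0757d4) (nat_lit 564659792),
  Rx.mk (nat_lit 446) (nat_lit 6) (nat_lit 7) (nat_lit 6) (nat_lit 7) (nat_lit 143) (nat_lit 264) r2_143 r8_264 (nat_lit 0) (nat_lit 0) (nat_lit 0) (nat_lit 0x8017985b4) (nat_lit 536870912),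
  Rx.mk (nat_lit 508) (nat_lit 4) (nat_lit 7) (nat_lit 7) (nat_lit 6) (nat_lit 144) (nat_lit 259) r2_144 r8_259 (nat_lit 24741287) (nat_lit 0) (nat_lit 0) (nat_lit 0x8017985b4) (nat_lit 561612199),
  Rx.mk (nat_lit 511) (nat_lit 7) (nat_lit 7) (nat_lit 7) (nat_lit 7) (nat_lit 145) (nat_lit 262) r2_145 r8_262 (nat_lit 0) (nat_lit 0) (nat_lit 0) (nat_lit 0x8017985b4) (nat_lit 536870912)]
noncomputable def e40_45 : List Rx := [
  Rx.mk (nat_lit 293) (nat_lit 5) (nat_lit 4) (nat_lit 4) (nat_lit 1) (nat_lit 115) (nat_lit 258) r2_115 r1_258 (nat_lit 0) (nat_lit 62162713) (nat_lit 69955890) (nat_lit 0x67d3cb8d0) (nat_lit 1060595215),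
  Rx.mk (nat_lit 301) (nat_lit 5) (nat_lit 5) (nat_lit 4) (nat_lit 3) (nat_lit 116) (nat_lit 259) r2_116 r1_259 (nat_lit 0) (nat_lit 0) (nat_lit 24741287) (nat_lit 0x8017985b4) (nat_lit 561612199),
  Rx.mk (nat_lit 317) (nat_lit 5) (nat_lit 7) (nat_lit 4) (nat_lit 3) (nat_lit 117) (nat_lit 260) r2_117 r1_260 (nat_lit 0) (nat_lit 0) (nat_lit 25157357) (nat_lit 0x800ccd3b4) (nat_lit 562687369),
  Rx.mk (nat_lit 509) (nat_lit 5) (nat_lit 7) (nat_lit 7) (nat_lit 7) (nat_lit 118) (nat_lit 261) r2_118 r1_261 (nat_lit 0) (nat_lit 0) (nat_lit 0) (nat_lit 0x8017985b4) (nat_lit 536870912)]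
noncomputable def e40_46 : List Rx := [
  Rx.mk (nat_lit 301) (nat_lit 5) (nat_lit 5) (nat_lit 4) (nat_lit 3) (nat_lit 286) (nat_lit 286) r2_286 r2_286 (nat_lit 0) (nat_lit 0) (nat_lit 25705717) (nat_lit 0x7fdb54706) (nat_lit 566263129),
  Rx.mk (nat_lit 365) (nat_lit 5) (nat_lit 5) (nat_lit 5) (nat_lit 7) (nat_lit 287) (nat_lit 287) r2_287 r2_287 (nat_lit 0) (nat_lit 0) (nat_lit 0) (nat_lit 0x8017985b4) (nat_lit 536870912)]
noncomputable def e40_47 : List Rx := [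
  Rx.mk (nat_lit 292) (nat_lit 4) (nat_lit 4) (nat_lit 4) (nat_lit 0) (nat_lit 119) (nat_lit 25) r2_119 r8_25 (nat_lit 5186153) (nat_lit 4963972) (nat_lit 12331261) (nat_lit 0x3d9490d48) (nat_lit 1633943848),
  Rx.mk (nat_lit 293) (nat_lit 5) (nat_lit 4) (nat_lit 4) (nat_lit 1) (nat_lit 120) (nat_lit 26) r2_120 r8_26 (nat_lit 0) (nat_lit 34582474) (nat_lit 52104926) (nat_lit 0x6328cac00) (nat_lit 1090646762),
  Rx.mk (nat_lit 300) (nat_lit 4) (nat_lit 5) (nat_lit 4) (nat_lit 2) (nat_lit 124) (nat_lit 30) r2_124 r8_30 (nat_lit 57149300) (nat_lit 0) (nat_lit 36724435) (nat_lit 0x6701206b0) (nat_lit 1035651797),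
  Rx.mk (nat_lit 301) (nat_lit 5) (nat_lit 5) (nat_lit 4) (nat_lit 3) (nat_lit 125) (nat_lit 31) r2_125 r8_31 (nat_lit 0) (nat_lit 0) (nat_lit 25055876) (nat_lit 0x7fce11080) (nat_lit 566426188),
  Rx.mk (nat_lit 316) (nat_lit 4) (nat_lit 7) (nat_lit 4) (nat_lit 2) (nat_lit 130) (nat_lit 35) r2_130 r8_35 (nat_lit 26542101) (nat_lit 0) (nat_lit 20092839) (nat_lit 0x6a8be4910) (nat_lit 931123202),
  Rx.mk (nat_lit 317) (nat_lit 5) (nat_lit 7) (nat_lit 4) (nat_lit 3) (nat_lit 131) (nat_lit 36) r2_131 r8_36 (nat_lit 0) (nat_lit 0) (nat_lit 25669145) (nat_lit 0x80014139c) (nat_lit 563906157),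
  Rx.mk (nat_lit 420) (nat_lit 4) (nat_lit 4) (nat_lit 6) (nat_lit 4) (nat_lit 121) (nat_lit 27) r2_121 r8_27 (nat_lit 24833065) (nat_lit 21402582) (nat_lit 0) (nat_lit 0x6b091ef98) (nat_lit 922817759),
  Rx.mk (nat_lit 421) (nat_lit 5) (nat_lit 4) (nat_lit 6) (nat_lit 5) (nat_lit 122) (nat_lit 28) r2_122 r8_28 (nat_lit 0) (nat_lit 24741287) (nat_lit 0) (nat_lit 0x8017985b4) (nat_lit 561612199),
  Rx.mk (nat_lit 422) (nat_lit 6) (nat_lit 4) (nat_lit 6) (nat_lit 5) (nat_lit 123) (nat_lit 29) r2_123 r8_29 (nat_lit 0) (nat_lit 24741287) (nat_lit 0) (nat_lit 0x7fd79296a) (nat_lit 565539099),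
  Rx.mk (nat_lit 428) (nat_lit 4) (nat_lit 5) (nat_lit 6) (nat_lit 6) (nat_lit 126) (nat_lit 32) r2_126 r8_32 (nat_lit 24741287) (nat_lit 0) (nat_lit 0) (nat_lit 0x8017985b4) (nat_lit 561612199),
  Rx.mk (nat_lit 429) (nat_lit 5) (nat_lit 5) (nat_lit 6) (nat_lit 7) (nat_lit 127) (nat_lit 33) r2_127 r8_33 (nat_lit 0) (nat_lit 0) (nat_lit 0) (nat_lit 0x8017985b4) (nat_lit 536870912),
  Rx.mk (nat_lit 430) (nat_lit 6) (nat_lit 5) (nat_lit 6) (nat_lit 7) (nat_lit 128) (nat_lit 34) r2_128 r8_34 (nat_lit 0) (nat_lit 0) (nat_lit 0) (nat_lit 0x8017985b4) (nat_lit 536870912),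
  Rx.mk (nat_lit 438) (nat_lit 6) (nat_lit 6) (nat_lit 6) (nat_lit 7) (nat_lit 129) (nat_lit 42) r2_129 r8_42 (nat_lit 0) (nat_lit 0) (nat_lit 0) (nat_lit 0x8017985b4) (nat_lit 536870912),
  Rx.mk (nat_lit 444) (nat_lit 4) (nat_lit 7) (nat_lit 6) (nat_lit 6) (nat_lit 132) (nat_lit 40) r2_132 r8_40 (nat_lit 24741287) (nat_lit 0) (nat_lit 0) (nat_lit 0x7ff611878) (nat_lit 563663549),
  Rx.mk (nat_lit 445) (nat_lit 5) (nat_lit 7) (nat_lit 6) (nat_lit 7) (nat_lit 133) (nat_lit 41) r2_133 r8_41 (nat_lit 0) (nat_lit 0) (nat_lit 0) (nat_lit 0x8017985b4) (nat_lit 536870912),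
  Rx.mk (nat_lit 508) (nat_lit 4) (nat_lit 7) (nat_lit 7) (nat_lit 6) (nat_lit 134) (nat_lit 37) r2_134 r8_37 (nat_lit 24741287) (nat_lit 0) (nat_lit 0) (nat_lit 0x8017985b4) (nat_lit 561612199),
  Rx.mk (nat_lit 509) (nat_lit 5) (nat_lit 7) (nat_lit 7) (nat_lit 7) (nat_lit 135) (nat_lit 38) r2_135 r8_38 (nat_lit 0) (nat_lit 0) (nat_lit 0) (nat_lit 0x8017985b4) (nat_lit 536870912),
  Rx.mk (nat_lit 511) (nat_lit 7) (nat_lit 7) (nat_lit 7) (nat_lit 7) (nat_lit 136) (nat_lit 39) r2_136 r8_39 (nat_lit 0) (nat_lit 0) (nat_lit 0) (nat_lit 0x8017985b4) (nat_lit 536870912)]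
noncomputable def e40_48 : List Rx := [
  Rx.mk (nat_lit 300) (nat_lit 4) (nat_lit 5) (nat_lit 4) (nat_lit 2) (nat_lit 289) (nat_lit 260) r2_289 r9_260 (nat_lit 67893355) (nat_lit 0) (nat_lit 40876841) (nat_lit 0x6a127e06c) (nat_lit 1000948958),
  Rx.mk (nat_lit 301) (nat_lit 5) (nat_lit 5) (nat_lit 4) (nat_lit 3) (nat_lit 290) (nat_lit 262) r2_290 r9_262 (nat_lit 0) (nat_lit 0) (nat_lit 24603401) (nat_lit 0x8007974d0) (nat_lit 562452963),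
  Rx.mk (nat_lit 365) (nat_lit 5) (nat_lit 5) (nat_lit 5) (nat_lit 7) (nat_lit 291) (nat_lit 263) r2_291 r9_263 (nat_lit 0) (nat_lit 0) (nat_lit 0) (nat_lit 0x8017985b4) (nat_lit 536870912),
  Rx.mk (nat_lit 428) (nat_lit 4) (nat_lit 5) (nat_lit 6) (nat_lit 6) (nat_lit 292) (nat_lit 261) r2_292 r9_261 (nat_lit 24741287) (nat_lit 0) (nat_lit 0) (nat_lit 0x8017985b4) (nat_lit 561612199),
  Rx.mk (nat_lit 429) (nat_lit 5) (nat_lit 5) (nat_lit 6) (nat_lit 7) (nat_lit 293) (nat_lit 264) r2_293 r9_264 (nat_lit 0) (nat_lit 0) (nat_lit 0) (nat_lit 0x8017985b4) (nat_lit 536870912),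
  Rx.mk (nat_lit 430) (nat_lit 6) (nat_lit 5) (nat_lit 6) (nat_lit 7) (nat_lit 294) (nat_lit 265) r2_294 r9_265 (nat_lit 0) (nat_lit 0) (nat_lit 0) (nat_lit 0x8017985b4) (nat_lit 536870912)]
noncomputable def e40_49 : List Rx := [
  Rx.mk (nat_lit 365) (nat_lit 5) (nat_lit 5) (nat_lit 5) (nat_lit 7) (nat_lit 288) (nat_lit 293) r2_288 r9_293 (nat_lit 0) (nat_lit 0) (nat_lit 0) (nat_lit 0x8017985b4) (nat_lit 536870912)]
noncomputable def e40_50 : List Rx := [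
  Rx.mk (nat_lit 317) (nat_lit 5) (nat_lit 7) (nat_lit 4) (nat_lit 3) (nat_lit 44) (nat_lit 254) r2_44 r3_254 (nat_lit 0) (nat_lit 0) (nat_lit 1368375) (nat_lit 0x80b22cd14) (nat_lit 527945287),
  Rx.mk (nat_lit 477) (nat_lit 5) (nat_lit 3) (nat_lit 7) (nat_lit 7) (nat_lit 46) (nat_lit 256) r2_46 r3_256 (nat_lit 0) (nat_lit 0) (nat_lit 0) (nat_lit 0x8616d9e60) (nat_lit 444661462),
  Rx.mk (nat_lit 509) (nat_lit 5) (nat_lit 7) (nat_lit 7) (nat_lit 7) (nat_lit 45) (nat_lit 255) r2_45 r3_255 (nat_lit 0) (nat_lit 0) (nat_lit 0) (nat_lit 0x842b28ae4) (nat_lit 474011712)]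
noncomputable def e40_51 : List Rx := [
  Rx.mk (nat_lit 317) (nat_lit 5) (nat_lit 7) (nat_lit 4) (nat_lit 3) (nat_lit 158) (nat_lit 271) r2_158 r4_271 (nat_lit 0) (nat_lit 0) (nat_lit 24741287) (nat_lit 0x8017985b4) (nat_lit 561612199),
  Rx.mk (nat_lit 509) (nat_lit 5) (nat_lit 7) (nat_lit 7) (nat_lit 7) (nat_lit 159) (nat_lit 272) r2_159 r4_272 (nat_lit 0) (nat_lit 0) (nat_lit 0) (nat_lit 0x8017985b4) (nat_lit 536870912)]
noncomputable def e40_52 : List Rx := [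
  Rx.mk (nat_lit 285) (nat_lit 5) (nat_lit 3) (nat_lit 4) (nat_lit 3) (nat_lit 239) (nat_lit 259) r2_239 r5_259 (nat_lit 0) (nat_lit 0) (nat_lit 20262659) (nat_lit 0x7ffd89060) (nat_lit 558709871),
  Rx.mk (nat_lit 317) (nat_lit 5) (nat_lit 7) (nat_lit 4) (nat_lit 3) (nat_lit 238) (nat_lit 258) r2_238 r5_258 (nat_lit 0) (nat_lit 0) (nat_lit 39193482) (nat_lit 0x80a1c8662) (nat_lit 567515444),
  Rx.mk (nat_lit 477) (nat_lit 5) (nat_lit 3) (nat_lit 7) (nat_lit 7) (nat_lit 240) (nat_lit 260) r2_240 r5_260 (nat_lit 0) (nat_lit 0) (nat_lit 0) (nat_lit 0x8017985b4) (nat_lit 536870912)]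
noncomputable def e40_53 : List Rx := [
  Rx.mk (nat_lit 316) (nat_lit 4) (nat_lit 7) (nat_lit 4) (nat_lit 2) (nat_lit 47) (nat_lit 24) r2_47 r4_24 (nat_lit 4698401) (nat_lit 0) (nat_lit 8468611) (nat_lit 0x6f73fce92) (nat_lit 818155574),
  Rx.mk (nat_lit 317) (nat_lit 5) (nat_lit 7) (nat_lit 4) (nat_lit 3) (nat_lit 48) (nat_lit 25) r2_48 r4_25 (nat_lit 0) (nat_lit 0) (nat_lit 26453388) (nat_lit 0x802d4deae) (nat_lit 561974850),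
  Rx.mk (nat_lit 444) (nat_lit 4) (nat_lit 7) (nat_lit 6) (nat_lit 6) (nat_lit 49) (nat_lit 28) r2_49 r4_28 (nat_lit 4236250) (nat_lit 0) (nat_lit 0) (nat_lit 0x81374ce9a) (nat_lit 523350712),
  Rx.mk (nat_lit 445) (nat_lit 5) (nat_lit 7) (nat_lit 6) (nat_lit 7) (nat_lit 50) (nat_lit 29) r2_50 r4_29 (nat_lit 0) (nat_lit 0) (nat_lit 0) (nat_lit 0x817902fd8) (nat_lit 515379662),
  Rx.mk (nat_lit 446) (nat_lit 6) (nat_lit 7) (nat_lit 6) (nat_lit 7) (nat_lit 51) (nat_lit 30) r2_51 r4_30 (nat_lit 0) (nat_lit 0) (nat_lit 0) (nat_lit 0x8173c4f94) (nat_lit 515699662),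
  Rx.mk (nat_lit 476) (nat_lit 4) (nat_lit 3) (nat_lit 7) (nat_lit 6) (nat_lit 54) (nat_lit 21) r2_54 r4_21 (nat_lit 16949147) (nat_lit 0) (nat_lit 0) (nat_lit 0x80890f31e) (nat_lit 546864309),
  Rx.mk (nat_lit 477) (nat_lit 5) (nat_lit 3) (nat_lit 7) (nat_lit 7) (nat_lit 55) (nat_lit 22) r2_55 r4_22 (nat_lit 0) (nat_lit 0) (nat_lit 0) (nat_lit 0x8017985b4) (nat_lit 536870912),
  Rx.mk (nat_lit 479) (nat_lit 7) (nat_lit 3) (nat_lit 7) (nat_lit 7) (nat_lit 56) (nat_lit 23) r2_56 r4_23 (nat_lit 0) (nat_lit 0) (nat_lit 0) (nat_lit 0x8017985b4) (nat_lit 536870912),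
  Rx.mk (nat_lit 508) (nat_lit 4) (nat_lit 7) (nat_lit 7) (nat_lit 6) (nat_lit 52) (nat_lit 26) r2_52 r4_26 (nat_lit 18137495) (nat_lit 0) (nat_lit 0) (nat_lit 0x807289324) (nat_lit 549428707),
  Rx.mk (nat_lit 509) (nat_lit 5) (nat_lit 7) (nat_lit 7) (nat_lit 7) (nat_lit 53) (nat_lit 27) r2_53 r4_27 (nat_lit 0) (nat_lit 0) (nat_lit 0) (nat_lit 0x8017985b4) (nat_lit 536870912)]
noncomputable def e40_54 : List Rx := [
  Rx.mk (nat_lit 316) (nat_lit 4) (nat_lit 7) (nat_lit 4) (nat_lit 2) (nat_lit 160) (nat_lit 292) r2_160 r10_292 (nat_lit 13507056) (nat_lit 0) (nat_lit 10828370) (nat_lit 0x67d645c8c) (nat_lit 952582088),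
  Rx.mk (nat_lit 317) (nat_lit 5) (nat_lit 7) (nat_lit 4) (nat_lit 3) (nat_lit 161) (nat_lit 295) r2_161 r10_295 (nat_lit 0) (nat_lit 0) (nat_lit 24741287) (nat_lit 0x8017985b4) (nat_lit 561612199),
  Rx.mk (nat_lit 444) (nat_lit 4) (nat_lit 7) (nat_lit 6) (nat_lit 6) (nat_lit 162) (nat_lit 294) r2_162 r10_294 (nat_lit 26181532) (nat_lit 0) (nat_lit 0) (nat_lit 0x7fe1525fe) (nat_lit 566368444),
  Rx.mk (nat_lit 445) (nat_lit 5) (nat_lit 7) (nat_lit 6) (nat_lit 7) (nat_lit 163) (nat_lit 297) r2_163 r10_297 (nat_lit 0) (nat_lit 0) (nat_lit 0) (nat_lit 0x8017985b4) (nat_lit 536870912),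
  Rx.mk (nat_lit 446) (nat_lit 6) (nat_lit 7) (nat_lit 6) (nat_lit 7) (nat_lit 164) (nat_lit 298) r2_164 r10_298 (nat_lit 0) (nat_lit 0) (nat_lit 0) (nat_lit 0x8017985b4) (nat_lit 536870912),
  Rx.mk (nat_lit 508) (nat_lit 4) (nat_lit 7) (nat_lit 7) (nat_lit 6) (nat_lit 165) (nat_lit 293) r2_165 r10_293 (nat_lit 24741287) (nat_lit 0) (nat_lit 0) (nat_lit 0x8017985b4) (nat_lit 561612199),
  Rx.mk (nat_lit 509) (nat_lit 5) (nat_lit 7) (nat_lit 7) (nat_lit 7) (nat_lit 166) (nat_lit 296) r2_166 r10_296 (nat_lit 0) (nat_lit 0) (nat_lit 0) (nat_lit 0x8017985b4) (nat_lit 536870912)]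
noncomputable def e40_55 : List Rx := [
  Rx.mk (nat_lit 284) (nat_lit 4) (nat_lit 3) (nat_lit 4) (nat_lit 2) (nat_lit 246) (nat_lit 309) r2_246 r11_309 (nat_lit 33757685) (nat_lit 0) (nat_lit 47863837) (nat_lit 0x7c693e598) (nat_lit 677403034),
  Rx.mk (nat_lit 285) (nat_lit 5) (nat_lit 3) (nat_lit 4) (nat_lit 3) (nat_lit 247) (nat_lit 313) r2_247 r11_313 (nat_lit 0) (nat_lit 0) (nat_lit 24741287) (nat_lit 0x8017985b4) (nat_lit 561612199),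
  Rx.mk (nat_lit 316) (nat_lit 4) (nat_lit 7) (nat_lit 4) (nat_lit 2) (nat_lit 241) (nat_lit 308) r2_241 r11_308 (nat_lit 25006969) (nat_lit 0) (nat_lit 36134950) (nat_lit 0x75d2a943a) (nat_lit 763343081),
  Rx.mk (nat_lit 317) (nat_lit 5) (nat_lit 7) (nat_lit 4) (nat_lit 3) (nat_lit 242) (nat_lit 312) r2_242 r11_312 (nat_lit 0) (nat_lit 0) (nat_lit 24741287) (nat_lit 0x8017985b4) (nat_lit 561612199),
  Rx.mk (nat_lit 444) (nat_lit 4) (nat_lit 7) (nat_lit 6) (nat_lit 6) (nat_lit 243) (nat_lit 311) r2_243 r11_311 (nat_lit 24741287) (nat_lit 0) (nat_lit 0) (nat_lit 0x8017985b4) (nat_lit 561612199),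
  Rx.mk (nat_lit 445) (nat_lit 5) (nat_lit 7) (nat_lit 6) (nat_lit 7) (nat_lit 244) (nat_lit 315) r2_244 r11_315 (nat_lit 0) (nat_lit 0) (nat_lit 0) (nat_lit 0x8017985b4) (nat_lit 536870912),
  Rx.mk (nat_lit 446) (nat_lit 6) (nat_lit 7) (nat_lit 6) (nat_lit 7) (nat_lit 245) (nat_lit 317) r2_245 r11_317 (nat_lit 0) (nat_lit 0) (nat_lit 0) (nat_lit 0x8017985b4) (nat_lit 536870912),
  Rx.mk (nat_lit 476) (nat_lit 4) (nat_lit 3) (nat_lit 7) (nat_lit 6) (nat_lit 248) (nat_lit 310) r2_248 r11_310 (nat_lit 24741287) (nat_lit 0) (nat_lit 0) (nat_lit 0x8017985b4) (nat_lit 561612199),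
  Rx.mk (nat_lit 477) (nat_lit 5) (nat_lit 3) (nat_lit 7) (nat_lit 7) (nat_lit 249) (nat_lit 314) r2_249 r11_314 (nat_lit 0) (nat_lit 0) (nat_lit 0) (nat_lit 0x8017985b4) (nat_lit 536870912),
  Rx.mk (nat_lit 479) (nat_lit 7) (nat_lit 3) (nat_lit 7) (nat_lit 7) (nat_lit 250) (nat_lit 316) r2_250 r11_316 (nat_lit 0) (nat_lit 0) (nat_lit 0) (nat_lit 0x8017985b4) (nat_lit 536870912)]
noncomputable def e40_56 : List Rx := [
  Rx.mk (nat_lit 477) (nat_lit 5) (nat_lit 3) (nat_lit 7) (nat_lit 7) (nat_lit 58) (nat_lit 14) r2_58 r5_14 (nat_lit 0) (nat_lit 0) (nat_lit 0) (nat_lit 0x8017985b4) (nat_lit 536870912),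
  Rx.mk (nat_lit 509) (nat_lit 5) (nat_lit 7) (nat_lit 7) (nat_lit 7) (nat_lit 57) (nat_lit 15) r2_57 r5_15 (nat_lit 0) (nat_lit 0) (nat_lit 0) (nat_lit 0x8059dee46) (nat_lit 532797862)]
noncomputable def e40_57 : List Rx := [
  Rx.mk (nat_lit 509) (nat_lit 5) (nat_lit 7) (nat_lit 7) (nat_lit 7) (nat_lit 167) (nat_lit 5) r2_167 r11_5 (nat_lit 0) (nat_lit 0) (nat_lit 0) (nat_lit 0x8017985b4) (nat_lit 536870912)]
noncomputable def e40 : List (List Rx) := [e40_0, e40_1, e40_2, e40_3, e40_4, e40_5, e40_6, e40_7, e40_8, e40_9, e40_10, e40_11, e40_12, e40_13, e40_14, e40_15, e40_16, e40_17, e40_18, e40_19, e40_20, e40_21, e40_22, e40_23, e40_24, e40_25, e40_26, e40_27, e40_28, e40_29, e40_30, e40_31, e40_32, e40_33, e40_34, e40_35, e40_36, e40_37, e40_38, e40_39, e40_40, e40_41, e40_42, e40_43, e40_44, e40_45, e40_46, e40_47, e40_48, e40_49, e40_50, e40_51, e40_52,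 e40_53, e40_54, e40_55, e40_56, e40_57]

end Pool.Agent.AKXS_24_34_V1
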