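import Pool.Agent.AKXS_24_34_V1.R0
import Pool.Agent.AKXS_24_34_V1.R1
import Pool.Agent.AKXS_24_34_V1.R2
import Pool.Agent.AKXS_24_34_V1.R3
import Pool.Agent.AKXS_24_34_V1.R4
import Pool.Agent.AKXS_24_34_V1.R5
import Pool.Agent.AKXS_24_34_V1.R6
import Pool.Agent.AKXS_24_34_V1.R7
import Pool.Agent.AKXS_24_34_V1.R8
import Pool.Agent.AKXS_24_34_V1.R9
import Pool.Agent.AKXS_24_34_V1.R10
import Pool.Agent.AKXS_24_34_V1.R11
import Pool.Agent.AKXS_24_34_V1.R12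

set_option autoImplicit false

namespace Pool.Agent.AKXS_24_34_V1

open Pool.Agent.AKX Pool.Agent.AKU

noncomputable def e41_0 : List Rx := [
  Rx.mk (nat_lit 1) (nat_lit 1) (nat_lit 0) (nat_lit 0) (nat_lit 1) (nat_lit 155) (nat_lit 257) r9_155 r0_257 (nat_lit 0) (nat_lit 41159980) (nat_lit 49590700) (nat_lit 0x50d4cab80) (nat_lit 1391082492),
  Rx.mk (nat_lit 9) (nat_lit 1) (nat_lit 1) (nat_lit 0) (nat_lit 3) (nat_lit 157) (nat_lit 259) r9_157 r0_259 (nat_lit 0) (nat_lit 0) (nat_lit 28301978) (nat_lit 0x71f06598c) (nat_lit 793284240),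
  Rx.mk (nat_lit 193) (nat_lit 1) (nat_lit 0) (nat_lit 3) (nat_lit 5) (nat_lit 156) (nat_lit 258) r9_156 r0_258 (nat_lit 0) (nat_lit 30127539) (nat_lit 0) (nat_lit 0x7a85fc8e4) (nat_lit 656361051),
  Rx.mk (nat_lit 201) (nat_lit 1) (nat_lit 1) (nat_lit 3) (nat_lit 7) (nat_lit 158) (nat_lit 260) r9_158 r0_260 (nat_lit 0) (nat_lit 0) (nat_lit 0) (nat_lit 0x7fffa9a3e) (nat_lit 538336962),
  Rx.mk (nat_lit 217) (nat_lit 1) (nat_lit 3) (nat_lit 3) (nat_lit 7) (nat_lit 159) (nat_lit 261) r9_159 r0_261 (nat_lit 0) (nat_lit 0) (nat_lit 0) (nat_lit 0x800dc4ccc) (nat_lit 537471612)]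
noncomputable def e41_1 : List Rx := [
  Rx.mk (nat_lit 1) (nat_lit 1) (nat_lit 0) (nat_lit 0) (nat_lit 1) (nat_lit 160) (nat_lit 262) r9_160 r1_262 (nat_lit 0) (nat_lit 38504019) (nat_lit 68973086) (nat_lit 0x645605570) (nat_lit 1092404867),
  Rx.mk (nat_lit 9) (nat_lit 1) (nat_lit 1) (nat_lit 0) (nat_lit 3) (nat_lit 163) (nat_lit 265) r9_163 r1_265 (nat_lit 0) (nat_lit 0) (nat_lit 24741287) (nat_lit 0x8017985b4) (nat_lit 561612199),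
  Rx.mk (nat_lit 65) (nat_lit 1) (nat_lit 0) (nat_lit 1) (nat_lit 5) (nat_lit 161) (nat_lit 263) r9_161 r1_263 (nat_lit 0) (nat_lit 24741287) (nat_lit 0) (nat_lit 0x8004fdb2a) (nat_lit 562749199),
  Rx.mk (nat_lit 73) (nat_lit 1) (nat_lit 1) (nat_lit 1) (nat_lit 7) (nat_lit 164) (nat_lit 266) r9_164 r1_266 (nat_lit 0) (nat_lit 0) (nat_lit 0) (nat_lit 0x8017985b4) (nat_lit 536870912),
  Rx.mk (nat_lit 193) (nat_lit 1) (nat_lit 0) (nat_lit 3) (nat_lit 5) (nat_lit 162) (nat_lit 264) r9_162 r1_264 (nat_lit 0) (nat_lit 24741287) (nat_lit 0) (nat_lit 0x8017985b4) (nat_lit 561612199),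
  Rx.mk (nat_lit 201) (nat_lit 1) (nat_lit 1) (nat_lit 3) (nat_lit 7) (nat_lit 165) (nat_lit 267) r9_165 r1_267 (nat_lit 0) (nat_lit 0) (nat_lit 0) (nat_lit 0x8017985b4) (nat_lit 536870912),
  Rx.mk (nat_lit 217) (nat_lit 1) (nat_lit 3) (nat_lit 3) (nat_lit 7) (nat_lit 166) (nat_lit 268) r9_166 r1_268 (nat_lit 0) (nat_lit 0) (nat_lit 0) (nat_lit 0x8017985b4) (nat_lit 536870912)]
noncomputable def e41_2 : List Rx := [
  Rx.mk (nat_lit 73) (nat_lit 1) (nat_lit 1) (nat_lit 1) (nat_lit 7) (nat_lit 293) (nat_lit 288) r9_293 r2_288 (nat_lit 0) (nat_lit 0) (nat_lit 0) (nat_lit 0x8017985b4) (nat_lit 536870912)]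
noncomputable def e41_3 : List Rx := [
  Rx.mk (nat_lit 193) (nat_lit 1) (nat_lit 0) (nat_lit 3) (nat_lit 5) (nat_lit 19) (nat_lit 257) r9_19 r3_257 (nat_lit 0) (nat_lit 6950286) (nat_lit 0) (nat_lit 0x6a58027fa) (nat_lit 894620048),
  Rx.mk (nat_lit 201) (nat_lit 1) (nat_lit 1) (nat_lit 3) (nat_lit 7) (nat_lit 20) (nat_lit 258) r9_20 r3_258 (nat_lit 0) (nat_lit 0) (nat_lit 0) (nat_lit 0x7ffede474) (nat_lit 538398162),
  Rx.mk (nat_lit 217) (nat_lit 1) (nat_lit 3) (nat_lit 3) (nat_lit 7) (nat_lit 22) (nat_lit 259) r9_22 r3_259 (nat_lit 0) (nat_lit 0) (nat_lit 0) (nat_lit 0x7fbe4884c) (nat_lit 542361212),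
  Rx.mk (nat_lit 473) (nat_lit 1) (nat_lit 3) (nat_lit 7) (nat_lit 7) (nat_lit 21) (nat_lit 260) r9_21 r3_260 (nat_lit 0) (nat_lit 0) (nat_lit 0) (nat_lit 0x800056a40) (nat_lit 538300112)]
noncomputable def e41_4 : List Rx := [
  Rx.mk (nat_lit 193) (nat_lit 1) (nat_lit 0) (nat_lit 3) (nat_lit 5) (nat_lit 167) (nat_lit 273) r9_167 r4_273 (nat_lit 0) (nat_lit 24741287) (nat_lit 0) (nat_lit 0x7fff3afc6) (nat_lit 563104399),
  Rx.mk (nat_lit 201) (nat_lit 1) (nat_lit 1) (nat_lit 3) (nat_lit 7) (nat_lit 168) (nat_lit 274) r9_168 r4_274 (nat_lit 0) (nat_lit 0) (nat_lit 0) (nat_lit 0x8017985b4) (nat_lit 536870912),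
  Rx.mk (nat_lit 217) (nat_lit 1) (nat_lit 3) (nat_lit 3) (nat_lit 7) (nat_lit 169) (nat_lit 275) r9_169 r4_275 (nat_lit 0) (nat_lit 0) (nat_lit 0) (nat_lit 0x8017985b4) (nat_lit 536870912)]
noncomputable def e41_5 : List Rx := [
  Rx.mk (nat_lit 193) (nat_lit 1) (nat_lit 0) (nat_lit 3) (nat_lit 5) (nat_lit 225) (nat_lit 261) r9_225 r5_261 (nat_lit 0) (nat_lit 29963902) (nat_lit 0) (nat_lit 0x7c0aae942) (nat_lit 631646464),
  Rx.mk (nat_lit 201) (nat_lit 1) (nat_lit 1) (nat_lit 3) (nat_lit 7) (nat_lit 227) (nat_lit 263) r9_227 r5_263 (nat_lit 0) (nat_lit 0) (nat_lit 0) (nat_lit 0x8017985b4) (nat_lit 536870912),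
  Rx.mk (nat_lit 449) (nat_lit 1) (nat_lit 0) (nat_lit 7) (nat_lit 5) (nat_lit 224) (nat_lit 262) r9_224 r5_262 (nat_lit 0) (nat_lit 27922064) (nat_lit 0) (nat_lit 0x7cb09d100) (nat_lit 619170926),
  Rx.mk (nat_lit 457) (nat_lit 1) (nat_lit 1) (nat_lit 7) (nat_lit 7) (nat_lit 226) (nat_lit 264) r9_226 r5_264 (nat_lit 0) (nat_lit 0) (nat_lit 0) (nat_lit 0x8017985b4) (nat_lit 536870912),
  Rx.mk (nat_lit 473) (nat_lit 1) (nat_lit 3) (nat_lit 7) (nat_lit 7) (nat_lit 228) (nat_lit 265) r9_228 r5_265 (nat_lit 0) (nat_lit 0) (nat_lit 0) (nat_lit 0x8017985b4) (nat_lit 536870912)]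
noncomputable def e41_6 : List Rx := [
  Rx.mk (nat_lit 265) (nat_lit 1) (nat_lit 1) (nat_lit 4) (nat_lit 3) (nat_lit 301) (nat_lit 293) r9_301 r3_293 (nat_lit 0) (nat_lit 0) (nat_lit 23806788) (nat_lit 0x6530a0838) (nat_lit 994848200),
  Rx.mk (nat_lit 269) (nat_lit 5) (nat_lit 1) (nat_lit 4) (nat_lit 3) (nat_lit 300) (nat_lit 290) r9_300 r3_290 (nat_lit 0) (nat_lit 0) (nat_lit 36215805) (nat_lit 0x6837b1e8a) (nat_lit 958320217),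
  Rx.mk (nat_lit 329) (nat_lit 1) (nat_lit 1) (nat_lit 5) (nat_lit 7) (nat_lit 303) (nat_lit 294) r9_303 r3_294 (nat_lit 0) (nat_lit 0) (nat_lit 0) (nat_lit 0x8017985b4) (nat_lit 536870912),
  Rx.mk (nat_lit 333) (nat_lit 5) (nat_lit 1) (nat_lit 5) (nat_lit 7) (nat_lit 302) (nat_lit 291) r9_302 r3_291 (nat_lit 0) (nat_lit 0) (nat_lit 0) (nat_lit 0x7f8a461c0) (nat_lit 545571162),
  Rx.mk (nat_lit 461) (nat_lit 5) (nat_lit 1) (nat_lit 7) (nat_lit 7) (nat_lit 304) (nat_lit 292) r9_304 r3_292 (nat_lit 0) (nat_lit 0) (nat_lit 0) (nat_lit 0x7ded52914) (nat_lit 571323512)]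
noncomputable def e41_7 : List Rx := [
  Rx.mk (nat_lit 329) (nat_lit 1) (nat_lit 1) (nat_lit 5) (nat_lit 7) (nat_lit 249) (nat_lit 292) r9_249 r0_292 (nat_lit 0) (nat_lit 0) (nat_lit 0) (nat_lit 0x7fa7f11e8) (nat_lit 543731812),
  Rx.mk (nat_lit 333) (nat_lit 5) (nat_lit 1) (nat_lit 5) (nat_lit 7) (nat_lit 248) (nat_lit 291) r9_248 r0_291 (nat_lit 0) (nat_lit 0) (nat_lit 0) (nat_lit 0x7f706cec0) (nat_lit 547165662)]
noncomputable def e41_8 : List Rx := [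
  Rx.mk (nat_lit 73) (nat_lit 1) (nat_lit 1) (nat_lit 1) (nat_lit 7) (nat_lit 292) (nat_lit 289) r9_292 r1_289 (nat_lit 0) (nat_lit 0) (nat_lit 0) (nat_lit 0x8017985b4) (nat_lit 536870912),
  Rx.mk (nat_lit 329) (nat_lit 1) (nat_lit 1) (nat_lit 5) (nat_lit 7) (nat_lit 291) (nat_lit 288) r9_291 r1_288 (nat_lit 0) (nat_lit 0) (nat_lit 0) (nat_lit 0x8017985b4) (nat_lit 536870912),
  Rx.mk (nat_lit 333) (nat_lit 5) (nat_lit 1) (nat_lit 5) (nat_lit 7) (nat_lit 290) (nat_lit 287) r9_290 r1_287 (nat_lit 0) (nat_lit 0) (nat_lit 0) (nat_lit 0x8017985b4) (nat_lit 536870912)]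
noncomputable def e41_9 : List Rx := [
  Rx.mk (nat_lit 329) (nat_lit 1) (nat_lit 1) (nat_lit 5) (nat_lit 7) (nat_lit 306) (nat_lit 308) r9_306 r4_308 (nat_lit 0) (nat_lit 0) (nat_lit 0) (nat_lit 0x8017985b4) (nat_lit 536870912),
  Rx.mk (nat_lit 333) (nat_lit 5) (nat_lit 1) (nat_lit 5) (nat_lit 7) (nat_lit 305) (nat_lit 307) r9_305 r4_307 (nat_lit 0) (nat_lit 0) (nat_lit 0) (nat_lit 0x8017985b4) (nat_lit 536870912)]
noncomputable def e41_10 : List Rx := [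
  Rx.mk (nat_lit 449) (nat_lit 1) (nat_lit 0) (nat_lit 7) (nat_lit 5) (nat_lit 220) (nat_lit 290) r9_220 r6_290 (nat_lit 0) (nat_lit 25547425) (nat_lit 0) (nat_lit 0x7ed7c15fe) (nat_lit 582171937),
  Rx.mk (nat_lit 453) (nat_lit 5) (nat_lit 0) (nat_lit 7) (nat_lit 5) (nat_lit 219) (nat_lit 293) r9_219 r6_293 (nat_lit 0) (nat_lit 24741287) (nat_lit 0) (nat_lit 0x7fbf624bc) (nat_lit 567020899),
  Rx.mk (nat_lit 457) (nat_lit 1) (nat_lit 1) (nat_lit 7) (nat_lit 7) (nat_lit 222) (nat_lit 291) r9_222 r6_291 (nat_lit 0) (nat_lit 0) (nat_lit 0) (nat_lit 0x8017985b4) (nat_lit 536870912),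
  Rx.mk (nat_lit 461) (nat_lit 5) (nat_lit 1) (nat_lit 7) (nat_lit 7) (nat_lit 221) (nat_lit 294) r9_221 r6_294 (nat_lit 0) (nat_lit 0) (nat_lit 0) (nat_lit 0x8017985b4) (nat_lit 536870912),
  Rx.mk (nat_lit 473) (nat_lit 1) (nat_lit 3) (nat_lit 7) (nat_lit 7) (nat_lit 223) (nat_lit 292) r9_223 r6_292 (nat_lit 0) (nat_lit 0) (nat_lit 0) (nat_lit 0x8017985b4) (nat_lit 536870912)]
noncomputable def e41_11 : List Rx := [
  Rx.mk (nat_lit 265) (nat_lit 1) (nat_lit 1) (nat_lit 4) (nat_lit 3) (nat_lit 307) (nat_lit 287) r9_307 r5_287 (nat_lit 0) (nat_lit 0) (nat_lit 111344299) (nat_lit 0x6b103b6e6) (nat_lit 987492011),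
  Rx.mk (nat_lit 329) (nat_lit 1) (nat_lit 1) (nat_lit 5) (nat_lit 7) (nat_lit 308) (nat_lit 288) r9_308 r5_288 (nat_lit 0) (nat_lit 0) (nat_lit 0) (nat_lit 0x7ff67effe) (nat_lit 538897862),
  Rx.mk (nat_lit 457) (nat_lit 1) (nat_lit 1) (nat_lit 7) (nat_lit 7) (nat_lit 310) (nat_lit 289) r9_310 r5_289 (nat_lit 0) (nat_lit 0) (nat_lit 0) (nat_lit 0x7ff760b48) (nat_lit 538843712),
  Rx.mk (nat_lit 461) (nat_lit 5) (nat_lit 1) (nat_lit 7) (nat_lit 7) (nat_lit 309) (nat_lit 286) r9_309 r5_286 (nat_lit 0) (nat_lit 0) (nat_lit 0) (nat_lit 0x7ff9dad06) (nat_lit 538691612)]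
noncomputable def e41_12 : List Rx := [
  Rx.mk (nat_lit 0) (nat_lit 0) (nat_lit 0) (nat_lit 0) (nat_lit 0) (nat_lit 23) (nat_lit 155) r9_23 r0_155 (nat_lit 11766479) (nat_lit 17383342) (nat_lit 20103060) (nat_lit 0x26bb582ee) (nat_lit 2030296093),
  Rx.mk (nat_lit 1) (nat_lit 1) (nat_lit 0) (nat_lit 0) (nat_lit 1) (nat_lit 24) (nat_lit 156) r9_24 r0_156 (nat_lit 0) (nat_lit 21246965) (nat_lit 21454755) (nat_lit 0x536054f6e) (nat_lit 1301860482),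
  Rx.mk (nat_lit 9) (nat_lit 1) (nat_lit 1) (nat_lit 0) (nat_lit 3) (nat_lit 27) (nat_lit 157) r9_27 r0_157 (nat_lit 0) (nat_lit 0) (nat_lit 27681734) (nat_lit 0x7735d76f0) (nat_lit 707450746),
  Rx.mk (nat_lit 16) (nat_lit 0) (nat_lit 2) (nat_lit 0) (nat_lit 2) (nat_lit 29) (nat_lit 158) r9_29 r0_158 (nat_lit 19805728) (nat_lit 0) (nat_lit 96643738) (nat_lit 0x57dc9e896) (nat_lit 1303076978),
  Rx.mk (nat_lit 17) (nat_lit 1) (nat_lit 2) (nat_lit 0) (nat_lit 3) (nat_lit 30) (nat_lit 159) r9_30 r0_159 (nat_lit 0) (nat_lit 0) (nat_lit 39103353) (nat_lit 0x7f0bc5f80) (nat_lit 592509415),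
  Rx.mk (nat_lit 18) (nat_lit 2) (nat_lit 2) (nat_lit 0) (nat_lit 3) (nat_lit 31) (nat_lit 160) r9_31 r0_160 (nat_lit 0) (nat_lit 0) (nat_lit 140602240) (nat_lit 0x7cdd650c0) (nat_lit 729034802),
  Rx.mk (nat_lit 146) (nat_lit 2) (nat_lit 2) (nat_lit 2) (nat_lit 7) (nat_lit 32) (nat_lit 170) r9_32 r0_170 (nat_lit 0) (nat_lit 0) (nat_lit 0) (nat_lit 0x7fec37154) (nat_lit 539516912),
  Rx.mk (nat_lit 192) (nat_lit 0) (nat_lit 0) (nat_lit 3) (nat_lit 4) (nat_lit 25) (nat_lit 161) r9_25 r0_161 (nat_lit 15320849) (nat_lit 15232789) (nat_lit 0) (nat_lit 0x58679699e) (nat_lit 1208372050),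
  Rx.mk (nat_lit 193) (nat_lit 1) (nat_lit 0) (nat_lit 3) (nat_lit 5) (nat_lit 26) (nat_lit 162) r9_26 r0_162 (nat_lit 0) (nat_lit 24075478) (nat_lit 0) (nat_lit 0x769019b32) (nat_lit 714298390),
  Rx.mk (nat_lit 201) (nat_lit 1) (nat_lit 1) (nat_lit 3) (nat_lit 7) (nat_lit 28) (nat_lit 163) r9_28 r0_163 (nat_lit 0) (nat_lit 0) (nat_lit 0) (nat_lit 0x7feb1ffb4) (nat_lit 539592162),
  Rx.mk (nat_lit 208) (nat_lit 0) (nat_lit 2) (nat_lit 3) (nat_lit 6) (nat_lit 33) (nat_lit 167) r9_33 r0_167 (nat_lit 23123952) (nat_lit 0) (nat_lit 0) (nat_lit 0x800002f3a) (nat_lit 561432214),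
  Rx.mk (nat_lit 209) (nat_lit 1) (nat_lit 2) (nat_lit 3) (nat_lit 7) (nat_lit 34) (nat_lit 168) r9_34 r0_168 (nat_lit 0) (nat_lit 0) (nat_lit 0) (nat_lit 0x8017985b4) (nat_lit 536870912),
  Rx.mk (nat_lit 210) (nat_lit 2) (nat_lit 2) (nat_lit 3) (nat_lit 7) (nat_lit 35) (nat_lit 169) r9_35 r0_169 (nat_lit 0) (nat_lit 0) (nat_lit 0) (nat_lit 0x8017985b4) (nat_lit 536870912),
  Rx.mk (nat_lit 216) (nat_lit 0) (nat_lit 3) (nat_lit 3) (nat_lit 6) (nat_lit 37) (nat_lit 164) r9_37 r0_164 (nat_lit 24266921) (nat_lit 0) (nat_lit 0) (nat_lit 0x771d50316) (nat_lit 705582633),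
  Rx.mk (nat_lit 217) (nat_lit 1) (nat_lit 3) (nat_lit 3) (nat_lit 7) (nat_lit 38) (nat_lit 165) r9_38 r0_165 (nat_lit 0) (nat_lit 0) (nat_lit 0) (nat_lit 0x7fee77a72) (nat_lit 539388362),
  Rx.mk (nat_lit 219) (nat_lit 3) (nat_lit 3) (nat_lit 3) (nat_lit 7) (nat_lit 39) (nat_lit 166) r9_39 r0_166 (nat_lit 0) (nat_lit 0) (nat_lit 0) (nat_lit 0x8002decd6) (nat_lit 538139162),
  Rx.mk (nat_lit 475) (nat_lit 3) (nat_lit 3) (nat_lit 7) (nat_lit 7) (nat_lit 36) (nat_lit 154) r9_36 r0_154 (nat_lit 0) (nat_lit 0) (nat_lit 0) (nat_lit 0x8017985b4) (nat_lit 536870912)]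
noncomputable def e41_13 : List Rx := [
  Rx.mk (nat_lit 0) (nat_lit 0) (nat_lit 0) (nat_lit 0) (nat_lit 0) (nat_lit 170) (nat_lit 353) r9_170 r7_353 (nat_lit 13837945) (nat_lit 25638298) (nat_lit 19525038) (nat_lit 0x3a3a221ac) (nat_lit 1724813643),
  Rx.mk (nat_lit 1) (nat_lit 1) (nat_lit 0) (nat_lit 0) (nat_lit 1) (nat_lit 171) (nat_lit 357) r9_171 r7_357 (nat_lit 0) (nat_lit 50988633) (nat_lit 35325188) (nat_lit 0x657b86a96) (nat_lit 1052706133),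
  Rx.mk (nat_lit 9) (nat_lit 1) (nat_lit 1) (nat_lit 0) (nat_lit 3) (nat_lit 174) (nat_lit 359) r9_174 r7_359 (nat_lit 0) (nat_lit 0) (nat_lit 24741287) (nat_lit 0x8017985b4) (nat_lit 561612199),
  Rx.mk (nat_lit 16) (nat_lit 0) (nat_lit 2) (nat_lit 0) (nat_lit 2) (nat_lit 176) (nat_lit 356) r9_176 r7_356 (nat_lit 30412328) (nat_lit 0) (nat_lit 22236043) (nat_lit 0x6db23206a) (nat_lit 886234833),
  Rx.mk (nat_lit 17) (nat_lit 1) (nat_lit 2) (nat_lit 0) (nat_lit 3) (nat_lit 177) (nat_lit 362) r9_177 r7_362 (nat_lit 0) (nat_lit 0) (nat_lit 24741287) (nat_lit 0x8017985b4) (nat_lit 561612199),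
  Rx.mk (nat_lit 18) (nat_lit 2) (nat_lit 2) (nat_lit 0) (nat_lit 3) (nat_lit 178) (nat_lit 364) r9_178 r7_364 (nat_lit 0) (nat_lit 0) (nat_lit 24741287) (nat_lit 0x8017985b4) (nat_lit 561612199),
  Rx.mk (nat_lit 146) (nat_lit 2) (nat_lit 2) (nat_lit 2) (nat_lit 7) (nat_lit 179) (nat_lit 365) r9_179 r7_365 (nat_lit 0) (nat_lit 0) (nat_lit 0) (nat_lit 0x8017985b4) (nat_lit 536870912),
  Rx.mk (nat_lit 192) (nat_lit 0) (nat_lit 0) (nat_lit 3) (nat_lit 4) (nat_lit 172) (nat_lit 354) r9_172 r7_354 (nat_lit 38278625) (nat_lit 30361877) (nat_lit 0) (nat_lit 0x697120ad0) (nat_lit 971010514),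
  Rx.mk (nat_lit 193) (nat_lit 1) (nat_lit 0) (nat_lit 3) (nat_lit 5) (nat_lit 173) (nat_lit 358) r9_173 r7_358 (nat_lit 0) (nat_lit 24741287) (nat_lit 0) (nat_lit 0x800c2759a) (nat_lit 562311049),
  Rx.mk (nat_lit 201) (nat_lit 1) (nat_lit 1) (nat_lit 3) (nat_lit 7) (nat_lit 175) (nat_lit 360) r9_175 r7_360 (nat_lit 0) (nat_lit 0) (nat_lit 0) (nat_lit 0x8017985b4) (nat_lit 536870912),
  Rx.mk (nat_lit 216) (nat_lit 0) (nat_lit 3) (nat_lit 3) (nat_lit 6) (nat_lit 180) (nat_lit 355) r9_180 r7_355 (nat_lit 24741287) (nat_lit 0) (nat_lit 0) (nat_lit 0x8017985b4) (nat_lit 561612199),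
  Rx.mk (nat_lit 217) (nat_lit 1) (nat_lit 3) (nat_lit 3) (nat_lit 7) (nat_lit 181) (nat_lit 361) r9_181 r7_361 (nat_lit 0) (nat_lit 0) (nat_lit 0) (nat_lit 0x8017985b4) (nat_lit 536870912),
  Rx.mk (nat_lit 219) (nat_lit 3) (nat_lit 3) (nat_lit 3) (nat_lit 7) (nat_lit 182) (nat_lit 363) r9_182 r7_363 (nat_lit 0) (nat_lit 0) (nat_lit 0) (nat_lit 0x8017985b4) (nat_lit 536870912)]
noncomputable def e41_14 : List Rx := [
  Rx.mk (nat_lit 0) (nat_lit 0) (nat_lit 0) (nat_lit 0) (nat_lit 0) (nat_lit 40) (nat_lit 170) r9_40 r1_170 (nat_lit 24261554) (nat_lit 49328540) (nat_lit 56659484) (nat_lit 0x3f56488d6) (nat_lit 1713461290),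
  Rx.mk (nat_lit 16) (nat_lit 0) (nat_lit 2) (nat_lit 0) (nat_lit 2) (nat_lit 42) (nat_lit 171) r9_42 r1_171 (nat_lit 26252196) (nat_lit 0) (nat_lit 43212165) (nat_lit 0x6d3fdbff2) (nat_lit 910271473),
  Rx.mk (nat_lit 18) (nat_lit 2) (nat_lit 2) (nat_lit 0) (nat_lit 3) (nat_lit 43) (nat_lit 172) r9_43 r1_172 (nat_lit 0) (nat_lit 0) (nat_lit 35087009) (nat_lit 0x7eb627b3c) (nat_lit 593834521),
  Rx.mk (nat_lit 146) (nat_lit 2) (nat_lit 2) (nat_lit 2) (nat_lit 7) (nat_lit 44) (nat_lit 178) r9_44 r1_178 (nat_lit 0) (nat_lit 0) (nat_lit 0) (nat_lit 0x7ed9f7242) (nat_lit 556534462),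
  Rx.mk (nat_lit 192) (nat_lit 0) (nat_lit 0) (nat_lit 3) (nat_lit 4) (nat_lit 41) (nat_lit 173) r9_41 r1_173 (nat_lit 27290911) (nat_lit 32551245) (nat_lit 0) (nat_lit 0x6e1360b66) (nat_lit 887289868),
  Rx.mk (nat_lit 208) (nat_lit 0) (nat_lit 2) (nat_lit 3) (nat_lit 6) (nat_lit 45) (nat_lit 176) r9_45 r1_176 (nat_lit 24741287) (nat_lit 0) (nat_lit 0) (nat_lit 0x8017985b4) (nat_lit 561612199),
  Rx.mk (nat_lit 210) (nat_lit 2) (nat_lit 2) (nat_lit 3) (nat_lit 7) (nat_lit 46) (nat_lit 177) r9_46 r1_177 (nat_lit 0) (nat_lit 0) (nat_lit 0) (nat_lit 0x8017985b4) (nat_lit 536870912),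
  Rx.mk (nat_lit 216) (nat_lit 0) (nat_lit 3) (nat_lit 3) (nat_lit 6) (nat_lit 48) (nat_lit 174) r9_48 r1_174 (nat_lit 24741287) (nat_lit 0) (nat_lit 0) (nat_lit 0x8004104a6) (nat_lit 562806149),
  Rx.mk (nat_lit 219) (nat_lit 3) (nat_lit 3) (nat_lit 3) (nat_lit 7) (nat_lit 49) (nat_lit 175) r9_49 r1_175 (nat_lit 0) (nat_lit 0) (nat_lit 0) (nat_lit 0x8017985b4) (nat_lit 536870912),
  Rx.mk (nat_lit 475) (nat_lit 3) (nat_lit 3) (nat_lit 7) (nat_lit 7) (nat_lit 47) (nat_lit 169) r9_47 r1_169 (nat_lit 0) (nat_lit 0) (nat_lit 0) (nat_lit 0x8017985b4) (nat_lit 536870912)]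
noncomputable def e41_15 : List Rx := [
  Rx.mk (nat_lit 0) (nat_lit 0) (nat_lit 0) (nat_lit 0) (nat_lit 0) (nat_lit 202) (nat_lit 266) r9_202 r8_266 (nat_lit 16962537) (nat_lit 37514210) (nat_lit 23929726) (nat_lit 0x3e09e15de) (nat_lit 1682604485),
  Rx.mk (nat_lit 16) (nat_lit 0) (nat_lit 2) (nat_lit 0) (nat_lit 2) (nat_lit 204) (nat_lit 269) r9_204 r8_269 (nat_lit 29280147) (nat_lit 0) (nat_lit 25355923) (nat_lit 0x6cdd7d4fa) (nat_lit 901656982),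
  Rx.mk (nat_lit 18) (nat_lit 2) (nat_lit 2) (nat_lit 0) (nat_lit 3) (nat_lit 205) (nat_lit 271) r9_205 r8_271 (nat_lit 0) (nat_lit 0) (nat_lit 24741287) (nat_lit 0x8017985b4) (nat_lit 561612199),
  Rx.mk (nat_lit 146) (nat_lit 2) (nat_lit 2) (nat_lit 2) (nat_lit 7) (nat_lit 206) (nat_lit 272) r9_206 r8_272 (nat_lit 0) (nat_lit 0) (nat_lit 0) (nat_lit 0x8017985b4) (nat_lit 536870912),
  Rx.mk (nat_lit 192) (nat_lit 0) (nat_lit 0) (nat_lit 3) (nat_lit 4) (nat_lit 203) (nat_lit 267) r9_203 r8_267 (nat_lit 34060215) (nat_lit 27096766) (nat_lit 0) (nat_lit 0x698596640) (nat_lit 962235943),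
  Rx.mk (nat_lit 216) (nat_lit 0) (nat_lit 3) (nat_lit 3) (nat_lit 6) (nat_lit 207) (nat_lit 268) r9_207 r8_268 (nat_lit 24537189) (nat_lit 0) (nat_lit 0) (nat_lit 0x8007ecd18) (nat_lit 562365701),
  Rx.mk (nat_lit 219) (nat_lit 3) (nat_lit 3) (nat_lit 3) (nat_lit 7) (nat_lit 208) (nat_lit 270) r9_208 r8_270 (nat_lit 0) (nat_lit 0) (nat_lit 0) (nat_lit 0x8017985b4) (nat_lit 536870912)]
noncomputable def e41_16 : List Rx := [
  Rx.mk (nat_lit 0) (nat_lit 0) (nat_lit 0) (nat_lit 0) (nat_lit 0) (nat_lit 183) (nat_lit 159) r9_183 r8_159 (nat_lit 18255310) (nat_lit 23644808) (nat_lit 27871597) (nat_lit 0x407f928e4) (nat_lit 1634185527),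
  Rx.mk (nat_lit 1) (nat_lit 1) (nat_lit 0) (nat_lit 0) (nat_lit 1) (nat_lit 184) (nat_lit 160) r9_184 r8_160 (nat_lit 0) (nat_lit 50716108) (nat_lit 34699300) (nat_lit 0x6b512c18c) (nat_lit 957466070),
  Rx.mk (nat_lit 9) (nat_lit 1) (nat_lit 1) (nat_lit 0) (nat_lit 3) (nat_lit 189) (nat_lit 161) r9_189 r8_161 (nat_lit 0) (nat_lit 0) (nat_lit 25054288) (nat_lit 0x800856290) (nat_lit 562857500),
  Rx.mk (nat_lit 16) (nat_lit 0) (nat_lit 2) (nat_lit 0) (nat_lit 2) (nat_lit 192) (nat_lit 162) r9_192 r8_162 (nat_lit 40482942) (nat_lit 0) (nat_lit 28133172) (nat_lit 0x6d0747a06) (nat_lit 912998026),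
  Rx.mk (nat_lit 17) (nat_lit 1) (nat_lit 2) (nat_lit 0) (nat_lit 3) (nat_lit 193) (nat_lit 163) r9_193 r8_163 (nat_lit 0) (nat_lit 0) (nat_lit 24741287) (nat_lit 0x8009d4ae0) (nat_lit 562452249),
  Rx.mk (nat_lit 18) (nat_lit 2) (nat_lit 2) (nat_lit 0) (nat_lit 3) (nat_lit 194) (nat_lit 164) r9_194 r8_164 (nat_lit 0) (nat_lit 0) (nat_lit 24741287) (nat_lit 0x8017985b4) (nat_lit 561612199),
  Rx.mk (nat_lit 64) (nat_lit 0) (nat_lit 0) (nat_lit 1) (nat_lit 4) (nat_lit 185) (nat_lit 165) r9_185 r8_165 (nat_lit 130895702) (nat_lit 40805453) (nat_lit 0) (nat_lit 0x7010e2518) (nat_lit 966967117),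
  Rx.mk (nat_lit 65) (nat_lit 1) (nat_lit 0) (nat_lit 1) (nat_lit 5) (nat_lit 186) (nat_lit 166) r9_186 r8_166 (nat_lit 0) (nat_lit 23667545) (nat_lit 0) (nat_lit 0x7fe4ef41e) (nat_lit 563630257),
  Rx.mk (nat_lit 73) (nat_lit 1) (nat_lit 1) (nat_lit 1) (nat_lit 7) (nat_lit 190) (nat_lit 167) r9_190 r8_167 (nat_lit 0) (nat_lit 0) (nat_lit 0) (nat_lit 0x8017985b4) (nat_lit 536870912),
  Rx.mk (nat_lit 80) (nat_lit 0) (nat_lit 2) (nat_lit 1) (nat_lit 6) (nat_lit 195) (nat_lit 168) r9_195 r8_168 (nat_lit 24741287) (nat_lit 0) (nat_lit 0) (nat_lit 0x8017985b4) (nat_lit 561612199),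
  Rx.mk (nat_lit 81) (nat_lit 1) (nat_lit 2) (nat_lit 1) (nat_lit 7) (nat_lit 196) (nat_lit 169) r9_196 r8_169 (nat_lit 0) (nat_lit 0) (nat_lit 0) (nat_lit 0x8017985b4) (nat_lit 536870912),
  Rx.mk (nat_lit 82) (nat_lit 2) (nat_lit 2) (nat_lit 1) (nat_lit 7) (nat_lit 197) (nat_lit 170) r9_197 r8_170 (nat_lit 0) (nat_lit 0) (nat_lit 0) (nat_lit 0x8017985b4) (nat_lit 536870912),
  Rx.mk (nat_lit 146) (nat_lit 2) (nat_lit 2) (nat_lit 2) (nat_lit 7) (nat_lit 198) (nat_lit 177) r9_198 r8_177 (nat_lit 0) (nat_lit 0) (nat_lit 0) (nat_lit 0x8017985b4) (nat_lit 536870912),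
  Rx.mk (nat_lit 192) (nat_lit 0) (nat_lit 0) (nat_lit 3) (nat_lit 4) (nat_lit 187) (nat_lit 171) r9_187 r8_171 (nat_lit 55618136) (nat_lit 30134438) (nat_lit 0) (nat_lit 0x6f41c019a) (nat_lit 894101936),
  Rx.mk (nat_lit 193) (nat_lit 1) (nat_lit 0) (nat_lit 3) (nat_lit 5) (nat_lit 188) (nat_lit 172) r9_188 r8_172 (nat_lit 0) (nat_lit 24741287) (nat_lit 0) (nat_lit 0x8017985b4) (nat_lit 561612199),
  Rx.mk (nat_lit 201) (nat_lit 1) (nat_lit 1) (nat_lit 3) (nat_lit 7) (nat_lit 191) (nat_lit 173) r9_191 r8_173 (nat_lit 0) (nat_lit 0) (nat_lit 0) (nat_lit 0x8017985b4) (nat_lit 536870912),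
  Rx.mk (nat_lit 216) (nat_lit 0) (nat_lit 3) (nat_lit 3) (nat_lit 6) (nat_lit 199) (nat_lit 174) r9_199 r8_174 (nat_lit 24741287) (nat_lit 0) (nat_lit 0) (nat_lit 0x8017985b4) (nat_lit 561612199),
  Rx.mk (nat_lit 217) (nat_lit 1) (nat_lit 3) (nat_lit 3) (nat_lit 7) (nat_lit 200) (nat_lit 175) r9_200 r8_175 (nat_lit 0) (nat_lit 0) (nat_lit 0) (nat_lit 0x8017985b4) (nat_lit 536870912),
  Rx.mk (nat_lit 219) (nat_lit 3) (nat_lit 3) (nat_lit 3) (nat_lit 7) (nat_lit 201) (nat_lit 176) r9_201 r8_176 (nat_lit 0) (nat_lit 0) (nat_lit 0) (nat_lit 0x8017985b4) (nat_lit 536870912)]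
noncomputable def e41_17 : List Rx := [
  Rx.mk (nat_lit 73) (nat_lit 1) (nat_lit 1) (nat_lit 1) (nat_lit 7) (nat_lit 299) (nat_lit 266) r9_299 r9_266 (nat_lit 0) (nat_lit 0) (nat_lit 0) (nat_lit 0x8017985b4) (nat_lit 536870912)]
noncomputable def e41_18 : List Rx := [
  Rx.mk (nat_lit 192) (nat_lit 0) (nat_lit 0) (nat_lit 3) (nat_lit 4) (nat_lit 50) (nat_lit 147) r9_50 r4_147 (nat_lit 16343874) (nat_lit 18784265) (nat_lit 0) (nat_lit 0x65a8d64ce) (nat_lit 998625001),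
  Rx.mk (nat_lit 193) (nat_lit 1) (nat_lit 0) (nat_lit 3) (nat_lit 5) (nat_lit 51) (nat_lit 148) r9_51 r4_148 (nat_lit 0) (nat_lit 24741287) (nat_lit 0) (nat_lit 0x8017985b4) (nat_lit 561612199),
  Rx.mk (nat_lit 201) (nat_lit 1) (nat_lit 1) (nat_lit 3) (nat_lit 7) (nat_lit 52) (nat_lit 149) r9_52 r4_149 (nat_lit 0) (nat_lit 0) (nat_lit 0) (nat_lit 0x8017985b4) (nat_lit 536870912),
  Rx.mk (nat_lit 208) (nat_lit 0) (nat_lit 2) (nat_lit 3) (nat_lit 6) (nat_lit 53) (nat_lit 152) r9_53 r4_152 (nat_lit 24741287) (nat_lit 0) (nat_lit 0) (nat_lit 0x8017985b4) (nat_lit 561612199),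
  Rx.mk (nat_lit 209) (nat_lit 1) (nat_lit 2) (nat_lit 3) (nat_lit 7) (nat_lit 54) (nat_lit 153) r9_54 r4_153 (nat_lit 0) (nat_lit 0) (nat_lit 0) (nat_lit 0x8017985b4) (nat_lit 536870912),
  Rx.mk (nat_lit 210) (nat_lit 2) (nat_lit 2) (nat_lit 3) (nat_lit 7) (nat_lit 55) (nat_lit 154) r9_55 r4_154 (nat_lit 0) (nat_lit 0) (nat_lit 0) (nat_lit 0x8017985b4) (nat_lit 536870912),
  Rx.mk (nat_lit 216) (nat_lit 0) (nat_lit 3) (nat_lit 3) (nat_lit 6) (nat_lit 59) (nat_lit 150) r9_59 r4_150 (nat_lit 24741287) (nat_lit 0) (nat_lit 0) (nat_lit 0x7ff8b06c4) (nat_lit 563504749),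
  Rx.mk (nat_lit 217) (nat_lit 1) (nat_lit 3) (nat_lit 3) (nat_lit 7) (nat_lit 60) (nat_lit 151) r9_60 r4_151 (nat_lit 0) (nat_lit 0) (nat_lit 0) (nat_lit 0x8017985b4) (nat_lit 536870912),
  Rx.mk (nat_lit 472) (nat_lit 0) (nat_lit 3) (nat_lit 7) (nat_lit 6) (nat_lit 56) (nat_lit 144) r9_56 r4_144 (nat_lit 24741287) (nat_lit 0) (nat_lit 0) (nat_lit 0x8017985b4) (nat_lit 561612199),
  Rx.mk (nat_lit 473) (nat_lit 1) (nat_lit 3) (nat_lit 7) (nat_lit 7) (nat_lit 57) (nat_lit 145) r9_57 r4_145 (nat_lit 0) (nat_lit 0) (nat_lit 0) (nat_lit 0x8017985b4) (nat_lit 536870912),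
  Rx.mk (nat_lit 475) (nat_lit 3) (nat_lit 3) (nat_lit 7) (nat_lit 7) (nat_lit 58) (nat_lit 146) r9_58 r4_146 (nat_lit 0) (nat_lit 0) (nat_lit 0) (nat_lit 0x8017985b4) (nat_lit 536870912)]
noncomputable def e41_19 : List Rx := [
  Rx.mk (nat_lit 192) (nat_lit 0) (nat_lit 0) (nat_lit 3) (nat_lit 4) (nat_lit 209) (nat_lit 299) r9_209 r10_299 (nat_lit 65106199) (nat_lit 34942940) (nat_lit 0) (nat_lit 0x66b1feea6) (nat_lit 1046829251),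
  Rx.mk (nat_lit 193) (nat_lit 1) (nat_lit 0) (nat_lit 3) (nat_lit 5) (nat_lit 210) (nat_lit 301) r9_210 r10_301 (nat_lit 0) (nat_lit 25290688) (nat_lit 0) (nat_lit 0x800987e2a) (nat_lit 563020650),
  Rx.mk (nat_lit 201) (nat_lit 1) (nat_lit 1) (nat_lit 3) (nat_lit 7) (nat_lit 211) (nat_lit 302) r9_211 r10_302 (nat_lit 0) (nat_lit 0) (nat_lit 0) (nat_lit 0x8017985b4) (nat_lit 536870912),
  Rx.mk (nat_lit 216) (nat_lit 0) (nat_lit 3) (nat_lit 3) (nat_lit 6) (nat_lit 212) (nat_lit 300) r9_212 r10_300 (nat_lit 24741287) (nat_lit 0) (nat_lit 0) (nat_lit 0x8017985b4) (nat_lit 561612199),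
  Rx.mk (nat_lit 217) (nat_lit 1) (nat_lit 3) (nat_lit 3) (nat_lit 7) (nat_lit 213) (nat_lit 303) r9_213 r10_303 (nat_lit 0) (nat_lit 0) (nat_lit 0) (nat_lit 0x8017985b4) (nat_lit 536870912)]
noncomputable def e41_20 : List Rx := [
  Rx.mk (nat_lit 192) (nat_lit 0) (nat_lit 0) (nat_lit 3) (nat_lit 4) (nat_lit 231) (nat_lit 318) r9_231 r11_318 (nat_lit 43672610) (nat_lit 43848106) (nat_lit 0) (nat_lit 0x78800f28a) (nat_lit 746426178),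
  Rx.mk (nat_lit 193) (nat_lit 1) (nat_lit 0) (nat_lit 3) (nat_lit 5) (nat_lit 232) (nat_lit 322) r9_232 r11_322 (nat_lit 0) (nat_lit 24741287) (nat_lit 0) (nat_lit 0x8017985b4) (nat_lit 561612199),
  Rx.mk (nat_lit 201) (nat_lit 1) (nat_lit 1) (nat_lit 3) (nat_lit 7) (nat_lit 234) (nat_lit 324) r9_234 r11_324 (nat_lit 0) (nat_lit 0) (nat_lit 0) (nat_lit 0x8017985b4) (nat_lit 536870912),
  Rx.mk (nat_lit 208) (nat_lit 0) (nat_lit 2) (nat_lit 3) (nat_lit 6) (nat_lit 235) (nat_lit 321) r9_235 r11_321 (nat_lit 24741287) (nat_lit 0) (nat_lit 0) (nat_lit 0x8017985b4) (nat_lit 561612199),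
  Rx.mk (nat_lit 209) (nat_lit 1) (nat_lit 2) (nat_lit 3) (nat_lit 7) (nat_lit 236) (nat_lit 327) r9_236 r11_327 (nat_lit 0) (nat_lit 0) (nat_lit 0) (nat_lit 0x8017985b4) (nat_lit 536870912),
  Rx.mk (nat_lit 210) (nat_lit 2) (nat_lit 2) (nat_lit 3) (nat_lit 7) (nat_lit 237) (nat_lit 329) r9_237 r11_329 (nat_lit 0) (nat_lit 0) (nat_lit 0) (nat_lit 0x8017985b4) (nat_lit 536870912),
  Rx.mk (nat_lit 448) (nat_lit 0) (nat_lit 0) (nat_lit 7) (nat_lit 4) (nat_lit 229) (nat_lit 319) r9_229 r11_319 (nat_lit 47287016) (nat_lit 47287016) (nat_lit 0) (nat_lit 0x7cbaf48b0) (nat_lit 685204344),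
  Rx.mk (nat_lit 449) (nat_lit 1) (nat_lit 0) (nat_lit 7) (nat_lit 5) (nat_lit 230) (nat_lit 323) r9_230 r11_323 (nat_lit 0) (nat_lit 24741287) (nat_lit 0) (nat_lit 0x8017985b4) (nat_lit 561612199),
  Rx.mk (nat_lit 457) (nat_lit 1) (nat_lit 1) (nat_lit 7) (nat_lit 7) (nat_lit 233) (nat_lit 325) r9_233 r11_325 (nat_lit 0) (nat_lit 0) (nat_lit 0) (nat_lit 0x8017985b4) (nat_lit 536870912),
  Rx.mk (nat_lit 472) (nat_lit 0) (nat_lit 3) (nat_lit 7) (nat_lit 6) (nat_lit 238) (nat_lit 320) r9_238 r11_320 (nat_lit 24741287) (nat_lit 0) (nat_lit 0) (nat_lit 0x8017985b4) (nat_lit 561612199),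
  Rx.mk (nat_lit 473) (nat_lit 1) (nat_lit 3) (nat_lit 7) (nat_lit 7) (nat_lit 239) (nat_lit 326) r9_239 r11_326 (nat_lit 0) (nat_lit 0) (nat_lit 0) (nat_lit 0x8017985b4) (nat_lit 536870912),
  Rx.mk (nat_lit 475) (nat_lit 3) (nat_lit 3) (nat_lit 7) (nat_lit 7) (nat_lit 240) (nat_lit 328) r9_240 r11_328 (nat_lit 0) (nat_lit 0) (nat_lit 0) (nat_lit 0x8017985b4) (nat_lit 536870912)]
noncomputable def e41_21 : List Rx := [
  Rx.mk (nat_lit 73) (nat_lit 1) (nat_lit 1) (nat_lit 1) (nat_lit 7) (nat_lit 298) (nat_lit 298) r9_298 r9_298 (nat_lit 0) (nat_lit 0) (nat_lit 0) (nat_lit 0x8017985b4) (nat_lit 536870912)]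
noncomputable def e41_22 : List Rx := [
  Rx.mk (nat_lit 265) (nat_lit 1) (nat_lit 1) (nat_lit 4) (nat_lit 3) (nat_lit 254) (nat_lit 293) r9_254 r0_293 (nat_lit 0) (nat_lit 0) (nat_lit 27880557) (nat_lit 0x735c96bb4) (nat_lit 769863869),
  Rx.mk (nat_lit 269) (nat_lit 5) (nat_lit 1) (nat_lit 4) (nat_lit 3) (nat_lit 253) (nat_lit 294) r9_253 r0_294 (nat_lit 0) (nat_lit 0) (nat_lit 27813133) (nat_lit 0x7ac35ec14) (nat_lit 650184545),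
  Rx.mk (nat_lit 301) (nat_lit 5) (nat_lit 5) (nat_lit 4) (nat_lit 3) (nat_lit 250) (nat_lit 295) r9_250 r0_295 (nat_lit 0) (nat_lit 0) (nat_lit 25628035) (nat_lit 0x7c71b8854) (nat_lit 620861597),
  Rx.mk (nat_lit 329) (nat_lit 1) (nat_lit 1) (nat_lit 5) (nat_lit 7) (nat_lit 256) (nat_lit 296) r9_256 r0_296 (nat_lit 0) (nat_lit 0) (nat_lit 0) (nat_lit 0x7ff5e805e) (nat_lit 538935112),
  Rx.mk (nat_lit 333) (nat_lit 5) (nat_lit 1) (nat_lit 5) (nat_lit 7) (nat_lit 255) (nat_lit 297) r9_255 r0_297 (nat_lit 0) (nat_lit 0) (nat_lit 0) (nat_lit 0x7fe5db210) (nat_lit 539920162),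
  Rx.mk (nat_lit 365) (nat_lit 5) (nat_lit 5) (nat_lit 5) (nat_lit 7) (nat_lit 251) (nat_lit 298) r9_251 r0_298 (nat_lit 0) (nat_lit 0) (nat_lit 0) (nat_lit 0x7fa3dbc34) (nat_lit 543982362),
  Rx.mk (nat_lit 493) (nat_lit 5) (nat_lit 5) (nat_lit 7) (nat_lit 7) (nat_lit 252) (nat_lit 299) r9_252 r0_299 (nat_lit 0) (nat_lit 0) (nat_lit 0) (nat_lit 0x7fed20192) (nat_lit 539467362)]
noncomputable def e41_23 : List Rx := [
  Rx.mk (nat_lit 301) (nat_lit 5) (nat_lit 5) (nat_lit 4) (nat_lit 3) (nat_lit 286) (nat_lit 290) r9_286 r1_290 (nat_lit 0) (nat_lit 0) (nat_lit 24741287) (nat_lit 0x7fa9dd1b4) (nat_lit 568325299),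
  Rx.mk (nat_lit 365) (nat_lit 5) (nat_lit 5) (nat_lit 5) (nat_lit 7) (nat_lit 287) (nat_lit 291) r9_287 r1_291 (nat_lit 0) (nat_lit 0) (nat_lit 0) (nat_lit 0x8017985b4) (nat_lit 536870912),
  Rx.mk (nat_lit 493) (nat_lit 5) (nat_lit 5) (nat_lit 7) (nat_lit 7) (nat_lit 288) (nat_lit 292) r9_288 r1_292 (nat_lit 0) (nat_lit 0) (nat_lit 0) (nat_lit 0x8017985b4) (nat_lit 536870912)]
noncomputable def e41_24 : List Rx := [
  Rx.mk (nat_lit 265) (nat_lit 1) (nat_lit 1) (nat_lit 4) (nat_lit 3) (nat_lit 313) (nat_lit 309) r9_313 r4_309 (nat_lit 0) (nat_lit 0) (nat_lit 47490513) (nat_lit 0x7c0f81f64) (nat_lit 648924525),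
  Rx.mk (nat_lit 269) (nat_lit 5) (nat_lit 1) (nat_lit 4) (nat_lit 3) (nat_lit 312) (nat_lit 310) r9_312 r4_310 (nat_lit 0) (nat_lit 0) (nat_lit 30557758) (nat_lit 0x7f457f316) (nat_lit 580390720),
  Rx.mk (nat_lit 329) (nat_lit 1) (nat_lit 1) (nat_lit 5) (nat_lit 7) (nat_lit 315) (nat_lit 311) r9_315 r4_311 (nat_lit 0) (nat_lit 0) (nat_lit 0) (nat_lit 0x8017985b4) (nat_lit 536870912),
  Rx.mk (nat_lit 333) (nat_lit 5) (nat_lit 1) (nat_lit 5) (nat_lit 7) (nat_lit 314) (nat_lit 312) r9_314 r4_312 (nat_lit 0) (nat_lit 0) (nat_lit 0) (nat_lit 0x8017985b4) (nat_lit 536870912),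
  Rx.mk (nat_lit 461) (nat_lit 5) (nat_lit 1) (nat_lit 7) (nat_lit 7) (nat_lit 316) (nat_lit 313) r9_316 r4_313 (nat_lit 0) (nat_lit 0) (nat_lit 0) (nat_lit 0x8017985b4) (nat_lit 536870912),
  Rx.mk (nat_lit 493) (nat_lit 5) (nat_lit 5) (nat_lit 7) (nat_lit 7) (nat_lit 311) (nat_lit 314) r9_311 r4_314 (nat_lit 0) (nat_lit 0) (nat_lit 0) (nat_lit 0x8017985b4) (nat_lit 536870912)]
noncomputable def e41_25 : List Rx := [
  Rx.mk (nat_lit 329) (nat_lit 1) (nat_lit 1) (nat_lit 5) (nat_lit 7) (nat_lit 259) (nat_lit 408) r9_259 r7_408 (nat_lit 0) (nat_lit 0) (nat_lit 0) (nat_lit 0x8017985b4) (nat_lit 536870912),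
  Rx.mk (nat_lit 333) (nat_lit 5) (nat_lit 1) (nat_lit 5) (nat_lit 7) (nat_lit 258) (nat_lit 407) r9_258 r7_407 (nat_lit 0) (nat_lit 0) (nat_lit 0) (nat_lit 0x8017985b4) (nat_lit 536870912),
  Rx.mk (nat_lit 365) (nat_lit 5) (nat_lit 5) (nat_lit 5) (nat_lit 7) (nat_lit 257) (nat_lit 406) r9_257 r7_406 (nat_lit 0) (nat_lit 0) (nat_lit 0) (nat_lit 0x8017985b4) (nat_lit 536870912)]
noncomputable def e41_26 : List Rx := [
  Rx.mk (nat_lit 365) (nat_lit 5) (nat_lit 5) (nat_lit 5) (nat_lit 7) (nat_lit 289) (nat_lit 326) r9_289 r8_326 (nat_lit 0) (nat_lit 0) (nat_lit 0) (nat_lit 0x8017985b4) (nat_lit 536870912)]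
noncomputable def e41_27 : List Rx := [
  Rx.mk (nat_lit 73) (nat_lit 1) (nat_lit 1) (nat_lit 1) (nat_lit 7) (nat_lit 297) (nat_lit 327) r9_297 r8_327 (nat_lit 0) (nat_lit 0) (nat_lit 0) (nat_lit 0x8017985b4) (nat_lit 536870912),
  Rx.mk (nat_lit 329) (nat_lit 1) (nat_lit 1) (nat_lit 5) (nat_lit 7) (nat_lit 296) (nat_lit 328) r9_296 r8_328 (nat_lit 0) (nat_lit 0) (nat_lit 0) (nat_lit 0x8017985b4) (nat_lit 536870912),
  Rx.mk (nat_lit 333) (nat_lit 5) (nat_lit 1) (nat_lit 5) (nat_lit 7) (nat_lit 295) (nat_lit 329) r9_295 r8_329 (nat_lit 0) (nat_lit 0) (nat_lit 0) (nat_lit 0x8017985b4) (nat_lit 536870912),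
  Rx.mk (nat_lit 365) (nat_lit 5) (nat_lit 5) (nat_lit 5) (nat_lit 7) (nat_lit 294) (nat_lit 330) r9_294 r8_330 (nat_lit 0) (nat_lit 0) (nat_lit 0) (nat_lit 0x8017985b4) (nat_lit 536870912)]
noncomputable def e41_28 : List Rx := [
  Rx.mk (nat_lit 329) (nat_lit 1) (nat_lit 1) (nat_lit 5) (nat_lit 7) (nat_lit 318) (nat_lit 330) r9_318 r10_330 (nat_lit 0) (nat_lit 0) (nat_lit 0) (nat_lit 0x8017985b4) (nat_lit 536870912),
  Rx.mk (nat_lit 333) (nat_lit 5) (nat_lit 1) (nat_lit 5) (nat_lit 7) (nat_lit 317) (nat_lit 329) r9_317 r10_329 (nat_lit 0) (nat_lit 0) (nat_lit 0) (nat_lit 0x8017985b4) (nat_lit 536870912)]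
noncomputable def e41_29 : List Rx := [
  Rx.mk (nat_lit 265) (nat_lit 1) (nat_lit 1) (nat_lit 4) (nat_lit 3) (nat_lit 320) (nat_lit 347) r9_320 r11_347 (nat_lit 0) (nat_lit 0) (nat_lit 34238693) (nat_lit 0x7ed4be032) (nat_lit 591026955),
  Rx.mk (nat_lit 329) (nat_lit 1) (nat_lit 1) (nat_lit 5) (nat_lit 7) (nat_lit 321) (nat_lit 348) r9_321 r11_348 (nat_lit 0) (nat_lit 0) (nat_lit 0) (nat_lit 0x8017985b4) (nat_lit 536870912),
  Rx.mk (nat_lit 457) (nat_lit 1) (nat_lit 1) (nat_lit 7) (nat_lit 7) (nat_lit 323) (nat_lit 349) r9_323 r11_349 (nat_lit 0) (nat_lit 0) (nat_lit 0) (nat_lit 0x8017985b4) (nat_lit 536870912),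
  Rx.mk (nat_lit 461) (nat_lit 5) (nat_lit 1) (nat_lit 7) (nat_lit 7) (nat_lit 322) (nat_lit 346) r9_322 r11_346 (nat_lit 0) (nat_lit 0) (nat_lit 0) (nat_lit 0x8017985b4) (nat_lit 536870912),
  Rx.mk (nat_lit 493) (nat_lit 5) (nat_lit 5) (nat_lit 7) (nat_lit 7) (nat_lit 319) (nat_lit 345) r9_319 r11_345 (nat_lit 0) (nat_lit 0) (nat_lit 0) (nat_lit 0x8017985b4) (nat_lit 536870912)]
noncomputable def e41_30 : List Rx := [
  Rx.mk (nat_lit 217) (nat_lit 1) (nat_lit 3) (nat_lit 3) (nat_lit 7) (nat_lit 64) (nat_lit 151) r9_64 r5_151 (nat_lit 0) (nat_lit 0) (nat_lit 0) (nat_lit 0x7ffc47724) (nat_lit 538543512),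
  Rx.mk (nat_lit 473) (nat_lit 1) (nat_lit 3) (nat_lit 7) (nat_lit 7) (nat_lit 63) (nat_lit 150) r9_63 r5_150 (nat_lit 0) (nat_lit 0) (nat_lit 0) (nat_lit 0x8017985b4) (nat_lit 536870912)]
noncomputable def e41_31 : List Rx := [
  Rx.mk (nat_lit 217) (nat_lit 1) (nat_lit 3) (nat_lit 3) (nat_lit 7) (nat_lit 214) (nat_lit 164) r9_214 r11_164 (nat_lit 0) (nat_lit 0) (nat_lit 0) (nat_lit 0x8017985b4) (nat_lit 536870912)]
noncomputable def e41_32 : List Rx := [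
  Rx.mk (nat_lit 453) (nat_lit 5) (nat_lit 0) (nat_lit 7) (nat_lit 5) (nat_lit 241) (nat_lit 295) r9_241 r6_295 (nat_lit 0) (nat_lit 25123569) (nat_lit 0) (nat_lit 0x7f345289a) (nat_lit 575983031),
  Rx.mk (nat_lit 461) (nat_lit 5) (nat_lit 1) (nat_lit 7) (nat_lit 7) (nat_lit 242) (nat_lit 296) r9_242 r6_296 (nat_lit 0) (nat_lit 0) (nat_lit 0) (nat_lit 0x8017985b4) (nat_lit 536870912),
  Rx.mk (nat_lit 477) (nat_lit 5) (nat_lit 3) (nat_lit 7) (nat_lit 7) (nat_lit 243) (nat_lit 297) r9_243 r6_297 (nat_lit 0) (nat_lit 0) (nat_lit 0) (nat_lit 0x8017985b4) (nat_lit 536870912)]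
noncomputable def e41_33 : List Rx := [
  Rx.mk (nat_lit 269) (nat_lit 5) (nat_lit 1) (nat_lit 4) (nat_lit 3) (nat_lit 324) (nat_lit 290) r9_324 r5_290 (nat_lit 0) (nat_lit 0) (nat_lit 26942027) (nat_lit 0x7e5860594) (nat_lit 591515239),
  Rx.mk (nat_lit 333) (nat_lit 5) (nat_lit 1) (nat_lit 5) (nat_lit 7) (nat_lit 325) (nat_lit 291) r9_325 r5_291 (nat_lit 0) (nat_lit 0) (nat_lit 0) (nat_lit 0x7ff2ca070) (nat_lit 539127012),
  Rx.mk (nat_lit 461) (nat_lit 5) (nat_lit 1) (nat_lit 7) (nat_lit 7) (nat_lit 326) (nat_lit 292) r9_326 r5_292 (nat_lit 0) (nat_lit 0) (nat_lit 0) (nat_lit 0x8017985b4) (nat_lit 536870912)]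
noncomputable def e41_34 : List Rx := [
  Rx.mk (nat_lit 333) (nat_lit 5) (nat_lit 1) (nat_lit 5) (nat_lit 7) (nat_lit 327) (nat_lit 350) r9_327 r11_350 (nat_lit 0) (nat_lit 0) (nat_lit 0) (nat_lit 0x8017985b4) (nat_lit 536870912)]
noncomputable def e41_35 : List Rx := [
  Rx.mk (nat_lit 473) (nat_lit 1) (nat_lit 3) (nat_lit 7) (nat_lit 7) (nat_lit 62) (nat_lit 126) r9_62 r6_126 (nat_lit 0) (nat_lit 0) (nat_lit 0) (nat_lit 0x8017985b4) (nat_lit 536870912),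
  Rx.mk (nat_lit 477) (nat_lit 5) (nat_lit 3) (nat_lit 7) (nat_lit 7) (nat_lit 61) (nat_lit 127) r9_61 r6_127 (nat_lit 0) (nat_lit 0) (nat_lit 0) (nat_lit 0x8017985b4) (nat_lit 536870912)]
noncomputable def e41_36 : List Rx := [
  Rx.mk (nat_lit 453) (nat_lit 5) (nat_lit 0) (nat_lit 7) (nat_lit 5) (nat_lit 244) (nat_lit 349) r9_244 r12_349 (nat_lit 0) (nat_lit 25288573) (nat_lit 0) (nat_lit 0x7f59c63d8) (nat_lit 573834985),
  Rx.mk (nat_lit 461) (nat_lit 5) (nat_lit 1) (nat_lit 7) (nat_lit 7) (nat_lit 245) (nat_lit 350) r9_245 r12_350 (nat_lit 0) (nat_lit 0) (nat_lit 0) (nat_lit 0x8017985b4) (nat_lit 536870912),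
  Rx.mk (nat_lit 473) (nat_lit 1) (nat_lit 3) (nat_lit 7) (nat_lit 7) (nat_lit 247) (nat_lit 348) r9_247 r12_348 (nat_lit 0) (nat_lit 0) (nat_lit 0) (nat_lit 0x8017985b4) (nat_lit 536870912),
  Rx.mk (nat_lit 477) (nat_lit 5) (nat_lit 3) (nat_lit 7) (nat_lit 7) (nat_lit 246) (nat_lit 351) r9_246 r12_351 (nat_lit 0) (nat_lit 0) (nat_lit 0) (nat_lit 0x8017985b4) (nat_lit 536870912)]
noncomputable def e41_37 : List Rx := [
  Rx.mk (nat_lit 293) (nat_lit 5) (nat_lit 4) (nat_lit 4) (nat_lit 1) (nat_lit 65) (nat_lit 262) r9_65 r0_262 (nat_lit 0) (nat_lit 35271211) (nat_lit 111519439) (nat_lit 0x580e92528) (nat_lit 1330276712),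
  Rx.mk (nat_lit 317) (nat_lit 5) (nat_lit 7) (nat_lit 4) (nat_lit 3) (nat_lit 66) (nat_lit 263) r9_66 r0_263 (nat_lit 0) (nat_lit 0) (nat_lit 42181634) (nat_lit 0x7bc61b1a4) (nat_lit 648220246),
  Rx.mk (nat_lit 509) (nat_lit 5) (nat_lit 7) (nat_lit 7) (nat_lit 7) (nat_lit 67) (nat_lit 264) r9_67 r0_264 (nat_lit 0) (nat_lit 0) (nat_lit 0) (nat_lit 0x7fcef5a96) (nat_lit 541322112)]
noncomputable def e41_38 : List Rx := [
  Rx.mk (nat_lit 479) (nat_lit 7) (nat_lit 3) (nat_lit 7) (nat_lit 7) (nat_lit 0) (nat_lit 141) r9_0 r0_141 (nat_lit 0) (nat_lit 0) (nat_lit 0) (nat_lit 0x7fe34c40e) (nat_lit 540076362)]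
noncomputable def e41_39 : List Rx := [
  Rx.mk (nat_lit 292) (nat_lit 4) (nat_lit 4) (nat_lit 4) (nat_lit 0) (nat_lit 68) (nat_lit 366) r9_68 r7_366 (nat_lit 12221267) (nat_lit 12174851) (nat_lit 53728367) (nat_lit 0x38c2f41c6) (nat_lit 1767626247),
  Rx.mk (nat_lit 293) (nat_lit 5) (nat_lit 4) (nat_lit 4) (nat_lit 1) (nat_lit 69) (nat_lit 371) r9_69 r7_371 (nat_lit 0) (nat_lit 28898569) (nat_lit 49319051) (nat_lit 0x6539461d6) (nat_lit 1048798182),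
  Rx.mk (nat_lit 316) (nat_lit 4) (nat_lit 7) (nat_lit 4) (nat_lit 2) (nat_lit 74) (nat_lit 367) r9_74 r7_367 (nat_lit 27374180) (nat_lit 0) (nat_lit 24913710) (nat_lit 0x629c47274) (nat_lit 1065121602),
  Rx.mk (nat_lit 317) (nat_lit 5) (nat_lit 7) (nat_lit 4) (nat_lit 3) (nat_lit 75) (nat_lit 372) r9_75 r7_372 (nat_lit 0) (nat_lit 0) (nat_lit 24624079) (nat_lit 0x8009fe8fe) (nat_lit 562326791),
  Rx.mk (nat_lit 420) (nat_lit 4) (nat_lit 4) (nat_lit 6) (nat_lit 4) (nat_lit 70) (nat_lit 369) r9_70 r7_369 (nat_lit 25388524) (nat_lit 23888514) (nat_lit 0) (nat_lit 0x66b5a08de) (nat_lit 995832150),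
  Rx.mk (nat_lit 421) (nat_lit 5) (nat_lit 4) (nat_lit 6) (nat_lit 5) (nat_lit 71) (nat_lit 374) r9_71 r7_374 (nat_lit 0) (nat_lit 24741287) (nat_lit 0) (nat_lit 0x7fff7117a) (nat_lit 563091449),
  Rx.mk (nat_lit 422) (nat_lit 6) (nat_lit 4) (nat_lit 6) (nat_lit 5) (nat_lit 72) (nat_lit 378) r9_72 r7_378 (nat_lit 0) (nat_lit 24741287) (nat_lit 0) (nat_lit 0x800788c14) (nat_lit 562595399),
  Rx.mk (nat_lit 438) (nat_lit 6) (nat_lit 6) (nat_lit 6) (nat_lit 7) (nat_lit 73) (nat_lit 380) r9_73 r7_380 (nat_lit 0) (nat_lit 0) (nat_lit 0) (nat_lit 0x8017985b4) (nat_lit 536870912),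
  Rx.mk (nat_lit 444) (nat_lit 4) (nat_lit 7) (nat_lit 6) (nat_lit 6) (nat_lit 76) (nat_lit 370) r9_76 r7_370 (nat_lit 24741287) (nat_lit 0) (nat_lit 0) (nat_lit 0x80064b5b8) (nat_lit 562671499),
  Rx.mk (nat_lit 445) (nat_lit 5) (nat_lit 7) (nat_lit 6) (nat_lit 7) (nat_lit 77) (nat_lit 375) r9_77 r7_375 (nat_lit 0) (nat_lit 0) (nat_lit 0) (nat_lit 0x8017985b4) (nat_lit 536870912),
  Rx.mk (nat_lit 446) (nat_lit 6) (nat_lit 7) (nat_lit 6) (nat_lit 7) (nat_lit 78) (nat_lit 379) r9_78 r7_379 (nat_lit 0) (nat_lit 0) (nat_lit 0) (nat_lit 0x8017985b4) (nat_lit 536870912),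
  Rx.mk (nat_lit 479) (nat_lit 7) (nat_lit 3) (nat_lit 7) (nat_lit 7) (nat_lit 82) (nat_lit 377) r9_82 r7_377 (nat_lit 0) (nat_lit 0) (nat_lit 0) (nat_lit 0x8017985b4) (nat_lit 536870912),
  Rx.mk (nat_lit 508) (nat_lit 4) (nat_lit 7) (nat_lit 7) (nat_lit 6) (nat_lit 79) (nat_lit 368) r9_79 r7_368 (nat_lit 24741287) (nat_lit 0) (nat_lit 0) (nat_lit 0x7fe3cd14e) (nat_lit 564781099),
  Rx.mk (nat_lit 509) (nat_lit 5) (nat_lit 7) (nat_lit 7) (nat_lit 7) (nat_lit 80) (nat_lit 373) r9_80 r7_373 (nat_lit 0) (nat_lit 0) (nat_lit 0) (nat_lit 0x8017985b4) (nat_lit 536870912),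
  Rx.mk (nat_lit 511) (nat_lit 7) (nat_lit 7) (nat_lit 7) (nat_lit 7) (nat_lit 81) (nat_lit 376) r9_81 r7_376 (nat_lit 0) (nat_lit 0) (nat_lit 0) (nat_lit 0x8017985b4) (nat_lit 536870912)]
noncomputable def e41_40 : List Rx := [
  Rx.mk (nat_lit 0) (nat_lit 0) (nat_lit 0) (nat_lit 0) (nat_lit 0) (nat_lit 2) (nat_lit 146) r9_2 r2_146 (nat_lit 9380650) (nat_lit 10208836) (nat_lit 12054409) (nat_lit 0x4191c7aea) (nat_lit 1578696407),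
  Rx.mk (nat_lit 16) (nat_lit 0) (nat_lit 2) (nat_lit 0) (nat_lit 2) (nat_lit 5) (nat_lit 152) r9_5 r2_152 (nat_lit 28184396) (nat_lit 0) (nat_lit 19348784) (nat_lit 0x6737e5402) (nat_lit 985858192),
  Rx.mk (nat_lit 18) (nat_lit 2) (nat_lit 2) (nat_lit 0) (nat_lit 3) (nat_lit 6) (nat_lit 153) r9_6 r2_153 (nat_lit 0) (nat_lit 0) (nat_lit 23881749) (nat_lit 0x7ffacd09c) (nat_lit 562515361),
  Rx.mk (nat_lit 146) (nat_lit 2) (nat_lit 2) (nat_lit 2) (nat_lit 7) (nat_lit 7) (nat_lit 157) r9_7 r2_157 (nat_lit 0) (nat_lit 0) (nat_lit 0) (nat_lit 0x8017985b4) (nat_lit 536870912),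
  Rx.mk (nat_lit 192) (nat_lit 0) (nat_lit 0) (nat_lit 3) (nat_lit 4) (nat_lit 3) (nat_lit 147) r9_3 r2_147 (nat_lit 27923274) (nat_lit 18448465) (nat_lit 0) (nat_lit 0x696412f82) (nat_lit 949568801),
  Rx.mk (nat_lit 195) (nat_lit 3) (nat_lit 0) (nat_lit 3) (nat_lit 5) (nat_lit 4) (nat_lit 148) r9_4 r2_148 (nat_lit 0) (nat_lit 24741287) (nat_lit 0) (nat_lit 0x7f9cd5ee4) (nat_lit 569152349),
  Rx.mk (nat_lit 208) (nat_lit 0) (nat_lit 2) (nat_lit 3) (nat_lit 6) (nat_lit 8) (nat_lit 154) r9_8 r2_154 (nat_lit 24741287) (nat_lit 0) (nat_lit 0) (nat_lit 0x800e5e7c8) (nat_lit 562175649),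
  Rx.mk (nat_lit 210) (nat_lit 2) (nat_lit 2) (nat_lit 3) (nat_lit 7) (nat_lit 9) (nat_lit 156) r9_9 r2_156 (nat_lit 0) (nat_lit 0) (nat_lit 0) (nat_lit 0x8017985b4) (nat_lit 536870912),
  Rx.mk (nat_lit 211) (nat_lit 3) (nat_lit 2) (nat_lit 3) (nat_lit 7) (nat_lit 10) (nat_lit 155) r9_10 r2_155 (nat_lit 0) (nat_lit 0) (nat_lit 0) (nat_lit 0x8017985b4) (nat_lit 536870912),
  Rx.mk (nat_lit 219) (nat_lit 3) (nat_lit 3) (nat_lit 3) (nat_lit 7) (nat_lit 13) (nat_lit 149) r9_13 r2_149 (nat_lit 0) (nat_lit 0) (nat_lit 0) (nat_lit 0x8017985b4) (nat_lit 536870912),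
  Rx.mk (nat_lit 475) (nat_lit 3) (nat_lit 3) (nat_lit 7) (nat_lit 7) (nat_lit 12) (nat_lit 150) r9_12 r2_150 (nat_lit 0) (nat_lit 0) (nat_lit 0) (nat_lit 0x8017985b4) (nat_lit 536870912),
  Rx.mk (nat_lit 479) (nat_lit 7) (nat_lit 3) (nat_lit 7) (nat_lit 7) (nat_lit 11) (nat_lit 151) r9_11 r2_151 (nat_lit 0) (nat_lit 0) (nat_lit 0) (nat_lit 0x8017985b4) (nat_lit 536870912)]
noncomputable def e41_41 : List Rx := [
  Rx.mk (nat_lit 0) (nat_lit 0) (nat_lit 0) (nat_lit 0) (nat_lit 0) (nat_lit 121) (nat_lit 109) r9_121 r9_109 (nat_lit 21797302) (nat_lit 22961591) (nat_lit 36523476) (nat_lit 0x3ad62b83c) (nat_lit 1737278231),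
  Rx.mk (nat_lit 16) (nat_lit 0) (nat_lit 2) (nat_lit 0) (nat_lit 2) (nat_lit 124) (nat_lit 115) r9_124 r9_115 (nat_lit 21788749) (nat_lit 0) (nat_lit 21805176) (nat_lit 0x60e0b917a) (nat_lit 1084441637),
  Rx.mk (nat_lit 18) (nat_lit 2) (nat_lit 2) (nat_lit 0) (nat_lit 3) (nat_lit 125) (nat_lit 116) r9_125 r9_116 (nat_lit 0) (nat_lit 0) (nat_lit 22977602) (nat_lit 0x7edbd4c9a) (nat_lit 579368164),
  Rx.mk (nat_lit 146) (nat_lit 2) (nat_lit 2) (nat_lit 2) (nat_lit 7) (nat_lit 126) (nat_lit 120) r9_126 r9_120 (nat_lit 0) (nat_lit 0) (nat_lit 0) (nat_lit 0x8017985b4) (nat_lit 536870912),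
  Rx.mk (nat_lit 178) (nat_lit 2) (nat_lit 6) (nat_lit 2) (nat_lit 7) (nat_lit 114) (nat_lit 130) r9_114 r9_130 (nat_lit 0) (nat_lit 0) (nat_lit 0) (nat_lit 0x8017985b4) (nat_lit 536870912),
  Rx.mk (nat_lit 182) (nat_lit 6) (nat_lit 6) (nat_lit 2) (nat_lit 7) (nat_lit 113) (nat_lit 131) r9_113 r9_131 (nat_lit 0) (nat_lit 0) (nat_lit 0) (nat_lit 0x8017985b4) (nat_lit 536870912),
  Rx.mk (nat_lit 192) (nat_lit 0) (nat_lit 0) (nat_lit 3) (nat_lit 4) (nat_lit 122) (nat_lit 110) r9_122 r9_110 (nat_lit 24030520) (nat_lit 18882716) (nat_lit 0) (nat_lit 0x619393b74) (nat_lit 1072465598),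
  Rx.mk (nat_lit 195) (nat_lit 3) (nat_lit 0) (nat_lit 3) (nat_lit 5) (nat_lit 123) (nat_lit 111) r9_123 r9_111 (nat_lit 0) (nat_lit 21899928) (nat_lit 0) (nat_lit 0x7e32c5136) (nat_lit 588892740),
  Rx.mk (nat_lit 208) (nat_lit 0) (nat_lit 2) (nat_lit 3) (nat_lit 6) (nat_lit 127) (nat_lit 117) r9_127 r9_117 (nat_lit 24741287) (nat_lit 0) (nat_lit 0) (nat_lit 0x7f6b2ca1e) (nat_lit 572209049),
  Rx.mk (nat_lit 210) (nat_lit 2) (nat_lit 2) (nat_lit 3) (nat_lit 7) (nat_lit 128) (nat_lit 119) r9_128 r9_119 (nat_lit 0) (nat_lit 0) (nat_lit 0) (nat_lit 0x8017985b4) (nat_lit 536870912),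
  Rx.mk (nat_lit 211) (nat_lit 3) (nat_lit 2) (nat_lit 3) (nat_lit 7) (nat_lit 129) (nat_lit 118) r9_129 r9_118 (nat_lit 0) (nat_lit 0) (nat_lit 0) (nat_lit 0x8017985b4) (nat_lit 536870912),
  Rx.mk (nat_lit 219) (nat_lit 3) (nat_lit 3) (nat_lit 3) (nat_lit 7) (nat_lit 132) (nat_lit 112) r9_132 r9_112 (nat_lit 0) (nat_lit 0) (nat_lit 0) (nat_lit 0x8017985b4) (nat_lit 536870912),
  Rx.mk (nat_lit 292) (nat_lit 4) (nat_lit 4) (nat_lit 4) (nat_lit 0) (nat_lit 109) (nat_lit 121) r9_109 r9_121 (nat_lit 21797302) (nat_lit 22961591) (nat_lit 36523476) (nat_lit 0x3ad62b83c) (nat_lit 1737278231),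
  Rx.mk (nat_lit 316) (nat_lit 4) (nat_lit 7) (nat_lit 4) (nat_lit 2) (nat_lit 115) (nat_lit 124) r9_115 r9_124 (nat_lit 21788749) (nat_lit 0) (nat_lit 21805176) (nat_lit 0x60e0b917a) (nat_lit 1084441637),
  Rx.mk (nat_lit 319) (nat_lit 7) (nat_lit 7) (nat_lit 4) (nat_lit 3) (nat_lit 116) (nat_lit 125) r9_116 r9_125 (nat_lit 0) (nat_lit 0) (nat_lit 22977602) (nat_lit 0x7edbd4c9a) (nat_lit 579368164),
  Rx.mk (nat_lit 420) (nat_lit 4) (nat_lit 4) (nat_lit 6) (nat_lit 4) (nat_lit 110) (nat_lit 122) r9_110 r9_122 (nat_lit 24030520) (nat_lit 18882716) (nat_lit 0) (nat_lit 0x619393b74) (nat_lit 1072465598),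
  Rx.mk (nat_lit 422) (nat_lit 6) (nat_lit 4) (nat_lit 6) (nat_lit 5) (nat_lit 111) (nat_lit 123) r9_111 r9_123 (nat_lit 0) (nat_lit 21899928) (nat_lit 0) (nat_lit 0x7e32c5136) (nat_lit 588892740),
  Rx.mk (nat_lit 438) (nat_lit 6) (nat_lit 6) (nat_lit 6) (nat_lit 7) (nat_lit 112) (nat_lit 132) r9_112 r9_132 (nat_lit 0) (nat_lit 0) (nat_lit 0) (nat_lit 0x8017985b4) (nat_lit 536870912),
  Rx.mk (nat_lit 444) (nat_lit 4) (nat_lit 7) (nat_lit 6) (nat_lit 6) (nat_lit 117) (nat_lit 127) r9_117 r9_127 (nat_lit 24741287) (nat_lit 0) (nat_lit 0) (nat_lit 0x7f6b2ca1e) (nat_lit 572209049),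
  Rx.mk (nat_lit 446) (nat_lit 6) (nat_lit 7) (nat_lit 6) (nat_lit 7) (nat_lit 118) (nat_lit 129) r9_118 r9_129 (nat_lit 0) (nat_lit 0) (nat_lit 0) (nat_lit 0x8017985b4) (nat_lit 536870912),
  Rx.mk (nat_lit 447) (nat_lit 7) (nat_lit 7) (nat_lit 6) (nat_lit 7) (nat_lit 119) (nat_lit 128) r9_119 r9_128 (nat_lit 0) (nat_lit 0) (nat_lit 0) (nat_lit 0x8017985b4) (nat_lit 536870912),
  Rx.mk (nat_lit 475) (nat_lit 3) (nat_lit 3) (nat_lit 7) (nat_lit 7) (nat_lit 131) (nat_lit 113) r9_131 r9_113 (nat_lit 0) (nat_lit 0) (nat_lit 0) (nat_lit 0x8017985b4) (nat_lit 536870912),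
  Rx.mk (nat_lit 479) (nat_lit 7) (nat_lit 3) (nat_lit 7) (nat_lit 7) (nat_lit 130) (nat_lit 114) r9_130 r9_114 (nat_lit 0) (nat_lit 0) (nat_lit 0) (nat_lit 0x8017985b4) (nat_lit 536870912),
  Rx.mk (nat_lit 511) (nat_lit 7) (nat_lit 7) (nat_lit 7) (nat_lit 7) (nat_lit 120) (nat_lit 126) r9_120 r9_126 (nat_lit 0) (nat_lit 0) (nat_lit 0) (nat_lit 0x8017985b4) (nat_lit 536870912)]
noncomputable def e41_42 : List Rx := [
  Rx.mk (nat_lit 0) (nat_lit 0) (nat_lit 0) (nat_lit 0) (nat_lit 0) (nat_lit 148) (nat_lit 148) r9_148 r9_148 (nat_lit 17958918) (nat_lit 26184378) (nat_lit 26184378) (nat_lit 0x4289fca08) (nat_lit 1601756836),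
  Rx.mk (nat_lit 16) (nat_lit 0) (nat_lit 2) (nat_lit 0) (nat_lit 2) (nat_lit 151) (nat_lit 149) r9_151 r9_149 (nat_lit 25198067) (nat_lit 0) (nat_lit 24357688) (nat_lit 0x695294076) (nat_lit 953855717),
  Rx.mk (nat_lit 18) (nat_lit 2) (nat_lit 2) (nat_lit 0) (nat_lit 3) (nat_lit 152) (nat_lit 150) r9_152 r9_150 (nat_lit 0) (nat_lit 0) (nat_lit 24501470) (nat_lit 0x7fbf237c6) (nat_lit 566776782),
  Rx.mk (nat_lit 146) (nat_lit 2) (nat_lit 2) (nat_lit 2) (nat_lit 7) (nat_lit 153) (nat_lit 154) r9_153 r9_154 (nat_lit 0) (nat_lit 0) (nat_lit 0) (nat_lit 0x8017985b4) (nat_lit 536870912),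
  Rx.mk (nat_lit 192) (nat_lit 0) (nat_lit 0) (nat_lit 3) (nat_lit 4) (nat_lit 149) (nat_lit 151) r9_149 r9_151 (nat_lit 25198067) (nat_lit 24357688) (nat_lit 0) (nat_lit 0x695294076) (nat_lit 953855717),
  Rx.mk (nat_lit 195) (nat_lit 3) (nat_lit 0) (nat_lit 3) (nat_lit 5) (nat_lit 150) (nat_lit 152) r9_150 r9_152 (nat_lit 0) (nat_lit 24501470) (nat_lit 0) (nat_lit 0x7fbf237c6) (nat_lit 566776782),
  Rx.mk (nat_lit 219) (nat_lit 3) (nat_lit 3) (nat_lit 3) (nat_lit 7) (nat_lit 154) (nat_lit 153) r9_154 r9_153 (nat_lit 0) (nat_lit 0) (nat_lit 0) (nat_lit 0x8017985b4) (nat_lit 536870912)]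
noncomputable def e41_43 : List Rx := [
  Rx.mk (nat_lit 479) (nat_lit 7) (nat_lit 3) (nat_lit 7) (nat_lit 7) (nat_lit 1) (nat_lit 153) r9_1 r1_153 (nat_lit 0) (nat_lit 0) (nat_lit 0) (nat_lit 0x8017985b4) (nat_lit 536870912)]
noncomputable def e41_44 : List Rx := [
  Rx.mk (nat_lit 292) (nat_lit 4) (nat_lit 4) (nat_lit 4) (nat_lit 0) (nat_lit 99) (nat_lit 273) r9_99 r8_273 (nat_lit 15284300) (nat_lit 18790511) (nat_lit 46447449) (nat_lit 0x3cee725c4) (nat_lit 1702614672),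
  Rx.mk (nat_lit 316) (nat_lit 4) (nat_lit 7) (nat_lit 4) (nat_lit 2) (nat_lit 103) (nat_lit 274) r9_103 r8_274 (nat_lit 24950323) (nat_lit 0) (nat_lit 23607638) (nat_lit 0x64fca11c2) (nat_lit 1022966473),
  Rx.mk (nat_lit 420) (nat_lit 4) (nat_lit 4) (nat_lit 6) (nat_lit 4) (nat_lit 100) (nat_lit 276) r9_100 r8_276 (nat_lit 26650245) (nat_lit 23999425) (nat_lit 0) (nat_lit 0x66dd7892e) (nat_lit 994688732),
  Rx.mk (nat_lit 422) (nat_lit 6) (nat_lit 4) (nat_lit 6) (nat_lit 5) (nat_lit 101) (nat_lit 280) r9_101 r8_280 (nat_lit 0) (nat_lit 24741287) (nat_lit 0) (nat_lit 0x7ff1b40e6) (nat_lit 563929249),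
  Rx.mk (nat_lit 438) (nat_lit 6) (nat_lit 6) (nat_lit 6) (nat_lit 7) (nat_lit 102) (nat_lit 282) r9_102 r8_282 (nat_lit 0) (nat_lit 0) (nat_lit 0) (nat_lit 0x8017985b4) (nat_lit 536870912),
  Rx.mk (nat_lit 444) (nat_lit 4) (nat_lit 7) (nat_lit 6) (nat_lit 6) (nat_lit 104) (nat_lit 277) r9_104 r8_277 (nat_lit 24488988) (nat_lit 0) (nat_lit 0) (nat_lit 0x7ff6155ae) (nat_lit 563408300),
  Rx.mk (nat_lit 446) (nat_lit 6) (nat_lit 7) (nat_lit 6) (nat_lit 7) (nat_lit 105) (nat_lit 281) r9_105 r8_281 (nat_lit 0) (nat_lit 0) (nat_lit 0) (nat_lit 0x8017985b4) (nat_lit 536870912),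
  Rx.mk (nat_lit 479) (nat_lit 7) (nat_lit 3) (nat_lit 7) (nat_lit 7) (nat_lit 108) (nat_lit 279) r9_108 r8_279 (nat_lit 0) (nat_lit 0) (nat_lit 0) (nat_lit 0x8017985b4) (nat_lit 536870912),
  Rx.mk (nat_lit 508) (nat_lit 4) (nat_lit 7) (nat_lit 7) (nat_lit 6) (nat_lit 106) (nat_lit 275) r9_106 r8_275 (nat_lit 24741287) (nat_lit 0) (nat_lit 0) (nat_lit 0x800b35984) (nat_lit 562371349),
  Rx.mk (nat_lit 511) (nat_lit 7) (nat_lit 7) (nat_lit 7) (nat_lit 7) (nat_lit 107) (nat_lit 278) r9_107 r8_278 (nat_lit 0) (nat_lit 0) (nat_lit 0) (nat_lit 0x8017985b4) (nat_lit 536870912)]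
noncomputable def e41_45 : List Rx := [
  Rx.mk (nat_lit 293) (nat_lit 5) (nat_lit 4) (nat_lit 4) (nat_lit 1) (nat_lit 83) (nat_lit 269) r9_83 r1_269 (nat_lit 0) (nat_lit 34355931) (nat_lit 134396714) (nat_lit 0x734bda226) (nat_lit 911788807),
  Rx.mk (nat_lit 317) (nat_lit 5) (nat_lit 7) (nat_lit 4) (nat_lit 3) (nat_lit 84) (nat_lit 270) r9_84 r1_270 (nat_lit 0) (nat_lit 0) (nat_lit 24741287) (nat_lit 0x8008f717c) (nat_lit 562505199),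
  Rx.mk (nat_lit 509) (nat_lit 5) (nat_lit 7) (nat_lit 7) (nat_lit 7) (nat_lit 85) (nat_lit 271) r9_85 r1_271 (nat_lit 0) (nat_lit 0) (nat_lit 0) (nat_lit 0x8017985b4) (nat_lit 536870912)]
noncomputable def e41_46 : List Rx := [
  Rx.mk (nat_lit 293) (nat_lit 5) (nat_lit 4) (nat_lit 4) (nat_lit 1) (nat_lit 260) (nat_lit 289) r9_260 r2_289 (nat_lit 0) (nat_lit 67893355) (nat_lit 40876841) (nat_lit 0x6a127e06c) (nat_lit 1000948958),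
  Rx.mk (nat_lit 301) (nat_lit 5) (nat_lit 5) (nat_lit 4) (nat_lit 3) (nat_lit 262) (nat_lit 290) r9_262 r2_290 (nat_lit 0) (nat_lit 0) (nat_lit 24603401) (nat_lit 0x8007974d0) (nat_lit 562452963),
  Rx.mk (nat_lit 365) (nat_lit 5) (nat_lit 5) (nat_lit 5) (nat_lit 7) (nat_lit 263) (nat_lit 291) r9_263 r2_291 (nat_lit 0) (nat_lit 0) (nat_lit 0) (nat_lit 0x8017985b4) (nat_lit 536870912),
  Rx.mk (nat_lit 485) (nat_lit 5) (nat_lit 4) (nat_lit 7) (nat_lit 5) (nat_lit 261) (nat_lit 292) r9_261 r2_292 (nat_lit 0) (nat_lit 24741287) (nat_lit 0) (nat_lit 0x8017985b4) (nat_lit 561612199),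
  Rx.mk (nat_lit 493) (nat_lit 5) (nat_lit 5) (nat_lit 7) (nat_lit 7) (nat_lit 264) (nat_lit 293) r9_264 r2_293 (nat_lit 0) (nat_lit 0) (nat_lit 0) (nat_lit 0x8017985b4) (nat_lit 536870912),
  Rx.mk (nat_lit 509) (nat_lit 5) (nat_lit 7) (nat_lit 7) (nat_lit 7) (nat_lit 265) (nat_lit 294) r9_265 r2_294 (nat_lit 0) (nat_lit 0) (nat_lit 0) (nat_lit 0x8017985b4) (nat_lit 536870912)]
noncomputable def e41_47 : List Rx := [
  Rx.mk (nat_lit 292) (nat_lit 4) (nat_lit 4) (nat_lit 4) (nat_lit 0) (nat_lit 86) (nat_lit 133) r9_86 r8_133 (nat_lit 18637644) (nat_lit 17870946) (nat_lit 94967087) (nat_lit 0x4127ec576) (nat_lit 1685261939),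
  Rx.mk (nat_lit 293) (nat_lit 5) (nat_lit 4) (nat_lit 4) (nat_lit 1) (nat_lit 87) (nat_lit 134) r9_87 r8_134 (nat_lit 0) (nat_lit 26394436) (nat_lit 82173125) (nat_lit 0x6a21a438e) (nat_lit 999789173),
  Rx.mk (nat_lit 316) (nat_lit 4) (nat_lit 7) (nat_lit 4) (nat_lit 2) (nat_lit 92) (nat_lit 138) r9_92 r8_138 (nat_lit 35165148) (nat_lit 0) (nat_lit 23390390) (nat_lit 0x65db9d3f8) (nat_lit 1018879500),
  Rx.mk (nat_lit 317) (nat_lit 5) (nat_lit 7) (nat_lit 4) (nat_lit 3) (nat_lit 93) (nat_lit 139) r9_93 r8_139 (nat_lit 0) (nat_lit 0) (nat_lit 24741287) (nat_lit 0x8017985b4) (nat_lit 561612199),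
  Rx.mk (nat_lit 420) (nat_lit 4) (nat_lit 4) (nat_lit 6) (nat_lit 4) (nat_lit 88) (nat_lit 135) r9_88 r8_135 (nat_lit 29365924) (nat_lit 24700278) (nat_lit 0) (nat_lit 0x6a57b692c) (nat_lit 941876114),
  Rx.mk (nat_lit 421) (nat_lit 5) (nat_lit 4) (nat_lit 6) (nat_lit 5) (nat_lit 89) (nat_lit 136) r9_89 r8_136 (nat_lit 0) (nat_lit 24741287) (nat_lit 0) (nat_lit 0x8017985b4) (nat_lit 561612199),
  Rx.mk (nat_lit 422) (nat_lit 6) (nat_lit 4) (nat_lit 6) (nat_lit 5) (nat_lit 90) (nat_lit 137) r9_90 r8_137 (nat_lit 0) (nat_lit 24741287) (nat_lit 0) (nat_lit 0x7fffb92e0) (nat_lit 563069249),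
  Rx.mk (nat_lit 438) (nat_lit 6) (nat_lit 6) (nat_lit 6) (nat_lit 7) (nat_lit 91) (nat_lit 145) r9_91 r8_145 (nat_lit 0) (nat_lit 0) (nat_lit 0) (nat_lit 0x8017985b4) (nat_lit 536870912),
  Rx.mk (nat_lit 444) (nat_lit 4) (nat_lit 7) (nat_lit 6) (nat_lit 6) (nat_lit 94) (nat_lit 143) r9_94 r8_143 (nat_lit 24489661) (nat_lit 0) (nat_lit 0) (nat_lit 0x7ffa8f6de) (nat_lit 563135273),
  Rx.mk (nat_lit 445) (nat_lit 5) (nat_lit 7) (nat_lit 6) (nat_lit 7) (nat_lit 95) (nat_lit 144) r9_95 r8_144 (nat_lit 0) (nat_lit 0) (nat_lit 0) (nat_lit 0x8017985b4) (nat_lit 536870912),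
  Rx.mk (nat_lit 508) (nat_lit 4) (nat_lit 7) (nat_lit 7) (nat_lit 6) (nat_lit 96) (nat_lit 140) r9_96 r8_140 (nat_lit 24741287) (nat_lit 0) (nat_lit 0) (nat_lit 0x8017985b4) (nat_lit 561612199),
  Rx.mk (nat_lit 509) (nat_lit 5) (nat_lit 7) (nat_lit 7) (nat_lit 7) (nat_lit 97) (nat_lit 141) r9_97 r8_141 (nat_lit 0) (nat_lit 0) (nat_lit 0) (nat_lit 0x8017985b4) (nat_lit 536870912),
  Rx.mk (nat_lit 511) (nat_lit 7) (nat_lit 7) (nat_lit 7) (nat_lit 7) (nat_lit 98) (nat_lit 142) r9_98 r8_142 (nat_lit 0) (nat_lit 0) (nat_lit 0) (nat_lit 0x8017985b4) (nat_lit 536870912)]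
noncomputable def e41_48 : List Rx := [
  Rx.mk (nat_lit 292) (nat_lit 4) (nat_lit 4) (nat_lit 4) (nat_lit 0) (nat_lit 267) (nat_lit 267) r9_267 r9_267 (nat_lit 19947850) (nat_lit 19947850) (nat_lit 112948378) (nat_lit 0x42f38d800) (nat_lit 1677613190),
  Rx.mk (nat_lit 293) (nat_lit 5) (nat_lit 4) (nat_lit 4) (nat_lit 1) (nat_lit 268) (nat_lit 274) r9_268 r9_274 (nat_lit 0) (nat_lit 58482756) (nat_lit 36644786) (nat_lit 0x665409c74) (nat_lit 1047842904),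
  Rx.mk (nat_lit 300) (nat_lit 4) (nat_lit 5) (nat_lit 4) (nat_lit 2) (nat_lit 274) (nat_lit 268) r9_274 r9_268 (nat_lit 58482756) (nat_lit 0) (nat_lit 36644786) (nat_lit 0x665409c74) (nat_lit 1047842904),
  Rx.mk (nat_lit 301) (nat_lit 5) (nat_lit 5) (nat_lit 4) (nat_lit 3) (nat_lit 275) (nat_lit 275) r9_275 r9_275 (nat_lit 0) (nat_lit 0) (nat_lit 24741287) (nat_lit 0x8017985b4) (nat_lit 561612199),
  Rx.mk (nat_lit 365) (nat_lit 5) (nat_lit 5) (nat_lit 5) (nat_lit 7) (nat_lit 276) (nat_lit 276) r9_276 r9_276 (nat_lit 0) (nat_lit 0) (nat_lit 0) (nat_lit 0x8017985b4) (nat_lit 536870912),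
  Rx.mk (nat_lit 420) (nat_lit 4) (nat_lit 4) (nat_lit 6) (nat_lit 4) (nat_lit 269) (nat_lit 272) r9_269 r9_272 (nat_lit 33468687) (nat_lit 40541115) (nat_lit 0) (nat_lit 0x6c692da82) (nat_lit 928375014),
  Rx.mk (nat_lit 421) (nat_lit 5) (nat_lit 4) (nat_lit 6) (nat_lit 5) (nat_lit 270) (nat_lit 280) r9_270 r9_280 (nat_lit 0) (nat_lit 24741287) (nat_lit 0) (nat_lit 0x8017985b4) (nat_lit 561612199),
  Rx.mk (nat_lit 422) (nat_lit 6) (nat_lit 4) (nat_lit 6) (nat_lit 5) (nat_lit 271) (nat_lit 283) r9_271 r9_283 (nat_lit 0) (nat_lit 24741287) (nat_lit 0) (nat_lit 0x8017985b4) (nat_lit 561612199),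
  Rx.mk (nat_lit 428) (nat_lit 4) (nat_lit 5) (nat_lit 6) (nat_lit 6) (nat_lit 277) (nat_lit 273) r9_277 r9_273 (nat_lit 24741287) (nat_lit 0) (nat_lit 0) (nat_lit 0x8017985b4) (nat_lit 561612199),
  Rx.mk (nat_lit 429) (nat_lit 5) (nat_lit 5) (nat_lit 6) (nat_lit 7) (nat_lit 278) (nat_lit 281) r9_278 r9_281 (nat_lit 0) (nat_lit 0) (nat_lit 0) (nat_lit 0x8017985b4) (nat_lit 536870912),
  Rx.mk (nat_lit 430) (nat_lit 6) (nat_lit 5) (nat_lit 6) (nat_lit 7) (nat_lit 279) (nat_lit 284) r9_279 r9_284 (nat_lit 0) (nat_lit 0) (nat_lit 0) (nat_lit 0x8017985b4) (nat_lit 536870912),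
  Rx.mk (nat_lit 438) (nat_lit 6) (nat_lit 6) (nat_lit 6) (nat_lit 7) (nat_lit 282) (nat_lit 285) r9_282 r9_285 (nat_lit 0) (nat_lit 0) (nat_lit 0) (nat_lit 0x8017985b4) (nat_lit 536870912),
  Rx.mk (nat_lit 484) (nat_lit 4) (nat_lit 4) (nat_lit 7) (nat_lit 4) (nat_lit 272) (nat_lit 269) r9_272 r9_269 (nat_lit 40541115) (nat_lit 33468687) (nat_lit 0) (nat_lit 0x6c692da82) (nat_lit 928375014),
  Rx.mk (nat_lit 485) (nat_lit 5) (nat_lit 4) (nat_lit 7) (nat_lit 5) (nat_lit 273) (nat_lit 277) r9_273 r9_277 (nat_lit 0) (nat_lit 24741287) (nat_lit 0) (nat_lit 0x8017985b4) (nat_lit 561612199),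
  Rx.mk (nat_lit 492) (nat_lit 4) (nat_lit 5) (nat_lit 7) (nat_lit 6) (nat_lit 280) (nat_lit 270) r9_280 r9_270 (nat_lit 24741287) (nat_lit 0) (nat_lit 0) (nat_lit 0x8017985b4) (nat_lit 561612199),
  Rx.mk (nat_lit 493) (nat_lit 5) (nat_lit 5) (nat_lit 7) (nat_lit 7) (nat_lit 281) (nat_lit 278) r9_281 r9_278 (nat_lit 0) (nat_lit 0) (nat_lit 0) (nat_lit 0x8017985b4) (nat_lit 536870912),
  Rx.mk (nat_lit 508) (nat_lit 4) (nat_lit 7) (nat_lit 7) (nat_lit 6) (nat_lit 283) (nat_lit 271) r9_283 r9_271 (nat_lit 24741287) (nat_lit 0) (nat_lit 0) (nat_lit 0x8017985b4) (nat_lit 561612199),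
  Rx.mk (nat_lit 509) (nat_lit 5) (nat_lit 7) (nat_lit 7) (nat_lit 7) (nat_lit 284) (nat_lit 279) r9_284 r9_279 (nat_lit 0) (nat_lit 0) (nat_lit 0) (nat_lit 0x8017985b4) (nat_lit 536870912),
  Rx.mk (nat_lit 511) (nat_lit 7) (nat_lit 7) (nat_lit 7) (nat_lit 7) (nat_lit 285) (nat_lit 282) r9_285 r9_282 (nat_lit 0) (nat_lit 0) (nat_lit 0) (nat_lit 0x8017985b4) (nat_lit 536870912)]
noncomputable def e41_49 : List Rx := [
  Rx.mk (nat_lit 365) (nat_lit 5) (nat_lit 5) (nat_lit 5) (nat_lit 7) (nat_lit 266) (nat_lit 299) r9_266 r9_299 (nat_lit 0) (nat_lit 0) (nat_lit 0) (nat_lit 0x8017985b4) (nat_lit 536870912)]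
noncomputable def e41_50 : List Rx := [
  Rx.mk (nat_lit 477) (nat_lit 5) (nat_lit 3) (nat_lit 7) (nat_lit 7) (nat_lit 14) (nat_lit 261) r9_14 r3_261 (nat_lit 0) (nat_lit 0) (nat_lit 0) (nat_lit 0x7fce2024c) (nat_lit 541400812)]
noncomputable def e41_51 : List Rx := [
  Rx.mk (nat_lit 317) (nat_lit 5) (nat_lit 7) (nat_lit 4) (nat_lit 3) (nat_lit 133) (nat_lit 276) r9_133 r4_276 (nat_lit 0) (nat_lit 0) (nat_lit 24741287) (nat_lit 0x80035e648) (nat_lit 562847599),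
  Rx.mk (nat_lit 477) (nat_lit 5) (nat_lit 3) (nat_lit 7) (nat_lit 7) (nat_lit 135) (nat_lit 278) r9_135 r4_278 (nat_lit 0) (nat_lit 0) (nat_lit 0) (nat_lit 0x8017985b4) (nat_lit 536870912),
  Rx.mk (nat_lit 509) (nat_lit 5) (nat_lit 7) (nat_lit 7) (nat_lit 7) (nat_lit 134) (nat_lit 277) r9_134 r4_277 (nat_lit 0) (nat_lit 0) (nat_lit 0) (nat_lit 0x8017985b4) (nat_lit 536870912)]
noncomputable def e41_52 : List Rx := [
  Rx.mk (nat_lit 477) (nat_lit 5) (nat_lit 3) (nat_lit 7) (nat_lit 7) (nat_lit 215) (nat_lit 266) r9_215 r5_266 (nat_lit 0) (nat_lit 0) (nat_lit 0) (nat_lit 0x7fd940442) (nat_lit 540690962)]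
noncomputable def e41_53 : List Rx := [
  Rx.mk (nat_lit 476) (nat_lit 4) (nat_lit 3) (nat_lit 7) (nat_lit 6) (nat_lit 15) (nat_lit 128) r9_15 r4_128 (nat_lit 24741287) (nat_lit 0) (nat_lit 0) (nat_lit 0x8017985b4) (nat_lit 561612199),
  Rx.mk (nat_lit 477) (nat_lit 5) (nat_lit 3) (nat_lit 7) (nat_lit 7) (nat_lit 16) (nat_lit 129) r9_16 r4_129 (nat_lit 0) (nat_lit 0) (nat_lit 0) (nat_lit 0x8017985b4) (nat_lit 536870912),
  Rx.mk (nat_lit 479) (nat_lit 7) (nat_lit 3) (nat_lit 7) (nat_lit 7) (nat_lit 17) (nat_lit 130) r9_17 r4_130 (nat_lit 0) (nat_lit 0) (nat_lit 0) (nat_lit 0x8017985b4) (nat_lit 536870912)]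
noncomputable def e41_54 : List Rx := [
  Rx.mk (nat_lit 316) (nat_lit 4) (nat_lit 7) (nat_lit 4) (nat_lit 2) (nat_lit 136) (nat_lit 304) r9_136 r10_304 (nat_lit 40997444) (nat_lit 0) (nat_lit 28731315) (nat_lit 0x62fe769f4) (nat_lit 1076357921),
  Rx.mk (nat_lit 317) (nat_lit 5) (nat_lit 7) (nat_lit 4) (nat_lit 3) (nat_lit 137) (nat_lit 308) r9_137 r10_308 (nat_lit 0) (nat_lit 0) (nat_lit 24741287) (nat_lit 0x8017985b4) (nat_lit 561612199),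
  Rx.mk (nat_lit 444) (nat_lit 4) (nat_lit 7) (nat_lit 6) (nat_lit 6) (nat_lit 138) (nat_lit 307) r9_138 r10_307 (nat_lit 25252468) (nat_lit 0) (nat_lit 0) (nat_lit 0x7fd0be0b2) (nat_lit 566460430),
  Rx.mk (nat_lit 445) (nat_lit 5) (nat_lit 7) (nat_lit 6) (nat_lit 7) (nat_lit 139) (nat_lit 311) r9_139 r10_311 (nat_lit 0) (nat_lit 0) (nat_lit 0) (nat_lit 0x8017985b4) (nat_lit 536870912),
  Rx.mk (nat_lit 446) (nat_lit 6) (nat_lit 7) (nat_lit 6) (nat_lit 7) (nat_lit 140) (nat_lit 313) r9_140 r10_313 (nat_lit 0) (nat_lit 0) (nat_lit 0) (nat_lit 0x8017985b4) (nat_lit 536870912),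
  Rx.mk (nat_lit 476) (nat_lit 4) (nat_lit 3) (nat_lit 7) (nat_lit 6) (nat_lit 143) (nat_lit 306) r9_143 r10_306 (nat_lit 24741287) (nat_lit 0) (nat_lit 0) (nat_lit 0x7fffebc7c) (nat_lit 563058399),
  Rx.mk (nat_lit 477) (nat_lit 5) (nat_lit 3) (nat_lit 7) (nat_lit 7) (nat_lit 144) (nat_lit 310) r9_144 r10_310 (nat_lit 0) (nat_lit 0) (nat_lit 0) (nat_lit 0x8017985b4) (nat_lit 536870912),
  Rx.mk (nat_lit 479) (nat_lit 7) (nat_lit 3) (nat_lit 7) (nat_lit 7) (nat_lit 145) (nat_lit 312) r9_145 r10_312 (nat_lit 0) (nat_lit 0) (nat_lit 0) (nat_lit 0x8017985b4) (nat_lit 536870912),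
  Rx.mk (nat_lit 508) (nat_lit 4) (nat_lit 7) (nat_lit 7) (nat_lit 6) (nat_lit 141) (nat_lit 305) r9_141 r10_305 (nat_lit 24741287) (nat_lit 0) (nat_lit 0) (nat_lit 0x7fcd6a76c) (nat_lit 566141199),
  Rx.mk (nat_lit 509) (nat_lit 5) (nat_lit 7) (nat_lit 7) (nat_lit 7) (nat_lit 142) (nat_lit 309) r9_142 r10_309 (nat_lit 0) (nat_lit 0) (nat_lit 0) (nat_lit 0x8017985b4) (nat_lit 536870912)]
noncomputable def e41_55 : List Rx := [
  Rx.mk (nat_lit 476) (nat_lit 4) (nat_lit 3) (nat_lit 7) (nat_lit 6) (nat_lit 216) (nat_lit 330) r9_216 r11_330 (nat_lit 24741287) (nat_lit 0) (nat_lit 0) (nat_lit 0x8017985b4) (nat_lit 561612199),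
  Rx.mk (nat_lit 477) (nat_lit 5) (nat_lit 3) (nat_lit 7) (nat_lit 7) (nat_lit 217) (nat_lit 331) r9_217 r11_331 (nat_lit 0) (nat_lit 0) (nat_lit 0) (nat_lit 0x8017985b4) (nat_lit 536870912),
  Rx.mk (nat_lit 479) (nat_lit 7) (nat_lit 3) (nat_lit 7) (nat_lit 7) (nat_lit 218) (nat_lit 332) r9_218 r11_332 (nat_lit 0) (nat_lit 0) (nat_lit 0) (nat_lit 0x8017985b4) (nat_lit 536870912)]
noncomputable def e41_56 : List Rx := [
  Rx.mk (nat_lit 477) (nat_lit 5) (nat_lit 3) (nat_lit 7) (nat_lit 7) (nat_lit 18) (nat_lit 123) r9_18 r5_123 (nat_lit 0) (nat_lit 0) (nat_lit 0) (nat_lit 0x8017985b4) (nat_lit 536870912)]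
noncomputable def e41_57 : List Rx := [
  Rx.mk (nat_lit 477) (nat_lit 5) (nat_lit 3) (nat_lit 7) (nat_lit 7) (nat_lit 147) (nat_lit 123) r9_147 r11_123 (nat_lit 0) (nat_lit 0) (nat_lit 0) (nat_lit 0x8017985b4) (nat_lit 536870912),
  Rx.mk (nat_lit 509) (nat_lit 5) (nat_lit 7) (nat_lit 7) (nat_lit 7) (nat_lit 146) (nat_lit 124) r9_146 r11_124 (nat_lit 0) (nat_lit 0) (nat_lit 0) (nat_lit 0x8017985b4) (nat_lit 536870912)]
noncomputable def e41 : List (List Rx) := [e41_0, e41_1, e41_2, e41_3, e41_4, e41_5, e41_6, e41_7, e41_8, e41_9, e41_10, e41_11, e41_12, e41_13, e41_14, e41_15, e41_16, e41_17, e41_18, e41_19, e41_20, e41_21, e41_22, e41_23, e41_24, e41_25, e41_26, e41_27, e41_28, e41_29, e41_30, e41_31, e41_32, e41_33, e41_34, e41_35, e41_36, e41_37, e41_38, e41_39, e41_40, e41_41, e41_42, e41_43, e41_44, e41_45, e41_46, e41_47, e41_48, e41_49, e41_50, e41_51,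 e41_52, e41_53, e41_54, e41_55, e41_56, e41_57]
noncomputable def e42_0 : List Rx := [
  Rx.mk (nat_lit 1) (nat_lit 1) (nat_lit 0) (nat_lit 0) (nat_lit 1) (nat_lit 65) (nat_lit 262) r9_65 r0_262 (nat_lit 0) (nat_lit 111519439) (nat_lit 35271211) (nat_lit 0x580e92528) (nat_lit 1330276712),
  Rx.mk (nat_lit 193) (nat_lit 1) (nat_lit 0) (nat_lit 3) (nat_lit 5) (nat_lit 66) (nat_lit 263) r9_66 r0_263 (nat_lit 0) (nat_lit 42181634) (nat_lit 0) (nat_lit 0x7bc61b1a4) (nat_lit 648220246),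
  Rx.mk (nat_lit 217) (nat_lit 1) (nat_lit 3) (nat_lit 3) (nat_lit 7) (nat_lit 67) (nat_lit 264) r9_67 r0_264 (nat_lit 0) (nat_lit 0) (nat_lit 0) (nat_lit 0x7fcef5a96) (nat_lit 541322112)]
noncomputable def e42_1 : List Rx := [
  Rx.mk (nat_lit 1) (nat_lit 1) (nat_lit 0) (nat_lit 0) (nat_lit 1) (nat_lit 83) (nat_lit 269) r9_83 r1_269 (nat_lit 0) (nat_lit 134396714) (nat_lit 34355931) (nat_lit 0x734bda226) (nat_lit 911788807),
  Rx.mk (nat_lit 193) (nat_lit 1) (nat_lit 0) (nat_lit 3) (nat_lit 5) (nat_lit 84) (nat_lit 270) r9_84 r1_270 (nat_lit 0) (nat_lit 24741287) (nat_lit 0) (nat_lit 0x8008f717c) (nat_lit 562505199),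
  Rx.mk (nat_lit 217) (nat_lit 1) (nat_lit 3) (nat_lit 3) (nat_lit 7) (nat_lit 85) (nat_lit 271) r9_85 r1_271 (nat_lit 0) (nat_lit 0) (nat_lit 0) (nat_lit 0x8017985b4) (nat_lit 536870912)]
noncomputable def e42_2 : List Rx := [
  Rx.mk (nat_lit 1) (nat_lit 1) (nat_lit 0) (nat_lit 0) (nat_lit 1) (nat_lit 260) (nat_lit 289) r9_260 r2_289 (nat_lit 0) (nat_lit 40876841) (nat_lit 67893355) (nat_lit 0x6a127e06c) (nat_lit 1000948958),
  Rx.mk (nat_lit 25) (nat_lit 1) (nat_lit 3) (nat_lit 0) (nat_lit 3) (nat_lit 261) (nat_lit 292) r9_261 r2_292 (nat_lit 0) (nat_lit 0) (nat_lit 24741287) (nat_lit 0x8017985b4) (nat_lit 561612199),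
  Rx.mk (nat_lit 65) (nat_lit 1) (nat_lit 0) (nat_lit 1) (nat_lit 5) (nat_lit 262) (nat_lit 290) r9_262 r2_290 (nat_lit 0) (nat_lit 24603401) (nat_lit 0) (nat_lit 0x8007974d0) (nat_lit 562452963),
  Rx.mk (nat_lit 73) (nat_lit 1) (nat_lit 1) (nat_lit 1) (nat_lit 7) (nat_lit 263) (nat_lit 291) r9_263 r2_291 (nat_lit 0) (nat_lit 0) (nat_lit 0) (nat_lit 0x8017985b4) (nat_lit 536870912),
  Rx.mk (nat_lit 89) (nat_lit 1) (nat_lit 3) (nat_lit 1) (nat_lit 7) (nat_lit 264) (nat_lit 293) r9_264 r2_293 (nat_lit 0) (nat_lit 0) (nat_lit 0) (nat_lit 0x8017985b4) (nat_lit 536870912),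
  Rx.mk (nat_lit 217) (nat_lit 1) (nat_lit 3) (nat_lit 3) (nat_lit 7) (nat_lit 265) (nat_lit 294) r9_265 r2_294 (nat_lit 0) (nat_lit 0) (nat_lit 0) (nat_lit 0x8017985b4) (nat_lit 536870912)]
noncomputable def e42_3 : List Rx := [
  Rx.mk (nat_lit 473) (nat_lit 1) (nat_lit 3) (nat_lit 7) (nat_lit 7) (nat_lit 14) (nat_lit 261) r9_14 r3_261 (nat_lit 0) (nat_lit 0) (nat_lit 0) (nat_lit 0x7fce2024c) (nat_lit 541400812)]
noncomputable def e42_4 : List Rx := [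
  Rx.mk (nat_lit 193) (nat_lit 1) (nat_lit 0) (nat_lit 3) (nat_lit 5) (nat_lit 133) (nat_lit 276) r9_133 r4_276 (nat_lit 0) (nat_lit 24741287) (nat_lit 0) (nat_lit 0x80035e648) (nat_lit 562847599),
  Rx.mk (nat_lit 217) (nat_lit 1) (nat_lit 3) (nat_lit 3) (nat_lit 7) (nat_lit 134) (nat_lit 277) r9_134 r4_277 (nat_lit 0) (nat_lit 0) (nat_lit 0) (nat_lit 0x8017985b4) (nat_lit 536870912),
  Rx.mk (nat_lit 473) (nat_lit 1) (nat_lit 3) (nat_lit 7) (nat_lit 7) (nat_lit 135) (nat_lit 278) r9_135 r4_278 (nat_lit 0) (nat_lit 0) (nat_lit 0) (nat_lit 0x8017985b4) (nat_lit 536870912)]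
noncomputable def e42_5 : List Rx := [
  Rx.mk (nat_lit 473) (nat_lit 1) (nat_lit 3) (nat_lit 7) (nat_lit 7) (nat_lit 215) (nat_lit 266) r9_215 r5_266 (nat_lit 0) (nat_lit 0) (nat_lit 0) (nat_lit 0x7fd940442) (nat_lit 540690962)]
noncomputable def e42_6 : List Rx := [
  Rx.mk (nat_lit 321) (nat_lit 1) (nat_lit 0) (nat_lit 5) (nat_lit 5) (nat_lit 300) (nat_lit 296) r9_300 r3_296 (nat_lit 0) (nat_lit 36215805) (nat_lit 0) (nat_lit 0x6837b1e8a) (nat_lit 958320217),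
  Rx.mk (nat_lit 325) (nat_lit 5) (nat_lit 0) (nat_lit 5) (nat_lit 5) (nat_lit 301) (nat_lit 295) r9_301 r3_295 (nat_lit 0) (nat_lit 23806788) (nat_lit 0) (nat_lit 0x6530a0838) (nat_lit 994848200),
  Rx.mk (nat_lit 329) (nat_lit 1) (nat_lit 1) (nat_lit 5) (nat_lit 7) (nat_lit 302) (nat_lit 298) r9_302 r3_298 (nat_lit 0) (nat_lit 0) (nat_lit 0) (nat_lit 0x7f8a461c0) (nat_lit 545571162),
  Rx.mk (nat_lit 333) (nat_lit 5) (nat_lit 1) (nat_lit 5) (nat_lit 7) (nat_lit 303) (nat_lit 297) r9_303 r3_297 (nat_lit 0) (nat_lit 0) (nat_lit 0) (nat_lit 0x8017985b4) (nat_lit 536870912),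
  Rx.mk (nat_lit 345) (nat_lit 1) (nat_lit 3) (nat_lit 5) (nat_lit 7) (nat_lit 304) (nat_lit 299) r9_304 r3_299 (nat_lit 0) (nat_lit 0) (nat_lit 0) (nat_lit 0x7ded52914) (nat_lit 571323512)]
noncomputable def e42_7 : List Rx := [
  Rx.mk (nat_lit 65) (nat_lit 1) (nat_lit 0) (nat_lit 1) (nat_lit 5) (nat_lit 250) (nat_lit 295) r9_250 r0_295 (nat_lit 0) (nat_lit 25628035) (nat_lit 0) (nat_lit 0x7c71b8854) (nat_lit 620861597),
  Rx.mk (nat_lit 73) (nat_lit 1) (nat_lit 1) (nat_lit 1) (nat_lit 7) (nat_lit 251) (nat_lit 298) r9_251 r0_298 (nat_lit 0) (nat_lit 0) (nat_lit 0) (nat_lit 0x7fa3dbc34) (nat_lit 543982362),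
  Rx.mk (nat_lit 89) (nat_lit 1) (nat_lit 3) (nat_lit 1) (nat_lit 7) (nat_lit 252) (nat_lit 299) r9_252 r0_299 (nat_lit 0) (nat_lit 0) (nat_lit 0) (nat_lit 0x7fed20192) (nat_lit 539467362),
  Rx.mk (nat_lit 321) (nat_lit 1) (nat_lit 0) (nat_lit 5) (nat_lit 5) (nat_lit 253) (nat_lit 294) r9_253 r0_294 (nat_lit 0) (nat_lit 27813133) (nat_lit 0) (nat_lit 0x7ac35ec14) (nat_lit 650184545),
  Rx.mk (nat_lit 325) (nat_lit 5) (nat_lit 0) (nat_lit 5) (nat_lit 5) (nat_lit 254) (nat_lit 293) r9_254 r0_293 (nat_lit 0) (nat_lit 27880557) (nat_lit 0) (nat_lit 0x735c96bb4) (nat_lit 769863869),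
  Rx.mk (nat_lit 329) (nat_lit 1) (nat_lit 1) (nat_lit 5) (nat_lit 7) (nat_lit 255) (nat_lit 297) r9_255 r0_297 (nat_lit 0) (nat_lit 0) (nat_lit 0) (nat_lit 0x7fe5db210) (nat_lit 539920162),
  Rx.mk (nat_lit 333) (nat_lit 5) (nat_lit 1) (nat_lit 5) (nat_lit 7) (nat_lit 256) (nat_lit 296) r9_256 r0_296 (nat_lit 0) (nat_lit 0) (nat_lit 0) (nat_lit 0x7ff5e805e) (nat_lit 538935112)]
noncomputable def e42_8 : List Rx := [
  Rx.mk (nat_lit 65) (nat_lit 1) (nat_lit 0) (nat_lit 1) (nat_lit 5) (nat_lit 286) (nat_lit 290) r9_286 r1_290 (nat_lit 0) (nat_lit 24741287) (nat_lit 0) (nat_lit 0x7fa9dd1b4) (nat_lit 568325299),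
  Rx.mk (nat_lit 73) (nat_lit 1) (nat_lit 1) (nat_lit 1) (nat_lit 7) (nat_lit 287) (nat_lit 291) r9_287 r1_291 (nat_lit 0) (nat_lit 0) (nat_lit 0) (nat_lit 0x8017985b4) (nat_lit 536870912),
  Rx.mk (nat_lit 89) (nat_lit 1) (nat_lit 3) (nat_lit 1) (nat_lit 7) (nat_lit 288) (nat_lit 292) r9_288 r1_292 (nat_lit 0) (nat_lit 0) (nat_lit 0) (nat_lit 0x8017985b4) (nat_lit 536870912)]
noncomputable def e42_9 : List Rx := [
  Rx.mk (nat_lit 89) (nat_lit 1) (nat_lit 3) (nat_lit 1) (nat_lit 7) (nat_lit 311) (nat_lit 314) r9_311 r4_314 (nat_lit 0) (nat_lit 0) (nat_lit 0) (nat_lit 0x8017985b4) (nat_lit 536870912),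
  Rx.mk (nat_lit 321) (nat_lit 1) (nat_lit 0) (nat_lit 5) (nat_lit 5) (nat_lit 312) (nat_lit 310) r9_312 r4_310 (nat_lit 0) (nat_lit 30557758) (nat_lit 0) (nat_lit 0x7f457f316) (nat_lit 580390720),
  Rx.mk (nat_lit 325) (nat_lit 5) (nat_lit 0) (nat_lit 5) (nat_lit 5) (nat_lit 313) (nat_lit 309) r9_313 r4_309 (nat_lit 0) (nat_lit 47490513) (nat_lit 0) (nat_lit 0x7c0f81f64) (nat_lit 648924525),
  Rx.mk (nat_lit 329) (nat_lit 1) (nat_lit 1) (nat_lit 5) (nat_lit 7) (nat_lit 314) (nat_lit 312) r9_314 r4_312 (nat_lit 0) (nat_lit 0) (nat_lit 0) (nat_lit 0x8017985b4) (nat_lit 536870912),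
  Rx.mk (nat_lit 333) (nat_lit 5) (nat_lit 1) (nat_lit 5) (nat_lit 7) (nat_lit 315) (nat_lit 311) r9_315 r4_311 (nat_lit 0) (nat_lit 0) (nat_lit 0) (nat_lit 0x8017985b4) (nat_lit 536870912),
  Rx.mk (nat_lit 345) (nat_lit 1) (nat_lit 3) (nat_lit 5) (nat_lit 7) (nat_lit 316) (nat_lit 313) r9_316 r4_313 (nat_lit 0) (nat_lit 0) (nat_lit 0) (nat_lit 0x8017985b4) (nat_lit 536870912)]
noncomputable def e42_10 : List Rx := [
  Rx.mk (nat_lit 281) (nat_lit 1) (nat_lit 3) (nat_lit 4) (nat_lit 3) (nat_lit 241) (nat_lit 295) r9_241 r6_295 (nat_lit 0) (nat_lit 0) (nat_lit 25123569) (nat_lit 0x7f345289a) (nat_lit 575983031),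
  Rx.mk (nat_lit 345) (nat_lit 1) (nat_lit 3) (nat_lit 5) (nat_lit 7) (nat_lit 242) (nat_lit 296) r9_242 r6_296 (nat_lit 0) (nat_lit 0) (nat_lit 0) (nat_lit 0x8017985b4) (nat_lit 536870912),
  Rx.mk (nat_lit 473) (nat_lit 1) (nat_lit 3) (nat_lit 7) (nat_lit 7) (nat_lit 243) (nat_lit 297) r9_243 r6_297 (nat_lit 0) (nat_lit 0) (nat_lit 0) (nat_lit 0x8017985b4) (nat_lit 536870912)]
noncomputable def e42_11 : List Rx := [
  Rx.mk (nat_lit 321) (nat_lit 1) (nat_lit 0) (nat_lit 5) (nat_lit 5) (nat_lit 324) (nat_lit 290) r9_324 r5_290 (nat_lit 0) (nat_lit 26942027) (nat_lit 0) (nat_lit 0x7e5860594) (nat_lit 591515239),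
  Rx.mk (nat_lit 329) (nat_lit 1) (nat_lit 1) (nat_lit 5) (nat_lit 7) (nat_lit 325) (nat_lit 291) r9_325 r5_291 (nat_lit 0) (nat_lit 0) (nat_lit 0) (nat_lit 0x7ff2ca070) (nat_lit 539127012),
  Rx.mk (nat_lit 345) (nat_lit 1) (nat_lit 3) (nat_lit 5) (nat_lit 7) (nat_lit 326) (nat_lit 292) r9_326 r5_292 (nat_lit 0) (nat_lit 0) (nat_lit 0) (nat_lit 0x8017985b4) (nat_lit 536870912)]
noncomputable def e42_12 : List Rx := [
  Rx.mk (nat_lit 475) (nat_lit 3) (nat_lit 3) (nat_lit 7) (nat_lit 7) (nat_lit 0) (nat_lit 141) r9_0 r0_141 (nat_lit 0) (nat_lit 0) (nat_lit 0) (nat_lit 0x7fe34c40e) (nat_lit 540076362)]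
noncomputable def e42_13 : List Rx := [
  Rx.mk (nat_lit 0) (nat_lit 0) (nat_lit 0) (nat_lit 0) (nat_lit 0) (nat_lit 68) (nat_lit 366) r9_68 r7_366 (nat_lit 12221267) (nat_lit 53728367) (nat_lit 12174851) (nat_lit 0x38c2f41c6) (nat_lit 1767626247),
  Rx.mk (nat_lit 1) (nat_lit 1) (nat_lit 0) (nat_lit 0) (nat_lit 1) (nat_lit 69) (nat_lit 371) r9_69 r7_371 (nat_lit 0) (nat_lit 49319051) (nat_lit 28898569) (nat_lit 0x6539461d6) (nat_lit 1048798182),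
  Rx.mk (nat_lit 16) (nat_lit 0) (nat_lit 2) (nat_lit 0) (nat_lit 2) (nat_lit 70) (nat_lit 369) r9_70 r7_369 (nat_lit 25388524) (nat_lit 0) (nat_lit 23888514) (nat_lit 0x66b5a08de) (nat_lit 995832150),
  Rx.mk (nat_lit 17) (nat_lit 1) (nat_lit 2) (nat_lit 0) (nat_lit 3) (nat_lit 71) (nat_lit 374) r9_71 r7_374 (nat_lit 0) (nat_lit 0) (nat_lit 24741287) (nat_lit 0x7fff7117a) (nat_lit 563091449),
  Rx.mk (nat_lit 18) (nat_lit 2) (nat_lit 2) (nat_lit 0) (nat_lit 3) (nat_lit 72) (nat_lit 378) r9_72 r7_378 (nat_lit 0) (nat_lit 0) (nat_lit 24741287) (nat_lit 0x800788c14) (nat_lit 562595399),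
  Rx.mk (nat_lit 146) (nat_lit 2) (nat_lit 2) (nat_lit 2) (nat_lit 7) (nat_lit 73) (nat_lit 380) r9_73 r7_380 (nat_lit 0) (nat_lit 0) (nat_lit 0) (nat_lit 0x8017985b4) (nat_lit 536870912),
  Rx.mk (nat_lit 192) (nat_lit 0) (nat_lit 0) (nat_lit 3) (nat_lit 4) (nat_lit 74) (nat_lit 367) r9_74 r7_367 (nat_lit 27374180) (nat_lit 24913710) (nat_lit 0) (nat_lit 0x629c47274) (nat_lit 1065121602),
  Rx.mk (nat_lit 193) (nat_lit 1) (nat_lit 0) (nat_lit 3) (nat_lit 5) (nat_lit 75) (nat_lit 372) r9_75 r7_372 (nat_lit 0) (nat_lit 24624079) (nat_lit 0) (nat_lit 0x8009fe8fe) (nat_lit 562326791),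
  Rx.mk (nat_lit 208) (nat_lit 0) (nat_lit 2) (nat_lit 3) (nat_lit 6) (nat_lit 76) (nat_lit 370) r9_76 r7_370 (nat_lit 24741287) (nat_lit 0) (nat_lit 0) (nat_lit 0x80064b5b8) (nat_lit 562671499),
  Rx.mk (nat_lit 209) (nat_lit 1) (nat_lit 2) (nat_lit 3) (nat_lit 7) (nat_lit 77) (nat_lit 375) r9_77 r7_375 (nat_lit 0) (nat_lit 0) (nat_lit 0) (nat_lit 0x8017985b4) (nat_lit 536870912),
  Rx.mk (nat_lit 210) (nat_lit 2) (nat_lit 2) (nat_lit 3) (nat_lit 7) (nat_lit 78) (nat_lit 379) r9_78 r7_379 (nat_lit 0) (nat_lit 0) (nat_lit 0) (nat_lit 0x8017985b4) (nat_lit 536870912),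
  Rx.mk (nat_lit 216) (nat_lit 0) (nat_lit 3) (nat_lit 3) (nat_lit 6) (nat_lit 79) (nat_lit 368) r9_79 r7_368 (nat_lit 24741287) (nat_lit 0) (nat_lit 0) (nat_lit 0x7fe3cd14e) (nat_lit 564781099),
  Rx.mk (nat_lit 217) (nat_lit 1) (nat_lit 3) (nat_lit 3) (nat_lit 7) (nat_lit 80) (nat_lit 373) r9_80 r7_373 (nat_lit 0) (nat_lit 0) (nat_lit 0) (nat_lit 0x8017985b4) (nat_lit 536870912),
  Rx.mk (nat_lit 219) (nat_lit 3) (nat_lit 3) (nat_lit 3) (nat_lit 7) (nat_lit 81) (nat_lit 376) r9_81 r7_376 (nat_lit 0) (nat_lit 0) (nat_lit 0) (nat_lit 0x8017985b4) (nat_lit 536870912),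
  Rx.mk (nat_lit 475) (nat_lit 3) (nat_lit 3) (nat_lit 7) (nat_lit 7) (nat_lit 82) (nat_lit 377) r9_82 r7_377 (nat_lit 0) (nat_lit 0) (nat_lit 0) (nat_lit 0x8017985b4) (nat_lit 536870912)]
noncomputable def e42_14 : List Rx := [
  Rx.mk (nat_lit 475) (nat_lit 3) (nat_lit 3) (nat_lit 7) (nat_lit 7) (nat_lit 1) (nat_lit 153) r9_1 r1_153 (nat_lit 0) (nat_lit 0) (nat_lit 0) (nat_lit 0x8017985b4) (nat_lit 536870912)]
noncomputable def e42_15 : List Rx := [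
  Rx.mk (nat_lit 0) (nat_lit 0) (nat_lit 0) (nat_lit 0) (nat_lit 0) (nat_lit 99) (nat_lit 273) r9_99 r8_273 (nat_lit 15284300) (nat_lit 46447449) (nat_lit 18790511) (nat_lit 0x3cee725c4) (nat_lit 1702614672),
  Rx.mk (nat_lit 16) (nat_lit 0) (nat_lit 2) (nat_lit 0) (nat_lit 2) (nat_lit 100) (nat_lit 276) r9_100 r8_276 (nat_lit 26650245) (nat_lit 0) (nat_lit 23999425) (nat_lit 0x66dd7892e) (nat_lit 994688732),
  Rx.mk (nat_lit 18) (nat_lit 2) (nat_lit 2) (nat_lit 0) (nat_lit 3) (nat_lit 101) (nat_lit 280) r9_101 r8_280 (nat_lit 0) (nat_lit 0) (nat_lit 24741287) (nat_lit 0x7ff1b40e6) (nat_lit 563929249),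
  Rx.mk (nat_lit 146) (nat_lit 2) (nat_lit 2) (nat_lit 2) (nat_lit 7) (nat_lit 102) (nat_lit 282) r9_102 r8_282 (nat_lit 0) (nat_lit 0) (nat_lit 0) (nat_lit 0x8017985b4) (nat_lit 536870912),
  Rx.mk (nat_lit 192) (nat_lit 0) (nat_lit 0) (nat_lit 3) (nat_lit 4) (nat_lit 103) (nat_lit 274) r9_103 r8_274 (nat_lit 24950323) (nat_lit 23607638) (nat_lit 0) (nat_lit 0x64fca11c2) (nat_lit 1022966473),
  Rx.mk (nat_lit 208) (nat_lit 0) (nat_lit 2) (nat_lit 3) (nat_lit 6) (nat_lit 104) (nat_lit 277) r9_104 r8_277 (nat_lit 24488988) (nat_lit 0) (nat_lit 0) (nat_lit 0x7ff6155ae) (nat_lit 563408300),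
  Rx.mk (nat_lit 210) (nat_lit 2) (nat_lit 2) (nat_lit 3) (nat_lit 7) (nat_lit 105) (nat_lit 281) r9_105 r8_281 (nat_lit 0) (nat_lit 0) (nat_lit 0) (nat_lit 0x8017985b4) (nat_lit 536870912),
  Rx.mk (nat_lit 216) (nat_lit 0) (nat_lit 3) (nat_lit 3) (nat_lit 6) (nat_lit 106) (nat_lit 275) r9_106 r8_275 (nat_lit 24741287) (nat_lit 0) (nat_lit 0) (nat_lit 0x800b35984) (nat_lit 562371349),
  Rx.mk (nat_lit 219) (nat_lit 3) (nat_lit 3) (nat_lit 3) (nat_lit 7) (nat_lit 107) (nat_lit 278) r9_107 r8_278 (nat_lit 0) (nat_lit 0) (nat_lit 0) (nat_lit 0x8017985b4) (nat_lit 536870912),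
  Rx.mk (nat_lit 475) (nat_lit 3) (nat_lit 3) (nat_lit 7) (nat_lit 7) (nat_lit 108) (nat_lit 279) r9_108 r8_279 (nat_lit 0) (nat_lit 0) (nat_lit 0) (nat_lit 0x8017985b4) (nat_lit 536870912)]
noncomputable def e42_16 : List Rx := [
  Rx.mk (nat_lit 0) (nat_lit 0) (nat_lit 0) (nat_lit 0) (nat_lit 0) (nat_lit 86) (nat_lit 133) r9_86 r8_133 (nat_lit 18637644) (nat_lit 94967087) (nat_lit 17870946) (nat_lit 0x4127ec576) (nat_lit 1685261939),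
  Rx.mk (nat_lit 1) (nat_lit 1) (nat_lit 0) (nat_lit 0) (nat_lit 1) (nat_lit 87) (nat_lit 134) r9_87 r8_134 (nat_lit 0) (nat_lit 82173125) (nat_lit 26394436) (nat_lit 0x6a21a438e) (nat_lit 999789173),
  Rx.mk (nat_lit 16) (nat_lit 0) (nat_lit 2) (nat_lit 0) (nat_lit 2) (nat_lit 88) (nat_lit 135) r9_88 r8_135 (nat_lit 29365924) (nat_lit 0) (nat_lit 24700278) (nat_lit 0x6a57b692c) (nat_lit 941876114),
  Rx.mk (nat_lit 17) (nat_lit 1) (nat_lit 2) (nat_lit 0) (nat_lit 3) (nat_lit 89) (nat_lit 136) r9_89 r8_136 (nat_lit 0) (nat_lit 0) (nat_lit 24741287) (nat_lit 0x8017985b4) (nat_lit 561612199),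
  Rx.mk (nat_lit 18) (nat_lit 2) (nat_lit 2) (nat_lit 0) (nat_lit 3) (nat_lit 90) (nat_lit 137) r9_90 r8_137 (nat_lit 0) (nat_lit 0) (nat_lit 24741287) (nat_lit 0x7fffb92e0) (nat_lit 563069249),
  Rx.mk (nat_lit 146) (nat_lit 2) (nat_lit 2) (nat_lit 2) (nat_lit 7) (nat_lit 91) (nat_lit 145) r9_91 r8_145 (nat_lit 0) (nat_lit 0) (nat_lit 0) (nat_lit 0x8017985b4) (nat_lit 536870912),
  Rx.mk (nat_lit 192) (nat_lit 0) (nat_lit 0) (nat_lit 3) (nat_lit 4) (nat_lit 92) (nat_lit 138) r9_92 r8_138 (nat_lit 35165148) (nat_lit 23390390) (nat_lit 0) (nat_lit 0x65db9d3f8) (nat_lit 1018879500),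
  Rx.mk (nat_lit 193) (nat_lit 1) (nat_lit 0) (nat_lit 3) (nat_lit 5) (nat_lit 93) (nat_lit 139) r9_93 r8_139 (nat_lit 0) (nat_lit 24741287) (nat_lit 0) (nat_lit 0x8017985b4) (nat_lit 561612199),
  Rx.mk (nat_lit 208) (nat_lit 0) (nat_lit 2) (nat_lit 3) (nat_lit 6) (nat_lit 94) (nat_lit 143) r9_94 r8_143 (nat_lit 24489661) (nat_lit 0) (nat_lit 0) (nat_lit 0x7ffa8f6de) (nat_lit 563135273),
  Rx.mk (nat_lit 209) (nat_lit 1) (nat_lit 2) (nat_lit 3) (nat_lit 7) (nat_lit 95) (nat_lit 144) r9_95 r8_144 (nat_lit 0) (nat_lit 0) (nat_lit 0) (nat_lit 0x8017985b4) (nat_lit 536870912),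
  Rx.mk (nat_lit 216) (nat_lit 0) (nat_lit 3) (nat_lit 3) (nat_lit 6) (nat_lit 96) (nat_lit 140) r9_96 r8_140 (nat_lit 24741287) (nat_lit 0) (nat_lit 0) (nat_lit 0x8017985b4) (nat_lit 561612199),
  Rx.mk (nat_lit 217) (nat_lit 1) (nat_lit 3) (nat_lit 3) (nat_lit 7) (nat_lit 97) (nat_lit 141) r9_97 r8_141 (nat_lit 0) (nat_lit 0) (nat_lit 0) (nat_lit 0x8017985b4) (nat_lit 536870912),
  Rx.mk (nat_lit 219) (nat_lit 3) (nat_lit 3) (nat_lit 3) (nat_lit 7) (nat_lit 98) (nat_lit 142) r9_98 r8_142 (nat_lit 0) (nat_lit 0) (nat_lit 0) (nat_lit 0x8017985b4) (nat_lit 536870912)]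
noncomputable def e42_17 : List Rx := [
  Rx.mk (nat_lit 0) (nat_lit 0) (nat_lit 0) (nat_lit 0) (nat_lit 0) (nat_lit 267) (nat_lit 267) r9_267 r9_267 (nat_lit 19947850) (nat_lit 112948378) (nat_lit 19947850) (nat_lit 0x42f38d800) (nat_lit 1677613190),
  Rx.mk (nat_lit 1) (nat_lit 1) (nat_lit 0) (nat_lit 0) (nat_lit 1) (nat_lit 268) (nat_lit 274) r9_268 r9_274 (nat_lit 0) (nat_lit 36644786) (nat_lit 58482756) (nat_lit 0x665409c74) (nat_lit 1047842904),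
  Rx.mk (nat_lit 16) (nat_lit 0) (nat_lit 2) (nat_lit 0) (nat_lit 2) (nat_lit 269) (nat_lit 272) r9_269 r9_272 (nat_lit 33468687) (nat_lit 0) (nat_lit 40541115) (nat_lit 0x6c692da82) (nat_lit 928375014),
  Rx.mk (nat_lit 17) (nat_lit 1) (nat_lit 2) (nat_lit 0) (nat_lit 3) (nat_lit 270) (nat_lit 280) r9_270 r9_280 (nat_lit 0) (nat_lit 0) (nat_lit 24741287) (nat_lit 0x8017985b4) (nat_lit 561612199),
  Rx.mk (nat_lit 18) (nat_lit 2) (nat_lit 2) (nat_lit 0) (nat_lit 3) (nat_lit 271) (nat_lit 283) r9_271 r9_283 (nat_lit 0) (nat_lit 0) (nat_lit 24741287) (nat_lit 0x8017985b4) (nat_lit 561612199),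
  Rx.mk (nat_lit 24) (nat_lit 0) (nat_lit 3) (nat_lit 0) (nat_lit 2) (nat_lit 272) (nat_lit 269) r9_272 r9_269 (nat_lit 40541115) (nat_lit 0) (nat_lit 33468687) (nat_lit 0x6c692da82) (nat_lit 928375014),
  Rx.mk (nat_lit 25) (nat_lit 1) (nat_lit 3) (nat_lit 0) (nat_lit 3) (nat_lit 273) (nat_lit 277) r9_273 r9_277 (nat_lit 0) (nat_lit 0) (nat_lit 24741287) (nat_lit 0x8017985b4) (nat_lit 561612199),
  Rx.mk (nat_lit 64) (nat_lit 0) (nat_lit 0) (nat_lit 1) (nat_lit 4) (nat_lit 274) (nat_lit 268) r9_274 r9_268 (nat_lit 58482756) (nat_lit 36644786) (nat_lit 0) (nat_lit 0x665409c74) (nat_lit 1047842904),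
  Rx.mk (nat_lit 65) (nat_lit 1) (nat_lit 0) (nat_lit 1) (nat_lit 5) (nat_lit 275) (nat_lit 275) r9_275 r9_275 (nat_lit 0) (nat_lit 24741287) (nat_lit 0) (nat_lit 0x8017985b4) (nat_lit 561612199),
  Rx.mk (nat_lit 73) (nat_lit 1) (nat_lit 1) (nat_lit 1) (nat_lit 7) (nat_lit 276) (nat_lit 276) r9_276 r9_276 (nat_lit 0) (nat_lit 0) (nat_lit 0) (nat_lit 0x8017985b4) (nat_lit 536870912),
  Rx.mk (nat_lit 80) (nat_lit 0) (nat_lit 2) (nat_lit 1) (nat_lit 6) (nat_lit 277) (nat_lit 273) r9_277 r9_273 (nat_lit 24741287) (nat_lit 0) (nat_lit 0) (nat_lit 0x8017985b4) (nat_lit 561612199),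
  Rx.mk (nat_lit 81) (nat_lit 1) (nat_lit 2) (nat_lit 1) (nat_lit 7) (nat_lit 278) (nat_lit 281) r9_278 r9_281 (nat_lit 0) (nat_lit 0) (nat_lit 0) (nat_lit 0x8017985b4) (nat_lit 536870912),
  Rx.mk (nat_lit 82) (nat_lit 2) (nat_lit 2) (nat_lit 1) (nat_lit 7) (nat_lit 279) (nat_lit 284) r9_279 r9_284 (nat_lit 0) (nat_lit 0) (nat_lit 0) (nat_lit 0x8017985b4) (nat_lit 536870912),
  Rx.mk (nat_lit 88) (nat_lit 0) (nat_lit 3) (nat_lit 1) (nat_lit 6) (nat_lit 280) (nat_lit 270) r9_280 r9_270 (nat_lit 24741287) (nat_lit 0) (nat_lit 0) (nat_lit 0x8017985b4) (nat_lit 561612199),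
  Rx.mk (nat_lit 89) (nat_lit 1) (nat_lit 3) (nat_lit 1) (nat_lit 7) (nat_lit 281) (nat_lit 278) r9_281 r9_278 (nat_lit 0) (nat_lit 0) (nat_lit 0) (nat_lit 0x8017985b4) (nat_lit 536870912),
  Rx.mk (nat_lit 146) (nat_lit 2) (nat_lit 2) (nat_lit 2) (nat_lit 7) (nat_lit 282) (nat_lit 285) r9_282 r9_285 (nat_lit 0) (nat_lit 0) (nat_lit 0) (nat_lit 0x8017985b4) (nat_lit 536870912),
  Rx.mk (nat_lit 216) (nat_lit 0) (nat_lit 3) (nat_lit 3) (nat_lit 6) (nat_lit 283) (nat_lit 271) r9_283 r9_271 (nat_lit 24741287) (nat_lit 0) (nat_lit 0) (nat_lit 0x8017985b4) (nat_lit 561612199),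
  Rx.mk (nat_lit 217) (nat_lit 1) (nat_lit 3) (nat_lit 3) (nat_lit 7) (nat_lit 284) (nat_lit 279) r9_284 r9_279 (nat_lit 0) (nat_lit 0) (nat_lit 0) (nat_lit 0x8017985b4) (nat_lit 536870912),
  Rx.mk (nat_lit 219) (nat_lit 3) (nat_lit 3) (nat_lit 3) (nat_lit 7) (nat_lit 285) (nat_lit 282) r9_285 r9_282 (nat_lit 0) (nat_lit 0) (nat_lit 0) (nat_lit 0x8017985b4) (nat_lit 536870912)]
noncomputable def e42_18 : List Rx := [
  Rx.mk (nat_lit 472) (nat_lit 0) (nat_lit 3) (nat_lit 7) (nat_lit 6) (nat_lit 15) (nat_lit 128) r9_15 r4_128 (nat_lit 24741287) (nat_lit 0) (nat_lit 0) (nat_lit 0x8017985b4) (nat_lit 561612199),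
  Rx.mk (nat_lit 473) (nat_lit 1) (nat_lit 3) (nat_lit 7) (nat_lit 7) (nat_lit 16) (nat_lit 129) r9_16 r4_129 (nat_lit 0) (nat_lit 0) (nat_lit 0) (nat_lit 0x8017985b4) (nat_lit 536870912),
  Rx.mk (nat_lit 475) (nat_lit 3) (nat_lit 3) (nat_lit 7) (nat_lit 7) (nat_lit 17) (nat_lit 130) r9_17 r4_130 (nat_lit 0) (nat_lit 0) (nat_lit 0) (nat_lit 0x8017985b4) (nat_lit 536870912)]
noncomputable def e42_19 : List Rx := [
  Rx.mk (nat_lit 192) (nat_lit 0) (nat_lit 0) (nat_lit 3) (nat_lit 4) (nat_lit 136) (nat_lit 304) r9_136 r10_304 (nat_lit 40997444) (nat_lit 28731315) (nat_lit 0) (nat_lit 0x62fe769f4) (nat_lit 1076357921),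
  Rx.mk (nat_lit 193) (nat_lit 1) (nat_lit 0) (nat_lit 3) (nat_lit 5) (nat_lit 137) (nat_lit 308) r9_137 r10_308 (nat_lit 0) (nat_lit 24741287) (nat_lit 0) (nat_lit 0x8017985b4) (nat_lit 561612199),
  Rx.mk (nat_lit 208) (nat_lit 0) (nat_lit 2) (nat_lit 3) (nat_lit 6) (nat_lit 138) (nat_lit 307) r9_138 r10_307 (nat_lit 25252468) (nat_lit 0) (nat_lit 0) (nat_lit 0x7fd0be0b2) (nat_lit 566460430),
  Rx.mk (nat_lit 209) (nat_lit 1) (nat_lit 2) (nat_lit 3) (nat_lit 7) (nat_lit 139) (nat_lit 311) r9_139 r10_311 (nat_lit 0) (nat_lit 0) (nat_lit 0) (nat_lit 0x8017985b4) (nat_lit 536870912),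
  Rx.mk (nat_lit 210) (nat_lit 2) (nat_lit 2) (nat_lit 3) (nat_lit 7) (nat_lit 140) (nat_lit 313) r9_140 r10_313 (nat_lit 0) (nat_lit 0) (nat_lit 0) (nat_lit 0x8017985b4) (nat_lit 536870912),
  Rx.mk (nat_lit 216) (nat_lit 0) (nat_lit 3) (nat_lit 3) (nat_lit 6) (nat_lit 141) (nat_lit 305) r9_141 r10_305 (nat_lit 24741287) (nat_lit 0) (nat_lit 0) (nat_lit 0x7fcd6a76c) (nat_lit 566141199),
  Rx.mk (nat_lit 217) (nat_lit 1) (nat_lit 3) (nat_lit 3) (nat_lit 7) (nat_lit 142) (nat_lit 309) r9_142 r10_309 (nat_lit 0) (nat_lit 0) (nat_lit 0) (nat_lit 0x8017985b4) (nat_lit 536870912),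
  Rx.mk (nat_lit 472) (nat_lit 0) (nat_lit 3) (nat_lit 7) (nat_lit 6) (nat_lit 143) (nat_lit 306) r9_143 r10_306 (nat_lit 24741287) (nat_lit 0) (nat_lit 0) (nat_lit 0x7fffebc7c) (nat_lit 563058399),
  Rx.mk (nat_lit 473) (nat_lit 1) (nat_lit 3) (nat_lit 7) (nat_lit 7) (nat_lit 144) (nat_lit 310) r9_144 r10_310 (nat_lit 0) (nat_lit 0) (nat_lit 0) (nat_lit 0x8017985b4) (nat_lit 536870912),
  Rx.mk (nat_lit 475) (nat_lit 3) (nat_lit 3) (nat_lit 7) (nat_lit 7) (nat_lit 145) (nat_lit 312) r9_145 r10_312 (nat_lit 0) (nat_lit 0) (nat_lit 0) (nat_lit 0x8017985b4) (nat_lit 536870912)]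
noncomputable def e42_20 : List Rx := [
  Rx.mk (nat_lit 472) (nat_lit 0) (nat_lit 3) (nat_lit 7) (nat_lit 6) (nat_lit 216) (nat_lit 330) r9_216 r11_330 (nat_lit 24741287) (nat_lit 0) (nat_lit 0) (nat_lit 0x8017985b4) (nat_lit 561612199),
  Rx.mk (nat_lit 473) (nat_lit 1) (nat_lit 3) (nat_lit 7) (nat_lit 7) (nat_lit 217) (nat_lit 331) r9_217 r11_331 (nat_lit 0) (nat_lit 0) (nat_lit 0) (nat_lit 0x8017985b4) (nat_lit 536870912),
  Rx.mk (nat_lit 475) (nat_lit 3) (nat_lit 3) (nat_lit 7) (nat_lit 7) (nat_lit 218) (nat_lit 332) r9_218 r11_332 (nat_lit 0) (nat_lit 0) (nat_lit 0) (nat_lit 0x8017985b4) (nat_lit 536870912)]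
noncomputable def e42_21 : List Rx := [
  Rx.mk (nat_lit 73) (nat_lit 1) (nat_lit 1) (nat_lit 1) (nat_lit 7) (nat_lit 266) (nat_lit 299) r9_266 r9_299 (nat_lit 0) (nat_lit 0) (nat_lit 0) (nat_lit 0x8017985b4) (nat_lit 536870912)]
noncomputable def e42_22 : List Rx := [
  Rx.mk (nat_lit 329) (nat_lit 1) (nat_lit 1) (nat_lit 5) (nat_lit 7) (nat_lit 248) (nat_lit 291) r9_248 r0_291 (nat_lit 0) (nat_lit 0) (nat_lit 0) (nat_lit 0x7f706cec0) (nat_lit 547165662),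
  Rx.mk (nat_lit 333) (nat_lit 5) (nat_lit 1) (nat_lit 5) (nat_lit 7) (nat_lit 249) (nat_lit 292) r9_249 r0_292 (nat_lit 0) (nat_lit 0) (nat_lit 0) (nat_lit 0x7fa7f11e8) (nat_lit 543731812)]
noncomputable def e42_23 : List Rx := [
  Rx.mk (nat_lit 329) (nat_lit 1) (nat_lit 1) (nat_lit 5) (nat_lit 7) (nat_lit 290) (nat_lit 287) r9_290 r1_287 (nat_lit 0) (nat_lit 0) (nat_lit 0) (nat_lit 0x8017985b4) (nat_lit 536870912),
  Rx.mk (nat_lit 333) (nat_lit 5) (nat_lit 1) (nat_lit 5) (nat_lit 7) (nat_lit 291) (nat_lit 288) r9_291 r1_288 (nat_lit 0) (nat_lit 0) (nat_lit 0) (nat_lit 0x8017985b4) (nat_lit 536870912),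
  Rx.mk (nat_lit 365) (nat_lit 5) (nat_lit 5) (nat_lit 5) (nat_lit 7) (nat_lit 292) (nat_lit 289) r9_292 r1_289 (nat_lit 0) (nat_lit 0) (nat_lit 0) (nat_lit 0x8017985b4) (nat_lit 536870912)]
noncomputable def e42_24 : List Rx := [
  Rx.mk (nat_lit 329) (nat_lit 1) (nat_lit 1) (nat_lit 5) (nat_lit 7) (nat_lit 305) (nat_lit 307) r9_305 r4_307 (nat_lit 0) (nat_lit 0) (nat_lit 0) (nat_lit 0x8017985b4) (nat_lit 536870912),
  Rx.mk (nat_lit 333) (nat_lit 5) (nat_lit 1) (nat_lit 5) (nat_lit 7) (nat_lit 306) (nat_lit 308) r9_306 r4_308 (nat_lit 0) (nat_lit 0) (nat_lit 0) (nat_lit 0x8017985b4) (nat_lit 536870912)]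
noncomputable def e42_25 : List Rx := [
  Rx.mk (nat_lit 73) (nat_lit 1) (nat_lit 1) (nat_lit 1) (nat_lit 7) (nat_lit 257) (nat_lit 411) r9_257 r7_411 (nat_lit 0) (nat_lit 0) (nat_lit 0) (nat_lit 0x8017985b4) (nat_lit 536870912),
  Rx.mk (nat_lit 329) (nat_lit 1) (nat_lit 1) (nat_lit 5) (nat_lit 7) (nat_lit 258) (nat_lit 410) r9_258 r7_410 (nat_lit 0) (nat_lit 0) (nat_lit 0) (nat_lit 0x8017985b4) (nat_lit 536870912),
  Rx.mk (nat_lit 333) (nat_lit 5) (nat_lit 1) (nat_lit 5) (nat_lit 7) (nat_lit 259) (nat_lit 409) r9_259 r7_409 (nat_lit 0) (nat_lit 0) (nat_lit 0) (nat_lit 0x8017985b4) (nat_lit 536870912)]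
noncomputable def e42_26 : List Rx := [
  Rx.mk (nat_lit 73) (nat_lit 1) (nat_lit 1) (nat_lit 1) (nat_lit 7) (nat_lit 294) (nat_lit 330) r9_294 r8_330 (nat_lit 0) (nat_lit 0) (nat_lit 0) (nat_lit 0x8017985b4) (nat_lit 536870912),
  Rx.mk (nat_lit 329) (nat_lit 1) (nat_lit 1) (nat_lit 5) (nat_lit 7) (nat_lit 295) (nat_lit 329) r9_295 r8_329 (nat_lit 0) (nat_lit 0) (nat_lit 0) (nat_lit 0x8017985b4) (nat_lit 536870912),
  Rx.mk (nat_lit 333) (nat_lit 5) (nat_lit 1) (nat_lit 5) (nat_lit 7) (nat_lit 296) (nat_lit 328) r9_296 r8_328 (nat_lit 0) (nat_lit 0) (nat_lit 0) (nat_lit 0x8017985b4) (nat_lit 536870912),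
  Rx.mk (nat_lit 365) (nat_lit 5) (nat_lit 5) (nat_lit 5) (nat_lit 7) (nat_lit 297) (nat_lit 327) r9_297 r8_327 (nat_lit 0) (nat_lit 0) (nat_lit 0) (nat_lit 0x8017985b4) (nat_lit 536870912)]
noncomputable def e42_27 : List Rx := [
  Rx.mk (nat_lit 73) (nat_lit 1) (nat_lit 1) (nat_lit 1) (nat_lit 7) (nat_lit 289) (nat_lit 326) r9_289 r8_326 (nat_lit 0) (nat_lit 0) (nat_lit 0) (nat_lit 0x8017985b4) (nat_lit 536870912)]
noncomputable def e42_28 : List Rx := [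
  Rx.mk (nat_lit 329) (nat_lit 1) (nat_lit 1) (nat_lit 5) (nat_lit 7) (nat_lit 317) (nat_lit 332) r9_317 r10_332 (nat_lit 0) (nat_lit 0) (nat_lit 0) (nat_lit 0x8017985b4) (nat_lit 536870912),
  Rx.mk (nat_lit 333) (nat_lit 5) (nat_lit 1) (nat_lit 5) (nat_lit 7) (nat_lit 318) (nat_lit 331) r9_318 r10_331 (nat_lit 0) (nat_lit 0) (nat_lit 0) (nat_lit 0x8017985b4) (nat_lit 536870912)]
noncomputable def e42_29 : List Rx := [
  Rx.mk (nat_lit 329) (nat_lit 1) (nat_lit 1) (nat_lit 5) (nat_lit 7) (nat_lit 327) (nat_lit 350) r9_327 r11_350 (nat_lit 0) (nat_lit 0) (nat_lit 0) (nat_lit 0x8017985b4) (nat_lit 536870912)]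
noncomputable def e42_30 : List Rx := [
  Rx.mk (nat_lit 473) (nat_lit 1) (nat_lit 3) (nat_lit 7) (nat_lit 7) (nat_lit 18) (nat_lit 123) r9_18 r5_123 (nat_lit 0) (nat_lit 0) (nat_lit 0) (nat_lit 0x8017985b4) (nat_lit 536870912)]
noncomputable def e42_31 : List Rx := [
  Rx.mk (nat_lit 217) (nat_lit 1) (nat_lit 3) (nat_lit 3) (nat_lit 7) (nat_lit 146) (nat_lit 124) r9_146 r11_124 (nat_lit 0) (nat_lit 0) (nat_lit 0) (nat_lit 0x8017985b4) (nat_lit 536870912),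
  Rx.mk (nat_lit 473) (nat_lit 1) (nat_lit 3) (nat_lit 7) (nat_lit 7) (nat_lit 147) (nat_lit 123) r9_147 r11_123 (nat_lit 0) (nat_lit 0) (nat_lit 0) (nat_lit 0x8017985b4) (nat_lit 536870912)]
noncomputable def e42_32 : List Rx := [
  Rx.mk (nat_lit 281) (nat_lit 1) (nat_lit 3) (nat_lit 4) (nat_lit 3) (nat_lit 219) (nat_lit 293) r9_219 r6_293 (nat_lit 0) (nat_lit 0) (nat_lit 24741287) (nat_lit 0x7fbf624bc) (nat_lit 567020899),
  Rx.mk (nat_lit 285) (nat_lit 5) (nat_lit 3) (nat_lit 4) (nat_lit 3) (nat_lit 220) (nat_lit 290) r9_220 r6_290 (nat_lit 0) (nat_lit 0) (nat_lit 25547425) (nat_lit 0x7ed7c15fe) (nat_lit 582171937),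
  Rx.mk (nat_lit 345) (nat_lit 1) (nat_lit 3) (nat_lit 5) (nat_lit 7) (nat_lit 221) (nat_lit 294) r9_221 r6_294 (nat_lit 0) (nat_lit 0) (nat_lit 0) (nat_lit 0x8017985b4) (nat_lit 536870912),
  Rx.mk (nat_lit 349) (nat_lit 5) (nat_lit 3) (nat_lit 5) (nat_lit 7) (nat_lit 222) (nat_lit 291) r9_222 r6_291 (nat_lit 0) (nat_lit 0) (nat_lit 0) (nat_lit 0x8017985b4) (nat_lit 536870912),
  Rx.mk (nat_lit 477) (nat_lit 5) (nat_lit 3) (nat_lit 7) (nat_lit 7) (nat_lit 223) (nat_lit 292) r9_223 r6_292 (nat_lit 0) (nat_lit 0) (nat_lit 0) (nat_lit 0x8017985b4) (nat_lit 536870912)]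
noncomputable def e42_33 : List Rx := [
  Rx.mk (nat_lit 325) (nat_lit 5) (nat_lit 0) (nat_lit 5) (nat_lit 5) (nat_lit 307) (nat_lit 287) r9_307 r5_287 (nat_lit 0) (nat_lit 111344299) (nat_lit 0) (nat_lit 0x6b103b6e6) (nat_lit 987492011),
  Rx.mk (nat_lit 333) (nat_lit 5) (nat_lit 1) (nat_lit 5) (nat_lit 7) (nat_lit 308) (nat_lit 288) r9_308 r5_288 (nat_lit 0) (nat_lit 0) (nat_lit 0) (nat_lit 0x7ff67effe) (nat_lit 538897862),
  Rx.mk (nat_lit 345) (nat_lit 1) (nat_lit 3) (nat_lit 5) (nat_lit 7) (nat_lit 309) (nat_lit 286) r9_309 r5_286 (nat_lit 0) (nat_lit 0) (nat_lit 0) (nat_lit 0x7ff9dad06) (nat_lit 538691612),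
  Rx.mk (nat_lit 349) (nat_lit 5) (nat_lit 3) (nat_lit 5) (nat_lit 7) (nat_lit 310) (nat_lit 289) r9_310 r5_289 (nat_lit 0) (nat_lit 0) (nat_lit 0) (nat_lit 0x7ff760b48) (nat_lit 538843712)]
noncomputable def e42_34 : List Rx := [
  Rx.mk (nat_lit 89) (nat_lit 1) (nat_lit 3) (nat_lit 1) (nat_lit 7) (nat_lit 319) (nat_lit 345) r9_319 r11_345 (nat_lit 0) (nat_lit 0) (nat_lit 0) (nat_lit 0x8017985b4) (nat_lit 536870912),
  Rx.mk (nat_lit 325) (nat_lit 5) (nat_lit 0) (nat_lit 5) (nat_lit 5) (nat_lit 320) (nat_lit 347) r9_320 r11_347 (nat_lit 0) (nat_lit 34238693) (nat_lit 0) (nat_lit 0x7ed4be032) (nat_lit 591026955),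
  Rx.mk (nat_lit 333) (nat_lit 5) (nat_lit 1) (nat_lit 5) (nat_lit 7) (nat_lit 321) (nat_lit 348) r9_321 r11_348 (nat_lit 0) (nat_lit 0) (nat_lit 0) (nat_lit 0x8017985b4) (nat_lit 536870912),
  Rx.mk (nat_lit 345) (nat_lit 1) (nat_lit 3) (nat_lit 5) (nat_lit 7) (nat_lit 322) (nat_lit 346) r9_322 r11_346 (nat_lit 0) (nat_lit 0) (nat_lit 0) (nat_lit 0x8017985b4) (nat_lit 536870912),
  Rx.mk (nat_lit 349) (nat_lit 5) (nat_lit 3) (nat_lit 5) (nat_lit 7) (nat_lit 323) (nat_lit 349) r9_323 r11_349 (nat_lit 0) (nat_lit 0) (nat_lit 0) (nat_lit 0x8017985b4) (nat_lit 536870912)]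
noncomputable def e42_35 : List Rx := [
  Rx.mk (nat_lit 473) (nat_lit 1) (nat_lit 3) (nat_lit 7) (nat_lit 7) (nat_lit 61) (nat_lit 168) r9_61 r6_168 (nat_lit 0) (nat_lit 0) (nat_lit 0) (nat_lit 0x8017985b4) (nat_lit 536870912),
  Rx.mk (nat_lit 477) (nat_lit 5) (nat_lit 3) (nat_lit 7) (nat_lit 7) (nat_lit 62) (nat_lit 169) r9_62 r6_169 (nat_lit 0) (nat_lit 0) (nat_lit 0) (nat_lit 0x8017985b4) (nat_lit 536870912)]
noncomputable def e42_36 : List Rx := [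
  Rx.mk (nat_lit 281) (nat_lit 1) (nat_lit 3) (nat_lit 4) (nat_lit 3) (nat_lit 244) (nat_lit 352) r9_244 r12_352 (nat_lit 0) (nat_lit 0) (nat_lit 25288573) (nat_lit 0x7f59c63d8) (nat_lit 573834985),
  Rx.mk (nat_lit 345) (nat_lit 1) (nat_lit 3) (nat_lit 5) (nat_lit 7) (nat_lit 245) (nat_lit 353) r9_245 r12_353 (nat_lit 0) (nat_lit 0) (nat_lit 0) (nat_lit 0x8017985b4) (nat_lit 536870912),
  Rx.mk (nat_lit 473) (nat_lit 1) (nat_lit 3) (nat_lit 7) (nat_lit 7) (nat_lit 246) (nat_lit 354) r9_246 r12_354 (nat_lit 0) (nat_lit 0) (nat_lit 0) (nat_lit 0x8017985b4) (nat_lit 536870912),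
  Rx.mk (nat_lit 477) (nat_lit 5) (nat_lit 3) (nat_lit 7) (nat_lit 7) (nat_lit 247) (nat_lit 355) r9_247 r12_355 (nat_lit 0) (nat_lit 0) (nat_lit 0) (nat_lit 0x8017985b4) (nat_lit 536870912)]
noncomputable def e42_37 : List Rx := [
  Rx.mk (nat_lit 293) (nat_lit 5) (nat_lit 4) (nat_lit 4) (nat_lit 1) (nat_lit 155) (nat_lit 257) r9_155 r0_257 (nat_lit 0) (nat_lit 49590700) (nat_lit 41159980) (nat_lit 0x50d4cab80) (nat_lit 1391082492),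
  Rx.mk (nat_lit 317) (nat_lit 5) (nat_lit 7) (nat_lit 4) (nat_lit 3) (nat_lit 156) (nat_lit 258) r9_156 r0_258 (nat_lit 0) (nat_lit 0) (nat_lit 30127539) (nat_lit 0x7a85fc8e4) (nat_lit 656361051),
  Rx.mk (nat_lit 357) (nat_lit 5) (nat_lit 4) (nat_lit 5) (nat_lit 5) (nat_lit 157) (nat_lit 259) r9_157 r0_259 (nat_lit 0) (nat_lit 28301978) (nat_lit 0) (nat_lit 0x71f06598c) (nat_lit 793284240),
  Rx.mk (nat_lit 381) (nat_lit 5) (nat_lit 7) (nat_lit 5) (nat_lit 7) (nat_lit 158) (nat_lit 260) r9_158 r0_260 (nat_lit 0) (nat_lit 0) (nat_lit 0) (nat_lit 0x7fffa9a3e) (nat_lit 538336962),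
  Rx.mk (nat_lit 509) (nat_lit 5) (nat_lit 7) (nat_lit 7) (nat_lit 7) (nat_lit 159) (nat_lit 261) r9_159 r0_261 (nat_lit 0) (nat_lit 0) (nat_lit 0) (nat_lit 0x800dc4ccc) (nat_lit 537471612)]
noncomputable def e42_38 : List Rx := [
  Rx.mk (nat_lit 292) (nat_lit 4) (nat_lit 4) (nat_lit 4) (nat_lit 0) (nat_lit 23) (nat_lit 155) r9_23 r0_155 (nat_lit 11766479) (nat_lit 20103060) (nat_lit 17383342) (nat_lit 0x26bb582ee) (nat_lit 2030296093),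
  Rx.mk (nat_lit 293) (nat_lit 5) (nat_lit 4) (nat_lit 4) (nat_lit 1) (nat_lit 24) (nat_lit 156) r9_24 r0_156 (nat_lit 0) (nat_lit 21454755) (nat_lit 21246965) (nat_lit 0x536054f6e) (nat_lit 1301860482),
  Rx.mk (nat_lit 316) (nat_lit 4) (nat_lit 7) (nat_lit 4) (nat_lit 2) (nat_lit 25) (nat_lit 161) r9_25 r0_161 (nat_lit 15320849) (nat_lit 0) (nat_lit 15232789) (nat_lit 0x58679699e) (nat_lit 1208372050),
  Rx.mk (nat_lit 317) (nat_lit 5) (nat_lit 7) (nat_lit 4) (nat_lit 3) (nat_lit 26) (nat_lit 162) r9_26 r0_162 (nat_lit 0) (nat_lit 0) (nat_lit 24075478) (nat_lit 0x769019b32) (nat_lit 714298390),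
  Rx.mk (nat_lit 357) (nat_lit 5) (nat_lit 4) (nat_lit 5) (nat_lit 5) (nat_lit 27) (nat_lit 157) r9_27 r0_157 (nat_lit 0) (nat_lit 27681734) (nat_lit 0) (nat_lit 0x7735d76f0) (nat_lit 707450746),
  Rx.mk (nat_lit 381) (nat_lit 5) (nat_lit 7) (nat_lit 5) (nat_lit 7) (nat_lit 28) (nat_lit 163) r9_28 r0_163 (nat_lit 0) (nat_lit 0) (nat_lit 0) (nat_lit 0x7feb1ffb4) (nat_lit 539592162),
  Rx.mk (nat_lit 420) (nat_lit 4) (nat_lit 4) (nat_lit 6) (nat_lit 4) (nat_lit 29) (nat_lit 158) r9_29 r0_158 (nat_lit 19805728) (nat_lit 96643738) (nat_lit 0) (nat_lit 0x57dc9e896) (nat_lit 1303076978),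
  Rx.mk (nat_lit 421) (nat_lit 5) (nat_lit 4) (nat_lit 6) (nat_lit 5) (nat_lit 30) (nat_lit 159) r9_30 r0_159 (nat_lit 0) (nat_lit 39103353) (nat_lit 0) (nat_lit 0x7f0bc5f80) (nat_lit 592509415),
  Rx.mk (nat_lit 422) (nat_lit 6) (nat_lit 4) (nat_lit 6) (nat_lit 5) (nat_lit 31) (nat_lit 160) r9_31 r0_160 (nat_lit 0) (nat_lit 140602240) (nat_lit 0) (nat_lit 0x7cdd650c0) (nat_lit 729034802),
  Rx.mk (nat_lit 438) (nat_lit 6) (nat_lit 6) (nat_lit 6) (nat_lit 7) (nat_lit 32) (nat_lit 170) r9_32 r0_170 (nat_lit 0) (nat_lit 0) (nat_lit 0) (nat_lit 0x7fec37154) (nat_lit 539516912),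
  Rx.mk (nat_lit 444) (nat_lit 4) (nat_lit 7) (nat_lit 6) (nat_lit 6) (nat_lit 33) (nat_lit 167) r9_33 r0_167 (nat_lit 23123952) (nat_lit 0) (nat_lit 0) (nat_lit 0x800002f3a) (nat_lit 561432214),
  Rx.mk (nat_lit 445) (nat_lit 5) (nat_lit 7) (nat_lit 6) (nat_lit 7) (nat_lit 34) (nat_lit 168) r9_34 r0_168 (nat_lit 0) (nat_lit 0) (nat_lit 0) (nat_lit 0x8017985b4) (nat_lit 536870912),
  Rx.mk (nat_lit 446) (nat_lit 6) (nat_lit 7) (nat_lit 6) (nat_lit 7) (nat_lit 35) (nat_lit 169) r9_35 r0_169 (nat_lit 0) (nat_lit 0) (nat_lit 0) (nat_lit 0x8017985b4) (nat_lit 536870912),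
  Rx.mk (nat_lit 479) (nat_lit 7) (nat_lit 3) (nat_lit 7) (nat_lit 7) (nat_lit 36) (nat_lit 154) r9_36 r0_154 (nat_lit 0) (nat_lit 0) (nat_lit 0) (nat_lit 0x8017985b4) (nat_lit 536870912),
  Rx.mk (nat_lit 508) (nat_lit 4) (nat_lit 7) (nat_lit 7) (nat_lit 6) (nat_lit 37) (nat_lit 164) r9_37 r0_164 (nat_lit 24266921) (nat_lit 0) (nat_lit 0) (nat_lit 0x771d50316) (nat_lit 705582633),
  Rx.mk (nat_lit 509) (nat_lit 5) (nat_lit 7) (nat_lit 7) (nat_lit 7) (nat_lit 38) (nat_lit 165) r9_38 r0_165 (nat_lit 0) (nat_lit 0) (nat_lit 0) (nat_lit 0x7fee77a72) (nat_lit 539388362),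
  Rx.mk (nat_lit 511) (nat_lit 7) (nat_lit 7) (nat_lit 7) (nat_lit 7) (nat_lit 39) (nat_lit 166) r9_39 r0_166 (nat_lit 0) (nat_lit 0) (nat_lit 0) (nat_lit 0x8002decd6) (nat_lit 538139162)]
noncomputable def e42_39 : List Rx := [
  Rx.mk (nat_lit 292) (nat_lit 4) (nat_lit 4) (nat_lit 4) (nat_lit 0) (nat_lit 170) (nat_lit 353) r9_170 r7_353 (nat_lit 13837945) (nat_lit 19525038) (nat_lit 25638298) (nat_lit 0x3a3a221ac) (nat_lit 1724813643),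
  Rx.mk (nat_lit 293) (nat_lit 5) (nat_lit 4) (nat_lit 4) (nat_lit 1) (nat_lit 171) (nat_lit 357) r9_171 r7_357 (nat_lit 0) (nat_lit 35325188) (nat_lit 50988633) (nat_lit 0x657b86a96) (nat_lit 1052706133),
  Rx.mk (nat_lit 316) (nat_lit 4) (nat_lit 7) (nat_lit 4) (nat_lit 2) (nat_lit 172) (nat_lit 354) r9_172 r7_354 (nat_lit 38278625) (nat_lit 0) (nat_lit 30361877) (nat_lit 0x697120ad0) (nat_lit 971010514),
  Rx.mk (nat_lit 317) (nat_lit 5) (nat_lit 7) (nat_lit 4) (nat_lit 3) (nat_lit 173) (nat_lit 358) r9_173 r7_358 (nat_lit 0) (nat_lit 0) (nat_lit 24741287) (nat_lit 0x800c2759a) (nat_lit 562311049),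
  Rx.mk (nat_lit 357) (nat_lit 5) (nat_lit 4) (nat_lit 5) (nat_lit 5) (nat_lit 174) (nat_lit 359) r9_174 r7_359 (nat_lit 0) (nat_lit 24741287) (nat_lit 0) (nat_lit 0x8017985b4) (nat_lit 561612199),
  Rx.mk (nat_lit 381) (nat_lit 5) (nat_lit 7) (nat_lit 5) (nat_lit 7) (nat_lit 175) (nat_lit 360) r9_175 r7_360 (nat_lit 0) (nat_lit 0) (nat_lit 0) (nat_lit 0x8017985b4) (nat_lit 536870912),
  Rx.mk (nat_lit 420) (nat_lit 4) (nat_lit 4) (nat_lit 6) (nat_lit 4) (nat_lit 176) (nat_lit 356) r9_176 r7_356 (nat_lit 30412328) (nat_lit 22236043) (nat_lit 0) (nat_lit 0x6db23206a) (nat_lit 886234833),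
  Rx.mk (nat_lit 421) (nat_lit 5) (nat_lit 4) (nat_lit 6) (nat_lit 5) (nat_lit 177) (nat_lit 362) r9_177 r7_362 (nat_lit 0) (nat_lit 24741287) (nat_lit 0) (nat_lit 0x8017985b4) (nat_lit 561612199),
  Rx.mk (nat_lit 422) (nat_lit 6) (nat_lit 4) (nat_lit 6) (nat_lit 5) (nat_lit 178) (nat_lit 364) r9_178 r7_364 (nat_lit 0) (nat_lit 24741287) (nat_lit 0) (nat_lit 0x8017985b4) (nat_lit 561612199),
  Rx.mk (nat_lit 438) (nat_lit 6) (nat_lit 6) (nat_lit 6) (nat_lit 7) (nat_lit 179) (nat_lit 365) r9_179 r7_365 (nat_lit 0) (nat_lit 0) (nat_lit 0) (nat_lit 0x8017985b4) (nat_lit 536870912),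
  Rx.mk (nat_lit 508) (nat_lit 4) (nat_lit 7) (nat_lit 7) (nat_lit 6) (nat_lit 180) (nat_lit 355) r9_180 r7_355 (nat_lit 24741287) (nat_lit 0) (nat_lit 0) (nat_lit 0x8017985b4) (nat_lit 561612199),
  Rx.mk (nat_lit 509) (nat_lit 5) (nat_lit 7) (nat_lit 7) (nat_lit 7) (nat_lit 181) (nat_lit 361) r9_181 r7_361 (nat_lit 0) (nat_lit 0) (nat_lit 0) (nat_lit 0x8017985b4) (nat_lit 536870912),
  Rx.mk (nat_lit 511) (nat_lit 7) (nat_lit 7) (nat_lit 7) (nat_lit 7) (nat_lit 182) (nat_lit 363) r9_182 r7_363 (nat_lit 0) (nat_lit 0) (nat_lit 0) (nat_lit 0x8017985b4) (nat_lit 536870912)]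
noncomputable def e42_40 : List Rx := [
  Rx.mk (nat_lit 292) (nat_lit 4) (nat_lit 4) (nat_lit 4) (nat_lit 0) (nat_lit 2) (nat_lit 170) r9_2 r2_170 (nat_lit 9380650) (nat_lit 12054409) (nat_lit 10208836) (nat_lit 0x4191c7aea) (nat_lit 1578696407),
  Rx.mk (nat_lit 316) (nat_lit 4) (nat_lit 7) (nat_lit 4) (nat_lit 2) (nat_lit 3) (nat_lit 173) r9_3 r2_173 (nat_lit 27923274) (nat_lit 0) (nat_lit 18448465) (nat_lit 0x696412f82) (nat_lit 949568801),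
  Rx.mk (nat_lit 319) (nat_lit 7) (nat_lit 7) (nat_lit 4) (nat_lit 3) (nat_lit 4) (nat_lit 174) r9_4 r2_174 (nat_lit 0) (nat_lit 0) (nat_lit 24741287) (nat_lit 0x7f9cd5ee4) (nat_lit 569152349),
  Rx.mk (nat_lit 420) (nat_lit 4) (nat_lit 4) (nat_lit 6) (nat_lit 4) (nat_lit 5) (nat_lit 171) r9_5 r2_171 (nat_lit 28184396) (nat_lit 19348784) (nat_lit 0) (nat_lit 0x6737e5402) (nat_lit 985858192),
  Rx.mk (nat_lit 422) (nat_lit 6) (nat_lit 4) (nat_lit 6) (nat_lit 5) (nat_lit 6) (nat_lit 172) r9_6 r2_172 (nat_lit 0) (nat_lit 23881749) (nat_lit 0) (nat_lit 0x7ffacd09c) (nat_lit 562515361),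
  Rx.mk (nat_lit 438) (nat_lit 6) (nat_lit 6) (nat_lit 6) (nat_lit 7) (nat_lit 7) (nat_lit 179) r9_7 r2_179 (nat_lit 0) (nat_lit 0) (nat_lit 0) (nat_lit 0x8017985b4) (nat_lit 536870912),
  Rx.mk (nat_lit 444) (nat_lit 4) (nat_lit 7) (nat_lit 6) (nat_lit 6) (nat_lit 8) (nat_lit 176) r9_8 r2_176 (nat_lit 24741287) (nat_lit 0) (nat_lit 0) (nat_lit 0x800e5e7c8) (nat_lit 562175649),
  Rx.mk (nat_lit 446) (nat_lit 6) (nat_lit 7) (nat_lit 6) (nat_lit 7) (nat_lit 9) (nat_lit 178) r9_9 r2_178 (nat_lit 0) (nat_lit 0) (nat_lit 0) (nat_lit 0x8017985b4) (nat_lit 536870912),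
  Rx.mk (nat_lit 447) (nat_lit 7) (nat_lit 7) (nat_lit 6) (nat_lit 7) (nat_lit 10) (nat_lit 177) r9_10 r2_177 (nat_lit 0) (nat_lit 0) (nat_lit 0) (nat_lit 0x8017985b4) (nat_lit 536870912),
  Rx.mk (nat_lit 475) (nat_lit 3) (nat_lit 3) (nat_lit 7) (nat_lit 7) (nat_lit 11) (nat_lit 168) r9_11 r2_168 (nat_lit 0) (nat_lit 0) (nat_lit 0) (nat_lit 0x8017985b4) (nat_lit 536870912),
  Rx.mk (nat_lit 479) (nat_lit 7) (nat_lit 3) (nat_lit 7) (nat_lit 7) (nat_lit 12) (nat_lit 169) r9_12 r2_169 (nat_lit 0) (nat_lit 0) (nat_lit 0) (nat_lit 0x8017985b4) (nat_lit 536870912),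
  Rx.mk (nat_lit 511) (nat_lit 7) (nat_lit 7) (nat_lit 7) (nat_lit 7) (nat_lit 13) (nat_lit 175) r9_13 r2_175 (nat_lit 0) (nat_lit 0) (nat_lit 0) (nat_lit 0x8017985b4) (nat_lit 536870912)]
noncomputable def e42_41 : List Rx := [
  Rx.mk (nat_lit 292) (nat_lit 4) (nat_lit 4) (nat_lit 4) (nat_lit 0) (nat_lit 148) (nat_lit 148) r9_148 r9_148 (nat_lit 17958918) (nat_lit 26184378) (nat_lit 26184378) (nat_lit 0x4289fca08) (nat_lit 1601756836),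
  Rx.mk (nat_lit 316) (nat_lit 4) (nat_lit 7) (nat_lit 4) (nat_lit 2) (nat_lit 149) (nat_lit 151) r9_149 r9_151 (nat_lit 25198067) (nat_lit 0) (nat_lit 24357688) (nat_lit 0x695294076) (nat_lit 953855717),
  Rx.mk (nat_lit 319) (nat_lit 7) (nat_lit 7) (nat_lit 4) (nat_lit 3) (nat_lit 150) (nat_lit 152) r9_150 r9_152 (nat_lit 0) (nat_lit 0) (nat_lit 24501470) (nat_lit 0x7fbf237c6) (nat_lit 566776782),
  Rx.mk (nat_lit 420) (nat_lit 4) (nat_lit 4) (nat_lit 6) (nat_lit 4) (nat_lit 151) (nat_lit 149) r9_151 r9_149 (nat_lit 25198067) (nat_lit 24357688) (nat_lit 0) (nat_lit 0x695294076) (nat_lit 953855717),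
  Rx.mk (nat_lit 422) (nat_lit 6) (nat_lit 4) (nat_lit 6) (nat_lit 5) (nat_lit 152) (nat_lit 150) r9_152 r9_150 (nat_lit 0) (nat_lit 24501470) (nat_lit 0) (nat_lit 0x7fbf237c6) (nat_lit 566776782),
  Rx.mk (nat_lit 438) (nat_lit 6) (nat_lit 6) (nat_lit 6) (nat_lit 7) (nat_lit 153) (nat_lit 154) r9_153 r9_154 (nat_lit 0) (nat_lit 0) (nat_lit 0) (nat_lit 0x8017985b4) (nat_lit 536870912),
  Rx.mk (nat_lit 511) (nat_lit 7) (nat_lit 7) (nat_lit 7) (nat_lit 7) (nat_lit 154) (nat_lit 153) r9_154 r9_153 (nat_lit 0) (nat_lit 0) (nat_lit 0) (nat_lit 0x8017985b4) (nat_lit 536870912)]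
noncomputable def e42_42 : List Rx := [
  Rx.mk (nat_lit 0) (nat_lit 0) (nat_lit 0) (nat_lit 0) (nat_lit 0) (nat_lit 109) (nat_lit 121) r9_109 r9_121 (nat_lit 21797302) (nat_lit 36523476) (nat_lit 22961591) (nat_lit 0x3ad62b83c) (nat_lit 1737278231),
  Rx.mk (nat_lit 16) (nat_lit 0) (nat_lit 2) (nat_lit 0) (nat_lit 2) (nat_lit 110) (nat_lit 122) r9_110 r9_122 (nat_lit 24030520) (nat_lit 0) (nat_lit 18882716) (nat_lit 0x619393b74) (nat_lit 1072465598),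
  Rx.mk (nat_lit 18) (nat_lit 2) (nat_lit 2) (nat_lit 0) (nat_lit 3) (nat_lit 111) (nat_lit 123) r9_111 r9_123 (nat_lit 0) (nat_lit 0) (nat_lit 21899928) (nat_lit 0x7e32c5136) (nat_lit 588892740),
  Rx.mk (nat_lit 146) (nat_lit 2) (nat_lit 2) (nat_lit 2) (nat_lit 7) (nat_lit 112) (nat_lit 132) r9_112 r9_132 (nat_lit 0) (nat_lit 0) (nat_lit 0) (nat_lit 0x8017985b4) (nat_lit 536870912),
  Rx.mk (nat_lit 178) (nat_lit 2) (nat_lit 6) (nat_lit 2) (nat_lit 7) (nat_lit 113) (nat_lit 131) r9_113 r9_131 (nat_lit 0) (nat_lit 0) (nat_lit 0) (nat_lit 0x8017985b4) (nat_lit 536870912),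
  Rx.mk (nat_lit 182) (nat_lit 6) (nat_lit 6) (nat_lit 2) (nat_lit 7) (nat_lit 114) (nat_lit 130) r9_114 r9_130 (nat_lit 0) (nat_lit 0) (nat_lit 0) (nat_lit 0x8017985b4) (nat_lit 536870912),
  Rx.mk (nat_lit 192) (nat_lit 0) (nat_lit 0) (nat_lit 3) (nat_lit 4) (nat_lit 115) (nat_lit 124) r9_115 r9_124 (nat_lit 21788749) (nat_lit 21805176) (nat_lit 0) (nat_lit 0x60e0b917a) (nat_lit 1084441637),
  Rx.mk (nat_lit 195) (nat_lit 3) (nat_lit 0) (nat_lit 3) (nat_lit 5) (nat_lit 116) (nat_lit 125) r9_116 r9_125 (nat_lit 0) (nat_lit 22977602) (nat_lit 0) (nat_lit 0x7edbd4c9a) (nat_lit 579368164),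
  Rx.mk (nat_lit 208) (nat_lit 0) (nat_lit 2) (nat_lit 3) (nat_lit 6) (nat_lit 117) (nat_lit 127) r9_117 r9_127 (nat_lit 24741287) (nat_lit 0) (nat_lit 0) (nat_lit 0x7f6b2ca1e) (nat_lit 572209049),
  Rx.mk (nat_lit 210) (nat_lit 2) (nat_lit 2) (nat_lit 3) (nat_lit 7) (nat_lit 118) (nat_lit 129) r9_118 r9_129 (nat_lit 0) (nat_lit 0) (nat_lit 0) (nat_lit 0x8017985b4) (nat_lit 536870912),
  Rx.mk (nat_lit 211) (nat_lit 3) (nat_lit 2) (nat_lit 3) (nat_lit 7) (nat_lit 119) (nat_lit 128) r9_119 r9_128 (nat_lit 0) (nat_lit 0) (nat_lit 0) (nat_lit 0x8017985b4) (nat_lit 536870912),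
  Rx.mk (nat_lit 219) (nat_lit 3) (nat_lit 3) (nat_lit 3) (nat_lit 7) (nat_lit 120) (nat_lit 126) r9_120 r9_126 (nat_lit 0) (nat_lit 0) (nat_lit 0) (nat_lit 0x8017985b4) (nat_lit 536870912),
  Rx.mk (nat_lit 292) (nat_lit 4) (nat_lit 4) (nat_lit 4) (nat_lit 0) (nat_lit 121) (nat_lit 109) r9_121 r9_109 (nat_lit 21797302) (nat_lit 36523476) (nat_lit 22961591) (nat_lit 0x3ad62b83c) (nat_lit 1737278231),
  Rx.mk (nat_lit 316) (nat_lit 4) (nat_lit 7) (nat_lit 4) (nat_lit 2) (nat_lit 122) (nat_lit 110) r9_122 r9_110 (nat_lit 24030520) (nat_lit 0) (nat_lit 18882716) (nat_lit 0x619393b74) (nat_lit 1072465598),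
  Rx.mk (nat_lit 319) (nat_lit 7) (nat_lit 7) (nat_lit 4) (nat_lit 3) (nat_lit 123) (nat_lit 111) r9_123 r9_111 (nat_lit 0) (nat_lit 0) (nat_lit 21899928) (nat_lit 0x7e32c5136) (nat_lit 588892740),
  Rx.mk (nat_lit 420) (nat_lit 4) (nat_lit 4) (nat_lit 6) (nat_lit 4) (nat_lit 124) (nat_lit 115) r9_124 r9_115 (nat_lit 21788749) (nat_lit 21805176) (nat_lit 0) (nat_lit 0x60e0b917a) (nat_lit 1084441637),
  Rx.mk (nat_lit 422) (nat_lit 6) (nat_lit 4) (nat_lit 6) (nat_lit 5) (nat_lit 125) (nat_lit 116) r9_125 r9_116 (nat_lit 0) (nat_lit 22977602) (nat_lit 0) (nat_lit 0x7edbd4c9a) (nat_lit 579368164),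
  Rx.mk (nat_lit 438) (nat_lit 6) (nat_lit 6) (nat_lit 6) (nat_lit 7) (nat_lit 126) (nat_lit 120) r9_126 r9_120 (nat_lit 0) (nat_lit 0) (nat_lit 0) (nat_lit 0x8017985b4) (nat_lit 536870912),
  Rx.mk (nat_lit 444) (nat_lit 4) (nat_lit 7) (nat_lit 6) (nat_lit 6) (nat_lit 127) (nat_lit 117) r9_127 r9_117 (nat_lit 24741287) (nat_lit 0) (nat_lit 0) (nat_lit 0x7f6b2ca1e) (nat_lit 572209049),
  Rx.mk (nat_lit 446) (nat_lit 6) (nat_lit 7) (nat_lit 6) (nat_lit 7) (nat_lit 128) (nat_lit 119) r9_128 r9_119 (nat_lit 0) (nat_lit 0) (nat_lit 0) (nat_lit 0x8017985b4) (nat_lit 536870912),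
  Rx.mk (nat_lit 447) (nat_lit 7) (nat_lit 7) (nat_lit 6) (nat_lit 7) (nat_lit 129) (nat_lit 118) r9_129 r9_118 (nat_lit 0) (nat_lit 0) (nat_lit 0) (nat_lit 0x8017985b4) (nat_lit 536870912),
  Rx.mk (nat_lit 475) (nat_lit 3) (nat_lit 3) (nat_lit 7) (nat_lit 7) (nat_lit 130) (nat_lit 114) r9_130 r9_114 (nat_lit 0) (nat_lit 0) (nat_lit 0) (nat_lit 0x8017985b4) (nat_lit 536870912),
  Rx.mk (nat_lit 479) (nat_lit 7) (nat_lit 3) (nat_lit 7) (nat_lit 7) (nat_lit 131) (nat_lit 113) r9_131 r9_113 (nat_lit 0) (nat_lit 0) (nat_lit 0) (nat_lit 0x8017985b4) (nat_lit 536870912),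
  Rx.mk (nat_lit 511) (nat_lit 7) (nat_lit 7) (nat_lit 7) (nat_lit 7) (nat_lit 132) (nat_lit 112) r9_132 r9_112 (nat_lit 0) (nat_lit 0) (nat_lit 0) (nat_lit 0x8017985b4) (nat_lit 536870912)]
noncomputable def e42_43 : List Rx := [
  Rx.mk (nat_lit 292) (nat_lit 4) (nat_lit 4) (nat_lit 4) (nat_lit 0) (nat_lit 40) (nat_lit 170) r9_40 r1_170 (nat_lit 24261554) (nat_lit 56659484) (nat_lit 49328540) (nat_lit 0x3f56488d6) (nat_lit 1713461290),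
  Rx.mk (nat_lit 316) (nat_lit 4) (nat_lit 7) (nat_lit 4) (nat_lit 2) (nat_lit 41) (nat_lit 173) r9_41 r1_173 (nat_lit 27290911) (nat_lit 0) (nat_lit 32551245) (nat_lit 0x6e1360b66) (nat_lit 887289868),
  Rx.mk (nat_lit 420) (nat_lit 4) (nat_lit 4) (nat_lit 6) (nat_lit 4) (nat_lit 42) (nat_lit 171) r9_42 r1_171 (nat_lit 26252196) (nat_lit 43212165) (nat_lit 0) (nat_lit 0x6d3fdbff2) (nat_lit 910271473),
  Rx.mk (nat_lit 422) (nat_lit 6) (nat_lit 4) (nat_lit 6) (nat_lit 5) (nat_lit 43) (nat_lit 172) r9_43 r1_172 (nat_lit 0) (nat_lit 35087009) (nat_lit 0) (nat_lit 0x7eb627b3c) (nat_lit 593834521),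
  Rx.mk (nat_lit 438) (nat_lit 6) (nat_lit 6) (nat_lit 6) (nat_lit 7) (nat_lit 44) (nat_lit 178) r9_44 r1_178 (nat_lit 0) (nat_lit 0) (nat_lit 0) (nat_lit 0x7ed9f7242) (nat_lit 556534462),
  Rx.mk (nat_lit 444) (nat_lit 4) (nat_lit 7) (nat_lit 6) (nat_lit 6) (nat_lit 45) (nat_lit 176) r9_45 r1_176 (nat_lit 24741287) (nat_lit 0) (nat_lit 0) (nat_lit 0x8017985b4) (nat_lit 561612199),
  Rx.mk (nat_lit 446) (nat_lit 6) (nat_lit 7) (nat_lit 6) (nat_lit 7) (nat_lit 46) (nat_lit 177) r9_46 r1_177 (nat_lit 0) (nat_lit 0) (nat_lit 0) (nat_lit 0x8017985b4) (nat_lit 536870912),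
  Rx.mk (nat_lit 479) (nat_lit 7) (nat_lit 3) (nat_lit 7) (nat_lit 7) (nat_lit 47) (nat_lit 169) r9_47 r1_169 (nat_lit 0) (nat_lit 0) (nat_lit 0) (nat_lit 0x8017985b4) (nat_lit 536870912),
  Rx.mk (nat_lit 508) (nat_lit 4) (nat_lit 7) (nat_lit 7) (nat_lit 6) (nat_lit 48) (nat_lit 174) r9_48 r1_174 (nat_lit 24741287) (nat_lit 0) (nat_lit 0) (nat_lit 0x8004104a6) (nat_lit 562806149),
  Rx.mk (nat_lit 511) (nat_lit 7) (nat_lit 7) (nat_lit 7) (nat_lit 7) (nat_lit 49) (nat_lit 175) r9_49 r1_175 (nat_lit 0) (nat_lit 0) (nat_lit 0) (nat_lit 0x8017985b4) (nat_lit 536870912)]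
noncomputable def e42_44 : List Rx := [
  Rx.mk (nat_lit 292) (nat_lit 4) (nat_lit 4) (nat_lit 4) (nat_lit 0) (nat_lit 202) (nat_lit 266) r9_202 r8_266 (nat_lit 16962537) (nat_lit 23929726) (nat_lit 37514210) (nat_lit 0x3e09e15de) (nat_lit 1682604485),
  Rx.mk (nat_lit 316) (nat_lit 4) (nat_lit 7) (nat_lit 4) (nat_lit 2) (nat_lit 203) (nat_lit 267) r9_203 r8_267 (nat_lit 34060215) (nat_lit 0) (nat_lit 27096766) (nat_lit 0x698596640) (nat_lit 962235943),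
  Rx.mk (nat_lit 420) (nat_lit 4) (nat_lit 4) (nat_lit 6) (nat_lit 4) (nat_lit 204) (nat_lit 269) r9_204 r8_269 (nat_lit 29280147) (nat_lit 25355923) (nat_lit 0) (nat_lit 0x6cdd7d4fa) (nat_lit 901656982),
  Rx.mk (nat_lit 422) (nat_lit 6) (nat_lit 4) (nat_lit 6) (nat_lit 5) (nat_lit 205) (nat_lit 271) r9_205 r8_271 (nat_lit 0) (nat_lit 24741287) (nat_lit 0) (nat_lit 0x8017985b4) (nat_lit 561612199),
  Rx.mk (nat_lit 438) (nat_lit 6) (nat_lit 6) (nat_lit 6) (nat_lit 7) (nat_lit 206) (nat_lit 272) r9_206 r8_272 (nat_lit 0) (nat_lit 0) (nat_lit 0) (nat_lit 0x8017985b4) (nat_lit 536870912),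
  Rx.mk (nat_lit 508) (nat_lit 4) (nat_lit 7) (nat_lit 7) (nat_lit 6) (nat_lit 207) (nat_lit 268) r9_207 r8_268 (nat_lit 24537189) (nat_lit 0) (nat_lit 0) (nat_lit 0x8007ecd18) (nat_lit 562365701),
  Rx.mk (nat_lit 511) (nat_lit 7) (nat_lit 7) (nat_lit 7) (nat_lit 7) (nat_lit 208) (nat_lit 270) r9_208 r8_270 (nat_lit 0) (nat_lit 0) (nat_lit 0) (nat_lit 0x8017985b4) (nat_lit 536870912)]
noncomputable def e42_45 : List Rx := [
  Rx.mk (nat_lit 293) (nat_lit 5) (nat_lit 4) (nat_lit 4) (nat_lit 1) (nat_lit 160) (nat_lit 262) r9_160 r1_262 (nat_lit 0) (nat_lit 68973086) (nat_lit 38504019) (nat_lit 0x645605570) (nat_lit 1092404867),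
  Rx.mk (nat_lit 301) (nat_lit 5) (nat_lit 5) (nat_lit 4) (nat_lit 3) (nat_lit 161) (nat_lit 263) r9_161 r1_263 (nat_lit 0) (nat_lit 0) (nat_lit 24741287) (nat_lit 0x8004fdb2a) (nat_lit 562749199),
  Rx.mk (nat_lit 317) (nat_lit 5) (nat_lit 7) (nat_lit 4) (nat_lit 3) (nat_lit 162) (nat_lit 264) r9_162 r1_264 (nat_lit 0) (nat_lit 0) (nat_lit 24741287) (nat_lit 0x8017985b4) (nat_lit 561612199),
  Rx.mk (nat_lit 357) (nat_lit 5) (nat_lit 4) (nat_lit 5) (nat_lit 5) (nat_lit 163) (nat_lit 265) r9_163 r1_265 (nat_lit 0) (nat_lit 24741287) (nat_lit 0) (nat_lit 0x8017985b4) (nat_lit 561612199),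
  Rx.mk (nat_lit 365) (nat_lit 5) (nat_lit 5) (nat_lit 5) (nat_lit 7) (nat_lit 164) (nat_lit 266) r9_164 r1_266 (nat_lit 0) (nat_lit 0) (nat_lit 0) (nat_lit 0x8017985b4) (nat_lit 536870912),
  Rx.mk (nat_lit 381) (nat_lit 5) (nat_lit 7) (nat_lit 5) (nat_lit 7) (nat_lit 165) (nat_lit 267) r9_165 r1_267 (nat_lit 0) (nat_lit 0) (nat_lit 0) (nat_lit 0x8017985b4) (nat_lit 536870912),
  Rx.mk (nat_lit 509) (nat_lit 5) (nat_lit 7) (nat_lit 7) (nat_lit 7) (nat_lit 166) (nat_lit 268) r9_166 r1_268 (nat_lit 0) (nat_lit 0) (nat_lit 0) (nat_lit 0x8017985b4) (nat_lit 536870912)]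
noncomputable def e42_46 : List Rx := [
  Rx.mk (nat_lit 365) (nat_lit 5) (nat_lit 5) (nat_lit 5) (nat_lit 7) (nat_lit 293) (nat_lit 288) r9_293 r2_288 (nat_lit 0) (nat_lit 0) (nat_lit 0) (nat_lit 0x8017985b4) (nat_lit 536870912)]
noncomputable def e42_47 : List Rx := [
  Rx.mk (nat_lit 292) (nat_lit 4) (nat_lit 4) (nat_lit 4) (nat_lit 0) (nat_lit 183) (nat_lit 159) r9_183 r8_159 (nat_lit 18255310) (nat_lit 27871597) (nat_lit 23644808) (nat_lit 0x407f928e4) (nat_lit 1634185527),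
  Rx.mk (nat_lit 293) (nat_lit 5) (nat_lit 4) (nat_lit 4) (nat_lit 1) (nat_lit 184) (nat_lit 160) r9_184 r8_160 (nat_lit 0) (nat_lit 34699300) (nat_lit 50716108) (nat_lit 0x6b512c18c) (nat_lit 957466070),
  Rx.mk (nat_lit 300) (nat_lit 4) (nat_lit 5) (nat_lit 4) (nat_lit 2) (nat_lit 185) (nat_lit 165) r9_185 r8_165 (nat_lit 130895702) (nat_lit 0) (nat_lit 40805453) (nat_lit 0x7010e2518) (nat_lit 966967117),
  Rx.mk (nat_lit 301) (nat_lit 5) (nat_lit 5) (nat_lit 4) (nat_lit 3) (nat_lit 186) (nat_lit 166) r9_186 r8_166 (nat_lit 0) (nat_lit 0) (nat_lit 23667545) (nat_lit 0x7fe4ef41e) (nat_lit 563630257),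
  Rx.mk (nat_lit 316) (nat_lit 4) (nat_lit 7) (nat_lit 4) (nat_lit 2) (nat_lit 187) (nat_lit 171) r9_187 r8_171 (nat_lit 55618136) (nat_lit 0) (nat_lit 30134438) (nat_lit 0x6f41c019a) (nat_lit 894101936),
  Rx.mk (nat_lit 317) (nat_lit 5) (nat_lit 7) (nat_lit 4) (nat_lit 3) (nat_lit 188) (nat_lit 172) r9_188 r8_172 (nat_lit 0) (nat_lit 0) (nat_lit 24741287) (nat_lit 0x8017985b4) (nat_lit 561612199),
  Rx.mk (nat_lit 357) (nat_lit 5) (nat_lit 4) (nat_lit 5) (nat_lit 5) (nat_lit 189) (nat_lit 161) r9_189 r8_161 (nat_lit 0) (nat_lit 25054288) (nat_lit 0) (nat_lit 0x800856290) (nat_lit 562857500),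
  Rx.mk (nat_lit 365) (nat_lit 5) (nat_lit 5) (nat_lit 5) (nat_lit 7) (nat_lit 190) (nat_lit 167) r9_190 r8_167 (nat_lit 0) (nat_lit 0) (nat_lit 0) (nat_lit 0x8017985b4) (nat_lit 536870912),
  Rx.mk (nat_lit 381) (nat_lit 5) (nat_lit 7) (nat_lit 5) (nat_lit 7) (nat_lit 191) (nat_lit 173) r9_191 r8_173 (nat_lit 0) (nat_lit 0) (nat_lit 0) (nat_lit 0x8017985b4) (nat_lit 536870912),
  Rx.mk (nat_lit 420) (nat_lit 4) (nat_lit 4) (nat_lit 6) (nat_lit 4) (nat_lit 192) (nat_lit 162) r9_192 r8_162 (nat_lit 40482942) (nat_lit 28133172) (nat_lit 0) (nat_lit 0x6d0747a06) (nat_lit 912998026),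
  Rx.mk (nat_lit 421) (nat_lit 5) (nat_lit 4) (nat_lit 6) (nat_lit 5) (nat_lit 193) (nat_lit 163) r9_193 r8_163 (nat_lit 0) (nat_lit 24741287) (nat_lit 0) (nat_lit 0x8009d4ae0) (nat_lit 562452249),
  Rx.mk (nat_lit 422) (nat_lit 6) (nat_lit 4) (nat_lit 6) (nat_lit 5) (nat_lit 194) (nat_lit 164) r9_194 r8_164 (nat_lit 0) (nat_lit 24741287) (nat_lit 0) (nat_lit 0x8017985b4) (nat_lit 561612199),
  Rx.mk (nat_lit 428) (nat_lit 4) (nat_lit 5) (nat_lit 6) (nat_lit 6) (nat_lit 195) (nat_lit 168) r9_195 r8_168 (nat_lit 24741287) (nat_lit 0) (nat_lit 0) (nat_lit 0x8017985b4) (nat_lit 561612199),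
  Rx.mk (nat_lit 429) (nat_lit 5) (nat_lit 5) (nat_lit 6) (nat_lit 7) (nat_lit 196) (nat_lit 169) r9_196 r8_169 (nat_lit 0) (nat_lit 0) (nat_lit 0) (nat_lit 0x8017985b4) (nat_lit 536870912),
  Rx.mk (nat_lit 430) (nat_lit 6) (nat_lit 5) (nat_lit 6) (nat_lit 7) (nat_lit 197) (nat_lit 170) r9_197 r8_170 (nat_lit 0) (nat_lit 0) (nat_lit 0) (nat_lit 0x8017985b4) (nat_lit 536870912),
  Rx.mk (nat_lit 438) (nat_lit 6) (nat_lit 6) (nat_lit 6) (nat_lit 7) (nat_lit 198) (nat_lit 177) r9_198 r8_177 (nat_lit 0) (nat_lit 0) (nat_lit 0) (nat_lit 0x8017985b4) (nat_lit 536870912),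
  Rx.mk (nat_lit 508) (nat_lit 4) (nat_lit 7) (nat_lit 7) (nat_lit 6) (nat_lit 199) (nat_lit 174) r9_199 r8_174 (nat_lit 24741287) (nat_lit 0) (nat_lit 0) (nat_lit 0x8017985b4) (nat_lit 561612199),
  Rx.mk (nat_lit 509) (nat_lit 5) (nat_lit 7) (nat_lit 7) (nat_lit 7) (nat_lit 200) (nat_lit 175) r9_200 r8_175 (nat_lit 0) (nat_lit 0) (nat_lit 0) (nat_lit 0x8017985b4) (nat_lit 536870912),
  Rx.mk (nat_lit 511) (nat_lit 7) (nat_lit 7) (nat_lit 7) (nat_lit 7) (nat_lit 201) (nat_lit 176) r9_201 r8_176 (nat_lit 0) (nat_lit 0) (nat_lit 0) (nat_lit 0x8017985b4) (nat_lit 536870912)]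
noncomputable def e42_48 : List Rx := [
  Rx.mk (nat_lit 365) (nat_lit 5) (nat_lit 5) (nat_lit 5) (nat_lit 7) (nat_lit 299) (nat_lit 266) r9_299 r9_266 (nat_lit 0) (nat_lit 0) (nat_lit 0) (nat_lit 0x8017985b4) (nat_lit 536870912)]
noncomputable def e42_49 : List Rx := [
  Rx.mk (nat_lit 365) (nat_lit 5) (nat_lit 5) (nat_lit 5) (nat_lit 7) (nat_lit 298) (nat_lit 298) r9_298 r9_298 (nat_lit 0) (nat_lit 0) (nat_lit 0) (nat_lit 0x8017985b4) (nat_lit 536870912)]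
noncomputable def e42_50 : List Rx := [
  Rx.mk (nat_lit 317) (nat_lit 5) (nat_lit 7) (nat_lit 4) (nat_lit 3) (nat_lit 19) (nat_lit 257) r9_19 r3_257 (nat_lit 0) (nat_lit 0) (nat_lit 6950286) (nat_lit 0x6a58027fa) (nat_lit 894620048),
  Rx.mk (nat_lit 381) (nat_lit 5) (nat_lit 7) (nat_lit 5) (nat_lit 7) (nat_lit 20) (nat_lit 258) r9_20 r3_258 (nat_lit 0) (nat_lit 0) (nat_lit 0) (nat_lit 0x7ffede474) (nat_lit 538398162),
  Rx.mk (nat_lit 477) (nat_lit 5) (nat_lit 3) (nat_lit 7) (nat_lit 7) (nat_lit 21) (nat_lit 260) r9_21 r3_260 (nat_lit 0) (nat_lit 0) (nat_lit 0) (nat_lit 0x800056a40) (nat_lit 538300112),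
  Rx.mk (nat_lit 509) (nat_lit 5) (nat_lit 7) (nat_lit 7) (nat_lit 7) (nat_lit 22) (nat_lit 259) r9_22 r3_259 (nat_lit 0) (nat_lit 0) (nat_lit 0) (nat_lit 0x7fbe4884c) (nat_lit 542361212)]
noncomputable def e42_51 : List Rx := [
  Rx.mk (nat_lit 317) (nat_lit 5) (nat_lit 7) (nat_lit 4) (nat_lit 3) (nat_lit 167) (nat_lit 273) r9_167 r4_273 (nat_lit 0) (nat_lit 0) (nat_lit 24741287) (nat_lit 0x7fff3afc6) (nat_lit 563104399),
  Rx.mk (nat_lit 381) (nat_lit 5) (nat_lit 7) (nat_lit 5) (nat_lit 7) (nat_lit 168) (nat_lit 274) r9_168 r4_274 (nat_lit 0) (nat_lit 0) (nat_lit 0) (nat_lit 0x8017985b4) (nat_lit 536870912),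
  Rx.mk (nat_lit 509) (nat_lit 5) (nat_lit 7) (nat_lit 7) (nat_lit 7) (nat_lit 169) (nat_lit 275) r9_169 r4_275 (nat_lit 0) (nat_lit 0) (nat_lit 0) (nat_lit 0x8017985b4) (nat_lit 536870912)]
noncomputable def e42_52 : List Rx := [
  Rx.mk (nat_lit 285) (nat_lit 5) (nat_lit 3) (nat_lit 4) (nat_lit 3) (nat_lit 224) (nat_lit 262) r9_224 r5_262 (nat_lit 0) (nat_lit 0) (nat_lit 27922064) (nat_lit 0x7cb09d100) (nat_lit 619170926),
  Rx.mk (nat_lit 317) (nat_lit 5) (nat_lit 7) (nat_lit 4) (nat_lit 3) (nat_lit 225) (nat_lit 261) r9_225 r5_261 (nat_lit 0) (nat_lit 0) (nat_lit 29963902) (nat_lit 0x7c0aae942) (nat_lit 631646464),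
  Rx.mk (nat_lit 349) (nat_lit 5) (nat_lit 3) (nat_lit 5) (nat_lit 7) (nat_lit 226) (nat_lit 264) r9_226 r5_264 (nat_lit 0) (nat_lit 0) (nat_lit 0) (nat_lit 0x8017985b4) (nat_lit 536870912),
  Rx.mk (nat_lit 381) (nat_lit 5) (nat_lit 7) (nat_lit 5) (nat_lit 7) (nat_lit 227) (nat_lit 263) r9_227 r5_263 (nat_lit 0) (nat_lit 0) (nat_lit 0) (nat_lit 0x8017985b4) (nat_lit 536870912),
  Rx.mk (nat_lit 477) (nat_lit 5) (nat_lit 3) (nat_lit 7) (nat_lit 7) (nat_lit 228) (nat_lit 265) r9_228 r5_265 (nat_lit 0) (nat_lit 0) (nat_lit 0) (nat_lit 0x8017985b4) (nat_lit 536870912)]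
noncomputable def e42_53 : List Rx := [
  Rx.mk (nat_lit 316) (nat_lit 4) (nat_lit 7) (nat_lit 4) (nat_lit 2) (nat_lit 50) (nat_lit 147) r9_50 r4_147 (nat_lit 16343874) (nat_lit 0) (nat_lit 18784265) (nat_lit 0x65a8d64ce) (nat_lit 998625001),
  Rx.mk (nat_lit 317) (nat_lit 5) (nat_lit 7) (nat_lit 4) (nat_lit 3) (nat_lit 51) (nat_lit 148) r9_51 r4_148 (nat_lit 0) (nat_lit 0) (nat_lit 24741287) (nat_lit 0x8017985b4) (nat_lit 561612199),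
  Rx.mk (nat_lit 381) (nat_lit 5) (nat_lit 7) (nat_lit 5) (nat_lit 7) (nat_lit 52) (nat_lit 149) r9_52 r4_149 (nat_lit 0) (nat_lit 0) (nat_lit 0) (nat_lit 0x8017985b4) (nat_lit 536870912),
  Rx.mk (nat_lit 444) (nat_lit 4) (nat_lit 7) (nat_lit 6) (nat_lit 6) (nat_lit 53) (nat_lit 152) r9_53 r4_152 (nat_lit 24741287) (nat_lit 0) (nat_lit 0) (nat_lit 0x8017985b4) (nat_lit 561612199),
  Rx.mk (nat_lit 445) (nat_lit 5) (nat_lit 7) (nat_lit 6) (nat_lit 7) (nat_lit 54) (nat_lit 153) r9_54 r4_153 (nat_lit 0) (nat_lit 0) (nat_lit 0) (nat_lit 0x8017985b4) (nat_lit 536870912),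
  Rx.mk (nat_lit 446) (nat_lit 6) (nat_lit 7) (nat_lit 6) (nat_lit 7) (nat_lit 55) (nat_lit 154) r9_55 r4_154 (nat_lit 0) (nat_lit 0) (nat_lit 0) (nat_lit 0x8017985b4) (nat_lit 536870912),
  Rx.mk (nat_lit 476) (nat_lit 4) (nat_lit 3) (nat_lit 7) (nat_lit 6) (nat_lit 56) (nat_lit 144) r9_56 r4_144 (nat_lit 24741287) (nat_lit 0) (nat_lit 0) (nat_lit 0x8017985b4) (nat_lit 561612199),
  Rx.mk (nat_lit 477) (nat_lit 5) (nat_lit 3) (nat_lit 7) (nat_lit 7) (nat_lit 57) (nat_lit 145) r9_57 r4_145 (nat_lit 0) (nat_lit 0) (nat_lit 0) (nat_lit 0x8017985b4) (nat_lit 536870912),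
  Rx.mk (nat_lit 479) (nat_lit 7) (nat_lit 3) (nat_lit 7) (nat_lit 7) (nat_lit 58) (nat_lit 146) r9_58 r4_146 (nat_lit 0) (nat_lit 0) (nat_lit 0) (nat_lit 0x8017985b4) (nat_lit 536870912),
  Rx.mk (nat_lit 508) (nat_lit 4) (nat_lit 7) (nat_lit 7) (nat_lit 6) (nat_lit 59) (nat_lit 150) r9_59 r4_150 (nat_lit 24741287) (nat_lit 0) (nat_lit 0) (nat_lit 0x7ff8b06c4) (nat_lit 563504749),
  Rx.mk (nat_lit 509) (nat_lit 5) (nat_lit 7) (nat_lit 7) (nat_lit 7) (nat_lit 60) (nat_lit 151) r9_60 r4_151 (nat_lit 0) (nat_lit 0) (nat_lit 0) (nat_lit 0x8017985b4) (nat_lit 536870912)]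
noncomputable def e42_54 : List Rx := [
  Rx.mk (nat_lit 316) (nat_lit 4) (nat_lit 7) (nat_lit 4) (nat_lit 2) (nat_lit 209) (nat_lit 299) r9_209 r10_299 (nat_lit 65106199) (nat_lit 0) (nat_lit 34942940) (nat_lit 0x66b1feea6) (nat_lit 1046829251),
  Rx.mk (nat_lit 317) (nat_lit 5) (nat_lit 7) (nat_lit 4) (nat_lit 3) (nat_lit 210) (nat_lit 301) r9_210 r10_301 (nat_lit 0) (nat_lit 0) (nat_lit 25290688) (nat_lit 0x800987e2a) (nat_lit 563020650),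
  Rx.mk (nat_lit 381) (nat_lit 5) (nat_lit 7) (nat_lit 5) (nat_lit 7) (nat_lit 211) (nat_lit 302) r9_211 r10_302 (nat_lit 0) (nat_lit 0) (nat_lit 0) (nat_lit 0x8017985b4) (nat_lit 536870912),
  Rx.mk (nat_lit 508) (nat_lit 4) (nat_lit 7) (nat_lit 7) (nat_lit 6) (nat_lit 212) (nat_lit 300) r9_212 r10_300 (nat_lit 24741287) (nat_lit 0) (nat_lit 0) (nat_lit 0x8017985b4) (nat_lit 561612199),
  Rx.mk (nat_lit 509) (nat_lit 5) (nat_lit 7) (nat_lit 7) (nat_lit 7) (nat_lit 213) (nat_lit 303) r9_213 r10_303 (nat_lit 0) (nat_lit 0) (nat_lit 0) (nat_lit 0x8017985b4) (nat_lit 536870912)]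
noncomputable def e42_55 : List Rx := [
  Rx.mk (nat_lit 284) (nat_lit 4) (nat_lit 3) (nat_lit 4) (nat_lit 2) (nat_lit 229) (nat_lit 319) r9_229 r11_319 (nat_lit 47287016) (nat_lit 0) (nat_lit 47287016) (nat_lit 0x7cbaf48b0) (nat_lit 685204344),
  Rx.mk (nat_lit 285) (nat_lit 5) (nat_lit 3) (nat_lit 4) (nat_lit 3) (nat_lit 230) (nat_lit 323) r9_230 r11_323 (nat_lit 0) (nat_lit 0) (nat_lit 24741287) (nat_lit 0x8017985b4) (nat_lit 561612199),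
  Rx.mk (nat_lit 316) (nat_lit 4) (nat_lit 7) (nat_lit 4) (nat_lit 2) (nat_lit 231) (nat_lit 318) r9_231 r11_318 (nat_lit 43672610) (nat_lit 0) (nat_lit 43848106) (nat_lit 0x78800f28a) (nat_lit 746426178),
  Rx.mk (nat_lit 317) (nat_lit 5) (nat_lit 7) (nat_lit 4) (nat_lit 3) (nat_lit 232) (nat_lit 322) r9_232 r11_322 (nat_lit 0) (nat_lit 0) (nat_lit 24741287) (nat_lit 0x8017985b4) (nat_lit 561612199),
  Rx.mk (nat_lit 349) (nat_lit 5) (nat_lit 3) (nat_lit 5) (nat_lit 7) (nat_lit 233) (nat_lit 325) r9_233 r11_325 (nat_lit 0) (nat_lit 0) (nat_lit 0) (nat_lit 0x8017985b4) (nat_lit 536870912),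
  Rx.mk (nat_lit 381) (nat_lit 5) (nat_lit 7) (nat_lit 5) (nat_lit 7) (nat_lit 234) (nat_lit 324) r9_234 r11_324 (nat_lit 0) (nat_lit 0) (nat_lit 0) (nat_lit 0x8017985b4) (nat_lit 536870912),
  Rx.mk (nat_lit 444) (nat_lit 4) (nat_lit 7) (nat_lit 6) (nat_lit 6) (nat_lit 235) (nat_lit 321) r9_235 r11_321 (nat_lit 24741287) (nat_lit 0) (nat_lit 0) (nat_lit 0x8017985b4) (nat_lit 561612199),
  Rx.mk (nat_lit 445) (nat_lit 5) (nat_lit 7) (nat_lit 6) (nat_lit 7) (nat_lit 236) (nat_lit 327) r9_236 r11_327 (nat_lit 0) (nat_lit 0) (nat_lit 0) (nat_lit 0x8017985b4) (nat_lit 536870912),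
  Rx.mk (nat_lit 446) (nat_lit 6) (nat_lit 7) (nat_lit 6) (nat_lit 7) (nat_lit 237) (nat_lit 329) r9_237 r11_329 (nat_lit 0) (nat_lit 0) (nat_lit 0) (nat_lit 0x8017985b4) (nat_lit 536870912),
  Rx.mk (nat_lit 476) (nat_lit 4) (nat_lit 3) (nat_lit 7) (nat_lit 6) (nat_lit 238) (nat_lit 320) r9_238 r11_320 (nat_lit 24741287) (nat_lit 0) (nat_lit 0) (nat_lit 0x8017985b4) (nat_lit 561612199),
  Rx.mk (nat_lit 477) (nat_lit 5) (nat_lit 3) (nat_lit 7) (nat_lit 7) (nat_lit 239) (nat_lit 326) r9_239 r11_326 (nat_lit 0) (nat_lit 0) (nat_lit 0) (nat_lit 0x8017985b4) (nat_lit 536870912),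
  Rx.mk (nat_lit 479) (nat_lit 7) (nat_lit 3) (nat_lit 7) (nat_lit 7) (nat_lit 240) (nat_lit 328) r9_240 r11_328 (nat_lit 0) (nat_lit 0) (nat_lit 0) (nat_lit 0x8017985b4) (nat_lit 536870912)]
noncomputable def e42_56 : List Rx := [
  Rx.mk (nat_lit 477) (nat_lit 5) (nat_lit 3) (nat_lit 7) (nat_lit 7) (nat_lit 63) (nat_lit 150) r9_63 r5_150 (nat_lit 0) (nat_lit 0) (nat_lit 0) (nat_lit 0x8017985b4) (nat_lit 536870912),
  Rx.mk (nat_lit 509) (nat_lit 5) (nat_lit 7) (nat_lit 7) (nat_lit 7) (nat_lit 64) (nat_lit 151) r9_64 r5_151 (nat_lit 0) (nat_lit 0) (nat_lit 0) (nat_lit 0x7ffc47724) (nat_lit 538543512)]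
noncomputable def e42_57 : List Rx := [
  Rx.mk (nat_lit 509) (nat_lit 5) (nat_lit 7) (nat_lit 7) (nat_lit 7) (nat_lit 214) (nat_lit 164) r9_214 r11_164 (nat_lit 0) (nat_lit 0) (nat_lit 0) (nat_lit 0x8017985b4) (nat_lit 536870912)]
noncomputable def e42 : List (List Rx) := [e42_0, e42_1, e42_2, e42_3, e42_4, e42_5, e42_6, e42_7, e42_8, e42_9, e42_10, e42_11, e42_12, e42_13, e42_14, e42_15, e42_16, e42_17, e42_18, e42_19, e42_20, e42_21, e42_22, e42_23, e42_24, e42_25, e42_26, e42_27, e42_28, e42_29, e42_30, e42_31, e42_32, e42_33, e42_34, e42_35, e42_36, e42_37, e42_38, e42_39, e42_40, e42_41, e42_42, e42_43, e42_44, e42_45, e42_46, e42_47, e42_48, e42_49, e42_50, e42_51, e42_52, e42_53, e42_54, e42_55, e42_56, e42_57]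
noncomputable def e43_0 : List Rx := [
  Rx.mk (nat_lit 1) (nat_lit 1) (nat_lit 0) (nat_lit 0) (nat_lit 1) (nat_lit 180) (nat_lit 265) r1_180 r0_265 (nat_lit 0) (nat_lit 67542365) (nat_lit 14461079) (nat_lit 0x5cc089d90) (nat_lit 1189508356),
  Rx.mk (nat_lit 5) (nat_lit 5) (nat_lit 0) (nat_lit 0) (nat_lit 1) (nat_lit 179) (nat_lit 269) r1_179 r0_269 (nat_lit 0) (nat_lit 1205034172) (nat_lit 62636) (nat_lit 0x802a2cad6) (nat_lit 1739481320),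
  Rx.mk (nat_lit 65) (nat_lit 1) (nat_lit 0) (nat_lit 1) (nat_lit 5) (nat_lit 182) (nat_lit 266) r1_182 r0_266 (nat_lit 0) (nat_lit 30433232) (nat_lit 0) (nat_lit 0x7d7bf805c) (nat_lit 608923094),
  Rx.mk (nat_lit 69) (nat_lit 5) (nat_lit 0) (nat_lit 1) (nat_lit 5) (nat_lit 181) (nat_lit 270) r1_181 r0_270 (nat_lit 0) (nat_lit 72480076) (nat_lit 0) (nat_lit 0x7991dfe78) (nat_lit 713984088),
  Rx.mk (nat_lit 193) (nat_lit 1) (nat_lit 0) (nat_lit 3) (nat_lit 5) (nat_lit 183) (nat_lit 267) r1_183 r0_267 (nat_lit 0) (nat_lit 99141069) (nat_lit 0) (nat_lit 0x7f0a1588e) (nat_lit 652491131),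
  Rx.mk (nat_lit 217) (nat_lit 1) (nat_lit 3) (nat_lit 3) (nat_lit 7) (nat_lit 184) (nat_lit 268) r1_184 r0_268 (nat_lit 0) (nat_lit 0) (nat_lit 0) (nat_lit 0x7c86d8338) (nat_lit 593842712)]
noncomputable def e43_1 : List Rx := [
  Rx.mk (nat_lit 65) (nat_lit 1) (nat_lit 0) (nat_lit 1) (nat_lit 5) (nat_lit 186) (nat_lit 272) r1_186 r1_272 (nat_lit 0) (nat_lit 25191095) (nat_lit 0) (nat_lit 0x7f94f86e0) (nat_lit 570102157),
  Rx.mk (nat_lit 69) (nat_lit 5) (nat_lit 0) (nat_lit 1) (nat_lit 5) (nat_lit 185) (nat_lit 273) r1_185 r1_273 (nat_lit 0) (nat_lit 27314648) (nat_lit 0) (nat_lit 0x7fc62ebb0) (nat_lit 569113310)]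
noncomputable def e43_2 : List Rx := [
  Rx.mk (nat_lit 65) (nat_lit 1) (nat_lit 0) (nat_lit 1) (nat_lit 5) (nat_lit 282) (nat_lit 295) r1_282 r2_295 (nat_lit 0) (nat_lit 24741287) (nat_lit 0) (nat_lit 0x8017985b4) (nat_lit 561612199),
  Rx.mk (nat_lit 69) (nat_lit 5) (nat_lit 0) (nat_lit 1) (nat_lit 5) (nat_lit 281) (nat_lit 297) r1_281 r2_297 (nat_lit 0) (nat_lit 24741287) (nat_lit 0) (nat_lit 0x80411f176) (nat_lit 559058049),
  Rx.mk (nat_lit 73) (nat_lit 1) (nat_lit 1) (nat_lit 1) (nat_lit 7) (nat_lit 285) (nat_lit 296) r1_285 r2_296 (nat_lit 0) (nat_lit 0) (nat_lit 0) (nat_lit 0x8017985b4) (nat_lit 536870912),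
  Rx.mk (nat_lit 77) (nat_lit 5) (nat_lit 1) (nat_lit 1) (nat_lit 7) (nat_lit 284) (nat_lit 299) r1_284 r2_299 (nat_lit 0) (nat_lit 0) (nat_lit 0) (nat_lit 0x8017985b4) (nat_lit 536870912),
  Rx.mk (nat_lit 325) (nat_lit 5) (nat_lit 0) (nat_lit 5) (nat_lit 5) (nat_lit 280) (nat_lit 298) r1_280 r2_298 (nat_lit 0) (nat_lit 34697810) (nat_lit 0) (nat_lit 0x7fda33674) (nat_lit 575291622),
  Rx.mk (nat_lit 333) (nat_lit 5) (nat_lit 1) (nat_lit 5) (nat_lit 7) (nat_lit 283) (nat_lit 300) r1_283 r2_300 (nat_lit 0) (nat_lit 0) (nat_lit 0) (nat_lit 0x8017985b4) (nat_lit 536870912)]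
noncomputable def e43_3 : List Rx := [
  Rx.mk (nat_lit 193) (nat_lit 1) (nat_lit 0) (nat_lit 3) (nat_lit 5) (nat_lit 67) (nat_lit 262) r1_67 r3_262 (nat_lit 0) (nat_lit 187256) (nat_lit 0) (nat_lit 0x7e7e37ede) (nat_lit 561441168),
  Rx.mk (nat_lit 197) (nat_lit 5) (nat_lit 0) (nat_lit 3) (nat_lit 5) (nat_lit 66) (nat_lit 264) r1_66 r3_264 (nat_lit 0) (nat_lit 15428) (nat_lit 0) (nat_lit 0x81eea1d52) (nat_lit 507420490),
  Rx.mk (nat_lit 217) (nat_lit 1) (nat_lit 3) (nat_lit 3) (nat_lit 7) (nat_lit 68) (nat_lit 263) r1_68 r3_263 (nat_lit 0) (nat_lit 0) (nat_lit 0) (nat_lit 0x802f26848) (nat_lit 535238762)]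
noncomputable def e43_4 : List Rx := [
  Rx.mk (nat_lit 5) (nat_lit 5) (nat_lit 0) (nat_lit 0) (nat_lit 1) (nat_lit 187) (nat_lit 281) r1_187 r4_281 (nat_lit 0) (nat_lit 131619701) (nat_lit 12745069) (nat_lit 0x669364acc) (nat_lit 1092912382),
  Rx.mk (nat_lit 69) (nat_lit 5) (nat_lit 0) (nat_lit 1) (nat_lit 5) (nat_lit 188) (nat_lit 282) r1_188 r4_282 (nat_lit 0) (nat_lit 25655830) (nat_lit 0) (nat_lit 0x7fff0d792) (nat_lit 563934392),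
  Rx.mk (nat_lit 193) (nat_lit 1) (nat_lit 0) (nat_lit 3) (nat_lit 5) (nat_lit 190) (nat_lit 279) r1_190 r4_279 (nat_lit 0) (nat_lit 124425147) (nat_lit 0) (nat_lit 0x7ecc4e244) (nat_lit 681601709),
  Rx.mk (nat_lit 197) (nat_lit 5) (nat_lit 0) (nat_lit 3) (nat_lit 5) (nat_lit 189) (nat_lit 283) r1_189 r4_283 (nat_lit 0) (nat_lit 277566866) (nat_lit 0) (nat_lit 0x7d3bb22a4) (nat_lit 859858978),
  Rx.mk (nat_lit 217) (nat_lit 1) (nat_lit 3) (nat_lit 3) (nat_lit 7) (nat_lit 191) (nat_lit 280) r1_191 r4_280 (nat_lit 0) (nat_lit 0) (nat_lit 0) (nat_lit 0x80304a1b6) (nat_lit 535245512)]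
noncomputable def e43_5 : List Rx := [
  Rx.mk (nat_lit 193) (nat_lit 1) (nat_lit 0) (nat_lit 3) (nat_lit 5) (nat_lit 243) (nat_lit 267) r1_243 r5_267 (nat_lit 0) (nat_lit 91702614) (nat_lit 0) (nat_lit 0x80aaf72a6) (nat_lit 619301176),
  Rx.mk (nat_lit 197) (nat_lit 5) (nat_lit 0) (nat_lit 3) (nat_lit 5) (nat_lit 242) (nat_lit 268) r1_242 r5_268 (nat_lit 0) (nat_lit 100423417) (nat_lit 0) (nat_lit 0x83d8b6e82) (nat_lit 579086629)]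
noncomputable def e43_6 : List Rx := [
  Rx.mk (nat_lit 261) (nat_lit 5) (nat_lit 0) (nat_lit 4) (nat_lit 1) (nat_lit 293) (nat_lit 272) r1_293 r3_272 (nat_lit 0) (nat_lit 12607) (nat_lit 11530) (nat_lit 0x8001f4cc6) (nat_lit 536785599),
  Rx.mk (nat_lit 269) (nat_lit 5) (nat_lit 1) (nat_lit 4) (nat_lit 3) (nat_lit 295) (nat_lit 274) r1_295 r3_274 (nat_lit 0) (nat_lit 0) (nat_lit 220600) (nat_lit 0x7fe1be20e) (nat_lit 539042412),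
  Rx.mk (nat_lit 453) (nat_lit 5) (nat_lit 0) (nat_lit 7) (nat_lit 5) (nat_lit 294) (nat_lit 273) r1_294 r3_273 (nat_lit 0) (nat_lit 10831797) (nat_lit 0) (nat_lit 0x81a17f3bc) (nat_lit 523520059),
  Rx.mk (nat_lit 461) (nat_lit 5) (nat_lit 1) (nat_lit 7) (nat_lit 7) (nat_lit 296) (nat_lit 275) r1_296 r3_275 (nat_lit 0) (nat_lit 0) (nat_lit 0) (nat_lit 0x8071f5700) (nat_lit 530794662)]
noncomputable def e43_7 : List Rx := [
  Rx.mk (nat_lit 269) (nat_lit 5) (nat_lit 1) (nat_lit 4) (nat_lit 3) (nat_lit 253) (nat_lit 283) r1_253 r0_283 (nat_lit 0) (nat_lit 0) (nat_lit 24741287) (nat_lit 0x7fb668af0) (nat_lit 567576349),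
  Rx.mk (nat_lit 325) (nat_lit 5) (nat_lit 0) (nat_lit 5) (nat_lit 5) (nat_lit 252) (nat_lit 282) r1_252 r0_282 (nat_lit 0) (nat_lit 585345170) (nat_lit 0) (nat_lit 0x801301b72) (nat_lit 1121100632),
  Rx.mk (nat_lit 333) (nat_lit 5) (nat_lit 1) (nat_lit 5) (nat_lit 7) (nat_lit 254) (nat_lit 284) r1_254 r0_284 (nat_lit 0) (nat_lit 0) (nat_lit 0) (nat_lit 0x7fcf556ee) (nat_lit 541249062)]
noncomputable def e43_8 : List Rx := [
  Rx.mk (nat_lit 325) (nat_lit 5) (nat_lit 0) (nat_lit 5) (nat_lit 5) (nat_lit 278) (nat_lit 278) r1_278 r1_278 (nat_lit 0) (nat_lit 46726331) (nat_lit 0) (nat_lit 0x7ff035c7e) (nat_lit 585800043),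
  Rx.mk (nat_lit 333) (nat_lit 5) (nat_lit 1) (nat_lit 5) (nat_lit 7) (nat_lit 279) (nat_lit 279) r1_279 r1_279 (nat_lit 0) (nat_lit 0) (nat_lit 0) (nat_lit 0x8017985b4) (nat_lit 536870912)]
noncomputable def e43_9 : List Rx := [
  Rx.mk (nat_lit 261) (nat_lit 5) (nat_lit 0) (nat_lit 4) (nat_lit 1) (nat_lit 297) (nat_lit 293) r1_297 r4_293 (nat_lit 0) (nat_lit 79659509) (nat_lit 16666109) (nat_lit 0x6e82c4200) (nat_lit 916697780),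
  Rx.mk (nat_lit 269) (nat_lit 5) (nat_lit 1) (nat_lit 4) (nat_lit 3) (nat_lit 300) (nat_lit 296) r1_300 r4_296 (nat_lit 0) (nat_lit 0) (nat_lit 21556671) (nat_lit 0x801c58cca) (nat_lit 558112583),
  Rx.mk (nat_lit 325) (nat_lit 5) (nat_lit 0) (nat_lit 5) (nat_lit 5) (nat_lit 298) (nat_lit 294) r1_298 r4_294 (nat_lit 0) (nat_lit 132162371) (nat_lit 0) (nat_lit 0x7a51f7832) (nat_lit 761496733),
  Rx.mk (nat_lit 333) (nat_lit 5) (nat_lit 1) (nat_lit 5) (nat_lit 7) (nat_lit 301) (nat_lit 297) r1_301 r4_297 (nat_lit 0) (nat_lit 0) (nat_lit 0) (nat_lit 0x80b000be4) (nat_lit 527525712),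
  Rx.mk (nat_lit 453) (nat_lit 5) (nat_lit 0) (nat_lit 7) (nat_lit 5) (nat_lit 299) (nat_lit 295) r1_299 r4_295 (nat_lit 0) (nat_lit 29428945) (nat_lit 0) (nat_lit 0x800d7d0e8) (nat_lit 566895407),
  Rx.mk (nat_lit 461) (nat_lit 5) (nat_lit 1) (nat_lit 7) (nat_lit 7) (nat_lit 302) (nat_lit 298) r1_302 r4_298 (nat_lit 0) (nat_lit 0) (nat_lit 0) (nat_lit 0x80691f28e) (nat_lit 531863312)]
noncomputable def e43_10 : List Rx := [
  Rx.mk (nat_lit 197) (nat_lit 5) (nat_lit 0) (nat_lit 3) (nat_lit 5) (nat_lit 241) (nat_lit 298) r1_241 r6_298 (nat_lit 0) (nat_lit 15511582) (nat_lit 0) (nat_lit 0x81bcd1ade) (nat_lit 526733344),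
  Rx.mk (nat_lit 453) (nat_lit 5) (nat_lit 0) (nat_lit 7) (nat_lit 5) (nat_lit 240) (nat_lit 299) r1_240 r6_299 (nat_lit 0) (nat_lit 861113) (nat_lit 0) (nat_lit 0x81f140aa4) (nat_lit 508285625)]
noncomputable def e43_11 : List Rx := [
  Rx.mk (nat_lit 453) (nat_lit 5) (nat_lit 0) (nat_lit 7) (nat_lit 5) (nat_lit 303) (nat_lit 273) r1_303 r5_273 (nat_lit 0) (nat_lit 15528047) (nat_lit 0) (nat_lit 0x815c32e9e) (nat_lit 532577559),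
  Rx.mk (nat_lit 461) (nat_lit 5) (nat_lit 1) (nat_lit 7) (nat_lit 7) (nat_lit 304) (nat_lit 274) r1_304 r5_274 (nat_lit 0) (nat_lit 0) (nat_lit 0) (nat_lit 0x825a7268a) (nat_lit 501688462)]
noncomputable def e43_12 : List Rx := [
  Rx.mk (nat_lit 17) (nat_lit 1) (nat_lit 2) (nat_lit 0) (nat_lit 3) (nat_lit 70) (nat_lit 75) r1_70 r0_75 (nat_lit 0) (nat_lit 0) (nat_lit 11807158) (nat_lit 0x7ffe24146) (nat_lit 550115770),
  Rx.mk (nat_lit 193) (nat_lit 1) (nat_lit 0) (nat_lit 3) (nat_lit 5) (nat_lit 69) (nat_lit 76) r1_69 r0_76 (nat_lit 0) (nat_lit 21882932) (nat_lit 0) (nat_lit 0x7e18dc364) (nat_lit 590459594),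
  Rx.mk (nat_lit 209) (nat_lit 1) (nat_lit 2) (nat_lit 3) (nat_lit 7) (nat_lit 71) (nat_lit 78) r1_71 r0_78 (nat_lit 0) (nat_lit 0) (nat_lit 0) (nat_lit 0x8272ee83a) (nat_lit 500330612),
  Rx.mk (nat_lit 217) (nat_lit 1) (nat_lit 3) (nat_lit 3) (nat_lit 7) (nat_lit 72) (nat_lit 77) r1_72 r0_77 (nat_lit 0) (nat_lit 0) (nat_lit 0) (nat_lit 0x8008dd830) (nat_lit 537772712)]
noncomputable def e43_13 : List Rx := [
  Rx.mk (nat_lit 1) (nat_lit 1) (nat_lit 0) (nat_lit 0) (nat_lit 1) (nat_lit 192) (nat_lit 381) r1_192 r7_381 (nat_lit 0) (nat_lit 25112477) (nat_lit 16757287) (nat_lit 0x6c3762d4a) (nat_lit 899304226),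
  Rx.mk (nat_lit 17) (nat_lit 1) (nat_lit 2) (nat_lit 0) (nat_lit 3) (nat_lit 195) (nat_lit 385) r1_195 r7_385 (nat_lit 0) (nat_lit 0) (nat_lit 19851321) (nat_lit 0x80224bf92) (nat_lit 556043533),
  Rx.mk (nat_lit 65) (nat_lit 1) (nat_lit 0) (nat_lit 1) (nat_lit 5) (nat_lit 193) (nat_lit 382) r1_193 r7_382 (nat_lit 0) (nat_lit 25314926) (nat_lit 0) (nat_lit 0x7f9e34eca) (nat_lit 569620288),
  Rx.mk (nat_lit 81) (nat_lit 1) (nat_lit 2) (nat_lit 1) (nat_lit 7) (nat_lit 196) (nat_lit 386) r1_196 r7_386 (nat_lit 0) (nat_lit 0) (nat_lit 0) (nat_lit 0x8017985b4) (nat_lit 536870912),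
  Rx.mk (nat_lit 193) (nat_lit 1) (nat_lit 0) (nat_lit 3) (nat_lit 5) (nat_lit 194) (nat_lit 383) r1_194 r7_383 (nat_lit 0) (nat_lit 30395325) (nat_lit 0) (nat_lit 0x809096c2c) (nat_lit 559824137),
  Rx.mk (nat_lit 209) (nat_lit 1) (nat_lit 2) (nat_lit 3) (nat_lit 7) (nat_lit 197) (nat_lit 387) r1_197 r7_387 (nat_lit 0) (nat_lit 0) (nat_lit 0) (nat_lit 0x8017985b4) (nat_lit 536870912),
  Rx.mk (nat_lit 217) (nat_lit 1) (nat_lit 3) (nat_lit 3) (nat_lit 7) (nat_lit 198) (nat_lit 384) r1_198 r7_384 (nat_lit 0) (nat_lit 0) (nat_lit 0) (nat_lit 0x8018dbc28) (nat_lit 536671062)]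
noncomputable def e43_14 : List Rx := [
  Rx.mk (nat_lit 16) (nat_lit 0) (nat_lit 2) (nat_lit 0) (nat_lit 2) (nat_lit 75) (nat_lit 73) r1_75 r1_73 (nat_lit 15490975) (nat_lit 0) (nat_lit 31186734) (nat_lit 0x737c3593e) (nat_lit 786645371),
  Rx.mk (nat_lit 17) (nat_lit 1) (nat_lit 2) (nat_lit 0) (nat_lit 3) (nat_lit 76) (nat_lit 74) r1_76 r1_74 (nat_lit 0) (nat_lit 0) (nat_lit 21613846) (nat_lit 0x803338576) (nat_lit 556779258),
  Rx.mk (nat_lit 144) (nat_lit 0) (nat_lit 2) (nat_lit 2) (nat_lit 6) (nat_lit 77) (nat_lit 82) r1_77 r1_82 (nat_lit 24482746) (nat_lit 0) (nat_lit 0) (nat_lit 0x7fe0acf14) (nat_lit 564715758),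
  Rx.mk (nat_lit 145) (nat_lit 1) (nat_lit 2) (nat_lit 2) (nat_lit 7) (nat_lit 78) (nat_lit 83) r1_78 r1_83 (nat_lit 0) (nat_lit 0) (nat_lit 0) (nat_lit 0x8017985b4) (nat_lit 536870912),
  Rx.mk (nat_lit 146) (nat_lit 2) (nat_lit 2) (nat_lit 2) (nat_lit 7) (nat_lit 79) (nat_lit 84) r1_79 r1_84 (nat_lit 0) (nat_lit 0) (nat_lit 0) (nat_lit 0x8017985b4) (nat_lit 536870912),
  Rx.mk (nat_lit 192) (nat_lit 0) (nat_lit 0) (nat_lit 3) (nat_lit 4) (nat_lit 73) (nat_lit 75) r1_73 r1_75 (nat_lit 15490975) (nat_lit 31186734) (nat_lit 0) (nat_lit 0x737c3593e) (nat_lit 786645371),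
  Rx.mk (nat_lit 193) (nat_lit 1) (nat_lit 0) (nat_lit 3) (nat_lit 5) (nat_lit 74) (nat_lit 76) r1_74 r1_76 (nat_lit 0) (nat_lit 21613846) (nat_lit 0) (nat_lit 0x803338576) (nat_lit 556779258),
  Rx.mk (nat_lit 208) (nat_lit 0) (nat_lit 2) (nat_lit 3) (nat_lit 6) (nat_lit 80) (nat_lit 80) r1_80 r1_80 (nat_lit 11124082) (nat_lit 0) (nat_lit 0) (nat_lit 0x80f4f92b4) (nat_lit 534436844),
  Rx.mk (nat_lit 209) (nat_lit 1) (nat_lit 2) (nat_lit 3) (nat_lit 7) (nat_lit 81) (nat_lit 81) r1_81 r1_81 (nat_lit 0) (nat_lit 0) (nat_lit 0) (nat_lit 0x808fc0672) (nat_lit 529500412),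
  Rx.mk (nat_lit 216) (nat_lit 0) (nat_lit 3) (nat_lit 3) (nat_lit 6) (nat_lit 82) (nat_lit 77) r1_82 r1_77 (nat_lit 24482746) (nat_lit 0) (nat_lit 0) (nat_lit 0x7fe0acf14) (nat_lit 564715758),
  Rx.mk (nat_lit 217) (nat_lit 1) (nat_lit 3) (nat_lit 3) (nat_lit 7) (nat_lit 83) (nat_lit 78) r1_83 r1_78 (nat_lit 0) (nat_lit 0) (nat_lit 0) (nat_lit 0x8017985b4) (nat_lit 536870912),
  Rx.mk (nat_lit 219) (nat_lit 3) (nat_lit 3) (nat_lit 3) (nat_lit 7) (nat_lit 84) (nat_lit 79) r1_84 r1_79 (nat_lit 0) (nat_lit 0) (nat_lit 0) (nat_lit 0x8017985b4) (nat_lit 536870912)]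
noncomputable def e43_15 : List Rx := [
  Rx.mk (nat_lit 0) (nat_lit 0) (nat_lit 0) (nat_lit 0) (nat_lit 0) (nat_lit 201) (nat_lit 283) r1_201 r8_283 (nat_lit 11826643) (nat_lit 34852659) (nat_lit 20700425) (nat_lit 0x3dc59600a) (nat_lit 1675850589),
  Rx.mk (nat_lit 1) (nat_lit 1) (nat_lit 0) (nat_lit 0) (nat_lit 1) (nat_lit 202) (nat_lit 289) r1_202 r8_289 (nat_lit 0) (nat_lit 29801349) (nat_lit 32376877) (nat_lit 0x669a3f496) (nat_lit 1010443188),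
  Rx.mk (nat_lit 16) (nat_lit 0) (nat_lit 2) (nat_lit 0) (nat_lit 2) (nat_lit 206) (nat_lit 286) r1_206 r8_286 (nat_lit 31654428) (nat_lit 0) (nat_lit 33972801) (nat_lit 0x6c187865a) (nat_lit 925088641),
  Rx.mk (nat_lit 17) (nat_lit 1) (nat_lit 2) (nat_lit 0) (nat_lit 3) (nat_lit 207) (nat_lit 293) r1_207 r8_293 (nat_lit 0) (nat_lit 0) (nat_lit 25834482) (nat_lit 0x7f77d0d42) (nat_lit 572534144),
  Rx.mk (nat_lit 65) (nat_lit 1) (nat_lit 0) (nat_lit 1) (nat_lit 5) (nat_lit 203) (nat_lit 290) r1_203 r8_290 (nat_lit 0) (nat_lit 25018304) (nat_lit 0) (nat_lit 0x7fdcdbf2a) (nat_lit 565476766),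
  Rx.mk (nat_lit 81) (nat_lit 1) (nat_lit 2) (nat_lit 1) (nat_lit 7) (nat_lit 208) (nat_lit 294) r1_208 r8_294 (nat_lit 0) (nat_lit 0) (nat_lit 0) (nat_lit 0x8017985b4) (nat_lit 536870912),
  Rx.mk (nat_lit 144) (nat_lit 0) (nat_lit 2) (nat_lit 2) (nat_lit 6) (nat_lit 209) (nat_lit 288) r1_209 r8_288 (nat_lit 24741287) (nat_lit 0) (nat_lit 0) (nat_lit 0x8017985b4) (nat_lit 561612199),
  Rx.mk (nat_lit 145) (nat_lit 1) (nat_lit 2) (nat_lit 2) (nat_lit 7) (nat_lit 210) (nat_lit 296) r1_210 r8_296 (nat_lit 0) (nat_lit 0) (nat_lit 0) (nat_lit 0x8017985b4) (nat_lit 536870912),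
  Rx.mk (nat_lit 146) (nat_lit 2) (nat_lit 2) (nat_lit 2) (nat_lit 7) (nat_lit 211) (nat_lit 298) r1_211 r8_298 (nat_lit 0) (nat_lit 0) (nat_lit 0) (nat_lit 0x8017985b4) (nat_lit 536870912),
  Rx.mk (nat_lit 192) (nat_lit 0) (nat_lit 0) (nat_lit 3) (nat_lit 4) (nat_lit 204) (nat_lit 284) r1_204 r8_284 (nat_lit 26799246) (nat_lit 57475971) (nat_lit 0) (nat_lit 0x672d75b5c) (nat_lit 1023262029),
  Rx.mk (nat_lit 193) (nat_lit 1) (nat_lit 0) (nat_lit 3) (nat_lit 5) (nat_lit 205) (nat_lit 291) r1_205 r8_291 (nat_lit 0) (nat_lit 25047671) (nat_lit 0) (nat_lit 0x804337652) (nat_lit 559218933),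
  Rx.mk (nat_lit 208) (nat_lit 0) (nat_lit 2) (nat_lit 3) (nat_lit 6) (nat_lit 212) (nat_lit 287) r1_212 r8_287 (nat_lit 24741287) (nat_lit 0) (nat_lit 0) (nat_lit 0x8017985b4) (nat_lit 561612199),
  Rx.mk (nat_lit 209) (nat_lit 1) (nat_lit 2) (nat_lit 3) (nat_lit 7) (nat_lit 213) (nat_lit 295) r1_213 r8_295 (nat_lit 0) (nat_lit 0) (nat_lit 0) (nat_lit 0x8017985b4) (nat_lit 536870912),
  Rx.mk (nat_lit 216) (nat_lit 0) (nat_lit 3) (nat_lit 3) (nat_lit 6) (nat_lit 214) (nat_lit 285) r1_214 r8_285 (nat_lit 25082552) (nat_lit 0) (nat_lit 0) (nat_lit 0x71434a6d0) (nat_lit 800991214),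
  Rx.mk (nat_lit 217) (nat_lit 1) (nat_lit 3) (nat_lit 3) (nat_lit 7) (nat_lit 215) (nat_lit 292) r1_215 r8_292 (nat_lit 0) (nat_lit 0) (nat_lit 0) (nat_lit 0x808e1a7dc) (nat_lit 529571662),
  Rx.mk (nat_lit 219) (nat_lit 3) (nat_lit 3) (nat_lit 3) (nat_lit 7) (nat_lit 216) (nat_lit 297) r1_216 r8_297 (nat_lit 0) (nat_lit 0) (nat_lit 0) (nat_lit 0x7ed9578a0) (nat_lit 556568262)]
noncomputable def e43_16 : List Rx := [
  Rx.mk (nat_lit 65) (nat_lit 1) (nat_lit 0) (nat_lit 1) (nat_lit 5) (nat_lit 199) (nat_lit 66) r1_199 r8_66 (nat_lit 0) (nat_lit 24741287) (nat_lit 0) (nat_lit 0x8001ac32c) (nat_lit 562953699),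
  Rx.mk (nat_lit 81) (nat_lit 1) (nat_lit 2) (nat_lit 1) (nat_lit 7) (nat_lit 200) (nat_lit 67) r1_200 r8_67 (nat_lit 0) (nat_lit 0) (nat_lit 0) (nat_lit 0x8017985b4) (nat_lit 536870912)]
noncomputable def e43_17 : List Rx := [
  Rx.mk (nat_lit 65) (nat_lit 1) (nat_lit 0) (nat_lit 1) (nat_lit 5) (nat_lit 290) (nat_lit 286) r1_290 r9_286 (nat_lit 0) (nat_lit 24741287) (nat_lit 0) (nat_lit 0x7fa9dd1b4) (nat_lit 568325299),
  Rx.mk (nat_lit 73) (nat_lit 1) (nat_lit 1) (nat_lit 1) (nat_lit 7) (nat_lit 291) (nat_lit 287) r1_291 r9_287 (nat_lit 0) (nat_lit 0) (nat_lit 0) (nat_lit 0x8017985b4) (nat_lit 536870912),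
  Rx.mk (nat_lit 81) (nat_lit 1) (nat_lit 2) (nat_lit 1) (nat_lit 7) (nat_lit 292) (nat_lit 288) r1_292 r9_288 (nat_lit 0) (nat_lit 0) (nat_lit 0) (nat_lit 0x8017985b4) (nat_lit 536870912)]
noncomputable def e43_18 : List Rx := [
  Rx.mk (nat_lit 193) (nat_lit 1) (nat_lit 0) (nat_lit 3) (nat_lit 5) (nat_lit 85) (nat_lit 71) r1_85 r4_71 (nat_lit 0) (nat_lit 18076853) (nat_lit 0) (nat_lit 0x7feb22318) (nat_lit 557573915),
  Rx.mk (nat_lit 209) (nat_lit 1) (nat_lit 2) (nat_lit 3) (nat_lit 7) (nat_lit 86) (nat_lit 73) r1_86 r4_73 (nat_lit 0) (nat_lit 0) (nat_lit 0) (nat_lit 0x8445fa28c) (nat_lit 472429712),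
  Rx.mk (nat_lit 217) (nat_lit 1) (nat_lit 3) (nat_lit 3) (nat_lit 7) (nat_lit 87) (nat_lit 72) r1_87 r4_72 (nat_lit 0) (nat_lit 0) (nat_lit 0) (nat_lit 0x8017985b4) (nat_lit 536870912)]
noncomputable def e43_19 : List Rx := [
  Rx.mk (nat_lit 193) (nat_lit 1) (nat_lit 0) (nat_lit 3) (nat_lit 5) (nat_lit 217) (nat_lit 314) r1_217 r10_314 (nat_lit 0) (nat_lit 25153554) (nat_lit 0) (nat_lit 0x80e8b8eaa) (nat_lit 549278466),
  Rx.mk (nat_lit 209) (nat_lit 1) (nat_lit 2) (nat_lit 3) (nat_lit 7) (nat_lit 218) (nat_lit 316) r1_218 r10_316 (nat_lit 0) (nat_lit 0) (nat_lit 0) (nat_lit 0x8017985b4) (nat_lit 536870912),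
  Rx.mk (nat_lit 217) (nat_lit 1) (nat_lit 3) (nat_lit 3) (nat_lit 7) (nat_lit 219) (nat_lit 315) r1_219 r10_315 (nat_lit 0) (nat_lit 0) (nat_lit 0) (nat_lit 0x81b14ef04) (nat_lit 511970262)]
noncomputable def e43_20 : List Rx := [
  Rx.mk (nat_lit 193) (nat_lit 1) (nat_lit 0) (nat_lit 3) (nat_lit 5) (nat_lit 244) (nat_lit 333) r1_244 r11_333 (nat_lit 0) (nat_lit 16971006) (nat_lit 0) (nat_lit 0x8058c13c4) (nat_lit 549817368),
  Rx.mk (nat_lit 209) (nat_lit 1) (nat_lit 2) (nat_lit 3) (nat_lit 7) (nat_lit 245) (nat_lit 334) r1_245 r11_334 (nat_lit 0) (nat_lit 0) (nat_lit 0) (nat_lit 0x814704da6) (nat_lit 518377612)]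
noncomputable def e43_21 : List Rx := [
  Rx.mk (nat_lit 73) (nat_lit 1) (nat_lit 1) (nat_lit 1) (nat_lit 7) (nat_lit 289) (nat_lit 292) r1_289 r9_292 (nat_lit 0) (nat_lit 0) (nat_lit 0) (nat_lit 0x8017985b4) (nat_lit 536870912),
  Rx.mk (nat_lit 77) (nat_lit 5) (nat_lit 1) (nat_lit 1) (nat_lit 7) (nat_lit 288) (nat_lit 291) r1_288 r9_291 (nat_lit 0) (nat_lit 0) (nat_lit 0) (nat_lit 0x8017985b4) (nat_lit 536870912),
  Rx.mk (nat_lit 333) (nat_lit 5) (nat_lit 1) (nat_lit 5) (nat_lit 7) (nat_lit 287) (nat_lit 290) r1_287 r9_290 (nat_lit 0) (nat_lit 0) (nat_lit 0) (nat_lit 0x8017985b4) (nat_lit 536870912)]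
noncomputable def e43_22 : List Rx := [
  Rx.mk (nat_lit 269) (nat_lit 5) (nat_lit 1) (nat_lit 4) (nat_lit 3) (nat_lit 255) (nat_lit 173) r1_255 r0_173 (nat_lit 0) (nat_lit 0) (nat_lit 106862022) (nat_lit 0x7ee0fa15c) (nat_lit 662779834)]
noncomputable def e43_23 : List Rx := [
  Rx.mk (nat_lit 269) (nat_lit 5) (nat_lit 1) (nat_lit 4) (nat_lit 3) (nat_lit 273) (nat_lit 185) r1_273 r1_185 (nat_lit 0) (nat_lit 0) (nat_lit 27314648) (nat_lit 0x7fc62ebb0) (nat_lit 569113310),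
  Rx.mk (nat_lit 301) (nat_lit 5) (nat_lit 5) (nat_lit 4) (nat_lit 3) (nat_lit 272) (nat_lit 186) r1_272 r1_186 (nat_lit 0) (nat_lit 0) (nat_lit 25191095) (nat_lit 0x7f94f86e0) (nat_lit 570102157)]
noncomputable def e43_24 : List Rx := [
  Rx.mk (nat_lit 269) (nat_lit 5) (nat_lit 1) (nat_lit 4) (nat_lit 3) (nat_lit 305) (nat_lit 159) r1_305 r4_159 (nat_lit 0) (nat_lit 0) (nat_lit 25741495) (nat_lit 0x7f774491e) (nat_lit 572424907),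
  Rx.mk (nat_lit 461) (nat_lit 5) (nat_lit 1) (nat_lit 7) (nat_lit 7) (nat_lit 306) (nat_lit 160) r1_306 r4_160 (nat_lit 0) (nat_lit 0) (nat_lit 0) (nat_lit 0x80964275c) (nat_lit 529102962)]
noncomputable def e43_25 : List Rx := [
  Rx.mk (nat_lit 269) (nat_lit 5) (nat_lit 1) (nat_lit 4) (nat_lit 3) (nat_lit 256) (nat_lit 397) r1_256 r7_397 (nat_lit 0) (nat_lit 0) (nat_lit 24741287) (nat_lit 0x8017985b4) (nat_lit 561612199),
  Rx.mk (nat_lit 333) (nat_lit 5) (nat_lit 1) (nat_lit 5) (nat_lit 7) (nat_lit 257) (nat_lit 398) r1_257 r7_398 (nat_lit 0) (nat_lit 0) (nat_lit 0) (nat_lit 0x8017985b4) (nat_lit 536870912)]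
noncomputable def e43_26 : List Rx := [
  Rx.mk (nat_lit 269) (nat_lit 5) (nat_lit 1) (nat_lit 4) (nat_lit 3) (nat_lit 276) (nat_lit 318) r1_276 r8_318 (nat_lit 0) (nat_lit 0) (nat_lit 24741287) (nat_lit 0x8017985b4) (nat_lit 561612199),
  Rx.mk (nat_lit 301) (nat_lit 5) (nat_lit 5) (nat_lit 4) (nat_lit 3) (nat_lit 274) (nat_lit 316) r1_274 r8_316 (nat_lit 0) (nat_lit 0) (nat_lit 24586055) (nat_lit 0x80057ba20) (nat_lit 562565917),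
  Rx.mk (nat_lit 333) (nat_lit 5) (nat_lit 1) (nat_lit 5) (nat_lit 7) (nat_lit 277) (nat_lit 319) r1_277 r8_319 (nat_lit 0) (nat_lit 0) (nat_lit 0) (nat_lit 0x8017985b4) (nat_lit 536870912),
  Rx.mk (nat_lit 365) (nat_lit 5) (nat_lit 5) (nat_lit 5) (nat_lit 7) (nat_lit 275) (nat_lit 317) r1_275 r8_317 (nat_lit 0) (nat_lit 0) (nat_lit 0) (nat_lit 0x8017985b4) (nat_lit 536870912)]
noncomputable def e43_27 : List Rx := [
  Rx.mk (nat_lit 333) (nat_lit 5) (nat_lit 1) (nat_lit 5) (nat_lit 7) (nat_lit 286) (nat_lit 180) r1_286 r8_180 (nat_lit 0) (nat_lit 0) (nat_lit 0) (nat_lit 0x8017985b4) (nat_lit 536870912)]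
noncomputable def e43_28 : List Rx := [
  Rx.mk (nat_lit 269) (nat_lit 5) (nat_lit 1) (nat_lit 4) (nat_lit 3) (nat_lit 307) (nat_lit 320) r1_307 r10_320 (nat_lit 0) (nat_lit 0) (nat_lit 24741287) (nat_lit 0x8017985b4) (nat_lit 561612199),
  Rx.mk (nat_lit 333) (nat_lit 5) (nat_lit 1) (nat_lit 5) (nat_lit 7) (nat_lit 308) (nat_lit 321) r1_308 r10_321 (nat_lit 0) (nat_lit 0) (nat_lit 0) (nat_lit 0x8017985b4) (nat_lit 536870912),
  Rx.mk (nat_lit 461) (nat_lit 5) (nat_lit 1) (nat_lit 7) (nat_lit 7) (nat_lit 309) (nat_lit 322) r1_309 r10_322 (nat_lit 0) (nat_lit 0) (nat_lit 0) (nat_lit 0x8017985b4) (nat_lit 536870912)]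
noncomputable def e43_29 : List Rx := [
  Rx.mk (nat_lit 461) (nat_lit 5) (nat_lit 1) (nat_lit 7) (nat_lit 7) (nat_lit 310) (nat_lit 338) r1_310 r11_338 (nat_lit 0) (nat_lit 0) (nat_lit 0) (nat_lit 0x8017985b4) (nat_lit 536870912)]
noncomputable def e43_30 : List Rx := [
  Rx.mk (nat_lit 197) (nat_lit 5) (nat_lit 0) (nat_lit 3) (nat_lit 5) (nat_lit 91) (nat_lit 63) r1_91 r5_63 (nat_lit 0) (nat_lit 3579826) (nat_lit 0) (nat_lit 0x811e759ee) (nat_lit 524029388),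
  Rx.mk (nat_lit 217) (nat_lit 1) (nat_lit 3) (nat_lit 3) (nat_lit 7) (nat_lit 93) (nat_lit 65) r1_93 r5_65 (nat_lit 0) (nat_lit 0) (nat_lit 0) (nat_lit 0x7fd333eb4) (nat_lit 540973512),
  Rx.mk (nat_lit 221) (nat_lit 5) (nat_lit 3) (nat_lit 3) (nat_lit 7) (nat_lit 92) (nat_lit 64) r1_92 r5_64 (nat_lit 0) (nat_lit 0) (nat_lit 0) (nat_lit 0x79fc7a418) (nat_lit 634642712)]
noncomputable def e43_31 : List Rx := [
  Rx.mk (nat_lit 5) (nat_lit 5) (nat_lit 0) (nat_lit 0) (nat_lit 1) (nat_lit 220) (nat_lit 41) r1_220 r11_41 (nat_lit 0) (nat_lit 132640855) (nat_lit 107908680) (nat_lit 0x75cd0e8fe) (nat_lit 943069347),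
  Rx.mk (nat_lit 69) (nat_lit 5) (nat_lit 0) (nat_lit 1) (nat_lit 5) (nat_lit 221) (nat_lit 42) r1_221 r11_42 (nat_lit 0) (nat_lit 24741287) (nat_lit 0) (nat_lit 0x80394da56) (nat_lit 559537749),
  Rx.mk (nat_lit 197) (nat_lit 5) (nat_lit 0) (nat_lit 3) (nat_lit 5) (nat_lit 222) (nat_lit 43) r1_222 r11_43 (nat_lit 0) (nat_lit 27280081) (nat_lit 0) (nat_lit 0x7ff4c6252) (nat_lit 566171843),
  Rx.mk (nat_lit 217) (nat_lit 1) (nat_lit 3) (nat_lit 3) (nat_lit 7) (nat_lit 224) (nat_lit 45) r1_224 r11_45 (nat_lit 0) (nat_lit 0) (nat_lit 0) (nat_lit 0x808a832cc) (nat_lit 529822112),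
  Rx.mk (nat_lit 221) (nat_lit 5) (nat_lit 3) (nat_lit 3) (nat_lit 7) (nat_lit 223) (nat_lit 44) r1_223 r11_44 (nat_lit 0) (nat_lit 0) (nat_lit 0) (nat_lit 0x814af5f1e) (nat_lit 518142212)]
noncomputable def e43_32 : List Rx := [
  Rx.mk (nat_lit 285) (nat_lit 5) (nat_lit 3) (nat_lit 4) (nat_lit 3) (nat_lit 247) (nat_lit 116) r1_247 r6_116 (nat_lit 0) (nat_lit 0) (nat_lit 2146916) (nat_lit 0x832861f50) (nat_lit 491234428),
  Rx.mk (nat_lit 453) (nat_lit 5) (nat_lit 0) (nat_lit 7) (nat_lit 5) (nat_lit 246) (nat_lit 117) r1_246 r6_117 (nat_lit 0) (nat_lit 4579048) (nat_lit 0) (nat_lit 0x829e4386e) (nat_lit 502034860),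
  Rx.mk (nat_lit 477) (nat_lit 5) (nat_lit 3) (nat_lit 7) (nat_lit 7) (nat_lit 248) (nat_lit 118) r1_248 r6_118 (nat_lit 0) (nat_lit 0) (nat_lit 0) (nat_lit 0x80c3cc614) (nat_lit 526329562)]
noncomputable def e43_33 : List Rx := [
  Rx.mk (nat_lit 261) (nat_lit 5) (nat_lit 0) (nat_lit 4) (nat_lit 1) (nat_lit 311) (nat_lit 164) r1_311 r5_164 (nat_lit 0) (nat_lit 14978700) (nat_lit 8816353) (nat_lit 0x6ec49af3a) (nat_lit 839845015),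
  Rx.mk (nat_lit 269) (nat_lit 5) (nat_lit 1) (nat_lit 4) (nat_lit 3) (nat_lit 313) (nat_lit 165) r1_313 r5_165 (nat_lit 0) (nat_lit 0) (nat_lit 20314026) (nat_lit 0x80db604a6) (nat_lit 545190438),
  Rx.mk (nat_lit 285) (nat_lit 5) (nat_lit 3) (nat_lit 4) (nat_lit 3) (nat_lit 315) (nat_lit 166) r1_315 r5_166 (nat_lit 0) (nat_lit 0) (nat_lit 6296235) (nat_lit 0x7df201f0a) (nat_lit 577066447),
  Rx.mk (nat_lit 453) (nat_lit 5) (nat_lit 0) (nat_lit 7) (nat_lit 5) (nat_lit 312) (nat_lit 167) r1_312 r5_167 (nat_lit 0) (nat_lit 20400359) (nat_lit 0) (nat_lit 0x8039ecd5e) (nat_lit 555033421),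
  Rx.mk (nat_lit 461) (nat_lit 5) (nat_lit 1) (nat_lit 7) (nat_lit 7) (nat_lit 314) (nat_lit 168) r1_314 r5_168 (nat_lit 0) (nat_lit 0) (nat_lit 0) (nat_lit 0x8095f8012) (nat_lit 529083662)]
noncomputable def e43_34 : List Rx := [
  Rx.mk (nat_lit 261) (nat_lit 5) (nat_lit 0) (nat_lit 4) (nat_lit 1) (nat_lit 316) (nat_lit 183) r1_316 r11_183 (nat_lit 0) (nat_lit 115272517) (nat_lit 31169867) (nat_lit 0x729ca1386) (nat_lit 900542746),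
  Rx.mk (nat_lit 269) (nat_lit 5) (nat_lit 1) (nat_lit 4) (nat_lit 3) (nat_lit 319) (nat_lit 184) r1_319 r11_184 (nat_lit 0) (nat_lit 0) (nat_lit 24741287) (nat_lit 0x8017985b4) (nat_lit 561612199),
  Rx.mk (nat_lit 285) (nat_lit 5) (nat_lit 3) (nat_lit 4) (nat_lit 3) (nat_lit 322) (nat_lit 185) r1_322 r11_185 (nat_lit 0) (nat_lit 0) (nat_lit 24741287) (nat_lit 0x8017985b4) (nat_lit 561612199),
  Rx.mk (nat_lit 325) (nat_lit 5) (nat_lit 0) (nat_lit 5) (nat_lit 5) (nat_lit 317) (nat_lit 186) r1_317 r11_186 (nat_lit 0) (nat_lit 39197522) (nat_lit 0) (nat_lit 0x7db914fa8) (nat_lit 613796734),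
  Rx.mk (nat_lit 333) (nat_lit 5) (nat_lit 1) (nat_lit 5) (nat_lit 7) (nat_lit 320) (nat_lit 187) r1_320 r11_187 (nat_lit 0) (nat_lit 0) (nat_lit 0) (nat_lit 0x8017985b4) (nat_lit 536870912),
  Rx.mk (nat_lit 349) (nat_lit 5) (nat_lit 3) (nat_lit 5) (nat_lit 7) (nat_lit 323) (nat_lit 188) r1_323 r11_188 (nat_lit 0) (nat_lit 0) (nat_lit 0) (nat_lit 0x81759db22) (nat_lit 515567712),
  Rx.mk (nat_lit 453) (nat_lit 5) (nat_lit 0) (nat_lit 7) (nat_lit 5) (nat_lit 318) (nat_lit 189) r1_318 r11_189 (nat_lit 0) (nat_lit 24741287) (nat_lit 0) (nat_lit 0x8017985b4) (nat_lit 561612199),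
  Rx.mk (nat_lit 461) (nat_lit 5) (nat_lit 1) (nat_lit 7) (nat_lit 7) (nat_lit 321) (nat_lit 190) r1_321 r11_190 (nat_lit 0) (nat_lit 0) (nat_lit 0) (nat_lit 0x8017985b4) (nat_lit 536870912)]
noncomputable def e43_35 : List Rx := [
  Rx.mk (nat_lit 197) (nat_lit 5) (nat_lit 0) (nat_lit 3) (nat_lit 5) (nat_lit 88) (nat_lit 7) r1_88 r6_7 (nat_lit 0) (nat_lit 14248724) (nat_lit 0) (nat_lit 0x80a26753c) (nat_lit 542542486),
  Rx.mk (nat_lit 221) (nat_lit 5) (nat_lit 3) (nat_lit 3) (nat_lit 7) (nat_lit 90) (nat_lit 8) r1_90 r6_8 (nat_lit 0) (nat_lit 0) (nat_lit 0) (nat_lit 0x80add07a2) (nat_lit 527662962),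
  Rx.mk (nat_lit 477) (nat_lit 5) (nat_lit 3) (nat_lit 7) (nat_lit 7) (nat_lit 89) (nat_lit 9) r1_89 r6_9 (nat_lit 0) (nat_lit 0) (nat_lit 0) (nat_lit 0x8954d7890) (nat_lit 395152462)]
noncomputable def e43_36 : List Rx := [
  Rx.mk (nat_lit 197) (nat_lit 5) (nat_lit 0) (nat_lit 3) (nat_lit 5) (nat_lit 250) (nat_lit 356) r1_250 r12_356 (nat_lit 0) (nat_lit 20432270) (nat_lit 0) (nat_lit 0x807054a04) (nat_lit 551662282),
  Rx.mk (nat_lit 453) (nat_lit 5) (nat_lit 0) (nat_lit 7) (nat_lit 5) (nat_lit 249) (nat_lit 357) r1_249 r12_357 (nat_lit 0) (nat_lit 188525) (nat_lit 0) (nat_lit 0x82e82ffae) (nat_lit 492764987),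
  Rx.mk (nat_lit 477) (nat_lit 5) (nat_lit 3) (nat_lit 7) (nat_lit 7) (nat_lit 251) (nat_lit 358) r1_251 r12_358 (nat_lit 0) (nat_lit 0) (nat_lit 0) (nat_lit 0x8ee42ae52) (nat_lit 310307562)]
noncomputable def e43_37 : List Rx := [
  Rx.mk (nat_lit 292) (nat_lit 4) (nat_lit 4) (nat_lit 4) (nat_lit 0) (nat_lit 94) (nat_lit 111) r1_94 r0_111 (nat_lit 15478) (nat_lit 15924) (nat_lit 704331784) (nat_lit 0x7ffceaa5a) (nat_lit 1241434748),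
  Rx.mk (nat_lit 293) (nat_lit 5) (nat_lit 4) (nat_lit 4) (nat_lit 1) (nat_lit 95) (nat_lit 114) r1_95 r0_114 (nat_lit 0) (nat_lit 17923102) (nat_lit 301314432) (nat_lit 0x7b08f77e4) (nat_lit 937110096),
  Rx.mk (nat_lit 294) (nat_lit 6) (nat_lit 4) (nat_lit 4) (nat_lit 1) (nat_lit 96) (nat_lit 118) r1_96 r0_118 (nat_lit 0) (nat_lit 49509170) (nat_lit 236637976) (nat_lit 0x7c1ee06fe) (nat_lit 886572308),
  Rx.mk (nat_lit 316) (nat_lit 4) (nat_lit 7) (nat_lit 4) (nat_lit 2) (nat_lit 99) (nat_lit 112) r1_99 r0_112 (nat_lit 15900944) (nat_lit 0) (nat_lit 330891680) (nat_lit 0x77bef9212) (nat_lit 1017846086),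
  Rx.mk (nat_lit 317) (nat_lit 5) (nat_lit 7) (nat_lit 4) (nat_lit 3) (nat_lit 100) (nat_lit 115) r1_100 r0_115 (nat_lit 0) (nat_lit 0) (nat_lit 40000838) (nat_lit 0x7f4fca046) (nat_lit 589164150),
  Rx.mk (nat_lit 318) (nat_lit 6) (nat_lit 7) (nat_lit 4) (nat_lit 3) (nat_lit 101) (nat_lit 119) r1_101 r0_119 (nat_lit 0) (nat_lit 0) (nat_lit 43159532) (nat_lit 0x7fa01c38c) (nat_lit 587329944),
  Rx.mk (nat_lit 422) (nat_lit 6) (nat_lit 4) (nat_lit 6) (nat_lit 5) (nat_lit 97) (nat_lit 121) r1_97 r0_121 (nat_lit 0) (nat_lit 26465750) (nat_lit 0) (nat_lit 0x7f8d66de6) (nat_lit 571814812),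
  Rx.mk (nat_lit 438) (nat_lit 6) (nat_lit 6) (nat_lit 6) (nat_lit 7) (nat_lit 98) (nat_lit 123) r1_98 r0_123 (nat_lit 0) (nat_lit 0) (nat_lit 0) (nat_lit 0x8017985b4) (nat_lit 536870912),
  Rx.mk (nat_lit 446) (nat_lit 6) (nat_lit 7) (nat_lit 6) (nat_lit 7) (nat_lit 102) (nat_lit 122) r1_102 r0_122 (nat_lit 0) (nat_lit 0) (nat_lit 0) (nat_lit 0x8017985b4) (nat_lit 536870912),
  Rx.mk (nat_lit 508) (nat_lit 4) (nat_lit 7) (nat_lit 7) (nat_lit 6) (nat_lit 103) (nat_lit 113) r1_103 r0_113 (nat_lit 24548730) (nat_lit 0) (nat_lit 0) (nat_lit 0x78780d94c) (nat_lit 683979642),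
  Rx.mk (nat_lit 509) (nat_lit 5) (nat_lit 7) (nat_lit 7) (nat_lit 7) (nat_lit 104) (nat_lit 116) r1_104 r0_116 (nat_lit 0) (nat_lit 0) (nat_lit 0) (nat_lit 0x8008586c6) (nat_lit 537803512),
  Rx.mk (nat_lit 510) (nat_lit 6) (nat_lit 7) (nat_lit 7) (nat_lit 7) (nat_lit 105) (nat_lit 120) r1_105 r0_120 (nat_lit 0) (nat_lit 0) (nat_lit 0) (nat_lit 0x8017985b4) (nat_lit 536870912),
  Rx.mk (nat_lit 511) (nat_lit 7) (nat_lit 7) (nat_lit 7) (nat_lit 7) (nat_lit 106) (nat_lit 117) r1_106 r0_117 (nat_lit 0) (nat_lit 0) (nat_lit 0) (nat_lit 0x8008e1958) (nat_lit 537770662)]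
noncomputable def e43_38 : List Rx := [
  Rx.mk (nat_lit 223) (nat_lit 7) (nat_lit 3) (nat_lit 3) (nat_lit 7) (nat_lit 9) (nat_lit 20) r1_9 r0_20 (nat_lit 0) (nat_lit 0) (nat_lit 0) (nat_lit 0x802da032a) (nat_lit 535514012),
  Rx.mk (nat_lit 316) (nat_lit 4) (nat_lit 7) (nat_lit 4) (nat_lit 2) (nat_lit 2) (nat_lit 23) r1_2 r0_23 (nat_lit 3151689) (nat_lit 0) (nat_lit 5604383) (nat_lit 0x6d7564e26) (nat_lit 845928484),
  Rx.mk (nat_lit 318) (nat_lit 6) (nat_lit 7) (nat_lit 4) (nat_lit 3) (nat_lit 3) (nat_lit 24) r1_3 r0_24 (nat_lit 0) (nat_lit 0) (nat_lit 22794505) (nat_lit 0x7f395dd58) (nat_lit 573339467),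
  Rx.mk (nat_lit 422) (nat_lit 6) (nat_lit 4) (nat_lit 6) (nat_lit 5) (nat_lit 0) (nat_lit 22) r1_0 r0_22 (nat_lit 0) (nat_lit 23596477) (nat_lit 0) (nat_lit 0x69c6e3bc0) (nat_lit 920472039),
  Rx.mk (nat_lit 438) (nat_lit 6) (nat_lit 6) (nat_lit 6) (nat_lit 7) (nat_lit 1) (nat_lit 29) r1_1 r0_29 (nat_lit 0) (nat_lit 0) (nat_lit 0) (nat_lit 0x807eeb3e2) (nat_lit 530392612),
  Rx.mk (nat_lit 446) (nat_lit 6) (nat_lit 7) (nat_lit 6) (nat_lit 7) (nat_lit 4) (nat_lit 28) r1_4 r0_28 (nat_lit 0) (nat_lit 0) (nat_lit 0) (nat_lit 0x87136526a) (nat_lit 429577662),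
  Rx.mk (nat_lit 479) (nat_lit 7) (nat_lit 3) (nat_lit 7) (nat_lit 7) (nat_lit 8) (nat_lit 21) r1_8 r0_21 (nat_lit 0) (nat_lit 0) (nat_lit 0) (nat_lit 0x807414446) (nat_lit 531187112),
  Rx.mk (nat_lit 508) (nat_lit 4) (nat_lit 7) (nat_lit 7) (nat_lit 6) (nat_lit 5) (nat_lit 25) r1_5 r0_25 (nat_lit 8756247) (nat_lit 0) (nat_lit 0) (nat_lit 0x7bbb71c80) (nat_lit 615374609),
  Rx.mk (nat_lit 510) (nat_lit 6) (nat_lit 7) (nat_lit 7) (nat_lit 7) (nat_lit 6) (nat_lit 27) r1_6 r0_27 (nat_lit 0) (nat_lit 0) (nat_lit 0) (nat_lit 0x80362d196) (nat_lit 534989612),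
  Rx.mk (nat_lit 511) (nat_lit 7) (nat_lit 7) (nat_lit 7) (nat_lit 7) (nat_lit 7) (nat_lit 26) r1_7 r0_26 (nat_lit 0) (nat_lit 0) (nat_lit 0) (nat_lit 0x801bfa5bc) (nat_lit 536589212)]
noncomputable def e43_39 : List Rx := [
  Rx.mk (nat_lit 292) (nat_lit 4) (nat_lit 4) (nat_lit 4) (nat_lit 0) (nat_lit 107) (nat_lit 126) r1_107 r7_126 (nat_lit 6392816) (nat_lit 5821095) (nat_lit 43642432) (nat_lit 0x44a1c92b0) (nat_lit 1553277655),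
  Rx.mk (nat_lit 294) (nat_lit 6) (nat_lit 4) (nat_lit 4) (nat_lit 1) (nat_lit 108) (nat_lit 130) r1_108 r7_130 (nat_lit 0) (nat_lit 35130887) (nat_lit 78119258) (nat_lit 0x6d4852dd4) (nat_lit 953515857),
  Rx.mk (nat_lit 316) (nat_lit 4) (nat_lit 7) (nat_lit 4) (nat_lit 2) (nat_lit 111) (nat_lit 127) r1_111 r7_127 (nat_lit 15973405) (nat_lit 0) (nat_lit 24461115) (nat_lit 0x6bcc10498) (nat_lit 904689032),
  Rx.mk (nat_lit 318) (nat_lit 6) (nat_lit 7) (nat_lit 4) (nat_lit 3) (nat_lit 112) (nat_lit 131) r1_112 r7_131 (nat_lit 0) (nat_lit 0) (nat_lit 24618950) (nat_lit 0x80095eab6) (nat_lit 562360112),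
  Rx.mk (nat_lit 422) (nat_lit 6) (nat_lit 4) (nat_lit 6) (nat_lit 5) (nat_lit 109) (nat_lit 133) r1_109 r7_133 (nat_lit 0) (nat_lit 21790589) (nat_lit 0) (nat_lit 0x7f1945f52) (nat_lit 574322851),
  Rx.mk (nat_lit 438) (nat_lit 6) (nat_lit 6) (nat_lit 6) (nat_lit 7) (nat_lit 110) (nat_lit 135) r1_110 r7_135 (nat_lit 0) (nat_lit 0) (nat_lit 0) (nat_lit 0x8017985b4) (nat_lit 536870912),
  Rx.mk (nat_lit 446) (nat_lit 6) (nat_lit 7) (nat_lit 6) (nat_lit 7) (nat_lit 113) (nat_lit 134) r1_113 r7_134 (nat_lit 0) (nat_lit 0) (nat_lit 0) (nat_lit 0x80538fe0a) (nat_lit 533186112),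
  Rx.mk (nat_lit 508) (nat_lit 4) (nat_lit 7) (nat_lit 7) (nat_lit 6) (nat_lit 114) (nat_lit 128) r1_114 r7_128 (nat_lit 16486043) (nat_lit 0) (nat_lit 0) (nat_lit 0x7aed483a4) (nat_lit 636147005),
  Rx.mk (nat_lit 510) (nat_lit 6) (nat_lit 7) (nat_lit 7) (nat_lit 7) (nat_lit 115) (nat_lit 132) r1_115 r7_132 (nat_lit 0) (nat_lit 0) (nat_lit 0) (nat_lit 0x8017985b4) (nat_lit 536870912),
  Rx.mk (nat_lit 511) (nat_lit 7) (nat_lit 7) (nat_lit 7) (nat_lit 7) (nat_lit 116) (nat_lit 129) r1_116 r7_129 (nat_lit 0) (nat_lit 0) (nat_lit 0) (nat_lit 0x8017985b4) (nat_lit 536870912)]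
noncomputable def e43_40 : List Rx := [
  Rx.mk (nat_lit 16) (nat_lit 0) (nat_lit 2) (nat_lit 0) (nat_lit 2) (nat_lit 33) (nat_lit 16) r1_33 r2_16 (nat_lit 23439880) (nat_lit 0) (nat_lit 29030061) (nat_lit 0x6ea7937fc) (nat_lit 870542453),
  Rx.mk (nat_lit 144) (nat_lit 0) (nat_lit 2) (nat_lit 2) (nat_lit 6) (nat_lit 34) (nat_lit 19) r1_34 r2_19 (nat_lit 24741287) (nat_lit 0) (nat_lit 0) (nat_lit 0x800662966) (nat_lit 562664999),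
  Rx.mk (nat_lit 146) (nat_lit 2) (nat_lit 2) (nat_lit 2) (nat_lit 7) (nat_lit 35) (nat_lit 20) r1_35 r2_20 (nat_lit 0) (nat_lit 0) (nat_lit 0) (nat_lit 0x8017985b4) (nat_lit 536870912),
  Rx.mk (nat_lit 178) (nat_lit 2) (nat_lit 6) (nat_lit 2) (nat_lit 7) (nat_lit 30) (nat_lit 21) r1_30 r2_21 (nat_lit 0) (nat_lit 0) (nat_lit 0) (nat_lit 0x8017985b4) (nat_lit 536870912),
  Rx.mk (nat_lit 192) (nat_lit 0) (nat_lit 0) (nat_lit 3) (nat_lit 4) (nat_lit 31) (nat_lit 13) r1_31 r2_13 (nat_lit 19918432) (nat_lit 28114446) (nat_lit 0) (nat_lit 0x712066600) (nat_lit 826141340),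
  Rx.mk (nat_lit 195) (nat_lit 3) (nat_lit 0) (nat_lit 3) (nat_lit 5) (nat_lit 32) (nat_lit 14) r1_32 r2_14 (nat_lit 0) (nat_lit 35404402) (nat_lit 0) (nat_lit 0x7ebadf3d2) (nat_lit 593887464),
  Rx.mk (nat_lit 208) (nat_lit 0) (nat_lit 2) (nat_lit 3) (nat_lit 6) (nat_lit 36) (nat_lit 17) r1_36 r2_17 (nat_lit 12320371) (nat_lit 0) (nat_lit 0) (nat_lit 0x80de8e3da) (nat_lit 537025133),
  Rx.mk (nat_lit 211) (nat_lit 3) (nat_lit 2) (nat_lit 3) (nat_lit 7) (nat_lit 37) (nat_lit 18) r1_37 r2_18 (nat_lit 0) (nat_lit 0) (nat_lit 0) (nat_lit 0x804b9beec) (nat_lit 533672912),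
  Rx.mk (nat_lit 219) (nat_lit 3) (nat_lit 3) (nat_lit 3) (nat_lit 7) (nat_lit 38) (nat_lit 15) r1_38 r2_15 (nat_lit 0) (nat_lit 0) (nat_lit 0) (nat_lit 0x8017985b4) (nat_lit 536870912)]
noncomputable def e43_41 : List Rx := [
  Rx.mk (nat_lit 178) (nat_lit 2) (nat_lit 6) (nat_lit 2) (nat_lit 7) (nat_lit 153) (nat_lit 1) r1_153 r9_1 (nat_lit 0) (nat_lit 0) (nat_lit 0) (nat_lit 0x8017985b4) (nat_lit 536870912)]
noncomputable def e43_42 : List Rx := [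
  Rx.mk (nat_lit 0) (nat_lit 0) (nat_lit 0) (nat_lit 0) (nat_lit 0) (nat_lit 170) (nat_lit 40) r1_170 r9_40 (nat_lit 24261554) (nat_lit 56659484) (nat_lit 49328540) (nat_lit 0x3f56488d6) (nat_lit 1713461290),
  Rx.mk (nat_lit 16) (nat_lit 0) (nat_lit 2) (nat_lit 0) (nat_lit 2) (nat_lit 173) (nat_lit 41) r1_173 r9_41 (nat_lit 27290911) (nat_lit 0) (nat_lit 32551245) (nat_lit 0x6e1360b66) (nat_lit 887289868),
  Rx.mk (nat_lit 144) (nat_lit 0) (nat_lit 2) (nat_lit 2) (nat_lit 6) (nat_lit 174) (nat_lit 48) r1_174 r9_48 (nat_lit 24741287) (nat_lit 0) (nat_lit 0) (nat_lit 0x8004104a6) (nat_lit 562806149),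
  Rx.mk (nat_lit 146) (nat_lit 2) (nat_lit 2) (nat_lit 2) (nat_lit 7) (nat_lit 175) (nat_lit 49) r1_175 r9_49 (nat_lit 0) (nat_lit 0) (nat_lit 0) (nat_lit 0x8017985b4) (nat_lit 536870912),
  Rx.mk (nat_lit 178) (nat_lit 2) (nat_lit 6) (nat_lit 2) (nat_lit 7) (nat_lit 169) (nat_lit 47) r1_169 r9_47 (nat_lit 0) (nat_lit 0) (nat_lit 0) (nat_lit 0x8017985b4) (nat_lit 536870912),
  Rx.mk (nat_lit 192) (nat_lit 0) (nat_lit 0) (nat_lit 3) (nat_lit 4) (nat_lit 171) (nat_lit 42) r1_171 r9_42 (nat_lit 26252196) (nat_lit 43212165) (nat_lit 0) (nat_lit 0x6d3fdbff2) (nat_lit 910271473),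
  Rx.mk (nat_lit 195) (nat_lit 3) (nat_lit 0) (nat_lit 3) (nat_lit 5) (nat_lit 172) (nat_lit 43) r1_172 r9_43 (nat_lit 0) (nat_lit 35087009) (nat_lit 0) (nat_lit 0x7eb627b3c) (nat_lit 593834521),
  Rx.mk (nat_lit 208) (nat_lit 0) (nat_lit 2) (nat_lit 3) (nat_lit 6) (nat_lit 176) (nat_lit 45) r1_176 r9_45 (nat_lit 24741287) (nat_lit 0) (nat_lit 0) (nat_lit 0x8017985b4) (nat_lit 561612199),
  Rx.mk (nat_lit 211) (nat_lit 3) (nat_lit 2) (nat_lit 3) (nat_lit 7) (nat_lit 177) (nat_lit 46) r1_177 r9_46 (nat_lit 0) (nat_lit 0) (nat_lit 0) (nat_lit 0x8017985b4) (nat_lit 536870912),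
  Rx.mk (nat_lit 219) (nat_lit 3) (nat_lit 3) (nat_lit 3) (nat_lit 7) (nat_lit 178) (nat_lit 44) r1_178 r9_44 (nat_lit 0) (nat_lit 0) (nat_lit 0) (nat_lit 0x7ed9f7242) (nat_lit 556534462)]
noncomputable def e43_43 : List Rx := [
  Rx.mk (nat_lit 16) (nat_lit 0) (nat_lit 2) (nat_lit 0) (nat_lit 2) (nat_lit 21) (nat_lit 14) r1_21 r1_14 (nat_lit 48891) (nat_lit 0) (nat_lit 58909) (nat_lit 0x7cd668c7c) (nat_lit 588136762),
  Rx.mk (nat_lit 19) (nat_lit 3) (nat_lit 2) (nat_lit 0) (nat_lit 3) (nat_lit 22) (nat_lit 15) r1_22 r1_15 (nat_lit 0) (nat_lit 0) (nat_lit 14214021) (nat_lit 0x7fbeb8f98) (nat_lit 556417033),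
  Rx.mk (nat_lit 144) (nat_lit 0) (nat_lit 2) (nat_lit 2) (nat_lit 6) (nat_lit 23) (nat_lit 17) r1_23 r1_17 (nat_lit 76678) (nat_lit 0) (nat_lit 0) (nat_lit 0x8003c0140) (nat_lit 536772290),
  Rx.mk (nat_lit 146) (nat_lit 2) (nat_lit 2) (nat_lit 2) (nat_lit 7) (nat_lit 24) (nat_lit 19) r1_24 r1_19 (nat_lit 0) (nat_lit 0) (nat_lit 0) (nat_lit 0x7fbfdde82) (nat_lit 542221012),
  Rx.mk (nat_lit 147) (nat_lit 3) (nat_lit 2) (nat_lit 2) (nat_lit 7) (nat_lit 25) (nat_lit 18) r1_25 r1_18 (nat_lit 0) (nat_lit 0) (nat_lit 0) (nat_lit 0x806b840b0) (nat_lit 531718612),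
  Rx.mk (nat_lit 178) (nat_lit 2) (nat_lit 6) (nat_lit 2) (nat_lit 7) (nat_lit 13) (nat_lit 27) r1_13 r1_27 (nat_lit 0) (nat_lit 0) (nat_lit 0) (nat_lit 0x800f8b876) (nat_lit 537285412),
  Rx.mk (nat_lit 195) (nat_lit 3) (nat_lit 0) (nat_lit 3) (nat_lit 5) (nat_lit 20) (nat_lit 10) r1_20 r1_10 (nat_lit 0) (nat_lit 16883735) (nat_lit 0) (nat_lit 0x6e23773e2) (nat_lit 843227197),
  Rx.mk (nat_lit 211) (nat_lit 3) (nat_lit 2) (nat_lit 3) (nat_lit 7) (nat_lit 26) (nat_lit 16) r1_26 r1_16 (nat_lit 0) (nat_lit 0) (nat_lit 0) (nat_lit 0x806722120) (nat_lit 530972362),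
  Rx.mk (nat_lit 219) (nat_lit 3) (nat_lit 3) (nat_lit 3) (nat_lit 7) (nat_lit 29) (nat_lit 11) r1_29 r1_11 (nat_lit 0) (nat_lit 0) (nat_lit 0) (nat_lit 0x8082a427c) (nat_lit 530175062),
  Rx.mk (nat_lit 223) (nat_lit 7) (nat_lit 3) (nat_lit 3) (nat_lit 7) (nat_lit 28) (nat_lit 12) r1_28 r1_12 (nat_lit 0) (nat_lit 0) (nat_lit 0) (nat_lit 0x806110df4) (nat_lit 532352862),
  Rx.mk (nat_lit 316) (nat_lit 4) (nat_lit 7) (nat_lit 4) (nat_lit 2) (nat_lit 14) (nat_lit 21) r1_14 r1_21 (nat_lit 48891) (nat_lit 0) (nat_lit 58909) (nat_lit 0x7cd668c7c) (nat_lit 588136762),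
  Rx.mk (nat_lit 318) (nat_lit 6) (nat_lit 7) (nat_lit 4) (nat_lit 3) (nat_lit 15) (nat_lit 22) r1_15 r1_22 (nat_lit 0) (nat_lit 0) (nat_lit 14214021) (nat_lit 0x7fbeb8f98) (nat_lit 556417033),
  Rx.mk (nat_lit 422) (nat_lit 6) (nat_lit 4) (nat_lit 6) (nat_lit 5) (nat_lit 10) (nat_lit 20) r1_10 r1_20 (nat_lit 0) (nat_lit 16883735) (nat_lit 0) (nat_lit 0x6e23773e2) (nat_lit 843227197),
  Rx.mk (nat_lit 434) (nat_lit 2) (nat_lit 6) (nat_lit 6) (nat_lit 7) (nat_lit 12) (nat_lit 28) r1_12 r1_28 (nat_lit 0) (nat_lit 0) (nat_lit 0) (nat_lit 0x806110df4) (nat_lit 532352862),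
  Rx.mk (nat_lit 438) (nat_lit 6) (nat_lit 6) (nat_lit 6) (nat_lit 7) (nat_lit 11) (nat_lit 29) r1_11 r1_29 (nat_lit 0) (nat_lit 0) (nat_lit 0) (nat_lit 0x8082a427c) (nat_lit 530175062),
  Rx.mk (nat_lit 446) (nat_lit 6) (nat_lit 7) (nat_lit 6) (nat_lit 7) (nat_lit 16) (nat_lit 26) r1_16 r1_26 (nat_lit 0) (nat_lit 0) (nat_lit 0) (nat_lit 0x806722120) (nat_lit 530972362),
  Rx.mk (nat_lit 479) (nat_lit 7) (nat_lit 3) (nat_lit 7) (nat_lit 7) (nat_lit 27) (nat_lit 13) r1_27 r1_13 (nat_lit 0) (nat_lit 0) (nat_lit 0) (nat_lit 0x800f8b876) (nat_lit 537285412),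
  Rx.mk (nat_lit 508) (nat_lit 4) (nat_lit 7) (nat_lit 7) (nat_lit 6) (nat_lit 17) (nat_lit 23) r1_17 r1_23 (nat_lit 76678) (nat_lit 0) (nat_lit 0) (nat_lit 0x8003c0140) (nat_lit 536772290),
  Rx.mk (nat_lit 510) (nat_lit 6) (nat_lit 7) (nat_lit 7) (nat_lit 7) (nat_lit 18) (nat_lit 25) r1_18 r1_25 (nat_lit 0) (nat_lit 0) (nat_lit 0) (nat_lit 0x806b840b0) (nat_lit 531718612),
  Rx.mk (nat_lit 511) (nat_lit 7) (nat_lit 7) (nat_lit 7) (nat_lit 7) (nat_lit 19) (nat_lit 24) r1_19 r1_24 (nat_lit 0) (nat_lit 0) (nat_lit 0) (nat_lit 0x7fbfdde82) (nat_lit 542221012)]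
noncomputable def e43_44 : List Rx := [
  Rx.mk (nat_lit 178) (nat_lit 2) (nat_lit 6) (nat_lit 2) (nat_lit 7) (nat_lit 146) (nat_lit 101) r1_146 r8_101 (nat_lit 0) (nat_lit 0) (nat_lit 0) (nat_lit 0x8017985b4) (nat_lit 536870912),
  Rx.mk (nat_lit 292) (nat_lit 4) (nat_lit 4) (nat_lit 4) (nat_lit 0) (nat_lit 141) (nat_lit 90) r1_141 r8_90 (nat_lit 17944571) (nat_lit 23009154) (nat_lit 116288395) (nat_lit 0x447d83aae) (nat_lit 1657106532),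
  Rx.mk (nat_lit 294) (nat_lit 6) (nat_lit 4) (nat_lit 4) (nat_lit 1) (nat_lit 142) (nat_lit 94) r1_142 r8_94 (nat_lit 0) (nat_lit 31282261) (nat_lit 50887267) (nat_lit 0x6d657dd46) (nat_lit 920594840),
  Rx.mk (nat_lit 316) (nat_lit 4) (nat_lit 7) (nat_lit 4) (nat_lit 2) (nat_lit 147) (nat_lit 91) r1_147 r8_91 (nat_lit 24802758) (nat_lit 0) (nat_lit 50885811) (nat_lit 0x6b9ee1742) (nat_lit 942829831),
  Rx.mk (nat_lit 318) (nat_lit 6) (nat_lit 7) (nat_lit 4) (nat_lit 3) (nat_lit 148) (nat_lit 95) r1_148 r8_95 (nat_lit 0) (nat_lit 0) (nat_lit 24741287) (nat_lit 0x8017985b4) (nat_lit 561612199),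
  Rx.mk (nat_lit 422) (nat_lit 6) (nat_lit 4) (nat_lit 6) (nat_lit 5) (nat_lit 143) (nat_lit 97) r1_143 r8_97 (nat_lit 0) (nat_lit 29620562) (nat_lit 0) (nat_lit 0x7f673ed30) (nat_lit 577332974),
  Rx.mk (nat_lit 434) (nat_lit 2) (nat_lit 6) (nat_lit 6) (nat_lit 7) (nat_lit 145) (nat_lit 100) r1_145 r8_100 (nat_lit 0) (nat_lit 0) (nat_lit 0) (nat_lit 0x8017985b4) (nat_lit 536870912),
  Rx.mk (nat_lit 438) (nat_lit 6) (nat_lit 6) (nat_lit 6) (nat_lit 7) (nat_lit 144) (nat_lit 99) r1_144 r8_99 (nat_lit 0) (nat_lit 0) (nat_lit 0) (nat_lit 0x8017985b4) (nat_lit 536870912),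
  Rx.mk (nat_lit 446) (nat_lit 6) (nat_lit 7) (nat_lit 6) (nat_lit 7) (nat_lit 149) (nat_lit 98) r1_149 r8_98 (nat_lit 0) (nat_lit 0) (nat_lit 0) (nat_lit 0x8017985b4) (nat_lit 536870912),
  Rx.mk (nat_lit 508) (nat_lit 4) (nat_lit 7) (nat_lit 7) (nat_lit 6) (nat_lit 150) (nat_lit 92) r1_150 r8_92 (nat_lit 24952196) (nat_lit 0) (nat_lit 0) (nat_lit 0x7d5baea30) (nat_lit 605443508),
  Rx.mk (nat_lit 510) (nat_lit 6) (nat_lit 7) (nat_lit 7) (nat_lit 7) (nat_lit 151) (nat_lit 96) r1_151 r8_96 (nat_lit 0) (nat_lit 0) (nat_lit 0) (nat_lit 0x8017985b4) (nat_lit 536870912),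
  Rx.mk (nat_lit 511) (nat_lit 7) (nat_lit 7) (nat_lit 7) (nat_lit 7) (nat_lit 152) (nat_lit 93) r1_152 r8_93 (nat_lit 0) (nat_lit 0) (nat_lit 0) (nat_lit 0x8017985b4) (nat_lit 536870912)]
noncomputable def e43_45 : List Rx := [
  Rx.mk (nat_lit 292) (nat_lit 4) (nat_lit 4) (nat_lit 4) (nat_lit 0) (nat_lit 117) (nat_lit 117) r1_117 r1_117 (nat_lit 1979870) (nat_lit 1979870) (nat_lit 589462715) (nat_lit 0x702baaa3a) (nat_lit 1386696517),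
  Rx.mk (nat_lit 293) (nat_lit 5) (nat_lit 4) (nat_lit 4) (nat_lit 1) (nat_lit 118) (nat_lit 121) r1_118 r1_121 (nat_lit 0) (nat_lit 46858283) (nat_lit 301646691) (nat_lit 0x7c618c5e8) (nat_lit 944707886),
  Rx.mk (nat_lit 294) (nat_lit 6) (nat_lit 4) (nat_lit 4) (nat_lit 1) (nat_lit 119) (nat_lit 126) r1_119 r1_126 (nat_lit 0) (nat_lit 41207445) (nat_lit 112411192) (nat_lit 0x7cd477904) (nat_lit 742617599),
  Rx.mk (nat_lit 300) (nat_lit 4) (nat_lit 5) (nat_lit 4) (nat_lit 2) (nat_lit 121) (nat_lit 118) r1_121 r1_118 (nat_lit 46858283) (nat_lit 0) (nat_lit 301646691) (nat_lit 0x7c618c5e8) (nat_lit 944707886),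
  Rx.mk (nat_lit 301) (nat_lit 5) (nat_lit 5) (nat_lit 4) (nat_lit 3) (nat_lit 122) (nat_lit 122) r1_122 r1_122 (nat_lit 0) (nat_lit 0) (nat_lit 24741287) (nat_lit 0x8017985b4) (nat_lit 561612199),
  Rx.mk (nat_lit 302) (nat_lit 6) (nat_lit 5) (nat_lit 4) (nat_lit 3) (nat_lit 123) (nat_lit 127) r1_123 r1_127 (nat_lit 0) (nat_lit 0) (nat_lit 24741287) (nat_lit 0x8017985b4) (nat_lit 561612199),
  Rx.mk (nat_lit 316) (nat_lit 4) (nat_lit 7) (nat_lit 4) (nat_lit 2) (nat_lit 126) (nat_lit 119) r1_126 r1_119 (nat_lit 41207445) (nat_lit 0) (nat_lit 112411192) (nat_lit 0x7cd477904) (nat_lit 742617599),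
  Rx.mk (nat_lit 317) (nat_lit 5) (nat_lit 7) (nat_lit 4) (nat_lit 3) (nat_lit 127) (nat_lit 123) r1_127 r1_123 (nat_lit 0) (nat_lit 0) (nat_lit 24741287) (nat_lit 0x8017985b4) (nat_lit 561612199),
  Rx.mk (nat_lit 422) (nat_lit 6) (nat_lit 4) (nat_lit 6) (nat_lit 5) (nat_lit 120) (nat_lit 128) r1_120 r1_128 (nat_lit 0) (nat_lit 27831261) (nat_lit 0) (nat_lit 0x7f26f387a) (nat_lit 579564373),
  Rx.mk (nat_lit 430) (nat_lit 6) (nat_lit 5) (nat_lit 6) (nat_lit 7) (nat_lit 124) (nat_lit 129) r1_124 r1_129 (nat_lit 0) (nat_lit 0) (nat_lit 0) (nat_lit 0x8017985b4) (nat_lit 536870912),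
  Rx.mk (nat_lit 438) (nat_lit 6) (nat_lit 6) (nat_lit 6) (nat_lit 7) (nat_lit 125) (nat_lit 130) r1_125 r1_130 (nat_lit 0) (nat_lit 0) (nat_lit 0) (nat_lit 0x8017985b4) (nat_lit 536870912),
  Rx.mk (nat_lit 508) (nat_lit 4) (nat_lit 7) (nat_lit 7) (nat_lit 6) (nat_lit 128) (nat_lit 120) r1_128 r1_120 (nat_lit 27831261) (nat_lit 0) (nat_lit 0) (nat_lit 0x7f26f387a) (nat_lit 579564373),
  Rx.mk (nat_lit 509) (nat_lit 5) (nat_lit 7) (nat_lit 7) (nat_lit 7) (nat_lit 129) (nat_lit 124) r1_129 r1_124 (nat_lit 0) (nat_lit 0) (nat_lit 0) (nat_lit 0x8017985b4) (nat_lit 536870912),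
  Rx.mk (nat_lit 511) (nat_lit 7) (nat_lit 7) (nat_lit 7) (nat_lit 7) (nat_lit 130) (nat_lit 125) r1_130 r1_125 (nat_lit 0) (nat_lit 0) (nat_lit 0) (nat_lit 0x8017985b4) (nat_lit 536870912)]
noncomputable def e43_46 : List Rx := [
  Rx.mk (nat_lit 300) (nat_lit 4) (nat_lit 5) (nat_lit 4) (nat_lit 2) (nat_lit 258) (nat_lit 115) r1_258 r2_115 (nat_lit 62162713) (nat_lit 0) (nat_lit 69955890) (nat_lit 0x67d3cb8d0) (nat_lit 1060595215),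
  Rx.mk (nat_lit 301) (nat_lit 5) (nat_lit 5) (nat_lit 4) (nat_lit 3) (nat_lit 259) (nat_lit 116) r1_259 r2_116 (nat_lit 0) (nat_lit 0) (nat_lit 24741287) (nat_lit 0x8017985b4) (nat_lit 561612199),
  Rx.mk (nat_lit 302) (nat_lit 6) (nat_lit 5) (nat_lit 4) (nat_lit 3) (nat_lit 260) (nat_lit 117) r1_260 r2_117 (nat_lit 0) (nat_lit 0) (nat_lit 25157357) (nat_lit 0x800ccd3b4) (nat_lit 562687369),
  Rx.mk (nat_lit 430) (nat_lit 6) (nat_lit 5) (nat_lit 6) (nat_lit 7) (nat_lit 261) (nat_lit 118) r1_261 r2_118 (nat_lit 0) (nat_lit 0) (nat_lit 0) (nat_lit 0x8017985b4) (nat_lit 536870912)]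
noncomputable def e43_47 : List Rx := [
  Rx.mk (nat_lit 292) (nat_lit 4) (nat_lit 4) (nat_lit 4) (nat_lit 0) (nat_lit 131) (nat_lit 15) r1_131 r8_15 (nat_lit 16366775) (nat_lit 12570282) (nat_lit 78140221) (nat_lit 0x42b179a90) (nat_lit 1635971940),
  Rx.mk (nat_lit 294) (nat_lit 6) (nat_lit 4) (nat_lit 4) (nat_lit 1) (nat_lit 132) (nat_lit 16) r1_132 r8_16 (nat_lit 0) (nat_lit 40466188) (nat_lit 44995829) (nat_lit 0x6d2f8c872) (nat_lit 927296079),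
  Rx.mk (nat_lit 300) (nat_lit 4) (nat_lit 5) (nat_lit 4) (nat_lit 2) (nat_lit 134) (nat_lit 18) r1_134 r8_18 (nat_lit 46134325) (nat_lit 0) (nat_lit 144484209) (nat_lit 0x72b2fdad0) (nat_lit 943309946),
  Rx.mk (nat_lit 302) (nat_lit 6) (nat_lit 5) (nat_lit 4) (nat_lit 3) (nat_lit 135) (nat_lit 19) r1_135 r8_19 (nat_lit 0) (nat_lit 0) (nat_lit 24741287) (nat_lit 0x8017985b4) (nat_lit 561612199),
  Rx.mk (nat_lit 316) (nat_lit 4) (nat_lit 7) (nat_lit 4) (nat_lit 2) (nat_lit 138) (nat_lit 21) r1_138 r8_21 (nat_lit 31041958) (nat_lit 0) (nat_lit 36913539) (nat_lit 0x73f49b3ba) (nat_lit 800345659),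
  Rx.mk (nat_lit 422) (nat_lit 6) (nat_lit 4) (nat_lit 6) (nat_lit 5) (nat_lit 133) (nat_lit 17) r1_133 r8_17 (nat_lit 0) (nat_lit 25986002) (nat_lit 0) (nat_lit 0x7f21990dc) (nat_lit 578019064),
  Rx.mk (nat_lit 430) (nat_lit 6) (nat_lit 5) (nat_lit 6) (nat_lit 7) (nat_lit 136) (nat_lit 20) r1_136 r8_20 (nat_lit 0) (nat_lit 0) (nat_lit 0) (nat_lit 0x8017985b4) (nat_lit 536870912),
  Rx.mk (nat_lit 438) (nat_lit 6) (nat_lit 6) (nat_lit 6) (nat_lit 7) (nat_lit 137) (nat_lit 24) r1_137 r8_24 (nat_lit 0) (nat_lit 0) (nat_lit 0) (nat_lit 0x8017985b4) (nat_lit 536870912),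
  Rx.mk (nat_lit 508) (nat_lit 4) (nat_lit 7) (nat_lit 7) (nat_lit 6) (nat_lit 139) (nat_lit 22) r1_139 r8_22 (nat_lit 19606239) (nat_lit 0) (nat_lit 0) (nat_lit 0x7f4c479c8) (nat_lit 568985001),
  Rx.mk (nat_lit 511) (nat_lit 7) (nat_lit 7) (nat_lit 7) (nat_lit 7) (nat_lit 140) (nat_lit 23) r1_140 r8_23 (nat_lit 0) (nat_lit 0) (nat_lit 0) (nat_lit 0x8017985b4) (nat_lit 536870912)]
noncomputable def e43_48 : List Rx := [
  Rx.mk (nat_lit 300) (nat_lit 4) (nat_lit 5) (nat_lit 4) (nat_lit 2) (nat_lit 269) (nat_lit 83) r1_269 r9_83 (nat_lit 34355931) (nat_lit 0) (nat_lit 134396714) (nat_lit 0x734bda226) (nat_lit 911788807),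
  Rx.mk (nat_lit 302) (nat_lit 6) (nat_lit 5) (nat_lit 4) (nat_lit 3) (nat_lit 270) (nat_lit 84) r1_270 r9_84 (nat_lit 0) (nat_lit 0) (nat_lit 24741287) (nat_lit 0x8008f717c) (nat_lit 562505199),
  Rx.mk (nat_lit 430) (nat_lit 6) (nat_lit 5) (nat_lit 6) (nat_lit 7) (nat_lit 271) (nat_lit 85) r1_271 r9_85 (nat_lit 0) (nat_lit 0) (nat_lit 0) (nat_lit 0x8017985b4) (nat_lit 536870912)]
noncomputable def e43_49 : List Rx := [
  Rx.mk (nat_lit 300) (nat_lit 4) (nat_lit 5) (nat_lit 4) (nat_lit 2) (nat_lit 262) (nat_lit 160) r1_262 r9_160 (nat_lit 68973086) (nat_lit 0) (nat_lit 38504019) (nat_lit 0x645605570) (nat_lit 1092404867),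
  Rx.mk (nat_lit 301) (nat_lit 5) (nat_lit 5) (nat_lit 4) (nat_lit 3) (nat_lit 263) (nat_lit 161) r1_263 r9_161 (nat_lit 0) (nat_lit 0) (nat_lit 24741287) (nat_lit 0x8004fdb2a) (nat_lit 562749199),
  Rx.mk (nat_lit 302) (nat_lit 6) (nat_lit 5) (nat_lit 4) (nat_lit 3) (nat_lit 264) (nat_lit 162) r1_264 r9_162 (nat_lit 0) (nat_lit 0) (nat_lit 24741287) (nat_lit 0x8017985b4) (nat_lit 561612199),
  Rx.mk (nat_lit 364) (nat_lit 4) (nat_lit 5) (nat_lit 5) (nat_lit 6) (nat_lit 265) (nat_lit 163) r1_265 r9_163 (nat_lit 24741287) (nat_lit 0) (nat_lit 0) (nat_lit 0x8017985b4) (nat_lit 561612199),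
  Rx.mk (nat_lit 365) (nat_lit 5) (nat_lit 5) (nat_lit 5) (nat_lit 7) (nat_lit 266) (nat_lit 164) r1_266 r9_164 (nat_lit 0) (nat_lit 0) (nat_lit 0) (nat_lit 0x8017985b4) (nat_lit 536870912),
  Rx.mk (nat_lit 366) (nat_lit 6) (nat_lit 5) (nat_lit 5) (nat_lit 7) (nat_lit 267) (nat_lit 165) r1_267 r9_165 (nat_lit 0) (nat_lit 0) (nat_lit 0) (nat_lit 0x8017985b4) (nat_lit 536870912),
  Rx.mk (nat_lit 430) (nat_lit 6) (nat_lit 5) (nat_lit 6) (nat_lit 7) (nat_lit 268) (nat_lit 166) r1_268 r9_166 (nat_lit 0) (nat_lit 0) (nat_lit 0) (nat_lit 0x8017985b4) (nat_lit 536870912)]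
noncomputable def e43_50 : List Rx := [
  Rx.mk (nat_lit 223) (nat_lit 7) (nat_lit 3) (nat_lit 3) (nat_lit 7) (nat_lit 49) (nat_lit 111) r1_49 r3_111 (nat_lit 0) (nat_lit 0) (nat_lit 0) (nat_lit 0x805620b38) (nat_lit 533027112),
  Rx.mk (nat_lit 316) (nat_lit 4) (nat_lit 7) (nat_lit 4) (nat_lit 2) (nat_lit 39) (nat_lit 104) r1_39 r3_104 (nat_lit 4286) (nat_lit 0) (nat_lit 10635) (nat_lit 0x80094492c) (nat_lit 536338983),
  Rx.mk (nat_lit 317) (nat_lit 5) (nat_lit 7) (nat_lit 4) (nat_lit 3) (nat_lit 40) (nat_lit 107) r1_40 r3_107 (nat_lit 0) (nat_lit 0) (nat_lit 15940000) (nat_lit 0x805843974) (nat_lit 548544762),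
  Rx.mk (nat_lit 318) (nat_lit 6) (nat_lit 7) (nat_lit 4) (nat_lit 3) (nat_lit 41) (nat_lit 112) r1_41 r3_112 (nat_lit 0) (nat_lit 0) (nat_lit 7553870) (nat_lit 0x7902075f8) (nat_lit 658039182),
  Rx.mk (nat_lit 446) (nat_lit 6) (nat_lit 7) (nat_lit 6) (nat_lit 7) (nat_lit 42) (nat_lit 114) r1_42 r3_114 (nat_lit 0) (nat_lit 0) (nat_lit 0) (nat_lit 0x80556b2ba) (nat_lit 532838362),
  Rx.mk (nat_lit 476) (nat_lit 4) (nat_lit 3) (nat_lit 7) (nat_lit 6) (nat_lit 46) (nat_lit 106) r1_46 r3_106 (nat_lit 47983) (nat_lit 0) (nat_lit 0) (nat_lit 0x75459b28c) (nat_lit 710414795),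
  Rx.mk (nat_lit 477) (nat_lit 5) (nat_lit 3) (nat_lit 7) (nat_lit 7) (nat_lit 47) (nat_lit 109) r1_47 r3_109 (nat_lit 0) (nat_lit 0) (nat_lit 0) (nat_lit 0x8b1948f84) (nat_lit 368104412),
  Rx.mk (nat_lit 479) (nat_lit 7) (nat_lit 3) (nat_lit 7) (nat_lit 7) (nat_lit 48) (nat_lit 110) r1_48 r3_110 (nat_lit 0) (nat_lit 0) (nat_lit 0) (nat_lit 0x80a93acb0) (nat_lit 527952812),
  Rx.mk (nat_lit 508) (nat_lit 4) (nat_lit 7) (nat_lit 7) (nat_lit 6) (nat_lit 43) (nat_lit 105) r1_43 r3_105 (nat_lit 2704556) (nat_lit 0) (nat_lit 0) (nat_lit 0x7c015df14) (nat_lit 604691568),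
  Rx.mk (nat_lit 509) (nat_lit 5) (nat_lit 7) (nat_lit 7) (nat_lit 7) (nat_lit 44) (nat_lit 108) r1_44 r3_108 (nat_lit 0) (nat_lit 0) (nat_lit 0) (nat_lit 0x80652468e) (nat_lit 532033562),
  Rx.mk (nat_lit 510) (nat_lit 6) (nat_lit 7) (nat_lit 7) (nat_lit 7) (nat_lit 45) (nat_lit 113) r1_45 r3_113 (nat_lit 0) (nat_lit 0) (nat_lit 0) (nat_lit 0x7fd885e1c) (nat_lit 540659262)]
noncomputable def e43_51 : List Rx := [
  Rx.mk (nat_lit 316) (nat_lit 4) (nat_lit 7) (nat_lit 4) (nat_lit 2) (nat_lit 154) (nat_lit 107) r1_154 r4_107 (nat_lit 13326467) (nat_lit 0) (nat_lit 159743199) (nat_lit 0x73d78693c) (nat_lit 907207678),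
  Rx.mk (nat_lit 317) (nat_lit 5) (nat_lit 7) (nat_lit 4) (nat_lit 3) (nat_lit 155) (nat_lit 109) r1_155 r4_109 (nat_lit 0) (nat_lit 0) (nat_lit 26051565) (nat_lit 0x8064f5dac) (nat_lit 558163527),
  Rx.mk (nat_lit 318) (nat_lit 6) (nat_lit 7) (nat_lit 4) (nat_lit 3) (nat_lit 156) (nat_lit 111) r1_156 r4_111 (nat_lit 0) (nat_lit 0) (nat_lit 26855787) (nat_lit 0x80aa4da94) (nat_lit 554718499),
  Rx.mk (nat_lit 446) (nat_lit 6) (nat_lit 7) (nat_lit 6) (nat_lit 7) (nat_lit 157) (nat_lit 113) r1_157 r4_113 (nat_lit 0) (nat_lit 0) (nat_lit 0) (nat_lit 0x8017985b4) (nat_lit 536870912),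
  Rx.mk (nat_lit 508) (nat_lit 4) (nat_lit 7) (nat_lit 7) (nat_lit 6) (nat_lit 158) (nat_lit 108) r1_158 r4_108 (nat_lit 21535191) (nat_lit 0) (nat_lit 0) (nat_lit 0x7c291a87c) (nat_lit 621319503),
  Rx.mk (nat_lit 509) (nat_lit 5) (nat_lit 7) (nat_lit 7) (nat_lit 7) (nat_lit 159) (nat_lit 110) r1_159 r4_110 (nat_lit 0) (nat_lit 0) (nat_lit 0) (nat_lit 0x807893f76) (nat_lit 530914262),
  Rx.mk (nat_lit 510) (nat_lit 6) (nat_lit 7) (nat_lit 7) (nat_lit 7) (nat_lit 160) (nat_lit 112) r1_160 r4_112 (nat_lit 0) (nat_lit 0) (nat_lit 0) (nat_lit 0x8039d0276) (nat_lit 534761612)]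
noncomputable def e43_52 : List Rx := [
  Rx.mk (nat_lit 284) (nat_lit 4) (nat_lit 3) (nat_lit 4) (nat_lit 2) (nat_lit 229) (nat_lit 107) r1_229 r5_107 (nat_lit 3281434) (nat_lit 0) (nat_lit 5641616) (nat_lit 0x6d31d3d56) (nat_lit 850354662),
  Rx.mk (nat_lit 285) (nat_lit 5) (nat_lit 3) (nat_lit 4) (nat_lit 3) (nat_lit 230) (nat_lit 110) r1_230 r5_110 (nat_lit 0) (nat_lit 0) (nat_lit 14046649) (nat_lit 0x808591f7a) (nat_lit 544109911),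
  Rx.mk (nat_lit 316) (nat_lit 4) (nat_lit 7) (nat_lit 4) (nat_lit 2) (nat_lit 225) (nat_lit 106) r1_225 r5_106 (nat_lit 1138385) (nat_lit 0) (nat_lit 183334041) (nat_lit 0x858f1770c) (nat_lit 636880238),
  Rx.mk (nat_lit 317) (nat_lit 5) (nat_lit 7) (nat_lit 4) (nat_lit 3) (nat_lit 226) (nat_lit 109) r1_226 r5_109 (nat_lit 0) (nat_lit 0) (nat_lit 20365735) (nat_lit 0x82689a0c8) (nat_lit 521307397),
  Rx.mk (nat_lit 318) (nat_lit 6) (nat_lit 7) (nat_lit 4) (nat_lit 3) (nat_lit 227) (nat_lit 113) r1_227 r5_113 (nat_lit 0) (nat_lit 0) (nat_lit 34273461) (nat_lit 0x80eb8917a) (nat_lit 558087723),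
  Rx.mk (nat_lit 446) (nat_lit 6) (nat_lit 7) (nat_lit 6) (nat_lit 7) (nat_lit 228) (nat_lit 114) r1_228 r5_114 (nat_lit 0) (nat_lit 0) (nat_lit 0) (nat_lit 0x80759d768) (nat_lit 530997812),
  Rx.mk (nat_lit 476) (nat_lit 4) (nat_lit 3) (nat_lit 7) (nat_lit 6) (nat_lit 231) (nat_lit 108) r1_231 r5_108 (nat_lit 13555305) (nat_lit 0) (nat_lit 0) (nat_lit 0x7b2b08126) (nat_lit 629326967),
  Rx.mk (nat_lit 477) (nat_lit 5) (nat_lit 3) (nat_lit 7) (nat_lit 7) (nat_lit 232) (nat_lit 111) r1_232 r5_111 (nat_lit 0) (nat_lit 0) (nat_lit 0) (nat_lit 0x8017985b4) (nat_lit 536870912),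
  Rx.mk (nat_lit 479) (nat_lit 7) (nat_lit 3) (nat_lit 7) (nat_lit 7) (nat_lit 233) (nat_lit 112) r1_233 r5_112 (nat_lit 0) (nat_lit 0) (nat_lit 0) (nat_lit 0x8017985b4) (nat_lit 536870912)]
noncomputable def e43_53 : List Rx := [
  Rx.mk (nat_lit 223) (nat_lit 7) (nat_lit 3) (nat_lit 3) (nat_lit 7) (nat_lit 57) (nat_lit 13) r1_57 r4_13 (nat_lit 0) (nat_lit 0) (nat_lit 0) (nat_lit 0x8007403f6) (nat_lit 537871262),
  Rx.mk (nat_lit 316) (nat_lit 4) (nat_lit 7) (nat_lit 4) (nat_lit 2) (nat_lit 50) (nat_lit 16) r1_50 r4_16 (nat_lit 12415695) (nat_lit 0) (nat_lit 67051359) (nat_lit 0x6dd5f0330) (nat_lit 910715916),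
  Rx.mk (nat_lit 318) (nat_lit 6) (nat_lit 7) (nat_lit 4) (nat_lit 3) (nat_lit 51) (nat_lit 17) r1_51 r4_17 (nat_lit 0) (nat_lit 0) (nat_lit 32103431) (nat_lit 0x7f4592056) (nat_lit 581897443),
  Rx.mk (nat_lit 446) (nat_lit 6) (nat_lit 7) (nat_lit 6) (nat_lit 7) (nat_lit 52) (nat_lit 20) r1_52 r4_20 (nat_lit 0) (nat_lit 0) (nat_lit 0) (nat_lit 0x8256757bc) (nat_lit 501986312),
  Rx.mk (nat_lit 476) (nat_lit 4) (nat_lit 3) (nat_lit 7) (nat_lit 6) (nat_lit 55) (nat_lit 14) r1_55 r4_14 (nat_lit 13824857) (nat_lit 0) (nat_lit 0) (nat_lit 0x8053119f6) (nat_lit 546991619),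
  Rx.mk (nat_lit 479) (nat_lit 7) (nat_lit 3) (nat_lit 7) (nat_lit 7) (nat_lit 56) (nat_lit 15) r1_56 r4_15 (nat_lit 0) (nat_lit 0) (nat_lit 0) (nat_lit 0x8078ceb44) (nat_lit 530903862),
  Rx.mk (nat_lit 508) (nat_lit 4) (nat_lit 7) (nat_lit 7) (nat_lit 6) (nat_lit 53) (nat_lit 18) r1_53 r4_18 (nat_lit 18565138) (nat_lit 0) (nat_lit 0) (nat_lit 0x7e088a2e0) (nat_lit 588194500),
  Rx.mk (nat_lit 510) (nat_lit 6) (nat_lit 7) (nat_lit 7) (nat_lit 7) (nat_lit 54) (nat_lit 19) r1_54 r4_19 (nat_lit 0) (nat_lit 0) (nat_lit 0) (nat_lit 0x8017985b4) (nat_lit 536870912)]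
noncomputable def e43_54 : List Rx := [
  Rx.mk (nat_lit 316) (nat_lit 4) (nat_lit 7) (nat_lit 4) (nat_lit 2) (nat_lit 161) (nat_lit 96) r1_161 r10_96 (nat_lit 15183139) (nat_lit 0) (nat_lit 22829563) (nat_lit 0x6e1d4f8f2) (nat_lit 864770414),
  Rx.mk (nat_lit 318) (nat_lit 6) (nat_lit 7) (nat_lit 4) (nat_lit 3) (nat_lit 162) (nat_lit 98) r1_162 r10_98 (nat_lit 0) (nat_lit 0) (nat_lit 24741287) (nat_lit 0x7fca1d474) (nat_lit 566365499),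
  Rx.mk (nat_lit 446) (nat_lit 6) (nat_lit 7) (nat_lit 6) (nat_lit 7) (nat_lit 163) (nat_lit 100) r1_163 r10_100 (nat_lit 0) (nat_lit 0) (nat_lit 0) (nat_lit 0x8017985b4) (nat_lit 536870912),
  Rx.mk (nat_lit 508) (nat_lit 4) (nat_lit 7) (nat_lit 7) (nat_lit 6) (nat_lit 164) (nat_lit 97) r1_164 r10_97 (nat_lit 9818448) (nat_lit 0) (nat_lit 0) (nat_lit 0x77a95bc0c) (nat_lit 682197510),
  Rx.mk (nat_lit 510) (nat_lit 6) (nat_lit 7) (nat_lit 7) (nat_lit 7) (nat_lit 165) (nat_lit 99) r1_165 r10_99 (nat_lit 0) (nat_lit 0) (nat_lit 0) (nat_lit 0x804a4b9b6) (nat_lit 533752062)]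
noncomputable def e43_55 : List Rx := [
  Rx.mk (nat_lit 284) (nat_lit 4) (nat_lit 3) (nat_lit 4) (nat_lit 2) (nat_lit 237) (nat_lit 108) r1_237 r11_108 (nat_lit 45330043) (nat_lit 0) (nat_lit 51763813) (nat_lit 0x7bfdcf3ca) (nat_lit 699634368),
  Rx.mk (nat_lit 316) (nat_lit 4) (nat_lit 7) (nat_lit 4) (nat_lit 2) (nat_lit 234) (nat_lit 107) r1_234 r11_107 (nat_lit 26935402) (nat_lit 0) (nat_lit 88719546) (nat_lit 0x76bea858e) (nat_lit 802950560),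
  Rx.mk (nat_lit 318) (nat_lit 6) (nat_lit 7) (nat_lit 4) (nat_lit 3) (nat_lit 235) (nat_lit 111) r1_235 r11_111 (nat_lit 0) (nat_lit 0) (nat_lit 25084538) (nat_lit 0x8001d6c6c) (nat_lit 563283450),
  Rx.mk (nat_lit 446) (nat_lit 6) (nat_lit 7) (nat_lit 6) (nat_lit 7) (nat_lit 236) (nat_lit 112) r1_236 r11_112 (nat_lit 0) (nat_lit 0) (nat_lit 0) (nat_lit 0x81471cbfe) (nat_lit 518335312),
  Rx.mk (nat_lit 476) (nat_lit 4) (nat_lit 3) (nat_lit 7) (nat_lit 6) (nat_lit 238) (nat_lit 109) r1_238 r11_109 (nat_lit 24741287) (nat_lit 0) (nat_lit 0) (nat_lit 0x8017985b4) (nat_lit 561612199),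
  Rx.mk (nat_lit 479) (nat_lit 7) (nat_lit 3) (nat_lit 7) (nat_lit 7) (nat_lit 239) (nat_lit 110) r1_239 r11_110 (nat_lit 0) (nat_lit 0) (nat_lit 0) (nat_lit 0x8017985b4) (nat_lit 536870912)]
noncomputable def e43_56 : List Rx := [
  Rx.mk (nat_lit 220) (nat_lit 4) (nat_lit 3) (nat_lit 3) (nat_lit 6) (nat_lit 63) (nat_lit 6) r1_63 r5_6 (nat_lit 10795266) (nat_lit 0) (nat_lit 0) (nat_lit 0x6d3a97438) (nat_lit 851857228),
  Rx.mk (nat_lit 221) (nat_lit 5) (nat_lit 3) (nat_lit 3) (nat_lit 7) (nat_lit 64) (nat_lit 7) r1_64 r5_7 (nat_lit 0) (nat_lit 0) (nat_lit 0) (nat_lit 0x8038a520c) (nat_lit 534837962),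
  Rx.mk (nat_lit 223) (nat_lit 7) (nat_lit 3) (nat_lit 3) (nat_lit 7) (nat_lit 65) (nat_lit 8) r1_65 r5_8 (nat_lit 0) (nat_lit 0) (nat_lit 0) (nat_lit 0x8009d4658) (nat_lit 537721562),
  Rx.mk (nat_lit 476) (nat_lit 4) (nat_lit 3) (nat_lit 7) (nat_lit 6) (nat_lit 61) (nat_lit 9) r1_61 r5_9 (nat_lit 3702159) (nat_lit 0) (nat_lit 0) (nat_lit 0x6eab69304) (nat_lit 821330421),
  Rx.mk (nat_lit 477) (nat_lit 5) (nat_lit 3) (nat_lit 7) (nat_lit 7) (nat_lit 62) (nat_lit 10) r1_62 r5_10 (nat_lit 0) (nat_lit 0) (nat_lit 0) (nat_lit 0x8270dea40) (nat_lit 500473562),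
  Rx.mk (nat_lit 508) (nat_lit 4) (nat_lit 7) (nat_lit 7) (nat_lit 6) (nat_lit 58) (nat_lit 11) r1_58 r5_11 (nat_lit 6051545) (nat_lit 0) (nat_lit 0) (nat_lit 0x72f5acc5a) (nat_lit 754383857),
  Rx.mk (nat_lit 509) (nat_lit 5) (nat_lit 7) (nat_lit 7) (nat_lit 7) (nat_lit 59) (nat_lit 12) r1_59 r5_12 (nat_lit 0) (nat_lit 0) (nat_lit 0) (nat_lit 0x814d8e96a) (nat_lit 517942162),
  Rx.mk (nat_lit 510) (nat_lit 6) (nat_lit 7) (nat_lit 7) (nat_lit 7) (nat_lit 60) (nat_lit 13) r1_60 r5_13 (nat_lit 0) (nat_lit 0) (nat_lit 0) (nat_lit 0x7fe62a1bc) (nat_lit 539838662)]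
noncomputable def e43_57 : List Rx := [
  Rx.mk (nat_lit 508) (nat_lit 4) (nat_lit 7) (nat_lit 7) (nat_lit 6) (nat_lit 166) (nat_lit 2) r1_166 r11_2 (nat_lit 24107596) (nat_lit 0) (nat_lit 0) (nat_lit 0x800249f8c) (nat_lit 562289358),
  Rx.mk (nat_lit 509) (nat_lit 5) (nat_lit 7) (nat_lit 7) (nat_lit 7) (nat_lit 167) (nat_lit 3) r1_167 r11_3 (nat_lit 0) (nat_lit 0) (nat_lit 0) (nat_lit 0x8017985b4) (nat_lit 536870912),
  Rx.mk (nat_lit 510) (nat_lit 6) (nat_lit 7) (nat_lit 7) (nat_lit 7) (nat_lit 168) (nat_lit 4) r1_168 r11_4 (nat_lit 0) (nat_lit 0) (nat_lit 0) (nat_lit 0x8017985b4) (nat_lit 536870912)]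
noncomputable def e43 : List (List Rx) := [e43_0, e43_1, e43_2, e43_3, e43_4, e43_5, e43_6, e43_7, e43_8, e43_9, e43_10, e43_11, e43_12, e43_13, e43_14, e43_15, e43_16, e43_17, e43_18, e43_19, e43_20, e43_21, e43_22, e43_23, e43_24, e43_25, e43_26, e43_27, e43_28, e43_29, e43_30, e43_31, e43_32, e43_33, e43_34, e43_35, e43_36, e43_37, e43_38, e43_39, e43_40, e43_41, e43_42, e43_43, e43_44, e43_45, e43_46, e43_47, e43_48, e43_49, e43_50, e43_51, e43_52, e43_53, e43_54, e43_55, e43_56, e43_57]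
noncomputable def e44_0 : List Rx := [
  Rx.mk (nat_lit 1) (nat_lit 1) (nat_lit 0) (nat_lit 0) (nat_lit 1) (nat_lit 230) (nat_lit 271) r8_230 r0_271 (nat_lit 0) (nat_lit 75494649) (nat_lit 75450971) (nat_lit 0x5a61765d0) (nat_lit 1296858182),
  Rx.mk (nat_lit 5) (nat_lit 5) (nat_lit 0) (nat_lit 0) (nat_lit 1) (nat_lit 237) (nat_lit 278) r8_237 r0_278 (nat_lit 0) (nat_lit 22445376) (nat_lit 11187286) (nat_lit 0x611b170e2) (nat_lit 1070645824),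
  Rx.mk (nat_lit 9) (nat_lit 1) (nat_lit 1) (nat_lit 0) (nat_lit 3) (nat_lit 231) (nat_lit 274) r8_231 r0_274 (nat_lit 0) (nat_lit 0) (nat_lit 30314307) (nat_lit 0x6f3513136) (nat_lit 839472119),
  Rx.mk (nat_lit 13) (nat_lit 5) (nat_lit 1) (nat_lit 0) (nat_lit 3) (nat_lit 238) (nat_lit 280) r8_238 r0_280 (nat_lit 0) (nat_lit 0) (nat_lit 25163350) (nat_lit 0x75f165a36) (nat_lit 725421662),
  Rx.mk (nat_lit 65) (nat_lit 1) (nat_lit 0) (nat_lit 1) (nat_lit 5) (nat_lit 232) (nat_lit 272) r8_232 r0_272 (nat_lit 0) (nat_lit 36993222) (nat_lit 0) (nat_lit 0x7df6aaa0c) (nat_lit 607751434),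
  Rx.mk (nat_lit 69) (nat_lit 5) (nat_lit 0) (nat_lit 1) (nat_lit 5) (nat_lit 239) (nat_lit 279) r8_239 r0_279 (nat_lit 0) (nat_lit 24741287) (nat_lit 0) (nat_lit 0x7faf81db8) (nat_lit 567993049),
  Rx.mk (nat_lit 73) (nat_lit 1) (nat_lit 1) (nat_lit 1) (nat_lit 7) (nat_lit 233) (nat_lit 275) r8_233 r0_275 (nat_lit 0) (nat_lit 0) (nat_lit 0) (nat_lit 0x7f69ccc6e) (nat_lit 547574012),
  Rx.mk (nat_lit 77) (nat_lit 5) (nat_lit 1) (nat_lit 1) (nat_lit 7) (nat_lit 240) (nat_lit 281) r8_240 r0_281 (nat_lit 0) (nat_lit 0) (nat_lit 0) (nat_lit 0x80027a268) (nat_lit 538140112),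
  Rx.mk (nat_lit 193) (nat_lit 1) (nat_lit 0) (nat_lit 3) (nat_lit 5) (nat_lit 234) (nat_lit 273) r8_234 r0_273 (nat_lit 0) (nat_lit 25972273) (nat_lit 0) (nat_lit 0x7eb8e4744) (nat_lit 584573485),
  Rx.mk (nat_lit 201) (nat_lit 1) (nat_lit 1) (nat_lit 3) (nat_lit 7) (nat_lit 235) (nat_lit 276) r8_235 r0_276 (nat_lit 0) (nat_lit 0) (nat_lit 0) (nat_lit 0x8017985b4) (nat_lit 536870912),
  Rx.mk (nat_lit 217) (nat_lit 1) (nat_lit 3) (nat_lit 3) (nat_lit 7) (nat_lit 236) (nat_lit 277) r8_236 r0_277 (nat_lit 0) (nat_lit 0) (nat_lit 0) (nat_lit 0x8010a6c4c) (nat_lit 537295162)]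
noncomputable def e44_1 : List Rx := [
  Rx.mk (nat_lit 65) (nat_lit 1) (nat_lit 0) (nat_lit 1) (nat_lit 5) (nat_lit 316) (nat_lit 274) r8_316 r1_274 (nat_lit 0) (nat_lit 24586055) (nat_lit 0) (nat_lit 0x80057ba20) (nat_lit 562565917),
  Rx.mk (nat_lit 69) (nat_lit 5) (nat_lit 0) (nat_lit 1) (nat_lit 5) (nat_lit 318) (nat_lit 276) r8_318 r1_276 (nat_lit 0) (nat_lit 24741287) (nat_lit 0) (nat_lit 0x8017985b4) (nat_lit 561612199),
  Rx.mk (nat_lit 73) (nat_lit 1) (nat_lit 1) (nat_lit 1) (nat_lit 7) (nat_lit 317) (nat_lit 275) r8_317 r1_275 (nat_lit 0) (nat_lit 0) (nat_lit 0) (nat_lit 0x8017985b4) (nat_lit 536870912),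
  Rx.mk (nat_lit 77) (nat_lit 5) (nat_lit 1) (nat_lit 1) (nat_lit 7) (nat_lit 319) (nat_lit 277) r8_319 r1_277 (nat_lit 0) (nat_lit 0) (nat_lit 0) (nat_lit 0x8017985b4) (nat_lit 536870912)]
noncomputable def e44_2 : List Rx := [
  Rx.mk (nat_lit 73) (nat_lit 1) (nat_lit 1) (nat_lit 1) (nat_lit 7) (nat_lit 320) (nat_lit 301) r8_320 r2_301 (nat_lit 0) (nat_lit 0) (nat_lit 0) (nat_lit 0x8017985b4) (nat_lit 536870912),
  Rx.mk (nat_lit 77) (nat_lit 5) (nat_lit 1) (nat_lit 1) (nat_lit 7) (nat_lit 321) (nat_lit 302) r8_321 r2_302 (nat_lit 0) (nat_lit 0) (nat_lit 0) (nat_lit 0x8017985b4) (nat_lit 536870912),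
  Rx.mk (nat_lit 333) (nat_lit 5) (nat_lit 1) (nat_lit 5) (nat_lit 7) (nat_lit 322) (nat_lit 303) r8_322 r2_303 (nat_lit 0) (nat_lit 0) (nat_lit 0) (nat_lit 0x8017985b4) (nat_lit 536870912)]
noncomputable def e44_3 : List Rx := [
  Rx.mk (nat_lit 5) (nat_lit 5) (nat_lit 0) (nat_lit 0) (nat_lit 1) (nat_lit 334) (nat_lit 268) r8_334 r3_268 (nat_lit 0) (nat_lit 875122) (nat_lit 913664) (nat_lit 0x5cc5f9ef6) (nat_lit 1108454298),
  Rx.mk (nat_lit 13) (nat_lit 5) (nat_lit 1) (nat_lit 0) (nat_lit 3) (nat_lit 335) (nat_lit 270) r8_335 r3_270 (nat_lit 0) (nat_lit 0) (nat_lit 20103359) (nat_lit 0x733b06e04) (nat_lit 764186071),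
  Rx.mk (nat_lit 193) (nat_lit 1) (nat_lit 0) (nat_lit 3) (nat_lit 5) (nat_lit 331) (nat_lit 265) r8_331 r3_265 (nat_lit 0) (nat_lit 14122163) (nat_lit 0) (nat_lit 0x6b5780b64) (nat_lit 885726425),
  Rx.mk (nat_lit 197) (nat_lit 5) (nat_lit 0) (nat_lit 3) (nat_lit 5) (nat_lit 336) (nat_lit 269) r8_336 r3_269 (nat_lit 0) (nat_lit 6010146) (nat_lit 0) (nat_lit 0x6e1566726) (nat_lit 833142708),
  Rx.mk (nat_lit 201) (nat_lit 1) (nat_lit 1) (nat_lit 3) (nat_lit 7) (nat_lit 332) (nat_lit 266) r8_332 r3_266 (nat_lit 0) (nat_lit 0) (nat_lit 0) (nat_lit 0x8017985b4) (nat_lit 536870912),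
  Rx.mk (nat_lit 205) (nat_lit 5) (nat_lit 1) (nat_lit 3) (nat_lit 7) (nat_lit 337) (nat_lit 271) r8_337 r3_271 (nat_lit 0) (nat_lit 0) (nat_lit 0) (nat_lit 0x7f8ae4a3c) (nat_lit 545526512),
  Rx.mk (nat_lit 217) (nat_lit 1) (nat_lit 3) (nat_lit 3) (nat_lit 7) (nat_lit 333) (nat_lit 267) r8_333 r3_267 (nat_lit 0) (nat_lit 0) (nat_lit 0) (nat_lit 0x7f54cbf2c) (nat_lit 548916912)]
noncomputable def e44_4 : List Rx := [
  Rx.mk (nat_lit 5) (nat_lit 5) (nat_lit 0) (nat_lit 0) (nat_lit 1) (nat_lit 341) (nat_lit 287) r8_341 r4_287 (nat_lit 0) (nat_lit 27124229) (nat_lit 34758505) (nat_lit 0x700d128ac) (nat_lit 857380996),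
  Rx.mk (nat_lit 13) (nat_lit 5) (nat_lit 1) (nat_lit 0) (nat_lit 3) (nat_lit 342) (nat_lit 290) r8_342 r4_290 (nat_lit 0) (nat_lit 0) (nat_lit 24741287) (nat_lit 0x8017985b4) (nat_lit 561612199),
  Rx.mk (nat_lit 69) (nat_lit 5) (nat_lit 0) (nat_lit 1) (nat_lit 5) (nat_lit 343) (nat_lit 288) r8_343 r4_288 (nat_lit 0) (nat_lit 24741287) (nat_lit 0) (nat_lit 0x7ff500268) (nat_lit 563728899),
  Rx.mk (nat_lit 77) (nat_lit 5) (nat_lit 1) (nat_lit 1) (nat_lit 7) (nat_lit 344) (nat_lit 291) r8_344 r4_291 (nat_lit 0) (nat_lit 0) (nat_lit 0) (nat_lit 0x8017985b4) (nat_lit 536870912),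
  Rx.mk (nat_lit 193) (nat_lit 1) (nat_lit 0) (nat_lit 3) (nat_lit 5) (nat_lit 338) (nat_lit 284) r8_338 r4_284 (nat_lit 0) (nat_lit 24741287) (nat_lit 0) (nat_lit 0x8017985b4) (nat_lit 561612199),
  Rx.mk (nat_lit 197) (nat_lit 5) (nat_lit 0) (nat_lit 3) (nat_lit 5) (nat_lit 345) (nat_lit 289) r8_345 r4_289 (nat_lit 0) (nat_lit 24741287) (nat_lit 0) (nat_lit 0x8017985b4) (nat_lit 561612199),
  Rx.mk (nat_lit 201) (nat_lit 1) (nat_lit 1) (nat_lit 3) (nat_lit 7) (nat_lit 339) (nat_lit 285) r8_339 r4_285 (nat_lit 0) (nat_lit 0) (nat_lit 0) (nat_lit 0x8017985b4) (nat_lit 536870912),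
  Rx.mk (nat_lit 205) (nat_lit 5) (nat_lit 1) (nat_lit 3) (nat_lit 7) (nat_lit 346) (nat_lit 292) r8_346 r4_292 (nat_lit 0) (nat_lit 0) (nat_lit 0) (nat_lit 0x8017985b4) (nat_lit 536870912),
  Rx.mk (nat_lit 217) (nat_lit 1) (nat_lit 3) (nat_lit 3) (nat_lit 7) (nat_lit 340) (nat_lit 286) r8_340 r4_286 (nat_lit 0) (nat_lit 0) (nat_lit 0) (nat_lit 0x8017985b4) (nat_lit 536870912)]
noncomputable def e44_5 : List Rx := [
  Rx.mk (nat_lit 193) (nat_lit 1) (nat_lit 0) (nat_lit 3) (nat_lit 5) (nat_lit 347) (nat_lit 269) r8_347 r5_269 (nat_lit 0) (nat_lit 26407128) (nat_lit 0) (nat_lit 0x7ed75b9ac) (nat_lit 583090140),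
  Rx.mk (nat_lit 197) (nat_lit 5) (nat_lit 0) (nat_lit 3) (nat_lit 5) (nat_lit 349) (nat_lit 271) r8_349 r5_271 (nat_lit 0) (nat_lit 26551209) (nat_lit 0) (nat_lit 0x7f5f75306) (nat_lit 574765171),
  Rx.mk (nat_lit 201) (nat_lit 1) (nat_lit 1) (nat_lit 3) (nat_lit 7) (nat_lit 348) (nat_lit 270) r8_348 r5_270 (nat_lit 0) (nat_lit 0) (nat_lit 0) (nat_lit 0x8017985b4) (nat_lit 536870912),
  Rx.mk (nat_lit 205) (nat_lit 5) (nat_lit 1) (nat_lit 3) (nat_lit 7) (nat_lit 350) (nat_lit 272) r8_350 r5_272 (nat_lit 0) (nat_lit 0) (nat_lit 0) (nat_lit 0x8017985b4) (nat_lit 536870912)]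
noncomputable def e44_6 : List Rx := [
  Rx.mk (nat_lit 269) (nat_lit 5) (nat_lit 1) (nat_lit 4) (nat_lit 3) (nat_lit 61) (nat_lit 288) r8_61 r3_288 (nat_lit 0) (nat_lit 0) (nat_lit 4361193) (nat_lit 0x73e0634a6) (nat_lit 737767955),
  Rx.mk (nat_lit 461) (nat_lit 5) (nat_lit 1) (nat_lit 7) (nat_lit 7) (nat_lit 62) (nat_lit 289) r8_62 r3_289 (nat_lit 0) (nat_lit 0) (nat_lit 0) (nat_lit 0x851b92084) (nat_lit 459606612)]
noncomputable def e44_7 : List Rx := [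
  Rx.mk (nat_lit 269) (nat_lit 5) (nat_lit 1) (nat_lit 4) (nat_lit 3) (nat_lit 178) (nat_lit 289) r8_178 r0_289 (nat_lit 0) (nat_lit 0) (nat_lit 25058333) (nat_lit 0x74a9cadf8) (nat_lit 746005345),
  Rx.mk (nat_lit 333) (nat_lit 5) (nat_lit 1) (nat_lit 5) (nat_lit 7) (nat_lit 179) (nat_lit 290) r8_179 r0_290 (nat_lit 0) (nat_lit 0) (nat_lit 0) (nat_lit 0x7ffa6b34c) (nat_lit 538657562)]
noncomputable def e44_8 : List Rx := [
  Rx.mk (nat_lit 333) (nat_lit 5) (nat_lit 1) (nat_lit 5) (nat_lit 7) (nat_lit 180) (nat_lit 286) r8_180 r1_286 (nat_lit 0) (nat_lit 0) (nat_lit 0) (nat_lit 0x8017985b4) (nat_lit 536870912)]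
noncomputable def e44_9 : List Rx := [
  Rx.mk (nat_lit 269) (nat_lit 5) (nat_lit 1) (nat_lit 4) (nat_lit 3) (nat_lit 181) (nat_lit 304) r8_181 r4_304 (nat_lit 0) (nat_lit 0) (nat_lit 24372871) (nat_lit 0x7fec7bb1a) (nat_lit 563885983),
  Rx.mk (nat_lit 333) (nat_lit 5) (nat_lit 1) (nat_lit 5) (nat_lit 7) (nat_lit 182) (nat_lit 305) r8_182 r4_305 (nat_lit 0) (nat_lit 0) (nat_lit 0) (nat_lit 0x8017985b4) (nat_lit 536870912),
  Rx.mk (nat_lit 461) (nat_lit 5) (nat_lit 1) (nat_lit 7) (nat_lit 7) (nat_lit 183) (nat_lit 306) r8_183 r4_306 (nat_lit 0) (nat_lit 0) (nat_lit 0) (nat_lit 0x8017985b4) (nat_lit 536870912)]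
noncomputable def e44_10 : List Rx := [
  Rx.mk (nat_lit 197) (nat_lit 5) (nat_lit 0) (nat_lit 3) (nat_lit 5) (nat_lit 214) (nat_lit 300) r8_214 r6_300 (nat_lit 0) (nat_lit 24741287) (nat_lit 0) (nat_lit 0x8017985b4) (nat_lit 561612199),
  Rx.mk (nat_lit 205) (nat_lit 5) (nat_lit 1) (nat_lit 3) (nat_lit 7) (nat_lit 215) (nat_lit 302) r8_215 r6_302 (nat_lit 0) (nat_lit 0) (nat_lit 0) (nat_lit 0x8017985b4) (nat_lit 536870912),
  Rx.mk (nat_lit 453) (nat_lit 5) (nat_lit 0) (nat_lit 7) (nat_lit 5) (nat_lit 216) (nat_lit 301) r8_216 r6_301 (nat_lit 0) (nat_lit 11102784) (nat_lit 0) (nat_lit 0x80e83c530) (nat_lit 535184746),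
  Rx.mk (nat_lit 461) (nat_lit 5) (nat_lit 1) (nat_lit 7) (nat_lit 7) (nat_lit 217) (nat_lit 303) r8_217 r6_303 (nat_lit 0) (nat_lit 0) (nat_lit 0) (nat_lit 0x8017985b4) (nat_lit 536870912)]
noncomputable def e44_11 : List Rx := [
  Rx.mk (nat_lit 461) (nat_lit 5) (nat_lit 1) (nat_lit 7) (nat_lit 7) (nat_lit 218) (nat_lit 285) r8_218 r5_285 (nat_lit 0) (nat_lit 0) (nat_lit 0) (nat_lit 0x815927600) (nat_lit 517280412)]
noncomputable def e44_12 : List Rx := [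
  Rx.mk (nat_lit 1) (nat_lit 1) (nat_lit 0) (nat_lit 0) (nat_lit 1) (nat_lit 241) (nat_lit 188) r8_241 r0_188 (nat_lit 0) (nat_lit 19008238) (nat_lit 24251954) (nat_lit 0x59ee2d664) (nat_lit 1196415754),
  Rx.mk (nat_lit 9) (nat_lit 1) (nat_lit 1) (nat_lit 0) (nat_lit 3) (nat_lit 242) (nat_lit 189) r8_242 r0_189 (nat_lit 0) (nat_lit 0) (nat_lit 26165794) (nat_lit 0x7b3e3e45c) (nat_lit 640781706),
  Rx.mk (nat_lit 17) (nat_lit 1) (nat_lit 2) (nat_lit 0) (nat_lit 3) (nat_lit 243) (nat_lit 190) r8_243 r0_190 (nat_lit 0) (nat_lit 0) (nat_lit 32293832) (nat_lit 0x808393b6a) (nat_lit 562478594),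
  Rx.mk (nat_lit 193) (nat_lit 1) (nat_lit 0) (nat_lit 3) (nat_lit 5) (nat_lit 244) (nat_lit 191) r8_244 r0_191 (nat_lit 0) (nat_lit 20123998) (nat_lit 0) (nat_lit 0x7c1a22dec) (nat_lit 620862110),
  Rx.mk (nat_lit 201) (nat_lit 1) (nat_lit 1) (nat_lit 3) (nat_lit 7) (nat_lit 245) (nat_lit 192) r8_245 r0_192 (nat_lit 0) (nat_lit 0) (nat_lit 0) (nat_lit 0x8005f486c) (nat_lit 537949312),
  Rx.mk (nat_lit 209) (nat_lit 1) (nat_lit 2) (nat_lit 3) (nat_lit 7) (nat_lit 246) (nat_lit 194) r8_246 r0_194 (nat_lit 0) (nat_lit 0) (nat_lit 0) (nat_lit 0x8017985b4) (nat_lit 536870912),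
  Rx.mk (nat_lit 217) (nat_lit 1) (nat_lit 3) (nat_lit 3) (nat_lit 7) (nat_lit 247) (nat_lit 193) r8_247 r0_193 (nat_lit 0) (nat_lit 0) (nat_lit 0) (nat_lit 0x8017985b4) (nat_lit 536870912)]
noncomputable def e44_13 : List Rx := [
  Rx.mk (nat_lit 1) (nat_lit 1) (nat_lit 0) (nat_lit 0) (nat_lit 1) (nat_lit 248) (nat_lit 388) r8_248 r7_388 (nat_lit 0) (nat_lit 69413824) (nat_lit 54887331) (nat_lit 0x65c8453d2) (nat_lit 1085844417),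
  Rx.mk (nat_lit 9) (nat_lit 1) (nat_lit 1) (nat_lit 0) (nat_lit 3) (nat_lit 249) (nat_lit 391) r8_249 r7_391 (nat_lit 0) (nat_lit 0) (nat_lit 25009292) (nat_lit 0x8011540e0) (nat_lit 562263654),
  Rx.mk (nat_lit 17) (nat_lit 1) (nat_lit 2) (nat_lit 0) (nat_lit 3) (nat_lit 250) (nat_lit 395) r8_250 r7_395 (nat_lit 0) (nat_lit 0) (nat_lit 24741287) (nat_lit 0x8017985b4) (nat_lit 561612199),
  Rx.mk (nat_lit 65) (nat_lit 1) (nat_lit 0) (nat_lit 1) (nat_lit 5) (nat_lit 251) (nat_lit 389) r8_251 r7_389 (nat_lit 0) (nat_lit 25521481) (nat_lit 0) (nat_lit 0x8004c69ea) (nat_lit 563543143),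
  Rx.mk (nat_lit 73) (nat_lit 1) (nat_lit 1) (nat_lit 1) (nat_lit 7) (nat_lit 252) (nat_lit 392) r8_252 r7_392 (nat_lit 0) (nat_lit 0) (nat_lit 0) (nat_lit 0x8017985b4) (nat_lit 536870912),
  Rx.mk (nat_lit 81) (nat_lit 1) (nat_lit 2) (nat_lit 1) (nat_lit 7) (nat_lit 253) (nat_lit 396) r8_253 r7_396 (nat_lit 0) (nat_lit 0) (nat_lit 0) (nat_lit 0x8017985b4) (nat_lit 536870912),
  Rx.mk (nat_lit 193) (nat_lit 1) (nat_lit 0) (nat_lit 3) (nat_lit 5) (nat_lit 254) (nat_lit 390) r8_254 r7_390 (nat_lit 0) (nat_lit 24625619) (nat_lit 0) (nat_lit 0x800a04d3a) (nat_lit 562328731),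
  Rx.mk (nat_lit 201) (nat_lit 1) (nat_lit 1) (nat_lit 3) (nat_lit 7) (nat_lit 255) (nat_lit 393) r8_255 r7_393 (nat_lit 0) (nat_lit 0) (nat_lit 0) (nat_lit 0x8017985b4) (nat_lit 536870912),
  Rx.mk (nat_lit 217) (nat_lit 1) (nat_lit 3) (nat_lit 3) (nat_lit 7) (nat_lit 256) (nat_lit 394) r8_256 r7_394 (nat_lit 0) (nat_lit 0) (nat_lit 0) (nat_lit 0x8017985b4) (nat_lit 536870912)]
noncomputable def e44_14 : List Rx := [
  Rx.mk (nat_lit 0) (nat_lit 0) (nat_lit 0) (nat_lit 0) (nat_lit 0) (nat_lit 283) (nat_lit 201) r8_283 r1_201 (nat_lit 11826643) (nat_lit 20700425) (nat_lit 34852659) (nat_lit 0x3dc59600a) (nat_lit 1675850589),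
  Rx.mk (nat_lit 1) (nat_lit 1) (nat_lit 0) (nat_lit 0) (nat_lit 1) (nat_lit 289) (nat_lit 202) r8_289 r1_202 (nat_lit 0) (nat_lit 32376877) (nat_lit 29801349) (nat_lit 0x669a3f496) (nat_lit 1010443188),
  Rx.mk (nat_lit 9) (nat_lit 1) (nat_lit 1) (nat_lit 0) (nat_lit 3) (nat_lit 290) (nat_lit 203) r8_290 r1_203 (nat_lit 0) (nat_lit 0) (nat_lit 25018304) (nat_lit 0x7fdcdbf2a) (nat_lit 565476766),
  Rx.mk (nat_lit 16) (nat_lit 0) (nat_lit 2) (nat_lit 0) (nat_lit 2) (nat_lit 284) (nat_lit 204) r8_284 r1_204 (nat_lit 26799246) (nat_lit 0) (nat_lit 57475971) (nat_lit 0x672d75b5c) (nat_lit 1023262029),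
  Rx.mk (nat_lit 17) (nat_lit 1) (nat_lit 2) (nat_lit 0) (nat_lit 3) (nat_lit 291) (nat_lit 205) r8_291 r1_205 (nat_lit 0) (nat_lit 0) (nat_lit 25047671) (nat_lit 0x804337652) (nat_lit 559218933),
  Rx.mk (nat_lit 144) (nat_lit 0) (nat_lit 2) (nat_lit 2) (nat_lit 6) (nat_lit 285) (nat_lit 214) r8_285 r1_214 (nat_lit 25082552) (nat_lit 0) (nat_lit 0) (nat_lit 0x71434a6d0) (nat_lit 800991214),
  Rx.mk (nat_lit 145) (nat_lit 1) (nat_lit 2) (nat_lit 2) (nat_lit 7) (nat_lit 292) (nat_lit 215) r8_292 r1_215 (nat_lit 0) (nat_lit 0) (nat_lit 0) (nat_lit 0x808e1a7dc) (nat_lit 529571662),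
  Rx.mk (nat_lit 146) (nat_lit 2) (nat_lit 2) (nat_lit 2) (nat_lit 7) (nat_lit 297) (nat_lit 216) r8_297 r1_216 (nat_lit 0) (nat_lit 0) (nat_lit 0) (nat_lit 0x7ed9578a0) (nat_lit 556568262),
  Rx.mk (nat_lit 192) (nat_lit 0) (nat_lit 0) (nat_lit 3) (nat_lit 4) (nat_lit 286) (nat_lit 206) r8_286 r1_206 (nat_lit 31654428) (nat_lit 33972801) (nat_lit 0) (nat_lit 0x6c187865a) (nat_lit 925088641),
  Rx.mk (nat_lit 193) (nat_lit 1) (nat_lit 0) (nat_lit 3) (nat_lit 5) (nat_lit 293) (nat_lit 207) r8_293 r1_207 (nat_lit 0) (nat_lit 25834482) (nat_lit 0) (nat_lit 0x7f77d0d42) (nat_lit 572534144),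
  Rx.mk (nat_lit 201) (nat_lit 1) (nat_lit 1) (nat_lit 3) (nat_lit 7) (nat_lit 294) (nat_lit 208) r8_294 r1_208 (nat_lit 0) (nat_lit 0) (nat_lit 0) (nat_lit 0x8017985b4) (nat_lit 536870912),
  Rx.mk (nat_lit 208) (nat_lit 0) (nat_lit 2) (nat_lit 3) (nat_lit 6) (nat_lit 287) (nat_lit 212) r8_287 r1_212 (nat_lit 24741287) (nat_lit 0) (nat_lit 0) (nat_lit 0x8017985b4) (nat_lit 561612199),
  Rx.mk (nat_lit 209) (nat_lit 1) (nat_lit 2) (nat_lit 3) (nat_lit 7) (nat_lit 295) (nat_lit 213) r8_295 r1_213 (nat_lit 0) (nat_lit 0) (nat_lit 0) (nat_lit 0x8017985b4) (nat_lit 536870912),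
  Rx.mk (nat_lit 216) (nat_lit 0) (nat_lit 3) (nat_lit 3) (nat_lit 6) (nat_lit 288) (nat_lit 209) r8_288 r1_209 (nat_lit 24741287) (nat_lit 0) (nat_lit 0) (nat_lit 0x8017985b4) (nat_lit 561612199),
  Rx.mk (nat_lit 217) (nat_lit 1) (nat_lit 3) (nat_lit 3) (nat_lit 7) (nat_lit 296) (nat_lit 210) r8_296 r1_210 (nat_lit 0) (nat_lit 0) (nat_lit 0) (nat_lit 0x8017985b4) (nat_lit 536870912),
  Rx.mk (nat_lit 219) (nat_lit 3) (nat_lit 3) (nat_lit 3) (nat_lit 7) (nat_lit 298) (nat_lit 211) r8_298 r1_211 (nat_lit 0) (nat_lit 0) (nat_lit 0) (nat_lit 0x8017985b4) (nat_lit 536870912)]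
noncomputable def e44_15 : List Rx := [
  Rx.mk (nat_lit 0) (nat_lit 0) (nat_lit 0) (nat_lit 0) (nat_lit 0) (nat_lit 299) (nat_lit 299) r8_299 r8_299 (nat_lit 24537386) (nat_lit 49404879) (nat_lit 49404879) (nat_lit 0x3fed72ca2) (nat_lit 1697003556),
  Rx.mk (nat_lit 1) (nat_lit 1) (nat_lit 0) (nat_lit 0) (nat_lit 1) (nat_lit 304) (nat_lit 304) r8_304 r8_304 (nat_lit 0) (nat_lit 73831755) (nat_lit 73831755) (nat_lit 0x6cd203c6e) (nat_lit 995409072),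
  Rx.mk (nat_lit 9) (nat_lit 1) (nat_lit 1) (nat_lit 0) (nat_lit 3) (nat_lit 305) (nat_lit 307) r8_305 r8_307 (nat_lit 0) (nat_lit 0) (nat_lit 23858381) (nat_lit 0x7fdfd7f80) (nat_lit 564143543),
  Rx.mk (nat_lit 16) (nat_lit 0) (nat_lit 2) (nat_lit 0) (nat_lit 2) (nat_lit 300) (nat_lit 302) r8_300 r8_302 (nat_lit 44632481) (nat_lit 0) (nat_lit 39717842) (nat_lit 0x6cbc2f938) (nat_lit 933479835),
  Rx.mk (nat_lit 17) (nat_lit 1) (nat_lit 2) (nat_lit 0) (nat_lit 3) (nat_lit 306) (nat_lit 311) r8_306 r8_311 (nat_lit 0) (nat_lit 0) (nat_lit 24741287) (nat_lit 0x8017985b4) (nat_lit 561612199),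
  Rx.mk (nat_lit 65) (nat_lit 1) (nat_lit 0) (nat_lit 1) (nat_lit 5) (nat_lit 307) (nat_lit 305) r8_307 r8_305 (nat_lit 0) (nat_lit 23858381) (nat_lit 0) (nat_lit 0x7fdfd7f80) (nat_lit 564143543),
  Rx.mk (nat_lit 73) (nat_lit 1) (nat_lit 1) (nat_lit 1) (nat_lit 7) (nat_lit 308) (nat_lit 308) r8_308 r8_308 (nat_lit 0) (nat_lit 0) (nat_lit 0) (nat_lit 0x8017985b4) (nat_lit 536870912),
  Rx.mk (nat_lit 81) (nat_lit 1) (nat_lit 2) (nat_lit 1) (nat_lit 7) (nat_lit 309) (nat_lit 312) r8_309 r8_312 (nat_lit 0) (nat_lit 0) (nat_lit 0) (nat_lit 0x8017985b4) (nat_lit 536870912),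
  Rx.mk (nat_lit 144) (nat_lit 0) (nat_lit 2) (nat_lit 2) (nat_lit 6) (nat_lit 301) (nat_lit 303) r8_301 r8_303 (nat_lit 24741287) (nat_lit 0) (nat_lit 0) (nat_lit 0x8017985b4) (nat_lit 561612199),
  Rx.mk (nat_lit 145) (nat_lit 1) (nat_lit 2) (nat_lit 2) (nat_lit 7) (nat_lit 310) (nat_lit 313) r8_310 r8_313 (nat_lit 0) (nat_lit 0) (nat_lit 0) (nat_lit 0x8017985b4) (nat_lit 536870912),
  Rx.mk (nat_lit 146) (nat_lit 2) (nat_lit 2) (nat_lit 2) (nat_lit 7) (nat_lit 314) (nat_lit 315) r8_314 r8_315 (nat_lit 0) (nat_lit 0) (nat_lit 0) (nat_lit 0x8017985b4) (nat_lit 536870912),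
  Rx.mk (nat_lit 192) (nat_lit 0) (nat_lit 0) (nat_lit 3) (nat_lit 4) (nat_lit 302) (nat_lit 300) r8_302 r8_300 (nat_lit 44632481) (nat_lit 39717842) (nat_lit 0) (nat_lit 0x6cbc2f938) (nat_lit 933479835),
  Rx.mk (nat_lit 193) (nat_lit 1) (nat_lit 0) (nat_lit 3) (nat_lit 5) (nat_lit 311) (nat_lit 306) r8_311 r8_306 (nat_lit 0) (nat_lit 24741287) (nat_lit 0) (nat_lit 0x8017985b4) (nat_lit 561612199),
  Rx.mk (nat_lit 201) (nat_lit 1) (nat_lit 1) (nat_lit 3) (nat_lit 7) (nat_lit 312) (nat_lit 309) r8_312 r8_309 (nat_lit 0) (nat_lit 0) (nat_lit 0) (nat_lit 0x8017985b4) (nat_lit 536870912),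
  Rx.mk (nat_lit 216) (nat_lit 0) (nat_lit 3) (nat_lit 3) (nat_lit 6) (nat_lit 303) (nat_lit 301) r8_303 r8_301 (nat_lit 24741287) (nat_lit 0) (nat_lit 0) (nat_lit 0x8017985b4) (nat_lit 561612199),
  Rx.mk (nat_lit 217) (nat_lit 1) (nat_lit 3) (nat_lit 3) (nat_lit 7) (nat_lit 313) (nat_lit 310) r8_313 r8_310 (nat_lit 0) (nat_lit 0) (nat_lit 0) (nat_lit 0x8017985b4) (nat_lit 536870912),
  Rx.mk (nat_lit 219) (nat_lit 3) (nat_lit 3) (nat_lit 3) (nat_lit 7) (nat_lit 315) (nat_lit 314) r8_315 r8_314 (nat_lit 0) (nat_lit 0) (nat_lit 0) (nat_lit 0x8017985b4) (nat_lit 536870912)]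
noncomputable def e44_16 : List Rx := [
  Rx.mk (nat_lit 65) (nat_lit 1) (nat_lit 0) (nat_lit 1) (nat_lit 5) (nat_lit 323) (nat_lit 191) r8_323 r8_191 (nat_lit 0) (nat_lit 24741287) (nat_lit 0) (nat_lit 0x8017985b4) (nat_lit 561612199),
  Rx.mk (nat_lit 73) (nat_lit 1) (nat_lit 1) (nat_lit 1) (nat_lit 7) (nat_lit 324) (nat_lit 192) r8_324 r8_192 (nat_lit 0) (nat_lit 0) (nat_lit 0) (nat_lit 0x8017985b4) (nat_lit 536870912),
  Rx.mk (nat_lit 81) (nat_lit 1) (nat_lit 2) (nat_lit 1) (nat_lit 7) (nat_lit 325) (nat_lit 193) r8_325 r8_193 (nat_lit 0) (nat_lit 0) (nat_lit 0) (nat_lit 0x8017985b4) (nat_lit 536870912)]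
noncomputable def e44_17 : List Rx := [
  Rx.mk (nat_lit 73) (nat_lit 1) (nat_lit 1) (nat_lit 1) (nat_lit 7) (nat_lit 326) (nat_lit 289) r8_326 r9_289 (nat_lit 0) (nat_lit 0) (nat_lit 0) (nat_lit 0x8017985b4) (nat_lit 536870912)]
noncomputable def e44_18 : List Rx := [
  Rx.mk (nat_lit 193) (nat_lit 1) (nat_lit 0) (nat_lit 3) (nat_lit 5) (nat_lit 351) (nat_lit 177) r8_351 r4_177 (nat_lit 0) (nat_lit 24741287) (nat_lit 0) (nat_lit 0x8017985b4) (nat_lit 561612199),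
  Rx.mk (nat_lit 201) (nat_lit 1) (nat_lit 1) (nat_lit 3) (nat_lit 7) (nat_lit 352) (nat_lit 178) r8_352 r4_178 (nat_lit 0) (nat_lit 0) (nat_lit 0) (nat_lit 0x8017985b4) (nat_lit 536870912),
  Rx.mk (nat_lit 209) (nat_lit 1) (nat_lit 2) (nat_lit 3) (nat_lit 7) (nat_lit 353) (nat_lit 180) r8_353 r4_180 (nat_lit 0) (nat_lit 0) (nat_lit 0) (nat_lit 0x8017985b4) (nat_lit 536870912),
  Rx.mk (nat_lit 217) (nat_lit 1) (nat_lit 3) (nat_lit 3) (nat_lit 7) (nat_lit 354) (nat_lit 179) r8_354 r4_179 (nat_lit 0) (nat_lit 0) (nat_lit 0) (nat_lit 0x8017985b4) (nat_lit 536870912)]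
noncomputable def e44_19 : List Rx := [
  Rx.mk (nat_lit 193) (nat_lit 1) (nat_lit 0) (nat_lit 3) (nat_lit 5) (nat_lit 355) (nat_lit 317) r8_355 r10_317 (nat_lit 0) (nat_lit 24634759) (nat_lit 0) (nat_lit 0x800b33de6) (nat_lit 562264771),
  Rx.mk (nat_lit 201) (nat_lit 1) (nat_lit 1) (nat_lit 3) (nat_lit 7) (nat_lit 356) (nat_lit 318) r8_356 r10_318 (nat_lit 0) (nat_lit 0) (nat_lit 0) (nat_lit 0x8017985b4) (nat_lit 536870912),
  Rx.mk (nat_lit 217) (nat_lit 1) (nat_lit 3) (nat_lit 3) (nat_lit 7) (nat_lit 357) (nat_lit 319) r8_357 r10_319 (nat_lit 0) (nat_lit 0) (nat_lit 0) (nat_lit 0x8017985b4) (nat_lit 536870912)]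
noncomputable def e44_20 : List Rx := [
  Rx.mk (nat_lit 193) (nat_lit 1) (nat_lit 0) (nat_lit 3) (nat_lit 5) (nat_lit 358) (nat_lit 335) r8_358 r11_335 (nat_lit 0) (nat_lit 24741287) (nat_lit 0) (nat_lit 0x8017985b4) (nat_lit 561612199),
  Rx.mk (nat_lit 201) (nat_lit 1) (nat_lit 1) (nat_lit 3) (nat_lit 7) (nat_lit 359) (nat_lit 336) r8_359 r11_336 (nat_lit 0) (nat_lit 0) (nat_lit 0) (nat_lit 0x8017985b4) (nat_lit 536870912),
  Rx.mk (nat_lit 209) (nat_lit 1) (nat_lit 2) (nat_lit 3) (nat_lit 7) (nat_lit 360) (nat_lit 337) r8_360 r11_337 (nat_lit 0) (nat_lit 0) (nat_lit 0) (nat_lit 0x8017985b4) (nat_lit 536870912)]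
noncomputable def e44_21 : List Rx := [
  Rx.mk (nat_lit 73) (nat_lit 1) (nat_lit 1) (nat_lit 1) (nat_lit 7) (nat_lit 327) (nat_lit 297) r8_327 r9_297 (nat_lit 0) (nat_lit 0) (nat_lit 0) (nat_lit 0x8017985b4) (nat_lit 536870912),
  Rx.mk (nat_lit 77) (nat_lit 5) (nat_lit 1) (nat_lit 1) (nat_lit 7) (nat_lit 328) (nat_lit 296) r8_328 r9_296 (nat_lit 0) (nat_lit 0) (nat_lit 0) (nat_lit 0x8017985b4) (nat_lit 536870912),
  Rx.mk (nat_lit 333) (nat_lit 5) (nat_lit 1) (nat_lit 5) (nat_lit 7) (nat_lit 329) (nat_lit 295) r8_329 r9_295 (nat_lit 0) (nat_lit 0) (nat_lit 0) (nat_lit 0x8017985b4) (nat_lit 536870912),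
  Rx.mk (nat_lit 365) (nat_lit 5) (nat_lit 5) (nat_lit 5) (nat_lit 7) (nat_lit 330) (nat_lit 294) r8_330 r9_294 (nat_lit 0) (nat_lit 0) (nat_lit 0) (nat_lit 0x8017985b4) (nat_lit 536870912)]
noncomputable def e44_22 : List Rx := [
  Rx.mk (nat_lit 269) (nat_lit 5) (nat_lit 1) (nat_lit 4) (nat_lit 3) (nat_lit 63) (nat_lit 185) r8_63 r0_185 (nat_lit 0) (nat_lit 0) (nat_lit 17259595) (nat_lit 0x7bf63ab82) (nat_lit 620224207),
  Rx.mk (nat_lit 301) (nat_lit 5) (nat_lit 5) (nat_lit 4) (nat_lit 3) (nat_lit 64) (nat_lit 186) r8_64 r0_186 (nat_lit 0) (nat_lit 0) (nat_lit 26500941) (nat_lit 0x7c9c5d064) (nat_lit 619045003),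
  Rx.mk (nat_lit 493) (nat_lit 5) (nat_lit 5) (nat_lit 7) (nat_lit 7) (nat_lit 65) (nat_lit 187) r8_65 r0_187 (nat_lit 0) (nat_lit 0) (nat_lit 0) (nat_lit 0x802f4e852) (nat_lit 535398012)]
noncomputable def e44_23 : List Rx := [
  Rx.mk (nat_lit 301) (nat_lit 5) (nat_lit 5) (nat_lit 4) (nat_lit 3) (nat_lit 66) (nat_lit 199) r8_66 r1_199 (nat_lit 0) (nat_lit 0) (nat_lit 24741287) (nat_lit 0x8001ac32c) (nat_lit 562953699),
  Rx.mk (nat_lit 493) (nat_lit 5) (nat_lit 5) (nat_lit 7) (nat_lit 7) (nat_lit 67) (nat_lit 200) r8_67 r1_200 (nat_lit 0) (nat_lit 0) (nat_lit 0) (nat_lit 0x8017985b4) (nat_lit 536870912)]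
noncomputable def e44_24 : List Rx := [
  Rx.mk (nat_lit 269) (nat_lit 5) (nat_lit 1) (nat_lit 4) (nat_lit 3) (nat_lit 68) (nat_lit 174) r8_68 r4_174 (nat_lit 0) (nat_lit 0) (nat_lit 19417164) (nat_lit 0x7fd35cbf2) (nat_lit 560445626),
  Rx.mk (nat_lit 461) (nat_lit 5) (nat_lit 1) (nat_lit 7) (nat_lit 7) (nat_lit 69) (nat_lit 175) r8_69 r4_175 (nat_lit 0) (nat_lit 0) (nat_lit 0) (nat_lit 0x80539e52c) (nat_lit 533184912),
  Rx.mk (nat_lit 493) (nat_lit 5) (nat_lit 5) (nat_lit 7) (nat_lit 7) (nat_lit 70) (nat_lit 176) r8_70 r4_176 (nat_lit 0) (nat_lit 0) (nat_lit 0) (nat_lit 0x8017985b4) (nat_lit 536870912)]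
noncomputable def e44_25 : List Rx := [
  Rx.mk (nat_lit 269) (nat_lit 5) (nat_lit 1) (nat_lit 4) (nat_lit 3) (nat_lit 184) (nat_lit 404) r8_184 r7_404 (nat_lit 0) (nat_lit 0) (nat_lit 24741287) (nat_lit 0x8017985b4) (nat_lit 561612199),
  Rx.mk (nat_lit 301) (nat_lit 5) (nat_lit 5) (nat_lit 4) (nat_lit 3) (nat_lit 185) (nat_lit 401) r8_185 r7_401 (nat_lit 0) (nat_lit 0) (nat_lit 25158612) (nat_lit 0x7ffdc5b5a) (nat_lit 563608374),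
  Rx.mk (nat_lit 333) (nat_lit 5) (nat_lit 1) (nat_lit 5) (nat_lit 7) (nat_lit 186) (nat_lit 405) r8_186 r7_405 (nat_lit 0) (nat_lit 0) (nat_lit 0) (nat_lit 0x8017985b4) (nat_lit 536870912),
  Rx.mk (nat_lit 365) (nat_lit 5) (nat_lit 5) (nat_lit 5) (nat_lit 7) (nat_lit 187) (nat_lit 402) r8_187 r7_402 (nat_lit 0) (nat_lit 0) (nat_lit 0) (nat_lit 0x8017985b4) (nat_lit 536870912),
  Rx.mk (nat_lit 493) (nat_lit 5) (nat_lit 5) (nat_lit 7) (nat_lit 7) (nat_lit 188) (nat_lit 403) r8_188 r7_403 (nat_lit 0) (nat_lit 0) (nat_lit 0) (nat_lit 0x8017985b4) (nat_lit 536870912)]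
noncomputable def e44_26 : List Rx := [
  Rx.mk (nat_lit 301) (nat_lit 5) (nat_lit 5) (nat_lit 4) (nat_lit 3) (nat_lit 191) (nat_lit 323) r8_191 r8_323 (nat_lit 0) (nat_lit 0) (nat_lit 24741287) (nat_lit 0x8017985b4) (nat_lit 561612199),
  Rx.mk (nat_lit 365) (nat_lit 5) (nat_lit 5) (nat_lit 5) (nat_lit 7) (nat_lit 192) (nat_lit 324) r8_192 r8_324 (nat_lit 0) (nat_lit 0) (nat_lit 0) (nat_lit 0x8017985b4) (nat_lit 536870912),
  Rx.mk (nat_lit 493) (nat_lit 5) (nat_lit 5) (nat_lit 7) (nat_lit 7) (nat_lit 193) (nat_lit 325) r8_193 r8_325 (nat_lit 0) (nat_lit 0) (nat_lit 0) (nat_lit 0x8017985b4) (nat_lit 536870912)]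
noncomputable def e44_27 : List Rx := [
  Rx.mk (nat_lit 333) (nat_lit 5) (nat_lit 1) (nat_lit 5) (nat_lit 7) (nat_lit 189) (nat_lit 189) r8_189 r8_189 (nat_lit 0) (nat_lit 0) (nat_lit 0) (nat_lit 0x8017985b4) (nat_lit 536870912),
  Rx.mk (nat_lit 365) (nat_lit 5) (nat_lit 5) (nat_lit 5) (nat_lit 7) (nat_lit 190) (nat_lit 190) r8_190 r8_190 (nat_lit 0) (nat_lit 0) (nat_lit 0) (nat_lit 0x8017985b4) (nat_lit 536870912)]
noncomputable def e44_28 : List Rx := [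
  Rx.mk (nat_lit 269) (nat_lit 5) (nat_lit 1) (nat_lit 4) (nat_lit 3) (nat_lit 194) (nat_lit 326) r8_194 r10_326 (nat_lit 0) (nat_lit 0) (nat_lit 24741287) (nat_lit 0x8017985b4) (nat_lit 561612199),
  Rx.mk (nat_lit 333) (nat_lit 5) (nat_lit 1) (nat_lit 5) (nat_lit 7) (nat_lit 195) (nat_lit 327) r8_195 r10_327 (nat_lit 0) (nat_lit 0) (nat_lit 0) (nat_lit 0x8017985b4) (nat_lit 536870912),
  Rx.mk (nat_lit 461) (nat_lit 5) (nat_lit 1) (nat_lit 7) (nat_lit 7) (nat_lit 196) (nat_lit 328) r8_196 r10_328 (nat_lit 0) (nat_lit 0) (nat_lit 0) (nat_lit 0x8017985b4) (nat_lit 536870912),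
  Rx.mk (nat_lit 493) (nat_lit 5) (nat_lit 5) (nat_lit 7) (nat_lit 7) (nat_lit 197) (nat_lit 325) r8_197 r10_325 (nat_lit 0) (nat_lit 0) (nat_lit 0) (nat_lit 0x8017985b4) (nat_lit 536870912)]
noncomputable def e44_29 : List Rx := [
  Rx.mk (nat_lit 461) (nat_lit 5) (nat_lit 1) (nat_lit 7) (nat_lit 7) (nat_lit 219) (nat_lit 344) r8_219 r11_344 (nat_lit 0) (nat_lit 0) (nat_lit 0) (nat_lit 0x8017985b4) (nat_lit 536870912),
  Rx.mk (nat_lit 493) (nat_lit 5) (nat_lit 5) (nat_lit 7) (nat_lit 7) (nat_lit 220) (nat_lit 343) r8_220 r11_343 (nat_lit 0) (nat_lit 0) (nat_lit 0) (nat_lit 0x8017985b4) (nat_lit 536870912)]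
noncomputable def e44_30 : List Rx := [
  Rx.mk (nat_lit 5) (nat_lit 5) (nat_lit 0) (nat_lit 0) (nat_lit 1) (nat_lit 362) (nat_lit 191) r8_362 r5_191 (nat_lit 0) (nat_lit 13579307) (nat_lit 40282511) (nat_lit 0x676dbd25a) (nat_lit 988710430),
  Rx.mk (nat_lit 13) (nat_lit 5) (nat_lit 1) (nat_lit 0) (nat_lit 3) (nat_lit 363) (nat_lit 192) r8_363 r5_192 (nat_lit 0) (nat_lit 0) (nat_lit 24741287) (nat_lit 0x7fc98e4ea) (nat_lit 566401349),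
  Rx.mk (nat_lit 197) (nat_lit 5) (nat_lit 0) (nat_lit 3) (nat_lit 5) (nat_lit 364) (nat_lit 193) r8_364 r5_193 (nat_lit 0) (nat_lit 26008793) (nat_lit 0) (nat_lit 0x78bef927a) (nat_lit 680926905),
  Rx.mk (nat_lit 205) (nat_lit 5) (nat_lit 1) (nat_lit 3) (nat_lit 7) (nat_lit 365) (nat_lit 194) r8_365 r5_194 (nat_lit 0) (nat_lit 0) (nat_lit 0) (nat_lit 0x8017985b4) (nat_lit 536870912),
  Rx.mk (nat_lit 217) (nat_lit 1) (nat_lit 3) (nat_lit 3) (nat_lit 7) (nat_lit 361) (nat_lit 196) r8_361 r5_196 (nat_lit 0) (nat_lit 0) (nat_lit 0) (nat_lit 0x8017985b4) (nat_lit 536870912),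
  Rx.mk (nat_lit 221) (nat_lit 5) (nat_lit 3) (nat_lit 3) (nat_lit 7) (nat_lit 366) (nat_lit 195) r8_366 r5_195 (nat_lit 0) (nat_lit 0) (nat_lit 0) (nat_lit 0x7f79cc664) (nat_lit 546583312)]
noncomputable def e44_31 : List Rx := [
  Rx.mk (nat_lit 5) (nat_lit 5) (nat_lit 0) (nat_lit 0) (nat_lit 1) (nat_lit 368) (nat_lit 222) r8_368 r11_222 (nat_lit 0) (nat_lit 49696383) (nat_lit 93109333) (nat_lit 0x7a0dfb9e4) (nat_lit 776624328),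
  Rx.mk (nat_lit 13) (nat_lit 5) (nat_lit 1) (nat_lit 0) (nat_lit 3) (nat_lit 369) (nat_lit 223) r8_369 r11_223 (nat_lit 0) (nat_lit 0) (nat_lit 24741287) (nat_lit 0x8017985b4) (nat_lit 561612199),
  Rx.mk (nat_lit 69) (nat_lit 5) (nat_lit 0) (nat_lit 1) (nat_lit 5) (nat_lit 370) (nat_lit 224) r8_370 r11_224 (nat_lit 0) (nat_lit 24741287) (nat_lit 0) (nat_lit 0x8017985b4) (nat_lit 561612199),
  Rx.mk (nat_lit 77) (nat_lit 5) (nat_lit 1) (nat_lit 1) (nat_lit 7) (nat_lit 371) (nat_lit 225) r8_371 r11_225 (nat_lit 0) (nat_lit 0) (nat_lit 0) (nat_lit 0x8017985b4) (nat_lit 536870912),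
  Rx.mk (nat_lit 197) (nat_lit 5) (nat_lit 0) (nat_lit 3) (nat_lit 5) (nat_lit 372) (nat_lit 226) r8_372 r11_226 (nat_lit 0) (nat_lit 24741287) (nat_lit 0) (nat_lit 0x8017985b4) (nat_lit 561612199),
  Rx.mk (nat_lit 205) (nat_lit 5) (nat_lit 1) (nat_lit 3) (nat_lit 7) (nat_lit 373) (nat_lit 227) r8_373 r11_227 (nat_lit 0) (nat_lit 0) (nat_lit 0) (nat_lit 0x8017985b4) (nat_lit 536870912),
  Rx.mk (nat_lit 217) (nat_lit 1) (nat_lit 3) (nat_lit 3) (nat_lit 7) (nat_lit 367) (nat_lit 229) r8_367 r11_229 (nat_lit 0) (nat_lit 0) (nat_lit 0) (nat_lit 0x8017985b4) (nat_lit 536870912),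
  Rx.mk (nat_lit 221) (nat_lit 5) (nat_lit 3) (nat_lit 3) (nat_lit 7) (nat_lit 374) (nat_lit 228) r8_374 r11_228 (nat_lit 0) (nat_lit 0) (nat_lit 0) (nat_lit 0x8017985b4) (nat_lit 536870912)]
noncomputable def e44_32 : List Rx := [
  Rx.mk (nat_lit 453) (nat_lit 5) (nat_lit 0) (nat_lit 7) (nat_lit 5) (nat_lit 71) (nat_lit 119) r8_71 r6_119 (nat_lit 0) (nat_lit 11276317) (nat_lit 0) (nat_lit 0x80f41308e) (nat_lit 534645879),
  Rx.mk (nat_lit 461) (nat_lit 5) (nat_lit 1) (nat_lit 7) (nat_lit 7) (nat_lit 72) (nat_lit 120) r8_72 r6_120 (nat_lit 0) (nat_lit 0) (nat_lit 0) (nat_lit 0x8017985b4) (nat_lit 536870912),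
  Rx.mk (nat_lit 477) (nat_lit 5) (nat_lit 3) (nat_lit 7) (nat_lit 7) (nat_lit 73) (nat_lit 121) r8_73 r6_121 (nat_lit 0) (nat_lit 0) (nat_lit 0) (nat_lit 0x80607f5fc) (nat_lit 532392712)]
noncomputable def e44_33 : List Rx := [
  Rx.mk (nat_lit 269) (nat_lit 5) (nat_lit 1) (nat_lit 4) (nat_lit 3) (nat_lit 74) (nat_lit 189) r8_74 r5_189 (nat_lit 0) (nat_lit 0) (nat_lit 17765140) (nat_lit 0x7ff74602c) (nat_lit 556578502),
  Rx.mk (nat_lit 461) (nat_lit 5) (nat_lit 1) (nat_lit 7) (nat_lit 7) (nat_lit 75) (nat_lit 190) r8_75 r5_190 (nat_lit 0) (nat_lit 0) (nat_lit 0) (nat_lit 0x80b32653a) (nat_lit 527341762)]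
noncomputable def e44_34 : List Rx := [
  Rx.mk (nat_lit 269) (nat_lit 5) (nat_lit 1) (nat_lit 4) (nat_lit 3) (nat_lit 198) (nat_lit 219) r8_198 r11_219 (nat_lit 0) (nat_lit 0) (nat_lit 24741287) (nat_lit 0x8017985b4) (nat_lit 561612199),
  Rx.mk (nat_lit 333) (nat_lit 5) (nat_lit 1) (nat_lit 5) (nat_lit 7) (nat_lit 199) (nat_lit 220) r8_199 r11_220 (nat_lit 0) (nat_lit 0) (nat_lit 0) (nat_lit 0x8017985b4) (nat_lit 536870912),
  Rx.mk (nat_lit 461) (nat_lit 5) (nat_lit 1) (nat_lit 7) (nat_lit 7) (nat_lit 200) (nat_lit 221) r8_200 r11_221 (nat_lit 0) (nat_lit 0) (nat_lit 0) (nat_lit 0x8017985b4) (nat_lit 536870912)]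
noncomputable def e44_35 : List Rx := [
  Rx.mk (nat_lit 197) (nat_lit 5) (nat_lit 0) (nat_lit 3) (nat_lit 5) (nat_lit 221) (nat_lit 122) r8_221 r6_122 (nat_lit 0) (nat_lit 24741287) (nat_lit 0) (nat_lit 0x8017985b4) (nat_lit 561612199),
  Rx.mk (nat_lit 205) (nat_lit 5) (nat_lit 1) (nat_lit 3) (nat_lit 7) (nat_lit 222) (nat_lit 123) r8_222 r6_123 (nat_lit 0) (nat_lit 0) (nat_lit 0) (nat_lit 0x8017985b4) (nat_lit 536870912),
  Rx.mk (nat_lit 221) (nat_lit 5) (nat_lit 3) (nat_lit 3) (nat_lit 7) (nat_lit 223) (nat_lit 124) r8_223 r6_124 (nat_lit 0) (nat_lit 0) (nat_lit 0) (nat_lit 0x8017985b4) (nat_lit 536870912),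
  Rx.mk (nat_lit 477) (nat_lit 5) (nat_lit 3) (nat_lit 7) (nat_lit 7) (nat_lit 224) (nat_lit 125) r8_224 r6_125 (nat_lit 0) (nat_lit 0) (nat_lit 0) (nat_lit 0x805730f46) (nat_lit 532963862)]
noncomputable def e44_36 : List Rx := [
  Rx.mk (nat_lit 197) (nat_lit 5) (nat_lit 0) (nat_lit 3) (nat_lit 5) (nat_lit 225) (nat_lit 359) r8_225 r12_359 (nat_lit 0) (nat_lit 25796827) (nat_lit 0) (nat_lit 0x7fa80b20a) (nat_lit 569524589),
  Rx.mk (nat_lit 205) (nat_lit 5) (nat_lit 1) (nat_lit 3) (nat_lit 7) (nat_lit 226) (nat_lit 361) r8_226 r12_361 (nat_lit 0) (nat_lit 0) (nat_lit 0) (nat_lit 0x8017985b4) (nat_lit 536870912),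
  Rx.mk (nat_lit 453) (nat_lit 5) (nat_lit 0) (nat_lit 7) (nat_lit 5) (nat_lit 227) (nat_lit 360) r8_227 r12_360 (nat_lit 0) (nat_lit 8954591) (nat_lit 0) (nat_lit 0x8144dd5dc) (nat_lit 527420603),
  Rx.mk (nat_lit 461) (nat_lit 5) (nat_lit 1) (nat_lit 7) (nat_lit 7) (nat_lit 228) (nat_lit 362) r8_228 r12_362 (nat_lit 0) (nat_lit 0) (nat_lit 0) (nat_lit 0x8017985b4) (nat_lit 536870912),
  Rx.mk (nat_lit 477) (nat_lit 5) (nat_lit 3) (nat_lit 7) (nat_lit 7) (nat_lit 229) (nat_lit 363) r8_229 r12_363 (nat_lit 0) (nat_lit 0) (nat_lit 0) (nat_lit 0x8017985b4) (nat_lit 536870912)]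
noncomputable def e44_37 : List Rx := [
  Rx.mk (nat_lit 223) (nat_lit 7) (nat_lit 3) (nat_lit 3) (nat_lit 7) (nat_lit 12) (nat_lit 132) r8_12 r0_132 (nat_lit 0) (nat_lit 0) (nat_lit 0) (nat_lit 0x8017985b4) (nat_lit 536870912),
  Rx.mk (nat_lit 292) (nat_lit 4) (nat_lit 4) (nat_lit 4) (nat_lit 0) (nat_lit 0) (nat_lit 124) r8_0 r0_124 (nat_lit 7939868) (nat_lit 11031913) (nat_lit 37018604) (nat_lit 0x2f3402ffc) (nat_lit 1899960047),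
  Rx.mk (nat_lit 293) (nat_lit 5) (nat_lit 4) (nat_lit 4) (nat_lit 1) (nat_lit 3) (nat_lit 127) r8_3 r0_127 (nat_lit 0) (nat_lit 32206150) (nat_lit 82416712) (nat_lit 0x66c0ffdc4) (nat_lit 1060452374),
  Rx.mk (nat_lit 294) (nat_lit 6) (nat_lit 4) (nat_lit 4) (nat_lit 1) (nat_lit 6) (nat_lit 133) r8_6 r0_133 (nat_lit 0) (nat_lit 35479035) (nat_lit 54286075) (nat_lit 0x62e45b6c8) (nat_lit 1098022322),
  Rx.mk (nat_lit 316) (nat_lit 4) (nat_lit 7) (nat_lit 4) (nat_lit 2) (nat_lit 1) (nat_lit 125) r8_1 r0_125 (nat_lit 26421063) (nat_lit 0) (nat_lit 43759254) (nat_lit 0x5ccc534e6) (nat_lit 1176984379),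
  Rx.mk (nat_lit 317) (nat_lit 5) (nat_lit 7) (nat_lit 4) (nat_lit 3) (nat_lit 4) (nat_lit 128) r8_4 r0_128 (nat_lit 0) (nat_lit 0) (nat_lit 28052384) (nat_lit 0x7ecc55e04) (nat_lit 585422396),
  Rx.mk (nat_lit 318) (nat_lit 6) (nat_lit 7) (nat_lit 4) (nat_lit 3) (nat_lit 7) (nat_lit 134) r8_7 r0_134 (nat_lit 0) (nat_lit 0) (nat_lit 28597756) (nat_lit 0x7fab4f40c) (nat_lit 572118568),
  Rx.mk (nat_lit 422) (nat_lit 6) (nat_lit 4) (nat_lit 6) (nat_lit 5) (nat_lit 8) (nat_lit 136) r8_8 r0_136 (nat_lit 0) (nat_lit 31117367) (nat_lit 0) (nat_lit 0x7e047cca2) (nat_lit 600994729),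
  Rx.mk (nat_lit 438) (nat_lit 6) (nat_lit 6) (nat_lit 6) (nat_lit 7) (nat_lit 9) (nat_lit 138) r8_9 r0_138 (nat_lit 0) (nat_lit 0) (nat_lit 0) (nat_lit 0x8017985b4) (nat_lit 536870912),
  Rx.mk (nat_lit 446) (nat_lit 6) (nat_lit 7) (nat_lit 6) (nat_lit 7) (nat_lit 10) (nat_lit 137) r8_10 r0_137 (nat_lit 0) (nat_lit 0) (nat_lit 0) (nat_lit 0x8017985b4) (nat_lit 536870912),
  Rx.mk (nat_lit 479) (nat_lit 7) (nat_lit 3) (nat_lit 7) (nat_lit 7) (nat_lit 13) (nat_lit 131) r8_13 r0_131 (nat_lit 0) (nat_lit 0) (nat_lit 0) (nat_lit 0x8017985b4) (nat_lit 536870912),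
  Rx.mk (nat_lit 508) (nat_lit 4) (nat_lit 7) (nat_lit 7) (nat_lit 6) (nat_lit 2) (nat_lit 126) r8_2 r0_126 (nat_lit 19040660) (nat_lit 0) (nat_lit 0) (nat_lit 0x6f984888c) (nat_lit 821904322),
  Rx.mk (nat_lit 509) (nat_lit 5) (nat_lit 7) (nat_lit 7) (nat_lit 7) (nat_lit 5) (nat_lit 129) r8_5 r0_129 (nat_lit 0) (nat_lit 0) (nat_lit 0) (nat_lit 0x7feae9d88) (nat_lit 539601062),
  Rx.mk (nat_lit 510) (nat_lit 6) (nat_lit 7) (nat_lit 7) (nat_lit 7) (nat_lit 11) (nat_lit 135) r8_11 r0_135 (nat_lit 0) (nat_lit 0) (nat_lit 0) (nat_lit 0x7ffc6e694) (nat_lit 538526762),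
  Rx.mk (nat_lit 511) (nat_lit 7) (nat_lit 7) (nat_lit 7) (nat_lit 7) (nat_lit 14) (nat_lit 130) r8_14 r0_130 (nat_lit 0) (nat_lit 0) (nat_lit 0) (nat_lit 0x7fa4b61a4) (nat_lit 543932912)]
noncomputable def e44_38 : List Rx := [
  Rx.mk (nat_lit 223) (nat_lit 7) (nat_lit 3) (nat_lit 3) (nat_lit 7) (nat_lit 76) (nat_lit 139) r8_76 r0_139 (nat_lit 0) (nat_lit 0) (nat_lit 0) (nat_lit 0x8017985b4) (nat_lit 536870912),
  Rx.mk (nat_lit 479) (nat_lit 7) (nat_lit 3) (nat_lit 7) (nat_lit 7) (nat_lit 77) (nat_lit 140) r8_77 r0_140 (nat_lit 0) (nat_lit 0) (nat_lit 0) (nat_lit 0x8017985b4) (nat_lit 536870912)]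
noncomputable def e44_39 : List Rx := [
  Rx.mk (nat_lit 223) (nat_lit 7) (nat_lit 3) (nat_lit 3) (nat_lit 7) (nat_lit 87) (nat_lit 141) r8_87 r7_141 (nat_lit 0) (nat_lit 0) (nat_lit 0) (nat_lit 0x8017985b4) (nat_lit 536870912),
  Rx.mk (nat_lit 292) (nat_lit 4) (nat_lit 4) (nat_lit 4) (nat_lit 0) (nat_lit 78) (nat_lit 136) r8_78 r7_136 (nat_lit 8960456) (nat_lit 8497828) (nat_lit 26185611) (nat_lit 0x362c7667e) (nat_lit 1774947907),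
  Rx.mk (nat_lit 294) (nat_lit 6) (nat_lit 4) (nat_lit 4) (nat_lit 1) (nat_lit 81) (nat_lit 142) r8_81 r7_142 (nat_lit 0) (nat_lit 14186136) (nat_lit 13633279) (nat_lit 0x6517ac3fe) (nat_lit 1000476627),
  Rx.mk (nat_lit 316) (nat_lit 4) (nat_lit 7) (nat_lit 4) (nat_lit 2) (nat_lit 79) (nat_lit 137) r8_79 r7_137 (nat_lit 24616168) (nat_lit 0) (nat_lit 24651851) (nat_lit 0x5ff890ccc) (nat_lit 1104782931),
  Rx.mk (nat_lit 318) (nat_lit 6) (nat_lit 7) (nat_lit 4) (nat_lit 3) (nat_lit 82) (nat_lit 143) r8_82 r7_143 (nat_lit 0) (nat_lit 0) (nat_lit 24741287) (nat_lit 0x7fe8e8d90) (nat_lit 564464999),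
  Rx.mk (nat_lit 422) (nat_lit 6) (nat_lit 4) (nat_lit 6) (nat_lit 5) (nat_lit 83) (nat_lit 145) r8_83 r7_145 (nat_lit 0) (nat_lit 24741287) (nat_lit 0) (nat_lit 0x7fe1901b0) (nat_lit 564922449),
  Rx.mk (nat_lit 438) (nat_lit 6) (nat_lit 6) (nat_lit 6) (nat_lit 7) (nat_lit 84) (nat_lit 147) r8_84 r7_147 (nat_lit 0) (nat_lit 0) (nat_lit 0) (nat_lit 0x8017985b4) (nat_lit 536870912),
  Rx.mk (nat_lit 446) (nat_lit 6) (nat_lit 7) (nat_lit 6) (nat_lit 7) (nat_lit 85) (nat_lit 146) r8_85 r7_146 (nat_lit 0) (nat_lit 0) (nat_lit 0) (nat_lit 0x8017985b4) (nat_lit 536870912),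
  Rx.mk (nat_lit 479) (nat_lit 7) (nat_lit 3) (nat_lit 7) (nat_lit 7) (nat_lit 88) (nat_lit 140) r8_88 r7_140 (nat_lit 0) (nat_lit 0) (nat_lit 0) (nat_lit 0x8017985b4) (nat_lit 536870912),
  Rx.mk (nat_lit 508) (nat_lit 4) (nat_lit 7) (nat_lit 7) (nat_lit 6) (nat_lit 80) (nat_lit 138) r8_80 r7_138 (nat_lit 24741287) (nat_lit 0) (nat_lit 0) (nat_lit 0x7ff6824a6) (nat_lit 563637099),
  Rx.mk (nat_lit 510) (nat_lit 6) (nat_lit 7) (nat_lit 7) (nat_lit 7) (nat_lit 86) (nat_lit 144) r8_86 r7_144 (nat_lit 0) (nat_lit 0) (nat_lit 0) (nat_lit 0x8017985b4) (nat_lit 536870912),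
  Rx.mk (nat_lit 511) (nat_lit 7) (nat_lit 7) (nat_lit 7) (nat_lit 7) (nat_lit 89) (nat_lit 139) r8_89 r7_139 (nat_lit 0) (nat_lit 0) (nat_lit 0) (nat_lit 0x8017985b4) (nat_lit 536870912)]
noncomputable def e44_40 : List Rx := [
  Rx.mk (nat_lit 0) (nat_lit 0) (nat_lit 0) (nat_lit 0) (nat_lit 0) (nat_lit 257) (nat_lit 137) r8_257 r2_137 (nat_lit 8042902) (nat_lit 7956767) (nat_lit 9703689) (nat_lit 0x3b91a0bee) (nat_lit 1669754570),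
  Rx.mk (nat_lit 16) (nat_lit 0) (nat_lit 2) (nat_lit 0) (nat_lit 2) (nat_lit 258) (nat_lit 141) r8_258 r2_141 (nat_lit 26195638) (nat_lit 0) (nat_lit 23096430) (nat_lit 0x64c1b892a) (nat_lit 1027421630),
  Rx.mk (nat_lit 144) (nat_lit 0) (nat_lit 2) (nat_lit 2) (nat_lit 6) (nat_lit 259) (nat_lit 144) r8_259 r2_144 (nat_lit 24741287) (nat_lit 0) (nat_lit 0) (nat_lit 0x8017985b4) (nat_lit 561612199),
  Rx.mk (nat_lit 146) (nat_lit 2) (nat_lit 2) (nat_lit 2) (nat_lit 7) (nat_lit 262) (nat_lit 145) r8_262 r2_145 (nat_lit 0) (nat_lit 0) (nat_lit 0) (nat_lit 0x8017985b4) (nat_lit 536870912),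
  Rx.mk (nat_lit 192) (nat_lit 0) (nat_lit 0) (nat_lit 3) (nat_lit 4) (nat_lit 260) (nat_lit 138) r8_260 r2_138 (nat_lit 26855489) (nat_lit 23014465) (nat_lit 0) (nat_lit 0x65ff1eed0) (nat_lit 1007952966),
  Rx.mk (nat_lit 195) (nat_lit 3) (nat_lit 0) (nat_lit 3) (nat_lit 5) (nat_lit 263) (nat_lit 139) r8_263 r2_139 (nat_lit 0) (nat_lit 24741287) (nat_lit 0) (nat_lit 0x8005746a8) (nat_lit 562722999),
  Rx.mk (nat_lit 208) (nat_lit 0) (nat_lit 2) (nat_lit 3) (nat_lit 6) (nat_lit 261) (nat_lit 142) r8_261 r2_142 (nat_lit 25403330) (nat_lit 0) (nat_lit 0) (nat_lit 0x7ff0757d4) (nat_lit 564659792),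
  Rx.mk (nat_lit 211) (nat_lit 3) (nat_lit 2) (nat_lit 3) (nat_lit 7) (nat_lit 264) (nat_lit 143) r8_264 r2_143 (nat_lit 0) (nat_lit 0) (nat_lit 0) (nat_lit 0x8017985b4) (nat_lit 536870912),
  Rx.mk (nat_lit 219) (nat_lit 3) (nat_lit 3) (nat_lit 3) (nat_lit 7) (nat_lit 265) (nat_lit 140) r8_265 r2_140 (nat_lit 0) (nat_lit 0) (nat_lit 0) (nat_lit 0x8017985b4) (nat_lit 536870912)]
noncomputable def e44_41 : List Rx := [
  Rx.mk (nat_lit 0) (nat_lit 0) (nat_lit 0) (nat_lit 0) (nat_lit 0) (nat_lit 273) (nat_lit 99) r8_273 r9_99 (nat_lit 15284300) (nat_lit 18790511) (nat_lit 46447449) (nat_lit 0x3cee725c4) (nat_lit 1702614672),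
  Rx.mk (nat_lit 16) (nat_lit 0) (nat_lit 2) (nat_lit 0) (nat_lit 2) (nat_lit 274) (nat_lit 103) r8_274 r9_103 (nat_lit 24950323) (nat_lit 0) (nat_lit 23607638) (nat_lit 0x64fca11c2) (nat_lit 1022966473),
  Rx.mk (nat_lit 144) (nat_lit 0) (nat_lit 2) (nat_lit 2) (nat_lit 6) (nat_lit 275) (nat_lit 106) r8_275 r9_106 (nat_lit 24741287) (nat_lit 0) (nat_lit 0) (nat_lit 0x800b35984) (nat_lit 562371349),
  Rx.mk (nat_lit 146) (nat_lit 2) (nat_lit 2) (nat_lit 2) (nat_lit 7) (nat_lit 278) (nat_lit 107) r8_278 r9_107 (nat_lit 0) (nat_lit 0) (nat_lit 0) (nat_lit 0x8017985b4) (nat_lit 536870912),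
  Rx.mk (nat_lit 178) (nat_lit 2) (nat_lit 6) (nat_lit 2) (nat_lit 7) (nat_lit 279) (nat_lit 108) r8_279 r9_108 (nat_lit 0) (nat_lit 0) (nat_lit 0) (nat_lit 0x8017985b4) (nat_lit 536870912),
  Rx.mk (nat_lit 192) (nat_lit 0) (nat_lit 0) (nat_lit 3) (nat_lit 4) (nat_lit 276) (nat_lit 100) r8_276 r9_100 (nat_lit 26650245) (nat_lit 23999425) (nat_lit 0) (nat_lit 0x66dd7892e) (nat_lit 994688732),
  Rx.mk (nat_lit 195) (nat_lit 3) (nat_lit 0) (nat_lit 3) (nat_lit 5) (nat_lit 280) (nat_lit 101) r8_280 r9_101 (nat_lit 0) (nat_lit 24741287) (nat_lit 0) (nat_lit 0x7ff1b40e6) (nat_lit 563929249),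
  Rx.mk (nat_lit 208) (nat_lit 0) (nat_lit 2) (nat_lit 3) (nat_lit 6) (nat_lit 277) (nat_lit 104) r8_277 r9_104 (nat_lit 24488988) (nat_lit 0) (nat_lit 0) (nat_lit 0x7ff6155ae) (nat_lit 563408300),
  Rx.mk (nat_lit 211) (nat_lit 3) (nat_lit 2) (nat_lit 3) (nat_lit 7) (nat_lit 281) (nat_lit 105) r8_281 r9_105 (nat_lit 0) (nat_lit 0) (nat_lit 0) (nat_lit 0x8017985b4) (nat_lit 536870912),
  Rx.mk (nat_lit 219) (nat_lit 3) (nat_lit 3) (nat_lit 3) (nat_lit 7) (nat_lit 282) (nat_lit 102) r8_282 r9_102 (nat_lit 0) (nat_lit 0) (nat_lit 0) (nat_lit 0x8017985b4) (nat_lit 536870912)]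
noncomputable def e44_42 : List Rx := [
  Rx.mk (nat_lit 0) (nat_lit 0) (nat_lit 0) (nat_lit 0) (nat_lit 0) (nat_lit 266) (nat_lit 202) r8_266 r9_202 (nat_lit 16962537) (nat_lit 23929726) (nat_lit 37514210) (nat_lit 0x3e09e15de) (nat_lit 1682604485),
  Rx.mk (nat_lit 16) (nat_lit 0) (nat_lit 2) (nat_lit 0) (nat_lit 2) (nat_lit 267) (nat_lit 203) r8_267 r9_203 (nat_lit 34060215) (nat_lit 0) (nat_lit 27096766) (nat_lit 0x698596640) (nat_lit 962235943),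
  Rx.mk (nat_lit 144) (nat_lit 0) (nat_lit 2) (nat_lit 2) (nat_lit 6) (nat_lit 268) (nat_lit 207) r8_268 r9_207 (nat_lit 24537189) (nat_lit 0) (nat_lit 0) (nat_lit 0x8007ecd18) (nat_lit 562365701),
  Rx.mk (nat_lit 146) (nat_lit 2) (nat_lit 2) (nat_lit 2) (nat_lit 7) (nat_lit 270) (nat_lit 208) r8_270 r9_208 (nat_lit 0) (nat_lit 0) (nat_lit 0) (nat_lit 0x8017985b4) (nat_lit 536870912),
  Rx.mk (nat_lit 192) (nat_lit 0) (nat_lit 0) (nat_lit 3) (nat_lit 4) (nat_lit 269) (nat_lit 204) r8_269 r9_204 (nat_lit 29280147) (nat_lit 25355923) (nat_lit 0) (nat_lit 0x6cdd7d4fa) (nat_lit 901656982),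
  Rx.mk (nat_lit 195) (nat_lit 3) (nat_lit 0) (nat_lit 3) (nat_lit 5) (nat_lit 271) (nat_lit 205) r8_271 r9_205 (nat_lit 0) (nat_lit 24741287) (nat_lit 0) (nat_lit 0x8017985b4) (nat_lit 561612199),
  Rx.mk (nat_lit 219) (nat_lit 3) (nat_lit 3) (nat_lit 3) (nat_lit 7) (nat_lit 272) (nat_lit 206) r8_272 r9_206 (nat_lit 0) (nat_lit 0) (nat_lit 0) (nat_lit 0x8017985b4) (nat_lit 536870912)]
noncomputable def e44_43 : List Rx := [
  Rx.mk (nat_lit 0) (nat_lit 0) (nat_lit 0) (nat_lit 0) (nat_lit 0) (nat_lit 90) (nat_lit 141) r8_90 r1_141 (nat_lit 17944571) (nat_lit 23009154) (nat_lit 116288395) (nat_lit 0x447d83aae) (nat_lit 1657106532),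
  Rx.mk (nat_lit 3) (nat_lit 3) (nat_lit 0) (nat_lit 0) (nat_lit 1) (nat_lit 94) (nat_lit 142) r8_94 r1_142 (nat_lit 0) (nat_lit 31282261) (nat_lit 50887267) (nat_lit 0x6d657dd46) (nat_lit 920594840),
  Rx.mk (nat_lit 16) (nat_lit 0) (nat_lit 2) (nat_lit 0) (nat_lit 2) (nat_lit 91) (nat_lit 147) r8_91 r1_147 (nat_lit 24802758) (nat_lit 0) (nat_lit 50885811) (nat_lit 0x6b9ee1742) (nat_lit 942829831),
  Rx.mk (nat_lit 19) (nat_lit 3) (nat_lit 2) (nat_lit 0) (nat_lit 3) (nat_lit 95) (nat_lit 148) r8_95 r1_148 (nat_lit 0) (nat_lit 0) (nat_lit 24741287) (nat_lit 0x8017985b4) (nat_lit 561612199),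
  Rx.mk (nat_lit 144) (nat_lit 0) (nat_lit 2) (nat_lit 2) (nat_lit 6) (nat_lit 92) (nat_lit 150) r8_92 r1_150 (nat_lit 24952196) (nat_lit 0) (nat_lit 0) (nat_lit 0x7d5baea30) (nat_lit 605443508),
  Rx.mk (nat_lit 146) (nat_lit 2) (nat_lit 2) (nat_lit 2) (nat_lit 7) (nat_lit 93) (nat_lit 152) r8_93 r1_152 (nat_lit 0) (nat_lit 0) (nat_lit 0) (nat_lit 0x8017985b4) (nat_lit 536870912),
  Rx.mk (nat_lit 147) (nat_lit 3) (nat_lit 2) (nat_lit 2) (nat_lit 7) (nat_lit 96) (nat_lit 151) r8_96 r1_151 (nat_lit 0) (nat_lit 0) (nat_lit 0) (nat_lit 0x8017985b4) (nat_lit 536870912),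
  Rx.mk (nat_lit 195) (nat_lit 3) (nat_lit 0) (nat_lit 3) (nat_lit 5) (nat_lit 97) (nat_lit 143) r8_97 r1_143 (nat_lit 0) (nat_lit 29620562) (nat_lit 0) (nat_lit 0x7f673ed30) (nat_lit 577332974),
  Rx.mk (nat_lit 211) (nat_lit 3) (nat_lit 2) (nat_lit 3) (nat_lit 7) (nat_lit 98) (nat_lit 149) r8_98 r1_149 (nat_lit 0) (nat_lit 0) (nat_lit 0) (nat_lit 0x8017985b4) (nat_lit 536870912),
  Rx.mk (nat_lit 219) (nat_lit 3) (nat_lit 3) (nat_lit 3) (nat_lit 7) (nat_lit 99) (nat_lit 144) r8_99 r1_144 (nat_lit 0) (nat_lit 0) (nat_lit 0) (nat_lit 0x8017985b4) (nat_lit 536870912),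
  Rx.mk (nat_lit 223) (nat_lit 7) (nat_lit 3) (nat_lit 3) (nat_lit 7) (nat_lit 100) (nat_lit 145) r8_100 r1_145 (nat_lit 0) (nat_lit 0) (nat_lit 0) (nat_lit 0x8017985b4) (nat_lit 536870912),
  Rx.mk (nat_lit 479) (nat_lit 7) (nat_lit 3) (nat_lit 7) (nat_lit 7) (nat_lit 101) (nat_lit 146) r8_101 r1_146 (nat_lit 0) (nat_lit 0) (nat_lit 0) (nat_lit 0x8017985b4) (nat_lit 536870912)]
noncomputable def e44_44 : List Rx := [
  Rx.mk (nat_lit 0) (nat_lit 0) (nat_lit 0) (nat_lit 0) (nat_lit 0) (nat_lit 102) (nat_lit 114) r8_102 r8_114 (nat_lit 10519158) (nat_lit 12621568) (nat_lit 23607891) (nat_lit 0x35cfe746c) (nat_lit 1783943879),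
  Rx.mk (nat_lit 3) (nat_lit 3) (nat_lit 0) (nat_lit 0) (nat_lit 1) (nat_lit 108) (nat_lit 117) r8_108 r8_117 (nat_lit 0) (nat_lit 8151494) (nat_lit 7782469) (nat_lit 0x657d11ec4) (nat_lit 982120125),
  Rx.mk (nat_lit 16) (nat_lit 0) (nat_lit 2) (nat_lit 0) (nat_lit 2) (nat_lit 103) (nat_lit 115) r8_103 r8_115 (nat_lit 22151582) (nat_lit 0) (nat_lit 21485510) (nat_lit 0x5d3108e36) (nat_lit 1144097304),
  Rx.mk (nat_lit 19) (nat_lit 3) (nat_lit 2) (nat_lit 0) (nat_lit 3) (nat_lit 109) (nat_lit 118) r8_109 r8_118 (nat_lit 0) (nat_lit 0) (nat_lit 25147508) (nat_lit 0x80037d764) (nat_lit 563258220),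
  Rx.mk (nat_lit 144) (nat_lit 0) (nat_lit 2) (nat_lit 2) (nat_lit 6) (nat_lit 104) (nat_lit 116) r8_104 r8_116 (nat_lit 24741287) (nat_lit 0) (nat_lit 0) (nat_lit 0x8017985b4) (nat_lit 561612199),
  Rx.mk (nat_lit 146) (nat_lit 2) (nat_lit 2) (nat_lit 2) (nat_lit 7) (nat_lit 105) (nat_lit 125) r8_105 r8_125 (nat_lit 0) (nat_lit 0) (nat_lit 0) (nat_lit 0x8017985b4) (nat_lit 536870912),
  Rx.mk (nat_lit 147) (nat_lit 3) (nat_lit 2) (nat_lit 2) (nat_lit 7) (nat_lit 110) (nat_lit 122) r8_110 r8_122 (nat_lit 0) (nat_lit 0) (nat_lit 0) (nat_lit 0x8017985b4) (nat_lit 536870912),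
  Rx.mk (nat_lit 178) (nat_lit 2) (nat_lit 6) (nat_lit 2) (nat_lit 7) (nat_lit 106) (nat_lit 124) r8_106 r8_124 (nat_lit 0) (nat_lit 0) (nat_lit 0) (nat_lit 0x8017985b4) (nat_lit 536870912),
  Rx.mk (nat_lit 195) (nat_lit 3) (nat_lit 0) (nat_lit 3) (nat_lit 5) (nat_lit 111) (nat_lit 119) r8_111 r8_119 (nat_lit 0) (nat_lit 24741287) (nat_lit 0) (nat_lit 0x7fe7fdaf2) (nat_lit 564530549),
  Rx.mk (nat_lit 211) (nat_lit 3) (nat_lit 2) (nat_lit 3) (nat_lit 7) (nat_lit 112) (nat_lit 121) r8_112 r8_121 (nat_lit 0) (nat_lit 0) (nat_lit 0) (nat_lit 0x8017985b4) (nat_lit 536870912),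
  Rx.mk (nat_lit 219) (nat_lit 3) (nat_lit 3) (nat_lit 3) (nat_lit 7) (nat_lit 113) (nat_lit 120) r8_113 r8_120 (nat_lit 0) (nat_lit 0) (nat_lit 0) (nat_lit 0x8017985b4) (nat_lit 536870912),
  Rx.mk (nat_lit 223) (nat_lit 7) (nat_lit 3) (nat_lit 3) (nat_lit 7) (nat_lit 123) (nat_lit 107) r8_123 r8_107 (nat_lit 0) (nat_lit 0) (nat_lit 0) (nat_lit 0x8017985b4) (nat_lit 536870912),
  Rx.mk (nat_lit 292) (nat_lit 4) (nat_lit 4) (nat_lit 4) (nat_lit 0) (nat_lit 114) (nat_lit 102) r8_114 r8_102 (nat_lit 10519158) (nat_lit 12621568) (nat_lit 23607891) (nat_lit 0x35cfe746c) (nat_lit 1783943879),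
  Rx.mk (nat_lit 294) (nat_lit 6) (nat_lit 4) (nat_lit 4) (nat_lit 1) (nat_lit 117) (nat_lit 108) r8_117 r8_108 (nat_lit 0) (nat_lit 8151494) (nat_lit 7782469) (nat_lit 0x657d11ec4) (nat_lit 982120125),
  Rx.mk (nat_lit 316) (nat_lit 4) (nat_lit 7) (nat_lit 4) (nat_lit 2) (nat_lit 115) (nat_lit 103) r8_115 r8_103 (nat_lit 22151582) (nat_lit 0) (nat_lit 21485510) (nat_lit 0x5d3108e36) (nat_lit 1144097304),
  Rx.mk (nat_lit 318) (nat_lit 6) (nat_lit 7) (nat_lit 4) (nat_lit 3) (nat_lit 118) (nat_lit 109) r8_118 r8_109 (nat_lit 0) (nat_lit 0) (nat_lit 25147508) (nat_lit 0x80037d764) (nat_lit 563258220),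
  Rx.mk (nat_lit 422) (nat_lit 6) (nat_lit 4) (nat_lit 6) (nat_lit 5) (nat_lit 119) (nat_lit 111) r8_119 r8_111 (nat_lit 0) (nat_lit 24741287) (nat_lit 0) (nat_lit 0x7fe7fdaf2) (nat_lit 564530549),
  Rx.mk (nat_lit 434) (nat_lit 2) (nat_lit 6) (nat_lit 6) (nat_lit 7) (nat_lit 107) (nat_lit 123) r8_107 r8_123 (nat_lit 0) (nat_lit 0) (nat_lit 0) (nat_lit 0x8017985b4) (nat_lit 536870912),
  Rx.mk (nat_lit 438) (nat_lit 6) (nat_lit 6) (nat_lit 6) (nat_lit 7) (nat_lit 120) (nat_lit 113) r8_120 r8_113 (nat_lit 0) (nat_lit 0) (nat_lit 0) (nat_lit 0x8017985b4) (nat_lit 536870912),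
  Rx.mk (nat_lit 446) (nat_lit 6) (nat_lit 7) (nat_lit 6) (nat_lit 7) (nat_lit 121) (nat_lit 112) r8_121 r8_112 (nat_lit 0) (nat_lit 0) (nat_lit 0) (nat_lit 0x8017985b4) (nat_lit 536870912),
  Rx.mk (nat_lit 479) (nat_lit 7) (nat_lit 3) (nat_lit 7) (nat_lit 7) (nat_lit 124) (nat_lit 106) r8_124 r8_106 (nat_lit 0) (nat_lit 0) (nat_lit 0) (nat_lit 0x8017985b4) (nat_lit 536870912),
  Rx.mk (nat_lit 508) (nat_lit 4) (nat_lit 7) (nat_lit 7) (nat_lit 6) (nat_lit 116) (nat_lit 104) r8_116 r8_104 (nat_lit 24741287) (nat_lit 0) (nat_lit 0) (nat_lit 0x8017985b4) (nat_lit 561612199),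
  Rx.mk (nat_lit 510) (nat_lit 6) (nat_lit 7) (nat_lit 7) (nat_lit 7) (nat_lit 122) (nat_lit 110) r8_122 r8_110 (nat_lit 0) (nat_lit 0) (nat_lit 0) (nat_lit 0x8017985b4) (nat_lit 536870912),
  Rx.mk (nat_lit 511) (nat_lit 7) (nat_lit 7) (nat_lit 7) (nat_lit 7) (nat_lit 125) (nat_lit 105) r8_125 r8_105 (nat_lit 0) (nat_lit 0) (nat_lit 0) (nat_lit 0x8017985b4) (nat_lit 536870912)]
noncomputable def e44_45 : List Rx := [
  Rx.mk (nat_lit 292) (nat_lit 4) (nat_lit 4) (nat_lit 4) (nat_lit 0) (nat_lit 15) (nat_lit 131) r8_15 r1_131 (nat_lit 12570282) (nat_lit 16366775) (nat_lit 78140221) (nat_lit 0x42b179a90) (nat_lit 1635971940),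
  Rx.mk (nat_lit 293) (nat_lit 5) (nat_lit 4) (nat_lit 4) (nat_lit 1) (nat_lit 18) (nat_lit 134) r8_18 r1_134 (nat_lit 0) (nat_lit 46134325) (nat_lit 144484209) (nat_lit 0x72b2fdad0) (nat_lit 943309946),
  Rx.mk (nat_lit 294) (nat_lit 6) (nat_lit 4) (nat_lit 4) (nat_lit 1) (nat_lit 21) (nat_lit 138) r8_21 r1_138 (nat_lit 0) (nat_lit 31041958) (nat_lit 36913539) (nat_lit 0x73f49b3ba) (nat_lit 800345659),
  Rx.mk (nat_lit 316) (nat_lit 4) (nat_lit 7) (nat_lit 4) (nat_lit 2) (nat_lit 16) (nat_lit 132) r8_16 r1_132 (nat_lit 40466188) (nat_lit 0) (nat_lit 44995829) (nat_lit 0x6d2f8c872) (nat_lit 927296079),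
  Rx.mk (nat_lit 317) (nat_lit 5) (nat_lit 7) (nat_lit 4) (nat_lit 3) (nat_lit 19) (nat_lit 135) r8_19 r1_135 (nat_lit 0) (nat_lit 0) (nat_lit 24741287) (nat_lit 0x8017985b4) (nat_lit 561612199),
  Rx.mk (nat_lit 422) (nat_lit 6) (nat_lit 4) (nat_lit 6) (nat_lit 5) (nat_lit 22) (nat_lit 139) r8_22 r1_139 (nat_lit 0) (nat_lit 19606239) (nat_lit 0) (nat_lit 0x7f4c479c8) (nat_lit 568985001),
  Rx.mk (nat_lit 438) (nat_lit 6) (nat_lit 6) (nat_lit 6) (nat_lit 7) (nat_lit 23) (nat_lit 140) r8_23 r1_140 (nat_lit 0) (nat_lit 0) (nat_lit 0) (nat_lit 0x8017985b4) (nat_lit 536870912),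
  Rx.mk (nat_lit 508) (nat_lit 4) (nat_lit 7) (nat_lit 7) (nat_lit 6) (nat_lit 17) (nat_lit 133) r8_17 r1_133 (nat_lit 25986002) (nat_lit 0) (nat_lit 0) (nat_lit 0x7f21990dc) (nat_lit 578019064),
  Rx.mk (nat_lit 509) (nat_lit 5) (nat_lit 7) (nat_lit 7) (nat_lit 7) (nat_lit 20) (nat_lit 136) r8_20 r1_136 (nat_lit 0) (nat_lit 0) (nat_lit 0) (nat_lit 0x8017985b4) (nat_lit 536870912),
  Rx.mk (nat_lit 511) (nat_lit 7) (nat_lit 7) (nat_lit 7) (nat_lit 7) (nat_lit 24) (nat_lit 137) r8_24 r1_137 (nat_lit 0) (nat_lit 0) (nat_lit 0) (nat_lit 0x8017985b4) (nat_lit 536870912)]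
noncomputable def e44_46 : List Rx := [
  Rx.mk (nat_lit 292) (nat_lit 4) (nat_lit 4) (nat_lit 4) (nat_lit 0) (nat_lit 25) (nat_lit 119) r8_25 r2_119 (nat_lit 4963972) (nat_lit 5186153) (nat_lit 12331261) (nat_lit 0x3d9490d48) (nat_lit 1633943848),
  Rx.mk (nat_lit 293) (nat_lit 5) (nat_lit 4) (nat_lit 4) (nat_lit 1) (nat_lit 30) (nat_lit 124) r8_30 r2_124 (nat_lit 0) (nat_lit 57149300) (nat_lit 36724435) (nat_lit 0x6701206b0) (nat_lit 1035651797),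
  Rx.mk (nat_lit 294) (nat_lit 6) (nat_lit 4) (nat_lit 4) (nat_lit 1) (nat_lit 35) (nat_lit 130) r8_35 r2_130 (nat_lit 0) (nat_lit 26542101) (nat_lit 20092839) (nat_lit 0x6a8be4910) (nat_lit 931123202),
  Rx.mk (nat_lit 300) (nat_lit 4) (nat_lit 5) (nat_lit 4) (nat_lit 2) (nat_lit 26) (nat_lit 120) r8_26 r2_120 (nat_lit 34582474) (nat_lit 0) (nat_lit 52104926) (nat_lit 0x6328cac00) (nat_lit 1090646762),
  Rx.mk (nat_lit 301) (nat_lit 5) (nat_lit 5) (nat_lit 4) (nat_lit 3) (nat_lit 31) (nat_lit 125) r8_31 r2_125 (nat_lit 0) (nat_lit 0) (nat_lit 25055876) (nat_lit 0x7fce11080) (nat_lit 566426188),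
  Rx.mk (nat_lit 302) (nat_lit 6) (nat_lit 5) (nat_lit 4) (nat_lit 3) (nat_lit 36) (nat_lit 131) r8_36 r2_131 (nat_lit 0) (nat_lit 0) (nat_lit 25669145) (nat_lit 0x80014139c) (nat_lit 563906157),
  Rx.mk (nat_lit 422) (nat_lit 6) (nat_lit 4) (nat_lit 6) (nat_lit 5) (nat_lit 37) (nat_lit 134) r8_37 r2_134 (nat_lit 0) (nat_lit 24741287) (nat_lit 0) (nat_lit 0x8017985b4) (nat_lit 561612199),
  Rx.mk (nat_lit 430) (nat_lit 6) (nat_lit 5) (nat_lit 6) (nat_lit 7) (nat_lit 38) (nat_lit 135) r8_38 r2_135 (nat_lit 0) (nat_lit 0) (nat_lit 0) (nat_lit 0x8017985b4) (nat_lit 536870912),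
  Rx.mk (nat_lit 438) (nat_lit 6) (nat_lit 6) (nat_lit 6) (nat_lit 7) (nat_lit 39) (nat_lit 136) r8_39 r2_136 (nat_lit 0) (nat_lit 0) (nat_lit 0) (nat_lit 0x8017985b4) (nat_lit 536870912),
  Rx.mk (nat_lit 484) (nat_lit 4) (nat_lit 4) (nat_lit 7) (nat_lit 4) (nat_lit 27) (nat_lit 121) r8_27 r2_121 (nat_lit 21402582) (nat_lit 24833065) (nat_lit 0) (nat_lit 0x6b091ef98) (nat_lit 922817759),
  Rx.mk (nat_lit 485) (nat_lit 5) (nat_lit 4) (nat_lit 7) (nat_lit 5) (nat_lit 32) (nat_lit 126) r8_32 r2_126 (nat_lit 0) (nat_lit 24741287) (nat_lit 0) (nat_lit 0x8017985b4) (nat_lit 561612199),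
  Rx.mk (nat_lit 486) (nat_lit 6) (nat_lit 4) (nat_lit 7) (nat_lit 5) (nat_lit 40) (nat_lit 132) r8_40 r2_132 (nat_lit 0) (nat_lit 24741287) (nat_lit 0) (nat_lit 0x7ff611878) (nat_lit 563663549),
  Rx.mk (nat_lit 492) (nat_lit 4) (nat_lit 5) (nat_lit 7) (nat_lit 6) (nat_lit 28) (nat_lit 122) r8_28 r2_122 (nat_lit 24741287) (nat_lit 0) (nat_lit 0) (nat_lit 0x8017985b4) (nat_lit 561612199),
  Rx.mk (nat_lit 493) (nat_lit 5) (nat_lit 5) (nat_lit 7) (nat_lit 7) (nat_lit 33) (nat_lit 127) r8_33 r2_127 (nat_lit 0) (nat_lit 0) (nat_lit 0) (nat_lit 0x8017985b4) (nat_lit 536870912),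
  Rx.mk (nat_lit 494) (nat_lit 6) (nat_lit 5) (nat_lit 7) (nat_lit 7) (nat_lit 41) (nat_lit 133) r8_41 r2_133 (nat_lit 0) (nat_lit 0) (nat_lit 0) (nat_lit 0x8017985b4) (nat_lit 536870912),
  Rx.mk (nat_lit 508) (nat_lit 4) (nat_lit 7) (nat_lit 7) (nat_lit 6) (nat_lit 29) (nat_lit 123) r8_29 r2_123 (nat_lit 24741287) (nat_lit 0) (nat_lit 0) (nat_lit 0x7fd79296a) (nat_lit 565539099),
  Rx.mk (nat_lit 509) (nat_lit 5) (nat_lit 7) (nat_lit 7) (nat_lit 7) (nat_lit 34) (nat_lit 128) r8_34 r2_128 (nat_lit 0) (nat_lit 0) (nat_lit 0) (nat_lit 0x8017985b4) (nat_lit 536870912),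
  Rx.mk (nat_lit 511) (nat_lit 7) (nat_lit 7) (nat_lit 7) (nat_lit 7) (nat_lit 42) (nat_lit 129) r8_42 r2_129 (nat_lit 0) (nat_lit 0) (nat_lit 0) (nat_lit 0x8017985b4) (nat_lit 536870912)]
noncomputable def e44_47 : List Rx := [
  Rx.mk (nat_lit 292) (nat_lit 4) (nat_lit 4) (nat_lit 4) (nat_lit 0) (nat_lit 126) (nat_lit 126) r8_126 r8_126 (nat_lit 20497821) (nat_lit 20497821) (nat_lit 69167844) (nat_lit 0x3ff6c5f16) (nat_lit 1683229348),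
  Rx.mk (nat_lit 294) (nat_lit 6) (nat_lit 4) (nat_lit 4) (nat_lit 1) (nat_lit 129) (nat_lit 127) r8_129 r8_127 (nat_lit 0) (nat_lit 25354659) (nat_lit 25761297) (nat_lit 0x65918fae0) (nat_lit 1016119168),
  Rx.mk (nat_lit 316) (nat_lit 4) (nat_lit 7) (nat_lit 4) (nat_lit 2) (nat_lit 127) (nat_lit 129) r8_127 r8_129 (nat_lit 25354659) (nat_lit 0) (nat_lit 25761297) (nat_lit 0x65918fae0) (nat_lit 1016119168),
  Rx.mk (nat_lit 422) (nat_lit 6) (nat_lit 4) (nat_lit 6) (nat_lit 5) (nat_lit 130) (nat_lit 128) r8_130 r8_128 (nat_lit 0) (nat_lit 24741287) (nat_lit 0) (nat_lit 0x8009bb888) (nat_lit 562459499),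
  Rx.mk (nat_lit 438) (nat_lit 6) (nat_lit 6) (nat_lit 6) (nat_lit 7) (nat_lit 131) (nat_lit 132) r8_131 r8_132 (nat_lit 0) (nat_lit 0) (nat_lit 0) (nat_lit 0x8017985b4) (nat_lit 536870912),
  Rx.mk (nat_lit 508) (nat_lit 4) (nat_lit 7) (nat_lit 7) (nat_lit 6) (nat_lit 128) (nat_lit 130) r8_128 r8_130 (nat_lit 24741287) (nat_lit 0) (nat_lit 0) (nat_lit 0x8009bb888) (nat_lit 562459499),
  Rx.mk (nat_lit 511) (nat_lit 7) (nat_lit 7) (nat_lit 7) (nat_lit 7) (nat_lit 132) (nat_lit 131) r8_132 r8_131 (nat_lit 0) (nat_lit 0) (nat_lit 0) (nat_lit 0x8017985b4) (nat_lit 536870912)]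
noncomputable def e44_48 : List Rx := [
  Rx.mk (nat_lit 292) (nat_lit 4) (nat_lit 4) (nat_lit 4) (nat_lit 0) (nat_lit 133) (nat_lit 86) r8_133 r9_86 (nat_lit 17870946) (nat_lit 18637644) (nat_lit 94967087) (nat_lit 0x4127ec576) (nat_lit 1685261939),
  Rx.mk (nat_lit 294) (nat_lit 6) (nat_lit 4) (nat_lit 4) (nat_lit 1) (nat_lit 138) (nat_lit 92) r8_138 r9_92 (nat_lit 0) (nat_lit 35165148) (nat_lit 23390390) (nat_lit 0x65db9d3f8) (nat_lit 1018879500),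
  Rx.mk (nat_lit 300) (nat_lit 4) (nat_lit 5) (nat_lit 4) (nat_lit 2) (nat_lit 134) (nat_lit 87) r8_134 r9_87 (nat_lit 26394436) (nat_lit 0) (nat_lit 82173125) (nat_lit 0x6a21a438e) (nat_lit 999789173),
  Rx.mk (nat_lit 302) (nat_lit 6) (nat_lit 5) (nat_lit 4) (nat_lit 3) (nat_lit 139) (nat_lit 93) r8_139 r9_93 (nat_lit 0) (nat_lit 0) (nat_lit 24741287) (nat_lit 0x8017985b4) (nat_lit 561612199),
  Rx.mk (nat_lit 422) (nat_lit 6) (nat_lit 4) (nat_lit 6) (nat_lit 5) (nat_lit 140) (nat_lit 96) r8_140 r9_96 (nat_lit 0) (nat_lit 24741287) (nat_lit 0) (nat_lit 0x8017985b4) (nat_lit 561612199),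
  Rx.mk (nat_lit 430) (nat_lit 6) (nat_lit 5) (nat_lit 6) (nat_lit 7) (nat_lit 141) (nat_lit 97) r8_141 r9_97 (nat_lit 0) (nat_lit 0) (nat_lit 0) (nat_lit 0x8017985b4) (nat_lit 536870912),
  Rx.mk (nat_lit 438) (nat_lit 6) (nat_lit 6) (nat_lit 6) (nat_lit 7) (nat_lit 142) (nat_lit 98) r8_142 r9_98 (nat_lit 0) (nat_lit 0) (nat_lit 0) (nat_lit 0x8017985b4) (nat_lit 536870912),
  Rx.mk (nat_lit 484) (nat_lit 4) (nat_lit 4) (nat_lit 7) (nat_lit 4) (nat_lit 135) (nat_lit 88) r8_135 r9_88 (nat_lit 24700278) (nat_lit 29365924) (nat_lit 0) (nat_lit 0x6a57b692c) (nat_lit 941876114),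
  Rx.mk (nat_lit 486) (nat_lit 6) (nat_lit 4) (nat_lit 7) (nat_lit 5) (nat_lit 143) (nat_lit 94) r8_143 r9_94 (nat_lit 0) (nat_lit 24489661) (nat_lit 0) (nat_lit 0x7ffa8f6de) (nat_lit 563135273),
  Rx.mk (nat_lit 492) (nat_lit 4) (nat_lit 5) (nat_lit 7) (nat_lit 6) (nat_lit 136) (nat_lit 89) r8_136 r9_89 (nat_lit 24741287) (nat_lit 0) (nat_lit 0) (nat_lit 0x8017985b4) (nat_lit 561612199),
  Rx.mk (nat_lit 494) (nat_lit 6) (nat_lit 5) (nat_lit 7) (nat_lit 7) (nat_lit 144) (nat_lit 95) r8_144 r9_95 (nat_lit 0) (nat_lit 0) (nat_lit 0) (nat_lit 0x8017985b4) (nat_lit 536870912),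
  Rx.mk (nat_lit 508) (nat_lit 4) (nat_lit 7) (nat_lit 7) (nat_lit 6) (nat_lit 137) (nat_lit 90) r8_137 r9_90 (nat_lit 24741287) (nat_lit 0) (nat_lit 0) (nat_lit 0x7fffb92e0) (nat_lit 563069249),
  Rx.mk (nat_lit 511) (nat_lit 7) (nat_lit 7) (nat_lit 7) (nat_lit 7) (nat_lit 145) (nat_lit 91) r8_145 r9_91 (nat_lit 0) (nat_lit 0) (nat_lit 0) (nat_lit 0x8017985b4) (nat_lit 536870912)]
noncomputable def e44_49 : List Rx := [
  Rx.mk (nat_lit 292) (nat_lit 4) (nat_lit 4) (nat_lit 4) (nat_lit 0) (nat_lit 159) (nat_lit 183) r8_159 r9_183 (nat_lit 27871597) (nat_lit 18255310) (nat_lit 23644808) (nat_lit 0x407f928e4) (nat_lit 1634185527),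
  Rx.mk (nat_lit 293) (nat_lit 5) (nat_lit 4) (nat_lit 4) (nat_lit 1) (nat_lit 165) (nat_lit 185) r8_165 r9_185 (nat_lit 0) (nat_lit 130895702) (nat_lit 40805453) (nat_lit 0x7010e2518) (nat_lit 966967117),
  Rx.mk (nat_lit 294) (nat_lit 6) (nat_lit 4) (nat_lit 4) (nat_lit 1) (nat_lit 171) (nat_lit 187) r8_171 r9_187 (nat_lit 0) (nat_lit 55618136) (nat_lit 30134438) (nat_lit 0x6f41c019a) (nat_lit 894101936),
  Rx.mk (nat_lit 300) (nat_lit 4) (nat_lit 5) (nat_lit 4) (nat_lit 2) (nat_lit 160) (nat_lit 184) r8_160 r9_184 (nat_lit 34699300) (nat_lit 0) (nat_lit 50716108) (nat_lit 0x6b512c18c) (nat_lit 957466070),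
  Rx.mk (nat_lit 301) (nat_lit 5) (nat_lit 5) (nat_lit 4) (nat_lit 3) (nat_lit 166) (nat_lit 186) r8_166 r9_186 (nat_lit 0) (nat_lit 0) (nat_lit 23667545) (nat_lit 0x7fe4ef41e) (nat_lit 563630257),
  Rx.mk (nat_lit 302) (nat_lit 6) (nat_lit 5) (nat_lit 4) (nat_lit 3) (nat_lit 172) (nat_lit 188) r8_172 r9_188 (nat_lit 0) (nat_lit 0) (nat_lit 24741287) (nat_lit 0x8017985b4) (nat_lit 561612199),
  Rx.mk (nat_lit 364) (nat_lit 4) (nat_lit 5) (nat_lit 5) (nat_lit 6) (nat_lit 161) (nat_lit 189) r8_161 r9_189 (nat_lit 25054288) (nat_lit 0) (nat_lit 0) (nat_lit 0x800856290) (nat_lit 562857500),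
  Rx.mk (nat_lit 365) (nat_lit 5) (nat_lit 5) (nat_lit 5) (nat_lit 7) (nat_lit 167) (nat_lit 190) r8_167 r9_190 (nat_lit 0) (nat_lit 0) (nat_lit 0) (nat_lit 0x8017985b4) (nat_lit 536870912),
  Rx.mk (nat_lit 366) (nat_lit 6) (nat_lit 5) (nat_lit 5) (nat_lit 7) (nat_lit 173) (nat_lit 191) r8_173 r9_191 (nat_lit 0) (nat_lit 0) (nat_lit 0) (nat_lit 0x8017985b4) (nat_lit 536870912),
  Rx.mk (nat_lit 422) (nat_lit 6) (nat_lit 4) (nat_lit 6) (nat_lit 5) (nat_lit 174) (nat_lit 199) r8_174 r9_199 (nat_lit 0) (nat_lit 24741287) (nat_lit 0) (nat_lit 0x8017985b4) (nat_lit 561612199),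
  Rx.mk (nat_lit 430) (nat_lit 6) (nat_lit 5) (nat_lit 6) (nat_lit 7) (nat_lit 175) (nat_lit 200) r8_175 r9_200 (nat_lit 0) (nat_lit 0) (nat_lit 0) (nat_lit 0x8017985b4) (nat_lit 536870912),
  Rx.mk (nat_lit 438) (nat_lit 6) (nat_lit 6) (nat_lit 6) (nat_lit 7) (nat_lit 176) (nat_lit 201) r8_176 r9_201 (nat_lit 0) (nat_lit 0) (nat_lit 0) (nat_lit 0x8017985b4) (nat_lit 536870912),
  Rx.mk (nat_lit 484) (nat_lit 4) (nat_lit 4) (nat_lit 7) (nat_lit 4) (nat_lit 162) (nat_lit 192) r8_162 r9_192 (nat_lit 28133172) (nat_lit 40482942) (nat_lit 0) (nat_lit 0x6d0747a06) (nat_lit 912998026),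
  Rx.mk (nat_lit 485) (nat_lit 5) (nat_lit 4) (nat_lit 7) (nat_lit 5) (nat_lit 168) (nat_lit 195) r8_168 r9_195 (nat_lit 0) (nat_lit 24741287) (nat_lit 0) (nat_lit 0x8017985b4) (nat_lit 561612199),
  Rx.mk (nat_lit 492) (nat_lit 4) (nat_lit 5) (nat_lit 7) (nat_lit 6) (nat_lit 163) (nat_lit 193) r8_163 r9_193 (nat_lit 24741287) (nat_lit 0) (nat_lit 0) (nat_lit 0x8009d4ae0) (nat_lit 562452249),
  Rx.mk (nat_lit 493) (nat_lit 5) (nat_lit 5) (nat_lit 7) (nat_lit 7) (nat_lit 169) (nat_lit 196) r8_169 r9_196 (nat_lit 0) (nat_lit 0) (nat_lit 0) (nat_lit 0x8017985b4) (nat_lit 536870912),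
  Rx.mk (nat_lit 508) (nat_lit 4) (nat_lit 7) (nat_lit 7) (nat_lit 6) (nat_lit 164) (nat_lit 194) r8_164 r9_194 (nat_lit 24741287) (nat_lit 0) (nat_lit 0) (nat_lit 0x8017985b4) (nat_lit 561612199),
  Rx.mk (nat_lit 509) (nat_lit 5) (nat_lit 7) (nat_lit 7) (nat_lit 7) (nat_lit 170) (nat_lit 197) r8_170 r9_197 (nat_lit 0) (nat_lit 0) (nat_lit 0) (nat_lit 0x8017985b4) (nat_lit 536870912),
  Rx.mk (nat_lit 511) (nat_lit 7) (nat_lit 7) (nat_lit 7) (nat_lit 7) (nat_lit 177) (nat_lit 198) r8_177 r9_198 (nat_lit 0) (nat_lit 0) (nat_lit 0) (nat_lit 0x8017985b4) (nat_lit 536870912)]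
noncomputable def e44_50 : List Rx := [
  Rx.mk (nat_lit 223) (nat_lit 7) (nat_lit 3) (nat_lit 3) (nat_lit 7) (nat_lit 45) (nat_lit 118) r8_45 r3_118 (nat_lit 0) (nat_lit 0) (nat_lit 0) (nat_lit 0x7fbaf6978) (nat_lit 542584962),
  Rx.mk (nat_lit 476) (nat_lit 4) (nat_lit 3) (nat_lit 7) (nat_lit 6) (nat_lit 43) (nat_lit 115) r8_43 r3_115 (nat_lit 1763441) (nat_lit 0) (nat_lit 0) (nat_lit 0x7c7a002d2) (nat_lit 596010653),
  Rx.mk (nat_lit 477) (nat_lit 5) (nat_lit 3) (nat_lit 7) (nat_lit 7) (nat_lit 44) (nat_lit 116) r8_44 r3_116 (nat_lit 0) (nat_lit 0) (nat_lit 0) (nat_lit 0x815f04622) (nat_lit 516911112),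
  Rx.mk (nat_lit 479) (nat_lit 7) (nat_lit 3) (nat_lit 7) (nat_lit 7) (nat_lit 46) (nat_lit 117) r8_46 r3_117 (nat_lit 0) (nat_lit 0) (nat_lit 0) (nat_lit 0x7fe6eb434) (nat_lit 539872312)]
noncomputable def e44_51 : List Rx := [
  Rx.mk (nat_lit 223) (nat_lit 7) (nat_lit 3) (nat_lit 3) (nat_lit 7) (nat_lit 56) (nat_lit 121) r8_56 r4_121 (nat_lit 0) (nat_lit 0) (nat_lit 0) (nat_lit 0x8017985b4) (nat_lit 536870912),
  Rx.mk (nat_lit 316) (nat_lit 4) (nat_lit 7) (nat_lit 4) (nat_lit 2) (nat_lit 47) (nat_lit 114) r8_47 r4_114 (nat_lit 25528723) (nat_lit 0) (nat_lit 35927384) (nat_lit 0x6c2494650) (nat_lit 920149869),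
  Rx.mk (nat_lit 317) (nat_lit 5) (nat_lit 7) (nat_lit 4) (nat_lit 3) (nat_lit 50) (nat_lit 117) r8_50 r4_117 (nat_lit 0) (nat_lit 0) (nat_lit 24741287) (nat_lit 0x8005f42d6) (nat_lit 562689149),
  Rx.mk (nat_lit 318) (nat_lit 6) (nat_lit 7) (nat_lit 4) (nat_lit 3) (nat_lit 53) (nat_lit 122) r8_53 r4_122 (nat_lit 0) (nat_lit 0) (nat_lit 24741287) (nat_lit 0x8017985b4) (nat_lit 561612199),
  Rx.mk (nat_lit 446) (nat_lit 6) (nat_lit 7) (nat_lit 6) (nat_lit 7) (nat_lit 54) (nat_lit 124) r8_54 r4_124 (nat_lit 0) (nat_lit 0) (nat_lit 0) (nat_lit 0x8017985b4) (nat_lit 536870912),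
  Rx.mk (nat_lit 476) (nat_lit 4) (nat_lit 3) (nat_lit 7) (nat_lit 6) (nat_lit 48) (nat_lit 116) r8_48 r4_116 (nat_lit 19539304) (nat_lit 0) (nat_lit 0) (nat_lit 0x7feeea77a) (nat_lit 558873116),
  Rx.mk (nat_lit 477) (nat_lit 5) (nat_lit 3) (nat_lit 7) (nat_lit 7) (nat_lit 51) (nat_lit 119) r8_51 r4_119 (nat_lit 0) (nat_lit 0) (nat_lit 0) (nat_lit 0x8017985b4) (nat_lit 536870912),
  Rx.mk (nat_lit 479) (nat_lit 7) (nat_lit 3) (nat_lit 7) (nat_lit 7) (nat_lit 57) (nat_lit 120) r8_57 r4_120 (nat_lit 0) (nat_lit 0) (nat_lit 0) (nat_lit 0x8017985b4) (nat_lit 536870912),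
  Rx.mk (nat_lit 508) (nat_lit 4) (nat_lit 7) (nat_lit 7) (nat_lit 6) (nat_lit 49) (nat_lit 115) r8_49 r4_115 (nat_lit 15426170) (nat_lit 0) (nat_lit 0) (nat_lit 0x7fa00e8ea) (nat_lit 559577782),
  Rx.mk (nat_lit 509) (nat_lit 5) (nat_lit 7) (nat_lit 7) (nat_lit 7) (nat_lit 52) (nat_lit 118) r8_52 r4_118 (nat_lit 0) (nat_lit 0) (nat_lit 0) (nat_lit 0x8050765fc) (nat_lit 533378512),
  Rx.mk (nat_lit 510) (nat_lit 6) (nat_lit 7) (nat_lit 7) (nat_lit 7) (nat_lit 55) (nat_lit 123) r8_55 r4_123 (nat_lit 0) (nat_lit 0) (nat_lit 0) (nat_lit 0x80507696c) (nat_lit 533378462)]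
noncomputable def e44_52 : List Rx := [
  Rx.mk (nat_lit 476) (nat_lit 4) (nat_lit 3) (nat_lit 7) (nat_lit 6) (nat_lit 58) (nat_lit 115) r8_58 r5_115 (nat_lit 14303237) (nat_lit 0) (nat_lit 0) (nat_lit 0x7ea35f61c) (nat_lit 574182799),
  Rx.mk (nat_lit 477) (nat_lit 5) (nat_lit 3) (nat_lit 7) (nat_lit 7) (nat_lit 59) (nat_lit 116) r8_59 r5_116 (nat_lit 0) (nat_lit 0) (nat_lit 0) (nat_lit 0x805c00e40) (nat_lit 532666762),
  Rx.mk (nat_lit 479) (nat_lit 7) (nat_lit 3) (nat_lit 7) (nat_lit 7) (nat_lit 60) (nat_lit 117) r8_60 r5_117 (nat_lit 0) (nat_lit 0) (nat_lit 0) (nat_lit 0x8017985b4) (nat_lit 536870912)]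
noncomputable def e44_53 : List Rx := [
  Rx.mk (nat_lit 223) (nat_lit 7) (nat_lit 3) (nat_lit 3) (nat_lit 7) (nat_lit 147) (nat_lit 125) r8_147 r4_125 (nat_lit 0) (nat_lit 0) (nat_lit 0) (nat_lit 0x8017985b4) (nat_lit 536870912),
  Rx.mk (nat_lit 476) (nat_lit 4) (nat_lit 3) (nat_lit 7) (nat_lit 6) (nat_lit 146) (nat_lit 126) r8_146 r4_126 (nat_lit 22851491) (nat_lit 0) (nat_lit 0) (nat_lit 0x7fa9b2676) (nat_lit 566471853),
  Rx.mk (nat_lit 479) (nat_lit 7) (nat_lit 3) (nat_lit 7) (nat_lit 7) (nat_lit 148) (nat_lit 127) r8_148 r4_127 (nat_lit 0) (nat_lit 0) (nat_lit 0) (nat_lit 0x8017985b4) (nat_lit 536870912)]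
noncomputable def e44_54 : List Rx := [
  Rx.mk (nat_lit 223) (nat_lit 7) (nat_lit 3) (nat_lit 3) (nat_lit 7) (nat_lit 155) (nat_lit 105) r8_155 r10_105 (nat_lit 0) (nat_lit 0) (nat_lit 0) (nat_lit 0x8017985b4) (nat_lit 536870912),
  Rx.mk (nat_lit 316) (nat_lit 4) (nat_lit 7) (nat_lit 4) (nat_lit 2) (nat_lit 149) (nat_lit 101) r8_149 r10_101 (nat_lit 25194848) (nat_lit 0) (nat_lit 27532938) (nat_lit 0x6502bec76) (nat_lit 1026751498),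
  Rx.mk (nat_lit 318) (nat_lit 6) (nat_lit 7) (nat_lit 4) (nat_lit 3) (nat_lit 152) (nat_lit 106) r8_152 r10_106 (nat_lit 0) (nat_lit 0) (nat_lit 24741287) (nat_lit 0x7fc74cd8a) (nat_lit 566520649),
  Rx.mk (nat_lit 446) (nat_lit 6) (nat_lit 7) (nat_lit 6) (nat_lit 7) (nat_lit 153) (nat_lit 108) r8_153 r10_108 (nat_lit 0) (nat_lit 0) (nat_lit 0) (nat_lit 0x8017985b4) (nat_lit 536870912),
  Rx.mk (nat_lit 476) (nat_lit 4) (nat_lit 3) (nat_lit 7) (nat_lit 6) (nat_lit 150) (nat_lit 103) r8_150 r10_103 (nat_lit 24741287) (nat_lit 0) (nat_lit 0) (nat_lit 0x8006a3cfe) (nat_lit 562650649),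
  Rx.mk (nat_lit 479) (nat_lit 7) (nat_lit 3) (nat_lit 7) (nat_lit 7) (nat_lit 156) (nat_lit 104) r8_156 r10_104 (nat_lit 0) (nat_lit 0) (nat_lit 0) (nat_lit 0x8017985b4) (nat_lit 536870912),
  Rx.mk (nat_lit 508) (nat_lit 4) (nat_lit 7) (nat_lit 7) (nat_lit 6) (nat_lit 151) (nat_lit 102) r8_151 r10_102 (nat_lit 24741287) (nat_lit 0) (nat_lit 0) (nat_lit 0x80046e510) (nat_lit 562785099),
  Rx.mk (nat_lit 510) (nat_lit 6) (nat_lit 7) (nat_lit 7) (nat_lit 7) (nat_lit 154) (nat_lit 107) r8_154 r10_107 (nat_lit 0) (nat_lit 0) (nat_lit 0) (nat_lit 0x8017985b4) (nat_lit 536870912)]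
noncomputable def e44_55 : List Rx := [
  Rx.mk (nat_lit 476) (nat_lit 4) (nat_lit 3) (nat_lit 7) (nat_lit 6) (nat_lit 157) (nat_lit 113) r8_157 r11_113 (nat_lit 24741287) (nat_lit 0) (nat_lit 0) (nat_lit 0x8017985b4) (nat_lit 561612199),
  Rx.mk (nat_lit 479) (nat_lit 7) (nat_lit 3) (nat_lit 7) (nat_lit 7) (nat_lit 158) (nat_lit 114) r8_158 r11_114 (nat_lit 0) (nat_lit 0) (nat_lit 0) (nat_lit 0x8017985b4) (nat_lit 536870912)]
noncomputable def e44_56 : List Rx := [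
  Rx.mk (nat_lit 220) (nat_lit 4) (nat_lit 3) (nat_lit 3) (nat_lit 6) (nat_lit 201) (nat_lit 118) r8_201 r5_118 (nat_lit 25748057) (nat_lit 0) (nat_lit 0) (nat_lit 0x790d284fa) (nat_lit 675764869),
  Rx.mk (nat_lit 221) (nat_lit 5) (nat_lit 3) (nat_lit 3) (nat_lit 7) (nat_lit 203) (nat_lit 119) r8_203 r5_119 (nat_lit 0) (nat_lit 0) (nat_lit 0) (nat_lit 0x8017985b4) (nat_lit 536870912),
  Rx.mk (nat_lit 223) (nat_lit 7) (nat_lit 3) (nat_lit 3) (nat_lit 7) (nat_lit 205) (nat_lit 120) r8_205 r5_120 (nat_lit 0) (nat_lit 0) (nat_lit 0) (nat_lit 0x8017985b4) (nat_lit 536870912),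
  Rx.mk (nat_lit 476) (nat_lit 4) (nat_lit 3) (nat_lit 7) (nat_lit 6) (nat_lit 202) (nat_lit 121) r8_202 r5_121 (nat_lit 10065734) (nat_lit 0) (nat_lit 0) (nat_lit 0x7e9c4689e) (nat_lit 570285946),
  Rx.mk (nat_lit 477) (nat_lit 5) (nat_lit 3) (nat_lit 7) (nat_lit 7) (nat_lit 204) (nat_lit 122) r8_204 r5_122 (nat_lit 0) (nat_lit 0) (nat_lit 0) (nat_lit 0x80d50bd58) (nat_lit 525282062)]
noncomputable def e44_57 : List Rx := [
  Rx.mk (nat_lit 220) (nat_lit 4) (nat_lit 3) (nat_lit 3) (nat_lit 6) (nat_lit 206) (nat_lit 115) r8_206 r11_115 (nat_lit 24741287) (nat_lit 0) (nat_lit 0) (nat_lit 0x8017985b4) (nat_lit 561612199),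
  Rx.mk (nat_lit 221) (nat_lit 5) (nat_lit 3) (nat_lit 3) (nat_lit 7) (nat_lit 209) (nat_lit 116) r8_209 r11_116 (nat_lit 0) (nat_lit 0) (nat_lit 0) (nat_lit 0x8017985b4) (nat_lit 536870912),
  Rx.mk (nat_lit 223) (nat_lit 7) (nat_lit 3) (nat_lit 3) (nat_lit 7) (nat_lit 213) (nat_lit 117) r8_213 r11_117 (nat_lit 0) (nat_lit 0) (nat_lit 0) (nat_lit 0x8017985b4) (nat_lit 536870912),
  Rx.mk (nat_lit 476) (nat_lit 4) (nat_lit 3) (nat_lit 7) (nat_lit 6) (nat_lit 207) (nat_lit 118) r8_207 r11_118 (nat_lit 24741287) (nat_lit 0) (nat_lit 0) (nat_lit 0x8017985b4) (nat_lit 561612199),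
  Rx.mk (nat_lit 477) (nat_lit 5) (nat_lit 3) (nat_lit 7) (nat_lit 7) (nat_lit 210) (nat_lit 119) r8_210 r11_119 (nat_lit 0) (nat_lit 0) (nat_lit 0) (nat_lit 0x8017985b4) (nat_lit 536870912),
  Rx.mk (nat_lit 508) (nat_lit 4) (nat_lit 7) (nat_lit 7) (nat_lit 6) (nat_lit 208) (nat_lit 120) r8_208 r11_120 (nat_lit 28059580) (nat_lit 0) (nat_lit 0) (nat_lit 0x7f58302f8) (nat_lit 576670492),
  Rx.mk (nat_lit 509) (nat_lit 5) (nat_lit 7) (nat_lit 7) (nat_lit 7) (nat_lit 211) (nat_lit 121) r8_211 r11_121 (nat_lit 0) (nat_lit 0) (nat_lit 0) (nat_lit 0x8017985b4) (nat_lit 536870912),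
  Rx.mk (nat_lit 510) (nat_lit 6) (nat_lit 7) (nat_lit 7) (nat_lit 7) (nat_lit 212) (nat_lit 122) r8_212 r11_122 (nat_lit 0) (nat_lit 0) (nat_lit 0) (nat_lit 0x8017985b4) (nat_lit 536870912)]
noncomputable def e44 : List (List Rx) := [e44_0, e44_1, e44_2, e44_3, e44_4, e44_5, e44_6, e44_7, e44_8, e44_9, e44_10, e44_11, e44_12, e44_13, e44_14, e44_15, e44_16, e44_17, e44_18, e44_19, e44_20, e44_21, e44_22, e44_23, e44_24, e44_25, e44_26, e44_27, e44_28, e44_29, e44_30, e44_31, e44_32, e44_33, e44_34, e44_35, e44_36, e44_37, e44_38, e44_39, e44_40, e44_41, e44_42, e44_43, e44_44, e44_45, e44_46, e44_47, e44_48, e44_49, e44_50, e44_51, e44_52, e44_53, e44_54, e44_55, e44_56, e44_57]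
noncomputable def e45_0 : List Rx := [
  Rx.mk (nat_lit 13) (nat_lit 5) (nat_lit 1) (nat_lit 0) (nat_lit 3) (nat_lit 253) (nat_lit 283) r1_253 r0_283 (nat_lit 0) (nat_lit 0) (nat_lit 24741287) (nat_lit 0x7fb668af0) (nat_lit 567576349),
  Rx.mk (nat_lit 76) (nat_lit 4) (nat_lit 1) (nat_lit 1) (nat_lit 6) (nat_lit 252) (nat_lit 282) r1_252 r0_282 (nat_lit 585345170) (nat_lit 0) (nat_lit 0) (nat_lit 0x801301b72) (nat_lit 1121100632),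
  Rx.mk (nat_lit 77) (nat_lit 5) (nat_lit 1) (nat_lit 1) (nat_lit 7) (nat_lit 254) (nat_lit 284) r1_254 r0_284 (nat_lit 0) (nat_lit 0) (nat_lit 0) (nat_lit 0x7fcf556ee) (nat_lit 541249062)]
noncomputable def e45_1 : List Rx := [
  Rx.mk (nat_lit 76) (nat_lit 4) (nat_lit 1) (nat_lit 1) (nat_lit 6) (nat_lit 278) (nat_lit 278) r1_278 r1_278 (nat_lit 46726331) (nat_lit 0) (nat_lit 0) (nat_lit 0x7ff035c7e) (nat_lit 585800043),
  Rx.mk (nat_lit 77) (nat_lit 5) (nat_lit 1) (nat_lit 1) (nat_lit 7) (nat_lit 279) (nat_lit 279) r1_279 r1_279 (nat_lit 0) (nat_lit 0) (nat_lit 0) (nat_lit 0x8017985b4) (nat_lit 536870912)]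
noncomputable def e45_2 : List Rx := [
  Rx.mk (nat_lit 76) (nat_lit 4) (nat_lit 1) (nat_lit 1) (nat_lit 6) (nat_lit 280) (nat_lit 304) r1_280 r2_304 (nat_lit 34697810) (nat_lit 0) (nat_lit 0) (nat_lit 0x7fda33674) (nat_lit 575291622),
  Rx.mk (nat_lit 77) (nat_lit 5) (nat_lit 1) (nat_lit 1) (nat_lit 7) (nat_lit 283) (nat_lit 307) r1_283 r2_307 (nat_lit 0) (nat_lit 0) (nat_lit 0) (nat_lit 0x8017985b4) (nat_lit 536870912),
  Rx.mk (nat_lit 332) (nat_lit 4) (nat_lit 1) (nat_lit 5) (nat_lit 6) (nat_lit 281) (nat_lit 305) r1_281 r2_305 (nat_lit 24741287) (nat_lit 0) (nat_lit 0) (nat_lit 0x80411f176) (nat_lit 559058049),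
  Rx.mk (nat_lit 333) (nat_lit 5) (nat_lit 1) (nat_lit 5) (nat_lit 7) (nat_lit 284) (nat_lit 308) r1_284 r2_308 (nat_lit 0) (nat_lit 0) (nat_lit 0) (nat_lit 0x8017985b4) (nat_lit 536870912),
  Rx.mk (nat_lit 364) (nat_lit 4) (nat_lit 5) (nat_lit 5) (nat_lit 6) (nat_lit 282) (nat_lit 306) r1_282 r2_306 (nat_lit 24741287) (nat_lit 0) (nat_lit 0) (nat_lit 0x8017985b4) (nat_lit 561612199),
  Rx.mk (nat_lit 365) (nat_lit 5) (nat_lit 5) (nat_lit 5) (nat_lit 7) (nat_lit 285) (nat_lit 309) r1_285 r2_309 (nat_lit 0) (nat_lit 0) (nat_lit 0) (nat_lit 0x8017985b4) (nat_lit 536870912)]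
noncomputable def e45_3 : List Rx := [
  Rx.mk (nat_lit 12) (nat_lit 4) (nat_lit 1) (nat_lit 0) (nat_lit 2) (nat_lit 293) (nat_lit 272) r1_293 r3_272 (nat_lit 12607) (nat_lit 0) (nat_lit 11530) (nat_lit 0x8001f4cc6) (nat_lit 536785599),
  Rx.mk (nat_lit 13) (nat_lit 5) (nat_lit 1) (nat_lit 0) (nat_lit 3) (nat_lit 295) (nat_lit 274) r1_295 r3_274 (nat_lit 0) (nat_lit 0) (nat_lit 220600) (nat_lit 0x7fe1be20e) (nat_lit 539042412),
  Rx.mk (nat_lit 204) (nat_lit 4) (nat_lit 1) (nat_lit 3) (nat_lit 6) (nat_lit 294) (nat_lit 273) r1_294 r3_273 (nat_lit 10831797) (nat_lit 0) (nat_lit 0) (nat_lit 0x81a17f3bc) (nat_lit 523520059),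
  Rx.mk (nat_lit 205) (nat_lit 5) (nat_lit 1) (nat_lit 3) (nat_lit 7) (nat_lit 296) (nat_lit 275) r1_296 r3_275 (nat_lit 0) (nat_lit 0) (nat_lit 0) (nat_lit 0x8071f5700) (nat_lit 530794662)]
noncomputable def e45_4 : List Rx := [
  Rx.mk (nat_lit 12) (nat_lit 4) (nat_lit 1) (nat_lit 0) (nat_lit 2) (nat_lit 297) (nat_lit 293) r1_297 r4_293 (nat_lit 79659509) (nat_lit 0) (nat_lit 16666109) (nat_lit 0x6e82c4200) (nat_lit 916697780),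
  Rx.mk (nat_lit 13) (nat_lit 5) (nat_lit 1) (nat_lit 0) (nat_lit 3) (nat_lit 300) (nat_lit 296) r1_300 r4_296 (nat_lit 0) (nat_lit 0) (nat_lit 21556671) (nat_lit 0x801c58cca) (nat_lit 558112583),
  Rx.mk (nat_lit 76) (nat_lit 4) (nat_lit 1) (nat_lit 1) (nat_lit 6) (nat_lit 298) (nat_lit 294) r1_298 r4_294 (nat_lit 132162371) (nat_lit 0) (nat_lit 0) (nat_lit 0x7a51f7832) (nat_lit 761496733),
  Rx.mk (nat_lit 77) (nat_lit 5) (nat_lit 1) (nat_lit 1) (nat_lit 7) (nat_lit 301) (nat_lit 297) r1_301 r4_297 (nat_lit 0) (nat_lit 0) (nat_lit 0) (nat_lit 0x80b000be4) (nat_lit 527525712),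
  Rx.mk (nat_lit 204) (nat_lit 4) (nat_lit 1) (nat_lit 3) (nat_lit 6) (nat_lit 299) (nat_lit 295) r1_299 r4_295 (nat_lit 29428945) (nat_lit 0) (nat_lit 0) (nat_lit 0x800d7d0e8) (nat_lit 566895407),
  Rx.mk (nat_lit 205) (nat_lit 5) (nat_lit 1) (nat_lit 3) (nat_lit 7) (nat_lit 302) (nat_lit 298) r1_302 r4_298 (nat_lit 0) (nat_lit 0) (nat_lit 0) (nat_lit 0x80691f28e) (nat_lit 531863312)]
noncomputable def e45_5 : List Rx := [
  Rx.mk (nat_lit 204) (nat_lit 4) (nat_lit 1) (nat_lit 3) (nat_lit 6) (nat_lit 303) (nat_lit 273) r1_303 r5_273 (nat_lit 15528047) (nat_lit 0) (nat_lit 0) (nat_lit 0x815c32e9e) (nat_lit 532577559),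
  Rx.mk (nat_lit 205) (nat_lit 5) (nat_lit 1) (nat_lit 3) (nat_lit 7) (nat_lit 304) (nat_lit 274) r1_304 r5_274 (nat_lit 0) (nat_lit 0) (nat_lit 0) (nat_lit 0x825a7268a) (nat_lit 501688462)]
noncomputable def e45_6 : List Rx := [
  Rx.mk (nat_lit 460) (nat_lit 4) (nat_lit 1) (nat_lit 7) (nat_lit 6) (nat_lit 66) (nat_lit 264) r1_66 r3_264 (nat_lit 15428) (nat_lit 0) (nat_lit 0) (nat_lit 0x81eea1d52) (nat_lit 507420490),
  Rx.mk (nat_lit 492) (nat_lit 4) (nat_lit 5) (nat_lit 7) (nat_lit 6) (nat_lit 67) (nat_lit 262) r1_67 r3_262 (nat_lit 187256) (nat_lit 0) (nat_lit 0) (nat_lit 0x7e7e37ede) (nat_lit 561441168),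
  Rx.mk (nat_lit 495) (nat_lit 7) (nat_lit 5) (nat_lit 7) (nat_lit 7) (nat_lit 68) (nat_lit 263) r1_68 r3_263 (nat_lit 0) (nat_lit 0) (nat_lit 0) (nat_lit 0x802f26848) (nat_lit 535238762)]
noncomputable def e45_7 : List Rx := [
  Rx.mk (nat_lit 268) (nat_lit 4) (nat_lit 1) (nat_lit 4) (nat_lit 2) (nat_lit 179) (nat_lit 269) r1_179 r0_269 (nat_lit 1205034172) (nat_lit 0) (nat_lit 62636) (nat_lit 0x802a2cad6) (nat_lit 1739481320),
  Rx.mk (nat_lit 300) (nat_lit 4) (nat_lit 5) (nat_lit 4) (nat_lit 2) (nat_lit 180) (nat_lit 265) r1_180 r0_265 (nat_lit 67542365) (nat_lit 0) (nat_lit 14461079) (nat_lit 0x5cc089d90) (nat_lit 1189508356),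
  Rx.mk (nat_lit 332) (nat_lit 4) (nat_lit 1) (nat_lit 5) (nat_lit 6) (nat_lit 181) (nat_lit 270) r1_181 r0_270 (nat_lit 72480076) (nat_lit 0) (nat_lit 0) (nat_lit 0x7991dfe78) (nat_lit 713984088),
  Rx.mk (nat_lit 364) (nat_lit 4) (nat_lit 5) (nat_lit 5) (nat_lit 6) (nat_lit 182) (nat_lit 266) r1_182 r0_266 (nat_lit 30433232) (nat_lit 0) (nat_lit 0) (nat_lit 0x7d7bf805c) (nat_lit 608923094),
  Rx.mk (nat_lit 492) (nat_lit 4) (nat_lit 5) (nat_lit 7) (nat_lit 6) (nat_lit 183) (nat_lit 267) r1_183 r0_267 (nat_lit 99141069) (nat_lit 0) (nat_lit 0) (nat_lit 0x7f0a1588e) (nat_lit 652491131),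
  Rx.mk (nat_lit 495) (nat_lit 7) (nat_lit 5) (nat_lit 7) (nat_lit 7) (nat_lit 184) (nat_lit 268) r1_184 r0_268 (nat_lit 0) (nat_lit 0) (nat_lit 0) (nat_lit 0x7c86d8338) (nat_lit 593842712)]
noncomputable def e45_8 : List Rx := [
  Rx.mk (nat_lit 332) (nat_lit 4) (nat_lit 1) (nat_lit 5) (nat_lit 6) (nat_lit 185) (nat_lit 273) r1_185 r1_273 (nat_lit 27314648) (nat_lit 0) (nat_lit 0) (nat_lit 0x7fc62ebb0) (nat_lit 569113310),
  Rx.mk (nat_lit 364) (nat_lit 4) (nat_lit 5) (nat_lit 5) (nat_lit 6) (nat_lit 186) (nat_lit 272) r1_186 r1_272 (nat_lit 25191095) (nat_lit 0) (nat_lit 0) (nat_lit 0x7f94f86e0) (nat_lit 570102157)]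
noncomputable def e45_9 : List Rx := [
  Rx.mk (nat_lit 268) (nat_lit 4) (nat_lit 1) (nat_lit 4) (nat_lit 2) (nat_lit 187) (nat_lit 281) r1_187 r4_281 (nat_lit 131619701) (nat_lit 0) (nat_lit 12745069) (nat_lit 0x669364acc) (nat_lit 1092912382),
  Rx.mk (nat_lit 332) (nat_lit 4) (nat_lit 1) (nat_lit 5) (nat_lit 6) (nat_lit 188) (nat_lit 282) r1_188 r4_282 (nat_lit 25655830) (nat_lit 0) (nat_lit 0) (nat_lit 0x7fff0d792) (nat_lit 563934392),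
  Rx.mk (nat_lit 460) (nat_lit 4) (nat_lit 1) (nat_lit 7) (nat_lit 6) (nat_lit 189) (nat_lit 283) r1_189 r4_283 (nat_lit 277566866) (nat_lit 0) (nat_lit 0) (nat_lit 0x7d3bb22a4) (nat_lit 859858978),
  Rx.mk (nat_lit 492) (nat_lit 4) (nat_lit 5) (nat_lit 7) (nat_lit 6) (nat_lit 190) (nat_lit 279) r1_190 r4_279 (nat_lit 124425147) (nat_lit 0) (nat_lit 0) (nat_lit 0x7ecc4e244) (nat_lit 681601709),
  Rx.mk (nat_lit 495) (nat_lit 7) (nat_lit 5) (nat_lit 7) (nat_lit 7) (nat_lit 191) (nat_lit 280) r1_191 r4_280 (nat_lit 0) (nat_lit 0) (nat_lit 0) (nat_lit 0x80304a1b6) (nat_lit 535245512)]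
noncomputable def e45_10 : List Rx := [
  Rx.mk (nat_lit 204) (nat_lit 4) (nat_lit 1) (nat_lit 3) (nat_lit 6) (nat_lit 240) (nat_lit 304) r1_240 r6_304 (nat_lit 861113) (nat_lit 0) (nat_lit 0) (nat_lit 0x81f140aa4) (nat_lit 508285625),
  Rx.mk (nat_lit 460) (nat_lit 4) (nat_lit 1) (nat_lit 7) (nat_lit 6) (nat_lit 241) (nat_lit 305) r1_241 r6_305 (nat_lit 15511582) (nat_lit 0) (nat_lit 0) (nat_lit 0x81bcd1ade) (nat_lit 526733344)]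
noncomputable def e45_11 : List Rx := [
  Rx.mk (nat_lit 460) (nat_lit 4) (nat_lit 1) (nat_lit 7) (nat_lit 6) (nat_lit 242) (nat_lit 268) r1_242 r5_268 (nat_lit 100423417) (nat_lit 0) (nat_lit 0) (nat_lit 0x83d8b6e82) (nat_lit 579086629),
  Rx.mk (nat_lit 492) (nat_lit 4) (nat_lit 5) (nat_lit 7) (nat_lit 6) (nat_lit 243) (nat_lit 267) r1_243 r5_267 (nat_lit 91702614) (nat_lit 0) (nat_lit 0) (nat_lit 0x80aaf72a6) (nat_lit 619301176)]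
noncomputable def e45_12 : List Rx := [
  Rx.mk (nat_lit 13) (nat_lit 5) (nat_lit 1) (nat_lit 0) (nat_lit 3) (nat_lit 255) (nat_lit 173) r1_255 r0_173 (nat_lit 0) (nat_lit 0) (nat_lit 106862022) (nat_lit 0x7ee0fa15c) (nat_lit 662779834)]
noncomputable def e45_13 : List Rx := [
  Rx.mk (nat_lit 13) (nat_lit 5) (nat_lit 1) (nat_lit 0) (nat_lit 3) (nat_lit 256) (nat_lit 397) r1_256 r7_397 (nat_lit 0) (nat_lit 0) (nat_lit 24741287) (nat_lit 0x8017985b4) (nat_lit 561612199),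
  Rx.mk (nat_lit 77) (nat_lit 5) (nat_lit 1) (nat_lit 1) (nat_lit 7) (nat_lit 257) (nat_lit 398) r1_257 r7_398 (nat_lit 0) (nat_lit 0) (nat_lit 0) (nat_lit 0x8017985b4) (nat_lit 536870912)]
noncomputable def e45_14 : List Rx := [
  Rx.mk (nat_lit 9) (nat_lit 1) (nat_lit 1) (nat_lit 0) (nat_lit 3) (nat_lit 272) (nat_lit 186) r1_272 r1_186 (nat_lit 0) (nat_lit 0) (nat_lit 25191095) (nat_lit 0x7f94f86e0) (nat_lit 570102157),
  Rx.mk (nat_lit 13) (nat_lit 5) (nat_lit 1) (nat_lit 0) (nat_lit 3) (nat_lit 273) (nat_lit 185) r1_273 r1_185 (nat_lit 0) (nat_lit 0) (nat_lit 27314648) (nat_lit 0x7fc62ebb0) (nat_lit 569113310)]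
noncomputable def e45_15 : List Rx := [
  Rx.mk (nat_lit 9) (nat_lit 1) (nat_lit 1) (nat_lit 0) (nat_lit 3) (nat_lit 274) (nat_lit 316) r1_274 r8_316 (nat_lit 0) (nat_lit 0) (nat_lit 24586055) (nat_lit 0x80057ba20) (nat_lit 562565917),
  Rx.mk (nat_lit 13) (nat_lit 5) (nat_lit 1) (nat_lit 0) (nat_lit 3) (nat_lit 276) (nat_lit 318) r1_276 r8_318 (nat_lit 0) (nat_lit 0) (nat_lit 24741287) (nat_lit 0x8017985b4) (nat_lit 561612199),
  Rx.mk (nat_lit 73) (nat_lit 1) (nat_lit 1) (nat_lit 1) (nat_lit 7) (nat_lit 275) (nat_lit 317) r1_275 r8_317 (nat_lit 0) (nat_lit 0) (nat_lit 0) (nat_lit 0x8017985b4) (nat_lit 536870912),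
  Rx.mk (nat_lit 77) (nat_lit 5) (nat_lit 1) (nat_lit 1) (nat_lit 7) (nat_lit 277) (nat_lit 319) r1_277 r8_319 (nat_lit 0) (nat_lit 0) (nat_lit 0) (nat_lit 0x8017985b4) (nat_lit 536870912)]
noncomputable def e45_16 : List Rx := [
  Rx.mk (nat_lit 77) (nat_lit 5) (nat_lit 1) (nat_lit 1) (nat_lit 7) (nat_lit 286) (nat_lit 180) r1_286 r8_180 (nat_lit 0) (nat_lit 0) (nat_lit 0) (nat_lit 0x8017985b4) (nat_lit 536870912)]
noncomputable def e45_17 : List Rx := [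
  Rx.mk (nat_lit 77) (nat_lit 5) (nat_lit 1) (nat_lit 1) (nat_lit 7) (nat_lit 287) (nat_lit 290) r1_287 r9_290 (nat_lit 0) (nat_lit 0) (nat_lit 0) (nat_lit 0x8017985b4) (nat_lit 536870912),
  Rx.mk (nat_lit 333) (nat_lit 5) (nat_lit 1) (nat_lit 5) (nat_lit 7) (nat_lit 288) (nat_lit 291) r1_288 r9_291 (nat_lit 0) (nat_lit 0) (nat_lit 0) (nat_lit 0x8017985b4) (nat_lit 536870912),
  Rx.mk (nat_lit 365) (nat_lit 5) (nat_lit 5) (nat_lit 5) (nat_lit 7) (nat_lit 289) (nat_lit 292) r1_289 r9_292 (nat_lit 0) (nat_lit 0) (nat_lit 0) (nat_lit 0x8017985b4) (nat_lit 536870912)]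
noncomputable def e45_18 : List Rx := [
  Rx.mk (nat_lit 13) (nat_lit 5) (nat_lit 1) (nat_lit 0) (nat_lit 3) (nat_lit 305) (nat_lit 159) r1_305 r4_159 (nat_lit 0) (nat_lit 0) (nat_lit 25741495) (nat_lit 0x7f774491e) (nat_lit 572424907),
  Rx.mk (nat_lit 205) (nat_lit 5) (nat_lit 1) (nat_lit 3) (nat_lit 7) (nat_lit 306) (nat_lit 160) r1_306 r4_160 (nat_lit 0) (nat_lit 0) (nat_lit 0) (nat_lit 0x80964275c) (nat_lit 529102962)]
noncomputable def e45_19 : List Rx := [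
  Rx.mk (nat_lit 13) (nat_lit 5) (nat_lit 1) (nat_lit 0) (nat_lit 3) (nat_lit 307) (nat_lit 320) r1_307 r10_320 (nat_lit 0) (nat_lit 0) (nat_lit 24741287) (nat_lit 0x8017985b4) (nat_lit 561612199),
  Rx.mk (nat_lit 77) (nat_lit 5) (nat_lit 1) (nat_lit 1) (nat_lit 7) (nat_lit 308) (nat_lit 321) r1_308 r10_321 (nat_lit 0) (nat_lit 0) (nat_lit 0) (nat_lit 0x8017985b4) (nat_lit 536870912),
  Rx.mk (nat_lit 205) (nat_lit 5) (nat_lit 1) (nat_lit 3) (nat_lit 7) (nat_lit 309) (nat_lit 322) r1_309 r10_322 (nat_lit 0) (nat_lit 0) (nat_lit 0) (nat_lit 0x8017985b4) (nat_lit 536870912)]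
noncomputable def e45_20 : List Rx := [
  Rx.mk (nat_lit 205) (nat_lit 5) (nat_lit 1) (nat_lit 3) (nat_lit 7) (nat_lit 310) (nat_lit 338) r1_310 r11_338 (nat_lit 0) (nat_lit 0) (nat_lit 0) (nat_lit 0x8017985b4) (nat_lit 536870912)]
noncomputable def e45_21 : List Rx := [
  Rx.mk (nat_lit 364) (nat_lit 4) (nat_lit 5) (nat_lit 5) (nat_lit 6) (nat_lit 290) (nat_lit 286) r1_290 r9_286 (nat_lit 24741287) (nat_lit 0) (nat_lit 0) (nat_lit 0x7fa9dd1b4) (nat_lit 568325299),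
  Rx.mk (nat_lit 365) (nat_lit 5) (nat_lit 5) (nat_lit 5) (nat_lit 7) (nat_lit 291) (nat_lit 287) r1_291 r9_287 (nat_lit 0) (nat_lit 0) (nat_lit 0) (nat_lit 0x8017985b4) (nat_lit 536870912),
  Rx.mk (nat_lit 366) (nat_lit 6) (nat_lit 5) (nat_lit 5) (nat_lit 7) (nat_lit 292) (nat_lit 288) r1_292 r9_288 (nat_lit 0) (nat_lit 0) (nat_lit 0) (nat_lit 0x8017985b4) (nat_lit 536870912)]
noncomputable def e45_22 : List Rx := [
  Rx.mk (nat_lit 302) (nat_lit 6) (nat_lit 5) (nat_lit 4) (nat_lit 3) (nat_lit 70) (nat_lit 75) r1_70 r0_75 (nat_lit 0) (nat_lit 0) (nat_lit 11807158) (nat_lit 0x7ffe24146) (nat_lit 550115770),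
  Rx.mk (nat_lit 492) (nat_lit 4) (nat_lit 5) (nat_lit 7) (nat_lit 6) (nat_lit 69) (nat_lit 76) r1_69 r0_76 (nat_lit 21882932) (nat_lit 0) (nat_lit 0) (nat_lit 0x7e18dc364) (nat_lit 590459594),
  Rx.mk (nat_lit 494) (nat_lit 6) (nat_lit 5) (nat_lit 7) (nat_lit 7) (nat_lit 71) (nat_lit 78) r1_71 r0_78 (nat_lit 0) (nat_lit 0) (nat_lit 0) (nat_lit 0x8272ee83a) (nat_lit 500330612),
  Rx.mk (nat_lit 495) (nat_lit 7) (nat_lit 5) (nat_lit 7) (nat_lit 7) (nat_lit 72) (nat_lit 77) r1_72 r0_77 (nat_lit 0) (nat_lit 0) (nat_lit 0) (nat_lit 0x8008dd830) (nat_lit 537772712)]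
noncomputable def e45_23 : List Rx := [
  Rx.mk (nat_lit 294) (nat_lit 6) (nat_lit 4) (nat_lit 4) (nat_lit 1) (nat_lit 75) (nat_lit 73) r1_75 r1_73 (nat_lit 0) (nat_lit 15490975) (nat_lit 31186734) (nat_lit 0x737c3593e) (nat_lit 786645371),
  Rx.mk (nat_lit 302) (nat_lit 6) (nat_lit 5) (nat_lit 4) (nat_lit 3) (nat_lit 76) (nat_lit 74) r1_76 r1_74 (nat_lit 0) (nat_lit 0) (nat_lit 21613846) (nat_lit 0x803338576) (nat_lit 556779258),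
  Rx.mk (nat_lit 422) (nat_lit 6) (nat_lit 4) (nat_lit 6) (nat_lit 5) (nat_lit 77) (nat_lit 82) r1_77 r1_82 (nat_lit 0) (nat_lit 24482746) (nat_lit 0) (nat_lit 0x7fe0acf14) (nat_lit 564715758),
  Rx.mk (nat_lit 430) (nat_lit 6) (nat_lit 5) (nat_lit 6) (nat_lit 7) (nat_lit 78) (nat_lit 83) r1_78 r1_83 (nat_lit 0) (nat_lit 0) (nat_lit 0) (nat_lit 0x8017985b4) (nat_lit 536870912),
  Rx.mk (nat_lit 438) (nat_lit 6) (nat_lit 6) (nat_lit 6) (nat_lit 7) (nat_lit 79) (nat_lit 84) r1_79 r1_84 (nat_lit 0) (nat_lit 0) (nat_lit 0) (nat_lit 0x8017985b4) (nat_lit 536870912),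
  Rx.mk (nat_lit 484) (nat_lit 4) (nat_lit 4) (nat_lit 7) (nat_lit 4) (nat_lit 73) (nat_lit 75) r1_73 r1_75 (nat_lit 31186734) (nat_lit 15490975) (nat_lit 0) (nat_lit 0x737c3593e) (nat_lit 786645371),
  Rx.mk (nat_lit 486) (nat_lit 6) (nat_lit 4) (nat_lit 7) (nat_lit 5) (nat_lit 80) (nat_lit 80) r1_80 r1_80 (nat_lit 0) (nat_lit 11124082) (nat_lit 0) (nat_lit 0x80f4f92b4) (nat_lit 534436844),
  Rx.mk (nat_lit 487) (nat_lit 7) (nat_lit 4) (nat_lit 7) (nat_lit 5) (nat_lit 82) (nat_lit 77) r1_82 r1_77 (nat_lit 0) (nat_lit 24482746) (nat_lit 0) (nat_lit 0x7fe0acf14) (nat_lit 564715758),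
  Rx.mk (nat_lit 492) (nat_lit 4) (nat_lit 5) (nat_lit 7) (nat_lit 6) (nat_lit 74) (nat_lit 76) r1_74 r1_76 (nat_lit 21613846) (nat_lit 0) (nat_lit 0) (nat_lit 0x803338576) (nat_lit 556779258),
  Rx.mk (nat_lit 494) (nat_lit 6) (nat_lit 5) (nat_lit 7) (nat_lit 7) (nat_lit 81) (nat_lit 81) r1_81 r1_81 (nat_lit 0) (nat_lit 0) (nat_lit 0) (nat_lit 0x808fc0672) (nat_lit 529500412),
  Rx.mk (nat_lit 495) (nat_lit 7) (nat_lit 5) (nat_lit 7) (nat_lit 7) (nat_lit 83) (nat_lit 78) r1_83 r1_78 (nat_lit 0) (nat_lit 0) (nat_lit 0) (nat_lit 0x8017985b4) (nat_lit 536870912),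
  Rx.mk (nat_lit 511) (nat_lit 7) (nat_lit 7) (nat_lit 7) (nat_lit 7) (nat_lit 84) (nat_lit 79) r1_84 r1_79 (nat_lit 0) (nat_lit 0) (nat_lit 0) (nat_lit 0x8017985b4) (nat_lit 536870912)]
noncomputable def e45_24 : List Rx := [
  Rx.mk (nat_lit 492) (nat_lit 4) (nat_lit 5) (nat_lit 7) (nat_lit 6) (nat_lit 85) (nat_lit 71) r1_85 r4_71 (nat_lit 18076853) (nat_lit 0) (nat_lit 0) (nat_lit 0x7feb22318) (nat_lit 557573915),
  Rx.mk (nat_lit 494) (nat_lit 6) (nat_lit 5) (nat_lit 7) (nat_lit 7) (nat_lit 86) (nat_lit 73) r1_86 r4_73 (nat_lit 0) (nat_lit 0) (nat_lit 0) (nat_lit 0x8445fa28c) (nat_lit 472429712),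
  Rx.mk (nat_lit 495) (nat_lit 7) (nat_lit 5) (nat_lit 7) (nat_lit 7) (nat_lit 87) (nat_lit 72) r1_87 r4_72 (nat_lit 0) (nat_lit 0) (nat_lit 0) (nat_lit 0x8017985b4) (nat_lit 536870912)]
noncomputable def e45_25 : List Rx := [
  Rx.mk (nat_lit 300) (nat_lit 4) (nat_lit 5) (nat_lit 4) (nat_lit 2) (nat_lit 192) (nat_lit 381) r1_192 r7_381 (nat_lit 25112477) (nat_lit 0) (nat_lit 16757287) (nat_lit 0x6c3762d4a) (nat_lit 899304226),
  Rx.mk (nat_lit 302) (nat_lit 6) (nat_lit 5) (nat_lit 4) (nat_lit 3) (nat_lit 195) (nat_lit 385) r1_195 r7_385 (nat_lit 0) (nat_lit 0) (nat_lit 19851321) (nat_lit 0x80224bf92) (nat_lit 556043533),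
  Rx.mk (nat_lit 364) (nat_lit 4) (nat_lit 5) (nat_lit 5) (nat_lit 6) (nat_lit 193) (nat_lit 382) r1_193 r7_382 (nat_lit 25314926) (nat_lit 0) (nat_lit 0) (nat_lit 0x7f9e34eca) (nat_lit 569620288),
  Rx.mk (nat_lit 366) (nat_lit 6) (nat_lit 5) (nat_lit 5) (nat_lit 7) (nat_lit 196) (nat_lit 386) r1_196 r7_386 (nat_lit 0) (nat_lit 0) (nat_lit 0) (nat_lit 0x8017985b4) (nat_lit 536870912),
  Rx.mk (nat_lit 492) (nat_lit 4) (nat_lit 5) (nat_lit 7) (nat_lit 6) (nat_lit 194) (nat_lit 383) r1_194 r7_383 (nat_lit 30395325) (nat_lit 0) (nat_lit 0) (nat_lit 0x809096c2c) (nat_lit 559824137),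
  Rx.mk (nat_lit 494) (nat_lit 6) (nat_lit 5) (nat_lit 7) (nat_lit 7) (nat_lit 197) (nat_lit 387) r1_197 r7_387 (nat_lit 0) (nat_lit 0) (nat_lit 0) (nat_lit 0x8017985b4) (nat_lit 536870912),
  Rx.mk (nat_lit 495) (nat_lit 7) (nat_lit 5) (nat_lit 7) (nat_lit 7) (nat_lit 198) (nat_lit 384) r1_198 r7_384 (nat_lit 0) (nat_lit 0) (nat_lit 0) (nat_lit 0x8018dbc28) (nat_lit 536671062)]
noncomputable def e45_26 : List Rx := [
  Rx.mk (nat_lit 292) (nat_lit 4) (nat_lit 4) (nat_lit 4) (nat_lit 0) (nat_lit 201) (nat_lit 283) r1_201 r8_283 (nat_lit 34852659) (nat_lit 11826643) (nat_lit 20700425) (nat_lit 0x3dc59600a) (nat_lit 1675850589),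
  Rx.mk (nat_lit 294) (nat_lit 6) (nat_lit 4) (nat_lit 4) (nat_lit 1) (nat_lit 206) (nat_lit 286) r1_206 r8_286 (nat_lit 0) (nat_lit 31654428) (nat_lit 33972801) (nat_lit 0x6c187865a) (nat_lit 925088641),
  Rx.mk (nat_lit 300) (nat_lit 4) (nat_lit 5) (nat_lit 4) (nat_lit 2) (nat_lit 202) (nat_lit 289) r1_202 r8_289 (nat_lit 29801349) (nat_lit 0) (nat_lit 32376877) (nat_lit 0x669a3f496) (nat_lit 1010443188),
  Rx.mk (nat_lit 302) (nat_lit 6) (nat_lit 5) (nat_lit 4) (nat_lit 3) (nat_lit 207) (nat_lit 293) r1_207 r8_293 (nat_lit 0) (nat_lit 0) (nat_lit 25834482) (nat_lit 0x7f77d0d42) (nat_lit 572534144),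
  Rx.mk (nat_lit 364) (nat_lit 4) (nat_lit 5) (nat_lit 5) (nat_lit 6) (nat_lit 203) (nat_lit 290) r1_203 r8_290 (nat_lit 25018304) (nat_lit 0) (nat_lit 0) (nat_lit 0x7fdcdbf2a) (nat_lit 565476766),
  Rx.mk (nat_lit 366) (nat_lit 6) (nat_lit 5) (nat_lit 5) (nat_lit 7) (nat_lit 208) (nat_lit 294) r1_208 r8_294 (nat_lit 0) (nat_lit 0) (nat_lit 0) (nat_lit 0x8017985b4) (nat_lit 536870912),
  Rx.mk (nat_lit 422) (nat_lit 6) (nat_lit 4) (nat_lit 6) (nat_lit 5) (nat_lit 209) (nat_lit 288) r1_209 r8_288 (nat_lit 0) (nat_lit 24741287) (nat_lit 0) (nat_lit 0x8017985b4) (nat_lit 561612199),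
  Rx.mk (nat_lit 430) (nat_lit 6) (nat_lit 5) (nat_lit 6) (nat_lit 7) (nat_lit 210) (nat_lit 296) r1_210 r8_296 (nat_lit 0) (nat_lit 0) (nat_lit 0) (nat_lit 0x8017985b4) (nat_lit 536870912),
  Rx.mk (nat_lit 438) (nat_lit 6) (nat_lit 6) (nat_lit 6) (nat_lit 7) (nat_lit 211) (nat_lit 298) r1_211 r8_298 (nat_lit 0) (nat_lit 0) (nat_lit 0) (nat_lit 0x8017985b4) (nat_lit 536870912),
  Rx.mk (nat_lit 484) (nat_lit 4) (nat_lit 4) (nat_lit 7) (nat_lit 4) (nat_lit 204) (nat_lit 284) r1_204 r8_284 (nat_lit 57475971) (nat_lit 26799246) (nat_lit 0) (nat_lit 0x672d75b5c) (nat_lit 1023262029),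
  Rx.mk (nat_lit 486) (nat_lit 6) (nat_lit 4) (nat_lit 7) (nat_lit 5) (nat_lit 212) (nat_lit 287) r1_212 r8_287 (nat_lit 0) (nat_lit 24741287) (nat_lit 0) (nat_lit 0x8017985b4) (nat_lit 561612199),
  Rx.mk (nat_lit 487) (nat_lit 7) (nat_lit 4) (nat_lit 7) (nat_lit 5) (nat_lit 214) (nat_lit 285) r1_214 r8_285 (nat_lit 0) (nat_lit 25082552) (nat_lit 0) (nat_lit 0x71434a6d0) (nat_lit 800991214),
  Rx.mk (nat_lit 492) (nat_lit 4) (nat_lit 5) (nat_lit 7) (nat_lit 6) (nat_lit 205) (nat_lit 291) r1_205 r8_291 (nat_lit 25047671) (nat_lit 0) (nat_lit 0) (nat_lit 0x804337652) (nat_lit 559218933),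
  Rx.mk (nat_lit 494) (nat_lit 6) (nat_lit 5) (nat_lit 7) (nat_lit 7) (nat_lit 213) (nat_lit 295) r1_213 r8_295 (nat_lit 0) (nat_lit 0) (nat_lit 0) (nat_lit 0x8017985b4) (nat_lit 536870912),
  Rx.mk (nat_lit 495) (nat_lit 7) (nat_lit 5) (nat_lit 7) (nat_lit 7) (nat_lit 215) (nat_lit 292) r1_215 r8_292 (nat_lit 0) (nat_lit 0) (nat_lit 0) (nat_lit 0x808e1a7dc) (nat_lit 529571662),
  Rx.mk (nat_lit 511) (nat_lit 7) (nat_lit 7) (nat_lit 7) (nat_lit 7) (nat_lit 216) (nat_lit 297) r1_216 r8_297 (nat_lit 0) (nat_lit 0) (nat_lit 0) (nat_lit 0x7ed9578a0) (nat_lit 556568262)]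
noncomputable def e45_27 : List Rx := [
  Rx.mk (nat_lit 364) (nat_lit 4) (nat_lit 5) (nat_lit 5) (nat_lit 6) (nat_lit 199) (nat_lit 66) r1_199 r8_66 (nat_lit 24741287) (nat_lit 0) (nat_lit 0) (nat_lit 0x8001ac32c) (nat_lit 562953699),
  Rx.mk (nat_lit 366) (nat_lit 6) (nat_lit 5) (nat_lit 5) (nat_lit 7) (nat_lit 200) (nat_lit 67) r1_200 r8_67 (nat_lit 0) (nat_lit 0) (nat_lit 0) (nat_lit 0x8017985b4) (nat_lit 536870912)]
noncomputable def e45_28 : List Rx := [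
  Rx.mk (nat_lit 492) (nat_lit 4) (nat_lit 5) (nat_lit 7) (nat_lit 6) (nat_lit 217) (nat_lit 314) r1_217 r10_314 (nat_lit 25153554) (nat_lit 0) (nat_lit 0) (nat_lit 0x80e8b8eaa) (nat_lit 549278466),
  Rx.mk (nat_lit 494) (nat_lit 6) (nat_lit 5) (nat_lit 7) (nat_lit 7) (nat_lit 218) (nat_lit 316) r1_218 r10_316 (nat_lit 0) (nat_lit 0) (nat_lit 0) (nat_lit 0x8017985b4) (nat_lit 536870912),
  Rx.mk (nat_lit 495) (nat_lit 7) (nat_lit 5) (nat_lit 7) (nat_lit 7) (nat_lit 219) (nat_lit 315) r1_219 r10_315 (nat_lit 0) (nat_lit 0) (nat_lit 0) (nat_lit 0x81b14ef04) (nat_lit 511970262)]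
noncomputable def e45_29 : List Rx := [
  Rx.mk (nat_lit 492) (nat_lit 4) (nat_lit 5) (nat_lit 7) (nat_lit 6) (nat_lit 244) (nat_lit 333) r1_244 r11_333 (nat_lit 16971006) (nat_lit 0) (nat_lit 0) (nat_lit 0x8058c13c4) (nat_lit 549817368),
  Rx.mk (nat_lit 494) (nat_lit 6) (nat_lit 5) (nat_lit 7) (nat_lit 7) (nat_lit 245) (nat_lit 334) r1_245 r11_334 (nat_lit 0) (nat_lit 0) (nat_lit 0) (nat_lit 0x814704da6) (nat_lit 518377612)]
noncomputable def e45_30 : List Rx := [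
  Rx.mk (nat_lit 12) (nat_lit 4) (nat_lit 1) (nat_lit 0) (nat_lit 2) (nat_lit 311) (nat_lit 164) r1_311 r5_164 (nat_lit 14978700) (nat_lit 0) (nat_lit 8816353) (nat_lit 0x6ec49af3a) (nat_lit 839845015),
  Rx.mk (nat_lit 13) (nat_lit 5) (nat_lit 1) (nat_lit 0) (nat_lit 3) (nat_lit 313) (nat_lit 165) r1_313 r5_165 (nat_lit 0) (nat_lit 0) (nat_lit 20314026) (nat_lit 0x80db604a6) (nat_lit 545190438),
  Rx.mk (nat_lit 15) (nat_lit 7) (nat_lit 1) (nat_lit 0) (nat_lit 3) (nat_lit 315) (nat_lit 166) r1_315 r5_166 (nat_lit 0) (nat_lit 0) (nat_lit 6296235) (nat_lit 0x7df201f0a) (nat_lit 577066447),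
  Rx.mk (nat_lit 204) (nat_lit 4) (nat_lit 1) (nat_lit 3) (nat_lit 6) (nat_lit 312) (nat_lit 167) r1_312 r5_167 (nat_lit 20400359) (nat_lit 0) (nat_lit 0) (nat_lit 0x8039ecd5e) (nat_lit 555033421),
  Rx.mk (nat_lit 205) (nat_lit 5) (nat_lit 1) (nat_lit 3) (nat_lit 7) (nat_lit 314) (nat_lit 168) r1_314 r5_168 (nat_lit 0) (nat_lit 0) (nat_lit 0) (nat_lit 0x8095f8012) (nat_lit 529083662)]
noncomputable def e45_31 : List Rx := [
  Rx.mk (nat_lit 12) (nat_lit 4) (nat_lit 1) (nat_lit 0) (nat_lit 2) (nat_lit 316) (nat_lit 183) r1_316 r11_183 (nat_lit 115272517) (nat_lit 0) (nat_lit 31169867) (nat_lit 0x729ca1386) (nat_lit 900542746),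
  Rx.mk (nat_lit 13) (nat_lit 5) (nat_lit 1) (nat_lit 0) (nat_lit 3) (nat_lit 319) (nat_lit 184) r1_319 r11_184 (nat_lit 0) (nat_lit 0) (nat_lit 24741287) (nat_lit 0x8017985b4) (nat_lit 561612199),
  Rx.mk (nat_lit 15) (nat_lit 7) (nat_lit 1) (nat_lit 0) (nat_lit 3) (nat_lit 322) (nat_lit 185) r1_322 r11_185 (nat_lit 0) (nat_lit 0) (nat_lit 24741287) (nat_lit 0x8017985b4) (nat_lit 561612199),
  Rx.mk (nat_lit 76) (nat_lit 4) (nat_lit 1) (nat_lit 1) (nat_lit 6) (nat_lit 317) (nat_lit 186) r1_317 r11_186 (nat_lit 39197522) (nat_lit 0) (nat_lit 0) (nat_lit 0x7db914fa8) (nat_lit 613796734),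
  Rx.mk (nat_lit 77) (nat_lit 5) (nat_lit 1) (nat_lit 1) (nat_lit 7) (nat_lit 320) (nat_lit 187) r1_320 r11_187 (nat_lit 0) (nat_lit 0) (nat_lit 0) (nat_lit 0x8017985b4) (nat_lit 536870912),
  Rx.mk (nat_lit 79) (nat_lit 7) (nat_lit 1) (nat_lit 1) (nat_lit 7) (nat_lit 323) (nat_lit 188) r1_323 r11_188 (nat_lit 0) (nat_lit 0) (nat_lit 0) (nat_lit 0x81759db22) (nat_lit 515567712),
  Rx.mk (nat_lit 204) (nat_lit 4) (nat_lit 1) (nat_lit 3) (nat_lit 6) (nat_lit 318) (nat_lit 189) r1_318 r11_189 (nat_lit 24741287) (nat_lit 0) (nat_lit 0) (nat_lit 0x8017985b4) (nat_lit 561612199),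
  Rx.mk (nat_lit 205) (nat_lit 5) (nat_lit 1) (nat_lit 3) (nat_lit 7) (nat_lit 321) (nat_lit 190) r1_321 r11_190 (nat_lit 0) (nat_lit 0) (nat_lit 0) (nat_lit 0x8017985b4) (nat_lit 536870912)]
noncomputable def e45_32 : List Rx := [
  Rx.mk (nat_lit 207) (nat_lit 7) (nat_lit 1) (nat_lit 3) (nat_lit 7) (nat_lit 89) (nat_lit 9) r1_89 r6_9 (nat_lit 0) (nat_lit 0) (nat_lit 0) (nat_lit 0x8954d7890) (nat_lit 395152462),
  Rx.mk (nat_lit 460) (nat_lit 4) (nat_lit 1) (nat_lit 7) (nat_lit 6) (nat_lit 88) (nat_lit 7) r1_88 r6_7 (nat_lit 14248724) (nat_lit 0) (nat_lit 0) (nat_lit 0x80a26753c) (nat_lit 542542486),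
  Rx.mk (nat_lit 463) (nat_lit 7) (nat_lit 1) (nat_lit 7) (nat_lit 7) (nat_lit 90) (nat_lit 8) r1_90 r6_8 (nat_lit 0) (nat_lit 0) (nat_lit 0) (nat_lit 0x80add07a2) (nat_lit 527662962)]
noncomputable def e45_33 : List Rx := [
  Rx.mk (nat_lit 460) (nat_lit 4) (nat_lit 1) (nat_lit 7) (nat_lit 6) (nat_lit 91) (nat_lit 63) r1_91 r5_63 (nat_lit 3579826) (nat_lit 0) (nat_lit 0) (nat_lit 0x811e759ee) (nat_lit 524029388),
  Rx.mk (nat_lit 463) (nat_lit 7) (nat_lit 1) (nat_lit 7) (nat_lit 7) (nat_lit 92) (nat_lit 64) r1_92 r5_64 (nat_lit 0) (nat_lit 0) (nat_lit 0) (nat_lit 0x79fc7a418) (nat_lit 634642712),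
  Rx.mk (nat_lit 495) (nat_lit 7) (nat_lit 5) (nat_lit 7) (nat_lit 7) (nat_lit 93) (nat_lit 65) r1_93 r5_65 (nat_lit 0) (nat_lit 0) (nat_lit 0) (nat_lit 0x7fd333eb4) (nat_lit 540973512)]
noncomputable def e45_34 : List Rx := [
  Rx.mk (nat_lit 268) (nat_lit 4) (nat_lit 1) (nat_lit 4) (nat_lit 2) (nat_lit 220) (nat_lit 41) r1_220 r11_41 (nat_lit 132640855) (nat_lit 0) (nat_lit 107908680) (nat_lit 0x75cd0e8fe) (nat_lit 943069347),
  Rx.mk (nat_lit 332) (nat_lit 4) (nat_lit 1) (nat_lit 5) (nat_lit 6) (nat_lit 221) (nat_lit 42) r1_221 r11_42 (nat_lit 24741287) (nat_lit 0) (nat_lit 0) (nat_lit 0x80394da56) (nat_lit 559537749),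
  Rx.mk (nat_lit 460) (nat_lit 4) (nat_lit 1) (nat_lit 7) (nat_lit 6) (nat_lit 222) (nat_lit 43) r1_222 r11_43 (nat_lit 27280081) (nat_lit 0) (nat_lit 0) (nat_lit 0x7ff4c6252) (nat_lit 566171843),
  Rx.mk (nat_lit 463) (nat_lit 7) (nat_lit 1) (nat_lit 7) (nat_lit 7) (nat_lit 223) (nat_lit 44) r1_223 r11_44 (nat_lit 0) (nat_lit 0) (nat_lit 0) (nat_lit 0x814af5f1e) (nat_lit 518142212),
  Rx.mk (nat_lit 495) (nat_lit 7) (nat_lit 5) (nat_lit 7) (nat_lit 7) (nat_lit 224) (nat_lit 45) r1_224 r11_45 (nat_lit 0) (nat_lit 0) (nat_lit 0) (nat_lit 0x808a832cc) (nat_lit 529822112)]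
noncomputable def e45_35 : List Rx := [
  Rx.mk (nat_lit 15) (nat_lit 7) (nat_lit 1) (nat_lit 0) (nat_lit 3) (nat_lit 247) (nat_lit 116) r1_247 r6_116 (nat_lit 0) (nat_lit 0) (nat_lit 2146916) (nat_lit 0x832861f50) (nat_lit 491234428),
  Rx.mk (nat_lit 204) (nat_lit 4) (nat_lit 1) (nat_lit 3) (nat_lit 6) (nat_lit 246) (nat_lit 117) r1_246 r6_117 (nat_lit 4579048) (nat_lit 0) (nat_lit 0) (nat_lit 0x829e4386e) (nat_lit 502034860),
  Rx.mk (nat_lit 207) (nat_lit 7) (nat_lit 1) (nat_lit 3) (nat_lit 7) (nat_lit 248) (nat_lit 118) r1_248 r6_118 (nat_lit 0) (nat_lit 0) (nat_lit 0) (nat_lit 0x80c3cc614) (nat_lit 526329562)]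
noncomputable def e45_36 : List Rx := [
  Rx.mk (nat_lit 204) (nat_lit 4) (nat_lit 1) (nat_lit 3) (nat_lit 6) (nat_lit 249) (nat_lit 364) r1_249 r12_364 (nat_lit 188525) (nat_lit 0) (nat_lit 0) (nat_lit 0x82e82ffae) (nat_lit 492764987),
  Rx.mk (nat_lit 207) (nat_lit 7) (nat_lit 1) (nat_lit 3) (nat_lit 7) (nat_lit 251) (nat_lit 366) r1_251 r12_366 (nat_lit 0) (nat_lit 0) (nat_lit 0) (nat_lit 0x8ee42ae52) (nat_lit 310307562),
  Rx.mk (nat_lit 460) (nat_lit 4) (nat_lit 1) (nat_lit 7) (nat_lit 6) (nat_lit 250) (nat_lit 365) r1_250 r12_365 (nat_lit 20432270) (nat_lit 0) (nat_lit 0) (nat_lit 0x807054a04) (nat_lit 551662282)]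
noncomputable def e45_37 : List Rx := [
  Rx.mk (nat_lit 3) (nat_lit 3) (nat_lit 0) (nat_lit 0) (nat_lit 1) (nat_lit 2) (nat_lit 23) r1_2 r0_23 (nat_lit 0) (nat_lit 3151689) (nat_lit 5604383) (nat_lit 0x6d7564e26) (nat_lit 845928484),
  Rx.mk (nat_lit 19) (nat_lit 3) (nat_lit 2) (nat_lit 0) (nat_lit 3) (nat_lit 3) (nat_lit 24) r1_3 r0_24 (nat_lit 0) (nat_lit 0) (nat_lit 22794505) (nat_lit 0x7f395dd58) (nat_lit 573339467),
  Rx.mk (nat_lit 144) (nat_lit 0) (nat_lit 2) (nat_lit 2) (nat_lit 6) (nat_lit 0) (nat_lit 22) r1_0 r0_22 (nat_lit 23596477) (nat_lit 0) (nat_lit 0) (nat_lit 0x69c6e3bc0) (nat_lit 920472039),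
  Rx.mk (nat_lit 146) (nat_lit 2) (nat_lit 2) (nat_lit 2) (nat_lit 7) (nat_lit 1) (nat_lit 29) r1_1 r0_29 (nat_lit 0) (nat_lit 0) (nat_lit 0) (nat_lit 0x807eeb3e2) (nat_lit 530392612),
  Rx.mk (nat_lit 147) (nat_lit 3) (nat_lit 2) (nat_lit 2) (nat_lit 7) (nat_lit 4) (nat_lit 28) r1_4 r0_28 (nat_lit 0) (nat_lit 0) (nat_lit 0) (nat_lit 0x87136526a) (nat_lit 429577662),
  Rx.mk (nat_lit 195) (nat_lit 3) (nat_lit 0) (nat_lit 3) (nat_lit 5) (nat_lit 5) (nat_lit 25) r1_5 r0_25 (nat_lit 0) (nat_lit 8756247) (nat_lit 0) (nat_lit 0x7bbb71c80) (nat_lit 615374609),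
  Rx.mk (nat_lit 211) (nat_lit 3) (nat_lit 2) (nat_lit 3) (nat_lit 7) (nat_lit 6) (nat_lit 27) r1_6 r0_27 (nat_lit 0) (nat_lit 0) (nat_lit 0) (nat_lit 0x80362d196) (nat_lit 534989612),
  Rx.mk (nat_lit 219) (nat_lit 3) (nat_lit 3) (nat_lit 3) (nat_lit 7) (nat_lit 7) (nat_lit 26) r1_7 r0_26 (nat_lit 0) (nat_lit 0) (nat_lit 0) (nat_lit 0x801bfa5bc) (nat_lit 536589212),
  Rx.mk (nat_lit 223) (nat_lit 7) (nat_lit 3) (nat_lit 3) (nat_lit 7) (nat_lit 8) (nat_lit 21) r1_8 r0_21 (nat_lit 0) (nat_lit 0) (nat_lit 0) (nat_lit 0x807414446) (nat_lit 531187112),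
  Rx.mk (nat_lit 479) (nat_lit 7) (nat_lit 3) (nat_lit 7) (nat_lit 7) (nat_lit 9) (nat_lit 20) r1_9 r0_20 (nat_lit 0) (nat_lit 0) (nat_lit 0) (nat_lit 0x802da032a) (nat_lit 535514012)]
noncomputable def e45_38 : List Rx := [
  Rx.mk (nat_lit 0) (nat_lit 0) (nat_lit 0) (nat_lit 0) (nat_lit 0) (nat_lit 94) (nat_lit 111) r1_94 r0_111 (nat_lit 15924) (nat_lit 15478) (nat_lit 704331784) (nat_lit 0x7ffceaa5a) (nat_lit 1241434748),
  Rx.mk (nat_lit 3) (nat_lit 3) (nat_lit 0) (nat_lit 0) (nat_lit 1) (nat_lit 99) (nat_lit 112) r1_99 r0_112 (nat_lit 0) (nat_lit 15900944) (nat_lit 330891680) (nat_lit 0x77bef9212) (nat_lit 1017846086),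
  Rx.mk (nat_lit 8) (nat_lit 0) (nat_lit 1) (nat_lit 0) (nat_lit 2) (nat_lit 95) (nat_lit 114) r1_95 r0_114 (nat_lit 17923102) (nat_lit 0) (nat_lit 301314432) (nat_lit 0x7b08f77e4) (nat_lit 937110096),
  Rx.mk (nat_lit 11) (nat_lit 3) (nat_lit 1) (nat_lit 0) (nat_lit 3) (nat_lit 100) (nat_lit 115) r1_100 r0_115 (nat_lit 0) (nat_lit 0) (nat_lit 40000838) (nat_lit 0x7f4fca046) (nat_lit 589164150),
  Rx.mk (nat_lit 16) (nat_lit 0) (nat_lit 2) (nat_lit 0) (nat_lit 2) (nat_lit 96) (nat_lit 118) r1_96 r0_118 (nat_lit 49509170) (nat_lit 0) (nat_lit 236637976) (nat_lit 0x7c1ee06fe) (nat_lit 886572308),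
  Rx.mk (nat_lit 19) (nat_lit 3) (nat_lit 2) (nat_lit 0) (nat_lit 3) (nat_lit 101) (nat_lit 119) r1_101 r0_119 (nat_lit 0) (nat_lit 0) (nat_lit 43159532) (nat_lit 0x7fa01c38c) (nat_lit 587329944),
  Rx.mk (nat_lit 144) (nat_lit 0) (nat_lit 2) (nat_lit 2) (nat_lit 6) (nat_lit 97) (nat_lit 121) r1_97 r0_121 (nat_lit 26465750) (nat_lit 0) (nat_lit 0) (nat_lit 0x7f8d66de6) (nat_lit 571814812),
  Rx.mk (nat_lit 146) (nat_lit 2) (nat_lit 2) (nat_lit 2) (nat_lit 7) (nat_lit 98) (nat_lit 123) r1_98 r0_123 (nat_lit 0) (nat_lit 0) (nat_lit 0) (nat_lit 0x8017985b4) (nat_lit 536870912),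
  Rx.mk (nat_lit 147) (nat_lit 3) (nat_lit 2) (nat_lit 2) (nat_lit 7) (nat_lit 102) (nat_lit 122) r1_102 r0_122 (nat_lit 0) (nat_lit 0) (nat_lit 0) (nat_lit 0x8017985b4) (nat_lit 536870912),
  Rx.mk (nat_lit 195) (nat_lit 3) (nat_lit 0) (nat_lit 3) (nat_lit 5) (nat_lit 103) (nat_lit 113) r1_103 r0_113 (nat_lit 0) (nat_lit 24548730) (nat_lit 0) (nat_lit 0x78780d94c) (nat_lit 683979642),
  Rx.mk (nat_lit 203) (nat_lit 3) (nat_lit 1) (nat_lit 3) (nat_lit 7) (nat_lit 104) (nat_lit 116) r1_104 r0_116 (nat_lit 0) (nat_lit 0) (nat_lit 0) (nat_lit 0x8008586c6) (nat_lit 537803512),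
  Rx.mk (nat_lit 211) (nat_lit 3) (nat_lit 2) (nat_lit 3) (nat_lit 7) (nat_lit 105) (nat_lit 120) r1_105 r0_120 (nat_lit 0) (nat_lit 0) (nat_lit 0) (nat_lit 0x8017985b4) (nat_lit 536870912),
  Rx.mk (nat_lit 219) (nat_lit 3) (nat_lit 3) (nat_lit 3) (nat_lit 7) (nat_lit 106) (nat_lit 117) r1_106 r0_117 (nat_lit 0) (nat_lit 0) (nat_lit 0) (nat_lit 0x8008e1958) (nat_lit 537770662)]
noncomputable def e45_39 : List Rx := [
  Rx.mk (nat_lit 0) (nat_lit 0) (nat_lit 0) (nat_lit 0) (nat_lit 0) (nat_lit 107) (nat_lit 11) r1_107 r7_11 (nat_lit 5821095) (nat_lit 6392816) (nat_lit 43642432) (nat_lit 0x44a1c92b0) (nat_lit 1553277655),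
  Rx.mk (nat_lit 3) (nat_lit 3) (nat_lit 0) (nat_lit 0) (nat_lit 1) (nat_lit 111) (nat_lit 14) r1_111 r7_14 (nat_lit 0) (nat_lit 15973405) (nat_lit 24461115) (nat_lit 0x6bcc10498) (nat_lit 904689032),
  Rx.mk (nat_lit 16) (nat_lit 0) (nat_lit 2) (nat_lit 0) (nat_lit 2) (nat_lit 108) (nat_lit 12) r1_108 r7_12 (nat_lit 35130887) (nat_lit 0) (nat_lit 78119258) (nat_lit 0x6d4852dd4) (nat_lit 953515857),
  Rx.mk (nat_lit 19) (nat_lit 3) (nat_lit 2) (nat_lit 0) (nat_lit 3) (nat_lit 112) (nat_lit 15) r1_112 r7_15 (nat_lit 0) (nat_lit 0) (nat_lit 24618950) (nat_lit 0x80095eab6) (nat_lit 562360112),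
  Rx.mk (nat_lit 144) (nat_lit 0) (nat_lit 2) (nat_lit 2) (nat_lit 6) (nat_lit 109) (nat_lit 13) r1_109 r7_13 (nat_lit 21790589) (nat_lit 0) (nat_lit 0) (nat_lit 0x7f1945f52) (nat_lit 574322851),
  Rx.mk (nat_lit 146) (nat_lit 2) (nat_lit 2) (nat_lit 2) (nat_lit 7) (nat_lit 110) (nat_lit 20) r1_110 r7_20 (nat_lit 0) (nat_lit 0) (nat_lit 0) (nat_lit 0x8017985b4) (nat_lit 536870912),
  Rx.mk (nat_lit 147) (nat_lit 3) (nat_lit 2) (nat_lit 2) (nat_lit 7) (nat_lit 113) (nat_lit 19) r1_113 r7_19 (nat_lit 0) (nat_lit 0) (nat_lit 0) (nat_lit 0x80538fe0a) (nat_lit 533186112),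
  Rx.mk (nat_lit 195) (nat_lit 3) (nat_lit 0) (nat_lit 3) (nat_lit 5) (nat_lit 114) (nat_lit 16) r1_114 r7_16 (nat_lit 0) (nat_lit 16486043) (nat_lit 0) (nat_lit 0x7aed483a4) (nat_lit 636147005),
  Rx.mk (nat_lit 211) (nat_lit 3) (nat_lit 2) (nat_lit 3) (nat_lit 7) (nat_lit 115) (nat_lit 18) r1_115 r7_18 (nat_lit 0) (nat_lit 0) (nat_lit 0) (nat_lit 0x8017985b4) (nat_lit 536870912),
  Rx.mk (nat_lit 219) (nat_lit 3) (nat_lit 3) (nat_lit 3) (nat_lit 7) (nat_lit 116) (nat_lit 17) r1_116 r7_17 (nat_lit 0) (nat_lit 0) (nat_lit 0) (nat_lit 0x8017985b4) (nat_lit 536870912)]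
noncomputable def e45_40 : List Rx := [
  Rx.mk (nat_lit 1) (nat_lit 1) (nat_lit 0) (nat_lit 0) (nat_lit 1) (nat_lit 258) (nat_lit 115) r1_258 r2_115 (nat_lit 0) (nat_lit 62162713) (nat_lit 69955890) (nat_lit 0x67d3cb8d0) (nat_lit 1060595215),
  Rx.mk (nat_lit 9) (nat_lit 1) (nat_lit 1) (nat_lit 0) (nat_lit 3) (nat_lit 259) (nat_lit 116) r1_259 r2_116 (nat_lit 0) (nat_lit 0) (nat_lit 24741287) (nat_lit 0x8017985b4) (nat_lit 561612199),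
  Rx.mk (nat_lit 17) (nat_lit 1) (nat_lit 2) (nat_lit 0) (nat_lit 3) (nat_lit 260) (nat_lit 117) r1_260 r2_117 (nat_lit 0) (nat_lit 0) (nat_lit 25157357) (nat_lit 0x800ccd3b4) (nat_lit 562687369),
  Rx.mk (nat_lit 145) (nat_lit 1) (nat_lit 2) (nat_lit 2) (nat_lit 7) (nat_lit 261) (nat_lit 118) r1_261 r2_118 (nat_lit 0) (nat_lit 0) (nat_lit 0) (nat_lit 0x8017985b4) (nat_lit 536870912)]
noncomputable def e45_41 : List Rx := [
  Rx.mk (nat_lit 1) (nat_lit 1) (nat_lit 0) (nat_lit 0) (nat_lit 1) (nat_lit 269) (nat_lit 83) r1_269 r9_83 (nat_lit 0) (nat_lit 34355931) (nat_lit 134396714) (nat_lit 0x734bda226) (nat_lit 911788807),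
  Rx.mk (nat_lit 17) (nat_lit 1) (nat_lit 2) (nat_lit 0) (nat_lit 3) (nat_lit 270) (nat_lit 84) r1_270 r9_84 (nat_lit 0) (nat_lit 0) (nat_lit 24741287) (nat_lit 0x8008f717c) (nat_lit 562505199),
  Rx.mk (nat_lit 145) (nat_lit 1) (nat_lit 2) (nat_lit 2) (nat_lit 7) (nat_lit 271) (nat_lit 85) r1_271 r9_85 (nat_lit 0) (nat_lit 0) (nat_lit 0) (nat_lit 0x8017985b4) (nat_lit 536870912)]
noncomputable def e45_42 : List Rx := [
  Rx.mk (nat_lit 1) (nat_lit 1) (nat_lit 0) (nat_lit 0) (nat_lit 1) (nat_lit 262) (nat_lit 160) r1_262 r9_160 (nat_lit 0) (nat_lit 68973086) (nat_lit 38504019) (nat_lit 0x645605570) (nat_lit 1092404867),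
  Rx.mk (nat_lit 9) (nat_lit 1) (nat_lit 1) (nat_lit 0) (nat_lit 3) (nat_lit 263) (nat_lit 161) r1_263 r9_161 (nat_lit 0) (nat_lit 0) (nat_lit 24741287) (nat_lit 0x8004fdb2a) (nat_lit 562749199),
  Rx.mk (nat_lit 17) (nat_lit 1) (nat_lit 2) (nat_lit 0) (nat_lit 3) (nat_lit 264) (nat_lit 162) r1_264 r9_162 (nat_lit 0) (nat_lit 0) (nat_lit 24741287) (nat_lit 0x8017985b4) (nat_lit 561612199),
  Rx.mk (nat_lit 65) (nat_lit 1) (nat_lit 0) (nat_lit 1) (nat_lit 5) (nat_lit 265) (nat_lit 163) r1_265 r9_163 (nat_lit 0) (nat_lit 24741287) (nat_lit 0) (nat_lit 0x8017985b4) (nat_lit 561612199),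
  Rx.mk (nat_lit 73) (nat_lit 1) (nat_lit 1) (nat_lit 1) (nat_lit 7) (nat_lit 266) (nat_lit 164) r1_266 r9_164 (nat_lit 0) (nat_lit 0) (nat_lit 0) (nat_lit 0x8017985b4) (nat_lit 536870912),
  Rx.mk (nat_lit 81) (nat_lit 1) (nat_lit 2) (nat_lit 1) (nat_lit 7) (nat_lit 267) (nat_lit 165) r1_267 r9_165 (nat_lit 0) (nat_lit 0) (nat_lit 0) (nat_lit 0x8017985b4) (nat_lit 536870912),
  Rx.mk (nat_lit 145) (nat_lit 1) (nat_lit 2) (nat_lit 2) (nat_lit 7) (nat_lit 268) (nat_lit 166) r1_268 r9_166 (nat_lit 0) (nat_lit 0) (nat_lit 0) (nat_lit 0x8017985b4) (nat_lit 536870912)]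
noncomputable def e45_43 : List Rx := [
  Rx.mk (nat_lit 0) (nat_lit 0) (nat_lit 0) (nat_lit 0) (nat_lit 0) (nat_lit 117) (nat_lit 117) r1_117 r1_117 (nat_lit 1979870) (nat_lit 1979870) (nat_lit 589462715) (nat_lit 0x702baaa3a) (nat_lit 1386696517),
  Rx.mk (nat_lit 1) (nat_lit 1) (nat_lit 0) (nat_lit 0) (nat_lit 1) (nat_lit 121) (nat_lit 118) r1_121 r1_118 (nat_lit 0) (nat_lit 46858283) (nat_lit 301646691) (nat_lit 0x7c618c5e8) (nat_lit 944707886),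
  Rx.mk (nat_lit 3) (nat_lit 3) (nat_lit 0) (nat_lit 0) (nat_lit 1) (nat_lit 126) (nat_lit 119) r1_126 r1_119 (nat_lit 0) (nat_lit 41207445) (nat_lit 112411192) (nat_lit 0x7cd477904) (nat_lit 742617599),
  Rx.mk (nat_lit 8) (nat_lit 0) (nat_lit 1) (nat_lit 0) (nat_lit 2) (nat_lit 118) (nat_lit 121) r1_118 r1_121 (nat_lit 46858283) (nat_lit 0) (nat_lit 301646691) (nat_lit 0x7c618c5e8) (nat_lit 944707886),
  Rx.mk (nat_lit 9) (nat_lit 1) (nat_lit 1) (nat_lit 0) (nat_lit 3) (nat_lit 122) (nat_lit 122) r1_122 r1_122 (nat_lit 0) (nat_lit 0) (nat_lit 24741287) (nat_lit 0x8017985b4) (nat_lit 561612199),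
  Rx.mk (nat_lit 11) (nat_lit 3) (nat_lit 1) (nat_lit 0) (nat_lit 3) (nat_lit 127) (nat_lit 123) r1_127 r1_123 (nat_lit 0) (nat_lit 0) (nat_lit 24741287) (nat_lit 0x8017985b4) (nat_lit 561612199),
  Rx.mk (nat_lit 16) (nat_lit 0) (nat_lit 2) (nat_lit 0) (nat_lit 2) (nat_lit 119) (nat_lit 126) r1_119 r1_126 (nat_lit 41207445) (nat_lit 0) (nat_lit 112411192) (nat_lit 0x7cd477904) (nat_lit 742617599),
  Rx.mk (nat_lit 17) (nat_lit 1) (nat_lit 2) (nat_lit 0) (nat_lit 3) (nat_lit 123) (nat_lit 127) r1_123 r1_127 (nat_lit 0) (nat_lit 0) (nat_lit 24741287) (nat_lit 0x8017985b4) (nat_lit 561612199),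
  Rx.mk (nat_lit 144) (nat_lit 0) (nat_lit 2) (nat_lit 2) (nat_lit 6) (nat_lit 120) (nat_lit 128) r1_120 r1_128 (nat_lit 27831261) (nat_lit 0) (nat_lit 0) (nat_lit 0x7f26f387a) (nat_lit 579564373),
  Rx.mk (nat_lit 145) (nat_lit 1) (nat_lit 2) (nat_lit 2) (nat_lit 7) (nat_lit 124) (nat_lit 129) r1_124 r1_129 (nat_lit 0) (nat_lit 0) (nat_lit 0) (nat_lit 0x8017985b4) (nat_lit 536870912),
  Rx.mk (nat_lit 146) (nat_lit 2) (nat_lit 2) (nat_lit 2) (nat_lit 7) (nat_lit 125) (nat_lit 130) r1_125 r1_130 (nat_lit 0) (nat_lit 0) (nat_lit 0) (nat_lit 0x8017985b4) (nat_lit 536870912),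
  Rx.mk (nat_lit 195) (nat_lit 3) (nat_lit 0) (nat_lit 3) (nat_lit 5) (nat_lit 128) (nat_lit 120) r1_128 r1_120 (nat_lit 0) (nat_lit 27831261) (nat_lit 0) (nat_lit 0x7f26f387a) (nat_lit 579564373),
  Rx.mk (nat_lit 203) (nat_lit 3) (nat_lit 1) (nat_lit 3) (nat_lit 7) (nat_lit 129) (nat_lit 124) r1_129 r1_124 (nat_lit 0) (nat_lit 0) (nat_lit 0) (nat_lit 0x8017985b4) (nat_lit 536870912),
  Rx.mk (nat_lit 219) (nat_lit 3) (nat_lit 3) (nat_lit 3) (nat_lit 7) (nat_lit 130) (nat_lit 125) r1_130 r1_125 (nat_lit 0) (nat_lit 0) (nat_lit 0) (nat_lit 0x8017985b4) (nat_lit 536870912)]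
noncomputable def e45_44 : List Rx := [
  Rx.mk (nat_lit 0) (nat_lit 0) (nat_lit 0) (nat_lit 0) (nat_lit 0) (nat_lit 131) (nat_lit 15) r1_131 r8_15 (nat_lit 12570282) (nat_lit 16366775) (nat_lit 78140221) (nat_lit 0x42b179a90) (nat_lit 1635971940),
  Rx.mk (nat_lit 1) (nat_lit 1) (nat_lit 0) (nat_lit 0) (nat_lit 1) (nat_lit 134) (nat_lit 18) r1_134 r8_18 (nat_lit 0) (nat_lit 46134325) (nat_lit 144484209) (nat_lit 0x72b2fdad0) (nat_lit 943309946),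
  Rx.mk (nat_lit 3) (nat_lit 3) (nat_lit 0) (nat_lit 0) (nat_lit 1) (nat_lit 138) (nat_lit 21) r1_138 r8_21 (nat_lit 0) (nat_lit 31041958) (nat_lit 36913539) (nat_lit 0x73f49b3ba) (nat_lit 800345659),
  Rx.mk (nat_lit 16) (nat_lit 0) (nat_lit 2) (nat_lit 0) (nat_lit 2) (nat_lit 132) (nat_lit 16) r1_132 r8_16 (nat_lit 40466188) (nat_lit 0) (nat_lit 44995829) (nat_lit 0x6d2f8c872) (nat_lit 927296079),
  Rx.mk (nat_lit 17) (nat_lit 1) (nat_lit 2) (nat_lit 0) (nat_lit 3) (nat_lit 135) (nat_lit 19) r1_135 r8_19 (nat_lit 0) (nat_lit 0) (nat_lit 24741287) (nat_lit 0x8017985b4) (nat_lit 561612199),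
  Rx.mk (nat_lit 144) (nat_lit 0) (nat_lit 2) (nat_lit 2) (nat_lit 6) (nat_lit 133) (nat_lit 17) r1_133 r8_17 (nat_lit 25986002) (nat_lit 0) (nat_lit 0) (nat_lit 0x7f21990dc) (nat_lit 578019064),
  Rx.mk (nat_lit 145) (nat_lit 1) (nat_lit 2) (nat_lit 2) (nat_lit 7) (nat_lit 136) (nat_lit 20) r1_136 r8_20 (nat_lit 0) (nat_lit 0) (nat_lit 0) (nat_lit 0x8017985b4) (nat_lit 536870912),
  Rx.mk (nat_lit 146) (nat_lit 2) (nat_lit 2) (nat_lit 2) (nat_lit 7) (nat_lit 137) (nat_lit 24) r1_137 r8_24 (nat_lit 0) (nat_lit 0) (nat_lit 0) (nat_lit 0x8017985b4) (nat_lit 536870912),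
  Rx.mk (nat_lit 195) (nat_lit 3) (nat_lit 0) (nat_lit 3) (nat_lit 5) (nat_lit 139) (nat_lit 22) r1_139 r8_22 (nat_lit 0) (nat_lit 19606239) (nat_lit 0) (nat_lit 0x7f4c479c8) (nat_lit 568985001),
  Rx.mk (nat_lit 219) (nat_lit 3) (nat_lit 3) (nat_lit 3) (nat_lit 7) (nat_lit 140) (nat_lit 23) r1_140 r8_23 (nat_lit 0) (nat_lit 0) (nat_lit 0) (nat_lit 0x8017985b4) (nat_lit 536870912)]
noncomputable def e45_45 : List Rx := [
  Rx.mk (nat_lit 3) (nat_lit 3) (nat_lit 0) (nat_lit 0) (nat_lit 1) (nat_lit 14) (nat_lit 21) r1_14 r1_21 (nat_lit 0) (nat_lit 48891) (nat_lit 58909) (nat_lit 0x7cd668c7c) (nat_lit 588136762),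
  Rx.mk (nat_lit 19) (nat_lit 3) (nat_lit 2) (nat_lit 0) (nat_lit 3) (nat_lit 15) (nat_lit 22) r1_15 r1_22 (nat_lit 0) (nat_lit 0) (nat_lit 14214021) (nat_lit 0x7fbeb8f98) (nat_lit 556417033),
  Rx.mk (nat_lit 144) (nat_lit 0) (nat_lit 2) (nat_lit 2) (nat_lit 6) (nat_lit 10) (nat_lit 20) r1_10 r1_20 (nat_lit 16883735) (nat_lit 0) (nat_lit 0) (nat_lit 0x6e23773e2) (nat_lit 843227197),
  Rx.mk (nat_lit 146) (nat_lit 2) (nat_lit 2) (nat_lit 2) (nat_lit 7) (nat_lit 11) (nat_lit 29) r1_11 r1_29 (nat_lit 0) (nat_lit 0) (nat_lit 0) (nat_lit 0x8082a427c) (nat_lit 530175062),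
  Rx.mk (nat_lit 147) (nat_lit 3) (nat_lit 2) (nat_lit 2) (nat_lit 7) (nat_lit 16) (nat_lit 26) r1_16 r1_26 (nat_lit 0) (nat_lit 0) (nat_lit 0) (nat_lit 0x806722120) (nat_lit 530972362),
  Rx.mk (nat_lit 178) (nat_lit 2) (nat_lit 6) (nat_lit 2) (nat_lit 7) (nat_lit 12) (nat_lit 28) r1_12 r1_28 (nat_lit 0) (nat_lit 0) (nat_lit 0) (nat_lit 0x806110df4) (nat_lit 532352862),
  Rx.mk (nat_lit 195) (nat_lit 3) (nat_lit 0) (nat_lit 3) (nat_lit 5) (nat_lit 17) (nat_lit 23) r1_17 r1_23 (nat_lit 0) (nat_lit 76678) (nat_lit 0) (nat_lit 0x8003c0140) (nat_lit 536772290),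
  Rx.mk (nat_lit 211) (nat_lit 3) (nat_lit 2) (nat_lit 3) (nat_lit 7) (nat_lit 18) (nat_lit 25) r1_18 r1_25 (nat_lit 0) (nat_lit 0) (nat_lit 0) (nat_lit 0x806b840b0) (nat_lit 531718612),
  Rx.mk (nat_lit 219) (nat_lit 3) (nat_lit 3) (nat_lit 3) (nat_lit 7) (nat_lit 19) (nat_lit 24) r1_19 r1_24 (nat_lit 0) (nat_lit 0) (nat_lit 0) (nat_lit 0x7fbfdde82) (nat_lit 542221012),
  Rx.mk (nat_lit 223) (nat_lit 7) (nat_lit 3) (nat_lit 3) (nat_lit 7) (nat_lit 27) (nat_lit 13) r1_27 r1_13 (nat_lit 0) (nat_lit 0) (nat_lit 0) (nat_lit 0x800f8b876) (nat_lit 537285412),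
  Rx.mk (nat_lit 294) (nat_lit 6) (nat_lit 4) (nat_lit 4) (nat_lit 1) (nat_lit 21) (nat_lit 14) r1_21 r1_14 (nat_lit 0) (nat_lit 48891) (nat_lit 58909) (nat_lit 0x7cd668c7c) (nat_lit 588136762),
  Rx.mk (nat_lit 318) (nat_lit 6) (nat_lit 7) (nat_lit 4) (nat_lit 3) (nat_lit 22) (nat_lit 15) r1_22 r1_15 (nat_lit 0) (nat_lit 0) (nat_lit 14214021) (nat_lit 0x7fbeb8f98) (nat_lit 556417033),
  Rx.mk (nat_lit 422) (nat_lit 6) (nat_lit 4) (nat_lit 6) (nat_lit 5) (nat_lit 23) (nat_lit 17) r1_23 r1_17 (nat_lit 0) (nat_lit 76678) (nat_lit 0) (nat_lit 0x8003c0140) (nat_lit 536772290),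
  Rx.mk (nat_lit 434) (nat_lit 2) (nat_lit 6) (nat_lit 6) (nat_lit 7) (nat_lit 13) (nat_lit 27) r1_13 r1_27 (nat_lit 0) (nat_lit 0) (nat_lit 0) (nat_lit 0x800f8b876) (nat_lit 537285412),
  Rx.mk (nat_lit 438) (nat_lit 6) (nat_lit 6) (nat_lit 6) (nat_lit 7) (nat_lit 24) (nat_lit 19) r1_24 r1_19 (nat_lit 0) (nat_lit 0) (nat_lit 0) (nat_lit 0x7fbfdde82) (nat_lit 542221012),
  Rx.mk (nat_lit 446) (nat_lit 6) (nat_lit 7) (nat_lit 6) (nat_lit 7) (nat_lit 25) (nat_lit 18) r1_25 r1_18 (nat_lit 0) (nat_lit 0) (nat_lit 0) (nat_lit 0x806b840b0) (nat_lit 531718612),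
  Rx.mk (nat_lit 479) (nat_lit 7) (nat_lit 3) (nat_lit 7) (nat_lit 7) (nat_lit 28) (nat_lit 12) r1_28 r1_12 (nat_lit 0) (nat_lit 0) (nat_lit 0) (nat_lit 0x806110df4) (nat_lit 532352862),
  Rx.mk (nat_lit 508) (nat_lit 4) (nat_lit 7) (nat_lit 7) (nat_lit 6) (nat_lit 20) (nat_lit 10) r1_20 r1_10 (nat_lit 16883735) (nat_lit 0) (nat_lit 0) (nat_lit 0x6e23773e2) (nat_lit 843227197),
  Rx.mk (nat_lit 510) (nat_lit 6) (nat_lit 7) (nat_lit 7) (nat_lit 7) (nat_lit 26) (nat_lit 16) r1_26 r1_16 (nat_lit 0) (nat_lit 0) (nat_lit 0) (nat_lit 0x806722120) (nat_lit 530972362),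
  Rx.mk (nat_lit 511) (nat_lit 7) (nat_lit 7) (nat_lit 7) (nat_lit 7) (nat_lit 29) (nat_lit 11) r1_29 r1_11 (nat_lit 0) (nat_lit 0) (nat_lit 0) (nat_lit 0x8082a427c) (nat_lit 530175062)]
noncomputable def e45_46 : List Rx := [
  Rx.mk (nat_lit 294) (nat_lit 6) (nat_lit 4) (nat_lit 4) (nat_lit 1) (nat_lit 33) (nat_lit 16) r1_33 r2_16 (nat_lit 0) (nat_lit 23439880) (nat_lit 29030061) (nat_lit 0x6ea7937fc) (nat_lit 870542453),
  Rx.mk (nat_lit 422) (nat_lit 6) (nat_lit 4) (nat_lit 6) (nat_lit 5) (nat_lit 34) (nat_lit 19) r1_34 r2_19 (nat_lit 0) (nat_lit 24741287) (nat_lit 0) (nat_lit 0x800662966) (nat_lit 562664999),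
  Rx.mk (nat_lit 434) (nat_lit 2) (nat_lit 6) (nat_lit 6) (nat_lit 7) (nat_lit 30) (nat_lit 21) r1_30 r2_21 (nat_lit 0) (nat_lit 0) (nat_lit 0) (nat_lit 0x8017985b4) (nat_lit 536870912),
  Rx.mk (nat_lit 438) (nat_lit 6) (nat_lit 6) (nat_lit 6) (nat_lit 7) (nat_lit 35) (nat_lit 20) r1_35 r2_20 (nat_lit 0) (nat_lit 0) (nat_lit 0) (nat_lit 0x8017985b4) (nat_lit 536870912),
  Rx.mk (nat_lit 484) (nat_lit 4) (nat_lit 4) (nat_lit 7) (nat_lit 4) (nat_lit 31) (nat_lit 13) r1_31 r2_13 (nat_lit 28114446) (nat_lit 19918432) (nat_lit 0) (nat_lit 0x712066600) (nat_lit 826141340),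
  Rx.mk (nat_lit 486) (nat_lit 6) (nat_lit 4) (nat_lit 7) (nat_lit 5) (nat_lit 36) (nat_lit 17) r1_36 r2_17 (nat_lit 0) (nat_lit 12320371) (nat_lit 0) (nat_lit 0x80de8e3da) (nat_lit 537025133),
  Rx.mk (nat_lit 508) (nat_lit 4) (nat_lit 7) (nat_lit 7) (nat_lit 6) (nat_lit 32) (nat_lit 14) r1_32 r2_14 (nat_lit 35404402) (nat_lit 0) (nat_lit 0) (nat_lit 0x7ebadf3d2) (nat_lit 593887464),
  Rx.mk (nat_lit 510) (nat_lit 6) (nat_lit 7) (nat_lit 7) (nat_lit 7) (nat_lit 37) (nat_lit 18) r1_37 r2_18 (nat_lit 0) (nat_lit 0) (nat_lit 0) (nat_lit 0x804b9beec) (nat_lit 533672912),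
  Rx.mk (nat_lit 511) (nat_lit 7) (nat_lit 7) (nat_lit 7) (nat_lit 7) (nat_lit 38) (nat_lit 15) r1_38 r2_15 (nat_lit 0) (nat_lit 0) (nat_lit 0) (nat_lit 0x8017985b4) (nat_lit 536870912)]
noncomputable def e45_47 : List Rx := [
  Rx.mk (nat_lit 0) (nat_lit 0) (nat_lit 0) (nat_lit 0) (nat_lit 0) (nat_lit 141) (nat_lit 90) r1_141 r8_90 (nat_lit 23009154) (nat_lit 17944571) (nat_lit 116288395) (nat_lit 0x447d83aae) (nat_lit 1657106532),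
  Rx.mk (nat_lit 3) (nat_lit 3) (nat_lit 0) (nat_lit 0) (nat_lit 1) (nat_lit 147) (nat_lit 91) r1_147 r8_91 (nat_lit 0) (nat_lit 24802758) (nat_lit 50885811) (nat_lit 0x6b9ee1742) (nat_lit 942829831),
  Rx.mk (nat_lit 16) (nat_lit 0) (nat_lit 2) (nat_lit 0) (nat_lit 2) (nat_lit 142) (nat_lit 94) r1_142 r8_94 (nat_lit 31282261) (nat_lit 0) (nat_lit 50887267) (nat_lit 0x6d657dd46) (nat_lit 920594840),
  Rx.mk (nat_lit 19) (nat_lit 3) (nat_lit 2) (nat_lit 0) (nat_lit 3) (nat_lit 148) (nat_lit 95) r1_148 r8_95 (nat_lit 0) (nat_lit 0) (nat_lit 24741287) (nat_lit 0x8017985b4) (nat_lit 561612199),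
  Rx.mk (nat_lit 144) (nat_lit 0) (nat_lit 2) (nat_lit 2) (nat_lit 6) (nat_lit 143) (nat_lit 97) r1_143 r8_97 (nat_lit 29620562) (nat_lit 0) (nat_lit 0) (nat_lit 0x7f673ed30) (nat_lit 577332974),
  Rx.mk (nat_lit 146) (nat_lit 2) (nat_lit 2) (nat_lit 2) (nat_lit 7) (nat_lit 144) (nat_lit 99) r1_144 r8_99 (nat_lit 0) (nat_lit 0) (nat_lit 0) (nat_lit 0x8017985b4) (nat_lit 536870912),
  Rx.mk (nat_lit 147) (nat_lit 3) (nat_lit 2) (nat_lit 2) (nat_lit 7) (nat_lit 149) (nat_lit 98) r1_149 r8_98 (nat_lit 0) (nat_lit 0) (nat_lit 0) (nat_lit 0x8017985b4) (nat_lit 536870912),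
  Rx.mk (nat_lit 178) (nat_lit 2) (nat_lit 6) (nat_lit 2) (nat_lit 7) (nat_lit 145) (nat_lit 100) r1_145 r8_100 (nat_lit 0) (nat_lit 0) (nat_lit 0) (nat_lit 0x8017985b4) (nat_lit 536870912),
  Rx.mk (nat_lit 195) (nat_lit 3) (nat_lit 0) (nat_lit 3) (nat_lit 5) (nat_lit 150) (nat_lit 92) r1_150 r8_92 (nat_lit 0) (nat_lit 24952196) (nat_lit 0) (nat_lit 0x7d5baea30) (nat_lit 605443508),
  Rx.mk (nat_lit 211) (nat_lit 3) (nat_lit 2) (nat_lit 3) (nat_lit 7) (nat_lit 151) (nat_lit 96) r1_151 r8_96 (nat_lit 0) (nat_lit 0) (nat_lit 0) (nat_lit 0x8017985b4) (nat_lit 536870912),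
  Rx.mk (nat_lit 219) (nat_lit 3) (nat_lit 3) (nat_lit 3) (nat_lit 7) (nat_lit 152) (nat_lit 93) r1_152 r8_93 (nat_lit 0) (nat_lit 0) (nat_lit 0) (nat_lit 0x8017985b4) (nat_lit 536870912),
  Rx.mk (nat_lit 434) (nat_lit 2) (nat_lit 6) (nat_lit 6) (nat_lit 7) (nat_lit 146) (nat_lit 101) r1_146 r8_101 (nat_lit 0) (nat_lit 0) (nat_lit 0) (nat_lit 0x8017985b4) (nat_lit 536870912)]
noncomputable def e45_48 : List Rx := [
  Rx.mk (nat_lit 434) (nat_lit 2) (nat_lit 6) (nat_lit 6) (nat_lit 7) (nat_lit 153) (nat_lit 1) r1_153 r9_1 (nat_lit 0) (nat_lit 0) (nat_lit 0) (nat_lit 0x8017985b4) (nat_lit 536870912)]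
noncomputable def e45_49 : List Rx := [
  Rx.mk (nat_lit 292) (nat_lit 4) (nat_lit 4) (nat_lit 4) (nat_lit 0) (nat_lit 170) (nat_lit 40) r1_170 r9_40 (nat_lit 56659484) (nat_lit 24261554) (nat_lit 49328540) (nat_lit 0x3f56488d6) (nat_lit 1713461290),
  Rx.mk (nat_lit 294) (nat_lit 6) (nat_lit 4) (nat_lit 4) (nat_lit 1) (nat_lit 173) (nat_lit 41) r1_173 r9_41 (nat_lit 0) (nat_lit 27290911) (nat_lit 32551245) (nat_lit 0x6e1360b66) (nat_lit 887289868),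
  Rx.mk (nat_lit 422) (nat_lit 6) (nat_lit 4) (nat_lit 6) (nat_lit 5) (nat_lit 174) (nat_lit 48) r1_174 r9_48 (nat_lit 0) (nat_lit 24741287) (nat_lit 0) (nat_lit 0x8004104a6) (nat_lit 562806149),
  Rx.mk (nat_lit 434) (nat_lit 2) (nat_lit 6) (nat_lit 6) (nat_lit 7) (nat_lit 169) (nat_lit 47) r1_169 r9_47 (nat_lit 0) (nat_lit 0) (nat_lit 0) (nat_lit 0x8017985b4) (nat_lit 536870912),
  Rx.mk (nat_lit 438) (nat_lit 6) (nat_lit 6) (nat_lit 6) (nat_lit 7) (nat_lit 175) (nat_lit 49) r1_175 r9_49 (nat_lit 0) (nat_lit 0) (nat_lit 0) (nat_lit 0x8017985b4) (nat_lit 536870912),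
  Rx.mk (nat_lit 484) (nat_lit 4) (nat_lit 4) (nat_lit 7) (nat_lit 4) (nat_lit 171) (nat_lit 42) r1_171 r9_42 (nat_lit 43212165) (nat_lit 26252196) (nat_lit 0) (nat_lit 0x6d3fdbff2) (nat_lit 910271473),
  Rx.mk (nat_lit 486) (nat_lit 6) (nat_lit 4) (nat_lit 7) (nat_lit 5) (nat_lit 176) (nat_lit 45) r1_176 r9_45 (nat_lit 0) (nat_lit 24741287) (nat_lit 0) (nat_lit 0x8017985b4) (nat_lit 561612199),
  Rx.mk (nat_lit 508) (nat_lit 4) (nat_lit 7) (nat_lit 7) (nat_lit 6) (nat_lit 172) (nat_lit 43) r1_172 r9_43 (nat_lit 35087009) (nat_lit 0) (nat_lit 0) (nat_lit 0x7eb627b3c) (nat_lit 593834521),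
  Rx.mk (nat_lit 510) (nat_lit 6) (nat_lit 7) (nat_lit 7) (nat_lit 7) (nat_lit 177) (nat_lit 46) r1_177 r9_46 (nat_lit 0) (nat_lit 0) (nat_lit 0) (nat_lit 0x8017985b4) (nat_lit 536870912),
  Rx.mk (nat_lit 511) (nat_lit 7) (nat_lit 7) (nat_lit 7) (nat_lit 7) (nat_lit 178) (nat_lit 44) r1_178 r9_44 (nat_lit 0) (nat_lit 0) (nat_lit 0) (nat_lit 0x7ed9f7242) (nat_lit 556534462)]
noncomputable def e45_50 : List Rx := [
  Rx.mk (nat_lit 3) (nat_lit 3) (nat_lit 0) (nat_lit 0) (nat_lit 1) (nat_lit 39) (nat_lit 13) r1_39 r3_13 (nat_lit 0) (nat_lit 4286) (nat_lit 10635) (nat_lit 0x80094492c) (nat_lit 536338983),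
  Rx.mk (nat_lit 11) (nat_lit 3) (nat_lit 1) (nat_lit 0) (nat_lit 3) (nat_lit 40) (nat_lit 14) r1_40 r3_14 (nat_lit 0) (nat_lit 0) (nat_lit 15940000) (nat_lit 0x805843974) (nat_lit 548544762),
  Rx.mk (nat_lit 19) (nat_lit 3) (nat_lit 2) (nat_lit 0) (nat_lit 3) (nat_lit 41) (nat_lit 15) r1_41 r3_15 (nat_lit 0) (nat_lit 0) (nat_lit 7553870) (nat_lit 0x7902075f8) (nat_lit 658039182),
  Rx.mk (nat_lit 147) (nat_lit 3) (nat_lit 2) (nat_lit 2) (nat_lit 7) (nat_lit 42) (nat_lit 19) r1_42 r3_19 (nat_lit 0) (nat_lit 0) (nat_lit 0) (nat_lit 0x80556b2ba) (nat_lit 532838362),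
  Rx.mk (nat_lit 195) (nat_lit 3) (nat_lit 0) (nat_lit 3) (nat_lit 5) (nat_lit 43) (nat_lit 16) r1_43 r3_16 (nat_lit 0) (nat_lit 2704556) (nat_lit 0) (nat_lit 0x7c015df14) (nat_lit 604691568),
  Rx.mk (nat_lit 199) (nat_lit 7) (nat_lit 0) (nat_lit 3) (nat_lit 5) (nat_lit 46) (nat_lit 10) r1_46 r3_10 (nat_lit 0) (nat_lit 47983) (nat_lit 0) (nat_lit 0x75459b28c) (nat_lit 710414795),
  Rx.mk (nat_lit 203) (nat_lit 3) (nat_lit 1) (nat_lit 3) (nat_lit 7) (nat_lit 44) (nat_lit 17) r1_44 r3_17 (nat_lit 0) (nat_lit 0) (nat_lit 0) (nat_lit 0x80652468e) (nat_lit 532033562),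
  Rx.mk (nat_lit 207) (nat_lit 7) (nat_lit 1) (nat_lit 3) (nat_lit 7) (nat_lit 47) (nat_lit 11) r1_47 r3_11 (nat_lit 0) (nat_lit 0) (nat_lit 0) (nat_lit 0x8b1948f84) (nat_lit 368104412),
  Rx.mk (nat_lit 211) (nat_lit 3) (nat_lit 2) (nat_lit 3) (nat_lit 7) (nat_lit 45) (nat_lit 18) r1_45 r3_18 (nat_lit 0) (nat_lit 0) (nat_lit 0) (nat_lit 0x7fd885e1c) (nat_lit 540659262),
  Rx.mk (nat_lit 223) (nat_lit 7) (nat_lit 3) (nat_lit 3) (nat_lit 7) (nat_lit 48) (nat_lit 12) r1_48 r3_12 (nat_lit 0) (nat_lit 0) (nat_lit 0) (nat_lit 0x80a93acb0) (nat_lit 527952812),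
  Rx.mk (nat_lit 479) (nat_lit 7) (nat_lit 3) (nat_lit 7) (nat_lit 7) (nat_lit 49) (nat_lit 9) r1_49 r3_9 (nat_lit 0) (nat_lit 0) (nat_lit 0) (nat_lit 0x805620b38) (nat_lit 533027112)]
noncomputable def e45_51 : List Rx := [
  Rx.mk (nat_lit 3) (nat_lit 3) (nat_lit 0) (nat_lit 0) (nat_lit 1) (nat_lit 50) (nat_lit 16) r1_50 r4_16 (nat_lit 0) (nat_lit 12415695) (nat_lit 67051359) (nat_lit 0x6dd5f0330) (nat_lit 910715916),
  Rx.mk (nat_lit 19) (nat_lit 3) (nat_lit 2) (nat_lit 0) (nat_lit 3) (nat_lit 51) (nat_lit 17) r1_51 r4_17 (nat_lit 0) (nat_lit 0) (nat_lit 32103431) (nat_lit 0x7f4592056) (nat_lit 581897443),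
  Rx.mk (nat_lit 147) (nat_lit 3) (nat_lit 2) (nat_lit 2) (nat_lit 7) (nat_lit 52) (nat_lit 20) r1_52 r4_20 (nat_lit 0) (nat_lit 0) (nat_lit 0) (nat_lit 0x8256757bc) (nat_lit 501986312),
  Rx.mk (nat_lit 195) (nat_lit 3) (nat_lit 0) (nat_lit 3) (nat_lit 5) (nat_lit 53) (nat_lit 18) r1_53 r4_18 (nat_lit 0) (nat_lit 18565138) (nat_lit 0) (nat_lit 0x7e088a2e0) (nat_lit 588194500),
  Rx.mk (nat_lit 199) (nat_lit 7) (nat_lit 0) (nat_lit 3) (nat_lit 5) (nat_lit 55) (nat_lit 14) r1_55 r4_14 (nat_lit 0) (nat_lit 13824857) (nat_lit 0) (nat_lit 0x8053119f6) (nat_lit 546991619),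
  Rx.mk (nat_lit 211) (nat_lit 3) (nat_lit 2) (nat_lit 3) (nat_lit 7) (nat_lit 54) (nat_lit 19) r1_54 r4_19 (nat_lit 0) (nat_lit 0) (nat_lit 0) (nat_lit 0x8017985b4) (nat_lit 536870912),
  Rx.mk (nat_lit 223) (nat_lit 7) (nat_lit 3) (nat_lit 3) (nat_lit 7) (nat_lit 56) (nat_lit 15) r1_56 r4_15 (nat_lit 0) (nat_lit 0) (nat_lit 0) (nat_lit 0x8078ceb44) (nat_lit 530903862),
  Rx.mk (nat_lit 479) (nat_lit 7) (nat_lit 3) (nat_lit 7) (nat_lit 7) (nat_lit 57) (nat_lit 13) r1_57 r4_13 (nat_lit 0) (nat_lit 0) (nat_lit 0) (nat_lit 0x8007403f6) (nat_lit 537871262)]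
noncomputable def e45_52 : List Rx := [
  Rx.mk (nat_lit 195) (nat_lit 3) (nat_lit 0) (nat_lit 3) (nat_lit 5) (nat_lit 58) (nat_lit 11) r1_58 r5_11 (nat_lit 0) (nat_lit 6051545) (nat_lit 0) (nat_lit 0x72f5acc5a) (nat_lit 754383857),
  Rx.mk (nat_lit 199) (nat_lit 7) (nat_lit 0) (nat_lit 3) (nat_lit 5) (nat_lit 61) (nat_lit 9) r1_61 r5_9 (nat_lit 0) (nat_lit 3702159) (nat_lit 0) (nat_lit 0x6eab69304) (nat_lit 821330421),
  Rx.mk (nat_lit 203) (nat_lit 3) (nat_lit 1) (nat_lit 3) (nat_lit 7) (nat_lit 59) (nat_lit 12) r1_59 r5_12 (nat_lit 0) (nat_lit 0) (nat_lit 0) (nat_lit 0x814d8e96a) (nat_lit 517942162),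
  Rx.mk (nat_lit 207) (nat_lit 7) (nat_lit 1) (nat_lit 3) (nat_lit 7) (nat_lit 62) (nat_lit 10) r1_62 r5_10 (nat_lit 0) (nat_lit 0) (nat_lit 0) (nat_lit 0x8270dea40) (nat_lit 500473562),
  Rx.mk (nat_lit 211) (nat_lit 3) (nat_lit 2) (nat_lit 3) (nat_lit 7) (nat_lit 60) (nat_lit 13) r1_60 r5_13 (nat_lit 0) (nat_lit 0) (nat_lit 0) (nat_lit 0x7fe62a1bc) (nat_lit 539838662),
  Rx.mk (nat_lit 455) (nat_lit 7) (nat_lit 0) (nat_lit 7) (nat_lit 5) (nat_lit 63) (nat_lit 6) r1_63 r5_6 (nat_lit 0) (nat_lit 10795266) (nat_lit 0) (nat_lit 0x6d3a97438) (nat_lit 851857228),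
  Rx.mk (nat_lit 463) (nat_lit 7) (nat_lit 1) (nat_lit 7) (nat_lit 7) (nat_lit 64) (nat_lit 7) r1_64 r5_7 (nat_lit 0) (nat_lit 0) (nat_lit 0) (nat_lit 0x8038a520c) (nat_lit 534837962),
  Rx.mk (nat_lit 479) (nat_lit 7) (nat_lit 3) (nat_lit 7) (nat_lit 7) (nat_lit 65) (nat_lit 8) r1_65 r5_8 (nat_lit 0) (nat_lit 0) (nat_lit 0) (nat_lit 0x8009d4658) (nat_lit 537721562)]
noncomputable def e45_53 : List Rx := [
  Rx.mk (nat_lit 3) (nat_lit 3) (nat_lit 0) (nat_lit 0) (nat_lit 1) (nat_lit 154) (nat_lit 107) r1_154 r4_107 (nat_lit 0) (nat_lit 13326467) (nat_lit 159743199) (nat_lit 0x73d78693c) (nat_lit 907207678),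
  Rx.mk (nat_lit 11) (nat_lit 3) (nat_lit 1) (nat_lit 0) (nat_lit 3) (nat_lit 155) (nat_lit 109) r1_155 r4_109 (nat_lit 0) (nat_lit 0) (nat_lit 26051565) (nat_lit 0x8064f5dac) (nat_lit 558163527),
  Rx.mk (nat_lit 19) (nat_lit 3) (nat_lit 2) (nat_lit 0) (nat_lit 3) (nat_lit 156) (nat_lit 111) r1_156 r4_111 (nat_lit 0) (nat_lit 0) (nat_lit 26855787) (nat_lit 0x80aa4da94) (nat_lit 554718499),
  Rx.mk (nat_lit 147) (nat_lit 3) (nat_lit 2) (nat_lit 2) (nat_lit 7) (nat_lit 157) (nat_lit 113) r1_157 r4_113 (nat_lit 0) (nat_lit 0) (nat_lit 0) (nat_lit 0x8017985b4) (nat_lit 536870912),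
  Rx.mk (nat_lit 195) (nat_lit 3) (nat_lit 0) (nat_lit 3) (nat_lit 5) (nat_lit 158) (nat_lit 108) r1_158 r4_108 (nat_lit 0) (nat_lit 21535191) (nat_lit 0) (nat_lit 0x7c291a87c) (nat_lit 621319503),
  Rx.mk (nat_lit 203) (nat_lit 3) (nat_lit 1) (nat_lit 3) (nat_lit 7) (nat_lit 159) (nat_lit 110) r1_159 r4_110 (nat_lit 0) (nat_lit 0) (nat_lit 0) (nat_lit 0x807893f76) (nat_lit 530914262),
  Rx.mk (nat_lit 211) (nat_lit 3) (nat_lit 2) (nat_lit 3) (nat_lit 7) (nat_lit 160) (nat_lit 112) r1_160 r4_112 (nat_lit 0) (nat_lit 0) (nat_lit 0) (nat_lit 0x8039d0276) (nat_lit 534761612)]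
noncomputable def e45_54 : List Rx := [
  Rx.mk (nat_lit 3) (nat_lit 3) (nat_lit 0) (nat_lit 0) (nat_lit 1) (nat_lit 161) (nat_lit 5) r1_161 r10_5 (nat_lit 0) (nat_lit 15183139) (nat_lit 22829563) (nat_lit 0x6e1d4f8f2) (nat_lit 864770414),
  Rx.mk (nat_lit 19) (nat_lit 3) (nat_lit 2) (nat_lit 0) (nat_lit 3) (nat_lit 162) (nat_lit 6) r1_162 r10_6 (nat_lit 0) (nat_lit 0) (nat_lit 24741287) (nat_lit 0x7fca1d474) (nat_lit 566365499),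
  Rx.mk (nat_lit 147) (nat_lit 3) (nat_lit 2) (nat_lit 2) (nat_lit 7) (nat_lit 163) (nat_lit 9) r1_163 r10_9 (nat_lit 0) (nat_lit 0) (nat_lit 0) (nat_lit 0x8017985b4) (nat_lit 536870912),
  Rx.mk (nat_lit 195) (nat_lit 3) (nat_lit 0) (nat_lit 3) (nat_lit 5) (nat_lit 164) (nat_lit 7) r1_164 r10_7 (nat_lit 0) (nat_lit 9818448) (nat_lit 0) (nat_lit 0x77a95bc0c) (nat_lit 682197510),
  Rx.mk (nat_lit 211) (nat_lit 3) (nat_lit 2) (nat_lit 3) (nat_lit 7) (nat_lit 165) (nat_lit 8) r1_165 r10_8 (nat_lit 0) (nat_lit 0) (nat_lit 0) (nat_lit 0x804a4b9b6) (nat_lit 533752062)]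
noncomputable def e45_55 : List Rx := [
  Rx.mk (nat_lit 195) (nat_lit 3) (nat_lit 0) (nat_lit 3) (nat_lit 5) (nat_lit 166) (nat_lit 2) r1_166 r11_2 (nat_lit 0) (nat_lit 24107596) (nat_lit 0) (nat_lit 0x800249f8c) (nat_lit 562289358),
  Rx.mk (nat_lit 203) (nat_lit 3) (nat_lit 1) (nat_lit 3) (nat_lit 7) (nat_lit 167) (nat_lit 3) r1_167 r11_3 (nat_lit 0) (nat_lit 0) (nat_lit 0) (nat_lit 0x8017985b4) (nat_lit 536870912),
  Rx.mk (nat_lit 211) (nat_lit 3) (nat_lit 2) (nat_lit 3) (nat_lit 7) (nat_lit 168) (nat_lit 4) r1_168 r11_4 (nat_lit 0) (nat_lit 0) (nat_lit 0) (nat_lit 0x8017985b4) (nat_lit 536870912)]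
noncomputable def e45_56 : List Rx := [
  Rx.mk (nat_lit 3) (nat_lit 3) (nat_lit 0) (nat_lit 0) (nat_lit 1) (nat_lit 225) (nat_lit 106) r1_225 r5_106 (nat_lit 0) (nat_lit 1138385) (nat_lit 183334041) (nat_lit 0x858f1770c) (nat_lit 636880238),
  Rx.mk (nat_lit 7) (nat_lit 7) (nat_lit 0) (nat_lit 0) (nat_lit 1) (nat_lit 229) (nat_lit 107) r1_229 r5_107 (nat_lit 0) (nat_lit 3281434) (nat_lit 5641616) (nat_lit 0x6d31d3d56) (nat_lit 850354662),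
  Rx.mk (nat_lit 11) (nat_lit 3) (nat_lit 1) (nat_lit 0) (nat_lit 3) (nat_lit 226) (nat_lit 109) r1_226 r5_109 (nat_lit 0) (nat_lit 0) (nat_lit 20365735) (nat_lit 0x82689a0c8) (nat_lit 521307397),
  Rx.mk (nat_lit 15) (nat_lit 7) (nat_lit 1) (nat_lit 0) (nat_lit 3) (nat_lit 230) (nat_lit 110) r1_230 r5_110 (nat_lit 0) (nat_lit 0) (nat_lit 14046649) (nat_lit 0x808591f7a) (nat_lit 544109911),
  Rx.mk (nat_lit 19) (nat_lit 3) (nat_lit 2) (nat_lit 0) (nat_lit 3) (nat_lit 227) (nat_lit 113) r1_227 r5_113 (nat_lit 0) (nat_lit 0) (nat_lit 34273461) (nat_lit 0x80eb8917a) (nat_lit 558087723),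
  Rx.mk (nat_lit 147) (nat_lit 3) (nat_lit 2) (nat_lit 2) (nat_lit 7) (nat_lit 228) (nat_lit 114) r1_228 r5_114 (nat_lit 0) (nat_lit 0) (nat_lit 0) (nat_lit 0x80759d768) (nat_lit 530997812),
  Rx.mk (nat_lit 199) (nat_lit 7) (nat_lit 0) (nat_lit 3) (nat_lit 5) (nat_lit 231) (nat_lit 108) r1_231 r5_108 (nat_lit 0) (nat_lit 13555305) (nat_lit 0) (nat_lit 0x7b2b08126) (nat_lit 629326967),
  Rx.mk (nat_lit 207) (nat_lit 7) (nat_lit 1) (nat_lit 3) (nat_lit 7) (nat_lit 232) (nat_lit 111) r1_232 r5_111 (nat_lit 0) (nat_lit 0) (nat_lit 0) (nat_lit 0x8017985b4) (nat_lit 536870912),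
  Rx.mk (nat_lit 223) (nat_lit 7) (nat_lit 3) (nat_lit 3) (nat_lit 7) (nat_lit 233) (nat_lit 112) r1_233 r5_112 (nat_lit 0) (nat_lit 0) (nat_lit 0) (nat_lit 0x8017985b4) (nat_lit 536870912)]
noncomputable def e45_57 : List Rx := [
  Rx.mk (nat_lit 3) (nat_lit 3) (nat_lit 0) (nat_lit 0) (nat_lit 1) (nat_lit 234) (nat_lit 107) r1_234 r11_107 (nat_lit 0) (nat_lit 26935402) (nat_lit 88719546) (nat_lit 0x76bea858e) (nat_lit 802950560),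
  Rx.mk (nat_lit 7) (nat_lit 7) (nat_lit 0) (nat_lit 0) (nat_lit 1) (nat_lit 237) (nat_lit 108) r1_237 r11_108 (nat_lit 0) (nat_lit 45330043) (nat_lit 51763813) (nat_lit 0x7bfdcf3ca) (nat_lit 699634368),
  Rx.mk (nat_lit 19) (nat_lit 3) (nat_lit 2) (nat_lit 0) (nat_lit 3) (nat_lit 235) (nat_lit 111) r1_235 r11_111 (nat_lit 0) (nat_lit 0) (nat_lit 25084538) (nat_lit 0x8001d6c6c) (nat_lit 563283450),
  Rx.mk (nat_lit 147) (nat_lit 3) (nat_lit 2) (nat_lit 2) (nat_lit 7) (nat_lit 236) (nat_lit 112) r1_236 r11_112 (nat_lit 0) (nat_lit 0) (nat_lit 0) (nat_lit 0x81471cbfe) (nat_lit 518335312),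
  Rx.mk (nat_lit 199) (nat_lit 7) (nat_lit 0) (nat_lit 3) (nat_lit 5) (nat_lit 238) (nat_lit 109) r1_238 r11_109 (nat_lit 0) (nat_lit 24741287) (nat_lit 0) (nat_lit 0x8017985b4) (nat_lit 561612199),
  Rx.mk (nat_lit 223) (nat_lit 7) (nat_lit 3) (nat_lit 3) (nat_lit 7) (nat_lit 239) (nat_lit 110) r1_239 r11_110 (nat_lit 0) (nat_lit 0) (nat_lit 0) (nat_lit 0x8017985b4) (nat_lit 536870912)]
noncomputable def e45 : List (List Rx) := [e45_0, e45_1, e45_2, e45_3, e45_4, e45_5, e45_6, e45_7, e45_8, e45_9, e45_10, e45_11, e45_12, e45_13, e45_14, e45_15, e45_16, e45_17, e45_18, e45_19, e45_20, e45_21, e45_22, e45_23, e45_24, e45_25, e45_26, e45_27, e45_28, e45_29, e45_30, e45_31, e45_32, e45_33, e45_34, e45_35, e45_36, e45_37, e45_38, e45_39, e45_40, e45_41, e45_42, e45_43, e45_44, e45_45, e45_46, e45_47, e45_48, e45_49, e45_50, e45_51, e45_52, e45_53, e45_54, e45_55,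 e45_56, e45_57]
noncomputable def e46_0 : List Rx := [
  Rx.mk (nat_lit 76) (nat_lit 4) (nat_lit 1) (nat_lit 1) (nat_lit 6) (nat_lit 276) (nat_lit 285) r2_276 r0_285 (nat_lit 65725081) (nat_lit 0) (nat_lit 0) (nat_lit 0x7b4d9ae64) (nat_lit 679298593),
  Rx.mk (nat_lit 77) (nat_lit 5) (nat_lit 1) (nat_lit 1) (nat_lit 7) (nat_lit 278) (nat_lit 287) r2_278 r0_287 (nat_lit 0) (nat_lit 0) (nat_lit 0) (nat_lit 0x8017985b4) (nat_lit 536870912),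
  Rx.mk (nat_lit 108) (nat_lit 4) (nat_lit 5) (nat_lit 1) (nat_lit 6) (nat_lit 277) (nat_lit 286) r2_277 r0_286 (nat_lit 29130114) (nat_lit 0) (nat_lit 0) (nat_lit 0x7eda42850) (nat_lit 585601326),
  Rx.mk (nat_lit 109) (nat_lit 5) (nat_lit 5) (nat_lit 1) (nat_lit 7) (nat_lit 279) (nat_lit 288) r2_279 r0_288 (nat_lit 0) (nat_lit 0) (nat_lit 0) (nat_lit 0x8017985b4) (nat_lit 536870912)]
noncomputable def e46_1 : List Rx := [
  Rx.mk (nat_lit 76) (nat_lit 4) (nat_lit 1) (nat_lit 1) (nat_lit 6) (nat_lit 304) (nat_lit 280) r2_304 r1_280 (nat_lit 34697810) (nat_lit 0) (nat_lit 0) (nat_lit 0x7fda33674) (nat_lit 575291622),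
  Rx.mk (nat_lit 77) (nat_lit 5) (nat_lit 1) (nat_lit 1) (nat_lit 7) (nat_lit 307) (nat_lit 283) r2_307 r1_283 (nat_lit 0) (nat_lit 0) (nat_lit 0) (nat_lit 0x8017985b4) (nat_lit 536870912),
  Rx.mk (nat_lit 108) (nat_lit 4) (nat_lit 5) (nat_lit 1) (nat_lit 6) (nat_lit 305) (nat_lit 281) r2_305 r1_281 (nat_lit 24741287) (nat_lit 0) (nat_lit 0) (nat_lit 0x80411f176) (nat_lit 559058049),
  Rx.mk (nat_lit 109) (nat_lit 5) (nat_lit 5) (nat_lit 1) (nat_lit 7) (nat_lit 308) (nat_lit 284) r2_308 r1_284 (nat_lit 0) (nat_lit 0) (nat_lit 0) (nat_lit 0x8017985b4) (nat_lit 536870912),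
  Rx.mk (nat_lit 364) (nat_lit 4) (nat_lit 5) (nat_lit 5) (nat_lit 6) (nat_lit 306) (nat_lit 282) r2_306 r1_282 (nat_lit 24741287) (nat_lit 0) (nat_lit 0) (nat_lit 0x8017985b4) (nat_lit 561612199),
  Rx.mk (nat_lit 365) (nat_lit 5) (nat_lit 5) (nat_lit 5) (nat_lit 7) (nat_lit 309) (nat_lit 285) r2_309 r1_285 (nat_lit 0) (nat_lit 0) (nat_lit 0) (nat_lit 0x8017985b4) (nat_lit 536870912)]
noncomputable def e46_2 : List Rx := [
  Rx.mk (nat_lit 364) (nat_lit 4) (nat_lit 5) (nat_lit 5) (nat_lit 6) (nat_lit 310) (nat_lit 310) r2_310 r2_310 (nat_lit 25705717) (nat_lit 0) (nat_lit 0) (nat_lit 0x7fdb54706) (nat_lit 566263129),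
  Rx.mk (nat_lit 365) (nat_lit 5) (nat_lit 5) (nat_lit 5) (nat_lit 7) (nat_lit 311) (nat_lit 311) r2_311 r2_311 (nat_lit 0) (nat_lit 0) (nat_lit 0) (nat_lit 0x8017985b4) (nat_lit 536870912)]
noncomputable def e46_3 : List Rx := [
  Rx.mk (nat_lit 12) (nat_lit 4) (nat_lit 1) (nat_lit 0) (nat_lit 2) (nat_lit 322) (nat_lit 276) r2_322 r3_276 (nat_lit 625176) (nat_lit 0) (nat_lit 870846) (nat_lit 0x6220ea3a6) (nat_lit 1021510934),
  Rx.mk (nat_lit 13) (nat_lit 5) (nat_lit 1) (nat_lit 0) (nat_lit 3) (nat_lit 327) (nat_lit 281) r2_327 r3_281 (nat_lit 0) (nat_lit 0) (nat_lit 29104789) (nat_lit 0x7433cc070) (nat_lit 757442951),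
  Rx.mk (nat_lit 44) (nat_lit 4) (nat_lit 5) (nat_lit 0) (nat_lit 2) (nat_lit 323) (nat_lit 279) r2_323 r3_279 (nat_lit 870846) (nat_lit 0) (nat_lit 625176) (nat_lit 0x6220ea3a6) (nat_lit 1021510934),
  Rx.mk (nat_lit 45) (nat_lit 5) (nat_lit 5) (nat_lit 0) (nat_lit 3) (nat_lit 328) (nat_lit 284) r2_328 r3_284 (nat_lit 0) (nat_lit 0) (nat_lit 16366906) (nat_lit 0x6fe51c4c4) (nat_lit 814305468),
  Rx.mk (nat_lit 47) (nat_lit 7) (nat_lit 5) (nat_lit 0) (nat_lit 3) (nat_lit 332) (nat_lit 286) r2_332 r3_286 (nat_lit 0) (nat_lit 0) (nat_lit 27621288) (nat_lit 0x7e6a285a6) (nat_lit 591112650),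
  Rx.mk (nat_lit 76) (nat_lit 4) (nat_lit 1) (nat_lit 1) (nat_lit 6) (nat_lit 324) (nat_lit 277) r2_324 r3_277 (nat_lit 16366906) (nat_lit 0) (nat_lit 0) (nat_lit 0x6fe51c4c4) (nat_lit 814305468),
  Rx.mk (nat_lit 77) (nat_lit 5) (nat_lit 1) (nat_lit 1) (nat_lit 7) (nat_lit 329) (nat_lit 282) r2_329 r3_282 (nat_lit 0) (nat_lit 0) (nat_lit 0) (nat_lit 0x8017985b4) (nat_lit 536870912),
  Rx.mk (nat_lit 108) (nat_lit 4) (nat_lit 5) (nat_lit 1) (nat_lit 6) (nat_lit 325) (nat_lit 280) r2_325 r3_280 (nat_lit 29104789) (nat_lit 0) (nat_lit 0) (nat_lit 0x7433cc070) (nat_lit 757442951),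
  Rx.mk (nat_lit 109) (nat_lit 5) (nat_lit 5) (nat_lit 1) (nat_lit 7) (nat_lit 330) (nat_lit 285) r2_330 r3_285 (nat_lit 0) (nat_lit 0) (nat_lit 0) (nat_lit 0x8017985b4) (nat_lit 536870912),
  Rx.mk (nat_lit 111) (nat_lit 7) (nat_lit 5) (nat_lit 1) (nat_lit 7) (nat_lit 333) (nat_lit 287) r2_333 r3_287 (nat_lit 0) (nat_lit 0) (nat_lit 0) (nat_lit 0x80395644e) (nat_lit 534801512),
  Rx.mk (nat_lit 204) (nat_lit 4) (nat_lit 1) (nat_lit 3) (nat_lit 6) (nat_lit 326) (nat_lit 278) r2_326 r3_278 (nat_lit 27621288) (nat_lit 0) (nat_lit 0) (nat_lit 0x7e6a285a6) (nat_lit 591112650),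
  Rx.mk (nat_lit 205) (nat_lit 5) (nat_lit 1) (nat_lit 3) (nat_lit 7) (nat_lit 331) (nat_lit 283) r2_331 r3_283 (nat_lit 0) (nat_lit 0) (nat_lit 0) (nat_lit 0x80395644e) (nat_lit 534801512)]
noncomputable def e46_4 : List Rx := [
  Rx.mk (nat_lit 76) (nat_lit 4) (nat_lit 1) (nat_lit 1) (nat_lit 6) (nat_lit 334) (nat_lit 299) r2_334 r4_299 (nat_lit 42912160) (nat_lit 0) (nat_lit 0) (nat_lit 0x7cc9d2418) (nat_lit 632560472),
  Rx.mk (nat_lit 77) (nat_lit 5) (nat_lit 1) (nat_lit 1) (nat_lit 7) (nat_lit 336) (nat_lit 301) r2_336 r4_301 (nat_lit 0) (nat_lit 0) (nat_lit 0) (nat_lit 0x8017985b4) (nat_lit 536870912),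
  Rx.mk (nat_lit 108) (nat_lit 4) (nat_lit 5) (nat_lit 1) (nat_lit 6) (nat_lit 335) (nat_lit 300) r2_335 r4_300 (nat_lit 24741287) (nat_lit 0) (nat_lit 0) (nat_lit 0x7fcaef88e) (nat_lit 566317649),
  Rx.mk (nat_lit 109) (nat_lit 5) (nat_lit 5) (nat_lit 1) (nat_lit 7) (nat_lit 337) (nat_lit 302) r2_337 r4_302 (nat_lit 0) (nat_lit 0) (nat_lit 0) (nat_lit 0x8017985b4) (nat_lit 536870912),
  Rx.mk (nat_lit 111) (nat_lit 7) (nat_lit 5) (nat_lit 1) (nat_lit 7) (nat_lit 338) (nat_lit 303) r2_338 r4_303 (nat_lit 0) (nat_lit 0) (nat_lit 0) (nat_lit 0x8017985b4) (nat_lit 536870912)]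
noncomputable def e46_5 : List Rx := [
  Rx.mk (nat_lit 44) (nat_lit 4) (nat_lit 5) (nat_lit 0) (nat_lit 2) (nat_lit 339) (nat_lit 276) r2_339 r5_276 (nat_lit 29764725) (nat_lit 0) (nat_lit 20559373) (nat_lit 0x5846938aa) (nat_lit 1230188910),
  Rx.mk (nat_lit 45) (nat_lit 5) (nat_lit 5) (nat_lit 0) (nat_lit 3) (nat_lit 343) (nat_lit 280) r2_343 r5_280 (nat_lit 0) (nat_lit 0) (nat_lit 74305846) (nat_lit 0x6bbe842c0) (nat_lit 939452858),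
  Rx.mk (nat_lit 47) (nat_lit 7) (nat_lit 5) (nat_lit 0) (nat_lit 3) (nat_lit 347) (nat_lit 283) r2_347 r5_283 (nat_lit 0) (nat_lit 0) (nat_lit 33327253) (nat_lit 0x7f65916c2) (nat_lit 581168965),
  Rx.mk (nat_lit 108) (nat_lit 4) (nat_lit 5) (nat_lit 1) (nat_lit 6) (nat_lit 340) (nat_lit 277) r2_340 r5_277 (nat_lit 24741287) (nat_lit 0) (nat_lit 0) (nat_lit 0x8017985b4) (nat_lit 561612199),
  Rx.mk (nat_lit 109) (nat_lit 5) (nat_lit 5) (nat_lit 1) (nat_lit 7) (nat_lit 344) (nat_lit 281) r2_344 r5_281 (nat_lit 0) (nat_lit 0) (nat_lit 0) (nat_lit 0x8017985b4) (nat_lit 536870912),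
  Rx.mk (nat_lit 111) (nat_lit 7) (nat_lit 5) (nat_lit 1) (nat_lit 7) (nat_lit 348) (nat_lit 284) r2_348 r5_284 (nat_lit 0) (nat_lit 0) (nat_lit 0) (nat_lit 0x8017985b4) (nat_lit 536870912),
  Rx.mk (nat_lit 204) (nat_lit 4) (nat_lit 1) (nat_lit 3) (nat_lit 6) (nat_lit 341) (nat_lit 275) r2_341 r5_275 (nat_lit 28314395) (nat_lit 0) (nat_lit 0) (nat_lit 0x7f288f256) (nat_lit 579938957),
  Rx.mk (nat_lit 205) (nat_lit 5) (nat_lit 1) (nat_lit 3) (nat_lit 7) (nat_lit 345) (nat_lit 279) r2_345 r5_279 (nat_lit 0) (nat_lit 0) (nat_lit 0) (nat_lit 0x8017985b4) (nat_lit 536870912),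
  Rx.mk (nat_lit 236) (nat_lit 4) (nat_lit 5) (nat_lit 3) (nat_lit 6) (nat_lit 342) (nat_lit 278) r2_342 r5_278 (nat_lit 27157988) (nat_lit 0) (nat_lit 0) (nat_lit 0x7f2b617cc) (nat_lit 578604450),
  Rx.mk (nat_lit 237) (nat_lit 5) (nat_lit 5) (nat_lit 3) (nat_lit 7) (nat_lit 346) (nat_lit 282) r2_346 r5_282 (nat_lit 0) (nat_lit 0) (nat_lit 0) (nat_lit 0x8017985b4) (nat_lit 536870912)]
noncomputable def e46_6 : List Rx := [
  Rx.mk (nat_lit 239) (nat_lit 7) (nat_lit 5) (nat_lit 3) (nat_lit 7) (nat_lit 60) (nat_lit 256) r2_60 r3_256 (nat_lit 0) (nat_lit 0) (nat_lit 0) (nat_lit 0x8616d9e60) (nat_lit 444661462),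
  Rx.mk (nat_lit 492) (nat_lit 4) (nat_lit 5) (nat_lit 7) (nat_lit 6) (nat_lit 59) (nat_lit 254) r2_59 r3_254 (nat_lit 1368375) (nat_lit 0) (nat_lit 0) (nat_lit 0x80b22cd14) (nat_lit 527945287),
  Rx.mk (nat_lit 495) (nat_lit 7) (nat_lit 5) (nat_lit 7) (nat_lit 7) (nat_lit 61) (nat_lit 255) r2_61 r3_255 (nat_lit 0) (nat_lit 0) (nat_lit 0) (nat_lit 0x842b28ae4) (nat_lit 474011712)]
noncomputable def e46_7 : List Rx := [
  Rx.mk (nat_lit 300) (nat_lit 4) (nat_lit 5) (nat_lit 4) (nat_lit 2) (nat_lit 180) (nat_lit 254) r2_180 r0_254 (nat_lit 169414750) (nat_lit 0) (nat_lit 32319873) (nat_lit 0x5d7f70754) (nat_lit 1297226585),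
  Rx.mk (nat_lit 492) (nat_lit 4) (nat_lit 5) (nat_lit 7) (nat_lit 6) (nat_lit 181) (nat_lit 255) r2_181 r0_255 (nat_lit 31094968) (nat_lit 0) (nat_lit 0) (nat_lit 0x7d34113e2) (nat_lit 614066280),
  Rx.mk (nat_lit 495) (nat_lit 7) (nat_lit 5) (nat_lit 7) (nat_lit 7) (nat_lit 182) (nat_lit 256) r2_182 r0_256 (nat_lit 0) (nat_lit 0) (nat_lit 0) (nat_lit 0x8017985b4) (nat_lit 536870912)]
noncomputable def e46_8 : List Rx := [
  Rx.mk (nat_lit 300) (nat_lit 4) (nat_lit 5) (nat_lit 4) (nat_lit 2) (nat_lit 183) (nat_lit 258) r2_183 r1_258 (nat_lit 69955890) (nat_lit 0) (nat_lit 62162713) (nat_lit 0x67d3cb8d0) (nat_lit 1060595215),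
  Rx.mk (nat_lit 364) (nat_lit 4) (nat_lit 5) (nat_lit 5) (nat_lit 6) (nat_lit 184) (nat_lit 259) r2_184 r1_259 (nat_lit 24741287) (nat_lit 0) (nat_lit 0) (nat_lit 0x8017985b4) (nat_lit 561612199),
  Rx.mk (nat_lit 492) (nat_lit 4) (nat_lit 5) (nat_lit 7) (nat_lit 6) (nat_lit 185) (nat_lit 260) r2_185 r1_260 (nat_lit 25157357) (nat_lit 0) (nat_lit 0) (nat_lit 0x800ccd3b4) (nat_lit 562687369),
  Rx.mk (nat_lit 495) (nat_lit 7) (nat_lit 5) (nat_lit 7) (nat_lit 7) (nat_lit 186) (nat_lit 261) r2_186 r1_261 (nat_lit 0) (nat_lit 0) (nat_lit 0) (nat_lit 0x8017985b4) (nat_lit 536870912)]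
noncomputable def e46_9 : List Rx := [
  Rx.mk (nat_lit 492) (nat_lit 4) (nat_lit 5) (nat_lit 7) (nat_lit 6) (nat_lit 187) (nat_lit 271) r2_187 r4_271 (nat_lit 24741287) (nat_lit 0) (nat_lit 0) (nat_lit 0x8017985b4) (nat_lit 561612199),
  Rx.mk (nat_lit 495) (nat_lit 7) (nat_lit 5) (nat_lit 7) (nat_lit 7) (nat_lit 188) (nat_lit 272) r2_188 r4_272 (nat_lit 0) (nat_lit 0) (nat_lit 0) (nat_lit 0x8017985b4) (nat_lit 536870912)]
noncomputable def e46_10 : List Rx := [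
  Rx.mk (nat_lit 47) (nat_lit 7) (nat_lit 5) (nat_lit 0) (nat_lit 3) (nat_lit 253) (nat_lit 308) r2_253 r6_308 (nat_lit 0) (nat_lit 0) (nat_lit 32877958) (nat_lit 0x7f6f4bf78) (nat_lit 580120470),
  Rx.mk (nat_lit 204) (nat_lit 4) (nat_lit 1) (nat_lit 3) (nat_lit 6) (nat_lit 251) (nat_lit 306) r2_251 r6_306 (nat_lit 37541131) (nat_lit 0) (nat_lit 0) (nat_lit 0x7f337957c) (nat_lit 588490643),
  Rx.mk (nat_lit 236) (nat_lit 4) (nat_lit 5) (nat_lit 3) (nat_lit 6) (nat_lit 252) (nat_lit 307) r2_252 r6_307 (nat_lit 25088397) (nat_lit 0) (nat_lit 0) (nat_lit 0x7fe4f918a) (nat_lit 565068109),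
  Rx.mk (nat_lit 239) (nat_lit 7) (nat_lit 5) (nat_lit 3) (nat_lit 7) (nat_lit 254) (nat_lit 309) r2_254 r6_309 (nat_lit 0) (nat_lit 0) (nat_lit 0) (nat_lit 0x8017985b4) (nat_lit 536870912)]
noncomputable def e46_11 : List Rx := [
  Rx.mk (nat_lit 236) (nat_lit 4) (nat_lit 5) (nat_lit 3) (nat_lit 6) (nat_lit 255) (nat_lit 259) r2_255 r5_259 (nat_lit 20262659) (nat_lit 0) (nat_lit 0) (nat_lit 0x7ffd89060) (nat_lit 558709871),
  Rx.mk (nat_lit 239) (nat_lit 7) (nat_lit 5) (nat_lit 3) (nat_lit 7) (nat_lit 257) (nat_lit 260) r2_257 r5_260 (nat_lit 0) (nat_lit 0) (nat_lit 0) (nat_lit 0x8017985b4) (nat_lit 536870912),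
  Rx.mk (nat_lit 492) (nat_lit 4) (nat_lit 5) (nat_lit 7) (nat_lit 6) (nat_lit 256) (nat_lit 258) r2_256 r5_258 (nat_lit 39193482) (nat_lit 0) (nat_lit 0) (nat_lit 0x80a1c8662) (nat_lit 567515444)]
noncomputable def e46_12 : List Rx := [
  Rx.mk (nat_lit 13) (nat_lit 5) (nat_lit 1) (nat_lit 0) (nat_lit 3) (nat_lit 280) (nat_lit 286) r2_280 r0_286 (nat_lit 0) (nat_lit 0) (nat_lit 29130114) (nat_lit 0x7eda42850) (nat_lit 585601326),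
  Rx.mk (nat_lit 45) (nat_lit 5) (nat_lit 5) (nat_lit 0) (nat_lit 3) (nat_lit 281) (nat_lit 285) r2_281 r0_285 (nat_lit 0) (nat_lit 0) (nat_lit 65725081) (nat_lit 0x7b4d9ae64) (nat_lit 679298593),
  Rx.mk (nat_lit 77) (nat_lit 5) (nat_lit 1) (nat_lit 1) (nat_lit 7) (nat_lit 282) (nat_lit 288) r2_282 r0_288 (nat_lit 0) (nat_lit 0) (nat_lit 0) (nat_lit 0x8017985b4) (nat_lit 536870912),
  Rx.mk (nat_lit 109) (nat_lit 5) (nat_lit 5) (nat_lit 1) (nat_lit 7) (nat_lit 283) (nat_lit 287) r2_283 r0_287 (nat_lit 0) (nat_lit 0) (nat_lit 0) (nat_lit 0x8017985b4) (nat_lit 536870912)]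
noncomputable def e46_13 : List Rx := [
  Rx.mk (nat_lit 77) (nat_lit 5) (nat_lit 1) (nat_lit 1) (nat_lit 7) (nat_lit 284) (nat_lit 399) r2_284 r7_399 (nat_lit 0) (nat_lit 0) (nat_lit 0) (nat_lit 0x8017985b4) (nat_lit 536870912),
  Rx.mk (nat_lit 109) (nat_lit 5) (nat_lit 5) (nat_lit 1) (nat_lit 7) (nat_lit 285) (nat_lit 400) r2_285 r7_400 (nat_lit 0) (nat_lit 0) (nat_lit 0) (nat_lit 0x8017985b4) (nat_lit 536870912)]
noncomputable def e46_14 : List Rx := [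
  Rx.mk (nat_lit 9) (nat_lit 1) (nat_lit 1) (nat_lit 0) (nat_lit 3) (nat_lit 295) (nat_lit 282) r2_295 r1_282 (nat_lit 0) (nat_lit 0) (nat_lit 24741287) (nat_lit 0x8017985b4) (nat_lit 561612199),
  Rx.mk (nat_lit 13) (nat_lit 5) (nat_lit 1) (nat_lit 0) (nat_lit 3) (nat_lit 297) (nat_lit 281) r2_297 r1_281 (nat_lit 0) (nat_lit 0) (nat_lit 24741287) (nat_lit 0x80411f176) (nat_lit 559058049),
  Rx.mk (nat_lit 45) (nat_lit 5) (nat_lit 5) (nat_lit 0) (nat_lit 3) (nat_lit 298) (nat_lit 280) r2_298 r1_280 (nat_lit 0) (nat_lit 0) (nat_lit 34697810) (nat_lit 0x7fda33674) (nat_lit 575291622),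
  Rx.mk (nat_lit 73) (nat_lit 1) (nat_lit 1) (nat_lit 1) (nat_lit 7) (nat_lit 296) (nat_lit 285) r2_296 r1_285 (nat_lit 0) (nat_lit 0) (nat_lit 0) (nat_lit 0x8017985b4) (nat_lit 536870912),
  Rx.mk (nat_lit 77) (nat_lit 5) (nat_lit 1) (nat_lit 1) (nat_lit 7) (nat_lit 299) (nat_lit 284) r2_299 r1_284 (nat_lit 0) (nat_lit 0) (nat_lit 0) (nat_lit 0x8017985b4) (nat_lit 536870912),
  Rx.mk (nat_lit 109) (nat_lit 5) (nat_lit 5) (nat_lit 1) (nat_lit 7) (nat_lit 300) (nat_lit 283) r2_300 r1_283 (nat_lit 0) (nat_lit 0) (nat_lit 0) (nat_lit 0x8017985b4) (nat_lit 536870912)]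
noncomputable def e46_15 : List Rx := [
  Rx.mk (nat_lit 73) (nat_lit 1) (nat_lit 1) (nat_lit 1) (nat_lit 7) (nat_lit 301) (nat_lit 320) r2_301 r8_320 (nat_lit 0) (nat_lit 0) (nat_lit 0) (nat_lit 0x8017985b4) (nat_lit 536870912),
  Rx.mk (nat_lit 77) (nat_lit 5) (nat_lit 1) (nat_lit 1) (nat_lit 7) (nat_lit 302) (nat_lit 321) r2_302 r8_321 (nat_lit 0) (nat_lit 0) (nat_lit 0) (nat_lit 0x8017985b4) (nat_lit 536870912),
  Rx.mk (nat_lit 109) (nat_lit 5) (nat_lit 5) (nat_lit 1) (nat_lit 7) (nat_lit 303) (nat_lit 322) r2_303 r8_322 (nat_lit 0) (nat_lit 0) (nat_lit 0) (nat_lit 0x8017985b4) (nat_lit 536870912)]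
noncomputable def e46_16 : List Rx := [
  Rx.mk (nat_lit 77) (nat_lit 5) (nat_lit 1) (nat_lit 1) (nat_lit 7) (nat_lit 312) (nat_lit 322) r2_312 r8_322 (nat_lit 0) (nat_lit 0) (nat_lit 0) (nat_lit 0x8017985b4) (nat_lit 536870912),
  Rx.mk (nat_lit 109) (nat_lit 5) (nat_lit 5) (nat_lit 1) (nat_lit 7) (nat_lit 313) (nat_lit 321) r2_313 r8_321 (nat_lit 0) (nat_lit 0) (nat_lit 0) (nat_lit 0x8017985b4) (nat_lit 536870912),
  Rx.mk (nat_lit 365) (nat_lit 5) (nat_lit 5) (nat_lit 5) (nat_lit 7) (nat_lit 314) (nat_lit 320) r2_314 r8_320 (nat_lit 0) (nat_lit 0) (nat_lit 0) (nat_lit 0x8017985b4) (nat_lit 536870912)]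
noncomputable def e46_17 : List Rx := [
  Rx.mk (nat_lit 365) (nat_lit 5) (nat_lit 5) (nat_lit 5) (nat_lit 7) (nat_lit 315) (nat_lit 293) r2_315 r9_293 (nat_lit 0) (nat_lit 0) (nat_lit 0) (nat_lit 0x8017985b4) (nat_lit 536870912)]
noncomputable def e46_18 : List Rx := [
  Rx.mk (nat_lit 13) (nat_lit 5) (nat_lit 1) (nat_lit 0) (nat_lit 3) (nat_lit 349) (nat_lit 300) r2_349 r4_300 (nat_lit 0) (nat_lit 0) (nat_lit 24741287) (nat_lit 0x7fcaef88e) (nat_lit 566317649),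
  Rx.mk (nat_lit 45) (nat_lit 5) (nat_lit 5) (nat_lit 0) (nat_lit 3) (nat_lit 350) (nat_lit 299) r2_350 r4_299 (nat_lit 0) (nat_lit 0) (nat_lit 42912160) (nat_lit 0x7cc9d2418) (nat_lit 632560472),
  Rx.mk (nat_lit 77) (nat_lit 5) (nat_lit 1) (nat_lit 1) (nat_lit 7) (nat_lit 351) (nat_lit 302) r2_351 r4_302 (nat_lit 0) (nat_lit 0) (nat_lit 0) (nat_lit 0x8017985b4) (nat_lit 536870912),
  Rx.mk (nat_lit 109) (nat_lit 5) (nat_lit 5) (nat_lit 1) (nat_lit 7) (nat_lit 352) (nat_lit 301) r2_352 r4_301 (nat_lit 0) (nat_lit 0) (nat_lit 0) (nat_lit 0x8017985b4) (nat_lit 536870912),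
  Rx.mk (nat_lit 205) (nat_lit 5) (nat_lit 1) (nat_lit 3) (nat_lit 7) (nat_lit 353) (nat_lit 303) r2_353 r4_303 (nat_lit 0) (nat_lit 0) (nat_lit 0) (nat_lit 0x8017985b4) (nat_lit 536870912)]
noncomputable def e46_19 : List Rx := [
  Rx.mk (nat_lit 77) (nat_lit 5) (nat_lit 1) (nat_lit 1) (nat_lit 7) (nat_lit 354) (nat_lit 323) r2_354 r10_323 (nat_lit 0) (nat_lit 0) (nat_lit 0) (nat_lit 0x8017985b4) (nat_lit 536870912),
  Rx.mk (nat_lit 109) (nat_lit 5) (nat_lit 5) (nat_lit 1) (nat_lit 7) (nat_lit 355) (nat_lit 324) r2_355 r10_324 (nat_lit 0) (nat_lit 0) (nat_lit 0) (nat_lit 0x8017985b4) (nat_lit 536870912)]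
noncomputable def e46_20 : List Rx := [
  Rx.mk (nat_lit 45) (nat_lit 5) (nat_lit 5) (nat_lit 0) (nat_lit 3) (nat_lit 356) (nat_lit 340) r2_356 r11_340 (nat_lit 0) (nat_lit 0) (nat_lit 27655321) (nat_lit 0x7fd1d42f8) (nat_lit 568815833),
  Rx.mk (nat_lit 109) (nat_lit 5) (nat_lit 5) (nat_lit 1) (nat_lit 7) (nat_lit 357) (nat_lit 341) r2_357 r11_341 (nat_lit 0) (nat_lit 0) (nat_lit 0) (nat_lit 0x8017985b4) (nat_lit 536870912),
  Rx.mk (nat_lit 205) (nat_lit 5) (nat_lit 1) (nat_lit 3) (nat_lit 7) (nat_lit 358) (nat_lit 339) r2_358 r11_339 (nat_lit 0) (nat_lit 0) (nat_lit 0) (nat_lit 0x8017985b4) (nat_lit 536870912),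
  Rx.mk (nat_lit 237) (nat_lit 5) (nat_lit 5) (nat_lit 3) (nat_lit 7) (nat_lit 359) (nat_lit 342) r2_359 r11_342 (nat_lit 0) (nat_lit 0) (nat_lit 0) (nat_lit 0x8017985b4) (nat_lit 536870912)]
noncomputable def e46_21 : List Rx := [
  Rx.mk (nat_lit 356) (nat_lit 4) (nat_lit 4) (nat_lit 5) (nat_lit 4) (nat_lit 316) (nat_lit 260) r2_316 r9_260 (nat_lit 40876841) (nat_lit 67893355) (nat_lit 0) (nat_lit 0x6a127e06c) (nat_lit 1000948958),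
  Rx.mk (nat_lit 358) (nat_lit 6) (nat_lit 4) (nat_lit 5) (nat_lit 5) (nat_lit 319) (nat_lit 261) r2_319 r9_261 (nat_lit 0) (nat_lit 24741287) (nat_lit 0) (nat_lit 0x8017985b4) (nat_lit 561612199),
  Rx.mk (nat_lit 364) (nat_lit 4) (nat_lit 5) (nat_lit 5) (nat_lit 6) (nat_lit 317) (nat_lit 262) r2_317 r9_262 (nat_lit 24603401) (nat_lit 0) (nat_lit 0) (nat_lit 0x8007974d0) (nat_lit 562452963),
  Rx.mk (nat_lit 365) (nat_lit 5) (nat_lit 5) (nat_lit 5) (nat_lit 7) (nat_lit 318) (nat_lit 263) r2_318 r9_263 (nat_lit 0) (nat_lit 0) (nat_lit 0) (nat_lit 0x8017985b4) (nat_lit 536870912),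
  Rx.mk (nat_lit 366) (nat_lit 6) (nat_lit 5) (nat_lit 5) (nat_lit 7) (nat_lit 320) (nat_lit 264) r2_320 r9_264 (nat_lit 0) (nat_lit 0) (nat_lit 0) (nat_lit 0x8017985b4) (nat_lit 536870912),
  Rx.mk (nat_lit 374) (nat_lit 6) (nat_lit 6) (nat_lit 5) (nat_lit 7) (nat_lit 321) (nat_lit 265) r2_321 r9_265 (nat_lit 0) (nat_lit 0) (nat_lit 0) (nat_lit 0x8017985b4) (nat_lit 536870912)]
noncomputable def e46_22 : List Rx := [
  Rx.mk (nat_lit 255) (nat_lit 7) (nat_lit 7) (nat_lit 3) (nat_lit 7) (nat_lit 71) (nat_lit 30) r2_71 r0_30 (nat_lit 0) (nat_lit 0) (nat_lit 0) (nat_lit 0x7ff838a16) (nat_lit 538790162),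
  Rx.mk (nat_lit 294) (nat_lit 6) (nat_lit 4) (nat_lit 4) (nat_lit 1) (nat_lit 64) (nat_lit 31) r2_64 r0_31 (nat_lit 0) (nat_lit 5596514) (nat_lit 6423183) (nat_lit 0x5ddaed8d4) (nat_lit 1101594159),
  Rx.mk (nat_lit 302) (nat_lit 6) (nat_lit 5) (nat_lit 4) (nat_lit 3) (nat_lit 65) (nat_lit 32) r2_65 r0_32 (nat_lit 0) (nat_lit 0) (nat_lit 15050003) (nat_lit 0x808182fe2) (nat_lit 545392665),
  Rx.mk (nat_lit 310) (nat_lit 6) (nat_lit 6) (nat_lit 4) (nat_lit 3) (nat_lit 66) (nat_lit 33) r2_66 r0_33 (nat_lit 0) (nat_lit 0) (nat_lit 26786742) (nat_lit 0x7e49fc304) (nat_lit 592261154),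
  Rx.mk (nat_lit 438) (nat_lit 6) (nat_lit 6) (nat_lit 6) (nat_lit 7) (nat_lit 67) (nat_lit 42) r2_67 r0_42 (nat_lit 0) (nat_lit 0) (nat_lit 0) (nat_lit 0x8017985b4) (nat_lit 536870912),
  Rx.mk (nat_lit 484) (nat_lit 4) (nat_lit 4) (nat_lit 7) (nat_lit 4) (nat_lit 62) (nat_lit 34) r2_62 r0_34 (nat_lit 13136814) (nat_lit 4998249) (nat_lit 0) (nat_lit 0x5b905ca06) (nat_lit 1144741775),
  Rx.mk (nat_lit 486) (nat_lit 6) (nat_lit 4) (nat_lit 7) (nat_lit 5) (nat_lit 68) (nat_lit 39) r2_68 r0_39 (nat_lit 0) (nat_lit 5674149) (nat_lit 0) (nat_lit 0x7eaf25780) (nat_lit 564630711),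
  Rx.mk (nat_lit 487) (nat_lit 7) (nat_lit 4) (nat_lit 7) (nat_lit 5) (nat_lit 72) (nat_lit 36) r2_72 r0_36 (nat_lit 0) (nat_lit 21507758) (nat_lit 0) (nat_lit 0x7d43469ac) (nat_lit 603533220),
  Rx.mk (nat_lit 492) (nat_lit 4) (nat_lit 5) (nat_lit 7) (nat_lit 6) (nat_lit 63) (nat_lit 35) r2_63 r0_35 (nat_lit 28341495) (nat_lit 0) (nat_lit 0) (nat_lit 0x7c3b84864) (nat_lit 626988107),
  Rx.mk (nat_lit 494) (nat_lit 6) (nat_lit 5) (nat_lit 7) (nat_lit 7) (nat_lit 69) (nat_lit 40) r2_69 r0_40 (nat_lit 0) (nat_lit 0) (nat_lit 0) (nat_lit 0x816b1f196) (nat_lit 516210712),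
  Rx.mk (nat_lit 495) (nat_lit 7) (nat_lit 5) (nat_lit 7) (nat_lit 7) (nat_lit 73) (nat_lit 37) r2_73 r0_37 (nat_lit 0) (nat_lit 0) (nat_lit 0) (nat_lit 0x8017985b4) (nat_lit 536870912),
  Rx.mk (nat_lit 502) (nat_lit 6) (nat_lit 6) (nat_lit 7) (nat_lit 7) (nat_lit 70) (nat_lit 41) r2_70 r0_41 (nat_lit 0) (nat_lit 0) (nat_lit 0) (nat_lit 0x81560cc68) (nat_lit 517481712),
  Rx.mk (nat_lit 511) (nat_lit 7) (nat_lit 7) (nat_lit 7) (nat_lit 7) (nat_lit 74) (nat_lit 38) r2_74 r0_38 (nat_lit 0) (nat_lit 0) (nat_lit 0) (nat_lit 0x7ffabadac) (nat_lit 538636162)]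
noncomputable def e46_23 : List Rx := [
  Rx.mk (nat_lit 255) (nat_lit 7) (nat_lit 7) (nat_lit 3) (nat_lit 7) (nat_lit 81) (nat_lit 30) r2_81 r1_30 (nat_lit 0) (nat_lit 0) (nat_lit 0) (nat_lit 0x8017985b4) (nat_lit 536870912),
  Rx.mk (nat_lit 294) (nat_lit 6) (nat_lit 4) (nat_lit 4) (nat_lit 1) (nat_lit 76) (nat_lit 31) r2_76 r1_31 (nat_lit 0) (nat_lit 19918432) (nat_lit 28114446) (nat_lit 0x712066600) (nat_lit 826141340),
  Rx.mk (nat_lit 310) (nat_lit 6) (nat_lit 6) (nat_lit 4) (nat_lit 3) (nat_lit 77) (nat_lit 32) r2_77 r1_32 (nat_lit 0) (nat_lit 0) (nat_lit 35404402) (nat_lit 0x7ebadf3d2) (nat_lit 593887464),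
  Rx.mk (nat_lit 438) (nat_lit 6) (nat_lit 6) (nat_lit 6) (nat_lit 7) (nat_lit 78) (nat_lit 38) r2_78 r1_38 (nat_lit 0) (nat_lit 0) (nat_lit 0) (nat_lit 0x8017985b4) (nat_lit 536870912),
  Rx.mk (nat_lit 484) (nat_lit 4) (nat_lit 4) (nat_lit 7) (nat_lit 4) (nat_lit 75) (nat_lit 33) r2_75 r1_33 (nat_lit 29030061) (nat_lit 23439880) (nat_lit 0) (nat_lit 0x6ea7937fc) (nat_lit 870542453),
  Rx.mk (nat_lit 486) (nat_lit 6) (nat_lit 4) (nat_lit 7) (nat_lit 5) (nat_lit 79) (nat_lit 36) r2_79 r1_36 (nat_lit 0) (nat_lit 12320371) (nat_lit 0) (nat_lit 0x80de8e3da) (nat_lit 537025133),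
  Rx.mk (nat_lit 487) (nat_lit 7) (nat_lit 4) (nat_lit 7) (nat_lit 5) (nat_lit 82) (nat_lit 34) r2_82 r1_34 (nat_lit 0) (nat_lit 24741287) (nat_lit 0) (nat_lit 0x800662966) (nat_lit 562664999),
  Rx.mk (nat_lit 502) (nat_lit 6) (nat_lit 6) (nat_lit 7) (nat_lit 7) (nat_lit 80) (nat_lit 37) r2_80 r1_37 (nat_lit 0) (nat_lit 0) (nat_lit 0) (nat_lit 0x804b9beec) (nat_lit 533672912),
  Rx.mk (nat_lit 511) (nat_lit 7) (nat_lit 7) (nat_lit 7) (nat_lit 7) (nat_lit 83) (nat_lit 35) r2_83 r1_35 (nat_lit 0) (nat_lit 0) (nat_lit 0) (nat_lit 0x8017985b4) (nat_lit 536870912)]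
noncomputable def e46_24 : List Rx := [
  Rx.mk (nat_lit 231) (nat_lit 7) (nat_lit 4) (nat_lit 3) (nat_lit 5) (nat_lit 89) (nat_lit 21) r2_89 r4_21 (nat_lit 0) (nat_lit 16949147) (nat_lit 0) (nat_lit 0x80890f31e) (nat_lit 546864309),
  Rx.mk (nat_lit 239) (nat_lit 7) (nat_lit 5) (nat_lit 3) (nat_lit 7) (nat_lit 90) (nat_lit 22) r2_90 r4_22 (nat_lit 0) (nat_lit 0) (nat_lit 0) (nat_lit 0x8017985b4) (nat_lit 536870912),
  Rx.mk (nat_lit 255) (nat_lit 7) (nat_lit 7) (nat_lit 3) (nat_lit 7) (nat_lit 91) (nat_lit 23) r2_91 r4_23 (nat_lit 0) (nat_lit 0) (nat_lit 0) (nat_lit 0x8017985b4) (nat_lit 536870912),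
  Rx.mk (nat_lit 484) (nat_lit 4) (nat_lit 4) (nat_lit 7) (nat_lit 4) (nat_lit 84) (nat_lit 24) r2_84 r4_24 (nat_lit 8468611) (nat_lit 4698401) (nat_lit 0) (nat_lit 0x6f73fce92) (nat_lit 818155574),
  Rx.mk (nat_lit 486) (nat_lit 6) (nat_lit 4) (nat_lit 7) (nat_lit 5) (nat_lit 86) (nat_lit 28) r2_86 r4_28 (nat_lit 0) (nat_lit 4236250) (nat_lit 0) (nat_lit 0x81374ce9a) (nat_lit 523350712),
  Rx.mk (nat_lit 487) (nat_lit 7) (nat_lit 4) (nat_lit 7) (nat_lit 5) (nat_lit 92) (nat_lit 26) r2_92 r4_26 (nat_lit 0) (nat_lit 18137495) (nat_lit 0) (nat_lit 0x807289324) (nat_lit 549428707),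
  Rx.mk (nat_lit 492) (nat_lit 4) (nat_lit 5) (nat_lit 7) (nat_lit 6) (nat_lit 85) (nat_lit 25) r2_85 r4_25 (nat_lit 26453388) (nat_lit 0) (nat_lit 0) (nat_lit 0x802d4deae) (nat_lit 561974850),
  Rx.mk (nat_lit 494) (nat_lit 6) (nat_lit 5) (nat_lit 7) (nat_lit 7) (nat_lit 87) (nat_lit 29) r2_87 r4_29 (nat_lit 0) (nat_lit 0) (nat_lit 0) (nat_lit 0x817902fd8) (nat_lit 515379662),
  Rx.mk (nat_lit 495) (nat_lit 7) (nat_lit 5) (nat_lit 7) (nat_lit 7) (nat_lit 93) (nat_lit 27) r2_93 r4_27 (nat_lit 0) (nat_lit 0) (nat_lit 0) (nat_lit 0x8017985b4) (nat_lit 536870912),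
  Rx.mk (nat_lit 502) (nat_lit 6) (nat_lit 6) (nat_lit 7) (nat_lit 7) (nat_lit 88) (nat_lit 30) r2_88 r4_30 (nat_lit 0) (nat_lit 0) (nat_lit 0) (nat_lit 0x8173c4f94) (nat_lit 515699662)]
noncomputable def e46_25 : List Rx := [
  Rx.mk (nat_lit 292) (nat_lit 4) (nat_lit 4) (nat_lit 4) (nat_lit 0) (nat_lit 189) (nat_lit 339) r2_189 r7_339 (nat_lit 3422726) (nat_lit 2611593) (nat_lit 2362318) (nat_lit 0x3ce06297a) (nat_lit 1631121799),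
  Rx.mk (nat_lit 294) (nat_lit 6) (nat_lit 4) (nat_lit 4) (nat_lit 1) (nat_lit 193) (nat_lit 342) r2_193 r7_342 (nat_lit 0) (nat_lit 15431888) (nat_lit 12919491) (nat_lit 0x6872d6740) (nat_lit 946738841),
  Rx.mk (nat_lit 300) (nat_lit 4) (nat_lit 5) (nat_lit 4) (nat_lit 2) (nat_lit 190) (nat_lit 344) r2_190 r7_344 (nat_lit 55381709) (nat_lit 0) (nat_lit 33242310) (nat_lit 0x6310bfaca) (nat_lit 1094102531),
  Rx.mk (nat_lit 302) (nat_lit 6) (nat_lit 5) (nat_lit 4) (nat_lit 3) (nat_lit 194) (nat_lit 347) r2_194 r7_347 (nat_lit 0) (nat_lit 0) (nat_lit 25208910) (nat_lit 0x800becfd0) (nat_lit 562792922),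
  Rx.mk (nat_lit 310) (nat_lit 6) (nat_lit 6) (nat_lit 4) (nat_lit 3) (nat_lit 195) (nat_lit 350) r2_195 r7_350 (nat_lit 0) (nat_lit 0) (nat_lit 24741287) (nat_lit 0x800c2469c) (nat_lit 562313099),
  Rx.mk (nat_lit 438) (nat_lit 6) (nat_lit 6) (nat_lit 6) (nat_lit 7) (nat_lit 196) (nat_lit 352) r2_196 r7_352 (nat_lit 0) (nat_lit 0) (nat_lit 0) (nat_lit 0x8017985b4) (nat_lit 536870912),
  Rx.mk (nat_lit 484) (nat_lit 4) (nat_lit 4) (nat_lit 7) (nat_lit 4) (nat_lit 191) (nat_lit 340) r2_191 r7_340 (nat_lit 15429794) (nat_lit 17983786) (nat_lit 0) (nat_lit 0x642450a34) (nat_lit 1021437892),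
  Rx.mk (nat_lit 486) (nat_lit 6) (nat_lit 4) (nat_lit 7) (nat_lit 5) (nat_lit 197) (nat_lit 343) r2_197 r7_343 (nat_lit 0) (nat_lit 24741287) (nat_lit 0) (nat_lit 0x800bf9d8e) (nat_lit 562322849),
  Rx.mk (nat_lit 487) (nat_lit 7) (nat_lit 4) (nat_lit 7) (nat_lit 5) (nat_lit 200) (nat_lit 341) r2_200 r7_341 (nat_lit 0) (nat_lit 24741287) (nat_lit 0) (nat_lit 0x7ffac5806) (nat_lit 563378349),
  Rx.mk (nat_lit 492) (nat_lit 4) (nat_lit 5) (nat_lit 7) (nat_lit 6) (nat_lit 192) (nat_lit 345) r2_192 r7_345 (nat_lit 24741287) (nat_lit 0) (nat_lit 0) (nat_lit 0x800c30b36) (nat_lit 562309299),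
  Rx.mk (nat_lit 494) (nat_lit 6) (nat_lit 5) (nat_lit 7) (nat_lit 7) (nat_lit 198) (nat_lit 348) r2_198 r7_348 (nat_lit 0) (nat_lit 0) (nat_lit 0) (nat_lit 0x8017985b4) (nat_lit 536870912),
  Rx.mk (nat_lit 495) (nat_lit 7) (nat_lit 5) (nat_lit 7) (nat_lit 7) (nat_lit 201) (nat_lit 346) r2_201 r7_346 (nat_lit 0) (nat_lit 0) (nat_lit 0) (nat_lit 0x8017985b4) (nat_lit 536870912),
  Rx.mk (nat_lit 502) (nat_lit 6) (nat_lit 6) (nat_lit 7) (nat_lit 7) (nat_lit 199) (nat_lit 351) r2_199 r7_351 (nat_lit 0) (nat_lit 0) (nat_lit 0) (nat_lit 0x8017985b4) (nat_lit 536870912),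
  Rx.mk (nat_lit 511) (nat_lit 7) (nat_lit 7) (nat_lit 7) (nat_lit 7) (nat_lit 202) (nat_lit 349) r2_202 r7_349 (nat_lit 0) (nat_lit 0) (nat_lit 0) (nat_lit 0x8017985b4) (nat_lit 536870912)]
noncomputable def e46_26 : List Rx := [
  Rx.mk (nat_lit 292) (nat_lit 4) (nat_lit 4) (nat_lit 4) (nat_lit 0) (nat_lit 221) (nat_lit 257) r2_221 r8_257 (nat_lit 9703689) (nat_lit 8042902) (nat_lit 7956767) (nat_lit 0x3b91a0bee) (nat_lit 1669754570),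
  Rx.mk (nat_lit 294) (nat_lit 6) (nat_lit 4) (nat_lit 4) (nat_lit 1) (nat_lit 223) (nat_lit 260) r2_223 r8_260 (nat_lit 0) (nat_lit 26855489) (nat_lit 23014465) (nat_lit 0x65ff1eed0) (nat_lit 1007952966),
  Rx.mk (nat_lit 310) (nat_lit 6) (nat_lit 6) (nat_lit 4) (nat_lit 3) (nat_lit 224) (nat_lit 263) r2_224 r8_263 (nat_lit 0) (nat_lit 0) (nat_lit 24741287) (nat_lit 0x8005746a8) (nat_lit 562722999),
  Rx.mk (nat_lit 438) (nat_lit 6) (nat_lit 6) (nat_lit 6) (nat_lit 7) (nat_lit 225) (nat_lit 265) r2_225 r8_265 (nat_lit 0) (nat_lit 0) (nat_lit 0) (nat_lit 0x8017985b4) (nat_lit 536870912),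
  Rx.mk (nat_lit 484) (nat_lit 4) (nat_lit 4) (nat_lit 7) (nat_lit 4) (nat_lit 222) (nat_lit 258) r2_222 r8_258 (nat_lit 23096430) (nat_lit 26195638) (nat_lit 0) (nat_lit 0x64c1b892a) (nat_lit 1027421630),
  Rx.mk (nat_lit 486) (nat_lit 6) (nat_lit 4) (nat_lit 7) (nat_lit 5) (nat_lit 226) (nat_lit 261) r2_226 r8_261 (nat_lit 0) (nat_lit 25403330) (nat_lit 0) (nat_lit 0x7ff0757d4) (nat_lit 564659792),
  Rx.mk (nat_lit 487) (nat_lit 7) (nat_lit 4) (nat_lit 7) (nat_lit 5) (nat_lit 228) (nat_lit 259) r2_228 r8_259 (nat_lit 0) (nat_lit 24741287) (nat_lit 0) (nat_lit 0x8017985b4) (nat_lit 561612199),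
  Rx.mk (nat_lit 502) (nat_lit 6) (nat_lit 6) (nat_lit 7) (nat_lit 7) (nat_lit 227) (nat_lit 264) r2_227 r8_264 (nat_lit 0) (nat_lit 0) (nat_lit 0) (nat_lit 0x8017985b4) (nat_lit 536870912),
  Rx.mk (nat_lit 511) (nat_lit 7) (nat_lit 7) (nat_lit 7) (nat_lit 7) (nat_lit 229) (nat_lit 262) r2_229 r8_262 (nat_lit 0) (nat_lit 0) (nat_lit 0) (nat_lit 0x8017985b4) (nat_lit 536870912)]
noncomputable def e46_27 : List Rx := [
  Rx.mk (nat_lit 292) (nat_lit 4) (nat_lit 4) (nat_lit 4) (nat_lit 0) (nat_lit 203) (nat_lit 25) r2_203 r8_25 (nat_lit 12331261) (nat_lit 5186153) (nat_lit 4963972) (nat_lit 0x3d9490d48) (nat_lit 1633943848),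
  Rx.mk (nat_lit 294) (nat_lit 6) (nat_lit 4) (nat_lit 4) (nat_lit 1) (nat_lit 209) (nat_lit 27) r2_209 r8_27 (nat_lit 0) (nat_lit 24833065) (nat_lit 21402582) (nat_lit 0x6b091ef98) (nat_lit 922817759),
  Rx.mk (nat_lit 300) (nat_lit 4) (nat_lit 5) (nat_lit 4) (nat_lit 2) (nat_lit 204) (nat_lit 26) r2_204 r8_26 (nat_lit 52104926) (nat_lit 0) (nat_lit 34582474) (nat_lit 0x6328cac00) (nat_lit 1090646762),
  Rx.mk (nat_lit 302) (nat_lit 6) (nat_lit 5) (nat_lit 4) (nat_lit 3) (nat_lit 210) (nat_lit 28) r2_210 r8_28 (nat_lit 0) (nat_lit 0) (nat_lit 24741287) (nat_lit 0x8017985b4) (nat_lit 561612199),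
  Rx.mk (nat_lit 310) (nat_lit 6) (nat_lit 6) (nat_lit 4) (nat_lit 3) (nat_lit 211) (nat_lit 29) r2_211 r8_29 (nat_lit 0) (nat_lit 0) (nat_lit 24741287) (nat_lit 0x7fd79296a) (nat_lit 565539099),
  Rx.mk (nat_lit 356) (nat_lit 4) (nat_lit 4) (nat_lit 5) (nat_lit 4) (nat_lit 205) (nat_lit 30) r2_205 r8_30 (nat_lit 36724435) (nat_lit 57149300) (nat_lit 0) (nat_lit 0x6701206b0) (nat_lit 1035651797),
  Rx.mk (nat_lit 358) (nat_lit 6) (nat_lit 4) (nat_lit 5) (nat_lit 5) (nat_lit 212) (nat_lit 32) r2_212 r8_32 (nat_lit 0) (nat_lit 24741287) (nat_lit 0) (nat_lit 0x8017985b4) (nat_lit 561612199),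
  Rx.mk (nat_lit 364) (nat_lit 4) (nat_lit 5) (nat_lit 5) (nat_lit 6) (nat_lit 206) (nat_lit 31) r2_206 r8_31 (nat_lit 25055876) (nat_lit 0) (nat_lit 0) (nat_lit 0x7fce11080) (nat_lit 566426188),
  Rx.mk (nat_lit 366) (nat_lit 6) (nat_lit 5) (nat_lit 5) (nat_lit 7) (nat_lit 213) (nat_lit 33) r2_213 r8_33 (nat_lit 0) (nat_lit 0) (nat_lit 0) (nat_lit 0x8017985b4) (nat_lit 536870912),
  Rx.mk (nat_lit 374) (nat_lit 6) (nat_lit 6) (nat_lit 5) (nat_lit 7) (nat_lit 214) (nat_lit 34) r2_214 r8_34 (nat_lit 0) (nat_lit 0) (nat_lit 0) (nat_lit 0x8017985b4) (nat_lit 536870912),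
  Rx.mk (nat_lit 438) (nat_lit 6) (nat_lit 6) (nat_lit 6) (nat_lit 7) (nat_lit 215) (nat_lit 42) r2_215 r8_42 (nat_lit 0) (nat_lit 0) (nat_lit 0) (nat_lit 0x8017985b4) (nat_lit 536870912),
  Rx.mk (nat_lit 484) (nat_lit 4) (nat_lit 4) (nat_lit 7) (nat_lit 4) (nat_lit 207) (nat_lit 35) r2_207 r8_35 (nat_lit 20092839) (nat_lit 26542101) (nat_lit 0) (nat_lit 0x6a8be4910) (nat_lit 931123202),
  Rx.mk (nat_lit 486) (nat_lit 6) (nat_lit 4) (nat_lit 7) (nat_lit 5) (nat_lit 216) (nat_lit 40) r2_216 r8_40 (nat_lit 0) (nat_lit 24741287) (nat_lit 0) (nat_lit 0x7ff611878) (nat_lit 563663549),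
  Rx.mk (nat_lit 487) (nat_lit 7) (nat_lit 4) (nat_lit 7) (nat_lit 5) (nat_lit 218) (nat_lit 37) r2_218 r8_37 (nat_lit 0) (nat_lit 24741287) (nat_lit 0) (nat_lit 0x8017985b4) (nat_lit 561612199),
  Rx.mk (nat_lit 492) (nat_lit 4) (nat_lit 5) (nat_lit 7) (nat_lit 6) (nat_lit 208) (nat_lit 36) r2_208 r8_36 (nat_lit 25669145) (nat_lit 0) (nat_lit 0) (nat_lit 0x80014139c) (nat_lit 563906157),
  Rx.mk (nat_lit 494) (nat_lit 6) (nat_lit 5) (nat_lit 7) (nat_lit 7) (nat_lit 217) (nat_lit 41) r2_217 r8_41 (nat_lit 0) (nat_lit 0) (nat_lit 0) (nat_lit 0x8017985b4) (nat_lit 536870912),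
  Rx.mk (nat_lit 495) (nat_lit 7) (nat_lit 5) (nat_lit 7) (nat_lit 7) (nat_lit 219) (nat_lit 38) r2_219 r8_38 (nat_lit 0) (nat_lit 0) (nat_lit 0) (nat_lit 0x8017985b4) (nat_lit 536870912),
  Rx.mk (nat_lit 511) (nat_lit 7) (nat_lit 7) (nat_lit 7) (nat_lit 7) (nat_lit 220) (nat_lit 39) r2_220 r8_39 (nat_lit 0) (nat_lit 0) (nat_lit 0) (nat_lit 0x8017985b4) (nat_lit 536870912)]
noncomputable def e46_28 : List Rx := [
  Rx.mk (nat_lit 484) (nat_lit 4) (nat_lit 4) (nat_lit 7) (nat_lit 4) (nat_lit 230) (nat_lit 292) r2_230 r10_292 (nat_lit 10828370) (nat_lit 13507056) (nat_lit 0) (nat_lit 0x67d645c8c) (nat_lit 952582088),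
  Rx.mk (nat_lit 486) (nat_lit 6) (nat_lit 4) (nat_lit 7) (nat_lit 5) (nat_lit 232) (nat_lit 294) r2_232 r10_294 (nat_lit 0) (nat_lit 26181532) (nat_lit 0) (nat_lit 0x7fe1525fe) (nat_lit 566368444),
  Rx.mk (nat_lit 487) (nat_lit 7) (nat_lit 4) (nat_lit 7) (nat_lit 5) (nat_lit 235) (nat_lit 293) r2_235 r10_293 (nat_lit 0) (nat_lit 24741287) (nat_lit 0) (nat_lit 0x8017985b4) (nat_lit 561612199),
  Rx.mk (nat_lit 492) (nat_lit 4) (nat_lit 5) (nat_lit 7) (nat_lit 6) (nat_lit 231) (nat_lit 295) r2_231 r10_295 (nat_lit 24741287) (nat_lit 0) (nat_lit 0) (nat_lit 0x8017985b4) (nat_lit 561612199),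
  Rx.mk (nat_lit 494) (nat_lit 6) (nat_lit 5) (nat_lit 7) (nat_lit 7) (nat_lit 233) (nat_lit 297) r2_233 r10_297 (nat_lit 0) (nat_lit 0) (nat_lit 0) (nat_lit 0x8017985b4) (nat_lit 536870912),
  Rx.mk (nat_lit 495) (nat_lit 7) (nat_lit 5) (nat_lit 7) (nat_lit 7) (nat_lit 236) (nat_lit 296) r2_236 r10_296 (nat_lit 0) (nat_lit 0) (nat_lit 0) (nat_lit 0x8017985b4) (nat_lit 536870912),
  Rx.mk (nat_lit 502) (nat_lit 6) (nat_lit 6) (nat_lit 7) (nat_lit 7) (nat_lit 234) (nat_lit 298) r2_234 r10_298 (nat_lit 0) (nat_lit 0) (nat_lit 0) (nat_lit 0x8017985b4) (nat_lit 536870912)]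
noncomputable def e46_29 : List Rx := [
  Rx.mk (nat_lit 228) (nat_lit 4) (nat_lit 4) (nat_lit 3) (nat_lit 4) (nat_lit 258) (nat_lit 309) r2_258 r11_309 (nat_lit 47863837) (nat_lit 33757685) (nat_lit 0) (nat_lit 0x7c693e598) (nat_lit 677403034),
  Rx.mk (nat_lit 231) (nat_lit 7) (nat_lit 4) (nat_lit 3) (nat_lit 5) (nat_lit 265) (nat_lit 310) r2_265 r11_310 (nat_lit 0) (nat_lit 24741287) (nat_lit 0) (nat_lit 0x8017985b4) (nat_lit 561612199),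
  Rx.mk (nat_lit 236) (nat_lit 4) (nat_lit 5) (nat_lit 3) (nat_lit 6) (nat_lit 259) (nat_lit 313) r2_259 r11_313 (nat_lit 24741287) (nat_lit 0) (nat_lit 0) (nat_lit 0x8017985b4) (nat_lit 561612199),
  Rx.mk (nat_lit 239) (nat_lit 7) (nat_lit 5) (nat_lit 3) (nat_lit 7) (nat_lit 266) (nat_lit 314) r2_266 r11_314 (nat_lit 0) (nat_lit 0) (nat_lit 0) (nat_lit 0x8017985b4) (nat_lit 536870912),
  Rx.mk (nat_lit 255) (nat_lit 7) (nat_lit 7) (nat_lit 3) (nat_lit 7) (nat_lit 267) (nat_lit 316) r2_267 r11_316 (nat_lit 0) (nat_lit 0) (nat_lit 0) (nat_lit 0x8017985b4) (nat_lit 536870912),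
  Rx.mk (nat_lit 484) (nat_lit 4) (nat_lit 4) (nat_lit 7) (nat_lit 4) (nat_lit 260) (nat_lit 308) r2_260 r11_308 (nat_lit 36134950) (nat_lit 25006969) (nat_lit 0) (nat_lit 0x75d2a943a) (nat_lit 763343081),
  Rx.mk (nat_lit 486) (nat_lit 6) (nat_lit 4) (nat_lit 7) (nat_lit 5) (nat_lit 262) (nat_lit 311) r2_262 r11_311 (nat_lit 0) (nat_lit 24741287) (nat_lit 0) (nat_lit 0x8017985b4) (nat_lit 561612199),
  Rx.mk (nat_lit 492) (nat_lit 4) (nat_lit 5) (nat_lit 7) (nat_lit 6) (nat_lit 261) (nat_lit 312) r2_261 r11_312 (nat_lit 24741287) (nat_lit 0) (nat_lit 0) (nat_lit 0x8017985b4) (nat_lit 561612199),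
  Rx.mk (nat_lit 494) (nat_lit 6) (nat_lit 5) (nat_lit 7) (nat_lit 7) (nat_lit 263) (nat_lit 315) r2_263 r11_315 (nat_lit 0) (nat_lit 0) (nat_lit 0) (nat_lit 0x8017985b4) (nat_lit 536870912),
  Rx.mk (nat_lit 502) (nat_lit 6) (nat_lit 6) (nat_lit 7) (nat_lit 7) (nat_lit 264) (nat_lit 317) r2_264 r11_317 (nat_lit 0) (nat_lit 0) (nat_lit 0) (nat_lit 0x8017985b4) (nat_lit 536870912)]
noncomputable def e46_30 : List Rx := [
  Rx.mk (nat_lit 12) (nat_lit 4) (nat_lit 1) (nat_lit 0) (nat_lit 2) (nat_lit 360) (nat_lit 276) r2_360 r5_276 (nat_lit 20559373) (nat_lit 0) (nat_lit 29764725) (nat_lit 0x5846938aa) (nat_lit 1230188910),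
  Rx.mk (nat_lit 13) (nat_lit 5) (nat_lit 1) (nat_lit 0) (nat_lit 3) (nat_lit 363) (nat_lit 277) r2_363 r5_277 (nat_lit 0) (nat_lit 0) (nat_lit 24741287) (nat_lit 0x8017985b4) (nat_lit 561612199),
  Rx.mk (nat_lit 15) (nat_lit 7) (nat_lit 1) (nat_lit 0) (nat_lit 3) (nat_lit 366) (nat_lit 278) r2_366 r5_278 (nat_lit 0) (nat_lit 0) (nat_lit 27157988) (nat_lit 0x7f2b617cc) (nat_lit 578604450),
  Rx.mk (nat_lit 47) (nat_lit 7) (nat_lit 5) (nat_lit 0) (nat_lit 3) (nat_lit 367) (nat_lit 275) r2_367 r5_275 (nat_lit 0) (nat_lit 0) (nat_lit 28314395) (nat_lit 0x7f288f256) (nat_lit 579938957),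
  Rx.mk (nat_lit 76) (nat_lit 4) (nat_lit 1) (nat_lit 1) (nat_lit 6) (nat_lit 361) (nat_lit 280) r2_361 r5_280 (nat_lit 74305846) (nat_lit 0) (nat_lit 0) (nat_lit 0x6bbe842c0) (nat_lit 939452858),
  Rx.mk (nat_lit 77) (nat_lit 5) (nat_lit 1) (nat_lit 1) (nat_lit 7) (nat_lit 364) (nat_lit 281) r2_364 r5_281 (nat_lit 0) (nat_lit 0) (nat_lit 0) (nat_lit 0x8017985b4) (nat_lit 536870912),
  Rx.mk (nat_lit 79) (nat_lit 7) (nat_lit 1) (nat_lit 1) (nat_lit 7) (nat_lit 368) (nat_lit 282) r2_368 r5_282 (nat_lit 0) (nat_lit 0) (nat_lit 0) (nat_lit 0x8017985b4) (nat_lit 536870912),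
  Rx.mk (nat_lit 111) (nat_lit 7) (nat_lit 5) (nat_lit 1) (nat_lit 7) (nat_lit 369) (nat_lit 279) r2_369 r5_279 (nat_lit 0) (nat_lit 0) (nat_lit 0) (nat_lit 0x8017985b4) (nat_lit 536870912),
  Rx.mk (nat_lit 204) (nat_lit 4) (nat_lit 1) (nat_lit 3) (nat_lit 6) (nat_lit 362) (nat_lit 283) r2_362 r5_283 (nat_lit 33327253) (nat_lit 0) (nat_lit 0) (nat_lit 0x7f65916c2) (nat_lit 581168965),
  Rx.mk (nat_lit 205) (nat_lit 5) (nat_lit 1) (nat_lit 3) (nat_lit 7) (nat_lit 365) (nat_lit 284) r2_365 r5_284 (nat_lit 0) (nat_lit 0) (nat_lit 0) (nat_lit 0x8017985b4) (nat_lit 536870912)]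
noncomputable def e46_31 : List Rx := [
  Rx.mk (nat_lit 76) (nat_lit 4) (nat_lit 1) (nat_lit 1) (nat_lit 6) (nat_lit 370) (nat_lit 340) r2_370 r11_340 (nat_lit 27655321) (nat_lit 0) (nat_lit 0) (nat_lit 0x7fd1d42f8) (nat_lit 568815833),
  Rx.mk (nat_lit 77) (nat_lit 5) (nat_lit 1) (nat_lit 1) (nat_lit 7) (nat_lit 371) (nat_lit 341) r2_371 r11_341 (nat_lit 0) (nat_lit 0) (nat_lit 0) (nat_lit 0x8017985b4) (nat_lit 536870912),
  Rx.mk (nat_lit 79) (nat_lit 7) (nat_lit 1) (nat_lit 1) (nat_lit 7) (nat_lit 372) (nat_lit 342) r2_372 r11_342 (nat_lit 0) (nat_lit 0) (nat_lit 0) (nat_lit 0x8017985b4) (nat_lit 536870912),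
  Rx.mk (nat_lit 111) (nat_lit 7) (nat_lit 5) (nat_lit 1) (nat_lit 7) (nat_lit 373) (nat_lit 339) r2_373 r11_339 (nat_lit 0) (nat_lit 0) (nat_lit 0) (nat_lit 0x8017985b4) (nat_lit 536870912)]
noncomputable def e46_32 : List Rx := [
  Rx.mk (nat_lit 207) (nat_lit 7) (nat_lit 1) (nat_lit 3) (nat_lit 7) (nat_lit 94) (nat_lit 11) r2_94 r6_11 (nat_lit 0) (nat_lit 0) (nat_lit 0) (nat_lit 0x8017985b4) (nat_lit 536870912),
  Rx.mk (nat_lit 239) (nat_lit 7) (nat_lit 5) (nat_lit 3) (nat_lit 7) (nat_lit 95) (nat_lit 10) r2_95 r6_10 (nat_lit 0) (nat_lit 0) (nat_lit 0) (nat_lit 0x8017985b4) (nat_lit 536870912)]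
noncomputable def e46_33 : List Rx := [
  Rx.mk (nat_lit 239) (nat_lit 7) (nat_lit 5) (nat_lit 3) (nat_lit 7) (nat_lit 96) (nat_lit 14) r2_96 r5_14 (nat_lit 0) (nat_lit 0) (nat_lit 0) (nat_lit 0x8017985b4) (nat_lit 536870912),
  Rx.mk (nat_lit 495) (nat_lit 7) (nat_lit 5) (nat_lit 7) (nat_lit 7) (nat_lit 97) (nat_lit 15) r2_97 r5_15 (nat_lit 0) (nat_lit 0) (nat_lit 0) (nat_lit 0x8059dee46) (nat_lit 532797862)]
noncomputable def e46_34 : List Rx := [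
  Rx.mk (nat_lit 495) (nat_lit 7) (nat_lit 5) (nat_lit 7) (nat_lit 7) (nat_lit 237) (nat_lit 5) r2_237 r11_5 (nat_lit 0) (nat_lit 0) (nat_lit 0) (nat_lit 0x8017985b4) (nat_lit 536870912)]
noncomputable def e46_35 : List Rx := [
  Rx.mk (nat_lit 15) (nat_lit 7) (nat_lit 1) (nat_lit 0) (nat_lit 3) (nat_lit 269) (nat_lit 286) r2_269 r6_286 (nat_lit 0) (nat_lit 0) (nat_lit 25088397) (nat_lit 0x7fe4f918a) (nat_lit 565068109),
  Rx.mk (nat_lit 47) (nat_lit 7) (nat_lit 5) (nat_lit 0) (nat_lit 3) (nat_lit 270) (nat_lit 289) r2_270 r6_289 (nat_lit 0) (nat_lit 0) (nat_lit 37541131) (nat_lit 0x7f337957c) (nat_lit 588490643),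
  Rx.mk (nat_lit 204) (nat_lit 4) (nat_lit 1) (nat_lit 3) (nat_lit 6) (nat_lit 268) (nat_lit 287) r2_268 r6_287 (nat_lit 32877958) (nat_lit 0) (nat_lit 0) (nat_lit 0x7f6f4bf78) (nat_lit 580120470),
  Rx.mk (nat_lit 207) (nat_lit 7) (nat_lit 1) (nat_lit 3) (nat_lit 7) (nat_lit 271) (nat_lit 288) r2_271 r6_288 (nat_lit 0) (nat_lit 0) (nat_lit 0) (nat_lit 0x8017985b4) (nat_lit 536870912)]
noncomputable def e46_36 : List Rx := [
  Rx.mk (nat_lit 47) (nat_lit 7) (nat_lit 5) (nat_lit 0) (nat_lit 3) (nat_lit 273) (nat_lit 369) r2_273 r12_369 (nat_lit 0) (nat_lit 0) (nat_lit 66894744) (nat_lit 0x7c6702fd6) (nat_lit 662791156),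
  Rx.mk (nat_lit 204) (nat_lit 4) (nat_lit 1) (nat_lit 3) (nat_lit 6) (nat_lit 272) (nat_lit 367) r2_272 r12_367 (nat_lit 66894744) (nat_lit 0) (nat_lit 0) (nat_lit 0x7c6702fd6) (nat_lit 662791156),
  Rx.mk (nat_lit 207) (nat_lit 7) (nat_lit 1) (nat_lit 3) (nat_lit 7) (nat_lit 274) (nat_lit 368) r2_274 r12_368 (nat_lit 0) (nat_lit 0) (nat_lit 0) (nat_lit 0x8017985b4) (nat_lit 536870912),
  Rx.mk (nat_lit 239) (nat_lit 7) (nat_lit 5) (nat_lit 3) (nat_lit 7) (nat_lit 275) (nat_lit 370) r2_275 r12_370 (nat_lit 0) (nat_lit 0) (nat_lit 0) (nat_lit 0x8017985b4) (nat_lit 536870912)]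
noncomputable def e46_37 : List Rx := [
  Rx.mk (nat_lit 3) (nat_lit 3) (nat_lit 0) (nat_lit 0) (nat_lit 1) (nat_lit 4) (nat_lit 34) r2_4 r0_34 (nat_lit 0) (nat_lit 4998249) (nat_lit 13136814) (nat_lit 0x5b905ca06) (nat_lit 1144741775),
  Rx.mk (nat_lit 11) (nat_lit 3) (nat_lit 1) (nat_lit 0) (nat_lit 3) (nat_lit 5) (nat_lit 35) r2_5 r0_35 (nat_lit 0) (nat_lit 0) (nat_lit 28341495) (nat_lit 0x7c3b84864) (nat_lit 626988107),
  Rx.mk (nat_lit 128) (nat_lit 0) (nat_lit 0) (nat_lit 2) (nat_lit 4) (nat_lit 0) (nat_lit 31) r2_0 r0_31 (nat_lit 6423183) (nat_lit 5596514) (nat_lit 0) (nat_lit 0x5ddaed8d4) (nat_lit 1101594159),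
  Rx.mk (nat_lit 131) (nat_lit 3) (nat_lit 0) (nat_lit 2) (nat_lit 5) (nat_lit 6) (nat_lit 39) r2_6 r0_39 (nat_lit 0) (nat_lit 5674149) (nat_lit 0) (nat_lit 0x7eaf25780) (nat_lit 564630711),
  Rx.mk (nat_lit 136) (nat_lit 0) (nat_lit 1) (nat_lit 2) (nat_lit 6) (nat_lit 1) (nat_lit 32) r2_1 r0_32 (nat_lit 15050003) (nat_lit 0) (nat_lit 0) (nat_lit 0x808182fe2) (nat_lit 545392665),
  Rx.mk (nat_lit 139) (nat_lit 3) (nat_lit 1) (nat_lit 2) (nat_lit 7) (nat_lit 7) (nat_lit 40) r2_7 r0_40 (nat_lit 0) (nat_lit 0) (nat_lit 0) (nat_lit 0x816b1f196) (nat_lit 516210712),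
  Rx.mk (nat_lit 144) (nat_lit 0) (nat_lit 2) (nat_lit 2) (nat_lit 6) (nat_lit 2) (nat_lit 33) r2_2 r0_33 (nat_lit 26786742) (nat_lit 0) (nat_lit 0) (nat_lit 0x7e49fc304) (nat_lit 592261154),
  Rx.mk (nat_lit 146) (nat_lit 2) (nat_lit 2) (nat_lit 2) (nat_lit 7) (nat_lit 3) (nat_lit 42) r2_3 r0_42 (nat_lit 0) (nat_lit 0) (nat_lit 0) (nat_lit 0x8017985b4) (nat_lit 536870912),
  Rx.mk (nat_lit 147) (nat_lit 3) (nat_lit 2) (nat_lit 2) (nat_lit 7) (nat_lit 8) (nat_lit 41) r2_8 r0_41 (nat_lit 0) (nat_lit 0) (nat_lit 0) (nat_lit 0x81560cc68) (nat_lit 517481712),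
  Rx.mk (nat_lit 195) (nat_lit 3) (nat_lit 0) (nat_lit 3) (nat_lit 5) (nat_lit 9) (nat_lit 36) r2_9 r0_36 (nat_lit 0) (nat_lit 21507758) (nat_lit 0) (nat_lit 0x7d43469ac) (nat_lit 603533220),
  Rx.mk (nat_lit 203) (nat_lit 3) (nat_lit 1) (nat_lit 3) (nat_lit 7) (nat_lit 10) (nat_lit 37) r2_10 r0_37 (nat_lit 0) (nat_lit 0) (nat_lit 0) (nat_lit 0x8017985b4) (nat_lit 536870912),
  Rx.mk (nat_lit 219) (nat_lit 3) (nat_lit 3) (nat_lit 3) (nat_lit 7) (nat_lit 11) (nat_lit 38) r2_11 r0_38 (nat_lit 0) (nat_lit 0) (nat_lit 0) (nat_lit 0x7ffabadac) (nat_lit 538636162),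
  Rx.mk (nat_lit 223) (nat_lit 7) (nat_lit 3) (nat_lit 3) (nat_lit 7) (nat_lit 12) (nat_lit 30) r2_12 r0_30 (nat_lit 0) (nat_lit 0) (nat_lit 0) (nat_lit 0x7ff838a16) (nat_lit 538790162)]
noncomputable def e46_38 : List Rx := [
  Rx.mk (nat_lit 8) (nat_lit 0) (nat_lit 1) (nat_lit 0) (nat_lit 2) (nat_lit 98) (nat_lit 254) r2_98 r0_254 (nat_lit 32319873) (nat_lit 0) (nat_lit 169414750) (nat_lit 0x5d7f70754) (nat_lit 1297226585),
  Rx.mk (nat_lit 11) (nat_lit 3) (nat_lit 1) (nat_lit 0) (nat_lit 3) (nat_lit 99) (nat_lit 255) r2_99 r0_255 (nat_lit 0) (nat_lit 0) (nat_lit 31094968) (nat_lit 0x7d34113e2) (nat_lit 614066280),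
  Rx.mk (nat_lit 203) (nat_lit 3) (nat_lit 1) (nat_lit 3) (nat_lit 7) (nat_lit 100) (nat_lit 256) r2_100 r0_256 (nat_lit 0) (nat_lit 0) (nat_lit 0) (nat_lit 0x8017985b4) (nat_lit 536870912)]
noncomputable def e46_39 : List Rx := [
  Rx.mk (nat_lit 0) (nat_lit 0) (nat_lit 0) (nat_lit 0) (nat_lit 0) (nat_lit 101) (nat_lit 21) r2_101 r7_21 (nat_lit 2362318) (nat_lit 2611593) (nat_lit 3422726) (nat_lit 0x3ce06297a) (nat_lit 1631121799),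
  Rx.mk (nat_lit 3) (nat_lit 3) (nat_lit 0) (nat_lit 0) (nat_lit 1) (nat_lit 107) (nat_lit 26) r2_107 r7_26 (nat_lit 0) (nat_lit 17983786) (nat_lit 15429794) (nat_lit 0x642450a34) (nat_lit 1021437892),
  Rx.mk (nat_lit 8) (nat_lit 0) (nat_lit 1) (nat_lit 0) (nat_lit 2) (nat_lit 102) (nat_lit 22) r2_102 r7_22 (nat_lit 33242310) (nat_lit 0) (nat_lit 55381709) (nat_lit 0x6310bfaca) (nat_lit 1094102531),
  Rx.mk (nat_lit 11) (nat_lit 3) (nat_lit 1) (nat_lit 0) (nat_lit 3) (nat_lit 108) (nat_lit 27) r2_108 r7_27 (nat_lit 0) (nat_lit 0) (nat_lit 24741287) (nat_lit 0x800c30b36) (nat_lit 562309299),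
  Rx.mk (nat_lit 128) (nat_lit 0) (nat_lit 0) (nat_lit 2) (nat_lit 4) (nat_lit 103) (nat_lit 23) r2_103 r7_23 (nat_lit 12919491) (nat_lit 15431888) (nat_lit 0) (nat_lit 0x6872d6740) (nat_lit 946738841),
  Rx.mk (nat_lit 131) (nat_lit 3) (nat_lit 0) (nat_lit 2) (nat_lit 5) (nat_lit 109) (nat_lit 31) r2_109 r7_31 (nat_lit 0) (nat_lit 24741287) (nat_lit 0) (nat_lit 0x800bf9d8e) (nat_lit 562322849),
  Rx.mk (nat_lit 136) (nat_lit 0) (nat_lit 1) (nat_lit 2) (nat_lit 6) (nat_lit 104) (nat_lit 24) r2_104 r7_24 (nat_lit 25208910) (nat_lit 0) (nat_lit 0) (nat_lit 0x800becfd0) (nat_lit 562792922),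
  Rx.mk (nat_lit 139) (nat_lit 3) (nat_lit 1) (nat_lit 2) (nat_lit 7) (nat_lit 110) (nat_lit 32) r2_110 r7_32 (nat_lit 0) (nat_lit 0) (nat_lit 0) (nat_lit 0x8017985b4) (nat_lit 536870912),
  Rx.mk (nat_lit 144) (nat_lit 0) (nat_lit 2) (nat_lit 2) (nat_lit 6) (nat_lit 105) (nat_lit 25) r2_105 r7_25 (nat_lit 24741287) (nat_lit 0) (nat_lit 0) (nat_lit 0x800c2469c) (nat_lit 562313099),
  Rx.mk (nat_lit 146) (nat_lit 2) (nat_lit 2) (nat_lit 2) (nat_lit 7) (nat_lit 106) (nat_lit 34) r2_106 r7_34 (nat_lit 0) (nat_lit 0) (nat_lit 0) (nat_lit 0x8017985b4) (nat_lit 536870912),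
  Rx.mk (nat_lit 147) (nat_lit 3) (nat_lit 2) (nat_lit 2) (nat_lit 7) (nat_lit 111) (nat_lit 33) r2_111 r7_33 (nat_lit 0) (nat_lit 0) (nat_lit 0) (nat_lit 0x8017985b4) (nat_lit 536870912),
  Rx.mk (nat_lit 195) (nat_lit 3) (nat_lit 0) (nat_lit 3) (nat_lit 5) (nat_lit 112) (nat_lit 28) r2_112 r7_28 (nat_lit 0) (nat_lit 24741287) (nat_lit 0) (nat_lit 0x7ffac5806) (nat_lit 563378349),
  Rx.mk (nat_lit 203) (nat_lit 3) (nat_lit 1) (nat_lit 3) (nat_lit 7) (nat_lit 113) (nat_lit 29) r2_113 r7_29 (nat_lit 0) (nat_lit 0) (nat_lit 0) (nat_lit 0x8017985b4) (nat_lit 536870912),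
  Rx.mk (nat_lit 219) (nat_lit 3) (nat_lit 3) (nat_lit 3) (nat_lit 7) (nat_lit 114) (nat_lit 30) r2_114 r7_30 (nat_lit 0) (nat_lit 0) (nat_lit 0) (nat_lit 0x8017985b4) (nat_lit 536870912)]
noncomputable def e46_40 : List Rx := [
  Rx.mk (nat_lit 9) (nat_lit 1) (nat_lit 1) (nat_lit 0) (nat_lit 3) (nat_lit 286) (nat_lit 286) r2_286 r2_286 (nat_lit 0) (nat_lit 0) (nat_lit 25705717) (nat_lit 0x7fdb54706) (nat_lit 566263129),
  Rx.mk (nat_lit 73) (nat_lit 1) (nat_lit 1) (nat_lit 1) (nat_lit 7) (nat_lit 287) (nat_lit 287) r2_287 r2_287 (nat_lit 0) (nat_lit 0) (nat_lit 0) (nat_lit 0x8017985b4) (nat_lit 536870912)]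
noncomputable def e46_41 : List Rx := [
  Rx.mk (nat_lit 1) (nat_lit 1) (nat_lit 0) (nat_lit 0) (nat_lit 1) (nat_lit 289) (nat_lit 260) r2_289 r9_260 (nat_lit 0) (nat_lit 67893355) (nat_lit 40876841) (nat_lit 0x6a127e06c) (nat_lit 1000948958),
  Rx.mk (nat_lit 9) (nat_lit 1) (nat_lit 1) (nat_lit 0) (nat_lit 3) (nat_lit 290) (nat_lit 262) r2_290 r9_262 (nat_lit 0) (nat_lit 0) (nat_lit 24603401) (nat_lit 0x8007974d0) (nat_lit 562452963),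
  Rx.mk (nat_lit 73) (nat_lit 1) (nat_lit 1) (nat_lit 1) (nat_lit 7) (nat_lit 291) (nat_lit 263) r2_291 r9_263 (nat_lit 0) (nat_lit 0) (nat_lit 0) (nat_lit 0x8017985b4) (nat_lit 536870912),
  Rx.mk (nat_lit 129) (nat_lit 1) (nat_lit 0) (nat_lit 2) (nat_lit 5) (nat_lit 292) (nat_lit 261) r2_292 r9_261 (nat_lit 0) (nat_lit 24741287) (nat_lit 0) (nat_lit 0x8017985b4) (nat_lit 561612199),
  Rx.mk (nat_lit 137) (nat_lit 1) (nat_lit 1) (nat_lit 2) (nat_lit 7) (nat_lit 293) (nat_lit 264) r2_293 r9_264 (nat_lit 0) (nat_lit 0) (nat_lit 0) (nat_lit 0x8017985b4) (nat_lit 536870912),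
  Rx.mk (nat_lit 145) (nat_lit 1) (nat_lit 2) (nat_lit 2) (nat_lit 7) (nat_lit 294) (nat_lit 265) r2_294 r9_265 (nat_lit 0) (nat_lit 0) (nat_lit 0) (nat_lit 0x8017985b4) (nat_lit 536870912)]
noncomputable def e46_42 : List Rx := [
  Rx.mk (nat_lit 73) (nat_lit 1) (nat_lit 1) (nat_lit 1) (nat_lit 7) (nat_lit 288) (nat_lit 293) r2_288 r9_293 (nat_lit 0) (nat_lit 0) (nat_lit 0) (nat_lit 0x8017985b4) (nat_lit 536870912)]
noncomputable def e46_43 : List Rx := [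
  Rx.mk (nat_lit 8) (nat_lit 0) (nat_lit 1) (nat_lit 0) (nat_lit 2) (nat_lit 115) (nat_lit 258) r2_115 r1_258 (nat_lit 62162713) (nat_lit 0) (nat_lit 69955890) (nat_lit 0x67d3cb8d0) (nat_lit 1060595215),
  Rx.mk (nat_lit 9) (nat_lit 1) (nat_lit 1) (nat_lit 0) (nat_lit 3) (nat_lit 116) (nat_lit 259) r2_116 r1_259 (nat_lit 0) (nat_lit 0) (nat_lit 24741287) (nat_lit 0x8017985b4) (nat_lit 561612199),
  Rx.mk (nat_lit 11) (nat_lit 3) (nat_lit 1) (nat_lit 0) (nat_lit 3) (nat_lit 117) (nat_lit 260) r2_117 r1_260 (nat_lit 0) (nat_lit 0) (nat_lit 25157357) (nat_lit 0x800ccd3b4) (nat_lit 562687369),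
  Rx.mk (nat_lit 203) (nat_lit 3) (nat_lit 1) (nat_lit 3) (nat_lit 7) (nat_lit 118) (nat_lit 261) r2_118 r1_261 (nat_lit 0) (nat_lit 0) (nat_lit 0) (nat_lit 0x8017985b4) (nat_lit 536870912)]
noncomputable def e46_44 : List Rx := [
  Rx.mk (nat_lit 0) (nat_lit 0) (nat_lit 0) (nat_lit 0) (nat_lit 0) (nat_lit 119) (nat_lit 25) r2_119 r8_25 (nat_lit 4963972) (nat_lit 5186153) (nat_lit 12331261) (nat_lit 0x3d9490d48) (nat_lit 1633943848),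
  Rx.mk (nat_lit 1) (nat_lit 1) (nat_lit 0) (nat_lit 0) (nat_lit 1) (nat_lit 124) (nat_lit 30) r2_124 r8_30 (nat_lit 0) (nat_lit 57149300) (nat_lit 36724435) (nat_lit 0x6701206b0) (nat_lit 1035651797),
  Rx.mk (nat_lit 3) (nat_lit 3) (nat_lit 0) (nat_lit 0) (nat_lit 1) (nat_lit 130) (nat_lit 35) r2_130 r8_35 (nat_lit 0) (nat_lit 26542101) (nat_lit 20092839) (nat_lit 0x6a8be4910) (nat_lit 931123202),
  Rx.mk (nat_lit 8) (nat_lit 0) (nat_lit 1) (nat_lit 0) (nat_lit 2) (nat_lit 120) (nat_lit 26) r2_120 r8_26 (nat_lit 34582474) (nat_lit 0) (nat_lit 52104926) (nat_lit 0x6328cac00) (nat_lit 1090646762),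
  Rx.mk (nat_lit 9) (nat_lit 1) (nat_lit 1) (nat_lit 0) (nat_lit 3) (nat_lit 125) (nat_lit 31) r2_125 r8_31 (nat_lit 0) (nat_lit 0) (nat_lit 25055876) (nat_lit 0x7fce11080) (nat_lit 566426188),
  Rx.mk (nat_lit 11) (nat_lit 3) (nat_lit 1) (nat_lit 0) (nat_lit 3) (nat_lit 131) (nat_lit 36) r2_131 r8_36 (nat_lit 0) (nat_lit 0) (nat_lit 25669145) (nat_lit 0x80014139c) (nat_lit 563906157),
  Rx.mk (nat_lit 128) (nat_lit 0) (nat_lit 0) (nat_lit 2) (nat_lit 4) (nat_lit 121) (nat_lit 27) r2_121 r8_27 (nat_lit 21402582) (nat_lit 24833065) (nat_lit 0) (nat_lit 0x6b091ef98) (nat_lit 922817759),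
  Rx.mk (nat_lit 129) (nat_lit 1) (nat_lit 0) (nat_lit 2) (nat_lit 5) (nat_lit 126) (nat_lit 32) r2_126 r8_32 (nat_lit 0) (nat_lit 24741287) (nat_lit 0) (nat_lit 0x8017985b4) (nat_lit 561612199),
  Rx.mk (nat_lit 131) (nat_lit 3) (nat_lit 0) (nat_lit 2) (nat_lit 5) (nat_lit 132) (nat_lit 40) r2_132 r8_40 (nat_lit 0) (nat_lit 24741287) (nat_lit 0) (nat_lit 0x7ff611878) (nat_lit 563663549),
  Rx.mk (nat_lit 136) (nat_lit 0) (nat_lit 1) (nat_lit 2) (nat_lit 6) (nat_lit 122) (nat_lit 28) r2_122 r8_28 (nat_lit 24741287) (nat_lit 0) (nat_lit 0) (nat_lit 0x8017985b4) (nat_lit 561612199),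
  Rx.mk (nat_lit 137) (nat_lit 1) (nat_lit 1) (nat_lit 2) (nat_lit 7) (nat_lit 127) (nat_lit 33) r2_127 r8_33 (nat_lit 0) (nat_lit 0) (nat_lit 0) (nat_lit 0x8017985b4) (nat_lit 536870912),
  Rx.mk (nat_lit 139) (nat_lit 3) (nat_lit 1) (nat_lit 2) (nat_lit 7) (nat_lit 133) (nat_lit 41) r2_133 r8_41 (nat_lit 0) (nat_lit 0) (nat_lit 0) (nat_lit 0x8017985b4) (nat_lit 536870912),
  Rx.mk (nat_lit 144) (nat_lit 0) (nat_lit 2) (nat_lit 2) (nat_lit 6) (nat_lit 123) (nat_lit 29) r2_123 r8_29 (nat_lit 24741287) (nat_lit 0) (nat_lit 0) (nat_lit 0x7fd79296a) (nat_lit 565539099),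
  Rx.mk (nat_lit 145) (nat_lit 1) (nat_lit 2) (nat_lit 2) (nat_lit 7) (nat_lit 128) (nat_lit 34) r2_128 r8_34 (nat_lit 0) (nat_lit 0) (nat_lit 0) (nat_lit 0x8017985b4) (nat_lit 536870912),
  Rx.mk (nat_lit 146) (nat_lit 2) (nat_lit 2) (nat_lit 2) (nat_lit 7) (nat_lit 129) (nat_lit 42) r2_129 r8_42 (nat_lit 0) (nat_lit 0) (nat_lit 0) (nat_lit 0x8017985b4) (nat_lit 536870912),
  Rx.mk (nat_lit 195) (nat_lit 3) (nat_lit 0) (nat_lit 3) (nat_lit 5) (nat_lit 134) (nat_lit 37) r2_134 r8_37 (nat_lit 0) (nat_lit 24741287) (nat_lit 0) (nat_lit 0x8017985b4) (nat_lit 561612199),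
  Rx.mk (nat_lit 203) (nat_lit 3) (nat_lit 1) (nat_lit 3) (nat_lit 7) (nat_lit 135) (nat_lit 38) r2_135 r8_38 (nat_lit 0) (nat_lit 0) (nat_lit 0) (nat_lit 0x8017985b4) (nat_lit 536870912),
  Rx.mk (nat_lit 219) (nat_lit 3) (nat_lit 3) (nat_lit 3) (nat_lit 7) (nat_lit 136) (nat_lit 39) r2_136 r8_39 (nat_lit 0) (nat_lit 0) (nat_lit 0) (nat_lit 0x8017985b4) (nat_lit 536870912)]
noncomputable def e46_45 : List Rx := [
  Rx.mk (nat_lit 3) (nat_lit 3) (nat_lit 0) (nat_lit 0) (nat_lit 1) (nat_lit 16) (nat_lit 33) r2_16 r1_33 (nat_lit 0) (nat_lit 23439880) (nat_lit 29030061) (nat_lit 0x6ea7937fc) (nat_lit 870542453),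
  Rx.mk (nat_lit 128) (nat_lit 0) (nat_lit 0) (nat_lit 2) (nat_lit 4) (nat_lit 13) (nat_lit 31) r2_13 r1_31 (nat_lit 28114446) (nat_lit 19918432) (nat_lit 0) (nat_lit 0x712066600) (nat_lit 826141340),
  Rx.mk (nat_lit 131) (nat_lit 3) (nat_lit 0) (nat_lit 2) (nat_lit 5) (nat_lit 17) (nat_lit 36) r2_17 r1_36 (nat_lit 0) (nat_lit 12320371) (nat_lit 0) (nat_lit 0x80de8e3da) (nat_lit 537025133),
  Rx.mk (nat_lit 144) (nat_lit 0) (nat_lit 2) (nat_lit 2) (nat_lit 6) (nat_lit 14) (nat_lit 32) r2_14 r1_32 (nat_lit 35404402) (nat_lit 0) (nat_lit 0) (nat_lit 0x7ebadf3d2) (nat_lit 593887464),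
  Rx.mk (nat_lit 146) (nat_lit 2) (nat_lit 2) (nat_lit 2) (nat_lit 7) (nat_lit 15) (nat_lit 38) r2_15 r1_38 (nat_lit 0) (nat_lit 0) (nat_lit 0) (nat_lit 0x8017985b4) (nat_lit 536870912),
  Rx.mk (nat_lit 147) (nat_lit 3) (nat_lit 2) (nat_lit 2) (nat_lit 7) (nat_lit 18) (nat_lit 37) r2_18 r1_37 (nat_lit 0) (nat_lit 0) (nat_lit 0) (nat_lit 0x804b9beec) (nat_lit 533672912),
  Rx.mk (nat_lit 195) (nat_lit 3) (nat_lit 0) (nat_lit 3) (nat_lit 5) (nat_lit 19) (nat_lit 34) r2_19 r1_34 (nat_lit 0) (nat_lit 24741287) (nat_lit 0) (nat_lit 0x800662966) (nat_lit 562664999),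
  Rx.mk (nat_lit 219) (nat_lit 3) (nat_lit 3) (nat_lit 3) (nat_lit 7) (nat_lit 20) (nat_lit 35) r2_20 r1_35 (nat_lit 0) (nat_lit 0) (nat_lit 0) (nat_lit 0x8017985b4) (nat_lit 536870912),
  Rx.mk (nat_lit 223) (nat_lit 7) (nat_lit 3) (nat_lit 3) (nat_lit 7) (nat_lit 21) (nat_lit 30) r2_21 r1_30 (nat_lit 0) (nat_lit 0) (nat_lit 0) (nat_lit 0x8017985b4) (nat_lit 536870912)]
noncomputable def e46_46 : List Rx := [
  Rx.mk (nat_lit 3) (nat_lit 3) (nat_lit 0) (nat_lit 0) (nat_lit 1) (nat_lit 27) (nat_lit 35) r2_27 r2_35 (nat_lit 0) (nat_lit 4020011) (nat_lit 3084797) (nat_lit 0x650356828) (nat_lit 980891370),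
  Rx.mk (nat_lit 27) (nat_lit 3) (nat_lit 3) (nat_lit 0) (nat_lit 3) (nat_lit 28) (nat_lit 36) r2_28 r2_36 (nat_lit 0) (nat_lit 0) (nat_lit 22227061) (nat_lit 0x7ee2f20a4) (nat_lit 578174373),
  Rx.mk (nat_lit 128) (nat_lit 0) (nat_lit 0) (nat_lit 2) (nat_lit 4) (nat_lit 22) (nat_lit 33) r2_22 r2_33 (nat_lit 3084797) (nat_lit 4020011) (nat_lit 0) (nat_lit 0x650356828) (nat_lit 980891370),
  Rx.mk (nat_lit 131) (nat_lit 3) (nat_lit 0) (nat_lit 2) (nat_lit 5) (nat_lit 29) (nat_lit 38) r2_29 r2_38 (nat_lit 0) (nat_lit 21936150) (nat_lit 0) (nat_lit 0x7ff388afc) (nat_lit 561031262),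
  Rx.mk (nat_lit 144) (nat_lit 0) (nat_lit 2) (nat_lit 2) (nat_lit 6) (nat_lit 23) (nat_lit 34) r2_23 r2_34 (nat_lit 22227061) (nat_lit 0) (nat_lit 0) (nat_lit 0x7ee2f20a4) (nat_lit 578174373),
  Rx.mk (nat_lit 146) (nat_lit 2) (nat_lit 2) (nat_lit 2) (nat_lit 7) (nat_lit 24) (nat_lit 43) r2_24 r2_43 (nat_lit 0) (nat_lit 0) (nat_lit 0) (nat_lit 0x8017985b4) (nat_lit 536870912),
  Rx.mk (nat_lit 147) (nat_lit 3) (nat_lit 2) (nat_lit 2) (nat_lit 7) (nat_lit 30) (nat_lit 40) r2_30 r2_40 (nat_lit 0) (nat_lit 0) (nat_lit 0) (nat_lit 0x8017985b4) (nat_lit 536870912),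
  Rx.mk (nat_lit 155) (nat_lit 3) (nat_lit 3) (nat_lit 2) (nat_lit 7) (nat_lit 31) (nat_lit 39) r2_31 r2_39 (nat_lit 0) (nat_lit 0) (nat_lit 0) (nat_lit 0x8017985b4) (nat_lit 536870912),
  Rx.mk (nat_lit 219) (nat_lit 3) (nat_lit 3) (nat_lit 3) (nat_lit 7) (nat_lit 32) (nat_lit 37) r2_32 r2_37 (nat_lit 0) (nat_lit 0) (nat_lit 0) (nat_lit 0x8017985b4) (nat_lit 536870912),
  Rx.mk (nat_lit 223) (nat_lit 7) (nat_lit 3) (nat_lit 3) (nat_lit 7) (nat_lit 41) (nat_lit 26) r2_41 r2_26 (nat_lit 0) (nat_lit 0) (nat_lit 0) (nat_lit 0x8017985b4) (nat_lit 536870912),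
  Rx.mk (nat_lit 255) (nat_lit 7) (nat_lit 7) (nat_lit 3) (nat_lit 7) (nat_lit 42) (nat_lit 25) r2_42 r2_25 (nat_lit 0) (nat_lit 0) (nat_lit 0) (nat_lit 0x8017985b4) (nat_lit 536870912),
  Rx.mk (nat_lit 294) (nat_lit 6) (nat_lit 4) (nat_lit 4) (nat_lit 1) (nat_lit 35) (nat_lit 27) r2_35 r2_27 (nat_lit 0) (nat_lit 4020011) (nat_lit 3084797) (nat_lit 0x650356828) (nat_lit 980891370),
  Rx.mk (nat_lit 310) (nat_lit 6) (nat_lit 6) (nat_lit 4) (nat_lit 3) (nat_lit 36) (nat_lit 28) r2_36 r2_28 (nat_lit 0) (nat_lit 0) (nat_lit 22227061) (nat_lit 0x7ee2f20a4) (nat_lit 578174373),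
  Rx.mk (nat_lit 402) (nat_lit 2) (nat_lit 2) (nat_lit 6) (nat_lit 7) (nat_lit 25) (nat_lit 42) r2_25 r2_42 (nat_lit 0) (nat_lit 0) (nat_lit 0) (nat_lit 0x8017985b4) (nat_lit 536870912),
  Rx.mk (nat_lit 434) (nat_lit 2) (nat_lit 6) (nat_lit 6) (nat_lit 7) (nat_lit 26) (nat_lit 41) r2_26 r2_41 (nat_lit 0) (nat_lit 0) (nat_lit 0) (nat_lit 0x8017985b4) (nat_lit 536870912),
  Rx.mk (nat_lit 438) (nat_lit 6) (nat_lit 6) (nat_lit 6) (nat_lit 7) (nat_lit 37) (nat_lit 32) r2_37 r2_32 (nat_lit 0) (nat_lit 0) (nat_lit 0) (nat_lit 0x8017985b4) (nat_lit 536870912),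
  Rx.mk (nat_lit 484) (nat_lit 4) (nat_lit 4) (nat_lit 7) (nat_lit 4) (nat_lit 33) (nat_lit 22) r2_33 r2_22 (nat_lit 3084797) (nat_lit 4020011) (nat_lit 0) (nat_lit 0x650356828) (nat_lit 980891370),
  Rx.mk (nat_lit 486) (nat_lit 6) (nat_lit 4) (nat_lit 7) (nat_lit 5) (nat_lit 38) (nat_lit 29) r2_38 r2_29 (nat_lit 0) (nat_lit 21936150) (nat_lit 0) (nat_lit 0x7ff388afc) (nat_lit 561031262),
  Rx.mk (nat_lit 502) (nat_lit 6) (nat_lit 6) (nat_lit 7) (nat_lit 7) (nat_lit 39) (nat_lit 31) r2_39 r2_31 (nat_lit 0) (nat_lit 0) (nat_lit 0) (nat_lit 0x8017985b4) (nat_lit 536870912),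
  Rx.mk (nat_lit 508) (nat_lit 4) (nat_lit 7) (nat_lit 7) (nat_lit 6) (nat_lit 34) (nat_lit 23) r2_34 r2_23 (nat_lit 22227061) (nat_lit 0) (nat_lit 0) (nat_lit 0x7ee2f20a4) (nat_lit 578174373),
  Rx.mk (nat_lit 510) (nat_lit 6) (nat_lit 7) (nat_lit 7) (nat_lit 7) (nat_lit 40) (nat_lit 30) r2_40 r2_30 (nat_lit 0) (nat_lit 0) (nat_lit 0) (nat_lit 0x8017985b4) (nat_lit 536870912),
  Rx.mk (nat_lit 511) (nat_lit 7) (nat_lit 7) (nat_lit 7) (nat_lit 7) (nat_lit 43) (nat_lit 24) r2_43 r2_24 (nat_lit 0) (nat_lit 0) (nat_lit 0) (nat_lit 0x8017985b4) (nat_lit 536870912)]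
noncomputable def e46_47 : List Rx := [
  Rx.mk (nat_lit 0) (nat_lit 0) (nat_lit 0) (nat_lit 0) (nat_lit 0) (nat_lit 137) (nat_lit 257) r2_137 r8_257 (nat_lit 7956767) (nat_lit 8042902) (nat_lit 9703689) (nat_lit 0x3b91a0bee) (nat_lit 1669754570),
  Rx.mk (nat_lit 3) (nat_lit 3) (nat_lit 0) (nat_lit 0) (nat_lit 1) (nat_lit 141) (nat_lit 258) r2_141 r8_258 (nat_lit 0) (nat_lit 26195638) (nat_lit 23096430) (nat_lit 0x64c1b892a) (nat_lit 1027421630),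
  Rx.mk (nat_lit 128) (nat_lit 0) (nat_lit 0) (nat_lit 2) (nat_lit 4) (nat_lit 138) (nat_lit 260) r2_138 r8_260 (nat_lit 23014465) (nat_lit 26855489) (nat_lit 0) (nat_lit 0x65ff1eed0) (nat_lit 1007952966),
  Rx.mk (nat_lit 131) (nat_lit 3) (nat_lit 0) (nat_lit 2) (nat_lit 5) (nat_lit 142) (nat_lit 261) r2_142 r8_261 (nat_lit 0) (nat_lit 25403330) (nat_lit 0) (nat_lit 0x7ff0757d4) (nat_lit 564659792),
  Rx.mk (nat_lit 144) (nat_lit 0) (nat_lit 2) (nat_lit 2) (nat_lit 6) (nat_lit 139) (nat_lit 263) r2_139 r8_263 (nat_lit 24741287) (nat_lit 0) (nat_lit 0) (nat_lit 0x8005746a8) (nat_lit 562722999),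
  Rx.mk (nat_lit 146) (nat_lit 2) (nat_lit 2) (nat_lit 2) (nat_lit 7) (nat_lit 140) (nat_lit 265) r2_140 r8_265 (nat_lit 0) (nat_lit 0) (nat_lit 0) (nat_lit 0x8017985b4) (nat_lit 536870912),
  Rx.mk (nat_lit 147) (nat_lit 3) (nat_lit 2) (nat_lit 2) (nat_lit 7) (nat_lit 143) (nat_lit 264) r2_143 r8_264 (nat_lit 0) (nat_lit 0) (nat_lit 0) (nat_lit 0x8017985b4) (nat_lit 536870912),
  Rx.mk (nat_lit 195) (nat_lit 3) (nat_lit 0) (nat_lit 3) (nat_lit 5) (nat_lit 144) (nat_lit 259) r2_144 r8_259 (nat_lit 0) (nat_lit 24741287) (nat_lit 0) (nat_lit 0x8017985b4) (nat_lit 561612199),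
  Rx.mk (nat_lit 219) (nat_lit 3) (nat_lit 3) (nat_lit 3) (nat_lit 7) (nat_lit 145) (nat_lit 262) r2_145 r8_262 (nat_lit 0) (nat_lit 0) (nat_lit 0) (nat_lit 0x8017985b4) (nat_lit 536870912)]
noncomputable def e46_48 : List Rx := [
  Rx.mk (nat_lit 0) (nat_lit 0) (nat_lit 0) (nat_lit 0) (nat_lit 0) (nat_lit 146) (nat_lit 2) r2_146 r9_2 (nat_lit 10208836) (nat_lit 9380650) (nat_lit 12054409) (nat_lit 0x4191c7aea) (nat_lit 1578696407),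
  Rx.mk (nat_lit 3) (nat_lit 3) (nat_lit 0) (nat_lit 0) (nat_lit 1) (nat_lit 152) (nat_lit 5) r2_152 r9_5 (nat_lit 0) (nat_lit 28184396) (nat_lit 19348784) (nat_lit 0x6737e5402) (nat_lit 985858192),
  Rx.mk (nat_lit 27) (nat_lit 3) (nat_lit 3) (nat_lit 0) (nat_lit 3) (nat_lit 153) (nat_lit 6) r2_153 r9_6 (nat_lit 0) (nat_lit 0) (nat_lit 23881749) (nat_lit 0x7ffacd09c) (nat_lit 562515361),
  Rx.mk (nat_lit 128) (nat_lit 0) (nat_lit 0) (nat_lit 2) (nat_lit 4) (nat_lit 147) (nat_lit 3) r2_147 r9_3 (nat_lit 18448465) (nat_lit 27923274) (nat_lit 0) (nat_lit 0x696412f82) (nat_lit 949568801),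
  Rx.mk (nat_lit 131) (nat_lit 3) (nat_lit 0) (nat_lit 2) (nat_lit 5) (nat_lit 154) (nat_lit 8) r2_154 r9_8 (nat_lit 0) (nat_lit 24741287) (nat_lit 0) (nat_lit 0x800e5e7c8) (nat_lit 562175649),
  Rx.mk (nat_lit 144) (nat_lit 0) (nat_lit 2) (nat_lit 2) (nat_lit 6) (nat_lit 148) (nat_lit 4) r2_148 r9_4 (nat_lit 24741287) (nat_lit 0) (nat_lit 0) (nat_lit 0x7f9cd5ee4) (nat_lit 569152349),
  Rx.mk (nat_lit 146) (nat_lit 2) (nat_lit 2) (nat_lit 2) (nat_lit 7) (nat_lit 149) (nat_lit 13) r2_149 r9_13 (nat_lit 0) (nat_lit 0) (nat_lit 0) (nat_lit 0x8017985b4) (nat_lit 536870912),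
  Rx.mk (nat_lit 147) (nat_lit 3) (nat_lit 2) (nat_lit 2) (nat_lit 7) (nat_lit 155) (nat_lit 10) r2_155 r9_10 (nat_lit 0) (nat_lit 0) (nat_lit 0) (nat_lit 0x8017985b4) (nat_lit 536870912),
  Rx.mk (nat_lit 155) (nat_lit 3) (nat_lit 3) (nat_lit 2) (nat_lit 7) (nat_lit 156) (nat_lit 9) r2_156 r9_9 (nat_lit 0) (nat_lit 0) (nat_lit 0) (nat_lit 0x8017985b4) (nat_lit 536870912),
  Rx.mk (nat_lit 219) (nat_lit 3) (nat_lit 3) (nat_lit 3) (nat_lit 7) (nat_lit 157) (nat_lit 7) r2_157 r9_7 (nat_lit 0) (nat_lit 0) (nat_lit 0) (nat_lit 0x8017985b4) (nat_lit 536870912),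
  Rx.mk (nat_lit 402) (nat_lit 2) (nat_lit 2) (nat_lit 6) (nat_lit 7) (nat_lit 150) (nat_lit 12) r2_150 r9_12 (nat_lit 0) (nat_lit 0) (nat_lit 0) (nat_lit 0x8017985b4) (nat_lit 536870912),
  Rx.mk (nat_lit 434) (nat_lit 2) (nat_lit 6) (nat_lit 6) (nat_lit 7) (nat_lit 151) (nat_lit 11) r2_151 r9_11 (nat_lit 0) (nat_lit 0) (nat_lit 0) (nat_lit 0x8017985b4) (nat_lit 536870912)]
noncomputable def e46_49 : List Rx := [
  Rx.mk (nat_lit 292) (nat_lit 4) (nat_lit 4) (nat_lit 4) (nat_lit 0) (nat_lit 170) (nat_lit 2) r2_170 r9_2 (nat_lit 12054409) (nat_lit 9380650) (nat_lit 10208836) (nat_lit 0x4191c7aea) (nat_lit 1578696407),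
  Rx.mk (nat_lit 294) (nat_lit 6) (nat_lit 4) (nat_lit 4) (nat_lit 1) (nat_lit 173) (nat_lit 3) r2_173 r9_3 (nat_lit 0) (nat_lit 27923274) (nat_lit 18448465) (nat_lit 0x696412f82) (nat_lit 949568801),
  Rx.mk (nat_lit 310) (nat_lit 6) (nat_lit 6) (nat_lit 4) (nat_lit 3) (nat_lit 174) (nat_lit 4) r2_174 r9_4 (nat_lit 0) (nat_lit 0) (nat_lit 24741287) (nat_lit 0x7f9cd5ee4) (nat_lit 569152349),
  Rx.mk (nat_lit 402) (nat_lit 2) (nat_lit 2) (nat_lit 6) (nat_lit 7) (nat_lit 168) (nat_lit 11) r2_168 r9_11 (nat_lit 0) (nat_lit 0) (nat_lit 0) (nat_lit 0x8017985b4) (nat_lit 536870912),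
  Rx.mk (nat_lit 434) (nat_lit 2) (nat_lit 6) (nat_lit 6) (nat_lit 7) (nat_lit 169) (nat_lit 12) r2_169 r9_12 (nat_lit 0) (nat_lit 0) (nat_lit 0) (nat_lit 0x8017985b4) (nat_lit 536870912),
  Rx.mk (nat_lit 438) (nat_lit 6) (nat_lit 6) (nat_lit 6) (nat_lit 7) (nat_lit 175) (nat_lit 13) r2_175 r9_13 (nat_lit 0) (nat_lit 0) (nat_lit 0) (nat_lit 0x8017985b4) (nat_lit 536870912),
  Rx.mk (nat_lit 484) (nat_lit 4) (nat_lit 4) (nat_lit 7) (nat_lit 4) (nat_lit 171) (nat_lit 5) r2_171 r9_5 (nat_lit 19348784) (nat_lit 28184396) (nat_lit 0) (nat_lit 0x6737e5402) (nat_lit 985858192),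
  Rx.mk (nat_lit 486) (nat_lit 6) (nat_lit 4) (nat_lit 7) (nat_lit 5) (nat_lit 176) (nat_lit 8) r2_176 r9_8 (nat_lit 0) (nat_lit 24741287) (nat_lit 0) (nat_lit 0x800e5e7c8) (nat_lit 562175649),
  Rx.mk (nat_lit 502) (nat_lit 6) (nat_lit 6) (nat_lit 7) (nat_lit 7) (nat_lit 177) (nat_lit 10) r2_177 r9_10 (nat_lit 0) (nat_lit 0) (nat_lit 0) (nat_lit 0x8017985b4) (nat_lit 536870912),
  Rx.mk (nat_lit 508) (nat_lit 4) (nat_lit 7) (nat_lit 7) (nat_lit 6) (nat_lit 172) (nat_lit 6) r2_172 r9_6 (nat_lit 23881749) (nat_lit 0) (nat_lit 0) (nat_lit 0x7ffacd09c) (nat_lit 562515361),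
  Rx.mk (nat_lit 510) (nat_lit 6) (nat_lit 7) (nat_lit 7) (nat_lit 7) (nat_lit 178) (nat_lit 9) r2_178 r9_9 (nat_lit 0) (nat_lit 0) (nat_lit 0) (nat_lit 0x8017985b4) (nat_lit 536870912),
  Rx.mk (nat_lit 511) (nat_lit 7) (nat_lit 7) (nat_lit 7) (nat_lit 7) (nat_lit 179) (nat_lit 7) r2_179 r9_7 (nat_lit 0) (nat_lit 0) (nat_lit 0) (nat_lit 0x8017985b4) (nat_lit 536870912)]
noncomputable def e46_50 : List Rx := [
  Rx.mk (nat_lit 11) (nat_lit 3) (nat_lit 1) (nat_lit 0) (nat_lit 3) (nat_lit 44) (nat_lit 21) r2_44 r3_21 (nat_lit 0) (nat_lit 0) (nat_lit 1368375) (nat_lit 0x80b22cd14) (nat_lit 527945287),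
  Rx.mk (nat_lit 203) (nat_lit 3) (nat_lit 1) (nat_lit 3) (nat_lit 7) (nat_lit 45) (nat_lit 22) r2_45 r3_22 (nat_lit 0) (nat_lit 0) (nat_lit 0) (nat_lit 0x842b28ae4) (nat_lit 474011712),
  Rx.mk (nat_lit 207) (nat_lit 7) (nat_lit 1) (nat_lit 3) (nat_lit 7) (nat_lit 46) (nat_lit 20) r2_46 r3_20 (nat_lit 0) (nat_lit 0) (nat_lit 0) (nat_lit 0x8616d9e60) (nat_lit 444661462)]
noncomputable def e46_51 : List Rx := [
  Rx.mk (nat_lit 3) (nat_lit 3) (nat_lit 0) (nat_lit 0) (nat_lit 1) (nat_lit 47) (nat_lit 24) r2_47 r4_24 (nat_lit 0) (nat_lit 4698401) (nat_lit 8468611) (nat_lit 0x6f73fce92) (nat_lit 818155574),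
  Rx.mk (nat_lit 11) (nat_lit 3) (nat_lit 1) (nat_lit 0) (nat_lit 3) (nat_lit 48) (nat_lit 25) r2_48 r4_25 (nat_lit 0) (nat_lit 0) (nat_lit 26453388) (nat_lit 0x802d4deae) (nat_lit 561974850),
  Rx.mk (nat_lit 131) (nat_lit 3) (nat_lit 0) (nat_lit 2) (nat_lit 5) (nat_lit 49) (nat_lit 28) r2_49 r4_28 (nat_lit 0) (nat_lit 4236250) (nat_lit 0) (nat_lit 0x81374ce9a) (nat_lit 523350712),
  Rx.mk (nat_lit 139) (nat_lit 3) (nat_lit 1) (nat_lit 2) (nat_lit 7) (nat_lit 50) (nat_lit 29) r2_50 r4_29 (nat_lit 0) (nat_lit 0) (nat_lit 0) (nat_lit 0x817902fd8) (nat_lit 515379662),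
  Rx.mk (nat_lit 147) (nat_lit 3) (nat_lit 2) (nat_lit 2) (nat_lit 7) (nat_lit 51) (nat_lit 30) r2_51 r4_30 (nat_lit 0) (nat_lit 0) (nat_lit 0) (nat_lit 0x8173c4f94) (nat_lit 515699662),
  Rx.mk (nat_lit 195) (nat_lit 3) (nat_lit 0) (nat_lit 3) (nat_lit 5) (nat_lit 52) (nat_lit 26) r2_52 r4_26 (nat_lit 0) (nat_lit 18137495) (nat_lit 0) (nat_lit 0x807289324) (nat_lit 549428707),
  Rx.mk (nat_lit 199) (nat_lit 7) (nat_lit 0) (nat_lit 3) (nat_lit 5) (nat_lit 54) (nat_lit 21) r2_54 r4_21 (nat_lit 0) (nat_lit 16949147) (nat_lit 0) (nat_lit 0x80890f31e) (nat_lit 546864309),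
  Rx.mk (nat_lit 203) (nat_lit 3) (nat_lit 1) (nat_lit 3) (nat_lit 7) (nat_lit 53) (nat_lit 27) r2_53 r4_27 (nat_lit 0) (nat_lit 0) (nat_lit 0) (nat_lit 0x8017985b4) (nat_lit 536870912),
  Rx.mk (nat_lit 207) (nat_lit 7) (nat_lit 1) (nat_lit 3) (nat_lit 7) (nat_lit 55) (nat_lit 22) r2_55 r4_22 (nat_lit 0) (nat_lit 0) (nat_lit 0) (nat_lit 0x8017985b4) (nat_lit 536870912),
  Rx.mk (nat_lit 223) (nat_lit 7) (nat_lit 3) (nat_lit 3) (nat_lit 7) (nat_lit 56) (nat_lit 23) r2_56 r4_23 (nat_lit 0) (nat_lit 0) (nat_lit 0) (nat_lit 0x8017985b4) (nat_lit 536870912)]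
noncomputable def e46_52 : List Rx := [
  Rx.mk (nat_lit 203) (nat_lit 3) (nat_lit 1) (nat_lit 3) (nat_lit 7) (nat_lit 57) (nat_lit 15) r2_57 r5_15 (nat_lit 0) (nat_lit 0) (nat_lit 0) (nat_lit 0x8059dee46) (nat_lit 532797862),
  Rx.mk (nat_lit 207) (nat_lit 7) (nat_lit 1) (nat_lit 3) (nat_lit 7) (nat_lit 58) (nat_lit 14) r2_58 r5_14 (nat_lit 0) (nat_lit 0) (nat_lit 0) (nat_lit 0x8017985b4) (nat_lit 536870912)]
noncomputable def e46_53 : List Rx := [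
  Rx.mk (nat_lit 11) (nat_lit 3) (nat_lit 1) (nat_lit 0) (nat_lit 3) (nat_lit 158) (nat_lit 271) r2_158 r4_271 (nat_lit 0) (nat_lit 0) (nat_lit 24741287) (nat_lit 0x8017985b4) (nat_lit 561612199),
  Rx.mk (nat_lit 203) (nat_lit 3) (nat_lit 1) (nat_lit 3) (nat_lit 7) (nat_lit 159) (nat_lit 272) r2_159 r4_272 (nat_lit 0) (nat_lit 0) (nat_lit 0) (nat_lit 0x8017985b4) (nat_lit 536870912)]
noncomputable def e46_54 : List Rx := [
  Rx.mk (nat_lit 3) (nat_lit 3) (nat_lit 0) (nat_lit 0) (nat_lit 1) (nat_lit 160) (nat_lit 10) r2_160 r10_10 (nat_lit 0) (nat_lit 13507056) (nat_lit 10828370) (nat_lit 0x67d645c8c) (nat_lit 952582088),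
  Rx.mk (nat_lit 11) (nat_lit 3) (nat_lit 1) (nat_lit 0) (nat_lit 3) (nat_lit 161) (nat_lit 11) r2_161 r10_11 (nat_lit 0) (nat_lit 0) (nat_lit 24741287) (nat_lit 0x8017985b4) (nat_lit 561612199),
  Rx.mk (nat_lit 131) (nat_lit 3) (nat_lit 0) (nat_lit 2) (nat_lit 5) (nat_lit 162) (nat_lit 14) r2_162 r10_14 (nat_lit 0) (nat_lit 26181532) (nat_lit 0) (nat_lit 0x7fe1525fe) (nat_lit 566368444),
  Rx.mk (nat_lit 139) (nat_lit 3) (nat_lit 1) (nat_lit 2) (nat_lit 7) (nat_lit 163) (nat_lit 15) r2_163 r10_15 (nat_lit 0) (nat_lit 0) (nat_lit 0) (nat_lit 0x8017985b4) (nat_lit 536870912),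
  Rx.mk (nat_lit 147) (nat_lit 3) (nat_lit 2) (nat_lit 2) (nat_lit 7) (nat_lit 164) (nat_lit 16) r2_164 r10_16 (nat_lit 0) (nat_lit 0) (nat_lit 0) (nat_lit 0x8017985b4) (nat_lit 536870912),
  Rx.mk (nat_lit 195) (nat_lit 3) (nat_lit 0) (nat_lit 3) (nat_lit 5) (nat_lit 165) (nat_lit 12) r2_165 r10_12 (nat_lit 0) (nat_lit 24741287) (nat_lit 0) (nat_lit 0x8017985b4) (nat_lit 561612199),
  Rx.mk (nat_lit 203) (nat_lit 3) (nat_lit 1) (nat_lit 3) (nat_lit 7) (nat_lit 166) (nat_lit 13) r2_166 r10_13 (nat_lit 0) (nat_lit 0) (nat_lit 0) (nat_lit 0x8017985b4) (nat_lit 536870912)]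
noncomputable def e46_55 : List Rx := [
  Rx.mk (nat_lit 203) (nat_lit 3) (nat_lit 1) (nat_lit 3) (nat_lit 7) (nat_lit 167) (nat_lit 5) r2_167 r11_5 (nat_lit 0) (nat_lit 0) (nat_lit 0) (nat_lit 0x8017985b4) (nat_lit 536870912)]
noncomputable def e46_56 : List Rx := [
  Rx.mk (nat_lit 11) (nat_lit 3) (nat_lit 1) (nat_lit 0) (nat_lit 3) (nat_lit 238) (nat_lit 258) r2_238 r5_258 (nat_lit 0) (nat_lit 0) (nat_lit 39193482) (nat_lit 0x80a1c8662) (nat_lit 567515444),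
  Rx.mk (nat_lit 15) (nat_lit 7) (nat_lit 1) (nat_lit 0) (nat_lit 3) (nat_lit 239) (nat_lit 259) r2_239 r5_259 (nat_lit 0) (nat_lit 0) (nat_lit 20262659) (nat_lit 0x7ffd89060) (nat_lit 558709871),
  Rx.mk (nat_lit 207) (nat_lit 7) (nat_lit 1) (nat_lit 3) (nat_lit 7) (nat_lit 240) (nat_lit 260) r2_240 r5_260 (nat_lit 0) (nat_lit 0) (nat_lit 0) (nat_lit 0x8017985b4) (nat_lit 536870912)]
noncomputable def e46_57 : List Rx := [
  Rx.mk (nat_lit 3) (nat_lit 3) (nat_lit 0) (nat_lit 0) (nat_lit 1) (nat_lit 241) (nat_lit 308) r2_241 r11_308 (nat_lit 0) (nat_lit 25006969) (nat_lit 36134950) (nat_lit 0x75d2a943a) (nat_lit 763343081),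
  Rx.mk (nat_lit 7) (nat_lit 7) (nat_lit 0) (nat_lit 0) (nat_lit 1) (nat_lit 246) (nat_lit 309) r2_246 r11_309 (nat_lit 0) (nat_lit 33757685) (nat_lit 47863837) (nat_lit 0x7c693e598) (nat_lit 677403034),
  Rx.mk (nat_lit 11) (nat_lit 3) (nat_lit 1) (nat_lit 0) (nat_lit 3) (nat_lit 242) (nat_lit 312) r2_242 r11_312 (nat_lit 0) (nat_lit 0) (nat_lit 24741287) (nat_lit 0x8017985b4) (nat_lit 561612199),
  Rx.mk (nat_lit 15) (nat_lit 7) (nat_lit 1) (nat_lit 0) (nat_lit 3) (nat_lit 247) (nat_lit 313) r2_247 r11_313 (nat_lit 0) (nat_lit 0) (nat_lit 24741287) (nat_lit 0x8017985b4) (nat_lit 561612199),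
  Rx.mk (nat_lit 131) (nat_lit 3) (nat_lit 0) (nat_lit 2) (nat_lit 5) (nat_lit 243) (nat_lit 311) r2_243 r11_311 (nat_lit 0) (nat_lit 24741287) (nat_lit 0) (nat_lit 0x8017985b4) (nat_lit 561612199),
  Rx.mk (nat_lit 139) (nat_lit 3) (nat_lit 1) (nat_lit 2) (nat_lit 7) (nat_lit 244) (nat_lit 315) r2_244 r11_315 (nat_lit 0) (nat_lit 0) (nat_lit 0) (nat_lit 0x8017985b4) (nat_lit 536870912),
  Rx.mk (nat_lit 147) (nat_lit 3) (nat_lit 2) (nat_lit 2) (nat_lit 7) (nat_lit 245) (nat_lit 317) r2_245 r11_317 (nat_lit 0) (nat_lit 0) (nat_lit 0) (nat_lit 0x8017985b4) (nat_lit 536870912),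
  Rx.mk (nat_lit 199) (nat_lit 7) (nat_lit 0) (nat_lit 3) (nat_lit 5) (nat_lit 248) (nat_lit 310) r2_248 r11_310 (nat_lit 0) (nat_lit 24741287) (nat_lit 0) (nat_lit 0x8017985b4) (nat_lit 561612199),
  Rx.mk (nat_lit 207) (nat_lit 7) (nat_lit 1) (nat_lit 3) (nat_lit 7) (nat_lit 249) (nat_lit 314) r2_249 r11_314 (nat_lit 0) (nat_lit 0) (nat_lit 0) (nat_lit 0x8017985b4) (nat_lit 536870912),
  Rx.mk (nat_lit 223) (nat_lit 7) (nat_lit 3) (nat_lit 3) (nat_lit 7) (nat_lit 250) (nat_lit 316) r2_250 r11_316 (nat_lit 0) (nat_lit 0) (nat_lit 0) (nat_lit 0x8017985b4) (nat_lit 536870912)]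
noncomputable def e46 : List (List Rx) := [e46_0, e46_1, e46_2, e46_3, e46_4, e46_5, e46_6, e46_7, e46_8, e46_9, e46_10, e46_11, e46_12, e46_13, e46_14, e46_15, e46_16, e46_17, e46_18, e46_19, e46_20, e46_21, e46_22, e46_23, e46_24, e46_25, e46_26, e46_27, e46_28, e46_29, e46_30, e46_31, e46_32, e46_33, e46_34, e46_35, e46_36, e46_37, e46_38, e46_39, e46_40, e46_41, e46_42, e46_43, e46_44, e46_45, e46_46, e46_47, e46_48, e46_49, e46_50, e46_51, e46_52, e46_53, e46_54, e46_55, e46_56, e46_57]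

end Pool.Agent.AKXS_24_34_V1
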