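import Pool.Agent.AKXS_24_34_V1.R0
import Pool.Agent.AKXS_24_34_V1.R1
import Pool.Agent.AKXS_24_34_V1.R2
import Pool.Agent.AKXS_24_34_V1.R3
import Pool.Agent.AKXS_24_34_V1.R4
import Pool.Agent.AKXS_24_34_V1.R5
import Pool.Agent.AKXS_24_34_V1.R6
import Pool.Agent.AKXS_24_34_V1.R7
import Pool.Agent.AKXS_24_34_V1.R8
import Pool.Agent.AKXS_24_34_V1.R9
import Pool.Agent.AKXS_24_34_V1.R10
import Pool.Agent.AKXS_24_34_V1.R11
import Pool.Agent.AKXS_24_34_V1.R12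

set_option autoImplicit false

namespace Pool.Agent.AKXS_24_34_V1

open Pool.Agent.AKX Pool.Agent.AKU

noncomputable def e47_0 : List Rx := [
  Rx.mk (nat_lit 13) (nat_lit 5) (nat_lit 1) (nat_lit 0) (nat_lit 3) (nat_lit 178) (nat_lit 289) r8_178 r0_289 (nat_lit 0) (nat_lit 0) (nat_lit 25058333) (nat_lit 0x74a9cadf8) (nat_lit 746005345),
  Rx.mk (nat_lit 77) (nat_lit 5) (nat_lit 1) (nat_lit 1) (nat_lit 7) (nat_lit 179) (nat_lit 290) r8_179 r0_290 (nat_lit 0) (nat_lit 0) (nat_lit 0) (nat_lit 0x7ffa6b34c) (nat_lit 538657562)]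
noncomputable def e47_1 : List Rx := [
  Rx.mk (nat_lit 77) (nat_lit 5) (nat_lit 1) (nat_lit 1) (nat_lit 7) (nat_lit 180) (nat_lit 286) r8_180 r1_286 (nat_lit 0) (nat_lit 0) (nat_lit 0) (nat_lit 0x8017985b4) (nat_lit 536870912)]
noncomputable def e47_2 : List Rx := [
  Rx.mk (nat_lit 77) (nat_lit 5) (nat_lit 1) (nat_lit 1) (nat_lit 7) (nat_lit 322) (nat_lit 312) r8_322 r2_312 (nat_lit 0) (nat_lit 0) (nat_lit 0) (nat_lit 0x8017985b4) (nat_lit 536870912),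
  Rx.mk (nat_lit 333) (nat_lit 5) (nat_lit 1) (nat_lit 5) (nat_lit 7) (nat_lit 321) (nat_lit 313) r8_321 r2_313 (nat_lit 0) (nat_lit 0) (nat_lit 0) (nat_lit 0x8017985b4) (nat_lit 536870912),
  Rx.mk (nat_lit 365) (nat_lit 5) (nat_lit 5) (nat_lit 5) (nat_lit 7) (nat_lit 320) (nat_lit 314) r8_320 r2_314 (nat_lit 0) (nat_lit 0) (nat_lit 0) (nat_lit 0x8017985b4) (nat_lit 536870912)]
noncomputable def e47_3 : List Rx := [
  Rx.mk (nat_lit 13) (nat_lit 5) (nat_lit 1) (nat_lit 0) (nat_lit 3) (nat_lit 61) (nat_lit 288) r8_61 r3_288 (nat_lit 0) (nat_lit 0) (nat_lit 4361193) (nat_lit 0x73e0634a6) (nat_lit 737767955),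
  Rx.mk (nat_lit 205) (nat_lit 5) (nat_lit 1) (nat_lit 3) (nat_lit 7) (nat_lit 62) (nat_lit 289) r8_62 r3_289 (nat_lit 0) (nat_lit 0) (nat_lit 0) (nat_lit 0x851b92084) (nat_lit 459606612)]
noncomputable def e47_4 : List Rx := [
  Rx.mk (nat_lit 13) (nat_lit 5) (nat_lit 1) (nat_lit 0) (nat_lit 3) (nat_lit 181) (nat_lit 304) r8_181 r4_304 (nat_lit 0) (nat_lit 0) (nat_lit 24372871) (nat_lit 0x7fec7bb1a) (nat_lit 563885983),
  Rx.mk (nat_lit 77) (nat_lit 5) (nat_lit 1) (nat_lit 1) (nat_lit 7) (nat_lit 182) (nat_lit 305) r8_182 r4_305 (nat_lit 0) (nat_lit 0) (nat_lit 0) (nat_lit 0x8017985b4) (nat_lit 536870912),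
  Rx.mk (nat_lit 205) (nat_lit 5) (nat_lit 1) (nat_lit 3) (nat_lit 7) (nat_lit 183) (nat_lit 306) r8_183 r4_306 (nat_lit 0) (nat_lit 0) (nat_lit 0) (nat_lit 0x8017985b4) (nat_lit 536870912)]
noncomputable def e47_5 : List Rx := [
  Rx.mk (nat_lit 205) (nat_lit 5) (nat_lit 1) (nat_lit 3) (nat_lit 7) (nat_lit 218) (nat_lit 285) r8_218 r5_285 (nat_lit 0) (nat_lit 0) (nat_lit 0) (nat_lit 0x815927600) (nat_lit 517280412)]
noncomputable def e47_6 : List Rx := [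
  Rx.mk (nat_lit 268) (nat_lit 4) (nat_lit 1) (nat_lit 4) (nat_lit 2) (nat_lit 334) (nat_lit 268) r8_334 r3_268 (nat_lit 875122) (nat_lit 0) (nat_lit 913664) (nat_lit 0x5cc5f9ef6) (nat_lit 1108454298),
  Rx.mk (nat_lit 269) (nat_lit 5) (nat_lit 1) (nat_lit 4) (nat_lit 3) (nat_lit 335) (nat_lit 270) r8_335 r3_270 (nat_lit 0) (nat_lit 0) (nat_lit 20103359) (nat_lit 0x733b06e04) (nat_lit 764186071),
  Rx.mk (nat_lit 460) (nat_lit 4) (nat_lit 1) (nat_lit 7) (nat_lit 6) (nat_lit 336) (nat_lit 269) r8_336 r3_269 (nat_lit 6010146) (nat_lit 0) (nat_lit 0) (nat_lit 0x6e1566726) (nat_lit 833142708),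
  Rx.mk (nat_lit 461) (nat_lit 5) (nat_lit 1) (nat_lit 7) (nat_lit 7) (nat_lit 337) (nat_lit 271) r8_337 r3_271 (nat_lit 0) (nat_lit 0) (nat_lit 0) (nat_lit 0x7f8ae4a3c) (nat_lit 545526512),
  Rx.mk (nat_lit 492) (nat_lit 4) (nat_lit 5) (nat_lit 7) (nat_lit 6) (nat_lit 331) (nat_lit 265) r8_331 r3_265 (nat_lit 14122163) (nat_lit 0) (nat_lit 0) (nat_lit 0x6b5780b64) (nat_lit 885726425),
  Rx.mk (nat_lit 493) (nat_lit 5) (nat_lit 5) (nat_lit 7) (nat_lit 7) (nat_lit 332) (nat_lit 266) r8_332 r3_266 (nat_lit 0) (nat_lit 0) (nat_lit 0) (nat_lit 0x8017985b4) (nat_lit 536870912),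
  Rx.mk (nat_lit 495) (nat_lit 7) (nat_lit 5) (nat_lit 7) (nat_lit 7) (nat_lit 333) (nat_lit 267) r8_333 r3_267 (nat_lit 0) (nat_lit 0) (nat_lit 0) (nat_lit 0x7f54cbf2c) (nat_lit 548916912)]
noncomputable def e47_7 : List Rx := [
  Rx.mk (nat_lit 268) (nat_lit 4) (nat_lit 1) (nat_lit 4) (nat_lit 2) (nat_lit 237) (nat_lit 278) r8_237 r0_278 (nat_lit 22445376) (nat_lit 0) (nat_lit 11187286) (nat_lit 0x611b170e2) (nat_lit 1070645824),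
  Rx.mk (nat_lit 269) (nat_lit 5) (nat_lit 1) (nat_lit 4) (nat_lit 3) (nat_lit 238) (nat_lit 280) r8_238 r0_280 (nat_lit 0) (nat_lit 0) (nat_lit 25163350) (nat_lit 0x75f165a36) (nat_lit 725421662),
  Rx.mk (nat_lit 300) (nat_lit 4) (nat_lit 5) (nat_lit 4) (nat_lit 2) (nat_lit 230) (nat_lit 271) r8_230 r0_271 (nat_lit 75494649) (nat_lit 0) (nat_lit 75450971) (nat_lit 0x5a61765d0) (nat_lit 1296858182),
  Rx.mk (nat_lit 301) (nat_lit 5) (nat_lit 5) (nat_lit 4) (nat_lit 3) (nat_lit 231) (nat_lit 274) r8_231 r0_274 (nat_lit 0) (nat_lit 0) (nat_lit 30314307) (nat_lit 0x6f3513136) (nat_lit 839472119),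
  Rx.mk (nat_lit 332) (nat_lit 4) (nat_lit 1) (nat_lit 5) (nat_lit 6) (nat_lit 239) (nat_lit 279) r8_239 r0_279 (nat_lit 24741287) (nat_lit 0) (nat_lit 0) (nat_lit 0x7faf81db8) (nat_lit 567993049),
  Rx.mk (nat_lit 333) (nat_lit 5) (nat_lit 1) (nat_lit 5) (nat_lit 7) (nat_lit 240) (nat_lit 281) r8_240 r0_281 (nat_lit 0) (nat_lit 0) (nat_lit 0) (nat_lit 0x80027a268) (nat_lit 538140112),
  Rx.mk (nat_lit 364) (nat_lit 4) (nat_lit 5) (nat_lit 5) (nat_lit 6) (nat_lit 232) (nat_lit 272) r8_232 r0_272 (nat_lit 36993222) (nat_lit 0) (nat_lit 0) (nat_lit 0x7df6aaa0c) (nat_lit 607751434),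
  Rx.mk (nat_lit 365) (nat_lit 5) (nat_lit 5) (nat_lit 5) (nat_lit 7) (nat_lit 233) (nat_lit 275) r8_233 r0_275 (nat_lit 0) (nat_lit 0) (nat_lit 0) (nat_lit 0x7f69ccc6e) (nat_lit 547574012),
  Rx.mk (nat_lit 492) (nat_lit 4) (nat_lit 5) (nat_lit 7) (nat_lit 6) (nat_lit 234) (nat_lit 273) r8_234 r0_273 (nat_lit 25972273) (nat_lit 0) (nat_lit 0) (nat_lit 0x7eb8e4744) (nat_lit 584573485),
  Rx.mk (nat_lit 493) (nat_lit 5) (nat_lit 5) (nat_lit 7) (nat_lit 7) (nat_lit 235) (nat_lit 276) r8_235 r0_276 (nat_lit 0) (nat_lit 0) (nat_lit 0) (nat_lit 0x8017985b4) (nat_lit 536870912),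
  Rx.mk (nat_lit 495) (nat_lit 7) (nat_lit 5) (nat_lit 7) (nat_lit 7) (nat_lit 236) (nat_lit 277) r8_236 r0_277 (nat_lit 0) (nat_lit 0) (nat_lit 0) (nat_lit 0x8010a6c4c) (nat_lit 537295162)]
noncomputable def e47_8 : List Rx := [
  Rx.mk (nat_lit 332) (nat_lit 4) (nat_lit 1) (nat_lit 5) (nat_lit 6) (nat_lit 318) (nat_lit 276) r8_318 r1_276 (nat_lit 24741287) (nat_lit 0) (nat_lit 0) (nat_lit 0x8017985b4) (nat_lit 561612199),
  Rx.mk (nat_lit 333) (nat_lit 5) (nat_lit 1) (nat_lit 5) (nat_lit 7) (nat_lit 319) (nat_lit 277) r8_319 r1_277 (nat_lit 0) (nat_lit 0) (nat_lit 0) (nat_lit 0x8017985b4) (nat_lit 536870912),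
  Rx.mk (nat_lit 364) (nat_lit 4) (nat_lit 5) (nat_lit 5) (nat_lit 6) (nat_lit 316) (nat_lit 274) r8_316 r1_274 (nat_lit 24586055) (nat_lit 0) (nat_lit 0) (nat_lit 0x80057ba20) (nat_lit 562565917),
  Rx.mk (nat_lit 365) (nat_lit 5) (nat_lit 5) (nat_lit 5) (nat_lit 7) (nat_lit 317) (nat_lit 275) r8_317 r1_275 (nat_lit 0) (nat_lit 0) (nat_lit 0) (nat_lit 0x8017985b4) (nat_lit 536870912)]
noncomputable def e47_9 : List Rx := [
  Rx.mk (nat_lit 268) (nat_lit 4) (nat_lit 1) (nat_lit 4) (nat_lit 2) (nat_lit 341) (nat_lit 287) r8_341 r4_287 (nat_lit 27124229) (nat_lit 0) (nat_lit 34758505) (nat_lit 0x700d128ac) (nat_lit 857380996),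
  Rx.mk (nat_lit 269) (nat_lit 5) (nat_lit 1) (nat_lit 4) (nat_lit 3) (nat_lit 342) (nat_lit 290) r8_342 r4_290 (nat_lit 0) (nat_lit 0) (nat_lit 24741287) (nat_lit 0x8017985b4) (nat_lit 561612199),
  Rx.mk (nat_lit 332) (nat_lit 4) (nat_lit 1) (nat_lit 5) (nat_lit 6) (nat_lit 343) (nat_lit 288) r8_343 r4_288 (nat_lit 24741287) (nat_lit 0) (nat_lit 0) (nat_lit 0x7ff500268) (nat_lit 563728899),
  Rx.mk (nat_lit 333) (nat_lit 5) (nat_lit 1) (nat_lit 5) (nat_lit 7) (nat_lit 344) (nat_lit 291) r8_344 r4_291 (nat_lit 0) (nat_lit 0) (nat_lit 0) (nat_lit 0x8017985b4) (nat_lit 536870912),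
  Rx.mk (nat_lit 460) (nat_lit 4) (nat_lit 1) (nat_lit 7) (nat_lit 6) (nat_lit 345) (nat_lit 289) r8_345 r4_289 (nat_lit 24741287) (nat_lit 0) (nat_lit 0) (nat_lit 0x8017985b4) (nat_lit 561612199),
  Rx.mk (nat_lit 461) (nat_lit 5) (nat_lit 1) (nat_lit 7) (nat_lit 7) (nat_lit 346) (nat_lit 292) r8_346 r4_292 (nat_lit 0) (nat_lit 0) (nat_lit 0) (nat_lit 0x8017985b4) (nat_lit 536870912),
  Rx.mk (nat_lit 492) (nat_lit 4) (nat_lit 5) (nat_lit 7) (nat_lit 6) (nat_lit 338) (nat_lit 284) r8_338 r4_284 (nat_lit 24741287) (nat_lit 0) (nat_lit 0) (nat_lit 0x8017985b4) (nat_lit 561612199),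
  Rx.mk (nat_lit 493) (nat_lit 5) (nat_lit 5) (nat_lit 7) (nat_lit 7) (nat_lit 339) (nat_lit 285) r8_339 r4_285 (nat_lit 0) (nat_lit 0) (nat_lit 0) (nat_lit 0x8017985b4) (nat_lit 536870912),
  Rx.mk (nat_lit 495) (nat_lit 7) (nat_lit 5) (nat_lit 7) (nat_lit 7) (nat_lit 340) (nat_lit 286) r8_340 r4_286 (nat_lit 0) (nat_lit 0) (nat_lit 0) (nat_lit 0x8017985b4) (nat_lit 536870912)]
noncomputable def e47_10 : List Rx := [
  Rx.mk (nat_lit 204) (nat_lit 4) (nat_lit 1) (nat_lit 3) (nat_lit 6) (nat_lit 216) (nat_lit 310) r8_216 r6_310 (nat_lit 11102784) (nat_lit 0) (nat_lit 0) (nat_lit 0x80e83c530) (nat_lit 535184746),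
  Rx.mk (nat_lit 205) (nat_lit 5) (nat_lit 1) (nat_lit 3) (nat_lit 7) (nat_lit 217) (nat_lit 312) r8_217 r6_312 (nat_lit 0) (nat_lit 0) (nat_lit 0) (nat_lit 0x8017985b4) (nat_lit 536870912),
  Rx.mk (nat_lit 460) (nat_lit 4) (nat_lit 1) (nat_lit 7) (nat_lit 6) (nat_lit 214) (nat_lit 311) r8_214 r6_311 (nat_lit 24741287) (nat_lit 0) (nat_lit 0) (nat_lit 0x8017985b4) (nat_lit 561612199),
  Rx.mk (nat_lit 461) (nat_lit 5) (nat_lit 1) (nat_lit 7) (nat_lit 7) (nat_lit 215) (nat_lit 313) r8_215 r6_313 (nat_lit 0) (nat_lit 0) (nat_lit 0) (nat_lit 0x8017985b4) (nat_lit 536870912)]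
noncomputable def e47_11 : List Rx := [
  Rx.mk (nat_lit 460) (nat_lit 4) (nat_lit 1) (nat_lit 7) (nat_lit 6) (nat_lit 349) (nat_lit 271) r8_349 r5_271 (nat_lit 26551209) (nat_lit 0) (nat_lit 0) (nat_lit 0x7f5f75306) (nat_lit 574765171),
  Rx.mk (nat_lit 461) (nat_lit 5) (nat_lit 1) (nat_lit 7) (nat_lit 7) (nat_lit 350) (nat_lit 272) r8_350 r5_272 (nat_lit 0) (nat_lit 0) (nat_lit 0) (nat_lit 0x8017985b4) (nat_lit 536870912),
  Rx.mk (nat_lit 492) (nat_lit 4) (nat_lit 5) (nat_lit 7) (nat_lit 6) (nat_lit 347) (nat_lit 269) r8_347 r5_269 (nat_lit 26407128) (nat_lit 0) (nat_lit 0) (nat_lit 0x7ed75b9ac) (nat_lit 583090140),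
  Rx.mk (nat_lit 493) (nat_lit 5) (nat_lit 5) (nat_lit 7) (nat_lit 7) (nat_lit 348) (nat_lit 270) r8_348 r5_270 (nat_lit 0) (nat_lit 0) (nat_lit 0) (nat_lit 0x8017985b4) (nat_lit 536870912)]
noncomputable def e47_12 : List Rx := [
  Rx.mk (nat_lit 9) (nat_lit 1) (nat_lit 1) (nat_lit 0) (nat_lit 3) (nat_lit 64) (nat_lit 186) r8_64 r0_186 (nat_lit 0) (nat_lit 0) (nat_lit 26500941) (nat_lit 0x7c9c5d064) (nat_lit 619045003),
  Rx.mk (nat_lit 13) (nat_lit 5) (nat_lit 1) (nat_lit 0) (nat_lit 3) (nat_lit 63) (nat_lit 185) r8_63 r0_185 (nat_lit 0) (nat_lit 0) (nat_lit 17259595) (nat_lit 0x7bf63ab82) (nat_lit 620224207),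
  Rx.mk (nat_lit 201) (nat_lit 1) (nat_lit 1) (nat_lit 3) (nat_lit 7) (nat_lit 65) (nat_lit 187) r8_65 r0_187 (nat_lit 0) (nat_lit 0) (nat_lit 0) (nat_lit 0x802f4e852) (nat_lit 535398012)]
noncomputable def e47_13 : List Rx := [
  Rx.mk (nat_lit 9) (nat_lit 1) (nat_lit 1) (nat_lit 0) (nat_lit 3) (nat_lit 185) (nat_lit 401) r8_185 r7_401 (nat_lit 0) (nat_lit 0) (nat_lit 25158612) (nat_lit 0x7ffdc5b5a) (nat_lit 563608374),
  Rx.mk (nat_lit 13) (nat_lit 5) (nat_lit 1) (nat_lit 0) (nat_lit 3) (nat_lit 184) (nat_lit 404) r8_184 r7_404 (nat_lit 0) (nat_lit 0) (nat_lit 24741287) (nat_lit 0x8017985b4) (nat_lit 561612199),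
  Rx.mk (nat_lit 73) (nat_lit 1) (nat_lit 1) (nat_lit 1) (nat_lit 7) (nat_lit 187) (nat_lit 402) r8_187 r7_402 (nat_lit 0) (nat_lit 0) (nat_lit 0) (nat_lit 0x8017985b4) (nat_lit 536870912),
  Rx.mk (nat_lit 77) (nat_lit 5) (nat_lit 1) (nat_lit 1) (nat_lit 7) (nat_lit 186) (nat_lit 405) r8_186 r7_405 (nat_lit 0) (nat_lit 0) (nat_lit 0) (nat_lit 0x8017985b4) (nat_lit 536870912),
  Rx.mk (nat_lit 201) (nat_lit 1) (nat_lit 1) (nat_lit 3) (nat_lit 7) (nat_lit 188) (nat_lit 403) r8_188 r7_403 (nat_lit 0) (nat_lit 0) (nat_lit 0) (nat_lit 0x8017985b4) (nat_lit 536870912)]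
noncomputable def e47_14 : List Rx := [
  Rx.mk (nat_lit 9) (nat_lit 1) (nat_lit 1) (nat_lit 0) (nat_lit 3) (nat_lit 66) (nat_lit 199) r8_66 r1_199 (nat_lit 0) (nat_lit 0) (nat_lit 24741287) (nat_lit 0x8001ac32c) (nat_lit 562953699),
  Rx.mk (nat_lit 201) (nat_lit 1) (nat_lit 1) (nat_lit 3) (nat_lit 7) (nat_lit 67) (nat_lit 200) r8_67 r1_200 (nat_lit 0) (nat_lit 0) (nat_lit 0) (nat_lit 0x8017985b4) (nat_lit 536870912)]
noncomputable def e47_15 : List Rx := [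
  Rx.mk (nat_lit 9) (nat_lit 1) (nat_lit 1) (nat_lit 0) (nat_lit 3) (nat_lit 191) (nat_lit 323) r8_191 r8_323 (nat_lit 0) (nat_lit 0) (nat_lit 24741287) (nat_lit 0x8017985b4) (nat_lit 561612199),
  Rx.mk (nat_lit 73) (nat_lit 1) (nat_lit 1) (nat_lit 1) (nat_lit 7) (nat_lit 192) (nat_lit 324) r8_192 r8_324 (nat_lit 0) (nat_lit 0) (nat_lit 0) (nat_lit 0x8017985b4) (nat_lit 536870912),
  Rx.mk (nat_lit 201) (nat_lit 1) (nat_lit 1) (nat_lit 3) (nat_lit 7) (nat_lit 193) (nat_lit 325) r8_193 r8_325 (nat_lit 0) (nat_lit 0) (nat_lit 0) (nat_lit 0x8017985b4) (nat_lit 536870912)]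
noncomputable def e47_16 : List Rx := [
  Rx.mk (nat_lit 73) (nat_lit 1) (nat_lit 1) (nat_lit 1) (nat_lit 7) (nat_lit 190) (nat_lit 190) r8_190 r8_190 (nat_lit 0) (nat_lit 0) (nat_lit 0) (nat_lit 0x8017985b4) (nat_lit 536870912),
  Rx.mk (nat_lit 77) (nat_lit 5) (nat_lit 1) (nat_lit 1) (nat_lit 7) (nat_lit 189) (nat_lit 189) r8_189 r8_189 (nat_lit 0) (nat_lit 0) (nat_lit 0) (nat_lit 0x8017985b4) (nat_lit 536870912)]
noncomputable def e47_17 : List Rx := [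
  Rx.mk (nat_lit 73) (nat_lit 1) (nat_lit 1) (nat_lit 1) (nat_lit 7) (nat_lit 330) (nat_lit 294) r8_330 r9_294 (nat_lit 0) (nat_lit 0) (nat_lit 0) (nat_lit 0x8017985b4) (nat_lit 536870912),
  Rx.mk (nat_lit 77) (nat_lit 5) (nat_lit 1) (nat_lit 1) (nat_lit 7) (nat_lit 329) (nat_lit 295) r8_329 r9_295 (nat_lit 0) (nat_lit 0) (nat_lit 0) (nat_lit 0x8017985b4) (nat_lit 536870912),
  Rx.mk (nat_lit 333) (nat_lit 5) (nat_lit 1) (nat_lit 5) (nat_lit 7) (nat_lit 328) (nat_lit 296) r8_328 r9_296 (nat_lit 0) (nat_lit 0) (nat_lit 0) (nat_lit 0x8017985b4) (nat_lit 536870912),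
  Rx.mk (nat_lit 365) (nat_lit 5) (nat_lit 5) (nat_lit 5) (nat_lit 7) (nat_lit 327) (nat_lit 297) r8_327 r9_297 (nat_lit 0) (nat_lit 0) (nat_lit 0) (nat_lit 0x8017985b4) (nat_lit 536870912)]
noncomputable def e47_18 : List Rx := [
  Rx.mk (nat_lit 13) (nat_lit 5) (nat_lit 1) (nat_lit 0) (nat_lit 3) (nat_lit 68) (nat_lit 174) r8_68 r4_174 (nat_lit 0) (nat_lit 0) (nat_lit 19417164) (nat_lit 0x7fd35cbf2) (nat_lit 560445626),
  Rx.mk (nat_lit 201) (nat_lit 1) (nat_lit 1) (nat_lit 3) (nat_lit 7) (nat_lit 70) (nat_lit 176) r8_70 r4_176 (nat_lit 0) (nat_lit 0) (nat_lit 0) (nat_lit 0x8017985b4) (nat_lit 536870912),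
  Rx.mk (nat_lit 205) (nat_lit 5) (nat_lit 1) (nat_lit 3) (nat_lit 7) (nat_lit 69) (nat_lit 175) r8_69 r4_175 (nat_lit 0) (nat_lit 0) (nat_lit 0) (nat_lit 0x80539e52c) (nat_lit 533184912)]
noncomputable def e47_19 : List Rx := [
  Rx.mk (nat_lit 13) (nat_lit 5) (nat_lit 1) (nat_lit 0) (nat_lit 3) (nat_lit 194) (nat_lit 326) r8_194 r10_326 (nat_lit 0) (nat_lit 0) (nat_lit 24741287) (nat_lit 0x8017985b4) (nat_lit 561612199),
  Rx.mk (nat_lit 77) (nat_lit 5) (nat_lit 1) (nat_lit 1) (nat_lit 7) (nat_lit 195) (nat_lit 327) r8_195 r10_327 (nat_lit 0) (nat_lit 0) (nat_lit 0) (nat_lit 0x8017985b4) (nat_lit 536870912),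
  Rx.mk (nat_lit 201) (nat_lit 1) (nat_lit 1) (nat_lit 3) (nat_lit 7) (nat_lit 197) (nat_lit 325) r8_197 r10_325 (nat_lit 0) (nat_lit 0) (nat_lit 0) (nat_lit 0x8017985b4) (nat_lit 536870912),
  Rx.mk (nat_lit 205) (nat_lit 5) (nat_lit 1) (nat_lit 3) (nat_lit 7) (nat_lit 196) (nat_lit 328) r8_196 r10_328 (nat_lit 0) (nat_lit 0) (nat_lit 0) (nat_lit 0x8017985b4) (nat_lit 536870912)]
noncomputable def e47_20 : List Rx := [
  Rx.mk (nat_lit 201) (nat_lit 1) (nat_lit 1) (nat_lit 3) (nat_lit 7) (nat_lit 220) (nat_lit 343) r8_220 r11_343 (nat_lit 0) (nat_lit 0) (nat_lit 0) (nat_lit 0x8017985b4) (nat_lit 536870912),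
  Rx.mk (nat_lit 205) (nat_lit 5) (nat_lit 1) (nat_lit 3) (nat_lit 7) (nat_lit 219) (nat_lit 344) r8_219 r11_344 (nat_lit 0) (nat_lit 0) (nat_lit 0) (nat_lit 0x8017985b4) (nat_lit 536870912)]
noncomputable def e47_21 : List Rx := [
  Rx.mk (nat_lit 365) (nat_lit 5) (nat_lit 5) (nat_lit 5) (nat_lit 7) (nat_lit 326) (nat_lit 289) r8_326 r9_289 (nat_lit 0) (nat_lit 0) (nat_lit 0) (nat_lit 0x8017985b4) (nat_lit 536870912)]
noncomputable def e47_22 : List Rx := [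
  Rx.mk (nat_lit 300) (nat_lit 4) (nat_lit 5) (nat_lit 4) (nat_lit 2) (nat_lit 241) (nat_lit 188) r8_241 r0_188 (nat_lit 19008238) (nat_lit 0) (nat_lit 24251954) (nat_lit 0x59ee2d664) (nat_lit 1196415754),
  Rx.mk (nat_lit 301) (nat_lit 5) (nat_lit 5) (nat_lit 4) (nat_lit 3) (nat_lit 242) (nat_lit 189) r8_242 r0_189 (nat_lit 0) (nat_lit 0) (nat_lit 26165794) (nat_lit 0x7b3e3e45c) (nat_lit 640781706),
  Rx.mk (nat_lit 302) (nat_lit 6) (nat_lit 5) (nat_lit 4) (nat_lit 3) (nat_lit 243) (nat_lit 190) r8_243 r0_190 (nat_lit 0) (nat_lit 0) (nat_lit 32293832) (nat_lit 0x808393b6a) (nat_lit 562478594),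
  Rx.mk (nat_lit 492) (nat_lit 4) (nat_lit 5) (nat_lit 7) (nat_lit 6) (nat_lit 244) (nat_lit 191) r8_244 r0_191 (nat_lit 20123998) (nat_lit 0) (nat_lit 0) (nat_lit 0x7c1a22dec) (nat_lit 620862110),
  Rx.mk (nat_lit 493) (nat_lit 5) (nat_lit 5) (nat_lit 7) (nat_lit 7) (nat_lit 245) (nat_lit 192) r8_245 r0_192 (nat_lit 0) (nat_lit 0) (nat_lit 0) (nat_lit 0x8005f486c) (nat_lit 537949312),
  Rx.mk (nat_lit 494) (nat_lit 6) (nat_lit 5) (nat_lit 7) (nat_lit 7) (nat_lit 246) (nat_lit 194) r8_246 r0_194 (nat_lit 0) (nat_lit 0) (nat_lit 0) (nat_lit 0x8017985b4) (nat_lit 536870912),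
  Rx.mk (nat_lit 495) (nat_lit 7) (nat_lit 5) (nat_lit 7) (nat_lit 7) (nat_lit 247) (nat_lit 193) r8_247 r0_193 (nat_lit 0) (nat_lit 0) (nat_lit 0) (nat_lit 0x8017985b4) (nat_lit 536870912)]
noncomputable def e47_23 : List Rx := [
  Rx.mk (nat_lit 292) (nat_lit 4) (nat_lit 4) (nat_lit 4) (nat_lit 0) (nat_lit 283) (nat_lit 201) r8_283 r1_201 (nat_lit 20700425) (nat_lit 11826643) (nat_lit 34852659) (nat_lit 0x3dc59600a) (nat_lit 1675850589),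
  Rx.mk (nat_lit 294) (nat_lit 6) (nat_lit 4) (nat_lit 4) (nat_lit 1) (nat_lit 284) (nat_lit 204) r8_284 r1_204 (nat_lit 0) (nat_lit 26799246) (nat_lit 57475971) (nat_lit 0x672d75b5c) (nat_lit 1023262029),
  Rx.mk (nat_lit 300) (nat_lit 4) (nat_lit 5) (nat_lit 4) (nat_lit 2) (nat_lit 289) (nat_lit 202) r8_289 r1_202 (nat_lit 32376877) (nat_lit 0) (nat_lit 29801349) (nat_lit 0x669a3f496) (nat_lit 1010443188),
  Rx.mk (nat_lit 301) (nat_lit 5) (nat_lit 5) (nat_lit 4) (nat_lit 3) (nat_lit 290) (nat_lit 203) r8_290 r1_203 (nat_lit 0) (nat_lit 0) (nat_lit 25018304) (nat_lit 0x7fdcdbf2a) (nat_lit 565476766),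
  Rx.mk (nat_lit 302) (nat_lit 6) (nat_lit 5) (nat_lit 4) (nat_lit 3) (nat_lit 291) (nat_lit 205) r8_291 r1_205 (nat_lit 0) (nat_lit 0) (nat_lit 25047671) (nat_lit 0x804337652) (nat_lit 559218933),
  Rx.mk (nat_lit 422) (nat_lit 6) (nat_lit 4) (nat_lit 6) (nat_lit 5) (nat_lit 285) (nat_lit 214) r8_285 r1_214 (nat_lit 0) (nat_lit 25082552) (nat_lit 0) (nat_lit 0x71434a6d0) (nat_lit 800991214),
  Rx.mk (nat_lit 430) (nat_lit 6) (nat_lit 5) (nat_lit 6) (nat_lit 7) (nat_lit 292) (nat_lit 215) r8_292 r1_215 (nat_lit 0) (nat_lit 0) (nat_lit 0) (nat_lit 0x808e1a7dc) (nat_lit 529571662),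
  Rx.mk (nat_lit 438) (nat_lit 6) (nat_lit 6) (nat_lit 6) (nat_lit 7) (nat_lit 297) (nat_lit 216) r8_297 r1_216 (nat_lit 0) (nat_lit 0) (nat_lit 0) (nat_lit 0x7ed9578a0) (nat_lit 556568262),
  Rx.mk (nat_lit 484) (nat_lit 4) (nat_lit 4) (nat_lit 7) (nat_lit 4) (nat_lit 286) (nat_lit 206) r8_286 r1_206 (nat_lit 33972801) (nat_lit 31654428) (nat_lit 0) (nat_lit 0x6c187865a) (nat_lit 925088641),
  Rx.mk (nat_lit 486) (nat_lit 6) (nat_lit 4) (nat_lit 7) (nat_lit 5) (nat_lit 287) (nat_lit 212) r8_287 r1_212 (nat_lit 0) (nat_lit 24741287) (nat_lit 0) (nat_lit 0x8017985b4) (nat_lit 561612199),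
  Rx.mk (nat_lit 487) (nat_lit 7) (nat_lit 4) (nat_lit 7) (nat_lit 5) (nat_lit 288) (nat_lit 209) r8_288 r1_209 (nat_lit 0) (nat_lit 24741287) (nat_lit 0) (nat_lit 0x8017985b4) (nat_lit 561612199),
  Rx.mk (nat_lit 492) (nat_lit 4) (nat_lit 5) (nat_lit 7) (nat_lit 6) (nat_lit 293) (nat_lit 207) r8_293 r1_207 (nat_lit 25834482) (nat_lit 0) (nat_lit 0) (nat_lit 0x7f77d0d42) (nat_lit 572534144),
  Rx.mk (nat_lit 493) (nat_lit 5) (nat_lit 5) (nat_lit 7) (nat_lit 7) (nat_lit 294) (nat_lit 208) r8_294 r1_208 (nat_lit 0) (nat_lit 0) (nat_lit 0) (nat_lit 0x8017985b4) (nat_lit 536870912),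
  Rx.mk (nat_lit 494) (nat_lit 6) (nat_lit 5) (nat_lit 7) (nat_lit 7) (nat_lit 295) (nat_lit 213) r8_295 r1_213 (nat_lit 0) (nat_lit 0) (nat_lit 0) (nat_lit 0x8017985b4) (nat_lit 536870912),
  Rx.mk (nat_lit 495) (nat_lit 7) (nat_lit 5) (nat_lit 7) (nat_lit 7) (nat_lit 296) (nat_lit 210) r8_296 r1_210 (nat_lit 0) (nat_lit 0) (nat_lit 0) (nat_lit 0x8017985b4) (nat_lit 536870912),
  Rx.mk (nat_lit 511) (nat_lit 7) (nat_lit 7) (nat_lit 7) (nat_lit 7) (nat_lit 298) (nat_lit 211) r8_298 r1_211 (nat_lit 0) (nat_lit 0) (nat_lit 0) (nat_lit 0x8017985b4) (nat_lit 536870912)]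
noncomputable def e47_24 : List Rx := [
  Rx.mk (nat_lit 492) (nat_lit 4) (nat_lit 5) (nat_lit 7) (nat_lit 6) (nat_lit 351) (nat_lit 177) r8_351 r4_177 (nat_lit 24741287) (nat_lit 0) (nat_lit 0) (nat_lit 0x8017985b4) (nat_lit 561612199),
  Rx.mk (nat_lit 493) (nat_lit 5) (nat_lit 5) (nat_lit 7) (nat_lit 7) (nat_lit 352) (nat_lit 178) r8_352 r4_178 (nat_lit 0) (nat_lit 0) (nat_lit 0) (nat_lit 0x8017985b4) (nat_lit 536870912),
  Rx.mk (nat_lit 494) (nat_lit 6) (nat_lit 5) (nat_lit 7) (nat_lit 7) (nat_lit 353) (nat_lit 180) r8_353 r4_180 (nat_lit 0) (nat_lit 0) (nat_lit 0) (nat_lit 0x8017985b4) (nat_lit 536870912),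
  Rx.mk (nat_lit 495) (nat_lit 7) (nat_lit 5) (nat_lit 7) (nat_lit 7) (nat_lit 354) (nat_lit 179) r8_354 r4_179 (nat_lit 0) (nat_lit 0) (nat_lit 0) (nat_lit 0x8017985b4) (nat_lit 536870912)]
noncomputable def e47_25 : List Rx := [
  Rx.mk (nat_lit 300) (nat_lit 4) (nat_lit 5) (nat_lit 4) (nat_lit 2) (nat_lit 248) (nat_lit 388) r8_248 r7_388 (nat_lit 69413824) (nat_lit 0) (nat_lit 54887331) (nat_lit 0x65c8453d2) (nat_lit 1085844417),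
  Rx.mk (nat_lit 301) (nat_lit 5) (nat_lit 5) (nat_lit 4) (nat_lit 3) (nat_lit 249) (nat_lit 391) r8_249 r7_391 (nat_lit 0) (nat_lit 0) (nat_lit 25009292) (nat_lit 0x8011540e0) (nat_lit 562263654),
  Rx.mk (nat_lit 302) (nat_lit 6) (nat_lit 5) (nat_lit 4) (nat_lit 3) (nat_lit 250) (nat_lit 395) r8_250 r7_395 (nat_lit 0) (nat_lit 0) (nat_lit 24741287) (nat_lit 0x8017985b4) (nat_lit 561612199),
  Rx.mk (nat_lit 364) (nat_lit 4) (nat_lit 5) (nat_lit 5) (nat_lit 6) (nat_lit 251) (nat_lit 389) r8_251 r7_389 (nat_lit 25521481) (nat_lit 0) (nat_lit 0) (nat_lit 0x8004c69ea) (nat_lit 563543143),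
  Rx.mk (nat_lit 365) (nat_lit 5) (nat_lit 5) (nat_lit 5) (nat_lit 7) (nat_lit 252) (nat_lit 392) r8_252 r7_392 (nat_lit 0) (nat_lit 0) (nat_lit 0) (nat_lit 0x8017985b4) (nat_lit 536870912),
  Rx.mk (nat_lit 366) (nat_lit 6) (nat_lit 5) (nat_lit 5) (nat_lit 7) (nat_lit 253) (nat_lit 396) r8_253 r7_396 (nat_lit 0) (nat_lit 0) (nat_lit 0) (nat_lit 0x8017985b4) (nat_lit 536870912),
  Rx.mk (nat_lit 492) (nat_lit 4) (nat_lit 5) (nat_lit 7) (nat_lit 6) (nat_lit 254) (nat_lit 390) r8_254 r7_390 (nat_lit 24625619) (nat_lit 0) (nat_lit 0) (nat_lit 0x800a04d3a) (nat_lit 562328731),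
  Rx.mk (nat_lit 493) (nat_lit 5) (nat_lit 5) (nat_lit 7) (nat_lit 7) (nat_lit 255) (nat_lit 393) r8_255 r7_393 (nat_lit 0) (nat_lit 0) (nat_lit 0) (nat_lit 0x8017985b4) (nat_lit 536870912),
  Rx.mk (nat_lit 495) (nat_lit 7) (nat_lit 5) (nat_lit 7) (nat_lit 7) (nat_lit 256) (nat_lit 394) r8_256 r7_394 (nat_lit 0) (nat_lit 0) (nat_lit 0) (nat_lit 0x8017985b4) (nat_lit 536870912)]
noncomputable def e47_26 : List Rx := [
  Rx.mk (nat_lit 292) (nat_lit 4) (nat_lit 4) (nat_lit 4) (nat_lit 0) (nat_lit 299) (nat_lit 299) r8_299 r8_299 (nat_lit 49404879) (nat_lit 24537386) (nat_lit 49404879) (nat_lit 0x3fed72ca2) (nat_lit 1697003556),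
  Rx.mk (nat_lit 294) (nat_lit 6) (nat_lit 4) (nat_lit 4) (nat_lit 1) (nat_lit 300) (nat_lit 302) r8_300 r8_302 (nat_lit 0) (nat_lit 44632481) (nat_lit 39717842) (nat_lit 0x6cbc2f938) (nat_lit 933479835),
  Rx.mk (nat_lit 300) (nat_lit 4) (nat_lit 5) (nat_lit 4) (nat_lit 2) (nat_lit 304) (nat_lit 304) r8_304 r8_304 (nat_lit 73831755) (nat_lit 0) (nat_lit 73831755) (nat_lit 0x6cd203c6e) (nat_lit 995409072),
  Rx.mk (nat_lit 301) (nat_lit 5) (nat_lit 5) (nat_lit 4) (nat_lit 3) (nat_lit 305) (nat_lit 307) r8_305 r8_307 (nat_lit 0) (nat_lit 0) (nat_lit 23858381) (nat_lit 0x7fdfd7f80) (nat_lit 564143543),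
  Rx.mk (nat_lit 302) (nat_lit 6) (nat_lit 5) (nat_lit 4) (nat_lit 3) (nat_lit 306) (nat_lit 311) r8_306 r8_311 (nat_lit 0) (nat_lit 0) (nat_lit 24741287) (nat_lit 0x8017985b4) (nat_lit 561612199),
  Rx.mk (nat_lit 364) (nat_lit 4) (nat_lit 5) (nat_lit 5) (nat_lit 6) (nat_lit 307) (nat_lit 305) r8_307 r8_305 (nat_lit 23858381) (nat_lit 0) (nat_lit 0) (nat_lit 0x7fdfd7f80) (nat_lit 564143543),
  Rx.mk (nat_lit 365) (nat_lit 5) (nat_lit 5) (nat_lit 5) (nat_lit 7) (nat_lit 308) (nat_lit 308) r8_308 r8_308 (nat_lit 0) (nat_lit 0) (nat_lit 0) (nat_lit 0x8017985b4) (nat_lit 536870912),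
  Rx.mk (nat_lit 366) (nat_lit 6) (nat_lit 5) (nat_lit 5) (nat_lit 7) (nat_lit 309) (nat_lit 312) r8_309 r8_312 (nat_lit 0) (nat_lit 0) (nat_lit 0) (nat_lit 0x8017985b4) (nat_lit 536870912),
  Rx.mk (nat_lit 422) (nat_lit 6) (nat_lit 4) (nat_lit 6) (nat_lit 5) (nat_lit 301) (nat_lit 303) r8_301 r8_303 (nat_lit 0) (nat_lit 24741287) (nat_lit 0) (nat_lit 0x8017985b4) (nat_lit 561612199),
  Rx.mk (nat_lit 430) (nat_lit 6) (nat_lit 5) (nat_lit 6) (nat_lit 7) (nat_lit 310) (nat_lit 313) r8_310 r8_313 (nat_lit 0) (nat_lit 0) (nat_lit 0) (nat_lit 0x8017985b4) (nat_lit 536870912),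
  Rx.mk (nat_lit 438) (nat_lit 6) (nat_lit 6) (nat_lit 6) (nat_lit 7) (nat_lit 314) (nat_lit 315) r8_314 r8_315 (nat_lit 0) (nat_lit 0) (nat_lit 0) (nat_lit 0x8017985b4) (nat_lit 536870912),
  Rx.mk (nat_lit 484) (nat_lit 4) (nat_lit 4) (nat_lit 7) (nat_lit 4) (nat_lit 302) (nat_lit 300) r8_302 r8_300 (nat_lit 39717842) (nat_lit 44632481) (nat_lit 0) (nat_lit 0x6cbc2f938) (nat_lit 933479835),
  Rx.mk (nat_lit 487) (nat_lit 7) (nat_lit 4) (nat_lit 7) (nat_lit 5) (nat_lit 303) (nat_lit 301) r8_303 r8_301 (nat_lit 0) (nat_lit 24741287) (nat_lit 0) (nat_lit 0x8017985b4) (nat_lit 561612199),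
  Rx.mk (nat_lit 492) (nat_lit 4) (nat_lit 5) (nat_lit 7) (nat_lit 6) (nat_lit 311) (nat_lit 306) r8_311 r8_306 (nat_lit 24741287) (nat_lit 0) (nat_lit 0) (nat_lit 0x8017985b4) (nat_lit 561612199),
  Rx.mk (nat_lit 493) (nat_lit 5) (nat_lit 5) (nat_lit 7) (nat_lit 7) (nat_lit 312) (nat_lit 309) r8_312 r8_309 (nat_lit 0) (nat_lit 0) (nat_lit 0) (nat_lit 0x8017985b4) (nat_lit 536870912),
  Rx.mk (nat_lit 495) (nat_lit 7) (nat_lit 5) (nat_lit 7) (nat_lit 7) (nat_lit 313) (nat_lit 310) r8_313 r8_310 (nat_lit 0) (nat_lit 0) (nat_lit 0) (nat_lit 0x8017985b4) (nat_lit 536870912),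
  Rx.mk (nat_lit 511) (nat_lit 7) (nat_lit 7) (nat_lit 7) (nat_lit 7) (nat_lit 315) (nat_lit 314) r8_315 r8_314 (nat_lit 0) (nat_lit 0) (nat_lit 0) (nat_lit 0x8017985b4) (nat_lit 536870912)]
noncomputable def e47_27 : List Rx := [
  Rx.mk (nat_lit 364) (nat_lit 4) (nat_lit 5) (nat_lit 5) (nat_lit 6) (nat_lit 323) (nat_lit 191) r8_323 r8_191 (nat_lit 24741287) (nat_lit 0) (nat_lit 0) (nat_lit 0x8017985b4) (nat_lit 561612199),
  Rx.mk (nat_lit 365) (nat_lit 5) (nat_lit 5) (nat_lit 5) (nat_lit 7) (nat_lit 324) (nat_lit 192) r8_324 r8_192 (nat_lit 0) (nat_lit 0) (nat_lit 0) (nat_lit 0x8017985b4) (nat_lit 536870912),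
  Rx.mk (nat_lit 366) (nat_lit 6) (nat_lit 5) (nat_lit 5) (nat_lit 7) (nat_lit 325) (nat_lit 193) r8_325 r8_193 (nat_lit 0) (nat_lit 0) (nat_lit 0) (nat_lit 0x8017985b4) (nat_lit 536870912)]
noncomputable def e47_28 : List Rx := [
  Rx.mk (nat_lit 492) (nat_lit 4) (nat_lit 5) (nat_lit 7) (nat_lit 6) (nat_lit 355) (nat_lit 317) r8_355 r10_317 (nat_lit 24634759) (nat_lit 0) (nat_lit 0) (nat_lit 0x800b33de6) (nat_lit 562264771),
  Rx.mk (nat_lit 493) (nat_lit 5) (nat_lit 5) (nat_lit 7) (nat_lit 7) (nat_lit 356) (nat_lit 318) r8_356 r10_318 (nat_lit 0) (nat_lit 0) (nat_lit 0) (nat_lit 0x8017985b4) (nat_lit 536870912),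
  Rx.mk (nat_lit 495) (nat_lit 7) (nat_lit 5) (nat_lit 7) (nat_lit 7) (nat_lit 357) (nat_lit 319) r8_357 r10_319 (nat_lit 0) (nat_lit 0) (nat_lit 0) (nat_lit 0x8017985b4) (nat_lit 536870912)]
noncomputable def e47_29 : List Rx := [
  Rx.mk (nat_lit 492) (nat_lit 4) (nat_lit 5) (nat_lit 7) (nat_lit 6) (nat_lit 358) (nat_lit 335) r8_358 r11_335 (nat_lit 24741287) (nat_lit 0) (nat_lit 0) (nat_lit 0x8017985b4) (nat_lit 561612199),
  Rx.mk (nat_lit 493) (nat_lit 5) (nat_lit 5) (nat_lit 7) (nat_lit 7) (nat_lit 359) (nat_lit 336) r8_359 r11_336 (nat_lit 0) (nat_lit 0) (nat_lit 0) (nat_lit 0x8017985b4) (nat_lit 536870912),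
  Rx.mk (nat_lit 494) (nat_lit 6) (nat_lit 5) (nat_lit 7) (nat_lit 7) (nat_lit 360) (nat_lit 337) r8_360 r11_337 (nat_lit 0) (nat_lit 0) (nat_lit 0) (nat_lit 0x8017985b4) (nat_lit 536870912)]
noncomputable def e47_30 : List Rx := [
  Rx.mk (nat_lit 13) (nat_lit 5) (nat_lit 1) (nat_lit 0) (nat_lit 3) (nat_lit 74) (nat_lit 189) r8_74 r5_189 (nat_lit 0) (nat_lit 0) (nat_lit 17765140) (nat_lit 0x7ff74602c) (nat_lit 556578502),
  Rx.mk (nat_lit 205) (nat_lit 5) (nat_lit 1) (nat_lit 3) (nat_lit 7) (nat_lit 75) (nat_lit 190) r8_75 r5_190 (nat_lit 0) (nat_lit 0) (nat_lit 0) (nat_lit 0x80b32653a) (nat_lit 527341762)]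
noncomputable def e47_31 : List Rx := [
  Rx.mk (nat_lit 13) (nat_lit 5) (nat_lit 1) (nat_lit 0) (nat_lit 3) (nat_lit 198) (nat_lit 219) r8_198 r11_219 (nat_lit 0) (nat_lit 0) (nat_lit 24741287) (nat_lit 0x8017985b4) (nat_lit 561612199),
  Rx.mk (nat_lit 77) (nat_lit 5) (nat_lit 1) (nat_lit 1) (nat_lit 7) (nat_lit 199) (nat_lit 220) r8_199 r11_220 (nat_lit 0) (nat_lit 0) (nat_lit 0) (nat_lit 0x8017985b4) (nat_lit 536870912),
  Rx.mk (nat_lit 205) (nat_lit 5) (nat_lit 1) (nat_lit 3) (nat_lit 7) (nat_lit 200) (nat_lit 221) r8_200 r11_221 (nat_lit 0) (nat_lit 0) (nat_lit 0) (nat_lit 0x8017985b4) (nat_lit 536870912)]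
noncomputable def e47_32 : List Rx := [
  Rx.mk (nat_lit 207) (nat_lit 7) (nat_lit 1) (nat_lit 3) (nat_lit 7) (nat_lit 224) (nat_lit 125) r8_224 r6_125 (nat_lit 0) (nat_lit 0) (nat_lit 0) (nat_lit 0x805730f46) (nat_lit 532963862),
  Rx.mk (nat_lit 460) (nat_lit 4) (nat_lit 1) (nat_lit 7) (nat_lit 6) (nat_lit 221) (nat_lit 122) r8_221 r6_122 (nat_lit 24741287) (nat_lit 0) (nat_lit 0) (nat_lit 0x8017985b4) (nat_lit 561612199),
  Rx.mk (nat_lit 461) (nat_lit 5) (nat_lit 1) (nat_lit 7) (nat_lit 7) (nat_lit 222) (nat_lit 123) r8_222 r6_123 (nat_lit 0) (nat_lit 0) (nat_lit 0) (nat_lit 0x8017985b4) (nat_lit 536870912),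
  Rx.mk (nat_lit 463) (nat_lit 7) (nat_lit 1) (nat_lit 7) (nat_lit 7) (nat_lit 223) (nat_lit 124) r8_223 r6_124 (nat_lit 0) (nat_lit 0) (nat_lit 0) (nat_lit 0x8017985b4) (nat_lit 536870912)]
noncomputable def e47_33 : List Rx := [
  Rx.mk (nat_lit 268) (nat_lit 4) (nat_lit 1) (nat_lit 4) (nat_lit 2) (nat_lit 362) (nat_lit 191) r8_362 r5_191 (nat_lit 13579307) (nat_lit 0) (nat_lit 40282511) (nat_lit 0x676dbd25a) (nat_lit 988710430),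
  Rx.mk (nat_lit 269) (nat_lit 5) (nat_lit 1) (nat_lit 4) (nat_lit 3) (nat_lit 363) (nat_lit 192) r8_363 r5_192 (nat_lit 0) (nat_lit 0) (nat_lit 24741287) (nat_lit 0x7fc98e4ea) (nat_lit 566401349),
  Rx.mk (nat_lit 460) (nat_lit 4) (nat_lit 1) (nat_lit 7) (nat_lit 6) (nat_lit 364) (nat_lit 193) r8_364 r5_193 (nat_lit 26008793) (nat_lit 0) (nat_lit 0) (nat_lit 0x78bef927a) (nat_lit 680926905),
  Rx.mk (nat_lit 461) (nat_lit 5) (nat_lit 1) (nat_lit 7) (nat_lit 7) (nat_lit 365) (nat_lit 194) r8_365 r5_194 (nat_lit 0) (nat_lit 0) (nat_lit 0) (nat_lit 0x8017985b4) (nat_lit 536870912),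
  Rx.mk (nat_lit 463) (nat_lit 7) (nat_lit 1) (nat_lit 7) (nat_lit 7) (nat_lit 366) (nat_lit 195) r8_366 r5_195 (nat_lit 0) (nat_lit 0) (nat_lit 0) (nat_lit 0x7f79cc664) (nat_lit 546583312),
  Rx.mk (nat_lit 495) (nat_lit 7) (nat_lit 5) (nat_lit 7) (nat_lit 7) (nat_lit 361) (nat_lit 196) r8_361 r5_196 (nat_lit 0) (nat_lit 0) (nat_lit 0) (nat_lit 0x8017985b4) (nat_lit 536870912)]
noncomputable def e47_34 : List Rx := [
  Rx.mk (nat_lit 268) (nat_lit 4) (nat_lit 1) (nat_lit 4) (nat_lit 2) (nat_lit 368) (nat_lit 222) r8_368 r11_222 (nat_lit 49696383) (nat_lit 0) (nat_lit 93109333) (nat_lit 0x7a0dfb9e4) (nat_lit 776624328),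
  Rx.mk (nat_lit 269) (nat_lit 5) (nat_lit 1) (nat_lit 4) (nat_lit 3) (nat_lit 369) (nat_lit 223) r8_369 r11_223 (nat_lit 0) (nat_lit 0) (nat_lit 24741287) (nat_lit 0x8017985b4) (nat_lit 561612199),
  Rx.mk (nat_lit 332) (nat_lit 4) (nat_lit 1) (nat_lit 5) (nat_lit 6) (nat_lit 370) (nat_lit 224) r8_370 r11_224 (nat_lit 24741287) (nat_lit 0) (nat_lit 0) (nat_lit 0x8017985b4) (nat_lit 561612199),
  Rx.mk (nat_lit 333) (nat_lit 5) (nat_lit 1) (nat_lit 5) (nat_lit 7) (nat_lit 371) (nat_lit 225) r8_371 r11_225 (nat_lit 0) (nat_lit 0) (nat_lit 0) (nat_lit 0x8017985b4) (nat_lit 536870912),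
  Rx.mk (nat_lit 460) (nat_lit 4) (nat_lit 1) (nat_lit 7) (nat_lit 6) (nat_lit 372) (nat_lit 226) r8_372 r11_226 (nat_lit 24741287) (nat_lit 0) (nat_lit 0) (nat_lit 0x8017985b4) (nat_lit 561612199),
  Rx.mk (nat_lit 461) (nat_lit 5) (nat_lit 1) (nat_lit 7) (nat_lit 7) (nat_lit 373) (nat_lit 227) r8_373 r11_227 (nat_lit 0) (nat_lit 0) (nat_lit 0) (nat_lit 0x8017985b4) (nat_lit 536870912),
  Rx.mk (nat_lit 463) (nat_lit 7) (nat_lit 1) (nat_lit 7) (nat_lit 7) (nat_lit 374) (nat_lit 228) r8_374 r11_228 (nat_lit 0) (nat_lit 0) (nat_lit 0) (nat_lit 0x8017985b4) (nat_lit 536870912),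
  Rx.mk (nat_lit 495) (nat_lit 7) (nat_lit 5) (nat_lit 7) (nat_lit 7) (nat_lit 367) (nat_lit 229) r8_367 r11_229 (nat_lit 0) (nat_lit 0) (nat_lit 0) (nat_lit 0x8017985b4) (nat_lit 536870912)]
noncomputable def e47_35 : List Rx := [
  Rx.mk (nat_lit 204) (nat_lit 4) (nat_lit 1) (nat_lit 3) (nat_lit 6) (nat_lit 71) (nat_lit 119) r8_71 r6_119 (nat_lit 11276317) (nat_lit 0) (nat_lit 0) (nat_lit 0x80f41308e) (nat_lit 534645879),
  Rx.mk (nat_lit 205) (nat_lit 5) (nat_lit 1) (nat_lit 3) (nat_lit 7) (nat_lit 72) (nat_lit 120) r8_72 r6_120 (nat_lit 0) (nat_lit 0) (nat_lit 0) (nat_lit 0x8017985b4) (nat_lit 536870912),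
  Rx.mk (nat_lit 207) (nat_lit 7) (nat_lit 1) (nat_lit 3) (nat_lit 7) (nat_lit 73) (nat_lit 121) r8_73 r6_121 (nat_lit 0) (nat_lit 0) (nat_lit 0) (nat_lit 0x80607f5fc) (nat_lit 532392712)]
noncomputable def e47_36 : List Rx := [
  Rx.mk (nat_lit 204) (nat_lit 4) (nat_lit 1) (nat_lit 3) (nat_lit 6) (nat_lit 227) (nat_lit 371) r8_227 r12_371 (nat_lit 8954591) (nat_lit 0) (nat_lit 0) (nat_lit 0x8144dd5dc) (nat_lit 527420603),
  Rx.mk (nat_lit 205) (nat_lit 5) (nat_lit 1) (nat_lit 3) (nat_lit 7) (nat_lit 228) (nat_lit 373) r8_228 r12_373 (nat_lit 0) (nat_lit 0) (nat_lit 0) (nat_lit 0x8017985b4) (nat_lit 536870912),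
  Rx.mk (nat_lit 207) (nat_lit 7) (nat_lit 1) (nat_lit 3) (nat_lit 7) (nat_lit 229) (nat_lit 375) r8_229 r12_375 (nat_lit 0) (nat_lit 0) (nat_lit 0) (nat_lit 0x8017985b4) (nat_lit 536870912),
  Rx.mk (nat_lit 460) (nat_lit 4) (nat_lit 1) (nat_lit 7) (nat_lit 6) (nat_lit 225) (nat_lit 372) r8_225 r12_372 (nat_lit 25796827) (nat_lit 0) (nat_lit 0) (nat_lit 0x7fa80b20a) (nat_lit 569524589),
  Rx.mk (nat_lit 461) (nat_lit 5) (nat_lit 1) (nat_lit 7) (nat_lit 7) (nat_lit 226) (nat_lit 374) r8_226 r12_374 (nat_lit 0) (nat_lit 0) (nat_lit 0) (nat_lit 0x8017985b4) (nat_lit 536870912)]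
noncomputable def e47_37 : List Rx := [
  Rx.mk (nat_lit 223) (nat_lit 7) (nat_lit 3) (nat_lit 3) (nat_lit 7) (nat_lit 77) (nat_lit 140) r8_77 r0_140 (nat_lit 0) (nat_lit 0) (nat_lit 0) (nat_lit 0x8017985b4) (nat_lit 536870912),
  Rx.mk (nat_lit 479) (nat_lit 7) (nat_lit 3) (nat_lit 7) (nat_lit 7) (nat_lit 76) (nat_lit 139) r8_76 r0_139 (nat_lit 0) (nat_lit 0) (nat_lit 0) (nat_lit 0x8017985b4) (nat_lit 536870912)]
noncomputable def e47_38 : List Rx := [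
  Rx.mk (nat_lit 0) (nat_lit 0) (nat_lit 0) (nat_lit 0) (nat_lit 0) (nat_lit 0) (nat_lit 124) r8_0 r0_124 (nat_lit 11031913) (nat_lit 7939868) (nat_lit 37018604) (nat_lit 0x2f3402ffc) (nat_lit 1899960047),
  Rx.mk (nat_lit 3) (nat_lit 3) (nat_lit 0) (nat_lit 0) (nat_lit 1) (nat_lit 1) (nat_lit 125) r8_1 r0_125 (nat_lit 0) (nat_lit 26421063) (nat_lit 43759254) (nat_lit 0x5ccc534e6) (nat_lit 1176984379),
  Rx.mk (nat_lit 8) (nat_lit 0) (nat_lit 1) (nat_lit 0) (nat_lit 2) (nat_lit 3) (nat_lit 127) r8_3 r0_127 (nat_lit 32206150) (nat_lit 0) (nat_lit 82416712) (nat_lit 0x66c0ffdc4) (nat_lit 1060452374),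
  Rx.mk (nat_lit 11) (nat_lit 3) (nat_lit 1) (nat_lit 0) (nat_lit 3) (nat_lit 4) (nat_lit 128) r8_4 r0_128 (nat_lit 0) (nat_lit 0) (nat_lit 28052384) (nat_lit 0x7ecc55e04) (nat_lit 585422396),
  Rx.mk (nat_lit 16) (nat_lit 0) (nat_lit 2) (nat_lit 0) (nat_lit 2) (nat_lit 6) (nat_lit 133) r8_6 r0_133 (nat_lit 35479035) (nat_lit 0) (nat_lit 54286075) (nat_lit 0x62e45b6c8) (nat_lit 1098022322),
  Rx.mk (nat_lit 19) (nat_lit 3) (nat_lit 2) (nat_lit 0) (nat_lit 3) (nat_lit 7) (nat_lit 134) r8_7 r0_134 (nat_lit 0) (nat_lit 0) (nat_lit 28597756) (nat_lit 0x7fab4f40c) (nat_lit 572118568),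
  Rx.mk (nat_lit 144) (nat_lit 0) (nat_lit 2) (nat_lit 2) (nat_lit 6) (nat_lit 8) (nat_lit 136) r8_8 r0_136 (nat_lit 31117367) (nat_lit 0) (nat_lit 0) (nat_lit 0x7e047cca2) (nat_lit 600994729),
  Rx.mk (nat_lit 146) (nat_lit 2) (nat_lit 2) (nat_lit 2) (nat_lit 7) (nat_lit 9) (nat_lit 138) r8_9 r0_138 (nat_lit 0) (nat_lit 0) (nat_lit 0) (nat_lit 0x8017985b4) (nat_lit 536870912),
  Rx.mk (nat_lit 147) (nat_lit 3) (nat_lit 2) (nat_lit 2) (nat_lit 7) (nat_lit 10) (nat_lit 137) r8_10 r0_137 (nat_lit 0) (nat_lit 0) (nat_lit 0) (nat_lit 0x8017985b4) (nat_lit 536870912),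
  Rx.mk (nat_lit 195) (nat_lit 3) (nat_lit 0) (nat_lit 3) (nat_lit 5) (nat_lit 2) (nat_lit 126) r8_2 r0_126 (nat_lit 0) (nat_lit 19040660) (nat_lit 0) (nat_lit 0x6f984888c) (nat_lit 821904322),
  Rx.mk (nat_lit 203) (nat_lit 3) (nat_lit 1) (nat_lit 3) (nat_lit 7) (nat_lit 5) (nat_lit 129) r8_5 r0_129 (nat_lit 0) (nat_lit 0) (nat_lit 0) (nat_lit 0x7feae9d88) (nat_lit 539601062),
  Rx.mk (nat_lit 211) (nat_lit 3) (nat_lit 2) (nat_lit 3) (nat_lit 7) (nat_lit 11) (nat_lit 135) r8_11 r0_135 (nat_lit 0) (nat_lit 0) (nat_lit 0) (nat_lit 0x7ffc6e694) (nat_lit 538526762),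
  Rx.mk (nat_lit 219) (nat_lit 3) (nat_lit 3) (nat_lit 3) (nat_lit 7) (nat_lit 14) (nat_lit 130) r8_14 r0_130 (nat_lit 0) (nat_lit 0) (nat_lit 0) (nat_lit 0x7fa4b61a4) (nat_lit 543932912),
  Rx.mk (nat_lit 223) (nat_lit 7) (nat_lit 3) (nat_lit 3) (nat_lit 7) (nat_lit 13) (nat_lit 131) r8_13 r0_131 (nat_lit 0) (nat_lit 0) (nat_lit 0) (nat_lit 0x8017985b4) (nat_lit 536870912),
  Rx.mk (nat_lit 479) (nat_lit 7) (nat_lit 3) (nat_lit 7) (nat_lit 7) (nat_lit 12) (nat_lit 132) r8_12 r0_132 (nat_lit 0) (nat_lit 0) (nat_lit 0) (nat_lit 0x8017985b4) (nat_lit 536870912)]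
noncomputable def e47_39 : List Rx := [
  Rx.mk (nat_lit 0) (nat_lit 0) (nat_lit 0) (nat_lit 0) (nat_lit 0) (nat_lit 78) (nat_lit 150) r8_78 r7_150 (nat_lit 8497828) (nat_lit 8960456) (nat_lit 26185611) (nat_lit 0x362c7667e) (nat_lit 1774947907),
  Rx.mk (nat_lit 3) (nat_lit 3) (nat_lit 0) (nat_lit 0) (nat_lit 1) (nat_lit 79) (nat_lit 153) r8_79 r7_153 (nat_lit 0) (nat_lit 24616168) (nat_lit 24651851) (nat_lit 0x5ff890ccc) (nat_lit 1104782931),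
  Rx.mk (nat_lit 16) (nat_lit 0) (nat_lit 2) (nat_lit 0) (nat_lit 2) (nat_lit 81) (nat_lit 151) r8_81 r7_151 (nat_lit 14186136) (nat_lit 0) (nat_lit 13633279) (nat_lit 0x6517ac3fe) (nat_lit 1000476627),
  Rx.mk (nat_lit 19) (nat_lit 3) (nat_lit 2) (nat_lit 0) (nat_lit 3) (nat_lit 82) (nat_lit 154) r8_82 r7_154 (nat_lit 0) (nat_lit 0) (nat_lit 24741287) (nat_lit 0x7fe8e8d90) (nat_lit 564464999),
  Rx.mk (nat_lit 144) (nat_lit 0) (nat_lit 2) (nat_lit 2) (nat_lit 6) (nat_lit 83) (nat_lit 152) r8_83 r7_152 (nat_lit 24741287) (nat_lit 0) (nat_lit 0) (nat_lit 0x7fe1901b0) (nat_lit 564922449),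
  Rx.mk (nat_lit 146) (nat_lit 2) (nat_lit 2) (nat_lit 2) (nat_lit 7) (nat_lit 84) (nat_lit 159) r8_84 r7_159 (nat_lit 0) (nat_lit 0) (nat_lit 0) (nat_lit 0x8017985b4) (nat_lit 536870912),
  Rx.mk (nat_lit 147) (nat_lit 3) (nat_lit 2) (nat_lit 2) (nat_lit 7) (nat_lit 85) (nat_lit 158) r8_85 r7_158 (nat_lit 0) (nat_lit 0) (nat_lit 0) (nat_lit 0x8017985b4) (nat_lit 536870912),
  Rx.mk (nat_lit 195) (nat_lit 3) (nat_lit 0) (nat_lit 3) (nat_lit 5) (nat_lit 80) (nat_lit 155) r8_80 r7_155 (nat_lit 0) (nat_lit 24741287) (nat_lit 0) (nat_lit 0x7ff6824a6) (nat_lit 563637099),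
  Rx.mk (nat_lit 211) (nat_lit 3) (nat_lit 2) (nat_lit 3) (nat_lit 7) (nat_lit 86) (nat_lit 157) r8_86 r7_157 (nat_lit 0) (nat_lit 0) (nat_lit 0) (nat_lit 0x8017985b4) (nat_lit 536870912),
  Rx.mk (nat_lit 219) (nat_lit 3) (nat_lit 3) (nat_lit 3) (nat_lit 7) (nat_lit 89) (nat_lit 156) r8_89 r7_156 (nat_lit 0) (nat_lit 0) (nat_lit 0) (nat_lit 0x8017985b4) (nat_lit 536870912),
  Rx.mk (nat_lit 223) (nat_lit 7) (nat_lit 3) (nat_lit 3) (nat_lit 7) (nat_lit 88) (nat_lit 149) r8_88 r7_149 (nat_lit 0) (nat_lit 0) (nat_lit 0) (nat_lit 0x8017985b4) (nat_lit 536870912),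
  Rx.mk (nat_lit 479) (nat_lit 7) (nat_lit 3) (nat_lit 7) (nat_lit 7) (nat_lit 87) (nat_lit 148) r8_87 r7_148 (nat_lit 0) (nat_lit 0) (nat_lit 0) (nat_lit 0x8017985b4) (nat_lit 536870912)]
noncomputable def e47_40 : List Rx := [
  Rx.mk (nat_lit 0) (nat_lit 0) (nat_lit 0) (nat_lit 0) (nat_lit 0) (nat_lit 25) (nat_lit 119) r8_25 r2_119 (nat_lit 5186153) (nat_lit 4963972) (nat_lit 12331261) (nat_lit 0x3d9490d48) (nat_lit 1633943848),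
  Rx.mk (nat_lit 1) (nat_lit 1) (nat_lit 0) (nat_lit 0) (nat_lit 1) (nat_lit 26) (nat_lit 120) r8_26 r2_120 (nat_lit 0) (nat_lit 34582474) (nat_lit 52104926) (nat_lit 0x6328cac00) (nat_lit 1090646762),
  Rx.mk (nat_lit 8) (nat_lit 0) (nat_lit 1) (nat_lit 0) (nat_lit 2) (nat_lit 30) (nat_lit 124) r8_30 r2_124 (nat_lit 57149300) (nat_lit 0) (nat_lit 36724435) (nat_lit 0x6701206b0) (nat_lit 1035651797),
  Rx.mk (nat_lit 9) (nat_lit 1) (nat_lit 1) (nat_lit 0) (nat_lit 3) (nat_lit 31) (nat_lit 125) r8_31 r2_125 (nat_lit 0) (nat_lit 0) (nat_lit 25055876) (nat_lit 0x7fce11080) (nat_lit 566426188),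
  Rx.mk (nat_lit 16) (nat_lit 0) (nat_lit 2) (nat_lit 0) (nat_lit 2) (nat_lit 35) (nat_lit 130) r8_35 r2_130 (nat_lit 26542101) (nat_lit 0) (nat_lit 20092839) (nat_lit 0x6a8be4910) (nat_lit 931123202),
  Rx.mk (nat_lit 17) (nat_lit 1) (nat_lit 2) (nat_lit 0) (nat_lit 3) (nat_lit 36) (nat_lit 131) r8_36 r2_131 (nat_lit 0) (nat_lit 0) (nat_lit 25669145) (nat_lit 0x80014139c) (nat_lit 563906157),
  Rx.mk (nat_lit 144) (nat_lit 0) (nat_lit 2) (nat_lit 2) (nat_lit 6) (nat_lit 37) (nat_lit 134) r8_37 r2_134 (nat_lit 24741287) (nat_lit 0) (nat_lit 0) (nat_lit 0x8017985b4) (nat_lit 561612199),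
  Rx.mk (nat_lit 145) (nat_lit 1) (nat_lit 2) (nat_lit 2) (nat_lit 7) (nat_lit 38) (nat_lit 135) r8_38 r2_135 (nat_lit 0) (nat_lit 0) (nat_lit 0) (nat_lit 0x8017985b4) (nat_lit 536870912),
  Rx.mk (nat_lit 146) (nat_lit 2) (nat_lit 2) (nat_lit 2) (nat_lit 7) (nat_lit 39) (nat_lit 136) r8_39 r2_136 (nat_lit 0) (nat_lit 0) (nat_lit 0) (nat_lit 0x8017985b4) (nat_lit 536870912),
  Rx.mk (nat_lit 192) (nat_lit 0) (nat_lit 0) (nat_lit 3) (nat_lit 4) (nat_lit 27) (nat_lit 121) r8_27 r2_121 (nat_lit 24833065) (nat_lit 21402582) (nat_lit 0) (nat_lit 0x6b091ef98) (nat_lit 922817759),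
  Rx.mk (nat_lit 193) (nat_lit 1) (nat_lit 0) (nat_lit 3) (nat_lit 5) (nat_lit 28) (nat_lit 122) r8_28 r2_122 (nat_lit 0) (nat_lit 24741287) (nat_lit 0) (nat_lit 0x8017985b4) (nat_lit 561612199),
  Rx.mk (nat_lit 195) (nat_lit 3) (nat_lit 0) (nat_lit 3) (nat_lit 5) (nat_lit 29) (nat_lit 123) r8_29 r2_123 (nat_lit 0) (nat_lit 24741287) (nat_lit 0) (nat_lit 0x7fd79296a) (nat_lit 565539099),
  Rx.mk (nat_lit 200) (nat_lit 0) (nat_lit 1) (nat_lit 3) (nat_lit 6) (nat_lit 32) (nat_lit 126) r8_32 r2_126 (nat_lit 24741287) (nat_lit 0) (nat_lit 0) (nat_lit 0x8017985b4) (nat_lit 561612199),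
  Rx.mk (nat_lit 201) (nat_lit 1) (nat_lit 1) (nat_lit 3) (nat_lit 7) (nat_lit 33) (nat_lit 127) r8_33 r2_127 (nat_lit 0) (nat_lit 0) (nat_lit 0) (nat_lit 0x8017985b4) (nat_lit 536870912),
  Rx.mk (nat_lit 203) (nat_lit 3) (nat_lit 1) (nat_lit 3) (nat_lit 7) (nat_lit 34) (nat_lit 128) r8_34 r2_128 (nat_lit 0) (nat_lit 0) (nat_lit 0) (nat_lit 0x8017985b4) (nat_lit 536870912),
  Rx.mk (nat_lit 208) (nat_lit 0) (nat_lit 2) (nat_lit 3) (nat_lit 6) (nat_lit 40) (nat_lit 132) r8_40 r2_132 (nat_lit 24741287) (nat_lit 0) (nat_lit 0) (nat_lit 0x7ff611878) (nat_lit 563663549),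
  Rx.mk (nat_lit 209) (nat_lit 1) (nat_lit 2) (nat_lit 3) (nat_lit 7) (nat_lit 41) (nat_lit 133) r8_41 r2_133 (nat_lit 0) (nat_lit 0) (nat_lit 0) (nat_lit 0x8017985b4) (nat_lit 536870912),
  Rx.mk (nat_lit 219) (nat_lit 3) (nat_lit 3) (nat_lit 3) (nat_lit 7) (nat_lit 42) (nat_lit 129) r8_42 r2_129 (nat_lit 0) (nat_lit 0) (nat_lit 0) (nat_lit 0x8017985b4) (nat_lit 536870912)]
noncomputable def e47_41 : List Rx := [
  Rx.mk (nat_lit 0) (nat_lit 0) (nat_lit 0) (nat_lit 0) (nat_lit 0) (nat_lit 133) (nat_lit 86) r8_133 r9_86 (nat_lit 18637644) (nat_lit 17870946) (nat_lit 94967087) (nat_lit 0x4127ec576) (nat_lit 1685261939),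
  Rx.mk (nat_lit 1) (nat_lit 1) (nat_lit 0) (nat_lit 0) (nat_lit 1) (nat_lit 134) (nat_lit 87) r8_134 r9_87 (nat_lit 0) (nat_lit 26394436) (nat_lit 82173125) (nat_lit 0x6a21a438e) (nat_lit 999789173),
  Rx.mk (nat_lit 16) (nat_lit 0) (nat_lit 2) (nat_lit 0) (nat_lit 2) (nat_lit 138) (nat_lit 92) r8_138 r9_92 (nat_lit 35165148) (nat_lit 0) (nat_lit 23390390) (nat_lit 0x65db9d3f8) (nat_lit 1018879500),
  Rx.mk (nat_lit 17) (nat_lit 1) (nat_lit 2) (nat_lit 0) (nat_lit 3) (nat_lit 139) (nat_lit 93) r8_139 r9_93 (nat_lit 0) (nat_lit 0) (nat_lit 24741287) (nat_lit 0x8017985b4) (nat_lit 561612199),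
  Rx.mk (nat_lit 144) (nat_lit 0) (nat_lit 2) (nat_lit 2) (nat_lit 6) (nat_lit 140) (nat_lit 96) r8_140 r9_96 (nat_lit 24741287) (nat_lit 0) (nat_lit 0) (nat_lit 0x8017985b4) (nat_lit 561612199),
  Rx.mk (nat_lit 145) (nat_lit 1) (nat_lit 2) (nat_lit 2) (nat_lit 7) (nat_lit 141) (nat_lit 97) r8_141 r9_97 (nat_lit 0) (nat_lit 0) (nat_lit 0) (nat_lit 0x8017985b4) (nat_lit 536870912),
  Rx.mk (nat_lit 146) (nat_lit 2) (nat_lit 2) (nat_lit 2) (nat_lit 7) (nat_lit 142) (nat_lit 98) r8_142 r9_98 (nat_lit 0) (nat_lit 0) (nat_lit 0) (nat_lit 0x8017985b4) (nat_lit 536870912),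
  Rx.mk (nat_lit 192) (nat_lit 0) (nat_lit 0) (nat_lit 3) (nat_lit 4) (nat_lit 135) (nat_lit 88) r8_135 r9_88 (nat_lit 29365924) (nat_lit 24700278) (nat_lit 0) (nat_lit 0x6a57b692c) (nat_lit 941876114),
  Rx.mk (nat_lit 193) (nat_lit 1) (nat_lit 0) (nat_lit 3) (nat_lit 5) (nat_lit 136) (nat_lit 89) r8_136 r9_89 (nat_lit 0) (nat_lit 24741287) (nat_lit 0) (nat_lit 0x8017985b4) (nat_lit 561612199),
  Rx.mk (nat_lit 195) (nat_lit 3) (nat_lit 0) (nat_lit 3) (nat_lit 5) (nat_lit 137) (nat_lit 90) r8_137 r9_90 (nat_lit 0) (nat_lit 24741287) (nat_lit 0) (nat_lit 0x7fffb92e0) (nat_lit 563069249),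
  Rx.mk (nat_lit 208) (nat_lit 0) (nat_lit 2) (nat_lit 3) (nat_lit 6) (nat_lit 143) (nat_lit 94) r8_143 r9_94 (nat_lit 24489661) (nat_lit 0) (nat_lit 0) (nat_lit 0x7ffa8f6de) (nat_lit 563135273),
  Rx.mk (nat_lit 209) (nat_lit 1) (nat_lit 2) (nat_lit 3) (nat_lit 7) (nat_lit 144) (nat_lit 95) r8_144 r9_95 (nat_lit 0) (nat_lit 0) (nat_lit 0) (nat_lit 0x8017985b4) (nat_lit 536870912),
  Rx.mk (nat_lit 219) (nat_lit 3) (nat_lit 3) (nat_lit 3) (nat_lit 7) (nat_lit 145) (nat_lit 91) r8_145 r9_91 (nat_lit 0) (nat_lit 0) (nat_lit 0) (nat_lit 0x8017985b4) (nat_lit 536870912)]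
noncomputable def e47_42 : List Rx := [
  Rx.mk (nat_lit 0) (nat_lit 0) (nat_lit 0) (nat_lit 0) (nat_lit 0) (nat_lit 159) (nat_lit 183) r8_159 r9_183 (nat_lit 18255310) (nat_lit 27871597) (nat_lit 23644808) (nat_lit 0x407f928e4) (nat_lit 1634185527),
  Rx.mk (nat_lit 1) (nat_lit 1) (nat_lit 0) (nat_lit 0) (nat_lit 1) (nat_lit 160) (nat_lit 184) r8_160 r9_184 (nat_lit 0) (nat_lit 34699300) (nat_lit 50716108) (nat_lit 0x6b512c18c) (nat_lit 957466070),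
  Rx.mk (nat_lit 8) (nat_lit 0) (nat_lit 1) (nat_lit 0) (nat_lit 2) (nat_lit 165) (nat_lit 185) r8_165 r9_185 (nat_lit 130895702) (nat_lit 0) (nat_lit 40805453) (nat_lit 0x7010e2518) (nat_lit 966967117),
  Rx.mk (nat_lit 9) (nat_lit 1) (nat_lit 1) (nat_lit 0) (nat_lit 3) (nat_lit 166) (nat_lit 186) r8_166 r9_186 (nat_lit 0) (nat_lit 0) (nat_lit 23667545) (nat_lit 0x7fe4ef41e) (nat_lit 563630257),
  Rx.mk (nat_lit 16) (nat_lit 0) (nat_lit 2) (nat_lit 0) (nat_lit 2) (nat_lit 171) (nat_lit 187) r8_171 r9_187 (nat_lit 55618136) (nat_lit 0) (nat_lit 30134438) (nat_lit 0x6f41c019a) (nat_lit 894101936),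
  Rx.mk (nat_lit 17) (nat_lit 1) (nat_lit 2) (nat_lit 0) (nat_lit 3) (nat_lit 172) (nat_lit 188) r8_172 r9_188 (nat_lit 0) (nat_lit 0) (nat_lit 24741287) (nat_lit 0x8017985b4) (nat_lit 561612199),
  Rx.mk (nat_lit 65) (nat_lit 1) (nat_lit 0) (nat_lit 1) (nat_lit 5) (nat_lit 161) (nat_lit 189) r8_161 r9_189 (nat_lit 0) (nat_lit 25054288) (nat_lit 0) (nat_lit 0x800856290) (nat_lit 562857500),
  Rx.mk (nat_lit 73) (nat_lit 1) (nat_lit 1) (nat_lit 1) (nat_lit 7) (nat_lit 167) (nat_lit 190) r8_167 r9_190 (nat_lit 0) (nat_lit 0) (nat_lit 0) (nat_lit 0x8017985b4) (nat_lit 536870912),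
  Rx.mk (nat_lit 81) (nat_lit 1) (nat_lit 2) (nat_lit 1) (nat_lit 7) (nat_lit 173) (nat_lit 191) r8_173 r9_191 (nat_lit 0) (nat_lit 0) (nat_lit 0) (nat_lit 0x8017985b4) (nat_lit 536870912),
  Rx.mk (nat_lit 144) (nat_lit 0) (nat_lit 2) (nat_lit 2) (nat_lit 6) (nat_lit 174) (nat_lit 199) r8_174 r9_199 (nat_lit 24741287) (nat_lit 0) (nat_lit 0) (nat_lit 0x8017985b4) (nat_lit 561612199),
  Rx.mk (nat_lit 145) (nat_lit 1) (nat_lit 2) (nat_lit 2) (nat_lit 7) (nat_lit 175) (nat_lit 200) r8_175 r9_200 (nat_lit 0) (nat_lit 0) (nat_lit 0) (nat_lit 0x8017985b4) (nat_lit 536870912),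
  Rx.mk (nat_lit 146) (nat_lit 2) (nat_lit 2) (nat_lit 2) (nat_lit 7) (nat_lit 176) (nat_lit 201) r8_176 r9_201 (nat_lit 0) (nat_lit 0) (nat_lit 0) (nat_lit 0x8017985b4) (nat_lit 536870912),
  Rx.mk (nat_lit 192) (nat_lit 0) (nat_lit 0) (nat_lit 3) (nat_lit 4) (nat_lit 162) (nat_lit 192) r8_162 r9_192 (nat_lit 40482942) (nat_lit 28133172) (nat_lit 0) (nat_lit 0x6d0747a06) (nat_lit 912998026),
  Rx.mk (nat_lit 193) (nat_lit 1) (nat_lit 0) (nat_lit 3) (nat_lit 5) (nat_lit 163) (nat_lit 193) r8_163 r9_193 (nat_lit 0) (nat_lit 24741287) (nat_lit 0) (nat_lit 0x8009d4ae0) (nat_lit 562452249),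
  Rx.mk (nat_lit 195) (nat_lit 3) (nat_lit 0) (nat_lit 3) (nat_lit 5) (nat_lit 164) (nat_lit 194) r8_164 r9_194 (nat_lit 0) (nat_lit 24741287) (nat_lit 0) (nat_lit 0x8017985b4) (nat_lit 561612199),
  Rx.mk (nat_lit 200) (nat_lit 0) (nat_lit 1) (nat_lit 3) (nat_lit 6) (nat_lit 168) (nat_lit 195) r8_168 r9_195 (nat_lit 24741287) (nat_lit 0) (nat_lit 0) (nat_lit 0x8017985b4) (nat_lit 561612199),
  Rx.mk (nat_lit 201) (nat_lit 1) (nat_lit 1) (nat_lit 3) (nat_lit 7) (nat_lit 169) (nat_lit 196) r8_169 r9_196 (nat_lit 0) (nat_lit 0) (nat_lit 0) (nat_lit 0x8017985b4) (nat_lit 536870912),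
  Rx.mk (nat_lit 203) (nat_lit 3) (nat_lit 1) (nat_lit 3) (nat_lit 7) (nat_lit 170) (nat_lit 197) r8_170 r9_197 (nat_lit 0) (nat_lit 0) (nat_lit 0) (nat_lit 0x8017985b4) (nat_lit 536870912),
  Rx.mk (nat_lit 219) (nat_lit 3) (nat_lit 3) (nat_lit 3) (nat_lit 7) (nat_lit 177) (nat_lit 198) r8_177 r9_198 (nat_lit 0) (nat_lit 0) (nat_lit 0) (nat_lit 0x8017985b4) (nat_lit 536870912)]
noncomputable def e47_43 : List Rx := [
  Rx.mk (nat_lit 0) (nat_lit 0) (nat_lit 0) (nat_lit 0) (nat_lit 0) (nat_lit 15) (nat_lit 131) r8_15 r1_131 (nat_lit 16366775) (nat_lit 12570282) (nat_lit 78140221) (nat_lit 0x42b179a90) (nat_lit 1635971940),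
  Rx.mk (nat_lit 3) (nat_lit 3) (nat_lit 0) (nat_lit 0) (nat_lit 1) (nat_lit 16) (nat_lit 132) r8_16 r1_132 (nat_lit 0) (nat_lit 40466188) (nat_lit 44995829) (nat_lit 0x6d2f8c872) (nat_lit 927296079),
  Rx.mk (nat_lit 8) (nat_lit 0) (nat_lit 1) (nat_lit 0) (nat_lit 2) (nat_lit 18) (nat_lit 134) r8_18 r1_134 (nat_lit 46134325) (nat_lit 0) (nat_lit 144484209) (nat_lit 0x72b2fdad0) (nat_lit 943309946),
  Rx.mk (nat_lit 11) (nat_lit 3) (nat_lit 1) (nat_lit 0) (nat_lit 3) (nat_lit 19) (nat_lit 135) r8_19 r1_135 (nat_lit 0) (nat_lit 0) (nat_lit 24741287) (nat_lit 0x8017985b4) (nat_lit 561612199),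
  Rx.mk (nat_lit 16) (nat_lit 0) (nat_lit 2) (nat_lit 0) (nat_lit 2) (nat_lit 21) (nat_lit 138) r8_21 r1_138 (nat_lit 31041958) (nat_lit 0) (nat_lit 36913539) (nat_lit 0x73f49b3ba) (nat_lit 800345659),
  Rx.mk (nat_lit 144) (nat_lit 0) (nat_lit 2) (nat_lit 2) (nat_lit 6) (nat_lit 22) (nat_lit 139) r8_22 r1_139 (nat_lit 19606239) (nat_lit 0) (nat_lit 0) (nat_lit 0x7f4c479c8) (nat_lit 568985001),
  Rx.mk (nat_lit 146) (nat_lit 2) (nat_lit 2) (nat_lit 2) (nat_lit 7) (nat_lit 23) (nat_lit 140) r8_23 r1_140 (nat_lit 0) (nat_lit 0) (nat_lit 0) (nat_lit 0x8017985b4) (nat_lit 536870912),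
  Rx.mk (nat_lit 195) (nat_lit 3) (nat_lit 0) (nat_lit 3) (nat_lit 5) (nat_lit 17) (nat_lit 133) r8_17 r1_133 (nat_lit 0) (nat_lit 25986002) (nat_lit 0) (nat_lit 0x7f21990dc) (nat_lit 578019064),
  Rx.mk (nat_lit 203) (nat_lit 3) (nat_lit 1) (nat_lit 3) (nat_lit 7) (nat_lit 20) (nat_lit 136) r8_20 r1_136 (nat_lit 0) (nat_lit 0) (nat_lit 0) (nat_lit 0x8017985b4) (nat_lit 536870912),
  Rx.mk (nat_lit 219) (nat_lit 3) (nat_lit 3) (nat_lit 3) (nat_lit 7) (nat_lit 24) (nat_lit 137) r8_24 r1_137 (nat_lit 0) (nat_lit 0) (nat_lit 0) (nat_lit 0x8017985b4) (nat_lit 536870912)]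
noncomputable def e47_44 : List Rx := [
  Rx.mk (nat_lit 0) (nat_lit 0) (nat_lit 0) (nat_lit 0) (nat_lit 0) (nat_lit 126) (nat_lit 126) r8_126 r8_126 (nat_lit 20497821) (nat_lit 20497821) (nat_lit 69167844) (nat_lit 0x3ff6c5f16) (nat_lit 1683229348),
  Rx.mk (nat_lit 3) (nat_lit 3) (nat_lit 0) (nat_lit 0) (nat_lit 1) (nat_lit 127) (nat_lit 129) r8_127 r8_129 (nat_lit 0) (nat_lit 25354659) (nat_lit 25761297) (nat_lit 0x65918fae0) (nat_lit 1016119168),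
  Rx.mk (nat_lit 16) (nat_lit 0) (nat_lit 2) (nat_lit 0) (nat_lit 2) (nat_lit 129) (nat_lit 127) r8_129 r8_127 (nat_lit 25354659) (nat_lit 0) (nat_lit 25761297) (nat_lit 0x65918fae0) (nat_lit 1016119168),
  Rx.mk (nat_lit 144) (nat_lit 0) (nat_lit 2) (nat_lit 2) (nat_lit 6) (nat_lit 130) (nat_lit 128) r8_130 r8_128 (nat_lit 24741287) (nat_lit 0) (nat_lit 0) (nat_lit 0x8009bb888) (nat_lit 562459499),
  Rx.mk (nat_lit 146) (nat_lit 2) (nat_lit 2) (nat_lit 2) (nat_lit 7) (nat_lit 131) (nat_lit 132) r8_131 r8_132 (nat_lit 0) (nat_lit 0) (nat_lit 0) (nat_lit 0x8017985b4) (nat_lit 536870912),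
  Rx.mk (nat_lit 195) (nat_lit 3) (nat_lit 0) (nat_lit 3) (nat_lit 5) (nat_lit 128) (nat_lit 130) r8_128 r8_130 (nat_lit 0) (nat_lit 24741287) (nat_lit 0) (nat_lit 0x8009bb888) (nat_lit 562459499),
  Rx.mk (nat_lit 219) (nat_lit 3) (nat_lit 3) (nat_lit 3) (nat_lit 7) (nat_lit 132) (nat_lit 131) r8_132 r8_131 (nat_lit 0) (nat_lit 0) (nat_lit 0) (nat_lit 0x8017985b4) (nat_lit 536870912)]
noncomputable def e47_45 : List Rx := [
  Rx.mk (nat_lit 223) (nat_lit 7) (nat_lit 3) (nat_lit 3) (nat_lit 7) (nat_lit 101) (nat_lit 146) r8_101 r1_146 (nat_lit 0) (nat_lit 0) (nat_lit 0) (nat_lit 0x8017985b4) (nat_lit 536870912),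
  Rx.mk (nat_lit 292) (nat_lit 4) (nat_lit 4) (nat_lit 4) (nat_lit 0) (nat_lit 90) (nat_lit 141) r8_90 r1_141 (nat_lit 23009154) (nat_lit 17944571) (nat_lit 116288395) (nat_lit 0x447d83aae) (nat_lit 1657106532),
  Rx.mk (nat_lit 294) (nat_lit 6) (nat_lit 4) (nat_lit 4) (nat_lit 1) (nat_lit 91) (nat_lit 147) r8_91 r1_147 (nat_lit 0) (nat_lit 24802758) (nat_lit 50885811) (nat_lit 0x6b9ee1742) (nat_lit 942829831),
  Rx.mk (nat_lit 316) (nat_lit 4) (nat_lit 7) (nat_lit 4) (nat_lit 2) (nat_lit 94) (nat_lit 142) r8_94 r1_142 (nat_lit 31282261) (nat_lit 0) (nat_lit 50887267) (nat_lit 0x6d657dd46) (nat_lit 920594840),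
  Rx.mk (nat_lit 318) (nat_lit 6) (nat_lit 7) (nat_lit 4) (nat_lit 3) (nat_lit 95) (nat_lit 148) r8_95 r1_148 (nat_lit 0) (nat_lit 0) (nat_lit 24741287) (nat_lit 0x8017985b4) (nat_lit 561612199),
  Rx.mk (nat_lit 422) (nat_lit 6) (nat_lit 4) (nat_lit 6) (nat_lit 5) (nat_lit 92) (nat_lit 150) r8_92 r1_150 (nat_lit 0) (nat_lit 24952196) (nat_lit 0) (nat_lit 0x7d5baea30) (nat_lit 605443508),
  Rx.mk (nat_lit 438) (nat_lit 6) (nat_lit 6) (nat_lit 6) (nat_lit 7) (nat_lit 93) (nat_lit 152) r8_93 r1_152 (nat_lit 0) (nat_lit 0) (nat_lit 0) (nat_lit 0x8017985b4) (nat_lit 536870912),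
  Rx.mk (nat_lit 446) (nat_lit 6) (nat_lit 7) (nat_lit 6) (nat_lit 7) (nat_lit 96) (nat_lit 151) r8_96 r1_151 (nat_lit 0) (nat_lit 0) (nat_lit 0) (nat_lit 0x8017985b4) (nat_lit 536870912),
  Rx.mk (nat_lit 479) (nat_lit 7) (nat_lit 3) (nat_lit 7) (nat_lit 7) (nat_lit 100) (nat_lit 145) r8_100 r1_145 (nat_lit 0) (nat_lit 0) (nat_lit 0) (nat_lit 0x8017985b4) (nat_lit 536870912),
  Rx.mk (nat_lit 508) (nat_lit 4) (nat_lit 7) (nat_lit 7) (nat_lit 6) (nat_lit 97) (nat_lit 143) r8_97 r1_143 (nat_lit 29620562) (nat_lit 0) (nat_lit 0) (nat_lit 0x7f673ed30) (nat_lit 577332974),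
  Rx.mk (nat_lit 510) (nat_lit 6) (nat_lit 7) (nat_lit 7) (nat_lit 7) (nat_lit 98) (nat_lit 149) r8_98 r1_149 (nat_lit 0) (nat_lit 0) (nat_lit 0) (nat_lit 0x8017985b4) (nat_lit 536870912),
  Rx.mk (nat_lit 511) (nat_lit 7) (nat_lit 7) (nat_lit 7) (nat_lit 7) (nat_lit 99) (nat_lit 144) r8_99 r1_144 (nat_lit 0) (nat_lit 0) (nat_lit 0) (nat_lit 0x8017985b4) (nat_lit 536870912)]
noncomputable def e47_46 : List Rx := [
  Rx.mk (nat_lit 292) (nat_lit 4) (nat_lit 4) (nat_lit 4) (nat_lit 0) (nat_lit 257) (nat_lit 137) r8_257 r2_137 (nat_lit 7956767) (nat_lit 8042902) (nat_lit 9703689) (nat_lit 0x3b91a0bee) (nat_lit 1669754570),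
  Rx.mk (nat_lit 294) (nat_lit 6) (nat_lit 4) (nat_lit 4) (nat_lit 1) (nat_lit 258) (nat_lit 141) r8_258 r2_141 (nat_lit 0) (nat_lit 26195638) (nat_lit 23096430) (nat_lit 0x64c1b892a) (nat_lit 1027421630),
  Rx.mk (nat_lit 422) (nat_lit 6) (nat_lit 4) (nat_lit 6) (nat_lit 5) (nat_lit 259) (nat_lit 144) r8_259 r2_144 (nat_lit 0) (nat_lit 24741287) (nat_lit 0) (nat_lit 0x8017985b4) (nat_lit 561612199),
  Rx.mk (nat_lit 438) (nat_lit 6) (nat_lit 6) (nat_lit 6) (nat_lit 7) (nat_lit 262) (nat_lit 145) r8_262 r2_145 (nat_lit 0) (nat_lit 0) (nat_lit 0) (nat_lit 0x8017985b4) (nat_lit 536870912),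
  Rx.mk (nat_lit 484) (nat_lit 4) (nat_lit 4) (nat_lit 7) (nat_lit 4) (nat_lit 260) (nat_lit 138) r8_260 r2_138 (nat_lit 23014465) (nat_lit 26855489) (nat_lit 0) (nat_lit 0x65ff1eed0) (nat_lit 1007952966),
  Rx.mk (nat_lit 486) (nat_lit 6) (nat_lit 4) (nat_lit 7) (nat_lit 5) (nat_lit 261) (nat_lit 142) r8_261 r2_142 (nat_lit 0) (nat_lit 25403330) (nat_lit 0) (nat_lit 0x7ff0757d4) (nat_lit 564659792),
  Rx.mk (nat_lit 508) (nat_lit 4) (nat_lit 7) (nat_lit 7) (nat_lit 6) (nat_lit 263) (nat_lit 139) r8_263 r2_139 (nat_lit 24741287) (nat_lit 0) (nat_lit 0) (nat_lit 0x8005746a8) (nat_lit 562722999),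
  Rx.mk (nat_lit 510) (nat_lit 6) (nat_lit 7) (nat_lit 7) (nat_lit 7) (nat_lit 264) (nat_lit 143) r8_264 r2_143 (nat_lit 0) (nat_lit 0) (nat_lit 0) (nat_lit 0x8017985b4) (nat_lit 536870912),
  Rx.mk (nat_lit 511) (nat_lit 7) (nat_lit 7) (nat_lit 7) (nat_lit 7) (nat_lit 265) (nat_lit 140) r8_265 r2_140 (nat_lit 0) (nat_lit 0) (nat_lit 0) (nat_lit 0x8017985b4) (nat_lit 536870912)]
noncomputable def e47_47 : List Rx := [
  Rx.mk (nat_lit 0) (nat_lit 0) (nat_lit 0) (nat_lit 0) (nat_lit 0) (nat_lit 114) (nat_lit 102) r8_114 r8_102 (nat_lit 12621568) (nat_lit 10519158) (nat_lit 23607891) (nat_lit 0x35cfe746c) (nat_lit 1783943879),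
  Rx.mk (nat_lit 3) (nat_lit 3) (nat_lit 0) (nat_lit 0) (nat_lit 1) (nat_lit 115) (nat_lit 103) r8_115 r8_103 (nat_lit 0) (nat_lit 22151582) (nat_lit 21485510) (nat_lit 0x5d3108e36) (nat_lit 1144097304),
  Rx.mk (nat_lit 16) (nat_lit 0) (nat_lit 2) (nat_lit 0) (nat_lit 2) (nat_lit 117) (nat_lit 108) r8_117 r8_108 (nat_lit 8151494) (nat_lit 0) (nat_lit 7782469) (nat_lit 0x657d11ec4) (nat_lit 982120125),
  Rx.mk (nat_lit 19) (nat_lit 3) (nat_lit 2) (nat_lit 0) (nat_lit 3) (nat_lit 118) (nat_lit 109) r8_118 r8_109 (nat_lit 0) (nat_lit 0) (nat_lit 25147508) (nat_lit 0x80037d764) (nat_lit 563258220),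
  Rx.mk (nat_lit 144) (nat_lit 0) (nat_lit 2) (nat_lit 2) (nat_lit 6) (nat_lit 119) (nat_lit 111) r8_119 r8_111 (nat_lit 24741287) (nat_lit 0) (nat_lit 0) (nat_lit 0x7fe7fdaf2) (nat_lit 564530549),
  Rx.mk (nat_lit 146) (nat_lit 2) (nat_lit 2) (nat_lit 2) (nat_lit 7) (nat_lit 120) (nat_lit 113) r8_120 r8_113 (nat_lit 0) (nat_lit 0) (nat_lit 0) (nat_lit 0x8017985b4) (nat_lit 536870912),
  Rx.mk (nat_lit 147) (nat_lit 3) (nat_lit 2) (nat_lit 2) (nat_lit 7) (nat_lit 121) (nat_lit 112) r8_121 r8_112 (nat_lit 0) (nat_lit 0) (nat_lit 0) (nat_lit 0x8017985b4) (nat_lit 536870912),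
  Rx.mk (nat_lit 178) (nat_lit 2) (nat_lit 6) (nat_lit 2) (nat_lit 7) (nat_lit 107) (nat_lit 123) r8_107 r8_123 (nat_lit 0) (nat_lit 0) (nat_lit 0) (nat_lit 0x8017985b4) (nat_lit 536870912),
  Rx.mk (nat_lit 195) (nat_lit 3) (nat_lit 0) (nat_lit 3) (nat_lit 5) (nat_lit 116) (nat_lit 104) r8_116 r8_104 (nat_lit 0) (nat_lit 24741287) (nat_lit 0) (nat_lit 0x8017985b4) (nat_lit 561612199),
  Rx.mk (nat_lit 211) (nat_lit 3) (nat_lit 2) (nat_lit 3) (nat_lit 7) (nat_lit 122) (nat_lit 110) r8_122 r8_110 (nat_lit 0) (nat_lit 0) (nat_lit 0) (nat_lit 0x8017985b4) (nat_lit 536870912),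
  Rx.mk (nat_lit 219) (nat_lit 3) (nat_lit 3) (nat_lit 3) (nat_lit 7) (nat_lit 125) (nat_lit 105) r8_125 r8_105 (nat_lit 0) (nat_lit 0) (nat_lit 0) (nat_lit 0x8017985b4) (nat_lit 536870912),
  Rx.mk (nat_lit 223) (nat_lit 7) (nat_lit 3) (nat_lit 3) (nat_lit 7) (nat_lit 124) (nat_lit 106) r8_124 r8_106 (nat_lit 0) (nat_lit 0) (nat_lit 0) (nat_lit 0x8017985b4) (nat_lit 536870912),
  Rx.mk (nat_lit 292) (nat_lit 4) (nat_lit 4) (nat_lit 4) (nat_lit 0) (nat_lit 102) (nat_lit 114) r8_102 r8_114 (nat_lit 12621568) (nat_lit 10519158) (nat_lit 23607891) (nat_lit 0x35cfe746c) (nat_lit 1783943879),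
  Rx.mk (nat_lit 294) (nat_lit 6) (nat_lit 4) (nat_lit 4) (nat_lit 1) (nat_lit 103) (nat_lit 115) r8_103 r8_115 (nat_lit 0) (nat_lit 22151582) (nat_lit 21485510) (nat_lit 0x5d3108e36) (nat_lit 1144097304),
  Rx.mk (nat_lit 316) (nat_lit 4) (nat_lit 7) (nat_lit 4) (nat_lit 2) (nat_lit 108) (nat_lit 117) r8_108 r8_117 (nat_lit 8151494) (nat_lit 0) (nat_lit 7782469) (nat_lit 0x657d11ec4) (nat_lit 982120125),
  Rx.mk (nat_lit 318) (nat_lit 6) (nat_lit 7) (nat_lit 4) (nat_lit 3) (nat_lit 109) (nat_lit 118) r8_109 r8_118 (nat_lit 0) (nat_lit 0) (nat_lit 25147508) (nat_lit 0x80037d764) (nat_lit 563258220),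
  Rx.mk (nat_lit 422) (nat_lit 6) (nat_lit 4) (nat_lit 6) (nat_lit 5) (nat_lit 104) (nat_lit 116) r8_104 r8_116 (nat_lit 0) (nat_lit 24741287) (nat_lit 0) (nat_lit 0x8017985b4) (nat_lit 561612199),
  Rx.mk (nat_lit 434) (nat_lit 2) (nat_lit 6) (nat_lit 6) (nat_lit 7) (nat_lit 106) (nat_lit 124) r8_106 r8_124 (nat_lit 0) (nat_lit 0) (nat_lit 0) (nat_lit 0x8017985b4) (nat_lit 536870912),
  Rx.mk (nat_lit 438) (nat_lit 6) (nat_lit 6) (nat_lit 6) (nat_lit 7) (nat_lit 105) (nat_lit 125) r8_105 r8_125 (nat_lit 0) (nat_lit 0) (nat_lit 0) (nat_lit 0x8017985b4) (nat_lit 536870912),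
  Rx.mk (nat_lit 446) (nat_lit 6) (nat_lit 7) (nat_lit 6) (nat_lit 7) (nat_lit 110) (nat_lit 122) r8_110 r8_122 (nat_lit 0) (nat_lit 0) (nat_lit 0) (nat_lit 0x8017985b4) (nat_lit 536870912),
  Rx.mk (nat_lit 479) (nat_lit 7) (nat_lit 3) (nat_lit 7) (nat_lit 7) (nat_lit 123) (nat_lit 107) r8_123 r8_107 (nat_lit 0) (nat_lit 0) (nat_lit 0) (nat_lit 0x8017985b4) (nat_lit 536870912),
  Rx.mk (nat_lit 508) (nat_lit 4) (nat_lit 7) (nat_lit 7) (nat_lit 6) (nat_lit 111) (nat_lit 119) r8_111 r8_119 (nat_lit 24741287) (nat_lit 0) (nat_lit 0) (nat_lit 0x7fe7fdaf2) (nat_lit 564530549),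
  Rx.mk (nat_lit 510) (nat_lit 6) (nat_lit 7) (nat_lit 7) (nat_lit 7) (nat_lit 112) (nat_lit 121) r8_112 r8_121 (nat_lit 0) (nat_lit 0) (nat_lit 0) (nat_lit 0x8017985b4) (nat_lit 536870912),
  Rx.mk (nat_lit 511) (nat_lit 7) (nat_lit 7) (nat_lit 7) (nat_lit 7) (nat_lit 113) (nat_lit 120) r8_113 r8_120 (nat_lit 0) (nat_lit 0) (nat_lit 0) (nat_lit 0x8017985b4) (nat_lit 536870912)]
noncomputable def e47_48 : List Rx := [
  Rx.mk (nat_lit 292) (nat_lit 4) (nat_lit 4) (nat_lit 4) (nat_lit 0) (nat_lit 273) (nat_lit 99) r8_273 r9_99 (nat_lit 18790511) (nat_lit 15284300) (nat_lit 46447449) (nat_lit 0x3cee725c4) (nat_lit 1702614672),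
  Rx.mk (nat_lit 294) (nat_lit 6) (nat_lit 4) (nat_lit 4) (nat_lit 1) (nat_lit 274) (nat_lit 103) r8_274 r9_103 (nat_lit 0) (nat_lit 24950323) (nat_lit 23607638) (nat_lit 0x64fca11c2) (nat_lit 1022966473),
  Rx.mk (nat_lit 422) (nat_lit 6) (nat_lit 4) (nat_lit 6) (nat_lit 5) (nat_lit 275) (nat_lit 106) r8_275 r9_106 (nat_lit 0) (nat_lit 24741287) (nat_lit 0) (nat_lit 0x800b35984) (nat_lit 562371349),
  Rx.mk (nat_lit 434) (nat_lit 2) (nat_lit 6) (nat_lit 6) (nat_lit 7) (nat_lit 279) (nat_lit 108) r8_279 r9_108 (nat_lit 0) (nat_lit 0) (nat_lit 0) (nat_lit 0x8017985b4) (nat_lit 536870912),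
  Rx.mk (nat_lit 438) (nat_lit 6) (nat_lit 6) (nat_lit 6) (nat_lit 7) (nat_lit 278) (nat_lit 107) r8_278 r9_107 (nat_lit 0) (nat_lit 0) (nat_lit 0) (nat_lit 0x8017985b4) (nat_lit 536870912),
  Rx.mk (nat_lit 484) (nat_lit 4) (nat_lit 4) (nat_lit 7) (nat_lit 4) (nat_lit 276) (nat_lit 100) r8_276 r9_100 (nat_lit 23999425) (nat_lit 26650245) (nat_lit 0) (nat_lit 0x66dd7892e) (nat_lit 994688732),
  Rx.mk (nat_lit 486) (nat_lit 6) (nat_lit 4) (nat_lit 7) (nat_lit 5) (nat_lit 277) (nat_lit 104) r8_277 r9_104 (nat_lit 0) (nat_lit 24488988) (nat_lit 0) (nat_lit 0x7ff6155ae) (nat_lit 563408300),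
  Rx.mk (nat_lit 508) (nat_lit 4) (nat_lit 7) (nat_lit 7) (nat_lit 6) (nat_lit 280) (nat_lit 101) r8_280 r9_101 (nat_lit 24741287) (nat_lit 0) (nat_lit 0) (nat_lit 0x7ff1b40e6) (nat_lit 563929249),
  Rx.mk (nat_lit 510) (nat_lit 6) (nat_lit 7) (nat_lit 7) (nat_lit 7) (nat_lit 281) (nat_lit 105) r8_281 r9_105 (nat_lit 0) (nat_lit 0) (nat_lit 0) (nat_lit 0x8017985b4) (nat_lit 536870912),
  Rx.mk (nat_lit 511) (nat_lit 7) (nat_lit 7) (nat_lit 7) (nat_lit 7) (nat_lit 282) (nat_lit 102) r8_282 r9_102 (nat_lit 0) (nat_lit 0) (nat_lit 0) (nat_lit 0x8017985b4) (nat_lit 536870912)]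
noncomputable def e47_49 : List Rx := [
  Rx.mk (nat_lit 292) (nat_lit 4) (nat_lit 4) (nat_lit 4) (nat_lit 0) (nat_lit 266) (nat_lit 202) r8_266 r9_202 (nat_lit 23929726) (nat_lit 16962537) (nat_lit 37514210) (nat_lit 0x3e09e15de) (nat_lit 1682604485),
  Rx.mk (nat_lit 294) (nat_lit 6) (nat_lit 4) (nat_lit 4) (nat_lit 1) (nat_lit 267) (nat_lit 203) r8_267 r9_203 (nat_lit 0) (nat_lit 34060215) (nat_lit 27096766) (nat_lit 0x698596640) (nat_lit 962235943),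
  Rx.mk (nat_lit 422) (nat_lit 6) (nat_lit 4) (nat_lit 6) (nat_lit 5) (nat_lit 268) (nat_lit 207) r8_268 r9_207 (nat_lit 0) (nat_lit 24537189) (nat_lit 0) (nat_lit 0x8007ecd18) (nat_lit 562365701),
  Rx.mk (nat_lit 438) (nat_lit 6) (nat_lit 6) (nat_lit 6) (nat_lit 7) (nat_lit 270) (nat_lit 208) r8_270 r9_208 (nat_lit 0) (nat_lit 0) (nat_lit 0) (nat_lit 0x8017985b4) (nat_lit 536870912),
  Rx.mk (nat_lit 484) (nat_lit 4) (nat_lit 4) (nat_lit 7) (nat_lit 4) (nat_lit 269) (nat_lit 204) r8_269 r9_204 (nat_lit 25355923) (nat_lit 29280147) (nat_lit 0) (nat_lit 0x6cdd7d4fa) (nat_lit 901656982),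
  Rx.mk (nat_lit 508) (nat_lit 4) (nat_lit 7) (nat_lit 7) (nat_lit 6) (nat_lit 271) (nat_lit 205) r8_271 r9_205 (nat_lit 24741287) (nat_lit 0) (nat_lit 0) (nat_lit 0x8017985b4) (nat_lit 561612199),
  Rx.mk (nat_lit 511) (nat_lit 7) (nat_lit 7) (nat_lit 7) (nat_lit 7) (nat_lit 272) (nat_lit 206) r8_272 r9_206 (nat_lit 0) (nat_lit 0) (nat_lit 0) (nat_lit 0x8017985b4) (nat_lit 536870912)]
noncomputable def e47_50 : List Rx := [
  Rx.mk (nat_lit 199) (nat_lit 7) (nat_lit 0) (nat_lit 3) (nat_lit 5) (nat_lit 43) (nat_lit 120) r8_43 r3_120 (nat_lit 0) (nat_lit 1763441) (nat_lit 0) (nat_lit 0x7c7a002d2) (nat_lit 596010653),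
  Rx.mk (nat_lit 207) (nat_lit 7) (nat_lit 1) (nat_lit 3) (nat_lit 7) (nat_lit 44) (nat_lit 121) r8_44 r3_121 (nat_lit 0) (nat_lit 0) (nat_lit 0) (nat_lit 0x815f04622) (nat_lit 516911112),
  Rx.mk (nat_lit 223) (nat_lit 7) (nat_lit 3) (nat_lit 3) (nat_lit 7) (nat_lit 46) (nat_lit 122) r8_46 r3_122 (nat_lit 0) (nat_lit 0) (nat_lit 0) (nat_lit 0x7fe6eb434) (nat_lit 539872312),
  Rx.mk (nat_lit 479) (nat_lit 7) (nat_lit 3) (nat_lit 7) (nat_lit 7) (nat_lit 45) (nat_lit 119) r8_45 r3_119 (nat_lit 0) (nat_lit 0) (nat_lit 0) (nat_lit 0x7fbaf6978) (nat_lit 542584962)]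
noncomputable def e47_51 : List Rx := [
  Rx.mk (nat_lit 199) (nat_lit 7) (nat_lit 0) (nat_lit 3) (nat_lit 5) (nat_lit 146) (nat_lit 126) r8_146 r4_126 (nat_lit 0) (nat_lit 22851491) (nat_lit 0) (nat_lit 0x7fa9b2676) (nat_lit 566471853),
  Rx.mk (nat_lit 223) (nat_lit 7) (nat_lit 3) (nat_lit 3) (nat_lit 7) (nat_lit 148) (nat_lit 127) r8_148 r4_127 (nat_lit 0) (nat_lit 0) (nat_lit 0) (nat_lit 0x8017985b4) (nat_lit 536870912),
  Rx.mk (nat_lit 479) (nat_lit 7) (nat_lit 3) (nat_lit 7) (nat_lit 7) (nat_lit 147) (nat_lit 125) r8_147 r4_125 (nat_lit 0) (nat_lit 0) (nat_lit 0) (nat_lit 0x8017985b4) (nat_lit 536870912)]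
noncomputable def e47_52 : List Rx := [
  Rx.mk (nat_lit 199) (nat_lit 7) (nat_lit 0) (nat_lit 3) (nat_lit 5) (nat_lit 202) (nat_lit 121) r8_202 r5_121 (nat_lit 0) (nat_lit 10065734) (nat_lit 0) (nat_lit 0x7e9c4689e) (nat_lit 570285946),
  Rx.mk (nat_lit 207) (nat_lit 7) (nat_lit 1) (nat_lit 3) (nat_lit 7) (nat_lit 204) (nat_lit 122) r8_204 r5_122 (nat_lit 0) (nat_lit 0) (nat_lit 0) (nat_lit 0x80d50bd58) (nat_lit 525282062),
  Rx.mk (nat_lit 455) (nat_lit 7) (nat_lit 0) (nat_lit 7) (nat_lit 5) (nat_lit 201) (nat_lit 118) r8_201 r5_118 (nat_lit 0) (nat_lit 25748057) (nat_lit 0) (nat_lit 0x790d284fa) (nat_lit 675764869),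
  Rx.mk (nat_lit 463) (nat_lit 7) (nat_lit 1) (nat_lit 7) (nat_lit 7) (nat_lit 203) (nat_lit 119) r8_203 r5_119 (nat_lit 0) (nat_lit 0) (nat_lit 0) (nat_lit 0x8017985b4) (nat_lit 536870912),
  Rx.mk (nat_lit 479) (nat_lit 7) (nat_lit 3) (nat_lit 7) (nat_lit 7) (nat_lit 205) (nat_lit 120) r8_205 r5_120 (nat_lit 0) (nat_lit 0) (nat_lit 0) (nat_lit 0x8017985b4) (nat_lit 536870912)]
noncomputable def e47_53 : List Rx := [
  Rx.mk (nat_lit 3) (nat_lit 3) (nat_lit 0) (nat_lit 0) (nat_lit 1) (nat_lit 47) (nat_lit 114) r8_47 r4_114 (nat_lit 0) (nat_lit 25528723) (nat_lit 35927384) (nat_lit 0x6c2494650) (nat_lit 920149869),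
  Rx.mk (nat_lit 11) (nat_lit 3) (nat_lit 1) (nat_lit 0) (nat_lit 3) (nat_lit 50) (nat_lit 117) r8_50 r4_117 (nat_lit 0) (nat_lit 0) (nat_lit 24741287) (nat_lit 0x8005f42d6) (nat_lit 562689149),
  Rx.mk (nat_lit 19) (nat_lit 3) (nat_lit 2) (nat_lit 0) (nat_lit 3) (nat_lit 53) (nat_lit 122) r8_53 r4_122 (nat_lit 0) (nat_lit 0) (nat_lit 24741287) (nat_lit 0x8017985b4) (nat_lit 561612199),
  Rx.mk (nat_lit 147) (nat_lit 3) (nat_lit 2) (nat_lit 2) (nat_lit 7) (nat_lit 54) (nat_lit 124) r8_54 r4_124 (nat_lit 0) (nat_lit 0) (nat_lit 0) (nat_lit 0x8017985b4) (nat_lit 536870912),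
  Rx.mk (nat_lit 195) (nat_lit 3) (nat_lit 0) (nat_lit 3) (nat_lit 5) (nat_lit 49) (nat_lit 115) r8_49 r4_115 (nat_lit 0) (nat_lit 15426170) (nat_lit 0) (nat_lit 0x7fa00e8ea) (nat_lit 559577782),
  Rx.mk (nat_lit 199) (nat_lit 7) (nat_lit 0) (nat_lit 3) (nat_lit 5) (nat_lit 48) (nat_lit 116) r8_48 r4_116 (nat_lit 0) (nat_lit 19539304) (nat_lit 0) (nat_lit 0x7feeea77a) (nat_lit 558873116),
  Rx.mk (nat_lit 203) (nat_lit 3) (nat_lit 1) (nat_lit 3) (nat_lit 7) (nat_lit 52) (nat_lit 118) r8_52 r4_118 (nat_lit 0) (nat_lit 0) (nat_lit 0) (nat_lit 0x8050765fc) (nat_lit 533378512),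
  Rx.mk (nat_lit 207) (nat_lit 7) (nat_lit 1) (nat_lit 3) (nat_lit 7) (nat_lit 51) (nat_lit 119) r8_51 r4_119 (nat_lit 0) (nat_lit 0) (nat_lit 0) (nat_lit 0x8017985b4) (nat_lit 536870912),
  Rx.mk (nat_lit 211) (nat_lit 3) (nat_lit 2) (nat_lit 3) (nat_lit 7) (nat_lit 55) (nat_lit 123) r8_55 r4_123 (nat_lit 0) (nat_lit 0) (nat_lit 0) (nat_lit 0x80507696c) (nat_lit 533378462),
  Rx.mk (nat_lit 223) (nat_lit 7) (nat_lit 3) (nat_lit 3) (nat_lit 7) (nat_lit 57) (nat_lit 120) r8_57 r4_120 (nat_lit 0) (nat_lit 0) (nat_lit 0) (nat_lit 0x8017985b4) (nat_lit 536870912),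
  Rx.mk (nat_lit 479) (nat_lit 7) (nat_lit 3) (nat_lit 7) (nat_lit 7) (nat_lit 56) (nat_lit 121) r8_56 r4_121 (nat_lit 0) (nat_lit 0) (nat_lit 0) (nat_lit 0x8017985b4) (nat_lit 536870912)]
noncomputable def e47_54 : List Rx := [
  Rx.mk (nat_lit 3) (nat_lit 3) (nat_lit 0) (nat_lit 0) (nat_lit 1) (nat_lit 149) (nat_lit 112) r8_149 r10_112 (nat_lit 0) (nat_lit 25194848) (nat_lit 27532938) (nat_lit 0x6502bec76) (nat_lit 1026751498),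
  Rx.mk (nat_lit 19) (nat_lit 3) (nat_lit 2) (nat_lit 0) (nat_lit 3) (nat_lit 152) (nat_lit 113) r8_152 r10_113 (nat_lit 0) (nat_lit 0) (nat_lit 24741287) (nat_lit 0x7fc74cd8a) (nat_lit 566520649),
  Rx.mk (nat_lit 147) (nat_lit 3) (nat_lit 2) (nat_lit 2) (nat_lit 7) (nat_lit 153) (nat_lit 116) r8_153 r10_116 (nat_lit 0) (nat_lit 0) (nat_lit 0) (nat_lit 0x8017985b4) (nat_lit 536870912),
  Rx.mk (nat_lit 195) (nat_lit 3) (nat_lit 0) (nat_lit 3) (nat_lit 5) (nat_lit 151) (nat_lit 114) r8_151 r10_114 (nat_lit 0) (nat_lit 24741287) (nat_lit 0) (nat_lit 0x80046e510) (nat_lit 562785099),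
  Rx.mk (nat_lit 199) (nat_lit 7) (nat_lit 0) (nat_lit 3) (nat_lit 5) (nat_lit 150) (nat_lit 110) r8_150 r10_110 (nat_lit 0) (nat_lit 24741287) (nat_lit 0) (nat_lit 0x8006a3cfe) (nat_lit 562650649),
  Rx.mk (nat_lit 211) (nat_lit 3) (nat_lit 2) (nat_lit 3) (nat_lit 7) (nat_lit 154) (nat_lit 115) r8_154 r10_115 (nat_lit 0) (nat_lit 0) (nat_lit 0) (nat_lit 0x8017985b4) (nat_lit 536870912),
  Rx.mk (nat_lit 223) (nat_lit 7) (nat_lit 3) (nat_lit 3) (nat_lit 7) (nat_lit 156) (nat_lit 111) r8_156 r10_111 (nat_lit 0) (nat_lit 0) (nat_lit 0) (nat_lit 0x8017985b4) (nat_lit 536870912),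
  Rx.mk (nat_lit 479) (nat_lit 7) (nat_lit 3) (nat_lit 7) (nat_lit 7) (nat_lit 155) (nat_lit 109) r8_155 r10_109 (nat_lit 0) (nat_lit 0) (nat_lit 0) (nat_lit 0x8017985b4) (nat_lit 536870912)]
noncomputable def e47_55 : List Rx := [
  Rx.mk (nat_lit 195) (nat_lit 3) (nat_lit 0) (nat_lit 3) (nat_lit 5) (nat_lit 208) (nat_lit 120) r8_208 r11_120 (nat_lit 0) (nat_lit 28059580) (nat_lit 0) (nat_lit 0x7f58302f8) (nat_lit 576670492),
  Rx.mk (nat_lit 199) (nat_lit 7) (nat_lit 0) (nat_lit 3) (nat_lit 5) (nat_lit 207) (nat_lit 118) r8_207 r11_118 (nat_lit 0) (nat_lit 24741287) (nat_lit 0) (nat_lit 0x8017985b4) (nat_lit 561612199),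
  Rx.mk (nat_lit 203) (nat_lit 3) (nat_lit 1) (nat_lit 3) (nat_lit 7) (nat_lit 211) (nat_lit 121) r8_211 r11_121 (nat_lit 0) (nat_lit 0) (nat_lit 0) (nat_lit 0x8017985b4) (nat_lit 536870912),
  Rx.mk (nat_lit 207) (nat_lit 7) (nat_lit 1) (nat_lit 3) (nat_lit 7) (nat_lit 210) (nat_lit 119) r8_210 r11_119 (nat_lit 0) (nat_lit 0) (nat_lit 0) (nat_lit 0x8017985b4) (nat_lit 536870912),
  Rx.mk (nat_lit 211) (nat_lit 3) (nat_lit 2) (nat_lit 3) (nat_lit 7) (nat_lit 212) (nat_lit 122) r8_212 r11_122 (nat_lit 0) (nat_lit 0) (nat_lit 0) (nat_lit 0x8017985b4) (nat_lit 536870912),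
  Rx.mk (nat_lit 455) (nat_lit 7) (nat_lit 0) (nat_lit 7) (nat_lit 5) (nat_lit 206) (nat_lit 115) r8_206 r11_115 (nat_lit 0) (nat_lit 24741287) (nat_lit 0) (nat_lit 0x8017985b4) (nat_lit 561612199),
  Rx.mk (nat_lit 463) (nat_lit 7) (nat_lit 1) (nat_lit 7) (nat_lit 7) (nat_lit 209) (nat_lit 116) r8_209 r11_116 (nat_lit 0) (nat_lit 0) (nat_lit 0) (nat_lit 0x8017985b4) (nat_lit 536870912),
  Rx.mk (nat_lit 479) (nat_lit 7) (nat_lit 3) (nat_lit 7) (nat_lit 7) (nat_lit 213) (nat_lit 117) r8_213 r11_117 (nat_lit 0) (nat_lit 0) (nat_lit 0) (nat_lit 0x8017985b4) (nat_lit 536870912)]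
noncomputable def e47_56 : List Rx := [
  Rx.mk (nat_lit 199) (nat_lit 7) (nat_lit 0) (nat_lit 3) (nat_lit 5) (nat_lit 58) (nat_lit 115) r8_58 r5_115 (nat_lit 0) (nat_lit 14303237) (nat_lit 0) (nat_lit 0x7ea35f61c) (nat_lit 574182799),
  Rx.mk (nat_lit 207) (nat_lit 7) (nat_lit 1) (nat_lit 3) (nat_lit 7) (nat_lit 59) (nat_lit 116) r8_59 r5_116 (nat_lit 0) (nat_lit 0) (nat_lit 0) (nat_lit 0x805c00e40) (nat_lit 532666762),
  Rx.mk (nat_lit 223) (nat_lit 7) (nat_lit 3) (nat_lit 3) (nat_lit 7) (nat_lit 60) (nat_lit 117) r8_60 r5_117 (nat_lit 0) (nat_lit 0) (nat_lit 0) (nat_lit 0x8017985b4) (nat_lit 536870912)]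
noncomputable def e47_57 : List Rx := [
  Rx.mk (nat_lit 199) (nat_lit 7) (nat_lit 0) (nat_lit 3) (nat_lit 5) (nat_lit 157) (nat_lit 113) r8_157 r11_113 (nat_lit 0) (nat_lit 24741287) (nat_lit 0) (nat_lit 0x8017985b4) (nat_lit 561612199),
  Rx.mk (nat_lit 223) (nat_lit 7) (nat_lit 3) (nat_lit 3) (nat_lit 7) (nat_lit 158) (nat_lit 114) r8_158 r11_114 (nat_lit 0) (nat_lit 0) (nat_lit 0) (nat_lit 0x8017985b4) (nat_lit 536870912)]
noncomputable def e47 : List (List Rx) := [e47_0, e47_1, e47_2, e47_3, e47_4, e47_5, e47_6, e47_7, e47_8, e47_9, e47_10, e47_11, e47_12, e47_13, e47_14, e47_15, e47_16, e47_17, e47_18, e47_19, e47_20, e47_21, e47_22, e47_23, e47_24, e47_25, e47_26, e47_27, e47_28, e47_29, e47_30, e47_31, e47_32, e47_33, e47_34, e47_35, e47_36, e47_37, e47_38, e47_39, e47_40, e47_41, e47_42, e47_43, e47_44, e47_45, e47_46, e47_47, e47_48, e47_49, e47_50,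 e47_51, e47_52, e47_53, e47_54, e47_55, e47_56, e47_57]
noncomputable def e48_0 : List Rx := [
  Rx.mk (nat_lit 77) (nat_lit 5) (nat_lit 1) (nat_lit 1) (nat_lit 7) (nat_lit 248) (nat_lit 291) r9_248 r0_291 (nat_lit 0) (nat_lit 0) (nat_lit 0) (nat_lit 0x7f706cec0) (nat_lit 547165662),
  Rx.mk (nat_lit 109) (nat_lit 5) (nat_lit 5) (nat_lit 1) (nat_lit 7) (nat_lit 249) (nat_lit 292) r9_249 r0_292 (nat_lit 0) (nat_lit 0) (nat_lit 0) (nat_lit 0x7fa7f11e8) (nat_lit 543731812)]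
noncomputable def e48_1 : List Rx := [
  Rx.mk (nat_lit 77) (nat_lit 5) (nat_lit 1) (nat_lit 1) (nat_lit 7) (nat_lit 290) (nat_lit 287) r9_290 r1_287 (nat_lit 0) (nat_lit 0) (nat_lit 0) (nat_lit 0x8017985b4) (nat_lit 536870912),
  Rx.mk (nat_lit 109) (nat_lit 5) (nat_lit 5) (nat_lit 1) (nat_lit 7) (nat_lit 291) (nat_lit 288) r9_291 r1_288 (nat_lit 0) (nat_lit 0) (nat_lit 0) (nat_lit 0x8017985b4) (nat_lit 536870912),
  Rx.mk (nat_lit 365) (nat_lit 5) (nat_lit 5) (nat_lit 5) (nat_lit 7) (nat_lit 292) (nat_lit 289) r9_292 r1_289 (nat_lit 0) (nat_lit 0) (nat_lit 0) (nat_lit 0x8017985b4) (nat_lit 536870912)]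
noncomputable def e48_2 : List Rx := [
  Rx.mk (nat_lit 365) (nat_lit 5) (nat_lit 5) (nat_lit 5) (nat_lit 7) (nat_lit 293) (nat_lit 315) r9_293 r2_315 (nat_lit 0) (nat_lit 0) (nat_lit 0) (nat_lit 0x8017985b4) (nat_lit 536870912)]
noncomputable def e48_3 : List Rx := [
  Rx.mk (nat_lit 13) (nat_lit 5) (nat_lit 1) (nat_lit 0) (nat_lit 3) (nat_lit 300) (nat_lit 290) r9_300 r3_290 (nat_lit 0) (nat_lit 0) (nat_lit 36215805) (nat_lit 0x6837b1e8a) (nat_lit 958320217),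
  Rx.mk (nat_lit 45) (nat_lit 5) (nat_lit 5) (nat_lit 0) (nat_lit 3) (nat_lit 301) (nat_lit 293) r9_301 r3_293 (nat_lit 0) (nat_lit 0) (nat_lit 23806788) (nat_lit 0x6530a0838) (nat_lit 994848200),
  Rx.mk (nat_lit 77) (nat_lit 5) (nat_lit 1) (nat_lit 1) (nat_lit 7) (nat_lit 302) (nat_lit 291) r9_302 r3_291 (nat_lit 0) (nat_lit 0) (nat_lit 0) (nat_lit 0x7f8a461c0) (nat_lit 545571162),
  Rx.mk (nat_lit 109) (nat_lit 5) (nat_lit 5) (nat_lit 1) (nat_lit 7) (nat_lit 303) (nat_lit 294) r9_303 r3_294 (nat_lit 0) (nat_lit 0) (nat_lit 0) (nat_lit 0x8017985b4) (nat_lit 536870912),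
  Rx.mk (nat_lit 205) (nat_lit 5) (nat_lit 1) (nat_lit 3) (nat_lit 7) (nat_lit 304) (nat_lit 292) r9_304 r3_292 (nat_lit 0) (nat_lit 0) (nat_lit 0) (nat_lit 0x7ded52914) (nat_lit 571323512)]
noncomputable def e48_4 : List Rx := [
  Rx.mk (nat_lit 77) (nat_lit 5) (nat_lit 1) (nat_lit 1) (nat_lit 7) (nat_lit 305) (nat_lit 307) r9_305 r4_307 (nat_lit 0) (nat_lit 0) (nat_lit 0) (nat_lit 0x8017985b4) (nat_lit 536870912),
  Rx.mk (nat_lit 109) (nat_lit 5) (nat_lit 5) (nat_lit 1) (nat_lit 7) (nat_lit 306) (nat_lit 308) r9_306 r4_308 (nat_lit 0) (nat_lit 0) (nat_lit 0) (nat_lit 0x8017985b4) (nat_lit 536870912)]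
noncomputable def e48_5 : List Rx := [
  Rx.mk (nat_lit 45) (nat_lit 5) (nat_lit 5) (nat_lit 0) (nat_lit 3) (nat_lit 307) (nat_lit 287) r9_307 r5_287 (nat_lit 0) (nat_lit 0) (nat_lit 111344299) (nat_lit 0x6b103b6e6) (nat_lit 987492011),
  Rx.mk (nat_lit 109) (nat_lit 5) (nat_lit 5) (nat_lit 1) (nat_lit 7) (nat_lit 308) (nat_lit 288) r9_308 r5_288 (nat_lit 0) (nat_lit 0) (nat_lit 0) (nat_lit 0x7ff67effe) (nat_lit 538897862),
  Rx.mk (nat_lit 205) (nat_lit 5) (nat_lit 1) (nat_lit 3) (nat_lit 7) (nat_lit 309) (nat_lit 286) r9_309 r5_286 (nat_lit 0) (nat_lit 0) (nat_lit 0) (nat_lit 0x7ff9dad06) (nat_lit 538691612),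
  Rx.mk (nat_lit 237) (nat_lit 5) (nat_lit 5) (nat_lit 3) (nat_lit 7) (nat_lit 310) (nat_lit 289) r9_310 r5_289 (nat_lit 0) (nat_lit 0) (nat_lit 0) (nat_lit 0x7ff760b48) (nat_lit 538843712)]
noncomputable def e48_6 : List Rx := [
  Rx.mk (nat_lit 239) (nat_lit 7) (nat_lit 5) (nat_lit 3) (nat_lit 7) (nat_lit 21) (nat_lit 260) r9_21 r3_260 (nat_lit 0) (nat_lit 0) (nat_lit 0) (nat_lit 0x800056a40) (nat_lit 538300112),
  Rx.mk (nat_lit 492) (nat_lit 4) (nat_lit 5) (nat_lit 7) (nat_lit 6) (nat_lit 19) (nat_lit 257) r9_19 r3_257 (nat_lit 6950286) (nat_lit 0) (nat_lit 0) (nat_lit 0x6a58027fa) (nat_lit 894620048),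
  Rx.mk (nat_lit 493) (nat_lit 5) (nat_lit 5) (nat_lit 7) (nat_lit 7) (nat_lit 20) (nat_lit 258) r9_20 r3_258 (nat_lit 0) (nat_lit 0) (nat_lit 0) (nat_lit 0x7ffede474) (nat_lit 538398162),
  Rx.mk (nat_lit 495) (nat_lit 7) (nat_lit 5) (nat_lit 7) (nat_lit 7) (nat_lit 22) (nat_lit 259) r9_22 r3_259 (nat_lit 0) (nat_lit 0) (nat_lit 0) (nat_lit 0x7fbe4884c) (nat_lit 542361212)]
noncomputable def e48_7 : List Rx := [
  Rx.mk (nat_lit 300) (nat_lit 4) (nat_lit 5) (nat_lit 4) (nat_lit 2) (nat_lit 155) (nat_lit 257) r9_155 r0_257 (nat_lit 41159980) (nat_lit 0) (nat_lit 49590700) (nat_lit 0x50d4cab80) (nat_lit 1391082492),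
  Rx.mk (nat_lit 301) (nat_lit 5) (nat_lit 5) (nat_lit 4) (nat_lit 3) (nat_lit 157) (nat_lit 259) r9_157 r0_259 (nat_lit 0) (nat_lit 0) (nat_lit 28301978) (nat_lit 0x71f06598c) (nat_lit 793284240),
  Rx.mk (nat_lit 492) (nat_lit 4) (nat_lit 5) (nat_lit 7) (nat_lit 6) (nat_lit 156) (nat_lit 258) r9_156 r0_258 (nat_lit 30127539) (nat_lit 0) (nat_lit 0) (nat_lit 0x7a85fc8e4) (nat_lit 656361051),
  Rx.mk (nat_lit 493) (nat_lit 5) (nat_lit 5) (nat_lit 7) (nat_lit 7) (nat_lit 158) (nat_lit 260) r9_158 r0_260 (nat_lit 0) (nat_lit 0) (nat_lit 0) (nat_lit 0x7fffa9a3e) (nat_lit 538336962),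
  Rx.mk (nat_lit 495) (nat_lit 7) (nat_lit 5) (nat_lit 7) (nat_lit 7) (nat_lit 159) (nat_lit 261) r9_159 r0_261 (nat_lit 0) (nat_lit 0) (nat_lit 0) (nat_lit 0x800dc4ccc) (nat_lit 537471612)]
noncomputable def e48_8 : List Rx := [
  Rx.mk (nat_lit 300) (nat_lit 4) (nat_lit 5) (nat_lit 4) (nat_lit 2) (nat_lit 160) (nat_lit 262) r9_160 r1_262 (nat_lit 38504019) (nat_lit 0) (nat_lit 68973086) (nat_lit 0x645605570) (nat_lit 1092404867),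
  Rx.mk (nat_lit 301) (nat_lit 5) (nat_lit 5) (nat_lit 4) (nat_lit 3) (nat_lit 163) (nat_lit 265) r9_163 r1_265 (nat_lit 0) (nat_lit 0) (nat_lit 24741287) (nat_lit 0x8017985b4) (nat_lit 561612199),
  Rx.mk (nat_lit 364) (nat_lit 4) (nat_lit 5) (nat_lit 5) (nat_lit 6) (nat_lit 161) (nat_lit 263) r9_161 r1_263 (nat_lit 24741287) (nat_lit 0) (nat_lit 0) (nat_lit 0x8004fdb2a) (nat_lit 562749199),
  Rx.mk (nat_lit 365) (nat_lit 5) (nat_lit 5) (nat_lit 5) (nat_lit 7) (nat_lit 164) (nat_lit 266) r9_164 r1_266 (nat_lit 0) (nat_lit 0) (nat_lit 0) (nat_lit 0x8017985b4) (nat_lit 536870912),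
  Rx.mk (nat_lit 492) (nat_lit 4) (nat_lit 5) (nat_lit 7) (nat_lit 6) (nat_lit 162) (nat_lit 264) r9_162 r1_264 (nat_lit 24741287) (nat_lit 0) (nat_lit 0) (nat_lit 0x8017985b4) (nat_lit 561612199),
  Rx.mk (nat_lit 493) (nat_lit 5) (nat_lit 5) (nat_lit 7) (nat_lit 7) (nat_lit 165) (nat_lit 267) r9_165 r1_267 (nat_lit 0) (nat_lit 0) (nat_lit 0) (nat_lit 0x8017985b4) (nat_lit 536870912),
  Rx.mk (nat_lit 495) (nat_lit 7) (nat_lit 5) (nat_lit 7) (nat_lit 7) (nat_lit 166) (nat_lit 268) r9_166 r1_268 (nat_lit 0) (nat_lit 0) (nat_lit 0) (nat_lit 0x8017985b4) (nat_lit 536870912)]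
noncomputable def e48_9 : List Rx := [
  Rx.mk (nat_lit 492) (nat_lit 4) (nat_lit 5) (nat_lit 7) (nat_lit 6) (nat_lit 167) (nat_lit 273) r9_167 r4_273 (nat_lit 24741287) (nat_lit 0) (nat_lit 0) (nat_lit 0x7fff3afc6) (nat_lit 563104399),
  Rx.mk (nat_lit 493) (nat_lit 5) (nat_lit 5) (nat_lit 7) (nat_lit 7) (nat_lit 168) (nat_lit 274) r9_168 r4_274 (nat_lit 0) (nat_lit 0) (nat_lit 0) (nat_lit 0x8017985b4) (nat_lit 536870912),
  Rx.mk (nat_lit 495) (nat_lit 7) (nat_lit 5) (nat_lit 7) (nat_lit 7) (nat_lit 169) (nat_lit 275) r9_169 r4_275 (nat_lit 0) (nat_lit 0) (nat_lit 0) (nat_lit 0x8017985b4) (nat_lit 536870912)]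
noncomputable def e48_10 : List Rx := [
  Rx.mk (nat_lit 204) (nat_lit 4) (nat_lit 1) (nat_lit 3) (nat_lit 6) (nat_lit 219) (nat_lit 314) r9_219 r6_314 (nat_lit 24741287) (nat_lit 0) (nat_lit 0) (nat_lit 0x7fbf624bc) (nat_lit 567020899),
  Rx.mk (nat_lit 205) (nat_lit 5) (nat_lit 1) (nat_lit 3) (nat_lit 7) (nat_lit 221) (nat_lit 316) r9_221 r6_316 (nat_lit 0) (nat_lit 0) (nat_lit 0) (nat_lit 0x8017985b4) (nat_lit 536870912),
  Rx.mk (nat_lit 236) (nat_lit 4) (nat_lit 5) (nat_lit 3) (nat_lit 6) (nat_lit 220) (nat_lit 315) r9_220 r6_315 (nat_lit 25547425) (nat_lit 0) (nat_lit 0) (nat_lit 0x7ed7c15fe) (nat_lit 582171937),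
  Rx.mk (nat_lit 237) (nat_lit 5) (nat_lit 5) (nat_lit 3) (nat_lit 7) (nat_lit 222) (nat_lit 317) r9_222 r6_317 (nat_lit 0) (nat_lit 0) (nat_lit 0) (nat_lit 0x8017985b4) (nat_lit 536870912),
  Rx.mk (nat_lit 239) (nat_lit 7) (nat_lit 5) (nat_lit 3) (nat_lit 7) (nat_lit 223) (nat_lit 318) r9_223 r6_318 (nat_lit 0) (nat_lit 0) (nat_lit 0) (nat_lit 0x8017985b4) (nat_lit 536870912)]
noncomputable def e48_11 : List Rx := [
  Rx.mk (nat_lit 236) (nat_lit 4) (nat_lit 5) (nat_lit 3) (nat_lit 6) (nat_lit 224) (nat_lit 262) r9_224 r5_262 (nat_lit 27922064) (nat_lit 0) (nat_lit 0) (nat_lit 0x7cb09d100) (nat_lit 619170926),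
  Rx.mk (nat_lit 237) (nat_lit 5) (nat_lit 5) (nat_lit 3) (nat_lit 7) (nat_lit 226) (nat_lit 264) r9_226 r5_264 (nat_lit 0) (nat_lit 0) (nat_lit 0) (nat_lit 0x8017985b4) (nat_lit 536870912),
  Rx.mk (nat_lit 239) (nat_lit 7) (nat_lit 5) (nat_lit 3) (nat_lit 7) (nat_lit 228) (nat_lit 265) r9_228 r5_265 (nat_lit 0) (nat_lit 0) (nat_lit 0) (nat_lit 0x8017985b4) (nat_lit 536870912),
  Rx.mk (nat_lit 492) (nat_lit 4) (nat_lit 5) (nat_lit 7) (nat_lit 6) (nat_lit 225) (nat_lit 261) r9_225 r5_261 (nat_lit 29963902) (nat_lit 0) (nat_lit 0) (nat_lit 0x7c0aae942) (nat_lit 631646464),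
  Rx.mk (nat_lit 493) (nat_lit 5) (nat_lit 5) (nat_lit 7) (nat_lit 7) (nat_lit 227) (nat_lit 263) r9_227 r5_263 (nat_lit 0) (nat_lit 0) (nat_lit 0) (nat_lit 0x8017985b4) (nat_lit 536870912)]
noncomputable def e48_12 : List Rx := [
  Rx.mk (nat_lit 9) (nat_lit 1) (nat_lit 1) (nat_lit 0) (nat_lit 3) (nat_lit 250) (nat_lit 295) r9_250 r0_295 (nat_lit 0) (nat_lit 0) (nat_lit 25628035) (nat_lit 0x7c71b8854) (nat_lit 620861597),
  Rx.mk (nat_lit 13) (nat_lit 5) (nat_lit 1) (nat_lit 0) (nat_lit 3) (nat_lit 253) (nat_lit 294) r9_253 r0_294 (nat_lit 0) (nat_lit 0) (nat_lit 27813133) (nat_lit 0x7ac35ec14) (nat_lit 650184545),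
  Rx.mk (nat_lit 45) (nat_lit 5) (nat_lit 5) (nat_lit 0) (nat_lit 3) (nat_lit 254) (nat_lit 293) r9_254 r0_293 (nat_lit 0) (nat_lit 0) (nat_lit 27880557) (nat_lit 0x735c96bb4) (nat_lit 769863869),
  Rx.mk (nat_lit 73) (nat_lit 1) (nat_lit 1) (nat_lit 1) (nat_lit 7) (nat_lit 251) (nat_lit 298) r9_251 r0_298 (nat_lit 0) (nat_lit 0) (nat_lit 0) (nat_lit 0x7fa3dbc34) (nat_lit 543982362),
  Rx.mk (nat_lit 77) (nat_lit 5) (nat_lit 1) (nat_lit 1) (nat_lit 7) (nat_lit 255) (nat_lit 297) r9_255 r0_297 (nat_lit 0) (nat_lit 0) (nat_lit 0) (nat_lit 0x7fe5db210) (nat_lit 539920162),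
  Rx.mk (nat_lit 109) (nat_lit 5) (nat_lit 5) (nat_lit 1) (nat_lit 7) (nat_lit 256) (nat_lit 296) r9_256 r0_296 (nat_lit 0) (nat_lit 0) (nat_lit 0) (nat_lit 0x7ff5e805e) (nat_lit 538935112),
  Rx.mk (nat_lit 201) (nat_lit 1) (nat_lit 1) (nat_lit 3) (nat_lit 7) (nat_lit 252) (nat_lit 299) r9_252 r0_299 (nat_lit 0) (nat_lit 0) (nat_lit 0) (nat_lit 0x7fed20192) (nat_lit 539467362)]
noncomputable def e48_13 : List Rx := [
  Rx.mk (nat_lit 73) (nat_lit 1) (nat_lit 1) (nat_lit 1) (nat_lit 7) (nat_lit 257) (nat_lit 406) r9_257 r7_406 (nat_lit 0) (nat_lit 0) (nat_lit 0) (nat_lit 0x8017985b4) (nat_lit 536870912),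
  Rx.mk (nat_lit 77) (nat_lit 5) (nat_lit 1) (nat_lit 1) (nat_lit 7) (nat_lit 258) (nat_lit 407) r9_258 r7_407 (nat_lit 0) (nat_lit 0) (nat_lit 0) (nat_lit 0x8017985b4) (nat_lit 536870912),
  Rx.mk (nat_lit 109) (nat_lit 5) (nat_lit 5) (nat_lit 1) (nat_lit 7) (nat_lit 259) (nat_lit 408) r9_259 r7_408 (nat_lit 0) (nat_lit 0) (nat_lit 0) (nat_lit 0x8017985b4) (nat_lit 536870912)]
noncomputable def e48_14 : List Rx := [
  Rx.mk (nat_lit 9) (nat_lit 1) (nat_lit 1) (nat_lit 0) (nat_lit 3) (nat_lit 286) (nat_lit 290) r9_286 r1_290 (nat_lit 0) (nat_lit 0) (nat_lit 24741287) (nat_lit 0x7fa9dd1b4) (nat_lit 568325299),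
  Rx.mk (nat_lit 73) (nat_lit 1) (nat_lit 1) (nat_lit 1) (nat_lit 7) (nat_lit 287) (nat_lit 291) r9_287 r1_291 (nat_lit 0) (nat_lit 0) (nat_lit 0) (nat_lit 0x8017985b4) (nat_lit 536870912),
  Rx.mk (nat_lit 201) (nat_lit 1) (nat_lit 1) (nat_lit 3) (nat_lit 7) (nat_lit 288) (nat_lit 292) r9_288 r1_292 (nat_lit 0) (nat_lit 0) (nat_lit 0) (nat_lit 0x8017985b4) (nat_lit 536870912)]
noncomputable def e48_15 : List Rx := [
  Rx.mk (nat_lit 73) (nat_lit 1) (nat_lit 1) (nat_lit 1) (nat_lit 7) (nat_lit 289) (nat_lit 326) r9_289 r8_326 (nat_lit 0) (nat_lit 0) (nat_lit 0) (nat_lit 0x8017985b4) (nat_lit 536870912)]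
noncomputable def e48_16 : List Rx := [
  Rx.mk (nat_lit 73) (nat_lit 1) (nat_lit 1) (nat_lit 1) (nat_lit 7) (nat_lit 294) (nat_lit 330) r9_294 r8_330 (nat_lit 0) (nat_lit 0) (nat_lit 0) (nat_lit 0x8017985b4) (nat_lit 536870912),
  Rx.mk (nat_lit 77) (nat_lit 5) (nat_lit 1) (nat_lit 1) (nat_lit 7) (nat_lit 295) (nat_lit 329) r9_295 r8_329 (nat_lit 0) (nat_lit 0) (nat_lit 0) (nat_lit 0x8017985b4) (nat_lit 536870912),
  Rx.mk (nat_lit 109) (nat_lit 5) (nat_lit 5) (nat_lit 1) (nat_lit 7) (nat_lit 296) (nat_lit 328) r9_296 r8_328 (nat_lit 0) (nat_lit 0) (nat_lit 0) (nat_lit 0x8017985b4) (nat_lit 536870912),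
  Rx.mk (nat_lit 365) (nat_lit 5) (nat_lit 5) (nat_lit 5) (nat_lit 7) (nat_lit 297) (nat_lit 327) r9_297 r8_327 (nat_lit 0) (nat_lit 0) (nat_lit 0) (nat_lit 0x8017985b4) (nat_lit 536870912)]
noncomputable def e48_17 : List Rx := [
  Rx.mk (nat_lit 365) (nat_lit 5) (nat_lit 5) (nat_lit 5) (nat_lit 7) (nat_lit 298) (nat_lit 298) r9_298 r9_298 (nat_lit 0) (nat_lit 0) (nat_lit 0) (nat_lit 0x8017985b4) (nat_lit 536870912)]
noncomputable def e48_18 : List Rx := [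
  Rx.mk (nat_lit 13) (nat_lit 5) (nat_lit 1) (nat_lit 0) (nat_lit 3) (nat_lit 312) (nat_lit 310) r9_312 r4_310 (nat_lit 0) (nat_lit 0) (nat_lit 30557758) (nat_lit 0x7f457f316) (nat_lit 580390720),
  Rx.mk (nat_lit 45) (nat_lit 5) (nat_lit 5) (nat_lit 0) (nat_lit 3) (nat_lit 313) (nat_lit 309) r9_313 r4_309 (nat_lit 0) (nat_lit 0) (nat_lit 47490513) (nat_lit 0x7c0f81f64) (nat_lit 648924525),
  Rx.mk (nat_lit 77) (nat_lit 5) (nat_lit 1) (nat_lit 1) (nat_lit 7) (nat_lit 314) (nat_lit 312) r9_314 r4_312 (nat_lit 0) (nat_lit 0) (nat_lit 0) (nat_lit 0x8017985b4) (nat_lit 536870912),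
  Rx.mk (nat_lit 109) (nat_lit 5) (nat_lit 5) (nat_lit 1) (nat_lit 7) (nat_lit 315) (nat_lit 311) r9_315 r4_311 (nat_lit 0) (nat_lit 0) (nat_lit 0) (nat_lit 0x8017985b4) (nat_lit 536870912),
  Rx.mk (nat_lit 201) (nat_lit 1) (nat_lit 1) (nat_lit 3) (nat_lit 7) (nat_lit 311) (nat_lit 314) r9_311 r4_314 (nat_lit 0) (nat_lit 0) (nat_lit 0) (nat_lit 0x8017985b4) (nat_lit 536870912),
  Rx.mk (nat_lit 205) (nat_lit 5) (nat_lit 1) (nat_lit 3) (nat_lit 7) (nat_lit 316) (nat_lit 313) r9_316 r4_313 (nat_lit 0) (nat_lit 0) (nat_lit 0) (nat_lit 0x8017985b4) (nat_lit 536870912)]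
noncomputable def e48_19 : List Rx := [
  Rx.mk (nat_lit 77) (nat_lit 5) (nat_lit 1) (nat_lit 1) (nat_lit 7) (nat_lit 317) (nat_lit 329) r9_317 r10_329 (nat_lit 0) (nat_lit 0) (nat_lit 0) (nat_lit 0x8017985b4) (nat_lit 536870912),
  Rx.mk (nat_lit 109) (nat_lit 5) (nat_lit 5) (nat_lit 1) (nat_lit 7) (nat_lit 318) (nat_lit 330) r9_318 r10_330 (nat_lit 0) (nat_lit 0) (nat_lit 0) (nat_lit 0x8017985b4) (nat_lit 536870912)]
noncomputable def e48_20 : List Rx := [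
  Rx.mk (nat_lit 45) (nat_lit 5) (nat_lit 5) (nat_lit 0) (nat_lit 3) (nat_lit 320) (nat_lit 347) r9_320 r11_347 (nat_lit 0) (nat_lit 0) (nat_lit 34238693) (nat_lit 0x7ed4be032) (nat_lit 591026955),
  Rx.mk (nat_lit 109) (nat_lit 5) (nat_lit 5) (nat_lit 1) (nat_lit 7) (nat_lit 321) (nat_lit 348) r9_321 r11_348 (nat_lit 0) (nat_lit 0) (nat_lit 0) (nat_lit 0x8017985b4) (nat_lit 536870912),
  Rx.mk (nat_lit 201) (nat_lit 1) (nat_lit 1) (nat_lit 3) (nat_lit 7) (nat_lit 319) (nat_lit 345) r9_319 r11_345 (nat_lit 0) (nat_lit 0) (nat_lit 0) (nat_lit 0x8017985b4) (nat_lit 536870912),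
  Rx.mk (nat_lit 205) (nat_lit 5) (nat_lit 1) (nat_lit 3) (nat_lit 7) (nat_lit 322) (nat_lit 346) r9_322 r11_346 (nat_lit 0) (nat_lit 0) (nat_lit 0) (nat_lit 0x8017985b4) (nat_lit 536870912),
  Rx.mk (nat_lit 237) (nat_lit 5) (nat_lit 5) (nat_lit 3) (nat_lit 7) (nat_lit 323) (nat_lit 349) r9_323 r11_349 (nat_lit 0) (nat_lit 0) (nat_lit 0) (nat_lit 0x8017985b4) (nat_lit 536870912)]
noncomputable def e48_21 : List Rx := [
  Rx.mk (nat_lit 365) (nat_lit 5) (nat_lit 5) (nat_lit 5) (nat_lit 7) (nat_lit 299) (nat_lit 266) r9_299 r9_266 (nat_lit 0) (nat_lit 0) (nat_lit 0) (nat_lit 0x8017985b4) (nat_lit 536870912)]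
noncomputable def e48_22 : List Rx := [
  Rx.mk (nat_lit 255) (nat_lit 7) (nat_lit 7) (nat_lit 3) (nat_lit 7) (nat_lit 36) (nat_lit 154) r9_36 r0_154 (nat_lit 0) (nat_lit 0) (nat_lit 0) (nat_lit 0x8017985b4) (nat_lit 536870912),
  Rx.mk (nat_lit 292) (nat_lit 4) (nat_lit 4) (nat_lit 4) (nat_lit 0) (nat_lit 23) (nat_lit 155) r9_23 r0_155 (nat_lit 17383342) (nat_lit 11766479) (nat_lit 20103060) (nat_lit 0x26bb582ee) (nat_lit 2030296093),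
  Rx.mk (nat_lit 294) (nat_lit 6) (nat_lit 4) (nat_lit 4) (nat_lit 1) (nat_lit 29) (nat_lit 158) r9_29 r0_158 (nat_lit 0) (nat_lit 19805728) (nat_lit 96643738) (nat_lit 0x57dc9e896) (nat_lit 1303076978),
  Rx.mk (nat_lit 300) (nat_lit 4) (nat_lit 5) (nat_lit 4) (nat_lit 2) (nat_lit 24) (nat_lit 156) r9_24 r0_156 (nat_lit 21246965) (nat_lit 0) (nat_lit 21454755) (nat_lit 0x536054f6e) (nat_lit 1301860482),
  Rx.mk (nat_lit 301) (nat_lit 5) (nat_lit 5) (nat_lit 4) (nat_lit 3) (nat_lit 27) (nat_lit 157) r9_27 r0_157 (nat_lit 0) (nat_lit 0) (nat_lit 27681734) (nat_lit 0x7735d76f0) (nat_lit 707450746),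
  Rx.mk (nat_lit 302) (nat_lit 6) (nat_lit 5) (nat_lit 4) (nat_lit 3) (nat_lit 30) (nat_lit 159) r9_30 r0_159 (nat_lit 0) (nat_lit 0) (nat_lit 39103353) (nat_lit 0x7f0bc5f80) (nat_lit 592509415),
  Rx.mk (nat_lit 310) (nat_lit 6) (nat_lit 6) (nat_lit 4) (nat_lit 3) (nat_lit 31) (nat_lit 160) r9_31 r0_160 (nat_lit 0) (nat_lit 0) (nat_lit 140602240) (nat_lit 0x7cdd650c0) (nat_lit 729034802),
  Rx.mk (nat_lit 438) (nat_lit 6) (nat_lit 6) (nat_lit 6) (nat_lit 7) (nat_lit 32) (nat_lit 170) r9_32 r0_170 (nat_lit 0) (nat_lit 0) (nat_lit 0) (nat_lit 0x7fec37154) (nat_lit 539516912),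
  Rx.mk (nat_lit 484) (nat_lit 4) (nat_lit 4) (nat_lit 7) (nat_lit 4) (nat_lit 25) (nat_lit 161) r9_25 r0_161 (nat_lit 15232789) (nat_lit 15320849) (nat_lit 0) (nat_lit 0x58679699e) (nat_lit 1208372050),
  Rx.mk (nat_lit 486) (nat_lit 6) (nat_lit 4) (nat_lit 7) (nat_lit 5) (nat_lit 33) (nat_lit 167) r9_33 r0_167 (nat_lit 0) (nat_lit 23123952) (nat_lit 0) (nat_lit 0x800002f3a) (nat_lit 561432214),
  Rx.mk (nat_lit 487) (nat_lit 7) (nat_lit 4) (nat_lit 7) (nat_lit 5) (nat_lit 37) (nat_lit 164) r9_37 r0_164 (nat_lit 0) (nat_lit 24266921) (nat_lit 0) (nat_lit 0x771d50316) (nat_lit 705582633),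
  Rx.mk (nat_lit 492) (nat_lit 4) (nat_lit 5) (nat_lit 7) (nat_lit 6) (nat_lit 26) (nat_lit 162) r9_26 r0_162 (nat_lit 24075478) (nat_lit 0) (nat_lit 0) (nat_lit 0x769019b32) (nat_lit 714298390),
  Rx.mk (nat_lit 493) (nat_lit 5) (nat_lit 5) (nat_lit 7) (nat_lit 7) (nat_lit 28) (nat_lit 163) r9_28 r0_163 (nat_lit 0) (nat_lit 0) (nat_lit 0) (nat_lit 0x7feb1ffb4) (nat_lit 539592162),
  Rx.mk (nat_lit 494) (nat_lit 6) (nat_lit 5) (nat_lit 7) (nat_lit 7) (nat_lit 34) (nat_lit 168) r9_34 r0_168 (nat_lit 0) (nat_lit 0) (nat_lit 0) (nat_lit 0x8017985b4) (nat_lit 536870912),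
  Rx.mk (nat_lit 495) (nat_lit 7) (nat_lit 5) (nat_lit 7) (nat_lit 7) (nat_lit 38) (nat_lit 165) r9_38 r0_165 (nat_lit 0) (nat_lit 0) (nat_lit 0) (nat_lit 0x7fee77a72) (nat_lit 539388362),
  Rx.mk (nat_lit 502) (nat_lit 6) (nat_lit 6) (nat_lit 7) (nat_lit 7) (nat_lit 35) (nat_lit 169) r9_35 r0_169 (nat_lit 0) (nat_lit 0) (nat_lit 0) (nat_lit 0x8017985b4) (nat_lit 536870912),
  Rx.mk (nat_lit 511) (nat_lit 7) (nat_lit 7) (nat_lit 7) (nat_lit 7) (nat_lit 39) (nat_lit 166) r9_39 r0_166 (nat_lit 0) (nat_lit 0) (nat_lit 0) (nat_lit 0x8002decd6) (nat_lit 538139162)]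
noncomputable def e48_23 : List Rx := [
  Rx.mk (nat_lit 255) (nat_lit 7) (nat_lit 7) (nat_lit 3) (nat_lit 7) (nat_lit 47) (nat_lit 169) r9_47 r1_169 (nat_lit 0) (nat_lit 0) (nat_lit 0) (nat_lit 0x8017985b4) (nat_lit 536870912),
  Rx.mk (nat_lit 292) (nat_lit 4) (nat_lit 4) (nat_lit 4) (nat_lit 0) (nat_lit 40) (nat_lit 170) r9_40 r1_170 (nat_lit 49328540) (nat_lit 24261554) (nat_lit 56659484) (nat_lit 0x3f56488d6) (nat_lit 1713461290),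
  Rx.mk (nat_lit 294) (nat_lit 6) (nat_lit 4) (nat_lit 4) (nat_lit 1) (nat_lit 42) (nat_lit 171) r9_42 r1_171 (nat_lit 0) (nat_lit 26252196) (nat_lit 43212165) (nat_lit 0x6d3fdbff2) (nat_lit 910271473),
  Rx.mk (nat_lit 310) (nat_lit 6) (nat_lit 6) (nat_lit 4) (nat_lit 3) (nat_lit 43) (nat_lit 172) r9_43 r1_172 (nat_lit 0) (nat_lit 0) (nat_lit 35087009) (nat_lit 0x7eb627b3c) (nat_lit 593834521),
  Rx.mk (nat_lit 438) (nat_lit 6) (nat_lit 6) (nat_lit 6) (nat_lit 7) (nat_lit 44) (nat_lit 178) r9_44 r1_178 (nat_lit 0) (nat_lit 0) (nat_lit 0) (nat_lit 0x7ed9f7242) (nat_lit 556534462),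
  Rx.mk (nat_lit 484) (nat_lit 4) (nat_lit 4) (nat_lit 7) (nat_lit 4) (nat_lit 41) (nat_lit 173) r9_41 r1_173 (nat_lit 32551245) (nat_lit 27290911) (nat_lit 0) (nat_lit 0x6e1360b66) (nat_lit 887289868),
  Rx.mk (nat_lit 486) (nat_lit 6) (nat_lit 4) (nat_lit 7) (nat_lit 5) (nat_lit 45) (nat_lit 176) r9_45 r1_176 (nat_lit 0) (nat_lit 24741287) (nat_lit 0) (nat_lit 0x8017985b4) (nat_lit 561612199),
  Rx.mk (nat_lit 487) (nat_lit 7) (nat_lit 4) (nat_lit 7) (nat_lit 5) (nat_lit 48) (nat_lit 174) r9_48 r1_174 (nat_lit 0) (nat_lit 24741287) (nat_lit 0) (nat_lit 0x8004104a6) (nat_lit 562806149),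
  Rx.mk (nat_lit 502) (nat_lit 6) (nat_lit 6) (nat_lit 7) (nat_lit 7) (nat_lit 46) (nat_lit 177) r9_46 r1_177 (nat_lit 0) (nat_lit 0) (nat_lit 0) (nat_lit 0x8017985b4) (nat_lit 536870912),
  Rx.mk (nat_lit 511) (nat_lit 7) (nat_lit 7) (nat_lit 7) (nat_lit 7) (nat_lit 49) (nat_lit 175) r9_49 r1_175 (nat_lit 0) (nat_lit 0) (nat_lit 0) (nat_lit 0x8017985b4) (nat_lit 536870912)]
noncomputable def e48_24 : List Rx := [
  Rx.mk (nat_lit 231) (nat_lit 7) (nat_lit 4) (nat_lit 3) (nat_lit 5) (nat_lit 56) (nat_lit 144) r9_56 r4_144 (nat_lit 0) (nat_lit 24741287) (nat_lit 0) (nat_lit 0x8017985b4) (nat_lit 561612199),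
  Rx.mk (nat_lit 239) (nat_lit 7) (nat_lit 5) (nat_lit 3) (nat_lit 7) (nat_lit 57) (nat_lit 145) r9_57 r4_145 (nat_lit 0) (nat_lit 0) (nat_lit 0) (nat_lit 0x8017985b4) (nat_lit 536870912),
  Rx.mk (nat_lit 255) (nat_lit 7) (nat_lit 7) (nat_lit 3) (nat_lit 7) (nat_lit 58) (nat_lit 146) r9_58 r4_146 (nat_lit 0) (nat_lit 0) (nat_lit 0) (nat_lit 0x8017985b4) (nat_lit 536870912),
  Rx.mk (nat_lit 484) (nat_lit 4) (nat_lit 4) (nat_lit 7) (nat_lit 4) (nat_lit 50) (nat_lit 147) r9_50 r4_147 (nat_lit 18784265) (nat_lit 16343874) (nat_lit 0) (nat_lit 0x65a8d64ce) (nat_lit 998625001),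
  Rx.mk (nat_lit 486) (nat_lit 6) (nat_lit 4) (nat_lit 7) (nat_lit 5) (nat_lit 53) (nat_lit 152) r9_53 r4_152 (nat_lit 0) (nat_lit 24741287) (nat_lit 0) (nat_lit 0x8017985b4) (nat_lit 561612199),
  Rx.mk (nat_lit 487) (nat_lit 7) (nat_lit 4) (nat_lit 7) (nat_lit 5) (nat_lit 59) (nat_lit 150) r9_59 r4_150 (nat_lit 0) (nat_lit 24741287) (nat_lit 0) (nat_lit 0x7ff8b06c4) (nat_lit 563504749),
  Rx.mk (nat_lit 492) (nat_lit 4) (nat_lit 5) (nat_lit 7) (nat_lit 6) (nat_lit 51) (nat_lit 148) r9_51 r4_148 (nat_lit 24741287) (nat_lit 0) (nat_lit 0) (nat_lit 0x8017985b4) (nat_lit 561612199),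
  Rx.mk (nat_lit 493) (nat_lit 5) (nat_lit 5) (nat_lit 7) (nat_lit 7) (nat_lit 52) (nat_lit 149) r9_52 r4_149 (nat_lit 0) (nat_lit 0) (nat_lit 0) (nat_lit 0x8017985b4) (nat_lit 536870912),
  Rx.mk (nat_lit 494) (nat_lit 6) (nat_lit 5) (nat_lit 7) (nat_lit 7) (nat_lit 54) (nat_lit 153) r9_54 r4_153 (nat_lit 0) (nat_lit 0) (nat_lit 0) (nat_lit 0x8017985b4) (nat_lit 536870912),
  Rx.mk (nat_lit 495) (nat_lit 7) (nat_lit 5) (nat_lit 7) (nat_lit 7) (nat_lit 60) (nat_lit 151) r9_60 r4_151 (nat_lit 0) (nat_lit 0) (nat_lit 0) (nat_lit 0x8017985b4) (nat_lit 536870912),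
  Rx.mk (nat_lit 502) (nat_lit 6) (nat_lit 6) (nat_lit 7) (nat_lit 7) (nat_lit 55) (nat_lit 154) r9_55 r4_154 (nat_lit 0) (nat_lit 0) (nat_lit 0) (nat_lit 0x8017985b4) (nat_lit 536870912)]
noncomputable def e48_25 : List Rx := [
  Rx.mk (nat_lit 292) (nat_lit 4) (nat_lit 4) (nat_lit 4) (nat_lit 0) (nat_lit 170) (nat_lit 353) r9_170 r7_353 (nat_lit 25638298) (nat_lit 13837945) (nat_lit 19525038) (nat_lit 0x3a3a221ac) (nat_lit 1724813643),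
  Rx.mk (nat_lit 294) (nat_lit 6) (nat_lit 4) (nat_lit 4) (nat_lit 1) (nat_lit 176) (nat_lit 356) r9_176 r7_356 (nat_lit 0) (nat_lit 30412328) (nat_lit 22236043) (nat_lit 0x6db23206a) (nat_lit 886234833),
  Rx.mk (nat_lit 300) (nat_lit 4) (nat_lit 5) (nat_lit 4) (nat_lit 2) (nat_lit 171) (nat_lit 357) r9_171 r7_357 (nat_lit 50988633) (nat_lit 0) (nat_lit 35325188) (nat_lit 0x657b86a96) (nat_lit 1052706133),
  Rx.mk (nat_lit 301) (nat_lit 5) (nat_lit 5) (nat_lit 4) (nat_lit 3) (nat_lit 174) (nat_lit 359) r9_174 r7_359 (nat_lit 0) (nat_lit 0) (nat_lit 24741287) (nat_lit 0x8017985b4) (nat_lit 561612199),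
  Rx.mk (nat_lit 302) (nat_lit 6) (nat_lit 5) (nat_lit 4) (nat_lit 3) (nat_lit 177) (nat_lit 362) r9_177 r7_362 (nat_lit 0) (nat_lit 0) (nat_lit 24741287) (nat_lit 0x8017985b4) (nat_lit 561612199),
  Rx.mk (nat_lit 310) (nat_lit 6) (nat_lit 6) (nat_lit 4) (nat_lit 3) (nat_lit 178) (nat_lit 364) r9_178 r7_364 (nat_lit 0) (nat_lit 0) (nat_lit 24741287) (nat_lit 0x8017985b4) (nat_lit 561612199),
  Rx.mk (nat_lit 438) (nat_lit 6) (nat_lit 6) (nat_lit 6) (nat_lit 7) (nat_lit 179) (nat_lit 365) r9_179 r7_365 (nat_lit 0) (nat_lit 0) (nat_lit 0) (nat_lit 0x8017985b4) (nat_lit 536870912),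
  Rx.mk (nat_lit 484) (nat_lit 4) (nat_lit 4) (nat_lit 7) (nat_lit 4) (nat_lit 172) (nat_lit 354) r9_172 r7_354 (nat_lit 30361877) (nat_lit 38278625) (nat_lit 0) (nat_lit 0x697120ad0) (nat_lit 971010514),
  Rx.mk (nat_lit 487) (nat_lit 7) (nat_lit 4) (nat_lit 7) (nat_lit 5) (nat_lit 180) (nat_lit 355) r9_180 r7_355 (nat_lit 0) (nat_lit 24741287) (nat_lit 0) (nat_lit 0x8017985b4) (nat_lit 561612199),
  Rx.mk (nat_lit 492) (nat_lit 4) (nat_lit 5) (nat_lit 7) (nat_lit 6) (nat_lit 173) (nat_lit 358) r9_173 r7_358 (nat_lit 24741287) (nat_lit 0) (nat_lit 0) (nat_lit 0x800c2759a) (nat_lit 562311049),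
  Rx.mk (nat_lit 493) (nat_lit 5) (nat_lit 5) (nat_lit 7) (nat_lit 7) (nat_lit 175) (nat_lit 360) r9_175 r7_360 (nat_lit 0) (nat_lit 0) (nat_lit 0) (nat_lit 0x8017985b4) (nat_lit 536870912),
  Rx.mk (nat_lit 495) (nat_lit 7) (nat_lit 5) (nat_lit 7) (nat_lit 7) (nat_lit 181) (nat_lit 361) r9_181 r7_361 (nat_lit 0) (nat_lit 0) (nat_lit 0) (nat_lit 0x8017985b4) (nat_lit 536870912),
  Rx.mk (nat_lit 511) (nat_lit 7) (nat_lit 7) (nat_lit 7) (nat_lit 7) (nat_lit 182) (nat_lit 363) r9_182 r7_363 (nat_lit 0) (nat_lit 0) (nat_lit 0) (nat_lit 0x8017985b4) (nat_lit 536870912)]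
noncomputable def e48_26 : List Rx := [
  Rx.mk (nat_lit 292) (nat_lit 4) (nat_lit 4) (nat_lit 4) (nat_lit 0) (nat_lit 202) (nat_lit 266) r9_202 r8_266 (nat_lit 37514210) (nat_lit 16962537) (nat_lit 23929726) (nat_lit 0x3e09e15de) (nat_lit 1682604485),
  Rx.mk (nat_lit 294) (nat_lit 6) (nat_lit 4) (nat_lit 4) (nat_lit 1) (nat_lit 204) (nat_lit 269) r9_204 r8_269 (nat_lit 0) (nat_lit 29280147) (nat_lit 25355923) (nat_lit 0x6cdd7d4fa) (nat_lit 901656982),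
  Rx.mk (nat_lit 310) (nat_lit 6) (nat_lit 6) (nat_lit 4) (nat_lit 3) (nat_lit 205) (nat_lit 271) r9_205 r8_271 (nat_lit 0) (nat_lit 0) (nat_lit 24741287) (nat_lit 0x8017985b4) (nat_lit 561612199),
  Rx.mk (nat_lit 438) (nat_lit 6) (nat_lit 6) (nat_lit 6) (nat_lit 7) (nat_lit 206) (nat_lit 272) r9_206 r8_272 (nat_lit 0) (nat_lit 0) (nat_lit 0) (nat_lit 0x8017985b4) (nat_lit 536870912),
  Rx.mk (nat_lit 484) (nat_lit 4) (nat_lit 4) (nat_lit 7) (nat_lit 4) (nat_lit 203) (nat_lit 267) r9_203 r8_267 (nat_lit 27096766) (nat_lit 34060215) (nat_lit 0) (nat_lit 0x698596640) (nat_lit 962235943),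
  Rx.mk (nat_lit 487) (nat_lit 7) (nat_lit 4) (nat_lit 7) (nat_lit 5) (nat_lit 207) (nat_lit 268) r9_207 r8_268 (nat_lit 0) (nat_lit 24537189) (nat_lit 0) (nat_lit 0x8007ecd18) (nat_lit 562365701),
  Rx.mk (nat_lit 511) (nat_lit 7) (nat_lit 7) (nat_lit 7) (nat_lit 7) (nat_lit 208) (nat_lit 270) r9_208 r8_270 (nat_lit 0) (nat_lit 0) (nat_lit 0) (nat_lit 0x8017985b4) (nat_lit 536870912)]
noncomputable def e48_27 : List Rx := [
  Rx.mk (nat_lit 292) (nat_lit 4) (nat_lit 4) (nat_lit 4) (nat_lit 0) (nat_lit 183) (nat_lit 159) r9_183 r8_159 (nat_lit 23644808) (nat_lit 18255310) (nat_lit 27871597) (nat_lit 0x407f928e4) (nat_lit 1634185527),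
  Rx.mk (nat_lit 294) (nat_lit 6) (nat_lit 4) (nat_lit 4) (nat_lit 1) (nat_lit 192) (nat_lit 162) r9_192 r8_162 (nat_lit 0) (nat_lit 40482942) (nat_lit 28133172) (nat_lit 0x6d0747a06) (nat_lit 912998026),
  Rx.mk (nat_lit 300) (nat_lit 4) (nat_lit 5) (nat_lit 4) (nat_lit 2) (nat_lit 184) (nat_lit 160) r9_184 r8_160 (nat_lit 50716108) (nat_lit 0) (nat_lit 34699300) (nat_lit 0x6b512c18c) (nat_lit 957466070),
  Rx.mk (nat_lit 301) (nat_lit 5) (nat_lit 5) (nat_lit 4) (nat_lit 3) (nat_lit 189) (nat_lit 161) r9_189 r8_161 (nat_lit 0) (nat_lit 0) (nat_lit 25054288) (nat_lit 0x800856290) (nat_lit 562857500),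
  Rx.mk (nat_lit 302) (nat_lit 6) (nat_lit 5) (nat_lit 4) (nat_lit 3) (nat_lit 193) (nat_lit 163) r9_193 r8_163 (nat_lit 0) (nat_lit 0) (nat_lit 24741287) (nat_lit 0x8009d4ae0) (nat_lit 562452249),
  Rx.mk (nat_lit 310) (nat_lit 6) (nat_lit 6) (nat_lit 4) (nat_lit 3) (nat_lit 194) (nat_lit 164) r9_194 r8_164 (nat_lit 0) (nat_lit 0) (nat_lit 24741287) (nat_lit 0x8017985b4) (nat_lit 561612199),
  Rx.mk (nat_lit 356) (nat_lit 4) (nat_lit 4) (nat_lit 5) (nat_lit 4) (nat_lit 185) (nat_lit 165) r9_185 r8_165 (nat_lit 40805453) (nat_lit 130895702) (nat_lit 0) (nat_lit 0x7010e2518) (nat_lit 966967117),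
  Rx.mk (nat_lit 358) (nat_lit 6) (nat_lit 4) (nat_lit 5) (nat_lit 5) (nat_lit 195) (nat_lit 168) r9_195 r8_168 (nat_lit 0) (nat_lit 24741287) (nat_lit 0) (nat_lit 0x8017985b4) (nat_lit 561612199),
  Rx.mk (nat_lit 364) (nat_lit 4) (nat_lit 5) (nat_lit 5) (nat_lit 6) (nat_lit 186) (nat_lit 166) r9_186 r8_166 (nat_lit 23667545) (nat_lit 0) (nat_lit 0) (nat_lit 0x7fe4ef41e) (nat_lit 563630257),
  Rx.mk (nat_lit 365) (nat_lit 5) (nat_lit 5) (nat_lit 5) (nat_lit 7) (nat_lit 190) (nat_lit 167) r9_190 r8_167 (nat_lit 0) (nat_lit 0) (nat_lit 0) (nat_lit 0x8017985b4) (nat_lit 536870912),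
  Rx.mk (nat_lit 366) (nat_lit 6) (nat_lit 5) (nat_lit 5) (nat_lit 7) (nat_lit 196) (nat_lit 169) r9_196 r8_169 (nat_lit 0) (nat_lit 0) (nat_lit 0) (nat_lit 0x8017985b4) (nat_lit 536870912),
  Rx.mk (nat_lit 374) (nat_lit 6) (nat_lit 6) (nat_lit 5) (nat_lit 7) (nat_lit 197) (nat_lit 170) r9_197 r8_170 (nat_lit 0) (nat_lit 0) (nat_lit 0) (nat_lit 0x8017985b4) (nat_lit 536870912),
  Rx.mk (nat_lit 438) (nat_lit 6) (nat_lit 6) (nat_lit 6) (nat_lit 7) (nat_lit 198) (nat_lit 177) r9_198 r8_177 (nat_lit 0) (nat_lit 0) (nat_lit 0) (nat_lit 0x8017985b4) (nat_lit 536870912),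
  Rx.mk (nat_lit 484) (nat_lit 4) (nat_lit 4) (nat_lit 7) (nat_lit 4) (nat_lit 187) (nat_lit 171) r9_187 r8_171 (nat_lit 30134438) (nat_lit 55618136) (nat_lit 0) (nat_lit 0x6f41c019a) (nat_lit 894101936),
  Rx.mk (nat_lit 487) (nat_lit 7) (nat_lit 4) (nat_lit 7) (nat_lit 5) (nat_lit 199) (nat_lit 174) r9_199 r8_174 (nat_lit 0) (nat_lit 24741287) (nat_lit 0) (nat_lit 0x8017985b4) (nat_lit 561612199),
  Rx.mk (nat_lit 492) (nat_lit 4) (nat_lit 5) (nat_lit 7) (nat_lit 6) (nat_lit 188) (nat_lit 172) r9_188 r8_172 (nat_lit 24741287) (nat_lit 0) (nat_lit 0) (nat_lit 0x8017985b4) (nat_lit 561612199),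
  Rx.mk (nat_lit 493) (nat_lit 5) (nat_lit 5) (nat_lit 7) (nat_lit 7) (nat_lit 191) (nat_lit 173) r9_191 r8_173 (nat_lit 0) (nat_lit 0) (nat_lit 0) (nat_lit 0x8017985b4) (nat_lit 536870912),
  Rx.mk (nat_lit 495) (nat_lit 7) (nat_lit 5) (nat_lit 7) (nat_lit 7) (nat_lit 200) (nat_lit 175) r9_200 r8_175 (nat_lit 0) (nat_lit 0) (nat_lit 0) (nat_lit 0x8017985b4) (nat_lit 536870912),
  Rx.mk (nat_lit 511) (nat_lit 7) (nat_lit 7) (nat_lit 7) (nat_lit 7) (nat_lit 201) (nat_lit 176) r9_201 r8_176 (nat_lit 0) (nat_lit 0) (nat_lit 0) (nat_lit 0x8017985b4) (nat_lit 536870912)]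
noncomputable def e48_28 : List Rx := [
  Rx.mk (nat_lit 484) (nat_lit 4) (nat_lit 4) (nat_lit 7) (nat_lit 4) (nat_lit 209) (nat_lit 299) r9_209 r10_299 (nat_lit 34942940) (nat_lit 65106199) (nat_lit 0) (nat_lit 0x66b1feea6) (nat_lit 1046829251),
  Rx.mk (nat_lit 487) (nat_lit 7) (nat_lit 4) (nat_lit 7) (nat_lit 5) (nat_lit 212) (nat_lit 300) r9_212 r10_300 (nat_lit 0) (nat_lit 24741287) (nat_lit 0) (nat_lit 0x8017985b4) (nat_lit 561612199),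
  Rx.mk (nat_lit 492) (nat_lit 4) (nat_lit 5) (nat_lit 7) (nat_lit 6) (nat_lit 210) (nat_lit 301) r9_210 r10_301 (nat_lit 25290688) (nat_lit 0) (nat_lit 0) (nat_lit 0x800987e2a) (nat_lit 563020650),
  Rx.mk (nat_lit 493) (nat_lit 5) (nat_lit 5) (nat_lit 7) (nat_lit 7) (nat_lit 211) (nat_lit 302) r9_211 r10_302 (nat_lit 0) (nat_lit 0) (nat_lit 0) (nat_lit 0x8017985b4) (nat_lit 536870912),
  Rx.mk (nat_lit 495) (nat_lit 7) (nat_lit 5) (nat_lit 7) (nat_lit 7) (nat_lit 213) (nat_lit 303) r9_213 r10_303 (nat_lit 0) (nat_lit 0) (nat_lit 0) (nat_lit 0x8017985b4) (nat_lit 536870912)]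
noncomputable def e48_29 : List Rx := [
  Rx.mk (nat_lit 228) (nat_lit 4) (nat_lit 4) (nat_lit 3) (nat_lit 4) (nat_lit 229) (nat_lit 319) r9_229 r11_319 (nat_lit 47287016) (nat_lit 47287016) (nat_lit 0) (nat_lit 0x7cbaf48b0) (nat_lit 685204344),
  Rx.mk (nat_lit 231) (nat_lit 7) (nat_lit 4) (nat_lit 3) (nat_lit 5) (nat_lit 238) (nat_lit 320) r9_238 r11_320 (nat_lit 0) (nat_lit 24741287) (nat_lit 0) (nat_lit 0x8017985b4) (nat_lit 561612199),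
  Rx.mk (nat_lit 236) (nat_lit 4) (nat_lit 5) (nat_lit 3) (nat_lit 6) (nat_lit 230) (nat_lit 323) r9_230 r11_323 (nat_lit 24741287) (nat_lit 0) (nat_lit 0) (nat_lit 0x8017985b4) (nat_lit 561612199),
  Rx.mk (nat_lit 237) (nat_lit 5) (nat_lit 5) (nat_lit 3) (nat_lit 7) (nat_lit 233) (nat_lit 325) r9_233 r11_325 (nat_lit 0) (nat_lit 0) (nat_lit 0) (nat_lit 0x8017985b4) (nat_lit 536870912),
  Rx.mk (nat_lit 239) (nat_lit 7) (nat_lit 5) (nat_lit 3) (nat_lit 7) (nat_lit 239) (nat_lit 326) r9_239 r11_326 (nat_lit 0) (nat_lit 0) (nat_lit 0) (nat_lit 0x8017985b4) (nat_lit 536870912),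
  Rx.mk (nat_lit 255) (nat_lit 7) (nat_lit 7) (nat_lit 3) (nat_lit 7) (nat_lit 240) (nat_lit 328) r9_240 r11_328 (nat_lit 0) (nat_lit 0) (nat_lit 0) (nat_lit 0x8017985b4) (nat_lit 536870912),
  Rx.mk (nat_lit 484) (nat_lit 4) (nat_lit 4) (nat_lit 7) (nat_lit 4) (nat_lit 231) (nat_lit 318) r9_231 r11_318 (nat_lit 43848106) (nat_lit 43672610) (nat_lit 0) (nat_lit 0x78800f28a) (nat_lit 746426178),
  Rx.mk (nat_lit 486) (nat_lit 6) (nat_lit 4) (nat_lit 7) (nat_lit 5) (nat_lit 235) (nat_lit 321) r9_235 r11_321 (nat_lit 0) (nat_lit 24741287) (nat_lit 0) (nat_lit 0x8017985b4) (nat_lit 561612199),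
  Rx.mk (nat_lit 492) (nat_lit 4) (nat_lit 5) (nat_lit 7) (nat_lit 6) (nat_lit 232) (nat_lit 322) r9_232 r11_322 (nat_lit 24741287) (nat_lit 0) (nat_lit 0) (nat_lit 0x8017985b4) (nat_lit 561612199),
  Rx.mk (nat_lit 493) (nat_lit 5) (nat_lit 5) (nat_lit 7) (nat_lit 7) (nat_lit 234) (nat_lit 324) r9_234 r11_324 (nat_lit 0) (nat_lit 0) (nat_lit 0) (nat_lit 0x8017985b4) (nat_lit 536870912),
  Rx.mk (nat_lit 494) (nat_lit 6) (nat_lit 5) (nat_lit 7) (nat_lit 7) (nat_lit 236) (nat_lit 327) r9_236 r11_327 (nat_lit 0) (nat_lit 0) (nat_lit 0) (nat_lit 0x8017985b4) (nat_lit 536870912),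
  Rx.mk (nat_lit 502) (nat_lit 6) (nat_lit 6) (nat_lit 7) (nat_lit 7) (nat_lit 237) (nat_lit 329) r9_237 r11_329 (nat_lit 0) (nat_lit 0) (nat_lit 0) (nat_lit 0x8017985b4) (nat_lit 536870912)]
noncomputable def e48_30 : List Rx := [
  Rx.mk (nat_lit 13) (nat_lit 5) (nat_lit 1) (nat_lit 0) (nat_lit 3) (nat_lit 324) (nat_lit 290) r9_324 r5_290 (nat_lit 0) (nat_lit 0) (nat_lit 26942027) (nat_lit 0x7e5860594) (nat_lit 591515239),
  Rx.mk (nat_lit 77) (nat_lit 5) (nat_lit 1) (nat_lit 1) (nat_lit 7) (nat_lit 325) (nat_lit 291) r9_325 r5_291 (nat_lit 0) (nat_lit 0) (nat_lit 0) (nat_lit 0x7ff2ca070) (nat_lit 539127012),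
  Rx.mk (nat_lit 205) (nat_lit 5) (nat_lit 1) (nat_lit 3) (nat_lit 7) (nat_lit 326) (nat_lit 292) r9_326 r5_292 (nat_lit 0) (nat_lit 0) (nat_lit 0) (nat_lit 0x8017985b4) (nat_lit 536870912)]
noncomputable def e48_31 : List Rx := [
  Rx.mk (nat_lit 77) (nat_lit 5) (nat_lit 1) (nat_lit 1) (nat_lit 7) (nat_lit 327) (nat_lit 350) r9_327 r11_350 (nat_lit 0) (nat_lit 0) (nat_lit 0) (nat_lit 0x8017985b4) (nat_lit 536870912)]
noncomputable def e48_32 : List Rx := [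
  Rx.mk (nat_lit 207) (nat_lit 7) (nat_lit 1) (nat_lit 3) (nat_lit 7) (nat_lit 61) (nat_lit 127) r9_61 r6_127 (nat_lit 0) (nat_lit 0) (nat_lit 0) (nat_lit 0x8017985b4) (nat_lit 536870912),
  Rx.mk (nat_lit 239) (nat_lit 7) (nat_lit 5) (nat_lit 3) (nat_lit 7) (nat_lit 62) (nat_lit 126) r9_62 r6_126 (nat_lit 0) (nat_lit 0) (nat_lit 0) (nat_lit 0x8017985b4) (nat_lit 536870912)]
noncomputable def e48_33 : List Rx := [
  Rx.mk (nat_lit 239) (nat_lit 7) (nat_lit 5) (nat_lit 3) (nat_lit 7) (nat_lit 63) (nat_lit 150) r9_63 r5_150 (nat_lit 0) (nat_lit 0) (nat_lit 0) (nat_lit 0x8017985b4) (nat_lit 536870912),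
  Rx.mk (nat_lit 495) (nat_lit 7) (nat_lit 5) (nat_lit 7) (nat_lit 7) (nat_lit 64) (nat_lit 151) r9_64 r5_151 (nat_lit 0) (nat_lit 0) (nat_lit 0) (nat_lit 0x7ffc47724) (nat_lit 538543512)]
noncomputable def e48_34 : List Rx := [
  Rx.mk (nat_lit 495) (nat_lit 7) (nat_lit 5) (nat_lit 7) (nat_lit 7) (nat_lit 214) (nat_lit 164) r9_214 r11_164 (nat_lit 0) (nat_lit 0) (nat_lit 0) (nat_lit 0x8017985b4) (nat_lit 536870912)]
noncomputable def e48_35 : List Rx := [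
  Rx.mk (nat_lit 204) (nat_lit 4) (nat_lit 1) (nat_lit 3) (nat_lit 6) (nat_lit 241) (nat_lit 295) r9_241 r6_295 (nat_lit 25123569) (nat_lit 0) (nat_lit 0) (nat_lit 0x7f345289a) (nat_lit 575983031),
  Rx.mk (nat_lit 205) (nat_lit 5) (nat_lit 1) (nat_lit 3) (nat_lit 7) (nat_lit 242) (nat_lit 296) r9_242 r6_296 (nat_lit 0) (nat_lit 0) (nat_lit 0) (nat_lit 0x8017985b4) (nat_lit 536870912),
  Rx.mk (nat_lit 207) (nat_lit 7) (nat_lit 1) (nat_lit 3) (nat_lit 7) (nat_lit 243) (nat_lit 297) r9_243 r6_297 (nat_lit 0) (nat_lit 0) (nat_lit 0) (nat_lit 0x8017985b4) (nat_lit 536870912)]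
noncomputable def e48_36 : List Rx := [
  Rx.mk (nat_lit 204) (nat_lit 4) (nat_lit 1) (nat_lit 3) (nat_lit 6) (nat_lit 244) (nat_lit 376) r9_244 r12_376 (nat_lit 25288573) (nat_lit 0) (nat_lit 0) (nat_lit 0x7f59c63d8) (nat_lit 573834985),
  Rx.mk (nat_lit 205) (nat_lit 5) (nat_lit 1) (nat_lit 3) (nat_lit 7) (nat_lit 245) (nat_lit 377) r9_245 r12_377 (nat_lit 0) (nat_lit 0) (nat_lit 0) (nat_lit 0x8017985b4) (nat_lit 536870912),
  Rx.mk (nat_lit 207) (nat_lit 7) (nat_lit 1) (nat_lit 3) (nat_lit 7) (nat_lit 246) (nat_lit 378) r9_246 r12_378 (nat_lit 0) (nat_lit 0) (nat_lit 0) (nat_lit 0x8017985b4) (nat_lit 536870912),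
  Rx.mk (nat_lit 239) (nat_lit 7) (nat_lit 5) (nat_lit 3) (nat_lit 7) (nat_lit 247) (nat_lit 379) r9_247 r12_379 (nat_lit 0) (nat_lit 0) (nat_lit 0) (nat_lit 0x8017985b4) (nat_lit 536870912)]
noncomputable def e48_37 : List Rx := [
  Rx.mk (nat_lit 223) (nat_lit 7) (nat_lit 3) (nat_lit 3) (nat_lit 7) (nat_lit 0) (nat_lit 141) r9_0 r0_141 (nat_lit 0) (nat_lit 0) (nat_lit 0) (nat_lit 0x7fe34c40e) (nat_lit 540076362)]
noncomputable def e48_38 : List Rx := [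
  Rx.mk (nat_lit 8) (nat_lit 0) (nat_lit 1) (nat_lit 0) (nat_lit 2) (nat_lit 65) (nat_lit 262) r9_65 r0_262 (nat_lit 35271211) (nat_lit 0) (nat_lit 111519439) (nat_lit 0x580e92528) (nat_lit 1330276712),
  Rx.mk (nat_lit 11) (nat_lit 3) (nat_lit 1) (nat_lit 0) (nat_lit 3) (nat_lit 66) (nat_lit 263) r9_66 r0_263 (nat_lit 0) (nat_lit 0) (nat_lit 42181634) (nat_lit 0x7bc61b1a4) (nat_lit 648220246),
  Rx.mk (nat_lit 203) (nat_lit 3) (nat_lit 1) (nat_lit 3) (nat_lit 7) (nat_lit 67) (nat_lit 264) r9_67 r0_264 (nat_lit 0) (nat_lit 0) (nat_lit 0) (nat_lit 0x7fcef5a96) (nat_lit 541322112)]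
noncomputable def e48_39 : List Rx := [
  Rx.mk (nat_lit 0) (nat_lit 0) (nat_lit 0) (nat_lit 0) (nat_lit 0) (nat_lit 68) (nat_lit 161) r9_68 r7_161 (nat_lit 12174851) (nat_lit 12221267) (nat_lit 53728367) (nat_lit 0x38c2f41c6) (nat_lit 1767626247),
  Rx.mk (nat_lit 3) (nat_lit 3) (nat_lit 0) (nat_lit 0) (nat_lit 1) (nat_lit 74) (nat_lit 166) r9_74 r7_166 (nat_lit 0) (nat_lit 27374180) (nat_lit 24913710) (nat_lit 0x629c47274) (nat_lit 1065121602),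
  Rx.mk (nat_lit 8) (nat_lit 0) (nat_lit 1) (nat_lit 0) (nat_lit 2) (nat_lit 69) (nat_lit 162) r9_69 r7_162 (nat_lit 28898569) (nat_lit 0) (nat_lit 49319051) (nat_lit 0x6539461d6) (nat_lit 1048798182),
  Rx.mk (nat_lit 11) (nat_lit 3) (nat_lit 1) (nat_lit 0) (nat_lit 3) (nat_lit 75) (nat_lit 167) r9_75 r7_167 (nat_lit 0) (nat_lit 0) (nat_lit 24624079) (nat_lit 0x8009fe8fe) (nat_lit 562326791),
  Rx.mk (nat_lit 128) (nat_lit 0) (nat_lit 0) (nat_lit 2) (nat_lit 4) (nat_lit 70) (nat_lit 163) r9_70 r7_163 (nat_lit 23888514) (nat_lit 25388524) (nat_lit 0) (nat_lit 0x66b5a08de) (nat_lit 995832150),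
  Rx.mk (nat_lit 131) (nat_lit 3) (nat_lit 0) (nat_lit 2) (nat_lit 5) (nat_lit 76) (nat_lit 171) r9_76 r7_171 (nat_lit 0) (nat_lit 24741287) (nat_lit 0) (nat_lit 0x80064b5b8) (nat_lit 562671499),
  Rx.mk (nat_lit 136) (nat_lit 0) (nat_lit 1) (nat_lit 2) (nat_lit 6) (nat_lit 71) (nat_lit 164) r9_71 r7_164 (nat_lit 24741287) (nat_lit 0) (nat_lit 0) (nat_lit 0x7fff7117a) (nat_lit 563091449),
  Rx.mk (nat_lit 139) (nat_lit 3) (nat_lit 1) (nat_lit 2) (nat_lit 7) (nat_lit 77) (nat_lit 172) r9_77 r7_172 (nat_lit 0) (nat_lit 0) (nat_lit 0) (nat_lit 0x8017985b4) (nat_lit 536870912),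
  Rx.mk (nat_lit 144) (nat_lit 0) (nat_lit 2) (nat_lit 2) (nat_lit 6) (nat_lit 72) (nat_lit 165) r9_72 r7_165 (nat_lit 24741287) (nat_lit 0) (nat_lit 0) (nat_lit 0x800788c14) (nat_lit 562595399),
  Rx.mk (nat_lit 146) (nat_lit 2) (nat_lit 2) (nat_lit 2) (nat_lit 7) (nat_lit 73) (nat_lit 174) r9_73 r7_174 (nat_lit 0) (nat_lit 0) (nat_lit 0) (nat_lit 0x8017985b4) (nat_lit 536870912),
  Rx.mk (nat_lit 147) (nat_lit 3) (nat_lit 2) (nat_lit 2) (nat_lit 7) (nat_lit 78) (nat_lit 173) r9_78 r7_173 (nat_lit 0) (nat_lit 0) (nat_lit 0) (nat_lit 0x8017985b4) (nat_lit 536870912),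
  Rx.mk (nat_lit 195) (nat_lit 3) (nat_lit 0) (nat_lit 3) (nat_lit 5) (nat_lit 79) (nat_lit 168) r9_79 r7_168 (nat_lit 0) (nat_lit 24741287) (nat_lit 0) (nat_lit 0x7fe3cd14e) (nat_lit 564781099),
  Rx.mk (nat_lit 203) (nat_lit 3) (nat_lit 1) (nat_lit 3) (nat_lit 7) (nat_lit 80) (nat_lit 169) r9_80 r7_169 (nat_lit 0) (nat_lit 0) (nat_lit 0) (nat_lit 0x8017985b4) (nat_lit 536870912),
  Rx.mk (nat_lit 219) (nat_lit 3) (nat_lit 3) (nat_lit 3) (nat_lit 7) (nat_lit 81) (nat_lit 170) r9_81 r7_170 (nat_lit 0) (nat_lit 0) (nat_lit 0) (nat_lit 0x8017985b4) (nat_lit 536870912),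
  Rx.mk (nat_lit 223) (nat_lit 7) (nat_lit 3) (nat_lit 3) (nat_lit 7) (nat_lit 82) (nat_lit 160) r9_82 r7_160 (nat_lit 0) (nat_lit 0) (nat_lit 0) (nat_lit 0x8017985b4) (nat_lit 536870912)]
noncomputable def e48_40 : List Rx := [
  Rx.mk (nat_lit 8) (nat_lit 0) (nat_lit 1) (nat_lit 0) (nat_lit 2) (nat_lit 260) (nat_lit 289) r9_260 r2_289 (nat_lit 67893355) (nat_lit 0) (nat_lit 40876841) (nat_lit 0x6a127e06c) (nat_lit 1000948958),
  Rx.mk (nat_lit 9) (nat_lit 1) (nat_lit 1) (nat_lit 0) (nat_lit 3) (nat_lit 262) (nat_lit 290) r9_262 r2_290 (nat_lit 0) (nat_lit 0) (nat_lit 24603401) (nat_lit 0x8007974d0) (nat_lit 562452963),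
  Rx.mk (nat_lit 73) (nat_lit 1) (nat_lit 1) (nat_lit 1) (nat_lit 7) (nat_lit 263) (nat_lit 291) r9_263 r2_291 (nat_lit 0) (nat_lit 0) (nat_lit 0) (nat_lit 0x8017985b4) (nat_lit 536870912),
  Rx.mk (nat_lit 200) (nat_lit 0) (nat_lit 1) (nat_lit 3) (nat_lit 6) (nat_lit 261) (nat_lit 292) r9_261 r2_292 (nat_lit 24741287) (nat_lit 0) (nat_lit 0) (nat_lit 0x8017985b4) (nat_lit 561612199),
  Rx.mk (nat_lit 201) (nat_lit 1) (nat_lit 1) (nat_lit 3) (nat_lit 7) (nat_lit 264) (nat_lit 293) r9_264 r2_293 (nat_lit 0) (nat_lit 0) (nat_lit 0) (nat_lit 0x8017985b4) (nat_lit 536870912),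
  Rx.mk (nat_lit 203) (nat_lit 3) (nat_lit 1) (nat_lit 3) (nat_lit 7) (nat_lit 265) (nat_lit 294) r9_265 r2_294 (nat_lit 0) (nat_lit 0) (nat_lit 0) (nat_lit 0x8017985b4) (nat_lit 536870912)]
noncomputable def e48_41 : List Rx := [
  Rx.mk (nat_lit 0) (nat_lit 0) (nat_lit 0) (nat_lit 0) (nat_lit 0) (nat_lit 267) (nat_lit 267) r9_267 r9_267 (nat_lit 19947850) (nat_lit 19947850) (nat_lit 112948378) (nat_lit 0x42f38d800) (nat_lit 1677613190),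
  Rx.mk (nat_lit 1) (nat_lit 1) (nat_lit 0) (nat_lit 0) (nat_lit 1) (nat_lit 274) (nat_lit 268) r9_274 r9_268 (nat_lit 0) (nat_lit 58482756) (nat_lit 36644786) (nat_lit 0x665409c74) (nat_lit 1047842904),
  Rx.mk (nat_lit 8) (nat_lit 0) (nat_lit 1) (nat_lit 0) (nat_lit 2) (nat_lit 268) (nat_lit 274) r9_268 r9_274 (nat_lit 58482756) (nat_lit 0) (nat_lit 36644786) (nat_lit 0x665409c74) (nat_lit 1047842904),
  Rx.mk (nat_lit 9) (nat_lit 1) (nat_lit 1) (nat_lit 0) (nat_lit 3) (nat_lit 275) (nat_lit 275) r9_275 r9_275 (nat_lit 0) (nat_lit 0) (nat_lit 24741287) (nat_lit 0x8017985b4) (nat_lit 561612199),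
  Rx.mk (nat_lit 73) (nat_lit 1) (nat_lit 1) (nat_lit 1) (nat_lit 7) (nat_lit 276) (nat_lit 276) r9_276 r9_276 (nat_lit 0) (nat_lit 0) (nat_lit 0) (nat_lit 0x8017985b4) (nat_lit 536870912),
  Rx.mk (nat_lit 128) (nat_lit 0) (nat_lit 0) (nat_lit 2) (nat_lit 4) (nat_lit 269) (nat_lit 272) r9_269 r9_272 (nat_lit 40541115) (nat_lit 33468687) (nat_lit 0) (nat_lit 0x6c692da82) (nat_lit 928375014),
  Rx.mk (nat_lit 129) (nat_lit 1) (nat_lit 0) (nat_lit 2) (nat_lit 5) (nat_lit 277) (nat_lit 273) r9_277 r9_273 (nat_lit 0) (nat_lit 24741287) (nat_lit 0) (nat_lit 0x8017985b4) (nat_lit 561612199),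
  Rx.mk (nat_lit 136) (nat_lit 0) (nat_lit 1) (nat_lit 2) (nat_lit 6) (nat_lit 270) (nat_lit 280) r9_270 r9_280 (nat_lit 24741287) (nat_lit 0) (nat_lit 0) (nat_lit 0x8017985b4) (nat_lit 561612199),
  Rx.mk (nat_lit 137) (nat_lit 1) (nat_lit 1) (nat_lit 2) (nat_lit 7) (nat_lit 278) (nat_lit 281) r9_278 r9_281 (nat_lit 0) (nat_lit 0) (nat_lit 0) (nat_lit 0x8017985b4) (nat_lit 536870912),
  Rx.mk (nat_lit 144) (nat_lit 0) (nat_lit 2) (nat_lit 2) (nat_lit 6) (nat_lit 271) (nat_lit 283) r9_271 r9_283 (nat_lit 24741287) (nat_lit 0) (nat_lit 0) (nat_lit 0x8017985b4) (nat_lit 561612199),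
  Rx.mk (nat_lit 145) (nat_lit 1) (nat_lit 2) (nat_lit 2) (nat_lit 7) (nat_lit 279) (nat_lit 284) r9_279 r9_284 (nat_lit 0) (nat_lit 0) (nat_lit 0) (nat_lit 0x8017985b4) (nat_lit 536870912),
  Rx.mk (nat_lit 146) (nat_lit 2) (nat_lit 2) (nat_lit 2) (nat_lit 7) (nat_lit 282) (nat_lit 285) r9_282 r9_285 (nat_lit 0) (nat_lit 0) (nat_lit 0) (nat_lit 0x8017985b4) (nat_lit 536870912),
  Rx.mk (nat_lit 192) (nat_lit 0) (nat_lit 0) (nat_lit 3) (nat_lit 4) (nat_lit 272) (nat_lit 269) r9_272 r9_269 (nat_lit 33468687) (nat_lit 40541115) (nat_lit 0) (nat_lit 0x6c692da82) (nat_lit 928375014),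
  Rx.mk (nat_lit 193) (nat_lit 1) (nat_lit 0) (nat_lit 3) (nat_lit 5) (nat_lit 280) (nat_lit 270) r9_280 r9_270 (nat_lit 0) (nat_lit 24741287) (nat_lit 0) (nat_lit 0x8017985b4) (nat_lit 561612199),
  Rx.mk (nat_lit 195) (nat_lit 3) (nat_lit 0) (nat_lit 3) (nat_lit 5) (nat_lit 283) (nat_lit 271) r9_283 r9_271 (nat_lit 0) (nat_lit 24741287) (nat_lit 0) (nat_lit 0x8017985b4) (nat_lit 561612199),
  Rx.mk (nat_lit 200) (nat_lit 0) (nat_lit 1) (nat_lit 3) (nat_lit 6) (nat_lit 273) (nat_lit 277) r9_273 r9_277 (nat_lit 24741287) (nat_lit 0) (nat_lit 0) (nat_lit 0x8017985b4) (nat_lit 561612199),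
  Rx.mk (nat_lit 201) (nat_lit 1) (nat_lit 1) (nat_lit 3) (nat_lit 7) (nat_lit 281) (nat_lit 278) r9_281 r9_278 (nat_lit 0) (nat_lit 0) (nat_lit 0) (nat_lit 0x8017985b4) (nat_lit 536870912),
  Rx.mk (nat_lit 203) (nat_lit 3) (nat_lit 1) (nat_lit 3) (nat_lit 7) (nat_lit 284) (nat_lit 279) r9_284 r9_279 (nat_lit 0) (nat_lit 0) (nat_lit 0) (nat_lit 0x8017985b4) (nat_lit 536870912),
  Rx.mk (nat_lit 219) (nat_lit 3) (nat_lit 3) (nat_lit 3) (nat_lit 7) (nat_lit 285) (nat_lit 282) r9_285 r9_282 (nat_lit 0) (nat_lit 0) (nat_lit 0) (nat_lit 0x8017985b4) (nat_lit 536870912)]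
noncomputable def e48_42 : List Rx := [
  Rx.mk (nat_lit 73) (nat_lit 1) (nat_lit 1) (nat_lit 1) (nat_lit 7) (nat_lit 266) (nat_lit 299) r9_266 r9_299 (nat_lit 0) (nat_lit 0) (nat_lit 0) (nat_lit 0x8017985b4) (nat_lit 536870912)]
noncomputable def e48_43 : List Rx := [
  Rx.mk (nat_lit 8) (nat_lit 0) (nat_lit 1) (nat_lit 0) (nat_lit 2) (nat_lit 83) (nat_lit 269) r9_83 r1_269 (nat_lit 34355931) (nat_lit 0) (nat_lit 134396714) (nat_lit 0x734bda226) (nat_lit 911788807),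
  Rx.mk (nat_lit 11) (nat_lit 3) (nat_lit 1) (nat_lit 0) (nat_lit 3) (nat_lit 84) (nat_lit 270) r9_84 r1_270 (nat_lit 0) (nat_lit 0) (nat_lit 24741287) (nat_lit 0x8008f717c) (nat_lit 562505199),
  Rx.mk (nat_lit 203) (nat_lit 3) (nat_lit 1) (nat_lit 3) (nat_lit 7) (nat_lit 85) (nat_lit 271) r9_85 r1_271 (nat_lit 0) (nat_lit 0) (nat_lit 0) (nat_lit 0x8017985b4) (nat_lit 536870912)]
noncomputable def e48_44 : List Rx := [
  Rx.mk (nat_lit 0) (nat_lit 0) (nat_lit 0) (nat_lit 0) (nat_lit 0) (nat_lit 86) (nat_lit 133) r9_86 r8_133 (nat_lit 17870946) (nat_lit 18637644) (nat_lit 94967087) (nat_lit 0x4127ec576) (nat_lit 1685261939),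
  Rx.mk (nat_lit 3) (nat_lit 3) (nat_lit 0) (nat_lit 0) (nat_lit 1) (nat_lit 92) (nat_lit 138) r9_92 r8_138 (nat_lit 0) (nat_lit 35165148) (nat_lit 23390390) (nat_lit 0x65db9d3f8) (nat_lit 1018879500),
  Rx.mk (nat_lit 8) (nat_lit 0) (nat_lit 1) (nat_lit 0) (nat_lit 2) (nat_lit 87) (nat_lit 134) r9_87 r8_134 (nat_lit 26394436) (nat_lit 0) (nat_lit 82173125) (nat_lit 0x6a21a438e) (nat_lit 999789173),
  Rx.mk (nat_lit 11) (nat_lit 3) (nat_lit 1) (nat_lit 0) (nat_lit 3) (nat_lit 93) (nat_lit 139) r9_93 r8_139 (nat_lit 0) (nat_lit 0) (nat_lit 24741287) (nat_lit 0x8017985b4) (nat_lit 561612199),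
  Rx.mk (nat_lit 128) (nat_lit 0) (nat_lit 0) (nat_lit 2) (nat_lit 4) (nat_lit 88) (nat_lit 135) r9_88 r8_135 (nat_lit 24700278) (nat_lit 29365924) (nat_lit 0) (nat_lit 0x6a57b692c) (nat_lit 941876114),
  Rx.mk (nat_lit 131) (nat_lit 3) (nat_lit 0) (nat_lit 2) (nat_lit 5) (nat_lit 94) (nat_lit 143) r9_94 r8_143 (nat_lit 0) (nat_lit 24489661) (nat_lit 0) (nat_lit 0x7ffa8f6de) (nat_lit 563135273),
  Rx.mk (nat_lit 136) (nat_lit 0) (nat_lit 1) (nat_lit 2) (nat_lit 6) (nat_lit 89) (nat_lit 136) r9_89 r8_136 (nat_lit 24741287) (nat_lit 0) (nat_lit 0) (nat_lit 0x8017985b4) (nat_lit 561612199),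
  Rx.mk (nat_lit 139) (nat_lit 3) (nat_lit 1) (nat_lit 2) (nat_lit 7) (nat_lit 95) (nat_lit 144) r9_95 r8_144 (nat_lit 0) (nat_lit 0) (nat_lit 0) (nat_lit 0x8017985b4) (nat_lit 536870912),
  Rx.mk (nat_lit 144) (nat_lit 0) (nat_lit 2) (nat_lit 2) (nat_lit 6) (nat_lit 90) (nat_lit 137) r9_90 r8_137 (nat_lit 24741287) (nat_lit 0) (nat_lit 0) (nat_lit 0x7fffb92e0) (nat_lit 563069249),
  Rx.mk (nat_lit 146) (nat_lit 2) (nat_lit 2) (nat_lit 2) (nat_lit 7) (nat_lit 91) (nat_lit 145) r9_91 r8_145 (nat_lit 0) (nat_lit 0) (nat_lit 0) (nat_lit 0x8017985b4) (nat_lit 536870912),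
  Rx.mk (nat_lit 195) (nat_lit 3) (nat_lit 0) (nat_lit 3) (nat_lit 5) (nat_lit 96) (nat_lit 140) r9_96 r8_140 (nat_lit 0) (nat_lit 24741287) (nat_lit 0) (nat_lit 0x8017985b4) (nat_lit 561612199),
  Rx.mk (nat_lit 203) (nat_lit 3) (nat_lit 1) (nat_lit 3) (nat_lit 7) (nat_lit 97) (nat_lit 141) r9_97 r8_141 (nat_lit 0) (nat_lit 0) (nat_lit 0) (nat_lit 0x8017985b4) (nat_lit 536870912),
  Rx.mk (nat_lit 219) (nat_lit 3) (nat_lit 3) (nat_lit 3) (nat_lit 7) (nat_lit 98) (nat_lit 142) r9_98 r8_142 (nat_lit 0) (nat_lit 0) (nat_lit 0) (nat_lit 0x8017985b4) (nat_lit 536870912)]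
noncomputable def e48_45 : List Rx := [
  Rx.mk (nat_lit 223) (nat_lit 7) (nat_lit 3) (nat_lit 3) (nat_lit 7) (nat_lit 1) (nat_lit 153) r9_1 r1_153 (nat_lit 0) (nat_lit 0) (nat_lit 0) (nat_lit 0x8017985b4) (nat_lit 536870912)]
noncomputable def e48_46 : List Rx := [
  Rx.mk (nat_lit 223) (nat_lit 7) (nat_lit 3) (nat_lit 3) (nat_lit 7) (nat_lit 11) (nat_lit 151) r9_11 r2_151 (nat_lit 0) (nat_lit 0) (nat_lit 0) (nat_lit 0x8017985b4) (nat_lit 536870912),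
  Rx.mk (nat_lit 255) (nat_lit 7) (nat_lit 7) (nat_lit 3) (nat_lit 7) (nat_lit 12) (nat_lit 150) r9_12 r2_150 (nat_lit 0) (nat_lit 0) (nat_lit 0) (nat_lit 0x8017985b4) (nat_lit 536870912),
  Rx.mk (nat_lit 292) (nat_lit 4) (nat_lit 4) (nat_lit 4) (nat_lit 0) (nat_lit 2) (nat_lit 146) r9_2 r2_146 (nat_lit 10208836) (nat_lit 9380650) (nat_lit 12054409) (nat_lit 0x4191c7aea) (nat_lit 1578696407),
  Rx.mk (nat_lit 294) (nat_lit 6) (nat_lit 4) (nat_lit 4) (nat_lit 1) (nat_lit 5) (nat_lit 152) r9_5 r2_152 (nat_lit 0) (nat_lit 28184396) (nat_lit 19348784) (nat_lit 0x6737e5402) (nat_lit 985858192),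
  Rx.mk (nat_lit 310) (nat_lit 6) (nat_lit 6) (nat_lit 4) (nat_lit 3) (nat_lit 6) (nat_lit 153) r9_6 r2_153 (nat_lit 0) (nat_lit 0) (nat_lit 23881749) (nat_lit 0x7ffacd09c) (nat_lit 562515361),
  Rx.mk (nat_lit 438) (nat_lit 6) (nat_lit 6) (nat_lit 6) (nat_lit 7) (nat_lit 7) (nat_lit 157) r9_7 r2_157 (nat_lit 0) (nat_lit 0) (nat_lit 0) (nat_lit 0x8017985b4) (nat_lit 536870912),
  Rx.mk (nat_lit 484) (nat_lit 4) (nat_lit 4) (nat_lit 7) (nat_lit 4) (nat_lit 3) (nat_lit 147) r9_3 r2_147 (nat_lit 18448465) (nat_lit 27923274) (nat_lit 0) (nat_lit 0x696412f82) (nat_lit 949568801),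
  Rx.mk (nat_lit 486) (nat_lit 6) (nat_lit 4) (nat_lit 7) (nat_lit 5) (nat_lit 8) (nat_lit 154) r9_8 r2_154 (nat_lit 0) (nat_lit 24741287) (nat_lit 0) (nat_lit 0x800e5e7c8) (nat_lit 562175649),
  Rx.mk (nat_lit 502) (nat_lit 6) (nat_lit 6) (nat_lit 7) (nat_lit 7) (nat_lit 9) (nat_lit 156) r9_9 r2_156 (nat_lit 0) (nat_lit 0) (nat_lit 0) (nat_lit 0x8017985b4) (nat_lit 536870912),
  Rx.mk (nat_lit 508) (nat_lit 4) (nat_lit 7) (nat_lit 7) (nat_lit 6) (nat_lit 4) (nat_lit 148) r9_4 r2_148 (nat_lit 24741287) (nat_lit 0) (nat_lit 0) (nat_lit 0x7f9cd5ee4) (nat_lit 569152349),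
  Rx.mk (nat_lit 510) (nat_lit 6) (nat_lit 7) (nat_lit 7) (nat_lit 7) (nat_lit 10) (nat_lit 155) r9_10 r2_155 (nat_lit 0) (nat_lit 0) (nat_lit 0) (nat_lit 0x8017985b4) (nat_lit 536870912),
  Rx.mk (nat_lit 511) (nat_lit 7) (nat_lit 7) (nat_lit 7) (nat_lit 7) (nat_lit 13) (nat_lit 149) r9_13 r2_149 (nat_lit 0) (nat_lit 0) (nat_lit 0) (nat_lit 0x8017985b4) (nat_lit 536870912)]
noncomputable def e48_47 : List Rx := [
  Rx.mk (nat_lit 0) (nat_lit 0) (nat_lit 0) (nat_lit 0) (nat_lit 0) (nat_lit 99) (nat_lit 273) r9_99 r8_273 (nat_lit 18790511) (nat_lit 15284300) (nat_lit 46447449) (nat_lit 0x3cee725c4) (nat_lit 1702614672),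
  Rx.mk (nat_lit 3) (nat_lit 3) (nat_lit 0) (nat_lit 0) (nat_lit 1) (nat_lit 103) (nat_lit 274) r9_103 r8_274 (nat_lit 0) (nat_lit 24950323) (nat_lit 23607638) (nat_lit 0x64fca11c2) (nat_lit 1022966473),
  Rx.mk (nat_lit 128) (nat_lit 0) (nat_lit 0) (nat_lit 2) (nat_lit 4) (nat_lit 100) (nat_lit 276) r9_100 r8_276 (nat_lit 23999425) (nat_lit 26650245) (nat_lit 0) (nat_lit 0x66dd7892e) (nat_lit 994688732),
  Rx.mk (nat_lit 131) (nat_lit 3) (nat_lit 0) (nat_lit 2) (nat_lit 5) (nat_lit 104) (nat_lit 277) r9_104 r8_277 (nat_lit 0) (nat_lit 24488988) (nat_lit 0) (nat_lit 0x7ff6155ae) (nat_lit 563408300),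
  Rx.mk (nat_lit 144) (nat_lit 0) (nat_lit 2) (nat_lit 2) (nat_lit 6) (nat_lit 101) (nat_lit 280) r9_101 r8_280 (nat_lit 24741287) (nat_lit 0) (nat_lit 0) (nat_lit 0x7ff1b40e6) (nat_lit 563929249),
  Rx.mk (nat_lit 146) (nat_lit 2) (nat_lit 2) (nat_lit 2) (nat_lit 7) (nat_lit 102) (nat_lit 282) r9_102 r8_282 (nat_lit 0) (nat_lit 0) (nat_lit 0) (nat_lit 0x8017985b4) (nat_lit 536870912),
  Rx.mk (nat_lit 147) (nat_lit 3) (nat_lit 2) (nat_lit 2) (nat_lit 7) (nat_lit 105) (nat_lit 281) r9_105 r8_281 (nat_lit 0) (nat_lit 0) (nat_lit 0) (nat_lit 0x8017985b4) (nat_lit 536870912),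
  Rx.mk (nat_lit 195) (nat_lit 3) (nat_lit 0) (nat_lit 3) (nat_lit 5) (nat_lit 106) (nat_lit 275) r9_106 r8_275 (nat_lit 0) (nat_lit 24741287) (nat_lit 0) (nat_lit 0x800b35984) (nat_lit 562371349),
  Rx.mk (nat_lit 219) (nat_lit 3) (nat_lit 3) (nat_lit 3) (nat_lit 7) (nat_lit 107) (nat_lit 278) r9_107 r8_278 (nat_lit 0) (nat_lit 0) (nat_lit 0) (nat_lit 0x8017985b4) (nat_lit 536870912),
  Rx.mk (nat_lit 223) (nat_lit 7) (nat_lit 3) (nat_lit 3) (nat_lit 7) (nat_lit 108) (nat_lit 279) r9_108 r8_279 (nat_lit 0) (nat_lit 0) (nat_lit 0) (nat_lit 0x8017985b4) (nat_lit 536870912)]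
noncomputable def e48_48 : List Rx := [
  Rx.mk (nat_lit 0) (nat_lit 0) (nat_lit 0) (nat_lit 0) (nat_lit 0) (nat_lit 109) (nat_lit 121) r9_109 r9_121 (nat_lit 22961591) (nat_lit 21797302) (nat_lit 36523476) (nat_lit 0x3ad62b83c) (nat_lit 1737278231),
  Rx.mk (nat_lit 3) (nat_lit 3) (nat_lit 0) (nat_lit 0) (nat_lit 1) (nat_lit 115) (nat_lit 124) r9_115 r9_124 (nat_lit 0) (nat_lit 21788749) (nat_lit 21805176) (nat_lit 0x60e0b917a) (nat_lit 1084441637),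
  Rx.mk (nat_lit 27) (nat_lit 3) (nat_lit 3) (nat_lit 0) (nat_lit 3) (nat_lit 116) (nat_lit 125) r9_116 r9_125 (nat_lit 0) (nat_lit 0) (nat_lit 22977602) (nat_lit 0x7edbd4c9a) (nat_lit 579368164),
  Rx.mk (nat_lit 128) (nat_lit 0) (nat_lit 0) (nat_lit 2) (nat_lit 4) (nat_lit 110) (nat_lit 122) r9_110 r9_122 (nat_lit 18882716) (nat_lit 24030520) (nat_lit 0) (nat_lit 0x619393b74) (nat_lit 1072465598),
  Rx.mk (nat_lit 131) (nat_lit 3) (nat_lit 0) (nat_lit 2) (nat_lit 5) (nat_lit 117) (nat_lit 127) r9_117 r9_127 (nat_lit 0) (nat_lit 24741287) (nat_lit 0) (nat_lit 0x7f6b2ca1e) (nat_lit 572209049),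
  Rx.mk (nat_lit 144) (nat_lit 0) (nat_lit 2) (nat_lit 2) (nat_lit 6) (nat_lit 111) (nat_lit 123) r9_111 r9_123 (nat_lit 21899928) (nat_lit 0) (nat_lit 0) (nat_lit 0x7e32c5136) (nat_lit 588892740),
  Rx.mk (nat_lit 146) (nat_lit 2) (nat_lit 2) (nat_lit 2) (nat_lit 7) (nat_lit 112) (nat_lit 132) r9_112 r9_132 (nat_lit 0) (nat_lit 0) (nat_lit 0) (nat_lit 0x8017985b4) (nat_lit 536870912),
  Rx.mk (nat_lit 147) (nat_lit 3) (nat_lit 2) (nat_lit 2) (nat_lit 7) (nat_lit 118) (nat_lit 129) r9_118 r9_129 (nat_lit 0) (nat_lit 0) (nat_lit 0) (nat_lit 0x8017985b4) (nat_lit 536870912),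
  Rx.mk (nat_lit 155) (nat_lit 3) (nat_lit 3) (nat_lit 2) (nat_lit 7) (nat_lit 119) (nat_lit 128) r9_119 r9_128 (nat_lit 0) (nat_lit 0) (nat_lit 0) (nat_lit 0x8017985b4) (nat_lit 536870912),
  Rx.mk (nat_lit 219) (nat_lit 3) (nat_lit 3) (nat_lit 3) (nat_lit 7) (nat_lit 120) (nat_lit 126) r9_120 r9_126 (nat_lit 0) (nat_lit 0) (nat_lit 0) (nat_lit 0x8017985b4) (nat_lit 536870912),
  Rx.mk (nat_lit 223) (nat_lit 7) (nat_lit 3) (nat_lit 3) (nat_lit 7) (nat_lit 130) (nat_lit 114) r9_130 r9_114 (nat_lit 0) (nat_lit 0) (nat_lit 0) (nat_lit 0x8017985b4) (nat_lit 536870912),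
  Rx.mk (nat_lit 255) (nat_lit 7) (nat_lit 7) (nat_lit 3) (nat_lit 7) (nat_lit 131) (nat_lit 113) r9_131 r9_113 (nat_lit 0) (nat_lit 0) (nat_lit 0) (nat_lit 0x8017985b4) (nat_lit 536870912),
  Rx.mk (nat_lit 292) (nat_lit 4) (nat_lit 4) (nat_lit 4) (nat_lit 0) (nat_lit 121) (nat_lit 109) r9_121 r9_109 (nat_lit 22961591) (nat_lit 21797302) (nat_lit 36523476) (nat_lit 0x3ad62b83c) (nat_lit 1737278231),
  Rx.mk (nat_lit 294) (nat_lit 6) (nat_lit 4) (nat_lit 4) (nat_lit 1) (nat_lit 124) (nat_lit 115) r9_124 r9_115 (nat_lit 0) (nat_lit 21788749) (nat_lit 21805176) (nat_lit 0x60e0b917a) (nat_lit 1084441637),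
  Rx.mk (nat_lit 310) (nat_lit 6) (nat_lit 6) (nat_lit 4) (nat_lit 3) (nat_lit 125) (nat_lit 116) r9_125 r9_116 (nat_lit 0) (nat_lit 0) (nat_lit 22977602) (nat_lit 0x7edbd4c9a) (nat_lit 579368164),
  Rx.mk (nat_lit 402) (nat_lit 2) (nat_lit 2) (nat_lit 6) (nat_lit 7) (nat_lit 113) (nat_lit 131) r9_113 r9_131 (nat_lit 0) (nat_lit 0) (nat_lit 0) (nat_lit 0x8017985b4) (nat_lit 536870912),
  Rx.mk (nat_lit 434) (nat_lit 2) (nat_lit 6) (nat_lit 6) (nat_lit 7) (nat_lit 114) (nat_lit 130) r9_114 r9_130 (nat_lit 0) (nat_lit 0) (nat_lit 0) (nat_lit 0x8017985b4) (nat_lit 536870912),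
  Rx.mk (nat_lit 438) (nat_lit 6) (nat_lit 6) (nat_lit 6) (nat_lit 7) (nat_lit 126) (nat_lit 120) r9_126 r9_120 (nat_lit 0) (nat_lit 0) (nat_lit 0) (nat_lit 0x8017985b4) (nat_lit 536870912),
  Rx.mk (nat_lit 484) (nat_lit 4) (nat_lit 4) (nat_lit 7) (nat_lit 4) (nat_lit 122) (nat_lit 110) r9_122 r9_110 (nat_lit 18882716) (nat_lit 24030520) (nat_lit 0) (nat_lit 0x619393b74) (nat_lit 1072465598),
  Rx.mk (nat_lit 486) (nat_lit 6) (nat_lit 4) (nat_lit 7) (nat_lit 5) (nat_lit 127) (nat_lit 117) r9_127 r9_117 (nat_lit 0) (nat_lit 24741287) (nat_lit 0) (nat_lit 0x7f6b2ca1e) (nat_lit 572209049),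
  Rx.mk (nat_lit 502) (nat_lit 6) (nat_lit 6) (nat_lit 7) (nat_lit 7) (nat_lit 128) (nat_lit 119) r9_128 r9_119 (nat_lit 0) (nat_lit 0) (nat_lit 0) (nat_lit 0x8017985b4) (nat_lit 536870912),
  Rx.mk (nat_lit 508) (nat_lit 4) (nat_lit 7) (nat_lit 7) (nat_lit 6) (nat_lit 123) (nat_lit 111) r9_123 r9_111 (nat_lit 21899928) (nat_lit 0) (nat_lit 0) (nat_lit 0x7e32c5136) (nat_lit 588892740),
  Rx.mk (nat_lit 510) (nat_lit 6) (nat_lit 7) (nat_lit 7) (nat_lit 7) (nat_lit 129) (nat_lit 118) r9_129 r9_118 (nat_lit 0) (nat_lit 0) (nat_lit 0) (nat_lit 0x8017985b4) (nat_lit 536870912),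
  Rx.mk (nat_lit 511) (nat_lit 7) (nat_lit 7) (nat_lit 7) (nat_lit 7) (nat_lit 132) (nat_lit 112) r9_132 r9_112 (nat_lit 0) (nat_lit 0) (nat_lit 0) (nat_lit 0x8017985b4) (nat_lit 536870912)]
noncomputable def e48_49 : List Rx := [
  Rx.mk (nat_lit 292) (nat_lit 4) (nat_lit 4) (nat_lit 4) (nat_lit 0) (nat_lit 148) (nat_lit 148) r9_148 r9_148 (nat_lit 26184378) (nat_lit 17958918) (nat_lit 26184378) (nat_lit 0x4289fca08) (nat_lit 1601756836),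
  Rx.mk (nat_lit 294) (nat_lit 6) (nat_lit 4) (nat_lit 4) (nat_lit 1) (nat_lit 151) (nat_lit 149) r9_151 r9_149 (nat_lit 0) (nat_lit 25198067) (nat_lit 24357688) (nat_lit 0x695294076) (nat_lit 953855717),
  Rx.mk (nat_lit 310) (nat_lit 6) (nat_lit 6) (nat_lit 4) (nat_lit 3) (nat_lit 152) (nat_lit 150) r9_152 r9_150 (nat_lit 0) (nat_lit 0) (nat_lit 24501470) (nat_lit 0x7fbf237c6) (nat_lit 566776782),
  Rx.mk (nat_lit 438) (nat_lit 6) (nat_lit 6) (nat_lit 6) (nat_lit 7) (nat_lit 153) (nat_lit 154) r9_153 r9_154 (nat_lit 0) (nat_lit 0) (nat_lit 0) (nat_lit 0x8017985b4) (nat_lit 536870912),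
  Rx.mk (nat_lit 484) (nat_lit 4) (nat_lit 4) (nat_lit 7) (nat_lit 4) (nat_lit 149) (nat_lit 151) r9_149 r9_151 (nat_lit 24357688) (nat_lit 25198067) (nat_lit 0) (nat_lit 0x695294076) (nat_lit 953855717),
  Rx.mk (nat_lit 508) (nat_lit 4) (nat_lit 7) (nat_lit 7) (nat_lit 6) (nat_lit 150) (nat_lit 152) r9_150 r9_152 (nat_lit 24501470) (nat_lit 0) (nat_lit 0) (nat_lit 0x7fbf237c6) (nat_lit 566776782),
  Rx.mk (nat_lit 511) (nat_lit 7) (nat_lit 7) (nat_lit 7) (nat_lit 7) (nat_lit 154) (nat_lit 153) r9_154 r9_153 (nat_lit 0) (nat_lit 0) (nat_lit 0) (nat_lit 0x8017985b4) (nat_lit 536870912)]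
noncomputable def e48_50 : List Rx := [
  Rx.mk (nat_lit 207) (nat_lit 7) (nat_lit 1) (nat_lit 3) (nat_lit 7) (nat_lit 14) (nat_lit 123) r9_14 r3_123 (nat_lit 0) (nat_lit 0) (nat_lit 0) (nat_lit 0x7fce2024c) (nat_lit 541400812)]
noncomputable def e48_51 : List Rx := [
  Rx.mk (nat_lit 199) (nat_lit 7) (nat_lit 0) (nat_lit 3) (nat_lit 5) (nat_lit 15) (nat_lit 128) r9_15 r4_128 (nat_lit 0) (nat_lit 24741287) (nat_lit 0) (nat_lit 0x8017985b4) (nat_lit 561612199),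
  Rx.mk (nat_lit 207) (nat_lit 7) (nat_lit 1) (nat_lit 3) (nat_lit 7) (nat_lit 16) (nat_lit 129) r9_16 r4_129 (nat_lit 0) (nat_lit 0) (nat_lit 0) (nat_lit 0x8017985b4) (nat_lit 536870912),
  Rx.mk (nat_lit 223) (nat_lit 7) (nat_lit 3) (nat_lit 3) (nat_lit 7) (nat_lit 17) (nat_lit 130) r9_17 r4_130 (nat_lit 0) (nat_lit 0) (nat_lit 0) (nat_lit 0x8017985b4) (nat_lit 536870912)]
noncomputable def e48_52 : List Rx := [
  Rx.mk (nat_lit 207) (nat_lit 7) (nat_lit 1) (nat_lit 3) (nat_lit 7) (nat_lit 18) (nat_lit 123) r9_18 r5_123 (nat_lit 0) (nat_lit 0) (nat_lit 0) (nat_lit 0x8017985b4) (nat_lit 536870912)]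
noncomputable def e48_53 : List Rx := [
  Rx.mk (nat_lit 11) (nat_lit 3) (nat_lit 1) (nat_lit 0) (nat_lit 3) (nat_lit 133) (nat_lit 276) r9_133 r4_276 (nat_lit 0) (nat_lit 0) (nat_lit 24741287) (nat_lit 0x80035e648) (nat_lit 562847599),
  Rx.mk (nat_lit 203) (nat_lit 3) (nat_lit 1) (nat_lit 3) (nat_lit 7) (nat_lit 134) (nat_lit 277) r9_134 r4_277 (nat_lit 0) (nat_lit 0) (nat_lit 0) (nat_lit 0x8017985b4) (nat_lit 536870912),
  Rx.mk (nat_lit 207) (nat_lit 7) (nat_lit 1) (nat_lit 3) (nat_lit 7) (nat_lit 135) (nat_lit 278) r9_135 r4_278 (nat_lit 0) (nat_lit 0) (nat_lit 0) (nat_lit 0x8017985b4) (nat_lit 536870912)]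
noncomputable def e48_54 : List Rx := [
  Rx.mk (nat_lit 3) (nat_lit 3) (nat_lit 0) (nat_lit 0) (nat_lit 1) (nat_lit 136) (nat_lit 120) r9_136 r10_120 (nat_lit 0) (nat_lit 40997444) (nat_lit 28731315) (nat_lit 0x62fe769f4) (nat_lit 1076357921),
  Rx.mk (nat_lit 11) (nat_lit 3) (nat_lit 1) (nat_lit 0) (nat_lit 3) (nat_lit 137) (nat_lit 121) r9_137 r10_121 (nat_lit 0) (nat_lit 0) (nat_lit 24741287) (nat_lit 0x8017985b4) (nat_lit 561612199),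
  Rx.mk (nat_lit 131) (nat_lit 3) (nat_lit 0) (nat_lit 2) (nat_lit 5) (nat_lit 138) (nat_lit 124) r9_138 r10_124 (nat_lit 0) (nat_lit 25252468) (nat_lit 0) (nat_lit 0x7fd0be0b2) (nat_lit 566460430),
  Rx.mk (nat_lit 139) (nat_lit 3) (nat_lit 1) (nat_lit 2) (nat_lit 7) (nat_lit 139) (nat_lit 125) r9_139 r10_125 (nat_lit 0) (nat_lit 0) (nat_lit 0) (nat_lit 0x8017985b4) (nat_lit 536870912),
  Rx.mk (nat_lit 147) (nat_lit 3) (nat_lit 2) (nat_lit 2) (nat_lit 7) (nat_lit 140) (nat_lit 126) r9_140 r10_126 (nat_lit 0) (nat_lit 0) (nat_lit 0) (nat_lit 0x8017985b4) (nat_lit 536870912),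
  Rx.mk (nat_lit 195) (nat_lit 3) (nat_lit 0) (nat_lit 3) (nat_lit 5) (nat_lit 141) (nat_lit 122) r9_141 r10_122 (nat_lit 0) (nat_lit 24741287) (nat_lit 0) (nat_lit 0x7fcd6a76c) (nat_lit 566141199),
  Rx.mk (nat_lit 199) (nat_lit 7) (nat_lit 0) (nat_lit 3) (nat_lit 5) (nat_lit 143) (nat_lit 117) r9_143 r10_117 (nat_lit 0) (nat_lit 24741287) (nat_lit 0) (nat_lit 0x7fffebc7c) (nat_lit 563058399),
  Rx.mk (nat_lit 203) (nat_lit 3) (nat_lit 1) (nat_lit 3) (nat_lit 7) (nat_lit 142) (nat_lit 123) r9_142 r10_123 (nat_lit 0) (nat_lit 0) (nat_lit 0) (nat_lit 0x8017985b4) (nat_lit 536870912),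
  Rx.mk (nat_lit 207) (nat_lit 7) (nat_lit 1) (nat_lit 3) (nat_lit 7) (nat_lit 144) (nat_lit 118) r9_144 r10_118 (nat_lit 0) (nat_lit 0) (nat_lit 0) (nat_lit 0x8017985b4) (nat_lit 536870912),
  Rx.mk (nat_lit 223) (nat_lit 7) (nat_lit 3) (nat_lit 3) (nat_lit 7) (nat_lit 145) (nat_lit 119) r9_145 r10_119 (nat_lit 0) (nat_lit 0) (nat_lit 0) (nat_lit 0x8017985b4) (nat_lit 536870912)]
noncomputable def e48_55 : List Rx := [
  Rx.mk (nat_lit 203) (nat_lit 3) (nat_lit 1) (nat_lit 3) (nat_lit 7) (nat_lit 146) (nat_lit 124) r9_146 r11_124 (nat_lit 0) (nat_lit 0) (nat_lit 0) (nat_lit 0x8017985b4) (nat_lit 536870912),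
  Rx.mk (nat_lit 207) (nat_lit 7) (nat_lit 1) (nat_lit 3) (nat_lit 7) (nat_lit 147) (nat_lit 123) r9_147 r11_123 (nat_lit 0) (nat_lit 0) (nat_lit 0) (nat_lit 0x8017985b4) (nat_lit 536870912)]
noncomputable def e48_56 : List Rx := [
  Rx.mk (nat_lit 207) (nat_lit 7) (nat_lit 1) (nat_lit 3) (nat_lit 7) (nat_lit 215) (nat_lit 266) r9_215 r5_266 (nat_lit 0) (nat_lit 0) (nat_lit 0) (nat_lit 0x7fd940442) (nat_lit 540690962)]
noncomputable def e48_57 : List Rx := [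
  Rx.mk (nat_lit 199) (nat_lit 7) (nat_lit 0) (nat_lit 3) (nat_lit 5) (nat_lit 216) (nat_lit 330) r9_216 r11_330 (nat_lit 0) (nat_lit 24741287) (nat_lit 0) (nat_lit 0x8017985b4) (nat_lit 561612199),
  Rx.mk (nat_lit 207) (nat_lit 7) (nat_lit 1) (nat_lit 3) (nat_lit 7) (nat_lit 217) (nat_lit 331) r9_217 r11_331 (nat_lit 0) (nat_lit 0) (nat_lit 0) (nat_lit 0x8017985b4) (nat_lit 536870912),
  Rx.mk (nat_lit 223) (nat_lit 7) (nat_lit 3) (nat_lit 3) (nat_lit 7) (nat_lit 218) (nat_lit 332) r9_218 r11_332 (nat_lit 0) (nat_lit 0) (nat_lit 0) (nat_lit 0x8017985b4) (nat_lit 536870912)]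
noncomputable def e48 : List (List Rx) := [e48_0, e48_1, e48_2, e48_3, e48_4, e48_5, e48_6, e48_7, e48_8, e48_9, e48_10, e48_11, e48_12, e48_13, e48_14, e48_15, e48_16, e48_17, e48_18, e48_19, e48_20, e48_21, e48_22, e48_23, e48_24, e48_25, e48_26, e48_27, e48_28, e48_29, e48_30, e48_31, e48_32, e48_33, e48_34, e48_35, e48_36, e48_37, e48_38, e48_39, e48_40, e48_41, e48_42, e48_43, e48_44, e48_45, e48_46, e48_47, e48_48, e48_49, e48_50, e48_51, e48_52, e48_53, e48_54, e48_55, e48_56, e48_57]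
noncomputable def e49_0 : List Rx := [
  Rx.mk (nat_lit 76) (nat_lit 4) (nat_lit 1) (nat_lit 1) (nat_lit 6) (nat_lit 254) (nat_lit 293) r9_254 r0_293 (nat_lit 27880557) (nat_lit 0) (nat_lit 0) (nat_lit 0x735c96bb4) (nat_lit 769863869),
  Rx.mk (nat_lit 77) (nat_lit 5) (nat_lit 1) (nat_lit 1) (nat_lit 7) (nat_lit 256) (nat_lit 296) r9_256 r0_296 (nat_lit 0) (nat_lit 0) (nat_lit 0) (nat_lit 0x7ff5e805e) (nat_lit 538935112),
  Rx.mk (nat_lit 108) (nat_lit 4) (nat_lit 5) (nat_lit 1) (nat_lit 6) (nat_lit 253) (nat_lit 294) r9_253 r0_294 (nat_lit 27813133) (nat_lit 0) (nat_lit 0) (nat_lit 0x7ac35ec14) (nat_lit 650184545),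
  Rx.mk (nat_lit 109) (nat_lit 5) (nat_lit 5) (nat_lit 1) (nat_lit 7) (nat_lit 255) (nat_lit 297) r9_255 r0_297 (nat_lit 0) (nat_lit 0) (nat_lit 0) (nat_lit 0x7fe5db210) (nat_lit 539920162),
  Rx.mk (nat_lit 364) (nat_lit 4) (nat_lit 5) (nat_lit 5) (nat_lit 6) (nat_lit 250) (nat_lit 295) r9_250 r0_295 (nat_lit 25628035) (nat_lit 0) (nat_lit 0) (nat_lit 0x7c71b8854) (nat_lit 620861597),
  Rx.mk (nat_lit 365) (nat_lit 5) (nat_lit 5) (nat_lit 5) (nat_lit 7) (nat_lit 251) (nat_lit 298) r9_251 r0_298 (nat_lit 0) (nat_lit 0) (nat_lit 0) (nat_lit 0x7fa3dbc34) (nat_lit 543982362),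
  Rx.mk (nat_lit 367) (nat_lit 7) (nat_lit 5) (nat_lit 5) (nat_lit 7) (nat_lit 252) (nat_lit 299) r9_252 r0_299 (nat_lit 0) (nat_lit 0) (nat_lit 0) (nat_lit 0x7fed20192) (nat_lit 539467362)]
noncomputable def e49_1 : List Rx := [
  Rx.mk (nat_lit 364) (nat_lit 4) (nat_lit 5) (nat_lit 5) (nat_lit 6) (nat_lit 286) (nat_lit 290) r9_286 r1_290 (nat_lit 24741287) (nat_lit 0) (nat_lit 0) (nat_lit 0x7fa9dd1b4) (nat_lit 568325299),
  Rx.mk (nat_lit 365) (nat_lit 5) (nat_lit 5) (nat_lit 5) (nat_lit 7) (nat_lit 287) (nat_lit 291) r9_287 r1_291 (nat_lit 0) (nat_lit 0) (nat_lit 0) (nat_lit 0x8017985b4) (nat_lit 536870912),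
  Rx.mk (nat_lit 367) (nat_lit 7) (nat_lit 5) (nat_lit 5) (nat_lit 7) (nat_lit 288) (nat_lit 292) r9_288 r1_292 (nat_lit 0) (nat_lit 0) (nat_lit 0) (nat_lit 0x8017985b4) (nat_lit 536870912)]
noncomputable def e49_2 : List Rx := [
  Rx.mk (nat_lit 300) (nat_lit 4) (nat_lit 5) (nat_lit 4) (nat_lit 2) (nat_lit 260) (nat_lit 316) r9_260 r2_316 (nat_lit 40876841) (nat_lit 0) (nat_lit 67893355) (nat_lit 0x6a127e06c) (nat_lit 1000948958),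
  Rx.mk (nat_lit 303) (nat_lit 7) (nat_lit 5) (nat_lit 4) (nat_lit 3) (nat_lit 261) (nat_lit 319) r9_261 r2_319 (nat_lit 0) (nat_lit 0) (nat_lit 24741287) (nat_lit 0x8017985b4) (nat_lit 561612199),
  Rx.mk (nat_lit 364) (nat_lit 4) (nat_lit 5) (nat_lit 5) (nat_lit 6) (nat_lit 262) (nat_lit 317) r9_262 r2_317 (nat_lit 24603401) (nat_lit 0) (nat_lit 0) (nat_lit 0x8007974d0) (nat_lit 562452963),
  Rx.mk (nat_lit 365) (nat_lit 5) (nat_lit 5) (nat_lit 5) (nat_lit 7) (nat_lit 263) (nat_lit 318) r9_263 r2_318 (nat_lit 0) (nat_lit 0) (nat_lit 0) (nat_lit 0x8017985b4) (nat_lit 536870912),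
  Rx.mk (nat_lit 367) (nat_lit 7) (nat_lit 5) (nat_lit 5) (nat_lit 7) (nat_lit 264) (nat_lit 320) r9_264 r2_320 (nat_lit 0) (nat_lit 0) (nat_lit 0) (nat_lit 0x8017985b4) (nat_lit 536870912),
  Rx.mk (nat_lit 495) (nat_lit 7) (nat_lit 5) (nat_lit 7) (nat_lit 7) (nat_lit 265) (nat_lit 321) r9_265 r2_321 (nat_lit 0) (nat_lit 0) (nat_lit 0) (nat_lit 0x8017985b4) (nat_lit 536870912)]
noncomputable def e49_3 : List Rx := [
  Rx.mk (nat_lit 76) (nat_lit 4) (nat_lit 1) (nat_lit 1) (nat_lit 6) (nat_lit 301) (nat_lit 295) r9_301 r3_295 (nat_lit 23806788) (nat_lit 0) (nat_lit 0) (nat_lit 0x6530a0838) (nat_lit 994848200),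
  Rx.mk (nat_lit 77) (nat_lit 5) (nat_lit 1) (nat_lit 1) (nat_lit 7) (nat_lit 303) (nat_lit 297) r9_303 r3_297 (nat_lit 0) (nat_lit 0) (nat_lit 0) (nat_lit 0x8017985b4) (nat_lit 536870912),
  Rx.mk (nat_lit 108) (nat_lit 4) (nat_lit 5) (nat_lit 1) (nat_lit 6) (nat_lit 300) (nat_lit 296) r9_300 r3_296 (nat_lit 36215805) (nat_lit 0) (nat_lit 0) (nat_lit 0x6837b1e8a) (nat_lit 958320217),
  Rx.mk (nat_lit 109) (nat_lit 5) (nat_lit 5) (nat_lit 1) (nat_lit 7) (nat_lit 302) (nat_lit 298) r9_302 r3_298 (nat_lit 0) (nat_lit 0) (nat_lit 0) (nat_lit 0x7f8a461c0) (nat_lit 545571162),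
  Rx.mk (nat_lit 111) (nat_lit 7) (nat_lit 5) (nat_lit 1) (nat_lit 7) (nat_lit 304) (nat_lit 299) r9_304 r3_299 (nat_lit 0) (nat_lit 0) (nat_lit 0) (nat_lit 0x7ded52914) (nat_lit 571323512)]
noncomputable def e49_4 : List Rx := [
  Rx.mk (nat_lit 76) (nat_lit 4) (nat_lit 1) (nat_lit 1) (nat_lit 6) (nat_lit 313) (nat_lit 309) r9_313 r4_309 (nat_lit 47490513) (nat_lit 0) (nat_lit 0) (nat_lit 0x7c0f81f64) (nat_lit 648924525),
  Rx.mk (nat_lit 77) (nat_lit 5) (nat_lit 1) (nat_lit 1) (nat_lit 7) (nat_lit 315) (nat_lit 311) r9_315 r4_311 (nat_lit 0) (nat_lit 0) (nat_lit 0) (nat_lit 0x8017985b4) (nat_lit 536870912),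
  Rx.mk (nat_lit 108) (nat_lit 4) (nat_lit 5) (nat_lit 1) (nat_lit 6) (nat_lit 312) (nat_lit 310) r9_312 r4_310 (nat_lit 30557758) (nat_lit 0) (nat_lit 0) (nat_lit 0x7f457f316) (nat_lit 580390720),
  Rx.mk (nat_lit 109) (nat_lit 5) (nat_lit 5) (nat_lit 1) (nat_lit 7) (nat_lit 314) (nat_lit 312) r9_314 r4_312 (nat_lit 0) (nat_lit 0) (nat_lit 0) (nat_lit 0x8017985b4) (nat_lit 536870912),
  Rx.mk (nat_lit 111) (nat_lit 7) (nat_lit 5) (nat_lit 1) (nat_lit 7) (nat_lit 316) (nat_lit 313) r9_316 r4_313 (nat_lit 0) (nat_lit 0) (nat_lit 0) (nat_lit 0x8017985b4) (nat_lit 536870912),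
  Rx.mk (nat_lit 367) (nat_lit 7) (nat_lit 5) (nat_lit 5) (nat_lit 7) (nat_lit 311) (nat_lit 314) r9_311 r4_314 (nat_lit 0) (nat_lit 0) (nat_lit 0) (nat_lit 0x8017985b4) (nat_lit 536870912)]
noncomputable def e49_5 : List Rx := [
  Rx.mk (nat_lit 108) (nat_lit 4) (nat_lit 5) (nat_lit 1) (nat_lit 6) (nat_lit 324) (nat_lit 290) r9_324 r5_290 (nat_lit 26942027) (nat_lit 0) (nat_lit 0) (nat_lit 0x7e5860594) (nat_lit 591515239),
  Rx.mk (nat_lit 109) (nat_lit 5) (nat_lit 5) (nat_lit 1) (nat_lit 7) (nat_lit 325) (nat_lit 291) r9_325 r5_291 (nat_lit 0) (nat_lit 0) (nat_lit 0) (nat_lit 0x7ff2ca070) (nat_lit 539127012),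
  Rx.mk (nat_lit 111) (nat_lit 7) (nat_lit 5) (nat_lit 1) (nat_lit 7) (nat_lit 326) (nat_lit 292) r9_326 r5_292 (nat_lit 0) (nat_lit 0) (nat_lit 0) (nat_lit 0x8017985b4) (nat_lit 536870912)]
noncomputable def e49_6 : List Rx := [
  Rx.mk (nat_lit 239) (nat_lit 7) (nat_lit 5) (nat_lit 3) (nat_lit 7) (nat_lit 14) (nat_lit 261) r9_14 r3_261 (nat_lit 0) (nat_lit 0) (nat_lit 0) (nat_lit 0x7fce2024c) (nat_lit 541400812)]
noncomputable def e49_7 : List Rx := [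
  Rx.mk (nat_lit 300) (nat_lit 4) (nat_lit 5) (nat_lit 4) (nat_lit 2) (nat_lit 65) (nat_lit 262) r9_65 r0_262 (nat_lit 111519439) (nat_lit 0) (nat_lit 35271211) (nat_lit 0x580e92528) (nat_lit 1330276712),
  Rx.mk (nat_lit 492) (nat_lit 4) (nat_lit 5) (nat_lit 7) (nat_lit 6) (nat_lit 66) (nat_lit 263) r9_66 r0_263 (nat_lit 42181634) (nat_lit 0) (nat_lit 0) (nat_lit 0x7bc61b1a4) (nat_lit 648220246),
  Rx.mk (nat_lit 495) (nat_lit 7) (nat_lit 5) (nat_lit 7) (nat_lit 7) (nat_lit 67) (nat_lit 264) r9_67 r0_264 (nat_lit 0) (nat_lit 0) (nat_lit 0) (nat_lit 0x7fcef5a96) (nat_lit 541322112)]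
noncomputable def e49_8 : List Rx := [
  Rx.mk (nat_lit 300) (nat_lit 4) (nat_lit 5) (nat_lit 4) (nat_lit 2) (nat_lit 83) (nat_lit 269) r9_83 r1_269 (nat_lit 134396714) (nat_lit 0) (nat_lit 34355931) (nat_lit 0x734bda226) (nat_lit 911788807),
  Rx.mk (nat_lit 492) (nat_lit 4) (nat_lit 5) (nat_lit 7) (nat_lit 6) (nat_lit 84) (nat_lit 270) r9_84 r1_270 (nat_lit 24741287) (nat_lit 0) (nat_lit 0) (nat_lit 0x8008f717c) (nat_lit 562505199),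
  Rx.mk (nat_lit 495) (nat_lit 7) (nat_lit 5) (nat_lit 7) (nat_lit 7) (nat_lit 85) (nat_lit 271) r9_85 r1_271 (nat_lit 0) (nat_lit 0) (nat_lit 0) (nat_lit 0x8017985b4) (nat_lit 536870912)]
noncomputable def e49_9 : List Rx := [
  Rx.mk (nat_lit 239) (nat_lit 7) (nat_lit 5) (nat_lit 3) (nat_lit 7) (nat_lit 135) (nat_lit 278) r9_135 r4_278 (nat_lit 0) (nat_lit 0) (nat_lit 0) (nat_lit 0x8017985b4) (nat_lit 536870912),
  Rx.mk (nat_lit 492) (nat_lit 4) (nat_lit 5) (nat_lit 7) (nat_lit 6) (nat_lit 133) (nat_lit 276) r9_133 r4_276 (nat_lit 24741287) (nat_lit 0) (nat_lit 0) (nat_lit 0x80035e648) (nat_lit 562847599),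
  Rx.mk (nat_lit 495) (nat_lit 7) (nat_lit 5) (nat_lit 7) (nat_lit 7) (nat_lit 134) (nat_lit 277) r9_134 r4_277 (nat_lit 0) (nat_lit 0) (nat_lit 0) (nat_lit 0x8017985b4) (nat_lit 536870912)]
noncomputable def e49_10 : List Rx := [
  Rx.mk (nat_lit 47) (nat_lit 7) (nat_lit 5) (nat_lit 0) (nat_lit 3) (nat_lit 241) (nat_lit 319) r9_241 r6_319 (nat_lit 0) (nat_lit 0) (nat_lit 25123569) (nat_lit 0x7f345289a) (nat_lit 575983031),
  Rx.mk (nat_lit 111) (nat_lit 7) (nat_lit 5) (nat_lit 1) (nat_lit 7) (nat_lit 242) (nat_lit 320) r9_242 r6_320 (nat_lit 0) (nat_lit 0) (nat_lit 0) (nat_lit 0x8017985b4) (nat_lit 536870912),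
  Rx.mk (nat_lit 239) (nat_lit 7) (nat_lit 5) (nat_lit 3) (nat_lit 7) (nat_lit 243) (nat_lit 321) r9_243 r6_321 (nat_lit 0) (nat_lit 0) (nat_lit 0) (nat_lit 0x8017985b4) (nat_lit 536870912)]
noncomputable def e49_11 : List Rx := [
  Rx.mk (nat_lit 239) (nat_lit 7) (nat_lit 5) (nat_lit 3) (nat_lit 7) (nat_lit 215) (nat_lit 266) r9_215 r5_266 (nat_lit 0) (nat_lit 0) (nat_lit 0) (nat_lit 0x7fd940442) (nat_lit 540690962)]
noncomputable def e49_12 : List Rx := [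
  Rx.mk (nat_lit 77) (nat_lit 5) (nat_lit 1) (nat_lit 1) (nat_lit 7) (nat_lit 249) (nat_lit 292) r9_249 r0_292 (nat_lit 0) (nat_lit 0) (nat_lit 0) (nat_lit 0x7fa7f11e8) (nat_lit 543731812),
  Rx.mk (nat_lit 109) (nat_lit 5) (nat_lit 5) (nat_lit 1) (nat_lit 7) (nat_lit 248) (nat_lit 291) r9_248 r0_291 (nat_lit 0) (nat_lit 0) (nat_lit 0) (nat_lit 0x7f706cec0) (nat_lit 547165662)]
noncomputable def e49_13 : List Rx := [
  Rx.mk (nat_lit 77) (nat_lit 5) (nat_lit 1) (nat_lit 1) (nat_lit 7) (nat_lit 259) (nat_lit 409) r9_259 r7_409 (nat_lit 0) (nat_lit 0) (nat_lit 0) (nat_lit 0x8017985b4) (nat_lit 536870912),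
  Rx.mk (nat_lit 109) (nat_lit 5) (nat_lit 5) (nat_lit 1) (nat_lit 7) (nat_lit 258) (nat_lit 410) r9_258 r7_410 (nat_lit 0) (nat_lit 0) (nat_lit 0) (nat_lit 0x8017985b4) (nat_lit 536870912),
  Rx.mk (nat_lit 365) (nat_lit 5) (nat_lit 5) (nat_lit 5) (nat_lit 7) (nat_lit 257) (nat_lit 411) r9_257 r7_411 (nat_lit 0) (nat_lit 0) (nat_lit 0) (nat_lit 0x8017985b4) (nat_lit 536870912)]
noncomputable def e49_14 : List Rx := [
  Rx.mk (nat_lit 73) (nat_lit 1) (nat_lit 1) (nat_lit 1) (nat_lit 7) (nat_lit 292) (nat_lit 289) r9_292 r1_289 (nat_lit 0) (nat_lit 0) (nat_lit 0) (nat_lit 0x8017985b4) (nat_lit 536870912),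
  Rx.mk (nat_lit 77) (nat_lit 5) (nat_lit 1) (nat_lit 1) (nat_lit 7) (nat_lit 291) (nat_lit 288) r9_291 r1_288 (nat_lit 0) (nat_lit 0) (nat_lit 0) (nat_lit 0x8017985b4) (nat_lit 536870912),
  Rx.mk (nat_lit 109) (nat_lit 5) (nat_lit 5) (nat_lit 1) (nat_lit 7) (nat_lit 290) (nat_lit 287) r9_290 r1_287 (nat_lit 0) (nat_lit 0) (nat_lit 0) (nat_lit 0x8017985b4) (nat_lit 536870912)]
noncomputable def e49_15 : List Rx := [
  Rx.mk (nat_lit 73) (nat_lit 1) (nat_lit 1) (nat_lit 1) (nat_lit 7) (nat_lit 297) (nat_lit 327) r9_297 r8_327 (nat_lit 0) (nat_lit 0) (nat_lit 0) (nat_lit 0x8017985b4) (nat_lit 536870912),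
  Rx.mk (nat_lit 77) (nat_lit 5) (nat_lit 1) (nat_lit 1) (nat_lit 7) (nat_lit 296) (nat_lit 328) r9_296 r8_328 (nat_lit 0) (nat_lit 0) (nat_lit 0) (nat_lit 0x8017985b4) (nat_lit 536870912),
  Rx.mk (nat_lit 109) (nat_lit 5) (nat_lit 5) (nat_lit 1) (nat_lit 7) (nat_lit 295) (nat_lit 329) r9_295 r8_329 (nat_lit 0) (nat_lit 0) (nat_lit 0) (nat_lit 0x8017985b4) (nat_lit 536870912),
  Rx.mk (nat_lit 365) (nat_lit 5) (nat_lit 5) (nat_lit 5) (nat_lit 7) (nat_lit 294) (nat_lit 330) r9_294 r8_330 (nat_lit 0) (nat_lit 0) (nat_lit 0) (nat_lit 0x8017985b4) (nat_lit 536870912)]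
noncomputable def e49_16 : List Rx := [
  Rx.mk (nat_lit 365) (nat_lit 5) (nat_lit 5) (nat_lit 5) (nat_lit 7) (nat_lit 289) (nat_lit 326) r9_289 r8_326 (nat_lit 0) (nat_lit 0) (nat_lit 0) (nat_lit 0x8017985b4) (nat_lit 536870912)]
noncomputable def e49_17 : List Rx := [
  Rx.mk (nat_lit 365) (nat_lit 5) (nat_lit 5) (nat_lit 5) (nat_lit 7) (nat_lit 266) (nat_lit 299) r9_266 r9_299 (nat_lit 0) (nat_lit 0) (nat_lit 0) (nat_lit 0x8017985b4) (nat_lit 536870912)]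
noncomputable def e49_18 : List Rx := [
  Rx.mk (nat_lit 77) (nat_lit 5) (nat_lit 1) (nat_lit 1) (nat_lit 7) (nat_lit 306) (nat_lit 308) r9_306 r4_308 (nat_lit 0) (nat_lit 0) (nat_lit 0) (nat_lit 0x8017985b4) (nat_lit 536870912),
  Rx.mk (nat_lit 109) (nat_lit 5) (nat_lit 5) (nat_lit 1) (nat_lit 7) (nat_lit 305) (nat_lit 307) r9_305 r4_307 (nat_lit 0) (nat_lit 0) (nat_lit 0) (nat_lit 0x8017985b4) (nat_lit 536870912)]
noncomputable def e49_19 : List Rx := [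
  Rx.mk (nat_lit 77) (nat_lit 5) (nat_lit 1) (nat_lit 1) (nat_lit 7) (nat_lit 318) (nat_lit 331) r9_318 r10_331 (nat_lit 0) (nat_lit 0) (nat_lit 0) (nat_lit 0x8017985b4) (nat_lit 536870912),
  Rx.mk (nat_lit 109) (nat_lit 5) (nat_lit 5) (nat_lit 1) (nat_lit 7) (nat_lit 317) (nat_lit 332) r9_317 r10_332 (nat_lit 0) (nat_lit 0) (nat_lit 0) (nat_lit 0x8017985b4) (nat_lit 536870912)]
noncomputable def e49_20 : List Rx := [
  Rx.mk (nat_lit 109) (nat_lit 5) (nat_lit 5) (nat_lit 1) (nat_lit 7) (nat_lit 327) (nat_lit 350) r9_327 r11_350 (nat_lit 0) (nat_lit 0) (nat_lit 0) (nat_lit 0x8017985b4) (nat_lit 536870912)]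
noncomputable def e49_21 : List Rx := [
  Rx.mk (nat_lit 292) (nat_lit 4) (nat_lit 4) (nat_lit 4) (nat_lit 0) (nat_lit 267) (nat_lit 267) r9_267 r9_267 (nat_lit 112948378) (nat_lit 19947850) (nat_lit 19947850) (nat_lit 0x42f38d800) (nat_lit 1677613190),
  Rx.mk (nat_lit 294) (nat_lit 6) (nat_lit 4) (nat_lit 4) (nat_lit 1) (nat_lit 269) (nat_lit 272) r9_269 r9_272 (nat_lit 0) (nat_lit 33468687) (nat_lit 40541115) (nat_lit 0x6c692da82) (nat_lit 928375014),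
  Rx.mk (nat_lit 295) (nat_lit 7) (nat_lit 4) (nat_lit 4) (nat_lit 1) (nat_lit 272) (nat_lit 269) r9_272 r9_269 (nat_lit 0) (nat_lit 40541115) (nat_lit 33468687) (nat_lit 0x6c692da82) (nat_lit 928375014),
  Rx.mk (nat_lit 300) (nat_lit 4) (nat_lit 5) (nat_lit 4) (nat_lit 2) (nat_lit 268) (nat_lit 274) r9_268 r9_274 (nat_lit 36644786) (nat_lit 0) (nat_lit 58482756) (nat_lit 0x665409c74) (nat_lit 1047842904),
  Rx.mk (nat_lit 302) (nat_lit 6) (nat_lit 5) (nat_lit 4) (nat_lit 3) (nat_lit 270) (nat_lit 280) r9_270 r9_280 (nat_lit 0) (nat_lit 0) (nat_lit 24741287) (nat_lit 0x8017985b4) (nat_lit 561612199),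
  Rx.mk (nat_lit 303) (nat_lit 7) (nat_lit 5) (nat_lit 4) (nat_lit 3) (nat_lit 273) (nat_lit 277) r9_273 r9_277 (nat_lit 0) (nat_lit 0) (nat_lit 24741287) (nat_lit 0x8017985b4) (nat_lit 561612199),
  Rx.mk (nat_lit 310) (nat_lit 6) (nat_lit 6) (nat_lit 4) (nat_lit 3) (nat_lit 271) (nat_lit 283) r9_271 r9_283 (nat_lit 0) (nat_lit 0) (nat_lit 24741287) (nat_lit 0x8017985b4) (nat_lit 561612199),
  Rx.mk (nat_lit 356) (nat_lit 4) (nat_lit 4) (nat_lit 5) (nat_lit 4) (nat_lit 274) (nat_lit 268) r9_274 r9_268 (nat_lit 36644786) (nat_lit 58482756) (nat_lit 0) (nat_lit 0x665409c74) (nat_lit 1047842904),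
  Rx.mk (nat_lit 358) (nat_lit 6) (nat_lit 4) (nat_lit 5) (nat_lit 5) (nat_lit 277) (nat_lit 273) r9_277 r9_273 (nat_lit 0) (nat_lit 24741287) (nat_lit 0) (nat_lit 0x8017985b4) (nat_lit 561612199),
  Rx.mk (nat_lit 359) (nat_lit 7) (nat_lit 4) (nat_lit 5) (nat_lit 5) (nat_lit 280) (nat_lit 270) r9_280 r9_270 (nat_lit 0) (nat_lit 24741287) (nat_lit 0) (nat_lit 0x8017985b4) (nat_lit 561612199),
  Rx.mk (nat_lit 364) (nat_lit 4) (nat_lit 5) (nat_lit 5) (nat_lit 6) (nat_lit 275) (nat_lit 275) r9_275 r9_275 (nat_lit 24741287) (nat_lit 0) (nat_lit 0) (nat_lit 0x8017985b4) (nat_lit 561612199),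
  Rx.mk (nat_lit 365) (nat_lit 5) (nat_lit 5) (nat_lit 5) (nat_lit 7) (nat_lit 276) (nat_lit 276) r9_276 r9_276 (nat_lit 0) (nat_lit 0) (nat_lit 0) (nat_lit 0x8017985b4) (nat_lit 536870912),
  Rx.mk (nat_lit 366) (nat_lit 6) (nat_lit 5) (nat_lit 5) (nat_lit 7) (nat_lit 278) (nat_lit 281) r9_278 r9_281 (nat_lit 0) (nat_lit 0) (nat_lit 0) (nat_lit 0x8017985b4) (nat_lit 536870912),
  Rx.mk (nat_lit 367) (nat_lit 7) (nat_lit 5) (nat_lit 5) (nat_lit 7) (nat_lit 281) (nat_lit 278) r9_281 r9_278 (nat_lit 0) (nat_lit 0) (nat_lit 0) (nat_lit 0x8017985b4) (nat_lit 536870912),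
  Rx.mk (nat_lit 374) (nat_lit 6) (nat_lit 6) (nat_lit 5) (nat_lit 7) (nat_lit 279) (nat_lit 284) r9_279 r9_284 (nat_lit 0) (nat_lit 0) (nat_lit 0) (nat_lit 0x8017985b4) (nat_lit 536870912),
  Rx.mk (nat_lit 438) (nat_lit 6) (nat_lit 6) (nat_lit 6) (nat_lit 7) (nat_lit 282) (nat_lit 285) r9_282 r9_285 (nat_lit 0) (nat_lit 0) (nat_lit 0) (nat_lit 0x8017985b4) (nat_lit 536870912),
  Rx.mk (nat_lit 487) (nat_lit 7) (nat_lit 4) (nat_lit 7) (nat_lit 5) (nat_lit 283) (nat_lit 271) r9_283 r9_271 (nat_lit 0) (nat_lit 24741287) (nat_lit 0) (nat_lit 0x8017985b4) (nat_lit 561612199),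
  Rx.mk (nat_lit 495) (nat_lit 7) (nat_lit 5) (nat_lit 7) (nat_lit 7) (nat_lit 284) (nat_lit 279) r9_284 r9_279 (nat_lit 0) (nat_lit 0) (nat_lit 0) (nat_lit 0x8017985b4) (nat_lit 536870912),
  Rx.mk (nat_lit 511) (nat_lit 7) (nat_lit 7) (nat_lit 7) (nat_lit 7) (nat_lit 285) (nat_lit 282) r9_285 r9_282 (nat_lit 0) (nat_lit 0) (nat_lit 0) (nat_lit 0x8017985b4) (nat_lit 536870912)]
noncomputable def e49_22 : List Rx := [
  Rx.mk (nat_lit 255) (nat_lit 7) (nat_lit 7) (nat_lit 3) (nat_lit 7) (nat_lit 0) (nat_lit 141) r9_0 r0_141 (nat_lit 0) (nat_lit 0) (nat_lit 0) (nat_lit 0x7fe34c40e) (nat_lit 540076362)]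
noncomputable def e49_23 : List Rx := [
  Rx.mk (nat_lit 255) (nat_lit 7) (nat_lit 7) (nat_lit 3) (nat_lit 7) (nat_lit 1) (nat_lit 153) r9_1 r1_153 (nat_lit 0) (nat_lit 0) (nat_lit 0) (nat_lit 0x8017985b4) (nat_lit 536870912)]
noncomputable def e49_24 : List Rx := [
  Rx.mk (nat_lit 231) (nat_lit 7) (nat_lit 4) (nat_lit 3) (nat_lit 5) (nat_lit 15) (nat_lit 128) r9_15 r4_128 (nat_lit 0) (nat_lit 24741287) (nat_lit 0) (nat_lit 0x8017985b4) (nat_lit 561612199),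
  Rx.mk (nat_lit 239) (nat_lit 7) (nat_lit 5) (nat_lit 3) (nat_lit 7) (nat_lit 16) (nat_lit 129) r9_16 r4_129 (nat_lit 0) (nat_lit 0) (nat_lit 0) (nat_lit 0x8017985b4) (nat_lit 536870912),
  Rx.mk (nat_lit 255) (nat_lit 7) (nat_lit 7) (nat_lit 3) (nat_lit 7) (nat_lit 17) (nat_lit 130) r9_17 r4_130 (nat_lit 0) (nat_lit 0) (nat_lit 0) (nat_lit 0x8017985b4) (nat_lit 536870912)]
noncomputable def e49_25 : List Rx := [
  Rx.mk (nat_lit 255) (nat_lit 7) (nat_lit 7) (nat_lit 3) (nat_lit 7) (nat_lit 82) (nat_lit 377) r9_82 r7_377 (nat_lit 0) (nat_lit 0) (nat_lit 0) (nat_lit 0x8017985b4) (nat_lit 536870912),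
  Rx.mk (nat_lit 292) (nat_lit 4) (nat_lit 4) (nat_lit 4) (nat_lit 0) (nat_lit 68) (nat_lit 366) r9_68 r7_366 (nat_lit 53728367) (nat_lit 12221267) (nat_lit 12174851) (nat_lit 0x38c2f41c6) (nat_lit 1767626247),
  Rx.mk (nat_lit 294) (nat_lit 6) (nat_lit 4) (nat_lit 4) (nat_lit 1) (nat_lit 70) (nat_lit 369) r9_70 r7_369 (nat_lit 0) (nat_lit 25388524) (nat_lit 23888514) (nat_lit 0x66b5a08de) (nat_lit 995832150),
  Rx.mk (nat_lit 300) (nat_lit 4) (nat_lit 5) (nat_lit 4) (nat_lit 2) (nat_lit 69) (nat_lit 371) r9_69 r7_371 (nat_lit 49319051) (nat_lit 0) (nat_lit 28898569) (nat_lit 0x6539461d6) (nat_lit 1048798182),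
  Rx.mk (nat_lit 302) (nat_lit 6) (nat_lit 5) (nat_lit 4) (nat_lit 3) (nat_lit 71) (nat_lit 374) r9_71 r7_374 (nat_lit 0) (nat_lit 0) (nat_lit 24741287) (nat_lit 0x7fff7117a) (nat_lit 563091449),
  Rx.mk (nat_lit 310) (nat_lit 6) (nat_lit 6) (nat_lit 4) (nat_lit 3) (nat_lit 72) (nat_lit 378) r9_72 r7_378 (nat_lit 0) (nat_lit 0) (nat_lit 24741287) (nat_lit 0x800788c14) (nat_lit 562595399),
  Rx.mk (nat_lit 438) (nat_lit 6) (nat_lit 6) (nat_lit 6) (nat_lit 7) (nat_lit 73) (nat_lit 380) r9_73 r7_380 (nat_lit 0) (nat_lit 0) (nat_lit 0) (nat_lit 0x8017985b4) (nat_lit 536870912),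
  Rx.mk (nat_lit 484) (nat_lit 4) (nat_lit 4) (nat_lit 7) (nat_lit 4) (nat_lit 74) (nat_lit 367) r9_74 r7_367 (nat_lit 24913710) (nat_lit 27374180) (nat_lit 0) (nat_lit 0x629c47274) (nat_lit 1065121602),
  Rx.mk (nat_lit 486) (nat_lit 6) (nat_lit 4) (nat_lit 7) (nat_lit 5) (nat_lit 76) (nat_lit 370) r9_76 r7_370 (nat_lit 0) (nat_lit 24741287) (nat_lit 0) (nat_lit 0x80064b5b8) (nat_lit 562671499),
  Rx.mk (nat_lit 487) (nat_lit 7) (nat_lit 4) (nat_lit 7) (nat_lit 5) (nat_lit 79) (nat_lit 368) r9_79 r7_368 (nat_lit 0) (nat_lit 24741287) (nat_lit 0) (nat_lit 0x7fe3cd14e) (nat_lit 564781099),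
  Rx.mk (nat_lit 492) (nat_lit 4) (nat_lit 5) (nat_lit 7) (nat_lit 6) (nat_lit 75) (nat_lit 372) r9_75 r7_372 (nat_lit 24624079) (nat_lit 0) (nat_lit 0) (nat_lit 0x8009fe8fe) (nat_lit 562326791),
  Rx.mk (nat_lit 494) (nat_lit 6) (nat_lit 5) (nat_lit 7) (nat_lit 7) (nat_lit 77) (nat_lit 375) r9_77 r7_375 (nat_lit 0) (nat_lit 0) (nat_lit 0) (nat_lit 0x8017985b4) (nat_lit 536870912),
  Rx.mk (nat_lit 495) (nat_lit 7) (nat_lit 5) (nat_lit 7) (nat_lit 7) (nat_lit 80) (nat_lit 373) r9_80 r7_373 (nat_lit 0) (nat_lit 0) (nat_lit 0) (nat_lit 0x8017985b4) (nat_lit 536870912),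
  Rx.mk (nat_lit 502) (nat_lit 6) (nat_lit 6) (nat_lit 7) (nat_lit 7) (nat_lit 78) (nat_lit 379) r9_78 r7_379 (nat_lit 0) (nat_lit 0) (nat_lit 0) (nat_lit 0x8017985b4) (nat_lit 536870912),
  Rx.mk (nat_lit 511) (nat_lit 7) (nat_lit 7) (nat_lit 7) (nat_lit 7) (nat_lit 81) (nat_lit 376) r9_81 r7_376 (nat_lit 0) (nat_lit 0) (nat_lit 0) (nat_lit 0x8017985b4) (nat_lit 536870912)]
noncomputable def e49_26 : List Rx := [
  Rx.mk (nat_lit 255) (nat_lit 7) (nat_lit 7) (nat_lit 3) (nat_lit 7) (nat_lit 108) (nat_lit 279) r9_108 r8_279 (nat_lit 0) (nat_lit 0) (nat_lit 0) (nat_lit 0x8017985b4) (nat_lit 536870912),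
  Rx.mk (nat_lit 292) (nat_lit 4) (nat_lit 4) (nat_lit 4) (nat_lit 0) (nat_lit 99) (nat_lit 273) r9_99 r8_273 (nat_lit 46447449) (nat_lit 15284300) (nat_lit 18790511) (nat_lit 0x3cee725c4) (nat_lit 1702614672),
  Rx.mk (nat_lit 294) (nat_lit 6) (nat_lit 4) (nat_lit 4) (nat_lit 1) (nat_lit 100) (nat_lit 276) r9_100 r8_276 (nat_lit 0) (nat_lit 26650245) (nat_lit 23999425) (nat_lit 0x66dd7892e) (nat_lit 994688732),
  Rx.mk (nat_lit 310) (nat_lit 6) (nat_lit 6) (nat_lit 4) (nat_lit 3) (nat_lit 101) (nat_lit 280) r9_101 r8_280 (nat_lit 0) (nat_lit 0) (nat_lit 24741287) (nat_lit 0x7ff1b40e6) (nat_lit 563929249),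
  Rx.mk (nat_lit 438) (nat_lit 6) (nat_lit 6) (nat_lit 6) (nat_lit 7) (nat_lit 102) (nat_lit 282) r9_102 r8_282 (nat_lit 0) (nat_lit 0) (nat_lit 0) (nat_lit 0x8017985b4) (nat_lit 536870912),
  Rx.mk (nat_lit 484) (nat_lit 4) (nat_lit 4) (nat_lit 7) (nat_lit 4) (nat_lit 103) (nat_lit 274) r9_103 r8_274 (nat_lit 23607638) (nat_lit 24950323) (nat_lit 0) (nat_lit 0x64fca11c2) (nat_lit 1022966473),
  Rx.mk (nat_lit 486) (nat_lit 6) (nat_lit 4) (nat_lit 7) (nat_lit 5) (nat_lit 104) (nat_lit 277) r9_104 r8_277 (nat_lit 0) (nat_lit 24488988) (nat_lit 0) (nat_lit 0x7ff6155ae) (nat_lit 563408300),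
  Rx.mk (nat_lit 487) (nat_lit 7) (nat_lit 4) (nat_lit 7) (nat_lit 5) (nat_lit 106) (nat_lit 275) r9_106 r8_275 (nat_lit 0) (nat_lit 24741287) (nat_lit 0) (nat_lit 0x800b35984) (nat_lit 562371349),
  Rx.mk (nat_lit 502) (nat_lit 6) (nat_lit 6) (nat_lit 7) (nat_lit 7) (nat_lit 105) (nat_lit 281) r9_105 r8_281 (nat_lit 0) (nat_lit 0) (nat_lit 0) (nat_lit 0x8017985b4) (nat_lit 536870912),
  Rx.mk (nat_lit 511) (nat_lit 7) (nat_lit 7) (nat_lit 7) (nat_lit 7) (nat_lit 107) (nat_lit 278) r9_107 r8_278 (nat_lit 0) (nat_lit 0) (nat_lit 0) (nat_lit 0x8017985b4) (nat_lit 536870912)]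
noncomputable def e49_27 : List Rx := [
  Rx.mk (nat_lit 292) (nat_lit 4) (nat_lit 4) (nat_lit 4) (nat_lit 0) (nat_lit 86) (nat_lit 133) r9_86 r8_133 (nat_lit 94967087) (nat_lit 18637644) (nat_lit 17870946) (nat_lit 0x4127ec576) (nat_lit 1685261939),
  Rx.mk (nat_lit 294) (nat_lit 6) (nat_lit 4) (nat_lit 4) (nat_lit 1) (nat_lit 88) (nat_lit 135) r9_88 r8_135 (nat_lit 0) (nat_lit 29365924) (nat_lit 24700278) (nat_lit 0x6a57b692c) (nat_lit 941876114),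
  Rx.mk (nat_lit 300) (nat_lit 4) (nat_lit 5) (nat_lit 4) (nat_lit 2) (nat_lit 87) (nat_lit 134) r9_87 r8_134 (nat_lit 82173125) (nat_lit 0) (nat_lit 26394436) (nat_lit 0x6a21a438e) (nat_lit 999789173),
  Rx.mk (nat_lit 302) (nat_lit 6) (nat_lit 5) (nat_lit 4) (nat_lit 3) (nat_lit 89) (nat_lit 136) r9_89 r8_136 (nat_lit 0) (nat_lit 0) (nat_lit 24741287) (nat_lit 0x8017985b4) (nat_lit 561612199),
  Rx.mk (nat_lit 310) (nat_lit 6) (nat_lit 6) (nat_lit 4) (nat_lit 3) (nat_lit 90) (nat_lit 137) r9_90 r8_137 (nat_lit 0) (nat_lit 0) (nat_lit 24741287) (nat_lit 0x7fffb92e0) (nat_lit 563069249),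
  Rx.mk (nat_lit 438) (nat_lit 6) (nat_lit 6) (nat_lit 6) (nat_lit 7) (nat_lit 91) (nat_lit 145) r9_91 r8_145 (nat_lit 0) (nat_lit 0) (nat_lit 0) (nat_lit 0x8017985b4) (nat_lit 536870912),
  Rx.mk (nat_lit 484) (nat_lit 4) (nat_lit 4) (nat_lit 7) (nat_lit 4) (nat_lit 92) (nat_lit 138) r9_92 r8_138 (nat_lit 23390390) (nat_lit 35165148) (nat_lit 0) (nat_lit 0x65db9d3f8) (nat_lit 1018879500),
  Rx.mk (nat_lit 486) (nat_lit 6) (nat_lit 4) (nat_lit 7) (nat_lit 5) (nat_lit 94) (nat_lit 143) r9_94 r8_143 (nat_lit 0) (nat_lit 24489661) (nat_lit 0) (nat_lit 0x7ffa8f6de) (nat_lit 563135273),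
  Rx.mk (nat_lit 487) (nat_lit 7) (nat_lit 4) (nat_lit 7) (nat_lit 5) (nat_lit 96) (nat_lit 140) r9_96 r8_140 (nat_lit 0) (nat_lit 24741287) (nat_lit 0) (nat_lit 0x8017985b4) (nat_lit 561612199),
  Rx.mk (nat_lit 492) (nat_lit 4) (nat_lit 5) (nat_lit 7) (nat_lit 6) (nat_lit 93) (nat_lit 139) r9_93 r8_139 (nat_lit 24741287) (nat_lit 0) (nat_lit 0) (nat_lit 0x8017985b4) (nat_lit 561612199),
  Rx.mk (nat_lit 494) (nat_lit 6) (nat_lit 5) (nat_lit 7) (nat_lit 7) (nat_lit 95) (nat_lit 144) r9_95 r8_144 (nat_lit 0) (nat_lit 0) (nat_lit 0) (nat_lit 0x8017985b4) (nat_lit 536870912),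
  Rx.mk (nat_lit 495) (nat_lit 7) (nat_lit 5) (nat_lit 7) (nat_lit 7) (nat_lit 97) (nat_lit 141) r9_97 r8_141 (nat_lit 0) (nat_lit 0) (nat_lit 0) (nat_lit 0x8017985b4) (nat_lit 536870912),
  Rx.mk (nat_lit 511) (nat_lit 7) (nat_lit 7) (nat_lit 7) (nat_lit 7) (nat_lit 98) (nat_lit 142) r9_98 r8_142 (nat_lit 0) (nat_lit 0) (nat_lit 0) (nat_lit 0x8017985b4) (nat_lit 536870912)]
noncomputable def e49_28 : List Rx := [
  Rx.mk (nat_lit 231) (nat_lit 7) (nat_lit 4) (nat_lit 3) (nat_lit 5) (nat_lit 143) (nat_lit 306) r9_143 r10_306 (nat_lit 0) (nat_lit 24741287) (nat_lit 0) (nat_lit 0x7fffebc7c) (nat_lit 563058399),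
  Rx.mk (nat_lit 239) (nat_lit 7) (nat_lit 5) (nat_lit 3) (nat_lit 7) (nat_lit 144) (nat_lit 310) r9_144 r10_310 (nat_lit 0) (nat_lit 0) (nat_lit 0) (nat_lit 0x8017985b4) (nat_lit 536870912),
  Rx.mk (nat_lit 255) (nat_lit 7) (nat_lit 7) (nat_lit 3) (nat_lit 7) (nat_lit 145) (nat_lit 312) r9_145 r10_312 (nat_lit 0) (nat_lit 0) (nat_lit 0) (nat_lit 0x8017985b4) (nat_lit 536870912),
  Rx.mk (nat_lit 484) (nat_lit 4) (nat_lit 4) (nat_lit 7) (nat_lit 4) (nat_lit 136) (nat_lit 304) r9_136 r10_304 (nat_lit 28731315) (nat_lit 40997444) (nat_lit 0) (nat_lit 0x62fe769f4) (nat_lit 1076357921),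
  Rx.mk (nat_lit 486) (nat_lit 6) (nat_lit 4) (nat_lit 7) (nat_lit 5) (nat_lit 138) (nat_lit 307) r9_138 r10_307 (nat_lit 0) (nat_lit 25252468) (nat_lit 0) (nat_lit 0x7fd0be0b2) (nat_lit 566460430),
  Rx.mk (nat_lit 487) (nat_lit 7) (nat_lit 4) (nat_lit 7) (nat_lit 5) (nat_lit 141) (nat_lit 305) r9_141 r10_305 (nat_lit 0) (nat_lit 24741287) (nat_lit 0) (nat_lit 0x7fcd6a76c) (nat_lit 566141199),
  Rx.mk (nat_lit 492) (nat_lit 4) (nat_lit 5) (nat_lit 7) (nat_lit 6) (nat_lit 137) (nat_lit 308) r9_137 r10_308 (nat_lit 24741287) (nat_lit 0) (nat_lit 0) (nat_lit 0x8017985b4) (nat_lit 561612199),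
  Rx.mk (nat_lit 494) (nat_lit 6) (nat_lit 5) (nat_lit 7) (nat_lit 7) (nat_lit 139) (nat_lit 311) r9_139 r10_311 (nat_lit 0) (nat_lit 0) (nat_lit 0) (nat_lit 0x8017985b4) (nat_lit 536870912),
  Rx.mk (nat_lit 495) (nat_lit 7) (nat_lit 5) (nat_lit 7) (nat_lit 7) (nat_lit 142) (nat_lit 309) r9_142 r10_309 (nat_lit 0) (nat_lit 0) (nat_lit 0) (nat_lit 0x8017985b4) (nat_lit 536870912),
  Rx.mk (nat_lit 502) (nat_lit 6) (nat_lit 6) (nat_lit 7) (nat_lit 7) (nat_lit 140) (nat_lit 313) r9_140 r10_313 (nat_lit 0) (nat_lit 0) (nat_lit 0) (nat_lit 0x8017985b4) (nat_lit 536870912)]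
noncomputable def e49_29 : List Rx := [
  Rx.mk (nat_lit 231) (nat_lit 7) (nat_lit 4) (nat_lit 3) (nat_lit 5) (nat_lit 216) (nat_lit 330) r9_216 r11_330 (nat_lit 0) (nat_lit 24741287) (nat_lit 0) (nat_lit 0x8017985b4) (nat_lit 561612199),
  Rx.mk (nat_lit 239) (nat_lit 7) (nat_lit 5) (nat_lit 3) (nat_lit 7) (nat_lit 217) (nat_lit 331) r9_217 r11_331 (nat_lit 0) (nat_lit 0) (nat_lit 0) (nat_lit 0x8017985b4) (nat_lit 536870912),
  Rx.mk (nat_lit 255) (nat_lit 7) (nat_lit 7) (nat_lit 3) (nat_lit 7) (nat_lit 218) (nat_lit 332) r9_218 r11_332 (nat_lit 0) (nat_lit 0) (nat_lit 0) (nat_lit 0x8017985b4) (nat_lit 536870912)]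
noncomputable def e49_30 : List Rx := [
  Rx.mk (nat_lit 76) (nat_lit 4) (nat_lit 1) (nat_lit 1) (nat_lit 6) (nat_lit 307) (nat_lit 287) r9_307 r5_287 (nat_lit 111344299) (nat_lit 0) (nat_lit 0) (nat_lit 0x6b103b6e6) (nat_lit 987492011),
  Rx.mk (nat_lit 77) (nat_lit 5) (nat_lit 1) (nat_lit 1) (nat_lit 7) (nat_lit 308) (nat_lit 288) r9_308 r5_288 (nat_lit 0) (nat_lit 0) (nat_lit 0) (nat_lit 0x7ff67effe) (nat_lit 538897862),
  Rx.mk (nat_lit 79) (nat_lit 7) (nat_lit 1) (nat_lit 1) (nat_lit 7) (nat_lit 310) (nat_lit 289) r9_310 r5_289 (nat_lit 0) (nat_lit 0) (nat_lit 0) (nat_lit 0x7ff760b48) (nat_lit 538843712),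
  Rx.mk (nat_lit 111) (nat_lit 7) (nat_lit 5) (nat_lit 1) (nat_lit 7) (nat_lit 309) (nat_lit 286) r9_309 r5_286 (nat_lit 0) (nat_lit 0) (nat_lit 0) (nat_lit 0x7ff9dad06) (nat_lit 538691612)]
noncomputable def e49_31 : List Rx := [
  Rx.mk (nat_lit 76) (nat_lit 4) (nat_lit 1) (nat_lit 1) (nat_lit 6) (nat_lit 320) (nat_lit 347) r9_320 r11_347 (nat_lit 34238693) (nat_lit 0) (nat_lit 0) (nat_lit 0x7ed4be032) (nat_lit 591026955),
  Rx.mk (nat_lit 77) (nat_lit 5) (nat_lit 1) (nat_lit 1) (nat_lit 7) (nat_lit 321) (nat_lit 348) r9_321 r11_348 (nat_lit 0) (nat_lit 0) (nat_lit 0) (nat_lit 0x8017985b4) (nat_lit 536870912),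
  Rx.mk (nat_lit 79) (nat_lit 7) (nat_lit 1) (nat_lit 1) (nat_lit 7) (nat_lit 323) (nat_lit 349) r9_323 r11_349 (nat_lit 0) (nat_lit 0) (nat_lit 0) (nat_lit 0x8017985b4) (nat_lit 536870912),
  Rx.mk (nat_lit 111) (nat_lit 7) (nat_lit 5) (nat_lit 1) (nat_lit 7) (nat_lit 322) (nat_lit 346) r9_322 r11_346 (nat_lit 0) (nat_lit 0) (nat_lit 0) (nat_lit 0x8017985b4) (nat_lit 536870912),
  Rx.mk (nat_lit 367) (nat_lit 7) (nat_lit 5) (nat_lit 5) (nat_lit 7) (nat_lit 319) (nat_lit 345) r9_319 r11_345 (nat_lit 0) (nat_lit 0) (nat_lit 0) (nat_lit 0x8017985b4) (nat_lit 536870912)]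
noncomputable def e49_32 : List Rx := [
  Rx.mk (nat_lit 207) (nat_lit 7) (nat_lit 1) (nat_lit 3) (nat_lit 7) (nat_lit 62) (nat_lit 169) r9_62 r6_169 (nat_lit 0) (nat_lit 0) (nat_lit 0) (nat_lit 0x8017985b4) (nat_lit 536870912),
  Rx.mk (nat_lit 239) (nat_lit 7) (nat_lit 5) (nat_lit 3) (nat_lit 7) (nat_lit 61) (nat_lit 168) r9_61 r6_168 (nat_lit 0) (nat_lit 0) (nat_lit 0) (nat_lit 0x8017985b4) (nat_lit 536870912)]
noncomputable def e49_33 : List Rx := [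
  Rx.mk (nat_lit 239) (nat_lit 7) (nat_lit 5) (nat_lit 3) (nat_lit 7) (nat_lit 18) (nat_lit 123) r9_18 r5_123 (nat_lit 0) (nat_lit 0) (nat_lit 0) (nat_lit 0x8017985b4) (nat_lit 536870912)]
noncomputable def e49_34 : List Rx := [
  Rx.mk (nat_lit 239) (nat_lit 7) (nat_lit 5) (nat_lit 3) (nat_lit 7) (nat_lit 147) (nat_lit 123) r9_147 r11_123 (nat_lit 0) (nat_lit 0) (nat_lit 0) (nat_lit 0x8017985b4) (nat_lit 536870912),
  Rx.mk (nat_lit 495) (nat_lit 7) (nat_lit 5) (nat_lit 7) (nat_lit 7) (nat_lit 146) (nat_lit 124) r9_146 r11_124 (nat_lit 0) (nat_lit 0) (nat_lit 0) (nat_lit 0x8017985b4) (nat_lit 536870912)]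
noncomputable def e49_35 : List Rx := [
  Rx.mk (nat_lit 15) (nat_lit 7) (nat_lit 1) (nat_lit 0) (nat_lit 3) (nat_lit 220) (nat_lit 290) r9_220 r6_290 (nat_lit 0) (nat_lit 0) (nat_lit 25547425) (nat_lit 0x7ed7c15fe) (nat_lit 582171937),
  Rx.mk (nat_lit 47) (nat_lit 7) (nat_lit 5) (nat_lit 0) (nat_lit 3) (nat_lit 219) (nat_lit 293) r9_219 r6_293 (nat_lit 0) (nat_lit 0) (nat_lit 24741287) (nat_lit 0x7fbf624bc) (nat_lit 567020899),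
  Rx.mk (nat_lit 79) (nat_lit 7) (nat_lit 1) (nat_lit 1) (nat_lit 7) (nat_lit 222) (nat_lit 291) r9_222 r6_291 (nat_lit 0) (nat_lit 0) (nat_lit 0) (nat_lit 0x8017985b4) (nat_lit 536870912),
  Rx.mk (nat_lit 111) (nat_lit 7) (nat_lit 5) (nat_lit 1) (nat_lit 7) (nat_lit 221) (nat_lit 294) r9_221 r6_294 (nat_lit 0) (nat_lit 0) (nat_lit 0) (nat_lit 0x8017985b4) (nat_lit 536870912),
  Rx.mk (nat_lit 207) (nat_lit 7) (nat_lit 1) (nat_lit 3) (nat_lit 7) (nat_lit 223) (nat_lit 292) r9_223 r6_292 (nat_lit 0) (nat_lit 0) (nat_lit 0) (nat_lit 0x8017985b4) (nat_lit 536870912)]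
noncomputable def e49_36 : List Rx := [
  Rx.mk (nat_lit 47) (nat_lit 7) (nat_lit 5) (nat_lit 0) (nat_lit 3) (nat_lit 244) (nat_lit 381) r9_244 r12_381 (nat_lit 0) (nat_lit 0) (nat_lit 25288573) (nat_lit 0x7f59c63d8) (nat_lit 573834985),
  Rx.mk (nat_lit 111) (nat_lit 7) (nat_lit 5) (nat_lit 1) (nat_lit 7) (nat_lit 245) (nat_lit 382) r9_245 r12_382 (nat_lit 0) (nat_lit 0) (nat_lit 0) (nat_lit 0x8017985b4) (nat_lit 536870912),
  Rx.mk (nat_lit 207) (nat_lit 7) (nat_lit 1) (nat_lit 3) (nat_lit 7) (nat_lit 247) (nat_lit 380) r9_247 r12_380 (nat_lit 0) (nat_lit 0) (nat_lit 0) (nat_lit 0x8017985b4) (nat_lit 536870912),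
  Rx.mk (nat_lit 239) (nat_lit 7) (nat_lit 5) (nat_lit 3) (nat_lit 7) (nat_lit 246) (nat_lit 383) r9_246 r12_383 (nat_lit 0) (nat_lit 0) (nat_lit 0) (nat_lit 0x8017985b4) (nat_lit 536870912)]
noncomputable def e49_37 : List Rx := [
  Rx.mk (nat_lit 0) (nat_lit 0) (nat_lit 0) (nat_lit 0) (nat_lit 0) (nat_lit 23) (nat_lit 155) r9_23 r0_155 (nat_lit 20103060) (nat_lit 11766479) (nat_lit 17383342) (nat_lit 0x26bb582ee) (nat_lit 2030296093),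
  Rx.mk (nat_lit 3) (nat_lit 3) (nat_lit 0) (nat_lit 0) (nat_lit 1) (nat_lit 25) (nat_lit 161) r9_25 r0_161 (nat_lit 0) (nat_lit 15320849) (nat_lit 15232789) (nat_lit 0x58679699e) (nat_lit 1208372050),
  Rx.mk (nat_lit 8) (nat_lit 0) (nat_lit 1) (nat_lit 0) (nat_lit 2) (nat_lit 24) (nat_lit 156) r9_24 r0_156 (nat_lit 21454755) (nat_lit 0) (nat_lit 21246965) (nat_lit 0x536054f6e) (nat_lit 1301860482),
  Rx.mk (nat_lit 11) (nat_lit 3) (nat_lit 1) (nat_lit 0) (nat_lit 3) (nat_lit 26) (nat_lit 162) r9_26 r0_162 (nat_lit 0) (nat_lit 0) (nat_lit 24075478) (nat_lit 0x769019b32) (nat_lit 714298390),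
  Rx.mk (nat_lit 72) (nat_lit 0) (nat_lit 1) (nat_lit 1) (nat_lit 6) (nat_lit 27) (nat_lit 157) r9_27 r0_157 (nat_lit 27681734) (nat_lit 0) (nat_lit 0) (nat_lit 0x7735d76f0) (nat_lit 707450746),
  Rx.mk (nat_lit 75) (nat_lit 3) (nat_lit 1) (nat_lit 1) (nat_lit 7) (nat_lit 28) (nat_lit 163) r9_28 r0_163 (nat_lit 0) (nat_lit 0) (nat_lit 0) (nat_lit 0x7feb1ffb4) (nat_lit 539592162),
  Rx.mk (nat_lit 128) (nat_lit 0) (nat_lit 0) (nat_lit 2) (nat_lit 4) (nat_lit 29) (nat_lit 158) r9_29 r0_158 (nat_lit 96643738) (nat_lit 19805728) (nat_lit 0) (nat_lit 0x57dc9e896) (nat_lit 1303076978),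
  Rx.mk (nat_lit 131) (nat_lit 3) (nat_lit 0) (nat_lit 2) (nat_lit 5) (nat_lit 33) (nat_lit 167) r9_33 r0_167 (nat_lit 0) (nat_lit 23123952) (nat_lit 0) (nat_lit 0x800002f3a) (nat_lit 561432214),
  Rx.mk (nat_lit 136) (nat_lit 0) (nat_lit 1) (nat_lit 2) (nat_lit 6) (nat_lit 30) (nat_lit 159) r9_30 r0_159 (nat_lit 39103353) (nat_lit 0) (nat_lit 0) (nat_lit 0x7f0bc5f80) (nat_lit 592509415),
  Rx.mk (nat_lit 139) (nat_lit 3) (nat_lit 1) (nat_lit 2) (nat_lit 7) (nat_lit 34) (nat_lit 168) r9_34 r0_168 (nat_lit 0) (nat_lit 0) (nat_lit 0) (nat_lit 0x8017985b4) (nat_lit 536870912),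
  Rx.mk (nat_lit 144) (nat_lit 0) (nat_lit 2) (nat_lit 2) (nat_lit 6) (nat_lit 31) (nat_lit 160) r9_31 r0_160 (nat_lit 140602240) (nat_lit 0) (nat_lit 0) (nat_lit 0x7cdd650c0) (nat_lit 729034802),
  Rx.mk (nat_lit 146) (nat_lit 2) (nat_lit 2) (nat_lit 2) (nat_lit 7) (nat_lit 32) (nat_lit 170) r9_32 r0_170 (nat_lit 0) (nat_lit 0) (nat_lit 0) (nat_lit 0x7fec37154) (nat_lit 539516912),
  Rx.mk (nat_lit 147) (nat_lit 3) (nat_lit 2) (nat_lit 2) (nat_lit 7) (nat_lit 35) (nat_lit 169) r9_35 r0_169 (nat_lit 0) (nat_lit 0) (nat_lit 0) (nat_lit 0x8017985b4) (nat_lit 536870912),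
  Rx.mk (nat_lit 195) (nat_lit 3) (nat_lit 0) (nat_lit 3) (nat_lit 5) (nat_lit 37) (nat_lit 164) r9_37 r0_164 (nat_lit 0) (nat_lit 24266921) (nat_lit 0) (nat_lit 0x771d50316) (nat_lit 705582633),
  Rx.mk (nat_lit 203) (nat_lit 3) (nat_lit 1) (nat_lit 3) (nat_lit 7) (nat_lit 38) (nat_lit 165) r9_38 r0_165 (nat_lit 0) (nat_lit 0) (nat_lit 0) (nat_lit 0x7fee77a72) (nat_lit 539388362),
  Rx.mk (nat_lit 219) (nat_lit 3) (nat_lit 3) (nat_lit 3) (nat_lit 7) (nat_lit 39) (nat_lit 166) r9_39 r0_166 (nat_lit 0) (nat_lit 0) (nat_lit 0) (nat_lit 0x8002decd6) (nat_lit 538139162),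
  Rx.mk (nat_lit 223) (nat_lit 7) (nat_lit 3) (nat_lit 3) (nat_lit 7) (nat_lit 36) (nat_lit 154) r9_36 r0_154 (nat_lit 0) (nat_lit 0) (nat_lit 0) (nat_lit 0x8017985b4) (nat_lit 536870912)]
noncomputable def e49_38 : List Rx := [
  Rx.mk (nat_lit 8) (nat_lit 0) (nat_lit 1) (nat_lit 0) (nat_lit 2) (nat_lit 155) (nat_lit 257) r9_155 r0_257 (nat_lit 49590700) (nat_lit 0) (nat_lit 41159980) (nat_lit 0x50d4cab80) (nat_lit 1391082492),
  Rx.mk (nat_lit 11) (nat_lit 3) (nat_lit 1) (nat_lit 0) (nat_lit 3) (nat_lit 156) (nat_lit 258) r9_156 r0_258 (nat_lit 0) (nat_lit 0) (nat_lit 30127539) (nat_lit 0x7a85fc8e4) (nat_lit 656361051),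
  Rx.mk (nat_lit 72) (nat_lit 0) (nat_lit 1) (nat_lit 1) (nat_lit 6) (nat_lit 157) (nat_lit 259) r9_157 r0_259 (nat_lit 28301978) (nat_lit 0) (nat_lit 0) (nat_lit 0x71f06598c) (nat_lit 793284240),
  Rx.mk (nat_lit 75) (nat_lit 3) (nat_lit 1) (nat_lit 1) (nat_lit 7) (nat_lit 158) (nat_lit 260) r9_158 r0_260 (nat_lit 0) (nat_lit 0) (nat_lit 0) (nat_lit 0x7fffa9a3e) (nat_lit 538336962),
  Rx.mk (nat_lit 203) (nat_lit 3) (nat_lit 1) (nat_lit 3) (nat_lit 7) (nat_lit 159) (nat_lit 261) r9_159 r0_261 (nat_lit 0) (nat_lit 0) (nat_lit 0) (nat_lit 0x800dc4ccc) (nat_lit 537471612)]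
noncomputable def e49_39 : List Rx := [
  Rx.mk (nat_lit 0) (nat_lit 0) (nat_lit 0) (nat_lit 0) (nat_lit 0) (nat_lit 170) (nat_lit 204) r9_170 r7_204 (nat_lit 19525038) (nat_lit 13837945) (nat_lit 25638298) (nat_lit 0x3a3a221ac) (nat_lit 1724813643),
  Rx.mk (nat_lit 3) (nat_lit 3) (nat_lit 0) (nat_lit 0) (nat_lit 1) (nat_lit 172) (nat_lit 210) r9_172 r7_210 (nat_lit 0) (nat_lit 38278625) (nat_lit 30361877) (nat_lit 0x697120ad0) (nat_lit 971010514),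
  Rx.mk (nat_lit 8) (nat_lit 0) (nat_lit 1) (nat_lit 0) (nat_lit 2) (nat_lit 171) (nat_lit 205) r9_171 r7_205 (nat_lit 35325188) (nat_lit 0) (nat_lit 50988633) (nat_lit 0x657b86a96) (nat_lit 1052706133),
  Rx.mk (nat_lit 11) (nat_lit 3) (nat_lit 1) (nat_lit 0) (nat_lit 3) (nat_lit 173) (nat_lit 211) r9_173 r7_211 (nat_lit 0) (nat_lit 0) (nat_lit 24741287) (nat_lit 0x800c2759a) (nat_lit 562311049),
  Rx.mk (nat_lit 72) (nat_lit 0) (nat_lit 1) (nat_lit 1) (nat_lit 6) (nat_lit 174) (nat_lit 206) r9_174 r7_206 (nat_lit 24741287) (nat_lit 0) (nat_lit 0) (nat_lit 0x8017985b4) (nat_lit 561612199),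
  Rx.mk (nat_lit 75) (nat_lit 3) (nat_lit 1) (nat_lit 1) (nat_lit 7) (nat_lit 175) (nat_lit 212) r9_175 r7_212 (nat_lit 0) (nat_lit 0) (nat_lit 0) (nat_lit 0x8017985b4) (nat_lit 536870912),
  Rx.mk (nat_lit 128) (nat_lit 0) (nat_lit 0) (nat_lit 2) (nat_lit 4) (nat_lit 176) (nat_lit 207) r9_176 r7_207 (nat_lit 22236043) (nat_lit 30412328) (nat_lit 0) (nat_lit 0x6db23206a) (nat_lit 886234833),
  Rx.mk (nat_lit 136) (nat_lit 0) (nat_lit 1) (nat_lit 2) (nat_lit 6) (nat_lit 177) (nat_lit 208) r9_177 r7_208 (nat_lit 24741287) (nat_lit 0) (nat_lit 0) (nat_lit 0x8017985b4) (nat_lit 561612199),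
  Rx.mk (nat_lit 144) (nat_lit 0) (nat_lit 2) (nat_lit 2) (nat_lit 6) (nat_lit 178) (nat_lit 209) r9_178 r7_209 (nat_lit 24741287) (nat_lit 0) (nat_lit 0) (nat_lit 0x8017985b4) (nat_lit 561612199),
  Rx.mk (nat_lit 146) (nat_lit 2) (nat_lit 2) (nat_lit 2) (nat_lit 7) (nat_lit 179) (nat_lit 216) r9_179 r7_216 (nat_lit 0) (nat_lit 0) (nat_lit 0) (nat_lit 0x8017985b4) (nat_lit 536870912),
  Rx.mk (nat_lit 195) (nat_lit 3) (nat_lit 0) (nat_lit 3) (nat_lit 5) (nat_lit 180) (nat_lit 213) r9_180 r7_213 (nat_lit 0) (nat_lit 24741287) (nat_lit 0) (nat_lit 0x8017985b4) (nat_lit 561612199),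
  Rx.mk (nat_lit 203) (nat_lit 3) (nat_lit 1) (nat_lit 3) (nat_lit 7) (nat_lit 181) (nat_lit 214) r9_181 r7_214 (nat_lit 0) (nat_lit 0) (nat_lit 0) (nat_lit 0x8017985b4) (nat_lit 536870912),
  Rx.mk (nat_lit 219) (nat_lit 3) (nat_lit 3) (nat_lit 3) (nat_lit 7) (nat_lit 182) (nat_lit 215) r9_182 r7_215 (nat_lit 0) (nat_lit 0) (nat_lit 0) (nat_lit 0x8017985b4) (nat_lit 536870912)]
noncomputable def e49_40 : List Rx := [
  Rx.mk (nat_lit 73) (nat_lit 1) (nat_lit 1) (nat_lit 1) (nat_lit 7) (nat_lit 293) (nat_lit 288) r9_293 r2_288 (nat_lit 0) (nat_lit 0) (nat_lit 0) (nat_lit 0x8017985b4) (nat_lit 536870912)]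
noncomputable def e49_41 : List Rx := [
  Rx.mk (nat_lit 73) (nat_lit 1) (nat_lit 1) (nat_lit 1) (nat_lit 7) (nat_lit 299) (nat_lit 266) r9_299 r9_266 (nat_lit 0) (nat_lit 0) (nat_lit 0) (nat_lit 0x8017985b4) (nat_lit 536870912)]
noncomputable def e49_42 : List Rx := [
  Rx.mk (nat_lit 73) (nat_lit 1) (nat_lit 1) (nat_lit 1) (nat_lit 7) (nat_lit 298) (nat_lit 298) r9_298 r9_298 (nat_lit 0) (nat_lit 0) (nat_lit 0) (nat_lit 0x8017985b4) (nat_lit 536870912)]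
noncomputable def e49_43 : List Rx := [
  Rx.mk (nat_lit 8) (nat_lit 0) (nat_lit 1) (nat_lit 0) (nat_lit 2) (nat_lit 160) (nat_lit 262) r9_160 r1_262 (nat_lit 68973086) (nat_lit 0) (nat_lit 38504019) (nat_lit 0x645605570) (nat_lit 1092404867),
  Rx.mk (nat_lit 9) (nat_lit 1) (nat_lit 1) (nat_lit 0) (nat_lit 3) (nat_lit 161) (nat_lit 263) r9_161 r1_263 (nat_lit 0) (nat_lit 0) (nat_lit 24741287) (nat_lit 0x8004fdb2a) (nat_lit 562749199),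
  Rx.mk (nat_lit 11) (nat_lit 3) (nat_lit 1) (nat_lit 0) (nat_lit 3) (nat_lit 162) (nat_lit 264) r9_162 r1_264 (nat_lit 0) (nat_lit 0) (nat_lit 24741287) (nat_lit 0x8017985b4) (nat_lit 561612199),
  Rx.mk (nat_lit 72) (nat_lit 0) (nat_lit 1) (nat_lit 1) (nat_lit 6) (nat_lit 163) (nat_lit 265) r9_163 r1_265 (nat_lit 24741287) (nat_lit 0) (nat_lit 0) (nat_lit 0x8017985b4) (nat_lit 561612199),
  Rx.mk (nat_lit 73) (nat_lit 1) (nat_lit 1) (nat_lit 1) (nat_lit 7) (nat_lit 164) (nat_lit 266) r9_164 r1_266 (nat_lit 0) (nat_lit 0) (nat_lit 0) (nat_lit 0x8017985b4) (nat_lit 536870912),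
  Rx.mk (nat_lit 75) (nat_lit 3) (nat_lit 1) (nat_lit 1) (nat_lit 7) (nat_lit 165) (nat_lit 267) r9_165 r1_267 (nat_lit 0) (nat_lit 0) (nat_lit 0) (nat_lit 0x8017985b4) (nat_lit 536870912),
  Rx.mk (nat_lit 203) (nat_lit 3) (nat_lit 1) (nat_lit 3) (nat_lit 7) (nat_lit 166) (nat_lit 268) r9_166 r1_268 (nat_lit 0) (nat_lit 0) (nat_lit 0) (nat_lit 0x8017985b4) (nat_lit 536870912)]
noncomputable def e49_44 : List Rx := [
  Rx.mk (nat_lit 0) (nat_lit 0) (nat_lit 0) (nat_lit 0) (nat_lit 0) (nat_lit 183) (nat_lit 159) r9_183 r8_159 (nat_lit 27871597) (nat_lit 18255310) (nat_lit 23644808) (nat_lit 0x407f928e4) (nat_lit 1634185527),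
  Rx.mk (nat_lit 1) (nat_lit 1) (nat_lit 0) (nat_lit 0) (nat_lit 1) (nat_lit 185) (nat_lit 165) r9_185 r8_165 (nat_lit 0) (nat_lit 130895702) (nat_lit 40805453) (nat_lit 0x7010e2518) (nat_lit 966967117),
  Rx.mk (nat_lit 3) (nat_lit 3) (nat_lit 0) (nat_lit 0) (nat_lit 1) (nat_lit 187) (nat_lit 171) r9_187 r8_171 (nat_lit 0) (nat_lit 55618136) (nat_lit 30134438) (nat_lit 0x6f41c019a) (nat_lit 894101936),
  Rx.mk (nat_lit 8) (nat_lit 0) (nat_lit 1) (nat_lit 0) (nat_lit 2) (nat_lit 184) (nat_lit 160) r9_184 r8_160 (nat_lit 34699300) (nat_lit 0) (nat_lit 50716108) (nat_lit 0x6b512c18c) (nat_lit 957466070),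
  Rx.mk (nat_lit 9) (nat_lit 1) (nat_lit 1) (nat_lit 0) (nat_lit 3) (nat_lit 186) (nat_lit 166) r9_186 r8_166 (nat_lit 0) (nat_lit 0) (nat_lit 23667545) (nat_lit 0x7fe4ef41e) (nat_lit 563630257),
  Rx.mk (nat_lit 11) (nat_lit 3) (nat_lit 1) (nat_lit 0) (nat_lit 3) (nat_lit 188) (nat_lit 172) r9_188 r8_172 (nat_lit 0) (nat_lit 0) (nat_lit 24741287) (nat_lit 0x8017985b4) (nat_lit 561612199),
  Rx.mk (nat_lit 72) (nat_lit 0) (nat_lit 1) (nat_lit 1) (nat_lit 6) (nat_lit 189) (nat_lit 161) r9_189 r8_161 (nat_lit 25054288) (nat_lit 0) (nat_lit 0) (nat_lit 0x800856290) (nat_lit 562857500),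
  Rx.mk (nat_lit 73) (nat_lit 1) (nat_lit 1) (nat_lit 1) (nat_lit 7) (nat_lit 190) (nat_lit 167) r9_190 r8_167 (nat_lit 0) (nat_lit 0) (nat_lit 0) (nat_lit 0x8017985b4) (nat_lit 536870912),
  Rx.mk (nat_lit 75) (nat_lit 3) (nat_lit 1) (nat_lit 1) (nat_lit 7) (nat_lit 191) (nat_lit 173) r9_191 r8_173 (nat_lit 0) (nat_lit 0) (nat_lit 0) (nat_lit 0x8017985b4) (nat_lit 536870912),
  Rx.mk (nat_lit 128) (nat_lit 0) (nat_lit 0) (nat_lit 2) (nat_lit 4) (nat_lit 192) (nat_lit 162) r9_192 r8_162 (nat_lit 28133172) (nat_lit 40482942) (nat_lit 0) (nat_lit 0x6d0747a06) (nat_lit 912998026),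
  Rx.mk (nat_lit 129) (nat_lit 1) (nat_lit 0) (nat_lit 2) (nat_lit 5) (nat_lit 195) (nat_lit 168) r9_195 r8_168 (nat_lit 0) (nat_lit 24741287) (nat_lit 0) (nat_lit 0x8017985b4) (nat_lit 561612199),
  Rx.mk (nat_lit 136) (nat_lit 0) (nat_lit 1) (nat_lit 2) (nat_lit 6) (nat_lit 193) (nat_lit 163) r9_193 r8_163 (nat_lit 24741287) (nat_lit 0) (nat_lit 0) (nat_lit 0x8009d4ae0) (nat_lit 562452249),
  Rx.mk (nat_lit 137) (nat_lit 1) (nat_lit 1) (nat_lit 2) (nat_lit 7) (nat_lit 196) (nat_lit 169) r9_196 r8_169 (nat_lit 0) (nat_lit 0) (nat_lit 0) (nat_lit 0x8017985b4) (nat_lit 536870912),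
  Rx.mk (nat_lit 144) (nat_lit 0) (nat_lit 2) (nat_lit 2) (nat_lit 6) (nat_lit 194) (nat_lit 164) r9_194 r8_164 (nat_lit 24741287) (nat_lit 0) (nat_lit 0) (nat_lit 0x8017985b4) (nat_lit 561612199),
  Rx.mk (nat_lit 145) (nat_lit 1) (nat_lit 2) (nat_lit 2) (nat_lit 7) (nat_lit 197) (nat_lit 170) r9_197 r8_170 (nat_lit 0) (nat_lit 0) (nat_lit 0) (nat_lit 0x8017985b4) (nat_lit 536870912),
  Rx.mk (nat_lit 146) (nat_lit 2) (nat_lit 2) (nat_lit 2) (nat_lit 7) (nat_lit 198) (nat_lit 177) r9_198 r8_177 (nat_lit 0) (nat_lit 0) (nat_lit 0) (nat_lit 0x8017985b4) (nat_lit 536870912),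
  Rx.mk (nat_lit 195) (nat_lit 3) (nat_lit 0) (nat_lit 3) (nat_lit 5) (nat_lit 199) (nat_lit 174) r9_199 r8_174 (nat_lit 0) (nat_lit 24741287) (nat_lit 0) (nat_lit 0x8017985b4) (nat_lit 561612199),
  Rx.mk (nat_lit 203) (nat_lit 3) (nat_lit 1) (nat_lit 3) (nat_lit 7) (nat_lit 200) (nat_lit 175) r9_200 r8_175 (nat_lit 0) (nat_lit 0) (nat_lit 0) (nat_lit 0x8017985b4) (nat_lit 536870912),
  Rx.mk (nat_lit 219) (nat_lit 3) (nat_lit 3) (nat_lit 3) (nat_lit 7) (nat_lit 201) (nat_lit 176) r9_201 r8_176 (nat_lit 0) (nat_lit 0) (nat_lit 0) (nat_lit 0x8017985b4) (nat_lit 536870912)]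
noncomputable def e49_45 : List Rx := [
  Rx.mk (nat_lit 0) (nat_lit 0) (nat_lit 0) (nat_lit 0) (nat_lit 0) (nat_lit 40) (nat_lit 170) r9_40 r1_170 (nat_lit 56659484) (nat_lit 24261554) (nat_lit 49328540) (nat_lit 0x3f56488d6) (nat_lit 1713461290),
  Rx.mk (nat_lit 3) (nat_lit 3) (nat_lit 0) (nat_lit 0) (nat_lit 1) (nat_lit 41) (nat_lit 173) r9_41 r1_173 (nat_lit 0) (nat_lit 27290911) (nat_lit 32551245) (nat_lit 0x6e1360b66) (nat_lit 887289868),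
  Rx.mk (nat_lit 128) (nat_lit 0) (nat_lit 0) (nat_lit 2) (nat_lit 4) (nat_lit 42) (nat_lit 171) r9_42 r1_171 (nat_lit 43212165) (nat_lit 26252196) (nat_lit 0) (nat_lit 0x6d3fdbff2) (nat_lit 910271473),
  Rx.mk (nat_lit 131) (nat_lit 3) (nat_lit 0) (nat_lit 2) (nat_lit 5) (nat_lit 45) (nat_lit 176) r9_45 r1_176 (nat_lit 0) (nat_lit 24741287) (nat_lit 0) (nat_lit 0x8017985b4) (nat_lit 561612199),
  Rx.mk (nat_lit 144) (nat_lit 0) (nat_lit 2) (nat_lit 2) (nat_lit 6) (nat_lit 43) (nat_lit 172) r9_43 r1_172 (nat_lit 35087009) (nat_lit 0) (nat_lit 0) (nat_lit 0x7eb627b3c) (nat_lit 593834521),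
  Rx.mk (nat_lit 146) (nat_lit 2) (nat_lit 2) (nat_lit 2) (nat_lit 7) (nat_lit 44) (nat_lit 178) r9_44 r1_178 (nat_lit 0) (nat_lit 0) (nat_lit 0) (nat_lit 0x7ed9f7242) (nat_lit 556534462),
  Rx.mk (nat_lit 147) (nat_lit 3) (nat_lit 2) (nat_lit 2) (nat_lit 7) (nat_lit 46) (nat_lit 177) r9_46 r1_177 (nat_lit 0) (nat_lit 0) (nat_lit 0) (nat_lit 0x8017985b4) (nat_lit 536870912),
  Rx.mk (nat_lit 195) (nat_lit 3) (nat_lit 0) (nat_lit 3) (nat_lit 5) (nat_lit 48) (nat_lit 174) r9_48 r1_174 (nat_lit 0) (nat_lit 24741287) (nat_lit 0) (nat_lit 0x8004104a6) (nat_lit 562806149),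
  Rx.mk (nat_lit 219) (nat_lit 3) (nat_lit 3) (nat_lit 3) (nat_lit 7) (nat_lit 49) (nat_lit 175) r9_49 r1_175 (nat_lit 0) (nat_lit 0) (nat_lit 0) (nat_lit 0x8017985b4) (nat_lit 536870912),
  Rx.mk (nat_lit 223) (nat_lit 7) (nat_lit 3) (nat_lit 3) (nat_lit 7) (nat_lit 47) (nat_lit 169) r9_47 r1_169 (nat_lit 0) (nat_lit 0) (nat_lit 0) (nat_lit 0x8017985b4) (nat_lit 536870912)]
noncomputable def e49_46 : List Rx := [
  Rx.mk (nat_lit 0) (nat_lit 0) (nat_lit 0) (nat_lit 0) (nat_lit 0) (nat_lit 2) (nat_lit 170) r9_2 r2_170 (nat_lit 12054409) (nat_lit 9380650) (nat_lit 10208836) (nat_lit 0x4191c7aea) (nat_lit 1578696407),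
  Rx.mk (nat_lit 3) (nat_lit 3) (nat_lit 0) (nat_lit 0) (nat_lit 1) (nat_lit 3) (nat_lit 173) r9_3 r2_173 (nat_lit 0) (nat_lit 27923274) (nat_lit 18448465) (nat_lit 0x696412f82) (nat_lit 949568801),
  Rx.mk (nat_lit 27) (nat_lit 3) (nat_lit 3) (nat_lit 0) (nat_lit 3) (nat_lit 4) (nat_lit 174) r9_4 r2_174 (nat_lit 0) (nat_lit 0) (nat_lit 24741287) (nat_lit 0x7f9cd5ee4) (nat_lit 569152349),
  Rx.mk (nat_lit 128) (nat_lit 0) (nat_lit 0) (nat_lit 2) (nat_lit 4) (nat_lit 5) (nat_lit 171) r9_5 r2_171 (nat_lit 19348784) (nat_lit 28184396) (nat_lit 0) (nat_lit 0x6737e5402) (nat_lit 985858192),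
  Rx.mk (nat_lit 131) (nat_lit 3) (nat_lit 0) (nat_lit 2) (nat_lit 5) (nat_lit 8) (nat_lit 176) r9_8 r2_176 (nat_lit 0) (nat_lit 24741287) (nat_lit 0) (nat_lit 0x800e5e7c8) (nat_lit 562175649),
  Rx.mk (nat_lit 144) (nat_lit 0) (nat_lit 2) (nat_lit 2) (nat_lit 6) (nat_lit 6) (nat_lit 172) r9_6 r2_172 (nat_lit 23881749) (nat_lit 0) (nat_lit 0) (nat_lit 0x7ffacd09c) (nat_lit 562515361),
  Rx.mk (nat_lit 146) (nat_lit 2) (nat_lit 2) (nat_lit 2) (nat_lit 7) (nat_lit 7) (nat_lit 179) r9_7 r2_179 (nat_lit 0) (nat_lit 0) (nat_lit 0) (nat_lit 0x8017985b4) (nat_lit 536870912),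
  Rx.mk (nat_lit 147) (nat_lit 3) (nat_lit 2) (nat_lit 2) (nat_lit 7) (nat_lit 9) (nat_lit 178) r9_9 r2_178 (nat_lit 0) (nat_lit 0) (nat_lit 0) (nat_lit 0x8017985b4) (nat_lit 536870912),
  Rx.mk (nat_lit 155) (nat_lit 3) (nat_lit 3) (nat_lit 2) (nat_lit 7) (nat_lit 10) (nat_lit 177) r9_10 r2_177 (nat_lit 0) (nat_lit 0) (nat_lit 0) (nat_lit 0x8017985b4) (nat_lit 536870912),
  Rx.mk (nat_lit 219) (nat_lit 3) (nat_lit 3) (nat_lit 3) (nat_lit 7) (nat_lit 13) (nat_lit 175) r9_13 r2_175 (nat_lit 0) (nat_lit 0) (nat_lit 0) (nat_lit 0x8017985b4) (nat_lit 536870912),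
  Rx.mk (nat_lit 223) (nat_lit 7) (nat_lit 3) (nat_lit 3) (nat_lit 7) (nat_lit 12) (nat_lit 169) r9_12 r2_169 (nat_lit 0) (nat_lit 0) (nat_lit 0) (nat_lit 0x8017985b4) (nat_lit 536870912),
  Rx.mk (nat_lit 255) (nat_lit 7) (nat_lit 7) (nat_lit 3) (nat_lit 7) (nat_lit 11) (nat_lit 168) r9_11 r2_168 (nat_lit 0) (nat_lit 0) (nat_lit 0) (nat_lit 0x8017985b4) (nat_lit 536870912)]
noncomputable def e49_47 : List Rx := [
  Rx.mk (nat_lit 0) (nat_lit 0) (nat_lit 0) (nat_lit 0) (nat_lit 0) (nat_lit 202) (nat_lit 266) r9_202 r8_266 (nat_lit 23929726) (nat_lit 16962537) (nat_lit 37514210) (nat_lit 0x3e09e15de) (nat_lit 1682604485),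
  Rx.mk (nat_lit 3) (nat_lit 3) (nat_lit 0) (nat_lit 0) (nat_lit 1) (nat_lit 203) (nat_lit 267) r9_203 r8_267 (nat_lit 0) (nat_lit 34060215) (nat_lit 27096766) (nat_lit 0x698596640) (nat_lit 962235943),
  Rx.mk (nat_lit 128) (nat_lit 0) (nat_lit 0) (nat_lit 2) (nat_lit 4) (nat_lit 204) (nat_lit 269) r9_204 r8_269 (nat_lit 25355923) (nat_lit 29280147) (nat_lit 0) (nat_lit 0x6cdd7d4fa) (nat_lit 901656982),
  Rx.mk (nat_lit 144) (nat_lit 0) (nat_lit 2) (nat_lit 2) (nat_lit 6) (nat_lit 205) (nat_lit 271) r9_205 r8_271 (nat_lit 24741287) (nat_lit 0) (nat_lit 0) (nat_lit 0x8017985b4) (nat_lit 561612199),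
  Rx.mk (nat_lit 146) (nat_lit 2) (nat_lit 2) (nat_lit 2) (nat_lit 7) (nat_lit 206) (nat_lit 272) r9_206 r8_272 (nat_lit 0) (nat_lit 0) (nat_lit 0) (nat_lit 0x8017985b4) (nat_lit 536870912),
  Rx.mk (nat_lit 195) (nat_lit 3) (nat_lit 0) (nat_lit 3) (nat_lit 5) (nat_lit 207) (nat_lit 268) r9_207 r8_268 (nat_lit 0) (nat_lit 24537189) (nat_lit 0) (nat_lit 0x8007ecd18) (nat_lit 562365701),
  Rx.mk (nat_lit 219) (nat_lit 3) (nat_lit 3) (nat_lit 3) (nat_lit 7) (nat_lit 208) (nat_lit 270) r9_208 r8_270 (nat_lit 0) (nat_lit 0) (nat_lit 0) (nat_lit 0x8017985b4) (nat_lit 536870912)]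
noncomputable def e49_48 : List Rx := [
  Rx.mk (nat_lit 0) (nat_lit 0) (nat_lit 0) (nat_lit 0) (nat_lit 0) (nat_lit 148) (nat_lit 148) r9_148 r9_148 (nat_lit 26184378) (nat_lit 17958918) (nat_lit 26184378) (nat_lit 0x4289fca08) (nat_lit 1601756836),
  Rx.mk (nat_lit 3) (nat_lit 3) (nat_lit 0) (nat_lit 0) (nat_lit 1) (nat_lit 149) (nat_lit 151) r9_149 r9_151 (nat_lit 0) (nat_lit 25198067) (nat_lit 24357688) (nat_lit 0x695294076) (nat_lit 953855717),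
  Rx.mk (nat_lit 27) (nat_lit 3) (nat_lit 3) (nat_lit 0) (nat_lit 3) (nat_lit 150) (nat_lit 152) r9_150 r9_152 (nat_lit 0) (nat_lit 0) (nat_lit 24501470) (nat_lit 0x7fbf237c6) (nat_lit 566776782),
  Rx.mk (nat_lit 128) (nat_lit 0) (nat_lit 0) (nat_lit 2) (nat_lit 4) (nat_lit 151) (nat_lit 149) r9_151 r9_149 (nat_lit 24357688) (nat_lit 25198067) (nat_lit 0) (nat_lit 0x695294076) (nat_lit 953855717),
  Rx.mk (nat_lit 144) (nat_lit 0) (nat_lit 2) (nat_lit 2) (nat_lit 6) (nat_lit 152) (nat_lit 150) r9_152 r9_150 (nat_lit 24501470) (nat_lit 0) (nat_lit 0) (nat_lit 0x7fbf237c6) (nat_lit 566776782),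
  Rx.mk (nat_lit 146) (nat_lit 2) (nat_lit 2) (nat_lit 2) (nat_lit 7) (nat_lit 153) (nat_lit 154) r9_153 r9_154 (nat_lit 0) (nat_lit 0) (nat_lit 0) (nat_lit 0x8017985b4) (nat_lit 536870912),
  Rx.mk (nat_lit 219) (nat_lit 3) (nat_lit 3) (nat_lit 3) (nat_lit 7) (nat_lit 154) (nat_lit 153) r9_154 r9_153 (nat_lit 0) (nat_lit 0) (nat_lit 0) (nat_lit 0x8017985b4) (nat_lit 536870912)]
noncomputable def e49_49 : List Rx := [
  Rx.mk (nat_lit 0) (nat_lit 0) (nat_lit 0) (nat_lit 0) (nat_lit 0) (nat_lit 121) (nat_lit 109) r9_121 r9_109 (nat_lit 36523476) (nat_lit 21797302) (nat_lit 22961591) (nat_lit 0x3ad62b83c) (nat_lit 1737278231),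
  Rx.mk (nat_lit 3) (nat_lit 3) (nat_lit 0) (nat_lit 0) (nat_lit 1) (nat_lit 122) (nat_lit 110) r9_122 r9_110 (nat_lit 0) (nat_lit 24030520) (nat_lit 18882716) (nat_lit 0x619393b74) (nat_lit 1072465598),
  Rx.mk (nat_lit 27) (nat_lit 3) (nat_lit 3) (nat_lit 0) (nat_lit 3) (nat_lit 123) (nat_lit 111) r9_123 r9_111 (nat_lit 0) (nat_lit 0) (nat_lit 21899928) (nat_lit 0x7e32c5136) (nat_lit 588892740),
  Rx.mk (nat_lit 128) (nat_lit 0) (nat_lit 0) (nat_lit 2) (nat_lit 4) (nat_lit 124) (nat_lit 115) r9_124 r9_115 (nat_lit 21805176) (nat_lit 21788749) (nat_lit 0) (nat_lit 0x60e0b917a) (nat_lit 1084441637),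
  Rx.mk (nat_lit 131) (nat_lit 3) (nat_lit 0) (nat_lit 2) (nat_lit 5) (nat_lit 127) (nat_lit 117) r9_127 r9_117 (nat_lit 0) (nat_lit 24741287) (nat_lit 0) (nat_lit 0x7f6b2ca1e) (nat_lit 572209049),
  Rx.mk (nat_lit 144) (nat_lit 0) (nat_lit 2) (nat_lit 2) (nat_lit 6) (nat_lit 125) (nat_lit 116) r9_125 r9_116 (nat_lit 22977602) (nat_lit 0) (nat_lit 0) (nat_lit 0x7edbd4c9a) (nat_lit 579368164),
  Rx.mk (nat_lit 146) (nat_lit 2) (nat_lit 2) (nat_lit 2) (nat_lit 7) (nat_lit 126) (nat_lit 120) r9_126 r9_120 (nat_lit 0) (nat_lit 0) (nat_lit 0) (nat_lit 0x8017985b4) (nat_lit 536870912),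
  Rx.mk (nat_lit 147) (nat_lit 3) (nat_lit 2) (nat_lit 2) (nat_lit 7) (nat_lit 128) (nat_lit 119) r9_128 r9_119 (nat_lit 0) (nat_lit 0) (nat_lit 0) (nat_lit 0x8017985b4) (nat_lit 536870912),
  Rx.mk (nat_lit 155) (nat_lit 3) (nat_lit 3) (nat_lit 2) (nat_lit 7) (nat_lit 129) (nat_lit 118) r9_129 r9_118 (nat_lit 0) (nat_lit 0) (nat_lit 0) (nat_lit 0x8017985b4) (nat_lit 536870912),
  Rx.mk (nat_lit 219) (nat_lit 3) (nat_lit 3) (nat_lit 3) (nat_lit 7) (nat_lit 132) (nat_lit 112) r9_132 r9_112 (nat_lit 0) (nat_lit 0) (nat_lit 0) (nat_lit 0x8017985b4) (nat_lit 536870912),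
  Rx.mk (nat_lit 223) (nat_lit 7) (nat_lit 3) (nat_lit 3) (nat_lit 7) (nat_lit 131) (nat_lit 113) r9_131 r9_113 (nat_lit 0) (nat_lit 0) (nat_lit 0) (nat_lit 0x8017985b4) (nat_lit 536870912),
  Rx.mk (nat_lit 255) (nat_lit 7) (nat_lit 7) (nat_lit 3) (nat_lit 7) (nat_lit 130) (nat_lit 114) r9_130 r9_114 (nat_lit 0) (nat_lit 0) (nat_lit 0) (nat_lit 0x8017985b4) (nat_lit 536870912),
  Rx.mk (nat_lit 292) (nat_lit 4) (nat_lit 4) (nat_lit 4) (nat_lit 0) (nat_lit 109) (nat_lit 121) r9_109 r9_121 (nat_lit 36523476) (nat_lit 21797302) (nat_lit 22961591) (nat_lit 0x3ad62b83c) (nat_lit 1737278231),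
  Rx.mk (nat_lit 294) (nat_lit 6) (nat_lit 4) (nat_lit 4) (nat_lit 1) (nat_lit 110) (nat_lit 122) r9_110 r9_122 (nat_lit 0) (nat_lit 24030520) (nat_lit 18882716) (nat_lit 0x619393b74) (nat_lit 1072465598),
  Rx.mk (nat_lit 310) (nat_lit 6) (nat_lit 6) (nat_lit 4) (nat_lit 3) (nat_lit 111) (nat_lit 123) r9_111 r9_123 (nat_lit 0) (nat_lit 0) (nat_lit 21899928) (nat_lit 0x7e32c5136) (nat_lit 588892740),
  Rx.mk (nat_lit 402) (nat_lit 2) (nat_lit 2) (nat_lit 6) (nat_lit 7) (nat_lit 114) (nat_lit 130) r9_114 r9_130 (nat_lit 0) (nat_lit 0) (nat_lit 0) (nat_lit 0x8017985b4) (nat_lit 536870912),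
  Rx.mk (nat_lit 434) (nat_lit 2) (nat_lit 6) (nat_lit 6) (nat_lit 7) (nat_lit 113) (nat_lit 131) r9_113 r9_131 (nat_lit 0) (nat_lit 0) (nat_lit 0) (nat_lit 0x8017985b4) (nat_lit 536870912),
  Rx.mk (nat_lit 438) (nat_lit 6) (nat_lit 6) (nat_lit 6) (nat_lit 7) (nat_lit 112) (nat_lit 132) r9_112 r9_132 (nat_lit 0) (nat_lit 0) (nat_lit 0) (nat_lit 0x8017985b4) (nat_lit 536870912),
  Rx.mk (nat_lit 484) (nat_lit 4) (nat_lit 4) (nat_lit 7) (nat_lit 4) (nat_lit 115) (nat_lit 124) r9_115 r9_124 (nat_lit 21805176) (nat_lit 21788749) (nat_lit 0) (nat_lit 0x60e0b917a) (nat_lit 1084441637),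
  Rx.mk (nat_lit 486) (nat_lit 6) (nat_lit 4) (nat_lit 7) (nat_lit 5) (nat_lit 117) (nat_lit 127) r9_117 r9_127 (nat_lit 0) (nat_lit 24741287) (nat_lit 0) (nat_lit 0x7f6b2ca1e) (nat_lit 572209049),
  Rx.mk (nat_lit 502) (nat_lit 6) (nat_lit 6) (nat_lit 7) (nat_lit 7) (nat_lit 118) (nat_lit 129) r9_118 r9_129 (nat_lit 0) (nat_lit 0) (nat_lit 0) (nat_lit 0x8017985b4) (nat_lit 536870912),
  Rx.mk (nat_lit 508) (nat_lit 4) (nat_lit 7) (nat_lit 7) (nat_lit 6) (nat_lit 116) (nat_lit 125) r9_116 r9_125 (nat_lit 22977602) (nat_lit 0) (nat_lit 0) (nat_lit 0x7edbd4c9a) (nat_lit 579368164),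
  Rx.mk (nat_lit 510) (nat_lit 6) (nat_lit 7) (nat_lit 7) (nat_lit 7) (nat_lit 119) (nat_lit 128) r9_119 r9_128 (nat_lit 0) (nat_lit 0) (nat_lit 0) (nat_lit 0x8017985b4) (nat_lit 536870912),
  Rx.mk (nat_lit 511) (nat_lit 7) (nat_lit 7) (nat_lit 7) (nat_lit 7) (nat_lit 120) (nat_lit 126) r9_120 r9_126 (nat_lit 0) (nat_lit 0) (nat_lit 0) (nat_lit 0x8017985b4) (nat_lit 536870912)]
noncomputable def e49_50 : List Rx := [
  Rx.mk (nat_lit 11) (nat_lit 3) (nat_lit 1) (nat_lit 0) (nat_lit 3) (nat_lit 19) (nat_lit 142) r9_19 r3_142 (nat_lit 0) (nat_lit 0) (nat_lit 6950286) (nat_lit 0x6a58027fa) (nat_lit 894620048),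
  Rx.mk (nat_lit 75) (nat_lit 3) (nat_lit 1) (nat_lit 1) (nat_lit 7) (nat_lit 20) (nat_lit 143) r9_20 r3_143 (nat_lit 0) (nat_lit 0) (nat_lit 0) (nat_lit 0x7ffede474) (nat_lit 538398162),
  Rx.mk (nat_lit 203) (nat_lit 3) (nat_lit 1) (nat_lit 3) (nat_lit 7) (nat_lit 22) (nat_lit 144) r9_22 r3_144 (nat_lit 0) (nat_lit 0) (nat_lit 0) (nat_lit 0x7fbe4884c) (nat_lit 542361212),
  Rx.mk (nat_lit 207) (nat_lit 7) (nat_lit 1) (nat_lit 3) (nat_lit 7) (nat_lit 21) (nat_lit 141) r9_21 r3_141 (nat_lit 0) (nat_lit 0) (nat_lit 0) (nat_lit 0x800056a40) (nat_lit 538300112)]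
noncomputable def e49_51 : List Rx := [
  Rx.mk (nat_lit 3) (nat_lit 3) (nat_lit 0) (nat_lit 0) (nat_lit 1) (nat_lit 50) (nat_lit 147) r9_50 r4_147 (nat_lit 0) (nat_lit 16343874) (nat_lit 18784265) (nat_lit 0x65a8d64ce) (nat_lit 998625001),
  Rx.mk (nat_lit 11) (nat_lit 3) (nat_lit 1) (nat_lit 0) (nat_lit 3) (nat_lit 51) (nat_lit 148) r9_51 r4_148 (nat_lit 0) (nat_lit 0) (nat_lit 24741287) (nat_lit 0x8017985b4) (nat_lit 561612199),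
  Rx.mk (nat_lit 75) (nat_lit 3) (nat_lit 1) (nat_lit 1) (nat_lit 7) (nat_lit 52) (nat_lit 149) r9_52 r4_149 (nat_lit 0) (nat_lit 0) (nat_lit 0) (nat_lit 0x8017985b4) (nat_lit 536870912),
  Rx.mk (nat_lit 131) (nat_lit 3) (nat_lit 0) (nat_lit 2) (nat_lit 5) (nat_lit 53) (nat_lit 152) r9_53 r4_152 (nat_lit 0) (nat_lit 24741287) (nat_lit 0) (nat_lit 0x8017985b4) (nat_lit 561612199),
  Rx.mk (nat_lit 139) (nat_lit 3) (nat_lit 1) (nat_lit 2) (nat_lit 7) (nat_lit 54) (nat_lit 153) r9_54 r4_153 (nat_lit 0) (nat_lit 0) (nat_lit 0) (nat_lit 0x8017985b4) (nat_lit 536870912),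
  Rx.mk (nat_lit 147) (nat_lit 3) (nat_lit 2) (nat_lit 2) (nat_lit 7) (nat_lit 55) (nat_lit 154) r9_55 r4_154 (nat_lit 0) (nat_lit 0) (nat_lit 0) (nat_lit 0x8017985b4) (nat_lit 536870912),
  Rx.mk (nat_lit 195) (nat_lit 3) (nat_lit 0) (nat_lit 3) (nat_lit 5) (nat_lit 59) (nat_lit 150) r9_59 r4_150 (nat_lit 0) (nat_lit 24741287) (nat_lit 0) (nat_lit 0x7ff8b06c4) (nat_lit 563504749),
  Rx.mk (nat_lit 199) (nat_lit 7) (nat_lit 0) (nat_lit 3) (nat_lit 5) (nat_lit 56) (nat_lit 144) r9_56 r4_144 (nat_lit 0) (nat_lit 24741287) (nat_lit 0) (nat_lit 0x8017985b4) (nat_lit 561612199),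
  Rx.mk (nat_lit 203) (nat_lit 3) (nat_lit 1) (nat_lit 3) (nat_lit 7) (nat_lit 60) (nat_lit 151) r9_60 r4_151 (nat_lit 0) (nat_lit 0) (nat_lit 0) (nat_lit 0x8017985b4) (nat_lit 536870912),
  Rx.mk (nat_lit 207) (nat_lit 7) (nat_lit 1) (nat_lit 3) (nat_lit 7) (nat_lit 57) (nat_lit 145) r9_57 r4_145 (nat_lit 0) (nat_lit 0) (nat_lit 0) (nat_lit 0x8017985b4) (nat_lit 536870912),
  Rx.mk (nat_lit 223) (nat_lit 7) (nat_lit 3) (nat_lit 3) (nat_lit 7) (nat_lit 58) (nat_lit 146) r9_58 r4_146 (nat_lit 0) (nat_lit 0) (nat_lit 0) (nat_lit 0x8017985b4) (nat_lit 536870912)]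
noncomputable def e49_52 : List Rx := [
  Rx.mk (nat_lit 203) (nat_lit 3) (nat_lit 1) (nat_lit 3) (nat_lit 7) (nat_lit 64) (nat_lit 151) r9_64 r5_151 (nat_lit 0) (nat_lit 0) (nat_lit 0) (nat_lit 0x7ffc47724) (nat_lit 538543512),
  Rx.mk (nat_lit 207) (nat_lit 7) (nat_lit 1) (nat_lit 3) (nat_lit 7) (nat_lit 63) (nat_lit 150) r9_63 r5_150 (nat_lit 0) (nat_lit 0) (nat_lit 0) (nat_lit 0x8017985b4) (nat_lit 536870912)]
noncomputable def e49_53 : List Rx := [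
  Rx.mk (nat_lit 11) (nat_lit 3) (nat_lit 1) (nat_lit 0) (nat_lit 3) (nat_lit 167) (nat_lit 273) r9_167 r4_273 (nat_lit 0) (nat_lit 0) (nat_lit 24741287) (nat_lit 0x7fff3afc6) (nat_lit 563104399),
  Rx.mk (nat_lit 75) (nat_lit 3) (nat_lit 1) (nat_lit 1) (nat_lit 7) (nat_lit 168) (nat_lit 274) r9_168 r4_274 (nat_lit 0) (nat_lit 0) (nat_lit 0) (nat_lit 0x8017985b4) (nat_lit 536870912),
  Rx.mk (nat_lit 203) (nat_lit 3) (nat_lit 1) (nat_lit 3) (nat_lit 7) (nat_lit 169) (nat_lit 275) r9_169 r4_275 (nat_lit 0) (nat_lit 0) (nat_lit 0) (nat_lit 0x8017985b4) (nat_lit 536870912)]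
noncomputable def e49_54 : List Rx := [
  Rx.mk (nat_lit 3) (nat_lit 3) (nat_lit 0) (nat_lit 0) (nat_lit 1) (nat_lit 209) (nat_lit 161) r9_209 r10_161 (nat_lit 0) (nat_lit 65106199) (nat_lit 34942940) (nat_lit 0x66b1feea6) (nat_lit 1046829251),
  Rx.mk (nat_lit 11) (nat_lit 3) (nat_lit 1) (nat_lit 0) (nat_lit 3) (nat_lit 210) (nat_lit 162) r9_210 r10_162 (nat_lit 0) (nat_lit 0) (nat_lit 25290688) (nat_lit 0x800987e2a) (nat_lit 563020650),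
  Rx.mk (nat_lit 75) (nat_lit 3) (nat_lit 1) (nat_lit 1) (nat_lit 7) (nat_lit 211) (nat_lit 163) r9_211 r10_163 (nat_lit 0) (nat_lit 0) (nat_lit 0) (nat_lit 0x8017985b4) (nat_lit 536870912),
  Rx.mk (nat_lit 195) (nat_lit 3) (nat_lit 0) (nat_lit 3) (nat_lit 5) (nat_lit 212) (nat_lit 164) r9_212 r10_164 (nat_lit 0) (nat_lit 24741287) (nat_lit 0) (nat_lit 0x8017985b4) (nat_lit 561612199),
  Rx.mk (nat_lit 203) (nat_lit 3) (nat_lit 1) (nat_lit 3) (nat_lit 7) (nat_lit 213) (nat_lit 165) r9_213 r10_165 (nat_lit 0) (nat_lit 0) (nat_lit 0) (nat_lit 0x8017985b4) (nat_lit 536870912)]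
noncomputable def e49_55 : List Rx := [
  Rx.mk (nat_lit 203) (nat_lit 3) (nat_lit 1) (nat_lit 3) (nat_lit 7) (nat_lit 214) (nat_lit 164) r9_214 r11_164 (nat_lit 0) (nat_lit 0) (nat_lit 0) (nat_lit 0x8017985b4) (nat_lit 536870912)]
noncomputable def e49_56 : List Rx := [
  Rx.mk (nat_lit 11) (nat_lit 3) (nat_lit 1) (nat_lit 0) (nat_lit 3) (nat_lit 225) (nat_lit 261) r9_225 r5_261 (nat_lit 0) (nat_lit 0) (nat_lit 29963902) (nat_lit 0x7c0aae942) (nat_lit 631646464),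
  Rx.mk (nat_lit 15) (nat_lit 7) (nat_lit 1) (nat_lit 0) (nat_lit 3) (nat_lit 224) (nat_lit 262) r9_224 r5_262 (nat_lit 0) (nat_lit 0) (nat_lit 27922064) (nat_lit 0x7cb09d100) (nat_lit 619170926),
  Rx.mk (nat_lit 75) (nat_lit 3) (nat_lit 1) (nat_lit 1) (nat_lit 7) (nat_lit 227) (nat_lit 263) r9_227 r5_263 (nat_lit 0) (nat_lit 0) (nat_lit 0) (nat_lit 0x8017985b4) (nat_lit 536870912),
  Rx.mk (nat_lit 79) (nat_lit 7) (nat_lit 1) (nat_lit 1) (nat_lit 7) (nat_lit 226) (nat_lit 264) r9_226 r5_264 (nat_lit 0) (nat_lit 0) (nat_lit 0) (nat_lit 0x8017985b4) (nat_lit 536870912),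
  Rx.mk (nat_lit 207) (nat_lit 7) (nat_lit 1) (nat_lit 3) (nat_lit 7) (nat_lit 228) (nat_lit 265) r9_228 r5_265 (nat_lit 0) (nat_lit 0) (nat_lit 0) (nat_lit 0x8017985b4) (nat_lit 536870912)]
noncomputable def e49_57 : List Rx := [
  Rx.mk (nat_lit 3) (nat_lit 3) (nat_lit 0) (nat_lit 0) (nat_lit 1) (nat_lit 231) (nat_lit 318) r9_231 r11_318 (nat_lit 0) (nat_lit 43672610) (nat_lit 43848106) (nat_lit 0x78800f28a) (nat_lit 746426178),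
  Rx.mk (nat_lit 7) (nat_lit 7) (nat_lit 0) (nat_lit 0) (nat_lit 1) (nat_lit 229) (nat_lit 319) r9_229 r11_319 (nat_lit 0) (nat_lit 47287016) (nat_lit 47287016) (nat_lit 0x7cbaf48b0) (nat_lit 685204344),
  Rx.mk (nat_lit 11) (nat_lit 3) (nat_lit 1) (nat_lit 0) (nat_lit 3) (nat_lit 232) (nat_lit 322) r9_232 r11_322 (nat_lit 0) (nat_lit 0) (nat_lit 24741287) (nat_lit 0x8017985b4) (nat_lit 561612199),
  Rx.mk (nat_lit 15) (nat_lit 7) (nat_lit 1) (nat_lit 0) (nat_lit 3) (nat_lit 230) (nat_lit 323) r9_230 r11_323 (nat_lit 0) (nat_lit 0) (nat_lit 24741287) (nat_lit 0x8017985b4) (nat_lit 561612199),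
  Rx.mk (nat_lit 75) (nat_lit 3) (nat_lit 1) (nat_lit 1) (nat_lit 7) (nat_lit 234) (nat_lit 324) r9_234 r11_324 (nat_lit 0) (nat_lit 0) (nat_lit 0) (nat_lit 0x8017985b4) (nat_lit 536870912),
  Rx.mk (nat_lit 79) (nat_lit 7) (nat_lit 1) (nat_lit 1) (nat_lit 7) (nat_lit 233) (nat_lit 325) r9_233 r11_325 (nat_lit 0) (nat_lit 0) (nat_lit 0) (nat_lit 0x8017985b4) (nat_lit 536870912),
  Rx.mk (nat_lit 131) (nat_lit 3) (nat_lit 0) (nat_lit 2) (nat_lit 5) (nat_lit 235) (nat_lit 321) r9_235 r11_321 (nat_lit 0) (nat_lit 24741287) (nat_lit 0) (nat_lit 0x8017985b4) (nat_lit 561612199),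
  Rx.mk (nat_lit 139) (nat_lit 3) (nat_lit 1) (nat_lit 2) (nat_lit 7) (nat_lit 236) (nat_lit 327) r9_236 r11_327 (nat_lit 0) (nat_lit 0) (nat_lit 0) (nat_lit 0x8017985b4) (nat_lit 536870912),
  Rx.mk (nat_lit 147) (nat_lit 3) (nat_lit 2) (nat_lit 2) (nat_lit 7) (nat_lit 237) (nat_lit 329) r9_237 r11_329 (nat_lit 0) (nat_lit 0) (nat_lit 0) (nat_lit 0x8017985b4) (nat_lit 536870912),
  Rx.mk (nat_lit 199) (nat_lit 7) (nat_lit 0) (nat_lit 3) (nat_lit 5) (nat_lit 238) (nat_lit 320) r9_238 r11_320 (nat_lit 0) (nat_lit 24741287) (nat_lit 0) (nat_lit 0x8017985b4) (nat_lit 561612199),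
  Rx.mk (nat_lit 207) (nat_lit 7) (nat_lit 1) (nat_lit 3) (nat_lit 7) (nat_lit 239) (nat_lit 326) r9_239 r11_326 (nat_lit 0) (nat_lit 0) (nat_lit 0) (nat_lit 0x8017985b4) (nat_lit 536870912),
  Rx.mk (nat_lit 223) (nat_lit 7) (nat_lit 3) (nat_lit 3) (nat_lit 7) (nat_lit 240) (nat_lit 328) r9_240 r11_328 (nat_lit 0) (nat_lit 0) (nat_lit 0) (nat_lit 0x8017985b4) (nat_lit 536870912)]
noncomputable def e49 : List (List Rx) := [e49_0, e49_1, e49_2, e49_3, e49_4, e49_5, e49_6, e49_7, e49_8, e49_9, e49_10, e49_11, e49_12, e49_13, e49_14, e49_15, e49_16, e49_17, e49_18, e49_19, e49_20, e49_21, e49_22, e49_23, e49_24, e49_25, e49_26, e49_27, e49_28, e49_29, e49_30, e49_31, e49_32, e49_33, e49_34, e49_35, e49_36, e49_37, e49_38, e49_39, e49_40, e49_41, e49_42, e49_43, e49_44, e49_45, e49_46, e49_47, e49_48, e49_49, e49_50, e49_51, e49_52, e49_53, e49_54, e49_55, e49_56,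 e49_57]
noncomputable def e50_0 : List Rx := [
  Rx.mk (nat_lit 5) (nat_lit 5) (nat_lit 0) (nat_lit 0) (nat_lit 1) (nat_lit 245) (nat_lit 302) r3_245 r0_302 (nat_lit 0) (nat_lit 13151) (nat_lit 5862) (nat_lit 0x7a31628ba) (nat_lit 630796625),
  Rx.mk (nat_lit 21) (nat_lit 5) (nat_lit 2) (nat_lit 0) (nat_lit 3) (nat_lit 246) (nat_lit 304) r3_246 r0_304 (nat_lit 0) (nat_lit 0) (nat_lit 1966223) (nat_lit 0x7a0eec8a8) (nat_lit 635246135),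
  Rx.mk (nat_lit 68) (nat_lit 4) (nat_lit 0) (nat_lit 1) (nat_lit 4) (nat_lit 243) (nat_lit 300) r3_243 r0_300 (nat_lit 3234) (nat_lit 1823) (nat_lit 0) (nat_lit 0x7fffe0034) (nat_lit 536886669),
  Rx.mk (nat_lit 69) (nat_lit 5) (nat_lit 0) (nat_lit 1) (nat_lit 5) (nat_lit 247) (nat_lit 303) r3_247 r0_303 (nat_lit 0) (nat_lit 2227735) (nat_lit 0) (nat_lit 0x7cd025f7c) (nat_lit 590865397),
  Rx.mk (nat_lit 84) (nat_lit 4) (nat_lit 2) (nat_lit 1) (nat_lit 6) (nat_lit 244) (nat_lit 301) r3_244 r0_301 (nat_lit 5037900) (nat_lit 0) (nat_lit 0) (nat_lit 0x7d56b4566) (nat_lit 585373512),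
  Rx.mk (nat_lit 85) (nat_lit 5) (nat_lit 2) (nat_lit 1) (nat_lit 7) (nat_lit 248) (nat_lit 305) r3_248 r0_305 (nat_lit 0) (nat_lit 0) (nat_lit 0) (nat_lit 0x81fa69626) (nat_lit 507231062)]
noncomputable def e50_1 : List Rx := [
  Rx.mk (nat_lit 68) (nat_lit 4) (nat_lit 0) (nat_lit 1) (nat_lit 4) (nat_lit 272) (nat_lit 293) r3_272 r1_293 (nat_lit 12607) (nat_lit 11530) (nat_lit 0) (nat_lit 0x8001f4cc6) (nat_lit 536785599),
  Rx.mk (nat_lit 69) (nat_lit 5) (nat_lit 0) (nat_lit 1) (nat_lit 5) (nat_lit 274) (nat_lit 295) r3_274 r1_295 (nat_lit 0) (nat_lit 220600) (nat_lit 0) (nat_lit 0x7fe1be20e) (nat_lit 539042412),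
  Rx.mk (nat_lit 84) (nat_lit 4) (nat_lit 2) (nat_lit 1) (nat_lit 6) (nat_lit 273) (nat_lit 294) r3_273 r1_294 (nat_lit 10831797) (nat_lit 0) (nat_lit 0) (nat_lit 0x81a17f3bc) (nat_lit 523520059),
  Rx.mk (nat_lit 85) (nat_lit 5) (nat_lit 2) (nat_lit 1) (nat_lit 7) (nat_lit 275) (nat_lit 296) r3_275 r1_296 (nat_lit 0) (nat_lit 0) (nat_lit 0) (nat_lit 0x8071f5700) (nat_lit 530794662)]
noncomputable def e50_2 : List Rx := [
  Rx.mk (nat_lit 68) (nat_lit 4) (nat_lit 0) (nat_lit 1) (nat_lit 4) (nat_lit 276) (nat_lit 322) r3_276 r2_322 (nat_lit 625176) (nat_lit 870846) (nat_lit 0) (nat_lit 0x6220ea3a6) (nat_lit 1021510934),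
  Rx.mk (nat_lit 69) (nat_lit 5) (nat_lit 0) (nat_lit 1) (nat_lit 5) (nat_lit 281) (nat_lit 327) r3_281 r2_327 (nat_lit 0) (nat_lit 29104789) (nat_lit 0) (nat_lit 0x7433cc070) (nat_lit 757442951),
  Rx.mk (nat_lit 76) (nat_lit 4) (nat_lit 1) (nat_lit 1) (nat_lit 6) (nat_lit 277) (nat_lit 324) r3_277 r2_324 (nat_lit 16366906) (nat_lit 0) (nat_lit 0) (nat_lit 0x6fe51c4c4) (nat_lit 814305468),
  Rx.mk (nat_lit 77) (nat_lit 5) (nat_lit 1) (nat_lit 1) (nat_lit 7) (nat_lit 282) (nat_lit 329) r3_282 r2_329 (nat_lit 0) (nat_lit 0) (nat_lit 0) (nat_lit 0x8017985b4) (nat_lit 536870912),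
  Rx.mk (nat_lit 84) (nat_lit 4) (nat_lit 2) (nat_lit 1) (nat_lit 6) (nat_lit 278) (nat_lit 326) r3_278 r2_326 (nat_lit 27621288) (nat_lit 0) (nat_lit 0) (nat_lit 0x7e6a285a6) (nat_lit 591112650),
  Rx.mk (nat_lit 85) (nat_lit 5) (nat_lit 2) (nat_lit 1) (nat_lit 7) (nat_lit 283) (nat_lit 331) r3_283 r2_331 (nat_lit 0) (nat_lit 0) (nat_lit 0) (nat_lit 0x80395644e) (nat_lit 534801512),
  Rx.mk (nat_lit 324) (nat_lit 4) (nat_lit 0) (nat_lit 5) (nat_lit 4) (nat_lit 279) (nat_lit 323) r3_279 r2_323 (nat_lit 870846) (nat_lit 625176) (nat_lit 0) (nat_lit 0x6220ea3a6) (nat_lit 1021510934),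
  Rx.mk (nat_lit 325) (nat_lit 5) (nat_lit 0) (nat_lit 5) (nat_lit 5) (nat_lit 284) (nat_lit 328) r3_284 r2_328 (nat_lit 0) (nat_lit 16366906) (nat_lit 0) (nat_lit 0x6fe51c4c4) (nat_lit 814305468),
  Rx.mk (nat_lit 326) (nat_lit 6) (nat_lit 0) (nat_lit 5) (nat_lit 5) (nat_lit 286) (nat_lit 332) r3_286 r2_332 (nat_lit 0) (nat_lit 27621288) (nat_lit 0) (nat_lit 0x7e6a285a6) (nat_lit 591112650),
  Rx.mk (nat_lit 332) (nat_lit 4) (nat_lit 1) (nat_lit 5) (nat_lit 6) (nat_lit 280) (nat_lit 325) r3_280 r2_325 (nat_lit 29104789) (nat_lit 0) (nat_lit 0) (nat_lit 0x7433cc070) (nat_lit 757442951),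
  Rx.mk (nat_lit 333) (nat_lit 5) (nat_lit 1) (nat_lit 5) (nat_lit 7) (nat_lit 285) (nat_lit 330) r3_285 r2_330 (nat_lit 0) (nat_lit 0) (nat_lit 0) (nat_lit 0x8017985b4) (nat_lit 536870912),
  Rx.mk (nat_lit 334) (nat_lit 6) (nat_lit 1) (nat_lit 5) (nat_lit 7) (nat_lit 287) (nat_lit 333) r3_287 r2_333 (nat_lit 0) (nat_lit 0) (nat_lit 0) (nat_lit 0x80395644e) (nat_lit 534801512)]
noncomputable def e50_3 : List Rx := [
  Rx.mk (nat_lit 20) (nat_lit 4) (nat_lit 2) (nat_lit 0) (nat_lit 2) (nat_lit 300) (nat_lit 301) r3_300 r3_301 (nat_lit 173) (nat_lit 0) (nat_lit 326) (nat_lit 0x8083adba0) (nat_lit 529026761),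
  Rx.mk (nat_lit 21) (nat_lit 5) (nat_lit 2) (nat_lit 0) (nat_lit 3) (nat_lit 303) (nat_lit 304) r3_303 r3_304 (nat_lit 0) (nat_lit 0) (nat_lit 10672) (nat_lit 0x7ff6bfff4) (nat_lit 537468484),
  Rx.mk (nat_lit 196) (nat_lit 4) (nat_lit 0) (nat_lit 3) (nat_lit 4) (nat_lit 301) (nat_lit 300) r3_301 r3_300 (nat_lit 173) (nat_lit 326) (nat_lit 0) (nat_lit 0x8083adba0) (nat_lit 529026761),
  Rx.mk (nat_lit 197) (nat_lit 5) (nat_lit 0) (nat_lit 3) (nat_lit 5) (nat_lit 304) (nat_lit 303) r3_304 r3_303 (nat_lit 0) (nat_lit 10672) (nat_lit 0) (nat_lit 0x7ff6bfff4) (nat_lit 537468484),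
  Rx.mk (nat_lit 212) (nat_lit 4) (nat_lit 2) (nat_lit 3) (nat_lit 6) (nat_lit 302) (nat_lit 302) r3_302 r3_302 (nat_lit 180052) (nat_lit 0) (nat_lit 0) (nat_lit 0x896e29a6e) (nat_lit 393288514),
  Rx.mk (nat_lit 213) (nat_lit 5) (nat_lit 2) (nat_lit 3) (nat_lit 7) (nat_lit 305) (nat_lit 305) r3_305 r3_305 (nat_lit 0) (nat_lit 0) (nat_lit 0) (nat_lit 0x8ace81da2) (nat_lit 372721762)]
noncomputable def e50_4 : List Rx := [
  Rx.mk (nat_lit 4) (nat_lit 4) (nat_lit 0) (nat_lit 0) (nat_lit 0) (nat_lit 306) (nat_lit 315) r3_306 r4_315 (nat_lit 1732) (nat_lit 2229) (nat_lit 1469) (nat_lit 0x68e4b7288) (nat_lit 910528842),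
  Rx.mk (nat_lit 5) (nat_lit 5) (nat_lit 0) (nat_lit 0) (nat_lit 1) (nat_lit 312) (nat_lit 321) r3_312 r4_321 (nat_lit 0) (nat_lit 291971) (nat_lit 197867) (nat_lit 0x7cea5f820) (nat_lit 587285400),
  Rx.mk (nat_lit 20) (nat_lit 4) (nat_lit 2) (nat_lit 0) (nat_lit 2) (nat_lit 307) (nat_lit 318) r3_307 r4_318 (nat_lit 654027) (nat_lit 0) (nat_lit 531156) (nat_lit 0x7dee0ba40) (nat_lit 571676845),
  Rx.mk (nat_lit 21) (nat_lit 5) (nat_lit 2) (nat_lit 0) (nat_lit 3) (nat_lit 313) (nat_lit 324) r3_313 r4_324 (nat_lit 0) (nat_lit 0) (nat_lit 1704686) (nat_lit 0x92d5beefa) (nat_lit 251699898),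
  Rx.mk (nat_lit 68) (nat_lit 4) (nat_lit 0) (nat_lit 1) (nat_lit 4) (nat_lit 308) (nat_lit 316) r3_308 r4_316 (nat_lit 52766084) (nat_lit 11711) (nat_lit 0) (nat_lit 0x7e39636b4) (nat_lit 618367307),
  Rx.mk (nat_lit 69) (nat_lit 5) (nat_lit 0) (nat_lit 1) (nat_lit 5) (nat_lit 314) (nat_lit 322) r3_314 r4_322 (nat_lit 0) (nat_lit 6083194) (nat_lit 0) (nat_lit 0x8288ac032) (nat_lit 504840506),
  Rx.mk (nat_lit 84) (nat_lit 4) (nat_lit 2) (nat_lit 1) (nat_lit 6) (nat_lit 309) (nat_lit 319) r3_309 r4_319 (nat_lit 8572817) (nat_lit 0) (nat_lit 0) (nat_lit 0x825b4bc3c) (nat_lit 510304629),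
  Rx.mk (nat_lit 85) (nat_lit 5) (nat_lit 2) (nat_lit 1) (nat_lit 7) (nat_lit 315) (nat_lit 325) r3_315 r4_325 (nat_lit 0) (nat_lit 0) (nat_lit 0) (nat_lit 0x886830f5a) (nat_lit 409301012),
  Rx.mk (nat_lit 196) (nat_lit 4) (nat_lit 0) (nat_lit 3) (nat_lit 4) (nat_lit 310) (nat_lit 317) r3_310 r4_317 (nat_lit 18325) (nat_lit 79972519) (nat_lit 0) (nat_lit 0x7bd4579ca) (nat_lit 684307106),
  Rx.mk (nat_lit 197) (nat_lit 5) (nat_lit 0) (nat_lit 3) (nat_lit 5) (nat_lit 316) (nat_lit 323) r3_316 r4_323 (nat_lit 0) (nat_lit 57785397) (nat_lit 0) (nat_lit 0x829aa2052) (nat_lit 555266559),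
  Rx.mk (nat_lit 212) (nat_lit 4) (nat_lit 2) (nat_lit 3) (nat_lit 6) (nat_lit 311) (nat_lit 320) r3_311 r4_320 (nat_lit 8997628) (nat_lit 0) (nat_lit 0) (nat_lit 0x812b84d60) (nat_lit 529007340),
  Rx.mk (nat_lit 213) (nat_lit 5) (nat_lit 2) (nat_lit 3) (nat_lit 7) (nat_lit 317) (nat_lit 326) r3_317 r4_326 (nat_lit 0) (nat_lit 0) (nat_lit 0) (nat_lit 0x84db470d8) (nat_lit 463510162)]
noncomputable def e50_5 : List Rx := [
  Rx.mk (nat_lit 196) (nat_lit 4) (nat_lit 0) (nat_lit 3) (nat_lit 4) (nat_lit 318) (nat_lit 293) r3_318 r5_293 (nat_lit 3024) (nat_lit 2469) (nat_lit 0) (nat_lit 0x817743936) (nat_lit 514521255),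
  Rx.mk (nat_lit 197) (nat_lit 5) (nat_lit 0) (nat_lit 3) (nat_lit 5) (nat_lit 320) (nat_lit 295) r3_320 r5_295 (nat_lit 0) (nat_lit 331055) (nat_lit 0) (nat_lit 0x7f44b8f22) (nat_lit 549048467),
  Rx.mk (nat_lit 212) (nat_lit 4) (nat_lit 2) (nat_lit 3) (nat_lit 6) (nat_lit 319) (nat_lit 294) r3_319 r5_294 (nat_lit 87664) (nat_lit 0) (nat_lit 0) (nat_lit 0x7ee2d6d0e) (nat_lit 555002326),
  Rx.mk (nat_lit 213) (nat_lit 5) (nat_lit 2) (nat_lit 3) (nat_lit 7) (nat_lit 321) (nat_lit 296) r3_321 r5_296 (nat_lit 0) (nat_lit 0) (nat_lit 0) (nat_lit 0x8cf43f2ea) (nat_lit 339923812)]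
noncomputable def e50_6 : List Rx := [
  Rx.mk (nat_lit 262) (nat_lit 6) (nat_lit 0) (nat_lit 4) (nat_lit 1) (nat_lit 63) (nat_lit 301) r3_63 r3_301 (nat_lit 0) (nat_lit 173) (nat_lit 326) (nat_lit 0x8083adba0) (nat_lit 529026761),
  Rx.mk (nat_lit 270) (nat_lit 6) (nat_lit 1) (nat_lit 4) (nat_lit 3) (nat_lit 64) (nat_lit 304) r3_64 r3_304 (nat_lit 0) (nat_lit 0) (nat_lit 10672) (nat_lit 0x7ff6bfff4) (nat_lit 537468484),
  Rx.mk (nat_lit 452) (nat_lit 4) (nat_lit 0) (nat_lit 7) (nat_lit 4) (nat_lit 61) (nat_lit 300) r3_61 r3_300 (nat_lit 326) (nat_lit 173) (nat_lit 0) (nat_lit 0x8083adba0) (nat_lit 529026761),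
  Rx.mk (nat_lit 454) (nat_lit 6) (nat_lit 0) (nat_lit 7) (nat_lit 5) (nat_lit 65) (nat_lit 302) r3_65 r3_302 (nat_lit 0) (nat_lit 180052) (nat_lit 0) (nat_lit 0x896e29a6e) (nat_lit 393288514),
  Rx.mk (nat_lit 460) (nat_lit 4) (nat_lit 1) (nat_lit 7) (nat_lit 6) (nat_lit 62) (nat_lit 303) r3_62 r3_303 (nat_lit 10672) (nat_lit 0) (nat_lit 0) (nat_lit 0x7ff6bfff4) (nat_lit 537468484),
  Rx.mk (nat_lit 462) (nat_lit 6) (nat_lit 1) (nat_lit 7) (nat_lit 7) (nat_lit 66) (nat_lit 305) r3_66 r3_305 (nat_lit 0) (nat_lit 0) (nat_lit 0) (nat_lit 0x8ace81da2) (nat_lit 372721762)]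
noncomputable def e50_7 : List Rx := [
  Rx.mk (nat_lit 268) (nat_lit 4) (nat_lit 1) (nat_lit 4) (nat_lit 2) (nat_lit 145) (nat_lit 302) r3_145 r0_302 (nat_lit 13151) (nat_lit 0) (nat_lit 5862) (nat_lit 0x7a31628ba) (nat_lit 630796625),
  Rx.mk (nat_lit 270) (nat_lit 6) (nat_lit 1) (nat_lit 4) (nat_lit 3) (nat_lit 148) (nat_lit 304) r3_148 r0_304 (nat_lit 0) (nat_lit 0) (nat_lit 1966223) (nat_lit 0x7a0eec8a8) (nat_lit 635246135),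
  Rx.mk (nat_lit 324) (nat_lit 4) (nat_lit 0) (nat_lit 5) (nat_lit 4) (nat_lit 146) (nat_lit 300) r3_146 r0_300 (nat_lit 1823) (nat_lit 3234) (nat_lit 0) (nat_lit 0x7fffe0034) (nat_lit 536886669),
  Rx.mk (nat_lit 326) (nat_lit 6) (nat_lit 0) (nat_lit 5) (nat_lit 5) (nat_lit 149) (nat_lit 301) r3_149 r0_301 (nat_lit 0) (nat_lit 5037900) (nat_lit 0) (nat_lit 0x7d56b4566) (nat_lit 585373512),
  Rx.mk (nat_lit 332) (nat_lit 4) (nat_lit 1) (nat_lit 5) (nat_lit 6) (nat_lit 147) (nat_lit 303) r3_147 r0_303 (nat_lit 2227735) (nat_lit 0) (nat_lit 0) (nat_lit 0x7cd025f7c) (nat_lit 590865397),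
  Rx.mk (nat_lit 334) (nat_lit 6) (nat_lit 1) (nat_lit 5) (nat_lit 7) (nat_lit 150) (nat_lit 305) r3_150 r0_305 (nat_lit 0) (nat_lit 0) (nat_lit 0) (nat_lit 0x81fa69626) (nat_lit 507231062)]
noncomputable def e50_8 : List Rx := [
  Rx.mk (nat_lit 324) (nat_lit 4) (nat_lit 0) (nat_lit 5) (nat_lit 4) (nat_lit 151) (nat_lit 293) r3_151 r1_293 (nat_lit 11530) (nat_lit 12607) (nat_lit 0) (nat_lit 0x8001f4cc6) (nat_lit 536785599),
  Rx.mk (nat_lit 326) (nat_lit 6) (nat_lit 0) (nat_lit 5) (nat_lit 5) (nat_lit 153) (nat_lit 294) r3_153 r1_294 (nat_lit 0) (nat_lit 10831797) (nat_lit 0) (nat_lit 0x81a17f3bc) (nat_lit 523520059),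
  Rx.mk (nat_lit 332) (nat_lit 4) (nat_lit 1) (nat_lit 5) (nat_lit 6) (nat_lit 152) (nat_lit 295) r3_152 r1_295 (nat_lit 220600) (nat_lit 0) (nat_lit 0) (nat_lit 0x7fe1be20e) (nat_lit 539042412),
  Rx.mk (nat_lit 334) (nat_lit 6) (nat_lit 1) (nat_lit 5) (nat_lit 7) (nat_lit 154) (nat_lit 296) r3_154 r1_296 (nat_lit 0) (nat_lit 0) (nat_lit 0) (nat_lit 0x8071f5700) (nat_lit 530794662)]
noncomputable def e50_9 : List Rx := [
  Rx.mk (nat_lit 260) (nat_lit 4) (nat_lit 0) (nat_lit 4) (nat_lit 0) (nat_lit 155) (nat_lit 315) r3_155 r4_315 (nat_lit 2229) (nat_lit 1732) (nat_lit 1469) (nat_lit 0x68e4b7288) (nat_lit 910528842),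
  Rx.mk (nat_lit 262) (nat_lit 6) (nat_lit 0) (nat_lit 4) (nat_lit 1) (nat_lit 161) (nat_lit 318) r3_161 r4_318 (nat_lit 0) (nat_lit 654027) (nat_lit 531156) (nat_lit 0x7dee0ba40) (nat_lit 571676845),
  Rx.mk (nat_lit 268) (nat_lit 4) (nat_lit 1) (nat_lit 4) (nat_lit 2) (nat_lit 156) (nat_lit 321) r3_156 r4_321 (nat_lit 291971) (nat_lit 0) (nat_lit 197867) (nat_lit 0x7cea5f820) (nat_lit 587285400),
  Rx.mk (nat_lit 270) (nat_lit 6) (nat_lit 1) (nat_lit 4) (nat_lit 3) (nat_lit 162) (nat_lit 324) r3_162 r4_324 (nat_lit 0) (nat_lit 0) (nat_lit 1704686) (nat_lit 0x92d5beefa) (nat_lit 251699898),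
  Rx.mk (nat_lit 324) (nat_lit 4) (nat_lit 0) (nat_lit 5) (nat_lit 4) (nat_lit 157) (nat_lit 316) r3_157 r4_316 (nat_lit 11711) (nat_lit 52766084) (nat_lit 0) (nat_lit 0x7e39636b4) (nat_lit 618367307),
  Rx.mk (nat_lit 326) (nat_lit 6) (nat_lit 0) (nat_lit 5) (nat_lit 5) (nat_lit 163) (nat_lit 319) r3_163 r4_319 (nat_lit 0) (nat_lit 8572817) (nat_lit 0) (nat_lit 0x825b4bc3c) (nat_lit 510304629),
  Rx.mk (nat_lit 332) (nat_lit 4) (nat_lit 1) (nat_lit 5) (nat_lit 6) (nat_lit 158) (nat_lit 322) r3_158 r4_322 (nat_lit 6083194) (nat_lit 0) (nat_lit 0) (nat_lit 0x8288ac032) (nat_lit 504840506),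
  Rx.mk (nat_lit 334) (nat_lit 6) (nat_lit 1) (nat_lit 5) (nat_lit 7) (nat_lit 164) (nat_lit 325) r3_164 r4_325 (nat_lit 0) (nat_lit 0) (nat_lit 0) (nat_lit 0x886830f5a) (nat_lit 409301012),
  Rx.mk (nat_lit 452) (nat_lit 4) (nat_lit 0) (nat_lit 7) (nat_lit 4) (nat_lit 159) (nat_lit 317) r3_159 r4_317 (nat_lit 79972519) (nat_lit 18325) (nat_lit 0) (nat_lit 0x7bd4579ca) (nat_lit 684307106),
  Rx.mk (nat_lit 454) (nat_lit 6) (nat_lit 0) (nat_lit 7) (nat_lit 5) (nat_lit 165) (nat_lit 320) r3_165 r4_320 (nat_lit 0) (nat_lit 8997628) (nat_lit 0) (nat_lit 0x812b84d60) (nat_lit 529007340),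
  Rx.mk (nat_lit 460) (nat_lit 4) (nat_lit 1) (nat_lit 7) (nat_lit 6) (nat_lit 160) (nat_lit 323) r3_160 r4_323 (nat_lit 57785397) (nat_lit 0) (nat_lit 0) (nat_lit 0x829aa2052) (nat_lit 555266559),
  Rx.mk (nat_lit 462) (nat_lit 6) (nat_lit 1) (nat_lit 7) (nat_lit 7) (nat_lit 166) (nat_lit 326) r3_166 r4_326 (nat_lit 0) (nat_lit 0) (nat_lit 0) (nat_lit 0x84db470d8) (nat_lit 463510162)]
noncomputable def e50_10 : List Rx := [
  Rx.mk (nat_lit 196) (nat_lit 4) (nat_lit 0) (nat_lit 3) (nat_lit 4) (nat_lit 217) (nat_lit 322) r3_217 r6_322 (nat_lit 6389) (nat_lit 7883) (nat_lit 0) (nat_lit 0x7fff97bfe) (nat_lit 536915534),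
  Rx.mk (nat_lit 212) (nat_lit 4) (nat_lit 2) (nat_lit 3) (nat_lit 6) (nat_lit 218) (nat_lit 324) r3_218 r6_324 (nat_lit 62040) (nat_lit 0) (nat_lit 0) (nat_lit 0x7ffb1f284) (nat_lit 537273802),
  Rx.mk (nat_lit 452) (nat_lit 4) (nat_lit 0) (nat_lit 7) (nat_lit 4) (nat_lit 219) (nat_lit 323) r3_219 r6_323 (nat_lit 7883) (nat_lit 6389) (nat_lit 0) (nat_lit 0x7fff97bfe) (nat_lit 536915534),
  Rx.mk (nat_lit 454) (nat_lit 6) (nat_lit 0) (nat_lit 7) (nat_lit 5) (nat_lit 220) (nat_lit 325) r3_220 r6_325 (nat_lit 0) (nat_lit 62040) (nat_lit 0) (nat_lit 0x7ffb1f284) (nat_lit 537273802)]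
noncomputable def e50_11 : List Rx := [
  Rx.mk (nat_lit 452) (nat_lit 4) (nat_lit 0) (nat_lit 7) (nat_lit 4) (nat_lit 221) (nat_lit 293) r3_221 r5_293 (nat_lit 2469) (nat_lit 3024) (nat_lit 0) (nat_lit 0x817743936) (nat_lit 514521255),
  Rx.mk (nat_lit 454) (nat_lit 6) (nat_lit 0) (nat_lit 7) (nat_lit 5) (nat_lit 223) (nat_lit 294) r3_223 r5_294 (nat_lit 0) (nat_lit 87664) (nat_lit 0) (nat_lit 0x7ee2d6d0e) (nat_lit 555002326),
  Rx.mk (nat_lit 460) (nat_lit 4) (nat_lit 1) (nat_lit 7) (nat_lit 6) (nat_lit 222) (nat_lit 295) r3_222 r5_295 (nat_lit 331055) (nat_lit 0) (nat_lit 0) (nat_lit 0x7f44b8f22) (nat_lit 549048467),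
  Rx.mk (nat_lit 462) (nat_lit 6) (nat_lit 1) (nat_lit 7) (nat_lit 7) (nat_lit 224) (nat_lit 296) r3_224 r5_296 (nat_lit 0) (nat_lit 0) (nat_lit 0) (nat_lit 0x8cf43f2ea) (nat_lit 339923812)]
noncomputable def e50_12 : List Rx := [
  Rx.mk (nat_lit 21) (nat_lit 5) (nat_lit 2) (nat_lit 0) (nat_lit 3) (nat_lit 249) (nat_lit 71) r3_249 r0_71 (nat_lit 0) (nat_lit 0) (nat_lit 2928) (nat_lit 0x806d30ec2) (nat_lit 530370140)]
noncomputable def e50_13 : List Rx := [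
  Rx.mk (nat_lit 5) (nat_lit 5) (nat_lit 0) (nat_lit 0) (nat_lit 1) (nat_lit 250) (nat_lit 412) r3_250 r7_412 (nat_lit 0) (nat_lit 161216) (nat_lit 187444) (nat_lit 0x65b3d3f7a) (nat_lit 962509472),
  Rx.mk (nat_lit 21) (nat_lit 5) (nat_lit 2) (nat_lit 0) (nat_lit 3) (nat_lit 251) (nat_lit 414) r3_251 r7_414 (nat_lit 0) (nat_lit 0) (nat_lit 1062796) (nat_lit 0x7d66ce370) (nat_lit 580163308),
  Rx.mk (nat_lit 69) (nat_lit 5) (nat_lit 0) (nat_lit 1) (nat_lit 5) (nat_lit 252) (nat_lit 413) r3_252 r7_413 (nat_lit 0) (nat_lit 20900457) (nat_lit 0) (nat_lit 0x7888ef68e) (nat_lit 679216269),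
  Rx.mk (nat_lit 85) (nat_lit 5) (nat_lit 2) (nat_lit 1) (nat_lit 7) (nat_lit 253) (nat_lit 415) r3_253 r7_415 (nat_lit 0) (nat_lit 0) (nat_lit 0) (nat_lit 0x82218c4a6) (nat_lit 505206912)]
noncomputable def e50_14 : List Rx := [
  Rx.mk (nat_lit 17) (nat_lit 1) (nat_lit 2) (nat_lit 0) (nat_lit 3) (nat_lit 262) (nat_lit 67) r3_262 r1_67 (nat_lit 0) (nat_lit 0) (nat_lit 187256) (nat_lit 0x7e7e37ede) (nat_lit 561441168),
  Rx.mk (nat_lit 21) (nat_lit 5) (nat_lit 2) (nat_lit 0) (nat_lit 3) (nat_lit 264) (nat_lit 66) r3_264 r1_66 (nat_lit 0) (nat_lit 0) (nat_lit 15428) (nat_lit 0x81eea1d52) (nat_lit 507420490),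
  Rx.mk (nat_lit 145) (nat_lit 1) (nat_lit 2) (nat_lit 2) (nat_lit 7) (nat_lit 263) (nat_lit 68) r3_263 r1_68 (nat_lit 0) (nat_lit 0) (nat_lit 0) (nat_lit 0x802f26848) (nat_lit 535238762)]
noncomputable def e50_15 : List Rx := [
  Rx.mk (nat_lit 5) (nat_lit 5) (nat_lit 0) (nat_lit 0) (nat_lit 1) (nat_lit 268) (nat_lit 334) r3_268 r8_334 (nat_lit 0) (nat_lit 913664) (nat_lit 875122) (nat_lit 0x5cc5f9ef6) (nat_lit 1108454298),
  Rx.mk (nat_lit 17) (nat_lit 1) (nat_lit 2) (nat_lit 0) (nat_lit 3) (nat_lit 265) (nat_lit 331) r3_265 r8_331 (nat_lit 0) (nat_lit 0) (nat_lit 14122163) (nat_lit 0x6b5780b64) (nat_lit 885726425),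
  Rx.mk (nat_lit 21) (nat_lit 5) (nat_lit 2) (nat_lit 0) (nat_lit 3) (nat_lit 269) (nat_lit 336) r3_269 r8_336 (nat_lit 0) (nat_lit 0) (nat_lit 6010146) (nat_lit 0x6e1566726) (nat_lit 833142708),
  Rx.mk (nat_lit 69) (nat_lit 5) (nat_lit 0) (nat_lit 1) (nat_lit 5) (nat_lit 270) (nat_lit 335) r3_270 r8_335 (nat_lit 0) (nat_lit 20103359) (nat_lit 0) (nat_lit 0x733b06e04) (nat_lit 764186071),
  Rx.mk (nat_lit 81) (nat_lit 1) (nat_lit 2) (nat_lit 1) (nat_lit 7) (nat_lit 266) (nat_lit 332) r3_266 r8_332 (nat_lit 0) (nat_lit 0) (nat_lit 0) (nat_lit 0x8017985b4) (nat_lit 536870912),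
  Rx.mk (nat_lit 85) (nat_lit 5) (nat_lit 2) (nat_lit 1) (nat_lit 7) (nat_lit 271) (nat_lit 337) r3_271 r8_337 (nat_lit 0) (nat_lit 0) (nat_lit 0) (nat_lit 0x7f8ae4a3c) (nat_lit 545526512),
  Rx.mk (nat_lit 145) (nat_lit 1) (nat_lit 2) (nat_lit 2) (nat_lit 7) (nat_lit 267) (nat_lit 333) r3_267 r8_333 (nat_lit 0) (nat_lit 0) (nat_lit 0) (nat_lit 0x7f54cbf2c) (nat_lit 548916912)]
noncomputable def e50_16 : List Rx := [
  Rx.mk (nat_lit 69) (nat_lit 5) (nat_lit 0) (nat_lit 1) (nat_lit 5) (nat_lit 288) (nat_lit 61) r3_288 r8_61 (nat_lit 0) (nat_lit 4361193) (nat_lit 0) (nat_lit 0x73e0634a6) (nat_lit 737767955),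
  Rx.mk (nat_lit 85) (nat_lit 5) (nat_lit 2) (nat_lit 1) (nat_lit 7) (nat_lit 289) (nat_lit 62) r3_289 r8_62 (nat_lit 0) (nat_lit 0) (nat_lit 0) (nat_lit 0x851b92084) (nat_lit 459606612)]
noncomputable def e50_17 : List Rx := [
  Rx.mk (nat_lit 69) (nat_lit 5) (nat_lit 0) (nat_lit 1) (nat_lit 5) (nat_lit 290) (nat_lit 300) r3_290 r9_300 (nat_lit 0) (nat_lit 36215805) (nat_lit 0) (nat_lit 0x6837b1e8a) (nat_lit 958320217),
  Rx.mk (nat_lit 77) (nat_lit 5) (nat_lit 1) (nat_lit 1) (nat_lit 7) (nat_lit 291) (nat_lit 302) r3_291 r9_302 (nat_lit 0) (nat_lit 0) (nat_lit 0) (nat_lit 0x7f8a461c0) (nat_lit 545571162),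
  Rx.mk (nat_lit 85) (nat_lit 5) (nat_lit 2) (nat_lit 1) (nat_lit 7) (nat_lit 292) (nat_lit 304) r3_292 r9_304 (nat_lit 0) (nat_lit 0) (nat_lit 0) (nat_lit 0x7ded52914) (nat_lit 571323512),
  Rx.mk (nat_lit 325) (nat_lit 5) (nat_lit 0) (nat_lit 5) (nat_lit 5) (nat_lit 293) (nat_lit 301) r3_293 r9_301 (nat_lit 0) (nat_lit 23806788) (nat_lit 0) (nat_lit 0x6530a0838) (nat_lit 994848200),
  Rx.mk (nat_lit 333) (nat_lit 5) (nat_lit 1) (nat_lit 5) (nat_lit 7) (nat_lit 294) (nat_lit 303) r3_294 r9_303 (nat_lit 0) (nat_lit 0) (nat_lit 0) (nat_lit 0x8017985b4) (nat_lit 536870912)]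
noncomputable def e50_18 : List Rx := [
  Rx.mk (nat_lit 21) (nat_lit 5) (nat_lit 2) (nat_lit 0) (nat_lit 3) (nat_lit 322) (nat_lit 65) r3_322 r4_65 (nat_lit 0) (nat_lit 0) (nat_lit 20881) (nat_lit 0x7ff798390) (nat_lit 537424343),
  Rx.mk (nat_lit 197) (nat_lit 5) (nat_lit 0) (nat_lit 3) (nat_lit 5) (nat_lit 323) (nat_lit 66) r3_323 r4_66 (nat_lit 0) (nat_lit 162706) (nat_lit 0) (nat_lit 0x7fec4a02e) (nat_lit 538305068),
  Rx.mk (nat_lit 213) (nat_lit 5) (nat_lit 2) (nat_lit 3) (nat_lit 7) (nat_lit 324) (nat_lit 67) r3_324 r4_67 (nat_lit 0) (nat_lit 0) (nat_lit 0) (nat_lit 0x7ffafb73a) (nat_lit 537214012)]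
noncomputable def e50_19 : List Rx := [
  Rx.mk (nat_lit 5) (nat_lit 5) (nat_lit 0) (nat_lit 0) (nat_lit 1) (nat_lit 325) (nat_lit 333) r3_325 r10_333 (nat_lit 0) (nat_lit 167695) (nat_lit 197362) (nat_lit 0x640a65476) (nat_lit 989404669),
  Rx.mk (nat_lit 21) (nat_lit 5) (nat_lit 2) (nat_lit 0) (nat_lit 3) (nat_lit 326) (nat_lit 336) r3_326 r10_336 (nat_lit 0) (nat_lit 0) (nat_lit 1486174) (nat_lit 0x82dc4fb94) (nat_lit 495172786),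
  Rx.mk (nat_lit 69) (nat_lit 5) (nat_lit 0) (nat_lit 1) (nat_lit 5) (nat_lit 327) (nat_lit 334) r3_327 r10_334 (nat_lit 0) (nat_lit 24741287) (nat_lit 0) (nat_lit 0x8017985b4) (nat_lit 561612199),
  Rx.mk (nat_lit 85) (nat_lit 5) (nat_lit 2) (nat_lit 1) (nat_lit 7) (nat_lit 328) (nat_lit 337) r3_328 r10_337 (nat_lit 0) (nat_lit 0) (nat_lit 0) (nat_lit 0x8428b5dde) (nat_lit 474166012),
  Rx.mk (nat_lit 197) (nat_lit 5) (nat_lit 0) (nat_lit 3) (nat_lit 5) (nat_lit 329) (nat_lit 335) r3_329 r10_335 (nat_lit 0) (nat_lit 50053958) (nat_lit 0) (nat_lit 0x7eff903aa) (nat_lit 604233320),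
  Rx.mk (nat_lit 213) (nat_lit 5) (nat_lit 2) (nat_lit 3) (nat_lit 7) (nat_lit 330) (nat_lit 338) r3_330 r10_338 (nat_lit 0) (nat_lit 0) (nat_lit 0) (nat_lit 0x8428a6758) (nat_lit 474169612)]
noncomputable def e50_20 : List Rx := [
  Rx.mk (nat_lit 197) (nat_lit 5) (nat_lit 0) (nat_lit 3) (nat_lit 5) (nat_lit 331) (nat_lit 351) r3_331 r11_351 (nat_lit 0) (nat_lit 9974206) (nat_lit 0) (nat_lit 0x7a7d1cf58) (nat_lit 636241818),
  Rx.mk (nat_lit 213) (nat_lit 5) (nat_lit 2) (nat_lit 3) (nat_lit 7) (nat_lit 332) (nat_lit 352) r3_332 r11_352 (nat_lit 0) (nat_lit 0) (nat_lit 0) (nat_lit 0x885a32e30) (nat_lit 409617212)]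
noncomputable def e50_21 : List Rx := [
  Rx.mk (nat_lit 76) (nat_lit 4) (nat_lit 1) (nat_lit 1) (nat_lit 6) (nat_lit 295) (nat_lit 301) r3_295 r9_301 (nat_lit 23806788) (nat_lit 0) (nat_lit 0) (nat_lit 0x6530a0838) (nat_lit 994848200),
  Rx.mk (nat_lit 77) (nat_lit 5) (nat_lit 1) (nat_lit 1) (nat_lit 7) (nat_lit 297) (nat_lit 303) r3_297 r9_303 (nat_lit 0) (nat_lit 0) (nat_lit 0) (nat_lit 0x8017985b4) (nat_lit 536870912),
  Rx.mk (nat_lit 332) (nat_lit 4) (nat_lit 1) (nat_lit 5) (nat_lit 6) (nat_lit 296) (nat_lit 300) r3_296 r9_300 (nat_lit 36215805) (nat_lit 0) (nat_lit 0) (nat_lit 0x6837b1e8a) (nat_lit 958320217),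
  Rx.mk (nat_lit 333) (nat_lit 5) (nat_lit 1) (nat_lit 5) (nat_lit 7) (nat_lit 298) (nat_lit 302) r3_298 r9_302 (nat_lit 0) (nat_lit 0) (nat_lit 0) (nat_lit 0x7f8a461c0) (nat_lit 545571162),
  Rx.mk (nat_lit 334) (nat_lit 6) (nat_lit 1) (nat_lit 5) (nat_lit 7) (nat_lit 299) (nat_lit 304) r3_299 r9_304 (nat_lit 0) (nat_lit 0) (nat_lit 0) (nat_lit 0x7ded52914) (nat_lit 571323512)]
noncomputable def e50_22 : List Rx := [
  Rx.mk (nat_lit 270) (nat_lit 6) (nat_lit 1) (nat_lit 4) (nat_lit 3) (nat_lit 67) (nat_lit 71) r3_67 r0_71 (nat_lit 0) (nat_lit 0) (nat_lit 2928) (nat_lit 0x806d30ec2) (nat_lit 530370140)]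
noncomputable def e50_23 : List Rx := [
  Rx.mk (nat_lit 270) (nat_lit 6) (nat_lit 1) (nat_lit 4) (nat_lit 3) (nat_lit 68) (nat_lit 66) r3_68 r1_66 (nat_lit 0) (nat_lit 0) (nat_lit 15428) (nat_lit 0x81eea1d52) (nat_lit 507420490),
  Rx.mk (nat_lit 302) (nat_lit 6) (nat_lit 5) (nat_lit 4) (nat_lit 3) (nat_lit 69) (nat_lit 67) r3_69 r1_67 (nat_lit 0) (nat_lit 0) (nat_lit 187256) (nat_lit 0x7e7e37ede) (nat_lit 561441168),
  Rx.mk (nat_lit 430) (nat_lit 6) (nat_lit 5) (nat_lit 6) (nat_lit 7) (nat_lit 70) (nat_lit 68) r3_70 r1_68 (nat_lit 0) (nat_lit 0) (nat_lit 0) (nat_lit 0x802f26848) (nat_lit 535238762)]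
noncomputable def e50_24 : List Rx := [
  Rx.mk (nat_lit 270) (nat_lit 6) (nat_lit 1) (nat_lit 4) (nat_lit 3) (nat_lit 72) (nat_lit 65) r3_72 r4_65 (nat_lit 0) (nat_lit 0) (nat_lit 20881) (nat_lit 0x7ff798390) (nat_lit 537424343),
  Rx.mk (nat_lit 460) (nat_lit 4) (nat_lit 1) (nat_lit 7) (nat_lit 6) (nat_lit 71) (nat_lit 66) r3_71 r4_66 (nat_lit 162706) (nat_lit 0) (nat_lit 0) (nat_lit 0x7fec4a02e) (nat_lit 538305068),
  Rx.mk (nat_lit 462) (nat_lit 6) (nat_lit 1) (nat_lit 7) (nat_lit 7) (nat_lit 73) (nat_lit 67) r3_73 r4_67 (nat_lit 0) (nat_lit 0) (nat_lit 0) (nat_lit 0x7ffafb73a) (nat_lit 537214012)]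
noncomputable def e50_25 : List Rx := [
  Rx.mk (nat_lit 268) (nat_lit 4) (nat_lit 1) (nat_lit 4) (nat_lit 2) (nat_lit 167) (nat_lit 412) r3_167 r7_412 (nat_lit 161216) (nat_lit 0) (nat_lit 187444) (nat_lit 0x65b3d3f7a) (nat_lit 962509472),
  Rx.mk (nat_lit 270) (nat_lit 6) (nat_lit 1) (nat_lit 4) (nat_lit 3) (nat_lit 169) (nat_lit 414) r3_169 r7_414 (nat_lit 0) (nat_lit 0) (nat_lit 1062796) (nat_lit 0x7d66ce370) (nat_lit 580163308),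
  Rx.mk (nat_lit 332) (nat_lit 4) (nat_lit 1) (nat_lit 5) (nat_lit 6) (nat_lit 168) (nat_lit 413) r3_168 r7_413 (nat_lit 20900457) (nat_lit 0) (nat_lit 0) (nat_lit 0x7888ef68e) (nat_lit 679216269),
  Rx.mk (nat_lit 334) (nat_lit 6) (nat_lit 1) (nat_lit 5) (nat_lit 7) (nat_lit 170) (nat_lit 415) r3_170 r7_415 (nat_lit 0) (nat_lit 0) (nat_lit 0) (nat_lit 0x82218c4a6) (nat_lit 505206912)]
noncomputable def e50_26 : List Rx := [
  Rx.mk (nat_lit 268) (nat_lit 4) (nat_lit 1) (nat_lit 4) (nat_lit 2) (nat_lit 173) (nat_lit 334) r3_173 r8_334 (nat_lit 913664) (nat_lit 0) (nat_lit 875122) (nat_lit 0x5cc5f9ef6) (nat_lit 1108454298),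
  Rx.mk (nat_lit 270) (nat_lit 6) (nat_lit 1) (nat_lit 4) (nat_lit 3) (nat_lit 175) (nat_lit 336) r3_175 r8_336 (nat_lit 0) (nat_lit 0) (nat_lit 6010146) (nat_lit 0x6e1566726) (nat_lit 833142708),
  Rx.mk (nat_lit 302) (nat_lit 6) (nat_lit 5) (nat_lit 4) (nat_lit 3) (nat_lit 176) (nat_lit 331) r3_176 r8_331 (nat_lit 0) (nat_lit 0) (nat_lit 14122163) (nat_lit 0x6b5780b64) (nat_lit 885726425),
  Rx.mk (nat_lit 332) (nat_lit 4) (nat_lit 1) (nat_lit 5) (nat_lit 6) (nat_lit 174) (nat_lit 335) r3_174 r8_335 (nat_lit 20103359) (nat_lit 0) (nat_lit 0) (nat_lit 0x733b06e04) (nat_lit 764186071),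
  Rx.mk (nat_lit 334) (nat_lit 6) (nat_lit 1) (nat_lit 5) (nat_lit 7) (nat_lit 177) (nat_lit 337) r3_177 r8_337 (nat_lit 0) (nat_lit 0) (nat_lit 0) (nat_lit 0x7f8ae4a3c) (nat_lit 545526512),
  Rx.mk (nat_lit 366) (nat_lit 6) (nat_lit 5) (nat_lit 5) (nat_lit 7) (nat_lit 178) (nat_lit 332) r3_178 r8_332 (nat_lit 0) (nat_lit 0) (nat_lit 0) (nat_lit 0x8017985b4) (nat_lit 536870912),
  Rx.mk (nat_lit 430) (nat_lit 6) (nat_lit 5) (nat_lit 6) (nat_lit 7) (nat_lit 179) (nat_lit 333) r3_179 r8_333 (nat_lit 0) (nat_lit 0) (nat_lit 0) (nat_lit 0x7f54cbf2c) (nat_lit 548916912)]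
noncomputable def e50_27 : List Rx := [
  Rx.mk (nat_lit 332) (nat_lit 4) (nat_lit 1) (nat_lit 5) (nat_lit 6) (nat_lit 171) (nat_lit 61) r3_171 r8_61 (nat_lit 4361193) (nat_lit 0) (nat_lit 0) (nat_lit 0x73e0634a6) (nat_lit 737767955),
  Rx.mk (nat_lit 334) (nat_lit 6) (nat_lit 1) (nat_lit 5) (nat_lit 7) (nat_lit 172) (nat_lit 62) r3_172 r8_62 (nat_lit 0) (nat_lit 0) (nat_lit 0) (nat_lit 0x851b92084) (nat_lit 459606612)]
noncomputable def e50_28 : List Rx := [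
  Rx.mk (nat_lit 268) (nat_lit 4) (nat_lit 1) (nat_lit 4) (nat_lit 2) (nat_lit 180) (nat_lit 333) r3_180 r10_333 (nat_lit 167695) (nat_lit 0) (nat_lit 197362) (nat_lit 0x640a65476) (nat_lit 989404669),
  Rx.mk (nat_lit 270) (nat_lit 6) (nat_lit 1) (nat_lit 4) (nat_lit 3) (nat_lit 183) (nat_lit 336) r3_183 r10_336 (nat_lit 0) (nat_lit 0) (nat_lit 1486174) (nat_lit 0x82dc4fb94) (nat_lit 495172786),
  Rx.mk (nat_lit 332) (nat_lit 4) (nat_lit 1) (nat_lit 5) (nat_lit 6) (nat_lit 181) (nat_lit 334) r3_181 r10_334 (nat_lit 24741287) (nat_lit 0) (nat_lit 0) (nat_lit 0x8017985b4) (nat_lit 561612199),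
  Rx.mk (nat_lit 334) (nat_lit 6) (nat_lit 1) (nat_lit 5) (nat_lit 7) (nat_lit 184) (nat_lit 337) r3_184 r10_337 (nat_lit 0) (nat_lit 0) (nat_lit 0) (nat_lit 0x8428b5dde) (nat_lit 474166012),
  Rx.mk (nat_lit 460) (nat_lit 4) (nat_lit 1) (nat_lit 7) (nat_lit 6) (nat_lit 182) (nat_lit 335) r3_182 r10_335 (nat_lit 50053958) (nat_lit 0) (nat_lit 0) (nat_lit 0x7eff903aa) (nat_lit 604233320),
  Rx.mk (nat_lit 462) (nat_lit 6) (nat_lit 1) (nat_lit 7) (nat_lit 7) (nat_lit 185) (nat_lit 338) r3_185 r10_338 (nat_lit 0) (nat_lit 0) (nat_lit 0) (nat_lit 0x8428a6758) (nat_lit 474169612)]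
noncomputable def e50_29 : List Rx := [
  Rx.mk (nat_lit 460) (nat_lit 4) (nat_lit 1) (nat_lit 7) (nat_lit 6) (nat_lit 225) (nat_lit 351) r3_225 r11_351 (nat_lit 9974206) (nat_lit 0) (nat_lit 0) (nat_lit 0x7a7d1cf58) (nat_lit 636241818),
  Rx.mk (nat_lit 462) (nat_lit 6) (nat_lit 1) (nat_lit 7) (nat_lit 7) (nat_lit 226) (nat_lit 352) r3_226 r11_352 (nat_lit 0) (nat_lit 0) (nat_lit 0) (nat_lit 0x885a32e30) (nat_lit 409617212)]
noncomputable def e50_30 : List Rx := [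
  Rx.mk (nat_lit 20) (nat_lit 4) (nat_lit 2) (nat_lit 0) (nat_lit 2) (nat_lit 333) (nat_lit 52) r3_333 r5_52 (nat_lit 1558) (nat_lit 0) (nat_lit 2749) (nat_lit 0x800757f88) (nat_lit 536440369),
  Rx.mk (nat_lit 21) (nat_lit 5) (nat_lit 2) (nat_lit 0) (nat_lit 3) (nat_lit 337) (nat_lit 53) r3_337 r5_53 (nat_lit 0) (nat_lit 0) (nat_lit 4617775) (nat_lit 0x7f39a7408) (nat_lit 554334537),
  Rx.mk (nat_lit 23) (nat_lit 7) (nat_lit 2) (nat_lit 0) (nat_lit 3) (nat_lit 341) (nat_lit 54) r3_341 r5_54 (nat_lit 0) (nat_lit 0) (nat_lit 6095527) (nat_lit 0x814491984) (nat_lit 524090139),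
  Rx.mk (nat_lit 196) (nat_lit 4) (nat_lit 0) (nat_lit 3) (nat_lit 4) (nat_lit 334) (nat_lit 55) r3_334 r5_55 (nat_lit 3690) (nat_lit 4830) (nat_lit 0) (nat_lit 0x7ffd07a60) (nat_lit 537068682),
  Rx.mk (nat_lit 197) (nat_lit 5) (nat_lit 0) (nat_lit 3) (nat_lit 5) (nat_lit 338) (nat_lit 56) r3_338 r5_56 (nat_lit 0) (nat_lit 1607337) (nat_lit 0) (nat_lit 0x7673024ae) (nat_lit 693215299),
  Rx.mk (nat_lit 212) (nat_lit 4) (nat_lit 2) (nat_lit 3) (nat_lit 6) (nat_lit 335) (nat_lit 59) r3_335 r5_59 (nat_lit 255679) (nat_lit 0) (nat_lit 0) (nat_lit 0x890dc1b68) (nat_lit 399147191),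
  Rx.mk (nat_lit 213) (nat_lit 5) (nat_lit 2) (nat_lit 3) (nat_lit 7) (nat_lit 339) (nat_lit 60) r3_339 r5_60 (nat_lit 0) (nat_lit 0) (nat_lit 0) (nat_lit 0x95e0ba39c) (nat_lit 203775112),
  Rx.mk (nat_lit 220) (nat_lit 4) (nat_lit 3) (nat_lit 3) (nat_lit 6) (nat_lit 336) (nat_lit 57) r3_336 r5_57 (nat_lit 2939284) (nat_lit 0) (nat_lit 0) (nat_lit 0x760f97a22) (nat_lit 700976746),
  Rx.mk (nat_lit 221) (nat_lit 5) (nat_lit 3) (nat_lit 3) (nat_lit 7) (nat_lit 340) (nat_lit 58) r3_340 r5_58 (nat_lit 0) (nat_lit 0) (nat_lit 0) (nat_lit 0x7e9266ec8) (nat_lit 560921062)]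
noncomputable def e50_31 : List Rx := [
  Rx.mk (nat_lit 4) (nat_lit 4) (nat_lit 0) (nat_lit 0) (nat_lit 0) (nat_lit 342) (nat_lit 19) r3_342 r11_19 (nat_lit 96674) (nat_lit 132111) (nat_lit 122716) (nat_lit 0x497316d28) (nat_lit 1419374513),
  Rx.mk (nat_lit 5) (nat_lit 5) (nat_lit 0) (nat_lit 0) (nat_lit 1) (nat_lit 349) (nat_lit 20) r3_349 r11_20 (nat_lit 0) (nat_lit 18566817) (nat_lit 29295655) (nat_lit 0x6eb4eea14) (nat_lit 865039884),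
  Rx.mk (nat_lit 7) (nat_lit 7) (nat_lit 0) (nat_lit 0) (nat_lit 1) (nat_lit 356) (nat_lit 21) r3_356 r11_21 (nat_lit 0) (nat_lit 41499232) (nat_lit 24848889) (nat_lit 0x75df8e2a4) (nat_lit 767700883),
  Rx.mk (nat_lit 20) (nat_lit 4) (nat_lit 2) (nat_lit 0) (nat_lit 2) (nat_lit 343) (nat_lit 22) r3_343 r11_22 (nat_lit 4459709) (nat_lit 0) (nat_lit 5090553) (nat_lit 0x6f5ae93ec) (nat_lit 816096324),
  Rx.mk (nat_lit 21) (nat_lit 5) (nat_lit 2) (nat_lit 0) (nat_lit 3) (nat_lit 350) (nat_lit 23) r3_350 r11_23 (nat_lit 0) (nat_lit 0) (nat_lit 14431981) (nat_lit 0x80cd30a02) (nat_lit 540176893),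
  Rx.mk (nat_lit 23) (nat_lit 7) (nat_lit 2) (nat_lit 0) (nat_lit 3) (nat_lit 357) (nat_lit 24) r3_357 r11_24 (nat_lit 0) (nat_lit 0) (nat_lit 10849071) (nat_lit 0x7fc617ece) (nat_lit 552588333),
  Rx.mk (nat_lit 68) (nat_lit 4) (nat_lit 0) (nat_lit 1) (nat_lit 4) (nat_lit 344) (nat_lit 25) r3_344 r11_25 (nat_lit 3284544) (nat_lit 1291523) (nat_lit 0) (nat_lit 0x652f21fd4) (nat_lit 975280179),
  Rx.mk (nat_lit 69) (nat_lit 5) (nat_lit 0) (nat_lit 1) (nat_lit 5) (nat_lit 351) (nat_lit 26) r3_351 r11_26 (nat_lit 0) (nat_lit 24741287) (nat_lit 0) (nat_lit 0x8017985b4) (nat_lit 561612199),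
  Rx.mk (nat_lit 71) (nat_lit 7) (nat_lit 0) (nat_lit 1) (nat_lit 5) (nat_lit 358) (nat_lit 27) r3_358 r11_27 (nat_lit 0) (nat_lit 22959846) (nat_lit 0) (nat_lit 0x7f72d2be2) (nat_lit 569951908),
  Rx.mk (nat_lit 84) (nat_lit 4) (nat_lit 2) (nat_lit 1) (nat_lit 6) (nat_lit 345) (nat_lit 28) r3_345 r11_28 (nat_lit 13146689) (nat_lit 0) (nat_lit 0) (nat_lit 0x808dd2f86) (nat_lit 542691851),
  Rx.mk (nat_lit 85) (nat_lit 5) (nat_lit 2) (nat_lit 1) (nat_lit 7) (nat_lit 352) (nat_lit 29) r3_352 r11_29 (nat_lit 0) (nat_lit 0) (nat_lit 0) (nat_lit 0x8017985b4) (nat_lit 536870912),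
  Rx.mk (nat_lit 87) (nat_lit 7) (nat_lit 2) (nat_lit 1) (nat_lit 7) (nat_lit 359) (nat_lit 30) r3_359 r11_30 (nat_lit 0) (nat_lit 0) (nat_lit 0) (nat_lit 0x8017985b4) (nat_lit 536870912),
  Rx.mk (nat_lit 196) (nat_lit 4) (nat_lit 0) (nat_lit 3) (nat_lit 4) (nat_lit 346) (nat_lit 31) r3_346 r11_31 (nat_lit 849840) (nat_lit 138609354) (nat_lit 0) (nat_lit 0x69d7f337a) (nat_lit 1034816656),
  Rx.mk (nat_lit 197) (nat_lit 5) (nat_lit 0) (nat_lit 3) (nat_lit 5) (nat_lit 353) (nat_lit 32) r3_353 r11_32 (nat_lit 0) (nat_lit 29915179) (nat_lit 0) (nat_lit 0x7fe911db2) (nat_lit 569577941),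
  Rx.mk (nat_lit 212) (nat_lit 4) (nat_lit 2) (nat_lit 3) (nat_lit 6) (nat_lit 347) (nat_lit 35) r3_347 r11_35 (nat_lit 13744676) (nat_lit 0) (nat_lit 0) (nat_lit 0x808aa0700) (nat_lit 543529688),
  Rx.mk (nat_lit 213) (nat_lit 5) (nat_lit 2) (nat_lit 3) (nat_lit 7) (nat_lit 354) (nat_lit 36) r3_354 r11_36 (nat_lit 0) (nat_lit 0) (nat_lit 0) (nat_lit 0x8017985b4) (nat_lit 536870912),
  Rx.mk (nat_lit 220) (nat_lit 4) (nat_lit 3) (nat_lit 3) (nat_lit 6) (nat_lit 348) (nat_lit 33) r3_348 r11_33 (nat_lit 22698438) (nat_lit 0) (nat_lit 0) (nat_lit 0x801e644f6) (nat_lit 559143350),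
  Rx.mk (nat_lit 221) (nat_lit 5) (nat_lit 3) (nat_lit 3) (nat_lit 7) (nat_lit 355) (nat_lit 34) r3_355 r11_34 (nat_lit 0) (nat_lit 0) (nat_lit 0) (nat_lit 0x8017985b4) (nat_lit 536870912)]
noncomputable def e50_32 : List Rx := [
  Rx.mk (nat_lit 199) (nat_lit 7) (nat_lit 0) (nat_lit 3) (nat_lit 5) (nat_lit 79) (nat_lit 15) r3_79 r6_15 (nat_lit 0) (nat_lit 1281031) (nat_lit 0) (nat_lit 0x74900bd36) (nat_lit 723321843),
  Rx.mk (nat_lit 215) (nat_lit 7) (nat_lit 2) (nat_lit 3) (nat_lit 7) (nat_lit 80) (nat_lit 16) r3_80 r6_16 (nat_lit 0) (nat_lit 0) (nat_lit 0) (nat_lit 0x82a884a62) (nat_lit 496785062),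
  Rx.mk (nat_lit 286) (nat_lit 6) (nat_lit 3) (nat_lit 4) (nat_lit 3) (nat_lit 76) (nat_lit 17) r3_76 r6_17 (nat_lit 0) (nat_lit 0) (nat_lit 320985) (nat_lit 0x7f1636122) (nat_lit 552018747),
  Rx.mk (nat_lit 452) (nat_lit 4) (nat_lit 0) (nat_lit 7) (nat_lit 4) (nat_lit 74) (nat_lit 12) r3_74 r6_12 (nat_lit 3671) (nat_lit 2940) (nat_lit 0) (nat_lit 0x7fffa9322) (nat_lit 536901023),
  Rx.mk (nat_lit 454) (nat_lit 6) (nat_lit 0) (nat_lit 7) (nat_lit 5) (nat_lit 77) (nat_lit 18) r3_77 r6_18 (nat_lit 0) (nat_lit 201864) (nat_lit 0) (nat_lit 0x7fa9eb5e8) (nat_lit 542596676),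
  Rx.mk (nat_lit 455) (nat_lit 7) (nat_lit 0) (nat_lit 7) (nat_lit 5) (nat_lit 81) (nat_lit 14) r3_81 r6_14 (nat_lit 0) (nat_lit 6608634) (nat_lit 0) (nat_lit 0x74406e594) (nat_lit 733974246),
  Rx.mk (nat_lit 476) (nat_lit 4) (nat_lit 3) (nat_lit 7) (nat_lit 6) (nat_lit 75) (nat_lit 13) r3_75 r6_13 (nat_lit 2875897) (nat_lit 0) (nat_lit 0) (nat_lit 0x717aba4b2) (nat_lit 774887159),
  Rx.mk (nat_lit 478) (nat_lit 6) (nat_lit 3) (nat_lit 7) (nat_lit 7) (nat_lit 78) (nat_lit 19) r3_78 r6_19 (nat_lit 0) (nat_lit 0) (nat_lit 0) (nat_lit 0x85801fec0) (nat_lit 453525812)]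
noncomputable def e50_33 : List Rx := [
  Rx.mk (nat_lit 262) (nat_lit 6) (nat_lit 0) (nat_lit 4) (nat_lit 1) (nat_lit 84) (nat_lit 52) r3_84 r5_52 (nat_lit 0) (nat_lit 1558) (nat_lit 2749) (nat_lit 0x800757f88) (nat_lit 536440369),
  Rx.mk (nat_lit 270) (nat_lit 6) (nat_lit 1) (nat_lit 4) (nat_lit 3) (nat_lit 85) (nat_lit 53) r3_85 r5_53 (nat_lit 0) (nat_lit 0) (nat_lit 4617775) (nat_lit 0x7f39a7408) (nat_lit 554334537),
  Rx.mk (nat_lit 286) (nat_lit 6) (nat_lit 3) (nat_lit 4) (nat_lit 3) (nat_lit 86) (nat_lit 54) r3_86 r5_54 (nat_lit 0) (nat_lit 0) (nat_lit 6095527) (nat_lit 0x814491984) (nat_lit 524090139),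
  Rx.mk (nat_lit 452) (nat_lit 4) (nat_lit 0) (nat_lit 7) (nat_lit 4) (nat_lit 82) (nat_lit 55) r3_82 r5_55 (nat_lit 4830) (nat_lit 3690) (nat_lit 0) (nat_lit 0x7ffd07a60) (nat_lit 537068682),
  Rx.mk (nat_lit 454) (nat_lit 6) (nat_lit 0) (nat_lit 7) (nat_lit 5) (nat_lit 87) (nat_lit 59) r3_87 r5_59 (nat_lit 0) (nat_lit 255679) (nat_lit 0) (nat_lit 0x890dc1b68) (nat_lit 399147191),
  Rx.mk (nat_lit 455) (nat_lit 7) (nat_lit 0) (nat_lit 7) (nat_lit 5) (nat_lit 89) (nat_lit 57) r3_89 r5_57 (nat_lit 0) (nat_lit 2939284) (nat_lit 0) (nat_lit 0x760f97a22) (nat_lit 700976746),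
  Rx.mk (nat_lit 460) (nat_lit 4) (nat_lit 1) (nat_lit 7) (nat_lit 6) (nat_lit 83) (nat_lit 56) r3_83 r5_56 (nat_lit 1607337) (nat_lit 0) (nat_lit 0) (nat_lit 0x7673024ae) (nat_lit 693215299),
  Rx.mk (nat_lit 462) (nat_lit 6) (nat_lit 1) (nat_lit 7) (nat_lit 7) (nat_lit 88) (nat_lit 60) r3_88 r5_60 (nat_lit 0) (nat_lit 0) (nat_lit 0) (nat_lit 0x95e0ba39c) (nat_lit 203775112),
  Rx.mk (nat_lit 463) (nat_lit 7) (nat_lit 1) (nat_lit 7) (nat_lit 7) (nat_lit 90) (nat_lit 58) r3_90 r5_58 (nat_lit 0) (nat_lit 0) (nat_lit 0) (nat_lit 0x7e9266ec8) (nat_lit 560921062)]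
noncomputable def e50_34 : List Rx := [
  Rx.mk (nat_lit 260) (nat_lit 4) (nat_lit 0) (nat_lit 4) (nat_lit 0) (nat_lit 186) (nat_lit 19) r3_186 r11_19 (nat_lit 132111) (nat_lit 96674) (nat_lit 122716) (nat_lit 0x497316d28) (nat_lit 1419374513),
  Rx.mk (nat_lit 262) (nat_lit 6) (nat_lit 0) (nat_lit 4) (nat_lit 1) (nat_lit 194) (nat_lit 22) r3_194 r11_22 (nat_lit 0) (nat_lit 4459709) (nat_lit 5090553) (nat_lit 0x6f5ae93ec) (nat_lit 816096324),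
  Rx.mk (nat_lit 268) (nat_lit 4) (nat_lit 1) (nat_lit 4) (nat_lit 2) (nat_lit 187) (nat_lit 20) r3_187 r11_20 (nat_lit 18566817) (nat_lit 0) (nat_lit 29295655) (nat_lit 0x6eb4eea14) (nat_lit 865039884),
  Rx.mk (nat_lit 270) (nat_lit 6) (nat_lit 1) (nat_lit 4) (nat_lit 3) (nat_lit 195) (nat_lit 23) r3_195 r11_23 (nat_lit 0) (nat_lit 0) (nat_lit 14431981) (nat_lit 0x80cd30a02) (nat_lit 540176893),
  Rx.mk (nat_lit 284) (nat_lit 4) (nat_lit 3) (nat_lit 4) (nat_lit 2) (nat_lit 188) (nat_lit 21) r3_188 r11_21 (nat_lit 41499232) (nat_lit 0) (nat_lit 24848889) (nat_lit 0x75df8e2a4) (nat_lit 767700883),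
  Rx.mk (nat_lit 286) (nat_lit 6) (nat_lit 3) (nat_lit 4) (nat_lit 3) (nat_lit 196) (nat_lit 24) r3_196 r11_24 (nat_lit 0) (nat_lit 0) (nat_lit 10849071) (nat_lit 0x7fc617ece) (nat_lit 552588333),
  Rx.mk (nat_lit 324) (nat_lit 4) (nat_lit 0) (nat_lit 5) (nat_lit 4) (nat_lit 189) (nat_lit 25) r3_189 r11_25 (nat_lit 1291523) (nat_lit 3284544) (nat_lit 0) (nat_lit 0x652f21fd4) (nat_lit 975280179),
  Rx.mk (nat_lit 326) (nat_lit 6) (nat_lit 0) (nat_lit 5) (nat_lit 5) (nat_lit 197) (nat_lit 28) r3_197 r11_28 (nat_lit 0) (nat_lit 13146689) (nat_lit 0) (nat_lit 0x808dd2f86) (nat_lit 542691851),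
  Rx.mk (nat_lit 332) (nat_lit 4) (nat_lit 1) (nat_lit 5) (nat_lit 6) (nat_lit 190) (nat_lit 26) r3_190 r11_26 (nat_lit 24741287) (nat_lit 0) (nat_lit 0) (nat_lit 0x8017985b4) (nat_lit 561612199),
  Rx.mk (nat_lit 334) (nat_lit 6) (nat_lit 1) (nat_lit 5) (nat_lit 7) (nat_lit 198) (nat_lit 29) r3_198 r11_29 (nat_lit 0) (nat_lit 0) (nat_lit 0) (nat_lit 0x8017985b4) (nat_lit 536870912),
  Rx.mk (nat_lit 348) (nat_lit 4) (nat_lit 3) (nat_lit 5) (nat_lit 6) (nat_lit 191) (nat_lit 27) r3_191 r11_27 (nat_lit 22959846) (nat_lit 0) (nat_lit 0) (nat_lit 0x7f72d2be2) (nat_lit 569951908),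
  Rx.mk (nat_lit 350) (nat_lit 6) (nat_lit 3) (nat_lit 5) (nat_lit 7) (nat_lit 199) (nat_lit 30) r3_199 r11_30 (nat_lit 0) (nat_lit 0) (nat_lit 0) (nat_lit 0x8017985b4) (nat_lit 536870912),
  Rx.mk (nat_lit 452) (nat_lit 4) (nat_lit 0) (nat_lit 7) (nat_lit 4) (nat_lit 192) (nat_lit 31) r3_192 r11_31 (nat_lit 138609354) (nat_lit 849840) (nat_lit 0) (nat_lit 0x69d7f337a) (nat_lit 1034816656),
  Rx.mk (nat_lit 454) (nat_lit 6) (nat_lit 0) (nat_lit 7) (nat_lit 5) (nat_lit 200) (nat_lit 35) r3_200 r11_35 (nat_lit 0) (nat_lit 13744676) (nat_lit 0) (nat_lit 0x808aa0700) (nat_lit 543529688),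
  Rx.mk (nat_lit 455) (nat_lit 7) (nat_lit 0) (nat_lit 7) (nat_lit 5) (nat_lit 202) (nat_lit 33) r3_202 r11_33 (nat_lit 0) (nat_lit 22698438) (nat_lit 0) (nat_lit 0x801e644f6) (nat_lit 559143350),
  Rx.mk (nat_lit 460) (nat_lit 4) (nat_lit 1) (nat_lit 7) (nat_lit 6) (nat_lit 193) (nat_lit 32) r3_193 r11_32 (nat_lit 29915179) (nat_lit 0) (nat_lit 0) (nat_lit 0x7fe911db2) (nat_lit 569577941),
  Rx.mk (nat_lit 462) (nat_lit 6) (nat_lit 1) (nat_lit 7) (nat_lit 7) (nat_lit 201) (nat_lit 36) r3_201 r11_36 (nat_lit 0) (nat_lit 0) (nat_lit 0) (nat_lit 0x8017985b4) (nat_lit 536870912),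
  Rx.mk (nat_lit 463) (nat_lit 7) (nat_lit 1) (nat_lit 7) (nat_lit 7) (nat_lit 203) (nat_lit 34) r3_203 r11_34 (nat_lit 0) (nat_lit 0) (nat_lit 0) (nat_lit 0x8017985b4) (nat_lit 536870912)]
noncomputable def e50_35 : List Rx := [
  Rx.mk (nat_lit 23) (nat_lit 7) (nat_lit 2) (nat_lit 0) (nat_lit 3) (nat_lit 232) (nat_lit 17) r3_232 r6_17 (nat_lit 0) (nat_lit 0) (nat_lit 320985) (nat_lit 0x7f1636122) (nat_lit 552018747),
  Rx.mk (nat_lit 196) (nat_lit 4) (nat_lit 0) (nat_lit 3) (nat_lit 4) (nat_lit 227) (nat_lit 12) r3_227 r6_12 (nat_lit 2940) (nat_lit 3671) (nat_lit 0) (nat_lit 0x7fffa9322) (nat_lit 536901023),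
  Rx.mk (nat_lit 199) (nat_lit 7) (nat_lit 0) (nat_lit 3) (nat_lit 5) (nat_lit 233) (nat_lit 13) r3_233 r6_13 (nat_lit 0) (nat_lit 2875897) (nat_lit 0) (nat_lit 0x717aba4b2) (nat_lit 774887159),
  Rx.mk (nat_lit 212) (nat_lit 4) (nat_lit 2) (nat_lit 3) (nat_lit 6) (nat_lit 228) (nat_lit 18) r3_228 r6_18 (nat_lit 201864) (nat_lit 0) (nat_lit 0) (nat_lit 0x7fa9eb5e8) (nat_lit 542596676),
  Rx.mk (nat_lit 215) (nat_lit 7) (nat_lit 2) (nat_lit 3) (nat_lit 7) (nat_lit 234) (nat_lit 19) r3_234 r6_19 (nat_lit 0) (nat_lit 0) (nat_lit 0) (nat_lit 0x85801fec0) (nat_lit 453525812),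
  Rx.mk (nat_lit 220) (nat_lit 4) (nat_lit 3) (nat_lit 3) (nat_lit 6) (nat_lit 229) (nat_lit 14) r3_229 r6_14 (nat_lit 6608634) (nat_lit 0) (nat_lit 0) (nat_lit 0x74406e594) (nat_lit 733974246),
  Rx.mk (nat_lit 476) (nat_lit 4) (nat_lit 3) (nat_lit 7) (nat_lit 6) (nat_lit 230) (nat_lit 15) r3_230 r6_15 (nat_lit 1281031) (nat_lit 0) (nat_lit 0) (nat_lit 0x74900bd36) (nat_lit 723321843),
  Rx.mk (nat_lit 478) (nat_lit 6) (nat_lit 3) (nat_lit 7) (nat_lit 7) (nat_lit 231) (nat_lit 16) r3_231 r6_16 (nat_lit 0) (nat_lit 0) (nat_lit 0) (nat_lit 0x82a884a62) (nat_lit 496785062)]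
noncomputable def e50_36 : List Rx := [
  Rx.mk (nat_lit 196) (nat_lit 4) (nat_lit 0) (nat_lit 3) (nat_lit 4) (nat_lit 235) (nat_lit 384) r3_235 r12_384 (nat_lit 4214) (nat_lit 5003) (nat_lit 0) (nat_lit 0x7fff1ac3a) (nat_lit 536938379),
  Rx.mk (nat_lit 199) (nat_lit 7) (nat_lit 0) (nat_lit 3) (nat_lit 5) (nat_lit 241) (nat_lit 388) r3_241 r12_388 (nat_lit 0) (nat_lit 475299) (nat_lit 0) (nat_lit 0x6da4f8700) (nat_lit 834267961),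
  Rx.mk (nat_lit 212) (nat_lit 4) (nat_lit 2) (nat_lit 3) (nat_lit 6) (nat_lit 236) (nat_lit 387) r3_236 r12_387 (nat_lit 80128) (nat_lit 0) (nat_lit 0) (nat_lit 0x7ffce7580) (nat_lit 537198240),
  Rx.mk (nat_lit 215) (nat_lit 7) (nat_lit 2) (nat_lit 3) (nat_lit 7) (nat_lit 242) (nat_lit 389) r3_242 r12_389 (nat_lit 0) (nat_lit 0) (nat_lit 0) (nat_lit 0x8380378ba) (nat_lit 483854562),
  Rx.mk (nat_lit 452) (nat_lit 4) (nat_lit 0) (nat_lit 7) (nat_lit 4) (nat_lit 237) (nat_lit 385) r3_237 r12_385 (nat_lit 5003) (nat_lit 4214) (nat_lit 0) (nat_lit 0x7fff1ac3a) (nat_lit 536938379),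
  Rx.mk (nat_lit 454) (nat_lit 6) (nat_lit 0) (nat_lit 7) (nat_lit 5) (nat_lit 239) (nat_lit 390) r3_239 r12_390 (nat_lit 0) (nat_lit 80128) (nat_lit 0) (nat_lit 0x7ffce7580) (nat_lit 537198240),
  Rx.mk (nat_lit 476) (nat_lit 4) (nat_lit 3) (nat_lit 7) (nat_lit 6) (nat_lit 238) (nat_lit 386) r3_238 r12_386 (nat_lit 475299) (nat_lit 0) (nat_lit 0) (nat_lit 0x6da4f8700) (nat_lit 834267961),
  Rx.mk (nat_lit 478) (nat_lit 6) (nat_lit 3) (nat_lit 7) (nat_lit 7) (nat_lit 240) (nat_lit 391) r3_240 r12_391 (nat_lit 0) (nat_lit 0) (nat_lit 0) (nat_lit 0x8380378ba) (nat_lit 483854562)]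
noncomputable def e50_37 : List Rx := [
  Rx.mk (nat_lit 176) (nat_lit 0) (nat_lit 6) (nat_lit 2) (nat_lit 6) (nat_lit 0) (nat_lit 48) r3_0 r0_48 (nat_lit 48839) (nat_lit 0) (nat_lit 0) (nat_lit 0x6e7903e32) (nat_lit 820364901),
  Rx.mk (nat_lit 178) (nat_lit 2) (nat_lit 6) (nat_lit 2) (nat_lit 7) (nat_lit 1) (nat_lit 51) r3_1 r0_51 (nat_lit 0) (nat_lit 0) (nat_lit 0) (nat_lit 0x7f14b983a) (nat_lit 552804862),
  Rx.mk (nat_lit 294) (nat_lit 6) (nat_lit 4) (nat_lit 4) (nat_lit 1) (nat_lit 4) (nat_lit 43) r3_4 r0_43 (nat_lit 0) (nat_lit 966) (nat_lit 2481) (nat_lit 0x82288f6ae) (nat_lit 503955459),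
  Rx.mk (nat_lit 318) (nat_lit 6) (nat_lit 7) (nat_lit 4) (nat_lit 3) (nat_lit 5) (nat_lit 44) r3_5 r0_44 (nat_lit 0) (nat_lit 0) (nat_lit 7927509) (nat_lit 0x72604c6ec) (nat_lit 765358121),
  Rx.mk (nat_lit 418) (nat_lit 2) (nat_lit 4) (nat_lit 6) (nat_lit 5) (nat_lit 2) (nat_lit 49) r3_2 r0_49 (nat_lit 0) (nat_lit 12614) (nat_lit 0) (nat_lit 0x7ff74418c) (nat_lit 537440126),
  Rx.mk (nat_lit 422) (nat_lit 6) (nat_lit 4) (nat_lit 6) (nat_lit 5) (nat_lit 6) (nat_lit 46) r3_6 r0_46 (nat_lit 0) (nat_lit 1916670) (nat_lit 0) (nat_lit 0x7bfb383c8) (nat_lit 604200682),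
  Rx.mk (nat_lit 434) (nat_lit 2) (nat_lit 6) (nat_lit 6) (nat_lit 7) (nat_lit 3) (nat_lit 50) r3_3 r0_50 (nat_lit 0) (nat_lit 0) (nat_lit 0) (nat_lit 0x803739724) (nat_lit 534831362),
  Rx.mk (nat_lit 446) (nat_lit 6) (nat_lit 7) (nat_lit 6) (nat_lit 7) (nat_lit 7) (nat_lit 47) r3_7 r0_47 (nat_lit 0) (nat_lit 0) (nat_lit 0) (nat_lit 0x7c1fb6a38) (nat_lit 600372212),
  Rx.mk (nat_lit 510) (nat_lit 6) (nat_lit 7) (nat_lit 7) (nat_lit 7) (nat_lit 8) (nat_lit 45) r3_8 r0_45 (nat_lit 0) (nat_lit 0) (nat_lit 0) (nat_lit 0x789a9bc84) (nat_lit 657134512)]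
noncomputable def e50_38 : List Rx := [
  Rx.mk (nat_lit 16) (nat_lit 0) (nat_lit 2) (nat_lit 0) (nat_lit 2) (nat_lit 91) (nat_lit 43) r3_91 r0_43 (nat_lit 966) (nat_lit 0) (nat_lit 2481) (nat_lit 0x82288f6ae) (nat_lit 503955459),
  Rx.mk (nat_lit 19) (nat_lit 3) (nat_lit 2) (nat_lit 0) (nat_lit 3) (nat_lit 97) (nat_lit 44) r3_97 r0_44 (nat_lit 0) (nat_lit 0) (nat_lit 7927509) (nat_lit 0x72604c6ec) (nat_lit 765358121),
  Rx.mk (nat_lit 144) (nat_lit 0) (nat_lit 2) (nat_lit 2) (nat_lit 6) (nat_lit 92) (nat_lit 46) r3_92 r0_46 (nat_lit 1916670) (nat_lit 0) (nat_lit 0) (nat_lit 0x7bfb383c8) (nat_lit 604200682),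
  Rx.mk (nat_lit 147) (nat_lit 3) (nat_lit 2) (nat_lit 2) (nat_lit 7) (nat_lit 98) (nat_lit 47) r3_98 r0_47 (nat_lit 0) (nat_lit 0) (nat_lit 0) (nat_lit 0x7c1fb6a38) (nat_lit 600372212),
  Rx.mk (nat_lit 176) (nat_lit 0) (nat_lit 6) (nat_lit 2) (nat_lit 6) (nat_lit 93) (nat_lit 49) r3_93 r0_49 (nat_lit 12614) (nat_lit 0) (nat_lit 0) (nat_lit 0x7ff74418c) (nat_lit 537440126),
  Rx.mk (nat_lit 178) (nat_lit 2) (nat_lit 6) (nat_lit 2) (nat_lit 7) (nat_lit 94) (nat_lit 50) r3_94 r0_50 (nat_lit 0) (nat_lit 0) (nat_lit 0) (nat_lit 0x803739724) (nat_lit 534831362),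
  Rx.mk (nat_lit 211) (nat_lit 3) (nat_lit 2) (nat_lit 3) (nat_lit 7) (nat_lit 99) (nat_lit 45) r3_99 r0_45 (nat_lit 0) (nat_lit 0) (nat_lit 0) (nat_lit 0x789a9bc84) (nat_lit 657134512),
  Rx.mk (nat_lit 418) (nat_lit 2) (nat_lit 4) (nat_lit 6) (nat_lit 5) (nat_lit 95) (nat_lit 48) r3_95 r0_48 (nat_lit 0) (nat_lit 48839) (nat_lit 0) (nat_lit 0x6e7903e32) (nat_lit 820364901),
  Rx.mk (nat_lit 434) (nat_lit 2) (nat_lit 6) (nat_lit 6) (nat_lit 7) (nat_lit 96) (nat_lit 51) r3_96 r0_51 (nat_lit 0) (nat_lit 0) (nat_lit 0) (nat_lit 0x7f14b983a) (nat_lit 552804862)]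
noncomputable def e50_39 : List Rx := [
  Rx.mk (nat_lit 176) (nat_lit 0) (nat_lit 6) (nat_lit 2) (nat_lit 6) (nat_lit 100) (nat_lit 35) r3_100 r7_35 (nat_lit 365028) (nat_lit 0) (nat_lit 0) (nat_lit 0x82b316502) (nat_lit 496255090),
  Rx.mk (nat_lit 178) (nat_lit 2) (nat_lit 6) (nat_lit 2) (nat_lit 7) (nat_lit 101) (nat_lit 38) r3_101 r7_38 (nat_lit 0) (nat_lit 0) (nat_lit 0) (nat_lit 0x7f95fdf2c) (nat_lit 544861262),
  Rx.mk (nat_lit 418) (nat_lit 2) (nat_lit 4) (nat_lit 6) (nat_lit 5) (nat_lit 102) (nat_lit 36) r3_102 r7_36 (nat_lit 0) (nat_lit 365028) (nat_lit 0) (nat_lit 0x82b316502) (nat_lit 496255090),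
  Rx.mk (nat_lit 434) (nat_lit 2) (nat_lit 6) (nat_lit 6) (nat_lit 7) (nat_lit 103) (nat_lit 37) r3_103 r7_37 (nat_lit 0) (nat_lit 0) (nat_lit 0) (nat_lit 0x7f95fdf2c) (nat_lit 544861262)]
noncomputable def e50_40 : List Rx := [
  Rx.mk (nat_lit 17) (nat_lit 1) (nat_lit 2) (nat_lit 0) (nat_lit 3) (nat_lit 254) (nat_lit 44) r3_254 r2_44 (nat_lit 0) (nat_lit 0) (nat_lit 1368375) (nat_lit 0x80b22cd14) (nat_lit 527945287),
  Rx.mk (nat_lit 145) (nat_lit 1) (nat_lit 2) (nat_lit 2) (nat_lit 7) (nat_lit 255) (nat_lit 45) r3_255 r2_45 (nat_lit 0) (nat_lit 0) (nat_lit 0) (nat_lit 0x842b28ae4) (nat_lit 474011712),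
  Rx.mk (nat_lit 177) (nat_lit 1) (nat_lit 6) (nat_lit 2) (nat_lit 7) (nat_lit 256) (nat_lit 46) r3_256 r2_46 (nat_lit 0) (nat_lit 0) (nat_lit 0) (nat_lit 0x8616d9e60) (nat_lit 444661462)]
noncomputable def e50_41 : List Rx := [
  Rx.mk (nat_lit 177) (nat_lit 1) (nat_lit 6) (nat_lit 2) (nat_lit 7) (nat_lit 261) (nat_lit 14) r3_261 r9_14 (nat_lit 0) (nat_lit 0) (nat_lit 0) (nat_lit 0x7fce2024c) (nat_lit 541400812)]
noncomputable def e50_42 : List Rx := [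
  Rx.mk (nat_lit 17) (nat_lit 1) (nat_lit 2) (nat_lit 0) (nat_lit 3) (nat_lit 257) (nat_lit 19) r3_257 r9_19 (nat_lit 0) (nat_lit 0) (nat_lit 6950286) (nat_lit 0x6a58027fa) (nat_lit 894620048),
  Rx.mk (nat_lit 81) (nat_lit 1) (nat_lit 2) (nat_lit 1) (nat_lit 7) (nat_lit 258) (nat_lit 20) r3_258 r9_20 (nat_lit 0) (nat_lit 0) (nat_lit 0) (nat_lit 0x7ffede474) (nat_lit 538398162),
  Rx.mk (nat_lit 145) (nat_lit 1) (nat_lit 2) (nat_lit 2) (nat_lit 7) (nat_lit 259) (nat_lit 22) r3_259 r9_22 (nat_lit 0) (nat_lit 0) (nat_lit 0) (nat_lit 0x7fbe4884c) (nat_lit 542361212),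
  Rx.mk (nat_lit 177) (nat_lit 1) (nat_lit 6) (nat_lit 2) (nat_lit 7) (nat_lit 260) (nat_lit 21) r3_260 r9_21 (nat_lit 0) (nat_lit 0) (nat_lit 0) (nat_lit 0x800056a40) (nat_lit 538300112)]
noncomputable def e50_43 : List Rx := [
  Rx.mk (nat_lit 16) (nat_lit 0) (nat_lit 2) (nat_lit 0) (nat_lit 2) (nat_lit 104) (nat_lit 39) r3_104 r1_39 (nat_lit 4286) (nat_lit 0) (nat_lit 10635) (nat_lit 0x80094492c) (nat_lit 536338983),
  Rx.mk (nat_lit 17) (nat_lit 1) (nat_lit 2) (nat_lit 0) (nat_lit 3) (nat_lit 107) (nat_lit 40) r3_107 r1_40 (nat_lit 0) (nat_lit 0) (nat_lit 15940000) (nat_lit 0x805843974) (nat_lit 548544762),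
  Rx.mk (nat_lit 19) (nat_lit 3) (nat_lit 2) (nat_lit 0) (nat_lit 3) (nat_lit 112) (nat_lit 41) r3_112 r1_41 (nat_lit 0) (nat_lit 0) (nat_lit 7553870) (nat_lit 0x7902075f8) (nat_lit 658039182),
  Rx.mk (nat_lit 144) (nat_lit 0) (nat_lit 2) (nat_lit 2) (nat_lit 6) (nat_lit 105) (nat_lit 43) r3_105 r1_43 (nat_lit 2704556) (nat_lit 0) (nat_lit 0) (nat_lit 0x7c015df14) (nat_lit 604691568),
  Rx.mk (nat_lit 145) (nat_lit 1) (nat_lit 2) (nat_lit 2) (nat_lit 7) (nat_lit 108) (nat_lit 44) r3_108 r1_44 (nat_lit 0) (nat_lit 0) (nat_lit 0) (nat_lit 0x80652468e) (nat_lit 532033562),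
  Rx.mk (nat_lit 147) (nat_lit 3) (nat_lit 2) (nat_lit 2) (nat_lit 7) (nat_lit 113) (nat_lit 45) r3_113 r1_45 (nat_lit 0) (nat_lit 0) (nat_lit 0) (nat_lit 0x7fd885e1c) (nat_lit 540659262),
  Rx.mk (nat_lit 176) (nat_lit 0) (nat_lit 6) (nat_lit 2) (nat_lit 6) (nat_lit 106) (nat_lit 46) r3_106 r1_46 (nat_lit 47983) (nat_lit 0) (nat_lit 0) (nat_lit 0x75459b28c) (nat_lit 710414795),
  Rx.mk (nat_lit 177) (nat_lit 1) (nat_lit 6) (nat_lit 2) (nat_lit 7) (nat_lit 109) (nat_lit 47) r3_109 r1_47 (nat_lit 0) (nat_lit 0) (nat_lit 0) (nat_lit 0x8b1948f84) (nat_lit 368104412),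
  Rx.mk (nat_lit 178) (nat_lit 2) (nat_lit 6) (nat_lit 2) (nat_lit 7) (nat_lit 110) (nat_lit 48) r3_110 r1_48 (nat_lit 0) (nat_lit 0) (nat_lit 0) (nat_lit 0x80a93acb0) (nat_lit 527952812),
  Rx.mk (nat_lit 211) (nat_lit 3) (nat_lit 2) (nat_lit 3) (nat_lit 7) (nat_lit 114) (nat_lit 42) r3_114 r1_42 (nat_lit 0) (nat_lit 0) (nat_lit 0) (nat_lit 0x80556b2ba) (nat_lit 532838362),
  Rx.mk (nat_lit 434) (nat_lit 2) (nat_lit 6) (nat_lit 6) (nat_lit 7) (nat_lit 111) (nat_lit 49) r3_111 r1_49 (nat_lit 0) (nat_lit 0) (nat_lit 0) (nat_lit 0x805620b38) (nat_lit 533027112)]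
noncomputable def e50_44 : List Rx := [
  Rx.mk (nat_lit 176) (nat_lit 0) (nat_lit 6) (nat_lit 2) (nat_lit 6) (nat_lit 115) (nat_lit 43) r3_115 r8_43 (nat_lit 1763441) (nat_lit 0) (nat_lit 0) (nat_lit 0x7c7a002d2) (nat_lit 596010653),
  Rx.mk (nat_lit 177) (nat_lit 1) (nat_lit 6) (nat_lit 2) (nat_lit 7) (nat_lit 116) (nat_lit 44) r3_116 r8_44 (nat_lit 0) (nat_lit 0) (nat_lit 0) (nat_lit 0x815f04622) (nat_lit 516911112),
  Rx.mk (nat_lit 178) (nat_lit 2) (nat_lit 6) (nat_lit 2) (nat_lit 7) (nat_lit 117) (nat_lit 46) r3_117 r8_46 (nat_lit 0) (nat_lit 0) (nat_lit 0) (nat_lit 0x7fe6eb434) (nat_lit 539872312),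
  Rx.mk (nat_lit 434) (nat_lit 2) (nat_lit 6) (nat_lit 6) (nat_lit 7) (nat_lit 118) (nat_lit 45) r3_118 r8_45 (nat_lit 0) (nat_lit 0) (nat_lit 0) (nat_lit 0x7fbaf6978) (nat_lit 542584962)]
noncomputable def e50_45 : List Rx := [
  Rx.mk (nat_lit 178) (nat_lit 2) (nat_lit 6) (nat_lit 2) (nat_lit 7) (nat_lit 9) (nat_lit 49) r3_9 r1_49 (nat_lit 0) (nat_lit 0) (nat_lit 0) (nat_lit 0x805620b38) (nat_lit 533027112),
  Rx.mk (nat_lit 294) (nat_lit 6) (nat_lit 4) (nat_lit 4) (nat_lit 1) (nat_lit 13) (nat_lit 39) r3_13 r1_39 (nat_lit 0) (nat_lit 4286) (nat_lit 10635) (nat_lit 0x80094492c) (nat_lit 536338983),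
  Rx.mk (nat_lit 302) (nat_lit 6) (nat_lit 5) (nat_lit 4) (nat_lit 3) (nat_lit 14) (nat_lit 40) r3_14 r1_40 (nat_lit 0) (nat_lit 0) (nat_lit 15940000) (nat_lit 0x805843974) (nat_lit 548544762),
  Rx.mk (nat_lit 318) (nat_lit 6) (nat_lit 7) (nat_lit 4) (nat_lit 3) (nat_lit 15) (nat_lit 41) r3_15 r1_41 (nat_lit 0) (nat_lit 0) (nat_lit 7553870) (nat_lit 0x7902075f8) (nat_lit 658039182),
  Rx.mk (nat_lit 418) (nat_lit 2) (nat_lit 4) (nat_lit 6) (nat_lit 5) (nat_lit 10) (nat_lit 46) r3_10 r1_46 (nat_lit 0) (nat_lit 47983) (nat_lit 0) (nat_lit 0x75459b28c) (nat_lit 710414795),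
  Rx.mk (nat_lit 422) (nat_lit 6) (nat_lit 4) (nat_lit 6) (nat_lit 5) (nat_lit 16) (nat_lit 43) r3_16 r1_43 (nat_lit 0) (nat_lit 2704556) (nat_lit 0) (nat_lit 0x7c015df14) (nat_lit 604691568),
  Rx.mk (nat_lit 426) (nat_lit 2) (nat_lit 5) (nat_lit 6) (nat_lit 7) (nat_lit 11) (nat_lit 47) r3_11 r1_47 (nat_lit 0) (nat_lit 0) (nat_lit 0) (nat_lit 0x8b1948f84) (nat_lit 368104412),
  Rx.mk (nat_lit 430) (nat_lit 6) (nat_lit 5) (nat_lit 6) (nat_lit 7) (nat_lit 17) (nat_lit 44) r3_17 r1_44 (nat_lit 0) (nat_lit 0) (nat_lit 0) (nat_lit 0x80652468e) (nat_lit 532033562),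
  Rx.mk (nat_lit 434) (nat_lit 2) (nat_lit 6) (nat_lit 6) (nat_lit 7) (nat_lit 12) (nat_lit 48) r3_12 r1_48 (nat_lit 0) (nat_lit 0) (nat_lit 0) (nat_lit 0x80a93acb0) (nat_lit 527952812),
  Rx.mk (nat_lit 446) (nat_lit 6) (nat_lit 7) (nat_lit 6) (nat_lit 7) (nat_lit 18) (nat_lit 45) r3_18 r1_45 (nat_lit 0) (nat_lit 0) (nat_lit 0) (nat_lit 0x7fd885e1c) (nat_lit 540659262),
  Rx.mk (nat_lit 510) (nat_lit 6) (nat_lit 7) (nat_lit 7) (nat_lit 7) (nat_lit 19) (nat_lit 42) r3_19 r1_42 (nat_lit 0) (nat_lit 0) (nat_lit 0) (nat_lit 0x80556b2ba) (nat_lit 532838362)]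
noncomputable def e50_46 : List Rx := [
  Rx.mk (nat_lit 302) (nat_lit 6) (nat_lit 5) (nat_lit 4) (nat_lit 3) (nat_lit 21) (nat_lit 44) r3_21 r2_44 (nat_lit 0) (nat_lit 0) (nat_lit 1368375) (nat_lit 0x80b22cd14) (nat_lit 527945287),
  Rx.mk (nat_lit 426) (nat_lit 2) (nat_lit 5) (nat_lit 6) (nat_lit 7) (nat_lit 20) (nat_lit 46) r3_20 r2_46 (nat_lit 0) (nat_lit 0) (nat_lit 0) (nat_lit 0x8616d9e60) (nat_lit 444661462),
  Rx.mk (nat_lit 430) (nat_lit 6) (nat_lit 5) (nat_lit 6) (nat_lit 7) (nat_lit 22) (nat_lit 45) r3_22 r2_45 (nat_lit 0) (nat_lit 0) (nat_lit 0) (nat_lit 0x842b28ae4) (nat_lit 474011712)]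
noncomputable def e50_47 : List Rx := [
  Rx.mk (nat_lit 178) (nat_lit 2) (nat_lit 6) (nat_lit 2) (nat_lit 7) (nat_lit 119) (nat_lit 45) r3_119 r8_45 (nat_lit 0) (nat_lit 0) (nat_lit 0) (nat_lit 0x7fbaf6978) (nat_lit 542584962),
  Rx.mk (nat_lit 418) (nat_lit 2) (nat_lit 4) (nat_lit 6) (nat_lit 5) (nat_lit 120) (nat_lit 43) r3_120 r8_43 (nat_lit 0) (nat_lit 1763441) (nat_lit 0) (nat_lit 0x7c7a002d2) (nat_lit 596010653),
  Rx.mk (nat_lit 426) (nat_lit 2) (nat_lit 5) (nat_lit 6) (nat_lit 7) (nat_lit 121) (nat_lit 44) r3_121 r8_44 (nat_lit 0) (nat_lit 0) (nat_lit 0) (nat_lit 0x815f04622) (nat_lit 516911112),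
  Rx.mk (nat_lit 434) (nat_lit 2) (nat_lit 6) (nat_lit 6) (nat_lit 7) (nat_lit 122) (nat_lit 46) r3_122 r8_46 (nat_lit 0) (nat_lit 0) (nat_lit 0) (nat_lit 0x7fe6eb434) (nat_lit 539872312)]
noncomputable def e50_48 : List Rx := [
  Rx.mk (nat_lit 426) (nat_lit 2) (nat_lit 5) (nat_lit 6) (nat_lit 7) (nat_lit 123) (nat_lit 14) r3_123 r9_14 (nat_lit 0) (nat_lit 0) (nat_lit 0) (nat_lit 0x7fce2024c) (nat_lit 541400812)]
noncomputable def e50_49 : List Rx := [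
  Rx.mk (nat_lit 302) (nat_lit 6) (nat_lit 5) (nat_lit 4) (nat_lit 3) (nat_lit 142) (nat_lit 19) r3_142 r9_19 (nat_lit 0) (nat_lit 0) (nat_lit 6950286) (nat_lit 0x6a58027fa) (nat_lit 894620048),
  Rx.mk (nat_lit 366) (nat_lit 6) (nat_lit 5) (nat_lit 5) (nat_lit 7) (nat_lit 143) (nat_lit 20) r3_143 r9_20 (nat_lit 0) (nat_lit 0) (nat_lit 0) (nat_lit 0x7ffede474) (nat_lit 538398162),
  Rx.mk (nat_lit 426) (nat_lit 2) (nat_lit 5) (nat_lit 6) (nat_lit 7) (nat_lit 141) (nat_lit 21) r3_141 r9_21 (nat_lit 0) (nat_lit 0) (nat_lit 0) (nat_lit 0x800056a40) (nat_lit 538300112),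
  Rx.mk (nat_lit 430) (nat_lit 6) (nat_lit 5) (nat_lit 6) (nat_lit 7) (nat_lit 144) (nat_lit 22) r3_144 r9_22 (nat_lit 0) (nat_lit 0) (nat_lit 0) (nat_lit 0x7fbe4884c) (nat_lit 542361212)]
noncomputable def e50_50 : List Rx := [
  Rx.mk (nat_lit 19) (nat_lit 3) (nat_lit 2) (nat_lit 0) (nat_lit 3) (nat_lit 28) (nat_lit 33) r3_28 r3_33 (nat_lit 0) (nat_lit 0) (nat_lit 365) (nat_lit 0x7fffd3514) (nat_lit 536882727),
  Rx.mk (nat_lit 147) (nat_lit 3) (nat_lit 2) (nat_lit 2) (nat_lit 7) (nat_lit 29) (nat_lit 36) r3_29 r3_36 (nat_lit 0) (nat_lit 0) (nat_lit 0) (nat_lit 0x661ba3c4a) (nat_lit 955980262),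
  Rx.mk (nat_lit 176) (nat_lit 0) (nat_lit 6) (nat_lit 2) (nat_lit 6) (nat_lit 23) (nat_lit 32) r3_23 r3_32 (nat_lit 1533) (nat_lit 0) (nat_lit 0) (nat_lit 0x7ffa7afd6) (nat_lit 537221595),
  Rx.mk (nat_lit 178) (nat_lit 2) (nat_lit 6) (nat_lit 2) (nat_lit 7) (nat_lit 24) (nat_lit 40) r3_24 r3_40 (nat_lit 0) (nat_lit 0) (nat_lit 0) (nat_lit 0x7eb8fa490) (nat_lit 558833762),
  Rx.mk (nat_lit 179) (nat_lit 3) (nat_lit 6) (nat_lit 2) (nat_lit 7) (nat_lit 30) (nat_lit 35) r3_30 r3_35 (nat_lit 0) (nat_lit 0) (nat_lit 0) (nat_lit 0x89e830358) (nat_lit 385847912),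
  Rx.mk (nat_lit 199) (nat_lit 7) (nat_lit 0) (nat_lit 3) (nat_lit 5) (nat_lit 37) (nat_lit 25) r3_37 r3_25 (nat_lit 0) (nat_lit 1533) (nat_lit 0) (nat_lit 0x7ffa7afd6) (nat_lit 537221595),
  Rx.mk (nat_lit 211) (nat_lit 3) (nat_lit 2) (nat_lit 3) (nat_lit 7) (nat_lit 31) (nat_lit 34) r3_31 r3_34 (nat_lit 0) (nat_lit 0) (nat_lit 0) (nat_lit 0x661ba3c4a) (nat_lit 955980262),
  Rx.mk (nat_lit 215) (nat_lit 7) (nat_lit 2) (nat_lit 3) (nat_lit 7) (nat_lit 38) (nat_lit 27) r3_38 r3_27 (nat_lit 0) (nat_lit 0) (nat_lit 0) (nat_lit 0x89e830358) (nat_lit 385847912),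
  Rx.mk (nat_lit 223) (nat_lit 7) (nat_lit 3) (nat_lit 3) (nat_lit 7) (nat_lit 39) (nat_lit 26) r3_39 r3_26 (nat_lit 0) (nat_lit 0) (nat_lit 0) (nat_lit 0x7eb8fa490) (nat_lit 558833762),
  Rx.mk (nat_lit 318) (nat_lit 6) (nat_lit 7) (nat_lit 4) (nat_lit 3) (nat_lit 33) (nat_lit 28) r3_33 r3_28 (nat_lit 0) (nat_lit 0) (nat_lit 365) (nat_lit 0x7fffd3514) (nat_lit 536882727),
  Rx.mk (nat_lit 418) (nat_lit 2) (nat_lit 4) (nat_lit 6) (nat_lit 5) (nat_lit 25) (nat_lit 37) r3_25 r3_37 (nat_lit 0) (nat_lit 1533) (nat_lit 0) (nat_lit 0x7ffa7afd6) (nat_lit 537221595),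
  Rx.mk (nat_lit 434) (nat_lit 2) (nat_lit 6) (nat_lit 6) (nat_lit 7) (nat_lit 26) (nat_lit 39) r3_26 r3_39 (nat_lit 0) (nat_lit 0) (nat_lit 0) (nat_lit 0x7eb8fa490) (nat_lit 558833762),
  Rx.mk (nat_lit 442) (nat_lit 2) (nat_lit 7) (nat_lit 6) (nat_lit 7) (nat_lit 27) (nat_lit 38) r3_27 r3_38 (nat_lit 0) (nat_lit 0) (nat_lit 0) (nat_lit 0x89e830358) (nat_lit 385847912),
  Rx.mk (nat_lit 446) (nat_lit 6) (nat_lit 7) (nat_lit 6) (nat_lit 7) (nat_lit 34) (nat_lit 31) r3_34 r3_31 (nat_lit 0) (nat_lit 0) (nat_lit 0) (nat_lit 0x661ba3c4a) (nat_lit 955980262),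
  Rx.mk (nat_lit 476) (nat_lit 4) (nat_lit 3) (nat_lit 7) (nat_lit 6) (nat_lit 32) (nat_lit 23) r3_32 r3_23 (nat_lit 1533) (nat_lit 0) (nat_lit 0) (nat_lit 0x7ffa7afd6) (nat_lit 537221595),
  Rx.mk (nat_lit 478) (nat_lit 6) (nat_lit 3) (nat_lit 7) (nat_lit 7) (nat_lit 35) (nat_lit 30) r3_35 r3_30 (nat_lit 0) (nat_lit 0) (nat_lit 0) (nat_lit 0x89e830358) (nat_lit 385847912),
  Rx.mk (nat_lit 479) (nat_lit 7) (nat_lit 3) (nat_lit 7) (nat_lit 7) (nat_lit 40) (nat_lit 24) r3_40 r3_24 (nat_lit 0) (nat_lit 0) (nat_lit 0) (nat_lit 0x7eb8fa490) (nat_lit 558833762),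
  Rx.mk (nat_lit 510) (nat_lit 6) (nat_lit 7) (nat_lit 7) (nat_lit 7) (nat_lit 36) (nat_lit 29) r3_36 r3_29 (nat_lit 0) (nat_lit 0) (nat_lit 0) (nat_lit 0x661ba3c4a) (nat_lit 955980262)]
noncomputable def e50_51 : List Rx := [
  Rx.mk (nat_lit 176) (nat_lit 0) (nat_lit 6) (nat_lit 2) (nat_lit 6) (nat_lit 41) (nat_lit 34) r3_41 r4_34 (nat_lit 929445) (nat_lit 0) (nat_lit 0) (nat_lit 0x7e1ef5642) (nat_lit 568442957),
  Rx.mk (nat_lit 178) (nat_lit 2) (nat_lit 6) (nat_lit 2) (nat_lit 7) (nat_lit 42) (nat_lit 39) r3_42 r4_39 (nat_lit 0) (nat_lit 0) (nat_lit 0) (nat_lit 0x802f141c0) (nat_lit 535365262),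
  Rx.mk (nat_lit 179) (nat_lit 3) (nat_lit 6) (nat_lit 2) (nat_lit 7) (nat_lit 46) (nat_lit 35) r3_46 r4_35 (nat_lit 0) (nat_lit 0) (nat_lit 0) (nat_lit 0x7fc8e9274) (nat_lit 540391512),
  Rx.mk (nat_lit 318) (nat_lit 6) (nat_lit 7) (nat_lit 4) (nat_lit 3) (nat_lit 47) (nat_lit 31) r3_47 r4_31 (nat_lit 0) (nat_lit 0) (nat_lit 24740) (nat_lit 0x7ff7bed42) (nat_lit 537418902),
  Rx.mk (nat_lit 418) (nat_lit 2) (nat_lit 4) (nat_lit 6) (nat_lit 5) (nat_lit 43) (nat_lit 36) r3_43 r4_36 (nat_lit 0) (nat_lit 631050) (nat_lit 0) (nat_lit 0x80795a612) (nat_lit 530585312),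
  Rx.mk (nat_lit 434) (nat_lit 2) (nat_lit 6) (nat_lit 6) (nat_lit 7) (nat_lit 44) (nat_lit 38) r3_44 r4_38 (nat_lit 0) (nat_lit 0) (nat_lit 0) (nat_lit 0x806259120) (nat_lit 532277862),
  Rx.mk (nat_lit 442) (nat_lit 2) (nat_lit 7) (nat_lit 6) (nat_lit 7) (nat_lit 45) (nat_lit 37) r3_45 r4_37 (nat_lit 0) (nat_lit 0) (nat_lit 0) (nat_lit 0x80712030c) (nat_lit 531200012),
  Rx.mk (nat_lit 446) (nat_lit 6) (nat_lit 7) (nat_lit 6) (nat_lit 7) (nat_lit 48) (nat_lit 33) r3_48 r4_33 (nat_lit 0) (nat_lit 0) (nat_lit 0) (nat_lit 0x8112e8e28) (nat_lit 521452962),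
  Rx.mk (nat_lit 510) (nat_lit 6) (nat_lit 7) (nat_lit 7) (nat_lit 7) (nat_lit 49) (nat_lit 32) r3_49 r4_32 (nat_lit 0) (nat_lit 0) (nat_lit 0) (nat_lit 0x7990b12cc) (nat_lit 641633562)]
noncomputable def e50_52 : List Rx := [
  Rx.mk (nat_lit 199) (nat_lit 7) (nat_lit 0) (nat_lit 3) (nat_lit 5) (nat_lit 57) (nat_lit 19) r3_57 r5_19 (nat_lit 0) (nat_lit 189369) (nat_lit 0) (nat_lit 0x726ece4ea) (nat_lit 756498431),
  Rx.mk (nat_lit 211) (nat_lit 3) (nat_lit 2) (nat_lit 3) (nat_lit 7) (nat_lit 51) (nat_lit 25) r3_51 r5_25 (nat_lit 0) (nat_lit 0) (nat_lit 0) (nat_lit 0x6ac4b35b6) (nat_lit 880256562),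
  Rx.mk (nat_lit 215) (nat_lit 7) (nat_lit 2) (nat_lit 3) (nat_lit 7) (nat_lit 58) (nat_lit 20) r3_58 r5_20 (nat_lit 0) (nat_lit 0) (nat_lit 0) (nat_lit 0x8463a3ca2) (nat_lit 470475612),
  Rx.mk (nat_lit 286) (nat_lit 6) (nat_lit 3) (nat_lit 4) (nat_lit 3) (nat_lit 53) (nat_lit 22) r3_53 r5_22 (nat_lit 0) (nat_lit 0) (nat_lit 101429) (nat_lit 0x75fc83cd8) (nat_lit 698920341),
  Rx.mk (nat_lit 318) (nat_lit 6) (nat_lit 7) (nat_lit 4) (nat_lit 3) (nat_lit 54) (nat_lit 21) r3_54 r5_21 (nat_lit 0) (nat_lit 0) (nat_lit 10455) (nat_lit 0x8008c36ba) (nat_lit 536361367),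
  Rx.mk (nat_lit 442) (nat_lit 2) (nat_lit 7) (nat_lit 6) (nat_lit 7) (nat_lit 50) (nat_lit 26) r3_50 r5_26 (nat_lit 0) (nat_lit 0) (nat_lit 0) (nat_lit 0x7f169299a) (nat_lit 552155012),
  Rx.mk (nat_lit 446) (nat_lit 6) (nat_lit 7) (nat_lit 6) (nat_lit 7) (nat_lit 55) (nat_lit 24) r3_55 r5_24 (nat_lit 0) (nat_lit 0) (nat_lit 0) (nat_lit 0x74ad72000) (nat_lit 720619462),
  Rx.mk (nat_lit 455) (nat_lit 7) (nat_lit 0) (nat_lit 7) (nat_lit 5) (nat_lit 59) (nat_lit 17) r3_59 r5_17 (nat_lit 0) (nat_lit 16744) (nat_lit 0) (nat_lit 0x750724bf2) (nat_lit 714320356),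
  Rx.mk (nat_lit 476) (nat_lit 4) (nat_lit 3) (nat_lit 7) (nat_lit 6) (nat_lit 52) (nat_lit 16) r3_52 r5_16 (nat_lit 221843) (nat_lit 0) (nat_lit 0) (nat_lit 0x79aa7fb2c) (nat_lit 639578955),
  Rx.mk (nat_lit 478) (nat_lit 6) (nat_lit 3) (nat_lit 7) (nat_lit 7) (nat_lit 56) (nat_lit 23) r3_56 r5_23 (nat_lit 0) (nat_lit 0) (nat_lit 0) (nat_lit 0x8fbafdd30) (nat_lit 297369762),
  Rx.mk (nat_lit 479) (nat_lit 7) (nat_lit 3) (nat_lit 7) (nat_lit 7) (nat_lit 60) (nat_lit 18) r3_60 r5_18 (nat_lit 0) (nat_lit 0) (nat_lit 0) (nat_lit 0x7a87b5e10) (nat_lit 626124662)]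
noncomputable def e50_53 : List Rx := [
  Rx.mk (nat_lit 19) (nat_lit 3) (nat_lit 2) (nat_lit 0) (nat_lit 3) (nat_lit 129) (nat_lit 31) r3_129 r4_31 (nat_lit 0) (nat_lit 0) (nat_lit 24740) (nat_lit 0x7ff7bed42) (nat_lit 537418902),
  Rx.mk (nat_lit 147) (nat_lit 3) (nat_lit 2) (nat_lit 2) (nat_lit 7) (nat_lit 130) (nat_lit 33) r3_130 r4_33 (nat_lit 0) (nat_lit 0) (nat_lit 0) (nat_lit 0x8112e8e28) (nat_lit 521452962),
  Rx.mk (nat_lit 176) (nat_lit 0) (nat_lit 6) (nat_lit 2) (nat_lit 6) (nat_lit 124) (nat_lit 36) r3_124 r4_36 (nat_lit 631050) (nat_lit 0) (nat_lit 0) (nat_lit 0x80795a612) (nat_lit 530585312),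
  Rx.mk (nat_lit 178) (nat_lit 2) (nat_lit 6) (nat_lit 2) (nat_lit 7) (nat_lit 125) (nat_lit 38) r3_125 r4_38 (nat_lit 0) (nat_lit 0) (nat_lit 0) (nat_lit 0x806259120) (nat_lit 532277862),
  Rx.mk (nat_lit 179) (nat_lit 3) (nat_lit 6) (nat_lit 2) (nat_lit 7) (nat_lit 131) (nat_lit 37) r3_131 r4_37 (nat_lit 0) (nat_lit 0) (nat_lit 0) (nat_lit 0x80712030c) (nat_lit 531200012),
  Rx.mk (nat_lit 211) (nat_lit 3) (nat_lit 2) (nat_lit 3) (nat_lit 7) (nat_lit 132) (nat_lit 32) r3_132 r4_32 (nat_lit 0) (nat_lit 0) (nat_lit 0) (nat_lit 0x7990b12cc) (nat_lit 641633562),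
  Rx.mk (nat_lit 418) (nat_lit 2) (nat_lit 4) (nat_lit 6) (nat_lit 5) (nat_lit 126) (nat_lit 34) r3_126 r4_34 (nat_lit 0) (nat_lit 929445) (nat_lit 0) (nat_lit 0x7e1ef5642) (nat_lit 568442957),
  Rx.mk (nat_lit 434) (nat_lit 2) (nat_lit 6) (nat_lit 6) (nat_lit 7) (nat_lit 127) (nat_lit 39) r3_127 r4_39 (nat_lit 0) (nat_lit 0) (nat_lit 0) (nat_lit 0x802f141c0) (nat_lit 535365262),
  Rx.mk (nat_lit 442) (nat_lit 2) (nat_lit 7) (nat_lit 6) (nat_lit 7) (nat_lit 128) (nat_lit 35) r3_128 r4_35 (nat_lit 0) (nat_lit 0) (nat_lit 0) (nat_lit 0x7fc8e9274) (nat_lit 540391512)]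
noncomputable def e50_54 : List Rx := [
  Rx.mk (nat_lit 176) (nat_lit 0) (nat_lit 6) (nat_lit 2) (nat_lit 6) (nat_lit 133) (nat_lit 17) r3_133 r10_17 (nat_lit 427823) (nat_lit 0) (nat_lit 0) (nat_lit 0x86254ad0a) (nat_lit 443762085),
  Rx.mk (nat_lit 178) (nat_lit 2) (nat_lit 6) (nat_lit 2) (nat_lit 7) (nat_lit 134) (nat_lit 22) r3_134 r10_22 (nat_lit 0) (nat_lit 0) (nat_lit 0) (nat_lit 0x809e38c5e) (nat_lit 528622162),
  Rx.mk (nat_lit 179) (nat_lit 3) (nat_lit 6) (nat_lit 2) (nat_lit 7) (nat_lit 138) (nat_lit 18) r3_138 r10_18 (nat_lit 0) (nat_lit 0) (nat_lit 0) (nat_lit 0x86cf556ec) (nat_lit 433675662),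
  Rx.mk (nat_lit 418) (nat_lit 2) (nat_lit 4) (nat_lit 6) (nat_lit 5) (nat_lit 135) (nat_lit 19) r3_135 r10_19 (nat_lit 0) (nat_lit 427823) (nat_lit 0) (nat_lit 0x86254ad0a) (nat_lit 443762085),
  Rx.mk (nat_lit 434) (nat_lit 2) (nat_lit 6) (nat_lit 6) (nat_lit 7) (nat_lit 136) (nat_lit 21) r3_136 r10_21 (nat_lit 0) (nat_lit 0) (nat_lit 0) (nat_lit 0x809e38c5e) (nat_lit 528622162),
  Rx.mk (nat_lit 442) (nat_lit 2) (nat_lit 7) (nat_lit 6) (nat_lit 7) (nat_lit 137) (nat_lit 20) r3_137 r10_20 (nat_lit 0) (nat_lit 0) (nat_lit 0) (nat_lit 0x86cf556ec) (nat_lit 433675662)]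
noncomputable def e50_55 : List Rx := [
  Rx.mk (nat_lit 211) (nat_lit 3) (nat_lit 2) (nat_lit 3) (nat_lit 7) (nat_lit 140) (nat_lit 6) r3_140 r11_6 (nat_lit 0) (nat_lit 0) (nat_lit 0) (nat_lit 0x884245afc) (nat_lit 411412412),
  Rx.mk (nat_lit 442) (nat_lit 2) (nat_lit 7) (nat_lit 6) (nat_lit 7) (nat_lit 139) (nat_lit 7) r3_139 r11_7 (nat_lit 0) (nat_lit 0) (nat_lit 0) (nat_lit 0x8f1cadf90) (nat_lit 306718562)]
noncomputable def e50_56 : List Rx := [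
  Rx.mk (nat_lit 19) (nat_lit 3) (nat_lit 2) (nat_lit 0) (nat_lit 3) (nat_lit 204) (nat_lit 21) r3_204 r5_21 (nat_lit 0) (nat_lit 0) (nat_lit 10455) (nat_lit 0x8008c36ba) (nat_lit 536361367),
  Rx.mk (nat_lit 23) (nat_lit 7) (nat_lit 2) (nat_lit 0) (nat_lit 3) (nat_lit 211) (nat_lit 22) r3_211 r5_22 (nat_lit 0) (nat_lit 0) (nat_lit 101429) (nat_lit 0x75fc83cd8) (nat_lit 698920341),
  Rx.mk (nat_lit 147) (nat_lit 3) (nat_lit 2) (nat_lit 2) (nat_lit 7) (nat_lit 205) (nat_lit 24) r3_205 r5_24 (nat_lit 0) (nat_lit 0) (nat_lit 0) (nat_lit 0x74ad72000) (nat_lit 720619462),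
  Rx.mk (nat_lit 179) (nat_lit 3) (nat_lit 6) (nat_lit 2) (nat_lit 7) (nat_lit 206) (nat_lit 26) r3_206 r5_26 (nat_lit 0) (nat_lit 0) (nat_lit 0) (nat_lit 0x7f169299a) (nat_lit 552155012),
  Rx.mk (nat_lit 199) (nat_lit 7) (nat_lit 0) (nat_lit 3) (nat_lit 5) (nat_lit 212) (nat_lit 16) r3_212 r5_16 (nat_lit 0) (nat_lit 221843) (nat_lit 0) (nat_lit 0x79aa7fb2c) (nat_lit 639578955),
  Rx.mk (nat_lit 215) (nat_lit 7) (nat_lit 2) (nat_lit 3) (nat_lit 7) (nat_lit 213) (nat_lit 23) r3_213 r5_23 (nat_lit 0) (nat_lit 0) (nat_lit 0) (nat_lit 0x8fbafdd30) (nat_lit 297369762),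
  Rx.mk (nat_lit 220) (nat_lit 4) (nat_lit 3) (nat_lit 3) (nat_lit 6) (nat_lit 207) (nat_lit 17) r3_207 r5_17 (nat_lit 16744) (nat_lit 0) (nat_lit 0) (nat_lit 0x750724bf2) (nat_lit 714320356),
  Rx.mk (nat_lit 223) (nat_lit 7) (nat_lit 3) (nat_lit 3) (nat_lit 7) (nat_lit 214) (nat_lit 18) r3_214 r5_18 (nat_lit 0) (nat_lit 0) (nat_lit 0) (nat_lit 0x7a87b5e10) (nat_lit 626124662),
  Rx.mk (nat_lit 476) (nat_lit 4) (nat_lit 3) (nat_lit 7) (nat_lit 6) (nat_lit 208) (nat_lit 19) r3_208 r5_19 (nat_lit 189369) (nat_lit 0) (nat_lit 0) (nat_lit 0x726ece4ea) (nat_lit 756498431),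
  Rx.mk (nat_lit 478) (nat_lit 6) (nat_lit 3) (nat_lit 7) (nat_lit 7) (nat_lit 209) (nat_lit 20) r3_209 r5_20 (nat_lit 0) (nat_lit 0) (nat_lit 0) (nat_lit 0x8463a3ca2) (nat_lit 470475612),
  Rx.mk (nat_lit 510) (nat_lit 6) (nat_lit 7) (nat_lit 7) (nat_lit 7) (nat_lit 210) (nat_lit 25) r3_210 r5_25 (nat_lit 0) (nat_lit 0) (nat_lit 0) (nat_lit 0x6ac4b35b6) (nat_lit 880256562)]
noncomputable def e50_57 : List Rx := [
  Rx.mk (nat_lit 179) (nat_lit 3) (nat_lit 6) (nat_lit 2) (nat_lit 7) (nat_lit 215) (nat_lit 7) r3_215 r11_7 (nat_lit 0) (nat_lit 0) (nat_lit 0) (nat_lit 0x8f1cadf90) (nat_lit 306718562),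
  Rx.mk (nat_lit 510) (nat_lit 6) (nat_lit 7) (nat_lit 7) (nat_lit 7) (nat_lit 216) (nat_lit 6) r3_216 r11_6 (nat_lit 0) (nat_lit 0) (nat_lit 0) (nat_lit 0x884245afc) (nat_lit 411412412)]
noncomputable def e50 : List (List Rx) := [e50_0, e50_1, e50_2, e50_3, e50_4, e50_5, e50_6, e50_7, e50_8, e50_9, e50_10, e50_11, e50_12, e50_13, e50_14, e50_15, e50_16, e50_17, e50_18, e50_19, e50_20, e50_21, e50_22, e50_23, e50_24, e50_25, e50_26, e50_27, e50_28, e50_29, e50_30, e50_31, e50_32, e50_33, e50_34, e50_35, e50_36, e50_37, e50_38, e50_39, e50_40, e50_41, e50_42, e50_43, e50_44, e50_45, e50_46, e50_47, e50_48, e50_49, e50_50, e50_51, e50_52, e50_53, e50_54, e50_55, e50_56, e50_57]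
noncomputable def e51_0 : List Rx := [
  Rx.mk (nat_lit 5) (nat_lit 5) (nat_lit 0) (nat_lit 0) (nat_lit 1) (nat_lit 256) (nat_lit 309) r4_256 r0_309 (nat_lit 0) (nat_lit 33909295) (nat_lit 19670024) (nat_lit 0x680c7e7d6) (nat_lit 978281281),
  Rx.mk (nat_lit 13) (nat_lit 5) (nat_lit 1) (nat_lit 0) (nat_lit 3) (nat_lit 257) (nat_lit 311) r4_257 r0_311 (nat_lit 0) (nat_lit 0) (nat_lit 27415859) (nat_lit 0x8000d8c2a) (nat_lit 565665771),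
  Rx.mk (nat_lit 21) (nat_lit 5) (nat_lit 2) (nat_lit 0) (nat_lit 3) (nat_lit 258) (nat_lit 313) r4_258 r0_313 (nat_lit 0) (nat_lit 0) (nat_lit 29629750) (nat_lit 0x7db4131bc) (nat_lit 604586362),
  Rx.mk (nat_lit 68) (nat_lit 4) (nat_lit 0) (nat_lit 1) (nat_lit 4) (nat_lit 253) (nat_lit 306) r4_253 r0_306 (nat_lit 44700456) (nat_lit 9185379) (nat_lit 0) (nat_lit 0x69c6a03b6) (nat_lit 950753297),
  Rx.mk (nat_lit 69) (nat_lit 5) (nat_lit 0) (nat_lit 1) (nat_lit 5) (nat_lit 259) (nat_lit 310) r4_259 r0_310 (nat_lit 0) (nat_lit 25313016) (nat_lit 0) (nat_lit 0x7f09601dc) (nat_lit 578840728),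
  Rx.mk (nat_lit 76) (nat_lit 4) (nat_lit 1) (nat_lit 1) (nat_lit 6) (nat_lit 254) (nat_lit 307) r4_254 r0_307 (nat_lit 190947877) (nat_lit 0) (nat_lit 0) (nat_lit 0x781662364) (nat_lit 856023289),
  Rx.mk (nat_lit 77) (nat_lit 5) (nat_lit 1) (nat_lit 1) (nat_lit 7) (nat_lit 260) (nat_lit 312) r4_260 r0_312 (nat_lit 0) (nat_lit 0) (nat_lit 0) (nat_lit 0x80abe37c8) (nat_lit 527783112),
  Rx.mk (nat_lit 84) (nat_lit 4) (nat_lit 2) (nat_lit 1) (nat_lit 6) (nat_lit 255) (nat_lit 308) r4_255 r0_308 (nat_lit 34510458) (nat_lit 0) (nat_lit 0) (nat_lit 0x7fea14354) (nat_lit 574129370),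
  Rx.mk (nat_lit 85) (nat_lit 5) (nat_lit 2) (nat_lit 1) (nat_lit 7) (nat_lit 261) (nat_lit 314) r4_261 r0_314 (nat_lit 0) (nat_lit 0) (nat_lit 0) (nat_lit 0x8024ca73c) (nat_lit 536043112)]
noncomputable def e51_1 : List Rx := [
  Rx.mk (nat_lit 68) (nat_lit 4) (nat_lit 0) (nat_lit 1) (nat_lit 4) (nat_lit 293) (nat_lit 297) r4_293 r1_297 (nat_lit 79659509) (nat_lit 16666109) (nat_lit 0) (nat_lit 0x6e82c4200) (nat_lit 916697780),
  Rx.mk (nat_lit 69) (nat_lit 5) (nat_lit 0) (nat_lit 1) (nat_lit 5) (nat_lit 296) (nat_lit 300) r4_296 r1_300 (nat_lit 0) (nat_lit 21556671) (nat_lit 0) (nat_lit 0x801c58cca) (nat_lit 558112583),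
  Rx.mk (nat_lit 76) (nat_lit 4) (nat_lit 1) (nat_lit 1) (nat_lit 6) (nat_lit 294) (nat_lit 298) r4_294 r1_298 (nat_lit 132162371) (nat_lit 0) (nat_lit 0) (nat_lit 0x7a51f7832) (nat_lit 761496733),
  Rx.mk (nat_lit 77) (nat_lit 5) (nat_lit 1) (nat_lit 1) (nat_lit 7) (nat_lit 297) (nat_lit 301) r4_297 r1_301 (nat_lit 0) (nat_lit 0) (nat_lit 0) (nat_lit 0x80b000be4) (nat_lit 527525712),
  Rx.mk (nat_lit 84) (nat_lit 4) (nat_lit 2) (nat_lit 1) (nat_lit 6) (nat_lit 295) (nat_lit 299) r4_295 r1_299 (nat_lit 29428945) (nat_lit 0) (nat_lit 0) (nat_lit 0x800d7d0e8) (nat_lit 566895407),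
  Rx.mk (nat_lit 85) (nat_lit 5) (nat_lit 2) (nat_lit 1) (nat_lit 7) (nat_lit 298) (nat_lit 302) r4_298 r1_302 (nat_lit 0) (nat_lit 0) (nat_lit 0) (nat_lit 0x80691f28e) (nat_lit 531863312)]
noncomputable def e51_2 : List Rx := [
  Rx.mk (nat_lit 76) (nat_lit 4) (nat_lit 1) (nat_lit 1) (nat_lit 6) (nat_lit 299) (nat_lit 334) r4_299 r2_334 (nat_lit 42912160) (nat_lit 0) (nat_lit 0) (nat_lit 0x7cc9d2418) (nat_lit 632560472),
  Rx.mk (nat_lit 77) (nat_lit 5) (nat_lit 1) (nat_lit 1) (nat_lit 7) (nat_lit 301) (nat_lit 336) r4_301 r2_336 (nat_lit 0) (nat_lit 0) (nat_lit 0) (nat_lit 0x8017985b4) (nat_lit 536870912),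
  Rx.mk (nat_lit 332) (nat_lit 4) (nat_lit 1) (nat_lit 5) (nat_lit 6) (nat_lit 300) (nat_lit 335) r4_300 r2_335 (nat_lit 24741287) (nat_lit 0) (nat_lit 0) (nat_lit 0x7fcaef88e) (nat_lit 566317649),
  Rx.mk (nat_lit 333) (nat_lit 5) (nat_lit 1) (nat_lit 5) (nat_lit 7) (nat_lit 302) (nat_lit 337) r4_302 r2_337 (nat_lit 0) (nat_lit 0) (nat_lit 0) (nat_lit 0x8017985b4) (nat_lit 536870912),
  Rx.mk (nat_lit 334) (nat_lit 6) (nat_lit 1) (nat_lit 5) (nat_lit 7) (nat_lit 303) (nat_lit 338) r4_303 r2_338 (nat_lit 0) (nat_lit 0) (nat_lit 0) (nat_lit 0x8017985b4) (nat_lit 536870912)]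
noncomputable def e51_3 : List Rx := [
  Rx.mk (nat_lit 4) (nat_lit 4) (nat_lit 0) (nat_lit 0) (nat_lit 0) (nat_lit 315) (nat_lit 306) r4_315 r3_306 (nat_lit 1732) (nat_lit 1469) (nat_lit 2229) (nat_lit 0x68e4b7288) (nat_lit 910528842),
  Rx.mk (nat_lit 5) (nat_lit 5) (nat_lit 0) (nat_lit 0) (nat_lit 1) (nat_lit 321) (nat_lit 312) r4_321 r3_312 (nat_lit 0) (nat_lit 197867) (nat_lit 291971) (nat_lit 0x7cea5f820) (nat_lit 587285400),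
  Rx.mk (nat_lit 12) (nat_lit 4) (nat_lit 1) (nat_lit 0) (nat_lit 2) (nat_lit 316) (nat_lit 308) r4_316 r3_308 (nat_lit 52766084) (nat_lit 0) (nat_lit 11711) (nat_lit 0x7e39636b4) (nat_lit 618367307),
  Rx.mk (nat_lit 13) (nat_lit 5) (nat_lit 1) (nat_lit 0) (nat_lit 3) (nat_lit 322) (nat_lit 314) r4_322 r3_314 (nat_lit 0) (nat_lit 0) (nat_lit 6083194) (nat_lit 0x8288ac032) (nat_lit 504840506),
  Rx.mk (nat_lit 20) (nat_lit 4) (nat_lit 2) (nat_lit 0) (nat_lit 2) (nat_lit 317) (nat_lit 310) r4_317 r3_310 (nat_lit 18325) (nat_lit 0) (nat_lit 79972519) (nat_lit 0x7bd4579ca) (nat_lit 684307106),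
  Rx.mk (nat_lit 21) (nat_lit 5) (nat_lit 2) (nat_lit 0) (nat_lit 3) (nat_lit 323) (nat_lit 316) r4_323 r3_316 (nat_lit 0) (nat_lit 0) (nat_lit 57785397) (nat_lit 0x829aa2052) (nat_lit 555266559),
  Rx.mk (nat_lit 196) (nat_lit 4) (nat_lit 0) (nat_lit 3) (nat_lit 4) (nat_lit 318) (nat_lit 307) r4_318 r3_307 (nat_lit 654027) (nat_lit 531156) (nat_lit 0) (nat_lit 0x7dee0ba40) (nat_lit 571676845),
  Rx.mk (nat_lit 197) (nat_lit 5) (nat_lit 0) (nat_lit 3) (nat_lit 5) (nat_lit 324) (nat_lit 313) r4_324 r3_313 (nat_lit 0) (nat_lit 1704686) (nat_lit 0) (nat_lit 0x92d5beefa) (nat_lit 251699898),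
  Rx.mk (nat_lit 204) (nat_lit 4) (nat_lit 1) (nat_lit 3) (nat_lit 6) (nat_lit 319) (nat_lit 309) r4_319 r3_309 (nat_lit 8572817) (nat_lit 0) (nat_lit 0) (nat_lit 0x825b4bc3c) (nat_lit 510304629),
  Rx.mk (nat_lit 205) (nat_lit 5) (nat_lit 1) (nat_lit 3) (nat_lit 7) (nat_lit 325) (nat_lit 315) r4_325 r3_315 (nat_lit 0) (nat_lit 0) (nat_lit 0) (nat_lit 0x886830f5a) (nat_lit 409301012),
  Rx.mk (nat_lit 212) (nat_lit 4) (nat_lit 2) (nat_lit 3) (nat_lit 6) (nat_lit 320) (nat_lit 311) r4_320 r3_311 (nat_lit 8997628) (nat_lit 0) (nat_lit 0) (nat_lit 0x812b84d60) (nat_lit 529007340),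
  Rx.mk (nat_lit 213) (nat_lit 5) (nat_lit 2) (nat_lit 3) (nat_lit 7) (nat_lit 326) (nat_lit 317) r4_326 r3_317 (nat_lit 0) (nat_lit 0) (nat_lit 0) (nat_lit 0x84db470d8) (nat_lit 463510162)]
noncomputable def e51_4 : List Rx := [
  Rx.mk (nat_lit 4) (nat_lit 4) (nat_lit 0) (nat_lit 0) (nat_lit 0) (nat_lit 327) (nat_lit 327) r4_327 r4_327 (nat_lit 21773644) (nat_lit 6283487) (nat_lit 6283487) (nat_lit 0x61999ca2a) (nat_lit 1063393080),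
  Rx.mk (nat_lit 5) (nat_lit 5) (nat_lit 0) (nat_lit 0) (nat_lit 1) (nat_lit 335) (nat_lit 335) r4_335 r4_335 (nat_lit 0) (nat_lit 90649037) (nat_lit 90649037) (nat_lit 0x7d5b0546c) (nat_lit 761817136),
  Rx.mk (nat_lit 12) (nat_lit 4) (nat_lit 1) (nat_lit 0) (nat_lit 2) (nat_lit 328) (nat_lit 330) r4_328 r4_330 (nat_lit 48279250) (nat_lit 0) (nat_lit 11437457) (nat_lit 0x777352bce) (nat_lit 735513319),
  Rx.mk (nat_lit 13) (nat_lit 5) (nat_lit 1) (nat_lit 0) (nat_lit 3) (nat_lit 336) (nat_lit 338) r4_336 r4_338 (nat_lit 0) (nat_lit 0) (nat_lit 24741287) (nat_lit 0x8017985b4) (nat_lit 561612199),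
  Rx.mk (nat_lit 20) (nat_lit 4) (nat_lit 2) (nat_lit 0) (nat_lit 2) (nat_lit 329) (nat_lit 333) r4_329 r4_333 (nat_lit 32031949) (nat_lit 0) (nat_lit 24376439) (nat_lit 0x794b04102) (nat_lit 702517800),
  Rx.mk (nat_lit 21) (nat_lit 5) (nat_lit 2) (nat_lit 0) (nat_lit 3) (nat_lit 337) (nat_lit 341) r4_337 r4_341 (nat_lit 0) (nat_lit 0) (nat_lit 28361871) (nat_lit 0x7f9b8ef18) (nat_lit 572839333),
  Rx.mk (nat_lit 68) (nat_lit 4) (nat_lit 0) (nat_lit 1) (nat_lit 4) (nat_lit 330) (nat_lit 328) r4_330 r4_328 (nat_lit 48279250) (nat_lit 11437457) (nat_lit 0) (nat_lit 0x777352bce) (nat_lit 735513319),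
  Rx.mk (nat_lit 69) (nat_lit 5) (nat_lit 0) (nat_lit 1) (nat_lit 5) (nat_lit 338) (nat_lit 336) r4_338 r4_336 (nat_lit 0) (nat_lit 24741287) (nat_lit 0) (nat_lit 0x8017985b4) (nat_lit 561612199),
  Rx.mk (nat_lit 76) (nat_lit 4) (nat_lit 1) (nat_lit 1) (nat_lit 6) (nat_lit 331) (nat_lit 331) r4_331 r4_331 (nat_lit 25419834) (nat_lit 0) (nat_lit 0) (nat_lit 0x7ffc8b384) (nat_lit 563917346),
  Rx.mk (nat_lit 77) (nat_lit 5) (nat_lit 1) (nat_lit 1) (nat_lit 7) (nat_lit 339) (nat_lit 339) r4_339 r4_339 (nat_lit 0) (nat_lit 0) (nat_lit 0) (nat_lit 0x8017985b4) (nat_lit 536870912),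
  Rx.mk (nat_lit 84) (nat_lit 4) (nat_lit 2) (nat_lit 1) (nat_lit 6) (nat_lit 332) (nat_lit 334) r4_332 r4_334 (nat_lit 24741287) (nat_lit 0) (nat_lit 0) (nat_lit 0x8053c497a) (nat_lit 557914449),
  Rx.mk (nat_lit 85) (nat_lit 5) (nat_lit 2) (nat_lit 1) (nat_lit 7) (nat_lit 340) (nat_lit 342) r4_340 r4_342 (nat_lit 0) (nat_lit 0) (nat_lit 0) (nat_lit 0x8017985b4) (nat_lit 536870912),
  Rx.mk (nat_lit 196) (nat_lit 4) (nat_lit 0) (nat_lit 3) (nat_lit 4) (nat_lit 333) (nat_lit 329) r4_333 r4_329 (nat_lit 32031949) (nat_lit 24376439) (nat_lit 0) (nat_lit 0x794b04102) (nat_lit 702517800),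
  Rx.mk (nat_lit 197) (nat_lit 5) (nat_lit 0) (nat_lit 3) (nat_lit 5) (nat_lit 341) (nat_lit 337) r4_341 r4_337 (nat_lit 0) (nat_lit 28361871) (nat_lit 0) (nat_lit 0x7f9b8ef18) (nat_lit 572839333),
  Rx.mk (nat_lit 204) (nat_lit 4) (nat_lit 1) (nat_lit 3) (nat_lit 6) (nat_lit 334) (nat_lit 332) r4_334 r4_332 (nat_lit 24741287) (nat_lit 0) (nat_lit 0) (nat_lit 0x8053c497a) (nat_lit 557914449),
  Rx.mk (nat_lit 205) (nat_lit 5) (nat_lit 1) (nat_lit 3) (nat_lit 7) (nat_lit 342) (nat_lit 340) r4_342 r4_340 (nat_lit 0) (nat_lit 0) (nat_lit 0) (nat_lit 0x8017985b4) (nat_lit 536870912)]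
noncomputable def e51_5 : List Rx := [
  Rx.mk (nat_lit 196) (nat_lit 4) (nat_lit 0) (nat_lit 3) (nat_lit 4) (nat_lit 343) (nat_lit 297) r4_343 r5_297 (nat_lit 8412019) (nat_lit 4914536) (nat_lit 0) (nat_lit 0x7692903ac) (nat_lit 703204217),
  Rx.mk (nat_lit 197) (nat_lit 5) (nat_lit 0) (nat_lit 3) (nat_lit 5) (nat_lit 346) (nat_lit 300) r4_346 r5_300 (nat_lit 0) (nat_lit 2837782) (nat_lit 0) (nat_lit 0x88d4b3178) (nat_lit 405532494),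
  Rx.mk (nat_lit 204) (nat_lit 4) (nat_lit 1) (nat_lit 3) (nat_lit 6) (nat_lit 344) (nat_lit 298) r4_344 r5_298 (nat_lit 16948508) (nat_lit 0) (nat_lit 0) (nat_lit 0x809c7b0d8) (nat_lit 545627870),
  Rx.mk (nat_lit 205) (nat_lit 5) (nat_lit 1) (nat_lit 3) (nat_lit 7) (nat_lit 347) (nat_lit 301) r4_347 r5_301 (nat_lit 0) (nat_lit 0) (nat_lit 0) (nat_lit 0x8942acc88) (nat_lit 396280012),
  Rx.mk (nat_lit 212) (nat_lit 4) (nat_lit 2) (nat_lit 3) (nat_lit 6) (nat_lit 345) (nat_lit 299) r4_345 r5_299 (nat_lit 16388111) (nat_lit 0) (nat_lit 0) (nat_lit 0x805f52918) (nat_lit 548834573),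
  Rx.mk (nat_lit 213) (nat_lit 5) (nat_lit 2) (nat_lit 3) (nat_lit 7) (nat_lit 348) (nat_lit 302) r4_348 r5_302 (nat_lit 0) (nat_lit 0) (nat_lit 0) (nat_lit 0x816422d98) (nat_lit 516613662)]
noncomputable def e51_6 : List Rx := [
  Rx.mk (nat_lit 270) (nat_lit 6) (nat_lit 1) (nat_lit 4) (nat_lit 3) (nat_lit 66) (nat_lit 323) r4_66 r3_323 (nat_lit 0) (nat_lit 0) (nat_lit 162706) (nat_lit 0x7fec4a02e) (nat_lit 538305068),
  Rx.mk (nat_lit 460) (nat_lit 4) (nat_lit 1) (nat_lit 7) (nat_lit 6) (nat_lit 65) (nat_lit 322) r4_65 r3_322 (nat_lit 20881) (nat_lit 0) (nat_lit 0) (nat_lit 0x7ff798390) (nat_lit 537424343),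
  Rx.mk (nat_lit 462) (nat_lit 6) (nat_lit 1) (nat_lit 7) (nat_lit 7) (nat_lit 67) (nat_lit 324) r4_67 r3_324 (nat_lit 0) (nat_lit 0) (nat_lit 0) (nat_lit 0x7ffafb73a) (nat_lit 537214012)]
noncomputable def e51_7 : List Rx := [
  Rx.mk (nat_lit 268) (nat_lit 4) (nat_lit 1) (nat_lit 4) (nat_lit 2) (nat_lit 155) (nat_lit 318) r4_155 r0_318 (nat_lit 125045575) (nat_lit 0) (nat_lit 2195696) (nat_lit 0x6ae14ea2c) (nat_lit 1005937833),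
  Rx.mk (nat_lit 270) (nat_lit 6) (nat_lit 1) (nat_lit 4) (nat_lit 3) (nat_lit 157) (nat_lit 320) r4_157 r0_320 (nat_lit 0) (nat_lit 0) (nat_lit 9212328) (nat_lit 0x785000486) (nat_lit 671079090),
  Rx.mk (nat_lit 332) (nat_lit 4) (nat_lit 1) (nat_lit 5) (nat_lit 6) (nat_lit 156) (nat_lit 319) r4_156 r0_319 (nat_lit 25377028) (nat_lit 0) (nat_lit 0) (nat_lit 0x7f22d5c02) (nat_lit 577258190),
  Rx.mk (nat_lit 334) (nat_lit 6) (nat_lit 1) (nat_lit 5) (nat_lit 7) (nat_lit 158) (nat_lit 321) r4_158 r0_321 (nat_lit 0) (nat_lit 0) (nat_lit 0) (nat_lit 0x80b12ecdc) (nat_lit 527417312)]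
noncomputable def e51_8 : List Rx := [
  Rx.mk (nat_lit 332) (nat_lit 4) (nat_lit 1) (nat_lit 5) (nat_lit 6) (nat_lit 159) (nat_lit 305) r4_159 r1_305 (nat_lit 25741495) (nat_lit 0) (nat_lit 0) (nat_lit 0x7f774491e) (nat_lit 572424907),
  Rx.mk (nat_lit 334) (nat_lit 6) (nat_lit 1) (nat_lit 5) (nat_lit 7) (nat_lit 160) (nat_lit 306) r4_160 r1_306 (nat_lit 0) (nat_lit 0) (nat_lit 0) (nat_lit 0x80964275c) (nat_lit 529102962)]
noncomputable def e51_9 : List Rx := [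
  Rx.mk (nat_lit 268) (nat_lit 4) (nat_lit 1) (nat_lit 4) (nat_lit 2) (nat_lit 161) (nat_lit 349) r4_161 r4_349 (nat_lit 15888243) (nat_lit 0) (nat_lit 8380959) (nat_lit 0x712c99c60) (nat_lit 801452014),
  Rx.mk (nat_lit 270) (nat_lit 6) (nat_lit 1) (nat_lit 4) (nat_lit 3) (nat_lit 164) (nat_lit 352) r4_164 r4_352 (nat_lit 0) (nat_lit 0) (nat_lit 12559442) (nat_lit 0x7f3685d1a) (nat_lit 563145404),
  Rx.mk (nat_lit 332) (nat_lit 4) (nat_lit 1) (nat_lit 5) (nat_lit 6) (nat_lit 162) (nat_lit 350) r4_162 r4_350 (nat_lit 22312841) (nat_lit 0) (nat_lit 0) (nat_lit 0x806176d2a) (nat_lit 554648803),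
  Rx.mk (nat_lit 334) (nat_lit 6) (nat_lit 1) (nat_lit 5) (nat_lit 7) (nat_lit 165) (nat_lit 353) r4_165 r4_353 (nat_lit 0) (nat_lit 0) (nat_lit 0) (nat_lit 0x80d3762ea) (nat_lit 525382062),
  Rx.mk (nat_lit 460) (nat_lit 4) (nat_lit 1) (nat_lit 7) (nat_lit 6) (nat_lit 163) (nat_lit 351) r4_163 r4_351 (nat_lit 68646309) (nat_lit 0) (nat_lit 0) (nat_lit 0x7fa8798a4) (nat_lit 612142821),
  Rx.mk (nat_lit 462) (nat_lit 6) (nat_lit 1) (nat_lit 7) (nat_lit 7) (nat_lit 166) (nat_lit 354) r4_166 r4_354 (nat_lit 0) (nat_lit 0) (nat_lit 0) (nat_lit 0x808605e8e) (nat_lit 530063762)]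
noncomputable def e51_10 : List Rx := [
  Rx.mk (nat_lit 196) (nat_lit 4) (nat_lit 0) (nat_lit 3) (nat_lit 4) (nat_lit 217) (nat_lit 326) r4_217 r6_326 (nat_lit 164206) (nat_lit 129197) (nat_lit 0) (nat_lit 0x795e5323a) (nat_lit 644442165),
  Rx.mk (nat_lit 204) (nat_lit 4) (nat_lit 1) (nat_lit 3) (nat_lit 6) (nat_lit 218) (nat_lit 328) r4_218 r6_328 (nat_lit 12015582) (nat_lit 0) (nat_lit 0) (nat_lit 0x8043b9b16) (nat_lit 546056094),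
  Rx.mk (nat_lit 212) (nat_lit 4) (nat_lit 2) (nat_lit 3) (nat_lit 6) (nat_lit 219) (nat_lit 330) r4_219 r6_330 (nat_lit 14660822) (nat_lit 0) (nat_lit 0) (nat_lit 0x80a2e9ac8) (nat_lit 542985584),
  Rx.mk (nat_lit 452) (nat_lit 4) (nat_lit 0) (nat_lit 7) (nat_lit 4) (nat_lit 220) (nat_lit 327) r4_220 r6_327 (nat_lit 4357312) (nat_lit 3315579) (nat_lit 0) (nat_lit 0x66141debc) (nat_lit 964156353),
  Rx.mk (nat_lit 454) (nat_lit 6) (nat_lit 0) (nat_lit 7) (nat_lit 5) (nat_lit 222) (nat_lit 331) r4_222 r6_331 (nat_lit 0) (nat_lit 79150) (nat_lit 0) (nat_lit 0x53f546c4e) (nat_lit 1249167362),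
  Rx.mk (nat_lit 460) (nat_lit 4) (nat_lit 1) (nat_lit 7) (nat_lit 6) (nat_lit 221) (nat_lit 329) r4_221 r6_329 (nat_lit 9659627) (nat_lit 0) (nat_lit 0) (nat_lit 0x7fc83bdd6) (nat_lit 551234539),
  Rx.mk (nat_lit 462) (nat_lit 6) (nat_lit 1) (nat_lit 7) (nat_lit 7) (nat_lit 223) (nat_lit 332) r4_223 r6_332 (nat_lit 0) (nat_lit 0) (nat_lit 0) (nat_lit 0x801c163de) (nat_lit 536140862)]
noncomputable def e51_11 : List Rx := [
  Rx.mk (nat_lit 460) (nat_lit 4) (nat_lit 1) (nat_lit 7) (nat_lit 6) (nat_lit 224) (nat_lit 305) r4_224 r5_305 (nat_lit 161090066) (nat_lit 0) (nat_lit 0) (nat_lit 0x7fc75d3ec) (nat_lit 701587228),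
  Rx.mk (nat_lit 462) (nat_lit 6) (nat_lit 1) (nat_lit 7) (nat_lit 7) (nat_lit 225) (nat_lit 306) r4_225 r5_306 (nat_lit 0) (nat_lit 0) (nat_lit 0) (nat_lit 0x743a265ec) (nat_lit 727415662)]
noncomputable def e51_12 : List Rx := [
  Rx.mk (nat_lit 5) (nat_lit 5) (nat_lit 0) (nat_lit 0) (nat_lit 1) (nat_lit 262) (nat_lit 174) r4_262 r0_174 (nat_lit 0) (nat_lit 1751344) (nat_lit 200714257) (nat_lit 0x5c0ff7e00) (nat_lit 1320763563),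
  Rx.mk (nat_lit 13) (nat_lit 5) (nat_lit 1) (nat_lit 0) (nat_lit 3) (nat_lit 263) (nat_lit 175) r4_263 r0_175 (nat_lit 0) (nat_lit 0) (nat_lit 51975942) (nat_lit 0x79cafc27e) (nat_lit 689883204),
  Rx.mk (nat_lit 21) (nat_lit 5) (nat_lit 2) (nat_lit 0) (nat_lit 3) (nat_lit 264) (nat_lit 176) r4_264 r0_176 (nat_lit 0) (nat_lit 0) (nat_lit 441859640) (nat_lit 0x75873a166) (nat_lit 1148413852)]
noncomputable def e51_13 : List Rx := [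
  Rx.mk (nat_lit 5) (nat_lit 5) (nat_lit 0) (nat_lit 0) (nat_lit 1) (nat_lit 265) (nat_lit 416) r4_265 r7_416 (nat_lit 0) (nat_lit 51960859) (nat_lit 26363677) (nat_lit 0x6eea423dc) (nat_lit 892140698),
  Rx.mk (nat_lit 13) (nat_lit 5) (nat_lit 1) (nat_lit 0) (nat_lit 3) (nat_lit 266) (nat_lit 418) r4_266 r7_418 (nat_lit 0) (nat_lit 0) (nat_lit 24741287) (nat_lit 0x8017985b4) (nat_lit 561612199),
  Rx.mk (nat_lit 21) (nat_lit 5) (nat_lit 2) (nat_lit 0) (nat_lit 3) (nat_lit 267) (nat_lit 420) r4_267 r7_420 (nat_lit 0) (nat_lit 0) (nat_lit 28981807) (nat_lit 0x7fc4d7cda) (nat_lit 570932769),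
  Rx.mk (nat_lit 69) (nat_lit 5) (nat_lit 0) (nat_lit 1) (nat_lit 5) (nat_lit 268) (nat_lit 417) r4_268 r7_417 (nat_lit 0) (nat_lit 24741287) (nat_lit 0) (nat_lit 0x8017985b4) (nat_lit 561612199),
  Rx.mk (nat_lit 77) (nat_lit 5) (nat_lit 1) (nat_lit 1) (nat_lit 7) (nat_lit 269) (nat_lit 419) r4_269 r7_419 (nat_lit 0) (nat_lit 0) (nat_lit 0) (nat_lit 0x8017985b4) (nat_lit 536870912),
  Rx.mk (nat_lit 85) (nat_lit 5) (nat_lit 2) (nat_lit 1) (nat_lit 7) (nat_lit 270) (nat_lit 421) r4_270 r7_421 (nat_lit 0) (nat_lit 0) (nat_lit 0) (nat_lit 0x8017985b4) (nat_lit 536870912)]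
noncomputable def e51_14 : List Rx := [
  Rx.mk (nat_lit 5) (nat_lit 5) (nat_lit 0) (nat_lit 0) (nat_lit 1) (nat_lit 281) (nat_lit 187) r4_281 r1_187 (nat_lit 0) (nat_lit 12745069) (nat_lit 131619701) (nat_lit 0x669364acc) (nat_lit 1092912382),
  Rx.mk (nat_lit 13) (nat_lit 5) (nat_lit 1) (nat_lit 0) (nat_lit 3) (nat_lit 282) (nat_lit 188) r4_282 r1_188 (nat_lit 0) (nat_lit 0) (nat_lit 25655830) (nat_lit 0x7fff0d792) (nat_lit 563934392),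
  Rx.mk (nat_lit 17) (nat_lit 1) (nat_lit 2) (nat_lit 0) (nat_lit 3) (nat_lit 279) (nat_lit 190) r4_279 r1_190 (nat_lit 0) (nat_lit 0) (nat_lit 124425147) (nat_lit 0x7ecc4e244) (nat_lit 681601709),
  Rx.mk (nat_lit 21) (nat_lit 5) (nat_lit 2) (nat_lit 0) (nat_lit 3) (nat_lit 283) (nat_lit 189) r4_283 r1_189 (nat_lit 0) (nat_lit 0) (nat_lit 277566866) (nat_lit 0x7d3bb22a4) (nat_lit 859858978),
  Rx.mk (nat_lit 145) (nat_lit 1) (nat_lit 2) (nat_lit 2) (nat_lit 7) (nat_lit 280) (nat_lit 191) r4_280 r1_191 (nat_lit 0) (nat_lit 0) (nat_lit 0) (nat_lit 0x80304a1b6) (nat_lit 535245512)]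
noncomputable def e51_15 : List Rx := [
  Rx.mk (nat_lit 5) (nat_lit 5) (nat_lit 0) (nat_lit 0) (nat_lit 1) (nat_lit 287) (nat_lit 341) r4_287 r8_341 (nat_lit 0) (nat_lit 34758505) (nat_lit 27124229) (nat_lit 0x700d128ac) (nat_lit 857380996),
  Rx.mk (nat_lit 13) (nat_lit 5) (nat_lit 1) (nat_lit 0) (nat_lit 3) (nat_lit 288) (nat_lit 343) r4_288 r8_343 (nat_lit 0) (nat_lit 0) (nat_lit 24741287) (nat_lit 0x7ff500268) (nat_lit 563728899),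
  Rx.mk (nat_lit 17) (nat_lit 1) (nat_lit 2) (nat_lit 0) (nat_lit 3) (nat_lit 284) (nat_lit 338) r4_284 r8_338 (nat_lit 0) (nat_lit 0) (nat_lit 24741287) (nat_lit 0x8017985b4) (nat_lit 561612199),
  Rx.mk (nat_lit 21) (nat_lit 5) (nat_lit 2) (nat_lit 0) (nat_lit 3) (nat_lit 289) (nat_lit 345) r4_289 r8_345 (nat_lit 0) (nat_lit 0) (nat_lit 24741287) (nat_lit 0x8017985b4) (nat_lit 561612199),
  Rx.mk (nat_lit 69) (nat_lit 5) (nat_lit 0) (nat_lit 1) (nat_lit 5) (nat_lit 290) (nat_lit 342) r4_290 r8_342 (nat_lit 0) (nat_lit 24741287) (nat_lit 0) (nat_lit 0x8017985b4) (nat_lit 561612199),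
  Rx.mk (nat_lit 77) (nat_lit 5) (nat_lit 1) (nat_lit 1) (nat_lit 7) (nat_lit 291) (nat_lit 344) r4_291 r8_344 (nat_lit 0) (nat_lit 0) (nat_lit 0) (nat_lit 0x8017985b4) (nat_lit 536870912),
  Rx.mk (nat_lit 81) (nat_lit 1) (nat_lit 2) (nat_lit 1) (nat_lit 7) (nat_lit 285) (nat_lit 339) r4_285 r8_339 (nat_lit 0) (nat_lit 0) (nat_lit 0) (nat_lit 0x8017985b4) (nat_lit 536870912),
  Rx.mk (nat_lit 85) (nat_lit 5) (nat_lit 2) (nat_lit 1) (nat_lit 7) (nat_lit 292) (nat_lit 346) r4_292 r8_346 (nat_lit 0) (nat_lit 0) (nat_lit 0) (nat_lit 0x8017985b4) (nat_lit 536870912),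
  Rx.mk (nat_lit 145) (nat_lit 1) (nat_lit 2) (nat_lit 2) (nat_lit 7) (nat_lit 286) (nat_lit 340) r4_286 r8_340 (nat_lit 0) (nat_lit 0) (nat_lit 0) (nat_lit 0x8017985b4) (nat_lit 536870912)]
noncomputable def e51_16 : List Rx := [
  Rx.mk (nat_lit 69) (nat_lit 5) (nat_lit 0) (nat_lit 1) (nat_lit 5) (nat_lit 304) (nat_lit 181) r4_304 r8_181 (nat_lit 0) (nat_lit 24372871) (nat_lit 0) (nat_lit 0x7fec7bb1a) (nat_lit 563885983),
  Rx.mk (nat_lit 77) (nat_lit 5) (nat_lit 1) (nat_lit 1) (nat_lit 7) (nat_lit 305) (nat_lit 182) r4_305 r8_182 (nat_lit 0) (nat_lit 0) (nat_lit 0) (nat_lit 0x8017985b4) (nat_lit 536870912),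
  Rx.mk (nat_lit 85) (nat_lit 5) (nat_lit 2) (nat_lit 1) (nat_lit 7) (nat_lit 306) (nat_lit 183) r4_306 r8_183 (nat_lit 0) (nat_lit 0) (nat_lit 0) (nat_lit 0x8017985b4) (nat_lit 536870912)]
noncomputable def e51_17 : List Rx := [
  Rx.mk (nat_lit 77) (nat_lit 5) (nat_lit 1) (nat_lit 1) (nat_lit 7) (nat_lit 307) (nat_lit 305) r4_307 r9_305 (nat_lit 0) (nat_lit 0) (nat_lit 0) (nat_lit 0x8017985b4) (nat_lit 536870912),
  Rx.mk (nat_lit 333) (nat_lit 5) (nat_lit 1) (nat_lit 5) (nat_lit 7) (nat_lit 308) (nat_lit 306) r4_308 r9_306 (nat_lit 0) (nat_lit 0) (nat_lit 0) (nat_lit 0x8017985b4) (nat_lit 536870912)]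
noncomputable def e51_18 : List Rx := [
  Rx.mk (nat_lit 5) (nat_lit 5) (nat_lit 0) (nat_lit 0) (nat_lit 1) (nat_lit 349) (nat_lit 161) r4_349 r4_161 (nat_lit 0) (nat_lit 8380959) (nat_lit 15888243) (nat_lit 0x712c99c60) (nat_lit 801452014),
  Rx.mk (nat_lit 13) (nat_lit 5) (nat_lit 1) (nat_lit 0) (nat_lit 3) (nat_lit 350) (nat_lit 162) r4_350 r4_162 (nat_lit 0) (nat_lit 0) (nat_lit 22312841) (nat_lit 0x806176d2a) (nat_lit 554648803),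
  Rx.mk (nat_lit 21) (nat_lit 5) (nat_lit 2) (nat_lit 0) (nat_lit 3) (nat_lit 351) (nat_lit 163) r4_351 r4_163 (nat_lit 0) (nat_lit 0) (nat_lit 68646309) (nat_lit 0x7fa8798a4) (nat_lit 612142821),
  Rx.mk (nat_lit 197) (nat_lit 5) (nat_lit 0) (nat_lit 3) (nat_lit 5) (nat_lit 352) (nat_lit 164) r4_352 r4_164 (nat_lit 0) (nat_lit 12559442) (nat_lit 0) (nat_lit 0x7f3685d1a) (nat_lit 563145404),
  Rx.mk (nat_lit 205) (nat_lit 5) (nat_lit 1) (nat_lit 3) (nat_lit 7) (nat_lit 353) (nat_lit 165) r4_353 r4_165 (nat_lit 0) (nat_lit 0) (nat_lit 0) (nat_lit 0x80d3762ea) (nat_lit 525382062),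
  Rx.mk (nat_lit 213) (nat_lit 5) (nat_lit 2) (nat_lit 3) (nat_lit 7) (nat_lit 354) (nat_lit 166) r4_354 r4_166 (nat_lit 0) (nat_lit 0) (nat_lit 0) (nat_lit 0x808605e8e) (nat_lit 530063762)]
noncomputable def e51_19 : List Rx := [
  Rx.mk (nat_lit 5) (nat_lit 5) (nat_lit 0) (nat_lit 0) (nat_lit 1) (nat_lit 355) (nat_lit 339) r4_355 r10_339 (nat_lit 0) (nat_lit 46258346) (nat_lit 35822015) (nat_lit 0x73116d7f0) (nat_lit 828766423),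
  Rx.mk (nat_lit 13) (nat_lit 5) (nat_lit 1) (nat_lit 0) (nat_lit 3) (nat_lit 356) (nat_lit 342) r4_356 r10_342 (nat_lit 0) (nat_lit 0) (nat_lit 24741287) (nat_lit 0x801405032) (nat_lit 561834699),
  Rx.mk (nat_lit 21) (nat_lit 5) (nat_lit 2) (nat_lit 0) (nat_lit 3) (nat_lit 357) (nat_lit 345) r4_357 r10_345 (nat_lit 0) (nat_lit 0) (nat_lit 25246541) (nat_lit 0x7fe66bc2a) (nat_lit 565123853),
  Rx.mk (nat_lit 69) (nat_lit 5) (nat_lit 0) (nat_lit 1) (nat_lit 5) (nat_lit 358) (nat_lit 340) r4_358 r10_340 (nat_lit 0) (nat_lit 24741287) (nat_lit 0) (nat_lit 0x8017985b4) (nat_lit 561612199),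
  Rx.mk (nat_lit 77) (nat_lit 5) (nat_lit 1) (nat_lit 1) (nat_lit 7) (nat_lit 359) (nat_lit 343) r4_359 r10_343 (nat_lit 0) (nat_lit 0) (nat_lit 0) (nat_lit 0x8017985b4) (nat_lit 536870912),
  Rx.mk (nat_lit 85) (nat_lit 5) (nat_lit 2) (nat_lit 1) (nat_lit 7) (nat_lit 360) (nat_lit 346) r4_360 r10_346 (nat_lit 0) (nat_lit 0) (nat_lit 0) (nat_lit 0x8017985b4) (nat_lit 536870912),
  Rx.mk (nat_lit 197) (nat_lit 5) (nat_lit 0) (nat_lit 3) (nat_lit 5) (nat_lit 361) (nat_lit 341) r4_361 r10_341 (nat_lit 0) (nat_lit 28199854) (nat_lit 0) (nat_lit 0x800201570) (nat_lit 566376116),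
  Rx.mk (nat_lit 205) (nat_lit 5) (nat_lit 1) (nat_lit 3) (nat_lit 7) (nat_lit 362) (nat_lit 344) r4_362 r10_344 (nat_lit 0) (nat_lit 0) (nat_lit 0) (nat_lit 0x8017985b4) (nat_lit 536870912)]
noncomputable def e51_20 : List Rx := [
  Rx.mk (nat_lit 197) (nat_lit 5) (nat_lit 0) (nat_lit 3) (nat_lit 5) (nat_lit 363) (nat_lit 353) r4_363 r11_353 (nat_lit 0) (nat_lit 18792813) (nat_lit 0) (nat_lit 0x7fd5d2af8) (nat_lit 559647725),
  Rx.mk (nat_lit 205) (nat_lit 5) (nat_lit 1) (nat_lit 3) (nat_lit 7) (nat_lit 364) (nat_lit 354) r4_364 r11_354 (nat_lit 0) (nat_lit 0) (nat_lit 0) (nat_lit 0x8047a5cb6) (nat_lit 533919512),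
  Rx.mk (nat_lit 213) (nat_lit 5) (nat_lit 2) (nat_lit 3) (nat_lit 7) (nat_lit 365) (nat_lit 355) r4_365 r11_355 (nat_lit 0) (nat_lit 0) (nat_lit 0) (nat_lit 0x8026a1380) (nat_lit 535916512)]
noncomputable def e51_21 : List Rx := [
  Rx.mk (nat_lit 76) (nat_lit 4) (nat_lit 1) (nat_lit 1) (nat_lit 6) (nat_lit 309) (nat_lit 313) r4_309 r9_313 (nat_lit 47490513) (nat_lit 0) (nat_lit 0) (nat_lit 0x7c0f81f64) (nat_lit 648924525),
  Rx.mk (nat_lit 77) (nat_lit 5) (nat_lit 1) (nat_lit 1) (nat_lit 7) (nat_lit 311) (nat_lit 315) r4_311 r9_315 (nat_lit 0) (nat_lit 0) (nat_lit 0) (nat_lit 0x8017985b4) (nat_lit 536870912),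
  Rx.mk (nat_lit 332) (nat_lit 4) (nat_lit 1) (nat_lit 5) (nat_lit 6) (nat_lit 310) (nat_lit 312) r4_310 r9_312 (nat_lit 30557758) (nat_lit 0) (nat_lit 0) (nat_lit 0x7f457f316) (nat_lit 580390720),
  Rx.mk (nat_lit 333) (nat_lit 5) (nat_lit 1) (nat_lit 5) (nat_lit 7) (nat_lit 312) (nat_lit 314) r4_312 r9_314 (nat_lit 0) (nat_lit 0) (nat_lit 0) (nat_lit 0x8017985b4) (nat_lit 536870912),
  Rx.mk (nat_lit 334) (nat_lit 6) (nat_lit 1) (nat_lit 5) (nat_lit 7) (nat_lit 313) (nat_lit 316) r4_313 r9_316 (nat_lit 0) (nat_lit 0) (nat_lit 0) (nat_lit 0x8017985b4) (nat_lit 536870912),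
  Rx.mk (nat_lit 366) (nat_lit 6) (nat_lit 5) (nat_lit 5) (nat_lit 7) (nat_lit 314) (nat_lit 311) r4_314 r9_311 (nat_lit 0) (nat_lit 0) (nat_lit 0) (nat_lit 0x8017985b4) (nat_lit 536870912)]
noncomputable def e51_22 : List Rx := [
  Rx.mk (nat_lit 270) (nat_lit 6) (nat_lit 1) (nat_lit 4) (nat_lit 3) (nat_lit 68) (nat_lit 79) r4_68 r0_79 (nat_lit 0) (nat_lit 0) (nat_lit 6167468) (nat_lit 0x5e86efab0) (nat_lit 1084789780),
  Rx.mk (nat_lit 302) (nat_lit 6) (nat_lit 5) (nat_lit 4) (nat_lit 3) (nat_lit 69) (nat_lit 80) r4_69 r0_80 (nat_lit 0) (nat_lit 0) (nat_lit 13011950) (nat_lit 0x7c2e5800a) (nat_lit 612357812),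
  Rx.mk (nat_lit 494) (nat_lit 6) (nat_lit 5) (nat_lit 7) (nat_lit 7) (nat_lit 70) (nat_lit 81) r4_70 r0_81 (nat_lit 0) (nat_lit 0) (nat_lit 0) (nat_lit 0x7f12b28fc) (nat_lit 552544162)]
noncomputable def e51_23 : List Rx := [
  Rx.mk (nat_lit 302) (nat_lit 6) (nat_lit 5) (nat_lit 4) (nat_lit 3) (nat_lit 71) (nat_lit 85) r4_71 r1_85 (nat_lit 0) (nat_lit 0) (nat_lit 18076853) (nat_lit 0x7feb22318) (nat_lit 557573915),
  Rx.mk (nat_lit 430) (nat_lit 6) (nat_lit 5) (nat_lit 6) (nat_lit 7) (nat_lit 72) (nat_lit 87) r4_72 r1_87 (nat_lit 0) (nat_lit 0) (nat_lit 0) (nat_lit 0x8017985b4) (nat_lit 536870912),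
  Rx.mk (nat_lit 494) (nat_lit 6) (nat_lit 5) (nat_lit 7) (nat_lit 7) (nat_lit 73) (nat_lit 86) r4_73 r1_86 (nat_lit 0) (nat_lit 0) (nat_lit 0) (nat_lit 0x8445fa28c) (nat_lit 472429712)]
noncomputable def e51_24 : List Rx := [
  Rx.mk (nat_lit 270) (nat_lit 6) (nat_lit 1) (nat_lit 4) (nat_lit 3) (nat_lit 75) (nat_lit 74) r4_75 r4_74 (nat_lit 0) (nat_lit 0) (nat_lit 7592338) (nat_lit 0x7d0c0142e) (nat_lit 592808150),
  Rx.mk (nat_lit 460) (nat_lit 4) (nat_lit 1) (nat_lit 7) (nat_lit 6) (nat_lit 74) (nat_lit 75) r4_74 r4_75 (nat_lit 7592338) (nat_lit 0) (nat_lit 0) (nat_lit 0x7d0c0142e) (nat_lit 592808150),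
  Rx.mk (nat_lit 462) (nat_lit 6) (nat_lit 1) (nat_lit 7) (nat_lit 7) (nat_lit 76) (nat_lit 76) r4_76 r4_76 (nat_lit 0) (nat_lit 0) (nat_lit 0) (nat_lit 0x7fb75d550) (nat_lit 541473012),
  Rx.mk (nat_lit 494) (nat_lit 6) (nat_lit 5) (nat_lit 7) (nat_lit 7) (nat_lit 77) (nat_lit 77) r4_77 r4_77 (nat_lit 0) (nat_lit 0) (nat_lit 0) (nat_lit 0x8186ed79c) (nat_lit 514518262)]
noncomputable def e51_25 : List Rx := [
  Rx.mk (nat_lit 268) (nat_lit 4) (nat_lit 1) (nat_lit 4) (nat_lit 2) (nat_lit 167) (nat_lit 427) r4_167 r7_427 (nat_lit 19907554) (nat_lit 0) (nat_lit 22125450) (nat_lit 0x63a785950) (nat_lit 1037930216),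
  Rx.mk (nat_lit 270) (nat_lit 6) (nat_lit 1) (nat_lit 4) (nat_lit 3) (nat_lit 169) (nat_lit 429) r4_169 r7_429 (nat_lit 0) (nat_lit 0) (nat_lit 9466543) (nat_lit 0x7fa3c1d3e) (nat_lit 553281955),
  Rx.mk (nat_lit 302) (nat_lit 6) (nat_lit 5) (nat_lit 4) (nat_lit 3) (nat_lit 170) (nat_lit 424) r4_170 r7_424 (nat_lit 0) (nat_lit 0) (nat_lit 15079429) (nat_lit 0x80b288b5a) (nat_lit 542464441),
  Rx.mk (nat_lit 332) (nat_lit 4) (nat_lit 1) (nat_lit 5) (nat_lit 6) (nat_lit 168) (nat_lit 428) r4_168 r7_428 (nat_lit 19814278) (nat_lit 0) (nat_lit 0) (nat_lit 0x7ff710a44) (nat_lit 558656140),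
  Rx.mk (nat_lit 334) (nat_lit 6) (nat_lit 1) (nat_lit 5) (nat_lit 7) (nat_lit 171) (nat_lit 430) r4_171 r7_430 (nat_lit 0) (nat_lit 0) (nat_lit 0) (nat_lit 0x80e5a0ace) (nat_lit 524283362),
  Rx.mk (nat_lit 366) (nat_lit 6) (nat_lit 5) (nat_lit 5) (nat_lit 7) (nat_lit 172) (nat_lit 425) r4_172 r7_425 (nat_lit 0) (nat_lit 0) (nat_lit 0) (nat_lit 0x8047400be) (nat_lit 533941862),
  Rx.mk (nat_lit 494) (nat_lit 6) (nat_lit 5) (nat_lit 7) (nat_lit 7) (nat_lit 173) (nat_lit 426) r4_173 r7_426 (nat_lit 0) (nat_lit 0) (nat_lit 0) (nat_lit 0x804741ba8) (nat_lit 533941462)]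
noncomputable def e51_26 : List Rx := [
  Rx.mk (nat_lit 302) (nat_lit 6) (nat_lit 5) (nat_lit 4) (nat_lit 3) (nat_lit 177) (nat_lit 351) r4_177 r8_351 (nat_lit 0) (nat_lit 0) (nat_lit 24741287) (nat_lit 0x8017985b4) (nat_lit 561612199),
  Rx.mk (nat_lit 366) (nat_lit 6) (nat_lit 5) (nat_lit 5) (nat_lit 7) (nat_lit 178) (nat_lit 352) r4_178 r8_352 (nat_lit 0) (nat_lit 0) (nat_lit 0) (nat_lit 0x8017985b4) (nat_lit 536870912),
  Rx.mk (nat_lit 430) (nat_lit 6) (nat_lit 5) (nat_lit 6) (nat_lit 7) (nat_lit 179) (nat_lit 354) r4_179 r8_354 (nat_lit 0) (nat_lit 0) (nat_lit 0) (nat_lit 0x8017985b4) (nat_lit 536870912),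
  Rx.mk (nat_lit 494) (nat_lit 6) (nat_lit 5) (nat_lit 7) (nat_lit 7) (nat_lit 180) (nat_lit 353) r4_180 r8_353 (nat_lit 0) (nat_lit 0) (nat_lit 0) (nat_lit 0x8017985b4) (nat_lit 536870912)]
noncomputable def e51_27 : List Rx := [
  Rx.mk (nat_lit 332) (nat_lit 4) (nat_lit 1) (nat_lit 5) (nat_lit 6) (nat_lit 174) (nat_lit 68) r4_174 r8_68 (nat_lit 19417164) (nat_lit 0) (nat_lit 0) (nat_lit 0x7fd35cbf2) (nat_lit 560445626),
  Rx.mk (nat_lit 334) (nat_lit 6) (nat_lit 1) (nat_lit 5) (nat_lit 7) (nat_lit 175) (nat_lit 69) r4_175 r8_69 (nat_lit 0) (nat_lit 0) (nat_lit 0) (nat_lit 0x80539e52c) (nat_lit 533184912),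
  Rx.mk (nat_lit 366) (nat_lit 6) (nat_lit 5) (nat_lit 5) (nat_lit 7) (nat_lit 176) (nat_lit 70) r4_176 r8_70 (nat_lit 0) (nat_lit 0) (nat_lit 0) (nat_lit 0x8017985b4) (nat_lit 536870912)]
noncomputable def e51_28 : List Rx := [
  Rx.mk (nat_lit 268) (nat_lit 4) (nat_lit 1) (nat_lit 4) (nat_lit 2) (nat_lit 181) (nat_lit 351) r4_181 r10_351 (nat_lit 12084870) (nat_lit 0) (nat_lit 11415403) (nat_lit 0x6331c3eb0) (nat_lit 1026799885),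
  Rx.mk (nat_lit 270) (nat_lit 6) (nat_lit 1) (nat_lit 4) (nat_lit 3) (nat_lit 184) (nat_lit 354) r4_184 r10_354 (nat_lit 0) (nat_lit 0) (nat_lit 10881583) (nat_lit 0x80aa66698) (nat_lit 538695745),
  Rx.mk (nat_lit 332) (nat_lit 4) (nat_lit 1) (nat_lit 5) (nat_lit 6) (nat_lit 182) (nat_lit 352) r4_182 r10_352 (nat_lit 21073453) (nat_lit 0) (nat_lit 0) (nat_lit 0x8042207e6) (nat_lit 555329265),
  Rx.mk (nat_lit 334) (nat_lit 6) (nat_lit 1) (nat_lit 5) (nat_lit 7) (nat_lit 185) (nat_lit 355) r4_185 r10_355 (nat_lit 0) (nat_lit 0) (nat_lit 0) (nat_lit 0x80a823854) (nat_lit 528019812),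
  Rx.mk (nat_lit 460) (nat_lit 4) (nat_lit 1) (nat_lit 7) (nat_lit 6) (nat_lit 183) (nat_lit 353) r4_183 r10_353 (nat_lit 23202415) (nat_lit 0) (nat_lit 0) (nat_lit 0x7faaa218a) (nat_lit 566751477),
  Rx.mk (nat_lit 462) (nat_lit 6) (nat_lit 1) (nat_lit 7) (nat_lit 7) (nat_lit 186) (nat_lit 356) r4_186 r10_356 (nat_lit 0) (nat_lit 0) (nat_lit 0) (nat_lit 0x80a823516) (nat_lit 528019862),
  Rx.mk (nat_lit 494) (nat_lit 6) (nat_lit 5) (nat_lit 7) (nat_lit 7) (nat_lit 187) (nat_lit 350) r4_187 r10_350 (nat_lit 0) (nat_lit 0) (nat_lit 0) (nat_lit 0x8017985b4) (nat_lit 536870912)]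
noncomputable def e51_29 : List Rx := [
  Rx.mk (nat_lit 460) (nat_lit 4) (nat_lit 1) (nat_lit 7) (nat_lit 6) (nat_lit 226) (nat_lit 358) r4_226 r11_358 (nat_lit 11487859) (nat_lit 0) (nat_lit 0) (nat_lit 0x7fe0ccc6a) (nat_lit 551547221),
  Rx.mk (nat_lit 462) (nat_lit 6) (nat_lit 1) (nat_lit 7) (nat_lit 7) (nat_lit 227) (nat_lit 359) r4_227 r11_359 (nat_lit 0) (nat_lit 0) (nat_lit 0) (nat_lit 0x82046c2cc) (nat_lit 506848662),
  Rx.mk (nat_lit 494) (nat_lit 6) (nat_lit 5) (nat_lit 7) (nat_lit 7) (nat_lit 228) (nat_lit 357) r4_228 r11_357 (nat_lit 0) (nat_lit 0) (nat_lit 0) (nat_lit 0x850b42e04) (nat_lit 460662012)]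
noncomputable def e51_30 : List Rx := [
  Rx.mk (nat_lit 4) (nat_lit 4) (nat_lit 0) (nat_lit 0) (nat_lit 0) (nat_lit 366) (nat_lit 169) r4_366 r5_169 (nat_lit 1433235) (nat_lit 841617) (nat_lit 2737427) (nat_lit 0x61d7dcea2) (nat_lit 1029758991),
  Rx.mk (nat_lit 5) (nat_lit 5) (nat_lit 0) (nat_lit 0) (nat_lit 1) (nat_lit 373) (nat_lit 170) r4_373 r5_170 (nat_lit 0) (nat_lit 11320658) (nat_lit 159956814) (nat_lit 0x7afbd0750) (nat_lit 789998334),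
  Rx.mk (nat_lit 7) (nat_lit 7) (nat_lit 0) (nat_lit 0) (nat_lit 1) (nat_lit 378) (nat_lit 171) r4_378 r5_171 (nat_lit 0) (nat_lit 24206208) (nat_lit 58076158) (nat_lit 0x78ad82f82) (nat_lit 738299028),
  Rx.mk (nat_lit 12) (nat_lit 4) (nat_lit 1) (nat_lit 0) (nat_lit 2) (nat_lit 367) (nat_lit 172) r4_367 r5_172 (nat_lit 31203347) (nat_lit 0) (nat_lit 38663507) (nat_lit 0x74de6bf62) (nat_lit 787491166),
  Rx.mk (nat_lit 15) (nat_lit 7) (nat_lit 1) (nat_lit 0) (nat_lit 3) (nat_lit 379) (nat_lit 173) r4_379 r5_173 (nat_lit 0) (nat_lit 0) (nat_lit 24741287) (nat_lit 0x8017985b4) (nat_lit 561612199),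
  Rx.mk (nat_lit 20) (nat_lit 4) (nat_lit 2) (nat_lit 0) (nat_lit 2) (nat_lit 368) (nat_lit 174) r4_368 r5_174 (nat_lit 5546147) (nat_lit 0) (nat_lit 174408130) (nat_lit 0x790afe648) (nat_lit 829916089),
  Rx.mk (nat_lit 21) (nat_lit 5) (nat_lit 2) (nat_lit 0) (nat_lit 3) (nat_lit 374) (nat_lit 175) r4_374 r5_175 (nat_lit 0) (nat_lit 0) (nat_lit 141819368) (nat_lit 0x7fe1dc33a) (nat_lit 681820880),
  Rx.mk (nat_lit 23) (nat_lit 7) (nat_lit 2) (nat_lit 0) (nat_lit 3) (nat_lit 380) (nat_lit 176) r4_380 r5_176 (nat_lit 0) (nat_lit 0) (nat_lit 26164324) (nat_lit 0x80999346a) (nat_lit 555052536),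
  Rx.mk (nat_lit 196) (nat_lit 4) (nat_lit 0) (nat_lit 3) (nat_lit 4) (nat_lit 369) (nat_lit 177) r4_369 r5_177 (nat_lit 5283235) (nat_lit 4717590) (nat_lit 0) (nat_lit 0x752a4ab54) (nat_lit 722606187),
  Rx.mk (nat_lit 197) (nat_lit 5) (nat_lit 0) (nat_lit 3) (nat_lit 5) (nat_lit 375) (nat_lit 178) r4_375 r5_178 (nat_lit 0) (nat_lit 10292378) (nat_lit 0) (nat_lit 0x80631e6c8) (nat_lit 542489390),
  Rx.mk (nat_lit 204) (nat_lit 4) (nat_lit 1) (nat_lit 3) (nat_lit 6) (nat_lit 370) (nat_lit 179) r4_370 r5_179 (nat_lit 12656058) (nat_lit 0) (nat_lit 0) (nat_lit 0x8088cb0ec) (nat_lit 542545370),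
  Rx.mk (nat_lit 212) (nat_lit 4) (nat_lit 2) (nat_lit 3) (nat_lit 6) (nat_lit 371) (nat_lit 182) r4_371 r5_182 (nat_lit 11445764) (nat_lit 0) (nat_lit 0) (nat_lit 0x81403787a) (nat_lit 530241476),
  Rx.mk (nat_lit 213) (nat_lit 5) (nat_lit 2) (nat_lit 3) (nat_lit 7) (nat_lit 376) (nat_lit 183) r4_376 r5_183 (nat_lit 0) (nat_lit 0) (nat_lit 0) (nat_lit 0x80cd61346) (nat_lit 525749862),
  Rx.mk (nat_lit 220) (nat_lit 4) (nat_lit 3) (nat_lit 3) (nat_lit 6) (nat_lit 372) (nat_lit 180) r4_372 r5_180 (nat_lit 26071718) (nat_lit 0) (nat_lit 0) (nat_lit 0x7c450e86c) (nat_lit 624104680),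
  Rx.mk (nat_lit 221) (nat_lit 5) (nat_lit 3) (nat_lit 3) (nat_lit 7) (nat_lit 377) (nat_lit 181) r4_377 r5_181 (nat_lit 0) (nat_lit 0) (nat_lit 0) (nat_lit 0x80414fb1e) (nat_lit 534304462)]
noncomputable def e51_31 : List Rx := [
  Rx.mk (nat_lit 4) (nat_lit 4) (nat_lit 0) (nat_lit 0) (nat_lit 0) (nat_lit 381) (nat_lit 191) r4_381 r11_191 (nat_lit 17913539) (nat_lit 15710614) (nat_lit 17952672) (nat_lit 0x5f1b5dba2) (nat_lit 1121002137),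
  Rx.mk (nat_lit 5) (nat_lit 5) (nat_lit 0) (nat_lit 0) (nat_lit 1) (nat_lit 390) (nat_lit 192) r4_390 r11_192 (nat_lit 0) (nat_lit 20049231) (nat_lit 96193341) (nat_lit 0x7b255b444) (nat_lit 732377384),
  Rx.mk (nat_lit 7) (nat_lit 7) (nat_lit 0) (nat_lit 0) (nat_lit 1) (nat_lit 396) (nat_lit 193) r4_396 r11_193 (nat_lit 0) (nat_lit 30793545) (nat_lit 30793545) (nat_lit 0x7da382596) (nat_lit 637575952),
  Rx.mk (nat_lit 12) (nat_lit 4) (nat_lit 1) (nat_lit 0) (nat_lit 2) (nat_lit 382) (nat_lit 194) r4_382 r11_194 (nat_lit 34329630) (nat_lit 0) (nat_lit 27647826) (nat_lit 0x7e54987ea) (nat_lit 626865718),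
  Rx.mk (nat_lit 15) (nat_lit 7) (nat_lit 1) (nat_lit 0) (nat_lit 3) (nat_lit 397) (nat_lit 195) r4_397 r11_195 (nat_lit 0) (nat_lit 0) (nat_lit 24741287) (nat_lit 0x8017985b4) (nat_lit 561612199),
  Rx.mk (nat_lit 20) (nat_lit 4) (nat_lit 2) (nat_lit 0) (nat_lit 2) (nat_lit 383) (nat_lit 196) r4_383 r11_196 (nat_lit 30009416) (nat_lit 0) (nat_lit 28646946) (nat_lit 0x7b26b540c) (nat_lit 674773074),
  Rx.mk (nat_lit 21) (nat_lit 5) (nat_lit 2) (nat_lit 0) (nat_lit 3) (nat_lit 391) (nat_lit 197) r4_391 r11_197 (nat_lit 0) (nat_lit 0) (nat_lit 30058585) (nat_lit 0x7fbf63a4c) (nat_lit 572343247),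
  Rx.mk (nat_lit 23) (nat_lit 7) (nat_lit 2) (nat_lit 0) (nat_lit 3) (nat_lit 398) (nat_lit 198) r4_398 r11_198 (nat_lit 0) (nat_lit 0) (nat_lit 24741287) (nat_lit 0x8017985b4) (nat_lit 561612199),
  Rx.mk (nat_lit 68) (nat_lit 4) (nat_lit 0) (nat_lit 1) (nat_lit 4) (nat_lit 384) (nat_lit 199) r4_384 r11_199 (nat_lit 35726227) (nat_lit 27870751) (nat_lit 0) (nat_lit 0x779980b0c) (nat_lit 737097740),
  Rx.mk (nat_lit 69) (nat_lit 5) (nat_lit 0) (nat_lit 1) (nat_lit 5) (nat_lit 392) (nat_lit 200) r4_392 r11_200 (nat_lit 0) (nat_lit 24741287) (nat_lit 0) (nat_lit 0x8017985b4) (nat_lit 561612199),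
  Rx.mk (nat_lit 71) (nat_lit 7) (nat_lit 0) (nat_lit 1) (nat_lit 5) (nat_lit 399) (nat_lit 201) r4_399 r11_201 (nat_lit 0) (nat_lit 24741287) (nat_lit 0) (nat_lit 0x8017985b4) (nat_lit 561612199),
  Rx.mk (nat_lit 76) (nat_lit 4) (nat_lit 1) (nat_lit 1) (nat_lit 6) (nat_lit 385) (nat_lit 202) r4_385 r11_202 (nat_lit 26112240) (nat_lit 0) (nat_lit 0) (nat_lit 0x7f458b346) (nat_lit 575951702),
  Rx.mk (nat_lit 79) (nat_lit 7) (nat_lit 1) (nat_lit 1) (nat_lit 7) (nat_lit 400) (nat_lit 203) r4_400 r11_203 (nat_lit 0) (nat_lit 0) (nat_lit 0) (nat_lit 0x8017985b4) (nat_lit 536870912),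
  Rx.mk (nat_lit 84) (nat_lit 4) (nat_lit 2) (nat_lit 1) (nat_lit 6) (nat_lit 386) (nat_lit 204) r4_386 r11_204 (nat_lit 24741287) (nat_lit 0) (nat_lit 0) (nat_lit 0x8017985b4) (nat_lit 561612199),
  Rx.mk (nat_lit 85) (nat_lit 5) (nat_lit 2) (nat_lit 1) (nat_lit 7) (nat_lit 393) (nat_lit 205) r4_393 r11_205 (nat_lit 0) (nat_lit 0) (nat_lit 0) (nat_lit 0x8017985b4) (nat_lit 536870912),
  Rx.mk (nat_lit 87) (nat_lit 7) (nat_lit 2) (nat_lit 1) (nat_lit 7) (nat_lit 401) (nat_lit 206) r4_401 r11_206 (nat_lit 0) (nat_lit 0) (nat_lit 0) (nat_lit 0x8017985b4) (nat_lit 536870912),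
  Rx.mk (nat_lit 196) (nat_lit 4) (nat_lit 0) (nat_lit 3) (nat_lit 4) (nat_lit 387) (nat_lit 207) r4_387 r11_207 (nat_lit 27912229) (nat_lit 29502798) (nat_lit 0) (nat_lit 0x78d0f8fca) (nat_lit 711254839),
  Rx.mk (nat_lit 197) (nat_lit 5) (nat_lit 0) (nat_lit 3) (nat_lit 5) (nat_lit 394) (nat_lit 208) r4_394 r11_208 (nat_lit 0) (nat_lit 23934074) (nat_lit 0) (nat_lit 0x7fe6d46d0) (nat_lit 563795286),
  Rx.mk (nat_lit 204) (nat_lit 4) (nat_lit 1) (nat_lit 3) (nat_lit 6) (nat_lit 388) (nat_lit 209) r4_388 r11_209 (nat_lit 24741287) (nat_lit 0) (nat_lit 0) (nat_lit 0x8017985b4) (nat_lit 561612199),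
  Rx.mk (nat_lit 220) (nat_lit 4) (nat_lit 3) (nat_lit 3) (nat_lit 6) (nat_lit 389) (nat_lit 210) r4_389 r11_210 (nat_lit 24741287) (nat_lit 0) (nat_lit 0) (nat_lit 0x8017985b4) (nat_lit 561612199),
  Rx.mk (nat_lit 221) (nat_lit 5) (nat_lit 3) (nat_lit 3) (nat_lit 7) (nat_lit 395) (nat_lit 211) r4_395 r11_211 (nat_lit 0) (nat_lit 0) (nat_lit 0) (nat_lit 0x8017985b4) (nat_lit 536870912)]
noncomputable def e51_32 : List Rx := [
  Rx.mk (nat_lit 199) (nat_lit 7) (nat_lit 0) (nat_lit 3) (nat_lit 5) (nat_lit 84) (nat_lit 25) r4_84 r6_25 (nat_lit 0) (nat_lit 5828454) (nat_lit 0) (nat_lit 0x7fc27fd8e) (nat_lit 547632616),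
  Rx.mk (nat_lit 207) (nat_lit 7) (nat_lit 1) (nat_lit 3) (nat_lit 7) (nat_lit 85) (nat_lit 26) r4_85 r6_26 (nat_lit 0) (nat_lit 0) (nat_lit 0) (nat_lit 0x80fddf1bc) (nat_lit 522806362),
  Rx.mk (nat_lit 215) (nat_lit 7) (nat_lit 2) (nat_lit 3) (nat_lit 7) (nat_lit 86) (nat_lit 27) r4_86 r6_27 (nat_lit 0) (nat_lit 0) (nat_lit 0) (nat_lit 0x80efb1ee6) (nat_lit 523668462),
  Rx.mk (nat_lit 452) (nat_lit 4) (nat_lit 0) (nat_lit 7) (nat_lit 4) (nat_lit 78) (nat_lit 20) r4_78 r6_20 (nat_lit 3814909) (nat_lit 2670845) (nat_lit 0) (nat_lit 0x6861eb944) (nat_lit 925706566),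
  Rx.mk (nat_lit 454) (nat_lit 6) (nat_lit 0) (nat_lit 7) (nat_lit 5) (nat_lit 81) (nat_lit 28) r4_81 r6_28 (nat_lit 0) (nat_lit 136651) (nat_lit 0) (nat_lit 0x6297d7fc2) (nat_lit 1012582363),
  Rx.mk (nat_lit 455) (nat_lit 7) (nat_lit 0) (nat_lit 7) (nat_lit 5) (nat_lit 87) (nat_lit 23) r4_87 r6_23 (nat_lit 0) (nat_lit 9821827) (nat_lit 0) (nat_lit 0x7fc4fda48) (nat_lit 551627389),
  Rx.mk (nat_lit 460) (nat_lit 4) (nat_lit 1) (nat_lit 7) (nat_lit 6) (nat_lit 79) (nat_lit 21) r4_79 r6_21 (nat_lit 9313182) (nat_lit 0) (nat_lit 0) (nat_lit 0x8051e9268) (nat_lit 542445944),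
  Rx.mk (nat_lit 462) (nat_lit 6) (nat_lit 1) (nat_lit 7) (nat_lit 7) (nat_lit 82) (nat_lit 29) r4_82 r6_29 (nat_lit 0) (nat_lit 0) (nat_lit 0) (nat_lit 0x80f6273ca) (nat_lit 522994062),
  Rx.mk (nat_lit 463) (nat_lit 7) (nat_lit 1) (nat_lit 7) (nat_lit 7) (nat_lit 88) (nat_lit 24) r4_88 r6_24 (nat_lit 0) (nat_lit 0) (nat_lit 0) (nat_lit 0x8046420c2) (nat_lit 534001662),
  Rx.mk (nat_lit 476) (nat_lit 4) (nat_lit 3) (nat_lit 7) (nat_lit 6) (nat_lit 80) (nat_lit 22) r4_80 r6_22 (nat_lit 10422876) (nat_lit 0) (nat_lit 0) (nat_lit 0x7e366a3fe) (nat_lit 577077388),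
  Rx.mk (nat_lit 478) (nat_lit 6) (nat_lit 3) (nat_lit 7) (nat_lit 7) (nat_lit 83) (nat_lit 30) r4_83 r6_30 (nat_lit 0) (nat_lit 0) (nat_lit 0) (nat_lit 0x80d433d36) (nat_lit 525049262)]
noncomputable def e51_33 : List Rx := [
  Rx.mk (nat_lit 270) (nat_lit 6) (nat_lit 1) (nat_lit 4) (nat_lit 3) (nat_lit 90) (nat_lit 66) r4_90 r5_66 (nat_lit 0) (nat_lit 0) (nat_lit 9749711) (nat_lit 0x7ffe1e016) (nat_lit 547673873),
  Rx.mk (nat_lit 460) (nat_lit 4) (nat_lit 1) (nat_lit 7) (nat_lit 6) (nat_lit 89) (nat_lit 67) r4_89 r5_67 (nat_lit 10750557) (nat_lit 0) (nat_lit 0) (nat_lit 0x7fd33eeae) (nat_lit 551622569),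
  Rx.mk (nat_lit 462) (nat_lit 6) (nat_lit 1) (nat_lit 7) (nat_lit 7) (nat_lit 91) (nat_lit 69) r4_91 r5_69 (nat_lit 0) (nat_lit 0) (nat_lit 0) (nat_lit 0x8121440f8) (nat_lit 520021762),
  Rx.mk (nat_lit 463) (nat_lit 7) (nat_lit 1) (nat_lit 7) (nat_lit 7) (nat_lit 92) (nat_lit 68) r4_92 r5_68 (nat_lit 0) (nat_lit 0) (nat_lit 0) (nat_lit 0x7fb528974) (nat_lit 542767312)]
noncomputable def e51_34 : List Rx := [
  Rx.mk (nat_lit 268) (nat_lit 4) (nat_lit 1) (nat_lit 4) (nat_lit 2) (nat_lit 188) (nat_lit 46) r4_188 r11_46 (nat_lit 16806885) (nat_lit 0) (nat_lit 33533154) (nat_lit 0x78c402cc6) (nat_lit 704937351),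
  Rx.mk (nat_lit 270) (nat_lit 6) (nat_lit 1) (nat_lit 4) (nat_lit 3) (nat_lit 191) (nat_lit 47) r4_191 r11_47 (nat_lit 0) (nat_lit 0) (nat_lit 16749673) (nat_lit 0x8060fd66e) (nat_lit 549095785),
  Rx.mk (nat_lit 332) (nat_lit 4) (nat_lit 1) (nat_lit 5) (nat_lit 6) (nat_lit 189) (nat_lit 48) r4_189 r11_48 (nat_lit 24741287) (nat_lit 0) (nat_lit 0) (nat_lit 0x8017985b4) (nat_lit 561612199),
  Rx.mk (nat_lit 334) (nat_lit 6) (nat_lit 1) (nat_lit 5) (nat_lit 7) (nat_lit 192) (nat_lit 49) r4_192 r11_49 (nat_lit 0) (nat_lit 0) (nat_lit 0) (nat_lit 0x804ce505a) (nat_lit 533594662),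
  Rx.mk (nat_lit 460) (nat_lit 4) (nat_lit 1) (nat_lit 7) (nat_lit 6) (nat_lit 190) (nat_lit 50) r4_190 r11_50 (nat_lit 26071655) (nat_lit 0) (nat_lit 0) (nat_lit 0x7fa9352f2) (nat_lit 569730517),
  Rx.mk (nat_lit 462) (nat_lit 6) (nat_lit 1) (nat_lit 7) (nat_lit 7) (nat_lit 193) (nat_lit 52) r4_193 r11_52 (nat_lit 0) (nat_lit 0) (nat_lit 0) (nat_lit 0x804ce4d1c) (nat_lit 533594712),
  Rx.mk (nat_lit 463) (nat_lit 7) (nat_lit 1) (nat_lit 7) (nat_lit 7) (nat_lit 194) (nat_lit 51) r4_194 r11_51 (nat_lit 0) (nat_lit 0) (nat_lit 0) (nat_lit 0x8017985b4) (nat_lit 536870912)]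
noncomputable def e51_35 : List Rx := [
  Rx.mk (nat_lit 7) (nat_lit 7) (nat_lit 0) (nat_lit 0) (nat_lit 1) (nat_lit 235) (nat_lit 128) r4_235 r6_128 (nat_lit 0) (nat_lit 72450) (nat_lit 102847) (nat_lit 0x74c49e314) (nat_lit 718702409),
  Rx.mk (nat_lit 15) (nat_lit 7) (nat_lit 1) (nat_lit 0) (nat_lit 3) (nat_lit 236) (nat_lit 131) r4_236 r6_131 (nat_lit 0) (nat_lit 0) (nat_lit 17803608) (nat_lit 0x8030df784) (nat_lit 553092470),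
  Rx.mk (nat_lit 23) (nat_lit 7) (nat_lit 2) (nat_lit 0) (nat_lit 3) (nat_lit 237) (nat_lit 137) r4_237 r6_137 (nat_lit 0) (nat_lit 0) (nat_lit 14470459) (nat_lit 0x7f6a8c884) (nat_lit 561862921),
  Rx.mk (nat_lit 196) (nat_lit 4) (nat_lit 0) (nat_lit 3) (nat_lit 4) (nat_lit 229) (nat_lit 129) r4_229 r6_129 (nat_lit 185097) (nat_lit 150896) (nat_lit 0) (nat_lit 0x7474055ce) (nat_lit 723972805),
  Rx.mk (nat_lit 199) (nat_lit 7) (nat_lit 0) (nat_lit 3) (nat_lit 5) (nat_lit 238) (nat_lit 130) r4_238 r6_130 (nat_lit 0) (nat_lit 8507115) (nat_lit 0) (nat_lit 0x7fe98ff5a) (nat_lit 548034927),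
  Rx.mk (nat_lit 204) (nat_lit 4) (nat_lit 1) (nat_lit 3) (nat_lit 6) (nat_lit 230) (nat_lit 132) r4_230 r6_132 (nat_lit 15201900) (nat_lit 0) (nat_lit 0) (nat_lit 0x80b22620c) (nat_lit 542613312),
  Rx.mk (nat_lit 207) (nat_lit 7) (nat_lit 1) (nat_lit 3) (nat_lit 7) (nat_lit 239) (nat_lit 133) r4_239 r6_133 (nat_lit 0) (nat_lit 0) (nat_lit 0) (nat_lit 0x80ad718e2) (nat_lit 527694462),
  Rx.mk (nat_lit 212) (nat_lit 4) (nat_lit 2) (nat_lit 3) (nat_lit 6) (nat_lit 231) (nat_lit 138) r4_231 r6_138 (nat_lit 15888000) (nat_lit 0) (nat_lit 0) (nat_lit 0x80a2446e0) (nat_lit 544269162),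
  Rx.mk (nat_lit 215) (nat_lit 7) (nat_lit 2) (nat_lit 3) (nat_lit 7) (nat_lit 240) (nat_lit 139) r4_240 r6_139 (nat_lit 0) (nat_lit 0) (nat_lit 0) (nat_lit 0x80ad718e2) (nat_lit 527694462),
  Rx.mk (nat_lit 220) (nat_lit 4) (nat_lit 3) (nat_lit 3) (nat_lit 6) (nat_lit 232) (nat_lit 134) r4_232 r6_134 (nat_lit 14591992) (nat_lit 0) (nat_lit 0) (nat_lit 0x7ffde2a5c) (nat_lit 552972954),
  Rx.mk (nat_lit 476) (nat_lit 4) (nat_lit 3) (nat_lit 7) (nat_lit 6) (nat_lit 233) (nat_lit 135) r4_233 r6_135 (nat_lit 11623710) (nat_lit 0) (nat_lit 0) (nat_lit 0x7bf31a790) (nat_lit 614749172),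
  Rx.mk (nat_lit 478) (nat_lit 6) (nat_lit 3) (nat_lit 7) (nat_lit 7) (nat_lit 234) (nat_lit 136) r4_234 r6_136 (nat_lit 0) (nat_lit 0) (nat_lit 0) (nat_lit 0x81ec02330) (nat_lit 508336162)]
noncomputable def e51_36 : List Rx := [
  Rx.mk (nat_lit 196) (nat_lit 4) (nat_lit 0) (nat_lit 3) (nat_lit 4) (nat_lit 241) (nat_lit 392) r4_241 r12_392 (nat_lit 58690) (nat_lit 41553) (nat_lit 0) (nat_lit 0x7b312194a) (nat_lit 614735255),
  Rx.mk (nat_lit 199) (nat_lit 7) (nat_lit 0) (nat_lit 3) (nat_lit 5) (nat_lit 250) (nat_lit 398) r4_250 r12_398 (nat_lit 0) (nat_lit 4688491) (nat_lit 0) (nat_lit 0x7f006038e) (nat_lit 558460953),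
  Rx.mk (nat_lit 204) (nat_lit 4) (nat_lit 1) (nat_lit 3) (nat_lit 6) (nat_lit 242) (nat_lit 394) r4_242 r12_394 (nat_lit 8369781) (nat_lit 0) (nat_lit 0) (nat_lit 0x7f5bb069e) (nat_lit 556643943),
  Rx.mk (nat_lit 207) (nat_lit 7) (nat_lit 1) (nat_lit 3) (nat_lit 7) (nat_lit 251) (nat_lit 399) r4_251 r12_399 (nat_lit 0) (nat_lit 0) (nat_lit 0) (nat_lit 0x80a484a0e) (nat_lit 528215812),
  Rx.mk (nat_lit 212) (nat_lit 4) (nat_lit 2) (nat_lit 3) (nat_lit 6) (nat_lit 243) (nat_lit 397) r4_243 r12_397 (nat_lit 12827212) (nat_lit 0) (nat_lit 0) (nat_lit 0x80d8b15d4) (nat_lit 537881374),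
  Rx.mk (nat_lit 215) (nat_lit 7) (nat_lit 2) (nat_lit 3) (nat_lit 7) (nat_lit 252) (nat_lit 400) r4_252 r12_400 (nat_lit 0) (nat_lit 0) (nat_lit 0) (nat_lit 0x80c5a12f0) (nat_lit 526217362),
  Rx.mk (nat_lit 452) (nat_lit 4) (nat_lit 0) (nat_lit 7) (nat_lit 4) (nat_lit 244) (nat_lit 393) r4_244 r12_393 (nat_lit 2631942) (nat_lit 1714766) (nat_lit 0) (nat_lit 0x6423137c0) (nat_lit 992114620),
  Rx.mk (nat_lit 454) (nat_lit 6) (nat_lit 0) (nat_lit 7) (nat_lit 5) (nat_lit 247) (nat_lit 401) r4_247 r12_401 (nat_lit 0) (nat_lit 99316) (nat_lit 0) (nat_lit 0x5a569f38c) (nat_lit 1146020178),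
  Rx.mk (nat_lit 460) (nat_lit 4) (nat_lit 1) (nat_lit 7) (nat_lit 6) (nat_lit 245) (nat_lit 395) r4_245 r12_395 (nat_lit 9667445) (nat_lit 0) (nat_lit 0) (nat_lit 0x7e44f4f8c) (nat_lit 575356507),
  Rx.mk (nat_lit 462) (nat_lit 6) (nat_lit 1) (nat_lit 7) (nat_lit 7) (nat_lit 248) (nat_lit 402) r4_248 r12_402 (nat_lit 0) (nat_lit 0) (nat_lit 0) (nat_lit 0x7feb6c558) (nat_lit 539045512),
  Rx.mk (nat_lit 476) (nat_lit 4) (nat_lit 3) (nat_lit 7) (nat_lit 6) (nat_lit 246) (nat_lit 396) r4_246 r12_396 (nat_lit 10567436) (nat_lit 0) (nat_lit 0) (nat_lit 0x755c3f9fc) (nat_lit 720133798),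
  Rx.mk (nat_lit 478) (nat_lit 6) (nat_lit 3) (nat_lit 7) (nat_lit 7) (nat_lit 249) (nat_lit 403) r4_249 r12_403 (nat_lit 0) (nat_lit 0) (nat_lit 0) (nat_lit 0x7f2695054) (nat_lit 551109212)]
noncomputable def e51_37 : List Rx := [
  Rx.mk (nat_lit 19) (nat_lit 3) (nat_lit 2) (nat_lit 0) (nat_lit 3) (nat_lit 5) (nat_lit 59) r4_5 r0_59 (nat_lit 0) (nat_lit 0) (nat_lit 82674763) (nat_lit 0x7746f3588) (nat_lit 761260075),
  Rx.mk (nat_lit 144) (nat_lit 0) (nat_lit 2) (nat_lit 2) (nat_lit 6) (nat_lit 0) (nat_lit 58) r4_0 r0_58 (nat_lit 5660977) (nat_lit 0) (nat_lit 0) (nat_lit 0x6025939b8) (nat_lit 1058125439),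
  Rx.mk (nat_lit 147) (nat_lit 3) (nat_lit 2) (nat_lit 2) (nat_lit 7) (nat_lit 6) (nat_lit 61) r4_6 r0_61 (nat_lit 0) (nat_lit 0) (nat_lit 0) (nat_lit 0x7f2c10cae) (nat_lit 551161962),
  Rx.mk (nat_lit 176) (nat_lit 0) (nat_lit 6) (nat_lit 2) (nat_lit 6) (nat_lit 1) (nat_lit 57) r4_1 r0_57 (nat_lit 13925368) (nat_lit 0) (nat_lit 0) (nat_lit 0x7d011df30) (nat_lit 600028230),
  Rx.mk (nat_lit 178) (nat_lit 2) (nat_lit 6) (nat_lit 2) (nat_lit 7) (nat_lit 2) (nat_lit 64) r4_2 r0_64 (nat_lit 0) (nat_lit 0) (nat_lit 0) (nat_lit 0x80a6ddf44) (nat_lit 528084262),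
  Rx.mk (nat_lit 211) (nat_lit 3) (nat_lit 2) (nat_lit 3) (nat_lit 7) (nat_lit 7) (nat_lit 60) r4_7 r0_60 (nat_lit 0) (nat_lit 0) (nat_lit 0) (nat_lit 0x7f7512f6a) (nat_lit 546825312),
  Rx.mk (nat_lit 294) (nat_lit 6) (nat_lit 4) (nat_lit 4) (nat_lit 1) (nat_lit 8) (nat_lit 52) r4_8 r0_52 (nat_lit 0) (nat_lit 6694296) (nat_lit 22112455) (nat_lit 0x63f406554) (nat_lit 1019765813),
  Rx.mk (nat_lit 318) (nat_lit 6) (nat_lit 7) (nat_lit 4) (nat_lit 3) (nat_lit 9) (nat_lit 53) r4_9 r0_53 (nat_lit 0) (nat_lit 0) (nat_lit 74749020) (nat_lit 0x751698fde) (nat_lit 788742832),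
  Rx.mk (nat_lit 418) (nat_lit 2) (nat_lit 4) (nat_lit 6) (nat_lit 5) (nat_lit 3) (nat_lit 62) r4_3 r0_62 (nat_lit 0) (nat_lit 11579015) (nat_lit 0) (nat_lit 0x7fd79e04e) (nat_lit 552249627),
  Rx.mk (nat_lit 422) (nat_lit 6) (nat_lit 4) (nat_lit 6) (nat_lit 5) (nat_lit 10) (nat_lit 55) r4_10 r0_55 (nat_lit 0) (nat_lit 12464414) (nat_lit 0) (nat_lit 0x7d1fc1338) (nat_lit 596680676),
  Rx.mk (nat_lit 434) (nat_lit 2) (nat_lit 6) (nat_lit 6) (nat_lit 7) (nat_lit 4) (nat_lit 63) r4_4 r0_63 (nat_lit 0) (nat_lit 0) (nat_lit 0) (nat_lit 0x804ed3af6) (nat_lit 533452762),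
  Rx.mk (nat_lit 446) (nat_lit 6) (nat_lit 7) (nat_lit 6) (nat_lit 7) (nat_lit 11) (nat_lit 56) r4_11 r0_56 (nat_lit 0) (nat_lit 0) (nat_lit 0) (nat_lit 0x8071443a6) (nat_lit 531356412),
  Rx.mk (nat_lit 510) (nat_lit 6) (nat_lit 7) (nat_lit 7) (nat_lit 7) (nat_lit 12) (nat_lit 54) r4_12 r0_54 (nat_lit 0) (nat_lit 0) (nat_lit 0) (nat_lit 0x76aa13858) (nat_lit 688374962)]
noncomputable def e51_38 : List Rx := [
  Rx.mk (nat_lit 16) (nat_lit 0) (nat_lit 2) (nat_lit 0) (nat_lit 2) (nat_lit 93) (nat_lit 142) r4_93 r0_142 (nat_lit 1138602) (nat_lit 0) (nat_lit 206617785) (nat_lit 0x685ba0238) (nat_lit 1127160549),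
  Rx.mk (nat_lit 19) (nat_lit 3) (nat_lit 2) (nat_lit 0) (nat_lit 3) (nat_lit 95) (nat_lit 143) r4_95 r0_143 (nat_lit 0) (nat_lit 0) (nat_lit 128366738) (nat_lit 0x7fb918d0e) (nat_lit 670781900),
  Rx.mk (nat_lit 144) (nat_lit 0) (nat_lit 2) (nat_lit 2) (nat_lit 6) (nat_lit 94) (nat_lit 145) r4_94 r0_145 (nat_lit 15006223) (nat_lit 0) (nat_lit 0) (nat_lit 0x7cc837842) (nat_lit 604752435),
  Rx.mk (nat_lit 147) (nat_lit 3) (nat_lit 2) (nat_lit 2) (nat_lit 7) (nat_lit 96) (nat_lit 146) r4_96 r0_146 (nat_lit 0) (nat_lit 0) (nat_lit 0) (nat_lit 0x801c7c06c) (nat_lit 536515262),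
  Rx.mk (nat_lit 211) (nat_lit 3) (nat_lit 2) (nat_lit 3) (nat_lit 7) (nat_lit 97) (nat_lit 144) r4_97 r0_144 (nat_lit 0) (nat_lit 0) (nat_lit 0) (nat_lit 0x7fd67623e) (nat_lit 540864312)]
noncomputable def e51_39 : List Rx := [
  Rx.mk (nat_lit 16) (nat_lit 0) (nat_lit 2) (nat_lit 0) (nat_lit 2) (nat_lit 98) (nat_lit 39) r4_98 r7_39 (nat_lit 11303237) (nat_lit 0) (nat_lit 21615915) (nat_lit 0x68ed8d4d4) (nat_lit 943524414),
  Rx.mk (nat_lit 19) (nat_lit 3) (nat_lit 2) (nat_lit 0) (nat_lit 3) (nat_lit 104) (nat_lit 42) r4_104 r7_42 (nat_lit 0) (nat_lit 0) (nat_lit 32199586) (nat_lit 0x7deebd290) (nat_lit 603434298),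
  Rx.mk (nat_lit 144) (nat_lit 0) (nat_lit 2) (nat_lit 2) (nat_lit 6) (nat_lit 99) (nat_lit 41) r4_99 r7_41 (nat_lit 10576130) (nat_lit 0) (nat_lit 0) (nat_lit 0x7fd267c38) (nat_lit 551565342),
  Rx.mk (nat_lit 147) (nat_lit 3) (nat_lit 2) (nat_lit 2) (nat_lit 7) (nat_lit 105) (nat_lit 44) r4_105 r7_44 (nat_lit 0) (nat_lit 0) (nat_lit 0) (nat_lit 0x80d93c616) (nat_lit 525035062),
  Rx.mk (nat_lit 176) (nat_lit 0) (nat_lit 6) (nat_lit 2) (nat_lit 6) (nat_lit 100) (nat_lit 40) r4_100 r7_40 (nat_lit 17421724) (nat_lit 0) (nat_lit 0) (nat_lit 0x804c6a3e6) (nat_lit 551019636),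
  Rx.mk (nat_lit 178) (nat_lit 2) (nat_lit 6) (nat_lit 2) (nat_lit 7) (nat_lit 101) (nat_lit 47) r4_101 r7_47 (nat_lit 0) (nat_lit 0) (nat_lit 0) (nat_lit 0x8017985b4) (nat_lit 536870912),
  Rx.mk (nat_lit 211) (nat_lit 3) (nat_lit 2) (nat_lit 3) (nat_lit 7) (nat_lit 106) (nat_lit 43) r4_106 r7_43 (nat_lit 0) (nat_lit 0) (nat_lit 0) (nat_lit 0x8017985b4) (nat_lit 536870912),
  Rx.mk (nat_lit 418) (nat_lit 2) (nat_lit 4) (nat_lit 6) (nat_lit 5) (nat_lit 102) (nat_lit 45) r4_102 r7_45 (nat_lit 0) (nat_lit 15103995) (nat_lit 0) (nat_lit 0x808086120) (nat_lit 545531857),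
  Rx.mk (nat_lit 434) (nat_lit 2) (nat_lit 6) (nat_lit 6) (nat_lit 7) (nat_lit 103) (nat_lit 46) r4_103 r7_46 (nat_lit 0) (nat_lit 0) (nat_lit 0) (nat_lit 0x8017985b4) (nat_lit 536870912)]
noncomputable def e51_40 : List Rx := [
  Rx.mk (nat_lit 17) (nat_lit 1) (nat_lit 2) (nat_lit 0) (nat_lit 3) (nat_lit 271) (nat_lit 158) r4_271 r2_158 (nat_lit 0) (nat_lit 0) (nat_lit 24741287) (nat_lit 0x8017985b4) (nat_lit 561612199),
  Rx.mk (nat_lit 145) (nat_lit 1) (nat_lit 2) (nat_lit 2) (nat_lit 7) (nat_lit 272) (nat_lit 159) r4_272 r2_159 (nat_lit 0) (nat_lit 0) (nat_lit 0) (nat_lit 0x8017985b4) (nat_lit 536870912)]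
noncomputable def e51_41 : List Rx := [
  Rx.mk (nat_lit 17) (nat_lit 1) (nat_lit 2) (nat_lit 0) (nat_lit 3) (nat_lit 276) (nat_lit 133) r4_276 r9_133 (nat_lit 0) (nat_lit 0) (nat_lit 24741287) (nat_lit 0x80035e648) (nat_lit 562847599),
  Rx.mk (nat_lit 145) (nat_lit 1) (nat_lit 2) (nat_lit 2) (nat_lit 7) (nat_lit 277) (nat_lit 134) r4_277 r9_134 (nat_lit 0) (nat_lit 0) (nat_lit 0) (nat_lit 0x8017985b4) (nat_lit 536870912),
  Rx.mk (nat_lit 177) (nat_lit 1) (nat_lit 6) (nat_lit 2) (nat_lit 7) (nat_lit 278) (nat_lit 135) r4_278 r9_135 (nat_lit 0) (nat_lit 0) (nat_lit 0) (nat_lit 0x8017985b4) (nat_lit 536870912)]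
noncomputable def e51_42 : List Rx := [
  Rx.mk (nat_lit 17) (nat_lit 1) (nat_lit 2) (nat_lit 0) (nat_lit 3) (nat_lit 273) (nat_lit 167) r4_273 r9_167 (nat_lit 0) (nat_lit 0) (nat_lit 24741287) (nat_lit 0x7fff3afc6) (nat_lit 563104399),
  Rx.mk (nat_lit 81) (nat_lit 1) (nat_lit 2) (nat_lit 1) (nat_lit 7) (nat_lit 274) (nat_lit 168) r4_274 r9_168 (nat_lit 0) (nat_lit 0) (nat_lit 0) (nat_lit 0x8017985b4) (nat_lit 536870912),
  Rx.mk (nat_lit 145) (nat_lit 1) (nat_lit 2) (nat_lit 2) (nat_lit 7) (nat_lit 275) (nat_lit 169) r4_275 r9_169 (nat_lit 0) (nat_lit 0) (nat_lit 0) (nat_lit 0x8017985b4) (nat_lit 536870912)]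
noncomputable def e51_43 : List Rx := [
  Rx.mk (nat_lit 16) (nat_lit 0) (nat_lit 2) (nat_lit 0) (nat_lit 2) (nat_lit 107) (nat_lit 154) r4_107 r1_154 (nat_lit 13326467) (nat_lit 0) (nat_lit 159743199) (nat_lit 0x73d78693c) (nat_lit 907207678),
  Rx.mk (nat_lit 17) (nat_lit 1) (nat_lit 2) (nat_lit 0) (nat_lit 3) (nat_lit 109) (nat_lit 155) r4_109 r1_155 (nat_lit 0) (nat_lit 0) (nat_lit 26051565) (nat_lit 0x8064f5dac) (nat_lit 558163527),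
  Rx.mk (nat_lit 19) (nat_lit 3) (nat_lit 2) (nat_lit 0) (nat_lit 3) (nat_lit 111) (nat_lit 156) r4_111 r1_156 (nat_lit 0) (nat_lit 0) (nat_lit 26855787) (nat_lit 0x80aa4da94) (nat_lit 554718499),
  Rx.mk (nat_lit 144) (nat_lit 0) (nat_lit 2) (nat_lit 2) (nat_lit 6) (nat_lit 108) (nat_lit 158) r4_108 r1_158 (nat_lit 21535191) (nat_lit 0) (nat_lit 0) (nat_lit 0x7c291a87c) (nat_lit 621319503),
  Rx.mk (nat_lit 145) (nat_lit 1) (nat_lit 2) (nat_lit 2) (nat_lit 7) (nat_lit 110) (nat_lit 159) r4_110 r1_159 (nat_lit 0) (nat_lit 0) (nat_lit 0) (nat_lit 0x807893f76) (nat_lit 530914262),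
  Rx.mk (nat_lit 147) (nat_lit 3) (nat_lit 2) (nat_lit 2) (nat_lit 7) (nat_lit 112) (nat_lit 160) r4_112 r1_160 (nat_lit 0) (nat_lit 0) (nat_lit 0) (nat_lit 0x8039d0276) (nat_lit 534761612),
  Rx.mk (nat_lit 211) (nat_lit 3) (nat_lit 2) (nat_lit 3) (nat_lit 7) (nat_lit 113) (nat_lit 157) r4_113 r1_157 (nat_lit 0) (nat_lit 0) (nat_lit 0) (nat_lit 0x8017985b4) (nat_lit 536870912)]
noncomputable def e51_44 : List Rx := [
  Rx.mk (nat_lit 16) (nat_lit 0) (nat_lit 2) (nat_lit 0) (nat_lit 2) (nat_lit 114) (nat_lit 47) r4_114 r8_47 (nat_lit 25528723) (nat_lit 0) (nat_lit 35927384) (nat_lit 0x6c2494650) (nat_lit 920149869),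
  Rx.mk (nat_lit 17) (nat_lit 1) (nat_lit 2) (nat_lit 0) (nat_lit 3) (nat_lit 117) (nat_lit 50) r4_117 r8_50 (nat_lit 0) (nat_lit 0) (nat_lit 24741287) (nat_lit 0x8005f42d6) (nat_lit 562689149),
  Rx.mk (nat_lit 19) (nat_lit 3) (nat_lit 2) (nat_lit 0) (nat_lit 3) (nat_lit 122) (nat_lit 53) r4_122 r8_53 (nat_lit 0) (nat_lit 0) (nat_lit 24741287) (nat_lit 0x8017985b4) (nat_lit 561612199),
  Rx.mk (nat_lit 144) (nat_lit 0) (nat_lit 2) (nat_lit 2) (nat_lit 6) (nat_lit 115) (nat_lit 49) r4_115 r8_49 (nat_lit 15426170) (nat_lit 0) (nat_lit 0) (nat_lit 0x7fa00e8ea) (nat_lit 559577782),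
  Rx.mk (nat_lit 145) (nat_lit 1) (nat_lit 2) (nat_lit 2) (nat_lit 7) (nat_lit 118) (nat_lit 52) r4_118 r8_52 (nat_lit 0) (nat_lit 0) (nat_lit 0) (nat_lit 0x8050765fc) (nat_lit 533378512),
  Rx.mk (nat_lit 147) (nat_lit 3) (nat_lit 2) (nat_lit 2) (nat_lit 7) (nat_lit 123) (nat_lit 55) r4_123 r8_55 (nat_lit 0) (nat_lit 0) (nat_lit 0) (nat_lit 0x80507696c) (nat_lit 533378462),
  Rx.mk (nat_lit 176) (nat_lit 0) (nat_lit 6) (nat_lit 2) (nat_lit 6) (nat_lit 116) (nat_lit 48) r4_116 r8_48 (nat_lit 19539304) (nat_lit 0) (nat_lit 0) (nat_lit 0x7feeea77a) (nat_lit 558873116),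
  Rx.mk (nat_lit 177) (nat_lit 1) (nat_lit 6) (nat_lit 2) (nat_lit 7) (nat_lit 119) (nat_lit 51) r4_119 r8_51 (nat_lit 0) (nat_lit 0) (nat_lit 0) (nat_lit 0x8017985b4) (nat_lit 536870912),
  Rx.mk (nat_lit 178) (nat_lit 2) (nat_lit 6) (nat_lit 2) (nat_lit 7) (nat_lit 120) (nat_lit 57) r4_120 r8_57 (nat_lit 0) (nat_lit 0) (nat_lit 0) (nat_lit 0x8017985b4) (nat_lit 536870912),
  Rx.mk (nat_lit 211) (nat_lit 3) (nat_lit 2) (nat_lit 3) (nat_lit 7) (nat_lit 124) (nat_lit 54) r4_124 r8_54 (nat_lit 0) (nat_lit 0) (nat_lit 0) (nat_lit 0x8017985b4) (nat_lit 536870912),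
  Rx.mk (nat_lit 434) (nat_lit 2) (nat_lit 6) (nat_lit 6) (nat_lit 7) (nat_lit 121) (nat_lit 56) r4_121 r8_56 (nat_lit 0) (nat_lit 0) (nat_lit 0) (nat_lit 0x8017985b4) (nat_lit 536870912)]
noncomputable def e51_45 : List Rx := [
  Rx.mk (nat_lit 178) (nat_lit 2) (nat_lit 6) (nat_lit 2) (nat_lit 7) (nat_lit 13) (nat_lit 57) r4_13 r1_57 (nat_lit 0) (nat_lit 0) (nat_lit 0) (nat_lit 0x8007403f6) (nat_lit 537871262),
  Rx.mk (nat_lit 294) (nat_lit 6) (nat_lit 4) (nat_lit 4) (nat_lit 1) (nat_lit 16) (nat_lit 50) r4_16 r1_50 (nat_lit 0) (nat_lit 12415695) (nat_lit 67051359) (nat_lit 0x6dd5f0330) (nat_lit 910715916),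
  Rx.mk (nat_lit 318) (nat_lit 6) (nat_lit 7) (nat_lit 4) (nat_lit 3) (nat_lit 17) (nat_lit 51) r4_17 r1_51 (nat_lit 0) (nat_lit 0) (nat_lit 32103431) (nat_lit 0x7f4592056) (nat_lit 581897443),
  Rx.mk (nat_lit 418) (nat_lit 2) (nat_lit 4) (nat_lit 6) (nat_lit 5) (nat_lit 14) (nat_lit 55) r4_14 r1_55 (nat_lit 0) (nat_lit 13824857) (nat_lit 0) (nat_lit 0x8053119f6) (nat_lit 546991619),
  Rx.mk (nat_lit 422) (nat_lit 6) (nat_lit 4) (nat_lit 6) (nat_lit 5) (nat_lit 18) (nat_lit 53) r4_18 r1_53 (nat_lit 0) (nat_lit 18565138) (nat_lit 0) (nat_lit 0x7e088a2e0) (nat_lit 588194500),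
  Rx.mk (nat_lit 434) (nat_lit 2) (nat_lit 6) (nat_lit 6) (nat_lit 7) (nat_lit 15) (nat_lit 56) r4_15 r1_56 (nat_lit 0) (nat_lit 0) (nat_lit 0) (nat_lit 0x8078ceb44) (nat_lit 530903862),
  Rx.mk (nat_lit 446) (nat_lit 6) (nat_lit 7) (nat_lit 6) (nat_lit 7) (nat_lit 19) (nat_lit 54) r4_19 r1_54 (nat_lit 0) (nat_lit 0) (nat_lit 0) (nat_lit 0x8017985b4) (nat_lit 536870912),
  Rx.mk (nat_lit 510) (nat_lit 6) (nat_lit 7) (nat_lit 7) (nat_lit 7) (nat_lit 20) (nat_lit 52) r4_20 r1_52 (nat_lit 0) (nat_lit 0) (nat_lit 0) (nat_lit 0x8256757bc) (nat_lit 501986312)]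
noncomputable def e51_46 : List Rx := [
  Rx.mk (nat_lit 294) (nat_lit 6) (nat_lit 4) (nat_lit 4) (nat_lit 1) (nat_lit 24) (nat_lit 47) r4_24 r2_47 (nat_lit 0) (nat_lit 4698401) (nat_lit 8468611) (nat_lit 0x6f73fce92) (nat_lit 818155574),
  Rx.mk (nat_lit 302) (nat_lit 6) (nat_lit 5) (nat_lit 4) (nat_lit 3) (nat_lit 25) (nat_lit 48) r4_25 r2_48 (nat_lit 0) (nat_lit 0) (nat_lit 26453388) (nat_lit 0x802d4deae) (nat_lit 561974850),
  Rx.mk (nat_lit 418) (nat_lit 2) (nat_lit 4) (nat_lit 6) (nat_lit 5) (nat_lit 21) (nat_lit 54) r4_21 r2_54 (nat_lit 0) (nat_lit 16949147) (nat_lit 0) (nat_lit 0x80890f31e) (nat_lit 546864309),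
  Rx.mk (nat_lit 422) (nat_lit 6) (nat_lit 4) (nat_lit 6) (nat_lit 5) (nat_lit 26) (nat_lit 52) r4_26 r2_52 (nat_lit 0) (nat_lit 18137495) (nat_lit 0) (nat_lit 0x807289324) (nat_lit 549428707),
  Rx.mk (nat_lit 426) (nat_lit 2) (nat_lit 5) (nat_lit 6) (nat_lit 7) (nat_lit 22) (nat_lit 55) r4_22 r2_55 (nat_lit 0) (nat_lit 0) (nat_lit 0) (nat_lit 0x8017985b4) (nat_lit 536870912),
  Rx.mk (nat_lit 430) (nat_lit 6) (nat_lit 5) (nat_lit 6) (nat_lit 7) (nat_lit 27) (nat_lit 53) r4_27 r2_53 (nat_lit 0) (nat_lit 0) (nat_lit 0) (nat_lit 0x8017985b4) (nat_lit 536870912),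
  Rx.mk (nat_lit 434) (nat_lit 2) (nat_lit 6) (nat_lit 6) (nat_lit 7) (nat_lit 23) (nat_lit 56) r4_23 r2_56 (nat_lit 0) (nat_lit 0) (nat_lit 0) (nat_lit 0x8017985b4) (nat_lit 536870912),
  Rx.mk (nat_lit 486) (nat_lit 6) (nat_lit 4) (nat_lit 7) (nat_lit 5) (nat_lit 28) (nat_lit 49) r4_28 r2_49 (nat_lit 0) (nat_lit 4236250) (nat_lit 0) (nat_lit 0x81374ce9a) (nat_lit 523350712),
  Rx.mk (nat_lit 494) (nat_lit 6) (nat_lit 5) (nat_lit 7) (nat_lit 7) (nat_lit 29) (nat_lit 50) r4_29 r2_50 (nat_lit 0) (nat_lit 0) (nat_lit 0) (nat_lit 0x817902fd8) (nat_lit 515379662),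
  Rx.mk (nat_lit 510) (nat_lit 6) (nat_lit 7) (nat_lit 7) (nat_lit 7) (nat_lit 30) (nat_lit 51) r4_30 r2_51 (nat_lit 0) (nat_lit 0) (nat_lit 0) (nat_lit 0x8173c4f94) (nat_lit 515699662)]
noncomputable def e51_47 : List Rx := [
  Rx.mk (nat_lit 178) (nat_lit 2) (nat_lit 6) (nat_lit 2) (nat_lit 7) (nat_lit 125) (nat_lit 147) r4_125 r8_147 (nat_lit 0) (nat_lit 0) (nat_lit 0) (nat_lit 0x8017985b4) (nat_lit 536870912),
  Rx.mk (nat_lit 418) (nat_lit 2) (nat_lit 4) (nat_lit 6) (nat_lit 5) (nat_lit 126) (nat_lit 146) r4_126 r8_146 (nat_lit 0) (nat_lit 22851491) (nat_lit 0) (nat_lit 0x7fa9b2676) (nat_lit 566471853),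
  Rx.mk (nat_lit 434) (nat_lit 2) (nat_lit 6) (nat_lit 6) (nat_lit 7) (nat_lit 127) (nat_lit 148) r4_127 r8_148 (nat_lit 0) (nat_lit 0) (nat_lit 0) (nat_lit 0x8017985b4) (nat_lit 536870912)]
noncomputable def e51_48 : List Rx := [
  Rx.mk (nat_lit 418) (nat_lit 2) (nat_lit 4) (nat_lit 6) (nat_lit 5) (nat_lit 128) (nat_lit 15) r4_128 r9_15 (nat_lit 0) (nat_lit 24741287) (nat_lit 0) (nat_lit 0x8017985b4) (nat_lit 561612199),
  Rx.mk (nat_lit 426) (nat_lit 2) (nat_lit 5) (nat_lit 6) (nat_lit 7) (nat_lit 129) (nat_lit 16) r4_129 r9_16 (nat_lit 0) (nat_lit 0) (nat_lit 0) (nat_lit 0x8017985b4) (nat_lit 536870912),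
  Rx.mk (nat_lit 434) (nat_lit 2) (nat_lit 6) (nat_lit 6) (nat_lit 7) (nat_lit 130) (nat_lit 17) r4_130 r9_17 (nat_lit 0) (nat_lit 0) (nat_lit 0) (nat_lit 0x8017985b4) (nat_lit 536870912)]
noncomputable def e51_49 : List Rx := [
  Rx.mk (nat_lit 294) (nat_lit 6) (nat_lit 4) (nat_lit 4) (nat_lit 1) (nat_lit 147) (nat_lit 50) r4_147 r9_50 (nat_lit 0) (nat_lit 16343874) (nat_lit 18784265) (nat_lit 0x65a8d64ce) (nat_lit 998625001),
  Rx.mk (nat_lit 302) (nat_lit 6) (nat_lit 5) (nat_lit 4) (nat_lit 3) (nat_lit 148) (nat_lit 51) r4_148 r9_51 (nat_lit 0) (nat_lit 0) (nat_lit 24741287) (nat_lit 0x8017985b4) (nat_lit 561612199),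
  Rx.mk (nat_lit 366) (nat_lit 6) (nat_lit 5) (nat_lit 5) (nat_lit 7) (nat_lit 149) (nat_lit 52) r4_149 r9_52 (nat_lit 0) (nat_lit 0) (nat_lit 0) (nat_lit 0x8017985b4) (nat_lit 536870912),
  Rx.mk (nat_lit 418) (nat_lit 2) (nat_lit 4) (nat_lit 6) (nat_lit 5) (nat_lit 144) (nat_lit 56) r4_144 r9_56 (nat_lit 0) (nat_lit 24741287) (nat_lit 0) (nat_lit 0x8017985b4) (nat_lit 561612199),
  Rx.mk (nat_lit 422) (nat_lit 6) (nat_lit 4) (nat_lit 6) (nat_lit 5) (nat_lit 150) (nat_lit 59) r4_150 r9_59 (nat_lit 0) (nat_lit 24741287) (nat_lit 0) (nat_lit 0x7ff8b06c4) (nat_lit 563504749),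
  Rx.mk (nat_lit 426) (nat_lit 2) (nat_lit 5) (nat_lit 6) (nat_lit 7) (nat_lit 145) (nat_lit 57) r4_145 r9_57 (nat_lit 0) (nat_lit 0) (nat_lit 0) (nat_lit 0x8017985b4) (nat_lit 536870912),
  Rx.mk (nat_lit 430) (nat_lit 6) (nat_lit 5) (nat_lit 6) (nat_lit 7) (nat_lit 151) (nat_lit 60) r4_151 r9_60 (nat_lit 0) (nat_lit 0) (nat_lit 0) (nat_lit 0x8017985b4) (nat_lit 536870912),
  Rx.mk (nat_lit 434) (nat_lit 2) (nat_lit 6) (nat_lit 6) (nat_lit 7) (nat_lit 146) (nat_lit 58) r4_146 r9_58 (nat_lit 0) (nat_lit 0) (nat_lit 0) (nat_lit 0x8017985b4) (nat_lit 536870912),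
  Rx.mk (nat_lit 486) (nat_lit 6) (nat_lit 4) (nat_lit 7) (nat_lit 5) (nat_lit 152) (nat_lit 53) r4_152 r9_53 (nat_lit 0) (nat_lit 24741287) (nat_lit 0) (nat_lit 0x8017985b4) (nat_lit 561612199),
  Rx.mk (nat_lit 494) (nat_lit 6) (nat_lit 5) (nat_lit 7) (nat_lit 7) (nat_lit 153) (nat_lit 54) r4_153 r9_54 (nat_lit 0) (nat_lit 0) (nat_lit 0) (nat_lit 0x8017985b4) (nat_lit 536870912),
  Rx.mk (nat_lit 510) (nat_lit 6) (nat_lit 7) (nat_lit 7) (nat_lit 7) (nat_lit 154) (nat_lit 55) r4_154 r9_55 (nat_lit 0) (nat_lit 0) (nat_lit 0) (nat_lit 0x8017985b4) (nat_lit 536870912)]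
noncomputable def e51_50 : List Rx := [
  Rx.mk (nat_lit 19) (nat_lit 3) (nat_lit 2) (nat_lit 0) (nat_lit 3) (nat_lit 31) (nat_lit 47) r4_31 r3_47 (nat_lit 0) (nat_lit 0) (nat_lit 24740) (nat_lit 0x7ff7bed42) (nat_lit 537418902),
  Rx.mk (nat_lit 147) (nat_lit 3) (nat_lit 2) (nat_lit 2) (nat_lit 7) (nat_lit 32) (nat_lit 49) r4_32 r3_49 (nat_lit 0) (nat_lit 0) (nat_lit 0) (nat_lit 0x7990b12cc) (nat_lit 641633562),
  Rx.mk (nat_lit 199) (nat_lit 7) (nat_lit 0) (nat_lit 3) (nat_lit 5) (nat_lit 36) (nat_lit 43) r4_36 r3_43 (nat_lit 0) (nat_lit 631050) (nat_lit 0) (nat_lit 0x80795a612) (nat_lit 530585312),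
  Rx.mk (nat_lit 211) (nat_lit 3) (nat_lit 2) (nat_lit 3) (nat_lit 7) (nat_lit 33) (nat_lit 48) r4_33 r3_48 (nat_lit 0) (nat_lit 0) (nat_lit 0) (nat_lit 0x8112e8e28) (nat_lit 521452962),
  Rx.mk (nat_lit 215) (nat_lit 7) (nat_lit 2) (nat_lit 3) (nat_lit 7) (nat_lit 37) (nat_lit 45) r4_37 r3_45 (nat_lit 0) (nat_lit 0) (nat_lit 0) (nat_lit 0x80712030c) (nat_lit 531200012),
  Rx.mk (nat_lit 223) (nat_lit 7) (nat_lit 3) (nat_lit 3) (nat_lit 7) (nat_lit 38) (nat_lit 44) r4_38 r3_44 (nat_lit 0) (nat_lit 0) (nat_lit 0) (nat_lit 0x806259120) (nat_lit 532277862),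
  Rx.mk (nat_lit 476) (nat_lit 4) (nat_lit 3) (nat_lit 7) (nat_lit 6) (nat_lit 34) (nat_lit 41) r4_34 r3_41 (nat_lit 929445) (nat_lit 0) (nat_lit 0) (nat_lit 0x7e1ef5642) (nat_lit 568442957),
  Rx.mk (nat_lit 478) (nat_lit 6) (nat_lit 3) (nat_lit 7) (nat_lit 7) (nat_lit 35) (nat_lit 46) r4_35 r3_46 (nat_lit 0) (nat_lit 0) (nat_lit 0) (nat_lit 0x7fc8e9274) (nat_lit 540391512),
  Rx.mk (nat_lit 479) (nat_lit 7) (nat_lit 3) (nat_lit 7) (nat_lit 7) (nat_lit 39) (nat_lit 42) r4_39 r3_42 (nat_lit 0) (nat_lit 0) (nat_lit 0) (nat_lit 0x802f141c0) (nat_lit 535365262)]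
noncomputable def e51_51 : List Rx := [
  Rx.mk (nat_lit 19) (nat_lit 3) (nat_lit 2) (nat_lit 0) (nat_lit 3) (nat_lit 45) (nat_lit 50) r4_45 r4_50 (nat_lit 0) (nat_lit 0) (nat_lit 46073) (nat_lit 0x7fd3d4b02) (nat_lit 539721735),
  Rx.mk (nat_lit 147) (nat_lit 3) (nat_lit 2) (nat_lit 2) (nat_lit 7) (nat_lit 46) (nat_lit 53) r4_46 r4_53 (nat_lit 0) (nat_lit 0) (nat_lit 0) (nat_lit 0x7ecfb6c88) (nat_lit 556095412),
  Rx.mk (nat_lit 176) (nat_lit 0) (nat_lit 6) (nat_lit 2) (nat_lit 6) (nat_lit 40) (nat_lit 49) r4_40 r4_49 (nat_lit 47488) (nat_lit 0) (nat_lit 0) (nat_lit 0x7f4c14ed8) (nat_lit 548301250),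
  Rx.mk (nat_lit 178) (nat_lit 2) (nat_lit 6) (nat_lit 2) (nat_lit 7) (nat_lit 41) (nat_lit 57) r4_41 r4_57 (nat_lit 0) (nat_lit 0) (nat_lit 0) (nat_lit 0x833e66080) (nat_lit 488151412),
  Rx.mk (nat_lit 179) (nat_lit 3) (nat_lit 6) (nat_lit 2) (nat_lit 7) (nat_lit 47) (nat_lit 52) r4_47 r4_52 (nat_lit 0) (nat_lit 0) (nat_lit 0) (nat_lit 0x8245b8b4a) (nat_lit 503024812),
  Rx.mk (nat_lit 199) (nat_lit 7) (nat_lit 0) (nat_lit 3) (nat_lit 5) (nat_lit 54) (nat_lit 42) r4_54 r4_42 (nat_lit 0) (nat_lit 21693) (nat_lit 0) (nat_lit 0x7f520135a) (nat_lit 547891305),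
  Rx.mk (nat_lit 211) (nat_lit 3) (nat_lit 2) (nat_lit 3) (nat_lit 7) (nat_lit 48) (nat_lit 51) r4_48 r4_51 (nat_lit 0) (nat_lit 0) (nat_lit 0) (nat_lit 0x843b695d4) (nat_lit 473034362),
  Rx.mk (nat_lit 215) (nat_lit 7) (nat_lit 2) (nat_lit 3) (nat_lit 7) (nat_lit 55) (nat_lit 44) r4_55 r4_44 (nat_lit 0) (nat_lit 0) (nat_lit 0) (nat_lit 0x81a8d71a0) (nat_lit 512426612),
  Rx.mk (nat_lit 223) (nat_lit 7) (nat_lit 3) (nat_lit 3) (nat_lit 7) (nat_lit 56) (nat_lit 43) r4_56 r4_43 (nat_lit 0) (nat_lit 0) (nat_lit 0) (nat_lit 0x823ed6796) (nat_lit 503474812),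
  Rx.mk (nat_lit 318) (nat_lit 6) (nat_lit 7) (nat_lit 4) (nat_lit 3) (nat_lit 50) (nat_lit 45) r4_50 r4_45 (nat_lit 0) (nat_lit 0) (nat_lit 46073) (nat_lit 0x7fd3d4b02) (nat_lit 539721735),
  Rx.mk (nat_lit 418) (nat_lit 2) (nat_lit 4) (nat_lit 6) (nat_lit 5) (nat_lit 42) (nat_lit 54) r4_42 r4_54 (nat_lit 0) (nat_lit 21693) (nat_lit 0) (nat_lit 0x7f520135a) (nat_lit 547891305),
  Rx.mk (nat_lit 434) (nat_lit 2) (nat_lit 6) (nat_lit 6) (nat_lit 7) (nat_lit 43) (nat_lit 56) r4_43 r4_56 (nat_lit 0) (nat_lit 0) (nat_lit 0) (nat_lit 0x823ed6796) (nat_lit 503474812),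
  Rx.mk (nat_lit 442) (nat_lit 2) (nat_lit 7) (nat_lit 6) (nat_lit 7) (nat_lit 44) (nat_lit 55) r4_44 r4_55 (nat_lit 0) (nat_lit 0) (nat_lit 0) (nat_lit 0x81a8d71a0) (nat_lit 512426612),
  Rx.mk (nat_lit 446) (nat_lit 6) (nat_lit 7) (nat_lit 6) (nat_lit 7) (nat_lit 51) (nat_lit 48) r4_51 r4_48 (nat_lit 0) (nat_lit 0) (nat_lit 0) (nat_lit 0x843b695d4) (nat_lit 473034362),
  Rx.mk (nat_lit 476) (nat_lit 4) (nat_lit 3) (nat_lit 7) (nat_lit 6) (nat_lit 49) (nat_lit 40) r4_49 r4_40 (nat_lit 47488) (nat_lit 0) (nat_lit 0) (nat_lit 0x7f4c14ed8) (nat_lit 548301250),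
  Rx.mk (nat_lit 478) (nat_lit 6) (nat_lit 3) (nat_lit 7) (nat_lit 7) (nat_lit 52) (nat_lit 47) r4_52 r4_47 (nat_lit 0) (nat_lit 0) (nat_lit 0) (nat_lit 0x8245b8b4a) (nat_lit 503024812),
  Rx.mk (nat_lit 479) (nat_lit 7) (nat_lit 3) (nat_lit 7) (nat_lit 7) (nat_lit 57) (nat_lit 41) r4_57 r4_41 (nat_lit 0) (nat_lit 0) (nat_lit 0) (nat_lit 0x833e66080) (nat_lit 488151412),
  Rx.mk (nat_lit 510) (nat_lit 6) (nat_lit 7) (nat_lit 7) (nat_lit 7) (nat_lit 53) (nat_lit 46) r4_53 r4_46 (nat_lit 0) (nat_lit 0) (nat_lit 0) (nat_lit 0x7ecfb6c88) (nat_lit 556095412)]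
noncomputable def e51_52 : List Rx := [
  Rx.mk (nat_lit 199) (nat_lit 7) (nat_lit 0) (nat_lit 3) (nat_lit 5) (nat_lit 61) (nat_lit 30) r4_61 r5_30 (nat_lit 0) (nat_lit 2696286) (nat_lit 0) (nat_lit 0x7ed2b6d5c) (nat_lit 559201548),
  Rx.mk (nat_lit 211) (nat_lit 3) (nat_lit 2) (nat_lit 3) (nat_lit 7) (nat_lit 58) (nat_lit 33) r4_58 r5_33 (nat_lit 0) (nat_lit 0) (nat_lit 0) (nat_lit 0x7f5b0655e) (nat_lit 548352312),
  Rx.mk (nat_lit 215) (nat_lit 7) (nat_lit 2) (nat_lit 3) (nat_lit 7) (nat_lit 62) (nat_lit 31) r4_62 r5_31 (nat_lit 0) (nat_lit 0) (nat_lit 0) (nat_lit 0x80e735e2a) (nat_lit 524112462),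
  Rx.mk (nat_lit 455) (nat_lit 7) (nat_lit 0) (nat_lit 7) (nat_lit 5) (nat_lit 63) (nat_lit 28) r4_63 r5_28 (nat_lit 0) (nat_lit 8135991) (nat_lit 0) (nat_lit 0x79057fe38) (nat_lit 658530703),
  Rx.mk (nat_lit 476) (nat_lit 4) (nat_lit 3) (nat_lit 7) (nat_lit 6) (nat_lit 59) (nat_lit 27) r4_59 r5_27 (nat_lit 6174630) (nat_lit 0) (nat_lit 0) (nat_lit 0x7de1761fe) (nat_lit 578007592),
  Rx.mk (nat_lit 478) (nat_lit 6) (nat_lit 3) (nat_lit 7) (nat_lit 7) (nat_lit 60) (nat_lit 32) r4_60 r5_32 (nat_lit 0) (nat_lit 0) (nat_lit 0) (nat_lit 0x80483a47e) (nat_lit 532926012),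
  Rx.mk (nat_lit 479) (nat_lit 7) (nat_lit 3) (nat_lit 7) (nat_lit 7) (nat_lit 64) (nat_lit 29) r4_64 r5_29 (nat_lit 0) (nat_lit 0) (nat_lit 0) (nat_lit 0x80009fe20) (nat_lit 538237112)]
noncomputable def e51_53 : List Rx := [
  Rx.mk (nat_lit 19) (nat_lit 3) (nat_lit 2) (nat_lit 0) (nat_lit 3) (nat_lit 131) (nat_lit 131) r4_131 r4_131 (nat_lit 0) (nat_lit 0) (nat_lit 240605632) (nat_lit 0x7ff1aa79e) (nat_lit 779445244),
  Rx.mk (nat_lit 147) (nat_lit 3) (nat_lit 2) (nat_lit 2) (nat_lit 7) (nat_lit 132) (nat_lit 133) r4_132 r4_133 (nat_lit 0) (nat_lit 0) (nat_lit 0) (nat_lit 0x7fdb12f9a) (nat_lit 540544312),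
  Rx.mk (nat_lit 211) (nat_lit 3) (nat_lit 2) (nat_lit 3) (nat_lit 7) (nat_lit 133) (nat_lit 132) r4_133 r4_132 (nat_lit 0) (nat_lit 0) (nat_lit 0) (nat_lit 0x7fdb12f9a) (nat_lit 540544312)]
noncomputable def e51_54 : List Rx := [
  Rx.mk (nat_lit 19) (nat_lit 3) (nat_lit 2) (nat_lit 0) (nat_lit 3) (nat_lit 139) (nat_lit 24) r4_139 r10_24 (nat_lit 0) (nat_lit 0) (nat_lit 24676068) (nat_lit 0x7e8afe690) (nat_lit 586102830),
  Rx.mk (nat_lit 147) (nat_lit 3) (nat_lit 2) (nat_lit 2) (nat_lit 7) (nat_lit 140) (nat_lit 27) r4_140 r10_27 (nat_lit 0) (nat_lit 0) (nat_lit 0) (nat_lit 0x809f243f2) (nat_lit 528567662),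
  Rx.mk (nat_lit 176) (nat_lit 0) (nat_lit 6) (nat_lit 2) (nat_lit 6) (nat_lit 134) (nat_lit 23) r4_134 r10_23 (nat_lit 19244630) (nat_lit 0) (nat_lit 0) (nat_lit 0x801080380) (nat_lit 556512792),
  Rx.mk (nat_lit 178) (nat_lit 2) (nat_lit 6) (nat_lit 2) (nat_lit 7) (nat_lit 135) (nat_lit 31) r4_135 r10_31 (nat_lit 0) (nat_lit 0) (nat_lit 0) (nat_lit 0x8017985b4) (nat_lit 536870912),
  Rx.mk (nat_lit 179) (nat_lit 3) (nat_lit 6) (nat_lit 2) (nat_lit 7) (nat_lit 141) (nat_lit 26) r4_141 r10_26 (nat_lit 0) (nat_lit 0) (nat_lit 0) (nat_lit 0x8017985b4) (nat_lit 536870912),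
  Rx.mk (nat_lit 211) (nat_lit 3) (nat_lit 2) (nat_lit 3) (nat_lit 7) (nat_lit 142) (nat_lit 25) r4_142 r10_25 (nat_lit 0) (nat_lit 0) (nat_lit 0) (nat_lit 0x8017985b4) (nat_lit 536870912),
  Rx.mk (nat_lit 418) (nat_lit 2) (nat_lit 4) (nat_lit 6) (nat_lit 5) (nat_lit 136) (nat_lit 28) r4_136 r10_28 (nat_lit 0) (nat_lit 12224820) (nat_lit 0) (nat_lit 0x806946df2) (nat_lit 544040032),
  Rx.mk (nat_lit 434) (nat_lit 2) (nat_lit 6) (nat_lit 6) (nat_lit 7) (nat_lit 137) (nat_lit 30) r4_137 r10_30 (nat_lit 0) (nat_lit 0) (nat_lit 0) (nat_lit 0x8017985b4) (nat_lit 536870912),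
  Rx.mk (nat_lit 442) (nat_lit 2) (nat_lit 7) (nat_lit 6) (nat_lit 7) (nat_lit 138) (nat_lit 29) r4_138 r10_29 (nat_lit 0) (nat_lit 0) (nat_lit 0) (nat_lit 0x804468c56) (nat_lit 534115312)]
noncomputable def e51_55 : List Rx := [
  Rx.mk (nat_lit 211) (nat_lit 3) (nat_lit 2) (nat_lit 3) (nat_lit 7) (nat_lit 143) (nat_lit 8) r4_143 r11_8 (nat_lit 0) (nat_lit 0) (nat_lit 0) (nat_lit 0x7ff232496) (nat_lit 539166062)]
noncomputable def e51_56 : List Rx := [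
  Rx.mk (nat_lit 7) (nat_lit 7) (nat_lit 0) (nat_lit 0) (nat_lit 1) (nat_lit 200) (nat_lit 124) r4_200 r5_124 (nat_lit 0) (nat_lit 19134) (nat_lit 27807) (nat_lit 0x6beaf468e) (nat_lit 861670253),
  Rx.mk (nat_lit 19) (nat_lit 3) (nat_lit 2) (nat_lit 0) (nat_lit 3) (nat_lit 195) (nat_lit 130) r4_195 r5_130 (nat_lit 0) (nat_lit 0) (nat_lit 202248689) (nat_lit 0x7fd88729e) (nat_lit 741698201),
  Rx.mk (nat_lit 23) (nat_lit 7) (nat_lit 2) (nat_lit 0) (nat_lit 3) (nat_lit 201) (nat_lit 131) r4_201 r5_131 (nat_lit 0) (nat_lit 0) (nat_lit 11917208) (nat_lit 0x7c8e48028) (nat_lit 605161420),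
  Rx.mk (nat_lit 147) (nat_lit 3) (nat_lit 2) (nat_lit 2) (nat_lit 7) (nat_lit 196) (nat_lit 133) r4_196 r5_133 (nat_lit 0) (nat_lit 0) (nat_lit 0) (nat_lit 0x7f0ea3518) (nat_lit 553137312),
  Rx.mk (nat_lit 199) (nat_lit 7) (nat_lit 0) (nat_lit 3) (nat_lit 5) (nat_lit 202) (nat_lit 125) r4_202 r5_125 (nat_lit 0) (nat_lit 4444174) (nat_lit 0) (nat_lit 0x7f2401202) (nat_lit 556007186),
  Rx.mk (nat_lit 215) (nat_lit 7) (nat_lit 2) (nat_lit 3) (nat_lit 7) (nat_lit 203) (nat_lit 132) r4_203 r5_132 (nat_lit 0) (nat_lit 0) (nat_lit 0) (nat_lit 0x80931c514) (nat_lit 529274562),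
  Rx.mk (nat_lit 220) (nat_lit 4) (nat_lit 3) (nat_lit 3) (nat_lit 6) (nat_lit 197) (nat_lit 126) r4_197 r5_126 (nat_lit 10127202) (nat_lit 0) (nat_lit 0) (nat_lit 0x78e0d6154) (nat_lit 662850514),
  Rx.mk (nat_lit 223) (nat_lit 7) (nat_lit 3) (nat_lit 3) (nat_lit 7) (nat_lit 204) (nat_lit 127) r4_204 r5_127 (nat_lit 0) (nat_lit 0) (nat_lit 0) (nat_lit 0x8017985b4) (nat_lit 536870912),
  Rx.mk (nat_lit 476) (nat_lit 4) (nat_lit 3) (nat_lit 7) (nat_lit 6) (nat_lit 198) (nat_lit 128) r4_198 r5_128 (nat_lit 4758833) (nat_lit 0) (nat_lit 0) (nat_lit 0x72642244c) (nat_lit 762218945),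
  Rx.mk (nat_lit 478) (nat_lit 6) (nat_lit 3) (nat_lit 7) (nat_lit 7) (nat_lit 199) (nat_lit 129) r4_199 r5_129 (nat_lit 0) (nat_lit 0) (nat_lit 0) (nat_lit 0x7eb750676) (nat_lit 558254112)]
noncomputable def e51_57 : List Rx := [
  Rx.mk (nat_lit 7) (nat_lit 7) (nat_lit 0) (nat_lit 0) (nat_lit 1) (nat_lit 212) (nat_lit 125) r4_212 r11_125 (nat_lit 0) (nat_lit 514055) (nat_lit 616962) (nat_lit 0x69c2df4b6) (nat_lit 897748479),
  Rx.mk (nat_lit 19) (nat_lit 3) (nat_lit 2) (nat_lit 0) (nat_lit 3) (nat_lit 205) (nat_lit 131) r4_205 r11_131 (nat_lit 0) (nat_lit 0) (nat_lit 31334360) (nat_lit 0x7f54de2a8) (nat_lit 580083322),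
  Rx.mk (nat_lit 23) (nat_lit 7) (nat_lit 2) (nat_lit 0) (nat_lit 3) (nat_lit 213) (nat_lit 132) r4_213 r11_132 (nat_lit 0) (nat_lit 0) (nat_lit 13764592) (nat_lit 0x8088c91ca) (nat_lit 543663854),
  Rx.mk (nat_lit 147) (nat_lit 3) (nat_lit 2) (nat_lit 2) (nat_lit 7) (nat_lit 206) (nat_lit 134) r4_206 r11_134 (nat_lit 0) (nat_lit 0) (nat_lit 0) (nat_lit 0x81e84d53c) (nat_lit 508548712),
  Rx.mk (nat_lit 179) (nat_lit 3) (nat_lit 6) (nat_lit 2) (nat_lit 7) (nat_lit 207) (nat_lit 136) r4_207 r11_136 (nat_lit 0) (nat_lit 0) (nat_lit 0) (nat_lit 0x825f8dcd2) (nat_lit 501520162),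
  Rx.mk (nat_lit 199) (nat_lit 7) (nat_lit 0) (nat_lit 3) (nat_lit 5) (nat_lit 214) (nat_lit 126) r4_214 r11_126 (nat_lit 0) (nat_lit 10106242) (nat_lit 0) (nat_lit 0x8153a01f0) (nat_lit 527714454),
  Rx.mk (nat_lit 215) (nat_lit 7) (nat_lit 2) (nat_lit 3) (nat_lit 7) (nat_lit 215) (nat_lit 133) r4_215 r11_133 (nat_lit 0) (nat_lit 0) (nat_lit 0) (nat_lit 0x807403de4) (nat_lit 531198062),
  Rx.mk (nat_lit 220) (nat_lit 4) (nat_lit 3) (nat_lit 3) (nat_lit 6) (nat_lit 208) (nat_lit 127) r4_208 r11_127 (nat_lit 12952000) (nat_lit 0) (nat_lit 0) (nat_lit 0x80562ac28) (nat_lit 545915612),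
  Rx.mk (nat_lit 223) (nat_lit 7) (nat_lit 3) (nat_lit 3) (nat_lit 7) (nat_lit 216) (nat_lit 128) r4_216 r11_128 (nat_lit 0) (nat_lit 0) (nat_lit 0) (nat_lit 0x80812fcde) (nat_lit 530394062),
  Rx.mk (nat_lit 476) (nat_lit 4) (nat_lit 3) (nat_lit 7) (nat_lit 6) (nat_lit 209) (nat_lit 129) r4_209 r11_129 (nat_lit 13063204) (nat_lit 0) (nat_lit 0) (nat_lit 0x7f229ebd0) (nat_lit 564962416),
  Rx.mk (nat_lit 478) (nat_lit 6) (nat_lit 3) (nat_lit 7) (nat_lit 7) (nat_lit 210) (nat_lit 130) r4_210 r11_130 (nat_lit 0) (nat_lit 0) (nat_lit 0) (nat_lit 0x81dd34f24) (nat_lit 509302462),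
  Rx.mk (nat_lit 510) (nat_lit 6) (nat_lit 7) (nat_lit 7) (nat_lit 7) (nat_lit 211) (nat_lit 135) r4_211 r11_135 (nat_lit 0) (nat_lit 0) (nat_lit 0) (nat_lit 0x80f168d7a) (nat_lit 523350662)]
noncomputable def e51 : List (List Rx) := [e51_0, e51_1, e51_2, e51_3, e51_4, e51_5, e51_6, e51_7, e51_8, e51_9, e51_10, e51_11, e51_12, e51_13, e51_14, e51_15, e51_16, e51_17, e51_18, e51_19, e51_20, e51_21, e51_22, e51_23, e51_24, e51_25, e51_26, e51_27, e51_28, e51_29, e51_30, e51_31, e51_32, e51_33, e51_34, e51_35, e51_36, e51_37, e51_38, e51_39, e51_40, e51_41, e51_42, e51_43, e51_44, e51_45, e51_46, e51_47, e51_48, e51_49, e51_50, e51_51, e51_52, e51_53, e51_54, e51_55, e51_56, e51_57]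
noncomputable def e52_0 : List Rx := [
  Rx.mk (nat_lit 21) (nat_lit 5) (nat_lit 2) (nat_lit 0) (nat_lit 3) (nat_lit 253) (nat_lit 316) r5_253 r0_316 (nat_lit 0) (nat_lit 0) (nat_lit 6936321) (nat_lit 0x7b9f03d96) (nat_lit 615253533),
  Rx.mk (nat_lit 84) (nat_lit 4) (nat_lit 2) (nat_lit 1) (nat_lit 6) (nat_lit 252) (nat_lit 315) r5_252 r0_315 (nat_lit 10663228) (nat_lit 0) (nat_lit 0) (nat_lit 0x7da55c5ce) (nat_lit 586217240),
  Rx.mk (nat_lit 85) (nat_lit 5) (nat_lit 2) (nat_lit 1) (nat_lit 7) (nat_lit 254) (nat_lit 317) r5_254 r0_317 (nat_lit 0) (nat_lit 0) (nat_lit 0) (nat_lit 0x8071fa930) (nat_lit 530954762)]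
noncomputable def e52_1 : List Rx := [
  Rx.mk (nat_lit 84) (nat_lit 4) (nat_lit 2) (nat_lit 1) (nat_lit 6) (nat_lit 273) (nat_lit 303) r5_273 r1_303 (nat_lit 15528047) (nat_lit 0) (nat_lit 0) (nat_lit 0x815c32e9e) (nat_lit 532577559),
  Rx.mk (nat_lit 85) (nat_lit 5) (nat_lit 2) (nat_lit 1) (nat_lit 7) (nat_lit 274) (nat_lit 304) r5_274 r1_304 (nat_lit 0) (nat_lit 0) (nat_lit 0) (nat_lit 0x825a7268a) (nat_lit 501688462)]
noncomputable def e52_2 : List Rx := [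
  Rx.mk (nat_lit 84) (nat_lit 4) (nat_lit 2) (nat_lit 1) (nat_lit 6) (nat_lit 275) (nat_lit 341) r5_275 r2_341 (nat_lit 28314395) (nat_lit 0) (nat_lit 0) (nat_lit 0x7f288f256) (nat_lit 579938957),
  Rx.mk (nat_lit 85) (nat_lit 5) (nat_lit 2) (nat_lit 1) (nat_lit 7) (nat_lit 279) (nat_lit 345) r5_279 r2_345 (nat_lit 0) (nat_lit 0) (nat_lit 0) (nat_lit 0x8017985b4) (nat_lit 536870912),
  Rx.mk (nat_lit 324) (nat_lit 4) (nat_lit 0) (nat_lit 5) (nat_lit 4) (nat_lit 276) (nat_lit 339) r5_276 r2_339 (nat_lit 29764725) (nat_lit 20559373) (nat_lit 0) (nat_lit 0x5846938aa) (nat_lit 1230188910),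
  Rx.mk (nat_lit 325) (nat_lit 5) (nat_lit 0) (nat_lit 5) (nat_lit 5) (nat_lit 280) (nat_lit 343) r5_280 r2_343 (nat_lit 0) (nat_lit 74305846) (nat_lit 0) (nat_lit 0x6bbe842c0) (nat_lit 939452858),
  Rx.mk (nat_lit 326) (nat_lit 6) (nat_lit 0) (nat_lit 5) (nat_lit 5) (nat_lit 283) (nat_lit 347) r5_283 r2_347 (nat_lit 0) (nat_lit 33327253) (nat_lit 0) (nat_lit 0x7f65916c2) (nat_lit 581168965),
  Rx.mk (nat_lit 332) (nat_lit 4) (nat_lit 1) (nat_lit 5) (nat_lit 6) (nat_lit 277) (nat_lit 340) r5_277 r2_340 (nat_lit 24741287) (nat_lit 0) (nat_lit 0) (nat_lit 0x8017985b4) (nat_lit 561612199),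
  Rx.mk (nat_lit 333) (nat_lit 5) (nat_lit 1) (nat_lit 5) (nat_lit 7) (nat_lit 281) (nat_lit 344) r5_281 r2_344 (nat_lit 0) (nat_lit 0) (nat_lit 0) (nat_lit 0x8017985b4) (nat_lit 536870912),
  Rx.mk (nat_lit 334) (nat_lit 6) (nat_lit 1) (nat_lit 5) (nat_lit 7) (nat_lit 284) (nat_lit 348) r5_284 r2_348 (nat_lit 0) (nat_lit 0) (nat_lit 0) (nat_lit 0x8017985b4) (nat_lit 536870912),
  Rx.mk (nat_lit 340) (nat_lit 4) (nat_lit 2) (nat_lit 5) (nat_lit 6) (nat_lit 278) (nat_lit 342) r5_278 r2_342 (nat_lit 27157988) (nat_lit 0) (nat_lit 0) (nat_lit 0x7f2b617cc) (nat_lit 578604450),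
  Rx.mk (nat_lit 341) (nat_lit 5) (nat_lit 2) (nat_lit 5) (nat_lit 7) (nat_lit 282) (nat_lit 346) r5_282 r2_346 (nat_lit 0) (nat_lit 0) (nat_lit 0) (nat_lit 0x8017985b4) (nat_lit 536870912)]
noncomputable def e52_3 : List Rx := [
  Rx.mk (nat_lit 20) (nat_lit 4) (nat_lit 2) (nat_lit 0) (nat_lit 2) (nat_lit 293) (nat_lit 318) r5_293 r3_318 (nat_lit 3024) (nat_lit 0) (nat_lit 2469) (nat_lit 0x817743936) (nat_lit 514521255),
  Rx.mk (nat_lit 21) (nat_lit 5) (nat_lit 2) (nat_lit 0) (nat_lit 3) (nat_lit 295) (nat_lit 320) r5_295 r3_320 (nat_lit 0) (nat_lit 0) (nat_lit 331055) (nat_lit 0x7f44b8f22) (nat_lit 549048467),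
  Rx.mk (nat_lit 212) (nat_lit 4) (nat_lit 2) (nat_lit 3) (nat_lit 6) (nat_lit 294) (nat_lit 319) r5_294 r3_319 (nat_lit 87664) (nat_lit 0) (nat_lit 0) (nat_lit 0x7ee2d6d0e) (nat_lit 555002326),
  Rx.mk (nat_lit 213) (nat_lit 5) (nat_lit 2) (nat_lit 3) (nat_lit 7) (nat_lit 296) (nat_lit 321) r5_296 r3_321 (nat_lit 0) (nat_lit 0) (nat_lit 0) (nat_lit 0x8cf43f2ea) (nat_lit 339923812)]
noncomputable def e52_4 : List Rx := [
  Rx.mk (nat_lit 20) (nat_lit 4) (nat_lit 2) (nat_lit 0) (nat_lit 2) (nat_lit 297) (nat_lit 343) r5_297 r4_343 (nat_lit 8412019) (nat_lit 0) (nat_lit 4914536) (nat_lit 0x7692903ac) (nat_lit 703204217),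
  Rx.mk (nat_lit 21) (nat_lit 5) (nat_lit 2) (nat_lit 0) (nat_lit 3) (nat_lit 300) (nat_lit 346) r5_300 r4_346 (nat_lit 0) (nat_lit 0) (nat_lit 2837782) (nat_lit 0x88d4b3178) (nat_lit 405532494),
  Rx.mk (nat_lit 84) (nat_lit 4) (nat_lit 2) (nat_lit 1) (nat_lit 6) (nat_lit 298) (nat_lit 344) r5_298 r4_344 (nat_lit 16948508) (nat_lit 0) (nat_lit 0) (nat_lit 0x809c7b0d8) (nat_lit 545627870),
  Rx.mk (nat_lit 85) (nat_lit 5) (nat_lit 2) (nat_lit 1) (nat_lit 7) (nat_lit 301) (nat_lit 347) r5_301 r4_347 (nat_lit 0) (nat_lit 0) (nat_lit 0) (nat_lit 0x8942acc88) (nat_lit 396280012),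
  Rx.mk (nat_lit 212) (nat_lit 4) (nat_lit 2) (nat_lit 3) (nat_lit 6) (nat_lit 299) (nat_lit 345) r5_299 r4_345 (nat_lit 16388111) (nat_lit 0) (nat_lit 0) (nat_lit 0x805f52918) (nat_lit 548834573),
  Rx.mk (nat_lit 213) (nat_lit 5) (nat_lit 2) (nat_lit 3) (nat_lit 7) (nat_lit 302) (nat_lit 348) r5_302 r4_348 (nat_lit 0) (nat_lit 0) (nat_lit 0) (nat_lit 0x816422d98) (nat_lit 516613662)]
noncomputable def e52_5 : List Rx := [
  Rx.mk (nat_lit 212) (nat_lit 4) (nat_lit 2) (nat_lit 3) (nat_lit 6) (nat_lit 303) (nat_lit 303) r5_303 r5_303 (nat_lit 811576) (nat_lit 0) (nat_lit 0) (nat_lit 0x800e813cc) (nat_lit 537125038),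
  Rx.mk (nat_lit 213) (nat_lit 5) (nat_lit 2) (nat_lit 3) (nat_lit 7) (nat_lit 304) (nat_lit 304) r5_304 r5_304 (nat_lit 0) (nat_lit 0) (nat_lit 0) (nat_lit 0x8142f445a) (nat_lit 518652812)]
noncomputable def e52_6 : List Rx := [
  Rx.mk (nat_lit 262) (nat_lit 6) (nat_lit 0) (nat_lit 4) (nat_lit 1) (nat_lit 55) (nat_lit 334) r5_55 r3_334 (nat_lit 0) (nat_lit 3690) (nat_lit 4830) (nat_lit 0x7ffd07a60) (nat_lit 537068682),
  Rx.mk (nat_lit 270) (nat_lit 6) (nat_lit 1) (nat_lit 4) (nat_lit 3) (nat_lit 56) (nat_lit 338) r5_56 r3_338 (nat_lit 0) (nat_lit 0) (nat_lit 1607337) (nat_lit 0x7673024ae) (nat_lit 693215299),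
  Rx.mk (nat_lit 390) (nat_lit 6) (nat_lit 0) (nat_lit 6) (nat_lit 5) (nat_lit 57) (nat_lit 336) r5_57 r3_336 (nat_lit 0) (nat_lit 2939284) (nat_lit 0) (nat_lit 0x760f97a22) (nat_lit 700976746),
  Rx.mk (nat_lit 398) (nat_lit 6) (nat_lit 1) (nat_lit 6) (nat_lit 7) (nat_lit 58) (nat_lit 340) r5_58 r3_340 (nat_lit 0) (nat_lit 0) (nat_lit 0) (nat_lit 0x7e9266ec8) (nat_lit 560921062),
  Rx.mk (nat_lit 452) (nat_lit 4) (nat_lit 0) (nat_lit 7) (nat_lit 4) (nat_lit 52) (nat_lit 333) r5_52 r3_333 (nat_lit 2749) (nat_lit 1558) (nat_lit 0) (nat_lit 0x800757f88) (nat_lit 536440369),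
  Rx.mk (nat_lit 454) (nat_lit 6) (nat_lit 0) (nat_lit 7) (nat_lit 5) (nat_lit 59) (nat_lit 335) r5_59 r3_335 (nat_lit 0) (nat_lit 255679) (nat_lit 0) (nat_lit 0x890dc1b68) (nat_lit 399147191),
  Rx.mk (nat_lit 460) (nat_lit 4) (nat_lit 1) (nat_lit 7) (nat_lit 6) (nat_lit 53) (nat_lit 337) r5_53 r3_337 (nat_lit 4617775) (nat_lit 0) (nat_lit 0) (nat_lit 0x7f39a7408) (nat_lit 554334537),
  Rx.mk (nat_lit 462) (nat_lit 6) (nat_lit 1) (nat_lit 7) (nat_lit 7) (nat_lit 60) (nat_lit 339) r5_60 r3_339 (nat_lit 0) (nat_lit 0) (nat_lit 0) (nat_lit 0x95e0ba39c) (nat_lit 203775112),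
  Rx.mk (nat_lit 468) (nat_lit 4) (nat_lit 2) (nat_lit 7) (nat_lit 6) (nat_lit 54) (nat_lit 341) r5_54 r3_341 (nat_lit 6095527) (nat_lit 0) (nat_lit 0) (nat_lit 0x814491984) (nat_lit 524090139)]
noncomputable def e52_7 : List Rx := [
  Rx.mk (nat_lit 260) (nat_lit 4) (nat_lit 0) (nat_lit 4) (nat_lit 0) (nat_lit 152) (nat_lit 330) r5_152 r0_330 (nat_lit 246635775) (nat_lit 4295) (nat_lit 4746) (nat_lit 0x7ffebcf68) (nat_lit 783597078),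
  Rx.mk (nat_lit 262) (nat_lit 6) (nat_lit 0) (nat_lit 4) (nat_lit 1) (nat_lit 158) (nat_lit 332) r5_158 r0_332 (nat_lit 0) (nat_lit 9515140) (nat_lit 9046091) (nat_lit 0x640679402) (nat_lit 1008402593),
  Rx.mk (nat_lit 268) (nat_lit 4) (nat_lit 1) (nat_lit 4) (nat_lit 2) (nat_lit 153) (nat_lit 335) r5_153 r0_335 (nat_lit 72835185) (nat_lit 0) (nat_lit 7966129) (nat_lit 0x768dbcfb0) (nat_lit 771020776),
  Rx.mk (nat_lit 270) (nat_lit 6) (nat_lit 1) (nat_lit 4) (nat_lit 3) (nat_lit 159) (nat_lit 337) r5_159 r0_337 (nat_lit 0) (nat_lit 0) (nat_lit 15727667) (nat_lit 0x785988350) (nat_lit 677032129),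
  Rx.mk (nat_lit 276) (nat_lit 4) (nat_lit 2) (nat_lit 4) (nat_lit 2) (nat_lit 154) (nat_lit 340) r5_154 r0_340 (nat_lit 43528741) (nat_lit 0) (nat_lit 2248887) (nat_lit 0x7781485e4) (nat_lit 720358340),
  Rx.mk (nat_lit 324) (nat_lit 4) (nat_lit 0) (nat_lit 5) (nat_lit 4) (nat_lit 155) (nat_lit 331) r5_155 r0_331 (nat_lit 12431881) (nat_lit 18467620) (nat_lit 0) (nat_lit 0x77229ca54) (nat_lit 711720913),
  Rx.mk (nat_lit 326) (nat_lit 6) (nat_lit 0) (nat_lit 5) (nat_lit 5) (nat_lit 160) (nat_lit 333) r5_160 r0_333 (nat_lit 0) (nat_lit 20486354) (nat_lit 0) (nat_lit 0x7e13133ec) (nat_lit 589334166),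
  Rx.mk (nat_lit 332) (nat_lit 4) (nat_lit 1) (nat_lit 5) (nat_lit 6) (nat_lit 156) (nat_lit 336) r5_156 r0_336 (nat_lit 32356529) (nat_lit 0) (nat_lit 0) (nat_lit 0x7e416a34e) (nat_lit 598396941),
  Rx.mk (nat_lit 334) (nat_lit 6) (nat_lit 1) (nat_lit 5) (nat_lit 7) (nat_lit 161) (nat_lit 338) r5_161 r0_338 (nat_lit 0) (nat_lit 0) (nat_lit 0) (nat_lit 0x7f6c75efc) (nat_lit 547366462),
  Rx.mk (nat_lit 340) (nat_lit 4) (nat_lit 2) (nat_lit 5) (nat_lit 6) (nat_lit 157) (nat_lit 341) r5_157 r0_341 (nat_lit 4283816) (nat_lit 0) (nat_lit 0) (nat_lit 0x76dca6428) (nat_lit 689405378),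
  Rx.mk (nat_lit 390) (nat_lit 6) (nat_lit 0) (nat_lit 6) (nat_lit 5) (nat_lit 162) (nat_lit 334) r5_162 r0_334 (nat_lit 0) (nat_lit 25423219) (nat_lit 0) (nat_lit 0x71dceb686) (nat_lit 791634281),
  Rx.mk (nat_lit 398) (nat_lit 6) (nat_lit 1) (nat_lit 6) (nat_lit 7) (nat_lit 163) (nat_lit 339) r5_163 r0_339 (nat_lit 0) (nat_lit 0) (nat_lit 0) (nat_lit 0x804d1b93e) (nat_lit 533580312)]
noncomputable def e52_8 : List Rx := [
  Rx.mk (nat_lit 324) (nat_lit 4) (nat_lit 0) (nat_lit 5) (nat_lit 4) (nat_lit 164) (nat_lit 311) r5_164 r1_311 (nat_lit 8816353) (nat_lit 14978700) (nat_lit 0) (nat_lit 0x6ec49af3a) (nat_lit 839845015),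
  Rx.mk (nat_lit 326) (nat_lit 6) (nat_lit 0) (nat_lit 5) (nat_lit 5) (nat_lit 167) (nat_lit 312) r5_167 r1_312 (nat_lit 0) (nat_lit 20400359) (nat_lit 0) (nat_lit 0x8039ecd5e) (nat_lit 555033421),
  Rx.mk (nat_lit 332) (nat_lit 4) (nat_lit 1) (nat_lit 5) (nat_lit 6) (nat_lit 165) (nat_lit 313) r5_165 r1_313 (nat_lit 20314026) (nat_lit 0) (nat_lit 0) (nat_lit 0x80db604a6) (nat_lit 545190438),
  Rx.mk (nat_lit 334) (nat_lit 6) (nat_lit 1) (nat_lit 5) (nat_lit 7) (nat_lit 168) (nat_lit 314) r5_168 r1_314 (nat_lit 0) (nat_lit 0) (nat_lit 0) (nat_lit 0x8095f8012) (nat_lit 529083662),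
  Rx.mk (nat_lit 340) (nat_lit 4) (nat_lit 2) (nat_lit 5) (nat_lit 6) (nat_lit 166) (nat_lit 315) r5_166 r1_315 (nat_lit 6296235) (nat_lit 0) (nat_lit 0) (nat_lit 0x7df201f0a) (nat_lit 577066447)]
noncomputable def e52_9 : List Rx := [
  Rx.mk (nat_lit 260) (nat_lit 4) (nat_lit 0) (nat_lit 4) (nat_lit 0) (nat_lit 169) (nat_lit 366) r5_169 r4_366 (nat_lit 2737427) (nat_lit 1433235) (nat_lit 841617) (nat_lit 0x61d7dcea2) (nat_lit 1029758991),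
  Rx.mk (nat_lit 262) (nat_lit 6) (nat_lit 0) (nat_lit 4) (nat_lit 1) (nat_lit 177) (nat_lit 369) r5_177 r4_369 (nat_lit 0) (nat_lit 5283235) (nat_lit 4717590) (nat_lit 0x752a4ab54) (nat_lit 722606187),
  Rx.mk (nat_lit 268) (nat_lit 4) (nat_lit 1) (nat_lit 4) (nat_lit 2) (nat_lit 170) (nat_lit 373) r5_170 r4_373 (nat_lit 159956814) (nat_lit 0) (nat_lit 11320658) (nat_lit 0x7afbd0750) (nat_lit 789998334),
  Rx.mk (nat_lit 270) (nat_lit 6) (nat_lit 1) (nat_lit 4) (nat_lit 3) (nat_lit 178) (nat_lit 375) r5_178 r4_375 (nat_lit 0) (nat_lit 0) (nat_lit 10292378) (nat_lit 0x80631e6c8) (nat_lit 542489390),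
  Rx.mk (nat_lit 276) (nat_lit 4) (nat_lit 2) (nat_lit 4) (nat_lit 2) (nat_lit 171) (nat_lit 378) r5_171 r4_378 (nat_lit 58076158) (nat_lit 0) (nat_lit 24206208) (nat_lit 0x78ad82f82) (nat_lit 738299028),
  Rx.mk (nat_lit 324) (nat_lit 4) (nat_lit 0) (nat_lit 5) (nat_lit 4) (nat_lit 172) (nat_lit 367) r5_172 r4_367 (nat_lit 38663507) (nat_lit 31203347) (nat_lit 0) (nat_lit 0x74de6bf62) (nat_lit 787491166),
  Rx.mk (nat_lit 326) (nat_lit 6) (nat_lit 0) (nat_lit 5) (nat_lit 5) (nat_lit 179) (nat_lit 370) r5_179 r4_370 (nat_lit 0) (nat_lit 12656058) (nat_lit 0) (nat_lit 0x8088cb0ec) (nat_lit 542545370),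
  Rx.mk (nat_lit 340) (nat_lit 4) (nat_lit 2) (nat_lit 5) (nat_lit 6) (nat_lit 173) (nat_lit 379) r5_173 r4_379 (nat_lit 24741287) (nat_lit 0) (nat_lit 0) (nat_lit 0x8017985b4) (nat_lit 561612199),
  Rx.mk (nat_lit 390) (nat_lit 6) (nat_lit 0) (nat_lit 6) (nat_lit 5) (nat_lit 180) (nat_lit 372) r5_180 r4_372 (nat_lit 0) (nat_lit 26071718) (nat_lit 0) (nat_lit 0x7c450e86c) (nat_lit 624104680),
  Rx.mk (nat_lit 398) (nat_lit 6) (nat_lit 1) (nat_lit 6) (nat_lit 7) (nat_lit 181) (nat_lit 377) r5_181 r4_377 (nat_lit 0) (nat_lit 0) (nat_lit 0) (nat_lit 0x80414fb1e) (nat_lit 534304462),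
  Rx.mk (nat_lit 452) (nat_lit 4) (nat_lit 0) (nat_lit 7) (nat_lit 4) (nat_lit 174) (nat_lit 368) r5_174 r4_368 (nat_lit 174408130) (nat_lit 5546147) (nat_lit 0) (nat_lit 0x790afe648) (nat_lit 829916089),
  Rx.mk (nat_lit 454) (nat_lit 6) (nat_lit 0) (nat_lit 7) (nat_lit 5) (nat_lit 182) (nat_lit 371) r5_182 r4_371 (nat_lit 0) (nat_lit 11445764) (nat_lit 0) (nat_lit 0x81403787a) (nat_lit 530241476),
  Rx.mk (nat_lit 460) (nat_lit 4) (nat_lit 1) (nat_lit 7) (nat_lit 6) (nat_lit 175) (nat_lit 374) r5_175 r4_374 (nat_lit 141819368) (nat_lit 0) (nat_lit 0) (nat_lit 0x7fe1dc33a) (nat_lit 681820880),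
  Rx.mk (nat_lit 462) (nat_lit 6) (nat_lit 1) (nat_lit 7) (nat_lit 7) (nat_lit 183) (nat_lit 376) r5_183 r4_376 (nat_lit 0) (nat_lit 0) (nat_lit 0) (nat_lit 0x80cd61346) (nat_lit 525749862),
  Rx.mk (nat_lit 468) (nat_lit 4) (nat_lit 2) (nat_lit 7) (nat_lit 6) (nat_lit 176) (nat_lit 380) r5_176 r4_380 (nat_lit 26164324) (nat_lit 0) (nat_lit 0) (nat_lit 0x80999346a) (nat_lit 555052536)]
noncomputable def e52_10 : List Rx := [
  Rx.mk (nat_lit 212) (nat_lit 4) (nat_lit 2) (nat_lit 3) (nat_lit 6) (nat_lit 231) (nat_lit 334) r5_231 r6_334 (nat_lit 64873) (nat_lit 0) (nat_lit 0) (nat_lit 0x800bef67c) (nat_lit 536253635),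
  Rx.mk (nat_lit 452) (nat_lit 4) (nat_lit 0) (nat_lit 7) (nat_lit 4) (nat_lit 232) (nat_lit 333) r5_232 r6_333 (nat_lit 1379852) (nat_lit 1266917) (nat_lit 0) (nat_lit 0x7a2fc99c2) (nat_lit 633790631),
  Rx.mk (nat_lit 454) (nat_lit 6) (nat_lit 0) (nat_lit 7) (nat_lit 5) (nat_lit 234) (nat_lit 336) r5_234 r6_336 (nat_lit 0) (nat_lit 745573) (nat_lit 0) (nat_lit 0x806c92614) (nat_lit 531405435),
  Rx.mk (nat_lit 468) (nat_lit 4) (nat_lit 2) (nat_lit 7) (nat_lit 6) (nat_lit 233) (nat_lit 335) r5_233 r6_335 (nat_lit 4400993) (nat_lit 0) (nat_lit 0) (nat_lit 0x831fc2ff2) (nat_lit 494248105)]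
noncomputable def e52_11 : List Rx := [
  Rx.mk (nat_lit 452) (nat_lit 4) (nat_lit 0) (nat_lit 7) (nat_lit 4) (nat_lit 235) (nat_lit 311) r5_235 r5_311 (nat_lit 256039) (nat_lit 59092) (nat_lit 0) (nat_lit 0x820de74a0) (nat_lit 505885693),
  Rx.mk (nat_lit 454) (nat_lit 6) (nat_lit 0) (nat_lit 7) (nat_lit 5) (nat_lit 238) (nat_lit 312) r5_238 r5_312 (nat_lit 0) (nat_lit 1304446) (nat_lit 0) (nat_lit 0x7fd0f99aa) (nat_lit 541617058),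
  Rx.mk (nat_lit 460) (nat_lit 4) (nat_lit 1) (nat_lit 7) (nat_lit 6) (nat_lit 236) (nat_lit 313) r5_236 r5_313 (nat_lit 84189096) (nat_lit 0) (nat_lit 0) (nat_lit 0x80e5c9802) (nat_lit 608169008),
  Rx.mk (nat_lit 462) (nat_lit 6) (nat_lit 1) (nat_lit 7) (nat_lit 7) (nat_lit 239) (nat_lit 314) r5_239 r5_314 (nat_lit 0) (nat_lit 0) (nat_lit 0) (nat_lit 0x81c0a1d3a) (nat_lit 511016762),
  Rx.mk (nat_lit 468) (nat_lit 4) (nat_lit 2) (nat_lit 7) (nat_lit 6) (nat_lit 237) (nat_lit 315) r5_237 r5_315 (nat_lit 6154533) (nat_lit 0) (nat_lit 0) (nat_lit 0x82d163a50) (nat_lit 500638795)]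
noncomputable def e52_12 : List Rx := [
  Rx.mk (nat_lit 21) (nat_lit 5) (nat_lit 2) (nat_lit 0) (nat_lit 3) (nat_lit 255) (nat_lit 224) r5_255 r0_224 (nat_lit 0) (nat_lit 0) (nat_lit 71218835) (nat_lit 0x7ffb5ec54) (nat_lit 608387497)]
noncomputable def e52_13 : List Rx := [
  Rx.mk (nat_lit 21) (nat_lit 5) (nat_lit 2) (nat_lit 0) (nat_lit 3) (nat_lit 256) (nat_lit 422) r5_256 r7_422 (nat_lit 0) (nat_lit 0) (nat_lit 10453794) (nat_lit 0x7f320ae16) (nat_lit 561328856),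
  Rx.mk (nat_lit 85) (nat_lit 5) (nat_lit 2) (nat_lit 1) (nat_lit 7) (nat_lit 257) (nat_lit 423) r5_257 r7_423 (nat_lit 0) (nat_lit 0) (nat_lit 0) (nat_lit 0x811261be4) (nat_lit 521565112)]
noncomputable def e52_14 : List Rx := [
  Rx.mk (nat_lit 17) (nat_lit 1) (nat_lit 2) (nat_lit 0) (nat_lit 3) (nat_lit 267) (nat_lit 243) r5_267 r1_243 (nat_lit 0) (nat_lit 0) (nat_lit 91702614) (nat_lit 0x80aaf72a6) (nat_lit 619301176),
  Rx.mk (nat_lit 21) (nat_lit 5) (nat_lit 2) (nat_lit 0) (nat_lit 3) (nat_lit 268) (nat_lit 242) r5_268 r1_242 (nat_lit 0) (nat_lit 0) (nat_lit 100423417) (nat_lit 0x83d8b6e82) (nat_lit 579086629)]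
noncomputable def e52_15 : List Rx := [
  Rx.mk (nat_lit 17) (nat_lit 1) (nat_lit 2) (nat_lit 0) (nat_lit 3) (nat_lit 269) (nat_lit 347) r5_269 r8_347 (nat_lit 0) (nat_lit 0) (nat_lit 26407128) (nat_lit 0x7ed75b9ac) (nat_lit 583090140),
  Rx.mk (nat_lit 21) (nat_lit 5) (nat_lit 2) (nat_lit 0) (nat_lit 3) (nat_lit 271) (nat_lit 349) r5_271 r8_349 (nat_lit 0) (nat_lit 0) (nat_lit 26551209) (nat_lit 0x7f5f75306) (nat_lit 574765171),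
  Rx.mk (nat_lit 81) (nat_lit 1) (nat_lit 2) (nat_lit 1) (nat_lit 7) (nat_lit 270) (nat_lit 348) r5_270 r8_348 (nat_lit 0) (nat_lit 0) (nat_lit 0) (nat_lit 0x8017985b4) (nat_lit 536870912),
  Rx.mk (nat_lit 85) (nat_lit 5) (nat_lit 2) (nat_lit 1) (nat_lit 7) (nat_lit 272) (nat_lit 350) r5_272 r8_350 (nat_lit 0) (nat_lit 0) (nat_lit 0) (nat_lit 0x8017985b4) (nat_lit 536870912)]
noncomputable def e52_16 : List Rx := [
  Rx.mk (nat_lit 85) (nat_lit 5) (nat_lit 2) (nat_lit 1) (nat_lit 7) (nat_lit 285) (nat_lit 218) r5_285 r8_218 (nat_lit 0) (nat_lit 0) (nat_lit 0) (nat_lit 0x815927600) (nat_lit 517280412)]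
noncomputable def e52_17 : List Rx := [
  Rx.mk (nat_lit 85) (nat_lit 5) (nat_lit 2) (nat_lit 1) (nat_lit 7) (nat_lit 286) (nat_lit 309) r5_286 r9_309 (nat_lit 0) (nat_lit 0) (nat_lit 0) (nat_lit 0x7ff9dad06) (nat_lit 538691612),
  Rx.mk (nat_lit 325) (nat_lit 5) (nat_lit 0) (nat_lit 5) (nat_lit 5) (nat_lit 287) (nat_lit 307) r5_287 r9_307 (nat_lit 0) (nat_lit 111344299) (nat_lit 0) (nat_lit 0x6b103b6e6) (nat_lit 987492011),
  Rx.mk (nat_lit 333) (nat_lit 5) (nat_lit 1) (nat_lit 5) (nat_lit 7) (nat_lit 288) (nat_lit 308) r5_288 r9_308 (nat_lit 0) (nat_lit 0) (nat_lit 0) (nat_lit 0x7ff67effe) (nat_lit 538897862),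
  Rx.mk (nat_lit 341) (nat_lit 5) (nat_lit 2) (nat_lit 5) (nat_lit 7) (nat_lit 289) (nat_lit 310) r5_289 r9_310 (nat_lit 0) (nat_lit 0) (nat_lit 0) (nat_lit 0x7ff760b48) (nat_lit 538843712)]
noncomputable def e52_18 : List Rx := [
  Rx.mk (nat_lit 21) (nat_lit 5) (nat_lit 2) (nat_lit 0) (nat_lit 3) (nat_lit 305) (nat_lit 224) r5_305 r4_224 (nat_lit 0) (nat_lit 0) (nat_lit 161090066) (nat_lit 0x7fc75d3ec) (nat_lit 701587228),
  Rx.mk (nat_lit 213) (nat_lit 5) (nat_lit 2) (nat_lit 3) (nat_lit 7) (nat_lit 306) (nat_lit 225) r5_306 r4_225 (nat_lit 0) (nat_lit 0) (nat_lit 0) (nat_lit 0x743a265ec) (nat_lit 727415662)]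
noncomputable def e52_19 : List Rx := [
  Rx.mk (nat_lit 21) (nat_lit 5) (nat_lit 2) (nat_lit 0) (nat_lit 3) (nat_lit 307) (nat_lit 347) r5_307 r10_347 (nat_lit 0) (nat_lit 0) (nat_lit 11477207) (nat_lit 0x7fc2367ba) (nat_lit 553442619),
  Rx.mk (nat_lit 85) (nat_lit 5) (nat_lit 2) (nat_lit 1) (nat_lit 7) (nat_lit 308) (nat_lit 348) r5_308 r10_348 (nat_lit 0) (nat_lit 0) (nat_lit 0) (nat_lit 0x80b9b4848) (nat_lit 526949812),
  Rx.mk (nat_lit 213) (nat_lit 5) (nat_lit 2) (nat_lit 3) (nat_lit 7) (nat_lit 309) (nat_lit 349) r5_309 r10_349 (nat_lit 0) (nat_lit 0) (nat_lit 0) (nat_lit 0x80b9b154e) (nat_lit 526950562)]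
noncomputable def e52_20 : List Rx := [
  Rx.mk (nat_lit 213) (nat_lit 5) (nat_lit 2) (nat_lit 3) (nat_lit 7) (nat_lit 310) (nat_lit 356) r5_310 r11_356 (nat_lit 0) (nat_lit 0) (nat_lit 0) (nat_lit 0x81691ae72) (nat_lit 516102862)]
noncomputable def e52_21 : List Rx := [
  Rx.mk (nat_lit 332) (nat_lit 4) (nat_lit 1) (nat_lit 5) (nat_lit 6) (nat_lit 290) (nat_lit 324) r5_290 r9_324 (nat_lit 26942027) (nat_lit 0) (nat_lit 0) (nat_lit 0x7e5860594) (nat_lit 591515239),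
  Rx.mk (nat_lit 333) (nat_lit 5) (nat_lit 1) (nat_lit 5) (nat_lit 7) (nat_lit 291) (nat_lit 325) r5_291 r9_325 (nat_lit 0) (nat_lit 0) (nat_lit 0) (nat_lit 0x7ff2ca070) (nat_lit 539127012),
  Rx.mk (nat_lit 334) (nat_lit 6) (nat_lit 1) (nat_lit 5) (nat_lit 7) (nat_lit 292) (nat_lit 326) r5_292 r9_326 (nat_lit 0) (nat_lit 0) (nat_lit 0) (nat_lit 0x8017985b4) (nat_lit 536870912)]
noncomputable def e52_22 : List Rx := [
  Rx.mk (nat_lit 270) (nat_lit 6) (nat_lit 1) (nat_lit 4) (nat_lit 3) (nat_lit 61) (nat_lit 89) r5_61 r0_89 (nat_lit 0) (nat_lit 0) (nat_lit 16868928) (nat_lit 0x770328902) (nat_lit 699634640),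
  Rx.mk (nat_lit 398) (nat_lit 6) (nat_lit 1) (nat_lit 6) (nat_lit 7) (nat_lit 62) (nat_lit 90) r5_62 r0_90 (nat_lit 0) (nat_lit 0) (nat_lit 0) (nat_lit 0x80cf2f8d0) (nat_lit 525470412)]
noncomputable def e52_23 : List Rx := [
  Rx.mk (nat_lit 270) (nat_lit 6) (nat_lit 1) (nat_lit 4) (nat_lit 3) (nat_lit 63) (nat_lit 91) r5_63 r1_91 (nat_lit 0) (nat_lit 0) (nat_lit 3579826) (nat_lit 0x811e759ee) (nat_lit 524029388),
  Rx.mk (nat_lit 398) (nat_lit 6) (nat_lit 1) (nat_lit 6) (nat_lit 7) (nat_lit 64) (nat_lit 92) r5_64 r1_92 (nat_lit 0) (nat_lit 0) (nat_lit 0) (nat_lit 0x79fc7a418) (nat_lit 634642712),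
  Rx.mk (nat_lit 430) (nat_lit 6) (nat_lit 5) (nat_lit 6) (nat_lit 7) (nat_lit 65) (nat_lit 93) r5_65 r1_93 (nat_lit 0) (nat_lit 0) (nat_lit 0) (nat_lit 0x7fd333eb4) (nat_lit 540973512)]
noncomputable def e52_24 : List Rx := [
  Rx.mk (nat_lit 270) (nat_lit 6) (nat_lit 1) (nat_lit 4) (nat_lit 3) (nat_lit 67) (nat_lit 89) r5_67 r4_89 (nat_lit 0) (nat_lit 0) (nat_lit 10750557) (nat_lit 0x7fd33eeae) (nat_lit 551622569),
  Rx.mk (nat_lit 398) (nat_lit 6) (nat_lit 1) (nat_lit 6) (nat_lit 7) (nat_lit 68) (nat_lit 92) r5_68 r4_92 (nat_lit 0) (nat_lit 0) (nat_lit 0) (nat_lit 0x7fb528974) (nat_lit 542767312),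
  Rx.mk (nat_lit 460) (nat_lit 4) (nat_lit 1) (nat_lit 7) (nat_lit 6) (nat_lit 66) (nat_lit 90) r5_66 r4_90 (nat_lit 9749711) (nat_lit 0) (nat_lit 0) (nat_lit 0x7ffe1e016) (nat_lit 547673873),
  Rx.mk (nat_lit 462) (nat_lit 6) (nat_lit 1) (nat_lit 7) (nat_lit 7) (nat_lit 69) (nat_lit 91) r5_69 r4_91 (nat_lit 0) (nat_lit 0) (nat_lit 0) (nat_lit 0x8121440f8) (nat_lit 520021762)]
noncomputable def e52_25 : List Rx := [
  Rx.mk (nat_lit 268) (nat_lit 4) (nat_lit 1) (nat_lit 4) (nat_lit 2) (nat_lit 184) (nat_lit 444) r5_184 r7_444 (nat_lit 21504054) (nat_lit 0) (nat_lit 5813795) (nat_lit 0x686efd894) (nat_lit 945833261),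
  Rx.mk (nat_lit 270) (nat_lit 6) (nat_lit 1) (nat_lit 4) (nat_lit 3) (nat_lit 186) (nat_lit 446) r5_186 r7_446 (nat_lit 0) (nat_lit 0) (nat_lit 6741966) (nat_lit 0x7f4734e86) (nat_lit 556141628),
  Rx.mk (nat_lit 332) (nat_lit 4) (nat_lit 1) (nat_lit 5) (nat_lit 6) (nat_lit 185) (nat_lit 445) r5_185 r7_445 (nat_lit 24741287) (nat_lit 0) (nat_lit 0) (nat_lit 0x7fd363f88) (nat_lit 565797099),
  Rx.mk (nat_lit 334) (nat_lit 6) (nat_lit 1) (nat_lit 5) (nat_lit 7) (nat_lit 187) (nat_lit 447) r5_187 r7_447 (nat_lit 0) (nat_lit 0) (nat_lit 0) (nat_lit 0x812b94fb2) (nat_lit 520035912),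
  Rx.mk (nat_lit 398) (nat_lit 6) (nat_lit 1) (nat_lit 6) (nat_lit 7) (nat_lit 188) (nat_lit 448) r5_188 r7_448 (nat_lit 0) (nat_lit 0) (nat_lit 0) (nat_lit 0x8017985b4) (nat_lit 536870912)]
noncomputable def e52_26 : List Rx := [
  Rx.mk (nat_lit 268) (nat_lit 4) (nat_lit 1) (nat_lit 4) (nat_lit 2) (nat_lit 191) (nat_lit 362) r5_191 r8_362 (nat_lit 40282511) (nat_lit 0) (nat_lit 13579307) (nat_lit 0x676dbd25a) (nat_lit 988710430),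
  Rx.mk (nat_lit 270) (nat_lit 6) (nat_lit 1) (nat_lit 4) (nat_lit 3) (nat_lit 193) (nat_lit 364) r5_193 r8_364 (nat_lit 0) (nat_lit 0) (nat_lit 26008793) (nat_lit 0x78bef927a) (nat_lit 680926905),
  Rx.mk (nat_lit 332) (nat_lit 4) (nat_lit 1) (nat_lit 5) (nat_lit 6) (nat_lit 192) (nat_lit 363) r5_192 r8_363 (nat_lit 24741287) (nat_lit 0) (nat_lit 0) (nat_lit 0x7fc98e4ea) (nat_lit 566401349),
  Rx.mk (nat_lit 334) (nat_lit 6) (nat_lit 1) (nat_lit 5) (nat_lit 7) (nat_lit 194) (nat_lit 365) r5_194 r8_365 (nat_lit 0) (nat_lit 0) (nat_lit 0) (nat_lit 0x8017985b4) (nat_lit 536870912),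
  Rx.mk (nat_lit 398) (nat_lit 6) (nat_lit 1) (nat_lit 6) (nat_lit 7) (nat_lit 195) (nat_lit 366) r5_195 r8_366 (nat_lit 0) (nat_lit 0) (nat_lit 0) (nat_lit 0x7f79cc664) (nat_lit 546583312),
  Rx.mk (nat_lit 430) (nat_lit 6) (nat_lit 5) (nat_lit 6) (nat_lit 7) (nat_lit 196) (nat_lit 361) r5_196 r8_361 (nat_lit 0) (nat_lit 0) (nat_lit 0) (nat_lit 0x8017985b4) (nat_lit 536870912)]
noncomputable def e52_27 : List Rx := [
  Rx.mk (nat_lit 332) (nat_lit 4) (nat_lit 1) (nat_lit 5) (nat_lit 6) (nat_lit 189) (nat_lit 74) r5_189 r8_74 (nat_lit 17765140) (nat_lit 0) (nat_lit 0) (nat_lit 0x7ff74602c) (nat_lit 556578502),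
  Rx.mk (nat_lit 334) (nat_lit 6) (nat_lit 1) (nat_lit 5) (nat_lit 7) (nat_lit 190) (nat_lit 75) r5_190 r8_75 (nat_lit 0) (nat_lit 0) (nat_lit 0) (nat_lit 0x80b32653a) (nat_lit 527341762)]
noncomputable def e52_28 : List Rx := [
  Rx.mk (nat_lit 268) (nat_lit 4) (nat_lit 1) (nat_lit 4) (nat_lit 2) (nat_lit 197) (nat_lit 369) r5_197 r10_369 (nat_lit 11835146) (nat_lit 0) (nat_lit 4889214) (nat_lit 0x6ab7fa806) (nat_lit 898281722),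
  Rx.mk (nat_lit 270) (nat_lit 6) (nat_lit 1) (nat_lit 4) (nat_lit 3) (nat_lit 199) (nat_lit 371) r5_199 r10_371 (nat_lit 0) (nat_lit 0) (nat_lit 5323301) (nat_lit 0x821784ed6) (nat_lit 511046163),
  Rx.mk (nat_lit 398) (nat_lit 6) (nat_lit 1) (nat_lit 6) (nat_lit 7) (nat_lit 200) (nat_lit 373) r5_200 r10_373 (nat_lit 0) (nat_lit 0) (nat_lit 0) (nat_lit 0x8017985b4) (nat_lit 536870912),
  Rx.mk (nat_lit 460) (nat_lit 4) (nat_lit 1) (nat_lit 7) (nat_lit 6) (nat_lit 198) (nat_lit 370) r5_198 r10_370 (nat_lit 24741287) (nat_lit 0) (nat_lit 0) (nat_lit 0x7fb2f649e) (nat_lit 567798249),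
  Rx.mk (nat_lit 462) (nat_lit 6) (nat_lit 1) (nat_lit 7) (nat_lit 7) (nat_lit 201) (nat_lit 372) r5_201 r10_372 (nat_lit 0) (nat_lit 0) (nat_lit 0) (nat_lit 0x80ff5f960) (nat_lit 522714412)]
noncomputable def e52_29 : List Rx := [
  Rx.mk (nat_lit 460) (nat_lit 4) (nat_lit 1) (nat_lit 7) (nat_lit 6) (nat_lit 240) (nat_lit 366) r5_240 r11_366 (nat_lit 12925908) (nat_lit 0) (nat_lit 0) (nat_lit 0x804d82ed6) (nat_lit 546213020),
  Rx.mk (nat_lit 462) (nat_lit 6) (nat_lit 1) (nat_lit 7) (nat_lit 7) (nat_lit 241) (nat_lit 367) r5_241 r11_367 (nat_lit 0) (nat_lit 0) (nat_lit 0) (nat_lit 0x834f94230) (nat_lit 487057512)]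
noncomputable def e52_30 : List Rx := [
  Rx.mk (nat_lit 20) (nat_lit 4) (nat_lit 2) (nat_lit 0) (nat_lit 2) (nat_lit 311) (nat_lit 235) r5_311 r5_235 (nat_lit 59092) (nat_lit 0) (nat_lit 256039) (nat_lit 0x820de74a0) (nat_lit 505885693),
  Rx.mk (nat_lit 21) (nat_lit 5) (nat_lit 2) (nat_lit 0) (nat_lit 3) (nat_lit 313) (nat_lit 236) r5_313 r5_236 (nat_lit 0) (nat_lit 0) (nat_lit 84189096) (nat_lit 0x80e5c9802) (nat_lit 608169008),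
  Rx.mk (nat_lit 23) (nat_lit 7) (nat_lit 2) (nat_lit 0) (nat_lit 3) (nat_lit 315) (nat_lit 237) r5_315 r5_237 (nat_lit 0) (nat_lit 0) (nat_lit 6154533) (nat_lit 0x82d163a50) (nat_lit 500638795),
  Rx.mk (nat_lit 212) (nat_lit 4) (nat_lit 2) (nat_lit 3) (nat_lit 6) (nat_lit 312) (nat_lit 238) r5_312 r5_238 (nat_lit 1304446) (nat_lit 0) (nat_lit 0) (nat_lit 0x7fd0f99aa) (nat_lit 541617058),
  Rx.mk (nat_lit 213) (nat_lit 5) (nat_lit 2) (nat_lit 3) (nat_lit 7) (nat_lit 314) (nat_lit 239) r5_314 r5_239 (nat_lit 0) (nat_lit 0) (nat_lit 0) (nat_lit 0x81c0a1d3a) (nat_lit 511016762)]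
noncomputable def e52_31 : List Rx := [
  Rx.mk (nat_lit 20) (nat_lit 4) (nat_lit 2) (nat_lit 0) (nat_lit 2) (nat_lit 316) (nat_lit 273) r5_316 r11_273 (nat_lit 21014715) (nat_lit 0) (nat_lit 20649739) (nat_lit 0x729e8ccc2) (nat_lit 795632066),
  Rx.mk (nat_lit 21) (nat_lit 5) (nat_lit 2) (nat_lit 0) (nat_lit 3) (nat_lit 319) (nat_lit 274) r5_319 r11_274 (nat_lit 0) (nat_lit 0) (nat_lit 24741287) (nat_lit 0x8017985b4) (nat_lit 561612199),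
  Rx.mk (nat_lit 23) (nat_lit 7) (nat_lit 2) (nat_lit 0) (nat_lit 3) (nat_lit 322) (nat_lit 275) r5_322 r11_275 (nat_lit 0) (nat_lit 0) (nat_lit 24086680) (nat_lit 0x7f9584f64) (nat_lit 568953542),
  Rx.mk (nat_lit 84) (nat_lit 4) (nat_lit 2) (nat_lit 1) (nat_lit 6) (nat_lit 317) (nat_lit 276) r5_317 r11_276 (nat_lit 20064994) (nat_lit 0) (nat_lit 0) (nat_lit 0x807284b4e) (nat_lit 551341856),
  Rx.mk (nat_lit 85) (nat_lit 5) (nat_lit 2) (nat_lit 1) (nat_lit 7) (nat_lit 320) (nat_lit 277) r5_320 r11_277 (nat_lit 0) (nat_lit 0) (nat_lit 0) (nat_lit 0x8017985b4) (nat_lit 536870912),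
  Rx.mk (nat_lit 87) (nat_lit 7) (nat_lit 2) (nat_lit 1) (nat_lit 7) (nat_lit 323) (nat_lit 278) r5_323 r11_278 (nat_lit 0) (nat_lit 0) (nat_lit 0) (nat_lit 0x8017985b4) (nat_lit 536870912),
  Rx.mk (nat_lit 212) (nat_lit 4) (nat_lit 2) (nat_lit 3) (nat_lit 6) (nat_lit 318) (nat_lit 279) r5_318 r11_279 (nat_lit 21930199) (nat_lit 0) (nat_lit 0) (nat_lit 0x8037c1084) (nat_lit 556823461),
  Rx.mk (nat_lit 213) (nat_lit 5) (nat_lit 2) (nat_lit 3) (nat_lit 7) (nat_lit 321) (nat_lit 280) r5_321 r11_280 (nat_lit 0) (nat_lit 0) (nat_lit 0) (nat_lit 0x8017985b4) (nat_lit 536870912)]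
noncomputable def e52_32 : List Rx := [
  Rx.mk (nat_lit 215) (nat_lit 7) (nat_lit 2) (nat_lit 3) (nat_lit 7) (nat_lit 77) (nat_lit 36) r5_77 r6_36 (nat_lit 0) (nat_lit 0) (nat_lit 0) (nat_lit 0x7adbdb5da) (nat_lit 620253362),
  Rx.mk (nat_lit 286) (nat_lit 6) (nat_lit 3) (nat_lit 4) (nat_lit 3) (nat_lit 73) (nat_lit 37) r5_73 r6_37 (nat_lit 0) (nat_lit 0) (nat_lit 6235362) (nat_lit 0x7e4c9eb16) (nat_lit 571302074),
  Rx.mk (nat_lit 414) (nat_lit 6) (nat_lit 3) (nat_lit 6) (nat_lit 7) (nat_lit 74) (nat_lit 40) r5_74 r6_40 (nat_lit 0) (nat_lit 0) (nat_lit 0) (nat_lit 0x7ffe6318e) (nat_lit 538324412),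
  Rx.mk (nat_lit 452) (nat_lit 4) (nat_lit 0) (nat_lit 7) (nat_lit 4) (nat_lit 70) (nat_lit 31) r5_70 r6_31 (nat_lit 214613) (nat_lit 151381) (nat_lit 0) (nat_lit 0x7f84aacac) (nat_lit 545085756),
  Rx.mk (nat_lit 454) (nat_lit 6) (nat_lit 0) (nat_lit 7) (nat_lit 5) (nat_lit 75) (nat_lit 38) r5_75 r6_38 (nat_lit 0) (nat_lit 506970) (nat_lit 0) (nat_lit 0x8036353fa) (nat_lit 534398782),
  Rx.mk (nat_lit 455) (nat_lit 7) (nat_lit 0) (nat_lit 7) (nat_lit 5) (nat_lit 78) (nat_lit 34) r5_78 r6_34 (nat_lit 0) (nat_lit 14912566) (nat_lit 0) (nat_lit 0x7ad02e7c8) (nat_lit 636403678),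
  Rx.mk (nat_lit 468) (nat_lit 4) (nat_lit 2) (nat_lit 7) (nat_lit 6) (nat_lit 71) (nat_lit 33) r5_71 r6_33 (nat_lit 5517824) (nat_lit 0) (nat_lit 0) (nat_lit 0x80fe04cf0) (nat_lit 528080236),
  Rx.mk (nat_lit 471) (nat_lit 7) (nat_lit 2) (nat_lit 7) (nat_lit 7) (nat_lit 79) (nat_lit 35) r5_79 r6_35 (nat_lit 0) (nat_lit 0) (nat_lit 0) (nat_lit 0x7df8696ea) (nat_lit 570525862),
  Rx.mk (nat_lit 476) (nat_lit 4) (nat_lit 3) (nat_lit 7) (nat_lit 6) (nat_lit 72) (nat_lit 32) r5_72 r6_32 (nat_lit 7478372) (nat_lit 0) (nat_lit 0) (nat_lit 0x7e7bc2848) (nat_lit 569688734),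
  Rx.mk (nat_lit 478) (nat_lit 6) (nat_lit 3) (nat_lit 7) (nat_lit 7) (nat_lit 76) (nat_lit 39) r5_76 r6_39 (nat_lit 0) (nat_lit 0) (nat_lit 0) (nat_lit 0x8de7568e8) (nat_lit 325388962)]
noncomputable def e52_33 : List Rx := [
  Rx.mk (nat_lit 262) (nat_lit 6) (nat_lit 0) (nat_lit 4) (nat_lit 1) (nat_lit 83) (nat_lit 80) r5_83 r5_80 (nat_lit 0) (nat_lit 21406) (nat_lit 32434) (nat_lit 0x7df66377e) (nat_lit 569881502),
  Rx.mk (nat_lit 270) (nat_lit 6) (nat_lit 1) (nat_lit 4) (nat_lit 3) (nat_lit 84) (nat_lit 81) r5_84 r5_81 (nat_lit 0) (nat_lit 0) (nat_lit 10427805) (nat_lit 0x7ec01b5f8) (nat_lit 568411717),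
  Rx.mk (nat_lit 286) (nat_lit 6) (nat_lit 3) (nat_lit 4) (nat_lit 3) (nat_lit 85) (nat_lit 82) r5_85 r5_82 (nat_lit 0) (nat_lit 0) (nat_lit 4868394) (nat_lit 0x805425f9a) (nat_lit 537655506),
  Rx.mk (nat_lit 390) (nat_lit 6) (nat_lit 0) (nat_lit 6) (nat_lit 5) (nat_lit 86) (nat_lit 91) r5_86 r5_91 (nat_lit 0) (nat_lit 4689852) (nat_lit 0) (nat_lit 0x775cace2e) (nat_lit 681805714),
  Rx.mk (nat_lit 398) (nat_lit 6) (nat_lit 1) (nat_lit 6) (nat_lit 7) (nat_lit 87) (nat_lit 92) r5_87 r5_92 (nat_lit 0) (nat_lit 0) (nat_lit 0) (nat_lit 0x7af3eeae6) (nat_lit 619248212),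
  Rx.mk (nat_lit 414) (nat_lit 6) (nat_lit 3) (nat_lit 6) (nat_lit 7) (nat_lit 88) (nat_lit 93) r5_88 r5_93 (nat_lit 0) (nat_lit 0) (nat_lit 0) (nat_lit 0x7ff6f362e) (nat_lit 538736412),
  Rx.mk (nat_lit 452) (nat_lit 4) (nat_lit 0) (nat_lit 7) (nat_lit 4) (nat_lit 80) (nat_lit 83) r5_80 r5_83 (nat_lit 32434) (nat_lit 21406) (nat_lit 0) (nat_lit 0x7df66377e) (nat_lit 569881502),
  Rx.mk (nat_lit 454) (nat_lit 6) (nat_lit 0) (nat_lit 7) (nat_lit 5) (nat_lit 89) (nat_lit 89) r5_89 r5_89 (nat_lit 0) (nat_lit 169882) (nat_lit 0) (nat_lit 0x8abe45df8) (nat_lit 373252794),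
  Rx.mk (nat_lit 455) (nat_lit 7) (nat_lit 0) (nat_lit 7) (nat_lit 5) (nat_lit 91) (nat_lit 86) r5_91 r5_86 (nat_lit 0) (nat_lit 4689852) (nat_lit 0) (nat_lit 0x775cace2e) (nat_lit 681805714),
  Rx.mk (nat_lit 460) (nat_lit 4) (nat_lit 1) (nat_lit 7) (nat_lit 6) (nat_lit 81) (nat_lit 84) r5_81 r5_84 (nat_lit 10427805) (nat_lit 0) (nat_lit 0) (nat_lit 0x7ec01b5f8) (nat_lit 568411717),
  Rx.mk (nat_lit 462) (nat_lit 6) (nat_lit 1) (nat_lit 7) (nat_lit 7) (nat_lit 90) (nat_lit 90) r5_90 r5_90 (nat_lit 0) (nat_lit 0) (nat_lit 0) (nat_lit 0x814eaf5e2) (nat_lit 517898262),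
  Rx.mk (nat_lit 463) (nat_lit 7) (nat_lit 1) (nat_lit 7) (nat_lit 7) (nat_lit 92) (nat_lit 87) r5_92 r5_87 (nat_lit 0) (nat_lit 0) (nat_lit 0) (nat_lit 0x7af3eeae6) (nat_lit 619248212),
  Rx.mk (nat_lit 468) (nat_lit 4) (nat_lit 2) (nat_lit 7) (nat_lit 6) (nat_lit 82) (nat_lit 85) r5_82 r5_85 (nat_lit 4868394) (nat_lit 0) (nat_lit 0) (nat_lit 0x805425f9a) (nat_lit 537655506),
  Rx.mk (nat_lit 471) (nat_lit 7) (nat_lit 2) (nat_lit 7) (nat_lit 7) (nat_lit 93) (nat_lit 88) r5_93 r5_88 (nat_lit 0) (nat_lit 0) (nat_lit 0) (nat_lit 0x7ff6f362e) (nat_lit 538736412)]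
noncomputable def e52_34 : List Rx := [
  Rx.mk (nat_lit 260) (nat_lit 4) (nat_lit 0) (nat_lit 4) (nat_lit 0) (nat_lit 202) (nat_lit 68) r5_202 r11_68 (nat_lit 23484085) (nat_lit 4773935) (nat_lit 5946457) (nat_lit 0x49e63d70c) (nat_lit 1446456039),
  Rx.mk (nat_lit 262) (nat_lit 6) (nat_lit 0) (nat_lit 4) (nat_lit 1) (nat_lit 212) (nat_lit 72) r5_212 r11_72 (nat_lit 0) (nat_lit 8957018) (nat_lit 12323810) (nat_lit 0x6eeac40b2) (nat_lit 835033290),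
  Rx.mk (nat_lit 268) (nat_lit 4) (nat_lit 1) (nat_lit 4) (nat_lit 2) (nat_lit 203) (nat_lit 69) r5_203 r11_69 (nat_lit 55665677) (nat_lit 0) (nat_lit 33768507) (nat_lit 0x7ce62247e) (nat_lit 677311396),
  Rx.mk (nat_lit 270) (nat_lit 6) (nat_lit 1) (nat_lit 4) (nat_lit 3) (nat_lit 213) (nat_lit 73) r5_213 r11_73 (nat_lit 0) (nat_lit 0) (nat_lit 18403732) (nat_lit 0x8068f7d2e) (nat_lit 550276494),
  Rx.mk (nat_lit 276) (nat_lit 4) (nat_lit 2) (nat_lit 4) (nat_lit 2) (nat_lit 204) (nat_lit 71) r5_204 r11_71 (nat_lit 60413237) (nat_lit 0) (nat_lit 36801253) (nat_lit 0x7abb7e684) (nat_lit 720123752),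
  Rx.mk (nat_lit 284) (nat_lit 4) (nat_lit 3) (nat_lit 4) (nat_lit 2) (nat_lit 205) (nat_lit 70) r5_205 r11_70 (nat_lit 43048303) (nat_lit 0) (nat_lit 37783563) (nat_lit 0x7dabdf81a) (nat_lit 656267928),
  Rx.mk (nat_lit 286) (nat_lit 6) (nat_lit 3) (nat_lit 4) (nat_lit 3) (nat_lit 214) (nat_lit 74) r5_214 r11_74 (nat_lit 0) (nat_lit 0) (nat_lit 19699007) (nat_lit 0x7fd8785be) (nat_lit 560420169),
  Rx.mk (nat_lit 324) (nat_lit 4) (nat_lit 0) (nat_lit 5) (nat_lit 4) (nat_lit 206) (nat_lit 75) r5_206 r11_75 (nat_lit 41438793) (nat_lit 35682471) (nat_lit 0) (nat_lit 0x752101d04) (nat_lit 790555976),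
  Rx.mk (nat_lit 326) (nat_lit 6) (nat_lit 0) (nat_lit 5) (nat_lit 5) (nat_lit 215) (nat_lit 78) r5_215 r11_78 (nat_lit 0) (nat_lit 16307770) (nat_lit 0) (nat_lit 0x8072222be) (nat_lit 547606132),
  Rx.mk (nat_lit 340) (nat_lit 4) (nat_lit 2) (nat_lit 5) (nat_lit 6) (nat_lit 207) (nat_lit 77) r5_207 r11_77 (nat_lit 24741287) (nat_lit 0) (nat_lit 0) (nat_lit 0x8017985b4) (nat_lit 561612199),
  Rx.mk (nat_lit 348) (nat_lit 4) (nat_lit 3) (nat_lit 5) (nat_lit 6) (nat_lit 208) (nat_lit 76) r5_208 r11_76 (nat_lit 24741287) (nat_lit 0) (nat_lit 0) (nat_lit 0x8017985b4) (nat_lit 561612199),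
  Rx.mk (nat_lit 350) (nat_lit 6) (nat_lit 3) (nat_lit 5) (nat_lit 7) (nat_lit 216) (nat_lit 79) r5_216 r11_79 (nat_lit 0) (nat_lit 0) (nat_lit 0) (nat_lit 0x8017985b4) (nat_lit 536870912),
  Rx.mk (nat_lit 390) (nat_lit 6) (nat_lit 0) (nat_lit 6) (nat_lit 5) (nat_lit 217) (nat_lit 88) r5_217 r11_88 (nat_lit 0) (nat_lit 24841657) (nat_lit 0) (nat_lit 0x7dc3688d8) (nat_lit 598810569),
  Rx.mk (nat_lit 398) (nat_lit 6) (nat_lit 1) (nat_lit 6) (nat_lit 7) (nat_lit 218) (nat_lit 89) r5_218 r11_89 (nat_lit 0) (nat_lit 0) (nat_lit 0) (nat_lit 0x8017985b4) (nat_lit 536870912),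
  Rx.mk (nat_lit 414) (nat_lit 6) (nat_lit 3) (nat_lit 6) (nat_lit 7) (nat_lit 219) (nat_lit 90) r5_219 r11_90 (nat_lit 0) (nat_lit 0) (nat_lit 0) (nat_lit 0x8017985b4) (nat_lit 536870912),
  Rx.mk (nat_lit 452) (nat_lit 4) (nat_lit 0) (nat_lit 7) (nat_lit 4) (nat_lit 209) (nat_lit 80) r5_209 r11_80 (nat_lit 163052374) (nat_lit 10516416) (nat_lit 0) (nat_lit 0x79e792546) (nat_lit 809704152),
  Rx.mk (nat_lit 454) (nat_lit 6) (nat_lit 0) (nat_lit 7) (nat_lit 5) (nat_lit 220) (nat_lit 86) r5_220 r11_86 (nat_lit 0) (nat_lit 16204149) (nat_lit 0) (nat_lit 0x809309fb8) (nat_lit 545503711),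
  Rx.mk (nat_lit 455) (nat_lit 7) (nat_lit 0) (nat_lit 7) (nat_lit 5) (nat_lit 222) (nat_lit 83) r5_222 r11_83 (nat_lit 0) (nat_lit 20811975) (nat_lit 0) (nat_lit 0x7fde627e0) (nat_lit 561177737),
  Rx.mk (nat_lit 460) (nat_lit 4) (nat_lit 1) (nat_lit 7) (nat_lit 6) (nat_lit 210) (nat_lit 81) r5_210 r11_81 (nat_lit 24741287) (nat_lit 0) (nat_lit 0) (nat_lit 0x8036bdc00) (nat_lit 559695499),
  Rx.mk (nat_lit 462) (nat_lit 6) (nat_lit 1) (nat_lit 7) (nat_lit 7) (nat_lit 221) (nat_lit 87) r5_221 r11_87 (nat_lit 0) (nat_lit 0) (nat_lit 0) (nat_lit 0x8017985b4) (nat_lit 536870912),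
  Rx.mk (nat_lit 463) (nat_lit 7) (nat_lit 1) (nat_lit 7) (nat_lit 7) (nat_lit 223) (nat_lit 84) r5_223 r11_84 (nat_lit 0) (nat_lit 0) (nat_lit 0) (nat_lit 0x8017985b4) (nat_lit 536870912),
  Rx.mk (nat_lit 468) (nat_lit 4) (nat_lit 2) (nat_lit 7) (nat_lit 6) (nat_lit 211) (nat_lit 82) r5_211 r11_82 (nat_lit 25956094) (nat_lit 0) (nat_lit 0) (nat_lit 0x80019bd60) (nat_lit 564158956),
  Rx.mk (nat_lit 471) (nat_lit 7) (nat_lit 2) (nat_lit 7) (nat_lit 7) (nat_lit 224) (nat_lit 85) r5_224 r11_85 (nat_lit 0) (nat_lit 0) (nat_lit 0) (nat_lit 0x8017985b4) (nat_lit 536870912)]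
noncomputable def e52_35 : List Rx := [
  Rx.mk (nat_lit 23) (nat_lit 7) (nat_lit 2) (nat_lit 0) (nat_lit 3) (nat_lit 243) (nat_lit 238) r5_243 r6_238 (nat_lit 0) (nat_lit 0) (nat_lit 52534) (nat_lit 0x806957f26) (nat_lit 530664346),
  Rx.mk (nat_lit 212) (nat_lit 4) (nat_lit 2) (nat_lit 3) (nat_lit 6) (nat_lit 242) (nat_lit 239) r5_242 r6_239 (nat_lit 355084) (nat_lit 0) (nat_lit 0) (nat_lit 0x7fdb97272) (nat_lit 539655146),
  Rx.mk (nat_lit 215) (nat_lit 7) (nat_lit 2) (nat_lit 3) (nat_lit 7) (nat_lit 244) (nat_lit 240) r5_244 r6_240 (nat_lit 0) (nat_lit 0) (nat_lit 0) (nat_lit 0x7f639d938) (nat_lit 547371662)]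
noncomputable def e52_36 : List Rx := [
  Rx.mk (nat_lit 212) (nat_lit 4) (nat_lit 2) (nat_lit 3) (nat_lit 6) (nat_lit 245) (nat_lit 406) r5_245 r12_406 (nat_lit 174098) (nat_lit 0) (nat_lit 0) (nat_lit 0x8023fadac) (nat_lit 534971660),
  Rx.mk (nat_lit 215) (nat_lit 7) (nat_lit 2) (nat_lit 3) (nat_lit 7) (nat_lit 251) (nat_lit 408) r5_251 r12_408 (nat_lit 0) (nat_lit 0) (nat_lit 0) (nat_lit 0x7a825aed4) (nat_lit 625769862),
  Rx.mk (nat_lit 452) (nat_lit 4) (nat_lit 0) (nat_lit 7) (nat_lit 4) (nat_lit 246) (nat_lit 404) r5_246 r12_404 (nat_lit 257136) (nat_lit 183720) (nat_lit 0) (nat_lit 0x78fe81dd4) (nat_lit 650662468),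
  Rx.mk (nat_lit 454) (nat_lit 6) (nat_lit 0) (nat_lit 7) (nat_lit 5) (nat_lit 249) (nat_lit 409) r5_249 r12_409 (nat_lit 0) (nat_lit 385241) (nat_lit 0) (nat_lit 0x80ae72098) (nat_lit 527020953),
  Rx.mk (nat_lit 468) (nat_lit 4) (nat_lit 2) (nat_lit 7) (nat_lit 6) (nat_lit 247) (nat_lit 407) r5_247 r12_407 (nat_lit 3185059) (nat_lit 0) (nat_lit 0) (nat_lit 0x8418ad1da) (nat_lit 478052171),
  Rx.mk (nat_lit 476) (nat_lit 4) (nat_lit 3) (nat_lit 7) (nat_lit 6) (nat_lit 248) (nat_lit 405) r5_248 r12_405 (nat_lit 6750895) (nat_lit 0) (nat_lit 0) (nat_lit 0x78f123c8c) (nat_lit 658355657),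
  Rx.mk (nat_lit 478) (nat_lit 6) (nat_lit 3) (nat_lit 7) (nat_lit 7) (nat_lit 250) (nat_lit 410) r5_250 r12_410 (nat_lit 0) (nat_lit 0) (nat_lit 0) (nat_lit 0x8f2213cf0) (nat_lit 306467812)]
noncomputable def e52_37 : List Rx := [
  Rx.mk (nat_lit 162) (nat_lit 2) (nat_lit 4) (nat_lit 2) (nat_lit 5) (nat_lit 1) (nat_lit 69) r5_1 r0_69 (nat_lit 0) (nat_lit 3947515) (nat_lit 0) (nat_lit 0x65de79e82) (nat_lit 963893527),
  Rx.mk (nat_lit 176) (nat_lit 0) (nat_lit 6) (nat_lit 2) (nat_lit 6) (nat_lit 0) (nat_lit 67) r5_0 r0_67 (nat_lit 3027604) (nat_lit 0) (nat_lit 0) (nat_lit 0x6b9390500) (nat_lit 870600266),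
  Rx.mk (nat_lit 178) (nat_lit 2) (nat_lit 6) (nat_lit 2) (nat_lit 7) (nat_lit 2) (nat_lit 70) r5_2 r0_70 (nat_lit 0) (nat_lit 0) (nat_lit 0) (nat_lit 0x7d9d38000) (nat_lit 576358762),
  Rx.mk (nat_lit 418) (nat_lit 2) (nat_lit 4) (nat_lit 6) (nat_lit 5) (nat_lit 3) (nat_lit 68) r5_3 r0_68 (nat_lit 0) (nat_lit 2967474) (nat_lit 0) (nat_lit 0x6ee61820c) (nat_lit 816847386),
  Rx.mk (nat_lit 422) (nat_lit 6) (nat_lit 4) (nat_lit 6) (nat_lit 5) (nat_lit 4) (nat_lit 65) r5_4 r0_65 (nat_lit 0) (nat_lit 5300773) (nat_lit 0) (nat_lit 0x744841172) (nat_lit 732209835),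
  Rx.mk (nat_lit 446) (nat_lit 6) (nat_lit 7) (nat_lit 6) (nat_lit 7) (nat_lit 5) (nat_lit 66) r5_5 r0_66 (nat_lit 0) (nat_lit 0) (nat_lit 0) (nat_lit 0x7e757e964) (nat_lit 562790112)]
noncomputable def e52_38 : List Rx := [
  Rx.mk (nat_lit 16) (nat_lit 0) (nat_lit 2) (nat_lit 0) (nat_lit 2) (nat_lit 94) (nat_lit 204) r5_94 r0_204 (nat_lit 46998) (nat_lit 0) (nat_lit 538423) (nat_lit 0x84bca4798) (nat_lit 465237583),
  Rx.mk (nat_lit 19) (nat_lit 3) (nat_lit 2) (nat_lit 0) (nat_lit 3) (nat_lit 100) (nat_lit 205) r5_100 r0_205 (nat_lit 0) (nat_lit 0) (nat_lit 331782363) (nat_lit 0x7cda33514) (nat_lit 920285625),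
  Rx.mk (nat_lit 48) (nat_lit 0) (nat_lit 6) (nat_lit 0) (nat_lit 2) (nat_lit 95) (nat_lit 209) r5_95 r0_209 (nat_lit 14014) (nat_lit 0) (nat_lit 20620) (nat_lit 0x76e524eec) (nat_lit 684143846),
  Rx.mk (nat_lit 162) (nat_lit 2) (nat_lit 4) (nat_lit 2) (nat_lit 5) (nat_lit 97) (nat_lit 207) r5_97 r0_207 (nat_lit 0) (nat_lit 10938667) (nat_lit 0) (nat_lit 0x6b03cd2ce) (nat_lit 887781329),
  Rx.mk (nat_lit 176) (nat_lit 0) (nat_lit 6) (nat_lit 2) (nat_lit 6) (nat_lit 96) (nat_lit 210) r5_96 r0_210 (nat_lit 6178764) (nat_lit 0) (nat_lit 0) (nat_lit 0x7f794ecf0) (nat_lit 552570776),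
  Rx.mk (nat_lit 178) (nat_lit 2) (nat_lit 6) (nat_lit 2) (nat_lit 7) (nat_lit 98) (nat_lit 211) r5_98 r0_211 (nat_lit 0) (nat_lit 0) (nat_lit 0) (nat_lit 0x8017985b4) (nat_lit 536870912),
  Rx.mk (nat_lit 211) (nat_lit 3) (nat_lit 2) (nat_lit 3) (nat_lit 7) (nat_lit 101) (nat_lit 206) r5_101 r0_206 (nat_lit 0) (nat_lit 0) (nat_lit 0) (nat_lit 0x67513425a) (nat_lit 936576412),
  Rx.mk (nat_lit 418) (nat_lit 2) (nat_lit 4) (nat_lit 6) (nat_lit 5) (nat_lit 99) (nat_lit 208) r5_99 r0_208 (nat_lit 0) (nat_lit 9650169) (nat_lit 0) (nat_lit 0x70202c884) (nat_lit 803847431)]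
noncomputable def e52_39 : List Rx := [
  Rx.mk (nat_lit 162) (nat_lit 2) (nat_lit 4) (nat_lit 2) (nat_lit 5) (nat_lit 103) (nat_lit 50) r5_103 r7_50 (nat_lit 0) (nat_lit 19223735) (nat_lit 0) (nat_lit 0x75d2c1c74) (nat_lit 721395547),
  Rx.mk (nat_lit 176) (nat_lit 0) (nat_lit 6) (nat_lit 2) (nat_lit 6) (nat_lit 102) (nat_lit 48) r5_102 r7_48 (nat_lit 6601539) (nat_lit 0) (nat_lit 0) (nat_lit 0x821cfef2e) (nat_lit 512046101),
  Rx.mk (nat_lit 178) (nat_lit 2) (nat_lit 6) (nat_lit 2) (nat_lit 7) (nat_lit 104) (nat_lit 51) r5_104 r7_51 (nat_lit 0) (nat_lit 0) (nat_lit 0) (nat_lit 0x8017985b4) (nat_lit 536870912),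
  Rx.mk (nat_lit 418) (nat_lit 2) (nat_lit 4) (nat_lit 6) (nat_lit 5) (nat_lit 105) (nat_lit 49) r5_105 r7_49 (nat_lit 0) (nat_lit 7182949) (nat_lit 0) (nat_lit 0x7cac4e324) (nat_lit 598492961)]
noncomputable def e52_40 : List Rx := [
  Rx.mk (nat_lit 17) (nat_lit 1) (nat_lit 2) (nat_lit 0) (nat_lit 3) (nat_lit 258) (nat_lit 238) r5_258 r2_238 (nat_lit 0) (nat_lit 0) (nat_lit 39193482) (nat_lit 0x80a1c8662) (nat_lit 567515444),
  Rx.mk (nat_lit 49) (nat_lit 1) (nat_lit 6) (nat_lit 0) (nat_lit 3) (nat_lit 259) (nat_lit 239) r5_259 r2_239 (nat_lit 0) (nat_lit 0) (nat_lit 20262659) (nat_lit 0x7ffd89060) (nat_lit 558709871),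
  Rx.mk (nat_lit 177) (nat_lit 1) (nat_lit 6) (nat_lit 2) (nat_lit 7) (nat_lit 260) (nat_lit 240) r5_260 r2_240 (nat_lit 0) (nat_lit 0) (nat_lit 0) (nat_lit 0x8017985b4) (nat_lit 536870912)]
noncomputable def e52_41 : List Rx := [
  Rx.mk (nat_lit 177) (nat_lit 1) (nat_lit 6) (nat_lit 2) (nat_lit 7) (nat_lit 266) (nat_lit 215) r5_266 r9_215 (nat_lit 0) (nat_lit 0) (nat_lit 0) (nat_lit 0x7fd940442) (nat_lit 540690962)]
noncomputable def e52_42 : List Rx := [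
  Rx.mk (nat_lit 17) (nat_lit 1) (nat_lit 2) (nat_lit 0) (nat_lit 3) (nat_lit 261) (nat_lit 225) r5_261 r9_225 (nat_lit 0) (nat_lit 0) (nat_lit 29963902) (nat_lit 0x7c0aae942) (nat_lit 631646464),
  Rx.mk (nat_lit 49) (nat_lit 1) (nat_lit 6) (nat_lit 0) (nat_lit 3) (nat_lit 262) (nat_lit 224) r5_262 r9_224 (nat_lit 0) (nat_lit 0) (nat_lit 27922064) (nat_lit 0x7cb09d100) (nat_lit 619170926),
  Rx.mk (nat_lit 81) (nat_lit 1) (nat_lit 2) (nat_lit 1) (nat_lit 7) (nat_lit 263) (nat_lit 227) r5_263 r9_227 (nat_lit 0) (nat_lit 0) (nat_lit 0) (nat_lit 0x8017985b4) (nat_lit 536870912),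
  Rx.mk (nat_lit 113) (nat_lit 1) (nat_lit 6) (nat_lit 1) (nat_lit 7) (nat_lit 264) (nat_lit 226) r5_264 r9_226 (nat_lit 0) (nat_lit 0) (nat_lit 0) (nat_lit 0x8017985b4) (nat_lit 536870912),
  Rx.mk (nat_lit 177) (nat_lit 1) (nat_lit 6) (nat_lit 2) (nat_lit 7) (nat_lit 265) (nat_lit 228) r5_265 r9_228 (nat_lit 0) (nat_lit 0) (nat_lit 0) (nat_lit 0x8017985b4) (nat_lit 536870912)]
noncomputable def e52_43 : List Rx := [
  Rx.mk (nat_lit 16) (nat_lit 0) (nat_lit 2) (nat_lit 0) (nat_lit 2) (nat_lit 106) (nat_lit 225) r5_106 r1_225 (nat_lit 1138385) (nat_lit 0) (nat_lit 183334041) (nat_lit 0x858f1770c) (nat_lit 636880238),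
  Rx.mk (nat_lit 17) (nat_lit 1) (nat_lit 2) (nat_lit 0) (nat_lit 3) (nat_lit 109) (nat_lit 226) r5_109 r1_226 (nat_lit 0) (nat_lit 0) (nat_lit 20365735) (nat_lit 0x82689a0c8) (nat_lit 521307397),
  Rx.mk (nat_lit 19) (nat_lit 3) (nat_lit 2) (nat_lit 0) (nat_lit 3) (nat_lit 113) (nat_lit 227) r5_113 r1_227 (nat_lit 0) (nat_lit 0) (nat_lit 34273461) (nat_lit 0x80eb8917a) (nat_lit 558087723),
  Rx.mk (nat_lit 48) (nat_lit 0) (nat_lit 6) (nat_lit 0) (nat_lit 2) (nat_lit 107) (nat_lit 229) r5_107 r1_229 (nat_lit 3281434) (nat_lit 0) (nat_lit 5641616) (nat_lit 0x6d31d3d56) (nat_lit 850354662),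
  Rx.mk (nat_lit 49) (nat_lit 1) (nat_lit 6) (nat_lit 0) (nat_lit 3) (nat_lit 110) (nat_lit 230) r5_110 r1_230 (nat_lit 0) (nat_lit 0) (nat_lit 14046649) (nat_lit 0x808591f7a) (nat_lit 544109911),
  Rx.mk (nat_lit 176) (nat_lit 0) (nat_lit 6) (nat_lit 2) (nat_lit 6) (nat_lit 108) (nat_lit 231) r5_108 r1_231 (nat_lit 13555305) (nat_lit 0) (nat_lit 0) (nat_lit 0x7b2b08126) (nat_lit 629326967),
  Rx.mk (nat_lit 177) (nat_lit 1) (nat_lit 6) (nat_lit 2) (nat_lit 7) (nat_lit 111) (nat_lit 232) r5_111 r1_232 (nat_lit 0) (nat_lit 0) (nat_lit 0) (nat_lit 0x8017985b4) (nat_lit 536870912),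
  Rx.mk (nat_lit 178) (nat_lit 2) (nat_lit 6) (nat_lit 2) (nat_lit 7) (nat_lit 112) (nat_lit 233) r5_112 r1_233 (nat_lit 0) (nat_lit 0) (nat_lit 0) (nat_lit 0x8017985b4) (nat_lit 536870912),
  Rx.mk (nat_lit 211) (nat_lit 3) (nat_lit 2) (nat_lit 3) (nat_lit 7) (nat_lit 114) (nat_lit 228) r5_114 r1_228 (nat_lit 0) (nat_lit 0) (nat_lit 0) (nat_lit 0x80759d768) (nat_lit 530997812)]
noncomputable def e52_44 : List Rx := [
  Rx.mk (nat_lit 176) (nat_lit 0) (nat_lit 6) (nat_lit 2) (nat_lit 6) (nat_lit 115) (nat_lit 58) r5_115 r8_58 (nat_lit 14303237) (nat_lit 0) (nat_lit 0) (nat_lit 0x7ea35f61c) (nat_lit 574182799),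
  Rx.mk (nat_lit 177) (nat_lit 1) (nat_lit 6) (nat_lit 2) (nat_lit 7) (nat_lit 116) (nat_lit 59) r5_116 r8_59 (nat_lit 0) (nat_lit 0) (nat_lit 0) (nat_lit 0x805c00e40) (nat_lit 532666762),
  Rx.mk (nat_lit 178) (nat_lit 2) (nat_lit 6) (nat_lit 2) (nat_lit 7) (nat_lit 117) (nat_lit 60) r5_117 r8_60 (nat_lit 0) (nat_lit 0) (nat_lit 0) (nat_lit 0x8017985b4) (nat_lit 536870912)]
noncomputable def e52_45 : List Rx := [
  Rx.mk (nat_lit 162) (nat_lit 2) (nat_lit 4) (nat_lit 2) (nat_lit 5) (nat_lit 6) (nat_lit 63) r5_6 r1_63 (nat_lit 0) (nat_lit 10795266) (nat_lit 0) (nat_lit 0x6d3a97438) (nat_lit 851857228),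
  Rx.mk (nat_lit 170) (nat_lit 2) (nat_lit 5) (nat_lit 2) (nat_lit 7) (nat_lit 7) (nat_lit 64) r5_7 r1_64 (nat_lit 0) (nat_lit 0) (nat_lit 0) (nat_lit 0x8038a520c) (nat_lit 534837962),
  Rx.mk (nat_lit 178) (nat_lit 2) (nat_lit 6) (nat_lit 2) (nat_lit 7) (nat_lit 8) (nat_lit 65) r5_8 r1_65 (nat_lit 0) (nat_lit 0) (nat_lit 0) (nat_lit 0x8009d4658) (nat_lit 537721562),
  Rx.mk (nat_lit 418) (nat_lit 2) (nat_lit 4) (nat_lit 6) (nat_lit 5) (nat_lit 9) (nat_lit 61) r5_9 r1_61 (nat_lit 0) (nat_lit 3702159) (nat_lit 0) (nat_lit 0x6eab69304) (nat_lit 821330421),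
  Rx.mk (nat_lit 422) (nat_lit 6) (nat_lit 4) (nat_lit 6) (nat_lit 5) (nat_lit 11) (nat_lit 58) r5_11 r1_58 (nat_lit 0) (nat_lit 6051545) (nat_lit 0) (nat_lit 0x72f5acc5a) (nat_lit 754383857),
  Rx.mk (nat_lit 426) (nat_lit 2) (nat_lit 5) (nat_lit 6) (nat_lit 7) (nat_lit 10) (nat_lit 62) r5_10 r1_62 (nat_lit 0) (nat_lit 0) (nat_lit 0) (nat_lit 0x8270dea40) (nat_lit 500473562),
  Rx.mk (nat_lit 430) (nat_lit 6) (nat_lit 5) (nat_lit 6) (nat_lit 7) (nat_lit 12) (nat_lit 59) r5_12 r1_59 (nat_lit 0) (nat_lit 0) (nat_lit 0) (nat_lit 0x814d8e96a) (nat_lit 517942162),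
  Rx.mk (nat_lit 446) (nat_lit 6) (nat_lit 7) (nat_lit 6) (nat_lit 7) (nat_lit 13) (nat_lit 60) r5_13 r1_60 (nat_lit 0) (nat_lit 0) (nat_lit 0) (nat_lit 0x7fe62a1bc) (nat_lit 539838662)]
noncomputable def e52_46 : List Rx := [
  Rx.mk (nat_lit 426) (nat_lit 2) (nat_lit 5) (nat_lit 6) (nat_lit 7) (nat_lit 14) (nat_lit 58) r5_14 r2_58 (nat_lit 0) (nat_lit 0) (nat_lit 0) (nat_lit 0x8017985b4) (nat_lit 536870912),
  Rx.mk (nat_lit 430) (nat_lit 6) (nat_lit 5) (nat_lit 6) (nat_lit 7) (nat_lit 15) (nat_lit 57) r5_15 r2_57 (nat_lit 0) (nat_lit 0) (nat_lit 0) (nat_lit 0x8059dee46) (nat_lit 532797862)]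
noncomputable def e52_47 : List Rx := [
  Rx.mk (nat_lit 162) (nat_lit 2) (nat_lit 4) (nat_lit 2) (nat_lit 5) (nat_lit 118) (nat_lit 201) r5_118 r8_201 (nat_lit 0) (nat_lit 25748057) (nat_lit 0) (nat_lit 0x790d284fa) (nat_lit 675764869),
  Rx.mk (nat_lit 170) (nat_lit 2) (nat_lit 5) (nat_lit 2) (nat_lit 7) (nat_lit 119) (nat_lit 203) r5_119 r8_203 (nat_lit 0) (nat_lit 0) (nat_lit 0) (nat_lit 0x8017985b4) (nat_lit 536870912),
  Rx.mk (nat_lit 178) (nat_lit 2) (nat_lit 6) (nat_lit 2) (nat_lit 7) (nat_lit 120) (nat_lit 205) r5_120 r8_205 (nat_lit 0) (nat_lit 0) (nat_lit 0) (nat_lit 0x8017985b4) (nat_lit 536870912),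
  Rx.mk (nat_lit 418) (nat_lit 2) (nat_lit 4) (nat_lit 6) (nat_lit 5) (nat_lit 121) (nat_lit 202) r5_121 r8_202 (nat_lit 0) (nat_lit 10065734) (nat_lit 0) (nat_lit 0x7e9c4689e) (nat_lit 570285946),
  Rx.mk (nat_lit 426) (nat_lit 2) (nat_lit 5) (nat_lit 6) (nat_lit 7) (nat_lit 122) (nat_lit 204) r5_122 r8_204 (nat_lit 0) (nat_lit 0) (nat_lit 0) (nat_lit 0x80d50bd58) (nat_lit 525282062)]
noncomputable def e52_48 : List Rx := [
  Rx.mk (nat_lit 426) (nat_lit 2) (nat_lit 5) (nat_lit 6) (nat_lit 7) (nat_lit 123) (nat_lit 18) r5_123 r9_18 (nat_lit 0) (nat_lit 0) (nat_lit 0) (nat_lit 0x8017985b4) (nat_lit 536870912)]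
noncomputable def e52_49 : List Rx := [
  Rx.mk (nat_lit 426) (nat_lit 2) (nat_lit 5) (nat_lit 6) (nat_lit 7) (nat_lit 150) (nat_lit 63) r5_150 r9_63 (nat_lit 0) (nat_lit 0) (nat_lit 0) (nat_lit 0x8017985b4) (nat_lit 536870912),
  Rx.mk (nat_lit 430) (nat_lit 6) (nat_lit 5) (nat_lit 6) (nat_lit 7) (nat_lit 151) (nat_lit 64) r5_151 r9_64 (nat_lit 0) (nat_lit 0) (nat_lit 0) (nat_lit 0x7ffc47724) (nat_lit 538543512)]
noncomputable def e52_50 : List Rx := [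
  Rx.mk (nat_lit 19) (nat_lit 3) (nat_lit 2) (nat_lit 0) (nat_lit 3) (nat_lit 21) (nat_lit 54) r5_21 r3_54 (nat_lit 0) (nat_lit 0) (nat_lit 10455) (nat_lit 0x8008c36ba) (nat_lit 536361367),
  Rx.mk (nat_lit 51) (nat_lit 3) (nat_lit 6) (nat_lit 0) (nat_lit 3) (nat_lit 22) (nat_lit 53) r5_22 r3_53 (nat_lit 0) (nat_lit 0) (nat_lit 101429) (nat_lit 0x75fc83cd8) (nat_lit 698920341),
  Rx.mk (nat_lit 162) (nat_lit 2) (nat_lit 4) (nat_lit 2) (nat_lit 5) (nat_lit 17) (nat_lit 59) r5_17 r3_59 (nat_lit 0) (nat_lit 16744) (nat_lit 0) (nat_lit 0x750724bf2) (nat_lit 714320356),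
  Rx.mk (nat_lit 176) (nat_lit 0) (nat_lit 6) (nat_lit 2) (nat_lit 6) (nat_lit 16) (nat_lit 52) r5_16 r3_52 (nat_lit 221843) (nat_lit 0) (nat_lit 0) (nat_lit 0x79aa7fb2c) (nat_lit 639578955),
  Rx.mk (nat_lit 178) (nat_lit 2) (nat_lit 6) (nat_lit 2) (nat_lit 7) (nat_lit 18) (nat_lit 60) r5_18 r3_60 (nat_lit 0) (nat_lit 0) (nat_lit 0) (nat_lit 0x7a87b5e10) (nat_lit 626124662),
  Rx.mk (nat_lit 179) (nat_lit 3) (nat_lit 6) (nat_lit 2) (nat_lit 7) (nat_lit 23) (nat_lit 56) r5_23 r3_56 (nat_lit 0) (nat_lit 0) (nat_lit 0) (nat_lit 0x8fbafdd30) (nat_lit 297369762),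
  Rx.mk (nat_lit 211) (nat_lit 3) (nat_lit 2) (nat_lit 3) (nat_lit 7) (nat_lit 24) (nat_lit 55) r5_24 r3_55 (nat_lit 0) (nat_lit 0) (nat_lit 0) (nat_lit 0x74ad72000) (nat_lit 720619462),
  Rx.mk (nat_lit 215) (nat_lit 7) (nat_lit 2) (nat_lit 3) (nat_lit 7) (nat_lit 26) (nat_lit 50) r5_26 r3_50 (nat_lit 0) (nat_lit 0) (nat_lit 0) (nat_lit 0x7f169299a) (nat_lit 552155012),
  Rx.mk (nat_lit 418) (nat_lit 2) (nat_lit 4) (nat_lit 6) (nat_lit 5) (nat_lit 19) (nat_lit 57) r5_19 r3_57 (nat_lit 0) (nat_lit 189369) (nat_lit 0) (nat_lit 0x726ece4ea) (nat_lit 756498431),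
  Rx.mk (nat_lit 442) (nat_lit 2) (nat_lit 7) (nat_lit 6) (nat_lit 7) (nat_lit 20) (nat_lit 58) r5_20 r3_58 (nat_lit 0) (nat_lit 0) (nat_lit 0) (nat_lit 0x8463a3ca2) (nat_lit 470475612),
  Rx.mk (nat_lit 446) (nat_lit 6) (nat_lit 7) (nat_lit 6) (nat_lit 7) (nat_lit 25) (nat_lit 51) r5_25 r3_51 (nat_lit 0) (nat_lit 0) (nat_lit 0) (nat_lit 0x6ac4b35b6) (nat_lit 880256562)]
noncomputable def e52_51 : List Rx := [
  Rx.mk (nat_lit 162) (nat_lit 2) (nat_lit 4) (nat_lit 2) (nat_lit 5) (nat_lit 28) (nat_lit 63) r5_28 r4_63 (nat_lit 0) (nat_lit 8135991) (nat_lit 0) (nat_lit 0x79057fe38) (nat_lit 658530703),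
  Rx.mk (nat_lit 176) (nat_lit 0) (nat_lit 6) (nat_lit 2) (nat_lit 6) (nat_lit 27) (nat_lit 59) r5_27 r4_59 (nat_lit 6174630) (nat_lit 0) (nat_lit 0) (nat_lit 0x7de1761fe) (nat_lit 578007592),
  Rx.mk (nat_lit 178) (nat_lit 2) (nat_lit 6) (nat_lit 2) (nat_lit 7) (nat_lit 29) (nat_lit 64) r5_29 r4_64 (nat_lit 0) (nat_lit 0) (nat_lit 0) (nat_lit 0x80009fe20) (nat_lit 538237112),
  Rx.mk (nat_lit 179) (nat_lit 3) (nat_lit 6) (nat_lit 2) (nat_lit 7) (nat_lit 32) (nat_lit 60) r5_32 r4_60 (nat_lit 0) (nat_lit 0) (nat_lit 0) (nat_lit 0x80483a47e) (nat_lit 532926012),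
  Rx.mk (nat_lit 418) (nat_lit 2) (nat_lit 4) (nat_lit 6) (nat_lit 5) (nat_lit 30) (nat_lit 61) r5_30 r4_61 (nat_lit 0) (nat_lit 2696286) (nat_lit 0) (nat_lit 0x7ed2b6d5c) (nat_lit 559201548),
  Rx.mk (nat_lit 442) (nat_lit 2) (nat_lit 7) (nat_lit 6) (nat_lit 7) (nat_lit 31) (nat_lit 62) r5_31 r4_62 (nat_lit 0) (nat_lit 0) (nat_lit 0) (nat_lit 0x80e735e2a) (nat_lit 524112462),
  Rx.mk (nat_lit 446) (nat_lit 6) (nat_lit 7) (nat_lit 6) (nat_lit 7) (nat_lit 33) (nat_lit 58) r5_33 r4_58 (nat_lit 0) (nat_lit 0) (nat_lit 0) (nat_lit 0x7f5b0655e) (nat_lit 548352312)]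
noncomputable def e52_52 : List Rx := [
  Rx.mk (nat_lit 51) (nat_lit 3) (nat_lit 6) (nat_lit 0) (nat_lit 3) (nat_lit 39) (nat_lit 44) r5_39 r5_44 (nat_lit 0) (nat_lit 0) (nat_lit 95224) (nat_lit 0x657b91806) (nat_lit 965803786),
  Rx.mk (nat_lit 162) (nat_lit 2) (nat_lit 4) (nat_lit 2) (nat_lit 5) (nat_lit 35) (nat_lit 49) r5_35 r5_49 (nat_lit 0) (nat_lit 60765) (nat_lit 0) (nat_lit 0x613d6daec) (nat_lit 1034367827),
  Rx.mk (nat_lit 176) (nat_lit 0) (nat_lit 6) (nat_lit 2) (nat_lit 6) (nat_lit 34) (nat_lit 43) r5_34 r5_43 (nat_lit 7782) (nat_lit 0) (nat_lit 0) (nat_lit 0x7fffb2940) (nat_lit 536903144),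
  Rx.mk (nat_lit 178) (nat_lit 2) (nat_lit 6) (nat_lit 2) (nat_lit 7) (nat_lit 36) (nat_lit 51) r5_36 r5_51 (nat_lit 0) (nat_lit 0) (nat_lit 0) (nat_lit 0x7cdc412e8) (nat_lit 588411612),
  Rx.mk (nat_lit 179) (nat_lit 3) (nat_lit 6) (nat_lit 2) (nat_lit 7) (nat_lit 40) (nat_lit 47) r5_40 r5_47 (nat_lit 0) (nat_lit 0) (nat_lit 0) (nat_lit 0x9c18cb802) (nat_lit 108391362),
  Rx.mk (nat_lit 186) (nat_lit 2) (nat_lit 7) (nat_lit 2) (nat_lit 7) (nat_lit 37) (nat_lit 50) r5_37 r5_50 (nat_lit 0) (nat_lit 0) (nat_lit 0) (nat_lit 0x7bbed4a8a) (nat_lit 606336812),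
  Rx.mk (nat_lit 211) (nat_lit 3) (nat_lit 2) (nat_lit 3) (nat_lit 7) (nat_lit 41) (nat_lit 46) r5_41 r5_46 (nat_lit 0) (nat_lit 0) (nat_lit 0) (nat_lit 0x69d8ee522) (nat_lit 895187012),
  Rx.mk (nat_lit 215) (nat_lit 7) (nat_lit 2) (nat_lit 3) (nat_lit 7) (nat_lit 48) (nat_lit 38) r5_48 r5_38 (nat_lit 0) (nat_lit 0) (nat_lit 0) (nat_lit 0x71216a11e) (nat_lit 777371612),
  Rx.mk (nat_lit 243) (nat_lit 3) (nat_lit 6) (nat_lit 3) (nat_lit 7) (nat_lit 42) (nat_lit 45) r5_42 r5_45 (nat_lit 0) (nat_lit 0) (nat_lit 0) (nat_lit 0x84d140d82) (nat_lit 463855312),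
  Rx.mk (nat_lit 286) (nat_lit 6) (nat_lit 3) (nat_lit 4) (nat_lit 3) (nat_lit 44) (nat_lit 39) r5_44 r5_39 (nat_lit 0) (nat_lit 0) (nat_lit 95224) (nat_lit 0x657b91806) (nat_lit 965803786),
  Rx.mk (nat_lit 414) (nat_lit 6) (nat_lit 3) (nat_lit 6) (nat_lit 7) (nat_lit 45) (nat_lit 42) r5_45 r5_42 (nat_lit 0) (nat_lit 0) (nat_lit 0) (nat_lit 0x84d140d82) (nat_lit 463855312),
  Rx.mk (nat_lit 442) (nat_lit 2) (nat_lit 7) (nat_lit 6) (nat_lit 7) (nat_lit 38) (nat_lit 48) r5_38 r5_48 (nat_lit 0) (nat_lit 0) (nat_lit 0) (nat_lit 0x71216a11e) (nat_lit 777371612),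
  Rx.mk (nat_lit 446) (nat_lit 6) (nat_lit 7) (nat_lit 6) (nat_lit 7) (nat_lit 46) (nat_lit 41) r5_46 r5_41 (nat_lit 0) (nat_lit 0) (nat_lit 0) (nat_lit 0x69d8ee522) (nat_lit 895187012),
  Rx.mk (nat_lit 455) (nat_lit 7) (nat_lit 0) (nat_lit 7) (nat_lit 5) (nat_lit 49) (nat_lit 35) r5_49 r5_35 (nat_lit 0) (nat_lit 60765) (nat_lit 0) (nat_lit 0x613d6daec) (nat_lit 1034367827),
  Rx.mk (nat_lit 471) (nat_lit 7) (nat_lit 2) (nat_lit 7) (nat_lit 7) (nat_lit 50) (nat_lit 37) r5_50 r5_37 (nat_lit 0) (nat_lit 0) (nat_lit 0) (nat_lit 0x7bbed4a8a) (nat_lit 606336812),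
  Rx.mk (nat_lit 476) (nat_lit 4) (nat_lit 3) (nat_lit 7) (nat_lit 6) (nat_lit 43) (nat_lit 34) r5_43 r5_34 (nat_lit 7782) (nat_lit 0) (nat_lit 0) (nat_lit 0x7fffb2940) (nat_lit 536903144),
  Rx.mk (nat_lit 478) (nat_lit 6) (nat_lit 3) (nat_lit 7) (nat_lit 7) (nat_lit 47) (nat_lit 40) r5_47 r5_40 (nat_lit 0) (nat_lit 0) (nat_lit 0) (nat_lit 0x9c18cb802) (nat_lit 108391362),
  Rx.mk (nat_lit 479) (nat_lit 7) (nat_lit 3) (nat_lit 7) (nat_lit 7) (nat_lit 51) (nat_lit 36) r5_51 r5_36 (nat_lit 0) (nat_lit 0) (nat_lit 0) (nat_lit 0x7cdc412e8) (nat_lit 588411612)]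
noncomputable def e52_53 : List Rx := [
  Rx.mk (nat_lit 19) (nat_lit 3) (nat_lit 2) (nat_lit 0) (nat_lit 3) (nat_lit 130) (nat_lit 195) r5_130 r4_195 (nat_lit 0) (nat_lit 0) (nat_lit 202248689) (nat_lit 0x7fd88729e) (nat_lit 741698201),
  Rx.mk (nat_lit 48) (nat_lit 0) (nat_lit 6) (nat_lit 0) (nat_lit 2) (nat_lit 124) (nat_lit 200) r5_124 r4_200 (nat_lit 19134) (nat_lit 0) (nat_lit 27807) (nat_lit 0x6beaf468e) (nat_lit 861670253),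
  Rx.mk (nat_lit 51) (nat_lit 3) (nat_lit 6) (nat_lit 0) (nat_lit 3) (nat_lit 131) (nat_lit 201) r5_131 r4_201 (nat_lit 0) (nat_lit 0) (nat_lit 11917208) (nat_lit 0x7c8e48028) (nat_lit 605161420),
  Rx.mk (nat_lit 162) (nat_lit 2) (nat_lit 4) (nat_lit 2) (nat_lit 5) (nat_lit 126) (nat_lit 197) r5_126 r4_197 (nat_lit 0) (nat_lit 10127202) (nat_lit 0) (nat_lit 0x78e0d6154) (nat_lit 662850514),
  Rx.mk (nat_lit 176) (nat_lit 0) (nat_lit 6) (nat_lit 2) (nat_lit 6) (nat_lit 125) (nat_lit 202) r5_125 r4_202 (nat_lit 4444174) (nat_lit 0) (nat_lit 0) (nat_lit 0x7f2401202) (nat_lit 556007186),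
  Rx.mk (nat_lit 178) (nat_lit 2) (nat_lit 6) (nat_lit 2) (nat_lit 7) (nat_lit 127) (nat_lit 204) r5_127 r4_204 (nat_lit 0) (nat_lit 0) (nat_lit 0) (nat_lit 0x8017985b4) (nat_lit 536870912),
  Rx.mk (nat_lit 179) (nat_lit 3) (nat_lit 6) (nat_lit 2) (nat_lit 7) (nat_lit 132) (nat_lit 203) r5_132 r4_203 (nat_lit 0) (nat_lit 0) (nat_lit 0) (nat_lit 0x80931c514) (nat_lit 529274562),
  Rx.mk (nat_lit 211) (nat_lit 3) (nat_lit 2) (nat_lit 3) (nat_lit 7) (nat_lit 133) (nat_lit 196) r5_133 r4_196 (nat_lit 0) (nat_lit 0) (nat_lit 0) (nat_lit 0x7f0ea3518) (nat_lit 553137312),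
  Rx.mk (nat_lit 418) (nat_lit 2) (nat_lit 4) (nat_lit 6) (nat_lit 5) (nat_lit 128) (nat_lit 198) r5_128 r4_198 (nat_lit 0) (nat_lit 4758833) (nat_lit 0) (nat_lit 0x72642244c) (nat_lit 762218945),
  Rx.mk (nat_lit 442) (nat_lit 2) (nat_lit 7) (nat_lit 6) (nat_lit 7) (nat_lit 129) (nat_lit 199) r5_129 r4_199 (nat_lit 0) (nat_lit 0) (nat_lit 0) (nat_lit 0x7eb750676) (nat_lit 558254112)]
noncomputable def e52_54 : List Rx := [
  Rx.mk (nat_lit 162) (nat_lit 2) (nat_lit 4) (nat_lit 2) (nat_lit 5) (nat_lit 135) (nat_lit 36) r5_135 r10_36 (nat_lit 0) (nat_lit 16735369) (nat_lit 0) (nat_lit 0x79b416a78) (nat_lit 656180481),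
  Rx.mk (nat_lit 176) (nat_lit 0) (nat_lit 6) (nat_lit 2) (nat_lit 6) (nat_lit 134) (nat_lit 32) r5_134 r10_32 (nat_lit 6614420) (nat_lit 0) (nat_lit 0) (nat_lit 0x81f9ff474) (nat_lit 514154582),
  Rx.mk (nat_lit 178) (nat_lit 2) (nat_lit 6) (nat_lit 2) (nat_lit 7) (nat_lit 136) (nat_lit 37) r5_136 r10_37 (nat_lit 0) (nat_lit 0) (nat_lit 0) (nat_lit 0x8017985b4) (nat_lit 536870912),
  Rx.mk (nat_lit 179) (nat_lit 3) (nat_lit 6) (nat_lit 2) (nat_lit 7) (nat_lit 139) (nat_lit 33) r5_139 r10_33 (nat_lit 0) (nat_lit 0) (nat_lit 0) (nat_lit 0x80c39fc54) (nat_lit 526340012),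
  Rx.mk (nat_lit 418) (nat_lit 2) (nat_lit 4) (nat_lit 6) (nat_lit 5) (nat_lit 137) (nat_lit 34) r5_137 r10_34 (nat_lit 0) (nat_lit 5865404) (nat_lit 0) (nat_lit 0x7ef7589d0) (nat_lit 560306366),
  Rx.mk (nat_lit 442) (nat_lit 2) (nat_lit 7) (nat_lit 6) (nat_lit 7) (nat_lit 138) (nat_lit 35) r5_138 r10_35 (nat_lit 0) (nat_lit 0) (nat_lit 0) (nat_lit 0x815de8a72) (nat_lit 517001212)]
noncomputable def e52_55 : List Rx := [
  Rx.mk (nat_lit 48) (nat_lit 0) (nat_lit 6) (nat_lit 0) (nat_lit 2) (nat_lit 140) (nat_lit 9) r5_140 r11_9 (nat_lit 474232) (nat_lit 0) (nat_lit 674925) (nat_lit 0x722cb1ea4) (nat_lit 761731069),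
  Rx.mk (nat_lit 51) (nat_lit 3) (nat_lit 6) (nat_lit 0) (nat_lit 3) (nat_lit 146) (nat_lit 11) r5_146 r11_11 (nat_lit 0) (nat_lit 0) (nat_lit 9828533) (nat_lit 0x7fdfbd658) (nat_lit 549901095),
  Rx.mk (nat_lit 162) (nat_lit 2) (nat_lit 4) (nat_lit 2) (nat_lit 5) (nat_lit 142) (nat_lit 16) r5_142 r11_16 (nat_lit 0) (nat_lit 13610733) (nat_lit 0) (nat_lit 0x7f8c34efa) (nat_lit 558980045),
  Rx.mk (nat_lit 176) (nat_lit 0) (nat_lit 6) (nat_lit 2) (nat_lit 6) (nat_lit 141) (nat_lit 10) r5_141 r11_10 (nat_lit 4328604) (nat_lit 0) (nat_lit 0) (nat_lit 0x8397c64a4) (nat_lit 487049866),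
  Rx.mk (nat_lit 178) (nat_lit 2) (nat_lit 6) (nat_lit 2) (nat_lit 7) (nat_lit 143) (nat_lit 18) r5_143 r11_18 (nat_lit 0) (nat_lit 0) (nat_lit 0) (nat_lit 0x804f350bc) (nat_lit 533454612),
  Rx.mk (nat_lit 179) (nat_lit 3) (nat_lit 6) (nat_lit 2) (nat_lit 7) (nat_lit 147) (nat_lit 14) r5_147 r11_14 (nat_lit 0) (nat_lit 0) (nat_lit 0) (nat_lit 0x81c0f7b72) (nat_lit 511039762),
  Rx.mk (nat_lit 186) (nat_lit 2) (nat_lit 7) (nat_lit 2) (nat_lit 7) (nat_lit 144) (nat_lit 17) r5_144 r11_17 (nat_lit 0) (nat_lit 0) (nat_lit 0) (nat_lit 0x804f3bf3e) (nat_lit 533452962),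
  Rx.mk (nat_lit 211) (nat_lit 3) (nat_lit 2) (nat_lit 3) (nat_lit 7) (nat_lit 148) (nat_lit 13) r5_148 r11_13 (nat_lit 0) (nat_lit 0) (nat_lit 0) (nat_lit 0x8219c55ce) (nat_lit 505691562),
  Rx.mk (nat_lit 243) (nat_lit 3) (nat_lit 6) (nat_lit 3) (nat_lit 7) (nat_lit 149) (nat_lit 12) r5_149 r11_12 (nat_lit 0) (nat_lit 0) (nat_lit 0) (nat_lit 0x80700d5c8) (nat_lit 531445012),
  Rx.mk (nat_lit 442) (nat_lit 2) (nat_lit 7) (nat_lit 6) (nat_lit 7) (nat_lit 145) (nat_lit 15) r5_145 r11_15 (nat_lit 0) (nat_lit 0) (nat_lit 0) (nat_lit 0x839723e3e) (nat_lit 482866162)]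
noncomputable def e52_56 : List Rx := [
  Rx.mk (nat_lit 19) (nat_lit 3) (nat_lit 2) (nat_lit 0) (nat_lit 3) (nat_lit 225) (nat_lit 225) r5_225 r5_225 (nat_lit 0) (nat_lit 0) (nat_lit 18256872) (nat_lit 0x84be62d6e) (nat_lit 483320184),
  Rx.mk (nat_lit 23) (nat_lit 7) (nat_lit 2) (nat_lit 0) (nat_lit 3) (nat_lit 228) (nat_lit 226) r5_228 r5_226 (nat_lit 0) (nat_lit 0) (nat_lit 5850069) (nat_lit 0x7b79ebb76) (nat_lit 616369131),
  Rx.mk (nat_lit 51) (nat_lit 3) (nat_lit 6) (nat_lit 0) (nat_lit 3) (nat_lit 226) (nat_lit 228) r5_226 r5_228 (nat_lit 0) (nat_lit 0) (nat_lit 5850069) (nat_lit 0x7b79ebb76) (nat_lit 616369131),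
  Rx.mk (nat_lit 179) (nat_lit 3) (nat_lit 6) (nat_lit 2) (nat_lit 7) (nat_lit 227) (nat_lit 229) r5_227 r5_229 (nat_lit 0) (nat_lit 0) (nat_lit 0) (nat_lit 0x7faf46fd8) (nat_lit 542713462),
  Rx.mk (nat_lit 215) (nat_lit 7) (nat_lit 2) (nat_lit 3) (nat_lit 7) (nat_lit 229) (nat_lit 227) r5_229 r5_227 (nat_lit 0) (nat_lit 0) (nat_lit 0) (nat_lit 0x7faf46fd8) (nat_lit 542713462)]
noncomputable def e52_57 : List Rx := [
  Rx.mk (nat_lit 179) (nat_lit 3) (nat_lit 6) (nat_lit 2) (nat_lit 7) (nat_lit 230) (nat_lit 265) r5_230 r11_265 (nat_lit 0) (nat_lit 0) (nat_lit 0) (nat_lit 0x880aa8a68) (nat_lit 414822412)]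
noncomputable def e52 : List (List Rx) := [e52_0, e52_1, e52_2, e52_3, e52_4, e52_5, e52_6, e52_7, e52_8, e52_9, e52_10, e52_11, e52_12, e52_13, e52_14, e52_15, e52_16, e52_17, e52_18, e52_19, e52_20, e52_21, e52_22, e52_23, e52_24, e52_25, e52_26, e52_27, e52_28, e52_29, e52_30, e52_31, e52_32, e52_33, e52_34, e52_35, e52_36, e52_37, e52_38, e52_39, e52_40, e52_41, e52_42, e52_43, e52_44, e52_45, e52_46, e52_47, e52_48, e52_49, e52_50, e52_51, e52_52, e52_53, e52_54, e52_55, e52_56, e52_57]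

end Pool.Agent.AKXS_24_34_V1
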