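import Pool.Agent.AKXS_24_34_V1.R0
import Pool.Agent.AKXS_24_34_V1.R1
import Pool.Agent.AKXS_24_34_V1.R2
import Pool.Agent.AKXS_24_34_V1.R3
import Pool.Agent.AKXS_24_34_V1.R4
import Pool.Agent.AKXS_24_34_V1.R5
import Pool.Agent.AKXS_24_34_V1.R6
import Pool.Agent.AKXS_24_34_V1.R7
import Pool.Agent.AKXS_24_34_V1.R8
import Pool.Agent.AKXS_24_34_V1.R9
import Pool.Agent.AKXS_24_34_V1.R10
import Pool.Agent.AKXS_24_34_V1.R11
import Pool.Agent.AKXS_24_34_V1.R12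

set_option autoImplicit false

namespace Pool.Agent.AKXS_24_34_V1

open Pool.Agent.AKX Pool.Agent.AKU

noncomputable def e53_0 : List Rx := [
  Rx.mk (nat_lit 5) (nat_lit 5) (nat_lit 0) (nat_lit 0) (nat_lit 1) (nat_lit 155) (nat_lit 318) r4_155 r0_318 (nat_lit 0) (nat_lit 125045575) (nat_lit 2195696) (nat_lit 0x6ae14ea2c) (nat_lit 1005937833),
  Rx.mk (nat_lit 21) (nat_lit 5) (nat_lit 2) (nat_lit 0) (nat_lit 3) (nat_lit 157) (nat_lit 320) r4_157 r0_320 (nat_lit 0) (nat_lit 0) (nat_lit 9212328) (nat_lit 0x785000486) (nat_lit 671079090),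
  Rx.mk (nat_lit 69) (nat_lit 5) (nat_lit 0) (nat_lit 1) (nat_lit 5) (nat_lit 156) (nat_lit 319) r4_156 r0_319 (nat_lit 0) (nat_lit 25377028) (nat_lit 0) (nat_lit 0x7f22d5c02) (nat_lit 577258190),
  Rx.mk (nat_lit 85) (nat_lit 5) (nat_lit 2) (nat_lit 1) (nat_lit 7) (nat_lit 158) (nat_lit 321) r4_158 r0_321 (nat_lit 0) (nat_lit 0) (nat_lit 0) (nat_lit 0x80b12ecdc) (nat_lit 527417312)]
noncomputable def e53_1 : List Rx := [
  Rx.mk (nat_lit 69) (nat_lit 5) (nat_lit 0) (nat_lit 1) (nat_lit 5) (nat_lit 159) (nat_lit 305) r4_159 r1_305 (nat_lit 0) (nat_lit 25741495) (nat_lit 0) (nat_lit 0x7f774491e) (nat_lit 572424907),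
  Rx.mk (nat_lit 85) (nat_lit 5) (nat_lit 2) (nat_lit 1) (nat_lit 7) (nat_lit 160) (nat_lit 306) r4_160 r1_306 (nat_lit 0) (nat_lit 0) (nat_lit 0) (nat_lit 0x80964275c) (nat_lit 529102962)]
noncomputable def e53_2 : List Rx := [
  Rx.mk (nat_lit 69) (nat_lit 5) (nat_lit 0) (nat_lit 1) (nat_lit 5) (nat_lit 300) (nat_lit 349) r4_300 r2_349 (nat_lit 0) (nat_lit 24741287) (nat_lit 0) (nat_lit 0x7fcaef88e) (nat_lit 566317649),
  Rx.mk (nat_lit 77) (nat_lit 5) (nat_lit 1) (nat_lit 1) (nat_lit 7) (nat_lit 302) (nat_lit 351) r4_302 r2_351 (nat_lit 0) (nat_lit 0) (nat_lit 0) (nat_lit 0x8017985b4) (nat_lit 536870912),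
  Rx.mk (nat_lit 85) (nat_lit 5) (nat_lit 2) (nat_lit 1) (nat_lit 7) (nat_lit 303) (nat_lit 353) r4_303 r2_353 (nat_lit 0) (nat_lit 0) (nat_lit 0) (nat_lit 0x8017985b4) (nat_lit 536870912),
  Rx.mk (nat_lit 325) (nat_lit 5) (nat_lit 0) (nat_lit 5) (nat_lit 5) (nat_lit 299) (nat_lit 350) r4_299 r2_350 (nat_lit 0) (nat_lit 42912160) (nat_lit 0) (nat_lit 0x7cc9d2418) (nat_lit 632560472),
  Rx.mk (nat_lit 333) (nat_lit 5) (nat_lit 1) (nat_lit 5) (nat_lit 7) (nat_lit 301) (nat_lit 352) r4_301 r2_352 (nat_lit 0) (nat_lit 0) (nat_lit 0) (nat_lit 0x8017985b4) (nat_lit 536870912)]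
noncomputable def e53_3 : List Rx := [
  Rx.mk (nat_lit 21) (nat_lit 5) (nat_lit 2) (nat_lit 0) (nat_lit 3) (nat_lit 66) (nat_lit 323) r4_66 r3_323 (nat_lit 0) (nat_lit 0) (nat_lit 162706) (nat_lit 0x7fec4a02e) (nat_lit 538305068),
  Rx.mk (nat_lit 197) (nat_lit 5) (nat_lit 0) (nat_lit 3) (nat_lit 5) (nat_lit 65) (nat_lit 322) r4_65 r3_322 (nat_lit 0) (nat_lit 20881) (nat_lit 0) (nat_lit 0x7ff798390) (nat_lit 537424343),
  Rx.mk (nat_lit 213) (nat_lit 5) (nat_lit 2) (nat_lit 3) (nat_lit 7) (nat_lit 67) (nat_lit 324) r4_67 r3_324 (nat_lit 0) (nat_lit 0) (nat_lit 0) (nat_lit 0x7ffafb73a) (nat_lit 537214012)]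
noncomputable def e53_4 : List Rx := [
  Rx.mk (nat_lit 5) (nat_lit 5) (nat_lit 0) (nat_lit 0) (nat_lit 1) (nat_lit 161) (nat_lit 349) r4_161 r4_349 (nat_lit 0) (nat_lit 15888243) (nat_lit 8380959) (nat_lit 0x712c99c60) (nat_lit 801452014),
  Rx.mk (nat_lit 21) (nat_lit 5) (nat_lit 2) (nat_lit 0) (nat_lit 3) (nat_lit 164) (nat_lit 352) r4_164 r4_352 (nat_lit 0) (nat_lit 0) (nat_lit 12559442) (nat_lit 0x7f3685d1a) (nat_lit 563145404),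
  Rx.mk (nat_lit 69) (nat_lit 5) (nat_lit 0) (nat_lit 1) (nat_lit 5) (nat_lit 162) (nat_lit 350) r4_162 r4_350 (nat_lit 0) (nat_lit 22312841) (nat_lit 0) (nat_lit 0x806176d2a) (nat_lit 554648803),
  Rx.mk (nat_lit 85) (nat_lit 5) (nat_lit 2) (nat_lit 1) (nat_lit 7) (nat_lit 165) (nat_lit 353) r4_165 r4_353 (nat_lit 0) (nat_lit 0) (nat_lit 0) (nat_lit 0x80d3762ea) (nat_lit 525382062),
  Rx.mk (nat_lit 197) (nat_lit 5) (nat_lit 0) (nat_lit 3) (nat_lit 5) (nat_lit 163) (nat_lit 351) r4_163 r4_351 (nat_lit 0) (nat_lit 68646309) (nat_lit 0) (nat_lit 0x7fa8798a4) (nat_lit 612142821),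
  Rx.mk (nat_lit 213) (nat_lit 5) (nat_lit 2) (nat_lit 3) (nat_lit 7) (nat_lit 166) (nat_lit 354) r4_166 r4_354 (nat_lit 0) (nat_lit 0) (nat_lit 0) (nat_lit 0x808605e8e) (nat_lit 530063762)]
noncomputable def e53_5 : List Rx := [
  Rx.mk (nat_lit 197) (nat_lit 5) (nat_lit 0) (nat_lit 3) (nat_lit 5) (nat_lit 224) (nat_lit 305) r4_224 r5_305 (nat_lit 0) (nat_lit 161090066) (nat_lit 0) (nat_lit 0x7fc75d3ec) (nat_lit 701587228),
  Rx.mk (nat_lit 213) (nat_lit 5) (nat_lit 2) (nat_lit 3) (nat_lit 7) (nat_lit 225) (nat_lit 306) r4_225 r5_306 (nat_lit 0) (nat_lit 0) (nat_lit 0) (nat_lit 0x743a265ec) (nat_lit 727415662)]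
noncomputable def e53_6 : List Rx := [
  Rx.mk (nat_lit 260) (nat_lit 4) (nat_lit 0) (nat_lit 4) (nat_lit 0) (nat_lit 315) (nat_lit 306) r4_315 r3_306 (nat_lit 1469) (nat_lit 1732) (nat_lit 2229) (nat_lit 0x68e4b7288) (nat_lit 910528842),
  Rx.mk (nat_lit 261) (nat_lit 5) (nat_lit 0) (nat_lit 4) (nat_lit 1) (nat_lit 316) (nat_lit 308) r4_316 r3_308 (nat_lit 0) (nat_lit 52766084) (nat_lit 11711) (nat_lit 0x7e39636b4) (nat_lit 618367307),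
  Rx.mk (nat_lit 262) (nat_lit 6) (nat_lit 0) (nat_lit 4) (nat_lit 1) (nat_lit 317) (nat_lit 310) r4_317 r3_310 (nat_lit 0) (nat_lit 18325) (nat_lit 79972519) (nat_lit 0x7bd4579ca) (nat_lit 684307106),
  Rx.mk (nat_lit 268) (nat_lit 4) (nat_lit 1) (nat_lit 4) (nat_lit 2) (nat_lit 321) (nat_lit 312) r4_321 r3_312 (nat_lit 197867) (nat_lit 0) (nat_lit 291971) (nat_lit 0x7cea5f820) (nat_lit 587285400),
  Rx.mk (nat_lit 269) (nat_lit 5) (nat_lit 1) (nat_lit 4) (nat_lit 3) (nat_lit 322) (nat_lit 314) r4_322 r3_314 (nat_lit 0) (nat_lit 0) (nat_lit 6083194) (nat_lit 0x8288ac032) (nat_lit 504840506),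
  Rx.mk (nat_lit 270) (nat_lit 6) (nat_lit 1) (nat_lit 4) (nat_lit 3) (nat_lit 323) (nat_lit 316) r4_323 r3_316 (nat_lit 0) (nat_lit 0) (nat_lit 57785397) (nat_lit 0x829aa2052) (nat_lit 555266559),
  Rx.mk (nat_lit 452) (nat_lit 4) (nat_lit 0) (nat_lit 7) (nat_lit 4) (nat_lit 318) (nat_lit 307) r4_318 r3_307 (nat_lit 531156) (nat_lit 654027) (nat_lit 0) (nat_lit 0x7dee0ba40) (nat_lit 571676845),
  Rx.mk (nat_lit 453) (nat_lit 5) (nat_lit 0) (nat_lit 7) (nat_lit 5) (nat_lit 319) (nat_lit 309) r4_319 r3_309 (nat_lit 0) (nat_lit 8572817) (nat_lit 0) (nat_lit 0x825b4bc3c) (nat_lit 510304629),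
  Rx.mk (nat_lit 454) (nat_lit 6) (nat_lit 0) (nat_lit 7) (nat_lit 5) (nat_lit 320) (nat_lit 311) r4_320 r3_311 (nat_lit 0) (nat_lit 8997628) (nat_lit 0) (nat_lit 0x812b84d60) (nat_lit 529007340),
  Rx.mk (nat_lit 460) (nat_lit 4) (nat_lit 1) (nat_lit 7) (nat_lit 6) (nat_lit 324) (nat_lit 313) r4_324 r3_313 (nat_lit 1704686) (nat_lit 0) (nat_lit 0) (nat_lit 0x92d5beefa) (nat_lit 251699898),
  Rx.mk (nat_lit 461) (nat_lit 5) (nat_lit 1) (nat_lit 7) (nat_lit 7) (nat_lit 325) (nat_lit 315) r4_325 r3_315 (nat_lit 0) (nat_lit 0) (nat_lit 0) (nat_lit 0x886830f5a) (nat_lit 409301012),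
  Rx.mk (nat_lit 462) (nat_lit 6) (nat_lit 1) (nat_lit 7) (nat_lit 7) (nat_lit 326) (nat_lit 317) r4_326 r3_317 (nat_lit 0) (nat_lit 0) (nat_lit 0) (nat_lit 0x84db470d8) (nat_lit 463510162)]
noncomputable def e53_7 : List Rx := [
  Rx.mk (nat_lit 268) (nat_lit 4) (nat_lit 1) (nat_lit 4) (nat_lit 2) (nat_lit 256) (nat_lit 309) r4_256 r0_309 (nat_lit 33909295) (nat_lit 0) (nat_lit 19670024) (nat_lit 0x680c7e7d6) (nat_lit 978281281),
  Rx.mk (nat_lit 269) (nat_lit 5) (nat_lit 1) (nat_lit 4) (nat_lit 3) (nat_lit 257) (nat_lit 311) r4_257 r0_311 (nat_lit 0) (nat_lit 0) (nat_lit 27415859) (nat_lit 0x8000d8c2a) (nat_lit 565665771),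
  Rx.mk (nat_lit 270) (nat_lit 6) (nat_lit 1) (nat_lit 4) (nat_lit 3) (nat_lit 258) (nat_lit 313) r4_258 r0_313 (nat_lit 0) (nat_lit 0) (nat_lit 29629750) (nat_lit 0x7db4131bc) (nat_lit 604586362),
  Rx.mk (nat_lit 324) (nat_lit 4) (nat_lit 0) (nat_lit 5) (nat_lit 4) (nat_lit 253) (nat_lit 306) r4_253 r0_306 (nat_lit 9185379) (nat_lit 44700456) (nat_lit 0) (nat_lit 0x69c6a03b6) (nat_lit 950753297),
  Rx.mk (nat_lit 325) (nat_lit 5) (nat_lit 0) (nat_lit 5) (nat_lit 5) (nat_lit 254) (nat_lit 307) r4_254 r0_307 (nat_lit 0) (nat_lit 190947877) (nat_lit 0) (nat_lit 0x781662364) (nat_lit 856023289),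
  Rx.mk (nat_lit 326) (nat_lit 6) (nat_lit 0) (nat_lit 5) (nat_lit 5) (nat_lit 255) (nat_lit 308) r4_255 r0_308 (nat_lit 0) (nat_lit 34510458) (nat_lit 0) (nat_lit 0x7fea14354) (nat_lit 574129370),
  Rx.mk (nat_lit 332) (nat_lit 4) (nat_lit 1) (nat_lit 5) (nat_lit 6) (nat_lit 259) (nat_lit 310) r4_259 r0_310 (nat_lit 25313016) (nat_lit 0) (nat_lit 0) (nat_lit 0x7f09601dc) (nat_lit 578840728),
  Rx.mk (nat_lit 333) (nat_lit 5) (nat_lit 1) (nat_lit 5) (nat_lit 7) (nat_lit 260) (nat_lit 312) r4_260 r0_312 (nat_lit 0) (nat_lit 0) (nat_lit 0) (nat_lit 0x80abe37c8) (nat_lit 527783112),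
  Rx.mk (nat_lit 334) (nat_lit 6) (nat_lit 1) (nat_lit 5) (nat_lit 7) (nat_lit 261) (nat_lit 314) r4_261 r0_314 (nat_lit 0) (nat_lit 0) (nat_lit 0) (nat_lit 0x8024ca73c) (nat_lit 536043112)]
noncomputable def e53_8 : List Rx := [
  Rx.mk (nat_lit 324) (nat_lit 4) (nat_lit 0) (nat_lit 5) (nat_lit 4) (nat_lit 293) (nat_lit 297) r4_293 r1_297 (nat_lit 16666109) (nat_lit 79659509) (nat_lit 0) (nat_lit 0x6e82c4200) (nat_lit 916697780),
  Rx.mk (nat_lit 325) (nat_lit 5) (nat_lit 0) (nat_lit 5) (nat_lit 5) (nat_lit 294) (nat_lit 298) r4_294 r1_298 (nat_lit 0) (nat_lit 132162371) (nat_lit 0) (nat_lit 0x7a51f7832) (nat_lit 761496733),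
  Rx.mk (nat_lit 326) (nat_lit 6) (nat_lit 0) (nat_lit 5) (nat_lit 5) (nat_lit 295) (nat_lit 299) r4_295 r1_299 (nat_lit 0) (nat_lit 29428945) (nat_lit 0) (nat_lit 0x800d7d0e8) (nat_lit 566895407),
  Rx.mk (nat_lit 332) (nat_lit 4) (nat_lit 1) (nat_lit 5) (nat_lit 6) (nat_lit 296) (nat_lit 300) r4_296 r1_300 (nat_lit 21556671) (nat_lit 0) (nat_lit 0) (nat_lit 0x801c58cca) (nat_lit 558112583),
  Rx.mk (nat_lit 333) (nat_lit 5) (nat_lit 1) (nat_lit 5) (nat_lit 7) (nat_lit 297) (nat_lit 301) r4_297 r1_301 (nat_lit 0) (nat_lit 0) (nat_lit 0) (nat_lit 0x80b000be4) (nat_lit 527525712),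
  Rx.mk (nat_lit 334) (nat_lit 6) (nat_lit 1) (nat_lit 5) (nat_lit 7) (nat_lit 298) (nat_lit 302) r4_298 r1_302 (nat_lit 0) (nat_lit 0) (nat_lit 0) (nat_lit 0x80691f28e) (nat_lit 531863312)]
noncomputable def e53_9 : List Rx := [
  Rx.mk (nat_lit 260) (nat_lit 4) (nat_lit 0) (nat_lit 4) (nat_lit 0) (nat_lit 327) (nat_lit 327) r4_327 r4_327 (nat_lit 6283487) (nat_lit 21773644) (nat_lit 6283487) (nat_lit 0x61999ca2a) (nat_lit 1063393080),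
  Rx.mk (nat_lit 261) (nat_lit 5) (nat_lit 0) (nat_lit 4) (nat_lit 1) (nat_lit 328) (nat_lit 330) r4_328 r4_330 (nat_lit 0) (nat_lit 48279250) (nat_lit 11437457) (nat_lit 0x777352bce) (nat_lit 735513319),
  Rx.mk (nat_lit 262) (nat_lit 6) (nat_lit 0) (nat_lit 4) (nat_lit 1) (nat_lit 329) (nat_lit 333) r4_329 r4_333 (nat_lit 0) (nat_lit 32031949) (nat_lit 24376439) (nat_lit 0x794b04102) (nat_lit 702517800),
  Rx.mk (nat_lit 268) (nat_lit 4) (nat_lit 1) (nat_lit 4) (nat_lit 2) (nat_lit 335) (nat_lit 335) r4_335 r4_335 (nat_lit 90649037) (nat_lit 0) (nat_lit 90649037) (nat_lit 0x7d5b0546c) (nat_lit 761817136),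
  Rx.mk (nat_lit 269) (nat_lit 5) (nat_lit 1) (nat_lit 4) (nat_lit 3) (nat_lit 336) (nat_lit 338) r4_336 r4_338 (nat_lit 0) (nat_lit 0) (nat_lit 24741287) (nat_lit 0x8017985b4) (nat_lit 561612199),
  Rx.mk (nat_lit 270) (nat_lit 6) (nat_lit 1) (nat_lit 4) (nat_lit 3) (nat_lit 337) (nat_lit 341) r4_337 r4_341 (nat_lit 0) (nat_lit 0) (nat_lit 28361871) (nat_lit 0x7f9b8ef18) (nat_lit 572839333),
  Rx.mk (nat_lit 324) (nat_lit 4) (nat_lit 0) (nat_lit 5) (nat_lit 4) (nat_lit 330) (nat_lit 328) r4_330 r4_328 (nat_lit 11437457) (nat_lit 48279250) (nat_lit 0) (nat_lit 0x777352bce) (nat_lit 735513319),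
  Rx.mk (nat_lit 325) (nat_lit 5) (nat_lit 0) (nat_lit 5) (nat_lit 5) (nat_lit 331) (nat_lit 331) r4_331 r4_331 (nat_lit 0) (nat_lit 25419834) (nat_lit 0) (nat_lit 0x7ffc8b384) (nat_lit 563917346),
  Rx.mk (nat_lit 326) (nat_lit 6) (nat_lit 0) (nat_lit 5) (nat_lit 5) (nat_lit 332) (nat_lit 334) r4_332 r4_334 (nat_lit 0) (nat_lit 24741287) (nat_lit 0) (nat_lit 0x8053c497a) (nat_lit 557914449),
  Rx.mk (nat_lit 332) (nat_lit 4) (nat_lit 1) (nat_lit 5) (nat_lit 6) (nat_lit 338) (nat_lit 336) r4_338 r4_336 (nat_lit 24741287) (nat_lit 0) (nat_lit 0) (nat_lit 0x8017985b4) (nat_lit 561612199),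
  Rx.mk (nat_lit 333) (nat_lit 5) (nat_lit 1) (nat_lit 5) (nat_lit 7) (nat_lit 339) (nat_lit 339) r4_339 r4_339 (nat_lit 0) (nat_lit 0) (nat_lit 0) (nat_lit 0x8017985b4) (nat_lit 536870912),
  Rx.mk (nat_lit 334) (nat_lit 6) (nat_lit 1) (nat_lit 5) (nat_lit 7) (nat_lit 340) (nat_lit 342) r4_340 r4_342 (nat_lit 0) (nat_lit 0) (nat_lit 0) (nat_lit 0x8017985b4) (nat_lit 536870912),
  Rx.mk (nat_lit 452) (nat_lit 4) (nat_lit 0) (nat_lit 7) (nat_lit 4) (nat_lit 333) (nat_lit 329) r4_333 r4_329 (nat_lit 24376439) (nat_lit 32031949) (nat_lit 0) (nat_lit 0x794b04102) (nat_lit 702517800),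
  Rx.mk (nat_lit 453) (nat_lit 5) (nat_lit 0) (nat_lit 7) (nat_lit 5) (nat_lit 334) (nat_lit 332) r4_334 r4_332 (nat_lit 0) (nat_lit 24741287) (nat_lit 0) (nat_lit 0x8053c497a) (nat_lit 557914449),
  Rx.mk (nat_lit 460) (nat_lit 4) (nat_lit 1) (nat_lit 7) (nat_lit 6) (nat_lit 341) (nat_lit 337) r4_341 r4_337 (nat_lit 28361871) (nat_lit 0) (nat_lit 0) (nat_lit 0x7f9b8ef18) (nat_lit 572839333),
  Rx.mk (nat_lit 461) (nat_lit 5) (nat_lit 1) (nat_lit 7) (nat_lit 7) (nat_lit 342) (nat_lit 340) r4_342 r4_340 (nat_lit 0) (nat_lit 0) (nat_lit 0) (nat_lit 0x8017985b4) (nat_lit 536870912)]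
noncomputable def e53_10 : List Rx := [
  Rx.mk (nat_lit 196) (nat_lit 4) (nat_lit 0) (nat_lit 3) (nat_lit 4) (nat_lit 220) (nat_lit 337) r4_220 r6_337 (nat_lit 3315579) (nat_lit 4357312) (nat_lit 0) (nat_lit 0x66141debc) (nat_lit 964156353),
  Rx.mk (nat_lit 197) (nat_lit 5) (nat_lit 0) (nat_lit 3) (nat_lit 5) (nat_lit 221) (nat_lit 340) r4_221 r6_340 (nat_lit 0) (nat_lit 9659627) (nat_lit 0) (nat_lit 0x7fc83bdd6) (nat_lit 551234539),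
  Rx.mk (nat_lit 212) (nat_lit 4) (nat_lit 2) (nat_lit 3) (nat_lit 6) (nat_lit 222) (nat_lit 339) r4_222 r6_339 (nat_lit 79150) (nat_lit 0) (nat_lit 0) (nat_lit 0x53f546c4e) (nat_lit 1249167362),
  Rx.mk (nat_lit 213) (nat_lit 5) (nat_lit 2) (nat_lit 3) (nat_lit 7) (nat_lit 223) (nat_lit 342) r4_223 r6_342 (nat_lit 0) (nat_lit 0) (nat_lit 0) (nat_lit 0x801c163de) (nat_lit 536140862),
  Rx.mk (nat_lit 452) (nat_lit 4) (nat_lit 0) (nat_lit 7) (nat_lit 4) (nat_lit 217) (nat_lit 338) r4_217 r6_338 (nat_lit 129197) (nat_lit 164206) (nat_lit 0) (nat_lit 0x795e5323a) (nat_lit 644442165),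
  Rx.mk (nat_lit 453) (nat_lit 5) (nat_lit 0) (nat_lit 7) (nat_lit 5) (nat_lit 218) (nat_lit 341) r4_218 r6_341 (nat_lit 0) (nat_lit 12015582) (nat_lit 0) (nat_lit 0x8043b9b16) (nat_lit 546056094),
  Rx.mk (nat_lit 454) (nat_lit 6) (nat_lit 0) (nat_lit 7) (nat_lit 5) (nat_lit 219) (nat_lit 343) r4_219 r6_343 (nat_lit 0) (nat_lit 14660822) (nat_lit 0) (nat_lit 0x80a2e9ac8) (nat_lit 542985584)]
noncomputable def e53_11 : List Rx := [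
  Rx.mk (nat_lit 452) (nat_lit 4) (nat_lit 0) (nat_lit 7) (nat_lit 4) (nat_lit 343) (nat_lit 297) r4_343 r5_297 (nat_lit 4914536) (nat_lit 8412019) (nat_lit 0) (nat_lit 0x7692903ac) (nat_lit 703204217),
  Rx.mk (nat_lit 453) (nat_lit 5) (nat_lit 0) (nat_lit 7) (nat_lit 5) (nat_lit 344) (nat_lit 298) r4_344 r5_298 (nat_lit 0) (nat_lit 16948508) (nat_lit 0) (nat_lit 0x809c7b0d8) (nat_lit 545627870),
  Rx.mk (nat_lit 454) (nat_lit 6) (nat_lit 0) (nat_lit 7) (nat_lit 5) (nat_lit 345) (nat_lit 299) r4_345 r5_299 (nat_lit 0) (nat_lit 16388111) (nat_lit 0) (nat_lit 0x805f52918) (nat_lit 548834573),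
  Rx.mk (nat_lit 460) (nat_lit 4) (nat_lit 1) (nat_lit 7) (nat_lit 6) (nat_lit 346) (nat_lit 300) r4_346 r5_300 (nat_lit 2837782) (nat_lit 0) (nat_lit 0) (nat_lit 0x88d4b3178) (nat_lit 405532494),
  Rx.mk (nat_lit 461) (nat_lit 5) (nat_lit 1) (nat_lit 7) (nat_lit 7) (nat_lit 347) (nat_lit 301) r4_347 r5_301 (nat_lit 0) (nat_lit 0) (nat_lit 0) (nat_lit 0x8942acc88) (nat_lit 396280012),
  Rx.mk (nat_lit 462) (nat_lit 6) (nat_lit 1) (nat_lit 7) (nat_lit 7) (nat_lit 348) (nat_lit 302) r4_348 r5_302 (nat_lit 0) (nat_lit 0) (nat_lit 0) (nat_lit 0x816422d98) (nat_lit 516613662)]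
noncomputable def e53_12 : List Rx := [
  Rx.mk (nat_lit 17) (nat_lit 1) (nat_lit 2) (nat_lit 0) (nat_lit 3) (nat_lit 69) (nat_lit 80) r4_69 r0_80 (nat_lit 0) (nat_lit 0) (nat_lit 13011950) (nat_lit 0x7c2e5800a) (nat_lit 612357812),
  Rx.mk (nat_lit 21) (nat_lit 5) (nat_lit 2) (nat_lit 0) (nat_lit 3) (nat_lit 68) (nat_lit 79) r4_68 r0_79 (nat_lit 0) (nat_lit 0) (nat_lit 6167468) (nat_lit 0x5e86efab0) (nat_lit 1084789780),
  Rx.mk (nat_lit 209) (nat_lit 1) (nat_lit 2) (nat_lit 3) (nat_lit 7) (nat_lit 70) (nat_lit 81) r4_70 r0_81 (nat_lit 0) (nat_lit 0) (nat_lit 0) (nat_lit 0x7f12b28fc) (nat_lit 552544162)]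
noncomputable def e53_13 : List Rx := [
  Rx.mk (nat_lit 5) (nat_lit 5) (nat_lit 0) (nat_lit 0) (nat_lit 1) (nat_lit 167) (nat_lit 427) r4_167 r7_427 (nat_lit 0) (nat_lit 19907554) (nat_lit 22125450) (nat_lit 0x63a785950) (nat_lit 1037930216),
  Rx.mk (nat_lit 17) (nat_lit 1) (nat_lit 2) (nat_lit 0) (nat_lit 3) (nat_lit 170) (nat_lit 424) r4_170 r7_424 (nat_lit 0) (nat_lit 0) (nat_lit 15079429) (nat_lit 0x80b288b5a) (nat_lit 542464441),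
  Rx.mk (nat_lit 21) (nat_lit 5) (nat_lit 2) (nat_lit 0) (nat_lit 3) (nat_lit 169) (nat_lit 429) r4_169 r7_429 (nat_lit 0) (nat_lit 0) (nat_lit 9466543) (nat_lit 0x7fa3c1d3e) (nat_lit 553281955),
  Rx.mk (nat_lit 69) (nat_lit 5) (nat_lit 0) (nat_lit 1) (nat_lit 5) (nat_lit 168) (nat_lit 428) r4_168 r7_428 (nat_lit 0) (nat_lit 19814278) (nat_lit 0) (nat_lit 0x7ff710a44) (nat_lit 558656140),
  Rx.mk (nat_lit 81) (nat_lit 1) (nat_lit 2) (nat_lit 1) (nat_lit 7) (nat_lit 172) (nat_lit 425) r4_172 r7_425 (nat_lit 0) (nat_lit 0) (nat_lit 0) (nat_lit 0x8047400be) (nat_lit 533941862),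
  Rx.mk (nat_lit 85) (nat_lit 5) (nat_lit 2) (nat_lit 1) (nat_lit 7) (nat_lit 171) (nat_lit 430) r4_171 r7_430 (nat_lit 0) (nat_lit 0) (nat_lit 0) (nat_lit 0x80e5a0ace) (nat_lit 524283362),
  Rx.mk (nat_lit 209) (nat_lit 1) (nat_lit 2) (nat_lit 3) (nat_lit 7) (nat_lit 173) (nat_lit 426) r4_173 r7_426 (nat_lit 0) (nat_lit 0) (nat_lit 0) (nat_lit 0x804741ba8) (nat_lit 533941462)]
noncomputable def e53_14 : List Rx := [
  Rx.mk (nat_lit 17) (nat_lit 1) (nat_lit 2) (nat_lit 0) (nat_lit 3) (nat_lit 71) (nat_lit 85) r4_71 r1_85 (nat_lit 0) (nat_lit 0) (nat_lit 18076853) (nat_lit 0x7feb22318) (nat_lit 557573915),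
  Rx.mk (nat_lit 145) (nat_lit 1) (nat_lit 2) (nat_lit 2) (nat_lit 7) (nat_lit 72) (nat_lit 87) r4_72 r1_87 (nat_lit 0) (nat_lit 0) (nat_lit 0) (nat_lit 0x8017985b4) (nat_lit 536870912),
  Rx.mk (nat_lit 209) (nat_lit 1) (nat_lit 2) (nat_lit 3) (nat_lit 7) (nat_lit 73) (nat_lit 86) r4_73 r1_86 (nat_lit 0) (nat_lit 0) (nat_lit 0) (nat_lit 0x8445fa28c) (nat_lit 472429712)]
noncomputable def e53_15 : List Rx := [
  Rx.mk (nat_lit 17) (nat_lit 1) (nat_lit 2) (nat_lit 0) (nat_lit 3) (nat_lit 177) (nat_lit 351) r4_177 r8_351 (nat_lit 0) (nat_lit 0) (nat_lit 24741287) (nat_lit 0x8017985b4) (nat_lit 561612199),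
  Rx.mk (nat_lit 81) (nat_lit 1) (nat_lit 2) (nat_lit 1) (nat_lit 7) (nat_lit 178) (nat_lit 352) r4_178 r8_352 (nat_lit 0) (nat_lit 0) (nat_lit 0) (nat_lit 0x8017985b4) (nat_lit 536870912),
  Rx.mk (nat_lit 145) (nat_lit 1) (nat_lit 2) (nat_lit 2) (nat_lit 7) (nat_lit 179) (nat_lit 354) r4_179 r8_354 (nat_lit 0) (nat_lit 0) (nat_lit 0) (nat_lit 0x8017985b4) (nat_lit 536870912),
  Rx.mk (nat_lit 209) (nat_lit 1) (nat_lit 2) (nat_lit 3) (nat_lit 7) (nat_lit 180) (nat_lit 353) r4_180 r8_353 (nat_lit 0) (nat_lit 0) (nat_lit 0) (nat_lit 0x8017985b4) (nat_lit 536870912)]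
noncomputable def e53_16 : List Rx := [
  Rx.mk (nat_lit 69) (nat_lit 5) (nat_lit 0) (nat_lit 1) (nat_lit 5) (nat_lit 174) (nat_lit 68) r4_174 r8_68 (nat_lit 0) (nat_lit 19417164) (nat_lit 0) (nat_lit 0x7fd35cbf2) (nat_lit 560445626),
  Rx.mk (nat_lit 81) (nat_lit 1) (nat_lit 2) (nat_lit 1) (nat_lit 7) (nat_lit 176) (nat_lit 70) r4_176 r8_70 (nat_lit 0) (nat_lit 0) (nat_lit 0) (nat_lit 0x8017985b4) (nat_lit 536870912),
  Rx.mk (nat_lit 85) (nat_lit 5) (nat_lit 2) (nat_lit 1) (nat_lit 7) (nat_lit 175) (nat_lit 69) r4_175 r8_69 (nat_lit 0) (nat_lit 0) (nat_lit 0) (nat_lit 0x80539e52c) (nat_lit 533184912)]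
noncomputable def e53_17 : List Rx := [
  Rx.mk (nat_lit 69) (nat_lit 5) (nat_lit 0) (nat_lit 1) (nat_lit 5) (nat_lit 310) (nat_lit 312) r4_310 r9_312 (nat_lit 0) (nat_lit 30557758) (nat_lit 0) (nat_lit 0x7f457f316) (nat_lit 580390720),
  Rx.mk (nat_lit 77) (nat_lit 5) (nat_lit 1) (nat_lit 1) (nat_lit 7) (nat_lit 312) (nat_lit 314) r4_312 r9_314 (nat_lit 0) (nat_lit 0) (nat_lit 0) (nat_lit 0x8017985b4) (nat_lit 536870912),
  Rx.mk (nat_lit 81) (nat_lit 1) (nat_lit 2) (nat_lit 1) (nat_lit 7) (nat_lit 314) (nat_lit 311) r4_314 r9_311 (nat_lit 0) (nat_lit 0) (nat_lit 0) (nat_lit 0x8017985b4) (nat_lit 536870912),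
  Rx.mk (nat_lit 85) (nat_lit 5) (nat_lit 2) (nat_lit 1) (nat_lit 7) (nat_lit 313) (nat_lit 316) r4_313 r9_316 (nat_lit 0) (nat_lit 0) (nat_lit 0) (nat_lit 0x8017985b4) (nat_lit 536870912),
  Rx.mk (nat_lit 325) (nat_lit 5) (nat_lit 0) (nat_lit 5) (nat_lit 5) (nat_lit 309) (nat_lit 313) r4_309 r9_313 (nat_lit 0) (nat_lit 47490513) (nat_lit 0) (nat_lit 0x7c0f81f64) (nat_lit 648924525),
  Rx.mk (nat_lit 333) (nat_lit 5) (nat_lit 1) (nat_lit 5) (nat_lit 7) (nat_lit 311) (nat_lit 315) r4_311 r9_315 (nat_lit 0) (nat_lit 0) (nat_lit 0) (nat_lit 0x8017985b4) (nat_lit 536870912)]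
noncomputable def e53_18 : List Rx := [
  Rx.mk (nat_lit 21) (nat_lit 5) (nat_lit 2) (nat_lit 0) (nat_lit 3) (nat_lit 75) (nat_lit 74) r4_75 r4_74 (nat_lit 0) (nat_lit 0) (nat_lit 7592338) (nat_lit 0x7d0c0142e) (nat_lit 592808150),
  Rx.mk (nat_lit 197) (nat_lit 5) (nat_lit 0) (nat_lit 3) (nat_lit 5) (nat_lit 74) (nat_lit 75) r4_74 r4_75 (nat_lit 0) (nat_lit 7592338) (nat_lit 0) (nat_lit 0x7d0c0142e) (nat_lit 592808150),
  Rx.mk (nat_lit 209) (nat_lit 1) (nat_lit 2) (nat_lit 3) (nat_lit 7) (nat_lit 77) (nat_lit 77) r4_77 r4_77 (nat_lit 0) (nat_lit 0) (nat_lit 0) (nat_lit 0x8186ed79c) (nat_lit 514518262),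
  Rx.mk (nat_lit 213) (nat_lit 5) (nat_lit 2) (nat_lit 3) (nat_lit 7) (nat_lit 76) (nat_lit 76) r4_76 r4_76 (nat_lit 0) (nat_lit 0) (nat_lit 0) (nat_lit 0x7fb75d550) (nat_lit 541473012)]
noncomputable def e53_19 : List Rx := [
  Rx.mk (nat_lit 5) (nat_lit 5) (nat_lit 0) (nat_lit 0) (nat_lit 1) (nat_lit 181) (nat_lit 351) r4_181 r10_351 (nat_lit 0) (nat_lit 12084870) (nat_lit 11415403) (nat_lit 0x6331c3eb0) (nat_lit 1026799885),
  Rx.mk (nat_lit 21) (nat_lit 5) (nat_lit 2) (nat_lit 0) (nat_lit 3) (nat_lit 184) (nat_lit 354) r4_184 r10_354 (nat_lit 0) (nat_lit 0) (nat_lit 10881583) (nat_lit 0x80aa66698) (nat_lit 538695745),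
  Rx.mk (nat_lit 69) (nat_lit 5) (nat_lit 0) (nat_lit 1) (nat_lit 5) (nat_lit 182) (nat_lit 352) r4_182 r10_352 (nat_lit 0) (nat_lit 21073453) (nat_lit 0) (nat_lit 0x8042207e6) (nat_lit 555329265),
  Rx.mk (nat_lit 85) (nat_lit 5) (nat_lit 2) (nat_lit 1) (nat_lit 7) (nat_lit 185) (nat_lit 355) r4_185 r10_355 (nat_lit 0) (nat_lit 0) (nat_lit 0) (nat_lit 0x80a823854) (nat_lit 528019812),
  Rx.mk (nat_lit 197) (nat_lit 5) (nat_lit 0) (nat_lit 3) (nat_lit 5) (nat_lit 183) (nat_lit 353) r4_183 r10_353 (nat_lit 0) (nat_lit 23202415) (nat_lit 0) (nat_lit 0x7faaa218a) (nat_lit 566751477),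
  Rx.mk (nat_lit 209) (nat_lit 1) (nat_lit 2) (nat_lit 3) (nat_lit 7) (nat_lit 187) (nat_lit 350) r4_187 r10_350 (nat_lit 0) (nat_lit 0) (nat_lit 0) (nat_lit 0x8017985b4) (nat_lit 536870912),
  Rx.mk (nat_lit 213) (nat_lit 5) (nat_lit 2) (nat_lit 3) (nat_lit 7) (nat_lit 186) (nat_lit 356) r4_186 r10_356 (nat_lit 0) (nat_lit 0) (nat_lit 0) (nat_lit 0x80a823516) (nat_lit 528019862)]
noncomputable def e53_20 : List Rx := [
  Rx.mk (nat_lit 197) (nat_lit 5) (nat_lit 0) (nat_lit 3) (nat_lit 5) (nat_lit 226) (nat_lit 358) r4_226 r11_358 (nat_lit 0) (nat_lit 11487859) (nat_lit 0) (nat_lit 0x7fe0ccc6a) (nat_lit 551547221),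
  Rx.mk (nat_lit 209) (nat_lit 1) (nat_lit 2) (nat_lit 3) (nat_lit 7) (nat_lit 228) (nat_lit 357) r4_228 r11_357 (nat_lit 0) (nat_lit 0) (nat_lit 0) (nat_lit 0x850b42e04) (nat_lit 460662012),
  Rx.mk (nat_lit 213) (nat_lit 5) (nat_lit 2) (nat_lit 3) (nat_lit 7) (nat_lit 227) (nat_lit 359) r4_227 r11_359 (nat_lit 0) (nat_lit 0) (nat_lit 0) (nat_lit 0x82046c2cc) (nat_lit 506848662)]
noncomputable def e53_21 : List Rx := [
  Rx.mk (nat_lit 77) (nat_lit 5) (nat_lit 1) (nat_lit 1) (nat_lit 7) (nat_lit 308) (nat_lit 306) r4_308 r9_306 (nat_lit 0) (nat_lit 0) (nat_lit 0) (nat_lit 0x8017985b4) (nat_lit 536870912),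
  Rx.mk (nat_lit 333) (nat_lit 5) (nat_lit 1) (nat_lit 5) (nat_lit 7) (nat_lit 307) (nat_lit 305) r4_307 r9_305 (nat_lit 0) (nat_lit 0) (nat_lit 0) (nat_lit 0x8017985b4) (nat_lit 536870912)]
noncomputable def e53_22 : List Rx := [
  Rx.mk (nat_lit 268) (nat_lit 4) (nat_lit 1) (nat_lit 4) (nat_lit 2) (nat_lit 262) (nat_lit 174) r4_262 r0_174 (nat_lit 1751344) (nat_lit 0) (nat_lit 200714257) (nat_lit 0x5c0ff7e00) (nat_lit 1320763563),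
  Rx.mk (nat_lit 269) (nat_lit 5) (nat_lit 1) (nat_lit 4) (nat_lit 3) (nat_lit 263) (nat_lit 175) r4_263 r0_175 (nat_lit 0) (nat_lit 0) (nat_lit 51975942) (nat_lit 0x79cafc27e) (nat_lit 689883204),
  Rx.mk (nat_lit 270) (nat_lit 6) (nat_lit 1) (nat_lit 4) (nat_lit 3) (nat_lit 264) (nat_lit 176) r4_264 r0_176 (nat_lit 0) (nat_lit 0) (nat_lit 441859640) (nat_lit 0x75873a166) (nat_lit 1148413852)]
noncomputable def e53_23 : List Rx := [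
  Rx.mk (nat_lit 268) (nat_lit 4) (nat_lit 1) (nat_lit 4) (nat_lit 2) (nat_lit 281) (nat_lit 187) r4_281 r1_187 (nat_lit 12745069) (nat_lit 0) (nat_lit 131619701) (nat_lit 0x669364acc) (nat_lit 1092912382),
  Rx.mk (nat_lit 269) (nat_lit 5) (nat_lit 1) (nat_lit 4) (nat_lit 3) (nat_lit 282) (nat_lit 188) r4_282 r1_188 (nat_lit 0) (nat_lit 0) (nat_lit 25655830) (nat_lit 0x7fff0d792) (nat_lit 563934392),
  Rx.mk (nat_lit 270) (nat_lit 6) (nat_lit 1) (nat_lit 4) (nat_lit 3) (nat_lit 283) (nat_lit 189) r4_283 r1_189 (nat_lit 0) (nat_lit 0) (nat_lit 277566866) (nat_lit 0x7d3bb22a4) (nat_lit 859858978),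
  Rx.mk (nat_lit 302) (nat_lit 6) (nat_lit 5) (nat_lit 4) (nat_lit 3) (nat_lit 279) (nat_lit 190) r4_279 r1_190 (nat_lit 0) (nat_lit 0) (nat_lit 124425147) (nat_lit 0x7ecc4e244) (nat_lit 681601709),
  Rx.mk (nat_lit 430) (nat_lit 6) (nat_lit 5) (nat_lit 6) (nat_lit 7) (nat_lit 280) (nat_lit 191) r4_280 r1_191 (nat_lit 0) (nat_lit 0) (nat_lit 0) (nat_lit 0x80304a1b6) (nat_lit 535245512)]
noncomputable def e53_24 : List Rx := [
  Rx.mk (nat_lit 268) (nat_lit 4) (nat_lit 1) (nat_lit 4) (nat_lit 2) (nat_lit 349) (nat_lit 161) r4_349 r4_161 (nat_lit 8380959) (nat_lit 0) (nat_lit 15888243) (nat_lit 0x712c99c60) (nat_lit 801452014),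
  Rx.mk (nat_lit 269) (nat_lit 5) (nat_lit 1) (nat_lit 4) (nat_lit 3) (nat_lit 350) (nat_lit 162) r4_350 r4_162 (nat_lit 0) (nat_lit 0) (nat_lit 22312841) (nat_lit 0x806176d2a) (nat_lit 554648803),
  Rx.mk (nat_lit 270) (nat_lit 6) (nat_lit 1) (nat_lit 4) (nat_lit 3) (nat_lit 351) (nat_lit 163) r4_351 r4_163 (nat_lit 0) (nat_lit 0) (nat_lit 68646309) (nat_lit 0x7fa8798a4) (nat_lit 612142821),
  Rx.mk (nat_lit 460) (nat_lit 4) (nat_lit 1) (nat_lit 7) (nat_lit 6) (nat_lit 352) (nat_lit 164) r4_352 r4_164 (nat_lit 12559442) (nat_lit 0) (nat_lit 0) (nat_lit 0x7f3685d1a) (nat_lit 563145404),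
  Rx.mk (nat_lit 461) (nat_lit 5) (nat_lit 1) (nat_lit 7) (nat_lit 7) (nat_lit 353) (nat_lit 165) r4_353 r4_165 (nat_lit 0) (nat_lit 0) (nat_lit 0) (nat_lit 0x80d3762ea) (nat_lit 525382062),
  Rx.mk (nat_lit 462) (nat_lit 6) (nat_lit 1) (nat_lit 7) (nat_lit 7) (nat_lit 354) (nat_lit 166) r4_354 r4_166 (nat_lit 0) (nat_lit 0) (nat_lit 0) (nat_lit 0x808605e8e) (nat_lit 530063762)]
noncomputable def e53_25 : List Rx := [
  Rx.mk (nat_lit 268) (nat_lit 4) (nat_lit 1) (nat_lit 4) (nat_lit 2) (nat_lit 265) (nat_lit 416) r4_265 r7_416 (nat_lit 51960859) (nat_lit 0) (nat_lit 26363677) (nat_lit 0x6eea423dc) (nat_lit 892140698),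
  Rx.mk (nat_lit 269) (nat_lit 5) (nat_lit 1) (nat_lit 4) (nat_lit 3) (nat_lit 266) (nat_lit 418) r4_266 r7_418 (nat_lit 0) (nat_lit 0) (nat_lit 24741287) (nat_lit 0x8017985b4) (nat_lit 561612199),
  Rx.mk (nat_lit 270) (nat_lit 6) (nat_lit 1) (nat_lit 4) (nat_lit 3) (nat_lit 267) (nat_lit 420) r4_267 r7_420 (nat_lit 0) (nat_lit 0) (nat_lit 28981807) (nat_lit 0x7fc4d7cda) (nat_lit 570932769),
  Rx.mk (nat_lit 332) (nat_lit 4) (nat_lit 1) (nat_lit 5) (nat_lit 6) (nat_lit 268) (nat_lit 417) r4_268 r7_417 (nat_lit 24741287) (nat_lit 0) (nat_lit 0) (nat_lit 0x8017985b4) (nat_lit 561612199),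
  Rx.mk (nat_lit 333) (nat_lit 5) (nat_lit 1) (nat_lit 5) (nat_lit 7) (nat_lit 269) (nat_lit 419) r4_269 r7_419 (nat_lit 0) (nat_lit 0) (nat_lit 0) (nat_lit 0x8017985b4) (nat_lit 536870912),
  Rx.mk (nat_lit 334) (nat_lit 6) (nat_lit 1) (nat_lit 5) (nat_lit 7) (nat_lit 270) (nat_lit 421) r4_270 r7_421 (nat_lit 0) (nat_lit 0) (nat_lit 0) (nat_lit 0x8017985b4) (nat_lit 536870912)]
noncomputable def e53_26 : List Rx := [
  Rx.mk (nat_lit 268) (nat_lit 4) (nat_lit 1) (nat_lit 4) (nat_lit 2) (nat_lit 287) (nat_lit 341) r4_287 r8_341 (nat_lit 34758505) (nat_lit 0) (nat_lit 27124229) (nat_lit 0x700d128ac) (nat_lit 857380996),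
  Rx.mk (nat_lit 269) (nat_lit 5) (nat_lit 1) (nat_lit 4) (nat_lit 3) (nat_lit 288) (nat_lit 343) r4_288 r8_343 (nat_lit 0) (nat_lit 0) (nat_lit 24741287) (nat_lit 0x7ff500268) (nat_lit 563728899),
  Rx.mk (nat_lit 270) (nat_lit 6) (nat_lit 1) (nat_lit 4) (nat_lit 3) (nat_lit 289) (nat_lit 345) r4_289 r8_345 (nat_lit 0) (nat_lit 0) (nat_lit 24741287) (nat_lit 0x8017985b4) (nat_lit 561612199),
  Rx.mk (nat_lit 302) (nat_lit 6) (nat_lit 5) (nat_lit 4) (nat_lit 3) (nat_lit 284) (nat_lit 338) r4_284 r8_338 (nat_lit 0) (nat_lit 0) (nat_lit 24741287) (nat_lit 0x8017985b4) (nat_lit 561612199),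
  Rx.mk (nat_lit 332) (nat_lit 4) (nat_lit 1) (nat_lit 5) (nat_lit 6) (nat_lit 290) (nat_lit 342) r4_290 r8_342 (nat_lit 24741287) (nat_lit 0) (nat_lit 0) (nat_lit 0x8017985b4) (nat_lit 561612199),
  Rx.mk (nat_lit 333) (nat_lit 5) (nat_lit 1) (nat_lit 5) (nat_lit 7) (nat_lit 291) (nat_lit 344) r4_291 r8_344 (nat_lit 0) (nat_lit 0) (nat_lit 0) (nat_lit 0x8017985b4) (nat_lit 536870912),
  Rx.mk (nat_lit 334) (nat_lit 6) (nat_lit 1) (nat_lit 5) (nat_lit 7) (nat_lit 292) (nat_lit 346) r4_292 r8_346 (nat_lit 0) (nat_lit 0) (nat_lit 0) (nat_lit 0x8017985b4) (nat_lit 536870912),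
  Rx.mk (nat_lit 366) (nat_lit 6) (nat_lit 5) (nat_lit 5) (nat_lit 7) (nat_lit 285) (nat_lit 339) r4_285 r8_339 (nat_lit 0) (nat_lit 0) (nat_lit 0) (nat_lit 0x8017985b4) (nat_lit 536870912),
  Rx.mk (nat_lit 430) (nat_lit 6) (nat_lit 5) (nat_lit 6) (nat_lit 7) (nat_lit 286) (nat_lit 340) r4_286 r8_340 (nat_lit 0) (nat_lit 0) (nat_lit 0) (nat_lit 0x8017985b4) (nat_lit 536870912)]
noncomputable def e53_27 : List Rx := [
  Rx.mk (nat_lit 332) (nat_lit 4) (nat_lit 1) (nat_lit 5) (nat_lit 6) (nat_lit 304) (nat_lit 181) r4_304 r8_181 (nat_lit 24372871) (nat_lit 0) (nat_lit 0) (nat_lit 0x7fec7bb1a) (nat_lit 563885983),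
  Rx.mk (nat_lit 333) (nat_lit 5) (nat_lit 1) (nat_lit 5) (nat_lit 7) (nat_lit 305) (nat_lit 182) r4_305 r8_182 (nat_lit 0) (nat_lit 0) (nat_lit 0) (nat_lit 0x8017985b4) (nat_lit 536870912),
  Rx.mk (nat_lit 334) (nat_lit 6) (nat_lit 1) (nat_lit 5) (nat_lit 7) (nat_lit 306) (nat_lit 183) r4_306 r8_183 (nat_lit 0) (nat_lit 0) (nat_lit 0) (nat_lit 0x8017985b4) (nat_lit 536870912)]
noncomputable def e53_28 : List Rx := [
  Rx.mk (nat_lit 268) (nat_lit 4) (nat_lit 1) (nat_lit 4) (nat_lit 2) (nat_lit 355) (nat_lit 339) r4_355 r10_339 (nat_lit 46258346) (nat_lit 0) (nat_lit 35822015) (nat_lit 0x73116d7f0) (nat_lit 828766423),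
  Rx.mk (nat_lit 269) (nat_lit 5) (nat_lit 1) (nat_lit 4) (nat_lit 3) (nat_lit 356) (nat_lit 342) r4_356 r10_342 (nat_lit 0) (nat_lit 0) (nat_lit 24741287) (nat_lit 0x801405032) (nat_lit 561834699),
  Rx.mk (nat_lit 270) (nat_lit 6) (nat_lit 1) (nat_lit 4) (nat_lit 3) (nat_lit 357) (nat_lit 345) r4_357 r10_345 (nat_lit 0) (nat_lit 0) (nat_lit 25246541) (nat_lit 0x7fe66bc2a) (nat_lit 565123853),
  Rx.mk (nat_lit 332) (nat_lit 4) (nat_lit 1) (nat_lit 5) (nat_lit 6) (nat_lit 358) (nat_lit 340) r4_358 r10_340 (nat_lit 24741287) (nat_lit 0) (nat_lit 0) (nat_lit 0x8017985b4) (nat_lit 561612199),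
  Rx.mk (nat_lit 333) (nat_lit 5) (nat_lit 1) (nat_lit 5) (nat_lit 7) (nat_lit 359) (nat_lit 343) r4_359 r10_343 (nat_lit 0) (nat_lit 0) (nat_lit 0) (nat_lit 0x8017985b4) (nat_lit 536870912),
  Rx.mk (nat_lit 334) (nat_lit 6) (nat_lit 1) (nat_lit 5) (nat_lit 7) (nat_lit 360) (nat_lit 346) r4_360 r10_346 (nat_lit 0) (nat_lit 0) (nat_lit 0) (nat_lit 0x8017985b4) (nat_lit 536870912),
  Rx.mk (nat_lit 460) (nat_lit 4) (nat_lit 1) (nat_lit 7) (nat_lit 6) (nat_lit 361) (nat_lit 341) r4_361 r10_341 (nat_lit 28199854) (nat_lit 0) (nat_lit 0) (nat_lit 0x800201570) (nat_lit 566376116),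
  Rx.mk (nat_lit 461) (nat_lit 5) (nat_lit 1) (nat_lit 7) (nat_lit 7) (nat_lit 362) (nat_lit 344) r4_362 r10_344 (nat_lit 0) (nat_lit 0) (nat_lit 0) (nat_lit 0x8017985b4) (nat_lit 536870912)]
noncomputable def e53_29 : List Rx := [
  Rx.mk (nat_lit 460) (nat_lit 4) (nat_lit 1) (nat_lit 7) (nat_lit 6) (nat_lit 363) (nat_lit 353) r4_363 r11_353 (nat_lit 18792813) (nat_lit 0) (nat_lit 0) (nat_lit 0x7fd5d2af8) (nat_lit 559647725),
  Rx.mk (nat_lit 461) (nat_lit 5) (nat_lit 1) (nat_lit 7) (nat_lit 7) (nat_lit 364) (nat_lit 354) r4_364 r11_354 (nat_lit 0) (nat_lit 0) (nat_lit 0) (nat_lit 0x8047a5cb6) (nat_lit 533919512),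
  Rx.mk (nat_lit 462) (nat_lit 6) (nat_lit 1) (nat_lit 7) (nat_lit 7) (nat_lit 365) (nat_lit 355) r4_365 r11_355 (nat_lit 0) (nat_lit 0) (nat_lit 0) (nat_lit 0x8026a1380) (nat_lit 535916512)]
noncomputable def e53_30 : List Rx := [
  Rx.mk (nat_lit 21) (nat_lit 5) (nat_lit 2) (nat_lit 0) (nat_lit 3) (nat_lit 90) (nat_lit 66) r4_90 r5_66 (nat_lit 0) (nat_lit 0) (nat_lit 9749711) (nat_lit 0x7ffe1e016) (nat_lit 547673873),
  Rx.mk (nat_lit 197) (nat_lit 5) (nat_lit 0) (nat_lit 3) (nat_lit 5) (nat_lit 89) (nat_lit 67) r4_89 r5_67 (nat_lit 0) (nat_lit 10750557) (nat_lit 0) (nat_lit 0x7fd33eeae) (nat_lit 551622569),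
  Rx.mk (nat_lit 213) (nat_lit 5) (nat_lit 2) (nat_lit 3) (nat_lit 7) (nat_lit 91) (nat_lit 69) r4_91 r5_69 (nat_lit 0) (nat_lit 0) (nat_lit 0) (nat_lit 0x8121440f8) (nat_lit 520021762),
  Rx.mk (nat_lit 221) (nat_lit 5) (nat_lit 3) (nat_lit 3) (nat_lit 7) (nat_lit 92) (nat_lit 68) r4_92 r5_68 (nat_lit 0) (nat_lit 0) (nat_lit 0) (nat_lit 0x7fb528974) (nat_lit 542767312)]
noncomputable def e53_31 : List Rx := [
  Rx.mk (nat_lit 5) (nat_lit 5) (nat_lit 0) (nat_lit 0) (nat_lit 1) (nat_lit 188) (nat_lit 46) r4_188 r11_46 (nat_lit 0) (nat_lit 16806885) (nat_lit 33533154) (nat_lit 0x78c402cc6) (nat_lit 704937351),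
  Rx.mk (nat_lit 21) (nat_lit 5) (nat_lit 2) (nat_lit 0) (nat_lit 3) (nat_lit 191) (nat_lit 47) r4_191 r11_47 (nat_lit 0) (nat_lit 0) (nat_lit 16749673) (nat_lit 0x8060fd66e) (nat_lit 549095785),
  Rx.mk (nat_lit 69) (nat_lit 5) (nat_lit 0) (nat_lit 1) (nat_lit 5) (nat_lit 189) (nat_lit 48) r4_189 r11_48 (nat_lit 0) (nat_lit 24741287) (nat_lit 0) (nat_lit 0x8017985b4) (nat_lit 561612199),
  Rx.mk (nat_lit 85) (nat_lit 5) (nat_lit 2) (nat_lit 1) (nat_lit 7) (nat_lit 192) (nat_lit 49) r4_192 r11_49 (nat_lit 0) (nat_lit 0) (nat_lit 0) (nat_lit 0x804ce505a) (nat_lit 533594662),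
  Rx.mk (nat_lit 197) (nat_lit 5) (nat_lit 0) (nat_lit 3) (nat_lit 5) (nat_lit 190) (nat_lit 50) r4_190 r11_50 (nat_lit 0) (nat_lit 26071655) (nat_lit 0) (nat_lit 0x7fa9352f2) (nat_lit 569730517),
  Rx.mk (nat_lit 213) (nat_lit 5) (nat_lit 2) (nat_lit 3) (nat_lit 7) (nat_lit 193) (nat_lit 52) r4_193 r11_52 (nat_lit 0) (nat_lit 0) (nat_lit 0) (nat_lit 0x804ce4d1c) (nat_lit 533594712),
  Rx.mk (nat_lit 221) (nat_lit 5) (nat_lit 3) (nat_lit 3) (nat_lit 7) (nat_lit 194) (nat_lit 51) r4_194 r11_51 (nat_lit 0) (nat_lit 0) (nat_lit 0) (nat_lit 0x8017985b4) (nat_lit 536870912)]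
noncomputable def e53_32 : List Rx := [
  Rx.mk (nat_lit 199) (nat_lit 7) (nat_lit 0) (nat_lit 3) (nat_lit 5) (nat_lit 233) (nat_lit 135) r4_233 r6_135 (nat_lit 0) (nat_lit 11623710) (nat_lit 0) (nat_lit 0x7bf31a790) (nat_lit 614749172),
  Rx.mk (nat_lit 215) (nat_lit 7) (nat_lit 2) (nat_lit 3) (nat_lit 7) (nat_lit 234) (nat_lit 136) r4_234 r6_136 (nat_lit 0) (nat_lit 0) (nat_lit 0) (nat_lit 0x81ec02330) (nat_lit 508336162),
  Rx.mk (nat_lit 284) (nat_lit 4) (nat_lit 3) (nat_lit 4) (nat_lit 2) (nat_lit 235) (nat_lit 128) r4_235 r6_128 (nat_lit 72450) (nat_lit 0) (nat_lit 102847) (nat_lit 0x74c49e314) (nat_lit 718702409),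
  Rx.mk (nat_lit 285) (nat_lit 5) (nat_lit 3) (nat_lit 4) (nat_lit 3) (nat_lit 236) (nat_lit 131) r4_236 r6_131 (nat_lit 0) (nat_lit 0) (nat_lit 17803608) (nat_lit 0x8030df784) (nat_lit 553092470),
  Rx.mk (nat_lit 286) (nat_lit 6) (nat_lit 3) (nat_lit 4) (nat_lit 3) (nat_lit 237) (nat_lit 137) r4_237 r6_137 (nat_lit 0) (nat_lit 0) (nat_lit 14470459) (nat_lit 0x7f6a8c884) (nat_lit 561862921),
  Rx.mk (nat_lit 452) (nat_lit 4) (nat_lit 0) (nat_lit 7) (nat_lit 4) (nat_lit 229) (nat_lit 129) r4_229 r6_129 (nat_lit 150896) (nat_lit 185097) (nat_lit 0) (nat_lit 0x7474055ce) (nat_lit 723972805),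
  Rx.mk (nat_lit 453) (nat_lit 5) (nat_lit 0) (nat_lit 7) (nat_lit 5) (nat_lit 230) (nat_lit 132) r4_230 r6_132 (nat_lit 0) (nat_lit 15201900) (nat_lit 0) (nat_lit 0x80b22620c) (nat_lit 542613312),
  Rx.mk (nat_lit 454) (nat_lit 6) (nat_lit 0) (nat_lit 7) (nat_lit 5) (nat_lit 231) (nat_lit 138) r4_231 r6_138 (nat_lit 0) (nat_lit 15888000) (nat_lit 0) (nat_lit 0x80a2446e0) (nat_lit 544269162),
  Rx.mk (nat_lit 455) (nat_lit 7) (nat_lit 0) (nat_lit 7) (nat_lit 5) (nat_lit 232) (nat_lit 134) r4_232 r6_134 (nat_lit 0) (nat_lit 14591992) (nat_lit 0) (nat_lit 0x7ffde2a5c) (nat_lit 552972954),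
  Rx.mk (nat_lit 476) (nat_lit 4) (nat_lit 3) (nat_lit 7) (nat_lit 6) (nat_lit 238) (nat_lit 130) r4_238 r6_130 (nat_lit 8507115) (nat_lit 0) (nat_lit 0) (nat_lit 0x7fe98ff5a) (nat_lit 548034927),
  Rx.mk (nat_lit 477) (nat_lit 5) (nat_lit 3) (nat_lit 7) (nat_lit 7) (nat_lit 239) (nat_lit 133) r4_239 r6_133 (nat_lit 0) (nat_lit 0) (nat_lit 0) (nat_lit 0x80ad718e2) (nat_lit 527694462),
  Rx.mk (nat_lit 478) (nat_lit 6) (nat_lit 3) (nat_lit 7) (nat_lit 7) (nat_lit 240) (nat_lit 139) r4_240 r6_139 (nat_lit 0) (nat_lit 0) (nat_lit 0) (nat_lit 0x80ad718e2) (nat_lit 527694462)]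
noncomputable def e53_33 : List Rx := [
  Rx.mk (nat_lit 260) (nat_lit 4) (nat_lit 0) (nat_lit 4) (nat_lit 0) (nat_lit 366) (nat_lit 169) r4_366 r5_169 (nat_lit 841617) (nat_lit 1433235) (nat_lit 2737427) (nat_lit 0x61d7dcea2) (nat_lit 1029758991),
  Rx.mk (nat_lit 261) (nat_lit 5) (nat_lit 0) (nat_lit 4) (nat_lit 1) (nat_lit 367) (nat_lit 172) r4_367 r5_172 (nat_lit 0) (nat_lit 31203347) (nat_lit 38663507) (nat_lit 0x74de6bf62) (nat_lit 787491166),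
  Rx.mk (nat_lit 262) (nat_lit 6) (nat_lit 0) (nat_lit 4) (nat_lit 1) (nat_lit 368) (nat_lit 174) r4_368 r5_174 (nat_lit 0) (nat_lit 5546147) (nat_lit 174408130) (nat_lit 0x790afe648) (nat_lit 829916089),
  Rx.mk (nat_lit 268) (nat_lit 4) (nat_lit 1) (nat_lit 4) (nat_lit 2) (nat_lit 373) (nat_lit 170) r4_373 r5_170 (nat_lit 11320658) (nat_lit 0) (nat_lit 159956814) (nat_lit 0x7afbd0750) (nat_lit 789998334),
  Rx.mk (nat_lit 270) (nat_lit 6) (nat_lit 1) (nat_lit 4) (nat_lit 3) (nat_lit 374) (nat_lit 175) r4_374 r5_175 (nat_lit 0) (nat_lit 0) (nat_lit 141819368) (nat_lit 0x7fe1dc33a) (nat_lit 681820880),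
  Rx.mk (nat_lit 284) (nat_lit 4) (nat_lit 3) (nat_lit 4) (nat_lit 2) (nat_lit 378) (nat_lit 171) r4_378 r5_171 (nat_lit 24206208) (nat_lit 0) (nat_lit 58076158) (nat_lit 0x78ad82f82) (nat_lit 738299028),
  Rx.mk (nat_lit 285) (nat_lit 5) (nat_lit 3) (nat_lit 4) (nat_lit 3) (nat_lit 379) (nat_lit 173) r4_379 r5_173 (nat_lit 0) (nat_lit 0) (nat_lit 24741287) (nat_lit 0x8017985b4) (nat_lit 561612199),
  Rx.mk (nat_lit 286) (nat_lit 6) (nat_lit 3) (nat_lit 4) (nat_lit 3) (nat_lit 380) (nat_lit 176) r4_380 r5_176 (nat_lit 0) (nat_lit 0) (nat_lit 26164324) (nat_lit 0x80999346a) (nat_lit 555052536),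
  Rx.mk (nat_lit 452) (nat_lit 4) (nat_lit 0) (nat_lit 7) (nat_lit 4) (nat_lit 369) (nat_lit 177) r4_369 r5_177 (nat_lit 4717590) (nat_lit 5283235) (nat_lit 0) (nat_lit 0x752a4ab54) (nat_lit 722606187),
  Rx.mk (nat_lit 453) (nat_lit 5) (nat_lit 0) (nat_lit 7) (nat_lit 5) (nat_lit 370) (nat_lit 179) r4_370 r5_179 (nat_lit 0) (nat_lit 12656058) (nat_lit 0) (nat_lit 0x8088cb0ec) (nat_lit 542545370),
  Rx.mk (nat_lit 454) (nat_lit 6) (nat_lit 0) (nat_lit 7) (nat_lit 5) (nat_lit 371) (nat_lit 182) r4_371 r5_182 (nat_lit 0) (nat_lit 11445764) (nat_lit 0) (nat_lit 0x81403787a) (nat_lit 530241476),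
  Rx.mk (nat_lit 455) (nat_lit 7) (nat_lit 0) (nat_lit 7) (nat_lit 5) (nat_lit 372) (nat_lit 180) r4_372 r5_180 (nat_lit 0) (nat_lit 26071718) (nat_lit 0) (nat_lit 0x7c450e86c) (nat_lit 624104680),
  Rx.mk (nat_lit 460) (nat_lit 4) (nat_lit 1) (nat_lit 7) (nat_lit 6) (nat_lit 375) (nat_lit 178) r4_375 r5_178 (nat_lit 10292378) (nat_lit 0) (nat_lit 0) (nat_lit 0x80631e6c8) (nat_lit 542489390),
  Rx.mk (nat_lit 462) (nat_lit 6) (nat_lit 1) (nat_lit 7) (nat_lit 7) (nat_lit 376) (nat_lit 183) r4_376 r5_183 (nat_lit 0) (nat_lit 0) (nat_lit 0) (nat_lit 0x80cd61346) (nat_lit 525749862),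
  Rx.mk (nat_lit 463) (nat_lit 7) (nat_lit 1) (nat_lit 7) (nat_lit 7) (nat_lit 377) (nat_lit 181) r4_377 r5_181 (nat_lit 0) (nat_lit 0) (nat_lit 0) (nat_lit 0x80414fb1e) (nat_lit 534304462)]
noncomputable def e53_34 : List Rx := [
  Rx.mk (nat_lit 260) (nat_lit 4) (nat_lit 0) (nat_lit 4) (nat_lit 0) (nat_lit 381) (nat_lit 191) r4_381 r11_191 (nat_lit 15710614) (nat_lit 17913539) (nat_lit 17952672) (nat_lit 0x5f1b5dba2) (nat_lit 1121002137),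
  Rx.mk (nat_lit 261) (nat_lit 5) (nat_lit 0) (nat_lit 4) (nat_lit 1) (nat_lit 382) (nat_lit 194) r4_382 r11_194 (nat_lit 0) (nat_lit 34329630) (nat_lit 27647826) (nat_lit 0x7e54987ea) (nat_lit 626865718),
  Rx.mk (nat_lit 262) (nat_lit 6) (nat_lit 0) (nat_lit 4) (nat_lit 1) (nat_lit 383) (nat_lit 196) r4_383 r11_196 (nat_lit 0) (nat_lit 30009416) (nat_lit 28646946) (nat_lit 0x7b26b540c) (nat_lit 674773074),
  Rx.mk (nat_lit 268) (nat_lit 4) (nat_lit 1) (nat_lit 4) (nat_lit 2) (nat_lit 390) (nat_lit 192) r4_390 r11_192 (nat_lit 20049231) (nat_lit 0) (nat_lit 96193341) (nat_lit 0x7b255b444) (nat_lit 732377384),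
  Rx.mk (nat_lit 270) (nat_lit 6) (nat_lit 1) (nat_lit 4) (nat_lit 3) (nat_lit 391) (nat_lit 197) r4_391 r11_197 (nat_lit 0) (nat_lit 0) (nat_lit 30058585) (nat_lit 0x7fbf63a4c) (nat_lit 572343247),
  Rx.mk (nat_lit 284) (nat_lit 4) (nat_lit 3) (nat_lit 4) (nat_lit 2) (nat_lit 396) (nat_lit 193) r4_396 r11_193 (nat_lit 30793545) (nat_lit 0) (nat_lit 30793545) (nat_lit 0x7da382596) (nat_lit 637575952),
  Rx.mk (nat_lit 285) (nat_lit 5) (nat_lit 3) (nat_lit 4) (nat_lit 3) (nat_lit 397) (nat_lit 195) r4_397 r11_195 (nat_lit 0) (nat_lit 0) (nat_lit 24741287) (nat_lit 0x8017985b4) (nat_lit 561612199),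
  Rx.mk (nat_lit 286) (nat_lit 6) (nat_lit 3) (nat_lit 4) (nat_lit 3) (nat_lit 398) (nat_lit 198) r4_398 r11_198 (nat_lit 0) (nat_lit 0) (nat_lit 24741287) (nat_lit 0x8017985b4) (nat_lit 561612199),
  Rx.mk (nat_lit 324) (nat_lit 4) (nat_lit 0) (nat_lit 5) (nat_lit 4) (nat_lit 384) (nat_lit 199) r4_384 r11_199 (nat_lit 27870751) (nat_lit 35726227) (nat_lit 0) (nat_lit 0x779980b0c) (nat_lit 737097740),
  Rx.mk (nat_lit 325) (nat_lit 5) (nat_lit 0) (nat_lit 5) (nat_lit 5) (nat_lit 385) (nat_lit 202) r4_385 r11_202 (nat_lit 0) (nat_lit 26112240) (nat_lit 0) (nat_lit 0x7f458b346) (nat_lit 575951702),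
  Rx.mk (nat_lit 326) (nat_lit 6) (nat_lit 0) (nat_lit 5) (nat_lit 5) (nat_lit 386) (nat_lit 204) r4_386 r11_204 (nat_lit 0) (nat_lit 24741287) (nat_lit 0) (nat_lit 0x8017985b4) (nat_lit 561612199),
  Rx.mk (nat_lit 332) (nat_lit 4) (nat_lit 1) (nat_lit 5) (nat_lit 6) (nat_lit 392) (nat_lit 200) r4_392 r11_200 (nat_lit 24741287) (nat_lit 0) (nat_lit 0) (nat_lit 0x8017985b4) (nat_lit 561612199),
  Rx.mk (nat_lit 334) (nat_lit 6) (nat_lit 1) (nat_lit 5) (nat_lit 7) (nat_lit 393) (nat_lit 205) r4_393 r11_205 (nat_lit 0) (nat_lit 0) (nat_lit 0) (nat_lit 0x8017985b4) (nat_lit 536870912),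
  Rx.mk (nat_lit 348) (nat_lit 4) (nat_lit 3) (nat_lit 5) (nat_lit 6) (nat_lit 399) (nat_lit 201) r4_399 r11_201 (nat_lit 24741287) (nat_lit 0) (nat_lit 0) (nat_lit 0x8017985b4) (nat_lit 561612199),
  Rx.mk (nat_lit 349) (nat_lit 5) (nat_lit 3) (nat_lit 5) (nat_lit 7) (nat_lit 400) (nat_lit 203) r4_400 r11_203 (nat_lit 0) (nat_lit 0) (nat_lit 0) (nat_lit 0x8017985b4) (nat_lit 536870912),
  Rx.mk (nat_lit 350) (nat_lit 6) (nat_lit 3) (nat_lit 5) (nat_lit 7) (nat_lit 401) (nat_lit 206) r4_401 r11_206 (nat_lit 0) (nat_lit 0) (nat_lit 0) (nat_lit 0x8017985b4) (nat_lit 536870912),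
  Rx.mk (nat_lit 452) (nat_lit 4) (nat_lit 0) (nat_lit 7) (nat_lit 4) (nat_lit 387) (nat_lit 207) r4_387 r11_207 (nat_lit 29502798) (nat_lit 27912229) (nat_lit 0) (nat_lit 0x78d0f8fca) (nat_lit 711254839),
  Rx.mk (nat_lit 453) (nat_lit 5) (nat_lit 0) (nat_lit 7) (nat_lit 5) (nat_lit 388) (nat_lit 209) r4_388 r11_209 (nat_lit 0) (nat_lit 24741287) (nat_lit 0) (nat_lit 0x8017985b4) (nat_lit 561612199),
  Rx.mk (nat_lit 455) (nat_lit 7) (nat_lit 0) (nat_lit 7) (nat_lit 5) (nat_lit 389) (nat_lit 210) r4_389 r11_210 (nat_lit 0) (nat_lit 24741287) (nat_lit 0) (nat_lit 0x8017985b4) (nat_lit 561612199),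
  Rx.mk (nat_lit 460) (nat_lit 4) (nat_lit 1) (nat_lit 7) (nat_lit 6) (nat_lit 394) (nat_lit 208) r4_394 r11_208 (nat_lit 23934074) (nat_lit 0) (nat_lit 0) (nat_lit 0x7fe6d46d0) (nat_lit 563795286),
  Rx.mk (nat_lit 463) (nat_lit 7) (nat_lit 1) (nat_lit 7) (nat_lit 7) (nat_lit 395) (nat_lit 211) r4_395 r11_211 (nat_lit 0) (nat_lit 0) (nat_lit 0) (nat_lit 0x8017985b4) (nat_lit 536870912)]
noncomputable def e53_35 : List Rx := [
  Rx.mk (nat_lit 196) (nat_lit 4) (nat_lit 0) (nat_lit 3) (nat_lit 4) (nat_lit 78) (nat_lit 20) r4_78 r6_20 (nat_lit 2670845) (nat_lit 3814909) (nat_lit 0) (nat_lit 0x6861eb944) (nat_lit 925706566),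
  Rx.mk (nat_lit 197) (nat_lit 5) (nat_lit 0) (nat_lit 3) (nat_lit 5) (nat_lit 79) (nat_lit 21) r4_79 r6_21 (nat_lit 0) (nat_lit 9313182) (nat_lit 0) (nat_lit 0x8051e9268) (nat_lit 542445944),
  Rx.mk (nat_lit 199) (nat_lit 7) (nat_lit 0) (nat_lit 3) (nat_lit 5) (nat_lit 80) (nat_lit 22) r4_80 r6_22 (nat_lit 0) (nat_lit 10422876) (nat_lit 0) (nat_lit 0x7e366a3fe) (nat_lit 577077388),
  Rx.mk (nat_lit 212) (nat_lit 4) (nat_lit 2) (nat_lit 3) (nat_lit 6) (nat_lit 81) (nat_lit 28) r4_81 r6_28 (nat_lit 136651) (nat_lit 0) (nat_lit 0) (nat_lit 0x6297d7fc2) (nat_lit 1012582363),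
  Rx.mk (nat_lit 213) (nat_lit 5) (nat_lit 2) (nat_lit 3) (nat_lit 7) (nat_lit 82) (nat_lit 29) r4_82 r6_29 (nat_lit 0) (nat_lit 0) (nat_lit 0) (nat_lit 0x80f6273ca) (nat_lit 522994062),
  Rx.mk (nat_lit 215) (nat_lit 7) (nat_lit 2) (nat_lit 3) (nat_lit 7) (nat_lit 83) (nat_lit 30) r4_83 r6_30 (nat_lit 0) (nat_lit 0) (nat_lit 0) (nat_lit 0x80d433d36) (nat_lit 525049262),
  Rx.mk (nat_lit 220) (nat_lit 4) (nat_lit 3) (nat_lit 3) (nat_lit 6) (nat_lit 87) (nat_lit 23) r4_87 r6_23 (nat_lit 9821827) (nat_lit 0) (nat_lit 0) (nat_lit 0x7fc4fda48) (nat_lit 551627389),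
  Rx.mk (nat_lit 221) (nat_lit 5) (nat_lit 3) (nat_lit 3) (nat_lit 7) (nat_lit 88) (nat_lit 24) r4_88 r6_24 (nat_lit 0) (nat_lit 0) (nat_lit 0) (nat_lit 0x8046420c2) (nat_lit 534001662),
  Rx.mk (nat_lit 476) (nat_lit 4) (nat_lit 3) (nat_lit 7) (nat_lit 6) (nat_lit 84) (nat_lit 25) r4_84 r6_25 (nat_lit 5828454) (nat_lit 0) (nat_lit 0) (nat_lit 0x7fc27fd8e) (nat_lit 547632616),
  Rx.mk (nat_lit 477) (nat_lit 5) (nat_lit 3) (nat_lit 7) (nat_lit 7) (nat_lit 85) (nat_lit 26) r4_85 r6_26 (nat_lit 0) (nat_lit 0) (nat_lit 0) (nat_lit 0x80fddf1bc) (nat_lit 522806362),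
  Rx.mk (nat_lit 478) (nat_lit 6) (nat_lit 3) (nat_lit 7) (nat_lit 7) (nat_lit 86) (nat_lit 27) r4_86 r6_27 (nat_lit 0) (nat_lit 0) (nat_lit 0) (nat_lit 0x80efb1ee6) (nat_lit 523668462)]
noncomputable def e53_36 : List Rx := [
  Rx.mk (nat_lit 196) (nat_lit 4) (nat_lit 0) (nat_lit 3) (nat_lit 4) (nat_lit 244) (nat_lit 411) r4_244 r12_411 (nat_lit 1714766) (nat_lit 2631942) (nat_lit 0) (nat_lit 0x6423137c0) (nat_lit 992114620),
  Rx.mk (nat_lit 197) (nat_lit 5) (nat_lit 0) (nat_lit 3) (nat_lit 5) (nat_lit 245) (nat_lit 415) r4_245 r12_415 (nat_lit 0) (nat_lit 9667445) (nat_lit 0) (nat_lit 0x7e44f4f8c) (nat_lit 575356507),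
  Rx.mk (nat_lit 199) (nat_lit 7) (nat_lit 0) (nat_lit 3) (nat_lit 5) (nat_lit 246) (nat_lit 419) r4_246 r12_419 (nat_lit 0) (nat_lit 10567436) (nat_lit 0) (nat_lit 0x755c3f9fc) (nat_lit 720133798),
  Rx.mk (nat_lit 212) (nat_lit 4) (nat_lit 2) (nat_lit 3) (nat_lit 6) (nat_lit 247) (nat_lit 414) r4_247 r12_414 (nat_lit 99316) (nat_lit 0) (nat_lit 0) (nat_lit 0x5a569f38c) (nat_lit 1146020178),
  Rx.mk (nat_lit 213) (nat_lit 5) (nat_lit 2) (nat_lit 3) (nat_lit 7) (nat_lit 248) (nat_lit 418) r4_248 r12_418 (nat_lit 0) (nat_lit 0) (nat_lit 0) (nat_lit 0x7feb6c558) (nat_lit 539045512),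
  Rx.mk (nat_lit 215) (nat_lit 7) (nat_lit 2) (nat_lit 3) (nat_lit 7) (nat_lit 249) (nat_lit 420) r4_249 r12_420 (nat_lit 0) (nat_lit 0) (nat_lit 0) (nat_lit 0x7f2695054) (nat_lit 551109212),
  Rx.mk (nat_lit 452) (nat_lit 4) (nat_lit 0) (nat_lit 7) (nat_lit 4) (nat_lit 241) (nat_lit 412) r4_241 r12_412 (nat_lit 41553) (nat_lit 58690) (nat_lit 0) (nat_lit 0x7b312194a) (nat_lit 614735255),
  Rx.mk (nat_lit 453) (nat_lit 5) (nat_lit 0) (nat_lit 7) (nat_lit 5) (nat_lit 242) (nat_lit 416) r4_242 r12_416 (nat_lit 0) (nat_lit 8369781) (nat_lit 0) (nat_lit 0x7f5bb069e) (nat_lit 556643943),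
  Rx.mk (nat_lit 454) (nat_lit 6) (nat_lit 0) (nat_lit 7) (nat_lit 5) (nat_lit 243) (nat_lit 421) r4_243 r12_421 (nat_lit 0) (nat_lit 12827212) (nat_lit 0) (nat_lit 0x80d8b15d4) (nat_lit 537881374),
  Rx.mk (nat_lit 476) (nat_lit 4) (nat_lit 3) (nat_lit 7) (nat_lit 6) (nat_lit 250) (nat_lit 413) r4_250 r12_413 (nat_lit 4688491) (nat_lit 0) (nat_lit 0) (nat_lit 0x7f006038e) (nat_lit 558460953),
  Rx.mk (nat_lit 477) (nat_lit 5) (nat_lit 3) (nat_lit 7) (nat_lit 7) (nat_lit 251) (nat_lit 417) r4_251 r12_417 (nat_lit 0) (nat_lit 0) (nat_lit 0) (nat_lit 0x80a484a0e) (nat_lit 528215812),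
  Rx.mk (nat_lit 478) (nat_lit 6) (nat_lit 3) (nat_lit 7) (nat_lit 7) (nat_lit 252) (nat_lit 422) r4_252 r12_422 (nat_lit 0) (nat_lit 0) (nat_lit 0) (nat_lit 0x80c5a12f0) (nat_lit 526217362)]
noncomputable def e53_37 : List Rx := [
  Rx.mk (nat_lit 294) (nat_lit 6) (nat_lit 4) (nat_lit 4) (nat_lit 1) (nat_lit 93) (nat_lit 142) r4_93 r0_142 (nat_lit 0) (nat_lit 1138602) (nat_lit 206617785) (nat_lit 0x685ba0238) (nat_lit 1127160549),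
  Rx.mk (nat_lit 318) (nat_lit 6) (nat_lit 7) (nat_lit 4) (nat_lit 3) (nat_lit 95) (nat_lit 143) r4_95 r0_143 (nat_lit 0) (nat_lit 0) (nat_lit 128366738) (nat_lit 0x7fb918d0e) (nat_lit 670781900),
  Rx.mk (nat_lit 422) (nat_lit 6) (nat_lit 4) (nat_lit 6) (nat_lit 5) (nat_lit 94) (nat_lit 145) r4_94 r0_145 (nat_lit 0) (nat_lit 15006223) (nat_lit 0) (nat_lit 0x7cc837842) (nat_lit 604752435),
  Rx.mk (nat_lit 446) (nat_lit 6) (nat_lit 7) (nat_lit 6) (nat_lit 7) (nat_lit 96) (nat_lit 146) r4_96 r0_146 (nat_lit 0) (nat_lit 0) (nat_lit 0) (nat_lit 0x801c7c06c) (nat_lit 536515262),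
  Rx.mk (nat_lit 510) (nat_lit 6) (nat_lit 7) (nat_lit 7) (nat_lit 7) (nat_lit 97) (nat_lit 144) r4_97 r0_144 (nat_lit 0) (nat_lit 0) (nat_lit 0) (nat_lit 0x7fd67623e) (nat_lit 540864312)]
noncomputable def e53_38 : List Rx := [
  Rx.mk (nat_lit 16) (nat_lit 0) (nat_lit 2) (nat_lit 0) (nat_lit 2) (nat_lit 8) (nat_lit 52) r4_8 r0_52 (nat_lit 6694296) (nat_lit 0) (nat_lit 22112455) (nat_lit 0x63f406554) (nat_lit 1019765813),
  Rx.mk (nat_lit 19) (nat_lit 3) (nat_lit 2) (nat_lit 0) (nat_lit 3) (nat_lit 9) (nat_lit 53) r4_9 r0_53 (nat_lit 0) (nat_lit 0) (nat_lit 74749020) (nat_lit 0x751698fde) (nat_lit 788742832),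
  Rx.mk (nat_lit 144) (nat_lit 0) (nat_lit 2) (nat_lit 2) (nat_lit 6) (nat_lit 10) (nat_lit 55) r4_10 r0_55 (nat_lit 12464414) (nat_lit 0) (nat_lit 0) (nat_lit 0x7d1fc1338) (nat_lit 596680676),
  Rx.mk (nat_lit 147) (nat_lit 3) (nat_lit 2) (nat_lit 2) (nat_lit 7) (nat_lit 11) (nat_lit 56) r4_11 r0_56 (nat_lit 0) (nat_lit 0) (nat_lit 0) (nat_lit 0x8071443a6) (nat_lit 531356412),
  Rx.mk (nat_lit 176) (nat_lit 0) (nat_lit 6) (nat_lit 2) (nat_lit 6) (nat_lit 3) (nat_lit 62) r4_3 r0_62 (nat_lit 11579015) (nat_lit 0) (nat_lit 0) (nat_lit 0x7fd79e04e) (nat_lit 552249627),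
  Rx.mk (nat_lit 178) (nat_lit 2) (nat_lit 6) (nat_lit 2) (nat_lit 7) (nat_lit 4) (nat_lit 63) r4_4 r0_63 (nat_lit 0) (nat_lit 0) (nat_lit 0) (nat_lit 0x804ed3af6) (nat_lit 533452762),
  Rx.mk (nat_lit 211) (nat_lit 3) (nat_lit 2) (nat_lit 3) (nat_lit 7) (nat_lit 12) (nat_lit 54) r4_12 r0_54 (nat_lit 0) (nat_lit 0) (nat_lit 0) (nat_lit 0x76aa13858) (nat_lit 688374962),
  Rx.mk (nat_lit 318) (nat_lit 6) (nat_lit 7) (nat_lit 4) (nat_lit 3) (nat_lit 5) (nat_lit 59) r4_5 r0_59 (nat_lit 0) (nat_lit 0) (nat_lit 82674763) (nat_lit 0x7746f3588) (nat_lit 761260075),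
  Rx.mk (nat_lit 418) (nat_lit 2) (nat_lit 4) (nat_lit 6) (nat_lit 5) (nat_lit 1) (nat_lit 57) r4_1 r0_57 (nat_lit 0) (nat_lit 13925368) (nat_lit 0) (nat_lit 0x7d011df30) (nat_lit 600028230),
  Rx.mk (nat_lit 422) (nat_lit 6) (nat_lit 4) (nat_lit 6) (nat_lit 5) (nat_lit 0) (nat_lit 58) r4_0 r0_58 (nat_lit 0) (nat_lit 5660977) (nat_lit 0) (nat_lit 0x6025939b8) (nat_lit 1058125439),
  Rx.mk (nat_lit 434) (nat_lit 2) (nat_lit 6) (nat_lit 6) (nat_lit 7) (nat_lit 2) (nat_lit 64) r4_2 r0_64 (nat_lit 0) (nat_lit 0) (nat_lit 0) (nat_lit 0x80a6ddf44) (nat_lit 528084262),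
  Rx.mk (nat_lit 446) (nat_lit 6) (nat_lit 7) (nat_lit 6) (nat_lit 7) (nat_lit 6) (nat_lit 61) r4_6 r0_61 (nat_lit 0) (nat_lit 0) (nat_lit 0) (nat_lit 0x7f2c10cae) (nat_lit 551161962),
  Rx.mk (nat_lit 510) (nat_lit 6) (nat_lit 7) (nat_lit 7) (nat_lit 7) (nat_lit 7) (nat_lit 60) r4_7 r0_60 (nat_lit 0) (nat_lit 0) (nat_lit 0) (nat_lit 0x7f7512f6a) (nat_lit 546825312)]
noncomputable def e53_39 : List Rx := [
  Rx.mk (nat_lit 176) (nat_lit 0) (nat_lit 6) (nat_lit 2) (nat_lit 6) (nat_lit 102) (nat_lit 180) r4_102 r7_180 (nat_lit 15103995) (nat_lit 0) (nat_lit 0) (nat_lit 0x808086120) (nat_lit 545531857),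
  Rx.mk (nat_lit 178) (nat_lit 2) (nat_lit 6) (nat_lit 2) (nat_lit 7) (nat_lit 103) (nat_lit 183) r4_103 r7_183 (nat_lit 0) (nat_lit 0) (nat_lit 0) (nat_lit 0x8017985b4) (nat_lit 536870912),
  Rx.mk (nat_lit 294) (nat_lit 6) (nat_lit 4) (nat_lit 4) (nat_lit 1) (nat_lit 98) (nat_lit 175) r4_98 r7_175 (nat_lit 0) (nat_lit 11303237) (nat_lit 21615915) (nat_lit 0x68ed8d4d4) (nat_lit 943524414),
  Rx.mk (nat_lit 318) (nat_lit 6) (nat_lit 7) (nat_lit 4) (nat_lit 3) (nat_lit 104) (nat_lit 176) r4_104 r7_176 (nat_lit 0) (nat_lit 0) (nat_lit 32199586) (nat_lit 0x7deebd290) (nat_lit 603434298),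
  Rx.mk (nat_lit 418) (nat_lit 2) (nat_lit 4) (nat_lit 6) (nat_lit 5) (nat_lit 100) (nat_lit 181) r4_100 r7_181 (nat_lit 0) (nat_lit 17421724) (nat_lit 0) (nat_lit 0x804c6a3e6) (nat_lit 551019636),
  Rx.mk (nat_lit 422) (nat_lit 6) (nat_lit 4) (nat_lit 6) (nat_lit 5) (nat_lit 99) (nat_lit 178) r4_99 r7_178 (nat_lit 0) (nat_lit 10576130) (nat_lit 0) (nat_lit 0x7fd267c38) (nat_lit 551565342),
  Rx.mk (nat_lit 434) (nat_lit 2) (nat_lit 6) (nat_lit 6) (nat_lit 7) (nat_lit 101) (nat_lit 182) r4_101 r7_182 (nat_lit 0) (nat_lit 0) (nat_lit 0) (nat_lit 0x8017985b4) (nat_lit 536870912),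
  Rx.mk (nat_lit 446) (nat_lit 6) (nat_lit 7) (nat_lit 6) (nat_lit 7) (nat_lit 105) (nat_lit 179) r4_105 r7_179 (nat_lit 0) (nat_lit 0) (nat_lit 0) (nat_lit 0x80d93c616) (nat_lit 525035062),
  Rx.mk (nat_lit 510) (nat_lit 6) (nat_lit 7) (nat_lit 7) (nat_lit 7) (nat_lit 106) (nat_lit 177) r4_106 r7_177 (nat_lit 0) (nat_lit 0) (nat_lit 0) (nat_lit 0x8017985b4) (nat_lit 536870912)]
noncomputable def e53_40 : List Rx := [
  Rx.mk (nat_lit 16) (nat_lit 0) (nat_lit 2) (nat_lit 0) (nat_lit 2) (nat_lit 24) (nat_lit 47) r4_24 r2_47 (nat_lit 4698401) (nat_lit 0) (nat_lit 8468611) (nat_lit 0x6f73fce92) (nat_lit 818155574),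
  Rx.mk (nat_lit 17) (nat_lit 1) (nat_lit 2) (nat_lit 0) (nat_lit 3) (nat_lit 25) (nat_lit 48) r4_25 r2_48 (nat_lit 0) (nat_lit 0) (nat_lit 26453388) (nat_lit 0x802d4deae) (nat_lit 561974850),
  Rx.mk (nat_lit 144) (nat_lit 0) (nat_lit 2) (nat_lit 2) (nat_lit 6) (nat_lit 26) (nat_lit 52) r4_26 r2_52 (nat_lit 18137495) (nat_lit 0) (nat_lit 0) (nat_lit 0x807289324) (nat_lit 549428707),
  Rx.mk (nat_lit 145) (nat_lit 1) (nat_lit 2) (nat_lit 2) (nat_lit 7) (nat_lit 27) (nat_lit 53) r4_27 r2_53 (nat_lit 0) (nat_lit 0) (nat_lit 0) (nat_lit 0x8017985b4) (nat_lit 536870912),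
  Rx.mk (nat_lit 176) (nat_lit 0) (nat_lit 6) (nat_lit 2) (nat_lit 6) (nat_lit 21) (nat_lit 54) r4_21 r2_54 (nat_lit 16949147) (nat_lit 0) (nat_lit 0) (nat_lit 0x80890f31e) (nat_lit 546864309),
  Rx.mk (nat_lit 177) (nat_lit 1) (nat_lit 6) (nat_lit 2) (nat_lit 7) (nat_lit 22) (nat_lit 55) r4_22 r2_55 (nat_lit 0) (nat_lit 0) (nat_lit 0) (nat_lit 0x8017985b4) (nat_lit 536870912),
  Rx.mk (nat_lit 178) (nat_lit 2) (nat_lit 6) (nat_lit 2) (nat_lit 7) (nat_lit 23) (nat_lit 56) r4_23 r2_56 (nat_lit 0) (nat_lit 0) (nat_lit 0) (nat_lit 0x8017985b4) (nat_lit 536870912),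
  Rx.mk (nat_lit 208) (nat_lit 0) (nat_lit 2) (nat_lit 3) (nat_lit 6) (nat_lit 28) (nat_lit 49) r4_28 r2_49 (nat_lit 4236250) (nat_lit 0) (nat_lit 0) (nat_lit 0x81374ce9a) (nat_lit 523350712),
  Rx.mk (nat_lit 209) (nat_lit 1) (nat_lit 2) (nat_lit 3) (nat_lit 7) (nat_lit 29) (nat_lit 50) r4_29 r2_50 (nat_lit 0) (nat_lit 0) (nat_lit 0) (nat_lit 0x817902fd8) (nat_lit 515379662),
  Rx.mk (nat_lit 211) (nat_lit 3) (nat_lit 2) (nat_lit 3) (nat_lit 7) (nat_lit 30) (nat_lit 51) r4_30 r2_51 (nat_lit 0) (nat_lit 0) (nat_lit 0) (nat_lit 0x8173c4f94) (nat_lit 515699662)]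
noncomputable def e53_41 : List Rx := [
  Rx.mk (nat_lit 176) (nat_lit 0) (nat_lit 6) (nat_lit 2) (nat_lit 6) (nat_lit 128) (nat_lit 15) r4_128 r9_15 (nat_lit 24741287) (nat_lit 0) (nat_lit 0) (nat_lit 0x8017985b4) (nat_lit 561612199),
  Rx.mk (nat_lit 177) (nat_lit 1) (nat_lit 6) (nat_lit 2) (nat_lit 7) (nat_lit 129) (nat_lit 16) r4_129 r9_16 (nat_lit 0) (nat_lit 0) (nat_lit 0) (nat_lit 0x8017985b4) (nat_lit 536870912),
  Rx.mk (nat_lit 178) (nat_lit 2) (nat_lit 6) (nat_lit 2) (nat_lit 7) (nat_lit 130) (nat_lit 17) r4_130 r9_17 (nat_lit 0) (nat_lit 0) (nat_lit 0) (nat_lit 0x8017985b4) (nat_lit 536870912)]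
noncomputable def e53_42 : List Rx := [
  Rx.mk (nat_lit 16) (nat_lit 0) (nat_lit 2) (nat_lit 0) (nat_lit 2) (nat_lit 147) (nat_lit 50) r4_147 r9_50 (nat_lit 16343874) (nat_lit 0) (nat_lit 18784265) (nat_lit 0x65a8d64ce) (nat_lit 998625001),
  Rx.mk (nat_lit 17) (nat_lit 1) (nat_lit 2) (nat_lit 0) (nat_lit 3) (nat_lit 148) (nat_lit 51) r4_148 r9_51 (nat_lit 0) (nat_lit 0) (nat_lit 24741287) (nat_lit 0x8017985b4) (nat_lit 561612199),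
  Rx.mk (nat_lit 81) (nat_lit 1) (nat_lit 2) (nat_lit 1) (nat_lit 7) (nat_lit 149) (nat_lit 52) r4_149 r9_52 (nat_lit 0) (nat_lit 0) (nat_lit 0) (nat_lit 0x8017985b4) (nat_lit 536870912),
  Rx.mk (nat_lit 144) (nat_lit 0) (nat_lit 2) (nat_lit 2) (nat_lit 6) (nat_lit 150) (nat_lit 59) r4_150 r9_59 (nat_lit 24741287) (nat_lit 0) (nat_lit 0) (nat_lit 0x7ff8b06c4) (nat_lit 563504749),
  Rx.mk (nat_lit 145) (nat_lit 1) (nat_lit 2) (nat_lit 2) (nat_lit 7) (nat_lit 151) (nat_lit 60) r4_151 r9_60 (nat_lit 0) (nat_lit 0) (nat_lit 0) (nat_lit 0x8017985b4) (nat_lit 536870912),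
  Rx.mk (nat_lit 176) (nat_lit 0) (nat_lit 6) (nat_lit 2) (nat_lit 6) (nat_lit 144) (nat_lit 56) r4_144 r9_56 (nat_lit 24741287) (nat_lit 0) (nat_lit 0) (nat_lit 0x8017985b4) (nat_lit 561612199),
  Rx.mk (nat_lit 177) (nat_lit 1) (nat_lit 6) (nat_lit 2) (nat_lit 7) (nat_lit 145) (nat_lit 57) r4_145 r9_57 (nat_lit 0) (nat_lit 0) (nat_lit 0) (nat_lit 0x8017985b4) (nat_lit 536870912),
  Rx.mk (nat_lit 178) (nat_lit 2) (nat_lit 6) (nat_lit 2) (nat_lit 7) (nat_lit 146) (nat_lit 58) r4_146 r9_58 (nat_lit 0) (nat_lit 0) (nat_lit 0) (nat_lit 0x8017985b4) (nat_lit 536870912),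
  Rx.mk (nat_lit 208) (nat_lit 0) (nat_lit 2) (nat_lit 3) (nat_lit 6) (nat_lit 152) (nat_lit 53) r4_152 r9_53 (nat_lit 24741287) (nat_lit 0) (nat_lit 0) (nat_lit 0x8017985b4) (nat_lit 561612199),
  Rx.mk (nat_lit 209) (nat_lit 1) (nat_lit 2) (nat_lit 3) (nat_lit 7) (nat_lit 153) (nat_lit 54) r4_153 r9_54 (nat_lit 0) (nat_lit 0) (nat_lit 0) (nat_lit 0x8017985b4) (nat_lit 536870912),
  Rx.mk (nat_lit 211) (nat_lit 3) (nat_lit 2) (nat_lit 3) (nat_lit 7) (nat_lit 154) (nat_lit 55) r4_154 r9_55 (nat_lit 0) (nat_lit 0) (nat_lit 0) (nat_lit 0x8017985b4) (nat_lit 536870912)]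
noncomputable def e53_43 : List Rx := [
  Rx.mk (nat_lit 16) (nat_lit 0) (nat_lit 2) (nat_lit 0) (nat_lit 2) (nat_lit 16) (nat_lit 50) r4_16 r1_50 (nat_lit 12415695) (nat_lit 0) (nat_lit 67051359) (nat_lit 0x6dd5f0330) (nat_lit 910715916),
  Rx.mk (nat_lit 19) (nat_lit 3) (nat_lit 2) (nat_lit 0) (nat_lit 3) (nat_lit 17) (nat_lit 51) r4_17 r1_51 (nat_lit 0) (nat_lit 0) (nat_lit 32103431) (nat_lit 0x7f4592056) (nat_lit 581897443),
  Rx.mk (nat_lit 144) (nat_lit 0) (nat_lit 2) (nat_lit 2) (nat_lit 6) (nat_lit 18) (nat_lit 53) r4_18 r1_53 (nat_lit 18565138) (nat_lit 0) (nat_lit 0) (nat_lit 0x7e088a2e0) (nat_lit 588194500),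
  Rx.mk (nat_lit 147) (nat_lit 3) (nat_lit 2) (nat_lit 2) (nat_lit 7) (nat_lit 19) (nat_lit 54) r4_19 r1_54 (nat_lit 0) (nat_lit 0) (nat_lit 0) (nat_lit 0x8017985b4) (nat_lit 536870912),
  Rx.mk (nat_lit 176) (nat_lit 0) (nat_lit 6) (nat_lit 2) (nat_lit 6) (nat_lit 14) (nat_lit 55) r4_14 r1_55 (nat_lit 13824857) (nat_lit 0) (nat_lit 0) (nat_lit 0x8053119f6) (nat_lit 546991619),
  Rx.mk (nat_lit 178) (nat_lit 2) (nat_lit 6) (nat_lit 2) (nat_lit 7) (nat_lit 15) (nat_lit 56) r4_15 r1_56 (nat_lit 0) (nat_lit 0) (nat_lit 0) (nat_lit 0x8078ceb44) (nat_lit 530903862),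
  Rx.mk (nat_lit 211) (nat_lit 3) (nat_lit 2) (nat_lit 3) (nat_lit 7) (nat_lit 20) (nat_lit 52) r4_20 r1_52 (nat_lit 0) (nat_lit 0) (nat_lit 0) (nat_lit 0x8256757bc) (nat_lit 501986312),
  Rx.mk (nat_lit 434) (nat_lit 2) (nat_lit 6) (nat_lit 6) (nat_lit 7) (nat_lit 13) (nat_lit 57) r4_13 r1_57 (nat_lit 0) (nat_lit 0) (nat_lit 0) (nat_lit 0x8007403f6) (nat_lit 537871262)]
noncomputable def e53_44 : List Rx := [
  Rx.mk (nat_lit 176) (nat_lit 0) (nat_lit 6) (nat_lit 2) (nat_lit 6) (nat_lit 126) (nat_lit 146) r4_126 r8_146 (nat_lit 22851491) (nat_lit 0) (nat_lit 0) (nat_lit 0x7fa9b2676) (nat_lit 566471853),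
  Rx.mk (nat_lit 178) (nat_lit 2) (nat_lit 6) (nat_lit 2) (nat_lit 7) (nat_lit 127) (nat_lit 148) r4_127 r8_148 (nat_lit 0) (nat_lit 0) (nat_lit 0) (nat_lit 0x8017985b4) (nat_lit 536870912),
  Rx.mk (nat_lit 434) (nat_lit 2) (nat_lit 6) (nat_lit 6) (nat_lit 7) (nat_lit 125) (nat_lit 147) r4_125 r8_147 (nat_lit 0) (nat_lit 0) (nat_lit 0) (nat_lit 0x8017985b4) (nat_lit 536870912)]
noncomputable def e53_45 : List Rx := [
  Rx.mk (nat_lit 294) (nat_lit 6) (nat_lit 4) (nat_lit 4) (nat_lit 1) (nat_lit 107) (nat_lit 154) r4_107 r1_154 (nat_lit 0) (nat_lit 13326467) (nat_lit 159743199) (nat_lit 0x73d78693c) (nat_lit 907207678),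
  Rx.mk (nat_lit 302) (nat_lit 6) (nat_lit 5) (nat_lit 4) (nat_lit 3) (nat_lit 109) (nat_lit 155) r4_109 r1_155 (nat_lit 0) (nat_lit 0) (nat_lit 26051565) (nat_lit 0x8064f5dac) (nat_lit 558163527),
  Rx.mk (nat_lit 318) (nat_lit 6) (nat_lit 7) (nat_lit 4) (nat_lit 3) (nat_lit 111) (nat_lit 156) r4_111 r1_156 (nat_lit 0) (nat_lit 0) (nat_lit 26855787) (nat_lit 0x80aa4da94) (nat_lit 554718499),
  Rx.mk (nat_lit 422) (nat_lit 6) (nat_lit 4) (nat_lit 6) (nat_lit 5) (nat_lit 108) (nat_lit 158) r4_108 r1_158 (nat_lit 0) (nat_lit 21535191) (nat_lit 0) (nat_lit 0x7c291a87c) (nat_lit 621319503),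
  Rx.mk (nat_lit 430) (nat_lit 6) (nat_lit 5) (nat_lit 6) (nat_lit 7) (nat_lit 110) (nat_lit 159) r4_110 r1_159 (nat_lit 0) (nat_lit 0) (nat_lit 0) (nat_lit 0x807893f76) (nat_lit 530914262),
  Rx.mk (nat_lit 446) (nat_lit 6) (nat_lit 7) (nat_lit 6) (nat_lit 7) (nat_lit 112) (nat_lit 160) r4_112 r1_160 (nat_lit 0) (nat_lit 0) (nat_lit 0) (nat_lit 0x8039d0276) (nat_lit 534761612),
  Rx.mk (nat_lit 510) (nat_lit 6) (nat_lit 7) (nat_lit 7) (nat_lit 7) (nat_lit 113) (nat_lit 157) r4_113 r1_157 (nat_lit 0) (nat_lit 0) (nat_lit 0) (nat_lit 0x8017985b4) (nat_lit 536870912)]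
noncomputable def e53_46 : List Rx := [
  Rx.mk (nat_lit 302) (nat_lit 6) (nat_lit 5) (nat_lit 4) (nat_lit 3) (nat_lit 271) (nat_lit 158) r4_271 r2_158 (nat_lit 0) (nat_lit 0) (nat_lit 24741287) (nat_lit 0x8017985b4) (nat_lit 561612199),
  Rx.mk (nat_lit 430) (nat_lit 6) (nat_lit 5) (nat_lit 6) (nat_lit 7) (nat_lit 272) (nat_lit 159) r4_272 r2_159 (nat_lit 0) (nat_lit 0) (nat_lit 0) (nat_lit 0x8017985b4) (nat_lit 536870912)]
noncomputable def e53_47 : List Rx := [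
  Rx.mk (nat_lit 178) (nat_lit 2) (nat_lit 6) (nat_lit 2) (nat_lit 7) (nat_lit 121) (nat_lit 56) r4_121 r8_56 (nat_lit 0) (nat_lit 0) (nat_lit 0) (nat_lit 0x8017985b4) (nat_lit 536870912),
  Rx.mk (nat_lit 294) (nat_lit 6) (nat_lit 4) (nat_lit 4) (nat_lit 1) (nat_lit 114) (nat_lit 47) r4_114 r8_47 (nat_lit 0) (nat_lit 25528723) (nat_lit 35927384) (nat_lit 0x6c2494650) (nat_lit 920149869),
  Rx.mk (nat_lit 302) (nat_lit 6) (nat_lit 5) (nat_lit 4) (nat_lit 3) (nat_lit 117) (nat_lit 50) r4_117 r8_50 (nat_lit 0) (nat_lit 0) (nat_lit 24741287) (nat_lit 0x8005f42d6) (nat_lit 562689149),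
  Rx.mk (nat_lit 318) (nat_lit 6) (nat_lit 7) (nat_lit 4) (nat_lit 3) (nat_lit 122) (nat_lit 53) r4_122 r8_53 (nat_lit 0) (nat_lit 0) (nat_lit 24741287) (nat_lit 0x8017985b4) (nat_lit 561612199),
  Rx.mk (nat_lit 418) (nat_lit 2) (nat_lit 4) (nat_lit 6) (nat_lit 5) (nat_lit 116) (nat_lit 48) r4_116 r8_48 (nat_lit 0) (nat_lit 19539304) (nat_lit 0) (nat_lit 0x7feeea77a) (nat_lit 558873116),
  Rx.mk (nat_lit 422) (nat_lit 6) (nat_lit 4) (nat_lit 6) (nat_lit 5) (nat_lit 115) (nat_lit 49) r4_115 r8_49 (nat_lit 0) (nat_lit 15426170) (nat_lit 0) (nat_lit 0x7fa00e8ea) (nat_lit 559577782),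
  Rx.mk (nat_lit 426) (nat_lit 2) (nat_lit 5) (nat_lit 6) (nat_lit 7) (nat_lit 119) (nat_lit 51) r4_119 r8_51 (nat_lit 0) (nat_lit 0) (nat_lit 0) (nat_lit 0x8017985b4) (nat_lit 536870912),
  Rx.mk (nat_lit 430) (nat_lit 6) (nat_lit 5) (nat_lit 6) (nat_lit 7) (nat_lit 118) (nat_lit 52) r4_118 r8_52 (nat_lit 0) (nat_lit 0) (nat_lit 0) (nat_lit 0x8050765fc) (nat_lit 533378512),
  Rx.mk (nat_lit 434) (nat_lit 2) (nat_lit 6) (nat_lit 6) (nat_lit 7) (nat_lit 120) (nat_lit 57) r4_120 r8_57 (nat_lit 0) (nat_lit 0) (nat_lit 0) (nat_lit 0x8017985b4) (nat_lit 536870912),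
  Rx.mk (nat_lit 446) (nat_lit 6) (nat_lit 7) (nat_lit 6) (nat_lit 7) (nat_lit 123) (nat_lit 55) r4_123 r8_55 (nat_lit 0) (nat_lit 0) (nat_lit 0) (nat_lit 0x80507696c) (nat_lit 533378462),
  Rx.mk (nat_lit 510) (nat_lit 6) (nat_lit 7) (nat_lit 7) (nat_lit 7) (nat_lit 124) (nat_lit 54) r4_124 r8_54 (nat_lit 0) (nat_lit 0) (nat_lit 0) (nat_lit 0x8017985b4) (nat_lit 536870912)]
noncomputable def e53_48 : List Rx := [
  Rx.mk (nat_lit 302) (nat_lit 6) (nat_lit 5) (nat_lit 4) (nat_lit 3) (nat_lit 276) (nat_lit 133) r4_276 r9_133 (nat_lit 0) (nat_lit 0) (nat_lit 24741287) (nat_lit 0x80035e648) (nat_lit 562847599),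
  Rx.mk (nat_lit 426) (nat_lit 2) (nat_lit 5) (nat_lit 6) (nat_lit 7) (nat_lit 278) (nat_lit 135) r4_278 r9_135 (nat_lit 0) (nat_lit 0) (nat_lit 0) (nat_lit 0x8017985b4) (nat_lit 536870912),
  Rx.mk (nat_lit 430) (nat_lit 6) (nat_lit 5) (nat_lit 6) (nat_lit 7) (nat_lit 277) (nat_lit 134) r4_277 r9_134 (nat_lit 0) (nat_lit 0) (nat_lit 0) (nat_lit 0x8017985b4) (nat_lit 536870912)]
noncomputable def e53_49 : List Rx := [
  Rx.mk (nat_lit 302) (nat_lit 6) (nat_lit 5) (nat_lit 4) (nat_lit 3) (nat_lit 273) (nat_lit 167) r4_273 r9_167 (nat_lit 0) (nat_lit 0) (nat_lit 24741287) (nat_lit 0x7fff3afc6) (nat_lit 563104399),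
  Rx.mk (nat_lit 366) (nat_lit 6) (nat_lit 5) (nat_lit 5) (nat_lit 7) (nat_lit 274) (nat_lit 168) r4_274 r9_168 (nat_lit 0) (nat_lit 0) (nat_lit 0) (nat_lit 0x8017985b4) (nat_lit 536870912),
  Rx.mk (nat_lit 430) (nat_lit 6) (nat_lit 5) (nat_lit 6) (nat_lit 7) (nat_lit 275) (nat_lit 169) r4_275 r9_169 (nat_lit 0) (nat_lit 0) (nat_lit 0) (nat_lit 0x8017985b4) (nat_lit 536870912)]
noncomputable def e53_50 : List Rx := [
  Rx.mk (nat_lit 199) (nat_lit 7) (nat_lit 0) (nat_lit 3) (nat_lit 5) (nat_lit 34) (nat_lit 126) r4_34 r3_126 (nat_lit 0) (nat_lit 929445) (nat_lit 0) (nat_lit 0x7e1ef5642) (nat_lit 568442957),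
  Rx.mk (nat_lit 215) (nat_lit 7) (nat_lit 2) (nat_lit 3) (nat_lit 7) (nat_lit 35) (nat_lit 128) r4_35 r3_128 (nat_lit 0) (nat_lit 0) (nat_lit 0) (nat_lit 0x7fc8e9274) (nat_lit 540391512),
  Rx.mk (nat_lit 223) (nat_lit 7) (nat_lit 3) (nat_lit 3) (nat_lit 7) (nat_lit 39) (nat_lit 127) r4_39 r3_127 (nat_lit 0) (nat_lit 0) (nat_lit 0) (nat_lit 0x802f141c0) (nat_lit 535365262),
  Rx.mk (nat_lit 318) (nat_lit 6) (nat_lit 7) (nat_lit 4) (nat_lit 3) (nat_lit 31) (nat_lit 129) r4_31 r3_129 (nat_lit 0) (nat_lit 0) (nat_lit 24740) (nat_lit 0x7ff7bed42) (nat_lit 537418902),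
  Rx.mk (nat_lit 446) (nat_lit 6) (nat_lit 7) (nat_lit 6) (nat_lit 7) (nat_lit 32) (nat_lit 132) r4_32 r3_132 (nat_lit 0) (nat_lit 0) (nat_lit 0) (nat_lit 0x7990b12cc) (nat_lit 641633562),
  Rx.mk (nat_lit 476) (nat_lit 4) (nat_lit 3) (nat_lit 7) (nat_lit 6) (nat_lit 36) (nat_lit 124) r4_36 r3_124 (nat_lit 631050) (nat_lit 0) (nat_lit 0) (nat_lit 0x80795a612) (nat_lit 530585312),
  Rx.mk (nat_lit 478) (nat_lit 6) (nat_lit 3) (nat_lit 7) (nat_lit 7) (nat_lit 37) (nat_lit 131) r4_37 r3_131 (nat_lit 0) (nat_lit 0) (nat_lit 0) (nat_lit 0x80712030c) (nat_lit 531200012),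
  Rx.mk (nat_lit 479) (nat_lit 7) (nat_lit 3) (nat_lit 7) (nat_lit 7) (nat_lit 38) (nat_lit 125) r4_38 r3_125 (nat_lit 0) (nat_lit 0) (nat_lit 0) (nat_lit 0x806259120) (nat_lit 532277862),
  Rx.mk (nat_lit 510) (nat_lit 6) (nat_lit 7) (nat_lit 7) (nat_lit 7) (nat_lit 33) (nat_lit 130) r4_33 r3_130 (nat_lit 0) (nat_lit 0) (nat_lit 0) (nat_lit 0x8112e8e28) (nat_lit 521452962)]
noncomputable def e53_51 : List Rx := [
  Rx.mk (nat_lit 318) (nat_lit 6) (nat_lit 7) (nat_lit 4) (nat_lit 3) (nat_lit 131) (nat_lit 131) r4_131 r4_131 (nat_lit 0) (nat_lit 0) (nat_lit 240605632) (nat_lit 0x7ff1aa79e) (nat_lit 779445244),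
  Rx.mk (nat_lit 446) (nat_lit 6) (nat_lit 7) (nat_lit 6) (nat_lit 7) (nat_lit 132) (nat_lit 133) r4_132 r4_133 (nat_lit 0) (nat_lit 0) (nat_lit 0) (nat_lit 0x7fdb12f9a) (nat_lit 540544312),
  Rx.mk (nat_lit 510) (nat_lit 6) (nat_lit 7) (nat_lit 7) (nat_lit 7) (nat_lit 133) (nat_lit 132) r4_133 r4_132 (nat_lit 0) (nat_lit 0) (nat_lit 0) (nat_lit 0x7fdb12f9a) (nat_lit 540544312)]
noncomputable def e53_52 : List Rx := [
  Rx.mk (nat_lit 199) (nat_lit 7) (nat_lit 0) (nat_lit 3) (nat_lit 5) (nat_lit 198) (nat_lit 128) r4_198 r5_128 (nat_lit 0) (nat_lit 4758833) (nat_lit 0) (nat_lit 0x72642244c) (nat_lit 762218945),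
  Rx.mk (nat_lit 215) (nat_lit 7) (nat_lit 2) (nat_lit 3) (nat_lit 7) (nat_lit 199) (nat_lit 129) r4_199 r5_129 (nat_lit 0) (nat_lit 0) (nat_lit 0) (nat_lit 0x7eb750676) (nat_lit 558254112),
  Rx.mk (nat_lit 284) (nat_lit 4) (nat_lit 3) (nat_lit 4) (nat_lit 2) (nat_lit 200) (nat_lit 124) r4_200 r5_124 (nat_lit 19134) (nat_lit 0) (nat_lit 27807) (nat_lit 0x6beaf468e) (nat_lit 861670253),
  Rx.mk (nat_lit 286) (nat_lit 6) (nat_lit 3) (nat_lit 4) (nat_lit 3) (nat_lit 201) (nat_lit 131) r4_201 r5_131 (nat_lit 0) (nat_lit 0) (nat_lit 11917208) (nat_lit 0x7c8e48028) (nat_lit 605161420),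
  Rx.mk (nat_lit 318) (nat_lit 6) (nat_lit 7) (nat_lit 4) (nat_lit 3) (nat_lit 195) (nat_lit 130) r4_195 r5_130 (nat_lit 0) (nat_lit 0) (nat_lit 202248689) (nat_lit 0x7fd88729e) (nat_lit 741698201),
  Rx.mk (nat_lit 446) (nat_lit 6) (nat_lit 7) (nat_lit 6) (nat_lit 7) (nat_lit 196) (nat_lit 133) r4_196 r5_133 (nat_lit 0) (nat_lit 0) (nat_lit 0) (nat_lit 0x7f0ea3518) (nat_lit 553137312),
  Rx.mk (nat_lit 455) (nat_lit 7) (nat_lit 0) (nat_lit 7) (nat_lit 5) (nat_lit 197) (nat_lit 126) r4_197 r5_126 (nat_lit 0) (nat_lit 10127202) (nat_lit 0) (nat_lit 0x78e0d6154) (nat_lit 662850514),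
  Rx.mk (nat_lit 476) (nat_lit 4) (nat_lit 3) (nat_lit 7) (nat_lit 6) (nat_lit 202) (nat_lit 125) r4_202 r5_125 (nat_lit 4444174) (nat_lit 0) (nat_lit 0) (nat_lit 0x7f2401202) (nat_lit 556007186),
  Rx.mk (nat_lit 478) (nat_lit 6) (nat_lit 3) (nat_lit 7) (nat_lit 7) (nat_lit 203) (nat_lit 132) r4_203 r5_132 (nat_lit 0) (nat_lit 0) (nat_lit 0) (nat_lit 0x80931c514) (nat_lit 529274562),
  Rx.mk (nat_lit 479) (nat_lit 7) (nat_lit 3) (nat_lit 7) (nat_lit 7) (nat_lit 204) (nat_lit 127) r4_204 r5_127 (nat_lit 0) (nat_lit 0) (nat_lit 0) (nat_lit 0x8017985b4) (nat_lit 536870912)]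
noncomputable def e53_53 : List Rx := [
  Rx.mk (nat_lit 19) (nat_lit 3) (nat_lit 2) (nat_lit 0) (nat_lit 3) (nat_lit 50) (nat_lit 45) r4_50 r4_45 (nat_lit 0) (nat_lit 0) (nat_lit 46073) (nat_lit 0x7fd3d4b02) (nat_lit 539721735),
  Rx.mk (nat_lit 147) (nat_lit 3) (nat_lit 2) (nat_lit 2) (nat_lit 7) (nat_lit 51) (nat_lit 48) r4_51 r4_48 (nat_lit 0) (nat_lit 0) (nat_lit 0) (nat_lit 0x843b695d4) (nat_lit 473034362),
  Rx.mk (nat_lit 176) (nat_lit 0) (nat_lit 6) (nat_lit 2) (nat_lit 6) (nat_lit 42) (nat_lit 54) r4_42 r4_54 (nat_lit 21693) (nat_lit 0) (nat_lit 0) (nat_lit 0x7f520135a) (nat_lit 547891305),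
  Rx.mk (nat_lit 178) (nat_lit 2) (nat_lit 6) (nat_lit 2) (nat_lit 7) (nat_lit 43) (nat_lit 56) r4_43 r4_56 (nat_lit 0) (nat_lit 0) (nat_lit 0) (nat_lit 0x823ed6796) (nat_lit 503474812),
  Rx.mk (nat_lit 179) (nat_lit 3) (nat_lit 6) (nat_lit 2) (nat_lit 7) (nat_lit 44) (nat_lit 55) r4_44 r4_55 (nat_lit 0) (nat_lit 0) (nat_lit 0) (nat_lit 0x81a8d71a0) (nat_lit 512426612),
  Rx.mk (nat_lit 199) (nat_lit 7) (nat_lit 0) (nat_lit 3) (nat_lit 5) (nat_lit 49) (nat_lit 40) r4_49 r4_40 (nat_lit 0) (nat_lit 47488) (nat_lit 0) (nat_lit 0x7f4c14ed8) (nat_lit 548301250),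
  Rx.mk (nat_lit 211) (nat_lit 3) (nat_lit 2) (nat_lit 3) (nat_lit 7) (nat_lit 53) (nat_lit 46) r4_53 r4_46 (nat_lit 0) (nat_lit 0) (nat_lit 0) (nat_lit 0x7ecfb6c88) (nat_lit 556095412),
  Rx.mk (nat_lit 215) (nat_lit 7) (nat_lit 2) (nat_lit 3) (nat_lit 7) (nat_lit 52) (nat_lit 47) r4_52 r4_47 (nat_lit 0) (nat_lit 0) (nat_lit 0) (nat_lit 0x8245b8b4a) (nat_lit 503024812),
  Rx.mk (nat_lit 223) (nat_lit 7) (nat_lit 3) (nat_lit 3) (nat_lit 7) (nat_lit 57) (nat_lit 41) r4_57 r4_41 (nat_lit 0) (nat_lit 0) (nat_lit 0) (nat_lit 0x833e66080) (nat_lit 488151412),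
  Rx.mk (nat_lit 318) (nat_lit 6) (nat_lit 7) (nat_lit 4) (nat_lit 3) (nat_lit 45) (nat_lit 50) r4_45 r4_50 (nat_lit 0) (nat_lit 0) (nat_lit 46073) (nat_lit 0x7fd3d4b02) (nat_lit 539721735),
  Rx.mk (nat_lit 418) (nat_lit 2) (nat_lit 4) (nat_lit 6) (nat_lit 5) (nat_lit 40) (nat_lit 49) r4_40 r4_49 (nat_lit 0) (nat_lit 47488) (nat_lit 0) (nat_lit 0x7f4c14ed8) (nat_lit 548301250),
  Rx.mk (nat_lit 434) (nat_lit 2) (nat_lit 6) (nat_lit 6) (nat_lit 7) (nat_lit 41) (nat_lit 57) r4_41 r4_57 (nat_lit 0) (nat_lit 0) (nat_lit 0) (nat_lit 0x833e66080) (nat_lit 488151412),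
  Rx.mk (nat_lit 442) (nat_lit 2) (nat_lit 7) (nat_lit 6) (nat_lit 7) (nat_lit 47) (nat_lit 52) r4_47 r4_52 (nat_lit 0) (nat_lit 0) (nat_lit 0) (nat_lit 0x8245b8b4a) (nat_lit 503024812),
  Rx.mk (nat_lit 446) (nat_lit 6) (nat_lit 7) (nat_lit 6) (nat_lit 7) (nat_lit 46) (nat_lit 53) r4_46 r4_53 (nat_lit 0) (nat_lit 0) (nat_lit 0) (nat_lit 0x7ecfb6c88) (nat_lit 556095412),
  Rx.mk (nat_lit 476) (nat_lit 4) (nat_lit 3) (nat_lit 7) (nat_lit 6) (nat_lit 54) (nat_lit 42) r4_54 r4_42 (nat_lit 21693) (nat_lit 0) (nat_lit 0) (nat_lit 0x7f520135a) (nat_lit 547891305),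
  Rx.mk (nat_lit 478) (nat_lit 6) (nat_lit 3) (nat_lit 7) (nat_lit 7) (nat_lit 55) (nat_lit 44) r4_55 r4_44 (nat_lit 0) (nat_lit 0) (nat_lit 0) (nat_lit 0x81a8d71a0) (nat_lit 512426612),
  Rx.mk (nat_lit 479) (nat_lit 7) (nat_lit 3) (nat_lit 7) (nat_lit 7) (nat_lit 56) (nat_lit 43) r4_56 r4_43 (nat_lit 0) (nat_lit 0) (nat_lit 0) (nat_lit 0x823ed6796) (nat_lit 503474812),
  Rx.mk (nat_lit 510) (nat_lit 6) (nat_lit 7) (nat_lit 7) (nat_lit 7) (nat_lit 48) (nat_lit 51) r4_48 r4_51 (nat_lit 0) (nat_lit 0) (nat_lit 0) (nat_lit 0x843b695d4) (nat_lit 473034362)]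
noncomputable def e53_54 : List Rx := [
  Rx.mk (nat_lit 176) (nat_lit 0) (nat_lit 6) (nat_lit 2) (nat_lit 6) (nat_lit 136) (nat_lit 130) r4_136 r10_130 (nat_lit 12224820) (nat_lit 0) (nat_lit 0) (nat_lit 0x806946df2) (nat_lit 544040032),
  Rx.mk (nat_lit 178) (nat_lit 2) (nat_lit 6) (nat_lit 2) (nat_lit 7) (nat_lit 137) (nat_lit 135) r4_137 r10_135 (nat_lit 0) (nat_lit 0) (nat_lit 0) (nat_lit 0x8017985b4) (nat_lit 536870912),
  Rx.mk (nat_lit 179) (nat_lit 3) (nat_lit 6) (nat_lit 2) (nat_lit 7) (nat_lit 138) (nat_lit 131) r4_138 r10_131 (nat_lit 0) (nat_lit 0) (nat_lit 0) (nat_lit 0x804468c56) (nat_lit 534115312),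
  Rx.mk (nat_lit 318) (nat_lit 6) (nat_lit 7) (nat_lit 4) (nat_lit 3) (nat_lit 139) (nat_lit 127) r4_139 r10_127 (nat_lit 0) (nat_lit 0) (nat_lit 24676068) (nat_lit 0x7e8afe690) (nat_lit 586102830),
  Rx.mk (nat_lit 418) (nat_lit 2) (nat_lit 4) (nat_lit 6) (nat_lit 5) (nat_lit 134) (nat_lit 132) r4_134 r10_132 (nat_lit 0) (nat_lit 19244630) (nat_lit 0) (nat_lit 0x801080380) (nat_lit 556512792),
  Rx.mk (nat_lit 434) (nat_lit 2) (nat_lit 6) (nat_lit 6) (nat_lit 7) (nat_lit 135) (nat_lit 134) r4_135 r10_134 (nat_lit 0) (nat_lit 0) (nat_lit 0) (nat_lit 0x8017985b4) (nat_lit 536870912),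
  Rx.mk (nat_lit 442) (nat_lit 2) (nat_lit 7) (nat_lit 6) (nat_lit 7) (nat_lit 141) (nat_lit 133) r4_141 r10_133 (nat_lit 0) (nat_lit 0) (nat_lit 0) (nat_lit 0x8017985b4) (nat_lit 536870912),
  Rx.mk (nat_lit 446) (nat_lit 6) (nat_lit 7) (nat_lit 6) (nat_lit 7) (nat_lit 140) (nat_lit 129) r4_140 r10_129 (nat_lit 0) (nat_lit 0) (nat_lit 0) (nat_lit 0x809f243f2) (nat_lit 528567662),
  Rx.mk (nat_lit 510) (nat_lit 6) (nat_lit 7) (nat_lit 7) (nat_lit 7) (nat_lit 142) (nat_lit 128) r4_142 r10_128 (nat_lit 0) (nat_lit 0) (nat_lit 0) (nat_lit 0x8017985b4) (nat_lit 536870912)]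
noncomputable def e53_55 : List Rx := [
  Rx.mk (nat_lit 199) (nat_lit 7) (nat_lit 0) (nat_lit 3) (nat_lit 5) (nat_lit 209) (nat_lit 129) r4_209 r11_129 (nat_lit 0) (nat_lit 13063204) (nat_lit 0) (nat_lit 0x7f229ebd0) (nat_lit 564962416),
  Rx.mk (nat_lit 211) (nat_lit 3) (nat_lit 2) (nat_lit 3) (nat_lit 7) (nat_lit 211) (nat_lit 135) r4_211 r11_135 (nat_lit 0) (nat_lit 0) (nat_lit 0) (nat_lit 0x80f168d7a) (nat_lit 523350662),
  Rx.mk (nat_lit 215) (nat_lit 7) (nat_lit 2) (nat_lit 3) (nat_lit 7) (nat_lit 210) (nat_lit 130) r4_210 r11_130 (nat_lit 0) (nat_lit 0) (nat_lit 0) (nat_lit 0x81dd34f24) (nat_lit 509302462),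
  Rx.mk (nat_lit 284) (nat_lit 4) (nat_lit 3) (nat_lit 4) (nat_lit 2) (nat_lit 212) (nat_lit 125) r4_212 r11_125 (nat_lit 514055) (nat_lit 0) (nat_lit 616962) (nat_lit 0x69c2df4b6) (nat_lit 897748479),
  Rx.mk (nat_lit 286) (nat_lit 6) (nat_lit 3) (nat_lit 4) (nat_lit 3) (nat_lit 213) (nat_lit 132) r4_213 r11_132 (nat_lit 0) (nat_lit 0) (nat_lit 13764592) (nat_lit 0x8088c91ca) (nat_lit 543663854),
  Rx.mk (nat_lit 318) (nat_lit 6) (nat_lit 7) (nat_lit 4) (nat_lit 3) (nat_lit 205) (nat_lit 131) r4_205 r11_131 (nat_lit 0) (nat_lit 0) (nat_lit 31334360) (nat_lit 0x7f54de2a8) (nat_lit 580083322),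
  Rx.mk (nat_lit 442) (nat_lit 2) (nat_lit 7) (nat_lit 6) (nat_lit 7) (nat_lit 207) (nat_lit 136) r4_207 r11_136 (nat_lit 0) (nat_lit 0) (nat_lit 0) (nat_lit 0x825f8dcd2) (nat_lit 501520162),
  Rx.mk (nat_lit 446) (nat_lit 6) (nat_lit 7) (nat_lit 6) (nat_lit 7) (nat_lit 206) (nat_lit 134) r4_206 r11_134 (nat_lit 0) (nat_lit 0) (nat_lit 0) (nat_lit 0x81e84d53c) (nat_lit 508548712),
  Rx.mk (nat_lit 455) (nat_lit 7) (nat_lit 0) (nat_lit 7) (nat_lit 5) (nat_lit 208) (nat_lit 127) r4_208 r11_127 (nat_lit 0) (nat_lit 12952000) (nat_lit 0) (nat_lit 0x80562ac28) (nat_lit 545915612),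
  Rx.mk (nat_lit 476) (nat_lit 4) (nat_lit 3) (nat_lit 7) (nat_lit 6) (nat_lit 214) (nat_lit 126) r4_214 r11_126 (nat_lit 10106242) (nat_lit 0) (nat_lit 0) (nat_lit 0x8153a01f0) (nat_lit 527714454),
  Rx.mk (nat_lit 478) (nat_lit 6) (nat_lit 3) (nat_lit 7) (nat_lit 7) (nat_lit 215) (nat_lit 133) r4_215 r11_133 (nat_lit 0) (nat_lit 0) (nat_lit 0) (nat_lit 0x807403de4) (nat_lit 531198062),
  Rx.mk (nat_lit 479) (nat_lit 7) (nat_lit 3) (nat_lit 7) (nat_lit 7) (nat_lit 216) (nat_lit 128) r4_216 r11_128 (nat_lit 0) (nat_lit 0) (nat_lit 0) (nat_lit 0x80812fcde) (nat_lit 530394062)]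
noncomputable def e53_56 : List Rx := [
  Rx.mk (nat_lit 199) (nat_lit 7) (nat_lit 0) (nat_lit 3) (nat_lit 5) (nat_lit 59) (nat_lit 27) r4_59 r5_27 (nat_lit 0) (nat_lit 6174630) (nat_lit 0) (nat_lit 0x7de1761fe) (nat_lit 578007592),
  Rx.mk (nat_lit 215) (nat_lit 7) (nat_lit 2) (nat_lit 3) (nat_lit 7) (nat_lit 60) (nat_lit 32) r4_60 r5_32 (nat_lit 0) (nat_lit 0) (nat_lit 0) (nat_lit 0x80483a47e) (nat_lit 532926012),
  Rx.mk (nat_lit 220) (nat_lit 4) (nat_lit 3) (nat_lit 3) (nat_lit 6) (nat_lit 63) (nat_lit 28) r4_63 r5_28 (nat_lit 8135991) (nat_lit 0) (nat_lit 0) (nat_lit 0x79057fe38) (nat_lit 658530703),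
  Rx.mk (nat_lit 223) (nat_lit 7) (nat_lit 3) (nat_lit 3) (nat_lit 7) (nat_lit 64) (nat_lit 29) r4_64 r5_29 (nat_lit 0) (nat_lit 0) (nat_lit 0) (nat_lit 0x80009fe20) (nat_lit 538237112),
  Rx.mk (nat_lit 476) (nat_lit 4) (nat_lit 3) (nat_lit 7) (nat_lit 6) (nat_lit 61) (nat_lit 30) r4_61 r5_30 (nat_lit 2696286) (nat_lit 0) (nat_lit 0) (nat_lit 0x7ed2b6d5c) (nat_lit 559201548),
  Rx.mk (nat_lit 478) (nat_lit 6) (nat_lit 3) (nat_lit 7) (nat_lit 7) (nat_lit 62) (nat_lit 31) r4_62 r5_31 (nat_lit 0) (nat_lit 0) (nat_lit 0) (nat_lit 0x80e735e2a) (nat_lit 524112462),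
  Rx.mk (nat_lit 510) (nat_lit 6) (nat_lit 7) (nat_lit 7) (nat_lit 7) (nat_lit 58) (nat_lit 33) r4_58 r5_33 (nat_lit 0) (nat_lit 0) (nat_lit 0) (nat_lit 0x7f5b0655e) (nat_lit 548352312)]
noncomputable def e53_57 : List Rx := [
  Rx.mk (nat_lit 510) (nat_lit 6) (nat_lit 7) (nat_lit 7) (nat_lit 7) (nat_lit 143) (nat_lit 8) r4_143 r11_8 (nat_lit 0) (nat_lit 0) (nat_lit 0) (nat_lit 0x7ff232496) (nat_lit 539166062)]
noncomputable def e53 : List (List Rx) := [e53_0, e53_1, e53_2, e53_3, e53_4, e53_5, e53_6, e53_7, e53_8, e53_9, e53_10, e53_11, e53_12, e53_13, e53_14, e53_15, e53_16, e53_17, e53_18, e53_19, e53_20, e53_21, e53_22, e53_23, e53_24, e53_25, e53_26, e53_27, e53_28, e53_29, e53_30, e53_31, e53_32, e53_33, e53_34, e53_35, e53_36, e53_37, e53_38, e53_39, e53_40, e53_41, e53_42, e53_43, e53_44, e53_45, e53_46, e53_47, e53_48, e53_49, e53_50, e53_51, e53_52,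 e53_53, e53_54, e53_55, e53_56, e53_57]
noncomputable def e54_0 : List Rx := [
  Rx.mk (nat_lit 5) (nat_lit 5) (nat_lit 0) (nat_lit 0) (nat_lit 1) (nat_lit 273) (nat_lit 322) r10_273 r0_322 (nat_lit 0) (nat_lit 17034488) (nat_lit 14038217) (nat_lit 0x6f6e3009a) (nat_lit 836450667),
  Rx.mk (nat_lit 13) (nat_lit 5) (nat_lit 1) (nat_lit 0) (nat_lit 3) (nat_lit 274) (nat_lit 324) r10_274 r0_324 (nat_lit 0) (nat_lit 0) (nat_lit 24924827) (nat_lit 0x7fc09e13c) (nat_lit 567146289),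
  Rx.mk (nat_lit 21) (nat_lit 5) (nat_lit 2) (nat_lit 0) (nat_lit 3) (nat_lit 275) (nat_lit 326) r10_275 r0_326 (nat_lit 0) (nat_lit 0) (nat_lit 25781778) (nat_lit 0x7e4c3ec0c) (nat_lit 591158440),
  Rx.mk (nat_lit 69) (nat_lit 5) (nat_lit 0) (nat_lit 1) (nat_lit 5) (nat_lit 276) (nat_lit 323) r10_276 r0_323 (nat_lit 0) (nat_lit 24741287) (nat_lit 0) (nat_lit 0x8017985b4) (nat_lit 561612199),
  Rx.mk (nat_lit 77) (nat_lit 5) (nat_lit 1) (nat_lit 1) (nat_lit 7) (nat_lit 277) (nat_lit 325) r10_277 r0_325 (nat_lit 0) (nat_lit 0) (nat_lit 0) (nat_lit 0x8017985b4) (nat_lit 536870912),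
  Rx.mk (nat_lit 85) (nat_lit 5) (nat_lit 2) (nat_lit 1) (nat_lit 7) (nat_lit 278) (nat_lit 327) r10_278 r0_327 (nat_lit 0) (nat_lit 0) (nat_lit 0) (nat_lit 0x7ffa5b708) (nat_lit 538653612)]
noncomputable def e54_1 : List Rx := [
  Rx.mk (nat_lit 69) (nat_lit 5) (nat_lit 0) (nat_lit 1) (nat_lit 5) (nat_lit 320) (nat_lit 307) r10_320 r1_307 (nat_lit 0) (nat_lit 24741287) (nat_lit 0) (nat_lit 0x8017985b4) (nat_lit 561612199),
  Rx.mk (nat_lit 77) (nat_lit 5) (nat_lit 1) (nat_lit 1) (nat_lit 7) (nat_lit 321) (nat_lit 308) r10_321 r1_308 (nat_lit 0) (nat_lit 0) (nat_lit 0) (nat_lit 0x8017985b4) (nat_lit 536870912),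
  Rx.mk (nat_lit 85) (nat_lit 5) (nat_lit 2) (nat_lit 1) (nat_lit 7) (nat_lit 322) (nat_lit 309) r10_322 r1_309 (nat_lit 0) (nat_lit 0) (nat_lit 0) (nat_lit 0x8017985b4) (nat_lit 536870912)]
noncomputable def e54_2 : List Rx := [
  Rx.mk (nat_lit 77) (nat_lit 5) (nat_lit 1) (nat_lit 1) (nat_lit 7) (nat_lit 323) (nat_lit 354) r10_323 r2_354 (nat_lit 0) (nat_lit 0) (nat_lit 0) (nat_lit 0x8017985b4) (nat_lit 536870912),
  Rx.mk (nat_lit 333) (nat_lit 5) (nat_lit 1) (nat_lit 5) (nat_lit 7) (nat_lit 324) (nat_lit 355) r10_324 r2_355 (nat_lit 0) (nat_lit 0) (nat_lit 0) (nat_lit 0x8017985b4) (nat_lit 536870912)]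
noncomputable def e54_3 : List Rx := [
  Rx.mk (nat_lit 5) (nat_lit 5) (nat_lit 0) (nat_lit 0) (nat_lit 1) (nat_lit 333) (nat_lit 325) r10_333 r3_325 (nat_lit 0) (nat_lit 197362) (nat_lit 167695) (nat_lit 0x640a65476) (nat_lit 989404669),
  Rx.mk (nat_lit 13) (nat_lit 5) (nat_lit 1) (nat_lit 0) (nat_lit 3) (nat_lit 334) (nat_lit 327) r10_334 r3_327 (nat_lit 0) (nat_lit 0) (nat_lit 24741287) (nat_lit 0x8017985b4) (nat_lit 561612199),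
  Rx.mk (nat_lit 21) (nat_lit 5) (nat_lit 2) (nat_lit 0) (nat_lit 3) (nat_lit 335) (nat_lit 329) r10_335 r3_329 (nat_lit 0) (nat_lit 0) (nat_lit 50053958) (nat_lit 0x7eff903aa) (nat_lit 604233320),
  Rx.mk (nat_lit 197) (nat_lit 5) (nat_lit 0) (nat_lit 3) (nat_lit 5) (nat_lit 336) (nat_lit 326) r10_336 r3_326 (nat_lit 0) (nat_lit 1486174) (nat_lit 0) (nat_lit 0x82dc4fb94) (nat_lit 495172786),
  Rx.mk (nat_lit 205) (nat_lit 5) (nat_lit 1) (nat_lit 3) (nat_lit 7) (nat_lit 337) (nat_lit 328) r10_337 r3_328 (nat_lit 0) (nat_lit 0) (nat_lit 0) (nat_lit 0x8428b5dde) (nat_lit 474166012),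
  Rx.mk (nat_lit 213) (nat_lit 5) (nat_lit 2) (nat_lit 3) (nat_lit 7) (nat_lit 338) (nat_lit 330) r10_338 r3_330 (nat_lit 0) (nat_lit 0) (nat_lit 0) (nat_lit 0x8428a6758) (nat_lit 474169612)]
noncomputable def e54_4 : List Rx := [
  Rx.mk (nat_lit 5) (nat_lit 5) (nat_lit 0) (nat_lit 0) (nat_lit 1) (nat_lit 339) (nat_lit 355) r10_339 r4_355 (nat_lit 0) (nat_lit 35822015) (nat_lit 46258346) (nat_lit 0x73116d7f0) (nat_lit 828766423),
  Rx.mk (nat_lit 13) (nat_lit 5) (nat_lit 1) (nat_lit 0) (nat_lit 3) (nat_lit 340) (nat_lit 358) r10_340 r4_358 (nat_lit 0) (nat_lit 0) (nat_lit 24741287) (nat_lit 0x8017985b4) (nat_lit 561612199),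
  Rx.mk (nat_lit 21) (nat_lit 5) (nat_lit 2) (nat_lit 0) (nat_lit 3) (nat_lit 341) (nat_lit 361) r10_341 r4_361 (nat_lit 0) (nat_lit 0) (nat_lit 28199854) (nat_lit 0x800201570) (nat_lit 566376116),
  Rx.mk (nat_lit 69) (nat_lit 5) (nat_lit 0) (nat_lit 1) (nat_lit 5) (nat_lit 342) (nat_lit 356) r10_342 r4_356 (nat_lit 0) (nat_lit 24741287) (nat_lit 0) (nat_lit 0x801405032) (nat_lit 561834699),
  Rx.mk (nat_lit 77) (nat_lit 5) (nat_lit 1) (nat_lit 1) (nat_lit 7) (nat_lit 343) (nat_lit 359) r10_343 r4_359 (nat_lit 0) (nat_lit 0) (nat_lit 0) (nat_lit 0x8017985b4) (nat_lit 536870912),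
  Rx.mk (nat_lit 85) (nat_lit 5) (nat_lit 2) (nat_lit 1) (nat_lit 7) (nat_lit 344) (nat_lit 362) r10_344 r4_362 (nat_lit 0) (nat_lit 0) (nat_lit 0) (nat_lit 0x8017985b4) (nat_lit 536870912),
  Rx.mk (nat_lit 197) (nat_lit 5) (nat_lit 0) (nat_lit 3) (nat_lit 5) (nat_lit 345) (nat_lit 357) r10_345 r4_357 (nat_lit 0) (nat_lit 25246541) (nat_lit 0) (nat_lit 0x7fe66bc2a) (nat_lit 565123853),
  Rx.mk (nat_lit 205) (nat_lit 5) (nat_lit 1) (nat_lit 3) (nat_lit 7) (nat_lit 346) (nat_lit 360) r10_346 r4_360 (nat_lit 0) (nat_lit 0) (nat_lit 0) (nat_lit 0x8017985b4) (nat_lit 536870912)]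
noncomputable def e54_5 : List Rx := [
  Rx.mk (nat_lit 197) (nat_lit 5) (nat_lit 0) (nat_lit 3) (nat_lit 5) (nat_lit 347) (nat_lit 307) r10_347 r5_307 (nat_lit 0) (nat_lit 11477207) (nat_lit 0) (nat_lit 0x7fc2367ba) (nat_lit 553442619),
  Rx.mk (nat_lit 205) (nat_lit 5) (nat_lit 1) (nat_lit 3) (nat_lit 7) (nat_lit 348) (nat_lit 308) r10_348 r5_308 (nat_lit 0) (nat_lit 0) (nat_lit 0) (nat_lit 0x80b9b4848) (nat_lit 526949812),
  Rx.mk (nat_lit 213) (nat_lit 5) (nat_lit 2) (nat_lit 3) (nat_lit 7) (nat_lit 349) (nat_lit 309) r10_349 r5_309 (nat_lit 0) (nat_lit 0) (nat_lit 0) (nat_lit 0x80b9b154e) (nat_lit 526950562)]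
noncomputable def e54_6 : List Rx := [
  Rx.mk (nat_lit 268) (nat_lit 4) (nat_lit 1) (nat_lit 4) (nat_lit 2) (nat_lit 38) (nat_lit 325) r10_38 r3_325 (nat_lit 197362) (nat_lit 0) (nat_lit 167695) (nat_lit 0x640a65476) (nat_lit 989404669),
  Rx.mk (nat_lit 269) (nat_lit 5) (nat_lit 1) (nat_lit 4) (nat_lit 3) (nat_lit 40) (nat_lit 327) r10_40 r3_327 (nat_lit 0) (nat_lit 0) (nat_lit 24741287) (nat_lit 0x8017985b4) (nat_lit 561612199),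
  Rx.mk (nat_lit 270) (nat_lit 6) (nat_lit 1) (nat_lit 4) (nat_lit 3) (nat_lit 42) (nat_lit 329) r10_42 r3_329 (nat_lit 0) (nat_lit 0) (nat_lit 50053958) (nat_lit 0x7eff903aa) (nat_lit 604233320),
  Rx.mk (nat_lit 460) (nat_lit 4) (nat_lit 1) (nat_lit 7) (nat_lit 6) (nat_lit 39) (nat_lit 326) r10_39 r3_326 (nat_lit 1486174) (nat_lit 0) (nat_lit 0) (nat_lit 0x82dc4fb94) (nat_lit 495172786),
  Rx.mk (nat_lit 461) (nat_lit 5) (nat_lit 1) (nat_lit 7) (nat_lit 7) (nat_lit 41) (nat_lit 328) r10_41 r3_328 (nat_lit 0) (nat_lit 0) (nat_lit 0) (nat_lit 0x8428b5dde) (nat_lit 474166012),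
  Rx.mk (nat_lit 462) (nat_lit 6) (nat_lit 1) (nat_lit 7) (nat_lit 7) (nat_lit 43) (nat_lit 330) r10_43 r3_330 (nat_lit 0) (nat_lit 0) (nat_lit 0) (nat_lit 0x8428a6758) (nat_lit 474169612)]
noncomputable def e54_7 : List Rx := [
  Rx.mk (nat_lit 268) (nat_lit 4) (nat_lit 1) (nat_lit 4) (nat_lit 2) (nat_lit 166) (nat_lit 322) r10_166 r0_322 (nat_lit 17034488) (nat_lit 0) (nat_lit 14038217) (nat_lit 0x6f6e3009a) (nat_lit 836450667),
  Rx.mk (nat_lit 269) (nat_lit 5) (nat_lit 1) (nat_lit 4) (nat_lit 3) (nat_lit 168) (nat_lit 324) r10_168 r0_324 (nat_lit 0) (nat_lit 0) (nat_lit 24924827) (nat_lit 0x7fc09e13c) (nat_lit 567146289),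
  Rx.mk (nat_lit 270) (nat_lit 6) (nat_lit 1) (nat_lit 4) (nat_lit 3) (nat_lit 170) (nat_lit 326) r10_170 r0_326 (nat_lit 0) (nat_lit 0) (nat_lit 25781778) (nat_lit 0x7e4c3ec0c) (nat_lit 591158440),
  Rx.mk (nat_lit 332) (nat_lit 4) (nat_lit 1) (nat_lit 5) (nat_lit 6) (nat_lit 167) (nat_lit 323) r10_167 r0_323 (nat_lit 24741287) (nat_lit 0) (nat_lit 0) (nat_lit 0x8017985b4) (nat_lit 561612199),
  Rx.mk (nat_lit 333) (nat_lit 5) (nat_lit 1) (nat_lit 5) (nat_lit 7) (nat_lit 169) (nat_lit 325) r10_169 r0_325 (nat_lit 0) (nat_lit 0) (nat_lit 0) (nat_lit 0x8017985b4) (nat_lit 536870912),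
  Rx.mk (nat_lit 334) (nat_lit 6) (nat_lit 1) (nat_lit 5) (nat_lit 7) (nat_lit 171) (nat_lit 327) r10_171 r0_327 (nat_lit 0) (nat_lit 0) (nat_lit 0) (nat_lit 0x7ffa5b708) (nat_lit 538653612)]
noncomputable def e54_8 : List Rx := [
  Rx.mk (nat_lit 332) (nat_lit 4) (nat_lit 1) (nat_lit 5) (nat_lit 6) (nat_lit 172) (nat_lit 307) r10_172 r1_307 (nat_lit 24741287) (nat_lit 0) (nat_lit 0) (nat_lit 0x8017985b4) (nat_lit 561612199),
  Rx.mk (nat_lit 333) (nat_lit 5) (nat_lit 1) (nat_lit 5) (nat_lit 7) (nat_lit 173) (nat_lit 308) r10_173 r1_308 (nat_lit 0) (nat_lit 0) (nat_lit 0) (nat_lit 0x8017985b4) (nat_lit 536870912),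
  Rx.mk (nat_lit 334) (nat_lit 6) (nat_lit 1) (nat_lit 5) (nat_lit 7) (nat_lit 174) (nat_lit 309) r10_174 r1_309 (nat_lit 0) (nat_lit 0) (nat_lit 0) (nat_lit 0x8017985b4) (nat_lit 536870912)]
noncomputable def e54_9 : List Rx := [
  Rx.mk (nat_lit 268) (nat_lit 4) (nat_lit 1) (nat_lit 4) (nat_lit 2) (nat_lit 175) (nat_lit 355) r10_175 r4_355 (nat_lit 35822015) (nat_lit 0) (nat_lit 46258346) (nat_lit 0x73116d7f0) (nat_lit 828766423),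
  Rx.mk (nat_lit 269) (nat_lit 5) (nat_lit 1) (nat_lit 4) (nat_lit 3) (nat_lit 178) (nat_lit 358) r10_178 r4_358 (nat_lit 0) (nat_lit 0) (nat_lit 24741287) (nat_lit 0x8017985b4) (nat_lit 561612199),
  Rx.mk (nat_lit 270) (nat_lit 6) (nat_lit 1) (nat_lit 4) (nat_lit 3) (nat_lit 181) (nat_lit 361) r10_181 r4_361 (nat_lit 0) (nat_lit 0) (nat_lit 28199854) (nat_lit 0x800201570) (nat_lit 566376116),
  Rx.mk (nat_lit 332) (nat_lit 4) (nat_lit 1) (nat_lit 5) (nat_lit 6) (nat_lit 176) (nat_lit 356) r10_176 r4_356 (nat_lit 24741287) (nat_lit 0) (nat_lit 0) (nat_lit 0x801405032) (nat_lit 561834699),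
  Rx.mk (nat_lit 333) (nat_lit 5) (nat_lit 1) (nat_lit 5) (nat_lit 7) (nat_lit 179) (nat_lit 359) r10_179 r4_359 (nat_lit 0) (nat_lit 0) (nat_lit 0) (nat_lit 0x8017985b4) (nat_lit 536870912),
  Rx.mk (nat_lit 334) (nat_lit 6) (nat_lit 1) (nat_lit 5) (nat_lit 7) (nat_lit 182) (nat_lit 362) r10_182 r4_362 (nat_lit 0) (nat_lit 0) (nat_lit 0) (nat_lit 0x8017985b4) (nat_lit 536870912),
  Rx.mk (nat_lit 460) (nat_lit 4) (nat_lit 1) (nat_lit 7) (nat_lit 6) (nat_lit 177) (nat_lit 357) r10_177 r4_357 (nat_lit 25246541) (nat_lit 0) (nat_lit 0) (nat_lit 0x7fe66bc2a) (nat_lit 565123853),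
  Rx.mk (nat_lit 461) (nat_lit 5) (nat_lit 1) (nat_lit 7) (nat_lit 7) (nat_lit 180) (nat_lit 360) r10_180 r4_360 (nat_lit 0) (nat_lit 0) (nat_lit 0) (nat_lit 0x8017985b4) (nat_lit 536870912)]
noncomputable def e54_10 : List Rx := [
  Rx.mk (nat_lit 196) (nat_lit 4) (nat_lit 0) (nat_lit 3) (nat_lit 4) (nat_lit 225) (nat_lit 344) r10_225 r6_344 (nat_lit 2476245) (nat_lit 2379676) (nat_lit 0) (nat_lit 0x72757b8ec) (nat_lit 761113833),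
  Rx.mk (nat_lit 197) (nat_lit 5) (nat_lit 0) (nat_lit 3) (nat_lit 5) (nat_lit 230) (nat_lit 349) r10_230 r6_349 (nat_lit 0) (nat_lit 14712556) (nat_lit 0) (nat_lit 0x80ba6dfaa) (nat_lit 541613868),
  Rx.mk (nat_lit 204) (nat_lit 4) (nat_lit 1) (nat_lit 3) (nat_lit 6) (nat_lit 226) (nat_lit 346) r10_226 r6_346 (nat_lit 11707184) (nat_lit 0) (nat_lit 0) (nat_lit 0x8125d3a2e) (nat_lit 532088296),
  Rx.mk (nat_lit 205) (nat_lit 5) (nat_lit 1) (nat_lit 3) (nat_lit 7) (nat_lit 231) (nat_lit 351) r10_231 r6_351 (nat_lit 0) (nat_lit 0) (nat_lit 0) (nat_lit 0x8017985b4) (nat_lit 536870912),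
  Rx.mk (nat_lit 212) (nat_lit 4) (nat_lit 2) (nat_lit 3) (nat_lit 6) (nat_lit 227) (nat_lit 348) r10_227 r6_348 (nat_lit 11706733) (nat_lit 0) (nat_lit 0) (nat_lit 0x8125d7dc2) (nat_lit 532086845),
  Rx.mk (nat_lit 213) (nat_lit 5) (nat_lit 2) (nat_lit 3) (nat_lit 7) (nat_lit 232) (nat_lit 353) r10_232 r6_353 (nat_lit 0) (nat_lit 0) (nat_lit 0) (nat_lit 0x8017985b4) (nat_lit 536870912),
  Rx.mk (nat_lit 452) (nat_lit 4) (nat_lit 0) (nat_lit 7) (nat_lit 4) (nat_lit 228) (nat_lit 345) r10_228 r6_345 (nat_lit 2379676) (nat_lit 2476245) (nat_lit 0) (nat_lit 0x72757b8ec) (nat_lit 761113833),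
  Rx.mk (nat_lit 453) (nat_lit 5) (nat_lit 0) (nat_lit 7) (nat_lit 5) (nat_lit 233) (nat_lit 350) r10_233 r6_350 (nat_lit 0) (nat_lit 11707184) (nat_lit 0) (nat_lit 0x8125d3a2e) (nat_lit 532088296),
  Rx.mk (nat_lit 454) (nat_lit 6) (nat_lit 0) (nat_lit 7) (nat_lit 5) (nat_lit 235) (nat_lit 354) r10_235 r6_354 (nat_lit 0) (nat_lit 11706733) (nat_lit 0) (nat_lit 0x8125d7dc2) (nat_lit 532086845),
  Rx.mk (nat_lit 460) (nat_lit 4) (nat_lit 1) (nat_lit 7) (nat_lit 6) (nat_lit 229) (nat_lit 347) r10_229 r6_347 (nat_lit 14712556) (nat_lit 0) (nat_lit 0) (nat_lit 0x80ba6dfaa) (nat_lit 541613868),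
  Rx.mk (nat_lit 461) (nat_lit 5) (nat_lit 1) (nat_lit 7) (nat_lit 7) (nat_lit 234) (nat_lit 352) r10_234 r6_352 (nat_lit 0) (nat_lit 0) (nat_lit 0) (nat_lit 0x8017985b4) (nat_lit 536870912),
  Rx.mk (nat_lit 462) (nat_lit 6) (nat_lit 1) (nat_lit 7) (nat_lit 7) (nat_lit 236) (nat_lit 355) r10_236 r6_355 (nat_lit 0) (nat_lit 0) (nat_lit 0) (nat_lit 0x8017985b4) (nat_lit 536870912)]
noncomputable def e54_11 : List Rx := [
  Rx.mk (nat_lit 460) (nat_lit 4) (nat_lit 1) (nat_lit 7) (nat_lit 6) (nat_lit 237) (nat_lit 307) r10_237 r5_307 (nat_lit 11477207) (nat_lit 0) (nat_lit 0) (nat_lit 0x7fc2367ba) (nat_lit 553442619),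
  Rx.mk (nat_lit 461) (nat_lit 5) (nat_lit 1) (nat_lit 7) (nat_lit 7) (nat_lit 238) (nat_lit 308) r10_238 r5_308 (nat_lit 0) (nat_lit 0) (nat_lit 0) (nat_lit 0x80b9b4848) (nat_lit 526949812),
  Rx.mk (nat_lit 462) (nat_lit 6) (nat_lit 1) (nat_lit 7) (nat_lit 7) (nat_lit 239) (nat_lit 309) r10_239 r5_309 (nat_lit 0) (nat_lit 0) (nat_lit 0) (nat_lit 0x80b9b154e) (nat_lit 526950562)]
noncomputable def e54_12 : List Rx := [
  Rx.mk (nat_lit 5) (nat_lit 5) (nat_lit 0) (nat_lit 0) (nat_lit 1) (nat_lit 281) (nat_lit 195) r10_281 r0_195 (nat_lit 0) (nat_lit 2412373) (nat_lit 4364993) (nat_lit 0x599f905a6) (nat_lit 1164616828),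
  Rx.mk (nat_lit 13) (nat_lit 5) (nat_lit 1) (nat_lit 0) (nat_lit 3) (nat_lit 282) (nat_lit 196) r10_282 r0_196 (nat_lit 0) (nat_lit 0) (nat_lit 12102424) (nat_lit 0x79db10b88) (nat_lit 649035436),
  Rx.mk (nat_lit 17) (nat_lit 1) (nat_lit 2) (nat_lit 0) (nat_lit 3) (nat_lit 279) (nat_lit 198) r10_279 r0_198 (nat_lit 0) (nat_lit 0) (nat_lit 45895857) (nat_lit 0x7fb6ad812) (nat_lit 588199269),
  Rx.mk (nat_lit 21) (nat_lit 5) (nat_lit 2) (nat_lit 0) (nat_lit 3) (nat_lit 283) (nat_lit 197) r10_283 r0_197 (nat_lit 0) (nat_lit 0) (nat_lit 70189493) (nat_lit 0x7d33fb286) (nat_lit 652998905),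
  Rx.mk (nat_lit 209) (nat_lit 1) (nat_lit 2) (nat_lit 3) (nat_lit 7) (nat_lit 280) (nat_lit 199) r10_280 r0_199 (nat_lit 0) (nat_lit 0) (nat_lit 0) (nat_lit 0x809c1612e) (nat_lit 528750462)]
noncomputable def e54_13 : List Rx := [
  Rx.mk (nat_lit 5) (nat_lit 5) (nat_lit 0) (nat_lit 0) (nat_lit 1) (nat_lit 286) (nat_lit 433) r10_286 r7_433 (nat_lit 0) (nat_lit 23931749) (nat_lit 28712906) (nat_lit 0x6a7e66ee6) (nat_lit 937964567),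
  Rx.mk (nat_lit 13) (nat_lit 5) (nat_lit 1) (nat_lit 0) (nat_lit 3) (nat_lit 287) (nat_lit 435) r10_287 r7_435 (nat_lit 0) (nat_lit 0) (nat_lit 24741287) (nat_lit 0x8017985b4) (nat_lit 561612199),
  Rx.mk (nat_lit 17) (nat_lit 1) (nat_lit 2) (nat_lit 0) (nat_lit 3) (nat_lit 284) (nat_lit 431) r10_284 r7_431 (nat_lit 0) (nat_lit 0) (nat_lit 25393500) (nat_lit 0x7ffadf27e) (nat_lit 564019262),
  Rx.mk (nat_lit 21) (nat_lit 5) (nat_lit 2) (nat_lit 0) (nat_lit 3) (nat_lit 288) (nat_lit 437) r10_288 r7_437 (nat_lit 0) (nat_lit 0) (nat_lit 25691165) (nat_lit 0x800112efc) (nat_lit 563939677),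
  Rx.mk (nat_lit 69) (nat_lit 5) (nat_lit 0) (nat_lit 1) (nat_lit 5) (nat_lit 289) (nat_lit 434) r10_289 r7_434 (nat_lit 0) (nat_lit 26205094) (nat_lit 0) (nat_lit 0x7ff5adb5c) (nat_lit 565151456),
  Rx.mk (nat_lit 77) (nat_lit 5) (nat_lit 1) (nat_lit 1) (nat_lit 7) (nat_lit 290) (nat_lit 436) r10_290 r7_436 (nat_lit 0) (nat_lit 0) (nat_lit 0) (nat_lit 0x8017985b4) (nat_lit 536870912),
  Rx.mk (nat_lit 81) (nat_lit 1) (nat_lit 2) (nat_lit 1) (nat_lit 7) (nat_lit 285) (nat_lit 432) r10_285 r7_432 (nat_lit 0) (nat_lit 0) (nat_lit 0) (nat_lit 0x8017985b4) (nat_lit 536870912),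
  Rx.mk (nat_lit 85) (nat_lit 5) (nat_lit 2) (nat_lit 1) (nat_lit 7) (nat_lit 291) (nat_lit 438) r10_291 r7_438 (nat_lit 0) (nat_lit 0) (nat_lit 0) (nat_lit 0x8017985b4) (nat_lit 536870912)]
noncomputable def e54_14 : List Rx := [
  Rx.mk (nat_lit 17) (nat_lit 1) (nat_lit 2) (nat_lit 0) (nat_lit 3) (nat_lit 314) (nat_lit 217) r10_314 r1_217 (nat_lit 0) (nat_lit 0) (nat_lit 25153554) (nat_lit 0x80e8b8eaa) (nat_lit 549278466),
  Rx.mk (nat_lit 145) (nat_lit 1) (nat_lit 2) (nat_lit 2) (nat_lit 7) (nat_lit 315) (nat_lit 219) r10_315 r1_219 (nat_lit 0) (nat_lit 0) (nat_lit 0) (nat_lit 0x81b14ef04) (nat_lit 511970262),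
  Rx.mk (nat_lit 209) (nat_lit 1) (nat_lit 2) (nat_lit 3) (nat_lit 7) (nat_lit 316) (nat_lit 218) r10_316 r1_218 (nat_lit 0) (nat_lit 0) (nat_lit 0) (nat_lit 0x8017985b4) (nat_lit 536870912)]
noncomputable def e54_15 : List Rx := [
  Rx.mk (nat_lit 17) (nat_lit 1) (nat_lit 2) (nat_lit 0) (nat_lit 3) (nat_lit 317) (nat_lit 355) r10_317 r8_355 (nat_lit 0) (nat_lit 0) (nat_lit 24634759) (nat_lit 0x800b33de6) (nat_lit 562264771),
  Rx.mk (nat_lit 81) (nat_lit 1) (nat_lit 2) (nat_lit 1) (nat_lit 7) (nat_lit 318) (nat_lit 356) r10_318 r8_356 (nat_lit 0) (nat_lit 0) (nat_lit 0) (nat_lit 0x8017985b4) (nat_lit 536870912),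
  Rx.mk (nat_lit 145) (nat_lit 1) (nat_lit 2) (nat_lit 2) (nat_lit 7) (nat_lit 319) (nat_lit 357) r10_319 r8_357 (nat_lit 0) (nat_lit 0) (nat_lit 0) (nat_lit 0x8017985b4) (nat_lit 536870912)]
noncomputable def e54_16 : List Rx := [
  Rx.mk (nat_lit 69) (nat_lit 5) (nat_lit 0) (nat_lit 1) (nat_lit 5) (nat_lit 326) (nat_lit 194) r10_326 r8_194 (nat_lit 0) (nat_lit 24741287) (nat_lit 0) (nat_lit 0x8017985b4) (nat_lit 561612199),
  Rx.mk (nat_lit 77) (nat_lit 5) (nat_lit 1) (nat_lit 1) (nat_lit 7) (nat_lit 327) (nat_lit 195) r10_327 r8_195 (nat_lit 0) (nat_lit 0) (nat_lit 0) (nat_lit 0x8017985b4) (nat_lit 536870912),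
  Rx.mk (nat_lit 81) (nat_lit 1) (nat_lit 2) (nat_lit 1) (nat_lit 7) (nat_lit 325) (nat_lit 197) r10_325 r8_197 (nat_lit 0) (nat_lit 0) (nat_lit 0) (nat_lit 0x8017985b4) (nat_lit 536870912),
  Rx.mk (nat_lit 85) (nat_lit 5) (nat_lit 2) (nat_lit 1) (nat_lit 7) (nat_lit 328) (nat_lit 196) r10_328 r8_196 (nat_lit 0) (nat_lit 0) (nat_lit 0) (nat_lit 0x8017985b4) (nat_lit 536870912)]
noncomputable def e54_17 : List Rx := [
  Rx.mk (nat_lit 77) (nat_lit 5) (nat_lit 1) (nat_lit 1) (nat_lit 7) (nat_lit 329) (nat_lit 317) r10_329 r9_317 (nat_lit 0) (nat_lit 0) (nat_lit 0) (nat_lit 0x8017985b4) (nat_lit 536870912),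
  Rx.mk (nat_lit 333) (nat_lit 5) (nat_lit 1) (nat_lit 5) (nat_lit 7) (nat_lit 330) (nat_lit 318) r10_330 r9_318 (nat_lit 0) (nat_lit 0) (nat_lit 0) (nat_lit 0x8017985b4) (nat_lit 536870912)]
noncomputable def e54_18 : List Rx := [
  Rx.mk (nat_lit 5) (nat_lit 5) (nat_lit 0) (nat_lit 0) (nat_lit 1) (nat_lit 351) (nat_lit 181) r10_351 r4_181 (nat_lit 0) (nat_lit 11415403) (nat_lit 12084870) (nat_lit 0x6331c3eb0) (nat_lit 1026799885),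
  Rx.mk (nat_lit 13) (nat_lit 5) (nat_lit 1) (nat_lit 0) (nat_lit 3) (nat_lit 352) (nat_lit 182) r10_352 r4_182 (nat_lit 0) (nat_lit 0) (nat_lit 21073453) (nat_lit 0x8042207e6) (nat_lit 555329265),
  Rx.mk (nat_lit 21) (nat_lit 5) (nat_lit 2) (nat_lit 0) (nat_lit 3) (nat_lit 353) (nat_lit 183) r10_353 r4_183 (nat_lit 0) (nat_lit 0) (nat_lit 23202415) (nat_lit 0x7faaa218a) (nat_lit 566751477),
  Rx.mk (nat_lit 197) (nat_lit 5) (nat_lit 0) (nat_lit 3) (nat_lit 5) (nat_lit 354) (nat_lit 184) r10_354 r4_184 (nat_lit 0) (nat_lit 10881583) (nat_lit 0) (nat_lit 0x80aa66698) (nat_lit 538695745),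
  Rx.mk (nat_lit 205) (nat_lit 5) (nat_lit 1) (nat_lit 3) (nat_lit 7) (nat_lit 355) (nat_lit 185) r10_355 r4_185 (nat_lit 0) (nat_lit 0) (nat_lit 0) (nat_lit 0x80a823854) (nat_lit 528019812),
  Rx.mk (nat_lit 209) (nat_lit 1) (nat_lit 2) (nat_lit 3) (nat_lit 7) (nat_lit 350) (nat_lit 187) r10_350 r4_187 (nat_lit 0) (nat_lit 0) (nat_lit 0) (nat_lit 0x8017985b4) (nat_lit 536870912),
  Rx.mk (nat_lit 213) (nat_lit 5) (nat_lit 2) (nat_lit 3) (nat_lit 7) (nat_lit 356) (nat_lit 186) r10_356 r4_186 (nat_lit 0) (nat_lit 0) (nat_lit 0) (nat_lit 0x80a823516) (nat_lit 528019862)]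
noncomputable def e54_19 : List Rx := [
  Rx.mk (nat_lit 5) (nat_lit 5) (nat_lit 0) (nat_lit 0) (nat_lit 1) (nat_lit 357) (nat_lit 357) r10_357 r10_357 (nat_lit 0) (nat_lit 16509364) (nat_lit 16509364) (nat_lit 0x6644d8d22) (nat_lit 986668290),
  Rx.mk (nat_lit 13) (nat_lit 5) (nat_lit 1) (nat_lit 0) (nat_lit 3) (nat_lit 358) (nat_lit 360) r10_358 r10_360 (nat_lit 0) (nat_lit 0) (nat_lit 24741287) (nat_lit 0x8017985b4) (nat_lit 561612199),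
  Rx.mk (nat_lit 21) (nat_lit 5) (nat_lit 2) (nat_lit 0) (nat_lit 3) (nat_lit 359) (nat_lit 363) r10_359 r10_363 (nat_lit 0) (nat_lit 0) (nat_lit 24741287) (nat_lit 0x8017985b4) (nat_lit 561612199),
  Rx.mk (nat_lit 69) (nat_lit 5) (nat_lit 0) (nat_lit 1) (nat_lit 5) (nat_lit 360) (nat_lit 358) r10_360 r10_358 (nat_lit 0) (nat_lit 24741287) (nat_lit 0) (nat_lit 0x8017985b4) (nat_lit 561612199),
  Rx.mk (nat_lit 77) (nat_lit 5) (nat_lit 1) (nat_lit 1) (nat_lit 7) (nat_lit 361) (nat_lit 361) r10_361 r10_361 (nat_lit 0) (nat_lit 0) (nat_lit 0) (nat_lit 0x8017985b4) (nat_lit 536870912),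
  Rx.mk (nat_lit 85) (nat_lit 5) (nat_lit 2) (nat_lit 1) (nat_lit 7) (nat_lit 362) (nat_lit 364) r10_362 r10_364 (nat_lit 0) (nat_lit 0) (nat_lit 0) (nat_lit 0x8017985b4) (nat_lit 536870912),
  Rx.mk (nat_lit 197) (nat_lit 5) (nat_lit 0) (nat_lit 3) (nat_lit 5) (nat_lit 363) (nat_lit 359) r10_363 r10_359 (nat_lit 0) (nat_lit 24741287) (nat_lit 0) (nat_lit 0x8017985b4) (nat_lit 561612199),
  Rx.mk (nat_lit 205) (nat_lit 5) (nat_lit 1) (nat_lit 3) (nat_lit 7) (nat_lit 364) (nat_lit 362) r10_364 r10_362 (nat_lit 0) (nat_lit 0) (nat_lit 0) (nat_lit 0x8017985b4) (nat_lit 536870912)]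
noncomputable def e54_20 : List Rx := [
  Rx.mk (nat_lit 197) (nat_lit 5) (nat_lit 0) (nat_lit 3) (nat_lit 5) (nat_lit 366) (nat_lit 361) r10_366 r11_361 (nat_lit 0) (nat_lit 20709188) (nat_lit 0) (nat_lit 0x804c96cf2) (nat_lit 554327950),
  Rx.mk (nat_lit 205) (nat_lit 5) (nat_lit 1) (nat_lit 3) (nat_lit 7) (nat_lit 367) (nat_lit 362) r10_367 r11_362 (nat_lit 0) (nat_lit 0) (nat_lit 0) (nat_lit 0x8017985b4) (nat_lit 536870912),
  Rx.mk (nat_lit 209) (nat_lit 1) (nat_lit 2) (nat_lit 3) (nat_lit 7) (nat_lit 365) (nat_lit 360) r10_365 r11_360 (nat_lit 0) (nat_lit 0) (nat_lit 0) (nat_lit 0x8017985b4) (nat_lit 536870912),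
  Rx.mk (nat_lit 213) (nat_lit 5) (nat_lit 2) (nat_lit 3) (nat_lit 7) (nat_lit 368) (nat_lit 363) r10_368 r11_363 (nat_lit 0) (nat_lit 0) (nat_lit 0) (nat_lit 0x8017985b4) (nat_lit 536870912)]
noncomputable def e54_21 : List Rx := [
  Rx.mk (nat_lit 77) (nat_lit 5) (nat_lit 1) (nat_lit 1) (nat_lit 7) (nat_lit 331) (nat_lit 318) r10_331 r9_318 (nat_lit 0) (nat_lit 0) (nat_lit 0) (nat_lit 0x8017985b4) (nat_lit 536870912),
  Rx.mk (nat_lit 333) (nat_lit 5) (nat_lit 1) (nat_lit 5) (nat_lit 7) (nat_lit 332) (nat_lit 317) r10_332 r9_317 (nat_lit 0) (nat_lit 0) (nat_lit 0) (nat_lit 0x8017985b4) (nat_lit 536870912)]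
noncomputable def e54_22 : List Rx := [
  Rx.mk (nat_lit 268) (nat_lit 4) (nat_lit 1) (nat_lit 4) (nat_lit 2) (nat_lit 44) (nat_lit 195) r10_44 r0_195 (nat_lit 2412373) (nat_lit 0) (nat_lit 4364993) (nat_lit 0x599f905a6) (nat_lit 1164616828),
  Rx.mk (nat_lit 269) (nat_lit 5) (nat_lit 1) (nat_lit 4) (nat_lit 3) (nat_lit 45) (nat_lit 196) r10_45 r0_196 (nat_lit 0) (nat_lit 0) (nat_lit 12102424) (nat_lit 0x79db10b88) (nat_lit 649035436),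
  Rx.mk (nat_lit 270) (nat_lit 6) (nat_lit 1) (nat_lit 4) (nat_lit 3) (nat_lit 46) (nat_lit 197) r10_46 r0_197 (nat_lit 0) (nat_lit 0) (nat_lit 70189493) (nat_lit 0x7d33fb286) (nat_lit 652998905),
  Rx.mk (nat_lit 302) (nat_lit 6) (nat_lit 5) (nat_lit 4) (nat_lit 3) (nat_lit 47) (nat_lit 198) r10_47 r0_198 (nat_lit 0) (nat_lit 0) (nat_lit 45895857) (nat_lit 0x7fb6ad812) (nat_lit 588199269),
  Rx.mk (nat_lit 494) (nat_lit 6) (nat_lit 5) (nat_lit 7) (nat_lit 7) (nat_lit 48) (nat_lit 199) r10_48 r0_199 (nat_lit 0) (nat_lit 0) (nat_lit 0) (nat_lit 0x809c1612e) (nat_lit 528750462)]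
noncomputable def e54_23 : List Rx := [
  Rx.mk (nat_lit 302) (nat_lit 6) (nat_lit 5) (nat_lit 4) (nat_lit 3) (nat_lit 49) (nat_lit 217) r10_49 r1_217 (nat_lit 0) (nat_lit 0) (nat_lit 25153554) (nat_lit 0x80e8b8eaa) (nat_lit 549278466),
  Rx.mk (nat_lit 430) (nat_lit 6) (nat_lit 5) (nat_lit 6) (nat_lit 7) (nat_lit 50) (nat_lit 219) r10_50 r1_219 (nat_lit 0) (nat_lit 0) (nat_lit 0) (nat_lit 0x81b14ef04) (nat_lit 511970262),
  Rx.mk (nat_lit 494) (nat_lit 6) (nat_lit 5) (nat_lit 7) (nat_lit 7) (nat_lit 51) (nat_lit 218) r10_51 r1_218 (nat_lit 0) (nat_lit 0) (nat_lit 0) (nat_lit 0x8017985b4) (nat_lit 536870912)]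
noncomputable def e54_24 : List Rx := [
  Rx.mk (nat_lit 268) (nat_lit 4) (nat_lit 1) (nat_lit 4) (nat_lit 2) (nat_lit 52) (nat_lit 181) r10_52 r4_181 (nat_lit 11415403) (nat_lit 0) (nat_lit 12084870) (nat_lit 0x6331c3eb0) (nat_lit 1026799885),
  Rx.mk (nat_lit 269) (nat_lit 5) (nat_lit 1) (nat_lit 4) (nat_lit 3) (nat_lit 54) (nat_lit 182) r10_54 r4_182 (nat_lit 0) (nat_lit 0) (nat_lit 21073453) (nat_lit 0x8042207e6) (nat_lit 555329265),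
  Rx.mk (nat_lit 270) (nat_lit 6) (nat_lit 1) (nat_lit 4) (nat_lit 3) (nat_lit 56) (nat_lit 183) r10_56 r4_183 (nat_lit 0) (nat_lit 0) (nat_lit 23202415) (nat_lit 0x7faaa218a) (nat_lit 566751477),
  Rx.mk (nat_lit 460) (nat_lit 4) (nat_lit 1) (nat_lit 7) (nat_lit 6) (nat_lit 53) (nat_lit 184) r10_53 r4_184 (nat_lit 10881583) (nat_lit 0) (nat_lit 0) (nat_lit 0x80aa66698) (nat_lit 538695745),
  Rx.mk (nat_lit 461) (nat_lit 5) (nat_lit 1) (nat_lit 7) (nat_lit 7) (nat_lit 55) (nat_lit 185) r10_55 r4_185 (nat_lit 0) (nat_lit 0) (nat_lit 0) (nat_lit 0x80a823854) (nat_lit 528019812),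
  Rx.mk (nat_lit 462) (nat_lit 6) (nat_lit 1) (nat_lit 7) (nat_lit 7) (nat_lit 57) (nat_lit 186) r10_57 r4_186 (nat_lit 0) (nat_lit 0) (nat_lit 0) (nat_lit 0x80a823516) (nat_lit 528019862),
  Rx.mk (nat_lit 494) (nat_lit 6) (nat_lit 5) (nat_lit 7) (nat_lit 7) (nat_lit 58) (nat_lit 187) r10_58 r4_187 (nat_lit 0) (nat_lit 0) (nat_lit 0) (nat_lit 0x8017985b4) (nat_lit 536870912)]
noncomputable def e54_25 : List Rx := [
  Rx.mk (nat_lit 268) (nat_lit 4) (nat_lit 1) (nat_lit 4) (nat_lit 2) (nat_lit 183) (nat_lit 433) r10_183 r7_433 (nat_lit 23931749) (nat_lit 0) (nat_lit 28712906) (nat_lit 0x6a7e66ee6) (nat_lit 937964567),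
  Rx.mk (nat_lit 269) (nat_lit 5) (nat_lit 1) (nat_lit 4) (nat_lit 3) (nat_lit 185) (nat_lit 435) r10_185 r7_435 (nat_lit 0) (nat_lit 0) (nat_lit 24741287) (nat_lit 0x8017985b4) (nat_lit 561612199),
  Rx.mk (nat_lit 270) (nat_lit 6) (nat_lit 1) (nat_lit 4) (nat_lit 3) (nat_lit 187) (nat_lit 437) r10_187 r7_437 (nat_lit 0) (nat_lit 0) (nat_lit 25691165) (nat_lit 0x800112efc) (nat_lit 563939677),
  Rx.mk (nat_lit 302) (nat_lit 6) (nat_lit 5) (nat_lit 4) (nat_lit 3) (nat_lit 188) (nat_lit 431) r10_188 r7_431 (nat_lit 0) (nat_lit 0) (nat_lit 25393500) (nat_lit 0x7ffadf27e) (nat_lit 564019262),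
  Rx.mk (nat_lit 332) (nat_lit 4) (nat_lit 1) (nat_lit 5) (nat_lit 6) (nat_lit 184) (nat_lit 434) r10_184 r7_434 (nat_lit 26205094) (nat_lit 0) (nat_lit 0) (nat_lit 0x7ff5adb5c) (nat_lit 565151456),
  Rx.mk (nat_lit 333) (nat_lit 5) (nat_lit 1) (nat_lit 5) (nat_lit 7) (nat_lit 186) (nat_lit 436) r10_186 r7_436 (nat_lit 0) (nat_lit 0) (nat_lit 0) (nat_lit 0x8017985b4) (nat_lit 536870912),
  Rx.mk (nat_lit 334) (nat_lit 6) (nat_lit 1) (nat_lit 5) (nat_lit 7) (nat_lit 189) (nat_lit 438) r10_189 r7_438 (nat_lit 0) (nat_lit 0) (nat_lit 0) (nat_lit 0x8017985b4) (nat_lit 536870912),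
  Rx.mk (nat_lit 366) (nat_lit 6) (nat_lit 5) (nat_lit 5) (nat_lit 7) (nat_lit 190) (nat_lit 432) r10_190 r7_432 (nat_lit 0) (nat_lit 0) (nat_lit 0) (nat_lit 0x8017985b4) (nat_lit 536870912)]
noncomputable def e54_26 : List Rx := [
  Rx.mk (nat_lit 302) (nat_lit 6) (nat_lit 5) (nat_lit 4) (nat_lit 3) (nat_lit 195) (nat_lit 355) r10_195 r8_355 (nat_lit 0) (nat_lit 0) (nat_lit 24634759) (nat_lit 0x800b33de6) (nat_lit 562264771),
  Rx.mk (nat_lit 366) (nat_lit 6) (nat_lit 5) (nat_lit 5) (nat_lit 7) (nat_lit 196) (nat_lit 356) r10_196 r8_356 (nat_lit 0) (nat_lit 0) (nat_lit 0) (nat_lit 0x8017985b4) (nat_lit 536870912),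
  Rx.mk (nat_lit 430) (nat_lit 6) (nat_lit 5) (nat_lit 6) (nat_lit 7) (nat_lit 197) (nat_lit 357) r10_197 r8_357 (nat_lit 0) (nat_lit 0) (nat_lit 0) (nat_lit 0x8017985b4) (nat_lit 536870912)]
noncomputable def e54_27 : List Rx := [
  Rx.mk (nat_lit 332) (nat_lit 4) (nat_lit 1) (nat_lit 5) (nat_lit 6) (nat_lit 191) (nat_lit 194) r10_191 r8_194 (nat_lit 24741287) (nat_lit 0) (nat_lit 0) (nat_lit 0x8017985b4) (nat_lit 561612199),
  Rx.mk (nat_lit 333) (nat_lit 5) (nat_lit 1) (nat_lit 5) (nat_lit 7) (nat_lit 192) (nat_lit 195) r10_192 r8_195 (nat_lit 0) (nat_lit 0) (nat_lit 0) (nat_lit 0x8017985b4) (nat_lit 536870912),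
  Rx.mk (nat_lit 334) (nat_lit 6) (nat_lit 1) (nat_lit 5) (nat_lit 7) (nat_lit 193) (nat_lit 196) r10_193 r8_196 (nat_lit 0) (nat_lit 0) (nat_lit 0) (nat_lit 0x8017985b4) (nat_lit 536870912),
  Rx.mk (nat_lit 366) (nat_lit 6) (nat_lit 5) (nat_lit 5) (nat_lit 7) (nat_lit 194) (nat_lit 197) r10_194 r8_197 (nat_lit 0) (nat_lit 0) (nat_lit 0) (nat_lit 0x8017985b4) (nat_lit 536870912)]
noncomputable def e54_28 : List Rx := [
  Rx.mk (nat_lit 268) (nat_lit 4) (nat_lit 1) (nat_lit 4) (nat_lit 2) (nat_lit 198) (nat_lit 357) r10_198 r10_357 (nat_lit 16509364) (nat_lit 0) (nat_lit 16509364) (nat_lit 0x6644d8d22) (nat_lit 986668290),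
  Rx.mk (nat_lit 269) (nat_lit 5) (nat_lit 1) (nat_lit 4) (nat_lit 3) (nat_lit 201) (nat_lit 360) r10_201 r10_360 (nat_lit 0) (nat_lit 0) (nat_lit 24741287) (nat_lit 0x8017985b4) (nat_lit 561612199),
  Rx.mk (nat_lit 270) (nat_lit 6) (nat_lit 1) (nat_lit 4) (nat_lit 3) (nat_lit 204) (nat_lit 363) r10_204 r10_363 (nat_lit 0) (nat_lit 0) (nat_lit 24741287) (nat_lit 0x8017985b4) (nat_lit 561612199),
  Rx.mk (nat_lit 332) (nat_lit 4) (nat_lit 1) (nat_lit 5) (nat_lit 6) (nat_lit 199) (nat_lit 358) r10_199 r10_358 (nat_lit 24741287) (nat_lit 0) (nat_lit 0) (nat_lit 0x8017985b4) (nat_lit 561612199),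
  Rx.mk (nat_lit 333) (nat_lit 5) (nat_lit 1) (nat_lit 5) (nat_lit 7) (nat_lit 202) (nat_lit 361) r10_202 r10_361 (nat_lit 0) (nat_lit 0) (nat_lit 0) (nat_lit 0x8017985b4) (nat_lit 536870912),
  Rx.mk (nat_lit 334) (nat_lit 6) (nat_lit 1) (nat_lit 5) (nat_lit 7) (nat_lit 205) (nat_lit 364) r10_205 r10_364 (nat_lit 0) (nat_lit 0) (nat_lit 0) (nat_lit 0x8017985b4) (nat_lit 536870912),
  Rx.mk (nat_lit 460) (nat_lit 4) (nat_lit 1) (nat_lit 7) (nat_lit 6) (nat_lit 200) (nat_lit 359) r10_200 r10_359 (nat_lit 24741287) (nat_lit 0) (nat_lit 0) (nat_lit 0x8017985b4) (nat_lit 561612199),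
  Rx.mk (nat_lit 461) (nat_lit 5) (nat_lit 1) (nat_lit 7) (nat_lit 7) (nat_lit 203) (nat_lit 362) r10_203 r10_362 (nat_lit 0) (nat_lit 0) (nat_lit 0) (nat_lit 0x8017985b4) (nat_lit 536870912)]
noncomputable def e54_29 : List Rx := [
  Rx.mk (nat_lit 460) (nat_lit 4) (nat_lit 1) (nat_lit 7) (nat_lit 6) (nat_lit 240) (nat_lit 361) r10_240 r11_361 (nat_lit 20709188) (nat_lit 0) (nat_lit 0) (nat_lit 0x804c96cf2) (nat_lit 554327950),
  Rx.mk (nat_lit 461) (nat_lit 5) (nat_lit 1) (nat_lit 7) (nat_lit 7) (nat_lit 241) (nat_lit 362) r10_241 r11_362 (nat_lit 0) (nat_lit 0) (nat_lit 0) (nat_lit 0x8017985b4) (nat_lit 536870912),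
  Rx.mk (nat_lit 462) (nat_lit 6) (nat_lit 1) (nat_lit 7) (nat_lit 7) (nat_lit 242) (nat_lit 363) r10_242 r11_363 (nat_lit 0) (nat_lit 0) (nat_lit 0) (nat_lit 0x8017985b4) (nat_lit 536870912),
  Rx.mk (nat_lit 494) (nat_lit 6) (nat_lit 5) (nat_lit 7) (nat_lit 7) (nat_lit 243) (nat_lit 360) r10_243 r11_360 (nat_lit 0) (nat_lit 0) (nat_lit 0) (nat_lit 0x8017985b4) (nat_lit 536870912)]
noncomputable def e54_30 : List Rx := [
  Rx.mk (nat_lit 5) (nat_lit 5) (nat_lit 0) (nat_lit 0) (nat_lit 1) (nat_lit 369) (nat_lit 197) r10_369 r5_197 (nat_lit 0) (nat_lit 4889214) (nat_lit 11835146) (nat_lit 0x6ab7fa806) (nat_lit 898281722),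
  Rx.mk (nat_lit 21) (nat_lit 5) (nat_lit 2) (nat_lit 0) (nat_lit 3) (nat_lit 370) (nat_lit 198) r10_370 r5_198 (nat_lit 0) (nat_lit 0) (nat_lit 24741287) (nat_lit 0x7fb2f649e) (nat_lit 567798249),
  Rx.mk (nat_lit 197) (nat_lit 5) (nat_lit 0) (nat_lit 3) (nat_lit 5) (nat_lit 371) (nat_lit 199) r10_371 r5_199 (nat_lit 0) (nat_lit 5323301) (nat_lit 0) (nat_lit 0x821784ed6) (nat_lit 511046163),
  Rx.mk (nat_lit 213) (nat_lit 5) (nat_lit 2) (nat_lit 3) (nat_lit 7) (nat_lit 372) (nat_lit 201) r10_372 r5_201 (nat_lit 0) (nat_lit 0) (nat_lit 0) (nat_lit 0x80ff5f960) (nat_lit 522714412),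
  Rx.mk (nat_lit 221) (nat_lit 5) (nat_lit 3) (nat_lit 3) (nat_lit 7) (nat_lit 373) (nat_lit 200) r10_373 r5_200 (nat_lit 0) (nat_lit 0) (nat_lit 0) (nat_lit 0x8017985b4) (nat_lit 536870912)]
noncomputable def e54_31 : List Rx := [
  Rx.mk (nat_lit 5) (nat_lit 5) (nat_lit 0) (nat_lit 0) (nat_lit 1) (nat_lit 374) (nat_lit 230) r10_374 r11_230 (nat_lit 0) (nat_lit 29967916) (nat_lit 53187078) (nat_lit 0x781c132b8) (nat_lit 748379156),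
  Rx.mk (nat_lit 21) (nat_lit 5) (nat_lit 2) (nat_lit 0) (nat_lit 3) (nat_lit 375) (nat_lit 231) r10_375 r11_231 (nat_lit 0) (nat_lit 0) (nat_lit 24741287) (nat_lit 0x8017985b4) (nat_lit 561612199),
  Rx.mk (nat_lit 69) (nat_lit 5) (nat_lit 0) (nat_lit 1) (nat_lit 5) (nat_lit 376) (nat_lit 232) r10_376 r11_232 (nat_lit 0) (nat_lit 24741287) (nat_lit 0) (nat_lit 0x8017985b4) (nat_lit 561612199),
  Rx.mk (nat_lit 85) (nat_lit 5) (nat_lit 2) (nat_lit 1) (nat_lit 7) (nat_lit 377) (nat_lit 233) r10_377 r11_233 (nat_lit 0) (nat_lit 0) (nat_lit 0) (nat_lit 0x8017985b4) (nat_lit 536870912),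
  Rx.mk (nat_lit 197) (nat_lit 5) (nat_lit 0) (nat_lit 3) (nat_lit 5) (nat_lit 378) (nat_lit 234) r10_378 r11_234 (nat_lit 0) (nat_lit 24741287) (nat_lit 0) (nat_lit 0x8017985b4) (nat_lit 561612199),
  Rx.mk (nat_lit 221) (nat_lit 5) (nat_lit 3) (nat_lit 3) (nat_lit 7) (nat_lit 379) (nat_lit 235) r10_379 r11_235 (nat_lit 0) (nat_lit 0) (nat_lit 0) (nat_lit 0x8017985b4) (nat_lit 536870912)]
noncomputable def e54_32 : List Rx := [
  Rx.mk (nat_lit 199) (nat_lit 7) (nat_lit 0) (nat_lit 3) (nat_lit 5) (nat_lit 67) (nat_lit 147) r10_67 r6_147 (nat_lit 0) (nat_lit 9336562) (nat_lit 0) (nat_lit 0x80cea0392) (nat_lit 534941174),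
  Rx.mk (nat_lit 207) (nat_lit 7) (nat_lit 1) (nat_lit 3) (nat_lit 7) (nat_lit 68) (nat_lit 148) r10_68 r6_148 (nat_lit 0) (nat_lit 0) (nat_lit 0) (nat_lit 0x80d032dc2) (nat_lit 525585862),
  Rx.mk (nat_lit 215) (nat_lit 7) (nat_lit 2) (nat_lit 3) (nat_lit 7) (nat_lit 69) (nat_lit 149) r10_69 r6_149 (nat_lit 0) (nat_lit 0) (nat_lit 0) (nat_lit 0x80d033132) (nat_lit 525585812),
  Rx.mk (nat_lit 452) (nat_lit 4) (nat_lit 0) (nat_lit 7) (nat_lit 4) (nat_lit 59) (nat_lit 140) r10_59 r6_140 (nat_lit 3908311) (nat_lit 3437710) (nat_lit 0) (nat_lit 0x70b62ad72) (nat_lit 791927083),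
  Rx.mk (nat_lit 453) (nat_lit 5) (nat_lit 0) (nat_lit 7) (nat_lit 5) (nat_lit 62) (nat_lit 143) r10_62 r6_143 (nat_lit 0) (nat_lit 14773968) (nat_lit 0) (nat_lit 0x80be7a56c) (nat_lit 541432730),
  Rx.mk (nat_lit 454) (nat_lit 6) (nat_lit 0) (nat_lit 7) (nat_lit 5) (nat_lit 64) (nat_lit 150) r10_64 r6_150 (nat_lit 0) (nat_lit 14995754) (nat_lit 0) (nat_lit 0x80820fd34) (nat_lit 545312416),
  Rx.mk (nat_lit 455) (nat_lit 7) (nat_lit 0) (nat_lit 7) (nat_lit 5) (nat_lit 70) (nat_lit 145) r10_70 r6_145 (nat_lit 0) (nat_lit 24741287) (nat_lit 0) (nat_lit 0x7f68b2360) (nat_lit 572388699),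
  Rx.mk (nat_lit 460) (nat_lit 4) (nat_lit 1) (nat_lit 7) (nat_lit 6) (nat_lit 60) (nat_lit 141) r10_60 r6_141 (nat_lit 18189542) (nat_lit 0) (nat_lit 0) (nat_lit 0x807407840) (nat_lit 549393204),
  Rx.mk (nat_lit 462) (nat_lit 6) (nat_lit 1) (nat_lit 7) (nat_lit 7) (nat_lit 65) (nat_lit 151) r10_65 r6_151 (nat_lit 0) (nat_lit 0) (nat_lit 0) (nat_lit 0x8017985b4) (nat_lit 536870912),
  Rx.mk (nat_lit 463) (nat_lit 7) (nat_lit 1) (nat_lit 7) (nat_lit 7) (nat_lit 71) (nat_lit 146) r10_71 r6_146 (nat_lit 0) (nat_lit 0) (nat_lit 0) (nat_lit 0x8017985b4) (nat_lit 536870912),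
  Rx.mk (nat_lit 476) (nat_lit 4) (nat_lit 3) (nat_lit 7) (nat_lit 6) (nat_lit 61) (nat_lit 142) r10_61 r6_142 (nat_lit 8452867) (nat_lit 0) (nat_lit 0) (nat_lit 0x80ffe1c3a) (nat_lit 531055429),
  Rx.mk (nat_lit 477) (nat_lit 5) (nat_lit 3) (nat_lit 7) (nat_lit 7) (nat_lit 63) (nat_lit 144) r10_63 r6_144 (nat_lit 0) (nat_lit 0) (nat_lit 0) (nat_lit 0x80d199d14) (nat_lit 525495962),
  Rx.mk (nat_lit 478) (nat_lit 6) (nat_lit 3) (nat_lit 7) (nat_lit 7) (nat_lit 66) (nat_lit 152) r10_66 r6_152 (nat_lit 0) (nat_lit 0) (nat_lit 0) (nat_lit 0x80d1999d6) (nat_lit 525496012)]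
noncomputable def e54_33 : List Rx := [
  Rx.mk (nat_lit 268) (nat_lit 4) (nat_lit 1) (nat_lit 4) (nat_lit 2) (nat_lit 72) (nat_lit 197) r10_72 r5_197 (nat_lit 4889214) (nat_lit 0) (nat_lit 11835146) (nat_lit 0x6ab7fa806) (nat_lit 898281722),
  Rx.mk (nat_lit 270) (nat_lit 6) (nat_lit 1) (nat_lit 4) (nat_lit 3) (nat_lit 74) (nat_lit 198) r10_74 r5_198 (nat_lit 0) (nat_lit 0) (nat_lit 24741287) (nat_lit 0x7fb2f649e) (nat_lit 567798249),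
  Rx.mk (nat_lit 460) (nat_lit 4) (nat_lit 1) (nat_lit 7) (nat_lit 6) (nat_lit 73) (nat_lit 199) r10_73 r5_199 (nat_lit 5323301) (nat_lit 0) (nat_lit 0) (nat_lit 0x821784ed6) (nat_lit 511046163),
  Rx.mk (nat_lit 462) (nat_lit 6) (nat_lit 1) (nat_lit 7) (nat_lit 7) (nat_lit 75) (nat_lit 201) r10_75 r5_201 (nat_lit 0) (nat_lit 0) (nat_lit 0) (nat_lit 0x80ff5f960) (nat_lit 522714412),
  Rx.mk (nat_lit 463) (nat_lit 7) (nat_lit 1) (nat_lit 7) (nat_lit 7) (nat_lit 76) (nat_lit 200) r10_76 r5_200 (nat_lit 0) (nat_lit 0) (nat_lit 0) (nat_lit 0x8017985b4) (nat_lit 536870912)]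
noncomputable def e54_34 : List Rx := [
  Rx.mk (nat_lit 268) (nat_lit 4) (nat_lit 1) (nat_lit 4) (nat_lit 2) (nat_lit 206) (nat_lit 230) r10_206 r11_230 (nat_lit 29967916) (nat_lit 0) (nat_lit 53187078) (nat_lit 0x781c132b8) (nat_lit 748379156),
  Rx.mk (nat_lit 270) (nat_lit 6) (nat_lit 1) (nat_lit 4) (nat_lit 3) (nat_lit 209) (nat_lit 231) r10_209 r11_231 (nat_lit 0) (nat_lit 0) (nat_lit 24741287) (nat_lit 0x8017985b4) (nat_lit 561612199),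
  Rx.mk (nat_lit 332) (nat_lit 4) (nat_lit 1) (nat_lit 5) (nat_lit 6) (nat_lit 207) (nat_lit 232) r10_207 r11_232 (nat_lit 24741287) (nat_lit 0) (nat_lit 0) (nat_lit 0x8017985b4) (nat_lit 561612199),
  Rx.mk (nat_lit 334) (nat_lit 6) (nat_lit 1) (nat_lit 5) (nat_lit 7) (nat_lit 210) (nat_lit 233) r10_210 r11_233 (nat_lit 0) (nat_lit 0) (nat_lit 0) (nat_lit 0x8017985b4) (nat_lit 536870912),
  Rx.mk (nat_lit 460) (nat_lit 4) (nat_lit 1) (nat_lit 7) (nat_lit 6) (nat_lit 208) (nat_lit 234) r10_208 r11_234 (nat_lit 24741287) (nat_lit 0) (nat_lit 0) (nat_lit 0x8017985b4) (nat_lit 561612199),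
  Rx.mk (nat_lit 463) (nat_lit 7) (nat_lit 1) (nat_lit 7) (nat_lit 7) (nat_lit 211) (nat_lit 235) r10_211 r11_235 (nat_lit 0) (nat_lit 0) (nat_lit 0) (nat_lit 0x8017985b4) (nat_lit 536870912)]
noncomputable def e54_35 : List Rx := [
  Rx.mk (nat_lit 196) (nat_lit 4) (nat_lit 0) (nat_lit 3) (nat_lit 4) (nat_lit 244) (nat_lit 140) r10_244 r6_140 (nat_lit 3437710) (nat_lit 3908311) (nat_lit 0) (nat_lit 0x70b62ad72) (nat_lit 791927083),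
  Rx.mk (nat_lit 197) (nat_lit 5) (nat_lit 0) (nat_lit 3) (nat_lit 5) (nat_lit 249) (nat_lit 141) r10_249 r6_141 (nat_lit 0) (nat_lit 18189542) (nat_lit 0) (nat_lit 0x807407840) (nat_lit 549393204),
  Rx.mk (nat_lit 199) (nat_lit 7) (nat_lit 0) (nat_lit 3) (nat_lit 5) (nat_lit 254) (nat_lit 142) r10_254 r6_142 (nat_lit 0) (nat_lit 8452867) (nat_lit 0) (nat_lit 0x80ffe1c3a) (nat_lit 531055429),
  Rx.mk (nat_lit 204) (nat_lit 4) (nat_lit 1) (nat_lit 3) (nat_lit 6) (nat_lit 245) (nat_lit 143) r10_245 r6_143 (nat_lit 14773968) (nat_lit 0) (nat_lit 0) (nat_lit 0x80be7a56c) (nat_lit 541432730),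
  Rx.mk (nat_lit 207) (nat_lit 7) (nat_lit 1) (nat_lit 3) (nat_lit 7) (nat_lit 255) (nat_lit 144) r10_255 r6_144 (nat_lit 0) (nat_lit 0) (nat_lit 0) (nat_lit 0x80d199d14) (nat_lit 525495962),
  Rx.mk (nat_lit 212) (nat_lit 4) (nat_lit 2) (nat_lit 3) (nat_lit 6) (nat_lit 246) (nat_lit 150) r10_246 r6_150 (nat_lit 14995754) (nat_lit 0) (nat_lit 0) (nat_lit 0x80820fd34) (nat_lit 545312416),
  Rx.mk (nat_lit 213) (nat_lit 5) (nat_lit 2) (nat_lit 3) (nat_lit 7) (nat_lit 250) (nat_lit 151) r10_250 r6_151 (nat_lit 0) (nat_lit 0) (nat_lit 0) (nat_lit 0x8017985b4) (nat_lit 536870912),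
  Rx.mk (nat_lit 215) (nat_lit 7) (nat_lit 2) (nat_lit 3) (nat_lit 7) (nat_lit 256) (nat_lit 152) r10_256 r6_152 (nat_lit 0) (nat_lit 0) (nat_lit 0) (nat_lit 0x80d1999d6) (nat_lit 525496012),
  Rx.mk (nat_lit 220) (nat_lit 4) (nat_lit 3) (nat_lit 3) (nat_lit 6) (nat_lit 247) (nat_lit 145) r10_247 r6_145 (nat_lit 24741287) (nat_lit 0) (nat_lit 0) (nat_lit 0x7f68b2360) (nat_lit 572388699),
  Rx.mk (nat_lit 221) (nat_lit 5) (nat_lit 3) (nat_lit 3) (nat_lit 7) (nat_lit 251) (nat_lit 146) r10_251 r6_146 (nat_lit 0) (nat_lit 0) (nat_lit 0) (nat_lit 0x8017985b4) (nat_lit 536870912),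
  Rx.mk (nat_lit 476) (nat_lit 4) (nat_lit 3) (nat_lit 7) (nat_lit 6) (nat_lit 248) (nat_lit 147) r10_248 r6_147 (nat_lit 9336562) (nat_lit 0) (nat_lit 0) (nat_lit 0x80cea0392) (nat_lit 534941174),
  Rx.mk (nat_lit 477) (nat_lit 5) (nat_lit 3) (nat_lit 7) (nat_lit 7) (nat_lit 252) (nat_lit 148) r10_252 r6_148 (nat_lit 0) (nat_lit 0) (nat_lit 0) (nat_lit 0x80d032dc2) (nat_lit 525585862),
  Rx.mk (nat_lit 478) (nat_lit 6) (nat_lit 3) (nat_lit 7) (nat_lit 7) (nat_lit 253) (nat_lit 149) r10_253 r6_149 (nat_lit 0) (nat_lit 0) (nat_lit 0) (nat_lit 0x80d033132) (nat_lit 525585812)]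
noncomputable def e54_36 : List Rx := [
  Rx.mk (nat_lit 196) (nat_lit 4) (nat_lit 0) (nat_lit 3) (nat_lit 4) (nat_lit 257) (nat_lit 423) r10_257 r12_423 (nat_lit 2436129) (nat_lit 2577418) (nat_lit 0) (nat_lit 0x73aa6288e) (nat_lit 741762309),
  Rx.mk (nat_lit 197) (nat_lit 5) (nat_lit 0) (nat_lit 3) (nat_lit 5) (nat_lit 263) (nat_lit 429) r10_263 r12_429 (nat_lit 0) (nat_lit 12157828) (nat_lit 0) (nat_lit 0x8125a3a9a) (nat_lit 532563440),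
  Rx.mk (nat_lit 199) (nat_lit 7) (nat_lit 0) (nat_lit 3) (nat_lit 5) (nat_lit 270) (nat_lit 433) r10_270 r12_433 (nat_lit 0) (nat_lit 6405981) (nat_lit 0) (nat_lit 0x808bbb2fc) (nat_lit 535951843),
  Rx.mk (nat_lit 204) (nat_lit 4) (nat_lit 1) (nat_lit 3) (nat_lit 6) (nat_lit 258) (nat_lit 425) r10_258 r12_425 (nat_lit 8688892) (nat_lit 0) (nat_lit 0) (nat_lit 0x823a95ac4) (nat_lit 512418754),
  Rx.mk (nat_lit 207) (nat_lit 7) (nat_lit 1) (nat_lit 3) (nat_lit 7) (nat_lit 271) (nat_lit 434) r10_271 r12_434 (nat_lit 0) (nat_lit 0) (nat_lit 0) (nat_lit 0x811742e92) (nat_lit 521278712),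
  Rx.mk (nat_lit 212) (nat_lit 4) (nat_lit 2) (nat_lit 3) (nat_lit 6) (nat_lit 259) (nat_lit 428) r10_259 r12_428 (nat_lit 8688910) (nat_lit 0) (nat_lit 0) (nat_lit 0x823a961a4) (nat_lit 512418672),
  Rx.mk (nat_lit 213) (nat_lit 5) (nat_lit 2) (nat_lit 3) (nat_lit 7) (nat_lit 264) (nat_lit 432) r10_264 r12_432 (nat_lit 0) (nat_lit 0) (nat_lit 0) (nat_lit 0x8017985b4) (nat_lit 536870912),
  Rx.mk (nat_lit 215) (nat_lit 7) (nat_lit 2) (nat_lit 3) (nat_lit 7) (nat_lit 272) (nat_lit 435) r10_272 r12_435 (nat_lit 0) (nat_lit 0) (nat_lit 0) (nat_lit 0x8117427e4) (nat_lit 521278812),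
  Rx.mk (nat_lit 452) (nat_lit 4) (nat_lit 0) (nat_lit 7) (nat_lit 4) (nat_lit 260) (nat_lit 424) r10_260 r12_424 (nat_lit 2577418) (nat_lit 2436129) (nat_lit 0) (nat_lit 0x73aa6288e) (nat_lit 741762309),
  Rx.mk (nat_lit 453) (nat_lit 5) (nat_lit 0) (nat_lit 7) (nat_lit 5) (nat_lit 265) (nat_lit 430) r10_265 r12_430 (nat_lit 0) (nat_lit 8688892) (nat_lit 0) (nat_lit 0x823a95ac4) (nat_lit 512418754),
  Rx.mk (nat_lit 454) (nat_lit 6) (nat_lit 0) (nat_lit 7) (nat_lit 5) (nat_lit 267) (nat_lit 436) r10_267 r12_436 (nat_lit 0) (nat_lit 8688910) (nat_lit 0) (nat_lit 0x823a961a4) (nat_lit 512418672),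
  Rx.mk (nat_lit 460) (nat_lit 4) (nat_lit 1) (nat_lit 7) (nat_lit 6) (nat_lit 261) (nat_lit 426) r10_261 r12_426 (nat_lit 12157828) (nat_lit 0) (nat_lit 0) (nat_lit 0x8125a3a9a) (nat_lit 532563440),
  Rx.mk (nat_lit 462) (nat_lit 6) (nat_lit 1) (nat_lit 7) (nat_lit 7) (nat_lit 268) (nat_lit 437) r10_268 r12_437 (nat_lit 0) (nat_lit 0) (nat_lit 0) (nat_lit 0x8017985b4) (nat_lit 536870912),
  Rx.mk (nat_lit 476) (nat_lit 4) (nat_lit 3) (nat_lit 7) (nat_lit 6) (nat_lit 262) (nat_lit 427) r10_262 r12_427 (nat_lit 6405981) (nat_lit 0) (nat_lit 0) (nat_lit 0x808bbb2fc) (nat_lit 535951843),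
  Rx.mk (nat_lit 477) (nat_lit 5) (nat_lit 3) (nat_lit 7) (nat_lit 7) (nat_lit 266) (nat_lit 431) r10_266 r12_431 (nat_lit 0) (nat_lit 0) (nat_lit 0) (nat_lit 0x811742e92) (nat_lit 521278712),
  Rx.mk (nat_lit 478) (nat_lit 6) (nat_lit 3) (nat_lit 7) (nat_lit 7) (nat_lit 269) (nat_lit 438) r10_269 r12_438 (nat_lit 0) (nat_lit 0) (nat_lit 0) (nat_lit 0x8117427e4) (nat_lit 521278812)]
noncomputable def e54_37 : List Rx := [
  Rx.mk (nat_lit 294) (nat_lit 6) (nat_lit 4) (nat_lit 4) (nat_lit 1) (nat_lit 0) (nat_lit 147) r10_0 r0_147 (nat_lit 0) (nat_lit 2583088) (nat_lit 5072318) (nat_lit 0x6af50b056) (nat_lit 885195018),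
  Rx.mk (nat_lit 318) (nat_lit 6) (nat_lit 7) (nat_lit 4) (nat_lit 3) (nat_lit 1) (nat_lit 148) r10_1 r0_148 (nat_lit 0) (nat_lit 0) (nat_lit 61676723) (nat_lit 0x7d6a0fc8c) (nat_lit 641243735),
  Rx.mk (nat_lit 422) (nat_lit 6) (nat_lit 4) (nat_lit 6) (nat_lit 5) (nat_lit 2) (nat_lit 150) r10_2 r0_150 (nat_lit 0) (nat_lit 21612680) (nat_lit 0) (nat_lit 0x79ca6153a) (nat_lit 659669742),
  Rx.mk (nat_lit 446) (nat_lit 6) (nat_lit 7) (nat_lit 6) (nat_lit 7) (nat_lit 3) (nat_lit 151) r10_3 r0_151 (nat_lit 0) (nat_lit 0) (nat_lit 0) (nat_lit 0x7fba6e0c8) (nat_lit 542601512),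
  Rx.mk (nat_lit 510) (nat_lit 6) (nat_lit 7) (nat_lit 7) (nat_lit 7) (nat_lit 4) (nat_lit 149) r10_4 r0_149 (nat_lit 0) (nat_lit 0) (nat_lit 0) (nat_lit 0x7fef30450) (nat_lit 539335212)]
noncomputable def e54_38 : List Rx := [
  Rx.mk (nat_lit 16) (nat_lit 0) (nat_lit 2) (nat_lit 0) (nat_lit 2) (nat_lit 77) (nat_lit 147) r10_77 r0_147 (nat_lit 2583088) (nat_lit 0) (nat_lit 5072318) (nat_lit 0x6af50b056) (nat_lit 885195018),
  Rx.mk (nat_lit 19) (nat_lit 3) (nat_lit 2) (nat_lit 0) (nat_lit 3) (nat_lit 79) (nat_lit 148) r10_79 r0_148 (nat_lit 0) (nat_lit 0) (nat_lit 61676723) (nat_lit 0x7d6a0fc8c) (nat_lit 641243735),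
  Rx.mk (nat_lit 144) (nat_lit 0) (nat_lit 2) (nat_lit 2) (nat_lit 6) (nat_lit 78) (nat_lit 150) r10_78 r0_150 (nat_lit 21612680) (nat_lit 0) (nat_lit 0) (nat_lit 0x79ca6153a) (nat_lit 659669742),
  Rx.mk (nat_lit 147) (nat_lit 3) (nat_lit 2) (nat_lit 2) (nat_lit 7) (nat_lit 80) (nat_lit 151) r10_80 r0_151 (nat_lit 0) (nat_lit 0) (nat_lit 0) (nat_lit 0x7fba6e0c8) (nat_lit 542601512),
  Rx.mk (nat_lit 211) (nat_lit 3) (nat_lit 2) (nat_lit 3) (nat_lit 7) (nat_lit 81) (nat_lit 149) r10_81 r0_149 (nat_lit 0) (nat_lit 0) (nat_lit 0) (nat_lit 0x7fef30450) (nat_lit 539335212)]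
noncomputable def e54_39 : List Rx := [
  Rx.mk (nat_lit 16) (nat_lit 0) (nat_lit 2) (nat_lit 0) (nat_lit 2) (nat_lit 82) (nat_lit 189) r10_82 r7_189 (nat_lit 2041025) (nat_lit 0) (nat_lit 2494455) (nat_lit 0x6a9b34cd0) (nat_lit 887706942),
  Rx.mk (nat_lit 19) (nat_lit 3) (nat_lit 2) (nat_lit 0) (nat_lit 3) (nat_lit 88) (nat_lit 192) r10_88 r7_192 (nat_lit 0) (nat_lit 0) (nat_lit 24741287) (nat_lit 0x8017985b4) (nat_lit 561612199),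
  Rx.mk (nat_lit 144) (nat_lit 0) (nat_lit 2) (nat_lit 2) (nat_lit 6) (nat_lit 83) (nat_lit 191) r10_83 r7_191 (nat_lit 21221230) (nat_lit 0) (nat_lit 0) (nat_lit 0x7ffecc166) (nat_lit 559591742),
  Rx.mk (nat_lit 147) (nat_lit 3) (nat_lit 2) (nat_lit 2) (nat_lit 7) (nat_lit 89) (nat_lit 194) r10_89 r7_194 (nat_lit 0) (nat_lit 0) (nat_lit 0) (nat_lit 0x8017985b4) (nat_lit 536870912),
  Rx.mk (nat_lit 176) (nat_lit 0) (nat_lit 6) (nat_lit 2) (nat_lit 6) (nat_lit 84) (nat_lit 190) r10_84 r7_190 (nat_lit 24741287) (nat_lit 0) (nat_lit 0) (nat_lit 0x7fd76a0e6) (nat_lit 565534799),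
  Rx.mk (nat_lit 178) (nat_lit 2) (nat_lit 6) (nat_lit 2) (nat_lit 7) (nat_lit 85) (nat_lit 197) r10_85 r7_197 (nat_lit 0) (nat_lit 0) (nat_lit 0) (nat_lit 0x8017985b4) (nat_lit 536870912),
  Rx.mk (nat_lit 211) (nat_lit 3) (nat_lit 2) (nat_lit 3) (nat_lit 7) (nat_lit 90) (nat_lit 193) r10_90 r7_193 (nat_lit 0) (nat_lit 0) (nat_lit 0) (nat_lit 0x8017985b4) (nat_lit 536870912),
  Rx.mk (nat_lit 294) (nat_lit 6) (nat_lit 4) (nat_lit 4) (nat_lit 1) (nat_lit 91) (nat_lit 184) r10_91 r7_184 (nat_lit 0) (nat_lit 2041025) (nat_lit 2494455) (nat_lit 0x6a9b34cd0) (nat_lit 887706942),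
  Rx.mk (nat_lit 318) (nat_lit 6) (nat_lit 7) (nat_lit 4) (nat_lit 3) (nat_lit 92) (nat_lit 185) r10_92 r7_185 (nat_lit 0) (nat_lit 0) (nat_lit 24741287) (nat_lit 0x8017985b4) (nat_lit 561612199),
  Rx.mk (nat_lit 418) (nat_lit 2) (nat_lit 4) (nat_lit 6) (nat_lit 5) (nat_lit 86) (nat_lit 195) r10_86 r7_195 (nat_lit 0) (nat_lit 24741287) (nat_lit 0) (nat_lit 0x7fd76a0e6) (nat_lit 565534799),
  Rx.mk (nat_lit 422) (nat_lit 6) (nat_lit 4) (nat_lit 6) (nat_lit 5) (nat_lit 93) (nat_lit 187) r10_93 r7_187 (nat_lit 0) (nat_lit 21221230) (nat_lit 0) (nat_lit 0x7ffecc166) (nat_lit 559591742),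
  Rx.mk (nat_lit 434) (nat_lit 2) (nat_lit 6) (nat_lit 6) (nat_lit 7) (nat_lit 87) (nat_lit 196) r10_87 r7_196 (nat_lit 0) (nat_lit 0) (nat_lit 0) (nat_lit 0x8017985b4) (nat_lit 536870912),
  Rx.mk (nat_lit 446) (nat_lit 6) (nat_lit 7) (nat_lit 6) (nat_lit 7) (nat_lit 94) (nat_lit 188) r10_94 r7_188 (nat_lit 0) (nat_lit 0) (nat_lit 0) (nat_lit 0x8017985b4) (nat_lit 536870912),
  Rx.mk (nat_lit 510) (nat_lit 6) (nat_lit 7) (nat_lit 7) (nat_lit 7) (nat_lit 95) (nat_lit 186) r10_95 r7_186 (nat_lit 0) (nat_lit 0) (nat_lit 0) (nat_lit 0x8017985b4) (nat_lit 536870912)]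
noncomputable def e54_40 : List Rx := [
  Rx.mk (nat_lit 16) (nat_lit 0) (nat_lit 2) (nat_lit 0) (nat_lit 2) (nat_lit 292) (nat_lit 160) r10_292 r2_160 (nat_lit 13507056) (nat_lit 0) (nat_lit 10828370) (nat_lit 0x67d645c8c) (nat_lit 952582088),
  Rx.mk (nat_lit 17) (nat_lit 1) (nat_lit 2) (nat_lit 0) (nat_lit 3) (nat_lit 295) (nat_lit 161) r10_295 r2_161 (nat_lit 0) (nat_lit 0) (nat_lit 24741287) (nat_lit 0x8017985b4) (nat_lit 561612199),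
  Rx.mk (nat_lit 144) (nat_lit 0) (nat_lit 2) (nat_lit 2) (nat_lit 6) (nat_lit 293) (nat_lit 165) r10_293 r2_165 (nat_lit 24741287) (nat_lit 0) (nat_lit 0) (nat_lit 0x8017985b4) (nat_lit 561612199),
  Rx.mk (nat_lit 145) (nat_lit 1) (nat_lit 2) (nat_lit 2) (nat_lit 7) (nat_lit 296) (nat_lit 166) r10_296 r2_166 (nat_lit 0) (nat_lit 0) (nat_lit 0) (nat_lit 0x8017985b4) (nat_lit 536870912),
  Rx.mk (nat_lit 208) (nat_lit 0) (nat_lit 2) (nat_lit 3) (nat_lit 6) (nat_lit 294) (nat_lit 162) r10_294 r2_162 (nat_lit 26181532) (nat_lit 0) (nat_lit 0) (nat_lit 0x7fe1525fe) (nat_lit 566368444),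
  Rx.mk (nat_lit 209) (nat_lit 1) (nat_lit 2) (nat_lit 3) (nat_lit 7) (nat_lit 297) (nat_lit 163) r10_297 r2_163 (nat_lit 0) (nat_lit 0) (nat_lit 0) (nat_lit 0x8017985b4) (nat_lit 536870912),
  Rx.mk (nat_lit 211) (nat_lit 3) (nat_lit 2) (nat_lit 3) (nat_lit 7) (nat_lit 298) (nat_lit 164) r10_298 r2_164 (nat_lit 0) (nat_lit 0) (nat_lit 0) (nat_lit 0x8017985b4) (nat_lit 536870912)]
noncomputable def e54_41 : List Rx := [
  Rx.mk (nat_lit 16) (nat_lit 0) (nat_lit 2) (nat_lit 0) (nat_lit 2) (nat_lit 304) (nat_lit 136) r10_304 r9_136 (nat_lit 40997444) (nat_lit 0) (nat_lit 28731315) (nat_lit 0x62fe769f4) (nat_lit 1076357921),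
  Rx.mk (nat_lit 17) (nat_lit 1) (nat_lit 2) (nat_lit 0) (nat_lit 3) (nat_lit 308) (nat_lit 137) r10_308 r9_137 (nat_lit 0) (nat_lit 0) (nat_lit 24741287) (nat_lit 0x8017985b4) (nat_lit 561612199),
  Rx.mk (nat_lit 144) (nat_lit 0) (nat_lit 2) (nat_lit 2) (nat_lit 6) (nat_lit 305) (nat_lit 141) r10_305 r9_141 (nat_lit 24741287) (nat_lit 0) (nat_lit 0) (nat_lit 0x7fcd6a76c) (nat_lit 566141199),
  Rx.mk (nat_lit 145) (nat_lit 1) (nat_lit 2) (nat_lit 2) (nat_lit 7) (nat_lit 309) (nat_lit 142) r10_309 r9_142 (nat_lit 0) (nat_lit 0) (nat_lit 0) (nat_lit 0x8017985b4) (nat_lit 536870912),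
  Rx.mk (nat_lit 176) (nat_lit 0) (nat_lit 6) (nat_lit 2) (nat_lit 6) (nat_lit 306) (nat_lit 143) r10_306 r9_143 (nat_lit 24741287) (nat_lit 0) (nat_lit 0) (nat_lit 0x7fffebc7c) (nat_lit 563058399),
  Rx.mk (nat_lit 177) (nat_lit 1) (nat_lit 6) (nat_lit 2) (nat_lit 7) (nat_lit 310) (nat_lit 144) r10_310 r9_144 (nat_lit 0) (nat_lit 0) (nat_lit 0) (nat_lit 0x8017985b4) (nat_lit 536870912),
  Rx.mk (nat_lit 178) (nat_lit 2) (nat_lit 6) (nat_lit 2) (nat_lit 7) (nat_lit 312) (nat_lit 145) r10_312 r9_145 (nat_lit 0) (nat_lit 0) (nat_lit 0) (nat_lit 0x8017985b4) (nat_lit 536870912),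
  Rx.mk (nat_lit 208) (nat_lit 0) (nat_lit 2) (nat_lit 3) (nat_lit 6) (nat_lit 307) (nat_lit 138) r10_307 r9_138 (nat_lit 25252468) (nat_lit 0) (nat_lit 0) (nat_lit 0x7fd0be0b2) (nat_lit 566460430),
  Rx.mk (nat_lit 209) (nat_lit 1) (nat_lit 2) (nat_lit 3) (nat_lit 7) (nat_lit 311) (nat_lit 139) r10_311 r9_139 (nat_lit 0) (nat_lit 0) (nat_lit 0) (nat_lit 0x8017985b4) (nat_lit 536870912),
  Rx.mk (nat_lit 211) (nat_lit 3) (nat_lit 2) (nat_lit 3) (nat_lit 7) (nat_lit 313) (nat_lit 140) r10_313 r9_140 (nat_lit 0) (nat_lit 0) (nat_lit 0) (nat_lit 0x8017985b4) (nat_lit 536870912)]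
noncomputable def e54_42 : List Rx := [
  Rx.mk (nat_lit 16) (nat_lit 0) (nat_lit 2) (nat_lit 0) (nat_lit 2) (nat_lit 299) (nat_lit 209) r10_299 r9_209 (nat_lit 65106199) (nat_lit 0) (nat_lit 34942940) (nat_lit 0x66b1feea6) (nat_lit 1046829251),
  Rx.mk (nat_lit 17) (nat_lit 1) (nat_lit 2) (nat_lit 0) (nat_lit 3) (nat_lit 301) (nat_lit 210) r10_301 r9_210 (nat_lit 0) (nat_lit 0) (nat_lit 25290688) (nat_lit 0x800987e2a) (nat_lit 563020650),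
  Rx.mk (nat_lit 81) (nat_lit 1) (nat_lit 2) (nat_lit 1) (nat_lit 7) (nat_lit 302) (nat_lit 211) r10_302 r9_211 (nat_lit 0) (nat_lit 0) (nat_lit 0) (nat_lit 0x8017985b4) (nat_lit 536870912),
  Rx.mk (nat_lit 144) (nat_lit 0) (nat_lit 2) (nat_lit 2) (nat_lit 6) (nat_lit 300) (nat_lit 212) r10_300 r9_212 (nat_lit 24741287) (nat_lit 0) (nat_lit 0) (nat_lit 0x8017985b4) (nat_lit 561612199),
  Rx.mk (nat_lit 145) (nat_lit 1) (nat_lit 2) (nat_lit 2) (nat_lit 7) (nat_lit 303) (nat_lit 213) r10_303 r9_213 (nat_lit 0) (nat_lit 0) (nat_lit 0) (nat_lit 0x8017985b4) (nat_lit 536870912)]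
noncomputable def e54_43 : List Rx := [
  Rx.mk (nat_lit 16) (nat_lit 0) (nat_lit 2) (nat_lit 0) (nat_lit 2) (nat_lit 96) (nat_lit 161) r10_96 r1_161 (nat_lit 15183139) (nat_lit 0) (nat_lit 22829563) (nat_lit 0x6e1d4f8f2) (nat_lit 864770414),
  Rx.mk (nat_lit 19) (nat_lit 3) (nat_lit 2) (nat_lit 0) (nat_lit 3) (nat_lit 98) (nat_lit 162) r10_98 r1_162 (nat_lit 0) (nat_lit 0) (nat_lit 24741287) (nat_lit 0x7fca1d474) (nat_lit 566365499),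
  Rx.mk (nat_lit 144) (nat_lit 0) (nat_lit 2) (nat_lit 2) (nat_lit 6) (nat_lit 97) (nat_lit 164) r10_97 r1_164 (nat_lit 9818448) (nat_lit 0) (nat_lit 0) (nat_lit 0x77a95bc0c) (nat_lit 682197510),
  Rx.mk (nat_lit 147) (nat_lit 3) (nat_lit 2) (nat_lit 2) (nat_lit 7) (nat_lit 99) (nat_lit 165) r10_99 r1_165 (nat_lit 0) (nat_lit 0) (nat_lit 0) (nat_lit 0x804a4b9b6) (nat_lit 533752062),
  Rx.mk (nat_lit 211) (nat_lit 3) (nat_lit 2) (nat_lit 3) (nat_lit 7) (nat_lit 100) (nat_lit 163) r10_100 r1_163 (nat_lit 0) (nat_lit 0) (nat_lit 0) (nat_lit 0x8017985b4) (nat_lit 536870912)]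
noncomputable def e54_44 : List Rx := [
  Rx.mk (nat_lit 16) (nat_lit 0) (nat_lit 2) (nat_lit 0) (nat_lit 2) (nat_lit 101) (nat_lit 149) r10_101 r8_149 (nat_lit 25194848) (nat_lit 0) (nat_lit 27532938) (nat_lit 0x6502bec76) (nat_lit 1026751498),
  Rx.mk (nat_lit 19) (nat_lit 3) (nat_lit 2) (nat_lit 0) (nat_lit 3) (nat_lit 106) (nat_lit 152) r10_106 r8_152 (nat_lit 0) (nat_lit 0) (nat_lit 24741287) (nat_lit 0x7fc74cd8a) (nat_lit 566520649),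
  Rx.mk (nat_lit 144) (nat_lit 0) (nat_lit 2) (nat_lit 2) (nat_lit 6) (nat_lit 102) (nat_lit 151) r10_102 r8_151 (nat_lit 24741287) (nat_lit 0) (nat_lit 0) (nat_lit 0x80046e510) (nat_lit 562785099),
  Rx.mk (nat_lit 147) (nat_lit 3) (nat_lit 2) (nat_lit 2) (nat_lit 7) (nat_lit 107) (nat_lit 154) r10_107 r8_154 (nat_lit 0) (nat_lit 0) (nat_lit 0) (nat_lit 0x8017985b4) (nat_lit 536870912),
  Rx.mk (nat_lit 176) (nat_lit 0) (nat_lit 6) (nat_lit 2) (nat_lit 6) (nat_lit 103) (nat_lit 150) r10_103 r8_150 (nat_lit 24741287) (nat_lit 0) (nat_lit 0) (nat_lit 0x8006a3cfe) (nat_lit 562650649),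
  Rx.mk (nat_lit 178) (nat_lit 2) (nat_lit 6) (nat_lit 2) (nat_lit 7) (nat_lit 104) (nat_lit 156) r10_104 r8_156 (nat_lit 0) (nat_lit 0) (nat_lit 0) (nat_lit 0x8017985b4) (nat_lit 536870912),
  Rx.mk (nat_lit 211) (nat_lit 3) (nat_lit 2) (nat_lit 3) (nat_lit 7) (nat_lit 108) (nat_lit 153) r10_108 r8_153 (nat_lit 0) (nat_lit 0) (nat_lit 0) (nat_lit 0x8017985b4) (nat_lit 536870912),
  Rx.mk (nat_lit 434) (nat_lit 2) (nat_lit 6) (nat_lit 6) (nat_lit 7) (nat_lit 105) (nat_lit 155) r10_105 r8_155 (nat_lit 0) (nat_lit 0) (nat_lit 0) (nat_lit 0x8017985b4) (nat_lit 536870912)]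
noncomputable def e54_45 : List Rx := [
  Rx.mk (nat_lit 294) (nat_lit 6) (nat_lit 4) (nat_lit 4) (nat_lit 1) (nat_lit 5) (nat_lit 161) r10_5 r1_161 (nat_lit 0) (nat_lit 15183139) (nat_lit 22829563) (nat_lit 0x6e1d4f8f2) (nat_lit 864770414),
  Rx.mk (nat_lit 318) (nat_lit 6) (nat_lit 7) (nat_lit 4) (nat_lit 3) (nat_lit 6) (nat_lit 162) r10_6 r1_162 (nat_lit 0) (nat_lit 0) (nat_lit 24741287) (nat_lit 0x7fca1d474) (nat_lit 566365499),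
  Rx.mk (nat_lit 422) (nat_lit 6) (nat_lit 4) (nat_lit 6) (nat_lit 5) (nat_lit 7) (nat_lit 164) r10_7 r1_164 (nat_lit 0) (nat_lit 9818448) (nat_lit 0) (nat_lit 0x77a95bc0c) (nat_lit 682197510),
  Rx.mk (nat_lit 446) (nat_lit 6) (nat_lit 7) (nat_lit 6) (nat_lit 7) (nat_lit 8) (nat_lit 165) r10_8 r1_165 (nat_lit 0) (nat_lit 0) (nat_lit 0) (nat_lit 0x804a4b9b6) (nat_lit 533752062),
  Rx.mk (nat_lit 510) (nat_lit 6) (nat_lit 7) (nat_lit 7) (nat_lit 7) (nat_lit 9) (nat_lit 163) r10_9 r1_163 (nat_lit 0) (nat_lit 0) (nat_lit 0) (nat_lit 0x8017985b4) (nat_lit 536870912)]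
noncomputable def e54_46 : List Rx := [
  Rx.mk (nat_lit 294) (nat_lit 6) (nat_lit 4) (nat_lit 4) (nat_lit 1) (nat_lit 10) (nat_lit 160) r10_10 r2_160 (nat_lit 0) (nat_lit 13507056) (nat_lit 10828370) (nat_lit 0x67d645c8c) (nat_lit 952582088),
  Rx.mk (nat_lit 302) (nat_lit 6) (nat_lit 5) (nat_lit 4) (nat_lit 3) (nat_lit 11) (nat_lit 161) r10_11 r2_161 (nat_lit 0) (nat_lit 0) (nat_lit 24741287) (nat_lit 0x8017985b4) (nat_lit 561612199),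
  Rx.mk (nat_lit 422) (nat_lit 6) (nat_lit 4) (nat_lit 6) (nat_lit 5) (nat_lit 12) (nat_lit 165) r10_12 r2_165 (nat_lit 0) (nat_lit 24741287) (nat_lit 0) (nat_lit 0x8017985b4) (nat_lit 561612199),
  Rx.mk (nat_lit 430) (nat_lit 6) (nat_lit 5) (nat_lit 6) (nat_lit 7) (nat_lit 13) (nat_lit 166) r10_13 r2_166 (nat_lit 0) (nat_lit 0) (nat_lit 0) (nat_lit 0x8017985b4) (nat_lit 536870912),
  Rx.mk (nat_lit 486) (nat_lit 6) (nat_lit 4) (nat_lit 7) (nat_lit 5) (nat_lit 14) (nat_lit 162) r10_14 r2_162 (nat_lit 0) (nat_lit 26181532) (nat_lit 0) (nat_lit 0x7fe1525fe) (nat_lit 566368444),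
  Rx.mk (nat_lit 494) (nat_lit 6) (nat_lit 5) (nat_lit 7) (nat_lit 7) (nat_lit 15) (nat_lit 163) r10_15 r2_163 (nat_lit 0) (nat_lit 0) (nat_lit 0) (nat_lit 0x8017985b4) (nat_lit 536870912),
  Rx.mk (nat_lit 510) (nat_lit 6) (nat_lit 7) (nat_lit 7) (nat_lit 7) (nat_lit 16) (nat_lit 164) r10_16 r2_164 (nat_lit 0) (nat_lit 0) (nat_lit 0) (nat_lit 0x8017985b4) (nat_lit 536870912)]
noncomputable def e54_47 : List Rx := [
  Rx.mk (nat_lit 178) (nat_lit 2) (nat_lit 6) (nat_lit 2) (nat_lit 7) (nat_lit 109) (nat_lit 155) r10_109 r8_155 (nat_lit 0) (nat_lit 0) (nat_lit 0) (nat_lit 0x8017985b4) (nat_lit 536870912),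
  Rx.mk (nat_lit 294) (nat_lit 6) (nat_lit 4) (nat_lit 4) (nat_lit 1) (nat_lit 112) (nat_lit 149) r10_112 r8_149 (nat_lit 0) (nat_lit 25194848) (nat_lit 27532938) (nat_lit 0x6502bec76) (nat_lit 1026751498),
  Rx.mk (nat_lit 318) (nat_lit 6) (nat_lit 7) (nat_lit 4) (nat_lit 3) (nat_lit 113) (nat_lit 152) r10_113 r8_152 (nat_lit 0) (nat_lit 0) (nat_lit 24741287) (nat_lit 0x7fc74cd8a) (nat_lit 566520649),
  Rx.mk (nat_lit 418) (nat_lit 2) (nat_lit 4) (nat_lit 6) (nat_lit 5) (nat_lit 110) (nat_lit 150) r10_110 r8_150 (nat_lit 0) (nat_lit 24741287) (nat_lit 0) (nat_lit 0x8006a3cfe) (nat_lit 562650649),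
  Rx.mk (nat_lit 422) (nat_lit 6) (nat_lit 4) (nat_lit 6) (nat_lit 5) (nat_lit 114) (nat_lit 151) r10_114 r8_151 (nat_lit 0) (nat_lit 24741287) (nat_lit 0) (nat_lit 0x80046e510) (nat_lit 562785099),
  Rx.mk (nat_lit 434) (nat_lit 2) (nat_lit 6) (nat_lit 6) (nat_lit 7) (nat_lit 111) (nat_lit 156) r10_111 r8_156 (nat_lit 0) (nat_lit 0) (nat_lit 0) (nat_lit 0x8017985b4) (nat_lit 536870912),
  Rx.mk (nat_lit 446) (nat_lit 6) (nat_lit 7) (nat_lit 6) (nat_lit 7) (nat_lit 115) (nat_lit 154) r10_115 r8_154 (nat_lit 0) (nat_lit 0) (nat_lit 0) (nat_lit 0x8017985b4) (nat_lit 536870912),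
  Rx.mk (nat_lit 510) (nat_lit 6) (nat_lit 7) (nat_lit 7) (nat_lit 7) (nat_lit 116) (nat_lit 153) r10_116 r8_153 (nat_lit 0) (nat_lit 0) (nat_lit 0) (nat_lit 0x8017985b4) (nat_lit 536870912)]
noncomputable def e54_48 : List Rx := [
  Rx.mk (nat_lit 294) (nat_lit 6) (nat_lit 4) (nat_lit 4) (nat_lit 1) (nat_lit 120) (nat_lit 136) r10_120 r9_136 (nat_lit 0) (nat_lit 40997444) (nat_lit 28731315) (nat_lit 0x62fe769f4) (nat_lit 1076357921),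
  Rx.mk (nat_lit 302) (nat_lit 6) (nat_lit 5) (nat_lit 4) (nat_lit 3) (nat_lit 121) (nat_lit 137) r10_121 r9_137 (nat_lit 0) (nat_lit 0) (nat_lit 24741287) (nat_lit 0x8017985b4) (nat_lit 561612199),
  Rx.mk (nat_lit 418) (nat_lit 2) (nat_lit 4) (nat_lit 6) (nat_lit 5) (nat_lit 117) (nat_lit 143) r10_117 r9_143 (nat_lit 0) (nat_lit 24741287) (nat_lit 0) (nat_lit 0x7fffebc7c) (nat_lit 563058399),
  Rx.mk (nat_lit 422) (nat_lit 6) (nat_lit 4) (nat_lit 6) (nat_lit 5) (nat_lit 122) (nat_lit 141) r10_122 r9_141 (nat_lit 0) (nat_lit 24741287) (nat_lit 0) (nat_lit 0x7fcd6a76c) (nat_lit 566141199),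
  Rx.mk (nat_lit 426) (nat_lit 2) (nat_lit 5) (nat_lit 6) (nat_lit 7) (nat_lit 118) (nat_lit 144) r10_118 r9_144 (nat_lit 0) (nat_lit 0) (nat_lit 0) (nat_lit 0x8017985b4) (nat_lit 536870912),
  Rx.mk (nat_lit 430) (nat_lit 6) (nat_lit 5) (nat_lit 6) (nat_lit 7) (nat_lit 123) (nat_lit 142) r10_123 r9_142 (nat_lit 0) (nat_lit 0) (nat_lit 0) (nat_lit 0x8017985b4) (nat_lit 536870912),
  Rx.mk (nat_lit 434) (nat_lit 2) (nat_lit 6) (nat_lit 6) (nat_lit 7) (nat_lit 119) (nat_lit 145) r10_119 r9_145 (nat_lit 0) (nat_lit 0) (nat_lit 0) (nat_lit 0x8017985b4) (nat_lit 536870912),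
  Rx.mk (nat_lit 486) (nat_lit 6) (nat_lit 4) (nat_lit 7) (nat_lit 5) (nat_lit 124) (nat_lit 138) r10_124 r9_138 (nat_lit 0) (nat_lit 25252468) (nat_lit 0) (nat_lit 0x7fd0be0b2) (nat_lit 566460430),
  Rx.mk (nat_lit 494) (nat_lit 6) (nat_lit 5) (nat_lit 7) (nat_lit 7) (nat_lit 125) (nat_lit 139) r10_125 r9_139 (nat_lit 0) (nat_lit 0) (nat_lit 0) (nat_lit 0x8017985b4) (nat_lit 536870912),
  Rx.mk (nat_lit 510) (nat_lit 6) (nat_lit 7) (nat_lit 7) (nat_lit 7) (nat_lit 126) (nat_lit 140) r10_126 r9_140 (nat_lit 0) (nat_lit 0) (nat_lit 0) (nat_lit 0x8017985b4) (nat_lit 536870912)]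
noncomputable def e54_49 : List Rx := [
  Rx.mk (nat_lit 294) (nat_lit 6) (nat_lit 4) (nat_lit 4) (nat_lit 1) (nat_lit 161) (nat_lit 209) r10_161 r9_209 (nat_lit 0) (nat_lit 65106199) (nat_lit 34942940) (nat_lit 0x66b1feea6) (nat_lit 1046829251),
  Rx.mk (nat_lit 302) (nat_lit 6) (nat_lit 5) (nat_lit 4) (nat_lit 3) (nat_lit 162) (nat_lit 210) r10_162 r9_210 (nat_lit 0) (nat_lit 0) (nat_lit 25290688) (nat_lit 0x800987e2a) (nat_lit 563020650),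
  Rx.mk (nat_lit 366) (nat_lit 6) (nat_lit 5) (nat_lit 5) (nat_lit 7) (nat_lit 163) (nat_lit 211) r10_163 r9_211 (nat_lit 0) (nat_lit 0) (nat_lit 0) (nat_lit 0x8017985b4) (nat_lit 536870912),
  Rx.mk (nat_lit 422) (nat_lit 6) (nat_lit 4) (nat_lit 6) (nat_lit 5) (nat_lit 164) (nat_lit 212) r10_164 r9_212 (nat_lit 0) (nat_lit 24741287) (nat_lit 0) (nat_lit 0x8017985b4) (nat_lit 561612199),
  Rx.mk (nat_lit 430) (nat_lit 6) (nat_lit 5) (nat_lit 6) (nat_lit 7) (nat_lit 165) (nat_lit 213) r10_165 r9_213 (nat_lit 0) (nat_lit 0) (nat_lit 0) (nat_lit 0x8017985b4) (nat_lit 536870912)]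
noncomputable def e54_50 : List Rx := [
  Rx.mk (nat_lit 199) (nat_lit 7) (nat_lit 0) (nat_lit 3) (nat_lit 5) (nat_lit 19) (nat_lit 135) r10_19 r3_135 (nat_lit 0) (nat_lit 427823) (nat_lit 0) (nat_lit 0x86254ad0a) (nat_lit 443762085),
  Rx.mk (nat_lit 215) (nat_lit 7) (nat_lit 2) (nat_lit 3) (nat_lit 7) (nat_lit 20) (nat_lit 137) r10_20 r3_137 (nat_lit 0) (nat_lit 0) (nat_lit 0) (nat_lit 0x86cf556ec) (nat_lit 433675662),
  Rx.mk (nat_lit 223) (nat_lit 7) (nat_lit 3) (nat_lit 3) (nat_lit 7) (nat_lit 21) (nat_lit 136) r10_21 r3_136 (nat_lit 0) (nat_lit 0) (nat_lit 0) (nat_lit 0x809e38c5e) (nat_lit 528622162),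
  Rx.mk (nat_lit 476) (nat_lit 4) (nat_lit 3) (nat_lit 7) (nat_lit 6) (nat_lit 17) (nat_lit 133) r10_17 r3_133 (nat_lit 427823) (nat_lit 0) (nat_lit 0) (nat_lit 0x86254ad0a) (nat_lit 443762085),
  Rx.mk (nat_lit 478) (nat_lit 6) (nat_lit 3) (nat_lit 7) (nat_lit 7) (nat_lit 18) (nat_lit 138) r10_18 r3_138 (nat_lit 0) (nat_lit 0) (nat_lit 0) (nat_lit 0x86cf556ec) (nat_lit 433675662),
  Rx.mk (nat_lit 479) (nat_lit 7) (nat_lit 3) (nat_lit 7) (nat_lit 7) (nat_lit 22) (nat_lit 134) r10_22 r3_134 (nat_lit 0) (nat_lit 0) (nat_lit 0) (nat_lit 0x809e38c5e) (nat_lit 528622162)]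
noncomputable def e54_51 : List Rx := [
  Rx.mk (nat_lit 199) (nat_lit 7) (nat_lit 0) (nat_lit 3) (nat_lit 5) (nat_lit 28) (nat_lit 136) r10_28 r4_136 (nat_lit 0) (nat_lit 12224820) (nat_lit 0) (nat_lit 0x806946df2) (nat_lit 544040032),
  Rx.mk (nat_lit 215) (nat_lit 7) (nat_lit 2) (nat_lit 3) (nat_lit 7) (nat_lit 29) (nat_lit 138) r10_29 r4_138 (nat_lit 0) (nat_lit 0) (nat_lit 0) (nat_lit 0x804468c56) (nat_lit 534115312),
  Rx.mk (nat_lit 223) (nat_lit 7) (nat_lit 3) (nat_lit 3) (nat_lit 7) (nat_lit 30) (nat_lit 137) r10_30 r4_137 (nat_lit 0) (nat_lit 0) (nat_lit 0) (nat_lit 0x8017985b4) (nat_lit 536870912),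
  Rx.mk (nat_lit 318) (nat_lit 6) (nat_lit 7) (nat_lit 4) (nat_lit 3) (nat_lit 24) (nat_lit 139) r10_24 r4_139 (nat_lit 0) (nat_lit 0) (nat_lit 24676068) (nat_lit 0x7e8afe690) (nat_lit 586102830),
  Rx.mk (nat_lit 446) (nat_lit 6) (nat_lit 7) (nat_lit 6) (nat_lit 7) (nat_lit 25) (nat_lit 142) r10_25 r4_142 (nat_lit 0) (nat_lit 0) (nat_lit 0) (nat_lit 0x8017985b4) (nat_lit 536870912),
  Rx.mk (nat_lit 476) (nat_lit 4) (nat_lit 3) (nat_lit 7) (nat_lit 6) (nat_lit 23) (nat_lit 134) r10_23 r4_134 (nat_lit 19244630) (nat_lit 0) (nat_lit 0) (nat_lit 0x801080380) (nat_lit 556512792),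
  Rx.mk (nat_lit 478) (nat_lit 6) (nat_lit 3) (nat_lit 7) (nat_lit 7) (nat_lit 26) (nat_lit 141) r10_26 r4_141 (nat_lit 0) (nat_lit 0) (nat_lit 0) (nat_lit 0x8017985b4) (nat_lit 536870912),
  Rx.mk (nat_lit 479) (nat_lit 7) (nat_lit 3) (nat_lit 7) (nat_lit 7) (nat_lit 31) (nat_lit 135) r10_31 r4_135 (nat_lit 0) (nat_lit 0) (nat_lit 0) (nat_lit 0x8017985b4) (nat_lit 536870912),
  Rx.mk (nat_lit 510) (nat_lit 6) (nat_lit 7) (nat_lit 7) (nat_lit 7) (nat_lit 27) (nat_lit 140) r10_27 r4_140 (nat_lit 0) (nat_lit 0) (nat_lit 0) (nat_lit 0x809f243f2) (nat_lit 528567662)]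
noncomputable def e54_52 : List Rx := [
  Rx.mk (nat_lit 199) (nat_lit 7) (nat_lit 0) (nat_lit 3) (nat_lit 5) (nat_lit 34) (nat_lit 137) r10_34 r5_137 (nat_lit 0) (nat_lit 5865404) (nat_lit 0) (nat_lit 0x7ef7589d0) (nat_lit 560306366),
  Rx.mk (nat_lit 215) (nat_lit 7) (nat_lit 2) (nat_lit 3) (nat_lit 7) (nat_lit 35) (nat_lit 138) r10_35 r5_138 (nat_lit 0) (nat_lit 0) (nat_lit 0) (nat_lit 0x815de8a72) (nat_lit 517001212),
  Rx.mk (nat_lit 455) (nat_lit 7) (nat_lit 0) (nat_lit 7) (nat_lit 5) (nat_lit 36) (nat_lit 135) r10_36 r5_135 (nat_lit 0) (nat_lit 16735369) (nat_lit 0) (nat_lit 0x79b416a78) (nat_lit 656180481),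
  Rx.mk (nat_lit 476) (nat_lit 4) (nat_lit 3) (nat_lit 7) (nat_lit 6) (nat_lit 32) (nat_lit 134) r10_32 r5_134 (nat_lit 6614420) (nat_lit 0) (nat_lit 0) (nat_lit 0x81f9ff474) (nat_lit 514154582),
  Rx.mk (nat_lit 478) (nat_lit 6) (nat_lit 3) (nat_lit 7) (nat_lit 7) (nat_lit 33) (nat_lit 139) r10_33 r5_139 (nat_lit 0) (nat_lit 0) (nat_lit 0) (nat_lit 0x80c39fc54) (nat_lit 526340012),
  Rx.mk (nat_lit 479) (nat_lit 7) (nat_lit 3) (nat_lit 7) (nat_lit 7) (nat_lit 37) (nat_lit 136) r10_37 r5_136 (nat_lit 0) (nat_lit 0) (nat_lit 0) (nat_lit 0x8017985b4) (nat_lit 536870912)]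
noncomputable def e54_53 : List Rx := [
  Rx.mk (nat_lit 19) (nat_lit 3) (nat_lit 2) (nat_lit 0) (nat_lit 3) (nat_lit 127) (nat_lit 139) r10_127 r4_139 (nat_lit 0) (nat_lit 0) (nat_lit 24676068) (nat_lit 0x7e8afe690) (nat_lit 586102830),
  Rx.mk (nat_lit 147) (nat_lit 3) (nat_lit 2) (nat_lit 2) (nat_lit 7) (nat_lit 128) (nat_lit 142) r10_128 r4_142 (nat_lit 0) (nat_lit 0) (nat_lit 0) (nat_lit 0x8017985b4) (nat_lit 536870912),
  Rx.mk (nat_lit 199) (nat_lit 7) (nat_lit 0) (nat_lit 3) (nat_lit 5) (nat_lit 132) (nat_lit 134) r10_132 r4_134 (nat_lit 0) (nat_lit 19244630) (nat_lit 0) (nat_lit 0x801080380) (nat_lit 556512792),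
  Rx.mk (nat_lit 211) (nat_lit 3) (nat_lit 2) (nat_lit 3) (nat_lit 7) (nat_lit 129) (nat_lit 140) r10_129 r4_140 (nat_lit 0) (nat_lit 0) (nat_lit 0) (nat_lit 0x809f243f2) (nat_lit 528567662),
  Rx.mk (nat_lit 215) (nat_lit 7) (nat_lit 2) (nat_lit 3) (nat_lit 7) (nat_lit 133) (nat_lit 141) r10_133 r4_141 (nat_lit 0) (nat_lit 0) (nat_lit 0) (nat_lit 0x8017985b4) (nat_lit 536870912),
  Rx.mk (nat_lit 223) (nat_lit 7) (nat_lit 3) (nat_lit 3) (nat_lit 7) (nat_lit 134) (nat_lit 135) r10_134 r4_135 (nat_lit 0) (nat_lit 0) (nat_lit 0) (nat_lit 0x8017985b4) (nat_lit 536870912),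
  Rx.mk (nat_lit 476) (nat_lit 4) (nat_lit 3) (nat_lit 7) (nat_lit 6) (nat_lit 130) (nat_lit 136) r10_130 r4_136 (nat_lit 12224820) (nat_lit 0) (nat_lit 0) (nat_lit 0x806946df2) (nat_lit 544040032),
  Rx.mk (nat_lit 478) (nat_lit 6) (nat_lit 3) (nat_lit 7) (nat_lit 7) (nat_lit 131) (nat_lit 138) r10_131 r4_138 (nat_lit 0) (nat_lit 0) (nat_lit 0) (nat_lit 0x804468c56) (nat_lit 534115312),
  Rx.mk (nat_lit 479) (nat_lit 7) (nat_lit 3) (nat_lit 7) (nat_lit 7) (nat_lit 135) (nat_lit 137) r10_135 r4_137 (nat_lit 0) (nat_lit 0) (nat_lit 0) (nat_lit 0x8017985b4) (nat_lit 536870912)]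
noncomputable def e54_54 : List Rx := [
  Rx.mk (nat_lit 19) (nat_lit 3) (nat_lit 2) (nat_lit 0) (nat_lit 3) (nat_lit 141) (nat_lit 146) r10_141 r10_146 (nat_lit 0) (nat_lit 0) (nat_lit 12670382) (nat_lit 0x7eae7fcf4) (nat_lit 571834594),
  Rx.mk (nat_lit 147) (nat_lit 3) (nat_lit 2) (nat_lit 2) (nat_lit 7) (nat_lit 142) (nat_lit 149) r10_142 r10_149 (nat_lit 0) (nat_lit 0) (nat_lit 0) (nat_lit 0x8017985b4) (nat_lit 536870912),
  Rx.mk (nat_lit 176) (nat_lit 0) (nat_lit 6) (nat_lit 2) (nat_lit 6) (nat_lit 136) (nat_lit 145) r10_136 r10_145 (nat_lit 5487991) (nat_lit 0) (nat_lit 0) (nat_lit 0x7daf29de0) (nat_lit 580522453),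
  Rx.mk (nat_lit 178) (nat_lit 2) (nat_lit 6) (nat_lit 2) (nat_lit 7) (nat_lit 137) (nat_lit 153) r10_137 r10_153 (nat_lit 0) (nat_lit 0) (nat_lit 0) (nat_lit 0x8017985b4) (nat_lit 536870912),
  Rx.mk (nat_lit 179) (nat_lit 3) (nat_lit 6) (nat_lit 2) (nat_lit 7) (nat_lit 143) (nat_lit 148) r10_143 r10_148 (nat_lit 0) (nat_lit 0) (nat_lit 0) (nat_lit 0x8017985b4) (nat_lit 536870912),
  Rx.mk (nat_lit 199) (nat_lit 7) (nat_lit 0) (nat_lit 3) (nat_lit 5) (nat_lit 150) (nat_lit 138) r10_150 r10_138 (nat_lit 0) (nat_lit 5487991) (nat_lit 0) (nat_lit 0x7daf29de0) (nat_lit 580522453),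
  Rx.mk (nat_lit 211) (nat_lit 3) (nat_lit 2) (nat_lit 3) (nat_lit 7) (nat_lit 144) (nat_lit 147) r10_144 r10_147 (nat_lit 0) (nat_lit 0) (nat_lit 0) (nat_lit 0x8017985b4) (nat_lit 536870912),
  Rx.mk (nat_lit 215) (nat_lit 7) (nat_lit 2) (nat_lit 3) (nat_lit 7) (nat_lit 151) (nat_lit 140) r10_151 r10_140 (nat_lit 0) (nat_lit 0) (nat_lit 0) (nat_lit 0x8017985b4) (nat_lit 536870912),
  Rx.mk (nat_lit 223) (nat_lit 7) (nat_lit 3) (nat_lit 3) (nat_lit 7) (nat_lit 152) (nat_lit 139) r10_152 r10_139 (nat_lit 0) (nat_lit 0) (nat_lit 0) (nat_lit 0x8017985b4) (nat_lit 536870912),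
  Rx.mk (nat_lit 318) (nat_lit 6) (nat_lit 7) (nat_lit 4) (nat_lit 3) (nat_lit 146) (nat_lit 141) r10_146 r10_141 (nat_lit 0) (nat_lit 0) (nat_lit 12670382) (nat_lit 0x7eae7fcf4) (nat_lit 571834594),
  Rx.mk (nat_lit 418) (nat_lit 2) (nat_lit 4) (nat_lit 6) (nat_lit 5) (nat_lit 138) (nat_lit 150) r10_138 r10_150 (nat_lit 0) (nat_lit 5487991) (nat_lit 0) (nat_lit 0x7daf29de0) (nat_lit 580522453),
  Rx.mk (nat_lit 434) (nat_lit 2) (nat_lit 6) (nat_lit 6) (nat_lit 7) (nat_lit 139) (nat_lit 152) r10_139 r10_152 (nat_lit 0) (nat_lit 0) (nat_lit 0) (nat_lit 0x8017985b4) (nat_lit 536870912),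
  Rx.mk (nat_lit 442) (nat_lit 2) (nat_lit 7) (nat_lit 6) (nat_lit 7) (nat_lit 140) (nat_lit 151) r10_140 r10_151 (nat_lit 0) (nat_lit 0) (nat_lit 0) (nat_lit 0x8017985b4) (nat_lit 536870912),
  Rx.mk (nat_lit 446) (nat_lit 6) (nat_lit 7) (nat_lit 6) (nat_lit 7) (nat_lit 147) (nat_lit 144) r10_147 r10_144 (nat_lit 0) (nat_lit 0) (nat_lit 0) (nat_lit 0x8017985b4) (nat_lit 536870912),
  Rx.mk (nat_lit 476) (nat_lit 4) (nat_lit 3) (nat_lit 7) (nat_lit 6) (nat_lit 145) (nat_lit 136) r10_145 r10_136 (nat_lit 5487991) (nat_lit 0) (nat_lit 0) (nat_lit 0x7daf29de0) (nat_lit 580522453),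
  Rx.mk (nat_lit 478) (nat_lit 6) (nat_lit 3) (nat_lit 7) (nat_lit 7) (nat_lit 148) (nat_lit 143) r10_148 r10_143 (nat_lit 0) (nat_lit 0) (nat_lit 0) (nat_lit 0x8017985b4) (nat_lit 536870912),
  Rx.mk (nat_lit 479) (nat_lit 7) (nat_lit 3) (nat_lit 7) (nat_lit 7) (nat_lit 153) (nat_lit 137) r10_153 r10_137 (nat_lit 0) (nat_lit 0) (nat_lit 0) (nat_lit 0x8017985b4) (nat_lit 536870912),
  Rx.mk (nat_lit 510) (nat_lit 6) (nat_lit 7) (nat_lit 7) (nat_lit 7) (nat_lit 149) (nat_lit 142) r10_149 r10_142 (nat_lit 0) (nat_lit 0) (nat_lit 0) (nat_lit 0x8017985b4) (nat_lit 536870912)]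
noncomputable def e54_55 : List Rx := [
  Rx.mk (nat_lit 199) (nat_lit 7) (nat_lit 0) (nat_lit 3) (nat_lit 5) (nat_lit 157) (nat_lit 140) r10_157 r11_140 (nat_lit 0) (nat_lit 24894793) (nat_lit 0) (nat_lit 0x8000a4c72) (nat_lit 563170405),
  Rx.mk (nat_lit 211) (nat_lit 3) (nat_lit 2) (nat_lit 3) (nat_lit 7) (nat_lit 154) (nat_lit 143) r10_154 r11_143 (nat_lit 0) (nat_lit 0) (nat_lit 0) (nat_lit 0x8017985b4) (nat_lit 536870912),
  Rx.mk (nat_lit 215) (nat_lit 7) (nat_lit 2) (nat_lit 3) (nat_lit 7) (nat_lit 158) (nat_lit 141) r10_158 r11_141 (nat_lit 0) (nat_lit 0) (nat_lit 0) (nat_lit 0x8017985b4) (nat_lit 536870912),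
  Rx.mk (nat_lit 455) (nat_lit 7) (nat_lit 0) (nat_lit 7) (nat_lit 5) (nat_lit 159) (nat_lit 138) r10_159 r11_138 (nat_lit 0) (nat_lit 24741287) (nat_lit 0) (nat_lit 0x8017985b4) (nat_lit 561612199),
  Rx.mk (nat_lit 476) (nat_lit 4) (nat_lit 3) (nat_lit 7) (nat_lit 6) (nat_lit 155) (nat_lit 137) r10_155 r11_137 (nat_lit 24741287) (nat_lit 0) (nat_lit 0) (nat_lit 0x8017985b4) (nat_lit 561612199),
  Rx.mk (nat_lit 478) (nat_lit 6) (nat_lit 3) (nat_lit 7) (nat_lit 7) (nat_lit 156) (nat_lit 142) r10_156 r11_142 (nat_lit 0) (nat_lit 0) (nat_lit 0) (nat_lit 0x8017985b4) (nat_lit 536870912),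
  Rx.mk (nat_lit 479) (nat_lit 7) (nat_lit 3) (nat_lit 7) (nat_lit 7) (nat_lit 160) (nat_lit 139) r10_160 r11_139 (nat_lit 0) (nat_lit 0) (nat_lit 0) (nat_lit 0x8017985b4) (nat_lit 536870912)]
noncomputable def e54_56 : List Rx := [
  Rx.mk (nat_lit 199) (nat_lit 7) (nat_lit 0) (nat_lit 3) (nat_lit 5) (nat_lit 215) (nat_lit 134) r10_215 r5_134 (nat_lit 0) (nat_lit 6614420) (nat_lit 0) (nat_lit 0x81f9ff474) (nat_lit 514154582),
  Rx.mk (nat_lit 215) (nat_lit 7) (nat_lit 2) (nat_lit 3) (nat_lit 7) (nat_lit 216) (nat_lit 139) r10_216 r5_139 (nat_lit 0) (nat_lit 0) (nat_lit 0) (nat_lit 0x80c39fc54) (nat_lit 526340012),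
  Rx.mk (nat_lit 220) (nat_lit 4) (nat_lit 3) (nat_lit 3) (nat_lit 6) (nat_lit 212) (nat_lit 135) r10_212 r5_135 (nat_lit 16735369) (nat_lit 0) (nat_lit 0) (nat_lit 0x79b416a78) (nat_lit 656180481),
  Rx.mk (nat_lit 223) (nat_lit 7) (nat_lit 3) (nat_lit 3) (nat_lit 7) (nat_lit 217) (nat_lit 136) r10_217 r5_136 (nat_lit 0) (nat_lit 0) (nat_lit 0) (nat_lit 0x8017985b4) (nat_lit 536870912),
  Rx.mk (nat_lit 476) (nat_lit 4) (nat_lit 3) (nat_lit 7) (nat_lit 6) (nat_lit 213) (nat_lit 137) r10_213 r5_137 (nat_lit 5865404) (nat_lit 0) (nat_lit 0) (nat_lit 0x7ef7589d0) (nat_lit 560306366),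
  Rx.mk (nat_lit 478) (nat_lit 6) (nat_lit 3) (nat_lit 7) (nat_lit 7) (nat_lit 214) (nat_lit 138) r10_214 r5_138 (nat_lit 0) (nat_lit 0) (nat_lit 0) (nat_lit 0x815de8a72) (nat_lit 517001212)]
noncomputable def e54_57 : List Rx := [
  Rx.mk (nat_lit 199) (nat_lit 7) (nat_lit 0) (nat_lit 3) (nat_lit 5) (nat_lit 222) (nat_lit 137) r10_222 r11_137 (nat_lit 0) (nat_lit 24741287) (nat_lit 0) (nat_lit 0x8017985b4) (nat_lit 561612199),
  Rx.mk (nat_lit 215) (nat_lit 7) (nat_lit 2) (nat_lit 3) (nat_lit 7) (nat_lit 223) (nat_lit 142) r10_223 r11_142 (nat_lit 0) (nat_lit 0) (nat_lit 0) (nat_lit 0x8017985b4) (nat_lit 536870912),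
  Rx.mk (nat_lit 220) (nat_lit 4) (nat_lit 3) (nat_lit 3) (nat_lit 6) (nat_lit 218) (nat_lit 138) r10_218 r11_138 (nat_lit 24741287) (nat_lit 0) (nat_lit 0) (nat_lit 0x8017985b4) (nat_lit 561612199),
  Rx.mk (nat_lit 223) (nat_lit 7) (nat_lit 3) (nat_lit 3) (nat_lit 7) (nat_lit 224) (nat_lit 139) r10_224 r11_139 (nat_lit 0) (nat_lit 0) (nat_lit 0) (nat_lit 0x8017985b4) (nat_lit 536870912),
  Rx.mk (nat_lit 476) (nat_lit 4) (nat_lit 3) (nat_lit 7) (nat_lit 6) (nat_lit 219) (nat_lit 140) r10_219 r11_140 (nat_lit 24894793) (nat_lit 0) (nat_lit 0) (nat_lit 0x8000a4c72) (nat_lit 563170405),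
  Rx.mk (nat_lit 478) (nat_lit 6) (nat_lit 3) (nat_lit 7) (nat_lit 7) (nat_lit 220) (nat_lit 141) r10_220 r11_141 (nat_lit 0) (nat_lit 0) (nat_lit 0) (nat_lit 0x8017985b4) (nat_lit 536870912),
  Rx.mk (nat_lit 510) (nat_lit 6) (nat_lit 7) (nat_lit 7) (nat_lit 7) (nat_lit 221) (nat_lit 143) r10_221 r11_143 (nat_lit 0) (nat_lit 0) (nat_lit 0) (nat_lit 0x8017985b4) (nat_lit 536870912)]
noncomputable def e54 : List (List Rx) := [e54_0, e54_1, e54_2, e54_3, e54_4, e54_5, e54_6, e54_7, e54_8, e54_9, e54_10, e54_11, e54_12, e54_13, e54_14, e54_15, e54_16, e54_17, e54_18, e54_19, e54_20, e54_21, e54_22, e54_23, e54_24, e54_25, e54_26, e54_27, e54_28, e54_29, e54_30, e54_31, e54_32, e54_33, e54_34, e54_35, e54_36, e54_37, e54_38, e54_39, e54_40, e54_41, e54_42, e54_43, e54_44, e54_45, e54_46, e54_47, e54_48, e54_49, e54_50, e54_51, e54_52, e54_53, e54_54, e54_55, e54_56,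 e54_57]
noncomputable def e55_0 : List Rx := [
  Rx.mk (nat_lit 21) (nat_lit 5) (nat_lit 2) (nat_lit 0) (nat_lit 3) (nat_lit 298) (nat_lit 328) r11_298 r0_328 (nat_lit 0) (nat_lit 0) (nat_lit 19793988) (nat_lit 0x801bf7722) (nat_lit 556379500),
  Rx.mk (nat_lit 85) (nat_lit 5) (nat_lit 2) (nat_lit 1) (nat_lit 7) (nat_lit 299) (nat_lit 329) r11_299 r0_329 (nat_lit 0) (nat_lit 0) (nat_lit 0) (nat_lit 0x8017985b4) (nat_lit 536870912)]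
noncomputable def e55_1 : List Rx := [
  Rx.mk (nat_lit 85) (nat_lit 5) (nat_lit 2) (nat_lit 1) (nat_lit 7) (nat_lit 338) (nat_lit 310) r11_338 r1_310 (nat_lit 0) (nat_lit 0) (nat_lit 0) (nat_lit 0x8017985b4) (nat_lit 536870912)]
noncomputable def e55_2 : List Rx := [
  Rx.mk (nat_lit 85) (nat_lit 5) (nat_lit 2) (nat_lit 1) (nat_lit 7) (nat_lit 339) (nat_lit 358) r11_339 r2_358 (nat_lit 0) (nat_lit 0) (nat_lit 0) (nat_lit 0x8017985b4) (nat_lit 536870912),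
  Rx.mk (nat_lit 325) (nat_lit 5) (nat_lit 0) (nat_lit 5) (nat_lit 5) (nat_lit 340) (nat_lit 356) r11_340 r2_356 (nat_lit 0) (nat_lit 27655321) (nat_lit 0) (nat_lit 0x7fd1d42f8) (nat_lit 568815833),
  Rx.mk (nat_lit 333) (nat_lit 5) (nat_lit 1) (nat_lit 5) (nat_lit 7) (nat_lit 341) (nat_lit 357) r11_341 r2_357 (nat_lit 0) (nat_lit 0) (nat_lit 0) (nat_lit 0x8017985b4) (nat_lit 536870912),
  Rx.mk (nat_lit 341) (nat_lit 5) (nat_lit 2) (nat_lit 5) (nat_lit 7) (nat_lit 342) (nat_lit 359) r11_342 r2_359 (nat_lit 0) (nat_lit 0) (nat_lit 0) (nat_lit 0x8017985b4) (nat_lit 536870912)]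
noncomputable def e55_3 : List Rx := [
  Rx.mk (nat_lit 21) (nat_lit 5) (nat_lit 2) (nat_lit 0) (nat_lit 3) (nat_lit 351) (nat_lit 331) r11_351 r3_331 (nat_lit 0) (nat_lit 0) (nat_lit 9974206) (nat_lit 0x7a7d1cf58) (nat_lit 636241818),
  Rx.mk (nat_lit 213) (nat_lit 5) (nat_lit 2) (nat_lit 3) (nat_lit 7) (nat_lit 352) (nat_lit 332) r11_352 r3_332 (nat_lit 0) (nat_lit 0) (nat_lit 0) (nat_lit 0x885a32e30) (nat_lit 409617212)]
noncomputable def e55_4 : List Rx := [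
  Rx.mk (nat_lit 21) (nat_lit 5) (nat_lit 2) (nat_lit 0) (nat_lit 3) (nat_lit 353) (nat_lit 363) r11_353 r4_363 (nat_lit 0) (nat_lit 0) (nat_lit 18792813) (nat_lit 0x7fd5d2af8) (nat_lit 559647725),
  Rx.mk (nat_lit 85) (nat_lit 5) (nat_lit 2) (nat_lit 1) (nat_lit 7) (nat_lit 354) (nat_lit 364) r11_354 r4_364 (nat_lit 0) (nat_lit 0) (nat_lit 0) (nat_lit 0x8047a5cb6) (nat_lit 533919512),
  Rx.mk (nat_lit 213) (nat_lit 5) (nat_lit 2) (nat_lit 3) (nat_lit 7) (nat_lit 355) (nat_lit 365) r11_355 r4_365 (nat_lit 0) (nat_lit 0) (nat_lit 0) (nat_lit 0x8026a1380) (nat_lit 535916512)]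
noncomputable def e55_5 : List Rx := [
  Rx.mk (nat_lit 213) (nat_lit 5) (nat_lit 2) (nat_lit 3) (nat_lit 7) (nat_lit 356) (nat_lit 310) r11_356 r5_310 (nat_lit 0) (nat_lit 0) (nat_lit 0) (nat_lit 0x81691ae72) (nat_lit 516102862)]
noncomputable def e55_6 : List Rx := [
  Rx.mk (nat_lit 260) (nat_lit 4) (nat_lit 0) (nat_lit 4) (nat_lit 0) (nat_lit 19) (nat_lit 342) r11_19 r3_342 (nat_lit 122716) (nat_lit 96674) (nat_lit 132111) (nat_lit 0x497316d28) (nat_lit 1419374513),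
  Rx.mk (nat_lit 261) (nat_lit 5) (nat_lit 0) (nat_lit 4) (nat_lit 1) (nat_lit 25) (nat_lit 344) r11_25 r3_344 (nat_lit 0) (nat_lit 3284544) (nat_lit 1291523) (nat_lit 0x652f21fd4) (nat_lit 975280179),
  Rx.mk (nat_lit 262) (nat_lit 6) (nat_lit 0) (nat_lit 4) (nat_lit 1) (nat_lit 31) (nat_lit 346) r11_31 r3_346 (nat_lit 0) (nat_lit 849840) (nat_lit 138609354) (nat_lit 0x69d7f337a) (nat_lit 1034816656),
  Rx.mk (nat_lit 268) (nat_lit 4) (nat_lit 1) (nat_lit 4) (nat_lit 2) (nat_lit 20) (nat_lit 349) r11_20 r3_349 (nat_lit 29295655) (nat_lit 0) (nat_lit 18566817) (nat_lit 0x6eb4eea14) (nat_lit 865039884),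
  Rx.mk (nat_lit 269) (nat_lit 5) (nat_lit 1) (nat_lit 4) (nat_lit 3) (nat_lit 26) (nat_lit 351) r11_26 r3_351 (nat_lit 0) (nat_lit 0) (nat_lit 24741287) (nat_lit 0x8017985b4) (nat_lit 561612199),
  Rx.mk (nat_lit 270) (nat_lit 6) (nat_lit 1) (nat_lit 4) (nat_lit 3) (nat_lit 32) (nat_lit 353) r11_32 r3_353 (nat_lit 0) (nat_lit 0) (nat_lit 29915179) (nat_lit 0x7fe911db2) (nat_lit 569577941),
  Rx.mk (nat_lit 276) (nat_lit 4) (nat_lit 2) (nat_lit 4) (nat_lit 2) (nat_lit 21) (nat_lit 356) r11_21 r3_356 (nat_lit 24848889) (nat_lit 0) (nat_lit 41499232) (nat_lit 0x75df8e2a4) (nat_lit 767700883),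
  Rx.mk (nat_lit 277) (nat_lit 5) (nat_lit 2) (nat_lit 4) (nat_lit 3) (nat_lit 27) (nat_lit 358) r11_27 r3_358 (nat_lit 0) (nat_lit 0) (nat_lit 22959846) (nat_lit 0x7f72d2be2) (nat_lit 569951908),
  Rx.mk (nat_lit 390) (nat_lit 6) (nat_lit 0) (nat_lit 6) (nat_lit 5) (nat_lit 33) (nat_lit 348) r11_33 r3_348 (nat_lit 0) (nat_lit 22698438) (nat_lit 0) (nat_lit 0x801e644f6) (nat_lit 559143350),
  Rx.mk (nat_lit 398) (nat_lit 6) (nat_lit 1) (nat_lit 6) (nat_lit 7) (nat_lit 34) (nat_lit 355) r11_34 r3_355 (nat_lit 0) (nat_lit 0) (nat_lit 0) (nat_lit 0x8017985b4) (nat_lit 536870912),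
  Rx.mk (nat_lit 452) (nat_lit 4) (nat_lit 0) (nat_lit 7) (nat_lit 4) (nat_lit 22) (nat_lit 343) r11_22 r3_343 (nat_lit 5090553) (nat_lit 4459709) (nat_lit 0) (nat_lit 0x6f5ae93ec) (nat_lit 816096324),
  Rx.mk (nat_lit 453) (nat_lit 5) (nat_lit 0) (nat_lit 7) (nat_lit 5) (nat_lit 28) (nat_lit 345) r11_28 r3_345 (nat_lit 0) (nat_lit 13146689) (nat_lit 0) (nat_lit 0x808dd2f86) (nat_lit 542691851),
  Rx.mk (nat_lit 454) (nat_lit 6) (nat_lit 0) (nat_lit 7) (nat_lit 5) (nat_lit 35) (nat_lit 347) r11_35 r3_347 (nat_lit 0) (nat_lit 13744676) (nat_lit 0) (nat_lit 0x808aa0700) (nat_lit 543529688),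
  Rx.mk (nat_lit 460) (nat_lit 4) (nat_lit 1) (nat_lit 7) (nat_lit 6) (nat_lit 23) (nat_lit 350) r11_23 r3_350 (nat_lit 14431981) (nat_lit 0) (nat_lit 0) (nat_lit 0x80cd30a02) (nat_lit 540176893),
  Rx.mk (nat_lit 461) (nat_lit 5) (nat_lit 1) (nat_lit 7) (nat_lit 7) (nat_lit 29) (nat_lit 352) r11_29 r3_352 (nat_lit 0) (nat_lit 0) (nat_lit 0) (nat_lit 0x8017985b4) (nat_lit 536870912),
  Rx.mk (nat_lit 462) (nat_lit 6) (nat_lit 1) (nat_lit 7) (nat_lit 7) (nat_lit 36) (nat_lit 354) r11_36 r3_354 (nat_lit 0) (nat_lit 0) (nat_lit 0) (nat_lit 0x8017985b4) (nat_lit 536870912),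
  Rx.mk (nat_lit 468) (nat_lit 4) (nat_lit 2) (nat_lit 7) (nat_lit 6) (nat_lit 24) (nat_lit 357) r11_24 r3_357 (nat_lit 10849071) (nat_lit 0) (nat_lit 0) (nat_lit 0x7fc617ece) (nat_lit 552588333),
  Rx.mk (nat_lit 469) (nat_lit 5) (nat_lit 2) (nat_lit 7) (nat_lit 7) (nat_lit 30) (nat_lit 359) r11_30 r3_359 (nat_lit 0) (nat_lit 0) (nat_lit 0) (nat_lit 0x8017985b4) (nat_lit 536870912)]
noncomputable def e55_7 : List Rx := [
  Rx.mk (nat_lit 260) (nat_lit 4) (nat_lit 0) (nat_lit 4) (nat_lit 0) (nat_lit 165) (nat_lit 342) r11_165 r0_342 (nat_lit 27528448) (nat_lit 16543091) (nat_lit 61517721) (nat_lit 0x56389a70a) (nat_lit 1318729522),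
  Rx.mk (nat_lit 261) (nat_lit 5) (nat_lit 0) (nat_lit 4) (nat_lit 1) (nat_lit 171) (nat_lit 344) r11_171 r0_344 (nat_lit 0) (nat_lit 84020208) (nat_lit 36871294) (nat_lit 0x783359b98) (nat_lit 784659514),
  Rx.mk (nat_lit 262) (nat_lit 6) (nat_lit 0) (nat_lit 4) (nat_lit 1) (nat_lit 177) (nat_lit 346) r11_177 r0_346 (nat_lit 0) (nat_lit 31505454) (nat_lit 49484385) (nat_lit 0x786492660) (nat_lit 741673001),
  Rx.mk (nat_lit 268) (nat_lit 4) (nat_lit 1) (nat_lit 4) (nat_lit 2) (nat_lit 166) (nat_lit 349) r11_166 r0_349 (nat_lit 151143769) (nat_lit 0) (nat_lit 43084134) (nat_lit 0x7b5af1fae) (nat_lit 807011715),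
  Rx.mk (nat_lit 269) (nat_lit 5) (nat_lit 1) (nat_lit 4) (nat_lit 3) (nat_lit 172) (nat_lit 351) r11_172 r0_351 (nat_lit 0) (nat_lit 0) (nat_lit 24741287) (nat_lit 0x8017985b4) (nat_lit 561612199),
  Rx.mk (nat_lit 270) (nat_lit 6) (nat_lit 1) (nat_lit 4) (nat_lit 3) (nat_lit 178) (nat_lit 353) r11_178 r0_353 (nat_lit 0) (nat_lit 0) (nat_lit 27043959) (nat_lit 0x7fc599f24) (nat_lit 568952071),
  Rx.mk (nat_lit 276) (nat_lit 4) (nat_lit 2) (nat_lit 4) (nat_lit 2) (nat_lit 167) (nat_lit 356) r11_167 r0_356 (nat_lit 40023232) (nat_lit 0) (nat_lit 40023232) (nat_lit 0x7e12b2628) (nat_lit 649033426),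
  Rx.mk (nat_lit 277) (nat_lit 5) (nat_lit 2) (nat_lit 4) (nat_lit 3) (nat_lit 173) (nat_lit 358) r11_173 r0_358 (nat_lit 0) (nat_lit 0) (nat_lit 23550752) (nat_lit 0x804b6b5bc) (nat_lit 557203014),
  Rx.mk (nat_lit 324) (nat_lit 4) (nat_lit 0) (nat_lit 5) (nat_lit 4) (nat_lit 168) (nat_lit 343) r11_168 r0_343 (nat_lit 39863545) (nat_lit 97208642) (nat_lit 0) (nat_lit 0x7bb2e4220) (nat_lit 744358799),
  Rx.mk (nat_lit 325) (nat_lit 5) (nat_lit 0) (nat_lit 5) (nat_lit 5) (nat_lit 174) (nat_lit 345) r11_174 r0_345 (nat_lit 0) (nat_lit 66364716) (nat_lit 0) (nat_lit 0x7dacacf72) (nat_lit 641664678),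
  Rx.mk (nat_lit 326) (nat_lit 6) (nat_lit 0) (nat_lit 5) (nat_lit 5) (nat_lit 179) (nat_lit 347) r11_179 r0_347 (nat_lit 0) (nat_lit 24741287) (nat_lit 0) (nat_lit 0x8017985b4) (nat_lit 561612199),
  Rx.mk (nat_lit 332) (nat_lit 4) (nat_lit 1) (nat_lit 5) (nat_lit 6) (nat_lit 169) (nat_lit 350) r11_169 r0_350 (nat_lit 24741287) (nat_lit 0) (nat_lit 0) (nat_lit 0x8017985b4) (nat_lit 561612199),
  Rx.mk (nat_lit 333) (nat_lit 5) (nat_lit 1) (nat_lit 5) (nat_lit 7) (nat_lit 175) (nat_lit 352) r11_175 r0_352 (nat_lit 0) (nat_lit 0) (nat_lit 0) (nat_lit 0x8017985b4) (nat_lit 536870912),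
  Rx.mk (nat_lit 334) (nat_lit 6) (nat_lit 1) (nat_lit 5) (nat_lit 7) (nat_lit 180) (nat_lit 354) r11_180 r0_354 (nat_lit 0) (nat_lit 0) (nat_lit 0) (nat_lit 0x8017985b4) (nat_lit 536870912),
  Rx.mk (nat_lit 340) (nat_lit 4) (nat_lit 2) (nat_lit 5) (nat_lit 6) (nat_lit 170) (nat_lit 357) r11_170 r0_357 (nat_lit 24741287) (nat_lit 0) (nat_lit 0) (nat_lit 0x8017985b4) (nat_lit 561612199),
  Rx.mk (nat_lit 341) (nat_lit 5) (nat_lit 2) (nat_lit 5) (nat_lit 7) (nat_lit 176) (nat_lit 359) r11_176 r0_359 (nat_lit 0) (nat_lit 0) (nat_lit 0) (nat_lit 0x821f15f74) (nat_lit 505368512),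
  Rx.mk (nat_lit 390) (nat_lit 6) (nat_lit 0) (nat_lit 6) (nat_lit 5) (nat_lit 181) (nat_lit 348) r11_181 r0_348 (nat_lit 0) (nat_lit 24977480) (nat_lit 0) (nat_lit 0x7ff4c15ea) (nat_lit 563982842),
  Rx.mk (nat_lit 398) (nat_lit 6) (nat_lit 1) (nat_lit 6) (nat_lit 7) (nat_lit 182) (nat_lit 355) r11_182 r0_355 (nat_lit 0) (nat_lit 0) (nat_lit 0) (nat_lit 0x8017985b4) (nat_lit 536870912)]
noncomputable def e55_8 : List Rx := [
  Rx.mk (nat_lit 324) (nat_lit 4) (nat_lit 0) (nat_lit 5) (nat_lit 4) (nat_lit 183) (nat_lit 316) r11_183 r1_316 (nat_lit 31169867) (nat_lit 115272517) (nat_lit 0) (nat_lit 0x729ca1386) (nat_lit 900542746),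
  Rx.mk (nat_lit 325) (nat_lit 5) (nat_lit 0) (nat_lit 5) (nat_lit 5) (nat_lit 186) (nat_lit 317) r11_186 r1_317 (nat_lit 0) (nat_lit 39197522) (nat_lit 0) (nat_lit 0x7db914fa8) (nat_lit 613796734),
  Rx.mk (nat_lit 326) (nat_lit 6) (nat_lit 0) (nat_lit 5) (nat_lit 5) (nat_lit 189) (nat_lit 318) r11_189 r1_318 (nat_lit 0) (nat_lit 24741287) (nat_lit 0) (nat_lit 0x8017985b4) (nat_lit 561612199),
  Rx.mk (nat_lit 332) (nat_lit 4) (nat_lit 1) (nat_lit 5) (nat_lit 6) (nat_lit 184) (nat_lit 319) r11_184 r1_319 (nat_lit 24741287) (nat_lit 0) (nat_lit 0) (nat_lit 0x8017985b4) (nat_lit 561612199),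
  Rx.mk (nat_lit 333) (nat_lit 5) (nat_lit 1) (nat_lit 5) (nat_lit 7) (nat_lit 187) (nat_lit 320) r11_187 r1_320 (nat_lit 0) (nat_lit 0) (nat_lit 0) (nat_lit 0x8017985b4) (nat_lit 536870912),
  Rx.mk (nat_lit 334) (nat_lit 6) (nat_lit 1) (nat_lit 5) (nat_lit 7) (nat_lit 190) (nat_lit 321) r11_190 r1_321 (nat_lit 0) (nat_lit 0) (nat_lit 0) (nat_lit 0x8017985b4) (nat_lit 536870912),
  Rx.mk (nat_lit 340) (nat_lit 4) (nat_lit 2) (nat_lit 5) (nat_lit 6) (nat_lit 185) (nat_lit 322) r11_185 r1_322 (nat_lit 24741287) (nat_lit 0) (nat_lit 0) (nat_lit 0x8017985b4) (nat_lit 561612199),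
  Rx.mk (nat_lit 341) (nat_lit 5) (nat_lit 2) (nat_lit 5) (nat_lit 7) (nat_lit 188) (nat_lit 323) r11_188 r1_323 (nat_lit 0) (nat_lit 0) (nat_lit 0) (nat_lit 0x81759db22) (nat_lit 515567712)]
noncomputable def e55_9 : List Rx := [
  Rx.mk (nat_lit 260) (nat_lit 4) (nat_lit 0) (nat_lit 4) (nat_lit 0) (nat_lit 191) (nat_lit 381) r11_191 r4_381 (nat_lit 17952672) (nat_lit 17913539) (nat_lit 15710614) (nat_lit 0x5f1b5dba2) (nat_lit 1121002137),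
  Rx.mk (nat_lit 261) (nat_lit 5) (nat_lit 0) (nat_lit 4) (nat_lit 1) (nat_lit 199) (nat_lit 384) r11_199 r4_384 (nat_lit 0) (nat_lit 35726227) (nat_lit 27870751) (nat_lit 0x779980b0c) (nat_lit 737097740),
  Rx.mk (nat_lit 262) (nat_lit 6) (nat_lit 0) (nat_lit 4) (nat_lit 1) (nat_lit 207) (nat_lit 387) r11_207 r4_387 (nat_lit 0) (nat_lit 27912229) (nat_lit 29502798) (nat_lit 0x78d0f8fca) (nat_lit 711254839),
  Rx.mk (nat_lit 268) (nat_lit 4) (nat_lit 1) (nat_lit 4) (nat_lit 2) (nat_lit 192) (nat_lit 390) r11_192 r4_390 (nat_lit 96193341) (nat_lit 0) (nat_lit 20049231) (nat_lit 0x7b255b444) (nat_lit 732377384),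
  Rx.mk (nat_lit 269) (nat_lit 5) (nat_lit 1) (nat_lit 4) (nat_lit 3) (nat_lit 200) (nat_lit 392) r11_200 r4_392 (nat_lit 0) (nat_lit 0) (nat_lit 24741287) (nat_lit 0x8017985b4) (nat_lit 561612199),
  Rx.mk (nat_lit 270) (nat_lit 6) (nat_lit 1) (nat_lit 4) (nat_lit 3) (nat_lit 208) (nat_lit 394) r11_208 r4_394 (nat_lit 0) (nat_lit 0) (nat_lit 23934074) (nat_lit 0x7fe6d46d0) (nat_lit 563795286),
  Rx.mk (nat_lit 276) (nat_lit 4) (nat_lit 2) (nat_lit 4) (nat_lit 2) (nat_lit 193) (nat_lit 396) r11_193 r4_396 (nat_lit 30793545) (nat_lit 0) (nat_lit 30793545) (nat_lit 0x7da382596) (nat_lit 637575952),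
  Rx.mk (nat_lit 277) (nat_lit 5) (nat_lit 2) (nat_lit 4) (nat_lit 3) (nat_lit 201) (nat_lit 399) r11_201 r4_399 (nat_lit 0) (nat_lit 0) (nat_lit 24741287) (nat_lit 0x8017985b4) (nat_lit 561612199),
  Rx.mk (nat_lit 324) (nat_lit 4) (nat_lit 0) (nat_lit 5) (nat_lit 4) (nat_lit 194) (nat_lit 382) r11_194 r4_382 (nat_lit 27647826) (nat_lit 34329630) (nat_lit 0) (nat_lit 0x7e54987ea) (nat_lit 626865718),
  Rx.mk (nat_lit 325) (nat_lit 5) (nat_lit 0) (nat_lit 5) (nat_lit 5) (nat_lit 202) (nat_lit 385) r11_202 r4_385 (nat_lit 0) (nat_lit 26112240) (nat_lit 0) (nat_lit 0x7f458b346) (nat_lit 575951702),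
  Rx.mk (nat_lit 326) (nat_lit 6) (nat_lit 0) (nat_lit 5) (nat_lit 5) (nat_lit 209) (nat_lit 388) r11_209 r4_388 (nat_lit 0) (nat_lit 24741287) (nat_lit 0) (nat_lit 0x8017985b4) (nat_lit 561612199),
  Rx.mk (nat_lit 340) (nat_lit 4) (nat_lit 2) (nat_lit 5) (nat_lit 6) (nat_lit 195) (nat_lit 397) r11_195 r4_397 (nat_lit 24741287) (nat_lit 0) (nat_lit 0) (nat_lit 0x8017985b4) (nat_lit 561612199),
  Rx.mk (nat_lit 341) (nat_lit 5) (nat_lit 2) (nat_lit 5) (nat_lit 7) (nat_lit 203) (nat_lit 400) r11_203 r4_400 (nat_lit 0) (nat_lit 0) (nat_lit 0) (nat_lit 0x8017985b4) (nat_lit 536870912),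
  Rx.mk (nat_lit 390) (nat_lit 6) (nat_lit 0) (nat_lit 6) (nat_lit 5) (nat_lit 210) (nat_lit 389) r11_210 r4_389 (nat_lit 0) (nat_lit 24741287) (nat_lit 0) (nat_lit 0x8017985b4) (nat_lit 561612199),
  Rx.mk (nat_lit 398) (nat_lit 6) (nat_lit 1) (nat_lit 6) (nat_lit 7) (nat_lit 211) (nat_lit 395) r11_211 r4_395 (nat_lit 0) (nat_lit 0) (nat_lit 0) (nat_lit 0x8017985b4) (nat_lit 536870912),
  Rx.mk (nat_lit 452) (nat_lit 4) (nat_lit 0) (nat_lit 7) (nat_lit 4) (nat_lit 196) (nat_lit 383) r11_196 r4_383 (nat_lit 28646946) (nat_lit 30009416) (nat_lit 0) (nat_lit 0x7b26b540c) (nat_lit 674773074),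
  Rx.mk (nat_lit 453) (nat_lit 5) (nat_lit 0) (nat_lit 7) (nat_lit 5) (nat_lit 204) (nat_lit 386) r11_204 r4_386 (nat_lit 0) (nat_lit 24741287) (nat_lit 0) (nat_lit 0x8017985b4) (nat_lit 561612199),
  Rx.mk (nat_lit 460) (nat_lit 4) (nat_lit 1) (nat_lit 7) (nat_lit 6) (nat_lit 197) (nat_lit 391) r11_197 r4_391 (nat_lit 30058585) (nat_lit 0) (nat_lit 0) (nat_lit 0x7fbf63a4c) (nat_lit 572343247),
  Rx.mk (nat_lit 461) (nat_lit 5) (nat_lit 1) (nat_lit 7) (nat_lit 7) (nat_lit 205) (nat_lit 393) r11_205 r4_393 (nat_lit 0) (nat_lit 0) (nat_lit 0) (nat_lit 0x8017985b4) (nat_lit 536870912),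
  Rx.mk (nat_lit 468) (nat_lit 4) (nat_lit 2) (nat_lit 7) (nat_lit 6) (nat_lit 198) (nat_lit 398) r11_198 r4_398 (nat_lit 24741287) (nat_lit 0) (nat_lit 0) (nat_lit 0x8017985b4) (nat_lit 561612199),
  Rx.mk (nat_lit 469) (nat_lit 5) (nat_lit 2) (nat_lit 7) (nat_lit 7) (nat_lit 206) (nat_lit 401) r11_206 r4_401 (nat_lit 0) (nat_lit 0) (nat_lit 0) (nat_lit 0x8017985b4) (nat_lit 536870912)]
noncomputable def e55_10 : List Rx := [
  Rx.mk (nat_lit 212) (nat_lit 4) (nat_lit 2) (nat_lit 3) (nat_lit 6) (nat_lit 266) (nat_lit 357) r11_266 r6_357 (nat_lit 4488265) (nat_lit 0) (nat_lit 0) (nat_lit 0x805dc6720) (nat_lit 536687177),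
  Rx.mk (nat_lit 213) (nat_lit 5) (nat_lit 2) (nat_lit 3) (nat_lit 7) (nat_lit 269) (nat_lit 360) r11_269 r6_360 (nat_lit 0) (nat_lit 0) (nat_lit 0) (nat_lit 0x84800501c) (nat_lit 468941562),
  Rx.mk (nat_lit 452) (nat_lit 4) (nat_lit 0) (nat_lit 7) (nat_lit 4) (nat_lit 267) (nat_lit 356) r11_267 r6_356 (nat_lit 5190488) (nat_lit 5930575) (nat_lit 0) (nat_lit 0x76ef41074) (nat_lit 695185625),
  Rx.mk (nat_lit 453) (nat_lit 5) (nat_lit 0) (nat_lit 7) (nat_lit 5) (nat_lit 270) (nat_lit 359) r11_270 r6_359 (nat_lit 0) (nat_lit 17138393) (nat_lit 0) (nat_lit 0x806f00630) (nat_lit 548606105),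
  Rx.mk (nat_lit 454) (nat_lit 6) (nat_lit 0) (nat_lit 7) (nat_lit 5) (nat_lit 272) (nat_lit 362) r11_272 r6_362 (nat_lit 0) (nat_lit 24741287) (nat_lit 0) (nat_lit 0x8017985b4) (nat_lit 561612199),
  Rx.mk (nat_lit 468) (nat_lit 4) (nat_lit 2) (nat_lit 7) (nat_lit 6) (nat_lit 268) (nat_lit 358) r11_268 r6_358 (nat_lit 18945663) (nat_lit 0) (nat_lit 0) (nat_lit 0x804f12fb2) (nat_lit 552405325),
  Rx.mk (nat_lit 469) (nat_lit 5) (nat_lit 2) (nat_lit 7) (nat_lit 7) (nat_lit 271) (nat_lit 361) r11_271 r6_361 (nat_lit 0) (nat_lit 0) (nat_lit 0) (nat_lit 0x8017985b4) (nat_lit 536870912)]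
noncomputable def e55_11 : List Rx := [
  Rx.mk (nat_lit 452) (nat_lit 4) (nat_lit 0) (nat_lit 7) (nat_lit 4) (nat_lit 273) (nat_lit 316) r11_273 r5_316 (nat_lit 20649739) (nat_lit 21014715) (nat_lit 0) (nat_lit 0x729e8ccc2) (nat_lit 795632066),
  Rx.mk (nat_lit 453) (nat_lit 5) (nat_lit 0) (nat_lit 7) (nat_lit 5) (nat_lit 276) (nat_lit 317) r11_276 r5_317 (nat_lit 0) (nat_lit 20064994) (nat_lit 0) (nat_lit 0x807284b4e) (nat_lit 551341856),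
  Rx.mk (nat_lit 454) (nat_lit 6) (nat_lit 0) (nat_lit 7) (nat_lit 5) (nat_lit 279) (nat_lit 318) r11_279 r5_318 (nat_lit 0) (nat_lit 21930199) (nat_lit 0) (nat_lit 0x8037c1084) (nat_lit 556823461),
  Rx.mk (nat_lit 460) (nat_lit 4) (nat_lit 1) (nat_lit 7) (nat_lit 6) (nat_lit 274) (nat_lit 319) r11_274 r5_319 (nat_lit 24741287) (nat_lit 0) (nat_lit 0) (nat_lit 0x8017985b4) (nat_lit 561612199),
  Rx.mk (nat_lit 461) (nat_lit 5) (nat_lit 1) (nat_lit 7) (nat_lit 7) (nat_lit 277) (nat_lit 320) r11_277 r5_320 (nat_lit 0) (nat_lit 0) (nat_lit 0) (nat_lit 0x8017985b4) (nat_lit 536870912),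
  Rx.mk (nat_lit 462) (nat_lit 6) (nat_lit 1) (nat_lit 7) (nat_lit 7) (nat_lit 280) (nat_lit 321) r11_280 r5_321 (nat_lit 0) (nat_lit 0) (nat_lit 0) (nat_lit 0x8017985b4) (nat_lit 536870912),
  Rx.mk (nat_lit 468) (nat_lit 4) (nat_lit 2) (nat_lit 7) (nat_lit 6) (nat_lit 275) (nat_lit 322) r11_275 r5_322 (nat_lit 24086680) (nat_lit 0) (nat_lit 0) (nat_lit 0x7f9584f64) (nat_lit 568953542),
  Rx.mk (nat_lit 469) (nat_lit 5) (nat_lit 2) (nat_lit 7) (nat_lit 7) (nat_lit 278) (nat_lit 323) r11_278 r5_323 (nat_lit 0) (nat_lit 0) (nat_lit 0) (nat_lit 0x8017985b4) (nat_lit 536870912)]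
noncomputable def e55_12 : List Rx := [
  Rx.mk (nat_lit 17) (nat_lit 1) (nat_lit 2) (nat_lit 0) (nat_lit 3) (nat_lit 300) (nat_lit 226) r11_300 r0_226 (nat_lit 0) (nat_lit 0) (nat_lit 12926127) (nat_lit 0x800aea9a2) (nat_lit 550481389),
  Rx.mk (nat_lit 21) (nat_lit 5) (nat_lit 2) (nat_lit 0) (nat_lit 3) (nat_lit 302) (nat_lit 225) r11_302 r0_225 (nat_lit 0) (nat_lit 0) (nat_lit 9444164) (nat_lit 0x7fd819c08) (nat_lit 550012926),
  Rx.mk (nat_lit 209) (nat_lit 1) (nat_lit 2) (nat_lit 3) (nat_lit 7) (nat_lit 301) (nat_lit 227) r11_301 r0_227 (nat_lit 0) (nat_lit 0) (nat_lit 0) (nat_lit 0x8257094c6) (nat_lit 501926062)]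
noncomputable def e55_13 : List Rx := [
  Rx.mk (nat_lit 17) (nat_lit 1) (nat_lit 2) (nat_lit 0) (nat_lit 3) (nat_lit 303) (nat_lit 439) r11_303 r7_439 (nat_lit 0) (nat_lit 0) (nat_lit 24741287) (nat_lit 0x8017985b4) (nat_lit 561612199),
  Rx.mk (nat_lit 21) (nat_lit 5) (nat_lit 2) (nat_lit 0) (nat_lit 3) (nat_lit 306) (nat_lit 442) r11_306 r7_442 (nat_lit 0) (nat_lit 0) (nat_lit 19264518) (nat_lit 0x8067c11ee) (nat_lit 551226430),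
  Rx.mk (nat_lit 81) (nat_lit 1) (nat_lit 2) (nat_lit 1) (nat_lit 7) (nat_lit 304) (nat_lit 440) r11_304 r7_440 (nat_lit 0) (nat_lit 0) (nat_lit 0) (nat_lit 0x8017985b4) (nat_lit 536870912),
  Rx.mk (nat_lit 85) (nat_lit 5) (nat_lit 2) (nat_lit 1) (nat_lit 7) (nat_lit 307) (nat_lit 443) r11_307 r7_443 (nat_lit 0) (nat_lit 0) (nat_lit 0) (nat_lit 0x8017985b4) (nat_lit 536870912),
  Rx.mk (nat_lit 209) (nat_lit 1) (nat_lit 2) (nat_lit 3) (nat_lit 7) (nat_lit 305) (nat_lit 441) r11_305 r7_441 (nat_lit 0) (nat_lit 0) (nat_lit 0) (nat_lit 0x8017985b4) (nat_lit 536870912)]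
noncomputable def e55_14 : List Rx := [
  Rx.mk (nat_lit 17) (nat_lit 1) (nat_lit 2) (nat_lit 0) (nat_lit 3) (nat_lit 333) (nat_lit 244) r11_333 r1_244 (nat_lit 0) (nat_lit 0) (nat_lit 16971006) (nat_lit 0x8058c13c4) (nat_lit 549817368),
  Rx.mk (nat_lit 209) (nat_lit 1) (nat_lit 2) (nat_lit 3) (nat_lit 7) (nat_lit 334) (nat_lit 245) r11_334 r1_245 (nat_lit 0) (nat_lit 0) (nat_lit 0) (nat_lit 0x814704da6) (nat_lit 518377612)]
noncomputable def e55_15 : List Rx := [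
  Rx.mk (nat_lit 17) (nat_lit 1) (nat_lit 2) (nat_lit 0) (nat_lit 3) (nat_lit 335) (nat_lit 358) r11_335 r8_358 (nat_lit 0) (nat_lit 0) (nat_lit 24741287) (nat_lit 0x8017985b4) (nat_lit 561612199),
  Rx.mk (nat_lit 81) (nat_lit 1) (nat_lit 2) (nat_lit 1) (nat_lit 7) (nat_lit 336) (nat_lit 359) r11_336 r8_359 (nat_lit 0) (nat_lit 0) (nat_lit 0) (nat_lit 0x8017985b4) (nat_lit 536870912),
  Rx.mk (nat_lit 209) (nat_lit 1) (nat_lit 2) (nat_lit 3) (nat_lit 7) (nat_lit 337) (nat_lit 360) r11_337 r8_360 (nat_lit 0) (nat_lit 0) (nat_lit 0) (nat_lit 0x8017985b4) (nat_lit 536870912)]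
noncomputable def e55_16 : List Rx := [
  Rx.mk (nat_lit 81) (nat_lit 1) (nat_lit 2) (nat_lit 1) (nat_lit 7) (nat_lit 343) (nat_lit 220) r11_343 r8_220 (nat_lit 0) (nat_lit 0) (nat_lit 0) (nat_lit 0x8017985b4) (nat_lit 536870912),
  Rx.mk (nat_lit 85) (nat_lit 5) (nat_lit 2) (nat_lit 1) (nat_lit 7) (nat_lit 344) (nat_lit 219) r11_344 r8_219 (nat_lit 0) (nat_lit 0) (nat_lit 0) (nat_lit 0x8017985b4) (nat_lit 536870912)]
noncomputable def e55_17 : List Rx := [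
  Rx.mk (nat_lit 81) (nat_lit 1) (nat_lit 2) (nat_lit 1) (nat_lit 7) (nat_lit 345) (nat_lit 319) r11_345 r9_319 (nat_lit 0) (nat_lit 0) (nat_lit 0) (nat_lit 0x8017985b4) (nat_lit 536870912),
  Rx.mk (nat_lit 85) (nat_lit 5) (nat_lit 2) (nat_lit 1) (nat_lit 7) (nat_lit 346) (nat_lit 322) r11_346 r9_322 (nat_lit 0) (nat_lit 0) (nat_lit 0) (nat_lit 0x8017985b4) (nat_lit 536870912),
  Rx.mk (nat_lit 325) (nat_lit 5) (nat_lit 0) (nat_lit 5) (nat_lit 5) (nat_lit 347) (nat_lit 320) r11_347 r9_320 (nat_lit 0) (nat_lit 34238693) (nat_lit 0) (nat_lit 0x7ed4be032) (nat_lit 591026955),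
  Rx.mk (nat_lit 333) (nat_lit 5) (nat_lit 1) (nat_lit 5) (nat_lit 7) (nat_lit 348) (nat_lit 321) r11_348 r9_321 (nat_lit 0) (nat_lit 0) (nat_lit 0) (nat_lit 0x8017985b4) (nat_lit 536870912),
  Rx.mk (nat_lit 341) (nat_lit 5) (nat_lit 2) (nat_lit 5) (nat_lit 7) (nat_lit 349) (nat_lit 323) r11_349 r9_323 (nat_lit 0) (nat_lit 0) (nat_lit 0) (nat_lit 0x8017985b4) (nat_lit 536870912)]
noncomputable def e55_18 : List Rx := [
  Rx.mk (nat_lit 21) (nat_lit 5) (nat_lit 2) (nat_lit 0) (nat_lit 3) (nat_lit 358) (nat_lit 226) r11_358 r4_226 (nat_lit 0) (nat_lit 0) (nat_lit 11487859) (nat_lit 0x7fe0ccc6a) (nat_lit 551547221),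
  Rx.mk (nat_lit 209) (nat_lit 1) (nat_lit 2) (nat_lit 3) (nat_lit 7) (nat_lit 357) (nat_lit 228) r11_357 r4_228 (nat_lit 0) (nat_lit 0) (nat_lit 0) (nat_lit 0x850b42e04) (nat_lit 460662012),
  Rx.mk (nat_lit 213) (nat_lit 5) (nat_lit 2) (nat_lit 3) (nat_lit 7) (nat_lit 359) (nat_lit 227) r11_359 r4_227 (nat_lit 0) (nat_lit 0) (nat_lit 0) (nat_lit 0x82046c2cc) (nat_lit 506848662)]
noncomputable def e55_19 : List Rx := [
  Rx.mk (nat_lit 21) (nat_lit 5) (nat_lit 2) (nat_lit 0) (nat_lit 3) (nat_lit 361) (nat_lit 366) r11_361 r10_366 (nat_lit 0) (nat_lit 0) (nat_lit 20709188) (nat_lit 0x804c96cf2) (nat_lit 554327950),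
  Rx.mk (nat_lit 85) (nat_lit 5) (nat_lit 2) (nat_lit 1) (nat_lit 7) (nat_lit 362) (nat_lit 367) r11_362 r10_367 (nat_lit 0) (nat_lit 0) (nat_lit 0) (nat_lit 0x8017985b4) (nat_lit 536870912),
  Rx.mk (nat_lit 209) (nat_lit 1) (nat_lit 2) (nat_lit 3) (nat_lit 7) (nat_lit 360) (nat_lit 365) r11_360 r10_365 (nat_lit 0) (nat_lit 0) (nat_lit 0) (nat_lit 0x8017985b4) (nat_lit 536870912),
  Rx.mk (nat_lit 213) (nat_lit 5) (nat_lit 2) (nat_lit 3) (nat_lit 7) (nat_lit 363) (nat_lit 368) r11_363 r10_368 (nat_lit 0) (nat_lit 0) (nat_lit 0) (nat_lit 0x8017985b4) (nat_lit 536870912)]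
noncomputable def e55_20 : List Rx := [
  Rx.mk (nat_lit 209) (nat_lit 1) (nat_lit 2) (nat_lit 3) (nat_lit 7) (nat_lit 364) (nat_lit 364) r11_364 r11_364 (nat_lit 0) (nat_lit 0) (nat_lit 0) (nat_lit 0x8017985b4) (nat_lit 536870912),
  Rx.mk (nat_lit 213) (nat_lit 5) (nat_lit 2) (nat_lit 3) (nat_lit 7) (nat_lit 365) (nat_lit 365) r11_365 r11_365 (nat_lit 0) (nat_lit 0) (nat_lit 0) (nat_lit 0x80801aaba) (nat_lit 530459962)]
noncomputable def e55_21 : List Rx := [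
  Rx.mk (nat_lit 333) (nat_lit 5) (nat_lit 1) (nat_lit 5) (nat_lit 7) (nat_lit 350) (nat_lit 327) r11_350 r9_327 (nat_lit 0) (nat_lit 0) (nat_lit 0) (nat_lit 0x8017985b4) (nat_lit 536870912)]
noncomputable def e55_22 : List Rx := [
  Rx.mk (nat_lit 268) (nat_lit 4) (nat_lit 1) (nat_lit 4) (nat_lit 2) (nat_lit 37) (nat_lit 200) r11_37 r0_200 (nat_lit 75082556) (nat_lit 0) (nat_lit 46723193) (nat_lit 0x67eb4628a) (nat_lit 1048737861),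
  Rx.mk (nat_lit 269) (nat_lit 5) (nat_lit 1) (nat_lit 4) (nat_lit 3) (nat_lit 38) (nat_lit 201) r11_38 r0_201 (nat_lit 0) (nat_lit 0) (nat_lit 24741287) (nat_lit 0x80790da56) (nat_lit 555628299),
  Rx.mk (nat_lit 270) (nat_lit 6) (nat_lit 1) (nat_lit 4) (nat_lit 3) (nat_lit 39) (nat_lit 202) r11_39 r0_202 (nat_lit 0) (nat_lit 0) (nat_lit 41103109) (nat_lit 0x7fd7cf8c4) (nat_lit 581741021),
  Rx.mk (nat_lit 398) (nat_lit 6) (nat_lit 1) (nat_lit 6) (nat_lit 7) (nat_lit 40) (nat_lit 203) r11_40 r0_203 (nat_lit 0) (nat_lit 0) (nat_lit 0) (nat_lit 0x820bd8c36) (nat_lit 506517062)]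
noncomputable def e55_23 : List Rx := [
  Rx.mk (nat_lit 268) (nat_lit 4) (nat_lit 1) (nat_lit 4) (nat_lit 2) (nat_lit 41) (nat_lit 220) r11_41 r1_220 (nat_lit 107908680) (nat_lit 0) (nat_lit 132640855) (nat_lit 0x75cd0e8fe) (nat_lit 943069347),
  Rx.mk (nat_lit 269) (nat_lit 5) (nat_lit 1) (nat_lit 4) (nat_lit 3) (nat_lit 42) (nat_lit 221) r11_42 r1_221 (nat_lit 0) (nat_lit 0) (nat_lit 24741287) (nat_lit 0x80394da56) (nat_lit 559537749),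
  Rx.mk (nat_lit 270) (nat_lit 6) (nat_lit 1) (nat_lit 4) (nat_lit 3) (nat_lit 43) (nat_lit 222) r11_43 r1_222 (nat_lit 0) (nat_lit 0) (nat_lit 27280081) (nat_lit 0x7ff4c6252) (nat_lit 566171843),
  Rx.mk (nat_lit 398) (nat_lit 6) (nat_lit 1) (nat_lit 6) (nat_lit 7) (nat_lit 44) (nat_lit 223) r11_44 r1_223 (nat_lit 0) (nat_lit 0) (nat_lit 0) (nat_lit 0x814af5f1e) (nat_lit 518142212),
  Rx.mk (nat_lit 430) (nat_lit 6) (nat_lit 5) (nat_lit 6) (nat_lit 7) (nat_lit 45) (nat_lit 224) r11_45 r1_224 (nat_lit 0) (nat_lit 0) (nat_lit 0) (nat_lit 0x808a832cc) (nat_lit 529822112)]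
noncomputable def e55_24 : List Rx := [
  Rx.mk (nat_lit 268) (nat_lit 4) (nat_lit 1) (nat_lit 4) (nat_lit 2) (nat_lit 46) (nat_lit 188) r11_46 r4_188 (nat_lit 33533154) (nat_lit 0) (nat_lit 16806885) (nat_lit 0x78c402cc6) (nat_lit 704937351),
  Rx.mk (nat_lit 269) (nat_lit 5) (nat_lit 1) (nat_lit 4) (nat_lit 3) (nat_lit 48) (nat_lit 189) r11_48 r4_189 (nat_lit 0) (nat_lit 0) (nat_lit 24741287) (nat_lit 0x8017985b4) (nat_lit 561612199),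
  Rx.mk (nat_lit 270) (nat_lit 6) (nat_lit 1) (nat_lit 4) (nat_lit 3) (nat_lit 50) (nat_lit 190) r11_50 r4_190 (nat_lit 0) (nat_lit 0) (nat_lit 26071655) (nat_lit 0x7fa9352f2) (nat_lit 569730517),
  Rx.mk (nat_lit 398) (nat_lit 6) (nat_lit 1) (nat_lit 6) (nat_lit 7) (nat_lit 51) (nat_lit 194) r11_51 r4_194 (nat_lit 0) (nat_lit 0) (nat_lit 0) (nat_lit 0x8017985b4) (nat_lit 536870912),
  Rx.mk (nat_lit 460) (nat_lit 4) (nat_lit 1) (nat_lit 7) (nat_lit 6) (nat_lit 47) (nat_lit 191) r11_47 r4_191 (nat_lit 16749673) (nat_lit 0) (nat_lit 0) (nat_lit 0x8060fd66e) (nat_lit 549095785),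
  Rx.mk (nat_lit 461) (nat_lit 5) (nat_lit 1) (nat_lit 7) (nat_lit 7) (nat_lit 49) (nat_lit 192) r11_49 r4_192 (nat_lit 0) (nat_lit 0) (nat_lit 0) (nat_lit 0x804ce505a) (nat_lit 533594662),
  Rx.mk (nat_lit 462) (nat_lit 6) (nat_lit 1) (nat_lit 7) (nat_lit 7) (nat_lit 52) (nat_lit 193) r11_52 r4_193 (nat_lit 0) (nat_lit 0) (nat_lit 0) (nat_lit 0x804ce4d1c) (nat_lit 533594712)]
noncomputable def e55_25 : List Rx := [
  Rx.mk (nat_lit 268) (nat_lit 4) (nat_lit 1) (nat_lit 4) (nat_lit 2) (nat_lit 212) (nat_lit 449) r11_212 r7_449 (nat_lit 107532607) (nat_lit 0) (nat_lit 34414543) (nat_lit 0x7c21f872e) (nat_lit 742207762),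
  Rx.mk (nat_lit 269) (nat_lit 5) (nat_lit 1) (nat_lit 4) (nat_lit 3) (nat_lit 214) (nat_lit 451) r11_214 r7_451 (nat_lit 0) (nat_lit 0) (nat_lit 24741287) (nat_lit 0x8017985b4) (nat_lit 561612199),
  Rx.mk (nat_lit 270) (nat_lit 6) (nat_lit 1) (nat_lit 4) (nat_lit 3) (nat_lit 216) (nat_lit 453) r11_216 r7_453 (nat_lit 0) (nat_lit 0) (nat_lit 24741287) (nat_lit 0x8017985b4) (nat_lit 561612199),
  Rx.mk (nat_lit 332) (nat_lit 4) (nat_lit 1) (nat_lit 5) (nat_lit 6) (nat_lit 213) (nat_lit 450) r11_213 r7_450 (nat_lit 24741287) (nat_lit 0) (nat_lit 0) (nat_lit 0x8017985b4) (nat_lit 561612199),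
  Rx.mk (nat_lit 333) (nat_lit 5) (nat_lit 1) (nat_lit 5) (nat_lit 7) (nat_lit 215) (nat_lit 452) r11_215 r7_452 (nat_lit 0) (nat_lit 0) (nat_lit 0) (nat_lit 0x8017985b4) (nat_lit 536870912),
  Rx.mk (nat_lit 334) (nat_lit 6) (nat_lit 1) (nat_lit 5) (nat_lit 7) (nat_lit 217) (nat_lit 454) r11_217 r7_454 (nat_lit 0) (nat_lit 0) (nat_lit 0) (nat_lit 0x8017985b4) (nat_lit 536870912),
  Rx.mk (nat_lit 398) (nat_lit 6) (nat_lit 1) (nat_lit 6) (nat_lit 7) (nat_lit 218) (nat_lit 455) r11_218 r7_455 (nat_lit 0) (nat_lit 0) (nat_lit 0) (nat_lit 0x8017985b4) (nat_lit 536870912)]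
noncomputable def e55_26 : List Rx := [
  Rx.mk (nat_lit 268) (nat_lit 4) (nat_lit 1) (nat_lit 4) (nat_lit 2) (nat_lit 222) (nat_lit 368) r11_222 r8_368 (nat_lit 93109333) (nat_lit 0) (nat_lit 49696383) (nat_lit 0x7a0dfb9e4) (nat_lit 776624328),
  Rx.mk (nat_lit 269) (nat_lit 5) (nat_lit 1) (nat_lit 4) (nat_lit 3) (nat_lit 224) (nat_lit 370) r11_224 r8_370 (nat_lit 0) (nat_lit 0) (nat_lit 24741287) (nat_lit 0x8017985b4) (nat_lit 561612199),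
  Rx.mk (nat_lit 270) (nat_lit 6) (nat_lit 1) (nat_lit 4) (nat_lit 3) (nat_lit 226) (nat_lit 372) r11_226 r8_372 (nat_lit 0) (nat_lit 0) (nat_lit 24741287) (nat_lit 0x8017985b4) (nat_lit 561612199),
  Rx.mk (nat_lit 332) (nat_lit 4) (nat_lit 1) (nat_lit 5) (nat_lit 6) (nat_lit 223) (nat_lit 369) r11_223 r8_369 (nat_lit 24741287) (nat_lit 0) (nat_lit 0) (nat_lit 0x8017985b4) (nat_lit 561612199),
  Rx.mk (nat_lit 333) (nat_lit 5) (nat_lit 1) (nat_lit 5) (nat_lit 7) (nat_lit 225) (nat_lit 371) r11_225 r8_371 (nat_lit 0) (nat_lit 0) (nat_lit 0) (nat_lit 0x8017985b4) (nat_lit 536870912),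
  Rx.mk (nat_lit 334) (nat_lit 6) (nat_lit 1) (nat_lit 5) (nat_lit 7) (nat_lit 227) (nat_lit 373) r11_227 r8_373 (nat_lit 0) (nat_lit 0) (nat_lit 0) (nat_lit 0x8017985b4) (nat_lit 536870912),
  Rx.mk (nat_lit 398) (nat_lit 6) (nat_lit 1) (nat_lit 6) (nat_lit 7) (nat_lit 228) (nat_lit 374) r11_228 r8_374 (nat_lit 0) (nat_lit 0) (nat_lit 0) (nat_lit 0x8017985b4) (nat_lit 536870912),
  Rx.mk (nat_lit 430) (nat_lit 6) (nat_lit 5) (nat_lit 6) (nat_lit 7) (nat_lit 229) (nat_lit 367) r11_229 r8_367 (nat_lit 0) (nat_lit 0) (nat_lit 0) (nat_lit 0x8017985b4) (nat_lit 536870912)]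
noncomputable def e55_27 : List Rx := [
  Rx.mk (nat_lit 332) (nat_lit 4) (nat_lit 1) (nat_lit 5) (nat_lit 6) (nat_lit 219) (nat_lit 198) r11_219 r8_198 (nat_lit 24741287) (nat_lit 0) (nat_lit 0) (nat_lit 0x8017985b4) (nat_lit 561612199),
  Rx.mk (nat_lit 333) (nat_lit 5) (nat_lit 1) (nat_lit 5) (nat_lit 7) (nat_lit 220) (nat_lit 199) r11_220 r8_199 (nat_lit 0) (nat_lit 0) (nat_lit 0) (nat_lit 0x8017985b4) (nat_lit 536870912),
  Rx.mk (nat_lit 334) (nat_lit 6) (nat_lit 1) (nat_lit 5) (nat_lit 7) (nat_lit 221) (nat_lit 200) r11_221 r8_200 (nat_lit 0) (nat_lit 0) (nat_lit 0) (nat_lit 0x8017985b4) (nat_lit 536870912)]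
noncomputable def e55_28 : List Rx := [
  Rx.mk (nat_lit 268) (nat_lit 4) (nat_lit 1) (nat_lit 4) (nat_lit 2) (nat_lit 230) (nat_lit 374) r11_230 r10_374 (nat_lit 53187078) (nat_lit 0) (nat_lit 29967916) (nat_lit 0x781c132b8) (nat_lit 748379156),
  Rx.mk (nat_lit 269) (nat_lit 5) (nat_lit 1) (nat_lit 4) (nat_lit 3) (nat_lit 232) (nat_lit 376) r11_232 r10_376 (nat_lit 0) (nat_lit 0) (nat_lit 24741287) (nat_lit 0x8017985b4) (nat_lit 561612199),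
  Rx.mk (nat_lit 270) (nat_lit 6) (nat_lit 1) (nat_lit 4) (nat_lit 3) (nat_lit 234) (nat_lit 378) r11_234 r10_378 (nat_lit 0) (nat_lit 0) (nat_lit 24741287) (nat_lit 0x8017985b4) (nat_lit 561612199),
  Rx.mk (nat_lit 398) (nat_lit 6) (nat_lit 1) (nat_lit 6) (nat_lit 7) (nat_lit 235) (nat_lit 379) r11_235 r10_379 (nat_lit 0) (nat_lit 0) (nat_lit 0) (nat_lit 0x8017985b4) (nat_lit 536870912),
  Rx.mk (nat_lit 460) (nat_lit 4) (nat_lit 1) (nat_lit 7) (nat_lit 6) (nat_lit 231) (nat_lit 375) r11_231 r10_375 (nat_lit 24741287) (nat_lit 0) (nat_lit 0) (nat_lit 0x8017985b4) (nat_lit 561612199),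
  Rx.mk (nat_lit 461) (nat_lit 5) (nat_lit 1) (nat_lit 7) (nat_lit 7) (nat_lit 233) (nat_lit 377) r11_233 r10_377 (nat_lit 0) (nat_lit 0) (nat_lit 0) (nat_lit 0x8017985b4) (nat_lit 536870912)]
noncomputable def e55_29 : List Rx := [
  Rx.mk (nat_lit 460) (nat_lit 4) (nat_lit 1) (nat_lit 7) (nat_lit 6) (nat_lit 281) (nat_lit 368) r11_281 r11_368 (nat_lit 24741287) (nat_lit 0) (nat_lit 0) (nat_lit 0x8017985b4) (nat_lit 561612199),
  Rx.mk (nat_lit 461) (nat_lit 5) (nat_lit 1) (nat_lit 7) (nat_lit 7) (nat_lit 282) (nat_lit 369) r11_282 r11_369 (nat_lit 0) (nat_lit 0) (nat_lit 0) (nat_lit 0x8017985b4) (nat_lit 536870912),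
  Rx.mk (nat_lit 462) (nat_lit 6) (nat_lit 1) (nat_lit 7) (nat_lit 7) (nat_lit 283) (nat_lit 370) r11_283 r11_370 (nat_lit 0) (nat_lit 0) (nat_lit 0) (nat_lit 0x8017985b4) (nat_lit 536870912)]
noncomputable def e55_30 : List Rx := [
  Rx.mk (nat_lit 21) (nat_lit 5) (nat_lit 2) (nat_lit 0) (nat_lit 3) (nat_lit 366) (nat_lit 240) r11_366 r5_240 (nat_lit 0) (nat_lit 0) (nat_lit 12925908) (nat_lit 0x804d82ed6) (nat_lit 546213020),
  Rx.mk (nat_lit 213) (nat_lit 5) (nat_lit 2) (nat_lit 3) (nat_lit 7) (nat_lit 367) (nat_lit 241) r11_367 r5_241 (nat_lit 0) (nat_lit 0) (nat_lit 0) (nat_lit 0x834f94230) (nat_lit 487057512)]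
noncomputable def e55_31 : List Rx := [
  Rx.mk (nat_lit 21) (nat_lit 5) (nat_lit 2) (nat_lit 0) (nat_lit 3) (nat_lit 368) (nat_lit 281) r11_368 r11_281 (nat_lit 0) (nat_lit 0) (nat_lit 24741287) (nat_lit 0x8017985b4) (nat_lit 561612199),
  Rx.mk (nat_lit 85) (nat_lit 5) (nat_lit 2) (nat_lit 1) (nat_lit 7) (nat_lit 369) (nat_lit 282) r11_369 r11_282 (nat_lit 0) (nat_lit 0) (nat_lit 0) (nat_lit 0x8017985b4) (nat_lit 536870912),
  Rx.mk (nat_lit 213) (nat_lit 5) (nat_lit 2) (nat_lit 3) (nat_lit 7) (nat_lit 370) (nat_lit 283) r11_370 r11_283 (nat_lit 0) (nat_lit 0) (nat_lit 0) (nat_lit 0x8017985b4) (nat_lit 536870912)]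
noncomputable def e55_32 : List Rx := [
  Rx.mk (nat_lit 215) (nat_lit 7) (nat_lit 2) (nat_lit 3) (nat_lit 7) (nat_lit 65) (nat_lit 163) r11_65 r6_163 (nat_lit 0) (nat_lit 0) (nat_lit 0) (nat_lit 0x822812b0e) (nat_lit 504804312),
  Rx.mk (nat_lit 284) (nat_lit 4) (nat_lit 3) (nat_lit 4) (nat_lit 2) (nat_lit 53) (nat_lit 153) r11_53 r6_153 (nat_lit 11453294) (nat_lit 0) (nat_lit 17592133) (nat_lit 0x79c89e50e) (nat_lit 667174639),
  Rx.mk (nat_lit 285) (nat_lit 5) (nat_lit 3) (nat_lit 4) (nat_lit 3) (nat_lit 57) (nat_lit 157) r11_57 r6_157 (nat_lit 0) (nat_lit 0) (nat_lit 23560195) (nat_lit 0x8006b0be8) (nat_lit 561461107),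
  Rx.mk (nat_lit 286) (nat_lit 6) (nat_lit 3) (nat_lit 4) (nat_lit 3) (nat_lit 61) (nat_lit 164) r11_61 r6_164 (nat_lit 0) (nat_lit 0) (nat_lit 26850297) (nat_lit 0x80135a3c6) (nat_lit 563945709),
  Rx.mk (nat_lit 414) (nat_lit 6) (nat_lit 3) (nat_lit 6) (nat_lit 7) (nat_lit 62) (nat_lit 167) r11_62 r6_167 (nat_lit 0) (nat_lit 0) (nat_lit 0) (nat_lit 0x8017985b4) (nat_lit 536870912),
  Rx.mk (nat_lit 452) (nat_lit 4) (nat_lit 0) (nat_lit 7) (nat_lit 4) (nat_lit 54) (nat_lit 154) r11_54 r6_154 (nat_lit 8887259) (nat_lit 8232258) (nat_lit 0) (nat_lit 0x752a94a10) (nat_lit 729817329),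
  Rx.mk (nat_lit 453) (nat_lit 5) (nat_lit 0) (nat_lit 7) (nat_lit 5) (nat_lit 58) (nat_lit 158) r11_58 r6_158 (nat_lit 0) (nat_lit 24863851) (nat_lit 0) (nat_lit 0x80051da7e) (nat_lit 562865263),
  Rx.mk (nat_lit 454) (nat_lit 6) (nat_lit 0) (nat_lit 7) (nat_lit 5) (nat_lit 63) (nat_lit 165) r11_63 r6_165 (nat_lit 0) (nat_lit 24741287) (nat_lit 0) (nat_lit 0x8017985b4) (nat_lit 561612199),
  Rx.mk (nat_lit 455) (nat_lit 7) (nat_lit 0) (nat_lit 7) (nat_lit 5) (nat_lit 66) (nat_lit 161) r11_66 r6_161 (nat_lit 0) (nat_lit 24741287) (nat_lit 0) (nat_lit 0x8017985b4) (nat_lit 561612199),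
  Rx.mk (nat_lit 468) (nat_lit 4) (nat_lit 2) (nat_lit 7) (nat_lit 6) (nat_lit 55) (nat_lit 156) r11_55 r6_156 (nat_lit 20819956) (nat_lit 0) (nat_lit 0) (nat_lit 0x80443f36a) (nat_lit 554944468),
  Rx.mk (nat_lit 469) (nat_lit 5) (nat_lit 2) (nat_lit 7) (nat_lit 7) (nat_lit 59) (nat_lit 160) r11_59 r6_160 (nat_lit 0) (nat_lit 0) (nat_lit 0) (nat_lit 0x8017985b4) (nat_lit 536870912),
  Rx.mk (nat_lit 471) (nat_lit 7) (nat_lit 2) (nat_lit 7) (nat_lit 7) (nat_lit 67) (nat_lit 162) r11_67 r6_162 (nat_lit 0) (nat_lit 0) (nat_lit 0) (nat_lit 0x8017985b4) (nat_lit 536870912),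
  Rx.mk (nat_lit 476) (nat_lit 4) (nat_lit 3) (nat_lit 7) (nat_lit 6) (nat_lit 56) (nat_lit 155) r11_56 r6_155 (nat_lit 11833070) (nat_lit 0) (nat_lit 0) (nat_lit 0x80dfff796) (nat_lit 536433782),
  Rx.mk (nat_lit 477) (nat_lit 5) (nat_lit 3) (nat_lit 7) (nat_lit 7) (nat_lit 60) (nat_lit 159) r11_60 r6_159 (nat_lit 0) (nat_lit 0) (nat_lit 0) (nat_lit 0x8017985b4) (nat_lit 536870912),
  Rx.mk (nat_lit 478) (nat_lit 6) (nat_lit 3) (nat_lit 7) (nat_lit 7) (nat_lit 64) (nat_lit 166) r11_64 r6_166 (nat_lit 0) (nat_lit 0) (nat_lit 0) (nat_lit 0x8017985b4) (nat_lit 536870912)]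
noncomputable def e55_33 : List Rx := [
  Rx.mk (nat_lit 260) (nat_lit 4) (nat_lit 0) (nat_lit 4) (nat_lit 0) (nat_lit 68) (nat_lit 202) r11_68 r5_202 (nat_lit 5946457) (nat_lit 4773935) (nat_lit 23484085) (nat_lit 0x49e63d70c) (nat_lit 1446456039),
  Rx.mk (nat_lit 261) (nat_lit 5) (nat_lit 0) (nat_lit 4) (nat_lit 1) (nat_lit 75) (nat_lit 206) r11_75 r5_206 (nat_lit 0) (nat_lit 35682471) (nat_lit 41438793) (nat_lit 0x752101d04) (nat_lit 790555976),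
  Rx.mk (nat_lit 262) (nat_lit 6) (nat_lit 0) (nat_lit 4) (nat_lit 1) (nat_lit 80) (nat_lit 209) r11_80 r5_209 (nat_lit 0) (nat_lit 10516416) (nat_lit 163052374) (nat_lit 0x79e792546) (nat_lit 809704152),
  Rx.mk (nat_lit 268) (nat_lit 4) (nat_lit 1) (nat_lit 4) (nat_lit 2) (nat_lit 69) (nat_lit 203) r11_69 r5_203 (nat_lit 33768507) (nat_lit 0) (nat_lit 55665677) (nat_lit 0x7ce62247e) (nat_lit 677311396),
  Rx.mk (nat_lit 270) (nat_lit 6) (nat_lit 1) (nat_lit 4) (nat_lit 3) (nat_lit 81) (nat_lit 210) r11_81 r5_210 (nat_lit 0) (nat_lit 0) (nat_lit 24741287) (nat_lit 0x8036bdc00) (nat_lit 559695499),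
  Rx.mk (nat_lit 276) (nat_lit 4) (nat_lit 2) (nat_lit 4) (nat_lit 2) (nat_lit 70) (nat_lit 205) r11_70 r5_205 (nat_lit 37783563) (nat_lit 0) (nat_lit 43048303) (nat_lit 0x7dabdf81a) (nat_lit 656267928),
  Rx.mk (nat_lit 277) (nat_lit 5) (nat_lit 2) (nat_lit 4) (nat_lit 3) (nat_lit 76) (nat_lit 208) r11_76 r5_208 (nat_lit 0) (nat_lit 0) (nat_lit 24741287) (nat_lit 0x8017985b4) (nat_lit 561612199),
  Rx.mk (nat_lit 284) (nat_lit 4) (nat_lit 3) (nat_lit 4) (nat_lit 2) (nat_lit 71) (nat_lit 204) r11_71 r5_204 (nat_lit 36801253) (nat_lit 0) (nat_lit 60413237) (nat_lit 0x7abb7e684) (nat_lit 720123752),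
  Rx.mk (nat_lit 285) (nat_lit 5) (nat_lit 3) (nat_lit 4) (nat_lit 3) (nat_lit 77) (nat_lit 207) r11_77 r5_207 (nat_lit 0) (nat_lit 0) (nat_lit 24741287) (nat_lit 0x8017985b4) (nat_lit 561612199),
  Rx.mk (nat_lit 286) (nat_lit 6) (nat_lit 3) (nat_lit 4) (nat_lit 3) (nat_lit 82) (nat_lit 211) r11_82 r5_211 (nat_lit 0) (nat_lit 0) (nat_lit 25956094) (nat_lit 0x80019bd60) (nat_lit 564158956),
  Rx.mk (nat_lit 390) (nat_lit 6) (nat_lit 0) (nat_lit 6) (nat_lit 5) (nat_lit 83) (nat_lit 222) r11_83 r5_222 (nat_lit 0) (nat_lit 20811975) (nat_lit 0) (nat_lit 0x7fde627e0) (nat_lit 561177737),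
  Rx.mk (nat_lit 398) (nat_lit 6) (nat_lit 1) (nat_lit 6) (nat_lit 7) (nat_lit 84) (nat_lit 223) r11_84 r5_223 (nat_lit 0) (nat_lit 0) (nat_lit 0) (nat_lit 0x8017985b4) (nat_lit 536870912),
  Rx.mk (nat_lit 414) (nat_lit 6) (nat_lit 3) (nat_lit 6) (nat_lit 7) (nat_lit 85) (nat_lit 224) r11_85 r5_224 (nat_lit 0) (nat_lit 0) (nat_lit 0) (nat_lit 0x8017985b4) (nat_lit 536870912),
  Rx.mk (nat_lit 452) (nat_lit 4) (nat_lit 0) (nat_lit 7) (nat_lit 4) (nat_lit 72) (nat_lit 212) r11_72 r5_212 (nat_lit 12323810) (nat_lit 8957018) (nat_lit 0) (nat_lit 0x6eeac40b2) (nat_lit 835033290),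
  Rx.mk (nat_lit 453) (nat_lit 5) (nat_lit 0) (nat_lit 7) (nat_lit 5) (nat_lit 78) (nat_lit 215) r11_78 r5_215 (nat_lit 0) (nat_lit 16307770) (nat_lit 0) (nat_lit 0x8072222be) (nat_lit 547606132),
  Rx.mk (nat_lit 454) (nat_lit 6) (nat_lit 0) (nat_lit 7) (nat_lit 5) (nat_lit 86) (nat_lit 220) r11_86 r5_220 (nat_lit 0) (nat_lit 16204149) (nat_lit 0) (nat_lit 0x809309fb8) (nat_lit 545503711),
  Rx.mk (nat_lit 455) (nat_lit 7) (nat_lit 0) (nat_lit 7) (nat_lit 5) (nat_lit 88) (nat_lit 217) r11_88 r5_217 (nat_lit 0) (nat_lit 24841657) (nat_lit 0) (nat_lit 0x7dc3688d8) (nat_lit 598810569),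
  Rx.mk (nat_lit 460) (nat_lit 4) (nat_lit 1) (nat_lit 7) (nat_lit 6) (nat_lit 73) (nat_lit 213) r11_73 r5_213 (nat_lit 18403732) (nat_lit 0) (nat_lit 0) (nat_lit 0x8068f7d2e) (nat_lit 550276494),
  Rx.mk (nat_lit 462) (nat_lit 6) (nat_lit 1) (nat_lit 7) (nat_lit 7) (nat_lit 87) (nat_lit 221) r11_87 r5_221 (nat_lit 0) (nat_lit 0) (nat_lit 0) (nat_lit 0x8017985b4) (nat_lit 536870912),
  Rx.mk (nat_lit 463) (nat_lit 7) (nat_lit 1) (nat_lit 7) (nat_lit 7) (nat_lit 89) (nat_lit 218) r11_89 r5_218 (nat_lit 0) (nat_lit 0) (nat_lit 0) (nat_lit 0x8017985b4) (nat_lit 536870912),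
  Rx.mk (nat_lit 468) (nat_lit 4) (nat_lit 2) (nat_lit 7) (nat_lit 6) (nat_lit 74) (nat_lit 214) r11_74 r5_214 (nat_lit 19699007) (nat_lit 0) (nat_lit 0) (nat_lit 0x7fd8785be) (nat_lit 560420169),
  Rx.mk (nat_lit 469) (nat_lit 5) (nat_lit 2) (nat_lit 7) (nat_lit 7) (nat_lit 79) (nat_lit 216) r11_79 r5_216 (nat_lit 0) (nat_lit 0) (nat_lit 0) (nat_lit 0x8017985b4) (nat_lit 536870912),
  Rx.mk (nat_lit 471) (nat_lit 7) (nat_lit 2) (nat_lit 7) (nat_lit 7) (nat_lit 90) (nat_lit 219) r11_90 r5_219 (nat_lit 0) (nat_lit 0) (nat_lit 0) (nat_lit 0x8017985b4) (nat_lit 536870912)]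
noncomputable def e55_34 : List Rx := [
  Rx.mk (nat_lit 260) (nat_lit 4) (nat_lit 0) (nat_lit 4) (nat_lit 0) (nat_lit 236) (nat_lit 236) r11_236 r11_236 (nat_lit 53843718) (nat_lit 32932365) (nat_lit 53843718) (nat_lit 0x5ad4d46f8) (nat_lit 1279235263),
  Rx.mk (nat_lit 261) (nat_lit 5) (nat_lit 0) (nat_lit 4) (nat_lit 1) (nat_lit 246) (nat_lit 240) r11_246 r11_240 (nat_lit 0) (nat_lit 36022396) (nat_lit 50819749) (nat_lit 0x7a243af02) (nat_lit 719244457),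
  Rx.mk (nat_lit 262) (nat_lit 6) (nat_lit 0) (nat_lit 4) (nat_lit 1) (nat_lit 254) (nat_lit 243) r11_254 r11_243 (nat_lit 0) (nat_lit 35875760) (nat_lit 37472217) (nat_lit 0x774eb43c6) (nat_lit 751561939),
  Rx.mk (nat_lit 268) (nat_lit 4) (nat_lit 1) (nat_lit 4) (nat_lit 2) (nat_lit 237) (nat_lit 237) r11_237 r11_237 (nat_lit 49618932) (nat_lit 0) (nat_lit 49618932) (nat_lit 0x7eda874a0) (nat_lit 655708776),
  Rx.mk (nat_lit 270) (nat_lit 6) (nat_lit 1) (nat_lit 4) (nat_lit 3) (nat_lit 255) (nat_lit 244) r11_255 r11_244 (nat_lit 0) (nat_lit 0) (nat_lit 24741287) (nat_lit 0x8017985b4) (nat_lit 561612199),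
  Rx.mk (nat_lit 276) (nat_lit 4) (nat_lit 2) (nat_lit 4) (nat_lit 2) (nat_lit 238) (nat_lit 239) r11_238 r11_239 (nat_lit 31419554) (nat_lit 0) (nat_lit 30414660) (nat_lit 0x7dc8ca060) (nat_lit 635354426),
  Rx.mk (nat_lit 277) (nat_lit 5) (nat_lit 2) (nat_lit 4) (nat_lit 3) (nat_lit 247) (nat_lit 242) r11_247 r11_242 (nat_lit 0) (nat_lit 0) (nat_lit 24741287) (nat_lit 0x8017985b4) (nat_lit 561612199),
  Rx.mk (nat_lit 284) (nat_lit 4) (nat_lit 3) (nat_lit 4) (nat_lit 2) (nat_lit 239) (nat_lit 238) r11_239 r11_238 (nat_lit 30414660) (nat_lit 0) (nat_lit 31419554) (nat_lit 0x7dc8ca060) (nat_lit 635354426),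
  Rx.mk (nat_lit 285) (nat_lit 5) (nat_lit 3) (nat_lit 4) (nat_lit 3) (nat_lit 248) (nat_lit 241) r11_248 r11_241 (nat_lit 0) (nat_lit 0) (nat_lit 24741287) (nat_lit 0x8017985b4) (nat_lit 561612199),
  Rx.mk (nat_lit 286) (nat_lit 6) (nat_lit 3) (nat_lit 4) (nat_lit 3) (nat_lit 256) (nat_lit 245) r11_256 r11_245 (nat_lit 0) (nat_lit 0) (nat_lit 24741287) (nat_lit 0x8017985b4) (nat_lit 561612199),
  Rx.mk (nat_lit 324) (nat_lit 4) (nat_lit 0) (nat_lit 5) (nat_lit 4) (nat_lit 240) (nat_lit 246) r11_240 r11_246 (nat_lit 50819749) (nat_lit 36022396) (nat_lit 0) (nat_lit 0x7a243af02) (nat_lit 719244457),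
  Rx.mk (nat_lit 325) (nat_lit 5) (nat_lit 0) (nat_lit 5) (nat_lit 5) (nat_lit 249) (nat_lit 249) r11_249 r11_249 (nat_lit 0) (nat_lit 24842793) (nat_lit 0) (nat_lit 0x7fa573ed4) (nat_lit 568719755),
  Rx.mk (nat_lit 326) (nat_lit 6) (nat_lit 0) (nat_lit 5) (nat_lit 5) (nat_lit 257) (nat_lit 252) r11_257 r11_252 (nat_lit 0) (nat_lit 24741287) (nat_lit 0) (nat_lit 0x8017985b4) (nat_lit 561612199),
  Rx.mk (nat_lit 340) (nat_lit 4) (nat_lit 2) (nat_lit 5) (nat_lit 6) (nat_lit 241) (nat_lit 248) r11_241 r11_248 (nat_lit 24741287) (nat_lit 0) (nat_lit 0) (nat_lit 0x8017985b4) (nat_lit 561612199),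
  Rx.mk (nat_lit 341) (nat_lit 5) (nat_lit 2) (nat_lit 5) (nat_lit 7) (nat_lit 250) (nat_lit 251) r11_250 r11_251 (nat_lit 0) (nat_lit 0) (nat_lit 0) (nat_lit 0x8017985b4) (nat_lit 536870912),
  Rx.mk (nat_lit 348) (nat_lit 4) (nat_lit 3) (nat_lit 5) (nat_lit 6) (nat_lit 242) (nat_lit 247) r11_242 r11_247 (nat_lit 24741287) (nat_lit 0) (nat_lit 0) (nat_lit 0x8017985b4) (nat_lit 561612199),
  Rx.mk (nat_lit 349) (nat_lit 5) (nat_lit 3) (nat_lit 5) (nat_lit 7) (nat_lit 251) (nat_lit 250) r11_251 r11_250 (nat_lit 0) (nat_lit 0) (nat_lit 0) (nat_lit 0x8017985b4) (nat_lit 536870912),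
  Rx.mk (nat_lit 350) (nat_lit 6) (nat_lit 3) (nat_lit 5) (nat_lit 7) (nat_lit 258) (nat_lit 253) r11_258 r11_253 (nat_lit 0) (nat_lit 0) (nat_lit 0) (nat_lit 0x8017985b4) (nat_lit 536870912),
  Rx.mk (nat_lit 390) (nat_lit 6) (nat_lit 0) (nat_lit 6) (nat_lit 5) (nat_lit 259) (nat_lit 262) r11_259 r11_262 (nat_lit 0) (nat_lit 24741287) (nat_lit 0) (nat_lit 0x8017985b4) (nat_lit 561612199),
  Rx.mk (nat_lit 398) (nat_lit 6) (nat_lit 1) (nat_lit 6) (nat_lit 7) (nat_lit 260) (nat_lit 263) r11_260 r11_263 (nat_lit 0) (nat_lit 0) (nat_lit 0) (nat_lit 0x8017985b4) (nat_lit 536870912),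
  Rx.mk (nat_lit 414) (nat_lit 6) (nat_lit 3) (nat_lit 6) (nat_lit 7) (nat_lit 261) (nat_lit 264) r11_261 r11_264 (nat_lit 0) (nat_lit 0) (nat_lit 0) (nat_lit 0x8017985b4) (nat_lit 536870912),
  Rx.mk (nat_lit 452) (nat_lit 4) (nat_lit 0) (nat_lit 7) (nat_lit 4) (nat_lit 243) (nat_lit 254) r11_243 r11_254 (nat_lit 37472217) (nat_lit 35875760) (nat_lit 0) (nat_lit 0x774eb43c6) (nat_lit 751561939),
  Rx.mk (nat_lit 453) (nat_lit 5) (nat_lit 0) (nat_lit 7) (nat_lit 5) (nat_lit 252) (nat_lit 257) r11_252 r11_257 (nat_lit 0) (nat_lit 24741287) (nat_lit 0) (nat_lit 0x8017985b4) (nat_lit 561612199),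
  Rx.mk (nat_lit 455) (nat_lit 7) (nat_lit 0) (nat_lit 7) (nat_lit 5) (nat_lit 262) (nat_lit 259) r11_262 r11_259 (nat_lit 0) (nat_lit 24741287) (nat_lit 0) (nat_lit 0x8017985b4) (nat_lit 561612199),
  Rx.mk (nat_lit 460) (nat_lit 4) (nat_lit 1) (nat_lit 7) (nat_lit 6) (nat_lit 244) (nat_lit 255) r11_244 r11_255 (nat_lit 24741287) (nat_lit 0) (nat_lit 0) (nat_lit 0x8017985b4) (nat_lit 561612199),
  Rx.mk (nat_lit 463) (nat_lit 7) (nat_lit 1) (nat_lit 7) (nat_lit 7) (nat_lit 263) (nat_lit 260) r11_263 r11_260 (nat_lit 0) (nat_lit 0) (nat_lit 0) (nat_lit 0x8017985b4) (nat_lit 536870912),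
  Rx.mk (nat_lit 468) (nat_lit 4) (nat_lit 2) (nat_lit 7) (nat_lit 6) (nat_lit 245) (nat_lit 256) r11_245 r11_256 (nat_lit 24741287) (nat_lit 0) (nat_lit 0) (nat_lit 0x8017985b4) (nat_lit 561612199),
  Rx.mk (nat_lit 469) (nat_lit 5) (nat_lit 2) (nat_lit 7) (nat_lit 7) (nat_lit 253) (nat_lit 258) r11_253 r11_258 (nat_lit 0) (nat_lit 0) (nat_lit 0) (nat_lit 0x8017985b4) (nat_lit 536870912),
  Rx.mk (nat_lit 471) (nat_lit 7) (nat_lit 2) (nat_lit 7) (nat_lit 7) (nat_lit 264) (nat_lit 261) r11_264 r11_261 (nat_lit 0) (nat_lit 0) (nat_lit 0) (nat_lit 0x8017985b4) (nat_lit 536870912)]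
noncomputable def e55_35 : List Rx := [
  Rx.mk (nat_lit 212) (nat_lit 4) (nat_lit 2) (nat_lit 3) (nat_lit 6) (nat_lit 284) (nat_lit 241) r11_284 r6_241 (nat_lit 4181752) (nat_lit 0) (nat_lit 0) (nat_lit 0x80bce2e16) (nat_lit 530625764),
  Rx.mk (nat_lit 213) (nat_lit 5) (nat_lit 2) (nat_lit 3) (nat_lit 7) (nat_lit 285) (nat_lit 242) r11_285 r6_242 (nat_lit 0) (nat_lit 0) (nat_lit 0) (nat_lit 0x84db9c5a6) (nat_lit 463462512),
  Rx.mk (nat_lit 215) (nat_lit 7) (nat_lit 2) (nat_lit 3) (nat_lit 7) (nat_lit 286) (nat_lit 243) r11_286 r6_243 (nat_lit 0) (nat_lit 0) (nat_lit 0) (nat_lit 0x8558f78ac) (nat_lit 456022662)]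
noncomputable def e55_36 : List Rx := [
  Rx.mk (nat_lit 212) (nat_lit 4) (nat_lit 2) (nat_lit 3) (nat_lit 6) (nat_lit 287) (nat_lit 441) r11_287 r12_441 (nat_lit 3201067) (nat_lit 0) (nat_lit 0) (nat_lit 0x80c289022) (nat_lit 529188929),
  Rx.mk (nat_lit 213) (nat_lit 5) (nat_lit 2) (nat_lit 3) (nat_lit 7) (nat_lit 291) (nat_lit 445) r11_291 r12_445 (nat_lit 0) (nat_lit 0) (nat_lit 0) (nat_lit 0x8f490b628) (nat_lit 304348712),
  Rx.mk (nat_lit 215) (nat_lit 7) (nat_lit 2) (nat_lit 3) (nat_lit 7) (nat_lit 297) (nat_lit 447) r11_297 r12_447 (nat_lit 0) (nat_lit 0) (nat_lit 0) (nat_lit 0x853b3dfaa) (nat_lit 457742362),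
  Rx.mk (nat_lit 452) (nat_lit 4) (nat_lit 0) (nat_lit 7) (nat_lit 4) (nat_lit 288) (nat_lit 439) r11_288 r12_439 (nat_lit 4468885) (nat_lit 4803434) (nat_lit 0) (nat_lit 0x77fe54128) (nat_lit 676180381),
  Rx.mk (nat_lit 453) (nat_lit 5) (nat_lit 0) (nat_lit 7) (nat_lit 5) (nat_lit 292) (nat_lit 443) r11_292 r12_443 (nat_lit 0) (nat_lit 16057116) (nat_lit 0) (nat_lit 0x7fc34d5cc) (nat_lit 558049628),
  Rx.mk (nat_lit 454) (nat_lit 6) (nat_lit 0) (nat_lit 7) (nat_lit 5) (nat_lit 295) (nat_lit 448) r11_295 r12_448 (nat_lit 0) (nat_lit 21075625) (nat_lit 0) (nat_lit 0x804227960) (nat_lit 555330187),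
  Rx.mk (nat_lit 468) (nat_lit 4) (nat_lit 2) (nat_lit 7) (nat_lit 6) (nat_lit 289) (nat_lit 442) r11_289 r12_442 (nat_lit 24820252) (nat_lit 0) (nat_lit 0) (nat_lit 0x800bab5a8) (nat_lit 562420664),
  Rx.mk (nat_lit 469) (nat_lit 5) (nat_lit 2) (nat_lit 7) (nat_lit 7) (nat_lit 293) (nat_lit 446) r11_293 r12_446 (nat_lit 0) (nat_lit 0) (nat_lit 0) (nat_lit 0x7ff71c2cc) (nat_lit 538851962),
  Rx.mk (nat_lit 476) (nat_lit 4) (nat_lit 3) (nat_lit 7) (nat_lit 6) (nat_lit 290) (nat_lit 440) r11_290 r12_440 (nat_lit 9075693) (nat_lit 0) (nat_lit 0) (nat_lit 0x80cd0b3ba) (nat_lit 534764955),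
  Rx.mk (nat_lit 477) (nat_lit 5) (nat_lit 3) (nat_lit 7) (nat_lit 7) (nat_lit 294) (nat_lit 444) r11_294 r12_444 (nat_lit 0) (nat_lit 0) (nat_lit 0) (nat_lit 0x804e46f70) (nat_lit 533487162),
  Rx.mk (nat_lit 478) (nat_lit 6) (nat_lit 3) (nat_lit 7) (nat_lit 7) (nat_lit 296) (nat_lit 449) r11_296 r12_449 (nat_lit 0) (nat_lit 0) (nat_lit 0) (nat_lit 0x8071a753c) (nat_lit 531344562)]
noncomputable def e55_37 : List Rx := [
  Rx.mk (nat_lit 422) (nat_lit 6) (nat_lit 4) (nat_lit 6) (nat_lit 5) (nat_lit 0) (nat_lit 152) r11_0 r0_152 (nat_lit 0) (nat_lit 24142843) (nat_lit 0) (nat_lit 0x7ecf6cf52) (nat_lit 581323155),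
  Rx.mk (nat_lit 446) (nat_lit 6) (nat_lit 7) (nat_lit 6) (nat_lit 7) (nat_lit 1) (nat_lit 153) r11_1 r0_153 (nat_lit 0) (nat_lit 0) (nat_lit 0) (nat_lit 0x80194a9fc) (nat_lit 536773062)]
noncomputable def e55_38 : List Rx := [
  Rx.mk (nat_lit 16) (nat_lit 0) (nat_lit 2) (nat_lit 0) (nat_lit 2) (nat_lit 91) (nat_lit 212) r11_91 r0_212 (nat_lit 18712504) (nat_lit 0) (nat_lit 170327518) (nat_lit 0x72fa2386a) (nat_lit 937148384),
  Rx.mk (nat_lit 19) (nat_lit 3) (nat_lit 2) (nat_lit 0) (nat_lit 3) (nat_lit 97) (nat_lit 213) r11_97 r0_213 (nat_lit 0) (nat_lit 0) (nat_lit 153834335) (nat_lit 0x7ce2c9da4) (nat_lit 741924097),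
  Rx.mk (nat_lit 48) (nat_lit 0) (nat_lit 6) (nat_lit 0) (nat_lit 2) (nat_lit 92) (nat_lit 219) r11_92 r0_219 (nat_lit 7944298) (nat_lit 0) (nat_lit 9949213) (nat_lit 0x6fc82cfd0) (nat_lit 817619223),
  Rx.mk (nat_lit 162) (nat_lit 2) (nat_lit 4) (nat_lit 2) (nat_lit 5) (nat_lit 94) (nat_lit 215) r11_94 r0_215 (nat_lit 0) (nat_lit 14894858) (nat_lit 0) (nat_lit 0x800926332) (nat_lit 552590770),
  Rx.mk (nat_lit 176) (nat_lit 0) (nat_lit 6) (nat_lit 2) (nat_lit 6) (nat_lit 93) (nat_lit 220) r11_93 r0_220 (nat_lit 15086968) (nat_lit 0) (nat_lit 0) (nat_lit 0x80b26ae3e) (nat_lit 542475880),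
  Rx.mk (nat_lit 178) (nat_lit 2) (nat_lit 6) (nat_lit 2) (nat_lit 7) (nat_lit 95) (nat_lit 221) r11_95 r0_221 (nat_lit 0) (nat_lit 0) (nat_lit 0) (nat_lit 0x805e5975a) (nat_lit 532528962),
  Rx.mk (nat_lit 211) (nat_lit 3) (nat_lit 2) (nat_lit 3) (nat_lit 7) (nat_lit 98) (nat_lit 214) r11_98 r0_214 (nat_lit 0) (nat_lit 0) (nat_lit 0) (nat_lit 0x8056e7ad0) (nat_lit 532778862),
  Rx.mk (nat_lit 418) (nat_lit 2) (nat_lit 4) (nat_lit 6) (nat_lit 5) (nat_lit 96) (nat_lit 216) r11_96 r0_216 (nat_lit 0) (nat_lit 12688314) (nat_lit 0) (nat_lit 0x803b0d346) (nat_lit 547294026),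
  Rx.mk (nat_lit 422) (nat_lit 6) (nat_lit 4) (nat_lit 6) (nat_lit 5) (nat_lit 99) (nat_lit 217) r11_99 r0_217 (nat_lit 0) (nat_lit 11279401) (nat_lit 0) (nat_lit 0x78e6c8c2e) (nat_lit 663631063),
  Rx.mk (nat_lit 446) (nat_lit 6) (nat_lit 7) (nat_lit 6) (nat_lit 7) (nat_lit 100) (nat_lit 218) r11_100 r0_218 (nat_lit 0) (nat_lit 0) (nat_lit 0) (nat_lit 0x81065e126) (nat_lit 522185862)]
noncomputable def e55_39 : List Rx := [
  Rx.mk (nat_lit 162) (nat_lit 2) (nat_lit 4) (nat_lit 2) (nat_lit 5) (nat_lit 102) (nat_lit 202) r11_102 r7_202 (nat_lit 0) (nat_lit 24836041) (nat_lit 0) (nat_lit 0x800a5d2d2) (nat_lit 562522353),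
  Rx.mk (nat_lit 176) (nat_lit 0) (nat_lit 6) (nat_lit 2) (nat_lit 6) (nat_lit 101) (nat_lit 200) r11_101 r7_200 (nat_lit 24741287) (nat_lit 0) (nat_lit 0) (nat_lit 0x8017985b4) (nat_lit 561612199),
  Rx.mk (nat_lit 178) (nat_lit 2) (nat_lit 6) (nat_lit 2) (nat_lit 7) (nat_lit 103) (nat_lit 203) r11_103 r7_203 (nat_lit 0) (nat_lit 0) (nat_lit 0) (nat_lit 0x8017985b4) (nat_lit 536870912),
  Rx.mk (nat_lit 418) (nat_lit 2) (nat_lit 4) (nat_lit 6) (nat_lit 5) (nat_lit 104) (nat_lit 201) r11_104 r7_201 (nat_lit 0) (nat_lit 24741287) (nat_lit 0) (nat_lit 0x8017985b4) (nat_lit 561612199),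
  Rx.mk (nat_lit 422) (nat_lit 6) (nat_lit 4) (nat_lit 6) (nat_lit 5) (nat_lit 105) (nat_lit 198) r11_105 r7_198 (nat_lit 0) (nat_lit 22333228) (nat_lit 0) (nat_lit 0x7fea265d6) (nat_lit 561979440),
  Rx.mk (nat_lit 446) (nat_lit 6) (nat_lit 7) (nat_lit 6) (nat_lit 7) (nat_lit 106) (nat_lit 199) r11_106 r7_199 (nat_lit 0) (nat_lit 0) (nat_lit 0) (nat_lit 0x8017985b4) (nat_lit 536870912)]
noncomputable def e55_40 : List Rx := [
  Rx.mk (nat_lit 16) (nat_lit 0) (nat_lit 2) (nat_lit 0) (nat_lit 2) (nat_lit 308) (nat_lit 241) r11_308 r2_241 (nat_lit 25006969) (nat_lit 0) (nat_lit 36134950) (nat_lit 0x75d2a943a) (nat_lit 763343081),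
  Rx.mk (nat_lit 17) (nat_lit 1) (nat_lit 2) (nat_lit 0) (nat_lit 3) (nat_lit 312) (nat_lit 242) r11_312 r2_242 (nat_lit 0) (nat_lit 0) (nat_lit 24741287) (nat_lit 0x8017985b4) (nat_lit 561612199),
  Rx.mk (nat_lit 48) (nat_lit 0) (nat_lit 6) (nat_lit 0) (nat_lit 2) (nat_lit 309) (nat_lit 246) r11_309 r2_246 (nat_lit 33757685) (nat_lit 0) (nat_lit 47863837) (nat_lit 0x7c693e598) (nat_lit 677403034),
  Rx.mk (nat_lit 49) (nat_lit 1) (nat_lit 6) (nat_lit 0) (nat_lit 3) (nat_lit 313) (nat_lit 247) r11_313 r2_247 (nat_lit 0) (nat_lit 0) (nat_lit 24741287) (nat_lit 0x8017985b4) (nat_lit 561612199),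
  Rx.mk (nat_lit 176) (nat_lit 0) (nat_lit 6) (nat_lit 2) (nat_lit 6) (nat_lit 310) (nat_lit 248) r11_310 r2_248 (nat_lit 24741287) (nat_lit 0) (nat_lit 0) (nat_lit 0x8017985b4) (nat_lit 561612199),
  Rx.mk (nat_lit 177) (nat_lit 1) (nat_lit 6) (nat_lit 2) (nat_lit 7) (nat_lit 314) (nat_lit 249) r11_314 r2_249 (nat_lit 0) (nat_lit 0) (nat_lit 0) (nat_lit 0x8017985b4) (nat_lit 536870912),
  Rx.mk (nat_lit 178) (nat_lit 2) (nat_lit 6) (nat_lit 2) (nat_lit 7) (nat_lit 316) (nat_lit 250) r11_316 r2_250 (nat_lit 0) (nat_lit 0) (nat_lit 0) (nat_lit 0x8017985b4) (nat_lit 536870912),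
  Rx.mk (nat_lit 208) (nat_lit 0) (nat_lit 2) (nat_lit 3) (nat_lit 6) (nat_lit 311) (nat_lit 243) r11_311 r2_243 (nat_lit 24741287) (nat_lit 0) (nat_lit 0) (nat_lit 0x8017985b4) (nat_lit 561612199),
  Rx.mk (nat_lit 209) (nat_lit 1) (nat_lit 2) (nat_lit 3) (nat_lit 7) (nat_lit 315) (nat_lit 244) r11_315 r2_244 (nat_lit 0) (nat_lit 0) (nat_lit 0) (nat_lit 0x8017985b4) (nat_lit 536870912),
  Rx.mk (nat_lit 211) (nat_lit 3) (nat_lit 2) (nat_lit 3) (nat_lit 7) (nat_lit 317) (nat_lit 245) r11_317 r2_245 (nat_lit 0) (nat_lit 0) (nat_lit 0) (nat_lit 0x8017985b4) (nat_lit 536870912)]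
noncomputable def e55_41 : List Rx := [
  Rx.mk (nat_lit 176) (nat_lit 0) (nat_lit 6) (nat_lit 2) (nat_lit 6) (nat_lit 330) (nat_lit 216) r11_330 r9_216 (nat_lit 24741287) (nat_lit 0) (nat_lit 0) (nat_lit 0x8017985b4) (nat_lit 561612199),
  Rx.mk (nat_lit 177) (nat_lit 1) (nat_lit 6) (nat_lit 2) (nat_lit 7) (nat_lit 331) (nat_lit 217) r11_331 r9_217 (nat_lit 0) (nat_lit 0) (nat_lit 0) (nat_lit 0x8017985b4) (nat_lit 536870912),
  Rx.mk (nat_lit 178) (nat_lit 2) (nat_lit 6) (nat_lit 2) (nat_lit 7) (nat_lit 332) (nat_lit 218) r11_332 r9_218 (nat_lit 0) (nat_lit 0) (nat_lit 0) (nat_lit 0x8017985b4) (nat_lit 536870912)]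
noncomputable def e55_42 : List Rx := [
  Rx.mk (nat_lit 16) (nat_lit 0) (nat_lit 2) (nat_lit 0) (nat_lit 2) (nat_lit 318) (nat_lit 231) r11_318 r9_231 (nat_lit 43672610) (nat_lit 0) (nat_lit 43848106) (nat_lit 0x78800f28a) (nat_lit 746426178),
  Rx.mk (nat_lit 17) (nat_lit 1) (nat_lit 2) (nat_lit 0) (nat_lit 3) (nat_lit 322) (nat_lit 232) r11_322 r9_232 (nat_lit 0) (nat_lit 0) (nat_lit 24741287) (nat_lit 0x8017985b4) (nat_lit 561612199),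
  Rx.mk (nat_lit 48) (nat_lit 0) (nat_lit 6) (nat_lit 0) (nat_lit 2) (nat_lit 319) (nat_lit 229) r11_319 r9_229 (nat_lit 47287016) (nat_lit 0) (nat_lit 47287016) (nat_lit 0x7cbaf48b0) (nat_lit 685204344),
  Rx.mk (nat_lit 49) (nat_lit 1) (nat_lit 6) (nat_lit 0) (nat_lit 3) (nat_lit 323) (nat_lit 230) r11_323 r9_230 (nat_lit 0) (nat_lit 0) (nat_lit 24741287) (nat_lit 0x8017985b4) (nat_lit 561612199),
  Rx.mk (nat_lit 81) (nat_lit 1) (nat_lit 2) (nat_lit 1) (nat_lit 7) (nat_lit 324) (nat_lit 234) r11_324 r9_234 (nat_lit 0) (nat_lit 0) (nat_lit 0) (nat_lit 0x8017985b4) (nat_lit 536870912),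
  Rx.mk (nat_lit 113) (nat_lit 1) (nat_lit 6) (nat_lit 1) (nat_lit 7) (nat_lit 325) (nat_lit 233) r11_325 r9_233 (nat_lit 0) (nat_lit 0) (nat_lit 0) (nat_lit 0x8017985b4) (nat_lit 536870912),
  Rx.mk (nat_lit 176) (nat_lit 0) (nat_lit 6) (nat_lit 2) (nat_lit 6) (nat_lit 320) (nat_lit 238) r11_320 r9_238 (nat_lit 24741287) (nat_lit 0) (nat_lit 0) (nat_lit 0x8017985b4) (nat_lit 561612199),
  Rx.mk (nat_lit 177) (nat_lit 1) (nat_lit 6) (nat_lit 2) (nat_lit 7) (nat_lit 326) (nat_lit 239) r11_326 r9_239 (nat_lit 0) (nat_lit 0) (nat_lit 0) (nat_lit 0x8017985b4) (nat_lit 536870912),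
  Rx.mk (nat_lit 178) (nat_lit 2) (nat_lit 6) (nat_lit 2) (nat_lit 7) (nat_lit 328) (nat_lit 240) r11_328 r9_240 (nat_lit 0) (nat_lit 0) (nat_lit 0) (nat_lit 0x8017985b4) (nat_lit 536870912),
  Rx.mk (nat_lit 208) (nat_lit 0) (nat_lit 2) (nat_lit 3) (nat_lit 6) (nat_lit 321) (nat_lit 235) r11_321 r9_235 (nat_lit 24741287) (nat_lit 0) (nat_lit 0) (nat_lit 0x8017985b4) (nat_lit 561612199),
  Rx.mk (nat_lit 209) (nat_lit 1) (nat_lit 2) (nat_lit 3) (nat_lit 7) (nat_lit 327) (nat_lit 236) r11_327 r9_236 (nat_lit 0) (nat_lit 0) (nat_lit 0) (nat_lit 0x8017985b4) (nat_lit 536870912),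
  Rx.mk (nat_lit 211) (nat_lit 3) (nat_lit 2) (nat_lit 3) (nat_lit 7) (nat_lit 329) (nat_lit 237) r11_329 r9_237 (nat_lit 0) (nat_lit 0) (nat_lit 0) (nat_lit 0x8017985b4) (nat_lit 536870912)]
noncomputable def e55_43 : List Rx := [
  Rx.mk (nat_lit 16) (nat_lit 0) (nat_lit 2) (nat_lit 0) (nat_lit 2) (nat_lit 107) (nat_lit 234) r11_107 r1_234 (nat_lit 26935402) (nat_lit 0) (nat_lit 88719546) (nat_lit 0x76bea858e) (nat_lit 802950560),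
  Rx.mk (nat_lit 19) (nat_lit 3) (nat_lit 2) (nat_lit 0) (nat_lit 3) (nat_lit 111) (nat_lit 235) r11_111 r1_235 (nat_lit 0) (nat_lit 0) (nat_lit 25084538) (nat_lit 0x8001d6c6c) (nat_lit 563283450),
  Rx.mk (nat_lit 48) (nat_lit 0) (nat_lit 6) (nat_lit 0) (nat_lit 2) (nat_lit 108) (nat_lit 237) r11_108 r1_237 (nat_lit 45330043) (nat_lit 0) (nat_lit 51763813) (nat_lit 0x7bfdcf3ca) (nat_lit 699634368),
  Rx.mk (nat_lit 176) (nat_lit 0) (nat_lit 6) (nat_lit 2) (nat_lit 6) (nat_lit 109) (nat_lit 238) r11_109 r1_238 (nat_lit 24741287) (nat_lit 0) (nat_lit 0) (nat_lit 0x8017985b4) (nat_lit 561612199),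
  Rx.mk (nat_lit 178) (nat_lit 2) (nat_lit 6) (nat_lit 2) (nat_lit 7) (nat_lit 110) (nat_lit 239) r11_110 r1_239 (nat_lit 0) (nat_lit 0) (nat_lit 0) (nat_lit 0x8017985b4) (nat_lit 536870912),
  Rx.mk (nat_lit 211) (nat_lit 3) (nat_lit 2) (nat_lit 3) (nat_lit 7) (nat_lit 112) (nat_lit 236) r11_112 r1_236 (nat_lit 0) (nat_lit 0) (nat_lit 0) (nat_lit 0x81471cbfe) (nat_lit 518335312)]
noncomputable def e55_44 : List Rx := [
  Rx.mk (nat_lit 176) (nat_lit 0) (nat_lit 6) (nat_lit 2) (nat_lit 6) (nat_lit 113) (nat_lit 157) r11_113 r8_157 (nat_lit 24741287) (nat_lit 0) (nat_lit 0) (nat_lit 0x8017985b4) (nat_lit 561612199),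
  Rx.mk (nat_lit 178) (nat_lit 2) (nat_lit 6) (nat_lit 2) (nat_lit 7) (nat_lit 114) (nat_lit 158) r11_114 r8_158 (nat_lit 0) (nat_lit 0) (nat_lit 0) (nat_lit 0x8017985b4) (nat_lit 536870912)]
noncomputable def e55_45 : List Rx := [
  Rx.mk (nat_lit 422) (nat_lit 6) (nat_lit 4) (nat_lit 6) (nat_lit 5) (nat_lit 2) (nat_lit 166) r11_2 r1_166 (nat_lit 0) (nat_lit 24107596) (nat_lit 0) (nat_lit 0x800249f8c) (nat_lit 562289358),
  Rx.mk (nat_lit 430) (nat_lit 6) (nat_lit 5) (nat_lit 6) (nat_lit 7) (nat_lit 3) (nat_lit 167) r11_3 r1_167 (nat_lit 0) (nat_lit 0) (nat_lit 0) (nat_lit 0x8017985b4) (nat_lit 536870912),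
  Rx.mk (nat_lit 446) (nat_lit 6) (nat_lit 7) (nat_lit 6) (nat_lit 7) (nat_lit 4) (nat_lit 168) r11_4 r1_168 (nat_lit 0) (nat_lit 0) (nat_lit 0) (nat_lit 0x8017985b4) (nat_lit 536870912)]
noncomputable def e55_46 : List Rx := [
  Rx.mk (nat_lit 430) (nat_lit 6) (nat_lit 5) (nat_lit 6) (nat_lit 7) (nat_lit 5) (nat_lit 167) r11_5 r2_167 (nat_lit 0) (nat_lit 0) (nat_lit 0) (nat_lit 0x8017985b4) (nat_lit 536870912)]
noncomputable def e55_47 : List Rx := [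
  Rx.mk (nat_lit 162) (nat_lit 2) (nat_lit 4) (nat_lit 2) (nat_lit 5) (nat_lit 115) (nat_lit 206) r11_115 r8_206 (nat_lit 0) (nat_lit 24741287) (nat_lit 0) (nat_lit 0x8017985b4) (nat_lit 561612199),
  Rx.mk (nat_lit 170) (nat_lit 2) (nat_lit 5) (nat_lit 2) (nat_lit 7) (nat_lit 116) (nat_lit 209) r11_116 r8_209 (nat_lit 0) (nat_lit 0) (nat_lit 0) (nat_lit 0x8017985b4) (nat_lit 536870912),
  Rx.mk (nat_lit 178) (nat_lit 2) (nat_lit 6) (nat_lit 2) (nat_lit 7) (nat_lit 117) (nat_lit 213) r11_117 r8_213 (nat_lit 0) (nat_lit 0) (nat_lit 0) (nat_lit 0x8017985b4) (nat_lit 536870912),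
  Rx.mk (nat_lit 418) (nat_lit 2) (nat_lit 4) (nat_lit 6) (nat_lit 5) (nat_lit 118) (nat_lit 207) r11_118 r8_207 (nat_lit 0) (nat_lit 24741287) (nat_lit 0) (nat_lit 0x8017985b4) (nat_lit 561612199),
  Rx.mk (nat_lit 422) (nat_lit 6) (nat_lit 4) (nat_lit 6) (nat_lit 5) (nat_lit 120) (nat_lit 208) r11_120 r8_208 (nat_lit 0) (nat_lit 28059580) (nat_lit 0) (nat_lit 0x7f58302f8) (nat_lit 576670492),
  Rx.mk (nat_lit 426) (nat_lit 2) (nat_lit 5) (nat_lit 6) (nat_lit 7) (nat_lit 119) (nat_lit 210) r11_119 r8_210 (nat_lit 0) (nat_lit 0) (nat_lit 0) (nat_lit 0x8017985b4) (nat_lit 536870912),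
  Rx.mk (nat_lit 430) (nat_lit 6) (nat_lit 5) (nat_lit 6) (nat_lit 7) (nat_lit 121) (nat_lit 211) r11_121 r8_211 (nat_lit 0) (nat_lit 0) (nat_lit 0) (nat_lit 0x8017985b4) (nat_lit 536870912),
  Rx.mk (nat_lit 446) (nat_lit 6) (nat_lit 7) (nat_lit 6) (nat_lit 7) (nat_lit 122) (nat_lit 212) r11_122 r8_212 (nat_lit 0) (nat_lit 0) (nat_lit 0) (nat_lit 0x8017985b4) (nat_lit 536870912)]
noncomputable def e55_48 : List Rx := [
  Rx.mk (nat_lit 426) (nat_lit 2) (nat_lit 5) (nat_lit 6) (nat_lit 7) (nat_lit 123) (nat_lit 147) r11_123 r9_147 (nat_lit 0) (nat_lit 0) (nat_lit 0) (nat_lit 0x8017985b4) (nat_lit 536870912),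
  Rx.mk (nat_lit 430) (nat_lit 6) (nat_lit 5) (nat_lit 6) (nat_lit 7) (nat_lit 124) (nat_lit 146) r11_124 r9_146 (nat_lit 0) (nat_lit 0) (nat_lit 0) (nat_lit 0x8017985b4) (nat_lit 536870912)]
noncomputable def e55_49 : List Rx := [
  Rx.mk (nat_lit 430) (nat_lit 6) (nat_lit 5) (nat_lit 6) (nat_lit 7) (nat_lit 164) (nat_lit 214) r11_164 r9_214 (nat_lit 0) (nat_lit 0) (nat_lit 0) (nat_lit 0x8017985b4) (nat_lit 536870912)]
noncomputable def e55_50 : List Rx := [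
  Rx.mk (nat_lit 215) (nat_lit 7) (nat_lit 2) (nat_lit 3) (nat_lit 7) (nat_lit 7) (nat_lit 139) r11_7 r3_139 (nat_lit 0) (nat_lit 0) (nat_lit 0) (nat_lit 0x8f1cadf90) (nat_lit 306718562),
  Rx.mk (nat_lit 446) (nat_lit 6) (nat_lit 7) (nat_lit 6) (nat_lit 7) (nat_lit 6) (nat_lit 140) r11_6 r3_140 (nat_lit 0) (nat_lit 0) (nat_lit 0) (nat_lit 0x884245afc) (nat_lit 411412412)]
noncomputable def e55_51 : List Rx := [
  Rx.mk (nat_lit 446) (nat_lit 6) (nat_lit 7) (nat_lit 6) (nat_lit 7) (nat_lit 8) (nat_lit 143) r11_8 r4_143 (nat_lit 0) (nat_lit 0) (nat_lit 0) (nat_lit 0x7ff232496) (nat_lit 539166062)]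
noncomputable def e55_52 : List Rx := [
  Rx.mk (nat_lit 215) (nat_lit 7) (nat_lit 2) (nat_lit 3) (nat_lit 7) (nat_lit 15) (nat_lit 145) r11_15 r5_145 (nat_lit 0) (nat_lit 0) (nat_lit 0) (nat_lit 0x839723e3e) (nat_lit 482866162),
  Rx.mk (nat_lit 284) (nat_lit 4) (nat_lit 3) (nat_lit 4) (nat_lit 2) (nat_lit 9) (nat_lit 140) r11_9 r5_140 (nat_lit 474232) (nat_lit 0) (nat_lit 674925) (nat_lit 0x722cb1ea4) (nat_lit 761731069),
  Rx.mk (nat_lit 286) (nat_lit 6) (nat_lit 3) (nat_lit 4) (nat_lit 3) (nat_lit 11) (nat_lit 146) r11_11 r5_146 (nat_lit 0) (nat_lit 0) (nat_lit 9828533) (nat_lit 0x7fdfbd658) (nat_lit 549901095),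
  Rx.mk (nat_lit 414) (nat_lit 6) (nat_lit 3) (nat_lit 6) (nat_lit 7) (nat_lit 12) (nat_lit 149) r11_12 r5_149 (nat_lit 0) (nat_lit 0) (nat_lit 0) (nat_lit 0x80700d5c8) (nat_lit 531445012),
  Rx.mk (nat_lit 446) (nat_lit 6) (nat_lit 7) (nat_lit 6) (nat_lit 7) (nat_lit 13) (nat_lit 148) r11_13 r5_148 (nat_lit 0) (nat_lit 0) (nat_lit 0) (nat_lit 0x8219c55ce) (nat_lit 505691562),
  Rx.mk (nat_lit 455) (nat_lit 7) (nat_lit 0) (nat_lit 7) (nat_lit 5) (nat_lit 16) (nat_lit 142) r11_16 r5_142 (nat_lit 0) (nat_lit 13610733) (nat_lit 0) (nat_lit 0x7f8c34efa) (nat_lit 558980045),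
  Rx.mk (nat_lit 471) (nat_lit 7) (nat_lit 2) (nat_lit 7) (nat_lit 7) (nat_lit 17) (nat_lit 144) r11_17 r5_144 (nat_lit 0) (nat_lit 0) (nat_lit 0) (nat_lit 0x804f3bf3e) (nat_lit 533452962),
  Rx.mk (nat_lit 476) (nat_lit 4) (nat_lit 3) (nat_lit 7) (nat_lit 6) (nat_lit 10) (nat_lit 141) r11_10 r5_141 (nat_lit 4328604) (nat_lit 0) (nat_lit 0) (nat_lit 0x8397c64a4) (nat_lit 487049866),
  Rx.mk (nat_lit 478) (nat_lit 6) (nat_lit 3) (nat_lit 7) (nat_lit 7) (nat_lit 14) (nat_lit 147) r11_14 r5_147 (nat_lit 0) (nat_lit 0) (nat_lit 0) (nat_lit 0x81c0f7b72) (nat_lit 511039762),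
  Rx.mk (nat_lit 479) (nat_lit 7) (nat_lit 3) (nat_lit 7) (nat_lit 7) (nat_lit 18) (nat_lit 143) r11_18 r5_143 (nat_lit 0) (nat_lit 0) (nat_lit 0) (nat_lit 0x804f350bc) (nat_lit 533454612)]
noncomputable def e55_53 : List Rx := [
  Rx.mk (nat_lit 19) (nat_lit 3) (nat_lit 2) (nat_lit 0) (nat_lit 3) (nat_lit 131) (nat_lit 205) r11_131 r4_205 (nat_lit 0) (nat_lit 0) (nat_lit 31334360) (nat_lit 0x7f54de2a8) (nat_lit 580083322),
  Rx.mk (nat_lit 48) (nat_lit 0) (nat_lit 6) (nat_lit 0) (nat_lit 2) (nat_lit 125) (nat_lit 212) r11_125 r4_212 (nat_lit 514055) (nat_lit 0) (nat_lit 616962) (nat_lit 0x69c2df4b6) (nat_lit 897748479),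
  Rx.mk (nat_lit 51) (nat_lit 3) (nat_lit 6) (nat_lit 0) (nat_lit 3) (nat_lit 132) (nat_lit 213) r11_132 r4_213 (nat_lit 0) (nat_lit 0) (nat_lit 13764592) (nat_lit 0x8088c91ca) (nat_lit 543663854),
  Rx.mk (nat_lit 162) (nat_lit 2) (nat_lit 4) (nat_lit 2) (nat_lit 5) (nat_lit 127) (nat_lit 208) r11_127 r4_208 (nat_lit 0) (nat_lit 12952000) (nat_lit 0) (nat_lit 0x80562ac28) (nat_lit 545915612),
  Rx.mk (nat_lit 176) (nat_lit 0) (nat_lit 6) (nat_lit 2) (nat_lit 6) (nat_lit 126) (nat_lit 214) r11_126 r4_214 (nat_lit 10106242) (nat_lit 0) (nat_lit 0) (nat_lit 0x8153a01f0) (nat_lit 527714454),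
  Rx.mk (nat_lit 178) (nat_lit 2) (nat_lit 6) (nat_lit 2) (nat_lit 7) (nat_lit 128) (nat_lit 216) r11_128 r4_216 (nat_lit 0) (nat_lit 0) (nat_lit 0) (nat_lit 0x80812fcde) (nat_lit 530394062),
  Rx.mk (nat_lit 179) (nat_lit 3) (nat_lit 6) (nat_lit 2) (nat_lit 7) (nat_lit 133) (nat_lit 215) r11_133 r4_215 (nat_lit 0) (nat_lit 0) (nat_lit 0) (nat_lit 0x807403de4) (nat_lit 531198062),
  Rx.mk (nat_lit 211) (nat_lit 3) (nat_lit 2) (nat_lit 3) (nat_lit 7) (nat_lit 134) (nat_lit 206) r11_134 r4_206 (nat_lit 0) (nat_lit 0) (nat_lit 0) (nat_lit 0x81e84d53c) (nat_lit 508548712),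
  Rx.mk (nat_lit 215) (nat_lit 7) (nat_lit 2) (nat_lit 3) (nat_lit 7) (nat_lit 136) (nat_lit 207) r11_136 r4_207 (nat_lit 0) (nat_lit 0) (nat_lit 0) (nat_lit 0x825f8dcd2) (nat_lit 501520162),
  Rx.mk (nat_lit 418) (nat_lit 2) (nat_lit 4) (nat_lit 6) (nat_lit 5) (nat_lit 129) (nat_lit 209) r11_129 r4_209 (nat_lit 0) (nat_lit 13063204) (nat_lit 0) (nat_lit 0x7f229ebd0) (nat_lit 564962416),
  Rx.mk (nat_lit 442) (nat_lit 2) (nat_lit 7) (nat_lit 6) (nat_lit 7) (nat_lit 130) (nat_lit 210) r11_130 r4_210 (nat_lit 0) (nat_lit 0) (nat_lit 0) (nat_lit 0x81dd34f24) (nat_lit 509302462),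
  Rx.mk (nat_lit 446) (nat_lit 6) (nat_lit 7) (nat_lit 6) (nat_lit 7) (nat_lit 135) (nat_lit 211) r11_135 r4_211 (nat_lit 0) (nat_lit 0) (nat_lit 0) (nat_lit 0x80f168d7a) (nat_lit 523350662)]
noncomputable def e55_54 : List Rx := [
  Rx.mk (nat_lit 162) (nat_lit 2) (nat_lit 4) (nat_lit 2) (nat_lit 5) (nat_lit 138) (nat_lit 159) r11_138 r10_159 (nat_lit 0) (nat_lit 24741287) (nat_lit 0) (nat_lit 0x8017985b4) (nat_lit 561612199),
  Rx.mk (nat_lit 176) (nat_lit 0) (nat_lit 6) (nat_lit 2) (nat_lit 6) (nat_lit 137) (nat_lit 155) r11_137 r10_155 (nat_lit 24741287) (nat_lit 0) (nat_lit 0) (nat_lit 0x8017985b4) (nat_lit 561612199),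
  Rx.mk (nat_lit 178) (nat_lit 2) (nat_lit 6) (nat_lit 2) (nat_lit 7) (nat_lit 139) (nat_lit 160) r11_139 r10_160 (nat_lit 0) (nat_lit 0) (nat_lit 0) (nat_lit 0x8017985b4) (nat_lit 536870912),
  Rx.mk (nat_lit 179) (nat_lit 3) (nat_lit 6) (nat_lit 2) (nat_lit 7) (nat_lit 142) (nat_lit 156) r11_142 r10_156 (nat_lit 0) (nat_lit 0) (nat_lit 0) (nat_lit 0x8017985b4) (nat_lit 536870912),
  Rx.mk (nat_lit 418) (nat_lit 2) (nat_lit 4) (nat_lit 6) (nat_lit 5) (nat_lit 140) (nat_lit 157) r11_140 r10_157 (nat_lit 0) (nat_lit 24894793) (nat_lit 0) (nat_lit 0x8000a4c72) (nat_lit 563170405),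
  Rx.mk (nat_lit 442) (nat_lit 2) (nat_lit 7) (nat_lit 6) (nat_lit 7) (nat_lit 141) (nat_lit 158) r11_141 r10_158 (nat_lit 0) (nat_lit 0) (nat_lit 0) (nat_lit 0x8017985b4) (nat_lit 536870912),
  Rx.mk (nat_lit 446) (nat_lit 6) (nat_lit 7) (nat_lit 6) (nat_lit 7) (nat_lit 143) (nat_lit 154) r11_143 r10_154 (nat_lit 0) (nat_lit 0) (nat_lit 0) (nat_lit 0x8017985b4) (nat_lit 536870912)]
noncomputable def e55_55 : List Rx := [
  Rx.mk (nat_lit 48) (nat_lit 0) (nat_lit 6) (nat_lit 0) (nat_lit 2) (nat_lit 144) (nat_lit 154) r11_144 r11_154 (nat_lit 2309132) (nat_lit 0) (nat_lit 2749576) (nat_lit 0x74869b7b0) (nat_lit 727898020),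
  Rx.mk (nat_lit 51) (nat_lit 3) (nat_lit 6) (nat_lit 0) (nat_lit 3) (nat_lit 150) (nat_lit 156) r11_150 r11_156 (nat_lit 0) (nat_lit 0) (nat_lit 22669922) (nat_lit 0x800c22b12) (nat_lit 560231734),
  Rx.mk (nat_lit 162) (nat_lit 2) (nat_lit 4) (nat_lit 2) (nat_lit 5) (nat_lit 146) (nat_lit 161) r11_146 r11_161 (nat_lit 0) (nat_lit 22142472) (nat_lit 0) (nat_lit 0x800df71e0) (nat_lit 559592834),
  Rx.mk (nat_lit 176) (nat_lit 0) (nat_lit 6) (nat_lit 2) (nat_lit 6) (nat_lit 145) (nat_lit 155) r11_145 r11_155 (nat_lit 19246826) (nat_lit 0) (nat_lit 0) (nat_lit 0x8067e6958) (nat_lit 551201238),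
  Rx.mk (nat_lit 178) (nat_lit 2) (nat_lit 6) (nat_lit 2) (nat_lit 7) (nat_lit 147) (nat_lit 163) r11_147 r11_163 (nat_lit 0) (nat_lit 0) (nat_lit 0) (nat_lit 0x8017985b4) (nat_lit 536870912),
  Rx.mk (nat_lit 179) (nat_lit 3) (nat_lit 6) (nat_lit 2) (nat_lit 7) (nat_lit 151) (nat_lit 159) r11_151 r11_159 (nat_lit 0) (nat_lit 0) (nat_lit 0) (nat_lit 0x8017985b4) (nat_lit 536870912),
  Rx.mk (nat_lit 186) (nat_lit 2) (nat_lit 7) (nat_lit 2) (nat_lit 7) (nat_lit 148) (nat_lit 162) r11_148 r11_162 (nat_lit 0) (nat_lit 0) (nat_lit 0) (nat_lit 0x8017985b4) (nat_lit 536870912),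
  Rx.mk (nat_lit 211) (nat_lit 3) (nat_lit 2) (nat_lit 3) (nat_lit 7) (nat_lit 152) (nat_lit 158) r11_152 r11_158 (nat_lit 0) (nat_lit 0) (nat_lit 0) (nat_lit 0x80b7ebb88) (nat_lit 527004212),
  Rx.mk (nat_lit 215) (nat_lit 7) (nat_lit 2) (nat_lit 3) (nat_lit 7) (nat_lit 160) (nat_lit 149) r11_160 r11_149 (nat_lit 0) (nat_lit 0) (nat_lit 0) (nat_lit 0x801359f98) (nat_lit 537129362),
  Rx.mk (nat_lit 243) (nat_lit 3) (nat_lit 6) (nat_lit 3) (nat_lit 7) (nat_lit 153) (nat_lit 157) r11_153 r11_157 (nat_lit 0) (nat_lit 0) (nat_lit 0) (nat_lit 0x8017985b4) (nat_lit 536870912),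
  Rx.mk (nat_lit 284) (nat_lit 4) (nat_lit 3) (nat_lit 4) (nat_lit 2) (nat_lit 154) (nat_lit 144) r11_154 r11_144 (nat_lit 2309132) (nat_lit 0) (nat_lit 2749576) (nat_lit 0x74869b7b0) (nat_lit 727898020),
  Rx.mk (nat_lit 286) (nat_lit 6) (nat_lit 3) (nat_lit 4) (nat_lit 3) (nat_lit 156) (nat_lit 150) r11_156 r11_150 (nat_lit 0) (nat_lit 0) (nat_lit 22669922) (nat_lit 0x800c22b12) (nat_lit 560231734),
  Rx.mk (nat_lit 414) (nat_lit 6) (nat_lit 3) (nat_lit 6) (nat_lit 7) (nat_lit 157) (nat_lit 153) r11_157 r11_153 (nat_lit 0) (nat_lit 0) (nat_lit 0) (nat_lit 0x8017985b4) (nat_lit 536870912),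
  Rx.mk (nat_lit 442) (nat_lit 2) (nat_lit 7) (nat_lit 6) (nat_lit 7) (nat_lit 149) (nat_lit 160) r11_149 r11_160 (nat_lit 0) (nat_lit 0) (nat_lit 0) (nat_lit 0x801359f98) (nat_lit 537129362),
  Rx.mk (nat_lit 446) (nat_lit 6) (nat_lit 7) (nat_lit 6) (nat_lit 7) (nat_lit 158) (nat_lit 152) r11_158 r11_152 (nat_lit 0) (nat_lit 0) (nat_lit 0) (nat_lit 0x80b7ebb88) (nat_lit 527004212),
  Rx.mk (nat_lit 455) (nat_lit 7) (nat_lit 0) (nat_lit 7) (nat_lit 5) (nat_lit 161) (nat_lit 146) r11_161 r11_146 (nat_lit 0) (nat_lit 22142472) (nat_lit 0) (nat_lit 0x800df71e0) (nat_lit 559592834),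
  Rx.mk (nat_lit 471) (nat_lit 7) (nat_lit 2) (nat_lit 7) (nat_lit 7) (nat_lit 162) (nat_lit 148) r11_162 r11_148 (nat_lit 0) (nat_lit 0) (nat_lit 0) (nat_lit 0x8017985b4) (nat_lit 536870912),
  Rx.mk (nat_lit 476) (nat_lit 4) (nat_lit 3) (nat_lit 7) (nat_lit 6) (nat_lit 155) (nat_lit 145) r11_155 r11_145 (nat_lit 19246826) (nat_lit 0) (nat_lit 0) (nat_lit 0x8067e6958) (nat_lit 551201238),
  Rx.mk (nat_lit 478) (nat_lit 6) (nat_lit 3) (nat_lit 7) (nat_lit 7) (nat_lit 159) (nat_lit 151) r11_159 r11_151 (nat_lit 0) (nat_lit 0) (nat_lit 0) (nat_lit 0x8017985b4) (nat_lit 536870912),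
  Rx.mk (nat_lit 479) (nat_lit 7) (nat_lit 3) (nat_lit 7) (nat_lit 7) (nat_lit 163) (nat_lit 147) r11_163 r11_147 (nat_lit 0) (nat_lit 0) (nat_lit 0) (nat_lit 0x8017985b4) (nat_lit 536870912)]
noncomputable def e55_56 : List Rx := [
  Rx.mk (nat_lit 215) (nat_lit 7) (nat_lit 2) (nat_lit 3) (nat_lit 7) (nat_lit 265) (nat_lit 230) r11_265 r5_230 (nat_lit 0) (nat_lit 0) (nat_lit 0) (nat_lit 0x880aa8a68) (nat_lit 414822412)]
noncomputable def e55_57 : List Rx := []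
noncomputable def e55 : List (List Rx) := [e55_0, e55_1, e55_2, e55_3, e55_4, e55_5, e55_6, e55_7, e55_8, e55_9, e55_10, e55_11, e55_12, e55_13, e55_14, e55_15, e55_16, e55_17, e55_18, e55_19, e55_20, e55_21, e55_22, e55_23, e55_24, e55_25, e55_26, e55_27, e55_28, e55_29, e55_30, e55_31, e55_32, e55_33, e55_34, e55_35, e55_36, e55_37, e55_38, e55_39, e55_40, e55_41, e55_42, e55_43, e55_44, e55_45, e55_46, e55_47, e55_48, e55_49, e55_50, e55_51, e55_52, e55_53, e55_54, e55_55, e55_56, e55_57]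
noncomputable def e56_0 : List Rx := [
  Rx.mk (nat_lit 4) (nat_lit 4) (nat_lit 0) (nat_lit 0) (nat_lit 0) (nat_lit 152) (nat_lit 330) r5_152 r0_330 (nat_lit 4295) (nat_lit 246635775) (nat_lit 4746) (nat_lit 0x7ffebcf68) (nat_lit 783597078),
  Rx.mk (nat_lit 5) (nat_lit 5) (nat_lit 0) (nat_lit 0) (nat_lit 1) (nat_lit 153) (nat_lit 335) r5_153 r0_335 (nat_lit 0) (nat_lit 72835185) (nat_lit 7966129) (nat_lit 0x768dbcfb0) (nat_lit 771020776),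
  Rx.mk (nat_lit 6) (nat_lit 6) (nat_lit 0) (nat_lit 0) (nat_lit 1) (nat_lit 154) (nat_lit 340) r5_154 r0_340 (nat_lit 0) (nat_lit 43528741) (nat_lit 2248887) (nat_lit 0x7781485e4) (nat_lit 720358340),
  Rx.mk (nat_lit 20) (nat_lit 4) (nat_lit 2) (nat_lit 0) (nat_lit 2) (nat_lit 158) (nat_lit 332) r5_158 r0_332 (nat_lit 9515140) (nat_lit 0) (nat_lit 9046091) (nat_lit 0x640679402) (nat_lit 1008402593),
  Rx.mk (nat_lit 21) (nat_lit 5) (nat_lit 2) (nat_lit 0) (nat_lit 3) (nat_lit 159) (nat_lit 337) r5_159 r0_337 (nat_lit 0) (nat_lit 0) (nat_lit 15727667) (nat_lit 0x785988350) (nat_lit 677032129),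
  Rx.mk (nat_lit 68) (nat_lit 4) (nat_lit 0) (nat_lit 1) (nat_lit 4) (nat_lit 155) (nat_lit 331) r5_155 r0_331 (nat_lit 18467620) (nat_lit 12431881) (nat_lit 0) (nat_lit 0x77229ca54) (nat_lit 711720913),
  Rx.mk (nat_lit 69) (nat_lit 5) (nat_lit 0) (nat_lit 1) (nat_lit 5) (nat_lit 156) (nat_lit 336) r5_156 r0_336 (nat_lit 0) (nat_lit 32356529) (nat_lit 0) (nat_lit 0x7e416a34e) (nat_lit 598396941),
  Rx.mk (nat_lit 70) (nat_lit 6) (nat_lit 0) (nat_lit 1) (nat_lit 5) (nat_lit 157) (nat_lit 341) r5_157 r0_341 (nat_lit 0) (nat_lit 4283816) (nat_lit 0) (nat_lit 0x76dca6428) (nat_lit 689405378),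
  Rx.mk (nat_lit 84) (nat_lit 4) (nat_lit 2) (nat_lit 1) (nat_lit 6) (nat_lit 160) (nat_lit 333) r5_160 r0_333 (nat_lit 20486354) (nat_lit 0) (nat_lit 0) (nat_lit 0x7e13133ec) (nat_lit 589334166),
  Rx.mk (nat_lit 85) (nat_lit 5) (nat_lit 2) (nat_lit 1) (nat_lit 7) (nat_lit 161) (nat_lit 338) r5_161 r0_338 (nat_lit 0) (nat_lit 0) (nat_lit 0) (nat_lit 0x7f6c75efc) (nat_lit 547366462),
  Rx.mk (nat_lit 148) (nat_lit 4) (nat_lit 2) (nat_lit 2) (nat_lit 6) (nat_lit 162) (nat_lit 334) r5_162 r0_334 (nat_lit 25423219) (nat_lit 0) (nat_lit 0) (nat_lit 0x71dceb686) (nat_lit 791634281),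
  Rx.mk (nat_lit 149) (nat_lit 5) (nat_lit 2) (nat_lit 2) (nat_lit 7) (nat_lit 163) (nat_lit 339) r5_163 r0_339 (nat_lit 0) (nat_lit 0) (nat_lit 0) (nat_lit 0x804d1b93e) (nat_lit 533580312)]
noncomputable def e56_1 : List Rx := [
  Rx.mk (nat_lit 68) (nat_lit 4) (nat_lit 0) (nat_lit 1) (nat_lit 4) (nat_lit 164) (nat_lit 311) r5_164 r1_311 (nat_lit 14978700) (nat_lit 8816353) (nat_lit 0) (nat_lit 0x6ec49af3a) (nat_lit 839845015),
  Rx.mk (nat_lit 69) (nat_lit 5) (nat_lit 0) (nat_lit 1) (nat_lit 5) (nat_lit 165) (nat_lit 313) r5_165 r1_313 (nat_lit 0) (nat_lit 20314026) (nat_lit 0) (nat_lit 0x80db604a6) (nat_lit 545190438),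
  Rx.mk (nat_lit 70) (nat_lit 6) (nat_lit 0) (nat_lit 1) (nat_lit 5) (nat_lit 166) (nat_lit 315) r5_166 r1_315 (nat_lit 0) (nat_lit 6296235) (nat_lit 0) (nat_lit 0x7df201f0a) (nat_lit 577066447),
  Rx.mk (nat_lit 84) (nat_lit 4) (nat_lit 2) (nat_lit 1) (nat_lit 6) (nat_lit 167) (nat_lit 312) r5_167 r1_312 (nat_lit 20400359) (nat_lit 0) (nat_lit 0) (nat_lit 0x8039ecd5e) (nat_lit 555033421),
  Rx.mk (nat_lit 85) (nat_lit 5) (nat_lit 2) (nat_lit 1) (nat_lit 7) (nat_lit 168) (nat_lit 314) r5_168 r1_314 (nat_lit 0) (nat_lit 0) (nat_lit 0) (nat_lit 0x8095f8012) (nat_lit 529083662)]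
noncomputable def e56_2 : List Rx := [
  Rx.mk (nat_lit 68) (nat_lit 4) (nat_lit 0) (nat_lit 1) (nat_lit 4) (nat_lit 276) (nat_lit 360) r5_276 r2_360 (nat_lit 20559373) (nat_lit 29764725) (nat_lit 0) (nat_lit 0x5846938aa) (nat_lit 1230188910),
  Rx.mk (nat_lit 69) (nat_lit 5) (nat_lit 0) (nat_lit 1) (nat_lit 5) (nat_lit 277) (nat_lit 363) r5_277 r2_363 (nat_lit 0) (nat_lit 24741287) (nat_lit 0) (nat_lit 0x8017985b4) (nat_lit 561612199),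
  Rx.mk (nat_lit 70) (nat_lit 6) (nat_lit 0) (nat_lit 1) (nat_lit 5) (nat_lit 278) (nat_lit 366) r5_278 r2_366 (nat_lit 0) (nat_lit 27157988) (nat_lit 0) (nat_lit 0x7f2b617cc) (nat_lit 578604450),
  Rx.mk (nat_lit 76) (nat_lit 4) (nat_lit 1) (nat_lit 1) (nat_lit 6) (nat_lit 280) (nat_lit 361) r5_280 r2_361 (nat_lit 74305846) (nat_lit 0) (nat_lit 0) (nat_lit 0x6bbe842c0) (nat_lit 939452858),
  Rx.mk (nat_lit 77) (nat_lit 5) (nat_lit 1) (nat_lit 1) (nat_lit 7) (nat_lit 281) (nat_lit 364) r5_281 r2_364 (nat_lit 0) (nat_lit 0) (nat_lit 0) (nat_lit 0x8017985b4) (nat_lit 536870912),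
  Rx.mk (nat_lit 78) (nat_lit 6) (nat_lit 1) (nat_lit 1) (nat_lit 7) (nat_lit 282) (nat_lit 368) r5_282 r2_368 (nat_lit 0) (nat_lit 0) (nat_lit 0) (nat_lit 0x8017985b4) (nat_lit 536870912),
  Rx.mk (nat_lit 84) (nat_lit 4) (nat_lit 2) (nat_lit 1) (nat_lit 6) (nat_lit 283) (nat_lit 362) r5_283 r2_362 (nat_lit 33327253) (nat_lit 0) (nat_lit 0) (nat_lit 0x7f65916c2) (nat_lit 581168965),
  Rx.mk (nat_lit 85) (nat_lit 5) (nat_lit 2) (nat_lit 1) (nat_lit 7) (nat_lit 284) (nat_lit 365) r5_284 r2_365 (nat_lit 0) (nat_lit 0) (nat_lit 0) (nat_lit 0x8017985b4) (nat_lit 536870912),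
  Rx.mk (nat_lit 326) (nat_lit 6) (nat_lit 0) (nat_lit 5) (nat_lit 5) (nat_lit 275) (nat_lit 367) r5_275 r2_367 (nat_lit 0) (nat_lit 28314395) (nat_lit 0) (nat_lit 0x7f288f256) (nat_lit 579938957),
  Rx.mk (nat_lit 334) (nat_lit 6) (nat_lit 1) (nat_lit 5) (nat_lit 7) (nat_lit 279) (nat_lit 369) r5_279 r2_369 (nat_lit 0) (nat_lit 0) (nat_lit 0) (nat_lit 0x8017985b4) (nat_lit 536870912)]
noncomputable def e56_3 : List Rx := [
  Rx.mk (nat_lit 20) (nat_lit 4) (nat_lit 2) (nat_lit 0) (nat_lit 2) (nat_lit 55) (nat_lit 334) r5_55 r3_334 (nat_lit 3690) (nat_lit 0) (nat_lit 4830) (nat_lit 0x7ffd07a60) (nat_lit 537068682),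
  Rx.mk (nat_lit 21) (nat_lit 5) (nat_lit 2) (nat_lit 0) (nat_lit 3) (nat_lit 56) (nat_lit 338) r5_56 r3_338 (nat_lit 0) (nat_lit 0) (nat_lit 1607337) (nat_lit 0x7673024ae) (nat_lit 693215299),
  Rx.mk (nat_lit 148) (nat_lit 4) (nat_lit 2) (nat_lit 2) (nat_lit 6) (nat_lit 57) (nat_lit 336) r5_57 r3_336 (nat_lit 2939284) (nat_lit 0) (nat_lit 0) (nat_lit 0x760f97a22) (nat_lit 700976746),
  Rx.mk (nat_lit 149) (nat_lit 5) (nat_lit 2) (nat_lit 2) (nat_lit 7) (nat_lit 58) (nat_lit 340) r5_58 r3_340 (nat_lit 0) (nat_lit 0) (nat_lit 0) (nat_lit 0x7e9266ec8) (nat_lit 560921062),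
  Rx.mk (nat_lit 196) (nat_lit 4) (nat_lit 0) (nat_lit 3) (nat_lit 4) (nat_lit 52) (nat_lit 333) r5_52 r3_333 (nat_lit 1558) (nat_lit 2749) (nat_lit 0) (nat_lit 0x800757f88) (nat_lit 536440369),
  Rx.mk (nat_lit 197) (nat_lit 5) (nat_lit 0) (nat_lit 3) (nat_lit 5) (nat_lit 53) (nat_lit 337) r5_53 r3_337 (nat_lit 0) (nat_lit 4617775) (nat_lit 0) (nat_lit 0x7f39a7408) (nat_lit 554334537),
  Rx.mk (nat_lit 198) (nat_lit 6) (nat_lit 0) (nat_lit 3) (nat_lit 5) (nat_lit 54) (nat_lit 341) r5_54 r3_341 (nat_lit 0) (nat_lit 6095527) (nat_lit 0) (nat_lit 0x814491984) (nat_lit 524090139),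
  Rx.mk (nat_lit 212) (nat_lit 4) (nat_lit 2) (nat_lit 3) (nat_lit 6) (nat_lit 59) (nat_lit 335) r5_59 r3_335 (nat_lit 255679) (nat_lit 0) (nat_lit 0) (nat_lit 0x890dc1b68) (nat_lit 399147191),
  Rx.mk (nat_lit 213) (nat_lit 5) (nat_lit 2) (nat_lit 3) (nat_lit 7) (nat_lit 60) (nat_lit 339) r5_60 r3_339 (nat_lit 0) (nat_lit 0) (nat_lit 0) (nat_lit 0x95e0ba39c) (nat_lit 203775112)]
noncomputable def e56_4 : List Rx := [
  Rx.mk (nat_lit 4) (nat_lit 4) (nat_lit 0) (nat_lit 0) (nat_lit 0) (nat_lit 169) (nat_lit 366) r5_169 r4_366 (nat_lit 1433235) (nat_lit 2737427) (nat_lit 841617) (nat_lit 0x61d7dcea2) (nat_lit 1029758991),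
  Rx.mk (nat_lit 5) (nat_lit 5) (nat_lit 0) (nat_lit 0) (nat_lit 1) (nat_lit 170) (nat_lit 373) r5_170 r4_373 (nat_lit 0) (nat_lit 159956814) (nat_lit 11320658) (nat_lit 0x7afbd0750) (nat_lit 789998334),
  Rx.mk (nat_lit 6) (nat_lit 6) (nat_lit 0) (nat_lit 0) (nat_lit 1) (nat_lit 171) (nat_lit 378) r5_171 r4_378 (nat_lit 0) (nat_lit 58076158) (nat_lit 24206208) (nat_lit 0x78ad82f82) (nat_lit 738299028),
  Rx.mk (nat_lit 20) (nat_lit 4) (nat_lit 2) (nat_lit 0) (nat_lit 2) (nat_lit 177) (nat_lit 369) r5_177 r4_369 (nat_lit 5283235) (nat_lit 0) (nat_lit 4717590) (nat_lit 0x752a4ab54) (nat_lit 722606187),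
  Rx.mk (nat_lit 21) (nat_lit 5) (nat_lit 2) (nat_lit 0) (nat_lit 3) (nat_lit 178) (nat_lit 375) r5_178 r4_375 (nat_lit 0) (nat_lit 0) (nat_lit 10292378) (nat_lit 0x80631e6c8) (nat_lit 542489390),
  Rx.mk (nat_lit 68) (nat_lit 4) (nat_lit 0) (nat_lit 1) (nat_lit 4) (nat_lit 172) (nat_lit 367) r5_172 r4_367 (nat_lit 31203347) (nat_lit 38663507) (nat_lit 0) (nat_lit 0x74de6bf62) (nat_lit 787491166),
  Rx.mk (nat_lit 70) (nat_lit 6) (nat_lit 0) (nat_lit 1) (nat_lit 5) (nat_lit 173) (nat_lit 379) r5_173 r4_379 (nat_lit 0) (nat_lit 24741287) (nat_lit 0) (nat_lit 0x8017985b4) (nat_lit 561612199),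
  Rx.mk (nat_lit 84) (nat_lit 4) (nat_lit 2) (nat_lit 1) (nat_lit 6) (nat_lit 179) (nat_lit 370) r5_179 r4_370 (nat_lit 12656058) (nat_lit 0) (nat_lit 0) (nat_lit 0x8088cb0ec) (nat_lit 542545370),
  Rx.mk (nat_lit 148) (nat_lit 4) (nat_lit 2) (nat_lit 2) (nat_lit 6) (nat_lit 180) (nat_lit 372) r5_180 r4_372 (nat_lit 26071718) (nat_lit 0) (nat_lit 0) (nat_lit 0x7c450e86c) (nat_lit 624104680),
  Rx.mk (nat_lit 149) (nat_lit 5) (nat_lit 2) (nat_lit 2) (nat_lit 7) (nat_lit 181) (nat_lit 377) r5_181 r4_377 (nat_lit 0) (nat_lit 0) (nat_lit 0) (nat_lit 0x80414fb1e) (nat_lit 534304462),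
  Rx.mk (nat_lit 196) (nat_lit 4) (nat_lit 0) (nat_lit 3) (nat_lit 4) (nat_lit 174) (nat_lit 368) r5_174 r4_368 (nat_lit 5546147) (nat_lit 174408130) (nat_lit 0) (nat_lit 0x790afe648) (nat_lit 829916089),
  Rx.mk (nat_lit 197) (nat_lit 5) (nat_lit 0) (nat_lit 3) (nat_lit 5) (nat_lit 175) (nat_lit 374) r5_175 r4_374 (nat_lit 0) (nat_lit 141819368) (nat_lit 0) (nat_lit 0x7fe1dc33a) (nat_lit 681820880),
  Rx.mk (nat_lit 198) (nat_lit 6) (nat_lit 0) (nat_lit 3) (nat_lit 5) (nat_lit 176) (nat_lit 380) r5_176 r4_380 (nat_lit 0) (nat_lit 26164324) (nat_lit 0) (nat_lit 0x80999346a) (nat_lit 555052536),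
  Rx.mk (nat_lit 212) (nat_lit 4) (nat_lit 2) (nat_lit 3) (nat_lit 6) (nat_lit 182) (nat_lit 371) r5_182 r4_371 (nat_lit 11445764) (nat_lit 0) (nat_lit 0) (nat_lit 0x81403787a) (nat_lit 530241476),
  Rx.mk (nat_lit 213) (nat_lit 5) (nat_lit 2) (nat_lit 3) (nat_lit 7) (nat_lit 183) (nat_lit 376) r5_183 r4_376 (nat_lit 0) (nat_lit 0) (nat_lit 0) (nat_lit 0x80cd61346) (nat_lit 525749862)]
noncomputable def e56_5 : List Rx := [
  Rx.mk (nat_lit 196) (nat_lit 4) (nat_lit 0) (nat_lit 3) (nat_lit 4) (nat_lit 235) (nat_lit 311) r5_235 r5_311 (nat_lit 59092) (nat_lit 256039) (nat_lit 0) (nat_lit 0x820de74a0) (nat_lit 505885693),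
  Rx.mk (nat_lit 197) (nat_lit 5) (nat_lit 0) (nat_lit 3) (nat_lit 5) (nat_lit 236) (nat_lit 313) r5_236 r5_313 (nat_lit 0) (nat_lit 84189096) (nat_lit 0) (nat_lit 0x80e5c9802) (nat_lit 608169008),
  Rx.mk (nat_lit 198) (nat_lit 6) (nat_lit 0) (nat_lit 3) (nat_lit 5) (nat_lit 237) (nat_lit 315) r5_237 r5_315 (nat_lit 0) (nat_lit 6154533) (nat_lit 0) (nat_lit 0x82d163a50) (nat_lit 500638795),
  Rx.mk (nat_lit 212) (nat_lit 4) (nat_lit 2) (nat_lit 3) (nat_lit 6) (nat_lit 238) (nat_lit 312) r5_238 r5_312 (nat_lit 1304446) (nat_lit 0) (nat_lit 0) (nat_lit 0x7fd0f99aa) (nat_lit 541617058),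
  Rx.mk (nat_lit 213) (nat_lit 5) (nat_lit 2) (nat_lit 3) (nat_lit 7) (nat_lit 239) (nat_lit 314) r5_239 r5_314 (nat_lit 0) (nat_lit 0) (nat_lit 0) (nat_lit 0x81c0a1d3a) (nat_lit 511016762)]
noncomputable def e56_6 : List Rx := [
  Rx.mk (nat_lit 262) (nat_lit 6) (nat_lit 0) (nat_lit 4) (nat_lit 1) (nat_lit 293) (nat_lit 318) r5_293 r3_318 (nat_lit 0) (nat_lit 3024) (nat_lit 2469) (nat_lit 0x817743936) (nat_lit 514521255),
  Rx.mk (nat_lit 270) (nat_lit 6) (nat_lit 1) (nat_lit 4) (nat_lit 3) (nat_lit 295) (nat_lit 320) r5_295 r3_320 (nat_lit 0) (nat_lit 0) (nat_lit 331055) (nat_lit 0x7f44b8f22) (nat_lit 549048467),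
  Rx.mk (nat_lit 454) (nat_lit 6) (nat_lit 0) (nat_lit 7) (nat_lit 5) (nat_lit 294) (nat_lit 319) r5_294 r3_319 (nat_lit 0) (nat_lit 87664) (nat_lit 0) (nat_lit 0x7ee2d6d0e) (nat_lit 555002326),
  Rx.mk (nat_lit 462) (nat_lit 6) (nat_lit 1) (nat_lit 7) (nat_lit 7) (nat_lit 296) (nat_lit 321) r5_296 r3_321 (nat_lit 0) (nat_lit 0) (nat_lit 0) (nat_lit 0x8cf43f2ea) (nat_lit 339923812)]
noncomputable def e56_7 : List Rx := [
  Rx.mk (nat_lit 270) (nat_lit 6) (nat_lit 1) (nat_lit 4) (nat_lit 3) (nat_lit 253) (nat_lit 316) r5_253 r0_316 (nat_lit 0) (nat_lit 0) (nat_lit 6936321) (nat_lit 0x7b9f03d96) (nat_lit 615253533),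
  Rx.mk (nat_lit 326) (nat_lit 6) (nat_lit 0) (nat_lit 5) (nat_lit 5) (nat_lit 252) (nat_lit 315) r5_252 r0_315 (nat_lit 0) (nat_lit 10663228) (nat_lit 0) (nat_lit 0x7da55c5ce) (nat_lit 586217240),
  Rx.mk (nat_lit 334) (nat_lit 6) (nat_lit 1) (nat_lit 5) (nat_lit 7) (nat_lit 254) (nat_lit 317) r5_254 r0_317 (nat_lit 0) (nat_lit 0) (nat_lit 0) (nat_lit 0x8071fa930) (nat_lit 530954762)]
noncomputable def e56_8 : List Rx := [
  Rx.mk (nat_lit 326) (nat_lit 6) (nat_lit 0) (nat_lit 5) (nat_lit 5) (nat_lit 273) (nat_lit 303) r5_273 r1_303 (nat_lit 0) (nat_lit 15528047) (nat_lit 0) (nat_lit 0x815c32e9e) (nat_lit 532577559),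
  Rx.mk (nat_lit 334) (nat_lit 6) (nat_lit 1) (nat_lit 5) (nat_lit 7) (nat_lit 274) (nat_lit 304) r5_274 r1_304 (nat_lit 0) (nat_lit 0) (nat_lit 0) (nat_lit 0x825a7268a) (nat_lit 501688462)]
noncomputable def e56_9 : List Rx := [
  Rx.mk (nat_lit 262) (nat_lit 6) (nat_lit 0) (nat_lit 4) (nat_lit 1) (nat_lit 297) (nat_lit 343) r5_297 r4_343 (nat_lit 0) (nat_lit 8412019) (nat_lit 4914536) (nat_lit 0x7692903ac) (nat_lit 703204217),
  Rx.mk (nat_lit 270) (nat_lit 6) (nat_lit 1) (nat_lit 4) (nat_lit 3) (nat_lit 300) (nat_lit 346) r5_300 r4_346 (nat_lit 0) (nat_lit 0) (nat_lit 2837782) (nat_lit 0x88d4b3178) (nat_lit 405532494),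
  Rx.mk (nat_lit 326) (nat_lit 6) (nat_lit 0) (nat_lit 5) (nat_lit 5) (nat_lit 298) (nat_lit 344) r5_298 r4_344 (nat_lit 0) (nat_lit 16948508) (nat_lit 0) (nat_lit 0x809c7b0d8) (nat_lit 545627870),
  Rx.mk (nat_lit 334) (nat_lit 6) (nat_lit 1) (nat_lit 5) (nat_lit 7) (nat_lit 301) (nat_lit 347) r5_301 r4_347 (nat_lit 0) (nat_lit 0) (nat_lit 0) (nat_lit 0x8942acc88) (nat_lit 396280012),
  Rx.mk (nat_lit 454) (nat_lit 6) (nat_lit 0) (nat_lit 7) (nat_lit 5) (nat_lit 299) (nat_lit 345) r5_299 r4_345 (nat_lit 0) (nat_lit 16388111) (nat_lit 0) (nat_lit 0x805f52918) (nat_lit 548834573),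
  Rx.mk (nat_lit 462) (nat_lit 6) (nat_lit 1) (nat_lit 7) (nat_lit 7) (nat_lit 302) (nat_lit 348) r5_302 r4_348 (nat_lit 0) (nat_lit 0) (nat_lit 0) (nat_lit 0x816422d98) (nat_lit 516613662)]
noncomputable def e56_10 : List Rx := [
  Rx.mk (nat_lit 196) (nat_lit 4) (nat_lit 0) (nat_lit 3) (nat_lit 4) (nat_lit 232) (nat_lit 363) r5_232 r6_363 (nat_lit 1266917) (nat_lit 1379852) (nat_lit 0) (nat_lit 0x7a2fc99c2) (nat_lit 633790631),
  Rx.mk (nat_lit 198) (nat_lit 6) (nat_lit 0) (nat_lit 3) (nat_lit 5) (nat_lit 233) (nat_lit 365) r5_233 r6_365 (nat_lit 0) (nat_lit 4400993) (nat_lit 0) (nat_lit 0x831fc2ff2) (nat_lit 494248105),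
  Rx.mk (nat_lit 212) (nat_lit 4) (nat_lit 2) (nat_lit 3) (nat_lit 6) (nat_lit 234) (nat_lit 364) r5_234 r6_364 (nat_lit 745573) (nat_lit 0) (nat_lit 0) (nat_lit 0x806c92614) (nat_lit 531405435),
  Rx.mk (nat_lit 454) (nat_lit 6) (nat_lit 0) (nat_lit 7) (nat_lit 5) (nat_lit 231) (nat_lit 366) r5_231 r6_366 (nat_lit 0) (nat_lit 64873) (nat_lit 0) (nat_lit 0x800bef67c) (nat_lit 536253635)]
noncomputable def e56_11 : List Rx := [
  Rx.mk (nat_lit 454) (nat_lit 6) (nat_lit 0) (nat_lit 7) (nat_lit 5) (nat_lit 303) (nat_lit 303) r5_303 r5_303 (nat_lit 0) (nat_lit 811576) (nat_lit 0) (nat_lit 0x800e813cc) (nat_lit 537125038),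
  Rx.mk (nat_lit 462) (nat_lit 6) (nat_lit 1) (nat_lit 7) (nat_lit 7) (nat_lit 304) (nat_lit 304) r5_304 r5_304 (nat_lit 0) (nat_lit 0) (nat_lit 0) (nat_lit 0x8142f445a) (nat_lit 518652812)]
noncomputable def e56_12 : List Rx := [
  Rx.mk (nat_lit 21) (nat_lit 5) (nat_lit 2) (nat_lit 0) (nat_lit 3) (nat_lit 61) (nat_lit 89) r5_61 r0_89 (nat_lit 0) (nat_lit 0) (nat_lit 16868928) (nat_lit 0x770328902) (nat_lit 699634640),
  Rx.mk (nat_lit 149) (nat_lit 5) (nat_lit 2) (nat_lit 2) (nat_lit 7) (nat_lit 62) (nat_lit 90) r5_62 r0_90 (nat_lit 0) (nat_lit 0) (nat_lit 0) (nat_lit 0x80cf2f8d0) (nat_lit 525470412)]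
noncomputable def e56_13 : List Rx := [
  Rx.mk (nat_lit 5) (nat_lit 5) (nat_lit 0) (nat_lit 0) (nat_lit 1) (nat_lit 184) (nat_lit 444) r5_184 r7_444 (nat_lit 0) (nat_lit 21504054) (nat_lit 5813795) (nat_lit 0x686efd894) (nat_lit 945833261),
  Rx.mk (nat_lit 21) (nat_lit 5) (nat_lit 2) (nat_lit 0) (nat_lit 3) (nat_lit 186) (nat_lit 446) r5_186 r7_446 (nat_lit 0) (nat_lit 0) (nat_lit 6741966) (nat_lit 0x7f4734e86) (nat_lit 556141628),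
  Rx.mk (nat_lit 69) (nat_lit 5) (nat_lit 0) (nat_lit 1) (nat_lit 5) (nat_lit 185) (nat_lit 445) r5_185 r7_445 (nat_lit 0) (nat_lit 24741287) (nat_lit 0) (nat_lit 0x7fd363f88) (nat_lit 565797099),
  Rx.mk (nat_lit 85) (nat_lit 5) (nat_lit 2) (nat_lit 1) (nat_lit 7) (nat_lit 187) (nat_lit 447) r5_187 r7_447 (nat_lit 0) (nat_lit 0) (nat_lit 0) (nat_lit 0x812b94fb2) (nat_lit 520035912),
  Rx.mk (nat_lit 149) (nat_lit 5) (nat_lit 2) (nat_lit 2) (nat_lit 7) (nat_lit 188) (nat_lit 448) r5_188 r7_448 (nat_lit 0) (nat_lit 0) (nat_lit 0) (nat_lit 0x8017985b4) (nat_lit 536870912)]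
noncomputable def e56_14 : List Rx := [
  Rx.mk (nat_lit 21) (nat_lit 5) (nat_lit 2) (nat_lit 0) (nat_lit 3) (nat_lit 63) (nat_lit 91) r5_63 r1_91 (nat_lit 0) (nat_lit 0) (nat_lit 3579826) (nat_lit 0x811e759ee) (nat_lit 524029388),
  Rx.mk (nat_lit 145) (nat_lit 1) (nat_lit 2) (nat_lit 2) (nat_lit 7) (nat_lit 65) (nat_lit 93) r5_65 r1_93 (nat_lit 0) (nat_lit 0) (nat_lit 0) (nat_lit 0x7fd333eb4) (nat_lit 540973512),
  Rx.mk (nat_lit 149) (nat_lit 5) (nat_lit 2) (nat_lit 2) (nat_lit 7) (nat_lit 64) (nat_lit 92) r5_64 r1_92 (nat_lit 0) (nat_lit 0) (nat_lit 0) (nat_lit 0x79fc7a418) (nat_lit 634642712)]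
noncomputable def e56_15 : List Rx := [
  Rx.mk (nat_lit 5) (nat_lit 5) (nat_lit 0) (nat_lit 0) (nat_lit 1) (nat_lit 191) (nat_lit 362) r5_191 r8_362 (nat_lit 0) (nat_lit 40282511) (nat_lit 13579307) (nat_lit 0x676dbd25a) (nat_lit 988710430),
  Rx.mk (nat_lit 21) (nat_lit 5) (nat_lit 2) (nat_lit 0) (nat_lit 3) (nat_lit 193) (nat_lit 364) r5_193 r8_364 (nat_lit 0) (nat_lit 0) (nat_lit 26008793) (nat_lit 0x78bef927a) (nat_lit 680926905),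
  Rx.mk (nat_lit 69) (nat_lit 5) (nat_lit 0) (nat_lit 1) (nat_lit 5) (nat_lit 192) (nat_lit 363) r5_192 r8_363 (nat_lit 0) (nat_lit 24741287) (nat_lit 0) (nat_lit 0x7fc98e4ea) (nat_lit 566401349),
  Rx.mk (nat_lit 85) (nat_lit 5) (nat_lit 2) (nat_lit 1) (nat_lit 7) (nat_lit 194) (nat_lit 365) r5_194 r8_365 (nat_lit 0) (nat_lit 0) (nat_lit 0) (nat_lit 0x8017985b4) (nat_lit 536870912),
  Rx.mk (nat_lit 145) (nat_lit 1) (nat_lit 2) (nat_lit 2) (nat_lit 7) (nat_lit 196) (nat_lit 361) r5_196 r8_361 (nat_lit 0) (nat_lit 0) (nat_lit 0) (nat_lit 0x8017985b4) (nat_lit 536870912),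
  Rx.mk (nat_lit 149) (nat_lit 5) (nat_lit 2) (nat_lit 2) (nat_lit 7) (nat_lit 195) (nat_lit 366) r5_195 r8_366 (nat_lit 0) (nat_lit 0) (nat_lit 0) (nat_lit 0x7f79cc664) (nat_lit 546583312)]
noncomputable def e56_16 : List Rx := [
  Rx.mk (nat_lit 69) (nat_lit 5) (nat_lit 0) (nat_lit 1) (nat_lit 5) (nat_lit 189) (nat_lit 74) r5_189 r8_74 (nat_lit 0) (nat_lit 17765140) (nat_lit 0) (nat_lit 0x7ff74602c) (nat_lit 556578502),
  Rx.mk (nat_lit 85) (nat_lit 5) (nat_lit 2) (nat_lit 1) (nat_lit 7) (nat_lit 190) (nat_lit 75) r5_190 r8_75 (nat_lit 0) (nat_lit 0) (nat_lit 0) (nat_lit 0x80b32653a) (nat_lit 527341762)]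
noncomputable def e56_17 : List Rx := [
  Rx.mk (nat_lit 69) (nat_lit 5) (nat_lit 0) (nat_lit 1) (nat_lit 5) (nat_lit 290) (nat_lit 324) r5_290 r9_324 (nat_lit 0) (nat_lit 26942027) (nat_lit 0) (nat_lit 0x7e5860594) (nat_lit 591515239),
  Rx.mk (nat_lit 77) (nat_lit 5) (nat_lit 1) (nat_lit 1) (nat_lit 7) (nat_lit 291) (nat_lit 325) r5_291 r9_325 (nat_lit 0) (nat_lit 0) (nat_lit 0) (nat_lit 0x7ff2ca070) (nat_lit 539127012),
  Rx.mk (nat_lit 85) (nat_lit 5) (nat_lit 2) (nat_lit 1) (nat_lit 7) (nat_lit 292) (nat_lit 326) r5_292 r9_326 (nat_lit 0) (nat_lit 0) (nat_lit 0) (nat_lit 0x8017985b4) (nat_lit 536870912)]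
noncomputable def e56_18 : List Rx := [
  Rx.mk (nat_lit 21) (nat_lit 5) (nat_lit 2) (nat_lit 0) (nat_lit 3) (nat_lit 67) (nat_lit 89) r5_67 r4_89 (nat_lit 0) (nat_lit 0) (nat_lit 10750557) (nat_lit 0x7fd33eeae) (nat_lit 551622569),
  Rx.mk (nat_lit 149) (nat_lit 5) (nat_lit 2) (nat_lit 2) (nat_lit 7) (nat_lit 68) (nat_lit 92) r5_68 r4_92 (nat_lit 0) (nat_lit 0) (nat_lit 0) (nat_lit 0x7fb528974) (nat_lit 542767312),
  Rx.mk (nat_lit 197) (nat_lit 5) (nat_lit 0) (nat_lit 3) (nat_lit 5) (nat_lit 66) (nat_lit 90) r5_66 r4_90 (nat_lit 0) (nat_lit 9749711) (nat_lit 0) (nat_lit 0x7ffe1e016) (nat_lit 547673873),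
  Rx.mk (nat_lit 213) (nat_lit 5) (nat_lit 2) (nat_lit 3) (nat_lit 7) (nat_lit 69) (nat_lit 91) r5_69 r4_91 (nat_lit 0) (nat_lit 0) (nat_lit 0) (nat_lit 0x8121440f8) (nat_lit 520021762)]
noncomputable def e56_19 : List Rx := [
  Rx.mk (nat_lit 5) (nat_lit 5) (nat_lit 0) (nat_lit 0) (nat_lit 1) (nat_lit 197) (nat_lit 369) r5_197 r10_369 (nat_lit 0) (nat_lit 11835146) (nat_lit 4889214) (nat_lit 0x6ab7fa806) (nat_lit 898281722),
  Rx.mk (nat_lit 21) (nat_lit 5) (nat_lit 2) (nat_lit 0) (nat_lit 3) (nat_lit 199) (nat_lit 371) r5_199 r10_371 (nat_lit 0) (nat_lit 0) (nat_lit 5323301) (nat_lit 0x821784ed6) (nat_lit 511046163),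
  Rx.mk (nat_lit 149) (nat_lit 5) (nat_lit 2) (nat_lit 2) (nat_lit 7) (nat_lit 200) (nat_lit 373) r5_200 r10_373 (nat_lit 0) (nat_lit 0) (nat_lit 0) (nat_lit 0x8017985b4) (nat_lit 536870912),
  Rx.mk (nat_lit 197) (nat_lit 5) (nat_lit 0) (nat_lit 3) (nat_lit 5) (nat_lit 198) (nat_lit 370) r5_198 r10_370 (nat_lit 0) (nat_lit 24741287) (nat_lit 0) (nat_lit 0x7fb2f649e) (nat_lit 567798249),
  Rx.mk (nat_lit 213) (nat_lit 5) (nat_lit 2) (nat_lit 3) (nat_lit 7) (nat_lit 201) (nat_lit 372) r5_201 r10_372 (nat_lit 0) (nat_lit 0) (nat_lit 0) (nat_lit 0x80ff5f960) (nat_lit 522714412)]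
noncomputable def e56_20 : List Rx := [
  Rx.mk (nat_lit 197) (nat_lit 5) (nat_lit 0) (nat_lit 3) (nat_lit 5) (nat_lit 240) (nat_lit 366) r5_240 r11_366 (nat_lit 0) (nat_lit 12925908) (nat_lit 0) (nat_lit 0x804d82ed6) (nat_lit 546213020),
  Rx.mk (nat_lit 213) (nat_lit 5) (nat_lit 2) (nat_lit 3) (nat_lit 7) (nat_lit 241) (nat_lit 367) r5_241 r11_367 (nat_lit 0) (nat_lit 0) (nat_lit 0) (nat_lit 0x834f94230) (nat_lit 487057512)]
noncomputable def e56_21 : List Rx := [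
  Rx.mk (nat_lit 76) (nat_lit 4) (nat_lit 1) (nat_lit 1) (nat_lit 6) (nat_lit 287) (nat_lit 307) r5_287 r9_307 (nat_lit 111344299) (nat_lit 0) (nat_lit 0) (nat_lit 0x6b103b6e6) (nat_lit 987492011),
  Rx.mk (nat_lit 77) (nat_lit 5) (nat_lit 1) (nat_lit 1) (nat_lit 7) (nat_lit 288) (nat_lit 308) r5_288 r9_308 (nat_lit 0) (nat_lit 0) (nat_lit 0) (nat_lit 0x7ff67effe) (nat_lit 538897862),
  Rx.mk (nat_lit 78) (nat_lit 6) (nat_lit 1) (nat_lit 1) (nat_lit 7) (nat_lit 289) (nat_lit 310) r5_289 r9_310 (nat_lit 0) (nat_lit 0) (nat_lit 0) (nat_lit 0x7ff760b48) (nat_lit 538843712),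
  Rx.mk (nat_lit 334) (nat_lit 6) (nat_lit 1) (nat_lit 5) (nat_lit 7) (nat_lit 286) (nat_lit 309) r5_286 r9_309 (nat_lit 0) (nat_lit 0) (nat_lit 0) (nat_lit 0x7ff9dad06) (nat_lit 538691612)]
noncomputable def e56_22 : List Rx := [
  Rx.mk (nat_lit 270) (nat_lit 6) (nat_lit 1) (nat_lit 4) (nat_lit 3) (nat_lit 255) (nat_lit 224) r5_255 r0_224 (nat_lit 0) (nat_lit 0) (nat_lit 71218835) (nat_lit 0x7ffb5ec54) (nat_lit 608387497)]
noncomputable def e56_23 : List Rx := [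
  Rx.mk (nat_lit 270) (nat_lit 6) (nat_lit 1) (nat_lit 4) (nat_lit 3) (nat_lit 268) (nat_lit 242) r5_268 r1_242 (nat_lit 0) (nat_lit 0) (nat_lit 100423417) (nat_lit 0x83d8b6e82) (nat_lit 579086629),
  Rx.mk (nat_lit 302) (nat_lit 6) (nat_lit 5) (nat_lit 4) (nat_lit 3) (nat_lit 267) (nat_lit 243) r5_267 r1_243 (nat_lit 0) (nat_lit 0) (nat_lit 91702614) (nat_lit 0x80aaf72a6) (nat_lit 619301176)]
noncomputable def e56_24 : List Rx := [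
  Rx.mk (nat_lit 270) (nat_lit 6) (nat_lit 1) (nat_lit 4) (nat_lit 3) (nat_lit 305) (nat_lit 224) r5_305 r4_224 (nat_lit 0) (nat_lit 0) (nat_lit 161090066) (nat_lit 0x7fc75d3ec) (nat_lit 701587228),
  Rx.mk (nat_lit 462) (nat_lit 6) (nat_lit 1) (nat_lit 7) (nat_lit 7) (nat_lit 306) (nat_lit 225) r5_306 r4_225 (nat_lit 0) (nat_lit 0) (nat_lit 0) (nat_lit 0x743a265ec) (nat_lit 727415662)]
noncomputable def e56_25 : List Rx := [
  Rx.mk (nat_lit 270) (nat_lit 6) (nat_lit 1) (nat_lit 4) (nat_lit 3) (nat_lit 256) (nat_lit 422) r5_256 r7_422 (nat_lit 0) (nat_lit 0) (nat_lit 10453794) (nat_lit 0x7f320ae16) (nat_lit 561328856),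
  Rx.mk (nat_lit 334) (nat_lit 6) (nat_lit 1) (nat_lit 5) (nat_lit 7) (nat_lit 257) (nat_lit 423) r5_257 r7_423 (nat_lit 0) (nat_lit 0) (nat_lit 0) (nat_lit 0x811261be4) (nat_lit 521565112)]
noncomputable def e56_26 : List Rx := [
  Rx.mk (nat_lit 270) (nat_lit 6) (nat_lit 1) (nat_lit 4) (nat_lit 3) (nat_lit 271) (nat_lit 349) r5_271 r8_349 (nat_lit 0) (nat_lit 0) (nat_lit 26551209) (nat_lit 0x7f5f75306) (nat_lit 574765171),
  Rx.mk (nat_lit 302) (nat_lit 6) (nat_lit 5) (nat_lit 4) (nat_lit 3) (nat_lit 269) (nat_lit 347) r5_269 r8_347 (nat_lit 0) (nat_lit 0) (nat_lit 26407128) (nat_lit 0x7ed75b9ac) (nat_lit 583090140),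
  Rx.mk (nat_lit 334) (nat_lit 6) (nat_lit 1) (nat_lit 5) (nat_lit 7) (nat_lit 272) (nat_lit 350) r5_272 r8_350 (nat_lit 0) (nat_lit 0) (nat_lit 0) (nat_lit 0x8017985b4) (nat_lit 536870912),
  Rx.mk (nat_lit 366) (nat_lit 6) (nat_lit 5) (nat_lit 5) (nat_lit 7) (nat_lit 270) (nat_lit 348) r5_270 r8_348 (nat_lit 0) (nat_lit 0) (nat_lit 0) (nat_lit 0x8017985b4) (nat_lit 536870912)]
noncomputable def e56_27 : List Rx := [
  Rx.mk (nat_lit 334) (nat_lit 6) (nat_lit 1) (nat_lit 5) (nat_lit 7) (nat_lit 285) (nat_lit 218) r5_285 r8_218 (nat_lit 0) (nat_lit 0) (nat_lit 0) (nat_lit 0x815927600) (nat_lit 517280412)]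
noncomputable def e56_28 : List Rx := [
  Rx.mk (nat_lit 270) (nat_lit 6) (nat_lit 1) (nat_lit 4) (nat_lit 3) (nat_lit 307) (nat_lit 347) r5_307 r10_347 (nat_lit 0) (nat_lit 0) (nat_lit 11477207) (nat_lit 0x7fc2367ba) (nat_lit 553442619),
  Rx.mk (nat_lit 334) (nat_lit 6) (nat_lit 1) (nat_lit 5) (nat_lit 7) (nat_lit 308) (nat_lit 348) r5_308 r10_348 (nat_lit 0) (nat_lit 0) (nat_lit 0) (nat_lit 0x80b9b4848) (nat_lit 526949812),
  Rx.mk (nat_lit 462) (nat_lit 6) (nat_lit 1) (nat_lit 7) (nat_lit 7) (nat_lit 309) (nat_lit 349) r5_309 r10_349 (nat_lit 0) (nat_lit 0) (nat_lit 0) (nat_lit 0x80b9b154e) (nat_lit 526950562)]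
noncomputable def e56_29 : List Rx := [
  Rx.mk (nat_lit 462) (nat_lit 6) (nat_lit 1) (nat_lit 7) (nat_lit 7) (nat_lit 310) (nat_lit 356) r5_310 r11_356 (nat_lit 0) (nat_lit 0) (nat_lit 0) (nat_lit 0x81691ae72) (nat_lit 516102862)]
noncomputable def e56_30 : List Rx := [
  Rx.mk (nat_lit 20) (nat_lit 4) (nat_lit 2) (nat_lit 0) (nat_lit 2) (nat_lit 83) (nat_lit 80) r5_83 r5_80 (nat_lit 21406) (nat_lit 0) (nat_lit 32434) (nat_lit 0x7df66377e) (nat_lit 569881502),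
  Rx.mk (nat_lit 21) (nat_lit 5) (nat_lit 2) (nat_lit 0) (nat_lit 3) (nat_lit 84) (nat_lit 81) r5_84 r5_81 (nat_lit 0) (nat_lit 0) (nat_lit 10427805) (nat_lit 0x7ec01b5f8) (nat_lit 568411717),
  Rx.mk (nat_lit 23) (nat_lit 7) (nat_lit 2) (nat_lit 0) (nat_lit 3) (nat_lit 85) (nat_lit 82) r5_85 r5_82 (nat_lit 0) (nat_lit 0) (nat_lit 4868394) (nat_lit 0x805425f9a) (nat_lit 537655506),
  Rx.mk (nat_lit 148) (nat_lit 4) (nat_lit 2) (nat_lit 2) (nat_lit 6) (nat_lit 86) (nat_lit 91) r5_86 r5_91 (nat_lit 4689852) (nat_lit 0) (nat_lit 0) (nat_lit 0x775cace2e) (nat_lit 681805714),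
  Rx.mk (nat_lit 149) (nat_lit 5) (nat_lit 2) (nat_lit 2) (nat_lit 7) (nat_lit 87) (nat_lit 92) r5_87 r5_92 (nat_lit 0) (nat_lit 0) (nat_lit 0) (nat_lit 0x7af3eeae6) (nat_lit 619248212),
  Rx.mk (nat_lit 151) (nat_lit 7) (nat_lit 2) (nat_lit 2) (nat_lit 7) (nat_lit 88) (nat_lit 93) r5_88 r5_93 (nat_lit 0) (nat_lit 0) (nat_lit 0) (nat_lit 0x7ff6f362e) (nat_lit 538736412),
  Rx.mk (nat_lit 196) (nat_lit 4) (nat_lit 0) (nat_lit 3) (nat_lit 4) (nat_lit 80) (nat_lit 83) r5_80 r5_83 (nat_lit 21406) (nat_lit 32434) (nat_lit 0) (nat_lit 0x7df66377e) (nat_lit 569881502),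
  Rx.mk (nat_lit 197) (nat_lit 5) (nat_lit 0) (nat_lit 3) (nat_lit 5) (nat_lit 81) (nat_lit 84) r5_81 r5_84 (nat_lit 0) (nat_lit 10427805) (nat_lit 0) (nat_lit 0x7ec01b5f8) (nat_lit 568411717),
  Rx.mk (nat_lit 198) (nat_lit 6) (nat_lit 0) (nat_lit 3) (nat_lit 5) (nat_lit 82) (nat_lit 85) r5_82 r5_85 (nat_lit 0) (nat_lit 4868394) (nat_lit 0) (nat_lit 0x805425f9a) (nat_lit 537655506),
  Rx.mk (nat_lit 212) (nat_lit 4) (nat_lit 2) (nat_lit 3) (nat_lit 6) (nat_lit 89) (nat_lit 89) r5_89 r5_89 (nat_lit 169882) (nat_lit 0) (nat_lit 0) (nat_lit 0x8abe45df8) (nat_lit 373252794),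
  Rx.mk (nat_lit 213) (nat_lit 5) (nat_lit 2) (nat_lit 3) (nat_lit 7) (nat_lit 90) (nat_lit 90) r5_90 r5_90 (nat_lit 0) (nat_lit 0) (nat_lit 0) (nat_lit 0x814eaf5e2) (nat_lit 517898262),
  Rx.mk (nat_lit 220) (nat_lit 4) (nat_lit 3) (nat_lit 3) (nat_lit 6) (nat_lit 91) (nat_lit 86) r5_91 r5_86 (nat_lit 4689852) (nat_lit 0) (nat_lit 0) (nat_lit 0x775cace2e) (nat_lit 681805714),
  Rx.mk (nat_lit 221) (nat_lit 5) (nat_lit 3) (nat_lit 3) (nat_lit 7) (nat_lit 92) (nat_lit 87) r5_92 r5_87 (nat_lit 0) (nat_lit 0) (nat_lit 0) (nat_lit 0x7af3eeae6) (nat_lit 619248212),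
  Rx.mk (nat_lit 222) (nat_lit 6) (nat_lit 3) (nat_lit 3) (nat_lit 7) (nat_lit 93) (nat_lit 88) r5_93 r5_88 (nat_lit 0) (nat_lit 0) (nat_lit 0) (nat_lit 0x7ff6f362e) (nat_lit 538736412)]
noncomputable def e56_31 : List Rx := [
  Rx.mk (nat_lit 4) (nat_lit 4) (nat_lit 0) (nat_lit 0) (nat_lit 0) (nat_lit 202) (nat_lit 68) r5_202 r11_68 (nat_lit 4773935) (nat_lit 23484085) (nat_lit 5946457) (nat_lit 0x49e63d70c) (nat_lit 1446456039),
  Rx.mk (nat_lit 5) (nat_lit 5) (nat_lit 0) (nat_lit 0) (nat_lit 1) (nat_lit 203) (nat_lit 69) r5_203 r11_69 (nat_lit 0) (nat_lit 55665677) (nat_lit 33768507) (nat_lit 0x7ce62247e) (nat_lit 677311396),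
  Rx.mk (nat_lit 6) (nat_lit 6) (nat_lit 0) (nat_lit 0) (nat_lit 1) (nat_lit 204) (nat_lit 71) r5_204 r11_71 (nat_lit 0) (nat_lit 60413237) (nat_lit 36801253) (nat_lit 0x7abb7e684) (nat_lit 720123752),
  Rx.mk (nat_lit 7) (nat_lit 7) (nat_lit 0) (nat_lit 0) (nat_lit 1) (nat_lit 205) (nat_lit 70) r5_205 r11_70 (nat_lit 0) (nat_lit 43048303) (nat_lit 37783563) (nat_lit 0x7dabdf81a) (nat_lit 656267928),
  Rx.mk (nat_lit 20) (nat_lit 4) (nat_lit 2) (nat_lit 0) (nat_lit 2) (nat_lit 212) (nat_lit 72) r5_212 r11_72 (nat_lit 8957018) (nat_lit 0) (nat_lit 12323810) (nat_lit 0x6eeac40b2) (nat_lit 835033290),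
  Rx.mk (nat_lit 21) (nat_lit 5) (nat_lit 2) (nat_lit 0) (nat_lit 3) (nat_lit 213) (nat_lit 73) r5_213 r11_73 (nat_lit 0) (nat_lit 0) (nat_lit 18403732) (nat_lit 0x8068f7d2e) (nat_lit 550276494),
  Rx.mk (nat_lit 23) (nat_lit 7) (nat_lit 2) (nat_lit 0) (nat_lit 3) (nat_lit 214) (nat_lit 74) r5_214 r11_74 (nat_lit 0) (nat_lit 0) (nat_lit 19699007) (nat_lit 0x7fd8785be) (nat_lit 560420169),
  Rx.mk (nat_lit 68) (nat_lit 4) (nat_lit 0) (nat_lit 1) (nat_lit 4) (nat_lit 206) (nat_lit 75) r5_206 r11_75 (nat_lit 35682471) (nat_lit 41438793) (nat_lit 0) (nat_lit 0x752101d04) (nat_lit 790555976),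
  Rx.mk (nat_lit 70) (nat_lit 6) (nat_lit 0) (nat_lit 1) (nat_lit 5) (nat_lit 207) (nat_lit 77) r5_207 r11_77 (nat_lit 0) (nat_lit 24741287) (nat_lit 0) (nat_lit 0x8017985b4) (nat_lit 561612199),
  Rx.mk (nat_lit 71) (nat_lit 7) (nat_lit 0) (nat_lit 1) (nat_lit 5) (nat_lit 208) (nat_lit 76) r5_208 r11_76 (nat_lit 0) (nat_lit 24741287) (nat_lit 0) (nat_lit 0x8017985b4) (nat_lit 561612199),
  Rx.mk (nat_lit 84) (nat_lit 4) (nat_lit 2) (nat_lit 1) (nat_lit 6) (nat_lit 215) (nat_lit 78) r5_215 r11_78 (nat_lit 16307770) (nat_lit 0) (nat_lit 0) (nat_lit 0x8072222be) (nat_lit 547606132),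
  Rx.mk (nat_lit 87) (nat_lit 7) (nat_lit 2) (nat_lit 1) (nat_lit 7) (nat_lit 216) (nat_lit 79) r5_216 r11_79 (nat_lit 0) (nat_lit 0) (nat_lit 0) (nat_lit 0x8017985b4) (nat_lit 536870912),
  Rx.mk (nat_lit 148) (nat_lit 4) (nat_lit 2) (nat_lit 2) (nat_lit 6) (nat_lit 217) (nat_lit 88) r5_217 r11_88 (nat_lit 24841657) (nat_lit 0) (nat_lit 0) (nat_lit 0x7dc3688d8) (nat_lit 598810569),
  Rx.mk (nat_lit 149) (nat_lit 5) (nat_lit 2) (nat_lit 2) (nat_lit 7) (nat_lit 218) (nat_lit 89) r5_218 r11_89 (nat_lit 0) (nat_lit 0) (nat_lit 0) (nat_lit 0x8017985b4) (nat_lit 536870912),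
  Rx.mk (nat_lit 151) (nat_lit 7) (nat_lit 2) (nat_lit 2) (nat_lit 7) (nat_lit 219) (nat_lit 90) r5_219 r11_90 (nat_lit 0) (nat_lit 0) (nat_lit 0) (nat_lit 0x8017985b4) (nat_lit 536870912),
  Rx.mk (nat_lit 196) (nat_lit 4) (nat_lit 0) (nat_lit 3) (nat_lit 4) (nat_lit 209) (nat_lit 80) r5_209 r11_80 (nat_lit 10516416) (nat_lit 163052374) (nat_lit 0) (nat_lit 0x79e792546) (nat_lit 809704152),
  Rx.mk (nat_lit 197) (nat_lit 5) (nat_lit 0) (nat_lit 3) (nat_lit 5) (nat_lit 210) (nat_lit 81) r5_210 r11_81 (nat_lit 0) (nat_lit 24741287) (nat_lit 0) (nat_lit 0x8036bdc00) (nat_lit 559695499),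
  Rx.mk (nat_lit 198) (nat_lit 6) (nat_lit 0) (nat_lit 3) (nat_lit 5) (nat_lit 211) (nat_lit 82) r5_211 r11_82 (nat_lit 0) (nat_lit 25956094) (nat_lit 0) (nat_lit 0x80019bd60) (nat_lit 564158956),
  Rx.mk (nat_lit 212) (nat_lit 4) (nat_lit 2) (nat_lit 3) (nat_lit 6) (nat_lit 220) (nat_lit 86) r5_220 r11_86 (nat_lit 16204149) (nat_lit 0) (nat_lit 0) (nat_lit 0x809309fb8) (nat_lit 545503711),
  Rx.mk (nat_lit 213) (nat_lit 5) (nat_lit 2) (nat_lit 3) (nat_lit 7) (nat_lit 221) (nat_lit 87) r5_221 r11_87 (nat_lit 0) (nat_lit 0) (nat_lit 0) (nat_lit 0x8017985b4) (nat_lit 536870912),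
  Rx.mk (nat_lit 220) (nat_lit 4) (nat_lit 3) (nat_lit 3) (nat_lit 6) (nat_lit 222) (nat_lit 83) r5_222 r11_83 (nat_lit 20811975) (nat_lit 0) (nat_lit 0) (nat_lit 0x7fde627e0) (nat_lit 561177737),
  Rx.mk (nat_lit 221) (nat_lit 5) (nat_lit 3) (nat_lit 3) (nat_lit 7) (nat_lit 223) (nat_lit 84) r5_223 r11_84 (nat_lit 0) (nat_lit 0) (nat_lit 0) (nat_lit 0x8017985b4) (nat_lit 536870912),
  Rx.mk (nat_lit 222) (nat_lit 6) (nat_lit 3) (nat_lit 3) (nat_lit 7) (nat_lit 224) (nat_lit 85) r5_224 r11_85 (nat_lit 0) (nat_lit 0) (nat_lit 0) (nat_lit 0x8017985b4) (nat_lit 536870912)]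
noncomputable def e56_32 : List Rx := [
  Rx.mk (nat_lit 286) (nat_lit 6) (nat_lit 3) (nat_lit 4) (nat_lit 3) (nat_lit 243) (nat_lit 238) r5_243 r6_238 (nat_lit 0) (nat_lit 0) (nat_lit 52534) (nat_lit 0x806957f26) (nat_lit 530664346),
  Rx.mk (nat_lit 454) (nat_lit 6) (nat_lit 0) (nat_lit 7) (nat_lit 5) (nat_lit 242) (nat_lit 239) r5_242 r6_239 (nat_lit 0) (nat_lit 355084) (nat_lit 0) (nat_lit 0x7fdb97272) (nat_lit 539655146),
  Rx.mk (nat_lit 478) (nat_lit 6) (nat_lit 3) (nat_lit 7) (nat_lit 7) (nat_lit 244) (nat_lit 240) r5_244 r6_240 (nat_lit 0) (nat_lit 0) (nat_lit 0) (nat_lit 0x7f639d938) (nat_lit 547371662)]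
noncomputable def e56_33 : List Rx := [
  Rx.mk (nat_lit 262) (nat_lit 6) (nat_lit 0) (nat_lit 4) (nat_lit 1) (nat_lit 311) (nat_lit 235) r5_311 r5_235 (nat_lit 0) (nat_lit 59092) (nat_lit 256039) (nat_lit 0x820de74a0) (nat_lit 505885693),
  Rx.mk (nat_lit 270) (nat_lit 6) (nat_lit 1) (nat_lit 4) (nat_lit 3) (nat_lit 313) (nat_lit 236) r5_313 r5_236 (nat_lit 0) (nat_lit 0) (nat_lit 84189096) (nat_lit 0x80e5c9802) (nat_lit 608169008),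
  Rx.mk (nat_lit 286) (nat_lit 6) (nat_lit 3) (nat_lit 4) (nat_lit 3) (nat_lit 315) (nat_lit 237) r5_315 r5_237 (nat_lit 0) (nat_lit 0) (nat_lit 6154533) (nat_lit 0x82d163a50) (nat_lit 500638795),
  Rx.mk (nat_lit 454) (nat_lit 6) (nat_lit 0) (nat_lit 7) (nat_lit 5) (nat_lit 312) (nat_lit 238) r5_312 r5_238 (nat_lit 0) (nat_lit 1304446) (nat_lit 0) (nat_lit 0x7fd0f99aa) (nat_lit 541617058),
  Rx.mk (nat_lit 462) (nat_lit 6) (nat_lit 1) (nat_lit 7) (nat_lit 7) (nat_lit 314) (nat_lit 239) r5_314 r5_239 (nat_lit 0) (nat_lit 0) (nat_lit 0) (nat_lit 0x81c0a1d3a) (nat_lit 511016762)]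
noncomputable def e56_34 : List Rx := [
  Rx.mk (nat_lit 262) (nat_lit 6) (nat_lit 0) (nat_lit 4) (nat_lit 1) (nat_lit 316) (nat_lit 273) r5_316 r11_273 (nat_lit 0) (nat_lit 21014715) (nat_lit 20649739) (nat_lit 0x729e8ccc2) (nat_lit 795632066),
  Rx.mk (nat_lit 270) (nat_lit 6) (nat_lit 1) (nat_lit 4) (nat_lit 3) (nat_lit 319) (nat_lit 274) r5_319 r11_274 (nat_lit 0) (nat_lit 0) (nat_lit 24741287) (nat_lit 0x8017985b4) (nat_lit 561612199),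
  Rx.mk (nat_lit 286) (nat_lit 6) (nat_lit 3) (nat_lit 4) (nat_lit 3) (nat_lit 322) (nat_lit 275) r5_322 r11_275 (nat_lit 0) (nat_lit 0) (nat_lit 24086680) (nat_lit 0x7f9584f64) (nat_lit 568953542),
  Rx.mk (nat_lit 326) (nat_lit 6) (nat_lit 0) (nat_lit 5) (nat_lit 5) (nat_lit 317) (nat_lit 276) r5_317 r11_276 (nat_lit 0) (nat_lit 20064994) (nat_lit 0) (nat_lit 0x807284b4e) (nat_lit 551341856),
  Rx.mk (nat_lit 334) (nat_lit 6) (nat_lit 1) (nat_lit 5) (nat_lit 7) (nat_lit 320) (nat_lit 277) r5_320 r11_277 (nat_lit 0) (nat_lit 0) (nat_lit 0) (nat_lit 0x8017985b4) (nat_lit 536870912),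
  Rx.mk (nat_lit 350) (nat_lit 6) (nat_lit 3) (nat_lit 5) (nat_lit 7) (nat_lit 323) (nat_lit 278) r5_323 r11_278 (nat_lit 0) (nat_lit 0) (nat_lit 0) (nat_lit 0x8017985b4) (nat_lit 536870912),
  Rx.mk (nat_lit 454) (nat_lit 6) (nat_lit 0) (nat_lit 7) (nat_lit 5) (nat_lit 318) (nat_lit 279) r5_318 r11_279 (nat_lit 0) (nat_lit 21930199) (nat_lit 0) (nat_lit 0x8037c1084) (nat_lit 556823461),
  Rx.mk (nat_lit 462) (nat_lit 6) (nat_lit 1) (nat_lit 7) (nat_lit 7) (nat_lit 321) (nat_lit 280) r5_321 r11_280 (nat_lit 0) (nat_lit 0) (nat_lit 0) (nat_lit 0x8017985b4) (nat_lit 536870912)]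
noncomputable def e56_35 : List Rx := [
  Rx.mk (nat_lit 23) (nat_lit 7) (nat_lit 2) (nat_lit 0) (nat_lit 3) (nat_lit 73) (nat_lit 37) r5_73 r6_37 (nat_lit 0) (nat_lit 0) (nat_lit 6235362) (nat_lit 0x7e4c9eb16) (nat_lit 571302074),
  Rx.mk (nat_lit 151) (nat_lit 7) (nat_lit 2) (nat_lit 2) (nat_lit 7) (nat_lit 74) (nat_lit 40) r5_74 r6_40 (nat_lit 0) (nat_lit 0) (nat_lit 0) (nat_lit 0x7ffe6318e) (nat_lit 538324412),
  Rx.mk (nat_lit 196) (nat_lit 4) (nat_lit 0) (nat_lit 3) (nat_lit 4) (nat_lit 70) (nat_lit 31) r5_70 r6_31 (nat_lit 151381) (nat_lit 214613) (nat_lit 0) (nat_lit 0x7f84aacac) (nat_lit 545085756),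
  Rx.mk (nat_lit 198) (nat_lit 6) (nat_lit 0) (nat_lit 3) (nat_lit 5) (nat_lit 71) (nat_lit 33) r5_71 r6_33 (nat_lit 0) (nat_lit 5517824) (nat_lit 0) (nat_lit 0x80fe04cf0) (nat_lit 528080236),
  Rx.mk (nat_lit 199) (nat_lit 7) (nat_lit 0) (nat_lit 3) (nat_lit 5) (nat_lit 72) (nat_lit 32) r5_72 r6_32 (nat_lit 0) (nat_lit 7478372) (nat_lit 0) (nat_lit 0x7e7bc2848) (nat_lit 569688734),
  Rx.mk (nat_lit 212) (nat_lit 4) (nat_lit 2) (nat_lit 3) (nat_lit 6) (nat_lit 75) (nat_lit 38) r5_75 r6_38 (nat_lit 506970) (nat_lit 0) (nat_lit 0) (nat_lit 0x8036353fa) (nat_lit 534398782),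
  Rx.mk (nat_lit 215) (nat_lit 7) (nat_lit 2) (nat_lit 3) (nat_lit 7) (nat_lit 76) (nat_lit 39) r5_76 r6_39 (nat_lit 0) (nat_lit 0) (nat_lit 0) (nat_lit 0x8de7568e8) (nat_lit 325388962),
  Rx.mk (nat_lit 220) (nat_lit 4) (nat_lit 3) (nat_lit 3) (nat_lit 6) (nat_lit 78) (nat_lit 34) r5_78 r6_34 (nat_lit 14912566) (nat_lit 0) (nat_lit 0) (nat_lit 0x7ad02e7c8) (nat_lit 636403678),
  Rx.mk (nat_lit 222) (nat_lit 6) (nat_lit 3) (nat_lit 3) (nat_lit 7) (nat_lit 79) (nat_lit 35) r5_79 r6_35 (nat_lit 0) (nat_lit 0) (nat_lit 0) (nat_lit 0x7df8696ea) (nat_lit 570525862),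
  Rx.mk (nat_lit 478) (nat_lit 6) (nat_lit 3) (nat_lit 7) (nat_lit 7) (nat_lit 77) (nat_lit 36) r5_77 r6_36 (nat_lit 0) (nat_lit 0) (nat_lit 0) (nat_lit 0x7adbdb5da) (nat_lit 620253362)]
noncomputable def e56_36 : List Rx := [
  Rx.mk (nat_lit 196) (nat_lit 4) (nat_lit 0) (nat_lit 3) (nat_lit 4) (nat_lit 246) (nat_lit 450) r5_246 r12_450 (nat_lit 183720) (nat_lit 257136) (nat_lit 0) (nat_lit 0x78fe81dd4) (nat_lit 650662468),
  Rx.mk (nat_lit 198) (nat_lit 6) (nat_lit 0) (nat_lit 3) (nat_lit 5) (nat_lit 247) (nat_lit 454) r5_247 r12_454 (nat_lit 0) (nat_lit 3185059) (nat_lit 0) (nat_lit 0x8418ad1da) (nat_lit 478052171),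
  Rx.mk (nat_lit 199) (nat_lit 7) (nat_lit 0) (nat_lit 3) (nat_lit 5) (nat_lit 248) (nat_lit 452) r5_248 r12_452 (nat_lit 0) (nat_lit 6750895) (nat_lit 0) (nat_lit 0x78f123c8c) (nat_lit 658355657),
  Rx.mk (nat_lit 212) (nat_lit 4) (nat_lit 2) (nat_lit 3) (nat_lit 6) (nat_lit 249) (nat_lit 451) r5_249 r12_451 (nat_lit 385241) (nat_lit 0) (nat_lit 0) (nat_lit 0x80ae72098) (nat_lit 527020953),
  Rx.mk (nat_lit 215) (nat_lit 7) (nat_lit 2) (nat_lit 3) (nat_lit 7) (nat_lit 250) (nat_lit 453) r5_250 r12_453 (nat_lit 0) (nat_lit 0) (nat_lit 0) (nat_lit 0x8f2213cf0) (nat_lit 306467812),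
  Rx.mk (nat_lit 454) (nat_lit 6) (nat_lit 0) (nat_lit 7) (nat_lit 5) (nat_lit 245) (nat_lit 455) r5_245 r12_455 (nat_lit 0) (nat_lit 174098) (nat_lit 0) (nat_lit 0x8023fadac) (nat_lit 534971660),
  Rx.mk (nat_lit 478) (nat_lit 6) (nat_lit 3) (nat_lit 7) (nat_lit 7) (nat_lit 251) (nat_lit 456) r5_251 r12_456 (nat_lit 0) (nat_lit 0) (nat_lit 0) (nat_lit 0x7a825aed4) (nat_lit 625769862)]
noncomputable def e56_37 : List Rx := [
  Rx.mk (nat_lit 176) (nat_lit 0) (nat_lit 6) (nat_lit 2) (nat_lit 6) (nat_lit 99) (nat_lit 208) r5_99 r0_208 (nat_lit 9650169) (nat_lit 0) (nat_lit 0) (nat_lit 0x70202c884) (nat_lit 803847431),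
  Rx.mk (nat_lit 290) (nat_lit 2) (nat_lit 4) (nat_lit 4) (nat_lit 1) (nat_lit 95) (nat_lit 209) r5_95 r0_209 (nat_lit 0) (nat_lit 14014) (nat_lit 20620) (nat_lit 0x76e524eec) (nat_lit 684143846),
  Rx.mk (nat_lit 294) (nat_lit 6) (nat_lit 4) (nat_lit 4) (nat_lit 1) (nat_lit 94) (nat_lit 204) r5_94 r0_204 (nat_lit 0) (nat_lit 46998) (nat_lit 538423) (nat_lit 0x84bca4798) (nat_lit 465237583),
  Rx.mk (nat_lit 318) (nat_lit 6) (nat_lit 7) (nat_lit 4) (nat_lit 3) (nat_lit 100) (nat_lit 205) r5_100 r0_205 (nat_lit 0) (nat_lit 0) (nat_lit 331782363) (nat_lit 0x7cda33514) (nat_lit 920285625),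
  Rx.mk (nat_lit 418) (nat_lit 2) (nat_lit 4) (nat_lit 6) (nat_lit 5) (nat_lit 96) (nat_lit 210) r5_96 r0_210 (nat_lit 0) (nat_lit 6178764) (nat_lit 0) (nat_lit 0x7f794ecf0) (nat_lit 552570776),
  Rx.mk (nat_lit 432) (nat_lit 0) (nat_lit 6) (nat_lit 6) (nat_lit 6) (nat_lit 97) (nat_lit 207) r5_97 r0_207 (nat_lit 10938667) (nat_lit 0) (nat_lit 0) (nat_lit 0x6b03cd2ce) (nat_lit 887781329),
  Rx.mk (nat_lit 434) (nat_lit 2) (nat_lit 6) (nat_lit 6) (nat_lit 7) (nat_lit 98) (nat_lit 211) r5_98 r0_211 (nat_lit 0) (nat_lit 0) (nat_lit 0) (nat_lit 0x8017985b4) (nat_lit 536870912),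
  Rx.mk (nat_lit 510) (nat_lit 6) (nat_lit 7) (nat_lit 7) (nat_lit 7) (nat_lit 101) (nat_lit 206) r5_101 r0_206 (nat_lit 0) (nat_lit 0) (nat_lit 0) (nat_lit 0x67513425a) (nat_lit 936576412)]
noncomputable def e56_38 : List Rx := [
  Rx.mk (nat_lit 144) (nat_lit 0) (nat_lit 2) (nat_lit 2) (nat_lit 6) (nat_lit 4) (nat_lit 65) r5_4 r0_65 (nat_lit 5300773) (nat_lit 0) (nat_lit 0) (nat_lit 0x744841172) (nat_lit 732209835),
  Rx.mk (nat_lit 147) (nat_lit 3) (nat_lit 2) (nat_lit 2) (nat_lit 7) (nat_lit 5) (nat_lit 66) r5_5 r0_66 (nat_lit 0) (nat_lit 0) (nat_lit 0) (nat_lit 0x7e757e964) (nat_lit 562790112),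
  Rx.mk (nat_lit 176) (nat_lit 0) (nat_lit 6) (nat_lit 2) (nat_lit 6) (nat_lit 3) (nat_lit 68) r5_3 r0_68 (nat_lit 2967474) (nat_lit 0) (nat_lit 0) (nat_lit 0x6ee61820c) (nat_lit 816847386),
  Rx.mk (nat_lit 418) (nat_lit 2) (nat_lit 4) (nat_lit 6) (nat_lit 5) (nat_lit 0) (nat_lit 67) r5_0 r0_67 (nat_lit 0) (nat_lit 3027604) (nat_lit 0) (nat_lit 0x6b9390500) (nat_lit 870600266),
  Rx.mk (nat_lit 432) (nat_lit 0) (nat_lit 6) (nat_lit 6) (nat_lit 6) (nat_lit 1) (nat_lit 69) r5_1 r0_69 (nat_lit 3947515) (nat_lit 0) (nat_lit 0) (nat_lit 0x65de79e82) (nat_lit 963893527),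
  Rx.mk (nat_lit 434) (nat_lit 2) (nat_lit 6) (nat_lit 6) (nat_lit 7) (nat_lit 2) (nat_lit 70) r5_2 r0_70 (nat_lit 0) (nat_lit 0) (nat_lit 0) (nat_lit 0x7d9d38000) (nat_lit 576358762)]
noncomputable def e56_39 : List Rx := [
  Rx.mk (nat_lit 176) (nat_lit 0) (nat_lit 6) (nat_lit 2) (nat_lit 6) (nat_lit 105) (nat_lit 271) r5_105 r7_271 (nat_lit 7182949) (nat_lit 0) (nat_lit 0) (nat_lit 0x7cac4e324) (nat_lit 598492961),
  Rx.mk (nat_lit 418) (nat_lit 2) (nat_lit 4) (nat_lit 6) (nat_lit 5) (nat_lit 102) (nat_lit 272) r5_102 r7_272 (nat_lit 0) (nat_lit 6601539) (nat_lit 0) (nat_lit 0x821cfef2e) (nat_lit 512046101),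
  Rx.mk (nat_lit 432) (nat_lit 0) (nat_lit 6) (nat_lit 6) (nat_lit 6) (nat_lit 103) (nat_lit 270) r5_103 r7_270 (nat_lit 19223735) (nat_lit 0) (nat_lit 0) (nat_lit 0x75d2c1c74) (nat_lit 721395547),
  Rx.mk (nat_lit 434) (nat_lit 2) (nat_lit 6) (nat_lit 6) (nat_lit 7) (nat_lit 104) (nat_lit 273) r5_104 r7_273 (nat_lit 0) (nat_lit 0) (nat_lit 0) (nat_lit 0x8017985b4) (nat_lit 536870912)]
noncomputable def e56_40 : List Rx := [
  Rx.mk (nat_lit 145) (nat_lit 1) (nat_lit 2) (nat_lit 2) (nat_lit 7) (nat_lit 15) (nat_lit 57) r5_15 r2_57 (nat_lit 0) (nat_lit 0) (nat_lit 0) (nat_lit 0x8059dee46) (nat_lit 532797862),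
  Rx.mk (nat_lit 177) (nat_lit 1) (nat_lit 6) (nat_lit 2) (nat_lit 7) (nat_lit 14) (nat_lit 58) r5_14 r2_58 (nat_lit 0) (nat_lit 0) (nat_lit 0) (nat_lit 0x8017985b4) (nat_lit 536870912)]
noncomputable def e56_41 : List Rx := [
  Rx.mk (nat_lit 177) (nat_lit 1) (nat_lit 6) (nat_lit 2) (nat_lit 7) (nat_lit 123) (nat_lit 18) r5_123 r9_18 (nat_lit 0) (nat_lit 0) (nat_lit 0) (nat_lit 0x8017985b4) (nat_lit 536870912)]
noncomputable def e56_42 : List Rx := [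
  Rx.mk (nat_lit 145) (nat_lit 1) (nat_lit 2) (nat_lit 2) (nat_lit 7) (nat_lit 151) (nat_lit 64) r5_151 r9_64 (nat_lit 0) (nat_lit 0) (nat_lit 0) (nat_lit 0x7ffc47724) (nat_lit 538543512),
  Rx.mk (nat_lit 177) (nat_lit 1) (nat_lit 6) (nat_lit 2) (nat_lit 7) (nat_lit 150) (nat_lit 63) r5_150 r9_63 (nat_lit 0) (nat_lit 0) (nat_lit 0) (nat_lit 0x8017985b4) (nat_lit 536870912)]
noncomputable def e56_43 : List Rx := [
  Rx.mk (nat_lit 144) (nat_lit 0) (nat_lit 2) (nat_lit 2) (nat_lit 6) (nat_lit 11) (nat_lit 58) r5_11 r1_58 (nat_lit 6051545) (nat_lit 0) (nat_lit 0) (nat_lit 0x72f5acc5a) (nat_lit 754383857),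
  Rx.mk (nat_lit 145) (nat_lit 1) (nat_lit 2) (nat_lit 2) (nat_lit 7) (nat_lit 12) (nat_lit 59) r5_12 r1_59 (nat_lit 0) (nat_lit 0) (nat_lit 0) (nat_lit 0x814d8e96a) (nat_lit 517942162),
  Rx.mk (nat_lit 147) (nat_lit 3) (nat_lit 2) (nat_lit 2) (nat_lit 7) (nat_lit 13) (nat_lit 60) r5_13 r1_60 (nat_lit 0) (nat_lit 0) (nat_lit 0) (nat_lit 0x7fe62a1bc) (nat_lit 539838662),
  Rx.mk (nat_lit 176) (nat_lit 0) (nat_lit 6) (nat_lit 2) (nat_lit 6) (nat_lit 9) (nat_lit 61) r5_9 r1_61 (nat_lit 3702159) (nat_lit 0) (nat_lit 0) (nat_lit 0x6eab69304) (nat_lit 821330421),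
  Rx.mk (nat_lit 177) (nat_lit 1) (nat_lit 6) (nat_lit 2) (nat_lit 7) (nat_lit 10) (nat_lit 62) r5_10 r1_62 (nat_lit 0) (nat_lit 0) (nat_lit 0) (nat_lit 0x8270dea40) (nat_lit 500473562),
  Rx.mk (nat_lit 432) (nat_lit 0) (nat_lit 6) (nat_lit 6) (nat_lit 6) (nat_lit 6) (nat_lit 63) r5_6 r1_63 (nat_lit 10795266) (nat_lit 0) (nat_lit 0) (nat_lit 0x6d3a97438) (nat_lit 851857228),
  Rx.mk (nat_lit 433) (nat_lit 1) (nat_lit 6) (nat_lit 6) (nat_lit 7) (nat_lit 7) (nat_lit 64) r5_7 r1_64 (nat_lit 0) (nat_lit 0) (nat_lit 0) (nat_lit 0x8038a520c) (nat_lit 534837962),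
  Rx.mk (nat_lit 434) (nat_lit 2) (nat_lit 6) (nat_lit 6) (nat_lit 7) (nat_lit 8) (nat_lit 65) r5_8 r1_65 (nat_lit 0) (nat_lit 0) (nat_lit 0) (nat_lit 0x8009d4658) (nat_lit 537721562)]
noncomputable def e56_44 : List Rx := [
  Rx.mk (nat_lit 176) (nat_lit 0) (nat_lit 6) (nat_lit 2) (nat_lit 6) (nat_lit 121) (nat_lit 202) r5_121 r8_202 (nat_lit 10065734) (nat_lit 0) (nat_lit 0) (nat_lit 0x7e9c4689e) (nat_lit 570285946),
  Rx.mk (nat_lit 177) (nat_lit 1) (nat_lit 6) (nat_lit 2) (nat_lit 7) (nat_lit 122) (nat_lit 204) r5_122 r8_204 (nat_lit 0) (nat_lit 0) (nat_lit 0) (nat_lit 0x80d50bd58) (nat_lit 525282062),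
  Rx.mk (nat_lit 432) (nat_lit 0) (nat_lit 6) (nat_lit 6) (nat_lit 6) (nat_lit 118) (nat_lit 201) r5_118 r8_201 (nat_lit 25748057) (nat_lit 0) (nat_lit 0) (nat_lit 0x790d284fa) (nat_lit 675764869),
  Rx.mk (nat_lit 433) (nat_lit 1) (nat_lit 6) (nat_lit 6) (nat_lit 7) (nat_lit 119) (nat_lit 203) r5_119 r8_203 (nat_lit 0) (nat_lit 0) (nat_lit 0) (nat_lit 0x8017985b4) (nat_lit 536870912),
  Rx.mk (nat_lit 434) (nat_lit 2) (nat_lit 6) (nat_lit 6) (nat_lit 7) (nat_lit 120) (nat_lit 205) r5_120 r8_205 (nat_lit 0) (nat_lit 0) (nat_lit 0) (nat_lit 0x8017985b4) (nat_lit 536870912)]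
noncomputable def e56_45 : List Rx := [
  Rx.mk (nat_lit 290) (nat_lit 2) (nat_lit 4) (nat_lit 4) (nat_lit 1) (nat_lit 107) (nat_lit 229) r5_107 r1_229 (nat_lit 0) (nat_lit 3281434) (nat_lit 5641616) (nat_lit 0x6d31d3d56) (nat_lit 850354662),
  Rx.mk (nat_lit 294) (nat_lit 6) (nat_lit 4) (nat_lit 4) (nat_lit 1) (nat_lit 106) (nat_lit 225) r5_106 r1_225 (nat_lit 0) (nat_lit 1138385) (nat_lit 183334041) (nat_lit 0x858f1770c) (nat_lit 636880238),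
  Rx.mk (nat_lit 298) (nat_lit 2) (nat_lit 5) (nat_lit 4) (nat_lit 3) (nat_lit 110) (nat_lit 230) r5_110 r1_230 (nat_lit 0) (nat_lit 0) (nat_lit 14046649) (nat_lit 0x808591f7a) (nat_lit 544109911),
  Rx.mk (nat_lit 302) (nat_lit 6) (nat_lit 5) (nat_lit 4) (nat_lit 3) (nat_lit 109) (nat_lit 226) r5_109 r1_226 (nat_lit 0) (nat_lit 0) (nat_lit 20365735) (nat_lit 0x82689a0c8) (nat_lit 521307397),
  Rx.mk (nat_lit 318) (nat_lit 6) (nat_lit 7) (nat_lit 4) (nat_lit 3) (nat_lit 113) (nat_lit 227) r5_113 r1_227 (nat_lit 0) (nat_lit 0) (nat_lit 34273461) (nat_lit 0x80eb8917a) (nat_lit 558087723),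
  Rx.mk (nat_lit 418) (nat_lit 2) (nat_lit 4) (nat_lit 6) (nat_lit 5) (nat_lit 108) (nat_lit 231) r5_108 r1_231 (nat_lit 0) (nat_lit 13555305) (nat_lit 0) (nat_lit 0x7b2b08126) (nat_lit 629326967),
  Rx.mk (nat_lit 426) (nat_lit 2) (nat_lit 5) (nat_lit 6) (nat_lit 7) (nat_lit 111) (nat_lit 232) r5_111 r1_232 (nat_lit 0) (nat_lit 0) (nat_lit 0) (nat_lit 0x8017985b4) (nat_lit 536870912),
  Rx.mk (nat_lit 434) (nat_lit 2) (nat_lit 6) (nat_lit 6) (nat_lit 7) (nat_lit 112) (nat_lit 233) r5_112 r1_233 (nat_lit 0) (nat_lit 0) (nat_lit 0) (nat_lit 0x8017985b4) (nat_lit 536870912),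
  Rx.mk (nat_lit 510) (nat_lit 6) (nat_lit 7) (nat_lit 7) (nat_lit 7) (nat_lit 114) (nat_lit 228) r5_114 r1_228 (nat_lit 0) (nat_lit 0) (nat_lit 0) (nat_lit 0x80759d768) (nat_lit 530997812)]
noncomputable def e56_46 : List Rx := [
  Rx.mk (nat_lit 298) (nat_lit 2) (nat_lit 5) (nat_lit 4) (nat_lit 3) (nat_lit 259) (nat_lit 239) r5_259 r2_239 (nat_lit 0) (nat_lit 0) (nat_lit 20262659) (nat_lit 0x7ffd89060) (nat_lit 558709871),
  Rx.mk (nat_lit 302) (nat_lit 6) (nat_lit 5) (nat_lit 4) (nat_lit 3) (nat_lit 258) (nat_lit 238) r5_258 r2_238 (nat_lit 0) (nat_lit 0) (nat_lit 39193482) (nat_lit 0x80a1c8662) (nat_lit 567515444),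
  Rx.mk (nat_lit 426) (nat_lit 2) (nat_lit 5) (nat_lit 6) (nat_lit 7) (nat_lit 260) (nat_lit 240) r5_260 r2_240 (nat_lit 0) (nat_lit 0) (nat_lit 0) (nat_lit 0x8017985b4) (nat_lit 536870912)]
noncomputable def e56_47 : List Rx := [
  Rx.mk (nat_lit 418) (nat_lit 2) (nat_lit 4) (nat_lit 6) (nat_lit 5) (nat_lit 115) (nat_lit 58) r5_115 r8_58 (nat_lit 0) (nat_lit 14303237) (nat_lit 0) (nat_lit 0x7ea35f61c) (nat_lit 574182799),
  Rx.mk (nat_lit 426) (nat_lit 2) (nat_lit 5) (nat_lit 6) (nat_lit 7) (nat_lit 116) (nat_lit 59) r5_116 r8_59 (nat_lit 0) (nat_lit 0) (nat_lit 0) (nat_lit 0x805c00e40) (nat_lit 532666762),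
  Rx.mk (nat_lit 434) (nat_lit 2) (nat_lit 6) (nat_lit 6) (nat_lit 7) (nat_lit 117) (nat_lit 60) r5_117 r8_60 (nat_lit 0) (nat_lit 0) (nat_lit 0) (nat_lit 0x8017985b4) (nat_lit 536870912)]
noncomputable def e56_48 : List Rx := [
  Rx.mk (nat_lit 426) (nat_lit 2) (nat_lit 5) (nat_lit 6) (nat_lit 7) (nat_lit 266) (nat_lit 215) r5_266 r9_215 (nat_lit 0) (nat_lit 0) (nat_lit 0) (nat_lit 0x7fd940442) (nat_lit 540690962)]
noncomputable def e56_49 : List Rx := [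
  Rx.mk (nat_lit 298) (nat_lit 2) (nat_lit 5) (nat_lit 4) (nat_lit 3) (nat_lit 262) (nat_lit 224) r5_262 r9_224 (nat_lit 0) (nat_lit 0) (nat_lit 27922064) (nat_lit 0x7cb09d100) (nat_lit 619170926),
  Rx.mk (nat_lit 302) (nat_lit 6) (nat_lit 5) (nat_lit 4) (nat_lit 3) (nat_lit 261) (nat_lit 225) r5_261 r9_225 (nat_lit 0) (nat_lit 0) (nat_lit 29963902) (nat_lit 0x7c0aae942) (nat_lit 631646464),
  Rx.mk (nat_lit 362) (nat_lit 2) (nat_lit 5) (nat_lit 5) (nat_lit 7) (nat_lit 264) (nat_lit 226) r5_264 r9_226 (nat_lit 0) (nat_lit 0) (nat_lit 0) (nat_lit 0x8017985b4) (nat_lit 536870912),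
  Rx.mk (nat_lit 366) (nat_lit 6) (nat_lit 5) (nat_lit 5) (nat_lit 7) (nat_lit 263) (nat_lit 227) r5_263 r9_227 (nat_lit 0) (nat_lit 0) (nat_lit 0) (nat_lit 0x8017985b4) (nat_lit 536870912),
  Rx.mk (nat_lit 426) (nat_lit 2) (nat_lit 5) (nat_lit 6) (nat_lit 7) (nat_lit 265) (nat_lit 228) r5_265 r9_228 (nat_lit 0) (nat_lit 0) (nat_lit 0) (nat_lit 0x8017985b4) (nat_lit 536870912)]
noncomputable def e56_50 : List Rx := [
  Rx.mk (nat_lit 147) (nat_lit 3) (nat_lit 2) (nat_lit 2) (nat_lit 7) (nat_lit 25) (nat_lit 210) r5_25 r3_210 (nat_lit 0) (nat_lit 0) (nat_lit 0) (nat_lit 0x6ac4b35b6) (nat_lit 880256562),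
  Rx.mk (nat_lit 176) (nat_lit 0) (nat_lit 6) (nat_lit 2) (nat_lit 6) (nat_lit 19) (nat_lit 208) r5_19 r3_208 (nat_lit 189369) (nat_lit 0) (nat_lit 0) (nat_lit 0x726ece4ea) (nat_lit 756498431),
  Rx.mk (nat_lit 179) (nat_lit 3) (nat_lit 6) (nat_lit 2) (nat_lit 7) (nat_lit 20) (nat_lit 209) r5_20 r3_209 (nat_lit 0) (nat_lit 0) (nat_lit 0) (nat_lit 0x8463a3ca2) (nat_lit 470475612),
  Rx.mk (nat_lit 314) (nat_lit 2) (nat_lit 7) (nat_lit 4) (nat_lit 3) (nat_lit 22) (nat_lit 211) r5_22 r3_211 (nat_lit 0) (nat_lit 0) (nat_lit 101429) (nat_lit 0x75fc83cd8) (nat_lit 698920341),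
  Rx.mk (nat_lit 318) (nat_lit 6) (nat_lit 7) (nat_lit 4) (nat_lit 3) (nat_lit 21) (nat_lit 204) r5_21 r3_204 (nat_lit 0) (nat_lit 0) (nat_lit 10455) (nat_lit 0x8008c36ba) (nat_lit 536361367),
  Rx.mk (nat_lit 418) (nat_lit 2) (nat_lit 4) (nat_lit 6) (nat_lit 5) (nat_lit 16) (nat_lit 212) r5_16 r3_212 (nat_lit 0) (nat_lit 221843) (nat_lit 0) (nat_lit 0x79aa7fb2c) (nat_lit 639578955),
  Rx.mk (nat_lit 432) (nat_lit 0) (nat_lit 6) (nat_lit 6) (nat_lit 6) (nat_lit 17) (nat_lit 207) r5_17 r3_207 (nat_lit 16744) (nat_lit 0) (nat_lit 0) (nat_lit 0x750724bf2) (nat_lit 714320356),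
  Rx.mk (nat_lit 434) (nat_lit 2) (nat_lit 6) (nat_lit 6) (nat_lit 7) (nat_lit 18) (nat_lit 214) r5_18 r3_214 (nat_lit 0) (nat_lit 0) (nat_lit 0) (nat_lit 0x7a87b5e10) (nat_lit 626124662),
  Rx.mk (nat_lit 442) (nat_lit 2) (nat_lit 7) (nat_lit 6) (nat_lit 7) (nat_lit 23) (nat_lit 213) r5_23 r3_213 (nat_lit 0) (nat_lit 0) (nat_lit 0) (nat_lit 0x8fbafdd30) (nat_lit 297369762),
  Rx.mk (nat_lit 478) (nat_lit 6) (nat_lit 3) (nat_lit 7) (nat_lit 7) (nat_lit 26) (nat_lit 206) r5_26 r3_206 (nat_lit 0) (nat_lit 0) (nat_lit 0) (nat_lit 0x7f169299a) (nat_lit 552155012),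
  Rx.mk (nat_lit 510) (nat_lit 6) (nat_lit 7) (nat_lit 7) (nat_lit 7) (nat_lit 24) (nat_lit 205) r5_24 r3_205 (nat_lit 0) (nat_lit 0) (nat_lit 0) (nat_lit 0x74ad72000) (nat_lit 720619462)]
noncomputable def e56_51 : List Rx := [
  Rx.mk (nat_lit 176) (nat_lit 0) (nat_lit 6) (nat_lit 2) (nat_lit 6) (nat_lit 128) (nat_lit 198) r5_128 r4_198 (nat_lit 4758833) (nat_lit 0) (nat_lit 0) (nat_lit 0x72642244c) (nat_lit 762218945),
  Rx.mk (nat_lit 179) (nat_lit 3) (nat_lit 6) (nat_lit 2) (nat_lit 7) (nat_lit 129) (nat_lit 199) r5_129 r4_199 (nat_lit 0) (nat_lit 0) (nat_lit 0) (nat_lit 0x7eb750676) (nat_lit 558254112),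
  Rx.mk (nat_lit 290) (nat_lit 2) (nat_lit 4) (nat_lit 4) (nat_lit 1) (nat_lit 124) (nat_lit 200) r5_124 r4_200 (nat_lit 0) (nat_lit 19134) (nat_lit 27807) (nat_lit 0x6beaf468e) (nat_lit 861670253),
  Rx.mk (nat_lit 314) (nat_lit 2) (nat_lit 7) (nat_lit 4) (nat_lit 3) (nat_lit 131) (nat_lit 201) r5_131 r4_201 (nat_lit 0) (nat_lit 0) (nat_lit 11917208) (nat_lit 0x7c8e48028) (nat_lit 605161420),
  Rx.mk (nat_lit 318) (nat_lit 6) (nat_lit 7) (nat_lit 4) (nat_lit 3) (nat_lit 130) (nat_lit 195) r5_130 r4_195 (nat_lit 0) (nat_lit 0) (nat_lit 202248689) (nat_lit 0x7fd88729e) (nat_lit 741698201),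
  Rx.mk (nat_lit 418) (nat_lit 2) (nat_lit 4) (nat_lit 6) (nat_lit 5) (nat_lit 125) (nat_lit 202) r5_125 r4_202 (nat_lit 0) (nat_lit 4444174) (nat_lit 0) (nat_lit 0x7f2401202) (nat_lit 556007186),
  Rx.mk (nat_lit 432) (nat_lit 0) (nat_lit 6) (nat_lit 6) (nat_lit 6) (nat_lit 126) (nat_lit 197) r5_126 r4_197 (nat_lit 10127202) (nat_lit 0) (nat_lit 0) (nat_lit 0x78e0d6154) (nat_lit 662850514),
  Rx.mk (nat_lit 434) (nat_lit 2) (nat_lit 6) (nat_lit 6) (nat_lit 7) (nat_lit 127) (nat_lit 204) r5_127 r4_204 (nat_lit 0) (nat_lit 0) (nat_lit 0) (nat_lit 0x8017985b4) (nat_lit 536870912),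
  Rx.mk (nat_lit 442) (nat_lit 2) (nat_lit 7) (nat_lit 6) (nat_lit 7) (nat_lit 132) (nat_lit 203) r5_132 r4_203 (nat_lit 0) (nat_lit 0) (nat_lit 0) (nat_lit 0x80931c514) (nat_lit 529274562),
  Rx.mk (nat_lit 510) (nat_lit 6) (nat_lit 7) (nat_lit 7) (nat_lit 7) (nat_lit 133) (nat_lit 196) r5_133 r4_196 (nat_lit 0) (nat_lit 0) (nat_lit 0) (nat_lit 0x7f0ea3518) (nat_lit 553137312)]
noncomputable def e56_52 : List Rx := [
  Rx.mk (nat_lit 286) (nat_lit 6) (nat_lit 3) (nat_lit 4) (nat_lit 3) (nat_lit 228) (nat_lit 226) r5_228 r5_226 (nat_lit 0) (nat_lit 0) (nat_lit 5850069) (nat_lit 0x7b79ebb76) (nat_lit 616369131),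
  Rx.mk (nat_lit 314) (nat_lit 2) (nat_lit 7) (nat_lit 4) (nat_lit 3) (nat_lit 226) (nat_lit 228) r5_226 r5_228 (nat_lit 0) (nat_lit 0) (nat_lit 5850069) (nat_lit 0x7b79ebb76) (nat_lit 616369131),
  Rx.mk (nat_lit 318) (nat_lit 6) (nat_lit 7) (nat_lit 4) (nat_lit 3) (nat_lit 225) (nat_lit 225) r5_225 r5_225 (nat_lit 0) (nat_lit 0) (nat_lit 18256872) (nat_lit 0x84be62d6e) (nat_lit 483320184),
  Rx.mk (nat_lit 442) (nat_lit 2) (nat_lit 7) (nat_lit 6) (nat_lit 7) (nat_lit 227) (nat_lit 229) r5_227 r5_229 (nat_lit 0) (nat_lit 0) (nat_lit 0) (nat_lit 0x7faf46fd8) (nat_lit 542713462),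
  Rx.mk (nat_lit 478) (nat_lit 6) (nat_lit 3) (nat_lit 7) (nat_lit 7) (nat_lit 229) (nat_lit 227) r5_229 r5_227 (nat_lit 0) (nat_lit 0) (nat_lit 0) (nat_lit 0x7faf46fd8) (nat_lit 542713462)]
noncomputable def e56_53 : List Rx := [
  Rx.mk (nat_lit 147) (nat_lit 3) (nat_lit 2) (nat_lit 2) (nat_lit 7) (nat_lit 33) (nat_lit 58) r5_33 r4_58 (nat_lit 0) (nat_lit 0) (nat_lit 0) (nat_lit 0x7f5b0655e) (nat_lit 548352312),
  Rx.mk (nat_lit 176) (nat_lit 0) (nat_lit 6) (nat_lit 2) (nat_lit 6) (nat_lit 30) (nat_lit 61) r5_30 r4_61 (nat_lit 2696286) (nat_lit 0) (nat_lit 0) (nat_lit 0x7ed2b6d5c) (nat_lit 559201548),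
  Rx.mk (nat_lit 179) (nat_lit 3) (nat_lit 6) (nat_lit 2) (nat_lit 7) (nat_lit 31) (nat_lit 62) r5_31 r4_62 (nat_lit 0) (nat_lit 0) (nat_lit 0) (nat_lit 0x80e735e2a) (nat_lit 524112462),
  Rx.mk (nat_lit 418) (nat_lit 2) (nat_lit 4) (nat_lit 6) (nat_lit 5) (nat_lit 27) (nat_lit 59) r5_27 r4_59 (nat_lit 0) (nat_lit 6174630) (nat_lit 0) (nat_lit 0x7de1761fe) (nat_lit 578007592),
  Rx.mk (nat_lit 432) (nat_lit 0) (nat_lit 6) (nat_lit 6) (nat_lit 6) (nat_lit 28) (nat_lit 63) r5_28 r4_63 (nat_lit 8135991) (nat_lit 0) (nat_lit 0) (nat_lit 0x79057fe38) (nat_lit 658530703),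
  Rx.mk (nat_lit 434) (nat_lit 2) (nat_lit 6) (nat_lit 6) (nat_lit 7) (nat_lit 29) (nat_lit 64) r5_29 r4_64 (nat_lit 0) (nat_lit 0) (nat_lit 0) (nat_lit 0x80009fe20) (nat_lit 538237112),
  Rx.mk (nat_lit 442) (nat_lit 2) (nat_lit 7) (nat_lit 6) (nat_lit 7) (nat_lit 32) (nat_lit 60) r5_32 r4_60 (nat_lit 0) (nat_lit 0) (nat_lit 0) (nat_lit 0x80483a47e) (nat_lit 532926012)]
noncomputable def e56_54 : List Rx := [
  Rx.mk (nat_lit 176) (nat_lit 0) (nat_lit 6) (nat_lit 2) (nat_lit 6) (nat_lit 137) (nat_lit 213) r5_137 r10_213 (nat_lit 5865404) (nat_lit 0) (nat_lit 0) (nat_lit 0x7ef7589d0) (nat_lit 560306366),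
  Rx.mk (nat_lit 179) (nat_lit 3) (nat_lit 6) (nat_lit 2) (nat_lit 7) (nat_lit 138) (nat_lit 214) r5_138 r10_214 (nat_lit 0) (nat_lit 0) (nat_lit 0) (nat_lit 0x815de8a72) (nat_lit 517001212),
  Rx.mk (nat_lit 418) (nat_lit 2) (nat_lit 4) (nat_lit 6) (nat_lit 5) (nat_lit 134) (nat_lit 215) r5_134 r10_215 (nat_lit 0) (nat_lit 6614420) (nat_lit 0) (nat_lit 0x81f9ff474) (nat_lit 514154582),
  Rx.mk (nat_lit 432) (nat_lit 0) (nat_lit 6) (nat_lit 6) (nat_lit 6) (nat_lit 135) (nat_lit 212) r5_135 r10_212 (nat_lit 16735369) (nat_lit 0) (nat_lit 0) (nat_lit 0x79b416a78) (nat_lit 656180481),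
  Rx.mk (nat_lit 434) (nat_lit 2) (nat_lit 6) (nat_lit 6) (nat_lit 7) (nat_lit 136) (nat_lit 217) r5_136 r10_217 (nat_lit 0) (nat_lit 0) (nat_lit 0) (nat_lit 0x8017985b4) (nat_lit 536870912),
  Rx.mk (nat_lit 442) (nat_lit 2) (nat_lit 7) (nat_lit 6) (nat_lit 7) (nat_lit 139) (nat_lit 216) r5_139 r10_216 (nat_lit 0) (nat_lit 0) (nat_lit 0) (nat_lit 0x80c39fc54) (nat_lit 526340012)]
noncomputable def e56_55 : List Rx := [
  Rx.mk (nat_lit 442) (nat_lit 2) (nat_lit 7) (nat_lit 6) (nat_lit 7) (nat_lit 230) (nat_lit 265) r5_230 r11_265 (nat_lit 0) (nat_lit 0) (nat_lit 0) (nat_lit 0x880aa8a68) (nat_lit 414822412)]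
noncomputable def e56_56 : List Rx := [
  Rx.mk (nat_lit 23) (nat_lit 7) (nat_lit 2) (nat_lit 0) (nat_lit 3) (nat_lit 44) (nat_lit 39) r5_44 r5_39 (nat_lit 0) (nat_lit 0) (nat_lit 95224) (nat_lit 0x657b91806) (nat_lit 965803786),
  Rx.mk (nat_lit 147) (nat_lit 3) (nat_lit 2) (nat_lit 2) (nat_lit 7) (nat_lit 46) (nat_lit 41) r5_46 r5_41 (nat_lit 0) (nat_lit 0) (nat_lit 0) (nat_lit 0x69d8ee522) (nat_lit 895187012),
  Rx.mk (nat_lit 151) (nat_lit 7) (nat_lit 2) (nat_lit 2) (nat_lit 7) (nat_lit 45) (nat_lit 42) r5_45 r5_42 (nat_lit 0) (nat_lit 0) (nat_lit 0) (nat_lit 0x84d140d82) (nat_lit 463855312),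
  Rx.mk (nat_lit 179) (nat_lit 3) (nat_lit 6) (nat_lit 2) (nat_lit 7) (nat_lit 38) (nat_lit 48) r5_38 r5_48 (nat_lit 0) (nat_lit 0) (nat_lit 0) (nat_lit 0x71216a11e) (nat_lit 777371612),
  Rx.mk (nat_lit 199) (nat_lit 7) (nat_lit 0) (nat_lit 3) (nat_lit 5) (nat_lit 43) (nat_lit 34) r5_43 r5_34 (nat_lit 0) (nat_lit 7782) (nat_lit 0) (nat_lit 0x7fffb2940) (nat_lit 536903144),
  Rx.mk (nat_lit 215) (nat_lit 7) (nat_lit 2) (nat_lit 3) (nat_lit 7) (nat_lit 47) (nat_lit 40) r5_47 r5_40 (nat_lit 0) (nat_lit 0) (nat_lit 0) (nat_lit 0x9c18cb802) (nat_lit 108391362),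
  Rx.mk (nat_lit 220) (nat_lit 4) (nat_lit 3) (nat_lit 3) (nat_lit 6) (nat_lit 49) (nat_lit 35) r5_49 r5_35 (nat_lit 60765) (nat_lit 0) (nat_lit 0) (nat_lit 0x613d6daec) (nat_lit 1034367827),
  Rx.mk (nat_lit 222) (nat_lit 6) (nat_lit 3) (nat_lit 3) (nat_lit 7) (nat_lit 50) (nat_lit 37) r5_50 r5_37 (nat_lit 0) (nat_lit 0) (nat_lit 0) (nat_lit 0x7bbed4a8a) (nat_lit 606336812),
  Rx.mk (nat_lit 223) (nat_lit 7) (nat_lit 3) (nat_lit 3) (nat_lit 7) (nat_lit 51) (nat_lit 36) r5_51 r5_36 (nat_lit 0) (nat_lit 0) (nat_lit 0) (nat_lit 0x7cdc412e8) (nat_lit 588411612),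
  Rx.mk (nat_lit 314) (nat_lit 2) (nat_lit 7) (nat_lit 4) (nat_lit 3) (nat_lit 39) (nat_lit 44) r5_39 r5_44 (nat_lit 0) (nat_lit 0) (nat_lit 95224) (nat_lit 0x657b91806) (nat_lit 965803786),
  Rx.mk (nat_lit 418) (nat_lit 2) (nat_lit 4) (nat_lit 6) (nat_lit 5) (nat_lit 34) (nat_lit 43) r5_34 r5_43 (nat_lit 0) (nat_lit 7782) (nat_lit 0) (nat_lit 0x7fffb2940) (nat_lit 536903144),
  Rx.mk (nat_lit 432) (nat_lit 0) (nat_lit 6) (nat_lit 6) (nat_lit 6) (nat_lit 35) (nat_lit 49) r5_35 r5_49 (nat_lit 60765) (nat_lit 0) (nat_lit 0) (nat_lit 0x613d6daec) (nat_lit 1034367827),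
  Rx.mk (nat_lit 434) (nat_lit 2) (nat_lit 6) (nat_lit 6) (nat_lit 7) (nat_lit 36) (nat_lit 51) r5_36 r5_51 (nat_lit 0) (nat_lit 0) (nat_lit 0) (nat_lit 0x7cdc412e8) (nat_lit 588411612),
  Rx.mk (nat_lit 435) (nat_lit 3) (nat_lit 6) (nat_lit 6) (nat_lit 7) (nat_lit 37) (nat_lit 50) r5_37 r5_50 (nat_lit 0) (nat_lit 0) (nat_lit 0) (nat_lit 0x7bbed4a8a) (nat_lit 606336812),
  Rx.mk (nat_lit 442) (nat_lit 2) (nat_lit 7) (nat_lit 6) (nat_lit 7) (nat_lit 40) (nat_lit 47) r5_40 r5_47 (nat_lit 0) (nat_lit 0) (nat_lit 0) (nat_lit 0x9c18cb802) (nat_lit 108391362),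
  Rx.mk (nat_lit 478) (nat_lit 6) (nat_lit 3) (nat_lit 7) (nat_lit 7) (nat_lit 48) (nat_lit 38) r5_48 r5_38 (nat_lit 0) (nat_lit 0) (nat_lit 0) (nat_lit 0x71216a11e) (nat_lit 777371612),
  Rx.mk (nat_lit 506) (nat_lit 2) (nat_lit 7) (nat_lit 7) (nat_lit 7) (nat_lit 42) (nat_lit 45) r5_42 r5_45 (nat_lit 0) (nat_lit 0) (nat_lit 0) (nat_lit 0x84d140d82) (nat_lit 463855312),
  Rx.mk (nat_lit 510) (nat_lit 6) (nat_lit 7) (nat_lit 7) (nat_lit 7) (nat_lit 41) (nat_lit 46) r5_41 r5_46 (nat_lit 0) (nat_lit 0) (nat_lit 0) (nat_lit 0x69d8ee522) (nat_lit 895187012)]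
noncomputable def e56_57 : List Rx := [
  Rx.mk (nat_lit 179) (nat_lit 3) (nat_lit 6) (nat_lit 2) (nat_lit 7) (nat_lit 145) (nat_lit 15) r5_145 r11_15 (nat_lit 0) (nat_lit 0) (nat_lit 0) (nat_lit 0x839723e3e) (nat_lit 482866162),
  Rx.mk (nat_lit 290) (nat_lit 2) (nat_lit 4) (nat_lit 4) (nat_lit 1) (nat_lit 140) (nat_lit 9) r5_140 r11_9 (nat_lit 0) (nat_lit 474232) (nat_lit 674925) (nat_lit 0x722cb1ea4) (nat_lit 761731069),
  Rx.mk (nat_lit 314) (nat_lit 2) (nat_lit 7) (nat_lit 4) (nat_lit 3) (nat_lit 146) (nat_lit 11) r5_146 r11_11 (nat_lit 0) (nat_lit 0) (nat_lit 9828533) (nat_lit 0x7fdfbd658) (nat_lit 549901095),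
  Rx.mk (nat_lit 418) (nat_lit 2) (nat_lit 4) (nat_lit 6) (nat_lit 5) (nat_lit 141) (nat_lit 10) r5_141 r11_10 (nat_lit 0) (nat_lit 4328604) (nat_lit 0) (nat_lit 0x8397c64a4) (nat_lit 487049866),
  Rx.mk (nat_lit 432) (nat_lit 0) (nat_lit 6) (nat_lit 6) (nat_lit 6) (nat_lit 142) (nat_lit 16) r5_142 r11_16 (nat_lit 13610733) (nat_lit 0) (nat_lit 0) (nat_lit 0x7f8c34efa) (nat_lit 558980045),
  Rx.mk (nat_lit 434) (nat_lit 2) (nat_lit 6) (nat_lit 6) (nat_lit 7) (nat_lit 143) (nat_lit 18) r5_143 r11_18 (nat_lit 0) (nat_lit 0) (nat_lit 0) (nat_lit 0x804f350bc) (nat_lit 533454612),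
  Rx.mk (nat_lit 435) (nat_lit 3) (nat_lit 6) (nat_lit 6) (nat_lit 7) (nat_lit 144) (nat_lit 17) r5_144 r11_17 (nat_lit 0) (nat_lit 0) (nat_lit 0) (nat_lit 0x804f3bf3e) (nat_lit 533452962),
  Rx.mk (nat_lit 442) (nat_lit 2) (nat_lit 7) (nat_lit 6) (nat_lit 7) (nat_lit 147) (nat_lit 14) r5_147 r11_14 (nat_lit 0) (nat_lit 0) (nat_lit 0) (nat_lit 0x81c0f7b72) (nat_lit 511039762),
  Rx.mk (nat_lit 506) (nat_lit 2) (nat_lit 7) (nat_lit 7) (nat_lit 7) (nat_lit 149) (nat_lit 12) r5_149 r11_12 (nat_lit 0) (nat_lit 0) (nat_lit 0) (nat_lit 0x80700d5c8) (nat_lit 531445012),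
  Rx.mk (nat_lit 510) (nat_lit 6) (nat_lit 7) (nat_lit 7) (nat_lit 7) (nat_lit 148) (nat_lit 13) r5_148 r11_13 (nat_lit 0) (nat_lit 0) (nat_lit 0) (nat_lit 0x8219c55ce) (nat_lit 505691562)]
noncomputable def e56 : List (List Rx) := [e56_0, e56_1, e56_2, e56_3, e56_4, e56_5, e56_6, e56_7, e56_8, e56_9, e56_10, e56_11, e56_12, e56_13, e56_14, e56_15, e56_16, e56_17, e56_18, e56_19, e56_20, e56_21, e56_22, e56_23, e56_24, e56_25, e56_26, e56_27, e56_28, e56_29, e56_30, e56_31, e56_32, e56_33, e56_34, e56_35, e56_36, e56_37, e56_38, e56_39, e56_40, e56_41, e56_42, e56_43, e56_44, e56_45, e56_46, e56_47, e56_48, e56_49, e56_50, e56_51, e56_52, e56_53, e56_54, e56_55, e56_56, e56_57]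
noncomputable def e57_0 : List Rx := [
  Rx.mk (nat_lit 4) (nat_lit 4) (nat_lit 0) (nat_lit 0) (nat_lit 0) (nat_lit 165) (nat_lit 342) r11_165 r0_342 (nat_lit 16543091) (nat_lit 27528448) (nat_lit 61517721) (nat_lit 0x56389a70a) (nat_lit 1318729522),
  Rx.mk (nat_lit 5) (nat_lit 5) (nat_lit 0) (nat_lit 0) (nat_lit 1) (nat_lit 166) (nat_lit 349) r11_166 r0_349 (nat_lit 0) (nat_lit 151143769) (nat_lit 43084134) (nat_lit 0x7b5af1fae) (nat_lit 807011715),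
  Rx.mk (nat_lit 6) (nat_lit 6) (nat_lit 0) (nat_lit 0) (nat_lit 1) (nat_lit 167) (nat_lit 356) r11_167 r0_356 (nat_lit 0) (nat_lit 40023232) (nat_lit 40023232) (nat_lit 0x7e12b2628) (nat_lit 649033426),
  Rx.mk (nat_lit 12) (nat_lit 4) (nat_lit 1) (nat_lit 0) (nat_lit 2) (nat_lit 171) (nat_lit 344) r11_171 r0_344 (nat_lit 84020208) (nat_lit 0) (nat_lit 36871294) (nat_lit 0x783359b98) (nat_lit 784659514),
  Rx.mk (nat_lit 13) (nat_lit 5) (nat_lit 1) (nat_lit 0) (nat_lit 3) (nat_lit 172) (nat_lit 351) r11_172 r0_351 (nat_lit 0) (nat_lit 0) (nat_lit 24741287) (nat_lit 0x8017985b4) (nat_lit 561612199),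
  Rx.mk (nat_lit 14) (nat_lit 6) (nat_lit 1) (nat_lit 0) (nat_lit 3) (nat_lit 173) (nat_lit 358) r11_173 r0_358 (nat_lit 0) (nat_lit 0) (nat_lit 23550752) (nat_lit 0x804b6b5bc) (nat_lit 557203014),
  Rx.mk (nat_lit 20) (nat_lit 4) (nat_lit 2) (nat_lit 0) (nat_lit 2) (nat_lit 177) (nat_lit 346) r11_177 r0_346 (nat_lit 31505454) (nat_lit 0) (nat_lit 49484385) (nat_lit 0x786492660) (nat_lit 741673001),
  Rx.mk (nat_lit 21) (nat_lit 5) (nat_lit 2) (nat_lit 0) (nat_lit 3) (nat_lit 178) (nat_lit 353) r11_178 r0_353 (nat_lit 0) (nat_lit 0) (nat_lit 27043959) (nat_lit 0x7fc599f24) (nat_lit 568952071),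
  Rx.mk (nat_lit 68) (nat_lit 4) (nat_lit 0) (nat_lit 1) (nat_lit 4) (nat_lit 168) (nat_lit 343) r11_168 r0_343 (nat_lit 97208642) (nat_lit 39863545) (nat_lit 0) (nat_lit 0x7bb2e4220) (nat_lit 744358799),
  Rx.mk (nat_lit 69) (nat_lit 5) (nat_lit 0) (nat_lit 1) (nat_lit 5) (nat_lit 169) (nat_lit 350) r11_169 r0_350 (nat_lit 0) (nat_lit 24741287) (nat_lit 0) (nat_lit 0x8017985b4) (nat_lit 561612199),
  Rx.mk (nat_lit 70) (nat_lit 6) (nat_lit 0) (nat_lit 1) (nat_lit 5) (nat_lit 170) (nat_lit 357) r11_170 r0_357 (nat_lit 0) (nat_lit 24741287) (nat_lit 0) (nat_lit 0x8017985b4) (nat_lit 561612199),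
  Rx.mk (nat_lit 76) (nat_lit 4) (nat_lit 1) (nat_lit 1) (nat_lit 6) (nat_lit 174) (nat_lit 345) r11_174 r0_345 (nat_lit 66364716) (nat_lit 0) (nat_lit 0) (nat_lit 0x7dacacf72) (nat_lit 641664678),
  Rx.mk (nat_lit 77) (nat_lit 5) (nat_lit 1) (nat_lit 1) (nat_lit 7) (nat_lit 175) (nat_lit 352) r11_175 r0_352 (nat_lit 0) (nat_lit 0) (nat_lit 0) (nat_lit 0x8017985b4) (nat_lit 536870912),
  Rx.mk (nat_lit 78) (nat_lit 6) (nat_lit 1) (nat_lit 1) (nat_lit 7) (nat_lit 176) (nat_lit 359) r11_176 r0_359 (nat_lit 0) (nat_lit 0) (nat_lit 0) (nat_lit 0x821f15f74) (nat_lit 505368512),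
  Rx.mk (nat_lit 84) (nat_lit 4) (nat_lit 2) (nat_lit 1) (nat_lit 6) (nat_lit 179) (nat_lit 347) r11_179 r0_347 (nat_lit 24741287) (nat_lit 0) (nat_lit 0) (nat_lit 0x8017985b4) (nat_lit 561612199),
  Rx.mk (nat_lit 85) (nat_lit 5) (nat_lit 2) (nat_lit 1) (nat_lit 7) (nat_lit 180) (nat_lit 354) r11_180 r0_354 (nat_lit 0) (nat_lit 0) (nat_lit 0) (nat_lit 0x8017985b4) (nat_lit 536870912),
  Rx.mk (nat_lit 148) (nat_lit 4) (nat_lit 2) (nat_lit 2) (nat_lit 6) (nat_lit 181) (nat_lit 348) r11_181 r0_348 (nat_lit 24977480) (nat_lit 0) (nat_lit 0) (nat_lit 0x7ff4c15ea) (nat_lit 563982842),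
  Rx.mk (nat_lit 149) (nat_lit 5) (nat_lit 2) (nat_lit 2) (nat_lit 7) (nat_lit 182) (nat_lit 355) r11_182 r0_355 (nat_lit 0) (nat_lit 0) (nat_lit 0) (nat_lit 0x8017985b4) (nat_lit 536870912)]
noncomputable def e57_1 : List Rx := [
  Rx.mk (nat_lit 68) (nat_lit 4) (nat_lit 0) (nat_lit 1) (nat_lit 4) (nat_lit 183) (nat_lit 316) r11_183 r1_316 (nat_lit 115272517) (nat_lit 31169867) (nat_lit 0) (nat_lit 0x729ca1386) (nat_lit 900542746),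
  Rx.mk (nat_lit 69) (nat_lit 5) (nat_lit 0) (nat_lit 1) (nat_lit 5) (nat_lit 184) (nat_lit 319) r11_184 r1_319 (nat_lit 0) (nat_lit 24741287) (nat_lit 0) (nat_lit 0x8017985b4) (nat_lit 561612199),
  Rx.mk (nat_lit 70) (nat_lit 6) (nat_lit 0) (nat_lit 1) (nat_lit 5) (nat_lit 185) (nat_lit 322) r11_185 r1_322 (nat_lit 0) (nat_lit 24741287) (nat_lit 0) (nat_lit 0x8017985b4) (nat_lit 561612199),
  Rx.mk (nat_lit 76) (nat_lit 4) (nat_lit 1) (nat_lit 1) (nat_lit 6) (nat_lit 186) (nat_lit 317) r11_186 r1_317 (nat_lit 39197522) (nat_lit 0) (nat_lit 0) (nat_lit 0x7db914fa8) (nat_lit 613796734),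
  Rx.mk (nat_lit 77) (nat_lit 5) (nat_lit 1) (nat_lit 1) (nat_lit 7) (nat_lit 187) (nat_lit 320) r11_187 r1_320 (nat_lit 0) (nat_lit 0) (nat_lit 0) (nat_lit 0x8017985b4) (nat_lit 536870912),
  Rx.mk (nat_lit 78) (nat_lit 6) (nat_lit 1) (nat_lit 1) (nat_lit 7) (nat_lit 188) (nat_lit 323) r11_188 r1_323 (nat_lit 0) (nat_lit 0) (nat_lit 0) (nat_lit 0x81759db22) (nat_lit 515567712),
  Rx.mk (nat_lit 84) (nat_lit 4) (nat_lit 2) (nat_lit 1) (nat_lit 6) (nat_lit 189) (nat_lit 318) r11_189 r1_318 (nat_lit 24741287) (nat_lit 0) (nat_lit 0) (nat_lit 0x8017985b4) (nat_lit 561612199),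
  Rx.mk (nat_lit 85) (nat_lit 5) (nat_lit 2) (nat_lit 1) (nat_lit 7) (nat_lit 190) (nat_lit 321) r11_190 r1_321 (nat_lit 0) (nat_lit 0) (nat_lit 0) (nat_lit 0x8017985b4) (nat_lit 536870912)]
noncomputable def e57_2 : List Rx := [
  Rx.mk (nat_lit 76) (nat_lit 4) (nat_lit 1) (nat_lit 1) (nat_lit 6) (nat_lit 340) (nat_lit 370) r11_340 r2_370 (nat_lit 27655321) (nat_lit 0) (nat_lit 0) (nat_lit 0x7fd1d42f8) (nat_lit 568815833),
  Rx.mk (nat_lit 77) (nat_lit 5) (nat_lit 1) (nat_lit 1) (nat_lit 7) (nat_lit 341) (nat_lit 371) r11_341 r2_371 (nat_lit 0) (nat_lit 0) (nat_lit 0) (nat_lit 0x8017985b4) (nat_lit 536870912),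
  Rx.mk (nat_lit 78) (nat_lit 6) (nat_lit 1) (nat_lit 1) (nat_lit 7) (nat_lit 342) (nat_lit 372) r11_342 r2_372 (nat_lit 0) (nat_lit 0) (nat_lit 0) (nat_lit 0x8017985b4) (nat_lit 536870912),
  Rx.mk (nat_lit 334) (nat_lit 6) (nat_lit 1) (nat_lit 5) (nat_lit 7) (nat_lit 339) (nat_lit 373) r11_339 r2_373 (nat_lit 0) (nat_lit 0) (nat_lit 0) (nat_lit 0x8017985b4) (nat_lit 536870912)]
noncomputable def e57_3 : List Rx := [
  Rx.mk (nat_lit 4) (nat_lit 4) (nat_lit 0) (nat_lit 0) (nat_lit 0) (nat_lit 19) (nat_lit 342) r11_19 r3_342 (nat_lit 96674) (nat_lit 122716) (nat_lit 132111) (nat_lit 0x497316d28) (nat_lit 1419374513),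
  Rx.mk (nat_lit 5) (nat_lit 5) (nat_lit 0) (nat_lit 0) (nat_lit 1) (nat_lit 20) (nat_lit 349) r11_20 r3_349 (nat_lit 0) (nat_lit 29295655) (nat_lit 18566817) (nat_lit 0x6eb4eea14) (nat_lit 865039884),
  Rx.mk (nat_lit 6) (nat_lit 6) (nat_lit 0) (nat_lit 0) (nat_lit 1) (nat_lit 21) (nat_lit 356) r11_21 r3_356 (nat_lit 0) (nat_lit 24848889) (nat_lit 41499232) (nat_lit 0x75df8e2a4) (nat_lit 767700883),
  Rx.mk (nat_lit 12) (nat_lit 4) (nat_lit 1) (nat_lit 0) (nat_lit 2) (nat_lit 25) (nat_lit 344) r11_25 r3_344 (nat_lit 3284544) (nat_lit 0) (nat_lit 1291523) (nat_lit 0x652f21fd4) (nat_lit 975280179),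
  Rx.mk (nat_lit 13) (nat_lit 5) (nat_lit 1) (nat_lit 0) (nat_lit 3) (nat_lit 26) (nat_lit 351) r11_26 r3_351 (nat_lit 0) (nat_lit 0) (nat_lit 24741287) (nat_lit 0x8017985b4) (nat_lit 561612199),
  Rx.mk (nat_lit 14) (nat_lit 6) (nat_lit 1) (nat_lit 0) (nat_lit 3) (nat_lit 27) (nat_lit 358) r11_27 r3_358 (nat_lit 0) (nat_lit 0) (nat_lit 22959846) (nat_lit 0x7f72d2be2) (nat_lit 569951908),
  Rx.mk (nat_lit 20) (nat_lit 4) (nat_lit 2) (nat_lit 0) (nat_lit 2) (nat_lit 31) (nat_lit 346) r11_31 r3_346 (nat_lit 849840) (nat_lit 0) (nat_lit 138609354) (nat_lit 0x69d7f337a) (nat_lit 1034816656),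
  Rx.mk (nat_lit 21) (nat_lit 5) (nat_lit 2) (nat_lit 0) (nat_lit 3) (nat_lit 32) (nat_lit 353) r11_32 r3_353 (nat_lit 0) (nat_lit 0) (nat_lit 29915179) (nat_lit 0x7fe911db2) (nat_lit 569577941),
  Rx.mk (nat_lit 148) (nat_lit 4) (nat_lit 2) (nat_lit 2) (nat_lit 6) (nat_lit 33) (nat_lit 348) r11_33 r3_348 (nat_lit 22698438) (nat_lit 0) (nat_lit 0) (nat_lit 0x801e644f6) (nat_lit 559143350),
  Rx.mk (nat_lit 149) (nat_lit 5) (nat_lit 2) (nat_lit 2) (nat_lit 7) (nat_lit 34) (nat_lit 355) r11_34 r3_355 (nat_lit 0) (nat_lit 0) (nat_lit 0) (nat_lit 0x8017985b4) (nat_lit 536870912),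
  Rx.mk (nat_lit 196) (nat_lit 4) (nat_lit 0) (nat_lit 3) (nat_lit 4) (nat_lit 22) (nat_lit 343) r11_22 r3_343 (nat_lit 4459709) (nat_lit 5090553) (nat_lit 0) (nat_lit 0x6f5ae93ec) (nat_lit 816096324),
  Rx.mk (nat_lit 197) (nat_lit 5) (nat_lit 0) (nat_lit 3) (nat_lit 5) (nat_lit 23) (nat_lit 350) r11_23 r3_350 (nat_lit 0) (nat_lit 14431981) (nat_lit 0) (nat_lit 0x80cd30a02) (nat_lit 540176893),
  Rx.mk (nat_lit 198) (nat_lit 6) (nat_lit 0) (nat_lit 3) (nat_lit 5) (nat_lit 24) (nat_lit 357) r11_24 r3_357 (nat_lit 0) (nat_lit 10849071) (nat_lit 0) (nat_lit 0x7fc617ece) (nat_lit 552588333),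
  Rx.mk (nat_lit 204) (nat_lit 4) (nat_lit 1) (nat_lit 3) (nat_lit 6) (nat_lit 28) (nat_lit 345) r11_28 r3_345 (nat_lit 13146689) (nat_lit 0) (nat_lit 0) (nat_lit 0x808dd2f86) (nat_lit 542691851),
  Rx.mk (nat_lit 205) (nat_lit 5) (nat_lit 1) (nat_lit 3) (nat_lit 7) (nat_lit 29) (nat_lit 352) r11_29 r3_352 (nat_lit 0) (nat_lit 0) (nat_lit 0) (nat_lit 0x8017985b4) (nat_lit 536870912),
  Rx.mk (nat_lit 206) (nat_lit 6) (nat_lit 1) (nat_lit 3) (nat_lit 7) (nat_lit 30) (nat_lit 359) r11_30 r3_359 (nat_lit 0) (nat_lit 0) (nat_lit 0) (nat_lit 0x8017985b4) (nat_lit 536870912),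
  Rx.mk (nat_lit 212) (nat_lit 4) (nat_lit 2) (nat_lit 3) (nat_lit 6) (nat_lit 35) (nat_lit 347) r11_35 r3_347 (nat_lit 13744676) (nat_lit 0) (nat_lit 0) (nat_lit 0x808aa0700) (nat_lit 543529688),
  Rx.mk (nat_lit 213) (nat_lit 5) (nat_lit 2) (nat_lit 3) (nat_lit 7) (nat_lit 36) (nat_lit 354) r11_36 r3_354 (nat_lit 0) (nat_lit 0) (nat_lit 0) (nat_lit 0x8017985b4) (nat_lit 536870912)]
noncomputable def e57_4 : List Rx := [
  Rx.mk (nat_lit 4) (nat_lit 4) (nat_lit 0) (nat_lit 0) (nat_lit 0) (nat_lit 191) (nat_lit 381) r11_191 r4_381 (nat_lit 17913539) (nat_lit 17952672) (nat_lit 15710614) (nat_lit 0x5f1b5dba2) (nat_lit 1121002137),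
  Rx.mk (nat_lit 5) (nat_lit 5) (nat_lit 0) (nat_lit 0) (nat_lit 1) (nat_lit 192) (nat_lit 390) r11_192 r4_390 (nat_lit 0) (nat_lit 96193341) (nat_lit 20049231) (nat_lit 0x7b255b444) (nat_lit 732377384),
  Rx.mk (nat_lit 6) (nat_lit 6) (nat_lit 0) (nat_lit 0) (nat_lit 1) (nat_lit 193) (nat_lit 396) r11_193 r4_396 (nat_lit 0) (nat_lit 30793545) (nat_lit 30793545) (nat_lit 0x7da382596) (nat_lit 637575952),
  Rx.mk (nat_lit 12) (nat_lit 4) (nat_lit 1) (nat_lit 0) (nat_lit 2) (nat_lit 199) (nat_lit 384) r11_199 r4_384 (nat_lit 35726227) (nat_lit 0) (nat_lit 27870751) (nat_lit 0x779980b0c) (nat_lit 737097740),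
  Rx.mk (nat_lit 13) (nat_lit 5) (nat_lit 1) (nat_lit 0) (nat_lit 3) (nat_lit 200) (nat_lit 392) r11_200 r4_392 (nat_lit 0) (nat_lit 0) (nat_lit 24741287) (nat_lit 0x8017985b4) (nat_lit 561612199),
  Rx.mk (nat_lit 14) (nat_lit 6) (nat_lit 1) (nat_lit 0) (nat_lit 3) (nat_lit 201) (nat_lit 399) r11_201 r4_399 (nat_lit 0) (nat_lit 0) (nat_lit 24741287) (nat_lit 0x8017985b4) (nat_lit 561612199),
  Rx.mk (nat_lit 20) (nat_lit 4) (nat_lit 2) (nat_lit 0) (nat_lit 2) (nat_lit 207) (nat_lit 387) r11_207 r4_387 (nat_lit 27912229) (nat_lit 0) (nat_lit 29502798) (nat_lit 0x78d0f8fca) (nat_lit 711254839),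
  Rx.mk (nat_lit 21) (nat_lit 5) (nat_lit 2) (nat_lit 0) (nat_lit 3) (nat_lit 208) (nat_lit 394) r11_208 r4_394 (nat_lit 0) (nat_lit 0) (nat_lit 23934074) (nat_lit 0x7fe6d46d0) (nat_lit 563795286),
  Rx.mk (nat_lit 68) (nat_lit 4) (nat_lit 0) (nat_lit 1) (nat_lit 4) (nat_lit 194) (nat_lit 382) r11_194 r4_382 (nat_lit 34329630) (nat_lit 27647826) (nat_lit 0) (nat_lit 0x7e54987ea) (nat_lit 626865718),
  Rx.mk (nat_lit 70) (nat_lit 6) (nat_lit 0) (nat_lit 1) (nat_lit 5) (nat_lit 195) (nat_lit 397) r11_195 r4_397 (nat_lit 0) (nat_lit 24741287) (nat_lit 0) (nat_lit 0x8017985b4) (nat_lit 561612199),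
  Rx.mk (nat_lit 76) (nat_lit 4) (nat_lit 1) (nat_lit 1) (nat_lit 6) (nat_lit 202) (nat_lit 385) r11_202 r4_385 (nat_lit 26112240) (nat_lit 0) (nat_lit 0) (nat_lit 0x7f458b346) (nat_lit 575951702),
  Rx.mk (nat_lit 78) (nat_lit 6) (nat_lit 1) (nat_lit 1) (nat_lit 7) (nat_lit 203) (nat_lit 400) r11_203 r4_400 (nat_lit 0) (nat_lit 0) (nat_lit 0) (nat_lit 0x8017985b4) (nat_lit 536870912),
  Rx.mk (nat_lit 84) (nat_lit 4) (nat_lit 2) (nat_lit 1) (nat_lit 6) (nat_lit 209) (nat_lit 388) r11_209 r4_388 (nat_lit 24741287) (nat_lit 0) (nat_lit 0) (nat_lit 0x8017985b4) (nat_lit 561612199),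
  Rx.mk (nat_lit 148) (nat_lit 4) (nat_lit 2) (nat_lit 2) (nat_lit 6) (nat_lit 210) (nat_lit 389) r11_210 r4_389 (nat_lit 24741287) (nat_lit 0) (nat_lit 0) (nat_lit 0x8017985b4) (nat_lit 561612199),
  Rx.mk (nat_lit 149) (nat_lit 5) (nat_lit 2) (nat_lit 2) (nat_lit 7) (nat_lit 211) (nat_lit 395) r11_211 r4_395 (nat_lit 0) (nat_lit 0) (nat_lit 0) (nat_lit 0x8017985b4) (nat_lit 536870912),
  Rx.mk (nat_lit 196) (nat_lit 4) (nat_lit 0) (nat_lit 3) (nat_lit 4) (nat_lit 196) (nat_lit 383) r11_196 r4_383 (nat_lit 30009416) (nat_lit 28646946) (nat_lit 0) (nat_lit 0x7b26b540c) (nat_lit 674773074),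
  Rx.mk (nat_lit 197) (nat_lit 5) (nat_lit 0) (nat_lit 3) (nat_lit 5) (nat_lit 197) (nat_lit 391) r11_197 r4_391 (nat_lit 0) (nat_lit 30058585) (nat_lit 0) (nat_lit 0x7fbf63a4c) (nat_lit 572343247),
  Rx.mk (nat_lit 198) (nat_lit 6) (nat_lit 0) (nat_lit 3) (nat_lit 5) (nat_lit 198) (nat_lit 398) r11_198 r4_398 (nat_lit 0) (nat_lit 24741287) (nat_lit 0) (nat_lit 0x8017985b4) (nat_lit 561612199),
  Rx.mk (nat_lit 204) (nat_lit 4) (nat_lit 1) (nat_lit 3) (nat_lit 6) (nat_lit 204) (nat_lit 386) r11_204 r4_386 (nat_lit 24741287) (nat_lit 0) (nat_lit 0) (nat_lit 0x8017985b4) (nat_lit 561612199),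
  Rx.mk (nat_lit 205) (nat_lit 5) (nat_lit 1) (nat_lit 3) (nat_lit 7) (nat_lit 205) (nat_lit 393) r11_205 r4_393 (nat_lit 0) (nat_lit 0) (nat_lit 0) (nat_lit 0x8017985b4) (nat_lit 536870912),
  Rx.mk (nat_lit 206) (nat_lit 6) (nat_lit 1) (nat_lit 3) (nat_lit 7) (nat_lit 206) (nat_lit 401) r11_206 r4_401 (nat_lit 0) (nat_lit 0) (nat_lit 0) (nat_lit 0x8017985b4) (nat_lit 536870912)]
noncomputable def e57_5 : List Rx := [
  Rx.mk (nat_lit 196) (nat_lit 4) (nat_lit 0) (nat_lit 3) (nat_lit 4) (nat_lit 273) (nat_lit 316) r11_273 r5_316 (nat_lit 21014715) (nat_lit 20649739) (nat_lit 0) (nat_lit 0x729e8ccc2) (nat_lit 795632066),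
  Rx.mk (nat_lit 197) (nat_lit 5) (nat_lit 0) (nat_lit 3) (nat_lit 5) (nat_lit 274) (nat_lit 319) r11_274 r5_319 (nat_lit 0) (nat_lit 24741287) (nat_lit 0) (nat_lit 0x8017985b4) (nat_lit 561612199),
  Rx.mk (nat_lit 198) (nat_lit 6) (nat_lit 0) (nat_lit 3) (nat_lit 5) (nat_lit 275) (nat_lit 322) r11_275 r5_322 (nat_lit 0) (nat_lit 24086680) (nat_lit 0) (nat_lit 0x7f9584f64) (nat_lit 568953542),
  Rx.mk (nat_lit 204) (nat_lit 4) (nat_lit 1) (nat_lit 3) (nat_lit 6) (nat_lit 276) (nat_lit 317) r11_276 r5_317 (nat_lit 20064994) (nat_lit 0) (nat_lit 0) (nat_lit 0x807284b4e) (nat_lit 551341856),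
  Rx.mk (nat_lit 205) (nat_lit 5) (nat_lit 1) (nat_lit 3) (nat_lit 7) (nat_lit 277) (nat_lit 320) r11_277 r5_320 (nat_lit 0) (nat_lit 0) (nat_lit 0) (nat_lit 0x8017985b4) (nat_lit 536870912),
  Rx.mk (nat_lit 206) (nat_lit 6) (nat_lit 1) (nat_lit 3) (nat_lit 7) (nat_lit 278) (nat_lit 323) r11_278 r5_323 (nat_lit 0) (nat_lit 0) (nat_lit 0) (nat_lit 0x8017985b4) (nat_lit 536870912),
  Rx.mk (nat_lit 212) (nat_lit 4) (nat_lit 2) (nat_lit 3) (nat_lit 6) (nat_lit 279) (nat_lit 318) r11_279 r5_318 (nat_lit 21930199) (nat_lit 0) (nat_lit 0) (nat_lit 0x8037c1084) (nat_lit 556823461),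
  Rx.mk (nat_lit 213) (nat_lit 5) (nat_lit 2) (nat_lit 3) (nat_lit 7) (nat_lit 280) (nat_lit 321) r11_280 r5_321 (nat_lit 0) (nat_lit 0) (nat_lit 0) (nat_lit 0x8017985b4) (nat_lit 536870912)]
noncomputable def e57_6 : List Rx := [
  Rx.mk (nat_lit 270) (nat_lit 6) (nat_lit 1) (nat_lit 4) (nat_lit 3) (nat_lit 351) (nat_lit 331) r11_351 r3_331 (nat_lit 0) (nat_lit 0) (nat_lit 9974206) (nat_lit 0x7a7d1cf58) (nat_lit 636241818),
  Rx.mk (nat_lit 462) (nat_lit 6) (nat_lit 1) (nat_lit 7) (nat_lit 7) (nat_lit 352) (nat_lit 332) r11_352 r3_332 (nat_lit 0) (nat_lit 0) (nat_lit 0) (nat_lit 0x885a32e30) (nat_lit 409617212)]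
noncomputable def e57_7 : List Rx := [
  Rx.mk (nat_lit 270) (nat_lit 6) (nat_lit 1) (nat_lit 4) (nat_lit 3) (nat_lit 298) (nat_lit 328) r11_298 r0_328 (nat_lit 0) (nat_lit 0) (nat_lit 19793988) (nat_lit 0x801bf7722) (nat_lit 556379500),
  Rx.mk (nat_lit 334) (nat_lit 6) (nat_lit 1) (nat_lit 5) (nat_lit 7) (nat_lit 299) (nat_lit 329) r11_299 r0_329 (nat_lit 0) (nat_lit 0) (nat_lit 0) (nat_lit 0x8017985b4) (nat_lit 536870912)]
noncomputable def e57_8 : List Rx := [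
  Rx.mk (nat_lit 334) (nat_lit 6) (nat_lit 1) (nat_lit 5) (nat_lit 7) (nat_lit 338) (nat_lit 310) r11_338 r1_310 (nat_lit 0) (nat_lit 0) (nat_lit 0) (nat_lit 0x8017985b4) (nat_lit 536870912)]
noncomputable def e57_9 : List Rx := [
  Rx.mk (nat_lit 270) (nat_lit 6) (nat_lit 1) (nat_lit 4) (nat_lit 3) (nat_lit 353) (nat_lit 363) r11_353 r4_363 (nat_lit 0) (nat_lit 0) (nat_lit 18792813) (nat_lit 0x7fd5d2af8) (nat_lit 559647725),
  Rx.mk (nat_lit 334) (nat_lit 6) (nat_lit 1) (nat_lit 5) (nat_lit 7) (nat_lit 354) (nat_lit 364) r11_354 r4_364 (nat_lit 0) (nat_lit 0) (nat_lit 0) (nat_lit 0x8047a5cb6) (nat_lit 533919512),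
  Rx.mk (nat_lit 462) (nat_lit 6) (nat_lit 1) (nat_lit 7) (nat_lit 7) (nat_lit 355) (nat_lit 365) r11_355 r4_365 (nat_lit 0) (nat_lit 0) (nat_lit 0) (nat_lit 0x8026a1380) (nat_lit 535916512)]
noncomputable def e57_10 : List Rx := [
  Rx.mk (nat_lit 196) (nat_lit 4) (nat_lit 0) (nat_lit 3) (nat_lit 4) (nat_lit 267) (nat_lit 367) r11_267 r6_367 (nat_lit 5930575) (nat_lit 5190488) (nat_lit 0) (nat_lit 0x76ef41074) (nat_lit 695185625),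
  Rx.mk (nat_lit 198) (nat_lit 6) (nat_lit 0) (nat_lit 3) (nat_lit 5) (nat_lit 268) (nat_lit 370) r11_268 r6_370 (nat_lit 0) (nat_lit 18945663) (nat_lit 0) (nat_lit 0x804f12fb2) (nat_lit 552405325),
  Rx.mk (nat_lit 204) (nat_lit 4) (nat_lit 1) (nat_lit 3) (nat_lit 6) (nat_lit 270) (nat_lit 368) r11_270 r6_368 (nat_lit 17138393) (nat_lit 0) (nat_lit 0) (nat_lit 0x806f00630) (nat_lit 548606105),
  Rx.mk (nat_lit 206) (nat_lit 6) (nat_lit 1) (nat_lit 3) (nat_lit 7) (nat_lit 271) (nat_lit 372) r11_271 r6_372 (nat_lit 0) (nat_lit 0) (nat_lit 0) (nat_lit 0x8017985b4) (nat_lit 536870912),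
  Rx.mk (nat_lit 212) (nat_lit 4) (nat_lit 2) (nat_lit 3) (nat_lit 6) (nat_lit 272) (nat_lit 369) r11_272 r6_369 (nat_lit 24741287) (nat_lit 0) (nat_lit 0) (nat_lit 0x8017985b4) (nat_lit 561612199),
  Rx.mk (nat_lit 454) (nat_lit 6) (nat_lit 0) (nat_lit 7) (nat_lit 5) (nat_lit 266) (nat_lit 371) r11_266 r6_371 (nat_lit 0) (nat_lit 4488265) (nat_lit 0) (nat_lit 0x805dc6720) (nat_lit 536687177),
  Rx.mk (nat_lit 462) (nat_lit 6) (nat_lit 1) (nat_lit 7) (nat_lit 7) (nat_lit 269) (nat_lit 373) r11_269 r6_373 (nat_lit 0) (nat_lit 0) (nat_lit 0) (nat_lit 0x84800501c) (nat_lit 468941562)]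
noncomputable def e57_11 : List Rx := [
  Rx.mk (nat_lit 462) (nat_lit 6) (nat_lit 1) (nat_lit 7) (nat_lit 7) (nat_lit 356) (nat_lit 310) r11_356 r5_310 (nat_lit 0) (nat_lit 0) (nat_lit 0) (nat_lit 0x81691ae72) (nat_lit 516102862)]
noncomputable def e57_12 : List Rx := [
  Rx.mk (nat_lit 5) (nat_lit 5) (nat_lit 0) (nat_lit 0) (nat_lit 1) (nat_lit 37) (nat_lit 200) r11_37 r0_200 (nat_lit 0) (nat_lit 75082556) (nat_lit 46723193) (nat_lit 0x67eb4628a) (nat_lit 1048737861),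
  Rx.mk (nat_lit 13) (nat_lit 5) (nat_lit 1) (nat_lit 0) (nat_lit 3) (nat_lit 38) (nat_lit 201) r11_38 r0_201 (nat_lit 0) (nat_lit 0) (nat_lit 24741287) (nat_lit 0x80790da56) (nat_lit 555628299),
  Rx.mk (nat_lit 21) (nat_lit 5) (nat_lit 2) (nat_lit 0) (nat_lit 3) (nat_lit 39) (nat_lit 202) r11_39 r0_202 (nat_lit 0) (nat_lit 0) (nat_lit 41103109) (nat_lit 0x7fd7cf8c4) (nat_lit 581741021),
  Rx.mk (nat_lit 149) (nat_lit 5) (nat_lit 2) (nat_lit 2) (nat_lit 7) (nat_lit 40) (nat_lit 203) r11_40 r0_203 (nat_lit 0) (nat_lit 0) (nat_lit 0) (nat_lit 0x820bd8c36) (nat_lit 506517062)]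
noncomputable def e57_13 : List Rx := [
  Rx.mk (nat_lit 5) (nat_lit 5) (nat_lit 0) (nat_lit 0) (nat_lit 1) (nat_lit 212) (nat_lit 449) r11_212 r7_449 (nat_lit 0) (nat_lit 107532607) (nat_lit 34414543) (nat_lit 0x7c21f872e) (nat_lit 742207762),
  Rx.mk (nat_lit 13) (nat_lit 5) (nat_lit 1) (nat_lit 0) (nat_lit 3) (nat_lit 214) (nat_lit 451) r11_214 r7_451 (nat_lit 0) (nat_lit 0) (nat_lit 24741287) (nat_lit 0x8017985b4) (nat_lit 561612199),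
  Rx.mk (nat_lit 21) (nat_lit 5) (nat_lit 2) (nat_lit 0) (nat_lit 3) (nat_lit 216) (nat_lit 453) r11_216 r7_453 (nat_lit 0) (nat_lit 0) (nat_lit 24741287) (nat_lit 0x8017985b4) (nat_lit 561612199),
  Rx.mk (nat_lit 69) (nat_lit 5) (nat_lit 0) (nat_lit 1) (nat_lit 5) (nat_lit 213) (nat_lit 450) r11_213 r7_450 (nat_lit 0) (nat_lit 24741287) (nat_lit 0) (nat_lit 0x8017985b4) (nat_lit 561612199),
  Rx.mk (nat_lit 77) (nat_lit 5) (nat_lit 1) (nat_lit 1) (nat_lit 7) (nat_lit 215) (nat_lit 452) r11_215 r7_452 (nat_lit 0) (nat_lit 0) (nat_lit 0) (nat_lit 0x8017985b4) (nat_lit 536870912),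
  Rx.mk (nat_lit 85) (nat_lit 5) (nat_lit 2) (nat_lit 1) (nat_lit 7) (nat_lit 217) (nat_lit 454) r11_217 r7_454 (nat_lit 0) (nat_lit 0) (nat_lit 0) (nat_lit 0x8017985b4) (nat_lit 536870912),
  Rx.mk (nat_lit 149) (nat_lit 5) (nat_lit 2) (nat_lit 2) (nat_lit 7) (nat_lit 218) (nat_lit 455) r11_218 r7_455 (nat_lit 0) (nat_lit 0) (nat_lit 0) (nat_lit 0x8017985b4) (nat_lit 536870912)]
noncomputable def e57_14 : List Rx := [
  Rx.mk (nat_lit 5) (nat_lit 5) (nat_lit 0) (nat_lit 0) (nat_lit 1) (nat_lit 41) (nat_lit 220) r11_41 r1_220 (nat_lit 0) (nat_lit 107908680) (nat_lit 132640855) (nat_lit 0x75cd0e8fe) (nat_lit 943069347),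
  Rx.mk (nat_lit 13) (nat_lit 5) (nat_lit 1) (nat_lit 0) (nat_lit 3) (nat_lit 42) (nat_lit 221) r11_42 r1_221 (nat_lit 0) (nat_lit 0) (nat_lit 24741287) (nat_lit 0x80394da56) (nat_lit 559537749),
  Rx.mk (nat_lit 21) (nat_lit 5) (nat_lit 2) (nat_lit 0) (nat_lit 3) (nat_lit 43) (nat_lit 222) r11_43 r1_222 (nat_lit 0) (nat_lit 0) (nat_lit 27280081) (nat_lit 0x7ff4c6252) (nat_lit 566171843),
  Rx.mk (nat_lit 145) (nat_lit 1) (nat_lit 2) (nat_lit 2) (nat_lit 7) (nat_lit 45) (nat_lit 224) r11_45 r1_224 (nat_lit 0) (nat_lit 0) (nat_lit 0) (nat_lit 0x808a832cc) (nat_lit 529822112),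
  Rx.mk (nat_lit 149) (nat_lit 5) (nat_lit 2) (nat_lit 2) (nat_lit 7) (nat_lit 44) (nat_lit 223) r11_44 r1_223 (nat_lit 0) (nat_lit 0) (nat_lit 0) (nat_lit 0x814af5f1e) (nat_lit 518142212)]
noncomputable def e57_15 : List Rx := [
  Rx.mk (nat_lit 5) (nat_lit 5) (nat_lit 0) (nat_lit 0) (nat_lit 1) (nat_lit 222) (nat_lit 368) r11_222 r8_368 (nat_lit 0) (nat_lit 93109333) (nat_lit 49696383) (nat_lit 0x7a0dfb9e4) (nat_lit 776624328),
  Rx.mk (nat_lit 13) (nat_lit 5) (nat_lit 1) (nat_lit 0) (nat_lit 3) (nat_lit 224) (nat_lit 370) r11_224 r8_370 (nat_lit 0) (nat_lit 0) (nat_lit 24741287) (nat_lit 0x8017985b4) (nat_lit 561612199),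
  Rx.mk (nat_lit 21) (nat_lit 5) (nat_lit 2) (nat_lit 0) (nat_lit 3) (nat_lit 226) (nat_lit 372) r11_226 r8_372 (nat_lit 0) (nat_lit 0) (nat_lit 24741287) (nat_lit 0x8017985b4) (nat_lit 561612199),
  Rx.mk (nat_lit 69) (nat_lit 5) (nat_lit 0) (nat_lit 1) (nat_lit 5) (nat_lit 223) (nat_lit 369) r11_223 r8_369 (nat_lit 0) (nat_lit 24741287) (nat_lit 0) (nat_lit 0x8017985b4) (nat_lit 561612199),
  Rx.mk (nat_lit 77) (nat_lit 5) (nat_lit 1) (nat_lit 1) (nat_lit 7) (nat_lit 225) (nat_lit 371) r11_225 r8_371 (nat_lit 0) (nat_lit 0) (nat_lit 0) (nat_lit 0x8017985b4) (nat_lit 536870912),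
  Rx.mk (nat_lit 85) (nat_lit 5) (nat_lit 2) (nat_lit 1) (nat_lit 7) (nat_lit 227) (nat_lit 373) r11_227 r8_373 (nat_lit 0) (nat_lit 0) (nat_lit 0) (nat_lit 0x8017985b4) (nat_lit 536870912),
  Rx.mk (nat_lit 145) (nat_lit 1) (nat_lit 2) (nat_lit 2) (nat_lit 7) (nat_lit 229) (nat_lit 367) r11_229 r8_367 (nat_lit 0) (nat_lit 0) (nat_lit 0) (nat_lit 0x8017985b4) (nat_lit 536870912),
  Rx.mk (nat_lit 149) (nat_lit 5) (nat_lit 2) (nat_lit 2) (nat_lit 7) (nat_lit 228) (nat_lit 374) r11_228 r8_374 (nat_lit 0) (nat_lit 0) (nat_lit 0) (nat_lit 0x8017985b4) (nat_lit 536870912)]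
noncomputable def e57_16 : List Rx := [
  Rx.mk (nat_lit 69) (nat_lit 5) (nat_lit 0) (nat_lit 1) (nat_lit 5) (nat_lit 219) (nat_lit 198) r11_219 r8_198 (nat_lit 0) (nat_lit 24741287) (nat_lit 0) (nat_lit 0x8017985b4) (nat_lit 561612199),
  Rx.mk (nat_lit 77) (nat_lit 5) (nat_lit 1) (nat_lit 1) (nat_lit 7) (nat_lit 220) (nat_lit 199) r11_220 r8_199 (nat_lit 0) (nat_lit 0) (nat_lit 0) (nat_lit 0x8017985b4) (nat_lit 536870912),
  Rx.mk (nat_lit 85) (nat_lit 5) (nat_lit 2) (nat_lit 1) (nat_lit 7) (nat_lit 221) (nat_lit 200) r11_221 r8_200 (nat_lit 0) (nat_lit 0) (nat_lit 0) (nat_lit 0x8017985b4) (nat_lit 536870912)]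
noncomputable def e57_17 : List Rx := [
  Rx.mk (nat_lit 77) (nat_lit 5) (nat_lit 1) (nat_lit 1) (nat_lit 7) (nat_lit 350) (nat_lit 327) r11_350 r9_327 (nat_lit 0) (nat_lit 0) (nat_lit 0) (nat_lit 0x8017985b4) (nat_lit 536870912)]
noncomputable def e57_18 : List Rx := [
  Rx.mk (nat_lit 5) (nat_lit 5) (nat_lit 0) (nat_lit 0) (nat_lit 1) (nat_lit 46) (nat_lit 188) r11_46 r4_188 (nat_lit 0) (nat_lit 33533154) (nat_lit 16806885) (nat_lit 0x78c402cc6) (nat_lit 704937351),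
  Rx.mk (nat_lit 13) (nat_lit 5) (nat_lit 1) (nat_lit 0) (nat_lit 3) (nat_lit 48) (nat_lit 189) r11_48 r4_189 (nat_lit 0) (nat_lit 0) (nat_lit 24741287) (nat_lit 0x8017985b4) (nat_lit 561612199),
  Rx.mk (nat_lit 21) (nat_lit 5) (nat_lit 2) (nat_lit 0) (nat_lit 3) (nat_lit 50) (nat_lit 190) r11_50 r4_190 (nat_lit 0) (nat_lit 0) (nat_lit 26071655) (nat_lit 0x7fa9352f2) (nat_lit 569730517),
  Rx.mk (nat_lit 149) (nat_lit 5) (nat_lit 2) (nat_lit 2) (nat_lit 7) (nat_lit 51) (nat_lit 194) r11_51 r4_194 (nat_lit 0) (nat_lit 0) (nat_lit 0) (nat_lit 0x8017985b4) (nat_lit 536870912),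
  Rx.mk (nat_lit 197) (nat_lit 5) (nat_lit 0) (nat_lit 3) (nat_lit 5) (nat_lit 47) (nat_lit 191) r11_47 r4_191 (nat_lit 0) (nat_lit 16749673) (nat_lit 0) (nat_lit 0x8060fd66e) (nat_lit 549095785),
  Rx.mk (nat_lit 205) (nat_lit 5) (nat_lit 1) (nat_lit 3) (nat_lit 7) (nat_lit 49) (nat_lit 192) r11_49 r4_192 (nat_lit 0) (nat_lit 0) (nat_lit 0) (nat_lit 0x804ce505a) (nat_lit 533594662),
  Rx.mk (nat_lit 213) (nat_lit 5) (nat_lit 2) (nat_lit 3) (nat_lit 7) (nat_lit 52) (nat_lit 193) r11_52 r4_193 (nat_lit 0) (nat_lit 0) (nat_lit 0) (nat_lit 0x804ce4d1c) (nat_lit 533594712)]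
noncomputable def e57_19 : List Rx := [
  Rx.mk (nat_lit 5) (nat_lit 5) (nat_lit 0) (nat_lit 0) (nat_lit 1) (nat_lit 230) (nat_lit 374) r11_230 r10_374 (nat_lit 0) (nat_lit 53187078) (nat_lit 29967916) (nat_lit 0x781c132b8) (nat_lit 748379156),
  Rx.mk (nat_lit 13) (nat_lit 5) (nat_lit 1) (nat_lit 0) (nat_lit 3) (nat_lit 232) (nat_lit 376) r11_232 r10_376 (nat_lit 0) (nat_lit 0) (nat_lit 24741287) (nat_lit 0x8017985b4) (nat_lit 561612199),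
  Rx.mk (nat_lit 21) (nat_lit 5) (nat_lit 2) (nat_lit 0) (nat_lit 3) (nat_lit 234) (nat_lit 378) r11_234 r10_378 (nat_lit 0) (nat_lit 0) (nat_lit 24741287) (nat_lit 0x8017985b4) (nat_lit 561612199),
  Rx.mk (nat_lit 149) (nat_lit 5) (nat_lit 2) (nat_lit 2) (nat_lit 7) (nat_lit 235) (nat_lit 379) r11_235 r10_379 (nat_lit 0) (nat_lit 0) (nat_lit 0) (nat_lit 0x8017985b4) (nat_lit 536870912),
  Rx.mk (nat_lit 197) (nat_lit 5) (nat_lit 0) (nat_lit 3) (nat_lit 5) (nat_lit 231) (nat_lit 375) r11_231 r10_375 (nat_lit 0) (nat_lit 24741287) (nat_lit 0) (nat_lit 0x8017985b4) (nat_lit 561612199),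
  Rx.mk (nat_lit 205) (nat_lit 5) (nat_lit 1) (nat_lit 3) (nat_lit 7) (nat_lit 233) (nat_lit 377) r11_233 r10_377 (nat_lit 0) (nat_lit 0) (nat_lit 0) (nat_lit 0x8017985b4) (nat_lit 536870912)]
noncomputable def e57_20 : List Rx := [
  Rx.mk (nat_lit 197) (nat_lit 5) (nat_lit 0) (nat_lit 3) (nat_lit 5) (nat_lit 281) (nat_lit 368) r11_281 r11_368 (nat_lit 0) (nat_lit 24741287) (nat_lit 0) (nat_lit 0x8017985b4) (nat_lit 561612199),
  Rx.mk (nat_lit 205) (nat_lit 5) (nat_lit 1) (nat_lit 3) (nat_lit 7) (nat_lit 282) (nat_lit 369) r11_282 r11_369 (nat_lit 0) (nat_lit 0) (nat_lit 0) (nat_lit 0x8017985b4) (nat_lit 536870912),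
  Rx.mk (nat_lit 213) (nat_lit 5) (nat_lit 2) (nat_lit 3) (nat_lit 7) (nat_lit 283) (nat_lit 370) r11_283 r11_370 (nat_lit 0) (nat_lit 0) (nat_lit 0) (nat_lit 0x8017985b4) (nat_lit 536870912)]
noncomputable def e57_21 : List Rx := [
  Rx.mk (nat_lit 76) (nat_lit 4) (nat_lit 1) (nat_lit 1) (nat_lit 6) (nat_lit 347) (nat_lit 320) r11_347 r9_320 (nat_lit 34238693) (nat_lit 0) (nat_lit 0) (nat_lit 0x7ed4be032) (nat_lit 591026955),
  Rx.mk (nat_lit 77) (nat_lit 5) (nat_lit 1) (nat_lit 1) (nat_lit 7) (nat_lit 348) (nat_lit 321) r11_348 r9_321 (nat_lit 0) (nat_lit 0) (nat_lit 0) (nat_lit 0x8017985b4) (nat_lit 536870912),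
  Rx.mk (nat_lit 78) (nat_lit 6) (nat_lit 1) (nat_lit 1) (nat_lit 7) (nat_lit 349) (nat_lit 323) r11_349 r9_323 (nat_lit 0) (nat_lit 0) (nat_lit 0) (nat_lit 0x8017985b4) (nat_lit 536870912),
  Rx.mk (nat_lit 334) (nat_lit 6) (nat_lit 1) (nat_lit 5) (nat_lit 7) (nat_lit 346) (nat_lit 322) r11_346 r9_322 (nat_lit 0) (nat_lit 0) (nat_lit 0) (nat_lit 0x8017985b4) (nat_lit 536870912),
  Rx.mk (nat_lit 366) (nat_lit 6) (nat_lit 5) (nat_lit 5) (nat_lit 7) (nat_lit 345) (nat_lit 319) r11_345 r9_319 (nat_lit 0) (nat_lit 0) (nat_lit 0) (nat_lit 0x8017985b4) (nat_lit 536870912)]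
noncomputable def e57_22 : List Rx := [
  Rx.mk (nat_lit 270) (nat_lit 6) (nat_lit 1) (nat_lit 4) (nat_lit 3) (nat_lit 302) (nat_lit 225) r11_302 r0_225 (nat_lit 0) (nat_lit 0) (nat_lit 9444164) (nat_lit 0x7fd819c08) (nat_lit 550012926),
  Rx.mk (nat_lit 302) (nat_lit 6) (nat_lit 5) (nat_lit 4) (nat_lit 3) (nat_lit 300) (nat_lit 226) r11_300 r0_226 (nat_lit 0) (nat_lit 0) (nat_lit 12926127) (nat_lit 0x800aea9a2) (nat_lit 550481389),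
  Rx.mk (nat_lit 494) (nat_lit 6) (nat_lit 5) (nat_lit 7) (nat_lit 7) (nat_lit 301) (nat_lit 227) r11_301 r0_227 (nat_lit 0) (nat_lit 0) (nat_lit 0) (nat_lit 0x8257094c6) (nat_lit 501926062)]
noncomputable def e57_23 : List Rx := [
  Rx.mk (nat_lit 302) (nat_lit 6) (nat_lit 5) (nat_lit 4) (nat_lit 3) (nat_lit 333) (nat_lit 244) r11_333 r1_244 (nat_lit 0) (nat_lit 0) (nat_lit 16971006) (nat_lit 0x8058c13c4) (nat_lit 549817368),
  Rx.mk (nat_lit 494) (nat_lit 6) (nat_lit 5) (nat_lit 7) (nat_lit 7) (nat_lit 334) (nat_lit 245) r11_334 r1_245 (nat_lit 0) (nat_lit 0) (nat_lit 0) (nat_lit 0x814704da6) (nat_lit 518377612)]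
noncomputable def e57_24 : List Rx := [
  Rx.mk (nat_lit 270) (nat_lit 6) (nat_lit 1) (nat_lit 4) (nat_lit 3) (nat_lit 358) (nat_lit 226) r11_358 r4_226 (nat_lit 0) (nat_lit 0) (nat_lit 11487859) (nat_lit 0x7fe0ccc6a) (nat_lit 551547221),
  Rx.mk (nat_lit 462) (nat_lit 6) (nat_lit 1) (nat_lit 7) (nat_lit 7) (nat_lit 359) (nat_lit 227) r11_359 r4_227 (nat_lit 0) (nat_lit 0) (nat_lit 0) (nat_lit 0x82046c2cc) (nat_lit 506848662),
  Rx.mk (nat_lit 494) (nat_lit 6) (nat_lit 5) (nat_lit 7) (nat_lit 7) (nat_lit 357) (nat_lit 228) r11_357 r4_228 (nat_lit 0) (nat_lit 0) (nat_lit 0) (nat_lit 0x850b42e04) (nat_lit 460662012)]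
noncomputable def e57_25 : List Rx := [
  Rx.mk (nat_lit 270) (nat_lit 6) (nat_lit 1) (nat_lit 4) (nat_lit 3) (nat_lit 306) (nat_lit 442) r11_306 r7_442 (nat_lit 0) (nat_lit 0) (nat_lit 19264518) (nat_lit 0x8067c11ee) (nat_lit 551226430),
  Rx.mk (nat_lit 302) (nat_lit 6) (nat_lit 5) (nat_lit 4) (nat_lit 3) (nat_lit 303) (nat_lit 439) r11_303 r7_439 (nat_lit 0) (nat_lit 0) (nat_lit 24741287) (nat_lit 0x8017985b4) (nat_lit 561612199),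
  Rx.mk (nat_lit 334) (nat_lit 6) (nat_lit 1) (nat_lit 5) (nat_lit 7) (nat_lit 307) (nat_lit 443) r11_307 r7_443 (nat_lit 0) (nat_lit 0) (nat_lit 0) (nat_lit 0x8017985b4) (nat_lit 536870912),
  Rx.mk (nat_lit 366) (nat_lit 6) (nat_lit 5) (nat_lit 5) (nat_lit 7) (nat_lit 304) (nat_lit 440) r11_304 r7_440 (nat_lit 0) (nat_lit 0) (nat_lit 0) (nat_lit 0x8017985b4) (nat_lit 536870912),
  Rx.mk (nat_lit 494) (nat_lit 6) (nat_lit 5) (nat_lit 7) (nat_lit 7) (nat_lit 305) (nat_lit 441) r11_305 r7_441 (nat_lit 0) (nat_lit 0) (nat_lit 0) (nat_lit 0x8017985b4) (nat_lit 536870912)]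
noncomputable def e57_26 : List Rx := [
  Rx.mk (nat_lit 302) (nat_lit 6) (nat_lit 5) (nat_lit 4) (nat_lit 3) (nat_lit 335) (nat_lit 358) r11_335 r8_358 (nat_lit 0) (nat_lit 0) (nat_lit 24741287) (nat_lit 0x8017985b4) (nat_lit 561612199),
  Rx.mk (nat_lit 366) (nat_lit 6) (nat_lit 5) (nat_lit 5) (nat_lit 7) (nat_lit 336) (nat_lit 359) r11_336 r8_359 (nat_lit 0) (nat_lit 0) (nat_lit 0) (nat_lit 0x8017985b4) (nat_lit 536870912),
  Rx.mk (nat_lit 494) (nat_lit 6) (nat_lit 5) (nat_lit 7) (nat_lit 7) (nat_lit 337) (nat_lit 360) r11_337 r8_360 (nat_lit 0) (nat_lit 0) (nat_lit 0) (nat_lit 0x8017985b4) (nat_lit 536870912)]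
noncomputable def e57_27 : List Rx := [
  Rx.mk (nat_lit 334) (nat_lit 6) (nat_lit 1) (nat_lit 5) (nat_lit 7) (nat_lit 344) (nat_lit 219) r11_344 r8_219 (nat_lit 0) (nat_lit 0) (nat_lit 0) (nat_lit 0x8017985b4) (nat_lit 536870912),
  Rx.mk (nat_lit 366) (nat_lit 6) (nat_lit 5) (nat_lit 5) (nat_lit 7) (nat_lit 343) (nat_lit 220) r11_343 r8_220 (nat_lit 0) (nat_lit 0) (nat_lit 0) (nat_lit 0x8017985b4) (nat_lit 536870912)]
noncomputable def e57_28 : List Rx := [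
  Rx.mk (nat_lit 270) (nat_lit 6) (nat_lit 1) (nat_lit 4) (nat_lit 3) (nat_lit 361) (nat_lit 366) r11_361 r10_366 (nat_lit 0) (nat_lit 0) (nat_lit 20709188) (nat_lit 0x804c96cf2) (nat_lit 554327950),
  Rx.mk (nat_lit 334) (nat_lit 6) (nat_lit 1) (nat_lit 5) (nat_lit 7) (nat_lit 362) (nat_lit 367) r11_362 r10_367 (nat_lit 0) (nat_lit 0) (nat_lit 0) (nat_lit 0x8017985b4) (nat_lit 536870912),
  Rx.mk (nat_lit 462) (nat_lit 6) (nat_lit 1) (nat_lit 7) (nat_lit 7) (nat_lit 363) (nat_lit 368) r11_363 r10_368 (nat_lit 0) (nat_lit 0) (nat_lit 0) (nat_lit 0x8017985b4) (nat_lit 536870912),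
  Rx.mk (nat_lit 494) (nat_lit 6) (nat_lit 5) (nat_lit 7) (nat_lit 7) (nat_lit 360) (nat_lit 365) r11_360 r10_365 (nat_lit 0) (nat_lit 0) (nat_lit 0) (nat_lit 0x8017985b4) (nat_lit 536870912)]
noncomputable def e57_29 : List Rx := [
  Rx.mk (nat_lit 462) (nat_lit 6) (nat_lit 1) (nat_lit 7) (nat_lit 7) (nat_lit 365) (nat_lit 365) r11_365 r11_365 (nat_lit 0) (nat_lit 0) (nat_lit 0) (nat_lit 0x80801aaba) (nat_lit 530459962),
  Rx.mk (nat_lit 494) (nat_lit 6) (nat_lit 5) (nat_lit 7) (nat_lit 7) (nat_lit 364) (nat_lit 364) r11_364 r11_364 (nat_lit 0) (nat_lit 0) (nat_lit 0) (nat_lit 0x8017985b4) (nat_lit 536870912)]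
noncomputable def e57_30 : List Rx := [
  Rx.mk (nat_lit 4) (nat_lit 4) (nat_lit 0) (nat_lit 0) (nat_lit 0) (nat_lit 68) (nat_lit 202) r11_68 r5_202 (nat_lit 4773935) (nat_lit 5946457) (nat_lit 23484085) (nat_lit 0x49e63d70c) (nat_lit 1446456039),
  Rx.mk (nat_lit 5) (nat_lit 5) (nat_lit 0) (nat_lit 0) (nat_lit 1) (nat_lit 69) (nat_lit 203) r11_69 r5_203 (nat_lit 0) (nat_lit 33768507) (nat_lit 55665677) (nat_lit 0x7ce62247e) (nat_lit 677311396),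
  Rx.mk (nat_lit 6) (nat_lit 6) (nat_lit 0) (nat_lit 0) (nat_lit 1) (nat_lit 70) (nat_lit 205) r11_70 r5_205 (nat_lit 0) (nat_lit 37783563) (nat_lit 43048303) (nat_lit 0x7dabdf81a) (nat_lit 656267928),
  Rx.mk (nat_lit 7) (nat_lit 7) (nat_lit 0) (nat_lit 0) (nat_lit 1) (nat_lit 71) (nat_lit 204) r11_71 r5_204 (nat_lit 0) (nat_lit 36801253) (nat_lit 60413237) (nat_lit 0x7abb7e684) (nat_lit 720123752),
  Rx.mk (nat_lit 12) (nat_lit 4) (nat_lit 1) (nat_lit 0) (nat_lit 2) (nat_lit 75) (nat_lit 206) r11_75 r5_206 (nat_lit 35682471) (nat_lit 0) (nat_lit 41438793) (nat_lit 0x752101d04) (nat_lit 790555976),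
  Rx.mk (nat_lit 14) (nat_lit 6) (nat_lit 1) (nat_lit 0) (nat_lit 3) (nat_lit 76) (nat_lit 208) r11_76 r5_208 (nat_lit 0) (nat_lit 0) (nat_lit 24741287) (nat_lit 0x8017985b4) (nat_lit 561612199),
  Rx.mk (nat_lit 15) (nat_lit 7) (nat_lit 1) (nat_lit 0) (nat_lit 3) (nat_lit 77) (nat_lit 207) r11_77 r5_207 (nat_lit 0) (nat_lit 0) (nat_lit 24741287) (nat_lit 0x8017985b4) (nat_lit 561612199),
  Rx.mk (nat_lit 20) (nat_lit 4) (nat_lit 2) (nat_lit 0) (nat_lit 2) (nat_lit 80) (nat_lit 209) r11_80 r5_209 (nat_lit 10516416) (nat_lit 0) (nat_lit 163052374) (nat_lit 0x79e792546) (nat_lit 809704152),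
  Rx.mk (nat_lit 21) (nat_lit 5) (nat_lit 2) (nat_lit 0) (nat_lit 3) (nat_lit 81) (nat_lit 210) r11_81 r5_210 (nat_lit 0) (nat_lit 0) (nat_lit 24741287) (nat_lit 0x8036bdc00) (nat_lit 559695499),
  Rx.mk (nat_lit 23) (nat_lit 7) (nat_lit 2) (nat_lit 0) (nat_lit 3) (nat_lit 82) (nat_lit 211) r11_82 r5_211 (nat_lit 0) (nat_lit 0) (nat_lit 25956094) (nat_lit 0x80019bd60) (nat_lit 564158956),
  Rx.mk (nat_lit 148) (nat_lit 4) (nat_lit 2) (nat_lit 2) (nat_lit 6) (nat_lit 83) (nat_lit 222) r11_83 r5_222 (nat_lit 20811975) (nat_lit 0) (nat_lit 0) (nat_lit 0x7fde627e0) (nat_lit 561177737),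
  Rx.mk (nat_lit 149) (nat_lit 5) (nat_lit 2) (nat_lit 2) (nat_lit 7) (nat_lit 84) (nat_lit 223) r11_84 r5_223 (nat_lit 0) (nat_lit 0) (nat_lit 0) (nat_lit 0x8017985b4) (nat_lit 536870912),
  Rx.mk (nat_lit 151) (nat_lit 7) (nat_lit 2) (nat_lit 2) (nat_lit 7) (nat_lit 85) (nat_lit 224) r11_85 r5_224 (nat_lit 0) (nat_lit 0) (nat_lit 0) (nat_lit 0x8017985b4) (nat_lit 536870912),
  Rx.mk (nat_lit 196) (nat_lit 4) (nat_lit 0) (nat_lit 3) (nat_lit 4) (nat_lit 72) (nat_lit 212) r11_72 r5_212 (nat_lit 8957018) (nat_lit 12323810) (nat_lit 0) (nat_lit 0x6eeac40b2) (nat_lit 835033290),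
  Rx.mk (nat_lit 197) (nat_lit 5) (nat_lit 0) (nat_lit 3) (nat_lit 5) (nat_lit 73) (nat_lit 213) r11_73 r5_213 (nat_lit 0) (nat_lit 18403732) (nat_lit 0) (nat_lit 0x8068f7d2e) (nat_lit 550276494),
  Rx.mk (nat_lit 198) (nat_lit 6) (nat_lit 0) (nat_lit 3) (nat_lit 5) (nat_lit 74) (nat_lit 214) r11_74 r5_214 (nat_lit 0) (nat_lit 19699007) (nat_lit 0) (nat_lit 0x7fd8785be) (nat_lit 560420169),
  Rx.mk (nat_lit 204) (nat_lit 4) (nat_lit 1) (nat_lit 3) (nat_lit 6) (nat_lit 78) (nat_lit 215) r11_78 r5_215 (nat_lit 16307770) (nat_lit 0) (nat_lit 0) (nat_lit 0x8072222be) (nat_lit 547606132),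
  Rx.mk (nat_lit 206) (nat_lit 6) (nat_lit 1) (nat_lit 3) (nat_lit 7) (nat_lit 79) (nat_lit 216) r11_79 r5_216 (nat_lit 0) (nat_lit 0) (nat_lit 0) (nat_lit 0x8017985b4) (nat_lit 536870912),
  Rx.mk (nat_lit 212) (nat_lit 4) (nat_lit 2) (nat_lit 3) (nat_lit 6) (nat_lit 86) (nat_lit 220) r11_86 r5_220 (nat_lit 16204149) (nat_lit 0) (nat_lit 0) (nat_lit 0x809309fb8) (nat_lit 545503711),
  Rx.mk (nat_lit 213) (nat_lit 5) (nat_lit 2) (nat_lit 3) (nat_lit 7) (nat_lit 87) (nat_lit 221) r11_87 r5_221 (nat_lit 0) (nat_lit 0) (nat_lit 0) (nat_lit 0x8017985b4) (nat_lit 536870912),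
  Rx.mk (nat_lit 220) (nat_lit 4) (nat_lit 3) (nat_lit 3) (nat_lit 6) (nat_lit 88) (nat_lit 217) r11_88 r5_217 (nat_lit 24841657) (nat_lit 0) (nat_lit 0) (nat_lit 0x7dc3688d8) (nat_lit 598810569),
  Rx.mk (nat_lit 221) (nat_lit 5) (nat_lit 3) (nat_lit 3) (nat_lit 7) (nat_lit 89) (nat_lit 218) r11_89 r5_218 (nat_lit 0) (nat_lit 0) (nat_lit 0) (nat_lit 0x8017985b4) (nat_lit 536870912),
  Rx.mk (nat_lit 222) (nat_lit 6) (nat_lit 3) (nat_lit 3) (nat_lit 7) (nat_lit 90) (nat_lit 219) r11_90 r5_219 (nat_lit 0) (nat_lit 0) (nat_lit 0) (nat_lit 0x8017985b4) (nat_lit 536870912)]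
noncomputable def e57_31 : List Rx := [
  Rx.mk (nat_lit 4) (nat_lit 4) (nat_lit 0) (nat_lit 0) (nat_lit 0) (nat_lit 236) (nat_lit 236) r11_236 r11_236 (nat_lit 32932365) (nat_lit 53843718) (nat_lit 53843718) (nat_lit 0x5ad4d46f8) (nat_lit 1279235263),
  Rx.mk (nat_lit 5) (nat_lit 5) (nat_lit 0) (nat_lit 0) (nat_lit 1) (nat_lit 237) (nat_lit 237) r11_237 r11_237 (nat_lit 0) (nat_lit 49618932) (nat_lit 49618932) (nat_lit 0x7eda874a0) (nat_lit 655708776),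
  Rx.mk (nat_lit 6) (nat_lit 6) (nat_lit 0) (nat_lit 0) (nat_lit 1) (nat_lit 238) (nat_lit 239) r11_238 r11_239 (nat_lit 0) (nat_lit 31419554) (nat_lit 30414660) (nat_lit 0x7dc8ca060) (nat_lit 635354426),
  Rx.mk (nat_lit 7) (nat_lit 7) (nat_lit 0) (nat_lit 0) (nat_lit 1) (nat_lit 239) (nat_lit 238) r11_239 r11_238 (nat_lit 0) (nat_lit 30414660) (nat_lit 31419554) (nat_lit 0x7dc8ca060) (nat_lit 635354426),
  Rx.mk (nat_lit 12) (nat_lit 4) (nat_lit 1) (nat_lit 0) (nat_lit 2) (nat_lit 246) (nat_lit 240) r11_246 r11_240 (nat_lit 36022396) (nat_lit 0) (nat_lit 50819749) (nat_lit 0x7a243af02) (nat_lit 719244457),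
  Rx.mk (nat_lit 14) (nat_lit 6) (nat_lit 1) (nat_lit 0) (nat_lit 3) (nat_lit 247) (nat_lit 242) r11_247 r11_242 (nat_lit 0) (nat_lit 0) (nat_lit 24741287) (nat_lit 0x8017985b4) (nat_lit 561612199),
  Rx.mk (nat_lit 15) (nat_lit 7) (nat_lit 1) (nat_lit 0) (nat_lit 3) (nat_lit 248) (nat_lit 241) r11_248 r11_241 (nat_lit 0) (nat_lit 0) (nat_lit 24741287) (nat_lit 0x8017985b4) (nat_lit 561612199),
  Rx.mk (nat_lit 20) (nat_lit 4) (nat_lit 2) (nat_lit 0) (nat_lit 2) (nat_lit 254) (nat_lit 243) r11_254 r11_243 (nat_lit 35875760) (nat_lit 0) (nat_lit 37472217) (nat_lit 0x774eb43c6) (nat_lit 751561939),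
  Rx.mk (nat_lit 21) (nat_lit 5) (nat_lit 2) (nat_lit 0) (nat_lit 3) (nat_lit 255) (nat_lit 244) r11_255 r11_244 (nat_lit 0) (nat_lit 0) (nat_lit 24741287) (nat_lit 0x8017985b4) (nat_lit 561612199),
  Rx.mk (nat_lit 23) (nat_lit 7) (nat_lit 2) (nat_lit 0) (nat_lit 3) (nat_lit 256) (nat_lit 245) r11_256 r11_245 (nat_lit 0) (nat_lit 0) (nat_lit 24741287) (nat_lit 0x8017985b4) (nat_lit 561612199),
  Rx.mk (nat_lit 68) (nat_lit 4) (nat_lit 0) (nat_lit 1) (nat_lit 4) (nat_lit 240) (nat_lit 246) r11_240 r11_246 (nat_lit 36022396) (nat_lit 50819749) (nat_lit 0) (nat_lit 0x7a243af02) (nat_lit 719244457),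
  Rx.mk (nat_lit 70) (nat_lit 6) (nat_lit 0) (nat_lit 1) (nat_lit 5) (nat_lit 241) (nat_lit 248) r11_241 r11_248 (nat_lit 0) (nat_lit 24741287) (nat_lit 0) (nat_lit 0x8017985b4) (nat_lit 561612199),
  Rx.mk (nat_lit 71) (nat_lit 7) (nat_lit 0) (nat_lit 1) (nat_lit 5) (nat_lit 242) (nat_lit 247) r11_242 r11_247 (nat_lit 0) (nat_lit 24741287) (nat_lit 0) (nat_lit 0x8017985b4) (nat_lit 561612199),
  Rx.mk (nat_lit 76) (nat_lit 4) (nat_lit 1) (nat_lit 1) (nat_lit 6) (nat_lit 249) (nat_lit 249) r11_249 r11_249 (nat_lit 24842793) (nat_lit 0) (nat_lit 0) (nat_lit 0x7fa573ed4) (nat_lit 568719755),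
  Rx.mk (nat_lit 78) (nat_lit 6) (nat_lit 1) (nat_lit 1) (nat_lit 7) (nat_lit 250) (nat_lit 251) r11_250 r11_251 (nat_lit 0) (nat_lit 0) (nat_lit 0) (nat_lit 0x8017985b4) (nat_lit 536870912),
  Rx.mk (nat_lit 79) (nat_lit 7) (nat_lit 1) (nat_lit 1) (nat_lit 7) (nat_lit 251) (nat_lit 250) r11_251 r11_250 (nat_lit 0) (nat_lit 0) (nat_lit 0) (nat_lit 0x8017985b4) (nat_lit 536870912),
  Rx.mk (nat_lit 84) (nat_lit 4) (nat_lit 2) (nat_lit 1) (nat_lit 6) (nat_lit 257) (nat_lit 252) r11_257 r11_252 (nat_lit 24741287) (nat_lit 0) (nat_lit 0) (nat_lit 0x8017985b4) (nat_lit 561612199),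
  Rx.mk (nat_lit 87) (nat_lit 7) (nat_lit 2) (nat_lit 1) (nat_lit 7) (nat_lit 258) (nat_lit 253) r11_258 r11_253 (nat_lit 0) (nat_lit 0) (nat_lit 0) (nat_lit 0x8017985b4) (nat_lit 536870912),
  Rx.mk (nat_lit 148) (nat_lit 4) (nat_lit 2) (nat_lit 2) (nat_lit 6) (nat_lit 259) (nat_lit 262) r11_259 r11_262 (nat_lit 24741287) (nat_lit 0) (nat_lit 0) (nat_lit 0x8017985b4) (nat_lit 561612199),
  Rx.mk (nat_lit 149) (nat_lit 5) (nat_lit 2) (nat_lit 2) (nat_lit 7) (nat_lit 260) (nat_lit 263) r11_260 r11_263 (nat_lit 0) (nat_lit 0) (nat_lit 0) (nat_lit 0x8017985b4) (nat_lit 536870912),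
  Rx.mk (nat_lit 151) (nat_lit 7) (nat_lit 2) (nat_lit 2) (nat_lit 7) (nat_lit 261) (nat_lit 264) r11_261 r11_264 (nat_lit 0) (nat_lit 0) (nat_lit 0) (nat_lit 0x8017985b4) (nat_lit 536870912),
  Rx.mk (nat_lit 196) (nat_lit 4) (nat_lit 0) (nat_lit 3) (nat_lit 4) (nat_lit 243) (nat_lit 254) r11_243 r11_254 (nat_lit 35875760) (nat_lit 37472217) (nat_lit 0) (nat_lit 0x774eb43c6) (nat_lit 751561939),
  Rx.mk (nat_lit 197) (nat_lit 5) (nat_lit 0) (nat_lit 3) (nat_lit 5) (nat_lit 244) (nat_lit 255) r11_244 r11_255 (nat_lit 0) (nat_lit 24741287) (nat_lit 0) (nat_lit 0x8017985b4) (nat_lit 561612199),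
  Rx.mk (nat_lit 198) (nat_lit 6) (nat_lit 0) (nat_lit 3) (nat_lit 5) (nat_lit 245) (nat_lit 256) r11_245 r11_256 (nat_lit 0) (nat_lit 24741287) (nat_lit 0) (nat_lit 0x8017985b4) (nat_lit 561612199),
  Rx.mk (nat_lit 204) (nat_lit 4) (nat_lit 1) (nat_lit 3) (nat_lit 6) (nat_lit 252) (nat_lit 257) r11_252 r11_257 (nat_lit 24741287) (nat_lit 0) (nat_lit 0) (nat_lit 0x8017985b4) (nat_lit 561612199),
  Rx.mk (nat_lit 206) (nat_lit 6) (nat_lit 1) (nat_lit 3) (nat_lit 7) (nat_lit 253) (nat_lit 258) r11_253 r11_258 (nat_lit 0) (nat_lit 0) (nat_lit 0) (nat_lit 0x8017985b4) (nat_lit 536870912),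
  Rx.mk (nat_lit 220) (nat_lit 4) (nat_lit 3) (nat_lit 3) (nat_lit 6) (nat_lit 262) (nat_lit 259) r11_262 r11_259 (nat_lit 24741287) (nat_lit 0) (nat_lit 0) (nat_lit 0x8017985b4) (nat_lit 561612199),
  Rx.mk (nat_lit 221) (nat_lit 5) (nat_lit 3) (nat_lit 3) (nat_lit 7) (nat_lit 263) (nat_lit 260) r11_263 r11_260 (nat_lit 0) (nat_lit 0) (nat_lit 0) (nat_lit 0x8017985b4) (nat_lit 536870912),
  Rx.mk (nat_lit 222) (nat_lit 6) (nat_lit 3) (nat_lit 3) (nat_lit 7) (nat_lit 264) (nat_lit 261) r11_264 r11_261 (nat_lit 0) (nat_lit 0) (nat_lit 0) (nat_lit 0x8017985b4) (nat_lit 536870912)]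
noncomputable def e57_32 : List Rx := [
  Rx.mk (nat_lit 454) (nat_lit 6) (nat_lit 0) (nat_lit 7) (nat_lit 5) (nat_lit 284) (nat_lit 241) r11_284 r6_241 (nat_lit 0) (nat_lit 4181752) (nat_lit 0) (nat_lit 0x80bce2e16) (nat_lit 530625764),
  Rx.mk (nat_lit 462) (nat_lit 6) (nat_lit 1) (nat_lit 7) (nat_lit 7) (nat_lit 285) (nat_lit 242) r11_285 r6_242 (nat_lit 0) (nat_lit 0) (nat_lit 0) (nat_lit 0x84db9c5a6) (nat_lit 463462512),
  Rx.mk (nat_lit 478) (nat_lit 6) (nat_lit 3) (nat_lit 7) (nat_lit 7) (nat_lit 286) (nat_lit 243) r11_286 r6_243 (nat_lit 0) (nat_lit 0) (nat_lit 0) (nat_lit 0x8558f78ac) (nat_lit 456022662)]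
noncomputable def e57_33 : List Rx := [
  Rx.mk (nat_lit 270) (nat_lit 6) (nat_lit 1) (nat_lit 4) (nat_lit 3) (nat_lit 366) (nat_lit 240) r11_366 r5_240 (nat_lit 0) (nat_lit 0) (nat_lit 12925908) (nat_lit 0x804d82ed6) (nat_lit 546213020),
  Rx.mk (nat_lit 462) (nat_lit 6) (nat_lit 1) (nat_lit 7) (nat_lit 7) (nat_lit 367) (nat_lit 241) r11_367 r5_241 (nat_lit 0) (nat_lit 0) (nat_lit 0) (nat_lit 0x834f94230) (nat_lit 487057512)]
noncomputable def e57_34 : List Rx := [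
  Rx.mk (nat_lit 270) (nat_lit 6) (nat_lit 1) (nat_lit 4) (nat_lit 3) (nat_lit 368) (nat_lit 281) r11_368 r11_281 (nat_lit 0) (nat_lit 0) (nat_lit 24741287) (nat_lit 0x8017985b4) (nat_lit 561612199),
  Rx.mk (nat_lit 334) (nat_lit 6) (nat_lit 1) (nat_lit 5) (nat_lit 7) (nat_lit 369) (nat_lit 282) r11_369 r11_282 (nat_lit 0) (nat_lit 0) (nat_lit 0) (nat_lit 0x8017985b4) (nat_lit 536870912),
  Rx.mk (nat_lit 462) (nat_lit 6) (nat_lit 1) (nat_lit 7) (nat_lit 7) (nat_lit 370) (nat_lit 283) r11_370 r11_283 (nat_lit 0) (nat_lit 0) (nat_lit 0) (nat_lit 0x8017985b4) (nat_lit 536870912)]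
noncomputable def e57_35 : List Rx := [
  Rx.mk (nat_lit 7) (nat_lit 7) (nat_lit 0) (nat_lit 0) (nat_lit 1) (nat_lit 53) (nat_lit 153) r11_53 r6_153 (nat_lit 0) (nat_lit 11453294) (nat_lit 17592133) (nat_lit 0x79c89e50e) (nat_lit 667174639),
  Rx.mk (nat_lit 15) (nat_lit 7) (nat_lit 1) (nat_lit 0) (nat_lit 3) (nat_lit 57) (nat_lit 157) r11_57 r6_157 (nat_lit 0) (nat_lit 0) (nat_lit 23560195) (nat_lit 0x8006b0be8) (nat_lit 561461107),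
  Rx.mk (nat_lit 23) (nat_lit 7) (nat_lit 2) (nat_lit 0) (nat_lit 3) (nat_lit 61) (nat_lit 164) r11_61 r6_164 (nat_lit 0) (nat_lit 0) (nat_lit 26850297) (nat_lit 0x80135a3c6) (nat_lit 563945709),
  Rx.mk (nat_lit 151) (nat_lit 7) (nat_lit 2) (nat_lit 2) (nat_lit 7) (nat_lit 62) (nat_lit 167) r11_62 r6_167 (nat_lit 0) (nat_lit 0) (nat_lit 0) (nat_lit 0x8017985b4) (nat_lit 536870912),
  Rx.mk (nat_lit 196) (nat_lit 4) (nat_lit 0) (nat_lit 3) (nat_lit 4) (nat_lit 54) (nat_lit 154) r11_54 r6_154 (nat_lit 8232258) (nat_lit 8887259) (nat_lit 0) (nat_lit 0x752a94a10) (nat_lit 729817329),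
  Rx.mk (nat_lit 198) (nat_lit 6) (nat_lit 0) (nat_lit 3) (nat_lit 5) (nat_lit 55) (nat_lit 156) r11_55 r6_156 (nat_lit 0) (nat_lit 20819956) (nat_lit 0) (nat_lit 0x80443f36a) (nat_lit 554944468),
  Rx.mk (nat_lit 199) (nat_lit 7) (nat_lit 0) (nat_lit 3) (nat_lit 5) (nat_lit 56) (nat_lit 155) r11_56 r6_155 (nat_lit 0) (nat_lit 11833070) (nat_lit 0) (nat_lit 0x80dfff796) (nat_lit 536433782),
  Rx.mk (nat_lit 204) (nat_lit 4) (nat_lit 1) (nat_lit 3) (nat_lit 6) (nat_lit 58) (nat_lit 158) r11_58 r6_158 (nat_lit 24863851) (nat_lit 0) (nat_lit 0) (nat_lit 0x80051da7e) (nat_lit 562865263),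
  Rx.mk (nat_lit 206) (nat_lit 6) (nat_lit 1) (nat_lit 3) (nat_lit 7) (nat_lit 59) (nat_lit 160) r11_59 r6_160 (nat_lit 0) (nat_lit 0) (nat_lit 0) (nat_lit 0x8017985b4) (nat_lit 536870912),
  Rx.mk (nat_lit 207) (nat_lit 7) (nat_lit 1) (nat_lit 3) (nat_lit 7) (nat_lit 60) (nat_lit 159) r11_60 r6_159 (nat_lit 0) (nat_lit 0) (nat_lit 0) (nat_lit 0x8017985b4) (nat_lit 536870912),
  Rx.mk (nat_lit 212) (nat_lit 4) (nat_lit 2) (nat_lit 3) (nat_lit 6) (nat_lit 63) (nat_lit 165) r11_63 r6_165 (nat_lit 24741287) (nat_lit 0) (nat_lit 0) (nat_lit 0x8017985b4) (nat_lit 561612199),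
  Rx.mk (nat_lit 215) (nat_lit 7) (nat_lit 2) (nat_lit 3) (nat_lit 7) (nat_lit 64) (nat_lit 166) r11_64 r6_166 (nat_lit 0) (nat_lit 0) (nat_lit 0) (nat_lit 0x8017985b4) (nat_lit 536870912),
  Rx.mk (nat_lit 220) (nat_lit 4) (nat_lit 3) (nat_lit 3) (nat_lit 6) (nat_lit 66) (nat_lit 161) r11_66 r6_161 (nat_lit 24741287) (nat_lit 0) (nat_lit 0) (nat_lit 0x8017985b4) (nat_lit 561612199),
  Rx.mk (nat_lit 222) (nat_lit 6) (nat_lit 3) (nat_lit 3) (nat_lit 7) (nat_lit 67) (nat_lit 162) r11_67 r6_162 (nat_lit 0) (nat_lit 0) (nat_lit 0) (nat_lit 0x8017985b4) (nat_lit 536870912),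
  Rx.mk (nat_lit 478) (nat_lit 6) (nat_lit 3) (nat_lit 7) (nat_lit 7) (nat_lit 65) (nat_lit 163) r11_65 r6_163 (nat_lit 0) (nat_lit 0) (nat_lit 0) (nat_lit 0x822812b0e) (nat_lit 504804312)]
noncomputable def e57_36 : List Rx := [
  Rx.mk (nat_lit 196) (nat_lit 4) (nat_lit 0) (nat_lit 3) (nat_lit 4) (nat_lit 288) (nat_lit 457) r11_288 r12_457 (nat_lit 4803434) (nat_lit 4468885) (nat_lit 0) (nat_lit 0x77fe54128) (nat_lit 676180381),
  Rx.mk (nat_lit 198) (nat_lit 6) (nat_lit 0) (nat_lit 3) (nat_lit 5) (nat_lit 289) (nat_lit 463) r11_289 r12_463 (nat_lit 0) (nat_lit 24820252) (nat_lit 0) (nat_lit 0x800bab5a8) (nat_lit 562420664),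
  Rx.mk (nat_lit 199) (nat_lit 7) (nat_lit 0) (nat_lit 3) (nat_lit 5) (nat_lit 290) (nat_lit 460) r11_290 r12_460 (nat_lit 0) (nat_lit 9075693) (nat_lit 0) (nat_lit 0x80cd0b3ba) (nat_lit 534764955),
  Rx.mk (nat_lit 204) (nat_lit 4) (nat_lit 1) (nat_lit 3) (nat_lit 6) (nat_lit 292) (nat_lit 458) r11_292 r12_458 (nat_lit 16057116) (nat_lit 0) (nat_lit 0) (nat_lit 0x7fc34d5cc) (nat_lit 558049628),
  Rx.mk (nat_lit 206) (nat_lit 6) (nat_lit 1) (nat_lit 3) (nat_lit 7) (nat_lit 293) (nat_lit 465) r11_293 r12_465 (nat_lit 0) (nat_lit 0) (nat_lit 0) (nat_lit 0x7ff71c2cc) (nat_lit 538851962),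
  Rx.mk (nat_lit 207) (nat_lit 7) (nat_lit 1) (nat_lit 3) (nat_lit 7) (nat_lit 294) (nat_lit 461) r11_294 r12_461 (nat_lit 0) (nat_lit 0) (nat_lit 0) (nat_lit 0x804e46f70) (nat_lit 533487162),
  Rx.mk (nat_lit 212) (nat_lit 4) (nat_lit 2) (nat_lit 3) (nat_lit 6) (nat_lit 295) (nat_lit 459) r11_295 r12_459 (nat_lit 21075625) (nat_lit 0) (nat_lit 0) (nat_lit 0x804227960) (nat_lit 555330187),
  Rx.mk (nat_lit 215) (nat_lit 7) (nat_lit 2) (nat_lit 3) (nat_lit 7) (nat_lit 296) (nat_lit 462) r11_296 r12_462 (nat_lit 0) (nat_lit 0) (nat_lit 0) (nat_lit 0x8071a753c) (nat_lit 531344562),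
  Rx.mk (nat_lit 454) (nat_lit 6) (nat_lit 0) (nat_lit 7) (nat_lit 5) (nat_lit 287) (nat_lit 464) r11_287 r12_464 (nat_lit 0) (nat_lit 3201067) (nat_lit 0) (nat_lit 0x80c289022) (nat_lit 529188929),
  Rx.mk (nat_lit 462) (nat_lit 6) (nat_lit 1) (nat_lit 7) (nat_lit 7) (nat_lit 291) (nat_lit 466) r11_291 r12_466 (nat_lit 0) (nat_lit 0) (nat_lit 0) (nat_lit 0x8f490b628) (nat_lit 304348712),
  Rx.mk (nat_lit 478) (nat_lit 6) (nat_lit 3) (nat_lit 7) (nat_lit 7) (nat_lit 297) (nat_lit 467) r11_297 r12_467 (nat_lit 0) (nat_lit 0) (nat_lit 0) (nat_lit 0x853b3dfaa) (nat_lit 457742362)]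
noncomputable def e57_37 : List Rx := [
  Rx.mk (nat_lit 144) (nat_lit 0) (nat_lit 2) (nat_lit 2) (nat_lit 6) (nat_lit 99) (nat_lit 217) r11_99 r0_217 (nat_lit 11279401) (nat_lit 0) (nat_lit 0) (nat_lit 0x78e6c8c2e) (nat_lit 663631063),
  Rx.mk (nat_lit 147) (nat_lit 3) (nat_lit 2) (nat_lit 2) (nat_lit 7) (nat_lit 100) (nat_lit 218) r11_100 r0_218 (nat_lit 0) (nat_lit 0) (nat_lit 0) (nat_lit 0x81065e126) (nat_lit 522185862),
  Rx.mk (nat_lit 176) (nat_lit 0) (nat_lit 6) (nat_lit 2) (nat_lit 6) (nat_lit 96) (nat_lit 216) r11_96 r0_216 (nat_lit 12688314) (nat_lit 0) (nat_lit 0) (nat_lit 0x803b0d346) (nat_lit 547294026),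
  Rx.mk (nat_lit 290) (nat_lit 2) (nat_lit 4) (nat_lit 4) (nat_lit 1) (nat_lit 92) (nat_lit 219) r11_92 r0_219 (nat_lit 0) (nat_lit 7944298) (nat_lit 9949213) (nat_lit 0x6fc82cfd0) (nat_lit 817619223),
  Rx.mk (nat_lit 294) (nat_lit 6) (nat_lit 4) (nat_lit 4) (nat_lit 1) (nat_lit 91) (nat_lit 212) r11_91 r0_212 (nat_lit 0) (nat_lit 18712504) (nat_lit 170327518) (nat_lit 0x72fa2386a) (nat_lit 937148384),
  Rx.mk (nat_lit 318) (nat_lit 6) (nat_lit 7) (nat_lit 4) (nat_lit 3) (nat_lit 97) (nat_lit 213) r11_97 r0_213 (nat_lit 0) (nat_lit 0) (nat_lit 153834335) (nat_lit 0x7ce2c9da4) (nat_lit 741924097),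
  Rx.mk (nat_lit 418) (nat_lit 2) (nat_lit 4) (nat_lit 6) (nat_lit 5) (nat_lit 93) (nat_lit 220) r11_93 r0_220 (nat_lit 0) (nat_lit 15086968) (nat_lit 0) (nat_lit 0x80b26ae3e) (nat_lit 542475880),
  Rx.mk (nat_lit 432) (nat_lit 0) (nat_lit 6) (nat_lit 6) (nat_lit 6) (nat_lit 94) (nat_lit 215) r11_94 r0_215 (nat_lit 14894858) (nat_lit 0) (nat_lit 0) (nat_lit 0x800926332) (nat_lit 552590770),
  Rx.mk (nat_lit 434) (nat_lit 2) (nat_lit 6) (nat_lit 6) (nat_lit 7) (nat_lit 95) (nat_lit 221) r11_95 r0_221 (nat_lit 0) (nat_lit 0) (nat_lit 0) (nat_lit 0x805e5975a) (nat_lit 532528962),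
  Rx.mk (nat_lit 510) (nat_lit 6) (nat_lit 7) (nat_lit 7) (nat_lit 7) (nat_lit 98) (nat_lit 214) r11_98 r0_214 (nat_lit 0) (nat_lit 0) (nat_lit 0) (nat_lit 0x8056e7ad0) (nat_lit 532778862)]
noncomputable def e57_38 : List Rx := [
  Rx.mk (nat_lit 144) (nat_lit 0) (nat_lit 2) (nat_lit 2) (nat_lit 6) (nat_lit 0) (nat_lit 152) r11_0 r0_152 (nat_lit 24142843) (nat_lit 0) (nat_lit 0) (nat_lit 0x7ecf6cf52) (nat_lit 581323155),
  Rx.mk (nat_lit 147) (nat_lit 3) (nat_lit 2) (nat_lit 2) (nat_lit 7) (nat_lit 1) (nat_lit 153) r11_1 r0_153 (nat_lit 0) (nat_lit 0) (nat_lit 0) (nat_lit 0x80194a9fc) (nat_lit 536773062)]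
noncomputable def e57_39 : List Rx := [
  Rx.mk (nat_lit 144) (nat_lit 0) (nat_lit 2) (nat_lit 2) (nat_lit 6) (nat_lit 105) (nat_lit 276) r11_105 r7_276 (nat_lit 22333228) (nat_lit 0) (nat_lit 0) (nat_lit 0x7fea265d6) (nat_lit 561979440),
  Rx.mk (nat_lit 147) (nat_lit 3) (nat_lit 2) (nat_lit 2) (nat_lit 7) (nat_lit 106) (nat_lit 277) r11_106 r7_277 (nat_lit 0) (nat_lit 0) (nat_lit 0) (nat_lit 0x8017985b4) (nat_lit 536870912),
  Rx.mk (nat_lit 176) (nat_lit 0) (nat_lit 6) (nat_lit 2) (nat_lit 6) (nat_lit 104) (nat_lit 275) r11_104 r7_275 (nat_lit 24741287) (nat_lit 0) (nat_lit 0) (nat_lit 0x8017985b4) (nat_lit 561612199),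
  Rx.mk (nat_lit 418) (nat_lit 2) (nat_lit 4) (nat_lit 6) (nat_lit 5) (nat_lit 101) (nat_lit 278) r11_101 r7_278 (nat_lit 0) (nat_lit 24741287) (nat_lit 0) (nat_lit 0x8017985b4) (nat_lit 561612199),
  Rx.mk (nat_lit 432) (nat_lit 0) (nat_lit 6) (nat_lit 6) (nat_lit 6) (nat_lit 102) (nat_lit 274) r11_102 r7_274 (nat_lit 24836041) (nat_lit 0) (nat_lit 0) (nat_lit 0x800a5d2d2) (nat_lit 562522353),
  Rx.mk (nat_lit 434) (nat_lit 2) (nat_lit 6) (nat_lit 6) (nat_lit 7) (nat_lit 103) (nat_lit 279) r11_103 r7_279 (nat_lit 0) (nat_lit 0) (nat_lit 0) (nat_lit 0x8017985b4) (nat_lit 536870912)]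
noncomputable def e57_40 : List Rx := [
  Rx.mk (nat_lit 145) (nat_lit 1) (nat_lit 2) (nat_lit 2) (nat_lit 7) (nat_lit 5) (nat_lit 167) r11_5 r2_167 (nat_lit 0) (nat_lit 0) (nat_lit 0) (nat_lit 0x8017985b4) (nat_lit 536870912)]
noncomputable def e57_41 : List Rx := [
  Rx.mk (nat_lit 145) (nat_lit 1) (nat_lit 2) (nat_lit 2) (nat_lit 7) (nat_lit 124) (nat_lit 146) r11_124 r9_146 (nat_lit 0) (nat_lit 0) (nat_lit 0) (nat_lit 0x8017985b4) (nat_lit 536870912),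
  Rx.mk (nat_lit 177) (nat_lit 1) (nat_lit 6) (nat_lit 2) (nat_lit 7) (nat_lit 123) (nat_lit 147) r11_123 r9_147 (nat_lit 0) (nat_lit 0) (nat_lit 0) (nat_lit 0x8017985b4) (nat_lit 536870912)]
noncomputable def e57_42 : List Rx := [
  Rx.mk (nat_lit 145) (nat_lit 1) (nat_lit 2) (nat_lit 2) (nat_lit 7) (nat_lit 164) (nat_lit 214) r11_164 r9_214 (nat_lit 0) (nat_lit 0) (nat_lit 0) (nat_lit 0x8017985b4) (nat_lit 536870912)]
noncomputable def e57_43 : List Rx := [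
  Rx.mk (nat_lit 144) (nat_lit 0) (nat_lit 2) (nat_lit 2) (nat_lit 6) (nat_lit 2) (nat_lit 166) r11_2 r1_166 (nat_lit 24107596) (nat_lit 0) (nat_lit 0) (nat_lit 0x800249f8c) (nat_lit 562289358),
  Rx.mk (nat_lit 145) (nat_lit 1) (nat_lit 2) (nat_lit 2) (nat_lit 7) (nat_lit 3) (nat_lit 167) r11_3 r1_167 (nat_lit 0) (nat_lit 0) (nat_lit 0) (nat_lit 0x8017985b4) (nat_lit 536870912),
  Rx.mk (nat_lit 147) (nat_lit 3) (nat_lit 2) (nat_lit 2) (nat_lit 7) (nat_lit 4) (nat_lit 168) r11_4 r1_168 (nat_lit 0) (nat_lit 0) (nat_lit 0) (nat_lit 0x8017985b4) (nat_lit 536870912)]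
noncomputable def e57_44 : List Rx := [
  Rx.mk (nat_lit 144) (nat_lit 0) (nat_lit 2) (nat_lit 2) (nat_lit 6) (nat_lit 120) (nat_lit 208) r11_120 r8_208 (nat_lit 28059580) (nat_lit 0) (nat_lit 0) (nat_lit 0x7f58302f8) (nat_lit 576670492),
  Rx.mk (nat_lit 145) (nat_lit 1) (nat_lit 2) (nat_lit 2) (nat_lit 7) (nat_lit 121) (nat_lit 211) r11_121 r8_211 (nat_lit 0) (nat_lit 0) (nat_lit 0) (nat_lit 0x8017985b4) (nat_lit 536870912),
  Rx.mk (nat_lit 147) (nat_lit 3) (nat_lit 2) (nat_lit 2) (nat_lit 7) (nat_lit 122) (nat_lit 212) r11_122 r8_212 (nat_lit 0) (nat_lit 0) (nat_lit 0) (nat_lit 0x8017985b4) (nat_lit 536870912),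
  Rx.mk (nat_lit 176) (nat_lit 0) (nat_lit 6) (nat_lit 2) (nat_lit 6) (nat_lit 118) (nat_lit 207) r11_118 r8_207 (nat_lit 24741287) (nat_lit 0) (nat_lit 0) (nat_lit 0x8017985b4) (nat_lit 561612199),
  Rx.mk (nat_lit 177) (nat_lit 1) (nat_lit 6) (nat_lit 2) (nat_lit 7) (nat_lit 119) (nat_lit 210) r11_119 r8_210 (nat_lit 0) (nat_lit 0) (nat_lit 0) (nat_lit 0x8017985b4) (nat_lit 536870912),
  Rx.mk (nat_lit 432) (nat_lit 0) (nat_lit 6) (nat_lit 6) (nat_lit 6) (nat_lit 115) (nat_lit 206) r11_115 r8_206 (nat_lit 24741287) (nat_lit 0) (nat_lit 0) (nat_lit 0x8017985b4) (nat_lit 561612199),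
  Rx.mk (nat_lit 433) (nat_lit 1) (nat_lit 6) (nat_lit 6) (nat_lit 7) (nat_lit 116) (nat_lit 209) r11_116 r8_209 (nat_lit 0) (nat_lit 0) (nat_lit 0) (nat_lit 0x8017985b4) (nat_lit 536870912),
  Rx.mk (nat_lit 434) (nat_lit 2) (nat_lit 6) (nat_lit 6) (nat_lit 7) (nat_lit 117) (nat_lit 213) r11_117 r8_213 (nat_lit 0) (nat_lit 0) (nat_lit 0) (nat_lit 0x8017985b4) (nat_lit 536870912)]
noncomputable def e57_45 : List Rx := [
  Rx.mk (nat_lit 290) (nat_lit 2) (nat_lit 4) (nat_lit 4) (nat_lit 1) (nat_lit 108) (nat_lit 237) r11_108 r1_237 (nat_lit 0) (nat_lit 45330043) (nat_lit 51763813) (nat_lit 0x7bfdcf3ca) (nat_lit 699634368),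
  Rx.mk (nat_lit 294) (nat_lit 6) (nat_lit 4) (nat_lit 4) (nat_lit 1) (nat_lit 107) (nat_lit 234) r11_107 r1_234 (nat_lit 0) (nat_lit 26935402) (nat_lit 88719546) (nat_lit 0x76bea858e) (nat_lit 802950560),
  Rx.mk (nat_lit 318) (nat_lit 6) (nat_lit 7) (nat_lit 4) (nat_lit 3) (nat_lit 111) (nat_lit 235) r11_111 r1_235 (nat_lit 0) (nat_lit 0) (nat_lit 25084538) (nat_lit 0x8001d6c6c) (nat_lit 563283450),
  Rx.mk (nat_lit 418) (nat_lit 2) (nat_lit 4) (nat_lit 6) (nat_lit 5) (nat_lit 109) (nat_lit 238) r11_109 r1_238 (nat_lit 0) (nat_lit 24741287) (nat_lit 0) (nat_lit 0x8017985b4) (nat_lit 561612199),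
  Rx.mk (nat_lit 434) (nat_lit 2) (nat_lit 6) (nat_lit 6) (nat_lit 7) (nat_lit 110) (nat_lit 239) r11_110 r1_239 (nat_lit 0) (nat_lit 0) (nat_lit 0) (nat_lit 0x8017985b4) (nat_lit 536870912),
  Rx.mk (nat_lit 510) (nat_lit 6) (nat_lit 7) (nat_lit 7) (nat_lit 7) (nat_lit 112) (nat_lit 236) r11_112 r1_236 (nat_lit 0) (nat_lit 0) (nat_lit 0) (nat_lit 0x81471cbfe) (nat_lit 518335312)]
noncomputable def e57_46 : List Rx := [
  Rx.mk (nat_lit 290) (nat_lit 2) (nat_lit 4) (nat_lit 4) (nat_lit 1) (nat_lit 309) (nat_lit 246) r11_309 r2_246 (nat_lit 0) (nat_lit 33757685) (nat_lit 47863837) (nat_lit 0x7c693e598) (nat_lit 677403034),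
  Rx.mk (nat_lit 294) (nat_lit 6) (nat_lit 4) (nat_lit 4) (nat_lit 1) (nat_lit 308) (nat_lit 241) r11_308 r2_241 (nat_lit 0) (nat_lit 25006969) (nat_lit 36134950) (nat_lit 0x75d2a943a) (nat_lit 763343081),
  Rx.mk (nat_lit 298) (nat_lit 2) (nat_lit 5) (nat_lit 4) (nat_lit 3) (nat_lit 313) (nat_lit 247) r11_313 r2_247 (nat_lit 0) (nat_lit 0) (nat_lit 24741287) (nat_lit 0x8017985b4) (nat_lit 561612199),
  Rx.mk (nat_lit 302) (nat_lit 6) (nat_lit 5) (nat_lit 4) (nat_lit 3) (nat_lit 312) (nat_lit 242) r11_312 r2_242 (nat_lit 0) (nat_lit 0) (nat_lit 24741287) (nat_lit 0x8017985b4) (nat_lit 561612199),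
  Rx.mk (nat_lit 418) (nat_lit 2) (nat_lit 4) (nat_lit 6) (nat_lit 5) (nat_lit 310) (nat_lit 248) r11_310 r2_248 (nat_lit 0) (nat_lit 24741287) (nat_lit 0) (nat_lit 0x8017985b4) (nat_lit 561612199),
  Rx.mk (nat_lit 426) (nat_lit 2) (nat_lit 5) (nat_lit 6) (nat_lit 7) (nat_lit 314) (nat_lit 249) r11_314 r2_249 (nat_lit 0) (nat_lit 0) (nat_lit 0) (nat_lit 0x8017985b4) (nat_lit 536870912),
  Rx.mk (nat_lit 434) (nat_lit 2) (nat_lit 6) (nat_lit 6) (nat_lit 7) (nat_lit 316) (nat_lit 250) r11_316 r2_250 (nat_lit 0) (nat_lit 0) (nat_lit 0) (nat_lit 0x8017985b4) (nat_lit 536870912),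
  Rx.mk (nat_lit 486) (nat_lit 6) (nat_lit 4) (nat_lit 7) (nat_lit 5) (nat_lit 311) (nat_lit 243) r11_311 r2_243 (nat_lit 0) (nat_lit 24741287) (nat_lit 0) (nat_lit 0x8017985b4) (nat_lit 561612199),
  Rx.mk (nat_lit 494) (nat_lit 6) (nat_lit 5) (nat_lit 7) (nat_lit 7) (nat_lit 315) (nat_lit 244) r11_315 r2_244 (nat_lit 0) (nat_lit 0) (nat_lit 0) (nat_lit 0x8017985b4) (nat_lit 536870912),
  Rx.mk (nat_lit 510) (nat_lit 6) (nat_lit 7) (nat_lit 7) (nat_lit 7) (nat_lit 317) (nat_lit 245) r11_317 r2_245 (nat_lit 0) (nat_lit 0) (nat_lit 0) (nat_lit 0x8017985b4) (nat_lit 536870912)]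
noncomputable def e57_47 : List Rx := [
  Rx.mk (nat_lit 418) (nat_lit 2) (nat_lit 4) (nat_lit 6) (nat_lit 5) (nat_lit 113) (nat_lit 157) r11_113 r8_157 (nat_lit 0) (nat_lit 24741287) (nat_lit 0) (nat_lit 0x8017985b4) (nat_lit 561612199),
  Rx.mk (nat_lit 434) (nat_lit 2) (nat_lit 6) (nat_lit 6) (nat_lit 7) (nat_lit 114) (nat_lit 158) r11_114 r8_158 (nat_lit 0) (nat_lit 0) (nat_lit 0) (nat_lit 0x8017985b4) (nat_lit 536870912)]
noncomputable def e57_48 : List Rx := [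
  Rx.mk (nat_lit 418) (nat_lit 2) (nat_lit 4) (nat_lit 6) (nat_lit 5) (nat_lit 330) (nat_lit 216) r11_330 r9_216 (nat_lit 0) (nat_lit 24741287) (nat_lit 0) (nat_lit 0x8017985b4) (nat_lit 561612199),
  Rx.mk (nat_lit 426) (nat_lit 2) (nat_lit 5) (nat_lit 6) (nat_lit 7) (nat_lit 331) (nat_lit 217) r11_331 r9_217 (nat_lit 0) (nat_lit 0) (nat_lit 0) (nat_lit 0x8017985b4) (nat_lit 536870912),
  Rx.mk (nat_lit 434) (nat_lit 2) (nat_lit 6) (nat_lit 6) (nat_lit 7) (nat_lit 332) (nat_lit 218) r11_332 r9_218 (nat_lit 0) (nat_lit 0) (nat_lit 0) (nat_lit 0x8017985b4) (nat_lit 536870912)]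
noncomputable def e57_49 : List Rx := [
  Rx.mk (nat_lit 290) (nat_lit 2) (nat_lit 4) (nat_lit 4) (nat_lit 1) (nat_lit 319) (nat_lit 229) r11_319 r9_229 (nat_lit 0) (nat_lit 47287016) (nat_lit 47287016) (nat_lit 0x7cbaf48b0) (nat_lit 685204344),
  Rx.mk (nat_lit 294) (nat_lit 6) (nat_lit 4) (nat_lit 4) (nat_lit 1) (nat_lit 318) (nat_lit 231) r11_318 r9_231 (nat_lit 0) (nat_lit 43672610) (nat_lit 43848106) (nat_lit 0x78800f28a) (nat_lit 746426178),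
  Rx.mk (nat_lit 298) (nat_lit 2) (nat_lit 5) (nat_lit 4) (nat_lit 3) (nat_lit 323) (nat_lit 230) r11_323 r9_230 (nat_lit 0) (nat_lit 0) (nat_lit 24741287) (nat_lit 0x8017985b4) (nat_lit 561612199),
  Rx.mk (nat_lit 302) (nat_lit 6) (nat_lit 5) (nat_lit 4) (nat_lit 3) (nat_lit 322) (nat_lit 232) r11_322 r9_232 (nat_lit 0) (nat_lit 0) (nat_lit 24741287) (nat_lit 0x8017985b4) (nat_lit 561612199),
  Rx.mk (nat_lit 362) (nat_lit 2) (nat_lit 5) (nat_lit 5) (nat_lit 7) (nat_lit 325) (nat_lit 233) r11_325 r9_233 (nat_lit 0) (nat_lit 0) (nat_lit 0) (nat_lit 0x8017985b4) (nat_lit 536870912),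
  Rx.mk (nat_lit 366) (nat_lit 6) (nat_lit 5) (nat_lit 5) (nat_lit 7) (nat_lit 324) (nat_lit 234) r11_324 r9_234 (nat_lit 0) (nat_lit 0) (nat_lit 0) (nat_lit 0x8017985b4) (nat_lit 536870912),
  Rx.mk (nat_lit 418) (nat_lit 2) (nat_lit 4) (nat_lit 6) (nat_lit 5) (nat_lit 320) (nat_lit 238) r11_320 r9_238 (nat_lit 0) (nat_lit 24741287) (nat_lit 0) (nat_lit 0x8017985b4) (nat_lit 561612199),
  Rx.mk (nat_lit 426) (nat_lit 2) (nat_lit 5) (nat_lit 6) (nat_lit 7) (nat_lit 326) (nat_lit 239) r11_326 r9_239 (nat_lit 0) (nat_lit 0) (nat_lit 0) (nat_lit 0x8017985b4) (nat_lit 536870912),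
  Rx.mk (nat_lit 434) (nat_lit 2) (nat_lit 6) (nat_lit 6) (nat_lit 7) (nat_lit 328) (nat_lit 240) r11_328 r9_240 (nat_lit 0) (nat_lit 0) (nat_lit 0) (nat_lit 0x8017985b4) (nat_lit 536870912),
  Rx.mk (nat_lit 486) (nat_lit 6) (nat_lit 4) (nat_lit 7) (nat_lit 5) (nat_lit 321) (nat_lit 235) r11_321 r9_235 (nat_lit 0) (nat_lit 24741287) (nat_lit 0) (nat_lit 0x8017985b4) (nat_lit 561612199),
  Rx.mk (nat_lit 494) (nat_lit 6) (nat_lit 5) (nat_lit 7) (nat_lit 7) (nat_lit 327) (nat_lit 236) r11_327 r9_236 (nat_lit 0) (nat_lit 0) (nat_lit 0) (nat_lit 0x8017985b4) (nat_lit 536870912),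
  Rx.mk (nat_lit 510) (nat_lit 6) (nat_lit 7) (nat_lit 7) (nat_lit 7) (nat_lit 329) (nat_lit 237) r11_329 r9_237 (nat_lit 0) (nat_lit 0) (nat_lit 0) (nat_lit 0x8017985b4) (nat_lit 536870912)]
noncomputable def e57_50 : List Rx := [
  Rx.mk (nat_lit 147) (nat_lit 3) (nat_lit 2) (nat_lit 2) (nat_lit 7) (nat_lit 6) (nat_lit 216) r11_6 r3_216 (nat_lit 0) (nat_lit 0) (nat_lit 0) (nat_lit 0x884245afc) (nat_lit 411412412),
  Rx.mk (nat_lit 478) (nat_lit 6) (nat_lit 3) (nat_lit 7) (nat_lit 7) (nat_lit 7) (nat_lit 215) r11_7 r3_215 (nat_lit 0) (nat_lit 0) (nat_lit 0) (nat_lit 0x8f1cadf90) (nat_lit 306718562)]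
noncomputable def e57_51 : List Rx := [
  Rx.mk (nat_lit 147) (nat_lit 3) (nat_lit 2) (nat_lit 2) (nat_lit 7) (nat_lit 135) (nat_lit 211) r11_135 r4_211 (nat_lit 0) (nat_lit 0) (nat_lit 0) (nat_lit 0x80f168d7a) (nat_lit 523350662),
  Rx.mk (nat_lit 176) (nat_lit 0) (nat_lit 6) (nat_lit 2) (nat_lit 6) (nat_lit 129) (nat_lit 209) r11_129 r4_209 (nat_lit 13063204) (nat_lit 0) (nat_lit 0) (nat_lit 0x7f229ebd0) (nat_lit 564962416),
  Rx.mk (nat_lit 179) (nat_lit 3) (nat_lit 6) (nat_lit 2) (nat_lit 7) (nat_lit 130) (nat_lit 210) r11_130 r4_210 (nat_lit 0) (nat_lit 0) (nat_lit 0) (nat_lit 0x81dd34f24) (nat_lit 509302462),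
  Rx.mk (nat_lit 290) (nat_lit 2) (nat_lit 4) (nat_lit 4) (nat_lit 1) (nat_lit 125) (nat_lit 212) r11_125 r4_212 (nat_lit 0) (nat_lit 514055) (nat_lit 616962) (nat_lit 0x69c2df4b6) (nat_lit 897748479),
  Rx.mk (nat_lit 314) (nat_lit 2) (nat_lit 7) (nat_lit 4) (nat_lit 3) (nat_lit 132) (nat_lit 213) r11_132 r4_213 (nat_lit 0) (nat_lit 0) (nat_lit 13764592) (nat_lit 0x8088c91ca) (nat_lit 543663854),
  Rx.mk (nat_lit 318) (nat_lit 6) (nat_lit 7) (nat_lit 4) (nat_lit 3) (nat_lit 131) (nat_lit 205) r11_131 r4_205 (nat_lit 0) (nat_lit 0) (nat_lit 31334360) (nat_lit 0x7f54de2a8) (nat_lit 580083322),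
  Rx.mk (nat_lit 418) (nat_lit 2) (nat_lit 4) (nat_lit 6) (nat_lit 5) (nat_lit 126) (nat_lit 214) r11_126 r4_214 (nat_lit 0) (nat_lit 10106242) (nat_lit 0) (nat_lit 0x8153a01f0) (nat_lit 527714454),
  Rx.mk (nat_lit 432) (nat_lit 0) (nat_lit 6) (nat_lit 6) (nat_lit 6) (nat_lit 127) (nat_lit 208) r11_127 r4_208 (nat_lit 12952000) (nat_lit 0) (nat_lit 0) (nat_lit 0x80562ac28) (nat_lit 545915612),
  Rx.mk (nat_lit 434) (nat_lit 2) (nat_lit 6) (nat_lit 6) (nat_lit 7) (nat_lit 128) (nat_lit 216) r11_128 r4_216 (nat_lit 0) (nat_lit 0) (nat_lit 0) (nat_lit 0x80812fcde) (nat_lit 530394062),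
  Rx.mk (nat_lit 442) (nat_lit 2) (nat_lit 7) (nat_lit 6) (nat_lit 7) (nat_lit 133) (nat_lit 215) r11_133 r4_215 (nat_lit 0) (nat_lit 0) (nat_lit 0) (nat_lit 0x807403de4) (nat_lit 531198062),
  Rx.mk (nat_lit 478) (nat_lit 6) (nat_lit 3) (nat_lit 7) (nat_lit 7) (nat_lit 136) (nat_lit 207) r11_136 r4_207 (nat_lit 0) (nat_lit 0) (nat_lit 0) (nat_lit 0x825f8dcd2) (nat_lit 501520162),
  Rx.mk (nat_lit 510) (nat_lit 6) (nat_lit 7) (nat_lit 7) (nat_lit 7) (nat_lit 134) (nat_lit 206) r11_134 r4_206 (nat_lit 0) (nat_lit 0) (nat_lit 0) (nat_lit 0x81e84d53c) (nat_lit 508548712)]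
noncomputable def e57_52 : List Rx := [
  Rx.mk (nat_lit 478) (nat_lit 6) (nat_lit 3) (nat_lit 7) (nat_lit 7) (nat_lit 265) (nat_lit 230) r11_265 r5_230 (nat_lit 0) (nat_lit 0) (nat_lit 0) (nat_lit 0x880aa8a68) (nat_lit 414822412)]
noncomputable def e57_53 : List Rx := [
  Rx.mk (nat_lit 147) (nat_lit 3) (nat_lit 2) (nat_lit 2) (nat_lit 7) (nat_lit 8) (nat_lit 143) r11_8 r4_143 (nat_lit 0) (nat_lit 0) (nat_lit 0) (nat_lit 0x7ff232496) (nat_lit 539166062)]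
noncomputable def e57_54 : List Rx := [
  Rx.mk (nat_lit 147) (nat_lit 3) (nat_lit 2) (nat_lit 2) (nat_lit 7) (nat_lit 143) (nat_lit 221) r11_143 r10_221 (nat_lit 0) (nat_lit 0) (nat_lit 0) (nat_lit 0x8017985b4) (nat_lit 536870912),
  Rx.mk (nat_lit 176) (nat_lit 0) (nat_lit 6) (nat_lit 2) (nat_lit 6) (nat_lit 140) (nat_lit 219) r11_140 r10_219 (nat_lit 24894793) (nat_lit 0) (nat_lit 0) (nat_lit 0x8000a4c72) (nat_lit 563170405),
  Rx.mk (nat_lit 179) (nat_lit 3) (nat_lit 6) (nat_lit 2) (nat_lit 7) (nat_lit 141) (nat_lit 220) r11_141 r10_220 (nat_lit 0) (nat_lit 0) (nat_lit 0) (nat_lit 0x8017985b4) (nat_lit 536870912),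
  Rx.mk (nat_lit 418) (nat_lit 2) (nat_lit 4) (nat_lit 6) (nat_lit 5) (nat_lit 137) (nat_lit 222) r11_137 r10_222 (nat_lit 0) (nat_lit 24741287) (nat_lit 0) (nat_lit 0x8017985b4) (nat_lit 561612199),
  Rx.mk (nat_lit 432) (nat_lit 0) (nat_lit 6) (nat_lit 6) (nat_lit 6) (nat_lit 138) (nat_lit 218) r11_138 r10_218 (nat_lit 24741287) (nat_lit 0) (nat_lit 0) (nat_lit 0x8017985b4) (nat_lit 561612199),
  Rx.mk (nat_lit 434) (nat_lit 2) (nat_lit 6) (nat_lit 6) (nat_lit 7) (nat_lit 139) (nat_lit 224) r11_139 r10_224 (nat_lit 0) (nat_lit 0) (nat_lit 0) (nat_lit 0x8017985b4) (nat_lit 536870912),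
  Rx.mk (nat_lit 442) (nat_lit 2) (nat_lit 7) (nat_lit 6) (nat_lit 7) (nat_lit 142) (nat_lit 223) r11_142 r10_223 (nat_lit 0) (nat_lit 0) (nat_lit 0) (nat_lit 0x8017985b4) (nat_lit 536870912)]
noncomputable def e57_55 : List Rx := []
noncomputable def e57_56 : List Rx := [
  Rx.mk (nat_lit 7) (nat_lit 7) (nat_lit 0) (nat_lit 0) (nat_lit 1) (nat_lit 9) (nat_lit 140) r11_9 r5_140 (nat_lit 0) (nat_lit 474232) (nat_lit 674925) (nat_lit 0x722cb1ea4) (nat_lit 761731069),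
  Rx.mk (nat_lit 23) (nat_lit 7) (nat_lit 2) (nat_lit 0) (nat_lit 3) (nat_lit 11) (nat_lit 146) r11_11 r5_146 (nat_lit 0) (nat_lit 0) (nat_lit 9828533) (nat_lit 0x7fdfbd658) (nat_lit 549901095),
  Rx.mk (nat_lit 147) (nat_lit 3) (nat_lit 2) (nat_lit 2) (nat_lit 7) (nat_lit 13) (nat_lit 148) r11_13 r5_148 (nat_lit 0) (nat_lit 0) (nat_lit 0) (nat_lit 0x8219c55ce) (nat_lit 505691562),
  Rx.mk (nat_lit 151) (nat_lit 7) (nat_lit 2) (nat_lit 2) (nat_lit 7) (nat_lit 12) (nat_lit 149) r11_12 r5_149 (nat_lit 0) (nat_lit 0) (nat_lit 0) (nat_lit 0x80700d5c8) (nat_lit 531445012),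
  Rx.mk (nat_lit 199) (nat_lit 7) (nat_lit 0) (nat_lit 3) (nat_lit 5) (nat_lit 10) (nat_lit 141) r11_10 r5_141 (nat_lit 0) (nat_lit 4328604) (nat_lit 0) (nat_lit 0x8397c64a4) (nat_lit 487049866),
  Rx.mk (nat_lit 215) (nat_lit 7) (nat_lit 2) (nat_lit 3) (nat_lit 7) (nat_lit 14) (nat_lit 147) r11_14 r5_147 (nat_lit 0) (nat_lit 0) (nat_lit 0) (nat_lit 0x81c0f7b72) (nat_lit 511039762),
  Rx.mk (nat_lit 220) (nat_lit 4) (nat_lit 3) (nat_lit 3) (nat_lit 6) (nat_lit 16) (nat_lit 142) r11_16 r5_142 (nat_lit 13610733) (nat_lit 0) (nat_lit 0) (nat_lit 0x7f8c34efa) (nat_lit 558980045),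
  Rx.mk (nat_lit 222) (nat_lit 6) (nat_lit 3) (nat_lit 3) (nat_lit 7) (nat_lit 17) (nat_lit 144) r11_17 r5_144 (nat_lit 0) (nat_lit 0) (nat_lit 0) (nat_lit 0x804f3bf3e) (nat_lit 533452962),
  Rx.mk (nat_lit 223) (nat_lit 7) (nat_lit 3) (nat_lit 3) (nat_lit 7) (nat_lit 18) (nat_lit 143) r11_18 r5_143 (nat_lit 0) (nat_lit 0) (nat_lit 0) (nat_lit 0x804f350bc) (nat_lit 533454612),
  Rx.mk (nat_lit 478) (nat_lit 6) (nat_lit 3) (nat_lit 7) (nat_lit 7) (nat_lit 15) (nat_lit 145) r11_15 r5_145 (nat_lit 0) (nat_lit 0) (nat_lit 0) (nat_lit 0x839723e3e) (nat_lit 482866162)]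
noncomputable def e57_57 : List Rx := [
  Rx.mk (nat_lit 7) (nat_lit 7) (nat_lit 0) (nat_lit 0) (nat_lit 1) (nat_lit 154) (nat_lit 144) r11_154 r11_144 (nat_lit 0) (nat_lit 2309132) (nat_lit 2749576) (nat_lit 0x74869b7b0) (nat_lit 727898020),
  Rx.mk (nat_lit 23) (nat_lit 7) (nat_lit 2) (nat_lit 0) (nat_lit 3) (nat_lit 156) (nat_lit 150) r11_156 r11_150 (nat_lit 0) (nat_lit 0) (nat_lit 22669922) (nat_lit 0x800c22b12) (nat_lit 560231734),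
  Rx.mk (nat_lit 147) (nat_lit 3) (nat_lit 2) (nat_lit 2) (nat_lit 7) (nat_lit 158) (nat_lit 152) r11_158 r11_152 (nat_lit 0) (nat_lit 0) (nat_lit 0) (nat_lit 0x80b7ebb88) (nat_lit 527004212),
  Rx.mk (nat_lit 151) (nat_lit 7) (nat_lit 2) (nat_lit 2) (nat_lit 7) (nat_lit 157) (nat_lit 153) r11_157 r11_153 (nat_lit 0) (nat_lit 0) (nat_lit 0) (nat_lit 0x8017985b4) (nat_lit 536870912),
  Rx.mk (nat_lit 179) (nat_lit 3) (nat_lit 6) (nat_lit 2) (nat_lit 7) (nat_lit 149) (nat_lit 160) r11_149 r11_160 (nat_lit 0) (nat_lit 0) (nat_lit 0) (nat_lit 0x801359f98) (nat_lit 537129362),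
  Rx.mk (nat_lit 199) (nat_lit 7) (nat_lit 0) (nat_lit 3) (nat_lit 5) (nat_lit 155) (nat_lit 145) r11_155 r11_145 (nat_lit 0) (nat_lit 19246826) (nat_lit 0) (nat_lit 0x8067e6958) (nat_lit 551201238),
  Rx.mk (nat_lit 215) (nat_lit 7) (nat_lit 2) (nat_lit 3) (nat_lit 7) (nat_lit 159) (nat_lit 151) r11_159 r11_151 (nat_lit 0) (nat_lit 0) (nat_lit 0) (nat_lit 0x8017985b4) (nat_lit 536870912),
  Rx.mk (nat_lit 220) (nat_lit 4) (nat_lit 3) (nat_lit 3) (nat_lit 6) (nat_lit 161) (nat_lit 146) r11_161 r11_146 (nat_lit 22142472) (nat_lit 0) (nat_lit 0) (nat_lit 0x800df71e0) (nat_lit 559592834),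
  Rx.mk (nat_lit 222) (nat_lit 6) (nat_lit 3) (nat_lit 3) (nat_lit 7) (nat_lit 162) (nat_lit 148) r11_162 r11_148 (nat_lit 0) (nat_lit 0) (nat_lit 0) (nat_lit 0x8017985b4) (nat_lit 536870912),
  Rx.mk (nat_lit 223) (nat_lit 7) (nat_lit 3) (nat_lit 3) (nat_lit 7) (nat_lit 163) (nat_lit 147) r11_163 r11_147 (nat_lit 0) (nat_lit 0) (nat_lit 0) (nat_lit 0x8017985b4) (nat_lit 536870912),
  Rx.mk (nat_lit 290) (nat_lit 2) (nat_lit 4) (nat_lit 4) (nat_lit 1) (nat_lit 144) (nat_lit 154) r11_144 r11_154 (nat_lit 0) (nat_lit 2309132) (nat_lit 2749576) (nat_lit 0x74869b7b0) (nat_lit 727898020),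
  Rx.mk (nat_lit 314) (nat_lit 2) (nat_lit 7) (nat_lit 4) (nat_lit 3) (nat_lit 150) (nat_lit 156) r11_150 r11_156 (nat_lit 0) (nat_lit 0) (nat_lit 22669922) (nat_lit 0x800c22b12) (nat_lit 560231734),
  Rx.mk (nat_lit 418) (nat_lit 2) (nat_lit 4) (nat_lit 6) (nat_lit 5) (nat_lit 145) (nat_lit 155) r11_145 r11_155 (nat_lit 0) (nat_lit 19246826) (nat_lit 0) (nat_lit 0x8067e6958) (nat_lit 551201238),
  Rx.mk (nat_lit 432) (nat_lit 0) (nat_lit 6) (nat_lit 6) (nat_lit 6) (nat_lit 146) (nat_lit 161) r11_146 r11_161 (nat_lit 22142472) (nat_lit 0) (nat_lit 0) (nat_lit 0x800df71e0) (nat_lit 559592834),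
  Rx.mk (nat_lit 434) (nat_lit 2) (nat_lit 6) (nat_lit 6) (nat_lit 7) (nat_lit 147) (nat_lit 163) r11_147 r11_163 (nat_lit 0) (nat_lit 0) (nat_lit 0) (nat_lit 0x8017985b4) (nat_lit 536870912),
  Rx.mk (nat_lit 435) (nat_lit 3) (nat_lit 6) (nat_lit 6) (nat_lit 7) (nat_lit 148) (nat_lit 162) r11_148 r11_162 (nat_lit 0) (nat_lit 0) (nat_lit 0) (nat_lit 0x8017985b4) (nat_lit 536870912),
  Rx.mk (nat_lit 442) (nat_lit 2) (nat_lit 7) (nat_lit 6) (nat_lit 7) (nat_lit 151) (nat_lit 159) r11_151 r11_159 (nat_lit 0) (nat_lit 0) (nat_lit 0) (nat_lit 0x8017985b4) (nat_lit 536870912),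
  Rx.mk (nat_lit 478) (nat_lit 6) (nat_lit 3) (nat_lit 7) (nat_lit 7) (nat_lit 160) (nat_lit 149) r11_160 r11_149 (nat_lit 0) (nat_lit 0) (nat_lit 0) (nat_lit 0x801359f98) (nat_lit 537129362),
  Rx.mk (nat_lit 506) (nat_lit 2) (nat_lit 7) (nat_lit 7) (nat_lit 7) (nat_lit 153) (nat_lit 157) r11_153 r11_157 (nat_lit 0) (nat_lit 0) (nat_lit 0) (nat_lit 0x8017985b4) (nat_lit 536870912),
  Rx.mk (nat_lit 510) (nat_lit 6) (nat_lit 7) (nat_lit 7) (nat_lit 7) (nat_lit 152) (nat_lit 158) r11_152 r11_158 (nat_lit 0) (nat_lit 0) (nat_lit 0) (nat_lit 0x80b7ebb88) (nat_lit 527004212)]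
noncomputable def e57 : List (List Rx) := [e57_0, e57_1, e57_2, e57_3, e57_4, e57_5, e57_6, e57_7, e57_8, e57_9, e57_10, e57_11, e57_12, e57_13, e57_14, e57_15, e57_16, e57_17, e57_18, e57_19, e57_20, e57_21, e57_22, e57_23, e57_24, e57_25, e57_26, e57_27, e57_28, e57_29, e57_30, e57_31, e57_32, e57_33, e57_34, e57_35, e57_36, e57_37, e57_38, e57_39, e57_40, e57_41, e57_42, e57_43, e57_44, e57_45, e57_46, e57_47, e57_48, e57_49, e57_50, e57_51, e57_52, e57_53, e57_54, e57_55, e57_56, e57_57]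

end Pool.Agent.AKXS_24_34_V1
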