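import Pool.Agent.AKXS_24_34_V1.Dat
import Pool.Agent.AKXS_24_34_V1.Cq
import Pool.Agent.AKXS_24_34_V1.Cz
import Pool.Agent.AKX.Split

set_option autoImplicit false

namespace Pool.Agent.AKXS_24_34_V1

open Pool.Agent.AKX Pool.Agent.AKU

theorem pq :
    (Pq.sz (nat_lit 64) D.nt (nat_lit 0) D.off0 (nat_lit 0) = true) ∧
    (symY (nat_lit 64) D.q0L (rg (nat_lit 0) (nat_lit 58)) = true) ∧
    (Pq.pv (nat_lit 64) (nat_lit 0) D.off0 (nat_lit 0) D.q0L (fun _ => nat_lit 0) (fun _ => nat_lit 0) (rg (nat_lit 0) (nat_lit 40)) = true) ∧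
    (Pq.pv (nat_lit 64) (nat_lit 0) D.off0 (nat_lit 0) D.q0L (fun _ => nat_lit 0) (fun _ => nat_lit 0) (rg (nat_lit 40) (nat_lit 18)) = true) :=
  ⟨by decide +kernel,
   by decide +kernel,
   by decide +kernel,
   by decide +kernel⟩

theorem pz :
    (Pz.sz (nat_lit 64) D.nt (nat_lit 0) D.oz (nat_lit 0) = true) ∧
    (symY (nat_lit 64) D.zL (rg (nat_lit 0) (nat_lit 58)) = true) ∧
    (Pz.pv (nat_lit 64) (nat_lit 0) D.oz (nat_lit 0) D.zL (fun _ => nat_lit 0) (fun _ => nat_lit 0) (rg (nat_lit 0) (nat_lit 40)) = true) ∧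
    (Pz.pv (nat_lit 64) (nat_lit 0) D.oz (nat_lit 0) D.zL (fun _ => nat_lit 0) (fun _ => nat_lit 0) (rg (nat_lit 40) (nat_lit 18)) = true) :=
  ⟨by decide +kernel,
   by decide +kernel,
   by decide +kernel,
   by decide +kernel⟩

end Pool.Agent.AKXS_24_34_V1
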